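import Pool.Agent.MP_1f1ca1_co.Cert.P10

set_option autoImplicit false
set_option maxRecDepth 1000000
set_option maxHeartbeats 0

namespace Pool.Agent.MP_1f1ca1_co

noncomputable def c10_0 : List C :=
  (List.cons (C.big C.nil (C.big C.nil (C.node (nat_lit 0) (nat_lit 1) (nat_lit 5) (C.cons (nat_lit 35) (C.node (nat_lit 0) (nat_lit 1) (nat_lit 6) (C.cons (nat_lit 67) (C.node (nat_lit 0) (nat_lit 1) (nat_lit 7) (C.cons (nat_lit 131) (C.node (nat_lit 0) (nat_lit 1) (nat_lit 8) (C.cons (nat_lit 259) (C.node (nat_lit 0) (nat_lit 2) (nat_lit 5) (C.cons (nat_lit 37) (C.node (nat_lit 0) (nat_lit 2) (nat_lit 6) (C.cons (nat_lit 69) (C.node (nat_lit 0) (nat_lit 2) (nat_lit 7) (C.cons (nat_lit 133) (C.node (nat_lit 0) (nat_lit 2) (nat_lit 8) (C.cons (nat_lit 261) (C.node (nat_lit 0) (nat_lit 3) (nat_lit 5) (C.cons (nat_lit 41) (C.node (nat_lit 0) (nat_lit 3) (nat_lit 6) (C.cons (nat_lit 73) (C.node (nat_lit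 0) (nat_lit 3) (nat_lit 7) C.nil) C.nil)) C.nil)) C.nil)) C.nil)) C.nil)) C.nil)) C.nil)) C.nil)) C.nil)) C.nil)))) (List.cons (C.node (nat_lit 0) (nat_lit 3) (nat_lit 5) (C.cons (nat_lit 41) (C.node (nat_lit 0) (nat_lit 4) (nat_lit 5) (C.cons (nat_lit 49) (C.node (nat_lit 0) (nat_lit 3) (nat_lit 6) (C.cons (nat_lit 75) (C.node (nat_lit 0) (nat_lit 3) (nat_lit 7) (C.cons (nat_lit 137) (C.node (nat_lit 0) (nat_lit 3) (nat_lit 8) (C.cons (nat_lit 265) (C.node (nat_lit 0) (nat_lit 4) (nat_lit 6) C.nil) C.nil)) C.nil)) (C.cons (nat_lit 73) (C.node (nat_lit 0) (nat_lit 1) (nat_lit 6) (C.cons (nat_lit 83) (C.node (nat_lit 0) (nat_lit 4) (nat_lit 7) (C.cons (nat_lit 145) (C.node (nat_lit 0) (nat_lit 4) (nat_lit 8) C.nil) C.nil)) (C.cons (nat_lit 67) (C.node (nat_lit 0) (nat_lit 4) (nat_lit 6) C.nil) C.nil))) C.nil))) C.nil)) C.nil)) (List.cons (C.big C.nil (C.node (nat_lit 0) (nat_lit 1) (nat_lit 9) (C.cons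 (nat_lit 515) (C.node (nat_lit 0) (nat_lit 2) (nat_lit 5) (C.cons (nat_lit 39) (C.node (nat_lit 0) (nat_lit 2) (nat_lit 6) (C.cons (nat_lit 69) (C.node (nat_lit 0) (nat_lit 2) (nat_lit 7) (C.cons (nat_lit 133) (C.node (nat_lit 0) (nat_lit 2) (nat_lit 8) (C.cons (nat_lit 261) (C.ref (nat_lit 1) (nat_lit 654820258320)) C.nil)) C.nil)) C.nil)) (C.cons (nat_lit 37) (C.node (nat_lit 0) (nat_lit 2) (nat_lit 6) (C.cons (nat_lit 71) (C.node (nat_lit 0) (nat_lit 2) (nat_lit 7) (C.cons (nat_lit 133) (C.node (nat_lit 0) (nat_lit 2) (nat_lit 8) (C.cons (nat_lit 261) (C.ref (nat_lit 1) (nat_lit 654804529680)) C.nil)) C.nil)) (C.cons (nat_lit 69) (C.node (nat_lit 0) (nat_lit 2) (nat_lit 7) (C.cons (nat_lit 135) (C.node (nat_lit 0) (nat_lit 2) (nat_lit 8) (C.cons (nat_lit 261) (C.ref (nat_lit 1) (nat_lit 654537142800)) C.nil)) (C.cons (nat_lit 133) (C.node (nat_lit 0) (nat_lit 1) (nat_lit 2) (C.cons (nat_lit 263)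 (C.ref (nat_lit 1) (nat_lit 650243224080)) (C.cons (nat_lit 7) (C.node (nat_lit 0) (nat_lit 2) (nat_lit 8) (C.cons (nat_lit 261) (C.node (nat_lit 0) (nat_lit 3) (nat_lit 5) (C.cons (nat_lit 43) (C.node (nat_lit 0) (nat_lit 3) (nat_lit 6) (C.cons (nat_lit 73) (C.node (nat_lit 0) (nat_lit 3) (nat_lit 7) (C.cons (nat_lit 137) (C.node (nat_lit 0) (nat_lit 3) (nat_lit 8) C.nil) C.nil)) C.nil)) (C.cons (nat_lit 41) (C.node (nat_lit 0) (nat_lit 1) (nat_lit 5) (C.cons (nat_lit 51) (C.node (nat_lit 0) (nat_lit 4) (nat_lit 6) (C.cons (nat_lit 81) (C.node (nat_lit 0) (nat_lit 4) (nat_lit 7) C.nil) C.nil)) (C.cons (nat_lit 35) (C.node (nat_lit 0) (nat_lit 4) (nat_lit 5) C.nil) C.nil))) C.nil))) C.nil)) C.nil))) C.nil))) C.nil))) C.nil))) C.nil))) (List.cons (C.qs C.nil) (List.cons (C.node (nat_lit 1) (nat_lit 5) (nat_lit 8) (C.cons (nat_lit 298) (C.node (nat_lit 1) (nat_lit 5) (nat_lit 9) (C.cons (nat_lit 546)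 (C.node (nat_lit 3) (nat_lit 5) (nat_lit 9) (C.cons (nat_lit 552) (C.node (nat_lit 4) (nat_lit 5) (nat_lit 8) (C.cons (nat_lit 304) (C.node (nat_lit 1) (nat_lit 2) (nat_lit 8) (C.cons (nat_lit 774) (C.node (nat_lit 3) (nat_lit 8) (nat_lit 9) (C.cons (nat_lit 776) (C.node (nat_lit 4) (nat_lit 8) (nat_lit 9) (C.cons (nat_lit 784) (C.node (nat_lit 1) (nat_lit 2) (nat_lit 3) (C.cons (nat_lit 30) (C.node (nat_lit 1) (nat_lit 3) (nat_lit 7) (C.cons (nat_lit 650) (C.miq (nat_lit 2301888274) (nat_lit 649198275160671727967404167)) (C.cons (nat_lit 138)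
  (C.node (nat_lit 1) (nat_lit 3) (nat_lit 9) (C.cons (nat_lit 522) (C.node (nat_lit 1) (nat_lit 6) (nat_lit 7) (C.cons (nat_lit 210) (C.miq (nat_lit 2517894435) (nat_lit 253884328300144798679826477)) (C.cons (nat_lit 194) (C.node (nat_lit 1) (nat_lit 6) (nat_lit 8) (C.cons (nat_lit 338) (C.miq (nat_lit 2517894435) (nat_lit 408626833210817333042217005)) (C.cons (nat_lit 322) (C.node (nat_lit 1) (nat_lit 4) (nat_lit 6) (C.cons (nat_lit 594) (C.node (nat_lit 1) (nat_lit 7) (nat_lit 9) (C.cons (nat_lit 642) (C.node (nat_lit 1) (nat_lit 4) (nat_lit 7) (C.cons (nat_lit 402) (C.miq (nat_lit 897851505) (nat_lit 367514002577840119278076039)) (C.cons (nat_lit 146) (C.node (nat_lit 3) (nat_lit 7) (nat_lit 9) (C.cons (nat_lit 652) (C.miq (nat_lit 1764889605) (nat_lit 788221516123832182849208371)) C.nil)) C.nil))) C.nil)) (C.cons (nat_lit 82) (C.miq (nat_lit 2517894435) (nat_lit 99141823389472264317435949))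 C.nil))) C.nil))) C.nil))) C.nil)) C.nil))) (C.cons (nat_lit 14) (C.node (nat_lit 1) (nat_lit 2) (nat_lit 4) (C.cons (nat_lit 22) (C.node (nat_lit 1) (nat_lit 6) (nat_lit 9) (C.cons (nat_lit 594) (C.miq (nat_lit 1092851280) (nat_lit 16934867543368964730848225)) (C.cons (nat_lit 578) (C.node (nat_lit 2) (nat_lit 5) (nat_lit 9) (C.cons (nat_lit 564) (C.miq (nat_lit 1108579680) (nat_lit 16934867534924715431494625)) (C.cons (nat_lit 548) (C.node (nat_lit 4) (nat_lit 5) (nat_lit 9) (C.cons (nat_lit 560) (C.node (nat_lit 3) (nat_lit 6) (nat_lit 9) (C.cons (nat_lit 588) (C.miq (nat_lit 840210000) (nat_lit 26606274098597148268626913)) (C.cons (nat_lit 584) (C.node (nat_lit 1) (nat_lit 3) (nat_lit 4) (C.cons (nat_lit 154) (C.node (nat_lit 1) (nat_lit 3) (nat_lit 9) (C.cons (nat_lit 522) (C.node (nat_lit 1) (nat_lit 4) (nat_lit 9) (C.cons (nat_lit 530) (C.node (nat_lit 1) (nat_lit 6) (nat_lit 7) C.nil) C.nil))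 C.nil)) (C.cons (nat_lit 26) (C.node (nat_lit 1) (nat_lit 3) (nat_lit 7) (C.cons (nat_lit 650) (C.node (nat_lit 1) (nat_lit 4) (nat_lit 9) (C.cons (nat_lit 530) (C.node (nat_lit 2) (nat_lit 3) (nat_lit 9) C.nil) C.nil)) (C.cons (nat_lit 138) (C.node (nat_lit 1) (nat_lit 3) (nat_lit 9) C.nil) C.nil))) C.nil))) C.nil))) C.nil)) C.nil))) C.nil))) C.nil)) C.nil))) C.nil)) C.nil)) (C.cons (nat_lit 262) (C.node (nat_lit 1) (nat_lit 6) (nat_lit 7) (C.cons (nat_lit 210) (C.node (nat_lit 1) (nat_lit 6) (nat_lit 8) (C.cons (nat_lit 322) (C.node (nat_lit 1) (nat_lit 6) (nat_lit 9) (C.cons (nat_lit 578) (C.node (nat_lit 1) (nat_lit 7) (nat_lit 8) (C.cons (nat_lit 386) (C.node (nat_lit 1) (nat_lit 3) (nat_lit 4) (C.cons (nat_lit 30) (C.miq (nat_lit 2517894435) (nat_lit 253884328300144798679826477)) (C.cons (nat_lit 26) (C.node (nat_lit 2) (nat_lit 5) (nat_lit 7) (C.cons (nat_lit 180) (C.miq (nat_lit 588533863)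 (nat_lit 31435391736580322349941729)) (C.cons (nat_lit 164) (C.node (nat_lit 2) (nat_lit 4) (nat_lit 5) (C.cons (nat_lit 564) (C.miq (nat_lit 557078025) (nat_lit 31442475302348700511699937)) (C.cons (nat_lit 52) (C.node (nat_lit 2) (nat_lit 5) (nat_lit 9) (C.cons (nat_lit 548) (C.node (nat_lit 4) (nat_lit 5) (nat_lit 9) (C.cons (nat_lit 560) (C.node (nat_lit 1) (nat_lit 2) (nat_lit 3) (C.cons (nat_lit 526) (C.node (nat_lit 1) (nat_lit 2) (nat_lit 4) C.nil) C.nil)) C.nil)) C.nil)) C.nil))) C.nil))) C.nil))) C.nil)) C.nil)) C.nil)) (C.cons (nat_lit 194) (C.node (nat_lit 1) (nat_lit 6) (nat_lit 8) (C.cons (nat_lit 338) (C.node (nat_lit 1) (nat_lit 6) (nat_lit 9) (C.cons (nat_lit 578) (C.node (nat_lit 1) (nat_lit 7) (nat_lit 8) (C.cons (nat_lit 386) (C.node (nat_lit 1) (nat_lit 8) (nat_lit 9) (C.cons (nat_lit 770) (C.node (nat_lit 4) (nat_lit 8) (nat_lit 9) (C.cons (nat_lit 784) (C.node (nat_lit 2) (nat_lit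 6) (nat_lit 8) (C.cons (nat_lit 332) (C.miq (nat_lit 675624464) (nat_lit 367514279359781730010726475)) (C.cons (nat_lit 324) (C.node (nat_lit 3) (nat_lit 6) (nat_lit 8) (C.cons (nat_lit 328) (C.node (nat_lit 3) (nat_lit 6) (nat_lit 9) (C.cons (nat_lit 588) (C.miq (nat_lit 1097401635) (nat_lit 698769029653178906946830381)) (C.cons (nat_lit 584)
  (C.node (nat_lit 2) (nat_lit 5) (nat_lit 9) (C.cons (nat_lit 564) (C.miq (nat_lit 641290500) (nat_lit 706023082647311779997745203)) (C.cons (nat_lit 548) (C.node (nat_lit 4) (nat_lit 5) (nat_lit 9) (C.cons (nat_lit 560) (C.node (nat_lit 2) (nat_lit 4) (nat_lit 5) (C.cons (nat_lit 180) (C.node (nat_lit 3) (nat_lit 5) (nat_lit 7) (C.cons (nat_lit 168) (C.node (nat_lit 2) (nat_lit 6) (nat_lit 7) (C.cons (nat_lit 204) (C.miq (nat_lit 1197560368) (nat_lit 234532549839852191066292269)) (C.cons (nat_lit 196) (C.node (nat_lit 3) (nat_lit 5) (nat_lit 6) (C.cons (nat_lit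 120) (C.miq (nat_lit 1902387253) (nat_lit 408620247481677372756328493)) C.nil)) C.nil))) C.nil)) (C.cons (nat_lit 52) (C.node (nat_lit 2) (nat_lit 5) (nat_lit 7) (C.cons (nat_lit 164) (C.node (nat_lit 2) (nat_lit 7) (nat_lit 8) C.nil) C.nil)) C.nil))) C.nil)) C.nil))) C.nil))) C.nil)) C.nil))) C.nil)) C.nil)) C.nil)) C.nil)) (C.cons (nat_lit 322) (C.node (nat_lit 1) (nat_lit 4) (nat_lit 6) (C.cons (nat_lit 594) (C.node (nat_lit 1) (nat_lit 8) (nat_lit 9) (C.cons (nat_lit 770) (C.node (nat_lit 4) (nat_lit 8) (nat_lit 9) (C.cons (nat_lit 784) (C.node (nat_lit 1) (nat_lit 2) (nat_lit 4) (C.cons (nat_lit 30) (C.node (nat_lit 1) (nat_lit 2) (nat_lit 9) (C.cons (nat_lit 518) (C.node (nat_lit 1) (nat_lit 3) (nat_lit 7) (C.cons (nat_lit 650) (C.miq (nat_lit 2301888274) (nat_lit 649198275160671727967404167)) (C.cons (nat_lit 138) (C.node (nat_lit 1) (nat_lit 3) (nat_lit 9) (C.cons (nat_lit 522) (C.node (nat_lit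 1) (nat_lit 7) (nat_lit 9) (C.cons (nat_lit 642) (C.node (nat_lit 1) (nat_lit 4) (nat_lit 7) (C.cons (nat_lit 402) (C.miq (nat_lit 897851505) (nat_lit 367514002577840119278076039)) C.nil)) C.nil)) C.nil)) C.nil))) C.nil)) (C.cons (nat_lit 22) (C.miq (nat_lit 873597285) (nat_lit 26597198286159772484240353)) C.nil))) C.nil)) C.nil)) (C.cons (nat_lit 82) (C.node (nat_lit 1) (nat_lit 6) (nat_lit 9) (C.cons (nat_lit 578) (C.node (nat_lit 3) (nat_lit 6) (nat_lit 9) (C.cons (nat_lit 588) (C.miq (nat_lit 1097401635) (nat_lit 698769029653178906946830381)) (C.cons (nat_lit 584) (C.node (nat_lit 2) (nat_lit 5) (nat_lit 9) (C.cons (nat_lit 564) (C.miq (nat_lit 641290500) (nat_lit 706023082647311779997745203)) (C.cons (nat_lit 548) (C.node (nat_lit 4) (nat_lit 5) (nat_lit 9) (C.cons (nat_lit 560) (C.node (nat_lit 1) (nat_lit 7) (nat_lit 8) (C.cons (nat_lit 402) (C.node (nat_lit 1) (nat_lit 8) (nat_lit 9) (C.cons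 (nat_lit 770) (C.node (nat_lit 4) (nat_lit 8) (nat_lit 9) (C.cons (nat_lit 784) (C.node (nat_lit 1) (nat_lit 3) (nat_lit 4) (C.cons (nat_lit 30) (C.miq (nat_lit 597038085) (nat_lit 706014560231285512166506547)) (C.cons (nat_lit 26) (C.node (nat_lit 2) (nat_lit 7) (nat_lit 8) (C.cons (nat_lit 396) (C.miq (nat_lit 944056080) (nat_lit 367514279377796403398115463)) (C.cons (nat_lit 388) (C.node (nat_lit 3) (nat_lit 7) (nat_lit 8) (C.cons (nat_lit 392) (C.node (nat_lit 1) (nat_lit 2) (nat_lit 3) (C.cons (nat_lit 14) (C.node (nat_lit 1) (nat_lit 2) (nat_lit 4) C.nil) C.nil)) C.nil)) C.nil))) C.nil))) C.nil)) C.nil)) (C.cons (nat_lit 386) (C.node (nat_lit 1) (nat_lit 4) (nat_lit 8) (C.cons (nat_lit 786) (C.node (nat_lit 1) (nat_lit 2) (nat_lit 4) (C.cons (nat_lit 30) (C.miq (nat_lit 597038085) (nat_lit 706014560231285512166506547)) (C.cons (nat_lit 22) (C.node (nat_lit 2) (nat_lit 8) (nat_lit 9) (C.cons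 (nat_lit 780) (C.miq (nat_lit 422922272) (nat_lit 667327993432465745396957461)) (C.cons (nat_lit 772) (C.node (nat_lit 3) (nat_lit 8) (nat_lit 9) (C.cons (nat_lit 776) (C.node (nat_lit 1) (nat_lit 2) (nat_lit 9) C.nil) C.nil)) C.nil))) C.nil))) (C.cons (nat_lit 274) (C.node (nat_lit 1) (nat_lit 8) (nat_lit 9) (C.cons (nat_lit 770) (C.node (nat_lit 4) (nat_lit 8) (nat_lit 9) (C.cons (nat_lit 784) (C.node (nat_lit 1) (nat_lit 2) (nat_lit 3) (C.cons (nat_lit 526) (C.node (nat_lit 1) (nat_lit 2) (nat_lit 4) C.nil) (C.cons (nat_lit 30)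
  (C.miq (nat_lit 597038085) (nat_lit 706014560231285512166506547)) C.nil))) C.nil)) C.nil)) C.nil))) C.nil))) C.nil)) C.nil))) C.nil))) C.nil)) C.nil))) C.nil))) C.nil))) C.nil))) C.nil)) C.nil)) C.nil)) (C.cons (nat_lit 290) (C.node (nat_lit 1) (nat_lit 3) (nat_lit 5) (C.cons (nat_lit 554) (C.node (nat_lit 1) (nat_lit 6) (nat_lit 9) (C.cons (nat_lit 594) (C.miq (nat_lit 1076269905) (nat_lit 83426839070541452302221866)) (C.cons (nat_lit 578) (C.node (nat_lit 2) (nat_lit 5) (nat_lit 9) (C.cons (nat_lit 564) (C.miq (nat_lit 604395825) (nat_lit 97924873115434674792628778)) (C.cons (nat_lit 548) (C.node (nat_lit 4) (nat_lit 5) (nat_lit 9) (C.cons (nat_lit 560) (C.node (nat_lit 3) (nat_lit 6) (nat_lit 9) (C.cons (nat_lit 588) (C.miq (nat_lit 1097401635) (nat_lit 698769029653178906946830381)) (C.cons (nat_lit 584) (C.node (nat_lit 4) (nat_lit 8) (nat_lit 9) (C.cons (nat_lit 786) (C.miq (nat_lit 2169653552)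 (nat_lit 123315543570042304475234841)) (C.cons (nat_lit 784) (C.node (nat_lit 3) (nat_lit 8) (nat_lit 9) (C.cons (nat_lit 780) (C.miq (nat_lit 428102432) (nat_lit 947798783517757519347122221)) (C.cons (nat_lit 776) (C.node (nat_lit 1) (nat_lit 6) (nat_lit 7) (C.cons (nat_lit 210) (C.node (nat_lit 1) (nat_lit 6) (nat_lit 8) (C.cons (nat_lit 322) (C.node (nat_lit 1) (nat_lit 7) (nat_lit 9) (C.cons (nat_lit 642) (C.node (nat_lit 2) (nat_lit 6) (nat_lit 7) (C.cons (nat_lit 204) (C.miq (nat_lit 1929667153) (nat_lit 649197039006732434348900454)) (C.cons (nat_lit 196) (C.node (nat_lit 3) (nat_lit 6) (nat_lit 7) (C.cons (nat_lit 200) (C.node (nat_lit 2) (nat_lit 4) (nat_lit 5) (C.cons (nat_lit 180) (C.miq (nat_lit 660821008) (nat_lit 241785994077075549627023411)) (C.cons (nat_lit 52) (C.node (nat_lit 2) (nat_lit 5) (nat_lit 7) (C.cons (nat_lit 164) (C.node (nat_lit 3) (nat_lit 5) (nat_lit 6) (C.cons (nat_lit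 120) (C.miq (nat_lit 913462288) (nat_lit 236950290781728534329491507)) (C.cons (nat_lit 104) (C.node (nat_lit 4) (nat_lit 5) (nat_lit 6) (C.cons (nat_lit 112) (C.node (nat_lit 1) (nat_lit 4) (nat_lit 9) (C.cons (nat_lit 530) (C.node (nat_lit 1) (nat_lit 2) (nat_lit 9) C.nil) C.nil)) C.nil)) C.nil))) C.nil)) C.nil))) C.nil)) C.nil))) C.nil)) C.nil)) (C.cons (nat_lit 194) (C.node (nat_lit 1) (nat_lit 4) (nat_lit 6) (C.cons (nat_lit 338) (C.node (nat_lit 2) (nat_lit 6) (nat_lit 8) (C.cons (nat_lit 332) (C.miq (nat_lit 1384383329) (nat_lit 334873392829867840484016203)) (C.cons (nat_lit 324) (C.node (nat_lit 3) (nat_lit 6) (nat_lit 8) (C.cons (nat_lit 328) (C.node (nat_lit 1) (nat_lit 7) (nat_lit 8) (C.cons (nat_lit 394) (C.node (nat_lit 2) (nat_lit 3) (nat_lit 8) (C.cons (nat_lit 268) (C.node (nat_lit 2) (nat_lit 7) (nat_lit 8) (C.cons (nat_lit 388) (C.node (nat_lit 4) (nat_lit 7) (nat_lit 8) (C.cons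 (nat_lit 400) (C.node (nat_lit 1) (nat_lit 2) (nat_lit 8) (C.cons (nat_lit 774) (C.node (nat_lit 1) (nat_lit 4) (nat_lit 9) (C.cons (nat_lit 658) (C.node (nat_lit 1) (nat_lit 2) (nat_lit 3) (C.cons (nat_lit 30) (C.miq (nat_lit 2468892992) (nat_lit 324010437429523078370885683)) (C.cons (nat_lit 14) (C.node (nat_lit 2) (nat_lit 3) (nat_lit 9) (C.cons (nat_lit 652) (C.miq (nat_lit 960833296) (nat_lit 676999289271200165672452231)) C.nil)) C.nil))) C.nil)) C.nil)) C.nil)) C.nil)) C.nil)) (C.cons (nat_lit 386) (C.node (nat_lit 1) (nat_lit 3) (nat_lit 7) (C.cons (nat_lit 154) (C.node (nat_lit 1) (nat_lit 7) (nat_lit 9) (C.cons (nat_lit 642) (C.node (nat_lit 3) (nat_lit 5) (nat_lit 7) (C.cons (nat_lit 168) (C.node (nat_lit 4) (nat_lit 7) (nat_lit 8) (C.cons (nat_lit 400) (C.node (nat_lit 1) (nat_lit 2) (nat_lit 3) (C.cons (nat_lit 270) (C.node (nat_lit 1) (nat_lit 8) (nat_lit 9) (C.cons (nat_lit 770) (C.node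 (nat_lit 2) (nat_lit 7) (nat_lit 8) C.nil) C.nil)) (C.cons (nat_lit 14) (C.node (nat_lit 1) (nat_lit 3) (nat_lit 8) C.nil) C.nil))) C.nil)) C.nil)) C.nil)) (C.cons (nat_lit 138) (C.node (nat_lit 1) (nat_lit 3) (nat_lit 4) (C.cons (nat_lit 30) (C.miq (nat_lit 680738897) (nat_lit 938126989501247284346224691)) (C.cons (nat_lit 26)
  (C.node (nat_lit 1) (nat_lit 2) (nat_lit 3) (C.cons (nat_lit 270) (C.node (nat_lit 1) (nat_lit 8) (nat_lit 9) C.nil) (C.cons (nat_lit 14) (C.node (nat_lit 1) (nat_lit 3) (nat_lit 8) (C.cons (nat_lit 266) (C.node (nat_lit 1) (nat_lit 2) (nat_lit 8) C.nil) C.nil)) C.nil))) C.nil))) C.nil))) C.nil))) C.nil)) C.nil))) (C.cons (nat_lit 82) (C.node (nat_lit 1) (nat_lit 6) (nat_lit 8) (C.cons (nat_lit 322) (C.node (nat_lit 1) (nat_lit 7) (nat_lit 9) (C.cons (nat_lit 658) (C.node (nat_lit 1) (nat_lit 2) (nat_lit 4) (C.cons (nat_lit 30) (C.miq (nat_lit 680738897) (nat_lit 938126989501247284346224691))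 (C.cons (nat_lit 22) (C.node (nat_lit 2) (nat_lit 3) (nat_lit 9) (C.cons (nat_lit 652) (C.miq (nat_lit 960833296) (nat_lit 676999289271200165672452231)) (C.cons (nat_lit 524) (C.node (nat_lit 2) (nat_lit 7) (nat_lit 9) (C.cons (nat_lit 644) (C.node (nat_lit 3) (nat_lit 7) (nat_lit 9) (C.cons (nat_lit 648) (C.node (nat_lit 1) (nat_lit 2) (nat_lit 9) (C.cons (nat_lit 774) (C.node (nat_lit 1) (nat_lit 2) (nat_lit 3) C.nil) C.nil)) C.nil)) C.nil)) C.nil))) C.nil))) (C.cons (nat_lit 642) (C.node (nat_lit 1) (nat_lit 4) (nat_lit 9) (C.cons (nat_lit 534) (C.node (nat_lit 1) (nat_lit 8) (nat_lit 9) (C.cons (nat_lit 770) (C.node (nat_lit 2) (nat_lit 6) (nat_lit 9) (C.cons (nat_lit 580) (C.node (nat_lit 2) (nat_lit 8) (nat_lit 9) C.nil) C.nil)) C.nil)) (C.cons (nat_lit 530) (C.node (nat_lit 1) (nat_lit 2) (nat_lit 4) (C.cons (nat_lit 30) (C.miq (nat_lit 680738897) (nat_lit 938126989501247284346224691)) (C.cons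 (nat_lit 22) (C.node (nat_lit 1) (nat_lit 2) (nat_lit 3) (C.cons (nat_lit 270) (C.node (nat_lit 1) (nat_lit 2) (nat_lit 9) (C.cons (nat_lit 518) (C.node (nat_lit 1) (nat_lit 8) (nat_lit 9) C.nil) C.nil)) (C.cons (nat_lit 14) (C.node (nat_lit 1) (nat_lit 2) (nat_lit 8) (C.cons (nat_lit 774) (C.node (nat_lit 2) (nat_lit 3) (nat_lit 9) (C.cons (nat_lit 524) (C.node (nat_lit 3) (nat_lit 7) (nat_lit 9) C.nil) C.nil)) C.nil)) C.nil))) C.nil))) C.nil))) C.nil))) C.nil)) C.nil))) C.nil))) C.nil))) C.nil))) C.nil))) C.nil)) C.nil))) C.nil))) (C.cons (nat_lit 42) (C.node (nat_lit 1) (nat_lit 5) (nat_lit 9) (C.cons (nat_lit 546) (C.node (nat_lit 3) (nat_lit 5) (nat_lit 9) (C.cons (nat_lit 552) (C.node (nat_lit 1) (nat_lit 6) (nat_lit 7) (C.cons (nat_lit 210) (C.node (nat_lit 1) (nat_lit 6) (nat_lit 8) (C.cons (nat_lit 322) (C.node (nat_lit 1) (nat_lit 6) (nat_lit 9) (C.cons (nat_lit 578) (C.node (nat_lit 2)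 (nat_lit 6) (nat_lit 7) (C.cons (nat_lit 204) (C.miq (nat_lit 1929667153) (nat_lit 649197039006732434348900454)) (C.cons (nat_lit 196) (C.node (nat_lit 3) (nat_lit 6) (nat_lit 7) (C.cons (nat_lit 200) (C.node (nat_lit 2) (nat_lit 5) (nat_lit 7) (C.cons (nat_lit 180) (C.miq (nat_lit 660821008) (nat_lit 241785994077075549627023411)) (C.cons (nat_lit 164) (C.node (nat_lit 3) (nat_lit 5) (nat_lit 6) (C.cons (nat_lit 120) (C.miq (nat_lit 913462288) (nat_lit 236950290781728534329491507)) (C.cons (nat_lit 104) (C.node (nat_lit 4) (nat_lit 5) (nat_lit 6) (C.cons (nat_lit 112) (C.node (nat_lit 3) (nat_lit 6) (nat_lit 9) (C.cons (nat_lit 588) (C.miq (nat_lit 1097401635) (nat_lit 698769029653178906946830381)) (C.cons (nat_lit 584) (C.node (nat_lit 2) (nat_lit 4) (nat_lit 5) (C.cons (nat_lit 564) (C.miq (nat_lit 641290500) (nat_lit 706023082647311779997745203)) (C.cons (nat_lit 52) (C.node (nat_lit 2) (nat_lit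 5) (nat_lit 9) (C.cons (nat_lit 548) (C.node (nat_lit 4) (nat_lit 5) (nat_lit 9) (C.cons (nat_lit 560) (C.node (nat_lit 1) (nat_lit 7) (nat_lit 8) (C.cons (nat_lit 394) (C.node (nat_lit 1) (nat_lit 7) (nat_lit 9) C.nil) C.nil)) C.nil)) C.nil)) C.nil))) C.nil))) C.nil)) C.nil))) C.nil))) C.nil)) C.nil))) C.nil)) C.nil)) (C.cons (nat_lit 194) (C.node (nat_lit 1) (nat_lit 6) (nat_lit 8) (C.cons (nat_lit 338) (C.node (nat_lit 1) (nat_lit 6) (nat_lit 9) (C.cons (nat_lit 578) (C.node (nat_lit 4) (nat_lit 8) (nat_lit 9) (C.cons (nat_lit 784) (C.node (nat_lit 2) (nat_lit 6) (nat_lit 8) (C.cons (nat_lit 332)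
  (C.miq (nat_lit 1384383329) (nat_lit 334873392829867840484016203)) (C.cons (nat_lit 324) (C.node (nat_lit 3) (nat_lit 6) (nat_lit 8) (C.cons (nat_lit 328) (C.node (nat_lit 3) (nat_lit 6) (nat_lit 9) (C.cons (nat_lit 588) (C.miq (nat_lit 1097401635) (nat_lit 698769029653178906946830381)) (C.cons (nat_lit 584) (C.node (nat_lit 2) (nat_lit 5) (nat_lit 9) (C.cons (nat_lit 564) (C.miq (nat_lit 641290500) (nat_lit 706023082647311779997745203)) (C.cons (nat_lit 548) (C.node (nat_lit 4) (nat_lit 5) (nat_lit 9) (C.cons (nat_lit 560) (C.node (nat_lit 1) (nat_lit 7) (nat_lit 8) (C.cons (nat_lit 394) (C.node (nat_lit 2) (nat_lit 7) (nat_lit 8) (C.cons (nat_lit 388) (C.node (nat_lit 4) (nat_lit 7) (nat_lit 8) (C.cons (nat_lit 400) (C.node (nat_lit 1) (nat_lit 3) (nat_lit 4) (C.cons (nat_lit 30) (C.miq (nat_lit 597038085) (nat_lit 706014560231285512166506547)) (C.cons (nat_lit 26) (C.node (nat_lit 1) (nat_lit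 2) (nat_lit 3) (C.cons (nat_lit 526) (C.node (nat_lit 1) (nat_lit 2) (nat_lit 4) C.nil) (C.cons (nat_lit 14) (C.node (nat_lit 1) (nat_lit 3) (nat_lit 9) C.nil) C.nil))) C.nil))) C.nil)) C.nil)) (C.cons (nat_lit 386) (C.node (nat_lit 2) (nat_lit 4) (nat_lit 5) (C.cons (nat_lit 180) (C.node (nat_lit 3) (nat_lit 5) (nat_lit 7) (C.cons (nat_lit 168) (C.node (nat_lit 2) (nat_lit 6) (nat_lit 7) (C.cons (nat_lit 204) (C.miq (nat_lit 1197560368) (nat_lit 234532549839852191066292269)) (C.cons (nat_lit 196) (C.node (nat_lit 3) (nat_lit 5) (nat_lit 6) (C.cons (nat_lit 120) (C.miq (nat_lit 1902387253) (nat_lit 408620247481677372756328493)) (C.cons (nat_lit 104) (C.node (nat_lit 4) (nat_lit 5) (nat_lit 6) (C.cons (nat_lit 112) (C.node (nat_lit 3) (nat_lit 4) (nat_lit 5) (C.cons (nat_lit 312) (C.node (nat_lit 3) (nat_lit 7) (nat_lit 8) (C.cons (nat_lit 396) (C.miq (nat_lit 1215386400) (nat_lit 466646307243016514173337645))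 C.nil)) C.nil)) C.nil)) C.nil))) C.nil))) C.nil)) (C.cons (nat_lit 52) (C.node (nat_lit 2) (nat_lit 5) (nat_lit 7) (C.cons (nat_lit 164) (C.node (nat_lit 2) (nat_lit 6) (nat_lit 9) (C.cons (nat_lit 596) (C.node (nat_lit 1) (nat_lit 2) (nat_lit 4) (C.cons (nat_lit 30) (C.miq (nat_lit 962740305) (nat_lit 720520342043797526814261299)) (C.cons (nat_lit 22) (C.node (nat_lit 1) (nat_lit 4) (nat_lit 9) (C.cons (nat_lit 530) (C.node (nat_lit 1) (nat_lit 7) (nat_lit 9) C.nil) C.nil)) C.nil))) (C.cons (nat_lit 580) (C.node (nat_lit 4) (nat_lit 6) (nat_lit 9) (C.cons (nat_lit 592) (C.node (nat_lit 1) (nat_lit 2) (nat_lit 4) (C.cons (nat_lit 534) (C.node (nat_lit 4) (nat_lit 7) (nat_lit 9) C.nil) (C.cons (nat_lit 30) (C.miq (nat_lit 962740305) (nat_lit 701177528929963460018962483)) C.nil))) C.nil)) C.nil))) C.nil)) C.nil))) C.nil))) C.nil)) C.nil))) C.nil))) C.nil)) C.nil))) C.nil)) C.nil)) (C.cons (nat_lit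 322) (C.node (nat_lit 1) (nat_lit 4) (nat_lit 6) (C.cons (nat_lit 594) (C.node (nat_lit 4) (nat_lit 8) (nat_lit 9) (C.cons (nat_lit 784) (C.node (nat_lit 1) (nat_lit 2) (nat_lit 4) (C.cons (nat_lit 30) (C.node (nat_lit 1) (nat_lit 4) (nat_lit 7) (C.cons (nat_lit 402) (C.miq (nat_lit 1899332640) (nat_lit 50793202153832688412066069)) (C.cons (nat_lit 146) (C.node (nat_lit 1) (nat_lit 4) (nat_lit 8) (C.cons (nat_lit 274) (C.node (nat_lit 1) (nat_lit 7) (nat_lit 9) (C.cons (nat_lit 650) (C.miq (nat_lit 2301888274) (nat_lit 649198275160671727967404167)) (C.cons (nat_lit 642) (C.node (nat_lit 2) (nat_lit 5) (nat_lit 7) (C.cons (nat_lit 180) (C.miq (nat_lit 1947619888) (nat_lit 718120254518620548022075437)) (C.cons (nat_lit 164) (C.node (nat_lit 2) (nat_lit 4) (nat_lit 5) (C.cons (nat_lit 564) (C.node (nat_lit 4) (nat_lit 7) (nat_lit 9) (C.cons (nat_lit 656) (C.node (nat_lit 2) (nat_lit 6) (nat_lit 8) (C.cons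 (nat_lit 332) (C.miq (nat_lit 2519875845) (nat_lit 401373776242910916481187891)) (C.cons (nat_lit 324) (C.node (nat_lit 2) (nat_lit 6) (nat_lit 9) (C.cons (nat_lit 588) (C.node (nat_lit 2) (nat_lit 7) (nat_lit 9) (C.cons (nat_lit 644) (C.node (nat_lit 3) (nat_lit 7) (nat_lit 9) C.nil) C.nil)) (C.cons (nat_lit 580)
  (C.miq (nat_lit 848692545) (nat_lit 701178358894959245898416179)) C.nil))) C.nil))) C.nil)) (C.cons (nat_lit 52) (C.miq (nat_lit 2485477680) (nat_lit 62882460404022175687573579)) C.nil))) C.nil))) C.nil))) C.nil)) C.nil))) (C.cons (nat_lit 22) (C.miq (nat_lit 873597285) (nat_lit 26597198286159772484240353)) C.nil))) C.nil)) (C.cons (nat_lit 82) (C.node (nat_lit 1) (nat_lit 6) (nat_lit 9) (C.cons (nat_lit 578) (C.node (nat_lit 3) (nat_lit 6) (nat_lit 9) (C.cons (nat_lit 588) (C.miq (nat_lit 1097401635) (nat_lit 698769029653178906946830381)) (C.cons (nat_lit 584) (C.node (nat_lit 2) (nat_lit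 5) (nat_lit 9) (C.cons (nat_lit 564) (C.miq (nat_lit 641290500) (nat_lit 706023082647311779997745203)) (C.cons (nat_lit 548) (C.node (nat_lit 4) (nat_lit 5) (nat_lit 9) (C.cons (nat_lit 560) (C.node (nat_lit 2) (nat_lit 4) (nat_lit 5) (C.cons (nat_lit 180) (C.node (nat_lit 3) (nat_lit 5) (nat_lit 7) (C.cons (nat_lit 168) (C.node (nat_lit 2) (nat_lit 6) (nat_lit 7) (C.cons (nat_lit 204) (C.miq (nat_lit 1197560368) (nat_lit 234532549839852191066292269)) (C.cons (nat_lit 196) (C.node (nat_lit 3) (nat_lit 5) (nat_lit 6) (C.cons (nat_lit 120) (C.miq (nat_lit 1902387253) (nat_lit 99135237660332304031547437)) (C.cons (nat_lit 104) (C.node (nat_lit 4) (nat_lit 5) (nat_lit 6) (C.cons (nat_lit 112) (C.node (nat_lit 3) (nat_lit 4) (nat_lit 5) (C.cons (nat_lit 312) (C.node (nat_lit 4) (nat_lit 6) (nat_lit 8) (C.cons (nat_lit 336) (C.node (nat_lit 2) (nat_lit 6) (nat_lit 8) (C.cons (nat_lit 332) (C.node (nat_lit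 2) (nat_lit 4) (nat_lit 6) C.nil) C.nil)) C.nil)) C.nil)) C.nil)) C.nil))) C.nil))) C.nil)) (C.cons (nat_lit 52) (C.node (nat_lit 2) (nat_lit 5) (nat_lit 7) (C.cons (nat_lit 164) (C.node (nat_lit 2) (nat_lit 6) (nat_lit 8) (C.cons (nat_lit 332) (C.node (nat_lit 2) (nat_lit 7) (nat_lit 8) (C.cons (nat_lit 388) (C.node (nat_lit 4) (nat_lit 6) (nat_lit 8) (C.cons (nat_lit 336) (C.node (nat_lit 1) (nat_lit 2) (nat_lit 8) (C.cons (nat_lit 774) (C.node (nat_lit 3) (nat_lit 8) (nat_lit 9) (C.cons (nat_lit 776) (C.node (nat_lit 4) (nat_lit 8) (nat_lit 9) (C.cons (nat_lit 784) (C.node (nat_lit 1) (nat_lit 3) (nat_lit 9) C.nil) C.nil)) C.nil)) (C.cons (nat_lit 262) (C.node (nat_lit 2) (nat_lit 8) (nat_lit 9) (C.cons (nat_lit 772) (C.node (nat_lit 2) (nat_lit 6) (nat_lit 7) (C.cons (nat_lit 212) (C.node (nat_lit 2) (nat_lit 6) (nat_lit 9) C.nil) C.nil)) C.nil)) C.nil))) C.nil)) C.nil)) (C.cons (nat_lit 324)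 (C.node (nat_lit 2) (nat_lit 6) (nat_lit 9) (C.cons (nat_lit 596) (C.node (nat_lit 1) (nat_lit 2) (nat_lit 4) (C.cons (nat_lit 30) (C.miq (nat_lit 962740305) (nat_lit 720520342043797526814261299)) (C.cons (nat_lit 22) (C.node (nat_lit 2) (nat_lit 3) (nat_lit 4) (C.cons (nat_lit 156) (C.node (nat_lit 2) (nat_lit 3) (nat_lit 6) C.nil) (C.cons (nat_lit 28) (C.node (nat_lit 2) (nat_lit 4) (nat_lit 7) (C.cons (nat_lit 148) (C.node (nat_lit 2) (nat_lit 3) (nat_lit 6) C.nil) C.nil)) C.nil))) C.nil))) (C.cons (nat_lit 580) (C.node (nat_lit 4) (nat_lit 6) (nat_lit 9) (C.cons (nat_lit 592) (C.node (nat_lit 2) (nat_lit 7) (nat_lit 8) (C.cons (nat_lit 396) (C.node (nat_lit 1) (nat_lit 7) (nat_lit 8) (C.cons (nat_lit 402) (C.miq (nat_lit 890708040) (nat_lit 195853287700889708306497813)) (C.cons (nat_lit 386) (C.node (nat_lit 4) (nat_lit 7) (nat_lit 8) (C.cons (nat_lit 400) (C.node (nat_lit 3) (nat_lit 5) (nat_lit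 8) (C.cons (nat_lit 312) (C.miq (nat_lit 1215386400) (nat_lit 466646307243016514173337645)) (C.cons (nat_lit 296) (C.node (nat_lit 4) (nat_lit 5) (nat_lit 8) C.nil) C.nil))) C.nil)) C.nil))) (C.cons (nat_lit 388) (C.node (nat_lit 3) (nat_lit 5) (nat_lit 6) (C.cons (nat_lit 104) (C.node (nat_lit 4) (nat_lit 5) (nat_lit 6) C.nil) C.nil)) C.nil))) C.nil)) C.nil))) C.nil))) C.nil)) C.nil))) C.nil)) C.nil))) C.nil))) C.nil)) C.nil))) C.nil))) C.nil))) C.nil)) C.nil)) C.nil))) C.nil))) List.nil)))))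

theorem ok10_0 : okL par10 (nat_lit 5) c10_0 (nat_lit 0) = true := by decide +kernel

noncomputable def c10_5 : List C :=
  (List.cons (C.node (nat_lit 2) (nat_lit 5) (nat_lit 7) (C.cons (nat_lit 180) (C.node (nat_lit 3) (nat_lit 5) (nat_lit 7) (C.cons (nat_lit 168) (C.node (nat_lit 4) (nat_lit 5) (nat_lit 9) (C.cons (nat_lit 560) (C.node (nat_lit 2) (nat_lit 6) (nat_lit 7) (C.cons (nat_lit 204) (C.miq (nat_lit 1197560368) (nat_lit 234532549839852191066292269)) (C.cons (nat_lit 196) (C.node (nat_lit 3) (nat_lit 5) (nat_lit 6) (C.cons (nat_lit 120) (C.miq (nat_lit 1192645123) (nat_lit 234533822665192980672610349)) (C.cons (nat_lit 104) (C.node (nat_lit 4) (nat_lit 5) (nat_lit 6) (C.cons (nat_lit 112) (C.node (nat_lit 2) (nat_lit 5) (nat_lit 8) (C.cons (nat_lit 294) (C.node (nat_lit 2) (nat_lit 5) (nat_lit 9) (C.cons (nat_lit 548) (C.node (nat_lit 1) (nat_lit 3) (nat_lit 5) (C.cons (nat_lit 554) (C.node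 (nat_lit 1) (nat_lit 2) (nat_lit 3) (C.cons (nat_lit 30) (C.miq (nat_lit 913444948) (nat_lit 236950014067904417696579635)) (C.cons (nat_lit 14) (C.miq (nat_lit 1125255512) (nat_lit 16930071373867667916456929)) C.nil))) (C.cons (nat_lit 42) (C.node (nat_lit 1) (nat_lit 5) (nat_lit 9) (C.cons (nat_lit 546) (C.node (nat_lit 3) (nat_lit 5) (nat_lit 9) (C.cons (nat_lit 552) (C.node (nat_lit 4) (nat_lit 8) (nat_lit 9) (C.cons (nat_lit 786) (C.miq (nat_lit 2438154272) (nat_lit 50784790546622601784787221)) (C.cons (nat_lit 784) (C.node (nat_lit 2) (nat_lit 8) (nat_lit 9) (C.cons (nat_lit 780) (C.miq (nat_lit 412373552) (nat_lit 947798783444574025419391021)) (C.cons (nat_lit 772) (C.node (nat_lit 1) (nat_lit 6) (nat_lit 8) (C.cons (nat_lit 338) (C.node (nat_lit 2) (nat_lit 6) (nat_lit 8) (C.cons (nat_lit 332) (C.miq (nat_lit 1384383329) (nat_lit 334873392829867840484016203)) (C.cons (nat_lit 324) (C.node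 (nat_lit 3) (nat_lit 6) (nat_lit 8) (C.cons (nat_lit 328) (C.node (nat_lit 1) (nat_lit 2) (nat_lit 6) (C.cons (nat_lit 582) (C.node (nat_lit 2) (nat_lit 4) (nat_lit 9) (C.cons (nat_lit 532) (C.node (nat_lit 3) (nat_lit 6) (nat_lit 9) (C.cons (nat_lit 584) (C.node (nat_lit 4) (nat_lit 6) (nat_lit 9) C.nil) C.nil)) C.nil)) (C.cons (nat_lit 70) (C.node (nat_lit 1) (nat_lit 6) (nat_lit 9) C.nil) C.nil))) C.nil)) C.nil))) (C.cons (nat_lit 322) (C.node (nat_lit 1) (nat_lit 8) (nat_lit 9) (C.cons (nat_lit 778) (C.node (nat_lit 1) (nat_lit 2) (nat_lit 3) (C.cons (nat_lit 30) (C.miq (nat_lit 913444948) (nat_lit 236950014067904417696579635)) (C.cons (nat_lit 14) (C.node (nat_lit 1) (nat_lit 3) (nat_lit 4) (C.cons (nat_lit 154) (C.node (nat_lit 1) (nat_lit 4) (nat_lit 8) C.nil) (C.cons (nat_lit 26) (C.node (nat_lit 1) (nat_lit 3) (nat_lit 7) (C.cons (nat_lit 138) (C.node (nat_lit 1) (nat_lit 4) (nat_lit 8)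 C.nil) C.nil)) C.nil))) C.nil))) (C.cons (nat_lit 770) (C.node (nat_lit 3) (nat_lit 8) (nat_lit 9) (C.cons (nat_lit 776) (C.node (nat_lit 2) (nat_lit 6) (nat_lit 8) (C.cons (nat_lit 332) (C.node (nat_lit 2) (nat_lit 7) (nat_lit 8) (C.cons (nat_lit 388) (C.node (nat_lit 3) (nat_lit 6) (nat_lit 9) (C.cons (nat_lit 584) (C.node (nat_lit 4) (nat_lit 6) (nat_lit 8) C.nil) C.nil)) C.nil)) (C.cons (nat_lit 324) (C.node (nat_lit 2) (nat_lit 3) (nat_lit 8) (C.cons (nat_lit 396) (C.node (nat_lit 3) (nat_lit 5) (nat_lit 8) (C.cons (nat_lit 312) (C.miq (nat_lit 355927170) (nat_lit 203102028020064216008098069)) C.nil)) (C.cons (nat_lit 268) (C.node (nat_lit 2) (nat_lit 7) (nat_lit 8) (C.cons (nat_lit 388) (C.node (nat_lit 3) (nat_lit 4) (nat_lit 5) (C.cons (nat_lit 312) (C.node (nat_lit 3) (nat_lit 6) (nat_lit 8) C.nil) C.nil)) C.nil)) C.nil))) C.nil))) C.nil)) C.nil))) C.nil))) C.nil))) C.nil))) C.nil)) C.nil))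 C.nil))) C.nil)) (C.cons (nat_lit 292) (C.node (nat_lit 1) (nat_lit 2) (nat_lit 5) (C.cons (nat_lit 550) (C.node (nat_lit 3) (nat_lit 5) (nat_lit 9) (C.cons (nat_lit 552) (C.node (nat_lit 1) (nat_lit 3) (nat_lit 5) (C.cons (nat_lit 298) (C.node (nat_lit 3) (nat_lit 4) (nat_lit 5) (C.cons (nat_lit 56) (C.node (nat_lit 4) (nat_lit 5) (nat_lit 8) (C.cons (nat_lit 304) (C.node (nat_lit 1) (nat_lit 2) (nat_lit 3) (C.cons (nat_lit 30)
  (C.miq (nat_lit 913444948) (nat_lit 236950014067904417696579635)) (C.cons (nat_lit 14) (C.node (nat_lit 1) (nat_lit 2) (nat_lit 4) (C.cons (nat_lit 86) (C.node (nat_lit 1) (nat_lit 2) (nat_lit 8) (C.cons (nat_lit 262) (C.node (nat_lit 1) (nat_lit 6) (nat_lit 8) (C.cons (nat_lit 322) (C.node (nat_lit 1) (nat_lit 6) (nat_lit 9) (C.cons (nat_lit 578) (C.node (nat_lit 2) (nat_lit 3) (nat_lit 4) (C.cons (nat_lit 28) (C.node (nat_lit 2) (nat_lit 6) (nat_lit 8) C.nil) C.nil))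 C.nil)) C.nil)) C.nil)) (C.cons (nat_lit 22) (C.node (nat_lit 1) (nat_lit 2) (nat_lit 6) (C.cons (nat_lit 326) (C.node (nat_lit 1) (nat_lit 3) (nat_lit 4) (C.cons (nat_lit 154) (C.node (nat_lit 1) (nat_lit 3) (nat_lit 9) (C.cons (nat_lit 522) (C.node (nat_lit 1) (nat_lit 7) (nat_lit 8) (C.cons (nat_lit 386) (C.node (nat_lit 1) (nat_lit 7) (nat_lit 9) C.nil) C.nil)) C.nil)) (C.cons (nat_lit 26) (C.node (nat_lit 1) (nat_lit 3) (nat_lit 7) (C.cons (nat_lit 650) (C.node (nat_lit 2) (nat_lit 7) (nat_lit 9) (C.cons (nat_lit 644) (C.node (nat_lit 4) (nat_lit 7) (nat_lit 9) (C.cons (nat_lit 656) (C.node (nat_lit 2) (nat_lit 3) (nat_lit 4) C.nil) C.nil)) C.nil)) (C.cons (nat_lit 138) (C.node (nat_lit 1) (nat_lit 3) (nat_lit 9) C.nil) C.nil))) C.nil))) (C.cons (nat_lit 70) (C.node (nat_lit 1) (nat_lit 2) (nat_lit 8) (C.cons (nat_lit 262) (C.node (nat_lit 1) (nat_lit 3) (nat_lit 4) (C.cons (nat_lit 154) (C.node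 (nat_lit 1) (nat_lit 3) (nat_lit 9) C.nil) (C.cons (nat_lit 26) (C.node (nat_lit 1) (nat_lit 3) (nat_lit 7) C.nil) C.nil))) C.nil)) C.nil))) C.nil))) C.nil))) C.nil)) C.nil)) (C.cons (nat_lit 42) (C.node (nat_lit 1) (nat_lit 5) (nat_lit 8) (C.cons (nat_lit 290) (C.node (nat_lit 1) (nat_lit 6) (nat_lit 9) (C.cons (nat_lit 594) (C.node (nat_lit 2) (nat_lit 4) (nat_lit 9) (C.cons (nat_lit 532) (C.node (nat_lit 4) (nat_lit 7) (nat_lit 9) (C.cons (nat_lit 656) (C.node (nat_lit 4) (nat_lit 8) (nat_lit 9) (C.cons (nat_lit 784) (C.node (nat_lit 1) (nat_lit 2) (nat_lit 4) (C.cons (nat_lit 30) (C.miq (nat_lit 913444948) (nat_lit 236950014067904417696579635)) (C.cons (nat_lit 22) (C.node (nat_lit 2) (nat_lit 6) (nat_lit 9) (C.cons (nat_lit 588) (C.miq (nat_lit 692401680) (nat_lit 676999289253185492285063243)) (C.cons (nat_lit 580) (C.node (nat_lit 3) (nat_lit 6) (nat_lit 9) (C.cons (nat_lit 584) (C.node (nat_lit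 1) (nat_lit 2) (nat_lit 6) (C.cons (nat_lit 326) (C.node (nat_lit 1) (nat_lit 2) (nat_lit 3) C.nil) C.nil)) C.nil)) C.nil))) C.nil))) C.nil)) C.nil)) C.nil)) (C.cons (nat_lit 578) (C.node (nat_lit 2) (nat_lit 4) (nat_lit 9) (C.cons (nat_lit 596) (C.node (nat_lit 3) (nat_lit 6) (nat_lit 9) (C.cons (nat_lit 584) (C.node (nat_lit 1) (nat_lit 2) (nat_lit 4) (C.cons (nat_lit 30) (C.miq (nat_lit 913444948) (nat_lit 236950014067904417696579635)) (C.cons (nat_lit 22) (C.node (nat_lit 2) (nat_lit 3) (nat_lit 4) (C.cons (nat_lit 28) (C.node (nat_lit 1) (nat_lit 2) (nat_lit 6) (C.cons (nat_lit 70) (C.node (nat_lit 1) (nat_lit 2) (nat_lit 3) C.nil) C.nil)) C.nil)) C.nil))) C.nil)) (C.cons (nat_lit 532) (C.node (nat_lit 4) (nat_lit 6) (nat_lit 9) (C.cons (nat_lit 592) (C.node (nat_lit 2) (nat_lit 6) (nat_lit 9) (C.cons (nat_lit 588) (C.node (nat_lit 2) (nat_lit 7) (nat_lit 9) (C.cons (nat_lit 644) (C.node (nat_lit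 2) (nat_lit 8) (nat_lit 9) (C.cons (nat_lit 772) (C.node (nat_lit 2) (nat_lit 4) (nat_lit 6) C.nil) C.nil)) C.nil)) (C.cons (nat_lit 580) (C.node (nat_lit 3) (nat_lit 6) (nat_lit 9) (C.cons (nat_lit 584) (C.node (nat_lit 3) (nat_lit 4) (nat_lit 5) (C.cons (nat_lit 312) (C.node (nat_lit 2) (nat_lit 7) (nat_lit 8) (C.cons (nat_lit 396) (C.miq (nat_lit 355927170) (nat_lit 203102028020064216008098069)) (C.cons (nat_lit 388) (C.node (nat_lit 4) (nat_lit 7) (nat_lit 8) (C.cons (nat_lit 402) (C.miq (nat_lit 947016720) (nat_lit 469064048201781356035244083)) (C.cons (nat_lit 400) (C.node (nat_lit 1) (nat_lit 7) (nat_lit 8) (C.cons (nat_lit 394) (C.node (nat_lit 1) (nat_lit 3) (nat_lit 9) (C.cons (nat_lit 522) (C.node (nat_lit 1) (nat_lit 2) (nat_lit 8) C.nil) C.nil))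
  (C.cons (nat_lit 386) (C.node (nat_lit 1) (nat_lit 2) (nat_lit 6) C.nil) C.nil))) C.nil))) C.nil))) C.nil)) C.nil)) C.nil))) C.nil)) C.nil))) C.nil))) C.nil)) C.nil))) C.nil)) (C.cons (nat_lit 38) (C.node (nat_lit 2) (nat_lit 5) (nat_lit 9) (C.cons (nat_lit 548) (C.node (nat_lit 1) (nat_lit 5) (nat_lit 8) (C.cons (nat_lit 298) (C.node (nat_lit 1) (nat_lit 5) (nat_lit 9) (C.cons (nat_lit 546) (C.node (nat_lit 3) (nat_lit 4) (nat_lit 5) (C.cons (nat_lit 56) (C.node (nat_lit 3) (nat_lit 5) (nat_lit 9) (C.cons (nat_lit 552) (C.node (nat_lit 4) (nat_lit 5) (nat_lit 8) (C.cons (nat_lit 304) (C.node (nat_lit 1) (nat_lit 7) (nat_lit 8) (C.cons (nat_lit 402) (C.node (nat_lit 4) (nat_lit 7) (nat_lit 9) (C.cons (nat_lit 656) (C.node (nat_lit 4) (nat_lit 8) (nat_lit 9) (C.cons (nat_lit 784) (C.node (nat_lit 1) (nat_lit 3) (nat_lit 4) (C.cons (nat_lit 30) (C.miq (nat_lit 913444948) (nat_lit 236950014067904417696579635))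 (C.cons (nat_lit 26) (C.node (nat_lit 2) (nat_lit 3) (nat_lit 4) C.nil) C.nil))) C.nil)) C.nil)) (C.cons (nat_lit 386) (C.node (nat_lit 2) (nat_lit 7) (nat_lit 8) (C.cons (nat_lit 396) (C.node (nat_lit 2) (nat_lit 7) (nat_lit 9) (C.cons (nat_lit 644) (C.node (nat_lit 3) (nat_lit 8) (nat_lit 9) (C.cons (nat_lit 776) (C.node (nat_lit 4) (nat_lit 7) (nat_lit 8) (C.cons (nat_lit 400) (C.node (nat_lit 1) (nat_lit 3) (nat_lit 7) C.nil) C.nil)) C.nil)) C.nil)) (C.cons (nat_lit 388) (C.node (nat_lit 1) (nat_lit 2) (nat_lit 3) (C.cons (nat_lit 526) (C.node (nat_lit 2) (nat_lit 3) (nat_lit 7) (C.cons (nat_lit 140) (C.node (nat_lit 2) (nat_lit 7) (nat_lit 9) C.nil) C.nil)) (C.cons (nat_lit 30) (C.miq (nat_lit 913444948) (nat_lit 236950014067904417696579635)) C.nil))) C.nil))) C.nil))) C.nil)) C.nil)) C.nil)) C.nil)) (C.cons (nat_lit 290) (C.node (nat_lit 1) (nat_lit 3) (nat_lit 5) (C.cons (nat_lit 554) (C.node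 (nat_lit 4) (nat_lit 8) (nat_lit 9) (C.cons (nat_lit 786) (C.miq (nat_lit 2169653552) (nat_lit 45944291114706037294039577)) (C.cons (nat_lit 784) (C.node (nat_lit 3) (nat_lit 8) (nat_lit 9) (C.cons (nat_lit 780) (C.miq (nat_lit 428102432) (nat_lit 947798783517757519347122221)) (C.cons (nat_lit 776) (C.node (nat_lit 1) (nat_lit 7) (nat_lit 9) (C.cons (nat_lit 658) (C.node (nat_lit 2) (nat_lit 7) (nat_lit 9) (C.cons (nat_lit 652) (C.miq (nat_lit 960833296) (nat_lit 676999289271200165672452231)) (C.cons (nat_lit 644) (C.node (nat_lit 3) (nat_lit 7) (nat_lit 9) (C.cons (nat_lit 648) (C.node (nat_lit 1) (nat_lit 3) (nat_lit 7) (C.cons (nat_lit 394) (C.node (nat_lit 2) (nat_lit 3) (nat_lit 7) (C.cons (nat_lit 140) (C.node (nat_lit 2) (nat_lit 7) (nat_lit 8) C.nil) C.nil)) (C.cons (nat_lit 138) (C.node (nat_lit 1) (nat_lit 7) (nat_lit 8) (C.cons (nat_lit 386) (C.node (nat_lit 1) (nat_lit 6) (nat_lit 9)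 (C.cons (nat_lit 582) (C.node (nat_lit 1) (nat_lit 8) (nat_lit 9) C.nil) C.nil)) C.nil)) C.nil))) C.nil)) C.nil))) (C.cons (nat_lit 642) (C.node (nat_lit 4) (nat_lit 7) (nat_lit 9) (C.cons (nat_lit 656) (C.node (nat_lit 1) (nat_lit 8) (nat_lit 9) (C.cons (nat_lit 774) (C.node (nat_lit 1) (nat_lit 2) (nat_lit 3) (C.cons (nat_lit 30) (C.miq (nat_lit 913444948) (nat_lit 236950014067904417696579635)) (C.cons (nat_lit 14) (C.node (nat_lit 1) (nat_lit 2) (nat_lit 4) (C.cons (nat_lit 86) (C.node (nat_lit 1) (nat_lit 4) (nat_lit 9) C.nil) (C.cons (nat_lit 22) (C.node (nat_lit 1) (nat_lit 2) (nat_lit 6) C.nil) C.nil))) C.nil))) (C.cons (nat_lit 770) (C.node (nat_lit 2) (nat_lit 8) (nat_lit 9) (C.cons (nat_lit 772) (C.node (nat_lit 2) (nat_lit 7) (nat_lit 8) (C.cons (nat_lit 396) (C.node (nat_lit 2) (nat_lit 7) (nat_lit 9) C.nil) (C.cons (nat_lit 388) (C.node (nat_lit 2) (nat_lit 7) (nat_lit 9) C.nil) C.nil)))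 C.nil)) C.nil))) C.nil)) C.nil))) C.nil))) C.nil))) (C.cons (nat_lit 42) (C.node (nat_lit 1) (nat_lit 5) (nat_lit 9) (C.cons (nat_lit 546) (C.node (nat_lit 3) (nat_lit 5) (nat_lit 9) (C.cons (nat_lit 552) (C.node (nat_lit 3) (nat_lit 4) (nat_lit 5) (C.cons (nat_lit 312) (C.node (nat_lit 2) (nat_lit 7) (nat_lit 8) (C.cons (nat_lit 396)
  (C.miq (nat_lit 355927170) (nat_lit 203102028020064216008098069)) (C.cons (nat_lit 388) (C.node (nat_lit 4) (nat_lit 7) (nat_lit 8) (C.cons (nat_lit 402) (C.miq (nat_lit 947016720) (nat_lit 469064048201781356035244083)) (C.cons (nat_lit 400) (C.node (nat_lit 1) (nat_lit 7) (nat_lit 8) (C.cons (nat_lit 394) (C.node (nat_lit 1) (nat_lit 3) (nat_lit 4) (C.cons (nat_lit 30) (C.miq (nat_lit 913444948) (nat_lit 236950014067904417696579635)) C.nil)) (C.cons (nat_lit 386) (C.node (nat_lit 2) (nat_lit 3) (nat_lit 7) C.nil) C.nil))) C.nil))) C.nil))) C.nil)) C.nil)) C.nil))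 C.nil))) C.nil))) C.nil)) C.nil))) C.nil))) C.nil)) C.nil))) C.nil))) C.nil)) C.nil)) (C.cons (nat_lit 164) (C.node (nat_lit 2) (nat_lit 4) (nat_lit 5) (C.cons (nat_lit 564) (C.node (nat_lit 3) (nat_lit 6) (nat_lit 9) (C.cons (nat_lit 588) (C.miq (nat_lit 354813075) (nat_lit 120893965481626091899322905)) (C.cons (nat_lit 584) (C.node (nat_lit 4) (nat_lit 6) (nat_lit 9) (C.cons (nat_lit 594) (C.miq (nat_lit 694375440) (nat_lit 706013508917181193038528563)) (C.cons (nat_lit 592) (C.node (nat_lit 1) (nat_lit 2) (nat_lit 5) (C.cons (nat_lit 294) (C.node (nat_lit 1) (nat_lit 3) (nat_lit 5) (C.cons (nat_lit 554) (C.miq (nat_lit 319314242) (nat_lit 320370765696573845418607156)) (C.cons (nat_lit 42) (C.node (nat_lit 1) (nat_lit 5) (nat_lit 9) (C.cons (nat_lit 546) (C.node (nat_lit 3) (nat_lit 5) (nat_lit 9) (C.cons (nat_lit 552) (C.node (nat_lit 2) (nat_lit 8) (nat_lit 9) (C.cons (nat_lit 780) (C.miq (nat_lit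 806917202) (nat_lit 313126175891718731255382580)) (C.cons (nat_lit 772) (C.node (nat_lit 4) (nat_lit 8) (nat_lit 9) (C.cons (nat_lit 786) (C.miq (nat_lit 847840532) (nat_lit 933300638656728941626261555)) (C.cons (nat_lit 784) (C.node (nat_lit 1) (nat_lit 4) (nat_lit 9) (C.cons (nat_lit 658) (C.node (nat_lit 2) (nat_lit 7) (nat_lit 9) (C.cons (nat_lit 652) (C.miq (nat_lit 960833296) (nat_lit 681834992549658682371276935)) (C.cons (nat_lit 644) (C.node (nat_lit 3) (nat_lit 7) (nat_lit 9) (C.cons (nat_lit 648) (C.node (nat_lit 1) (nat_lit 3) (nat_lit 7) (C.cons (nat_lit 394) (C.node (nat_lit 1) (nat_lit 8) (nat_lit 9) (C.cons (nat_lit 770) (C.node (nat_lit 2) (nat_lit 7) (nat_lit 8) (C.cons (nat_lit 388) (C.node (nat_lit 3) (nat_lit 8) (nat_lit 9) (C.cons (nat_lit 776) (C.node (nat_lit 1) (nat_lit 3) (nat_lit 4) C.nil) C.nil)) C.nil)) C.nil)) (C.cons (nat_lit 138) (C.node (nat_lit 1) (nat_lit 7) (nat_lit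 8) (C.cons (nat_lit 386) (C.node (nat_lit 1) (nat_lit 6) (nat_lit 8) (C.cons (nat_lit 338) (C.node (nat_lit 1) (nat_lit 2) (nat_lit 4) (C.cons (nat_lit 30) (C.miq (nat_lit 594100485) (nat_lit 706023082627045581704462387)) (C.cons (nat_lit 22) (C.node (nat_lit 1) (nat_lit 3) (nat_lit 4) (C.cons (nat_lit 26) (C.node (nat_lit 1) (nat_lit 2) (nat_lit 3) (C.cons (nat_lit 14) (C.node (nat_lit 2) (nat_lit 3) (nat_lit 9) C.nil) C.nil)) C.nil)) C.nil))) (C.cons (nat_lit 322) (C.node (nat_lit 1) (nat_lit 6) (nat_lit 9) (C.cons (nat_lit 578) (C.node (nat_lit 2) (nat_lit 6) (nat_lit 9) C.nil) C.nil)) C.nil))) C.nil)) C.nil))) C.nil)) C.nil))) (C.cons (nat_lit 530) (C.node (nat_lit 4) (nat_lit 7) (nat_lit 9) (C.cons (nat_lit 656) (C.node (nat_lit 1) (nat_lit 6) (nat_lit 8) (C.cons (nat_lit 338) (C.node (nat_lit 1) (nat_lit 2) (nat_lit 4) (C.cons (nat_lit 30) (C.miq (nat_lit 594100485) (nat_lit 706023082627045581704462387))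 (C.cons (nat_lit 22) (C.node (nat_lit 2) (nat_lit 6) (nat_lit 8) (C.cons (nat_lit 332) (C.miq (nat_lit 1384383329) (nat_lit 334873392829867840484016203)) (C.cons (nat_lit 324) (C.node (nat_lit 3) (nat_lit 6) (nat_lit 8) (C.cons (nat_lit 328) (C.node (nat_lit 1) (nat_lit 2) (nat_lit 3) (C.cons (nat_lit 526) (C.node (nat_lit 1) (nat_lit 2) (nat_lit 6) (C.cons (nat_lit 70) (C.node (nat_lit 1) (nat_lit 6) (nat_lit 9) C.nil) C.nil)) (C.cons (nat_lit 14) (C.node (nat_lit 1) (nat_lit 2) (nat_lit 6) (C.cons (nat_lit 70) (C.node (nat_lit 1) (nat_lit 2) (nat_lit 9) C.nil) C.nil)) C.nil))) C.nil)) C.nil))) C.nil))) (C.cons (nat_lit 322)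
  (C.node (nat_lit 1) (nat_lit 4) (nat_lit 6) (C.cons (nat_lit 86) (C.node (nat_lit 1) (nat_lit 6) (nat_lit 9) (C.cons (nat_lit 578) (C.node (nat_lit 2) (nat_lit 6) (nat_lit 9) (C.cons (nat_lit 580) (C.node (nat_lit 2) (nat_lit 6) (nat_lit 7) C.nil) C.nil)) C.nil)) (C.cons (nat_lit 82) (C.node (nat_lit 1) (nat_lit 2) (nat_lit 4) (C.cons (nat_lit 30) (C.miq (nat_lit 594100485) (nat_lit 706023082627045581704462387)) (C.cons (nat_lit 22) (C.node (nat_lit 1) (nat_lit 2) (nat_lit 3) (C.cons (nat_lit 526) (C.node (nat_lit 1) (nat_lit 2) (nat_lit 6) (C.cons (nat_lit 70) (C.node (nat_lit 1) (nat_lit 6) (nat_lit 9) C.nil) C.nil)) (C.cons (nat_lit 14) (C.node (nat_lit 1) (nat_lit 2) (nat_lit 6) (C.cons (nat_lit 582) (C.node (nat_lit 1) (nat_lit 7) (nat_lit 9) C.nil) (C.cons (nat_lit 70) (C.node (nat_lit 1) (nat_lit 2) (nat_lit 9) C.nil) C.nil))) C.nil))) C.nil))) C.nil))) C.nil))) C.nil)) C.nil))) C.nil)))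 C.nil))) C.nil)) C.nil)) C.nil))) (C.cons (nat_lit 38) (C.node (nat_lit 2) (nat_lit 5) (nat_lit 8) (C.cons (nat_lit 292) (C.node (nat_lit 1) (nat_lit 5) (nat_lit 8) (C.cons (nat_lit 298) (C.node (nat_lit 1) (nat_lit 5) (nat_lit 9) (C.cons (nat_lit 546) (C.node (nat_lit 3) (nat_lit 5) (nat_lit 9) (C.cons (nat_lit 552) (C.node (nat_lit 4) (nat_lit 5) (nat_lit 8) (C.cons (nat_lit 304) (C.node (nat_lit 1) (nat_lit 6) (nat_lit 9) (C.cons (nat_lit 582) (C.node (nat_lit 1) (nat_lit 2) (nat_lit 8) (C.cons (nat_lit 262) (C.node (nat_lit 1) (nat_lit 2) (nat_lit 3) (C.cons (nat_lit 30) (C.miq (nat_lit 915542100) (nat_lit 703595380439151279158329395)) (C.cons (nat_lit 14) (C.node (nat_lit 1) (nat_lit 2) (nat_lit 4) (C.cons (nat_lit 22) (C.node (nat_lit 2) (nat_lit 6) (nat_lit 8) C.nil) C.nil)) C.nil))) C.nil)) (C.cons (nat_lit 578) (C.node (nat_lit 2) (nat_lit 6) (nat_lit 9) (C.cons (nat_lit 580) (C.node (nat_lit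 1) (nat_lit 7) (nat_lit 8) (C.cons (nat_lit 402) (C.node (nat_lit 1) (nat_lit 4) (nat_lit 9) (C.cons (nat_lit 530) (C.node (nat_lit 4) (nat_lit 7) (nat_lit 9) (C.cons (nat_lit 656) (C.node (nat_lit 4) (nat_lit 8) (nat_lit 9) (C.cons (nat_lit 784) (C.node (nat_lit 1) (nat_lit 7) (nat_lit 9) (C.cons (nat_lit 650) (C.node (nat_lit 2) (nat_lit 7) (nat_lit 9) C.nil) C.nil)) C.nil)) C.nil)) C.nil)) (C.cons (nat_lit 386) (C.node (nat_lit 2) (nat_lit 7) (nat_lit 8) (C.cons (nat_lit 396) (C.node (nat_lit 2) (nat_lit 7) (nat_lit 9) (C.cons (nat_lit 644) (C.node (nat_lit 3) (nat_lit 8) (nat_lit 9) (C.cons (nat_lit 776) (C.node (nat_lit 4) (nat_lit 7) (nat_lit 8) (C.cons (nat_lit 400) (C.node (nat_lit 2) (nat_lit 3) (nat_lit 6) (C.cons (nat_lit 92) (C.node (nat_lit 1) (nat_lit 2) (nat_lit 4) C.nil) (C.cons (nat_lit 76) (C.node (nat_lit 2) (nat_lit 3) (nat_lit 9) C.nil) C.nil))) C.nil)) C.nil)) C.nil)) (C.cons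 (nat_lit 388) (C.node (nat_lit 2) (nat_lit 7) (nat_lit 9) (C.cons (nat_lit 652) (C.node (nat_lit 1) (nat_lit 3) (nat_lit 9) (C.cons (nat_lit 522) (C.node (nat_lit 1) (nat_lit 2) (nat_lit 9) C.nil) C.nil)) (C.cons (nat_lit 644) (C.node (nat_lit 2) (nat_lit 1) (nat_lit 4) (C.cons (nat_lit 86) (C.node (nat_lit 2) (nat_lit 1) (nat_lit 3) C.nil) (C.cons (nat_lit 30) (C.miq (nat_lit 378810450) (nat_lit 715684638635297570905391149)) C.nil))) C.nil))) C.nil))) C.nil))) C.nil)) C.nil))) C.nil)) C.nil)) C.nil)) (C.cons (nat_lit 290) (C.node (nat_lit 1) (nat_lit 3) (nat_lit 5) (C.cons (nat_lit 554) (C.node (nat_lit 3) (nat_lit 8) (nat_lit 9) (C.cons (nat_lit 780) (C.miq (nat_lit 822646082) (nat_lit 313126175896503805858349620)) (C.cons (nat_lit 776) (C.node (nat_lit 4) (nat_lit 8) (nat_lit 9) (C.cons (nat_lit 786) (C.miq (nat_lit 597165332) (nat_lit 938131545781729410533163059)) (C.cons (nat_lit 784) (C.node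 (nat_lit 1) (nat_lit 4) (nat_lit 9) (C.cons (nat_lit 658) (C.node (nat_lit 2) (nat_lit 3) (nat_lit 9) (C.cons (nat_lit 652) (C.miq (nat_lit 960833296) (nat_lit 681834992549658682371276935)) (C.cons (nat_lit 524) (C.node (nat_lit 2) (nat_lit 7) (nat_lit 9) (C.cons (nat_lit 644) (C.node (nat_lit 3) (nat_lit 7) (nat_lit 9) (C.cons (nat_lit 648)
  (C.node (nat_lit 1) (nat_lit 3) (nat_lit 7) (C.cons (nat_lit 394) (C.node (nat_lit 2) (nat_lit 7) (nat_lit 8) (C.cons (nat_lit 388) (C.node (nat_lit 4) (nat_lit 7) (nat_lit 8) (C.cons (nat_lit 400) (C.node (nat_lit 1) (nat_lit 2) (nat_lit 3) (C.cons (nat_lit 14) (C.node (nat_lit 1) (nat_lit 3) (nat_lit 4) C.nil) C.nil)) C.nil)) C.nil)) (C.cons (nat_lit 138) (C.node (nat_lit 1) (nat_lit 7) (nat_lit 8) (C.cons (nat_lit 386) (C.node (nat_lit 1) (nat_lit 6) (nat_lit 9) (C.cons (nat_lit 582) (C.node (nat_lit 1) (nat_lit 8) (nat_lit 9) C.nil) (C.cons (nat_lit 578)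 (C.node (nat_lit 2) (nat_lit 6) (nat_lit 9) (C.cons (nat_lit 580) (C.node (nat_lit 1) (nat_lit 2) (nat_lit 9) C.nil) C.nil)) C.nil))) C.nil)) C.nil))) C.nil)) C.nil)) C.nil))) (C.cons (nat_lit 530) (C.node (nat_lit 1) (nat_lit 7) (nat_lit 9) (C.cons (nat_lit 642) (C.node (nat_lit 4) (nat_lit 7) (nat_lit 9) (C.cons (nat_lit 656) (C.node (nat_lit 1) (nat_lit 6) (nat_lit 9) (C.cons (nat_lit 582) (C.node (nat_lit 1) (nat_lit 8) (nat_lit 9) (C.cons (nat_lit 770) (C.node (nat_lit 2) (nat_lit 8) (nat_lit 9) (C.cons (nat_lit 772) (C.node (nat_lit 1) (nat_lit 2) (nat_lit 4) (C.cons (nat_lit 22) (C.node (nat_lit 1) (nat_lit 2) (nat_lit 3) C.nil) C.nil)) C.nil)) C.nil)) (C.cons (nat_lit 578) (C.node (nat_lit 2) (nat_lit 6) (nat_lit 9) (C.cons (nat_lit 580) (C.node (nat_lit 1) (nat_lit 2) (nat_lit 9) (C.cons (nat_lit 774) (C.node (nat_lit 1) (nat_lit 2) (nat_lit 3) (C.cons (nat_lit 14) (C.node (nat_lit 1) (nat_lit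 2) (nat_lit 4) C.nil) C.nil)) C.nil)) C.nil)) C.nil))) C.nil)) C.nil)) C.nil))) C.nil))) C.nil))) (C.cons (nat_lit 42) (C.node (nat_lit 1) (nat_lit 5) (nat_lit 9) (C.cons (nat_lit 546) (C.node (nat_lit 3) (nat_lit 5) (nat_lit 9) (C.cons (nat_lit 552) (C.node (nat_lit 1) (nat_lit 6) (nat_lit 9) (C.cons (nat_lit 582) (C.node (nat_lit 1) (nat_lit 2) (nat_lit 4) (C.cons (nat_lit 30) (C.miq (nat_lit 915542100) (nat_lit 703595380439151279158329395)) (C.cons (nat_lit 22) (C.node (nat_lit 1) (nat_lit 2) (nat_lit 3) (C.cons (nat_lit 270) (C.node (nat_lit 2) (nat_lit 6) (nat_lit 8) (C.cons (nat_lit 324) (C.node (nat_lit 2) (nat_lit 7) (nat_lit 8) (C.cons (nat_lit 388) (C.node (nat_lit 2) (nat_lit 8) (nat_lit 9) C.nil) C.nil)) C.nil)) (C.cons (nat_lit 14) (C.node (nat_lit 1) (nat_lit 2) (nat_lit 8) (C.cons (nat_lit 262) (C.node (nat_lit 1) (nat_lit 4) (nat_lit 6) C.nil) C.nil)) C.nil))) C.nil))) (C.cons (nat_lit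 578) (C.node (nat_lit 2) (nat_lit 6) (nat_lit 9) (C.cons (nat_lit 580) (C.node (nat_lit 2) (nat_lit 7) (nat_lit 8) (C.cons (nat_lit 396) (C.node (nat_lit 2) (nat_lit 7) (nat_lit 9) (C.cons (nat_lit 644) (C.node (nat_lit 1) (nat_lit 7) (nat_lit 8) (C.cons (nat_lit 402) (C.miq (nat_lit 890708040) (nat_lit 195853287700889708306497813)) (C.cons (nat_lit 386) (C.node (nat_lit 4) (nat_lit 7) (nat_lit 8) (C.cons (nat_lit 400) (C.node (nat_lit 3) (nat_lit 5) (nat_lit 8) (C.cons (nat_lit 312) (C.miq (nat_lit 1215386400) (nat_lit 466646307243016514173337645)) (C.cons (nat_lit 296) (C.node (nat_lit 4) (nat_lit 5) (nat_lit 8) (C.cons (nat_lit 304) (C.node (nat_lit 2) (nat_lit 3) (nat_lit 9) C.nil) C.nil)) C.nil))) C.nil)) C.nil))) C.nil)) (C.cons (nat_lit 388) (C.node (nat_lit 2) (nat_lit 7) (nat_lit 9) (C.cons (nat_lit 652) (C.node (nat_lit 1) (nat_lit 7) (nat_lit 9) (C.cons (nat_lit 658) (C.miq (nat_lit 960833296)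 (nat_lit 681834992549658682371276935)) (C.cons (nat_lit 642) (C.node (nat_lit 4) (nat_lit 7) (nat_lit 9) (C.cons (nat_lit 656) (C.node (nat_lit 1) (nat_lit 2) (nat_lit 9) (C.cons (nat_lit 774) (C.node (nat_lit 1) (nat_lit 3) (nat_lit 9) C.nil) C.nil)) C.nil)) C.nil))) (C.cons (nat_lit 644) (C.node (nat_lit 3) (nat_lit 5) (nat_lit 6) (C.cons (nat_lit 120) (C.node (nat_lit 3) (nat_lit 5) (nat_lit 7) (C.cons (nat_lit 168) (C.node (nat_lit 3) (nat_lit 5) (nat_lit 8) C.nil) C.nil)) (C.cons (nat_lit 104) (C.node (nat_lit 4) (nat_lit 5) (nat_lit 6) C.nil) C.nil))) C.nil))) C.nil))) C.nil)) C.nil))) C.nil)) C.nil)) C.nil))) C.nil))) C.nil)) C.nil))) C.nil))) C.nil)))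
  (C.cons (nat_lit 52) (C.node (nat_lit 4) (nat_lit 5) (nat_lit 9) (C.cons (nat_lit 560) (C.node (nat_lit 2) (nat_lit 5) (nat_lit 8) (C.cons (nat_lit 294) (C.node (nat_lit 2) (nat_lit 5) (nat_lit 9) (C.cons (nat_lit 548) (C.node (nat_lit 1) (nat_lit 3) (nat_lit 5) (C.cons (nat_lit 554) (C.node (nat_lit 1) (nat_lit 2) (nat_lit 3) (C.cons (nat_lit 30) (C.node (nat_lit 1) (nat_lit 6) (nat_lit 8) (C.cons (nat_lit 338) (C.miq (nat_lit 2437436192) (nat_lit 408635244802547120600317997)) (C.cons (nat_lit 322) (C.node (nat_lit 1) (nat_lit 4) (nat_lit 6) (C.cons (nat_lit 594) (C.miq (nat_lit 2299790642) (nat_lit 718107046878705178608795693)) (C.cons (nat_lit 82) (C.node (nat_lit 1) (nat_lit 7) (nat_lit 9) (C.cons (nat_lit 658) (C.miq (nat_lit 2299790642) (nat_lit 795478299334041445789990957)) (C.cons (nat_lit 642) (C.node (nat_lit 1) (nat_lit 4) (nat_lit 7) (C.cons (nat_lit 402) (C.miq (nat_lit 2437436192)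 (nat_lit 486006497257883387781513261)) (C.cons (nat_lit 146) (C.node (nat_lit 1) (nat_lit 4) (nat_lit 8) (C.cons (nat_lit 786) (C.node (nat_lit 2) (nat_lit 6) (nat_lit 8) (C.cons (nat_lit 332) (C.miq (nat_lit 2552435717) (nat_lit 401373591829514242497511475)) (C.cons (nat_lit 324) (C.node (nat_lit 2) (nat_lit 7) (nat_lit 8) (C.cons (nat_lit 396) (C.miq (nat_lit 2552435717) (nat_lit 478744844284850509678706739)) (C.cons (nat_lit 388) (C.node (nat_lit 2) (nat_lit 3) (nat_lit 8) (C.cons (nat_lit 780) (C.node (nat_lit 3) (nat_lit 6) (nat_lit 9) (C.cons (nat_lit 584) (C.node (nat_lit 3) (nat_lit 7) (nat_lit 9) (C.cons (nat_lit 648) (C.node (nat_lit 1) (nat_lit 2) (nat_lit 6) (C.cons (nat_lit 582) (C.node (nat_lit 4) (nat_lit 6) (nat_lit 9) (C.cons (nat_lit 592) (C.node (nat_lit 2) (nat_lit 4) (nat_lit 9) (C.cons (nat_lit 660) (C.miq (nat_lit 1766000417) (nat_lit 649194548918368881587650695)) C.nil)) C.nil))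 C.nil)) C.nil)) C.nil)) (C.cons (nat_lit 268) (C.miq (nat_lit 2552435717) (nat_lit 324002339374177975316316211)) C.nil))) C.nil))) C.nil))) (C.cons (nat_lit 274) (C.miq (nat_lit 2437436192) (nat_lit 331263992347210853419122733)) C.nil))) C.nil))) C.nil))) C.nil))) C.nil))) (C.cons (nat_lit 14) (C.miq (nat_lit 1125255512) (nat_lit 16930071373867667916456929)) C.nil))) (C.cons (nat_lit 42) (C.node (nat_lit 1) (nat_lit 5) (nat_lit 9) (C.cons (nat_lit 546) (C.node (nat_lit 3) (nat_lit 5) (nat_lit 9) (C.cons (nat_lit 552) (C.node (nat_lit 4) (nat_lit 8) (nat_lit 9) (C.cons (nat_lit 786) (C.miq (nat_lit 2438154272) (nat_lit 50784790546622601784787221)) (C.cons (nat_lit 784) (C.node (nat_lit 2) (nat_lit 8) (nat_lit 9) (C.cons (nat_lit 780) (C.miq (nat_lit 412373552) (nat_lit 947798783444574025419391021)) (C.cons (nat_lit 772) (C.node (nat_lit 1) (nat_lit 6) (nat_lit 8) (C.cons (nat_lit 338) (C.node (nat_lit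 2) (nat_lit 6) (nat_lit 8) (C.cons (nat_lit 332) (C.miq (nat_lit 1384383329) (nat_lit 334873392829867840484016203)) (C.cons (nat_lit 324) (C.node (nat_lit 3) (nat_lit 6) (nat_lit 8) (C.cons (nat_lit 328) (C.node (nat_lit 1) (nat_lit 2) (nat_lit 6) (C.cons (nat_lit 582) (C.node (nat_lit 3) (nat_lit 6) (nat_lit 9) (C.cons (nat_lit 584) (C.node (nat_lit 4) (nat_lit 6) (nat_lit 9) (C.cons (nat_lit 592) (C.node (nat_lit 1) (nat_lit 2) (nat_lit 3) (C.cons (nat_lit 30) (C.miq (nat_lit 964837457) (nat_lit 933291286295972261575131187)) (C.cons (nat_lit 14) (C.node (nat_lit 1) (nat_lit 2) (nat_lit 4) C.nil) C.nil))) C.nil)) C.nil)) (C.cons (nat_lit 70) (C.node (nat_lit 1) (nat_lit 6) (nat_lit 9) (C.cons (nat_lit 578) (C.node (nat_lit 1) (nat_lit 7) (nat_lit 8) (C.cons (nat_lit 394) (C.node (nat_lit 1) (nat_lit 8) (nat_lit 9) C.nil) (C.cons (nat_lit 386) (C.node (nat_lit 1) (nat_lit 3) (nat_lit 8) (C.cons (nat_lit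 266) (C.node (nat_lit 1) (nat_lit 8) (nat_lit 9) C.nil) C.nil)) C.nil))) C.nil)) C.nil))) C.nil)) C.nil))) (C.cons (nat_lit 322) (C.node (nat_lit 1) (nat_lit 8) (nat_lit 9) (C.cons (nat_lit 778) (C.node (nat_lit 1) (nat_lit 2) (nat_lit 3) (C.cons (nat_lit 30) (C.miq (nat_lit 964837457) (nat_lit 933291286295972261575131187))
  (C.cons (nat_lit 14) (C.node (nat_lit 1) (nat_lit 3) (nat_lit 4) (C.cons (nat_lit 154) (C.node (nat_lit 1) (nat_lit 4) (nat_lit 8) (C.cons (nat_lit 274) (C.node (nat_lit 1) (nat_lit 7) (nat_lit 8) (C.cons (nat_lit 386) (C.node (nat_lit 1) (nat_lit 7) (nat_lit 9) (C.cons (nat_lit 642) (C.node (nat_lit 2) (nat_lit 3) (nat_lit 9) C.nil) C.nil)) C.nil)) C.nil)) (C.cons (nat_lit 26) (C.node (nat_lit 1) (nat_lit 3) (nat_lit 7) (C.cons (nat_lit 138) (C.node (nat_lit 1) (nat_lit 4) (nat_lit 8) (C.cons (nat_lit 402) (C.node (nat_lit 2) (nat_lit 7) (nat_lit 8) (C.cons (nat_lit 396) (C.miq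 (nat_lit 1366492290) (nat_lit 166832593224659093454323989)) C.nil)) (C.cons (nat_lit 274) (C.node (nat_lit 1) (nat_lit 7) (nat_lit 8) C.nil) C.nil))) C.nil)) C.nil))) C.nil))) (C.cons (nat_lit 770) (C.node (nat_lit 3) (nat_lit 8) (nat_lit 9) (C.cons (nat_lit 776) (C.node (nat_lit 2) (nat_lit 6) (nat_lit 8) (C.cons (nat_lit 332) (C.node (nat_lit 2) (nat_lit 7) (nat_lit 8) (C.cons (nat_lit 388) (C.node (nat_lit 3) (nat_lit 6) (nat_lit 9) (C.cons (nat_lit 584) (C.node (nat_lit 4) (nat_lit 6) (nat_lit 8) (C.cons (nat_lit 336) (C.node (nat_lit 1) (nat_lit 2) (nat_lit 3) (C.cons (nat_lit 526) (C.node (nat_lit 3) (nat_lit 7) (nat_lit 9) C.nil) (C.cons (nat_lit 30) (C.miq (nat_lit 2552431892) (nat_lit 401373278293130382627700787)) C.nil))) C.nil)) C.nil)) C.nil)) (C.cons (nat_lit 324) (C.node (nat_lit 2) (nat_lit 3) (nat_lit 8) (C.cons (nat_lit 396) (C.node (nat_lit 1) (nat_lit 7) (nat_lit 8) (C.cons (nat_lit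 402) (C.miq (nat_lit 890708040) (nat_lit 195853287700889708306497813)) (C.cons (nat_lit 386) (C.node (nat_lit 4) (nat_lit 7) (nat_lit 8) (C.cons (nat_lit 400) (C.node (nat_lit 2) (nat_lit 7) (nat_lit 9) (C.cons (nat_lit 660) (C.node (nat_lit 2) (nat_lit 6) (nat_lit 7) C.nil) C.nil)) C.nil)) C.nil))) (C.cons (nat_lit 268) (C.node (nat_lit 2) (nat_lit 7) (nat_lit 8) (C.cons (nat_lit 388) (C.node (nat_lit 4) (nat_lit 5) (nat_lit 8) (C.cons (nat_lit 304) (C.node (nat_lit 3) (nat_lit 5) (nat_lit 8) C.nil) C.nil)) C.nil)) C.nil))) C.nil))) C.nil)) C.nil))) C.nil))) C.nil))) C.nil))) C.nil)) C.nil)) C.nil))) C.nil)) (C.cons (nat_lit 292) (C.node (nat_lit 1) (nat_lit 2) (nat_lit 5) (C.cons (nat_lit 550) (C.node (nat_lit 3) (nat_lit 5) (nat_lit 9) (C.cons (nat_lit 552) (C.node (nat_lit 1) (nat_lit 3) (nat_lit 5) (C.cons (nat_lit 298) (C.node (nat_lit 4) (nat_lit 5) (nat_lit 8) (C.cons (nat_lit 304) (C.node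 (nat_lit 1) (nat_lit 2) (nat_lit 3) (C.cons (nat_lit 30) (C.node (nat_lit 1) (nat_lit 2) (nat_lit 6) (C.cons (nat_lit 326) (C.miq (nat_lit 2552497683) (nat_lit 334882358214325915457814603)) (C.cons (nat_lit 70) (C.node (nat_lit 1) (nat_lit 2) (nat_lit 8) (C.cons (nat_lit 262) (C.node (nat_lit 1) (nat_lit 3) (nat_lit 7) (C.cons (nat_lit 650) (C.miq (nat_lit 2301888274) (nat_lit 649198275160671727967404167)) (C.cons (nat_lit 138) (C.node (nat_lit 1) (nat_lit 3) (nat_lit 9) (C.cons (nat_lit 522) (C.node (nat_lit 1) (nat_lit 6) (nat_lit 8) (C.cons (nat_lit 338) (C.miq (nat_lit 2217042224) (nat_lit 62882460331964581649645643)) C.nil)) C.nil)) C.nil))) C.nil)) C.nil))) (C.cons (nat_lit 14) (C.node (nat_lit 1) (nat_lit 2) (nat_lit 4) (C.cons (nat_lit 86) (C.node (nat_lit 1) (nat_lit 2) (nat_lit 8) (C.cons (nat_lit 262) (C.node (nat_lit 1) (nat_lit 6) (nat_lit 8) (C.cons (nat_lit 322) (C.node (nat_lit 1)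 (nat_lit 6) (nat_lit 9) (C.cons (nat_lit 578) (C.node (nat_lit 4) (nat_lit 6) (nat_lit 9) (C.cons (nat_lit 592) (C.node (nat_lit 1) (nat_lit 3) (nat_lit 4) (C.cons (nat_lit 154) (C.node (nat_lit 1) (nat_lit 3) (nat_lit 9) C.nil) C.nil)) C.nil)) C.nil)) C.nil)) C.nil)) (C.cons (nat_lit 22) (C.node (nat_lit 1) (nat_lit 2) (nat_lit 6) (C.cons (nat_lit 326) (C.node (nat_lit 1) (nat_lit 3) (nat_lit 4) (C.cons (nat_lit 154) (C.node (nat_lit 1) (nat_lit 3) (nat_lit 9) (C.cons (nat_lit 522) (C.node (nat_lit 1) (nat_lit 7) (nat_lit 8) (C.cons (nat_lit 386) (C.node (nat_lit 1) (nat_lit 7) (nat_lit 9) C.nil) C.nil)) C.nil)) (C.cons (nat_lit 26)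
  (C.node (nat_lit 1) (nat_lit 3) (nat_lit 7) (C.cons (nat_lit 650) (C.node (nat_lit 1) (nat_lit 4) (nat_lit 6) (C.cons (nat_lit 594) (C.node (nat_lit 1) (nat_lit 8) (nat_lit 9) (C.cons (nat_lit 770) (C.node (nat_lit 4) (nat_lit 8) (nat_lit 9) (C.cons (nat_lit 784) (C.node (nat_lit 1) (nat_lit 4) (nat_lit 7) (C.cons (nat_lit 402) (C.node (nat_lit 2) (nat_lit 4) (nat_lit 9) (C.cons (nat_lit 660) (C.node (nat_lit 2) (nat_lit 3) (nat_lit 4) C.nil) C.nil)) C.nil)) C.nil)) C.nil)) (C.cons (nat_lit 82) (C.node (nat_lit 1) (nat_lit 6) (nat_lit 9) C.nil) C.nil))) (C.cons (nat_lit 138) (C.node (nat_lit 1) (nat_lit 3) (nat_lit 9) C.nil) C.nil))) C.nil))) (C.cons (nat_lit 70) (C.node (nat_lit 1) (nat_lit 2) (nat_lit 8) (C.cons (nat_lit 262) (C.node (nat_lit 1) (nat_lit 3) (nat_lit 4) C.nil) C.nil)) C.nil))) C.nil))) C.nil))) C.nil)) (C.cons (nat_lit 42) (C.node (nat_lit 1) (nat_lit 5) (nat_lit 8) (C.cons (nat_lit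 290) (C.node (nat_lit 1) (nat_lit 6) (nat_lit 9) (C.cons (nat_lit 594) (C.node (nat_lit 4) (nat_lit 8) (nat_lit 9) (C.cons (nat_lit 784) (C.node (nat_lit 1) (nat_lit 2) (nat_lit 4) (C.cons (nat_lit 30) (C.miq (nat_lit 2485477680) (nat_lit 62882460404022175687573579)) (C.cons (nat_lit 22) (C.node (nat_lit 2) (nat_lit 6) (nat_lit 9) (C.cons (nat_lit 588) (C.miq (nat_lit 692401680) (nat_lit 676999289253185492285063243)) (C.cons (nat_lit 580) (C.node (nat_lit 3) (nat_lit 6) (nat_lit 9) (C.cons (nat_lit 584) (C.node (nat_lit 1) (nat_lit 2) (nat_lit 3) (C.cons (nat_lit 270) (C.node (nat_lit 1) (nat_lit 2) (nat_lit 6) (C.cons (nat_lit 70) (C.node (nat_lit 1) (nat_lit 6) (nat_lit 8) C.nil) C.nil)) (C.cons (nat_lit 14) (C.node (nat_lit 1) (nat_lit 2) (nat_lit 6) (C.cons (nat_lit 326) (C.node (nat_lit 1) (nat_lit 7) (nat_lit 9) (C.cons (nat_lit 650) (C.node (nat_lit 1) (nat_lit 8) (nat_lit 9) C.nil) C.nil))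 (C.cons (nat_lit 70) (C.node (nat_lit 1) (nat_lit 2) (nat_lit 8) (C.cons (nat_lit 262) (C.node (nat_lit 1) (nat_lit 6) (nat_lit 8) C.nil) C.nil)) C.nil))) C.nil))) C.nil)) C.nil))) C.nil))) C.nil)) (C.cons (nat_lit 578) (C.node (nat_lit 2) (nat_lit 7) (nat_lit 8) (C.cons (nat_lit 396) (C.node (nat_lit 2) (nat_lit 8) (nat_lit 9) (C.cons (nat_lit 772) (C.node (nat_lit 1) (nat_lit 2) (nat_lit 3) (C.cons (nat_lit 30) (C.miq (nat_lit 1930789440) (nat_lit 50793202152143838552195349)) (C.cons (nat_lit 14) (C.node (nat_lit 1) (nat_lit 7) (nat_lit 8) (C.cons (nat_lit 402) (C.miq (nat_lit 890708040) (nat_lit 195853287700889708306497813)) (C.cons (nat_lit 386) (C.node (nat_lit 4) (nat_lit 7) (nat_lit 8) (C.cons (nat_lit 400) (C.node (nat_lit 3) (nat_lit 5) (nat_lit 8) (C.cons (nat_lit 312) (C.miq (nat_lit 1092833400) (nat_lit 16930716873111609484772321)) (C.cons (nat_lit 296) (C.node (nat_lit 4) (nat_lit 5)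 (nat_lit 8) C.nil) C.nil))) C.nil)) C.nil))) C.nil))) C.nil)) (C.cons (nat_lit 388) (C.node (nat_lit 2) (nat_lit 8) (nat_lit 9) (C.cons (nat_lit 780) (C.node (nat_lit 3) (nat_lit 6) (nat_lit 9) (C.cons (nat_lit 584) (C.node (nat_lit 1) (nat_lit 2) (nat_lit 3) (C.cons (nat_lit 30) (C.miq (nat_lit 2467660352) (nat_lit 50793202260230229609087253)) (C.cons (nat_lit 14) (C.node (nat_lit 1) (nat_lit 8) (nat_lit 9) (C.cons (nat_lit 786) (C.miq (nat_lit 422922272) (nat_lit 667327993432465745396957461)) (C.cons (nat_lit 770) (C.node (nat_lit 4) (nat_lit 8) (nat_lit 9) (C.cons (nat_lit 784) (C.node (nat_lit 1) (nat_lit 2) (nat_lit 4) (C.cons (nat_lit 86) (C.node (nat_lit 2) (nat_lit 6) (nat_lit 9) C.nil) (C.cons (nat_lit 22) (C.node (nat_lit 1) (nat_lit 2) (nat_lit 6) (C.cons (nat_lit 326) (C.node (nat_lit 1) (nat_lit 4) (nat_lit 6) C.nil) C.nil)) C.nil))) C.nil)) C.nil))) C.nil))) C.nil)) (C.cons (nat_lit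 772) (C.node (nat_lit 3) (nat_lit 5) (nat_lit 6) (C.cons (nat_lit 120) (C.node (nat_lit 3) (nat_lit 5) (nat_lit 7) (C.cons (nat_lit 168) (C.node (nat_lit 3) (nat_lit 5) (nat_lit 8) (C.cons (nat_lit 296) (C.node (nat_lit 4) (nat_lit 5) (nat_lit 7) (C.cons (nat_lit 176) (C.node (nat_lit 4) (nat_lit 5) (nat_lit 8) (C.cons (nat_lit 304)
  (C.node (nat_lit 3) (nat_lit 6) (nat_lit 7) (C.cons (nat_lit 204) (C.miq (nat_lit 1181831968) (nat_lit 234532549822963692467585069)) (C.cons (nat_lit 200) (C.node (nat_lit 1) (nat_lit 2) (nat_lit 3) (C.cons (nat_lit 270) (C.node (nat_lit 2) (nat_lit 6) (nat_lit 8) (C.cons (nat_lit 324) (C.node (nat_lit 1) (nat_lit 2) (nat_lit 4) C.nil) C.nil)) (C.cons (nat_lit 30) (C.miq (nat_lit 660803668) (nat_lit 241785717363251432994111539)) C.nil))) C.nil))) C.nil)) C.nil)) C.nil)) C.nil)) (C.cons (nat_lit 104) (C.node (nat_lit 4) (nat_lit 5) (nat_lit 6) (C.cons (nat_lit 112) (C.node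 (nat_lit 3) (nat_lit 5) (nat_lit 7) (C.cons (nat_lit 184) (C.node (nat_lit 3) (nat_lit 5) (nat_lit 8) (C.cons (nat_lit 296) (C.node (nat_lit 4) (nat_lit 5) (nat_lit 8) (C.cons (nat_lit 304) (C.node (nat_lit 3) (nat_lit 6) (nat_lit 7) (C.cons (nat_lit 204) (C.node (nat_lit 2) (nat_lit 3) (nat_lit 9) (C.cons (nat_lit 524) (C.node (nat_lit 2) (nat_lit 3) (nat_lit 4) C.nil) C.nil)) (C.cons (nat_lit 200) (C.node (nat_lit 2) (nat_lit 3) (nat_lit 7) (C.cons (nat_lit 652) (C.node (nat_lit 3) (nat_lit 6) (nat_lit 9) (C.cons (nat_lit 584) (C.node (nat_lit 1) (nat_lit 3) (nat_lit 7) (C.cons (nat_lit 394) (C.node (nat_lit 1) (nat_lit 3) (nat_lit 9) C.nil) C.nil)) C.nil)) (C.cons (nat_lit 140) (C.node (nat_lit 2) (nat_lit 3) (nat_lit 9) (C.cons (nat_lit 588) (C.node (nat_lit 2) (nat_lit 3) (nat_lit 4) C.nil) C.nil)) C.nil))) C.nil))) C.nil)) C.nil)) (C.cons (nat_lit 168) (C.node (nat_lit 4) (nat_lit 5) (nat_lit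 7) (C.cons (nat_lit 176) (C.node (nat_lit 3) (nat_lit 4) (nat_lit 5) (C.cons (nat_lit 312) (C.node (nat_lit 4) (nat_lit 8) (nat_lit 7) (C.cons (nat_lit 402) (C.miq (nat_lit 947016720) (nat_lit 469064048201781356035244083)) (C.cons (nat_lit 400) (C.node (nat_lit 2) (nat_lit 1) (nat_lit 4) (C.cons (nat_lit 86) (C.node (nat_lit 1) (nat_lit 8) (nat_lit 6) (C.cons (nat_lit 322) (C.node (nat_lit 2) (nat_lit 1) (nat_lit 3) C.nil) C.nil)) (C.cons (nat_lit 30) (C.miq (nat_lit 394534995) (nat_lit 483570881286177267947929645)) C.nil))) C.nil))) C.nil)) C.nil)) C.nil))) C.nil)) C.nil))) C.nil))) C.nil))) C.nil))) C.nil)) C.nil))) C.nil)) (C.cons (nat_lit 38) (C.node (nat_lit 2) (nat_lit 5) (nat_lit 9) (C.cons (nat_lit 548) (C.node (nat_lit 1) (nat_lit 5) (nat_lit 8) (C.cons (nat_lit 298) (C.node (nat_lit 1) (nat_lit 5) (nat_lit 9) (C.cons (nat_lit 546) (C.node (nat_lit 3) (nat_lit 5) (nat_lit 9) (C.cons (nat_lit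 552) (C.node (nat_lit 4) (nat_lit 5) (nat_lit 8) (C.cons (nat_lit 304) (C.node (nat_lit 1) (nat_lit 7) (nat_lit 8) (C.cons (nat_lit 402) (C.node (nat_lit 4) (nat_lit 8) (nat_lit 9) (C.cons (nat_lit 784) (C.node (nat_lit 1) (nat_lit 3) (nat_lit 4) (C.cons (nat_lit 30) (C.miq (nat_lit 897851505) (nat_lit 367514002577840119278076039)) (C.cons (nat_lit 26) (C.node (nat_lit 2) (nat_lit 7) (nat_lit 8) (C.cons (nat_lit 396) (C.miq (nat_lit 944056080) (nat_lit 367514279377796403398115463)) (C.cons (nat_lit 388) (C.node (nat_lit 3) (nat_lit 7) (nat_lit 8) (C.cons (nat_lit 392) (C.node (nat_lit 2) (nat_lit 1) (nat_lit 3) (C.cons (nat_lit 526) (C.node (nat_lit 2) (nat_lit 8) (nat_lit 9) C.nil) C.nil)) C.nil)) C.nil))) C.nil))) C.nil)) (C.cons (nat_lit 386) (C.node (nat_lit 2) (nat_lit 7) (nat_lit 8) (C.cons (nat_lit 396) (C.node (nat_lit 3) (nat_lit 8) (nat_lit 9) (C.cons (nat_lit 776) (C.node (nat_lit 4) (nat_lit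 7) (nat_lit 8) (C.cons (nat_lit 400) (C.node (nat_lit 1) (nat_lit 2) (nat_lit 3) (C.cons (nat_lit 526) (C.node (nat_lit 2) (nat_lit 8) (nat_lit 9) (C.cons (nat_lit 772) (C.node (nat_lit 1) (nat_lit 2) (nat_lit 4) C.nil) C.nil)) (C.cons (nat_lit 30) (C.miq (nat_lit 1166217330) (nat_lit 360260447661841194089709703)) C.nil))) C.nil)) C.nil)) (C.cons (nat_lit 388) (C.node (nat_lit 4) (nat_lit 5) (nat_lit 7) (C.cons (nat_lit 184) (C.node (nat_lit 4) (nat_lit 5) (nat_lit 6) (C.cons (nat_lit 112) (C.node (nat_lit 4) (nat_lit 8) (nat_lit 7) (C.cons (nat_lit 400) (C.node (nat_lit 3) (nat_lit 5) (nat_lit 6) (C.cons (nat_lit 104) (C.node (nat_lit 3) (nat_lit 8) (nat_lit 7)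
  (C.cons (nat_lit 392) (C.node (nat_lit 4) (nat_lit 7) (nat_lit 6) (C.cons (nat_lit 208) (C.node (nat_lit 2) (nat_lit 4) (nat_lit 7) C.nil) C.nil)) C.nil)) C.nil)) C.nil)) C.nil)) (C.cons (nat_lit 176) (C.node (nat_lit 3) (nat_lit 5) (nat_lit 7) (C.cons (nat_lit 168) (C.node (nat_lit 4) (nat_lit 3) (nat_lit 5) (C.cons (nat_lit 120) (C.node (nat_lit 3) (nat_lit 7) (nat_lit 6) (C.cons (nat_lit 204) (C.miq (nat_lit 1181831968) (nat_lit 234532549822963692467585069)) (C.cons (nat_lit 200) (C.node (nat_lit 2) (nat_lit 7) (nat_lit 6) (C.cons (nat_lit 212) (C.node (nat_lit 2) (nat_lit 3) (nat_lit 7) C.nil) C.nil)) C.nil))) C.nil)) C.nil)) C.nil))) C.nil))) C.nil))) C.nil)) C.nil)) C.nil)) (C.cons (nat_lit 290) (C.node (nat_lit 1) (nat_lit 3) (nat_lit 5) (C.cons (nat_lit 554) (C.node (nat_lit 4) (nat_lit 8) (nat_lit 9) (C.cons (nat_lit 786) (C.miq (nat_lit 2169653552) (nat_lit 45944291114706037294039577))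 (C.cons (nat_lit 784) (C.node (nat_lit 3) (nat_lit 8) (nat_lit 9) (C.cons (nat_lit 780) (C.miq (nat_lit 428102432) (nat_lit 947798783517757519347122221)) (C.cons (nat_lit 776) (C.node (nat_lit 1) (nat_lit 7) (nat_lit 9) (C.cons (nat_lit 658) (C.node (nat_lit 2) (nat_lit 7) (nat_lit 9) (C.cons (nat_lit 652) (C.miq (nat_lit 960833296) (nat_lit 676999289271200165672452231)) (C.cons (nat_lit 644) (C.node (nat_lit 3) (nat_lit 7) (nat_lit 9) (C.cons (nat_lit 648) (C.node (nat_lit 1) (nat_lit 3) (nat_lit 7) (C.cons (nat_lit 394) (C.node (nat_lit 2) (nat_lit 7) (nat_lit 8) (C.cons (nat_lit 388) (C.node (nat_lit 4) (nat_lit 7) (nat_lit 8) (C.cons (nat_lit 400) (C.node (nat_lit 1) (nat_lit 2) (nat_lit 3) (C.cons (nat_lit 14) (C.node (nat_lit 1) (nat_lit 2) (nat_lit 4) C.nil) C.nil)) C.nil)) C.nil)) (C.cons (nat_lit 138) (C.node (nat_lit 1) (nat_lit 7) (nat_lit 8) (C.cons (nat_lit 386) (C.node (nat_lit 1) (nat_lit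 6) (nat_lit 9) (C.cons (nat_lit 582) (C.node (nat_lit 1) (nat_lit 8) (nat_lit 9) C.nil) (C.cons (nat_lit 578) (C.node (nat_lit 1) (nat_lit 2) (nat_lit 9) C.nil) C.nil))) C.nil)) C.nil))) C.nil)) C.nil))) (C.cons (nat_lit 642) (C.node (nat_lit 1) (nat_lit 8) (nat_lit 9) (C.cons (nat_lit 774) (C.node (nat_lit 1) (nat_lit 2) (nat_lit 3) (C.cons (nat_lit 30) (C.miq (nat_lit 680738897) (nat_lit 938126989501247284346224691)) (C.cons (nat_lit 14) (C.node (nat_lit 1) (nat_lit 2) (nat_lit 4) (C.cons (nat_lit 86) (C.node (nat_lit 1) (nat_lit 4) (nat_lit 9) C.nil) (C.cons (nat_lit 22) (C.node (nat_lit 1) (nat_lit 2) (nat_lit 6) (C.cons (nat_lit 70) (C.node (nat_lit 1) (nat_lit 4) (nat_lit 9) C.nil) C.nil)) C.nil))) C.nil))) (C.cons (nat_lit 770) (C.node (nat_lit 2) (nat_lit 8) (nat_lit 9) (C.cons (nat_lit 772) (C.node (nat_lit 2) (nat_lit 7) (nat_lit 8) (C.cons (nat_lit 396) (C.node (nat_lit 3) (nat_lit 7)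 (nat_lit 9) (C.cons (nat_lit 648) (C.node (nat_lit 1) (nat_lit 2) (nat_lit 3) (C.cons (nat_lit 30) (C.miq (nat_lit 2468892992) (nat_lit 478752942340195612733276211)) (C.cons (nat_lit 14) (C.node (nat_lit 2) (nat_lit 3) (nat_lit 9) C.nil) C.nil))) C.nil)) (C.cons (nat_lit 388) (C.node (nat_lit 4) (nat_lit 5) (nat_lit 8) (C.cons (nat_lit 312) (C.node (nat_lit 4) (nat_lit 5) (nat_lit 7) (C.cons (nat_lit 176) (C.node (nat_lit 4) (nat_lit 5) (nat_lit 6) C.nil) C.nil)) (C.cons (nat_lit 304) (C.node (nat_lit 3) (nat_lit 5) (nat_lit 8) C.nil) C.nil))) C.nil))) C.nil)) C.nil))) C.nil))) C.nil))) C.nil))) (C.cons (nat_lit 42) (C.node (nat_lit 1) (nat_lit 5) (nat_lit 9) (C.cons (nat_lit 546) (C.node (nat_lit 3) (nat_lit 5) (nat_lit 9) (C.cons (nat_lit 552) (C.node (nat_lit 2) (nat_lit 7) (nat_lit 8) (C.cons (nat_lit 396) (C.node (nat_lit 1) (nat_lit 7) (nat_lit 8) (C.cons (nat_lit 402) (C.miq (nat_lit 890708040)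 (nat_lit 195853287700889708306497813)) (C.cons (nat_lit 386) (C.node (nat_lit 4) (nat_lit 7) (nat_lit 8) (C.cons (nat_lit 400) (C.node (nat_lit 3) (nat_lit 5) (nat_lit 8) (C.cons (nat_lit 312) (C.miq (nat_lit 1215386400) (nat_lit 466646307243016514173337645)) (C.cons (nat_lit 296)
  (C.node (nat_lit 4) (nat_lit 5) (nat_lit 8) C.nil) C.nil))) C.nil)) C.nil))) (C.cons (nat_lit 388) (C.node (nat_lit 3) (nat_lit 5) (nat_lit 6) (C.cons (nat_lit 120) (C.node (nat_lit 3) (nat_lit 5) (nat_lit 7) (C.cons (nat_lit 168) (C.node (nat_lit 3) (nat_lit 5) (nat_lit 8) C.nil) C.nil)) (C.cons (nat_lit 104) (C.node (nat_lit 4) (nat_lit 5) (nat_lit 6) C.nil) C.nil))) C.nil))) C.nil)) C.nil)) C.nil))) C.nil))) C.nil)) C.nil))) C.nil))) C.nil)) C.nil))) C.nil))) List.nil)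

theorem ok10_5 : okL par10 (nat_lit 6) c10_5 (nat_lit 5) = true := by decide +kernel

noncomputable def c10_6 : List C :=
  (List.cons (C.node (nat_lit 1) (nat_lit 6) (nat_lit 7) (C.cons (nat_lit 210) (C.node (nat_lit 1) (nat_lit 6) (nat_lit 8) (C.cons (nat_lit 326) (C.node (nat_lit 1) (nat_lit 6) (nat_lit 9) (C.cons (nat_lit 578) (C.node (nat_lit 2) (nat_lit 5) (nat_lit 8) (C.cons (nat_lit 292) (C.node (nat_lit 1) (nat_lit 2) (nat_lit 5) (C.cons (nat_lit 550) (C.node (nat_lit 3) (nat_lit 5) (nat_lit 9) (C.cons (nat_lit 552) (C.node (nat_lit 4) (nat_lit 5) (nat_lit 9) (C.cons (nat_lit 560) (C.node (nat_lit 1) (nat_lit 2) (nat_lit 3) (C.cons (nat_lit 30) (C.miq (nat_lit 2552497683) (nat_lit 334882358214325915457814603)) (C.cons (nat_lit 14) (C.node (nat_lit 1) (nat_lit 2) (nat_lit 4) (C.cons (nat_lit 22) (C.node (nat_lit 2) (nat_lit 5) (nat_lit 7) (C.cons (nat_lit 180) (C.miq (nat_lit 826410613)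 (nat_lit 26597198156116683981587425)) (C.cons (nat_lit 164) (C.node (nat_lit 2) (nat_lit 6) (nat_lit 7) (C.cons (nat_lit 204) (C.miq (nat_lit 1160187958) (nat_lit 198267708247410080756793419)) (C.cons (nat_lit 196) (C.node (nat_lit 3) (nat_lit 6) (nat_lit 7) (C.cons (nat_lit 200) (C.node (nat_lit 3) (nat_lit 5) (nat_lit 6) (C.cons (nat_lit 120) (C.miq (nat_lit 840192118) (nat_lit 26598581653477640776057825)) (C.cons (nat_lit 104) (C.node (nat_lit 1) (nat_lit 3) (nat_lit 4) (C.cons (nat_lit 282) (C.node (nat_lit 1) (nat_lit 3) (nat_lit 5) (C.cons (nat_lit 42) (C.node (nat_lit 1) (nat_lit 4) (nat_lit 9) (C.cons (nat_lit 530) (C.node (nat_lit 1) (nat_lit 5) (nat_lit 8) C.nil) C.nil)) C.nil)) (C.cons (nat_lit 26) (C.node (nat_lit 1) (nat_lit 3) (nat_lit 5) (C.cons (nat_lit 298) (C.node (nat_lit 1) (nat_lit 7) (nat_lit 8) (C.cons (nat_lit 386) (C.node (nat_lit 4) (nat_lit 5) (nat_lit 8) (C.cons (nat_lit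 304) (C.node (nat_lit 1) (nat_lit 3) (nat_lit 7) (C.cons (nat_lit 650) (C.node (nat_lit 1) (nat_lit 4) (nat_lit 8) (C.cons (nat_lit 786) (C.node (nat_lit 2) (nat_lit 8) (nat_lit 9) (C.cons (nat_lit 780) (C.miq (nat_lit 422922272) (nat_lit 667327993432465745396957461)) (C.cons (nat_lit 772) (C.node (nat_lit 3) (nat_lit 8) (nat_lit 9) (C.cons (nat_lit 776) (C.node (nat_lit 2) (nat_lit 3) (nat_lit 8) (C.cons (nat_lit 396) (C.node (nat_lit 2) (nat_lit 3) (nat_lit 4) C.nil) (C.cons (nat_lit 268) (C.node (nat_lit 2) (nat_lit 7) (nat_lit 8) C.nil) C.nil))) C.nil)) C.nil))) (C.cons (nat_lit 274) (C.node (nat_lit 1) (nat_lit 4) (nat_lit 9) (C.cons (nat_lit 530) (C.node (nat_lit 1) (nat_lit 8) (nat_lit 9) (C.cons (nat_lit 770) (C.node (nat_lit 4) (nat_lit 8) (nat_lit 9) (C.cons (nat_lit 784) (C.node (nat_lit 2) (nat_lit 4) (nat_lit 5) (C.cons (nat_lit 116) (C.node (nat_lit 4) (nat_lit 6) (nat_lit 9) C.nil)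 C.nil)) C.nil)) C.nil)) C.nil)) C.nil))) (C.cons (nat_lit 138) (C.node (nat_lit 1) (nat_lit 3) (nat_lit 9) (C.cons (nat_lit 522) (C.node (nat_lit 1) (nat_lit 7) (nat_lit 9) (C.cons (nat_lit 642) (C.node (nat_lit 3) (nat_lit 4) (nat_lit 5) C.nil) C.nil)) C.nil)) C.nil))) C.nil)) C.nil)) (C.cons (nat_lit 42) (C.node (nat_lit 1) (nat_lit 5) (nat_lit 8) (C.cons (nat_lit 290) (C.node (nat_lit 1) (nat_lit 4) (nat_lit 8) (C.cons (nat_lit 274) (C.node (nat_lit 1) (nat_lit 4) (nat_lit 9) (C.cons (nat_lit 530) (C.node (nat_lit 1) (nat_lit 7) (nat_lit 8) C.nil) C.nil)) C.nil)) C.nil)) C.nil))) C.nil))) C.nil))) C.nil)) C.nil))) C.nil))) C.nil)) C.nil))) C.nil)) C.nil)) (C.cons (nat_lit 38) (C.node (nat_lit 1) (nat_lit 5) (nat_lit 8) (C.cons (nat_lit 298) (C.node (nat_lit 1) (nat_lit 5) (nat_lit 9) (C.cons (nat_lit 546) (C.node (nat_lit 1) (nat_lit 7) (nat_lit 8) (C.cons (nat_lit 386) (C.node (nat_lit 3) (nat_lit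 5) (nat_lit 9) (C.cons (nat_lit 552) (C.node (nat_lit 4) (nat_lit 5) (nat_lit 8) (C.cons (nat_lit 304) (C.node (nat_lit 1) (nat_lit 3) (nat_lit 4) (C.cons (nat_lit 30) (C.miq (nat_lit 2552497683) (nat_lit 334882358214325915457814603)) (C.cons (nat_lit 26) (C.node (nat_lit 2) (nat_lit 5) (nat_lit 7) (C.cons (nat_lit 180) (C.miq (nat_lit 588533863) (nat_lit 31435391736580322349941729)) (C.cons (nat_lit 164) (C.node (nat_lit 2) (nat_lit 6) (nat_lit 7) (C.cons (nat_lit 204)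
  (C.miq (nat_lit 1160187958) (nat_lit 198267708247410080756793419)) (C.cons (nat_lit 196) (C.node (nat_lit 3) (nat_lit 6) (nat_lit 7) (C.cons (nat_lit 200) (C.node (nat_lit 3) (nat_lit 5) (nat_lit 6) (C.cons (nat_lit 120) (C.miq (nat_lit 558040933) (nat_lit 31432901451463699279119329)) (C.cons (nat_lit 104) (C.node (nat_lit 1) (nat_lit 2) (nat_lit 3) (C.cons (nat_lit 526) (C.node (nat_lit 1) (nat_lit 2) (nat_lit 4) C.nil) (C.cons (nat_lit 14) (C.node (nat_lit 1) (nat_lit 2) (nat_lit 4) (C.cons (nat_lit 22) (C.node (nat_lit 1) (nat_lit 2) (nat_lit 9) C.nil) C.nil)) C.nil))) C.nil))) C.nil)) C.nil))) C.nil))) C.nil))) C.nil)) C.nil)) C.nil)) C.nil)) (C.cons (nat_lit 290) (C.node (nat_lit 1) (nat_lit 3) (nat_lit 5) (C.cons (nat_lit 554) (C.node (nat_lit 1) (nat_lit 7) (nat_lit 9) (C.cons (nat_lit 642) (C.node (nat_lit 1) (nat_lit 2) (nat_lit 3) (C.cons (nat_lit 30) (C.miq (nat_lit 2552497683) (nat_lit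 334882358214325915457814603)) (C.cons (nat_lit 14) (C.node (nat_lit 1) (nat_lit 8) (nat_lit 9) (C.cons (nat_lit 786) (C.miq (nat_lit 1093830992) (nat_lit 16930071443954937101091809)) (C.cons (nat_lit 770) (C.node (nat_lit 4) (nat_lit 8) (nat_lit 9) (C.cons (nat_lit 784) (C.node (nat_lit 2) (nat_lit 5) (nat_lit 7) (C.cons (nat_lit 180) (C.miq (nat_lit 1110537478) (nat_lit 16928835341525976538088417)) (C.cons (nat_lit 164) (C.node (nat_lit 2) (nat_lit 6) (nat_lit 7) (C.cons (nat_lit 204) (C.miq (nat_lit 1160187958) (nat_lit 198267708247410080756793419)) (C.cons (nat_lit 196) (C.node (nat_lit 3) (nat_lit 6) (nat_lit 7) (C.cons (nat_lit 200) (C.node (nat_lit 2) (nat_lit 8) (nat_lit 9) (C.cons (nat_lit 780) (C.miq (nat_lit 1110509717) (nat_lit 16925902336524486292669409)) (C.cons (nat_lit 772) (C.node (nat_lit 3) (nat_lit 8) (nat_lit 9) (C.cons (nat_lit 776) (C.node (nat_lit 3) (nat_lit 5) (nat_lit 6)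 (C.cons (nat_lit 120) (C.miq (nat_lit 1126262023) (nat_lit 16928835324637477939381217)) (C.cons (nat_lit 104) (C.node (nat_lit 1) (nat_lit 2) (nat_lit 4) (C.cons (nat_lit 534) (C.node (nat_lit 2) (nat_lit 5) (nat_lit 9) C.nil) (C.cons (nat_lit 22) (C.node (nat_lit 1) (nat_lit 2) (nat_lit 9) C.nil) C.nil))) C.nil))) C.nil)) C.nil))) C.nil)) C.nil))) C.nil))) C.nil)) C.nil))) C.nil))) C.nil)) (C.cons (nat_lit 42) (C.node (nat_lit 1) (nat_lit 5) (nat_lit 9) (C.cons (nat_lit 546) (C.node (nat_lit 3) (nat_lit 5) (nat_lit 9) (C.cons (nat_lit 552) (C.node (nat_lit 1) (nat_lit 7) (nat_lit 8) (C.cons (nat_lit 394) (C.node (nat_lit 1) (nat_lit 7) (nat_lit 9) (C.cons (nat_lit 642) (C.node (nat_lit 2) (nat_lit 7) (nat_lit 8) (C.cons (nat_lit 388) (C.node (nat_lit 4) (nat_lit 7) (nat_lit 8) (C.cons (nat_lit 400) (C.node (nat_lit 1) (nat_lit 3) (nat_lit 4) (C.cons (nat_lit 30) (C.miq (nat_lit 2552497683) (nat_lit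 334882358214325915457814603)) (C.cons (nat_lit 26) (C.node (nat_lit 2) (nat_lit 5) (nat_lit 7) (C.cons (nat_lit 180) (C.miq (nat_lit 588533863) (nat_lit 31435391736580322349941729)) (C.cons (nat_lit 164) (C.node (nat_lit 2) (nat_lit 6) (nat_lit 7) (C.cons (nat_lit 204) (C.miq (nat_lit 1160187958) (nat_lit 198267708247410080756793419)) (C.cons (nat_lit 196) (C.node (nat_lit 3) (nat_lit 6) (nat_lit 7) (C.cons (nat_lit 200) (C.node (nat_lit 1) (nat_lit 2) (nat_lit 3) (C.cons (nat_lit 14) (C.node (nat_lit 1) (nat_lit 3) (nat_lit 9) C.nil) C.nil)) C.nil)) C.nil))) C.nil))) C.nil))) C.nil)) C.nil)) C.nil)) (C.cons (nat_lit 386) (C.node (nat_lit 1) (nat_lit 3) (nat_lit 7) (C.cons (nat_lit 650) (C.node (nat_lit 1) (nat_lit 2) (nat_lit 3) (C.cons (nat_lit 30) (C.miq (nat_lit 2552497683) (nat_lit 334882358214325915457814603)) (C.cons (nat_lit 14) (C.node (nat_lit 2) (nat_lit 5) (nat_lit 7) (C.cons (nat_lit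 180) (C.miq (nat_lit 1110537478) (nat_lit 16928835341525976538088417)) (C.cons (nat_lit 164) (C.node (nat_lit 2) (nat_lit 6) (nat_lit 7) (C.cons (nat_lit 204) (C.miq (nat_lit 1160187958) (nat_lit 198267708247410080756793419)) (C.cons (nat_lit 196) (C.node (nat_lit 3) (nat_lit 6) (nat_lit 7) (C.cons (nat_lit 200)
  (C.node (nat_lit 3) (nat_lit 5) (nat_lit 6) (C.cons (nat_lit 120) (C.miq (nat_lit 1126262023) (nat_lit 16928835324637477939381217)) (C.cons (nat_lit 104) (C.node (nat_lit 1) (nat_lit 2) (nat_lit 4) (C.cons (nat_lit 534) (C.node (nat_lit 2) (nat_lit 5) (nat_lit 9) C.nil) (C.cons (nat_lit 22) (C.node (nat_lit 1) (nat_lit 2) (nat_lit 9) C.nil) C.nil))) C.nil))) C.nil)) C.nil))) C.nil))) C.nil))) (C.cons (nat_lit 138) (C.node (nat_lit 1) (nat_lit 7) (nat_lit 9) (C.cons (nat_lit 642) (C.node (nat_lit 1) (nat_lit 2) (nat_lit 3) (C.cons (nat_lit 526) (C.node (nat_lit 1) (nat_lit 2) (nat_lit 4)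 C.nil) (C.cons (nat_lit 30) (C.miq (nat_lit 2552497683) (nat_lit 334882358214325915457814603)) C.nil))) C.nil)) C.nil))) C.nil))) C.nil)) C.nil)) C.nil))) C.nil))) C.nil))) C.nil)) C.nil)) (C.cons (nat_lit 322) (C.node (nat_lit 1) (nat_lit 2) (nat_lit 6) (C.cons (nat_lit 582) (C.node (nat_lit 3) (nat_lit 6) (nat_lit 9) (C.cons (nat_lit 584) (C.node (nat_lit 4) (nat_lit 6) (nat_lit 9) (C.cons (nat_lit 592) (C.node (nat_lit 1) (nat_lit 2) (nat_lit 4) (C.cons (nat_lit 30) (C.node (nat_lit 1) (nat_lit 7) (nat_lit 9) (C.cons (nat_lit 650) (C.miq (nat_lit 2301888274) (nat_lit 649198275160671727967404167)) (C.cons (nat_lit 642) (C.node (nat_lit 2) (nat_lit 4) (nat_lit 6) (C.cons (nat_lit 116) (C.miq (nat_lit 1948606768) (nat_lit 140253712751272051811876939)) (C.cons (nat_lit 84) (C.node (nat_lit 2) (nat_lit 5) (nat_lit 6) (C.cons (nat_lit 100) (C.node (nat_lit 2) (nat_lit 5) (nat_lit 7) (C.cons (nat_lit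 180) (C.node (nat_lit 2) (nat_lit 4) (nat_lit 9) (C.cons (nat_lit 532) (C.node (nat_lit 2) (nat_lit 5) (nat_lit 9) (C.cons (nat_lit 548) (C.node (nat_lit 3) (nat_lit 5) (nat_lit 7) (C.cons (nat_lit 168) (C.node (nat_lit 4) (nat_lit 5) (nat_lit 9) (C.cons (nat_lit 560) (C.node (nat_lit 4) (nat_lit 7) (nat_lit 9) (C.cons (nat_lit 656) (C.node (nat_lit 2) (nat_lit 6) (nat_lit 7) (C.cons (nat_lit 204) (C.node (nat_lit 2) (nat_lit 6) (nat_lit 8) (C.cons (nat_lit 324) (C.node (nat_lit 2) (nat_lit 7) (nat_lit 8) (C.cons (nat_lit 388) (C.node (nat_lit 2) (nat_lit 7) (nat_lit 9) (C.cons (nat_lit 644) (C.node (nat_lit 3) (nat_lit 7) (nat_lit 9) C.nil) C.nil)) C.nil)) C.nil)) (C.cons (nat_lit 196) (C.miq (nat_lit 846595393) (nat_lit 236950844162939993518637107)) C.nil))) C.nil)) C.nil)) C.nil)) C.nil)) C.nil)) (C.cons (nat_lit 164) (C.miq (nat_lit 1113002758) (nat_lit 198267708241499106297577547)) C.nil)))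 C.nil)) C.nil))) C.nil))) (C.cons (nat_lit 22) (C.node (nat_lit 2) (nat_lit 5) (nat_lit 7) (C.cons (nat_lit 180) (C.miq (nat_lit 826410613) (nat_lit 26597198156116683981587425)) (C.cons (nat_lit 164) (C.node (nat_lit 2) (nat_lit 6) (nat_lit 7) (C.cons (nat_lit 204) (C.miq (nat_lit 1160187958) (nat_lit 198267708247410080756793419)) (C.cons (nat_lit 196) (C.node (nat_lit 3) (nat_lit 6) (nat_lit 7) (C.cons (nat_lit 200) (C.node (nat_lit 3) (nat_lit 5) (nat_lit 6) (C.cons (nat_lit 120) (C.miq (nat_lit 840192118) (nat_lit 26598581653477640776057825)) (C.cons (nat_lit 104) (C.node (nat_lit 1) (nat_lit 2) (nat_lit 3) (C.cons (nat_lit 270) (C.node (nat_lit 1) (nat_lit 2) (nat_lit 5) (C.cons (nat_lit 38) (C.node (nat_lit 1) (nat_lit 3) (nat_lit 4) (C.cons (nat_lit 26) (C.node (nat_lit 1) (nat_lit 5) (nat_lit 8) (C.cons (nat_lit 290) (C.node (nat_lit 1) (nat_lit 7) (nat_lit 8) (C.cons (nat_lit 386) (C.node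 (nat_lit 2) (nat_lit 5) (nat_lit 8) (C.cons (nat_lit 292) (C.node (nat_lit 2) (nat_lit 6) (nat_lit 8) (C.cons (nat_lit 324) (C.node (nat_lit 2) (nat_lit 7) (nat_lit 8) C.nil) C.nil)) C.nil)) C.nil)) C.nil)) C.nil)) C.nil)) (C.cons (nat_lit 14) (C.node (nat_lit 1) (nat_lit 2) (nat_lit 5) (C.cons (nat_lit 294) (C.node (nat_lit 1) (nat_lit 3) (nat_lit 5) (C.cons (nat_lit 554) (C.miq (nat_lit 824481152) (nat_lit 26606274089027823708996577)) (C.cons (nat_lit 42) (C.node (nat_lit 1) (nat_lit 5) (nat_lit 9) (C.cons (nat_lit 546) (C.node (nat_lit 3) (nat_lit 5) (nat_lit 9) (C.cons (nat_lit 552) (C.node (nat_lit 1) (nat_lit 4) (nat_lit 9) (C.cons (nat_lit 786)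
  (C.miq (nat_lit 1092851792) (nat_lit 16934867597412984893015009)) (C.cons (nat_lit 530) (C.node (nat_lit 4) (nat_lit 8) (nat_lit 9) (C.cons (nat_lit 784) (C.node (nat_lit 1) (nat_lit 3) (nat_lit 4) (C.cons (nat_lit 26) (C.node (nat_lit 3) (nat_lit 5) (nat_lit 7) C.nil) C.nil)) C.nil)) C.nil))) C.nil)) C.nil)) C.nil))) (C.cons (nat_lit 38) (C.node (nat_lit 1) (nat_lit 2) (nat_lit 8) (C.cons (nat_lit 262) (C.node (nat_lit 2) (nat_lit 5) (nat_lit 8) (C.cons (nat_lit 292) (C.node (nat_lit 1) (nat_lit 3) (nat_lit 4) (C.cons (nat_lit 282) (C.node (nat_lit 1) (nat_lit 4) (nat_lit 9) C.nil) (C.cons (nat_lit 26) (C.node (nat_lit 1) (nat_lit 4) (nat_lit 8) (C.cons (nat_lit 274) (C.node (nat_lit 1) (nat_lit 4) (nat_lit 9) C.nil) C.nil)) C.nil))) C.nil)) C.nil)) C.nil))) C.nil))) C.nil))) C.nil)) C.nil))) C.nil))) C.nil))) C.nil)) C.nil)) (C.cons (nat_lit 70) (C.node (nat_lit 1) (nat_lit 6) (nat_lit 9) (C.cons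 (nat_lit 578) (C.node (nat_lit 1) (nat_lit 7) (nat_lit 8) (C.cons (nat_lit 394) (C.node (nat_lit 1) (nat_lit 7) (nat_lit 9) (C.cons (nat_lit 642) (C.node (nat_lit 2) (nat_lit 7) (nat_lit 8) (C.cons (nat_lit 388) (C.node (nat_lit 4) (nat_lit 7) (nat_lit 8) (C.cons (nat_lit 400) (C.node (nat_lit 1) (nat_lit 3) (nat_lit 4) (C.cons (nat_lit 30) (C.node (nat_lit 2) (nat_lit 5) (nat_lit 6) (C.cons (nat_lit 116) (C.miq (nat_lit 1948606768) (nat_lit 140253712751272051811876939)) (C.cons (nat_lit 100) (C.node (nat_lit 2) (nat_lit 5) (nat_lit 7) (C.cons (nat_lit 180) (C.node (nat_lit 3) (nat_lit 4) (nat_lit 7) (C.cons (nat_lit 152) (C.node (nat_lit 3) (nat_lit 5) (nat_lit 7) (C.cons (nat_lit 168) (C.node (nat_lit 4) (nat_lit 5) (nat_lit 9) (C.cons (nat_lit 560) (C.node (nat_lit 4) (nat_lit 7) (nat_lit 9) (C.cons (nat_lit 656) (C.node (nat_lit 2) (nat_lit 6) (nat_lit 7) (C.cons (nat_lit 204) (C.node (nat_lit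 2) (nat_lit 6) (nat_lit 8) (C.cons (nat_lit 324) (C.node (nat_lit 2) (nat_lit 7) (nat_lit 9) (C.cons (nat_lit 644) (C.node (nat_lit 3) (nat_lit 6) (nat_lit 9) (C.cons (nat_lit 584) (C.node (nat_lit 3) (nat_lit 7) (nat_lit 9) (C.cons (nat_lit 648) (C.node (nat_lit 1) (nat_lit 5) (nat_lit 8) (C.cons (nat_lit 290) (C.node (nat_lit 1) (nat_lit 2) (nat_lit 5) C.nil) C.nil)) C.nil)) C.nil)) C.nil)) C.nil)) (C.cons (nat_lit 196) (C.miq (nat_lit 846595393) (nat_lit 236950844162939993518637107)) C.nil))) C.nil)) C.nil)) C.nil)) C.nil)) (C.cons (nat_lit 164) (C.miq (nat_lit 1113002758) (nat_lit 198267708241499106297577547)) C.nil))) C.nil))) (C.cons (nat_lit 26) (C.node (nat_lit 2) (nat_lit 5) (nat_lit 7) (C.cons (nat_lit 180) (C.miq (nat_lit 588533863) (nat_lit 31435391736580322349941729)) (C.cons (nat_lit 164) (C.node (nat_lit 2) (nat_lit 6) (nat_lit 7) (C.cons (nat_lit 204) (C.miq (nat_lit 1160187958) (nat_lit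 198267708247410080756793419)) (C.cons (nat_lit 196) (C.node (nat_lit 3) (nat_lit 6) (nat_lit 7) (C.cons (nat_lit 200) (C.node (nat_lit 3) (nat_lit 5) (nat_lit 6) (C.cons (nat_lit 120) (C.miq (nat_lit 558040933) (nat_lit 31432901451463699279119329)) (C.cons (nat_lit 104) (C.node (nat_lit 1) (nat_lit 2) (nat_lit 3) (C.cons (nat_lit 526) (C.node (nat_lit 1) (nat_lit 2) (nat_lit 4) (C.cons (nat_lit 22) (C.node (nat_lit 1) (nat_lit 3) (nat_lit 5) (C.cons (nat_lit 42) (C.node (nat_lit 1) (nat_lit 5) (nat_lit 9) (C.cons (nat_lit 546) (C.node (nat_lit 1) (nat_lit 2) (nat_lit 5) C.nil) C.nil)) C.nil)) C.nil)) (C.cons (nat_lit 14) (C.node (nat_lit 1) (nat_lit 2) (nat_lit 4) (C.cons (nat_lit 534) (C.node (nat_lit 1) (nat_lit 4) (nat_lit 8) (C.cons (nat_lit 274) (C.node (nat_lit 1) (nat_lit 8) (nat_lit 9) (C.cons (nat_lit 770) (C.node (nat_lit 1) (nat_lit 2) (nat_lit 5) C.nil) C.nil)) C.nil)) (C.cons (nat_lit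 22) (C.node (nat_lit 1) (nat_lit 3) (nat_lit 5) (C.cons (nat_lit 554) (C.node (nat_lit 1) (nat_lit 2) (nat_lit 5) (C.cons (nat_lit 38) (C.node (nat_lit 1) (nat_lit 5) (nat_lit 8) C.nil) C.nil)) (C.cons (nat_lit 42)
  (C.node (nat_lit 1) (nat_lit 3) (nat_lit 9) C.nil) C.nil))) C.nil))) C.nil))) C.nil))) C.nil)) C.nil))) C.nil))) C.nil))) C.nil)) C.nil)) C.nil)) (C.cons (nat_lit 386) (C.node (nat_lit 1) (nat_lit 3) (nat_lit 7) (C.cons (nat_lit 650) (C.node (nat_lit 3) (nat_lit 5) (nat_lit 9) (C.cons (nat_lit 552) (C.node (nat_lit 1) (nat_lit 3) (nat_lit 5) (C.cons (nat_lit 298) (C.node (nat_lit 2) (nat_lit 5) (nat_lit 8) (C.cons (nat_lit 292) (C.node (nat_lit 4) (nat_lit 5) (nat_lit 8) (C.cons (nat_lit 304) (C.node (nat_lit 1) (nat_lit 2) (nat_lit 3) (C.cons (nat_lit 30) (C.miq (nat_lit 2301888274) (nat_lit 649198275160671727967404167)) (C.cons (nat_lit 14) (C.node (nat_lit 1) (nat_lit 3) (nat_lit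 4) (C.cons (nat_lit 26) (C.node (nat_lit 2) (nat_lit 5) (nat_lit 7) (C.cons (nat_lit 180) (C.miq (nat_lit 588533863) (nat_lit 31435391736580322349941729)) (C.cons (nat_lit 164) (C.node (nat_lit 2) (nat_lit 6) (nat_lit 7) (C.cons (nat_lit 204) (C.miq (nat_lit 1160187958) (nat_lit 198267708247410080756793419)) (C.cons (nat_lit 196) (C.node (nat_lit 3) (nat_lit 6) (nat_lit 7) (C.cons (nat_lit 200) (C.node (nat_lit 3) (nat_lit 5) (nat_lit 6) (C.cons (nat_lit 120) (C.miq (nat_lit 558040933) (nat_lit 31432901451463699279119329)) (C.cons (nat_lit 104) (C.node (nat_lit 1) (nat_lit 2) (nat_lit 4) (C.cons (nat_lit 534) (C.node (nat_lit 1) (nat_lit 2) (nat_lit 5) (C.cons (nat_lit 38) (C.node (nat_lit 1) (nat_lit 5) (nat_lit 9) C.nil) C.nil)) (C.cons (nat_lit 22) (C.node (nat_lit 1) (nat_lit 2) (nat_lit 5) (C.cons (nat_lit 550) (C.node (nat_lit 1) (nat_lit 2) (nat_lit 8) (C.cons (nat_lit 262) (C.node (nat_lit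 2) (nat_lit 4) (nat_lit 5) C.nil) C.nil)) (C.cons (nat_lit 38) (C.node (nat_lit 1) (nat_lit 5) (nat_lit 9) C.nil) C.nil))) C.nil))) C.nil))) C.nil)) C.nil))) C.nil))) C.nil)) C.nil))) C.nil)) C.nil)) (C.cons (nat_lit 42) (C.node (nat_lit 1) (nat_lit 5) (nat_lit 8) (C.cons (nat_lit 294) (C.node (nat_lit 1) (nat_lit 5) (nat_lit 9) (C.cons (nat_lit 546) (C.node (nat_lit 1) (nat_lit 2) (nat_lit 3) (C.cons (nat_lit 30) (C.miq (nat_lit 2301888274) (nat_lit 649198275160671727967404167)) (C.cons (nat_lit 14) (C.node (nat_lit 1) (nat_lit 8) (nat_lit 9) (C.cons (nat_lit 786) (C.miq (nat_lit 1092851792) (nat_lit 16934867597412984893015009)) (C.cons (nat_lit 770) (C.node (nat_lit 4) (nat_lit 8) (nat_lit 9) (C.cons (nat_lit 784) (C.node (nat_lit 1) (nat_lit 2) (nat_lit 4) (C.cons (nat_lit 534) (C.node (nat_lit 2) (nat_lit 5) (nat_lit 9) (C.cons (nat_lit 548) (C.node (nat_lit 2) (nat_lit 7) (nat_lit 9) C.nil)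 C.nil)) C.nil)) C.nil)) C.nil))) C.nil))) C.nil)) (C.cons (nat_lit 290) (C.node (nat_lit 2) (nat_lit 5) (nat_lit 8) (C.cons (nat_lit 292) (C.node (nat_lit 1) (nat_lit 2) (nat_lit 5) (C.cons (nat_lit 550) (C.node (nat_lit 4) (nat_lit 5) (nat_lit 9) (C.cons (nat_lit 560) (C.node (nat_lit 1) (nat_lit 2) (nat_lit 4) (C.cons (nat_lit 30) (C.miq (nat_lit 2301888274) (nat_lit 649198275160671727967404167)) (C.cons (nat_lit 22) (C.node (nat_lit 2) (nat_lit 5) (nat_lit 7) (C.cons (nat_lit 180) (C.miq (nat_lit 826410613) (nat_lit 26597198156116683981587425)) (C.cons (nat_lit 164) (C.node (nat_lit 2) (nat_lit 6) (nat_lit 7) (C.cons (nat_lit 204) (C.miq (nat_lit 1160187958) (nat_lit 198267708247410080756793419)) (C.cons (nat_lit 196) (C.node (nat_lit 3) (nat_lit 6) (nat_lit 7) (C.cons (nat_lit 200) (C.node (nat_lit 3) (nat_lit 5) (nat_lit 6) (C.cons (nat_lit 120) (C.miq (nat_lit 840192118) (nat_lit 26598581653477640776057825))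 (C.cons (nat_lit 104) (C.node (nat_lit 1) (nat_lit 2) (nat_lit 3) (C.cons (nat_lit 14) (C.node (nat_lit 1) (nat_lit 2) (nat_lit 8) C.nil) C.nil)) C.nil))) C.nil)) C.nil))) C.nil))) C.nil))) C.nil)) (C.cons (nat_lit 38) (C.node (nat_lit 1) (nat_lit 5) (nat_lit 9) (C.cons (nat_lit 546) (C.node (nat_lit 1) (nat_lit 3) (nat_lit 2) (C.cons (nat_lit 270) (C.node (nat_lit 1) (nat_lit 3) (nat_lit 4) C.nil) (C.cons (nat_lit 30) (C.miq (nat_lit 2301888274) (nat_lit 649198275160671727967404167)) C.nil))) C.nil)) C.nil))) C.nil)) C.nil))) C.nil))) C.nil))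
  (C.cons (nat_lit 138) (C.node (nat_lit 1) (nat_lit 7) (nat_lit 9) (C.cons (nat_lit 642) (C.node (nat_lit 2) (nat_lit 5) (nat_lit 6) (C.cons (nat_lit 116) (C.node (nat_lit 2) (nat_lit 5) (nat_lit 7) (C.cons (nat_lit 164) (C.node (nat_lit 3) (nat_lit 5) (nat_lit 6) (C.cons (nat_lit 104) (C.node (nat_lit 4) (nat_lit 5) (nat_lit 9) (C.cons (nat_lit 560) (C.node (nat_lit 4) (nat_lit 6) (nat_lit 9) (C.cons (nat_lit 592) (C.node (nat_lit 2) (nat_lit 6) (nat_lit 7) (C.cons (nat_lit 204) (C.miq (nat_lit 1160187958) (nat_lit 198267708247410080756793419)) (C.cons (nat_lit 196) (C.node (nat_lit 3) (nat_lit 6) (nat_lit 7) (C.cons (nat_lit 200) (C.node (nat_lit 2) (nat_lit 5) (nat_lit 8) (C.cons (nat_lit 294) (C.node (nat_lit 2) (nat_lit 5) (nat_lit 9) (C.cons (nat_lit 548) (C.node (nat_lit 1) (nat_lit 3) (nat_lit 5) (C.cons (nat_lit 554) (C.node (nat_lit 1) (nat_lit 2) (nat_lit 3) (C.cons (nat_lit 14) (C.miq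 (nat_lit 1125255512) (nat_lit 16930071373867667916456929)) C.nil)) (C.cons (nat_lit 42) (C.node (nat_lit 1) (nat_lit 5) (nat_lit 9) (C.cons (nat_lit 546) (C.node (nat_lit 3) (nat_lit 5) (nat_lit 9) C.nil) C.nil)) C.nil))) C.nil)) (C.cons (nat_lit 292) (C.node (nat_lit 1) (nat_lit 2) (nat_lit 5) (C.cons (nat_lit 550) (C.node (nat_lit 3) (nat_lit 5) (nat_lit 9) (C.cons (nat_lit 552) (C.node (nat_lit 1) (nat_lit 2) (nat_lit 4) (C.cons (nat_lit 30) (C.miq (nat_lit 1948606768) (nat_lit 140253712751272051811876939)) (C.cons (nat_lit 22) (C.node (nat_lit 1) (nat_lit 2) (nat_lit 3) (C.cons (nat_lit 270) (C.node (nat_lit 1) (nat_lit 3) (nat_lit 4) (C.cons (nat_lit 26) (C.node (nat_lit 1) (nat_lit 3) (nat_lit 5) C.nil) C.nil)) (C.cons (nat_lit 14) (C.node (nat_lit 1) (nat_lit 2) (nat_lit 8) C.nil) C.nil))) C.nil))) C.nil)) (C.cons (nat_lit 38) (C.node (nat_lit 2) (nat_lit 5) (nat_lit 9) (C.cons (nat_lit 548)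 (C.node (nat_lit 1) (nat_lit 5) (nat_lit 8) (C.cons (nat_lit 298) (C.node (nat_lit 1) (nat_lit 5) (nat_lit 9) C.nil) (C.cons (nat_lit 290) (C.node (nat_lit 1) (nat_lit 3) (nat_lit 5) C.nil) C.nil))) C.nil)) C.nil))) C.nil))) C.nil)) C.nil))) C.nil)) C.nil)) C.nil)) C.nil)) (C.cons (nat_lit 100) (C.node (nat_lit 2) (nat_lit 5) (nat_lit 7) (C.cons (nat_lit 180) (C.node (nat_lit 3) (nat_lit 5) (nat_lit 7) (C.cons (nat_lit 168) (C.node (nat_lit 4) (nat_lit 5) (nat_lit 9) (C.cons (nat_lit 560) (C.node (nat_lit 4) (nat_lit 7) (nat_lit 9) (C.cons (nat_lit 656) (C.node (nat_lit 2) (nat_lit 6) (nat_lit 7) (C.cons (nat_lit 204) (C.node (nat_lit 2) (nat_lit 6) (nat_lit 8) (C.cons (nat_lit 324) (C.node (nat_lit 2) (nat_lit 7) (nat_lit 8) (C.cons (nat_lit 388) (C.node (nat_lit 2) (nat_lit 7) (nat_lit 9) (C.cons (nat_lit 644) (C.node (nat_lit 3) (nat_lit 6) (nat_lit 9) (C.cons (nat_lit 584) (C.node (nat_lit 3)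 (nat_lit 5) (nat_lit 6) (C.cons (nat_lit 104) (C.miq (nat_lit 1177907458) (nat_lit 125731605712964769123467399)) C.nil)) C.nil)) C.nil)) C.nil)) C.nil)) (C.cons (nat_lit 196) (C.miq (nat_lit 846595393) (nat_lit 236950844162939993518637107)) C.nil))) C.nil)) C.nil)) C.nil)) (C.cons (nat_lit 164) (C.node (nat_lit 2) (nat_lit 6) (nat_lit 7) (C.cons (nat_lit 204) (C.miq (nat_lit 1160187958) (nat_lit 198267708247410080756793419)) (C.cons (nat_lit 196) (C.node (nat_lit 3) (nat_lit 6) (nat_lit 7) (C.cons (nat_lit 200) (C.node (nat_lit 3) (nat_lit 5) (nat_lit 6) (C.cons (nat_lit 120) (C.miq (nat_lit 913462288) (nat_lit 236950290781728534329491507)) (C.cons (nat_lit 104) (C.node (nat_lit 4) (nat_lit 5) (nat_lit 6) (C.cons (nat_lit 112) (C.node (nat_lit 2) (nat_lit 4) (nat_lit 5) (C.cons (nat_lit 564) (C.node (nat_lit 4) (nat_lit 6) (nat_lit 9) (C.cons (nat_lit 592) (C.node (nat_lit 4) (nat_lit 7) (nat_lit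 9) (C.cons (nat_lit 656) (C.node (nat_lit 2) (nat_lit 4) (nat_lit 7) C.nil) C.nil)) C.nil)) (C.cons (nat_lit 52) (C.node (nat_lit 4) (nat_lit 5) (nat_lit 9) (C.cons (nat_lit 560) (C.node (nat_lit 2) (nat_lit 5) (nat_lit 8) (C.cons (nat_lit 294) (C.node (nat_lit 2) (nat_lit 5) (nat_lit 9) (C.cons (nat_lit 548) (C.node (nat_lit 1) (nat_lit 3) (nat_lit 5)
  (C.cons (nat_lit 42) (C.node (nat_lit 1) (nat_lit 5) (nat_lit 9) C.nil) C.nil)) C.nil)) (C.cons (nat_lit 292) (C.node (nat_lit 3) (nat_lit 5) (nat_lit 7) (C.cons (nat_lit 168) (C.node (nat_lit 4) (nat_lit 5) (nat_lit 7) C.nil) C.nil)) C.nil))) C.nil)) C.nil))) C.nil)) C.nil))) C.nil)) C.nil))) C.nil))) C.nil))) C.nil)) C.nil))) C.nil))) C.nil)) C.nil))) C.nil))) (C.cons (nat_lit 194) (C.node (nat_lit 2) (nat_lit 5) (nat_lit 6) (C.cons (nat_lit 116) (C.node (nat_lit 2) (nat_lit 5) (nat_lit 7) (C.cons (nat_lit 164) (C.node (nat_lit 3) (nat_lit 5) (nat_lit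 6) (C.cons (nat_lit 104) (C.node (nat_lit 4) (nat_lit 5) (nat_lit 9) (C.cons (nat_lit 560) (C.node (nat_lit 2) (nat_lit 5) (nat_lit 8) (C.cons (nat_lit 294) (C.node (nat_lit 2) (nat_lit 5) (nat_lit 9) (C.cons (nat_lit 548) (C.node (nat_lit 1) (nat_lit 2) (nat_lit 6) (C.cons (nat_lit 582) (C.node (nat_lit 3) (nat_lit 6) (nat_lit 9) (C.cons (nat_lit 584) (C.node (nat_lit 4) (nat_lit 6) (nat_lit 9) (C.cons (nat_lit 592) (C.node (nat_lit 1) (nat_lit 2) (nat_lit 3) (C.cons (nat_lit 30) (C.node (nat_lit 1) (nat_lit 3) (nat_lit 5) (C.cons (nat_lit 554) (C.node (nat_lit 1) (nat_lit 4) (nat_lit 6) (C.cons (nat_lit 338) (C.miq (nat_lit 2437436192) (nat_lit 408635244802547120600317997)) (C.cons (nat_lit 82) (C.node (nat_lit 1) (nat_lit 6) (nat_lit 8) (C.cons (nat_lit 322) (C.node (nat_lit 1) (nat_lit 7) (nat_lit 9) (C.cons (nat_lit 658) (C.miq (nat_lit 2299790642) (nat_lit 795478299334041445789990957)) (C.cons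 (nat_lit 642) (C.node (nat_lit 1) (nat_lit 4) (nat_lit 7) (C.cons (nat_lit 402) (C.miq (nat_lit 2437436192) (nat_lit 486006497257883387781513261)) (C.cons (nat_lit 146) (C.node (nat_lit 1) (nat_lit 3) (nat_lit 7) (C.cons (nat_lit 394) (C.node (nat_lit 2) (nat_lit 7) (nat_lit 8) (C.cons (nat_lit 388) (C.node (nat_lit 4) (nat_lit 7) (nat_lit 8) (C.cons (nat_lit 400) (C.node (nat_lit 4) (nat_lit 6) (nat_lit 7) (C.cons (nat_lit 208) (C.miq (nat_lit 929306706) (nat_lit 251457123993070485359558950)) C.nil)) C.nil)) C.nil)) C.nil)) C.nil))) C.nil))) C.nil)) C.nil))) (C.cons (nat_lit 42) (C.miq (nat_lit 2501052452) (nat_lit 50784790604887921962909973)) C.nil))) (C.cons (nat_lit 14) (C.node (nat_lit 1) (nat_lit 2) (nat_lit 4) (C.cons (nat_lit 22) (C.node (nat_lit 1) (nat_lit 3) (nat_lit 5) (C.cons (nat_lit 554) (C.miq (nat_lit 824481152) (nat_lit 26606274089027823708996577)) (C.cons (nat_lit 42) (C.node (nat_lit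 1) (nat_lit 5) (nat_lit 9) (C.cons (nat_lit 546) (C.node (nat_lit 3) (nat_lit 5) (nat_lit 9) (C.cons (nat_lit 552) (C.node (nat_lit 2) (nat_lit 8) (nat_lit 9) (C.cons (nat_lit 780) (C.miq (nat_lit 840210512) (nat_lit 26606274152641168430793697)) (C.cons (nat_lit 772) (C.node (nat_lit 2) (nat_lit 3) (nat_lit 9) (C.cons (nat_lit 524) (C.node (nat_lit 2) (nat_lit 4) (nat_lit 9) C.nil) C.nil)) C.nil))) C.nil)) C.nil)) C.nil))) C.nil)) C.nil))) C.nil)) C.nil)) (C.cons (nat_lit 70) (C.node (nat_lit 1) (nat_lit 3) (nat_lit 5) (C.cons (nat_lit 554) (C.node (nat_lit 1) (nat_lit 2) (nat_lit 3) (C.cons (nat_lit 30) (C.node (nat_lit 1) (nat_lit 2) (nat_lit 9) (C.cons (nat_lit 518) (C.node (nat_lit 1) (nat_lit 6) (nat_lit 8) (C.cons (nat_lit 338) (C.miq (nat_lit 2437436192) (nat_lit 408635244802547120600317997)) (C.cons (nat_lit 322) (C.node (nat_lit 1) (nat_lit 4) (nat_lit 6) (C.cons (nat_lit 594) (C.miq (nat_lit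 2299790642) (nat_lit 718107046878705178608795693)) (C.cons (nat_lit 82) (C.node (nat_lit 1) (nat_lit 6) (nat_lit 9) (C.cons (nat_lit 578) (C.node (nat_lit 4) (nat_lit 6) (nat_lit 9) (C.cons (nat_lit 592) (C.node (nat_lit 1) (nat_lit 7) (nat_lit 9) (C.cons (nat_lit 658) (C.miq (nat_lit 2299790642) (nat_lit 795478299334041445789990957)) (C.cons (nat_lit 642) (C.node (nat_lit 1) (nat_lit 4) (nat_lit 7) (C.cons (nat_lit 402) (C.miq (nat_lit 2437436192) (nat_lit 486006497257883387781513261)) (C.cons (nat_lit 146) (C.node (nat_lit 1) (nat_lit 3) (nat_lit 7) (C.cons (nat_lit 394)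
  (C.node (nat_lit 2) (nat_lit 6) (nat_lit 7) C.nil) C.nil)) C.nil))) C.nil))) C.nil)) C.nil)) C.nil))) C.nil))) C.nil)) (C.cons (nat_lit 14) (C.miq (nat_lit 1125255512) (nat_lit 16930071373867667916456929)) C.nil))) (C.cons (nat_lit 42) (C.node (nat_lit 1) (nat_lit 5) (nat_lit 9) (C.cons (nat_lit 546) (C.node (nat_lit 3) (nat_lit 5) (nat_lit 9) (C.cons (nat_lit 552) (C.node (nat_lit 4) (nat_lit 8) (nat_lit 9) (C.cons (nat_lit 786) (C.miq (nat_lit 2438154272) (nat_lit 50784790546622601784787221)) (C.cons (nat_lit 784) (C.node (nat_lit 2) (nat_lit 8) (nat_lit 9) (C.cons (nat_lit 780) (C.miq (nat_lit 412373552) (nat_lit 947798783444574025419391021)) (C.cons (nat_lit 772) (C.node (nat_lit 1) (nat_lit 6) (nat_lit 8) (C.cons (nat_lit 338) (C.node (nat_lit 1) (nat_lit 6) (nat_lit 9) (C.cons (nat_lit 578) (C.node (nat_lit 4) (nat_lit 6) (nat_lit 9) (C.cons (nat_lit 592) (C.node (nat_lit 2) (nat_lit 6) (nat_lit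 8) (C.cons (nat_lit 332) (C.miq (nat_lit 1384383329) (nat_lit 334873392829867840484016203)) (C.cons (nat_lit 324) (C.node (nat_lit 3) (nat_lit 6) (nat_lit 8) (C.cons (nat_lit 328) (C.node (nat_lit 1) (nat_lit 8) (nat_lit 9) (C.cons (nat_lit 778) (C.node (nat_lit 1) (nat_lit 7) (nat_lit 8) C.nil) C.nil)) C.nil)) C.nil))) C.nil)) C.nil)) (C.cons (nat_lit 322) (C.node (nat_lit 1) (nat_lit 4) (nat_lit 6) (C.cons (nat_lit 594) (C.node (nat_lit 1) (nat_lit 2) (nat_lit 4) (C.cons (nat_lit 30) (C.miq (nat_lit 964837457) (nat_lit 933291286295972261575131187)) (C.cons (nat_lit 22) (C.node (nat_lit 1) (nat_lit 2) (nat_lit 3) (C.cons (nat_lit 14) (C.node (nat_lit 1) (nat_lit 2) (nat_lit 9) C.nil) C.nil)) C.nil))) (C.cons (nat_lit 82) (C.node (nat_lit 1) (nat_lit 6) (nat_lit 9) (C.cons (nat_lit 578) (C.node (nat_lit 4) (nat_lit 6) (nat_lit 9) (C.cons (nat_lit 592) (C.node (nat_lit 2) (nat_lit 6) (nat_lit 9) (C.cons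 (nat_lit 588) (C.node (nat_lit 1) (nat_lit 2) (nat_lit 3) C.nil) C.nil)) C.nil)) C.nil)) C.nil))) C.nil))) C.nil))) C.nil))) C.nil)) C.nil)) C.nil))) C.nil))) C.nil)) (C.cons (nat_lit 292) (C.node (nat_lit 1) (nat_lit 2) (nat_lit 5) (C.cons (nat_lit 550) (C.node (nat_lit 3) (nat_lit 5) (nat_lit 9) (C.cons (nat_lit 552) (C.node (nat_lit 1) (nat_lit 2) (nat_lit 4) (C.cons (nat_lit 30) (C.node (nat_lit 1) (nat_lit 2) (nat_lit 6) (C.cons (nat_lit 326) (C.miq (nat_lit 2552497683) (nat_lit 334882358214325915457814603)) (C.cons (nat_lit 70) (C.node (nat_lit 1) (nat_lit 2) (nat_lit 8) (C.cons (nat_lit 262) (C.node (nat_lit 1) (nat_lit 6) (nat_lit 8) (C.cons (nat_lit 338) (C.miq (nat_lit 2217042224) (nat_lit 140253712787300848830840907)) (C.cons (nat_lit 322) (C.node (nat_lit 1) (nat_lit 4) (nat_lit 6) (C.cons (nat_lit 594) (C.miq (nat_lit 2485477680) (nat_lit 140253712859358442868768843)) (C.cons (nat_lit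 82) (C.node (nat_lit 1) (nat_lit 6) (nat_lit 9) (C.cons (nat_lit 578) (C.node (nat_lit 4) (nat_lit 6) (nat_lit 9) (C.cons (nat_lit 592) (C.node (nat_lit 2) (nat_lit 4) (nat_lit 7) (C.cons (nat_lit 660) (C.miq (nat_lit 1766000417) (nat_lit 649194548918368881587650695)) (C.cons (nat_lit 148) (C.node (nat_lit 2) (nat_lit 4) (nat_lit 9) (C.cons (nat_lit 532) (C.node (nat_lit 2) (nat_lit 6) (nat_lit 7) (C.cons (nat_lit 204) (C.miq (nat_lit 1917149968) (nat_lit 140253712749583201952006219)) (C.cons (nat_lit 196) (C.node (nat_lit 2) (nat_lit 6) (nat_lit 8) (C.cons (nat_lit 332) (C.miq (nat_lit 2185585424) (nat_lit 140253712785611998970970187)) C.nil)) C.nil))) C.nil)) C.nil))) C.nil)) C.nil)) C.nil))) C.nil))) C.nil)) C.nil))) (C.cons (nat_lit 22) (C.node (nat_lit 1) (nat_lit 2) (nat_lit 3) (C.cons (nat_lit 270) (C.node (nat_lit 1) (nat_lit 2) (nat_lit 6) (C.cons (nat_lit 70) (C.node (nat_lit 1) (nat_lit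 3) (nat_lit 5) (C.cons (nat_lit 42) (C.node (nat_lit 1) (nat_lit 5) (nat_lit 8) (C.cons (nat_lit 290) (C.node (nat_lit 2) (nat_lit 6) (nat_lit 8) (C.cons (nat_lit 324) (C.node (nat_lit 2) (nat_lit 7) (nat_lit 8) (C.cons (nat_lit 388) (C.node (nat_lit 2) (nat_lit 8) (nat_lit 9) (C.cons (nat_lit 772) (C.node (nat_lit 3) (nat_lit 8) (nat_lit 9)
  (C.cons (nat_lit 776) (C.node (nat_lit 1) (nat_lit 3) (nat_lit 4) (C.cons (nat_lit 154) (C.node (nat_lit 1) (nat_lit 3) (nat_lit 9) C.nil) C.nil)) C.nil)) C.nil)) C.nil)) C.nil)) C.nil)) C.nil)) C.nil)) (C.cons (nat_lit 14) (C.node (nat_lit 1) (nat_lit 2) (nat_lit 6) (C.cons (nat_lit 326) (C.node (nat_lit 1) (nat_lit 3) (nat_lit 5) (C.cons (nat_lit 298) (C.node (nat_lit 4) (nat_lit 5) (nat_lit 8) (C.cons (nat_lit 304) (C.node (nat_lit 1) (nat_lit 3) (nat_lit 4) (C.cons (nat_lit 154) (C.node (nat_lit 1) (nat_lit 3) (nat_lit 9) (C.cons (nat_lit 522) (C.node (nat_lit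 1) (nat_lit 7) (nat_lit 8) (C.cons (nat_lit 386) (C.node (nat_lit 1) (nat_lit 7) (nat_lit 9) (C.cons (nat_lit 642) (C.node (nat_lit 3) (nat_lit 4) (nat_lit 5) C.nil) C.nil)) C.nil)) C.nil)) (C.cons (nat_lit 26) (C.node (nat_lit 1) (nat_lit 3) (nat_lit 7) (C.cons (nat_lit 650) (C.node (nat_lit 4) (nat_lit 6) (nat_lit 7) (C.cons (nat_lit 216) (C.miq (nat_lit 557078902) (nat_lit 31434211287106937784108001)) (C.cons (nat_lit 208) (C.node (nat_lit 1) (nat_lit 4) (nat_lit 6) (C.cons (nat_lit 594) (C.node (nat_lit 1) (nat_lit 8) (nat_lit 9) (C.cons (nat_lit 770) (C.node (nat_lit 4) (nat_lit 8) (nat_lit 9) (C.cons (nat_lit 784) (C.node (nat_lit 2) (nat_lit 6) (nat_lit 9) (C.cons (nat_lit 588) (C.miq (nat_lit 692401680) (nat_lit 676999289253185492285063243)) (C.cons (nat_lit 580) (C.node (nat_lit 3) (nat_lit 6) (nat_lit 9) (C.cons (nat_lit 584) (C.node (nat_lit 1) (nat_lit 4) (nat_lit 7) (C.cons (nat_lit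 402) (C.node (nat_lit 2) (nat_lit 4) (nat_lit 9) C.nil) (C.cons (nat_lit 146) (C.node (nat_lit 1) (nat_lit 4) (nat_lit 8) C.nil) C.nil))) C.nil)) C.nil))) C.nil)) C.nil)) (C.cons (nat_lit 82) (C.node (nat_lit 1) (nat_lit 6) (nat_lit 9) (C.cons (nat_lit 578) (C.node (nat_lit 4) (nat_lit 6) (nat_lit 9) C.nil) C.nil)) C.nil))) C.nil))) (C.cons (nat_lit 138) (C.node (nat_lit 1) (nat_lit 3) (nat_lit 9) (C.cons (nat_lit 522) (C.node (nat_lit 3) (nat_lit 4) (nat_lit 5) (C.cons (nat_lit 184) (C.node (nat_lit 2) (nat_lit 3) (nat_lit 4) (C.cons (nat_lit 28) (C.node (nat_lit 3) (nat_lit 6) (nat_lit 7) C.nil) C.nil)) C.nil)) C.nil)) C.nil))) C.nil))) C.nil)) (C.cons (nat_lit 42) (C.node (nat_lit 1) (nat_lit 5) (nat_lit 8) (C.cons (nat_lit 290) (C.node (nat_lit 1) (nat_lit 4) (nat_lit 6) (C.cons (nat_lit 594) (C.node (nat_lit 4) (nat_lit 8) (nat_lit 9) (C.cons (nat_lit 784) (C.node (nat_lit 1) (nat_lit 7) (nat_lit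 9) (C.cons (nat_lit 650) (C.node (nat_lit 1) (nat_lit 8) (nat_lit 9) C.nil) C.nil)) C.nil)) (C.cons (nat_lit 82) (C.node (nat_lit 1) (nat_lit 6) (nat_lit 9) (C.cons (nat_lit 578) (C.node (nat_lit 1) (nat_lit 3) (nat_lit 9) C.nil) C.nil)) C.nil))) C.nil)) C.nil))) (C.cons (nat_lit 70) (C.node (nat_lit 1) (nat_lit 2) (nat_lit 8) (C.cons (nat_lit 262) (C.node (nat_lit 1) (nat_lit 3) (nat_lit 5) (C.cons (nat_lit 298) (C.node (nat_lit 4) (nat_lit 5) (nat_lit 8) (C.cons (nat_lit 304) (C.node (nat_lit 1) (nat_lit 3) (nat_lit 4) (C.cons (nat_lit 154) (C.node (nat_lit 1) (nat_lit 3) (nat_lit 9) (C.cons (nat_lit 522) (C.node (nat_lit 3) (nat_lit 4) (nat_lit 5) C.nil) C.nil)) (C.cons (nat_lit 26) (C.node (nat_lit 1) (nat_lit 3) (nat_lit 7) (C.cons (nat_lit 650) (C.node (nat_lit 3) (nat_lit 4) (nat_lit 5) (C.cons (nat_lit 184) (C.node (nat_lit 3) (nat_lit 2) (nat_lit 4) (C.cons (nat_lit 28) (C.node (nat_lit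 2) (nat_lit 7) (nat_lit 6) C.nil) C.nil)) C.nil)) (C.cons (nat_lit 138) (C.node (nat_lit 1) (nat_lit 3) (nat_lit 9) (C.cons (nat_lit 522) (C.node (nat_lit 1) (nat_lit 6) (nat_lit 8) (C.cons (nat_lit 338) (C.node (nat_lit 1) (nat_lit 6) (nat_lit 9) C.nil) C.nil)) C.nil)) C.nil))) C.nil))) C.nil)) (C.cons (nat_lit 42) (C.node (nat_lit 1) (nat_lit 5) (nat_lit 8) (C.cons (nat_lit 290) (C.node (nat_lit 1) (nat_lit 6) (nat_lit 8) (C.cons (nat_lit 338) (C.node (nat_lit 1) (nat_lit 6) (nat_lit 9) C.nil) (C.cons (nat_lit 322) (C.node (nat_lit 1) (nat_lit 4) (nat_lit 6) C.nil) C.nil))) C.nil)) C.nil))) C.nil)) C.nil))) C.nil))) C.nil))) C.nil)) (C.cons (nat_lit 38)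
  (C.node (nat_lit 2) (nat_lit 5) (nat_lit 9) (C.cons (nat_lit 548) (C.node (nat_lit 1) (nat_lit 5) (nat_lit 8) (C.cons (nat_lit 298) (C.node (nat_lit 1) (nat_lit 5) (nat_lit 9) (C.cons (nat_lit 546) (C.node (nat_lit 3) (nat_lit 5) (nat_lit 9) (C.cons (nat_lit 552) (C.node (nat_lit 4) (nat_lit 5) (nat_lit 8) (C.cons (nat_lit 304) (C.node (nat_lit 1) (nat_lit 7) (nat_lit 8) (C.cons (nat_lit 402) (C.node (nat_lit 4) (nat_lit 8) (nat_lit 9) (C.cons (nat_lit 784) (C.node (nat_lit 1) (nat_lit 3) (nat_lit 4) (C.cons (nat_lit 30) (C.miq (nat_lit 897851505) (nat_lit 367514002577840119278076039)) (C.cons (nat_lit 26) (C.node (nat_lit 2) (nat_lit 7) (nat_lit 8) (C.cons (nat_lit 396) (C.miq (nat_lit 944056080) (nat_lit 367514279377796403398115463)) (C.cons (nat_lit 388) (C.node (nat_lit 3) (nat_lit 7) (nat_lit 8) (C.cons (nat_lit 392) (C.node (nat_lit 1) (nat_lit 2) (nat_lit 3) (C.cons (nat_lit 526) (C.node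 (nat_lit 1) (nat_lit 2) (nat_lit 4) (C.cons (nat_lit 22) (C.node (nat_lit 1) (nat_lit 3) (nat_lit 7) C.nil) C.nil)) (C.cons (nat_lit 14) (C.node (nat_lit 1) (nat_lit 2) (nat_lit 4) (C.cons (nat_lit 534) (C.node (nat_lit 1) (nat_lit 4) (nat_lit 6) C.nil) (C.cons (nat_lit 22) (C.node (nat_lit 1) (nat_lit 2) (nat_lit 6) C.nil) C.nil))) C.nil))) C.nil)) C.nil))) C.nil))) C.nil)) (C.cons (nat_lit 386) (C.node (nat_lit 2) (nat_lit 6) (nat_lit 7) (C.cons (nat_lit 204) (C.node (nat_lit 2) (nat_lit 7) (nat_lit 8) (C.cons (nat_lit 388) (C.node (nat_lit 3) (nat_lit 6) (nat_lit 9) (C.cons (nat_lit 584) (C.node (nat_lit 4) (nat_lit 6) (nat_lit 7) (C.cons (nat_lit 208) (C.node (nat_lit 2) (nat_lit 3) (nat_lit 4) (C.cons (nat_lit 30) (C.miq (nat_lit 1917149968) (nat_lit 140253712749583201952006219)) (C.cons (nat_lit 28) (C.node (nat_lit 1) (nat_lit 2) (nat_lit 3) (C.cons (nat_lit 526) (C.node (nat_lit 1) (nat_lit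 2) (nat_lit 4) (C.cons (nat_lit 22) (C.node (nat_lit 2) (nat_lit 3) (nat_lit 8) C.nil) C.nil)) (C.cons (nat_lit 14) (C.node (nat_lit 1) (nat_lit 2) (nat_lit 4) (C.cons (nat_lit 534) (C.node (nat_lit 1) (nat_lit 6) (nat_lit 9) C.nil) C.nil)) C.nil))) C.nil))) C.nil)) C.nil)) C.nil)) (C.cons (nat_lit 196) (C.node (nat_lit 2) (nat_lit 7) (nat_lit 8) (C.cons (nat_lit 396) (C.node (nat_lit 3) (nat_lit 8) (nat_lit 9) (C.cons (nat_lit 776) (C.node (nat_lit 4) (nat_lit 7) (nat_lit 8) (C.cons (nat_lit 400) (C.node (nat_lit 2) (nat_lit 3) (nat_lit 4) (C.cons (nat_lit 30) (C.miq (nat_lit 1166217330) (nat_lit 360260447661841194089709703)) (C.cons (nat_lit 28) (C.node (nat_lit 1) (nat_lit 2) (nat_lit 3) (C.cons (nat_lit 526) (C.node (nat_lit 1) (nat_lit 2) (nat_lit 4) (C.cons (nat_lit 22) (C.node (nat_lit 2) (nat_lit 3) (nat_lit 6) C.nil) C.nil)) (C.cons (nat_lit 14) (C.node (nat_lit 1) (nat_lit 2) (nat_lit 4)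 (C.cons (nat_lit 534) (C.node (nat_lit 1) (nat_lit 6) (nat_lit 9) C.nil) C.nil)) C.nil))) C.nil))) C.nil)) C.nil)) (C.cons (nat_lit 388) (C.node (nat_lit 3) (nat_lit 4) (nat_lit 5) (C.cons (nat_lit 184) (C.node (nat_lit 3) (nat_lit 6) (nat_lit 7) (C.cons (nat_lit 200) (C.node (nat_lit 3) (nat_lit 7) (nat_lit 8) (C.cons (nat_lit 392) (C.node (nat_lit 4) (nat_lit 6) (nat_lit 7) (C.cons (nat_lit 208) (C.node (nat_lit 4) (nat_lit 7) (nat_lit 8) (C.cons (nat_lit 400) (C.node (nat_lit 1) (nat_lit 3) (nat_lit 7) C.nil) C.nil)) C.nil)) C.nil)) C.nil)) (C.cons (nat_lit 56) (C.node (nat_lit 3) (nat_lit 5) (nat_lit 7) (C.cons (nat_lit 168) (C.node (nat_lit 4) (nat_lit 5) (nat_lit 7) (C.cons (nat_lit 176) (C.node (nat_lit 3) (nat_lit 6) (nat_lit 7) (C.cons (nat_lit 216) (C.node (nat_lit 3) (nat_lit 4) (nat_lit 8) (C.cons (nat_lit 280) (C.node (nat_lit 3) (nat_lit 7) (nat_lit 8) (C.cons (nat_lit 392) (C.node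 (nat_lit 4) (nat_lit 7) (nat_lit 8) C.nil) C.nil)) C.nil)) (C.cons (nat_lit 200) (C.node (nat_lit 4) (nat_lit 6) (nat_lit 7) C.nil) C.nil))) C.nil)) C.nil)) C.nil))) C.nil))) C.nil))) C.nil))) C.nil)) C.nil)) C.nil)) (C.cons (nat_lit 290) (C.node (nat_lit 1) (nat_lit 3) (nat_lit 5) (C.cons (nat_lit 554) (C.node (nat_lit 4) (nat_lit 8) (nat_lit 9)
  (C.cons (nat_lit 786) (C.miq (nat_lit 2169653552) (nat_lit 45944291114706037294039577)) (C.cons (nat_lit 784) (C.node (nat_lit 3) (nat_lit 8) (nat_lit 9) (C.cons (nat_lit 780) (C.miq (nat_lit 428102432) (nat_lit 947798783517757519347122221)) (C.cons (nat_lit 776) (C.node (nat_lit 1) (nat_lit 7) (nat_lit 9) (C.cons (nat_lit 658) (C.node (nat_lit 2) (nat_lit 4) (nat_lit 9) (C.cons (nat_lit 532) (C.node (nat_lit 4) (nat_lit 6) (nat_lit 9) (C.cons (nat_lit 592) (C.node (nat_lit 1) (nat_lit 2) (nat_lit 4) (C.cons (nat_lit 30) (C.miq (nat_lit 680738897) (nat_lit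 938126989501247284346224691)) (C.cons (nat_lit 22) (C.node (nat_lit 2) (nat_lit 7) (nat_lit 9) (C.cons (nat_lit 652) (C.miq (nat_lit 960833296) (nat_lit 676999289271200165672452231)) (C.cons (nat_lit 644) (C.node (nat_lit 3) (nat_lit 7) (nat_lit 9) (C.cons (nat_lit 648) (C.node (nat_lit 1) (nat_lit 2) (nat_lit 3) (C.cons (nat_lit 270) (C.node (nat_lit 1) (nat_lit 3) (nat_lit 4) C.nil) C.nil)) C.nil)) C.nil))) C.nil))) C.nil)) C.nil)) (C.cons (nat_lit 642) (C.node (nat_lit 1) (nat_lit 8) (nat_lit 9) (C.cons (nat_lit 774) (C.node (nat_lit 1) (nat_lit 2) (nat_lit 6) (C.cons (nat_lit 70) (C.node (nat_lit 1) (nat_lit 2) (nat_lit 3) (C.cons (nat_lit 30) (C.miq (nat_lit 680738897) (nat_lit 938126989501247284346224691)) (C.cons (nat_lit 14) (C.node (nat_lit 1) (nat_lit 2) (nat_lit 4) (C.cons (nat_lit 22) (C.node (nat_lit 1) (nat_lit 4) (nat_lit 9) C.nil) C.nil)) C.nil))) C.nil)) (C.cons (nat_lit 770) (C.node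 (nat_lit 2) (nat_lit 8) (nat_lit 9) (C.cons (nat_lit 772) (C.node (nat_lit 2) (nat_lit 6) (nat_lit 7) (C.cons (nat_lit 204) (C.node (nat_lit 2) (nat_lit 3) (nat_lit 9) (C.cons (nat_lit 524) (C.node (nat_lit 2) (nat_lit 7) (nat_lit 8) (C.cons (nat_lit 388) (C.node (nat_lit 2) (nat_lit 6) (nat_lit 9) C.nil) C.nil)) C.nil)) (C.cons (nat_lit 196) (C.node (nat_lit 2) (nat_lit 7) (nat_lit 8) (C.cons (nat_lit 396) (C.node (nat_lit 3) (nat_lit 7) (nat_lit 9) (C.cons (nat_lit 648) (C.node (nat_lit 1) (nat_lit 2) (nat_lit 3) (C.cons (nat_lit 30) (C.miq (nat_lit 2468892992) (nat_lit 478752942340195612733276211)) (C.cons (nat_lit 14) (C.node (nat_lit 2) (nat_lit 3) (nat_lit 4) C.nil) C.nil))) C.nil)) (C.cons (nat_lit 388) (C.node (nat_lit 1) (nat_lit 2) (nat_lit 3) (C.cons (nat_lit 270) (C.node (nat_lit 1) (nat_lit 2) (nat_lit 4) C.nil) (C.cons (nat_lit 30) (C.miq (nat_lit 680738897) (nat_lit 938126989501247284346224691))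 C.nil))) C.nil))) C.nil))) C.nil)) C.nil))) C.nil))) C.nil))) C.nil))) (C.cons (nat_lit 42) (C.node (nat_lit 1) (nat_lit 5) (nat_lit 9) (C.cons (nat_lit 546) (C.node (nat_lit 3) (nat_lit 5) (nat_lit 9) (C.cons (nat_lit 552) (C.node (nat_lit 2) (nat_lit 6) (nat_lit 7) (C.cons (nat_lit 204) (C.node (nat_lit 2) (nat_lit 7) (nat_lit 8) (C.cons (nat_lit 388) (C.node (nat_lit 3) (nat_lit 6) (nat_lit 9) (C.cons (nat_lit 584) (C.node (nat_lit 4) (nat_lit 6) (nat_lit 7) (C.cons (nat_lit 208) (C.node (nat_lit 2) (nat_lit 3) (nat_lit 4) (C.cons (nat_lit 30) (C.miq (nat_lit 1917149968) (nat_lit 140253712749583201952006219)) (C.cons (nat_lit 28) (C.node (nat_lit 1) (nat_lit 2) (nat_lit 4) (C.cons (nat_lit 534) (C.node (nat_lit 1) (nat_lit 6) (nat_lit 9) C.nil) C.nil)) C.nil))) C.nil)) C.nil)) C.nil)) (C.cons (nat_lit 196) (C.node (nat_lit 2) (nat_lit 7) (nat_lit 8) (C.cons (nat_lit 396) (C.node (nat_lit 1) (nat_lit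 7) (nat_lit 8) (C.cons (nat_lit 402) (C.miq (nat_lit 890708040) (nat_lit 195853287700889708306497813)) (C.cons (nat_lit 386) (C.node (nat_lit 4) (nat_lit 7) (nat_lit 8) (C.cons (nat_lit 400) (C.node (nat_lit 2) (nat_lit 3) (nat_lit 4) (C.cons (nat_lit 28) (C.node (nat_lit 1) (nat_lit 2) (nat_lit 3) C.nil) C.nil)) C.nil)) C.nil))) (C.cons (nat_lit 388) (C.node (nat_lit 3) (nat_lit 5) (nat_lit 7) (C.cons (nat_lit 184) (C.node (nat_lit 3) (nat_lit 5) (nat_lit 8) (C.cons (nat_lit 296) (C.node (nat_lit 3) (nat_lit 6) (nat_lit 7) (C.cons (nat_lit 200) (C.node (nat_lit 4) (nat_lit 5) (nat_lit 8) (C.cons (nat_lit 304) (C.node (nat_lit 4) (nat_lit 6) (nat_lit 7)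
  (C.cons (nat_lit 208) (C.node (nat_lit 3) (nat_lit 7) (nat_lit 8) (C.cons (nat_lit 392) (C.node (nat_lit 1) (nat_lit 3) (nat_lit 7) C.nil) C.nil)) C.nil)) C.nil)) C.nil)) C.nil)) (C.cons (nat_lit 168) (C.node (nat_lit 4) (nat_lit 5) (nat_lit 7) (C.cons (nat_lit 176) (C.node (nat_lit 3) (nat_lit 4) (nat_lit 5) (C.cons (nat_lit 312) (C.node (nat_lit 4) (nat_lit 7) (nat_lit 8) (C.cons (nat_lit 402) (C.miq (nat_lit 947016720) (nat_lit 469064048201781356035244083)) (C.cons (nat_lit 400) (C.node (nat_lit 1) (nat_lit 7) (nat_lit 8) (C.cons (nat_lit 394) (C.node (nat_lit 1) (nat_lit 4) (nat_lit 7) C.nil) C.nil)) C.nil))) C.nil)) C.nil)) C.nil))) C.nil))) C.nil))) C.nil)) C.nil)) C.nil))) C.nil))) C.nil)) C.nil))) C.nil))) C.nil)) C.nil)) C.nil)) (C.cons (nat_lit 100) (C.ref (nat_lit 5) (nat_lit 654820258320)) C.nil))) C.nil))) List.nil)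

theorem ok10_6 : okL par10 (nat_lit 7) c10_6 (nat_lit 6) = true := by decide +kernel

noncomputable def c10_7 : List C :=
  (List.cons (C.node (nat_lit 1) (nat_lit 5) (nat_lit 6) (C.cons (nat_lit 102) (C.node (nat_lit 2) (nat_lit 5) (nat_lit 8) (C.cons (nat_lit 292) (C.node (nat_lit 1) (nat_lit 5) (nat_lit 7) (C.cons (nat_lit 170) (C.node (nat_lit 1) (nat_lit 5) (nat_lit 8) (C.cons (nat_lit 290) (C.node (nat_lit 1) (nat_lit 5) (nat_lit 9) (C.cons (nat_lit 546) (C.node (nat_lit 3) (nat_lit 5) (nat_lit 9) (C.cons (nat_lit 552) (C.node (nat_lit 1) (nat_lit 6) (nat_lit 7) (C.cons (nat_lit 210) (C.node (nat_lit 1) (nat_lit 6) (nat_lit 8) (C.cons (nat_lit 322) (C.node (nat_lit 1) (nat_lit 6) (nat_lit 9) (C.cons (nat_lit 578) (C.node (nat_lit 1) (nat_lit 7) (nat_lit 8) (C.cons (nat_lit 386) (C.node (nat_lit 1) (nat_lit 7) (nat_lit 9) (C.cons (nat_lit 642) (C.node (nat_lit 2) (nat_lit 5) (nat_lit 7) (C.cons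 (nat_lit 180) (C.miq (nat_lit 1107719473) (nat_lit 83419755420330581146927274)) (C.cons (nat_lit 164) (C.node (nat_lit 4) (nat_lit 5) (nat_lit 7) (C.cons (nat_lit 176) (C.node (nat_lit 2) (nat_lit 6) (nat_lit 7) (C.cons (nat_lit 204) (C.miq (nat_lit 658847248) (nat_lit 212771774413079848873558091)) (C.cons (nat_lit 196) (C.node (nat_lit 3) (nat_lit 6) (nat_lit 7) (C.cons (nat_lit 200) (C.node (nat_lit 2) (nat_lit 7) (nat_lit 8) (C.cons (nat_lit 396) (C.miq (nat_lit 1098384690) (nat_lit 466650476133711232965017645)) (C.cons (nat_lit 388) (C.node (nat_lit 3) (nat_lit 5) (nat_lit 6) (C.cons (nat_lit 120) (C.miq (nat_lit 913462288) (nat_lit 236950290781728534329491507)) (C.cons (nat_lit 104) (C.node (nat_lit 4) (nat_lit 5) (nat_lit 6) (C.cons (nat_lit 112) (C.node (nat_lit 3) (nat_lit 4) (nat_lit 5) (C.cons (nat_lit 312) (C.miq (nat_lit 925389060) (nat_lit 469068973442478443045650483)) (C.cons (nat_lit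 56) (C.node (nat_lit 3) (nat_lit 5) (nat_lit 8) (C.cons (nat_lit 296) (C.node (nat_lit 4) (nat_lit 5) (nat_lit 8) (C.cons (nat_lit 304) (C.node (nat_lit 3) (nat_lit 6) (nat_lit 9) (C.cons (nat_lit 588) (C.miq (nat_lit 1097401635) (nat_lit 698769029653178906946830381)) (C.cons (nat_lit 584) (C.node (nat_lit 1) (nat_lit 2) (nat_lit 4) C.nil) C.nil))) C.nil)) C.nil)) C.nil))) C.nil)) C.nil))) C.nil))) C.nil)) C.nil))) C.nil)) C.nil))) C.nil)) C.nil)) C.nil)) C.nil)) (C.cons (nat_lit 194) (C.node (nat_lit 1) (nat_lit 6) (nat_lit 8) (C.cons (nat_lit 338) (C.node (nat_lit 1) (nat_lit 6) (nat_lit 9) (C.cons (nat_lit 578) (C.node (nat_lit 1) (nat_lit 7) (nat_lit 8) (C.cons (nat_lit 386) (C.node (nat_lit 4) (nat_lit 8) (nat_lit 9) (C.cons (nat_lit 784) (C.node (nat_lit 1) (nat_lit 3) (nat_lit 4) (C.cons (nat_lit 30) (C.miq (nat_lit 1900565280) (nat_lit 408635244694460729543426093)) (C.cons (nat_lit 26) (C.node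 (nat_lit 2) (nat_lit 5) (nat_lit 9) (C.cons (nat_lit 564) (C.miq (nat_lit 557078025) (nat_lit 31442475302348700511699937)) (C.cons (nat_lit 548) (C.node (nat_lit 4) (nat_lit 5) (nat_lit 9) (C.cons (nat_lit 560) (C.node (nat_lit 2) (nat_lit 6) (nat_lit 8) (C.cons (nat_lit 332) (C.miq (nat_lit 1384383329) (nat_lit 334873392829867840484016203)) (C.cons (nat_lit 324) (C.node (nat_lit 3) (nat_lit 6) (nat_lit 8) (C.cons (nat_lit 328) (C.node (nat_lit 2) (nat_lit 7) (nat_lit 8) (C.cons (nat_lit 396) (C.miq (nat_lit 588547920) (nat_lit 31437181169553597013361633)) (C.cons (nat_lit 388) (C.node (nat_lit 3) (nat_lit 5) (nat_lit 8) (C.cons (nat_lit 312) (C.miq (nat_lit 607193175) (nat_lit 31434561698400217921618913)) (C.cons (nat_lit 296) (C.node (nat_lit 4) (nat_lit 5) (nat_lit 8) (C.cons (nat_lit 304) (C.node (nat_lit 3) (nat_lit 6) (nat_lit 9) (C.cons (nat_lit 588) (C.miq (nat_lit 558064905) (nat_lit 31442918024206366461723617))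 (C.cons (nat_lit 584) (C.node (nat_lit 1) (nat_lit 2) (nat_lit 4) (C.cons (nat_lit 534) (C.node (nat_lit 1) (nat_lit 4) (nat_lit 7) (C.cons (nat_lit 146) (C.node (nat_lit 1) (nat_lit 7) (nat_lit 9) C.nil) C.nil)) (C.cons (nat_lit 22) (C.node (nat_lit 1) (nat_lit 4) (nat_lit 7) (C.cons (nat_lit 658) (C.node (nat_lit 2) (nat_lit 7) (nat_lit 9) (C.cons (nat_lit 652) (C.miq (nat_lit 960833296) (nat_lit 676999289271200165672452231))
  (C.cons (nat_lit 644) (C.node (nat_lit 3) (nat_lit 7) (nat_lit 9) (C.cons (nat_lit 648) (C.node (nat_lit 2) (nat_lit 4) (nat_lit 5) (C.cons (nat_lit 180) (C.node (nat_lit 2) (nat_lit 3) (nat_lit 4) C.nil) C.nil)) C.nil)) C.nil))) (C.cons (nat_lit 146) (C.node (nat_lit 1) (nat_lit 4) (nat_lit 9) C.nil) C.nil))) C.nil))) C.nil))) C.nil)) C.nil))) C.nil))) C.nil)) C.nil))) C.nil)) C.nil))) C.nil))) C.nil)) C.nil)) C.nil)) (C.cons (nat_lit 322) (C.node (nat_lit 1) (nat_lit 4)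 (nat_lit 6) (C.cons (nat_lit 594) (C.node (nat_lit 1) (nat_lit 7) (nat_lit 9) (C.cons (nat_lit 642) (C.node (nat_lit 4) (nat_lit 8) (nat_lit 9) (C.cons (nat_lit 784) (C.node (nat_lit 1) (nat_lit 2) (nat_lit 4) (C.cons (nat_lit 30) (C.node (nat_lit 1) (nat_lit 4) (nat_lit 7) (C.cons (nat_lit 402) (C.node (nat_lit 2) (nat_lit 5) (nat_lit 7) (C.cons (nat_lit 180) (C.miq (nat_lit 1947619888) (nat_lit 718120254518620548022075437)) (C.cons (nat_lit 164) (C.node (nat_lit 4) (nat_lit 5) (nat_lit 7) (C.cons (nat_lit 176) (C.node (nat_lit 2) (nat_lit 4) (nat_lit 5) (C.cons (nat_lit 564) (C.node (nat_lit 4) (nat_lit 7) (nat_lit 9) (C.cons (nat_lit 656) (C.node (nat_lit 2) (nat_lit 6) (nat_lit 8) (C.cons (nat_lit 332) (C.miq (nat_lit 2519875845) (nat_lit 401373776242910916481187891)) (C.cons (nat_lit 324) (C.node (nat_lit 2) (nat_lit 6) (nat_lit 9) (C.cons (nat_lit 588) (C.node (nat_lit 2) (nat_lit 7) (nat_lit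 9) (C.cons (nat_lit 644) (C.node (nat_lit 3) (nat_lit 7) (nat_lit 9) C.nil) C.nil)) (C.cons (nat_lit 580) (C.miq (nat_lit 848692545) (nat_lit 701178358894959245898416179)) C.nil))) C.nil))) C.nil)) (C.cons (nat_lit 52) (C.miq (nat_lit 2485477680) (nat_lit 62882460404022175687573579)) C.nil))) C.nil)) C.nil))) (C.cons (nat_lit 146) (C.miq (nat_lit 2266236210) (nat_lit 176508279691349659072987181)) C.nil))) (C.cons (nat_lit 22) (C.miq (nat_lit 873597285) (nat_lit 26597198286159772484240353)) C.nil))) C.nil)) C.nil)) (C.cons (nat_lit 82) (C.node (nat_lit 1) (nat_lit 6) (nat_lit 9) (C.cons (nat_lit 578) (C.node (nat_lit 3) (nat_lit 6) (nat_lit 9) (C.cons (nat_lit 588) (C.miq (nat_lit 1097401635) (nat_lit 698769029653178906946830381)) (C.cons (nat_lit 584) (C.node (nat_lit 2) (nat_lit 5) (nat_lit 9) (C.cons (nat_lit 564) (C.miq (nat_lit 641290500) (nat_lit 706023082647311779997745203)) (C.cons (nat_lit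 548) (C.node (nat_lit 4) (nat_lit 5) (nat_lit 9) (C.cons (nat_lit 560) (C.node (nat_lit 1) (nat_lit 7) (nat_lit 8) (C.cons (nat_lit 402) (C.node (nat_lit 1) (nat_lit 3) (nat_lit 4) (C.cons (nat_lit 30) (C.miq (nat_lit 597038085) (nat_lit 706014560231285512166506547)) (C.cons (nat_lit 26) (C.miq (nat_lit 605227125) (nat_lit 31432901491433970609030113)) C.nil))) (C.cons (nat_lit 386) (C.node (nat_lit 2) (nat_lit 7) (nat_lit 8) (C.cons (nat_lit 396) (C.miq (nat_lit 1098384690) (nat_lit 466650476133711232965017645)) (C.cons (nat_lit 388) (C.node (nat_lit 3) (nat_lit 5) (nat_lit 8) (C.cons (nat_lit 312) (C.miq (nat_lit 925389060) (nat_lit 469068973442478443045650483)) (C.cons (nat_lit 296) (C.node (nat_lit 4) (nat_lit 5) (nat_lit 8) (C.cons (nat_lit 304) (C.node (nat_lit 1) (nat_lit 4) (nat_lit 7) (C.cons (nat_lit 658) (C.node (nat_lit 4) (nat_lit 8) (nat_lit 9) (C.cons (nat_lit 784) (C.node (nat_lit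 1) (nat_lit 2) (nat_lit 4) (C.cons (nat_lit 30) (C.miq (nat_lit 847713285) (nat_lit 469066353965414089482108979)) (C.cons (nat_lit 22) (C.node (nat_lit 2) (nat_lit 4) (nat_lit 5) (C.cons (nat_lit 180) (C.node (nat_lit 3) (nat_lit 4) (nat_lit 5) (C.cons (nat_lit 120) (C.miq (nat_lit 824467573) (nat_lit 26598581661921890075411425)) C.nil)) C.nil)) C.nil))) C.nil)) (C.cons (nat_lit 146) (C.node (nat_lit 1) (nat_lit 7) (nat_lit 9) (C.cons (nat_lit 642) (C.node (nat_lit 2) (nat_lit 4) (nat_lit 5) (C.cons (nat_lit 180) (C.node (nat_lit 4) (nat_lit 7) (nat_lit 9) (C.cons (nat_lit 656) (C.node (nat_lit 2) (nat_lit 6) (nat_lit 7) (C.cons (nat_lit 204) (C.miq (nat_lit 1197560368) (nat_lit 234532549839852191066292269)) (C.cons (nat_lit 196) (C.node (nat_lit 3) (nat_lit 4) (nat_lit 5)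
  (C.cons (nat_lit 120) (C.miq (nat_lit 1685140768) (nat_lit 176504553203319158031712301)) (C.cons (nat_lit 56) (C.node (nat_lit 4) (nat_lit 5) (nat_lit 6) C.nil) C.nil))) C.nil))) C.nil)) (C.cons (nat_lit 52) (C.node (nat_lit 1) (nat_lit 2) (nat_lit 4) C.nil) C.nil))) C.nil)) C.nil))) C.nil)) C.nil))) C.nil))) C.nil))) C.nil)) C.nil))) C.nil))) C.nil)) C.nil))) C.nil))) C.nil))) C.nil)) C.nil)) C.nil)) (C.cons (nat_lit 162) (C.ref (nat_lit 4) (nat_lit 654820258320)) C.nil))) C.nil)) (C.cons (nat_lit 98) (C.node (nat_lit 1) (nat_lit 5) (nat_lit 7) (C.cons (nat_lit 170) (C.node (nat_lit 3) (nat_lit 5) (nat_lit 9) (C.cons (nat_lit 552) (C.ref (nat_lit 4) (nat_lit 590144086800)) C.nil)) (C.cons (nat_lit 162) (C.ref (nat_lit 6) (nat_lit 654820258320)) C.nil))) C.nil))) (List.cons (C.node (nat_lit 0) (nat_lit 3) (nat_lit 4) (C.cons (nat_lit 537) (C.qs (C.cons (nat_lit 596) (C.ref (nat_lit 7) (nat_lit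 654820258320)) (C.cons (nat_lit 394) (C.ref (nat_lit 7) (nat_lit 654820258320)) C.nil))) C.nil)) (List.cons (C.node (nat_lit 0) (nat_lit 3) (nat_lit 7) (C.cons (nat_lit 153) (C.node (nat_lit 0) (nat_lit 3) (nat_lit 9) (C.cons (nat_lit 521) (C.node (nat_lit 0) (nat_lit 4) (nat_lit 9) (C.cons (nat_lit 529) (C.ref (nat_lit 3) (nat_lit 654568596240)) C.nil)) C.nil)) (C.cons (nat_lit 137) (C.node (nat_lit 0) (nat_lit 4) (nat_lit 7) (C.cons (nat_lit 145) (C.ref (nat_lit 8) (nat_lit 654820258320)) C.nil)) C.nil))) (List.cons (C.node (nat_lit 0) (nat_lit 2) (nat_lit 4) (C.cons (nat_lit 533) (C.node (nat_lit 0) (nat_lit 3) (nat_lit 9) (C.cons (nat_lit 521) (C.ref (nat_lit 9) (nat_lit 590395748880)) C.nil)) (C.cons (nat_lit 21) (C.node (nat_lit 0) (nat_lit 2) (nat_lit 9) (C.cons (nat_lit 517) (C.node (nat_lit 0) (nat_lit 3) (nat_lit 7) (C.cons (nat_lit 153) (C.node (nat_lit 0) (nat_lit 3) (nat_lit 8) (C.cons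 (nat_lit 265) (C.node (nat_lit 0) (nat_lit 3) (nat_lit 9) C.nil) C.nil)) (C.cons (nat_lit 137) (C.node (nat_lit 0) (nat_lit 4) (nat_lit 7) C.nil) C.nil))) C.nil)) C.nil))) (List.cons (C.node (nat_lit 0) (nat_lit 2) (nat_lit 8) (C.cons (nat_lit 277) (C.node (nat_lit 0) (nat_lit 2) (nat_lit 9) (C.cons (nat_lit 517) (C.node (nat_lit 0) (nat_lit 3) (nat_lit 8) (C.cons (nat_lit 265) (C.ref (nat_lit 9) (nat_lit 654820258320)) C.nil)) C.nil)) (C.cons (nat_lit 261) (C.ref (nat_lit 10) (nat_lit 654820258320)) C.nil))) (List.cons (C.node (nat_lit 0) (nat_lit 2) (nat_lit 6) (C.cons (nat_lit 85) (C.node (nat_lit 0) (nat_lit 2) (nat_lit 8) (C.cons (nat_lit 261) (C.node (nat_lit 0) (nat_lit 2) (nat_lit 9) (C.cons (nat_lit 517) (C.node (nat_lit 0) (nat_lit 3) (nat_lit 7) (C.cons (nat_lit 153) (C.pat (nat_lit 0) (nat_lit 72759073) (nat_lit 78673750343882874181511184842887)) (C.cons (nat_lit 137) (C.node (nat_lit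 0) (nat_lit 4) (nat_lit 7) (C.cons (nat_lit 145) (C.node (nat_lit 0) (nat_lit 3) (nat_lit 8) (C.cons (nat_lit 281) (C.node (nat_lit 0) (nat_lit 3) (nat_lit 9) (C.cons (nat_lit 521) (C.node (nat_lit 0) (nat_lit 4) (nat_lit 9) (C.cons (nat_lit 529) (C.ref (nat_lit 3) (nat_lit 654820258320)) C.nil)) C.nil)) (C.cons (nat_lit 265) (C.node (nat_lit 0) (nat_lit 4) (nat_lit 8) (C.cons (nat_lit 273) (C.node (nat_lit 0) (nat_lit 3) (nat_lit 4) (C.cons (nat_lit 537) (C.ref (nat_lit 3) (nat_lit 590395748880)) C.nil)) C.nil)) C.nil))) C.nil)) C.nil))) C.nil)) C.nil)) (C.cons (nat_lit 69) (C.node (nat_lit 0) (nat_lit 4) (nat_lit 6) (C.cons (nat_lit 81) (C.ref (nat_lit 11) (nat_lit 654820258320)) C.nil)) C.nil))) (List.cons (C.node (nat_lit 0) (nat_lit 2) (nat_lit 7) (C.cons (nat_lit 149) (C.node (nat_lit 0) (nat_lit 2) (nat_lit 8) (C.cons (nat_lit 261) (C.node (nat_lit 0) (nat_lit 2) (nat_lit 9) (C.cons (nat_lit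 517) (C.node (nat_lit 0) (nat_lit 3) (nat_lit 7) C.nil) C.nil)) C.nil)) (C.cons (nat_lit 133) (C.node (nat_lit 0) (nat_lit 2) (nat_lit 8) (C.cons (nat_lit 277) (C.node (nat_lit 0) (nat_lit 2) (nat_lit 9) (C.cons (nat_lit 517) (C.node (nat_lit 0) (nat_lit 3) (nat_lit 8) C.nil) C.nil)) (C.cons (nat_lit 261) (C.node (nat_lit 0) (nat_lit 2) (nat_lit 4)
  (C.cons (nat_lit 533) (C.node (nat_lit 0) (nat_lit 3) (nat_lit 9) C.nil) C.nil)) C.nil))) C.nil))) (List.cons (C.node (nat_lit 0) (nat_lit 1) (nat_lit 7) (C.cons (nat_lit 135) (C.node (nat_lit 0) (nat_lit 1) (nat_lit 8) (C.cons (nat_lit 259) (C.node (nat_lit 0) (nat_lit 1) (nat_lit 9) (C.cons (nat_lit 515) (C.ref (nat_lit 12) (nat_lit 654820258320)) C.nil)) C.nil)) (C.cons (nat_lit 131) (C.node (nat_lit 0) (nat_lit 1) (nat_lit 8) (C.cons (nat_lit 263) (C.node (nat_lit 0) (nat_lit 1) (nat_lit 9) (C.cons (nat_lit 515) (C.ref (nat_lit 12) (nat_lit 650793726480))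 C.nil)) (C.cons (nat_lit 259) (C.node (nat_lit 0) (nat_lit 1) (nat_lit 2) (C.cons (nat_lit 519) (C.ref (nat_lit 12) (nat_lit 582342685200)) (C.cons (nat_lit 7) (C.node (nat_lit 0) (nat_lit 1) (nat_lit 9) (C.cons (nat_lit 515) (C.node (nat_lit 0) (nat_lit 2) (nat_lit 6) (C.cons (nat_lit 85) (C.node (nat_lit 0) (nat_lit 2) (nat_lit 7) (C.cons (nat_lit 133) (C.node (nat_lit 0) (nat_lit 2) (nat_lit 8) (C.cons (nat_lit 261) (C.node (nat_lit 0) (nat_lit 2) (nat_lit 9) (C.cons (nat_lit 517) (C.node (nat_lit 0) (nat_lit 3) (nat_lit 7) (C.cons (nat_lit 153) (C.node (nat_lit 0) (nat_lit 3) (nat_lit 8) (C.cons (nat_lit 265) (C.node (nat_lit 0) (nat_lit 3) (nat_lit 9) C.nil) C.nil)) (C.cons (nat_lit 137) (C.node (nat_lit 0) (nat_lit 4) (nat_lit 7) C.nil) C.nil))) C.nil)) C.nil)) C.nil)) (C.cons (nat_lit 69) (C.node (nat_lit 0) (nat_lit 4) (nat_lit 6) (C.cons (nat_lit 81) (C.ref (nat_lit 13) (nat_lit 654820258320))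 C.nil)) C.nil))) C.nil)) C.nil))) C.nil))) C.nil))) (List.cons (C.node (nat_lit 0) (nat_lit 2) (nat_lit 7) (C.cons (nat_lit 135) (C.node (nat_lit 0) (nat_lit 2) (nat_lit 8) (C.cons (nat_lit 261) (C.node (nat_lit 0) (nat_lit 2) (nat_lit 9) (C.cons (nat_lit 517) (C.ref (nat_lit 11) (nat_lit 654820196640)) C.nil)) C.nil)) (C.cons (nat_lit 133) (C.node (nat_lit 0) (nat_lit 1) (nat_lit 7) (C.cons (nat_lit 139) (C.node (nat_lit 0) (nat_lit 4) (nat_lit 7) (C.cons (nat_lit 145) (C.node (nat_lit 0) (nat_lit 1) (nat_lit 8) (C.cons (nat_lit 263) (C.node (nat_lit 0) (nat_lit 1) (nat_lit 9) (C.cons (nat_lit 515) (C.node (nat_lit 0) (nat_lit 2) (nat_lit 9) (C.cons (nat_lit 517) (C.ref (nat_lit 9) (nat_lit 646515536400)) C.nil)) C.nil)) (C.cons (nat_lit 259) (C.node (nat_lit 0) (nat_lit 2) (nat_lit 8) (C.cons (nat_lit 261) (C.node (nat_lit 0) (nat_lit 1) (nat_lit 2) (C.cons (nat_lit 519) (C.ref (nat_lit 9) (nat_lit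 578064495120)) (C.cons (nat_lit 7) (C.node (nat_lit 0) (nat_lit 1) (nat_lit 9) (C.cons (nat_lit 515) (C.node (nat_lit 0) (nat_lit 2) (nat_lit 9) C.nil) C.nil)) C.nil))) C.nil)) C.nil))) C.nil)) (C.cons (nat_lit 131) (C.node (nat_lit 0) (nat_lit 2) (nat_lit 8) (C.cons (nat_lit 263) (C.node (nat_lit 0) (nat_lit 2) (nat_lit 9) (C.cons (nat_lit 517) (C.ref (nat_lit 10) (nat_lit 650793664800)) C.nil)) (C.cons (nat_lit 261) (C.node (nat_lit 0) (nat_lit 1) (nat_lit 2) (C.cons (nat_lit 519) (C.ref (nat_lit 10) (nat_lit 582342623520)) (C.cons (nat_lit 7) (C.node (nat_lit 0) (nat_lit 2) (nat_lit 9) (C.cons (nat_lit 517) (C.node (nat_lit 0) (nat_lit 1) (nat_lit 8) (C.cons (nat_lit 267) (C.node (nat_lit 0) (nat_lit 1) (nat_lit 9) (C.cons (nat_lit 515) (C.node (nat_lit 0) (nat_lit 4) (nat_lit 8) C.nil) C.nil)) (C.cons (nat_lit 259) (C.node (nat_lit 0) (nat_lit 1) (nat_lit 3) (C.cons (nat_lit 523) (C.node (nat_lit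 0) (nat_lit 4) (nat_lit 9) C.nil) C.nil)) C.nil))) C.nil)) C.nil))) C.nil))) C.nil))) C.nil))) (List.cons (C.node (nat_lit 0) (nat_lit 2) (nat_lit 4) (C.cons (nat_lit 533) (C.node (nat_lit 0) (nat_lit 3) (nat_lit 9) (C.cons (nat_lit 521) (C.node (nat_lit 0) (nat_lit 3) (nat_lit 4) (C.cons (nat_lit 281) (C.ref (nat_lit 3) (nat_lit 452990346000)) C.nil)) C.nil)) (C.cons (nat_lit 21) (C.node (nat_lit 0) (nat_lit 2) (nat_lit 9) C.nil) C.nil))) (List.cons (C.node (nat_lit 0) (nat_lit 2) (nat_lit 7) (C.cons (nat_lit 149) (C.node (nat_lit 0) (nat_lit 2) (nat_lit 9) (C.cons (nat_lit 517) (C.node (nat_lit 0) (nat_lit 3) (nat_lit 8) (C.cons (nat_lit 281)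
  (C.pat (nat_lit 0) (nat_lit 72824865) (nat_lit 78673905087568376474762962731271)) (C.cons (nat_lit 265) (C.node (nat_lit 0) (nat_lit 4) (nat_lit 8) (C.cons (nat_lit 273) (C.node (nat_lit 0) (nat_lit 3) (nat_lit 4) (C.cons (nat_lit 537) (C.ref (nat_lit 3) (nat_lit 453242008080)) C.nil)) C.nil)) C.nil))) C.nil)) (C.cons (nat_lit 133) (C.node (nat_lit 0) (nat_lit 4) (nat_lit 7) (C.cons (nat_lit 145) (C.ref (nat_lit 16) (nat_lit 654820258320)) C.nil)) C.nil))) (List.cons (C.node (nat_lit 0) (nat_lit 1) (nat_lit 8) (C.cons (nat_lit 263) (C.node (nat_lit 0) (nat_lit 1) (nat_lit 9) (C.cons (nat_lit 515) (C.ref (nat_lit 17) (nat_lit 654820258320)) C.nil)) (C.cons (nat_lit 259) (C.node (nat_lit 0) (nat_lit 1) (nat_lit 2) (C.cons (nat_lit 519) (C.ref (nat_lit 17) (nat_lit 590395748880)) (C.cons (nat_lit 7) (C.node (nat_lit 0) (nat_lit 1) (nat_lit 9) (C.cons (nat_lit 515) (C.node (nat_lit 0) (nat_lit 2) (nat_lit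 7) (C.cons (nat_lit 149) (C.node (nat_lit 0) (nat_lit 2) (nat_lit 8) (C.cons (nat_lit 261) (C.node (nat_lit 0) (nat_lit 2) (nat_lit 9) C.nil) C.nil)) (C.cons (nat_lit 133) (C.node (nat_lit 0) (nat_lit 4) (nat_lit 7) C.nil) C.nil))) C.nil)) C.nil))) C.nil))) (List.cons (C.node (nat_lit 0) (nat_lit 1) (nat_lit 2) (C.cons (nat_lit 519) (C.node (nat_lit 0) (nat_lit 1) (nat_lit 3) (C.cons (nat_lit 267) (C.node (nat_lit 0) (nat_lit 2) (nat_lit 4) (C.cons (nat_lit 277) (C.node (nat_lit 0) (nat_lit 3) (nat_lit 4) (C.cons (nat_lit 537) (C.pat (nat_lit 0) (nat_lit 72890657) (nat_lit 78674214574939381061266518508039)) C.nil)) C.nil)) C.nil)) (C.cons (nat_lit 263) (C.node (nat_lit 0) (nat_lit 1) (nat_lit 3) (C.cons (nat_lit 523) (C.node (nat_lit 0) (nat_lit 2) (nat_lit 4) (C.cons (nat_lit 533) (C.node (nat_lit 0) (nat_lit 3) (nat_lit 4) (C.cons (nat_lit 281) (C.pat (nat_lit 0) (nat_lit 72955937) (nat_lit 78673905094651926199067455717639))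 C.nil)) C.nil)) C.nil)) C.nil))) (List.cons (C.node (nat_lit 0) (nat_lit 1) (nat_lit 7) (C.cons (nat_lit 139) (C.ref (nat_lit 18) (nat_lit 654820258320)) (C.cons (nat_lit 135) (C.ref (nat_lit 18) (nat_lit 654820254480)) (C.cons (nat_lit 131) (C.node (nat_lit 0) (nat_lit 2) (nat_lit 7) (C.cons (nat_lit 149) (C.node (nat_lit 0) (nat_lit 3) (nat_lit 7) (C.cons (nat_lit 137) (C.node (nat_lit 0) (nat_lit 2) (nat_lit 8) (C.cons (nat_lit 263) (C.node (nat_lit 0) (nat_lit 2) (nat_lit 9) (C.cons (nat_lit 517) (C.ref (nat_lit 16) (nat_lit 654820196640)) C.nil)) (C.cons (nat_lit 261) (C.node (nat_lit 0) (nat_lit 1) (nat_lit 2) (C.cons (nat_lit 519) (C.ref (nat_lit 16) (nat_lit 590395687200)) (C.cons (nat_lit 7) (C.node (nat_lit 0) (nat_lit 2) (nat_lit 9) C.nil) C.nil))) C.nil))) C.nil)) (C.cons (nat_lit 133) (C.node (nat_lit 0) (nat_lit 3) (nat_lit 7) (C.cons (nat_lit 153) (C.node (nat_lit 0) (nat_lit 3) (nat_lit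 8) (C.cons (nat_lit 267) (C.node (nat_lit 0) (nat_lit 3) (nat_lit 9) (C.cons (nat_lit 521) (C.ref (nat_lit 16) (nat_lit 654820131120)) C.nil)) (C.cons (nat_lit 265) (C.node (nat_lit 0) (nat_lit 1) (nat_lit 3) (C.cons (nat_lit 523) (C.ref (nat_lit 16) (nat_lit 590395621680)) (C.cons (nat_lit 11) (C.node (nat_lit 0) (nat_lit 3) (nat_lit 9) C.nil) C.nil))) C.nil))) (C.cons (nat_lit 137) (C.node (nat_lit 0) (nat_lit 4) (nat_lit 7) (C.cons (nat_lit 145) (C.ref (nat_lit 19) (nat_lit 654820258320)) C.nil)) C.nil))) C.nil))) C.nil)))) (List.cons (C.node (nat_lit 0) (nat_lit 2) (nat_lit 6) (C.cons (nat_lit 85) (C.ref (nat_lit 11) (nat_lit 654804468240)) (C.cons (nat_lit 69) (C.node (nat_lit 0) (nat_lit 4) (nat_lit 6) (C.cons (nat_lit 81) (C.node (nat_lit 0) (nat_lit 3) (nat_lit 7) (C.cons (nat_lit 153) (C.node (nat_lit 0) (nat_lit 3) (nat_lit 8) (C.cons (nat_lit 269) (C.node (nat_lit 0) (nat_lit 3) (nat_lit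 9) (C.cons (nat_lit 521) (C.node (nat_lit 0) (nat_lit 4) (nat_lit 8) (C.cons (nat_lit 273) (C.ref (nat_lit 8) (nat_lit 641702568240)) C.nil)) C.nil)) (C.cons (nat_lit 265) (C.node (nat_lit 0) (nat_lit 2) (nat_lit 3) (C.cons (nat_lit 525) (C.node (nat_lit 0) (nat_lit 4) (nat_lit 9) (C.cons (nat_lit 529)
  (C.ref (nat_lit 8) (nat_lit 572999868720)) C.nil)) (C.cons (nat_lit 13) (C.node (nat_lit 0) (nat_lit 3) (nat_lit 9) C.nil) C.nil))) C.nil))) (C.cons (nat_lit 137) (C.node (nat_lit 0) (nat_lit 4) (nat_lit 7) (C.cons (nat_lit 145) (C.node (nat_lit 0) (nat_lit 2) (nat_lit 8) (C.cons (nat_lit 277) (C.node (nat_lit 0) (nat_lit 3) (nat_lit 8) C.nil) (C.cons (nat_lit 269) (C.node (nat_lit 0) (nat_lit 4) (nat_lit 8) C.nil) C.nil))) C.nil)) C.nil))) C.nil)) C.nil))) (List.cons (C.node (nat_lit 0) (nat_lit 2) (nat_lit 6) (C.cons (nat_lit 85) (C.ref (nat_lit 13) (nat_lit 654804468240)) (C.cons (nat_lit 69)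 (C.node (nat_lit 0) (nat_lit 4) (nat_lit 6) (C.cons (nat_lit 81) (C.node (nat_lit 0) (nat_lit 2) (nat_lit 7) (C.cons (nat_lit 149) (C.node (nat_lit 0) (nat_lit 3) (nat_lit 7) C.nil) (C.cons (nat_lit 141) (C.node (nat_lit 0) (nat_lit 4) (nat_lit 7) C.nil) C.nil))) C.nil)) C.nil))) (List.cons (C.node (nat_lit 0) (nat_lit 1) (nat_lit 2) (C.cons (nat_lit 519) (C.ref (nat_lit 21) (nat_lit 582342685200)) (C.cons (nat_lit 7) (C.node (nat_lit 0) (nat_lit 1) (nat_lit 9) (C.cons (nat_lit 515) (C.ref (nat_lit 22) (nat_lit 654820258320)) C.nil)) C.nil))) (List.cons (C.node (nat_lit 0) (nat_lit 1) (nat_lit 8) (C.cons (nat_lit 263) (C.node (nat_lit 0) (nat_lit 1) (nat_lit 9) (C.cons (nat_lit 515) (C.ref (nat_lit 21) (nat_lit 650793726480)) C.nil)) (C.cons (nat_lit 259) (C.ref (nat_lit 23) (nat_lit 654820258320)) C.nil))) (List.cons (C.node (nat_lit 0) (nat_lit 1) (nat_lit 7) (C.cons (nat_lit 135) (C.node (nat_lit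 0) (nat_lit 1) (nat_lit 8) (C.cons (nat_lit 259) (C.node (nat_lit 0) (nat_lit 1) (nat_lit 9) (C.cons (nat_lit 515) (C.ref (nat_lit 21) (nat_lit 654820258320)) C.nil)) C.nil)) (C.cons (nat_lit 131) (C.ref (nat_lit 24) (nat_lit 654820258320)) C.nil))) (List.cons (C.node (nat_lit 0) (nat_lit 1) (nat_lit 6) (C.cons (nat_lit 75) (C.ref (nat_lit 25) (nat_lit 654820258320)) (C.cons (nat_lit 71) (C.ref (nat_lit 25) (nat_lit 654820254480)) (C.cons (nat_lit 67) (C.node (nat_lit 0) (nat_lit 1) (nat_lit 7) (C.cons (nat_lit 139) (C.ref (nat_lit 24) (nat_lit 654568600080)) (C.cons (nat_lit 135) (C.ref (nat_lit 24) (nat_lit 654568596240)) (C.cons (nat_lit 131) (C.node (nat_lit 0) (nat_lit 1) (nat_lit 8) (C.cons (nat_lit 267) (C.ref (nat_lit 23) (nat_lit 650290410000)) (C.cons (nat_lit 263) (C.ref (nat_lit 23) (nat_lit 650290406160)) (C.cons (nat_lit 259) (C.node (nat_lit 0) (nat_lit 1) (nat_lit 2) (C.cons (nat_lit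 519) (C.node (nat_lit 0) (nat_lit 1) (nat_lit 3) (C.cons (nat_lit 11) (C.ref (nat_lit 22) (nat_lit 581587706640)) C.nil)) (C.cons (nat_lit 15) (C.node (nat_lit 0) (nat_lit 1) (nat_lit 9) (C.cons (nat_lit 515) (C.node (nat_lit 0) (nat_lit 2) (nat_lit 6) (C.cons (nat_lit 85) (C.node (nat_lit 0) (nat_lit 2) (nat_lit 7) (C.cons (nat_lit 133) (C.node (nat_lit 0) (nat_lit 2) (nat_lit 8) (C.cons (nat_lit 261) (C.node (nat_lit 0) (nat_lit 2) (nat_lit 9) C.nil) C.nil)) C.nil)) (C.cons (nat_lit 69) (C.node (nat_lit 0) (nat_lit 2) (nat_lit 7) (C.cons (nat_lit 149) (C.node (nat_lit 0) (nat_lit 2) (nat_lit 8) (C.cons (nat_lit 261) (C.node (nat_lit 0) (nat_lit 2) (nat_lit 9) C.nil) C.nil)) (C.cons (nat_lit 133) (C.node (nat_lit 0) (nat_lit 2) (nat_lit 8) (C.cons (nat_lit 277) (C.node (nat_lit 0) (nat_lit 2) (nat_lit 9) C.nil) C.nil)) C.nil))) C.nil))) C.nil)) (C.cons (nat_lit 7) (C.node (nat_lit 0) (nat_lit 1)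 (nat_lit 3) (C.cons (nat_lit 523) (C.ref (nat_lit 22) (nat_lit 581587710480)) (C.cons (nat_lit 11) (C.node (nat_lit 0) (nat_lit 1) (nat_lit 9) (C.cons (nat_lit 515) (C.node (nat_lit 0) (nat_lit 2) (nat_lit 6) (C.cons (nat_lit 85) (C.node (nat_lit 0) (nat_lit 3) (nat_lit 6) C.nil) (C.cons (nat_lit 77) (C.node (nat_lit 0) (nat_lit 4) (nat_lit 6) C.nil) C.nil))) C.nil)) C.nil))) C.nil)))) C.nil)))) C.nil)))) C.nil)))) (List.cons (C.node (nat_lit 0) (nat_lit 2) (nat_lit 5) (C.cons (nat_lit 45) (C.node (nat_lit 0) (nat_lit 1) (nat_lit 6) (C.cons (nat_lit 75) (C.ref (nat_lit 14) (nat_lit 654820258320)) (C.cons (nat_lit 71)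
  (C.ref (nat_lit 14) (nat_lit 654820254480)) (C.cons (nat_lit 67) (C.node (nat_lit 0) (nat_lit 2) (nat_lit 6) (C.cons (nat_lit 85) (C.node (nat_lit 0) (nat_lit 3) (nat_lit 6) (C.cons (nat_lit 73) (C.ref (nat_lit 15) (nat_lit 654820258320)) C.nil)) (C.cons (nat_lit 69) (C.node (nat_lit 0) (nat_lit 3) (nat_lit 6) (C.cons (nat_lit 89) (C.ref (nat_lit 15) (nat_lit 654820254480)) (C.cons (nat_lit 73) (C.node (nat_lit 0) (nat_lit 4) (nat_lit 6) (C.cons (nat_lit 81) (C.ref (nat_lit 20) (nat_lit 654820258320)) C.nil)) C.nil))) C.nil))) C.nil)))) (C.cons (nat_lit 37) (C.node (nat_lit 0) (nat_lit 3) (nat_lit 5) (C.cons (nat_lit 41) (C.ref (nat_lit 26) (nat_lit 654820258320)) C.nil)) C.nil))) (List.cons (C.node (nat_lit 0) (nat_lit 1) (nat_lit 2) (C.cons (nat_lit 519) (C.node (nat_lit 0) (nat_lit 2) (nat_lit 7) (C.cons (nat_lit 149) (C.ref (nat_lit 16) (nat_lit 590112571920)) (C.cons (nat_lit 133) (C.node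 (nat_lit 0) (nat_lit 4) (nat_lit 7) C.nil) C.nil))) (C.cons (nat_lit 7) (C.node (nat_lit 0) (nat_lit 1) (nat_lit 9) C.nil) C.nil))) (List.cons (C.node (nat_lit 0) (nat_lit 1) (nat_lit 8) (C.cons (nat_lit 263) (C.node (nat_lit 0) (nat_lit 1) (nat_lit 9) (C.cons (nat_lit 515) (C.node (nat_lit 0) (nat_lit 2) (nat_lit 7) (C.cons (nat_lit 149) (C.ref (nat_lit 16) (nat_lit 654537081360)) (C.cons (nat_lit 133) (C.node (nat_lit 0) (nat_lit 4) (nat_lit 7) C.nil) C.nil))) C.nil)) (C.cons (nat_lit 259) (C.ref (nat_lit 28) (nat_lit 654820258320)) C.nil))) List.nil)))))))))))))))))))))))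

theorem ok10_7 : okL par10 (nat_lit 30) c10_7 (nat_lit 7) = true := by decide +kernel

noncomputable def c10_30 : List C :=
  (List.cons (C.node (nat_lit 0) (nat_lit 1) (nat_lit 7) (C.cons (nat_lit 139) (C.ref (nat_lit 29) (nat_lit 654820258320)) (C.cons (nat_lit 135) (C.ref (nat_lit 29) (nat_lit 654820254480)) (C.cons (nat_lit 131) (C.node (nat_lit 0) (nat_lit 1) (nat_lit 8) (C.cons (nat_lit 267) (C.ref (nat_lit 28) (nat_lit 650793726480)) (C.cons (nat_lit 263) (C.ref (nat_lit 28) (nat_lit 650793722640)) (C.cons (nat_lit 259) (C.node (nat_lit 0) (nat_lit 1) (nat_lit 2) (C.cons (nat_lit 519) (C.node (nat_lit 0) (nat_lit 1) (nat_lit 3) C.nil) (C.cons (nat_lit 15) (C.node (nat_lit 0) (nat_lit 1) (nat_lit 9) C.nil) C.nil))) C.nil)))) C.nil)))) (List.cons (C.node (nat_lit 0) (nat_lit 2) (nat_lit 6) (C.cons (nat_lit 77) (C.ref (nat_lit 20) (nat_lit 654804529680)) (C.cons (nat_lit 69) (C.node (nat_lit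 0) (nat_lit 3) (nat_lit 6) (C.cons (nat_lit 73) (C.ref (nat_lit 30) (nat_lit 654820258320)) C.nil)) C.nil))) (List.cons (C.big (C.cons (nat_lit 543) (C.ref (nat_lit 0) (nat_lit 654820258320)) (C.cons (nat_lit 287) (C.ref (nat_lit 0) (nat_lit 590395748880)) (C.cons (nat_lit 159) (C.ref (nat_lit 0) (nat_lit 521944707600)) (C.cons (nat_lit 95) (C.ref (nat_lit 0) (nat_lit 453242008080)) (C.cons (nat_lit 63) (C.ref (nat_lit 0) (nat_lit 384523579920)) C.nil))))) (C.big (C.cons (nat_lit 541) (C.ref (nat_lit 2) (nat_lit 654820258320)) (C.cons (nat_lit 539) (C.ref (nat_lit 2) (nat_lit 654820258080)) (C.cons (nat_lit 535) (C.ref (nat_lit 2) (nat_lit 654820254000)) (C.cons (nat_lit 527) (C.ref (nat_lit 2) (nat_lit 654820188480)) (C.cons (nat_lit 285) (C.ref (nat_lit 2) (nat_lit 590395748880)) (C.cons (nat_lit 283) (C.ref (nat_lit 2) (nat_lit 590395748640)) (C.cons (nat_lit 279) (C.ref (nat_lit 2) (nat_lit 590395744560))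 (C.cons (nat_lit 271) (C.ref (nat_lit 2) (nat_lit 590395679040)) (C.cons (nat_lit 157) (C.ref (nat_lit 2) (nat_lit 521944707600)) (C.cons (nat_lit 155) (C.ref (nat_lit 2) (nat_lit 521944707360)) (C.cons (nat_lit 151) (C.ref (nat_lit 2) (nat_lit 521944703280)) (C.cons (nat_lit 143) (C.ref (nat_lit 2) (nat_lit 521944637760)) (C.cons (nat_lit 93) (C.ref (nat_lit 2) (nat_lit 453242008080)) (C.cons (nat_lit 91) (C.ref (nat_lit 2) (nat_lit 453242007840)) (C.cons (nat_lit 87) (C.ref (nat_lit 2) (nat_lit 453242003760)) (C.cons (nat_lit 79) (C.ref (nat_lit 2) (nat_lit 453241938240)) (C.cons (nat_lit 61) (C.ref (nat_lit 2) (nat_lit 384523579920)) (C.cons (nat_lit 59) (C.ref (nat_lit 2) (nat_lit 384523579680)) (C.cons (nat_lit 55) (C.ref (nat_lit 2) (nat_lit 384523575600)) (C.cons (nat_lit 47) (C.ref (nat_lit 2) (nat_lit 384523510080)) (C.cons (nat_lit 31) (C.big C.nil (C.node (nat_lit 0) (nat_lit 1) (nat_lit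 5) (C.cons (nat_lit 35) (C.node (nat_lit 0) (nat_lit 1) (nat_lit 6) (C.cons (nat_lit 67) (C.node (nat_lit 0) (nat_lit 1) (nat_lit 7) (C.cons (nat_lit 131) (C.node (nat_lit 0) (nat_lit 1) (nat_lit 8) (C.cons (nat_lit 259) (C.node (nat_lit 0) (nat_lit 1) (nat_lit 9) (C.cons (nat_lit 515) (C.node (nat_lit 0) (nat_lit 2) (nat_lit 5) (C.cons (nat_lit 37) (C.node (nat_lit 0) (nat_lit 2) (nat_lit 6) (C.cons (nat_lit 69) (C.node (nat_lit 0) (nat_lit 2) (nat_lit 7) (C.cons (nat_lit 133) (C.node (nat_lit 0) (nat_lit 2) (nat_lit 8) C.nil) C.nil)) C.nil)) C.nil)) C.nil)) C.nil)) C.nil)) C.nil)) C.nil))) C.nil))))))))))))))))))))) (C.node (nat_lit 0) (nat_lit 1) (nat_lit 5) (C.cons (nat_lit 51) (C.ref (nat_lit 27) (nat_lit 654820258320)) (C.cons (nat_lit 43) (C.ref (nat_lit 27) (nat_lit 654820196880)) (C.cons (nat_lit 39) (C.ref (nat_lit 27) (nat_lit 654820131600)) (C.cons (nat_lit 35) (C.node (nat_lit 0) (nat_lit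 2) (nat_lit 5) (C.cons (nat_lit 53) (C.node (nat_lit 0) (nat_lit 3) (nat_lit 5) (C.cons (nat_lit 41) (C.ref (nat_lit 26) (nat_lit 654820258080)) C.nil)) (C.cons (nat_lit 45) (C.node (nat_lit 0) (nat_lit 4) (nat_lit 5) (C.cons (nat_lit 49) (C.ref (nat_lit 26) (nat_lit 654820196640)) C.nil)) (C.cons (nat_lit 37) (C.node (nat_lit 0) (nat_lit 3) (nat_lit 5) (C.cons (nat_lit 57) (C.ref (nat_lit 26) (nat_lit 654820254000)) (C.cons (nat_lit 41)
  (C.node (nat_lit 0) (nat_lit 4) (nat_lit 5) (C.cons (nat_lit 49) (C.node (nat_lit 0) (nat_lit 1) (nat_lit 6) (C.cons (nat_lit 83) (C.ref (nat_lit 31) (nat_lit 654820258320)) (C.cons (nat_lit 75) (C.ref (nat_lit 31) (nat_lit 654820196880)) (C.cons (nat_lit 71) (C.ref (nat_lit 31) (nat_lit 654820131600)) (C.cons (nat_lit 67) (C.node (nat_lit 0) (nat_lit 2) (nat_lit 6) (C.cons (nat_lit 85) (C.node (nat_lit 0) (nat_lit 3) (nat_lit 6) (C.cons (nat_lit 73) (C.ref (nat_lit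 30) (nat_lit 654820258080)) C.nil)) (C.cons (nat_lit 77) (C.node (nat_lit 0) (nat_lit 4) (nat_lit 6) (C.cons (nat_lit 81) (C.ref (nat_lit 30) (nat_lit 654820196640)) C.nil)) (C.cons (nat_lit 69) (C.node (nat_lit 0) (nat_lit 3) (nat_lit 6) (C.cons (nat_lit 89) (C.ref (nat_lit 30) (nat_lit 654820254000)) (C.cons (nat_lit 73) (C.node (nat_lit 0) (nat_lit 4) (nat_lit 6) (C.cons (nat_lit 81) (C.node (nat_lit 0) (nat_lit 1) (nat_lit 7) (C.cons (nat_lit 147) (C.node (nat_lit 0) (nat_lit 2) (nat_lit 7) (C.cons (nat_lit 141) (C.ref (nat_lit 19) (nat_lit 654537142800)) C.nil)) (C.cons (nat_lit 139) (C.node (nat_lit 0) (nat_lit 2) (nat_lit 7) (C.cons (nat_lit 149) (C.ref (nat_lit 19) (nat_lit 654537081360)) C.nil)) (C.cons (nat_lit 135) (C.node (nat_lit 0) (nat_lit 3) (nat_lit 7) (C.cons (nat_lit 153) (C.ref (nat_lit 19) (nat_lit 654537016080)) C.nil)) C.nil)))) C.nil)) C.nil))) C.nil)))) C.nil))))) C.nil))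 C.nil))) C.nil)))) C.nil))))))) (List.cons (C.node (nat_lit 2) (nat_lit 5) (nat_lit 6) (C.cons (nat_lit 228) (C.node (nat_lit 4) (nat_lit 6) (nat_lit 7) (C.cons (nat_lit 208) (C.node (nat_lit 2) (nat_lit 6) (nat_lit 8) (C.cons (nat_lit 340) (C.node (nat_lit 2) (nat_lit 6) (nat_lit 9) (C.cons (nat_lit 580) (C.node (nat_lit 3) (nat_lit 4) (nat_lit 6) (C.cons (nat_lit 88) (C.node (nat_lit 3) (nat_lit 6) (nat_lit 8) (C.cons (nat_lit 328) (C.node (nat_lit 4) (nat_lit 5) (nat_lit 6) (C.cons (nat_lit 112) (C.node (nat_lit 5) (nat_lit 6) (nat_lit 8) C.nil) C.nil)) C.nil)) C.nil)) C.nil)) (C.cons (nat_lit 324) (C.node (nat_lit 2) (nat_lit 4) (nat_lit 6) (C.cons (nat_lit 596) (C.node (nat_lit 1) (nat_lit 2) (nat_lit 4) (C.cons (nat_lit 30) (C.miq (nat_lit 1645712432) (nat_lit 162013787317174359267410489)) (C.cons (nat_lit 22) (C.node (nat_lit 2) (nat_lit 7) (nat_lit 9) (C.cons (nat_lit 652) (C.miq (nat_lit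 843151712) (nat_lit 26598932312472332092507073)) (C.cons (nat_lit 644) (C.node (nat_lit 3) (nat_lit 7) (nat_lit 9) C.nil) C.nil))) C.nil))) (C.cons (nat_lit 84) (C.node (nat_lit 2) (nat_lit 6) (nat_lit 9) (C.cons (nat_lit 580) (C.node (nat_lit 4) (nat_lit 6) (nat_lit 9) (C.cons (nat_lit 592) (C.node (nat_lit 1) (nat_lit 2) (nat_lit 9) C.nil) C.nil)) C.nil)) C.nil))) C.nil))) C.nil)) (C.cons (nat_lit 100) (C.node (nat_lit 2) (nat_lit 5) (nat_lit 7) (C.cons (nat_lit 164) (C.node (nat_lit 2) (nat_lit 6) (nat_lit 7) (C.cons (nat_lit 196) (C.node (nat_lit 2) (nat_lit 6) (nat_lit 8) (C.cons (nat_lit 340) (C.node (nat_lit 2) (nat_lit 6) (nat_lit 9) (C.cons (nat_lit 580) (C.node (nat_lit 3) (nat_lit 4) (nat_lit 6) (C.cons (nat_lit 88) (C.node (nat_lit 3) (nat_lit 6) (nat_lit 8) C.nil) C.nil)) C.nil)) (C.cons (nat_lit 324) (C.node (nat_lit 2) (nat_lit 4) (nat_lit 6) (C.cons (nat_lit 596) (C.node (nat_lit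 1) (nat_lit 2) (nat_lit 4) (C.cons (nat_lit 30) (C.miq (nat_lit 1645712432) (nat_lit 162013787317174359267410489)) (C.cons (nat_lit 22) (C.node (nat_lit 1) (nat_lit 2) (nat_lit 3) C.nil) C.nil))) (C.cons (nat_lit 84) (C.node (nat_lit 2) (nat_lit 6) (nat_lit 9) C.nil) C.nil))) C.nil))) C.nil)) C.nil)) C.nil))) (List.cons (C.node (nat_lit 1) (nat_lit 2) (nat_lit 4) (C.cons (nat_lit 30) (C.miq (nat_lit 1898353712) (nat_lit 84642534879289540638212665)) (C.cons (nat_lit 22) (C.node (nat_lit 3) (nat_lit 7) (nat_lit 9) (C.cons (nat_lit 652) (C.miq (nat_lit 1634862227) (nat_lit 161997480251019234244297273)) (C.cons (nat_lit 648) (C.node (nat_lit 4) (nat_lit 6) (nat_lit 9) (C.cons (nat_lit 596) (C.miq (nat_lit 826410902) (nat_lit 26597788469943365369332673)) (C.cons (nat_lit 592)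
  (C.node (nat_lit 1) (nat_lit 2) (nat_lit 3) (C.cons (nat_lit 526) (C.node (nat_lit 1) (nat_lit 8) (nat_lit 9) (C.cons (nat_lit 770) (C.node (nat_lit 3) (nat_lit 8) (nat_lit 9) (C.cons (nat_lit 776) (C.node (nat_lit 1) (nat_lit 3) (nat_lit 4) (C.cons (nat_lit 282) (C.node (nat_lit 2) (nat_lit 3) (nat_lit 4) (C.cons (nat_lit 28) (C.node (nat_lit 3) (nat_lit 4) (nat_lit 6) (C.cons (nat_lit 88) (C.node (nat_lit 3) (nat_lit 6) (nat_lit 8) C.nil) C.nil)) C.nil)) (C.cons (nat_lit 26) (C.node (nat_lit 1) (nat_lit 3) (nat_lit 8) (C.cons (nat_lit 266) (C.node (nat_lit 1) (nat_lit 4) (nat_lit 8) (C.cons (nat_lit 274) (C.node (nat_lit 2) (nat_lit 3) (nat_lit 4) C.nil) C.nil)) C.nil)) C.nil))) C.nil)) C.nil)) (C.cons (nat_lit 14) (C.node (nat_lit 1) (nat_lit 2) (nat_lit 9) (C.cons (nat_lit 518) (C.node (nat_lit 1) (nat_lit 3) (nat_lit 4) (C.cons (nat_lit 282) (C.node (nat_lit 1) (nat_lit 3) (nat_lit 9) (C.cons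 (nat_lit 522) (C.node (nat_lit 1) (nat_lit 8) (nat_lit 9) (C.cons (nat_lit 770) (C.node (nat_lit 2) (nat_lit 3) (nat_lit 4) (C.cons (nat_lit 28) (C.node (nat_lit 3) (nat_lit 4) (nat_lit 6) (C.cons (nat_lit 88) (C.node (nat_lit 3) (nat_lit 4) (nat_lit 7) C.nil) C.nil)) C.nil)) C.nil)) C.nil)) (C.cons (nat_lit 26) (C.node (nat_lit 1) (nat_lit 4) (nat_lit 8) (C.cons (nat_lit 274) (C.node (nat_lit 1) (nat_lit 3) (nat_lit 8) (C.cons (nat_lit 778) (C.node (nat_lit 2) (nat_lit 8) (nat_lit 9) (C.cons (nat_lit 788) (C.miq (nat_lit 672614704) (nat_lit 466648115157919467301438009)) C.nil)) (C.cons (nat_lit 266) (C.node (nat_lit 2) (nat_lit 3) (nat_lit 9) C.nil) C.nil))) C.nil)) C.nil))) C.nil)) C.nil))) C.nil))) C.nil))) C.nil))) (List.cons (C.node (nat_lit 2) (nat_lit 6) (nat_lit 7) (C.cons (nat_lit 228) (C.node (nat_lit 2) (nat_lit 5) (nat_lit 9) (C.cons (nat_lit 548) (C.node (nat_lit 4) (nat_lit 6) (nat_lit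 7) (C.cons (nat_lit 208) (C.node (nat_lit 5) (nat_lit 6) (nat_lit 9) (C.cons (nat_lit 608) (C.node (nat_lit 5) (nat_lit 7) (nat_lit 9) (C.cons (nat_lit 672) (C.node (nat_lit 2) (nat_lit 6) (nat_lit 9) (C.cons (nat_lit 596) (C.node (nat_lit 2) (nat_lit 6) (nat_lit 8) C.nil) C.nil)) C.nil)) C.nil)) C.nil)) C.nil)) (C.cons (nat_lit 196) (C.node (nat_lit 2) (nat_lit 5) (nat_lit 6) (C.cons (nat_lit 612) (C.node (nat_lit 2) (nat_lit 5) (nat_lit 7) (C.cons (nat_lit 164) (C.node (nat_lit 4) (nat_lit 6) (nat_lit 9) (C.cons (nat_lit 592) (C.node (nat_lit 5) (nat_lit 7) (nat_lit 9) (C.cons (nat_lit 672) (C.node (nat_lit 4) (nat_lit 6) (nat_lit 7) C.nil) C.nil)) C.nil)) C.nil)) (C.cons (nat_lit 100) (C.node (nat_lit 5) (nat_lit 6) (nat_lit 9) (C.cons (nat_lit 608) (C.node (nat_lit 2) (nat_lit 5) (nat_lit 7) (C.cons (nat_lit 676) (C.node (nat_lit 3) (nat_lit 7) (nat_lit 9) (C.cons (nat_lit 648) (C.node (nat_lit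 2) (nat_lit 6) (nat_lit 9) (C.cons (nat_lit 580) (C.node (nat_lit 4) (nat_lit 6) (nat_lit 9) C.nil) C.nil)) C.nil)) (C.cons (nat_lit 164) (C.node (nat_lit 2) (nat_lit 5) (nat_lit 9) (C.cons (nat_lit 548) (C.node (nat_lit 5) (nat_lit 7) (nat_lit 9) C.nil) C.nil)) C.nil))) C.nil)) C.nil))) C.nil))) (List.cons (C.node (nat_lit 1) (nat_lit 6) (nat_lit 7) (C.cons (nat_lit 198) (C.miq (nat_lit 1951473718) (nat_lit 60449943478000268599754829)) (C.cons (nat_lit 194) (C.node (nat_lit 2) (nat_lit 3) (nat_lit 5) (C.cons (nat_lit 172) (C.miq (nat_lit 1947541603) (nat_lit 60449463862652264797306957)) (C.cons (nat_lit 44) (C.node (nat_lit 2) (nat_lit 4) (nat_lit 5) (C.cons (nat_lit 116) (C.miq (nat_lit 639059248) (nat_lit 234534357602756595190268473)) (C.cons (nat_lit 52) (C.node (nat_lit 3) (nat_lit 6) (nat_lit 7) (C.cons (nat_lit 216) (C.miq (nat_lit 560399668) (nat_lit 234534357653140616026522169)) (C.cons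 (nat_lit 200) (C.node (nat_lit 1) (nat_lit 2) (nat_lit 6) (C.cons (nat_lit 582) (C.node (nat_lit 1) (nat_lit 2) (nat_lit 7) (C.cons (nat_lit 134) (C.node (nat_lit 4) (nat_lit 6) (nat_lit 9) (C.cons (nat_lit 592) (C.node (nat_lit 5) (nat_lit 6) (nat_lit 9) (C.cons (nat_lit 608) (C.node (nat_lit 1) (nat_lit 2) (nat_lit 3) (C.cons (nat_lit 30)
  (C.node (nat_lit 1) (nat_lit 3) (nat_lit 8) (C.cons (nat_lit 778) (C.miq (nat_lit 2166854464) (nat_lit 162013787368402805029405241)) (C.cons (nat_lit 266) (C.node (nat_lit 1) (nat_lit 3) (nat_lit 9) (C.cons (nat_lit 522) (C.node (nat_lit 1) (nat_lit 7) (nat_lit 8) (C.cons (nat_lit 402) (C.miq (nat_lit 1130828296) (nat_lit 241792579522488046257766695)) (C.cons (nat_lit 386) (C.node (nat_lit 1) (nat_lit 4) (nat_lit 7) (C.cons (nat_lit 658) (C.miq (nat_lit 1898353712) (nat_lit 703612554521979678087774777)) (C.cons (nat_lit 146) (C.node (nat_lit 4) (nat_lit 7) (nat_lit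 9) (C.cons (nat_lit 656) (C.node (nat_lit 1) (nat_lit 4) (nat_lit 8) (C.cons (nat_lit 786) (C.miq (nat_lit 2166789168) (nat_lit 703612554558008475106738745)) (C.cons (nat_lit 274) (C.node (nat_lit 1) (nat_lit 4) (nat_lit 9) (C.cons (nat_lit 530) (C.node (nat_lit 1) (nat_lit 8) (nat_lit 9) (C.cons (nat_lit 770) (C.node (nat_lit 2) (nat_lit 4) (nat_lit 6) (C.cons (nat_lit 340) (C.miq (nat_lit 1131815176) (nat_lit 241791435824355742553538855)) (C.cons (nat_lit 84) (C.node (nat_lit 2) (nat_lit 6) (nat_lit 8) (C.cons (nat_lit 324) (C.node (nat_lit 2) (nat_lit 4) (nat_lit 8) (C.cons (nat_lit 788) (C.miq (nat_lit 2182583344) (nat_lit 162013787371217554795856441)) (C.cons (nat_lit 276) (C.node (nat_lit 3) (nat_lit 4) (nat_lit 6) C.nil) C.nil))) C.nil)) C.nil))) C.nil)) C.nil)) C.nil))) C.nil)) C.nil))) C.nil))) C.nil)) C.nil))) (C.cons (nat_lit 14) (C.node (nat_lit 1) (nat_lit 2) (nat_lit 4) (C.cons (nat_lit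 22) (C.node (nat_lit 1) (nat_lit 3) (nat_lit 4) (C.cons (nat_lit 282) (C.node (nat_lit 1) (nat_lit 3) (nat_lit 9) (C.cons (nat_lit 522) (C.node (nat_lit 1) (nat_lit 7) (nat_lit 8) (C.cons (nat_lit 386) (C.node (nat_lit 1) (nat_lit 8) (nat_lit 9) (C.cons (nat_lit 770) (C.node (nat_lit 2) (nat_lit 3) (nat_lit 4) (C.cons (nat_lit 28) (C.node (nat_lit 3) (nat_lit 4) (nat_lit 6) (C.cons (nat_lit 88) (C.node (nat_lit 3) (nat_lit 4) (nat_lit 7) (C.cons (nat_lit 152) (C.node (nat_lit 3) (nat_lit 6) (nat_lit 8) (C.cons (nat_lit 328) (C.node (nat_lit 2) (nat_lit 6) (nat_lit 7) (C.cons (nat_lit 228) (C.node (nat_lit 4) (nat_lit 6) (nat_lit 7) C.nil) C.nil)) C.nil)) C.nil)) C.nil)) C.nil)) C.nil)) C.nil)) C.nil)) (C.cons (nat_lit 26) (C.node (nat_lit 1) (nat_lit 3) (nat_lit 8) (C.cons (nat_lit 778) (C.node (nat_lit 2) (nat_lit 4) (nat_lit 9) (C.cons (nat_lit 788) (C.miq (nat_lit 1921057939) (nat_lit 356635680925685008181101113))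 (C.cons (nat_lit 532) (C.node (nat_lit 2) (nat_lit 8) (nat_lit 9) (C.cons (nat_lit 772) (C.node (nat_lit 4) (nat_lit 8) (nat_lit 9) (C.cons (nat_lit 784) (C.node (nat_lit 1) (nat_lit 4) (nat_lit 8) (C.cons (nat_lit 402) (C.node (nat_lit 1) (nat_lit 4) (nat_lit 9) (C.cons (nat_lit 530) (C.node (nat_lit 3) (nat_lit 4) (nat_lit 7) (C.cons (nat_lit 152) (C.node (nat_lit 4) (nat_lit 7) (nat_lit 9) (C.cons (nat_lit 656) (C.node (nat_lit 2) (nat_lit 4) (nat_lit 6) (C.cons (nat_lit 340) (C.miq (nat_lit 826410886) (nat_lit 26597788469942265840927681)) (C.cons (nat_lit 84) (C.node (nat_lit 2) (nat_lit 7) (nat_lit 8) (C.cons (nat_lit 396) (C.miq (nat_lit 1668547201) (nat_lit 183758255682857026488238375)) C.nil)) C.nil))) C.nil)) C.nil)) C.nil)) (C.cons (nat_lit 274) (C.node (nat_lit 1) (nat_lit 7) (nat_lit 8) (C.cons (nat_lit 386) (C.node (nat_lit 1) (nat_lit 4) (nat_lit 7) (C.cons (nat_lit 658) (C.node (nat_lit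 1) (nat_lit 5) (nat_lit 7) (C.cons (nat_lit 162) (C.node (nat_lit 1) (nat_lit 5) (nat_lit 9) (C.cons (nat_lit 546) (C.node (nat_lit 3) (nat_lit 4) (nat_lit 7) (C.cons (nat_lit 408) (C.node (nat_lit 2) (nat_lit 3) (nat_lit 4) C.nil) C.nil)) C.nil)) C.nil)) (C.cons (nat_lit 146) (C.node (nat_lit 1) (nat_lit 4) (nat_lit 9) (C.cons (nat_lit 530) (C.node (nat_lit 4) (nat_lit 7) (nat_lit 9) (C.cons (nat_lit 656) (C.node (nat_lit 3) (nat_lit 4) (nat_lit 6) C.nil) C.nil)) C.nil)) C.nil))) C.nil)) C.nil))) C.nil)) C.nil)) C.nil))) (C.cons (nat_lit 266) (C.node (nat_lit 1) (nat_lit 3) (nat_lit 9) (C.cons (nat_lit 522) (C.node (nat_lit 1) (nat_lit 5) (nat_lit 7)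
  (C.cons (nat_lit 674) (C.node (nat_lit 2) (nat_lit 5) (nat_lit 9) (C.cons (nat_lit 548) (C.node (nat_lit 4) (nat_lit 7) (nat_lit 9) (C.cons (nat_lit 656) (C.node (nat_lit 1) (nat_lit 4) (nat_lit 7) (C.cons (nat_lit 402) (C.node (nat_lit 1) (nat_lit 4) (nat_lit 9) (C.cons (nat_lit 530) (C.node (nat_lit 1) (nat_lit 8) (nat_lit 9) (C.cons (nat_lit 770) (C.node (nat_lit 3) (nat_lit 4) (nat_lit 7) (C.cons (nat_lit 152) (C.node (nat_lit 2) (nat_lit 4) (nat_lit 6) (C.cons (nat_lit 340) (C.miq (nat_lit 826410886) (nat_lit 26597788469942265840927681)) (C.cons (nat_lit 84) (C.node (nat_lit 3) (nat_lit 5) (nat_lit 7) C.nil) C.nil))) C.nil)) C.nil)) C.nil)) (C.cons (nat_lit 146) (C.node (nat_lit 1) (nat_lit 7) (nat_lit 8) (C.cons (nat_lit 386) (C.node (nat_lit 1) (nat_lit 4) (nat_lit 8) (C.cons (nat_lit 786) (C.node (nat_lit 2) (nat_lit 4) (nat_lit 9) (C.cons (nat_lit 532) (C.node (nat_lit 4) (nat_lit 5) (nat_lit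 6) C.nil) C.nil)) (C.cons (nat_lit 274) (C.node (nat_lit 1) (nat_lit 4) (nat_lit 9) C.nil) C.nil))) C.nil)) C.nil))) C.nil)) C.nil)) (C.cons (nat_lit 162) (C.node (nat_lit 1) (nat_lit 5) (nat_lit 9) (C.cons (nat_lit 546) (C.node (nat_lit 1) (nat_lit 7) (nat_lit 8) (C.cons (nat_lit 402) (C.node (nat_lit 1) (nat_lit 4) (nat_lit 9) (C.cons (nat_lit 530) (C.node (nat_lit 1) (nat_lit 7) (nat_lit 9) (C.cons (nat_lit 642) (C.node (nat_lit 1) (nat_lit 8) (nat_lit 9) (C.cons (nat_lit 770) (C.node (nat_lit 3) (nat_lit 4) (nat_lit 7) (C.cons (nat_lit 152) (C.node (nat_lit 3) (nat_lit 7) (nat_lit 9) C.nil) C.nil)) C.nil)) C.nil)) C.nil)) (C.cons (nat_lit 386) (C.node (nat_lit 1) (nat_lit 4) (nat_lit 7) (C.cons (nat_lit 658) (C.node (nat_lit 1) (nat_lit 4) (nat_lit 8) (C.cons (nat_lit 274) (C.node (nat_lit 1) (nat_lit 8) (nat_lit 9) (C.cons (nat_lit 770) (C.node (nat_lit 3) (nat_lit 7) (nat_lit 9) (C.cons (nat_lit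 652) (C.miq (nat_lit 1634862227) (nat_lit 161997480251019234244297273)) (C.cons (nat_lit 648) (C.node (nat_lit 2) (nat_lit 3) (nat_lit 4) C.nil) C.nil))) C.nil)) C.nil)) (C.cons (nat_lit 146) (C.node (nat_lit 1) (nat_lit 7) (nat_lit 9) (C.cons (nat_lit 642) (C.node (nat_lit 4) (nat_lit 7) (nat_lit 9) (C.cons (nat_lit 656) (C.node (nat_lit 1) (nat_lit 4) (nat_lit 8) (C.cons (nat_lit 786) (C.node (nat_lit 2) (nat_lit 4) (nat_lit 9) C.nil) (C.cons (nat_lit 274) (C.node (nat_lit 1) (nat_lit 4) (nat_lit 9) C.nil) C.nil))) C.nil)) C.nil)) C.nil))) C.nil))) C.nil)) C.nil))) C.nil)) C.nil))) C.nil))) C.nil)) C.nil))) C.nil)) C.nil)) C.nil)) (C.cons (nat_lit 70) (C.node (nat_lit 1) (nat_lit 6) (nat_lit 9) (C.cons (nat_lit 578) (C.node (nat_lit 1) (nat_lit 2) (nat_lit 7) (C.cons (nat_lit 646) (C.node (nat_lit 1) (nat_lit 5) (nat_lit 7) (C.cons (nat_lit 162) (C.node (nat_lit 1) (nat_lit 5) (nat_lit 9) (C.cons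 (nat_lit 546) (C.node (nat_lit 3) (nat_lit 7) (nat_lit 9) (C.cons (nat_lit 648) (C.node (nat_lit 4) (nat_lit 7) (nat_lit 9) (C.cons (nat_lit 656) (C.node (nat_lit 5) (nat_lit 7) (nat_lit 9) (C.cons (nat_lit 672) (C.node (nat_lit 1) (nat_lit 2) (nat_lit 3) (C.cons (nat_lit 30) (C.node (nat_lit 1) (nat_lit 3) (nat_lit 8) (C.cons (nat_lit 778) (C.miq (nat_lit 2166854464) (nat_lit 780983807011092942478967353)) (C.cons (nat_lit 266) (C.node (nat_lit 1) (nat_lit 3) (nat_lit 9) (C.cons (nat_lit 522) (C.node (nat_lit 1) (nat_lit 4) (nat_lit 7) (C.cons (nat_lit 402) (C.miq (nat_lit 1130828296) (nat_lit 241792579522488046257766695)) (C.cons (nat_lit 146) (C.node (nat_lit 1) (nat_lit 7) (nat_lit 8) (C.cons (nat_lit 386) (C.node (nat_lit 1) (nat_lit 4) (nat_lit 8) (C.cons (nat_lit 786) (C.miq (nat_lit 2166789168) (nat_lit 84642534915318337657176633)) (C.cons (nat_lit 274) (C.node (nat_lit 1) (nat_lit 4) (nat_lit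 9) (C.cons (nat_lit 530) (C.node (nat_lit 1) (nat_lit 8) (nat_lit 9) (C.cons (nat_lit 770) (C.node (nat_lit 2) (nat_lit 3) (nat_lit 7) C.nil) C.nil)) C.nil)) C.nil))) C.nil)) C.nil))) C.nil)) C.nil))) (C.cons (nat_lit 14) (C.node (nat_lit 1) (nat_lit 2) (nat_lit 4) (C.cons (nat_lit 22) (C.node (nat_lit 1) (nat_lit 3) (nat_lit 4)
  (C.cons (nat_lit 282) (C.node (nat_lit 1) (nat_lit 3) (nat_lit 9) (C.cons (nat_lit 522) (C.node (nat_lit 1) (nat_lit 4) (nat_lit 7) (C.cons (nat_lit 146) (C.node (nat_lit 1) (nat_lit 4) (nat_lit 9) (C.cons (nat_lit 530) (C.node (nat_lit 2) (nat_lit 3) (nat_lit 9) C.nil) C.nil)) C.nil)) C.nil)) (C.cons (nat_lit 26) (C.node (nat_lit 1) (nat_lit 3) (nat_lit 8) (C.cons (nat_lit 778) (C.node (nat_lit 1) (nat_lit 4) (nat_lit 9) (C.cons (nat_lit 530) (C.node (nat_lit 2) (nat_lit 3) (nat_lit 9) (C.cons (nat_lit 524) (C.node (nat_lit 2) (nat_lit 8) (nat_lit 9) (C.cons (nat_lit 788)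 (C.miq (nat_lit 1921057939) (nat_lit 356635680925685008181101113)) (C.cons (nat_lit 772) (C.node (nat_lit 4) (nat_lit 8) (nat_lit 9) C.nil) C.nil))) C.nil)) C.nil)) (C.cons (nat_lit 266) (C.node (nat_lit 1) (nat_lit 3) (nat_lit 9) (C.cons (nat_lit 522) (C.node (nat_lit 1) (nat_lit 4) (nat_lit 7) (C.cons (nat_lit 402) (C.node (nat_lit 1) (nat_lit 4) (nat_lit 9) (C.cons (nat_lit 530) (C.node (nat_lit 2) (nat_lit 3) (nat_lit 9) C.nil) C.nil)) (C.cons (nat_lit 146) (C.node (nat_lit 1) (nat_lit 7) (nat_lit 8) (C.cons (nat_lit 386) (C.node (nat_lit 2) (nat_lit 3) (nat_lit 7) (C.cons (nat_lit 396) (C.node (nat_lit 2) (nat_lit 3) (nat_lit 4) C.nil) C.nil)) C.nil)) C.nil))) C.nil)) C.nil))) C.nil))) C.nil)) C.nil))) C.nil)) C.nil)) C.nil)) C.nil)) C.nil)) (C.cons (nat_lit 134) (C.node (nat_lit 1) (nat_lit 5) (nat_lit 7) (C.cons (nat_lit 674) (C.node (nat_lit 4) (nat_lit 7) (nat_lit 9) (C.cons (nat_lit 656)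 (C.node (nat_lit 2) (nat_lit 5) (nat_lit 9) (C.cons (nat_lit 612) (C.miq (nat_lit 354646368) (nat_lit 53195300350186692142760897)) (C.cons (nat_lit 548) (C.node (nat_lit 5) (nat_lit 6) (nat_lit 9) (C.cons (nat_lit 608) (C.node (nat_lit 1) (nat_lit 4) (nat_lit 7) (C.cons (nat_lit 402) (C.node (nat_lit 3) (nat_lit 4) (nat_lit 7) (C.cons (nat_lit 152) (C.node (nat_lit 1) (nat_lit 3) (nat_lit 4) (C.cons (nat_lit 30) (C.miq (nat_lit 1732446226) (nat_lit 183758145251216489388572967)) (C.cons (nat_lit 26) (C.node (nat_lit 2) (nat_lit 6) (nat_lit 8) (C.cons (nat_lit 340) (C.miq (nat_lit 588537976) (nat_lit 31438343224639590023431105)) (C.cons (nat_lit 324) (C.node (nat_lit 2) (nat_lit 7) (nat_lit 8) (C.cons (nat_lit 396) (C.miq (nat_lit 1668547201) (nat_lit 183758255682857026488238375)) (C.cons (nat_lit 388) (C.node (nat_lit 1) (nat_lit 2) (nat_lit 3) (C.cons (nat_lit 526) (C.node (nat_lit 1) (nat_lit 2)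 (nat_lit 4) (C.cons (nat_lit 22) (C.node (nat_lit 1) (nat_lit 3) (nat_lit 8) (C.cons (nat_lit 266) (C.node (nat_lit 1) (nat_lit 4) (nat_lit 9) (C.cons (nat_lit 530) (C.node (nat_lit 1) (nat_lit 8) (nat_lit 9) (C.cons (nat_lit 770) (C.node (nat_lit 2) (nat_lit 4) (nat_lit 6) C.nil) C.nil)) C.nil)) C.nil)) C.nil)) (C.cons (nat_lit 14) (C.node (nat_lit 1) (nat_lit 2) (nat_lit 4) (C.cons (nat_lit 534) (C.node (nat_lit 2) (nat_lit 4) (nat_lit 6) (C.cons (nat_lit 84) (C.node (nat_lit 2) (nat_lit 6) (nat_lit 9) (C.cons (nat_lit 580) (C.node (nat_lit 2) (nat_lit 5) (nat_lit 6) C.nil) C.nil)) C.nil)) (C.cons (nat_lit 22) (C.node (nat_lit 1) (nat_lit 2) (nat_lit 9) (C.cons (nat_lit 518) (C.node (nat_lit 1) (nat_lit 4) (nat_lit 9) (C.cons (nat_lit 530) (C.node (nat_lit 2) (nat_lit 5) (nat_lit 6) (C.cons (nat_lit 228) (C.node (nat_lit 4) (nat_lit 6) (nat_lit 7) C.nil) C.nil)) C.nil)) C.nil)) C.nil))) C.nil)))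 C.nil))) C.nil))) C.nil))) C.nil)) (C.cons (nat_lit 146) (C.node (nat_lit 1) (nat_lit 7) (nat_lit 8) (C.cons (nat_lit 386) (C.ref (nat_lit 33) (nat_lit 654820258320)) C.nil)) C.nil))) C.nil)) C.nil))) C.nil)) (C.cons (nat_lit 162) (C.node (nat_lit 1) (nat_lit 5) (nat_lit 9) (C.cons (nat_lit 546) (C.node (nat_lit 1) (nat_lit 7) (nat_lit 8) (C.cons (nat_lit 402) (C.node (nat_lit 1) (nat_lit 7) (nat_lit 9) (C.cons (nat_lit 642) (C.node (nat_lit 3) (nat_lit 4) (nat_lit 7) (C.cons (nat_lit 152) (C.node (nat_lit 4) (nat_lit 7) (nat_lit 9) (C.cons (nat_lit 656) (C.node (nat_lit 1) (nat_lit 3) (nat_lit 4) (C.cons (nat_lit 30)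
  (C.miq (nat_lit 1732446226) (nat_lit 183758145251216489388572967)) (C.cons (nat_lit 26) (C.node (nat_lit 2) (nat_lit 6) (nat_lit 8) (C.cons (nat_lit 340) (C.miq (nat_lit 588537976) (nat_lit 31438343224639590023431105)) (C.cons (nat_lit 324) (C.node (nat_lit 2) (nat_lit 7) (nat_lit 8) (C.cons (nat_lit 396) (C.miq (nat_lit 1668547201) (nat_lit 183758255682857026488238375)) (C.cons (nat_lit 388) (C.node (nat_lit 1) (nat_lit 2) (nat_lit 3) (C.cons (nat_lit 526) (C.node (nat_lit 1) (nat_lit 2) (nat_lit 4) (C.cons (nat_lit 22) (C.node (nat_lit 1) (nat_lit 3) (nat_lit 8) (C.cons (nat_lit 266) (C.node (nat_lit 1) (nat_lit 4) (nat_lit 9) (C.cons (nat_lit 530) (C.node (nat_lit 1) (nat_lit 8) (nat_lit 9) (C.cons (nat_lit 770) (C.node (nat_lit 3) (nat_lit 5) (nat_lit 7) C.nil) C.nil)) C.nil)) C.nil)) C.nil)) (C.cons (nat_lit 14) (C.node (nat_lit 1) (nat_lit 2) (nat_lit 4) (C.cons (nat_lit 534) (C.node (nat_lit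 2) (nat_lit 4) (nat_lit 6) (C.cons (nat_lit 84) (C.node (nat_lit 4) (nat_lit 6) (nat_lit 9) (C.cons (nat_lit 592) (C.node (nat_lit 4) (nat_lit 8) (nat_lit 9) (C.cons (nat_lit 784) (C.node (nat_lit 1) (nat_lit 3) (nat_lit 8) C.nil) C.nil)) C.nil)) C.nil)) (C.cons (nat_lit 22) (C.node (nat_lit 1) (nat_lit 2) (nat_lit 9) (C.cons (nat_lit 518) (C.node (nat_lit 1) (nat_lit 4) (nat_lit 9) (C.cons (nat_lit 530) (C.node (nat_lit 2) (nat_lit 3) (nat_lit 7) C.nil) C.nil)) C.nil)) C.nil))) C.nil))) C.nil))) C.nil))) C.nil))) C.nil)) C.nil)) C.nil)) (C.cons (nat_lit 386) (C.node (nat_lit 1) (nat_lit 4) (nat_lit 7) (C.cons (nat_lit 658) (C.ref (nat_lit 34) (nat_lit 654820258320)) (C.cons (nat_lit 146) (C.node (nat_lit 1) (nat_lit 7) (nat_lit 9) (C.cons (nat_lit 642) (C.node (nat_lit 4) (nat_lit 7) (nat_lit 9) (C.cons (nat_lit 656) (C.ref (nat_lit 35) (nat_lit 654820258320)) C.nil)) C.nil)) C.nil))) C.nil))) C.nil))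 C.nil))) C.nil))) C.nil)) C.nil))) C.nil))) C.nil))) C.nil))) C.nil))) List.nil)))))))

theorem ok10_30 : okL par10 (nat_lit 37) c10_30 (nat_lit 30) = true := by decide +kernel

noncomputable def c10_37 : List C :=
  (List.cons (C.node (nat_lit 1) (nat_lit 4) (nat_lit 8) (C.cons (nat_lit 786) (C.node (nat_lit 2) (nat_lit 8) (nat_lit 9) (C.cons (nat_lit 772) (C.node (nat_lit 1) (nat_lit 6) (nat_lit 7) (C.cons (nat_lit 226) (C.node (nat_lit 1) (nat_lit 5) (nat_lit 9) (C.cons (nat_lit 546) (C.node (nat_lit 1) (nat_lit 6) (nat_lit 9) (C.cons (nat_lit 578) (C.node (nat_lit 1) (nat_lit 7) (nat_lit 9) (C.cons (nat_lit 642) (C.node (nat_lit 2) (nat_lit 6) (nat_lit 7) (C.cons (nat_lit 196) (C.node (nat_lit 3) (nat_lit 5) (nat_lit 6) (C.cons (nat_lit 104) (C.node (nat_lit 3) (nat_lit 6) (nat_lit 7) C.nil) C.nil)) C.nil)) C.nil)) C.nil)) C.nil)) (C.cons (nat_lit 194) (C.node (nat_lit 1) (nat_lit 5) (nat_lit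 6) (C.cons (nat_lit 610) (C.node (nat_lit 1) (nat_lit 5) (nat_lit 7) (C.cons (nat_lit 162) (C.node (nat_lit 1) (nat_lit 7) (nat_lit 9) (C.cons (nat_lit 642) (C.node (nat_lit 2) (nat_lit 5) (nat_lit 9) (C.cons (nat_lit 676) (C.miq (nat_lit 622098784) (nat_lit 60449039735878145650394049)) (C.cons (nat_lit 548) (C.node (nat_lit 3) (nat_lit 5) (nat_lit 6) C.nil) C.nil))) C.nil)) C.nil)) (C.cons (nat_lit 98) (C.node (nat_lit 1) (nat_lit 6) (nat_lit 9) (C.cons (nat_lit 578) (C.node (nat_lit 1) (nat_lit 7) (nat_lit 5) (C.cons (nat_lit 674) (C.node (nat_lit 2) (nat_lit 7) (nat_lit 9) (C.cons (nat_lit 644) (C.node (nat_lit 7) (nat_lit 8) (nat_lit 3) C.nil) C.nil)) (C.cons (nat_lit 162) (C.node (nat_lit 1) (nat_lit 7) (nat_lit 9) C.nil) C.nil))) C.nil)) C.nil))) C.nil))) C.nil)) (C.cons (nat_lit 274) (C.node (nat_lit 1) (nat_lit 4) (nat_lit 9) (C.cons (nat_lit 530) (C.node (nat_lit 1) (nat_lit 8) (nat_lit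 9) (C.cons (nat_lit 770) (C.node (nat_lit 1) (nat_lit 6) (nat_lit 7) (C.cons (nat_lit 226) (C.node (nat_lit 1) (nat_lit 5) (nat_lit 9) (C.cons (nat_lit 546) (C.node (nat_lit 1) (nat_lit 6) (nat_lit 9) (C.cons (nat_lit 578) (C.node (nat_lit 1) (nat_lit 7) (nat_lit 9) (C.cons (nat_lit 642) (C.node (nat_lit 2) (nat_lit 6) (nat_lit 7) C.nil) C.nil)) C.nil)) C.nil)) (C.cons (nat_lit 194) (C.node (nat_lit 1) (nat_lit 5) (nat_lit 6) (C.cons (nat_lit 610) (C.node (nat_lit 1) (nat_lit 5) (nat_lit 7) (C.cons (nat_lit 162) (C.node (nat_lit 2) (nat_lit 7) (nat_lit 9) (C.cons (nat_lit 676) (C.miq (nat_lit 622098784) (nat_lit 60449039735878145650394049)) C.nil)) C.nil)) (C.cons (nat_lit 98) (C.node (nat_lit 1) (nat_lit 6) (nat_lit 9) (C.cons (nat_lit 578) (C.node (nat_lit 1) (nat_lit 7) (nat_lit 5) (C.cons (nat_lit 674) (C.node (nat_lit 2) (nat_lit 7) (nat_lit 9) C.nil) (C.cons (nat_lit 162) (C.node (nat_lit 1)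 (nat_lit 7) (nat_lit 9) C.nil) C.nil))) C.nil)) C.nil))) C.nil))) C.nil)) C.nil)) C.nil))) (List.cons (C.node (nat_lit 4) (nat_lit 8) (nat_lit 9) (C.cons (nat_lit 784) (C.node (nat_lit 1) (nat_lit 2) (nat_lit 6) (C.cons (nat_lit 198) (C.node (nat_lit 1) (nat_lit 5) (nat_lit 6) (C.cons (nat_lit 610) (C.miq (nat_lit 1361352304) (nat_lit 645576884043290506234758081)) (C.cons (nat_lit 98) (C.node (nat_lit 1) (nat_lit 6) (nat_lit 9) (C.cons (nat_lit 578) (C.node (nat_lit 1) (nat_lit 7) (nat_lit 5) (C.cons (nat_lit 674) (C.miq (nat_lit 1361287008) (nat_lit 16935457861697733892309953)) (C.cons (nat_lit 162) (C.node (nat_lit 1) (nat_lit 7) (nat_lit 9) (C.cons (nat_lit 642) (C.node (nat_lit 1) (nat_lit 5) (nat_lit 9) (C.cons (nat_lit 546) (C.node (nat_lit 2) (nat_lit 6) (nat_lit 4) C.nil) C.nil)) C.nil)) C.nil))) C.nil)) C.nil))) (C.cons (nat_lit 70) (C.node (nat_lit 1) (nat_lit 2) (nat_lit 7) (C.cons (nat_lit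 134) (C.node (nat_lit 1) (nat_lit 6) (nat_lit 7) (C.cons (nat_lit 226) (C.node (nat_lit 1) (nat_lit 5) (nat_lit 9) (C.cons (nat_lit 546) (C.node (nat_lit 1) (nat_lit 6) (nat_lit 9) (C.cons (nat_lit 578) (C.node (nat_lit 1) (nat_lit 7) (nat_lit 9) (C.cons (nat_lit 642) (C.node (nat_lit 2) (nat_lit 6) (nat_lit 7) C.nil) C.nil)) C.nil)) C.nil)) (C.cons (nat_lit 194) (C.node (nat_lit 1) (nat_lit 5) (nat_lit 6) (C.cons (nat_lit 610) (C.node (nat_lit 1) (nat_lit 5) (nat_lit 7) (C.cons (nat_lit 162) (C.node (nat_lit 2) (nat_lit 5) (nat_lit 9) (C.cons (nat_lit 676)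
  (C.miq (nat_lit 622098784) (nat_lit 60449039735878145650394049)) C.nil)) C.nil)) (C.cons (nat_lit 98) (C.node (nat_lit 1) (nat_lit 6) (nat_lit 9) (C.cons (nat_lit 578) (C.node (nat_lit 2) (nat_lit 6) (nat_lit 4) (C.cons (nat_lit 116) (C.node (nat_lit 2) (nat_lit 6) (nat_lit 7) C.nil) C.nil)) C.nil)) C.nil))) C.nil))) C.nil)) C.nil))) C.nil)) (List.cons (C.node (nat_lit 2) (nat_lit 3) (nat_lit 4) (C.cons (nat_lit 28) (C.node (nat_lit 1) (nat_lit 5) (nat_lit 6) (C.cons (nat_lit 226) (C.node (nat_lit 1) (nat_lit 5) (nat_lit 9) (C.cons (nat_lit 546) (C.node (nat_lit 1) (nat_lit 7) (nat_lit 9) (C.cons (nat_lit 642) (C.node (nat_lit 2) (nat_lit 6) (nat_lit 7) (C.cons (nat_lit 196) (C.node (nat_lit 2) (nat_lit 3) (nat_lit 5) (C.cons (nat_lit 172) (C.node (nat_lit 2) (nat_lit 7) (nat_lit 8) (C.cons (nat_lit 388) (C.node (nat_lit 2) (nat_lit 7) (nat_lit 9) (C.cons (nat_lit 644) (C.node (nat_lit 2) (nat_lit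 3) (nat_lit 8) C.nil) C.nil)) C.nil)) (C.cons (nat_lit 44) (C.node (nat_lit 2) (nat_lit 3) (nat_lit 7) (C.cons (nat_lit 396) (C.node (nat_lit 2) (nat_lit 3) (nat_lit 9) (C.cons (nat_lit 524) (C.node (nat_lit 2) (nat_lit 8) (nat_lit 9) (C.cons (nat_lit 772) (C.node (nat_lit 3) (nat_lit 8) (nat_lit 9) C.nil) C.nil)) C.nil)) (C.cons (nat_lit 140) (C.node (nat_lit 2) (nat_lit 7) (nat_lit 8) (C.cons (nat_lit 388) (C.node (nat_lit 2) (nat_lit 3) (nat_lit 8) C.nil) C.nil)) C.nil))) C.nil))) C.nil)) C.nil)) C.nil)) (C.cons (nat_lit 98) (C.node (nat_lit 1) (nat_lit 6) (nat_lit 7) (C.cons (nat_lit 194) (C.node (nat_lit 1) (nat_lit 5) (nat_lit 7) (C.cons (nat_lit 674) (C.node (nat_lit 2) (nat_lit 7) (nat_lit 9) (C.cons (nat_lit 644) (C.node (nat_lit 2) (nat_lit 5) (nat_lit 9) (C.cons (nat_lit 612) (C.miq (nat_lit 827459478) (nat_lit 356634537224737198784644033)) (C.cons (nat_lit 548) (C.node (nat_lit 2) (nat_lit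 6) (nat_lit 9) (C.cons (nat_lit 580) (C.node (nat_lit 5) (nat_lit 6) (nat_lit 9) (C.cons (nat_lit 608) (C.node (nat_lit 2) (nat_lit 3) (nat_lit 5) (C.cons (nat_lit 172) (C.node (nat_lit 2) (nat_lit 6) (nat_lit 7) C.nil) (C.cons (nat_lit 44) (C.node (nat_lit 2) (nat_lit 3) (nat_lit 7) C.nil) C.nil))) C.nil)) C.nil)) C.nil))) C.nil)) (C.cons (nat_lit 162) (C.node (nat_lit 1) (nat_lit 5) (nat_lit 9) (C.cons (nat_lit 546) (C.node (nat_lit 1) (nat_lit 7) (nat_lit 9) (C.cons (nat_lit 642) (C.node (nat_lit 2) (nat_lit 3) (nat_lit 5) (C.cons (nat_lit 172) (C.node (nat_lit 2) (nat_lit 6) (nat_lit 7) (C.cons (nat_lit 196) (C.node (nat_lit 2) (nat_lit 7) (nat_lit 8) C.nil) C.nil)) (C.cons (nat_lit 44) (C.node (nat_lit 2) (nat_lit 3) (nat_lit 7) (C.cons (nat_lit 396) (C.node (nat_lit 2) (nat_lit 3) (nat_lit 9) C.nil) C.nil)) C.nil))) C.nil)) C.nil)) C.nil))) C.nil)) C.nil))) C.nil)) (List.cons (C.node (nat_lit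 1) (nat_lit 8) (nat_lit 9) (C.cons (nat_lit 770) (C.node (nat_lit 2) (nat_lit 3) (nat_lit 4) (C.cons (nat_lit 28) (C.node (nat_lit 1) (nat_lit 5) (nat_lit 6) (C.cons (nat_lit 226) (C.node (nat_lit 1) (nat_lit 5) (nat_lit 9) (C.cons (nat_lit 546) (C.node (nat_lit 1) (nat_lit 7) (nat_lit 9) (C.cons (nat_lit 642) (C.node (nat_lit 2) (nat_lit 6) (nat_lit 7) (C.cons (nat_lit 196) (C.node (nat_lit 2) (nat_lit 3) (nat_lit 5) (C.cons (nat_lit 172) (C.node (nat_lit 2) (nat_lit 7) (nat_lit 8) (C.cons (nat_lit 388) (C.node (nat_lit 2) (nat_lit 7) (nat_lit 9) C.nil) C.nil)) (C.cons (nat_lit 44) (C.node (nat_lit 2) (nat_lit 3) (nat_lit 7) (C.cons (nat_lit 396) (C.node (nat_lit 2) (nat_lit 3) (nat_lit 9) C.nil) (C.cons (nat_lit 140) (C.node (nat_lit 2) (nat_lit 7) (nat_lit 9) C.nil) C.nil))) C.nil))) C.nil)) C.nil)) C.nil)) (C.cons (nat_lit 98) (C.node (nat_lit 1) (nat_lit 6) (nat_lit 7) (C.cons (nat_lit 194)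 (C.node (nat_lit 1) (nat_lit 5) (nat_lit 7) (C.cons (nat_lit 674) (C.node (nat_lit 2) (nat_lit 7) (nat_lit 9) (C.cons (nat_lit 644) (C.node (nat_lit 2) (nat_lit 5) (nat_lit 9) (C.cons (nat_lit 612) (C.miq (nat_lit 827459478) (nat_lit 356634537224737198784644033)) (C.cons (nat_lit 548) (C.node (nat_lit 2) (nat_lit 6) (nat_lit 9)
  (C.cons (nat_lit 580) (C.node (nat_lit 5) (nat_lit 6) (nat_lit 9) C.nil) C.nil)) C.nil))) C.nil)) (C.cons (nat_lit 162) (C.node (nat_lit 1) (nat_lit 5) (nat_lit 9) (C.cons (nat_lit 546) (C.node (nat_lit 1) (nat_lit 7) (nat_lit 9) (C.cons (nat_lit 642) (C.node (nat_lit 5) (nat_lit 6) (nat_lit 9) (C.cons (nat_lit 612) (C.node (nat_lit 2) (nat_lit 4) (nat_lit 5) C.nil) C.nil)) C.nil)) C.nil)) C.nil))) C.nil)) C.nil))) C.nil)) C.nil)) (List.cons (C.node (nat_lit 1) (nat_lit 4) (nat_lit 8) (C.cons (nat_lit 786) (C.node (nat_lit 2) (nat_lit 4) (nat_lit 9) (C.cons (nat_lit 532)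 (C.node (nat_lit 2) (nat_lit 3) (nat_lit 9) (C.cons (nat_lit 780) (C.miq (nat_lit 1635910803) (nat_lit 356634537208975081136194105)) (C.cons (nat_lit 524) (C.node (nat_lit 2) (nat_lit 8) (nat_lit 9) (C.cons (nat_lit 772) (C.node (nat_lit 3) (nat_lit 8) (nat_lit 9) (C.cons (nat_lit 776) (C.node (nat_lit 1) (nat_lit 5) (nat_lit 6) (C.cons (nat_lit 226) (C.node (nat_lit 1) (nat_lit 5) (nat_lit 9) (C.cons (nat_lit 546) (C.node (nat_lit 1) (nat_lit 7) (nat_lit 9) C.nil) C.nil)) (C.cons (nat_lit 98) (C.node (nat_lit 1) (nat_lit 6) (nat_lit 7) (C.cons (nat_lit 194) (C.node (nat_lit 2) (nat_lit 6) (nat_lit 7) (C.cons (nat_lit 228) (C.node (nat_lit 2) (nat_lit 3) (nat_lit 5) C.nil) C.nil)) C.nil)) C.nil))) C.nil)) C.nil)) C.nil))) C.nil)) (C.cons (nat_lit 274) (C.node (nat_lit 1) (nat_lit 4) (nat_lit 9) (C.cons (nat_lit 530) (C.node (nat_lit 1) (nat_lit 8) (nat_lit 9) (C.cons (nat_lit 770) (C.node (nat_lit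 1) (nat_lit 5) (nat_lit 6) (C.cons (nat_lit 226) (C.node (nat_lit 1) (nat_lit 5) (nat_lit 9) (C.cons (nat_lit 546) (C.node (nat_lit 1) (nat_lit 7) (nat_lit 9) (C.cons (nat_lit 642) (C.node (nat_lit 2) (nat_lit 6) (nat_lit 7) (C.cons (nat_lit 196) (C.node (nat_lit 8) (nat_lit 3) (nat_lit 9) (C.cons (nat_lit 780) (C.node (nat_lit 2) (nat_lit 7) (nat_lit 8) C.nil) C.nil)) C.nil)) C.nil)) C.nil)) (C.cons (nat_lit 98) (C.node (nat_lit 1) (nat_lit 6) (nat_lit 7) (C.cons (nat_lit 194) (C.node (nat_lit 1) (nat_lit 5) (nat_lit 7) (C.cons (nat_lit 674) (C.node (nat_lit 2) (nat_lit 7) (nat_lit 9) (C.cons (nat_lit 644) (C.node (nat_lit 3) (nat_lit 8) (nat_lit 9) C.nil) C.nil)) (C.cons (nat_lit 162) (C.node (nat_lit 1) (nat_lit 5) (nat_lit 9) (C.cons (nat_lit 546) (C.node (nat_lit 1) (nat_lit 7) (nat_lit 9) (C.cons (nat_lit 642) (C.node (nat_lit 2) (nat_lit 3) (nat_lit 9) C.nil) C.nil)) C.nil)) C.nil))) C.nil))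 C.nil))) C.nil)) C.nil)) C.nil))) (List.cons (C.node (nat_lit 1) (nat_lit 8) (nat_lit 9) (C.cons (nat_lit 770) (C.node (nat_lit 3) (nat_lit 8) (nat_lit 9) (C.cons (nat_lit 776) (C.node (nat_lit 1) (nat_lit 3) (nat_lit 4) (C.cons (nat_lit 282) (C.ref (nat_lit 39) (nat_lit 654568538640)) (C.cons (nat_lit 26) (C.node (nat_lit 1) (nat_lit 3) (nat_lit 8) (C.cons (nat_lit 266) (C.node (nat_lit 1) (nat_lit 4) (nat_lit 8) (C.cons (nat_lit 274) (C.node (nat_lit 1) (nat_lit 5) (nat_lit 7) (C.cons (nat_lit 226) (C.node (nat_lit 1) (nat_lit 5) (nat_lit 9) (C.cons (nat_lit 546) (C.node (nat_lit 1) (nat_lit 6) (nat_lit 9) (C.cons (nat_lit 578) (C.node (nat_lit 2) (nat_lit 7) (nat_lit 6) (C.cons (nat_lit 196) (C.node (nat_lit 2) (nat_lit 4) (nat_lit 3) (C.cons (nat_lit 284) (C.node (nat_lit 2) (nat_lit 4) (nat_lit 9) (C.cons (nat_lit 532) (C.node (nat_lit 2) (nat_lit 3) (nat_lit 5) C.nil) C.nil)) (C.cons (nat_lit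 28) (C.node (nat_lit 2) (nat_lit 3) (nat_lit 5) (C.cons (nat_lit 172) (C.node (nat_lit 2) (nat_lit 3) (nat_lit 8) C.nil) C.nil)) C.nil))) C.nil)) C.nil)) C.nil)) (C.cons (nat_lit 162) (C.node (nat_lit 1) (nat_lit 7) (nat_lit 6) (C.cons (nat_lit 194) (C.node (nat_lit 1) (nat_lit 5) (nat_lit 6) (C.cons (nat_lit 610) (C.node (nat_lit 2) (nat_lit 6) (nat_lit 9) (C.cons (nat_lit 580) (C.node (nat_lit 2) (nat_lit 5) (nat_lit 9) (C.cons (nat_lit 676) (C.miq (nat_lit 1095894679) (nat_lit 356635865374547632302851009)) (C.cons (nat_lit 548) (C.node (nat_lit 2) (nat_lit 7) (nat_lit 9) C.nil) C.nil))) C.nil)) (C.cons (nat_lit 98) (C.node (nat_lit 1) (nat_lit 5) (nat_lit 9)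
  (C.cons (nat_lit 546) (C.node (nat_lit 1) (nat_lit 6) (nat_lit 9) (C.cons (nat_lit 578) (C.node (nat_lit 2) (nat_lit 7) (nat_lit 9) C.nil) C.nil)) C.nil)) C.nil))) C.nil)) C.nil))) C.nil)) C.nil)) C.nil))) C.nil)) C.nil)) (List.cons (C.node (nat_lit 2) (nat_lit 6) (nat_lit 7) (C.cons (nat_lit 198) (C.miq (nat_lit 1683099703) (nat_lit 62867795098652178490589323)) (C.cons (nat_lit 196) (C.node (nat_lit 3) (nat_lit 6) (nat_lit 7) (C.cons (nat_lit 216) (C.miq (nat_lit 309724468) (nat_lit 236950991807261293013369401)) (C.cons (nat_lit 200) (C.node (nat_lit 1) (nat_lit 2) (nat_lit 6) (C.cons (nat_lit 582) (C.node (nat_lit 1) (nat_lit 2) (nat_lit 7) (C.cons (nat_lit 134) (C.node (nat_lit 2) (nat_lit 5) (nat_lit 6) (C.cons (nat_lit 100) (C.node (nat_lit 2) (nat_lit 5) (nat_lit 9) (C.cons (nat_lit 548) (C.node (nat_lit 2) (nat_lit 7) (nat_lit 9) (C.cons (nat_lit 644) (C.node (nat_lit 4) (nat_lit 6) (nat_lit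 9) (C.cons (nat_lit 592) (C.node (nat_lit 5) (nat_lit 6) (nat_lit 9) (C.cons (nat_lit 608) (C.node (nat_lit 1) (nat_lit 2) (nat_lit 3) (C.cons (nat_lit 30) (C.node (nat_lit 1) (nat_lit 3) (nat_lit 8) (C.cons (nat_lit 778) (C.miq (nat_lit 2166854464) (nat_lit 162013787368402805029405241)) (C.cons (nat_lit 266) (C.node (nat_lit 1) (nat_lit 3) (nat_lit 9) (C.cons (nat_lit 522) (C.node (nat_lit 1) (nat_lit 5) (nat_lit 6) (C.cons (nat_lit 98) (C.node (nat_lit 1) (nat_lit 4) (nat_lit 9) C.nil) C.nil)) C.nil)) C.nil))) (C.cons (nat_lit 14) (C.node (nat_lit 1) (nat_lit 2) (nat_lit 4) (C.cons (nat_lit 22) (C.node (nat_lit 1) (nat_lit 3) (nat_lit 4) (C.cons (nat_lit 26) (C.node (nat_lit 1) (nat_lit 5) (nat_lit 6) C.nil) C.nil)) C.nil)) C.nil))) C.nil)) C.nil)) C.nil)) C.nil)) C.nil)) C.nil)) (C.cons (nat_lit 70) (C.node (nat_lit 1) (nat_lit 2) (nat_lit 7) (C.cons (nat_lit 646) (C.node (nat_lit 5) (nat_lit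 7) (nat_lit 9) (C.cons (nat_lit 672) (C.node (nat_lit 1) (nat_lit 2) (nat_lit 3) (C.cons (nat_lit 30) (C.node (nat_lit 1) (nat_lit 3) (nat_lit 8) (C.cons (nat_lit 778) (C.miq (nat_lit 2166854464) (nat_lit 780983807011092942478967353)) (C.cons (nat_lit 266) (C.node (nat_lit 1) (nat_lit 3) (nat_lit 9) (C.cons (nat_lit 522) (C.node (nat_lit 1) (nat_lit 4) (nat_lit 8) (C.cons (nat_lit 786) (C.miq (nat_lit 2166789168) (nat_lit 84642534915318337657176633)) (C.cons (nat_lit 274) (C.node (nat_lit 1) (nat_lit 4) (nat_lit 9) (C.cons (nat_lit 530) (C.node (nat_lit 1) (nat_lit 8) (nat_lit 9) (C.cons (nat_lit 770) (C.node (nat_lit 2) (nat_lit 3) (nat_lit 8) C.nil) C.nil)) C.nil)) C.nil))) C.nil)) C.nil))) (C.cons (nat_lit 14) (C.node (nat_lit 1) (nat_lit 2) (nat_lit 4) (C.cons (nat_lit 22) (C.node (nat_lit 1) (nat_lit 3) (nat_lit 4) (C.cons (nat_lit 282) (C.node (nat_lit 1) (nat_lit 3) (nat_lit 9) (C.cons (nat_lit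 522) (C.node (nat_lit 1) (nat_lit 4) (nat_lit 9) (C.cons (nat_lit 530) (C.node (nat_lit 1) (nat_lit 8) (nat_lit 9) (C.cons (nat_lit 770) (C.node (nat_lit 3) (nat_lit 4) (nat_lit 7) C.nil) C.nil)) C.nil)) C.nil)) (C.cons (nat_lit 26) (C.node (nat_lit 1) (nat_lit 3) (nat_lit 8) (C.cons (nat_lit 778) (C.node (nat_lit 1) (nat_lit 4) (nat_lit 8) (C.cons (nat_lit 274) (C.node (nat_lit 1) (nat_lit 4) (nat_lit 9) (C.cons (nat_lit 530) (C.node (nat_lit 2) (nat_lit 3) (nat_lit 9) (C.cons (nat_lit 524) (C.node (nat_lit 2) (nat_lit 5) (nat_lit 9) C.nil) C.nil)) C.nil)) C.nil)) (C.cons (nat_lit 266) (C.node (nat_lit 1) (nat_lit 3) (nat_lit 9) (C.cons (nat_lit 522) (C.node (nat_lit 2) (nat_lit 3) (nat_lit 4) (C.cons (nat_lit 28) (C.node (nat_lit 3) (nat_lit 4) (nat_lit 6) (C.cons (nat_lit 88) (C.node (nat_lit 1) (nat_lit 4) (nat_lit 8) C.nil) C.nil)) C.nil)) C.nil)) C.nil))) C.nil))) C.nil)) C.nil))) C.nil)) (C.cons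 (nat_lit 134) (C.node (nat_lit 2) (nat_lit 7) (nat_lit 9) (C.cons (nat_lit 644) (C.node (nat_lit 1) (nat_lit 6) (nat_lit 7) (C.cons (nat_lit 226) (C.node (nat_lit 1) (nat_lit 5) (nat_lit 9) (C.cons (nat_lit 546) (C.node (nat_lit 1) (nat_lit 6) (nat_lit 9) (C.cons (nat_lit 578) (C.node (nat_lit 1) (nat_lit 7) (nat_lit 9) (C.cons (nat_lit 642)
  (C.node (nat_lit 4) (nat_lit 6) (nat_lit 7) (C.cons (nat_lit 208) (C.node (nat_lit 5) (nat_lit 7) (nat_lit 9) (C.cons (nat_lit 672) (C.node (nat_lit 2) (nat_lit 5) (nat_lit 6) C.nil) C.nil)) C.nil)) C.nil)) C.nil)) C.nil)) (C.cons (nat_lit 194) (C.node (nat_lit 1) (nat_lit 5) (nat_lit 6) (C.cons (nat_lit 610) (C.node (nat_lit 1) (nat_lit 5) (nat_lit 7) (C.cons (nat_lit 162) (C.node (nat_lit 1) (nat_lit 7) (nat_lit 9) (C.cons (nat_lit 642) (C.node (nat_lit 2) (nat_lit 5) (nat_lit 6) (C.cons (nat_lit 100) (C.node (nat_lit 2) (nat_lit 5) (nat_lit 9) (C.cons (nat_lit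 548) (C.node (nat_lit 5) (nat_lit 7) (nat_lit 9) C.nil) C.nil)) C.nil)) C.nil)) C.nil)) (C.cons (nat_lit 98) (C.node (nat_lit 1) (nat_lit 6) (nat_lit 9) (C.cons (nat_lit 578) (C.node (nat_lit 1) (nat_lit 5) (nat_lit 7) (C.cons (nat_lit 674) (C.node (nat_lit 2) (nat_lit 5) (nat_lit 6) (C.cons (nat_lit 612) (C.miq (nat_lit 354646368) (nat_lit 207937805260859226505151425)) (C.cons (nat_lit 100) (C.node (nat_lit 2) (nat_lit 5) (nat_lit 9) (C.cons (nat_lit 548) (C.node (nat_lit 5) (nat_lit 6) (nat_lit 9) C.nil) C.nil)) C.nil))) (C.cons (nat_lit 162) (C.node (nat_lit 1) (nat_lit 5) (nat_lit 9) (C.cons (nat_lit 546) (C.node (nat_lit 1) (nat_lit 7) (nat_lit 9) C.nil) C.nil)) C.nil))) C.nil)) C.nil))) C.nil))) C.nil)) C.nil))) C.nil))) C.nil))) C.nil))) (List.cons (C.node (nat_lit 2) (nat_lit 3) (nat_lit 4) (C.cons (nat_lit 30) (C.miq (nat_lit 2185655056) (nat_lit 101567496280147905186300043)) (C.cons (nat_lit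 28) (C.node (nat_lit 3) (nat_lit 4) (nat_lit 7) (C.cons (nat_lit 216) (C.miq (nat_lit 305399926) (nat_lit 33851454112004553735406529)) (C.cons (nat_lit 152) (C.node (nat_lit 1) (nat_lit 2) (nat_lit 3) (C.cons (nat_lit 526) (C.node (nat_lit 1) (nat_lit 2) (nat_lit 4) (C.cons (nat_lit 22) (C.node (nat_lit 3) (nat_lit 8) (nat_lit 9) (C.cons (nat_lit 776) (C.node (nat_lit 1) (nat_lit 2) (nat_lit 6) (C.cons (nat_lit 198) (C.node (nat_lit 1) (nat_lit 5) (nat_lit 6) (C.cons (nat_lit 610) (C.miq (nat_lit 1361352304) (nat_lit 26606864400600368785195969)) (C.cons (nat_lit 98) (C.node (nat_lit 1) (nat_lit 6) (nat_lit 9) (C.cons (nat_lit 578) (C.node (nat_lit 3) (nat_lit 5) (nat_lit 7) (C.cons (nat_lit 232) (C.node (nat_lit 3) (nat_lit 5) (nat_lit 8) C.nil) C.nil)) C.nil)) C.nil))) (C.cons (nat_lit 70) (C.node (nat_lit 1) (nat_lit 2) (nat_lit 7) (C.cons (nat_lit 134) (C.node (nat_lit 1) (nat_lit 3) (nat_lit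 4) (C.cons (nat_lit 282) (C.node (nat_lit 1) (nat_lit 4) (nat_lit 9) (C.cons (nat_lit 530) (C.node (nat_lit 3) (nat_lit 4) (nat_lit 6) C.nil) C.nil)) (C.cons (nat_lit 26) (C.node (nat_lit 1) (nat_lit 3) (nat_lit 8) (C.cons (nat_lit 266) (C.node (nat_lit 1) (nat_lit 4) (nat_lit 8) (C.cons (nat_lit 786) (C.node (nat_lit 2) (nat_lit 4) (nat_lit 8) C.nil) C.nil)) C.nil)) C.nil))) C.nil)) C.nil))) C.nil)) C.nil)) (C.cons (nat_lit 14) (C.node (nat_lit 2) (nat_lit 3) (nat_lit 9) (C.cons (nat_lit 524) (C.node (nat_lit 1) (nat_lit 2) (nat_lit 4) (C.cons (nat_lit 534) (C.node (nat_lit 2) (nat_lit 4) (nat_lit 8) (C.cons (nat_lit 276) (C.node (nat_lit 2) (nat_lit 8) (nat_lit 9) (C.cons (nat_lit 772) (C.node (nat_lit 4) (nat_lit 8) (nat_lit 9) (C.cons (nat_lit 784) (C.node (nat_lit 2) (nat_lit 6) (nat_lit 9) (C.cons (nat_lit 580) (C.node (nat_lit 4) (nat_lit 3) (nat_lit 6) (C.cons (nat_lit 88) (C.node (nat_lit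 1) (nat_lit 4) (nat_lit 3) C.nil) C.nil)) C.nil)) C.nil)) C.nil)) C.nil)) (C.cons (nat_lit 22) (C.node (nat_lit 1) (nat_lit 3) (nat_lit 4) (C.cons (nat_lit 282) (C.node (nat_lit 1) (nat_lit 3) (nat_lit 9) (C.cons (nat_lit 522) (C.node (nat_lit 1) (nat_lit 4) (nat_lit 9) (C.cons (nat_lit 530) (C.node (nat_lit 1) (nat_lit 8) (nat_lit 9) (C.cons (nat_lit 770) (C.node (nat_lit 2) (nat_lit 4) (nat_lit 8) C.nil) C.nil)) C.nil)) C.nil)) (C.cons (nat_lit 26) (C.node (nat_lit 1) (nat_lit 3) (nat_lit 8) (C.cons (nat_lit 778) (C.node (nat_lit 1) (nat_lit 4) (nat_lit 8) (C.cons (nat_lit 274) (C.node (nat_lit 1) (nat_lit 4) (nat_lit 9) (C.cons (nat_lit 530)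
  (C.node (nat_lit 2) (nat_lit 4) (nat_lit 8) C.nil) C.nil)) C.nil)) (C.cons (nat_lit 266) (C.node (nat_lit 1) (nat_lit 3) (nat_lit 9) (C.cons (nat_lit 522) (C.node (nat_lit 1) (nat_lit 2) (nat_lit 6) C.nil) C.nil)) C.nil))) C.nil))) C.nil))) C.nil)) C.nil))) C.nil))) C.nil))) (List.cons (C.node (nat_lit 3) (nat_lit 8) (nat_lit 9) (C.cons (nat_lit 776) (C.node (nat_lit 1) (nat_lit 2) (nat_lit 6) (C.cons (nat_lit 198) (C.node (nat_lit 1) (nat_lit 5) (nat_lit 6) (C.cons (nat_lit 610) (C.miq (nat_lit 1361352304) (nat_lit 26606864400600368785195969)) (C.cons (nat_lit 98) (C.node (nat_lit 1) (nat_lit 6) (nat_lit 9) (C.cons (nat_lit 578) (C.node (nat_lit 1) (nat_lit 5) (nat_lit 7) (C.cons (nat_lit 674) (C.miq (nat_lit 1361287008) (nat_lit 635905477504387871341872065)) (C.cons (nat_lit 162) (C.node (nat_lit 1) (nat_lit 5) (nat_lit 9) (C.cons (nat_lit 546) (C.node (nat_lit 1) (nat_lit 7) (nat_lit 9) (C.cons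 (nat_lit 642) (C.node (nat_lit 1) (nat_lit 4) (nat_lit 9) C.nil) C.nil)) C.nil)) C.nil))) C.nil)) C.nil))) (C.cons (nat_lit 70) (C.node (nat_lit 1) (nat_lit 2) (nat_lit 7) (C.cons (nat_lit 134) (C.node (nat_lit 1) (nat_lit 3) (nat_lit 4) (C.cons (nat_lit 282) (C.node (nat_lit 1) (nat_lit 4) (nat_lit 9) (C.cons (nat_lit 530) (C.node (nat_lit 1) (nat_lit 8) (nat_lit 9) (C.cons (nat_lit 770) (C.node (nat_lit 2) (nat_lit 3) (nat_lit 4) (C.cons (nat_lit 28) (C.node (nat_lit 2) (nat_lit 3) (nat_lit 8) C.nil) C.nil)) C.nil)) C.nil)) (C.cons (nat_lit 26) (C.node (nat_lit 1) (nat_lit 3) (nat_lit 8) (C.cons (nat_lit 266) (C.node (nat_lit 1) (nat_lit 4) (nat_lit 8) (C.cons (nat_lit 786) (C.node (nat_lit 2) (nat_lit 4) (nat_lit 9) (C.cons (nat_lit 532) (C.node (nat_lit 2) (nat_lit 8) (nat_lit 9) C.nil) C.nil)) (C.cons (nat_lit 274) (C.node (nat_lit 1) (nat_lit 6) (nat_lit 7) C.nil) C.nil))) C.nil)) C.nil)))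 C.nil)) C.nil))) C.nil)) List.nil)))))))))

theorem ok10_37 : okL par10 (nat_lit 46) c10_37 (nat_lit 37) = true := by decide +kernel

noncomputable def c10_46 : List C :=
  (List.cons (C.node (nat_lit 1) (nat_lit 3) (nat_lit 6) (C.cons (nat_lit 586) (C.node (nat_lit 1) (nat_lit 2) (nat_lit 3) (C.cons (nat_lit 30) (C.node (nat_lit 1) (nat_lit 3) (nat_lit 8) (C.cons (nat_lit 266) (C.node (nat_lit 1) (nat_lit 2) (nat_lit 6) (C.cons (nat_lit 198) (C.node (nat_lit 1) (nat_lit 2) (nat_lit 9) (C.cons (nat_lit 518) (C.node (nat_lit 1) (nat_lit 5) (nat_lit 6) (C.cons (nat_lit 98) (C.node (nat_lit 1) (nat_lit 5) (nat_lit 7) (C.cons (nat_lit 674) (C.miq (nat_lit 1361287008) (nat_lit 36278270975531800687608769)) (C.cons (nat_lit 162) (C.node (nat_lit 1) (nat_lit 5) (nat_lit 9) (C.cons (nat_lit 546) (C.node (nat_lit 1) (nat_lit 7) (nat_lit 8) (C.cons (nat_lit 402) (C.miq (nat_lit 2437374752) (nat_lit 486005906971080228322213965))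 (C.cons (nat_lit 386) (C.node (nat_lit 1) (nat_lit 4) (nat_lit 7) (C.cons (nat_lit 658) (C.node (nat_lit 1) (nat_lit 4) (nat_lit 8) (C.cons (nat_lit 274) (C.node (nat_lit 1) (nat_lit 8) (nat_lit 9) (C.cons (nat_lit 770) (C.node (nat_lit 2) (nat_lit 3) (nat_lit 5) (C.cons (nat_lit 172) (C.miq (nat_lit 2535658502) (nat_lit 207946050950954586477494355)) (C.cons (nat_lit 44) (C.node (nat_lit 2) (nat_lit 4) (nat_lit 5) (C.cons (nat_lit 116) (C.miq (nat_lit 2518946567) (nat_lit 140247533197842152225570955)) (C.cons (nat_lit 52) (C.node (nat_lit 2) (nat_lit 5) (nat_lit 6) (C.cons (nat_lit 612) (C.miq (nat_lit 1377015408) (nat_lit 36278270958080352135611329)) (C.cons (nat_lit 100) (C.node (nat_lit 5) (nat_lit 6) (nat_lit 9) (C.cons (nat_lit 608) (C.node (nat_lit 2) (nat_lit 5) (nat_lit 7) (C.cons (nat_lit 676) (C.miq (nat_lit 1377081184) (nat_lit 36278270976094750641423297)) (C.cons (nat_lit 164) (C.node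 (nat_lit 2) (nat_lit 5) (nat_lit 9) (C.cons (nat_lit 548) (C.node (nat_lit 5) (nat_lit 7) (nat_lit 9) (C.cons (nat_lit 672) (C.node (nat_lit 2) (nat_lit 6) (nat_lit 8) (C.cons (nat_lit 340) (C.miq (nat_lit 2518946567) (nat_lit 411046916791519087359754379)) (C.cons (nat_lit 324) (C.node (nat_lit 2) (nat_lit 8) (nat_lit 9) (C.cons (nat_lit 788) (C.miq (nat_lit 2182583344) (nat_lit 239385039826553821977051705)) (C.cons (nat_lit 780) (C.miq (nat_lit 2182517568) (nat_lit 239385039824302022159696441)) C.nil))) C.nil))) C.nil)) C.nil)) C.nil))) C.nil)) C.nil))) C.nil))) C.nil))) C.nil)) C.nil)) (C.cons (nat_lit 146) (C.miq (nat_lit 2437374752) (nat_lit 176520897149735159597432909)) C.nil))) C.nil))) C.nil)) C.nil))) C.nil)) C.nil)) (C.cons (nat_lit 70) (C.miq (nat_lit 1980893492) (nat_lit 84627556208390994424365625)) C.nil))) C.nil)) (C.cons (nat_lit 14) (C.node (nat_lit 1) (nat_lit 2) (nat_lit 6) (C.cons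 (nat_lit 198) (C.miq (nat_lit 1125255527) (nat_lit 16927710199633569781253057)) (C.cons (nat_lit 70) (C.node (nat_lit 3) (nat_lit 7) (nat_lit 9) (C.cons (nat_lit 652) (C.miq (nat_lit 1110509462) (nat_lit 16926492596305498225640385)) (C.cons (nat_lit 648) (C.node (nat_lit 4) (nat_lit 6) (nat_lit 9) (C.cons (nat_lit 596) (C.miq (nat_lit 1918960787) (nat_lit 84627371512392619225907769)) (C.cons (nat_lit 592) (C.node (nat_lit 4) (nat_lit 7) (nat_lit 9) (C.cons (nat_lit 658) (C.miq (nat_lit 1093826912) (nat_lit 16927710224684842700571585)) (C.cons (nat_lit 656) (C.node (nat_lit 1) (nat_lit 2) (nat_lit 4) (C.cons (nat_lit 534) (C.node (nat_lit 1) (nat_lit 2) (nat_lit 7) (C.cons (nat_lit 134) (C.node (nat_lit 1) (nat_lit 8) (nat_lit 9) (C.cons (nat_lit 770) (C.node (nat_lit 4) (nat_lit 8) (nat_lit 9) (C.cons (nat_lit 784) (C.node (nat_lit 1) (nat_lit 3) (nat_lit 4) (C.cons (nat_lit 282) (C.node (nat_lit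 1) (nat_lit 4) (nat_lit 7) (C.cons (nat_lit 146) (C.node (nat_lit 1) (nat_lit 7) (nat_lit 8) (C.cons (nat_lit 386) (C.ref (nat_lit 39) (nat_lit 654820258320)) C.nil)) C.nil)) (C.cons (nat_lit 26) (C.node (nat_lit 1) (nat_lit 3) (nat_lit 8) (C.cons (nat_lit 266) (C.node (nat_lit 1) (nat_lit 4) (nat_lit 7) (C.cons (nat_lit 402) (C.node (nat_lit 2) (nat_lit 6) (nat_lit 8) (C.cons (nat_lit 340) (C.miq (nat_lit 826410886) (nat_lit 645567808112632403290489793)) (C.cons (nat_lit 324)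
  (C.node (nat_lit 2) (nat_lit 7) (nat_lit 8) (C.cons (nat_lit 396) (C.miq (nat_lit 1177030711) (nat_lit 391699381169620237649969291)) (C.cons (nat_lit 388) (C.node (nat_lit 3) (nat_lit 4) (nat_lit 7) (C.cons (nat_lit 216) (C.miq (nat_lit 558041206) (nat_lit 31433491792310878898488257)) (C.cons (nat_lit 152) (C.node (nat_lit 1) (nat_lit 5) (nat_lit 6) (C.cons (nat_lit 226) (C.node (nat_lit 1) (nat_lit 5) (nat_lit 9) (C.cons (nat_lit 546) (C.node (nat_lit 1) (nat_lit 7) (nat_lit 9) (C.cons (nat_lit 642) (C.node (nat_lit 2) (nat_lit 7) (nat_lit 6) (C.cons (nat_lit 196) (C.node (nat_lit 4) (nat_lit 5) (nat_lit 7) (C.cons (nat_lit 176) (C.node (nat_lit 4) (nat_lit 7) (nat_lit 6) C.nil) C.nil)) C.nil)) C.nil)) C.nil)) (C.cons (nat_lit 98) (C.node (nat_lit 1) (nat_lit 7) (nat_lit 6) (C.cons (nat_lit 194) (C.node (nat_lit 1) (nat_lit 5) (nat_lit 7) (C.cons (nat_lit 674) (C.node (nat_lit 2) (nat_lit 7) (nat_lit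 9) (C.cons (nat_lit 644) (C.node (nat_lit 2) (nat_lit 5) (nat_lit 9) (C.cons (nat_lit 612) (C.miq (nat_lit 622029168) (nat_lit 50776304995373681537123265)) (C.cons (nat_lit 548) (C.node (nat_lit 2) (nat_lit 4) (nat_lit 8) C.nil) C.nil))) C.nil)) (C.cons (nat_lit 162) (C.node (nat_lit 1) (nat_lit 5) (nat_lit 9) (C.cons (nat_lit 546) (C.node (nat_lit 1) (nat_lit 7) (nat_lit 9) (C.cons (nat_lit 642) (C.node (nat_lit 2) (nat_lit 7) (nat_lit 6) C.nil) C.nil)) C.nil)) C.nil))) C.nil)) C.nil))) C.nil))) C.nil))) C.nil))) (C.cons (nat_lit 146) (C.node (nat_lit 1) (nat_lit 4) (nat_lit 8) (C.cons (nat_lit 274) (C.node (nat_lit 1) (nat_lit 7) (nat_lit 8) (C.cons (nat_lit 386) (C.node (nat_lit 1) (nat_lit 5) (nat_lit 6) (C.cons (nat_lit 226) (C.node (nat_lit 1) (nat_lit 5) (nat_lit 9) (C.cons (nat_lit 546) (C.node (nat_lit 1) (nat_lit 7) (nat_lit 9) (C.cons (nat_lit 642) (C.node (nat_lit 2) (nat_lit 6) (nat_lit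 7) (C.cons (nat_lit 196) (C.node (nat_lit 2) (nat_lit 3) (nat_lit 4) (C.cons (nat_lit 284) (C.node (nat_lit 2) (nat_lit 3) (nat_lit 9) (C.cons (nat_lit 524) (C.node (nat_lit 2) (nat_lit 4) (nat_lit 5) C.nil) C.nil)) (C.cons (nat_lit 28) (C.node (nat_lit 2) (nat_lit 4) (nat_lit 5) (C.cons (nat_lit 116) (C.node (nat_lit 2) (nat_lit 4) (nat_lit 8) C.nil) C.nil)) C.nil))) C.nil)) C.nil)) C.nil)) (C.cons (nat_lit 98) (C.node (nat_lit 1) (nat_lit 6) (nat_lit 7) (C.cons (nat_lit 194) (C.node (nat_lit 1) (nat_lit 5) (nat_lit 7) (C.cons (nat_lit 674) (C.node (nat_lit 2) (nat_lit 7) (nat_lit 9) (C.cons (nat_lit 644) (C.node (nat_lit 2) (nat_lit 5) (nat_lit 9) (C.cons (nat_lit 612) (C.miq (nat_lit 827459478) (nat_lit 356634537224737198784644033)) (C.cons (nat_lit 548) (C.node (nat_lit 2) (nat_lit 6) (nat_lit 9) C.nil) C.nil))) C.nil)) (C.cons (nat_lit 162) (C.node (nat_lit 1) (nat_lit 5) (nat_lit 9) (C.cons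 (nat_lit 546) (C.node (nat_lit 1) (nat_lit 7) (nat_lit 9) (C.cons (nat_lit 642) (C.node (nat_lit 2) (nat_lit 6) (nat_lit 9) C.nil) C.nil)) C.nil)) C.nil))) C.nil)) C.nil))) C.nil)) C.nil)) C.nil))) C.nil)) C.nil))) C.nil)) C.nil)) C.nil)) (C.cons (nat_lit 22) (C.node (nat_lit 1) (nat_lit 2) (nat_lit 7) (C.cons (nat_lit 646) (C.node (nat_lit 1) (nat_lit 5) (nat_lit 9) (C.cons (nat_lit 546) (C.node (nat_lit 5) (nat_lit 7) (nat_lit 9) (C.cons (nat_lit 672) (C.node (nat_lit 1) (nat_lit 3) (nat_lit 4) (C.cons (nat_lit 282) (C.node (nat_lit 1) (nat_lit 4) (nat_lit 7) (C.cons (nat_lit 146) (C.node (nat_lit 1) (nat_lit 4) (nat_lit 9) (C.cons (nat_lit 530) (C.node (nat_lit 1) (nat_lit 7) (nat_lit 8) (C.cons (nat_lit 386) (C.node (nat_lit 1) (nat_lit 8) (nat_lit 9) (C.cons (nat_lit 770) (C.node (nat_lit 2) (nat_lit 3) (nat_lit 4) (C.cons (nat_lit 28) (C.node (nat_lit 1) (nat_lit 5) (nat_lit 6) (C.cons (nat_lit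 226) (C.node (nat_lit 2) (nat_lit 6) (nat_lit 7) (C.cons (nat_lit 196) (C.node (nat_lit 2) (nat_lit 6) (nat_lit 8) (C.cons (nat_lit 340) (C.node (nat_lit 2) (nat_lit 4) (nat_lit 5) (C.cons (nat_lit 52) (C.node (nat_lit 2) (nat_lit 4) (nat_lit 9) (C.cons (nat_lit 532) (C.node (nat_lit 2) (nat_lit 6) (nat_lit 5) C.nil) C.nil)) C.nil))
  (C.cons (nat_lit 324) (C.node (nat_lit 2) (nat_lit 6) (nat_lit 4) (C.cons (nat_lit 116) (C.node (nat_lit 2) (nat_lit 6) (nat_lit 9) (C.cons (nat_lit 580) (C.node (nat_lit 2) (nat_lit 5) (nat_lit 9) (C.cons (nat_lit 548) (C.node (nat_lit 6) (nat_lit 5) (nat_lit 9) C.nil) C.nil)) C.nil)) (C.cons (nat_lit 84) (C.node (nat_lit 2) (nat_lit 4) (nat_lit 5) (C.cons (nat_lit 52) (C.node (nat_lit 2) (nat_lit 6) (nat_lit 5) C.nil) C.nil)) C.nil))) C.nil))) C.nil)) (C.cons (nat_lit 98) (C.node (nat_lit 1) (nat_lit 5) (nat_lit 7) (C.cons (nat_lit 162) (C.node (nat_lit 1) (nat_lit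 6) (nat_lit 7) (C.cons (nat_lit 194) (C.node (nat_lit 2) (nat_lit 6) (nat_lit 7) (C.cons (nat_lit 228) (C.node (nat_lit 2) (nat_lit 6) (nat_lit 9) (C.cons (nat_lit 580) (C.node (nat_lit 2) (nat_lit 7) (nat_lit 8) C.nil) C.nil)) (C.cons (nat_lit 196) (C.node (nat_lit 2) (nat_lit 7) (nat_lit 8) (C.cons (nat_lit 396) (C.node (nat_lit 2) (nat_lit 7) (nat_lit 5) C.nil) C.nil)) C.nil))) C.nil)) C.nil)) C.nil))) C.nil)) C.nil)) C.nil)) C.nil)) C.nil)) (C.cons (nat_lit 26) (C.node (nat_lit 1) (nat_lit 3) (nat_lit 8) (C.cons (nat_lit 266) (C.node (nat_lit 1) (nat_lit 4) (nat_lit 7) (C.cons (nat_lit 402) (C.node (nat_lit 1) (nat_lit 4) (nat_lit 9) (C.cons (nat_lit 530) (C.node (nat_lit 1) (nat_lit 8) (nat_lit 9) (C.cons (nat_lit 770) (C.node (nat_lit 2) (nat_lit 6) (nat_lit 8) (C.cons (nat_lit 340) (C.miq (nat_lit 826410886) (nat_lit 26597788469942265840927681)) (C.cons (nat_lit 324) (C.node (nat_lit 2) (nat_lit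 7) (nat_lit 8) (C.cons (nat_lit 396) (C.miq (nat_lit 1177030711) (nat_lit 391699381169620237649969291)) (C.cons (nat_lit 388) (C.node (nat_lit 3) (nat_lit 4) (nat_lit 7) (C.cons (nat_lit 216) (C.miq (nat_lit 558041206) (nat_lit 31433491792310878898488257)) (C.cons (nat_lit 152) (C.node (nat_lit 1) (nat_lit 7) (nat_lit 6) (C.cons (nat_lit 226) (C.node (nat_lit 2) (nat_lit 7) (nat_lit 6) (C.cons (nat_lit 196) (C.node (nat_lit 7) (nat_lit 6) (nat_lit 4) (C.cons (nat_lit 208) (C.node (nat_lit 7) (nat_lit 4) (nat_lit 5) C.nil) C.nil)) C.nil)) (C.cons (nat_lit 194) (C.node (nat_lit 1) (nat_lit 7) (nat_lit 5) (C.cons (nat_lit 162) (C.node (nat_lit 1) (nat_lit 6) (nat_lit 5) (C.cons (nat_lit 98) (C.node (nat_lit 2) (nat_lit 7) (nat_lit 6) C.nil) C.nil)) C.nil)) C.nil))) C.nil))) C.nil))) C.nil))) C.nil)) C.nil)) (C.cons (nat_lit 146) (C.node (nat_lit 1) (nat_lit 7) (nat_lit 8) (C.cons (nat_lit 386) (C.node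 (nat_lit 1) (nat_lit 4) (nat_lit 8) (C.cons (nat_lit 786) (C.node (nat_lit 2) (nat_lit 4) (nat_lit 9) (C.cons (nat_lit 532) (C.node (nat_lit 2) (nat_lit 3) (nat_lit 9) (C.cons (nat_lit 780) (C.miq (nat_lit 1635910803) (nat_lit 356634537208975081136194105)) (C.cons (nat_lit 524) (C.node (nat_lit 2) (nat_lit 8) (nat_lit 9) (C.cons (nat_lit 772) (C.node (nat_lit 3) (nat_lit 8) (nat_lit 9) (C.cons (nat_lit 776) (C.node (nat_lit 1) (nat_lit 5) (nat_lit 6) (C.cons (nat_lit 226) (C.node (nat_lit 2) (nat_lit 6) (nat_lit 7) (C.cons (nat_lit 196) (C.node (nat_lit 2) (nat_lit 6) (nat_lit 8) (C.cons (nat_lit 340) (C.node (nat_lit 2) (nat_lit 3) (nat_lit 4) C.nil) (C.cons (nat_lit 324) (C.node (nat_lit 2) (nat_lit 6) (nat_lit 4) C.nil) C.nil))) C.nil)) (C.cons (nat_lit 98) (C.node (nat_lit 1) (nat_lit 5) (nat_lit 7) C.nil) C.nil))) C.nil)) C.nil)) C.nil))) C.nil)) (C.cons (nat_lit 274) (C.node (nat_lit 1) (nat_lit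 4) (nat_lit 9) (C.cons (nat_lit 530) (C.node (nat_lit 1) (nat_lit 8) (nat_lit 9) (C.cons (nat_lit 770) (C.node (nat_lit 1) (nat_lit 5) (nat_lit 6) (C.cons (nat_lit 226) (C.node (nat_lit 2) (nat_lit 6) (nat_lit 7) (C.cons (nat_lit 196) (C.node (nat_lit 2) (nat_lit 6) (nat_lit 8) (C.cons (nat_lit 340) (C.node (nat_lit 2) (nat_lit 3) (nat_lit 4) (C.cons (nat_lit 28) (C.node (nat_lit 2) (nat_lit 4) (nat_lit 5) C.nil) C.nil)) (C.cons (nat_lit 324) (C.node (nat_lit 2) (nat_lit 6) (nat_lit 4) (C.cons (nat_lit 116) (C.node (nat_lit 2) (nat_lit 6) (nat_lit 9) C.nil) C.nil)) C.nil))) C.nil)) (C.cons (nat_lit 98) (C.node (nat_lit 1) (nat_lit 5) (nat_lit 7) (C.cons (nat_lit 162)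
  (C.node (nat_lit 2) (nat_lit 3) (nat_lit 9) C.nil) C.nil)) C.nil))) C.nil)) C.nil)) C.nil))) C.nil)) C.nil))) C.nil)) C.nil))) C.nil)) C.nil)) (C.cons (nat_lit 134) (C.node (nat_lit 1) (nat_lit 2) (nat_lit 9) (C.cons (nat_lit 518) (C.node (nat_lit 1) (nat_lit 3) (nat_lit 4) (C.cons (nat_lit 282) (C.node (nat_lit 1) (nat_lit 4) (nat_lit 7) (C.cons (nat_lit 146) (C.node (nat_lit 1) (nat_lit 4) (nat_lit 9) (C.cons (nat_lit 530) (C.node (nat_lit 1) (nat_lit 7) (nat_lit 8) (C.cons (nat_lit 386) (C.ref (nat_lit 40) (nat_lit 654820258320)) C.nil)) C.nil)) C.nil)) (C.cons (nat_lit 26) (C.node (nat_lit 1) (nat_lit 3) (nat_lit 8) (C.cons (nat_lit 266) (C.node (nat_lit 1) (nat_lit 4) (nat_lit 7) (C.cons (nat_lit 402) (C.node (nat_lit 1) (nat_lit 4) (nat_lit 9) (C.cons (nat_lit 530) (C.node (nat_lit 1) (nat_lit 8) (nat_lit 9) (C.cons (nat_lit 770) (C.node (nat_lit 2) (nat_lit 6) (nat_lit 8) (C.cons (nat_lit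 340) (C.miq (nat_lit 826410886) (nat_lit 26597788469942265840927681)) (C.cons (nat_lit 324) (C.node (nat_lit 2) (nat_lit 7) (nat_lit 8) (C.cons (nat_lit 396) (C.miq (nat_lit 1177030711) (nat_lit 391699381169620237649969291)) (C.cons (nat_lit 388) (C.node (nat_lit 3) (nat_lit 4) (nat_lit 7) (C.cons (nat_lit 216) (C.miq (nat_lit 558041206) (nat_lit 31433491792310878898488257)) (C.cons (nat_lit 152) (C.node (nat_lit 1) (nat_lit 7) (nat_lit 6) (C.cons (nat_lit 226) (C.node (nat_lit 1) (nat_lit 7) (nat_lit 9) (C.cons (nat_lit 642) (C.node (nat_lit 1) (nat_lit 5) (nat_lit 9) (C.cons (nat_lit 546) (C.node (nat_lit 2) (nat_lit 7) (nat_lit 6) (C.cons (nat_lit 196) (C.node (nat_lit 7) (nat_lit 6) (nat_lit 4) (C.cons (nat_lit 208) (C.node (nat_lit 7) (nat_lit 6) (nat_lit 3) C.nil) C.nil)) C.nil)) C.nil)) C.nil)) (C.cons (nat_lit 194) (C.node (nat_lit 1) (nat_lit 6) (nat_lit 5) (C.cons (nat_lit 98) (C.node (nat_lit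 1) (nat_lit 7) (nat_lit 5) (C.cons (nat_lit 674) (C.node (nat_lit 2) (nat_lit 5) (nat_lit 9) (C.cons (nat_lit 612) (C.miq (nat_lit 622029168) (nat_lit 50776304995373681537123265)) C.nil)) (C.cons (nat_lit 162) (C.node (nat_lit 2) (nat_lit 7) (nat_lit 9) C.nil) C.nil))) C.nil)) C.nil))) C.nil))) C.nil))) C.nil))) C.nil)) C.nil)) (C.cons (nat_lit 146) (C.node (nat_lit 1) (nat_lit 7) (nat_lit 8) (C.cons (nat_lit 386) (C.ref (nat_lit 41) (nat_lit 654820258320)) C.nil)) C.nil))) C.nil)) C.nil))) C.nil)) C.nil))) C.nil))) C.nil))) C.nil))) C.nil))) C.nil))) C.nil))) (C.cons (nat_lit 74) (C.node (nat_lit 3) (nat_lit 6) (nat_lit 9) (C.cons (nat_lit 584) (C.node (nat_lit 1) (nat_lit 7) (nat_lit 8) (C.cons (nat_lit 402) (C.node (nat_lit 4) (nat_lit 7) (nat_lit 9) (C.cons (nat_lit 656) (C.node (nat_lit 1) (nat_lit 3) (nat_lit 4) (C.cons (nat_lit 30) (C.miq (nat_lit 2167829536) (nat_lit 89478238085690463299109013))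 (C.cons (nat_lit 26) (C.node (nat_lit 2) (nat_lit 6) (nat_lit 8) (C.cons (nat_lit 340) (C.miq (nat_lit 588537976) (nat_lit 31438343224639590023431105)) (C.cons (nat_lit 324) (C.node (nat_lit 2) (nat_lit 7) (nat_lit 8) (C.cons (nat_lit 396) (C.miq (nat_lit 1177030711) (nat_lit 391699381169620237649969291)) (C.cons (nat_lit 388) (C.node (nat_lit 3) (nat_lit 4) (nat_lit 7) (C.cons (nat_lit 216) (C.miq (nat_lit 558041206) (nat_lit 31433491792310878898488257)) (C.cons (nat_lit 152) (C.node (nat_lit 1) (nat_lit 2) (nat_lit 3) (C.cons (nat_lit 526) (C.node (nat_lit 1) (nat_lit 2) (nat_lit 4) (C.cons (nat_lit 22) (C.node (nat_lit 1) (nat_lit 3) (nat_lit 8) (C.cons (nat_lit 266) (C.node (nat_lit 1) (nat_lit 4) (nat_lit 9) (C.cons (nat_lit 530) (C.node (nat_lit 1) (nat_lit 8) (nat_lit 9) (C.cons (nat_lit 770) (C.node (nat_lit 3) (nat_lit 7) (nat_lit 9) (C.cons (nat_lit 648) (C.ref (nat_lit 38) (nat_lit 654568538640))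 C.nil)) C.nil)) C.nil)) C.nil)) C.nil)) (C.cons (nat_lit 14) (C.node (nat_lit 1) (nat_lit 2) (nat_lit 4) (C.cons (nat_lit 534) (C.node (nat_lit 4) (nat_lit 6) (nat_lit 9) (C.cons (nat_lit 592) (C.node (nat_lit 4) (nat_lit 8) (nat_lit 9) (C.cons (nat_lit 784) (C.node (nat_lit 1) (nat_lit 2) (nat_lit 6) (C.cons (nat_lit 198)
  (C.node (nat_lit 1) (nat_lit 5) (nat_lit 7) (C.cons (nat_lit 674) (C.miq (nat_lit 1361287008) (nat_lit 16935457861697733892309953)) (C.cons (nat_lit 162) (C.node (nat_lit 1) (nat_lit 7) (nat_lit 9) (C.cons (nat_lit 642) (C.node (nat_lit 1) (nat_lit 6) (nat_lit 5) (C.cons (nat_lit 610) (C.miq (nat_lit 1361352304) (nat_lit 645576884043290506234758081)) (C.cons (nat_lit 98) (C.node (nat_lit 1) (nat_lit 6) (nat_lit 9) (C.cons (nat_lit 578) (C.node (nat_lit 1) (nat_lit 5) (nat_lit 9) (C.cons (nat_lit 546) (C.node (nat_lit 2) (nat_lit 6) (nat_lit 4) (C.cons (nat_lit 116) (C.miq (nat_lit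 1731469573) (nat_lit 183758864459468827289780519)) (C.cons (nat_lit 84) (C.node (nat_lit 2) (nat_lit 4) (nat_lit 5) (C.cons (nat_lit 52) (C.node (nat_lit 2) (nat_lit 6) (nat_lit 5) (C.cons (nat_lit 612) (C.miq (nat_lit 1377015408) (nat_lit 16935457844246285340312513)) (C.cons (nat_lit 100) (C.node (nat_lit 7) (nat_lit 6) (nat_lit 4) C.nil) C.nil))) C.nil)) C.nil))) C.nil)) C.nil)) C.nil))) C.nil)) C.nil))) (C.cons (nat_lit 70) (C.node (nat_lit 1) (nat_lit 2) (nat_lit 7) (C.cons (nat_lit 134) (C.ref (nat_lit 37) (nat_lit 654568538640)) C.nil)) C.nil))) C.nil)) C.nil)) (C.cons (nat_lit 22) (C.node (nat_lit 1) (nat_lit 4) (nat_lit 9) (C.cons (nat_lit 530) (C.node (nat_lit 1) (nat_lit 3) (nat_lit 8) (C.cons (nat_lit 778) (C.node (nat_lit 2) (nat_lit 8) (nat_lit 9) (C.cons (nat_lit 788) (C.miq (nat_lit 405223744) (nat_lit 469065782326893281738555961)) (C.cons (nat_lit 772) (C.node (nat_lit 4) (nat_lit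 8) (nat_lit 9) (C.cons (nat_lit 784) (C.ref (nat_lit 33) (nat_lit 640831353360)) C.nil)) C.nil))) (C.cons (nat_lit 266) (C.node (nat_lit 1) (nat_lit 3) (nat_lit 9) (C.cons (nat_lit 522) (C.node (nat_lit 1) (nat_lit 8) (nat_lit 9) (C.cons (nat_lit 770) (C.ref (nat_lit 35) (nat_lit 640831353360)) C.nil)) C.nil)) C.nil))) C.nil)) C.nil))) C.nil))) C.nil))) C.nil))) C.nil))) C.nil))) C.nil)) (C.cons (nat_lit 386) (C.node (nat_lit 1) (nat_lit 4) (nat_lit 7) (C.cons (nat_lit 658) (C.node (nat_lit 1) (nat_lit 2) (nat_lit 4) (C.cons (nat_lit 30) (C.miq (nat_lit 2436264992) (nat_lit 89478238157748057337036949)) (C.cons (nat_lit 22) (C.node (nat_lit 1) (nat_lit 2) (nat_lit 7) (C.cons (nat_lit 198) (C.miq (nat_lit 873597302) (nat_lit 26597788590977605328831425)) (C.cons (nat_lit 134) (C.node (nat_lit 3) (nat_lit 7) (nat_lit 9) (C.cons (nat_lit 652) (C.miq (nat_lit 1634862227) (nat_lit 161997480251019234244297273))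 (C.cons (nat_lit 648) (C.node (nat_lit 4) (nat_lit 6) (nat_lit 9) (C.cons (nat_lit 596) (C.miq (nat_lit 826410902) (nat_lit 26597788469943365369332673)) (C.cons (nat_lit 592) (C.node (nat_lit 1) (nat_lit 2) (nat_lit 3) (C.cons (nat_lit 526) (C.node (nat_lit 1) (nat_lit 2) (nat_lit 6) (C.cons (nat_lit 70) (C.ref (nat_lit 42) (nat_lit 654820258320)) C.nil)) (C.cons (nat_lit 14) (C.node (nat_lit 1) (nat_lit 2) (nat_lit 6) (C.cons (nat_lit 582) (C.ref (nat_lit 42) (nat_lit 641083073040)) (C.cons (nat_lit 70) (C.node (nat_lit 1) (nat_lit 2) (nat_lit 9) (C.cons (nat_lit 518) (C.node (nat_lit 1) (nat_lit 3) (nat_lit 4) (C.cons (nat_lit 282) (C.node (nat_lit 1) (nat_lit 3) (nat_lit 9) (C.cons (nat_lit 522) (C.ref (nat_lit 40) (nat_lit 654568538640)) C.nil)) (C.cons (nat_lit 26) (C.node (nat_lit 1) (nat_lit 4) (nat_lit 8) (C.cons (nat_lit 274) (C.ref (nat_lit 41) (nat_lit 654568538640)) C.nil)) C.nil))) C.nil))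 C.nil))) C.nil))) C.nil))) C.nil))) C.nil))) C.nil))) (C.cons (nat_lit 146) (C.node (nat_lit 4) (nat_lit 7) (nat_lit 9) (C.cons (nat_lit 656) (C.node (nat_lit 2) (nat_lit 3) (nat_lit 5) (C.cons (nat_lit 172) (C.node (nat_lit 2) (nat_lit 7) (nat_lit 8) (C.cons (nat_lit 388) (C.node (nat_lit 3) (nat_lit 7) (nat_lit 9) (C.cons (nat_lit 648) (C.node (nat_lit 2) (nat_lit 4) (nat_lit 5) (C.cons (nat_lit 116) (C.miq (nat_lit 1900359778) (nat_lit 60449463859837515030855757)) (C.cons (nat_lit 52) (C.ref (nat_lit 43) (nat_lit 654820258320)) C.nil))) C.nil)) C.nil)) (C.cons (nat_lit 44) (C.node (nat_lit 2) (nat_lit 4) (nat_lit 5) (C.cons (nat_lit 116)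
  (C.node (nat_lit 2) (nat_lit 6) (nat_lit 8) (C.cons (nat_lit 324) (C.node (nat_lit 4) (nat_lit 6) (nat_lit 9) (C.cons (nat_lit 592) (C.ref (nat_lit 43) (nat_lit 654568538640)) C.nil)) C.nil)) (C.cons (nat_lit 52) (C.node (nat_lit 2) (nat_lit 6) (nat_lit 8) (C.cons (nat_lit 340) (C.node (nat_lit 4) (nat_lit 6) (nat_lit 9) (C.cons (nat_lit 592) (C.node (nat_lit 2) (nat_lit 3) (nat_lit 4) (C.cons (nat_lit 30) (C.miq (nat_lit 2216124976) (nat_lit 176520897080492315325956173)) (C.cons (nat_lit 28) (C.node (nat_lit 2) (nat_lit 7) (nat_lit 8) (C.cons (nat_lit 396) (C.miq (nat_lit 321128326) (nat_lit 33851454068094457376670657)) (C.cons (nat_lit 388) (C.node (nat_lit 3) (nat_lit 4) (nat_lit 6) (C.cons (nat_lit 216) (C.miq (nat_lit 306382951) (nat_lit 33852487129672440952128449)) (C.cons (nat_lit 88) (C.node (nat_lit 1) (nat_lit 2) (nat_lit 3) (C.cons (nat_lit 526) (C.node (nat_lit 1) (nat_lit 2) (nat_lit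 4) (C.cons (nat_lit 22) (C.node (nat_lit 2) (nat_lit 3) (nat_lit 7) (C.cons (nat_lit 140) (C.node (nat_lit 2) (nat_lit 3) (nat_lit 8) (C.cons (nat_lit 268) (C.node (nat_lit 2) (nat_lit 4) (nat_lit 9) (C.cons (nat_lit 532) (C.node (nat_lit 2) (nat_lit 8) (nat_lit 9) (C.cons (nat_lit 772) (C.node (nat_lit 3) (nat_lit 7) (nat_lit 9) (C.cons (nat_lit 648) (C.node (nat_lit 3) (nat_lit 8) (nat_lit 9) (C.cons (nat_lit 776) (C.node (nat_lit 2) (nat_lit 7) (nat_lit 9) (C.cons (nat_lit 644) (C.node (nat_lit 3) (nat_lit 4) (nat_lit 7) (C.cons (nat_lit 152) (C.node (nat_lit 1) (nat_lit 3) (nat_lit 4) C.nil) C.nil)) C.nil)) C.nil)) C.nil)) C.nil)) C.nil)) C.nil)) C.nil)) C.nil)) (C.cons (nat_lit 14) (C.node (nat_lit 1) (nat_lit 2) (nat_lit 4) (C.cons (nat_lit 534) (C.node (nat_lit 4) (nat_lit 8) (nat_lit 9) (C.cons (nat_lit 784) (C.node (nat_lit 1) (nat_lit 2) (nat_lit 6) (C.cons (nat_lit 198) (C.node (nat_lit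 1) (nat_lit 5) (nat_lit 6) (C.cons (nat_lit 610) (C.miq (nat_lit 1361352304) (nat_lit 645576884043290506234758081)) (C.cons (nat_lit 98) (C.node (nat_lit 1) (nat_lit 6) (nat_lit 9) (C.cons (nat_lit 578) (C.node (nat_lit 1) (nat_lit 5) (nat_lit 7) (C.cons (nat_lit 674) (C.miq (nat_lit 1361287008) (nat_lit 16935457861697733892309953)) (C.cons (nat_lit 162) (C.node (nat_lit 1) (nat_lit 5) (nat_lit 9) (C.cons (nat_lit 546) (C.node (nat_lit 1) (nat_lit 7) (nat_lit 9) (C.cons (nat_lit 642) (C.node (nat_lit 1) (nat_lit 3) (nat_lit 4) C.nil) C.nil)) C.nil)) C.nil))) C.nil)) C.nil))) (C.cons (nat_lit 70) (C.node (nat_lit 1) (nat_lit 2) (nat_lit 7) (C.cons (nat_lit 134) (C.node (nat_lit 1) (nat_lit 3) (nat_lit 4) (C.cons (nat_lit 282) (C.node (nat_lit 1) (nat_lit 3) (nat_lit 9) (C.cons (nat_lit 522) (C.node (nat_lit 1) (nat_lit 8) (nat_lit 9) (C.cons (nat_lit 770) (C.node (nat_lit 3) (nat_lit 4) (nat_lit 7)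 (C.cons (nat_lit 152) (C.node (nat_lit 1) (nat_lit 6) (nat_lit 7) C.nil) C.nil)) C.nil)) C.nil)) (C.cons (nat_lit 26) (C.node (nat_lit 1) (nat_lit 4) (nat_lit 8) (C.cons (nat_lit 274) (C.node (nat_lit 1) (nat_lit 3) (nat_lit 8) (C.cons (nat_lit 778) (C.node (nat_lit 2) (nat_lit 3) (nat_lit 8) (C.cons (nat_lit 268) (C.node (nat_lit 2) (nat_lit 8) (nat_lit 9) C.nil) C.nil)) (C.cons (nat_lit 266) (C.node (nat_lit 1) (nat_lit 8) (nat_lit 9) C.nil) C.nil))) C.nil)) C.nil))) C.nil)) C.nil))) C.nil)) (C.cons (nat_lit 22) (C.node (nat_lit 2) (nat_lit 4) (nat_lit 9) (C.cons (nat_lit 532) (C.node (nat_lit 1) (nat_lit 3) (nat_lit 4) (C.cons (nat_lit 282) (C.node (nat_lit 1) (nat_lit 3) (nat_lit 9) (C.cons (nat_lit 522) (C.node (nat_lit 1) (nat_lit 4) (nat_lit 9) (C.cons (nat_lit 530) (C.node (nat_lit 1) (nat_lit 8) (nat_lit 9) (C.cons (nat_lit 770) (C.node (nat_lit 3) (nat_lit 4) (nat_lit 7) (C.cons (nat_lit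 152) (C.node (nat_lit 4) (nat_lit 8) (nat_lit 9) (C.cons (nat_lit 784) (C.node (nat_lit 2) (nat_lit 3) (nat_lit 7) C.nil) C.nil)) C.nil)) C.nil)) C.nil)) C.nil)) (C.cons (nat_lit 26) (C.node (nat_lit 1) (nat_lit 3) (nat_lit 8) (C.cons (nat_lit 778) (C.node (nat_lit 1) (nat_lit 4) (nat_lit 8) (C.cons (nat_lit 274)
  (C.node (nat_lit 1) (nat_lit 4) (nat_lit 9) (C.cons (nat_lit 530) (C.node (nat_lit 2) (nat_lit 3) (nat_lit 8) (C.cons (nat_lit 268) (C.node (nat_lit 2) (nat_lit 8) (nat_lit 9) C.nil) C.nil)) C.nil)) C.nil)) (C.cons (nat_lit 266) (C.node (nat_lit 1) (nat_lit 3) (nat_lit 9) (C.cons (nat_lit 522) (C.node (nat_lit 1) (nat_lit 4) (nat_lit 8) (C.cons (nat_lit 786) (C.node (nat_lit 2) (nat_lit 3) (nat_lit 8) (C.cons (nat_lit 780) (C.miq (nat_lit 405162288) (nat_lit 411036309969974719066997305)) (C.cons (nat_lit 268) (C.node (nat_lit 2) (nat_lit 8) (nat_lit 9) (C.cons (nat_lit 772) (C.node (nat_lit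 3) (nat_lit 8) (nat_lit 9) C.nil) C.nil)) C.nil))) (C.cons (nat_lit 274) (C.node (nat_lit 1) (nat_lit 4) (nat_lit 9) (C.cons (nat_lit 530) (C.node (nat_lit 1) (nat_lit 8) (nat_lit 9) C.nil) C.nil)) C.nil))) C.nil)) C.nil))) C.nil))) C.nil)) C.nil))) C.nil))) C.nil))) C.nil))) C.nil))) C.nil)) (C.cons (nat_lit 324) (C.node (nat_lit 2) (nat_lit 4) (nat_lit 6) (C.cons (nat_lit 596) (C.node (nat_lit 1) (nat_lit 2) (nat_lit 4) (C.cons (nat_lit 30) (C.miq (nat_lit 2484560432) (nat_lit 176520897152549909363884109)) (C.cons (nat_lit 22) (C.node (nat_lit 1) (nat_lit 2) (nat_lit 6) (C.cons (nat_lit 198) (C.miq (nat_lit 874580327) (nat_lit 26598932289109909033059265)) (C.cons (nat_lit 70) (C.node (nat_lit 3) (nat_lit 7) (nat_lit 9) (C.cons (nat_lit 652) (C.miq (nat_lit 843151712) (nat_lit 26598932312472332092507073)) (C.cons (nat_lit 648) (C.node (nat_lit 1) (nat_lit 2) (nat_lit 3) (C.cons (nat_lit 526) (C.node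 (nat_lit 1) (nat_lit 2) (nat_lit 7) (C.cons (nat_lit 134) (C.node (nat_lit 2) (nat_lit 8) (nat_lit 9) (C.cons (nat_lit 772) (C.node (nat_lit 3) (nat_lit 8) (nat_lit 9) (C.cons (nat_lit 776) (C.node (nat_lit 1) (nat_lit 3) (nat_lit 4) (C.cons (nat_lit 282) (C.node (nat_lit 1) (nat_lit 4) (nat_lit 9) (C.cons (nat_lit 530) (C.node (nat_lit 1) (nat_lit 8) (nat_lit 9) (C.cons (nat_lit 770) (C.node (nat_lit 2) (nat_lit 3) (nat_lit 4) (C.cons (nat_lit 28) (C.node (nat_lit 2) (nat_lit 4) (nat_lit 8) (C.cons (nat_lit 276) (C.node (nat_lit 4) (nat_lit 8) (nat_lit 9) C.nil) C.nil)) C.nil)) C.nil)) C.nil)) (C.cons (nat_lit 26) (C.node (nat_lit 1) (nat_lit 3) (nat_lit 8) (C.cons (nat_lit 266) (C.node (nat_lit 1) (nat_lit 4) (nat_lit 8) (C.cons (nat_lit 786) (C.node (nat_lit 1) (nat_lit 6) (nat_lit 7) (C.cons (nat_lit 226) (C.node (nat_lit 1) (nat_lit 5) (nat_lit 9) (C.cons (nat_lit 546) (C.node (nat_lit 1) (nat_lit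 6) (nat_lit 9) C.nil) C.nil)) (C.cons (nat_lit 194) (C.node (nat_lit 2) (nat_lit 3) (nat_lit 8) C.nil) C.nil))) (C.cons (nat_lit 274) (C.node (nat_lit 1) (nat_lit 4) (nat_lit 9) (C.cons (nat_lit 530) (C.node (nat_lit 1) (nat_lit 8) (nat_lit 9) (C.cons (nat_lit 770) (C.node (nat_lit 2) (nat_lit 3) (nat_lit 4) C.nil) C.nil)) C.nil)) C.nil))) C.nil)) C.nil))) C.nil)) C.nil)) C.nil)) (C.cons (nat_lit 14) (C.node (nat_lit 1) (nat_lit 2) (nat_lit 7) (C.cons (nat_lit 646) (C.node (nat_lit 2) (nat_lit 5) (nat_lit 9) (C.cons (nat_lit 548) (C.node (nat_lit 5) (nat_lit 7) (nat_lit 9) (C.cons (nat_lit 672) (C.node (nat_lit 1) (nat_lit 3) (nat_lit 4) (C.cons (nat_lit 282) (C.node (nat_lit 1) (nat_lit 3) (nat_lit 9) (C.cons (nat_lit 522) (C.node (nat_lit 1) (nat_lit 4) (nat_lit 9) (C.cons (nat_lit 530) (C.node (nat_lit 1) (nat_lit 8) (nat_lit 9) (C.cons (nat_lit 770) (C.node (nat_lit 2) (nat_lit 3) (nat_lit 4)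 (C.cons (nat_lit 28) (C.node (nat_lit 2) (nat_lit 4) (nat_lit 8) C.nil) C.nil)) C.nil)) C.nil)) C.nil)) (C.cons (nat_lit 26) (C.node (nat_lit 1) (nat_lit 3) (nat_lit 8) (C.cons (nat_lit 778) (C.node (nat_lit 1) (nat_lit 4) (nat_lit 8) (C.cons (nat_lit 274) (C.node (nat_lit 1) (nat_lit 4) (nat_lit 9) (C.cons (nat_lit 530) (C.node (nat_lit 2) (nat_lit 3) (nat_lit 9) C.nil) C.nil)) C.nil)) (C.cons (nat_lit 266) (C.node (nat_lit 1) (nat_lit 3) (nat_lit 9) (C.cons (nat_lit 522) (C.node (nat_lit 5) (nat_lit 6) (nat_lit 9) (C.cons (nat_lit 610) (C.node (nat_lit 1) (nat_lit 5) (nat_lit 7) (C.cons (nat_lit 162)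
  (C.node (nat_lit 1) (nat_lit 6) (nat_lit 7) C.nil) C.nil)) C.nil)) C.nil)) C.nil))) C.nil))) C.nil)) C.nil)) (C.cons (nat_lit 134) (C.node (nat_lit 1) (nat_lit 2) (nat_lit 9) (C.cons (nat_lit 518) (C.node (nat_lit 1) (nat_lit 3) (nat_lit 4) (C.cons (nat_lit 282) (C.node (nat_lit 1) (nat_lit 3) (nat_lit 9) (C.cons (nat_lit 522) (C.node (nat_lit 1) (nat_lit 4) (nat_lit 9) (C.cons (nat_lit 530) (C.node (nat_lit 1) (nat_lit 8) (nat_lit 9) (C.cons (nat_lit 770) (C.node (nat_lit 2) (nat_lit 3) (nat_lit 4) (C.cons (nat_lit 28) (C.node (nat_lit 2) (nat_lit 4) (nat_lit 8) (C.cons (nat_lit 276) (C.node (nat_lit 4) (nat_lit 8) (nat_lit 9) (C.cons (nat_lit 784) (C.node (nat_lit 1) (nat_lit 6) (nat_lit 7) C.nil) C.nil)) C.nil)) C.nil)) C.nil)) C.nil)) C.nil)) (C.cons (nat_lit 26) (C.node (nat_lit 1) (nat_lit 3) (nat_lit 8) (C.cons (nat_lit 778) (C.node (nat_lit 1) (nat_lit 4) (nat_lit 8) (C.cons (nat_lit 274)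 (C.node (nat_lit 1) (nat_lit 4) (nat_lit 9) (C.cons (nat_lit 530) (C.node (nat_lit 2) (nat_lit 3) (nat_lit 9) (C.cons (nat_lit 524) (C.node (nat_lit 2) (nat_lit 8) (nat_lit 9) (C.cons (nat_lit 772) (C.node (nat_lit 2) (nat_lit 3) (nat_lit 4) C.nil) C.nil)) C.nil)) C.nil)) C.nil)) (C.cons (nat_lit 266) (C.node (nat_lit 1) (nat_lit 3) (nat_lit 9) (C.cons (nat_lit 522) (C.node (nat_lit 1) (nat_lit 4) (nat_lit 8) (C.cons (nat_lit 786) (C.node (nat_lit 2) (nat_lit 3) (nat_lit 9) (C.cons (nat_lit 780) (C.miq (nat_lit 405162288) (nat_lit 391693496856140652271698489)) (C.cons (nat_lit 524) (C.node (nat_lit 2) (nat_lit 8) (nat_lit 9) (C.cons (nat_lit 772) (C.node (nat_lit 3) (nat_lit 8) (nat_lit 9) C.nil) C.nil)) C.nil))) (C.cons (nat_lit 274) (C.node (nat_lit 1) (nat_lit 4) (nat_lit 9) (C.cons (nat_lit 530) (C.node (nat_lit 4) (nat_lit 8) (nat_lit 9) C.nil) C.nil)) C.nil))) C.nil)) C.nil))) C.nil))) C.nil))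 C.nil))) C.nil))) C.nil))) C.nil))) C.nil))) (C.cons (nat_lit 84) (C.node (nat_lit 4) (nat_lit 6) (nat_lit 9) (C.cons (nat_lit 592) (C.node (nat_lit 2) (nat_lit 7) (nat_lit 8) (C.cons (nat_lit 396) (C.node (nat_lit 3) (nat_lit 7) (nat_lit 9) (C.cons (nat_lit 648) (C.ref (nat_lit 44) (nat_lit 654820258320)) C.nil)) (C.cons (nat_lit 388) (C.node (nat_lit 2) (nat_lit 3) (nat_lit 7) (C.cons (nat_lit 652) (C.ref (nat_lit 44) (nat_lit 590395548480)) (C.cons (nat_lit 140) (C.node (nat_lit 3) (nat_lit 7) (nat_lit 9) (C.cons (nat_lit 648) (C.node (nat_lit 1) (nat_lit 2) (nat_lit 3) (C.cons (nat_lit 526) (C.node (nat_lit 1) (nat_lit 2) (nat_lit 4) (C.cons (nat_lit 22) (C.ref (nat_lit 45) (nat_lit 654820258320)) C.nil)) (C.cons (nat_lit 30) (C.node (nat_lit 1) (nat_lit 3) (nat_lit 8) (C.cons (nat_lit 778) (C.miq (nat_lit 2014447924) (nat_lit 356635865621683383366976057)) (C.cons (nat_lit 266) (C.node (nat_lit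 1) (nat_lit 3) (nat_lit 9) (C.cons (nat_lit 522) (C.node (nat_lit 1) (nat_lit 4) (nat_lit 8) (C.cons (nat_lit 786) (C.miq (nat_lit 1746012483) (nat_lit 356634537456110110638998073)) (C.cons (nat_lit 274) (C.node (nat_lit 1) (nat_lit 4) (nat_lit 9) (C.cons (nat_lit 530) (C.node (nat_lit 1) (nat_lit 8) (nat_lit 9) (C.cons (nat_lit 770) (C.node (nat_lit 2) (nat_lit 3) (nat_lit 8) (C.cons (nat_lit 780) (C.miq (nat_lit 1746995508) (nat_lit 356634648136574527126503993)) (C.cons (nat_lit 268) (C.node (nat_lit 2) (nat_lit 3) (nat_lit 9) (C.cons (nat_lit 524) (C.node (nat_lit 3) (nat_lit 8) (nat_lit 9) (C.cons (nat_lit 776) (C.node (nat_lit 2) (nat_lit 4) (nat_lit 8) C.nil) C.nil)) C.nil)) C.nil))) C.nil)) C.nil)) C.nil))) C.nil)) C.nil))) (C.cons (nat_lit 14) (C.node (nat_lit 1) (nat_lit 2) (nat_lit 4) (C.cons (nat_lit 534) (C.ref (nat_lit 45) (nat_lit 654820196640)) (C.cons (nat_lit 22) (C.node (nat_lit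 1) (nat_lit 3) (nat_lit 4) (C.cons (nat_lit 282) (C.node (nat_lit 1) (nat_lit 3) (nat_lit 9) (C.cons (nat_lit 522) (C.node (nat_lit 1) (nat_lit 4) (nat_lit 9) (C.cons (nat_lit 530) (C.node (nat_lit 1) (nat_lit 8) (nat_lit 9) (C.cons (nat_lit 770) (C.node (nat_lit 2) (nat_lit 3) (nat_lit 4) (C.cons (nat_lit 28)
  (C.node (nat_lit 3) (nat_lit 4) (nat_lit 6) (C.cons (nat_lit 88) (C.node (nat_lit 3) (nat_lit 4) (nat_lit 7) C.nil) C.nil)) C.nil)) C.nil)) C.nil)) C.nil)) (C.cons (nat_lit 26) (C.node (nat_lit 1) (nat_lit 3) (nat_lit 8) (C.cons (nat_lit 778) (C.node (nat_lit 1) (nat_lit 4) (nat_lit 8) (C.cons (nat_lit 274) (C.node (nat_lit 1) (nat_lit 4) (nat_lit 9) (C.cons (nat_lit 530) (C.node (nat_lit 2) (nat_lit 3) (nat_lit 9) (C.cons (nat_lit 524) (C.node (nat_lit 3) (nat_lit 6) (nat_lit 7) (C.cons (nat_lit 200) (C.node (nat_lit 3) (nat_lit 4) (nat_lit 6) (C.cons (nat_lit 344) (C.node (nat_lit 2) (nat_lit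 3) (nat_lit 4) C.nil) C.nil)) C.nil)) C.nil)) C.nil)) C.nil)) (C.cons (nat_lit 266) (C.node (nat_lit 1) (nat_lit 3) (nat_lit 9) (C.cons (nat_lit 522) (C.node (nat_lit 1) (nat_lit 4) (nat_lit 8) (C.cons (nat_lit 786) (C.node (nat_lit 2) (nat_lit 4) (nat_lit 9) (C.cons (nat_lit 532) (C.node (nat_lit 4) (nat_lit 7) (nat_lit 6) (C.cons (nat_lit 208) (C.node (nat_lit 4) (nat_lit 3) (nat_lit 7) (C.cons (nat_lit 408) (C.node (nat_lit 2) (nat_lit 4) (nat_lit 3) C.nil) C.nil)) C.nil)) C.nil)) (C.cons (nat_lit 274) (C.node (nat_lit 1) (nat_lit 4) (nat_lit 9) (C.cons (nat_lit 530) (C.node (nat_lit 1) (nat_lit 8) (nat_lit 9) (C.cons (nat_lit 770) (C.node (nat_lit 1) (nat_lit 5) (nat_lit 6) C.nil) C.nil)) C.nil)) C.nil))) C.nil)) C.nil))) C.nil))) C.nil))) C.nil)))) C.nil)) C.nil))) C.nil))) C.nil)) C.nil))) C.nil))) C.nil))) C.nil))) C.nil)) C.nil))) C.nil))) C.nil)) C.nil))) List.nil)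

theorem ok10_46 : okL par10 (nat_lit 47) c10_46 (nat_lit 46) = true := by decide +kernel

noncomputable def c10_47 : List C :=
  (List.cons (C.node (nat_lit 5) (nat_lit 8) (nat_lit 9) (C.cons (nat_lit 800) (C.node (nat_lit 1) (nat_lit 3) (nat_lit 5) (C.cons (nat_lit 106) (C.node (nat_lit 1) (nat_lit 6) (nat_lit 8) (C.cons (nat_lit 322) (C.node (nat_lit 3) (nat_lit 6) (nat_lit 9) (C.cons (nat_lit 584) (C.node (nat_lit 1) (nat_lit 4) (nat_lit 5) (C.cons (nat_lit 178) (C.node (nat_lit 1) (nat_lit 5) (nat_lit 9) (C.cons (nat_lit 546) (C.node (nat_lit 1) (nat_lit 7) (nat_lit 8) (C.cons (nat_lit 386) (C.node (nat_lit 4) (nat_lit 7) (nat_lit 9) (C.cons (nat_lit 656) (C.node (nat_lit 1) (nat_lit 6) (nat_lit 7) (C.cons (nat_lit 198) (C.node (nat_lit 1) (nat_lit 6) (nat_lit 9) (C.cons (nat_lit 578) (C.node (nat_lit 1) (nat_lit 7) (nat_lit 9) (C.cons (nat_lit 642) (C.node (nat_lit 5) (nat_lit 6) (nat_lit 7)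 (C.cons (nat_lit 224) (C.node (nat_lit 2) (nat_lit 3) (nat_lit 5) (C.cons (nat_lit 172) (C.node (nat_lit 2) (nat_lit 7) (nat_lit 8) (C.cons (nat_lit 388) (C.node (nat_lit 2) (nat_lit 7) (nat_lit 9) (C.cons (nat_lit 644) (C.node (nat_lit 3) (nat_lit 5) (nat_lit 8) (C.cons (nat_lit 296) (C.node (nat_lit 3) (nat_lit 7) (nat_lit 9) (C.cons (nat_lit 648) (C.node (nat_lit 5) (nat_lit 7) (nat_lit 8) (C.cons (nat_lit 416) (C.node (nat_lit 5) (nat_lit 7) (nat_lit 9) (C.cons (nat_lit 672) (C.node (nat_lit 2) (nat_lit 4) (nat_lit 5) (C.cons (nat_lit 116) (C.node (nat_lit 2) (nat_lit 5) (nat_lit 9) (C.cons (nat_lit 548) (C.node (nat_lit 2) (nat_lit 6) (nat_lit 8) (C.cons (nat_lit 324) (C.node (nat_lit 5) (nat_lit 6) (nat_lit 9) C.nil) C.nil)) C.nil)) (C.cons (nat_lit 52) (C.miq (nat_lit 1680150643) (nat_lit 62866097998195593325576331)) C.nil))) C.nil)) C.nil)) C.nil)) C.nil)) C.nil)) C.nil)) (C.cons (nat_lit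 44) (C.miq (nat_lit 1916092513) (nat_lit 53196019625428906236575827)) C.nil))) C.nil)) C.nil)) C.nil)) (C.cons (nat_lit 194) (C.miq (nat_lit 655754323) (nat_lit 234533029446472271569486393)) C.nil))) C.nil)) C.nil)) C.nil)) (C.cons (nat_lit 50) (C.ref (nat_lit 36) (nat_lit 654820258320)) C.nil))) C.nil)) C.nil)) (C.cons (nat_lit 42) (C.node (nat_lit 1) (nat_lit 4) (nat_lit 5) (C.cons (nat_lit 178) (C.node (nat_lit 1) (nat_lit 7) (nat_lit 8) (C.cons (nat_lit 386) (C.node (nat_lit 4) (nat_lit 7) (nat_lit 9) (C.cons (nat_lit 656) (C.ref (nat_lit 36) (nat_lit 654568538640)) C.nil)) C.nil)) (C.cons (nat_lit 50) (C.node (nat_lit 1) (nat_lit 6) (nat_lit 8) (C.cons (nat_lit 330) (C.node (nat_lit 3) (nat_lit 6) (nat_lit 9) (C.cons (nat_lit 584) (C.node (nat_lit 1) (nat_lit 3) (nat_lit 4) (C.cons (nat_lit 30) (C.node (nat_lit 1) (nat_lit 3) (nat_lit 9) (C.cons (nat_lit 522) (C.node (nat_lit 1) (nat_lit 7)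 (nat_lit 8) (C.cons (nat_lit 402) (C.node (nat_lit 1) (nat_lit 4) (nat_lit 9) (C.cons (nat_lit 530) (C.node (nat_lit 1) (nat_lit 8) (nat_lit 9) (C.cons (nat_lit 770) (C.node (nat_lit 3) (nat_lit 4) (nat_lit 8) (C.cons (nat_lit 280) (C.node (nat_lit 4) (nat_lit 7) (nat_lit 9) (C.cons (nat_lit 656) (C.node (nat_lit 2) (nat_lit 6) (nat_lit 8) (C.cons (nat_lit 340) (C.node (nat_lit 2) (nat_lit 4) (nat_lit 5) (C.cons (nat_lit 52) (C.node (nat_lit 2) (nat_lit 4) (nat_lit 9) (C.cons (nat_lit 532) (C.node (nat_lit 6) (nat_lit 8) (nat_lit 5) (C.cons (nat_lit 352) (C.node (nat_lit 6) (nat_lit 4) (nat_lit 9) (C.cons (nat_lit 592) (C.node (nat_lit 8) (nat_lit 4) (nat_lit 5) (C.cons (nat_lit 304) (C.node (nat_lit 8) (nat_lit 4) (nat_lit 9) (C.cons (nat_lit 784) (C.node (nat_lit 2) (nat_lit 7) (nat_lit 8) (C.cons (nat_lit 396) (C.node (nat_lit 2) (nat_lit 8) (nat_lit 9) (C.cons (nat_lit 772) (C.node (nat_lit 2)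 (nat_lit 3) (nat_lit 5) (C.cons (nat_lit 44) (C.node (nat_lit 8) (nat_lit 3) (nat_lit 9) C.nil) C.nil)) C.nil)) (C.cons (nat_lit 388) (C.miq (nat_lit 925372486) (nat_lit 469069305475146105673220179)) C.nil))) C.nil)) C.nil)) C.nil)) C.nil)) C.nil)) C.nil)) (C.cons (nat_lit 324) (C.miq (nat_lit 1114140721) (nat_lit 391699381188197586108547211)) C.nil))) C.nil)) C.nil)) C.nil)) C.nil)) (C.cons (nat_lit 386)
  (C.miq (nat_lit 1199644771) (nat_lit 466645919815512971738218573)) C.nil))) C.nil)) (C.cons (nat_lit 26) (C.node (nat_lit 1) (nat_lit 7) (nat_lit 8) (C.cons (nat_lit 402) (C.miq (nat_lit 605226886) (nat_lit 31433491751215532306203585)) (C.cons (nat_lit 386) (C.node (nat_lit 2) (nat_lit 6) (nat_lit 8) (C.cons (nat_lit 340) (C.miq (nat_lit 1192763446) (nat_lit 466651638306172291236102221)) (C.cons (nat_lit 324) (C.node (nat_lit 2) (nat_lit 7) (nat_lit 8) (C.cons (nat_lit 396) (C.miq (nat_lit 588544096)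 (nat_lit 31434819986312849387619265)) (C.cons (nat_lit 388) (C.node (nat_lit 3) (nat_lit 4) (nat_lit 6) (C.cons (nat_lit 216) (C.miq (nat_lit 557058151) (nat_lit 31434819957883876748559297)) (C.cons (nat_lit 88) (C.node (nat_lit 1) (nat_lit 2) (nat_lit 3) (C.cons (nat_lit 526) (C.node (nat_lit 1) (nat_lit 2) (nat_lit 4) (C.cons (nat_lit 22) (C.node (nat_lit 3) (nat_lit 7) (nat_lit 9) (C.cons (nat_lit 648) (C.node (nat_lit 3) (nat_lit 8) (nat_lit 9) (C.cons (nat_lit 776) (C.node (nat_lit 1) (nat_lit 2) (nat_lit 6) (C.cons (nat_lit 198) (C.node (nat_lit 1) (nat_lit 4) (nat_lit 7) (C.cons (nat_lit 658) (C.miq (nat_lit 1092851552) (nat_lit 635905477499884271714501569)) (C.cons (nat_lit 146) (C.node (nat_lit 4) (nat_lit 7) (nat_lit 9) (C.cons (nat_lit 656) (C.node (nat_lit 1) (nat_lit 5) (nat_lit 6) (C.cons (nat_lit 610) (C.miq (nat_lit 1361352304) (nat_lit 26606864400600368785195969)) (C.cons (nat_lit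 98) (C.node (nat_lit 1) (nat_lit 6) (nat_lit 9) (C.cons (nat_lit 578) (C.node (nat_lit 1) (nat_lit 7) (nat_lit 5) (C.cons (nat_lit 674) (C.miq (nat_lit 1361287008) (nat_lit 635905477504387871341872065)) (C.cons (nat_lit 162) (C.node (nat_lit 1) (nat_lit 7) (nat_lit 9) (C.cons (nat_lit 642) (C.node (nat_lit 1) (nat_lit 5) (nat_lit 9) (C.cons (nat_lit 546) (C.node (nat_lit 2) (nat_lit 7) (nat_lit 3) (C.cons (nat_lit 172) (C.miq (nat_lit 1984110853) (nat_lit 106388645021800447325307175)) (C.cons (nat_lit 140) (C.node (nat_lit 2) (nat_lit 3) (nat_lit 5) (C.cons (nat_lit 44) (C.node (nat_lit 2) (nat_lit 7) (nat_lit 5) (C.cons (nat_lit 676) (C.miq (nat_lit 1377081184) (nat_lit 26606864419177717243773889)) (C.cons (nat_lit 164) (C.node (nat_lit 6) (nat_lit 7) (nat_lit 3) C.nil) C.nil))) C.nil)) C.nil))) C.nil)) C.nil)) C.nil))) C.nil)) C.nil))) C.nil)) C.nil))) (C.cons (nat_lit 70) (C.node (nat_lit 1) (nat_lit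 2) (nat_lit 7) (C.cons (nat_lit 134) (C.node (nat_lit 1) (nat_lit 4) (nat_lit 7) (C.cons (nat_lit 658) (C.node (nat_lit 1) (nat_lit 4) (nat_lit 8) (C.cons (nat_lit 274) (C.node (nat_lit 1) (nat_lit 8) (nat_lit 9) (C.cons (nat_lit 770) (C.node (nat_lit 4) (nat_lit 6) (nat_lit 9) (C.cons (nat_lit 596) (C.miq (nat_lit 826410902) (nat_lit 26597788469943365369332673)) (C.cons (nat_lit 592) (C.node (nat_lit 1) (nat_lit 5) (nat_lit 7) (C.cons (nat_lit 226) (C.node (nat_lit 1) (nat_lit 5) (nat_lit 9) (C.cons (nat_lit 546) (C.node (nat_lit 1) (nat_lit 6) (nat_lit 9) (C.cons (nat_lit 578) (C.node (nat_lit 2) (nat_lit 6) (nat_lit 7) (C.cons (nat_lit 196) (C.node (nat_lit 3) (nat_lit 5) (nat_lit 6) (C.cons (nat_lit 104) (C.node (nat_lit 3) (nat_lit 6) (nat_lit 7) C.nil) C.nil)) C.nil)) C.nil)) C.nil)) (C.cons (nat_lit 162) (C.node (nat_lit 1) (nat_lit 6) (nat_lit 7) (C.cons (nat_lit 194) (C.node (nat_lit 1)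 (nat_lit 5) (nat_lit 6) (C.cons (nat_lit 610) (C.node (nat_lit 2) (nat_lit 6) (nat_lit 9) (C.cons (nat_lit 580) (C.node (nat_lit 2) (nat_lit 5) (nat_lit 9) (C.cons (nat_lit 676) (C.miq (nat_lit 622098784) (nat_lit 60449039735878145650394049)) (C.cons (nat_lit 548) (C.node (nat_lit 2) (nat_lit 3) (nat_lit 8) C.nil) C.nil))) C.nil)) (C.cons (nat_lit 98) (C.node (nat_lit 1) (nat_lit 5) (nat_lit 9) (C.cons (nat_lit 546) (C.node (nat_lit 1) (nat_lit 6) (nat_lit 9) (C.cons (nat_lit 578) (C.node (nat_lit 2) (nat_lit 6) (nat_lit 7) C.nil) C.nil)) C.nil)) C.nil))) C.nil)) C.nil))) C.nil))) C.nil)) C.nil)) (C.cons (nat_lit 146) (C.node (nat_lit 4) (nat_lit 7) (nat_lit 9) (C.cons (nat_lit 656)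
  (C.ref (nat_lit 37) (nat_lit 654820258320)) C.nil)) C.nil))) C.nil)) C.nil))) C.nil)) C.nil)) C.nil)) (C.cons (nat_lit 14) (C.node (nat_lit 1) (nat_lit 3) (nat_lit 9) (C.cons (nat_lit 522) (C.node (nat_lit 1) (nat_lit 2) (nat_lit 4) (C.cons (nat_lit 534) (C.node (nat_lit 1) (nat_lit 4) (nat_lit 7) (C.cons (nat_lit 146) (C.node (nat_lit 1) (nat_lit 4) (nat_lit 8) (C.cons (nat_lit 274) (C.node (nat_lit 1) (nat_lit 8) (nat_lit 9) (C.cons (nat_lit 770) (C.node (nat_lit 4) (nat_lit 6) (nat_lit 9) (C.cons (nat_lit 592) (C.node (nat_lit 4) (nat_lit 7) (nat_lit 9) (C.cons (nat_lit 656) (C.ref (nat_lit 38) (nat_lit 654820258320)) C.nil)) C.nil)) C.nil)) C.nil)) C.nil)) (C.cons (nat_lit 22) (C.node (nat_lit 1) (nat_lit 4) (nat_lit 7) (C.cons (nat_lit 658) (C.node (nat_lit 1) (nat_lit 4) (nat_lit 8) (C.cons (nat_lit 274) (C.node (nat_lit 1) (nat_lit 8) (nat_lit 9) (C.cons (nat_lit 770) (C.ref (nat_lit 34)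 (nat_lit 641083073040)) C.nil)) C.nil)) (C.cons (nat_lit 146) (C.node (nat_lit 4) (nat_lit 7) (nat_lit 9) (C.cons (nat_lit 656) (C.node (nat_lit 1) (nat_lit 4) (nat_lit 8) (C.cons (nat_lit 786) (C.node (nat_lit 2) (nat_lit 8) (nat_lit 9) (C.cons (nat_lit 780) (C.miq (nat_lit 405162288) (nat_lit 391693496856140652271698489)) (C.cons (nat_lit 772) (C.node (nat_lit 3) (nat_lit 8) (nat_lit 9) (C.cons (nat_lit 776) (C.ref (nat_lit 33) (nat_lit 641083073040)) C.nil)) C.nil))) (C.cons (nat_lit 274) (C.node (nat_lit 1) (nat_lit 4) (nat_lit 9) (C.cons (nat_lit 530) (C.node (nat_lit 1) (nat_lit 8) (nat_lit 9) (C.cons (nat_lit 770) (C.ref (nat_lit 35) (nat_lit 641083073040)) C.nil)) C.nil)) C.nil))) C.nil)) C.nil))) C.nil))) C.nil)) C.nil))) C.nil))) C.nil))) C.nil))) C.nil))) C.nil))) C.nil)) (C.cons (nat_lit 322) (C.ref (nat_lit 46) (nat_lit 654820258320)) C.nil))) C.nil))) C.nil))) C.nil)) (List.cons (C.qs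 (C.cons (nat_lit 1440) (C.pat (nat_lit 1) (nat_lit 2493736993) (nat_lit 431005720250919725969134041976078609)) (C.cons (nat_lit 1616) (C.pat (nat_lit 1) (nat_lit 2544252193) (nat_lit 721805401700868587765082377713156257)) (C.cons (nat_lit 2376) (C.pat (nat_lit 1) (nat_lit 2825148209) (nat_lit 1531749202656484357556143713601258433)) (C.cons (nat_lit 2692) (C.pat (nat_lit 1) (nat_lit 962897953) (nat_lit 2674077963070252576538164930811331521)) (C.cons (nat_lit 2628) (C.pat (nat_lit 0) (nat_lit 177755953) (nat_lit 76138458818153533723699570999435)) (C.cons (nat_lit 2690) (C.pat (nat_lit 1) (nat_lit 1765254433) (nat_lit 2674109020577654915003916450626077241)) (C.cons (nat_lit 2434) (C.pat (nat_lit 0) (nat_lit 177755713) (nat_lit 76138381447048652340022066217043)) (C.cons (nat_lit 2689) (C.pat (nat_lit 1) (nat_lit 2793752369) (nat_lit 430968324746790368447575529377825729)) (C.cons (nat_lit 1665) (C.pat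 (nat_lit 0) (nat_lit 177755698) (nat_lit 76138381446901078387440979738701)) C.nil)))))))))) (List.cons (C.node (nat_lit 0) (nat_lit 2) (nat_lit 3) (C.cons (nat_lit 77) (C.node (nat_lit 0) (nat_lit 4) (nat_lit 6) (C.cons (nat_lit 81) (C.node (nat_lit 0) (nat_lit 4) (nat_lit 2) (C.cons (nat_lit 149) (C.ref (nat_lit 48) (nat_lit 590143890480)) C.nil)) C.nil)) (C.cons (nat_lit 13) (C.node (nat_lit 0) (nat_lit 3) (nat_lit 6) C.nil) C.nil))) (List.cons (C.node (nat_lit 0) (nat_lit 1) (nat_lit 4) (C.cons (nat_lit 83) (C.node (nat_lit 0) (nat_lit 2) (nat_lit 3) (C.cons (nat_lit 77) (C.node (nat_lit 0) (nat_lit 2) (nat_lit 4) (C.cons (nat_lit 149) (C.qs (C.cons (nat_lit 640) (C.ref (nat_lit 47) (nat_lit 654820258320)) (C.cons (nat_lit 384) (C.ref (nat_lit 47) (nat_lit 654820258320)) (C.cons (nat_lit 576) (C.ref (nat_lit 47) (nat_lit 654820258320)) (C.cons (nat_lit 320) (C.ref (nat_lit 47) (nat_lit 654820258320))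 (C.cons (nat_lit 544) (C.ref (nat_lit 47) (nat_lit 654820258320)) (C.cons (nat_lit 288) (C.ref (nat_lit 47) (nat_lit 654820258320)) (C.cons (nat_lit 160) (C.ref (nat_lit 47) (nat_lit 654820258320)) (C.cons (nat_lit 672) (C.ref (nat_lit 47) (nat_lit 654820258320)) (C.cons (nat_lit 416)
  (C.pat (nat_lit 0) (nat_lit 177755698) (nat_lit 76138381446901078387440979738701)) (C.cons (nat_lit 96) (C.ref (nat_lit 47) (nat_lit 654820258320)) (C.cons (nat_lit 608) (C.pat (nat_lit 0) (nat_lit 177755713) (nat_lit 76138381447048652340022066217043)) (C.cons (nat_lit 352) (C.ref (nat_lit 47) (nat_lit 654820258320)) (C.cons (nat_lit 528) (C.ref (nat_lit 47) (nat_lit 654820258320)) (C.cons (nat_lit 272) (C.ref (nat_lit 47) (nat_lit 654820258320)) (C.cons (nat_lit 144) (C.ref (nat_lit 47) (nat_lit 654820258320)) (C.cons (nat_lit 656) (C.pat (nat_lit 0) (nat_lit 177755953) (nat_lit 76138458818153533723699570999435))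 (C.cons (nat_lit 400) (C.ref (nat_lit 47) (nat_lit 654820258320)) (C.cons (nat_lit 80) (C.ref (nat_lit 47) (nat_lit 654820258320)) (C.cons (nat_lit 592) (C.ref (nat_lit 47) (nat_lit 654820258320)) (C.cons (nat_lit 336) (C.pat (nat_lit 0) (nat_lit 177755970) (nat_lit 76138458818301107676297837346965)) (C.cons (nat_lit 264) (C.ref (nat_lit 47) (nat_lit 654820258320)) (C.cons (nat_lit 72) (C.ref (nat_lit 47) (nat_lit 654820258320)) (C.cons (nat_lit 328) (C.pat (nat_lit 1) (nat_lit 2493736993) (nat_lit 431005720250919725969134041976078609)) (C.cons (nat_lit 40) (C.ref (nat_lit 47) (nat_lit 654820258320)) (C.cons (nat_lit 296) (C.pat (nat_lit 1) (nat_lit 2527544609) (nat_lit 431036777690618086465793817065095265)) (C.cons (nat_lit 104) (C.pat (nat_lit 1) (nat_lit 2826196530) (nat_lit 1531749202736272281076539703988650945)) (C.cons (nat_lit 360) (C.pat (nat_lit 1) (nat_lit 2527544609) (nat_lit 431036777690618086465793817065095265))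 (C.cons (nat_lit 260) (C.ref (nat_lit 47) (nat_lit 654820258320)) (C.cons (nat_lit 132) (C.ref (nat_lit 47) (nat_lit 654820258320)) (C.cons (nat_lit 388) (C.pat (nat_lit 1) (nat_lit 2477029409) (nat_lit 721774344261170227268422602633576713)) (C.cons (nat_lit 20) (C.ref (nat_lit 47) (nat_lit 654820258320)) (C.cons (nat_lit 276) (C.pat (nat_lit 1) (nat_lit 2544252193) (nat_lit 721805401700868587765082377713156257)) (C.cons (nat_lit 148) (C.pat (nat_lit 1) (nat_lit 2810529330) (nat_lit 773664988012488761150061437639001025)) (C.cons (nat_lit 404) (C.pat (nat_lit 1) (nat_lit 2544252193) (nat_lit 721805401700868587765082377713156257)) (C.cons (nat_lit 514) (C.ref (nat_lit 47) (nat_lit 654820258320)) (C.cons (nat_lit 66) (C.ref (nat_lit 47) (nat_lit 654820258320)) (C.cons (nat_lit 578) (C.pat (nat_lit 1) (nat_lit 1232316449) (nat_lit 2674077963137952570030802952598127553)) (C.cons (nat_lit 18) (C.ref (nat_lit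 47) (nat_lit 654820258320)) (C.cons (nat_lit 530) (C.pat (nat_lit 1) (nat_lit 2034672929) (nat_lit 2674109020509956249717384132573332025)) (C.cons (nat_lit 82) (C.pat (nat_lit 1) (nat_lit 2825148209) (nat_lit 1531749202656484357556143713601258433)) (C.cons (nat_lit 594) (C.pat (nat_lit 1) (nat_lit 2034672929) (nat_lit 2674109020509956249717384132573332025)) (C.cons (nat_lit 513) (C.ref (nat_lit 47) (nat_lit 654820258320)) (C.cons (nat_lit 129) (C.ref (nat_lit 47) (nat_lit 654820258320)) (C.cons (nat_lit 641) (C.pat (nat_lit 1) (nat_lit 962897953) (nat_lit 2674077963070252576538164930819720129)) (C.cons (nat_lit 33) (C.ref (nat_lit 47) (nat_lit 654820258320)) (C.cons (nat_lit 545) (C.pat (nat_lit 1) (nat_lit 1765254433) (nat_lit 2674109020577654915003916450627125817)) (C.cons (nat_lit 161) (C.pat (nat_lit 1) (nat_lit 2793752369) (nat_lit 430968324746790442234551824216032193)) (C.cons (nat_lit 673)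 (C.pat (nat_lit 1) (nat_lit 1765254433) (nat_lit 2674109020577654915003916450627125817)) C.nil))))))))))))))))))))))))))))))))))))))))))))))))) (C.cons (nat_lit 21) (C.node (nat_lit 0) (nat_lit 2) (nat_lit 7) (C.cons (nat_lit 133) (C.node (nat_lit 0) (nat_lit 4) (nat_lit 7) (C.cons (nat_lit 145) (C.ref (nat_lit 48) (nat_lit 654820258320)) C.nil)) C.nil)) C.nil))) (C.cons (nat_lit 13) (C.node (nat_lit 0) (nat_lit 2) (nat_lit 6) (C.cons (nat_lit 69) (C.node (nat_lit 0) (nat_lit 3) (nat_lit 6) (C.cons (nat_lit 73) (C.node (nat_lit 0) (nat_lit 2) (nat_lit 4) (C.cons (nat_lit 149)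
  (C.ref (nat_lit 48) (nat_lit 654568538640)) C.nil)) C.nil)) C.nil)) C.nil))) (C.cons (nat_lit 19) (C.node (nat_lit 0) (nat_lit 1) (nat_lit 6) (C.cons (nat_lit 67) (C.ref (nat_lit 49) (nat_lit 654820258320)) C.nil)) C.nil))) (List.cons (C.big C.nil (C.node (nat_lit 0) (nat_lit 1) (nat_lit 9) (C.cons (nat_lit 515) (C.node (nat_lit 0) (nat_lit 2) (nat_lit 9) (C.cons (nat_lit 517) (C.node (nat_lit 0) (nat_lit 3) (nat_lit 8) (C.cons (nat_lit 265) (C.node (nat_lit 0) (nat_lit 4) (nat_lit 8) (C.cons (nat_lit 273) (C.node (nat_lit 0) (nat_lit 5) (nat_lit 6) (C.cons (nat_lit 97) (C.node (nat_lit 0) (nat_lit 5) (nat_lit 7) (C.cons (nat_lit 161) (C.node (nat_lit 0) (nat_lit 1) (nat_lit 3) (C.cons (nat_lit 139) (C.ref (nat_lit 50) (nat_lit 654820258320)) (C.cons (nat_lit 75) (C.ref (nat_lit 50) (nat_lit 654568600080)) (C.cons (nat_lit 11) (C.node (nat_lit 0) (nat_lit 1) (nat_lit 6) (C.cons (nat_lit 83) (C.node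 (nat_lit 0) (nat_lit 1) (nat_lit 7) (C.cons (nat_lit 131) (C.ref (nat_lit 49) (nat_lit 654568538640)) C.nil)) (C.cons (nat_lit 67) (C.node (nat_lit 0) (nat_lit 1) (nat_lit 4) (C.cons (nat_lit 147) (C.ref (nat_lit 49) (nat_lit 654820196880)) (C.cons (nat_lit 19) (C.node (nat_lit 0) (nat_lit 1) (nat_lit 7) C.nil) C.nil))) C.nil))) C.nil)))) C.nil)) C.nil)) C.nil)) C.nil)) C.nil)) C.nil))) List.nil)))))

theorem ok10_47 : okL par10 (nat_lit 52) c10_47 (nat_lit 47) = true := by decide +kernel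

noncomputable def c10_52 : List C :=
  (List.cons (C.node (nat_lit 1) (nat_lit 4) (nat_lit 9) (C.cons (nat_lit 786) (C.node (nat_lit 1) (nat_lit 3) (nat_lit 4) (C.cons (nat_lit 30) (C.miq (nat_lit 646000788) (nat_lit 389274667339910506263740985)) (C.cons (nat_lit 26) (C.node (nat_lit 3) (nat_lit 8) (nat_lit 9) (C.cons (nat_lit 780) (C.miq (nat_lit 639119433) (nat_lit 389288502397962017446167097)) (C.cons (nat_lit 776) (C.node (nat_lit 1) (nat_lit 2) (nat_lit 3) (C.cons (nat_lit 270) (C.node (nat_lit 1) (nat_lit 7) (nat_lit 8) (C.cons (nat_lit 386) (C.node (nat_lit 2) (nat_lit 3) (nat_lit 5) (C.cons (nat_lit 44) (C.node (nat_lit 2) (nat_lit 3) (nat_lit 4) (C.cons (nat_lit 156) (C.node (nat_lit 2) (nat_lit 3) (nat_lit 9) (C.cons (nat_lit 524) (C.node (nat_lit 2) (nat_lit 7) (nat_lit 8) (C.cons (nat_lit 388) (C.node (nat_lit 2) (nat_lit 7) (nat_lit 9) (C.cons (nat_lit 644) (C.node (nat_lit 3) (nat_lit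 7) (nat_lit 9) (C.cons (nat_lit 648) (C.node (nat_lit 4) (nat_lit 7) (nat_lit 9) (C.cons (nat_lit 656) (C.node (nat_lit 1) (nat_lit 2) (nat_lit 4) (C.cons (nat_lit 54) (C.miq (nat_lit 2014447941) (nat_lit 326413015279222867713458745)) (C.cons (nat_lit 22) (C.node (nat_lit 1) (nat_lit 2) (nat_lit 7) (C.cons (nat_lit 198) (C.miq (nat_lit 1393690983) (nat_lit 326413015168883817858859969)) (C.cons (nat_lit 134) (C.node (nat_lit 2) (nat_lit 6) (nat_lit 7) (C.cons (nat_lit 196) (C.node (nat_lit 1) (nat_lit 2) (nat_lit 5) C.nil) C.nil)) C.nil))) C.nil))) C.nil)) C.nil)) C.nil)) C.nil)) C.nil)) (C.cons (nat_lit 28) (C.node (nat_lit 2) (nat_lit 3) (nat_lit 7) (C.cons (nat_lit 652) (C.node (nat_lit 4) (nat_lit 7) (nat_lit 9) (C.cons (nat_lit 656) (C.node (nat_lit 2) (nat_lit 4) (nat_lit 9) (C.cons (nat_lit 596) (C.miq (nat_lit 321128342) (nat_lit 33851454068095556905075649)) (C.cons (nat_lit 532) (C.node (nat_lit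 2) (nat_lit 6) (nat_lit 9) (C.cons (nat_lit 580) (C.node (nat_lit 4) (nat_lit 6) (nat_lit 9) (C.cons (nat_lit 592) (C.node (nat_lit 2) (nat_lit 5) (nat_lit 9) (C.cons (nat_lit 804) (C.miq (nat_lit 1378978160) (nat_lit 326415339524784008253342657)) (C.cons (nat_lit 548) (C.node (nat_lit 2) (nat_lit 8) (nat_lit 9) (C.cons (nat_lit 772) (C.node (nat_lit 5) (nat_lit 8) (nat_lit 9) (C.cons (nat_lit 800) (C.node (nat_lit 3) (nat_lit 4) (nat_lit 6) (C.cons (nat_lit 344) (C.miq (nat_lit 338860128) (nat_lit 33859497030624681317434305)) (C.cons (nat_lit 216) (C.miq (nat_lit 591501152) (nat_lit 31441645353677226333373377)) (C.cons (nat_lit 88) (C.node (nat_lit 3) (nat_lit 6) (nat_lit 7) (C.cons (nat_lit 232) (C.miq (nat_lit 324179568) (nat_lit 53202310088163271740031937)) (C.cons (nat_lit 200) (C.node (nat_lit 3) (nat_lit 4) (nat_lit 7) (C.cons (nat_lit 408) (C.node (nat_lit 2) (nat_lit 7) (nat_lit 8) C.nil)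 C.nil)) C.nil))) C.nil)))) C.nil)) C.nil)) C.nil))) C.nil)) C.nil)) C.nil))) C.nil)) (C.cons (nat_lit 140) (C.node (nat_lit 2) (nat_lit 3) (nat_lit 9) (C.cons (nat_lit 524) (C.node (nat_lit 3) (nat_lit 7) (nat_lit 9) (C.cons (nat_lit 648) (C.node (nat_lit 2) (nat_lit 5) (nat_lit 9) (C.cons (nat_lit 804) (C.node (nat_lit 2) (nat_lit 6) (nat_lit 9) (C.cons (nat_lit 596) (C.miq (nat_lit 1635926105) (nat_lit 326420965578781481018589753)) (C.cons (nat_lit 580) (C.node (nat_lit 4) (nat_lit 6) (nat_lit 9) (C.cons (nat_lit 592) (C.node (nat_lit 2) (nat_lit 4) (nat_lit 9) (C.cons (nat_lit 660) (C.miq (nat_lit 1091016786) (nat_lit 168052863998762685129098020)) (C.cons (nat_lit 532) (C.node (nat_lit 3) (nat_lit 5) (nat_lit 7) (C.cons (nat_lit 424) (C.miq (nat_lit 624007280) (nat_lit 50784458510296382945559489)) (C.cons (nat_lit 232) (C.miq (nat_lit 324179568) (nat_lit 53202310088163271740031937)) C.nil))) C.nil)))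 C.nil)) C.nil))) (C.cons (nat_lit 548) (C.node (nat_lit 2) (nat_lit 8) (nat_lit 9) (C.cons (nat_lit 772) (C.node (nat_lit 5) (nat_lit 8) (nat_lit 9) (C.cons (nat_lit 800) (C.node (nat_lit 1) (nat_lit 2) (nat_lit 4) (C.cons (nat_lit 150) (C.node (nat_lit 1) (nat_lit 4) (nat_lit 5) C.nil) (C.cons (nat_lit 54)
  (C.miq (nat_lit 2014447941) (nat_lit 326413015279222867713458745)) C.nil))) C.nil)) C.nil)) C.nil))) C.nil)) C.nil)) C.nil))) C.nil))) C.nil)) C.nil)) (C.cons (nat_lit 14) (C.node (nat_lit 1) (nat_lit 3) (nat_lit 8) (C.cons (nat_lit 266) (C.node (nat_lit 1) (nat_lit 2) (nat_lit 8) (C.cons (nat_lit 390) (C.node (nat_lit 1) (nat_lit 2) (nat_lit 4) (C.cons (nat_lit 54) (C.node (nat_lit 1) (nat_lit 2) (nat_lit 6) (C.cons (nat_lit 70) (C.node (nat_lit 1) (nat_lit 4) (nat_lit 7) (C.cons (nat_lit 146) (C.node (nat_lit 2) (nat_lit 3) (nat_lit 9) (C.cons (nat_lit 652) (C.miq (nat_lit 840275840) (nat_lit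 65292490640091276040668097)) (C.cons (nat_lit 524) (C.node (nat_lit 3) (nat_lit 7) (nat_lit 9) (C.cons (nat_lit 648) (C.node (nat_lit 2) (nat_lit 3) (nat_lit 7) (C.cons (nat_lit 156) (C.miq (nat_lit 2235699255) (nat_lit 65289188571290384228679819)) (C.cons (nat_lit 140) (C.node (nat_lit 2) (nat_lit 5) (nat_lit 9) (C.cons (nat_lit 804) (C.miq (nat_lit 1377015920) (nat_lit 16935457898290305502479297)) (C.cons (nat_lit 548) (C.node (nat_lit 2) (nat_lit 8) (nat_lit 9) (C.cons (nat_lit 772) (C.node (nat_lit 2) (nat_lit 6) (nat_lit 9) (C.cons (nat_lit 596) (C.miq (nat_lit 1645778000) (nat_lit 471498797138519531081368121)) C.nil)) C.nil)) C.nil))) C.nil))) C.nil)) C.nil))) C.nil)) C.nil)) (C.cons (nat_lit 22) (C.miq (nat_lit 1410468231) (nat_lit 26599411904456641537770433)) C.nil))) (C.cons (nat_lit 262) (C.node (nat_lit 1) (nat_lit 7) (nat_lit 8) (C.cons (nat_lit 386) (C.node (nat_lit 2) (nat_lit 3) (nat_lit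 5) (C.cons (nat_lit 300) (C.node (nat_lit 2) (nat_lit 5) (nat_lit 9) (C.cons (nat_lit 548) (C.node (nat_lit 2) (nat_lit 8) (nat_lit 9) (C.cons (nat_lit 772) (C.node (nat_lit 5) (nat_lit 8) (nat_lit 9) (C.cons (nat_lit 800) (C.node (nat_lit 3) (nat_lit 5) (nat_lit 6) (C.cons (nat_lit 232) (C.miq (nat_lit 324179568) (nat_lit 362687319909508340464812993)) (C.cons (nat_lit 104) (C.node (nat_lit 3) (nat_lit 5) (nat_lit 7) (C.cons (nat_lit 168) (C.node (nat_lit 3) (nat_lit 6) (nat_lit 8) (C.cons (nat_lit 344) (C.miq (nat_lit 558041478) (nat_lit 31433491855362922957505473)) (C.cons (nat_lit 328) (C.node (nat_lit 5) (nat_lit 6) (nat_lit 8) C.nil) C.nil))) C.nil)) C.nil))) C.nil)) C.nil)) C.nil)) (C.cons (nat_lit 44) (C.node (nat_lit 2) (nat_lit 3) (nat_lit 9) (C.cons (nat_lit 652) (C.node (nat_lit 4) (nat_lit 7) (nat_lit 9) (C.cons (nat_lit 656) (C.node (nat_lit 2) (nat_lit 4) (nat_lit 9) (C.cons (nat_lit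 596) (C.miq (nat_lit 1093820537) (nat_lit 16935955757435759448818625)) (C.cons (nat_lit 532) (C.node (nat_lit 2) (nat_lit 6) (nat_lit 9) (C.cons (nat_lit 580) (C.node (nat_lit 4) (nat_lit 6) (nat_lit 9) (C.cons (nat_lit 592) (C.node (nat_lit 2) (nat_lit 5) (nat_lit 9) (C.cons (nat_lit 804) (C.miq (nat_lit 1378978160) (nat_lit 16930329703438939528561601)) (C.cons (nat_lit 548) (C.node (nat_lit 2) (nat_lit 8) (nat_lit 9) (C.cons (nat_lit 772) (C.node (nat_lit 5) (nat_lit 8) (nat_lit 9) C.nil) C.nil)) C.nil))) C.nil)) C.nil)) C.nil))) C.nil)) (C.cons (nat_lit 524) (C.node (nat_lit 3) (nat_lit 7) (nat_lit 9) (C.cons (nat_lit 648) (C.node (nat_lit 2) (nat_lit 5) (nat_lit 9) (C.cons (nat_lit 804) (C.node (nat_lit 2) (nat_lit 6) (nat_lit 9) (C.cons (nat_lit 596) (C.miq (nat_lit 1635926105) (nat_lit 316749559021864447620940345)) (C.cons (nat_lit 580) (C.node (nat_lit 4) (nat_lit 6) (nat_lit 9) (C.cons (nat_lit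 592) (C.node (nat_lit 2) (nat_lit 4) (nat_lit 9) (C.cons (nat_lit 660) (C.miq (nat_lit 1091016786) (nat_lit 168052863998762685129098020)) (C.cons (nat_lit 532) (C.node (nat_lit 3) (nat_lit 5) (nat_lit 7) (C.cons (nat_lit 424) (C.miq (nat_lit 624007280) (nat_lit 50784458510296382945559489)) (C.cons (nat_lit 232) (C.miq (nat_lit 324179568) (nat_lit 53202310088163271740031937)) C.nil))) C.nil))) C.nil)) C.nil))) (C.cons (nat_lit 548) (C.node (nat_lit 2) (nat_lit 8) (nat_lit 9) (C.cons (nat_lit 772) (C.node (nat_lit 5) (nat_lit 8) (nat_lit 9) C.nil) C.nil)) C.nil))) C.nil)) C.nil))) C.nil))) C.nil)) C.nil))) C.nil)) C.nil))) C.nil))) C.nil)))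
  (C.cons (nat_lit 530) (C.node (nat_lit 1) (nat_lit 8) (nat_lit 9) (C.cons (nat_lit 770) (C.node (nat_lit 2) (nat_lit 3) (nat_lit 5) (C.cons (nat_lit 300) (C.node (nat_lit 2) (nat_lit 5) (nat_lit 9) (C.cons (nat_lit 548) (C.node (nat_lit 3) (nat_lit 8) (nat_lit 9) (C.cons (nat_lit 776) (C.node (nat_lit 5) (nat_lit 8) (nat_lit 9) (C.cons (nat_lit 800) (C.node (nat_lit 3) (nat_lit 5) (nat_lit 6) (C.cons (nat_lit 232) (C.miq (nat_lit 324179568) (nat_lit 362687319909508340464812993)) (C.cons (nat_lit 104) (C.node (nat_lit 3) (nat_lit 5) (nat_lit 7) (C.cons (nat_lit 168) (C.node (nat_lit 1) (nat_lit 2) (nat_lit 3) (C.cons (nat_lit 30) (C.node (nat_lit 1) (nat_lit 3) (nat_lit 8) (C.cons (nat_lit 266) (C.node (nat_lit 2) (nat_lit 3) (nat_lit 7) (C.cons (nat_lit 652) (C.miq (nat_lit 1081218707) (nat_lit 199473313662102575686353482)) (C.cons (nat_lit 140) (C.node (nat_lit 2) (nat_lit 3) (nat_lit 9) (C.cons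 (nat_lit 524) (C.node (nat_lit 3) (nat_lit 7) (nat_lit 9) (C.cons (nat_lit 648) (C.node (nat_lit 3) (nat_lit 6) (nat_lit 7) (C.cons (nat_lit 216) (C.miq (nat_lit 1947820832) (nat_lit 640748411777607021325910093)) C.nil)) C.nil)) C.nil)) C.nil))) C.nil)) (C.cons (nat_lit 14) (C.node (nat_lit 1) (nat_lit 3) (nat_lit 4) (C.cons (nat_lit 282) (C.node (nat_lit 3) (nat_lit 6) (nat_lit 8) (C.cons (nat_lit 328) (C.node (nat_lit 3) (nat_lit 7) (nat_lit 8) (C.cons (nat_lit 392) (C.node (nat_lit 1) (nat_lit 2) (nat_lit 8) (C.cons (nat_lit 390) (C.miq (nat_lit 1160261745) (nat_lit 362682948026377508948934795)) (C.cons (nat_lit 262) (C.node (nat_lit 1) (nat_lit 7) (nat_lit 8) (C.cons (nat_lit 386) (C.node (nat_lit 5) (nat_lit 6) (nat_lit 8) C.nil) C.nil)) C.nil))) C.nil)) C.nil)) (C.cons (nat_lit 26) (C.node (nat_lit 1) (nat_lit 3) (nat_lit 8) (C.cons (nat_lit 266) (C.node (nat_lit 2) (nat_lit 3) (nat_lit 4)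 (C.cons (nat_lit 156) (C.node (nat_lit 2) (nat_lit 3) (nat_lit 9) (C.cons (nat_lit 524) (C.node (nat_lit 3) (nat_lit 6) (nat_lit 7) C.nil) C.nil)) (C.cons (nat_lit 28) (C.node (nat_lit 2) (nat_lit 3) (nat_lit 9) (C.cons (nat_lit 652) (C.node (nat_lit 4) (nat_lit 7) (nat_lit 9) (C.cons (nat_lit 656) (C.node (nat_lit 1) (nat_lit 2) (nat_lit 5) C.nil) C.nil)) C.nil)) C.nil))) C.nil)) C.nil))) C.nil))) C.nil)) C.nil))) C.nil)) C.nil)) C.nil)) (C.cons (nat_lit 44) (C.node (nat_lit 2) (nat_lit 5) (nat_lit 9) (C.cons (nat_lit 804) (C.node (nat_lit 3) (nat_lit 8) (nat_lit 9) (C.cons (nat_lit 776) (C.node (nat_lit 4) (nat_lit 8) (nat_lit 9) (C.cons (nat_lit 784) (C.node (nat_lit 2) (nat_lit 3) (nat_lit 9) (C.cons (nat_lit 652) (C.miq (nat_lit 354617495) (nat_lit 53195300242382600733983681)) (C.cons (nat_lit 524) (C.node (nat_lit 3) (nat_lit 7) (nat_lit 9) (C.cons (nat_lit 648) (C.node (nat_lit 2) (nat_lit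 6) (nat_lit 9) (C.cons (nat_lit 596) (C.miq (nat_lit 639144965) (nat_lit 389288945265905299355796025)) (C.cons (nat_lit 580) (C.node (nat_lit 4) (nat_lit 6) (nat_lit 9) (C.cons (nat_lit 592) (C.node (nat_lit 3) (nat_lit 5) (nat_lit 7) (C.cons (nat_lit 424) (C.miq (nat_lit 624007280) (nat_lit 50784458510296382945559489)) (C.cons (nat_lit 232) (C.miq (nat_lit 324179568) (nat_lit 53202310088163271740031937)) (C.cons (nat_lit 168) (C.node (nat_lit 2) (nat_lit 4) (nat_lit 9) (C.cons (nat_lit 660) (C.node (nat_lit 2) (nat_lit 6) (nat_lit 7) (C.cons (nat_lit 198) (C.miq (nat_lit 623997078) (nat_lit 50778536925586834860934081)) (C.cons (nat_lit 196) (C.node (nat_lit 1) (nat_lit 2) (nat_lit 7) (C.cons (nat_lit 390) (C.miq (nat_lit 324169880) (nat_lit 53199930332359896064066497)) (C.cons (nat_lit 134) (C.node (nat_lit 5) (nat_lit 7) (nat_lit 8) (C.cons (nat_lit 432) (C.miq (nat_lit 2166837396) (nat_lit 162004028903711599291007545))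 (C.cons (nat_lit 416) (C.node (nat_lit 4) (nat_lit 5) (nat_lit 8) (C.cons (nat_lit 368) (C.miq (nat_lit 677483840) (nat_lit 389283688002392311341449785)) (C.cons (nat_lit 304) (C.node (nat_lit 1) (nat_lit 2) (nat_lit 6) (C.cons (nat_lit 102) (C.node (nat_lit 2) (nat_lit 4) (nat_lit 5) C.nil) (C.cons (nat_lit 70)
  (C.node (nat_lit 1) (nat_lit 2) (nat_lit 5) (C.cons (nat_lit 54) (C.miq (nat_lit 2182518080) (nat_lit 84642534920384990317576761)) C.nil)) C.nil))) C.nil))) C.nil))) C.nil))) C.nil))) (C.cons (nat_lit 532) (C.node (nat_lit 2) (nat_lit 7) (nat_lit 9) (C.cons (nat_lit 644) (C.node (nat_lit 4) (nat_lit 7) (nat_lit 9) (C.cons (nat_lit 656) (C.node (nat_lit 2) (nat_lit 6) (nat_lit 8) (C.cons (nat_lit 340) (C.node (nat_lit 2) (nat_lit 4) (nat_lit 5) (C.cons (nat_lit 54) (C.miq (nat_lit 377634965) (nat_lit 411035774816520450299134521)) (C.cons (nat_lit 52) (C.node (nat_lit 2) (nat_lit 6) (nat_lit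 7) (C.cons (nat_lit 198) (C.miq (nat_lit 623997078) (nat_lit 50778536925586834860934081)) C.nil)) C.nil))) (C.cons (nat_lit 324) (C.node (nat_lit 1) (nat_lit 2) (nat_lit 5) (C.cons (nat_lit 102) (C.node (nat_lit 2) (nat_lit 4) (nat_lit 5) C.nil) (C.cons (nat_lit 54) (C.miq (nat_lit 377634965) (nat_lit 391692961702686383503835705)) C.nil))) C.nil))) C.nil)) C.nil)) C.nil))) C.nil)))) C.nil)) C.nil))) C.nil)) C.nil))) C.nil)) C.nil)) (C.cons (nat_lit 548) (C.node (nat_lit 5) (nat_lit 8) (nat_lit 9) (C.cons (nat_lit 800) (C.node (nat_lit 2) (nat_lit 6) (nat_lit 9) (C.cons (nat_lit 596) (C.node (nat_lit 4) (nat_lit 7) (nat_lit 9) (C.cons (nat_lit 656) (C.node (nat_lit 4) (nat_lit 8) (nat_lit 9) (C.cons (nat_lit 784) (C.node (nat_lit 2) (nat_lit 6) (nat_lit 7) (C.cons (nat_lit 198) (C.miq (nat_lit 623997078) (nat_lit 50778536925586834860934081)) (C.cons (nat_lit 196) (C.node (nat_lit 2) (nat_lit 7) (nat_lit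 9) (C.cons (nat_lit 652) (C.miq (nat_lit 371655827) (nat_lit 236952024765258546780308025)) (C.cons (nat_lit 644) (C.node (nat_lit 3) (nat_lit 7) (nat_lit 9) (C.cons (nat_lit 648) (C.node (nat_lit 3) (nat_lit 6) (nat_lit 7) (C.cons (nat_lit 232) (C.miq (nat_lit 324179568) (nat_lit 53202310088163271740031937)) (C.cons (nat_lit 216) (C.miq (nat_lit 308742467) (nat_lit 236952024887981636597580345)) (C.cons (nat_lit 200) (C.node (nat_lit 1) (nat_lit 2) (nat_lit 6) (C.cons (nat_lit 102) (C.node (nat_lit 1) (nat_lit 6) (nat_lit 7) (C.cons (nat_lit 194) (C.node (nat_lit 2) (nat_lit 6) (nat_lit 8) (C.cons (nat_lit 324) (C.node (nat_lit 2) (nat_lit 3) (nat_lit 9) (C.cons (nat_lit 780) (C.node (nat_lit 1) (nat_lit 2) (nat_lit 3) (C.cons (nat_lit 14) (C.node (nat_lit 1) (nat_lit 2) (nat_lit 4) C.nil) C.nil)) C.nil)) C.nil)) C.nil)) (C.cons (nat_lit 70) (C.node (nat_lit 1) (nat_lit 2) (nat_lit 5) (C.cons (nat_lit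 54) (C.miq (nat_lit 2250312005) (nat_lit 84630175646049504131940921)) (C.cons (nat_lit 38) (C.node (nat_lit 2) (nat_lit 3) (nat_lit 9) (C.cons (nat_lit 780) (C.node (nat_lit 1) (nat_lit 2) (nat_lit 3) (C.cons (nat_lit 30) (C.miq (nat_lit 1981876547) (nat_lit 84627371740950300278522425)) (C.cons (nat_lit 14) (C.node (nat_lit 1) (nat_lit 3) (nat_lit 4) (C.cons (nat_lit 282) (C.node (nat_lit 3) (nat_lit 4) (nat_lit 6) C.nil) C.nil)) C.nil))) C.nil)) C.nil))) C.nil))) C.nil)))) C.nil)) C.nil))) C.nil))) C.nil)) C.nil)) (C.cons (nat_lit 580) (C.node (nat_lit 4) (nat_lit 6) (nat_lit 9) (C.cons (nat_lit 592) (C.node (nat_lit 3) (nat_lit 7) (nat_lit 9) (C.cons (nat_lit 652) (C.node (nat_lit 3) (nat_lit 8) (nat_lit 9) (C.cons (nat_lit 776) (C.node (nat_lit 4) (nat_lit 7) (nat_lit 9) (C.cons (nat_lit 656) (C.node (nat_lit 3) (nat_lit 5) (nat_lit 7) (C.cons (nat_lit 424) (C.miq (nat_lit 592549760) (nat_lit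 50784458467512186495501249)) (C.cons (nat_lit 232) (C.miq (nat_lit 324179568) (nat_lit 53202310088163271740031937)) (C.cons (nat_lit 168) (C.node (nat_lit 3) (nat_lit 6) (nat_lit 7) (C.cons (nat_lit 216) (C.miq (nat_lit 1200710432) (nat_lit 776131907333151443376341069)) (C.cons (nat_lit 200) (C.node (nat_lit 2) (nat_lit 4) (nat_lit 9) (C.cons (nat_lit 788) (C.node (nat_lit 2) (nat_lit 3) (nat_lit 4) (C.cons (nat_lit 30) (C.miq (nat_lit 1181946002) (nat_lit 241785717348614596801069575)) (C.cons (nat_lit 28) (C.node (nat_lit 2) (nat_lit 7) (nat_lit 8) (C.cons (nat_lit 390) (C.miq (nat_lit 323121304) (nat_lit 33857117218525829267719105))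
  (C.cons (nat_lit 388) (C.node (nat_lit 3) (nat_lit 4) (nat_lit 7) (C.cons (nat_lit 408) (C.miq (nat_lit 306383239) (nat_lit 33852487192724759893246913)) (C.cons (nat_lit 152) (C.node (nat_lit 3) (nat_lit 7) (nat_lit 8) (C.cons (nat_lit 392) (C.node (nat_lit 1) (nat_lit 2) (nat_lit 3) (C.cons (nat_lit 270) (C.node (nat_lit 1) (nat_lit 3) (nat_lit 4) C.nil) C.nil)) C.nil)) C.nil))) C.nil))) C.nil))) (C.cons (nat_lit 532) (C.node (nat_lit 2) (nat_lit 8) (nat_lit 9) (C.cons (nat_lit 772) (C.node (nat_lit 4) (nat_lit 8) (nat_lit 9) (C.cons (nat_lit 784) (C.node (nat_lit 3) (nat_lit 5) (nat_lit 6) (C.cons (nat_lit 360) (C.node (nat_lit 3) (nat_lit 4) (nat_lit 6) C.nil) C.nil)) C.nil)) C.nil)) C.nil))) C.nil))) C.nil)))) C.nil)) C.nil)) (C.cons (nat_lit 648) (C.node (nat_lit 2) (nat_lit 3) (nat_lit 9) (C.cons (nat_lit 780) (C.node (nat_lit 4) (nat_lit 8) (nat_lit 9) (C.cons (nat_lit 784) (C.node (nat_lit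 1) (nat_lit 2) (nat_lit 3) (C.cons (nat_lit 30) (C.miq (nat_lit 560477193) (nat_lit 389288502384732693552235065)) (C.cons (nat_lit 14) (C.node (nat_lit 1) (nat_lit 3) (nat_lit 4) (C.cons (nat_lit 282) (C.node (nat_lit 1) (nat_lit 2) (nat_lit 8) (C.cons (nat_lit 390) (C.node (nat_lit 2) (nat_lit 4) (nat_lit 9) (C.cons (nat_lit 660) (C.node (nat_lit 1) (nat_lit 2) (nat_lit 4) (C.cons (nat_lit 22) (C.miq (nat_lit 1411451256) (nat_lit 26601736194209387775394753)) C.nil)) C.nil)) (C.cons (nat_lit 262) (C.node (nat_lit 1) (nat_lit 7) (nat_lit 8) (C.cons (nat_lit 386) (C.node (nat_lit 2) (nat_lit 4) (nat_lit 9) (C.cons (nat_lit 660) (C.node (nat_lit 2) (nat_lit 7) (nat_lit 8) C.nil) C.nil)) C.nil)) C.nil))) (C.cons (nat_lit 26) (C.node (nat_lit 1) (nat_lit 3) (nat_lit 8) (C.cons (nat_lit 266) (C.node (nat_lit 2) (nat_lit 4) (nat_lit 9) (C.cons (nat_lit 660) (C.node (nat_lit 2) (nat_lit 3) (nat_lit 4) (C.cons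 (nat_lit 28) (C.node (nat_lit 2) (nat_lit 3) (nat_lit 7) (C.cons (nat_lit 140) (C.node (nat_lit 2) (nat_lit 6) (nat_lit 7) (C.cons (nat_lit 198) (C.miq (nat_lit 1393690983) (nat_lit 16928005347538749134078913)) (C.cons (nat_lit 196) (C.node (nat_lit 1) (nat_lit 2) (nat_lit 6) C.nil) C.nil))) C.nil)) C.nil)) C.nil)) C.nil)) C.nil))) C.nil))) C.nil)) (C.cons (nat_lit 524) (C.node (nat_lit 3) (nat_lit 8) (nat_lit 9) (C.cons (nat_lit 776) (C.node (nat_lit 2) (nat_lit 7) (nat_lit 9) (C.cons (nat_lit 660) (C.node (nat_lit 2) (nat_lit 8) (nat_lit 9) (C.cons (nat_lit 772) (C.node (nat_lit 4) (nat_lit 8) (nat_lit 9) (C.cons (nat_lit 784) (C.node (nat_lit 2) (nat_lit 6) (nat_lit 7) (C.cons (nat_lit 198) (C.miq (nat_lit 623997078) (nat_lit 50778536925586834860934081)) (C.cons (nat_lit 196) (C.node (nat_lit 1) (nat_lit 2) (nat_lit 6) (C.cons (nat_lit 102) (C.node (nat_lit 1) (nat_lit 2) (nat_lit 7) (C.cons (nat_lit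 390) (C.miq (nat_lit 1108711296) (nat_lit 123320929983845276240249793)) C.nil)) C.nil)) C.nil))) C.nil)) C.nil)) (C.cons (nat_lit 644) (C.node (nat_lit 4) (nat_lit 7) (nat_lit 9) (C.cons (nat_lit 656) (C.node (nat_lit 2) (nat_lit 4) (nat_lit 9) (C.cons (nat_lit 788) (C.node (nat_lit 2) (nat_lit 5) (nat_lit 8) (C.cons (nat_lit 356) (C.node (nat_lit 1) (nat_lit 2) (nat_lit 6) (C.cons (nat_lit 198) (C.miq (nat_lit 623997078) (nat_lit 50778536925586834860934081)) (C.cons (nat_lit 70) (C.node (nat_lit 1) (nat_lit 2) (nat_lit 5) (C.cons (nat_lit 54) (C.node (nat_lit 1) (nat_lit 2) (nat_lit 3) C.nil) C.nil)) C.nil))) (C.cons (nat_lit 292) (C.node (nat_lit 2) (nat_lit 6) (nat_lit 8) C.nil) C.nil))) C.nil)) C.nil)) C.nil))) C.nil)) C.nil))) C.nil))) C.nil)) C.nil))) C.nil)) C.nil))) C.nil))) C.nil)) C.nil))) (List.cons (C.node (nat_lit 2) (nat_lit 3) (nat_lit 5) (C.cons (nat_lit 300) (C.node (nat_lit 2) (nat_lit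 3) (nat_lit 4) (C.cons (nat_lit 156) (C.node (nat_lit 2) (nat_lit 7) (nat_lit 9) (C.cons (nat_lit 644) (C.node (nat_lit 3) (nat_lit 7) (nat_lit 8) (C.cons (nat_lit 392) (C.node (nat_lit 4) (nat_lit 7) (nat_lit 9) (C.cons (nat_lit 656) (C.node (nat_lit 3) (nat_lit 4) (nat_lit 6) (C.cons (nat_lit 344)
  (C.node (nat_lit 2) (nat_lit 6) (nat_lit 8) (C.cons (nat_lit 324) (C.node (nat_lit 1) (nat_lit 2) (nat_lit 8) C.nil) C.nil)) C.nil)) C.nil)) C.nil)) C.nil)) (C.cons (nat_lit 28) (C.node (nat_lit 2) (nat_lit 3) (nat_lit 7) (C.cons (nat_lit 140) (C.node (nat_lit 2) (nat_lit 5) (nat_lit 9) (C.cons (nat_lit 612) (C.node (nat_lit 4) (nat_lit 6) (nat_lit 9) C.nil) C.nil)) C.nil)) C.nil))) (C.cons (nat_lit 44) (C.node (nat_lit 2) (nat_lit 5) (nat_lit 9) (C.cons (nat_lit 612) (C.node (nat_lit 4) (nat_lit 6) (nat_lit 9) (C.cons (nat_lit 592) (C.node (nat_lit 1) (nat_lit 2) (nat_lit 6) (C.cons (nat_lit 198) (C.miq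 (nat_lit 1377015408) (nat_lit 16935457844246285340312513)) (C.cons (nat_lit 70) (C.node (nat_lit 3) (nat_lit 4) (nat_lit 6) C.nil) C.nil))) C.nil)) (C.cons (nat_lit 548) (C.node (nat_lit 5) (nat_lit 6) (nat_lit 9) (C.cons (nat_lit 608) (C.node (nat_lit 2) (nat_lit 6) (nat_lit 9) (C.cons (nat_lit 596) (C.node (nat_lit 2) (nat_lit 7) (nat_lit 9) (C.cons (nat_lit 644) (C.node (nat_lit 2) (nat_lit 8) (nat_lit 9) C.nil) C.nil)) (C.cons (nat_lit 580) (C.node (nat_lit 4) (nat_lit 6) (nat_lit 9) C.nil) C.nil))) C.nil)) C.nil))) C.nil))) (List.cons (C.node (nat_lit 1) (nat_lit 4) (nat_lit 9) (C.cons (nat_lit 786) (C.node (nat_lit 1) (nat_lit 2) (nat_lit 8) (C.cons (nat_lit 390) (C.miq (nat_lit 1092982896) (nat_lit 45949677563974856116339649)) (C.cons (nat_lit 262) (C.node (nat_lit 1) (nat_lit 7) (nat_lit 8) (C.cons (nat_lit 386) (C.node (nat_lit 1) (nat_lit 2) (nat_lit 4) (C.cons (nat_lit 150) (C.node (nat_lit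 2) (nat_lit 6) (nat_lit 7) (C.cons (nat_lit 196) (C.node (nat_lit 4) (nat_lit 7) (nat_lit 9) (C.cons (nat_lit 656) (C.node (nat_lit 3) (nat_lit 8) (nat_lit 9) (C.cons (nat_lit 780) (C.miq (nat_lit 1635910803) (nat_lit 316739985161692318370890297)) (C.cons (nat_lit 776) (C.node (nat_lit 2) (nat_lit 3) (nat_lit 4) (C.cons (nat_lit 284) (C.node (nat_lit 2) (nat_lit 3) (nat_lit 5) (C.cons (nat_lit 44) (C.node (nat_lit 2) (nat_lit 7) (nat_lit 8) C.nil) C.nil)) (C.cons (nat_lit 28) (C.node (nat_lit 2) (nat_lit 5) (nat_lit 9) (C.cons (nat_lit 804) (C.node (nat_lit 2) (nat_lit 3) (nat_lit 9) (C.cons (nat_lit 652) (C.miq (nat_lit 1378978160) (nat_lit 16930329703438939528561601)) C.nil)) C.nil)) C.nil))) C.nil))) C.nil)) C.nil)) C.nil)) C.nil)) C.nil))) (C.cons (nat_lit 530) (C.node (nat_lit 1) (nat_lit 8) (nat_lit 9) (C.cons (nat_lit 770) (C.node (nat_lit 2) (nat_lit 3) (nat_lit 5) (C.cons (nat_lit 300) (C.node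 (nat_lit 2) (nat_lit 5) (nat_lit 9) (C.cons (nat_lit 548) (C.node (nat_lit 3) (nat_lit 8) (nat_lit 9) (C.cons (nat_lit 776) (C.node (nat_lit 5) (nat_lit 8) (nat_lit 9) (C.cons (nat_lit 800) (C.node (nat_lit 2) (nat_lit 3) (nat_lit 9) (C.cons (nat_lit 652) (C.node (nat_lit 4) (nat_lit 7) (nat_lit 9) C.nil) C.nil)) C.nil)) C.nil)) C.nil)) (C.cons (nat_lit 44) (C.node (nat_lit 2) (nat_lit 5) (nat_lit 9) (C.cons (nat_lit 804) (C.node (nat_lit 3) (nat_lit 8) (nat_lit 9) (C.cons (nat_lit 776) (C.node (nat_lit 4) (nat_lit 8) (nat_lit 9) (C.cons (nat_lit 784) (C.node (nat_lit 2) (nat_lit 3) (nat_lit 9) (C.cons (nat_lit 652) (C.miq (nat_lit 1378978160) (nat_lit 16930329703438939528561601)) (C.cons (nat_lit 524) (C.node (nat_lit 3) (nat_lit 7) (nat_lit 9) C.nil) C.nil))) C.nil)) C.nil)) (C.cons (nat_lit 548) (C.node (nat_lit 5) (nat_lit 8) (nat_lit 9) (C.cons (nat_lit 800) (C.node (nat_lit 2) (nat_lit 6) (nat_lit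 7) (C.cons (nat_lit 212) (C.node (nat_lit 2) (nat_lit 6) (nat_lit 9) (C.cons (nat_lit 580) (C.node (nat_lit 4) (nat_lit 6) (nat_lit 9) C.nil) C.nil)) (C.cons (nat_lit 196) (C.node (nat_lit 2) (nat_lit 6) (nat_lit 9) (C.cons (nat_lit 596) (C.node (nat_lit 2) (nat_lit 5) (nat_lit 6) (C.cons (nat_lit 356) (C.miq (nat_lit 1904542562) (nat_lit 351800457259755691040833613)) C.nil)) (C.cons (nat_lit 580) (C.node (nat_lit 4) (nat_lit 6) (nat_lit 9) C.nil) C.nil))) C.nil))) C.nil)) C.nil))) C.nil))) C.nil)) C.nil))) List.nil)))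

theorem ok10_52 : okL par10 (nat_lit 55) c10_52 (nat_lit 52) = true := by decide +kernel


end Pool.Agent.MP_1f1ca1_co
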