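import Pool.Agent.MP_1f1ca1_co.Cert.P10

set_option autoImplicit false
set_option maxRecDepth 1000000
set_option maxHeartbeats 0

namespace Pool.Agent.MP_1f1ca1_co

noncomputable def c10_55 : List C :=
  (List.cons (C.node (nat_lit 1) (nat_lit 6) (nat_lit 9) (C.cons (nat_lit 610) (C.node (nat_lit 5) (nat_lit 7) (nat_lit 9) (C.cons (nat_lit 672) (C.node (nat_lit 1) (nat_lit 3) (nat_lit 5) (C.cons (nat_lit 46) (C.node (nat_lit 1) (nat_lit 3) (nat_lit 6) (C.cons (nat_lit 330) (C.miq (nat_lit 2014643762) (nat_lit 351800457491128121876676685)) (C.cons (nat_lit 74) (C.node (nat_lit 1) (nat_lit 6) (nat_lit 7) (C.cons (nat_lit 198) (C.miq (nat_lit 1901683248) (nat_lit 737462477341710874444365901)) (C.cons (nat_lit 194) (C.node (nat_lit 1) (nat_lit 2) (nat_lit 6) (C.cons (nat_lit 326) (C.miq (nat_lit 2170118704) (nat_lit 737462477377739671463329869)) (C.cons (nat_lit 70) (C.node (nat_lit 1) (nat_lit 6) (nat_lit 8) (C.cons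 (nat_lit 322) (C.node (nat_lit 3) (nat_lit 7) (nat_lit 9) (C.cons (nat_lit 652) (C.miq (nat_lit 2301691685) (nat_lit 631064646111862131616776357)) (C.cons (nat_lit 648) (C.node (nat_lit 2) (nat_lit 5) (nat_lit 9) (C.cons (nat_lit 804) (C.miq (nat_lit 595153160) (nat_lit 783398762305463413681226019)) (C.cons (nat_lit 548) (C.node (nat_lit 5) (nat_lit 8) (nat_lit 9) (C.cons (nat_lit 800) (C.node (nat_lit 3) (nat_lit 5) (nat_lit 6) (C.cons (nat_lit 360) (C.miq (nat_lit 2233033504) (nat_lit 737462477387309820668215373)) (C.cons (nat_lit 232) (C.miq (nat_lit 1964598048) (nat_lit 737462477351281023649251405)) (C.cons (nat_lit 104) (C.node (nat_lit 3) (nat_lit 5) (nat_lit 7) (C.cons (nat_lit 424) (C.miq (nat_lit 2234086160) (nat_lit 662509076589217210345914507)) (C.cons (nat_lit 168) (C.node (nat_lit 3) (nat_lit 5) (nat_lit 8) (C.cons (nat_lit 296) (C.node (nat_lit 1) (nat_lit 3) (nat_lit 4) (C.cons (nat_lit 282) (C.node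 (nat_lit 1) (nat_lit 8) (nat_lit 9) (C.cons (nat_lit 770) (C.node (nat_lit 3) (nat_lit 6) (nat_lit 8) (C.cons (nat_lit 328) (C.node (nat_lit 1) (nat_lit 2) (nat_lit 8) (C.cons (nat_lit 390) (C.miq (nat_lit 2186899760) (nat_lit 662509076579647061141029003)) (C.cons (nat_lit 262) (C.node (nat_lit 1) (nat_lit 7) (nat_lit 8) (C.cons (nat_lit 386) (C.node (nat_lit 2) (nat_lit 3) (nat_lit 4) (C.cons (nat_lit 156) (C.miq (nat_lit 2155091235) (nat_lit 175299445907859943328579630)) C.nil)) C.nil)) C.nil))) C.nil)) C.nil)) (C.cons (nat_lit 26) (C.node (nat_lit 1) (nat_lit 3) (nat_lit 8) (C.cons (nat_lit 266) (C.node (nat_lit 1) (nat_lit 4) (nat_lit 5) (C.cons (nat_lit 178) (C.node (nat_lit 1) (nat_lit 7) (nat_lit 9) (C.cons (nat_lit 642) (C.node (nat_lit 5) (nat_lit 6) (nat_lit 7) (C.cons (nat_lit 224) (C.node (nat_lit 5) (nat_lit 7) (nat_lit 8) (C.cons (nat_lit 416) (C.node (nat_lit 2) (nat_lit 5) (nat_lit 6) (C.cons (nat_lit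 372) (C.miq (nat_lit 2232902192) (nat_lit 215206523317167716890771533)) (C.cons (nat_lit 356) (C.miq (nat_lit 2232902192) (nat_lit 215206523312664117263401037)) (C.cons (nat_lit 116) (C.miq (nat_lit 628319248) (nat_lit 203100958127203238797836371)) C.nil)))) C.nil)) C.nil)) C.nil)) (C.cons (nat_lit 50) (C.node (nat_lit 1) (nat_lit 5) (nat_lit 7) (C.cons (nat_lit 162) (C.node (nat_lit 1) (nat_lit 7) (nat_lit 9) (C.cons (nat_lit 658) (C.node (nat_lit 1) (nat_lit 8) (nat_lit 9) C.nil) C.nil)) C.nil)) C.nil))) C.nil)) C.nil))) C.nil)) C.nil))) C.nil)))) C.nil)) C.nil))) C.nil))) C.nil)) C.nil))) C.nil))) C.nil))) (C.cons (nat_lit 42) (C.node (nat_lit 1) (nat_lit 2) (nat_lit 5) (C.cons (nat_lit 54) (C.node (nat_lit 1) (nat_lit 5) (nat_lit 7) (C.cons (nat_lit 162) (C.node (nat_lit 1) (nat_lit 6) (nat_lit 7) (C.cons (nat_lit 198) (C.miq (nat_lit 2535786004) (nat_lit 199483256704290057587392595)) (C.cons (nat_lit 194) (C.node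 (nat_lit 1) (nat_lit 2) (nat_lit 6) (C.cons (nat_lit 326) (C.miq (nat_lit 2151835985) (nat_lit 25393456120975138441527906)) (C.cons (nat_lit 70) (C.node (nat_lit 2) (nat_lit 5) (nat_lit 9) (C.cons (nat_lit 804) (C.miq (nat_lit 2182518080) (nat_lit 84642534920384990317576761)) (C.cons (nat_lit 548) (C.node (nat_lit 5) (nat_lit 8) (nat_lit 9) (C.cons (nat_lit 800) (C.node (nat_lit 2) (nat_lit 6) (nat_lit 7) (C.cons (nat_lit 212)
  (C.miq (nat_lit 2267350593) (nat_lit 199478128509437626461585491)) (C.cons (nat_lit 196) (C.node (nat_lit 2) (nat_lit 6) (nat_lit 9) (C.cons (nat_lit 596) (C.miq (nat_lit 2250312005) (nat_lit 84630175646049504131940921)) (C.cons (nat_lit 580) (C.node (nat_lit 4) (nat_lit 6) (nat_lit 9) (C.cons (nat_lit 592) (C.node (nat_lit 4) (nat_lit 5) (nat_lit 6) (C.cons (nat_lit 368) (C.miq (nat_lit 2234082320) (nat_lit 662509076573454646009856083)) (C.cons (nat_lit 240) (C.miq (nat_lit 1965646864) (nat_lit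 662509076537425848990892115)) (C.cons (nat_lit 112) (C.node (nat_lit 1) (nat_lit 2) (nat_lit 3) (C.cons (nat_lit 270) (C.node (nat_lit 1) (nat_lit 2) (nat_lit 7) (C.cons (nat_lit 134) (C.node (nat_lit 1) (nat_lit 3) (nat_lit 4) (C.cons (nat_lit 26) (C.node (nat_lit 1) (nat_lit 3) (nat_lit 6) (C.cons (nat_lit 74) (C.node (nat_lit 1) (nat_lit 6) (nat_lit 8) (C.cons (nat_lit 322) (C.node (nat_lit 1) (nat_lit 8) (nat_lit 9) (C.cons (nat_lit 786) (C.miq (nat_lit 2166854736) (nat_lit 162013787370654707923354169)) C.nil)) C.nil)) C.nil)) C.nil)) C.nil)) (C.cons (nat_lit 14) (C.node (nat_lit 1) (nat_lit 2) (nat_lit 7) (C.cons (nat_lit 390) (C.node (nat_lit 1) (nat_lit 3) (nat_lit 4) (C.cons (nat_lit 282) (C.miq (nat_lit 2219971335) (nat_lit 65289188568757109438873739)) (C.cons (nat_lit 26) (C.node (nat_lit 1) (nat_lit 4) (nat_lit 7) (C.cons (nat_lit 658) (C.miq (nat_lit 613881096) (nat_lit 795480383551816836323541283)) (C.cons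 (nat_lit 146) (C.node (nat_lit 1) (nat_lit 7) (nat_lit 9) (C.cons (nat_lit 642) (C.node (nat_lit 1) (nat_lit 4) (nat_lit 8) (C.cons (nat_lit 786) (C.node (nat_lit 2) (nat_lit 4) (nat_lit 9) (C.cons (nat_lit 660) (C.node (nat_lit 4) (nat_lit 5) (nat_lit 7) (C.cons (nat_lit 176) (C.miq (nat_lit 2236027026) (nat_lit 212778138564275143575863815)) C.nil)) (C.cons (nat_lit 532) (C.miq (nat_lit 2034370581) (nat_lit 643151580018255711486476579)) C.nil))) (C.cons (nat_lit 274) (C.miq (nat_lit 2551449381) (nat_lit 331256171042285462264086693)) C.nil))) C.nil)) C.nil))) C.nil))) (C.cons (nat_lit 134) (C.node (nat_lit 1) (nat_lit 2) (nat_lit 8) (C.cons (nat_lit 262) (C.node (nat_lit 1) (nat_lit 8) (nat_lit 9) (C.cons (nat_lit 786) (C.miq (nat_lit 2166854736) (nat_lit 162013787370654707923354169)) (C.cons (nat_lit 770) (C.node (nat_lit 4) (nat_lit 5) (nat_lit 7) (C.cons (nat_lit 432) (C.miq (nat_lit 1100501511) (nat_lit 930880850111906184943435941))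 (C.cons (nat_lit 176) (C.node (nat_lit 4) (nat_lit 5) (nat_lit 8) (C.cons (nat_lit 304) (C.node (nat_lit 2) (nat_lit 3) (nat_lit 5) (C.cons (nat_lit 300) (C.node (nat_lit 2) (nat_lit 5) (nat_lit 6) C.nil) C.nil)) C.nil)) C.nil))) C.nil))) C.nil)) C.nil))) C.nil))) C.nil)))) C.nil)) C.nil))) C.nil))) C.nil)) C.nil))) C.nil))) C.nil))) C.nil)) (C.cons (nat_lit 38) (C.node (nat_lit 1) (nat_lit 3) (nat_lit 6) (C.cons (nat_lit 330) (C.node (nat_lit 1) (nat_lit 2) (nat_lit 3) (C.cons (nat_lit 30) (C.node (nat_lit 1) (nat_lit 8) (nat_lit 9) (C.cons (nat_lit 786) (C.miq (nat_lit 646000788) (nat_lit 398946073896827539661390393)) (C.cons (nat_lit 770) (C.node (nat_lit 1) (nat_lit 4) (nat_lit 8) (C.cons (nat_lit 402) (C.miq (nat_lit 1881441841) (nat_lit 25394858073522627241967946)) (C.cons (nat_lit 274) (C.node (nat_lit 3) (nat_lit 8) (nat_lit 9) (C.cons (nat_lit 780) (C.miq (nat_lit 560477193) (nat_lit 398959908941649726949884473))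 (C.cons (nat_lit 776) (C.node (nat_lit 2) (nat_lit 6) (nat_lit 8) (C.cons (nat_lit 372) (C.miq (nat_lit 1904542562) (nat_lit 351800457259755691041882189)) (C.cons (nat_lit 356) (C.miq (nat_lit 1904542562) (nat_lit 351800457259755691040833613)) (C.cons (nat_lit 340) (C.miq (nat_lit 2017527331) (nat_lit 331248238942333552406954061)) (C.cons (nat_lit 324) (C.node (nat_lit 1) (nat_lit 2) (nat_lit 6) (C.cons (nat_lit 198) (C.node (nat_lit 1) (nat_lit 2) (nat_lit 8) (C.cons (nat_lit 262) (C.node (nat_lit 1) (nat_lit 7) (nat_lit 8) (C.cons (nat_lit 386) (C.node (nat_lit 1) (nat_lit 4) (nat_lit 5) (C.cons (nat_lit 178)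
  (C.miq (nat_lit 2534671907) (nat_lit 215199292359280236857000013)) (C.cons (nat_lit 50) (C.node (nat_lit 1) (nat_lit 5) (nat_lit 7) (C.cons (nat_lit 162) (C.node (nat_lit 1) (nat_lit 4) (nat_lit 7) (C.cons (nat_lit 658) (C.node (nat_lit 2) (nat_lit 3) (nat_lit 9) (C.cons (nat_lit 652) (C.node (nat_lit 2) (nat_lit 5) (nat_lit 6) (C.cons (nat_lit 116) (C.miq (nat_lit 2454090512) (nat_lit 140253122579873632814825611)) (C.cons (nat_lit 100) (C.node (nat_lit 2) (nat_lit 4) (nat_lit 6) (C.cons (nat_lit 596) (C.node (nat_lit 4) (nat_lit 8) (nat_lit 9) (C.cons (nat_lit 784) (C.node (nat_lit 2) (nat_lit 5) (nat_lit 9) (C.cons (nat_lit 804) (C.miq (nat_lit 1380026720) (nat_lit 36273142817272765802021825)) C.nil)) C.nil)) (C.cons (nat_lit 84) (C.miq (nat_lit 2454090512) (nat_lit 101567496352205499224227979)) C.nil))) C.nil))) (C.cons (nat_lit 524) (C.miq (nat_lit 2033325062) (nat_lit 633480782118605260554305619)) C.nil)))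 (C.cons (nat_lit 146) (C.miq (nat_lit 2534671907) (nat_lit 176513666131612103266402381)) C.nil))) C.nil)) C.nil))) C.nil)) C.nil)) (C.cons (nat_lit 70) (C.node (nat_lit 1) (nat_lit 6) (nat_lit 7) (C.cons (nat_lit 194) (C.node (nat_lit 1) (nat_lit 4) (nat_lit 9) (C.cons (nat_lit 658) (C.miq (nat_lit 1898353712) (nat_lit 84642534879289540638212665)) (C.cons (nat_lit 530) (C.node (nat_lit 1) (nat_lit 7) (nat_lit 9) (C.cons (nat_lit 642) (C.node (nat_lit 2) (nat_lit 3) (nat_lit 9) (C.cons (nat_lit 652) (C.miq (nat_lit 1914082112) (nat_lit 84642534877600690778341945)) (C.cons (nat_lit 524) (C.node (nat_lit 3) (nat_lit 7) (nat_lit 9) (C.cons (nat_lit 648) (C.node (nat_lit 2) (nat_lit 3) (nat_lit 7) (C.cons (nat_lit 396) (C.miq (nat_lit 1182929011) (nat_lit 391692518980828614447857803)) (C.cons (nat_lit 140) (C.node (nat_lit 2) (nat_lit 6) (nat_lit 9) (C.cons (nat_lit 596) (C.miq (nat_lit 1981876547) (nat_lit 84627371740950300278522425))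 (C.cons (nat_lit 580) (C.node (nat_lit 4) (nat_lit 6) (nat_lit 9) (C.cons (nat_lit 592) (C.node (nat_lit 1) (nat_lit 2) (nat_lit 7) (C.cons (nat_lit 390) (C.node (nat_lit 2) (nat_lit 5) (nat_lit 9) C.nil) C.nil)) C.nil)) C.nil))) C.nil))) C.nil)) C.nil))) C.nil)) C.nil))) C.nil)) C.nil))) C.nil))))) C.nil))) C.nil))) C.nil))) (C.cons (nat_lit 14) (C.node (nat_lit 1) (nat_lit 3) (nat_lit 4) (C.cons (nat_lit 26) (C.node (nat_lit 1) (nat_lit 2) (nat_lit 6) (C.cons (nat_lit 198) (C.node (nat_lit 1) (nat_lit 4) (nat_lit 5) (C.cons (nat_lit 178) (C.miq (nat_lit 846530068) (nat_lit 199483256455466178183299155)) (C.cons (nat_lit 50) (C.node (nat_lit 1) (nat_lit 5) (nat_lit 7) (C.cons (nat_lit 162) (C.node (nat_lit 1) (nat_lit 7) (nat_lit 9) (C.cons (nat_lit 658) (C.miq (nat_lit 1092851552) (nat_lit 16935457857194134264939457)) (C.cons (nat_lit 642) (C.node (nat_lit 2) (nat_lit 6) (nat_lit 9) (C.cons (nat_lit 596) (C.miq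 (nat_lit 1108579952) (nat_lit 16935457839742685712942017)) (C.cons (nat_lit 580) (C.node (nat_lit 4) (nat_lit 6) (nat_lit 9) (C.cons (nat_lit 592) (C.node (nat_lit 3) (nat_lit 4) (nat_lit 6) (C.cons (nat_lit 216) (C.miq (nat_lit 1192834592) (nat_lit 776140872450769316303274061)) (C.cons (nat_lit 88) (C.node (nat_lit 3) (nat_lit 5) (nat_lit 6) (C.cons (nat_lit 232) (C.miq (nat_lit 1461270048) (nat_lit 776140872455272915930644557)) (C.cons (nat_lit 104) (C.node (nat_lit 3) (nat_lit 6) (nat_lit 7) (C.cons (nat_lit 200) (C.node (nat_lit 3) (nat_lit 7) (nat_lit 9) (C.cons (nat_lit 652) (C.miq (nat_lit 1126238582) (nat_lit 16926492714524988418687937)) (C.cons (nat_lit 648) (C.node (nat_lit 4) (nat_lit 6) (nat_lit 7) (C.cons (nat_lit 240) (C.miq (nat_lit 2507277409) (nat_lit 199482334256748361637298259)) (C.cons (nat_lit 208) (C.node (nat_lit 5) (nat_lit 6) (nat_lit 7) (C.cons (nat_lit 224) (C.node (nat_lit 2) (nat_lit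 5) (nat_lit 6) (C.cons (nat_lit 372) (C.miq (nat_lit 1904542562) (nat_lit 351800457259755691041882189)) (C.cons (nat_lit 356) (C.miq (nat_lit 1904542562) (nat_lit 351800457259755691040833613)) (C.cons (nat_lit 116)
  (C.miq (nat_lit 891749473) (nat_lit 199475324493999819431739475)) C.nil)))) C.nil)) C.nil))) C.nil))) C.nil)) C.nil))) C.nil))) C.nil)) C.nil))) C.nil))) C.nil)) C.nil))) (C.cons (nat_lit 70) (C.node (nat_lit 1) (nat_lit 6) (nat_lit 7) (C.cons (nat_lit 194) (C.node (nat_lit 1) (nat_lit 4) (nat_lit 5) (C.cons (nat_lit 178) (C.node (nat_lit 1) (nat_lit 7) (nat_lit 9) (C.cons (nat_lit 642) (C.node (nat_lit 2) (nat_lit 5) (nat_lit 6) (C.cons (nat_lit 372) (C.miq (nat_lit 1904542562) (nat_lit 351800457259755691041882189)) (C.cons (nat_lit 356) (C.miq (nat_lit 1904542562) (nat_lit 351800457259755691040833613)) (C.cons (nat_lit 116) (C.miq (nat_lit 844564033) (nat_lit 199475324355514130888786003)) (C.cons (nat_lit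 100) (C.node (nat_lit 1) (nat_lit 2) (nat_lit 4) (C.cons (nat_lit 278) (C.node (nat_lit 1) (nat_lit 2) (nat_lit 7) (C.cons (nat_lit 134) (C.node (nat_lit 1) (nat_lit 4) (nat_lit 9) (C.cons (nat_lit 530) (C.node (nat_lit 1) (nat_lit 7) (nat_lit 8) (C.cons (nat_lit 386) (C.node (nat_lit 1) (nat_lit 8) (nat_lit 9) (C.cons (nat_lit 770) (C.node (nat_lit 2) (nat_lit 4) (nat_lit 5) (C.cons (nat_lit 52) (C.node (nat_lit 2) (nat_lit 6) (nat_lit 8) (C.cons (nat_lit 324) (C.node (nat_lit 4) (nat_lit 8) (nat_lit 9) (C.cons (nat_lit 784) (C.node (nat_lit 2) (nat_lit 3) (nat_lit 4) (C.cons (nat_lit 156) (C.node (nat_lit 2) (nat_lit 6) (nat_lit 7) C.nil) C.nil)) C.nil)) C.nil)) C.nil)) C.nil)) C.nil)) C.nil)) C.nil)) (C.cons (nat_lit 22) (C.node (nat_lit 1) (nat_lit 2) (nat_lit 7) (C.cons (nat_lit 390) (C.node (nat_lit 1) (nat_lit 4) (nat_lit 8) (C.cons (nat_lit 786) (C.miq (nat_lit 1092982896) (nat_lit 45949677563974856116339649))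 (C.cons (nat_lit 274) (C.node (nat_lit 1) (nat_lit 4) (nat_lit 9) (C.cons (nat_lit 530) (C.node (nat_lit 1) (nat_lit 8) (nat_lit 9) (C.cons (nat_lit 770) (C.node (nat_lit 2) (nat_lit 4) (nat_lit 5) (C.cons (nat_lit 308) (C.miq (nat_lit 830736165) (nat_lit 331256170810913031424573605)) (C.cons (nat_lit 52) (C.node (nat_lit 2) (nat_lit 5) (nat_lit 9) (C.cons (nat_lit 804) (C.miq (nat_lit 1377015920) (nat_lit 16935457898290305502479297)) (C.cons (nat_lit 548) (C.node (nat_lit 2) (nat_lit 3) (nat_lit 5) C.nil) C.nil))) C.nil))) C.nil)) C.nil)) C.nil))) (C.cons (nat_lit 134) (C.node (nat_lit 1) (nat_lit 2) (nat_lit 8) (C.cons (nat_lit 262) (C.node (nat_lit 1) (nat_lit 7) (nat_lit 8) (C.cons (nat_lit 386) (C.node (nat_lit 1) (nat_lit 4) (nat_lit 8) (C.cons (nat_lit 786) (C.node (nat_lit 2) (nat_lit 3) (nat_lit 5) (C.cons (nat_lit 300) (C.node (nat_lit 2) (nat_lit 4) (nat_lit 5) C.nil) C.nil)) C.nil)) C.nil)) C.nil)) C.nil)))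 C.nil))) C.nil))))) C.nil)) (C.cons (nat_lit 50) (C.node (nat_lit 1) (nat_lit 5) (nat_lit 7) (C.cons (nat_lit 162) (C.node (nat_lit 1) (nat_lit 7) (nat_lit 9) (C.cons (nat_lit 658) (C.node (nat_lit 1) (nat_lit 8) (nat_lit 9) (C.cons (nat_lit 770) (C.node (nat_lit 2) (nat_lit 6) (nat_lit 9) (C.cons (nat_lit 596) (C.miq (nat_lit 588537977) (nat_lit 31443065591122459685422017)) (C.cons (nat_lit 580) (C.node (nat_lit 4) (nat_lit 6) (nat_lit 9) (C.cons (nat_lit 592) (C.node (nat_lit 2) (nat_lit 7) (nat_lit 9) (C.cons (nat_lit 652) (C.miq (nat_lit 639053897) (nat_lit 234543636304048048252781113)) (C.cons (nat_lit 644) (C.node (nat_lit 3) (nat_lit 7) (nat_lit 9) (C.cons (nat_lit 648) (C.node (nat_lit 3) (nat_lit 4) (nat_lit 6) (C.cons (nat_lit 216) (C.miq (nat_lit 558041462) (nat_lit 31433491855362373193302977)) (C.cons (nat_lit 88) (C.node (nat_lit 1) (nat_lit 2) (nat_lit 4) (C.cons (nat_lit 278) (C.node (nat_lit 1) (nat_lit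 2) (nat_lit 7) (C.cons (nat_lit 134) (C.node (nat_lit 2) (nat_lit 4) (nat_lit 9) C.nil) C.nil)) (C.cons (nat_lit 22) (C.node (nat_lit 1) (nat_lit 4) (nat_lit 8) (C.cons (nat_lit 274) (C.node (nat_lit 1) (nat_lit 2) (nat_lit 7) (C.cons (nat_lit 390) (C.node (nat_lit 2) (nat_lit 4) (nat_lit 9) (C.cons (nat_lit 788) (C.miq (nat_lit 1108580464) (nat_lit 16935457893786705875108801)) C.nil)) C.nil)) C.nil)) C.nil))) C.nil))) C.nil)) C.nil))) C.nil)) C.nil))) C.nil))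
  (C.cons (nat_lit 642) (C.ref (nat_lit 54) (nat_lit 654820258320)) C.nil))) C.nil)) C.nil))) C.nil)) C.nil))) C.nil)) C.nil))) (C.cons (nat_lit 74) (C.node (nat_lit 1) (nat_lit 4) (nat_lit 5) (C.cons (nat_lit 178) (C.node (nat_lit 1) (nat_lit 7) (nat_lit 9) (C.cons (nat_lit 642) (C.node (nat_lit 1) (nat_lit 6) (nat_lit 7) (C.cons (nat_lit 198) (C.miq (nat_lit 846530068) (nat_lit 199483256455466178183299155)) (C.cons (nat_lit 194) (C.node (nat_lit 1) (nat_lit 2) (nat_lit 6) (C.cons (nat_lit 326) (C.node (nat_lit 1) (nat_lit 2) (nat_lit 7) (C.cons (nat_lit 134) (C.node (nat_lit 1) (nat_lit 7) (nat_lit 8) (C.cons (nat_lit 386) (C.node (nat_lit 2) (nat_lit 3) (nat_lit 5) (C.cons (nat_lit 300) (C.miq (nat_lit 1099236899) (nat_lit 351807909728598853820350541)) (C.cons (nat_lit 44) (C.node (nat_lit 2) (nat_lit 5) (nat_lit 6) (C.cons (nat_lit 116) (C.miq (nat_lit 844564033) (nat_lit 199475324355514130888786003)) (C.cons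 (nat_lit 100) (C.node (nat_lit 2) (nat_lit 5) (nat_lit 9) (C.cons (nat_lit 804) (C.miq (nat_lit 1159793030) (nat_lit 45940712385276741455053761)) (C.cons (nat_lit 548) (C.node (nat_lit 5) (nat_lit 8) (nat_lit 9) (C.cons (nat_lit 800) (C.node (nat_lit 2) (nat_lit 6) (nat_lit 9) (C.cons (nat_lit 596) (C.miq (nat_lit 1108711040) (nat_lit 45949677510494335671665601)) (C.cons (nat_lit 580) (C.node (nat_lit 4) (nat_lit 6) (nat_lit 9) (C.cons (nat_lit 592) (C.node (nat_lit 4) (nat_lit 5) (nat_lit 6) (C.cons (nat_lit 368) (C.miq (nat_lit 693637190) (nat_lit 967146669476359325852106835)) (C.cons (nat_lit 112) (C.node (nat_lit 5) (nat_lit 6) (nat_lit 8) (C.cons (nat_lit 360) (C.miq (nat_lit 2508260194) (nat_lit 351806987528192153054740557)) (C.cons (nat_lit 352) (C.node (nat_lit 1) (nat_lit 2) (nat_lit 3) C.nil) C.nil))) C.nil))) C.nil)) C.nil))) C.nil)) C.nil))) C.nil))) C.nil))) C.nil)) C.nil)) (C.cons (nat_lit 70) (C.node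 (nat_lit 1) (nat_lit 6) (nat_lit 8) (C.cons (nat_lit 322) (C.node (nat_lit 1) (nat_lit 2) (nat_lit 7) (C.cons (nat_lit 390) (C.node (nat_lit 1) (nat_lit 3) (nat_lit 8) (C.cons (nat_lit 282) (C.miq (nat_lit 540570945) (nat_lit 320372536474511293034397874)) (C.cons (nat_lit 266) (C.node (nat_lit 1) (nat_lit 4) (nat_lit 8) (C.cons (nat_lit 786) (C.miq (nat_lit 1092982896) (nat_lit 45949677563974856116339649)) (C.cons (nat_lit 274) (C.node (nat_lit 1) (nat_lit 4) (nat_lit 9) (C.cons (nat_lit 530) (C.node (nat_lit 1) (nat_lit 8) (nat_lit 9) (C.cons (nat_lit 770) (C.node (nat_lit 1) (nat_lit 2) (nat_lit 3) (C.cons (nat_lit 30) (C.node (nat_lit 2) (nat_lit 3) (nat_lit 7) (C.cons (nat_lit 652) (C.miq (nat_lit 840275840) (nat_lit 45949677526257209245369281)) (C.cons (nat_lit 140) (C.node (nat_lit 3) (nat_lit 7) (nat_lit 9) (C.cons (nat_lit 648) (C.node (nat_lit 2) (nat_lit 3) (nat_lit 9) (C.cons (nat_lit 780) (C.miq (nat_lit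 2182517568) (nat_lit 84642534913629487797305913)) (C.cons (nat_lit 524) (C.node (nat_lit 3) (nat_lit 8) (nat_lit 9) C.nil) C.nil))) C.nil)) C.nil))) C.nil)) C.nil)) C.nil)) C.nil))) C.nil))) (C.cons (nat_lit 134) (C.node (nat_lit 1) (nat_lit 7) (nat_lit 8) (C.cons (nat_lit 386) (C.ref (nat_lit 54) (nat_lit 636551197200)) C.nil)) C.nil))) C.nil)) C.nil))) C.nil))) C.nil)) (C.cons (nat_lit 50) (C.node (nat_lit 1) (nat_lit 5) (nat_lit 7) (C.cons (nat_lit 162) (C.node (nat_lit 1) (nat_lit 6) (nat_lit 7) (C.cons (nat_lit 198) (C.node (nat_lit 1) (nat_lit 6) (nat_lit 8) (C.cons (nat_lit 322) (C.node (nat_lit 5) (nat_lit 6) (nat_lit 7) (C.cons (nat_lit 240) (C.miq (nat_lit 2507277409) (nat_lit 199482334256748361637298259)) (C.cons (nat_lit 232) (C.miq (nat_lit 2507211618) (nat_lit 195855556797904439753441357)) (C.cons (nat_lit 224) (C.node (nat_lit 1) (nat_lit 7) (nat_lit 8) (C.cons (nat_lit 402) (C.node (nat_lit 1) (nat_lit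 4) (nat_lit 9) (C.cons (nat_lit 530) (C.node (nat_lit 1) (nat_lit 7) (nat_lit 9) (C.cons (nat_lit 642) (C.node (nat_lit 1) (nat_lit 8) (nat_lit 9) (C.cons (nat_lit 770) (C.node (nat_lit 4) (nat_lit 5) (nat_lit 7) (C.cons (nat_lit 176) (C.node (nat_lit 1) (nat_lit 2) (nat_lit 4)
  (C.cons (nat_lit 30) (C.miq (nat_lit 1900634672) (nat_lit 640748411772540471748395085)) (C.cons (nat_lit 22) (C.node (nat_lit 1) (nat_lit 3) (nat_lit 4) (C.cons (nat_lit 26) (C.node (nat_lit 1) (nat_lit 2) (nat_lit 3) (C.cons (nat_lit 270) (C.node (nat_lit 2) (nat_lit 3) (nat_lit 5) (C.cons (nat_lit 44) (C.node (nat_lit 2) (nat_lit 7) (nat_lit 8) (C.cons (nat_lit 388) (C.node (nat_lit 3) (nat_lit 5) (nat_lit 7) C.nil) C.nil)) C.nil)) C.nil)) C.nil)) C.nil))) C.nil)) C.nil)) C.nil)) C.nil)) (C.cons (nat_lit 386) (C.node (nat_lit 1) (nat_lit 4) (nat_lit 7) (C.cons (nat_lit 658) (C.node (nat_lit 1) (nat_lit 8) (nat_lit 9) (C.cons (nat_lit 770)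 (C.node (nat_lit 2) (nat_lit 7) (nat_lit 9) (C.cons (nat_lit 652) (C.node (nat_lit 3) (nat_lit 8) (nat_lit 9) (C.cons (nat_lit 776) (C.node (nat_lit 2) (nat_lit 5) (nat_lit 9) (C.cons (nat_lit 804) (C.miq (nat_lit 827486345) (nat_lit 45951208461618238917444545)) (C.cons (nat_lit 548) (C.node (nat_lit 5) (nat_lit 8) (nat_lit 9) (C.cons (nat_lit 800) (C.node (nat_lit 2) (nat_lit 6) (nat_lit 9) (C.cons (nat_lit 596) (C.node (nat_lit 2) (nat_lit 8) (nat_lit 9) (C.cons (nat_lit 772) (C.node (nat_lit 4) (nat_lit 8) (nat_lit 9) (C.cons (nat_lit 784) (C.node (nat_lit 3) (nat_lit 5) (nat_lit 7) (C.cons (nat_lit 424) (C.miq (nat_lit 592549760) (nat_lit 50784458467512186495501249)) (C.cons (nat_lit 168) (C.node (nat_lit 2) (nat_lit 3) (nat_lit 5) (C.cons (nat_lit 44) (C.node (nat_lit 2) (nat_lit 4) (nat_lit 5) C.nil) C.nil)) C.nil))) C.nil)) C.nil)) (C.cons (nat_lit 580) (C.miq (nat_lit 1227228017) (nat_lit 701178506616405101302382731))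 C.nil))) C.nil)) C.nil))) C.nil)) (C.cons (nat_lit 644) (C.miq (nat_lit 846792212) (nat_lit 778558724050873552899014739)) C.nil))) C.nil)) (C.cons (nat_lit 146) (C.node (nat_lit 1) (nat_lit 7) (nat_lit 9) (C.cons (nat_lit 642) (C.node (nat_lit 3) (nat_lit 6) (nat_lit 7) (C.cons (nat_lit 216) (C.miq (nat_lit 1192834592) (nat_lit 776140872450769316303274061)) (C.cons (nat_lit 200) (C.node (nat_lit 4) (nat_lit 6) (nat_lit 7) (C.cons (nat_lit 208) (C.node (nat_lit 2) (nat_lit 6) (nat_lit 9) (C.cons (nat_lit 596) (C.miq (nat_lit 1181979152) (nat_lit 241795660288063712208290311)) (C.cons (nat_lit 580) (C.node (nat_lit 4) (nat_lit 6) (nat_lit 9) (C.cons (nat_lit 592) (C.node (nat_lit 3) (nat_lit 7) (nat_lit 9) (C.cons (nat_lit 652) (C.miq (nat_lit 929337872) (nat_lit 251467066860743344298066439)) C.nil)) C.nil)) C.nil))) C.nil)) C.nil))) C.nil)) C.nil))) C.nil))) C.nil)))) C.nil)) (C.cons (nat_lit 194) (C.node (nat_lit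 1) (nat_lit 2) (nat_lit 6) (C.cons (nat_lit 326) (C.node (nat_lit 2) (nat_lit 3) (nat_lit 5) (C.cons (nat_lit 300) (C.miq (nat_lit 1099236899) (nat_lit 351807909728598853820350541)) (C.cons (nat_lit 44) (C.node (nat_lit 2) (nat_lit 5) (nat_lit 9) (C.cons (nat_lit 804) (C.miq (nat_lit 1159793030) (nat_lit 45940712385276741455053761)) (C.cons (nat_lit 548) (C.node (nat_lit 5) (nat_lit 8) (nat_lit 9) (C.cons (nat_lit 800) (C.node (nat_lit 2) (nat_lit 6) (nat_lit 9) (C.cons (nat_lit 596) (C.miq (nat_lit 1108711040) (nat_lit 45949677510494335671665601)) (C.cons (nat_lit 580) (C.node (nat_lit 4) (nat_lit 6) (nat_lit 9) (C.cons (nat_lit 592) (C.node (nat_lit 5) (nat_lit 6) (nat_lit 8) (C.cons (nat_lit 368) (C.miq (nat_lit 693637190) (nat_lit 967146669476359325852106835)) (C.cons (nat_lit 360) (C.miq (nat_lit 2508260194) (nat_lit 351806987528192153054740557)) (C.cons (nat_lit 352) (C.node (nat_lit 1) (nat_lit 2) (nat_lit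 3) (C.cons (nat_lit 30) (C.node (nat_lit 1) (nat_lit 2) (nat_lit 7) (C.cons (nat_lit 134) (C.node (nat_lit 1) (nat_lit 3) (nat_lit 8) (C.cons (nat_lit 266) (C.node (nat_lit 1) (nat_lit 7) (nat_lit 8) (C.cons (nat_lit 402) (C.miq (nat_lit 2551449123) (nat_lit 485998675952957721746997325)) C.nil)) C.nil)) C.nil)) (C.cons (nat_lit 14) (C.node (nat_lit 1) (nat_lit 8) (nat_lit 9) (C.cons (nat_lit 786) (C.miq (nat_lit 1092851808) (nat_lit 16935457893223481039717313)) (C.cons (nat_lit 770) (C.node (nat_lit 3) (nat_lit 6) (nat_lit 8) (C.cons (nat_lit 344)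
  (C.miq (nat_lit 1209611808) (nat_lit 930883377397471197440442445)) (C.cons (nat_lit 328) (C.node (nat_lit 4) (nat_lit 6) (nat_lit 8) (C.cons (nat_lit 336) (C.node (nat_lit 1) (nat_lit 2) (nat_lit 4) (C.cons (nat_lit 150) (C.node (nat_lit 1) (nat_lit 4) (nat_lit 9) C.nil) C.nil)) C.nil)) C.nil))) C.nil))) C.nil))) C.nil)))) C.nil)) C.nil))) C.nil)) C.nil))) C.nil))) (C.cons (nat_lit 70) (C.node (nat_lit 1) (nat_lit 6) (nat_lit 8) (C.cons (nat_lit 322) (C.node (nat_lit 1) (nat_lit 7) (nat_lit 9) (C.cons (nat_lit 658) (C.node (nat_lit 1) (nat_lit 8) (nat_lit 9) (C.cons (nat_lit 770) (C.node (nat_lit 2) (nat_lit 7) (nat_lit 9) (C.cons (nat_lit 652) (C.miq (nat_lit 639053897) (nat_lit 234543636304048048252781113)) (C.cons (nat_lit 644) (C.node (nat_lit 3) (nat_lit 7) (nat_lit 9) (C.cons (nat_lit 648) (C.node (nat_lit 2) (nat_lit 6) (nat_lit 9) (C.cons (nat_lit 596) (C.miq (nat_lit 695428112) (nat_lit 783385351677335293062217811))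 (C.cons (nat_lit 580) (C.node (nat_lit 4) (nat_lit 6) (nat_lit 9) (C.cons (nat_lit 592) (C.node (nat_lit 1) (nat_lit 2) (nat_lit 7) (C.cons (nat_lit 390) (C.node (nat_lit 1) (nat_lit 2) (nat_lit 3) (C.cons (nat_lit 30) (C.miq (nat_lit 1898353712) (nat_lit 84642534879289540638212665)) (C.cons (nat_lit 14) (C.node (nat_lit 1) (nat_lit 2) (nat_lit 4) (C.cons (nat_lit 22) (C.node (nat_lit 1) (nat_lit 3) (nat_lit 4) (C.cons (nat_lit 282) (C.node (nat_lit 2) (nat_lit 3) (nat_lit 5) (C.cons (nat_lit 300) (C.miq (nat_lit 1160261745) (nat_lit 362682948026377508948934795)) (C.cons (nat_lit 44) (C.node (nat_lit 2) (nat_lit 3) (nat_lit 8) C.nil) C.nil))) C.nil)) C.nil)) C.nil))) (C.cons (nat_lit 134) (C.node (nat_lit 1) (nat_lit 7) (nat_lit 8) (C.cons (nat_lit 386) (C.node (nat_lit 1) (nat_lit 3) (nat_lit 4) (C.cons (nat_lit 286) (C.miq (nat_lit 1898353712) (nat_lit 84642534879290640149840441)) (C.cons (nat_lit 282) (C.node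 (nat_lit 1) (nat_lit 2) (nat_lit 8) C.nil) (C.cons (nat_lit 30) (C.miq (nat_lit 1898353712) (nat_lit 84642534879289540638212665)) C.nil)))) C.nil)) C.nil))) C.nil)) C.nil))) C.nil)) C.nil))) C.nil)) (C.cons (nat_lit 642) (C.node (nat_lit 1) (nat_lit 4) (nat_lit 9) (C.cons (nat_lit 786) (C.node (nat_lit 1) (nat_lit 3) (nat_lit 4) (C.cons (nat_lit 30) (C.miq (nat_lit 2166789168) (nat_lit 84642534915318337657176633)) (C.cons (nat_lit 26) (C.node (nat_lit 1) (nat_lit 7) (nat_lit 8) (C.cons (nat_lit 390) (C.miq (nat_lit 1092982896) (nat_lit 45949677563974856116339649)) (C.cons (nat_lit 386) (C.node (nat_lit 1) (nat_lit 2) (nat_lit 3) (C.cons (nat_lit 270) (C.node (nat_lit 2) (nat_lit 3) (nat_lit 5) (C.cons (nat_lit 44) (C.node (nat_lit 3) (nat_lit 8) (nat_lit 9) (C.cons (nat_lit 776) (C.node (nat_lit 1) (nat_lit 2) (nat_lit 4) (C.cons (nat_lit 150) (C.node (nat_lit 2) (nat_lit 3) (nat_lit 4) (C.cons (nat_lit 28) (C.node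 (nat_lit 2) (nat_lit 6) (nat_lit 7) (C.cons (nat_lit 196) (C.node (nat_lit 2) (nat_lit 7) (nat_lit 8) (C.cons (nat_lit 388) (C.node (nat_lit 2) (nat_lit 3) (nat_lit 7) C.nil) C.nil)) C.nil)) C.nil)) C.nil)) C.nil)) C.nil)) C.nil)) C.nil))) C.nil))) (C.cons (nat_lit 530) (C.node (nat_lit 1) (nat_lit 8) (nat_lit 9) (C.cons (nat_lit 770) (C.node (nat_lit 2) (nat_lit 3) (nat_lit 5) (C.cons (nat_lit 300) (C.node (nat_lit 2) (nat_lit 5) (nat_lit 9) (C.cons (nat_lit 548) (C.node (nat_lit 3) (nat_lit 8) (nat_lit 9) (C.cons (nat_lit 776) (C.node (nat_lit 5) (nat_lit 8) (nat_lit 9) (C.cons (nat_lit 800) (C.node (nat_lit 1) (nat_lit 2) (nat_lit 3) (C.cons (nat_lit 30) (C.node (nat_lit 1) (nat_lit 3) (nat_lit 8) C.nil) C.nil)) C.nil)) C.nil)) C.nil)) (C.cons (nat_lit 44) (C.node (nat_lit 2) (nat_lit 5) (nat_lit 9) (C.cons (nat_lit 804) (C.node (nat_lit 3) (nat_lit 8) (nat_lit 9) (C.cons (nat_lit 776) (C.node (nat_lit 4) (nat_lit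 8) (nat_lit 9) (C.cons (nat_lit 784) (C.node (nat_lit 2) (nat_lit 3) (nat_lit 9) (C.cons (nat_lit 652) (C.miq (nat_lit 354617495) (nat_lit 53195300242382600733983681)) (C.cons (nat_lit 524) (C.node (nat_lit 3) (nat_lit 7) (nat_lit 9) C.nil) C.nil))) C.nil)) C.nil))
  (C.cons (nat_lit 548) (C.node (nat_lit 5) (nat_lit 8) (nat_lit 9) (C.cons (nat_lit 800) (C.node (nat_lit 2) (nat_lit 6) (nat_lit 7) (C.cons (nat_lit 212) (C.node (nat_lit 2) (nat_lit 6) (nat_lit 9) (C.cons (nat_lit 580) (C.node (nat_lit 4) (nat_lit 6) (nat_lit 9) C.nil) C.nil)) (C.cons (nat_lit 196) (C.node (nat_lit 2) (nat_lit 6) (nat_lit 9) (C.cons (nat_lit 596) (C.node (nat_lit 4) (nat_lit 7) (nat_lit 9) (C.cons (nat_lit 656) (C.node (nat_lit 4) (nat_lit 8) (nat_lit 9) C.nil) C.nil)) (C.cons (nat_lit 580) (C.node (nat_lit 4) (nat_lit 6) (nat_lit 9) C.nil) C.nil))) C.nil))) C.nil)) C.nil))) C.nil))) C.nil)) C.nil))) C.nil))) C.nil)) C.nil))) C.nil)))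 C.nil)) C.nil))) C.nil))) C.nil))) C.nil))) C.nil)) (C.cons (nat_lit 578) (C.node (nat_lit 1) (nat_lit 5) (nat_lit 9) (C.cons (nat_lit 674) (C.node (nat_lit 1) (nat_lit 6) (nat_lit 7) (C.cons (nat_lit 198) (C.miq (nat_lit 957744498) (nat_lit 698760544296711495184941221)) (C.cons (nat_lit 194) (C.node (nat_lit 5) (nat_lit 6) (nat_lit 9) (C.cons (nat_lit 612) (C.miq (nat_lit 425948448) (nat_lit 706015242942086446484095141)) (C.cons (nat_lit 608) (C.node (nat_lit 1) (nat_lit 4) (nat_lit 5) (C.cons (nat_lit 54) (C.node (nat_lit 1) (nat_lit 2) (nat_lit 7) (C.cons (nat_lit 390) (C.miq (nat_lit 2151840081) (nat_lit 25394636712595855852831394)) (C.cons (nat_lit 134) (C.node (nat_lit 1) (nat_lit 4) (nat_lit 9) (C.cons (nat_lit 786) (C.miq (nat_lit 2166854736) (nat_lit 162013787370654707923354169)) (C.cons (nat_lit 530) (C.node (nat_lit 1) (nat_lit 8) (nat_lit 9) (C.cons (nat_lit 770) (C.node (nat_lit 2) (nat_lit 6) (nat_lit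 7) (C.cons (nat_lit 212) (C.miq (nat_lit 2267350593) (nat_lit 199478128509437626461585491)) (C.cons (nat_lit 196) (C.node (nat_lit 4) (nat_lit 7) (nat_lit 9) (C.cons (nat_lit 660) (C.miq (nat_lit 2267089221) (nat_lit 162001428101386046191043129)) (C.cons (nat_lit 656) (C.node (nat_lit 4) (nat_lit 5) (nat_lit 7) (C.cons (nat_lit 432) (C.miq (nat_lit 695472261) (nat_lit 793056333937466359327752483)) (C.cons (nat_lit 240) (C.miq (nat_lit 2538735169) (nat_lit 199482334367086552498438227)) (C.cons (nat_lit 176) (C.node (nat_lit 5) (nat_lit 6) (nat_lit 7) (C.cons (nat_lit 232) (C.miq (nat_lit 840261783) (nat_lit 65286273925490878389027777)) (C.cons (nat_lit 224) (C.node (nat_lit 1) (nat_lit 2) (nat_lit 3) (C.cons (nat_lit 270) (C.node (nat_lit 1) (nat_lit 2) (nat_lit 6) (C.cons (nat_lit 70) (C.node (nat_lit 1) (nat_lit 3) (nat_lit 4) (C.cons (nat_lit 26) (C.node (nat_lit 1) (nat_lit 6) (nat_lit 8) (C.cons (nat_lit 322)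 (C.node (nat_lit 2) (nat_lit 3) (nat_lit 5) (C.cons (nat_lit 44) (C.node (nat_lit 3) (nat_lit 8) (nat_lit 9) (C.cons (nat_lit 776) (C.node (nat_lit 1) (nat_lit 3) (nat_lit 6) (C.cons (nat_lit 106) (C.node (nat_lit 2) (nat_lit 5) (nat_lit 9) (C.cons (nat_lit 804) (C.miq (nat_lit 2182518080) (nat_lit 84642534920384990317576761)) (C.cons (nat_lit 548) (C.node (nat_lit 2) (nat_lit 6) (nat_lit 9) (C.cons (nat_lit 596) (C.miq (nat_lit 1645778000) (nat_lit 326427698784764030116627001)) C.nil)) C.nil))) C.nil)) C.nil)) C.nil)) C.nil)) C.nil)) C.nil)) (C.cons (nat_lit 14) (C.node (nat_lit 1) (nat_lit 2) (nat_lit 6) (C.cons (nat_lit 326) (C.node (nat_lit 2) (nat_lit 5) (nat_lit 6) (C.cons (nat_lit 100) (C.node (nat_lit 2) (nat_lit 3) (nat_lit 5) (C.cons (nat_lit 300) (C.miq (nat_lit 1099236899) (nat_lit 351807909728598853820350541)) (C.cons (nat_lit 44) (C.node (nat_lit 2) (nat_lit 4) (nat_lit 6) (C.cons (nat_lit 596) (C.node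 (nat_lit 4) (nat_lit 8) (nat_lit 9) (C.cons (nat_lit 784) (C.node (nat_lit 2) (nat_lit 5) (nat_lit 8) (C.cons (nat_lit 804) (C.node (nat_lit 1) (nat_lit 5) (nat_lit 6) C.nil) (C.cons (nat_lit 292) (C.miq (nat_lit 2455266320) (nat_lit 353024066816285871960162387)) C.nil))) C.nil)) (C.cons (nat_lit 84) (C.miq (nat_lit 2518943765) (nat_lit 101560265315505644192006435)) C.nil))) C.nil))) C.nil)) (C.cons (nat_lit 70) (C.node (nat_lit 1) (nat_lit 2) (nat_lit 8) (C.cons (nat_lit 262) (C.node (nat_lit 2) (nat_lit 5) (nat_lit 9) (C.cons (nat_lit 804)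
  (C.miq (nat_lit 2182518080) (nat_lit 84642534920384990317576761)) (C.cons (nat_lit 548) (C.node (nat_lit 5) (nat_lit 8) (nat_lit 9) (C.cons (nat_lit 800) (C.node (nat_lit 2) (nat_lit 6) (nat_lit 9) (C.cons (nat_lit 596) (C.miq (nat_lit 1645778000) (nat_lit 316756292227846996718977593)) (C.cons (nat_lit 580) (C.node (nat_lit 4) (nat_lit 6) (nat_lit 9) C.nil) C.nil))) C.nil)) C.nil))) C.nil)) C.nil))) C.nil))) C.nil))) C.nil)))) C.nil))) C.nil))) C.nil)) C.nil))) C.nil))) (C.cons (nat_lit 50) (C.ref (nat_lit 52) (nat_lit 636551197200)) C.nil))) C.nil))) C.nil))) (C.cons (nat_lit 546) (C.node (nat_lit 5) (nat_lit 7) (nat_lit 9) (C.cons (nat_lit 672) (C.node (nat_lit 1) (nat_lit 7) (nat_lit 9) (C.cons (nat_lit 658) (C.node (nat_lit 1) (nat_lit 8) (nat_lit 9) (C.cons (nat_lit 770) (C.node (nat_lit 1) (nat_lit 4) (nat_lit 5) (C.cons (nat_lit 54) (C.node (nat_lit 1) (nat_lit 7) (nat_lit 8) (C.cons (nat_lit 390) (C.miq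 (nat_lit 613881096) (nat_lit 795480383551816836323541283)) (C.cons (nat_lit 386) (C.node (nat_lit 1) (nat_lit 2) (nat_lit 7) (C.cons (nat_lit 198) (C.miq (nat_lit 873597302) (nat_lit 65283414818645738919429057)) (C.cons (nat_lit 134) (C.node (nat_lit 2) (nat_lit 6) (nat_lit 7) (C.cons (nat_lit 212) (C.miq (nat_lit 2267350593) (nat_lit 199478128509437626461585491)) (C.cons (nat_lit 196) (C.node (nat_lit 2) (nat_lit 7) (nat_lit 9) (C.cons (nat_lit 652) (C.miq (nat_lit 388385072) (nat_lit 236950991909438771134530105)) (C.cons (nat_lit 644) (C.node (nat_lit 3) (nat_lit 7) (nat_lit 9) (C.cons (nat_lit 648) (C.node (nat_lit 4) (nat_lit 6) (nat_lit 9) (C.cons (nat_lit 596) (C.miq (nat_lit 826410902) (nat_lit 65283414697611498959930305)) (C.cons (nat_lit 592) (C.node (nat_lit 1) (nat_lit 2) (nat_lit 6) (C.cons (nat_lit 326) (C.miq (nat_lit 613815560) (nat_lit 715690098865630593381630243)) (C.cons (nat_lit 70) (C.node (nat_lit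 5) (nat_lit 8) (nat_lit 9) (C.cons (nat_lit 804) (C.miq (nat_lit 2182518080) (nat_lit 84642534920384990317576761)) (C.cons (nat_lit 800) (C.node (nat_lit 4) (nat_lit 5) (nat_lit 6) (C.cons (nat_lit 368) (C.miq (nat_lit 696586340) (nat_lit 967141651961972960481247315)) (C.cons (nat_lit 240) (C.miq (nat_lit 2538735169) (nat_lit 199482334367086552498438227)) (C.cons (nat_lit 112) (C.node (nat_lit 4) (nat_lit 5) (nat_lit 7) (C.cons (nat_lit 432) (C.miq (nat_lit 695472261) (nat_lit 795474185576695617677164835)) (C.cons (nat_lit 176) (C.node (nat_lit 4) (nat_lit 5) (nat_lit 8) (C.cons (nat_lit 304) (C.node (nat_lit 4) (nat_lit 6) (nat_lit 7) (C.cons (nat_lit 216) (C.miq (nat_lit 840196247) (nat_lit 65285978777585699035153345)) (C.cons (nat_lit 208) (C.node (nat_lit 1) (nat_lit 2) (nat_lit 3) (C.cons (nat_lit 270) (C.node (nat_lit 1) (nat_lit 3) (nat_lit 4) (C.cons (nat_lit 26) (C.node (nat_lit 1) (nat_lit 4) (nat_lit 8)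 (C.cons (nat_lit 274) (C.node (nat_lit 1) (nat_lit 6) (nat_lit 8) C.nil) C.nil)) C.nil)) (C.cons (nat_lit 14) (C.node (nat_lit 1) (nat_lit 2) (nat_lit 8) (C.cons (nat_lit 262) (C.node (nat_lit 1) (nat_lit 3) (nat_lit 4) (C.cons (nat_lit 282) (C.node (nat_lit 1) (nat_lit 6) (nat_lit 8) C.nil) C.nil)) C.nil)) C.nil))) C.nil))) C.nil)) C.nil))) C.nil)))) C.nil))) C.nil))) C.nil))) C.nil)) C.nil))) C.nil))) C.nil))) C.nil))) (C.cons (nat_lit 50) (C.node (nat_lit 1) (nat_lit 5) (nat_lit 7) (C.cons (nat_lit 226) (C.node (nat_lit 2) (nat_lit 7) (nat_lit 9) (C.cons (nat_lit 652) (C.miq (nat_lit 639053897) (nat_lit 273229262531716181843378745)) (C.cons (nat_lit 644) (C.node (nat_lit 3) (nat_lit 7) (nat_lit 9) (C.cons (nat_lit 648) (C.node (nat_lit 3) (nat_lit 6) (nat_lit 7) (C.cons (nat_lit 216) (C.miq (nat_lit 561383747) (nat_lit 273218655778288208134537785)) (C.cons (nat_lit 200) (C.node (nat_lit 4) (nat_lit 6) (nat_lit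 9) (C.cons (nat_lit 596) (C.miq (nat_lit 1194758402) (nat_lit 241796158367604897515110919)) (C.cons (nat_lit 592) (C.node (nat_lit 1) (nat_lit 2) (nat_lit 5) (C.cons (nat_lit 46) (C.node (nat_lit 1) (nat_lit 2) (nat_lit 6) (C.cons (nat_lit 326)
  (C.miq (nat_lit 2170118704) (nat_lit 660091224922403404282134605)) (C.cons (nat_lit 70) (C.node (nat_lit 1) (nat_lit 2) (nat_lit 7) (C.cons (nat_lit 390) (C.miq (nat_lit 963793025) (nat_lit 778549076542211968387645731)) (C.cons (nat_lit 134) (C.node (nat_lit 1) (nat_lit 7) (nat_lit 8) (C.cons (nat_lit 386) (C.node (nat_lit 1) (nat_lit 3) (nat_lit 6) (C.cons (nat_lit 330) (C.miq (nat_lit 2169987872) (nat_lit 273234962646847968256524365)) (C.cons (nat_lit 74) (C.node (nat_lit 1) (nat_lit 6) (nat_lit 8) (C.cons (nat_lit 322) (C.node (nat_lit 2) (nat_lit 6) (nat_lit 9) (C.cons (nat_lit 612) (C.miq (nat_lit 1645712688) (nat_lit 162013787321678027614257721)) C.nil)) C.nil)) C.nil)))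 C.nil)) C.nil))) C.nil))) (C.cons (nat_lit 38) (C.node (nat_lit 1) (nat_lit 3) (nat_lit 5) (C.cons (nat_lit 42) (C.node (nat_lit 1) (nat_lit 2) (nat_lit 6) (C.cons (nat_lit 326) (C.node (nat_lit 1) (nat_lit 2) (nat_lit 7) (C.cons (nat_lit 134) (C.node (nat_lit 1) (nat_lit 3) (nat_lit 6) (C.cons (nat_lit 74) (C.node (nat_lit 1) (nat_lit 7) (nat_lit 8) (C.cons (nat_lit 386) (C.node (nat_lit 2) (nat_lit 3) (nat_lit 9) (C.cons (nat_lit 780) (C.miq (nat_lit 1099499043) (nat_lit 930883377324006228536066125)) C.nil)) C.nil)) C.nil)) C.nil)) (C.cons (nat_lit 70) (C.node (nat_lit 1) (nat_lit 2) (nat_lit 7) (C.cons (nat_lit 390) (C.node (nat_lit 1) (nat_lit 2) (nat_lit 3) (C.cons (nat_lit 30) (C.miq (nat_lit 1898353712) (nat_lit 84642534879289540638212665)) (C.cons (nat_lit 14) (C.node (nat_lit 1) (nat_lit 2) (nat_lit 4) (C.cons (nat_lit 22) (C.node (nat_lit 2) (nat_lit 4) (nat_lit 9) (C.cons (nat_lit 788) (C.miq (nat_lit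 1108580464) (nat_lit 16935457893786705875108801)) C.nil)) C.nil)) C.nil))) (C.cons (nat_lit 134) (C.node (nat_lit 1) (nat_lit 7) (nat_lit 8) (C.cons (nat_lit 386) (C.node (nat_lit 2) (nat_lit 3) (nat_lit 9) (C.cons (nat_lit 780) (C.node (nat_lit 2) (nat_lit 4) (nat_lit 9) C.nil) C.nil)) C.nil)) C.nil))) C.nil))) C.nil)) C.nil))) C.nil))) C.nil))) C.nil)) C.nil))) (C.cons (nat_lit 162) (C.node (nat_lit 1) (nat_lit 6) (nat_lit 7) (C.cons (nat_lit 198) (C.node (nat_lit 1) (nat_lit 7) (nat_lit 8) (C.cons (nat_lit 386) (C.node (nat_lit 1) (nat_lit 2) (nat_lit 5) (C.cons (nat_lit 46) (C.miq (nat_lit 1092851552) (nat_lit 55621084084862267855537089)) (C.cons (nat_lit 38) (C.node (nat_lit 2) (nat_lit 7) (nat_lit 9) (C.cons (nat_lit 652) (C.node (nat_lit 3) (nat_lit 8) (nat_lit 9) (C.cons (nat_lit 776) (C.node (nat_lit 4) (nat_lit 6) (nat_lit 9) (C.cons (nat_lit 596) (C.node (nat_lit 4) (nat_lit 8) (nat_lit 9) (C.cons (nat_lit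 784) (C.node (nat_lit 5) (nat_lit 6) (nat_lit 9) (C.cons (nat_lit 608) (C.node (nat_lit 2) (nat_lit 5) (nat_lit 9) (C.cons (nat_lit 804) (C.miq (nat_lit 1095917705) (nat_lit 45950175428187512486757313)) (C.cons (nat_lit 548) (C.node (nat_lit 2) (nat_lit 8) (nat_lit 9) (C.cons (nat_lit 772) (C.node (nat_lit 5) (nat_lit 8) (nat_lit 9) (C.cons (nat_lit 800) (C.node (nat_lit 1) (nat_lit 3) (nat_lit 5) (C.cons (nat_lit 106) (C.node (nat_lit 3) (nat_lit 5) (nat_lit 7) (C.cons (nat_lit 424) (C.miq (nat_lit 592549760) (nat_lit 128155710922848453676696513)) C.nil)) C.nil)) C.nil)) C.nil)) C.nil))) C.nil)) C.nil)) (C.cons (nat_lit 592) (C.miq (nat_lit 642347267) (nat_lit 715696112544728931961995403)) C.nil))) C.nil)) (C.cons (nat_lit 644) (C.miq (nat_lit 846792212) (nat_lit 778558724050873552899014739)) C.nil))) C.nil))) C.nil)) (C.cons (nat_lit 194) (C.node (nat_lit 2) (nat_lit 7) (nat_lit 9) (C.cons (nat_lit 652) (C.miq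 (nat_lit 639053897) (nat_lit 234543636304048048252781113)) (C.cons (nat_lit 644) (C.node (nat_lit 3) (nat_lit 7) (nat_lit 9) (C.cons (nat_lit 648) (C.node (nat_lit 4) (nat_lit 6) (nat_lit 9) (C.cons (nat_lit 596) (C.miq (nat_lit 695428112) (nat_lit 783385351677335293062217811)) (C.cons (nat_lit 592) (C.node (nat_lit 1) (nat_lit 2) (nat_lit 7) (C.cons (nat_lit 390) (C.node (nat_lit 1) (nat_lit 2) (nat_lit 4) (C.cons (nat_lit 30) (C.miq (nat_lit 1729235267) (nat_lit 471482490319499332480270905)) (C.cons (nat_lit 22)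
  (C.node (nat_lit 1) (nat_lit 2) (nat_lit 3) (C.cons (nat_lit 46) (C.miq (nat_lit 963793025) (nat_lit 778549076542211968387645731)) (C.cons (nat_lit 14) (C.node (nat_lit 2) (nat_lit 4) (nat_lit 9) (C.cons (nat_lit 788) (C.miq (nat_lit 1108580464) (nat_lit 16935457893786705875108801)) (C.cons (nat_lit 532) (C.node (nat_lit 4) (nat_lit 8) (nat_lit 9) (C.cons (nat_lit 784) (C.node (nat_lit 1) (nat_lit 2) (nat_lit 5) (C.cons (nat_lit 102) (C.node (nat_lit 1) (nat_lit 3) (nat_lit 5) C.nil) C.nil)) C.nil)) C.nil))) C.nil))) C.nil))) (C.cons (nat_lit 134) (C.node (nat_lit 1) (nat_lit 7) (nat_lit 8) (C.cons (nat_lit 386) (C.ref (nat_lit 53) (nat_lit 636551197200)) C.nil)) C.nil))) C.nil))) C.nil)) C.nil))) C.nil))) C.nil))) C.nil))) C.nil)) (C.cons (nat_lit 642) (C.node (nat_lit 1) (nat_lit 4) (nat_lit 9) (C.cons (nat_lit 786) (C.node (nat_lit 1) (nat_lit 3) (nat_lit 4) (C.cons (nat_lit 30) (C.node (nat_lit 1) (nat_lit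 2) (nat_lit 5) (C.cons (nat_lit 102) (C.miq (nat_lit 2166789168) (nat_lit 123328161142986471247774265)) (C.cons (nat_lit 38) (C.node (nat_lit 1) (nat_lit 3) (nat_lit 8) (C.cons (nat_lit 330) (C.miq (nat_lit 646000788) (nat_lit 398946073896827539661390393)) (C.cons (nat_lit 266) (C.node (nat_lit 1) (nat_lit 6) (nat_lit 8) (C.cons (nat_lit 326) (C.node (nat_lit 1) (nat_lit 2) (nat_lit 7) (C.cons (nat_lit 134) (C.node (nat_lit 1) (nat_lit 7) (nat_lit 8) (C.cons (nat_lit 386) (C.node (nat_lit 2) (nat_lit 3) (nat_lit 5) (C.cons (nat_lit 300) (C.miq (nat_lit 1099236899) (nat_lit 351807909728598853820350541)) (C.cons (nat_lit 44) (C.node (nat_lit 3) (nat_lit 7) (nat_lit 9) (C.cons (nat_lit 652) (C.miq (nat_lit 1914082112) (nat_lit 394127544698945759503123001)) (C.cons (nat_lit 648) (C.node (nat_lit 2) (nat_lit 3) (nat_lit 7) (C.cons (nat_lit 396) (C.miq (nat_lit 1182929011) (nat_lit 394110370620057872797270155)) (C.cons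 (nat_lit 140) (C.node (nat_lit 2) (nat_lit 3) (nat_lit 8) (C.cons (nat_lit 780) (C.node (nat_lit 5) (nat_lit 8) (nat_lit 9) (C.cons (nat_lit 800) (C.node (nat_lit 2) (nat_lit 7) (nat_lit 9) (C.cons (nat_lit 660) (C.miq (nat_lit 1363282071) (nat_lit 36270818383123631427552193)) (C.cons (nat_lit 644) (C.node (nat_lit 4) (nat_lit 7) (nat_lit 9) (C.cons (nat_lit 656) (C.node (nat_lit 2) (nat_lit 6) (nat_lit 7) C.nil) C.nil)) C.nil))) C.nil)) (C.cons (nat_lit 268) (C.miq (nat_lit 2468888673) (nat_lit 324006618957722147011035219)) C.nil))) C.nil))) C.nil))) C.nil))) C.nil)) C.nil)) (C.cons (nat_lit 322) (C.miq (nat_lit 646000788) (nat_lit 389274667339910506263740985)) C.nil))) C.nil))) C.nil))) (C.cons (nat_lit 26) (C.node (nat_lit 1) (nat_lit 7) (nat_lit 8) (C.cons (nat_lit 390) (C.node (nat_lit 1) (nat_lit 2) (nat_lit 3) (C.cons (nat_lit 46) (C.miq (nat_lit 1092982896) (nat_lit 55621084120891889513989057)) (C.cons (nat_lit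 14) (C.node (nat_lit 1) (nat_lit 2) (nat_lit 4) (C.cons (nat_lit 54) (C.node (nat_lit 1) (nat_lit 2) (nat_lit 6) (C.cons (nat_lit 70) (C.node (nat_lit 1) (nat_lit 4) (nat_lit 7) (C.cons (nat_lit 146) (C.node (nat_lit 2) (nat_lit 7) (nat_lit 6) (C.cons (nat_lit 212) (C.miq (nat_lit 2168849703) (nat_lit 100358570430978506544644261)) (C.cons (nat_lit 196) (C.node (nat_lit 7) (nat_lit 3) (nat_lit 9) (C.cons (nat_lit 652) (C.miq (nat_lit 840275840) (nat_lit 65292490640091276040668097)) (C.cons (nat_lit 648) (C.node (nat_lit 2) (nat_lit 7) (nat_lit 3) (C.cons (nat_lit 156) (C.miq (nat_lit 2235699255) (nat_lit 65289188571290384228679819)) (C.cons (nat_lit 140) (C.node (nat_lit 2) (nat_lit 7) (nat_lit 4) (C.cons (nat_lit 660) (C.node (nat_lit 6) (nat_lit 4) (nat_lit 9) (C.cons (nat_lit 592) (C.node (nat_lit 2) (nat_lit 3) (nat_lit 9) (C.cons (nat_lit 780) (C.miq (nat_lit 1635910803) (nat_lit 471482490072364852733280825))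 (C.cons (nat_lit 524) (C.node (nat_lit 8) (nat_lit 3) (nat_lit 9) (C.cons (nat_lit 776) (C.node (nat_lit 2) (nat_lit 5) (nat_lit 3) C.nil) C.nil)) C.nil))) C.nil)) (C.cons (nat_lit 148)
  (C.miq (nat_lit 2535751761) (nat_lit 178935520714305214856167715)) C.nil))) C.nil))) C.nil))) C.nil))) C.nil)) C.nil)) (C.cons (nat_lit 22) (C.miq (nat_lit 1410468231) (nat_lit 26599411904456641537770433)) C.nil))) C.nil))) (C.cons (nat_lit 386) (C.node (nat_lit 3) (nat_lit 7) (nat_lit 9) (C.cons (nat_lit 652) (C.node (nat_lit 3) (nat_lit 8) (nat_lit 9) (C.cons (nat_lit 776) (C.node (nat_lit 4) (nat_lit 7) (nat_lit 9) (C.cons (nat_lit 656) (C.node (nat_lit 2) (nat_lit 4) (nat_lit 9) (C.cons (nat_lit 596) (C.miq (nat_lit 605263367) (nat_lit 31444098754875859780961217)) (C.cons (nat_lit 532) (C.node (nat_lit 4) (nat_lit 6) (nat_lit 9) (C.cons (nat_lit 592) (C.node (nat_lit 2) (nat_lit 8) (nat_lit 9) (C.cons (nat_lit 804) (C.miq (nat_lit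 655921925) (nat_lit 466660197737004405750956601)) (C.cons (nat_lit 772) (C.node (nat_lit 5) (nat_lit 8) (nat_lit 9) (C.cons (nat_lit 800) (C.node (nat_lit 3) (nat_lit 4) (nat_lit 6) (C.cons (nat_lit 344) (C.miq (nat_lit 558041478) (nat_lit 31433491855362922957505473)) (C.cons (nat_lit 216) (C.miq (nat_lit 591501152) (nat_lit 31441645353677226333373377)) (C.cons (nat_lit 88) (C.node (nat_lit 5) (nat_lit 7) (nat_lit 8) (C.cons (nat_lit 432) (C.miq (nat_lit 562497861) (nat_lit 466648410230107912298037817)) (C.cons (nat_lit 424) (C.miq (nat_lit 662803280) (nat_lit 466654940414944622594425401)) (C.cons (nat_lit 416) (C.node (nat_lit 2) (nat_lit 3) (nat_lit 4) (C.cons (nat_lit 284) (C.node (nat_lit 2) (nat_lit 7) (nat_lit 8) (C.cons (nat_lit 388) (C.node (nat_lit 3) (nat_lit 4) (nat_lit 7) (C.cons (nat_lit 152) (C.node (nat_lit 3) (nat_lit 7) (nat_lit 8) (C.cons (nat_lit 392) (C.node (nat_lit 4) (nat_lit 7) (nat_lit 8)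 C.nil) C.nil)) C.nil)) C.nil)) (C.cons (nat_lit 28) (C.node (nat_lit 2) (nat_lit 5) (nat_lit 9) (C.cons (nat_lit 612) (C.node (nat_lit 3) (nat_lit 5) (nat_lit 7) (C.cons (nat_lit 232) (C.miq (nat_lit 1972450848) (nat_lit 660076061672318598168117325)) (C.cons (nat_lit 168) (C.node (nat_lit 3) (nat_lit 6) (nat_lit 7) (C.cons (nat_lit 200) (C.node (nat_lit 1) (nat_lit 2) (nat_lit 5) (C.cons (nat_lit 54) (C.miq (nat_lit 662786196) (nat_lit 466646362541874340424712761)) (C.cons (nat_lit 46) (C.miq (nat_lit 562509065) (nat_lit 466657393661332018891391545)) (C.cons (nat_lit 38) (C.node (nat_lit 1) (nat_lit 2) (nat_lit 6) (C.cons (nat_lit 326) (C.miq (nat_lit 591487128) (nat_lit 31438084970224404950811585)) (C.cons (nat_lit 198) (C.miq (nat_lit 338845847) (nat_lit 33853575427901078329099201)) (C.cons (nat_lit 70) (C.node (nat_lit 3) (nat_lit 4) (nat_lit 8) (C.cons (nat_lit 408) (C.node (nat_lit 1) (nat_lit 2) (nat_lit 4)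 C.nil) C.nil)) C.nil)))) C.nil)))) C.nil)) C.nil))) (C.cons (nat_lit 548) (C.node (nat_lit 2) (nat_lit 6) (nat_lit 9) (C.cons (nat_lit 580) (C.node (nat_lit 5) (nat_lit 6) (nat_lit 9) (C.cons (nat_lit 608) (C.node (nat_lit 3) (nat_lit 4) (nat_lit 7) (C.cons (nat_lit 408) (C.node (nat_lit 1) (nat_lit 2) (nat_lit 4) C.nil) C.nil)) C.nil)) C.nil)) C.nil))) C.nil))) C.nil)))) C.nil)))) C.nil)) C.nil))) C.nil)) C.nil))) C.nil)) C.nil)) (C.cons (nat_lit 648) (C.node (nat_lit 2) (nat_lit 3) (nat_lit 9) (C.cons (nat_lit 780) (C.node (nat_lit 1) (nat_lit 2) (nat_lit 8) (C.cons (nat_lit 326) (C.miq (nat_lit 591487128) (nat_lit 31438084970224404950811585)) (C.cons (nat_lit 262) (C.miq (nat_lit 1635910803) (nat_lit 316739985161692318370890297)) C.nil))) (C.cons (nat_lit 524) (C.node (nat_lit 3) (nat_lit 8) (nat_lit 9) (C.cons (nat_lit 776) (C.node (nat_lit 2) (nat_lit 7) (nat_lit 9) (C.cons (nat_lit 660) (C.node (nat_lit 1)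 (nat_lit 2) (nat_lit 4) (C.cons (nat_lit 54) (C.miq (nat_lit 662786196) (nat_lit 466646362541874340424712761)) (C.cons (nat_lit 22) (C.miq (nat_lit 1363282071) (nat_lit 26599411826206598029902785)) C.nil))) (C.cons (nat_lit 644) (C.node (nat_lit 4) (nat_lit 7) (nat_lit 9) (C.cons (nat_lit 656) (C.node (nat_lit 2) (nat_lit 4) (nat_lit 9) (C.cons (nat_lit 596) (C.node (nat_lit 5) (nat_lit 6) (nat_lit 9) (C.cons (nat_lit 608) (C.node (nat_lit 2) (nat_lit 5) (nat_lit 9)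
  (C.cons (nat_lit 804) (C.miq (nat_lit 1382058305) (nat_lit 93092656339160337013211922)) (C.cons (nat_lit 548) (C.node (nat_lit 2) (nat_lit 8) (nat_lit 9) (C.cons (nat_lit 772) (C.node (nat_lit 5) (nat_lit 8) (nat_lit 9) (C.cons (nat_lit 800) (C.node (nat_lit 2) (nat_lit 6) (nat_lit 7) (C.cons (nat_lit 198) (C.miq (nat_lit 557082377) (nat_lit 31443065625180931861578689)) (C.cons (nat_lit 196) (C.node (nat_lit 3) (nat_lit 4) (nat_lit 6) (C.cons (nat_lit 344) (C.miq (nat_lit 558041478) (nat_lit 31433491855362922957505473)) (C.cons (nat_lit 216) (C.miq (nat_lit 607229552) (nat_lit 31441645337914627641246657)) (C.cons (nat_lit 88) (C.node (nat_lit 4) (nat_lit 6) (nat_lit 8) (C.cons (nat_lit 368) (C.miq (nat_lit 642815105) (nat_lit 117275378530553951890375442)) (C.cons (nat_lit 336) (C.node (nat_lit 1) (nat_lit 2) (nat_lit 7) (C.cons (nat_lit 150) (C.node (nat_lit 1) (nat_lit 4) (nat_lit 5) (C.cons (nat_lit 50) (C.node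 (nat_lit 2) (nat_lit 3) (nat_lit 4) C.nil) C.nil)) (C.cons (nat_lit 134) (C.node (nat_lit 1) (nat_lit 2) (nat_lit 4) (C.cons (nat_lit 54) (C.miq (nat_lit 2166854736) (nat_lit 162013787370654707923354169)) C.nil)) C.nil))) C.nil))) C.nil)))) C.nil))) C.nil)) C.nil)) C.nil))) C.nil)) (C.cons (nat_lit 532) (C.node (nat_lit 4) (nat_lit 6) (nat_lit 9) (C.cons (nat_lit 592) (C.node (nat_lit 2) (nat_lit 6) (nat_lit 9) (C.cons (nat_lit 612) (C.node (nat_lit 2) (nat_lit 8) (nat_lit 9) (C.cons (nat_lit 772) (C.node (nat_lit 5) (nat_lit 8) (nat_lit 9) (C.cons (nat_lit 800) (C.node (nat_lit 1) (nat_lit 2) (nat_lit 5) (C.cons (nat_lit 54) (C.miq (nat_lit 662786196) (nat_lit 466646362541874340424712761)) (C.cons (nat_lit 46) (C.miq (nat_lit 2035353123) (nat_lit 660076061877513856159187021)) (C.cons (nat_lit 38) (C.node (nat_lit 1) (nat_lit 2) (nat_lit 6) (C.cons (nat_lit 326) (C.miq (nat_lit 591487128) (nat_lit 31438084970224404950811585))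 (C.cons (nat_lit 198) (C.miq (nat_lit 891357543) (nat_lit 45941745402944044547834817)) (C.cons (nat_lit 70) (C.node (nat_lit 1) (nat_lit 2) (nat_lit 3) (C.cons (nat_lit 270) (C.node (nat_lit 1) (nat_lit 6) (nat_lit 8) C.nil) C.nil)) C.nil)))) C.nil)))) C.nil)) C.nil)) (C.cons (nat_lit 580) (C.node (nat_lit 5) (nat_lit 6) (nat_lit 9) (C.cons (nat_lit 608) (C.node (nat_lit 2) (nat_lit 5) (nat_lit 9) (C.cons (nat_lit 804) (C.node (nat_lit 2) (nat_lit 5) (nat_lit 3) (C.cons (nat_lit 46) (C.miq (nat_lit 561533705) (nat_lit 466660197566430569908208185)) (C.cons (nat_lit 44) (C.node (nat_lit 7) (nat_lit 8) (nat_lit 5) (C.cons (nat_lit 432) (C.miq (nat_lit 562497861) (nat_lit 466648410230107912298037817)) (C.cons (nat_lit 424) (C.miq (nat_lit 678532400) (nat_lit 466654940457728819044483641)) (C.cons (nat_lit 416) (C.node (nat_lit 8) (nat_lit 5) (nat_lit 4) (C.cons (nat_lit 368) (C.miq (nat_lit 627087425) (nat_lit 117275378589100747032560402))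 (C.cons (nat_lit 304) (C.node (nat_lit 1) (nat_lit 2) (nat_lit 3) (C.cons (nat_lit 270) (C.node (nat_lit 1) (nat_lit 8) (nat_lit 6) (C.cons (nat_lit 322) (C.node (nat_lit 2) (nat_lit 7) (nat_lit 8) C.nil) C.nil)) (C.cons (nat_lit 14) (C.node (nat_lit 1) (nat_lit 2) (nat_lit 8) (C.cons (nat_lit 326) (C.miq (nat_lit 1092851808) (nat_lit 16935457893223481039717313)) C.nil)) C.nil))) C.nil))) C.nil)))) C.nil))) C.nil)) C.nil)) C.nil))) C.nil)) C.nil))) C.nil)) C.nil))) C.nil)) C.nil))) C.nil))) C.nil))) C.nil))) (C.cons (nat_lit 530) (C.node (nat_lit 1) (nat_lit 8) (nat_lit 9) (C.cons (nat_lit 770) (C.node (nat_lit 3) (nat_lit 7) (nat_lit 9) (C.cons (nat_lit 652) (C.node (nat_lit 3) (nat_lit 8) (nat_lit 9) (C.cons (nat_lit 776) (C.node (nat_lit 4) (nat_lit 7) (nat_lit 9) (C.cons (nat_lit 656) (C.node (nat_lit 4) (nat_lit 6) (nat_lit 9) (C.cons (nat_lit 596) (C.miq (nat_lit 1232167472) (nat_lit 776131907440111934501486669))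 (C.cons (nat_lit 592) (C.node (nat_lit 5) (nat_lit 8) (nat_lit 9) (C.cons (nat_lit 804) (C.miq (nat_lit 964784720) (nat_lit 930875445384215848139554981)) (C.cons (nat_lit 800) (C.node (nat_lit 2) (nat_lit 4) (nat_lit 9) (C.cons (nat_lit 788)
  (C.node (nat_lit 2) (nat_lit 3) (nat_lit 4) (C.cons (nat_lit 30) (C.miq (nat_lit 1763968817) (nat_lit 952635077206586160500834443)) (C.cons (nat_lit 28) (C.node (nat_lit 2) (nat_lit 7) (nat_lit 8) (C.cons (nat_lit 390) (C.miq (nat_lit 323121304) (nat_lit 33857117218525829267719105)) (C.cons (nat_lit 388) (C.node (nat_lit 3) (nat_lit 4) (nat_lit 7) (C.cons (nat_lit 408) (C.miq (nat_lit 306383239) (nat_lit 33852487192724759893246913)) (C.cons (nat_lit 216) (C.miq (nat_lit 305400182) (nat_lit 33851454175056048030221249)) (C.cons (nat_lit 152) (C.node (nat_lit 3) (nat_lit 7) (nat_lit 8) (C.cons (nat_lit 424) (C.miq (nat_lit 309856565) (nat_lit 469068586159089882524811833)) (C.cons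 (nat_lit 392) (C.node (nat_lit 1) (nat_lit 3) (nat_lit 4) (C.cons (nat_lit 282) (C.node (nat_lit 1) (nat_lit 7) (nat_lit 8) (C.cons (nat_lit 386) (C.node (nat_lit 3) (nat_lit 4) (nat_lit 6) (C.cons (nat_lit 88) (C.node (nat_lit 1) (nat_lit 2) (nat_lit 3) (C.cons (nat_lit 46) (C.miq (nat_lit 410144915) (nat_lit 469064066642616856154473017)) (C.cons (nat_lit 14) (C.node (nat_lit 1) (nat_lit 2) (nat_lit 8) (C.cons (nat_lit 326) (C.node (nat_lit 1) (nat_lit 2) (nat_lit 5) C.nil) C.nil)) C.nil))) C.nil)) C.nil)) (C.cons (nat_lit 26) (C.node (nat_lit 1) (nat_lit 4) (nat_lit 8) (C.cons (nat_lit 402) (C.node (nat_lit 7) (nat_lit 8) (nat_lit 5) (C.cons (nat_lit 416) (C.node (nat_lit 1) (nat_lit 2) (nat_lit 7) (C.cons (nat_lit 198) (C.miq (nat_lit 338845847) (nat_lit 33853575427901078329099201)) (C.cons (nat_lit 134) (C.node (nat_lit 1) (nat_lit 2) (nat_lit 4) (C.cons (nat_lit 54) (C.node (nat_lit 1) (nat_lit 2) (nat_lit 6)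 C.nil) C.nil)) C.nil))) C.nil)) (C.cons (nat_lit 274) (C.node (nat_lit 1) (nat_lit 7) (nat_lit 8) C.nil) C.nil))) C.nil))) C.nil))) C.nil)))) C.nil))) C.nil))) (C.cons (nat_lit 532) (C.node (nat_lit 2) (nat_lit 8) (nat_lit 9) (C.cons (nat_lit 772) (C.node (nat_lit 4) (nat_lit 8) (nat_lit 9) (C.cons (nat_lit 784) (C.node (nat_lit 2) (nat_lit 5) (nat_lit 9) (C.cons (nat_lit 612) (C.node (nat_lit 3) (nat_lit 5) (nat_lit 7) (C.cons (nat_lit 424) (C.miq (nat_lit 2207340320) (nat_lit 631064645960710069154152613)) (C.cons (nat_lit 232) (C.miq (nat_lit 1972450848) (nat_lit 660076061672318598168117325)) (C.cons (nat_lit 168) (C.node (nat_lit 3) (nat_lit 6) (nat_lit 7) (C.cons (nat_lit 216) (C.miq (nat_lit 1200710432) (nat_lit 776131907333151443376341069)) (C.cons (nat_lit 200) (C.node (nat_lit 3) (nat_lit 4) (nat_lit 6) (C.cons (nat_lit 344) (C.node (nat_lit 3) (nat_lit 4) (nat_lit 7) (C.cons (nat_lit 152) (C.node (nat_lit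 1) (nat_lit 3) (nat_lit 4) C.nil) C.nil)) (C.cons (nat_lit 88) (C.node (nat_lit 3) (nat_lit 4) (nat_lit 7) (C.cons (nat_lit 408) (C.node (nat_lit 1) (nat_lit 3) (nat_lit 4) C.nil) (C.cons (nat_lit 152) (C.node (nat_lit 3) (nat_lit 7) (nat_lit 8) (C.cons (nat_lit 392) (C.node (nat_lit 5) (nat_lit 7) (nat_lit 8) C.nil) C.nil)) C.nil))) C.nil))) C.nil))) C.nil)))) C.nil)) C.nil)) C.nil)) C.nil))) C.nil))) C.nil))) C.nil)) C.nil)) (C.cons (nat_lit 648) (C.node (nat_lit 2) (nat_lit 3) (nat_lit 9) (C.cons (nat_lit 780) (C.node (nat_lit 4) (nat_lit 8) (nat_lit 9) (C.cons (nat_lit 784) (C.node (nat_lit 5) (nat_lit 8) (nat_lit 9) (C.cons (nat_lit 800) (C.node (nat_lit 2) (nat_lit 3) (nat_lit 5) (C.cons (nat_lit 46) (C.node (nat_lit 1) (nat_lit 3) (nat_lit 6) (C.cons (nat_lit 330) (C.miq (nat_lit 2014643762) (nat_lit 351800457491128121876676685)) (C.cons (nat_lit 74) (C.node (nat_lit 1) (nat_lit 6) (nat_lit 8) (C.cons (nat_lit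 326) (C.miq (nat_lit 1126238598) (nat_lit 55612118942193671773488065)) (C.cons (nat_lit 322) (C.node (nat_lit 1) (nat_lit 2) (nat_lit 6) (C.cons (nat_lit 198) (C.miq (nat_lit 1901683248) (nat_lit 660091224886374607263170637)) (C.cons (nat_lit 70) (C.node (nat_lit 2) (nat_lit 5) (nat_lit 9) (C.cons (nat_lit 612) (C.miq (nat_lit 1981876563) (nat_lit 84627371740950368999047737)) (C.cons (nat_lit 548) (C.node (nat_lit 5) (nat_lit 6) (nat_lit 9) (C.cons (nat_lit 608)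
  (C.node (nat_lit 1) (nat_lit 3) (nat_lit 4) C.nil) C.nil)) C.nil))) C.nil))) C.nil))) C.nil))) (C.cons (nat_lit 44) (C.node (nat_lit 1) (nat_lit 2) (nat_lit 3) (C.cons (nat_lit 30) (C.node (nat_lit 1) (nat_lit 2) (nat_lit 8) (C.cons (nat_lit 390) (C.miq (nat_lit 1746995508) (nat_lit 471482600999964298723590713)) (C.cons (nat_lit 326) (C.miq (nat_lit 412377648) (nat_lit 947799373749391583381880909)) (C.cons (nat_lit 262) (C.miq (nat_lit 1746995508) (nat_lit 316740096089291764361200185)) C.nil)))) (C.cons (nat_lit 14) (C.node (nat_lit 1) (nat_lit 3) (nat_lit 4) (C.cons (nat_lit 282) (C.node (nat_lit 1) (nat_lit 6) (nat_lit 8) (C.cons (nat_lit 326) (C.miq (nat_lit 1126238598) (nat_lit 16926492714525538182890433)) (C.cons (nat_lit 322) (C.node (nat_lit 1) (nat_lit 2) (nat_lit 8) (C.cons (nat_lit 390) (C.node (nat_lit 1) (nat_lit 2) (nat_lit 4) (C.cons (nat_lit 54) (C.miq (nat_lit 2219971335) (nat_lit 65289188568757109438873739))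 (C.cons (nat_lit 22) (C.node (nat_lit 1) (nat_lit 4) (nat_lit 5) (C.cons (nat_lit 178) (C.miq (nat_lit 693601089) (nat_lit 812405345230772477810049306)) C.nil)) C.nil))) (C.cons (nat_lit 262) (C.node (nat_lit 1) (nat_lit 7) (nat_lit 8) (C.cons (nat_lit 386) (C.node (nat_lit 1) (nat_lit 3) (nat_lit 5) (C.cons (nat_lit 42) (C.node (nat_lit 1) (nat_lit 3) (nat_lit 6) C.nil) C.nil)) C.nil)) C.nil))) C.nil))) (C.cons (nat_lit 26) (C.node (nat_lit 1) (nat_lit 3) (nat_lit 5) (C.cons (nat_lit 106) (C.node (nat_lit 1) (nat_lit 3) (nat_lit 8) (C.cons (nat_lit 266) (C.node (nat_lit 1) (nat_lit 6) (nat_lit 8) (C.cons (nat_lit 326) (C.miq (nat_lit 1126238598) (nat_lit 16926492714525538182890433)) (C.cons (nat_lit 322) (C.node (nat_lit 1) (nat_lit 2) (nat_lit 5) (C.cons (nat_lit 38) (C.node (nat_lit 1) (nat_lit 2) (nat_lit 6) C.nil) C.nil)) C.nil))) C.nil)) (C.cons (nat_lit 42) (C.node (nat_lit 1) (nat_lit 3) (nat_lit 6) (C.cons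 (nat_lit 330) (C.node (nat_lit 2) (nat_lit 3) (nat_lit 4) (C.cons (nat_lit 156) (C.node (nat_lit 2) (nat_lit 7) (nat_lit 9) (C.cons (nat_lit 644) (C.node (nat_lit 4) (nat_lit 7) (nat_lit 9) C.nil) C.nil)) (C.cons (nat_lit 28) (C.node (nat_lit 2) (nat_lit 3) (nat_lit 7) C.nil) C.nil))) (C.cons (nat_lit 74) (C.node (nat_lit 1) (nat_lit 3) (nat_lit 8) (C.cons (nat_lit 266) (C.node (nat_lit 1) (nat_lit 6) (nat_lit 8) (C.cons (nat_lit 326) (C.miq (nat_lit 1126238598) (nat_lit 16926492714525538182890433)) C.nil)) C.nil)) C.nil))) C.nil))) C.nil))) C.nil))) C.nil))) C.nil)) C.nil)) (C.cons (nat_lit 524) (C.node (nat_lit 3) (nat_lit 8) (nat_lit 9) (C.cons (nat_lit 776) (C.node (nat_lit 2) (nat_lit 7) (nat_lit 9) (C.cons (nat_lit 660) (C.node (nat_lit 4) (nat_lit 6) (nat_lit 9) (C.cons (nat_lit 592) (C.node (nat_lit 4) (nat_lit 8) (nat_lit 9) (C.cons (nat_lit 784) (C.node (nat_lit 2) (nat_lit 3) (nat_lit 7) (C.cons (nat_lit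 396) (C.node (nat_lit 5) (nat_lit 7) (nat_lit 8) (C.cons (nat_lit 432) (C.miq (nat_lit 309856581) (nat_lit 478739992716006950282723897)) (C.cons (nat_lit 416) (C.node (nat_lit 1) (nat_lit 2) (nat_lit 7) (C.cons (nat_lit 198) (C.node (nat_lit 1) (nat_lit 5) (nat_lit 7) (C.cons (nat_lit 178) (C.miq (nat_lit 846530068) (nat_lit 199483256455466178183299155)) (C.cons (nat_lit 162) (C.node (nat_lit 1) (nat_lit 4) (nat_lit 7) (C.cons (nat_lit 402) (C.miq (nat_lit 2198106721) (nat_lit 687886207063306053142905030)) C.nil)) C.nil))) (C.cons (nat_lit 134) (C.node (nat_lit 2) (nat_lit 6) (nat_lit 7) (C.cons (nat_lit 196) (C.node (nat_lit 1) (nat_lit 6) (nat_lit 7) (C.cons (nat_lit 194) (C.node (nat_lit 1) (nat_lit 5) (nat_lit 7) C.nil) C.nil)) C.nil)) C.nil))) C.nil))) (C.cons (nat_lit 140) (C.node (nat_lit 2) (nat_lit 6) (nat_lit 7) (C.cons (nat_lit 198) (C.node (nat_lit 2) (nat_lit 7) (nat_lit 8) (C.cons (nat_lit 388) (C.node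 (nat_lit 1) (nat_lit 5) (nat_lit 7) (C.cons (nat_lit 178) (C.miq (nat_lit 846530068) (nat_lit 199483256455466178183299155)) (C.cons (nat_lit 162) (C.node (nat_lit 1) (nat_lit 4) (nat_lit 7) (C.cons (nat_lit 146)
  (C.node (nat_lit 1) (nat_lit 7) (nat_lit 8) C.nil) C.nil)) C.nil))) C.nil)) (C.cons (nat_lit 196) (C.node (nat_lit 1) (nat_lit 2) (nat_lit 7) (C.cons (nat_lit 390) (C.node (nat_lit 1) (nat_lit 2) (nat_lit 4) (C.cons (nat_lit 54) (C.miq (nat_lit 2302740261) (nat_lit 640736052668779199374688421)) (C.cons (nat_lit 30) (C.miq (nat_lit 1411451256) (nat_lit 36273142751126421173044161)) (C.cons (nat_lit 22) (C.miq (nat_lit 1411451256) (nat_lit 26601736194209387775394753)) C.nil)))) (C.cons (nat_lit 134) (C.node (nat_lit 2) (nat_lit 7) (nat_lit 8) (C.cons (nat_lit 388) (C.node (nat_lit 1) (nat_lit 6) (nat_lit 7) (C.cons (nat_lit 226) (C.node (nat_lit 1) (nat_lit 4) (nat_lit 7) C.nil) (C.cons (nat_lit 194) (C.node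 (nat_lit 1) (nat_lit 5) (nat_lit 7) C.nil) C.nil))) C.nil)) C.nil))) C.nil))) C.nil))) C.nil)) C.nil)) (C.cons (nat_lit 644) (C.node (nat_lit 4) (nat_lit 7) (nat_lit 9) (C.cons (nat_lit 656) (C.node (nat_lit 4) (nat_lit 6) (nat_lit 9) (C.cons (nat_lit 596) (C.node (nat_lit 4) (nat_lit 8) (nat_lit 9) (C.cons (nat_lit 784) (C.node (nat_lit 5) (nat_lit 6) (nat_lit 9) (C.cons (nat_lit 608) (C.node (nat_lit 2) (nat_lit 5) (nat_lit 9) (C.cons (nat_lit 804) (C.node (nat_lit 2) (nat_lit 3) (nat_lit 5) (C.cons (nat_lit 46) (C.miq (nat_lit 1095917705) (nat_lit 55621581985104545884406721)) (C.cons (nat_lit 44) (C.node (nat_lit 2) (nat_lit 4) (nat_lit 5) (C.cons (nat_lit 54) (C.node (nat_lit 2) (nat_lit 5) (nat_lit 6) (C.cons (nat_lit 100) (C.node (nat_lit 1) (nat_lit 2) (nat_lit 3) (C.cons (nat_lit 270) (C.miq (nat_lit 1746995540) (nat_lit 326411502646208900839637561)) (C.cons (nat_lit 14) (C.node (nat_lit 2) (nat_lit 6) (nat_lit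 8) (C.cons (nat_lit 324) (C.miq (nat_lit 377634965) (nat_lit 391692961702686383503835705)) C.nil)) C.nil))) C.nil)) (C.cons (nat_lit 52) (C.miq (nat_lit 354683030) (nat_lit 62865673781631506393072577)) C.nil))) C.nil))) C.nil)) C.nil)) C.nil)) (C.cons (nat_lit 592) (C.node (nat_lit 2) (nat_lit 4) (nat_lit 9) (C.cons (nat_lit 788) (C.node (nat_lit 5) (nat_lit 8) (nat_lit 9) (C.cons (nat_lit 800) (C.node (nat_lit 2) (nat_lit 5) (nat_lit 9) (C.cons (nat_lit 612) (C.node (nat_lit 2) (nat_lit 4) (nat_lit 5) (C.cons (nat_lit 54) (C.node (nat_lit 2) (nat_lit 4) (nat_lit 6) (C.cons (nat_lit 212) (C.miq (nat_lit 2267350593) (nat_lit 199478128509437626461585491)) (C.cons (nat_lit 84) (C.node (nat_lit 2) (nat_lit 6) (nat_lit 7) (C.cons (nat_lit 198) (C.miq (nat_lit 891357543) (nat_lit 65284558516778111343133633)) (C.cons (nat_lit 196) (C.node (nat_lit 1) (nat_lit 2) (nat_lit 6) (C.cons (nat_lit 326) (C.miq (nat_lit 2186895680)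 (nat_lit 739880329016968964172480595)) (C.cons (nat_lit 70) (C.node (nat_lit 2) (nat_lit 6) (nat_lit 8) (C.cons (nat_lit 324) (C.node (nat_lit 1) (nat_lit 2) (nat_lit 3) C.nil) C.nil)) C.nil))) C.nil))) C.nil))) (C.cons (nat_lit 52) (C.node (nat_lit 1) (nat_lit 2) (nat_lit 5) (C.cons (nat_lit 46) (C.miq (nat_lit 2035353123) (nat_lit 660076061877513856159187021)) (C.cons (nat_lit 38) (C.node (nat_lit 1) (nat_lit 3) (nat_lit 5) (C.cons (nat_lit 106) (C.node (nat_lit 1) (nat_lit 6) (nat_lit 7) (C.cons (nat_lit 198) (C.miq (nat_lit 891357543) (nat_lit 45941745402944044547834817)) (C.cons (nat_lit 194) (C.node (nat_lit 1) (nat_lit 2) (nat_lit 6) (C.cons (nat_lit 326) (C.node (nat_lit 1) (nat_lit 2) (nat_lit 3) C.nil) C.nil)) C.nil))) (C.cons (nat_lit 42) (C.node (nat_lit 1) (nat_lit 3) (nat_lit 6) (C.cons (nat_lit 330) (C.node (nat_lit 1) (nat_lit 2) (nat_lit 6) (C.cons (nat_lit 198) (C.miq (nat_lit 891357543) (nat_lit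 45941745402944044547834817)) C.nil)) C.nil)) C.nil))) C.nil))) C.nil))) C.nil)) C.nil)) (C.cons (nat_lit 532) (C.node (nat_lit 4) (nat_lit 8) (nat_lit 9) C.nil) C.nil))) C.nil))) C.nil)) C.nil))) C.nil)) C.nil))) C.nil))) C.nil)) C.nil))) C.nil))) C.nil)) C.nil))) C.nil))) List.nil)

theorem ok10_55 : okL par10 (nat_lit 56) c10_55 (nat_lit 55) = true := by decide +kernel

noncomputable def c10_56 : List C :=
  (List.cons (C.node (nat_lit 3) (nat_lit 6) (nat_lit 9) (C.cons (nat_lit 586) (C.node (nat_lit 1) (nat_lit 3) (nat_lit 5) (C.cons (nat_lit 46) (C.node (nat_lit 1) (nat_lit 4) (nat_lit 5) (C.cons (nat_lit 178) (C.miq (nat_lit 2438423328) (nat_lit 215206523377403361908555853)) (C.cons (nat_lit 50) (C.node (nat_lit 1) (nat_lit 5) (nat_lit 6) (C.cons (nat_lit 226) (C.miq (nat_lit 660689043) (nat_lit 273218083829581082782204473)) (C.cons (nat_lit 98) (C.node (nat_lit 1) (nat_lit 5) (nat_lit 7) (C.cons (nat_lit 674)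 (C.node (nat_lit 1) (nat_lit 6) (nat_lit 7) (C.cons (nat_lit 198) (C.node (nat_lit 1) (nat_lit 6) (nat_lit 8) (C.cons (nat_lit 322) (C.node (nat_lit 3) (nat_lit 7) (nat_lit 9) (C.cons (nat_lit 652) (C.miq (nat_lit 1126238582) (nat_lit 55612118942193122009285569)) (C.cons (nat_lit 648) (C.node (nat_lit 4) (nat_lit 6) (nat_lit 9) (C.cons (nat_lit 596) (C.miq (nat_lit 1108579952) (nat_lit 55621084067410819303539649)) (C.cons (nat_lit 592) (C.node (nat_lit 2) (nat_lit 6) (nat_lit 9) (C.cons (nat_lit 612) (C.node (nat_lit 5) (nat_lit 8) (nat_lit 9) (C.cons (nat_lit 800) (C.node (nat_lit 3) (nat_lit 5) (nat_lit 6) (C.cons (nat_lit 360) (C.miq (nat_lit 1935020178) (nat_lit 435216947555720563024724487)) (C.cons (nat_lit 232) (C.node (nat_lit 3) (nat_lit 5) (nat_lit 8) (C.cons (nat_lit 296) (C.node (nat_lit 4) (nat_lit 6) (nat_lit 7) (C.cons (nat_lit 208) (C.node (nat_lit 1) (nat_lit 2) (nat_lit 4) (C.cons (nat_lit 278) (C.node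 (nat_lit 1) (nat_lit 3) (nat_lit 4) (C.cons (nat_lit 26) (C.node (nat_lit 1) (nat_lit 3) (nat_lit 8) (C.cons (nat_lit 266) (C.node (nat_lit 1) (nat_lit 4) (nat_lit 7) (C.cons (nat_lit 146) (C.node (nat_lit 1) (nat_lit 4) (nat_lit 9) (C.cons (nat_lit 530) (C.node (nat_lit 1) (nat_lit 7) (nat_lit 8) (C.cons (nat_lit 386) (C.node (nat_lit 1) (nat_lit 8) (nat_lit 9) (C.cons (nat_lit 770) (C.node (nat_lit 2) (nat_lit 4) (nat_lit 5) (C.cons (nat_lit 52) (C.node (nat_lit 2) (nat_lit 5) (nat_lit 8) C.nil) C.nil)) C.nil)) C.nil)) C.nil)) C.nil)) C.nil)) C.nil)) (C.cons (nat_lit 22) (C.node (nat_lit 1) (nat_lit 2) (nat_lit 8) (C.cons (nat_lit 262) (C.node (nat_lit 1) (nat_lit 3) (nat_lit 4) (C.cons (nat_lit 282) (C.node (nat_lit 1) (nat_lit 4) (nat_lit 7) (C.cons (nat_lit 146) (C.node (nat_lit 1) (nat_lit 4) (nat_lit 9) (C.cons (nat_lit 530) (C.node (nat_lit 1) (nat_lit 7) (nat_lit 8) (C.cons (nat_lit 386) (C.node (nat_lit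 1) (nat_lit 8) (nat_lit 9) (C.cons (nat_lit 770) (C.node (nat_lit 3) (nat_lit 4) (nat_lit 6) (C.cons (nat_lit 88) (C.node (nat_lit 3) (nat_lit 6) (nat_lit 8) C.nil) C.nil)) C.nil)) C.nil)) C.nil)) C.nil)) (C.cons (nat_lit 26) (C.node (nat_lit 1) (nat_lit 3) (nat_lit 8) (C.cons (nat_lit 266) (C.node (nat_lit 1) (nat_lit 4) (nat_lit 7) (C.cons (nat_lit 402) (C.node (nat_lit 1) (nat_lit 4) (nat_lit 9) (C.cons (nat_lit 530) (C.node (nat_lit 1) (nat_lit 8) (nat_lit 9) (C.cons (nat_lit 770) (C.node (nat_lit 7) (nat_lit 8) (nat_lit 5) (C.cons (nat_lit 416) (C.node (nat_lit 7) (nat_lit 5) (nat_lit 4) C.nil) C.nil)) C.nil)) C.nil)) (C.cons (nat_lit 146) (C.node (nat_lit 1) (nat_lit 7) (nat_lit 8) (C.cons (nat_lit 386) (C.node (nat_lit 1) (nat_lit 4) (nat_lit 8) (C.cons (nat_lit 786) (C.node (nat_lit 2) (nat_lit 3) (nat_lit 9) (C.cons (nat_lit 780) (C.miq (nat_lit 1635910803) (nat_lit 316739985161692318370890297)) (C.cons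 (nat_lit 524) (C.node (nat_lit 2) (nat_lit 8) (nat_lit 9) (C.cons (nat_lit 772) (C.node (nat_lit 3) (nat_lit 4) (nat_lit 6) (C.cons (nat_lit 344) (C.miq (nat_lit 558041478) (nat_lit 31433491855362922957505473)) C.nil)) C.nil)) C.nil))) (C.cons (nat_lit 274) (C.node (nat_lit 1) (nat_lit 4) (nat_lit 9) (C.cons (nat_lit 530) (C.node (nat_lit 2) (nat_lit 4) (nat_lit 5) C.nil) C.nil)) C.nil))) C.nil)) C.nil))) C.nil)) C.nil))) C.nil)) C.nil))) C.nil)) C.nil)) (C.cons (nat_lit 104) (C.miq (nat_lit 1935020178) (nat_lit 125731937734375494299943431)) C.nil)))) C.nil)) (C.cons (nat_lit 580) (C.miq (nat_lit 1499623728) (nat_lit 701180019278973734564462731)) C.nil))) C.nil))) C.nil))) C.nil))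
  (C.cons (nat_lit 194) (C.miq (nat_lit 644952213) (nat_lit 234532457577143151246836281)) C.nil))) (C.cons (nat_lit 162) (C.miq (nat_lit 2438423328) (nat_lit 195863710263569295113257037)) C.nil))) C.nil))) C.nil))) (C.cons (nat_lit 42) (C.node (nat_lit 1) (nat_lit 5) (nat_lit 9) (C.cons (nat_lit 674) (C.miq (nat_lit 622004118) (nat_lit 50776304869554366976754625)) (C.cons (nat_lit 546) (C.node (nat_lit 5) (nat_lit 7) (nat_lit 9) (C.cons (nat_lit 672) (C.node (nat_lit 5) (nat_lit 6) (nat_lit 9) (C.cons (nat_lit 612) (C.miq (nat_lit 425145888) (nat_lit 812400715043404015913467981)) (C.cons (nat_lit 608) (C.node (nat_lit 1) (nat_lit 6) (nat_lit 8) (C.cons (nat_lit 326) (C.node (nat_lit 1) (nat_lit 2) (nat_lit 3) (C.cons (nat_lit 30) (C.miq (nat_lit 2151835953) (nat_lit 25393456120975138439955018)) (C.cons (nat_lit 14) (C.node (nat_lit 1) (nat_lit 8) (nat_lit 9) (C.cons (nat_lit 786) (C.miq (nat_lit 1092851808) (nat_lit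 16935457893223481039717313)) (C.cons (nat_lit 770) (C.node (nat_lit 2) (nat_lit 3) (nat_lit 5) (C.cons (nat_lit 300) (C.miq (nat_lit 1099236899) (nat_lit 351807909728598853820350541)) (C.cons (nat_lit 44) (C.node (nat_lit 3) (nat_lit 8) (nat_lit 9) (C.cons (nat_lit 780) (C.miq (nat_lit 1126238598) (nat_lit 16926492714525538182890433)) (C.cons (nat_lit 776) (C.node (nat_lit 3) (nat_lit 5) (nat_lit 6) (C.cons (nat_lit 360) (C.miq (nat_lit 1478047264) (nat_lit 930883377401974797067812941)) (C.cons (nat_lit 232) (C.miq (nat_lit 324179568) (nat_lit 53202310088163271740031937)) (C.cons (nat_lit 104) (C.node (nat_lit 3) (nat_lit 6) (nat_lit 8) (C.cons (nat_lit 344) (C.miq (nat_lit 1209611808) (nat_lit 930883377397471197440442445)) (C.cons (nat_lit 328) (C.node (nat_lit 1) (nat_lit 2) (nat_lit 5) (C.cons (nat_lit 54) (C.node (nat_lit 1) (nat_lit 2) (nat_lit 7) (C.cons (nat_lit 134) (C.node (nat_lit 2) (nat_lit 5) (nat_lit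 6) (C.cons (nat_lit 100) (C.node (nat_lit 2) (nat_lit 5) (nat_lit 8) (C.cons (nat_lit 804) (C.node (nat_lit 4) (nat_lit 8) (nat_lit 9) (C.cons (nat_lit 784) (C.node (nat_lit 2) (nat_lit 3) (nat_lit 9) (C.cons (nat_lit 652) (C.miq (nat_lit 1378978160) (nat_lit 16930329703438939528561601)) (C.cons (nat_lit 524) (C.node (nat_lit 3) (nat_lit 7) (nat_lit 9) (C.cons (nat_lit 648) (C.node (nat_lit 2) (nat_lit 6) (nat_lit 7) (C.cons (nat_lit 212) (C.miq (nat_lit 1918395408) (nat_lit 971994086350889618352832595)) (C.cons (nat_lit 196) (C.node (nat_lit 2) (nat_lit 4) (nat_lit 6) (C.cons (nat_lit 596) (C.node (nat_lit 2) (nat_lit 7) (nat_lit 9) (C.cons (nat_lit 644) (C.node (nat_lit 1) (nat_lit 4) (nat_lit 9) (C.cons (nat_lit 658) (C.miq (nat_lit 826410902) (nat_lit 65283414697611498959930305)) (C.cons (nat_lit 530) (C.node (nat_lit 1) (nat_lit 7) (nat_lit 9) C.nil) C.nil))) C.nil)) (C.cons (nat_lit 84) (C.miq (nat_lit 2454095120)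 (nat_lit 101567496394989798763462947)) C.nil))) C.nil))) C.nil)) C.nil))) C.nil)) (C.cons (nat_lit 292) (C.miq (nat_lit 2552563220) (nat_lit 353016835795348512530890835)) C.nil))) C.nil)) C.nil)) (C.cons (nat_lit 38) (C.node (nat_lit 2) (nat_lit 5) (nat_lit 9) (C.cons (nat_lit 804) (C.miq (nat_lit 1159793030) (nat_lit 45940712385276741455053761)) (C.cons (nat_lit 548) (C.node (nat_lit 5) (nat_lit 8) (nat_lit 9) (C.cons (nat_lit 800) (C.node (nat_lit 2) (nat_lit 6) (nat_lit 9) (C.cons (nat_lit 596) (C.miq (nat_lit 1108711040) (nat_lit 45949677510494335671665601)) (C.cons (nat_lit 580) (C.node (nat_lit 4) (nat_lit 6) (nat_lit 9) (C.cons (nat_lit 592) (C.node (nat_lit 4) (nat_lit 6) (nat_lit 8) (C.cons (nat_lit 368) (C.miq (nat_lit 693637190) (nat_lit 967146669476359325852106835)) (C.cons (nat_lit 336) (C.node (nat_lit 5) (nat_lit 6) (nat_lit 8) (C.cons (nat_lit 352) (C.node (nat_lit 1) (nat_lit 2) (nat_lit 4) (C.cons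 (nat_lit 150) (C.node (nat_lit 1) (nat_lit 4) (nat_lit 5) (C.cons (nat_lit 50) (C.node (nat_lit 1) (nat_lit 4) (nat_lit 9) C.nil) C.nil)) (C.cons (nat_lit 22) (C.node (nat_lit 1) (nat_lit 2) (nat_lit 7) (C.cons (nat_lit 134) (C.node (nat_lit 2) (nat_lit 8) (nat_lit 9)
  (C.cons (nat_lit 788) (C.node (nat_lit 2) (nat_lit 5) (nat_lit 8) (C.cons (nat_lit 292) (C.node (nat_lit 1) (nat_lit 4) (nat_lit 5) C.nil) C.nil)) C.nil)) C.nil)) C.nil))) C.nil)) C.nil))) C.nil)) C.nil))) C.nil)) C.nil))) C.nil))) C.nil))) C.nil)))) C.nil))) C.nil))) C.nil))) C.nil))) (C.cons (nat_lit 322) (C.node (nat_lit 1) (nat_lit 7) (nat_lit 9) (C.cons (nat_lit 658) (C.node (nat_lit 1) (nat_lit 8) (nat_lit 9) (C.cons (nat_lit 770) (C.node (nat_lit 2) (nat_lit 6) (nat_lit 9) (C.cons (nat_lit 596) (C.miq (nat_lit 1107793457) (nat_lit 199484898361773731552625226)) (C.cons (nat_lit 580) (C.node (nat_lit 4) (nat_lit 6) (nat_lit 9) (C.cons (nat_lit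 592) (C.node (nat_lit 2) (nat_lit 7) (nat_lit 9) (C.cons (nat_lit 652) (C.miq (nat_lit 692467472) (nat_lit 715685505794678657970798731)) (C.cons (nat_lit 644) (C.node (nat_lit 3) (nat_lit 7) (nat_lit 9) (C.cons (nat_lit 648) (C.node (nat_lit 3) (nat_lit 6) (nat_lit 7) (C.cons (nat_lit 232) (C.miq (nat_lit 557123943) (nat_lit 50777928282674617192547265)) (C.cons (nat_lit 216) (C.miq (nat_lit 642319217) (nat_lit 715693659093709227646124171)) (C.cons (nat_lit 200) (C.node (nat_lit 1) (nat_lit 4) (nat_lit 5) (C.cons (nat_lit 54) (C.node (nat_lit 1) (nat_lit 2) (nat_lit 6) (C.cons (nat_lit 198) (C.miq (nat_lit 873597302) (nat_lit 65283414818645738919429057)) (C.cons (nat_lit 70) (C.node (nat_lit 1) (nat_lit 2) (nat_lit 7) (C.cons (nat_lit 390) (C.miq (nat_lit 1232228481) (nat_lit 778549224116164558064058659)) (C.cons (nat_lit 134) (C.node (nat_lit 1) (nat_lit 7) (nat_lit 8) (C.cons (nat_lit 386) (C.node (nat_lit 2) (nat_lit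 5) (nat_lit 9) (C.cons (nat_lit 804) (C.miq (nat_lit 2182518080) (nat_lit 84642534920384990317576761)) (C.cons (nat_lit 548) (C.node (nat_lit 5) (nat_lit 8) (nat_lit 9) (C.cons (nat_lit 800) (C.node (nat_lit 1) (nat_lit 5) (nat_lit 6) (C.cons (nat_lit 98) (C.node (nat_lit 1) (nat_lit 5) (nat_lit 7) (C.cons (nat_lit 162) (C.node (nat_lit 1) (nat_lit 6) (nat_lit 7) C.nil) C.nil)) C.nil)) C.nil)) C.nil))) C.nil)) C.nil))) C.nil))) (C.cons (nat_lit 50) (C.node (nat_lit 1) (nat_lit 2) (nat_lit 5) (C.cons (nat_lit 102) (C.node (nat_lit 1) (nat_lit 5) (nat_lit 7) (C.cons (nat_lit 162) (C.node (nat_lit 1) (nat_lit 6) (nat_lit 7) (C.cons (nat_lit 194) (C.node (nat_lit 1) (nat_lit 2) (nat_lit 7) (C.cons (nat_lit 390) (C.node (nat_lit 1) (nat_lit 2) (nat_lit 3) (C.cons (nat_lit 30) (C.miq (nat_lit 1898353712) (nat_lit 123328161106957674228810297)) (C.cons (nat_lit 14) (C.node (nat_lit 1) (nat_lit 2) (nat_lit 4) (C.cons (nat_lit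 22) (C.node (nat_lit 2) (nat_lit 4) (nat_lit 9) (C.cons (nat_lit 788) (C.miq (nat_lit 1108580464) (nat_lit 16935457893786705875108801)) (C.cons (nat_lit 532) (C.node (nat_lit 4) (nat_lit 8) (nat_lit 9) (C.cons (nat_lit 784) (C.node (nat_lit 1) (nat_lit 3) (nat_lit 4) C.nil) C.nil)) C.nil))) C.nil)) C.nil))) (C.cons (nat_lit 134) (C.node (nat_lit 1) (nat_lit 7) (nat_lit 8) (C.cons (nat_lit 386) (C.node (nat_lit 2) (nat_lit 3) (nat_lit 5) (C.cons (nat_lit 300) (C.node (nat_lit 2) (nat_lit 3) (nat_lit 9) (C.cons (nat_lit 524) (C.node (nat_lit 2) (nat_lit 4) (nat_lit 5) (C.cons (nat_lit 52) (C.node (nat_lit 2) (nat_lit 5) (nat_lit 9) (C.cons (nat_lit 548) (C.node (nat_lit 3) (nat_lit 5) (nat_lit 6) C.nil) C.nil)) C.nil)) C.nil)) (C.cons (nat_lit 44) (C.node (nat_lit 2) (nat_lit 3) (nat_lit 9) (C.cons (nat_lit 780) (C.node (nat_lit 2) (nat_lit 4) (nat_lit 9) (C.cons (nat_lit 532) (C.node (nat_lit 2) (nat_lit 5) (nat_lit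 9) (C.cons (nat_lit 548) (C.node (nat_lit 5) (nat_lit 8) (nat_lit 9) C.nil) C.nil)) C.nil)) (C.cons (nat_lit 524) (C.node (nat_lit 3) (nat_lit 8) (nat_lit 9) (C.cons (nat_lit 776) (C.node (nat_lit 2) (nat_lit 6) (nat_lit 7) C.nil) C.nil)) C.nil))) C.nil))) C.nil)) C.nil))) C.nil)) C.nil)) (C.cons (nat_lit 38) (C.node (nat_lit 1) (nat_lit 2) (nat_lit 6) (C.cons (nat_lit 198) (C.miq (nat_lit 824546928) (nat_lit 45949677507679036140487617)) (C.cons (nat_lit 70) (C.node (nat_lit 1) (nat_lit 2) (nat_lit 7) (C.cons (nat_lit 390)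
  (C.node (nat_lit 1) (nat_lit 2) (nat_lit 3) (C.cons (nat_lit 30) (C.miq (nat_lit 1898353712) (nat_lit 84642534879289540638212665)) (C.cons (nat_lit 14) (C.node (nat_lit 1) (nat_lit 2) (nat_lit 4) (C.cons (nat_lit 22) (C.node (nat_lit 2) (nat_lit 4) (nat_lit 9) (C.cons (nat_lit 788) (C.miq (nat_lit 1108580464) (nat_lit 16935457893786705875108801)) (C.cons (nat_lit 532) (C.node (nat_lit 2) (nat_lit 5) (nat_lit 9) (C.cons (nat_lit 804) (C.miq (nat_lit 1377015920) (nat_lit 16935457898290305502479297)) C.nil)) C.nil))) C.nil)) C.nil))) (C.cons (nat_lit 134) (C.node (nat_lit 1) (nat_lit 7) (nat_lit 8) (C.cons (nat_lit 386) (C.node (nat_lit 1) (nat_lit 5) (nat_lit 6) (C.cons (nat_lit 226) (C.node (nat_lit 2) (nat_lit 3) (nat_lit 5) (C.cons (nat_lit 300) (C.node (nat_lit 2) (nat_lit 3) (nat_lit 9) (C.cons (nat_lit 524) (C.node (nat_lit 2) (nat_lit 5) (nat_lit 9) C.nil) C.nil)) (C.cons (nat_lit 44) (C.node (nat_lit 2) (nat_lit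 3) (nat_lit 9) (C.cons (nat_lit 780) (C.node (nat_lit 1) (nat_lit 2) (nat_lit 3) (C.cons (nat_lit 30) (C.miq (nat_lit 1898353712) (nat_lit 84642534879289540638212665)) C.nil)) (C.cons (nat_lit 524) (C.node (nat_lit 3) (nat_lit 8) (nat_lit 9) (C.cons (nat_lit 776) (C.node (nat_lit 2) (nat_lit 4) (nat_lit 9) C.nil) C.nil)) C.nil))) C.nil))) (C.cons (nat_lit 98) (C.node (nat_lit 1) (nat_lit 5) (nat_lit 7) (C.cons (nat_lit 162) (C.node (nat_lit 1) (nat_lit 6) (nat_lit 7) (C.cons (nat_lit 194) (C.node (nat_lit 2) (nat_lit 6) (nat_lit 7) (C.cons (nat_lit 212) (C.node (nat_lit 5) (nat_lit 6) (nat_lit 7) C.nil) C.nil)) C.nil)) C.nil)) C.nil))) C.nil)) C.nil))) C.nil))) C.nil))) C.nil))) C.nil)))) C.nil)) C.nil))) C.nil)) C.nil))) C.nil)) (C.cons (nat_lit 642) (C.ref (nat_lit 52) (nat_lit 654820258320)) C.nil))) C.nil))) C.nil))) C.nil)) C.nil))) C.nil))) (C.cons (nat_lit 584) (C.node (nat_lit 1) (nat_lit 3) (nat_lit 9) (C.cons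 (nat_lit 778) (C.node (nat_lit 1) (nat_lit 3) (nat_lit 4) (C.cons (nat_lit 30) (C.node (nat_lit 1) (nat_lit 6) (nat_lit 8) (C.cons (nat_lit 326) (C.miq (nat_lit 1233203298) (nat_lit 940544841222667098441252941)) (C.cons (nat_lit 322) (C.node (nat_lit 1) (nat_lit 2) (nat_lit 8) (C.cons (nat_lit 390) (C.miq (nat_lit 1393691015) (nat_lit 36270818461373640575681473)) (C.cons (nat_lit 262) (C.node (nat_lit 2) (nat_lit 3) (nat_lit 9) (C.cons (nat_lit 652) (C.miq (nat_lit 1362233495) (nat_lit 36270818383123597067289537)) (C.cons (nat_lit 524) (C.node (nat_lit 3) (nat_lit 7) (nat_lit 9) (C.cons (nat_lit 648) (C.node (nat_lit 1) (nat_lit 2) (nat_lit 7) (C.cons (nat_lit 198) (C.miq (nat_lit 1916363072) (nat_lit 633494856854852696700158035)) (C.cons (nat_lit 134) (C.node (nat_lit 1) (nat_lit 4) (nat_lit 9) (C.cons (nat_lit 658) (C.miq (nat_lit 1729235267) (nat_lit 161997480498154263755489849)) (C.cons (nat_lit 530) (C.node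 (nat_lit 4) (nat_lit 6) (nat_lit 9) (C.cons (nat_lit 596) (C.miq (nat_lit 1645712432) (nat_lit 162013787317174359267410489)) (C.cons (nat_lit 592) (C.node (nat_lit 4) (nat_lit 8) (nat_lit 9) (C.cons (nat_lit 788) (C.miq (nat_lit 2182583344) (nat_lit 162013787371217554795856441)) (C.cons (nat_lit 784) (C.node (nat_lit 2) (nat_lit 8) (nat_lit 9) (C.cons (nat_lit 804) (C.miq (nat_lit 1921058195) (nat_lit 316741128882905913762644537)) (C.cons (nat_lit 772) (C.node (nat_lit 5) (nat_lit 8) (nat_lit 9) (C.cons (nat_lit 800) (C.node (nat_lit 3) (nat_lit 4) (nat_lit 6) (C.cons (nat_lit 344) (C.miq (nat_lit 2216256288) (nat_lit 640748411813635818344874061)) (C.cons (nat_lit 216) (C.miq (nat_lit 1947820832) (nat_lit 640748411777607021325910093)) (C.cons (nat_lit 88) (C.node (nat_lit 3) (nat_lit 4) (nat_lit 7) (C.cons (nat_lit 408) (C.miq (nat_lit 696520819) (nat_lit 947798396126281124659331211)) (C.cons (nat_lit 152) (C.node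 (nat_lit 3) (nat_lit 4) (nat_lit 8) (C.cons (nat_lit 280) (C.node (nat_lit 1) (nat_lit 2) (nat_lit 5) (C.cons (nat_lit 102) (C.node (nat_lit 1) (nat_lit 3) (nat_lit 5) (C.cons (nat_lit 42) (C.node (nat_lit 1) (nat_lit 3) (nat_lit 6) (C.cons (nat_lit 74)
  (C.node (nat_lit 1) (nat_lit 6) (nat_lit 7) (C.cons (nat_lit 194) (C.node (nat_lit 1) (nat_lit 6) (nat_lit 9) (C.cons (nat_lit 578) (C.node (nat_lit 2) (nat_lit 5) (nat_lit 9) (C.cons (nat_lit 548) (C.node (nat_lit 2) (nat_lit 6) (nat_lit 9) (C.cons (nat_lit 580) (C.node (nat_lit 5) (nat_lit 6) (nat_lit 9) C.nil) C.nil)) C.nil)) C.nil)) C.nil)) C.nil)) C.nil)) (C.cons (nat_lit 38) (C.node (nat_lit 1) (nat_lit 2) (nat_lit 6) (C.cons (nat_lit 70) (C.node (nat_lit 1) (nat_lit 3) (nat_lit 5) (C.cons (nat_lit 106) (C.node (nat_lit 1) (nat_lit 6) (nat_lit 7) (C.cons (nat_lit 194) (C.node (nat_lit 1) (nat_lit 6) (nat_lit 9) (C.cons (nat_lit 578) (C.node (nat_lit 3) (nat_lit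 6) (nat_lit 7) (C.cons (nat_lit 200) (C.node (nat_lit 3) (nat_lit 6) (nat_lit 8) (C.cons (nat_lit 328) (C.node (nat_lit 1) (nat_lit 4) (nat_lit 5) C.nil) C.nil)) C.nil)) C.nil)) C.nil)) (C.cons (nat_lit 42) (C.node (nat_lit 1) (nat_lit 3) (nat_lit 6) (C.cons (nat_lit 74) (C.node (nat_lit 1) (nat_lit 4) (nat_lit 5) (C.cons (nat_lit 178) (C.node (nat_lit 1) (nat_lit 4) (nat_lit 8) (C.cons (nat_lit 274) (C.node (nat_lit 1) (nat_lit 6) (nat_lit 7) C.nil) C.nil)) (C.cons (nat_lit 50) (C.node (nat_lit 1) (nat_lit 4) (nat_lit 7) (C.cons (nat_lit 402) (C.node (nat_lit 1) (nat_lit 6) (nat_lit 7) (C.cons (nat_lit 226) (C.node (nat_lit 1) (nat_lit 5) (nat_lit 9) C.nil) C.nil)) C.nil)) C.nil))) C.nil)) C.nil))) C.nil)) C.nil))) C.nil)) C.nil))) C.nil)))) C.nil)) C.nil))) C.nil))) C.nil))) C.nil))) C.nil))) C.nil)) C.nil))) C.nil))) C.nil))) (C.cons (nat_lit 26) (C.node (nat_lit 1) (nat_lit 2) (nat_lit 3) (C.cons (nat_lit 46)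 (C.node (nat_lit 1) (nat_lit 3) (nat_lit 6) (C.cons (nat_lit 74) (C.node (nat_lit 1) (nat_lit 6) (nat_lit 8) (C.cons (nat_lit 326) (C.miq (nat_lit 2014447925) (nat_lit 394112861177642067136741945)) (C.cons (nat_lit 322) (C.node (nat_lit 1) (nat_lit 2) (nat_lit 6) (C.cons (nat_lit 198) (C.miq (nat_lit 2166854480) (nat_lit 239385039823739140931125817)) (C.cons (nat_lit 70) (C.node (nat_lit 2) (nat_lit 3) (nat_lit 9) (C.cons (nat_lit 652) (C.node (nat_lit 1) (nat_lit 4) (nat_lit 9) (C.cons (nat_lit 658) (C.miq (nat_lit 1918997252) (nat_lit 84636945514146558647665209)) (C.cons (nat_lit 530) (C.node (nat_lit 4) (nat_lit 7) (nat_lit 9) (C.cons (nat_lit 656) (C.node (nat_lit 1) (nat_lit 7) (nat_lit 9) (C.cons (nat_lit 674) (C.miq (nat_lit 1898353968) (nat_lit 84642534883793208985059897)) (C.cons (nat_lit 642) (C.node (nat_lit 5) (nat_lit 7) (nat_lit 9) (C.cons (nat_lit 672) (C.node (nat_lit 4) (nat_lit 6) (nat_lit 9) (C.cons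 (nat_lit 596) (C.miq (nat_lit 1093820537) (nat_lit 55621581985103893039416257)) (C.cons (nat_lit 592) (C.node (nat_lit 2) (nat_lit 4) (nat_lit 9) (C.cons (nat_lit 788) (C.miq (nat_lit 1385695025) (nat_lit 952638913905299410674909323)) (C.cons (nat_lit 532) (C.node (nat_lit 4) (nat_lit 8) (nat_lit 9) (C.cons (nat_lit 784) (C.node (nat_lit 2) (nat_lit 6) (nat_lit 9) (C.cons (nat_lit 612) (C.miq (nat_lit 1981876563) (nat_lit 84627371740950368999047737)) (C.cons (nat_lit 580) (C.node (nat_lit 2) (nat_lit 5) (nat_lit 9) (C.cons (nat_lit 804) (C.node (nat_lit 3) (nat_lit 5) (nat_lit 7) (C.cons (nat_lit 424) (C.node (nat_lit 3) (nat_lit 5) (nat_lit 6) (C.cons (nat_lit 104) (C.node (nat_lit 3) (nat_lit 4) (nat_lit 7) (C.cons (nat_lit 216) (C.miq (nat_lit 1396803424) (nat_lit 31437439431852125865575361)) (C.cons (nat_lit 152) (C.node (nat_lit 3) (nat_lit 6) (nat_lit 7) (C.cons (nat_lit 200) (C.node (nat_lit 1) (nat_lit 6)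 (nat_lit 9) (C.cons (nat_lit 610) (C.node (nat_lit 1) (nat_lit 6) (nat_lit 7) C.nil) C.nil)) C.nil)) C.nil))) C.nil)) (C.cons (nat_lit 232) (C.miq (nat_lit 2235011600) (nat_lit 280488517697954882263908871)) (C.cons (nat_lit 168) (C.miq (nat_lit 2235011600) (nat_lit 203117265242618615082713607)) C.nil)))) (C.cons (nat_lit 548) (C.miq (nat_lit 2234060915) (nat_lit 662505700797616060705276043)) C.nil))) C.nil))) C.nil)) C.nil))) C.nil))) C.nil)) C.nil))) C.nil)) C.nil))) (C.cons (nat_lit 524)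
  (C.miq (nat_lit 2033322005) (nat_lit 633480173461338643728564515)) C.nil))) C.nil))) C.nil))) C.nil)) (C.cons (nat_lit 14) (C.node (nat_lit 2) (nat_lit 3) (nat_lit 9) (C.cons (nat_lit 652) (C.miq (nat_lit 1362233495) (nat_lit 16928005269289530271990721)) (C.cons (nat_lit 524) (C.node (nat_lit 3) (nat_lit 7) (nat_lit 9) (C.cons (nat_lit 648) (C.node (nat_lit 5) (nat_lit 8) (nat_lit 9) (C.cons (nat_lit 804) (C.miq (nat_lit 691492880) (nat_lit 783386975049361090054652195)) (C.cons (nat_lit 800) (C.node (nat_lit 1) (nat_lit 3) (nat_lit 5) (C.cons (nat_lit 106) (C.node (nat_lit 1) (nat_lit 6) (nat_lit 9) (C.cons (nat_lit 578) (C.node (nat_lit 3) (nat_lit 5) (nat_lit 7) (C.cons (nat_lit 424) (C.miq (nat_lit 557123975) (nat_lit 128149180738011709020046273)) (C.cons (nat_lit 168) (C.node (nat_lit 1) (nat_lit 2) (nat_lit 5) (C.cons (nat_lit 54) (C.node (nat_lit 1) (nat_lit 6) (nat_lit 7) (C.cons (nat_lit 198) (C.miq (nat_lit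 2535786004) (nat_lit 199483256704290057587392595)) (C.cons (nat_lit 194) (C.node (nat_lit 1) (nat_lit 2) (nat_lit 6) (C.cons (nat_lit 326) (C.miq (nat_lit 630723590) (nat_lit 967146669345473461720514643)) (C.cons (nat_lit 70) (C.node (nat_lit 1) (nat_lit 6) (nat_lit 8) (C.cons (nat_lit 322) (C.node (nat_lit 1) (nat_lit 2) (nat_lit 7) (C.cons (nat_lit 390) (C.miq (nat_lit 824547440) (nat_lit 65292490675557123097953217)) (C.cons (nat_lit 134) (C.node (nat_lit 1) (nat_lit 2) (nat_lit 8) (C.cons (nat_lit 262) (C.node (nat_lit 2) (nat_lit 6) (nat_lit 7) (C.cons (nat_lit 212) (C.miq (nat_lit 2267350593) (nat_lit 199478128509437626461585491)) (C.cons (nat_lit 196) (C.node (nat_lit 2) (nat_lit 7) (nat_lit 9) (C.cons (nat_lit 660) (C.miq (nat_lit 1914213456) (nat_lit 316756292245861395228459577)) (C.cons (nat_lit 644) (C.node (nat_lit 4) (nat_lit 6) (nat_lit 9) (C.cons (nat_lit 596) (C.miq (nat_lit 1645778000) (nat_lit 316756292227846996718977593))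 (C.cons (nat_lit 592) (C.node (nat_lit 5) (nat_lit 6) (nat_lit 7) (C.cons (nat_lit 240) (C.miq (nat_lit 2538735169) (nat_lit 199482334367086552498438227)) (C.cons (nat_lit 224) (C.node (nat_lit 4) (nat_lit 5) (nat_lit 6) (C.cons (nat_lit 368) (C.miq (nat_lit 696586340) (nat_lit 967141651961972960481247315)) (C.cons (nat_lit 112) (C.node (nat_lit 3) (nat_lit 6) (nat_lit 7) (C.cons (nat_lit 200) (C.node (nat_lit 4) (nat_lit 6) (nat_lit 7) C.nil) C.nil)) C.nil))) C.nil))) C.nil))) C.nil))) C.nil))) C.nil)) C.nil))) C.nil)) C.nil))) C.nil))) (C.cons (nat_lit 38) (C.node (nat_lit 1) (nat_lit 4) (nat_lit 5) (C.cons (nat_lit 178) (C.node (nat_lit 1) (nat_lit 4) (nat_lit 9) (C.cons (nat_lit 530) (C.node (nat_lit 1) (nat_lit 5) (nat_lit 9) (C.cons (nat_lit 546) (C.node (nat_lit 1) (nat_lit 7) (nat_lit 9) (C.cons (nat_lit 642) (C.node (nat_lit 5) (nat_lit 6) (nat_lit 7) (C.cons (nat_lit 224) (C.node (nat_lit 5) (nat_lit 7)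 (nat_lit 8) (C.cons (nat_lit 416) (C.node (nat_lit 5) (nat_lit 7) (nat_lit 9) (C.cons (nat_lit 672) (C.node (nat_lit 1) (nat_lit 6) (nat_lit 7) (C.cons (nat_lit 198) (C.miq (nat_lit 659775808) (nat_lit 203100958150284186916290643)) (C.cons (nat_lit 194) (C.node (nat_lit 1) (nat_lit 2) (nat_lit 7) (C.cons (nat_lit 390) (C.miq (nat_lit 824547440) (nat_lit 45949677561723056302654401)) (C.cons (nat_lit 134) (C.node (nat_lit 1) (nat_lit 7) (nat_lit 8) C.nil) C.nil))) C.nil))) C.nil)) C.nil)) C.nil)) C.nil)) C.nil)) C.nil)) (C.cons (nat_lit 50) (C.node (nat_lit 1) (nat_lit 4) (nat_lit 9) (C.cons (nat_lit 658) (C.node (nat_lit 1) (nat_lit 5) (nat_lit 7) (C.cons (nat_lit 162) (C.node (nat_lit 1) (nat_lit 5) (nat_lit 9) (C.cons (nat_lit 546) (C.node (nat_lit 2) (nat_lit 7) (nat_lit 9) (C.cons (nat_lit 644) (C.node (nat_lit 5) (nat_lit 7) (nat_lit 9) (C.cons (nat_lit 672) (C.node (nat_lit 1) (nat_lit 6) (nat_lit 7) (C.cons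 (nat_lit 198) (C.miq (nat_lit 1092851552) (nat_lit 16935457857194134264939457)) (C.cons (nat_lit 194) (C.node (nat_lit 1) (nat_lit 2) (nat_lit 7) (C.cons (nat_lit 390) (C.miq (nat_lit 824547440) (nat_lit 45949677561723056302654401)) (C.cons (nat_lit 134)
  (C.node (nat_lit 1) (nat_lit 7) (nat_lit 8) (C.cons (nat_lit 386) (C.node (nat_lit 3) (nat_lit 6) (nat_lit 7) C.nil) C.nil)) C.nil))) C.nil))) C.nil)) C.nil)) C.nil)) C.nil)) (C.cons (nat_lit 530) (C.node (nat_lit 1) (nat_lit 5) (nat_lit 7) (C.cons (nat_lit 674) (C.node (nat_lit 1) (nat_lit 6) (nat_lit 7) (C.cons (nat_lit 198) (C.miq (nat_lit 1361287008) (nat_lit 16935457861697733892309953)) (C.cons (nat_lit 194) (C.node (nat_lit 2) (nat_lit 5) (nat_lit 9) (C.cons (nat_lit 612) (C.miq (nat_lit 827459478) (nat_lit 45940601583777500885156801)) (C.cons (nat_lit 548) (C.node (nat_lit 5) (nat_lit 6) (nat_lit 9) (C.cons (nat_lit 608) (C.node (nat_lit 1) (nat_lit 2) (nat_lit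 6) (C.cons (nat_lit 326) (C.node (nat_lit 2) (nat_lit 3) (nat_lit 5) (C.cons (nat_lit 300) (C.miq (nat_lit 1099236899) (nat_lit 351807909728598853820350541)) (C.cons (nat_lit 44) (C.node (nat_lit 3) (nat_lit 5) (nat_lit 8) (C.cons (nat_lit 296) (C.node (nat_lit 3) (nat_lit 6) (nat_lit 8) (C.cons (nat_lit 344) (C.miq (nat_lit 1209611808) (nat_lit 940554783954388230838091853)) C.nil)) C.nil)) C.nil))) (C.cons (nat_lit 70) (C.node (nat_lit 1) (nat_lit 6) (nat_lit 8) (C.cons (nat_lit 322) (C.node (nat_lit 2) (nat_lit 7) (nat_lit 6) (C.cons (nat_lit 212) (C.node (nat_lit 2) (nat_lit 7) (nat_lit 9) (C.cons (nat_lit 644) (C.node (nat_lit 2) (nat_lit 6) (nat_lit 9) C.nil) C.nil)) (C.cons (nat_lit 196) (C.node (nat_lit 2) (nat_lit 7) (nat_lit 9) (C.cons (nat_lit 660) (C.node (nat_lit 1) (nat_lit 2) (nat_lit 7) (C.cons (nat_lit 390) (C.miq (nat_lit 824547440) (nat_lit 45949677561723056302654401)) C.nil)) (C.cons (nat_lit 644)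 (C.node (nat_lit 7) (nat_lit 4) (nat_lit 9) (C.cons (nat_lit 656) (C.node (nat_lit 2) (nat_lit 8) (nat_lit 9) C.nil) C.nil)) C.nil))) C.nil))) C.nil)) C.nil))) C.nil)) C.nil))) C.nil))) (C.cons (nat_lit 162) (C.node (nat_lit 1) (nat_lit 5) (nat_lit 9) (C.cons (nat_lit 546) (C.node (nat_lit 1) (nat_lit 7) (nat_lit 9) (C.cons (nat_lit 642) (C.node (nat_lit 5) (nat_lit 7) (nat_lit 9) (C.cons (nat_lit 672) (C.node (nat_lit 1) (nat_lit 6) (nat_lit 7) (C.cons (nat_lit 198) (C.node (nat_lit 1) (nat_lit 6) (nat_lit 8) (C.cons (nat_lit 322) (C.node (nat_lit 2) (nat_lit 5) (nat_lit 9) (C.cons (nat_lit 612) (C.miq (nat_lit 1377015408) (nat_lit 16935457844246285340312513)) C.nil)) C.nil)) (C.cons (nat_lit 194) (C.node (nat_lit 2) (nat_lit 5) (nat_lit 9) (C.cons (nat_lit 612) (C.node (nat_lit 4) (nat_lit 6) (nat_lit 9) C.nil) C.nil)) C.nil))) C.nil)) C.nil)) C.nil)) C.nil))) C.nil))) C.nil))) C.nil))) C.nil))) C.nil)) (C.cons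 (nat_lit 42) (C.node (nat_lit 1) (nat_lit 3) (nat_lit 6) (C.cons (nat_lit 74) (C.node (nat_lit 1) (nat_lit 4) (nat_lit 9) (C.cons (nat_lit 658) (C.node (nat_lit 2) (nat_lit 7) (nat_lit 9) (C.cons (nat_lit 644) (C.node (nat_lit 5) (nat_lit 7) (nat_lit 9) (C.cons (nat_lit 672) (C.node (nat_lit 1) (nat_lit 7) (nat_lit 8) (C.cons (nat_lit 390) (C.miq (nat_lit 1393691015) (nat_lit 16928005347539573780382657)) (C.cons (nat_lit 386) (C.node (nat_lit 1) (nat_lit 2) (nat_lit 7) (C.cons (nat_lit 198) (C.miq (nat_lit 1092851552) (nat_lit 16935457857194134264939457)) (C.cons (nat_lit 134) (C.node (nat_lit 4) (nat_lit 6) (nat_lit 9) (C.cons (nat_lit 596) (C.miq (nat_lit 588537977) (nat_lit 31443065591122459685422017)) (C.cons (nat_lit 592) (C.node (nat_lit 1) (nat_lit 4) (nat_lit 5) (C.cons (nat_lit 54) (C.node (nat_lit 1) (nat_lit 4) (nat_lit 8) (C.cons (nat_lit 274) (C.node (nat_lit 1) (nat_lit 2) (nat_lit 6) (C.cons (nat_lit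 326) (C.miq (nat_lit 630723590) (nat_lit 967146669345473461720514643)) (C.cons (nat_lit 70) (C.node (nat_lit 1) (nat_lit 2) (nat_lit 8) (C.cons (nat_lit 262) (C.node (nat_lit 1) (nat_lit 6) (nat_lit 8) (C.cons (nat_lit 322) (C.node (nat_lit 2) (nat_lit 6) (nat_lit 7) (C.cons (nat_lit 212) (C.miq (nat_lit 2267350593) (nat_lit 199478128509437626461585491)) (C.cons (nat_lit 196) (C.node (nat_lit 2) (nat_lit 4) (nat_lit 6) C.nil) C.nil))) C.nil)) C.nil)) C.nil))) C.nil)) (C.cons (nat_lit 50)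
  (C.node (nat_lit 1) (nat_lit 2) (nat_lit 4) (C.cons (nat_lit 278) (C.node (nat_lit 1) (nat_lit 6) (nat_lit 8) (C.cons (nat_lit 322) (C.node (nat_lit 2) (nat_lit 4) (nat_lit 9) (C.cons (nat_lit 532) (C.node (nat_lit 2) (nat_lit 8) (nat_lit 9) (C.cons (nat_lit 772) (C.node (nat_lit 4) (nat_lit 8) (nat_lit 9) (C.cons (nat_lit 784) (C.node (nat_lit 2) (nat_lit 6) (nat_lit 7) (C.cons (nat_lit 212) (C.node (nat_lit 2) (nat_lit 3) (nat_lit 4) C.nil) C.nil)) C.nil)) C.nil)) C.nil)) C.nil)) (C.cons (nat_lit 22) (C.node (nat_lit 1) (nat_lit 4) (nat_lit 8) (C.cons (nat_lit 274) (C.node (nat_lit 1) (nat_lit 2) (nat_lit 5) (C.cons (nat_lit 102) (C.node (nat_lit 1) (nat_lit 2) (nat_lit 8) (C.cons (nat_lit 262) (C.node (nat_lit 1) (nat_lit 5) (nat_lit 7) (C.cons (nat_lit 162) (C.node (nat_lit 1) (nat_lit 5) (nat_lit 9) (C.cons (nat_lit 546) (C.node (nat_lit 1) (nat_lit 6) (nat_lit 7) C.nil) C.nil)) C.nil)) C.nil)) (C.cons (nat_lit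 38) (C.node (nat_lit 1) (nat_lit 2) (nat_lit 6) (C.cons (nat_lit 326) (C.node (nat_lit 2) (nat_lit 3) (nat_lit 5) (C.cons (nat_lit 300) (C.miq (nat_lit 1099236899) (nat_lit 351807909728598853820350541)) (C.cons (nat_lit 44) (C.node (nat_lit 2) (nat_lit 4) (nat_lit 9) C.nil) C.nil))) (C.cons (nat_lit 70) (C.node (nat_lit 1) (nat_lit 2) (nat_lit 8) (C.cons (nat_lit 262) (C.node (nat_lit 1) (nat_lit 6) (nat_lit 8) C.nil) C.nil)) C.nil))) C.nil))) C.nil)) C.nil))) C.nil))) C.nil))) C.nil))) C.nil))) C.nil)) C.nil)) (C.cons (nat_lit 530) (C.node (nat_lit 1) (nat_lit 6) (nat_lit 8) (C.cons (nat_lit 326) (C.node (nat_lit 1) (nat_lit 2) (nat_lit 5) (C.cons (nat_lit 54) (C.miq (nat_lit 630723590) (nat_lit 967146669345473461720514643)) (C.cons (nat_lit 38) (C.node (nat_lit 2) (nat_lit 3) (nat_lit 5) (C.cons (nat_lit 300) (C.miq (nat_lit 1099236899) (nat_lit 351807909728598853820350541)) (C.cons (nat_lit 44) (C.node (nat_lit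 4) (nat_lit 6) (nat_lit 9) (C.cons (nat_lit 596) (C.miq (nat_lit 1108711040) (nat_lit 45949677510494335671665601)) (C.cons (nat_lit 592) (C.node (nat_lit 3) (nat_lit 5) (nat_lit 8) (C.cons (nat_lit 424) (C.miq (nat_lit 324180080) (nat_lit 53202310142207291902198721)) (C.cons (nat_lit 360) (C.miq (nat_lit 1478047264) (nat_lit 940554783958891830465462349)) (C.cons (nat_lit 296) (C.node (nat_lit 3) (nat_lit 6) (nat_lit 8) (C.cons (nat_lit 344) (C.miq (nat_lit 1209611808) (nat_lit 940554783954388230838091853)) (C.cons (nat_lit 328) (C.node (nat_lit 4) (nat_lit 6) (nat_lit 8) (C.cons (nat_lit 368) (C.miq (nat_lit 693637190) (nat_lit 967146669476359325852106835)) (C.cons (nat_lit 336) (C.node (nat_lit 5) (nat_lit 6) (nat_lit 8) (C.cons (nat_lit 352) (C.node (nat_lit 1) (nat_lit 2) (nat_lit 4) (C.cons (nat_lit 150) (C.node (nat_lit 1) (nat_lit 4) (nat_lit 5) (C.cons (nat_lit 50) (C.node (nat_lit 1) (nat_lit 4) (nat_lit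 8) (C.cons (nat_lit 274) (C.node (nat_lit 1) (nat_lit 7) (nat_lit 8) (C.cons (nat_lit 386) (C.node (nat_lit 2) (nat_lit 3) (nat_lit 4) C.nil) C.nil)) C.nil)) C.nil)) (C.cons (nat_lit 22) (C.node (nat_lit 1) (nat_lit 2) (nat_lit 7) (C.cons (nat_lit 134) (C.node (nat_lit 1) (nat_lit 4) (nat_lit 5) (C.cons (nat_lit 178) (C.node (nat_lit 1) (nat_lit 4) (nat_lit 8) (C.cons (nat_lit 274) (C.node (nat_lit 1) (nat_lit 6) (nat_lit 7) C.nil) C.nil)) (C.cons (nat_lit 50) (C.node (nat_lit 1) (nat_lit 4) (nat_lit 7) (C.cons (nat_lit 402) (C.node (nat_lit 5) (nat_lit 7) (nat_lit 8) (C.cons (nat_lit 416) (C.node (nat_lit 3) (nat_lit 4) (nat_lit 6) C.nil) C.nil)) (C.cons (nat_lit 146) (C.node (nat_lit 2) (nat_lit 5) (nat_lit 8) C.nil) C.nil))) C.nil))) C.nil)) C.nil))) C.nil)) C.nil))) C.nil))) C.nil)))) C.nil))) C.nil))) C.nil))) (C.cons (nat_lit 322) (C.node (nat_lit 1) (nat_lit 6) (nat_lit 9) (C.cons (nat_lit 610) (C.node (nat_lit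 1) (nat_lit 7) (nat_lit 9) (C.cons (nat_lit 642) (C.node (nat_lit 2) (nat_lit 5) (nat_lit 9) (C.cons (nat_lit 548) (C.node (nat_lit 5) (nat_lit 7) (nat_lit 9) (C.cons (nat_lit 672) (C.node (nat_lit 1) (nat_lit 2) (nat_lit 5) (C.cons (nat_lit 54)
  (C.node (nat_lit 1) (nat_lit 5) (nat_lit 7) (C.cons (nat_lit 162) (C.node (nat_lit 1) (nat_lit 2) (nat_lit 6) (C.cons (nat_lit 198) (C.miq (nat_lit 1918460224) (nat_lit 662509076525603899972321363)) (C.cons (nat_lit 70) (C.node (nat_lit 1) (nat_lit 6) (nat_lit 7) (C.cons (nat_lit 194) (C.node (nat_lit 1) (nat_lit 2) (nat_lit 7) (C.cons (nat_lit 390) (C.miq (nat_lit 824547440) (nat_lit 65292490675557123097953217)) (C.cons (nat_lit 134) (C.node (nat_lit 1) (nat_lit 2) (nat_lit 8) (C.cons (nat_lit 262) (C.node (nat_lit 1) (nat_lit 4) (nat_lit 7) (C.cons (nat_lit 402) (C.node (nat_lit 2) (nat_lit 5) (nat_lit 6) (C.cons (nat_lit 356) (C.node (nat_lit 2) (nat_lit 3) (nat_lit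 5) C.nil) C.nil)) C.nil)) C.nil)) C.nil))) C.nil)) C.nil))) C.nil)) (C.cons (nat_lit 38) (C.node (nat_lit 1) (nat_lit 2) (nat_lit 6) (C.cons (nat_lit 198) (C.node (nat_lit 1) (nat_lit 4) (nat_lit 5) (C.cons (nat_lit 178) (C.miq (nat_lit 846530068) (nat_lit 199483256455466178183299155)) (C.cons (nat_lit 50) (C.node (nat_lit 1) (nat_lit 5) (nat_lit 7) (C.cons (nat_lit 162) (C.node (nat_lit 2) (nat_lit 6) (nat_lit 9) (C.cons (nat_lit 596) (C.miq (nat_lit 1108579952) (nat_lit 16935457839742685712942017)) (C.cons (nat_lit 580) (C.node (nat_lit 4) (nat_lit 6) (nat_lit 9) C.nil) C.nil))) C.nil)) C.nil))) (C.cons (nat_lit 70) (C.node (nat_lit 1) (nat_lit 6) (nat_lit 7) (C.cons (nat_lit 194) (C.node (nat_lit 1) (nat_lit 4) (nat_lit 5) (C.cons (nat_lit 178) (C.node (nat_lit 1) (nat_lit 2) (nat_lit 7) (C.cons (nat_lit 390) (C.miq (nat_lit 824547440) (nat_lit 45949677561723056302654401)) (C.cons (nat_lit 134) (C.node (nat_lit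 1) (nat_lit 7) (nat_lit 8) (C.cons (nat_lit 386) (C.node (nat_lit 1) (nat_lit 2) (nat_lit 4) (C.cons (nat_lit 278) (C.node (nat_lit 2) (nat_lit 8) (nat_lit 9) (C.cons (nat_lit 772) (C.node (nat_lit 4) (nat_lit 8) (nat_lit 9) C.nil) C.nil)) C.nil)) C.nil)) C.nil))) (C.cons (nat_lit 50) (C.node (nat_lit 1) (nat_lit 5) (nat_lit 7) (C.cons (nat_lit 162) (C.node (nat_lit 1) (nat_lit 7) (nat_lit 8) (C.cons (nat_lit 406) (C.miq (nat_lit 824547440) (nat_lit 45949677561723125022131137)) (C.cons (nat_lit 402) (C.node (nat_lit 1) (nat_lit 2) (nat_lit 4) C.nil) (C.cons (nat_lit 390) (C.miq (nat_lit 824547440) (nat_lit 45949677561723056302654401)) C.nil)))) C.nil)) C.nil))) C.nil)) C.nil))) C.nil))) C.nil)) C.nil)) C.nil)) (C.cons (nat_lit 578) (C.node (nat_lit 1) (nat_lit 5) (nat_lit 9) (C.cons (nat_lit 674) (C.node (nat_lit 1) (nat_lit 6) (nat_lit 7) (C.cons (nat_lit 198) (C.miq (nat_lit 1361287008) (nat_lit 16935457861697733892309953))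 (C.cons (nat_lit 194) (C.node (nat_lit 2) (nat_lit 5) (nat_lit 9) (C.cons (nat_lit 612) (C.miq (nat_lit 588603513) (nat_lit 50786173852861705834595265)) (C.cons (nat_lit 548) (C.node (nat_lit 5) (nat_lit 6) (nat_lit 9) (C.cons (nat_lit 608) (C.node (nat_lit 3) (nat_lit 5) (nat_lit 7) (C.cons (nat_lit 424) (C.miq (nat_lit 557123975) (nat_lit 50777928282675441838851009)) (C.cons (nat_lit 232) (C.miq (nat_lit 559090038) (nat_lit 50776304969196508709127105)) (C.cons (nat_lit 168) (C.node (nat_lit 1) (nat_lit 2) (nat_lit 6) (C.cons (nat_lit 102) (C.node (nat_lit 1) (nat_lit 4) (nat_lit 5) (C.cons (nat_lit 50) (C.node (nat_lit 2) (nat_lit 7) (nat_lit 6) (C.cons (nat_lit 212) (C.node (nat_lit 2) (nat_lit 7) (nat_lit 9) (C.cons (nat_lit 644) (C.node (nat_lit 2) (nat_lit 8) (nat_lit 6) (C.cons (nat_lit 324) (C.node (nat_lit 2) (nat_lit 6) (nat_lit 9) (C.cons (nat_lit 580) (C.node (nat_lit 7) (nat_lit 6) (nat_lit 5) C.nil)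 C.nil)) C.nil)) C.nil)) (C.cons (nat_lit 196) (C.node (nat_lit 2) (nat_lit 7) (nat_lit 9) (C.cons (nat_lit 660) (C.node (nat_lit 2) (nat_lit 8) (nat_lit 9) (C.cons (nat_lit 772) (C.node (nat_lit 2) (nat_lit 6) (nat_lit 9) (C.cons (nat_lit 580) (C.node (nat_lit 6) (nat_lit 4) (nat_lit 9) C.nil) C.nil)) C.nil)) (C.cons (nat_lit 644) (C.node (nat_lit 7) (nat_lit 4) (nat_lit 9) (C.cons (nat_lit 656) (C.node (nat_lit 2) (nat_lit 5) (nat_lit 3) C.nil) C.nil)) C.nil))) C.nil))) C.nil)) (C.cons (nat_lit 70)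
  (C.node (nat_lit 1) (nat_lit 5) (nat_lit 6) (C.cons (nat_lit 98) (C.node (nat_lit 3) (nat_lit 5) (nat_lit 6) (C.cons (nat_lit 360) (C.node (nat_lit 2) (nat_lit 3) (nat_lit 5) C.nil) C.nil)) C.nil)) C.nil))) C.nil)))) C.nil)) C.nil))) C.nil))) (C.cons (nat_lit 546) (C.node (nat_lit 1) (nat_lit 7) (nat_lit 9) (C.cons (nat_lit 642) (C.node (nat_lit 5) (nat_lit 7) (nat_lit 9) (C.cons (nat_lit 672) (C.ref (nat_lit 53) (nat_lit 654820258320)) C.nil)) C.nil)) C.nil))) C.nil))) C.nil))) C.nil))) C.nil)) C.nil))) C.nil))) C.nil)) C.nil))) C.nil))) C.nil))) (C.cons (nat_lit 522) (C.ref (nat_lit 55) (nat_lit 654820258320)) C.nil))) C.nil))) List.nil)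

theorem ok10_56 : okL par10 (nat_lit 57) c10_56 (nat_lit 56) = true := by decide +kernel

noncomputable def c10_57 : List C :=
  (List.cons (C.qs (C.cons (nat_lit 2368) (C.pat (nat_lit 1) (nat_lit 1748458017) (nat_lit 1511034524265853526213086234955546889)) (C.cons (nat_lit 400) (C.pat (nat_lit 1) (nat_lit 946493729) (nat_lit 1510979381397052459198904685490930625)) (C.cons (nat_lit 2312) (C.ref (nat_lit 56) (nat_lit 654820258320)) (C.cons (nat_lit 2120) (C.pat (nat_lit 1) (nat_lit 1416849953) (nat_lit 431005720250903787883176127194005649)) (C.cons (nat_lit 328) (C.pat (nat_lit 1) (nat_lit 2793752369) (nat_lit 430968324741954665169117012679001025)) (C.cons (nat_lit 2376) (C.pat (nat_lit 1) (nat_lit 1748458017) (nat_lit 1511034524265853526213086234955546889)) (C.cons (nat_lit 1064) (C.pat (nat_lit 1) (nat_lit 1952082209) (nat_lit 430972127693770402372339784166998585)) (C.cons (nat_lit 580) (C.pat (nat_lit 1) (nat_lit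 1450854689) (nat_lit 430968324558205761979034765354140609)) (C.cons (nat_lit 324) (C.pat (nat_lit 2) (nat_lit 45216785491) (nat_lit 468371797270651111884465995533281945991054273)) (C.cons (nat_lit 578) (C.pat (nat_lit 1) (nat_lit 1698335009) (nat_lit 1510966071133457139812285098041344569)) (C.cons (nat_lit 74) (C.pat (nat_lit 2) (nat_lit 34680896101) (nat_lit 5820520698989782329900375662209259840510951563)) (C.cons (nat_lit 2113) (C.pat (nat_lit 0) (nat_lit 177755713) (nat_lit 76138381447048652340039245824083)) (C.cons (nat_lit 577) (C.ref (nat_lit 56) (nat_lit 654820258320)) C.nil)))))))))))))) (List.cons (C.node (nat_lit 0) (nat_lit 2) (nat_lit 5) (C.cons (nat_lit 165) (C.node (nat_lit 0) (nat_lit 4) (nat_lit 7) (C.cons (nat_lit 145) (C.node (nat_lit 0) (nat_lit 2) (nat_lit 4) (C.cons (nat_lit 21) (C.node (nat_lit 0) (nat_lit 2) (nat_lit 8) (C.cons (nat_lit 261) (C.node (nat_lit 0) (nat_lit 4) (nat_lit 8) (C.cons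 (nat_lit 273) (C.ref (nat_lit 57) (nat_lit 654820258320)) C.nil)) C.nil)) C.nil)) C.nil)) (C.cons (nat_lit 37) (C.node (nat_lit 0) (nat_lit 5) (nat_lit 7) (C.cons (nat_lit 161) (C.node (nat_lit 0) (nat_lit 2) (nat_lit 7) (C.cons (nat_lit 149) (C.pat (nat_lit 0) (nat_lit 73873697) (nat_lit 76138952057747975692308565393927)) (C.cons (nat_lit 133) (C.node (nat_lit 0) (nat_lit 4) (nat_lit 7) (C.cons (nat_lit 145) (C.node (nat_lit 0) (nat_lit 2) (nat_lit 4) (C.cons (nat_lit 277) (C.ref (nat_lit 57) (nat_lit 650288382480)) C.nil)) C.nil)) C.nil))) C.nil)) C.nil))) (List.cons (C.node (nat_lit 0) (nat_lit 1) (nat_lit 8) (C.cons (nat_lit 259) (C.node (nat_lit 0) (nat_lit 4) (nat_lit 7) (C.cons (nat_lit 149) (C.pat (nat_lit 0) (nat_lit 73873697) (nat_lit 76138952057747975692308565393927)) (C.cons (nat_lit 145) (C.node (nat_lit 0) (nat_lit 2) (nat_lit 4) (C.cons (nat_lit 277) (C.node (nat_lit 0) (nat_lit 5) (nat_lit 8) (C.cons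 (nat_lit 289) (C.node (nat_lit 0) (nat_lit 2) (nat_lit 5) (C.cons (nat_lit 165) (C.ref (nat_lit 57) (nat_lit 654567616800)) C.nil)) C.nil)) (C.cons (nat_lit 21) (C.node (nat_lit 0) (nat_lit 4) (nat_lit 8) C.nil) C.nil))) C.nil))) C.nil)) (List.cons (C.node (nat_lit 0) (nat_lit 2) (nat_lit 4) (C.cons (nat_lit 149) (C.node (nat_lit 0) (nat_lit 5) (nat_lit 7) (C.cons (nat_lit 161) (C.node (nat_lit 0) (nat_lit 2) (nat_lit 5) (C.cons (nat_lit 293) (C.ref (nat_lit 57) (nat_lit 646261850400)) C.nil)) C.nil)) (C.cons (nat_lit 21) (C.node (nat_lit 0) (nat_lit 4) (nat_lit 7) C.nil) C.nil))) (List.cons (C.node (nat_lit 0) (nat_lit 4) (nat_lit 6) (C.cons (nat_lit 83) (C.node (nat_lit 0) (nat_lit 5) (nat_lit 6) (C.cons (nat_lit 97) (C.node (nat_lit 0) (nat_lit 1) (nat_lit 5) (C.cons (nat_lit 291) (C.ref (nat_lit 58) (nat_lit 654820258320)) (C.cons (nat_lit 35) (C.ref (nat_lit 59) (nat_lit 654820258320)) C.nil))) C.nil)) (C.cons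 (nat_lit 81) (C.node (nat_lit 0) (nat_lit 1) (nat_lit 4) (C.cons (nat_lit 275) (C.node (nat_lit 0) (nat_lit 1) (nat_lit 5) (C.cons (nat_lit 99) (C.ref (nat_lit 58) (nat_lit 654819275280)) (C.cons (nat_lit 35) (C.node (nat_lit 0) (nat_lit 1) (nat_lit 6) (C.cons (nat_lit 67) (C.node (nat_lit 0) (nat_lit 5) (nat_lit 6) (C.cons (nat_lit 97) (C.ref (nat_lit 60) (nat_lit 654820258320)) C.nil)) C.nil)) C.nil)))
  (C.cons (nat_lit 19) (C.node (nat_lit 0) (nat_lit 1) (nat_lit 6) (C.cons (nat_lit 99) (C.ref (nat_lit 59) (nat_lit 654819275280)) (C.cons (nat_lit 67) (C.node (nat_lit 0) (nat_lit 5) (nat_lit 6) (C.cons (nat_lit 97) (C.node (nat_lit 0) (nat_lit 1) (nat_lit 5) (C.cons (nat_lit 291) (C.ref (nat_lit 60) (nat_lit 654819275280)) (C.cons (nat_lit 35) (C.node (nat_lit 0) (nat_lit 1) (nat_lit 8) C.nil) C.nil))) C.nil)) C.nil))) C.nil))) C.nil))) (List.cons (C.node (nat_lit 0) (nat_lit 1) (nat_lit 7) (C.cons (nat_lit 163)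 (C.node (nat_lit 0) (nat_lit 1) (nat_lit 8) (C.cons (nat_lit 259) (C.ref (nat_lit 60) (nat_lit 641083073040)) C.nil)) (C.cons (nat_lit 131) (C.node (nat_lit 0) (nat_lit 1) (nat_lit 8) (C.cons (nat_lit 291) (C.ref (nat_lit 60) (nat_lit 641082090000)) (C.cons (nat_lit 259) (C.node (nat_lit 0) (nat_lit 1) (nat_lit 5) C.nil) C.nil))) C.nil))) (List.cons (C.node (nat_lit 0) (nat_lit 4) (nat_lit 6) (C.cons (nat_lit 83) (C.node (nat_lit 0) (nat_lit 5) (nat_lit 6) (C.cons (nat_lit 97) (C.ref (nat_lit 62) (nat_lit 654820258320)) C.nil)) (C.cons (nat_lit 81) (C.node (nat_lit 0) (nat_lit 1) (nat_lit 6) (C.cons (nat_lit 99) (C.ref (nat_lit 62) (nat_lit 654819275280)) (C.cons (nat_lit 67) (C.node (nat_lit 0) (nat_lit 5) (nat_lit 6) (C.cons (nat_lit 97) (C.node (nat_lit 0) (nat_lit 1) (nat_lit 4) (C.cons (nat_lit 275) (C.node (nat_lit 0) (nat_lit 1) (nat_lit 5) (C.cons (nat_lit 163) (C.node (nat_lit 0) (nat_lit 2) (nat_lit 4)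 (C.cons (nat_lit 149) (C.node (nat_lit 0) (nat_lit 2) (nat_lit 5) (C.cons (nat_lit 293) (C.pat (nat_lit 0) (nat_lit 91769121) (nat_lit 76138952060404327105464670290439)) C.nil)) C.nil)) C.nil)) (C.cons (nat_lit 147) (C.node (nat_lit 0) (nat_lit 1) (nat_lit 5) (C.cons (nat_lit 291) (C.node (nat_lit 0) (nat_lit 2) (nat_lit 4) (C.cons (nat_lit 277) (C.node (nat_lit 0) (nat_lit 2) (nat_lit 5) (C.cons (nat_lit 165) (C.pat (nat_lit 0) (nat_lit 92752161) (nat_lit 76138952058043179893376614072839)) C.nil)) C.nil)) C.nil)) C.nil))) C.nil)) C.nil))) C.nil))) (List.cons (C.node (nat_lit 0) (nat_lit 1) (nat_lit 3) (C.cons (nat_lit 267) (C.ref (nat_lit 61) (nat_lit 650793726480)) (C.cons (nat_lit 11) (C.node (nat_lit 0) (nat_lit 3) (nat_lit 8) (C.cons (nat_lit 265) (C.ref (nat_lit 63) (nat_lit 654820258320)) C.nil)) C.nil))) (List.cons (C.node (nat_lit 0) (nat_lit 3) (nat_lit 7) (C.cons (nat_lit 139) (C.node (nat_lit 0) (nat_lit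 3) (nat_lit 8) (C.cons (nat_lit 265) (C.ref (nat_lit 61) (nat_lit 654820258320)) C.nil)) (C.cons (nat_lit 137) (C.ref (nat_lit 64) (nat_lit 654820258320)) C.nil))) (List.cons (C.node (nat_lit 0) (nat_lit 1) (nat_lit 7) (C.cons (nat_lit 147) (C.node (nat_lit 0) (nat_lit 1) (nat_lit 8) (C.cons (nat_lit 259) (C.node (nat_lit 0) (nat_lit 2) (nat_lit 6) (C.cons (nat_lit 85) (C.node (nat_lit 0) (nat_lit 4) (nat_lit 8) C.nil) C.nil)) C.nil)) (C.cons (nat_lit 131) (C.node (nat_lit 0) (nat_lit 1) (nat_lit 4) (C.cons (nat_lit 275) (C.node (nat_lit 0) (nat_lit 2) (nat_lit 6) (C.cons (nat_lit 85) (C.node (nat_lit 0) (nat_lit 4) (nat_lit 7) C.nil) C.nil)) C.nil)) C.nil))) (List.cons (C.node (nat_lit 0) (nat_lit 4) (nat_lit 7) (C.cons (nat_lit 149) (C.node (nat_lit 0) (nat_lit 4) (nat_lit 8) (C.cons (nat_lit 273) (C.node (nat_lit 0) (nat_lit 5) (nat_lit 7) (C.cons (nat_lit 161) (C.node (nat_lit 0) (nat_lit 1) (nat_lit 2) (C.cons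 (nat_lit 263) (C.node (nat_lit 0) (nat_lit 1) (nat_lit 5) C.nil) (C.cons (nat_lit 39) (C.node (nat_lit 0) (nat_lit 1) (nat_lit 8) C.nil) C.nil))) C.nil)) C.nil)) (C.cons (nat_lit 145) (C.node (nat_lit 0) (nat_lit 2) (nat_lit 4) (C.cons (nat_lit 277) (C.node (nat_lit 0) (nat_lit 1) (nat_lit 2) (C.cons (nat_lit 39) (C.node (nat_lit 0) (nat_lit 1) (nat_lit 8) (C.cons (nat_lit 259) (C.node (nat_lit 0) (nat_lit 2) (nat_lit 7) C.nil) C.nil)) (C.cons (nat_lit 7) (C.node (nat_lit 0) (nat_lit 1) (nat_lit 5) (C.cons (nat_lit 291) (C.node (nat_lit 0) (nat_lit 2) (nat_lit 5) (C.cons (nat_lit 165)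
  (C.pat (nat_lit 1) (nat_lit 677664561) (nat_lit 1510980332134995177886348397298385857)) C.nil)) C.nil)) C.nil))) (C.cons (nat_lit 21) (C.node (nat_lit 0) (nat_lit 4) (nat_lit 8) C.nil) C.nil))) C.nil))) (List.cons (C.node (nat_lit 0) (nat_lit 4) (nat_lit 6) (C.cons (nat_lit 83) (C.node (nat_lit 0) (nat_lit 5) (nat_lit 6) (C.cons (nat_lit 97) (C.ref (nat_lit 67) (nat_lit 654820258320)) C.nil)) (C.cons (nat_lit 81) (C.node (nat_lit 0) (nat_lit 1) (nat_lit 6) (C.cons (nat_lit 99) (C.ref (nat_lit 67) (nat_lit 654819275280)) (C.cons (nat_lit 67) (C.node (nat_lit 0) (nat_lit 5) (nat_lit 6) (C.cons (nat_lit 97) (C.node (nat_lit 0) (nat_lit 4) (nat_lit 7) (C.cons (nat_lit 149) (C.node (nat_lit 0) (nat_lit 5) (nat_lit 7) C.nil) C.nil)) C.nil)) C.nil))) C.nil))) (List.cons (C.node (nat_lit 0) (nat_lit 4) (nat_lit 6) (C.cons (nat_lit 83) (C.node (nat_lit 0) (nat_lit 5) (nat_lit 6) (C.cons (nat_lit 97) (C.node (nat_lit 0)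 (nat_lit 7) (nat_lit 4) (C.cons (nat_lit 149) (C.node (nat_lit 0) (nat_lit 8) (nat_lit 4) C.nil) C.nil)) C.nil)) (C.cons (nat_lit 81) (C.node (nat_lit 0) (nat_lit 1) (nat_lit 6) (C.cons (nat_lit 99) (C.node (nat_lit 0) (nat_lit 7) (nat_lit 5) (C.cons (nat_lit 165) (C.node (nat_lit 0) (nat_lit 8) (nat_lit 5) C.nil) C.nil)) C.nil)) C.nil))) (List.cons (C.node (nat_lit 0) (nat_lit 1) (nat_lit 3) (C.cons (nat_lit 267) (C.ref (nat_lit 68) (nat_lit 650793726480)) (C.cons (nat_lit 11) (C.node (nat_lit 0) (nat_lit 3) (nat_lit 8) (C.cons (nat_lit 265) (C.ref (nat_lit 69) (nat_lit 654820258320)) C.nil)) C.nil))) (List.cons (C.node (nat_lit 0) (nat_lit 1) (nat_lit 7) (C.cons (nat_lit 147) (C.node (nat_lit 0) (nat_lit 1) (nat_lit 8) (C.cons (nat_lit 259) (C.node (nat_lit 0) (nat_lit 2) (nat_lit 6) (C.cons (nat_lit 85) (C.node (nat_lit 0) (nat_lit 4) (nat_lit 8) C.nil) C.nil)) C.nil)) (C.cons (nat_lit 131) (C.node (nat_lit 0)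 (nat_lit 1) (nat_lit 4) (C.cons (nat_lit 275) (C.node (nat_lit 0) (nat_lit 2) (nat_lit 6) (C.cons (nat_lit 85) (C.node (nat_lit 0) (nat_lit 4) (nat_lit 7) C.nil) C.nil)) C.nil)) C.nil))) (List.cons (C.big (C.cons (nat_lit 295) (C.ref (nat_lit 51) (nat_lit 654820258320)) (C.cons (nat_lit 279) (C.ref (nat_lit 51) (nat_lit 654819275280)) (C.cons (nat_lit 271) (C.ref (nat_lit 51) (nat_lit 654818230800)) (C.cons (nat_lit 167) (C.ref (nat_lit 51) (nat_lit 650793726480)) (C.cons (nat_lit 151) (C.ref (nat_lit 51) (nat_lit 650792743440)) (C.cons (nat_lit 143) (C.ref (nat_lit 51) (nat_lit 650791698960)) (C.cons (nat_lit 103) (C.ref (nat_lit 51) (nat_lit 646515536400)) (C.cons (nat_lit 87) (C.ref (nat_lit 51) (nat_lit 646514553360)) (C.cons (nat_lit 79) (C.ref (nat_lit 51) (nat_lit 646513508880)) C.nil))))))))) (C.node (nat_lit 0) (nat_lit 1) (nat_lit 9) (C.cons (nat_lit 519) (C.node (nat_lit 0) (nat_lit 3) (nat_lit 6) (C.cons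 (nat_lit 77) (C.ref (nat_lit 65) (nat_lit 654820258320)) (C.cons (nat_lit 75) (C.ref (nat_lit 65) (nat_lit 654820258080)) (C.cons (nat_lit 73) (C.node (nat_lit 0) (nat_lit 1) (nat_lit 3) (C.cons (nat_lit 267) (C.ref (nat_lit 64) (nat_lit 650290409760)) (C.cons (nat_lit 139) (C.ref (nat_lit 64) (nat_lit 654568599840)) (C.cons (nat_lit 11) (C.node (nat_lit 0) (nat_lit 3) (nat_lit 7) (C.cons (nat_lit 141) (C.node (nat_lit 0) (nat_lit 3) (nat_lit 8) (C.cons (nat_lit 265) (C.ref (nat_lit 63) (nat_lit 654568600080)) C.nil)) (C.cons (nat_lit 137) (C.node (nat_lit 0) (nat_lit 2) (nat_lit 3) (C.cons (nat_lit 269) (C.ref (nat_lit 63) (nat_lit 650290410000)) (C.cons (nat_lit 13) (C.node (nat_lit 0) (nat_lit 3) (nat_lit 8) (C.cons (nat_lit 265) (C.node (nat_lit 0) (nat_lit 1) (nat_lit 6) (C.cons (nat_lit 99) (C.ref (nat_lit 66) (nat_lit 654820258320)) (C.cons (nat_lit 83) (C.ref (nat_lit 66) (nat_lit 654819275280)) (C.cons (nat_lit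 67) (C.node (nat_lit 0) (nat_lit 4) (nat_lit 6) (C.cons (nat_lit 85) (C.node (nat_lit 0) (nat_lit 5) (nat_lit 6) C.nil) C.nil)) C.nil)))) C.nil)) C.nil))) C.nil))) C.nil)))) C.nil)))) (C.cons (nat_lit 515) (C.node (nat_lit 0) (nat_lit 2) (nat_lit 9) (C.cons (nat_lit 517)
  (C.node (nat_lit 0) (nat_lit 3) (nat_lit 6) (C.cons (nat_lit 77) (C.node (nat_lit 0) (nat_lit 3) (nat_lit 7) (C.cons (nat_lit 139) (C.node (nat_lit 0) (nat_lit 3) (nat_lit 8) (C.cons (nat_lit 265) (C.ref (nat_lit 68) (nat_lit 654820258320)) C.nil)) (C.cons (nat_lit 137) (C.ref (nat_lit 70) (nat_lit 654820258320)) C.nil))) (C.cons (nat_lit 75) (C.node (nat_lit 0) (nat_lit 3) (nat_lit 7) (C.cons (nat_lit 141) (C.node (nat_lit 0) (nat_lit 3) (nat_lit 8) (C.cons (nat_lit 265) (C.ref (nat_lit 68) (nat_lit 654820258080)) C.nil)) (C.cons (nat_lit 137) (C.ref (nat_lit 70) (nat_lit 654820258080)) C.nil))) (C.cons (nat_lit 73) (C.node (nat_lit 0) (nat_lit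 3) (nat_lit 7) (C.cons (nat_lit 141) (C.ref (nat_lit 70) (nat_lit 654568600080)) (C.cons (nat_lit 139) (C.ref (nat_lit 70) (nat_lit 654568599840)) (C.cons (nat_lit 137) (C.node (nat_lit 0) (nat_lit 1) (nat_lit 3) (C.cons (nat_lit 267) (C.node (nat_lit 0) (nat_lit 2) (nat_lit 3) (C.cons (nat_lit 13) (C.ref (nat_lit 69) (nat_lit 650290409760)) C.nil)) (C.cons (nat_lit 15) (C.node (nat_lit 0) (nat_lit 3) (nat_lit 8) (C.cons (nat_lit 265) (C.node (nat_lit 0) (nat_lit 1) (nat_lit 6) (C.cons (nat_lit 99) (C.ref (nat_lit 71) (nat_lit 654820258320)) (C.cons (nat_lit 83) (C.ref (nat_lit 71) (nat_lit 654819275280)) (C.cons (nat_lit 67) (C.node (nat_lit 0) (nat_lit 4) (nat_lit 6) (C.cons (nat_lit 85) (C.node (nat_lit 0) (nat_lit 5) (nat_lit 6) C.nil) C.nil)) C.nil)))) C.nil)) (C.cons (nat_lit 11) (C.node (nat_lit 0) (nat_lit 2) (nat_lit 3) (C.cons (nat_lit 269) (C.ref (nat_lit 69) (nat_lit 650290410000)) (C.cons (nat_lit 13)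 (C.node (nat_lit 0) (nat_lit 3) (nat_lit 8) C.nil) C.nil))) C.nil)))) C.nil)))) C.nil)))) C.nil)) C.nil)))) (List.cons (C.node (nat_lit 0) (nat_lit 3) (nat_lit 6) (C.cons (nat_lit 73) (C.node (nat_lit 0) (nat_lit 4) (nat_lit 6) (C.cons (nat_lit 81) (C.node (nat_lit 0) (nat_lit 5) (nat_lit 6) (C.cons (nat_lit 97) (C.node (nat_lit 0) (nat_lit 3) (nat_lit 7) (C.cons (nat_lit 139) (C.node (nat_lit 0) (nat_lit 3) (nat_lit 8) C.nil) C.nil)) C.nil)) C.nil)) C.nil)) (List.cons (C.big C.nil (C.node (nat_lit 0) (nat_lit 2) (nat_lit 6) (C.cons (nat_lit 71) (C.node (nat_lit 0) (nat_lit 2) (nat_lit 7) (C.cons (nat_lit 133) (C.node (nat_lit 0) (nat_lit 2) (nat_lit 8) (C.cons (nat_lit 261) (C.node (nat_lit 0) (nat_lit 2) (nat_lit 9) (C.cons (nat_lit 517) (C.ref (nat_lit 73) (nat_lit 654820258320)) C.nil)) C.nil)) C.nil)) (C.cons (nat_lit 69) (C.node (nat_lit 0) (nat_lit 2) (nat_lit 7) (C.cons (nat_lit 135) (C.node (nat_lit 0) (nat_lit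 2) (nat_lit 8) (C.cons (nat_lit 261) (C.node (nat_lit 0) (nat_lit 2) (nat_lit 9) (C.cons (nat_lit 517) (C.ref (nat_lit 73) (nat_lit 654568600080)) C.nil)) C.nil)) (C.cons (nat_lit 133) (C.node (nat_lit 0) (nat_lit 2) (nat_lit 8) (C.cons (nat_lit 263) (C.node (nat_lit 0) (nat_lit 2) (nat_lit 9) (C.cons (nat_lit 517) (C.ref (nat_lit 73) (nat_lit 650290410000)) C.nil)) (C.cons (nat_lit 261) (C.node (nat_lit 0) (nat_lit 1) (nat_lit 2) (C.cons (nat_lit 519) (C.ref (nat_lit 73) (nat_lit 581587710480)) (C.cons (nat_lit 7) (C.node (nat_lit 0) (nat_lit 2) (nat_lit 9) (C.cons (nat_lit 517) (C.node (nat_lit 0) (nat_lit 3) (nat_lit 6) (C.cons (nat_lit 75) (C.node (nat_lit 0) (nat_lit 3) (nat_lit 7) (C.cons (nat_lit 137) (C.node (nat_lit 0) (nat_lit 3) (nat_lit 8) C.nil) C.nil)) (C.cons (nat_lit 73) (C.node (nat_lit 0) (nat_lit 3) (nat_lit 7) (C.cons (nat_lit 139) (C.node (nat_lit 0) (nat_lit 3) (nat_lit 8) C.nil) C.nil)) C.nil)))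 C.nil)) C.nil))) C.nil))) C.nil))) C.nil)))) (List.cons (C.node (nat_lit 1) (nat_lit 3) (nat_lit 6) (C.cons (nat_lit 586) (C.node (nat_lit 1) (nat_lit 4) (nat_lit 6) (C.cons (nat_lit 82) (C.node (nat_lit 1) (nat_lit 3) (nat_lit 7) (C.cons (nat_lit 170) (C.node (nat_lit 1) (nat_lit 7) (nat_lit 9) (C.cons (nat_lit 642) (C.node (nat_lit 3) (nat_lit 7) (nat_lit 9) (C.cons (nat_lit 648) (C.node (nat_lit 1) (nat_lit 2) (nat_lit 3) (C.cons (nat_lit 30) (C.miq (nat_lit 1899586112) (nat_lit 708448257670959705529843797)) (C.cons (nat_lit 14)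
  (C.node (nat_lit 1) (nat_lit 3) (nat_lit 4) C.nil) C.nil))) C.nil)) C.nil)) (C.cons (nat_lit 138) (C.node (nat_lit 1) (nat_lit 5) (nat_lit 7) (C.cons (nat_lit 674) (C.node (nat_lit 3) (nat_lit 7) (nat_lit 9) (C.cons (nat_lit 648) (C.node (nat_lit 2) (nat_lit 7) (nat_lit 9) (C.cons (nat_lit 660) (C.miq (nat_lit 2483384929) (nat_lit 59249798452396359506133190)) (C.cons (nat_lit 644) (C.node (nat_lit 4) (nat_lit 7) (nat_lit 9) (C.cons (nat_lit 656) (C.node (nat_lit 2) (nat_lit 4) (nat_lit 7) (C.cons (nat_lit 148) (C.node (nat_lit 2) (nat_lit 5) (nat_lit 7) C.nil) C.nil)) C.nil)) C.nil))) C.nil)) (C.cons (nat_lit 162) (C.node (nat_lit 1) (nat_lit 7) (nat_lit 9) (C.cons (nat_lit 642) (C.node (nat_lit 1) (nat_lit 2) (nat_lit 3) (C.cons (nat_lit 14) (C.node (nat_lit 1) (nat_lit 2) (nat_lit 4) C.nil) C.nil)) C.nil)) C.nil))) C.nil))) C.nil)) (C.cons (nat_lit 90) (C.node (nat_lit 1) (nat_lit 6) (nat_lit 9) (C.cons (nat_lit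 578) (C.node (nat_lit 1) (nat_lit 2) (nat_lit 3) (C.cons (nat_lit 46) (C.node (nat_lit 1) (nat_lit 2) (nat_lit 4) (C.cons (nat_lit 22) (C.node (nat_lit 1) (nat_lit 3) (nat_lit 7) (C.cons (nat_lit 650) (C.miq (nat_lit 824481632) (nat_lit 26606274116049009143776193)) (C.cons (nat_lit 138) (C.node (nat_lit 1) (nat_lit 3) (nat_lit 9) C.nil) C.nil))) C.nil)) (C.cons (nat_lit 14) (C.node (nat_lit 1) (nat_lit 2) (nat_lit 4) (C.cons (nat_lit 54) (C.node (nat_lit 1) (nat_lit 5) (nat_lit 8) (C.cons (nat_lit 802) (C.miq (nat_lit 2437317920) (nat_lit 108821051312114623858409765)) (C.cons (nat_lit 290) (C.node (nat_lit 1) (nat_lit 7) (nat_lit 9) (C.cons (nat_lit 682) (C.miq (nat_lit 824481632) (nat_lit 65291900352724341989114817)) (C.cons (nat_lit 674) (C.miq (nat_lit 2420471329) (nat_lit 59249798537120327493091526)) (C.cons (nat_lit 650) (C.miq (nat_lit 824481632) (nat_lit 65291900343717142734373825)) C.nil)))) C.nil))) (C.cons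 (nat_lit 22) (C.node (nat_lit 1) (nat_lit 2) (nat_lit 5) (C.cons (nat_lit 38) (C.node (nat_lit 1) (nat_lit 3) (nat_lit 5) (C.cons (nat_lit 42) (C.node (nat_lit 1) (nat_lit 3) (nat_lit 7) C.nil) C.nil)) C.nil)) C.nil))) C.nil))) C.nil)) (C.cons (nat_lit 74) (C.node (nat_lit 1) (nat_lit 4) (nat_lit 6) (C.cons (nat_lit 594) (C.node (nat_lit 2) (nat_lit 3) (nat_lit 8) (C.cons (nat_lit 780) (C.miq (nat_lit 1764889607) (nat_lit 942965791921935793334845587)) (C.cons (nat_lit 284) (C.miq (nat_lit 305424137) (nat_lit 343345890192267120104506305)) (C.cons (nat_lit 268) (C.node (nat_lit 1) (nat_lit 4) (nat_lit 8) (C.cons (nat_lit 306) (C.node (nat_lit 1) (nat_lit 8) (nat_lit 9) (C.cons (nat_lit 770) (C.node (nat_lit 1) (nat_lit 2) (nat_lit 4) (C.cons (nat_lit 30) (C.node (nat_lit 1) (nat_lit 2) (nat_lit 5) (C.cons (nat_lit 38) (C.node (nat_lit 2) (nat_lit 4) (nat_lit 8) (C.cons (nat_lit 788) (C.miq (nat_lit 605391200) (nat_lit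 369936705919894957223773121)) (C.cons (nat_lit 276) (C.node (nat_lit 2) (nat_lit 8) (nat_lit 9) C.nil) C.nil))) C.nil)) (C.cons (nat_lit 22) (C.miq (nat_lit 873597287) (nat_lit 26598969173590848607486913)) C.nil))) C.nil)) (C.cons (nat_lit 274) (C.node (nat_lit 1) (nat_lit 5) (nat_lit 8) (C.cons (nat_lit 802) (C.node (nat_lit 3) (nat_lit 8) (nat_lit 9) (C.cons (nat_lit 776) (C.node (nat_lit 2) (nat_lit 4) (nat_lit 8) C.nil) C.nil)) (C.cons (nat_lit 290) (C.node (nat_lit 1) (nat_lit 8) (nat_lit 9) C.nil) C.nil))) C.nil))) C.nil)))) (C.cons (nat_lit 82) (C.node (nat_lit 1) (nat_lit 6) (nat_lit 9) (C.cons (nat_lit 578) (C.node (nat_lit 4) (nat_lit 6) (nat_lit 9) (C.cons (nat_lit 624) (C.node (nat_lit 2) (nat_lit 6) (nat_lit 9) (C.cons (nat_lit 588) (C.miq (nat_lit 378827312) (nat_lit 754372423166642011185414285)) (C.cons (nat_lit 580) (C.node (nat_lit 3) (nat_lit 6) (nat_lit 9) (C.cons (nat_lit 584) (C.node (nat_lit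 2) (nat_lit 3) (nat_lit 6) C.nil) C.nil)) C.nil))) (C.cons (nat_lit 592) (C.node (nat_lit 1) (nat_lit 2) (nat_lit 3) (C.cons (nat_lit 62) (C.miq (nat_lit 2517894947) (nat_lit 99141823380465477381652621)) (C.cons (nat_lit 46) (C.node (nat_lit 1) (nat_lit 2) (nat_lit 4)
  (C.cons (nat_lit 22) (C.node (nat_lit 1) (nat_lit 3) (nat_lit 4) (C.cons (nat_lit 26) (C.node (nat_lit 1) (nat_lit 3) (nat_lit 7) C.nil) C.nil)) C.nil)) (C.cons (nat_lit 30) (C.miq (nat_lit 2517894947) (nat_lit 99141823380465477379555469)) (C.cons (nat_lit 14) (C.node (nat_lit 1) (nat_lit 2) (nat_lit 4) (C.cons (nat_lit 54) (C.node (nat_lit 1) (nat_lit 3) (nat_lit 4) (C.cons (nat_lit 26) (C.node (nat_lit 1) (nat_lit 4) (nat_lit 8) C.nil) C.nil)) (C.cons (nat_lit 22) (C.node (nat_lit 1) (nat_lit 2) (nat_lit 5) C.nil) C.nil))) C.nil))))) C.nil))) C.nil)) C.nil))) C.nil)))) (List.cons (C.node (nat_lit 2) (nat_lit 5) (nat_lit 6) (C.cons (nat_lit 612)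 (C.miq (nat_lit 815077474) (nat_lit 658865420315358237139665222)) (C.cons (nat_lit 100) (C.node (nat_lit 3) (nat_lit 6) (nat_lit 8) (C.cons (nat_lit 376) (C.miq (nat_lit 2474706018) (nat_lit 322792767848433922326528085)) (C.cons (nat_lit 360) (C.miq (nat_lit 2521958449) (nat_lit 120902156092136171538088203)) (C.cons (nat_lit 344) (C.miq (nat_lit 2474706018) (nat_lit 322792767848433784887574613)) (C.cons (nat_lit 328) (C.node (nat_lit 1) (nat_lit 3) (nat_lit 4) (C.cons (nat_lit 90) (C.node (nat_lit 1) (nat_lit 6) (nat_lit 9) (C.cons (nat_lit 578) (C.node (nat_lit 2) (nat_lit 3) (nat_lit 4) (C.cons (nat_lit 284) (C.miq (nat_lit 1362626114) (nat_lit 322788598760985995805196373)) (C.cons (nat_lit 28) (C.node (nat_lit 2) (nat_lit 3) (nat_lit 8) (C.cons (nat_lit 780) (C.miq (nat_lit 2455143184) (nat_lit 120910309502068431759016203)) (C.cons (nat_lit 268) (C.node (nat_lit 2) (nat_lit 3) (nat_lit 6) (C.cons (nat_lit 76)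 (C.node (nat_lit 2) (nat_lit 3) (nat_lit 9) C.nil) C.nil)) C.nil))) C.nil))) C.nil)) (C.cons (nat_lit 26) (C.node (nat_lit 1) (nat_lit 3) (nat_lit 6) (C.cons (nat_lit 586) (C.miq (nat_lit 1482891409) (nat_lit 396528517466302055621198343)) (C.cons (nat_lit 74) (C.node (nat_lit 1) (nat_lit 3) (nat_lit 7) (C.cons (nat_lit 650) (C.node (nat_lit 1) (nat_lit 5) (nat_lit 7) C.nil) (C.cons (nat_lit 138) (C.node (nat_lit 1) (nat_lit 3) (nat_lit 9) (C.cons (nat_lit 522) (C.node (nat_lit 1) (nat_lit 4) (nat_lit 6) C.nil) C.nil)) C.nil))) C.nil))) C.nil))) C.nil))))) C.nil))) List.nil))))))))))))))))))))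

theorem ok10_57 : okL par10 (nat_lit 77) c10_57 (nat_lit 57) = true := by decide +kernel

noncomputable def c10_77 : List C :=
  (List.cons (C.node (nat_lit 1) (nat_lit 2) (nat_lit 6) (C.cons (nat_lit 326) (C.node (nat_lit 1) (nat_lit 2) (nat_lit 7) (C.cons (nat_lit 166) (C.node (nat_lit 1) (nat_lit 7) (nat_lit 8) (C.cons (nat_lit 386) (C.node (nat_lit 1) (nat_lit 2) (nat_lit 3) (C.cons (nat_lit 30) (C.miq (nat_lit 2551383588) (nat_lit 322793100009172424456011861)) (C.cons (nat_lit 14) (C.node (nat_lit 1) (nat_lit 2) (nat_lit 4) (C.cons (nat_lit 22) (C.node (nat_lit 1) (nat_lit 3) (nat_lit 7) (C.cons (nat_lit 650) (C.node (nat_lit 1) (nat_lit 6) (nat_lit 9) (C.cons (nat_lit 594) (C.miq (nat_lit 826440032) (nat_lit 26598969205397520968385473)) (C.cons (nat_lit 578) (C.node (nat_lit 1) (nat_lit 5) (nat_lit 9) (C.cons (nat_lit 818) (C.miq (nat_lit 1362266480) (nat_lit 16930366600867728031810497)) (C.cons (nat_lit 802)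 (C.miq (nat_lit 1362266480) (nat_lit 16930366596364128404440001)) (C.cons (nat_lit 562) (C.miq (nat_lit 1076204401) (nat_lit 354225632368408441051808394)) (C.cons (nat_lit 546) (C.node (nat_lit 1) (nat_lit 3) (nat_lit 5) (C.cons (nat_lit 58) (C.node (nat_lit 1) (nat_lit 3) (nat_lit 6) C.nil) C.nil)) C.nil))))) C.nil))) (C.cons (nat_lit 138) (C.node (nat_lit 1) (nat_lit 7) (nat_lit 9) (C.cons (nat_lit 642) (C.node (nat_lit 2) (nat_lit 7) (nat_lit 8) (C.cons (nat_lit 404) (C.node (nat_lit 2) (nat_lit 7) (nat_lit 9) (C.cons (nat_lit 644) (C.node (nat_lit 3) (nat_lit 7) (nat_lit 8) (C.cons (nat_lit 392) (C.node (nat_lit 5) (nat_lit 7) (nat_lit 8) C.nil) C.nil)) C.nil)) (C.cons (nat_lit 388) (C.node (nat_lit 2) (nat_lit 4) (nat_lit 7) (C.cons (nat_lit 660) (C.node (nat_lit 3) (nat_lit 7) (nat_lit 9) (C.cons (nat_lit 648) (C.node (nat_lit 5) (nat_lit 7) (nat_lit 9) C.nil) C.nil)) (C.cons (nat_lit 148) (C.node (nat_lit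 2) (nat_lit 7) (nat_lit 9) (C.cons (nat_lit 644) (C.node (nat_lit 3) (nat_lit 7) (nat_lit 9) C.nil) C.nil)) C.nil))) C.nil))) C.nil)) C.nil))) C.nil)) C.nil))) C.nil)) (C.cons (nat_lit 134) (C.node (nat_lit 1) (nat_lit 7) (nat_lit 8) (C.cons (nat_lit 418) (C.node (nat_lit 2) (nat_lit 7) (nat_lit 8) (C.cons (nat_lit 404) (C.miq (nat_lit 1652884593) (nat_lit 354217091398676753649107091)) (C.cons (nat_lit 388) (C.node (nat_lit 1) (nat_lit 2) (nat_lit 4) (C.cons (nat_lit 62) (C.miq (nat_lit 2551383588) (nat_lit 322793100009172424458109013)) (C.cons (nat_lit 54) (C.miq (nat_lit 1750206228) (nat_lit 354216833390831861419606163)) (C.cons (nat_lit 30) (C.miq (nat_lit 2551383588) (nat_lit 322793100009172424456011861)) (C.cons (nat_lit 22) (C.node (nat_lit 1) (nat_lit 2) (nat_lit 3) (C.cons (nat_lit 46) (C.node (nat_lit 1) (nat_lit 3) (nat_lit 7) (C.cons (nat_lit 650) (C.miq (nat_lit 898044425) (nat_lit 505342982995512013652820487))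 (C.cons (nat_lit 138) (C.node (nat_lit 1) (nat_lit 7) (nat_lit 9) (C.cons (nat_lit 642) (C.node (nat_lit 1) (nat_lit 3) (nat_lit 9) (C.cons (nat_lit 586) (C.miq (nat_lit 2421385249) (nat_lit 49576768666725701007573318)) (C.cons (nat_lit 522) (C.node (nat_lit 1) (nat_lit 3) (nat_lit 4) (C.cons (nat_lit 90) (C.node (nat_lit 1) (nat_lit 6) (nat_lit 9) C.nil) C.nil)) C.nil))) C.nil)) C.nil))) (C.cons (nat_lit 14) (C.node (nat_lit 1) (nat_lit 2) (nat_lit 5) (C.cons (nat_lit 38) (C.node (nat_lit 1) (nat_lit 3) (nat_lit 7) (C.cons (nat_lit 650) (C.node (nat_lit 1) (nat_lit 3) (nat_lit 5) (C.cons (nat_lit 58) (C.miq (nat_lit 2152036657) (nat_lit 59245076170639399173358218)) (C.cons (nat_lit 42) (C.node (nat_lit 1) (nat_lit 6) (nat_lit 9) (C.cons (nat_lit 594) (C.miq (nat_lit 826440032) (nat_lit 26598969205397520968385473)) C.nil)) C.nil))) (C.cons (nat_lit 138) (C.node (nat_lit 1) (nat_lit 7) (nat_lit 9) (C.cons (nat_lit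 642) (C.node (nat_lit 1) (nat_lit 4) (nat_lit 8) (C.cons (nat_lit 274) (C.node (nat_lit 1) (nat_lit 8) (nat_lit 9) C.nil) C.nil)) C.nil)) C.nil))) C.nil)) C.nil))) C.nil))))) C.nil))) (C.cons (nat_lit 386) (C.node (nat_lit 2) (nat_lit 7) (nat_lit 8) (C.cons (nat_lit 404) (C.node (nat_lit 1) (nat_lit 2) (nat_lit 4) (C.cons (nat_lit 62) (C.miq (nat_lit 2551383588) (nat_lit 322793100009172424458109013))
  (C.cons (nat_lit 54) (C.miq (nat_lit 1747257153) (nat_lit 354217091645248833223786643)) (C.cons (nat_lit 30) (C.miq (nat_lit 2551383588) (nat_lit 322793100009172424456011861)) (C.cons (nat_lit 22) (C.node (nat_lit 1) (nat_lit 2) (nat_lit 3) (C.cons (nat_lit 46) (C.node (nat_lit 2) (nat_lit 3) (nat_lit 4) (C.cons (nat_lit 28) (C.node (nat_lit 2) (nat_lit 3) (nat_lit 8) (C.cons (nat_lit 780) (C.miq (nat_lit 1351816834) (nat_lit 649194013711153407665635654)) (C.cons (nat_lit 268) (C.node (nat_lit 2) (nat_lit 8) (nat_lit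 9) (C.cons (nat_lit 772) (C.node (nat_lit 2) (nat_lit 5) (nat_lit 6) (C.cons (nat_lit 612) (C.miq (nat_lit 2453169424) (nat_lit 324009847150038337033273443)) C.nil)) C.nil)) C.nil))) C.nil)) (C.cons (nat_lit 14) (C.node (nat_lit 1) (nat_lit 2) (nat_lit 5) (C.cons (nat_lit 38) (C.node (nat_lit 2) (nat_lit 3) (nat_lit 4) (C.cons (nat_lit 60) (C.node (nat_lit 2) (nat_lit 4) (nat_lit 9) (C.cons (nat_lit 532) (C.node (nat_lit 2) (nat_lit 3) (nat_lit 6) (C.cons (nat_lit 588) (C.node (nat_lit 2) (nat_lit 3) (nat_lit 8) C.nil) C.nil)) C.nil)) (C.cons (nat_lit 28) (C.node (nat_lit 2) (nat_lit 3) (nat_lit 8) (C.cons (nat_lit 780) (C.node (nat_lit 2) (nat_lit 6) (nat_lit 9) (C.cons (nat_lit 612) (C.miq (nat_lit 844204384) (nat_lit 45944106645576699449902017)) C.nil)) (C.cons (nat_lit 268) (C.node (nat_lit 2) (nat_lit 8) (nat_lit 9) (C.cons (nat_lit 772) (C.node (nat_lit 2) (nat_lit 4) (nat_lit 5) C.nil) C.nil)) C.nil))) C.nil)))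 C.nil)) C.nil))) C.nil))))) (C.cons (nat_lit 388) (C.node (nat_lit 1) (nat_lit 2) (nat_lit 3) (C.cons (nat_lit 62) (C.miq (nat_lit 2551383588) (nat_lit 322793100009172424458109013)) (C.cons (nat_lit 46) (C.node (nat_lit 1) (nat_lit 2) (nat_lit 4) (C.cons (nat_lit 22) (C.ref (nat_lit 76) (nat_lit 654820258320)) C.nil)) (C.cons (nat_lit 30) (C.miq (nat_lit 2551383588) (nat_lit 322793100009172424456011861)) (C.cons (nat_lit 14) (C.node (nat_lit 1) (nat_lit 2) (nat_lit 4) (C.cons (nat_lit 54) (C.ref (nat_lit 76) (nat_lit 646263816480)) (C.cons (nat_lit 22) (C.node (nat_lit 1) (nat_lit 2) (nat_lit 5) (C.cons (nat_lit 38) (C.node (nat_lit 3) (nat_lit 6) (nat_lit 8) (C.cons (nat_lit 376) (C.miq (nat_lit 2474706018) (nat_lit 322792767848433922326528085)) (C.cons (nat_lit 360) (C.node (nat_lit 4) (nat_lit 6) (nat_lit 8) (C.cons (nat_lit 336) (C.node (nat_lit 2) (nat_lit 5) (nat_lit 6) (C.cons (nat_lit 612) (C.miq (nat_lit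 824541334) (nat_lit 45945822048378491987297217)) (C.cons (nat_lit 100) (C.node (nat_lit 3) (nat_lit 8) (nat_lit 9) (C.cons (nat_lit 780) (C.miq (nat_lit 1361272984) (nat_lit 16931602330339595717968833)) (C.cons (nat_lit 776) (C.node (nat_lit 2) (nat_lit 3) (nat_lit 6) (C.cons (nat_lit 588) (C.node (nat_lit 2) (nat_lit 3) (nat_lit 5) (C.cons (nat_lit 44) (C.node (nat_lit 2) (nat_lit 3) (nat_lit 4) C.nil) C.nil)) (C.cons (nat_lit 76) (C.node (nat_lit 2) (nat_lit 6) (nat_lit 9) C.nil) C.nil))) C.nil))) C.nil))) C.nil)) (C.cons (nat_lit 344) (C.miq (nat_lit 2474706018) (nat_lit 322792767848433784887574613)) (C.cons (nat_lit 328) (C.node (nat_lit 4) (nat_lit 6) (nat_lit 8) (C.cons (nat_lit 368) (C.node (nat_lit 1) (nat_lit 5) (nat_lit 8) (C.cons (nat_lit 802) (C.miq (nat_lit 1108697240) (nat_lit 45945969571102635914822593)) (C.cons (nat_lit 290) (C.node (nat_lit 4) (nat_lit 6) (nat_lit 9) (C.cons (nat_lit 594) (C.miq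 (nat_lit 1377075350) (nat_lit 26603156515815364261708737)) (C.cons (nat_lit 592) (C.node (nat_lit 1) (nat_lit 4) (nat_lit 8) (C.cons (nat_lit 786) (C.node (nat_lit 1) (nat_lit 4) (nat_lit 5) (C.cons (nat_lit 50) (C.node (nat_lit 1) (nat_lit 4) (nat_lit 3) C.nil) C.nil)) (C.cons (nat_lit 274) (C.node (nat_lit 1) (nat_lit 8) (nat_lit 9) C.nil) C.nil))) C.nil))) C.nil))) (C.cons (nat_lit 336) (C.node (nat_lit 5) (nat_lit 6) (nat_lit 8) (C.cons (nat_lit 352) (C.node (nat_lit 1) (nat_lit 3) (nat_lit 4) (C.cons (nat_lit 90) (C.node (nat_lit 1) (nat_lit 6) (nat_lit 9) (C.cons (nat_lit 578) (C.node (nat_lit 3) (nat_lit 6) (nat_lit 7) (C.cons (nat_lit 200)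
  (C.node (nat_lit 4) (nat_lit 6) (nat_lit 7) C.nil) C.nil)) C.nil)) (C.cons (nat_lit 58) (C.node (nat_lit 4) (nat_lit 5) (nat_lit 6) (C.cons (nat_lit 624) (C.miq (nat_lit 2302871121) (nat_lit 649198090684223679949832291)) (C.cons (nat_lit 240) (C.miq (nat_lit 946147444) (nat_lit 425542958490663690911613075)) (C.cons (nat_lit 112) (C.node (nat_lit 1) (nat_lit 3) (nat_lit 6) (C.cons (nat_lit 586) (C.node (nat_lit 1) (nat_lit 3) (nat_lit 7) C.nil) (C.cons (nat_lit 74) (C.node (nat_lit 1) (nat_lit 3) (nat_lit 7) (C.cons (nat_lit 138) (C.node (nat_lit 1) (nat_lit 3) (nat_lit 9) C.nil) C.nil)) C.nil))) C.nil)))) (C.cons (nat_lit 26) (C.node (nat_lit 1) (nat_lit 3) (nat_lit 6) (C.cons (nat_lit 586) (C.node (nat_lit 1) (nat_lit 4) (nat_lit 6) (C.cons (nat_lit 82) (C.node (nat_lit 1) (nat_lit 3) (nat_lit 5) C.nil) C.nil)) (C.cons (nat_lit 74) (C.node (nat_lit 1) (nat_lit 4) (nat_lit 6) (C.cons (nat_lit 594) (C.node (nat_lit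 1) (nat_lit 4) (nat_lit 5) C.nil) C.nil)) C.nil))) C.nil)))) C.nil)) C.nil))) C.nil))))) C.nil)) C.nil))) C.nil))))) C.nil))) C.nil))) C.nil))) (C.cons (nat_lit 78) (C.node (nat_lit 2) (nat_lit 6) (nat_lit 8) (C.cons (nat_lit 324) (C.node (nat_lit 1) (nat_lit 3) (nat_lit 4) (C.cons (nat_lit 58) (C.node (nat_lit 3) (nat_lit 6) (nat_lit 9) (C.cons (nat_lit 616) (C.miq (nat_lit 2033452625) (nat_lit 649195877074934800443900003)) (C.cons (nat_lit 584) (C.node (nat_lit 1) (nat_lit 2) (nat_lit 4) (C.cons (nat_lit 278) (C.node (nat_lit 1) (nat_lit 6) (nat_lit 8) (C.cons (nat_lit 322) (C.node (nat_lit 2) (nat_lit 3) (nat_lit 4) (C.cons (nat_lit 28) (C.node (nat_lit 2) (nat_lit 7) (nat_lit 8) (C.cons (nat_lit 388) (C.node (nat_lit 1) (nat_lit 2) (nat_lit 5) (C.cons (nat_lit 166) (C.node (nat_lit 1) (nat_lit 7) (nat_lit 8) (C.cons (nat_lit 386) (C.node (nat_lit 2) (nat_lit 3) (nat_lit 5) (C.cons (nat_lit 556) (C.miq (nat_lit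 1949634706) (nat_lit 70120759738543855928869383)) (C.cons (nat_lit 44) (C.node (nat_lit 1) (nat_lit 3) (nat_lit 7) (C.cons (nat_lit 650) (C.node (nat_lit 1) (nat_lit 4) (nat_lit 6) (C.cons (nat_lit 594) (C.miq (nat_lit 826440032) (nat_lit 336083979026742589693166529)) (C.cons (nat_lit 82) (C.node (nat_lit 1) (nat_lit 4) (nat_lit 9) (C.cons (nat_lit 530) (C.node (nat_lit 1) (nat_lit 6) (nat_lit 9) (C.cons (nat_lit 578) (C.node (nat_lit 1) (nat_lit 5) (nat_lit 8) (C.cons (nat_lit 802) (C.miq (nat_lit 1362266480) (nat_lit 94301619051700395585635265)) C.nil)) C.nil)) C.nil)) C.nil))) (C.cons (nat_lit 138) (C.node (nat_lit 1) (nat_lit 3) (nat_lit 9) (C.cons (nat_lit 522) (C.node (nat_lit 1) (nat_lit 7) (nat_lit 9) (C.cons (nat_lit 642) (C.node (nat_lit 1) (nat_lit 4) (nat_lit 6) (C.cons (nat_lit 594) (C.node (nat_lit 1) (nat_lit 5) (nat_lit 8) (C.cons (nat_lit 802) (C.miq (nat_lit 1363315040) (nat_lit 336086782974625990005031873))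 C.nil)) C.nil)) C.nil)) C.nil)) C.nil))) C.nil))) C.nil)) (C.cons (nat_lit 38) (C.node (nat_lit 1) (nat_lit 2) (nat_lit 7) (C.cons (nat_lit 134) (C.node (nat_lit 1) (nat_lit 3) (nat_lit 7) (C.cons (nat_lit 650) (C.node (nat_lit 1) (nat_lit 4) (nat_lit 6) (C.cons (nat_lit 594) (C.miq (nat_lit 826440032) (nat_lit 336083979026742589693166529)) (C.cons (nat_lit 82) (C.node (nat_lit 1) (nat_lit 4) (nat_lit 9) (C.cons (nat_lit 530) (C.node (nat_lit 1) (nat_lit 6) (nat_lit 9) C.nil) C.nil)) C.nil))) (C.cons (nat_lit 138) (C.node (nat_lit 1) (nat_lit 3) (nat_lit 9) (C.cons (nat_lit 522) (C.node (nat_lit 1) (nat_lit 4) (nat_lit 6) (C.cons (nat_lit 594) (C.node (nat_lit 1) (nat_lit 8) (nat_lit 9) (C.cons (nat_lit 802) (C.miq (nat_lit 1363315040) (nat_lit 336086782974625990005031873)) C.nil)) C.nil)) C.nil)) C.nil))) C.nil)) C.nil))) C.nil)) C.nil)) C.nil)) (C.cons (nat_lit 22) (C.node (nat_lit 1) (nat_lit 2) (nat_lit 5) (C.cons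 (nat_lit 166) (C.node (nat_lit 1) (nat_lit 2) (nat_lit 8) (C.cons (nat_lit 262) (C.node (nat_lit 1) (nat_lit 7) (nat_lit 8) (C.cons (nat_lit 386) (C.node (nat_lit 2) (nat_lit 3) (nat_lit 5) (C.cons (nat_lit 556)
  (C.miq (nat_lit 1949634706) (nat_lit 70120759738543855928869383)) (C.cons (nat_lit 44) (C.node (nat_lit 1) (nat_lit 3) (nat_lit 7) (C.cons (nat_lit 650) (C.node (nat_lit 1) (nat_lit 5) (nat_lit 8) (C.cons (nat_lit 802) (C.miq (nat_lit 1362266480) (nat_lit 94301619051700395585635265)) (C.cons (nat_lit 290) (C.node (nat_lit 1) (nat_lit 5) (nat_lit 9) (C.cons (nat_lit 546) (C.node (nat_lit 1) (nat_lit 6) (nat_lit 9) (C.cons (nat_lit 594) (C.miq (nat_lit 826440032) (nat_lit 26598969205397520968385473)) C.nil)) C.nil)) C.nil))) (C.cons (nat_lit 138) (C.node (nat_lit 1) (nat_lit 3) (nat_lit 9) (C.cons (nat_lit 522) (C.node (nat_lit 1) (nat_lit 7) (nat_lit 9) C.nil) C.nil)) C.nil))) C.nil))) C.nil)) C.nil)) (C.cons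 (nat_lit 38) (C.node (nat_lit 1) (nat_lit 2) (nat_lit 7) (C.cons (nat_lit 390) (C.node (nat_lit 3) (nat_lit 8) (nat_lit 9) (C.cons (nat_lit 808) (C.miq (nat_lit 1366832137) (nat_lit 471495974635243115525505561)) (C.cons (nat_lit 780) (C.miq (nat_lit 840210544) (nat_lit 26606274152641580753945537)) (C.cons (nat_lit 776) (C.node (nat_lit 4) (nat_lit 7) (nat_lit 9) (C.cons (nat_lit 692) (C.miq (nat_lit 1108580224) (nat_lit 94306120026291016594817985)) (C.cons (nat_lit 688) (C.miq (nat_lit 1401504007) (nat_lit 938139127397201647211970707)) (C.cons (nat_lit 660) (C.miq (nat_lit 1108580224) (nat_lit 94306120017283817340076993)) (C.cons (nat_lit 656) (C.node (nat_lit 1) (nat_lit 3) (nat_lit 7) (C.cons (nat_lit 650) (C.node (nat_lit 1) (nat_lit 5) (nat_lit 7) (C.cons (nat_lit 162) (C.node (nat_lit 1) (nat_lit 5) (nat_lit 8) (C.cons (nat_lit 802) (C.miq (nat_lit 1362266480) (nat_lit 94301619051700395585635265)) (C.cons (nat_lit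 290) (C.node (nat_lit 1) (nat_lit 5) (nat_lit 9) (C.cons (nat_lit 546) (C.node (nat_lit 1) (nat_lit 6) (nat_lit 9) (C.cons (nat_lit 594) (C.miq (nat_lit 826440032) (nat_lit 26598969205397520968385473)) C.nil)) C.nil)) C.nil))) C.nil)) (C.cons (nat_lit 138) (C.node (nat_lit 1) (nat_lit 3) (nat_lit 9) (C.cons (nat_lit 522) (C.node (nat_lit 1) (nat_lit 5) (nat_lit 7) (C.cons (nat_lit 674) (C.node (nat_lit 1) (nat_lit 5) (nat_lit 8) (C.cons (nat_lit 290) (C.node (nat_lit 1) (nat_lit 8) (nat_lit 9) (C.cons (nat_lit 786) (C.miq (nat_lit 1092851824) (nat_lit 94306120052749664397362113)) C.nil)) C.nil)) (C.cons (nat_lit 162) (C.node (nat_lit 1) (nat_lit 7) (nat_lit 9) C.nil) C.nil))) C.nil)) C.nil))) C.nil))))) C.nil)))) (C.cons (nat_lit 134) (C.node (nat_lit 1) (nat_lit 2) (nat_lit 8) (C.cons (nat_lit 262) (C.node (nat_lit 1) (nat_lit 3) (nat_lit 7) (C.cons (nat_lit 650) (C.node (nat_lit 1) (nat_lit 5) (nat_lit 7) (C.cons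 (nat_lit 418) (C.miq (nat_lit 2152036657) (nat_lit 59245076170639399173358218)) (C.cons (nat_lit 162) (C.node (nat_lit 1) (nat_lit 7) (nat_lit 8) C.nil) C.nil))) (C.cons (nat_lit 138) (C.node (nat_lit 1) (nat_lit 3) (nat_lit 9) (C.cons (nat_lit 522) (C.node (nat_lit 1) (nat_lit 6) (nat_lit 8) (C.cons (nat_lit 322) (C.node (nat_lit 1) (nat_lit 4) (nat_lit 6) C.nil) C.nil)) C.nil)) C.nil))) C.nil)) C.nil))) C.nil))) C.nil))) C.nil))) (C.cons (nat_lit 26) (C.node (nat_lit 1) (nat_lit 6) (nat_lit 8) (C.cons (nat_lit 338) (C.node (nat_lit 1) (nat_lit 6) (nat_lit 9) (C.cons (nat_lit 578) (C.node (nat_lit 1) (nat_lit 2) (nat_lit 4) (C.cons (nat_lit 54) (C.node (nat_lit 1) (nat_lit 4) (nat_lit 9) (C.cons (nat_lit 530) (C.node (nat_lit 1) (nat_lit 8) (nat_lit 9) (C.cons (nat_lit 802) (C.miq (nat_lit 1416106505) (nat_lit 408631721333691789988659719)) (C.cons (nat_lit 770) (C.node (nat_lit 1) (nat_lit 5) (nat_lit 8) (C.cons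 (nat_lit 418) (C.miq (nat_lit 1750206228) (nat_lit 354216833390831861419606163)) (C.cons (nat_lit 290) (C.node (nat_lit 1) (nat_lit 2) (nat_lit 7) (C.cons (nat_lit 390) (C.node (nat_lit 2) (nat_lit 4) (nat_lit 7) (C.cons (nat_lit 660) (C.miq (nat_lit 1108580224) (nat_lit 94306120017283817340076993)) (C.cons (nat_lit 148) (C.node (nat_lit 2) (nat_lit 4) (nat_lit 9) (C.cons (nat_lit 788) (C.miq (nat_lit 1451495570) (nat_lit 408617923181794791576044039)) (C.cons (nat_lit 532)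
  (C.node (nat_lit 2) (nat_lit 5) (nat_lit 6) (C.cons (nat_lit 612) (C.miq (nat_lit 2454152464) (nat_lit 178938748796282870420406371)) (C.cons (nat_lit 100) (C.node (nat_lit 2) (nat_lit 6) (nat_lit 9) (C.cons (nat_lit 580) (C.node (nat_lit 2) (nat_lit 8) (nat_lit 9) (C.cons (nat_lit 780) (C.miq (nat_lit 840210544) (nat_lit 65291900380309714344543169)) C.nil)) C.nil)) C.nil))) C.nil))) C.nil))) C.nil)) C.nil))) C.nil))) C.nil)) (C.cons (nat_lit 22) (C.node (nat_lit 1) (nat_lit 2) (nat_lit 5) (C.cons (nat_lit 166) (C.node (nat_lit 1) (nat_lit 2) (nat_lit 8) (C.cons (nat_lit 262) (C.node (nat_lit 1) (nat_lit 7) (nat_lit 8) (C.cons (nat_lit 386) (C.node (nat_lit 1) (nat_lit 3) (nat_lit 5) (C.cons (nat_lit 554) (C.node (nat_lit 1) (nat_lit 3) (nat_lit 7) C.nil) C.nil)) C.nil)) C.nil)) (C.cons (nat_lit 38) (C.node (nat_lit 1) (nat_lit 2) (nat_lit 7) (C.cons (nat_lit 390) (C.node (nat_lit 1) (nat_lit 4) (nat_lit 5) (C.cons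 (nat_lit 562) (C.node (nat_lit 1) (nat_lit 5) (nat_lit 8) (C.cons (nat_lit 290) (C.node (nat_lit 1) (nat_lit 8) (nat_lit 9) C.nil) C.nil)) (C.cons (nat_lit 50) (C.node (nat_lit 1) (nat_lit 4) (nat_lit 9) C.nil) C.nil))) (C.cons (nat_lit 134) (C.node (nat_lit 1) (nat_lit 2) (nat_lit 8) (C.cons (nat_lit 262) (C.node (nat_lit 1) (nat_lit 4) (nat_lit 5) (C.cons (nat_lit 50) (C.node (nat_lit 1) (nat_lit 4) (nat_lit 9) C.nil) C.nil)) C.nil)) C.nil))) C.nil))) C.nil))) C.nil)) (C.cons (nat_lit 322) (C.node (nat_lit 1) (nat_lit 4) (nat_lit 6) (C.cons (nat_lit 594) (C.node (nat_lit 1) (nat_lit 8) (nat_lit 9) (C.cons (nat_lit 802) (C.node (nat_lit 1) (nat_lit 3) (nat_lit 9) (C.cons (nat_lit 650) (C.miq (nat_lit 588515222) (nat_lit 31433639322917387338122177)) (C.cons (nat_lit 522) (C.node (nat_lit 1) (nat_lit 7) (nat_lit 9) (C.cons (nat_lit 642) (C.node (nat_lit 1) (nat_lit 4) (nat_lit 5) (C.cons (nat_lit 54) (C.node (nat_lit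 1) (nat_lit 4) (nat_lit 8) (C.cons (nat_lit 274) (C.node (nat_lit 1) (nat_lit 2) (nat_lit 7) (C.cons (nat_lit 390) (C.node (nat_lit 1) (nat_lit 3) (nat_lit 5) (C.cons (nat_lit 170) (C.node (nat_lit 3) (nat_lit 7) (nat_lit 9) (C.cons (nat_lit 648) (C.node (nat_lit 2) (nat_lit 3) (nat_lit 4) (C.cons (nat_lit 284) (C.miq (nat_lit 2552501510) (nat_lit 343345890362278658843148387)) (C.cons (nat_lit 28) (C.node (nat_lit 2) (nat_lit 3) (nat_lit 8) (C.cons (nat_lit 780) (C.miq (nat_lit 840210544) (nat_lit 65291900380309714344543169)) (C.cons (nat_lit 268) (C.node (nat_lit 3) (nat_lit 8) (nat_lit 9) (C.cons (nat_lit 776) (C.node (nat_lit 3) (nat_lit 6) (nat_lit 7) (C.cons (nat_lit 216) (C.miq (nat_lit 338859632) (nat_lit 33859496976580936037368769)) C.nil)) C.nil)) C.nil))) C.nil))) C.nil)) C.nil)) C.nil)) C.nil)) (C.cons (nat_lit 50) (C.miq (nat_lit 622069910) (nat_lit 60447859036453336826119105)) C.nil))) C.nil)) C.nil)))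 (C.cons (nat_lit 770) (C.node (nat_lit 2) (nat_lit 5) (nat_lit 6) (C.cons (nat_lit 612) (C.node (nat_lit 3) (nat_lit 6) (nat_lit 9) (C.cons (nat_lit 584) (C.node (nat_lit 4) (nat_lit 6) (nat_lit 7) (C.cons (nat_lit 248) (C.miq (nat_lit 558041447) (nat_lit 31434672446982815728796609)) (C.cons (nat_lit 240) (C.miq (nat_lit 628135489) (nat_lit 194646630990393268933689938)) (C.cons (nat_lit 216) (C.miq (nat_lit 558041447) (nat_lit 31434672446982815726699457)) C.nil)))) C.nil)) (C.cons (nat_lit 100) (C.node (nat_lit 2) (nat_lit 6) (nat_lit 9) (C.cons (nat_lit 580) (C.node (nat_lit 3) (nat_lit 6) (nat_lit 9) (C.cons (nat_lit 584) (C.node (nat_lit 5) (nat_lit 6) (nat_lit 9) C.nil) C.nil)) C.nil)) C.nil))) C.nil))) (C.cons (nat_lit 82) (C.node (nat_lit 1) (nat_lit 6) (nat_lit 9) (C.cons (nat_lit 578) (C.node (nat_lit 2) (nat_lit 5) (nat_lit 6) (C.cons (nat_lit 612) (C.node (nat_lit 3) (nat_lit 6) (nat_lit 9) (C.cons (nat_lit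 584) (C.node (nat_lit 4) (nat_lit 6) (nat_lit 9) C.nil) C.nil)) (C.cons (nat_lit 100) (C.node (nat_lit 2) (nat_lit 6) (nat_lit 9) (C.cons (nat_lit 580) (C.node (nat_lit 3) (nat_lit 6) (nat_lit 9) C.nil) C.nil)) C.nil))) C.nil)) C.nil))) C.nil))) C.nil))) C.nil))
  (C.cons (nat_lit 70) (C.node (nat_lit 1) (nat_lit 6) (nat_lit 8) (C.cons (nat_lit 338) (C.node (nat_lit 2) (nat_lit 6) (nat_lit 8) (C.cons (nat_lit 332) (C.miq (nat_lit 1904411746) (nat_lit 322785794869398655990497365)) (C.cons (nat_lit 324) (C.node (nat_lit 1) (nat_lit 2) (nat_lit 8) (C.cons (nat_lit 390) (C.node (nat_lit 1) (nat_lit 3) (nat_lit 6) (C.cons (nat_lit 586) (C.node (nat_lit 1) (nat_lit 3) (nat_lit 7) (C.cons (nat_lit 170) (C.node (nat_lit 1) (nat_lit 7) (nat_lit 9) (C.cons (nat_lit 642) (C.node (nat_lit 3) (nat_lit 7) (nat_lit 9) (C.cons (nat_lit 648) (C.node (nat_lit 1) (nat_lit 2) (nat_lit 3) (C.cons (nat_lit 30) (C.miq (nat_lit 2167890976)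 (nat_lit 205535116750680465565614165)) (C.cons (nat_lit 14) (C.node (nat_lit 1) (nat_lit 3) (nat_lit 4) (C.cons (nat_lit 26) (C.node (nat_lit 2) (nat_lit 3) (nat_lit 6) (C.cons (nat_lit 108) (C.miq (nat_lit 1110902353) (nat_lit 170461252260967385825673315)) (C.cons (nat_lit 76) (C.node (nat_lit 3) (nat_lit 6) (nat_lit 8) (C.cons (nat_lit 360) (C.miq (nat_lit 557123944) (nat_lit 205522794376588586385933249)) (C.cons (nat_lit 328) (C.node (nat_lit 5) (nat_lit 6) (nat_lit 8) (C.cons (nat_lit 352) (C.node (nat_lit 2) (nat_lit 5) (nat_lit 6) C.nil) C.nil)) C.nil))) C.nil))) C.nil)) C.nil))) C.nil)) C.nil)) (C.cons (nat_lit 138) (C.node (nat_lit 1) (nat_lit 4) (nat_lit 9) (C.cons (nat_lit 562) (C.node (nat_lit 1) (nat_lit 5) (nat_lit 7) (C.cons (nat_lit 162) (C.node (nat_lit 1) (nat_lit 5) (nat_lit 8) (C.cons (nat_lit 290) (C.node (nat_lit 1) (nat_lit 7) (nat_lit 9) (C.cons (nat_lit 642) (C.node (nat_lit 1) (nat_lit 8)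 (nat_lit 9) C.nil) C.nil)) C.nil)) C.nil)) (C.cons (nat_lit 530) (C.node (nat_lit 1) (nat_lit 5) (nat_lit 7) (C.cons (nat_lit 674) (C.node (nat_lit 1) (nat_lit 5) (nat_lit 8) (C.cons (nat_lit 290) (C.node (nat_lit 1) (nat_lit 8) (nat_lit 9) (C.cons (nat_lit 770) (C.node (nat_lit 3) (nat_lit 7) (nat_lit 9) (C.cons (nat_lit 648) (C.node (nat_lit 1) (nat_lit 2) (nat_lit 3) (C.cons (nat_lit 62) (C.miq (nat_lit 2167890976) (nat_lit 166849490523012469413970005)) (C.cons (nat_lit 46) (C.node (nat_lit 1) (nat_lit 2) (nat_lit 4) C.nil) (C.cons (nat_lit 30) (C.miq (nat_lit 2167890976) (nat_lit 166849490523012331975016533)) C.nil)))) C.nil)) C.nil)) C.nil)) (C.cons (nat_lit 162) (C.node (nat_lit 1) (nat_lit 7) (nat_lit 9) (C.cons (nat_lit 642) (C.node (nat_lit 1) (nat_lit 5) (nat_lit 8) (C.cons (nat_lit 802) (C.node (nat_lit 1) (nat_lit 2) (nat_lit 3) (C.cons (nat_lit 62) (C.miq (nat_lit 2167890976) (nat_lit 166849490523012469413970005))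 (C.cons (nat_lit 46) (C.miq (nat_lit 2436334880) (nat_lit 166849490653616789888237861)) (C.cons (nat_lit 30) (C.miq (nat_lit 2167890976) (nat_lit 166849490523012331975016533)) C.nil)))) C.nil)) C.nil)) C.nil))) C.nil))) C.nil))) (C.cons (nat_lit 74) (C.node (nat_lit 1) (nat_lit 6) (nat_lit 9) (C.cons (nat_lit 578) (C.node (nat_lit 1) (nat_lit 4) (nat_lit 9) (C.cons (nat_lit 562) (C.node (nat_lit 1) (nat_lit 5) (nat_lit 8) (C.cons (nat_lit 290) (C.node (nat_lit 1) (nat_lit 8) (nat_lit 9) (C.cons (nat_lit 770) (C.node (nat_lit 1) (nat_lit 2) (nat_lit 4) (C.cons (nat_lit 30) (C.miq (nat_lit 2014512706) (nat_lit 322785795098519287013179477)) C.nil)) C.nil)) C.nil)) (C.cons (nat_lit 530) (C.node (nat_lit 1) (nat_lit 5) (nat_lit 8) (C.cons (nat_lit 802) (C.node (nat_lit 1) (nat_lit 3) (nat_lit 9) (C.cons (nat_lit 650) (C.miq (nat_lit 1345946225) (nat_lit 649207959504275755686822278)) (C.cons (nat_lit 522) (C.node (nat_lit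 1) (nat_lit 7) (nat_lit 9) C.nil) C.nil))) (C.cons (nat_lit 290) (C.node (nat_lit 1) (nat_lit 8) (nat_lit 9) (C.cons (nat_lit 770) (C.node (nat_lit 2) (nat_lit 1) (nat_lit 4) (C.cons (nat_lit 22) (C.node (nat_lit 2) (nat_lit 1) (nat_lit 3) C.nil) C.nil)) C.nil)) C.nil))) C.nil))) C.nil)) C.nil))) (C.cons (nat_lit 262) (C.node (nat_lit 1) (nat_lit 2) (nat_lit 7) (C.cons (nat_lit 166) (C.node (nat_lit 1) (nat_lit 7) (nat_lit 8) (C.cons (nat_lit 386) (C.node (nat_lit 1) (nat_lit 2) (nat_lit 3) (C.cons (nat_lit 30)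
  (C.miq (nat_lit 2014512706) (nat_lit 322785795098519287013179477)) (C.cons (nat_lit 14) (C.node (nat_lit 1) (nat_lit 2) (nat_lit 4) (C.cons (nat_lit 22) (C.node (nat_lit 1) (nat_lit 3) (nat_lit 4) (C.cons (nat_lit 58) (C.node (nat_lit 1) (nat_lit 4) (nat_lit 9) C.nil) (C.cons (nat_lit 26) (C.node (nat_lit 1) (nat_lit 3) (nat_lit 5) (C.cons (nat_lit 42) (C.node (nat_lit 1) (nat_lit 3) (nat_lit 6) C.nil) C.nil)) C.nil))) C.nil)) C.nil))) C.nil)) (C.cons (nat_lit 134) (C.node (nat_lit 1) (nat_lit 3) (nat_lit 6) (C.cons (nat_lit 586) (C.node (nat_lit 1) (nat_lit 3) (nat_lit 7) (C.cons (nat_lit 170) (C.node (nat_lit 1) (nat_lit 7) (nat_lit 8) (C.cons (nat_lit 386) (C.node (nat_lit 1) (nat_lit 7) (nat_lit 9) (C.cons (nat_lit 642) (C.node (nat_lit 1) (nat_lit 2) (nat_lit 3) (C.cons (nat_lit 30) (C.miq (nat_lit 2167890976) (nat_lit 205535116750680465565614165)) C.nil)) C.nil)) C.nil)) (C.cons (nat_lit 138) (C.node (nat_lit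 1) (nat_lit 4) (nat_lit 9) (C.cons (nat_lit 562) (C.node (nat_lit 1) (nat_lit 7) (nat_lit 9) (C.cons (nat_lit 642) (C.node (nat_lit 1) (nat_lit 8) (nat_lit 9) C.nil) C.nil)) (C.cons (nat_lit 530) (C.node (nat_lit 1) (nat_lit 7) (nat_lit 8) (C.cons (nat_lit 418) (C.node (nat_lit 1) (nat_lit 5) (nat_lit 9) C.nil) (C.cons (nat_lit 386) (C.node (nat_lit 1) (nat_lit 5) (nat_lit 7) (C.cons (nat_lit 162) (C.node (nat_lit 1) (nat_lit 7) (nat_lit 9) C.nil) C.nil)) C.nil))) C.nil))) C.nil))) (C.cons (nat_lit 74) (C.node (nat_lit 1) (nat_lit 6) (nat_lit 9) (C.cons (nat_lit 578) (C.node (nat_lit 1) (nat_lit 4) (nat_lit 9) (C.cons (nat_lit 562) (C.node (nat_lit 1) (nat_lit 8) (nat_lit 9) (C.cons (nat_lit 770) (C.node (nat_lit 4) (nat_lit 6) (nat_lit 9) (C.cons (nat_lit 592) (C.node (nat_lit 1) (nat_lit 2) (nat_lit 4) (C.cons (nat_lit 22) (C.node (nat_lit 1) (nat_lit 3) (nat_lit 4) C.nil) C.nil)) C.nil)) C.nil)) (C.cons (nat_lit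 530) (C.node (nat_lit 1) (nat_lit 7) (nat_lit 8) (C.cons (nat_lit 418) (C.node (nat_lit 1) (nat_lit 8) (nat_lit 9) (C.cons (nat_lit 770) (C.node (nat_lit 1) (nat_lit 3) (nat_lit 7) C.nil) C.nil)) (C.cons (nat_lit 386) (C.node (nat_lit 1) (nat_lit 5) (nat_lit 8) (C.cons (nat_lit 802) (C.node (nat_lit 1) (nat_lit 3) (nat_lit 9) C.nil) C.nil)) C.nil))) C.nil))) C.nil)) C.nil))) C.nil))) C.nil))) C.nil))) (C.cons (nat_lit 322) (C.node (nat_lit 2) (nat_lit 6) (nat_lit 8) (C.cons (nat_lit 332) (C.node (nat_lit 2) (nat_lit 3) (nat_lit 9) (C.cons (nat_lit 556) (C.node (nat_lit 2) (nat_lit 5) (nat_lit 6) (C.cons (nat_lit 100) (C.node (nat_lit 2) (nat_lit 6) (nat_lit 9) (C.cons (nat_lit 580) (C.node (nat_lit 3) (nat_lit 8) (nat_lit 9) (C.cons (nat_lit 776) (C.node (nat_lit 1) (nat_lit 2) (nat_lit 3) (C.cons (nat_lit 30) (C.miq (nat_lit 2016478756) (nat_lit 322785905778983703500685397)) (C.cons (nat_lit 14) (C.node (nat_lit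 2) (nat_lit 3) (nat_lit 4) (C.cons (nat_lit 28) (C.node (nat_lit 2) (nat_lit 7) (nat_lit 9) (C.cons (nat_lit 660) (C.node (nat_lit 2) (nat_lit 8) (nat_lit 9) C.nil) (C.cons (nat_lit 644) (C.node (nat_lit 2) (nat_lit 4) (nat_lit 9) (C.cons (nat_lit 532) (C.node (nat_lit 2) (nat_lit 8) (nat_lit 9) C.nil) C.nil)) C.nil))) C.nil)) C.nil))) C.nil)) C.nil)) C.nil)) (C.cons (nat_lit 524) (C.node (nat_lit 2) (nat_lit 5) (nat_lit 6) (C.cons (nat_lit 612) (C.node (nat_lit 3) (nat_lit 6) (nat_lit 9) (C.cons (nat_lit 586) (C.miq (nat_lit 2190673249) (nat_lit 633482054841208164730929251)) (C.cons (nat_lit 584) (C.node (nat_lit 1) (nat_lit 2) (nat_lit 3) (C.cons (nat_lit 62) (C.miq (nat_lit 2453169424) (nat_lit 401381099605374672933945443)) (C.cons (nat_lit 46) (C.miq (nat_lit 2453169424) (nat_lit 401381099605374604214468707)) (C.cons (nat_lit 30) (C.miq (nat_lit 2016478756) (nat_lit 322785905778983703500685397)) (C.cons (nat_lit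 14) (C.node (nat_lit 1) (nat_lit 3) (nat_lit 6) (C.cons (nat_lit 90) (C.node (nat_lit 1) (nat_lit 6) (nat_lit 9) C.nil) (C.cons (nat_lit 74) (C.node (nat_lit 1) (nat_lit 4) (nat_lit 6) (C.cons (nat_lit 82)
  (C.node (nat_lit 1) (nat_lit 6) (nat_lit 9) C.nil) C.nil)) C.nil))) C.nil))))) C.nil))) (C.cons (nat_lit 100) (C.node (nat_lit 2) (nat_lit 6) (nat_lit 9) (C.cons (nat_lit 580) (C.node (nat_lit 2) (nat_lit 8) (nat_lit 9) (C.cons (nat_lit 788) (C.node (nat_lit 1) (nat_lit 2) (nat_lit 8) (C.cons (nat_lit 390) (C.node (nat_lit 1) (nat_lit 4) (nat_lit 8) (C.cons (nat_lit 306) (C.node (nat_lit 1) (nat_lit 8) (nat_lit 9) (C.cons (nat_lit 770) (C.node (nat_lit 4) (nat_lit 6) (nat_lit 8) (C.cons (nat_lit 336) (C.node (nat_lit 5) (nat_lit 6) (nat_lit 8) (C.cons (nat_lit 352) (C.node (nat_lit 1) (nat_lit 3) (nat_lit 6) C.nil) C.nil)) C.nil)) C.nil)) (C.cons (nat_lit 274) (C.node (nat_lit 1) (nat_lit 5) (nat_lit 8) (C.cons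 (nat_lit 802) (C.node (nat_lit 3) (nat_lit 8) (nat_lit 9) (C.cons (nat_lit 776) (C.node (nat_lit 1) (nat_lit 4) (nat_lit 9) (C.cons (nat_lit 594) (C.node (nat_lit 4) (nat_lit 6) (nat_lit 8) (C.cons (nat_lit 336) (C.miq (nat_lit 1480983185) (nat_lit 406200901700654252596265479)) C.nil)) (C.cons (nat_lit 530) (C.miq (nat_lit 1637090690) (nat_lit 640732252396869195215929637)) C.nil))) C.nil)) (C.cons (nat_lit 290) (C.node (nat_lit 1) (nat_lit 8) (nat_lit 9) (C.cons (nat_lit 770) (C.node (nat_lit 4) (nat_lit 6) (nat_lit 8) (C.cons (nat_lit 368) (C.miq (nat_lit 1485923360) (nat_lit 930874707434513937667129429)) (C.cons (nat_lit 336) (C.node (nat_lit 5) (nat_lit 6) (nat_lit 8) C.nil) C.nil))) C.nil)) C.nil))) C.nil))) (C.cons (nat_lit 262) (C.node (nat_lit 2) (nat_lit 7) (nat_lit 8) (C.cons (nat_lit 388) (C.node (nat_lit 1) (nat_lit 2) (nat_lit 7) (C.cons (nat_lit 134) (C.node (nat_lit 2) (nat_lit 4) (nat_lit 7) C.nil)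 C.nil)) C.nil)) C.nil))) (C.cons (nat_lit 772) (C.node (nat_lit 3) (nat_lit 8) (nat_lit 9) (C.cons (nat_lit 808) (C.node (nat_lit 2) (nat_lit 3) (nat_lit 4) (C.cons (nat_lit 62) (C.miq (nat_lit 2016478756) (nat_lit 322785905778983703502782549)) (C.cons (nat_lit 60) (C.miq (nat_lit 1765017682) (nat_lit 649194733376803055085551909)) (C.cons (nat_lit 30) (C.miq (nat_lit 2016478756) (nat_lit 322785905778983703500685397)) (C.cons (nat_lit 28) (C.node (nat_lit 1) (nat_lit 2) (nat_lit 3) (C.cons (nat_lit 46) (C.node (nat_lit 1) (nat_lit 2) (nat_lit 4) (C.cons (nat_lit 22) (C.node (nat_lit 1) (nat_lit 2) (nat_lit 7) C.nil) C.nil)) (C.cons (nat_lit 14) (C.node (nat_lit 2) (nat_lit 3) (nat_lit 5) C.nil) C.nil))) C.nil))))) (C.cons (nat_lit 776) (C.node (nat_lit 4) (nat_lit 6) (nat_lit 8) (C.cons (nat_lit 368) (C.node (nat_lit 4) (nat_lit 6) (nat_lit 7) (C.cons (nat_lit 208) (C.node (nat_lit 3) (nat_lit 4) (nat_lit 6) C.nil)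 C.nil)) (C.cons (nat_lit 336) (C.node (nat_lit 5) (nat_lit 6) (nat_lit 8) (C.cons (nat_lit 352) (C.node (nat_lit 1) (nat_lit 3) (nat_lit 6) C.nil) C.nil)) C.nil))) C.nil))) C.nil))) C.nil)) C.nil))) C.nil))) (C.cons (nat_lit 324) (C.node (nat_lit 1) (nat_lit 2) (nat_lit 7) (C.cons (nat_lit 390) (C.ref (nat_lit 75) (nat_lit 646263816480)) (C.cons (nat_lit 166) (C.node (nat_lit 1) (nat_lit 7) (nat_lit 8) (C.cons (nat_lit 386) (C.node (nat_lit 1) (nat_lit 2) (nat_lit 3) (C.cons (nat_lit 30) (C.node (nat_lit 1) (nat_lit 2) (nat_lit 8) (C.cons (nat_lit 262) (C.node (nat_lit 1) (nat_lit 3) (nat_lit 7) (C.cons (nat_lit 650) (C.miq (nat_lit 1898353472) (nat_lit 84642534877037740825051673)) (C.cons (nat_lit 138) (C.node (nat_lit 1) (nat_lit 7) (nat_lit 9) (C.cons (nat_lit 642) (C.node (nat_lit 1) (nat_lit 3) (nat_lit 5) (C.cons (nat_lit 42) (C.node (nat_lit 1) (nat_lit 3) (nat_lit 6) C.nil) C.nil)) C.nil)) C.nil))) C.nil))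 (C.cons (nat_lit 14) (C.node (nat_lit 1) (nat_lit 2) (nat_lit 4) (C.cons (nat_lit 278) (C.node (nat_lit 2) (nat_lit 7) (nat_lit 8) (C.cons (nat_lit 388) (C.node (nat_lit 1) (nat_lit 3) (nat_lit 7) (C.cons (nat_lit 650) (C.node (nat_lit 1) (nat_lit 5) (nat_lit 8) (C.cons (nat_lit 802) (C.miq (nat_lit 1362266480) (nat_lit 16930366596364128404440001)) (C.cons (nat_lit 290) (C.node (nat_lit 1) (nat_lit 8) (nat_lit 9) C.nil) C.nil))) (C.cons (nat_lit 138)
  (C.node (nat_lit 1) (nat_lit 7) (nat_lit 9) (C.cons (nat_lit 642) (C.node (nat_lit 1) (nat_lit 5) (nat_lit 8) (C.cons (nat_lit 290) (C.node (nat_lit 1) (nat_lit 8) (nat_lit 9) C.nil) C.nil)) C.nil)) C.nil))) C.nil)) (C.cons (nat_lit 22) (C.node (nat_lit 1) (nat_lit 2) (nat_lit 8) (C.cons (nat_lit 262) (C.node (nat_lit 1) (nat_lit 3) (nat_lit 7) (C.cons (nat_lit 650) (C.node (nat_lit 1) (nat_lit 3) (nat_lit 5) (C.cons (nat_lit 42) (C.node (nat_lit 1) (nat_lit 3) (nat_lit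 4) C.nil) C.nil)) (C.cons (nat_lit 138) (C.node (nat_lit 1) (nat_lit 7) (nat_lit 9) C.nil) C.nil))) C.nil)) C.nil))) C.nil))) C.nil)) (C.cons (nat_lit 134) (C.node (nat_lit 1) (nat_lit 2) (nat_lit 8) (C.cons (nat_lit 278) (C.node (nat_lit 2) (nat_lit 7) (nat_lit 8) (C.cons (nat_lit 388) (C.node (nat_lit 1) (nat_lit 2) (nat_lit 3) (C.cons (nat_lit 46) (C.node (nat_lit 2) (nat_lit 3) (nat_lit 4) (C.cons (nat_lit 28) (C.node (nat_lit 1) (nat_lit 3) (nat_lit 4) (C.cons (nat_lit 90) (C.node (nat_lit 1) (nat_lit 6) (nat_lit 9) (C.cons (nat_lit 578) (C.node (nat_lit 2) (nat_lit 3) (nat_lit 8) (C.cons (nat_lit 780) (C.miq (nat_lit 2467725904) (nat_lit 108821051305922140011954469)) (C.cons (nat_lit 268) (C.node (nat_lit 2) (nat_lit 8) (nat_lit 9) (C.cons (nat_lit 772) (C.node (nat_lit 2) (nat_lit 3) (nat_lit 6) C.nil) C.nil)) C.nil))) C.nil)) (C.cons (nat_lit 26) (C.node (nat_lit 1) (nat_lit 3) (nat_lit 6) (C.cons (nat_lit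 586) (C.node (nat_lit 1) (nat_lit 3) (nat_lit 7) (C.cons (nat_lit 138) (C.node (nat_lit 1) (nat_lit 4) (nat_lit 6) C.nil) C.nil)) (C.cons (nat_lit 74) (C.node (nat_lit 2) (nat_lit 3) (nat_lit 8) (C.cons (nat_lit 780) (C.miq (nat_lit 2467725904) (nat_lit 89478238192088073216655653)) (C.cons (nat_lit 268) (C.node (nat_lit 2) (nat_lit 8) (nat_lit 9) (C.cons (nat_lit 772) (C.node (nat_lit 2) (nat_lit 3) (nat_lit 6) C.nil) C.nil)) C.nil))) C.nil))) C.nil))) C.nil)) (C.cons (nat_lit 14) (C.node (nat_lit 1) (nat_lit 2) (nat_lit 5) (C.cons (nat_lit 38) (C.node (nat_lit 1) (nat_lit 7) (nat_lit 8) (C.cons (nat_lit 418) (C.node (nat_lit 1) (nat_lit 8) (nat_lit 9) (C.cons (nat_lit 770) (C.node (nat_lit 1) (nat_lit 3) (nat_lit 7) (C.cons (nat_lit 138) (C.node (nat_lit 1) (nat_lit 7) (nat_lit 9) C.nil) C.nil)) C.nil)) (C.cons (nat_lit 386) (C.node (nat_lit 1) (nat_lit 5) (nat_lit 8) (C.cons (nat_lit 802) (C.node (nat_lit 4) (nat_lit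 8) (nat_lit 9) (C.cons (nat_lit 784) (C.node (nat_lit 1) (nat_lit 4) (nat_lit 5) (C.cons (nat_lit 50) (C.node (nat_lit 1) (nat_lit 3) (nat_lit 4) C.nil) C.nil)) C.nil)) (C.cons (nat_lit 290) (C.node (nat_lit 1) (nat_lit 8) (nat_lit 9) C.nil) C.nil))) C.nil))) C.nil)) C.nil))) C.nil)) (C.cons (nat_lit 262) (C.node (nat_lit 1) (nat_lit 7) (nat_lit 8) (C.cons (nat_lit 418) (C.node (nat_lit 2) (nat_lit 7) (nat_lit 8) (C.cons (nat_lit 404) (C.miq (nat_lit 1652884593) (nat_lit 354217091398676753649107091)) (C.cons (nat_lit 388) (C.node (nat_lit 1) (nat_lit 3) (nat_lit 7) (C.cons (nat_lit 650) (C.node (nat_lit 1) (nat_lit 6) (nat_lit 9) (C.cons (nat_lit 594) (C.miq (nat_lit 1634879792) (nat_lit 161997627968805502626628121)) (C.cons (nat_lit 578) (C.node (nat_lit 1) (nat_lit 2) (nat_lit 3) (C.cons (nat_lit 62) (C.miq (nat_lit 1750206228) (nat_lit 354216833390831861420130451)) (C.cons (nat_lit 46) (C.miq (nat_lit 898044425)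 (nat_lit 505342982995512013652820487)) (C.cons (nat_lit 30) (C.miq (nat_lit 1183916147) (nat_lit 698759677163507374793293965)) (C.cons (nat_lit 14) (C.node (nat_lit 1) (nat_lit 2) (nat_lit 4) (C.cons (nat_lit 22) (C.node (nat_lit 1) (nat_lit 2) (nat_lit 5) C.nil) C.nil)) C.nil))))) C.nil))) (C.cons (nat_lit 138) (C.node (nat_lit 1) (nat_lit 7) (nat_lit 9) (C.cons (nat_lit 642) (C.node (nat_lit 1) (nat_lit 4) (nat_lit 8) (C.cons (nat_lit 786) (C.node (nat_lit 1) (nat_lit 4) (nat_lit 6) (C.cons (nat_lit 82) (C.node (nat_lit 1) (nat_lit 3) (nat_lit 6) C.nil) C.nil)) (C.cons (nat_lit 274) (C.node (nat_lit 1) (nat_lit 8) (nat_lit 9) C.nil) C.nil))) C.nil)) C.nil))) C.nil))) (C.cons (nat_lit 386)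
  (C.node (nat_lit 2) (nat_lit 7) (nat_lit 8) (C.cons (nat_lit 404) (C.node (nat_lit 2) (nat_lit 3) (nat_lit 8) (C.cons (nat_lit 780) (C.node (nat_lit 1) (nat_lit 2) (nat_lit 4) (C.cons (nat_lit 62) (C.miq (nat_lit 1747257153) (nat_lit 354217091645248833224310931)) (C.cons (nat_lit 54) (C.miq (nat_lit 1747257153) (nat_lit 354217091645248833223786643)) (C.cons (nat_lit 30) (C.miq (nat_lit 2454160144) (nat_lit 488423758664915632153362699)) (C.cons (nat_lit 22) (C.node (nat_lit 1) (nat_lit 2) (nat_lit 3) (C.cons (nat_lit 46) (C.node (nat_lit 2) (nat_lit 3) (nat_lit 4) C.nil) (C.cons (nat_lit 14) (C.node (nat_lit 1) (nat_lit 2) (nat_lit 5) C.nil) C.nil))) C.nil))))) (C.cons (nat_lit 268) (C.node (nat_lit 2) (nat_lit 8) (nat_lit 9) (C.cons (nat_lit 772) (C.node (nat_lit 2) (nat_lit 4) (nat_lit 9) (C.cons (nat_lit 564) (C.node (nat_lit 2) (nat_lit 5) (nat_lit 7) (C.cons (nat_lit 164) (C.node (nat_lit 2) (nat_lit 7) (nat_lit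 9) C.nil) C.nil)) (C.cons (nat_lit 532) (C.node (nat_lit 2) (nat_lit 5) (nat_lit 7) (C.cons (nat_lit 676) (C.node (nat_lit 2) (nat_lit 3) (nat_lit 9) C.nil) C.nil)) C.nil))) C.nil)) C.nil))) (C.cons (nat_lit 388) (C.node (nat_lit 1) (nat_lit 3) (nat_lit 6) (C.cons (nat_lit 586) (C.node (nat_lit 1) (nat_lit 4) (nat_lit 6) (C.cons (nat_lit 82) (C.node (nat_lit 1) (nat_lit 3) (nat_lit 7) (C.cons (nat_lit 170) (C.node (nat_lit 1) (nat_lit 7) (nat_lit 9) (C.cons (nat_lit 642) (C.node (nat_lit 1) (nat_lit 2) (nat_lit 3) C.nil) C.nil)) (C.cons (nat_lit 138) (C.node (nat_lit 1) (nat_lit 5) (nat_lit 7) (C.cons (nat_lit 674) (C.node (nat_lit 1) (nat_lit 4) (nat_lit 9) C.nil) C.nil)) C.nil))) C.nil)) (C.cons (nat_lit 90) (C.node (nat_lit 1) (nat_lit 6) (nat_lit 9) (C.cons (nat_lit 578) (C.node (nat_lit 1) (nat_lit 2) (nat_lit 3) (C.cons (nat_lit 46) (C.node (nat_lit 1) (nat_lit 2) (nat_lit 4) (C.cons (nat_lit 22) (C.node (nat_lit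 1) (nat_lit 3) (nat_lit 7) C.nil) C.nil)) (C.cons (nat_lit 14) (C.node (nat_lit 1) (nat_lit 2) (nat_lit 4) (C.cons (nat_lit 54) (C.node (nat_lit 1) (nat_lit 4) (nat_lit 8) C.nil) C.nil)) C.nil))) C.nil)) (C.cons (nat_lit 74) (C.node (nat_lit 1) (nat_lit 4) (nat_lit 6) (C.cons (nat_lit 594) (C.node (nat_lit 1) (nat_lit 4) (nat_lit 8) (C.cons (nat_lit 306) (C.node (nat_lit 1) (nat_lit 8) (nat_lit 9) (C.cons (nat_lit 770) (C.node (nat_lit 1) (nat_lit 2) (nat_lit 4) C.nil) C.nil)) (C.cons (nat_lit 274) (C.node (nat_lit 1) (nat_lit 5) (nat_lit 8) (C.cons (nat_lit 802) (C.node (nat_lit 1) (nat_lit 3) (nat_lit 9) C.nil) C.nil)) C.nil))) (C.cons (nat_lit 82) (C.node (nat_lit 1) (nat_lit 6) (nat_lit 9) C.nil) C.nil))) C.nil)))) C.nil))) C.nil))) C.nil))) C.nil)))) C.nil))) C.nil))) C.nil)))) List.nil)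

theorem ok10_77 : okL par10 (nat_lit 78) c10_77 (nat_lit 77) = true := by decide +kernel

noncomputable def c10_78 : List C :=
  (List.cons (C.node (nat_lit 1) (nat_lit 6) (nat_lit 7) (C.cons (nat_lit 202) (C.node (nat_lit 2) (nat_lit 6) (nat_lit 7) (C.cons (nat_lit 228) (C.miq (nat_lit 2188576097) (nat_lit 170463465928803541525856355)) (C.cons (nat_lit 196) (C.node (nat_lit 1) (nat_lit 2) (nat_lit 6) (C.cons (nat_lit 326) (C.node (nat_lit 1) (nat_lit 2) (nat_lit 3) (C.cons (nat_lit 62) (C.miq (nat_lit 2268202517) (nat_lit 170463945732174630738591843)) (C.cons (nat_lit 46) (C.miq (nat_lit 2268202517) (nat_lit 170463945732174630737543267)) (C.cons (nat_lit 30) (C.miq (nat_lit 2551383588) (nat_lit 322793100009172424456011861)) (C.cons (nat_lit 14) (C.node (nat_lit 1) (nat_lit 2) (nat_lit 4) (C.cons (nat_lit 54) (C.node (nat_lit 1) (nat_lit 2) (nat_lit 7) (C.cons (nat_lit 134) (C.node (nat_lit 1) (nat_lit 3) (nat_lit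 4) (C.cons (nat_lit 26) (C.node (nat_lit 1) (nat_lit 4) (nat_lit 6) (C.cons (nat_lit 594) (C.miq (nat_lit 2421450785) (nat_lit 59248322797595324082159942)) (C.cons (nat_lit 82) (C.node (nat_lit 1) (nat_lit 6) (nat_lit 9) (C.cons (nat_lit 578) (C.node (nat_lit 1) (nat_lit 7) (nat_lit 8) (C.cons (nat_lit 418) (C.miq (nat_lit 1750206228) (nat_lit 354216833390831861419606163)) (C.cons (nat_lit 386) (C.node (nat_lit 1) (nat_lit 5) (nat_lit 8) (C.cons (nat_lit 802) (C.miq (nat_lit 2437317920) (nat_lit 99149644755197590460760357)) C.nil)) C.nil))) C.nil)) C.nil))) C.nil)) C.nil)) (C.cons (nat_lit 22) (C.node (nat_lit 1) (nat_lit 2) (nat_lit 5) (C.cons (nat_lit 166) (C.node (nat_lit 1) (nat_lit 7) (nat_lit 8) (C.cons (nat_lit 386) (C.node (nat_lit 1) (nat_lit 7) (nat_lit 9) (C.cons (nat_lit 642) (C.node (nat_lit 1) (nat_lit 3) (nat_lit 4) (C.cons (nat_lit 58) (C.node (nat_lit 1) (nat_lit 3) (nat_lit 9) (C.cons (nat_lit 522)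 (C.node (nat_lit 3) (nat_lit 4) (nat_lit 6) (C.cons (nat_lit 344) (C.miq (nat_lit 2474706018) (nat_lit 322792767848433784887574613)) (C.cons (nat_lit 88) (C.node (nat_lit 3) (nat_lit 4) (nat_lit 7) (C.cons (nat_lit 408) (C.miq (nat_lit 1350833779) (nat_lit 330037818693820190033445066)) (C.cons (nat_lit 152) (C.node (nat_lit 3) (nat_lit 6) (nat_lit 8) (C.cons (nat_lit 360) (C.miq (nat_lit 2202494224) (nat_lit 183774452003809710168014947)) (C.cons (nat_lit 328) (C.node (nat_lit 4) (nat_lit 6) (nat_lit 7) (C.cons (nat_lit 240) (C.miq (nat_lit 2269316689) (nat_lit 183761650132589798420512867)) (C.cons (nat_lit 208) (C.node (nat_lit 5) (nat_lit 6) (nat_lit 7) (C.cons (nat_lit 224) (C.node (nat_lit 2) (nat_lit 7) (nat_lit 8) (C.cons (nat_lit 388) (C.node (nat_lit 2) (nat_lit 4) (nat_lit 7) C.nil) C.nil)) C.nil)) C.nil))) C.nil))) C.nil))) C.nil))) C.nil)) (C.cons (nat_lit 26) (C.node (nat_lit 1) (nat_lit 3) (nat_lit 5)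 (C.cons (nat_lit 554) (C.node (nat_lit 3) (nat_lit 7) (nat_lit 9) (C.cons (nat_lit 648) (C.node (nat_lit 3) (nat_lit 4) (nat_lit 6) (C.cons (nat_lit 376) (C.miq (nat_lit 607716945) (nat_lit 649202739017157110038921315)) (C.cons (nat_lit 344) (C.miq (nat_lit 2474706018) (nat_lit 322792767848433784887574613)) (C.cons (nat_lit 120) (C.miq (nat_lit 607716945) (nat_lit 649202739017156010527293539)) (C.cons (nat_lit 88) (C.node (nat_lit 1) (nat_lit 4) (nat_lit 5) (C.cons (nat_lit 306) (C.node (nat_lit 1) (nat_lit 8) (nat_lit 9) (C.cons (nat_lit 770) (C.node (nat_lit 4) (nat_lit 6) (nat_lit 8) (C.cons (nat_lit 336) (C.node (nat_lit 5) (nat_lit 8) (nat_lit 9) (C.cons (nat_lit 800) (C.node (nat_lit 1) (nat_lit 4) (nat_lit 6) (C.cons (nat_lit 594) (C.node (nat_lit 3) (nat_lit 6) (nat_lit 9) (C.cons (nat_lit 588) (C.miq (nat_lit 423052832) (nat_lit 783386642948857202129829973)) (C.cons (nat_lit 584) (C.node (nat_lit 4) (nat_lit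 8) (nat_lit 9) (C.cons (nat_lit 788) (C.miq (nat_lit 605391200) (nat_lit 369936705919894957223773121)) (C.cons (nat_lit 784) (C.node (nat_lit 2) (nat_lit 3) (nat_lit 9) (C.cons (nat_lit 524) (C.node (nat_lit 2) (nat_lit 8) (nat_lit 9) C.nil) C.nil)) C.nil))) C.nil))) C.nil)) C.nil)) C.nil)) C.nil)) (C.cons (nat_lit 50) (C.node (nat_lit 1) (nat_lit 5) (nat_lit 8) C.nil) C.nil))) C.nil))))) C.nil))
  (C.cons (nat_lit 42) (C.node (nat_lit 1) (nat_lit 3) (nat_lit 9) C.nil) C.nil))) C.nil))) C.nil)) C.nil)) (C.cons (nat_lit 38) (C.node (nat_lit 1) (nat_lit 2) (nat_lit 7) (C.cons (nat_lit 134) (C.node (nat_lit 1) (nat_lit 3) (nat_lit 4) (C.cons (nat_lit 58) (C.node (nat_lit 1) (nat_lit 3) (nat_lit 9) (C.cons (nat_lit 522) (C.node (nat_lit 3) (nat_lit 4) (nat_lit 6) (C.cons (nat_lit 344) (C.miq (nat_lit 2474706018) (nat_lit 322792767848433784887574613)) (C.cons (nat_lit 88) (C.node (nat_lit 3) (nat_lit 4) (nat_lit 7) (C.cons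 (nat_lit 408) (C.miq (nat_lit 1350833779) (nat_lit 330037818693820190033445066)) (C.cons (nat_lit 152) (C.node (nat_lit 3) (nat_lit 6) (nat_lit 8) (C.cons (nat_lit 360) (C.miq (nat_lit 2202494224) (nat_lit 183774452003809710168014947)) (C.cons (nat_lit 328) (C.node (nat_lit 4) (nat_lit 6) (nat_lit 7) (C.cons (nat_lit 240) (C.miq (nat_lit 2269316689) (nat_lit 183761650132589798420512867)) (C.cons (nat_lit 208) (C.node (nat_lit 5) (nat_lit 6) (nat_lit 7) (C.cons (nat_lit 224) (C.node (nat_lit 1) (nat_lit 4) (nat_lit 6) (C.cons (nat_lit 594) (C.node (nat_lit 4) (nat_lit 5) (nat_lit 6) (C.cons (nat_lit 368) (C.miq (nat_lit 558172520) (nat_lit 70123102579750153179104193)) C.nil)) (C.cons (nat_lit 82) (C.node (nat_lit 1) (nat_lit 6) (nat_lit 9) C.nil) C.nil))) C.nil)) C.nil))) C.nil))) C.nil))) C.nil))) C.nil)) (C.cons (nat_lit 26) (C.node (nat_lit 1) (nat_lit 3) (nat_lit 5) (C.cons (nat_lit 554) (C.node (nat_lit 1) (nat_lit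 7) (nat_lit 9) (C.cons (nat_lit 642) (C.node (nat_lit 3) (nat_lit 7) (nat_lit 9) (C.cons (nat_lit 648) (C.node (nat_lit 1) (nat_lit 4) (nat_lit 5) (C.cons (nat_lit 306) (C.node (nat_lit 1) (nat_lit 5) (nat_lit 7) C.nil) C.nil)) C.nil)) C.nil)) (C.cons (nat_lit 42) (C.node (nat_lit 1) (nat_lit 3) (nat_lit 9) (C.cons (nat_lit 522) (C.node (nat_lit 1) (nat_lit 4) (nat_lit 6) (C.cons (nat_lit 82) (C.node (nat_lit 1) (nat_lit 6) (nat_lit 9) C.nil) C.nil)) C.nil)) C.nil))) C.nil))) C.nil)) C.nil))) C.nil))) C.nil))))) (C.cons (nat_lit 70) (C.node (nat_lit 1) (nat_lit 3) (nat_lit 9) (C.cons (nat_lit 554) (C.node (nat_lit 1) (nat_lit 7) (nat_lit 9) (C.cons (nat_lit 642) (C.node (nat_lit 3) (nat_lit 7) (nat_lit 9) (C.cons (nat_lit 648) (C.node (nat_lit 1) (nat_lit 2) (nat_lit 3) (C.cons (nat_lit 30) (C.node (nat_lit 1) (nat_lit 6) (nat_lit 8) (C.cons (nat_lit 338) (C.miq (nat_lit 2167890976) (nat_lit 244220742978348599156211797))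 (C.cons (nat_lit 322) (C.node (nat_lit 1) (nat_lit 4) (nat_lit 6) (C.cons (nat_lit 594) (C.miq (nat_lit 2436326432) (nat_lit 244220743050406193194139733)) (C.cons (nat_lit 82) (C.node (nat_lit 1) (nat_lit 6) (nat_lit 9) (C.cons (nat_lit 578) (C.node (nat_lit 2) (nat_lit 6) (nat_lit 8) (C.cons (nat_lit 332) (C.miq (nat_lit 2199347776) (nat_lit 244220742976659749296341077)) (C.cons (nat_lit 324) (C.node (nat_lit 3) (nat_lit 6) (nat_lit 9) (C.cons (nat_lit 588) (C.miq (nat_lit 2467783232) (nat_lit 244220743048717343334269013)) (C.cons (nat_lit 584) (C.node (nat_lit 3) (nat_lit 4) (nat_lit 6) (C.cons (nat_lit 376) (C.miq (nat_lit 607716945) (nat_lit 649202739017157110038921315)) (C.cons (nat_lit 344) (C.miq (nat_lit 2199479328) (nat_lit 669762631484386918537822293)) (C.cons (nat_lit 120) (C.miq (nat_lit 607716945) (nat_lit 649202739017156010527293539)) (C.cons (nat_lit 88) (C.node (nat_lit 2) (nat_lit 3) (nat_lit 6)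 C.nil) C.nil))))) C.nil))) C.nil))) C.nil)) C.nil))) C.nil))) (C.cons (nat_lit 14) (C.node (nat_lit 1) (nat_lit 3) (nat_lit 4) (C.cons (nat_lit 26) (C.node (nat_lit 1) (nat_lit 6) (nat_lit 8) (C.cons (nat_lit 338) (C.node (nat_lit 1) (nat_lit 4) (nat_lit 9) (C.cons (nat_lit 530) (C.node (nat_lit 1) (nat_lit 6) (nat_lit 9) (C.cons (nat_lit 578) (C.node (nat_lit 1) (nat_lit 8) (nat_lit 9) C.nil) C.nil)) C.nil)) (C.cons (nat_lit 322) (C.node (nat_lit 1) (nat_lit 4) (nat_lit 6) (C.cons (nat_lit 594) (C.node (nat_lit 1) (nat_lit 8) (nat_lit 9) (C.cons (nat_lit 770) (C.node (nat_lit 3) (nat_lit 6) (nat_lit 9) (C.cons (nat_lit 588)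
  (C.miq (nat_lit 423052832) (nat_lit 783386642948857202129829973)) (C.cons (nat_lit 584) (C.node (nat_lit 1) (nat_lit 2) (nat_lit 4) (C.cons (nat_lit 278) (C.node (nat_lit 1) (nat_lit 4) (nat_lit 5) C.nil) (C.cons (nat_lit 54) (C.miq (nat_lit 2299856450) (nat_lit 669750309233018163518898261)) C.nil))) C.nil))) C.nil)) (C.cons (nat_lit 82) (C.node (nat_lit 1) (nat_lit 6) (nat_lit 9) (C.cons (nat_lit 578) (C.node (nat_lit 1) (nat_lit 4) (nat_lit 9) (C.cons (nat_lit 530) (C.node (nat_lit 1) (nat_lit 8) (nat_lit 9) C.nil) C.nil)) C.nil)) C.nil))) C.nil))) C.nil)) C.nil))) C.nil)) C.nil)) (C.cons (nat_lit 522) (C.node (nat_lit 1) (nat_lit 6) (nat_lit 8) (C.cons (nat_lit 338) (C.node (nat_lit 1) (nat_lit 6) (nat_lit 9) (C.cons (nat_lit 578) (C.node (nat_lit 2) (nat_lit 6) (nat_lit 8) (C.cons (nat_lit 332) (C.miq (nat_lit 1904411746) (nat_lit 322785794869398655990497365)) (C.cons (nat_lit 324) (C.node (nat_lit 1) (nat_lit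 2) (nat_lit 3) (C.cons (nat_lit 62) (C.miq (nat_lit 2268202517) (nat_lit 170463945732174630738591843)) (C.cons (nat_lit 46) (C.miq (nat_lit 2268202517) (nat_lit 170463945732174630737543267)) (C.cons (nat_lit 30) (C.miq (nat_lit 2167890976) (nat_lit 244220742978348599156211797)) (C.cons (nat_lit 14) (C.node (nat_lit 1) (nat_lit 2) (nat_lit 4) (C.cons (nat_lit 54) (C.node (nat_lit 1) (nat_lit 3) (nat_lit 4) (C.cons (nat_lit 26) (C.node (nat_lit 1) (nat_lit 3) (nat_lit 5) (C.cons (nat_lit 42) (C.node (nat_lit 1) (nat_lit 4) (nat_lit 9) C.nil) C.nil)) C.nil)) (C.cons (nat_lit 22) (C.node (nat_lit 1) (nat_lit 2) (nat_lit 5) (C.cons (nat_lit 166) (C.node (nat_lit 1) (nat_lit 2) (nat_lit 8) (C.cons (nat_lit 262) (C.node (nat_lit 1) (nat_lit 7) (nat_lit 8) C.nil) C.nil)) (C.cons (nat_lit 38) (C.node (nat_lit 1) (nat_lit 2) (nat_lit 7) (C.cons (nat_lit 390) (C.node (nat_lit 1) (nat_lit 3) (nat_lit 4) (C.cons (nat_lit 58)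 (C.node (nat_lit 1) (nat_lit 4) (nat_lit 9) C.nil) C.nil)) (C.cons (nat_lit 134) (C.node (nat_lit 1) (nat_lit 2) (nat_lit 8) (C.cons (nat_lit 262) (C.node (nat_lit 1) (nat_lit 3) (nat_lit 4) C.nil) C.nil)) C.nil))) C.nil))) C.nil))) C.nil))))) C.nil))) C.nil)) (C.cons (nat_lit 322) (C.node (nat_lit 1) (nat_lit 4) (nat_lit 6) (C.cons (nat_lit 594) (C.node (nat_lit 1) (nat_lit 2) (nat_lit 3) (C.cons (nat_lit 62) (C.miq (nat_lit 2268202517) (nat_lit 170463945732174630738591843)) (C.cons (nat_lit 46) (C.miq (nat_lit 2268202517) (nat_lit 170463945732174630737543267)) (C.cons (nat_lit 30) (C.miq (nat_lit 2436326432) (nat_lit 244220743050406193194139733)) (C.cons (nat_lit 14) (C.node (nat_lit 1) (nat_lit 3) (nat_lit 4) (C.cons (nat_lit 58) (C.node (nat_lit 1) (nat_lit 8) (nat_lit 9) (C.cons (nat_lit 802) (C.miq (nat_lit 622069910) (nat_lit 70119265593370370223768513)) (C.cons (nat_lit 770) (C.node (nat_lit 3) (nat_lit 4)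 (nat_lit 7) (C.cons (nat_lit 408) (C.miq (nat_lit 1350833779) (nat_lit 330037818693820190033445066)) (C.cons (nat_lit 152) (C.node (nat_lit 4) (nat_lit 6) (nat_lit 7) (C.cons (nat_lit 240) (C.miq (nat_lit 2269316689) (nat_lit 183761650132589798420512867)) (C.cons (nat_lit 208) (C.node (nat_lit 5) (nat_lit 6) (nat_lit 7) (C.cons (nat_lit 224) (C.node (nat_lit 4) (nat_lit 5) (nat_lit 6) (C.cons (nat_lit 368) (C.miq (nat_lit 558172520) (nat_lit 70123102579750153179104193)) (C.cons (nat_lit 112) (C.node (nat_lit 2) (nat_lit 6) (nat_lit 8) (C.cons (nat_lit 324) (C.node (nat_lit 3) (nat_lit 4) (nat_lit 6) C.nil) C.nil)) C.nil))) C.nil)) C.nil))) C.nil))) C.nil))) (C.cons (nat_lit 26) (C.node (nat_lit 1) (nat_lit 3) (nat_lit 5) (C.cons (nat_lit 42) (C.node (nat_lit 1) (nat_lit 7) (nat_lit 9) (C.cons (nat_lit 674) (C.node (nat_lit 1) (nat_lit 8) (nat_lit 9) C.nil) (C.cons (nat_lit 642) (C.node (nat_lit 1) (nat_lit 5) (nat_lit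 9) (C.cons (nat_lit 546) (C.node (nat_lit 1) (nat_lit 8) (nat_lit 9) C.nil) C.nil)) C.nil))) C.nil)) C.nil))) C.nil))))) (C.cons (nat_lit 82) (C.node (nat_lit 1) (nat_lit 6) (nat_lit 9) (C.cons (nat_lit 578) (C.node (nat_lit 1) (nat_lit 7) (nat_lit 9) (C.cons (nat_lit 674)
  (C.node (nat_lit 3) (nat_lit 7) (nat_lit 9) (C.cons (nat_lit 648) (C.node (nat_lit 1) (nat_lit 2) (nat_lit 7) (C.cons (nat_lit 390) (C.node (nat_lit 1) (nat_lit 4) (nat_lit 9) (C.cons (nat_lit 786) (C.node (nat_lit 1) (nat_lit 5) (nat_lit 8) (C.cons (nat_lit 290) (C.node (nat_lit 1) (nat_lit 2) (nat_lit 5) (C.cons (nat_lit 62) (C.miq (nat_lit 2268202517) (nat_lit 170463945732174630738591843)) (C.cons (nat_lit 54) (C.miq (nat_lit 873597319) (nat_lit 65284595401259806844388289)) (C.cons (nat_lit 46) (C.miq (nat_lit 1092851824) (nat_lit 55620493825081530806764481)) C.nil)))) C.nil)) (C.cons (nat_lit 530) (C.node (nat_lit 1) (nat_lit 8) (nat_lit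 9) C.nil) C.nil))) (C.cons (nat_lit 134) (C.node (nat_lit 1) (nat_lit 7) (nat_lit 8) (C.cons (nat_lit 386) (C.node (nat_lit 1) (nat_lit 2) (nat_lit 8) (C.cons (nat_lit 262) (C.node (nat_lit 1) (nat_lit 4) (nat_lit 9) C.nil) C.nil)) C.nil)) C.nil))) C.nil)) (C.cons (nat_lit 642) (C.node (nat_lit 2) (nat_lit 6) (nat_lit 8) (C.cons (nat_lit 332) (C.node (nat_lit 1) (nat_lit 2) (nat_lit 3) (C.cons (nat_lit 62) (C.miq (nat_lit 1932026192) (nat_lit 401381099489969932484280419)) (C.cons (nat_lit 46) (C.miq (nat_lit 1932026192) (nat_lit 401381099489969863764803683)) (C.cons (nat_lit 30) (C.miq (nat_lit 2199347776) (nat_lit 244220742976659749296341077)) (C.cons (nat_lit 14) (C.node (nat_lit 1) (nat_lit 3) (nat_lit 4) (C.cons (nat_lit 58) (C.node (nat_lit 2) (nat_lit 3) (nat_lit 4) (C.cons (nat_lit 28) (C.node (nat_lit 3) (nat_lit 4) (nat_lit 6) (C.cons (nat_lit 88) (C.node (nat_lit 1) (nat_lit 2) (nat_lit 4) (C.cons (nat_lit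 22) (C.node (nat_lit 1) (nat_lit 2) (nat_lit 5) C.nil) C.nil)) C.nil)) C.nil)) (C.cons (nat_lit 26) (C.node (nat_lit 1) (nat_lit 3) (nat_lit 5) C.nil) C.nil))) C.nil))))) (C.cons (nat_lit 324) (C.node (nat_lit 3) (nat_lit 7) (nat_lit 9) (C.cons (nat_lit 680) (C.node (nat_lit 4) (nat_lit 6) (nat_lit 9) (C.cons (nat_lit 624) (C.miq (nat_lit 1462145796) (nat_lit 236960971604172902761824793)) (C.cons (nat_lit 592) (C.node (nat_lit 2) (nat_lit 7) (nat_lit 9) (C.cons (nat_lit 660) (C.node (nat_lit 2) (nat_lit 5) (nat_lit 9) (C.cons (nat_lit 612) (C.miq (nat_lit 1500602944) (nat_lit 776132202592520747841945685)) (C.cons (nat_lit 548) (C.node (nat_lit 5) (nat_lit 6) (nat_lit 9) (C.cons (nat_lit 608) (C.node (nat_lit 2) (nat_lit 5) (nat_lit 6) C.nil) C.nil)) C.nil))) (C.cons (nat_lit 644) (C.node (nat_lit 4) (nat_lit 7) (nat_lit 9) (C.cons (nat_lit 656) (C.node (nat_lit 3) (nat_lit 4) (nat_lit 7) (C.cons (nat_lit 408) (C.node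 (nat_lit 2) (nat_lit 7) (nat_lit 8) (C.cons (nat_lit 390) (C.miq (nat_lit 1193883664) (nat_lit 778558133848232236109201675)) (C.cons (nat_lit 388) (C.node (nat_lit 4) (nat_lit 6) (nat_lit 7) (C.cons (nat_lit 240) (C.miq (nat_lit 1417701169) (nat_lit 330038575050012808715108554)) C.nil)) C.nil))) (C.cons (nat_lit 152) (C.node (nat_lit 3) (nat_lit 7) (nat_lit 8) (C.cons (nat_lit 392) (C.node (nat_lit 4) (nat_lit 6) (nat_lit 7) (C.cons (nat_lit 208) (C.node (nat_lit 5) (nat_lit 6) (nat_lit 7) C.nil) C.nil)) C.nil)) C.nil))) C.nil)) C.nil))) C.nil))) (C.cons (nat_lit 648) (C.node (nat_lit 4) (nat_lit 6) (nat_lit 7) (C.cons (nat_lit 240) (C.node (nat_lit 4) (nat_lit 6) (nat_lit 9) (C.cons (nat_lit 592) (C.node (nat_lit 3) (nat_lit 4) (nat_lit 6) C.nil) C.nil)) (C.cons (nat_lit 208) (C.node (nat_lit 5) (nat_lit 6) (nat_lit 7) (C.cons (nat_lit 224) (C.node (nat_lit 4) (nat_lit 6) (nat_lit 9) C.nil) C.nil)) C.nil))) C.nil)))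 C.nil))) C.nil))) C.nil)) C.nil))) C.nil))) C.nil))) C.nil))) C.nil))) (C.cons (nat_lit 198) (C.node (nat_lit 1) (nat_lit 2) (nat_lit 8) (C.cons (nat_lit 278) (C.node (nat_lit 1) (nat_lit 6) (nat_lit 8) (C.cons (nat_lit 322) (C.node (nat_lit 2) (nat_lit 7) (nat_lit 8) (C.cons (nat_lit 388) (C.node (nat_lit 1) (nat_lit 2) (nat_lit 3) (C.cons (nat_lit 46) (C.node (nat_lit 2) (nat_lit 3) (nat_lit 4) (C.cons (nat_lit 28) (C.node (nat_lit 1) (nat_lit 3) (nat_lit 7) (C.cons (nat_lit 650) (C.miq (nat_lit 824481632) (nat_lit 336091283937394077868557249))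
  (C.cons (nat_lit 138) (C.node (nat_lit 1) (nat_lit 8) (nat_lit 9) (C.cons (nat_lit 802) (C.miq (nat_lit 2436334880) (nat_lit 166849490653616789888237861)) (C.cons (nat_lit 770) (C.node (nat_lit 3) (nat_lit 6) (nat_lit 7) (C.cons (nat_lit 248) (C.miq (nat_lit 2536638033) (nat_lit 170468114696335486664704099)) (C.cons (nat_lit 232) (C.miq (nat_lit 2536638033) (nat_lit 170468114696335417945227363)) (C.cons (nat_lit 216) (C.miq (nat_lit 2473657442) (nat_lit 166841337118146071586275413)) (C.cons (nat_lit 200) (C.node (nat_lit 1) (nat_lit 3) (nat_lit 4) (C.cons (nat_lit 90) (C.node (nat_lit 1) (nat_lit 3) (nat_lit 9) (C.cons (nat_lit 522) (C.node (nat_lit 1) (nat_lit 6) (nat_lit 9) (C.cons (nat_lit 578) (C.node (nat_lit 2) (nat_lit 8) (nat_lit 9) (C.cons (nat_lit 780) (C.miq (nat_lit 2467725904) (nat_lit 108821051305922140011954469)) (C.cons (nat_lit 772) (C.node (nat_lit 2) (nat_lit 3) (nat_lit 9) (C.cons (nat_lit 588)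 (C.miq (nat_lit 840210032) (nat_lit 336091283919942629316559809)) (C.cons (nat_lit 524) (C.node (nat_lit 2) (nat_lit 5) (nat_lit 6) (C.cons (nat_lit 612) (C.miq (nat_lit 2300773969) (nat_lit 633482055029233449138258019)) (C.cons (nat_lit 100) (C.node (nat_lit 2) (nat_lit 6) (nat_lit 9) (C.cons (nat_lit 580) (C.node (nat_lit 2) (nat_lit 3) (nat_lit 6) (C.cons (nat_lit 332) (C.node (nat_lit 3) (nat_lit 5) (nat_lit 6) C.nil) C.nil)) C.nil)) C.nil))) C.nil))) C.nil))) C.nil)) C.nil)) (C.cons (nat_lit 26) (C.node (nat_lit 1) (nat_lit 4) (nat_lit 6) (C.cons (nat_lit 594) (C.miq (nat_lit 1092851312) (nat_lit 55620493771037510644597697)) (C.cons (nat_lit 82) (C.node (nat_lit 1) (nat_lit 3) (nat_lit 6) (C.cons (nat_lit 586) (C.node (nat_lit 2) (nat_lit 3) (nat_lit 6) (C.cons (nat_lit 332) (C.miq (nat_lit 2468897104) (nat_lit 401381099598056254821695587)) (C.cons (nat_lit 76) (C.node (nat_lit 2) (nat_lit 6) (nat_lit 8) (C.cons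 (nat_lit 324) (C.node (nat_lit 2) (nat_lit 3) (nat_lit 8) (C.cons (nat_lit 780) (C.node (nat_lit 3) (nat_lit 5) (nat_lit 6) (C.cons (nat_lit 104) (C.miq (nat_lit 2203488784) (nat_lit 125746012780526948457841159)) C.nil)) (C.cons (nat_lit 268) (C.miq (nat_lit 2468897104) (nat_lit 324009847142719987640500323)) C.nil))) C.nil)) C.nil))) (C.cons (nat_lit 74) (C.node (nat_lit 1) (nat_lit 3) (nat_lit 9) C.nil) C.nil))) C.nil))) C.nil))) C.nil))))) C.nil))) C.nil))) C.nil)) (C.cons (nat_lit 14) (C.node (nat_lit 1) (nat_lit 2) (nat_lit 5) (C.cons (nat_lit 38) (C.node (nat_lit 1) (nat_lit 7) (nat_lit 8) (C.cons (nat_lit 418) (C.node (nat_lit 1) (nat_lit 8) (nat_lit 9) (C.cons (nat_lit 770) (C.node (nat_lit 1) (nat_lit 3) (nat_lit 7) (C.cons (nat_lit 650) (C.miq (nat_lit 824481632) (nat_lit 336091283937394077868557249)) (C.cons (nat_lit 138) (C.node (nat_lit 1) (nat_lit 7) (nat_lit 9) (C.cons (nat_lit 642) (C.node (nat_lit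 1) (nat_lit 4) (nat_lit 6) (C.cons (nat_lit 594) (C.miq (nat_lit 1092851312) (nat_lit 16934867543369377054000065)) (C.cons (nat_lit 90) (C.node (nat_lit 1) (nat_lit 6) (nat_lit 9) C.nil) C.nil))) C.nil)) C.nil))) C.nil)) (C.cons (nat_lit 386) (C.node (nat_lit 1) (nat_lit 5) (nat_lit 8) (C.cons (nat_lit 802) (C.node (nat_lit 4) (nat_lit 8) (nat_lit 9) (C.cons (nat_lit 784) (C.node (nat_lit 1) (nat_lit 4) (nat_lit 9) (C.cons (nat_lit 594) (C.miq (nat_lit 1363315040) (nat_lit 336086782974625990005031873)) (C.cons (nat_lit 530) (C.node (nat_lit 1) (nat_lit 7) (nat_lit 9) (C.cons (nat_lit 650) (C.miq (nat_lit 824481632) (nat_lit 336091283937394077868557249)) (C.cons (nat_lit 642) (C.node (nat_lit 1) (nat_lit 3) (nat_lit 7) (C.cons (nat_lit 170) (C.node (nat_lit 1) (nat_lit 4) (nat_lit 5) C.nil) C.nil)) C.nil))) C.nil))) C.nil)) (C.cons (nat_lit 290) (C.node (nat_lit 1) (nat_lit 8) (nat_lit 9) (C.cons (nat_lit 770) (C.node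 (nat_lit 2) (nat_lit 3) (nat_lit 4) (C.cons (nat_lit 60) (C.node (nat_lit 4) (nat_lit 8) (nat_lit 9) (C.cons (nat_lit 816) (C.miq (nat_lit 2034436178) (nat_lit 649195766394471217180180773)) (C.cons (nat_lit 784) (C.node (nat_lit 5) (nat_lit 8) (nat_lit 9) (C.cons (nat_lit 808)
  (C.miq (nat_lit 1765017682) (nat_lit 649194733376803055085551909)) (C.cons (nat_lit 800) (C.node (nat_lit 4) (nat_lit 6) (nat_lit 9) (C.cons (nat_lit 624) (C.miq (nat_lit 1383482121) (nat_lit 239378823068887675608039961)) (C.cons (nat_lit 594) (C.miq (nat_lit 1092851312) (nat_lit 16934867543369377054000065)) (C.cons (nat_lit 592) (C.node (nat_lit 3) (nat_lit 7) (nat_lit 9) (C.cons (nat_lit 682) (C.miq (nat_lit 824481632) (nat_lit 336091283946401277123298241)) (C.cons (nat_lit 680) (C.miq (nat_lit 1416180231) (nat_lit 715696629014719457658994829)) (C.cons (nat_lit 650) (C.miq (nat_lit 824481632) (nat_lit 336091283937394077868557249)) (C.cons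 (nat_lit 648) (C.node (nat_lit 1) (nat_lit 3) (nat_lit 4) (C.cons (nat_lit 90) (C.node (nat_lit 1) (nat_lit 6) (nat_lit 9) C.nil) (C.cons (nat_lit 26) (C.node (nat_lit 1) (nat_lit 4) (nat_lit 6) (C.cons (nat_lit 82) (C.node (nat_lit 1) (nat_lit 3) (nat_lit 6) C.nil) C.nil)) C.nil))) C.nil))))) C.nil)))) C.nil))) C.nil))) (C.cons (nat_lit 28) (C.node (nat_lit 2) (nat_lit 6) (nat_lit 8) (C.cons (nat_lit 332) (C.node (nat_lit 2) (nat_lit 8) (nat_lit 9) (C.cons (nat_lit 772) (C.node (nat_lit 3) (nat_lit 8) (nat_lit 9) (C.cons (nat_lit 776) (C.node (nat_lit 4) (nat_lit 6) (nat_lit 8) C.nil) C.nil)) C.nil)) (C.cons (nat_lit 324) (C.node (nat_lit 2) (nat_lit 3) (nat_lit 8) (C.cons (nat_lit 780) (C.node (nat_lit 4) (nat_lit 8) (nat_lit 9) (C.cons (nat_lit 784) (C.node (nat_lit 5) (nat_lit 8) (nat_lit 9) C.nil) C.nil)) (C.cons (nat_lit 268) (C.node (nat_lit 2) (nat_lit 8) (nat_lit 9) (C.cons (nat_lit 772) (C.node (nat_lit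 3) (nat_lit 8) (nat_lit 9) C.nil) C.nil)) C.nil))) C.nil))) C.nil))) C.nil)) C.nil))) C.nil))) C.nil)) C.nil))) C.nil)) C.nil)) (C.cons (nat_lit 262) (C.node (nat_lit 1) (nat_lit 6) (nat_lit 8) (C.cons (nat_lit 338) (C.node (nat_lit 2) (nat_lit 6) (nat_lit 8) (C.cons (nat_lit 332) (C.miq (nat_lit 1904411746) (nat_lit 322785794869398655990497365)) (C.cons (nat_lit 324) (C.node (nat_lit 1) (nat_lit 3) (nat_lit 6) (C.cons (nat_lit 586) (C.node (nat_lit 1) (nat_lit 3) (nat_lit 7) (C.cons (nat_lit 170) (C.node (nat_lit 1) (nat_lit 7) (nat_lit 8) (C.cons (nat_lit 386) (C.node (nat_lit 1) (nat_lit 7) (nat_lit 9) (C.cons (nat_lit 642) (C.node (nat_lit 3) (nat_lit 7) (nat_lit 9) (C.cons (nat_lit 648) (C.node (nat_lit 1) (nat_lit 2) (nat_lit 3) (C.cons (nat_lit 30) (C.miq (nat_lit 2167890976) (nat_lit 205535116750680465565614165)) (C.cons (nat_lit 14) (C.node (nat_lit 1) (nat_lit 3) (nat_lit 4) (C.cons (nat_lit 26) (C.node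 (nat_lit 2) (nat_lit 3) (nat_lit 6) (C.cons (nat_lit 108) (C.miq (nat_lit 1110902353) (nat_lit 170461252260967385825673315)) (C.cons (nat_lit 76) (C.node (nat_lit 3) (nat_lit 6) (nat_lit 7) (C.cons (nat_lit 216) (C.miq (nat_lit 924403232) (nat_lit 776140282154958957597622357)) (C.cons (nat_lit 200) (C.node (nat_lit 3) (nat_lit 6) (nat_lit 8) (C.cons (nat_lit 360) (C.miq (nat_lit 557123944) (nat_lit 205522794376588586385933249)) (C.cons (nat_lit 328) (C.node (nat_lit 5) (nat_lit 6) (nat_lit 8) (C.cons (nat_lit 352) (C.node (nat_lit 2) (nat_lit 5) (nat_lit 6) (C.cons (nat_lit 612) (C.miq (nat_lit 1446521104) (nat_lit 396533073901877168817504775)) C.nil)) C.nil)) C.nil))) C.nil))) C.nil))) C.nil)) C.nil))) C.nil)) C.nil)) C.nil)) (C.cons (nat_lit 138) (C.node (nat_lit 1) (nat_lit 4) (nat_lit 9) (C.cons (nat_lit 562) (C.node (nat_lit 1) (nat_lit 7) (nat_lit 9) (C.cons (nat_lit 642) (C.node (nat_lit 1) (nat_lit 8) (nat_lit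 9) (C.cons (nat_lit 770) (C.node (nat_lit 4) (nat_lit 6) (nat_lit 9) (C.cons (nat_lit 592) (C.node (nat_lit 1) (nat_lit 2) (nat_lit 4) (C.cons (nat_lit 30) (C.miq (nat_lit 2167890976) (nat_lit 166849490523012331975016533)) (C.cons (nat_lit 22) (C.node (nat_lit 1) (nat_lit 3) (nat_lit 4) (C.cons (nat_lit 26) (C.node (nat_lit 1) (nat_lit 2) (nat_lit 3) (C.cons (nat_lit 46) (C.node (nat_lit 2) (nat_lit 3) (nat_lit 6) (C.cons (nat_lit 76) (C.node (nat_lit 1) (nat_lit 5) (nat_lit 7) (C.cons (nat_lit 418) (C.node (nat_lit 2) (nat_lit 3) (nat_lit 4)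
  (C.cons (nat_lit 284) (C.miq (nat_lit 2468897104) (nat_lit 343352660256554054435799139)) (C.cons (nat_lit 28) (C.node (nat_lit 2) (nat_lit 3) (nat_lit 8) (C.cons (nat_lit 780) (C.node (nat_lit 4) (nat_lit 8) (nat_lit 9) (C.cons (nat_lit 784) (C.node (nat_lit 5) (nat_lit 8) (nat_lit 9) (C.cons (nat_lit 800) (C.node (nat_lit 2) (nat_lit 4) (nat_lit 8) (C.cons (nat_lit 404) (C.miq (nat_lit 1652884593) (nat_lit 354217091398676753649107091)) C.nil)) C.nil)) C.nil)) (C.cons (nat_lit 268) (C.miq (nat_lit 2468897104) (nat_lit 324009847142719987640500323)) C.nil))) C.nil))) C.nil)) C.nil)) C.nil)) C.nil)) C.nil))) C.nil)) C.nil)) C.nil)) (C.cons (nat_lit 530) (C.node (nat_lit 1) (nat_lit 7) (nat_lit 8) (C.cons (nat_lit 418) (C.node (nat_lit 1) (nat_lit 5) (nat_lit 9) (C.cons (nat_lit 546) (C.node (nat_lit 1) (nat_lit 7) (nat_lit 9) (C.cons (nat_lit 642) (C.node (nat_lit 1) (nat_lit 8) (nat_lit 9) (C.cons (nat_lit 770) (C.node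 (nat_lit 1) (nat_lit 2) (nat_lit 4) (C.cons (nat_lit 62) (C.miq (nat_lit 2167890976) (nat_lit 166849490523012469413970005)) (C.cons (nat_lit 54) (C.miq (nat_lit 1750206228) (nat_lit 354216833390831861419606163)) (C.cons (nat_lit 30) (C.miq (nat_lit 2167890976) (nat_lit 166849490523012331975016533)) C.nil)))) C.nil)) C.nil)) C.nil)) (C.cons (nat_lit 386) (C.node (nat_lit 1) (nat_lit 5) (nat_lit 7) (C.cons (nat_lit 674) (C.node (nat_lit 1) (nat_lit 5) (nat_lit 8) (C.cons (nat_lit 290) (C.node (nat_lit 1) (nat_lit 8) (nat_lit 9) (C.cons (nat_lit 770) (C.node (nat_lit 1) (nat_lit 2) (nat_lit 4) (C.cons (nat_lit 62) (C.miq (nat_lit 2167890976) (nat_lit 166849490523012469413970005)) (C.cons (nat_lit 54) (C.miq (nat_lit 2420471329) (nat_lit 59249798537120327493091526)) (C.cons (nat_lit 30) (C.miq (nat_lit 2167890976) (nat_lit 166849490523012331975016533)) C.nil)))) C.nil)) C.nil)) (C.cons (nat_lit 162) (C.node (nat_lit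 1) (nat_lit 7) (nat_lit 9) (C.cons (nat_lit 642) (C.node (nat_lit 1) (nat_lit 5) (nat_lit 8) (C.cons (nat_lit 802) (C.node (nat_lit 1) (nat_lit 2) (nat_lit 3) (C.cons (nat_lit 62) (C.miq (nat_lit 2167890976) (nat_lit 166849490523012469413970005)) (C.cons (nat_lit 46) (C.miq (nat_lit 2436334880) (nat_lit 166849490653616789888237861)) (C.cons (nat_lit 30) (C.miq (nat_lit 2167890976) (nat_lit 166849490523012331975016533)) C.nil)))) C.nil)) C.nil)) C.nil))) C.nil))) C.nil))) C.nil))) (C.cons (nat_lit 74) (C.node (nat_lit 1) (nat_lit 6) (nat_lit 9) (C.cons (nat_lit 578) (C.node (nat_lit 1) (nat_lit 4) (nat_lit 9) (C.cons (nat_lit 562) (C.node (nat_lit 1) (nat_lit 8) (nat_lit 9) (C.cons (nat_lit 770) (C.node (nat_lit 4) (nat_lit 6) (nat_lit 9) (C.cons (nat_lit 592) (C.node (nat_lit 1) (nat_lit 2) (nat_lit 4) (C.cons (nat_lit 30) (C.miq (nat_lit 2014512706) (nat_lit 322785795098519287013179477)) (C.cons (nat_lit 22) (C.node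 (nat_lit 1) (nat_lit 3) (nat_lit 4) (C.cons (nat_lit 26) (C.node (nat_lit 1) (nat_lit 3) (nat_lit 9) (C.cons (nat_lit 650) (C.miq (nat_lit 824481632) (nat_lit 26606274116049009143776193)) C.nil)) C.nil)) C.nil))) C.nil)) C.nil)) (C.cons (nat_lit 530) (C.node (nat_lit 1) (nat_lit 7) (nat_lit 8) (C.cons (nat_lit 418) (C.node (nat_lit 1) (nat_lit 8) (nat_lit 9) (C.cons (nat_lit 770) (C.node (nat_lit 1) (nat_lit 3) (nat_lit 7) (C.cons (nat_lit 650) (C.miq (nat_lit 2439264032) (nat_lit 408626833114271828350926989)) (C.cons (nat_lit 138) (C.node (nat_lit 1) (nat_lit 7) (nat_lit 9) C.nil) C.nil))) C.nil)) (C.cons (nat_lit 386) (C.node (nat_lit 1) (nat_lit 5) (nat_lit 8) (C.cons (nat_lit 802) (C.node (nat_lit 1) (nat_lit 3) (nat_lit 9) (C.cons (nat_lit 650) (C.miq (nat_lit 2439264032) (nat_lit 408626833114271828350926989)) (C.cons (nat_lit 522) (C.node (nat_lit 1) (nat_lit 7) (nat_lit 9) C.nil) C.nil))) (C.cons (nat_lit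 290) (C.node (nat_lit 1) (nat_lit 8) (nat_lit 9) (C.cons (nat_lit 770) (C.node (nat_lit 1) (nat_lit 2) (nat_lit 3) (C.cons (nat_lit 14) (C.node (nat_lit 1) (nat_lit 2) (nat_lit 4) C.nil) C.nil)) C.nil)) C.nil))) C.nil))) C.nil))) C.nil)) C.nil))) C.nil))) (C.cons (nat_lit 322)
  (C.node (nat_lit 1) (nat_lit 7) (nat_lit 8) (C.cons (nat_lit 418) (C.node (nat_lit 2) (nat_lit 7) (nat_lit 8) (C.cons (nat_lit 404) (C.miq (nat_lit 1652884593) (nat_lit 354217091398676753649107091)) (C.cons (nat_lit 388) (C.node (nat_lit 1) (nat_lit 3) (nat_lit 7) (C.cons (nat_lit 650) (C.node (nat_lit 1) (nat_lit 3) (nat_lit 6) (C.cons (nat_lit 90) (C.miq (nat_lit 607215767) (nat_lit 108806976244570899675218881)) (C.cons (nat_lit 74) (C.node (nat_lit 1) (nat_lit 4) (nat_lit 6) (C.cons (nat_lit 594) (C.node (nat_lit 1) (nat_lit 4) (nat_lit 8) (C.cons (nat_lit 274) (C.node (nat_lit 1) (nat_lit 5) (nat_lit 9) (C.cons (nat_lit 546) (C.node (nat_lit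 1) (nat_lit 8) (nat_lit 9) (C.cons (nat_lit 770) (C.node (nat_lit 1) (nat_lit 2) (nat_lit 5) (C.cons (nat_lit 62) (C.miq (nat_lit 2438489120) (nat_lit 505348720087166232379588693)) (C.cons (nat_lit 54) (C.miq (nat_lit 824481632) (nat_lit 65291900343717142734373825)) (C.cons (nat_lit 46) (C.miq (nat_lit 1125255542) (nat_lit 55612155826674061583713217)) C.nil)))) C.nil)) C.nil)) C.nil)) (C.cons (nat_lit 82) (C.miq (nat_lit 2439264032) (nat_lit 99141823292926759626145933)) C.nil))) C.nil))) (C.cons (nat_lit 138) (C.node (nat_lit 1) (nat_lit 7) (nat_lit 9) (C.cons (nat_lit 642) (C.node (nat_lit 1) (nat_lit 2) (nat_lit 4) (C.cons (nat_lit 62) (C.miq (nat_lit 2534606372) (nat_lit 166841669278884711165198421)) (C.cons (nat_lit 54) (C.miq (nat_lit 1750206228) (nat_lit 354216833390831861419606163)) (C.cons (nat_lit 30) (C.miq (nat_lit 2534606372) (nat_lit 166841669278884711163101269)) (C.cons (nat_lit 22) (C.node (nat_lit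 1) (nat_lit 2) (nat_lit 3) (C.cons (nat_lit 46) (C.node (nat_lit 3) (nat_lit 6) (nat_lit 7) (C.cons (nat_lit 248) (C.miq (nat_lit 2536638033) (nat_lit 170468114696335486664704099)) (C.cons (nat_lit 232) (C.miq (nat_lit 2536638033) (nat_lit 170468114696335417945227363)) (C.cons (nat_lit 216) (C.miq (nat_lit 924403232) (nat_lit 776140282154958957597622357)) (C.cons (nat_lit 200) (C.node (nat_lit 1) (nat_lit 3) (nat_lit 4) (C.cons (nat_lit 90) (C.node (nat_lit 1) (nat_lit 3) (nat_lit 9) (C.cons (nat_lit 522) (C.node (nat_lit 1) (nat_lit 6) (nat_lit 9) C.nil) C.nil)) (C.cons (nat_lit 26) (C.node (nat_lit 1) (nat_lit 4) (nat_lit 6) (C.cons (nat_lit 594) (C.miq (nat_lit 1092851312) (nat_lit 55620493771037510644597697)) C.nil)) C.nil))) C.nil))))) (C.cons (nat_lit 14) (C.node (nat_lit 1) (nat_lit 2) (nat_lit 5) (C.cons (nat_lit 38) (C.node (nat_lit 1) (nat_lit 4) (nat_lit 8) (C.cons (nat_lit 274) (C.node (nat_lit 1) (nat_lit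 8) (nat_lit 9) C.nil) C.nil)) C.nil)) C.nil))) C.nil))))) C.nil)) C.nil))) C.nil))) (C.cons (nat_lit 386) (C.node (nat_lit 2) (nat_lit 6) (nat_lit 8) (C.cons (nat_lit 332) (C.node (nat_lit 2) (nat_lit 3) (nat_lit 9) (C.cons (nat_lit 556) (C.node (nat_lit 2) (nat_lit 5) (nat_lit 6) (C.cons (nat_lit 100) (C.node (nat_lit 2) (nat_lit 6) (nat_lit 9) (C.cons (nat_lit 580) (C.node (nat_lit 3) (nat_lit 8) (nat_lit 9) (C.cons (nat_lit 776) (C.node (nat_lit 1) (nat_lit 2) (nat_lit 3) (C.cons (nat_lit 30) (C.miq (nat_lit 2016478756) (nat_lit 322785905778983703500685397)) (C.cons (nat_lit 14) (C.node (nat_lit 2) (nat_lit 3) (nat_lit 4) (C.cons (nat_lit 28) (C.node (nat_lit 3) (nat_lit 7) (nat_lit 9) (C.cons (nat_lit 650) (C.miq (nat_lit 1125255542) (nat_lit 16926529599005927993115585)) (C.cons (nat_lit 648) (C.node (nat_lit 1) (nat_lit 2) (nat_lit 4) (C.cons (nat_lit 54) (C.node (nat_lit 2) (nat_lit 5) (nat_lit 7) (C.cons (nat_lit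 164) (C.node (nat_lit 2) (nat_lit 7) (nat_lit 8) (C.cons (nat_lit 404) (C.miq (nat_lit 2186703888) (nat_lit 120910309396233874875547795)) C.nil)) C.nil)) (C.cons (nat_lit 22) (C.node (nat_lit 1) (nat_lit 2) (nat_lit 5) C.nil) C.nil))) C.nil))) C.nil)) C.nil))) C.nil)) C.nil)) C.nil)) (C.cons (nat_lit 524) (C.node (nat_lit 2) (nat_lit 5) (nat_lit 6) (C.cons (nat_lit 612) (C.node (nat_lit 2) (nat_lit 7) (nat_lit 9) (C.cons (nat_lit 660) (C.miq (nat_lit 1230008929) (nat_lit 658867283547127848674459846)) (C.cons (nat_lit 644)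
  (C.node (nat_lit 3) (nat_lit 6) (nat_lit 9) (C.cons (nat_lit 586) (C.miq (nat_lit 2190673249) (nat_lit 633482054841208164730929251)) (C.cons (nat_lit 584) (C.node (nat_lit 1) (nat_lit 6) (nat_lit 9) (C.cons (nat_lit 594) (C.miq (nat_lit 647196992) (nat_lit 706015279701592427709661331)) (C.cons (nat_lit 578) (C.node (nat_lit 4) (nat_lit 6) (nat_lit 9) (C.cons (nat_lit 592) (C.node (nat_lit 1) (nat_lit 2) (nat_lit 3) (C.cons (nat_lit 62) (C.miq (nat_lit 1200754789) (nat_lit 778549371571334707583123555)) (C.cons (nat_lit 46) (C.miq (nat_lit 2453169424) (nat_lit 401381099605374604214468707)) (C.cons (nat_lit 30) (C.miq (nat_lit 2016478756) (nat_lit 322785905778983703500685397)) (C.cons (nat_lit 14) (C.node (nat_lit 1) (nat_lit 2) (nat_lit 4) (C.cons (nat_lit 54) (C.miq (nat_lit 1200754789) (nat_lit 778549223997382117906710627)) (C.cons (nat_lit 22) (C.node (nat_lit 1) (nat_lit 2) (nat_lit 5) (C.cons (nat_lit 38) (C.node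 (nat_lit 2) (nat_lit 3) (nat_lit 4) (C.cons (nat_lit 60) (C.node (nat_lit 2) (nat_lit 5) (nat_lit 7) C.nil) C.nil)) C.nil)) C.nil))) C.nil))))) C.nil)) C.nil))) C.nil))) C.nil))) (C.cons (nat_lit 100) (C.node (nat_lit 2) (nat_lit 6) (nat_lit 9) (C.cons (nat_lit 580) (C.node (nat_lit 2) (nat_lit 7) (nat_lit 8) (C.cons (nat_lit 404) (C.node (nat_lit 2) (nat_lit 8) (nat_lit 9) (C.cons (nat_lit 772) (C.node (nat_lit 1) (nat_lit 2) (nat_lit 4) (C.cons (nat_lit 62) (C.miq (nat_lit 2016478756) (nat_lit 322785905778983703502782549)) (C.cons (nat_lit 54) (C.miq (nat_lit 2186703888) (nat_lit 120910309396233874875547795)) (C.cons (nat_lit 30) (C.miq (nat_lit 2016478756) (nat_lit 322785905778983703500685397)) (C.cons (nat_lit 22) (C.node (nat_lit 1) (nat_lit 2) (nat_lit 3) (C.cons (nat_lit 46) (C.node (nat_lit 2) (nat_lit 3) (nat_lit 4) C.nil) C.nil)) C.nil))))) C.nil)) (C.cons (nat_lit 388) (C.node (nat_lit 2) (nat_lit 4) (nat_lit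 8) (C.cons (nat_lit 788) (C.node (nat_lit 1) (nat_lit 4) (nat_lit 8) (C.cons (nat_lit 306) (C.node (nat_lit 1) (nat_lit 8) (nat_lit 9) (C.cons (nat_lit 770) (C.node (nat_lit 4) (nat_lit 6) (nat_lit 8) C.nil) C.nil)) (C.cons (nat_lit 274) (C.node (nat_lit 1) (nat_lit 5) (nat_lit 8) (C.cons (nat_lit 802) (C.node (nat_lit 3) (nat_lit 8) (nat_lit 9) C.nil) (C.cons (nat_lit 290) (C.node (nat_lit 1) (nat_lit 8) (nat_lit 9) (C.cons (nat_lit 770) (C.node (nat_lit 3) (nat_lit 8) (nat_lit 9) C.nil) C.nil)) C.nil))) C.nil))) (C.cons (nat_lit 276) (C.node (nat_lit 2) (nat_lit 8) (nat_lit 9) (C.cons (nat_lit 772) (C.node (nat_lit 1) (nat_lit 2) (nat_lit 3) (C.cons (nat_lit 14) (C.node (nat_lit 1) (nat_lit 2) (nat_lit 4) C.nil) C.nil)) C.nil)) C.nil))) C.nil))) C.nil)) C.nil))) C.nil))) (C.cons (nat_lit 324) (C.node (nat_lit 2) (nat_lit 7) (nat_lit 8) (C.cons (nat_lit 404) (C.node (nat_lit 2) (nat_lit 3) (nat_lit 8) (C.cons (nat_lit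 780) (C.node (nat_lit 1) (nat_lit 2) (nat_lit 4) (C.cons (nat_lit 62) (C.miq (nat_lit 1747257153) (nat_lit 354217091645248833224310931)) (C.cons (nat_lit 54) (C.miq (nat_lit 1747257153) (nat_lit 354217091645248833223786643)) (C.cons (nat_lit 30) (C.miq (nat_lit 1647931712) (nat_lit 942979866676197765422842003)) (C.cons (nat_lit 22) (C.node (nat_lit 1) (nat_lit 2) (nat_lit 3) (C.cons (nat_lit 46) (C.node (nat_lit 2) (nat_lit 3) (nat_lit 4) (C.cons (nat_lit 28) (C.node (nat_lit 2) (nat_lit 3) (nat_lit 6) (C.cons (nat_lit 76) (C.node (nat_lit 1) (nat_lit 3) (nat_lit 4) (C.cons (nat_lit 90) (C.miq (nat_lit 2467725904) (nat_lit 108821051305922140011954469)) (C.cons (nat_lit 26) (C.node (nat_lit 1) (nat_lit 3) (nat_lit 6) (C.cons (nat_lit 586) (C.node (nat_lit 1) (nat_lit 3) (nat_lit 7) (C.cons (nat_lit 138) (C.node (nat_lit 1) (nat_lit 4) (nat_lit 6) C.nil) C.nil)) (C.cons (nat_lit 74) (C.miq (nat_lit 2467725904) (nat_lit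 89478238192088073216655653)) C.nil))) C.nil))) C.nil)) C.nil)) (C.cons (nat_lit 14) (C.node (nat_lit 1) (nat_lit 2) (nat_lit 5) (C.cons (nat_lit 38) (C.node (nat_lit 2) (nat_lit 6) (nat_lit 9) (C.cons (nat_lit 612)
  (C.miq (nat_lit 844204384) (nat_lit 45944106645576699449902017)) (C.cons (nat_lit 580) (C.node (nat_lit 2) (nat_lit 3) (nat_lit 4) (C.cons (nat_lit 60) (C.node (nat_lit 2) (nat_lit 3) (nat_lit 6) C.nil) C.nil)) C.nil))) C.nil)) C.nil))) C.nil))))) (C.cons (nat_lit 268) (C.node (nat_lit 2) (nat_lit 8) (nat_lit 9) (C.cons (nat_lit 772) (C.node (nat_lit 2) (nat_lit 4) (nat_lit 9) (C.cons (nat_lit 564) (C.node (nat_lit 2) (nat_lit 5) (nat_lit 7) (C.cons (nat_lit 164) (C.node (nat_lit 2) (nat_lit 7) (nat_lit 9) (C.cons (nat_lit 644) (C.node (nat_lit 4) (nat_lit 7) (nat_lit 9) (C.cons (nat_lit 656) (C.node (nat_lit 1) (nat_lit 2) (nat_lit 4) (C.cons (nat_lit 30) (C.node (nat_lit 1) (nat_lit 2) (nat_lit 5)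 C.nil) C.nil)) C.nil)) C.nil)) C.nil)) (C.cons (nat_lit 532) (C.node (nat_lit 2) (nat_lit 5) (nat_lit 7) (C.cons (nat_lit 676) (C.node (nat_lit 4) (nat_lit 7) (nat_lit 9) (C.cons (nat_lit 656) (C.node (nat_lit 1) (nat_lit 5) (nat_lit 7) (C.cons (nat_lit 170) (C.node (nat_lit 1) (nat_lit 7) (nat_lit 9) (C.cons (nat_lit 642) (C.node (nat_lit 3) (nat_lit 7) (nat_lit 8) (C.cons (nat_lit 392) (C.node (nat_lit 3) (nat_lit 7) (nat_lit 9) (C.cons (nat_lit 648) (C.node (nat_lit 5) (nat_lit 7) (nat_lit 8) C.nil) C.nil)) C.nil)) C.nil)) (C.cons (nat_lit 162) (C.node (nat_lit 1) (nat_lit 3) (nat_lit 7) (C.cons (nat_lit 650) (C.node (nat_lit 1) (nat_lit 3) (nat_lit 6) (C.cons (nat_lit 90) (C.miq (nat_lit 607215767) (nat_lit 108806976244570899675218881)) (C.cons (nat_lit 74) (C.node (nat_lit 1) (nat_lit 4) (nat_lit 6) (C.cons (nat_lit 594) (C.node (nat_lit 1) (nat_lit 5) (nat_lit 9) (C.cons (nat_lit 802) (C.miq (nat_lit 1233281360)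 (nat_lit 933292300882939568934158435)) (C.cons (nat_lit 546) (C.miq (nat_lit 2174026610) (nat_lit 660078902480757736842985613)) C.nil))) (C.cons (nat_lit 82) (C.miq (nat_lit 2439264032) (nat_lit 99141823292926759626145933)) C.nil))) C.nil))) (C.cons (nat_lit 138) (C.node (nat_lit 1) (nat_lit 7) (nat_lit 9) (C.cons (nat_lit 642) (C.node (nat_lit 3) (nat_lit 7) (nat_lit 9) C.nil) C.nil)) C.nil))) C.nil))) C.nil)) (C.cons (nat_lit 164) (C.node (nat_lit 2) (nat_lit 7) (nat_lit 9) (C.cons (nat_lit 644) (C.node (nat_lit 1) (nat_lit 2) (nat_lit 3) (C.cons (nat_lit 14) (C.node (nat_lit 1) (nat_lit 2) (nat_lit 4) C.nil) C.nil)) C.nil)) C.nil))) C.nil))) C.nil)) C.nil))) (C.cons (nat_lit 388) (C.ref (nat_lit 75) (nat_lit 654820258320)) C.nil))) C.nil))) C.nil))) C.nil))) C.nil))) (C.cons (nat_lit 194) (C.node (nat_lit 2) (nat_lit 6) (nat_lit 7) (C.cons (nat_lit 228) (C.node (nat_lit 1) (nat_lit 2) (nat_lit 7) (C.cons (nat_lit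 390) (C.node (nat_lit 1) (nat_lit 2) (nat_lit 6) (C.cons (nat_lit 78) (C.node (nat_lit 2) (nat_lit 6) (nat_lit 8) (C.cons (nat_lit 324) (C.node (nat_lit 2) (nat_lit 6) (nat_lit 9) (C.cons (nat_lit 580) (C.node (nat_lit 2) (nat_lit 4) (nat_lit 7) (C.cons (nat_lit 660) (C.miq (nat_lit 1108580224) (nat_lit 94306120017283817340076993)) (C.cons (nat_lit 148) (C.node (nat_lit 2) (nat_lit 7) (nat_lit 9) (C.cons (nat_lit 644) (C.node (nat_lit 1) (nat_lit 2) (nat_lit 4) (C.cons (nat_lit 54) (C.node (nat_lit 1) (nat_lit 3) (nat_lit 4) (C.cons (nat_lit 26) (C.node (nat_lit 4) (nat_lit 7) (nat_lit 8) (C.cons (nat_lit 440) (C.miq (nat_lit 2555512641) (nat_lit 354224839277759945854288019)) (C.cons (nat_lit 432) (C.miq (nat_lit 2555512641) (nat_lit 354224839277759911494549651)) (C.cons (nat_lit 408) (C.miq (nat_lit 1193883664) (nat_lit 778558133848232236109201675)) (C.cons (nat_lit 400) (C.node (nat_lit 1) (nat_lit 5) (nat_lit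 8) (C.cons (nat_lit 802) (C.node (nat_lit 1) (nat_lit 3) (nat_lit 9) (C.cons (nat_lit 650) (C.miq (nat_lit 1362266480) (nat_lit 94301619051700395585635265)) (C.cons (nat_lit 522) (C.node (nat_lit 1) (nat_lit 7) (nat_lit 9) (C.cons (nat_lit 642) (C.node (nat_lit 1) (nat_lit 4) (nat_lit 8) (C.cons (nat_lit 338) (C.miq (nat_lit 1416106505) (nat_lit 408631721333691789988659719)) (C.cons (nat_lit 274) (C.node (nat_lit 1) (nat_lit 6) (nat_lit 8) (C.cons (nat_lit 322)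
  (C.node (nat_lit 1) (nat_lit 3) (nat_lit 5) (C.cons (nat_lit 170) (C.node (nat_lit 3) (nat_lit 7) (nat_lit 8) C.nil) C.nil)) C.nil)) C.nil))) C.nil)) C.nil))) (C.cons (nat_lit 290) (C.node (nat_lit 1) (nat_lit 6) (nat_lit 9) (C.cons (nat_lit 594) (C.miq (nat_lit 2438489120) (nat_lit 350606215176493663657459797)) (C.cons (nat_lit 578) (C.node (nat_lit 1) (nat_lit 4) (nat_lit 9) (C.cons (nat_lit 786) (C.miq (nat_lit 1092851824) (nat_lit 94306120052749664397362113)) (C.cons (nat_lit 530) (C.node (nat_lit 1) (nat_lit 8) (nat_lit 9) (C.cons (nat_lit 770) (C.node (nat_lit 1) (nat_lit 4) (nat_lit 6) (C.cons (nat_lit 338) (C.node (nat_lit 2) (nat_lit 4) (nat_lit 9) (C.cons (nat_lit 788) (C.miq (nat_lit 1451495570) (nat_lit 408617923181794791576044039)) (C.cons (nat_lit 532) (C.node (nat_lit 2) (nat_lit 8) (nat_lit 9) (C.cons (nat_lit 780) (C.miq (nat_lit 840210544) (nat_lit 65291900380309714344543169)) (C.cons (nat_lit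 772) (C.node (nat_lit 2) (nat_lit 3) (nat_lit 4) (C.cons (nat_lit 284) (C.node (nat_lit 4) (nat_lit 5) (nat_lit 8) C.nil) C.nil)) C.nil))) C.nil))) C.nil)) C.nil)) C.nil))) C.nil))) C.nil))) C.nil))))) C.nil)) (C.cons (nat_lit 22) (C.node (nat_lit 1) (nat_lit 2) (nat_lit 5) (C.cons (nat_lit 38) (C.node (nat_lit 2) (nat_lit 3) (nat_lit 8) (C.cons (nat_lit 780) (C.miq (nat_lit 840210544) (nat_lit 26606274152641580753945537)) (C.cons (nat_lit 284) (C.node (nat_lit 2) (nat_lit 8) (nat_lit 9) C.nil) C.nil))) C.nil)) C.nil))) C.nil)) C.nil))) C.nil)) C.nil)) (C.cons (nat_lit 70) (C.node (nat_lit 1) (nat_lit 6) (nat_lit 8) (C.cons (nat_lit 338) (C.node (nat_lit 2) (nat_lit 6) (nat_lit 8) (C.cons (nat_lit 332) (C.miq (nat_lit 1904411746) (nat_lit 322785794869398655990497365)) (C.cons (nat_lit 324) (C.node (nat_lit 1) (nat_lit 2) (nat_lit 3) (C.cons (nat_lit 62) (C.miq (nat_lit 2267219537) (nat_lit 170463466116828825959399523))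 (C.cons (nat_lit 46) (C.miq (nat_lit 2267219537) (nat_lit 170463466116828825958350947)) (C.cons (nat_lit 30) (C.miq (nat_lit 2014512706) (nat_lit 322785795098519287013179477)) (C.cons (nat_lit 14) (C.node (nat_lit 2) (nat_lit 4) (nat_lit 7) (C.cons (nat_lit 660) (C.miq (nat_lit 1108580224) (nat_lit 16934867561947550158881729)) (C.cons (nat_lit 148) (C.node (nat_lit 2) (nat_lit 7) (nat_lit 9) (C.cons (nat_lit 644) (C.node (nat_lit 1) (nat_lit 2) (nat_lit 4) (C.cons (nat_lit 54) (C.node (nat_lit 1) (nat_lit 3) (nat_lit 4) (C.cons (nat_lit 26) (C.node (nat_lit 1) (nat_lit 4) (nat_lit 9) (C.cons (nat_lit 530) (C.node (nat_lit 1) (nat_lit 5) (nat_lit 8) (C.cons (nat_lit 802) (C.miq (nat_lit 1416106505) (nat_lit 408631721333691789988659719)) (C.cons (nat_lit 290) (C.node (nat_lit 1) (nat_lit 8) (nat_lit 9) C.nil) C.nil))) C.nil)) C.nil)) (C.cons (nat_lit 22) (C.node (nat_lit 1) (nat_lit 2) (nat_lit 5) (C.cons (nat_lit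 38) (C.node (nat_lit 2) (nat_lit 3) (nat_lit 6) (C.cons (nat_lit 76) (C.node (nat_lit 2) (nat_lit 6) (nat_lit 9) C.nil) C.nil)) C.nil)) C.nil))) C.nil)) C.nil))) C.nil))))) C.nil))) (C.cons (nat_lit 322) (C.node (nat_lit 2) (nat_lit 4) (nat_lit 7) (C.cons (nat_lit 660) (C.node (nat_lit 2) (nat_lit 4) (nat_lit 8) (C.cons (nat_lit 284) (C.miq (nat_lit 323125399) (nat_lit 343342127075899557564122049)) (C.cons (nat_lit 276) (C.node (nat_lit 2) (nat_lit 5) (nat_lit 9) (C.cons (nat_lit 556) (C.miq (nat_lit 2207387719) (nat_lit 672169950011078693084201107)) (C.cons (nat_lit 548) (C.node (nat_lit 2) (nat_lit 6) (nat_lit 8) (C.cons (nat_lit 332) (C.miq (nat_lit 2458076944) (nat_lit 401373278199399627715444883)) (C.cons (nat_lit 324) (C.node (nat_lit 2) (nat_lit 3) (nat_lit 6) (C.cons (nat_lit 588) (C.miq (nat_lit 2207387719) (nat_lit 710855576238746826674798739)) (C.cons (nat_lit 76) (C.node (nat_lit 2) (nat_lit 6) (nat_lit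 9) (C.cons (nat_lit 580) (C.node (nat_lit 1) (nat_lit 2) (nat_lit 5) (C.cons (nat_lit 62) (C.miq (nat_lit 2267219537) (nat_lit 170463466116828825959399523)) (C.cons (nat_lit 54) (C.miq (nat_lit 874580344) (nat_lit 65286919691012553082012609)) (C.cons (nat_lit 46)
  (C.miq (nat_lit 1108580224) (nat_lit 55620493789615683749479361)) C.nil)))) C.nil)) C.nil))) C.nil))) C.nil))) C.nil))) (C.cons (nat_lit 148) (C.node (nat_lit 2) (nat_lit 7) (nat_lit 9) (C.cons (nat_lit 644) (C.node (nat_lit 1) (nat_lit 2) (nat_lit 3) (C.cons (nat_lit 62) (C.miq (nat_lit 2267219537) (nat_lit 170463466116828825959399523)) (C.cons (nat_lit 46) (C.miq (nat_lit 2267219537) (nat_lit 170463466116828825958350947)) (C.cons (nat_lit 30) (C.miq (nat_lit 2535720979) (nat_lit 178930927475031827543884043)) (C.cons (nat_lit 14) (C.node (nat_lit 1) (nat_lit 2) (nat_lit 4) (C.cons (nat_lit 54) (C.node (nat_lit 1) (nat_lit 4) (nat_lit 8) (C.cons (nat_lit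 786) (C.miq (nat_lit 1092851824) (nat_lit 16934867597413397216166849)) (C.cons (nat_lit 274) (C.node (nat_lit 4) (nat_lit 7) (nat_lit 8) (C.cons (nat_lit 440) (C.miq (nat_lit 2555512641) (nat_lit 354224839277759945854288019)) (C.cons (nat_lit 432) (C.miq (nat_lit 2555512641) (nat_lit 354224839277759911494549651)) (C.cons (nat_lit 408) (C.miq (nat_lit 1193883664) (nat_lit 778558133848232236109201675)) (C.cons (nat_lit 400) (C.node (nat_lit 1) (nat_lit 3) (nat_lit 4) (C.cons (nat_lit 90) (C.node (nat_lit 1) (nat_lit 4) (nat_lit 9) (C.cons (nat_lit 530) (C.node (nat_lit 1) (nat_lit 6) (nat_lit 9) C.nil) C.nil)) (C.cons (nat_lit 26) (C.node (nat_lit 1) (nat_lit 3) (nat_lit 6) (C.cons (nat_lit 586) (C.node (nat_lit 1) (nat_lit 4) (nat_lit 6) C.nil) (C.cons (nat_lit 74) (C.node (nat_lit 1) (nat_lit 4) (nat_lit 6) (C.cons (nat_lit 82) (C.node (nat_lit 1) (nat_lit 4) (nat_lit 9) C.nil) C.nil)) C.nil))) C.nil))) C.nil)))))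 C.nil))) (C.cons (nat_lit 22) (C.node (nat_lit 1) (nat_lit 2) (nat_lit 5) (C.cons (nat_lit 38) (C.node (nat_lit 2) (nat_lit 6) (nat_lit 8) (C.cons (nat_lit 332) (C.node (nat_lit 2) (nat_lit 6) (nat_lit 9) C.nil) (C.cons (nat_lit 324) (C.node (nat_lit 2) (nat_lit 3) (nat_lit 6) (C.cons (nat_lit 76) (C.node (nat_lit 2) (nat_lit 6) (nat_lit 9) C.nil) C.nil)) C.nil))) C.nil)) C.nil))) C.nil))))) C.nil)) C.nil))) C.nil))) C.nil))) (C.cons (nat_lit 134) (C.node (nat_lit 1) (nat_lit 7) (nat_lit 8) (C.cons (nat_lit 418) (C.node (nat_lit 2) (nat_lit 7) (nat_lit 8) (C.cons (nat_lit 404) (C.miq (nat_lit 1652884593) (nat_lit 354217091398676753649107091)) (C.cons (nat_lit 388) (C.node (nat_lit 1) (nat_lit 2) (nat_lit 5) (C.cons (nat_lit 62) (C.miq (nat_lit 2267219537) (nat_lit 170463466116828825959399523)) (C.cons (nat_lit 54) (C.miq (nat_lit 2233889088) (nat_lit 275652814310847058910970003)) (C.cons (nat_lit 46) (C.miq (nat_lit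 2267219537) (nat_lit 170463466116828825958350947)) (C.cons (nat_lit 38) (C.node (nat_lit 1) (nat_lit 3) (nat_lit 7) (C.cons (nat_lit 650) (C.node (nat_lit 1) (nat_lit 3) (nat_lit 5) (C.cons (nat_lit 58) (C.miq (nat_lit 2152036657) (nat_lit 59245076170639399173358218)) (C.cons (nat_lit 42) (C.node (nat_lit 1) (nat_lit 6) (nat_lit 9) (C.cons (nat_lit 594) (C.miq (nat_lit 1634879792) (nat_lit 161997627968805502626628121)) (C.cons (nat_lit 578) (C.node (nat_lit 2) (nat_lit 6) (nat_lit 9) (C.cons (nat_lit 588) (C.miq (nat_lit 1100351282) (nat_lit 698760691751881541635801229)) (C.cons (nat_lit 580) (C.node (nat_lit 3) (nat_lit 6) (nat_lit 7) (C.cons (nat_lit 216) (C.miq (nat_lit 958820612) (nat_lit 701180960056165806548254867)) (C.cons (nat_lit 200) (C.node (nat_lit 4) (nat_lit 6) (nat_lit 7) (C.cons (nat_lit 208) (C.node (nat_lit 5) (nat_lit 7) (nat_lit 9) (C.cons (nat_lit 688) (C.miq (nat_lit 1158911872) (nat_lit 50784790519038586657637313))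 C.nil)) C.nil)) C.nil))) C.nil))) C.nil))) C.nil))) (C.cons (nat_lit 138) (C.node (nat_lit 1) (nat_lit 7) (nat_lit 9) (C.cons (nat_lit 642) (C.node (nat_lit 1) (nat_lit 8) (nat_lit 9) (C.cons (nat_lit 786) (C.node (nat_lit 1) (nat_lit 2) (nat_lit 4) (C.cons (nat_lit 30) (C.miq (nat_lit 2166854704) (nat_lit 162013787370654604842566169)) (C.cons (nat_lit 22) (C.node (nat_lit 1) (nat_lit 4) (nat_lit 5) (C.cons (nat_lit 58) (C.miq (nat_lit 1882556737) (nat_lit 49573669613722365775708946)) (C.cons (nat_lit 50)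
  (C.node (nat_lit 1) (nat_lit 2) (nat_lit 3) (C.cons (nat_lit 14) (C.node (nat_lit 1) (nat_lit 2) (nat_lit 6) C.nil) C.nil)) C.nil))) C.nil))) (C.cons (nat_lit 770) (C.node (nat_lit 2) (nat_lit 4) (nat_lit 7) (C.cons (nat_lit 660) (C.node (nat_lit 3) (nat_lit 7) (nat_lit 8) (C.cons (nat_lit 408) (C.miq (nat_lit 1226338819) (nat_lit 930880407560622251755372685)) C.nil)) (C.cons (nat_lit 148) (C.node (nat_lit 2) (nat_lit 7) (nat_lit 9) (C.cons (nat_lit 644) (C.node (nat_lit 3) (nat_lit 6) (nat_lit 7) C.nil) C.nil)) C.nil))) C.nil))) C.nil)) C.nil))) C.nil))))) C.nil))) (C.cons (nat_lit 386) (C.node (nat_lit 2) (nat_lit 6) (nat_lit 9) (C.cons (nat_lit 588) (C.node (nat_lit 1) (nat_lit 6) (nat_lit 9) (C.cons (nat_lit 594) (C.miq (nat_lit 371673392) (nat_lit 275637798710712948753236505)) (C.cons (nat_lit 578) (C.node (nat_lit 3) (nat_lit 6) (nat_lit 7) (C.cons (nat_lit 216) (C.miq (nat_lit 1183937312) (nat_lit 698761835469435618728542349))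 (C.cons (nat_lit 200) (C.node (nat_lit 4) (nat_lit 6) (nat_lit 7) (C.cons (nat_lit 208) (C.node (nat_lit 4) (nat_lit 6) (nat_lit 9) (C.cons (nat_lit 624) (C.miq (nat_lit 1409771826) (nat_lit 177716301516641986333704780)) (C.cons (nat_lit 592) (C.node (nat_lit 5) (nat_lit 6) (nat_lit 9) (C.cons (nat_lit 608) (C.node (nat_lit 1) (nat_lit 2) (nat_lit 6) (C.cons (nat_lit 70) (C.node (nat_lit 2) (nat_lit 6) (nat_lit 8) C.nil) C.nil)) C.nil)) C.nil))) C.nil)) C.nil))) C.nil))) (C.cons (nat_lit 580) (C.node (nat_lit 2) (nat_lit 7) (nat_lit 8) (C.cons (nat_lit 404) (C.node (nat_lit 2) (nat_lit 7) (nat_lit 9) (C.cons (nat_lit 644) (C.node (nat_lit 1) (nat_lit 2) (nat_lit 5) (C.cons (nat_lit 62) (C.miq (nat_lit 2267219537) (nat_lit 170463466116828825959399523)) (C.cons (nat_lit 54) (C.miq (nat_lit 2186703888) (nat_lit 275652814306906409237938323)) (C.cons (nat_lit 46) (C.miq (nat_lit 2267219537) (nat_lit 170463466116828825958350947))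 (C.cons (nat_lit 38) (C.node (nat_lit 1) (nat_lit 2) (nat_lit 4) (C.cons (nat_lit 30) (C.node (nat_lit 1) (nat_lit 2) (nat_lit 6) (C.cons (nat_lit 326) (C.miq (nat_lit 2551383588) (nat_lit 322793100009172424456011861)) (C.cons (nat_lit 70) (C.node (nat_lit 1) (nat_lit 2) (nat_lit 8) (C.cons (nat_lit 262) (C.node (nat_lit 2) (nat_lit 3) (nat_lit 6) (C.cons (nat_lit 332) (C.miq (nat_lit 2016478756) (nat_lit 322785905778983703500685397)) C.nil)) C.nil)) C.nil))) (C.cons (nat_lit 22) (C.node (nat_lit 1) (nat_lit 2) (nat_lit 3) (C.cons (nat_lit 78) (C.node (nat_lit 1) (nat_lit 2) (nat_lit 8) (C.cons (nat_lit 262) (C.node (nat_lit 2) (nat_lit 6) (nat_lit 8) C.nil) C.nil)) (C.cons (nat_lit 14) (C.node (nat_lit 1) (nat_lit 2) (nat_lit 6) (C.cons (nat_lit 326) (C.node (nat_lit 2) (nat_lit 3) (nat_lit 6) C.nil) (C.cons (nat_lit 70) (C.node (nat_lit 1) (nat_lit 2) (nat_lit 8) (C.cons (nat_lit 262) (C.node (nat_lit 2) (nat_lit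 3) (nat_lit 4) C.nil) C.nil)) C.nil))) C.nil))) C.nil))) C.nil))))) C.nil)) (C.cons (nat_lit 388) (C.node (nat_lit 2) (nat_lit 4) (nat_lit 7) (C.cons (nat_lit 660) (C.node (nat_lit 2) (nat_lit 8) (nat_lit 9) (C.cons (nat_lit 780) (C.miq (nat_lit 388498579) (nat_lit 469068143332523456542278169)) (C.cons (nat_lit 772) (C.node (nat_lit 1) (nat_lit 2) (nat_lit 5) (C.cons (nat_lit 62) (C.miq (nat_lit 2267219537) (nat_lit 170463466116828825959399523)) (C.cons (nat_lit 54) (C.miq (nat_lit 2455139344) (nat_lit 275652814378964003275866259)) (C.cons (nat_lit 46) (C.miq (nat_lit 2267219537) (nat_lit 170463466116828825958350947)) (C.cons (nat_lit 38) (C.node (nat_lit 2) (nat_lit 4) (nat_lit 5) (C.cons (nat_lit 60) (C.miq (nat_lit 1614117186) (nat_lit 49570164732348360961032852)) (C.cons (nat_lit 52) (C.node (nat_lit 5) (nat_lit 7) (nat_lit 9) (C.cons (nat_lit 682) (C.miq (nat_lit 891590496) (nat_lit 62874048713495212488721345))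 (C.cons (nat_lit 680) (C.miq (nat_lit 891590496) (nat_lit 62874048712932262535300033)) (C.cons (nat_lit 674) (C.miq (nat_lit 1445531719) (nat_lit 701189408509856989377200275)) (C.cons (nat_lit 672) (C.node (nat_lit 1) (nat_lit 5) (nat_lit 7)
  (C.cons (nat_lit 170) (C.node (nat_lit 1) (nat_lit 7) (nat_lit 9) C.nil) (C.cons (nat_lit 162) (C.node (nat_lit 1) (nat_lit 3) (nat_lit 7) (C.cons (nat_lit 138) (C.node (nat_lit 1) (nat_lit 7) (nat_lit 9) C.nil) C.nil)) C.nil))) C.nil))))) C.nil))) C.nil))))) C.nil))) (C.cons (nat_lit 148) (C.node (nat_lit 2) (nat_lit 7) (nat_lit 9) (C.cons (nat_lit 644) (C.node (nat_lit 3) (nat_lit 6) (nat_lit 7) (C.cons (nat_lit 216) (C.node (nat_lit 3) (nat_lit 7) (nat_lit 8) (C.cons (nat_lit 392) (C.node (nat_lit 4) (nat_lit 7) (nat_lit 8) C.nil) C.nil)) (C.cons (nat_lit 200) (C.node (nat_lit 4) (nat_lit 6) (nat_lit 7) (C.cons (nat_lit 208) (C.node (nat_lit 4) (nat_lit 7) (nat_lit 9) C.nil)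 C.nil)) C.nil))) C.nil)) C.nil))) C.nil))) C.nil))) C.nil))) C.nil))) (C.cons (nat_lit 196) (C.ref (nat_lit 77) (nat_lit 654820258320)) C.nil))) C.nil)))) List.nil)

theorem ok10_78 : okL par10 (nat_lit 79) c10_78 (nat_lit 78) = true := by decide +kernel

noncomputable def c10_79 : List C :=
  (List.cons (C.qs (C.cons (nat_lit 2128) (C.ref (nat_lit 78) (nat_lit 654820258320)) (C.cons (nat_lit 2113) (C.pat (nat_lit 3) (nat_lit 44079126918) (nat_lit 12154088866247746412950908338478496547044787137)) C.nil))) (List.cons (C.qs (C.cons (nat_lit 2128) (C.pat (nat_lit 3) (nat_lit 11346843766) (nat_lit 6534211240946230868737873845953818626198012865)) (C.cons (nat_lit 2066) (C.pat (nat_lit 2) (nat_lit 39545631332) (nat_lit 11574120446370832392462936322425895161915834537)) (C.cons (nat_lit 2113) (C.pat (nat_lit 3) (nat_lit 44079126918) (nat_lit 12154088866247746412950908338478496547044787137)) (C.cons (nat_lit 97) (C.pat (nat_lit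 2) (nat_lit 26895619458) (nat_lit 2207864631464072762884831120296505534149100057)) (C.cons (nat_lit 2065) (C.pat (nat_lit 3) (nat_lit 14399121782) (nat_lit 11975685626378426354726978671470003016535704513)) (C.cons (nat_lit 81) (C.pat (nat_lit 3) (nat_lit 10101148039) (nat_lit 11574272213448729456038919327534747723261739969)) (C.cons (nat_lit 2129) (C.pat (nat_lit 3) (nat_lit 11346843766) (nat_lit 6534211240946230868737873845953818626198012865)) C.nil)))))))) (List.cons (C.node (nat_lit 0) (nat_lit 3) (nat_lit 7) (C.cons (nat_lit 169) (C.node (nat_lit 0) (nat_lit 3) (nat_lit 4) (C.cons (nat_lit 537) (C.node (nat_lit 0) (nat_lit 4) (nat_lit 5) (C.cons (nat_lit 49) (C.node (nat_lit 0) (nat_lit 5) (nat_lit 9) (C.cons (nat_lit 545) (C.ref (nat_lit 80) (nat_lit 654820258320)) C.nil)) C.nil)) (C.cons (nat_lit 25) (C.node (nat_lit 0) (nat_lit 3) (nat_lit 9) (C.cons (nat_lit 521) (C.node (nat_lit 0) (nat_lit 4) (nat_lit 5)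 (C.cons (nat_lit 561) (C.ref (nat_lit 79) (nat_lit 449213374800)) C.nil)) C.nil)) C.nil))) (C.cons (nat_lit 137) (C.node (nat_lit 0) (nat_lit 5) (nat_lit 7) (C.cons (nat_lit 161) (C.node (nat_lit 0) (nat_lit 3) (nat_lit 4) (C.cons (nat_lit 537) (C.node (nat_lit 0) (nat_lit 3) (nat_lit 5) C.nil) (C.cons (nat_lit 57) (C.node (nat_lit 0) (nat_lit 3) (nat_lit 9) C.nil) C.nil))) C.nil)) C.nil))) (List.cons (C.node (nat_lit 0) (nat_lit 2) (nat_lit 3) (C.cons (nat_lit 141) (C.node (nat_lit 0) (nat_lit 5) (nat_lit 7) (C.cons (nat_lit 161) (C.node (nat_lit 0) (nat_lit 3) (nat_lit 4) (C.cons (nat_lit 537) (C.node (nat_lit 0) (nat_lit 3) (nat_lit 5) (C.cons (nat_lit 41) (C.node (nat_lit 0) (nat_lit 4) (nat_lit 5) (C.cons (nat_lit 49) (C.node (nat_lit 0) (nat_lit 5) (nat_lit 9) (C.cons (nat_lit 545) (C.ref (nat_lit 79) (nat_lit 654820258320)) C.nil)) C.nil)) C.nil)) (C.cons (nat_lit 57) (C.pat (nat_lit 1) (nat_lit 645158961)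 (nat_lit 514044123566479148112267791885206465)) (C.cons (nat_lit 25) (C.node (nat_lit 0) (nat_lit 3) (nat_lit 5) (C.cons (nat_lit 553) (C.node (nat_lit 0) (nat_lit 5) (nat_lit 4) (C.cons (nat_lit 49) (C.node (nat_lit 0) (nat_lit 4) (nat_lit 9) (C.cons (nat_lit 529) (C.ref (nat_lit 79) (nat_lit 650792743200)) C.nil)) C.nil)) (C.cons (nat_lit 41) (C.node (nat_lit 0) (nat_lit 3) (nat_lit 9) (C.cons (nat_lit 521) (C.node (nat_lit 0) (nat_lit 4) (nat_lit 5) (C.cons (nat_lit 561) (C.ref (nat_lit 79) (nat_lit 654566510880)) C.nil)) C.nil)) C.nil))) C.nil)))) C.nil)) (C.cons (nat_lit 13) (C.node (nat_lit 0) (nat_lit 2) (nat_lit 7) (C.cons (nat_lit 133) (C.ref (nat_lit 81) (nat_lit 654820258320)) C.nil)) C.nil))) (List.cons (C.node (nat_lit 0) (nat_lit 2) (nat_lit 3) (C.cons (nat_lit 141) (C.node (nat_lit 0) (nat_lit 2) (nat_lit 5) (C.cons (nat_lit 37) (C.node (nat_lit 0) (nat_lit 5) (nat_lit 7) (C.cons (nat_lit 161) (C.node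 (nat_lit 0) (nat_lit 5) (nat_lit 3) (C.cons (nat_lit 553) (C.node (nat_lit 0) (nat_lit 5) (nat_lit 4) C.nil) (C.cons (nat_lit 57) (C.node (nat_lit 0) (nat_lit 5) (nat_lit 9) C.nil) C.nil))) C.nil)) C.nil)) (C.cons (nat_lit 45) (C.node (nat_lit 0) (nat_lit 2) (nat_lit 7) (C.cons (nat_lit 133) (C.node (nat_lit 0) (nat_lit 3) (nat_lit 7) (C.cons (nat_lit 137) (C.node (nat_lit 0) (nat_lit 5) (nat_lit 7) C.nil) C.nil)) C.nil)) (C.cons (nat_lit 13) (C.node (nat_lit 0) (nat_lit 2) (nat_lit 5) (C.cons (nat_lit 165) (C.node (nat_lit 0) (nat_lit 3) (nat_lit 7)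
  (C.cons (nat_lit 137) (C.node (nat_lit 0) (nat_lit 3) (nat_lit 4) (C.cons (nat_lit 537) (C.node (nat_lit 0) (nat_lit 3) (nat_lit 5) C.nil) (C.cons (nat_lit 57) (C.node (nat_lit 0) (nat_lit 3) (nat_lit 9) C.nil) C.nil))) C.nil)) (C.cons (nat_lit 37) (C.node (nat_lit 0) (nat_lit 2) (nat_lit 7) C.nil) C.nil))) C.nil)))) (List.cons (C.node (nat_lit 0) (nat_lit 2) (nat_lit 8) (C.cons (nat_lit 293) (C.node (nat_lit 0) (nat_lit 4) (nat_lit 8) (C.cons (nat_lit 273) (C.ref (nat_lit 82) (nat_lit 654820258320)) C.nil)) (C.cons (nat_lit 261) (C.node (nat_lit 0) (nat_lit 4) (nat_lit 8) (C.cons (nat_lit 305) (C.ref (nat_lit 82) (nat_lit 517918045200)) (C.cons (nat_lit 273) (C.node (nat_lit 0) (nat_lit 5) (nat_lit 8) (C.cons (nat_lit 289) (C.ref (nat_lit 83) (nat_lit 654820258320)) C.nil)) C.nil))) C.nil))) (List.cons (C.node (nat_lit 0) (nat_lit 2) (nat_lit 7) (C.cons (nat_lit 141) (C.node (nat_lit 0) (nat_lit 2) (nat_lit 9)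 (C.cons (nat_lit 517) (C.node (nat_lit 0) (nat_lit 5) (nat_lit 7) (C.cons (nat_lit 161) (C.node (nat_lit 0) (nat_lit 3) (nat_lit 4) (C.cons (nat_lit 537) (C.node (nat_lit 0) (nat_lit 3) (nat_lit 5) C.nil) (C.cons (nat_lit 57) (C.pat (nat_lit 1) (nat_lit 645158961) (nat_lit 514044123566479148112267791885206465)) C.nil))) C.nil)) C.nil)) (C.cons (nat_lit 133) (C.node (nat_lit 0) (nat_lit 2) (nat_lit 3) (C.cons (nat_lit 525) (C.node (nat_lit 0) (nat_lit 3) (nat_lit 4) (C.cons (nat_lit 57) (C.node (nat_lit 0) (nat_lit 3) (nat_lit 7) (C.cons (nat_lit 137) (C.node (nat_lit 0) (nat_lit 4) (nat_lit 9) C.nil) C.nil)) (C.cons (nat_lit 25) (C.node (nat_lit 0) (nat_lit 3) (nat_lit 5) (C.cons (nat_lit 169) (C.node (nat_lit 0) (nat_lit 4) (nat_lit 5) (C.cons (nat_lit 561) (C.ref (nat_lit 80) (nat_lit 650789401680)) C.nil)) C.nil)) C.nil))) (C.cons (nat_lit 13) (C.node (nat_lit 0) (nat_lit 2) (nat_lit 9) C.nil) C.nil))) C.nil)))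 (List.cons (C.node (nat_lit 0) (nat_lit 3) (nat_lit 4) (C.cons (nat_lit 537) (C.ref (nat_lit 81) (nat_lit 509361725760)) (C.cons (nat_lit 25) (C.node (nat_lit 0) (nat_lit 4) (nat_lit 9) (C.cons (nat_lit 529) (C.node (nat_lit 0) (nat_lit 2) (nat_lit 7) (C.cons (nat_lit 165) (C.node (nat_lit 0) (nat_lit 3) (nat_lit 7) C.nil) (C.cons (nat_lit 141) (C.node (nat_lit 0) (nat_lit 5) (nat_lit 7) C.nil) C.nil))) C.nil)) C.nil))) (List.cons (C.node (nat_lit 0) (nat_lit 2) (nat_lit 7) (C.cons (nat_lit 165) (C.node (nat_lit 0) (nat_lit 3) (nat_lit 7) C.nil) (C.cons (nat_lit 141) (C.node (nat_lit 0) (nat_lit 5) (nat_lit 7) C.nil) C.nil))) (List.cons (C.node (nat_lit 0) (nat_lit 2) (nat_lit 8) (C.cons (nat_lit 293) (C.node (nat_lit 0) (nat_lit 4) (nat_lit 8) (C.cons (nat_lit 273) (C.ref (nat_lit 85) (nat_lit 654820258320)) C.nil)) (C.cons (nat_lit 261) (C.node (nat_lit 0) (nat_lit 4) (nat_lit 8) (C.cons (nat_lit 305) (C.ref (nat_lit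 86) (nat_lit 654820258320)) (C.cons (nat_lit 273) (C.node (nat_lit 0) (nat_lit 5) (nat_lit 8) (C.cons (nat_lit 289) (C.ref (nat_lit 87) (nat_lit 654820258320)) C.nil)) C.nil))) C.nil))) (List.cons (C.node (nat_lit 0) (nat_lit 2) (nat_lit 7) (C.cons (nat_lit 165) (C.node (nat_lit 0) (nat_lit 3) (nat_lit 7) (C.cons (nat_lit 137) (C.node (nat_lit 0) (nat_lit 2) (nat_lit 3) (C.cons (nat_lit 525) (C.node (nat_lit 0) (nat_lit 4) (nat_lit 9) (C.cons (nat_lit 561) (C.node (nat_lit 0) (nat_lit 3) (nat_lit 4) (C.cons (nat_lit 281) (C.node (nat_lit 0) (nat_lit 3) (nat_lit 5) (C.cons (nat_lit 41) (C.node (nat_lit 0) (nat_lit 5) (nat_lit 8) (C.cons (nat_lit 289) (C.ref (nat_lit 79) (nat_lit 452988064320)) C.nil)) C.nil)) (C.cons (nat_lit 25) (C.node (nat_lit 0) (nat_lit 4) (nat_lit 8) (C.cons (nat_lit 273) (C.node (nat_lit 0) (nat_lit 3) (nat_lit 5) (C.cons (nat_lit 297) (C.ref (nat_lit 79) (nat_lit 521439101520)) C.nil)) C.nil))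 C.nil))) (C.cons (nat_lit 529) (C.node (nat_lit 0) (nat_lit 5) (nat_lit 9) (C.cons (nat_lit 545) (C.node (nat_lit 0) (nat_lit 3) (nat_lit 4) (C.cons (nat_lit 281) (C.node (nat_lit 0) (nat_lit 3) (nat_lit 5) C.nil) (C.cons (nat_lit 57)
  (C.node (nat_lit 0) (nat_lit 3) (nat_lit 8) C.nil) C.nil))) C.nil)) C.nil))) (C.cons (nat_lit 13) (C.node (nat_lit 0) (nat_lit 2) (nat_lit 9) (C.cons (nat_lit 517) (C.node (nat_lit 0) (nat_lit 3) (nat_lit 8) (C.cons (nat_lit 297) (C.node (nat_lit 0) (nat_lit 4) (nat_lit 8) C.nil) (C.cons (nat_lit 281) (C.node (nat_lit 0) (nat_lit 5) (nat_lit 8) C.nil) C.nil))) C.nil)) C.nil))) C.nil)) (C.cons (nat_lit 141) (C.node (nat_lit 0) (nat_lit 5) (nat_lit 7) (C.cons (nat_lit 161) (C.ref (nat_lit 86) (nat_lit 646514365200)) C.nil)) (C.cons (nat_lit 133) (C.node (nat_lit 0) (nat_lit 3) (nat_lit 7) (C.cons (nat_lit 169) (C.node (nat_lit 0) (nat_lit 2) (nat_lit 3) (C.cons (nat_lit 525) (C.node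 (nat_lit 0) (nat_lit 2) (nat_lit 5) (C.cons (nat_lit 37) (C.node (nat_lit 0) (nat_lit 3) (nat_lit 4) (C.cons (nat_lit 281) (C.node (nat_lit 0) (nat_lit 5) (nat_lit 8) (C.cons (nat_lit 289) (C.node (nat_lit 0) (nat_lit 5) (nat_lit 4) (C.cons (nat_lit 561) (C.ref (nat_lit 80) (nat_lit 646511273280)) C.nil)) C.nil)) (C.cons (nat_lit 25) (C.node (nat_lit 0) (nat_lit 3) (nat_lit 8) C.nil) C.nil))) C.nil)) (C.cons (nat_lit 13) (C.node (nat_lit 0) (nat_lit 2) (nat_lit 5) (C.cons (nat_lit 549) (C.node (nat_lit 0) (nat_lit 3) (nat_lit 8) (C.cons (nat_lit 281) (C.node (nat_lit 0) (nat_lit 3) (nat_lit 9) (C.cons (nat_lit 521) (C.node (nat_lit 0) (nat_lit 4) (nat_lit 5) C.nil) C.nil)) (C.cons (nat_lit 265) (C.node (nat_lit 0) (nat_lit 3) (nat_lit 4) (C.cons (nat_lit 537) (C.node (nat_lit 0) (nat_lit 4) (nat_lit 5) (C.cons (nat_lit 305) (C.ref (nat_lit 79) (nat_lit 590141793360)) C.nil)) C.nil)) C.nil))) (C.cons (nat_lit 37)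 (C.node (nat_lit 0) (nat_lit 2) (nat_lit 9) C.nil) C.nil))) C.nil))) (C.cons (nat_lit 137) (C.node (nat_lit 0) (nat_lit 5) (nat_lit 7) (C.cons (nat_lit 161) (C.node (nat_lit 0) (nat_lit 2) (nat_lit 3) (C.cons (nat_lit 525) (C.node (nat_lit 0) (nat_lit 2) (nat_lit 5) C.nil) (C.cons (nat_lit 45) (C.node (nat_lit 0) (nat_lit 2) (nat_lit 9) C.nil) C.nil))) C.nil)) C.nil))) C.nil)))) (List.cons (C.node (nat_lit 0) (nat_lit 1) (nat_lit 8) (C.cons (nat_lit 267) (C.node (nat_lit 0) (nat_lit 1) (nat_lit 2) (C.cons (nat_lit 519) (C.ref (nat_lit 84) (nat_lit 654820258320)) (C.cons (nat_lit 7) (C.node (nat_lit 0) (nat_lit 1) (nat_lit 9) (C.cons (nat_lit 515) (C.ref (nat_lit 88) (nat_lit 654820258320)) C.nil)) C.nil))) (C.cons (nat_lit 263) (C.node (nat_lit 0) (nat_lit 1) (nat_lit 3) (C.cons (nat_lit 523) (C.ref (nat_lit 84) (nat_lit 590395748880)) (C.cons (nat_lit 11) (C.node (nat_lit 0) (nat_lit 1) (nat_lit 9) (C.cons (nat_lit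 515) (C.ref (nat_lit 89) (nat_lit 654820258320)) C.nil)) C.nil))) (C.cons (nat_lit 259) (C.node (nat_lit 0) (nat_lit 1) (nat_lit 2) (C.cons (nat_lit 519) (C.node (nat_lit 0) (nat_lit 1) (nat_lit 3) (C.cons (nat_lit 11) (C.ref (nat_lit 89) (nat_lit 590395748880)) C.nil)) (C.cons (nat_lit 15) (C.node (nat_lit 0) (nat_lit 1) (nat_lit 9) (C.cons (nat_lit 515) (C.node (nat_lit 0) (nat_lit 2) (nat_lit 7) (C.cons (nat_lit 165) (C.node (nat_lit 0) (nat_lit 2) (nat_lit 8) (C.cons (nat_lit 261) (C.node (nat_lit 0) (nat_lit 2) (nat_lit 9) (C.cons (nat_lit 517) (C.node (nat_lit 0) (nat_lit 3) (nat_lit 7) (C.cons (nat_lit 137) (C.node (nat_lit 0) (nat_lit 3) (nat_lit 8) (C.cons (nat_lit 297) (C.node (nat_lit 0) (nat_lit 4) (nat_lit 8) C.nil) (C.cons (nat_lit 281) (C.node (nat_lit 0) (nat_lit 5) (nat_lit 8) C.nil) C.nil))) C.nil)) C.nil)) C.nil)) (C.cons (nat_lit 133) (C.node (nat_lit 0) (nat_lit 2) (nat_lit 8) (C.cons (nat_lit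 293) (C.node (nat_lit 0) (nat_lit 2) (nat_lit 9) (C.cons (nat_lit 517) (C.node (nat_lit 0) (nat_lit 3) (nat_lit 7) (C.cons (nat_lit 169) (C.node (nat_lit 0) (nat_lit 3) (nat_lit 8) (C.cons (nat_lit 281) (C.pat (nat_lit 1) (nat_lit 2270577441) (nat_lit 763343776588484709181815589417844905)) (C.cons (nat_lit 265) (C.node (nat_lit 0) (nat_lit 4) (nat_lit 8) C.nil) C.nil))) (C.cons (nat_lit 137) (C.node (nat_lit 0) (nat_lit 5) (nat_lit 7) C.nil) C.nil))) C.nil)) (C.cons (nat_lit 261)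
  (C.node (nat_lit 0) (nat_lit 2) (nat_lit 5) (C.cons (nat_lit 549) (C.node (nat_lit 0) (nat_lit 3) (nat_lit 7) (C.cons (nat_lit 169) (C.node (nat_lit 0) (nat_lit 3) (nat_lit 9) (C.cons (nat_lit 537) (C.pat (nat_lit 1) (nat_lit 2539012897) (nat_lit 763343776588489431620356053100986537)) (C.cons (nat_lit 521) (C.node (nat_lit 0) (nat_lit 4) (nat_lit 9) C.nil) C.nil))) (C.cons (nat_lit 137) (C.node (nat_lit 0) (nat_lit 5) (nat_lit 7) C.nil) C.nil))) (C.cons (nat_lit 37) (C.node (nat_lit 0) (nat_lit 2) (nat_lit 9) C.nil) C.nil))) C.nil))) C.nil))) C.nil)) (C.cons (nat_lit 7) (C.node (nat_lit 0) (nat_lit 1) (nat_lit 3) (C.cons (nat_lit 523) (C.ref (nat_lit 88) (nat_lit 590395748880)) (C.cons (nat_lit 11) (C.node (nat_lit 0) (nat_lit 1) (nat_lit 9) (C.cons (nat_lit 515) (C.node (nat_lit 0) (nat_lit 2) (nat_lit 7) (C.cons (nat_lit 165) (C.node (nat_lit 0) (nat_lit 3) (nat_lit 7) (C.cons (nat_lit 137) (C.node (nat_lit 0)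 (nat_lit 2) (nat_lit 8) (C.cons (nat_lit 269) (C.node (nat_lit 0) (nat_lit 2) (nat_lit 9) C.nil) C.nil)) C.nil)) (C.cons (nat_lit 141) (C.node (nat_lit 0) (nat_lit 5) (nat_lit 7) (C.cons (nat_lit 161) (C.node (nat_lit 0) (nat_lit 2) (nat_lit 8) (C.cons (nat_lit 293) (C.node (nat_lit 0) (nat_lit 2) (nat_lit 9) C.nil) C.nil)) C.nil)) (C.cons (nat_lit 133) (C.node (nat_lit 0) (nat_lit 3) (nat_lit 7) (C.cons (nat_lit 169) (C.node (nat_lit 0) (nat_lit 2) (nat_lit 3) (C.cons (nat_lit 525) (C.node (nat_lit 0) (nat_lit 2) (nat_lit 5) (C.cons (nat_lit 293) (C.node (nat_lit 0) (nat_lit 3) (nat_lit 4) (C.cons (nat_lit 281) (C.node (nat_lit 0) (nat_lit 4) (nat_lit 5) (C.cons (nat_lit 561) (C.ref (nat_lit 79) (nat_lit 650789401680)) C.nil)) C.nil)) C.nil)) (C.cons (nat_lit 269) (C.node (nat_lit 0) (nat_lit 2) (nat_lit 5) (C.cons (nat_lit 549) (C.node (nat_lit 0) (nat_lit 3) (nat_lit 4) (C.cons (nat_lit 537) (C.node (nat_lit 0)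 (nat_lit 4) (nat_lit 5) (C.cons (nat_lit 305) (C.ref (nat_lit 79) (nat_lit 582338360400)) C.nil)) C.nil)) C.nil)) C.nil))) C.nil)) C.nil)))) C.nil)) C.nil))) C.nil)))) C.nil)))) (List.cons (C.node (nat_lit 0) (nat_lit 1) (nat_lit 2) (C.cons (nat_lit 519) (C.node (nat_lit 0) (nat_lit 1) (nat_lit 4) (C.cons (nat_lit 275) (C.ref (nat_lit 82) (nat_lit 650793726480)) (C.cons (nat_lit 19) (C.node (nat_lit 0) (nat_lit 1) (nat_lit 8) (C.cons (nat_lit 259) (C.ref (nat_lit 86) (nat_lit 582342554640)) C.nil)) C.nil))) (C.cons (nat_lit 263) (C.node (nat_lit 0) (nat_lit 1) (nat_lit 4) (C.cons (nat_lit 531) (C.ref (nat_lit 82) (nat_lit 582342685200)) (C.cons (nat_lit 19) (C.node (nat_lit 0) (nat_lit 1) (nat_lit 9) (C.cons (nat_lit 515) (C.ref (nat_lit 86) (nat_lit 650793595920)) C.nil)) C.nil))) (C.cons (nat_lit 7) (C.node (nat_lit 0) (nat_lit 1) (nat_lit 8) (C.cons (nat_lit 275) (C.node (nat_lit 0) (nat_lit 1) (nat_lit 9) (C.cons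 (nat_lit 515) (C.ref (nat_lit 85) (nat_lit 650793726480)) C.nil)) (C.cons (nat_lit 259) (C.node (nat_lit 0) (nat_lit 1) (nat_lit 4) (C.cons (nat_lit 531) (C.ref (nat_lit 85) (nat_lit 582342685200)) (C.cons (nat_lit 19) (C.node (nat_lit 0) (nat_lit 1) (nat_lit 9) (C.cons (nat_lit 515) (C.node (nat_lit 0) (nat_lit 2) (nat_lit 8) (C.cons (nat_lit 269) (C.node (nat_lit 0) (nat_lit 2) (nat_lit 9) C.nil) C.nil)) C.nil)) C.nil))) C.nil))) C.nil)))) (List.cons (C.node (nat_lit 0) (nat_lit 1) (nat_lit 2) (C.cons (nat_lit 519) (C.node (nat_lit 0) (nat_lit 1) (nat_lit 4) (C.cons (nat_lit 275) (C.ref (nat_lit 83) (nat_lit 650793726480)) (C.cons (nat_lit 19) (C.node (nat_lit 0) (nat_lit 1) (nat_lit 8) (C.cons (nat_lit 259) (C.ref (nat_lit 87) (nat_lit 582342554640)) C.nil)) C.nil))) (C.cons (nat_lit 263) (C.node (nat_lit 0) (nat_lit 1) (nat_lit 4) (C.cons (nat_lit 531) (C.ref (nat_lit 83) (nat_lit 582342685200)) (C.cons (nat_lit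 19) (C.node (nat_lit 0) (nat_lit 1) (nat_lit 9) (C.cons (nat_lit 515) (C.ref (nat_lit 87) (nat_lit 650793595920)) C.nil)) C.nil))) (C.cons (nat_lit 7) (C.node (nat_lit 0) (nat_lit 1) (nat_lit 8) (C.cons (nat_lit 275) (C.node (nat_lit 0) (nat_lit 1) (nat_lit 9)
  (C.cons (nat_lit 515) (C.ref (nat_lit 87) (nat_lit 650793726480)) C.nil)) (C.cons (nat_lit 259) (C.node (nat_lit 0) (nat_lit 1) (nat_lit 4) (C.cons (nat_lit 531) (C.ref (nat_lit 87) (nat_lit 582342685200)) C.nil)) C.nil))) C.nil)))) (List.cons (C.node (nat_lit 0) (nat_lit 1) (nat_lit 3) (C.cons (nat_lit 27) (C.node (nat_lit 0) (nat_lit 1) (nat_lit 8) (C.cons (nat_lit 259) (C.node (nat_lit 0) (nat_lit 3) (nat_lit 5) (C.cons (nat_lit 553) (C.node (nat_lit 0) (nat_lit 4) (nat_lit 9) (C.cons (nat_lit 529) (C.node (nat_lit 0) (nat_lit 4) (nat_lit 5) (C.cons (nat_lit 305) (C.pat (nat_lit 1) (nat_lit 2234804513) (nat_lit 514061553617173510373853987922575913)) C.nil))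 C.nil)) (C.cons (nat_lit 41) (C.node (nat_lit 0) (nat_lit 3) (nat_lit 9) C.nil) C.nil))) C.nil)) (C.cons (nat_lit 11) (C.node (nat_lit 0) (nat_lit 1) (nat_lit 4) (C.cons (nat_lit 275) (C.node (nat_lit 0) (nat_lit 5) (nat_lit 8) (C.cons (nat_lit 289) (C.node (nat_lit 0) (nat_lit 3) (nat_lit 5) (C.cons (nat_lit 553) (C.node (nat_lit 0) (nat_lit 3) (nat_lit 4) C.nil) (C.cons (nat_lit 57) (C.node (nat_lit 0) (nat_lit 3) (nat_lit 9) C.nil) C.nil))) C.nil)) (C.cons (nat_lit 19) (C.node (nat_lit 0) (nat_lit 1) (nat_lit 8) C.nil) C.nil))) C.nil))) (List.cons (C.node (nat_lit 0) (nat_lit 2) (nat_lit 8) (C.cons (nat_lit 269) (C.node (nat_lit 0) (nat_lit 1) (nat_lit 2) (C.cons (nat_lit 519) (C.ref (nat_lit 93) (nat_lit 654820258320)) (C.cons (nat_lit 7) (C.node (nat_lit 0) (nat_lit 2) (nat_lit 9) (C.cons (nat_lit 517) (C.node (nat_lit 0) (nat_lit 1) (nat_lit 8) (C.cons (nat_lit 275) (C.node (nat_lit 0) (nat_lit 5) (nat_lit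 8) C.nil) C.nil)) C.nil)) C.nil))) (C.cons (nat_lit 263) (C.node (nat_lit 0) (nat_lit 2) (nat_lit 3) (C.cons (nat_lit 525) (C.ref (nat_lit 93) (nat_lit 590395748880)) (C.cons (nat_lit 13) (C.node (nat_lit 0) (nat_lit 2) (nat_lit 9) (C.cons (nat_lit 517) (C.node (nat_lit 0) (nat_lit 1) (nat_lit 3) (C.cons (nat_lit 523) (C.node (nat_lit 0) (nat_lit 1) (nat_lit 4) C.nil) (C.cons (nat_lit 27) (C.node (nat_lit 0) (nat_lit 1) (nat_lit 9) C.nil) C.nil))) C.nil)) C.nil))) (C.cons (nat_lit 261) (C.node (nat_lit 0) (nat_lit 1) (nat_lit 2) (C.cons (nat_lit 519) (C.node (nat_lit 0) (nat_lit 2) (nat_lit 3) (C.cons (nat_lit 13) (C.node (nat_lit 0) (nat_lit 1) (nat_lit 3) (C.cons (nat_lit 267) (C.node (nat_lit 0) (nat_lit 1) (nat_lit 4) C.nil) (C.cons (nat_lit 27) (C.node (nat_lit 0) (nat_lit 1) (nat_lit 8) C.nil) C.nil))) C.nil)) (C.cons (nat_lit 15) (C.node (nat_lit 0) (nat_lit 2) (nat_lit 9) (C.cons (nat_lit 517) (C.node (nat_lit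 0) (nat_lit 1) (nat_lit 8) (C.cons (nat_lit 275) (C.node (nat_lit 0) (nat_lit 1) (nat_lit 9) C.nil) C.nil)) C.nil)) (C.cons (nat_lit 7) (C.node (nat_lit 0) (nat_lit 2) (nat_lit 3) (C.cons (nat_lit 525) (C.node (nat_lit 0) (nat_lit 1) (nat_lit 9) (C.cons (nat_lit 531) (C.node (nat_lit 0) (nat_lit 5) (nat_lit 9) C.nil) C.nil)) C.nil)) C.nil)))) C.nil)))) (List.cons (C.node (nat_lit 0) (nat_lit 1) (nat_lit 2) (C.cons (nat_lit 519) (C.node (nat_lit 0) (nat_lit 1) (nat_lit 3) (C.cons (nat_lit 267) (C.node (nat_lit 0) (nat_lit 1) (nat_lit 4) C.nil) (C.cons (nat_lit 27) (C.node (nat_lit 0) (nat_lit 1) (nat_lit 8) C.nil) C.nil))) (C.cons (nat_lit 263) (C.node (nat_lit 0) (nat_lit 1) (nat_lit 3) (C.cons (nat_lit 523) (C.node (nat_lit 0) (nat_lit 1) (nat_lit 4) C.nil) (C.cons (nat_lit 27) (C.node (nat_lit 0) (nat_lit 1) (nat_lit 9) C.nil) C.nil))) (C.cons (nat_lit 15) (C.node (nat_lit 0) (nat_lit 1) (nat_lit 8) (C.cons (nat_lit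 275) (C.node (nat_lit 0) (nat_lit 1) (nat_lit 9) C.nil) C.nil)) C.nil)))) (List.cons (C.node (nat_lit 0) (nat_lit 1) (nat_lit 7) (C.cons (nat_lit 147) (C.ref (nat_lit 90) (nat_lit 654820258320)) (C.cons (nat_lit 139) (C.node (nat_lit 0) (nat_lit 2) (nat_lit 7) (C.cons (nat_lit 165) (C.node (nat_lit 0) (nat_lit 4) (nat_lit 7) (C.cons (nat_lit 145) (C.ref (nat_lit 91) (nat_lit 654820258320)) C.nil)) (C.cons (nat_lit 133) (C.node (nat_lit 0) (nat_lit 4) (nat_lit 7) (C.cons (nat_lit 177) (C.ref (nat_lit 91) (nat_lit 654820127760))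
  (C.cons (nat_lit 145) (C.node (nat_lit 0) (nat_lit 5) (nat_lit 7) (C.cons (nat_lit 161) (C.ref (nat_lit 92) (nat_lit 654820258320)) C.nil)) C.nil))) C.nil))) (C.cons (nat_lit 135) (C.ref (nat_lit 90) (nat_lit 654820127760)) (C.cons (nat_lit 131) (C.node (nat_lit 0) (nat_lit 2) (nat_lit 7) (C.cons (nat_lit 165) (C.node (nat_lit 0) (nat_lit 3) (nat_lit 7) (C.cons (nat_lit 153) (C.ref (nat_lit 91) (nat_lit 654816916800)) (C.cons (nat_lit 137) (C.node (nat_lit 0) (nat_lit 4) (nat_lit 7) (C.cons (nat_lit 145) (C.ref (nat_lit 94) (nat_lit 654820258320)) C.nil)) C.nil))) (C.cons (nat_lit 141) (C.node (nat_lit 0) (nat_lit 5) (nat_lit 7) (C.cons (nat_lit 177) (C.ref (nat_lit 91) (nat_lit 654819013920)) (C.cons (nat_lit 161) (C.node (nat_lit 0) (nat_lit 4) (nat_lit 7) (C.cons (nat_lit 145) (C.ref (nat_lit 92) (nat_lit 654819275040)) C.nil)) C.nil))) (C.cons (nat_lit 133) (C.node (nat_lit 0) (nat_lit 3) (nat_lit 7) (C.cons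 (nat_lit 169) (C.node (nat_lit 0) (nat_lit 4) (nat_lit 7) (C.cons (nat_lit 145) (C.ref (nat_lit 92) (nat_lit 654816064080)) C.nil)) (C.cons (nat_lit 153) (C.node (nat_lit 0) (nat_lit 5) (nat_lit 7) (C.cons (nat_lit 161) (C.ref (nat_lit 92) (nat_lit 654817177920)) C.nil)) (C.cons (nat_lit 137) (C.node (nat_lit 0) (nat_lit 4) (nat_lit 7) (C.cons (nat_lit 177) (C.ref (nat_lit 94) (nat_lit 654820127760)) (C.cons (nat_lit 145) (C.node (nat_lit 0) (nat_lit 5) (nat_lit 7) (C.cons (nat_lit 161) (C.ref (nat_lit 95) (nat_lit 654820258320)) C.nil)) C.nil))) C.nil)))) C.nil)))) C.nil))))) (List.cons (C.node (nat_lit 0) (nat_lit 2) (nat_lit 7) (C.cons (nat_lit 165) (C.node (nat_lit 0) (nat_lit 3) (nat_lit 7) (C.cons (nat_lit 137) (C.node (nat_lit 0) (nat_lit 2) (nat_lit 8) (C.cons (nat_lit 277) (C.node (nat_lit 0) (nat_lit 5) (nat_lit 8) C.nil) C.nil)) C.nil)) (C.cons (nat_lit 141) (C.node (nat_lit 0) (nat_lit 5) (nat_lit 7)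 (C.cons (nat_lit 161) (C.ref (nat_lit 87) (nat_lit 646514430480)) C.nil)) (C.cons (nat_lit 133) (C.node (nat_lit 0) (nat_lit 3) (nat_lit 7) (C.cons (nat_lit 169) (C.node (nat_lit 0) (nat_lit 3) (nat_lit 2) (C.cons (nat_lit 525) (C.node (nat_lit 0) (nat_lit 3) (nat_lit 4) C.nil) (C.cons (nat_lit 29) (C.node (nat_lit 0) (nat_lit 3) (nat_lit 9) C.nil) C.nil))) C.nil)) C.nil)))) (List.cons (C.node (nat_lit 0) (nat_lit 1) (nat_lit 2) (C.cons (nat_lit 519) (C.node (nat_lit 0) (nat_lit 2) (nat_lit 7) (C.cons (nat_lit 165) (C.node (nat_lit 0) (nat_lit 3) (nat_lit 7) (C.cons (nat_lit 137) (C.ref (nat_lit 93) (nat_lit 654568599840)) C.nil)) (C.cons (nat_lit 141) (C.node (nat_lit 0) (nat_lit 5) (nat_lit 7) (C.cons (nat_lit 161) (C.ref (nat_lit 83) (nat_lit 646514430480)) C.nil)) (C.cons (nat_lit 133) (C.node (nat_lit 0) (nat_lit 3) (nat_lit 7) (C.cons (nat_lit 169) (C.ref (nat_lit 93) (nat_lit 590144086320)) (C.cons (nat_lit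 137) (C.node (nat_lit 0) (nat_lit 5) (nat_lit 7) (C.cons (nat_lit 161) (C.node (nat_lit 0) (nat_lit 2) (nat_lit 3) (C.cons (nat_lit 45) (C.node (nat_lit 0) (nat_lit 2) (nat_lit 4) (C.cons (nat_lit 277) (C.node (nat_lit 0) (nat_lit 5) (nat_lit 8) C.nil) C.nil)) (C.cons (nat_lit 29) (C.node (nat_lit 0) (nat_lit 2) (nat_lit 5) (C.cons (nat_lit 293) (C.node (nat_lit 0) (nat_lit 4) (nat_lit 8) C.nil) C.nil)) C.nil))) C.nil)) C.nil))) C.nil)))) (C.cons (nat_lit 7) (C.node (nat_lit 0) (nat_lit 1) (nat_lit 9) (C.cons (nat_lit 515) (C.ref (nat_lit 97) (nat_lit 654820258320)) C.nil)) C.nil))) (List.cons (C.node (nat_lit 0) (nat_lit 2) (nat_lit 7) (C.cons (nat_lit 165) (C.node (nat_lit 0) (nat_lit 3) (nat_lit 7) (C.cons (nat_lit 137) (C.node (nat_lit 0) (nat_lit 2) (nat_lit 8) (C.cons (nat_lit 277) (C.node (nat_lit 0) (nat_lit 2) (nat_lit 9) C.nil) C.nil)) C.nil)) (C.cons (nat_lit 133) (C.node (nat_lit 0) (nat_lit 3) (nat_lit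 7) (C.cons (nat_lit 169) (C.node (nat_lit 0) (nat_lit 3) (nat_lit 8) (C.cons (nat_lit 281) (C.node (nat_lit 0) (nat_lit 3) (nat_lit 9) C.nil) C.nil)) C.nil)) C.nil))) List.nil)))))))))))))))))))))

theorem ok10_79 : okL par10 (nat_lit 100) c10_79 (nat_lit 79) = true := by decide +kernel

noncomputable def c10_100 : List C :=
  (List.cons (C.node (nat_lit 0) (nat_lit 1) (nat_lit 2) (C.cons (nat_lit 519) (C.node (nat_lit 0) (nat_lit 1) (nat_lit 3) (C.cons (nat_lit 11) (C.ref (nat_lit 97) (nat_lit 590395745040)) C.nil)) (C.cons (nat_lit 15) (C.node (nat_lit 0) (nat_lit 1) (nat_lit 9) (C.cons (nat_lit 515) (C.ref (nat_lit 99) (nat_lit 654820258320)) C.nil)) (C.cons (nat_lit 7) (C.node (nat_lit 0) (nat_lit 1) (nat_lit 3) (C.cons (nat_lit 523) (C.ref (nat_lit 97) (nat_lit 590395748880)) (C.cons (nat_lit 11) (C.node (nat_lit 0) (nat_lit 1) (nat_lit 9) C.nil) C.nil))) C.nil)))) (List.cons (C.node (nat_lit 0) (nat_lit 1)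 (nat_lit 8) (C.cons (nat_lit 267) (C.ref (nat_lit 98) (nat_lit 654820258320)) (C.cons (nat_lit 263) (C.ref (nat_lit 98) (nat_lit 654820254480)) (C.cons (nat_lit 259) (C.ref (nat_lit 100) (nat_lit 654820258320)) C.nil)))) (List.cons (C.node (nat_lit 0) (nat_lit 1) (nat_lit 7) (C.cons (nat_lit 147) (C.ref (nat_lit 101) (nat_lit 654820258320)) (C.cons (nat_lit 139) (C.ref (nat_lit 101) (nat_lit 654820196880)) (C.cons (nat_lit 135) (C.ref (nat_lit 101) (nat_lit 654820131600)) (C.cons (nat_lit 131) (C.node (nat_lit 0) (nat_lit 1) (nat_lit 8) (C.cons (nat_lit 275) (C.ref (nat_lit 100) (nat_lit 650793726480)) (C.cons (nat_lit 267) (C.ref (nat_lit 100) (nat_lit 650793665040)) (C.cons (nat_lit 263) (C.ref (nat_lit 100) (nat_lit 650793599760)) (C.cons (nat_lit 259) (C.node (nat_lit 0) (nat_lit 1) (nat_lit 2) (C.cons (nat_lit 519) (C.node (nat_lit 0) (nat_lit 1) (nat_lit 3) (C.cons (nat_lit 27) (C.ref (nat_lit 99) (nat_lit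 582342558480)) (C.cons (nat_lit 11) (C.node (nat_lit 0) (nat_lit 1) (nat_lit 4) C.nil) C.nil))) (C.cons (nat_lit 23) (C.node (nat_lit 0) (nat_lit 1) (nat_lit 3) (C.cons (nat_lit 523) (C.ref (nat_lit 99) (nat_lit 582342623760)) (C.cons (nat_lit 11) (C.node (nat_lit 0) (nat_lit 1) (nat_lit 9) C.nil) C.nil))) (C.cons (nat_lit 15) (C.node (nat_lit 0) (nat_lit 1) (nat_lit 4) (C.cons (nat_lit 531) (C.ref (nat_lit 99) (nat_lit 582342685200)) (C.cons (nat_lit 19) (C.node (nat_lit 0) (nat_lit 1) (nat_lit 9) C.nil) C.nil))) (C.cons (nat_lit 7) (C.node (nat_lit 0) (nat_lit 1) (nat_lit 3) (C.cons (nat_lit 523) (C.node (nat_lit 0) (nat_lit 1) (nat_lit 4) C.nil) (C.cons (nat_lit 27) (C.node (nat_lit 0) (nat_lit 1) (nat_lit 9) C.nil) C.nil))) C.nil))))) C.nil))))) C.nil))))) (List.cons (C.node (nat_lit 0) (nat_lit 3) (nat_lit 6) (C.cons (nat_lit 89) (C.ref (nat_lit 96) (nat_lit 654820254480)) (C.cons (nat_lit 73) (C.node (nat_lit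 0) (nat_lit 4) (nat_lit 6) (C.cons (nat_lit 81) (C.ref (nat_lit 102) (nat_lit 654820258320)) C.nil)) C.nil))) (List.cons (C.node (nat_lit 0) (nat_lit 2) (nat_lit 6) (C.cons (nat_lit 85) (C.node (nat_lit 0) (nat_lit 3) (nat_lit 6) (C.cons (nat_lit 73) (C.ref (nat_lit 96) (nat_lit 654820258320)) C.nil)) (C.cons (nat_lit 77) (C.node (nat_lit 0) (nat_lit 4) (nat_lit 6) (C.cons (nat_lit 81) (C.ref (nat_lit 96) (nat_lit 654820196880)) C.nil)) (C.cons (nat_lit 69) (C.ref (nat_lit 103) (nat_lit 654820258320)) C.nil)))) (List.cons (C.node (nat_lit 0) (nat_lit 2) (nat_lit 7) (C.cons (nat_lit 149) (C.node (nat_lit 0) (nat_lit 3) (nat_lit 7) (C.cons (nat_lit 137) (C.ref (nat_lit 95) (nat_lit 654568600080)) C.nil)) (C.cons (nat_lit 141) (C.node (nat_lit 0) (nat_lit 4) (nat_lit 7) (C.cons (nat_lit 145) (C.ref (nat_lit 95) (nat_lit 654568538640)) C.nil)) (C.cons (nat_lit 133) (C.node (nat_lit 0) (nat_lit 3) (nat_lit 7) (C.cons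 (nat_lit 153) (C.ref (nat_lit 95) (nat_lit 654568596240)) C.nil)) C.nil)))) (List.cons (C.big (C.cons (nat_lit 569) (C.ref (nat_lit 72) (nat_lit 654820258320)) (C.cons (nat_lit 565) (C.ref (nat_lit 72) (nat_lit 654820254480)) (C.cons (nat_lit 563) (C.ref (nat_lit 72) (nat_lit 654820250400)) (C.cons (nat_lit 557) (C.ref (nat_lit 72) (nat_lit 654820189200)) (C.cons (nat_lit 555) (C.ref (nat_lit 72) (nat_lit 654820185120)) (C.cons (nat_lit 551) (C.ref (nat_lit 72) (nat_lit 654820119600)) (C.cons (nat_lit 541) (C.ref (nat_lit 72) (nat_lit 654819140880)) (C.cons (nat_lit 539)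
  (C.ref (nat_lit 72) (nat_lit 654819136800)) (C.cons (nat_lit 535) (C.ref (nat_lit 72) (nat_lit 654819071280)) (C.cons (nat_lit 527) (C.ref (nat_lit 72) (nat_lit 654818022720)) (C.cons (nat_lit 313) (C.ref (nat_lit 72) (nat_lit 590395748880)) (C.cons (nat_lit 309) (C.ref (nat_lit 72) (nat_lit 590395745040)) (C.cons (nat_lit 307) (C.ref (nat_lit 72) (nat_lit 590395740960)) (C.cons (nat_lit 301) (C.ref (nat_lit 72) (nat_lit 590395679760)) (C.cons (nat_lit 299) (C.ref (nat_lit 72) (nat_lit 590395675680)) (C.cons (nat_lit 295) (C.ref (nat_lit 72) (nat_lit 590395610160)) (C.cons (nat_lit 285) (C.ref (nat_lit 72) (nat_lit 590394631440)) (C.cons (nat_lit 283) (C.ref (nat_lit 72) (nat_lit 590394627360)) (C.cons (nat_lit 279) (C.ref (nat_lit 72) (nat_lit 590394561840)) (C.cons (nat_lit 271) (C.ref (nat_lit 72) (nat_lit 590393513280)) (C.cons (nat_lit 185) (C.ref (nat_lit 72) (nat_lit 521944707600)) (C.cons (nat_lit 181)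 (C.ref (nat_lit 72) (nat_lit 521944703760)) (C.cons (nat_lit 179) (C.ref (nat_lit 72) (nat_lit 521944699680)) (C.cons (nat_lit 173) (C.ref (nat_lit 72) (nat_lit 521944638480)) (C.cons (nat_lit 171) (C.ref (nat_lit 72) (nat_lit 521944634400)) (C.cons (nat_lit 167) (C.ref (nat_lit 72) (nat_lit 521944568880)) (C.cons (nat_lit 157) (C.ref (nat_lit 72) (nat_lit 521943590160)) (C.cons (nat_lit 155) (C.ref (nat_lit 72) (nat_lit 521943586080)) (C.cons (nat_lit 151) (C.ref (nat_lit 72) (nat_lit 521943520560)) (C.cons (nat_lit 143) (C.ref (nat_lit 72) (nat_lit 521942472000)) (C.cons (nat_lit 121) (C.ref (nat_lit 72) (nat_lit 453242008080)) (C.cons (nat_lit 117) (C.ref (nat_lit 72) (nat_lit 453242004240)) (C.cons (nat_lit 115) (C.ref (nat_lit 72) (nat_lit 453242000160)) (C.cons (nat_lit 109) (C.ref (nat_lit 72) (nat_lit 453241938960)) (C.cons (nat_lit 107) (C.ref (nat_lit 72) (nat_lit 453241934880)) (C.cons (nat_lit 103) (C.ref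 (nat_lit 72) (nat_lit 453241869360)) (C.cons (nat_lit 93) (C.ref (nat_lit 72) (nat_lit 453240890640)) (C.cons (nat_lit 91) (C.ref (nat_lit 72) (nat_lit 453240886560)) (C.cons (nat_lit 87) (C.ref (nat_lit 72) (nat_lit 453240821040)) (C.cons (nat_lit 79) (C.ref (nat_lit 72) (nat_lit 453239772480)) (C.cons (nat_lit 61) (C.ref (nat_lit 74) (nat_lit 654820258320)) (C.cons (nat_lit 59) (C.ref (nat_lit 74) (nat_lit 654820258080)) (C.cons (nat_lit 55) (C.ref (nat_lit 74) (nat_lit 654820254000)) (C.cons (nat_lit 47) (C.ref (nat_lit 74) (nat_lit 654820188480)) (C.cons (nat_lit 31) (C.ref (nat_lit 74) (nat_lit 654819139920)) C.nil))))))))))))))))))))))))))))))))))))))))))))) (C.node (nat_lit 0) (nat_lit 1) (nat_lit 6) (C.cons (nat_lit 99) (C.ref (nat_lit 104) (nat_lit 654820258320)) (C.cons (nat_lit 83) (C.ref (nat_lit 104) (nat_lit 654819275280)) (C.cons (nat_lit 75) (C.ref (nat_lit 104) (nat_lit 654818230800)) (C.cons (nat_lit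 71) (C.ref (nat_lit 104) (nat_lit 654817182480)) (C.cons (nat_lit 67) (C.node (nat_lit 0) (nat_lit 2) (nat_lit 6) (C.cons (nat_lit 101) (C.ref (nat_lit 103) (nat_lit 654820258080)) (C.cons (nat_lit 85) (C.ref (nat_lit 103) (nat_lit 654819275040)) (C.cons (nat_lit 77) (C.ref (nat_lit 103) (nat_lit 654818230560)) (C.cons (nat_lit 69) (C.node (nat_lit 0) (nat_lit 3) (nat_lit 6) (C.cons (nat_lit 105) (C.node (nat_lit 0) (nat_lit 4) (nat_lit 6) (C.cons (nat_lit 81) (C.ref (nat_lit 102) (nat_lit 654820254000)) C.nil)) (C.cons (nat_lit 89) (C.node (nat_lit 0) (nat_lit 5) (nat_lit 6) (C.cons (nat_lit 97) (C.ref (nat_lit 102) (nat_lit 654819270960)) C.nil)) (C.cons (nat_lit 73) (C.node (nat_lit 0) (nat_lit 4) (nat_lit 6) (C.cons (nat_lit 113) (C.ref (nat_lit 102) (nat_lit 654820188480)) (C.cons (nat_lit 81) (C.node (nat_lit 0) (nat_lit 5) (nat_lit 6) (C.cons (nat_lit 97) (C.node (nat_lit 0) (nat_lit 1) (nat_lit 7) (C.cons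 (nat_lit 163) (C.ref (nat_lit 105) (nat_lit 654820258320)) (C.cons (nat_lit 147) (C.ref (nat_lit 105) (nat_lit 654819275280)) (C.cons (nat_lit 139) (C.ref (nat_lit 105) (nat_lit 654818230800)) (C.cons (nat_lit 135) (C.ref (nat_lit 105) (nat_lit 654817182480)) (C.cons (nat_lit 131)
  (C.node (nat_lit 0) (nat_lit 2) (nat_lit 7) (C.cons (nat_lit 165) (C.node (nat_lit 0) (nat_lit 3) (nat_lit 7) (C.cons (nat_lit 153) (C.ref (nat_lit 95) (nat_lit 654568592160)) C.nil)) (C.cons (nat_lit 149) (C.node (nat_lit 0) (nat_lit 3) (nat_lit 7) (C.cons (nat_lit 169) (C.ref (nat_lit 95) (nat_lit 654567609120)) C.nil)) (C.cons (nat_lit 141) (C.node (nat_lit 0) (nat_lit 4) (nat_lit 7) (C.cons (nat_lit 177) (C.ref (nat_lit 95) (nat_lit 654566560800)) C.nil)) C.nil)))) C.nil)))))) C.nil)) C.nil))) C.nil)))) C.nil))))) C.nil))))))) (List.cons (C.node (nat_lit 0) (nat_lit 5) (nat_lit 7) (C.cons (nat_lit 673) (C.pat (nat_lit 1) (nat_lit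 896821537) (nat_lit 514041905177934135160085778177262241)) (C.cons (nat_lit 161) (C.node (nat_lit 0) (nat_lit 5) (nat_lit 9) (C.cons (nat_lit 545) (C.node (nat_lit 0) (nat_lit 6) (nat_lit 7) (C.cons (nat_lit 449) (C.pat (nat_lit 1) (nat_lit 645158961) (nat_lit 514044123566479148112267791885205953)) (C.cons (nat_lit 193) (C.node (nat_lit 0) (nat_lit 6) (nat_lit 8) (C.cons (nat_lit 321) (C.node (nat_lit 0) (nat_lit 7) (nat_lit 8) (C.cons (nat_lit 897) (C.pat (nat_lit 2) (nat_lit 31231195425) (nat_lit 20003868146256833197780933235196054728622932025)) C.nil)) C.nil)) C.nil))) C.nil)) C.nil))) (List.cons (C.node (nat_lit 0) (nat_lit 6) (nat_lit 7) (C.cons (nat_lit 449) (C.pat (nat_lit 2) (nat_lit 19198601505) (nat_lit 12510817759841308009525781444028294893121503681)) (C.cons (nat_lit 193) (C.node (nat_lit 0) (nat_lit 6) (nat_lit 8) (C.cons (nat_lit 321) (C.node (nat_lit 0) (nat_lit 7) (nat_lit 8) (C.cons (nat_lit 897)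 (C.pat (nat_lit 3) (nat_lit 14904744225) (nat_lit 13046241175155663211725559034388628224797245959)) C.nil)) C.nil)) C.nil))) (List.cons (C.node (nat_lit 0) (nat_lit 5) (nat_lit 7) (C.cons (nat_lit 673) (C.node (nat_lit 0) (nat_lit 8) (nat_lit 9) (C.cons (nat_lit 769) (C.node (nat_lit 0) (nat_lit 6) (nat_lit 8) (C.cons (nat_lit 449) (C.pat (nat_lit 1) (nat_lit 1733835026) (nat_lit 732149430852605656830617203730219681)) C.nil)) C.nil)) (C.cons (nat_lit 161) (C.node (nat_lit 0) (nat_lit 5) (nat_lit 9) C.nil) C.nil))) (List.cons (C.node (nat_lit 0) (nat_lit 6) (nat_lit 7) (C.cons (nat_lit 449) (C.node (nat_lit 0) (nat_lit 8) (nat_lit 4) (C.cons (nat_lit 785) (C.pat (nat_lit 1) (nat_lit 407054709) (nat_lit 1521364133539014149357160731010466577)) (C.cons (nat_lit 273) (C.node (nat_lit 0) (nat_lit 8) (nat_lit 9) (C.cons (nat_lit 769) (C.node (nat_lit 0) (nat_lit 4) (nat_lit 9) (C.cons (nat_lit 593) (C.pat (nat_lit 2) (nat_lit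 18028721685) (nat_lit 13224518510663446398304715745330859991193813133)) C.nil)) C.nil)) C.nil))) (C.cons (nat_lit 193) (C.node (nat_lit 0) (nat_lit 7) (nat_lit 8) (C.cons (nat_lit 385) (C.node (nat_lit 0) (nat_lit 4) (nat_lit 8) (C.cons (nat_lit 337) (C.node (nat_lit 0) (nat_lit 4) (nat_lit 9) C.nil) (C.cons (nat_lit 785) (C.pat (nat_lit 1) (nat_lit 1417902369) (nat_lit 763272154532678583039567785848800017)) C.nil))) C.nil)) C.nil))) (List.cons (C.node (nat_lit 0) (nat_lit 3) (nat_lit 4) (C.cons (nat_lit 537) (C.node (nat_lit 0) (nat_lit 3) (nat_lit 6) C.nil) (C.cons (nat_lit 89) (C.node (nat_lit 0) (nat_lit 3) (nat_lit 9) C.nil) C.nil))) (List.cons (C.node (nat_lit 0) (nat_lit 4) (nat_lit 8) (C.cons (nat_lit 785) (C.ref (nat_lit 108) (nat_lit 581584634640)) (C.cons (nat_lit 273) (C.node (nat_lit 0) (nat_lit 4) (nat_lit 9) (C.cons (nat_lit 529) (C.node (nat_lit 0) (nat_lit 6) (nat_lit 9) (C.cons (nat_lit 833) (C.node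 (nat_lit 0) (nat_lit 6) (nat_lit 7) C.nil) (C.cons (nat_lit 705) (C.node (nat_lit 0) (nat_lit 6) (nat_lit 8) C.nil) C.nil))) C.nil)) C.nil))) (List.cons (C.node (nat_lit 0) (nat_lit 4) (nat_lit 6) (C.cons (nat_lit 593) (C.node (nat_lit 0) (nat_lit 4) (nat_lit 8) C.nil) (C.cons (nat_lit 337) (C.node (nat_lit 0) (nat_lit 4) (nat_lit 9) C.nil) C.nil))) (List.cons (C.node (nat_lit 0) (nat_lit 3) (nat_lit 4) (C.cons (nat_lit 89) (C.ref (nat_lit 112) (nat_lit 654820258320)) (C.cons (nat_lit 25) (C.node (nat_lit 0) (nat_lit 3) (nat_lit 6) (C.cons (nat_lit 73)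
  (C.ref (nat_lit 113) (nat_lit 654820258320)) C.nil)) C.nil))) (List.cons (C.node (nat_lit 0) (nat_lit 3) (nat_lit 6) (C.cons (nat_lit 585) (C.node (nat_lit 0) (nat_lit 4) (nat_lit 6) (C.cons (nat_lit 337) (C.node (nat_lit 0) (nat_lit 4) (nat_lit 9) (C.cons (nat_lit 529) (C.node (nat_lit 0) (nat_lit 6) (nat_lit 7) (C.cons (nat_lit 193) (C.node (nat_lit 0) (nat_lit 7) (nat_lit 9) (C.cons (nat_lit 897) (C.pat (nat_lit 3) (nat_lit 10625509425) (nat_lit 6534423577184719035737784902300378328006328587)) C.nil)) C.nil)) C.nil)) (C.cons (nat_lit 81) (C.node (nat_lit 0) (nat_lit 4) (nat_lit 8) (C.cons (nat_lit 785) (C.node (nat_lit 0) (nat_lit 7) (nat_lit 9) (C.cons (nat_lit 641) (C.node (nat_lit 0) (nat_lit 6) (nat_lit 7) (C.cons (nat_lit 449) (C.qs C.nil) C.nil)) C.nil)) (C.cons (nat_lit 273) (C.node (nat_lit 0) (nat_lit 4) (nat_lit 9) C.nil) C.nil))) C.nil))) (C.cons (nat_lit 73) (C.node (nat_lit 0) (nat_lit 3) (nat_lit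 9) (C.cons (nat_lit 521) (C.ref (nat_lit 111) (nat_lit 581316264720)) C.nil)) C.nil))) (List.cons (C.node (nat_lit 0) (nat_lit 3) (nat_lit 4) (C.cons (nat_lit 89) (C.node (nat_lit 0) (nat_lit 3) (nat_lit 9) (C.cons (nat_lit 521) (C.node (nat_lit 0) (nat_lit 4) (nat_lit 8) (C.cons (nat_lit 273) (C.node (nat_lit 0) (nat_lit 6) (nat_lit 7) (C.cons (nat_lit 705) (C.node (nat_lit 0) (nat_lit 6) (nat_lit 8) C.nil) (C.cons (nat_lit 449) (C.node (nat_lit 0) (nat_lit 7) (nat_lit 9) C.nil) C.nil))) C.nil)) C.nil)) (C.cons (nat_lit 25) (C.node (nat_lit 0) (nat_lit 3) (nat_lit 6) (C.cons (nat_lit 585) (C.node (nat_lit 0) (nat_lit 4) (nat_lit 6) (C.cons (nat_lit 337) (C.node (nat_lit 0) (nat_lit 6) (nat_lit 7) (C.cons (nat_lit 193) (C.node (nat_lit 0) (nat_lit 7) (nat_lit 8) (C.cons (nat_lit 897) (C.pat (nat_lit 2) (nat_lit 31224927105) (nat_lit 3144504777476200807621567567302800306606899761)) C.nil)) C.nil)) (C.cons (nat_lit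 81) (C.node (nat_lit 0) (nat_lit 4) (nat_lit 8) C.nil) C.nil))) (C.cons (nat_lit 73) (C.node (nat_lit 0) (nat_lit 3) (nat_lit 9) C.nil) C.nil))) C.nil))) (List.cons (C.node (nat_lit 0) (nat_lit 3) (nat_lit 4) (C.cons (nat_lit 537) (C.node (nat_lit 0) (nat_lit 3) (nat_lit 6) C.nil) (C.cons (nat_lit 89) (C.node (nat_lit 0) (nat_lit 3) (nat_lit 9) C.nil) C.nil))) (List.cons (C.node (nat_lit 0) (nat_lit 5) (nat_lit 7) (C.cons (nat_lit 673) (C.node (nat_lit 0) (nat_lit 3) (nat_lit 5) (C.cons (nat_lit 57) (C.node (nat_lit 0) (nat_lit 3) (nat_lit 6) (C.cons (nat_lit 585) (C.ref (nat_lit 107) (nat_lit 431802691920)) (C.cons (nat_lit 73) (C.node (nat_lit 0) (nat_lit 3) (nat_lit 9) (C.cons (nat_lit 521) (C.ref (nat_lit 110) (nat_lit 654820258320)) C.nil)) C.nil))) (C.cons (nat_lit 41) (C.node (nat_lit 0) (nat_lit 4) (nat_lit 5) (C.cons (nat_lit 49) (C.node (nat_lit 0) (nat_lit 6) (nat_lit 7) (C.cons (nat_lit 449) (C.ref (nat_lit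 110) (nat_lit 453193704720)) (C.cons (nat_lit 193) (C.node (nat_lit 0) (nat_lit 7) (nat_lit 8) (C.cons (nat_lit 385) (C.ref (nat_lit 111) (nat_lit 654820258320)) C.nil)) C.nil))) C.nil)) C.nil))) (C.cons (nat_lit 161) (C.node (nat_lit 0) (nat_lit 3) (nat_lit 5) (C.cons (nat_lit 553) (C.node (nat_lit 0) (nat_lit 4) (nat_lit 5) (C.cons (nat_lit 49) (C.ref (nat_lit 114) (nat_lit 654820258320)) C.nil)) (C.cons (nat_lit 57) (C.node (nat_lit 0) (nat_lit 5) (nat_lit 9) (C.cons (nat_lit 545) (C.ref (nat_lit 115) (nat_lit 654820258320)) C.nil)) (C.cons (nat_lit 41) (C.node (nat_lit 0) (nat_lit 4) (nat_lit 5) (C.cons (nat_lit 561) (C.ref (nat_lit 116) (nat_lit 654820258320)) (C.cons (nat_lit 49) (C.node (nat_lit 0) (nat_lit 5) (nat_lit 9) (C.cons (nat_lit 545) (C.ref (nat_lit 117) (nat_lit 654820258320)) C.nil)) C.nil))) C.nil)))) C.nil))) (List.cons (C.node (nat_lit 0) (nat_lit 2) (nat_lit 4) (C.cons (nat_lit 85) (C.node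 (nat_lit 0) (nat_lit 3) (nat_lit 6) (C.cons (nat_lit 585) (C.node (nat_lit 0) (nat_lit 3) (nat_lit 4) (C.cons (nat_lit 57) (C.node (nat_lit 0) (nat_lit 4) (nat_lit 8) (C.cons (nat_lit 785) (C.pat (nat_lit 1) (nat_lit 1130727713) (nat_lit 1386347777353760426744759104328499785))
  (C.cons (nat_lit 273) (C.node (nat_lit 0) (nat_lit 4) (nat_lit 9) (C.cons (nat_lit 529) (C.ref (nat_lit 107) (nat_lit 654820258320)) C.nil)) C.nil))) (C.cons (nat_lit 25) (C.node (nat_lit 0) (nat_lit 3) (nat_lit 5) (C.cons (nat_lit 41) (C.node (nat_lit 0) (nat_lit 4) (nat_lit 5) (C.cons (nat_lit 561) (C.node (nat_lit 0) (nat_lit 4) (nat_lit 8) (C.cons (nat_lit 273) (C.node (nat_lit 0) (nat_lit 5) (nat_lit 7) (C.cons (nat_lit 161) (C.ref (nat_lit 108) (nat_lit 654820258320)) C.nil)) C.nil)) (C.cons (nat_lit 49) (C.node (nat_lit 0) (nat_lit 4) (nat_lit 8) (C.cons (nat_lit 785) (C.node (nat_lit 0) (nat_lit 5) (nat_lit 7) (C.cons (nat_lit 673)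 (C.node (nat_lit 0) (nat_lit 6) (nat_lit 7) (C.cons (nat_lit 449) (C.pat (nat_lit 1) (nat_lit 1749498145) (nat_lit 1386378834851490768357783232022643473)) (C.cons (nat_lit 193) (C.node (nat_lit 0) (nat_lit 6) (nat_lit 8) (C.cons (nat_lit 321) (C.node (nat_lit 0) (nat_lit 7) (nat_lit 8) (C.cons (nat_lit 385) (C.qs C.nil) C.nil)) C.nil)) C.nil))) (C.cons (nat_lit 161) (C.node (nat_lit 0) (nat_lit 5) (nat_lit 9) (C.cons (nat_lit 545) (C.node (nat_lit 0) (nat_lit 7) (nat_lit 9) (C.cons (nat_lit 641) (C.node (nat_lit 0) (nat_lit 6) (nat_lit 7) (C.cons (nat_lit 449) (C.pat (nat_lit 1) (nat_lit 1749498145) (nat_lit 1386378834851490768357783232022643473)) C.nil)) C.nil)) C.nil)) C.nil))) (C.cons (nat_lit 273) (C.node (nat_lit 0) (nat_lit 4) (nat_lit 9) (C.cons (nat_lit 529) (C.ref (nat_lit 109) (nat_lit 654820258320)) C.nil)) C.nil))) C.nil))) C.nil)) C.nil))) (C.cons (nat_lit 73) (C.node (nat_lit 0) (nat_lit 4) (nat_lit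 8) (C.cons (nat_lit 785) (C.node (nat_lit 0) (nat_lit 3) (nat_lit 4) (C.cons (nat_lit 57) (C.node (nat_lit 0) (nat_lit 3) (nat_lit 9) (C.cons (nat_lit 521) (C.ref (nat_lit 107) (nat_lit 646263816480)) C.nil)) (C.cons (nat_lit 25) (C.node (nat_lit 0) (nat_lit 4) (nat_lit 5) (C.cons (nat_lit 49) (C.node (nat_lit 0) (nat_lit 3) (nat_lit 5) (C.cons (nat_lit 553) (C.node (nat_lit 0) (nat_lit 5) (nat_lit 7) (C.cons (nat_lit 161) (C.ref (nat_lit 108) (nat_lit 646263816480)) C.nil)) (C.cons (nat_lit 41) (C.node (nat_lit 0) (nat_lit 3) (nat_lit 9) (C.cons (nat_lit 521) (C.ref (nat_lit 109) (nat_lit 646263816480)) C.nil)) C.nil))) C.nil)) C.nil))) (C.cons (nat_lit 273) (C.node (nat_lit 0) (nat_lit 5) (nat_lit 7) (C.cons (nat_lit 673) (C.node (nat_lit 0) (nat_lit 3) (nat_lit 5) (C.cons (nat_lit 57) (C.node (nat_lit 0) (nat_lit 3) (nat_lit 9) (C.cons (nat_lit 521) (C.node (nat_lit 0) (nat_lit 4) (nat_lit 9) (C.cons (nat_lit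 529) (C.node (nat_lit 0) (nat_lit 7) (nat_lit 8) (C.cons (nat_lit 449) (C.pat (nat_lit 1) (nat_lit 662914641) (nat_lit 763278809698318934558408498432508353)) (C.cons (nat_lit 385) (C.node (nat_lit 0) (nat_lit 7) (nat_lit 6) (C.cons (nat_lit 193) (C.node (nat_lit 0) (nat_lit 8) (nat_lit 6) (C.cons (nat_lit 833) (C.pat (nat_lit 2) (nat_lit 35238926625) (nat_lit 18576549675109334428387287084954122087416922169)) C.nil)) C.nil)) C.nil))) C.nil)) C.nil)) (C.cons (nat_lit 41) (C.node (nat_lit 0) (nat_lit 4) (nat_lit 5) (C.cons (nat_lit 49) (C.node (nat_lit 0) (nat_lit 3) (nat_lit 4) (C.cons (nat_lit 537) (C.ref (nat_lit 108) (nat_lit 654566510880)) (C.cons (nat_lit 25) (C.node (nat_lit 0) (nat_lit 3) (nat_lit 9) (C.cons (nat_lit 521) (C.node (nat_lit 0) (nat_lit 4) (nat_lit 9) C.nil) C.nil)) C.nil))) C.nil)) C.nil))) (C.cons (nat_lit 161) (C.node (nat_lit 0) (nat_lit 3) (nat_lit 4) (C.cons (nat_lit 537) (C.node (nat_lit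 0) (nat_lit 3) (nat_lit 5) (C.cons (nat_lit 41) (C.node (nat_lit 0) (nat_lit 4) (nat_lit 5) (C.cons (nat_lit 49) (C.node (nat_lit 0) (nat_lit 5) (nat_lit 9) (C.cons (nat_lit 545) (C.node (nat_lit 0) (nat_lit 6) (nat_lit 7) (C.cons (nat_lit 705) (C.node (nat_lit 0) (nat_lit 6) (nat_lit 8) C.nil) (C.cons (nat_lit 449) (C.node (nat_lit 0) (nat_lit 6) (nat_lit 9) C.nil) C.nil))) C.nil)) C.nil)) C.nil)) (C.cons (nat_lit 57) (C.node (nat_lit 0) (nat_lit 3) (nat_lit 9) (C.cons (nat_lit 521) (C.node (nat_lit 0) (nat_lit 4) (nat_lit 9) (C.cons (nat_lit 529)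
  (C.node (nat_lit 0) (nat_lit 5) (nat_lit 9) (C.cons (nat_lit 545) (C.node (nat_lit 0) (nat_lit 6) (nat_lit 7) (C.cons (nat_lit 705) (C.node (nat_lit 0) (nat_lit 6) (nat_lit 8) C.nil) (C.cons (nat_lit 449) (C.pat (nat_lit 1) (nat_lit 645158961) (nat_lit 514044123566479148112267791885205953)) C.nil))) C.nil)) C.nil)) C.nil)) (C.cons (nat_lit 25) (C.node (nat_lit 0) (nat_lit 3) (nat_lit 5) (C.cons (nat_lit 553) (C.node (nat_lit 0) (nat_lit 5) (nat_lit 4) (C.cons (nat_lit 49) (C.node (nat_lit 0) (nat_lit 4) (nat_lit 9) (C.cons (nat_lit 529) (C.node (nat_lit 0) (nat_lit 6) (nat_lit 8) (C.cons (nat_lit 833) (C.node (nat_lit 0) (nat_lit 6) (nat_lit 7) C.nil) (C.cons (nat_lit 449) (C.node (nat_lit 0) (nat_lit 6) (nat_lit 9) C.nil) C.nil))) C.nil)) C.nil)) (C.cons (nat_lit 41) (C.node (nat_lit 0) (nat_lit 3) (nat_lit 9) (C.cons (nat_lit 521) (C.node (nat_lit 0) (nat_lit 4) (nat_lit 5) (C.cons (nat_lit 561) (C.node (nat_lit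 0) (nat_lit 7) (nat_lit 6) (C.cons (nat_lit 705) (C.node (nat_lit 0) (nat_lit 7) (nat_lit 8) C.nil) (C.cons (nat_lit 449) (C.node (nat_lit 0) (nat_lit 7) (nat_lit 9) C.nil) C.nil))) C.nil)) C.nil)) C.nil))) C.nil)))) C.nil))) C.nil))) C.nil))) (C.cons (nat_lit 21) (C.node (nat_lit 0) (nat_lit 2) (nat_lit 6) (C.cons (nat_lit 69) (C.ref (nat_lit 118) (nat_lit 654820258320)) C.nil)) C.nil))) (List.cons (C.node (nat_lit 0) (nat_lit 3) (nat_lit 4) (C.cons (nat_lit 89) (C.node (nat_lit 0) (nat_lit 4) (nat_lit 9) (C.cons (nat_lit 529) (C.ref (nat_lit 112) (nat_lit 517917184560)) C.nil)) (C.cons (nat_lit 25) (C.node (nat_lit 0) (nat_lit 3) (nat_lit 6) (C.cons (nat_lit 73) (C.node (nat_lit 0) (nat_lit 4) (nat_lit 6) (C.cons (nat_lit 593) (C.node (nat_lit 0) (nat_lit 5) (nat_lit 7) (C.cons (nat_lit 417) (C.node (nat_lit 0) (nat_lit 6) (nat_lit 7) (C.cons (nat_lit 193) (C.node (nat_lit 0) (nat_lit 6) (nat_lit 8) C.nil) C.nil))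 (C.cons (nat_lit 161) (C.node (nat_lit 0) (nat_lit 5) (nat_lit 8) C.nil) C.nil))) (C.cons (nat_lit 81) (C.node (nat_lit 0) (nat_lit 4) (nat_lit 9) C.nil) C.nil))) C.nil)) C.nil))) (List.cons (C.node (nat_lit 0) (nat_lit 3) (nat_lit 5) (C.cons (nat_lit 553) (C.node (nat_lit 0) (nat_lit 4) (nat_lit 5) (C.cons (nat_lit 49) (C.ref (nat_lit 120) (nat_lit 654820258320)) C.nil)) (C.cons (nat_lit 57) (C.node (nat_lit 0) (nat_lit 3) (nat_lit 6) (C.cons (nat_lit 585) (C.node (nat_lit 0) (nat_lit 4) (nat_lit 6) (C.cons (nat_lit 81) (C.node (nat_lit 0) (nat_lit 4) (nat_lit 9) (C.cons (nat_lit 529) (C.ref (nat_lit 112) (nat_lit 517900472880)) C.nil)) C.nil)) (C.cons (nat_lit 73) (C.node (nat_lit 0) (nat_lit 3) (nat_lit 9) (C.cons (nat_lit 521) (C.ref (nat_lit 114) (nat_lit 581316264720)) C.nil)) C.nil))) (C.cons (nat_lit 41) (C.node (nat_lit 0) (nat_lit 4) (nat_lit 5) (C.cons (nat_lit 561) (C.ref (nat_lit 120) (nat_lit 650793665040))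 (C.cons (nat_lit 49) (C.node (nat_lit 0) (nat_lit 3) (nat_lit 4) (C.cons (nat_lit 537) (C.node (nat_lit 0) (nat_lit 3) (nat_lit 6) (C.cons (nat_lit 73) (C.node (nat_lit 0) (nat_lit 4) (nat_lit 6) (C.cons (nat_lit 81) (C.node (nat_lit 0) (nat_lit 5) (nat_lit 7) (C.cons (nat_lit 673) (C.node (nat_lit 0) (nat_lit 5) (nat_lit 8) C.nil) (C.cons (nat_lit 417) (C.node (nat_lit 0) (nat_lit 5) (nat_lit 9) C.nil) C.nil))) C.nil)) C.nil)) (C.cons (nat_lit 89) (C.node (nat_lit 0) (nat_lit 3) (nat_lit 9) (C.cons (nat_lit 521) (C.node (nat_lit 0) (nat_lit 4) (nat_lit 9) (C.cons (nat_lit 529) (C.ref (nat_lit 113) (nat_lit 581584634640)) C.nil)) C.nil)) (C.cons (nat_lit 25) (C.node (nat_lit 0) (nat_lit 3) (nat_lit 6) (C.cons (nat_lit 585) (C.node (nat_lit 0) (nat_lit 4) (nat_lit 6) (C.cons (nat_lit 81) (C.node (nat_lit 0) (nat_lit 4) (nat_lit 9) C.nil) C.nil)) (C.cons (nat_lit 73) (C.node (nat_lit 0) (nat_lit 3) (nat_lit 9) C.nil)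 C.nil))) C.nil)))) C.nil))) C.nil)))) (List.cons (C.node (nat_lit 0) (nat_lit 4) (nat_lit 5) (C.cons (nat_lit 305) (C.node (nat_lit 0) (nat_lit 4) (nat_lit 9) (C.cons (nat_lit 529) (C.node (nat_lit 0) (nat_lit 5) (nat_lit 7) (C.cons (nat_lit 161)
  (C.node (nat_lit 0) (nat_lit 7) (nat_lit 6) (C.cons (nat_lit 449) (C.node (nat_lit 0) (nat_lit 7) (nat_lit 9) C.nil) (C.cons (nat_lit 705) (C.node (nat_lit 0) (nat_lit 7) (nat_lit 8) C.nil) C.nil))) C.nil)) C.nil)) (C.cons (nat_lit 49) (C.node (nat_lit 0) (nat_lit 4) (nat_lit 8) (C.cons (nat_lit 785) (C.ref (nat_lit 109) (nat_lit 577561051440)) (C.cons (nat_lit 273) (C.node (nat_lit 0) (nat_lit 4) (nat_lit 9) C.nil) C.nil))) C.nil))) List.nil)))))))))))))))))))))))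

theorem ok10_100 : okL par10 (nat_lit 123) c10_100 (nat_lit 100) = true := by decide +kernel

noncomputable def c10_123 : List C :=
  (List.cons (C.node (nat_lit 0) (nat_lit 3) (nat_lit 5) (C.cons (nat_lit 553) (C.node (nat_lit 0) (nat_lit 3) (nat_lit 4) (C.cons (nat_lit 89) (C.ref (nat_lit 122) (nat_lit 654820258320)) (C.cons (nat_lit 25) (C.node (nat_lit 0) (nat_lit 3) (nat_lit 6) (C.cons (nat_lit 73) (C.node (nat_lit 0) (nat_lit 4) (nat_lit 5) (C.cons (nat_lit 305) (C.node (nat_lit 0) (nat_lit 5) (nat_lit 7) C.nil) C.nil)) C.nil)) C.nil))) (C.cons (nat_lit 57) (C.node (nat_lit 0) (nat_lit 3) (nat_lit 6) (C.cons (nat_lit 585) (C.ref (nat_lit 122) (nat_lit 654804529680)) (C.cons (nat_lit 73) (C.node (nat_lit 0) (nat_lit 3) (nat_lit 9) (C.cons (nat_lit 521) (C.ref (nat_lit 117) (nat_lit 581316264720)) C.nil)) C.nil))) (C.cons (nat_lit 41) (C.node (nat_lit 0) (nat_lit 3) (nat_lit 4) (C.cons (nat_lit 537) (C.node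 (nat_lit 0) (nat_lit 3) (nat_lit 6) (C.cons (nat_lit 73) (C.node (nat_lit 0) (nat_lit 4) (nat_lit 5) (C.cons (nat_lit 305) (C.node (nat_lit 0) (nat_lit 4) (nat_lit 6) C.nil) C.nil)) C.nil)) (C.cons (nat_lit 89) (C.node (nat_lit 0) (nat_lit 3) (nat_lit 9) (C.cons (nat_lit 521) (C.ref (nat_lit 117) (nat_lit 581584634640)) C.nil)) (C.cons (nat_lit 25) (C.node (nat_lit 0) (nat_lit 3) (nat_lit 6) (C.cons (nat_lit 585) (C.node (nat_lit 0) (nat_lit 4) (nat_lit 6) (C.cons (nat_lit 337) (C.node (nat_lit 0) (nat_lit 6) (nat_lit 7) C.nil) C.nil)) C.nil)) C.nil)))) C.nil)))) (List.cons (C.node (nat_lit 0) (nat_lit 2) (nat_lit 6) (C.cons (nat_lit 325) (C.ref (nat_lit 118) (nat_lit 654804529680)) (C.cons (nat_lit 69) (C.node (nat_lit 0) (nat_lit 2) (nat_lit 8) (C.cons (nat_lit 261) (C.ref (nat_lit 123) (nat_lit 654820258320)) C.nil)) C.nil))) (List.cons (C.node (nat_lit 0) (nat_lit 2) (nat_lit 4) (C.cons (nat_lit 277) (C.node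 (nat_lit 0) (nat_lit 2) (nat_lit 6) (C.cons (nat_lit 69) (C.ref (nat_lit 121) (nat_lit 654820258320)) C.nil)) (C.cons (nat_lit 85) (C.node (nat_lit 0) (nat_lit 2) (nat_lit 8) (C.cons (nat_lit 261) (C.ref (nat_lit 118) (nat_lit 650288382480)) C.nil)) (C.cons (nat_lit 21) (C.ref (nat_lit 124) (nat_lit 654820258320)) C.nil)))) (List.cons (C.node (nat_lit 0) (nat_lit 2) (nat_lit 5) (C.cons (nat_lit 293) (C.ref (nat_lit 119) (nat_lit 654820258320)) (C.cons (nat_lit 53) (C.ref (nat_lit 119) (nat_lit 650020012560)) (C.cons (nat_lit 37) (C.ref (nat_lit 125) (nat_lit 654820258320)) C.nil)))) (List.cons (C.node (nat_lit 0) (nat_lit 3) (nat_lit 4) (C.cons (nat_lit 537) (C.node (nat_lit 0) (nat_lit 3) (nat_lit 5) (C.cons (nat_lit 169) (C.node (nat_lit 0) (nat_lit 3) (nat_lit 6) C.nil) C.nil)) (C.cons (nat_lit 89) (C.node (nat_lit 0) (nat_lit 3) (nat_lit 5) (C.cons (nat_lit 553) (C.node (nat_lit 0) (nat_lit 3) (nat_lit 7) C.nil)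 (C.cons (nat_lit 169) (C.node (nat_lit 0) (nat_lit 3) (nat_lit 9) C.nil) C.nil))) (C.cons (nat_lit 57) (C.node (nat_lit 0) (nat_lit 3) (nat_lit 6) (C.cons (nat_lit 585) (C.node (nat_lit 0) (nat_lit 3) (nat_lit 7) C.nil) (C.cons (nat_lit 201) (C.node (nat_lit 0) (nat_lit 3) (nat_lit 9) C.nil) C.nil))) C.nil)))) (List.cons (C.node (nat_lit 0) (nat_lit 3) (nat_lit 5) (C.cons (nat_lit 553) (C.node (nat_lit 0) (nat_lit 4) (nat_lit 5) (C.cons (nat_lit 49) (C.node (nat_lit 0) (nat_lit 4) (nat_lit 9) (C.cons (nat_lit 529) (C.ref (nat_lit 113) (nat_lit 582341697840)) C.nil)) C.nil)) (C.cons (nat_lit 41) (C.node (nat_lit 0) (nat_lit 3) (nat_lit 9) (C.cons (nat_lit 521) (C.node (nat_lit 0) (nat_lit 4) (nat_lit 5) (C.cons (nat_lit 561) (C.ref (nat_lit 113) (nat_lit 582340645440)) C.nil)) C.nil)) C.nil))) (List.cons (C.node (nat_lit 0) (nat_lit 4) (nat_lit 5) (C.cons (nat_lit 561) (C.node (nat_lit 0) (nat_lit 4) (nat_lit 8) C.nil)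 (C.cons (nat_lit 305) (C.node (nat_lit 0) (nat_lit 4) (nat_lit 9) C.nil) C.nil))) (List.cons (C.node (nat_lit 0) (nat_lit 3) (nat_lit 4) (C.cons (nat_lit 537) (C.node (nat_lit 0) (nat_lit 3) (nat_lit 5) (C.cons (nat_lit 105) (C.ref (nat_lit 114) (nat_lit 521437266480)) (C.cons (nat_lit 41) (C.node (nat_lit 0) (nat_lit 3) (nat_lit 6) (C.cons (nat_lit 73) (C.node (nat_lit 0) (nat_lit 4) (nat_lit 5)
  (C.cons (nat_lit 305) (C.ref (nat_lit 113) (nat_lit 650790638400)) C.nil)) C.nil)) C.nil))) (C.cons (nat_lit 57) (C.node (nat_lit 0) (nat_lit 3) (nat_lit 6) (C.cons (nat_lit 585) (C.node (nat_lit 0) (nat_lit 8) (nat_lit 4) (C.cons (nat_lit 785) (C.ref (nat_lit 110) (nat_lit 582324986160)) (C.cons (nat_lit 273) (C.node (nat_lit 0) (nat_lit 4) (nat_lit 9) (C.cons (nat_lit 529) (C.ref (nat_lit 111) (nat_lit 520900403760)) C.nil)) C.nil))) (C.cons (nat_lit 73) (C.node (nat_lit 0) (nat_lit 3) (nat_lit 9) (C.cons (nat_lit 521)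 (C.node (nat_lit 0) (nat_lit 4) (nat_lit 8) (C.cons (nat_lit 785) (C.ref (nat_lit 111) (nat_lit 520599470400)) C.nil)) C.nil)) C.nil))) (C.cons (nat_lit 25) (C.node (nat_lit 0) (nat_lit 3) (nat_lit 5) (C.cons (nat_lit 553) (C.node (nat_lit 0) (nat_lit 3) (nat_lit 6) (C.cons (nat_lit 73) (C.node (nat_lit 0) (nat_lit 4) (nat_lit 5) (C.cons (nat_lit 305) (C.node (nat_lit 0) (nat_lit 4) (nat_lit 9) C.nil) C.nil)) C.nil)) (C.cons (nat_lit 105) (C.node (nat_lit 0) (nat_lit 3) (nat_lit 9) (C.cons (nat_lit 521) (C.ref (nat_lit 129) (nat_lit 654820258320)) C.nil)) (C.cons (nat_lit 41) (C.node (nat_lit 0) (nat_lit 3) (nat_lit 6) (C.cons (nat_lit 585) (C.node (nat_lit 0) (nat_lit 4) (nat_lit 5) (C.cons (nat_lit 561) (C.node (nat_lit 0) (nat_lit 4) (nat_lit 8) C.nil) (C.cons (nat_lit 305) (C.node (nat_lit 0) (nat_lit 4) (nat_lit 9) C.nil) C.nil))) C.nil)) C.nil)))) C.nil)))) (List.cons (C.node (nat_lit 0) (nat_lit 2) (nat_lit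 5) (C.cons (nat_lit 293) (C.ref (nat_lit 118) (nat_lit 650792743200)) (C.cons (nat_lit 37) (C.node (nat_lit 0) (nat_lit 2) (nat_lit 8) (C.cons (nat_lit 261) (C.ref (nat_lit 130) (nat_lit 654820258320)) C.nil)) C.nil))) (List.cons (C.node (nat_lit 0) (nat_lit 3) (nat_lit 5) (C.cons (nat_lit 553) (C.node (nat_lit 0) (nat_lit 3) (nat_lit 4) (C.cons (nat_lit 89) (C.ref (nat_lit 116) (nat_lit 521437205040)) (C.cons (nat_lit 25) (C.node (nat_lit 0) (nat_lit 3) (nat_lit 6) (C.cons (nat_lit 73) (C.node (nat_lit 0) (nat_lit 5) (nat_lit 4) (C.cons (nat_lit 305) (C.node (nat_lit 0) (nat_lit 5) (nat_lit 7) C.nil) C.nil)) C.nil)) C.nil))) (C.cons (nat_lit 57) (C.node (nat_lit 0) (nat_lit 3) (nat_lit 6) (C.cons (nat_lit 585) (C.ref (nat_lit 116) (nat_lit 521168773680)) (C.cons (nat_lit 73) (C.node (nat_lit 0) (nat_lit 3) (nat_lit 9) (C.cons (nat_lit 521) (C.ref (nat_lit 129) (nat_lit 590380016400)) C.nil)) C.nil))) (C.cons (nat_lit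 41) (C.node (nat_lit 0) (nat_lit 3) (nat_lit 4) (C.cons (nat_lit 537) (C.node (nat_lit 0) (nat_lit 3) (nat_lit 6) (C.cons (nat_lit 73) (C.node (nat_lit 0) (nat_lit 4) (nat_lit 5) (C.cons (nat_lit 305) (C.node (nat_lit 0) (nat_lit 4) (nat_lit 6) C.nil) C.nil)) C.nil)) (C.cons (nat_lit 89) (C.node (nat_lit 0) (nat_lit 3) (nat_lit 9) (C.cons (nat_lit 521) (C.ref (nat_lit 129) (nat_lit 590395745040)) C.nil)) (C.cons (nat_lit 25) (C.node (nat_lit 0) (nat_lit 3) (nat_lit 6) (C.cons (nat_lit 585) (C.node (nat_lit 0) (nat_lit 6) (nat_lit 4) (C.cons (nat_lit 337) (C.node (nat_lit 0) (nat_lit 6) (nat_lit 7) C.nil) C.nil)) C.nil)) C.nil)))) C.nil)))) (List.cons (C.node (nat_lit 0) (nat_lit 3) (nat_lit 4) (C.cons (nat_lit 537) (C.node (nat_lit 0) (nat_lit 3) (nat_lit 5) (C.cons (nat_lit 105) (C.node (nat_lit 0) (nat_lit 4) (nat_lit 5) (C.cons (nat_lit 305) (C.node (nat_lit 0) (nat_lit 4) (nat_lit 6) C.nil) C.nil)) C.nil)) (C.cons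 (nat_lit 89) (C.node (nat_lit 0) (nat_lit 3) (nat_lit 5) (C.cons (nat_lit 553) (C.node (nat_lit 0) (nat_lit 5) (nat_lit 4) (C.cons (nat_lit 305) (C.node (nat_lit 0) (nat_lit 4) (nat_lit 9) C.nil) C.nil)) C.nil)) (C.cons (nat_lit 57) (C.node (nat_lit 0) (nat_lit 3) (nat_lit 6) (C.cons (nat_lit 585) (C.node (nat_lit 0) (nat_lit 6) (nat_lit 4) (C.cons (nat_lit 337) (C.node (nat_lit 0) (nat_lit 4) (nat_lit 9) C.nil) C.nil)) C.nil)) C.nil)))) (List.cons (C.node (nat_lit 0) (nat_lit 2) (nat_lit 5) (C.cons (nat_lit 293) (C.node (nat_lit 0) (nat_lit 2) (nat_lit 6) (C.cons (nat_lit 69) (C.ref (nat_lit 130) (nat_lit 636551197200)) C.nil)) (C.cons (nat_lit 101)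
  (C.node (nat_lit 0) (nat_lit 2) (nat_lit 8) (C.cons (nat_lit 261) (C.ref (nat_lit 132) (nat_lit 654820258320)) C.nil)) (C.cons (nat_lit 37) (C.node (nat_lit 0) (nat_lit 2) (nat_lit 6) (C.cons (nat_lit 325) (C.ref (nat_lit 130) (nat_lit 636566925840)) (C.cons (nat_lit 69) (C.node (nat_lit 0) (nat_lit 2) (nat_lit 8) (C.cons (nat_lit 261) (C.ref (nat_lit 133) (nat_lit 654820258320)) C.nil)) C.nil))) C.nil)))) (List.cons (C.node (nat_lit 0) (nat_lit 2) (nat_lit 4) (C.cons (nat_lit 277) (C.node (nat_lit 0) (nat_lit 2) (nat_lit 5) (C.cons (nat_lit 101) (C.ref (nat_lit 121) (nat_lit 650793726240)) (C.cons (nat_lit 37) (C.node (nat_lit 0) (nat_lit 2) (nat_lit 6) (C.cons (nat_lit 69) (C.node (nat_lit 0) (nat_lit 3) (nat_lit 4) (C.cons (nat_lit 537) (C.node (nat_lit 0) (nat_lit 3) (nat_lit 5) (C.cons (nat_lit 105) (C.node (nat_lit 0) (nat_lit 4) (nat_lit 5) (C.cons (nat_lit 49) (C.node (nat_lit 0) (nat_lit 4) (nat_lit 6)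 (C.cons (nat_lit 81) (C.node (nat_lit 0) (nat_lit 5) (nat_lit 9) (C.cons (nat_lit 801) (C.node (nat_lit 0) (nat_lit 5) (nat_lit 7) C.nil) (C.cons (nat_lit 673) (C.node (nat_lit 0) (nat_lit 5) (nat_lit 8) C.nil) C.nil))) C.nil)) C.nil)) (C.cons (nat_lit 41) (C.node (nat_lit 0) (nat_lit 3) (nat_lit 6) (C.cons (nat_lit 73) (C.node (nat_lit 0) (nat_lit 4) (nat_lit 5) (C.cons (nat_lit 113) (C.node (nat_lit 0) (nat_lit 5) (nat_lit 7) (C.cons (nat_lit 673) (C.node (nat_lit 0) (nat_lit 5) (nat_lit 8) C.nil) (C.cons (nat_lit 417) (C.node (nat_lit 0) (nat_lit 5) (nat_lit 9) C.nil) C.nil))) C.nil)) C.nil)) C.nil))) (C.cons (nat_lit 89) (C.ref (nat_lit 128) (nat_lit 654820258320)) (C.cons (nat_lit 57) (C.ref (nat_lit 128) (nat_lit 654804529680)) (C.cons (nat_lit 25) (C.node (nat_lit 0) (nat_lit 3) (nat_lit 5) (C.cons (nat_lit 553) (C.node (nat_lit 0) (nat_lit 3) (nat_lit 6) (C.cons (nat_lit 73) (C.node (nat_lit 0) (nat_lit 4)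 (nat_lit 5) (C.cons (nat_lit 113) (C.node (nat_lit 0) (nat_lit 4) (nat_lit 9) C.nil) C.nil)) C.nil)) (C.cons (nat_lit 105) (C.node (nat_lit 0) (nat_lit 3) (nat_lit 9) (C.cons (nat_lit 521) (C.node (nat_lit 0) (nat_lit 4) (nat_lit 5) (C.cons (nat_lit 561) (C.node (nat_lit 0) (nat_lit 4) (nat_lit 6) C.nil) C.nil)) C.nil)) (C.cons (nat_lit 41) (C.node (nat_lit 0) (nat_lit 3) (nat_lit 6) (C.cons (nat_lit 585) (C.node (nat_lit 0) (nat_lit 4) (nat_lit 6) (C.cons (nat_lit 113) (C.node (nat_lit 0) (nat_lit 4) (nat_lit 9) C.nil) C.nil)) C.nil)) C.nil)))) C.nil))))) C.nil)) C.nil))) (C.cons (nat_lit 85) (C.ref (nat_lit 131) (nat_lit 654820258320)) (C.cons (nat_lit 53) (C.ref (nat_lit 131) (nat_lit 654804529680)) (C.cons (nat_lit 21) (C.ref (nat_lit 134) (nat_lit 654820258320)) C.nil))))) (List.cons (C.node (nat_lit 0) (nat_lit 3) (nat_lit 4) (C.cons (nat_lit 537) (C.node (nat_lit 0) (nat_lit 3) (nat_lit 5) (C.cons (nat_lit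 169) (C.ref (nat_lit 115) (nat_lit 590392672560)) (C.cons (nat_lit 41) (C.node (nat_lit 0) (nat_lit 3) (nat_lit 7) (C.cons (nat_lit 137) (C.node (nat_lit 0) (nat_lit 4) (nat_lit 6) (C.cons (nat_lit 337) (C.ref (nat_lit 111) (nat_lit 653490742080)) C.nil)) C.nil)) C.nil))) (C.cons (nat_lit 25) (C.node (nat_lit 0) (nat_lit 3) (nat_lit 5) (C.cons (nat_lit 553) (C.node (nat_lit 0) (nat_lit 3) (nat_lit 7) (C.cons (nat_lit 137) (C.ref (nat_lit 129) (nat_lit 449167299120)) C.nil)) (C.cons (nat_lit 169) (C.node (nat_lit 0) (nat_lit 3) (nat_lit 9) (C.cons (nat_lit 521) (C.node (nat_lit 0) (nat_lit 4) (nat_lit 6) (C.cons (nat_lit 593) (C.node (nat_lit 0) (nat_lit 4) (nat_lit 8) C.nil) (C.cons (nat_lit 337) (C.node (nat_lit 0) (nat_lit 4) (nat_lit 9) C.nil) C.nil))) C.nil)) (C.cons (nat_lit 41) (C.node (nat_lit 0) (nat_lit 3) (nat_lit 7) (C.cons (nat_lit 649) (C.ref (nat_lit 129) (nat_lit 578014355760)) C.nil)) C.nil)))) C.nil)))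 (List.cons (C.node (nat_lit 0) (nat_lit 3) (nat_lit 4) (C.cons (nat_lit 537) (C.node (nat_lit 0) (nat_lit 3) (nat_lit 5) (C.cons (nat_lit 169) (C.ref (nat_lit 117) (nat_lit 590392672560)) C.nil)) (C.cons (nat_lit 57) (C.node (nat_lit 0) (nat_lit 3) (nat_lit 7) (C.cons (nat_lit 649)
  (C.ref (nat_lit 117) (nat_lit 589587378480)) C.nil)) C.nil))) (List.cons (C.node (nat_lit 0) (nat_lit 2) (nat_lit 5) (C.cons (nat_lit 293) (C.node (nat_lit 0) (nat_lit 2) (nat_lit 7) (C.cons (nat_lit 133) (C.ref (nat_lit 132) (nat_lit 646514553120)) C.nil)) (C.cons (nat_lit 165) (C.node (nat_lit 0) (nat_lit 2) (nat_lit 8) (C.cons (nat_lit 261) (C.ref (nat_lit 136) (nat_lit 654015148560)) C.nil)) (C.cons (nat_lit 37) (C.node (nat_lit 0) (nat_lit 2) (nat_lit 7) (C.cons (nat_lit 389) (C.ref (nat_lit 130) (nat_lit 646465401120)) (C.cons (nat_lit 133) (C.node (nat_lit 0) (nat_lit 2) (nat_lit 8) (C.cons (nat_lit 261) (C.ref (nat_lit 137) (nat_lit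 654820258320)) C.nil)) C.nil))) C.nil)))) (List.cons (C.node (nat_lit 0) (nat_lit 2) (nat_lit 4) (C.cons (nat_lit 277) (C.ref (nat_lit 131) (nat_lit 650793665040)) (C.cons (nat_lit 53) (C.node (nat_lit 0) (nat_lit 2) (nat_lit 7) (C.cons (nat_lit 389) (C.ref (nat_lit 118) (nat_lit 654012936480)) (C.cons (nat_lit 133) (C.node (nat_lit 0) (nat_lit 2) (nat_lit 8) (C.cons (nat_lit 261) (C.ref (nat_lit 136) (nat_lit 654820258320)) C.nil)) C.nil))) (C.cons (nat_lit 21) (C.ref (nat_lit 138) (nat_lit 654820258320)) C.nil)))) (List.cons (C.node (nat_lit 0) (nat_lit 3) (nat_lit 4) (C.cons (nat_lit 537) (C.node (nat_lit 0) (nat_lit 3) (nat_lit 5) (C.cons (nat_lit 169) (C.node (nat_lit 0) (nat_lit 3) (nat_lit 6) C.nil) C.nil)) (C.cons (nat_lit 89) (C.node (nat_lit 0) (nat_lit 3) (nat_lit 5) (C.cons (nat_lit 553) (C.node (nat_lit 0) (nat_lit 3) (nat_lit 7) C.nil) (C.cons (nat_lit 169) (C.node (nat_lit 0) (nat_lit 3) (nat_lit 9)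 C.nil) C.nil))) (C.cons (nat_lit 57) (C.node (nat_lit 0) (nat_lit 3) (nat_lit 6) (C.cons (nat_lit 585) (C.node (nat_lit 0) (nat_lit 3) (nat_lit 7) C.nil) (C.cons (nat_lit 201) (C.node (nat_lit 0) (nat_lit 3) (nat_lit 9) C.nil) C.nil))) C.nil)))) (List.cons (C.node (nat_lit 0) (nat_lit 2) (nat_lit 3) (C.cons (nat_lit 141) (C.ref (nat_lit 135) (nat_lit 654820258320)) (C.cons (nat_lit 77) (C.ref (nat_lit 139) (nat_lit 654820258320)) (C.cons (nat_lit 45) (C.ref (nat_lit 139) (nat_lit 654804529680)) (C.cons (nat_lit 29) (C.ref (nat_lit 135) (nat_lit 654015148560)) (C.cons (nat_lit 13) (C.node (nat_lit 0) (nat_lit 2) (nat_lit 4) (C.cons (nat_lit 277) (C.ref (nat_lit 134) (nat_lit 650793665040)) (C.cons (nat_lit 85) (C.ref (nat_lit 138) (nat_lit 650793665040)) (C.cons (nat_lit 53) (C.ref (nat_lit 138) (nat_lit 650777936400)) (C.cons (nat_lit 21) (C.node (nat_lit 0) (nat_lit 2) (nat_lit 5) (C.cons (nat_lit 293) (C.node (nat_lit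 0) (nat_lit 2) (nat_lit 6) (C.cons (nat_lit 197) (C.ref (nat_lit 136) (nat_lit 645658079520)) (C.cons (nat_lit 69) (C.node (nat_lit 0) (nat_lit 2) (nat_lit 7) (C.cons (nat_lit 133) (C.ref (nat_lit 137) (nat_lit 633329713680)) C.nil)) C.nil))) (C.cons (nat_lit 165) (C.node (nat_lit 0) (nat_lit 2) (nat_lit 6) (C.cons (nat_lit 325) (C.ref (nat_lit 136) (nat_lit 645642289440)) (C.cons (nat_lit 69) (C.node (nat_lit 0) (nat_lit 2) (nat_lit 8) (C.cons (nat_lit 261) (C.ref (nat_lit 137) (nat_lit 637893046800)) C.nil)) C.nil))) (C.cons (nat_lit 101) (C.node (nat_lit 0) (nat_lit 2) (nat_lit 7) (C.cons (nat_lit 389) (C.ref (nat_lit 132) (nat_lit 637908775440)) (C.cons (nat_lit 133) (C.node (nat_lit 0) (nat_lit 2) (nat_lit 8) (C.cons (nat_lit 261) (C.ref (nat_lit 140) (nat_lit 654820258320)) C.nil)) C.nil))) (C.cons (nat_lit 37) (C.node (nat_lit 0) (nat_lit 2) (nat_lit 6) (C.cons (nat_lit 325) (C.node (nat_lit 0) (nat_lit 2)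 (nat_lit 7) (C.cons (nat_lit 133) (C.ref (nat_lit 137) (nat_lit 633345442320)) C.nil)) (C.cons (nat_lit 197) (C.node (nat_lit 0) (nat_lit 2) (nat_lit 8) (C.cons (nat_lit 261) (C.ref (nat_lit 137) (nat_lit 637908775440)) C.nil)) (C.cons (nat_lit 69) (C.node (nat_lit 0) (nat_lit 2) (nat_lit 7) (C.cons (nat_lit 389) (C.ref (nat_lit 133) (nat_lit 637908775440)) C.nil)) C.nil)))) C.nil))))) C.nil))))) C.nil)))))) (List.cons (C.node (nat_lit 0) (nat_lit 1) (nat_lit 5) (C.cons (nat_lit 99) (C.node (nat_lit 0) (nat_lit 2) (nat_lit 3) (C.cons (nat_lit 141)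
  (C.ref (nat_lit 126) (nat_lit 654820258320)) (C.cons (nat_lit 77) (C.ref (nat_lit 126) (nat_lit 654567617040)) (C.cons (nat_lit 45) (C.ref (nat_lit 126) (nat_lit 654299247120)) (C.cons (nat_lit 29) (C.ref (nat_lit 126) (nat_lit 654015148560)) (C.cons (nat_lit 13) (C.node (nat_lit 0) (nat_lit 2) (nat_lit 4) (C.cons (nat_lit 277) (C.node (nat_lit 0) (nat_lit 2) (nat_lit 5) (C.cons (nat_lit 165) (C.node (nat_lit 0) (nat_lit 2) (nat_lit 6) (C.cons (nat_lit 69) (C.ref (nat_lit 118) (nat_lit 650793665040)) C.nil)) (C.cons (nat_lit 37) (C.ref (nat_lit 124) (nat_lit 650793665040)) C.nil))) (C.cons (nat_lit 85) (C.ref (nat_lit 125) (nat_lit 650288382480)) (C.cons (nat_lit 53) (C.ref (nat_lit 125) (nat_lit 650020012560)) (C.cons (nat_lit 21) (C.node (nat_lit 0) (nat_lit 2) (nat_lit 5) (C.cons (nat_lit 293) (C.ref (nat_lit 124) (nat_lit 646514430480)) (C.cons (nat_lit 165) (C.ref (nat_lit 124) (nat_lit 646261789200)) (C.cons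 (nat_lit 37) (C.node (nat_lit 0) (nat_lit 2) (nat_lit 6) (C.cons (nat_lit 325) (C.node (nat_lit 0) (nat_lit 2) (nat_lit 7) (C.cons (nat_lit 133) (C.ref (nat_lit 123) (nat_lit 642219467280)) C.nil)) (C.cons (nat_lit 197) (C.node (nat_lit 0) (nat_lit 2) (nat_lit 8) (C.cons (nat_lit 261) (C.ref (nat_lit 123) (nat_lit 641966826000)) C.nil)) (C.cons (nat_lit 69) (C.node (nat_lit 0) (nat_lit 2) (nat_lit 7) (C.cons (nat_lit 389) (C.ref (nat_lit 123) (nat_lit 637908775440)) (C.cons (nat_lit 133) (C.node (nat_lit 0) (nat_lit 2) (nat_lit 8) (C.cons (nat_lit 261) (C.ref (nat_lit 127) (nat_lit 654820258320)) C.nil)) C.nil))) C.nil)))) C.nil)))) C.nil))))) C.nil)))))) (C.cons (nat_lit 35) (C.node (nat_lit 0) (nat_lit 1) (nat_lit 6) (C.cons (nat_lit 67) (C.ref (nat_lit 141) (nat_lit 654820258320)) C.nil)) C.nil))) (List.cons (C.node (nat_lit 0) (nat_lit 2) (nat_lit 4) (C.cons (nat_lit 277) (C.node (nat_lit 0) (nat_lit 2) (nat_lit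 5) (C.cons (nat_lit 101) (C.ref (nat_lit 123) (nat_lit 650793726240)) (C.cons (nat_lit 37) (C.node (nat_lit 0) (nat_lit 2) (nat_lit 6) (C.cons (nat_lit 69) (C.ref (nat_lit 133) (nat_lit 650793726240)) C.nil)) C.nil))) (C.cons (nat_lit 85) (C.node (nat_lit 0) (nat_lit 2) (nat_lit 5) (C.cons (nat_lit 293) (C.ref (nat_lit 123) (nat_lit 650792743200)) (C.cons (nat_lit 37) (C.node (nat_lit 0) (nat_lit 2) (nat_lit 8) (C.cons (nat_lit 261) (C.ref (nat_lit 137) (nat_lit 650290409760)) C.nil)) C.nil))) (C.cons (nat_lit 53) (C.node (nat_lit 0) (nat_lit 2) (nat_lit 6) (C.cons (nat_lit 325) (C.ref (nat_lit 123) (nat_lit 650776031520)) (C.cons (nat_lit 69) (C.node (nat_lit 0) (nat_lit 2) (nat_lit 8) (C.cons (nat_lit 261) (C.ref (nat_lit 137) (nat_lit 650023022880)) C.nil)) C.nil))) (C.cons (nat_lit 21) (C.node (nat_lit 0) (nat_lit 2) (nat_lit 5) (C.cons (nat_lit 293) (C.node (nat_lit 0) (nat_lit 2) (nat_lit 6) (C.cons (nat_lit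 69) (C.ref (nat_lit 133) (nat_lit 650792743200)) C.nil)) (C.cons (nat_lit 101) (C.node (nat_lit 0) (nat_lit 2) (nat_lit 8) (C.cons (nat_lit 261) (C.ref (nat_lit 137) (nat_lit 650289426720)) C.nil)) (C.cons (nat_lit 37) (C.node (nat_lit 0) (nat_lit 2) (nat_lit 6) (C.cons (nat_lit 325) (C.ref (nat_lit 133) (nat_lit 650776031520)) C.nil)) C.nil)))) C.nil))))) (List.cons (C.node (nat_lit 0) (nat_lit 2) (nat_lit 5) (C.cons (nat_lit 293) (C.node (nat_lit 0) (nat_lit 2) (nat_lit 6) (C.cons (nat_lit 69) (C.ref (nat_lit 137) (nat_lit 641886093600)) C.nil)) (C.cons (nat_lit 101) (C.node (nat_lit 0) (nat_lit 2) (nat_lit 8) (C.cons (nat_lit 261) (C.ref (nat_lit 140) (nat_lit 650288382240)) C.nil)) (C.cons (nat_lit 37) (C.node (nat_lit 0) (nat_lit 2) (nat_lit 6) (C.cons (nat_lit 325) (C.ref (nat_lit 137) (nat_lit 646180012320)) C.nil)) C.nil)))) (List.cons (C.node (nat_lit 0) (nat_lit 2) (nat_lit 3) (C.cons (nat_lit 141) (C.ref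 (nat_lit 143) (nat_lit 654820258320)) (C.cons (nat_lit 77) (C.ref (nat_lit 143) (nat_lit 654568600080)) (C.cons (nat_lit 45) (C.ref (nat_lit 143) (nat_lit 654301213200)) (C.cons (nat_lit 29) (C.ref (nat_lit 143) (nat_lit 654032843280)) (C.cons (nat_lit 13)
  (C.node (nat_lit 0) (nat_lit 2) (nat_lit 4) (C.cons (nat_lit 277) (C.node (nat_lit 0) (nat_lit 2) (nat_lit 5) (C.cons (nat_lit 165) (C.node (nat_lit 0) (nat_lit 2) (nat_lit 6) (C.cons (nat_lit 69) (C.ref (nat_lit 137) (nat_lit 637591191840)) C.nil)) (C.cons (nat_lit 101) (C.node (nat_lit 0) (nat_lit 2) (nat_lit 7) (C.cons (nat_lit 133) (C.ref (nat_lit 137) (nat_lit 637323804960)) C.nil)) (C.cons (nat_lit 37) (C.node (nat_lit 0) (nat_lit 2) (nat_lit 6) (C.cons (nat_lit 197) (C.ref (nat_lit 137) (nat_lit 637590208800)) C.nil)) C.nil)))) (C.cons (nat_lit 149) (C.ref (nat_lit 144) (nat_lit 654820258320)) (C.cons (nat_lit 85) (C.ref (nat_lit 144) (nat_lit 654568600080))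 (C.cons (nat_lit 53) (C.ref (nat_lit 144) (nat_lit 654301213200)) (C.cons (nat_lit 21) (C.node (nat_lit 0) (nat_lit 2) (nat_lit 5) (C.cons (nat_lit 293) (C.node (nat_lit 0) (nat_lit 2) (nat_lit 6) (C.cons (nat_lit 197) (C.ref (nat_lit 137) (nat_lit 641884127520)) C.nil)) (C.cons (nat_lit 165) (C.node (nat_lit 0) (nat_lit 2) (nat_lit 6) (C.cons (nat_lit 325) (C.ref (nat_lit 137) (nat_lit 646179029280)) C.nil)) (C.cons (nat_lit 101) (C.node (nat_lit 0) (nat_lit 2) (nat_lit 7) (C.cons (nat_lit 389) (C.ref (nat_lit 137) (nat_lit 650205561120)) C.nil)) C.nil)))) C.nil)))))) C.nil)))))) (List.cons (C.node (nat_lit 0) (nat_lit 1) (nat_lit 6) (C.cons (nat_lit 195) (C.ref (nat_lit 141) (nat_lit 654802563600)) (C.cons (nat_lit 67) (C.node (nat_lit 0) (nat_lit 1) (nat_lit 7) (C.cons (nat_lit 131) (C.ref (nat_lit 145) (nat_lit 654820258320)) C.nil)) C.nil))) (List.cons (C.node (nat_lit 0) (nat_lit 1) (nat_lit 5) (C.cons (nat_lit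 163) (C.node (nat_lit 0) (nat_lit 1) (nat_lit 6) (C.cons (nat_lit 67) (C.ref (nat_lit 141) (nat_lit 654819275280)) C.nil)) (C.cons (nat_lit 99) (C.node (nat_lit 0) (nat_lit 1) (nat_lit 7) (C.cons (nat_lit 131) (C.ref (nat_lit 141) (nat_lit 654567617040)) C.nil)) (C.cons (nat_lit 35) (C.ref (nat_lit 146) (nat_lit 654820258320)) C.nil)))) (List.cons (C.node (nat_lit 0) (nat_lit 1) (nat_lit 4) (C.cons (nat_lit 147) (C.ref (nat_lit 142) (nat_lit 654820258320)) (C.cons (nat_lit 83) (C.ref (nat_lit 142) (nat_lit 654568600080)) (C.cons (nat_lit 51) (C.ref (nat_lit 142) (nat_lit 654301213200)) (C.cons (nat_lit 19) (C.ref (nat_lit 147) (nat_lit 654820258320)) C.nil))))) (List.cons (C.node (nat_lit 0) (nat_lit 2) (nat_lit 4) (C.cons (nat_lit 149) (C.node (nat_lit 0) (nat_lit 2) (nat_lit 5) (C.cons (nat_lit 101) (C.ref (nat_lit 127) (nat_lit 654820258080)) C.nil)) (C.cons (nat_lit 85) (C.node (nat_lit 0) (nat_lit 2) (nat_lit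 5) (C.cons (nat_lit 165) (C.ref (nat_lit 127) (nat_lit 654568599840)) C.nil)) (C.cons (nat_lit 53) (C.node (nat_lit 0) (nat_lit 2) (nat_lit 6) (C.cons (nat_lit 197) (C.ref (nat_lit 127) (nat_lit 654301212960)) C.nil)) C.nil)))) (List.cons (C.node (nat_lit 0) (nat_lit 2) (nat_lit 3) (C.cons (nat_lit 269) (C.ref (nat_lit 149) (nat_lit 654820258320)) (C.cons (nat_lit 141) (C.ref (nat_lit 149) (nat_lit 650793726480)) (C.cons (nat_lit 77) (C.ref (nat_lit 149) (nat_lit 646515536400)) (C.cons (nat_lit 45) (C.ref (nat_lit 149) (nat_lit 642221617680)) (C.cons (nat_lit 29) (C.ref (nat_lit 149) (nat_lit 637926715920)) C.nil)))))) (List.cons (C.node (nat_lit 0) (nat_lit 1) (nat_lit 7) (C.cons (nat_lit 387) (C.ref (nat_lit 145) (nat_lit 654533947920)) (C.cons (nat_lit 131) (C.node (nat_lit 0) (nat_lit 1) (nat_lit 8) (C.cons (nat_lit 259) (C.ref (nat_lit 150) (nat_lit 654820258320)) C.nil)) C.nil))) List.nil)))))))))))))))))))))))))))))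

theorem ok10_123 : okL par10 (nat_lit 152) c10_123 (nat_lit 123) = true := by decide +kernel

noncomputable def c10_152 : List C :=
  (List.cons (C.node (nat_lit 0) (nat_lit 1) (nat_lit 6) (C.cons (nat_lit 323) (C.node (nat_lit 0) (nat_lit 1) (nat_lit 7) (C.cons (nat_lit 131) (C.ref (nat_lit 145) (nat_lit 654802379280)) C.nil)) (C.cons (nat_lit 195) (C.node (nat_lit 0) (nat_lit 1) (nat_lit 8) (C.cons (nat_lit 259) (C.ref (nat_lit 145) (nat_lit 650775847440)) C.nil)) (C.cons (nat_lit 67) (C.ref (nat_lit 151) (nat_lit 654820258320)) C.nil)))) (List.cons (C.node (nat_lit 0) (nat_lit 1) (nat_lit 5) (C.cons (nat_lit 291) (C.ref (nat_lit 146) (nat_lit 654819152400)) (C.cons (nat_lit 163) (C.ref (nat_lit 146) (nat_lit 650792620560)) (C.cons (nat_lit 99) (C.ref (nat_lit 146) (nat_lit 646514430480)) (C.cons (nat_lit 35) (C.ref (nat_lit 152) (nat_lit 654820258320)) C.nil))))) (List.cons (C.node (nat_lit 0) (nat_lit 1) (nat_lit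 4) (C.cons (nat_lit 275) (C.ref (nat_lit 147) (nat_lit 654820196880)) (C.cons (nat_lit 147) (C.ref (nat_lit 147) (nat_lit 650793665040)) (C.cons (nat_lit 83) (C.ref (nat_lit 147) (nat_lit 646515474960)) (C.cons (nat_lit 51) (C.ref (nat_lit 147) (nat_lit 642221556240)) (C.cons (nat_lit 19) (C.ref (nat_lit 153) (nat_lit 654820258320)) C.nil)))))) (List.cons (C.node (nat_lit 0) (nat_lit 1) (nat_lit 3) (C.cons (nat_lit 267) (C.ref (nat_lit 148) (nat_lit 654820258320)) (C.cons (nat_lit 139) (C.ref (nat_lit 148) (nat_lit 650793726480)) (C.cons (nat_lit 75) (C.ref (nat_lit 148) (nat_lit 646515536400)) (C.cons (nat_lit 43) (C.ref (nat_lit 148) (nat_lit 642221617680)) (C.cons (nat_lit 27) (C.ref (nat_lit 148) (nat_lit 637926715920)) (C.cons (nat_lit 11) (C.ref (nat_lit 154) (nat_lit 654820258320)) C.nil))))))) (List.cons (C.big (C.cons (nat_lit 993) (C.ref (nat_lit 32) (nat_lit 654820258320)) (C.cons (nat_lit 977) (C.ref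 (nat_lit 32) (nat_lit 654819275280)) (C.cons (nat_lit 969) (C.ref (nat_lit 32) (nat_lit 654818230800)) (C.cons (nat_lit 965) (C.ref (nat_lit 32) (nat_lit 654817182480)) (C.cons (nat_lit 963) (C.ref (nat_lit 32) (nat_lit 654816133920)) (C.cons (nat_lit 945) (C.ref (nat_lit 32) (nat_lit 654802563600)) (C.cons (nat_lit 937) (C.ref (nat_lit 32) (nat_lit 654801519120)) (C.cons (nat_lit 933) (C.ref (nat_lit 32) (nat_lit 654800470800)) (C.cons (nat_lit 931) (C.ref (nat_lit 32) (nat_lit 654799422240)) (C.cons (nat_lit 921) (C.ref (nat_lit 32) (nat_lit 654784746000)) (C.cons (nat_lit 917) (C.ref (nat_lit 32) (nat_lit 654783697680)) (C.cons (nat_lit 915) (C.ref (nat_lit 32) (nat_lit 654782649120)) (C.cons (nat_lit 909) (C.ref (nat_lit 32) (nat_lit 654766920720)) (C.cons (nat_lit 907) (C.ref (nat_lit 32) (nat_lit 654765872160)) (C.cons (nat_lit 903) (C.ref (nat_lit 32) (nat_lit 654749094960)) (C.cons (nat_lit 881) (C.ref (nat_lit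 32) (nat_lit 654534193680)) (C.cons (nat_lit 873) (C.ref (nat_lit 32) (nat_lit 654533149200)) (C.cons (nat_lit 869) (C.ref (nat_lit 32) (nat_lit 654532100880)) (C.cons (nat_lit 867) (C.ref (nat_lit 32) (nat_lit 654531052320)) (C.cons (nat_lit 857) (C.ref (nat_lit 32) (nat_lit 654516376080)) (C.cons (nat_lit 853) (C.ref (nat_lit 32) (nat_lit 654515327760)) (C.cons (nat_lit 851) (C.ref (nat_lit 32) (nat_lit 654514279200)) (C.cons (nat_lit 845) (C.ref (nat_lit 32) (nat_lit 654498550800)) (C.cons (nat_lit 843) (C.ref (nat_lit 32) (nat_lit 654497502240)) (C.cons (nat_lit 839) (C.ref (nat_lit 32) (nat_lit 654480725040)) (C.cons (nat_lit 825) (C.ref (nat_lit 32) (nat_lit 654247944720)) (C.cons (nat_lit 821) (C.ref (nat_lit 32) (nat_lit 654246896400)) (C.cons (nat_lit 819) (C.ref (nat_lit 32) (nat_lit 654245847840)) (C.cons (nat_lit 813) (C.ref (nat_lit 32) (nat_lit 654230119440)) (C.cons (nat_lit 811) (C.ref (nat_lit 32)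 (nat_lit 654229070880)) (C.cons (nat_lit 807) (C.ref (nat_lit 32) (nat_lit 654212293680)) (C.cons (nat_lit 797) (C.ref (nat_lit 32) (nat_lit 653961684240)) (C.cons (nat_lit 795) (C.ref (nat_lit 32) (nat_lit 653960635680)) (C.cons (nat_lit 791) (C.ref (nat_lit 32) (nat_lit 653943858480)) (C.cons (nat_lit 783) (C.ref (nat_lit 32) (nat_lit 653675423040)) (C.cons (nat_lit 753)
  (C.ref (nat_lit 32) (nat_lit 650239291920)) (C.cons (nat_lit 745) (C.ref (nat_lit 32) (nat_lit 650238247440)) (C.cons (nat_lit 741) (C.ref (nat_lit 32) (nat_lit 650237199120)) (C.cons (nat_lit 739) (C.ref (nat_lit 32) (nat_lit 650236150560)) (C.cons (nat_lit 729) (C.ref (nat_lit 32) (nat_lit 650221474320)) (C.cons (nat_lit 725) (C.ref (nat_lit 32) (nat_lit 650220426000)) (C.cons (nat_lit 723) (C.ref (nat_lit 32) (nat_lit 650219377440)) (C.cons (nat_lit 717) (C.ref (nat_lit 32) (nat_lit 650203649040)) (C.cons (nat_lit 715) (C.ref (nat_lit 32)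 (nat_lit 650202600480)) (C.cons (nat_lit 711) (C.ref (nat_lit 32) (nat_lit 650185823280)) (C.cons (nat_lit 697) (C.ref (nat_lit 32) (nat_lit 649953042960)) (C.cons (nat_lit 693) (C.ref (nat_lit 32) (nat_lit 649951994640)) (C.cons (nat_lit 691) (C.ref (nat_lit 32) (nat_lit 649950946080)) (C.cons (nat_lit 685) (C.ref (nat_lit 32) (nat_lit 649935217680)) (C.cons (nat_lit 683) (C.ref (nat_lit 32) (nat_lit 649934169120)) (C.cons (nat_lit 679) (C.ref (nat_lit 32) (nat_lit 649917391920)) (C.cons (nat_lit 669) (C.ref (nat_lit 32) (nat_lit 649666782480)) (C.cons (nat_lit 667) (C.ref (nat_lit 32) (nat_lit 649665733920)) (C.cons (nat_lit 663) (C.ref (nat_lit 32) (nat_lit 649648956720)) (C.cons (nat_lit 655) (C.ref (nat_lit 32) (nat_lit 649380521280)) (C.cons (nat_lit 633) (C.ref (nat_lit 32) (nat_lit 645658079760)) (C.cons (nat_lit 629) (C.ref (nat_lit 32) (nat_lit 645657031440)) (C.cons (nat_lit 627) (C.ref (nat_lit 32) (nat_lit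 645655982880)) (C.cons (nat_lit 621) (C.ref (nat_lit 32) (nat_lit 645640254480)) (C.cons (nat_lit 619) (C.ref (nat_lit 32) (nat_lit 645639205920)) (C.cons (nat_lit 615) (C.ref (nat_lit 32) (nat_lit 645622428720)) (C.cons (nat_lit 605) (C.ref (nat_lit 32) (nat_lit 645371819280)) (C.cons (nat_lit 603) (C.ref (nat_lit 32) (nat_lit 645370770720)) (C.cons (nat_lit 599) (C.ref (nat_lit 32) (nat_lit 645353993520)) (C.cons (nat_lit 591) (C.ref (nat_lit 32) (nat_lit 645085558080)) (C.cons (nat_lit 573) (C.ref (nat_lit 32) (nat_lit 641076852240)) (C.cons (nat_lit 571) (C.ref (nat_lit 32) (nat_lit 641075803680)) (C.cons (nat_lit 567) (C.ref (nat_lit 32) (nat_lit 641059026480)) (C.cons (nat_lit 559) (C.ref (nat_lit 32) (nat_lit 640790591040)) (C.cons (nat_lit 543) (C.ref (nat_lit 32) (nat_lit 636495623760)) (C.cons (nat_lit 497) (C.ref (nat_lit 32) (nat_lit 581519880720)) (C.cons (nat_lit 489) (C.ref (nat_lit 32) (nat_lit 581518836240))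 (C.cons (nat_lit 485) (C.ref (nat_lit 32) (nat_lit 581517787920)) (C.cons (nat_lit 483) (C.ref (nat_lit 32) (nat_lit 581516739360)) (C.cons (nat_lit 473) (C.ref (nat_lit 32) (nat_lit 581502063120)) (C.cons (nat_lit 469) (C.ref (nat_lit 32) (nat_lit 581501014800)) (C.cons (nat_lit 467) (C.ref (nat_lit 32) (nat_lit 581499966240)) (C.cons (nat_lit 461) (C.ref (nat_lit 32) (nat_lit 581484237840)) (C.cons (nat_lit 459) (C.ref (nat_lit 32) (nat_lit 581483189280)) (C.cons (nat_lit 455) (C.ref (nat_lit 32) (nat_lit 581466412080)) (C.cons (nat_lit 441) (C.ref (nat_lit 32) (nat_lit 581233631760)) (C.cons (nat_lit 437) (C.ref (nat_lit 32) (nat_lit 581232583440)) (C.cons (nat_lit 435) (C.ref (nat_lit 32) (nat_lit 581231534880)) (C.cons (nat_lit 429) (C.ref (nat_lit 32) (nat_lit 581215806480)) (C.cons (nat_lit 427) (C.ref (nat_lit 32) (nat_lit 581214757920)) (C.cons (nat_lit 423) (C.ref (nat_lit 32) (nat_lit 581197980720)) (C.cons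 (nat_lit 413) (C.ref (nat_lit 32) (nat_lit 580947371280)) (C.cons (nat_lit 411) (C.ref (nat_lit 32) (nat_lit 580946322720)) (C.cons (nat_lit 407) (C.ref (nat_lit 32) (nat_lit 580929545520)) (C.cons (nat_lit 399) (C.ref (nat_lit 32) (nat_lit 580661110080)) (C.cons (nat_lit 377) (C.ref (nat_lit 32) (nat_lit 576938668560)) (C.cons (nat_lit 373) (C.ref (nat_lit 32) (nat_lit 576937620240)) (C.cons (nat_lit 371) (C.ref (nat_lit 32) (nat_lit 576936571680)) (C.cons (nat_lit 365) (C.ref (nat_lit 32) (nat_lit 576920843280)) (C.cons (nat_lit 363) (C.ref (nat_lit 32) (nat_lit 576919794720)) (C.cons (nat_lit 359)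
  (C.ref (nat_lit 32) (nat_lit 576903017520)) (C.cons (nat_lit 349) (C.ref (nat_lit 32) (nat_lit 576652408080)) (C.cons (nat_lit 347) (C.ref (nat_lit 32) (nat_lit 576651359520)) (C.cons (nat_lit 343) (C.ref (nat_lit 32) (nat_lit 576634582320)) (C.cons (nat_lit 335) (C.ref (nat_lit 32) (nat_lit 576366146880)) (C.cons (nat_lit 317) (C.ref (nat_lit 32) (nat_lit 572357441040)) (C.cons (nat_lit 315) (C.ref (nat_lit 32) (nat_lit 572356392480)) (C.cons (nat_lit 311) (C.ref (nat_lit 32) (nat_lit 572339615280)) (C.cons (nat_lit 303) (C.ref (nat_lit 32) (nat_lit 572071179840)) (C.cons (nat_lit 287) (C.ref (nat_lit 32) (nat_lit 567776212560)) (C.cons (nat_lit 249) (C.ref (nat_lit 32) (nat_lit 508219195920)) (C.cons (nat_lit 245) (C.ref (nat_lit 32) (nat_lit 508218147600)) (C.cons (nat_lit 243) (C.ref (nat_lit 32) (nat_lit 508217099040)) (C.cons (nat_lit 237) (C.ref (nat_lit 32) (nat_lit 508201370640)) (C.cons (nat_lit 235)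 (C.ref (nat_lit 32) (nat_lit 508200322080)) (C.cons (nat_lit 231) (C.ref (nat_lit 32) (nat_lit 508183544880)) (C.cons (nat_lit 221) (C.ref (nat_lit 32) (nat_lit 507932935440)) (C.cons (nat_lit 219) (C.ref (nat_lit 32) (nat_lit 507931886880)) (C.cons (nat_lit 215) (C.ref (nat_lit 32) (nat_lit 507915109680)) (C.cons (nat_lit 207) (C.ref (nat_lit 32) (nat_lit 507646674240)) (C.cons (nat_lit 189) (C.ref (nat_lit 32) (nat_lit 503637968400)) (C.cons (nat_lit 187) (C.ref (nat_lit 32) (nat_lit 503636919840)) (C.cons (nat_lit 183) (C.ref (nat_lit 32) (nat_lit 503620142640)) (C.cons (nat_lit 175) (C.ref (nat_lit 32) (nat_lit 503351707200)) (C.cons (nat_lit 159) (C.ref (nat_lit 32) (nat_lit 499056739920)) (C.cons (nat_lit 125) (C.ref (nat_lit 32) (nat_lit 434918491920)) (C.cons (nat_lit 123) (C.ref (nat_lit 32) (nat_lit 434917443360)) (C.cons (nat_lit 119) (C.ref (nat_lit 32) (nat_lit 434900666160)) (C.cons (nat_lit 111) (C.ref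 (nat_lit 32) (nat_lit 434632230720)) (C.cons (nat_lit 95) (C.ref (nat_lit 32) (nat_lit 430337263440)) (C.cons (nat_lit 63) (C.ref (nat_lit 32) (nat_lit 361617786720)) C.nil)))))))))))))))))))))))))))))))))))))))))))))))))))))))))))))))))))))))))))))))))))))))))))))))))))))))))))))))))))))))))))))) (C.big (C.cons (nat_lit 961) (C.ref (nat_lit 106) (nat_lit 654820258320)) (C.cons (nat_lit 929) (C.ref (nat_lit 106) (nat_lit 654804529680)) (C.cons (nat_lit 913) (C.ref (nat_lit 106) (nat_lit 654787818000)) (C.cons (nat_lit 905) (C.ref (nat_lit 106) (nat_lit 654771044880)) (C.cons (nat_lit 901) (C.ref (nat_lit 106) (nat_lit 654754267920)) (C.cons (nat_lit 899) (C.ref (nat_lit 106) (nat_lit 654737490720)) (C.cons (nat_lit 865) (C.ref (nat_lit 106) (nat_lit 654537142800)) (C.cons (nat_lit 849) (C.ref (nat_lit 106) (nat_lit 654520431120)) (C.cons (nat_lit 841) (C.ref (nat_lit 106) (nat_lit 654503658000)) (C.cons (nat_lit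 837) (C.ref (nat_lit 106) (nat_lit 654486881040)) (C.cons (nat_lit 835) (C.ref (nat_lit 106) (nat_lit 654470103840)) (C.cons (nat_lit 817) (C.ref (nat_lit 106) (nat_lit 654252061200)) (C.cons (nat_lit 809) (C.ref (nat_lit 106) (nat_lit 654235288080)) (C.cons (nat_lit 805) (C.ref (nat_lit 106) (nat_lit 654218511120)) (C.cons (nat_lit 803) (C.ref (nat_lit 106) (nat_lit 654201733920)) (C.cons (nat_lit 793) (C.ref (nat_lit 106) (nat_lit 653966856720)) (C.cons (nat_lit 789) (C.ref (nat_lit 106) (nat_lit 653950079760)) (C.cons (nat_lit 787) (C.ref (nat_lit 106) (nat_lit 653933302560)) (C.cons (nat_lit 781) (C.ref (nat_lit 106) (nat_lit 653681644560)) (C.cons (nat_lit 779) (C.ref (nat_lit 106) (nat_lit 653664867360)) (C.cons (nat_lit 775) (C.ref (nat_lit 106) (nat_lit 653396431920)) (C.cons (nat_lit 737) (C.ref (nat_lit 106) (nat_lit 650243224080)) (C.cons (nat_lit 721) (C.ref (nat_lit 106) (nat_lit 650226512400)) (C.cons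 (nat_lit 713) (C.ref (nat_lit 106) (nat_lit 650209739280)) (C.cons (nat_lit 709) (C.ref (nat_lit 106) (nat_lit 650192962320)) (C.cons (nat_lit 707) (C.ref (nat_lit 106) (nat_lit 650176185120)) (C.cons (nat_lit 689) (C.ref (nat_lit 106) (nat_lit 649958142480)) (C.cons (nat_lit 681)
  (C.ref (nat_lit 106) (nat_lit 649941369360)) (C.cons (nat_lit 677) (C.ref (nat_lit 106) (nat_lit 649924592400)) (C.cons (nat_lit 675) (C.ref (nat_lit 106) (nat_lit 649907815200)) (C.cons (nat_lit 665) (C.ref (nat_lit 106) (nat_lit 649672938000)) (C.cons (nat_lit 661) (C.ref (nat_lit 106) (nat_lit 649656161040)) (C.cons (nat_lit 659) (C.ref (nat_lit 106) (nat_lit 649639383840)) (C.cons (nat_lit 653) (C.ref (nat_lit 106) (nat_lit 649387725840)) (C.cons (nat_lit 651) (C.ref (nat_lit 106) (nat_lit 649370948640)) (C.cons (nat_lit 647) (C.ref (nat_lit 106) (nat_lit 649102513200)) (C.cons (nat_lit 625) (C.ref (nat_lit 106) (nat_lit 645663240720))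 (C.cons (nat_lit 617) (C.ref (nat_lit 106) (nat_lit 645646467600)) (C.cons (nat_lit 613) (C.ref (nat_lit 106) (nat_lit 645629690640)) (C.cons (nat_lit 611) (C.ref (nat_lit 106) (nat_lit 645612913440)) (C.cons (nat_lit 601) (C.ref (nat_lit 106) (nat_lit 645378036240)) (C.cons (nat_lit 597) (C.ref (nat_lit 106) (nat_lit 645361259280)) (C.cons (nat_lit 595) (C.ref (nat_lit 106) (nat_lit 645344482080)) (C.cons (nat_lit 589) (C.ref (nat_lit 106) (nat_lit 645092824080)) (C.cons (nat_lit 587) (C.ref (nat_lit 106) (nat_lit 645076046880)) (C.cons (nat_lit 583) (C.ref (nat_lit 106) (nat_lit 644807611440)) (C.cons (nat_lit 569) (C.ref (nat_lit 106) (nat_lit 641083073040)) (C.cons (nat_lit 565) (C.ref (nat_lit 106) (nat_lit 641066296080)) (C.cons (nat_lit 563) (C.ref (nat_lit 106) (nat_lit 641049518880)) (C.cons (nat_lit 557) (C.ref (nat_lit 106) (nat_lit 640797860880)) (C.cons (nat_lit 555) (C.ref (nat_lit 106) (nat_lit 640781083680))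 (C.cons (nat_lit 551) (C.ref (nat_lit 106) (nat_lit 640512648240)) (C.cons (nat_lit 541) (C.ref (nat_lit 106) (nat_lit 636502893840)) (C.cons (nat_lit 539) (C.ref (nat_lit 106) (nat_lit 636486116640)) (C.cons (nat_lit 535) (C.ref (nat_lit 106) (nat_lit 636217681200)) (C.cons (nat_lit 527) (C.ref (nat_lit 106) (nat_lit 631922713920)) (C.cons (nat_lit 481) (C.ref (nat_lit 106) (nat_lit 581524795920)) (C.cons (nat_lit 465) (C.ref (nat_lit 106) (nat_lit 581508084240)) (C.cons (nat_lit 457) (C.ref (nat_lit 106) (nat_lit 581491311120)) (C.cons (nat_lit 453) (C.ref (nat_lit 106) (nat_lit 581474534160)) (C.cons (nat_lit 451) (C.ref (nat_lit 106) (nat_lit 581457756960)) (C.cons (nat_lit 433) (C.ref (nat_lit 106) (nat_lit 581239714320)) (C.cons (nat_lit 425) (C.ref (nat_lit 106) (nat_lit 581222941200)) (C.cons (nat_lit 421) (C.ref (nat_lit 106) (nat_lit 581206164240)) (C.cons (nat_lit 419) (C.ref (nat_lit 106) (nat_lit 581189387040))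 (C.cons (nat_lit 409) (C.ref (nat_lit 106) (nat_lit 580954509840)) (C.cons (nat_lit 405) (C.ref (nat_lit 106) (nat_lit 580937732880)) (C.cons (nat_lit 403) (C.ref (nat_lit 106) (nat_lit 580920955680)) (C.cons (nat_lit 397) (C.ref (nat_lit 106) (nat_lit 580669297680)) (C.cons (nat_lit 395) (C.ref (nat_lit 106) (nat_lit 580652520480)) (C.cons (nat_lit 391) (C.ref (nat_lit 106) (nat_lit 580384085040)) (C.cons (nat_lit 369) (C.ref (nat_lit 106) (nat_lit 576944812560)) (C.cons (nat_lit 361) (C.ref (nat_lit 106) (nat_lit 576928039440)) (C.cons (nat_lit 357) (C.ref (nat_lit 106) (nat_lit 576911262480)) (C.cons (nat_lit 355) (C.ref (nat_lit 106) (nat_lit 576894485280)) (C.cons (nat_lit 345) (C.ref (nat_lit 106) (nat_lit 576659608080)) (C.cons (nat_lit 341) (C.ref (nat_lit 106) (nat_lit 576642831120)) (C.cons (nat_lit 339) (C.ref (nat_lit 106) (nat_lit 576626053920)) (C.cons (nat_lit 333) (C.ref (nat_lit 106) (nat_lit 576374395920))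 (C.cons (nat_lit 331) (C.ref (nat_lit 106) (nat_lit 576357618720)) (C.cons (nat_lit 327) (C.ref (nat_lit 106) (nat_lit 576089183280)) (C.cons (nat_lit 313) (C.ref (nat_lit 106) (nat_lit 572364644880)) (C.cons (nat_lit 309) (C.ref (nat_lit 106) (nat_lit 572347867920)) (C.cons (nat_lit 307) (C.ref (nat_lit 106) (nat_lit 572331090720)) (C.cons (nat_lit 301) (C.ref (nat_lit 106) (nat_lit 572079432720)) (C.cons (nat_lit 299) (C.ref (nat_lit 106) (nat_lit 572062655520)) (C.cons (nat_lit 295)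
  (C.ref (nat_lit 106) (nat_lit 571794220080)) (C.cons (nat_lit 285) (C.ref (nat_lit 106) (nat_lit 567784465680)) (C.cons (nat_lit 283) (C.ref (nat_lit 106) (nat_lit 567767688480)) (C.cons (nat_lit 279) (C.ref (nat_lit 106) (nat_lit 567499253040)) (C.cons (nat_lit 271) (C.ref (nat_lit 106) (nat_lit 563204285760)) (C.cons (nat_lit 241) (C.ref (nat_lit 106) (nat_lit 508225401360)) (C.cons (nat_lit 233) (C.ref (nat_lit 106) (nat_lit 508208628240)) (C.cons (nat_lit 229) (C.ref (nat_lit 106) (nat_lit 508191851280)) (C.cons (nat_lit 227) (C.ref (nat_lit 106) (nat_lit 508175074080)) (C.cons (nat_lit 217) (C.ref (nat_lit 106) (nat_lit 507940196880)) (C.cons (nat_lit 213) (C.ref (nat_lit 106) (nat_lit 507923419920)) (C.cons (nat_lit 211) (C.ref (nat_lit 106) (nat_lit 507906642720)) (C.cons (nat_lit 205) (C.ref (nat_lit 106) (nat_lit 507654984720)) (C.cons (nat_lit 203) (C.ref (nat_lit 106) (nat_lit 507638207520)) (C.cons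 (nat_lit 199) (C.ref (nat_lit 106) (nat_lit 507369772080)) (C.cons (nat_lit 185) (C.ref (nat_lit 106) (nat_lit 503645233680)) (C.cons (nat_lit 181) (C.ref (nat_lit 106) (nat_lit 503628456720)) (C.cons (nat_lit 179) (C.ref (nat_lit 106) (nat_lit 503611679520)) (C.cons (nat_lit 173) (C.ref (nat_lit 106) (nat_lit 503360021520)) (C.cons (nat_lit 171) (C.ref (nat_lit 106) (nat_lit 503343244320)) (C.cons (nat_lit 167) (C.ref (nat_lit 106) (nat_lit 503074808880)) (C.cons (nat_lit 157) (C.ref (nat_lit 106) (nat_lit 499065054480)) (C.cons (nat_lit 155) (C.ref (nat_lit 106) (nat_lit 499048277280)) (C.cons (nat_lit 151) (C.ref (nat_lit 106) (nat_lit 498779841840)) (C.cons (nat_lit 143) (C.ref (nat_lit 106) (nat_lit 494484874560)) (C.cons (nat_lit 121) (C.ref (nat_lit 106) (nat_lit 434925761040)) (C.cons (nat_lit 117) (C.ref (nat_lit 106) (nat_lit 434908984080)) (C.cons (nat_lit 115) (C.ref (nat_lit 106) (nat_lit 434892206880))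 (C.cons (nat_lit 109) (C.ref (nat_lit 106) (nat_lit 434640548880)) (C.cons (nat_lit 107) (C.ref (nat_lit 106) (nat_lit 434623771680)) (C.cons (nat_lit 103) (C.ref (nat_lit 106) (nat_lit 434355336240)) (C.cons (nat_lit 93) (C.ref (nat_lit 106) (nat_lit 430345581840)) (C.cons (nat_lit 91) (C.ref (nat_lit 106) (nat_lit 430328804640)) (C.cons (nat_lit 87) (C.ref (nat_lit 106) (nat_lit 430060369200)) (C.cons (nat_lit 79) (C.ref (nat_lit 106) (nat_lit 425765401920)) (C.cons (nat_lit 61) (C.ref (nat_lit 106) (nat_lit 361626105360)) (C.cons (nat_lit 59) (C.ref (nat_lit 106) (nat_lit 361609328160)) (C.cons (nat_lit 55) (C.ref (nat_lit 106) (nat_lit 361340892720)) (C.cons (nat_lit 47) (C.ref (nat_lit 106) (nat_lit 357045925440)) (C.cons (nat_lit 31) (C.ref (nat_lit 106) (nat_lit 288326448720)) C.nil))))))))))))))))))))))))))))))))))))))))))))))))))))))))))))))))))))))))))))))))))))))))))))))))))))))))))))))))))))))))))))))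 (C.node (nat_lit 0) (nat_lit 1) (nat_lit 2) (C.cons (nat_lit 519) (C.ref (nat_lit 155) (nat_lit 654820258320)) (C.cons (nat_lit 263) (C.ref (nat_lit 155) (nat_lit 590395748880)) (C.cons (nat_lit 135) (C.ref (nat_lit 155) (nat_lit 521944707600)) (C.cons (nat_lit 71) (C.ref (nat_lit 155) (nat_lit 453242008080)) (C.cons (nat_lit 39) (C.ref (nat_lit 155) (nat_lit 384523579920)) (C.cons (nat_lit 23) (C.ref (nat_lit 155) (nat_lit 315804168720)) (C.cons (nat_lit 15) (C.ref (nat_lit 155) (nat_lit 247084696080)) (C.cons (nat_lit 7) (C.node (nat_lit 0) (nat_lit 1) (nat_lit 3) (C.cons (nat_lit 523) (C.ref (nat_lit 154) (nat_lit 654820254480)) (C.cons (nat_lit 267) (C.ref (nat_lit 154) (nat_lit 590395745040)) (C.cons (nat_lit 139) (C.ref (nat_lit 154) (nat_lit 521944703760)) (C.cons (nat_lit 75) (C.ref (nat_lit 154) (nat_lit 453242004240)) (C.cons (nat_lit 43) (C.ref (nat_lit 154) (nat_lit 384523576080)) (C.cons (nat_lit 27)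 (C.ref (nat_lit 154) (nat_lit 315804164880)) (C.cons (nat_lit 11) (C.node (nat_lit 0) (nat_lit 1) (nat_lit 4) (C.cons (nat_lit 531) (C.ref (nat_lit 153) (nat_lit 654820189200)) (C.cons (nat_lit 275) (C.ref (nat_lit 153) (nat_lit 590395679760)) (C.cons (nat_lit 147)
  (C.ref (nat_lit 153) (nat_lit 521944638480)) (C.cons (nat_lit 83) (C.ref (nat_lit 153) (nat_lit 453241938960)) (C.cons (nat_lit 51) (C.ref (nat_lit 153) (nat_lit 384523510800)) (C.cons (nat_lit 19) (C.node (nat_lit 0) (nat_lit 1) (nat_lit 5) (C.cons (nat_lit 547) (C.ref (nat_lit 152) (nat_lit 654819140880)) (C.cons (nat_lit 291) (C.ref (nat_lit 152) (nat_lit 590394631440)) (C.cons (nat_lit 163) (C.ref (nat_lit 152) (nat_lit 521943590160)) (C.cons (nat_lit 99) (C.ref (nat_lit 152) (nat_lit 453240890640)) (C.cons (nat_lit 35) (C.node (nat_lit 0) (nat_lit 1) (nat_lit 6) (C.cons (nat_lit 579) (C.ref (nat_lit 151) (nat_lit 654802363920)) (C.cons (nat_lit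 323) (C.ref (nat_lit 151) (nat_lit 590377854480)) (C.cons (nat_lit 195) (C.ref (nat_lit 151) (nat_lit 521926813200)) (C.cons (nat_lit 67) (C.node (nat_lit 0) (nat_lit 1) (nat_lit 7) (C.cons (nat_lit 643) (C.node (nat_lit 0) (nat_lit 1) (nat_lit 8) (C.cons (nat_lit 259) (C.ref (nat_lit 150) (nat_lit 654533928720)) C.nil)) (C.cons (nat_lit 387) (C.node (nat_lit 0) (nat_lit 1) (nat_lit 9) (C.cons (nat_lit 515) (C.ref (nat_lit 150) (nat_lit 590109419280)) C.nil)) (C.cons (nat_lit 131) (C.node (nat_lit 0) (nat_lit 1) (nat_lit 8) (C.cons (nat_lit 771) (C.ref (nat_lit 150) (nat_lit 650238961680)) C.nil)) C.nil)))) C.nil))))) C.nil)))))) C.nil))))))) C.nil)))))))) C.nil))))))))))) List.nil)))))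

theorem ok10_152 : okL par10 (nat_lit 157) c10_152 (nat_lit 152) = true := by decide +kernel


end Pool.Agent.MP_1f1ca1_co
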