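import Pool.Agent.MP_1f1ca1_co.Cert.P11

set_option autoImplicit false
set_option maxRecDepth 1000000
set_option maxHeartbeats 0

namespace Pool.Agent.MP_1f1ca1_co

noncomputable def c11_0 : List C :=
  (List.cons (C.node (nat_lit 0) (nat_lit 3) (nat_lit 6) (C.cons (nat_lit 73) (C.node (nat_lit 0) (nat_lit 4) (nat_lit 6) (C.cons (nat_lit 81) (C.node (nat_lit 0) (nat_lit 5) (nat_lit 6) (C.cons (nat_lit 97) (C.node (nat_lit 0) (nat_lit 3) (nat_lit 7) (C.cons (nat_lit 139) (C.node (nat_lit 0) (nat_lit 3) (nat_lit 8) (C.cons (nat_lit 265) (C.node (nat_lit 0) (nat_lit 3) (nat_lit 9) (C.cons (nat_lit 521) (C.node (nat_lit 0) (nat_lit 4) (nat_lit 7) (C.cons (nat_lit 145) (C.node (nat_lit 0) (nat_lit 5) (nat_lit 7) C.nil) C.nil)) C.nil)) C.nil)) (C.cons (nat_lit 137) (C.node (nat_lit 0) (nat_lit 3) (nat_lit 8) (C.cons (nat_lit 267) (C.node (nat_lit 0) (nat_lit 3) (nat_lit 9) (C.cons (nat_lit 521) (C.node (nat_lit 0) (nat_lit 4) (nat_lit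 8) (C.cons (nat_lit 273) (C.node (nat_lit 0) (nat_lit 5) (nat_lit 8) C.nil) C.nil)) C.nil)) (C.cons (nat_lit 265) (C.node (nat_lit 0) (nat_lit 1) (nat_lit 3) (C.cons (nat_lit 523) (C.node (nat_lit 0) (nat_lit 4) (nat_lit 9) (C.cons (nat_lit 529) (C.node (nat_lit 0) (nat_lit 5) (nat_lit 9) C.nil) C.nil)) (C.cons (nat_lit 11) (C.node (nat_lit 0) (nat_lit 3) (nat_lit 9) C.nil) C.nil))) C.nil))) C.nil))) C.nil)) C.nil)) C.nil)) (List.cons (C.big C.nil (C.big C.nil (C.node (nat_lit 0) (nat_lit 1) (nat_lit 10) (C.cons (nat_lit 1027) (C.node (nat_lit 0) (nat_lit 2) (nat_lit 6) (C.cons (nat_lit 71) (C.node (nat_lit 0) (nat_lit 2) (nat_lit 7) (C.cons (nat_lit 133) (C.node (nat_lit 0) (nat_lit 2) (nat_lit 8) (C.cons (nat_lit 261) (C.node (nat_lit 0) (nat_lit 2) (nat_lit 9) (C.cons (nat_lit 517) (C.ref (nat_lit 0) (nat_lit 11649936536080)) C.nil)) C.nil)) C.nil)) (C.cons (nat_lit 69) (C.node (nat_lit 0) (nat_lit 2) (nat_lit 7) (C.cons (nat_lit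 135) (C.node (nat_lit 0) (nat_lit 2) (nat_lit 8) (C.cons (nat_lit 261) (C.node (nat_lit 0) (nat_lit 2) (nat_lit 9) (C.cons (nat_lit 517) (C.ref (nat_lit 0) (nat_lit 11649684877840)) C.nil)) C.nil)) (C.cons (nat_lit 133) (C.node (nat_lit 0) (nat_lit 2) (nat_lit 8) (C.cons (nat_lit 263) (C.node (nat_lit 0) (nat_lit 2) (nat_lit 9) (C.cons (nat_lit 517) (C.ref (nat_lit 0) (nat_lit 11645406687760)) C.nil)) (C.cons (nat_lit 261) (C.node (nat_lit 0) (nat_lit 1) (nat_lit 2) (C.cons (nat_lit 519) (C.ref (nat_lit 0) (nat_lit 11576703988240)) (C.cons (nat_lit 7) (C.node (nat_lit 0) (nat_lit 2) (nat_lit 9) (C.cons (nat_lit 517) (C.node (nat_lit 0) (nat_lit 3) (nat_lit 6) (C.cons (nat_lit 75) (C.node (nat_lit 0) (nat_lit 3) (nat_lit 7) (C.cons (nat_lit 137) (C.node (nat_lit 0) (nat_lit 3) (nat_lit 8) (C.cons (nat_lit 265) (C.node (nat_lit 0) (nat_lit 3) (nat_lit 9) (C.cons (nat_lit 521) (C.node (nat_lit 0) (nat_lit 4) (nat_lit 6) (C.cons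 (nat_lit 81) (C.node (nat_lit 0) (nat_lit 5) (nat_lit 6) C.nil) C.nil)) C.nil)) C.nil)) C.nil)) (C.cons (nat_lit 73) (C.node (nat_lit 0) (nat_lit 3) (nat_lit 7) (C.cons (nat_lit 139) (C.node (nat_lit 0) (nat_lit 3) (nat_lit 8) (C.cons (nat_lit 265) (C.node (nat_lit 0) (nat_lit 3) (nat_lit 9) (C.cons (nat_lit 521) (C.node (nat_lit 0) (nat_lit 4) (nat_lit 7) (C.cons (nat_lit 145) (C.node (nat_lit 0) (nat_lit 5) (nat_lit 7) C.nil) C.nil)) C.nil)) C.nil)) (C.cons (nat_lit 137) (C.node (nat_lit 0) (nat_lit 3) (nat_lit 8) (C.cons (nat_lit 267) (C.node (nat_lit 0) (nat_lit 3) (nat_lit 9) (C.cons (nat_lit 521) (C.node (nat_lit 0) (nat_lit 4) (nat_lit 8) (C.cons (nat_lit 273) (C.node (nat_lit 0) (nat_lit 5) (nat_lit 8) C.nil) C.nil)) C.nil)) (C.cons (nat_lit 265) (C.node (nat_lit 0) (nat_lit 1) (nat_lit 3) (C.cons (nat_lit 523) (C.node (nat_lit 0) (nat_lit 4) (nat_lit 9) (C.cons (nat_lit 529) (C.node (nat_lit 0) (nat_lit 5) (nat_lit 9)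 C.nil) C.nil)) (C.cons (nat_lit 11) (C.node (nat_lit 0) (nat_lit 3) (nat_lit 9) C.nil) C.nil))) C.nil))) C.nil))) C.nil))) C.nil)) C.nil))) C.nil))) C.nil))) C.nil))) C.nil)))) (List.cons (C.node (nat_lit 0) (nat_lit 1) (nat_lit 7) (C.cons (nat_lit 139) (C.node (nat_lit 0) (nat_lit 1) (nat_lit 8) (C.cons (nat_lit 259) (C.node (nat_lit 0) (nat_lit 2) (nat_lit 6) (C.cons (nat_lit 77)
  (C.node (nat_lit 0) (nat_lit 3) (nat_lit 8) C.nil) C.nil)) C.nil)) (C.cons (nat_lit 131) (C.node (nat_lit 0) (nat_lit 1) (nat_lit 3) (C.cons (nat_lit 267) (C.node (nat_lit 0) (nat_lit 2) (nat_lit 6) (C.cons (nat_lit 77) (C.node (nat_lit 0) (nat_lit 3) (nat_lit 7) C.nil) C.nil)) C.nil)) C.nil))) (List.cons (C.big C.nil (C.node (nat_lit 0) (nat_lit 1) (nat_lit 10) (C.cons (nat_lit 1027) (C.node (nat_lit 0) (nat_lit 2) (nat_lit 10) (C.cons (nat_lit 1029) (C.node (nat_lit 0) (nat_lit 3) (nat_lit 9) (C.cons (nat_lit 521) (C.node (nat_lit 0) (nat_lit 4)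 (nat_lit 9) (C.cons (nat_lit 529) (C.node (nat_lit 0) (nat_lit 5) (nat_lit 6) (C.cons (nat_lit 97) (C.node (nat_lit 0) (nat_lit 5) (nat_lit 7) (C.cons (nat_lit 161) (C.node (nat_lit 0) (nat_lit 5) (nat_lit 8) (C.cons (nat_lit 289) (C.node (nat_lit 0) (nat_lit 1) (nat_lit 6) (C.cons (nat_lit 83) (C.ref (nat_lit 2) (nat_lit 11649936536080)) (C.cons (nat_lit 75) (C.ref (nat_lit 2) (nat_lit 11649936474640)) (C.cons (nat_lit 67) (C.node (nat_lit 0) (nat_lit 3) (nat_lit 6) (C.cons (nat_lit 77) (C.node (nat_lit 0) (nat_lit 4) (nat_lit 6) C.nil) C.nil)) C.nil)))) C.nil)) C.nil)) C.nil)) C.nil)) C.nil)) C.nil)) C.nil))) (List.cons (C.qs (C.cons (nat_lit 18704) (C.pat (nat_lit 1) (nat_lit 2269526817) (nat_lit 721886531339277586569028925699981457)) (C.cons (nat_lit 17680) (C.pat (nat_lit 0) (nat_lit 195647026) (nat_lit 157268019866230270683495335788621)) (C.cons (nat_lit 2384) (C.pat (nat_lit 1) (nat_lit 3062187825) (nat_lit 430968324741954665169117012712556481))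 (C.cons (nat_lit 18696) (C.pat (nat_lit 1) (nat_lit 2522368801) (nat_lit 431117907512788679868160652602572897)) (C.cons (nat_lit 2372) (C.pat (nat_lit 2) (nat_lit 30428922467) (nat_lit 2966032119225282116351063001912261456895476003)) (C.cons (nat_lit 2316) (C.pat (nat_lit 1) (nat_lit 3112457778) (nat_lit 2850612887368464655339848100323329985)) (C.cons (nat_lit 18442) (C.pat (nat_lit 0) (nat_lit 195581745) (nat_lit 157268097232760359536892854861963)) C.nil)))))))) (List.cons (C.node (nat_lit 0) (nat_lit 4) (nat_lit 7) (C.cons (nat_lit 149) (C.pat (nat_lit 0) (nat_lit 73873953) (nat_lit 157269209442374300078235020100615)) (C.cons (nat_lit 145) (C.node (nat_lit 0) (nat_lit 2) (nat_lit 4) (C.cons (nat_lit 533) (C.node (nat_lit 0) (nat_lit 5) (nat_lit 9) (C.cons (nat_lit 545) (C.node (nat_lit 0) (nat_lit 2) (nat_lit 5) (C.cons (nat_lit 165) (C.ref (nat_lit 4) (nat_lit 11577458901280)) C.nil)) C.nil)) (C.cons (nat_lit 21) (C.node (nat_lit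 0) (nat_lit 4) (nat_lit 9) C.nil) C.nil))) C.nil))) (List.cons (C.node (nat_lit 0) (nat_lit 2) (nat_lit 8) (C.cons (nat_lit 277) (C.node (nat_lit 0) (nat_lit 4) (nat_lit 7) (C.cons (nat_lit 145) (C.node (nat_lit 0) (nat_lit 4) (nat_lit 9) (C.cons (nat_lit 529) (C.node (nat_lit 0) (nat_lit 2) (nat_lit 7) (C.cons (nat_lit 165) (C.pat (nat_lit 1) (nat_lit 677664561) (nat_lit 1510980332134995177886348397331941313)) (C.cons (nat_lit 133) (C.node (nat_lit 0) (nat_lit 5) (nat_lit 7) (C.cons (nat_lit 161) (C.node (nat_lit 0) (nat_lit 2) (nat_lit 5) (C.cons (nat_lit 549) (C.ref (nat_lit 4) (nat_lit 11649936536080)) C.nil)) C.nil)) C.nil))) C.nil)) C.nil)) (C.cons (nat_lit 261) (C.node (nat_lit 0) (nat_lit 4) (nat_lit 8) (C.cons (nat_lit 273) (C.ref (nat_lit 5) (nat_lit 11649936536080)) C.nil)) C.nil))) (List.cons (C.node (nat_lit 0) (nat_lit 1) (nat_lit 8) (C.cons (nat_lit 291) (C.node (nat_lit 0) (nat_lit 1) (nat_lit 9) (C.cons (nat_lit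 515) (C.ref (nat_lit 6) (nat_lit 11649936536080)) C.nil)) (C.cons (nat_lit 259) (C.node (nat_lit 0) (nat_lit 1) (nat_lit 5) (C.cons (nat_lit 547) (C.ref (nat_lit 6) (nat_lit 11585512026640)) (C.cons (nat_lit 35) (C.node (nat_lit 0) (nat_lit 1) (nat_lit 9) (C.cons (nat_lit 515) (C.node (nat_lit 0) (nat_lit 4) (nat_lit 7) (C.cons (nat_lit 149) (C.pat (nat_lit 0) (nat_lit 73873953) (nat_lit 157269209442374300078235020100615)) (C.cons (nat_lit 145) (C.node (nat_lit 0) (nat_lit 2) (nat_lit 7) (C.cons (nat_lit 165) (C.node (nat_lit 0) (nat_lit 5) (nat_lit 8) (C.cons (nat_lit 289)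
  (C.node (nat_lit 0) (nat_lit 5) (nat_lit 9) C.nil) C.nil)) (C.cons (nat_lit 133) (C.node (nat_lit 0) (nat_lit 5) (nat_lit 7) C.nil) C.nil))) C.nil))) C.nil)) C.nil))) C.nil))) (List.cons (C.node (nat_lit 0) (nat_lit 2) (nat_lit 8) (C.cons (nat_lit 293) (C.node (nat_lit 0) (nat_lit 2) (nat_lit 9) (C.cons (nat_lit 517) (C.node (nat_lit 0) (nat_lit 1) (nat_lit 5) (C.cons (nat_lit 547) (C.node (nat_lit 0) (nat_lit 4) (nat_lit 9) (C.cons (nat_lit 529) (C.node (nat_lit 0) (nat_lit 1) (nat_lit 4) (C.cons (nat_lit 275) (C.ref (nat_lit 4) (nat_lit 11649684877600)) C.nil)) C.nil)) (C.cons (nat_lit 35) (C.node (nat_lit 0) (nat_lit 5) (nat_lit 9) C.nil) C.nil))) C.nil)) (C.cons (nat_lit 261) (C.node (nat_lit 0) (nat_lit 2) (nat_lit 5) (C.cons (nat_lit 549) (C.node (nat_lit 0) (nat_lit 1) (nat_lit 5) (C.cons (nat_lit 291) (C.node (nat_lit 0) (nat_lit 4) (nat_lit 8) (C.cons (nat_lit 273) (C.node (nat_lit 0) (nat_lit 1) (nat_lit 4) (C.cons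 (nat_lit 531) (C.ref (nat_lit 4) (nat_lit 11585260368160)) C.nil)) C.nil)) (C.cons (nat_lit 35) (C.node (nat_lit 0) (nat_lit 5) (nat_lit 8) C.nil) C.nil))) (C.cons (nat_lit 37) (C.node (nat_lit 0) (nat_lit 2) (nat_lit 9) C.nil) C.nil))) C.nil))) (List.cons (C.node (nat_lit 0) (nat_lit 4) (nat_lit 7) (C.cons (nat_lit 149) (C.node (nat_lit 0) (nat_lit 5) (nat_lit 7) (C.cons (nat_lit 161) (C.ref (nat_lit 8) (nat_lit 11649936536080)) C.nil)) (C.cons (nat_lit 145) (C.node (nat_lit 0) (nat_lit 2) (nat_lit 7) (C.cons (nat_lit 165) (C.ref (nat_lit 8) (nat_lit 11649935553040)) (C.cons (nat_lit 133) (C.node (nat_lit 0) (nat_lit 5) (nat_lit 7) (C.cons (nat_lit 161) (C.node (nat_lit 0) (nat_lit 1) (nat_lit 4) (C.cons (nat_lit 531) (C.node (nat_lit 0) (nat_lit 1) (nat_lit 5) (C.cons (nat_lit 291) (C.node (nat_lit 0) (nat_lit 2) (nat_lit 4) (C.cons (nat_lit 277) (C.node (nat_lit 0) (nat_lit 2) (nat_lit 5) (C.cons (nat_lit 549) (C.pat (nat_lit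 0) (nat_lit 92883489) (nat_lit 157269209449753054003607561765895)) C.nil)) C.nil)) C.nil)) (C.cons (nat_lit 275) (C.node (nat_lit 0) (nat_lit 1) (nat_lit 5) (C.cons (nat_lit 547) (C.node (nat_lit 0) (nat_lit 2) (nat_lit 4) (C.cons (nat_lit 533) (C.node (nat_lit 0) (nat_lit 2) (nat_lit 5) (C.cons (nat_lit 293) (C.pat (nat_lit 0) (nat_lit 93866529) (nat_lit 157269209445030759579431449330695)) C.nil)) C.nil)) C.nil)) C.nil))) C.nil)) C.nil))) C.nil))) (List.cons (C.node (nat_lit 0) (nat_lit 4) (nat_lit 6) (C.cons (nat_lit 83) (C.node (nat_lit 0) (nat_lit 5) (nat_lit 6) (C.cons (nat_lit 97) (C.ref (nat_lit 7) (nat_lit 11649936536080)) C.nil)) (C.cons (nat_lit 81) (C.node (nat_lit 0) (nat_lit 1) (nat_lit 6) (C.cons (nat_lit 99) (C.ref (nat_lit 7) (nat_lit 11649935553040)) (C.cons (nat_lit 67) (C.node (nat_lit 0) (nat_lit 5) (nat_lit 6) (C.cons (nat_lit 97) (C.ref (nat_lit 9) (nat_lit 11649936536080)) C.nil)) C.nil))) C.nil))) (List.cons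 (C.node (nat_lit 0) (nat_lit 2) (nat_lit 7) (C.cons (nat_lit 149) (C.node (nat_lit 0) (nat_lit 4) (nat_lit 8) (C.cons (nat_lit 273) (C.node (nat_lit 0) (nat_lit 4) (nat_lit 9) C.nil) C.nil)) (C.cons (nat_lit 133) (C.node (nat_lit 0) (nat_lit 4) (nat_lit 7) C.nil) C.nil))) (List.cons (C.node (nat_lit 0) (nat_lit 1) (nat_lit 7) (C.cons (nat_lit 163) (C.node (nat_lit 0) (nat_lit 1) (nat_lit 8) (C.cons (nat_lit 259) (C.node (nat_lit 0) (nat_lit 1) (nat_lit 9) (C.cons (nat_lit 515) (C.ref (nat_lit 11) (nat_lit 11649936536080)) C.nil)) C.nil)) (C.cons (nat_lit 131) (C.node (nat_lit 0) (nat_lit 1) (nat_lit 8) (C.cons (nat_lit 291) (C.node (nat_lit 0) (nat_lit 1) (nat_lit 9) (C.cons (nat_lit 515) (C.ref (nat_lit 11) (nat_lit 11645910004240)) C.nil)) (C.cons (nat_lit 259) (C.node (nat_lit 0) (nat_lit 1) (nat_lit 5) (C.cons (nat_lit 547) (C.ref (nat_lit 11) (nat_lit 11577458962960)) (C.cons (nat_lit 35) (C.node (nat_lit 0) (nat_lit 1)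 (nat_lit 9) C.nil) C.nil))) C.nil))) C.nil))) (List.cons (C.node (nat_lit 0) (nat_lit 1) (nat_lit 8) (C.cons (nat_lit 275) (C.node (nat_lit 0) (nat_lit 1) (nat_lit 9) (C.cons (nat_lit 515)
  (C.node (nat_lit 0) (nat_lit 2) (nat_lit 7) (C.cons (nat_lit 149) (C.node (nat_lit 0) (nat_lit 4) (nat_lit 9) C.nil) C.nil)) C.nil)) (C.cons (nat_lit 259) (C.node (nat_lit 0) (nat_lit 1) (nat_lit 4) (C.cons (nat_lit 531) (C.node (nat_lit 0) (nat_lit 2) (nat_lit 7) (C.cons (nat_lit 149) (C.node (nat_lit 0) (nat_lit 4) (nat_lit 8) C.nil) C.nil)) C.nil)) C.nil))) (List.cons (C.node (nat_lit 0) (nat_lit 3) (nat_lit 7) (C.cons (nat_lit 139) (C.node (nat_lit 0) (nat_lit 3) (nat_lit 8) (C.cons (nat_lit 265) (C.node (nat_lit 0) (nat_lit 3) (nat_lit 9) (C.cons (nat_lit 521) (C.ref (nat_lit 10) (nat_lit 11649936536080)) C.nil)) C.nil)) (C.cons (nat_lit 137) (C.node (nat_lit 0) (nat_lit 3) (nat_lit 8) (C.cons (nat_lit 267) (C.node (nat_lit 0) (nat_lit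 3) (nat_lit 9) (C.cons (nat_lit 521) (C.ref (nat_lit 10) (nat_lit 11645910004240)) C.nil)) (C.cons (nat_lit 265) (C.node (nat_lit 0) (nat_lit 1) (nat_lit 3) (C.cons (nat_lit 523) (C.ref (nat_lit 10) (nat_lit 11577458962960)) (C.cons (nat_lit 11) (C.node (nat_lit 0) (nat_lit 3) (nat_lit 9) (C.cons (nat_lit 521) (C.node (nat_lit 0) (nat_lit 4) (nat_lit 6) (C.cons (nat_lit 83) (C.node (nat_lit 0) (nat_lit 5) (nat_lit 6) (C.cons (nat_lit 97) (C.ref (nat_lit 12) (nat_lit 11649936536080)) C.nil)) (C.cons (nat_lit 81) (C.node (nat_lit 0) (nat_lit 1) (nat_lit 6) (C.cons (nat_lit 99) (C.ref (nat_lit 12) (nat_lit 11649935553040)) (C.cons (nat_lit 67) (C.node (nat_lit 0) (nat_lit 5) (nat_lit 6) (C.cons (nat_lit 97) (C.node (nat_lit 0) (nat_lit 1) (nat_lit 7) (C.cons (nat_lit 163) (C.ref (nat_lit 13) (nat_lit 11649936536080)) (C.cons (nat_lit 147) (C.ref (nat_lit 13) (nat_lit 11649935553040)) (C.cons (nat_lit 131) (C.node (nat_lit 0) (nat_lit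 4) (nat_lit 7) (C.cons (nat_lit 149) (C.node (nat_lit 0) (nat_lit 5) (nat_lit 7) C.nil) C.nil)) C.nil)))) C.nil)) C.nil))) C.nil))) C.nil)) C.nil))) C.nil))) C.nil))) (List.cons (C.node (nat_lit 0) (nat_lit 1) (nat_lit 3) (C.cons (nat_lit 523) (C.node (nat_lit 0) (nat_lit 2) (nat_lit 3) (C.cons (nat_lit 269) (C.node (nat_lit 0) (nat_lit 5) (nat_lit 8) (C.cons (nat_lit 289) (C.node (nat_lit 0) (nat_lit 2) (nat_lit 5) (C.cons (nat_lit 549) (C.pat (nat_lit 1) (nat_lit 646207793) (nat_lit 514044123721226375425453092490512321)) C.nil)) C.nil)) (C.cons (nat_lit 13) (C.node (nat_lit 0) (nat_lit 3) (nat_lit 8) C.nil) C.nil))) (C.cons (nat_lit 11) (C.node (nat_lit 0) (nat_lit 1) (nat_lit 9) C.nil) C.nil))) (List.cons (C.node (nat_lit 0) (nat_lit 5) (nat_lit 7) (C.cons (nat_lit 165) (C.node (nat_lit 0) (nat_lit 5) (nat_lit 8) (C.cons (nat_lit 289) (C.node (nat_lit 0) (nat_lit 5) (nat_lit 9) (C.cons (nat_lit 545) (C.ref (nat_lit 9) (nat_lit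 11649935429920)) C.nil)) C.nil)) (C.cons (nat_lit 161) (C.node (nat_lit 0) (nat_lit 5) (nat_lit 8) (C.cons (nat_lit 293) (C.node (nat_lit 0) (nat_lit 5) (nat_lit 9) (C.cons (nat_lit 545) (C.ref (nat_lit 9) (nat_lit 11645908898080)) C.nil)) (C.cons (nat_lit 289) (C.node (nat_lit 0) (nat_lit 2) (nat_lit 5) (C.cons (nat_lit 549) (C.ref (nat_lit 9) (nat_lit 11577457856800)) (C.cons (nat_lit 37) (C.node (nat_lit 0) (nat_lit 5) (nat_lit 9) (C.cons (nat_lit 545) (C.node (nat_lit 0) (nat_lit 2) (nat_lit 7) (C.cons (nat_lit 149) (C.ref (nat_lit 13) (nat_lit 11649935429920)) (C.cons (nat_lit 141) (C.ref (nat_lit 13) (nat_lit 11649934446880)) (C.cons (nat_lit 133) (C.node (nat_lit 0) (nat_lit 3) (nat_lit 7) (C.cons (nat_lit 139) (C.node (nat_lit 0) (nat_lit 4) (nat_lit 7) C.nil) C.nil)) C.nil)))) C.nil)) C.nil))) C.nil))) C.nil))) (List.cons (C.node (nat_lit 0) (nat_lit 2) (nat_lit 6) (C.cons (nat_lit 85) (C.node (nat_lit 0) (nat_lit 4)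 (nat_lit 7) (C.cons (nat_lit 147) (C.node (nat_lit 0) (nat_lit 4) (nat_lit 8) (C.cons (nat_lit 273) (C.node (nat_lit 0) (nat_lit 4) (nat_lit 9) (C.cons (nat_lit 529) (C.ref (nat_lit 7) (nat_lit 11649934508560)) C.nil)) C.nil)) (C.cons (nat_lit 145) (C.node (nat_lit 0) (nat_lit 1) (nat_lit 7) (C.cons (nat_lit 139) (C.node (nat_lit 0) (nat_lit 1) (nat_lit 8) (C.cons (nat_lit 275)
  (C.node (nat_lit 0) (nat_lit 1) (nat_lit 9) (C.cons (nat_lit 515) (C.node (nat_lit 0) (nat_lit 4) (nat_lit 9) (C.cons (nat_lit 529) (C.ref (nat_lit 6) (nat_lit 11645907976720)) C.nil)) C.nil)) (C.cons (nat_lit 259) (C.node (nat_lit 0) (nat_lit 4) (nat_lit 8) (C.cons (nat_lit 273) (C.node (nat_lit 0) (nat_lit 1) (nat_lit 4) (C.cons (nat_lit 531) (C.ref (nat_lit 6) (nat_lit 11577456935440)) (C.cons (nat_lit 19) (C.node (nat_lit 0) (nat_lit 1) (nat_lit 9) (C.cons (nat_lit 515) (C.node (nat_lit 0) (nat_lit 4) (nat_lit 9) (C.cons (nat_lit 529) (C.ref (nat_lit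 11) (nat_lit 11649934508560)) C.nil)) C.nil)) C.nil))) C.nil)) C.nil))) (C.cons (nat_lit 131) (C.node (nat_lit 0) (nat_lit 3) (nat_lit 7) (C.cons (nat_lit 141) (C.node (nat_lit 0) (nat_lit 5) (nat_lit 7) (C.cons (nat_lit 161) (C.node (nat_lit 0) (nat_lit 2) (nat_lit 8) (C.cons (nat_lit 293) (C.node (nat_lit 0) (nat_lit 2) (nat_lit 9) (C.cons (nat_lit 517) (C.node (nat_lit 0) (nat_lit 5) (nat_lit 9) (C.cons (nat_lit 545) (C.ref (nat_lit 5) (nat_lit 11645907915040)) C.nil)) C.nil)) (C.cons (nat_lit 261) (C.node (nat_lit 0) (nat_lit 5) (nat_lit 8) (C.cons (nat_lit 289) (C.node (nat_lit 0) (nat_lit 2) (nat_lit 5) (C.cons (nat_lit 549) (C.ref (nat_lit 5) (nat_lit 11577456873760)) (C.cons (nat_lit 37) (C.node (nat_lit 0) (nat_lit 2) (nat_lit 9) (C.cons (nat_lit 517) (C.node (nat_lit 0) (nat_lit 5) (nat_lit 9) C.nil) C.nil)) C.nil))) C.nil)) C.nil))) C.nil)) (C.cons (nat_lit 137) (C.node (nat_lit 0) (nat_lit 2) (nat_lit 7) (C.cons (nat_lit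 165) (C.node (nat_lit 0) (nat_lit 5) (nat_lit 8) (C.cons (nat_lit 289) (C.node (nat_lit 0) (nat_lit 5) (nat_lit 9) (C.cons (nat_lit 545) (C.ref (nat_lit 8) (nat_lit 11649682788880)) C.nil)) C.nil)) (C.cons (nat_lit 133) (C.node (nat_lit 0) (nat_lit 5) (nat_lit 7) (C.cons (nat_lit 161) (C.node (nat_lit 0) (nat_lit 4) (nat_lit 8) (C.cons (nat_lit 275) (C.node (nat_lit 0) (nat_lit 4) (nat_lit 9) (C.cons (nat_lit 529) (C.ref (nat_lit 15) (nat_lit 11649936536080)) C.nil)) (C.cons (nat_lit 273) (C.node (nat_lit 0) (nat_lit 1) (nat_lit 4) (C.cons (nat_lit 531) (C.ref (nat_lit 15) (nat_lit 11585512026640)) (C.cons (nat_lit 19) (C.node (nat_lit 0) (nat_lit 4) (nat_lit 9) C.nil) C.nil))) C.nil))) C.nil)) C.nil))) C.nil))) C.nil))) C.nil))) (C.cons (nat_lit 69) (C.node (nat_lit 0) (nat_lit 4) (nat_lit 6) (C.cons (nat_lit 81) (C.ref (nat_lit 16) (nat_lit 11649936536080)) C.nil)) C.nil))) (List.cons (C.node (nat_lit 0) (nat_lit 4) (nat_lit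 7) (C.cons (nat_lit 147) (C.node (nat_lit 0) (nat_lit 5) (nat_lit 7) (C.cons (nat_lit 161) (C.ref (nat_lit 15) (nat_lit 11649683771920)) C.nil)) (C.cons (nat_lit 145) (C.node (nat_lit 0) (nat_lit 1) (nat_lit 4) (C.cons (nat_lit 531) (C.node (nat_lit 0) (nat_lit 1) (nat_lit 5) (C.cons (nat_lit 163) (C.node (nat_lit 0) (nat_lit 2) (nat_lit 4) (C.cons (nat_lit 277) (C.node (nat_lit 0) (nat_lit 5) (nat_lit 8) (C.cons (nat_lit 289) (C.node (nat_lit 0) (nat_lit 2) (nat_lit 5) (C.cons (nat_lit 549) (C.pat (nat_lit 1) (nat_lit 662919489) (nat_lit 846355559434884735899644896797591489)) C.nil)) C.nil)) (C.cons (nat_lit 21) (C.node (nat_lit 0) (nat_lit 4) (nat_lit 8) C.nil) C.nil))) (C.cons (nat_lit 35) (C.node (nat_lit 0) (nat_lit 1) (nat_lit 7) C.nil) C.nil))) (C.cons (nat_lit 19) (C.node (nat_lit 0) (nat_lit 1) (nat_lit 7) (C.cons (nat_lit 163) (C.node (nat_lit 0) (nat_lit 1) (nat_lit 9) C.nil) C.nil)) C.nil))) C.nil))) (List.cons (C.node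 (nat_lit 0) (nat_lit 1) (nat_lit 3) (C.cons (nat_lit 523) (C.ref (nat_lit 18) (nat_lit 11585512026640)) (C.cons (nat_lit 11) (C.node (nat_lit 0) (nat_lit 3) (nat_lit 9) (C.cons (nat_lit 521) (C.node (nat_lit 0) (nat_lit 4) (nat_lit 7) (C.cons (nat_lit 147) (C.node (nat_lit 0) (nat_lit 5) (nat_lit 7) C.nil) C.nil)) C.nil)) C.nil))) (List.cons (C.node (nat_lit 0) (nat_lit 4) (nat_lit 7) (C.cons (nat_lit 149) (C.node (nat_lit 0) (nat_lit 4) (nat_lit 8) (C.cons (nat_lit 273) (C.node (nat_lit 0) (nat_lit 4) (nat_lit 9) (C.cons (nat_lit 529) (C.node (nat_lit 0) (nat_lit 5) (nat_lit 7)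
  (C.cons (nat_lit 161) (C.node (nat_lit 0) (nat_lit 1) (nat_lit 8) (C.cons (nat_lit 291) (C.node (nat_lit 0) (nat_lit 2) (nat_lit 8) C.nil) (C.cons (nat_lit 263) (C.node (nat_lit 0) (nat_lit 5) (nat_lit 8) C.nil) C.nil))) C.nil)) C.nil)) C.nil)) (C.cons (nat_lit 145) (C.node (nat_lit 0) (nat_lit 2) (nat_lit 7) (C.cons (nat_lit 165) (C.node (nat_lit 0) (nat_lit 4) (nat_lit 8) (C.cons (nat_lit 277) (C.node (nat_lit 0) (nat_lit 4) (nat_lit 9) (C.cons (nat_lit 529) (C.node (nat_lit 0) (nat_lit 1) (nat_lit 2) (C.cons (nat_lit 519) (C.node (nat_lit 0) (nat_lit 5) (nat_lit 9) (C.cons (nat_lit 545) (C.node (nat_lit 0) (nat_lit 1) (nat_lit 5) (C.cons (nat_lit 291) (C.pat (nat_lit 1) (nat_lit 677664561) (nat_lit 1510980332134995177886348397331941313)) C.nil)) C.nil)) (C.cons (nat_lit 7) (C.node (nat_lit 0) (nat_lit 2) (nat_lit 9) C.nil) C.nil))) C.nil)) (C.cons (nat_lit 273) (C.node (nat_lit 0) (nat_lit 2) (nat_lit 4) (C.cons (nat_lit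 533) (C.node (nat_lit 0) (nat_lit 1) (nat_lit 2) (C.cons (nat_lit 263) (C.node (nat_lit 0) (nat_lit 5) (nat_lit 8) (C.cons (nat_lit 289) (C.node (nat_lit 0) (nat_lit 1) (nat_lit 5) (C.cons (nat_lit 547) (C.pat (nat_lit 1) (nat_lit 694441777) (nat_lit 2840228610329514702460579404863571905)) C.nil)) C.nil)) (C.cons (nat_lit 7) (C.node (nat_lit 0) (nat_lit 2) (nat_lit 8) C.nil) C.nil))) (C.cons (nat_lit 21) (C.node (nat_lit 0) (nat_lit 4) (nat_lit 9) C.nil) C.nil))) C.nil))) (C.cons (nat_lit 133) (C.node (nat_lit 0) (nat_lit 5) (nat_lit 7) (C.cons (nat_lit 161) (C.node (nat_lit 0) (nat_lit 4) (nat_lit 8) (C.cons (nat_lit 277) (C.node (nat_lit 0) (nat_lit 4) (nat_lit 9) C.nil) C.nil)) C.nil)) C.nil))) C.nil))) List.nil)))))))))))))))))))))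

theorem ok11_0 : okL par11 (nat_lit 21) c11_0 (nat_lit 0) = true := by decide +kernel

noncomputable def c11_21 : List C :=
  (List.cons (C.node (nat_lit 0) (nat_lit 4) (nat_lit 6) (C.cons (nat_lit 83) (C.node (nat_lit 0) (nat_lit 5) (nat_lit 6) (C.cons (nat_lit 97) (C.ref (nat_lit 20) (nat_lit 11649936536080)) C.nil)) (C.cons (nat_lit 81) (C.node (nat_lit 0) (nat_lit 1) (nat_lit 6) (C.cons (nat_lit 99) (C.ref (nat_lit 20) (nat_lit 11649935553040)) (C.cons (nat_lit 67) (C.node (nat_lit 0) (nat_lit 5) (nat_lit 6) (C.cons (nat_lit 97) (C.node (nat_lit 0) (nat_lit 4) (nat_lit 7) (C.cons (nat_lit 149) (C.node (nat_lit 0) (nat_lit 5) (nat_lit 7) (C.cons (nat_lit 161) (C.node (nat_lit 0) (nat_lit 4) (nat_lit 8) (C.cons (nat_lit 275) (C.node (nat_lit 0) (nat_lit 4) (nat_lit 9) C.nil) C.nil)) C.nil)) (C.cons (nat_lit 145) (C.node (nat_lit 0) (nat_lit 2) (nat_lit 7) (C.cons (nat_lit 165) (C.node (nat_lit 0) (nat_lit 5) (nat_lit 8) (C.cons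 (nat_lit 291) (C.node (nat_lit 0) (nat_lit 5) (nat_lit 9) C.nil) C.nil)) C.nil)) C.nil))) C.nil)) C.nil))) C.nil))) (List.cons (C.node (nat_lit 0) (nat_lit 4) (nat_lit 6) (C.cons (nat_lit 83) (C.node (nat_lit 0) (nat_lit 5) (nat_lit 6) (C.cons (nat_lit 97) (C.node (nat_lit 0) (nat_lit 4) (nat_lit 7) (C.cons (nat_lit 149) (C.node (nat_lit 0) (nat_lit 4) (nat_lit 8) (C.cons (nat_lit 273) (C.node (nat_lit 0) (nat_lit 4) (nat_lit 9) C.nil) C.nil)) (C.cons (nat_lit 145) (C.node (nat_lit 0) (nat_lit 4) (nat_lit 8) (C.cons (nat_lit 277) (C.node (nat_lit 0) (nat_lit 4) (nat_lit 9) C.nil) C.nil)) C.nil))) C.nil)) (C.cons (nat_lit 81) (C.node (nat_lit 0) (nat_lit 1) (nat_lit 6) (C.cons (nat_lit 99) (C.node (nat_lit 0) (nat_lit 5) (nat_lit 7) (C.cons (nat_lit 165) (C.node (nat_lit 0) (nat_lit 5) (nat_lit 8) (C.cons (nat_lit 289) (C.node (nat_lit 0) (nat_lit 5) (nat_lit 9) C.nil) C.nil)) (C.cons (nat_lit 161) (C.node (nat_lit 0) (nat_lit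 5) (nat_lit 8) (C.cons (nat_lit 293) (C.node (nat_lit 0) (nat_lit 5) (nat_lit 9) C.nil) C.nil)) C.nil))) (C.cons (nat_lit 67) (C.node (nat_lit 0) (nat_lit 5) (nat_lit 6) C.nil) C.nil))) C.nil))) (List.cons (C.node (nat_lit 0) (nat_lit 1) (nat_lit 3) (C.cons (nat_lit 523) (C.ref (nat_lit 21) (nat_lit 11577458962960)) (C.cons (nat_lit 11) (C.node (nat_lit 0) (nat_lit 3) (nat_lit 9) (C.cons (nat_lit 521) (C.ref (nat_lit 22) (nat_lit 11649936536080)) C.nil)) C.nil))) (List.cons (C.node (nat_lit 0) (nat_lit 3) (nat_lit 8) (C.cons (nat_lit 267) (C.node (nat_lit 0) (nat_lit 3) (nat_lit 9) (C.cons (nat_lit 521) (C.ref (nat_lit 21) (nat_lit 11645910004240)) C.nil)) (C.cons (nat_lit 265) (C.ref (nat_lit 23) (nat_lit 11649936536080)) C.nil))) (List.cons (C.node (nat_lit 0) (nat_lit 3) (nat_lit 7) (C.cons (nat_lit 139) (C.node (nat_lit 0) (nat_lit 3) (nat_lit 8) (C.cons (nat_lit 265) (C.node (nat_lit 0) (nat_lit 3) (nat_lit 9) (C.cons (nat_lit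 521) (C.ref (nat_lit 21) (nat_lit 11649936536080)) C.nil)) C.nil)) (C.cons (nat_lit 137) (C.ref (nat_lit 24) (nat_lit 11649936536080)) C.nil))) (List.cons (C.node (nat_lit 0) (nat_lit 1) (nat_lit 7) (C.cons (nat_lit 147) (C.node (nat_lit 0) (nat_lit 1) (nat_lit 8) (C.cons (nat_lit 259) (C.node (nat_lit 0) (nat_lit 1) (nat_lit 9) (C.cons (nat_lit 515) (C.node (nat_lit 0) (nat_lit 2) (nat_lit 6) (C.cons (nat_lit 85) (C.node (nat_lit 0) (nat_lit 4) (nat_lit 8) C.nil) C.nil)) C.nil)) C.nil)) (C.cons (nat_lit 131) (C.node (nat_lit 0) (nat_lit 1) (nat_lit 8) (C.cons (nat_lit 275) (C.node (nat_lit 0) (nat_lit 1) (nat_lit 9) (C.cons (nat_lit 515) (C.node (nat_lit 0) (nat_lit 2) (nat_lit 6) (C.cons (nat_lit 85) (C.node (nat_lit 0) (nat_lit 4) (nat_lit 7) C.nil) C.nil)) C.nil)) (C.cons (nat_lit 259) (C.node (nat_lit 0) (nat_lit 1) (nat_lit 4) (C.cons (nat_lit 531) (C.node (nat_lit 0) (nat_lit 2) (nat_lit 6) (C.cons (nat_lit 85) (C.node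 (nat_lit 0) (nat_lit 4) (nat_lit 7) C.nil) C.nil)) C.nil)) C.nil))) C.nil))) (List.cons (C.big (C.cons (nat_lit 551) (C.ref (nat_lit 3) (nat_lit 11649936536080)) (C.cons (nat_lit 535) (C.ref (nat_lit 3) (nat_lit 11649935553040)) (C.cons (nat_lit 527) (C.ref (nat_lit 3) (nat_lit 11649934508560)) (C.cons (nat_lit 295)
  (C.ref (nat_lit 3) (nat_lit 11585512026640)) (C.cons (nat_lit 279) (C.ref (nat_lit 3) (nat_lit 11585511043600)) (C.cons (nat_lit 271) (C.ref (nat_lit 3) (nat_lit 11585509999120)) (C.cons (nat_lit 167) (C.ref (nat_lit 3) (nat_lit 11517060985360)) (C.cons (nat_lit 151) (C.ref (nat_lit 3) (nat_lit 11517060002320)) (C.cons (nat_lit 143) (C.ref (nat_lit 3) (nat_lit 11517058957840)) (C.cons (nat_lit 103) (C.ref (nat_lit 3) (nat_lit 11448358285840)) (C.cons (nat_lit 87) (C.ref (nat_lit 3) (nat_lit 11448357302800)) (C.cons (nat_lit 79) (C.ref (nat_lit 3) (nat_lit 11448356258320)) C.nil)))))))))))) (C.node (nat_lit 0) (nat_lit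 1) (nat_lit 10) (C.cons (nat_lit 1031) (C.node (nat_lit 0) (nat_lit 3) (nat_lit 6) (C.cons (nat_lit 77) (C.ref (nat_lit 14) (nat_lit 11649936536080)) (C.cons (nat_lit 75) (C.ref (nat_lit 14) (nat_lit 11649936535840)) (C.cons (nat_lit 73) (C.node (nat_lit 0) (nat_lit 1) (nat_lit 6) (C.cons (nat_lit 99) (C.ref (nat_lit 17) (nat_lit 11649936536080)) (C.cons (nat_lit 83) (C.ref (nat_lit 17) (nat_lit 11649935553040)) (C.cons (nat_lit 67) (C.node (nat_lit 0) (nat_lit 4) (nat_lit 6) (C.cons (nat_lit 85) (C.node (nat_lit 0) (nat_lit 5) (nat_lit 6) (C.cons (nat_lit 97) (C.ref (nat_lit 16) (nat_lit 11649935552800)) C.nil)) (C.cons (nat_lit 81) (C.node (nat_lit 0) (nat_lit 2) (nat_lit 6) (C.cons (nat_lit 101) (C.ref (nat_lit 16) (nat_lit 11649936535840)) (C.cons (nat_lit 69) (C.node (nat_lit 0) (nat_lit 5) (nat_lit 6) (C.cons (nat_lit 97) (C.node (nat_lit 0) (nat_lit 3) (nat_lit 7) (C.cons (nat_lit 141) (C.node (nat_lit 0) (nat_lit 3) (nat_lit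 8) (C.cons (nat_lit 267) (C.node (nat_lit 0) (nat_lit 3) (nat_lit 9) (C.cons (nat_lit 521) (C.ref (nat_lit 18) (nat_lit 11649936536080)) C.nil)) (C.cons (nat_lit 265) (C.ref (nat_lit 19) (nat_lit 11649936536080)) C.nil))) (C.cons (nat_lit 139) (C.node (nat_lit 0) (nat_lit 3) (nat_lit 8) (C.cons (nat_lit 269) (C.node (nat_lit 0) (nat_lit 3) (nat_lit 9) (C.cons (nat_lit 521) (C.ref (nat_lit 18) (nat_lit 11649936535840)) C.nil)) (C.cons (nat_lit 265) (C.ref (nat_lit 19) (nat_lit 11649936535840)) C.nil))) (C.cons (nat_lit 137) (C.node (nat_lit 0) (nat_lit 1) (nat_lit 3) (C.cons (nat_lit 523) (C.ref (nat_lit 19) (nat_lit 11577458962720)) (C.cons (nat_lit 267) (C.ref (nat_lit 19) (nat_lit 11645910004000)) (C.cons (nat_lit 11) (C.node (nat_lit 0) (nat_lit 3) (nat_lit 8) (C.cons (nat_lit 269) (C.node (nat_lit 0) (nat_lit 3) (nat_lit 9) (C.cons (nat_lit 521) (C.node (nat_lit 0) (nat_lit 4) (nat_lit 8) (C.cons (nat_lit 275) (C.node (nat_lit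 0) (nat_lit 5) (nat_lit 8) C.nil) C.nil)) C.nil)) (C.cons (nat_lit 265) (C.node (nat_lit 0) (nat_lit 2) (nat_lit 3) (C.cons (nat_lit 525) (C.node (nat_lit 0) (nat_lit 4) (nat_lit 9) (C.cons (nat_lit 531) (C.node (nat_lit 0) (nat_lit 5) (nat_lit 9) C.nil) C.nil)) C.nil)) C.nil))) C.nil)))) C.nil)))) C.nil)) C.nil))) C.nil))) C.nil)))) C.nil)))) (C.cons (nat_lit 1027) (C.node (nat_lit 0) (nat_lit 2) (nat_lit 10) (C.cons (nat_lit 1029) (C.node (nat_lit 0) (nat_lit 3) (nat_lit 6) (C.cons (nat_lit 77) (C.ref (nat_lit 25) (nat_lit 11649936536080)) (C.cons (nat_lit 75) (C.ref (nat_lit 25) (nat_lit 11649936535840)) (C.cons (nat_lit 73) (C.node (nat_lit 0) (nat_lit 3) (nat_lit 7) (C.cons (nat_lit 141) (C.ref (nat_lit 24) (nat_lit 11649684877840)) (C.cons (nat_lit 139) (C.ref (nat_lit 24) (nat_lit 11649684877600)) (C.cons (nat_lit 137) (C.node (nat_lit 0) (nat_lit 3) (nat_lit 8) (C.cons (nat_lit 269) (C.ref (nat_lit 23) (nat_lit 11645406687760))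 (C.cons (nat_lit 267) (C.ref (nat_lit 23) (nat_lit 11645406687520)) (C.cons (nat_lit 265) (C.node (nat_lit 0) (nat_lit 1) (nat_lit 3) (C.cons (nat_lit 523) (C.node (nat_lit 0) (nat_lit 2) (nat_lit 3) (C.cons (nat_lit 13) (C.ref (nat_lit 22) (nat_lit 11576703988000)) C.nil)) (C.cons (nat_lit 15) (C.node (nat_lit 0) (nat_lit 3) (nat_lit 9) (C.cons (nat_lit 521) (C.node (nat_lit 0) (nat_lit 1) (nat_lit 6) (C.cons (nat_lit 99) (C.ref (nat_lit 26) (nat_lit 11649936536080)) (C.cons (nat_lit 83)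
  (C.ref (nat_lit 26) (nat_lit 11649935553040)) (C.cons (nat_lit 67) (C.node (nat_lit 0) (nat_lit 4) (nat_lit 6) (C.cons (nat_lit 85) (C.node (nat_lit 0) (nat_lit 5) (nat_lit 6) (C.cons (nat_lit 97) (C.node (nat_lit 0) (nat_lit 2) (nat_lit 7) (C.cons (nat_lit 165) (C.node (nat_lit 0) (nat_lit 2) (nat_lit 8) C.nil) C.nil)) C.nil)) (C.cons (nat_lit 81) (C.node (nat_lit 0) (nat_lit 2) (nat_lit 6) (C.cons (nat_lit 101) (C.node (nat_lit 0) (nat_lit 2) (nat_lit 7) (C.cons (nat_lit 149) (C.node (nat_lit 0) (nat_lit 2) (nat_lit 8) C.nil) C.nil)) C.nil)) C.nil))) C.nil)))) C.nil)) (C.cons (nat_lit 11) (C.node (nat_lit 0) (nat_lit 2) (nat_lit 3) (C.cons (nat_lit 525) (C.ref (nat_lit 22) (nat_lit 11576703988240)) (C.cons (nat_lit 13) (C.node (nat_lit 0) (nat_lit 3) (nat_lit 9) (C.cons (nat_lit 521) (C.node (nat_lit 0) (nat_lit 4) (nat_lit 6) (C.cons (nat_lit 85) (C.node (nat_lit 0) (nat_lit 1) (nat_lit 6) (C.cons (nat_lit 99) (C.node (nat_lit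 0) (nat_lit 4) (nat_lit 7) (C.cons (nat_lit 147) (C.node (nat_lit 0) (nat_lit 4) (nat_lit 8) C.nil) C.nil)) C.nil)) (C.cons (nat_lit 83) (C.node (nat_lit 0) (nat_lit 2) (nat_lit 6) (C.cons (nat_lit 101) (C.node (nat_lit 0) (nat_lit 4) (nat_lit 7) (C.cons (nat_lit 149) (C.node (nat_lit 0) (nat_lit 4) (nat_lit 8) C.nil) C.nil)) C.nil)) C.nil))) C.nil)) C.nil))) C.nil)))) C.nil)))) C.nil)))) C.nil)))) C.nil)) C.nil)))) (List.cons (C.node (nat_lit 0) (nat_lit 3) (nat_lit 6) (C.cons (nat_lit 73) (C.node (nat_lit 0) (nat_lit 4) (nat_lit 6) (C.cons (nat_lit 81) (C.node (nat_lit 0) (nat_lit 5) (nat_lit 6) (C.cons (nat_lit 97) (C.node (nat_lit 0) (nat_lit 3) (nat_lit 7) (C.cons (nat_lit 139) (C.node (nat_lit 0) (nat_lit 3) (nat_lit 8) (C.cons (nat_lit 265) (C.node (nat_lit 0) (nat_lit 3) (nat_lit 9) C.nil) C.nil)) (C.cons (nat_lit 137) (C.node (nat_lit 0) (nat_lit 3) (nat_lit 8) (C.cons (nat_lit 267) (C.node (nat_lit 0) (nat_lit 3) (nat_lit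 9) C.nil) C.nil)) C.nil))) C.nil)) C.nil)) C.nil)) (List.cons (C.node (nat_lit 0) (nat_lit 2) (nat_lit 8) (C.cons (nat_lit 261) (C.node (nat_lit 0) (nat_lit 2) (nat_lit 9) (C.cons (nat_lit 517) (C.node (nat_lit 0) (nat_lit 2) (nat_lit 10) (C.cons (nat_lit 1029) (C.ref (nat_lit 28) (nat_lit 11649936536080)) C.nil)) C.nil)) C.nil)) (List.cons (C.big C.nil (C.node (nat_lit 0) (nat_lit 2) (nat_lit 6) (C.cons (nat_lit 71) (C.node (nat_lit 0) (nat_lit 2) (nat_lit 7) (C.cons (nat_lit 133) (C.ref (nat_lit 29) (nat_lit 11649936536080)) C.nil)) (C.cons (nat_lit 69) (C.node (nat_lit 0) (nat_lit 2) (nat_lit 7) (C.cons (nat_lit 135) (C.ref (nat_lit 29) (nat_lit 11649684877840)) (C.cons (nat_lit 133) (C.node (nat_lit 0) (nat_lit 2) (nat_lit 8) (C.cons (nat_lit 263) (C.node (nat_lit 0) (nat_lit 2) (nat_lit 9) (C.cons (nat_lit 517) (C.node (nat_lit 0) (nat_lit 2) (nat_lit 10) (C.cons (nat_lit 1029) (C.ref (nat_lit 28) (nat_lit 11645406687760))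 C.nil)) C.nil)) (C.cons (nat_lit 261) (C.node (nat_lit 0) (nat_lit 2) (nat_lit 9) (C.cons (nat_lit 519) (C.node (nat_lit 0) (nat_lit 2) (nat_lit 10) (C.cons (nat_lit 1029) (C.ref (nat_lit 28) (nat_lit 11576703988240)) C.nil)) (C.cons (nat_lit 517) (C.node (nat_lit 0) (nat_lit 1) (nat_lit 2) (C.cons (nat_lit 1031) (C.ref (nat_lit 28) (nat_lit 10477209137680)) (C.cons (nat_lit 7) (C.node (nat_lit 0) (nat_lit 2) (nat_lit 10) (C.cons (nat_lit 1029) (C.node (nat_lit 0) (nat_lit 3) (nat_lit 6) (C.cons (nat_lit 75) (C.node (nat_lit 0) (nat_lit 3) (nat_lit 7) (C.cons (nat_lit 137) (C.node (nat_lit 0) (nat_lit 3) (nat_lit 8) (C.cons (nat_lit 265) (C.node (nat_lit 0) (nat_lit 3) (nat_lit 9) C.nil) C.nil)) C.nil)) (C.cons (nat_lit 73) (C.node (nat_lit 0) (nat_lit 3) (nat_lit 7) (C.cons (nat_lit 139) (C.node (nat_lit 0) (nat_lit 3) (nat_lit 8) (C.cons (nat_lit 265) (C.node (nat_lit 0) (nat_lit 3) (nat_lit 9) C.nil) C.nil)) (C.cons (nat_lit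 137) (C.node (nat_lit 0) (nat_lit 3) (nat_lit 8) (C.cons (nat_lit 267) (C.node (nat_lit 0) (nat_lit 3) (nat_lit 9) C.nil) C.nil)) C.nil))) C.nil))) C.nil)) C.nil))) C.nil))) C.nil))) C.nil))) C.nil)))) (List.cons
  (C.node (nat_lit 0) (nat_lit 2) (nat_lit 3) (C.cons (nat_lit 1037) (C.node (nat_lit 0) (nat_lit 3) (nat_lit 7) (C.cons (nat_lit 169) (C.node (nat_lit 0) (nat_lit 3) (nat_lit 4) (C.cons (nat_lit 537) (C.node (nat_lit 0) (nat_lit 5) (nat_lit 9) (C.cons (nat_lit 545) (C.node (nat_lit 0) (nat_lit 4) (nat_lit 5) (C.cons (nat_lit 1073) (C.qs (C.cons (nat_lit 6272) (C.pat (nat_lit 0) (nat_lit 192305201) (nat_lit 157268256807426517096816158376203)) (C.cons (nat_lit 4480) (C.pat (nat_lit 2) (nat_lit 39111205986) (nat_lit 11975525012737924513707239267082302950905021443)) (C.cons (nat_lit 4672) (C.pat (nat_lit 2) (nat_lit 31326373217) (nat_lit 3768850779605963040659638354523682829483835665)) (C.cons (nat_lit 4416) (C.pat (nat_lit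 3) (nat_lit 13340330630) (nat_lit 23126222242253450477952114831154918061608601537)) (C.cons (nat_lit 4384) (C.pat (nat_lit 3) (nat_lit 5464275574) (nat_lit 22903230442633934310132372117982509754529417153)) (C.cons (nat_lit 16480) (C.pat (nat_lit 2) (nat_lit 39279363185) (nat_lit 11975557680021687016022775234668340483479240997)) (C.cons (nat_lit 4192) (C.pat (nat_lit 3) (nat_lit 11615279222) (nat_lit 6534211240946230868737873845953818626198013889)) (C.cons (nat_lit 352) (C.pat (nat_lit 3) (nat_lit 22066961031) (nat_lit 23929052472359220254135079857415658786690107329)) (C.cons (nat_lit 4448) (C.pat (nat_lit 3) (nat_lit 11615279222) (nat_lit 6534211240946230868737873845953818626198013889)) (C.cons (nat_lit 16464) (C.pat (nat_lit 0) (nat_lit 195581506) (nat_lit 157268022279507115130699655741525)) (C.cons (nat_lit 8456) (C.pat (nat_lit 0) (nat_lit 195450689) (nat_lit 157268106900846500268841527083155)) (C.cons (nat_lit 584) (C.pat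 (nat_lit 0) (nat_lit 194463793) (nat_lit 157268232630681115819697941709067)) (C.cons (nat_lit 328) (C.pat (nat_lit 2) (nat_lit 39815192963) (nat_lit 11574186462188555556951008032256791281723442225)) (C.cons (nat_lit 388) (C.pat (nat_lit 0) (nat_lit 195574049) (nat_lit 157268551789385031086610255118855)) (C.cons (nat_lit 16420) (C.pat (nat_lit 0) (nat_lit 191318305) (nat_lit 157268551786433284066653160800775)) (C.cons (nat_lit 292) (C.pat (nat_lit 2) (nat_lit 34815124851) (nat_lit 6534163601487697972689998888691185792856949763)) (C.cons (nat_lit 6146) (C.pat (nat_lit 2) (nat_lit 35235009889) (nat_lit 6534147267549855799473862569332470669660848665)) (C.cons (nat_lit 9218) (C.pat (nat_lit 0) (nat_lit 193354017) (nat_lit 157268561456954455815665207149063)) (C.cons (nat_lit 8450) (C.pat (nat_lit 2) (nat_lit 35772932498) (nat_lit 5954481702468671979790560704884714652050064433)) (C.cons (nat_lit 4354) (C.pat (nat_lit 3) (nat_lit 18024700566)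 (nat_lit 23929052473626162237677786327232787754036430785)) (C.cons (nat_lit 4162) (C.pat (nat_lit 3) (nat_lit 48374094214) (nat_lit 12154088866247746412950908338478496547044788161)) (C.cons (nat_lit 322) (C.pat (nat_lit 3) (nat_lit 48655121048) (nat_lit 22903230444700499041899970808622755065952405441)) (C.cons (nat_lit 4418) (C.pat (nat_lit 3) (nat_lit 48374094214) (nat_lit 12154088866247746412950908338478496547044788161)) (C.cons (nat_lit 4130) (C.pat (nat_lit 3) (nat_lit 14415898998) (nat_lit 11975685626378426354726978671470003016535705537)) (C.cons (nat_lit 1058) (C.pat (nat_lit 2) (nat_lit 27298862193) (nat_lit 1895608600307558889490348357365551429502304801)) (C.cons (nat_lit 290) (C.pat (nat_lit 3) (nat_lit 9046350487) (nat_lit 23126222243561928617974549891574252715060561857)) (C.cons (nat_lit 4386) (C.pat (nat_lit 3) (nat_lit 14415898998) (nat_lit 11975685626378426354726978671470003016535705537)) (C.cons (nat_lit 98) (C.pat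 (nat_lit 3) (nat_lit 10117925255) (nat_lit 11574272213448729456038919327534747723261740993)) (C.cons (nat_lit 4194) (C.pat (nat_lit 3) (nat_lit 11615279222) (nat_lit 6534211240946230868737873845953818626198013889)) (C.cons (nat_lit 354) (C.pat (nat_lit 3) (nat_lit 10117925255) (nat_lit 11574272213448729456038919327534747723261740993)) (C.cons (nat_lit 4450)
  (C.pat (nat_lit 3) (nat_lit 11615279222) (nat_lit 6534211240946230868737873845953818626198013889)) (C.cons (nat_lit 2066) (C.pat (nat_lit 0) (nat_lit 195516739) (nat_lit 157268561458098373502024163066393)) (C.cons (nat_lit 82) (C.pat (nat_lit 2) (nat_lit 26895684994) (nat_lit 2207864631464153892523245727266431699305955865)) (C.cons (nat_lit 4609) (C.pat (nat_lit 0) (nat_lit 194398770) (nat_lit 157269199769565920091961585632269)) (C.cons (nat_lit 4129) (C.pat (nat_lit 2) (nat_lit 39545696868) (nat_lit 11574120446370913522101350929395821327072690345)) (C.cons (nat_lit 1057)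 (C.pat (nat_lit 0) (nat_lit 192436786) (nat_lit 157269199773144484857811965379597)) C.nil))))))))))))))))))))))))))))))))))))) C.nil)) C.nil)) (C.cons (nat_lit 25) (C.node (nat_lit 0) (nat_lit 3) (nat_lit 9) C.nil) C.nil))) (C.cons (nat_lit 137) (C.node (nat_lit 0) (nat_lit 5) (nat_lit 7) C.nil) C.nil))) (C.cons (nat_lit 13) (C.node (nat_lit 0) (nat_lit 2) (nat_lit 10) C.nil) C.nil))) (List.cons (C.node (nat_lit 0) (nat_lit 2) (nat_lit 7) (C.cons (nat_lit 141) (C.node (nat_lit 0) (nat_lit 2) (nat_lit 10) (C.cons (nat_lit 1029) (C.node (nat_lit 0) (nat_lit 5) (nat_lit 7) (C.cons (nat_lit 161) (C.node (nat_lit 0) (nat_lit 3) (nat_lit 9) (C.cons (nat_lit 553) (C.node (nat_lit 0) (nat_lit 4) (nat_lit 9) C.nil) (C.cons (nat_lit 537) (C.node (nat_lit 0) (nat_lit 5) (nat_lit 9) C.nil) C.nil))) C.nil)) C.nil)) (C.cons (nat_lit 133) (C.ref (nat_lit 31) (nat_lit 11649936536080)) C.nil))) (List.cons (C.node (nat_lit 0) (nat_lit 2) (nat_lit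 7) (C.cons (nat_lit 165) (C.node (nat_lit 0) (nat_lit 3) (nat_lit 7) C.nil) (C.cons (nat_lit 141) (C.node (nat_lit 0) (nat_lit 5) (nat_lit 7) C.nil) C.nil))) (List.cons (C.node (nat_lit 0) (nat_lit 2) (nat_lit 8) (C.cons (nat_lit 293) (C.node (nat_lit 0) (nat_lit 4) (nat_lit 8) (C.cons (nat_lit 273) (C.ref (nat_lit 32) (nat_lit 11649936536080)) C.nil)) (C.cons (nat_lit 261) (C.node (nat_lit 0) (nat_lit 4) (nat_lit 8) (C.cons (nat_lit 305) (C.ref (nat_lit 32) (nat_lit 11513034322960)) (C.cons (nat_lit 273) (C.node (nat_lit 0) (nat_lit 5) (nat_lit 8) (C.cons (nat_lit 289) (C.ref (nat_lit 33) (nat_lit 11649936536080)) C.nil)) C.nil))) C.nil))) (List.cons (C.node (nat_lit 0) (nat_lit 2) (nat_lit 8) (C.cons (nat_lit 293) (C.node (nat_lit 0) (nat_lit 4) (nat_lit 8) (C.cons (nat_lit 273) (C.node (nat_lit 0) (nat_lit 2) (nat_lit 7) (C.cons (nat_lit 141) (C.node (nat_lit 0) (nat_lit 2) (nat_lit 9) C.nil) C.nil)) C.nil)) (C.cons (nat_lit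 261) (C.node (nat_lit 0) (nat_lit 4) (nat_lit 8) (C.cons (nat_lit 305) (C.node (nat_lit 0) (nat_lit 4) (nat_lit 9) (C.cons (nat_lit 537) (C.node (nat_lit 0) (nat_lit 4) (nat_lit 10) C.nil) C.nil)) C.nil)) C.nil))) (List.cons (C.node (nat_lit 0) (nat_lit 2) (nat_lit 7) (C.cons (nat_lit 165) (C.node (nat_lit 0) (nat_lit 3) (nat_lit 7) (C.cons (nat_lit 137) (C.node (nat_lit 0) (nat_lit 2) (nat_lit 9) (C.cons (nat_lit 525) (C.node (nat_lit 0) (nat_lit 2) (nat_lit 10) C.nil) C.nil)) C.nil)) (C.cons (nat_lit 141) (C.node (nat_lit 0) (nat_lit 5) (nat_lit 7) (C.cons (nat_lit 161) (C.node (nat_lit 0) (nat_lit 2) (nat_lit 9) (C.cons (nat_lit 549) (C.node (nat_lit 0) (nat_lit 2) (nat_lit 10) C.nil) C.nil)) C.nil)) (C.cons (nat_lit 133) (C.node (nat_lit 0) (nat_lit 3) (nat_lit 7) (C.cons (nat_lit 169) (C.node (nat_lit 0) (nat_lit 3) (nat_lit 8) (C.cons (nat_lit 281) (C.node (nat_lit 0) (nat_lit 5) (nat_lit 8) C.nil) C.nil)) C.nil)) C.nil))))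 (List.cons (C.node (nat_lit 0) (nat_lit 1) (nat_lit 8) (C.cons (nat_lit 267) (C.node (nat_lit 0) (nat_lit 1) (nat_lit 9) (C.cons (nat_lit 519) (C.node (nat_lit 0) (nat_lit 1) (nat_lit 10) (C.cons (nat_lit 1027) (C.ref (nat_lit 34) (nat_lit 11649936536080)) C.nil)) (C.cons (nat_lit 515) (C.node (nat_lit 0) (nat_lit 1) (nat_lit 2) (C.cons (nat_lit 1031) (C.ref (nat_lit 34) (nat_lit 10619144385040)) (C.cons (nat_lit 7) (C.node (nat_lit 0) (nat_lit 1) (nat_lit 10) (C.cons (nat_lit 1027) (C.ref (nat_lit 35) (nat_lit 11649936536080)) C.nil)) C.nil))) C.nil))) (C.cons (nat_lit 263)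
  (C.node (nat_lit 0) (nat_lit 1) (nat_lit 9) (C.cons (nat_lit 523) (C.node (nat_lit 0) (nat_lit 1) (nat_lit 10) (C.cons (nat_lit 1027) (C.ref (nat_lit 34) (nat_lit 11585512026640)) C.nil)) (C.cons (nat_lit 515) (C.node (nat_lit 0) (nat_lit 1) (nat_lit 3) (C.cons (nat_lit 1035) (C.ref (nat_lit 34) (nat_lit 10490295366160)) (C.cons (nat_lit 11) (C.node (nat_lit 0) (nat_lit 1) (nat_lit 10) (C.cons (nat_lit 1027) (C.ref (nat_lit 36) (nat_lit 11649936536080)) C.nil)) C.nil))) C.nil))) (C.cons (nat_lit 259) (C.node (nat_lit 0) (nat_lit 1) (nat_lit 9) (C.cons (nat_lit 523) (C.node (nat_lit 0) (nat_lit 1) (nat_lit 2) (C.cons (nat_lit 1031) (C.ref (nat_lit 34) (nat_lit 9523927724560)) (C.cons (nat_lit 7) (C.node (nat_lit 0) (nat_lit 1) (nat_lit 10) (C.cons (nat_lit 1027) (C.ref (nat_lit 35) (nat_lit 11585512026640)) C.nil)) C.nil))) (C.cons (nat_lit 519) (C.node (nat_lit 0) (nat_lit 1) (nat_lit 3) (C.cons (nat_lit 1035) (C.ref (nat_lit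 34) (nat_lit 9459503215120)) (C.cons (nat_lit 11) (C.node (nat_lit 0) (nat_lit 1) (nat_lit 10) (C.cons (nat_lit 1027) (C.ref (nat_lit 36) (nat_lit 11585512026640)) C.nil)) C.nil))) (C.cons (nat_lit 515) (C.node (nat_lit 0) (nat_lit 1) (nat_lit 2) (C.cons (nat_lit 1031) (C.node (nat_lit 0) (nat_lit 1) (nat_lit 3) (C.cons (nat_lit 11) (C.ref (nat_lit 36) (nat_lit 10490295366160)) C.nil)) (C.cons (nat_lit 15) (C.node (nat_lit 0) (nat_lit 1) (nat_lit 10) (C.cons (nat_lit 1027) (C.node (nat_lit 0) (nat_lit 2) (nat_lit 7) (C.cons (nat_lit 165) (C.node (nat_lit 0) (nat_lit 2) (nat_lit 8) (C.cons (nat_lit 261) (C.node (nat_lit 0) (nat_lit 2) (nat_lit 9) C.nil) C.nil)) (C.cons (nat_lit 133) (C.node (nat_lit 0) (nat_lit 2) (nat_lit 8) (C.cons (nat_lit 293) (C.node (nat_lit 0) (nat_lit 2) (nat_lit 9) C.nil) C.nil)) C.nil))) C.nil)) (C.cons (nat_lit 7) (C.node (nat_lit 0) (nat_lit 1) (nat_lit 3) (C.cons (nat_lit 1035) (C.ref (nat_lit 35)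 (nat_lit 10490295366160)) (C.cons (nat_lit 11) (C.node (nat_lit 0) (nat_lit 1) (nat_lit 10) C.nil) C.nil))) C.nil)))) C.nil)))) C.nil)))) (List.cons (C.node (nat_lit 0) (nat_lit 1) (nat_lit 4) (C.cons (nat_lit 531) (C.node (nat_lit 0) (nat_lit 2) (nat_lit 3) (C.cons (nat_lit 525) (C.node (nat_lit 0) (nat_lit 5) (nat_lit 9) (C.cons (nat_lit 545) (C.node (nat_lit 0) (nat_lit 3) (nat_lit 10) (C.cons (nat_lit 1065) (C.node (nat_lit 0) (nat_lit 4) (nat_lit 10) C.nil) (C.cons (nat_lit 1049) (C.node (nat_lit 0) (nat_lit 5) (nat_lit 10) C.nil) C.nil))) C.nil)) (C.cons (nat_lit 13) (C.node (nat_lit 0) (nat_lit 2) (nat_lit 9) C.nil) C.nil))) (C.cons (nat_lit 19) (C.node (nat_lit 0) (nat_lit 1) (nat_lit 9) C.nil) C.nil))) (List.cons (C.node (nat_lit 0) (nat_lit 1) (nat_lit 8) (C.cons (nat_lit 275) (C.node (nat_lit 0) (nat_lit 1) (nat_lit 9) (C.cons (nat_lit 519) (C.node (nat_lit 0) (nat_lit 1) (nat_lit 10) (C.cons (nat_lit 1027) (C.ref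 (nat_lit 32) (nat_lit 11645910004240)) C.nil)) (C.cons (nat_lit 515) (C.node (nat_lit 0) (nat_lit 1) (nat_lit 2) (C.cons (nat_lit 1031) (C.ref (nat_lit 32) (nat_lit 10615117853200)) (C.cons (nat_lit 7) (C.node (nat_lit 0) (nat_lit 1) (nat_lit 10) (C.cons (nat_lit 1027) (C.node (nat_lit 0) (nat_lit 2) (nat_lit 8) (C.cons (nat_lit 269) (C.node (nat_lit 0) (nat_lit 2) (nat_lit 9) C.nil) C.nil)) C.nil)) C.nil))) C.nil))) (C.cons (nat_lit 263) (C.node (nat_lit 0) (nat_lit 1) (nat_lit 9) (C.cons (nat_lit 531) (C.node (nat_lit 0) (nat_lit 1) (nat_lit 10) (C.cons (nat_lit 1027) (C.ref (nat_lit 32) (nat_lit 11577458962960)) C.nil)) (C.cons (nat_lit 515) (C.node (nat_lit 0) (nat_lit 1) (nat_lit 4) (C.cons (nat_lit 1043) (C.ref (nat_lit 32) (nat_lit 10478215770640)) (C.cons (nat_lit 19) (C.node (nat_lit 0) (nat_lit 1) (nat_lit 10) (C.cons (nat_lit 1027) (C.node (nat_lit 0) (nat_lit 2) (nat_lit 9) (C.cons (nat_lit 525) (C.node (nat_lit 0)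 (nat_lit 2) (nat_lit 10) C.nil) C.nil)) C.nil)) C.nil))) C.nil))) (C.cons (nat_lit 259) (C.node (nat_lit 0) (nat_lit 2) (nat_lit 8) (C.cons (nat_lit 269) (C.node (nat_lit 0) (nat_lit 2) (nat_lit 9) (C.cons (nat_lit 519)
  (C.node (nat_lit 0) (nat_lit 2) (nat_lit 10) (C.cons (nat_lit 1029) (C.ref (nat_lit 31) (nat_lit 11641631752480)) C.nil)) (C.cons (nat_lit 517) (C.node (nat_lit 0) (nat_lit 1) (nat_lit 2) (C.cons (nat_lit 1031) (C.ref (nat_lit 31) (nat_lit 10610839601440)) (C.cons (nat_lit 7) (C.node (nat_lit 0) (nat_lit 2) (nat_lit 10) C.nil) C.nil))) C.nil))) (C.cons (nat_lit 261) (C.node (nat_lit 0) (nat_lit 1) (nat_lit 2) (C.cons (nat_lit 1031) (C.ref (nat_lit 38) (nat_lit 11649936536080)) (C.cons (nat_lit 519) (C.ref (nat_lit 38) (nat_lit 10619144385040)) (C.cons (nat_lit 7) (C.node (nat_lit 0) (nat_lit 1) (nat_lit 9) (C.cons (nat_lit 531) (C.node (nat_lit 0) (nat_lit 1) (nat_lit 10) C.nil) C.nil)) C.nil)))) C.nil))) C.nil))))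 (List.cons (C.node (nat_lit 0) (nat_lit 1) (nat_lit 8) (C.cons (nat_lit 275) (C.node (nat_lit 0) (nat_lit 1) (nat_lit 9) (C.cons (nat_lit 519) (C.node (nat_lit 0) (nat_lit 1) (nat_lit 10) (C.cons (nat_lit 1027) (C.ref (nat_lit 33) (nat_lit 11645910004240)) C.nil)) (C.cons (nat_lit 515) (C.node (nat_lit 0) (nat_lit 1) (nat_lit 2) (C.cons (nat_lit 1031) (C.ref (nat_lit 33) (nat_lit 10615117853200)) C.nil)) C.nil))) (C.cons (nat_lit 263) (C.node (nat_lit 0) (nat_lit 1) (nat_lit 9) (C.cons (nat_lit 531) (C.node (nat_lit 0) (nat_lit 1) (nat_lit 10) (C.cons (nat_lit 1027) (C.ref (nat_lit 33) (nat_lit 11645909873680)) C.nil)) (C.cons (nat_lit 515) (C.node (nat_lit 0) (nat_lit 1) (nat_lit 4) (C.cons (nat_lit 1043) (C.ref (nat_lit 33) (nat_lit 10615117722640)) C.nil)) C.nil))) (C.cons (nat_lit 259) (C.node (nat_lit 0) (nat_lit 1) (nat_lit 2) (C.cons (nat_lit 1031) (C.node (nat_lit 0) (nat_lit 1) (nat_lit 4) (C.cons (nat_lit 531) (C.ref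 (nat_lit 33) (nat_lit 9447423489040)) C.nil)) (C.cons (nat_lit 519) (C.node (nat_lit 0) (nat_lit 1) (nat_lit 4) (C.cons (nat_lit 1043) (C.ref (nat_lit 33) (nat_lit 9515874530320)) C.nil)) C.nil))) C.nil)))) List.nil))))))))))))))))))))

theorem ok11_21 : okL par11 (nat_lit 41) c11_21 (nat_lit 21) = true := by decide +kernel

noncomputable def c11_41 : List C :=
  (List.cons (C.node (nat_lit 0) (nat_lit 2) (nat_lit 8) (C.cons (nat_lit 269) (C.node (nat_lit 0) (nat_lit 1) (nat_lit 8) (C.cons (nat_lit 275) (C.node (nat_lit 0) (nat_lit 5) (nat_lit 8) (C.cons (nat_lit 289) (C.node (nat_lit 0) (nat_lit 2) (nat_lit 9) (C.cons (nat_lit 519) (C.node (nat_lit 0) (nat_lit 2) (nat_lit 10) C.nil) C.nil)) C.nil)) (C.cons (nat_lit 259) (C.node (nat_lit 0) (nat_lit 2) (nat_lit 9) (C.cons (nat_lit 519) (C.node (nat_lit 0) (nat_lit 2) (nat_lit 10) C.nil) C.nil)) C.nil))) (C.cons (nat_lit 263) (C.node (nat_lit 0) (nat_lit 2) (nat_lit 9) (C.cons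 (nat_lit 525) (C.node (nat_lit 0) (nat_lit 2) (nat_lit 10) (C.cons (nat_lit 1029) (C.node (nat_lit 0) (nat_lit 1) (nat_lit 9) (C.cons (nat_lit 531) (C.node (nat_lit 0) (nat_lit 5) (nat_lit 9) C.nil) C.nil)) C.nil)) (C.cons (nat_lit 517) (C.node (nat_lit 0) (nat_lit 2) (nat_lit 3) (C.cons (nat_lit 1037) (C.node (nat_lit 0) (nat_lit 1) (nat_lit 10) (C.cons (nat_lit 1043) (C.node (nat_lit 0) (nat_lit 5) (nat_lit 10) C.nil) C.nil)) C.nil)) C.nil))) (C.cons (nat_lit 261) (C.node (nat_lit 0) (nat_lit 1) (nat_lit 8) (C.cons (nat_lit 275) (C.node (nat_lit 0) (nat_lit 3) (nat_lit 8) (C.cons (nat_lit 297) (C.node (nat_lit 0) (nat_lit 5) (nat_lit 9) (C.cons (nat_lit 561) (C.node (nat_lit 0) (nat_lit 5) (nat_lit 10) C.nil) C.nil)) C.nil)) (C.cons (nat_lit 267) (C.node (nat_lit 0) (nat_lit 4) (nat_lit 8) (C.cons (nat_lit 305) (C.node (nat_lit 0) (nat_lit 5) (nat_lit 9) (C.cons (nat_lit 553) (C.node (nat_lit 0) (nat_lit 5) (nat_lit 10) C.nil)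 C.nil)) C.nil)) C.nil))) C.nil)))) (List.cons (C.node (nat_lit 0) (nat_lit 1) (nat_lit 7) (C.cons (nat_lit 147) (C.ref (nat_lit 37) (nat_lit 11649936536080)) (C.cons (nat_lit 139) (C.node (nat_lit 0) (nat_lit 2) (nat_lit 7) (C.cons (nat_lit 165) (C.node (nat_lit 0) (nat_lit 4) (nat_lit 7) (C.cons (nat_lit 145) (C.ref (nat_lit 39) (nat_lit 11649936536080)) C.nil)) (C.cons (nat_lit 133) (C.node (nat_lit 0) (nat_lit 4) (nat_lit 7) (C.cons (nat_lit 177) (C.ref (nat_lit 39) (nat_lit 11649936405520)) (C.cons (nat_lit 145) (C.node (nat_lit 0) (nat_lit 5) (nat_lit 7) (C.cons (nat_lit 161) (C.ref (nat_lit 40) (nat_lit 11649936536080)) C.nil)) C.nil))) C.nil))) (C.cons (nat_lit 135) (C.ref (nat_lit 37) (nat_lit 11649936405520)) (C.cons (nat_lit 131) (C.node (nat_lit 0) (nat_lit 2) (nat_lit 7) (C.cons (nat_lit 165) (C.node (nat_lit 0) (nat_lit 3) (nat_lit 7) (C.cons (nat_lit 153) (C.ref (nat_lit 39) (nat_lit 11649933194560)) (C.cons (nat_lit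 137) (C.node (nat_lit 0) (nat_lit 4) (nat_lit 7) (C.cons (nat_lit 145) (C.ref (nat_lit 41) (nat_lit 11649936536080)) C.nil)) C.nil))) (C.cons (nat_lit 141) (C.node (nat_lit 0) (nat_lit 5) (nat_lit 7) (C.cons (nat_lit 177) (C.ref (nat_lit 39) (nat_lit 11649935291680)) (C.cons (nat_lit 161) (C.node (nat_lit 0) (nat_lit 4) (nat_lit 7) (C.cons (nat_lit 145) (C.ref (nat_lit 40) (nat_lit 11649935552800)) C.nil)) C.nil))) (C.cons (nat_lit 133) (C.node (nat_lit 0) (nat_lit 3) (nat_lit 7) (C.cons (nat_lit 169) (C.node (nat_lit 0) (nat_lit 4) (nat_lit 7) (C.cons (nat_lit 145) (C.ref (nat_lit 40) (nat_lit 11649932341840)) C.nil)) (C.cons (nat_lit 153) (C.node (nat_lit 0) (nat_lit 5) (nat_lit 7) (C.cons (nat_lit 161) (C.ref (nat_lit 40) (nat_lit 11649933455680)) C.nil)) (C.cons (nat_lit 137) (C.node (nat_lit 0) (nat_lit 4) (nat_lit 7) (C.cons (nat_lit 177) (C.ref (nat_lit 41) (nat_lit 11649936405520)) (C.cons (nat_lit 145) (C.node (nat_lit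 0) (nat_lit 5) (nat_lit 7) C.nil) C.nil))) C.nil)))) C.nil)))) C.nil))))) (List.cons (C.node (nat_lit 0) (nat_lit 2) (nat_lit 7) (C.cons (nat_lit 165) (C.node (nat_lit 0) (nat_lit 3) (nat_lit 7) (C.cons (nat_lit 137) (C.node (nat_lit 0) (nat_lit 2) (nat_lit 8) (C.cons (nat_lit 277) (C.node (nat_lit 0) (nat_lit 5) (nat_lit 8) C.nil) C.nil)) C.nil)) (C.cons (nat_lit 141) (C.node (nat_lit 0) (nat_lit 5) (nat_lit 7) (C.cons (nat_lit 161) (C.ref (nat_lit 33) (nat_lit 11641630708240)) C.nil)) (C.cons (nat_lit 133) (C.node (nat_lit 0) (nat_lit 3) (nat_lit 7) (C.cons (nat_lit 169)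
  (C.node (nat_lit 0) (nat_lit 3) (nat_lit 9) (C.cons (nat_lit 537) (C.node (nat_lit 0) (nat_lit 5) (nat_lit 9) C.nil) C.nil)) C.nil)) C.nil)))) (List.cons (C.node (nat_lit 0) (nat_lit 1) (nat_lit 9) (C.cons (nat_lit 519) (C.node (nat_lit 0) (nat_lit 1) (nat_lit 10) (C.cons (nat_lit 1027) (C.ref (nat_lit 43) (nat_lit 11649936536080)) C.nil)) (C.cons (nat_lit 515) (C.node (nat_lit 0) (nat_lit 1) (nat_lit 2) (C.cons (nat_lit 1031) (C.ref (nat_lit 43) (nat_lit 10619144385040)) (C.cons (nat_lit 7) (C.node (nat_lit 0) (nat_lit 1) (nat_lit 10) C.nil) C.nil))) C.nil))) (List.cons (C.node (nat_lit 0) (nat_lit 1) (nat_lit 2) (C.cons (nat_lit 1031) (C.node (nat_lit 0) (nat_lit 1) (nat_lit 3) C.nil) (C.cons (nat_lit 15) (C.node (nat_lit 0) (nat_lit 1) (nat_lit 10) C.nil) C.nil))) (List.cons (C.node (nat_lit 0) (nat_lit 1) (nat_lit 9) (C.cons (nat_lit 523) (C.node (nat_lit 0) (nat_lit 1) (nat_lit 2) (C.cons (nat_lit 1031) (C.ref (nat_lit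 43) (nat_lit 9523927724560)) (C.cons (nat_lit 7) (C.node (nat_lit 0) (nat_lit 1) (nat_lit 10) C.nil) C.nil))) (C.cons (nat_lit 519) (C.node (nat_lit 0) (nat_lit 1) (nat_lit 3) (C.cons (nat_lit 1035) (C.ref (nat_lit 43) (nat_lit 9523927720720)) (C.cons (nat_lit 11) (C.node (nat_lit 0) (nat_lit 1) (nat_lit 10) C.nil) C.nil))) (C.cons (nat_lit 515) (C.ref (nat_lit 45) (nat_lit 11649936536080)) C.nil)))) (List.cons (C.node (nat_lit 0) (nat_lit 1) (nat_lit 8) (C.cons (nat_lit 267) (C.ref (nat_lit 44) (nat_lit 11649936536080)) (C.cons (nat_lit 263) (C.ref (nat_lit 44) (nat_lit 11649936532240)) (C.cons (nat_lit 259) (C.ref (nat_lit 46) (nat_lit 11649936536080)) C.nil)))) (List.cons (C.node (nat_lit 0) (nat_lit 1) (nat_lit 7) (C.cons (nat_lit 147) (C.ref (nat_lit 47) (nat_lit 11649936536080)) (C.cons (nat_lit 139) (C.ref (nat_lit 47) (nat_lit 11649936474640)) (C.cons (nat_lit 135) (C.ref (nat_lit 47) (nat_lit 11649936409360)) (C.cons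 (nat_lit 131) (C.node (nat_lit 0) (nat_lit 1) (nat_lit 8) (C.cons (nat_lit 275) (C.ref (nat_lit 46) (nat_lit 11645910004240)) (C.cons (nat_lit 267) (C.ref (nat_lit 46) (nat_lit 11645909942800)) (C.cons (nat_lit 263) (C.ref (nat_lit 46) (nat_lit 11645909877520)) (C.cons (nat_lit 259) (C.node (nat_lit 0) (nat_lit 1) (nat_lit 9) (C.cons (nat_lit 531) (C.ref (nat_lit 45) (nat_lit 11577458962960)) (C.cons (nat_lit 523) (C.ref (nat_lit 45) (nat_lit 11577458901520)) (C.cons (nat_lit 519) (C.ref (nat_lit 45) (nat_lit 11577458836240)) C.nil)))) C.nil))))) C.nil))))) (List.cons (C.node (nat_lit 0) (nat_lit 3) (nat_lit 6) (C.cons (nat_lit 89) (C.ref (nat_lit 42) (nat_lit 11649936532240)) (C.cons (nat_lit 73) (C.node (nat_lit 0) (nat_lit 4) (nat_lit 6) (C.cons (nat_lit 81) (C.ref (nat_lit 48) (nat_lit 11649936536080)) C.nil)) C.nil))) (List.cons (C.node (nat_lit 0) (nat_lit 2) (nat_lit 6) (C.cons (nat_lit 85) (C.node (nat_lit 0) (nat_lit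 3) (nat_lit 6) (C.cons (nat_lit 73) (C.ref (nat_lit 42) (nat_lit 11649936536080)) C.nil)) (C.cons (nat_lit 77) (C.node (nat_lit 0) (nat_lit 4) (nat_lit 6) (C.cons (nat_lit 81) (C.ref (nat_lit 42) (nat_lit 11649936474640)) C.nil)) (C.cons (nat_lit 69) (C.ref (nat_lit 49) (nat_lit 11649936536080)) C.nil)))) (List.cons (C.node (nat_lit 0) (nat_lit 2) (nat_lit 7) (C.cons (nat_lit 149) (C.node (nat_lit 0) (nat_lit 3) (nat_lit 7) C.nil) (C.cons (nat_lit 141) (C.node (nat_lit 0) (nat_lit 4) (nat_lit 7) C.nil) C.nil))) (List.cons (C.big (C.cons (nat_lit 1085) (C.ref (nat_lit 1) (nat_lit 11649936536080)) (C.cons (nat_lit 1083) (C.ref (nat_lit 1) (nat_lit 11649936535840)) (C.cons (nat_lit 1079) (C.ref (nat_lit 1) (nat_lit 11649936531760)) (C.cons (nat_lit 1071) (C.ref (nat_lit 1) (nat_lit 11649936466240)) (C.cons (nat_lit 1055) (C.ref (nat_lit 1) (nat_lit 11649935417680)) (C.cons (nat_lit 573) (C.ref (nat_lit 1) (nat_lit 10619144385040))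 (C.cons (nat_lit 571) (C.ref (nat_lit 1) (nat_lit 10619144384800)) (C.cons (nat_lit 567) (C.ref (nat_lit 1) (nat_lit 10619144380720)) (C.cons (nat_lit 559) (C.ref (nat_lit 1) (nat_lit 10619144315200)) (C.cons (nat_lit 543)
  (C.ref (nat_lit 1) (nat_lit 10619143266640)) (C.cons (nat_lit 317) (C.ref (nat_lit 1) (nat_lit 9523927724560)) (C.cons (nat_lit 315) (C.ref (nat_lit 1) (nat_lit 9523927724320)) (C.cons (nat_lit 311) (C.ref (nat_lit 1) (nat_lit 9523927720240)) (C.cons (nat_lit 303) (C.ref (nat_lit 1) (nat_lit 9523927654720)) (C.cons (nat_lit 287) (C.ref (nat_lit 1) (nat_lit 9523926606160)) (C.cons (nat_lit 189) (C.ref (nat_lit 1) (nat_lit 8424684532240)) (C.cons (nat_lit 187) (C.ref (nat_lit 1) (nat_lit 8424684532000)) (C.cons (nat_lit 183) (C.ref (nat_lit 1) (nat_lit 8424684527920)) (C.cons (nat_lit 175) (C.ref (nat_lit 1) (nat_lit 8424684462400)) (C.cons (nat_lit 159) (C.ref (nat_lit 1) (nat_lit 8424683413840)) (C.cons (nat_lit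 125) (C.ref (nat_lit 1) (nat_lit 7325189681680)) (C.cons (nat_lit 123) (C.ref (nat_lit 1) (nat_lit 7325189681440)) (C.cons (nat_lit 119) (C.ref (nat_lit 1) (nat_lit 7325189677360)) (C.cons (nat_lit 111) (C.ref (nat_lit 1) (nat_lit 7325189611840)) (C.cons (nat_lit 95) (C.ref (nat_lit 1) (nat_lit 7325188563280)) (C.cons (nat_lit 63) (C.big C.nil (C.big C.nil (C.node (nat_lit 0) (nat_lit 1) (nat_lit 6) (C.cons (nat_lit 67) (C.node (nat_lit 0) (nat_lit 1) (nat_lit 7) (C.cons (nat_lit 131) (C.node (nat_lit 0) (nat_lit 1) (nat_lit 8) (C.cons (nat_lit 259) (C.node (nat_lit 0) (nat_lit 1) (nat_lit 9) (C.cons (nat_lit 515) (C.node (nat_lit 0) (nat_lit 1) (nat_lit 10) (C.cons (nat_lit 1027) (C.node (nat_lit 0) (nat_lit 2) (nat_lit 6) (C.cons (nat_lit 69) (C.node (nat_lit 0) (nat_lit 2) (nat_lit 7) (C.cons (nat_lit 133) (C.node (nat_lit 0) (nat_lit 2) (nat_lit 8) (C.cons (nat_lit 261) (C.node (nat_lit 0) (nat_lit 2) (nat_lit 9) (C.cons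 (nat_lit 517) (C.node (nat_lit 0) (nat_lit 2) (nat_lit 10) (C.cons (nat_lit 1029) (C.node (nat_lit 0) (nat_lit 3) (nat_lit 6) C.nil) C.nil)) C.nil)) C.nil)) C.nil)) C.nil)) C.nil)) C.nil)) C.nil)) C.nil)) C.nil)))) C.nil)))))))))))))))))))))))))) (C.big (C.cons (nat_lit 1081) (C.ref (nat_lit 27) (nat_lit 11649936536080)) (C.cons (nat_lit 1077) (C.ref (nat_lit 27) (nat_lit 11649936532240)) (C.cons (nat_lit 1075) (C.ref (nat_lit 27) (nat_lit 11649936528160)) (C.cons (nat_lit 1069) (C.ref (nat_lit 27) (nat_lit 11649936466960)) (C.cons (nat_lit 1067) (C.ref (nat_lit 27) (nat_lit 11649936462880)) (C.cons (nat_lit 1063) (C.ref (nat_lit 27) (nat_lit 11649936397360)) (C.cons (nat_lit 1053) (C.ref (nat_lit 27) (nat_lit 11649935418640)) (C.cons (nat_lit 1051) (C.ref (nat_lit 27) (nat_lit 11649935414560)) (C.cons (nat_lit 1047) (C.ref (nat_lit 27) (nat_lit 11649935349040)) (C.cons (nat_lit 1039) (C.ref (nat_lit 27) (nat_lit 11649934300480))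 (C.cons (nat_lit 569) (C.ref (nat_lit 27) (nat_lit 10619144385040)) (C.cons (nat_lit 565) (C.ref (nat_lit 27) (nat_lit 10619144381200)) (C.cons (nat_lit 563) (C.ref (nat_lit 27) (nat_lit 10619144377120)) (C.cons (nat_lit 557) (C.ref (nat_lit 27) (nat_lit 10619144315920)) (C.cons (nat_lit 555) (C.ref (nat_lit 27) (nat_lit 10619144311840)) (C.cons (nat_lit 551) (C.ref (nat_lit 27) (nat_lit 10619144246320)) (C.cons (nat_lit 541) (C.ref (nat_lit 27) (nat_lit 10619143267600)) (C.cons (nat_lit 539) (C.ref (nat_lit 27) (nat_lit 10619143263520)) (C.cons (nat_lit 535) (C.ref (nat_lit 27) (nat_lit 10619143198000)) (C.cons (nat_lit 527) (C.ref (nat_lit 27) (nat_lit 10619142149440)) (C.cons (nat_lit 313) (C.ref (nat_lit 27) (nat_lit 9523927724560)) (C.cons (nat_lit 309) (C.ref (nat_lit 27) (nat_lit 9523927720720)) (C.cons (nat_lit 307) (C.ref (nat_lit 27) (nat_lit 9523927716640)) (C.cons (nat_lit 301) (C.ref (nat_lit 27) (nat_lit 9523927655440))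 (C.cons (nat_lit 299) (C.ref (nat_lit 27) (nat_lit 9523927651360)) (C.cons (nat_lit 295) (C.ref (nat_lit 27) (nat_lit 9523927585840)) (C.cons (nat_lit 285) (C.ref (nat_lit 27) (nat_lit 9523926607120)) (C.cons (nat_lit 283) (C.ref (nat_lit 27) (nat_lit 9523926603040)) (C.cons (nat_lit 279) (C.ref (nat_lit 27) (nat_lit 9523926537520)) (C.cons (nat_lit 271) (C.ref (nat_lit 27) (nat_lit 9523925488960)) (C.cons (nat_lit 185)
  (C.ref (nat_lit 27) (nat_lit 8424684532240)) (C.cons (nat_lit 181) (C.ref (nat_lit 27) (nat_lit 8424684528400)) (C.cons (nat_lit 179) (C.ref (nat_lit 27) (nat_lit 8424684524320)) (C.cons (nat_lit 173) (C.ref (nat_lit 27) (nat_lit 8424684463120)) (C.cons (nat_lit 171) (C.ref (nat_lit 27) (nat_lit 8424684459040)) (C.cons (nat_lit 167) (C.ref (nat_lit 27) (nat_lit 8424684393520)) (C.cons (nat_lit 157) (C.ref (nat_lit 27) (nat_lit 8424683414800)) (C.cons (nat_lit 155) (C.ref (nat_lit 27) (nat_lit 8424683410720))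 (C.cons (nat_lit 151) (C.ref (nat_lit 27) (nat_lit 8424683345200)) (C.cons (nat_lit 143) (C.ref (nat_lit 27) (nat_lit 8424682296640)) (C.cons (nat_lit 121) (C.ref (nat_lit 27) (nat_lit 7325189681680)) (C.cons (nat_lit 117) (C.ref (nat_lit 27) (nat_lit 7325189677840)) (C.cons (nat_lit 115) (C.ref (nat_lit 27) (nat_lit 7325189673760)) (C.cons (nat_lit 109) (C.ref (nat_lit 27) (nat_lit 7325189612560)) (C.cons (nat_lit 107) (C.ref (nat_lit 27) (nat_lit 7325189608480)) (C.cons (nat_lit 103) (C.ref (nat_lit 27) (nat_lit 7325189542960)) (C.cons (nat_lit 93) (C.ref (nat_lit 27) (nat_lit 7325188564240)) (C.cons (nat_lit 91) (C.ref (nat_lit 27) (nat_lit 7325188560160)) (C.cons (nat_lit 87) (C.ref (nat_lit 27) (nat_lit 7325188494640)) (C.cons (nat_lit 79) (C.ref (nat_lit 27) (nat_lit 7325187446080)) (C.cons (nat_lit 61) (C.ref (nat_lit 30) (nat_lit 11649936536080)) (C.cons (nat_lit 59) (C.ref (nat_lit 30) (nat_lit 11649936535840)) (C.cons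 (nat_lit 55) (C.ref (nat_lit 30) (nat_lit 11649936531760)) (C.cons (nat_lit 47) (C.ref (nat_lit 30) (nat_lit 11649936466240)) (C.cons (nat_lit 31) (C.ref (nat_lit 30) (nat_lit 11649935417680)) C.nil))))))))))))))))))))))))))))))))))))))))))))))))))))))) (C.node (nat_lit 0) (nat_lit 1) (nat_lit 6) (C.cons (nat_lit 99) (C.ref (nat_lit 50) (nat_lit 11649936536080)) (C.cons (nat_lit 83) (C.ref (nat_lit 50) (nat_lit 11649935553040)) (C.cons (nat_lit 75) (C.ref (nat_lit 50) (nat_lit 11649934508560)) (C.cons (nat_lit 71) (C.ref (nat_lit 50) (nat_lit 11649933460240)) (C.cons (nat_lit 67) (C.node (nat_lit 0) (nat_lit 2) (nat_lit 6) (C.cons (nat_lit 101) (C.ref (nat_lit 49) (nat_lit 11649936535840)) (C.cons (nat_lit 85) (C.ref (nat_lit 49) (nat_lit 11649935552800)) (C.cons (nat_lit 77) (C.ref (nat_lit 49) (nat_lit 11649934508320)) (C.cons (nat_lit 69) (C.node (nat_lit 0) (nat_lit 3) (nat_lit 6) (C.cons (nat_lit 105) (C.node (nat_lit 0)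 (nat_lit 4) (nat_lit 6) (C.cons (nat_lit 81) (C.ref (nat_lit 48) (nat_lit 11649936531760)) C.nil)) (C.cons (nat_lit 89) (C.node (nat_lit 0) (nat_lit 5) (nat_lit 6) (C.cons (nat_lit 97) (C.ref (nat_lit 48) (nat_lit 11649935548720)) C.nil)) (C.cons (nat_lit 73) (C.node (nat_lit 0) (nat_lit 4) (nat_lit 6) (C.cons (nat_lit 113) (C.ref (nat_lit 48) (nat_lit 11649936466240)) (C.cons (nat_lit 81) (C.node (nat_lit 0) (nat_lit 5) (nat_lit 6) (C.cons (nat_lit 97) (C.node (nat_lit 0) (nat_lit 1) (nat_lit 7) (C.cons (nat_lit 163) (C.ref (nat_lit 51) (nat_lit 11649936536080)) (C.cons (nat_lit 147) (C.ref (nat_lit 51) (nat_lit 11649935553040)) (C.cons (nat_lit 139) (C.ref (nat_lit 51) (nat_lit 11649934508560)) (C.cons (nat_lit 135) (C.ref (nat_lit 51) (nat_lit 11649933460240)) C.nil))))) C.nil)) C.nil))) C.nil)))) C.nil))))) C.nil)))))))) List.nil))))))))))))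

theorem ok11_41 : okL par11 (nat_lit 53) c11_41 (nat_lit 41) = true := by decide +kernel

noncomputable def c11_53 : List C :=
  (List.cons (C.node (nat_lit 1) (nat_lit 4) (nat_lit 7) (C.cons (nat_lit 150) (C.node (nat_lit 1) (nat_lit 4) (nat_lit 5) (C.cons (nat_lit 58) (C.node (nat_lit 1) (nat_lit 4) (nat_lit 6) (C.cons (nat_lit 82) (C.node (nat_lit 1) (nat_lit 7) (nat_lit 8) (C.cons (nat_lit 394) (C.miq (nat_lit 2551384645) (nat_lit 476326974518355661348799601)) (C.cons (nat_lit 386) (C.node (nat_lit 1) (nat_lit 3) (nat_lit 7) (C.cons (nat_lit 650) (C.miq (nat_lit 2168038480) (nat_lit 785837219310229328522445937)) (C.cons (nat_lit 138) (C.node (nat_lit 1) (nat_lit 7) (nat_lit 9) (C.cons (nat_lit 642) (C.node (nat_lit 2) (nat_lit 4) (nat_lit 5) (C.cons (nat_lit 564) (C.miq (nat_lit 2220466480) (nat_lit 681869598823371219497714703)) (C.cons (nat_lit 52) (C.node (nat_lit 2) (nat_lit 4) (nat_lit 10) (C.cons (nat_lit 1556) (C.miq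 (nat_lit 967069825) (nat_lit 1881089645387183183835037987)) (C.cons (nat_lit 1044) (C.node (nat_lit 2) (nat_lit 4) (nat_lit 9) (C.cons (nat_lit 540) (C.miq (nat_lit 2755232080) (nat_lit 652855379152620119304765731)) (C.cons (nat_lit 532) (C.node (nat_lit 3) (nat_lit 4) (nat_lit 10) (C.cons (nat_lit 1560) (C.node (nat_lit 6) (nat_lit 9) (nat_lit 10) (C.cons (nat_lit 1600) (C.node (nat_lit 3) (nat_lit 5) (nat_lit 10) (C.cons (nat_lit 1320) (C.node (nat_lit 2) (nat_lit 8) (nat_lit 10) (C.cons (nat_lit 1348) (C.miq (nat_lit 443107360) (nat_lit 1934291106969870128726212885)) (C.cons (nat_lit 1284) (C.node (nat_lit 6) (nat_lit 8) (nat_lit 10) (C.cons (nat_lit 1344) (C.node (nat_lit 3) (nat_lit 6) (nat_lit 10) (C.cons (nat_lit 1224) (C.miq (nat_lit 1632858250) (nat_lit 70140276407283583004706689)) (C.cons (nat_lit 1096) (C.node (nat_lit 3) (nat_lit 7) (nat_lit 10) (C.cons (nat_lit 1160) (C.node (nat_lit 4) (nat_lit 5) (nat_lit 8) (C.cons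 (nat_lit 816) (C.node (nat_lit 4) (nat_lit 5) (nat_lit 7) (C.cons (nat_lit 176) (C.node (nat_lit 4) (nat_lit 6) (nat_lit 9) (C.cons (nat_lit 720) (C.miq (nat_lit 1415678320) (nat_lit 99137285440611715190556545)) (C.cons (nat_lit 592) (C.node (nat_lit 4) (nat_lit 7) (nat_lit 9) (C.cons (nat_lit 656) (C.node (nat_lit 1) (nat_lit 2) (nat_lit 5) (C.cons (nat_lit 550) (C.miq (nat_lit 2423411521) (nat_lit 160797279873642539750129722)) (C.cons (nat_lit 102) (C.miq (nat_lit 2534541910) (nat_lit 181349591041219725554484337)) (C.cons (nat_lit 38) (C.node (nat_lit 1) (nat_lit 2) (nat_lit 9) (C.cons (nat_lit 774) (C.miq (nat_lit 1678903945) (nat_lit 181349590820543824893708161)) (C.cons (nat_lit 518) (C.node (nat_lit 2) (nat_lit 5) (nat_lit 10) (C.cons (nat_lit 1572) (C.miq (nat_lit 1649478055) (nat_lit 45942778423993995236607873)) (C.cons (nat_lit 1060) (C.node (nat_lit 2) (nat_lit 9) (nat_lit 10) (C.cons (nat_lit 1540) (C.node (nat_lit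 1) (nat_lit 2) (nat_lit 6) C.nil) C.nil)) C.nil))) C.nil))) C.nil)))) C.nil)) C.nil))) C.nil)) (C.cons (nat_lit 432) (C.miq (nat_lit 356689792) (nat_lit 62883309120884479131715457)) (C.cons (nat_lit 304) (C.miq (nat_lit 2488836880) (nat_lit 367548885797314077955130383)) C.nil)))) C.nil)) C.nil))) C.nil)) C.nil))) (C.cons (nat_lit 1064) (C.miq (nat_lit 2235175060) (nat_lit 1286321016025684710327321107)) C.nil))) C.nil)) (C.cons (nat_lit 1048) (C.miq (nat_lit 2588084245) (nat_lit 1266964460546323141606637859)) C.nil))) C.nil))) C.nil))) C.nil))) C.nil)) C.nil))) C.nil))) C.nil)) (C.cons (nat_lit 50) (C.node (nat_lit 3) (nat_lit 4) (nat_lit 10) (C.cons (nat_lit 1560) (C.miq (nat_lit 873831040) (nat_lit 60456492469310758672598913)) (C.cons (nat_lit 1048) (C.node (nat_lit 3) (nat_lit 5) (nat_lit 10) (C.cons (nat_lit 1320) (C.miq (nat_lit 2477000065) (nat_lit 1266964054332895846426870051)) (C.cons (nat_lit 1064) (C.node (nat_lit 1)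 (nat_lit 3) (nat_lit 4) (C.cons (nat_lit 90) (C.node (nat_lit 1) (nat_lit 3) (nat_lit 5) (C.cons (nat_lit 42) (C.node (nat_lit 2) (nat_lit 4) (nat_lit 6) (C.cons (nat_lit 84) (C.node (nat_lit 1) (nat_lit 7) (nat_lit 8) (C.cons (nat_lit 394) (C.miq (nat_lit 2202693984) (nat_lit 1266989695262398498586296515)) (C.cons (nat_lit 386)
  (C.node (nat_lit 1) (nat_lit 3) (nat_lit 7) (C.cons (nat_lit 650) (C.miq (nat_lit 2471129440) (nat_lit 1266989695334456092624224451)) (C.cons (nat_lit 138) (C.node (nat_lit 1) (nat_lit 7) (nat_lit 9) (C.cons (nat_lit 642) (C.node (nat_lit 1) (nat_lit 3) (nat_lit 8) (C.cons (nat_lit 778) (C.miq (nat_lit 1094035600) (nat_lit 50795858737184094389077889)) (C.cons (nat_lit 266) (C.node (nat_lit 1) (nat_lit 3) (nat_lit 9) (C.cons (nat_lit 522) (C.node (nat_lit 3) (nat_lit 7) (nat_lit 10) (C.cons (nat_lit 1224) (C.miq (nat_lit 1931060800) (nat_lit 631094714378727783320978545)) (C.cons (nat_lit 1160) (C.node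 (nat_lit 3) (nat_lit 8) (nat_lit 10) (C.cons (nat_lit 1352) (C.miq (nat_lit 2199496256) (nat_lit 631094714414756580339942513)) (C.cons (nat_lit 1288) (C.node (nat_lit 6) (nat_lit 8) (nat_lit 10) (C.cons (nat_lit 1348) (C.miq (nat_lit 2443576450) (nat_lit 1317739861087721413268472085)) (C.cons (nat_lit 1344) (C.node (nat_lit 4) (nat_lit 6) (nat_lit 7) (C.cons (nat_lit 720) (C.miq (nat_lit 1671905545) (nat_lit 1402367232434040124037202451)) (C.cons (nat_lit 464) (C.miq (nat_lit 2218423824) (nat_lit 1266989695282101746949619907)) (C.cons (nat_lit 208) (C.node (nat_lit 4) (nat_lit 6) (nat_lit 8) (C.cons (nat_lit 848) (C.miq (nat_lit 342010000) (nat_lit 101568935380079596840224641)) (C.cons (nat_lit 336) (C.node (nat_lit 4) (nat_lit 6) (nat_lit 9) (C.cons (nat_lit 592) (C.node (nat_lit 4) (nat_lit 7) (nat_lit 8) (C.cons (nat_lit 432) (C.miq (nat_lit 559155832) (nat_lit 60451401021297470943004545)) (C.cons (nat_lit 400) (C.node (nat_lit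 2) (nat_lit 4) (nat_lit 10) (C.cons (nat_lit 1556) (C.node (nat_lit 5) (nat_lit 9) (nat_lit 10) (C.cons (nat_lit 1568) (C.node (nat_lit 2) (nat_lit 5) (nat_lit 10) (C.cons (nat_lit 1316) (C.miq (nat_lit 1363312794) (nat_lit 181363148939306876928264065)) (C.cons (nat_lit 1060) (C.node (nat_lit 2) (nat_lit 8) (nat_lit 10) (C.cons (nat_lit 1284) (C.node (nat_lit 5) (nat_lit 8) (nat_lit 10) (C.cons (nat_lit 1312) (C.node (nat_lit 3) (nat_lit 4) (nat_lit 8) C.nil) C.nil)) C.nil)) C.nil))) C.nil)) (C.cons (nat_lit 1044) (C.node (nat_lit 4) (nat_lit 9) (nat_lit 10) (C.cons (nat_lit 1552) (C.node (nat_lit 2) (nat_lit 3) (nat_lit 4) (C.cons (nat_lit 28) (C.node (nat_lit 2) (nat_lit 4) (nat_lit 5) C.nil) C.nil)) C.nil)) C.nil))) C.nil))) C.nil)) C.nil))) C.nil)))) C.nil))) C.nil))) C.nil))) C.nil)) C.nil))) C.nil)) C.nil))) C.nil))) C.nil)) C.nil)) (C.cons (nat_lit 26) (C.node (nat_lit 1) (nat_lit 4) (nat_lit 6) (C.cons (nat_lit 82) (C.node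 (nat_lit 1) (nat_lit 3) (nat_lit 5) (C.cons (nat_lit 106) (C.node (nat_lit 1) (nat_lit 7) (nat_lit 8) (C.cons (nat_lit 394) (C.miq (nat_lit 2203742560) (nat_lit 1286332508376232634101072067)) (C.cons (nat_lit 386) (C.node (nat_lit 1) (nat_lit 3) (nat_lit 7) (C.cons (nat_lit 650) (C.miq (nat_lit 2472178016) (nat_lit 1286332508448290228139000003)) (C.cons (nat_lit 138) (C.node (nat_lit 1) (nat_lit 7) (nat_lit 9) (C.cons (nat_lit 642) (C.node (nat_lit 1) (nat_lit 3) (nat_lit 8) (C.cons (nat_lit 778) (C.miq (nat_lit 1094035600) (nat_lit 128167111192520361570273153)) (C.cons (nat_lit 266) (C.node (nat_lit 1) (nat_lit 3) (nat_lit 9) (C.cons (nat_lit 522) (C.node (nat_lit 2) (nat_lit 4) (nat_lit 6) (C.cons (nat_lit 92) (C.miq (nat_lit 2167539044) (nat_lit 1256079036409617803560879217)) (C.cons (nat_lit 84) (C.node (nat_lit 3) (nat_lit 7) (nat_lit 10) (C.cons (nat_lit 1224) (C.miq (nat_lit 1930995280) (nat_lit 321609704557382783299945585))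 (C.cons (nat_lit 1160) (C.node (nat_lit 3) (nat_lit 9) (nat_lit 10) (C.cons (nat_lit 1608) (C.miq (nat_lit 2467866192) (nat_lit 321609704665469174356837489)) (C.cons (nat_lit 1544) (C.node (nat_lit 6) (nat_lit 9) (nat_lit 10) (C.cons (nat_lit 1600) (C.node (nat_lit 5) (nat_lit 9) (nat_lit 10) (C.cons (nat_lit 1572) (C.miq (nat_lit 622238320) (nat_lit 128156854879941275001489281)) (C.cons (nat_lit 1568) (C.node (nat_lit 5) (nat_lit 6) (nat_lit 9) (C.cons (nat_lit 864) (C.miq (nat_lit 982913157) (nat_lit 1934283267030739244233523491))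
  (C.cons (nat_lit 736) (C.miq (nat_lit 559286905) (nat_lit 128156854729915112450164609)) (C.cons (nat_lit 608) (C.node (nat_lit 1) (nat_lit 2) (nat_lit 5) (C.cons (nat_lit 550) (C.node (nat_lit 2) (nat_lit 4) (nat_lit 5) (C.cons (nat_lit 60) (C.miq (nat_lit 1934770321) (nat_lit 72538316231556853504803347)) (C.cons (nat_lit 52) (C.node (nat_lit 2) (nat_lit 3) (nat_lit 4) (C.cons (nat_lit 540) (C.miq (nat_lit 1349620546) (nat_lit 235750680689749548581913116)) (C.cons (nat_lit 28) (C.node (nat_lit 2) (nat_lit 4) (nat_lit 10) (C.cons (nat_lit 1556) (C.node (nat_lit 2) (nat_lit 5) (nat_lit 10) (C.cons (nat_lit 1316) (C.miq (nat_lit 1112644224) (nat_lit 664918996447129901818120065)) C.nil)) C.nil)) C.nil))) C.nil))) (C.cons (nat_lit 38) (C.node (nat_lit 1) (nat_lit 5) (nat_lit 9) (C.cons (nat_lit 546) (C.node (nat_lit 1) (nat_lit 2) (nat_lit 9) (C.cons (nat_lit 774) (C.miq (nat_lit 1678903945) (nat_lit 181349590820543824893708161))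 (C.cons (nat_lit 518) (C.node (nat_lit 3) (nat_lit 6) (nat_lit 10) C.nil) C.nil))) C.nil)) C.nil))) C.nil)))) C.nil))) C.nil)) C.nil))) C.nil))) C.nil))) C.nil)) C.nil))) C.nil)) C.nil))) C.nil))) (C.cons (nat_lit 42) (C.node (nat_lit 1) (nat_lit 7) (nat_lit 8) (C.cons (nat_lit 394) (C.node (nat_lit 1) (nat_lit 7) (nat_lit 9) (C.cons (nat_lit 642) (C.node (nat_lit 3) (nat_lit 7) (nat_lit 10) (C.cons (nat_lit 1224) (C.miq (nat_lit 1662363520) (nat_lit 50795858716353296827877249)) (C.cons (nat_lit 1160) (C.node (nat_lit 4) (nat_lit 7) (nat_lit 8) (C.cons (nat_lit 464) (C.miq (nat_lit 977801319) (nat_lit 1569192982169411094542549187)) (C.cons (nat_lit 432) (C.miq (nat_lit 559155832) (nat_lit 60451401021297470943004545)) (C.cons (nat_lit 400) (C.node (nat_lit 4) (nat_lit 5) (nat_lit 8) (C.cons (nat_lit 816) (C.miq (nat_lit 826608265) (nat_lit 60456492322662295840753537)) (C.cons (nat_lit 312) (C.miq (nat_lit 1681327489) (nat_lit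 184969247836171025668243747)) (C.cons (nat_lit 304) (C.node (nat_lit 1) (nat_lit 3) (nat_lit 6) (C.cons (nat_lit 586) (C.node (nat_lit 3) (nat_lit 9) (nat_lit 10) (C.cons (nat_lit 1544) (C.node (nat_lit 6) (nat_lit 9) (nat_lit 10) (C.cons (nat_lit 1600) (C.node (nat_lit 1) (nat_lit 5) (nat_lit 6) (C.cons (nat_lit 102) (C.miq (nat_lit 2534541910) (nat_lit 181349591041219725554484337)) (C.cons (nat_lit 98) (C.node (nat_lit 1) (nat_lit 8) (nat_lit 9) (C.cons (nat_lit 774) (C.miq (nat_lit 1678903945) (nat_lit 181349590820543824893708161)) (C.cons (nat_lit 770) (C.node (nat_lit 5) (nat_lit 9) (nat_lit 10) (C.cons (nat_lit 1572) (C.miq (nat_lit 622238320) (nat_lit 118485448323024241603839873)) (C.cons (nat_lit 1568) (C.node (nat_lit 1) (nat_lit 2) (nat_lit 5) (C.cons (nat_lit 550) (C.node (nat_lit 2) (nat_lit 4) (nat_lit 5) (C.cons (nat_lit 60) (C.miq (nat_lit 1934770321) (nat_lit 72538316231556853504803347)) (C.cons (nat_lit 52) (C.node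 (nat_lit 3) (nat_lit 4) (nat_lit 5) (C.cons (nat_lit 56) (C.node (nat_lit 2) (nat_lit 7) (nat_lit 9) (C.cons (nat_lit 652) (C.miq (nat_lit 1383305536) (nat_lit 788229835593022864736453139)) (C.cons (nat_lit 644) (C.node (nat_lit 3) (nat_lit 7) (nat_lit 9) (C.cons (nat_lit 648) (C.node (nat_lit 1) (nat_lit 2) (nat_lit 6) (C.cons (nat_lit 326) (C.node (nat_lit 2) (nat_lit 7) (nat_lit 10) (C.cons (nat_lit 1220) (C.node (nat_lit 2) (nat_lit 4) (nat_lit 10) (C.cons (nat_lit 1556) (C.miq (nat_lit 1113692784) (nat_lit 394119612853452554360784769)) C.nil)) C.nil)) C.nil)) C.nil)) C.nil))) C.nil)) C.nil))) (C.cons (nat_lit 38) (C.node (nat_lit 1) (nat_lit 2) (nat_lit 9) (C.cons (nat_lit 518) (C.node (nat_lit 1) (nat_lit 5) (nat_lit 9) (C.cons (nat_lit 546) (C.node (nat_lit 1) (nat_lit 2) (nat_lit 6) (C.cons (nat_lit 326) (C.node (nat_lit 6) (nat_lit 7) (nat_lit 8) (C.cons (nat_lit 480) (C.miq (nat_lit 1731876880) (nat_lit 1402374924836091331525673251))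 (C.cons (nat_lit 448) (C.node (nat_lit 5) (nat_lit 6) (nat_lit 9) (C.cons (nat_lit 864) (C.miq (nat_lit 962725249) (nat_lit 702405067518851507722518819)) (C.cons (nat_lit 736)
  (C.miq (nat_lit 559286905) (nat_lit 118485448172998079052515201)) (C.cons (nat_lit 608) (C.node (nat_lit 6) (nat_lit 8) (nat_lit 9) (C.cons (nat_lit 848) (C.miq (nat_lit 558238345) (nat_lit 99142635059164493300893569)) C.nil)) C.nil)))) C.nil))) (C.cons (nat_lit 70) (C.node (nat_lit 2) (nat_lit 5) (nat_lit 10) C.nil) C.nil))) C.nil)) C.nil)) C.nil))) C.nil))) C.nil))) C.nil))) C.nil)) C.nil)) (C.cons (nat_lit 74) (C.node (nat_lit 1) (nat_lit 3) (nat_lit 9) (C.cons (nat_lit 522) (C.node (nat_lit 2) (nat_lit 4) (nat_lit 6) (C.cons (nat_lit 92) (C.node (nat_lit 3) (nat_lit 4) (nat_lit 5) (C.cons (nat_lit 56) (C.node (nat_lit 3) (nat_lit 9) (nat_lit 10) (C.cons (nat_lit 1608) (C.miq (nat_lit 2318666082) (nat_lit 1266959369244960129212482117)) (C.cons (nat_lit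 1544) (C.node (nat_lit 6) (nat_lit 9) (nat_lit 10) (C.cons (nat_lit 1600) (C.node (nat_lit 4) (nat_lit 6) (nat_lit 7) (C.cons (nat_lit 720) (C.miq (nat_lit 1949996576) (nat_lit 1266989695354159349577482821)) (C.cons (nat_lit 208) (C.node (nat_lit 4) (nat_lit 6) (nat_lit 8) (C.cons (nat_lit 848) (C.miq (nat_lit 342010000) (nat_lit 111240341936996630237874049)) (C.cons (nat_lit 336) (C.node (nat_lit 4) (nat_lit 6) (nat_lit 9) (C.cons (nat_lit 592) (C.node (nat_lit 3) (nat_lit 4) (nat_lit 8) (C.cons (nat_lit 792) (C.node (nat_lit 2) (nat_lit 3) (nat_lit 9) (C.cons (nat_lit 652) (C.miq (nat_lit 1934266976) (nat_lit 1266989695335019051167580741)) C.nil)) C.nil)) C.nil)) C.nil))) C.nil))) C.nil)) C.nil))) C.nil)) (C.cons (nat_lit 84) (C.node (nat_lit 2) (nat_lit 4) (nat_lit 10) (C.cons (nat_lit 1556) (C.node (nat_lit 5) (nat_lit 9) (nat_lit 10) (C.cons (nat_lit 1568) (C.node (nat_lit 2) (nat_lit 5) (nat_lit 10) (C.cons (nat_lit 1316)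 (C.miq (nat_lit 1363312794) (nat_lit 181363148939306876928264065)) (C.cons (nat_lit 1060) (C.node (nat_lit 5) (nat_lit 8) (nat_lit 10) (C.cons (nat_lit 1312) (C.node (nat_lit 2) (nat_lit 7) (nat_lit 10) (C.cons (nat_lit 1220) (C.miq (nat_lit 338037159) (nat_lit 101553366112193119720310657)) (C.cons (nat_lit 1156) (C.node (nat_lit 6) (nat_lit 7) (nat_lit 10) (C.cons (nat_lit 1216) (C.node (nat_lit 2) (nat_lit 6) (nat_lit 10) (C.cons (nat_lit 1348) (C.miq (nat_lit 2443576450) (nat_lit 1317739861087721413268472085)) (C.cons (nat_lit 1092) (C.node (nat_lit 2) (nat_lit 8) (nat_lit 10) (C.cons (nat_lit 1284) (C.node (nat_lit 4) (nat_lit 6) (nat_lit 7) (C.cons (nat_lit 720) (C.miq (nat_lit 610380144) (nat_lit 99151083813470332701050753)) C.nil)) C.nil)) C.nil))) C.nil)) C.nil))) C.nil)) C.nil))) C.nil)) (C.cons (nat_lit 1044) (C.node (nat_lit 4) (nat_lit 9) (nat_lit 10) (C.cons (nat_lit 1552) (C.node (nat_lit 2) (nat_lit 7) (nat_lit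 10) (C.cons (nat_lit 1220) (C.node (nat_lit 2) (nat_lit 8) (nat_lit 10) (C.cons (nat_lit 1316) (C.miq (nat_lit 2171752554) (nat_lit 181363148939305433797231729)) (C.cons (nat_lit 1284) (C.node (nat_lit 5) (nat_lit 8) (nat_lit 10) (C.cons (nat_lit 1312) (C.node (nat_lit 2) (nat_lit 5) (nat_lit 10) (C.cons (nat_lit 1572) (C.miq (nat_lit 1359587170) (nat_lit 641968608830882123119658180)) (C.cons (nat_lit 1060) (C.node (nat_lit 2) (nat_lit 9) (nat_lit 10) (C.cons (nat_lit 1540) (C.node (nat_lit 5) (nat_lit 9) (nat_lit 10) C.nil) C.nil)) C.nil))) C.nil)) C.nil))) (C.cons (nat_lit 1156) (C.node (nat_lit 6) (nat_lit 7) (nat_lit 10) (C.cons (nat_lit 1216) (C.node (nat_lit 2) (nat_lit 6) (nat_lit 10) (C.cons (nat_lit 1348) (C.miq (nat_lit 2443576450) (nat_lit 1317739861087721413268472085)) (C.cons (nat_lit 1092) (C.node (nat_lit 2) (nat_lit 8) (nat_lit 10) (C.cons (nat_lit 1316) (C.node (nat_lit 2) (nat_lit 9) (nat_lit 10) (C.cons (nat_lit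 1540) (C.node (nat_lit 5) (nat_lit 9) (nat_lit 10) C.nil) C.nil)) (C.cons (nat_lit 1284) (C.node (nat_lit 5) (nat_lit 8) (nat_lit 10) C.nil) C.nil))) C.nil))) C.nil)) C.nil))) C.nil)) C.nil))) C.nil))) C.nil)) C.nil))) C.nil)))) C.nil)))) C.nil))) C.nil)) (C.cons (nat_lit 386) (C.node (nat_lit 1) (nat_lit 3) (nat_lit 7) (C.cons (nat_lit 650) (C.node (nat_lit 3) (nat_lit 7) (nat_lit 10)
  (C.cons (nat_lit 1224) (C.miq (nat_lit 1662298000) (nat_lit 31453045602520329559934849)) (C.cons (nat_lit 1160) (C.node (nat_lit 1) (nat_lit 2) (nat_lit 5) (C.cons (nat_lit 550) (C.miq (nat_lit 1346540401) (nat_lit 334882597898149140907819658)) (C.cons (nat_lit 102) (C.miq (nat_lit 2534541910) (nat_lit 181349591041219725554484337)) (C.cons (nat_lit 38) (C.node (nat_lit 1) (nat_lit 2) (nat_lit 9) (C.cons (nat_lit 774) (C.miq (nat_lit 557091184) (nat_lit 31437181275953199800977281)) (C.cons (nat_lit 518) (C.node (nat_lit 1) (nat_lit 5) (nat_lit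 6) (C.cons (nat_lit 610) (C.miq (nat_lit 1133840150) (nat_lit 668556952237970204578152643)) (C.cons (nat_lit 98) (C.node (nat_lit 1) (nat_lit 5) (nat_lit 9) (C.cons (nat_lit 546) (C.node (nat_lit 5) (nat_lit 9) (nat_lit 10) (C.cons (nat_lit 1572) (C.miq (nat_lit 622238320) (nat_lit 118485448323024241603839873)) (C.cons (nat_lit 1568) (C.node (nat_lit 4) (nat_lit 5) (nat_lit 7) (C.cons (nat_lit 688) (C.miq (nat_lit 1463437584) (nat_lit 1402374924894639226193117715)) (C.cons (nat_lit 432) (C.miq (nat_lit 559155832) (nat_lit 60451401021297470943004545)) (C.cons (nat_lit 176) (C.node (nat_lit 4) (nat_lit 7) (nat_lit 9) (C.cons (nat_lit 720) (C.miq (nat_lit 1731873040) (nat_lit 1402374924903646425447858707)) (C.cons (nat_lit 656) (C.node (nat_lit 6) (nat_lit 7) (nat_lit 9) (C.cons (nat_lit 736) (C.miq (nat_lit 559286905) (nat_lit 118485448172998079052515201)) (C.cons (nat_lit 704) (C.node (nat_lit 1) (nat_lit 2) (nat_lit 6) (C.cons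 (nat_lit 326) (C.node (nat_lit 1) (nat_lit 3) (nat_lit 6) (C.cons (nat_lit 74) (C.node (nat_lit 1) (nat_lit 3) (nat_lit 8) (C.cons (nat_lit 266) (C.node (nat_lit 2) (nat_lit 5) (nat_lit 10) C.nil) C.nil)) C.nil)) (C.cons (nat_lit 70) (C.node (nat_lit 1) (nat_lit 2) (nat_lit 8) (C.cons (nat_lit 262) (C.node (nat_lit 2) (nat_lit 5) (nat_lit 10) C.nil) C.nil)) C.nil))) C.nil))) C.nil))) C.nil)))) C.nil))) C.nil)) C.nil))) C.nil))) C.nil)))) C.nil))) (C.cons (nat_lit 138) (C.node (nat_lit 1) (nat_lit 7) (nat_lit 9) (C.cons (nat_lit 642) (C.node (nat_lit 2) (nat_lit 4) (nat_lit 6) (C.cons (nat_lit 92) (C.node (nat_lit 3) (nat_lit 9) (nat_lit 10) (C.cons (nat_lit 1608) (C.miq (nat_lit 2318666082) (nat_lit 1266959369244960129212482117)) (C.cons (nat_lit 1544) (C.node (nat_lit 6) (nat_lit 9) (nat_lit 10) (C.cons (nat_lit 1600) (C.node (nat_lit 2) (nat_lit 3) (nat_lit 9) (C.cons (nat_lit 780) (C.miq (nat_lit 1788035202) (nat_lit 1866583162905487526228394261))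 (C.cons (nat_lit 652) (C.miq (nat_lit 1934266976) (nat_lit 1266989695335019051167580741)) (C.cons (nat_lit 524) (C.node (nat_lit 3) (nat_lit 7) (nat_lit 9) (C.cons (nat_lit 712) (C.miq (nat_lit 2268334434) (nat_lit 184970760689863169559757381)) (C.cons (nat_lit 648) (C.node (nat_lit 4) (nat_lit 6) (nat_lit 9) (C.cons (nat_lit 848) (C.miq (nat_lit 342010000) (nat_lit 111240341936996630237874049)) (C.cons (nat_lit 720) (C.miq (nat_lit 1949996576) (nat_lit 1266989695354159349577482821)) (C.cons (nat_lit 592) (C.node (nat_lit 6) (nat_lit 7) (nat_lit 9) (C.cons (nat_lit 736) (C.miq (nat_lit 561580630) (nat_lit 776141094043356350092674161)) (C.cons (nat_lit 704) (C.node (nat_lit 5) (nat_lit 9) (nat_lit 10) (C.cons (nat_lit 1572) (C.miq (nat_lit 1466540290) (nat_lit 851112775624212970343826447)) (C.cons (nat_lit 1568) (C.node (nat_lit 2) (nat_lit 4) (nat_lit 5) (C.cons (nat_lit 564) (C.node (nat_lit 2) (nat_lit 4) (nat_lit 10) (C.cons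 (nat_lit 1044) (C.node (nat_lit 2) (nat_lit 7) (nat_lit 9) (C.cons (nat_lit 644) (C.node (nat_lit 2) (nat_lit 9) (nat_lit 10) (C.cons (nat_lit 1540) (C.node (nat_lit 4) (nat_lit 7) (nat_lit 9) (C.cons (nat_lit 656) (C.node (nat_lit 4) (nat_lit 9) (nat_lit 10) C.nil) C.nil)) C.nil)) C.nil)) C.nil)) (C.cons (nat_lit 52) (C.node (nat_lit 2) (nat_lit 4) (nat_lit 9) (C.cons (nat_lit 1556) (C.node (nat_lit 2) (nat_lit 5) (nat_lit 10) (C.cons (nat_lit 1316) (C.miq (nat_lit 337971624) (nat_lit 62869510771956062252959617)) (C.cons (nat_lit 1060) (C.node (nat_lit 5) (nat_lit 8) (nat_lit 10)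
  (C.cons (nat_lit 1312) (C.node (nat_lit 2) (nat_lit 7) (nat_lit 10) (C.cons (nat_lit 1220) (C.miq (nat_lit 338037159) (nat_lit 111224772669110153117960065)) (C.cons (nat_lit 1156) (C.node (nat_lit 2) (nat_lit 6) (nat_lit 10) (C.cons (nat_lit 1348) (C.miq (nat_lit 2224464130) (nat_lit 715708951788228632337777679)) (C.cons (nat_lit 1092) (C.node (nat_lit 3) (nat_lit 7) (nat_lit 10) (C.cons (nat_lit 1224) (C.miq (nat_lit 2321680180) (nat_lit 1320152105308002163632111769)) C.nil)) C.nil))) C.nil))) C.nil)) C.nil))) (C.cons (nat_lit 532) (C.node (nat_lit 2) (nat_lit 4) (nat_lit 10) (C.cons (nat_lit 1044) (C.node (nat_lit 2) (nat_lit 9) (nat_lit 10) (C.cons (nat_lit 1540) (C.node (nat_lit 4) (nat_lit 9) (nat_lit 10) (C.cons (nat_lit 1552) (C.node (nat_lit 3) (nat_lit 4) (nat_lit 9) C.nil) C.nil)) C.nil)) C.nil)) C.nil))) C.nil))) C.nil))) C.nil))) C.nil)))) C.nil))) C.nil)))) C.nil)) C.nil))) (C.cons (nat_lit 84) (C.node (nat_lit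 2) (nat_lit 4) (nat_lit 10) (C.cons (nat_lit 1556) (C.node (nat_lit 5) (nat_lit 9) (nat_lit 10) (C.cons (nat_lit 1568) (C.node (nat_lit 2) (nat_lit 5) (nat_lit 10) (C.cons (nat_lit 1316) (C.miq (nat_lit 1363312794) (nat_lit 181363148939306876928264065)) (C.cons (nat_lit 1060) (C.node (nat_lit 5) (nat_lit 8) (nat_lit 10) (C.cons (nat_lit 1312) (C.node (nat_lit 2) (nat_lit 7) (nat_lit 10) (C.cons (nat_lit 1220) (C.miq (nat_lit 338037159) (nat_lit 101553366112193119720310657)) (C.cons (nat_lit 1156) (C.node (nat_lit 2) (nat_lit 6) (nat_lit 10) (C.cons (nat_lit 1348) (C.miq (nat_lit 2443576450) (nat_lit 1317739861087721413268472085)) (C.cons (nat_lit 1092) (C.node (nat_lit 2) (nat_lit 8) (nat_lit 10) (C.cons (nat_lit 1284) (C.node (nat_lit 2) (nat_lit 3) (nat_lit 4) (C.cons (nat_lit 60) (C.node (nat_lit 1) (nat_lit 2) (nat_lit 5) (C.cons (nat_lit 550) (C.miq (nat_lit 1934770321) (nat_lit 72538316231556853504803347)) (C.cons (nat_lit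 102) (C.miq (nat_lit 1898120788) (nat_lit 1256076748986331048630289521)) (C.cons (nat_lit 38) (C.node (nat_lit 1) (nat_lit 2) (nat_lit 9) (C.cons (nat_lit 774) (C.miq (nat_lit 1108715904) (nat_lit 45960155531346104484562817)) (C.cons (nat_lit 518) (C.node (nat_lit 1) (nat_lit 5) (nat_lit 6) (C.cons (nat_lit 610) (C.node (nat_lit 1) (nat_lit 2) (nat_lit 6) C.nil) C.nil)) C.nil))) C.nil)))) (C.cons (nat_lit 28) (C.node (nat_lit 2) (nat_lit 4) (nat_lit 5) (C.cons (nat_lit 52) (C.node (nat_lit 3) (nat_lit 4) (nat_lit 5) (C.cons (nat_lit 312) (C.node (nat_lit 4) (nat_lit 8) (nat_lit 9) (C.cons (nat_lit 848) (C.miq (nat_lit 342010000) (nat_lit 101568935380079596840224641)) (C.cons (nat_lit 784) (C.node (nat_lit 1) (nat_lit 2) (nat_lit 5) C.nil) C.nil))) (C.cons (nat_lit 56) (C.node (nat_lit 4) (nat_lit 5) (nat_lit 8) (C.cons (nat_lit 816) (C.miq (nat_lit 609331584) (nat_lit 60465457585802611433604993)) (C.cons (nat_lit 432) (C.miq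 (nat_lit 356689792) (nat_lit 62883309120884479131715457)) (C.cons (nat_lit 304) (C.node (nat_lit 4) (nat_lit 5) (nat_lit 7) (C.cons (nat_lit 176) (C.node (nat_lit 4) (nat_lit 5) (nat_lit 9) C.nil) C.nil)) C.nil)))) C.nil))) C.nil)) C.nil))) C.nil)) C.nil))) C.nil))) C.nil)) C.nil))) C.nil)) (C.cons (nat_lit 1044) (C.node (nat_lit 4) (nat_lit 9) (nat_lit 10) (C.cons (nat_lit 1552) (C.node (nat_lit 2) (nat_lit 7) (nat_lit 10) (C.cons (nat_lit 1220) (C.node (nat_lit 3) (nat_lit 7) (nat_lit 10) (C.cons (nat_lit 1160) (C.node (nat_lit 2) (nat_lit 8) (nat_lit 10) (C.cons (nat_lit 1316) (C.miq (nat_lit 2171752554) (nat_lit 181363148939305433797231729)) (C.cons (nat_lit 1284) (C.node (nat_lit 5) (nat_lit 8) (nat_lit 10) (C.cons (nat_lit 1312) (C.node (nat_lit 2) (nat_lit 5) (nat_lit 10) (C.cons (nat_lit 1572) (C.miq (nat_lit 1359587170) (nat_lit 641968608830882123119658180)) (C.cons (nat_lit 1060) (C.node (nat_lit 2) (nat_lit 9) (nat_lit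 10) (C.cons (nat_lit 1540) (C.node (nat_lit 5) (nat_lit 9) (nat_lit 10) (C.cons (nat_lit 1568) (C.node (nat_lit 3) (nat_lit 8) (nat_lit 10) (C.cons (nat_lit 1352) (C.node (nat_lit 3) (nat_lit 9) (nat_lit 10) (C.cons (nat_lit 1544)
  (C.node (nat_lit 6) (nat_lit 9) (nat_lit 10) (C.cons (nat_lit 1600) (C.node (nat_lit 1) (nat_lit 3) (nat_lit 8) (C.cons (nat_lit 778) (C.miq (nat_lit 1662298256) (nat_lit 31453045638549676334712705)) (C.cons (nat_lit 266) (C.node (nat_lit 1) (nat_lit 3) (nat_lit 6) C.nil) C.nil))) C.nil)) C.nil)) (C.cons (nat_lit 1288) (C.node (nat_lit 6) (nat_lit 8) (nat_lit 10) (C.cons (nat_lit 1344) (C.node (nat_lit 3) (nat_lit 6) (nat_lit 10) (C.cons (nat_lit 1608) (C.node (nat_lit 1) (nat_lit 3) (nat_lit 9) (C.cons (nat_lit 778) (C.miq (nat_lit 1662364032) (nat_lit 50795858824441337152210817)) (C.cons (nat_lit 522) (C.node (nat_lit 1) (nat_lit 3) (nat_lit 6) C.nil) C.nil))) C.nil)) C.nil)) C.nil))) C.nil)) C.nil))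 C.nil))) C.nil)) C.nil))) C.nil)) (C.cons (nat_lit 1156) (C.node (nat_lit 2) (nat_lit 6) (nat_lit 10) (C.cons (nat_lit 1348) (C.miq (nat_lit 2443576450) (nat_lit 1317739861087721413268472085)) (C.cons (nat_lit 1092) (C.node (nat_lit 2) (nat_lit 8) (nat_lit 10) (C.cons (nat_lit 1316) (C.node (nat_lit 2) (nat_lit 9) (nat_lit 10) (C.cons (nat_lit 1540) (C.node (nat_lit 5) (nat_lit 9) (nat_lit 10) (C.cons (nat_lit 1568) (C.node (nat_lit 3) (nat_lit 7) (nat_lit 10) (C.cons (nat_lit 1224) (C.node (nat_lit 3) (nat_lit 8) (nat_lit 10) (C.cons (nat_lit 1288) (C.node (nat_lit 3) (nat_lit 9) (nat_lit 10) (C.cons (nat_lit 1544) (C.node (nat_lit 6) (nat_lit 8) (nat_lit 10) (C.cons (nat_lit 1344) (C.node (nat_lit 6) (nat_lit 9) (nat_lit 10) (C.cons (nat_lit 1600) (C.node (nat_lit 4) (nat_lit 6) (nat_lit 7) (C.cons (nat_lit 720) (C.miq (nat_lit 910272400) (nat_lit 99151083720020640455133057)) (C.cons (nat_lit 464) (C.miq (nat_lit 910337920)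 (nat_lit 101568935359248799276271489)) (C.cons (nat_lit 208) (C.node (nat_lit 3) (nat_lit 7) (nat_lit 9) C.nil) C.nil)))) C.nil)) C.nil)) C.nil)) C.nil)) (C.cons (nat_lit 1160) (C.node (nat_lit 6) (nat_lit 7) (nat_lit 10) (C.cons (nat_lit 1216) (C.node (nat_lit 4) (nat_lit 5) (nat_lit 7) (C.cons (nat_lit 688) (C.node (nat_lit 1) (nat_lit 2) (nat_lit 5) C.nil) (C.cons (nat_lit 432) (C.miq (nat_lit 559155832) (nat_lit 60451401021297470943004545)) C.nil))) C.nil)) C.nil))) C.nil)) C.nil)) (C.cons (nat_lit 1284) (C.node (nat_lit 5) (nat_lit 8) (nat_lit 10) (C.cons (nat_lit 1312) (C.node (nat_lit 2) (nat_lit 5) (nat_lit 10) (C.cons (nat_lit 1572) (C.node (nat_lit 1) (nat_lit 2) (nat_lit 5) (C.cons (nat_lit 102) (C.miq (nat_lit 2451023200) (nat_lit 181374309580039073743176817)) (C.cons (nat_lit 38) (C.miq (nat_lit 1649478055) (nat_lit 45942778423993995236607873)) C.nil))) (C.cons (nat_lit 1060) (C.node (nat_lit 2) (nat_lit 9) (nat_lit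 10) (C.cons (nat_lit 1540) (C.node (nat_lit 5) (nat_lit 9) (nat_lit 10) (C.cons (nat_lit 1568) (C.node (nat_lit 3) (nat_lit 7) (nat_lit 10) (C.cons (nat_lit 1224) (C.node (nat_lit 3) (nat_lit 8) (nat_lit 10) (C.cons (nat_lit 1288) (C.node (nat_lit 3) (nat_lit 9) (nat_lit 10) C.nil) C.nil)) (C.cons (nat_lit 1160) (C.node (nat_lit 6) (nat_lit 7) (nat_lit 10) C.nil) C.nil))) C.nil)) C.nil)) C.nil))) C.nil)) C.nil))) C.nil))) C.nil))) C.nil)) C.nil))) C.nil))) C.nil)) C.nil))) C.nil))) C.nil))) C.nil)) C.nil))) C.nil))) C.nil))) C.nil))) (C.cons (nat_lit 146) (C.node (nat_lit 1) (nat_lit 2) (nat_lit 4) (C.cons (nat_lit 86) (C.miq (nat_lit 2585135170) (nat_lit 1317739861478971630813577493)) (C.cons (nat_lit 54) (C.miq (nat_lit 1881516097) (nat_lit 44752133704927318962996498)) (C.cons (nat_lit 22) (C.node (nat_lit 1) (nat_lit 4) (nat_lit 5) (C.cons (nat_lit 58) (C.node (nat_lit 1) (nat_lit 4) (nat_lit 6) (C.cons (nat_lit 82) (C.node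 (nat_lit 2) (nat_lit 4) (nat_lit 10) (C.cons (nat_lit 1556) (C.miq (nat_lit 967069825) (nat_lit 1881089645387183183835037987)) (C.cons (nat_lit 1044) (C.node (nat_lit 3) (nat_lit 4) (nat_lit 10) (C.cons (nat_lit 1560) (C.node (nat_lit 6) (nat_lit 9) (nat_lit 10) (C.cons (nat_lit 1600) (C.node (nat_lit 3) (nat_lit 5) (nat_lit 10) (C.cons (nat_lit 1320) (C.node (nat_lit 2) (nat_lit 8) (nat_lit 10) (C.cons (nat_lit 1348)
  (C.miq (nat_lit 443107360) (nat_lit 1934291106969870128726212885)) (C.cons (nat_lit 1284) (C.node (nat_lit 6) (nat_lit 8) (nat_lit 10) (C.cons (nat_lit 1344) (C.node (nat_lit 3) (nat_lit 6) (nat_lit 10) (C.cons (nat_lit 1224) (C.miq (nat_lit 1632858250) (nat_lit 70140276407283583004706689)) (C.cons (nat_lit 1096) (C.node (nat_lit 3) (nat_lit 7) (nat_lit 10) (C.cons (nat_lit 1160) (C.node (nat_lit 4) (nat_lit 5) (nat_lit 8) (C.cons (nat_lit 816) (C.node (nat_lit 4) (nat_lit 6) (nat_lit 9) (C.cons (nat_lit 720)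 (C.miq (nat_lit 1415678320) (nat_lit 99137285440611715190556545)) (C.cons (nat_lit 592) (C.node (nat_lit 1) (nat_lit 3) (nat_lit 7) (C.cons (nat_lit 650) (C.miq (nat_lit 1680935575) (nat_lit 70121294972786614207121281)) (C.cons (nat_lit 394) (C.miq (nat_lit 1697712775) (nat_lit 70121294972785583398193025)) (C.cons (nat_lit 138) (C.node (nat_lit 1) (nat_lit 7) (nat_lit 8) (C.cons (nat_lit 390) (C.miq (nat_lit 1361356672) (nat_lit 26617342313364647037962113)) (C.cons (nat_lit 386) (C.node (nat_lit 2) (nat_lit 8) (nat_lit 9) (C.cons (nat_lit 780) (C.miq (nat_lit 327748180) (nat_lit 942971934812972066255406193)) (C.cons (nat_lit 774) (C.miq (nat_lit 1678903945) (nat_lit 26607085909871290531317633)) (C.cons (nat_lit 772) (C.node (nat_lit 1) (nat_lit 2) (nat_lit 7) (C.cons (nat_lit 646) (C.node (nat_lit 2) (nat_lit 3) (nat_lit 9) (C.cons (nat_lit 524) (C.node (nat_lit 2) (nat_lit 4) (nat_lit 9) (C.cons (nat_lit 532) (C.node (nat_lit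 4) (nat_lit 7) (nat_lit 9) (C.cons (nat_lit 656) (C.node (nat_lit 1) (nat_lit 2) (nat_lit 5) (C.cons (nat_lit 102) (C.node (nat_lit 1) (nat_lit 2) (nat_lit 8) (C.cons (nat_lit 262) (C.node (nat_lit 1) (nat_lit 5) (nat_lit 9) (C.cons (nat_lit 546) (C.node (nat_lit 2) (nat_lit 5) (nat_lit 9) (C.cons (nat_lit 1572) (C.node (nat_lit 2) (nat_lit 6) (nat_lit 10) (C.cons (nat_lit 1220) (C.miq (nat_lit 1645520784) (nat_lit 26617342322935895774398337)) (C.cons (nat_lit 1092) (C.node (nat_lit 2) (nat_lit 3) (nat_lit 4) C.nil) C.nil))) (C.cons (nat_lit 548) (C.miq (nat_lit 2770956640) (nat_lit 662526785678012144291217603)) C.nil))) C.nil)) C.nil)) (C.cons (nat_lit 38) (C.miq (nat_lit 1695681145) (nat_lit 45949899023704876281890689)) C.nil))) C.nil)) C.nil)) C.nil)) (C.cons (nat_lit 134) (C.node (nat_lit 1) (nat_lit 7) (nat_lit 9) (C.cons (nat_lit 642) (C.node (nat_lit 1) (nat_lit 2) (nat_lit 8) (C.cons (nat_lit 326) (C.node (nat_lit 1)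 (nat_lit 3) (nat_lit 6) (C.cons (nat_lit 586) (C.miq (nat_lit 2299745290) (nat_lit 708454880226035854677574769)) (C.cons (nat_lit 74) (C.node (nat_lit 1) (nat_lit 3) (nat_lit 8) (C.cons (nat_lit 778) (C.node (nat_lit 6) (nat_lit 8) (nat_lit 9) (C.cons (nat_lit 832) (C.node (nat_lit 2) (nat_lit 6) (nat_lit 10) (C.cons (nat_lit 1220) (C.node (nat_lit 4) (nat_lit 5) (nat_lit 7) C.nil) C.nil)) C.nil)) (C.cons (nat_lit 266) (C.miq (nat_lit 2436382885) (nat_lit 321589320710123182656849009)) C.nil))) C.nil))) (C.cons (nat_lit 262) (C.node (nat_lit 1) (nat_lit 2) (nat_lit 6) (C.cons (nat_lit 102) (C.miq (nat_lit 2534541910) (nat_lit 162006777927385658759185521)) (C.cons (nat_lit 70) (C.node (nat_lit 2) (nat_lit 5) (nat_lit 10) (C.cons (nat_lit 1572) (C.miq (nat_lit 1365419785) (nat_lit 84653805988538073580111745)) (C.cons (nat_lit 1060) (C.node (nat_lit 2) (nat_lit 9) (nat_lit 10) (C.cons (nat_lit 1540) (C.node (nat_lit 5) (nat_lit 9)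 (nat_lit 10) (C.cons (nat_lit 1568) (C.node (nat_lit 1) (nat_lit 2) (nat_lit 5) (C.cons (nat_lit 38) (C.node (nat_lit 1) (nat_lit 2) (nat_lit 9) C.nil) C.nil)) C.nil)) C.nil)) C.nil))) C.nil))) C.nil))) C.nil)) C.nil))) C.nil)))) C.nil))) C.nil)))) C.nil))) (C.cons (nat_lit 432) (C.miq (nat_lit 559155832) (nat_lit 70122807578214504340653953)) (C.cons (nat_lit 304) (C.miq (nat_lit 2488836880) (nat_lit 367548885797314077955130383)) C.nil)))) C.nil)) C.nil))) C.nil)) C.nil))) (C.cons (nat_lit 1064) (C.miq (nat_lit 2235175060) (nat_lit 1286321016025684710327321107)) C.nil))) C.nil)) (C.cons (nat_lit 1048)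
  (C.miq (nat_lit 2588084245) (nat_lit 1266964460546323141606637859)) C.nil))) C.nil))) C.nil)) (C.cons (nat_lit 50) (C.node (nat_lit 3) (nat_lit 4) (nat_lit 10) (C.cons (nat_lit 1560) (C.miq (nat_lit 873831040) (nat_lit 60456492469310758672598913)) (C.cons (nat_lit 1048) (C.node (nat_lit 3) (nat_lit 5) (nat_lit 10) (C.cons (nat_lit 1320) (C.miq (nat_lit 2477000065) (nat_lit 1266964054332895846426870051)) (C.cons (nat_lit 1064) (C.node (nat_lit 1) (nat_lit 3) (nat_lit 4) (C.cons (nat_lit 90) (C.node (nat_lit 1) (nat_lit 3) (nat_lit 5) (C.cons (nat_lit 42) (C.node (nat_lit 3) (nat_lit 7) (nat_lit 10) (C.cons (nat_lit 1224) (C.miq (nat_lit 2587101025) (nat_lit 1266964054717953202171019459)) (C.cons (nat_lit 1160) (C.node (nat_lit 1) (nat_lit 3) (nat_lit 7) (C.cons (nat_lit 650) (C.miq (nat_lit 1785938065) (nat_lit 1402355611279981775713600019)) (C.cons (nat_lit 394) (C.miq (nat_lit 2202693984) (nat_lit 1266989695262398498586296515))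 (C.cons (nat_lit 138) (C.node (nat_lit 1) (nat_lit 3) (nat_lit 8) (C.cons (nat_lit 778) (C.miq (nat_lit 1094035600) (nat_lit 50795858737184094389077889)) (C.cons (nat_lit 266) (C.node (nat_lit 1) (nat_lit 3) (nat_lit 9) (C.cons (nat_lit 522) (C.node (nat_lit 1) (nat_lit 7) (nat_lit 8) (C.cons (nat_lit 390) (C.miq (nat_lit 1361356672) (nat_lit 26617342313364647037962113)) (C.cons (nat_lit 386) (C.node (nat_lit 3) (nat_lit 8) (nat_lit 10) (C.cons (nat_lit 1352) (C.miq (nat_lit 2199496256) (nat_lit 631094714414756580339942513)) (C.cons (nat_lit 1288) (C.node (nat_lit 6) (nat_lit 8) (nat_lit 10) (C.cons (nat_lit 1348) (C.miq (nat_lit 2443576450) (nat_lit 1317739861087721413268472085)) (C.cons (nat_lit 1344) (C.node (nat_lit 4) (nat_lit 6) (nat_lit 8) (C.cons (nat_lit 848) (C.miq (nat_lit 558238345) (nat_lit 108814041616081526698542977)) (C.cons (nat_lit 464) (C.miq (nat_lit 2218423824) (nat_lit 1266989695282101746949619907)) (C.cons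 (nat_lit 336) (C.node (nat_lit 4) (nat_lit 6) (nat_lit 9) (C.cons (nat_lit 720) (C.miq (nat_lit 1671905545) (nat_lit 1402367232434040124037202451)) (C.cons (nat_lit 592) (C.node (nat_lit 4) (nat_lit 7) (nat_lit 8) (C.cons (nat_lit 432) (C.miq (nat_lit 559155832) (nat_lit 60451401021297470943004545)) (C.cons (nat_lit 400) (C.node (nat_lit 1) (nat_lit 2) (nat_lit 7) (C.cons (nat_lit 646) (C.node (nat_lit 1) (nat_lit 2) (nat_lit 5) (C.cons (nat_lit 102) (C.node (nat_lit 1) (nat_lit 2) (nat_lit 8) (C.cons (nat_lit 262) (C.node (nat_lit 1) (nat_lit 5) (nat_lit 9) (C.cons (nat_lit 546) (C.node (nat_lit 2) (nat_lit 4) (nat_lit 10) (C.cons (nat_lit 1556) (C.miq (nat_lit 1108781424) (nat_lit 123331407986681821903652737)) (C.cons (nat_lit 1044) (C.node (nat_lit 4) (nat_lit 9) (nat_lit 10) (C.cons (nat_lit 1552) (C.node (nat_lit 3) (nat_lit 6) (nat_lit 10) C.nil) C.nil)) C.nil))) C.nil)) C.nil)) (C.cons (nat_lit 38) (C.miq (nat_lit 1695681145)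 (nat_lit 45949899023704876281890689)) C.nil))) (C.cons (nat_lit 134) (C.node (nat_lit 1) (nat_lit 7) (nat_lit 9) (C.cons (nat_lit 642) (C.node (nat_lit 2) (nat_lit 4) (nat_lit 6) (C.cons (nat_lit 212) (C.node (nat_lit 2) (nat_lit 6) (nat_lit 10) (C.cons (nat_lit 1092) (C.node (nat_lit 2) (nat_lit 7) (nat_lit 10) (C.cons (nat_lit 1156) (C.node (nat_lit 6) (nat_lit 7) (nat_lit 10) (C.cons (nat_lit 1216) (C.node (nat_lit 2) (nat_lit 4) (nat_lit 10) C.nil) C.nil)) C.nil)) C.nil)) (C.cons (nat_lit 84) (C.node (nat_lit 3) (nat_lit 7) (nat_lit 9) C.nil) C.nil))) C.nil)) C.nil))) C.nil))) C.nil))) C.nil)))) C.nil))) C.nil))) C.nil))) C.nil)) C.nil))) C.nil)))) C.nil))) C.nil)) (C.cons (nat_lit 26) (C.node (nat_lit 1) (nat_lit 4) (nat_lit 6) (C.cons (nat_lit 82) (C.node (nat_lit 1) (nat_lit 3) (nat_lit 5) (C.cons (nat_lit 106) (C.node (nat_lit 3) (nat_lit 7) (nat_lit 10) (C.cons (nat_lit 1224) (C.miq (nat_lit 2318731105) (nat_lit 1286302440613209578674979011))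 (C.cons (nat_lit 1160) (C.node (nat_lit 3) (nat_lit 9) (nat_lit 10) (C.cons (nat_lit 1608) (C.miq (nat_lit 2321615157) (nat_lit 1317734511923191586484781609)) (C.cons (nat_lit 1544)
  (C.node (nat_lit 6) (nat_lit 9) (nat_lit 10) (C.cons (nat_lit 1600) (C.node (nat_lit 5) (nat_lit 9) (nat_lit 10) (C.cons (nat_lit 1572) (C.miq (nat_lit 622238320) (nat_lit 128156854879941275001489281)) (C.cons (nat_lit 1568) (C.node (nat_lit 1) (nat_lit 2) (nat_lit 7) (C.cons (nat_lit 646) (C.miq (nat_lit 642879655) (nat_lit 128158053639364153813632897)) (C.cons (nat_lit 390) (C.miq (nat_lit 1361356672) (nat_lit 26617342313364647037962113)) (C.cons (nat_lit 134) (C.node (nat_lit 1) (nat_lit 7) (nat_lit 8) (C.cons (nat_lit 394) (C.miq (nat_lit 1785942145) (nat_lit 1402355906427886955049648419)) (C.cons (nat_lit 386) (C.node (nat_lit 1) (nat_lit 3) (nat_lit 7) (C.cons (nat_lit 650) (C.miq (nat_lit 2472178016) (nat_lit 1286332508448290228139000003))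 (C.cons (nat_lit 138) (C.node (nat_lit 1) (nat_lit 7) (nat_lit 9) (C.cons (nat_lit 642) (C.node (nat_lit 1) (nat_lit 3) (nat_lit 8) (C.cons (nat_lit 778) (C.miq (nat_lit 1094035600) (nat_lit 128167111192520361570273153)) (C.cons (nat_lit 266) (C.node (nat_lit 1) (nat_lit 3) (nat_lit 9) (C.cons (nat_lit 522) (C.node (nat_lit 3) (nat_lit 6) (nat_lit 10) C.nil) C.nil)) C.nil))) C.nil)) C.nil))) C.nil))) C.nil)))) C.nil))) C.nil)) C.nil))) C.nil))) (C.cons (nat_lit 42) (C.node (nat_lit 2) (nat_lit 4) (nat_lit 10) (C.cons (nat_lit 1556) (C.node (nat_lit 5) (nat_lit 9) (nat_lit 10) (C.cons (nat_lit 1568) (C.node (nat_lit 2) (nat_lit 5) (nat_lit 10) (C.cons (nat_lit 1316) (C.miq (nat_lit 1363312794) (nat_lit 26620644028634342565873537)) (C.cons (nat_lit 1060) (C.node (nat_lit 5) (nat_lit 8) (nat_lit 10) (C.cons (nat_lit 1312) (C.node (nat_lit 2) (nat_lit 7) (nat_lit 10) (C.cons (nat_lit 1220) (C.miq (nat_lit 1631744154) (nat_lit 26618873114181668684695425))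 (C.cons (nat_lit 1156) (C.node (nat_lit 2) (nat_lit 6) (nat_lit 10) (C.cons (nat_lit 1348) (C.miq (nat_lit 2443576450) (nat_lit 1317739861087721413268472085)) (C.cons (nat_lit 1092) (C.node (nat_lit 2) (nat_lit 8) (nat_lit 10) (C.cons (nat_lit 1284) (C.node (nat_lit 1) (nat_lit 2) (nat_lit 7) (C.cons (nat_lit 646) (C.miq (nat_lit 1679886999) (nat_lit 26599965466659946737567617)) (C.cons (nat_lit 390) (C.miq (nat_lit 1361356672) (nat_lit 26617342313364647037962113)) (C.cons (nat_lit 134) (C.node (nat_lit 1) (nat_lit 7) (nat_lit 8) (C.cons (nat_lit 394) (C.node (nat_lit 1) (nat_lit 7) (nat_lit 9) (C.cons (nat_lit 642) (C.node (nat_lit 3) (nat_lit 7) (nat_lit 10) (C.cons (nat_lit 1224) (C.miq (nat_lit 1662363520) (nat_lit 50795858716353296827877249)) (C.cons (nat_lit 1160) (C.node (nat_lit 6) (nat_lit 7) (nat_lit 10) (C.cons (nat_lit 1216) (C.node (nat_lit 2) (nat_lit 4) (nat_lit 7) C.nil) C.nil)) C.nil))) C.nil)) (C.cons (nat_lit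 386) (C.node (nat_lit 1) (nat_lit 3) (nat_lit 7) (C.cons (nat_lit 650) (C.node (nat_lit 3) (nat_lit 7) (nat_lit 10) (C.cons (nat_lit 1224) (C.miq (nat_lit 1662298000) (nat_lit 31453045602520329559934849)) (C.cons (nat_lit 1160) (C.node (nat_lit 6) (nat_lit 7) (nat_lit 10) (C.cons (nat_lit 1216) (C.node (nat_lit 2) (nat_lit 7) (nat_lit 9) C.nil) C.nil)) C.nil))) (C.cons (nat_lit 138) (C.node (nat_lit 1) (nat_lit 7) (nat_lit 9) (C.cons (nat_lit 642) (C.node (nat_lit 3) (nat_lit 7) (nat_lit 10) (C.cons (nat_lit 1224) (C.node (nat_lit 3) (nat_lit 8) (nat_lit 10) (C.cons (nat_lit 1288) (C.node (nat_lit 3) (nat_lit 9) (nat_lit 10) C.nil) C.nil)) (C.cons (nat_lit 1160) (C.node (nat_lit 6) (nat_lit 7) (nat_lit 10) C.nil) C.nil))) C.nil)) C.nil))) C.nil))) C.nil)))) C.nil)) C.nil))) C.nil))) C.nil)) C.nil))) C.nil)) (C.cons (nat_lit 1044) (C.node (nat_lit 4) (nat_lit 9) (nat_lit 10) (C.cons (nat_lit 1552) (C.node (nat_lit 2) (nat_lit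 7) (nat_lit 10) (C.cons (nat_lit 1220) (C.node (nat_lit 3) (nat_lit 7) (nat_lit 10) (C.cons (nat_lit 1160) (C.node (nat_lit 2) (nat_lit 8) (nat_lit 10) (C.cons (nat_lit 1316) (C.miq (nat_lit 1652587089) (nat_lit 334876049491751778539209890)) (C.cons (nat_lit 1284) (C.node (nat_lit 5) (nat_lit 8) (nat_lit 10) (C.cons (nat_lit 1312) (C.node (nat_lit 2) (nat_lit 5) (nat_lit 10)
  (C.cons (nat_lit 1572) (C.miq (nat_lit 1359587170) (nat_lit 641968608830882123119658180)) (C.cons (nat_lit 1060) (C.node (nat_lit 2) (nat_lit 9) (nat_lit 10) (C.cons (nat_lit 1540) (C.node (nat_lit 5) (nat_lit 9) (nat_lit 10) (C.cons (nat_lit 1568) (C.node (nat_lit 1) (nat_lit 2) (nat_lit 7) (C.cons (nat_lit 646) (C.miq (nat_lit 1645520784) (nat_lit 26617342322935895774398337)) (C.cons (nat_lit 390) (C.miq (nat_lit 1361356672) (nat_lit 26617342313364647037962113)) (C.cons (nat_lit 134) (C.node (nat_lit 2) (nat_lit 4) (nat_lit 6) (C.cons (nat_lit 92) (C.node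 (nat_lit 4) (nat_lit 6) (nat_lit 7) (C.cons (nat_lit 720) (C.miq (nat_lit 641836944) (nat_lit 99151083718894740548290433)) (C.cons (nat_lit 464) (C.miq (nat_lit 980820100) (nat_lit 1474891197322763125885239573)) C.nil))) C.nil)) C.nil)))) C.nil)) C.nil)) C.nil))) C.nil)) C.nil))) C.nil)) (C.cons (nat_lit 1156) (C.node (nat_lit 2) (nat_lit 6) (nat_lit 10) (C.cons (nat_lit 1348) (C.miq (nat_lit 2443576450) (nat_lit 1317739861087721413268472085)) (C.cons (nat_lit 1092) (C.node (nat_lit 2) (nat_lit 8) (nat_lit 10) (C.cons (nat_lit 1316) (C.node (nat_lit 2) (nat_lit 9) (nat_lit 10) (C.cons (nat_lit 1540) (C.node (nat_lit 5) (nat_lit 9) (nat_lit 10) (C.cons (nat_lit 1568) (C.node (nat_lit 3) (nat_lit 7) (nat_lit 10) (C.cons (nat_lit 1224) (C.node (nat_lit 3) (nat_lit 8) (nat_lit 10) (C.cons (nat_lit 1288) (C.node (nat_lit 3) (nat_lit 9) (nat_lit 10) (C.cons (nat_lit 1544) (C.node (nat_lit 6) (nat_lit 8) (nat_lit 10) (C.cons (nat_lit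 1344) (C.node (nat_lit 6) (nat_lit 9) (nat_lit 10) (C.cons (nat_lit 1600) (C.node (nat_lit 1) (nat_lit 3) (nat_lit 7) (C.cons (nat_lit 650) (C.miq (nat_lit 1662298000) (nat_lit 31453045602520329559934849)) (C.cons (nat_lit 394) (C.miq (nat_lit 1662363520) (nat_lit 50795858716353296827877249)) (C.cons (nat_lit 138) (C.node (nat_lit 4) (nat_lit 7) (nat_lit 8) (C.cons (nat_lit 464) (C.miq (nat_lit 2258782000) (nat_lit 1320152104897893122626748569)) (C.cons (nat_lit 432) (C.miq (nat_lit 559155832) (nat_lit 60451401021297470943004545)) C.nil))) C.nil)))) C.nil)) C.nil)) C.nil)) C.nil)) (C.cons (nat_lit 1160) (C.node (nat_lit 6) (nat_lit 7) (nat_lit 10) (C.cons (nat_lit 1216) (C.node (nat_lit 3) (nat_lit 8) (nat_lit 10) (C.cons (nat_lit 1352) (C.node (nat_lit 3) (nat_lit 9) (nat_lit 10) (C.cons (nat_lit 1544) (C.node (nat_lit 6) (nat_lit 9) (nat_lit 10) (C.cons (nat_lit 1600) (C.node (nat_lit 1) (nat_lit 3) (nat_lit 6) (C.cons (nat_lit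 586) (C.node (nat_lit 1) (nat_lit 5) (nat_lit 6) (C.cons (nat_lit 102) (C.miq (nat_lit 2049312849) (nat_lit 1320150592674988514586525987)) (C.cons (nat_lit 98) (C.node (nat_lit 3) (nat_lit 4) (nat_lit 6) (C.cons (nat_lit 92) (C.node (nat_lit 1) (nat_lit 2) (nat_lit 5) C.nil) C.nil)) C.nil))) (C.cons (nat_lit 74) (C.node (nat_lit 3) (nat_lit 4) (nat_lit 5) (C.cons (nat_lit 312) (C.node (nat_lit 1) (nat_lit 3) (nat_lit 7) C.nil) (C.cons (nat_lit 60) (C.miq (nat_lit 2052261924) (nat_lit 1286299894962527801890832661)) C.nil))) C.nil))) C.nil)) C.nil)) (C.cons (nat_lit 1288) (C.node (nat_lit 6) (nat_lit 8) (nat_lit 10) (C.cons (nat_lit 1344) (C.node (nat_lit 3) (nat_lit 6) (nat_lit 10) (C.cons (nat_lit 1608) (C.node (nat_lit 2) (nat_lit 8) (nat_lit 9) (C.cons (nat_lit 780) (C.miq (nat_lit 1245185682) (nat_lit 1557101565731794749445898821)) (C.cons (nat_lit 774) (C.miq (nat_lit 1377085584) (nat_lit 26617342349958043294435201)) (C.cons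 (nat_lit 772) (C.node (nat_lit 5) (nat_lit 8) (nat_lit 9) (C.cons (nat_lit 864) (C.miq (nat_lit 1695782922) (nat_lit 50804547031480580078241665)) (C.cons (nat_lit 816) (C.miq (nat_lit 625059984) (nat_lit 60465457518248617038776193)) (C.cons (nat_lit 800) (C.node (nat_lit 1) (nat_lit 3) (nat_lit 6) (C.cons (nat_lit 330) (C.node (nat_lit 1) (nat_lit 8) (nat_lit 9) (C.cons (nat_lit 770) (C.node (nat_lit 3) (nat_lit 4) (nat_lit 6) C.nil) C.nil)) (C.cons (nat_lit 74) (C.node (nat_lit 2) (nat_lit 4) (nat_lit 6) (C.cons (nat_lit 212)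
  (C.node (nat_lit 3) (nat_lit 4) (nat_lit 6) C.nil) C.nil)) C.nil))) C.nil)))) C.nil)))) C.nil)) C.nil)) C.nil))) C.nil)) C.nil))) C.nil)) C.nil)) (C.cons (nat_lit 1284) (C.node (nat_lit 5) (nat_lit 8) (nat_lit 10) (C.cons (nat_lit 1312) (C.node (nat_lit 2) (nat_lit 5) (nat_lit 10) (C.cons (nat_lit 1572) (C.node (nat_lit 1) (nat_lit 2) (nat_lit 5) (C.cons (nat_lit 102) (C.node (nat_lit 1) (nat_lit 5) (nat_lit 9) (C.cons (nat_lit 546) (C.node (nat_lit 1) (nat_lit 2) (nat_lit 7) (C.cons (nat_lit 646) (C.node (nat_lit 1) (nat_lit 2) (nat_lit 8) (C.cons (nat_lit 262) (C.node (nat_lit 2) (nat_lit 4) (nat_lit 9) (C.cons (nat_lit 540) (C.node (nat_lit 2) (nat_lit 8) (nat_lit 9) (C.cons (nat_lit 772) (C.node (nat_lit 2) (nat_lit 4) (nat_lit 5) C.nil) C.nil)) C.nil)) C.nil)) (C.cons (nat_lit 390) (C.miq (nat_lit 1361356672) (nat_lit 26617342313364647037962113)) (C.cons (nat_lit 134) (C.miq (nat_lit 2451023200) (nat_lit 162031496466205006947878001))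 C.nil)))) C.nil)) (C.cons (nat_lit 38) (C.miq (nat_lit 1649478055) (nat_lit 45942778423993995236607873)) C.nil))) (C.cons (nat_lit 1060) (C.node (nat_lit 2) (nat_lit 9) (nat_lit 10) (C.cons (nat_lit 1540) (C.node (nat_lit 5) (nat_lit 9) (nat_lit 10) (C.cons (nat_lit 1568) (C.node (nat_lit 3) (nat_lit 7) (nat_lit 10) (C.cons (nat_lit 1224) (C.node (nat_lit 3) (nat_lit 8) (nat_lit 10) (C.cons (nat_lit 1288) (C.node (nat_lit 3) (nat_lit 9) (nat_lit 10) C.nil) C.nil)) (C.cons (nat_lit 1160) (C.node (nat_lit 6) (nat_lit 7) (nat_lit 10) C.nil) C.nil))) C.nil)) C.nil)) C.nil))) C.nil)) C.nil))) C.nil))) C.nil))) C.nil)) C.nil))) C.nil))) C.nil)) C.nil))) C.nil))) C.nil))) C.nil))) C.nil)))) C.nil))) List.nil)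

theorem ok11_53 : okL par11 (nat_lit 54) c11_53 (nat_lit 53) = true := by decide +kernel

noncomputable def c11_54 : List C :=
  (List.cons (C.node (nat_lit 1) (nat_lit 2) (nat_lit 4) (C.cons (nat_lit 150) (C.node (nat_lit 1) (nat_lit 4) (nat_lit 5) (C.cons (nat_lit 50) (C.node (nat_lit 1) (nat_lit 2) (nat_lit 9) (C.cons (nat_lit 774) (C.miq (nat_lit 1361357184) (nat_lit 181359847332125221724686209)) (C.cons (nat_lit 518) (C.node (nat_lit 1) (nat_lit 7) (nat_lit 8) (C.cons (nat_lit 394) (C.miq (nat_lit 1513621105) (nat_lit 1557101823986210132086882499)) (C.cons (nat_lit 386) (C.node (nat_lit 1) (nat_lit 7) (nat_lit 9) (C.cons (nat_lit 650) (C.miq (nat_lit 1362405744) (nat_lit 31453045699910671477049217)) (C.cons (nat_lit 642) (C.node (nat_lit 2) (nat_lit 4) (nat_lit 6) (C.cons (nat_lit 92) (C.miq (nat_lit 2321680180) (nat_lit 1320152105308002163632111769)) (C.cons (nat_lit 84) (C.node (nat_lit 4) (nat_lit 6) (nat_lit 7) (C.cons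 (nat_lit 720) (C.miq (nat_lit 910272400) (nat_lit 99151083720020640455133057)) (C.cons (nat_lit 464) (C.miq (nat_lit 910337920) (nat_lit 101568935359248799276271489)) (C.cons (nat_lit 208) (C.node (nat_lit 4) (nat_lit 7) (nat_lit 9) (C.cons (nat_lit 688) (C.miq (nat_lit 827591319) (nat_lit 60449113625033980242823041)) (C.cons (nat_lit 656) (C.node (nat_lit 1) (nat_lit 2) (nat_lit 5) (C.cons (nat_lit 102) (C.node (nat_lit 1) (nat_lit 2) (nat_lit 8) C.nil) C.nil)) C.nil))) C.nil)))) C.nil))) C.nil))) C.nil))) C.nil))) C.nil)) (C.cons (nat_lit 54) (C.miq (nat_lit 2320632084) (nat_lit 1436208983991008050460099091)) (C.cons (nat_lit 22) (C.node (nat_lit 1) (nat_lit 2) (nat_lit 9) (C.cons (nat_lit 774) (C.miq (nat_lit 1361357184) (nat_lit 26617342421452687362295681)) (C.cons (nat_lit 646) (C.miq (nat_lit 1377085328) (nat_lit 26617342313928696519657345)) (C.cons (nat_lit 518) (C.node (nat_lit 1) (nat_lit 7) (nat_lit 9) (C.cons (nat_lit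 650) (C.miq (nat_lit 1362405744) (nat_lit 31453045699910671477049217)) (C.cons (nat_lit 642) (C.node (nat_lit 1) (nat_lit 2) (nat_lit 5) (C.cons (nat_lit 102) (C.node (nat_lit 1) (nat_lit 2) (nat_lit 7) (C.cons (nat_lit 390) (C.miq (nat_lit 1919582544) (nat_lit 1320182431324316333906133283)) (C.cons (nat_lit 134) (C.node (nat_lit 1) (nat_lit 2) (nat_lit 8) C.nil) C.nil))) (C.cons (nat_lit 38) (C.node (nat_lit 1) (nat_lit 5) (nat_lit 6) (C.cons (nat_lit 106) (C.miq (nat_lit 2318731105) (nat_lit 1286302440613209578674979011)) (C.cons (nat_lit 98) (C.node (nat_lit 1) (nat_lit 2) (nat_lit 6) (C.cons (nat_lit 326) (C.node (nat_lit 1) (nat_lit 2) (nat_lit 7) C.nil) (C.cons (nat_lit 70) (C.node (nat_lit 1) (nat_lit 2) (nat_lit 7) C.nil) C.nil))) C.nil))) C.nil))) C.nil))) C.nil)))) C.nil)))) (List.cons (C.node (nat_lit 1) (nat_lit 2) (nat_lit 5) (C.cons (nat_lit 102) (C.node (nat_lit 1) (nat_lit 2) (nat_lit 8) (C.cons (nat_lit 774)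 (C.miq (nat_lit 1158810264) (nat_lit 123315543668844385035224961)) (C.cons (nat_lit 390) (C.miq (nat_lit 1919582544) (nat_lit 1320182431324316333906133283)) (C.cons (nat_lit 262) (C.node (nat_lit 1) (nat_lit 2) (nat_lit 9) (C.cons (nat_lit 646) (C.miq (nat_lit 1159793273) (nat_lit 123320229141837466575439745)) (C.cons (nat_lit 518) (C.node (nat_lit 1) (nat_lit 7) (nat_lit 9) (C.cons (nat_lit 650) (C.miq (nat_lit 1243022739) (nat_lit 1395103218507169136833593897)) (C.cons (nat_lit 642) (C.node (nat_lit 5) (nat_lit 6) (nat_lit 8) (C.cons (nat_lit 864) (C.miq (nat_lit 2519368976) (nat_lit 1320182431457735472860561699)) (C.cons (nat_lit 480) (C.miq (nat_lit 1982498064) (nat_lit 1320182431349649081803669795)) (C.cons (nat_lit 352) (C.node (nat_lit 5) (nat_lit 6) (nat_lit 9) (C.cons (nat_lit 736) (C.miq (nat_lit 2502587920) (nat_lit 1436239310104711076613390531)) (C.cons (nat_lit 608) (C.node (nat_lit 5) (nat_lit 7) (nat_lit 9) (C.cons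 (nat_lit 688) (C.miq (nat_lit 1092980903) (nat_lit 123323125110082563173779329)) (C.cons (nat_lit 672) (C.node (nat_lit 5) (nat_lit 8) (nat_lit 9) (C.cons (nat_lit 816) (C.miq (nat_lit 1108705449) (nat_lit 123325486221829353936914305)) (C.cons (nat_lit 804) (C.miq (nat_lit 2032535633) (nat_lit 702389498851910807288414499)) (C.cons (nat_lit 800)
  (C.node (nat_lit 2) (nat_lit 5) (nat_lit 9) (C.cons (nat_lit 564) (C.node (nat_lit 2) (nat_lit 3) (nat_lit 5) (C.cons (nat_lit 300) (C.node (nat_lit 2) (nat_lit 8) (nat_lit 9) C.nil) C.nil)) C.nil)) C.nil)))) C.nil))) C.nil))) C.nil)))) C.nil))) C.nil))) C.nil)))) (C.cons (nat_lit 54) (C.miq (nat_lit 2320632084) (nat_lit 1436208983991008050460099091)) (C.cons (nat_lit 38) (C.node (nat_lit 1) (nat_lit 2) (nat_lit 9) (C.cons (nat_lit 774) (C.miq (nat_lit 1158810264) (nat_lit 45944291213508117854029697)) (C.cons (nat_lit 646) (C.miq (nat_lit 1159793273) (nat_lit 45948976686501199394244481))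 (C.cons (nat_lit 518) (C.node (nat_lit 1) (nat_lit 7) (nat_lit 9) (C.cons (nat_lit 650) (C.miq (nat_lit 1243022739) (nat_lit 1395103218507169136833593897)) (C.cons (nat_lit 642) (C.node (nat_lit 1) (nat_lit 5) (nat_lit 6) (C.cons (nat_lit 106) (C.node (nat_lit 1) (nat_lit 3) (nat_lit 4) (C.cons (nat_lit 26) (C.node (nat_lit 1) (nat_lit 3) (nat_lit 7) (C.cons (nat_lit 394) (C.miq (nat_lit 1936359760) (nat_lit 1634503144425245836416450851)) (C.cons (nat_lit 138) (C.node (nat_lit 1) (nat_lit 3) (nat_lit 8) (C.cons (nat_lit 778) (C.miq (nat_lit 1662298256) (nat_lit 31453045638549676334712705)) (C.cons (nat_lit 266) (C.node (nat_lit 1) (nat_lit 3) (nat_lit 9) C.nil) C.nil))) C.nil))) C.nil)) (C.cons (nat_lit 98) (C.node (nat_lit 1) (nat_lit 2) (nat_lit 4) (C.cons (nat_lit 150) (C.node (nat_lit 1) (nat_lit 4) (nat_lit 5) (C.cons (nat_lit 58) (C.miq (nat_lit 932266149) (nat_lit 776131446146822127487157361)) (C.cons (nat_lit 50) (C.node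 (nat_lit 1) (nat_lit 2) (nat_lit 6) (C.cons (nat_lit 326) (C.node (nat_lit 1) (nat_lit 8) (nat_lit 9) (C.cons (nat_lit 778) (C.miq (nat_lit 893489320) (nat_lit 60460642703281350350342017)) (C.cons (nat_lit 770) (C.node (nat_lit 1) (nat_lit 3) (nat_lit 4) (C.cons (nat_lit 90) (C.miq (nat_lit 832070666) (nat_lit 930897821126587148495029361)) (C.cons (nat_lit 26) (C.node (nat_lit 1) (nat_lit 4) (nat_lit 6) C.nil) C.nil))) C.nil))) (C.cons (nat_lit 70) (C.node (nat_lit 1) (nat_lit 2) (nat_lit 8) C.nil) C.nil))) C.nil))) (C.cons (nat_lit 86) (C.miq (nat_lit 2166989920) (nat_lit 626259011121098397722150001)) (C.cons (nat_lit 22) (C.node (nat_lit 1) (nat_lit 2) (nat_lit 6) (C.cons (nat_lit 326) (C.node (nat_lit 1) (nat_lit 2) (nat_lit 7) (C.cons (nat_lit 134) (C.node (nat_lit 1) (nat_lit 8) (nat_lit 9) (C.cons (nat_lit 778) (C.miq (nat_lit 950374720) (nat_lit 1586120876602859345419502099)) C.nil)) C.nil)) (C.cons (nat_lit 70) (C.node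 (nat_lit 1) (nat_lit 2) (nat_lit 7) (C.cons (nat_lit 390) (C.node (nat_lit 1) (nat_lit 3) (nat_lit 8) (C.cons (nat_lit 778) (C.miq (nat_lit 950374720) (nat_lit 1586120876602859345419502099)) C.nil)) C.nil)) C.nil))) C.nil)))) C.nil))) C.nil))) C.nil)))) C.nil)))) (List.cons (C.node (nat_lit 1) (nat_lit 3) (nat_lit 9) (C.cons (nat_lit 778) (C.miq (nat_lit 950374720) (nat_lit 1586120876602859345419502099)) (C.cons (nat_lit 650) (C.miq (nat_lit 1243022739) (nat_lit 1395103218507169136833593897)) (C.cons (nat_lit 522) (C.node (nat_lit 1) (nat_lit 6) (nat_lit 9) (C.cons (nat_lit 834) (C.node (nat_lit 1) (nat_lit 2) (nat_lit 8) (C.cons (nat_lit 390) (C.node (nat_lit 1) (nat_lit 2) (nat_lit 9) (C.cons (nat_lit 518) (C.node (nat_lit 1) (nat_lit 3) (nat_lit 8) (C.cons (nat_lit 266) (C.node (nat_lit 1) (nat_lit 7) (nat_lit 9) (C.cons (nat_lit 642) (C.node (nat_lit 3) (nat_lit 7) (nat_lit 9) (C.cons (nat_lit 652) (C.miq (nat_lit 1394674040)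 (nat_lit 1256079294737783624464467841)) (C.cons (nat_lit 648) (C.node (nat_lit 1) (nat_lit 2) (nat_lit 4) (C.cons (nat_lit 86) (C.miq (nat_lit 2166989920) (nat_lit 626259011121098397722150001)) (C.cons (nat_lit 54) (C.miq (nat_lit 2435360064) (nat_lit 471516506286986919566181489)) (C.cons (nat_lit 22) (C.node (nat_lit 1) (nat_lit 2) (nat_lit 5) (C.cons (nat_lit 102) (C.miq (nat_lit 1919582544) (nat_lit 1320182431324316333906133283)) (C.cons (nat_lit 38) (C.node (nat_lit 1) (nat_lit 2) (nat_lit 6) C.nil) C.nil))) C.nil)))) C.nil))) C.nil)) C.nil)) C.nil))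
  (C.cons (nat_lit 262) (C.node (nat_lit 1) (nat_lit 2) (nat_lit 9) (C.cons (nat_lit 646) (C.node (nat_lit 1) (nat_lit 2) (nat_lit 4) (C.cons (nat_lit 86) (C.miq (nat_lit 1377085328) (nat_lit 103988594769264963700852609)) (C.cons (nat_lit 54) (C.miq (nat_lit 2435360064) (nat_lit 316774001376314385203790961)) (C.cons (nat_lit 22) (C.miq (nat_lit 1377085328) (nat_lit 26617342313928696519657345)) C.nil)))) (C.cons (nat_lit 518) (C.node (nat_lit 1) (nat_lit 7) (nat_lit 9) (C.cons (nat_lit 642) (C.node (nat_lit 1) (nat_lit 2) (nat_lit 7) (C.cons (nat_lit 150) (C.node (nat_lit 1) (nat_lit 4) (nat_lit 5) (C.cons (nat_lit 58) (C.miq (nat_lit 2031290964) (nat_lit 631062100731399880121648241)) (C.cons (nat_lit 50) (C.node (nat_lit 2) (nat_lit 4) (nat_lit 6) (C.cons (nat_lit 92) (C.miq (nat_lit 1217798307) (nat_lit 1008245830737032332270109711)) (C.cons (nat_lit 84) (C.node (nat_lit 1) (nat_lit 2) (nat_lit 5) (C.cons (nat_lit 38) (C.node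 (nat_lit 1) (nat_lit 2) (nat_lit 6) C.nil) C.nil)) C.nil))) C.nil))) (C.cons (nat_lit 134) (C.node (nat_lit 1) (nat_lit 2) (nat_lit 4) (C.cons (nat_lit 86) (C.miq (nat_lit 2166989920) (nat_lit 626259011121098397722150001)) (C.cons (nat_lit 54) (C.miq (nat_lit 2435360064) (nat_lit 316774001376314385203790961)) (C.cons (nat_lit 22) (C.node (nat_lit 1) (nat_lit 2) (nat_lit 5) (C.cons (nat_lit 102) (C.node (nat_lit 1) (nat_lit 3) (nat_lit 6) C.nil) C.nil)) C.nil)))) C.nil))) C.nil)) C.nil))) C.nil))) (C.cons (nat_lit 578) (C.node (nat_lit 1) (nat_lit 8) (nat_lit 9) (C.cons (nat_lit 774) (C.miq (nat_lit 682004800) (nat_lit 1624807019338235642970702355)) (C.cons (nat_lit 770) (C.node (nat_lit 6) (nat_lit 8) (nat_lit 9) (C.cons (nat_lit 864) (C.miq (nat_lit 964798032) (nat_lit 930892047722972522169435249)) (C.cons (nat_lit 848) (C.miq (nat_lit 562629190) (nat_lit 930883598954029365498741873)) (C.cons (nat_lit 832) (C.node (nat_lit 1)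 (nat_lit 2) (nat_lit 9) (C.cons (nat_lit 646) (C.node (nat_lit 1) (nat_lit 2) (nat_lit 4) (C.cons (nat_lit 86) (C.miq (nat_lit 1377085328) (nat_lit 103988594769264963700852609)) (C.cons (nat_lit 54) (C.miq (nat_lit 2299660884) (nat_lit 780971189759879037769352305)) (C.cons (nat_lit 22) (C.miq (nat_lit 1377085328) (nat_lit 26617342313928696519657345)) C.nil)))) (C.cons (nat_lit 518) (C.node (nat_lit 1) (nat_lit 7) (nat_lit 9) (C.cons (nat_lit 642) (C.node (nat_lit 3) (nat_lit 7) (nat_lit 9) (C.cons (nat_lit 652) (C.node (nat_lit 9) (nat_lit 6) (nat_lit 5) (C.cons (nat_lit 736) (C.miq (nat_lit 1730828592) (nat_lit 1436224847857359650556936745)) (C.cons (nat_lit 608) (C.node (nat_lit 9) (nat_lit 7) (nat_lit 6) (C.cons (nat_lit 720) (C.miq (nat_lit 1764378416) (nat_lit 1861766736357205520426139801)) (C.cons (nat_lit 704) (C.node (nat_lit 9) (nat_lit 6) (nat_lit 4) C.nil) C.nil))) C.nil))) (C.cons (nat_lit 648) (C.node (nat_lit 2)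 (nat_lit 7) (nat_lit 9) (C.cons (nat_lit 660) (C.node (nat_lit 4) (nat_lit 6) (nat_lit 9) (C.cons (nat_lit 592) (C.node (nat_lit 2) (nat_lit 3) (nat_lit 9) (C.cons (nat_lit 524) (C.node (nat_lit 2) (nat_lit 5) (nat_lit 9) C.nil) C.nil)) C.nil)) (C.cons (nat_lit 644) (C.node (nat_lit 4) (nat_lit 6) (nat_lit 9) (C.cons (nat_lit 720) (C.node (nat_lit 5) (nat_lit 7) (nat_lit 9) C.nil) (C.cons (nat_lit 592) (C.node (nat_lit 4) (nat_lit 7) (nat_lit 9) (C.cons (nat_lit 688) (C.miq (nat_lit 663856448) (nat_lit 776149542694079741690053745)) C.nil)) C.nil))) C.nil))) C.nil))) C.nil)) C.nil))) C.nil)))) C.nil))) C.nil))) C.nil)))) (List.cons (C.node (nat_lit 1) (nat_lit 2) (nat_lit 4) (C.cons (nat_lit 86) (C.miq (nat_lit 311969290) (nat_lit 933314676640510741370176625)) (C.cons (nat_lit 54) (C.miq (nat_lit 427966629) (nat_lit 933291729016145166540735601)) (C.cons (nat_lit 22) (C.node (nat_lit 2) (nat_lit 4) (nat_lit 6) (C.cons (nat_lit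 92) (C.miq (nat_lit 847864842) (nat_lit 933320395132861135521383537)) (C.cons (nat_lit 84) (C.node (nat_lit 1) (nat_lit 4) (nat_lit 6) (C.cons (nat_lit 90) (C.node (nat_lit 1) (nat_lit 3) (nat_lit 8) (C.cons (nat_lit 778)
  (C.miq (nat_lit 1446054552) (nat_lit 108808692087886030081492865)) (C.cons (nat_lit 394) (C.miq (nat_lit 2202693984) (nat_lit 1266989695262398498586296515)) (C.cons (nat_lit 266) (C.node (nat_lit 1) (nat_lit 3) (nat_lit 9) (C.cons (nat_lit 650) (C.miq (nat_lit 1936363840) (nat_lit 1943988154318648430459683347)) (C.cons (nat_lit 522) (C.node (nat_lit 1) (nat_lit 7) (nat_lit 8) (C.cons (nat_lit 390) (C.miq (nat_lit 1411451512) (nat_lit 26601736354089373570303873)) (C.cons (nat_lit 386) (C.node (nat_lit 3) (nat_lit 7) (nat_lit 9) (C.cons (nat_lit 652) (C.miq (nat_lit 1512637555) (nat_lit 1861755963576043772693971097)) (C.cons (nat_lit 648) (C.node (nat_lit 1) (nat_lit 3) (nat_lit 5) (C.cons (nat_lit 170) (C.node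 (nat_lit 1) (nat_lit 4) (nat_lit 5) C.nil) C.nil)) C.nil))) C.nil))) C.nil))) C.nil)))) (C.cons (nat_lit 82) (C.node (nat_lit 1) (nat_lit 3) (nat_lit 4) (C.cons (nat_lit 58) (C.miq (nat_lit 1167594250) (nat_lit 967164599581838938654966799)) (C.cons (nat_lit 26) (C.node (nat_lit 1) (nat_lit 4) (nat_lit 5) (C.cons (nat_lit 178) (C.node (nat_lit 1) (nat_lit 3) (nat_lit 5) (C.cons (nat_lit 106) (C.miq (nat_lit 1703489802) (nat_lit 967170318086011462216647695)) (C.cons (nat_lit 42) (C.node (nat_lit 1) (nat_lit 3) (nat_lit 6) (C.cons (nat_lit 330) (C.node (nat_lit 1) (nat_lit 8) (nat_lit 9) (C.cons (nat_lit 770) (C.node (nat_lit 3) (nat_lit 4) (nat_lit 6) (C.cons (nat_lit 88) (C.node (nat_lit 1) (nat_lit 2) (nat_lit 6) C.nil) C.nil)) C.nil)) (C.cons (nat_lit 74) (C.node (nat_lit 3) (nat_lit 4) (nat_lit 6) (C.cons (nat_lit 344) (C.node (nat_lit 3) (nat_lit 4) (nat_lit 5) C.nil) (C.cons (nat_lit 88) (C.node (nat_lit 1) (nat_lit 2) (nat_lit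 6) C.nil) C.nil))) C.nil))) C.nil))) (C.cons (nat_lit 50) (C.node (nat_lit 1) (nat_lit 4) (nat_lit 7) (C.cons (nat_lit 146) (C.node (nat_lit 4) (nat_lit 6) (nat_lit 3) (C.cons (nat_lit 344) (C.node (nat_lit 4) (nat_lit 8) (nat_lit 9) (C.cons (nat_lit 784) (C.node (nat_lit 6) (nat_lit 1) (nat_lit 3) C.nil) C.nil)) (C.cons (nat_lit 88) (C.node (nat_lit 5) (nat_lit 1) (nat_lit 3) (C.cons (nat_lit 170) (C.node (nat_lit 6) (nat_lit 1) (nat_lit 3) C.nil) C.nil)) C.nil))) C.nil)) C.nil))) C.nil))) C.nil))) C.nil))) C.nil)))) (List.cons (C.node (nat_lit 3) (nat_lit 6) (nat_lit 10) (C.cons (nat_lit 1352) (C.node (nat_lit 1) (nat_lit 2) (nat_lit 9) (C.cons (nat_lit 774) (C.miq (nat_lit 682004800) (nat_lit 1634478425895152676368351763)) (C.cons (nat_lit 646) (C.miq (nat_lit 1244202609) (nat_lit 1900441183975342490832470211)) (C.cons (nat_lit 518) (C.node (nat_lit 2) (nat_lit 8) (nat_lit 9) (C.cons (nat_lit 780) (C.node (nat_lit 1) (nat_lit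 3) (nat_lit 8) (C.cons (nat_lit 394) (C.miq (nat_lit 1647380871) (nat_lit 1256077523858234397451487105)) (C.cons (nat_lit 266) (C.node (nat_lit 1) (nat_lit 7) (nat_lit 8) (C.cons (nat_lit 390) (C.miq (nat_lit 1512572529) (nat_lit 1552266120707751598207926467)) (C.cons (nat_lit 386) (C.node (nat_lit 3) (nat_lit 4) (nat_lit 8) (C.cons (nat_lit 312) (C.miq (nat_lit 1698235522) (nat_lit 668546696125235147462934805)) (C.cons (nat_lit 280) (C.node (nat_lit 1) (nat_lit 3) (nat_lit 4) (C.cons (nat_lit 90) (C.miq (nat_lit 2553350756) (nat_lit 321584063779313737306604657)) (C.cons (nat_lit 58) (C.miq (nat_lit 2551384645) (nat_lit 321584469607683126986409073)) (C.cons (nat_lit 26) (C.node (nat_lit 1) (nat_lit 4) (nat_lit 6) (C.cons (nat_lit 86) (C.miq (nat_lit 1914283584) (nat_lit 626259011099143349535442033)) (C.cons (nat_lit 82) (C.node (nat_lit 2) (nat_lit 4) (nat_lit 6) (C.cons (nat_lit 92) (C.miq (nat_lit 2473230912) (nat_lit 1634503144533895117297221909))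 (C.cons (nat_lit 84) (C.node (nat_lit 2) (nat_lit 3) (nat_lit 4) (C.cons (nat_lit 60) (C.miq (nat_lit 2032339540) (nat_lit 942964962191974215785907313)) (C.cons (nat_lit 28) (C.node (nat_lit 3) (nat_lit 4) (nat_lit 5) C.nil) C.nil))) C.nil))) C.nil))) C.nil)))) C.nil))) C.nil))) C.nil))) (C.cons (nat_lit 772) (C.node (nat_lit 1) (nat_lit 2) (nat_lit 8) (C.cons (nat_lit 390)
  (C.miq (nat_lit 1512572529) (nat_lit 1552266120707751598207926467)) (C.cons (nat_lit 326) (C.node (nat_lit 1) (nat_lit 8) (nat_lit 9) (C.cons (nat_lit 778) (C.miq (nat_lit 950374720) (nat_lit 1586120876602859345419502099)) (C.cons (nat_lit 770) (C.node (nat_lit 1) (nat_lit 4) (nat_lit 6) (C.cons (nat_lit 90) (C.miq (nat_lit 832070666) (nat_lit 930897821126587148495029361)) (C.cons (nat_lit 82) (C.node (nat_lit 1) (nat_lit 3) (nat_lit 4) (C.cons (nat_lit 58) (C.miq (nat_lit 964776100) (nat_lit 930873951170084652515984497)) (C.cons (nat_lit 26) (C.node (nat_lit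 2) (nat_lit 5) (nat_lit 6) (C.cons (nat_lit 108) (C.miq (nat_lit 1882630482) (nat_lit 88274090400353660791686692)) (C.cons (nat_lit 100) (C.node (nat_lit 4) (nat_lit 6) (nat_lit 7) (C.cons (nat_lit 720) (C.miq (nat_lit 641836944) (nat_lit 99151083718894740548290433)) (C.cons (nat_lit 464) (C.miq (nat_lit 880936801) (nat_lit 334891618243412529940660419)) (C.cons (nat_lit 208) (C.node (nat_lit 4) (nat_lit 6) (nat_lit 8) (C.cons (nat_lit 848) (C.miq (nat_lit 910272656) (nat_lit 99151083756049987229910913)) (C.cons (nat_lit 336) (C.node (nat_lit 6) (nat_lit 7) (nat_lit 8) (C.cons (nat_lit 480) (C.miq (nat_lit 308611704) (nat_lit 120897950256446107644069761)) (C.cons (nat_lit 448) (C.node (nat_lit 5) (nat_lit 6) (nat_lit 8) (C.cons (nat_lit 864) (C.miq (nat_lit 962725249) (nat_lit 702405067518851507722518819)) C.nil)) C.nil))) C.nil))) C.nil)))) C.nil))) C.nil))) C.nil))) C.nil))) (C.cons (nat_lit 262) (C.node (nat_lit 1) (nat_lit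 2) (nat_lit 6) (C.cons (nat_lit 102) (C.miq (nat_lit 1914218064) (nat_lit 316774001277798349514409073)) (C.cons (nat_lit 86) (C.miq (nat_lit 1914283584) (nat_lit 626259011099143349535442033)) (C.cons (nat_lit 70) (C.node (nat_lit 1) (nat_lit 4) (nat_lit 6) (C.cons (nat_lit 90) (C.node (nat_lit 1) (nat_lit 3) (nat_lit 8) (C.cons (nat_lit 778) (C.miq (nat_lit 1410534025) (nat_lit 108813525134832010544154497)) (C.cons (nat_lit 394) (C.miq (nat_lit 2553350756) (nat_lit 476326568689986271668995185)) (C.cons (nat_lit 266) (C.miq (nat_lit 2553350756) (nat_lit 321584063779313737306604657)) C.nil)))) (C.cons (nat_lit 82) (C.node (nat_lit 1) (nat_lit 3) (nat_lit 4) (C.cons (nat_lit 58) (C.miq (nat_lit 2588084245) (nat_lit 1266964460546323141606637859)) (C.cons (nat_lit 26) (C.node (nat_lit 1) (nat_lit 6) (nat_lit 8) (C.cons (nat_lit 834) (C.node (nat_lit 3) (nat_lit 8) (nat_lit 9) (C.cons (nat_lit 792) (C.miq (nat_lit 1938162833) (nat_lit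 1634471305277142090670801427)) (C.cons (nat_lit 776) (C.node (nat_lit 4) (nat_lit 8) (nat_lit 9) (C.cons (nat_lit 816) (C.miq (nat_lit 1393856680) (nat_lit 31447124008804630213560193)) (C.cons (nat_lit 784) (C.node (nat_lit 5) (nat_lit 8) (nat_lit 9) C.nil) C.nil))) C.nil))) (C.cons (nat_lit 322) (C.node (nat_lit 1) (nat_lit 8) (nat_lit 9) (C.cons (nat_lit 778) (C.miq (nat_lit 1662298256) (nat_lit 31453045638549676334712705)) (C.cons (nat_lit 770) (C.node (nat_lit 1) (nat_lit 3) (nat_lit 8) (C.cons (nat_lit 394) (C.node (nat_lit 1) (nat_lit 3) (nat_lit 5) (C.cons (nat_lit 106) (C.miq (nat_lit 1936359760) (nat_lit 1634503144425245836416450851)) C.nil)) C.nil)) C.nil))) C.nil))) C.nil))) C.nil))) C.nil)))) C.nil)))) C.nil))) C.nil)))) C.nil)) (List.cons (C.node (nat_lit 1) (nat_lit 3) (nat_lit 4) (C.cons (nat_lit 90) (C.node (nat_lit 1) (nat_lit 3) (nat_lit 8) (C.cons (nat_lit 778) (C.miq (nat_lit 1410534025) (nat_lit 108813525134832010544154497))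 (C.cons (nat_lit 394) (C.miq (nat_lit 2202693984) (nat_lit 1266989695262398498586296515)) (C.cons (nat_lit 266) (C.node (nat_lit 1) (nat_lit 3) (nat_lit 9) (C.cons (nat_lit 650) (C.miq (nat_lit 2471129440) (nat_lit 1266989695334456092624224451)) (C.cons (nat_lit 522) (C.node (nat_lit 3) (nat_lit 6) (nat_lit 10) (C.cons (nat_lit 1352) (C.miq (nat_lit 2199496256) (nat_lit 631094714414756580339942513)) (C.cons (nat_lit 1224) (C.miq (nat_lit 1931060800) (nat_lit 631094714378727783320978545)) (C.cons (nat_lit 1096) (C.node (nat_lit 3) (nat_lit 8) (nat_lit 10) (C.cons (nat_lit 1320)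
  (C.miq (nat_lit 2474706340) (nat_lit 321584063394255831806641265)) (C.cons (nat_lit 1288) (C.node (nat_lit 6) (nat_lit 8) (nat_lit 10) (C.cons (nat_lit 1348) (C.miq (nat_lit 443107360) (nat_lit 1934291106969870128726212885)) (C.cons (nat_lit 1344) (C.node (nat_lit 4) (nat_lit 6) (nat_lit 8) (C.cons (nat_lit 848) (C.miq (nat_lit 558238345) (nat_lit 108814041616081526698542977)) (C.cons (nat_lit 464) (C.miq (nat_lit 2218423824) (nat_lit 1266989695282101746949619907)) (C.cons (nat_lit 336) (C.node (nat_lit 4) (nat_lit 6) (nat_lit 9) (C.cons (nat_lit 720) (C.miq (nat_lit 1983550480) (nat_lit 1325018134695661541373444627)) (C.cons (nat_lit 592) (C.node (nat_lit 1) (nat_lit 3) (nat_lit 5) (C.cons (nat_lit 170) (C.node (nat_lit 3) (nat_lit 5) (nat_lit 10) (C.cons (nat_lit 1064) (C.node (nat_lit 3) (nat_lit 7) (nat_lit 10) C.nil) C.nil)) (C.cons (nat_lit 42) (C.node (nat_lit 1) (nat_lit 3) (nat_lit 7) (C.cons (nat_lit 138) (C.node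 (nat_lit 3) (nat_lit 5) (nat_lit 10) (C.cons (nat_lit 1192) (C.node (nat_lit 2) (nat_lit 5) (nat_lit 10) (C.cons (nat_lit 1316) (C.node (nat_lit 1) (nat_lit 4) (nat_lit 5) (C.cons (nat_lit 182) (C.miq (nat_lit 874868874) (nat_lit 220046487731865232810968961)) (C.cons (nat_lit 178) (C.miq (nat_lit 2222268474) (nat_lit 215213071884574220624593935)) (C.cons (nat_lit 54) (C.miq (nat_lit 874868874) (nat_lit 65303982821192698448578433)) C.nil)))) C.nil)) C.nil)) C.nil)) C.nil))) C.nil))) C.nil)))) C.nil))) C.nil))) C.nil)))) C.nil))) C.nil)))) (C.cons (nat_lit 58) (C.miq (nat_lit 2588084245) (nat_lit 1266964460546323141606637859)) (C.cons (nat_lit 26) (C.node (nat_lit 1) (nat_lit 4) (nat_lit 6) (C.cons (nat_lit 86) (C.miq (nat_lit 2585135170) (nat_lit 1317739861478971630813577493)) (C.cons (nat_lit 82) (C.node (nat_lit 2) (nat_lit 6) (nat_lit 10) (C.cons (nat_lit 1348) (C.miq (nat_lit 443107360) (nat_lit 1934291106969870128726212885))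 (C.cons (nat_lit 1220) (C.node (nat_lit 2) (nat_lit 4) (nat_lit 6) (C.cons (nat_lit 92) (C.node (nat_lit 2) (nat_lit 3) (nat_lit 9) (C.cons (nat_lit 780) (C.miq (nat_lit 1788035202) (nat_lit 1866583162905487526228394261)) (C.cons (nat_lit 652) (C.miq (nat_lit 1445137017) (nat_lit 111231376774060933877860225)) (C.cons (nat_lit 524) (C.node (nat_lit 3) (nat_lit 7) (nat_lit 10) (C.cons (nat_lit 1192) (C.miq (nat_lit 1938990342) (nat_lit 633499634841356160593101937)) (C.cons (nat_lit 1160) (C.node (nat_lit 5) (nat_lit 7) (nat_lit 10) (C.cons (nat_lit 1184) (C.node (nat_lit 3) (nat_lit 5) (nat_lit 10) (C.cons (nat_lit 1320) (C.miq (nat_lit 977885200) (nat_lit 1876263073462929784686444835)) (C.cons (nat_lit 1064) (C.node (nat_lit 2) (nat_lit 5) (nat_lit 10) (C.cons (nat_lit 1316) (C.node (nat_lit 3) (nat_lit 6) (nat_lit 10) (C.cons (nat_lit 1352) (C.node (nat_lit 2) (nat_lit 3) (nat_lit 8) (C.cons (nat_lit 396) (C.miq (nat_lit 1379182704)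 (nat_lit 111242149722980462001457025)) (C.cons (nat_lit 268) (C.node (nat_lit 2) (nat_lit 5) (nat_lit 6) (C.cons (nat_lit 102) (C.node (nat_lit 2) (nat_lit 6) (nat_lit 8) (C.cons (nat_lit 324) (C.node (nat_lit 1) (nat_lit 2) (nat_lit 4) (C.cons (nat_lit 150) (C.miq (nat_lit 2267089509) (nat_lit 181344241485438495813403761)) (C.cons (nat_lit 22) (C.node (nat_lit 2) (nat_lit 3) (nat_lit 5) (C.cons (nat_lit 172) (C.node (nat_lit 2) (nat_lit 4) (nat_lit 5) C.nil) C.nil)) C.nil))) C.nil)) (C.cons (nat_lit 100) (C.miq (nat_lit 354814119) (nat_lit 120896179158472161312900993)) C.nil))) C.nil))) C.nil)) C.nil)) C.nil))) C.nil)) C.nil))) C.nil)))) (C.cons (nat_lit 84) (C.node (nat_lit 2) (nat_lit 5) (nat_lit 10) (C.cons (nat_lit 1316) (C.node (nat_lit 1) (nat_lit 2) (nat_lit 6) (C.cons (nat_lit 326) (C.miq (nat_lit 1382124144) (nat_lit 394115185567320869657839489)) (C.cons (nat_lit 102) (C.node (nat_lit 1) (nat_lit 2) (nat_lit 4) (C.cons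 (nat_lit 150) (C.miq (nat_lit 2267089509) (nat_lit 181344241485438495813403761)) (C.cons (nat_lit 22) (C.node (nat_lit 1) (nat_lit 2) (nat_lit 7) (C.cons (nat_lit 646)
  (C.miq (nat_lit 1645520784) (nat_lit 26617342322935895774398337)) (C.cons (nat_lit 390) (C.node (nat_lit 1) (nat_lit 2) (nat_lit 9) (C.cons (nat_lit 518) (C.node (nat_lit 4) (nat_lit 6) (nat_lit 7) (C.cons (nat_lit 720) (C.miq (nat_lit 641836944) (nat_lit 99151083718894740548290433)) (C.cons (nat_lit 464) (C.miq (nat_lit 1450707489) (nat_lit 560946948623755674948862991)) (C.cons (nat_lit 208) (C.node (nat_lit 4) (nat_lit 7) (nat_lit 8) (C.cons (nat_lit 432) (C.miq (nat_lit 847710804) (nat_lit 471483892294006808704451697)) (C.cons (nat_lit 400) (C.node (nat_lit 3) (nat_lit 5) (nat_lit 10) (C.cons (nat_lit 1192) (C.miq (nat_lit 1481089539) (nat_lit 483592316735209790735189007)) (C.cons (nat_lit 1064) (C.node (nat_lit 3) (nat_lit 7) (nat_lit 10) (C.cons (nat_lit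 1160) (C.node (nat_lit 5) (nat_lit 7) (nat_lit 10) (C.cons (nat_lit 1184) (C.node (nat_lit 1) (nat_lit 3) (nat_lit 5) (C.cons (nat_lit 170) (C.node (nat_lit 1) (nat_lit 4) (nat_lit 5) C.nil) C.nil)) C.nil)) C.nil)) C.nil))) C.nil))) C.nil)))) C.nil)) (C.cons (nat_lit 134) (C.miq (nat_lit 2267089509) (nat_lit 162001428371604429018104945)) C.nil)))) C.nil))) (C.cons (nat_lit 70) (C.miq (nat_lit 1382124144) (nat_lit 84630175745975800933058433)) C.nil)))) (C.cons (nat_lit 1060) (C.node (nat_lit 2) (nat_lit 8) (nat_lit 10) (C.cons (nat_lit 1284) (C.node (nat_lit 5) (nat_lit 8) (nat_lit 10) (C.cons (nat_lit 1320) (C.miq (nat_lit 977885200) (nat_lit 1876263073462929784686444835)) (C.cons (nat_lit 1312) (C.node (nat_lit 3) (nat_lit 5) (nat_lit 10) (C.cons (nat_lit 1192) (C.node (nat_lit 3) (nat_lit 6) (nat_lit 10) (C.cons (nat_lit 1352) (C.node (nat_lit 3) (nat_lit 6) (nat_lit 7) (C.cons (nat_lit 712) (C.miq (nat_lit 658074192) (nat_lit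 860765901467327388864545905)) (C.cons (nat_lit 200) (C.node (nat_lit 2) (nat_lit 3) (nat_lit 7) (C.cons (nat_lit 652) (C.node (nat_lit 1) (nat_lit 3) (nat_lit 5) (C.cons (nat_lit 106) (C.miq (nat_lit 592869642) (nat_lit 128168642090444678178604929)) (C.cons (nat_lit 42) (C.node (nat_lit 1) (nat_lit 7) (nat_lit 9) (C.cons (nat_lit 674) (C.miq (nat_lit 1702431282) (nat_lit 814826720298609057165214735)) (C.cons (nat_lit 642) (C.node (nat_lit 2) (nat_lit 3) (nat_lit 4) (C.cons (nat_lit 60) (C.miq (nat_lit 1647683472) (nat_lit 72556523468291830184478593)) (C.cons (nat_lit 28) (C.node (nat_lit 2) (nat_lit 3) (nat_lit 6) (C.cons (nat_lit 108) (C.node (nat_lit 2) (nat_lit 3) (nat_lit 8) C.nil) (C.cons (nat_lit 76) (C.miq (nat_lit 1445137017) (nat_lit 91888563660226867082561409)) C.nil))) C.nil))) C.nil))) C.nil))) (C.cons (nat_lit 396) (C.miq (nat_lit 2457011877) (nat_lit 478744825780408115972801649)) (C.cons (nat_lit 140) (C.miq (nat_lit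 2457011877) (nat_lit 169259815959063047248020593)) C.nil)))) C.nil))) C.nil)) C.nil)) C.nil))) C.nil)) C.nil))) C.nil))) (C.cons (nat_lit 1092) (C.node (nat_lit 2) (nat_lit 7) (nat_lit 10) (C.cons (nat_lit 1188) (C.node (nat_lit 2) (nat_lit 8) (nat_lit 10) (C.cons (nat_lit 1284) (C.node (nat_lit 3) (nat_lit 5) (nat_lit 10) (C.cons (nat_lit 1320) (C.miq (nat_lit 977885200) (nat_lit 1876263073462929784686444835)) (C.cons (nat_lit 1064) (C.node (nat_lit 5) (nat_lit 8) (nat_lit 10) C.nil) C.nil))) C.nil)) (C.cons (nat_lit 1156) (C.node (nat_lit 2) (nat_lit 5) (nat_lit 10) (C.cons (nat_lit 1316) (C.node (nat_lit 3) (nat_lit 5) (nat_lit 10) (C.cons (nat_lit 1192) (C.node (nat_lit 6) (nat_lit 7) (nat_lit 10) (C.cons (nat_lit 1216) (C.node (nat_lit 3) (nat_lit 6) (nat_lit 10) (C.cons (nat_lit 1352) (C.node (nat_lit 3) (nat_lit 5) (nat_lit 8) (C.cons (nat_lit 312) (C.miq (nat_lit 624200304) (nat_lit 377189965838298909016393601)) (C.cons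 (nat_lit 296) (C.node (nat_lit 3) (nat_lit 4) (nat_lit 5) (C.cons (nat_lit 60) (C.node (nat_lit 1) (nat_lit 4) (nat_lit 5) (C.cons (nat_lit 178) (C.miq (nat_lit 2270431794) (nat_lit 215193906180230960509617167)) (C.cons (nat_lit 50) (C.node (nat_lit 2) (nat_lit 3) (nat_lit 6) (C.cons (nat_lit 204) (C.miq (nat_lit 2184684864) (nat_lit 246656303767171274748003441)) (C.cons (nat_lit 76)
  (C.node (nat_lit 2) (nat_lit 3) (nat_lit 7) (C.cons (nat_lit 652) (C.miq (nat_lit 1395042192) (nat_lit 91899336574244597633714049)) (C.cons (nat_lit 396) (C.node (nat_lit 1) (nat_lit 7) (nat_lit 8) (C.cons (nat_lit 386) (C.node (nat_lit 2) (nat_lit 3) (nat_lit 9) (C.cons (nat_lit 524) (C.node (nat_lit 1) (nat_lit 3) (nat_lit 7) (C.cons (nat_lit 650) (C.miq (nat_lit 321165184) (nat_lit 72545344580941325941409665)) (C.cons (nat_lit 138) (C.node (nat_lit 1) (nat_lit 3) (nat_lit 5) C.nil) C.nil))) C.nil)) C.nil)) (C.cons (nat_lit 140) (C.miq (nat_lit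 2184684864) (nat_lit 169285051311835007566808177)) C.nil)))) C.nil))) C.nil))) (C.cons (nat_lit 56) (C.miq (nat_lit 624200304) (nat_lit 67704956016953840291612545)) C.nil))) C.nil))) C.nil)) C.nil)) (C.cons (nat_lit 1064) (C.node (nat_lit 5) (nat_lit 7) (nat_lit 10) C.nil) C.nil))) (C.cons (nat_lit 1060) (C.node (nat_lit 2) (nat_lit 8) (nat_lit 10) (C.cons (nat_lit 1284) (C.node (nat_lit 5) (nat_lit 7) (nat_lit 10) (C.cons (nat_lit 1184) (C.node (nat_lit 3) (nat_lit 5) (nat_lit 10) (C.cons (nat_lit 1064) (C.node (nat_lit 5) (nat_lit 8) (nat_lit 10) C.nil) C.nil)) C.nil)) C.nil)) C.nil))) C.nil))) C.nil)))) C.nil))) C.nil)))) List.nil))))))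

theorem ok11_54 : okL par11 (nat_lit 60) c11_54 (nat_lit 54) = true := by decide +kernel

noncomputable def c11_60 : List C :=
  (List.cons (C.node (nat_lit 3) (nat_lit 4) (nat_lit 10) (C.cons (nat_lit 1560) (C.node (nat_lit 6) (nat_lit 9) (nat_lit 10) (C.cons (nat_lit 1600) (C.node (nat_lit 1) (nat_lit 3) (nat_lit 4) (C.cons (nat_lit 90) (C.miq (nat_lit 1396771240) (nat_lit 108808691923504437558118273)) (C.cons (nat_lit 58) (C.node (nat_lit 1) (nat_lit 4) (nat_lit 6) (C.cons (nat_lit 86) (C.miq (nat_lit 2450720325) (nat_lit 1256084127792609804741641329)) (C.cons (nat_lit 82) (C.node (nat_lit 3) (nat_lit 5) (nat_lit 10) (C.cons (nat_lit 1320) (C.node (nat_lit 2) (nat_lit 8) (nat_lit 10) (C.cons (nat_lit 1348) (C.miq (nat_lit 443107360) (nat_lit 1934291106969870128726212885)) (C.cons (nat_lit 1284) (C.node (nat_lit 6) (nat_lit 8) (nat_lit 10) (C.cons (nat_lit 1344) (C.node (nat_lit 3) (nat_lit 6) (nat_lit 10) (C.cons (nat_lit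 1224) (C.miq (nat_lit 1632858250) (nat_lit 70140276407283583004706689)) (C.cons (nat_lit 1096) (C.node (nat_lit 3) (nat_lit 7) (nat_lit 10) (C.cons (nat_lit 1160) (C.node (nat_lit 4) (nat_lit 5) (nat_lit 8) (C.cons (nat_lit 816) (C.node (nat_lit 4) (nat_lit 6) (nat_lit 9) (C.cons (nat_lit 720) (C.miq (nat_lit 1415678320) (nat_lit 99137285440611715190556545)) (C.cons (nat_lit 592) (C.node (nat_lit 1) (nat_lit 3) (nat_lit 7) (C.cons (nat_lit 650) (C.miq (nat_lit 1680935575) (nat_lit 70121294972786614207121281)) (C.cons (nat_lit 394) (C.miq (nat_lit 1697712775) (nat_lit 70121294972785583398193025)) (C.cons (nat_lit 138) (C.node (nat_lit 2) (nat_lit 8) (nat_lit 9) (C.cons (nat_lit 780) (C.miq (nat_lit 327748180) (nat_lit 942971934812972066255406193)) (C.cons (nat_lit 774) (C.miq (nat_lit 641831080) (nat_lit 99146195151854488450631553)) (C.cons (nat_lit 772) (C.node (nat_lit 1) (nat_lit 2) (nat_lit 4) (C.cons (nat_lit 150) (C.node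 (nat_lit 1) (nat_lit 7) (nat_lit 8) (C.cons (nat_lit 386) (C.node (nat_lit 2) (nat_lit 4) (nat_lit 5) (C.cons (nat_lit 52) (C.node (nat_lit 2) (nat_lit 4) (nat_lit 9) (C.cons (nat_lit 532) (C.node (nat_lit 2) (nat_lit 4) (nat_lit 10) (C.cons (nat_lit 1044) (C.node (nat_lit 4) (nat_lit 5) (nat_lit 7) (C.cons (nat_lit 176) (C.node (nat_lit 4) (nat_lit 7) (nat_lit 9) (C.cons (nat_lit 656) (C.node (nat_lit 4) (nat_lit 7) (nat_lit 10) (C.cons (nat_lit 1168) (C.node (nat_lit 1) (nat_lit 2) (nat_lit 9) (C.cons (nat_lit 550) (C.miq (nat_lit 2423411521) (nat_lit 160797279873642539750129722)) (C.cons (nat_lit 518) (C.node (nat_lit 2) (nat_lit 3) (nat_lit 5) (C.cons (nat_lit 236) (C.miq (nat_lit 2452686420) (nat_lit 1256083721964240827376600177)) (C.cons (nat_lit 172) (C.miq (nat_lit 1464414736) (nat_lit 793065538765083840263422991)) (C.cons (nat_lit 108) (C.miq (nat_lit 2452686420) (nat_lit 1256083721964240277620786289)) (C.cons (nat_lit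 44) (C.node (nat_lit 1) (nat_lit 2) (nat_lit 5) (C.cons (nat_lit 102) (C.node (nat_lit 1) (nat_lit 2) (nat_lit 8) (C.cons (nat_lit 262) (C.node (nat_lit 1) (nat_lit 5) (nat_lit 7) (C.cons (nat_lit 674) (C.node (nat_lit 2) (nat_lit 7) (nat_lit 9) C.nil) C.nil)) C.nil)) (C.cons (nat_lit 38) (C.node (nat_lit 1) (nat_lit 2) (nat_lit 6) (C.cons (nat_lit 326) (C.node (nat_lit 1) (nat_lit 3) (nat_lit 6) (C.cons (nat_lit 586) (C.miq (nat_lit 2299745290) (nat_lit 708454880226035854677574769)) C.nil)) (C.cons (nat_lit 70) (C.node (nat_lit 1) (nat_lit 3) (nat_lit 8) (C.cons (nat_lit 266) (C.miq (nat_lit 2436382885) (nat_lit 321589320710123182656849009)) C.nil)) C.nil))) C.nil))) C.nil))))) C.nil))) C.nil)) C.nil)) C.nil)) C.nil)) C.nil)) C.nil)) C.nil)) (C.cons (nat_lit 22) (C.node (nat_lit 1) (nat_lit 4) (nat_lit 7) (C.cons (nat_lit 146) (C.node (nat_lit 1) (nat_lit 7) (nat_lit 8) (C.cons (nat_lit 390) (C.node (nat_lit 1) (nat_lit 2) (nat_lit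 6) (C.cons (nat_lit 102) (C.miq (nat_lit 1518493809) (nat_lit 1552262634273124677874745539)) (C.cons (nat_lit 70) (C.node (nat_lit 2) (nat_lit 3) (nat_lit 9) (C.cons (nat_lit 652) (C.miq (nat_lit 1394674040) (nat_lit 1256079294737783624464467841)) (C.cons (nat_lit 524) (C.node (nat_lit 2) (nat_lit 4) (nat_lit 10) (C.cons (nat_lit 1172)
  (C.miq (nat_lit 1411451512) (nat_lit 26601736354089373570303873)) (C.cons (nat_lit 1044) (C.node (nat_lit 4) (nat_lit 7) (nat_lit 10) (C.cons (nat_lit 1168) (C.node (nat_lit 2) (nat_lit 6) (nat_lit 10) (C.cons (nat_lit 1220) (C.miq (nat_lit 1445005944) (nat_lit 84630175695591780114630529)) (C.cons (nat_lit 1092) (C.node (nat_lit 6) (nat_lit 7) (nat_lit 10) (C.cons (nat_lit 1216) (C.node (nat_lit 1) (nat_lit 2) (nat_lit 5) (C.cons (nat_lit 38) (C.node (nat_lit 1) (nat_lit 2) (nat_lit 9) C.nil) C.nil)) C.nil)) C.nil))) C.nil)) C.nil))) C.nil))) C.nil))) (C.cons (nat_lit 386) (C.node (nat_lit 1)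 (nat_lit 2) (nat_lit 8) (C.cons (nat_lit 326) (C.node (nat_lit 1) (nat_lit 3) (nat_lit 6) (C.cons (nat_lit 586) (C.miq (nat_lit 2299745290) (nat_lit 708454880226035854677574769)) (C.cons (nat_lit 74) (C.node (nat_lit 1) (nat_lit 3) (nat_lit 8) (C.cons (nat_lit 778) (C.node (nat_lit 6) (nat_lit 8) (nat_lit 9) (C.cons (nat_lit 832) (C.node (nat_lit 3) (nat_lit 4) (nat_lit 8) (C.cons (nat_lit 280) (C.node (nat_lit 4) (nat_lit 6) (nat_lit 8) (C.cons (nat_lit 336) (C.node (nat_lit 4) (nat_lit 7) (nat_lit 8) C.nil) C.nil)) C.nil)) C.nil)) (C.cons (nat_lit 266) (C.miq (nat_lit 2436382885) (nat_lit 321589320710123182656849009)) C.nil))) C.nil))) (C.cons (nat_lit 262) (C.node (nat_lit 1) (nat_lit 2) (nat_lit 6) (C.cons (nat_lit 102) (C.node (nat_lit 1) (nat_lit 2) (nat_lit 7) (C.cons (nat_lit 646) (C.miq (nat_lit 1901761120) (nat_lit 1279078953529476536004051525)) (C.cons (nat_lit 134) (C.node (nat_lit 1) (nat_lit 2) (nat_lit 9) (C.cons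 (nat_lit 518) (C.node (nat_lit 2) (nat_lit 6) (nat_lit 10) (C.cons (nat_lit 1220) (C.miq (nat_lit 1914218064) (nat_lit 316774001277798349514409073)) (C.cons (nat_lit 1092) (C.node (nat_lit 6) (nat_lit 7) (nat_lit 10) (C.cons (nat_lit 1216) (C.node (nat_lit 1) (nat_lit 5) (nat_lit 7) (C.cons (nat_lit 674) (C.node (nat_lit 5) (nat_lit 6) (nat_lit 9) (C.cons (nat_lit 608) (C.node (nat_lit 2) (nat_lit 4) (nat_lit 5) (C.cons (nat_lit 52) (C.node (nat_lit 2) (nat_lit 3) (nat_lit 4) C.nil) C.nil)) C.nil)) C.nil)) C.nil)) C.nil))) C.nil)) C.nil))) (C.cons (nat_lit 70) (C.node (nat_lit 1) (nat_lit 5) (nat_lit 6) (C.cons (nat_lit 610) (C.node (nat_lit 1) (nat_lit 3) (nat_lit 6) (C.cons (nat_lit 330) (C.miq (nat_lit 2436382885) (nat_lit 398960573165459449838044273)) (C.cons (nat_lit 74) (C.node (nat_lit 1) (nat_lit 6) (nat_lit 8) C.nil) C.nil))) (C.cons (nat_lit 98) (C.node (nat_lit 2) (nat_lit 3) (nat_lit 4) (C.cons (nat_lit 92) (C.node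 (nat_lit 3) (nat_lit 4) (nat_lit 8) (C.cons (nat_lit 280) (C.node (nat_lit 2) (nat_lit 3) (nat_lit 8) (C.cons (nat_lit 396) (C.miq (nat_lit 1936360000) (nat_lit 1325018134604463657515548949)) (C.cons (nat_lit 268) (C.node (nat_lit 2) (nat_lit 3) (nat_lit 9) (C.cons (nat_lit 652) (C.miq (nat_lit 1934266976) (nat_lit 1885959714977709188617142853)) (C.cons (nat_lit 524) (C.node (nat_lit 3) (nat_lit 7) (nat_lit 9) (C.cons (nat_lit 712) (C.miq (nat_lit 1934136864) (nat_lit 338534665887872343539515973)) (C.cons (nat_lit 648) (C.node (nat_lit 2) (nat_lit 6) (nat_lit 10) (C.cons (nat_lit 1220) (C.node (nat_lit 2) (nat_lit 4) (nat_lit 10) C.nil) C.nil)) C.nil))) C.nil))) C.nil))) C.nil)) (C.cons (nat_lit 28) (C.node (nat_lit 2) (nat_lit 3) (nat_lit 9) (C.cons (nat_lit 652) (C.node (nat_lit 2) (nat_lit 4) (nat_lit 9) (C.cons (nat_lit 532) (C.node (nat_lit 4) (nat_lit 7) (nat_lit 9) (C.cons (nat_lit 656) (C.node (nat_lit 2) (nat_lit 3)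 (nat_lit 5) (C.cons (nat_lit 108) (C.miq (nat_lit 2452686420) (nat_lit 1256083721964240277620786289)) (C.cons (nat_lit 44) (C.node (nat_lit 2) (nat_lit 4) (nat_lit 6) (C.cons (nat_lit 212) (C.miq (nat_lit 1400113446) (nat_lit 184986624504708533943796293)) (C.cons (nat_lit 84) (C.node (nat_lit 2) (nat_lit 4) (nat_lit 10) (C.cons (nat_lit 1172) (C.miq (nat_lit 1110812560) (nat_lit 53213710340946964507068289)) C.nil)) C.nil))) C.nil))) C.nil)) C.nil)) (C.cons (nat_lit 524) (C.node (nat_lit 2) (nat_lit 4) (nat_lit 5) (C.cons (nat_lit 180)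
  (C.node (nat_lit 2) (nat_lit 4) (nat_lit 6) (C.cons (nat_lit 84) (C.node (nat_lit 2) (nat_lit 4) (nat_lit 10) C.nil) C.nil)) (C.cons (nat_lit 52) (C.node (nat_lit 4) (nat_lit 5) (nat_lit 7) (C.cons (nat_lit 176) (C.node (nat_lit 2) (nat_lit 4) (nat_lit 6) (C.cons (nat_lit 212) (C.node (nat_lit 2) (nat_lit 4) (nat_lit 10) C.nil) (C.cons (nat_lit 84) (C.node (nat_lit 2) (nat_lit 4) (nat_lit 10) (C.cons (nat_lit 1172) (C.node (nat_lit 2) (nat_lit 6) (nat_lit 10) C.nil) C.nil)) C.nil))) C.nil)) C.nil))) C.nil))) C.nil))) C.nil))) C.nil))) C.nil))) C.nil))) C.nil)) C.nil))) C.nil)))) C.nil)))) C.nil))) (C.cons (nat_lit 432) (C.miq (nat_lit 2488836880) (nat_lit 522291390707986612317520911)) (C.cons (nat_lit 304) (C.miq (nat_lit 2488836880) (nat_lit 367548885797314077955130383)) C.nil)))) C.nil)) C.nil))) C.nil)) C.nil))) (C.cons (nat_lit 1192) (C.miq (nat_lit 2235175060) (nat_lit 1441063520936357244689711635)) (C.cons (nat_lit 1064)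 (C.miq (nat_lit 2235175060) (nat_lit 1286321016025684710327321107)) C.nil)))) C.nil))) (C.cons (nat_lit 26) (C.miq (nat_lit 1396771240) (nat_lit 31437439468168170376923009)) C.nil)))) C.nil)) (C.cons (nat_lit 1048) (C.node (nat_lit 3) (nat_lit 9) (nat_lit 10) (C.cons (nat_lit 1608) (C.node (nat_lit 3) (nat_lit 8) (nat_lit 10) (C.cons (nat_lit 1320) (C.miq (nat_lit 2477000065) (nat_lit 1266964054332895846426870051)) (C.cons (nat_lit 1288) (C.node (nat_lit 6) (nat_lit 8) (nat_lit 10) (C.cons (nat_lit 1348) (C.miq (nat_lit 443107360) (nat_lit 1943962513526787162123862293)) (C.cons (nat_lit 1344) (C.node (nat_lit 2) (nat_lit 6) (nat_lit 10) (C.cons (nat_lit 1220) (C.node (nat_lit 4) (nat_lit 7) (nat_lit 10) (C.cons (nat_lit 1168) (C.node (nat_lit 2) (nat_lit 4) (nat_lit 10) (C.cons (nat_lit 1556) (C.miq (nat_lit 1248957024) (nat_lit 1395110191494365511017497157)) (C.cons (nat_lit 1044) (C.node (nat_lit 4) (nat_lit 9) (nat_lit 10)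 (C.cons (nat_lit 1552) (C.node (nat_lit 3) (nat_lit 5) (nat_lit 10) (C.cons (nat_lit 1192) (C.miq (nat_lit 1912972947) (nat_lit 44752244188079108248897096)) (C.cons (nat_lit 1064) (C.node (nat_lit 3) (nat_lit 7) (nat_lit 10) (C.cons (nat_lit 1160) (C.node (nat_lit 5) (nat_lit 7) (nat_lit 10) (C.cons (nat_lit 1184) (C.node (nat_lit 2) (nat_lit 4) (nat_lit 6) (C.cons (nat_lit 92) (C.miq (nat_lit 2318666082) (nat_lit 1266959369244960129212482117)) (C.cons (nat_lit 86) (C.miq (nat_lit 2586052449) (nat_lit 1262128351439494668292063427)) (C.cons (nat_lit 84) (C.node (nat_lit 4) (nat_lit 6) (nat_lit 9) (C.cons (nat_lit 848) (C.miq (nat_lit 910338432) (nat_lit 101568935467336839600605057)) (C.cons (nat_lit 720) (C.miq (nat_lit 308546169) (nat_lit 101559564361189731156887425)) (C.cons (nat_lit 592) (C.node (nat_lit 6) (nat_lit 7) (nat_lit 9) (C.cons (nat_lit 736) (C.miq (nat_lit 1470338592) (nat_lit 1402364152009613426828444229)) (C.cons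 (nat_lit 704) (C.node (nat_lit 1) (nat_lit 4) (nat_lit 6) (C.cons (nat_lit 90) (C.node (nat_lit 4) (nat_lit 6) (nat_lit 7) (C.cons (nat_lit 464) (C.miq (nat_lit 2218423824) (nat_lit 1266989695282101746949619907)) (C.cons (nat_lit 208) (C.node (nat_lit 4) (nat_lit 6) (nat_lit 8) (C.cons (nat_lit 336) (C.node (nat_lit 1) (nat_lit 3) (nat_lit 8) (C.cons (nat_lit 778) (C.miq (nat_lit 1446054552) (nat_lit 108808692087886030081492865)) (C.cons (nat_lit 394) (C.miq (nat_lit 2202693984) (nat_lit 1266989695262398498586296515)) (C.cons (nat_lit 266) (C.node (nat_lit 1) (nat_lit 3) (nat_lit 9) (C.cons (nat_lit 650) (C.miq (nat_lit 1936363840) (nat_lit 1943988154318648430459683347)) (C.cons (nat_lit 522) (C.node (nat_lit 3) (nat_lit 7) (nat_lit 9) (C.cons (nat_lit 652) (C.miq (nat_lit 1450773027) (nat_lit 851093978378213988798039055)) (C.cons (nat_lit 648) (C.node (nat_lit 1) (nat_lit 3) (nat_lit 5) (C.cons (nat_lit 170) (C.node (nat_lit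 1) (nat_lit 4) (nat_lit 7) C.nil) C.nil)) C.nil))) C.nil))) C.nil)))) C.nil)) C.nil))) (C.cons (nat_lit 82) (C.node (nat_lit 1) (nat_lit 3) (nat_lit 4) (C.cons (nat_lit 58)
  (C.miq (nat_lit 2588084245) (nat_lit 1266964460546323141606637859)) (C.cons (nat_lit 26) (C.node (nat_lit 2) (nat_lit 8) (nat_lit 10) (C.cons (nat_lit 1316) (C.node (nat_lit 2) (nat_lit 9) (nat_lit 10) (C.cons (nat_lit 1540) (C.node (nat_lit 5) (nat_lit 9) (nat_lit 10) (C.cons (nat_lit 1568) (C.node (nat_lit 1) (nat_lit 2) (nat_lit 6) (C.cons (nat_lit 326) (C.miq (nat_lit 1382124144) (nat_lit 394115185567320869657839489)) (C.cons (nat_lit 102) (C.node (nat_lit 1) (nat_lit 2) (nat_lit 4) (C.cons (nat_lit 150) (C.miq (nat_lit 2267089509) (nat_lit 181344241485438495813403761)) (C.cons (nat_lit 22) (C.node (nat_lit 4) (nat_lit 6) (nat_lit 7) (C.cons (nat_lit 464) (C.miq (nat_lit 1450713354) (nat_lit 560965856245100224102597647)) C.nil)) C.nil))) (C.cons (nat_lit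 70) (C.miq (nat_lit 1382124144) (nat_lit 84630175745975800933058433)) C.nil)))) C.nil)) C.nil)) (C.cons (nat_lit 1284) (C.node (nat_lit 5) (nat_lit 8) (nat_lit 10) (C.cons (nat_lit 1312) (C.node (nat_lit 2) (nat_lit 5) (nat_lit 10) (C.cons (nat_lit 1572) (C.node (nat_lit 1) (nat_lit 2) (nat_lit 9) (C.cons (nat_lit 774) (C.miq (nat_lit 641831080) (nat_lit 99146195151854488450631553)) (C.cons (nat_lit 646) (C.miq (nat_lit 342003879) (nat_lit 101561685593768563136792449)) (C.cons (nat_lit 518) (C.node (nat_lit 2) (nat_lit 8) (nat_lit 9) (C.cons (nat_lit 780) (C.miq (nat_lit 843487242) (nat_lit 101579431431651047249086337)) (C.cons (nat_lit 772) (C.node (nat_lit 5) (nat_lit 8) (nat_lit 9) (C.cons (nat_lit 864) (C.miq (nat_lit 2258721072) (nat_lit 1317734511625672536162763305)) (C.cons (nat_lit 816) (C.miq (nat_lit 1393856680) (nat_lit 31447124008804630213560193)) (C.cons (nat_lit 800) (C.node (nat_lit 3) (nat_lit 4) (nat_lit 6) (C.cons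 (nat_lit 344) (C.node (nat_lit 4) (nat_lit 6) (nat_lit 7) C.nil) (C.cons (nat_lit 88) (C.node (nat_lit 4) (nat_lit 6) (nat_lit 7) C.nil) C.nil))) C.nil)))) C.nil))) C.nil)))) C.nil)) C.nil)) C.nil))) C.nil))) C.nil))) C.nil))) C.nil)))) C.nil)))) C.nil)) C.nil)) C.nil))) C.nil)) C.nil))) C.nil)) (C.cons (nat_lit 1092) (C.node (nat_lit 6) (nat_lit 7) (nat_lit 10) (C.cons (nat_lit 1216) (C.node (nat_lit 2) (nat_lit 8) (nat_lit 10) (C.cons (nat_lit 1316) (C.node (nat_lit 5) (nat_lit 9) (nat_lit 10) (C.cons (nat_lit 1568) (C.node (nat_lit 2) (nat_lit 9) (nat_lit 10) (C.cons (nat_lit 1556) (C.miq (nat_lit 1519485504) (nat_lit 1859333278940252872532754709)) (C.cons (nat_lit 1540) (C.node (nat_lit 4) (nat_lit 9) (nat_lit 10) (C.cons (nat_lit 1552) (C.node (nat_lit 2) (nat_lit 8) (nat_lit 9) (C.cons (nat_lit 780) (C.miq (nat_lit 1245185682) (nat_lit 1557101565731794749445898821)) (C.cons (nat_lit 774) (C.miq (nat_lit 682004800) (nat_lit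 1624807019338235642970702355)) (C.cons (nat_lit 772) (C.node (nat_lit 5) (nat_lit 8) (nat_lit 9) (C.cons (nat_lit 864) (C.miq (nat_lit 2258721072) (nat_lit 1317734511625672536162763305)) (C.cons (nat_lit 816) (C.miq (nat_lit 310970964) (nat_lit 933300528256055015677887601)) (C.cons (nat_lit 800) (C.node (nat_lit 2) (nat_lit 4) (nat_lit 10) (C.cons (nat_lit 1172) (C.node (nat_lit 3) (nat_lit 5) (nat_lit 10) (C.cons (nat_lit 1192) (C.miq (nat_lit 1393076034) (nat_lit 320389618448596562454316180)) (C.cons (nat_lit 1064) (C.node (nat_lit 3) (nat_lit 7) (nat_lit 10) (C.cons (nat_lit 1160) (C.node (nat_lit 5) (nat_lit 7) (nat_lit 10) (C.cons (nat_lit 1184) (C.ref (nat_lit 57) (nat_lit 11649936536080)) C.nil)) C.nil)) C.nil))) (C.cons (nat_lit 1044) (C.node (nat_lit 2) (nat_lit 7) (nat_lit 10) (C.cons (nat_lit 1156) (C.node (nat_lit 4) (nat_lit 7) (nat_lit 10) (C.cons (nat_lit 1168) (C.node (nat_lit 3) (nat_lit 5) (nat_lit 10) (C.cons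 (nat_lit 1192) (C.node (nat_lit 2) (nat_lit 3) (nat_lit 5) (C.cons (nat_lit 108) (C.miq (nat_lit 1112737959) (nat_lit 130566810948197449233598337)) (C.cons (nat_lit 60) (C.node (nat_lit 1) (nat_lit 3) (nat_lit 5) (C.cons (nat_lit 106) (C.miq (nat_lit 1703489802) (nat_lit 967170318086011462216647695)) (C.cons (nat_lit 42) (C.node (nat_lit 1) (nat_lit 4) (nat_lit 5) (C.cons (nat_lit 178)
  (C.miq (nat_lit 2270431794) (nat_lit 215193906180230960509617167)) (C.cons (nat_lit 50) (C.node (nat_lit 2) (nat_lit 3) (nat_lit 9) (C.cons (nat_lit 652) (C.miq (nat_lit 1697778297) (nat_lit 72546267055226743895623553)) (C.cons (nat_lit 524) (C.node (nat_lit 3) (nat_lit 7) (nat_lit 9) (C.cons (nat_lit 650) (C.miq (nat_lit 1160841849) (nat_lit 50784679964959733273200513)) (C.cons (nat_lit 648) (C.node (nat_lit 1) (nat_lit 3) (nat_lit 7) (C.cons (nat_lit 394) (C.miq (nat_lit 595088394) (nat_lit 476341048860254052462691441)) (C.cons (nat_lit 138)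 (C.node (nat_lit 1) (nat_lit 3) (nat_lit 9) (C.cons (nat_lit 778) (C.miq (nat_lit 1662364032) (nat_lit 50795858824441337152210817)) (C.cons (nat_lit 522) (C.node (nat_lit 4) (nat_lit 5) (nat_lit 9) (C.cons (nat_lit 688) (C.miq (nat_lit 893495184) (nat_lit 60465457483345170170840961)) C.nil)) C.nil))) C.nil))) C.nil))) C.nil))) C.nil))) C.nil))) (C.cons (nat_lit 44) (C.miq (nat_lit 1112737959) (nat_lit 53195558492861182052403073)) C.nil)))) C.nil)) C.nil)) C.nil)) C.nil))) C.nil)))) C.nil)))) C.nil)) C.nil))) C.nil)) (C.cons (nat_lit 1284) (C.node (nat_lit 5) (nat_lit 8) (nat_lit 10) (C.cons (nat_lit 1312) (C.node (nat_lit 3) (nat_lit 5) (nat_lit 10) (C.cons (nat_lit 1192) (C.node (nat_lit 1) (nat_lit 3) (nat_lit 5) (C.cons (nat_lit 106) (C.miq (nat_lit 2321615157) (nat_lit 1317734511923191586484781609)) (C.cons (nat_lit 58) (C.miq (nat_lit 2588084245) (nat_lit 1266964460546323141606637859)) (C.cons (nat_lit 42) (C.node (nat_lit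 1) (nat_lit 3) (nat_lit 9) (C.cons (nat_lit 778) (C.miq (nat_lit 1662364032) (nat_lit 50795858824441337152210817)) (C.cons (nat_lit 650) (C.miq (nat_lit 1160841849) (nat_lit 50784679964959733273200513)) (C.cons (nat_lit 522) (C.node (nat_lit 3) (nat_lit 7) (nat_lit 9) (C.cons (nat_lit 652) (C.miq (nat_lit 665228112) (nat_lit 1470064514393222706183078441)) (C.cons (nat_lit 648) (C.node (nat_lit 1) (nat_lit 3) (nat_lit 4) (C.cons (nat_lit 90) (C.node (nat_lit 1) (nat_lit 3) (nat_lit 7) (C.cons (nat_lit 394) (C.miq (nat_lit 2202693984) (nat_lit 1266989695262398498586296515)) (C.cons (nat_lit 138) (C.node (nat_lit 1) (nat_lit 3) (nat_lit 8) (C.cons (nat_lit 266) (C.node (nat_lit 4) (nat_lit 6) (nat_lit 8) (C.cons (nat_lit 848) (C.miq (nat_lit 593758872) (nat_lit 108808433805884450434713473)) (C.cons (nat_lit 464) (C.miq (nat_lit 2218423824) (nat_lit 1266989695282101746949619907)) (C.cons (nat_lit 336) (C.node (nat_lit 4) (nat_lit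 6) (nat_lit 9) (C.cons (nat_lit 720) (C.miq (nat_lit 1983550480) (nat_lit 1943988154338351678823006739)) (C.cons (nat_lit 592) (C.node (nat_lit 4) (nat_lit 7) (nat_lit 8) (C.cons (nat_lit 432) (C.miq (nat_lit 676988019) (nat_lit 1586129841579456485491474585)) (C.cons (nat_lit 400) (C.node (nat_lit 6) (nat_lit 7) (nat_lit 9) (C.cons (nat_lit 736) (C.miq (nat_lit 595135062) (nat_lit 783394648961044150910714993)) (C.cons (nat_lit 704) (C.node (nat_lit 1) (nat_lit 7) (nat_lit 8) (C.cons (nat_lit 390) (C.node (nat_lit 1) (nat_lit 2) (nat_lit 4) (C.cons (nat_lit 54) (C.miq (nat_lit 1901756992) (nat_lit 1279078953457418735807693077)) (C.cons (nat_lit 22) (C.node (nat_lit 1) (nat_lit 2) (nat_lit 6) (C.cons (nat_lit 102) (C.miq (nat_lit 1919582544) (nat_lit 1320182431324316333906133283)) (C.cons (nat_lit 70) (C.node (nat_lit 1) (nat_lit 2) (nat_lit 5) (C.cons (nat_lit 38) (C.node (nat_lit 1) (nat_lit 2) (nat_lit 9) C.nil) C.nil)) C.nil)))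 C.nil))) (C.cons (nat_lit 386) (C.node (nat_lit 2) (nat_lit 4) (nat_lit 6) (C.cons (nat_lit 212) (C.node (nat_lit 2) (nat_lit 7) (nat_lit 10) (C.cons (nat_lit 1156) (C.node (nat_lit 4) (nat_lit 7) (nat_lit 10) C.nil) C.nil)) (C.cons (nat_lit 84) (C.node (nat_lit 4) (nat_lit 6) (nat_lit 7) (C.cons (nat_lit 208) (C.node (nat_lit 3) (nat_lit 7) (nat_lit 8) C.nil) C.nil)) C.nil))) C.nil))) C.nil))) C.nil))) C.nil))) C.nil)))) C.nil)) C.nil))) (C.cons (nat_lit 26) (C.node (nat_lit 1) (nat_lit 4) (nat_lit 6) (C.cons (nat_lit 86) (C.miq (nat_lit 2585135170) (nat_lit 1317739861478971630813577493)) (C.cons (nat_lit 82)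
  (C.node (nat_lit 1) (nat_lit 3) (nat_lit 6) (C.cons (nat_lit 330) (C.node (nat_lit 1) (nat_lit 3) (nat_lit 7) (C.cons (nat_lit 138) (C.node (nat_lit 1) (nat_lit 8) (nat_lit 9) (C.cons (nat_lit 774) (C.miq (nat_lit 641831080) (nat_lit 99146195151854488450631553)) (C.cons (nat_lit 770) (C.node (nat_lit 3) (nat_lit 4) (nat_lit 6) (C.cons (nat_lit 92) (C.miq (nat_lit 2318666082) (nat_lit 1266959369244960129212482117)) (C.cons (nat_lit 88) (C.node (nat_lit 3) (nat_lit 5) (nat_lit 6) (C.cons (nat_lit 108) (C.miq (nat_lit 695427237) (nat_lit 783385923522184878020363377)) (C.cons (nat_lit 104) (C.node (nat_lit 6) (nat_lit 8) (nat_lit 9) (C.cons (nat_lit 864) (C.miq (nat_lit 325388952) (nat_lit 125733653534906290815371137)) (C.cons (nat_lit 848) (C.miq (nat_lit 593758872) (nat_lit 106390582166655192085301121)) (C.cons (nat_lit 832) (C.node (nat_lit 1) (nat_lit 2) (nat_lit 6) (C.cons (nat_lit 102) (C.node (nat_lit 1) (nat_lit 6) (nat_lit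 9) (C.cons (nat_lit 578) (C.node (nat_lit 1) (nat_lit 2) (nat_lit 4) C.nil) C.nil)) (C.cons (nat_lit 70) (C.node (nat_lit 1) (nat_lit 5) (nat_lit 6) (C.cons (nat_lit 610) (C.node (nat_lit 1) (nat_lit 2) (nat_lit 8) C.nil) C.nil)) C.nil))) C.nil)))) C.nil))) C.nil))) C.nil))) C.nil)) (C.cons (nat_lit 74) (C.node (nat_lit 1) (nat_lit 3) (nat_lit 7) (C.cons (nat_lit 394) (C.node (nat_lit 3) (nat_lit 4) (nat_lit 5) (C.cons (nat_lit 312) (C.miq (nat_lit 1681327489) (nat_lit 184969247836171025668243747)) (C.cons (nat_lit 60) (C.miq (nat_lit 678641829) (nat_lit 476317879810785136666477681)) (C.cons (nat_lit 56) (C.node (nat_lit 4) (nat_lit 5) (nat_lit 8) (C.cons (nat_lit 816) (C.miq (nat_lit 341026960) (nat_lit 67719012430869842507663233)) (C.cons (nat_lit 432) (C.miq (nat_lit 592710264) (nat_lit 67704955938985271761045377)) (C.cons (nat_lit 304) (C.node (nat_lit 4) (nat_lit 7) (nat_lit 8) (C.cons (nat_lit 464) (C.miq (nat_lit 1211787024)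 (nat_lit 1557117429742260266260693187)) (C.cons (nat_lit 400) (C.node (nat_lit 2) (nat_lit 3) (nat_lit 7) (C.cons (nat_lit 204) (C.node (nat_lit 2) (nat_lit 4) (nat_lit 6) (C.cons (nat_lit 84) (C.node (nat_lit 2) (nat_lit 3) (nat_lit 4) (C.cons (nat_lit 540) (C.miq (nat_lit 1131516512) (nat_lit 476326568301264398216004165)) (C.cons (nat_lit 28) (C.node (nat_lit 3) (nat_lit 4) (nat_lit 6) (C.cons (nat_lit 344) (C.node (nat_lit 3) (nat_lit 4) (nat_lit 9) C.nil) C.nil)) C.nil))) C.nil)) (C.cons (nat_lit 140) (C.node (nat_lit 3) (nat_lit 6) (nat_lit 7) (C.cons (nat_lit 200) (C.node (nat_lit 2) (nat_lit 5) (nat_lit 10) (C.cons (nat_lit 1572) (C.node (nat_lit 4) (nat_lit 9) (nat_lit 10) (C.cons (nat_lit 1552) (C.node (nat_lit 2) (nat_lit 4) (nat_lit 10) (C.cons (nat_lit 1172) (C.miq (nat_lit 607495945) (nat_lit 67728844509992435069814657)) C.nil)) C.nil)) (C.cons (nat_lit 1060) (C.node (nat_lit 5) (nat_lit 9) (nat_lit 10) C.nil) C.nil)))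 C.nil)) C.nil))) C.nil))) C.nil)))) C.nil)))) (C.cons (nat_lit 138) (C.node (nat_lit 1) (nat_lit 3) (nat_lit 8) (C.cons (nat_lit 266) (C.node (nat_lit 1) (nat_lit 7) (nat_lit 8) (C.cons (nat_lit 390) (C.node (nat_lit 1) (nat_lit 2) (nat_lit 4) (C.cons (nat_lit 54) (C.miq (nat_lit 1901756992) (nat_lit 1279078953457418735807693077)) (C.cons (nat_lit 22) (C.node (nat_lit 1) (nat_lit 2) (nat_lit 6) (C.cons (nat_lit 102) (C.miq (nat_lit 1919582544) (nat_lit 1320182431324316333906133283)) (C.cons (nat_lit 70) (C.node (nat_lit 1) (nat_lit 2) (nat_lit 5) (C.cons (nat_lit 38) (C.node (nat_lit 1) (nat_lit 2) (nat_lit 9) C.nil) C.nil)) C.nil))) C.nil))) (C.cons (nat_lit 386) (C.node (nat_lit 2) (nat_lit 5) (nat_lit 10) (C.cons (nat_lit 1572) (C.node (nat_lit 4) (nat_lit 9) (nat_lit 10) (C.cons (nat_lit 1552) (C.node (nat_lit 2) (nat_lit 4) (nat_lit 10) (C.cons (nat_lit 1172) (C.miq (nat_lit 658088965) (nat_lit 783412929721852906495870065))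 C.nil)) C.nil)) (C.cons (nat_lit 1060) (C.node (nat_lit 5) (nat_lit 9) (nat_lit 10) C.nil) C.nil))) C.nil))) C.nil)) C.nil))) C.nil))) C.nil))) C.nil))) C.nil))) C.nil)))) C.nil)))) (C.cons (nat_lit 1064)
  (C.node (nat_lit 3) (nat_lit 7) (nat_lit 10) (C.cons (nat_lit 1160) (C.node (nat_lit 4) (nat_lit 7) (nat_lit 10) (C.cons (nat_lit 1172) (C.node (nat_lit 4) (nat_lit 9) (nat_lit 10) (C.cons (nat_lit 1552) (C.node (nat_lit 5) (nat_lit 7) (nat_lit 10) (C.cons (nat_lit 1184) (C.node (nat_lit 2) (nat_lit 5) (nat_lit 10) (C.cons (nat_lit 1572) (C.node (nat_lit 2) (nat_lit 4) (nat_lit 9) (C.cons (nat_lit 540) (C.miq (nat_lit 1380162160) (nat_lit 652830144083856212824229761)) (C.cons (nat_lit 532) (C.node (nat_lit 2) (nat_lit 3) (nat_lit 4) (C.cons (nat_lit 92) (C.miq (nat_lit 1380162160) (nat_lit 111231376896502342555862913)) (C.cons (nat_lit 60) (C.node (nat_lit 1) (nat_lit 2) (nat_lit 4) (C.cons (nat_lit 86) (C.miq (nat_lit 2585135170)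 (nat_lit 1317739861478971630813577493)) (C.cons (nat_lit 22) (C.node (nat_lit 2) (nat_lit 4) (nat_lit 6) (C.cons (nat_lit 84) (C.node (nat_lit 1) (nat_lit 4) (nat_lit 5) (C.cons (nat_lit 178) (C.miq (nat_lit 2504499760) (nat_lit 215224232529248510243570703)) (C.cons (nat_lit 50) (C.node (nat_lit 1) (nat_lit 4) (nat_lit 7) (C.cons (nat_lit 146) (C.node (nat_lit 2) (nat_lit 3) (nat_lit 9) (C.cons (nat_lit 780) (C.miq (nat_lit 1663347072) (nat_lit 72556523577504670885939073)) (C.cons (nat_lit 652) (C.node (nat_lit 1) (nat_lit 2) (nat_lit 9) (C.cons (nat_lit 774) (C.miq (nat_lit 1678903945) (nat_lit 26607085909871290531317633)) (C.cons (nat_lit 518) (C.node (nat_lit 2) (nat_lit 8) (nat_lit 9) (C.cons (nat_lit 772) (C.node (nat_lit 1) (nat_lit 3) (nat_lit 9) (C.cons (nat_lit 778) (C.miq (nat_lit 893489320) (nat_lit 60460642703281350350342017)) (C.cons (nat_lit 522) (C.node (nat_lit 1) (nat_lit 3) (nat_lit 4) C.nil) C.nil))) C.nil))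 C.nil))) (C.cons (nat_lit 524) (C.miq (nat_lit 2032339540) (nat_lit 633479952370629147061126257)) C.nil)))) C.nil)) C.nil))) C.nil)) C.nil))) (C.cons (nat_lit 28) (C.miq (nat_lit 1380162160) (nat_lit 33860124441166075374667649)) C.nil)))) C.nil))) C.nil)) C.nil)) C.nil)) (C.cons (nat_lit 1168) (C.node (nat_lit 2) (nat_lit 4) (nat_lit 10) (C.cons (nat_lit 1556) (C.node (nat_lit 5) (nat_lit 9) (nat_lit 10) (C.cons (nat_lit 1568) (C.node (nat_lit 2) (nat_lit 5) (nat_lit 10) (C.cons (nat_lit 1188) (C.ref (nat_lit 56) (nat_lit 11649882875200)) C.nil)) C.nil)) (C.cons (nat_lit 1044) (C.node (nat_lit 4) (nat_lit 9) (nat_lit 10) C.nil) C.nil))) C.nil))) C.nil)) C.nil))) C.nil)) C.nil))) C.nil)) C.nil))) C.nil))) C.nil))) (C.cons (nat_lit 1544) (C.node (nat_lit 6) (nat_lit 9) (nat_lit 10) (C.cons (nat_lit 1600) (C.node (nat_lit 4) (nat_lit 7) (nat_lit 10) (C.cons (nat_lit 1172) (C.node (nat_lit 4) (nat_lit 9) (nat_lit 10) (C.cons (nat_lit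 1552) (C.node (nat_lit 2) (nat_lit 6) (nat_lit 10) (C.cons (nat_lit 1348) (C.miq (nat_lit 443107360) (nat_lit 1934291106969870128726212885)) (C.cons (nat_lit 1092) (C.node (nat_lit 1) (nat_lit 2) (nat_lit 4) (C.cons (nat_lit 86) (C.miq (nat_lit 2585135170) (nat_lit 1317739861478971630813577493)) (C.cons (nat_lit 54) (C.miq (nat_lit 1349654692) (nat_lit 160788130214843129483494674)) (C.cons (nat_lit 22) (C.node (nat_lit 1) (nat_lit 4) (nat_lit 6) (C.cons (nat_lit 90) (C.node (nat_lit 2) (nat_lit 4) (nat_lit 6) (C.cons (nat_lit 84) (C.node (nat_lit 6) (nat_lit 7) (nat_lit 10) (C.cons (nat_lit 1224) (C.miq (nat_lit 2587101025) (nat_lit 1266964054717953202171019459)) (C.cons (nat_lit 1216) (C.node (nat_lit 1) (nat_lit 3) (nat_lit 8) (C.cons (nat_lit 778) (C.miq (nat_lit 1410534025) (nat_lit 108813525134832010544154497)) (C.cons (nat_lit 394) (C.miq (nat_lit 2202693984) (nat_lit 1266989695262398498586296515)) (C.cons (nat_lit 266)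 (C.node (nat_lit 1) (nat_lit 3) (nat_lit 9) (C.cons (nat_lit 650) (C.miq (nat_lit 916919305) (nat_lit 1470065787060374619058930195)) (C.cons (nat_lit 522) (C.node (nat_lit 1) (nat_lit 7) (nat_lit 8) (C.cons (nat_lit 390) (C.miq (nat_lit 1411451512) (nat_lit 26601736354089373570303873)) (C.cons (nat_lit 386) (C.node (nat_lit 3) (nat_lit 6) (nat_lit 10) (C.cons (nat_lit 1352)
  (C.miq (nat_lit 2199496256) (nat_lit 631094714414756580339942513)) (C.cons (nat_lit 1096) (C.node (nat_lit 6) (nat_lit 8) (nat_lit 10) (C.cons (nat_lit 1344) (C.node (nat_lit 3) (nat_lit 8) (nat_lit 10) (C.cons (nat_lit 1320) (C.miq (nat_lit 2474706340) (nat_lit 321584063394255831806641265)) (C.cons (nat_lit 1288) (C.node (nat_lit 4) (nat_lit 6) (nat_lit 7) (C.cons (nat_lit 720) (C.miq (nat_lit 1983550480) (nat_lit 1325018134695661541373444627)) (C.cons (nat_lit 464) (C.miq (nat_lit 2218423824) (nat_lit 1266989695282101746949619907)) (C.cons (nat_lit 208)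 (C.node (nat_lit 4) (nat_lit 6) (nat_lit 8) (C.cons (nat_lit 848) (C.miq (nat_lit 342010000) (nat_lit 101568935380079596840224641)) (C.cons (nat_lit 336) (C.node (nat_lit 4) (nat_lit 6) (nat_lit 9) (C.cons (nat_lit 592) (C.node (nat_lit 4) (nat_lit 7) (nat_lit 8) (C.cons (nat_lit 432) (C.miq (nat_lit 1361346727) (nat_lit 26604337106875365140465537)) (C.cons (nat_lit 400) (C.node (nat_lit 1) (nat_lit 4) (nat_lit 5) (C.cons (nat_lit 178) (C.node (nat_lit 4) (nat_lit 7) (nat_lit 9) C.nil) C.nil)) C.nil))) C.nil)) C.nil))) C.nil)))) C.nil))) C.nil)) C.nil))) C.nil))) C.nil))) C.nil)))) C.nil))) C.nil)) (C.cons (nat_lit 82) (C.node (nat_lit 1) (nat_lit 3) (nat_lit 4) (C.cons (nat_lit 58) (C.miq (nat_lit 2588084245) (nat_lit 1266964460546323141606637859)) (C.cons (nat_lit 26) (C.node (nat_lit 1) (nat_lit 4) (nat_lit 5) (C.cons (nat_lit 178) (C.node (nat_lit 1) (nat_lit 3) (nat_lit 5) (C.cons (nat_lit 106) (C.node (nat_lit 2) (nat_lit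 4) (nat_lit 6) (C.cons (nat_lit 92) (C.miq (nat_lit 2167539044) (nat_lit 1256079036409617803560879217)) (C.cons (nat_lit 84) (C.node (nat_lit 1) (nat_lit 3) (nat_lit 9) (C.cons (nat_lit 778) (C.miq (nat_lit 1094035600) (nat_lit 128167111192520361570273153)) (C.cons (nat_lit 650) (C.miq (nat_lit 2838824726) (nat_lit 668556952735617963369562307)) (C.cons (nat_lit 522) (C.node (nat_lit 3) (nat_lit 7) (nat_lit 9) (C.cons (nat_lit 712) (C.miq (nat_lit 2301953889) (nat_lit 668541346790131871376867523)) (C.cons (nat_lit 652) (C.miq (nat_lit 2504470690) (nat_lit 215200823324200597300970511)) (C.cons (nat_lit 648) (C.node (nat_lit 2) (nat_lit 9) (nat_lit 10) (C.cons (nat_lit 1572) (C.miq (nat_lit 658088965) (nat_lit 783412929721852906495870065)) (C.cons (nat_lit 1540) (C.node (nat_lit 5) (nat_lit 9) (nat_lit 10) (C.cons (nat_lit 1568) (C.node (nat_lit 5) (nat_lit 6) (nat_lit 9) (C.cons (nat_lit 864) (C.miq (nat_lit 982913157) (nat_lit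 1934283267030739244233523491)) (C.cons (nat_lit 736) (C.miq (nat_lit 2840790881) (nat_lit 668555144954699109200691395)) (C.cons (nat_lit 608) (C.node (nat_lit 1) (nat_lit 2) (nat_lit 5) (C.cons (nat_lit 550) (C.node (nat_lit 1) (nat_lit 7) (nat_lit 9) (C.cons (nat_lit 642) (C.node (nat_lit 2) (nat_lit 7) (nat_lit 9) (C.cons (nat_lit 644) (C.node (nat_lit 5) (nat_lit 7) (nat_lit 9) (C.cons (nat_lit 672) (C.node (nat_lit 1) (nat_lit 6) (nat_lit 9) (C.cons (nat_lit 834) (C.node (nat_lit 1) (nat_lit 2) (nat_lit 6) C.nil) C.nil)) C.nil)) C.nil)) C.nil)) (C.cons (nat_lit 38) (C.node (nat_lit 1) (nat_lit 5) (nat_lit 9) (C.cons (nat_lit 546) (C.node (nat_lit 1) (nat_lit 2) (nat_lit 6) (C.cons (nat_lit 326) (C.node (nat_lit 1) (nat_lit 6) (nat_lit 9) (C.cons (nat_lit 578) (C.node (nat_lit 6) (nat_lit 7) (nat_lit 10) C.nil) C.nil)) (C.cons (nat_lit 70) (C.node (nat_lit 1) (nat_lit 2) (nat_lit 8) (C.cons (nat_lit 774) (C.miq (nat_lit 1093052560)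 (nat_lit 84645781686393694102816641)) (C.cons (nat_lit 390) (C.miq (nat_lit 1108715392) (nat_lit 45960155423258064160229249)) (C.cons (nat_lit 262) (C.node (nat_lit 1) (nat_lit 2) (nat_lit 9) (C.cons (nat_lit 646) (C.node (nat_lit 2) (nat_lit 5) (nat_lit 10) C.nil) C.nil)) C.nil)))) C.nil))) C.nil)) C.nil))) C.nil)))) C.nil)) C.nil))) C.nil)))) C.nil)))) C.nil))) (C.cons (nat_lit 42) (C.node (nat_lit 2) (nat_lit 4) (nat_lit 6) (C.cons (nat_lit 92) (C.node (nat_lit 2) (nat_lit 9) (nat_lit 10) (C.cons (nat_lit 1572) (C.miq (nat_lit 1380162160) (nat_lit 111231376896502342555862913))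
  (C.cons (nat_lit 1540) (C.node (nat_lit 5) (nat_lit 9) (nat_lit 10) (C.cons (nat_lit 1568) (C.node (nat_lit 4) (nat_lit 7) (nat_lit 8) (C.cons (nat_lit 464) (C.miq (nat_lit 2250929200) (nat_lit 1320182431345145439226626201)) (C.cons (nat_lit 400) (C.node (nat_lit 4) (nat_lit 6) (nat_lit 7) (C.cons (nat_lit 720) (C.miq (nat_lit 1949996576) (nat_lit 1266989695354159349577482821)) (C.cons (nat_lit 208) (C.node (nat_lit 4) (nat_lit 7) (nat_lit 9) (C.cons (nat_lit 656) (C.node (nat_lit 4) (nat_lit 6) (nat_lit 8) (C.cons (nat_lit 848) (C.miq (nat_lit 342010000) (nat_lit 111240341936996630237874049)) (C.cons (nat_lit 336) (C.node (nat_lit 4) (nat_lit 6) (nat_lit 9) (C.cons (nat_lit 592) (C.node (nat_lit 6) (nat_lit 7) (nat_lit 10) (C.cons (nat_lit 1224) (C.miq (nat_lit 1984471840) (nat_lit 406234511930406765398918159)) (C.cons (nat_lit 1216) (C.node (nat_lit 2) (nat_lit 5) (nat_lit 10) (C.cons (nat_lit 1316) (C.node (nat_lit 3) (nat_lit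 6) (nat_lit 10) C.nil) C.nil)) C.nil))) C.nil)) C.nil))) C.nil)) C.nil))) C.nil))) C.nil)) C.nil))) (C.cons (nat_lit 84) (C.node (nat_lit 2) (nat_lit 8) (nat_lit 10) (C.cons (nat_lit 1316) (C.node (nat_lit 2) (nat_lit 9) (nat_lit 10) (C.cons (nat_lit 1540) (C.node (nat_lit 5) (nat_lit 9) (nat_lit 10) (C.cons (nat_lit 1568) (C.node (nat_lit 3) (nat_lit 5) (nat_lit 10) (C.cons (nat_lit 1192) (C.miq (nat_lit 2222268474) (nat_lit 215213071884574220624593935)) (C.cons (nat_lit 1064) (C.node (nat_lit 5) (nat_lit 7) (nat_lit 10) (C.cons (nat_lit 1184) (C.node (nat_lit 3) (nat_lit 7) (nat_lit 10) (C.cons (nat_lit 1224) (C.node (nat_lit 3) (nat_lit 8) (nat_lit 10) (C.cons (nat_lit 1288) (C.node (nat_lit 6) (nat_lit 8) (nat_lit 10) (C.cons (nat_lit 1344) (C.node (nat_lit 4) (nat_lit 7) (nat_lit 8) (C.cons (nat_lit 464) (C.miq (nat_lit 910337920) (nat_lit 101568935359248799276271489)) (C.cons (nat_lit 400) (C.node (nat_lit 4) (nat_lit 6)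 (nat_lit 7) (C.cons (nat_lit 720) (C.miq (nat_lit 910272400) (nat_lit 99151083720020640455133057)) (C.cons (nat_lit 208) (C.node (nat_lit 4) (nat_lit 7) (nat_lit 9) (C.cons (nat_lit 656) (C.node (nat_lit 1) (nat_lit 3) (nat_lit 7) (C.cons (nat_lit 650) (C.miq (nat_lit 1662298000) (nat_lit 31453045602520329559934849)) (C.cons (nat_lit 394) (C.miq (nat_lit 1662363520) (nat_lit 50795858716353296827877249)) (C.cons (nat_lit 138) (C.node (nat_lit 6) (nat_lit 7) (nat_lit 9) C.nil) C.nil)))) C.nil)) C.nil))) C.nil))) C.nil)) C.nil)) (C.cons (nat_lit 1160) (C.node (nat_lit 6) (nat_lit 7) (nat_lit 10) (C.cons (nat_lit 1216) (C.node (nat_lit 3) (nat_lit 6) (nat_lit 10) (C.cons (nat_lit 1352) (C.node (nat_lit 1) (nat_lit 3) (nat_lit 6) (C.cons (nat_lit 586) (C.node (nat_lit 3) (nat_lit 4) (nat_lit 6) (C.cons (nat_lit 88) (C.node (nat_lit 1) (nat_lit 5) (nat_lit 6) (C.cons (nat_lit 102) (C.miq (nat_lit 2049312849) (nat_lit 1320150592674988514586525987))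 C.nil)) C.nil)) (C.cons (nat_lit 74) (C.node (nat_lit 3) (nat_lit 4) (nat_lit 6) (C.cons (nat_lit 600) (C.node (nat_lit 2) (nat_lit 3) (nat_lit 4) C.nil) (C.cons (nat_lit 88) (C.node (nat_lit 3) (nat_lit 6) (nat_lit 9) C.nil) C.nil))) C.nil))) C.nil)) C.nil)) C.nil))) C.nil)) C.nil))) C.nil)) C.nil)) (C.cons (nat_lit 1284) (C.node (nat_lit 5) (nat_lit 8) (nat_lit 10) (C.cons (nat_lit 1320) (C.miq (nat_lit 977885200) (nat_lit 1876263073462929784686444835)) (C.cons (nat_lit 1312) (C.node (nat_lit 2) (nat_lit 5) (nat_lit 10) (C.cons (nat_lit 1572) (C.node (nat_lit 2) (nat_lit 4) (nat_lit 5) (C.cons (nat_lit 60) (C.miq (nat_lit 2504499760) (nat_lit 215224232529248510243570703)) (C.cons (nat_lit 52) (C.miq (nat_lit 891554215) (nat_lit 62866965127466408532510593)) C.nil))) (C.cons (nat_lit 1060) (C.node (nat_lit 2) (nat_lit 9) (nat_lit 10) (C.cons (nat_lit 1540) (C.node (nat_lit 5) (nat_lit 9) (nat_lit 10) (C.cons (nat_lit 1568) (C.node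 (nat_lit 3) (nat_lit 5) (nat_lit 10) (C.cons (nat_lit 1192) (C.node (nat_lit 6) (nat_lit 7) (nat_lit 10) (C.cons (nat_lit 1216) (C.node (nat_lit 3) (nat_lit 6) (nat_lit 10) (C.cons (nat_lit 1352)
  (C.node (nat_lit 1) (nat_lit 3) (nat_lit 7) (C.cons (nat_lit 650) (C.miq (nat_lit 1393862544) (nat_lit 31453045593513130305193857)) (C.cons (nat_lit 394) (C.miq (nat_lit 1702077464) (nat_lit 1441064517298663444613563666)) (C.cons (nat_lit 138) (C.node (nat_lit 1) (nat_lit 3) (nat_lit 8) (C.cons (nat_lit 778) (C.miq (nat_lit 1662298256) (nat_lit 31453045638549676334712705)) (C.cons (nat_lit 266) (C.node (nat_lit 1) (nat_lit 7) (nat_lit 8) (C.cons (nat_lit 390) (C.miq (nat_lit 1411451512) (nat_lit 26601736354089373570303873)) (C.cons (nat_lit 386) (C.node (nat_lit 1) (nat_lit 2) (nat_lit 7) (C.cons (nat_lit 646) (C.node (nat_lit 1) (nat_lit 2) (nat_lit 5) C.nil) C.nil)) C.nil))) C.nil))) C.nil)))) C.nil)) C.nil)) (C.cons (nat_lit 1064)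 (C.node (nat_lit 5) (nat_lit 7) (nat_lit 10) C.nil) C.nil))) C.nil)) C.nil)) C.nil))) C.nil))) C.nil))) C.nil))) C.nil))) (C.cons (nat_lit 50) (C.node (nat_lit 1) (nat_lit 4) (nat_lit 7) (C.cons (nat_lit 146) (C.node (nat_lit 2) (nat_lit 4) (nat_lit 6) (C.cons (nat_lit 92) (C.node (nat_lit 2) (nat_lit 9) (nat_lit 10) (C.cons (nat_lit 1572) (C.miq (nat_lit 1380162160) (nat_lit 111231376896502342555862913)) (C.cons (nat_lit 1540) (C.node (nat_lit 5) (nat_lit 9) (nat_lit 10) (C.cons (nat_lit 1568) (C.node (nat_lit 6) (nat_lit 7) (nat_lit 10) (C.cons (nat_lit 1224) (C.miq (nat_lit 2321680180) (nat_lit 1320152105308002163632111769)) (C.cons (nat_lit 1216) (C.node (nat_lit 2) (nat_lit 3) (nat_lit 9) (C.cons (nat_lit 780) (C.miq (nat_lit 1788035202) (nat_lit 1866583162905487526228394261)) (C.cons (nat_lit 652) (C.miq (nat_lit 1411582585) (nat_lit 111231376774060727719430017)) (C.cons (nat_lit 524) (C.node (nat_lit 4) (nat_lit 5) (nat_lit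 7) (C.cons (nat_lit 688) (C.miq (nat_lit 1394905255) (nat_lit 111233866920128720913303425)) (C.cons (nat_lit 432) (C.miq (nat_lit 609331072) (nat_lit 60465457477714571109271425)) (C.cons (nat_lit 176) (C.node (nat_lit 4) (nat_lit 7) (nat_lit 8) (C.cons (nat_lit 464) (C.miq (nat_lit 980820100) (nat_lit 1470055494044304609186414869)) (C.cons (nat_lit 400) (C.node (nat_lit 4) (nat_lit 6) (nat_lit 7) (C.cons (nat_lit 720) (C.miq (nat_lit 1949996576) (nat_lit 1266989695354159349577482821)) (C.cons (nat_lit 208) (C.node (nat_lit 4) (nat_lit 7) (nat_lit 9) (C.cons (nat_lit 656) (C.node (nat_lit 4) (nat_lit 6) (nat_lit 8) (C.cons (nat_lit 848) (C.miq (nat_lit 342010000) (nat_lit 111240341936996630237874049)) (C.cons (nat_lit 336) (C.node (nat_lit 4) (nat_lit 6) (nat_lit 9) C.nil) C.nil))) C.nil)) C.nil))) C.nil))) C.nil)))) C.nil)))) C.nil))) C.nil)) C.nil))) (C.cons (nat_lit 84) (C.node (nat_lit 2) (nat_lit 8) (nat_lit 10) (C.cons (nat_lit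 1316) (C.node (nat_lit 2) (nat_lit 9) (nat_lit 10) (C.cons (nat_lit 1540) (C.node (nat_lit 5) (nat_lit 9) (nat_lit 10) (C.cons (nat_lit 1568) (C.node (nat_lit 3) (nat_lit 5) (nat_lit 10) (C.cons (nat_lit 1192) (C.miq (nat_lit 1393076034) (nat_lit 320389618448596562454316180)) (C.cons (nat_lit 1064) (C.node (nat_lit 5) (nat_lit 7) (nat_lit 10) (C.cons (nat_lit 1184) (C.node (nat_lit 3) (nat_lit 7) (nat_lit 10) (C.cons (nat_lit 1224) (C.node (nat_lit 3) (nat_lit 8) (nat_lit 10) (C.cons (nat_lit 1288) (C.node (nat_lit 6) (nat_lit 8) (nat_lit 10) (C.cons (nat_lit 1344) (C.node (nat_lit 4) (nat_lit 6) (nat_lit 7) (C.cons (nat_lit 720) (C.miq (nat_lit 910272400) (nat_lit 99151083720020640455133057)) (C.cons (nat_lit 464) (C.miq (nat_lit 910337920) (nat_lit 101568935359248799276271489)) (C.cons (nat_lit 208) (C.node (nat_lit 1) (nat_lit 7) (nat_lit 8) (C.cons (nat_lit 394) (C.miq (nat_lit 2208634720) (nat_lit 1286302440183397289305374915))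 (C.cons (nat_lit 390) (C.miq (nat_lit 1411451512) (nat_lit 26601736354089373570303873)) C.nil))) C.nil)))) C.nil)) C.nil)) (C.cons (nat_lit 1160) (C.node (nat_lit 6) (nat_lit 7) (nat_lit 10) (C.cons (nat_lit 1216) (C.node (nat_lit 3) (nat_lit 6) (nat_lit 10) (C.cons (nat_lit 1352) (C.node (nat_lit 4) (nat_lit 6) (nat_lit 3) (C.cons (nat_lit 600) (C.node (nat_lit 4) (nat_lit 2) (nat_lit 3) (C.cons (nat_lit 60)
  (C.miq (nat_lit 2052261924) (nat_lit 1286299894962527801890832661)) (C.cons (nat_lit 28) (C.node (nat_lit 6) (nat_lit 1) (nat_lit 3) (C.cons (nat_lit 106) (C.node (nat_lit 4) (nat_lit 5) (nat_lit 2) C.nil) C.nil)) C.nil))) (C.cons (nat_lit 88) (C.node (nat_lit 6) (nat_lit 1) (nat_lit 2) (C.cons (nat_lit 326) (C.node (nat_lit 4) (nat_lit 6) (nat_lit 7) C.nil) (C.cons (nat_lit 102) (C.miq (nat_lit 2049312849) (nat_lit 1320150592674988514586525987)) C.nil))) C.nil))) C.nil)) C.nil)) C.nil))) C.nil)) C.nil))) C.nil)) C.nil))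 (C.cons (nat_lit 1284) (C.node (nat_lit 5) (nat_lit 8) (nat_lit 10) (C.cons (nat_lit 1320) (C.miq (nat_lit 977885200) (nat_lit 1876263073462929784686444835)) (C.cons (nat_lit 1312) (C.node (nat_lit 2) (nat_lit 5) (nat_lit 10) (C.cons (nat_lit 1572) (C.node (nat_lit 2) (nat_lit 4) (nat_lit 5) (C.cons (nat_lit 60) (C.node (nat_lit 2) (nat_lit 4) (nat_lit 9) (C.cons (nat_lit 532) (C.node (nat_lit 3) (nat_lit 5) (nat_lit 10) (C.cons (nat_lit 1192) (C.miq (nat_lit 2320631604) (nat_lit 1900436498723024030050025625)) (C.cons (nat_lit 1064) (C.node (nat_lit 5) (nat_lit 7) (nat_lit 10) (C.cons (nat_lit 1184) (C.node (nat_lit 1) (nat_lit 2) (nat_lit 9) (C.cons (nat_lit 774) (C.miq (nat_lit 1678903945) (nat_lit 26607085909871290531317633)) (C.cons (nat_lit 646) (C.miq (nat_lit 932331685) (nat_lit 780967186318768791605216369)) C.nil))) C.nil)) C.nil))) C.nil)) (C.cons (nat_lit 52) (C.miq (nat_lit 891554215) (nat_lit 62866965127466408532510593))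 C.nil))) (C.cons (nat_lit 1060) (C.node (nat_lit 2) (nat_lit 9) (nat_lit 10) (C.cons (nat_lit 1540) (C.node (nat_lit 5) (nat_lit 9) (nat_lit 10) (C.cons (nat_lit 1568) (C.node (nat_lit 3) (nat_lit 5) (nat_lit 10) (C.cons (nat_lit 1192) (C.node (nat_lit 6) (nat_lit 7) (nat_lit 10) (C.cons (nat_lit 1216) (C.node (nat_lit 3) (nat_lit 6) (nat_lit 10) (C.cons (nat_lit 1352) (C.node (nat_lit 4) (nat_lit 5) (nat_lit 7) (C.cons (nat_lit 688) (C.miq (nat_lit 893495184) (nat_lit 60465457483345170170840961)) (C.cons (nat_lit 432) (C.miq (nat_lit 609331072) (nat_lit 60465457477714571109271425)) (C.cons (nat_lit 176) (C.node (nat_lit 1) (nat_lit 3) (nat_lit 5) (C.cons (nat_lit 106) (C.node (nat_lit 1) (nat_lit 3) (nat_lit 7) (C.cons (nat_lit 650) (C.miq (nat_lit 1393862544) (nat_lit 31453045593513130305193857)) (C.cons (nat_lit 394) (C.miq (nat_lit 1936359760) (nat_lit 1634503144425245836416450851)) C.nil))) C.nil)) C.nil)))) C.nil)) C.nil))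 (C.cons (nat_lit 1064) (C.node (nat_lit 5) (nat_lit 7) (nat_lit 10) C.nil) C.nil))) C.nil)) C.nil)) C.nil))) C.nil))) C.nil))) C.nil))) C.nil)) C.nil))) C.nil))) C.nil))) C.nil)))) C.nil))) C.nil)) (C.cons (nat_lit 1168) (C.node (nat_lit 2) (nat_lit 4) (nat_lit 10) (C.cons (nat_lit 1556) (C.node (nat_lit 5) (nat_lit 9) (nat_lit 10) (C.cons (nat_lit 1568) (C.node (nat_lit 2) (nat_lit 6) (nat_lit 10) (C.cons (nat_lit 1348) (C.miq (nat_lit 443107360) (nat_lit 1934291106969870128726212885)) (C.cons (nat_lit 1220) (C.miq (nat_lit 1248957024) (nat_lit 1395110191494365511017497157)) (C.cons (nat_lit 1092) (C.node (nat_lit 2) (nat_lit 8) (nat_lit 10) (C.cons (nat_lit 1316) (C.miq (nat_lit 1519485504) (nat_lit 1859333278940252872532754709)) (C.cons (nat_lit 1284) (C.node (nat_lit 5) (nat_lit 8) (nat_lit 10) (C.cons (nat_lit 1320) (C.miq (nat_lit 977885200) (nat_lit 1881098776741388301385269539)) (C.cons (nat_lit 1312) (C.node (nat_lit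 2) (nat_lit 5) (nat_lit 10) (C.cons (nat_lit 1188) (C.node (nat_lit 3) (nat_lit 5) (nat_lit 10) (C.cons (nat_lit 1064) (C.node (nat_lit 3) (nat_lit 7) (nat_lit 10) (C.cons (nat_lit 1224) (C.node (nat_lit 3) (nat_lit 8) (nat_lit 10) (C.cons (nat_lit 1288) (C.node (nat_lit 6) (nat_lit 8) (nat_lit 10) (C.cons (nat_lit 1344) (C.node (nat_lit 4) (nat_lit 6) (nat_lit 1) (C.cons (nat_lit 90) (C.miq (nat_lit 2590050100) (nat_lit 1317738939141767627508678809)) (C.cons (nat_lit 86) (C.miq (nat_lit 2049313089) (nat_lit 1320150592674989545377628691)) (C.cons (nat_lit 82) (C.node (nat_lit 4) (nat_lit 1) (nat_lit 3) (C.cons (nat_lit 58)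
  (C.miq (nat_lit 2588084245) (nat_lit 1266964460546323141606637859)) (C.cons (nat_lit 26) (C.ref (nat_lit 54) (nat_lit 11649882875200)) C.nil))) C.nil)))) C.nil)) C.nil)) (C.cons (nat_lit 1160) (C.node (nat_lit 6) (nat_lit 7) (nat_lit 10) (C.cons (nat_lit 1216) (C.node (nat_lit 3) (nat_lit 6) (nat_lit 10) (C.cons (nat_lit 1352) (C.ref (nat_lit 55) (nat_lit 11649882875200)) C.nil)) C.nil)) C.nil))) C.nil)) (C.cons (nat_lit 1060) (C.node (nat_lit 2) (nat_lit 7) (nat_lit 10) (C.cons (nat_lit 1156) (C.node (nat_lit 3) (nat_lit 5) (nat_lit 10) (C.cons (nat_lit 1192) (C.node (nat_lit 6) (nat_lit 7) (nat_lit 10) (C.cons (nat_lit 1216) (C.node (nat_lit 3) (nat_lit 6) (nat_lit 10) (C.cons (nat_lit 1352) (C.node (nat_lit 4) (nat_lit 5) (nat_lit 9) (C.cons (nat_lit 688) (C.miq (nat_lit 442041204) (nat_lit 1895605480669299306159669401)) (C.cons (nat_lit 816) (C.miq (nat_lit 981795145) (nat_lit 1586120876676324314319946259)) (C.cons (nat_lit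 560) (C.node (nat_lit 4) (nat_lit 9) (nat_lit 7) (C.cons (nat_lit 720) (C.miq (nat_lit 440861334) (nat_lit 1412028954717440433238049349)) (C.cons (nat_lit 656) (C.ref (nat_lit 54) (nat_lit 11073357436480)) C.nil))) C.nil)))) C.nil)) C.nil)) (C.cons (nat_lit 1064) (C.node (nat_lit 5) (nat_lit 7) (nat_lit 10) C.nil) C.nil))) C.nil)) C.nil))) C.nil))) C.nil))) C.nil)))) C.nil)) (C.cons (nat_lit 1044) (C.node (nat_lit 4) (nat_lit 9) (nat_lit 10) (C.cons (nat_lit 1552) (C.node (nat_lit 2) (nat_lit 9) (nat_lit 10) (C.cons (nat_lit 1572) (C.node (nat_lit 2) (nat_lit 8) (nat_lit 10) (C.cons (nat_lit 1348) (C.miq (nat_lit 443107360) (nat_lit 1934291106969870128726212885)) (C.cons (nat_lit 1284) (C.node (nat_lit 5) (nat_lit 8) (nat_lit 10) (C.cons (nat_lit 1320) (C.miq (nat_lit 977885200) (nat_lit 1876263073462929784686444835)) (C.cons (nat_lit 1312) (C.node (nat_lit 2) (nat_lit 6) (nat_lit 10) (C.cons (nat_lit 1220) (C.node (nat_lit 3)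 (nat_lit 5) (nat_lit 10) (C.cons (nat_lit 1192) (C.miq (nat_lit 1929815442) (nat_lit 88274090195158402800616996)) (C.cons (nat_lit 1064) (C.node (nat_lit 3) (nat_lit 7) (nat_lit 10) (C.cons (nat_lit 1160) (C.node (nat_lit 5) (nat_lit 7) (nat_lit 10) (C.cons (nat_lit 1184) (C.ref (nat_lit 58) (nat_lit 11649936536080)) C.nil)) C.nil)) C.nil))) (C.cons (nat_lit 1092) (C.node (nat_lit 2) (nat_lit 7) (nat_lit 10) (C.cons (nat_lit 1156) (C.node (nat_lit 3) (nat_lit 5) (nat_lit 10) (C.cons (nat_lit 1192) (C.node (nat_lit 6) (nat_lit 7) (nat_lit 10) (C.cons (nat_lit 1216) (C.ref (nat_lit 58) (nat_lit 11649882875200)) C.nil)) (C.cons (nat_lit 1064) (C.node (nat_lit 5) (nat_lit 7) (nat_lit 10) C.nil) C.nil))) C.nil)) C.nil))) C.nil))) C.nil))) (C.cons (nat_lit 1540) (C.node (nat_lit 5) (nat_lit 9) (nat_lit 10) (C.cons (nat_lit 1568) (C.ref (nat_lit 59) (nat_lit 11649936536080)) C.nil)) C.nil))) C.nil)) C.nil))) C.nil))) C.nil)) C.nil)))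 C.nil))) List.nil)

theorem ok11_60 : okL par11 (nat_lit 61) c11_60 (nat_lit 60) = true := by decide +kernel

noncomputable def c11_61 : List C :=
  (List.cons (C.node (nat_lit 1) (nat_lit 6) (nat_lit 10) (C.cons (nat_lit 1602) (C.node (nat_lit 1) (nat_lit 4) (nat_lit 6) (C.cons (nat_lit 90) (C.miq (nat_lit 638847400) (nat_lit 108808433676968885360920449)) (C.cons (nat_lit 86) (C.node (nat_lit 1) (nat_lit 3) (nat_lit 4) (C.cons (nat_lit 58) (C.miq (nat_lit 2450720325) (nat_lit 1256084127792609804741641329)) (C.cons (nat_lit 26) (C.node (nat_lit 3) (nat_lit 4) (nat_lit 10) (C.cons (nat_lit 1560) (C.miq (nat_lit 1396771240) (nat_lit 31437439468168170376923009)) (C.cons (nat_lit 1048) (C.node (nat_lit 3) (nat_lit 9) (nat_lit 10) (C.cons (nat_lit 1544) (C.node (nat_lit 4) (nat_lit 9) (nat_lit 10) (C.cons (nat_lit 1556) (C.miq (nat_lit 2051082534) (nat_lit 1569189311515603155367100997)) (C.cons (nat_lit 1552) (C.node (nat_lit 1) (nat_lit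 2) (nat_lit 8) (C.cons (nat_lit 774) (C.node (nat_lit 1) (nat_lit 3) (nat_lit 9) (C.cons (nat_lit 650) (C.miq (nat_lit 557091184) (nat_lit 31437181275953199800977281)) (C.cons (nat_lit 522) (C.node (nat_lit 2) (nat_lit 6) (nat_lit 10) (C.cons (nat_lit 1348) (C.node (nat_lit 3) (nat_lit 6) (nat_lit 10) (C.cons (nat_lit 1224) (C.miq (nat_lit 874934410) (nat_lit 103990199344671190746924929)) (C.cons (nat_lit 1096) (C.node (nat_lit 6) (nat_lit 7) (nat_lit 10) (C.cons (nat_lit 1216) (C.node (nat_lit 3) (nat_lit 8) (nat_lit 10) (C.cons (nat_lit 1320) (C.miq (nat_lit 941185600) (nat_lit 935718785802748286765040753)) (C.cons (nat_lit 1288) (C.node (nat_lit 5) (nat_lit 8) (nat_lit 10) (C.cons (nat_lit 1312) (C.node (nat_lit 4) (nat_lit 6) (nat_lit 7) (C.cons (nat_lit 720) (C.miq (nat_lit 828639895) (nat_lit 103970443131160767973296001)) (C.cons (nat_lit 464) (C.miq (nat_lit 845417095) (nat_lit 103970443131159677034825601)) (C.cons (nat_lit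 208) (C.node (nat_lit 5) (nat_lit 8) (nat_lit 9) (C.cons (nat_lit 864) (C.miq (nat_lit 847841893) (nat_lit 935718785723654033079534705)) (C.cons (nat_lit 816) (C.miq (nat_lit 1393856680) (nat_lit 31447124008804630213560193)) (C.cons (nat_lit 800) (C.node (nat_lit 1) (nat_lit 2) (nat_lit 5) (C.cons (nat_lit 166) (C.node (nat_lit 1) (nat_lit 4) (nat_lit 5) (C.cons (nat_lit 50) (C.node (nat_lit 1) (nat_lit 4) (nat_lit 7) (C.cons (nat_lit 146) (C.node (nat_lit 1) (nat_lit 5) (nat_lit 9) (C.cons (nat_lit 546) (C.node (nat_lit 1) (nat_lit 5) (nat_lit 10) (C.cons (nat_lit 1058) (C.node (nat_lit 1) (nat_lit 7) (nat_lit 9) (C.cons (nat_lit 642) (C.node (nat_lit 1) (nat_lit 7) (nat_lit 10) (C.cons (nat_lit 1154) (C.node (nat_lit 2) (nat_lit 5) (nat_lit 6) (C.cons (nat_lit 108) (C.miq (nat_lit 840521280) (nat_lit 935718785461595409491362929)) (C.cons (nat_lit 100) (C.node (nat_lit 2) (nat_lit 7) (nat_lit 8) (C.cons (nat_lit 396) (C.miq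 (nat_lit 1092815239) (nat_lit 1256076749080909527045113729)) (C.cons (nat_lit 388) (C.node (nat_lit 1) (nat_lit 3) (nat_lit 5) (C.cons (nat_lit 106) (C.node (nat_lit 1) (nat_lit 6) (nat_lit 8) (C.cons (nat_lit 322) (C.node (nat_lit 1) (nat_lit 3) (nat_lit 7) (C.cons (nat_lit 394) (C.miq (nat_lit 1936359760) (nat_lit 1325018134603900767691669795)) (C.cons (nat_lit 138) (C.node (nat_lit 1) (nat_lit 3) (nat_lit 8) (C.cons (nat_lit 266) (C.node (nat_lit 1) (nat_lit 7) (nat_lit 8) (C.cons (nat_lit 386) (C.node (nat_lit 3) (nat_lit 5) (nat_lit 10) C.nil) C.nil)) C.nil)) C.nil))) C.nil)) (C.cons (nat_lit 42) (C.node (nat_lit 1) (nat_lit 5) (nat_lit 6) (C.cons (nat_lit 98) (C.node (nat_lit 2) (nat_lit 5) (nat_lit 10) (C.cons (nat_lit 1572) (C.node (nat_lit 2) (nat_lit 4) (nat_lit 10) C.nil) C.nil)) C.nil)) C.nil))) C.nil))) C.nil))) C.nil)) C.nil)) C.nil)) C.nil)) C.nil)) C.nil)) (C.cons (nat_lit 38) (C.node (nat_lit 1) (nat_lit 2) (nat_lit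 7) (C.cons (nat_lit 134) (C.node (nat_lit 1) (nat_lit 4) (nat_lit 5) (C.cons (nat_lit 178) (C.node (nat_lit 1) (nat_lit 5) (nat_lit 9) (C.cons (nat_lit 546) (C.node (nat_lit 1) (nat_lit 5) (nat_lit 10) (C.cons (nat_lit 1058) (C.node (nat_lit 1) (nat_lit 7) (nat_lit 9) (C.cons (nat_lit 642) (C.node (nat_lit 1) (nat_lit 7) (nat_lit 10) (C.cons (nat_lit 1154)
  (C.node (nat_lit 4) (nat_lit 7) (nat_lit 8) (C.cons (nat_lit 400) (C.node (nat_lit 4) (nat_lit 5) (nat_lit 9) (C.cons (nat_lit 564) (C.miq (nat_lit 1888818724) (nat_lit 668539261822225169784242262)) (C.cons (nat_lit 560) (C.node (nat_lit 2) (nat_lit 5) (nat_lit 6) (C.cons (nat_lit 236) (C.miq (nat_lit 655975744) (nat_lit 776141093817327614453548145)) (C.cons (nat_lit 228) (C.miq (nat_lit 655975744) (nat_lit 776141093815075814639862897)) (C.cons (nat_lit 108) (C.miq (nat_lit 840521280) (nat_lit 935718785461595409491362929)) (C.cons (nat_lit 100) (C.node (nat_lit 1) (nat_lit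 3) (nat_lit 5) (C.cons (nat_lit 106) (C.node (nat_lit 1) (nat_lit 6) (nat_lit 8) (C.cons (nat_lit 322) (C.node (nat_lit 1) (nat_lit 3) (nat_lit 7) (C.cons (nat_lit 394) (C.miq (nat_lit 1936359760) (nat_lit 1325018134603900767691669795)) (C.cons (nat_lit 138) (C.node (nat_lit 1) (nat_lit 3) (nat_lit 8) (C.cons (nat_lit 266) (C.node (nat_lit 1) (nat_lit 7) (nat_lit 8) (C.cons (nat_lit 386) (C.node (nat_lit 3) (nat_lit 5) (nat_lit 10) C.nil) C.nil)) C.nil)) C.nil))) C.nil)) (C.cons (nat_lit 42) (C.node (nat_lit 1) (nat_lit 5) (nat_lit 6) (C.cons (nat_lit 98) (C.node (nat_lit 2) (nat_lit 4) (nat_lit 10) (C.cons (nat_lit 1172) (C.node (nat_lit 4) (nat_lit 7) (nat_lit 9) (C.cons (nat_lit 656) (C.node (nat_lit 3) (nat_lit 5) (nat_lit 10) C.nil) C.nil)) C.nil)) C.nil)) C.nil))) C.nil))))) C.nil))) C.nil)) C.nil)) C.nil)) C.nil)) C.nil)) (C.cons (nat_lit 50) (C.node (nat_lit 1) (nat_lit 4) (nat_lit 7) (C.cons (nat_lit 146) (C.node (nat_lit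 1) (nat_lit 5) (nat_lit 6) (C.cons (nat_lit 106) (C.node (nat_lit 1) (nat_lit 6) (nat_lit 8) (C.cons (nat_lit 322) (C.node (nat_lit 1) (nat_lit 3) (nat_lit 7) (C.cons (nat_lit 394) (C.miq (nat_lit 1936359760) (nat_lit 1325018134603900767691669795)) (C.cons (nat_lit 138) (C.node (nat_lit 1) (nat_lit 3) (nat_lit 8) (C.cons (nat_lit 266) (C.node (nat_lit 1) (nat_lit 7) (nat_lit 8) (C.cons (nat_lit 386) (C.node (nat_lit 5) (nat_lit 6) (nat_lit 8) (C.cons (nat_lit 480) (C.miq (nat_lit 1983546640) (nat_lit 1325018134628107615682363683)) (C.cons (nat_lit 352) (C.node (nat_lit 5) (nat_lit 6) (nat_lit 9) (C.cons (nat_lit 736) (C.miq (nat_lit 2840790881) (nat_lit 668555144954699109200691395)) (C.cons (nat_lit 608) (C.node (nat_lit 3) (nat_lit 4) (nat_lit 6) (C.cons (nat_lit 600) (C.miq (nat_lit 2303074570) (nat_lit 725380358197652777975481359)) (C.cons (nat_lit 344) (C.miq (nat_lit 2489847970) (nat_lit 415884759876813583391392783)) C.nil)))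 C.nil))) C.nil))) C.nil)) C.nil)) C.nil))) C.nil)) (C.cons (nat_lit 98) (C.node (nat_lit 1) (nat_lit 3) (nat_lit 5) (C.cons (nat_lit 170) (C.node (nat_lit 1) (nat_lit 5) (nat_lit 9) (C.cons (nat_lit 546) (C.node (nat_lit 1) (nat_lit 5) (nat_lit 10) (C.cons (nat_lit 1058) (C.node (nat_lit 1) (nat_lit 7) (nat_lit 8) (C.cons (nat_lit 386) (C.node (nat_lit 1) (nat_lit 7) (nat_lit 9) (C.cons (nat_lit 642) (C.node (nat_lit 1) (nat_lit 7) (nat_lit 10) (C.cons (nat_lit 1154) (C.node (nat_lit 3) (nat_lit 5) (nat_lit 10) (C.cons (nat_lit 1064) (C.node (nat_lit 5) (nat_lit 6) (nat_lit 9) C.nil) C.nil)) C.nil)) C.nil)) C.nil)) C.nil)) C.nil)) (C.cons (nat_lit 42) (C.node (nat_lit 1) (nat_lit 3) (nat_lit 6) (C.cons (nat_lit 330) (C.node (nat_lit 1) (nat_lit 3) (nat_lit 7) (C.cons (nat_lit 138) (C.node (nat_lit 1) (nat_lit 7) (nat_lit 8) (C.cons (nat_lit 386) (C.node (nat_lit 3) (nat_lit 4) (nat_lit 6) (C.cons (nat_lit 600) (C.miq (nat_lit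 2303074570) (nat_lit 725380358197652777975481359)) (C.cons (nat_lit 88) (C.node (nat_lit 3) (nat_lit 8) (nat_lit 9) (C.cons (nat_lit 792) (C.miq (nat_lit 1754571280) (nat_lit 957490223462229707072930831)) (C.cons (nat_lit 776) (C.node (nat_lit 3) (nat_lit 4) (nat_lit 8) (C.cons (nat_lit 312) (C.node (nat_lit 2) (nat_lit 3) (nat_lit 8) C.nil) C.nil)) C.nil))) C.nil))) C.nil)) C.nil)) (C.cons (nat_lit 74) (C.node (nat_lit 1) (nat_lit 6) (nat_lit 8) (C.cons (nat_lit 322) (C.node (nat_lit 1) (nat_lit 3) (nat_lit 7) (C.cons (nat_lit 394) (C.node (nat_lit 4) (nat_lit 7) (nat_lit 8)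
  (C.cons (nat_lit 432) (C.miq (nat_lit 2759001473) (nat_lit 184984816888169751925883171)) (C.cons (nat_lit 400) (C.node (nat_lit 4) (nat_lit 5) (nat_lit 8) (C.cons (nat_lit 312) (C.miq (nat_lit 1681327489) (nat_lit 184969247836171025668243747)) (C.cons (nat_lit 304) (C.node (nat_lit 6) (nat_lit 7) (nat_lit 8) (C.cons (nat_lit 480) (C.miq (nat_lit 979832920) (nat_lit 1470061064961011502217691427)) (C.cons (nat_lit 448) (C.node (nat_lit 2) (nat_lit 3) (nat_lit 8) C.nil) C.nil))) C.nil))) C.nil))) (C.cons (nat_lit 138) (C.node (nat_lit 1) (nat_lit 3) (nat_lit 8) (C.cons (nat_lit 266) (C.node (nat_lit 1) (nat_lit 7) (nat_lit 8) C.nil) C.nil)) C.nil))) C.nil)) C.nil))) C.nil))) C.nil))) C.nil)) C.nil))) C.nil)) C.nil))) C.nil)))) C.nil)))) C.nil)) C.nil))) C.nil)) C.nil))) (C.cons (nat_lit 1220) (C.miq (nat_lit 1914283584) (nat_lit 935744020920488418260223089)) (C.cons (nat_lit 1092) (C.miq (nat_lit 2188001425) (nat_lit 1320170938970953797806981651))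 C.nil)))) C.nil))) (C.cons (nat_lit 390) (C.miq (nat_lit 2435360320) (nat_lit 471516506295994256259875953)) (C.cons (nat_lit 262) (C.miq (nat_lit 2435360320) (nat_lit 316774001385321721897485425)) C.nil)))) C.nil))) C.nil)) C.nil))) C.nil))) (C.cons (nat_lit 82) (C.miq (nat_lit 638847400) (nat_lit 99137027120051851963271041)) C.nil)))) (C.cons (nat_lit 1090) (C.node (nat_lit 1) (nat_lit 7) (nat_lit 10) (C.cons (nat_lit 1186) (C.node (nat_lit 1) (nat_lit 9) (nat_lit 10) (C.cons (nat_lit 1538) (C.node (nat_lit 4) (nat_lit 7) (nat_lit 10) (C.cons (nat_lit 1172) (C.miq (nat_lit 1912972417) (nat_lit 44752133494102561422247186)) (C.cons (nat_lit 1168) (C.ref (nat_lit 53) (nat_lit 11649936536080)) C.nil))) C.nil)) (C.cons (nat_lit 1154) (C.node (nat_lit 1) (nat_lit 5) (nat_lit 10) (C.cons (nat_lit 1570) (C.node (nat_lit 2) (nat_lit 9) (nat_lit 10) (C.cons (nat_lit 1556) (C.miq (nat_lit 2449843329) (nat_lit 44759217151913256946959634))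 (C.cons (nat_lit 1540) (C.node (nat_lit 3) (nat_lit 4) (nat_lit 10) (C.cons (nat_lit 1560) (C.miq (nat_lit 1124641105) (nat_lit 320389286510787745099744802)) (C.cons (nat_lit 1048) (C.node (nat_lit 4) (nat_lit 9) (nat_lit 10) (C.cons (nat_lit 1552) (C.node (nat_lit 2) (nat_lit 8) (nat_lit 10) (C.cons (nat_lit 1348) (C.miq (nat_lit 2443576450) (nat_lit 1317739861087721413268472085)) (C.cons (nat_lit 1316) (C.miq (nat_lit 714376464) (nat_lit 1876257982160440709174460707)) (C.cons (nat_lit 1284) (C.node (nat_lit 5) (nat_lit 8) (nat_lit 10) (C.cons (nat_lit 1320) (C.miq (nat_lit 977885200) (nat_lit 1876263073462929784686444835)) (C.cons (nat_lit 1312) (C.node (nat_lit 3) (nat_lit 5) (nat_lit 10) (C.cons (nat_lit 1192) (C.miq (nat_lit 1101465939) (nat_lit 1395103218336595300982456873)) (C.cons (nat_lit 1064) (C.node (nat_lit 2) (nat_lit 4) (nat_lit 10) (C.cons (nat_lit 1172) (C.node (nat_lit 2) (nat_lit 5) (nat_lit 10) (C.cons (nat_lit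 1060) (C.node (nat_lit 2) (nat_lit 6) (nat_lit 10) (C.cons (nat_lit 1092) (C.node (nat_lit 5) (nat_lit 7) (nat_lit 10) (C.cons (nat_lit 1184) (C.node (nat_lit 1) (nat_lit 2) (nat_lit 4) (C.cons (nat_lit 86) (C.miq (nat_lit 2585135170) (nat_lit 1317739861478971630813577493)) (C.cons (nat_lit 54) (C.miq (nat_lit 2320632084) (nat_lit 1281466479080335516097708563)) (C.cons (nat_lit 22) (C.node (nat_lit 1) (nat_lit 4) (nat_lit 6) (C.cons (nat_lit 90) (C.node (nat_lit 2) (nat_lit 4) (nat_lit 6) (C.cons (nat_lit 84) (C.node (nat_lit 3) (nat_lit 7) (nat_lit 10) (C.cons (nat_lit 1224) (C.miq (nat_lit 2587101025) (nat_lit 1266964054717953202171019459)) (C.cons (nat_lit 1160) (C.node (nat_lit 6) (nat_lit 7) (nat_lit 10) (C.cons (nat_lit 1216) (C.node (nat_lit 1) (nat_lit 3) (nat_lit 8) (C.cons (nat_lit 778) (C.miq (nat_lit 1410534025) (nat_lit 108813525134832010544154497)) (C.cons (nat_lit 394) (C.miq (nat_lit 2202693984) (nat_lit 1266989695262398498586296515))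 (C.cons (nat_lit 266) (C.node (nat_lit 1) (nat_lit 3) (nat_lit 9) (C.cons (nat_lit 650) (C.miq (nat_lit 1362405744) (nat_lit 108824298155246938658244481)) (C.cons (nat_lit 522)
  (C.node (nat_lit 1) (nat_lit 7) (nat_lit 8) (C.cons (nat_lit 390) (C.miq (nat_lit 1411451512) (nat_lit 26601736354089373570303873)) (C.cons (nat_lit 386) (C.node (nat_lit 3) (nat_lit 8) (nat_lit 10) (C.cons (nat_lit 1352) (C.miq (nat_lit 2199496256) (nat_lit 631094714414756580339942513)) (C.cons (nat_lit 1288) (C.node (nat_lit 6) (nat_lit 8) (nat_lit 10) (C.cons (nat_lit 1344) (C.node (nat_lit 3) (nat_lit 6) (nat_lit 10) (C.cons (nat_lit 1608) (C.node (nat_lit 3) (nat_lit 7) (nat_lit 9) (C.cons (nat_lit 652) (C.miq (nat_lit 1512637555) (nat_lit 1861755963576043772693971097)) (C.cons (nat_lit 648) (C.node (nat_lit 4) (nat_lit 6) (nat_lit 7) (C.cons (nat_lit 720) (C.miq (nat_lit 1983550480) (nat_lit 1943988154338351678823006739)) (C.cons (nat_lit 464)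 (C.miq (nat_lit 2218423824) (nat_lit 1266989695282101746949619907)) (C.cons (nat_lit 208) (C.node (nat_lit 4) (nat_lit 6) (nat_lit 8) (C.cons (nat_lit 848) (C.miq (nat_lit 910338432) (nat_lit 101568935467336839600605057)) (C.cons (nat_lit 336) (C.node (nat_lit 4) (nat_lit 6) (nat_lit 9) (C.cons (nat_lit 592) (C.node (nat_lit 1) (nat_lit 3) (nat_lit 5) C.nil) C.nil)) C.nil))) C.nil)))) C.nil))) C.nil)) C.nil)) C.nil))) C.nil))) C.nil))) C.nil)))) C.nil)) C.nil))) C.nil)) (C.cons (nat_lit 82) (C.node (nat_lit 1) (nat_lit 3) (nat_lit 4) (C.cons (nat_lit 58) (C.miq (nat_lit 2052262164) (nat_lit 1286299894962528892812395027)) (C.cons (nat_lit 26) (C.node (nat_lit 1) (nat_lit 4) (nat_lit 5) (C.cons (nat_lit 178) (C.node (nat_lit 1) (nat_lit 2) (nat_lit 5) (C.cons (nat_lit 102) (C.node (nat_lit 1) (nat_lit 3) (nat_lit 5) (C.cons (nat_lit 42) (C.node (nat_lit 1) (nat_lit 2) (nat_lit 7) (C.cons (nat_lit 646) (C.miq (nat_lit 1969361929)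 (nat_lit 123322350247471221460763155)) (C.cons (nat_lit 390) (C.miq (nat_lit 1108715392) (nat_lit 123331407878594331341424513)) (C.cons (nat_lit 134) (C.node (nat_lit 1) (nat_lit 2) (nat_lit 8) (C.cons (nat_lit 774) (C.miq (nat_lit 1361357184) (nat_lit 26617342421452687362295681)) (C.cons (nat_lit 262) (C.node (nat_lit 1) (nat_lit 2) (nat_lit 9) (C.cons (nat_lit 518) (C.node (nat_lit 1) (nat_lit 7) (nat_lit 9) (C.cons (nat_lit 650) (C.miq (nat_lit 1362405744) (nat_lit 31453045699910671477049217)) (C.cons (nat_lit 642) (C.node (nat_lit 1) (nat_lit 3) (nat_lit 7) (C.cons (nat_lit 138) (C.node (nat_lit 1) (nat_lit 7) (nat_lit 8) (C.cons (nat_lit 386) (C.node (nat_lit 1) (nat_lit 3) (nat_lit 6) (C.cons (nat_lit 842) (C.miq (nat_lit 1094035600) (nat_lit 50795858737184369266984833)) C.nil)) C.nil)) C.nil)) C.nil))) C.nil)) C.nil))) C.nil)))) C.nil)) (C.cons (nat_lit 38) (C.node (nat_lit 1) (nat_lit 2) (nat_lit 6) (C.cons (nat_lit 326)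 (C.node (nat_lit 1) (nat_lit 8) (nat_lit 9) (C.cons (nat_lit 778) (C.miq (nat_lit 1410534025) (nat_lit 31442272679495743362959233)) (C.cons (nat_lit 770) (C.node (nat_lit 4) (nat_lit 7) (nat_lit 8) (C.cons (nat_lit 464) (C.miq (nat_lit 880936801) (nat_lit 334891618243412529940660419)) (C.cons (nat_lit 400) (C.node (nat_lit 1) (nat_lit 2) (nat_lit 7) (C.cons (nat_lit 646) (C.node (nat_lit 4) (nat_lit 6) (nat_lit 7) (C.cons (nat_lit 720) (C.miq (nat_lit 1730824464) (nat_lit 1416882034739021958364463635)) (C.cons (nat_lit 208) (C.node (nat_lit 4) (nat_lit 7) (nat_lit 9) (C.cons (nat_lit 656) (C.node (nat_lit 5) (nat_lit 7) (nat_lit 9) (C.cons (nat_lit 736) (C.miq (nat_lit 659984704) (nat_lit 889780120976507497367011859)) (C.cons (nat_lit 672) (C.node (nat_lit 5) (nat_lit 6) (nat_lit 9) (C.cons (nat_lit 864) (C.miq (nat_lit 962725249) (nat_lit 702405067518851507722518819)) (C.cons (nat_lit 608) (C.node (nat_lit 1) (nat_lit 3) (nat_lit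 5) (C.cons (nat_lit 106) (C.node (nat_lit 1) (nat_lit 3) (nat_lit 9) (C.cons (nat_lit 522) (C.node (nat_lit 1) (nat_lit 6) (nat_lit 9) (C.cons (nat_lit 578) (C.node (nat_lit 1) (nat_lit 3) (nat_lit 7) (C.cons (nat_lit 394) (C.miq (nat_lit 2203742560) (nat_lit 1286332508376232634101072067)) C.nil)) C.nil)) C.nil)) (C.cons (nat_lit 42) (C.node (nat_lit 1) (nat_lit 5) (nat_lit 6) (C.cons (nat_lit 98)
  (C.node (nat_lit 1) (nat_lit 3) (nat_lit 6) (C.cons (nat_lit 586) (C.node (nat_lit 3) (nat_lit 7) (nat_lit 9) (C.cons (nat_lit 648) (C.node (nat_lit 3) (nat_lit 9) (nat_lit 10) (C.cons (nat_lit 1544) (C.node (nat_lit 6) (nat_lit 7) (nat_lit 9) C.nil) C.nil)) C.nil)) C.nil)) C.nil)) C.nil))) C.nil))) C.nil))) C.nil)) C.nil))) (C.cons (nat_lit 134) (C.node (nat_lit 1) (nat_lit 2) (nat_lit 9) (C.cons (nat_lit 518) (C.node (nat_lit 1) (nat_lit 7) (nat_lit 9) (C.cons (nat_lit 650) (C.miq (nat_lit 1362405744) (nat_lit 31453045699910671477049217))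 (C.cons (nat_lit 642) (C.node (nat_lit 1) (nat_lit 3) (nat_lit 5) (C.cons (nat_lit 42) (C.node (nat_lit 1) (nat_lit 5) (nat_lit 6) (C.cons (nat_lit 98) (C.node (nat_lit 1) (nat_lit 3) (nat_lit 6) C.nil) C.nil)) C.nil)) C.nil))) C.nil)) C.nil))) C.nil))) C.nil))) (C.cons (nat_lit 70) (C.node (nat_lit 1) (nat_lit 2) (nat_lit 8) (C.cons (nat_lit 774) (C.miq (nat_lit 1361357184) (nat_lit 26617342421452687362295681)) (C.cons (nat_lit 390) (C.miq (nat_lit 1108715392) (nat_lit 45960155423258064160229249)) (C.cons (nat_lit 262) (C.node (nat_lit 1) (nat_lit 2) (nat_lit 7) (C.cons (nat_lit 646) (C.node (nat_lit 4) (nat_lit 7) (nat_lit 9) (C.cons (nat_lit 720) (C.miq (nat_lit 1730824464) (nat_lit 1416882034739021958364463635)) (C.cons (nat_lit 656) (C.node (nat_lit 5) (nat_lit 7) (nat_lit 9) (C.cons (nat_lit 736) (C.miq (nat_lit 659984704) (nat_lit 889780120976507497367011859)) (C.cons (nat_lit 672) (C.node (nat_lit 1) (nat_lit 3) (nat_lit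 5) (C.cons (nat_lit 106) (C.node (nat_lit 1) (nat_lit 3) (nat_lit 7) (C.cons (nat_lit 394) (C.miq (nat_lit 2203742560) (nat_lit 1286332508376232634101072067)) (C.cons (nat_lit 138) (C.node (nat_lit 1) (nat_lit 7) (nat_lit 8) C.nil) C.nil))) (C.cons (nat_lit 42) (C.node (nat_lit 1) (nat_lit 5) (nat_lit 6) C.nil) C.nil))) C.nil))) C.nil))) (C.cons (nat_lit 134) (C.node (nat_lit 1) (nat_lit 2) (nat_lit 9) (C.cons (nat_lit 518) (C.node (nat_lit 1) (nat_lit 7) (nat_lit 9) (C.cons (nat_lit 650) (C.miq (nat_lit 1362405744) (nat_lit 31453045699910671477049217)) (C.cons (nat_lit 642) (C.node (nat_lit 1) (nat_lit 3) (nat_lit 5) (C.cons (nat_lit 106) (C.node (nat_lit 2) (nat_lit 4) (nat_lit 6) C.nil) (C.cons (nat_lit 42) (C.node (nat_lit 1) (nat_lit 5) (nat_lit 6) C.nil) C.nil))) C.nil))) C.nil)) C.nil))) C.nil)))) C.nil))) C.nil))) (C.cons (nat_lit 50) (C.node (nat_lit 1) (nat_lit 4) (nat_lit 7) (C.cons (nat_lit 146) (C.node (nat_lit 4)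 (nat_lit 5) (nat_lit 7) (C.cons (nat_lit 688) (C.miq (nat_lit 827591319) (nat_lit 60449113625033980242823041)) (C.cons (nat_lit 432) (C.miq (nat_lit 609331072) (nat_lit 60465457477714571109271425)) (C.cons (nat_lit 176) (C.node (nat_lit 2) (nat_lit 4) (nat_lit 6) (C.cons (nat_lit 92) (C.node (nat_lit 3) (nat_lit 7) (nat_lit 10) (C.cons (nat_lit 1224) (C.miq (nat_lit 2321680180) (nat_lit 1320152105308002163632111769)) (C.cons (nat_lit 1160) (C.node (nat_lit 6) (nat_lit 7) (nat_lit 10) (C.cons (nat_lit 1216) (C.node (nat_lit 3) (nat_lit 9) (nat_lit 10) (C.cons (nat_lit 1608) (C.miq (nat_lit 2318666082) (nat_lit 1266959369244960129212482117)) (C.cons (nat_lit 1544) (C.node (nat_lit 6) (nat_lit 9) (nat_lit 10) (C.cons (nat_lit 1600) (C.node (nat_lit 3) (nat_lit 6) (nat_lit 10) (C.cons (nat_lit 1352) (C.node (nat_lit 4) (nat_lit 7) (nat_lit 8) (C.cons (nat_lit 464) (C.miq (nat_lit 1983546400) (nat_lit 1634503144444949024650232085))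 (C.cons (nat_lit 400) (C.node (nat_lit 4) (nat_lit 6) (nat_lit 7) (C.cons (nat_lit 720) (C.miq (nat_lit 1949996576) (nat_lit 1266989695354159349577482821)) (C.cons (nat_lit 208) (C.node (nat_lit 4) (nat_lit 7) (nat_lit 9) C.nil) C.nil))) C.nil))) C.nil)) C.nil)) C.nil))) C.nil)) C.nil))) (C.cons (nat_lit 84) (C.node (nat_lit 4) (nat_lit 7) (nat_lit 8) (C.cons (nat_lit 464) (C.node (nat_lit 4) (nat_lit 7) (nat_lit 9) (C.cons (nat_lit 656) (C.node (nat_lit 6) (nat_lit 7) (nat_lit 10) (C.cons (nat_lit 1224) (C.miq (nat_lit 910337920) (nat_lit 101568935359248799276271489)) (C.cons (nat_lit 1216)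
  (C.node (nat_lit 3) (nat_lit 7) (nat_lit 10) (C.cons (nat_lit 1160) (C.node (nat_lit 5) (nat_lit 1) (nat_lit 7) C.nil) C.nil)) C.nil))) C.nil)) (C.cons (nat_lit 400) (C.node (nat_lit 4) (nat_lit 6) (nat_lit 7) (C.cons (nat_lit 720) (C.node (nat_lit 6) (nat_lit 7) (nat_lit 10) (C.cons (nat_lit 1224) (C.miq (nat_lit 910272400) (nat_lit 99151083720020640455133057)) (C.cons (nat_lit 1216) (C.node (nat_lit 3) (nat_lit 7) (nat_lit 10) (C.cons (nat_lit 1160) (C.node (nat_lit 5) (nat_lit 7) (nat_lit 9) C.nil) C.nil)) C.nil))) (C.cons (nat_lit 208) (C.node (nat_lit 4) (nat_lit 7) (nat_lit 9) (C.cons (nat_lit 656) (C.node (nat_lit 6) (nat_lit 7) (nat_lit 10) (C.cons (nat_lit 1224) (C.node (nat_lit 6) (nat_lit 8) (nat_lit 10) (C.cons (nat_lit 1344) (C.node (nat_lit 6) (nat_lit 9) (nat_lit 10) C.nil) C.nil)) (C.cons (nat_lit 1216) (C.node (nat_lit 3) (nat_lit 7) (nat_lit 10) C.nil) C.nil))) C.nil)) C.nil))) C.nil))) C.nil))) C.nil))))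 C.nil)) C.nil))) C.nil))) C.nil))) C.nil)))) C.nil)) C.nil)) C.nil)) (C.cons (nat_lit 1044) (C.node (nat_lit 4) (nat_lit 7) (nat_lit 10) (C.cons (nat_lit 1168) (C.node (nat_lit 2) (nat_lit 5) (nat_lit 10) (C.cons (nat_lit 1188) (C.node (nat_lit 2) (nat_lit 6) (nat_lit 10) (C.cons (nat_lit 1092) (C.node (nat_lit 3) (nat_lit 7) (nat_lit 10) (C.cons (nat_lit 1224) (C.node (nat_lit 3) (nat_lit 8) (nat_lit 10) (C.cons (nat_lit 1288) (C.node (nat_lit 3) (nat_lit 9) (nat_lit 10) (C.cons (nat_lit 1544) (C.node (nat_lit 6) (nat_lit 8) (nat_lit 10) (C.cons (nat_lit 1344) (C.node (nat_lit 6) (nat_lit 9) (nat_lit 10) (C.cons (nat_lit 1600) (C.node (nat_lit 1) (nat_lit 3) (nat_lit 4) (C.cons (nat_lit 90) (C.miq (nat_lit 2587101025) (nat_lit 1266964054717953202171019459)) (C.cons (nat_lit 58) (C.miq (nat_lit 2052262164) (nat_lit 1286299894962528892812395027)) (C.cons (nat_lit 26) (C.node (nat_lit 1) (nat_lit 4) (nat_lit 6) (C.cons (nat_lit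 86) (C.miq (nat_lit 2585135170) (nat_lit 1317739861478971630813577493)) (C.cons (nat_lit 82) (C.ref (nat_lit 54) (nat_lit 11649936536080)) C.nil))) C.nil)))) C.nil)) C.nil)) C.nil)) C.nil)) (C.cons (nat_lit 1160) (C.node (nat_lit 6) (nat_lit 7) (nat_lit 10) (C.cons (nat_lit 1216) (C.node (nat_lit 3) (nat_lit 8) (nat_lit 10) (C.cons (nat_lit 1352) (C.node (nat_lit 3) (nat_lit 9) (nat_lit 10) (C.cons (nat_lit 1544) (C.node (nat_lit 6) (nat_lit 9) (nat_lit 10) (C.cons (nat_lit 1600) (C.ref (nat_lit 55) (nat_lit 11649936536080)) C.nil)) C.nil)) (C.cons (nat_lit 1288) (C.node (nat_lit 6) (nat_lit 8) (nat_lit 10) (C.cons (nat_lit 1344) (C.node (nat_lit 3) (nat_lit 6) (nat_lit 10) (C.cons (nat_lit 1608) (C.ref (nat_lit 56) (nat_lit 11649936536080)) C.nil)) C.nil)) C.nil))) C.nil)) C.nil))) C.nil)) (C.cons (nat_lit 1060) (C.node (nat_lit 5) (nat_lit 7) (nat_lit 10) (C.cons (nat_lit 1184) (C.node (nat_lit 2) (nat_lit 6) (nat_lit 10) (C.cons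 (nat_lit 1220) (C.node (nat_lit 3) (nat_lit 7) (nat_lit 10) (C.cons (nat_lit 1160) (C.node (nat_lit 1) (nat_lit 2) (nat_lit 9) (C.cons (nat_lit 774) (C.miq (nat_lit 1653213460) (nat_lit 1552281726496735953941561875)) (C.cons (nat_lit 646) (C.miq (nat_lit 1244202609) (nat_lit 1861755557747674357241872579)) (C.cons (nat_lit 518) (C.node (nat_lit 1) (nat_lit 7) (nat_lit 9) (C.cons (nat_lit 650) (C.miq (nat_lit 1243022739) (nat_lit 1395103218507169136833593897)) (C.cons (nat_lit 642) (C.node (nat_lit 3) (nat_lit 8) (nat_lit 10) (C.cons (nat_lit 1352) (C.node (nat_lit 3) (nat_lit 9) (nat_lit 10) (C.cons (nat_lit 1544) (C.node (nat_lit 6) (nat_lit 9) (nat_lit 10) (C.cons (nat_lit 1600) (C.ref (nat_lit 54) (nat_lit 11293206061840)) C.nil)) C.nil)) (C.cons (nat_lit 1288) (C.node (nat_lit 6) (nat_lit 8) (nat_lit 10) (C.cons (nat_lit 1344) (C.node (nat_lit 3) (nat_lit 6) (nat_lit 10) (C.cons (nat_lit 1608) (C.node (nat_lit 1) (nat_lit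 3) (nat_lit 9) (C.cons (nat_lit 778) (C.miq (nat_lit 950374720) (nat_lit 1586120876602859345419502099)) (C.cons (nat_lit 522) (C.node (nat_lit 3) (nat_lit 7) (nat_lit 9) (C.cons (nat_lit 652)
  (C.miq (nat_lit 933597792) (nat_lit 1431378371656720628984119877)) (C.cons (nat_lit 648) (C.node (nat_lit 1) (nat_lit 5) (nat_lit 6) (C.cons (nat_lit 106) (C.miq (nat_lit 2301692517) (nat_lit 631064646382082215251674225)) (C.cons (nat_lit 102) (C.miq (nat_lit 2317682529) (nat_lit 1281466737334751044796022979)) (C.cons (nat_lit 98) (C.node (nat_lit 2) (nat_lit 4) (nat_lit 6) (C.cons (nat_lit 92) (C.miq (nat_lit 2318666082) (nat_lit 1266959369244960129212482117)) (C.cons (nat_lit 86) (C.miq (nat_lit 1914283584) (nat_lit 626259011099143349535442033)) (C.cons (nat_lit 84) (C.node (nat_lit 4) (nat_lit 6) (nat_lit 9) (C.cons (nat_lit 848) (C.miq (nat_lit 910338432) (nat_lit 101568935467336839600605057)) (C.cons (nat_lit 720) (C.miq (nat_lit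 308546169) (nat_lit 101559564361189731156887425)) (C.cons (nat_lit 592) (C.node (nat_lit 6) (nat_lit 7) (nat_lit 9) (C.cons (nat_lit 736) (C.miq (nat_lit 663987792) (nat_lit 783403097620774922152903793)) (C.cons (nat_lit 704) (C.node (nat_lit 5) (nat_lit 6) (nat_lit 9) (C.cons (nat_lit 864) (C.miq (nat_lit 911321472) (nat_lit 118493896941941716766885761)) (C.cons (nat_lit 608) (C.node (nat_lit 1) (nat_lit 2) (nat_lit 6) (C.cons (nat_lit 326) (C.node (nat_lit 1) (nat_lit 6) (nat_lit 9) C.nil) C.nil)) C.nil))) C.nil))) C.nil)))) C.nil)))) C.nil)))) C.nil))) C.nil))) C.nil)) C.nil)) C.nil))) C.nil))) C.nil)))) C.nil)) (C.cons (nat_lit 1092) (C.node (nat_lit 2) (nat_lit 7) (nat_lit 10) (C.cons (nat_lit 1156) (C.node (nat_lit 3) (nat_lit 7) (nat_lit 10) (C.cons (nat_lit 1224) (C.node (nat_lit 3) (nat_lit 8) (nat_lit 10) (C.cons (nat_lit 1288) (C.node (nat_lit 3) (nat_lit 9) (nat_lit 10) C.nil) C.nil)) (C.cons (nat_lit 1160) (C.node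 (nat_lit 6) (nat_lit 7) (nat_lit 10) C.nil) C.nil))) C.nil)) C.nil))) C.nil)) C.nil))) C.nil)) C.nil))) C.nil))) C.nil))) C.nil)))) C.nil)) C.nil))) C.nil))) (C.cons (nat_lit 1058) (C.node (nat_lit 1) (nat_lit 9) (nat_lit 10) (C.cons (nat_lit 1538) (C.ref (nat_lit 60) (nat_lit 11649936536080)) C.nil)) C.nil))) C.nil))) C.nil))) (List.cons (C.node (nat_lit 1) (nat_lit 2) (nat_lit 6) (C.cons (nat_lit 102) (C.miq (nat_lit 2317682529) (nat_lit 1281466737334751044796022979)) (C.cons (nat_lit 86) (C.miq (nat_lit 2586052449) (nat_lit 1262128351439494668292063427)) (C.cons (nat_lit 70) (C.node (nat_lit 1) (nat_lit 4) (nat_lit 6) (C.cons (nat_lit 90) (C.node (nat_lit 1) (nat_lit 3) (nat_lit 5) (C.cons (nat_lit 42) (C.node (nat_lit 2) (nat_lit 4) (nat_lit 6) (C.cons (nat_lit 84) (C.node (nat_lit 1) (nat_lit 4) (nat_lit 8) (C.cons (nat_lit 402) (C.miq (nat_lit 931217574) (nat_lit 485989839735121484248646769)) (C.cons (nat_lit 274) (C.node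 (nat_lit 3) (nat_lit 6) (nat_lit 10) (C.cons (nat_lit 1608) (C.miq (nat_lit 1398868392) (nat_lit 108808691923504643719694209)) (C.cons (nat_lit 1096) (C.node (nat_lit 6) (nat_lit 9) (nat_lit 10) (C.cons (nat_lit 1600) (C.node (nat_lit 3) (nat_lit 9) (nat_lit 10) (C.cons (nat_lit 1560) (C.miq (nat_lit 2050361665) (nat_lit 1324986295953448079256584723)) (C.cons (nat_lit 1544) (C.node (nat_lit 4) (nat_lit 9) (nat_lit 10) (C.cons (nat_lit 1552) (C.node (nat_lit 1) (nat_lit 3) (nat_lit 7) (C.cons (nat_lit 650) (C.miq (nat_lit 2167907904) (nat_lit 785837219323740264817296497)) (C.cons (nat_lit 394) (C.node (nat_lit 1) (nat_lit 3) (nat_lit 9) (C.cons (nat_lit 522) (C.node (nat_lit 1) (nat_lit 4) (nat_lit 5) (C.cons (nat_lit 54) (C.miq (nat_lit 678510757) (nat_lit 476317769130320694408774769)) (C.cons (nat_lit 50) (C.node (nat_lit 1) (nat_lit 7) (nat_lit 9) (C.cons (nat_lit 646) (C.miq (nat_lit 1176570489) (nat_lit 84634602914169470423795585))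 (C.cons (nat_lit 642) (C.node (nat_lit 3) (nat_lit 4) (nat_lit 10) (C.cons (nat_lit 1304) (C.node (nat_lit 3) (nat_lit 5) (nat_lit 10) (C.cons (nat_lit 1064) (C.node (nat_lit 5) (nat_lit 8) (nat_lit 10) (C.cons (nat_lit 1312) (C.node (nat_lit 4) (nat_lit 6) (nat_lit 7) (C.cons (nat_lit 720) (C.miq (nat_lit 641836944) (nat_lit 108822490275811773945939841)) (C.cons (nat_lit 464)
  (C.node (nat_lit 4) (nat_lit 6) (nat_lit 9) (C.cons (nat_lit 592) (C.node (nat_lit 1) (nat_lit 2) (nat_lit 4) (C.cons (nat_lit 150) (C.node (nat_lit 3) (nat_lit 4) (nat_lit 5) C.nil) C.nil)) C.nil)) (C.cons (nat_lit 208) (C.miq (nat_lit 2271490314) (nat_lit 251480625145016964011328527)) C.nil)))) C.nil)) C.nil)) (C.cons (nat_lit 1048) (C.miq (nat_lit 2319652359) (nat_lit 1266961527352166618695794883)) C.nil))) C.nil))) C.nil))) C.nil)) (C.cons (nat_lit 138) (C.miq (nat_lit 2167907904) (nat_lit 166867199681050127367734385)) C.nil)))) C.nil)) C.nil))) C.nil))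 C.nil))) C.nil))) C.nil)) C.nil)) (C.cons (nat_lit 82) (C.node (nat_lit 4) (nat_lit 6) (nat_lit 7) (C.cons (nat_lit 720) (C.miq (nat_lit 641836944) (nat_lit 99151083718894740548290433)) (C.cons (nat_lit 464) (C.miq (nat_lit 828639879) (nat_lit 99134739852701151746066305)) (C.cons (nat_lit 208) (C.node (nat_lit 4) (nat_lit 8) (nat_lit 10) (C.cons (nat_lit 1304) (C.miq (nat_lit 2255790339) (nat_lit 251480625412981141775385615)) (C.cons (nat_lit 1296) (C.node (nat_lit 2) (nat_lit 4) (nat_lit 6) (C.cons (nat_lit 92) (C.node (nat_lit 3) (nat_lit 6) (nat_lit 10) (C.cons (nat_lit 1608) (C.miq (nat_lit 881484297) (nat_lit 1566797524610926823067419205)) (C.cons (nat_lit 1096) (C.node (nat_lit 6) (nat_lit 9) (nat_lit 10) (C.cons (nat_lit 1600) (C.node (nat_lit 4) (nat_lit 6) (nat_lit 8) (C.cons (nat_lit 848) (C.miq (nat_lit 2520417312) (nat_lit 1325018134731690346982342933)) (C.cons (nat_lit 336) (C.node (nat_lit 4) (nat_lit 6) (nat_lit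 9) (C.cons (nat_lit 592) (C.node (nat_lit 1) (nat_lit 3) (nat_lit 5) (C.cons (nat_lit 106) (C.miq (nat_lit 2167539044) (nat_lit 1256079036409617803560879217)) (C.cons (nat_lit 58) (C.miq (nat_lit 1899144518) (nat_lit 1256096431941199209665660017)) (C.cons (nat_lit 42) (C.node (nat_lit 2) (nat_lit 3) (nat_lit 9) (C.cons (nat_lit 780) (C.miq (nat_lit 2473230912) (nat_lit 1325018134712550048572440853)) (C.cons (nat_lit 652) (C.miq (nat_lit 1445137017) (nat_lit 111231376774060933877860225)) (C.cons (nat_lit 524) (C.node (nat_lit 6) (nat_lit 7) (nat_lit 9) (C.cons (nat_lit 736) (C.miq (nat_lit 1445034250) (nat_lit 84646685418663540060784513)) (C.cons (nat_lit 712) (C.miq (nat_lit 2268334434) (nat_lit 184970760689863169559757381)) (C.cons (nat_lit 704) (C.node (nat_lit 1) (nat_lit 3) (nat_lit 4) (C.cons (nat_lit 282) (C.node (nat_lit 3) (nat_lit 4) (nat_lit 5) (C.cons (nat_lit 56) (C.node (nat_lit 3) (nat_lit 4) (nat_lit 10) (C.cons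 (nat_lit 1560) (C.node (nat_lit 3) (nat_lit 5) (nat_lit 10) (C.cons (nat_lit 1320) (C.miq (nat_lit 1129421440) (nat_lit 50784680084024198154094465)) C.nil)) C.nil)) C.nil)) (C.cons (nat_lit 26) (C.node (nat_lit 3) (nat_lit 4) (nat_lit 10) (C.cons (nat_lit 1560) (C.node (nat_lit 3) (nat_lit 5) (nat_lit 10) (C.cons (nat_lit 1320) (C.miq (nat_lit 1129421440) (nat_lit 50784680084024198154094465)) C.nil)) C.nil)) C.nil))) C.nil)))) C.nil)))) C.nil)))) C.nil)) C.nil))) C.nil)) C.nil))) (C.cons (nat_lit 84) (C.node (nat_lit 3) (nat_lit 4) (nat_lit 10) (C.cons (nat_lit 1560) (C.node (nat_lit 3) (nat_lit 6) (nat_lit 10) (C.cons (nat_lit 1096) (C.node (nat_lit 6) (nat_lit 9) (nat_lit 10) (C.cons (nat_lit 1600) (C.node (nat_lit 3) (nat_lit 5) (nat_lit 10) (C.cons (nat_lit 1320) (C.miq (nat_lit 1250005840) (nat_lit 1627223948861500641970946601)) (C.cons (nat_lit 1064) (C.node (nat_lit 3) (nat_lit 8) (nat_lit 10) (C.cons (nat_lit 1288) (C.node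 (nat_lit 5) (nat_lit 8) (nat_lit 10) (C.cons (nat_lit 1312) (C.node (nat_lit 1) (nat_lit 3) (nat_lit 5) (C.cons (nat_lit 106) (C.miq (nat_lit 2590181397) (nat_lit 1324992899887825548154110243)) (C.cons (nat_lit 58) (C.miq (nat_lit 2318731585) (nat_lit 1286302440613211021780845075)) (C.cons (nat_lit 42) (C.node (nat_lit 1) (nat_lit 3) (nat_lit 7) (C.cons (nat_lit 650) (C.miq (nat_lit 828675850) (nat_lit 99160694312114151681492865)) (C.cons (nat_lit 394) (C.miq (nat_lit 878801064) (nat_lit 99139185268635188792002433)) (C.cons (nat_lit 138) (C.node (nat_lit 1) (nat_lit 7) (nat_lit 9)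
  (C.cons (nat_lit 646) (C.miq (nat_lit 1176570489) (nat_lit 84634602914169470423795585)) (C.cons (nat_lit 642) (C.node (nat_lit 1) (nat_lit 3) (nat_lit 4) (C.cons (nat_lit 282) (C.node (nat_lit 3) (nat_lit 4) (nat_lit 6) (C.cons (nat_lit 88) (C.node (nat_lit 1) (nat_lit 3) (nat_lit 6) (C.cons (nat_lit 586) (C.node (nat_lit 1) (nat_lit 5) (nat_lit 6) C.nil) C.nil)) C.nil)) (C.cons (nat_lit 26) (C.node (nat_lit 1) (nat_lit 3) (nat_lit 8) (C.cons (nat_lit 778) (C.miq (nat_lit 1125493120) (nat_lit 50795858810930538270099329)) (C.cons (nat_lit 266) (C.node (nat_lit 1) (nat_lit 3) (nat_lit 6) C.nil) C.nil))) C.nil))) C.nil))) C.nil)))) C.nil)))) C.nil)) C.nil)) C.nil))) C.nil)) C.nil)) (C.cons (nat_lit 1048) (C.node (nat_lit 4) (nat_lit 9) (nat_lit 10) (C.cons (nat_lit 1552) (C.node (nat_lit 3) (nat_lit 5) (nat_lit 10) (C.cons (nat_lit 1320) (C.node (nat_lit 3) (nat_lit 6) (nat_lit 10) (C.cons (nat_lit 1608) (C.miq (nat_lit 1628022867)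 (nat_lit 641969272958705185252246824)) (C.cons (nat_lit 1096) (C.node (nat_lit 3) (nat_lit 9) (nat_lit 10) (C.cons (nat_lit 1544) (C.node (nat_lit 6) (nat_lit 9) (nat_lit 10) (C.cons (nat_lit 1600) (C.node (nat_lit 1) (nat_lit 3) (nat_lit 5) (C.cons (nat_lit 106) (C.miq (nat_lit 2050361425) (nat_lit 1324986295953447048465482019)) (C.cons (nat_lit 58) (C.miq (nat_lit 2587101265) (nat_lit 1266964054717953614485782819)) (C.cons (nat_lit 42) (C.node (nat_lit 4) (nat_lit 5) (nat_lit 8) (C.cons (nat_lit 816) (C.miq (nat_lit 1094029480) (nat_lit 50789937116446247522666369)) (C.cons (nat_lit 432) (C.miq (nat_lit 1201833232) (nat_lit 1474894609799558294525640995)) (C.cons (nat_lit 304) (C.node (nat_lit 1) (nat_lit 4) (nat_lit 5) (C.cons (nat_lit 54) (C.miq (nat_lit 1967694112) (nat_lit 367548885692042419484558351)) (C.cons (nat_lit 50) (C.node (nat_lit 1) (nat_lit 2) (nat_lit 4) (C.cons (nat_lit 150) (C.node (nat_lit 4) (nat_lit 7) (nat_lit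 8) C.nil) (C.cons (nat_lit 22) (C.node (nat_lit 1) (nat_lit 3) (nat_lit 4) C.nil) C.nil))) C.nil))) C.nil)))) C.nil)))) C.nil)) C.nil)) C.nil))) (C.cons (nat_lit 1064) (C.node (nat_lit 3) (nat_lit 8) (nat_lit 10) (C.cons (nat_lit 1288) (C.node (nat_lit 5) (nat_lit 8) (nat_lit 10) (C.cons (nat_lit 1312) (C.node (nat_lit 3) (nat_lit 6) (nat_lit 10) (C.cons (nat_lit 1608) (C.node (nat_lit 1) (nat_lit 3) (nat_lit 6) (C.cons (nat_lit 106) (C.node (nat_lit 1) (nat_lit 6) (nat_lit 9) (C.cons (nat_lit 578) (C.node (nat_lit 1) (nat_lit 3) (nat_lit 4) (C.cons (nat_lit 282) (C.miq (nat_lit 2467866192) (nat_lit 340952517779303241152136305)) (C.cons (nat_lit 26) (C.node (nat_lit 2) (nat_lit 5) (nat_lit 6) (C.cons (nat_lit 356) (C.miq (nat_lit 2522391312) (nat_lit 430413028430785800080393231)) (C.cons (nat_lit 100) (C.node (nat_lit 4) (nat_lit 6) (nat_lit 9) (C.cons (nat_lit 848) (C.miq (nat_lit 910338432) (nat_lit 101568935467336839600605057))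 C.nil)) C.nil))) C.nil))) C.nil)) (C.cons (nat_lit 74) (C.miq (nat_lit 1398868392) (nat_lit 89465878809670576924395393)) C.nil))) C.nil)) C.nil)) C.nil)) C.nil))) C.nil)) C.nil))) C.nil))) C.nil))) C.nil)))) C.nil))) C.nil)))) List.nil))

theorem ok11_61 : okL par11 (nat_lit 63) c11_61 (nat_lit 61) = true := by decide +kernel

noncomputable def c11_63 : List C :=
  (List.cons (C.node (nat_lit 3) (nat_lit 4) (nat_lit 5) (C.cons (nat_lit 312) (C.miq (nat_lit 2018779402) (nat_lit 377206475413595180929975311)) (C.cons (nat_lit 56) (C.node (nat_lit 4) (nat_lit 5) (nat_lit 7) (C.cons (nat_lit 688) (C.miq (nat_lit 609462160) (nat_lit 67719012395403445686306689)) (C.cons (nat_lit 432) (C.node (nat_lit 4) (nat_lit 5) (nat_lit 9) (C.cons (nat_lit 560) (C.node (nat_lit 1) (nat_lit 3) (nat_lit 4) (C.cons (nat_lit 282) (C.node (nat_lit 1) (nat_lit 8) (nat_lit 9) (C.cons (nat_lit 770) (C.node (nat_lit 1) (nat_lit 3) (nat_lit 5) (C.cons (nat_lit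 106) (C.miq (nat_lit 2551384677) (nat_lit 340927282721517399943283825)) (C.cons (nat_lit 42) (C.node (nat_lit 6) (nat_lit 9) (nat_lit 10) (C.cons (nat_lit 1608) (C.miq (nat_lit 1632872457) (nat_lit 50804547167151518820927361)) (C.cons (nat_lit 1600) (C.node (nat_lit 1) (nat_lit 3) (nat_lit 6) (C.cons (nat_lit 586) (C.node (nat_lit 1) (nat_lit 3) (nat_lit 7) (C.cons (nat_lit 138) (C.node (nat_lit 1) (nat_lit 5) (nat_lit 6) (C.cons (nat_lit 98) (C.node (nat_lit 1) (nat_lit 5) (nat_lit 9) (C.cons (nat_lit 546) (C.node (nat_lit 1) (nat_lit 7) (nat_lit 9) (C.cons (nat_lit 642) (C.node (nat_lit 2) (nat_lit 4) (nat_lit 9) C.nil) C.nil)) C.nil)) C.nil)) C.nil)) (C.cons (nat_lit 74) (C.node (nat_lit 1) (nat_lit 3) (nat_lit 7) (C.cons (nat_lit 650) (C.node (nat_lit 1) (nat_lit 5) (nat_lit 6) (C.cons (nat_lit 610) (C.miq (nat_lit 961835360) (nat_lit 677001281518996970263347395)) (C.cons (nat_lit 98) (C.node (nat_lit 1) (nat_lit 5) (nat_lit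 9) (C.cons (nat_lit 546) (C.node (nat_lit 1) (nat_lit 6) (nat_lit 9) (C.cons (nat_lit 578) (C.node (nat_lit 2) (nat_lit 4) (nat_lit 9) C.nil) C.nil)) C.nil)) C.nil))) (C.cons (nat_lit 138) (C.node (nat_lit 1) (nat_lit 3) (nat_lit 9) (C.cons (nat_lit 522) (C.node (nat_lit 1) (nat_lit 7) (nat_lit 9) (C.cons (nat_lit 642) (C.node (nat_lit 1) (nat_lit 5) (nat_lit 6) (C.cons (nat_lit 610) (C.node (nat_lit 3) (nat_lit 9) (nat_lit 10) (C.cons (nat_lit 1560) (C.node (nat_lit 2) (nat_lit 4) (nat_lit 9) C.nil) C.nil)) (C.cons (nat_lit 98) (C.node (nat_lit 1) (nat_lit 5) (nat_lit 9) C.nil) C.nil))) C.nil)) C.nil)) C.nil))) C.nil))) C.nil))) C.nil))) C.nil)) (C.cons (nat_lit 26) (C.node (nat_lit 1) (nat_lit 4) (nat_lit 8) (C.cons (nat_lit 274) (C.node (nat_lit 1) (nat_lit 3) (nat_lit 5) (C.cons (nat_lit 106) (C.node (nat_lit 1) (nat_lit 5) (nat_lit 9) (C.cons (nat_lit 546) (C.node (nat_lit 1) (nat_lit 6) (nat_lit 9) (C.cons (nat_lit 578)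 (C.node (nat_lit 1) (nat_lit 3) (nat_lit 7) (C.cons (nat_lit 650) (C.miq (nat_lit 2168038992) (nat_lit 785837219323740333562987633)) (C.cons (nat_lit 138) (C.node (nat_lit 1) (nat_lit 7) (nat_lit 9) (C.cons (nat_lit 642) (C.node (nat_lit 1) (nat_lit 3) (nat_lit 8) (C.cons (nat_lit 778) (C.node (nat_lit 2) (nat_lit 4) (nat_lit 6) (C.cons (nat_lit 92) (C.miq (nat_lit 2167539044) (nat_lit 1256079036409617803560879217)) (C.cons (nat_lit 84) (C.node (nat_lit 2) (nat_lit 3) (nat_lit 4) C.nil) C.nil))) (C.cons (nat_lit 266) (C.miq (nat_lit 2551384677) (nat_lit 321584469607683333147985009)) C.nil))) C.nil)) C.nil))) C.nil)) C.nil)) (C.cons (nat_lit 42) (C.node (nat_lit 1) (nat_lit 3) (nat_lit 8) (C.cons (nat_lit 778) (C.miq (nat_lit 1630906512) (nat_lit 50795858750694893271189377)) (C.cons (nat_lit 266) (C.node (nat_lit 1) (nat_lit 8) (nat_lit 9) (C.cons (nat_lit 770) (C.node (nat_lit 6) (nat_lit 9) (nat_lit 10) (C.cons (nat_lit 1608)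 (C.miq (nat_lit 1632872457) (nat_lit 50804547167151518820927361)) (C.cons (nat_lit 1600) (C.node (nat_lit 1) (nat_lit 3) (nat_lit 6) (C.cons (nat_lit 586) (C.node (nat_lit 1) (nat_lit 3) (nat_lit 7) (C.cons (nat_lit 138) (C.node (nat_lit 1) (nat_lit 5) (nat_lit 6) (C.cons (nat_lit 98) (C.node (nat_lit 1) (nat_lit 5) (nat_lit 9) C.nil) C.nil)) C.nil)) (C.cons (nat_lit 74) (C.node (nat_lit 1) (nat_lit 3) (nat_lit 7) (C.cons (nat_lit 650) (C.node (nat_lit 1) (nat_lit 5) (nat_lit 6) (C.cons (nat_lit 610) (C.miq (nat_lit 961835360) (nat_lit 677001281518996970263347395)) (C.cons (nat_lit 98)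
  (C.node (nat_lit 1) (nat_lit 5) (nat_lit 9) C.nil) C.nil))) (C.cons (nat_lit 138) (C.node (nat_lit 1) (nat_lit 3) (nat_lit 9) (C.cons (nat_lit 522) (C.node (nat_lit 1) (nat_lit 7) (nat_lit 9) (C.cons (nat_lit 642) (C.node (nat_lit 1) (nat_lit 5) (nat_lit 6) C.nil) C.nil)) C.nil)) C.nil))) C.nil))) C.nil))) C.nil)) C.nil))) C.nil))) C.nil)) C.nil))) C.nil)) (C.cons (nat_lit 176) (C.miq (nat_lit 2236027042) (nat_lit 212778138564277583150842895)) C.nil)))) C.nil))) (List.cons (C.node (nat_lit 1) (nat_lit 3) (nat_lit 5) (C.cons (nat_lit 106) (C.miq (nat_lit 1738739845) (nat_lit 1402355906162737527048896803)) (C.cons (nat_lit 58) (C.miq (nat_lit 2587101265) (nat_lit 1266964054717953614485782819)) (C.cons (nat_lit 42) (C.node (nat_lit 1) (nat_lit 4) (nat_lit 5) (C.cons (nat_lit 54) (C.node (nat_lit 3) (nat_lit 4) (nat_lit 5) (C.cons (nat_lit 56) (C.node (nat_lit 1) (nat_lit 2) (nat_lit 6) (C.cons (nat_lit 326) (C.miq (nat_lit 1898489152)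 (nat_lit 394145253723564261328094321)) (C.cons (nat_lit 70) (C.node (nat_lit 1) (nat_lit 4) (nat_lit 7) (C.cons (nat_lit 402) (C.miq (nat_lit 678510757) (nat_lit 485989175687237727806424177)) (C.cons (nat_lit 146) (C.node (nat_lit 2) (nat_lit 5) (nat_lit 10) (C.cons (nat_lit 1572) (C.miq (nat_lit 1649478055) (nat_lit 65285591537828062031906689)) (C.cons (nat_lit 1060) (C.node (nat_lit 5) (nat_lit 9) (nat_lit 10) (C.cons (nat_lit 1568) (C.node (nat_lit 2) (nat_lit 9) (nat_lit 10) (C.cons (nat_lit 1556) (C.miq (nat_lit 2317683009) (nat_lit 1281466737334752487901889043)) (C.cons (nat_lit 1540) (C.node (nat_lit 4) (nat_lit 9) (nat_lit 10) (C.cons (nat_lit 1552) (C.node (nat_lit 1) (nat_lit 2) (nat_lit 7) (C.cons (nat_lit 646) (C.miq (nat_lit 1361487760) (nat_lit 84645781654867946955409281)) (C.cons (nat_lit 390) (C.node (nat_lit 1) (nat_lit 2) (nat_lit 9) (C.cons (nat_lit 518) (C.node (nat_lit 2) (nat_lit 4) (nat_lit 10) (C.cons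 (nat_lit 1172) (C.node (nat_lit 6) (nat_lit 7) (nat_lit 10) (C.cons (nat_lit 1216) (C.node (nat_lit 4) (nat_lit 5) (nat_lit 7) (C.cons (nat_lit 688) (C.miq (nat_lit 609462160) (nat_lit 67719012395403445686306689)) (C.cons (nat_lit 432) (C.node (nat_lit 4) (nat_lit 5) (nat_lit 9) (C.cons (nat_lit 560) (C.node (nat_lit 1) (nat_lit 3) (nat_lit 7) (C.cons (nat_lit 650) (C.node (nat_lit 1) (nat_lit 5) (nat_lit 6) (C.cons (nat_lit 610) (C.miq (nat_lit 961835360) (nat_lit 677001281518996970263347395)) (C.cons (nat_lit 98) (C.node (nat_lit 1) (nat_lit 5) (nat_lit 9) (C.cons (nat_lit 546) (C.node (nat_lit 2) (nat_lit 6) (nat_lit 10) (C.cons (nat_lit 1348) (C.node (nat_lit 2) (nat_lit 5) (nat_lit 8) C.nil) C.nil)) C.nil)) C.nil))) (C.cons (nat_lit 138) (C.node (nat_lit 1) (nat_lit 7) (nat_lit 9) (C.cons (nat_lit 642) (C.node (nat_lit 1) (nat_lit 5) (nat_lit 6) (C.cons (nat_lit 610) (C.node (nat_lit 2) (nat_lit 6) (nat_lit 10) (C.cons (nat_lit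 1348) (C.miq (nat_lit 2257953283) (nat_lit 737469100046531857197106191)) C.nil)) (C.cons (nat_lit 98) (C.node (nat_lit 1) (nat_lit 5) (nat_lit 9) (C.cons (nat_lit 546) (C.node (nat_lit 2) (nat_lit 6) (nat_lit 10) (C.cons (nat_lit 1348) (C.node (nat_lit 2) (nat_lit 5) (nat_lit 8) C.nil) C.nil)) C.nil)) C.nil))) C.nil)) C.nil))) C.nil)) (C.cons (nat_lit 176) (C.miq (nat_lit 2236027042) (nat_lit 212778138564277583150842895)) C.nil)))) C.nil)) (C.cons (nat_lit 1044) (C.miq (nat_lit 2051151112) (nat_lit 1262125750241695810893185315)) C.nil))) C.nil)) (C.cons (nat_lit 134) (C.miq (nat_lit 2266106452) (nat_lit 162001170117187251052348529)) C.nil)))) C.nil)) C.nil))) C.nil)) C.nil))) C.nil))) C.nil))) C.nil)) (C.cons (nat_lit 50) (C.node (nat_lit 4) (nat_lit 5) (nat_lit 8) (C.cons (nat_lit 816) (C.miq (nat_lit 893495440) (nat_lit 60465457519374516945618817)) (C.cons (nat_lit 432) (C.miq (nat_lit 559155832) (nat_lit 60451401021297470943004545))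 (C.cons (nat_lit 304) (C.node (nat_lit 4) (nat_lit 7) (nat_lit 10) (C.cons (nat_lit 1172) (C.miq (nat_lit 1971626242) (nat_lit 367535069080732228937647119)) (C.cons (nat_lit 1168)
  (C.node (nat_lit 2) (nat_lit 4) (nat_lit 10) (C.cons (nat_lit 1556) (C.node (nat_lit 2) (nat_lit 5) (nat_lit 10) (C.cons (nat_lit 1060) (C.node (nat_lit 5) (nat_lit 9) (nat_lit 10) (C.cons (nat_lit 1568) (C.node (nat_lit 2) (nat_lit 7) (nat_lit 10) (C.cons (nat_lit 1220) (C.miq (nat_lit 1248957024) (nat_lit 1433795817722033644608094789)) (C.cons (nat_lit 1156) (C.node (nat_lit 6) (nat_lit 7) (nat_lit 10) (C.cons (nat_lit 1216) (C.node (nat_lit 2) (nat_lit 6) (nat_lit 10) (C.cons (nat_lit 1348) (C.node (nat_lit 3) (nat_lit 6) (nat_lit 10) (C.cons (nat_lit 1608) (C.miq (nat_lit 2181408403) (nat_lit 44754605407349340090467912)) (C.cons (nat_lit 1096) (C.node (nat_lit 3) (nat_lit 9) (nat_lit 10) (C.cons (nat_lit 1544) (C.node (nat_lit 6) (nat_lit 9) (nat_lit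 10) (C.cons (nat_lit 1600) (C.node (nat_lit 2) (nat_lit 3) (nat_lit 8) (C.cons (nat_lit 780) (C.node (nat_lit 1) (nat_lit 2) (nat_lit 8) (C.cons (nat_lit 390) (C.miq (nat_lit 609321127) (nat_lit 60453485288893657464833921)) (C.cons (nat_lit 262) (C.node (nat_lit 1) (nat_lit 8) (nat_lit 9) (C.cons (nat_lit 834) (C.miq (nat_lit 1486267168) (nat_lit 1008265107878162858835772431)) (C.cons (nat_lit 770) (C.node (nat_lit 3) (nat_lit 4) (nat_lit 5) (C.cons (nat_lit 60) (C.miq (nat_lit 1647683728) (nat_lit 72556523504321176959256449)) (C.cons (nat_lit 56) (C.node (nat_lit 2) (nat_lit 3) (nat_lit 4) (C.cons (nat_lit 92) (C.miq (nat_lit 1445137033) (nat_lit 111231376774061483642062721)) (C.cons (nat_lit 28) (C.node (nat_lit 4) (nat_lit 8) (nat_lit 9) (C.cons (nat_lit 848) (C.miq (nat_lit 680633920) (nat_lit 930892047649788959520916593)) (C.cons (nat_lit 784) (C.node (nat_lit 3) (nat_lit 4) (nat_lit 9) (C.cons (nat_lit 600) (C.node (nat_lit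 1) (nat_lit 6) (nat_lit 9) (C.cons (nat_lit 610) (C.miq (nat_lit 2305110538) (nat_lit 737469099886654070463726607)) C.nil)) C.nil)) C.nil))) C.nil))) C.nil))) C.nil))) C.nil))) (C.cons (nat_lit 396) (C.miq (nat_lit 2458060453) (nat_lit 478744825780408665737004145)) (C.cons (nat_lit 268) (C.miq (nat_lit 2458060453) (nat_lit 324002320869736131374613617)) C.nil)))) C.nil)) C.nil)) C.nil))) (C.cons (nat_lit 1092) (C.node (nat_lit 2) (nat_lit 8) (nat_lit 10) (C.cons (nat_lit 1284) (C.node (nat_lit 6) (nat_lit 8) (nat_lit 10) (C.cons (nat_lit 1344) (C.node (nat_lit 3) (nat_lit 6) (nat_lit 10) (C.cons (nat_lit 1608) (C.node (nat_lit 4) (nat_lit 6) (nat_lit 9) (C.cons (nat_lit 848) (C.miq (nat_lit 914401602) (nat_lit 388084354716003954005968404)) (C.cons (nat_lit 720) (C.miq (nat_lit 1956735264) (nat_lit 1259704301356206639675277893)) (C.cons (nat_lit 592) (C.node (nat_lit 6) (nat_lit 7) (nat_lit 9) (C.cons (nat_lit 736) (C.miq (nat_lit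 2510448400) (nat_lit 1281472086556984427196383427)) (C.cons (nat_lit 704) (C.node (nat_lit 3) (nat_lit 4) (nat_lit 5) (C.cons (nat_lit 60) (C.node (nat_lit 4) (nat_lit 5) (nat_lit 7) (C.cons (nat_lit 688) (C.miq (nat_lit 2502587440) (nat_lit 1281496805180527562980262041)) (C.cons (nat_lit 176) (C.node (nat_lit 4) (nat_lit 5) (nat_lit 9) (C.cons (nat_lit 560) (C.node (nat_lit 4) (nat_lit 7) (nat_lit 9) C.nil) C.nil)) C.nil))) (C.cons (nat_lit 56) (C.node (nat_lit 2) (nat_lit 3) (nat_lit 4) (C.cons (nat_lit 92) (C.miq (nat_lit 2305034802) (nat_lit 715689195500689225546466319)) (C.cons (nat_lit 28) (C.node (nat_lit 2) (nat_lit 4) (nat_lit 5) (C.cons (nat_lit 180) (C.node (nat_lit 4) (nat_lit 5) (nat_lit 9) C.nil) (C.cons (nat_lit 52) (C.node (nat_lit 4) (nat_lit 5) (nat_lit 7) C.nil) C.nil))) C.nil))) C.nil))) C.nil))) C.nil)))) C.nil)) C.nil)) C.nil)) C.nil))) C.nil)) C.nil))) C.nil)) C.nil)) (C.cons (nat_lit 1044) (C.node (nat_lit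 4) (nat_lit 9) (nat_lit 10) (C.cons (nat_lit 1552) (C.node (nat_lit 2) (nat_lit 5) (nat_lit 10) (C.cons (nat_lit 1572) (C.node (nat_lit 1) (nat_lit 2) (nat_lit 5) (C.cons (nat_lit 102) (C.node (nat_lit 1) (nat_lit 5) (nat_lit 9) (C.cons (nat_lit 546) (C.node (nat_lit 1) (nat_lit 2) (nat_lit 4) (C.cons (nat_lit 150) (C.miq (nat_lit 2451023200) (nat_lit 181374309580039073743176817))
  (C.cons (nat_lit 22) (C.node (nat_lit 2) (nat_lit 7) (nat_lit 10) (C.cons (nat_lit 1220) (C.miq (nat_lit 2317682529) (nat_lit 1900436756977441182245585091)) (C.cons (nat_lit 1156) (C.node (nat_lit 6) (nat_lit 7) (nat_lit 10) (C.cons (nat_lit 1216) (C.node (nat_lit 2) (nat_lit 6) (nat_lit 10) (C.cons (nat_lit 1348) (C.miq (nat_lit 2198250898) (nat_lit 88276451414428634642187812)) (C.cons (nat_lit 1092) (C.node (nat_lit 2) (nat_lit 8) (nat_lit 10) (C.cons (nat_lit 1284) (C.node (nat_lit 6) (nat_lit 8) (nat_lit 10) (C.cons (nat_lit 1344) (C.node (nat_lit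 3) (nat_lit 6) (nat_lit 10) (C.cons (nat_lit 1608) (C.node (nat_lit 3) (nat_lit 4) (nat_lit 5) (C.cons (nat_lit 60) (C.miq (nat_lit 1898120788) (nat_lit 1256076748986331048630289521)) (C.cons (nat_lit 56) (C.node (nat_lit 1) (nat_lit 4) (nat_lit 7) (C.cons (nat_lit 402) (C.node (nat_lit 1) (nat_lit 2) (nat_lit 8) (C.cons (nat_lit 774) (C.miq (nat_lit 2032208470) (nat_lit 935712182037537536541590641)) C.nil)) C.nil)) C.nil))) C.nil)) C.nil)) C.nil)) C.nil))) C.nil)) C.nil))) C.nil))) C.nil)) (C.cons (nat_lit 38) (C.miq (nat_lit 1649478055) (nat_lit 45942778423993995236607873)) C.nil))) (C.cons (nat_lit 1060) (C.node (nat_lit 2) (nat_lit 9) (nat_lit 10) (C.cons (nat_lit 1540) (C.node (nat_lit 5) (nat_lit 9) (nat_lit 10) (C.cons (nat_lit 1568) (C.node (nat_lit 2) (nat_lit 7) (nat_lit 10) (C.cons (nat_lit 1220) (C.node (nat_lit 2) (nat_lit 8) (nat_lit 10) (C.cons (nat_lit 1284) (C.node (nat_lit 6) (nat_lit 8) (nat_lit 10) (C.cons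 (nat_lit 1344) (C.node (nat_lit 3) (nat_lit 6) (nat_lit 10) (C.cons (nat_lit 1608) (C.node (nat_lit 2) (nat_lit 4) (nat_lit 6) (C.cons (nat_lit 92) (C.miq (nat_lit 2318666082) (nat_lit 1266959369244960129212482117)) (C.cons (nat_lit 86) (C.miq (nat_lit 2586052449) (nat_lit 1262128351439494668292063427)) (C.cons (nat_lit 84) (C.node (nat_lit 4) (nat_lit 6) (nat_lit 9) (C.cons (nat_lit 848) (C.miq (nat_lit 910338432) (nat_lit 101568935467336839600605057)) (C.cons (nat_lit 720) (C.miq (nat_lit 308546169) (nat_lit 101559564361189731156887425)) (C.cons (nat_lit 592) (C.node (nat_lit 6) (nat_lit 7) (nat_lit 9) (C.cons (nat_lit 736) (C.miq (nat_lit 2510448400) (nat_lit 1281472086556984427196383427)) (C.cons (nat_lit 704) (C.node (nat_lit 1) (nat_lit 2) (nat_lit 4) (C.cons (nat_lit 150) (C.node (nat_lit 1) (nat_lit 7) (nat_lit 8) (C.cons (nat_lit 394) (C.miq (nat_lit 1697712775) (nat_lit 50778481858951516602894209)) (C.cons (nat_lit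 386) (C.node (nat_lit 1) (nat_lit 3) (nat_lit 7) (C.cons (nat_lit 650) (C.node (nat_lit 4) (nat_lit 5) (nat_lit 7) (C.cons (nat_lit 688) (C.miq (nat_lit 1463437584) (nat_lit 1402374924894639226193117715)) (C.cons (nat_lit 176) (C.node (nat_lit 4) (nat_lit 7) (nat_lit 9) C.nil) C.nil))) (C.cons (nat_lit 138) (C.node (nat_lit 1) (nat_lit 7) (nat_lit 9) C.nil) C.nil))) C.nil))) (C.cons (nat_lit 22) (C.node (nat_lit 1) (nat_lit 2) (nat_lit 7) (C.cons (nat_lit 646) (C.miq (nat_lit 1645520784) (nat_lit 26617342322935895774398337)) (C.cons (nat_lit 390) (C.miq (nat_lit 1361356672) (nat_lit 26617342313364647037962113)) (C.cons (nat_lit 134) (C.node (nat_lit 1) (nat_lit 4) (nat_lit 7) (C.cons (nat_lit 402) (C.node (nat_lit 4) (nat_lit 6) (nat_lit 7) C.nil) (C.cons (nat_lit 146) (C.node (nat_lit 1) (nat_lit 7) (nat_lit 8) C.nil) C.nil))) C.nil)))) C.nil))) C.nil))) C.nil)))) C.nil)))) C.nil)) C.nil)) C.nil)) (C.cons (nat_lit 1156) (C.node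 (nat_lit 6) (nat_lit 7) (nat_lit 10) (C.cons (nat_lit 1216) (C.node (nat_lit 2) (nat_lit 6) (nat_lit 10) (C.cons (nat_lit 1348) (C.node (nat_lit 3) (nat_lit 6) (nat_lit 10) (C.cons (nat_lit 1608) (C.miq (nat_lit 2181408403) (nat_lit 44754605407349340090467912)) C.nil)) C.nil)) C.nil)) C.nil))) C.nil)) C.nil)) C.nil))) C.nil)) C.nil))) C.nil))) C.nil)))) C.nil))) C.nil)))) (List.cons (C.node (nat_lit 4) (nat_lit 8) (nat_lit 10) (C.cons (nat_lit 1304) (C.node (nat_lit 4) (nat_lit 9) (nat_lit 10) (C.cons (nat_lit 1552) (C.node (nat_lit 6) (nat_lit 8) (nat_lit 10) (C.cons (nat_lit 1344)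
  (C.node (nat_lit 3) (nat_lit 6) (nat_lit 10) (C.cons (nat_lit 1608) (C.node (nat_lit 3) (nat_lit 4) (nat_lit 9) (C.cons (nat_lit 540) (C.miq (nat_lit 1665309312) (nat_lit 652830660602823942797068161)) (C.cons (nat_lit 536) (C.node (nat_lit 2) (nat_lit 3) (nat_lit 4) (C.cons (nat_lit 92) (C.node (nat_lit 1) (nat_lit 3) (nat_lit 4) (C.cons (nat_lit 58) (C.miq (nat_lit 1899144518) (nat_lit 1256096431941199209665660017)) (C.cons (nat_lit 26) (C.node (nat_lit 3) (nat_lit 4) (nat_lit 5) (C.cons (nat_lit 56) (C.node (nat_lit 1) (nat_lit 3) (nat_lit 5) (C.cons (nat_lit 106) (C.miq (nat_lit 2167539044) (nat_lit 1256079036409617803560879217)) (C.cons (nat_lit 42) (C.node (nat_lit 1) (nat_lit 4) (nat_lit 6) (C.cons (nat_lit 338) (C.miq (nat_lit 2521342752) (nat_lit 408652363677722414805222415)) (C.cons (nat_lit 82) (C.node (nat_lit 2) (nat_lit 3) (nat_lit 9) (C.cons (nat_lit 780) (C.node (nat_lit 1) (nat_lit 8) (nat_lit 9) (C.cons (nat_lit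 834) (C.miq (nat_lit 1184369202) (nat_lit 1008249243626753104129295375)) (C.cons (nat_lit 770) (C.node (nat_lit 4) (nat_lit 6) (nat_lit 8) (C.cons (nat_lit 848) (C.node (nat_lit 4) (nat_lit 6) (nat_lit 7) (C.cons (nat_lit 208) (C.node (nat_lit 5) (nat_lit 8) (nat_lit 9) (C.cons (nat_lit 800) (C.node (nat_lit 4) (nat_lit 5) (nat_lit 8) (C.cons (nat_lit 432) (C.miq (nat_lit 1201833232) (nat_lit 1474894609799558294525640995)) C.nil)) C.nil)) C.nil)) (C.cons (nat_lit 464) (C.miq (nat_lit 878815344) (nat_lit 99151083742537539058337665)) (C.cons (nat_lit 336) (C.miq (nat_lit 2554737162) (nat_lit 406228737974537599275041807)) C.nil)))) C.nil))) (C.cons (nat_lit 652) (C.miq (nat_lit 1445137017) (nat_lit 111231376774060933877860225)) (C.cons (nat_lit 524) (C.miq (nat_lit 2301758052) (nat_lit 633482239766894441666446449)) C.nil)))) C.nil))) C.nil))) C.nil)) C.nil))) (C.cons (nat_lit 60) (C.miq (nat_lit 1665309312) (nat_lit 72546267187801938938103681))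 (C.cons (nat_lit 28) (C.miq (nat_lit 1665309312) (nat_lit 33860640960133805347506049)) C.nil)))) C.nil))) C.nil)) C.nil)) C.nil)) (C.cons (nat_lit 1296) (C.node (nat_lit 3) (nat_lit 4) (nat_lit 10) (C.cons (nat_lit 1560) (C.node (nat_lit 6) (nat_lit 9) (nat_lit 10) (C.cons (nat_lit 1600) (C.ref (nat_lit 58) (nat_lit 11077363730320)) C.nil)) (C.cons (nat_lit 1048) (C.node (nat_lit 4) (nat_lit 9) (nat_lit 10) C.nil) C.nil))) C.nil))) List.nil)))

theorem ok11_63 : okL par11 (nat_lit 66) c11_63 (nat_lit 63) = true := by decide +kernel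

noncomputable def c11_66 : List C :=
  (List.cons (C.node (nat_lit 1) (nat_lit 9) (nat_lit 10) (C.cons (nat_lit 1538) (C.node (nat_lit 3) (nat_lit 5) (nat_lit 10) (C.cons (nat_lit 1320) (C.node (nat_lit 4) (nat_lit 8) (nat_lit 10) (C.cons (nat_lit 1296) (C.node (nat_lit 3) (nat_lit 4) (nat_lit 10) (C.cons (nat_lit 1560) (C.miq (nat_lit 1250005840) (nat_lit 1549852696406164374789751337)) (C.cons (nat_lit 1048) (C.node (nat_lit 3) (nat_lit 7) (nat_lit 10) (C.cons (nat_lit 1224) (C.miq (nat_lit 1669364305) (nat_lit 320368939657502145529447586)) (C.cons (nat_lit 1160) (C.ref (nat_lit 64) (nat_lit 11649936536080)) C.nil))) C.nil))) C.nil)) (C.cons (nat_lit 1064) (C.node (nat_lit 3) (nat_lit 7) (nat_lit 10) (C.cons (nat_lit 1224) (C.node (nat_lit 6) (nat_lit 9) (nat_lit 10) (C.cons (nat_lit 1600) (C.node (nat_lit 3) (nat_lit 9) (nat_lit 10) (C.cons (nat_lit 1560) (C.miq (nat_lit 1787917120) (nat_lit 1859331508026926115738288281))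 (C.cons (nat_lit 1544) (C.ref (nat_lit 64) (nat_lit 11297248326160)) C.nil))) C.nil)) (C.cons (nat_lit 1160) (C.node (nat_lit 4) (nat_lit 7) (nat_lit 10) (C.cons (nat_lit 1172) (C.node (nat_lit 6) (nat_lit 7) (nat_lit 10) (C.cons (nat_lit 1216) (C.node (nat_lit 1) (nat_lit 4) (nat_lit 7) (C.cons (nat_lit 402) (C.miq (nat_lit 672612442) (nat_lit 486009799147105134288438385)) (C.cons (nat_lit 146) (C.node (nat_lit 5) (nat_lit 8) (nat_lit 10) (C.cons (nat_lit 1316) (C.miq (nat_lit 1896129922) (nat_lit 641961230133253051595949348)) (C.cons (nat_lit 1312) (C.node (nat_lit 1) (nat_lit 2) (nat_lit 7) (C.cons (nat_lit 646) (C.miq (nat_lit 2171733412) (nat_lit 780971189301073176536810609)) (C.cons (nat_lit 390) (C.node (nat_lit 1) (nat_lit 2) (nat_lit 9) (C.cons (nat_lit 550) (C.miq (nat_lit 1158810232) (nat_lit 664914310856196606010984321)) (C.cons (nat_lit 518) (C.node (nat_lit 1) (nat_lit 2) (nat_lit 4) (C.cons (nat_lit 86) (C.miq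 (nat_lit 1361356672) (nat_lit 103988594768700914219157377)) (C.cons (nat_lit 54) (C.node (nat_lit 1) (nat_lit 2) (nat_lit 6) (C.cons (nat_lit 70) (C.node (nat_lit 2) (nat_lit 5) (nat_lit 10) (C.cons (nat_lit 1572) (C.miq (nat_lit 891554215) (nat_lit 65284816766695666881922945)) (C.cons (nat_lit 1060) (C.node (nat_lit 2) (nat_lit 9) (nat_lit 10) (C.cons (nat_lit 1540) (C.node (nat_lit 5) (nat_lit 9) (nat_lit 10) (C.cons (nat_lit 1568) (C.node (nat_lit 3) (nat_lit 4) (nat_lit 5) (C.cons (nat_lit 312) (C.miq (nat_lit 2018779402) (nat_lit 377206475413595180929975311)) (C.cons (nat_lit 56) (C.node (nat_lit 4) (nat_lit 5) (nat_lit 7) (C.cons (nat_lit 688) (C.miq (nat_lit 609462160) (nat_lit 67719012395403445686306689)) (C.cons (nat_lit 432) (C.node (nat_lit 4) (nat_lit 5) (nat_lit 9) (C.cons (nat_lit 560) (C.node (nat_lit 1) (nat_lit 3) (nat_lit 5) (C.cons (nat_lit 106) (C.node (nat_lit 1) (nat_lit 5) (nat_lit 9) (C.cons (nat_lit 546)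 (C.node (nat_lit 1) (nat_lit 3) (nat_lit 7) (C.cons (nat_lit 650) (C.miq (nat_lit 2472178016) (nat_lit 1286332508448290228139000003)) (C.cons (nat_lit 138) (C.node (nat_lit 1) (nat_lit 7) (nat_lit 9) (C.cons (nat_lit 642) (C.node (nat_lit 1) (nat_lit 3) (nat_lit 9) (C.cons (nat_lit 778) (C.miq (nat_lit 2171245392) (nat_lit 1317764579794299383700324905)) (C.cons (nat_lit 522) (C.node (nat_lit 2) (nat_lit 4) (nat_lit 6) (C.cons (nat_lit 92) (C.miq (nat_lit 2167539044) (nat_lit 1256079036409617803560879217)) (C.cons (nat_lit 84) (C.node (nat_lit 6) (nat_lit 9) (nat_lit 10) (C.cons (nat_lit 1608) (C.miq (nat_lit 2301692517) (nat_lit 631064646382082215251674225)) (C.cons (nat_lit 1600) (C.node (nat_lit 2) (nat_lit 6) (nat_lit 10) (C.cons (nat_lit 1348) (C.node (nat_lit 3) (nat_lit 6) (nat_lit 10) C.nil) C.nil)) C.nil))) C.nil))) C.nil))) C.nil)) C.nil))) C.nil)) (C.cons (nat_lit 42) (C.node (nat_lit 1) (nat_lit 3) (nat_lit 7) (C.cons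 (nat_lit 650) (C.node (nat_lit 1) (nat_lit 5) (nat_lit 6) (C.cons (nat_lit 610) (C.miq (nat_lit 961835360) (nat_lit 677001281518996970263347395)) (C.cons (nat_lit 98) (C.node (nat_lit 1) (nat_lit 5) (nat_lit 9) (C.cons (nat_lit 546)
  (C.node (nat_lit 4) (nat_lit 6) (nat_lit 7) (C.cons (nat_lit 720) (C.miq (nat_lit 1731873040) (nat_lit 1402374924903646425447858707)) (C.cons (nat_lit 208) (C.node (nat_lit 4) (nat_lit 7) (nat_lit 9) (C.cons (nat_lit 656) (C.node (nat_lit 2) (nat_lit 7) (nat_lit 9) (C.cons (nat_lit 644) (C.node (nat_lit 3) (nat_lit 7) (nat_lit 8) C.nil) C.nil)) C.nil)) C.nil))) C.nil)) C.nil))) (C.cons (nat_lit 138) (C.node (nat_lit 1) (nat_lit 7) (nat_lit 9) (C.cons (nat_lit 642) (C.node (nat_lit 1) (nat_lit 5) (nat_lit 6) (C.cons (nat_lit 610) (C.node (nat_lit 1) (nat_lit 3) (nat_lit 9) (C.cons (nat_lit 778) (C.node (nat_lit 1) (nat_lit 4) (nat_lit 8) (C.cons (nat_lit 338) (C.miq (nat_lit 810063201) (nat_lit 334886803755802172945728098))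 (C.cons (nat_lit 274) (C.node (nat_lit 1) (nat_lit 6) (nat_lit 8) (C.cons (nat_lit 322) (C.node (nat_lit 1) (nat_lit 3) (nat_lit 4) (C.cons (nat_lit 90) (C.node (nat_lit 2) (nat_lit 4) (nat_lit 6) (C.cons (nat_lit 84) (C.node (nat_lit 3) (nat_lit 4) (nat_lit 8) (C.cons (nat_lit 280) (C.node (nat_lit 3) (nat_lit 4) (nat_lit 10) C.nil) C.nil)) C.nil)) C.nil)) C.nil)) C.nil))) (C.cons (nat_lit 522) (C.node (nat_lit 1) (nat_lit 8) (nat_lit 9) (C.cons (nat_lit 770) (C.node (nat_lit 2) (nat_lit 4) (nat_lit 6) (C.cons (nat_lit 92) (C.node (nat_lit 2) (nat_lit 4) (nat_lit 9) (C.cons (nat_lit 532) (C.node (nat_lit 4) (nat_lit 9) (nat_lit 10) C.nil) C.nil)) (C.cons (nat_lit 84) (C.node (nat_lit 2) (nat_lit 3) (nat_lit 4) (C.cons (nat_lit 540) (C.node (nat_lit 4) (nat_lit 9) (nat_lit 10) (C.cons (nat_lit 1552) (C.node (nat_lit 2) (nat_lit 7) (nat_lit 9) C.nil) C.nil)) (C.cons (nat_lit 28) (C.node (nat_lit 2) (nat_lit 4) (nat_lit 9) (C.cons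 (nat_lit 532) (C.node (nat_lit 4) (nat_lit 7) (nat_lit 9) C.nil) C.nil)) C.nil))) C.nil))) C.nil)) C.nil))) (C.cons (nat_lit 98) (C.node (nat_lit 1) (nat_lit 5) (nat_lit 9) (C.cons (nat_lit 546) (C.node (nat_lit 2) (nat_lit 4) (nat_lit 6) (C.cons (nat_lit 92) (C.node (nat_lit 2) (nat_lit 4) (nat_lit 9) (C.cons (nat_lit 532) (C.node (nat_lit 1) (nat_lit 3) (nat_lit 4) (C.cons (nat_lit 282) (C.node (nat_lit 1) (nat_lit 4) (nat_lit 6) C.nil) C.nil)) C.nil)) (C.cons (nat_lit 84) (C.node (nat_lit 2) (nat_lit 3) (nat_lit 4) (C.cons (nat_lit 540) (C.node (nat_lit 4) (nat_lit 9) (nat_lit 10) (C.cons (nat_lit 1552) (C.node (nat_lit 2) (nat_lit 6) (nat_lit 10) (C.cons (nat_lit 1348) (C.node (nat_lit 3) (nat_lit 4) (nat_lit 10) C.nil) C.nil)) C.nil)) (C.cons (nat_lit 28) (C.node (nat_lit 2) (nat_lit 4) (nat_lit 9) (C.cons (nat_lit 532) (C.node (nat_lit 2) (nat_lit 6) (nat_lit 10) C.nil) C.nil)) C.nil))) C.nil))) C.nil)) C.nil))) C.nil))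 C.nil))) C.nil))) C.nil)) (C.cons (nat_lit 176) (C.miq (nat_lit 2236027042) (nat_lit 212778138564277583150842895)) C.nil)))) C.nil))) C.nil)) C.nil)) C.nil))) C.nil)) (C.cons (nat_lit 22) (C.miq (nat_lit 1361356672) (nat_lit 26617342313364647037962113)) C.nil)))) C.nil))) (C.cons (nat_lit 134) (C.miq (nat_lit 2171733412) (nat_lit 162001169658383039087248497)) C.nil)))) C.nil))) C.nil))) C.nil)) (C.cons (nat_lit 1168) (C.node (nat_lit 2) (nat_lit 4) (nat_lit 10) (C.cons (nat_lit 1556) (C.node (nat_lit 5) (nat_lit 9) (nat_lit 10) (C.cons (nat_lit 1568) (C.node (nat_lit 2) (nat_lit 5) (nat_lit 10) (C.cons (nat_lit 1316) (C.miq (nat_lit 1519485504) (nat_lit 1859333278940252872532754709)) (C.cons (nat_lit 1060) (C.node (nat_lit 5) (nat_lit 8) (nat_lit 10) (C.cons (nat_lit 1312) (C.node (nat_lit 2) (nat_lit 7) (nat_lit 10) (C.cons (nat_lit 1220) (C.miq (nat_lit 1248957024) (nat_lit 1433795817722033644608094789)) (C.cons (nat_lit 1156)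 (C.node (nat_lit 6) (nat_lit 7) (nat_lit 10) (C.cons (nat_lit 1216) (C.node (nat_lit 2) (nat_lit 6) (nat_lit 10) (C.cons (nat_lit 1348) (C.node (nat_lit 1) (nat_lit 2) (nat_lit 6) (C.cons (nat_lit 102) (C.miq (nat_lit 2589067030) (nat_lit 1281472086890532274537103555)) (C.cons (nat_lit 86) (C.miq (nat_lit 2049313089) (nat_lit 1629635602496334614102409747)) (C.cons (nat_lit 70) (C.node (nat_lit 1) (nat_lit 2) (nat_lit 8)
  (C.cons (nat_lit 774) (C.miq (nat_lit 1176570505) (nat_lit 84634602914170020187998081)) (C.cons (nat_lit 390) (C.miq (nat_lit 665092432) (nat_lit 1412030467167775628425494819)) (C.cons (nat_lit 262) (C.node (nat_lit 3) (nat_lit 4) (nat_lit 10) (C.cons (nat_lit 1304) (C.node (nat_lit 3) (nat_lit 6) (nat_lit 10) (C.cons (nat_lit 1608) (C.miq (nat_lit 1669372482) (nat_lit 320376060208800919752869396)) (C.cons (nat_lit 1096) (C.node (nat_lit 3) (nat_lit 9) (nat_lit 10) (C.cons (nat_lit 1544) (C.node (nat_lit 6)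 (nat_lit 9) (nat_lit 10) (C.cons (nat_lit 1600) (C.ref (nat_lit 57) (nat_lit 11073321466000)) C.nil)) C.nil)) C.nil))) (C.cons (nat_lit 1048) (C.node (nat_lit 3) (nat_lit 8) (nat_lit 10) (C.cons (nat_lit 1288) (C.node (nat_lit 4) (nat_lit 8) (nat_lit 10) (C.cons (nat_lit 1296) (C.node (nat_lit 3) (nat_lit 6) (nat_lit 10) (C.cons (nat_lit 1608) (C.ref (nat_lit 57) (nat_lit 11073357436480)) C.nil)) C.nil)) C.nil)) C.nil))) C.nil)))) C.nil)))) (C.cons (nat_lit 1092) (C.node (nat_lit 2) (nat_lit 8) (nat_lit 10) (C.cons (nat_lit 1284) (C.node (nat_lit 3) (nat_lit 4) (nat_lit 10) (C.cons (nat_lit 1304) (C.node (nat_lit 6) (nat_lit 8) (nat_lit 10) (C.cons (nat_lit 1344) (C.node (nat_lit 3) (nat_lit 6) (nat_lit 10) (C.cons (nat_lit 1608) (C.miq (nat_lit 1669372482) (nat_lit 320376060208800919752869396)) C.nil)) C.nil)) (C.cons (nat_lit 1048) (C.node (nat_lit 4) (nat_lit 8) (nat_lit 10) C.nil) C.nil))) C.nil)) C.nil))) C.nil)) C.nil)))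 C.nil)) C.nil))) C.nil)) (C.cons (nat_lit 1044) (C.node (nat_lit 2) (nat_lit 7) (nat_lit 10) (C.cons (nat_lit 1220) (C.node (nat_lit 2) (nat_lit 8) (nat_lit 10) (C.cons (nat_lit 1316) (C.miq (nat_lit 1652587089) (nat_lit 334876049491751778539209890)) (C.cons (nat_lit 1284) (C.node (nat_lit 5) (nat_lit 8) (nat_lit 10) (C.cons (nat_lit 1312) (C.node (nat_lit 2) (nat_lit 5) (nat_lit 10) (C.cons (nat_lit 1572) (C.miq (nat_lit 1359587170) (nat_lit 641968608830882123119658180)) (C.cons (nat_lit 1060) (C.node (nat_lit 2) (nat_lit 9) (nat_lit 10) (C.cons (nat_lit 1540) (C.node (nat_lit 5) (nat_lit 9) (nat_lit 10) (C.cons (nat_lit 1568) (C.ref (nat_lit 65) (nat_lit 11649936536080)) C.nil)) C.nil)) C.nil))) C.nil)) C.nil))) (C.cons (nat_lit 1156) (C.node (nat_lit 6) (nat_lit 7) (nat_lit 10) (C.cons (nat_lit 1216) (C.node (nat_lit 2) (nat_lit 6) (nat_lit 10) (C.cons (nat_lit 1348) (C.node (nat_lit 5) (nat_lit 8) (nat_lit 10) (C.cons (nat_lit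 1312) (C.node (nat_lit 1) (nat_lit 2) (nat_lit 8) (C.cons (nat_lit 774) (C.miq (nat_lit 1099565350) (nat_lit 1549863874843432946759893573)) (C.cons (nat_lit 390) (C.miq (nat_lit 665092432) (nat_lit 1412030467167775628425494819)) (C.cons (nat_lit 262) (C.node (nat_lit 2) (nat_lit 5) (nat_lit 10) (C.cons (nat_lit 1572) (C.node (nat_lit 1) (nat_lit 5) (nat_lit 9) (C.cons (nat_lit 610) (C.miq (nat_lit 622238320) (nat_lit 737455467965714379053401985)) (C.cons (nat_lit 546) (C.node (nat_lit 2) (nat_lit 8) (nat_lit 9) (C.cons (nat_lit 780) (C.miq (nat_lit 950375008) (nat_lit 1586120876603422510121288261)) (C.cons (nat_lit 772) (C.node (nat_lit 1) (nat_lit 2) (nat_lit 5) (C.cons (nat_lit 102) (C.node (nat_lit 1) (nat_lit 2) (nat_lit 4) (C.cons (nat_lit 150) (C.miq (nat_lit 2451023200) (nat_lit 181374309580039073743176817)) (C.cons (nat_lit 22) (C.node (nat_lit 1) (nat_lit 2) (nat_lit 7) (C.cons (nat_lit 646) (C.node (nat_lit 3) (nat_lit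 7) (nat_lit 9) (C.cons (nat_lit 712) (C.miq (nat_lit 1500946960) (nat_lit 860776157956109218101789711)) (C.cons (nat_lit 648) (C.node (nat_lit 5) (nat_lit 6) (nat_lit 9) (C.cons (nat_lit 864) (C.miq (nat_lit 845482633) (nat_lit 123320634942623227676985217)) (C.cons (nat_lit 736) (C.node (nat_lit 4) (nat_lit 7) (nat_lit 9) (C.cons (nat_lit 656) (C.node (nat_lit 1) (nat_lit 3) (nat_lit 5) (C.cons (nat_lit 58) (C.node (nat_lit 1) (nat_lit 3) (nat_lit 7) (C.cons (nat_lit 394) (C.miq (nat_lit 2805205013) (nat_lit 184986624889765193972318499)) (C.cons (nat_lit 138) (C.node (nat_lit 1) (nat_lit 4) (nat_lit 7) (C.cons (nat_lit 402)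
  (C.miq (nat_lit 2537752597) (nat_lit 184975851991226181953913123)) (C.cons (nat_lit 146) (C.node (nat_lit 1) (nat_lit 7) (nat_lit 8) (C.cons (nat_lit 386) (C.node (nat_lit 4) (nat_lit 7) (nat_lit 8) (C.cons (nat_lit 464) (C.miq (nat_lit 929694850) (nat_lit 1470072962861549325056737557)) (C.cons (nat_lit 432) (C.miq (nat_lit 643041656) (nat_lit 1374553766813481911779854209)) C.nil))) C.nil)) C.nil))) C.nil))) (C.cons (nat_lit 42) (C.node (nat_lit 1) (nat_lit 4) (nat_lit 5) (C.cons (nat_lit 50) (C.node (nat_lit 1) (nat_lit 3) (nat_lit 7) (C.cons (nat_lit 394) (C.node (nat_lit 1) (nat_lit 4) (nat_lit 7) (C.cons (nat_lit 146) (C.node (nat_lit 1) (nat_lit 3) (nat_lit 4) (C.cons (nat_lit 90) (C.miq (nat_lit 2171237184) (nat_lit 1317764579686212923923955865)) (C.cons (nat_lit 26) (C.node (nat_lit 3) (nat_lit 8) (nat_lit 10) (C.cons (nat_lit 1304) (C.miq (nat_lit 1680935559) (nat_lit 31435668745117381088118657)) (C.cons (nat_lit 1288)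 (C.node (nat_lit 4) (nat_lit 8) (nat_lit 10) C.nil) C.nil))) C.nil))) C.nil)) (C.cons (nat_lit 138) (C.node (nat_lit 1) (nat_lit 4) (nat_lit 7) (C.cons (nat_lit 402) (C.node (nat_lit 1) (nat_lit 3) (nat_lit 4) (C.cons (nat_lit 90) (C.node (nat_lit 4) (nat_lit 5) (nat_lit 7) C.nil) (C.cons (nat_lit 26) (C.node (nat_lit 1) (nat_lit 4) (nat_lit 6) (C.cons (nat_lit 82) (C.node (nat_lit 2) (nat_lit 3) (nat_lit 9) (C.cons (nat_lit 540) (C.node (nat_lit 4) (nat_lit 5) (nat_lit 7) C.nil) (C.cons (nat_lit 524) (C.node (nat_lit 2) (nat_lit 4) (nat_lit 9) (C.cons (nat_lit 532) (C.node (nat_lit 3) (nat_lit 8) (nat_lit 10) C.nil) C.nil)) C.nil))) C.nil)) C.nil))) (C.cons (nat_lit 146) (C.node (nat_lit 1) (nat_lit 7) (nat_lit 8) (C.cons (nat_lit 386) (C.node (nat_lit 4) (nat_lit 7) (nat_lit 8) (C.cons (nat_lit 464) (C.miq (nat_lit 929694850) (nat_lit 1470072962861549325056737557)) (C.cons (nat_lit 432) (C.miq (nat_lit 643041656) (nat_lit 1374553766813481911779854209))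 C.nil))) C.nil)) C.nil))) C.nil))) C.nil)) C.nil))) C.nil)) (C.cons (nat_lit 608) (C.miq (nat_lit 1985548450) (nat_lit 735038814977258658531116047)) C.nil)))) C.nil))) (C.cons (nat_lit 134) (C.miq (nat_lit 2451023200) (nat_lit 162031496466205006947878001)) C.nil))) C.nil))) (C.cons (nat_lit 54) (C.miq (nat_lit 1649478055) (nat_lit 65285591537828062031906689)) (C.cons (nat_lit 38) (C.miq (nat_lit 1649478055) (nat_lit 45942778423993995236607873)) C.nil)))) C.nil))) C.nil))) (C.cons (nat_lit 1060) (C.node (nat_lit 2) (nat_lit 9) (nat_lit 10) (C.cons (nat_lit 1540) (C.node (nat_lit 5) (nat_lit 9) (nat_lit 10) (C.cons (nat_lit 1568) (C.node (nat_lit 1) (nat_lit 2) (nat_lit 6) (C.cons (nat_lit 102) (C.miq (nat_lit 2589067030) (nat_lit 1281472086890532274537103555)) (C.cons (nat_lit 86) (C.miq (nat_lit 2552302180) (nat_lit 316748360500855203427648625)) (C.cons (nat_lit 70) (C.node (nat_lit 3) (nat_lit 6) (nat_lit 10) (C.cons (nat_lit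 1608) (C.node (nat_lit 4) (nat_lit 9) (nat_lit 10) (C.cons (nat_lit 1552) (C.node (nat_lit 3) (nat_lit 4) (nat_lit 10) (C.cons (nat_lit 1304) (C.miq (nat_lit 1133546082) (nat_lit 668541088362048627134498116)) C.nil)) C.nil)) (C.cons (nat_lit 1096) (C.node (nat_lit 6) (nat_lit 9) (nat_lit 10) C.nil) C.nil))) C.nil)))) C.nil)) C.nil)) C.nil))) C.nil)))) C.nil)) (C.cons (nat_lit 1092) (C.node (nat_lit 2) (nat_lit 8) (nat_lit 10) (C.cons (nat_lit 1316) (C.node (nat_lit 2) (nat_lit 9) (nat_lit 10) (C.cons (nat_lit 1540) (C.node (nat_lit 5) (nat_lit 9) (nat_lit 10) (C.cons (nat_lit 1568) (C.ref (nat_lit 65) (nat_lit 11297248326160)) C.nil)) C.nil)) (C.cons (nat_lit 1284) (C.node (nat_lit 5) (nat_lit 8) (nat_lit 10) (C.cons (nat_lit 1312) (C.node (nat_lit 2) (nat_lit 5) (nat_lit 10) (C.cons (nat_lit 1572) (C.node (nat_lit 1) (nat_lit 5) (nat_lit 9) (C.cons (nat_lit 610) (C.miq (nat_lit 622238320) (nat_lit 737455467965714379053401985))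 (C.cons (nat_lit 546) (C.node (nat_lit 1) (nat_lit 2) (nat_lit 5) (C.cons (nat_lit 102) (C.node (nat_lit 1) (nat_lit 2) (nat_lit 4) (C.cons (nat_lit 150)
  (C.miq (nat_lit 2451023200) (nat_lit 181374309580039073743176817)) (C.cons (nat_lit 22) (C.node (nat_lit 1) (nat_lit 2) (nat_lit 7) (C.cons (nat_lit 646) (C.node (nat_lit 1) (nat_lit 2) (nat_lit 8) (C.cons (nat_lit 262) (C.node (nat_lit 3) (nat_lit 7) (nat_lit 9) (C.cons (nat_lit 712) (C.miq (nat_lit 1500946960) (nat_lit 860776157956109218101789711)) (C.cons (nat_lit 648) (C.node (nat_lit 5) (nat_lit 6) (nat_lit 9) (C.cons (nat_lit 864) (C.miq (nat_lit 1985548450) (nat_lit 1044523824798603727255897103)) (C.cons (nat_lit 736) (C.node (nat_lit 4) (nat_lit 7) (nat_lit 9) (C.cons (nat_lit 656) (C.node (nat_lit 1) (nat_lit 3) (nat_lit 5) (C.cons (nat_lit 58) (C.node (nat_lit 1) (nat_lit 3) (nat_lit 7) (C.cons (nat_lit 394) (C.miq (nat_lit 2805205013) (nat_lit 184986624889765193972318499))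 (C.cons (nat_lit 138) (C.node (nat_lit 1) (nat_lit 4) (nat_lit 7) (C.cons (nat_lit 402) (C.miq (nat_lit 2537752597) (nat_lit 184975851991226181953913123)) C.nil)) C.nil))) (C.cons (nat_lit 42) (C.node (nat_lit 1) (nat_lit 4) (nat_lit 5) (C.cons (nat_lit 50) (C.node (nat_lit 1) (nat_lit 3) (nat_lit 7) (C.cons (nat_lit 394) (C.node (nat_lit 1) (nat_lit 4) (nat_lit 7) C.nil) (C.cons (nat_lit 138) (C.node (nat_lit 1) (nat_lit 4) (nat_lit 7) (C.cons (nat_lit 146) (C.node (nat_lit 1) (nat_lit 7) (nat_lit 8) C.nil) C.nil)) C.nil))) C.nil)) C.nil))) C.nil)) (C.cons (nat_lit 608) (C.miq (nat_lit 1985548450) (nat_lit 735038814977258658531116047)) C.nil)))) C.nil))) C.nil)) (C.cons (nat_lit 390) (C.miq (nat_lit 1361356672) (nat_lit 26617342313364647037962113)) (C.cons (nat_lit 134) (C.miq (nat_lit 2451023200) (nat_lit 162031496466205006947878001)) C.nil)))) C.nil))) (C.cons (nat_lit 54) (C.miq (nat_lit 1649478055) (nat_lit 65285591537828062031906689))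 (C.cons (nat_lit 38) (C.miq (nat_lit 1649478055) (nat_lit 45942778423993995236607873)) C.nil)))) C.nil))) (C.cons (nat_lit 1060) (C.node (nat_lit 2) (nat_lit 9) (nat_lit 10) (C.cons (nat_lit 1540) (C.node (nat_lit 5) (nat_lit 9) (nat_lit 10) (C.cons (nat_lit 1568) (C.node (nat_lit 4) (nat_lit 8) (nat_lit 10) (C.cons (nat_lit 1296) (C.node (nat_lit 3) (nat_lit 4) (nat_lit 10) (C.cons (nat_lit 1048) (C.node (nat_lit 4) (nat_lit 9) (nat_lit 10) C.nil) C.nil)) C.nil)) C.nil)) C.nil)) C.nil))) C.nil)) C.nil))) C.nil))) C.nil)) C.nil))) C.nil))) C.nil))) C.nil))) C.nil))) C.nil)) (List.cons (C.node (nat_lit 2) (nat_lit 8) (nat_lit 9) (C.cons (nat_lit 804) (C.miq (nat_lit 2032535633) (nat_lit 702389498851910807288414499)) (C.cons (nat_lit 780) (C.miq (nat_lit 895652008) (nat_lit 123324822216730214857443201)) (C.cons (nat_lit 772) (C.node (nat_lit 5) (nat_lit 8) (nat_lit 10) (C.cons (nat_lit 1320) (C.miq (nat_lit 958943338) (nat_lit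 933315082600329177066636401)) (C.cons (nat_lit 1312) (C.node (nat_lit 5) (nat_lit 6) (nat_lit 9) (C.cons (nat_lit 864) (C.miq (nat_lit 845482633) (nat_lit 123320634942623227676985217)) (C.cons (nat_lit 736) (C.miq (nat_lit 2502587920) (nat_lit 1281496805194038542251000003)) (C.cons (nat_lit 608) (C.node (nat_lit 1) (nat_lit 5) (nat_lit 9) (C.cons (nat_lit 674) (C.node (nat_lit 2) (nat_lit 7) (nat_lit 9) (C.cons (nat_lit 652) (C.miq (nat_lit 1200988720) (nat_lit 814836976698163344571958287)) (C.cons (nat_lit 644) (C.node (nat_lit 4) (nat_lit 5) (nat_lit 7) (C.cons (nat_lit 432) (C.miq (nat_lit 1361346727) (nat_lit 26604337106875365140465537)) (C.cons (nat_lit 176) (C.node (nat_lit 2) (nat_lit 7) (nat_lit 8) (C.cons (nat_lit 428) (C.miq (nat_lit 878866600) (nat_lit 101557664097162953266300801)) (C.cons (nat_lit 420) (C.miq (nat_lit 1095895416) (nat_lit 123315543498266700834670465)) (C.cons (nat_lit 396) (C.miq (nat_lit 878866600)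 (nat_lit 101557073801352594560649089)) (C.cons (nat_lit 388) (C.node (nat_lit 1) (nat_lit 3) (nat_lit 5) (C.cons (nat_lit 58) (C.node (nat_lit 1) (nat_lit 3) (nat_lit 7) (C.cons (nat_lit 394) (C.miq (nat_lit 2805205013) (nat_lit 184986624889765193972318499)) (C.cons (nat_lit 138) (C.node (nat_lit 1) (nat_lit 4) (nat_lit 7) C.nil) C.nil))) (C.cons (nat_lit 42)
  (C.node (nat_lit 1) (nat_lit 4) (nat_lit 5) (C.cons (nat_lit 50) (C.node (nat_lit 1) (nat_lit 3) (nat_lit 7) C.nil) C.nil)) C.nil))) C.nil))))) C.nil))) C.nil))) (C.cons (nat_lit 546) (C.node (nat_lit 1) (nat_lit 7) (nat_lit 9) (C.cons (nat_lit 650) (C.node (nat_lit 1) (nat_lit 3) (nat_lit 5) (C.cons (nat_lit 58) (C.miq (nat_lit 2438624064) (nat_lit 1279078953530602246932332697)) (C.cons (nat_lit 42) (C.node (nat_lit 3) (nat_lit 5) (nat_lit 10) (C.cons (nat_lit 1192) (C.miq (nat_lit 1160841849) (nat_lit 50784679964959733273200513)) (C.cons (nat_lit 1064) (C.node (nat_lit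 3) (nat_lit 7) (nat_lit 10) C.nil) C.nil))) C.nil))) (C.cons (nat_lit 642) (C.node (nat_lit 2) (nat_lit 3) (nat_lit 6) (C.cons (nat_lit 204) (C.node (nat_lit 3) (nat_lit 7) (nat_lit 9) (C.cons (nat_lit 648) (C.node (nat_lit 2) (nat_lit 3) (nat_lit 8) (C.cons (nat_lit 300) (C.miq (nat_lit 1937793617) (nat_lit 320368939370393288417935462)) (C.cons (nat_lit 268) (C.node (nat_lit 2) (nat_lit 3) (nat_lit 5) (C.cons (nat_lit 60) (C.miq (nat_lit 305620288) (nat_lit 246624464345189430335177841)) (C.cons (nat_lit 44) (C.node (nat_lit 3) (nat_lit 5) (nat_lit 10) C.nil) C.nil))) C.nil))) C.nil)) (C.cons (nat_lit 76) (C.node (nat_lit 2) (nat_lit 6) (nat_lit 7) (C.cons (nat_lit 196) (C.node (nat_lit 3) (nat_lit 5) (nat_lit 10) (C.cons (nat_lit 1192) (C.node (nat_lit 2) (nat_lit 3) (nat_lit 4) C.nil) (C.cons (nat_lit 1064) (C.node (nat_lit 3) (nat_lit 7) (nat_lit 10) C.nil) C.nil))) C.nil)) C.nil))) C.nil))) C.nil))) C.nil)))) C.nil))) C.nil))))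 (List.cons (C.node (nat_lit 3) (nat_lit 6) (nat_lit 10) (C.cons (nat_lit 1608) (C.node (nat_lit 4) (nat_lit 9) (nat_lit 10) (C.cons (nat_lit 1552) (C.node (nat_lit 3) (nat_lit 4) (nat_lit 10) (C.cons (nat_lit 1304) (C.miq (nat_lit 874948617) (nat_lit 101579431579143935009032065)) (C.cons (nat_lit 1048) (C.node (nat_lit 4) (nat_lit 8) (nat_lit 10) (C.cons (nat_lit 1296) (C.node (nat_lit 3) (nat_lit 8) (nat_lit 10) (C.cons (nat_lit 1320) (C.miq (nat_lit 2181408403) (nat_lit 44754605407349340090467912)) (C.cons (nat_lit 1288) (C.node (nat_lit 5) (nat_lit 8) (nat_lit 10) (C.cons (nat_lit 1312) (C.node (nat_lit 3) (nat_lit 5) (nat_lit 10) (C.cons (nat_lit 1192) (C.node (nat_lit 1) (nat_lit 3) (nat_lit 5) (C.cons (nat_lit 106) (C.miq (nat_lit 2321615157) (nat_lit 1317734511923191586484781609)) (C.cons (nat_lit 58) (C.miq (nat_lit 2589001524) (nat_lit 1279053312914099356477030553)) (C.cons (nat_lit 42) (C.node (nat_lit 1) (nat_lit 3)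 (nat_lit 9) (C.cons (nat_lit 778) (C.miq (nat_lit 1662364032) (nat_lit 50795858824441337152210817)) (C.cons (nat_lit 650) (C.miq (nat_lit 1160841849) (nat_lit 50784679964959733273200513)) (C.cons (nat_lit 522) (C.node (nat_lit 3) (nat_lit 7) (nat_lit 9) (C.cons (nat_lit 652) (C.miq (nat_lit 1512637555) (nat_lit 1861755963576043772693971097)) (C.cons (nat_lit 648) (C.node (nat_lit 1) (nat_lit 3) (nat_lit 7) (C.cons (nat_lit 394) (C.node (nat_lit 1) (nat_lit 3) (nat_lit 4) (C.cons (nat_lit 90) (C.miq (nat_lit 2202693984) (nat_lit 1266989695262398498586296515)) C.nil)) (C.cons (nat_lit 138) (C.node (nat_lit 1) (nat_lit 4) (nat_lit 5) C.nil) C.nil))) C.nil))) C.nil)))) C.nil)))) C.nil)) C.nil)) C.nil))) C.nil)) C.nil))) C.nil)) (C.cons (nat_lit 1096) (C.node (nat_lit 6) (nat_lit 9) (nat_lit 10) (C.cons (nat_lit 1600) (C.node (nat_lit 3) (nat_lit 7) (nat_lit 10) (C.cons (nat_lit 1192) (C.node (nat_lit 5) (nat_lit 8) (nat_lit 10) (C.cons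 (nat_lit 1312) (C.node (nat_lit 3) (nat_lit 8) (nat_lit 10) (C.cons (nat_lit 1304) (C.node (nat_lit 3) (nat_lit 9) (nat_lit 10) (C.cons (nat_lit 1544) (C.node (nat_lit 4) (nat_lit 9) (nat_lit 10) (C.cons (nat_lit 1552) (C.node (nat_lit 4) (nat_lit 5) (nat_lit 3) (C.cons (nat_lit 60) (C.miq (nat_lit 2320631604) (nat_lit 1281466479080333892600463513)) (C.cons (nat_lit 58) (C.miq (nat_lit 2589001524) (nat_lit 1279053312914099356477030553)) (C.cons (nat_lit 56) (C.node (nat_lit 1) (nat_lit 3) (nat_lit 7) (C.cons (nat_lit 650)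
  (C.miq (nat_lit 341020839) (nat_lit 67711836431535241081390977)) (C.cons (nat_lit 394) (C.miq (nat_lit 413561664) (nat_lit 1629635602066521242402357401)) (C.cons (nat_lit 138) (C.node (nat_lit 4) (nat_lit 1) (nat_lit 3) (C.cons (nat_lit 90) (C.miq (nat_lit 2199364704) (nat_lit 166867199669228178348639345)) (C.cons (nat_lit 26) (C.node (nat_lit 4) (nat_lit 6) (nat_lit 1) (C.cons (nat_lit 338) (C.node (nat_lit 1) (nat_lit 8) (nat_lit 7) C.nil) (C.cons (nat_lit 82) (C.node (nat_lit 4) (nat_lit 5) (nat_lit 1) C.nil) C.nil))) C.nil))) C.nil)))) C.nil)))) C.nil)) C.nil)) (C.cons (nat_lit 1288) (C.node (nat_lit 4) (nat_lit 8) (nat_lit 10) (C.cons (nat_lit 1296) (C.node (nat_lit 3) (nat_lit 4) (nat_lit 10) (C.cons (nat_lit 1560) (C.node (nat_lit 2) (nat_lit 3) (nat_lit 4) (C.cons (nat_lit 60) (C.miq (nat_lit 2586117955) (nat_lit 1281471570381698150537363609)) (C.cons (nat_lit 28) (C.node (nat_lit 2) (nat_lit 3) (nat_lit 9) (C.cons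 (nat_lit 780) (C.miq (nat_lit 950375008) (nat_lit 1586120876603422510121288261)) (C.cons (nat_lit 652) (C.miq (nat_lit 1411582585) (nat_lit 33860124318724460538234753)) (C.cons (nat_lit 524) (C.node (nat_lit 4) (nat_lit 6) (nat_lit 7) (C.cons (nat_lit 720) (C.miq (nat_lit 1772188720) (nat_lit 1859331507885062727509409945)) (C.cons (nat_lit 464) (C.miq (nat_lit 845417095) (nat_lit 101552591491930418685413249)) (C.cons (nat_lit 208) (C.node (nat_lit 4) (nat_lit 6) (nat_lit 9) (C.cons (nat_lit 848) (C.miq (nat_lit 308546185) (nat_lit 101559564361190280921089921)) (C.cons (nat_lit 592) (C.node (nat_lit 1) (nat_lit 5) (nat_lit 6) C.nil) C.nil))) C.nil)))) C.nil)))) C.nil))) C.nil)) C.nil)) C.nil))) C.nil)) (C.cons (nat_lit 1160) (C.node (nat_lit 5) (nat_lit 7) (nat_lit 10) (C.cons (nat_lit 1184) (C.node (nat_lit 3) (nat_lit 5) (nat_lit 10) (C.cons (nat_lit 1320) (C.node (nat_lit 4) (nat_lit 8) (nat_lit 10) (C.cons (nat_lit 1296) (C.node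 (nat_lit 3) (nat_lit 4) (nat_lit 10) (C.cons (nat_lit 1560) (C.miq (nat_lit 1250005840) (nat_lit 1549852696406164374789751337)) C.nil)) C.nil)) (C.cons (nat_lit 1064) (C.node (nat_lit 5) (nat_lit 8) (nat_lit 10) C.nil) C.nil))) C.nil)) C.nil))) C.nil)) C.nil))) (List.cons (C.node (nat_lit 2) (nat_lit 4) (nat_lit 9) (C.cons (nat_lit 564) (C.node (nat_lit 2) (nat_lit 3) (nat_lit 8) (C.cons (nat_lit 780) (C.miq (nat_lit 1687397672) (nat_lit 1885949218916848638788109604)) (C.cons (nat_lit 396) (C.miq (nat_lit 877818024) (nat_lit 681841467216374598417516417)) (C.cons (nat_lit 268) (C.node (nat_lit 2) (nat_lit 3) (nat_lit 9) (C.cons (nat_lit 652) (C.miq (nat_lit 893554855) (nat_lit 681846189695447458737555329)) (C.cons (nat_lit 524) (C.node (nat_lit 2) (nat_lit 8) (nat_lit 9) (C.cons (nat_lit 774) (C.miq (nat_lit 340955304) (nat_lit 681848440192032001824655233)) (C.cons (nat_lit 772) (C.node (nat_lit 3) (nat_lit 8) (nat_lit 9) (C.cons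 (nat_lit 778) (C.miq (nat_lit 2236158115) (nat_lit 681848513911454302268294159)) (C.cons (nat_lit 776) (C.node (nat_lit 4) (nat_lit 6) (nat_lit 9) (C.cons (nat_lit 848) (C.miq (nat_lit 327748196) (nat_lit 938136231534513686997632113)) (C.cons (nat_lit 592) (C.node (nat_lit 4) (nat_lit 8) (nat_lit 9) (C.cons (nat_lit 784) (C.node (nat_lit 1) (nat_lit 2) (nat_lit 4) (C.cons (nat_lit 86) (C.node (nat_lit 2) (nat_lit 3) (nat_lit 4) (C.cons (nat_lit 28) (C.node (nat_lit 1) (nat_lit 2) (nat_lit 8) (C.cons (nat_lit 390) (C.miq (nat_lit 1377216624) (nat_lit 103988594805292661186168705)) C.nil)) C.nil)) (C.cons (nat_lit 22) (C.node (nat_lit 1) (nat_lit 2) (nat_lit 9) (C.cons (nat_lit 646) (C.node (nat_lit 1) (nat_lit 2) (nat_lit 5) (C.cons (nat_lit 102) (C.miq (nat_lit 2182587744) (nat_lit 781001516036837550359512177)) C.nil)) C.nil)) C.nil))) C.nil)) C.nil))) C.nil))) C.nil))) C.nil))) C.nil)))) (C.cons (nat_lit 532) (C.node (nat_lit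 4) (nat_lit 5) (nat_lit 9) (C.cons (nat_lit 816) (C.miq (nat_lit 2510374944) (nat_lit 1279053312603070039851991317)) (C.cons (nat_lit 560) (C.node (nat_lit 2) (nat_lit 4) (nat_lit 5) (C.cons (nat_lit 60)
  (C.miq (nat_lit 1952031280) (nat_lit 677033895509446864323281935)) (C.cons (nat_lit 54) (C.miq (nat_lit 2236195344) (nat_lit 677033895549979235198370831)) (C.cons (nat_lit 52) (C.node (nat_lit 1) (nat_lit 2) (nat_lit 4) (C.cons (nat_lit 86) (C.node (nat_lit 2) (nat_lit 3) (nat_lit 4) (C.cons (nat_lit 28) (C.node (nat_lit 3) (nat_lit 4) (nat_lit 6) (C.cons (nat_lit 88) (C.node (nat_lit 2) (nat_lit 6) (nat_lit 8) (C.cons (nat_lit 452) (C.miq (nat_lit 2185852432) (nat_lit 643183972357575375867543747)) (C.cons (nat_lit 324) (C.node (nat_lit 4) (nat_lit 6) (nat_lit 7) (C.cons (nat_lit 464) (C.miq (nat_lit 2217375248) (nat_lit 1416896496914315747433316547)) (C.cons (nat_lit 208) (C.node (nat_lit 4) (nat_lit 6) (nat_lit 8) C.nil)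 C.nil))) C.nil))) C.nil)) C.nil)) (C.cons (nat_lit 22) (C.node (nat_lit 2) (nat_lit 3) (nat_lit 4) (C.cons (nat_lit 92) (C.node (nat_lit 4) (nat_lit 6) (nat_lit 7) (C.cons (nat_lit 464) (C.miq (nat_lit 1983546400) (nat_lit 1634503144444949024650232085)) (C.cons (nat_lit 208) (C.node (nat_lit 4) (nat_lit 6) (nat_lit 9) (C.cons (nat_lit 848) (C.miq (nat_lit 325323401) (nat_lit 111230970918107331498608513)) (C.cons (nat_lit 592) (C.node (nat_lit 4) (nat_lit 8) (nat_lit 9) (C.cons (nat_lit 784) (C.node (nat_lit 5) (nat_lit 8) (nat_lit 9) C.nil) C.nil)) C.nil))) C.nil))) (C.cons (nat_lit 28) (C.node (nat_lit 2) (nat_lit 4) (nat_lit 6) (C.cons (nat_lit 84) (C.node (nat_lit 3) (nat_lit 4) (nat_lit 6) (C.cons (nat_lit 90) (C.miq (nat_lit 1737756835) (nat_lit 793056997929059243659887631)) (C.cons (nat_lit 88) (C.node (nat_lit 1) (nat_lit 2) (nat_lit 6) C.nil) C.nil))) C.nil)) C.nil))) C.nil))) C.nil)))) C.nil))) C.nil))) List.nil))))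

theorem ok11_66 : okL par11 (nat_lit 70) c11_66 (nat_lit 66) = true := by decide +kernel

noncomputable def c11_70 : List C :=
  (List.cons (C.node (nat_lit 3) (nat_lit 5) (nat_lit 10) (C.cons (nat_lit 1192) (C.miq (nat_lit 1393076034) (nat_lit 320389618448596562454316180)) (C.cons (nat_lit 1064) (C.node (nat_lit 5) (nat_lit 7) (nat_lit 10) (C.cons (nat_lit 1184) (C.node (nat_lit 3) (nat_lit 7) (nat_lit 10) (C.cons (nat_lit 1224) (C.node (nat_lit 6) (nat_lit 8) (nat_lit 10) (C.cons (nat_lit 1344) (C.node (nat_lit 6) (nat_lit 9) (nat_lit 10) (C.cons (nat_lit 1600) (C.node (nat_lit 3) (nat_lit 9) (nat_lit 10) (C.cons (nat_lit 1560) (C.miq (nat_lit 1787917120) (nat_lit 1859331508026926115738288281)) (C.cons (nat_lit 1544) (C.node (nat_lit 4) (nat_lit 9) (nat_lit 10) (C.cons (nat_lit 1552) (C.node (nat_lit 3) (nat_lit 4) (nat_lit 10) (C.cons (nat_lit 1304) (C.node (nat_lit 2) (nat_lit 8) (nat_lit 9) (C.cons (nat_lit 780) (C.miq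 (nat_lit 1782121602) (nat_lit 1866592183363336920204312853)) (C.cons (nat_lit 774) (C.miq (nat_lit 1244202369) (nat_lit 1861755557747674769567121699)) (C.cons (nat_lit 772) (C.node (nat_lit 3) (nat_lit 7) (nat_lit 9) (C.cons (nat_lit 652) (C.miq (nat_lit 1512637555) (nat_lit 1861755963576043772693971097)) (C.cons (nat_lit 650) (C.miq (nat_lit 1245251185) (nat_lit 1866591261026132891120828611)) (C.cons (nat_lit 648) (C.node (nat_lit 4) (nat_lit 5) (nat_lit 8) (C.cons (nat_lit 816) (C.miq (nat_lit 310970964) (nat_lit 933300528256055015677887601)) (C.cons (nat_lit 432) (C.miq (nat_lit 1470202912) (nat_lit 1395105763959409740799213845)) (C.cons (nat_lit 304) (C.node (nat_lit 4) (nat_lit 8) (nat_lit 9) (C.cons (nat_lit 848) (C.miq (nat_lit 949134432) (nat_lit 933309899276633318898336881)) (C.cons (nat_lit 784) (C.node (nat_lit 4) (nat_lit 6) (nat_lit 7) (C.cons (nat_lit 720) (C.miq (nat_lit 326699620) (nat_lit 783393726623840602871039089))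 (C.cons (nat_lit 464) (C.miq (nat_lit 1755411504) (nat_lit 1549846497991658965235073177)) (C.cons (nat_lit 208) (C.node (nat_lit 4) (nat_lit 7) (nat_lit 9) (C.cons (nat_lit 688) (C.miq (nat_lit 663987280) (nat_lit 783403097607263917112362097)) (C.cons (nat_lit 656) (C.node (nat_lit 2) (nat_lit 3) (nat_lit 9) (C.cons (nat_lit 540) (C.node (nat_lit 4) (nat_lit 5) (nat_lit 9) (C.cons (nat_lit 560) (C.node (nat_lit 4) (nat_lit 6) (nat_lit 9) C.nil) C.nil)) (C.cons (nat_lit 524) (C.node (nat_lit 2) (nat_lit 3) (nat_lit 4) (C.cons (nat_lit 92) (C.miq (nat_lit 2200544352) (nat_lit 633512566040475048400454769)) (C.cons (nat_lit 60) (C.miq (nat_lit 1916380240) (nat_lit 633512566003320214033859697)) (C.cons (nat_lit 28) (C.node (nat_lit 2) (nat_lit 4) (nat_lit 6) (C.cons (nat_lit 86) (C.node (nat_lit 4) (nat_lit 6) (nat_lit 8) (C.cons (nat_lit 336) (C.node (nat_lit 1) (nat_lit 3) (nat_lit 4) (C.cons (nat_lit 58) (C.miq (nat_lit 2450720325)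 (nat_lit 1256084127792609804741641329)) C.nil)) C.nil)) (C.cons (nat_lit 84) (C.node (nat_lit 1) (nat_lit 2) (nat_lit 4) (C.cons (nat_lit 54) (C.miq (nat_lit 427966629) (nat_lit 933291729016145166540735601)) C.nil)) C.nil))) C.nil)))) C.nil))) C.nil))) C.nil)))) C.nil))) C.nil)))) C.nil)))) C.nil)))) C.nil)) C.nil)) C.nil))) C.nil)) C.nil)) (C.cons (nat_lit 1160) (C.node (nat_lit 6) (nat_lit 7) (nat_lit 10) (C.cons (nat_lit 1216) (C.node (nat_lit 4) (nat_lit 8) (nat_lit 10) (C.cons (nat_lit 1304) (C.node (nat_lit 4) (nat_lit 9) (nat_lit 10) (C.cons (nat_lit 1552) (C.node (nat_lit 6) (nat_lit 8) (nat_lit 10) (C.cons (nat_lit 1344) (C.node (nat_lit 3) (nat_lit 6) (nat_lit 10) (C.cons (nat_lit 1608) (C.node (nat_lit 3) (nat_lit 4) (nat_lit 9) (C.cons (nat_lit 540) (C.miq (nat_lit 1665309312) (nat_lit 652830660602823942797068161)) (C.cons (nat_lit 536) (C.node (nat_lit 2) (nat_lit 3) (nat_lit 4) (C.cons (nat_lit 92) (C.node (nat_lit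 1) (nat_lit 2) (nat_lit 4) (C.cons (nat_lit 54) (C.miq (nat_lit 2586052689) (nat_lit 1416870856350167614969217315)) (C.cons (nat_lit 22) (C.node (nat_lit 1) (nat_lit 4) (nat_lit 6) (C.cons (nat_lit 338) (C.miq (nat_lit 2521342752) (nat_lit 408652363677722414805222415)) (C.cons (nat_lit 82) (C.node (nat_lit 2) (nat_lit 3) (nat_lit 8)
  (C.cons (nat_lit 780) (C.node (nat_lit 1) (nat_lit 8) (nat_lit 9) (C.cons (nat_lit 834) (C.miq (nat_lit 1184369202) (nat_lit 1008249243626753104129295375)) (C.cons (nat_lit 770) (C.node (nat_lit 4) (nat_lit 6) (nat_lit 8) (C.cons (nat_lit 848) (C.node (nat_lit 4) (nat_lit 6) (nat_lit 7) (C.cons (nat_lit 208) (C.node (nat_lit 5) (nat_lit 8) (nat_lit 9) (C.cons (nat_lit 800) (C.node (nat_lit 4) (nat_lit 5) (nat_lit 8) (C.cons (nat_lit 432) (C.miq (nat_lit 1412597514) (nat_lit 111245451441344732979988353)) (C.cons (nat_lit 304) (C.node (nat_lit 4) (nat_lit 7) (nat_lit 9) (C.cons (nat_lit 688) (C.miq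 (nat_lit 1394905255) (nat_lit 111233866920128720913303425)) (C.cons (nat_lit 656) (C.node (nat_lit 4) (nat_lit 5) (nat_lit 9) (C.cons (nat_lit 564) (C.node (nat_lit 6) (nat_lit 9) (nat_lit 7) C.nil) C.nil)) C.nil))) C.nil))) C.nil)) C.nil)) (C.cons (nat_lit 464) (C.miq (nat_lit 878815344) (nat_lit 99151083742537539058337665)) (C.cons (nat_lit 336) (C.miq (nat_lit 2554737162) (nat_lit 406228737974537599275041807)) C.nil)))) C.nil))) (C.cons (nat_lit 396) (C.miq (nat_lit 1379182704) (nat_lit 111242149722980462001457025)) (C.cons (nat_lit 268) (C.miq (nat_lit 2468914752) (nat_lit 324027556304698372575790193)) C.nil)))) C.nil))) C.nil))) (C.cons (nat_lit 60) (C.miq (nat_lit 1665309312) (nat_lit 72546267187801938938103681)) (C.cons (nat_lit 28) (C.miq (nat_lit 1665309312) (nat_lit 33860640960133805347506049)) C.nil)))) C.nil))) C.nil)) C.nil)) C.nil)) (C.cons (nat_lit 1296) (C.node (nat_lit 3) (nat_lit 4) (nat_lit 10) (C.cons (nat_lit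 1560) (C.node (nat_lit 6) (nat_lit 9) (nat_lit 10) (C.cons (nat_lit 1600) (C.node (nat_lit 3) (nat_lit 6) (nat_lit 10) (C.cons (nat_lit 1352) (C.node (nat_lit 4) (nat_lit 7) (nat_lit 9) (C.cons (nat_lit 720) (C.miq (nat_lit 1772188720) (nat_lit 1859331507885062727509409945)) (C.cons (nat_lit 688) (C.miq (nat_lit 659596435) (nat_lit 194656223454939509030454808)) (C.cons (nat_lit 656) (C.ref (nat_lit 69) (nat_lit 11649936536080)) C.nil)))) C.nil)) C.nil)) (C.cons (nat_lit 1048) (C.node (nat_lit 4) (nat_lit 9) (nat_lit 10) C.nil) C.nil))) C.nil))) C.nil)) C.nil))) C.nil)) C.nil))) (List.cons (C.node (nat_lit 2) (nat_lit 4) (nat_lit 9) (C.cons (nat_lit 564) (C.node (nat_lit 1) (nat_lit 2) (nat_lit 4) (C.cons (nat_lit 86) (C.node (nat_lit 2) (nat_lit 3) (nat_lit 4) (C.cons (nat_lit 28) (C.node (nat_lit 3) (nat_lit 4) (nat_lit 6) (C.cons (nat_lit 88) (C.node (nat_lit 4) (nat_lit 6) (nat_lit 7) (C.cons (nat_lit 464) (C.miq (nat_lit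 2217375248) (nat_lit 1416896496914315747433316547)) (C.cons (nat_lit 208) (C.node (nat_lit 4) (nat_lit 6) (nat_lit 8) (C.cons (nat_lit 848) (C.miq (nat_lit 910272656) (nat_lit 103986787034508503928735617)) (C.cons (nat_lit 336) (C.node (nat_lit 4) (nat_lit 6) (nat_lit 9) (C.cons (nat_lit 592) (C.node (nat_lit 4) (nat_lit 8) (nat_lit 9) C.nil) C.nil)) C.nil))) C.nil))) C.nil)) C.nil)) (C.cons (nat_lit 22) (C.node (nat_lit 2) (nat_lit 3) (nat_lit 4) (C.cons (nat_lit 92) (C.node (nat_lit 3) (nat_lit 5) (nat_lit 6) (C.cons (nat_lit 106) (C.miq (nat_lit 2167539044) (nat_lit 1256079036409617803560879217)) (C.cons (nat_lit 104) (C.node (nat_lit 1) (nat_lit 3) (nat_lit 5) (C.cons (nat_lit 58) (C.miq (nat_lit 2303003185) (nat_lit 681839530805896434427757583)) (C.cons (nat_lit 42) (C.node (nat_lit 3) (nat_lit 6) (nat_lit 7) (C.cons (nat_lit 712) (C.miq (nat_lit 2268334434) (nat_lit 184970760689863169559757381)) (C.cons (nat_lit 200) (C.node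 (nat_lit 4) (nat_lit 6) (nat_lit 7) (C.cons (nat_lit 464) (C.miq (nat_lit 1983546400) (nat_lit 1634503144444949024650232085)) (C.cons (nat_lit 208) (C.node (nat_lit 4) (nat_lit 6) (nat_lit 9) (C.cons (nat_lit 848) (C.miq (nat_lit 325323401) (nat_lit 111230970918107331498608513)) (C.cons (nat_lit 592) (C.node (nat_lit 4) (nat_lit 8) (nat_lit 9) (C.cons (nat_lit 784) (C.node (nat_lit 1) (nat_lit 3) (nat_lit 4) (C.cons (nat_lit 26) (C.node (nat_lit 1) (nat_lit 4) (nat_lit 5) C.nil) C.nil)) C.nil)) C.nil))) C.nil))) C.nil))) C.nil))) C.nil)))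
  (C.cons (nat_lit 28) (C.node (nat_lit 2) (nat_lit 4) (nat_lit 6) (C.cons (nat_lit 84) (C.node (nat_lit 3) (nat_lit 4) (nat_lit 6) (C.cons (nat_lit 90) (C.miq (nat_lit 1737756835) (nat_lit 793056997929059243659887631)) (C.cons (nat_lit 88) (C.node (nat_lit 4) (nat_lit 6) (nat_lit 9) (C.cons (nat_lit 848) (C.miq (nat_lit 325323401) (nat_lit 106395267639648814799783809)) (C.cons (nat_lit 592) (C.node (nat_lit 4) (nat_lit 8) (nat_lit 9) (C.cons (nat_lit 784) (C.node (nat_lit 1) (nat_lit 2) (nat_lit 6) (C.cons (nat_lit 102) (C.node (nat_lit 3) (nat_lit 5) (nat_lit 6) C.nil) C.nil)) C.nil)) C.nil))) C.nil))) C.nil)) C.nil))) C.nil))) (C.cons (nat_lit 532) (C.node (nat_lit 4) (nat_lit 5) (nat_lit 9) (C.cons (nat_lit 816) (C.miq (nat_lit 2225166640) (nat_lit 1259706072270659330736325161)) (C.cons (nat_lit 560) (C.node (nat_lit 4) (nat_lit 6) (nat_lit 7) (C.cons (nat_lit 464) (C.node (nat_lit 4) (nat_lit 6) (nat_lit 9) (C.cons (nat_lit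 592) (C.node (nat_lit 4) (nat_lit 8) (nat_lit 9) (C.cons (nat_lit 784) (C.node (nat_lit 1) (nat_lit 2) (nat_lit 4) (C.cons (nat_lit 86) (C.miq (nat_lit 2217375248) (nat_lit 1416896496914315747433316547)) (C.cons (nat_lit 54) (C.miq (nat_lit 1484001442) (nat_lit 560942576507285386311238671)) (C.cons (nat_lit 22) (C.node (nat_lit 1) (nat_lit 4) (nat_lit 6) (C.cons (nat_lit 90) (C.miq (nat_lit 2489819920) (nat_lit 560977016935654883340780559)) (C.cons (nat_lit 82) (C.node (nat_lit 2) (nat_lit 4) (nat_lit 5) (C.cons (nat_lit 60) (C.miq (nat_lit 1418146314) (nat_lit 560963568837013487283667983)) (C.cons (nat_lit 52) (C.node (nat_lit 2) (nat_lit 3) (nat_lit 9) C.nil) C.nil))) C.nil))) C.nil)))) C.nil)) C.nil)) (C.cons (nat_lit 208) (C.node (nat_lit 4) (nat_lit 6) (nat_lit 9) (C.cons (nat_lit 848) (C.node (nat_lit 1) (nat_lit 4) (nat_lit 6) (C.cons (nat_lit 90) (C.miq (nat_lit 2489819920) (nat_lit 251492007114309814615999503)) (C.cons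 (nat_lit 86) (C.miq (nat_lit 910272656) (nat_lit 103986787034508503928735617)) (C.cons (nat_lit 82) (C.miq (nat_lit 910272656) (nat_lit 99151083756049987229910913)) C.nil)))) (C.cons (nat_lit 592) (C.node (nat_lit 4) (nat_lit 8) (nat_lit 9) (C.cons (nat_lit 784) (C.node (nat_lit 4) (nat_lit 6) (nat_lit 8) (C.cons (nat_lit 338) (C.node (nat_lit 4) (nat_lit 7) (nat_lit 8) (C.cons (nat_lit 432) (C.miq (nat_lit 710411124) (nat_lit 1586115785374959515192000665)) (C.cons (nat_lit 400) (C.node (nat_lit 6) (nat_lit 9) (nat_lit 8) (C.cons (nat_lit 864) (C.node (nat_lit 4) (nat_lit 5) (nat_lit 7) C.nil) C.nil)) C.nil))) (C.cons (nat_lit 336) (C.node (nat_lit 6) (nat_lit 9) (nat_lit 7) (C.cons (nat_lit 712) (C.node (nat_lit 4) (nat_lit 6) (nat_lit 2) C.nil) (C.cons (nat_lit 736) (C.miq (nat_lit 712377177) (nat_lit 1470064514502153522143822377)) C.nil))) C.nil))) C.nil)) C.nil))) C.nil))) C.nil))) C.nil))) (List.cons (C.node (nat_lit 4)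 (nat_lit 8) (nat_lit 10) (C.cons (nat_lit 1304) (C.node (nat_lit 4) (nat_lit 9) (nat_lit 10) (C.cons (nat_lit 1552) (C.node (nat_lit 5) (nat_lit 8) (nat_lit 10) (C.cons (nat_lit 1312) (C.node (nat_lit 6) (nat_lit 8) (nat_lit 10) (C.cons (nat_lit 1344) (C.node (nat_lit 3) (nat_lit 5) (nat_lit 10) (C.cons (nat_lit 1192) (C.node (nat_lit 6) (nat_lit 7) (nat_lit 10) (C.cons (nat_lit 1216) (C.node (nat_lit 3) (nat_lit 6) (nat_lit 10) (C.cons (nat_lit 1608) (C.node (nat_lit 3) (nat_lit 4) (nat_lit 9) (C.cons (nat_lit 540) (C.miq (nat_lit 1665309312) (nat_lit 652830660602823942797068161)) (C.cons (nat_lit 536) (C.node (nat_lit 2) (nat_lit 3) (nat_lit 4) (C.cons (nat_lit 92) (C.node (nat_lit 1) (nat_lit 3) (nat_lit 4) (C.cons (nat_lit 58) (C.miq (nat_lit 2589001524) (nat_lit 1279053312914099356477030553)) (C.cons (nat_lit 26) (C.node (nat_lit 3) (nat_lit 4) (nat_lit 5) (C.cons (nat_lit 56) (C.node (nat_lit 1) (nat_lit 3) (nat_lit 5)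 (C.cons (nat_lit 106) (C.miq (nat_lit 2167539044) (nat_lit 1256079036409617803560879217)) (C.cons (nat_lit 42) (C.node (nat_lit 1) (nat_lit 4) (nat_lit 6) (C.cons (nat_lit 338)
  (C.miq (nat_lit 2521342752) (nat_lit 408652363677722414805222415)) (C.cons (nat_lit 82) (C.node (nat_lit 2) (nat_lit 3) (nat_lit 5) (C.cons (nat_lit 300) (C.miq (nat_lit 2468914752) (nat_lit 362713182532366506166387825)) (C.cons (nat_lit 44) (C.node (nat_lit 2) (nat_lit 3) (nat_lit 8) (C.cons (nat_lit 780) (C.node (nat_lit 2) (nat_lit 3) (nat_lit 7) (C.cons (nat_lit 140) (C.node (nat_lit 1) (nat_lit 3) (nat_lit 9) (C.cons (nat_lit 650) (C.miq (nat_lit 1393862544) (nat_lit 31453045593513130305193857)) (C.cons (nat_lit 522) (C.node (nat_lit 3) (nat_lit 7) (nat_lit 9) C.nil) C.nil))) C.nil)) (C.cons (nat_lit 396) (C.miq (nat_lit 1394911104) (nat_lit 111242149688077564897462145)) (C.cons (nat_lit 268) (C.miq (nat_lit 2468914752) (nat_lit 324027556304698372575790193))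 C.nil)))) C.nil))) C.nil))) C.nil))) C.nil)) C.nil))) (C.cons (nat_lit 60) (C.miq (nat_lit 1665309312) (nat_lit 72546267187801938938103681)) (C.cons (nat_lit 28) (C.miq (nat_lit 1665309312) (nat_lit 33860640960133805347506049)) C.nil)))) C.nil))) C.nil)) C.nil)) (C.cons (nat_lit 1064) (C.node (nat_lit 5) (nat_lit 7) (nat_lit 10) C.nil) C.nil))) C.nil)) C.nil)) C.nil)) (C.cons (nat_lit 1296) (C.node (nat_lit 3) (nat_lit 4) (nat_lit 10) (C.cons (nat_lit 1560) (C.node (nat_lit 6) (nat_lit 9) (nat_lit 10) (C.cons (nat_lit 1600) (C.node (nat_lit 5) (nat_lit 8) (nat_lit 10) (C.cons (nat_lit 1320) (C.miq (nat_lit 1250005840) (nat_lit 1549852696406164374789751337)) (C.cons (nat_lit 1312) (C.node (nat_lit 6) (nat_lit 7) (nat_lit 10) (C.cons (nat_lit 1224) (C.miq (nat_lit 1787917120) (nat_lit 1859331508026926115738288281)) (C.cons (nat_lit 1216) (C.node (nat_lit 3) (nat_lit 5) (nat_lit 10) (C.cons (nat_lit 1192) (C.node (nat_lit 3) (nat_lit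 6) (nat_lit 10) (C.cons (nat_lit 1352) (C.node (nat_lit 4) (nat_lit 7) (nat_lit 9) (C.cons (nat_lit 720) (C.miq (nat_lit 1772188720) (nat_lit 1859331507885062727509409945)) (C.cons (nat_lit 688) (C.miq (nat_lit 2510374704) (nat_lit 1279053312567040710257082521)) (C.cons (nat_lit 656) (C.ref (nat_lit 71) (nat_lit 11649936536080)) C.nil)))) C.nil)) C.nil)) C.nil))) C.nil))) C.nil)) (C.cons (nat_lit 1048) (C.node (nat_lit 4) (nat_lit 9) (nat_lit 10) (C.cons (nat_lit 1552) (C.node (nat_lit 3) (nat_lit 9) (nat_lit 10) (C.cons (nat_lit 1608) (C.node (nat_lit 6) (nat_lit 7) (nat_lit 10) (C.cons (nat_lit 1216) (C.node (nat_lit 6) (nat_lit 8) (nat_lit 10) C.nil) C.nil)) (C.cons (nat_lit 1544) (C.node (nat_lit 6) (nat_lit 9) (nat_lit 10) (C.cons (nat_lit 1600) (C.node (nat_lit 5) (nat_lit 7) (nat_lit 10) (C.cons (nat_lit 1184) (C.node (nat_lit 3) (nat_lit 5) (nat_lit 10) (C.cons (nat_lit 1064) (C.node (nat_lit 5) (nat_lit 8) (nat_lit 10)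 C.nil) C.nil)) C.nil)) C.nil)) C.nil))) C.nil)) C.nil))) C.nil))) (List.cons (C.node (nat_lit 5) (nat_lit 8) (nat_lit 10) (C.cons (nat_lit 1316) (C.miq (nat_lit 1519485504) (nat_lit 1859333278940252872532754709)) (C.cons (nat_lit 1312) (C.node (nat_lit 4) (nat_lit 8) (nat_lit 9) (C.cons (nat_lit 848) (C.miq (nat_lit 945857682) (nat_lit 388084354630435561105851924)) (C.cons (nat_lit 816) (C.miq (nat_lit 1503757344) (nat_lit 1859333278799515384210718997)) (C.cons (nat_lit 784) (C.node (nat_lit 2) (nat_lit 5) (nat_lit 10) (C.cons (nat_lit 1188) (C.node (nat_lit 3) (nat_lit 5) (nat_lit 10) (C.cons (nat_lit 1064) (C.node (nat_lit 2) (nat_lit 6) (nat_lit 10) (C.cons (nat_lit 1348) (C.node (nat_lit 3) (nat_lit 6) (nat_lit 10) (C.cons (nat_lit 1224) (C.miq (nat_lit 1644668995) (nat_lit 160809713202921359049032984)) (C.cons (nat_lit 1096) (C.node (nat_lit 3) (nat_lit 7) (nat_lit 10) (C.cons (nat_lit 1160) (C.node (nat_lit 6) (nat_lit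 7) (nat_lit 10) (C.cons (nat_lit 1216) (C.ref (nat_lit 71) (nat_lit 11645894271760)) C.nil)) C.nil)) C.nil))) (C.cons (nat_lit 1092) (C.node (nat_lit 2) (nat_lit 8) (nat_lit 10) (C.cons (nat_lit 1284) (C.node (nat_lit 6) (nat_lit 8) (nat_lit 10) (C.cons (nat_lit 1344) (C.node (nat_lit 3) (nat_lit 6) (nat_lit 10) (C.cons (nat_lit 1224)
  (C.ref (nat_lit 69) (nat_lit 11645894271760)) C.nil)) C.nil)) C.nil)) C.nil))) C.nil)) (C.cons (nat_lit 1060) (C.node (nat_lit 2) (nat_lit 7) (nat_lit 10) (C.cons (nat_lit 1220) (C.miq (nat_lit 1248957024) (nat_lit 1395110191494365511017497157)) (C.cons (nat_lit 1156) (C.node (nat_lit 2) (nat_lit 6) (nat_lit 10) (C.cons (nat_lit 1348) (C.node (nat_lit 3) (nat_lit 6) (nat_lit 10) (C.cons (nat_lit 1224) (C.miq (nat_lit 1644668995) (nat_lit 160809713202921359049032984)) (C.cons (nat_lit 1096) (C.node (nat_lit 6) (nat_lit 7) (nat_lit 10) (C.cons (nat_lit 1216) (C.node (nat_lit 3) (nat_lit 5) (nat_lit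 10) (C.cons (nat_lit 1192) (C.node (nat_lit 4) (nat_lit 5) (nat_lit 8) (C.cons (nat_lit 432) (C.miq (nat_lit 2242004784) (nat_lit 1281466478661217652342456473)) (C.cons (nat_lit 304) (C.node (nat_lit 4) (nat_lit 5) (nat_lit 9) (C.cons (nat_lit 688) (C.miq (nat_lit 2510374704) (nat_lit 1279053312567040710257082521)) (C.cons (nat_lit 560) (C.node (nat_lit 4) (nat_lit 7) (nat_lit 9) (C.cons (nat_lit 720) (C.miq (nat_lit 1956735264) (nat_lit 1259704301356206639675277893)) (C.cons (nat_lit 656) (C.node (nat_lit 1) (nat_lit 3) (nat_lit 7) (C.cons (nat_lit 650) (C.miq (nat_lit 1469358864) (nat_lit 793076311950729510370083855)) (C.cons (nat_lit 394) (C.miq (nat_lit 413561664) (nat_lit 1629635602066521242402357401)) (C.cons (nat_lit 138) (C.node (nat_lit 1) (nat_lit 3) (nat_lit 4) (C.cons (nat_lit 90) (C.miq (nat_lit 2199364704) (nat_lit 166867199669228178348639345)) (C.cons (nat_lit 58) (C.miq (nat_lit 2536573524) (nat_lit 166841558868640515747349617))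 (C.cons (nat_lit 26) (C.node (nat_lit 3) (nat_lit 4) (nat_lit 5) (C.cons (nat_lit 60) (C.miq (nat_lit 1967694624) (nat_lit 367548885693731295114626063)) (C.cons (nat_lit 56) (C.node (nat_lit 2) (nat_lit 3) (nat_lit 4) (C.cons (nat_lit 92) (C.miq (nat_lit 1770266787) (nat_lit 947799539841869266434917391)) (C.cons (nat_lit 28) (C.node (nat_lit 2) (nat_lit 3) (nat_lit 9) (C.cons (nat_lit 780) (C.miq (nat_lit 1681001097) (nat_lit 33860640827559091349751681)) (C.cons (nat_lit 652) (C.miq (nat_lit 665228112) (nat_lit 1470064514393222706183078441)) (C.cons (nat_lit 524) (C.node (nat_lit 1) (nat_lit 3) (nat_lit 5) (C.cons (nat_lit 106) (C.node (nat_lit 2) (nat_lit 3) (nat_lit 5) C.nil) C.nil)) C.nil)))) C.nil))) C.nil))) C.nil)))) C.nil)))) C.nil))) C.nil))) C.nil))) C.nil)) C.nil)) C.nil))) (C.cons (nat_lit 1092) (C.node (nat_lit 2) (nat_lit 8) (nat_lit 10) (C.cons (nat_lit 1284) (C.node (nat_lit 6) (nat_lit 8) (nat_lit 10) C.nil) C.nil))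 C.nil))) C.nil))) C.nil))) C.nil)))) C.nil))) List.nil))))

theorem ok11_70 : okL par11 (nat_lit 74) c11_70 (nat_lit 70) = true := by decide +kernel


end Pool.Agent.MP_1f1ca1_co
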