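import Pool.Agent.MP_1f1ca1_co.Cert.P11

set_option autoImplicit false
set_option maxRecDepth 1000000
set_option maxHeartbeats 0

namespace Pool.Agent.MP_1f1ca1_co

noncomputable def c11_231 : List C :=
  (List.cons (C.node (nat_lit 0) (nat_lit 3) (nat_lit 9) (C.cons (nat_lit 553) (C.node (nat_lit 0) (nat_lit 3) (nat_lit 10) (C.cons (nat_lit 1097) (C.node (nat_lit 0) (nat_lit 3) (nat_lit 4) (C.cons (nat_lit 281) (C.node (nat_lit 0) (nat_lit 6) (nat_lit 8) C.nil) C.nil)) (C.cons (nat_lit 1049) (C.node (nat_lit 0) (nat_lit 3) (nat_lit 6) (C.cons (nat_lit 329) (C.pat (nat_lit 1) (nat_lit 2271826226) (nat_lit 856881179660827729791279424032276675)) C.nil)) C.nil))) C.nil)) (List.cons (C.node (nat_lit 0) (nat_lit 2) (nat_lit 9) (C.cons (nat_lit 581) (C.node (nat_lit 0) (nat_lit 2) (nat_lit 8) (C.cons (nat_lit 277) (C.node (nat_lit 0) (nat_lit 2) (nat_lit 10) (C.cons (nat_lit 1029) (C.node (nat_lit 0) (nat_lit 3) (nat_lit 8)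 (C.cons (nat_lit 329) (C.node (nat_lit 0) (nat_lit 3) (nat_lit 9) (C.cons (nat_lit 553) (C.pat (nat_lit 1) (nat_lit 2539151921) (nat_lit 1012650085066289420577783623782564005)) (C.cons (nat_lit 521) (C.node (nat_lit 0) (nat_lit 5) (nat_lit 9) (C.cons (nat_lit 545) (C.node (nat_lit 0) (nat_lit 3) (nat_lit 4) (C.cons (nat_lit 1049) (C.node (nat_lit 0) (nat_lit 3) (nat_lit 5) C.nil) (C.cons (nat_lit 57) (C.pat (nat_lit 2) (nat_lit 19718898465) (nat_lit 1271198625923533895321505091678119635092178817)) C.nil))) C.nil)) C.nil))) (C.cons (nat_lit 265) (C.node (nat_lit 0) (nat_lit 6) (nat_lit 8) (C.cons (nat_lit 321) (C.node (nat_lit 0) (nat_lit 3) (nat_lit 9) (C.cons (nat_lit 553) (C.node (nat_lit 0) (nat_lit 3) (nat_lit 4) (C.cons (nat_lit 1049) (C.node (nat_lit 0) (nat_lit 3) (nat_lit 6) C.nil) (C.cons (nat_lit 89) (C.pat (nat_lit 2) (nat_lit 19451450130) (nat_lit 1984832679241775499253525286621234190166722433)) C.nil)))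 C.nil)) C.nil)) C.nil))) C.nil)) (C.cons (nat_lit 261) (C.node (nat_lit 0) (nat_lit 2) (nat_lit 4) (C.cons (nat_lit 1045) (C.node (nat_lit 0) (nat_lit 3) (nat_lit 9) (C.cons (nat_lit 553) (C.ref (nat_lit 198) (nat_lit 9515874652960)) (C.cons (nat_lit 521) (C.node (nat_lit 0) (nat_lit 5) (nat_lit 9) (C.cons (nat_lit 545) (C.node (nat_lit 0) (nat_lit 3) (nat_lit 8) (C.cons (nat_lit 329) (C.node (nat_lit 0) (nat_lit 4) (nat_lit 8) C.nil) (C.cons (nat_lit 281) (C.node (nat_lit 0) (nat_lit 6) (nat_lit 8) C.nil) C.nil))) C.nil)) C.nil))) (C.cons (nat_lit 21) (C.node (nat_lit 0) (nat_lit 2) (nat_lit 10) (C.cons (nat_lit 1029) (C.ref (nat_lit 231) (nat_lit 11649936536080)) C.nil)) C.nil))) C.nil))) (C.cons (nat_lit 517) (C.node (nat_lit 0) (nat_lit 2) (nat_lit 8) (C.cons (nat_lit 325) (C.node (nat_lit 0) (nat_lit 2) (nat_lit 4) (C.cons (nat_lit 1045) (C.node (nat_lit 0) (nat_lit 3) (nat_lit 8) (C.cons (nat_lit 281) (C.ref (nat_lit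 209) (nat_lit 11645909942560)) (C.cons (nat_lit 265) (C.node (nat_lit 0) (nat_lit 4) (nat_lit 8) (C.cons (nat_lit 273) (C.node (nat_lit 0) (nat_lit 3) (nat_lit 4) (C.cons (nat_lit 89) (C.node (nat_lit 0) (nat_lit 4) (nat_lit 5) C.nil) (C.cons (nat_lit 57) (C.node (nat_lit 0) (nat_lit 4) (nat_lit 6) C.nil) C.nil))) C.nil)) C.nil))) (C.cons (nat_lit 21) (C.node (nat_lit 0) (nat_lit 2) (nat_lit 10) (C.cons (nat_lit 1029) (C.node (nat_lit 0) (nat_lit 3) (nat_lit 8) (C.cons (nat_lit 281) (C.ref (nat_lit 212) (nat_lit 10615102063120)) C.nil)) C.nil)) C.nil))) (C.cons (nat_lit 277) (C.node (nat_lit 0) (nat_lit 2) (nat_lit 6) (C.cons (nat_lit 1093) (C.node (nat_lit 0) (nat_lit 3) (nat_lit 8) (C.cons (nat_lit 329) (C.ref (nat_lit 198) (nat_lit 11645894271760)) (C.cons (nat_lit 265) (C.node (nat_lit 0) (nat_lit 6) (nat_lit 8) (C.cons (nat_lit 321) (C.node (nat_lit 0) (nat_lit 3) (nat_lit 10) (C.cons (nat_lit 1065) (C.node (nat_lit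 0) (nat_lit 4) (nat_lit 10) C.nil) (C.cons (nat_lit 1049) (C.node (nat_lit 0) (nat_lit 5) (nat_lit 10) C.nil) C.nil))) C.nil)) C.nil))) (C.cons (nat_lit 69) (C.node (nat_lit 0) (nat_lit 2) (nat_lit 10) (C.cons (nat_lit 1029) (C.node (nat_lit 0) (nat_lit 3) (nat_lit 8) (C.cons (nat_lit 329) (C.node (nat_lit 0) (nat_lit 3) (nat_lit 9) (C.cons (nat_lit 553) (C.node (nat_lit 0) (nat_lit 6) (nat_lit 9) C.nil) C.nil)) C.nil)) C.nil)) C.nil))) (C.cons (nat_lit 261)
  (C.node (nat_lit 0) (nat_lit 2) (nat_lit 4) (C.cons (nat_lit 1045) (C.node (nat_lit 0) (nat_lit 2) (nat_lit 6) (C.cons (nat_lit 69) (C.node (nat_lit 0) (nat_lit 3) (nat_lit 8) (C.cons (nat_lit 329) (C.node (nat_lit 0) (nat_lit 4) (nat_lit 8) C.nil) (C.cons (nat_lit 281) (C.node (nat_lit 0) (nat_lit 6) (nat_lit 8) C.nil) C.nil))) C.nil)) (C.cons (nat_lit 85) (C.node (nat_lit 0) (nat_lit 2) (nat_lit 10) (C.cons (nat_lit 1029) (C.node (nat_lit 0) (nat_lit 4) (nat_lit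 8) (C.cons (nat_lit 281) (C.node (nat_lit 0) (nat_lit 6) (nat_lit 8) C.nil) C.nil)) C.nil)) (C.cons (nat_lit 21) (C.node (nat_lit 0) (nat_lit 2) (nat_lit 6) (C.cons (nat_lit 1093) (C.node (nat_lit 0) (nat_lit 3) (nat_lit 8) (C.cons (nat_lit 329) (C.node (nat_lit 0) (nat_lit 4) (nat_lit 8) C.nil) (C.cons (nat_lit 281) (C.node (nat_lit 0) (nat_lit 6) (nat_lit 8) C.nil) C.nil))) C.nil)) C.nil)))) C.nil)))) C.nil))) (List.cons (C.node (nat_lit 0) (nat_lit 2) (nat_lit 8) (C.cons (nat_lit 325) (C.node (nat_lit 0) (nat_lit 2) (nat_lit 4) (C.cons (nat_lit 1045) (C.node (nat_lit 0) (nat_lit 3) (nat_lit 8) (C.cons (nat_lit 281) (C.node (nat_lit 0) (nat_lit 3) (nat_lit 5) (C.cons (nat_lit 105) (C.node (nat_lit 0) (nat_lit 4) (nat_lit 5) (C.cons (nat_lit 49) (C.node (nat_lit 0) (nat_lit 4) (nat_lit 6) C.nil) C.nil)) (C.cons (nat_lit 41) (C.node (nat_lit 0) (nat_lit 3) (nat_lit 6) C.nil) C.nil))) (C.cons (nat_lit 265) (C.node (nat_lit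 0) (nat_lit 4) (nat_lit 8) C.nil) C.nil))) (C.cons (nat_lit 21) (C.node (nat_lit 0) (nat_lit 2) (nat_lit 10) C.nil) C.nil))) (C.cons (nat_lit 277) (C.node (nat_lit 0) (nat_lit 2) (nat_lit 6) (C.cons (nat_lit 1093) (C.node (nat_lit 0) (nat_lit 3) (nat_lit 8) (C.cons (nat_lit 329) (C.node (nat_lit 0) (nat_lit 3) (nat_lit 4) (C.cons (nat_lit 57) (C.node (nat_lit 0) (nat_lit 4) (nat_lit 6) (C.cons (nat_lit 81) (C.node (nat_lit 0) (nat_lit 4) (nat_lit 10) C.nil) C.nil)) (C.cons (nat_lit 25) (C.node (nat_lit 0) (nat_lit 3) (nat_lit 5) C.nil) C.nil))) (C.cons (nat_lit 265) (C.node (nat_lit 0) (nat_lit 6) (nat_lit 8) C.nil) C.nil))) (C.cons (nat_lit 69) (C.node (nat_lit 0) (nat_lit 2) (nat_lit 10) C.nil) C.nil))) (C.cons (nat_lit 261) (C.node (nat_lit 0) (nat_lit 2) (nat_lit 4) (C.cons (nat_lit 1045) (C.node (nat_lit 0) (nat_lit 2) (nat_lit 6) C.nil) (C.cons (nat_lit 85) (C.node (nat_lit 0) (nat_lit 2) (nat_lit 10) C.nil) C.nil)))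 C.nil)))) (List.cons (C.node (nat_lit 0) (nat_lit 2) (nat_lit 9) (C.cons (nat_lit 581) (C.node (nat_lit 0) (nat_lit 3) (nat_lit 9) (C.cons (nat_lit 553) (C.ref (nat_lit 201) (nat_lit 9515874652960)) (C.cons (nat_lit 521) (C.node (nat_lit 0) (nat_lit 5) (nat_lit 9) C.nil) C.nil))) (C.cons (nat_lit 525) (C.node (nat_lit 0) (nat_lit 5) (nat_lit 9) (C.cons (nat_lit 609) (C.ref (nat_lit 206) (nat_lit 11577455809360)) (C.cons (nat_lit 545) (C.node (nat_lit 0) (nat_lit 6) (nat_lit 9) C.nil) C.nil))) (C.cons (nat_lit 517) (C.node (nat_lit 0) (nat_lit 3) (nat_lit 9) (C.cons (nat_lit 585) (C.node (nat_lit 0) (nat_lit 5) (nat_lit 9) C.nil) (C.cons (nat_lit 553) (C.node (nat_lit 0) (nat_lit 6) (nat_lit 9) C.nil) C.nil))) C.nil)))) (List.cons (C.node (nat_lit 0) (nat_lit 1) (nat_lit 2) (C.cons (nat_lit 1031) (C.node (nat_lit 0) (nat_lit 1) (nat_lit 3) (C.cons (nat_lit 11) (C.ref (nat_lit 230) (nat_lit 11649936536080)) C.nil)) (C.cons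 (nat_lit 15) (C.node (nat_lit 0) (nat_lit 1) (nat_lit 10) (C.cons (nat_lit 1027) (C.ref (nat_lit 232) (nat_lit 11649936536080)) C.nil)) (C.cons (nat_lit 7) (C.node (nat_lit 0) (nat_lit 1) (nat_lit 3) (C.cons (nat_lit 1035) (C.node (nat_lit 0) (nat_lit 2) (nat_lit 9) (C.cons (nat_lit 581) (C.node (nat_lit 0) (nat_lit 2) (nat_lit 10) (C.cons (nat_lit 1045) (C.node (nat_lit 0) (nat_lit 2) (nat_lit 3) (C.cons (nat_lit 269) (C.node (nat_lit 0) (nat_lit 3) (nat_lit 9) (C.cons (nat_lit 553) (C.ref (nat_lit 199) (nat_lit 9515874652960)) (C.cons (nat_lit 521) (C.node (nat_lit 0) (nat_lit 5) (nat_lit 9) (C.cons (nat_lit 545) (C.node (nat_lit 0) (nat_lit 4) (nat_lit 8) (C.cons (nat_lit 337)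
  (C.node (nat_lit 0) (nat_lit 3) (nat_lit 4) (C.cons (nat_lit 57) (C.node (nat_lit 0) (nat_lit 3) (nat_lit 6) (C.cons (nat_lit 73) (C.node (nat_lit 0) (nat_lit 6) (nat_lit 5) (C.cons (nat_lit 1121) (C.pat (nat_lit 2) (nat_lit 38975940228) (nat_lit 12956824497814104362167964344898139816908096523)) C.nil)) C.nil)) (C.cons (nat_lit 25) (C.node (nat_lit 0) (nat_lit 4) (nat_lit 5) C.nil) C.nil))) (C.cons (nat_lit 273) (C.node (nat_lit 0) (nat_lit 6) (nat_lit 8) C.nil) C.nil))) C.nil)) C.nil))) (C.cons (nat_lit 13) (C.node (nat_lit 0) (nat_lit 2) (nat_lit 8) (C.cons (nat_lit 261) (C.node (nat_lit 0) (nat_lit 3) (nat_lit 9) (C.cons (nat_lit 553) (C.node (nat_lit 0) (nat_lit 4) (nat_lit 5) (C.cons (nat_lit 113) (C.node (nat_lit 0) (nat_lit 5) (nat_lit 10) (C.cons (nat_lit 1057) (C.node (nat_lit 0) (nat_lit 6) (nat_lit 10) C.nil) C.nil)) (C.cons (nat_lit 49) (C.node (nat_lit 0) (nat_lit 5) (nat_lit 6) (C.cons (nat_lit 1121)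 (C.node (nat_lit 0) (nat_lit 6) (nat_lit 3) (C.cons (nat_lit 329) (C.node (nat_lit 0) (nat_lit 6) (nat_lit 4) C.nil) (C.cons (nat_lit 89) (C.pat (nat_lit 2) (nat_lit 30389084822) (nat_lit 3679811136663721927769203212324538113606353931)) C.nil))) C.nil)) C.nil))) (C.cons (nat_lit 521) (C.node (nat_lit 0) (nat_lit 5) (nat_lit 9) C.nil) C.nil))) C.nil)) C.nil))) (C.cons (nat_lit 1029) (C.node (nat_lit 0) (nat_lit 3) (nat_lit 9) (C.cons (nat_lit 553) (C.ref (nat_lit 200) (nat_lit 9515874652960)) (C.cons (nat_lit 521) (C.node (nat_lit 0) (nat_lit 5) (nat_lit 9) (C.cons (nat_lit 545) (C.node (nat_lit 0) (nat_lit 2) (nat_lit 3) (C.cons (nat_lit 269) (C.node (nat_lit 0) (nat_lit 2) (nat_lit 4) C.nil) (C.cons (nat_lit 29) (C.node (nat_lit 0) (nat_lit 2) (nat_lit 8) C.nil) C.nil))) C.nil)) C.nil))) C.nil))) (C.cons (nat_lit 525) (C.node (nat_lit 0) (nat_lit 5) (nat_lit 9) (C.cons (nat_lit 609) (C.ref (nat_lit 204) (nat_lit 9515871507280))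 (C.cons (nat_lit 545) (C.node (nat_lit 0) (nat_lit 6) (nat_lit 9) (C.cons (nat_lit 577) (C.ref (nat_lit 233) (nat_lit 11649936536080)) C.nil)) C.nil))) (C.cons (nat_lit 517) (C.node (nat_lit 0) (nat_lit 2) (nat_lit 10) (C.cons (nat_lit 1093) (C.node (nat_lit 0) (nat_lit 4) (nat_lit 10) (C.cons (nat_lit 1073) (C.ref (nat_lit 200) (nat_lit 9447423546400)) (C.cons (nat_lit 1041) (C.node (nat_lit 0) (nat_lit 5) (nat_lit 10) (C.cons (nat_lit 1057) (C.node (nat_lit 0) (nat_lit 2) (nat_lit 4) (C.cons (nat_lit 277) (C.node (nat_lit 0) (nat_lit 2) (nat_lit 3) C.nil) (C.cons (nat_lit 29) (C.node (nat_lit 0) (nat_lit 2) (nat_lit 8) C.nil) C.nil))) C.nil)) C.nil))) (C.cons (nat_lit 1045) (C.node (nat_lit 0) (nat_lit 5) (nat_lit 10) (C.cons (nat_lit 1121) (C.node (nat_lit 0) (nat_lit 4) (nat_lit 5) (C.cons (nat_lit 57) (C.node (nat_lit 0) (nat_lit 5) (nat_lit 9) (C.cons (nat_lit 545) (C.node (nat_lit 0) (nat_lit 3) (nat_lit 9) (C.cons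 (nat_lit 585) (C.node (nat_lit 0) (nat_lit 2) (nat_lit 3) (C.cons (nat_lit 269) (C.node (nat_lit 0) (nat_lit 2) (nat_lit 6) (C.cons (nat_lit 69) (C.node (nat_lit 0) (nat_lit 4) (nat_lit 6) (C.cons (nat_lit 337) (C.pat (nat_lit 1) (nat_lit 1754552881) (nat_lit 1510985086366362436164285482961274753)) C.nil)) C.nil)) (C.cons (nat_lit 13) (C.node (nat_lit 0) (nat_lit 3) (nat_lit 8) C.nil) C.nil))) (C.cons (nat_lit 521) (C.node (nat_lit 0) (nat_lit 6) (nat_lit 9) C.nil) C.nil))) C.nil)) (C.cons (nat_lit 49) (C.node (nat_lit 0) (nat_lit 3) (nat_lit 5) (C.cons (nat_lit 553) (C.node (nat_lit 0) (nat_lit 6) (nat_lit 9) (C.cons (nat_lit 577) (C.node (nat_lit 0) (nat_lit 4) (nat_lit 3) (C.cons (nat_lit 281) (C.node (nat_lit 0) (nat_lit 4) (nat_lit 6) C.nil) (C.cons (nat_lit 89) (C.node (nat_lit 0) (nat_lit 4) (nat_lit 8) C.nil) C.nil))) C.nil)) (C.cons (nat_lit 41) (C.node (nat_lit 0) (nat_lit 5) (nat_lit 9) C.nil) C.nil))) C.nil)))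 (C.cons (nat_lit 1057) (C.node (nat_lit 0) (nat_lit 6) (nat_lit 10) (C.cons (nat_lit 1089) (C.node (nat_lit 0) (nat_lit 2) (nat_lit 6) (C.cons (nat_lit 325) (C.node (nat_lit 0) (nat_lit 2) (nat_lit 3) C.nil) (C.cons (nat_lit 77)
  (C.node (nat_lit 0) (nat_lit 2) (nat_lit 8) C.nil) C.nil))) C.nil)) C.nil))) (C.cons (nat_lit 1029) (C.node (nat_lit 0) (nat_lit 3) (nat_lit 9) (C.cons (nat_lit 585) (C.node (nat_lit 0) (nat_lit 5) (nat_lit 9) (C.cons (nat_lit 545) (C.node (nat_lit 0) (nat_lit 3) (nat_lit 5) (C.cons (nat_lit 57) (C.node (nat_lit 0) (nat_lit 2) (nat_lit 3) (C.cons (nat_lit 269) (C.node (nat_lit 0) (nat_lit 2) (nat_lit 4) (C.cons (nat_lit 85) (C.node (nat_lit 0) (nat_lit 4) (nat_lit 8) C.nil) C.nil)) C.nil)) C.nil)) C.nil)) (C.cons (nat_lit 553) (C.node (nat_lit 0) (nat_lit 6) (nat_lit 9) (C.cons (nat_lit 577) (C.node (nat_lit 0) (nat_lit 4) (nat_lit 5) (C.cons (nat_lit 1073) (C.node (nat_lit 0) (nat_lit 5)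 (nat_lit 6) C.nil) (C.cons (nat_lit 113) (C.node (nat_lit 0) (nat_lit 4) (nat_lit 10) C.nil) C.nil))) C.nil)) (C.cons (nat_lit 521) (C.node (nat_lit 0) (nat_lit 5) (nat_lit 9) (C.cons (nat_lit 609) (C.node (nat_lit 0) (nat_lit 3) (nat_lit 5) (C.cons (nat_lit 57) (C.node (nat_lit 0) (nat_lit 5) (nat_lit 10) C.nil) C.nil)) C.nil)) C.nil)))) C.nil)))) C.nil)))) (C.cons (nat_lit 11) (C.node (nat_lit 0) (nat_lit 1) (nat_lit 10) (C.cons (nat_lit 1027) (C.ref (nat_lit 234) (nat_lit 11649936536080)) C.nil)) C.nil))) C.nil)))) (List.cons (C.node (nat_lit 0) (nat_lit 3) (nat_lit 9) (C.cons (nat_lit 585) (C.node (nat_lit 0) (nat_lit 3) (nat_lit 5) (C.cons (nat_lit 1065) (C.node (nat_lit 0) (nat_lit 6) (nat_lit 10) C.nil) C.nil)) (C.cons (nat_lit 553) (C.node (nat_lit 0) (nat_lit 3) (nat_lit 6) (C.cons (nat_lit 1097) (C.node (nat_lit 0) (nat_lit 5) (nat_lit 10) C.nil) C.nil)) C.nil))) (List.cons (C.node (nat_lit 0) (nat_lit 2)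 (nat_lit 4) (C.cons (nat_lit 1045) (C.node (nat_lit 0) (nat_lit 2) (nat_lit 6) (C.cons (nat_lit 69) (C.ref (nat_lit 236) (nat_lit 11649936536080)) C.nil)) (C.cons (nat_lit 85) (C.node (nat_lit 0) (nat_lit 2) (nat_lit 10) (C.cons (nat_lit 1029) (C.node (nat_lit 0) (nat_lit 4) (nat_lit 9) (C.cons (nat_lit 561) (C.node (nat_lit 0) (nat_lit 4) (nat_lit 10) C.nil) C.nil)) C.nil)) (C.cons (nat_lit 21) (C.node (nat_lit 0) (nat_lit 2) (nat_lit 6) (C.cons (nat_lit 1093) (C.node (nat_lit 0) (nat_lit 4) (nat_lit 10) (C.cons (nat_lit 1073) (C.node (nat_lit 0) (nat_lit 3) (nat_lit 10) C.nil) C.nil)) C.nil)) C.nil)))) (List.cons (C.node (nat_lit 0) (nat_lit 3) (nat_lit 8) (C.cons (nat_lit 329) (C.node (nat_lit 0) (nat_lit 2) (nat_lit 3) (C.cons (nat_lit 1037) (C.node (nat_lit 0) (nat_lit 2) (nat_lit 6) (C.cons (nat_lit 85) (C.node (nat_lit 0) (nat_lit 2) (nat_lit 8) (C.cons (nat_lit 261) (C.node (nat_lit 0) (nat_lit 4) (nat_lit 8)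 (C.cons (nat_lit 273) (C.node (nat_lit 0) (nat_lit 3) (nat_lit 5) (C.cons (nat_lit 553) (C.node (nat_lit 0) (nat_lit 4) (nat_lit 9) (C.cons (nat_lit 529) (C.node (nat_lit 0) (nat_lit 6) (nat_lit 9) C.nil) C.nil)) (C.cons (nat_lit 41) (C.node (nat_lit 0) (nat_lit 3) (nat_lit 9) C.nil) C.nil))) C.nil)) C.nil)) (C.cons (nat_lit 69) (C.node (nat_lit 0) (nat_lit 2) (nat_lit 4) (C.cons (nat_lit 277) (C.ref (nat_lit 203) (nat_lit 10615102120720)) (C.cons (nat_lit 21) (C.node (nat_lit 0) (nat_lit 2) (nat_lit 8) (C.cons (nat_lit 261) (C.node (nat_lit 0) (nat_lit 4) (nat_lit 8) C.nil) C.nil)) C.nil))) C.nil))) (C.cons (nat_lit 13) (C.node (nat_lit 0) (nat_lit 2) (nat_lit 8) (C.cons (nat_lit 277) (C.node (nat_lit 0) (nat_lit 2) (nat_lit 6) (C.cons (nat_lit 1093) (C.ref (nat_lit 196) (nat_lit 11645894271760)) (C.cons (nat_lit 69) (C.node (nat_lit 0) (nat_lit 2) (nat_lit 10) (C.cons (nat_lit 1029) (C.node (nat_lit 0) (nat_lit 3)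 (nat_lit 9) (C.cons (nat_lit 553) (C.node (nat_lit 0) (nat_lit 3) (nat_lit 10) C.nil) C.nil)) C.nil)) C.nil))) (C.cons (nat_lit 261) (C.node (nat_lit 0) (nat_lit 4) (nat_lit 8) (C.cons (nat_lit 273) (C.node (nat_lit 0) (nat_lit 3) (nat_lit 9) (C.cons (nat_lit 553) (C.node (nat_lit 0) (nat_lit 3) (nat_lit 10) C.nil) C.nil)) C.nil)) C.nil))) C.nil))) (C.cons (nat_lit 269) (C.node (nat_lit 0) (nat_lit 4) (nat_lit 8) (C.cons (nat_lit 337) (C.node (nat_lit 0) (nat_lit 2) (nat_lit 4) (C.cons (nat_lit 1045)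
  (C.node (nat_lit 0) (nat_lit 2) (nat_lit 6) (C.cons (nat_lit 69) (C.ref (nat_lit 203) (nat_lit 10615102055440)) C.nil)) (C.cons (nat_lit 21) (C.node (nat_lit 0) (nat_lit 2) (nat_lit 6) (C.cons (nat_lit 1093) (C.ref (nat_lit 196) (nat_lit 11645894206480)) (C.cons (nat_lit 69) (C.node (nat_lit 0) (nat_lit 2) (nat_lit 10) (C.cons (nat_lit 1029) (C.node (nat_lit 0) (nat_lit 4) (nat_lit 9) (C.cons (nat_lit 561) (C.node (nat_lit 0) (nat_lit 4) (nat_lit 10) C.nil) C.nil)) C.nil)) C.nil))) C.nil))) (C.cons (nat_lit 273) (C.node (nat_lit 0) (nat_lit 6) (nat_lit 8) (C.cons (nat_lit 321) (C.ref (nat_lit 237) (nat_lit 11649936536080)) C.nil)) C.nil))) (C.cons (nat_lit 265) (C.node (nat_lit 0) (nat_lit 2) (nat_lit 3) (C.cons (nat_lit 1037) (C.node (nat_lit 0) (nat_lit 2) (nat_lit 4) (C.cons (nat_lit 277) (C.node (nat_lit 0) (nat_lit 2) (nat_lit 6) (C.cons (nat_lit 69) (C.node (nat_lit 0) (nat_lit 6) (nat_lit 8) (C.cons (nat_lit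 321) (C.ref (nat_lit 236) (nat_lit 11649936474640)) C.nil)) C.nil)) (C.cons (nat_lit 85) (C.node (nat_lit 0) (nat_lit 2) (nat_lit 8) (C.cons (nat_lit 261) (C.node (nat_lit 0) (nat_lit 4) (nat_lit 8) (C.cons (nat_lit 273) (C.node (nat_lit 0) (nat_lit 6) (nat_lit 8) C.nil) C.nil)) C.nil)) (C.cons (nat_lit 21) (C.node (nat_lit 0) (nat_lit 2) (nat_lit 6) (C.cons (nat_lit 325) (C.node (nat_lit 0) (nat_lit 4) (nat_lit 8) (C.cons (nat_lit 273) (C.node (nat_lit 0) (nat_lit 3) (nat_lit 5) (C.cons (nat_lit 553) (C.node (nat_lit 0) (nat_lit 3) (nat_lit 6) C.nil) (C.cons (nat_lit 105) (C.node (nat_lit 0) (nat_lit 3) (nat_lit 9) C.nil) C.nil))) C.nil)) (C.cons (nat_lit 69) (C.node (nat_lit 0) (nat_lit 2) (nat_lit 8) C.nil) C.nil))) C.nil)))) (C.cons (nat_lit 77) (C.node (nat_lit 0) (nat_lit 2) (nat_lit 8) (C.cons (nat_lit 277) (C.node (nat_lit 0) (nat_lit 2) (nat_lit 10) (C.cons (nat_lit 1029) (C.node (nat_lit 0) (nat_lit 6) (nat_lit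 8) (C.cons (nat_lit 321) (C.node (nat_lit 0) (nat_lit 3) (nat_lit 9) (C.cons (nat_lit 553) (C.node (nat_lit 0) (nat_lit 3) (nat_lit 10) C.nil) C.nil)) C.nil)) C.nil)) (C.cons (nat_lit 261) (C.node (nat_lit 0) (nat_lit 2) (nat_lit 4) (C.cons (nat_lit 1045) (C.node (nat_lit 0) (nat_lit 3) (nat_lit 9) (C.cons (nat_lit 553) (C.node (nat_lit 0) (nat_lit 3) (nat_lit 10) (C.cons (nat_lit 1033) (C.node (nat_lit 0) (nat_lit 4) (nat_lit 5) (C.cons (nat_lit 113) (C.node (nat_lit 0) (nat_lit 4) (nat_lit 8) C.nil) C.nil)) C.nil)) (C.cons (nat_lit 521) (C.node (nat_lit 0) (nat_lit 3) (nat_lit 5) (C.cons (nat_lit 1065) (C.node (nat_lit 0) (nat_lit 6) (nat_lit 10) C.nil) C.nil)) C.nil))) (C.cons (nat_lit 21) (C.node (nat_lit 0) (nat_lit 2) (nat_lit 10) C.nil) C.nil))) C.nil))) (C.cons (nat_lit 13) (C.node (nat_lit 0) (nat_lit 2) (nat_lit 8) (C.cons (nat_lit 325) (C.node (nat_lit 0) (nat_lit 4) (nat_lit 8) (C.cons (nat_lit 273) (C.node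 (nat_lit 0) (nat_lit 2) (nat_lit 4) (C.cons (nat_lit 1045) (C.node (nat_lit 0) (nat_lit 4) (nat_lit 5) (C.cons (nat_lit 561) (C.node (nat_lit 0) (nat_lit 4) (nat_lit 6) C.nil) (C.cons (nat_lit 113) (C.node (nat_lit 0) (nat_lit 4) (nat_lit 9) C.nil) C.nil))) C.nil)) C.nil)) (C.cons (nat_lit 277) (C.node (nat_lit 0) (nat_lit 6) (nat_lit 8) (C.cons (nat_lit 321) (C.node (nat_lit 0) (nat_lit 2) (nat_lit 6) (C.cons (nat_lit 1093) (C.node (nat_lit 0) (nat_lit 3) (nat_lit 10) (C.cons (nat_lit 1065) (C.node (nat_lit 0) (nat_lit 4) (nat_lit 10) C.nil) C.nil)) C.nil)) C.nil)) (C.cons (nat_lit 261) (C.node (nat_lit 0) (nat_lit 4) (nat_lit 8) (C.cons (nat_lit 337) (C.node (nat_lit 0) (nat_lit 2) (nat_lit 4) (C.cons (nat_lit 1045) (C.node (nat_lit 0) (nat_lit 2) (nat_lit 6) C.nil) C.nil)) C.nil)) C.nil)))) C.nil)))) C.nil)))) (List.cons (C.node (nat_lit 0) (nat_lit 3) (nat_lit 8) (C.cons (nat_lit 329) (C.node (nat_lit 0) (nat_lit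 2) (nat_lit 3) (C.cons (nat_lit 1037) (C.node (nat_lit 0) (nat_lit 2) (nat_lit 6) (C.cons (nat_lit 69) (C.node (nat_lit 0) (nat_lit 3) (nat_lit 4) (C.cons (nat_lit 537) (C.node (nat_lit 0) (nat_lit 3) (nat_lit 5) C.nil) (C.cons (nat_lit 57)
  (C.node (nat_lit 0) (nat_lit 3) (nat_lit 9) C.nil) C.nil))) C.nil)) (C.cons (nat_lit 13) (C.node (nat_lit 0) (nat_lit 2) (nat_lit 6) (C.cons (nat_lit 1093) (C.node (nat_lit 0) (nat_lit 3) (nat_lit 9) (C.cons (nat_lit 553) (C.node (nat_lit 0) (nat_lit 3) (nat_lit 4) (C.cons (nat_lit 1049) (C.node (nat_lit 0) (nat_lit 5) (nat_lit 10) C.nil) C.nil)) (C.cons (nat_lit 537) (C.node (nat_lit 0) (nat_lit 3) (nat_lit 5) (C.cons (nat_lit 1065) (C.node (nat_lit 0) (nat_lit 4) (nat_lit 10) C.nil) C.nil)) C.nil))) C.nil)) C.nil))) (C.cons (nat_lit 265) (C.node (nat_lit 0) (nat_lit 6) (nat_lit 8) C.nil) C.nil))) (List.cons (C.node (nat_lit 0) (nat_lit 2) (nat_lit 8) (C.cons (nat_lit 325) (C.node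 (nat_lit 0) (nat_lit 3) (nat_lit 8) (C.cons (nat_lit 281) (C.ref (nat_lit 215) (nat_lit 11645894275600)) (C.cons (nat_lit 265) (C.node (nat_lit 0) (nat_lit 4) (nat_lit 8) C.nil) C.nil))) (C.cons (nat_lit 277) (C.ref (nat_lit 239) (nat_lit 11649936536080)) (C.cons (nat_lit 269) (C.ref (nat_lit 239) (nat_lit 11649936474640)) (C.cons (nat_lit 261) (C.node (nat_lit 0) (nat_lit 3) (nat_lit 8) (C.cons (nat_lit 329) (C.node (nat_lit 0) (nat_lit 4) (nat_lit 8) C.nil) (C.cons (nat_lit 281) (C.node (nat_lit 0) (nat_lit 6) (nat_lit 8) C.nil) C.nil))) C.nil))))) (List.cons (C.node (nat_lit 0) (nat_lit 1) (nat_lit 3) (C.cons (nat_lit 1035) (C.ref (nat_lit 232) (nat_lit 10619144323600)) (C.cons (nat_lit 11) (C.node (nat_lit 0) (nat_lit 1) (nat_lit 10) (C.cons (nat_lit 1027) (C.node (nat_lit 0) (nat_lit 2) (nat_lit 8) (C.cons (nat_lit 325) (C.node (nat_lit 0) (nat_lit 2) (nat_lit 9) (C.cons (nat_lit 525) (C.node (nat_lit 0) (nat_lit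 2) (nat_lit 10) (C.cons (nat_lit 1029) (C.node (nat_lit 0) (nat_lit 4) (nat_lit 8) (C.cons (nat_lit 281) (C.ref (nat_lit 212) (nat_lit 10615117852960)) C.nil)) C.nil)) (C.cons (nat_lit 517) (C.node (nat_lit 0) (nat_lit 2) (nat_lit 3) (C.cons (nat_lit 1037) (C.node (nat_lit 0) (nat_lit 4) (nat_lit 8) (C.cons (nat_lit 281) (C.ref (nat_lit 212) (nat_lit 11645910004000)) C.nil)) C.nil)) C.nil))) (C.cons (nat_lit 269) (C.node (nat_lit 0) (nat_lit 2) (nat_lit 9) (C.cons (nat_lit 581) (C.node (nat_lit 0) (nat_lit 2) (nat_lit 10) (C.cons (nat_lit 1029) (C.ref (nat_lit 231) (nat_lit 11585496236320)) C.nil)) (C.cons (nat_lit 517) (C.node (nat_lit 0) (nat_lit 2) (nat_lit 6) (C.cons (nat_lit 1093) (C.ref (nat_lit 231) (nat_lit 10490279575840)) C.nil)) C.nil))) (C.cons (nat_lit 261) (C.node (nat_lit 0) (nat_lit 2) (nat_lit 9) (C.cons (nat_lit 581) (C.node (nat_lit 0) (nat_lit 2) (nat_lit 3) (C.cons (nat_lit 1037) (C.node (nat_lit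 0) (nat_lit 4) (nat_lit 9) (C.cons (nat_lit 561) (C.node (nat_lit 0) (nat_lit 3) (nat_lit 9) C.nil) (C.cons (nat_lit 537) (C.node (nat_lit 0) (nat_lit 5) (nat_lit 9) C.nil) C.nil))) C.nil)) (C.cons (nat_lit 525) (C.node (nat_lit 0) (nat_lit 2) (nat_lit 6) (C.cons (nat_lit 1093) (C.node (nat_lit 0) (nat_lit 4) (nat_lit 10) (C.cons (nat_lit 1073) (C.node (nat_lit 0) (nat_lit 3) (nat_lit 10) C.nil) (C.cons (nat_lit 1049) (C.node (nat_lit 0) (nat_lit 5) (nat_lit 10) C.nil) C.nil))) C.nil)) C.nil))) C.nil)))) C.nil)) C.nil))) (List.cons (C.node (nat_lit 0) (nat_lit 2) (nat_lit 6) (C.cons (nat_lit 581) (C.node (nat_lit 0) (nat_lit 3) (nat_lit 5) (C.cons (nat_lit 553) (C.node (nat_lit 0) (nat_lit 4) (nat_lit 9) (C.cons (nat_lit 529) (C.node (nat_lit 0) (nat_lit 4) (nat_lit 5) (C.cons (nat_lit 1073) (C.node (nat_lit 0) (nat_lit 4) (nat_lit 6) C.nil) (C.cons (nat_lit 113) (C.pat (nat_lit 2) (nat_lit 15419475045) (nat_lit 602186478438626949030924449682411262475044737))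 C.nil))) C.nil)) (C.cons (nat_lit 41) (C.node (nat_lit 0) (nat_lit 3) (nat_lit 9) C.nil) C.nil))) (C.cons (nat_lit 69) (C.node (nat_lit 0) (nat_lit 2) (nat_lit 9) C.nil) C.nil))) List.nil))))))))))))

theorem ok11_231 : okL par11 (nat_lit 243) c11_231 (nat_lit 231) = true := by decide +kernel

noncomputable def c11_243 : List C :=
  (List.cons (C.node (nat_lit 0) (nat_lit 1) (nat_lit 9) (C.cons (nat_lit 531) (C.ref (nat_lit 235) (nat_lit 11649936536080)) (C.cons (nat_lit 523) (C.ref (nat_lit 235) (nat_lit 11649936474640)) (C.cons (nat_lit 519) (C.node (nat_lit 0) (nat_lit 1) (nat_lit 3) (C.cons (nat_lit 1035) (C.node (nat_lit 0) (nat_lit 1) (nat_lit 4) (C.cons (nat_lit 19) (C.ref (nat_lit 230) (nat_lit 10619144323600)) C.nil)) (C.cons (nat_lit 27) (C.node (nat_lit 0) (nat_lit 1) (nat_lit 10) (C.cons (nat_lit 1027) (C.ref (nat_lit 238) (nat_lit 11649936536080)) C.nil)) (C.cons (nat_lit 11) (C.node (nat_lit 0) (nat_lit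 1) (nat_lit 4) (C.cons (nat_lit 1043) (C.ref (nat_lit 230) (nat_lit 10619144385040)) (C.cons (nat_lit 19) (C.node (nat_lit 0) (nat_lit 1) (nat_lit 10) (C.cons (nat_lit 1027) (C.ref (nat_lit 240) (nat_lit 11649936536080)) C.nil)) C.nil))) C.nil)))) (C.cons (nat_lit 515) (C.node (nat_lit 0) (nat_lit 1) (nat_lit 2) (C.cons (nat_lit 1031) (C.node (nat_lit 0) (nat_lit 1) (nat_lit 3) (C.cons (nat_lit 27) (C.ref (nat_lit 238) (nat_lit 10619144385040)) (C.cons (nat_lit 11) (C.node (nat_lit 0) (nat_lit 1) (nat_lit 4) (C.cons (nat_lit 19) (C.ref (nat_lit 240) (nat_lit 10619144385040)) C.nil)) C.nil))) (C.cons (nat_lit 23) (C.ref (nat_lit 241) (nat_lit 11649936536080)) (C.cons (nat_lit 15) (C.ref (nat_lit 241) (nat_lit 11649936474640)) (C.cons (nat_lit 7) (C.node (nat_lit 0) (nat_lit 1) (nat_lit 3) (C.cons (nat_lit 1035) (C.node (nat_lit 0) (nat_lit 1) (nat_lit 4) (C.cons (nat_lit 19) (C.ref (nat_lit 234) (nat_lit 10619144323600))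 C.nil)) (C.cons (nat_lit 27) (C.node (nat_lit 0) (nat_lit 1) (nat_lit 10) (C.cons (nat_lit 1027) (C.node (nat_lit 0) (nat_lit 3) (nat_lit 8) (C.cons (nat_lit 329) (C.node (nat_lit 0) (nat_lit 2) (nat_lit 8) (C.cons (nat_lit 277) (C.node (nat_lit 0) (nat_lit 2) (nat_lit 3) (C.cons (nat_lit 1037) (C.ref (nat_lit 242) (nat_lit 11649936536080)) (C.cons (nat_lit 525) (C.ref (nat_lit 242) (nat_lit 10619144385040)) (C.cons (nat_lit 13) (C.node (nat_lit 0) (nat_lit 2) (nat_lit 9) (C.cons (nat_lit 581) (C.node (nat_lit 0) (nat_lit 2) (nat_lit 10) C.nil) C.nil)) C.nil)))) (C.cons (nat_lit 261) (C.node (nat_lit 0) (nat_lit 4) (nat_lit 8) C.nil) C.nil))) (C.cons (nat_lit 269) (C.node (nat_lit 0) (nat_lit 4) (nat_lit 8) (C.cons (nat_lit 337) (C.node (nat_lit 0) (nat_lit 2) (nat_lit 4) (C.cons (nat_lit 1045) (C.ref (nat_lit 242) (nat_lit 11649936474640)) (C.cons (nat_lit 533) (C.ref (nat_lit 242) (nat_lit 10619144323600)) (C.cons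 (nat_lit 21) (C.node (nat_lit 0) (nat_lit 2) (nat_lit 9) (C.cons (nat_lit 581) (C.node (nat_lit 0) (nat_lit 2) (nat_lit 10) C.nil) C.nil)) C.nil)))) (C.cons (nat_lit 273) (C.node (nat_lit 0) (nat_lit 6) (nat_lit 8) C.nil) C.nil))) (C.cons (nat_lit 265) (C.node (nat_lit 0) (nat_lit 2) (nat_lit 8) (C.cons (nat_lit 325) (C.node (nat_lit 0) (nat_lit 4) (nat_lit 8) C.nil) (C.cons (nat_lit 277) (C.node (nat_lit 0) (nat_lit 6) (nat_lit 8) C.nil) C.nil))) C.nil)))) C.nil)) (C.cons (nat_lit 11) (C.node (nat_lit 0) (nat_lit 1) (nat_lit 4) (C.cons (nat_lit 1043) (C.ref (nat_lit 234) (nat_lit 10619144385040)) (C.cons (nat_lit 19) (C.node (nat_lit 0) (nat_lit 1) (nat_lit 10) C.nil) C.nil))) C.nil)))) C.nil))))) C.nil))))) (List.cons (C.node (nat_lit 0) (nat_lit 1) (nat_lit 3) (C.cons (nat_lit 523) (C.node (nat_lit 0) (nat_lit 1) (nat_lit 5) (C.cons (nat_lit 35) (C.node (nat_lit 0) (nat_lit 2) (nat_lit 3) (C.cons (nat_lit 29) (C.node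 (nat_lit 0) (nat_lit 2) (nat_lit 9) (C.cons (nat_lit 517) (C.ref (nat_lit 236) (nat_lit 10619128594720)) C.nil)) (C.cons (nat_lit 13) (C.node (nat_lit 0) (nat_lit 2) (nat_lit 4) (C.cons (nat_lit 533) (C.node (nat_lit 0) (nat_lit 5) (nat_lit 9) (C.cons (nat_lit 609) (C.node (nat_lit 0) (nat_lit 5) (nat_lit 3) (C.cons (nat_lit 1065) (C.node (nat_lit 0) (nat_lit 5) (nat_lit 4) C.nil) (C.cons (nat_lit 57) (C.node (nat_lit 0) (nat_lit 5) (nat_lit 10) C.nil) C.nil))) C.nil)) C.nil)) C.nil))) C.nil)) (C.cons (nat_lit 43) (C.node (nat_lit 0) (nat_lit 1) (nat_lit 9) (C.cons (nat_lit 515)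
  (C.ref (nat_lit 237) (nat_lit 10615085290000)) C.nil)) (C.cons (nat_lit 11) (C.node (nat_lit 0) (nat_lit 1) (nat_lit 5) (C.cons (nat_lit 547) (C.ref (nat_lit 227) (nat_lit 11585512026640)) (C.cons (nat_lit 35) (C.node (nat_lit 0) (nat_lit 1) (nat_lit 9) C.nil) C.nil))) C.nil)))) (List.cons (C.node (nat_lit 0) (nat_lit 2) (nat_lit 9) (C.cons (nat_lit 533) (C.node (nat_lit 0) (nat_lit 2) (nat_lit 10) (C.cons (nat_lit 1029) (C.node (nat_lit 0) (nat_lit 3) (nat_lit 9) (C.cons (nat_lit 585) (C.node (nat_lit 0) (nat_lit 3) (nat_lit 4) (C.cons (nat_lit 1049) (C.node (nat_lit 0) (nat_lit 3) (nat_lit 5) C.nil) (C.cons (nat_lit 57) (C.pat (nat_lit 2) (nat_lit 19450467105) (nat_lit 1271198624594326182255673157899599820654315393)) C.nil))) C.nil)) C.nil)) (C.cons (nat_lit 517) (C.node (nat_lit 0) (nat_lit 2) (nat_lit 4) (C.cons (nat_lit 1045) (C.node (nat_lit 0) (nat_lit 3) (nat_lit 9) (C.cons (nat_lit 585) (C.node (nat_lit 0)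 (nat_lit 4) (nat_lit 9) C.nil) (C.cons (nat_lit 537) (C.node (nat_lit 0) (nat_lit 6) (nat_lit 9) C.nil) C.nil))) C.nil)) C.nil))) (List.cons (C.node (nat_lit 0) (nat_lit 2) (nat_lit 10) (C.cons (nat_lit 1045) (C.node (nat_lit 0) (nat_lit 2) (nat_lit 3) (C.cons (nat_lit 525) (C.node (nat_lit 0) (nat_lit 4) (nat_lit 9) (C.cons (nat_lit 593) (C.node (nat_lit 0) (nat_lit 3) (nat_lit 4) (C.cons (nat_lit 57) (C.node (nat_lit 0) (nat_lit 3) (nat_lit 6) (C.cons (nat_lit 73) (C.node (nat_lit 0) (nat_lit 6) (nat_lit 5) (C.cons (nat_lit 1121) (C.pat (nat_lit 2) (nat_lit 34680972948) (nat_lit 7247920840605424593966378241536985994691150859)) C.nil)) C.nil)) (C.cons (nat_lit 25) (C.node (nat_lit 0) (nat_lit 4) (nat_lit 5) C.nil) C.nil))) (C.cons (nat_lit 529) (C.node (nat_lit 0) (nat_lit 6) (nat_lit 9) C.nil) C.nil))) (C.cons (nat_lit 13) (C.node (nat_lit 0) (nat_lit 2) (nat_lit 9) C.nil) C.nil))) (C.cons (nat_lit 1029) (C.node (nat_lit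 0) (nat_lit 2) (nat_lit 3) (C.cons (nat_lit 525) (C.node (nat_lit 0) (nat_lit 2) (nat_lit 4) C.nil) (C.cons (nat_lit 29) (C.node (nat_lit 0) (nat_lit 2) (nat_lit 9) C.nil) C.nil))) C.nil))) (List.cons (C.node (nat_lit 0) (nat_lit 1) (nat_lit 2) (C.cons (nat_lit 1031) (C.ref (nat_lit 244) (nat_lit 11649936536080)) (C.cons (nat_lit 519) (C.ref (nat_lit 244) (nat_lit 10619144385040)) (C.cons (nat_lit 15) (C.node (nat_lit 0) (nat_lit 1) (nat_lit 9) (C.cons (nat_lit 547) (C.node (nat_lit 0) (nat_lit 1) (nat_lit 10) (C.cons (nat_lit 1027) (C.ref (nat_lit 245) (nat_lit 11649936536080)) C.nil)) (C.cons (nat_lit 515) (C.node (nat_lit 0) (nat_lit 1) (nat_lit 5) (C.cons (nat_lit 1059) (C.ref (nat_lit 245) (nat_lit 10619144385040)) (C.cons (nat_lit 35) (C.node (nat_lit 0) (nat_lit 1) (nat_lit 10) C.nil) C.nil))) C.nil))) (C.cons (nat_lit 7) (C.node (nat_lit 0) (nat_lit 1) (nat_lit 9) (C.cons (nat_lit 547) (C.node (nat_lit 0) (nat_lit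 1) (nat_lit 3) (C.cons (nat_lit 1035) (C.ref (nat_lit 246) (nat_lit 11649936536080)) (C.cons (nat_lit 11) (C.node (nat_lit 0) (nat_lit 1) (nat_lit 10) C.nil) C.nil))) (C.cons (nat_lit 523) (C.node (nat_lit 0) (nat_lit 1) (nat_lit 5) (C.cons (nat_lit 1059) (C.ref (nat_lit 246) (nat_lit 10619144385040)) (C.cons (nat_lit 35) (C.node (nat_lit 0) (nat_lit 1) (nat_lit 10) C.nil) C.nil))) (C.cons (nat_lit 515) (C.node (nat_lit 0) (nat_lit 1) (nat_lit 3) (C.cons (nat_lit 1035) (C.node (nat_lit 0) (nat_lit 1) (nat_lit 5) C.nil) (C.cons (nat_lit 43) (C.node (nat_lit 0) (nat_lit 1) (nat_lit 10) C.nil) C.nil))) C.nil)))) C.nil))))) (List.cons (C.node (nat_lit 0) (nat_lit 1) (nat_lit 3) (C.cons (nat_lit 523) (C.node (nat_lit 0) (nat_lit 1) (nat_lit 5) (C.cons (nat_lit 35) (C.ref (nat_lit 228) (nat_lit 11517025473040)) C.nil)) (C.cons (nat_lit 43) (C.node (nat_lit 0) (nat_lit 1) (nat_lit 9) (C.cons (nat_lit 515) (C.node (nat_lit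 0) (nat_lit 2) (nat_lit 4) (C.cons (nat_lit 533) (C.node (nat_lit 0) (nat_lit 2) (nat_lit 6) (C.cons (nat_lit 69) (C.node (nat_lit 0) (nat_lit 5) (nat_lit 9) (C.cons (nat_lit 609) (C.node (nat_lit 0) (nat_lit 3) (nat_lit 9) C.nil) C.nil)) C.nil))
  (C.cons (nat_lit 85) (C.node (nat_lit 0) (nat_lit 2) (nat_lit 9) (C.cons (nat_lit 517) (C.node (nat_lit 0) (nat_lit 3) (nat_lit 4) (C.cons (nat_lit 1049) (C.node (nat_lit 0) (nat_lit 3) (nat_lit 6) (C.cons (nat_lit 585) (C.node (nat_lit 0) (nat_lit 4) (nat_lit 5) (C.cons (nat_lit 561) (C.node (nat_lit 0) (nat_lit 5) (nat_lit 6) (C.cons (nat_lit 1121) (C.pat (nat_lit 3) (nat_lit 31516215841) (nat_lit 42840112983767395722209784893310658097536238599)) C.nil)) C.nil)) C.nil)) (C.cons (nat_lit 537) (C.node (nat_lit 0) (nat_lit 3) (nat_lit 6) (C.cons (nat_lit 1097) (C.node (nat_lit 0) (nat_lit 4) (nat_lit 5) (C.cons (nat_lit 1073) (C.node (nat_lit 0) (nat_lit 5) (nat_lit 6) (C.cons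 (nat_lit 609) (C.pat (nat_lit 2) (nat_lit 21783685443) (nat_lit 13581182751334304423202449511130027515105051655)) C.nil)) C.nil)) C.nil)) C.nil))) C.nil)) (C.cons (nat_lit 21) (C.node (nat_lit 0) (nat_lit 2) (nat_lit 6) (C.cons (nat_lit 581) (C.node (nat_lit 0) (nat_lit 3) (nat_lit 9) (C.cons (nat_lit 537) (C.node (nat_lit 0) (nat_lit 5) (nat_lit 9) C.nil) C.nil)) C.nil)) C.nil)))) C.nil)) (C.cons (nat_lit 11) (C.node (nat_lit 0) (nat_lit 1) (nat_lit 5) (C.cons (nat_lit 547) (C.ref (nat_lit 228) (nat_lit 11585512026640)) (C.cons (nat_lit 35) (C.node (nat_lit 0) (nat_lit 1) (nat_lit 9) C.nil) C.nil))) C.nil)))) (List.cons (C.node (nat_lit 0) (nat_lit 1) (nat_lit 2) (C.cons (nat_lit 1031) (C.ref (nat_lit 248) (nat_lit 11649936536080)) (C.cons (nat_lit 519) (C.ref (nat_lit 248) (nat_lit 10619144385040)) (C.cons (nat_lit 7) (C.node (nat_lit 0) (nat_lit 1) (nat_lit 9) (C.cons (nat_lit 547) (C.node (nat_lit 0) (nat_lit 1)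 (nat_lit 3) (C.cons (nat_lit 1035) (C.ref (nat_lit 233) (nat_lit 11585512026640)) (C.cons (nat_lit 11) (C.node (nat_lit 0) (nat_lit 1) (nat_lit 10) C.nil) C.nil))) (C.cons (nat_lit 523) (C.node (nat_lit 0) (nat_lit 1) (nat_lit 5) (C.cons (nat_lit 1059) (C.ref (nat_lit 233) (nat_lit 11517025473040)) (C.cons (nat_lit 35) (C.node (nat_lit 0) (nat_lit 1) (nat_lit 10) C.nil) C.nil))) (C.cons (nat_lit 515) (C.node (nat_lit 0) (nat_lit 1) (nat_lit 3) (C.cons (nat_lit 1035) (C.node (nat_lit 0) (nat_lit 1) (nat_lit 5) C.nil) (C.cons (nat_lit 43) (C.node (nat_lit 0) (nat_lit 1) (nat_lit 10) C.nil) C.nil))) C.nil)))) C.nil)))) (List.cons (C.node (nat_lit 0) (nat_lit 2) (nat_lit 3) (C.cons (nat_lit 29) (C.node (nat_lit 0) (nat_lit 2) (nat_lit 6) (C.cons (nat_lit 581) (C.node (nat_lit 0) (nat_lit 3) (nat_lit 5) (C.cons (nat_lit 1065) (C.node (nat_lit 0) (nat_lit 4) (nat_lit 9) (C.cons (nat_lit 561) (C.node (nat_lit 0) (nat_lit 5)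 (nat_lit 6) (C.cons (nat_lit 97) (C.node (nat_lit 0) (nat_lit 4) (nat_lit 6) (C.cons (nat_lit 1105) (C.pat (nat_lit 1) (nat_lit 1787046193) (nat_lit 5353345608601450865152919943392331649)) C.nil)) C.nil)) (C.cons (nat_lit 529) (C.node (nat_lit 0) (nat_lit 5) (nat_lit 9) C.nil) C.nil))) (C.cons (nat_lit 41) (C.node (nat_lit 0) (nat_lit 3) (nat_lit 10) C.nil) C.nil))) (C.cons (nat_lit 69) (C.node (nat_lit 0) (nat_lit 2) (nat_lit 9) C.nil) C.nil))) (C.cons (nat_lit 13) (C.node (nat_lit 0) (nat_lit 2) (nat_lit 4) (C.cons (nat_lit 533) (C.node (nat_lit 0) (nat_lit 2) (nat_lit 6) C.nil) (C.cons (nat_lit 85) (C.node (nat_lit 0) (nat_lit 2) (nat_lit 9) C.nil) C.nil))) C.nil))) (List.cons (C.node (nat_lit 0) (nat_lit 3) (nat_lit 10) (C.cons (nat_lit 1049) (C.node (nat_lit 0) (nat_lit 2) (nat_lit 3) (C.cons (nat_lit 525) (C.node (nat_lit 0) (nat_lit 2) (nat_lit 4) (C.cons (nat_lit 85) (C.node (nat_lit 0) (nat_lit 4) (nat_lit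 5) (C.cons (nat_lit 561) (C.node (nat_lit 0) (nat_lit 6) (nat_lit 9) (C.cons (nat_lit 577) (C.node (nat_lit 0) (nat_lit 5) (nat_lit 6) (C.cons (nat_lit 1121) (C.pat (nat_lit 2) (nat_lit 22349916001) (nat_lit 3679651883467095581673271974704694864707257369)) C.nil)) C.nil)) (C.cons (nat_lit 49) (C.node (nat_lit 0) (nat_lit 4) (nat_lit 9) C.nil) C.nil))) (C.cons (nat_lit 21) (C.node (nat_lit 0) (nat_lit 2) (nat_lit 6) C.nil) C.nil))) (C.cons (nat_lit 13) (C.node (nat_lit 0) (nat_lit 3) (nat_lit 9) C.nil) C.nil)))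
  (C.cons (nat_lit 1033) (C.node (nat_lit 0) (nat_lit 2) (nat_lit 3) (C.cons (nat_lit 525) (C.node (nat_lit 0) (nat_lit 3) (nat_lit 4) C.nil) (C.cons (nat_lit 29) (C.node (nat_lit 0) (nat_lit 3) (nat_lit 9) C.nil) C.nil))) C.nil))) (List.cons (C.node (nat_lit 0) (nat_lit 1) (nat_lit 3) (C.cons (nat_lit 523) (C.node (nat_lit 0) (nat_lit 1) (nat_lit 5) (C.cons (nat_lit 35) (C.ref (nat_lit 250) (nat_lit 11649936536080)) C.nil)) (C.cons (nat_lit 43) (C.node (nat_lit 0) (nat_lit 1) (nat_lit 9) (C.cons (nat_lit 515) (C.ref (nat_lit 251) (nat_lit 11649936536080)) C.nil)) (C.cons (nat_lit 11) (C.node (nat_lit 0) (nat_lit 1) (nat_lit 5) (C.cons (nat_lit 547) (C.ref (nat_lit 229) (nat_lit 11585512026640)) (C.cons (nat_lit 35) (C.node (nat_lit 0) (nat_lit 1) (nat_lit 9) C.nil) C.nil))) C.nil)))) (List.cons (C.node (nat_lit 0) (nat_lit 1) (nat_lit 2) (C.cons (nat_lit 1031) (C.ref (nat_lit 252) (nat_lit 11649936536080)) (C.cons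 (nat_lit 519) (C.ref (nat_lit 252) (nat_lit 10619144385040)) (C.cons (nat_lit 15) (C.node (nat_lit 0) (nat_lit 1) (nat_lit 9) (C.cons (nat_lit 547) (C.node (nat_lit 0) (nat_lit 1) (nat_lit 10) (C.cons (nat_lit 1027) (C.ref (nat_lit 251) (nat_lit 10619141240080)) C.nil)) (C.cons (nat_lit 515) (C.node (nat_lit 0) (nat_lit 1) (nat_lit 5) (C.cons (nat_lit 1059) (C.ref (nat_lit 251) (nat_lit 11649933391120)) (C.cons (nat_lit 35) (C.node (nat_lit 0) (nat_lit 1) (nat_lit 10) C.nil) C.nil))) C.nil))) (C.cons (nat_lit 7) (C.node (nat_lit 0) (nat_lit 1) (nat_lit 9) (C.cons (nat_lit 547) (C.node (nat_lit 0) (nat_lit 1) (nat_lit 3) (C.cons (nat_lit 1035) (C.ref (nat_lit 250) (nat_lit 10619141240080)) (C.cons (nat_lit 11) (C.node (nat_lit 0) (nat_lit 1) (nat_lit 10) C.nil) C.nil))) (C.cons (nat_lit 523) (C.node (nat_lit 0) (nat_lit 1) (nat_lit 5) (C.cons (nat_lit 1059) (C.ref (nat_lit 250) (nat_lit 11649933391120)) (C.cons (nat_lit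 35) (C.node (nat_lit 0) (nat_lit 1) (nat_lit 10) C.nil) C.nil))) (C.cons (nat_lit 515) (C.node (nat_lit 0) (nat_lit 1) (nat_lit 3) (C.cons (nat_lit 1035) (C.node (nat_lit 0) (nat_lit 1) (nat_lit 5) C.nil) (C.cons (nat_lit 43) (C.node (nat_lit 0) (nat_lit 1) (nat_lit 10) C.nil) C.nil))) C.nil)))) C.nil))))) (List.cons (C.node (nat_lit 0) (nat_lit 1) (nat_lit 2) (C.cons (nat_lit 1031) (C.node (nat_lit 0) (nat_lit 1) (nat_lit 3) (C.cons (nat_lit 523) (C.node (nat_lit 0) (nat_lit 1) (nat_lit 5) C.nil) (C.cons (nat_lit 43) (C.node (nat_lit 0) (nat_lit 1) (nat_lit 9) C.nil) C.nil))) (C.cons (nat_lit 519) (C.node (nat_lit 0) (nat_lit 1) (nat_lit 3) (C.cons (nat_lit 1035) (C.node (nat_lit 0) (nat_lit 1) (nat_lit 5) C.nil) (C.cons (nat_lit 43) (C.node (nat_lit 0) (nat_lit 1) (nat_lit 10) C.nil) C.nil))) (C.cons (nat_lit 15) (C.node (nat_lit 0) (nat_lit 1) (nat_lit 9) (C.cons (nat_lit 547) (C.node (nat_lit 0) (nat_lit 1) (nat_lit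 10) C.nil) C.nil)) C.nil)))) (List.cons (C.node (nat_lit 0) (nat_lit 3) (nat_lit 8) (C.cons (nat_lit 329) (C.node (nat_lit 0) (nat_lit 5) (nat_lit 8) (C.cons (nat_lit 289) (C.ref (nat_lit 253) (nat_lit 11649936536080)) C.nil)) (C.cons (nat_lit 297) (C.node (nat_lit 0) (nat_lit 6) (nat_lit 8) (C.cons (nat_lit 321) (C.ref (nat_lit 249) (nat_lit 11649933391120)) C.nil)) (C.cons (nat_lit 265) (C.node (nat_lit 0) (nat_lit 5) (nat_lit 8) (C.cons (nat_lit 353) (C.ref (nat_lit 247) (nat_lit 11649933391120)) (C.cons (nat_lit 289) (C.node (nat_lit 0) (nat_lit 6) (nat_lit 8) (C.cons (nat_lit 321) (C.ref (nat_lit 254) (nat_lit 11649936536080)) C.nil)) C.nil))) C.nil)))) (List.cons (C.node (nat_lit 0) (nat_lit 2) (nat_lit 8) (C.cons (nat_lit 325) (C.node (nat_lit 0) (nat_lit 3) (nat_lit 8) (C.cons (nat_lit 297) (C.ref (nat_lit 207) (nat_lit 11645909996320)) (C.cons (nat_lit 265) (C.node (nat_lit 0) (nat_lit 5) (nat_lit 8) (C.cons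 (nat_lit 289) (C.ref (nat_lit 247) (nat_lit 11649936536080)) C.nil)) C.nil))) (C.cons (nat_lit 269) (C.node (nat_lit 0) (nat_lit 5) (nat_lit 8) (C.cons (nat_lit 353) (C.ref (nat_lit 207) (nat_lit 11645906850640)) (C.cons (nat_lit 289)
  (C.node (nat_lit 0) (nat_lit 6) (nat_lit 8) (C.cons (nat_lit 321) (C.ref (nat_lit 249) (nat_lit 11649936536080)) C.nil)) C.nil))) (C.cons (nat_lit 261) (C.ref (nat_lit 255) (nat_lit 11649936536080)) C.nil)))) (List.cons (C.node (nat_lit 0) (nat_lit 2) (nat_lit 9) (C.cons (nat_lit 533) (C.node (nat_lit 0) (nat_lit 1) (nat_lit 2) (C.cons (nat_lit 1031) (C.node (nat_lit 0) (nat_lit 2) (nat_lit 3) C.nil) (C.cons (nat_lit 15) (C.node (nat_lit 0) (nat_lit 2) (nat_lit 10) C.nil) C.nil))) (C.cons (nat_lit 525) (C.node (nat_lit 0) (nat_lit 1) (nat_lit 2) (C.cons (nat_lit 1031) (C.node (nat_lit 0) (nat_lit 2) (nat_lit 4) C.nil) (C.cons (nat_lit 23) (C.node (nat_lit 0) (nat_lit 2) (nat_lit 10)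 C.nil) C.nil))) (C.cons (nat_lit 519) (C.node (nat_lit 0) (nat_lit 2) (nat_lit 3) (C.cons (nat_lit 1037) (C.node (nat_lit 0) (nat_lit 2) (nat_lit 4) C.nil) (C.cons (nat_lit 29) (C.node (nat_lit 0) (nat_lit 2) (nat_lit 10) C.nil) C.nil))) C.nil)))) (List.cons (C.node (nat_lit 0) (nat_lit 2) (nat_lit 3) (C.cons (nat_lit 77) (C.node (nat_lit 0) (nat_lit 2) (nat_lit 4) (C.cons (nat_lit 533) (C.node (nat_lit 0) (nat_lit 3) (nat_lit 5) (C.cons (nat_lit 1065) (C.node (nat_lit 0) (nat_lit 4) (nat_lit 6) (C.cons (nat_lit 1105) (C.node (nat_lit 0) (nat_lit 5) (nat_lit 6) (C.cons (nat_lit 609) (C.pat (nat_lit 1) (nat_lit 1500920353) (nat_lit 2715619507200446217356783037461628801)) C.nil)) C.nil)) C.nil)) C.nil)) C.nil)) (List.cons (C.node (nat_lit 0) (nat_lit 1) (nat_lit 8) (C.cons (nat_lit 291) (C.ref (nat_lit 243) (nat_lit 11649936536080)) (C.cons (nat_lit 275) (C.ref (nat_lit 256) (nat_lit 11649936536080)) (C.cons (nat_lit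 267) (C.ref (nat_lit 256) (nat_lit 11649936474640)) (C.cons (nat_lit 263) (C.ref (nat_lit 243) (nat_lit 11649933391120)) (C.cons (nat_lit 259) (C.node (nat_lit 0) (nat_lit 2) (nat_lit 8) (C.cons (nat_lit 325) (C.node (nat_lit 0) (nat_lit 3) (nat_lit 8) (C.cons (nat_lit 297) (C.node (nat_lit 0) (nat_lit 4) (nat_lit 8) (C.cons (nat_lit 273) (C.ref (nat_lit 247) (nat_lit 11649865172560)) C.nil)) (C.cons (nat_lit 281) (C.node (nat_lit 0) (nat_lit 5) (nat_lit 8) (C.cons (nat_lit 289) (C.ref (nat_lit 253) (nat_lit 11645909013280)) C.nil)) (C.cons (nat_lit 265) (C.node (nat_lit 0) (nat_lit 4) (nat_lit 8) (C.cons (nat_lit 305) (C.ref (nat_lit 247) (nat_lit 11649865234000)) (C.cons (nat_lit 273) (C.node (nat_lit 0) (nat_lit 5) (nat_lit 8) (C.cons (nat_lit 289) (C.ref (nat_lit 257) (nat_lit 11649936536080)) C.nil)) C.nil))) C.nil)))) (C.cons (nat_lit 277) (C.ref (nat_lit 255) (nat_lit 11649920807200)) (C.cons (nat_lit 269) (C.ref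 (nat_lit 255) (nat_lit 11649920745760)) (C.cons (nat_lit 261) (C.node (nat_lit 0) (nat_lit 3) (nat_lit 8) (C.cons (nat_lit 329) (C.node (nat_lit 0) (nat_lit 4) (nat_lit 8) (C.cons (nat_lit 305) (C.ref (nat_lit 249) (nat_lit 11649865234000)) (C.cons (nat_lit 273) (C.node (nat_lit 0) (nat_lit 5) (nat_lit 8) (C.cons (nat_lit 289) (C.ref (nat_lit 254) (nat_lit 11649852588640)) C.nil)) C.nil))) (C.cons (nat_lit 297) (C.node (nat_lit 0) (nat_lit 4) (nat_lit 8) (C.cons (nat_lit 337) (C.ref (nat_lit 249) (nat_lit 11649849505120)) (C.cons (nat_lit 273) (C.node (nat_lit 0) (nat_lit 6) (nat_lit 8) (C.cons (nat_lit 321) (C.ref (nat_lit 254) (nat_lit 11649870414160)) C.nil)) C.nil))) (C.cons (nat_lit 281) (C.node (nat_lit 0) (nat_lit 5) (nat_lit 8) (C.cons (nat_lit 353) (C.ref (nat_lit 253) (nat_lit 11645908816720)) (C.cons (nat_lit 289) (C.node (nat_lit 0) (nat_lit 6) (nat_lit 8) (C.cons (nat_lit 321) (C.node (nat_lit 0) (nat_lit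 1) (nat_lit 2) (C.cons (nat_lit 1031) (C.node (nat_lit 0) (nat_lit 1) (nat_lit 3) (C.cons (nat_lit 523) (C.node (nat_lit 0) (nat_lit 1) (nat_lit 4) (C.cons (nat_lit 51) (C.ref (nat_lit 258) (nat_lit 11649936536080)) C.nil)) (C.cons (nat_lit 43) (C.node (nat_lit 0) (nat_lit 1) (nat_lit 4) (C.cons (nat_lit 531) (C.ref (nat_lit 258) (nat_lit 11649936474640)) C.nil)) C.nil))) (C.cons (nat_lit 519) (C.node (nat_lit 0) (nat_lit 1) (nat_lit 3) (C.cons (nat_lit 1035) (C.node (nat_lit 0) (nat_lit 1) (nat_lit 4)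
  (C.cons (nat_lit 51) (C.ref (nat_lit 258) (nat_lit 10619144385040)) C.nil)) (C.cons (nat_lit 43) (C.node (nat_lit 0) (nat_lit 1) (nat_lit 4) (C.cons (nat_lit 1043) (C.ref (nat_lit 258) (nat_lit 10619144323600)) C.nil)) C.nil))) (C.cons (nat_lit 23) (C.node (nat_lit 0) (nat_lit 1) (nat_lit 9) (C.cons (nat_lit 547) (C.node (nat_lit 0) (nat_lit 1) (nat_lit 3) (C.cons (nat_lit 1035) (C.ref (nat_lit 258) (nat_lit 10619141240080)) C.nil)) (C.cons (nat_lit 523) (C.node (nat_lit 0) (nat_lit 1) (nat_lit 5) (C.cons (nat_lit 1059) (C.ref (nat_lit 258) (nat_lit 11649933391120)) C.nil)) C.nil))) (C.cons (nat_lit 15) (C.node (nat_lit 0) (nat_lit 1) (nat_lit 9) (C.cons (nat_lit 547) (C.node (nat_lit 0) (nat_lit 1) (nat_lit 4) (C.cons (nat_lit 1043) (C.ref (nat_lit 258) (nat_lit 10619141178640)) C.nil)) (C.cons (nat_lit 531) (C.node (nat_lit 0) (nat_lit 1) (nat_lit 5) (C.cons (nat_lit 1059) (C.ref (nat_lit 258) (nat_lit 11649933329680))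 C.nil)) C.nil))) C.nil))))) C.nil)) C.nil))) (C.cons (nat_lit 265) (C.node (nat_lit 0) (nat_lit 4) (nat_lit 8) (C.cons (nat_lit 337) (C.node (nat_lit 0) (nat_lit 5) (nat_lit 8) (C.cons (nat_lit 289) (C.ref (nat_lit 254) (nat_lit 11649852650080)) C.nil)) (C.cons (nat_lit 305) (C.node (nat_lit 0) (nat_lit 6) (nat_lit 8) (C.cons (nat_lit 321) (C.ref (nat_lit 254) (nat_lit 11649870475600)) C.nil)) (C.cons (nat_lit 273) (C.node (nat_lit 0) (nat_lit 5) (nat_lit 8) (C.cons (nat_lit 353) (C.ref (nat_lit 257) (nat_lit 11649933391120)) C.nil)) C.nil)))) C.nil))))) C.nil))))) C.nil)))))) (List.cons (C.node (nat_lit 0) (nat_lit 3) (nat_lit 7) (C.cons (nat_lit 153) (C.node (nat_lit 0) (nat_lit 1) (nat_lit 8) (C.cons (nat_lit 291) (C.ref (nat_lit 223) (nat_lit 11649936536080)) (C.cons (nat_lit 275) (C.ref (nat_lit 223) (nat_lit 11649935549200)) (C.cons (nat_lit 267) (C.ref (nat_lit 223) (nat_lit 11649934500880)) (C.cons (nat_lit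 263) (C.ref (nat_lit 223) (nat_lit 11649933391120)) (C.cons (nat_lit 259) (C.node (nat_lit 0) (nat_lit 2) (nat_lit 8) (C.cons (nat_lit 325) (C.node (nat_lit 0) (nat_lit 3) (nat_lit 8) (C.cons (nat_lit 297) (C.node (nat_lit 0) (nat_lit 4) (nat_lit 8) (C.cons (nat_lit 273) (C.ref (nat_lit 207) (nat_lit 11649920807200)) C.nil)) (C.cons (nat_lit 265) (C.ref (nat_lit 221) (nat_lit 11649920807200)) C.nil))) (C.cons (nat_lit 277) (C.ref (nat_lit 222) (nat_lit 11649918833440)) (C.cons (nat_lit 269) (C.ref (nat_lit 222) (nat_lit 11649917785120)) (C.cons (nat_lit 261) (C.node (nat_lit 0) (nat_lit 3) (nat_lit 8) (C.cons (nat_lit 329) (C.ref (nat_lit 221) (nat_lit 11649904091440)) (C.cons (nat_lit 297) (C.ref (nat_lit 221) (nat_lit 11649903104560)) (C.cons (nat_lit 265) (C.node (nat_lit 0) (nat_lit 4) (nat_lit 8) (C.cons (nat_lit 337) (C.node (nat_lit 0) (nat_lit 5) (nat_lit 8) (C.cons (nat_lit 289) (C.ref (nat_lit 220) (nat_lit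 11649887314240)) C.nil)) (C.cons (nat_lit 305) (C.node (nat_lit 0) (nat_lit 6) (nat_lit 8) (C.cons (nat_lit 321) (C.ref (nat_lit 220) (nat_lit 11649886327360)) C.nil)) (C.cons (nat_lit 273) (C.node (nat_lit 0) (nat_lit 5) (nat_lit 8) (C.cons (nat_lit 353) (C.ref (nat_lit 220) (nat_lit 11649870475600)) (C.cons (nat_lit 289) (C.node (nat_lit 0) (nat_lit 6) (nat_lit 8) (C.cons (nat_lit 321) (C.ref (nat_lit 226) (nat_lit 11649936536080)) C.nil)) C.nil))) C.nil)))) C.nil)))) C.nil))))) C.nil)))))) (C.cons (nat_lit 137) (C.node (nat_lit 0) (nat_lit 4) (nat_lit 7) (C.cons (nat_lit 145) (C.ref (nat_lit 259) (nat_lit 11649936536080)) C.nil)) C.nil))) List.nil))))))))))))))))))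

theorem ok11_243 : okL par11 (nat_lit 261) c11_243 (nat_lit 243) = true := by decide +kernel

noncomputable def c11_261 : List C :=
  (List.cons (C.node (nat_lit 0) (nat_lit 2) (nat_lit 8) (C.cons (nat_lit 325) (C.node (nat_lit 0) (nat_lit 3) (nat_lit 8) (C.cons (nat_lit 281) (C.ref (nat_lit 216) (nat_lit 10615102063120)) (C.cons (nat_lit 265) (C.node (nat_lit 0) (nat_lit 4) (nat_lit 8) C.nil) C.nil))) (C.cons (nat_lit 277) (C.node (nat_lit 0) (nat_lit 3) (nat_lit 8) (C.cons (nat_lit 329) (C.ref (nat_lit 218) (nat_lit 11645894271760)) (C.cons (nat_lit 265) (C.node (nat_lit 0) (nat_lit 6) (nat_lit 8) C.nil) C.nil))) (C.cons (nat_lit 269) (C.node (nat_lit 0) (nat_lit 4) (nat_lit 8) (C.cons (nat_lit 337) (C.ref (nat_lit 216) (nat_lit 11645894206480)) (C.cons (nat_lit 273) (C.node (nat_lit 0) (nat_lit 6) (nat_lit 8) C.nil) C.nil))) (C.cons (nat_lit 261) (C.node (nat_lit 0) (nat_lit 3) (nat_lit 8) (C.cons (nat_lit 329)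 (C.node (nat_lit 0) (nat_lit 4) (nat_lit 8) C.nil) (C.cons (nat_lit 281) (C.node (nat_lit 0) (nat_lit 6) (nat_lit 8) C.nil) C.nil))) C.nil))))) (List.cons (C.node (nat_lit 0) (nat_lit 2) (nat_lit 8) (C.cons (nat_lit 325) (C.node (nat_lit 0) (nat_lit 2) (nat_lit 9) (C.cons (nat_lit 549) (C.node (nat_lit 0) (nat_lit 2) (nat_lit 4) (C.cons (nat_lit 1045) (C.node (nat_lit 0) (nat_lit 3) (nat_lit 8) (C.cons (nat_lit 281) (C.node (nat_lit 0) (nat_lit 4) (nat_lit 6) (C.cons (nat_lit 113) (C.node (nat_lit 0) (nat_lit 3) (nat_lit 5) (C.cons (nat_lit 1065) (C.pat (nat_lit 1) (nat_lit 2823377697) (nat_lit 1511110583775783997986839637296218393)) (C.cons (nat_lit 41) (C.node (nat_lit 0) (nat_lit 5) (nat_lit 10) C.nil) C.nil))) (C.cons (nat_lit 81) (C.node (nat_lit 0) (nat_lit 4) (nat_lit 5) C.nil) C.nil))) (C.cons (nat_lit 265) (C.node (nat_lit 0) (nat_lit 4) (nat_lit 8) C.nil) C.nil))) (C.cons (nat_lit 21) (C.node (nat_lit 0) (nat_lit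 2) (nat_lit 10) C.nil) C.nil))) (C.cons (nat_lit 517) (C.node (nat_lit 0) (nat_lit 3) (nat_lit 8) (C.cons (nat_lit 281) (C.node (nat_lit 0) (nat_lit 2) (nat_lit 4) (C.cons (nat_lit 1045) (C.node (nat_lit 0) (nat_lit 2) (nat_lit 5) C.nil) (C.cons (nat_lit 53) (C.node (nat_lit 0) (nat_lit 2) (nat_lit 10) C.nil) C.nil))) C.nil)) C.nil))) (C.cons (nat_lit 277) (C.node (nat_lit 0) (nat_lit 3) (nat_lit 8) (C.cons (nat_lit 329) (C.ref (nat_lit 217) (nat_lit 10615101997840)) (C.cons (nat_lit 265) (C.node (nat_lit 0) (nat_lit 6) (nat_lit 8) C.nil) C.nil))) (C.cons (nat_lit 261) (C.node (nat_lit 0) (nat_lit 2) (nat_lit 9) (C.cons (nat_lit 581) (C.node (nat_lit 0) (nat_lit 3) (nat_lit 9) (C.cons (nat_lit 553) (C.node (nat_lit 0) (nat_lit 2) (nat_lit 5) (C.cons (nat_lit 1061) (C.node (nat_lit 0) (nat_lit 2) (nat_lit 4) C.nil) (C.cons (nat_lit 53) (C.node (nat_lit 0) (nat_lit 2) (nat_lit 10) C.nil) C.nil))) C.nil)) (C.cons (nat_lit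 549) (C.node (nat_lit 0) (nat_lit 3) (nat_lit 9) (C.cons (nat_lit 585) (C.node (nat_lit 0) (nat_lit 3) (nat_lit 8) (C.cons (nat_lit 281) (C.node (nat_lit 0) (nat_lit 6) (nat_lit 8) C.nil) C.nil)) C.nil)) C.nil))) C.nil)))) (List.cons (C.node (nat_lit 0) (nat_lit 1) (nat_lit 2) (C.cons (nat_lit 1031) (C.node (nat_lit 0) (nat_lit 1) (nat_lit 3) (C.cons (nat_lit 11) (C.ref (nat_lit 261) (nat_lit 11649936536080)) C.nil)) (C.cons (nat_lit 15) (C.node (nat_lit 0) (nat_lit 1) (nat_lit 10) (C.cons (nat_lit 1027) (C.ref (nat_lit 262) (nat_lit 11649936536080)) C.nil)) (C.cons (nat_lit 7) (C.node (nat_lit 0) (nat_lit 1) (nat_lit 3) (C.cons (nat_lit 1035) (C.ref (nat_lit 261) (nat_lit 11649936532240)) (C.cons (nat_lit 11) (C.node (nat_lit 0) (nat_lit 1) (nat_lit 10) C.nil) C.nil))) C.nil)))) (List.cons (C.node (nat_lit 0) (nat_lit 1) (nat_lit 2) (C.cons (nat_lit 1031) (C.node (nat_lit 0) (nat_lit 1) (nat_lit 3) (C.cons (nat_lit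 27) (C.ref (nat_lit 262) (nat_lit 10619144258320)) (C.cons (nat_lit 11) (C.node (nat_lit 0) (nat_lit 1) (nat_lit 4) C.nil) C.nil))) (C.cons (nat_lit 23) (C.node (nat_lit 0) (nat_lit 1) (nat_lit 3) (C.cons (nat_lit 1035) (C.ref (nat_lit 262) (nat_lit 10619144323600)) (C.cons (nat_lit 11) (C.node (nat_lit 0) (nat_lit 1) (nat_lit 10) C.nil) C.nil))) (C.cons (nat_lit 15)
  (C.node (nat_lit 0) (nat_lit 1) (nat_lit 4) (C.cons (nat_lit 1043) (C.ref (nat_lit 262) (nat_lit 10619144385040)) (C.cons (nat_lit 19) (C.node (nat_lit 0) (nat_lit 1) (nat_lit 10) C.nil) C.nil))) (C.cons (nat_lit 7) (C.node (nat_lit 0) (nat_lit 1) (nat_lit 3) (C.cons (nat_lit 1035) (C.node (nat_lit 0) (nat_lit 1) (nat_lit 4) C.nil) (C.cons (nat_lit 27) (C.node (nat_lit 0) (nat_lit 1) (nat_lit 10) C.nil) C.nil))) C.nil))))) (List.cons (C.node (nat_lit 0) (nat_lit 1) (nat_lit 9) (C.cons (nat_lit 531) (C.ref (nat_lit 263) (nat_lit 11649936536080)) (C.cons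 (nat_lit 523) (C.ref (nat_lit 263) (nat_lit 11649936474640)) (C.cons (nat_lit 519) (C.ref (nat_lit 263) (nat_lit 11649936409360)) (C.cons (nat_lit 515) (C.ref (nat_lit 264) (nat_lit 11649936536080)) C.nil))))) (List.cons (C.node (nat_lit 0) (nat_lit 1) (nat_lit 8) (C.cons (nat_lit 291) (C.ref (nat_lit 265) (nat_lit 11649936536080)) (C.cons (nat_lit 275) (C.ref (nat_lit 265) (nat_lit 11649935553040)) (C.cons (nat_lit 267) (C.ref (nat_lit 265) (nat_lit 11649934508560)) (C.cons (nat_lit 263) (C.ref (nat_lit 265) (nat_lit 11649933460240)) (C.cons (nat_lit 259) (C.node (nat_lit 0) (nat_lit 1) (nat_lit 9) (C.cons (nat_lit 547) (C.ref (nat_lit 264) (nat_lit 11585512026640)) (C.cons (nat_lit 531) (C.ref (nat_lit 264) (nat_lit 11585511043600)) (C.cons (nat_lit 523) (C.ref (nat_lit 264) (nat_lit 11585509999120)) (C.cons (nat_lit 519) (C.ref (nat_lit 264) (nat_lit 11585508950800)) (C.cons (nat_lit 515) (C.node (nat_lit 0) (nat_lit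 1) (nat_lit 2) (C.cons (nat_lit 1031) (C.node (nat_lit 0) (nat_lit 1) (nat_lit 3) (C.cons (nat_lit 43) (C.node (nat_lit 0) (nat_lit 1) (nat_lit 4) C.nil) (C.cons (nat_lit 27) (C.node (nat_lit 0) (nat_lit 1) (nat_lit 5) C.nil) C.nil))) (C.cons (nat_lit 39) (C.node (nat_lit 0) (nat_lit 1) (nat_lit 3) (C.cons (nat_lit 1035) (C.node (nat_lit 0) (nat_lit 1) (nat_lit 4) C.nil) (C.cons (nat_lit 27) (C.node (nat_lit 0) (nat_lit 1) (nat_lit 10) C.nil) C.nil))) (C.cons (nat_lit 23) (C.node (nat_lit 0) (nat_lit 1) (nat_lit 3) (C.cons (nat_lit 1035) (C.node (nat_lit 0) (nat_lit 1) (nat_lit 5) C.nil) (C.cons (nat_lit 43) (C.node (nat_lit 0) (nat_lit 1) (nat_lit 10) C.nil) C.nil))) (C.cons (nat_lit 15) (C.node (nat_lit 0) (nat_lit 1) (nat_lit 4) (C.cons (nat_lit 1043) (C.node (nat_lit 0) (nat_lit 1) (nat_lit 5) C.nil) (C.cons (nat_lit 51) (C.node (nat_lit 0) (nat_lit 1) (nat_lit 10) C.nil) C.nil))) C.nil))))) C.nil)))))) C.nil))))))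 (List.cons (C.node (nat_lit 0) (nat_lit 4) (nat_lit 7) (C.cons (nat_lit 177) (C.ref (nat_lit 259) (nat_lit 11649936466960)) (C.cons (nat_lit 145) (C.node (nat_lit 0) (nat_lit 5) (nat_lit 7) (C.cons (nat_lit 161) (C.ref (nat_lit 266) (nat_lit 11649936536080)) C.nil)) C.nil))) (List.cons (C.node (nat_lit 0) (nat_lit 3) (nat_lit 7) (C.cons (nat_lit 169) (C.node (nat_lit 0) (nat_lit 4) (nat_lit 7) (C.cons (nat_lit 145) (C.ref (nat_lit 259) (nat_lit 11649936532240)) C.nil)) (C.cons (nat_lit 153) (C.node (nat_lit 0) (nat_lit 5) (nat_lit 7) (C.cons (nat_lit 161) (C.ref (nat_lit 259) (nat_lit 11649935549200)) C.nil)) (C.cons (nat_lit 137) (C.ref (nat_lit 267) (nat_lit 11649936536080)) C.nil)))) (List.cons (C.node (nat_lit 0) (nat_lit 2) (nat_lit 7) (C.cons (nat_lit 165) (C.ref (nat_lit 260) (nat_lit 11649936536080)) (C.cons (nat_lit 149) (C.ref (nat_lit 260) (nat_lit 11649935553040)) (C.cons (nat_lit 141) (C.ref (nat_lit 260)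 (nat_lit 11649934508560)) (C.cons (nat_lit 133) (C.ref (nat_lit 268) (nat_lit 11649936536080)) C.nil))))) (List.cons (C.node (nat_lit 0) (nat_lit 2) (nat_lit 8) (C.cons (nat_lit 293) (C.node (nat_lit 0) (nat_lit 3) (nat_lit 8) (C.cons (nat_lit 281) (C.ref (nat_lit 226) (nat_lit 11645910004240)) C.nil)) (C.cons (nat_lit 277) (C.node (nat_lit 0) (nat_lit 3) (nat_lit 8) (C.cons (nat_lit 297) (C.ref (nat_lit 226) (nat_lit 11645909021200)) C.nil)) (C.cons (nat_lit 269) (C.node (nat_lit 0) (nat_lit 4) (nat_lit 8) (C.cons (nat_lit 305) (C.ref (nat_lit 226) (nat_lit 11645907976720)) C.nil)) C.nil)))) (List.cons (C.big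
  (C.cons (nat_lit 1137) (C.ref (nat_lit 184) (nat_lit 11649936536080)) (C.cons (nat_lit 1129) (C.ref (nat_lit 184) (nat_lit 11649936474640)) (C.cons (nat_lit 1125) (C.ref (nat_lit 184) (nat_lit 11649936409360)) (C.cons (nat_lit 1123) (C.ref (nat_lit 184) (nat_lit 11649936343840)) (C.cons (nat_lit 1113) (C.ref (nat_lit 184) (nat_lit 11649935430160)) (C.cons (nat_lit 1109) (C.ref (nat_lit 184) (nat_lit 11649935364880)) (C.cons (nat_lit 1107) (C.ref (nat_lit 184) (nat_lit 11649935299360)) (C.cons (nat_lit 1101) (C.ref (nat_lit 184) (nat_lit 11649934316560)) (C.cons (nat_lit 1099) (C.ref (nat_lit 184) (nat_lit 11649934251040)) (C.cons (nat_lit 1095) (C.ref (nat_lit 184) (nat_lit 11649933202480)) (C.cons (nat_lit 1081) (C.ref (nat_lit 184) (nat_lit 11649918657040)) (C.cons (nat_lit 1077) (C.ref (nat_lit 184) (nat_lit 11649918591760)) (C.cons (nat_lit 1075) (C.ref (nat_lit 184) (nat_lit 11649918526240)) (C.cons (nat_lit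 1069) (C.ref (nat_lit 184) (nat_lit 11649917543440)) (C.cons (nat_lit 1067) (C.ref (nat_lit 184) (nat_lit 11649917477920)) (C.cons (nat_lit 1063) (C.ref (nat_lit 184) (nat_lit 11649916429360)) (C.cons (nat_lit 1053) (C.ref (nat_lit 184) (nat_lit 11649900766480)) (C.cons (nat_lit 1051) (C.ref (nat_lit 184) (nat_lit 11649900700960)) (C.cons (nat_lit 1047) (C.ref (nat_lit 184) (nat_lit 11649899652400)) (C.cons (nat_lit 1039) (C.ref (nat_lit 184) (nat_lit 11649882875200)) (C.cons (nat_lit 625) (C.ref (nat_lit 184) (nat_lit 10619144385040)) (C.cons (nat_lit 617) (C.ref (nat_lit 184) (nat_lit 10619144323600)) (C.cons (nat_lit 613) (C.ref (nat_lit 184) (nat_lit 10619144258320)) (C.cons (nat_lit 611) (C.ref (nat_lit 184) (nat_lit 10619144192800)) (C.cons (nat_lit 601) (C.ref (nat_lit 184) (nat_lit 10619143279120)) (C.cons (nat_lit 597) (C.ref (nat_lit 184) (nat_lit 10619143213840)) (C.cons (nat_lit 595) (C.ref (nat_lit 184)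 (nat_lit 10619143148320)) (C.cons (nat_lit 589) (C.ref (nat_lit 184) (nat_lit 10619142165520)) (C.cons (nat_lit 587) (C.ref (nat_lit 184) (nat_lit 10619142100000)) (C.cons (nat_lit 583) (C.ref (nat_lit 184) (nat_lit 10619141051440)) (C.cons (nat_lit 569) (C.ref (nat_lit 184) (nat_lit 10619126506000)) (C.cons (nat_lit 565) (C.ref (nat_lit 184) (nat_lit 10619126440720)) (C.cons (nat_lit 563) (C.ref (nat_lit 184) (nat_lit 10619126375200)) (C.cons (nat_lit 557) (C.ref (nat_lit 184) (nat_lit 10619125392400)) (C.cons (nat_lit 555) (C.ref (nat_lit 184) (nat_lit 10619125326880)) (C.cons (nat_lit 551) (C.ref (nat_lit 184) (nat_lit 10619124278320)) (C.cons (nat_lit 541) (C.ref (nat_lit 184) (nat_lit 10619108615440)) (C.cons (nat_lit 539) (C.ref (nat_lit 184) (nat_lit 10619108549920)) (C.cons (nat_lit 535) (C.ref (nat_lit 184) (nat_lit 10619107501360)) (C.cons (nat_lit 527) (C.ref (nat_lit 184) (nat_lit 10619090724160)) (C.cons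 (nat_lit 369) (C.ref (nat_lit 184) (nat_lit 9523927724560)) (C.cons (nat_lit 361) (C.ref (nat_lit 184) (nat_lit 9523927663120)) (C.cons (nat_lit 357) (C.ref (nat_lit 184) (nat_lit 9523927597840)) (C.cons (nat_lit 355) (C.ref (nat_lit 184) (nat_lit 9523927532320)) (C.cons (nat_lit 345) (C.ref (nat_lit 184) (nat_lit 9523926618640)) (C.cons (nat_lit 341) (C.ref (nat_lit 184) (nat_lit 9523926553360)) (C.cons (nat_lit 339) (C.ref (nat_lit 184) (nat_lit 9523926487840)) (C.cons (nat_lit 333) (C.ref (nat_lit 184) (nat_lit 9523925505040)) (C.cons (nat_lit 331) (C.ref (nat_lit 184) (nat_lit 9523925439520)) (C.cons (nat_lit 327) (C.ref (nat_lit 184) (nat_lit 9523924390960)) (C.cons (nat_lit 313) (C.ref (nat_lit 184) (nat_lit 9523909845520)) (C.cons (nat_lit 309) (C.ref (nat_lit 184) (nat_lit 9523909780240)) (C.cons (nat_lit 307) (C.ref (nat_lit 184) (nat_lit 9523909714720)) (C.cons (nat_lit 301) (C.ref (nat_lit 184) (nat_lit 9523908731920))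 (C.cons (nat_lit 299) (C.ref (nat_lit 184) (nat_lit 9523908666400)) (C.cons (nat_lit 295) (C.ref (nat_lit 184) (nat_lit 9523907617840)) (C.cons (nat_lit 285) (C.ref (nat_lit 184) (nat_lit 9523891954960)) (C.cons (nat_lit 283)
  (C.ref (nat_lit 184) (nat_lit 9523891889440)) (C.cons (nat_lit 279) (C.ref (nat_lit 184) (nat_lit 9523890840880)) (C.cons (nat_lit 271) (C.ref (nat_lit 184) (nat_lit 9523874063680)) (C.cons (nat_lit 241) (C.ref (nat_lit 184) (nat_lit 8424684532240)) (C.cons (nat_lit 233) (C.ref (nat_lit 184) (nat_lit 8424684470800)) (C.cons (nat_lit 229) (C.ref (nat_lit 184) (nat_lit 8424684405520)) (C.cons (nat_lit 227) (C.ref (nat_lit 184) (nat_lit 8424684340000)) (C.cons (nat_lit 217) (C.ref (nat_lit 184) (nat_lit 8424683426320)) (C.cons (nat_lit 213) (C.ref (nat_lit 184) (nat_lit 8424683361040)) (C.cons (nat_lit 211) (C.ref (nat_lit 184) (nat_lit 8424683295520)) (C.cons (nat_lit 205) (C.ref (nat_lit 184)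 (nat_lit 8424682312720)) (C.cons (nat_lit 203) (C.ref (nat_lit 184) (nat_lit 8424682247200)) (C.cons (nat_lit 199) (C.ref (nat_lit 184) (nat_lit 8424681198640)) (C.cons (nat_lit 185) (C.ref (nat_lit 184) (nat_lit 8424666653200)) (C.cons (nat_lit 181) (C.ref (nat_lit 184) (nat_lit 8424666587920)) (C.cons (nat_lit 179) (C.ref (nat_lit 184) (nat_lit 8424666522400)) (C.cons (nat_lit 173) (C.ref (nat_lit 184) (nat_lit 8424665539600)) (C.cons (nat_lit 171) (C.ref (nat_lit 184) (nat_lit 8424665474080)) (C.cons (nat_lit 167) (C.ref (nat_lit 184) (nat_lit 8424664425520)) (C.cons (nat_lit 157) (C.ref (nat_lit 184) (nat_lit 8424648762640)) (C.cons (nat_lit 155) (C.ref (nat_lit 184) (nat_lit 8424648697120)) (C.cons (nat_lit 151) (C.ref (nat_lit 184) (nat_lit 8424647648560)) (C.cons (nat_lit 143) (C.ref (nat_lit 184) (nat_lit 8424630871360)) (C.cons (nat_lit 121) (C.ref (nat_lit 185) (nat_lit 11649936536080)) (C.cons (nat_lit 117)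 (C.ref (nat_lit 185) (nat_lit 11649936532240)) (C.cons (nat_lit 115) (C.ref (nat_lit 185) (nat_lit 11649936528160)) (C.cons (nat_lit 109) (C.ref (nat_lit 185) (nat_lit 11649936466960)) (C.cons (nat_lit 107) (C.ref (nat_lit 185) (nat_lit 11649936462880)) (C.cons (nat_lit 103) (C.ref (nat_lit 185) (nat_lit 11649936397360)) (C.cons (nat_lit 93) (C.ref (nat_lit 185) (nat_lit 11649935418640)) (C.cons (nat_lit 91) (C.ref (nat_lit 185) (nat_lit 11649935414560)) (C.cons (nat_lit 87) (C.ref (nat_lit 185) (nat_lit 11649935349040)) (C.cons (nat_lit 79) (C.ref (nat_lit 185) (nat_lit 11649934300480)) (C.cons (nat_lit 61) (C.ref (nat_lit 185) (nat_lit 11649918641680)) (C.cons (nat_lit 59) (C.ref (nat_lit 185) (nat_lit 11649918637600)) (C.cons (nat_lit 55) (C.ref (nat_lit 185) (nat_lit 11649918572080)) (C.cons (nat_lit 47) (C.ref (nat_lit 185) (nat_lit 11649917523520)) (C.cons (nat_lit 31) (C.ref (nat_lit 185) (nat_lit 11649900746320))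 C.nil))))))))))))))))))))))))))))))))))))))))))))))))))))))))))))))))))))))))))))))))))))))))))))))) (C.node (nat_lit 0) (nat_lit 1) (nat_lit 7) (C.cons (nat_lit 195) (C.ref (nat_lit 269) (nat_lit 11649936536080)) (C.cons (nat_lit 163) (C.ref (nat_lit 269) (nat_lit 11649920807440)) (C.cons (nat_lit 147) (C.ref (nat_lit 269) (nat_lit 11649904095760)) (C.cons (nat_lit 139) (C.ref (nat_lit 269) (nat_lit 11649887322640)) (C.cons (nat_lit 135) (C.ref (nat_lit 269) (nat_lit 11649870545680)) (C.cons (nat_lit 131) (C.node (nat_lit 0) (nat_lit 2) (nat_lit 7) (C.cons (nat_lit 197) (C.ref (nat_lit 268) (nat_lit 11649936535840)) (C.cons (nat_lit 165) (C.ref (nat_lit 268) (nat_lit 11649920807200)) (C.cons (nat_lit 149) (C.ref (nat_lit 268) (nat_lit 11649904095520)) (C.cons (nat_lit 141) (C.ref (nat_lit 268) (nat_lit 11649887322400)) (C.cons (nat_lit 133) (C.node (nat_lit 0) (nat_lit 3) (nat_lit 7) (C.cons (nat_lit 201) (C.ref (nat_lit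 267) (nat_lit 11649936531760)) (C.cons (nat_lit 169) (C.ref (nat_lit 267) (nat_lit 11649920803120)) (C.cons (nat_lit 153) (C.ref (nat_lit 267) (nat_lit 11649904091440)) (C.cons (nat_lit 137) (C.node (nat_lit 0) (nat_lit 4) (nat_lit 7) (C.cons (nat_lit 209) (C.node (nat_lit 0) (nat_lit 5) (nat_lit 7) (C.cons (nat_lit 161) (C.ref (nat_lit 266) (nat_lit 11649936466240)) C.nil)) (C.cons (nat_lit 177) (C.node (nat_lit 0) (nat_lit 6) (nat_lit 7) (C.cons (nat_lit 193)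
  (C.ref (nat_lit 266) (nat_lit 11649920737600)) C.nil)) (C.cons (nat_lit 145) (C.node (nat_lit 0) (nat_lit 5) (nat_lit 7) (C.cons (nat_lit 225) (C.ref (nat_lit 266) (nat_lit 11649935417680)) (C.cons (nat_lit 161) (C.node (nat_lit 0) (nat_lit 6) (nat_lit 7) (C.cons (nat_lit 193) (C.node (nat_lit 0) (nat_lit 1) (nat_lit 8) (C.cons (nat_lit 323) (C.ref (nat_lit 270) (nat_lit 11649936536080)) (C.cons (nat_lit 291) (C.ref (nat_lit 270) (nat_lit 11649920807440)) (C.cons (nat_lit 275) (C.ref (nat_lit 270) (nat_lit 11649904095760)) (C.cons (nat_lit 267) (C.ref (nat_lit 270) (nat_lit 11649887322640)) (C.cons (nat_lit 263) (C.ref (nat_lit 270) (nat_lit 11649870545680)) C.nil)))))) C.nil)) C.nil))) C.nil)))) C.nil))))) C.nil)))))) C.nil)))))))) (List.cons (C.node (nat_lit 0) (nat_lit 4) (nat_lit 5) (C.cons (nat_lit 1073) (C.node (nat_lit 0) (nat_lit 3) (nat_lit 4) (C.cons (nat_lit 153) (C.node (nat_lit 0) (nat_lit 4) (nat_lit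 9) (C.cons (nat_lit 529) (C.node (nat_lit 0) (nat_lit 3) (nat_lit 5) (C.cons (nat_lit 105) (C.node (nat_lit 0) (nat_lit 3) (nat_lit 10) C.nil) C.nil)) C.nil)) (C.cons (nat_lit 25) (C.node (nat_lit 0) (nat_lit 3) (nat_lit 5) (C.cons (nat_lit 105) (C.node (nat_lit 0) (nat_lit 5) (nat_lit 8) C.nil) C.nil)) C.nil))) (C.cons (nat_lit 57) (C.node (nat_lit 0) (nat_lit 3) (nat_lit 6) (C.cons (nat_lit 1097) (C.node (nat_lit 0) (nat_lit 3) (nat_lit 7) (C.cons (nat_lit 137) (C.node (nat_lit 0) (nat_lit 5) (nat_lit 6) (C.cons (nat_lit 353) (C.node (nat_lit 0) (nat_lit 5) (nat_lit 10) C.nil) C.nil)) C.nil)) (C.cons (nat_lit 201) (C.node (nat_lit 0) (nat_lit 3) (nat_lit 10) (C.cons (nat_lit 1033) (C.node (nat_lit 0) (nat_lit 4) (nat_lit 7) (C.cons (nat_lit 1169) (C.node (nat_lit 0) (nat_lit 4) (nat_lit 9) C.nil) (C.cons (nat_lit 657) (C.node (nat_lit 0) (nat_lit 4) (nat_lit 10) C.nil) C.nil))) C.nil)) (C.cons (nat_lit 73) (C.node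 (nat_lit 0) (nat_lit 3) (nat_lit 7) (C.cons (nat_lit 1161) (C.node (nat_lit 0) (nat_lit 4) (nat_lit 7) (C.cons (nat_lit 657) (C.node (nat_lit 0) (nat_lit 4) (nat_lit 10) C.nil) C.nil)) C.nil)) C.nil)))) (C.cons (nat_lit 49) (C.node (nat_lit 0) (nat_lit 3) (nat_lit 4) (C.cons (nat_lit 1049) (C.node (nat_lit 0) (nat_lit 3) (nat_lit 5) (C.cons (nat_lit 105) (C.node (nat_lit 0) (nat_lit 3) (nat_lit 7) C.nil) C.nil)) (C.cons (nat_lit 153) (C.node (nat_lit 0) (nat_lit 4) (nat_lit 9) (C.cons (nat_lit 1553) (C.node (nat_lit 0) (nat_lit 3) (nat_lit 5) (C.cons (nat_lit 105) (C.node (nat_lit 0) (nat_lit 3) (nat_lit 10) C.nil) (C.cons (nat_lit 1065) (C.node (nat_lit 0) (nat_lit 3) (nat_lit 6) C.nil) C.nil))) C.nil)) C.nil))) C.nil)))) (List.cons (C.node (nat_lit 0) (nat_lit 2) (nat_lit 4) (C.cons (nat_lit 149) (C.node (nat_lit 0) (nat_lit 2) (nat_lit 6) (C.cons (nat_lit 69) (C.node (nat_lit 0) (nat_lit 3) (nat_lit 7) (C.cons (nat_lit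 1161) (C.node (nat_lit 0) (nat_lit 3) (nat_lit 4) (C.cons (nat_lit 89) (C.node (nat_lit 0) (nat_lit 3) (nat_lit 5) (C.cons (nat_lit 41) (C.node (nat_lit 0) (nat_lit 4) (nat_lit 5) (C.cons (nat_lit 1073) (C.node (nat_lit 0) (nat_lit 4) (nat_lit 9) C.nil) C.nil)) C.nil)) (C.cons (nat_lit 57) (C.node (nat_lit 0) (nat_lit 3) (nat_lit 6) (C.cons (nat_lit 73) (C.node (nat_lit 0) (nat_lit 4) (nat_lit 6) (C.cons (nat_lit 1105) (C.node (nat_lit 0) (nat_lit 4) (nat_lit 9) C.nil) (C.cons (nat_lit 593) (C.node (nat_lit 0) (nat_lit 4) (nat_lit 10) C.nil) C.nil))) C.nil)) (C.cons (nat_lit 25) (C.node (nat_lit 0) (nat_lit 3) (nat_lit 5) (C.cons (nat_lit 105) (C.node (nat_lit 0) (nat_lit 5) (nat_lit 4) (C.cons (nat_lit 1073) (C.node (nat_lit 0) (nat_lit 5) (nat_lit 8) C.nil) C.nil)) C.nil)) C.nil)))) (C.cons (nat_lit 201) (C.node (nat_lit 0) (nat_lit 3) (nat_lit 4) (C.cons (nat_lit 1049) (C.node (nat_lit 0) (nat_lit 3) (nat_lit 5)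 (C.cons (nat_lit 41) (C.node (nat_lit 0) (nat_lit 4) (nat_lit 5) (C.cons (nat_lit 113) (C.node (nat_lit 0) (nat_lit 4) (nat_lit 9) C.nil) C.nil)) C.nil)) (C.cons (nat_lit 57) (C.node (nat_lit 0) (nat_lit 3) (nat_lit 10) (C.cons (nat_lit 1033)
  (C.node (nat_lit 0) (nat_lit 4) (nat_lit 6) (C.cons (nat_lit 1105) (C.node (nat_lit 0) (nat_lit 4) (nat_lit 9) C.nil) (C.cons (nat_lit 593) (C.node (nat_lit 0) (nat_lit 4) (nat_lit 10) C.nil) C.nil))) C.nil)) (C.cons (nat_lit 25) (C.node (nat_lit 0) (nat_lit 3) (nat_lit 5) (C.cons (nat_lit 1065) (C.node (nat_lit 0) (nat_lit 5) (nat_lit 4) (C.cons (nat_lit 113) (C.node (nat_lit 0) (nat_lit 5) (nat_lit 8) C.nil) C.nil)) C.nil)) C.nil)))) (C.cons (nat_lit 137) (C.node (nat_lit 0) (nat_lit 4) (nat_lit 9) (C.cons (nat_lit 1553) (C.node (nat_lit 0) (nat_lit 3) (nat_lit 4) (C.cons (nat_lit 89) (C.node (nat_lit 0) (nat_lit 4) (nat_lit 5) C.nil) (C.cons (nat_lit 57) (C.node (nat_lit 0)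 (nat_lit 4) (nat_lit 6) C.nil) C.nil))) (C.cons (nat_lit 593) (C.node (nat_lit 0) (nat_lit 3) (nat_lit 4) (C.cons (nat_lit 1049) (C.node (nat_lit 0) (nat_lit 4) (nat_lit 5) C.nil) (C.cons (nat_lit 57) (C.node (nat_lit 0) (nat_lit 4) (nat_lit 10) C.nil) C.nil))) C.nil))) C.nil)))) C.nil)) (C.cons (nat_lit 85) (C.node (nat_lit 0) (nat_lit 2) (nat_lit 7) (C.cons (nat_lit 133) (C.ref (nat_lit 272) (nat_lit 11649936536080)) C.nil)) (C.cons (nat_lit 21) (C.node (nat_lit 0) (nat_lit 2) (nat_lit 6) (C.cons (nat_lit 197) (C.ref (nat_lit 272) (nat_lit 11353284186400)) (C.cons (nat_lit 69) (C.node (nat_lit 0) (nat_lit 2) (nat_lit 7) C.nil) C.nil))) C.nil)))) (List.cons (C.node (nat_lit 0) (nat_lit 3) (nat_lit 5) (C.cons (nat_lit 1065) (C.node (nat_lit 0) (nat_lit 4) (nat_lit 5) (C.cons (nat_lit 49) (C.node (nat_lit 0) (nat_lit 5) (nat_lit 8) (C.cons (nat_lit 801) (C.node (nat_lit 0) (nat_lit 3) (nat_lit 4) (C.cons (nat_lit 153)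 (C.node (nat_lit 0) (nat_lit 3) (nat_lit 6) C.nil) (C.cons (nat_lit 89) (C.node (nat_lit 0) (nat_lit 3) (nat_lit 7) C.nil) C.nil))) C.nil)) C.nil)) (C.cons (nat_lit 57) (C.node (nat_lit 0) (nat_lit 3) (nat_lit 6) (C.cons (nat_lit 1097) (C.node (nat_lit 0) (nat_lit 3) (nat_lit 7) (C.cons (nat_lit 137) (C.node (nat_lit 0) (nat_lit 4) (nat_lit 6) (C.cons (nat_lit 209) (C.node (nat_lit 0) (nat_lit 4) (nat_lit 10) C.nil) C.nil)) C.nil)) (C.cons (nat_lit 201) (C.node (nat_lit 0) (nat_lit 3) (nat_lit 10) (C.cons (nat_lit 1033) (C.node (nat_lit 0) (nat_lit 4) (nat_lit 6) (C.cons (nat_lit 1105) (C.node (nat_lit 0) (nat_lit 4) (nat_lit 7) C.nil) C.nil)) C.nil)) (C.cons (nat_lit 73) (C.node (nat_lit 0) (nat_lit 3) (nat_lit 7) (C.cons (nat_lit 1161) (C.node (nat_lit 0) (nat_lit 4) (nat_lit 7) (C.cons (nat_lit 209) (C.node (nat_lit 0) (nat_lit 4) (nat_lit 10) C.nil) C.nil)) C.nil)) C.nil)))) (C.cons (nat_lit 41) (C.node (nat_lit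 0) (nat_lit 4) (nat_lit 5) (C.cons (nat_lit 1073) (C.node (nat_lit 0) (nat_lit 5) (nat_lit 8) (C.cons (nat_lit 801) (C.node (nat_lit 0) (nat_lit 4) (nat_lit 3) (C.cons (nat_lit 89) (C.node (nat_lit 0) (nat_lit 4) (nat_lit 7) C.nil) (C.cons (nat_lit 153) (C.node (nat_lit 0) (nat_lit 4) (nat_lit 6) C.nil) C.nil))) C.nil)) C.nil)) C.nil)))) (List.cons (C.node (nat_lit 0) (nat_lit 2) (nat_lit 4) (C.cons (nat_lit 533) (C.node (nat_lit 0) (nat_lit 2) (nat_lit 7) (C.cons (nat_lit 133) (C.ref (nat_lit 274) (nat_lit 11649936536080)) C.nil)) (C.cons (nat_lit 149) (C.node (nat_lit 0) (nat_lit 2) (nat_lit 9) (C.cons (nat_lit 517) (C.ref (nat_lit 272) (nat_lit 11577456935440)) C.nil)) (C.cons (nat_lit 21) (C.node (nat_lit 0) (nat_lit 2) (nat_lit 7) (C.cons (nat_lit 645) (C.ref (nat_lit 272) (nat_lit 11490721042720)) (C.cons (nat_lit 133) (C.node (nat_lit 0) (nat_lit 2) (nat_lit 9) C.nil) C.nil))) C.nil)))) (List.cons (C.node (nat_lit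 0) (nat_lit 2) (nat_lit 6) (C.cons (nat_lit 581) (C.node (nat_lit 0) (nat_lit 2) (nat_lit 7) C.nil) (C.cons (nat_lit 197) (C.node (nat_lit 0) (nat_lit 2) (nat_lit 9) C.nil) C.nil))) (List.cons (C.node (nat_lit 0) (nat_lit 2) (nat_lit 4) (C.cons (nat_lit 533) (C.node (nat_lit 0) (nat_lit 2) (nat_lit 6) (C.cons (nat_lit 197) (C.ref (nat_lit 274) (nat_lit 11649401762320)) (C.cons (nat_lit 69) (C.node (nat_lit 0) (nat_lit 2) (nat_lit 7) C.nil) C.nil))) (C.cons (nat_lit 149)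
  (C.node (nat_lit 0) (nat_lit 2) (nat_lit 6) (C.cons (nat_lit 581) (C.ref (nat_lit 272) (nat_lit 11220159004960)) (C.cons (nat_lit 69) (C.node (nat_lit 0) (nat_lit 2) (nat_lit 9) C.nil) C.nil))) (C.cons (nat_lit 85) (C.node (nat_lit 0) (nat_lit 2) (nat_lit 7) (C.cons (nat_lit 645) (C.ref (nat_lit 272) (nat_lit 11649401762320)) (C.cons (nat_lit 133) (C.node (nat_lit 0) (nat_lit 2) (nat_lit 9) C.nil) C.nil))) (C.cons (nat_lit 21) (C.ref (nat_lit 276) (nat_lit 11649936536080)) C.nil))))) (List.cons (C.node (nat_lit 0) (nat_lit 2) (nat_lit 5) (C.cons (nat_lit 549) (C.ref (nat_lit 273) (nat_lit 11649936536080)) (C.cons (nat_lit 101) (C.ref (nat_lit 275) (nat_lit 11649936536080)) (C.cons (nat_lit 53) (C.ref (nat_lit 273) (nat_lit 11568867131920)) (C.cons (nat_lit 37) (C.ref (nat_lit 277) (nat_lit 11649936536080)) C.nil))))) (List.cons (C.node (nat_lit 0) (nat_lit 2) (nat_lit 5) (C.cons (nat_lit 549) (C.node (nat_lit 0) (nat_lit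 2) (nat_lit 8) (C.cons (nat_lit 389) (C.ref (nat_lit 272) (nat_lit 11515990331920)) (C.cons (nat_lit 261) (C.node (nat_lit 0) (nat_lit 2) (nat_lit 7) C.nil) C.nil))) (C.cons (nat_lit 293) (C.node (nat_lit 0) (nat_lit 2) (nat_lit 9) (C.cons (nat_lit 645) (C.ref (nat_lit 272) (nat_lit 11636747825440)) (C.cons (nat_lit 517) (C.node (nat_lit 0) (nat_lit 2) (nat_lit 7) C.nil) C.nil))) (C.cons (nat_lit 37) (C.node (nat_lit 0) (nat_lit 2) (nat_lit 7) (C.cons (nat_lit 645) (C.node (nat_lit 0) (nat_lit 2) (nat_lit 8) C.nil) (C.cons (nat_lit 389) (C.node (nat_lit 0) (nat_lit 2) (nat_lit 9) C.nil) C.nil))) C.nil)))) List.nil)))))))))))))))))))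

theorem ok11_261 : okL par11 (nat_lit 280) c11_261 (nat_lit 261) = true := by decide +kernel

noncomputable def c11_280 : List C :=
  (List.cons (C.node (nat_lit 0) (nat_lit 2) (nat_lit 3) (C.cons (nat_lit 269) (C.ref (nat_lit 278) (nat_lit 11649936536080)) (C.cons (nat_lit 141) (C.ref (nat_lit 278) (nat_lit 11645909021200)) (C.cons (nat_lit 77) (C.node (nat_lit 0) (nat_lit 2) (nat_lit 4) (C.cons (nat_lit 533) (C.node (nat_lit 0) (nat_lit 2) (nat_lit 5) (C.cons (nat_lit 293) (C.node (nat_lit 0) (nat_lit 2) (nat_lit 7) (C.cons (nat_lit 133) (C.ref (nat_lit 272) (nat_lit 11585511965200)) C.nil)) (C.cons (nat_lit 37) (C.node (nat_lit 0) (nat_lit 2) (nat_lit 7) (C.cons (nat_lit 389) (C.ref (nat_lit 272) (nat_lit 11584977191440)) (C.cons (nat_lit 133) (C.node (nat_lit 0) (nat_lit 2) (nat_lit 8) C.nil) C.nil))) C.nil))) (C.cons (nat_lit 149) (C.ref (nat_lit 275) (nat_lit 11577456935440)) (C.cons (nat_lit 53) (C.ref (nat_lit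 275) (nat_lit 11568867131920)) (C.cons (nat_lit 21) (C.ref (nat_lit 279) (nat_lit 11649936536080)) C.nil))))) (C.cons (nat_lit 45) (C.ref (nat_lit 278) (nat_lit 11637319217680)) (C.cons (nat_lit 29) (C.ref (nat_lit 278) (nat_lit 11632756929040)) (C.cons (nat_lit 13) (C.node (nat_lit 0) (nat_lit 2) (nat_lit 4) (C.cons (nat_lit 533) (C.node (nat_lit 0) (nat_lit 2) (nat_lit 5) (C.cons (nat_lit 293) (C.node (nat_lit 0) (nat_lit 2) (nat_lit 6) (C.cons (nat_lit 197) (C.ref (nat_lit 272) (nat_lit 11357562437920)) (C.cons (nat_lit 69) (C.node (nat_lit 0) (nat_lit 2) (nat_lit 7) C.nil) C.nil))) (C.cons (nat_lit 101) (C.node (nat_lit 0) (nat_lit 2) (nat_lit 7) (C.cons (nat_lit 389) (C.ref (nat_lit 272) (nat_lit 11494999294240)) (C.cons (nat_lit 133) (C.node (nat_lit 0) (nat_lit 2) (nat_lit 8) C.nil) C.nil))) (C.cons (nat_lit 37) (C.ref (nat_lit 276) (nat_lit 11585511965200)) C.nil)))) (C.cons (nat_lit 149) (C.ref (nat_lit 277)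 (nat_lit 11577456935440)) (C.cons (nat_lit 85) (C.ref (nat_lit 279) (nat_lit 11585511965200)) (C.cons (nat_lit 53) (C.ref (nat_lit 277) (nat_lit 11568867131920)) (C.cons (nat_lit 21) (C.node (nat_lit 0) (nat_lit 2) (nat_lit 5) (C.cons (nat_lit 549) (C.ref (nat_lit 276) (nat_lit 11517059879440)) (C.cons (nat_lit 293) (C.ref (nat_lit 276) (nat_lit 11513032364560)) (C.cons (nat_lit 101) (C.node (nat_lit 0) (nat_lit 2) (nat_lit 8) (C.cons (nat_lit 389) (C.node (nat_lit 0) (nat_lit 2) (nat_lit 9) C.nil) (C.cons (nat_lit 773) (C.node (nat_lit 0) (nat_lit 2) (nat_lit 7) C.nil) C.nil))) C.nil)))) C.nil)))))) C.nil))))))) (List.cons (C.node (nat_lit 0) (nat_lit 2) (nat_lit 5) (C.cons (nat_lit 549) (C.node (nat_lit 0) (nat_lit 2) (nat_lit 6) C.nil) (C.cons (nat_lit 101) (C.node (nat_lit 0) (nat_lit 2) (nat_lit 9) C.nil) C.nil))) (List.cons (C.node (nat_lit 0) (nat_lit 2) (nat_lit 4) (C.cons (nat_lit 533) (C.node (nat_lit 0) (nat_lit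 2) (nat_lit 5) (C.cons (nat_lit 165) (C.node (nat_lit 0) (nat_lit 2) (nat_lit 6) C.nil) (C.cons (nat_lit 101) (C.node (nat_lit 0) (nat_lit 2) (nat_lit 7) C.nil) C.nil))) (C.cons (nat_lit 149) (C.ref (nat_lit 281) (nat_lit 11649936536080)) (C.cons (nat_lit 85) (C.ref (nat_lit 281) (nat_lit 11649684877840)) (C.cons (nat_lit 53) (C.ref (nat_lit 281) (nat_lit 11649417490960)) C.nil))))) (List.cons (C.node (nat_lit 0) (nat_lit 2) (nat_lit 4) (C.cons (nat_lit 533) (C.ref (nat_lit 281) (nat_lit 11585511965200)) (C.cons (nat_lit 85) (C.node (nat_lit 0) (nat_lit 2) (nat_lit 5) (C.cons (nat_lit 549) (C.node (nat_lit 0) (nat_lit 2) (nat_lit 8) C.nil) (C.cons (nat_lit 293) (C.node (nat_lit 0) (nat_lit 2) (nat_lit 9) C.nil) C.nil))) (C.cons (nat_lit 53) (C.node (nat_lit 0) (nat_lit 2) (nat_lit 6) (C.cons (nat_lit 581) (C.node (nat_lit 0) (nat_lit 2) (nat_lit 8) C.nil) (C.cons (nat_lit 325) (C.node (nat_lit 0) (nat_lit 2) (nat_lit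 9) C.nil) C.nil))) C.nil)))) (List.cons (C.node (nat_lit 0) (nat_lit 2) (nat_lit 3) (C.cons (nat_lit 269) (C.ref (nat_lit 282) (nat_lit 11649936536080)) (C.cons (nat_lit 141) (C.ref (nat_lit 283) (nat_lit 11649936536080)) (C.cons (nat_lit 77) (C.ref (nat_lit 283) (nat_lit 11649684877840)) (C.cons (nat_lit 45) (C.ref (nat_lit 283) (nat_lit 11649417490960)) (C.cons (nat_lit 29)
  (C.ref (nat_lit 282) (nat_lit 11632756929040)) C.nil)))))) (List.cons (C.node (nat_lit 0) (nat_lit 1) (nat_lit 6) (C.cons (nat_lit 195) (C.ref (nat_lit 280) (nat_lit 11649920807440)) (C.cons (nat_lit 67) (C.node (nat_lit 0) (nat_lit 1) (nat_lit 7) (C.cons (nat_lit 131) (C.ref (nat_lit 284) (nat_lit 11649936536080)) C.nil)) C.nil))) (List.cons (C.node (nat_lit 0) (nat_lit 1) (nat_lit 5) (C.cons (nat_lit 163) (C.node (nat_lit 0) (nat_lit 1) (nat_lit 6) (C.cons (nat_lit 67) (C.ref (nat_lit 280) (nat_lit 11649936536080)) C.nil)) (C.cons (nat_lit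 99) (C.node (nat_lit 0) (nat_lit 1) (nat_lit 7) (C.cons (nat_lit 131) (C.ref (nat_lit 280) (nat_lit 11649684877840)) C.nil)) (C.cons (nat_lit 35) (C.ref (nat_lit 285) (nat_lit 11649936536080)) C.nil)))) (List.cons (C.node (nat_lit 0) (nat_lit 1) (nat_lit 7) (C.cons (nat_lit 387) (C.ref (nat_lit 284) (nat_lit 11649650471440)) C.nil)) (List.cons (C.node (nat_lit 0) (nat_lit 1) (nat_lit 6) (C.cons (nat_lit 323) (C.node (nat_lit 0) (nat_lit 1) (nat_lit 7) (C.cons (nat_lit 131) (C.ref (nat_lit 284) (nat_lit 11649918841360)) C.nil)) (C.cons (nat_lit 195) (C.node (nat_lit 0) (nat_lit 1) (nat_lit 8) (C.cons (nat_lit 259) (C.ref (nat_lit 284) (nat_lit 11645892309520)) C.nil)) (C.cons (nat_lit 67) (C.ref (nat_lit 287) (nat_lit 11649936536080)) C.nil)))) (List.cons (C.node (nat_lit 0) (nat_lit 1) (nat_lit 5) (C.cons (nat_lit 291) (C.ref (nat_lit 285) (nat_lit 11649935553040)) (C.cons (nat_lit 163) (C.ref (nat_lit 285) (nat_lit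 11645909021200)) (C.cons (nat_lit 99) (C.ref (nat_lit 285) (nat_lit 11641630831120)) (C.cons (nat_lit 35) (C.ref (nat_lit 288) (nat_lit 11649936536080)) C.nil))))) (List.cons (C.node (nat_lit 0) (nat_lit 1) (nat_lit 4) (C.cons (nat_lit 275) (C.ref (nat_lit 286) (nat_lit 11649936536080)) (C.cons (nat_lit 147) (C.ref (nat_lit 286) (nat_lit 11645910004240)) (C.cons (nat_lit 83) (C.ref (nat_lit 286) (nat_lit 11641631814160)) (C.cons (nat_lit 51) (C.ref (nat_lit 286) (nat_lit 11637337895440)) (C.cons (nat_lit 19) (C.ref (nat_lit 289) (nat_lit 11649936536080)) C.nil)))))) (List.cons (C.node (nat_lit 0) (nat_lit 1) (nat_lit 6) (C.cons (nat_lit 579) (C.ref (nat_lit 287) (nat_lit 11649918657040)) (C.cons (nat_lit 323) (C.ref (nat_lit 287) (nat_lit 11585494147600)) (C.cons (nat_lit 195) (C.ref (nat_lit 287) (nat_lit 11517043106320)) C.nil)))) (List.cons (C.node (nat_lit 0) (nat_lit 1) (nat_lit 5) (C.cons (nat_lit 547) (C.ref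 (nat_lit 288) (nat_lit 11649935430160)) (C.cons (nat_lit 291) (C.ref (nat_lit 288) (nat_lit 11585510920720)) (C.cons (nat_lit 163) (C.ref (nat_lit 288) (nat_lit 11517059879440)) (C.cons (nat_lit 99) (C.ref (nat_lit 288) (nat_lit 11448357179920)) (C.cons (nat_lit 35) (C.ref (nat_lit 291) (nat_lit 11649936536080)) C.nil)))))) (List.cons (C.node (nat_lit 0) (nat_lit 1) (nat_lit 4) (C.cons (nat_lit 531) (C.ref (nat_lit 289) (nat_lit 11649936474640)) (C.cons (nat_lit 275) (C.ref (nat_lit 289) (nat_lit 11585511965200)) (C.cons (nat_lit 147) (C.ref (nat_lit 289) (nat_lit 11517060923920)) (C.cons (nat_lit 83) (C.ref (nat_lit 289) (nat_lit 11448358224400)) (C.cons (nat_lit 51) (C.ref (nat_lit 289) (nat_lit 11379639796240)) (C.cons (nat_lit 19) (C.ref (nat_lit 292) (nat_lit 11649936536080)) C.nil))))))) (List.cons (C.node (nat_lit 0) (nat_lit 1) (nat_lit 3) (C.cons (nat_lit 523) (C.ref (nat_lit 290) (nat_lit 11649936536080))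 (C.cons (nat_lit 267) (C.ref (nat_lit 290) (nat_lit 11585512026640)) (C.cons (nat_lit 139) (C.ref (nat_lit 290) (nat_lit 11517060985360)) (C.cons (nat_lit 75) (C.ref (nat_lit 290) (nat_lit 11448358285840)) (C.cons (nat_lit 43) (C.ref (nat_lit 290) (nat_lit 11379639857680)) (C.cons (nat_lit 27) (C.ref (nat_lit 290) (nat_lit 11310920446480)) (C.cons (nat_lit 11) (C.ref (nat_lit 293) (nat_lit 11649936536080)) C.nil)))))))) List.nil)))))))))))))))

theorem ok11_280 : okL par11 (nat_lit 295) c11_280 (nat_lit 280) = true := by decide +kernel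

noncomputable def c11_295 : List C :=
  (List.cons (C.big (C.cons (nat_lit 1985) (C.ref (nat_lit 52) (nat_lit 11649936536080)) (C.cons (nat_lit 1953) (C.ref (nat_lit 52) (nat_lit 11649920807440)) (C.cons (nat_lit 1937) (C.ref (nat_lit 52) (nat_lit 11649904095760)) (C.cons (nat_lit 1929) (C.ref (nat_lit 52) (nat_lit 11649887322640)) (C.cons (nat_lit 1925) (C.ref (nat_lit 52) (nat_lit 11649870545680)) (C.cons (nat_lit 1923) (C.ref (nat_lit 52) (nat_lit 11649853768480)) (C.cons (nat_lit 1889) (C.ref (nat_lit 52) (nat_lit 11649653420560)) (C.cons (nat_lit 1873) (C.ref (nat_lit 52) (nat_lit 11649636708880)) (C.cons (nat_lit 1865) (C.ref (nat_lit 52) (nat_lit 11649619935760)) (C.cons (nat_lit 1861) (C.ref (nat_lit 52) (nat_lit 11649603158800)) (C.cons (nat_lit 1859) (C.ref (nat_lit 52) (nat_lit 11649586381600)) (C.cons (nat_lit 1841) (C.ref (nat_lit 52) (nat_lit 11649368338960)) (C.cons (nat_lit 1833) (C.ref (nat_lit 52)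 (nat_lit 11649351565840)) (C.cons (nat_lit 1829) (C.ref (nat_lit 52) (nat_lit 11649334788880)) (C.cons (nat_lit 1827) (C.ref (nat_lit 52) (nat_lit 11649318011680)) (C.cons (nat_lit 1817) (C.ref (nat_lit 52) (nat_lit 11649083134480)) (C.cons (nat_lit 1813) (C.ref (nat_lit 52) (nat_lit 11649066357520)) (C.cons (nat_lit 1811) (C.ref (nat_lit 52) (nat_lit 11649049580320)) (C.cons (nat_lit 1805) (C.ref (nat_lit 52) (nat_lit 11648797922320)) (C.cons (nat_lit 1803) (C.ref (nat_lit 52) (nat_lit 11648781145120)) (C.cons (nat_lit 1799) (C.ref (nat_lit 52) (nat_lit 11648512709680)) (C.cons (nat_lit 1761) (C.ref (nat_lit 52) (nat_lit 11645359501840)) (C.cons (nat_lit 1745) (C.ref (nat_lit 52) (nat_lit 11645342790160)) (C.cons (nat_lit 1737) (C.ref (nat_lit 52) (nat_lit 11645326017040)) (C.cons (nat_lit 1733) (C.ref (nat_lit 52) (nat_lit 11645309240080)) (C.cons (nat_lit 1731) (C.ref (nat_lit 52) (nat_lit 11645292462880)) (C.cons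 (nat_lit 1713) (C.ref (nat_lit 52) (nat_lit 11645074420240)) (C.cons (nat_lit 1705) (C.ref (nat_lit 52) (nat_lit 11645057647120)) (C.cons (nat_lit 1701) (C.ref (nat_lit 52) (nat_lit 11645040870160)) (C.cons (nat_lit 1699) (C.ref (nat_lit 52) (nat_lit 11645024092960)) (C.cons (nat_lit 1689) (C.ref (nat_lit 52) (nat_lit 11644789215760)) (C.cons (nat_lit 1685) (C.ref (nat_lit 52) (nat_lit 11644772438800)) (C.cons (nat_lit 1683) (C.ref (nat_lit 52) (nat_lit 11644755661600)) (C.cons (nat_lit 1677) (C.ref (nat_lit 52) (nat_lit 11644504003600)) (C.cons (nat_lit 1675) (C.ref (nat_lit 52) (nat_lit 11644487226400)) (C.cons (nat_lit 1671) (C.ref (nat_lit 52) (nat_lit 11644218790960)) (C.cons (nat_lit 1649) (C.ref (nat_lit 52) (nat_lit 11640779518480)) (C.cons (nat_lit 1641) (C.ref (nat_lit 52) (nat_lit 11640762745360)) (C.cons (nat_lit 1637) (C.ref (nat_lit 52) (nat_lit 11640745968400)) (C.cons (nat_lit 1635) (C.ref (nat_lit 52)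 (nat_lit 11640729191200)) (C.cons (nat_lit 1625) (C.ref (nat_lit 52) (nat_lit 11640494314000)) (C.cons (nat_lit 1621) (C.ref (nat_lit 52) (nat_lit 11640477537040)) (C.cons (nat_lit 1619) (C.ref (nat_lit 52) (nat_lit 11640460759840)) (C.cons (nat_lit 1613) (C.ref (nat_lit 52) (nat_lit 11640209101840)) (C.cons (nat_lit 1611) (C.ref (nat_lit 52) (nat_lit 11640192324640)) (C.cons (nat_lit 1607) (C.ref (nat_lit 52) (nat_lit 11639923889200)) (C.cons (nat_lit 1593) (C.ref (nat_lit 52) (nat_lit 11636199350800)) (C.cons (nat_lit 1589) (C.ref (nat_lit 52) (nat_lit 11636182573840)) (C.cons (nat_lit 1587) (C.ref (nat_lit 52) (nat_lit 11636165796640)) (C.cons (nat_lit 1581) (C.ref (nat_lit 52) (nat_lit 11635914138640)) (C.cons (nat_lit 1579) (C.ref (nat_lit 52) (nat_lit 11635897361440)) (C.cons (nat_lit 1575) (C.ref (nat_lit 52) (nat_lit 11635628926000)) (C.cons (nat_lit 1565) (C.ref (nat_lit 52) (nat_lit 11631619171600)) (C.cons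 (nat_lit 1563) (C.ref (nat_lit 52) (nat_lit 11631602394400)) (C.cons (nat_lit 1559) (C.ref (nat_lit 52) (nat_lit 11631333958960)) (C.cons (nat_lit 1551) (C.ref (nat_lit 52) (nat_lit 11627038991680)) (C.cons (nat_lit 1505) (C.ref (nat_lit 52) (nat_lit 11576641073680)) (C.cons (nat_lit 1489)
  (C.ref (nat_lit 52) (nat_lit 11576624362000)) (C.cons (nat_lit 1481) (C.ref (nat_lit 52) (nat_lit 11576607588880)) (C.cons (nat_lit 1477) (C.ref (nat_lit 52) (nat_lit 11576590811920)) (C.cons (nat_lit 1475) (C.ref (nat_lit 52) (nat_lit 11576574034720)) (C.cons (nat_lit 1457) (C.ref (nat_lit 52) (nat_lit 11576355992080)) (C.cons (nat_lit 1449) (C.ref (nat_lit 52) (nat_lit 11576339218960)) (C.cons (nat_lit 1445) (C.ref (nat_lit 52) (nat_lit 11576322442000)) (C.cons (nat_lit 1443) (C.ref (nat_lit 52) (nat_lit 11576305664800)) (C.cons (nat_lit 1433) (C.ref (nat_lit 52) (nat_lit 11576070787600)) (C.cons (nat_lit 1429) (C.ref (nat_lit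 52) (nat_lit 11576054010640)) (C.cons (nat_lit 1427) (C.ref (nat_lit 52) (nat_lit 11576037233440)) (C.cons (nat_lit 1421) (C.ref (nat_lit 52) (nat_lit 11575785575440)) (C.cons (nat_lit 1419) (C.ref (nat_lit 52) (nat_lit 11575768798240)) (C.cons (nat_lit 1415) (C.ref (nat_lit 52) (nat_lit 11575500362800)) (C.cons (nat_lit 1393) (C.ref (nat_lit 52) (nat_lit 11572061090320)) (C.cons (nat_lit 1385) (C.ref (nat_lit 52) (nat_lit 11572044317200)) (C.cons (nat_lit 1381) (C.ref (nat_lit 52) (nat_lit 11572027540240)) (C.cons (nat_lit 1379) (C.ref (nat_lit 52) (nat_lit 11572010763040)) (C.cons (nat_lit 1369) (C.ref (nat_lit 52) (nat_lit 11571775885840)) (C.cons (nat_lit 1365) (C.ref (nat_lit 52) (nat_lit 11571759108880)) (C.cons (nat_lit 1363) (C.ref (nat_lit 52) (nat_lit 11571742331680)) (C.cons (nat_lit 1357) (C.ref (nat_lit 52) (nat_lit 11571490673680)) (C.cons (nat_lit 1355) (C.ref (nat_lit 52) (nat_lit 11571473896480)) (C.cons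 (nat_lit 1351) (C.ref (nat_lit 52) (nat_lit 11571205461040)) (C.cons (nat_lit 1337) (C.ref (nat_lit 52) (nat_lit 11567480922640)) (C.cons (nat_lit 1333) (C.ref (nat_lit 52) (nat_lit 11567464145680)) (C.cons (nat_lit 1331) (C.ref (nat_lit 52) (nat_lit 11567447368480)) (C.cons (nat_lit 1325) (C.ref (nat_lit 52) (nat_lit 11567195710480)) (C.cons (nat_lit 1323) (C.ref (nat_lit 52) (nat_lit 11567178933280)) (C.cons (nat_lit 1319) (C.ref (nat_lit 52) (nat_lit 11566910497840)) (C.cons (nat_lit 1309) (C.ref (nat_lit 52) (nat_lit 11562900743440)) (C.cons (nat_lit 1307) (C.ref (nat_lit 52) (nat_lit 11562883966240)) (C.cons (nat_lit 1303) (C.ref (nat_lit 52) (nat_lit 11562615530800)) (C.cons (nat_lit 1295) (C.ref (nat_lit 52) (nat_lit 11558320563520)) (C.cons (nat_lit 1265) (C.ref (nat_lit 52) (nat_lit 11503341679120)) (C.cons (nat_lit 1257) (C.ref (nat_lit 52) (nat_lit 11503324906000)) (C.cons (nat_lit 1253) (C.ref (nat_lit 52)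 (nat_lit 11503308129040)) (C.cons (nat_lit 1251) (C.ref (nat_lit 52) (nat_lit 11503291351840)) (C.cons (nat_lit 1241) (C.ref (nat_lit 52) (nat_lit 11503056474640)) (C.cons (nat_lit 1237) (C.ref (nat_lit 52) (nat_lit 11503039697680)) (C.cons (nat_lit 1235) (C.ref (nat_lit 52) (nat_lit 11503022920480)) (C.cons (nat_lit 1229) (C.ref (nat_lit 52) (nat_lit 11502771262480)) (C.cons (nat_lit 1227) (C.ref (nat_lit 52) (nat_lit 11502754485280)) (C.cons (nat_lit 1223) (C.ref (nat_lit 52) (nat_lit 11502486049840)) (C.cons (nat_lit 1209) (C.ref (nat_lit 52) (nat_lit 11498761511440)) (C.cons (nat_lit 1205) (C.ref (nat_lit 52) (nat_lit 11498744734480)) (C.cons (nat_lit 1203) (C.ref (nat_lit 52) (nat_lit 11498727957280)) (C.cons (nat_lit 1197) (C.ref (nat_lit 52) (nat_lit 11498476299280)) (C.cons (nat_lit 1195) (C.ref (nat_lit 52) (nat_lit 11498459522080)) (C.cons (nat_lit 1191) (C.ref (nat_lit 52) (nat_lit 11498191086640)) (C.cons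 (nat_lit 1181) (C.ref (nat_lit 52) (nat_lit 11494181332240)) (C.cons (nat_lit 1179) (C.ref (nat_lit 52) (nat_lit 11494164555040)) (C.cons (nat_lit 1175) (C.ref (nat_lit 52) (nat_lit 11493896119600)) (C.cons (nat_lit 1167) (C.ref (nat_lit 52) (nat_lit 11489601152320)) (C.cons (nat_lit 1145) (C.ref (nat_lit 52) (nat_lit 11430042038800)) (C.cons (nat_lit 1141) (C.ref (nat_lit 52) (nat_lit 11430025261840)) (C.cons (nat_lit 1139) (C.ref (nat_lit 52) (nat_lit 11430008484640)) (C.cons (nat_lit 1133) (C.ref (nat_lit 52) (nat_lit 11429756826640))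
  (C.cons (nat_lit 1131) (C.ref (nat_lit 52) (nat_lit 11429740049440)) (C.cons (nat_lit 1127) (C.ref (nat_lit 52) (nat_lit 11429471614000)) (C.cons (nat_lit 1117) (C.ref (nat_lit 52) (nat_lit 11425461859600)) (C.cons (nat_lit 1115) (C.ref (nat_lit 52) (nat_lit 11425445082400)) (C.cons (nat_lit 1111) (C.ref (nat_lit 52) (nat_lit 11425176646960)) (C.cons (nat_lit 1103) (C.ref (nat_lit 52) (nat_lit 11420881679680)) (C.cons (nat_lit 1085) (C.ref (nat_lit 52) (nat_lit 11356742383120)) (C.cons (nat_lit 1083) (C.ref (nat_lit 52) (nat_lit 11356725605920)) (C.cons (nat_lit 1079) (C.ref (nat_lit 52) (nat_lit 11356457170480)) (C.cons (nat_lit 1071) (C.ref (nat_lit 52) (nat_lit 11352162203200)) (C.cons (nat_lit 1055) (C.ref (nat_lit 52) (nat_lit 11283442726480)) (C.cons (nat_lit 993) (C.ref (nat_lit 52) (nat_lit 10477130494480)) (C.cons (nat_lit 977) (C.ref (nat_lit 52) (nat_lit 10477113782800)) (C.cons (nat_lit 969) (C.ref (nat_lit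 52) (nat_lit 10477097009680)) (C.cons (nat_lit 965) (C.ref (nat_lit 52) (nat_lit 10477080232720)) (C.cons (nat_lit 963) (C.ref (nat_lit 52) (nat_lit 10477063455520)) (C.cons (nat_lit 945) (C.ref (nat_lit 52) (nat_lit 10476845412880)) (C.cons (nat_lit 937) (C.ref (nat_lit 52) (nat_lit 10476828639760)) (C.cons (nat_lit 933) (C.ref (nat_lit 52) (nat_lit 10476811862800)) (C.cons (nat_lit 931) (C.ref (nat_lit 52) (nat_lit 10476795085600)) (C.cons (nat_lit 921) (C.ref (nat_lit 52) (nat_lit 10476560208400)) (C.cons (nat_lit 917) (C.ref (nat_lit 52) (nat_lit 10476543431440)) (C.cons (nat_lit 915) (C.ref (nat_lit 52) (nat_lit 10476526654240)) (C.cons (nat_lit 909) (C.ref (nat_lit 52) (nat_lit 10476274996240)) (C.cons (nat_lit 907) (C.ref (nat_lit 52) (nat_lit 10476258219040)) (C.cons (nat_lit 903) (C.ref (nat_lit 52) (nat_lit 10475989783600)) (C.cons (nat_lit 881) (C.ref (nat_lit 52) (nat_lit 10472550511120)) (C.cons (nat_lit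 873) (C.ref (nat_lit 52) (nat_lit 10472533738000)) (C.cons (nat_lit 869) (C.ref (nat_lit 52) (nat_lit 10472516961040)) (C.cons (nat_lit 867) (C.ref (nat_lit 52) (nat_lit 10472500183840)) (C.cons (nat_lit 857) (C.ref (nat_lit 52) (nat_lit 10472265306640)) (C.cons (nat_lit 853) (C.ref (nat_lit 52) (nat_lit 10472248529680)) (C.cons (nat_lit 851) (C.ref (nat_lit 52) (nat_lit 10472231752480)) (C.cons (nat_lit 845) (C.ref (nat_lit 52) (nat_lit 10471980094480)) (C.cons (nat_lit 843) (C.ref (nat_lit 52) (nat_lit 10471963317280)) (C.cons (nat_lit 839) (C.ref (nat_lit 52) (nat_lit 10471694881840)) (C.cons (nat_lit 825) (C.ref (nat_lit 52) (nat_lit 10467970343440)) (C.cons (nat_lit 821) (C.ref (nat_lit 52) (nat_lit 10467953566480)) (C.cons (nat_lit 819) (C.ref (nat_lit 52) (nat_lit 10467936789280)) (C.cons (nat_lit 813) (C.ref (nat_lit 52) (nat_lit 10467685131280)) (C.cons (nat_lit 811) (C.ref (nat_lit 52) (nat_lit 10467668354080))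 (C.cons (nat_lit 807) (C.ref (nat_lit 52) (nat_lit 10467399918640)) (C.cons (nat_lit 797) (C.ref (nat_lit 52) (nat_lit 10463390164240)) (C.cons (nat_lit 795) (C.ref (nat_lit 52) (nat_lit 10463373387040)) (C.cons (nat_lit 791) (C.ref (nat_lit 52) (nat_lit 10463104951600)) (C.cons (nat_lit 783) (C.ref (nat_lit 52) (nat_lit 10458809984320)) (C.cons (nat_lit 753) (C.ref (nat_lit 52) (nat_lit 10403831099920)) (C.cons (nat_lit 745) (C.ref (nat_lit 52) (nat_lit 10403814326800)) (C.cons (nat_lit 741) (C.ref (nat_lit 52) (nat_lit 10403797549840)) (C.cons (nat_lit 739) (C.ref (nat_lit 52) (nat_lit 10403780772640)) (C.cons (nat_lit 729) (C.ref (nat_lit 52) (nat_lit 10403545895440)) (C.cons (nat_lit 725) (C.ref (nat_lit 52) (nat_lit 10403529118480)) (C.cons (nat_lit 723) (C.ref (nat_lit 52) (nat_lit 10403512341280)) (C.cons (nat_lit 717) (C.ref (nat_lit 52) (nat_lit 10403260683280)) (C.cons (nat_lit 715) (C.ref (nat_lit 52) (nat_lit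 10403243906080)) (C.cons (nat_lit 711) (C.ref (nat_lit 52) (nat_lit 10402975470640)) (C.cons (nat_lit 697) (C.ref (nat_lit 52) (nat_lit 10399250932240)) (C.cons (nat_lit 693) (C.ref (nat_lit 52) (nat_lit 10399234155280)) (C.cons (nat_lit 691)
  (C.ref (nat_lit 52) (nat_lit 10399217378080)) (C.cons (nat_lit 685) (C.ref (nat_lit 52) (nat_lit 10398965720080)) (C.cons (nat_lit 683) (C.ref (nat_lit 52) (nat_lit 10398948942880)) (C.cons (nat_lit 679) (C.ref (nat_lit 52) (nat_lit 10398680507440)) (C.cons (nat_lit 669) (C.ref (nat_lit 52) (nat_lit 10394670753040)) (C.cons (nat_lit 667) (C.ref (nat_lit 52) (nat_lit 10394653975840)) (C.cons (nat_lit 663) (C.ref (nat_lit 52) (nat_lit 10394385540400)) (C.cons (nat_lit 655) (C.ref (nat_lit 52) (nat_lit 10390090573120)) (C.cons (nat_lit 633) (C.ref (nat_lit 52) (nat_lit 10330531459600)) (C.cons (nat_lit 629) (C.ref (nat_lit 52) (nat_lit 10330514682640)) (C.cons (nat_lit 627) (C.ref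 (nat_lit 52) (nat_lit 10330497905440)) (C.cons (nat_lit 621) (C.ref (nat_lit 52) (nat_lit 10330246247440)) (C.cons (nat_lit 619) (C.ref (nat_lit 52) (nat_lit 10330229470240)) (C.cons (nat_lit 615) (C.ref (nat_lit 52) (nat_lit 10329961034800)) (C.cons (nat_lit 605) (C.ref (nat_lit 52) (nat_lit 10325951280400)) (C.cons (nat_lit 603) (C.ref (nat_lit 52) (nat_lit 10325934503200)) (C.cons (nat_lit 599) (C.ref (nat_lit 52) (nat_lit 10325666067760)) (C.cons (nat_lit 591) (C.ref (nat_lit 52) (nat_lit 10321371100480)) (C.cons (nat_lit 573) (C.ref (nat_lit 52) (nat_lit 10257231803920)) (C.cons (nat_lit 571) (C.ref (nat_lit 52) (nat_lit 10257215026720)) (C.cons (nat_lit 567) (C.ref (nat_lit 52) (nat_lit 10256946591280)) (C.cons (nat_lit 559) (C.ref (nat_lit 52) (nat_lit 10252651624000)) (C.cons (nat_lit 543) (C.ref (nat_lit 52) (nat_lit 10183932147280)) (C.cons (nat_lit 497) (C.ref (nat_lit 52) (nat_lit 9304319537680)) (C.cons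 (nat_lit 489) (C.ref (nat_lit 52) (nat_lit 9304302764560)) (C.cons (nat_lit 485) (C.ref (nat_lit 52) (nat_lit 9304285987600)) (C.cons (nat_lit 483) (C.ref (nat_lit 52) (nat_lit 9304269210400)) (C.cons (nat_lit 473) (C.ref (nat_lit 52) (nat_lit 9304034333200)) (C.cons (nat_lit 469) (C.ref (nat_lit 52) (nat_lit 9304017556240)) (C.cons (nat_lit 467) (C.ref (nat_lit 52) (nat_lit 9304000779040)) (C.cons (nat_lit 461) (C.ref (nat_lit 52) (nat_lit 9303749121040)) (C.cons (nat_lit 459) (C.ref (nat_lit 52) (nat_lit 9303732343840)) (C.cons (nat_lit 455) (C.ref (nat_lit 52) (nat_lit 9303463908400)) (C.cons (nat_lit 441) (C.ref (nat_lit 52) (nat_lit 9299739370000)) (C.cons (nat_lit 437) (C.ref (nat_lit 52) (nat_lit 9299722593040)) (C.cons (nat_lit 435) (C.ref (nat_lit 52) (nat_lit 9299705815840)) (C.cons (nat_lit 429) (C.ref (nat_lit 52) (nat_lit 9299454157840)) (C.cons (nat_lit 427) (C.ref (nat_lit 52) (nat_lit 9299437380640))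 (C.cons (nat_lit 423) (C.ref (nat_lit 52) (nat_lit 9299168945200)) (C.cons (nat_lit 413) (C.ref (nat_lit 52) (nat_lit 9295159190800)) (C.cons (nat_lit 411) (C.ref (nat_lit 52) (nat_lit 9295142413600)) (C.cons (nat_lit 407) (C.ref (nat_lit 52) (nat_lit 9294873978160)) (C.cons (nat_lit 399) (C.ref (nat_lit 52) (nat_lit 9290579010880)) (C.cons (nat_lit 377) (C.ref (nat_lit 52) (nat_lit 9231019897360)) (C.cons (nat_lit 373) (C.ref (nat_lit 52) (nat_lit 9231003120400)) (C.cons (nat_lit 371) (C.ref (nat_lit 52) (nat_lit 9230986343200)) (C.cons (nat_lit 365) (C.ref (nat_lit 52) (nat_lit 9230734685200)) (C.cons (nat_lit 363) (C.ref (nat_lit 52) (nat_lit 9230717908000)) (C.cons (nat_lit 359) (C.ref (nat_lit 52) (nat_lit 9230449472560)) (C.cons (nat_lit 349) (C.ref (nat_lit 52) (nat_lit 9226439718160)) (C.cons (nat_lit 347) (C.ref (nat_lit 52) (nat_lit 9226422940960)) (C.cons (nat_lit 343) (C.ref (nat_lit 52) (nat_lit 9226154505520))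 (C.cons (nat_lit 335) (C.ref (nat_lit 52) (nat_lit 9221859538240)) (C.cons (nat_lit 317) (C.ref (nat_lit 52) (nat_lit 9157720241680)) (C.cons (nat_lit 315) (C.ref (nat_lit 52) (nat_lit 9157703464480)) (C.cons (nat_lit 311) (C.ref (nat_lit 52) (nat_lit 9157435029040)) (C.cons (nat_lit 303) (C.ref (nat_lit 52) (nat_lit 9153140061760)) (C.cons (nat_lit 287) (C.ref (nat_lit 52) (nat_lit 9084420585040)) (C.cons (nat_lit 249) (C.ref (nat_lit 52) (nat_lit 8131508273680)) (C.cons (nat_lit 245)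
  (C.ref (nat_lit 52) (nat_lit 8131491496720)) (C.cons (nat_lit 243) (C.ref (nat_lit 52) (nat_lit 8131474719520)) (C.cons (nat_lit 237) (C.ref (nat_lit 52) (nat_lit 8131223061520)) (C.cons (nat_lit 235) (C.ref (nat_lit 52) (nat_lit 8131206284320)) (C.cons (nat_lit 231) (C.ref (nat_lit 52) (nat_lit 8130937848880)) (C.cons (nat_lit 221) (C.ref (nat_lit 52) (nat_lit 8126928094480)) (C.cons (nat_lit 219) (C.ref (nat_lit 52) (nat_lit 8126911317280)) (C.cons (nat_lit 215) (C.ref (nat_lit 52) (nat_lit 8126642881840)) (C.cons (nat_lit 207) (C.ref (nat_lit 52) (nat_lit 8122347914560)) (C.cons (nat_lit 189) (C.ref (nat_lit 52) (nat_lit 8058208618000)) (C.cons (nat_lit 187) (C.ref (nat_lit 52) (nat_lit 8058191840800)) (C.cons (nat_lit 183) (C.ref (nat_lit 52) (nat_lit 8057923405360)) (C.cons (nat_lit 175) (C.ref (nat_lit 52) (nat_lit 8053628438080)) (C.cons (nat_lit 159) (C.ref (nat_lit 52) (nat_lit 7984908961360)) (C.cons (nat_lit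 125) (C.ref (nat_lit 52) (nat_lit 6958696990480)) (C.cons (nat_lit 123) (C.ref (nat_lit 52) (nat_lit 6958680213280)) (C.cons (nat_lit 119) (C.ref (nat_lit 52) (nat_lit 6958411777840)) (C.cons (nat_lit 111) (C.ref (nat_lit 52) (nat_lit 6954116810560)) (C.cons (nat_lit 95) (C.ref (nat_lit 52) (nat_lit 6885397333840)) (C.cons (nat_lit 63) (C.ref (nat_lit 52) (nat_lit 5785885706080)) C.nil)))))))))))))))))))))))))))))))))))))))))))))))))))))))))))))))))))))))))))))))))))))))))))))))))))))))))))))))))))))))))))))))))))))))))))))))))))))))))))))))))))))))))))))))))))))))))))))))))))))))))))))))))))))))))))))))))))))))))))))))))))))))))))) (C.big (C.cons (nat_lit 1921) (C.ref (nat_lit 271) (nat_lit 11649936536080)) (C.cons (nat_lit 1857) (C.ref (nat_lit 271) (nat_lit 11649684877840)) (C.cons (nat_lit 1825) (C.ref (nat_lit 271) (nat_lit 11649417490960)) (C.cons (nat_lit 1809) (C.ref (nat_lit 271) (nat_lit 11649149121040)) (C.cons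 (nat_lit 1801) (C.ref (nat_lit 271) (nat_lit 11648880689680)) (C.cons (nat_lit 1797) (C.ref (nat_lit 271) (nat_lit 11648612254480)) (C.cons (nat_lit 1795) (C.ref (nat_lit 271) (nat_lit 11648343819040)) (C.cons (nat_lit 1729) (C.ref (nat_lit 271) (nat_lit 11645406687760)) (C.cons (nat_lit 1697) (C.ref (nat_lit 271) (nat_lit 11645139300880)) (C.cons (nat_lit 1681) (C.ref (nat_lit 271) (nat_lit 11644870930960)) (C.cons (nat_lit 1673) (C.ref (nat_lit 271) (nat_lit 11644602499600)) (C.cons (nat_lit 1669) (C.ref (nat_lit 271) (nat_lit 11644334064400)) (C.cons (nat_lit 1667) (C.ref (nat_lit 271) (nat_lit 11644065628960)) (C.cons (nat_lit 1633) (C.ref (nat_lit 271) (nat_lit 11640845382160)) (C.cons (nat_lit 1617) (C.ref (nat_lit 271) (nat_lit 11640577012240)) (C.cons (nat_lit 1609) (C.ref (nat_lit 271) (nat_lit 11640308580880)) (C.cons (nat_lit 1605) (C.ref (nat_lit 271) (nat_lit 11640040145680)) (C.cons (nat_lit 1603) (C.ref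 (nat_lit 271) (nat_lit 11639771710240)) (C.cons (nat_lit 1585) (C.ref (nat_lit 271) (nat_lit 11636282110480)) (C.cons (nat_lit 1577) (C.ref (nat_lit 271) (nat_lit 11636013679120)) (C.cons (nat_lit 1573) (C.ref (nat_lit 271) (nat_lit 11635745243920)) (C.cons (nat_lit 1571) (C.ref (nat_lit 271) (nat_lit 11635476808480)) (C.cons (nat_lit 1561) (C.ref (nat_lit 271) (nat_lit 11631718715920)) (C.cons (nat_lit 1557) (C.ref (nat_lit 271) (nat_lit 11631450280720)) (C.cons (nat_lit 1555) (C.ref (nat_lit 271) (nat_lit 11631181845280)) (C.cons (nat_lit 1549) (C.ref (nat_lit 271) (nat_lit 11627155313680)) (C.cons (nat_lit 1547) (C.ref (nat_lit 271) (nat_lit 11626886878240)) (C.cons (nat_lit 1543) (C.ref (nat_lit 271) (nat_lit 11622591910960)) (C.cons (nat_lit 1473) (C.ref (nat_lit 271) (nat_lit 11576703988240)) (C.cons (nat_lit 1441) (C.ref (nat_lit 271) (nat_lit 11576436601360)) (C.cons (nat_lit 1425) (C.ref (nat_lit 271) (nat_lit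 11576168231440)) (C.cons (nat_lit 1417) (C.ref (nat_lit 271) (nat_lit 11575899800080)) (C.cons (nat_lit 1413) (C.ref (nat_lit 271) (nat_lit 11575631364880)) (C.cons (nat_lit 1411) (C.ref (nat_lit 271) (nat_lit 11575362929440)) (C.cons (nat_lit 1377)
  (C.ref (nat_lit 271) (nat_lit 11572142682640)) (C.cons (nat_lit 1361) (C.ref (nat_lit 271) (nat_lit 11571874312720)) (C.cons (nat_lit 1353) (C.ref (nat_lit 271) (nat_lit 11571605881360)) (C.cons (nat_lit 1349) (C.ref (nat_lit 271) (nat_lit 11571337446160)) (C.cons (nat_lit 1347) (C.ref (nat_lit 271) (nat_lit 11571069010720)) (C.cons (nat_lit 1329) (C.ref (nat_lit 271) (nat_lit 11567579410960)) (C.cons (nat_lit 1321) (C.ref (nat_lit 271) (nat_lit 11567310979600)) (C.cons (nat_lit 1317) (C.ref (nat_lit 271) (nat_lit 11567042544400)) (C.cons (nat_lit 1315) (C.ref (nat_lit 271) (nat_lit 11566774108960)) (C.cons (nat_lit 1305) (C.ref (nat_lit 271) (nat_lit 11563016016400))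 (C.cons (nat_lit 1301) (C.ref (nat_lit 271) (nat_lit 11562747581200)) (C.cons (nat_lit 1299) (C.ref (nat_lit 271) (nat_lit 11562479145760)) (C.cons (nat_lit 1293) (C.ref (nat_lit 271) (nat_lit 11558452614160)) (C.cons (nat_lit 1291) (C.ref (nat_lit 271) (nat_lit 11558184178720)) (C.cons (nat_lit 1287) (C.ref (nat_lit 271) (nat_lit 11553889211440)) (C.cons (nat_lit 1249) (C.ref (nat_lit 271) (nat_lit 11503424254480)) (C.cons (nat_lit 1233) (C.ref (nat_lit 271) (nat_lit 11503155884560)) (C.cons (nat_lit 1225) (C.ref (nat_lit 271) (nat_lit 11502887453200)) (C.cons (nat_lit 1221) (C.ref (nat_lit 271) (nat_lit 11502619018000)) (C.cons (nat_lit 1219) (C.ref (nat_lit 271) (nat_lit 11502350582560)) (C.cons (nat_lit 1201) (C.ref (nat_lit 271) (nat_lit 11498860982800)) (C.cons (nat_lit 1193) (C.ref (nat_lit 271) (nat_lit 11498592551440)) (C.cons (nat_lit 1189) (C.ref (nat_lit 271) (nat_lit 11498324116240)) (C.cons (nat_lit 1187)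 (C.ref (nat_lit 271) (nat_lit 11498055680800)) (C.cons (nat_lit 1177) (C.ref (nat_lit 271) (nat_lit 11494297588240)) (C.cons (nat_lit 1173) (C.ref (nat_lit 271) (nat_lit 11494029153040)) (C.cons (nat_lit 1171) (C.ref (nat_lit 271) (nat_lit 11493760717600)) (C.cons (nat_lit 1165) (C.ref (nat_lit 271) (nat_lit 11489734186000)) (C.cons (nat_lit 1163) (C.ref (nat_lit 271) (nat_lit 11489465750560)) (C.cons (nat_lit 1159) (C.ref (nat_lit 271) (nat_lit 11485170783280)) (C.cons (nat_lit 1137) (C.ref (nat_lit 271) (nat_lit 11430141571600)) (C.cons (nat_lit 1129) (C.ref (nat_lit 271) (nat_lit 11429873140240)) (C.cons (nat_lit 1125) (C.ref (nat_lit 271) (nat_lit 11429604705040)) (C.cons (nat_lit 1123) (C.ref (nat_lit 271) (nat_lit 11429336269600)) (C.cons (nat_lit 1113) (C.ref (nat_lit 271) (nat_lit 11425578177040)) (C.cons (nat_lit 1109) (C.ref (nat_lit 271) (nat_lit 11425309741840)) (C.cons (nat_lit 1107) (C.ref (nat_lit 271)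 (nat_lit 11425041306400)) (C.cons (nat_lit 1101) (C.ref (nat_lit 271) (nat_lit 11421014774800)) (C.cons (nat_lit 1099) (C.ref (nat_lit 271) (nat_lit 11420746339360)) (C.cons (nat_lit 1095) (C.ref (nat_lit 271) (nat_lit 11416451372080)) (C.cons (nat_lit 1081) (C.ref (nat_lit 271) (nat_lit 11356858704400)) (C.cons (nat_lit 1077) (C.ref (nat_lit 271) (nat_lit 11356590269200)) (C.cons (nat_lit 1075) (C.ref (nat_lit 271) (nat_lit 11356321833760)) (C.cons (nat_lit 1069) (C.ref (nat_lit 271) (nat_lit 11352295302160)) (C.cons (nat_lit 1067) (C.ref (nat_lit 271) (nat_lit 11352026866720)) (C.cons (nat_lit 1063) (C.ref (nat_lit 271) (nat_lit 11347731899440)) (C.cons (nat_lit 1053) (C.ref (nat_lit 271) (nat_lit 11283575825680)) (C.cons (nat_lit 1051) (C.ref (nat_lit 271) (nat_lit 11283307390240)) (C.cons (nat_lit 1047) (C.ref (nat_lit 271) (nat_lit 11279012422960)) (C.cons (nat_lit 1039) (C.ref (nat_lit 271) (nat_lit 11210292946240))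 (C.cons (nat_lit 961) (C.ref (nat_lit 271) (nat_lit 10477209137680)) (C.cons (nat_lit 929) (C.ref (nat_lit 271) (nat_lit 10476941750800)) (C.cons (nat_lit 913) (C.ref (nat_lit 271) (nat_lit 10476673380880)) (C.cons (nat_lit 905) (C.ref (nat_lit 271) (nat_lit 10476404949520)) (C.cons (nat_lit 901) (C.ref (nat_lit 271) (nat_lit 10476136514320)) (C.cons (nat_lit 899) (C.ref (nat_lit 271) (nat_lit 10475868078880)) (C.cons (nat_lit 865) (C.ref (nat_lit 271) (nat_lit 10472647832080)) (C.cons (nat_lit 849)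
  (C.ref (nat_lit 271) (nat_lit 10472379462160)) (C.cons (nat_lit 841) (C.ref (nat_lit 271) (nat_lit 10472111030800)) (C.cons (nat_lit 837) (C.ref (nat_lit 271) (nat_lit 10471842595600)) (C.cons (nat_lit 835) (C.ref (nat_lit 271) (nat_lit 10471574160160)) (C.cons (nat_lit 817) (C.ref (nat_lit 271) (nat_lit 10468084560400)) (C.cons (nat_lit 809) (C.ref (nat_lit 271) (nat_lit 10467816129040)) (C.cons (nat_lit 805) (C.ref (nat_lit 271) (nat_lit 10467547693840)) (C.cons (nat_lit 803) (C.ref (nat_lit 271) (nat_lit 10467279258400)) (C.cons (nat_lit 793) (C.ref (nat_lit 271) (nat_lit 10463521165840)) (C.cons (nat_lit 789) (C.ref (nat_lit 271) (nat_lit 10463252730640)) (C.cons (nat_lit 787) (C.ref (nat_lit 271) (nat_lit 10462984295200)) (C.cons (nat_lit 781) (C.ref (nat_lit 271) (nat_lit 10458957763600)) (C.cons (nat_lit 779) (C.ref (nat_lit 271) (nat_lit 10458689328160)) (C.cons (nat_lit 775) (C.ref (nat_lit 271) (nat_lit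 10454394360880)) (C.cons (nat_lit 737) (C.ref (nat_lit 271) (nat_lit 10403929403920)) (C.cons (nat_lit 721) (C.ref (nat_lit 271) (nat_lit 10403661034000)) (C.cons (nat_lit 713) (C.ref (nat_lit 271) (nat_lit 10403392602640)) (C.cons (nat_lit 709) (C.ref (nat_lit 271) (nat_lit 10403124167440)) (C.cons (nat_lit 707) (C.ref (nat_lit 271) (nat_lit 10402855732000)) (C.cons (nat_lit 689) (C.ref (nat_lit 271) (nat_lit 10399366132240)) (C.cons (nat_lit 681) (C.ref (nat_lit 271) (nat_lit 10399097700880)) (C.cons (nat_lit 677) (C.ref (nat_lit 271) (nat_lit 10398829265680)) (C.cons (nat_lit 675) (C.ref (nat_lit 271) (nat_lit 10398560830240)) (C.cons (nat_lit 665) (C.ref (nat_lit 271) (nat_lit 10394802737680)) (C.cons (nat_lit 661) (C.ref (nat_lit 271) (nat_lit 10394534302480)) (C.cons (nat_lit 659) (C.ref (nat_lit 271) (nat_lit 10394265867040)) (C.cons (nat_lit 653) (C.ref (nat_lit 271) (nat_lit 10390239335440)) (C.cons (nat_lit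 651) (C.ref (nat_lit 271) (nat_lit 10389970900000)) (C.cons (nat_lit 647) (C.ref (nat_lit 271) (nat_lit 10385675932720)) (C.cons (nat_lit 625) (C.ref (nat_lit 271) (nat_lit 10330646721040)) (C.cons (nat_lit 617) (C.ref (nat_lit 271) (nat_lit 10330378289680)) (C.cons (nat_lit 613) (C.ref (nat_lit 271) (nat_lit 10330109854480)) (C.cons (nat_lit 611) (C.ref (nat_lit 271) (nat_lit 10329841419040)) (C.cons (nat_lit 601) (C.ref (nat_lit 271) (nat_lit 10326083326480)) (C.cons (nat_lit 597) (C.ref (nat_lit 271) (nat_lit 10325814891280)) (C.cons (nat_lit 595) (C.ref (nat_lit 271) (nat_lit 10325546455840)) (C.cons (nat_lit 589) (C.ref (nat_lit 271) (nat_lit 10321519924240)) (C.cons (nat_lit 587) (C.ref (nat_lit 271) (nat_lit 10321251488800)) (C.cons (nat_lit 583) (C.ref (nat_lit 271) (nat_lit 10316956521520)) (C.cons (nat_lit 569) (C.ref (nat_lit 271) (nat_lit 10257363853840)) (C.cons (nat_lit 565) (C.ref (nat_lit 271) (nat_lit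 10257095418640)) (C.cons (nat_lit 563) (C.ref (nat_lit 271) (nat_lit 10256826983200)) (C.cons (nat_lit 557) (C.ref (nat_lit 271) (nat_lit 10252800451600)) (C.cons (nat_lit 555) (C.ref (nat_lit 271) (nat_lit 10252532016160)) (C.cons (nat_lit 551) (C.ref (nat_lit 271) (nat_lit 10248237048880)) (C.cons (nat_lit 541) (C.ref (nat_lit 271) (nat_lit 10184080975120)) (C.cons (nat_lit 539) (C.ref (nat_lit 271) (nat_lit 10183812539680)) (C.cons (nat_lit 535) (C.ref (nat_lit 271) (nat_lit 10179517572400)) (C.cons (nat_lit 527) (C.ref (nat_lit 271) (nat_lit 10110798095680)) (C.cons (nat_lit 481) (C.ref (nat_lit 271) (nat_lit 9304418824720)) (C.cons (nat_lit 465) (C.ref (nat_lit 271) (nat_lit 9304150454800)) (C.cons (nat_lit 457) (C.ref (nat_lit 271) (nat_lit 9303882023440)) (C.cons (nat_lit 453) (C.ref (nat_lit 271) (nat_lit 9303613588240)) (C.cons (nat_lit 451) (C.ref (nat_lit 271) (nat_lit 9303345152800)) (C.cons (nat_lit 433)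 (C.ref (nat_lit 271) (nat_lit 9299855553040)) (C.cons (nat_lit 425) (C.ref (nat_lit 271) (nat_lit 9299587121680)) (C.cons (nat_lit 421) (C.ref (nat_lit 271) (nat_lit 9299318686480)) (C.cons (nat_lit 419) (C.ref (nat_lit 271) (nat_lit 9299050251040)) (C.cons (nat_lit 409)
  (C.ref (nat_lit 271) (nat_lit 9295292158480)) (C.cons (nat_lit 405) (C.ref (nat_lit 271) (nat_lit 9295023723280)) (C.cons (nat_lit 403) (C.ref (nat_lit 271) (nat_lit 9294755287840)) (C.cons (nat_lit 397) (C.ref (nat_lit 271) (nat_lit 9290728756240)) (C.cons (nat_lit 395) (C.ref (nat_lit 271) (nat_lit 9290460320800)) (C.cons (nat_lit 391) (C.ref (nat_lit 271) (nat_lit 9286165353520)) (C.cons (nat_lit 369) (C.ref (nat_lit 271) (nat_lit 9231136141840)) (C.cons (nat_lit 361) (C.ref (nat_lit 271) (nat_lit 9230867710480)) (C.cons (nat_lit 357) (C.ref (nat_lit 271) (nat_lit 9230599275280)) (C.cons (nat_lit 355) (C.ref (nat_lit 271) (nat_lit 9230330839840))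 (C.cons (nat_lit 345) (C.ref (nat_lit 271) (nat_lit 9226572747280)) (C.cons (nat_lit 341) (C.ref (nat_lit 271) (nat_lit 9226304312080)) (C.cons (nat_lit 339) (C.ref (nat_lit 271) (nat_lit 9226035876640)) (C.cons (nat_lit 333) (C.ref (nat_lit 271) (nat_lit 9222009345040)) (C.cons (nat_lit 331) (C.ref (nat_lit 271) (nat_lit 9221740909600)) (C.cons (nat_lit 327) (C.ref (nat_lit 271) (nat_lit 9217445942320)) (C.cons (nat_lit 313) (C.ref (nat_lit 271) (nat_lit 9157853274640)) (C.cons (nat_lit 309) (C.ref (nat_lit 271) (nat_lit 9157584839440)) (C.cons (nat_lit 307) (C.ref (nat_lit 271) (nat_lit 9157316404000)) (C.cons (nat_lit 301) (C.ref (nat_lit 271) (nat_lit 9153289872400)) (C.cons (nat_lit 299) (C.ref (nat_lit 271) (nat_lit 9153021436960)) (C.cons (nat_lit 295) (C.ref (nat_lit 271) (nat_lit 9148726469680)) (C.cons (nat_lit 285) (C.ref (nat_lit 271) (nat_lit 9084570395920)) (C.cons (nat_lit 283) (C.ref (nat_lit 271) (nat_lit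 9084301960480)) (C.cons (nat_lit 279) (C.ref (nat_lit 271) (nat_lit 9080006993200)) (C.cons (nat_lit 271) (C.ref (nat_lit 271) (nat_lit 9011287516480)) (C.cons (nat_lit 241) (C.ref (nat_lit 271) (nat_lit 8131624579600)) (C.cons (nat_lit 233) (C.ref (nat_lit 271) (nat_lit 8131356148240)) (C.cons (nat_lit 229) (C.ref (nat_lit 271) (nat_lit 8131087713040)) (C.cons (nat_lit 227) (C.ref (nat_lit 271) (nat_lit 8130819277600)) (C.cons (nat_lit 217) (C.ref (nat_lit 271) (nat_lit 8127061185040)) (C.cons (nat_lit 213) (C.ref (nat_lit 271) (nat_lit 8126792749840)) (C.cons (nat_lit 211) (C.ref (nat_lit 271) (nat_lit 8126524314400)) (C.cons (nat_lit 205) (C.ref (nat_lit 271) (nat_lit 8122497782800)) (C.cons (nat_lit 203) (C.ref (nat_lit 271) (nat_lit 8122229347360)) (C.cons (nat_lit 199) (C.ref (nat_lit 271) (nat_lit 8117934380080)) (C.cons (nat_lit 185) (C.ref (nat_lit 271) (nat_lit 8058341712400)) (C.cons (nat_lit 181) (C.ref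 (nat_lit 271) (nat_lit 8058073277200)) (C.cons (nat_lit 179) (C.ref (nat_lit 271) (nat_lit 8057804841760)) (C.cons (nat_lit 173) (C.ref (nat_lit 271) (nat_lit 8053778310160)) (C.cons (nat_lit 171) (C.ref (nat_lit 271) (nat_lit 8053509874720)) (C.cons (nat_lit 167) (C.ref (nat_lit 271) (nat_lit 8049214907440)) (C.cons (nat_lit 157) (C.ref (nat_lit 271) (nat_lit 7985058833680)) (C.cons (nat_lit 155) (C.ref (nat_lit 271) (nat_lit 7984790398240)) (C.cons (nat_lit 151) (C.ref (nat_lit 271) (nat_lit 7980495430960)) (C.cons (nat_lit 143) (C.ref (nat_lit 271) (nat_lit 7911775954240)) (C.cons (nat_lit 121) (C.ref (nat_lit 271) (nat_lit 6958830088720)) (C.cons (nat_lit 117) (C.ref (nat_lit 271) (nat_lit 6958561653520)) (C.cons (nat_lit 115) (C.ref (nat_lit 271) (nat_lit 6958293218080)) (C.cons (nat_lit 109) (C.ref (nat_lit 271) (nat_lit 6954266686480)) (C.cons (nat_lit 107) (C.ref (nat_lit 271) (nat_lit 6953998251040)) (C.cons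 (nat_lit 103) (C.ref (nat_lit 271) (nat_lit 6949703283760)) (C.cons (nat_lit 93) (C.ref (nat_lit 271) (nat_lit 6885547210000)) (C.cons (nat_lit 91) (C.ref (nat_lit 271) (nat_lit 6885278774560)) (C.cons (nat_lit 87) (C.ref (nat_lit 271) (nat_lit 6880983807280)) (C.cons (nat_lit 79) (C.ref (nat_lit 271) (nat_lit 6812264330560)) (C.cons (nat_lit 61) (C.ref (nat_lit 271) (nat_lit 5786035582480)) (C.cons (nat_lit 59) (C.ref (nat_lit 271) (nat_lit 5785767147040)) (C.cons (nat_lit 55) (C.ref (nat_lit 271) (nat_lit 5781472179760))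
  (C.cons (nat_lit 47) (C.ref (nat_lit 271) (nat_lit 5712752703040)) (C.cons (nat_lit 31) (C.ref (nat_lit 271) (nat_lit 4613241075280)) C.nil)))))))))))))))))))))))))))))))))))))))))))))))))))))))))))))))))))))))))))))))))))))))))))))))))))))))))))))))))))))))))))))))))))))))))))))))))))))))))))))))))))))))))))))))))))))))))))))))))))))))))))))))))) (C.node (nat_lit 0) (nat_lit 1) (nat_lit 2) (C.cons (nat_lit 1031) (C.ref (nat_lit 294) (nat_lit 11649936536080)) (C.cons (nat_lit 519) (C.ref (nat_lit 294) (nat_lit 10619144385040)) (C.cons (nat_lit 263) (C.ref (nat_lit 294) (nat_lit 9523927724560)) (C.cons (nat_lit 135) (C.ref (nat_lit 294) (nat_lit 8424684532240)) (C.cons (nat_lit 71) (C.ref (nat_lit 294) (nat_lit 7325189681680)) (C.cons (nat_lit 39) (C.ref (nat_lit 294) (nat_lit 6225679102480)) (C.cons (nat_lit 23) (C.ref (nat_lit 294) (nat_lit 5126167540240)) (C.cons (nat_lit 15) (C.ref (nat_lit 294) (nat_lit 4026655916560))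 (C.cons (nat_lit 7) (C.node (nat_lit 0) (nat_lit 1) (nat_lit 3) (C.cons (nat_lit 1035) (C.ref (nat_lit 293) (nat_lit 11649936532240)) (C.cons (nat_lit 523) (C.ref (nat_lit 293) (nat_lit 10619144381200)) (C.cons (nat_lit 267) (C.ref (nat_lit 293) (nat_lit 9523927720720)) (C.cons (nat_lit 139) (C.ref (nat_lit 293) (nat_lit 8424684528400)) (C.cons (nat_lit 75) (C.ref (nat_lit 293) (nat_lit 7325189677840)) (C.cons (nat_lit 43) (C.ref (nat_lit 293) (nat_lit 6225679098640)) (C.cons (nat_lit 27) (C.ref (nat_lit 293) (nat_lit 5126167536400)) (C.cons (nat_lit 11) (C.node (nat_lit 0) (nat_lit 1) (nat_lit 4) (C.cons (nat_lit 1043) (C.ref (nat_lit 292) (nat_lit 11649936466960)) (C.cons (nat_lit 531) (C.ref (nat_lit 292) (nat_lit 10619144315920)) (C.cons (nat_lit 275) (C.ref (nat_lit 292) (nat_lit 9523927655440)) (C.cons (nat_lit 147) (C.ref (nat_lit 292) (nat_lit 8424684463120)) (C.cons (nat_lit 83) (C.ref (nat_lit 292) (nat_lit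 7325189612560)) (C.cons (nat_lit 51) (C.ref (nat_lit 292) (nat_lit 6225679033360)) (C.cons (nat_lit 19) (C.node (nat_lit 0) (nat_lit 1) (nat_lit 5) (C.cons (nat_lit 1059) (C.ref (nat_lit 291) (nat_lit 11649935418640)) (C.cons (nat_lit 547) (C.ref (nat_lit 291) (nat_lit 10619143267600)) (C.cons (nat_lit 291) (C.ref (nat_lit 291) (nat_lit 9523926607120)) (C.cons (nat_lit 163) (C.ref (nat_lit 291) (nat_lit 8424683414800)) (C.cons (nat_lit 99) (C.ref (nat_lit 291) (nat_lit 7325188564240)) C.nil)))))) C.nil)))))))) C.nil))))))))) C.nil)))))))))))) List.nil)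

theorem ok11_295 : okL par11 (nat_lit 296) c11_295 (nat_lit 295) = true := by decide +kernel


end Pool.Agent.MP_1f1ca1_co
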