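import Pool.Agent.MP_1f1ca1_co.Cert.P12

set_option autoImplicit false
set_option maxRecDepth 1000000
set_option maxHeartbeats 0

namespace Pool.Agent.MP_1f1ca1_co

noncomputable def c12_0 : List C :=
  (List.cons (C.big C.nil (C.node (nat_lit 0) (nat_lit 1) (nat_lit 11) (C.cons (nat_lit 2051) (C.node (nat_lit 0) (nat_lit 2) (nat_lit 11) (C.cons (nat_lit 2053) (C.node (nat_lit 0) (nat_lit 3) (nat_lit 10) (C.cons (nat_lit 1033) (C.node (nat_lit 0) (nat_lit 4) (nat_lit 10) (C.cons (nat_lit 1041) (C.node (nat_lit 0) (nat_lit 5) (nat_lit 10) (C.cons (nat_lit 1057) (C.node (nat_lit 0) (nat_lit 6) (nat_lit 7) (C.cons (nat_lit 193) (C.node (nat_lit 0) (nat_lit 6) (nat_lit 8) (C.cons (nat_lit 321) (C.node (nat_lit 0) (nat_lit 6) (nat_lit 9) (C.cons (nat_lit 577) (C.node (nat_lit 0) (nat_lit 3) (nat_lit 7) (C.cons (nat_lit 141) (C.node (nat_lit 0) (nat_lit 3) (nat_lit 8) (C.cons (nat_lit 267) (C.node (nat_lit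 0) (nat_lit 3) (nat_lit 9) C.nil) C.nil)) (C.cons (nat_lit 139) (C.node (nat_lit 0) (nat_lit 3) (nat_lit 8) (C.cons (nat_lit 269) (C.node (nat_lit 0) (nat_lit 3) (nat_lit 9) C.nil) C.nil)) C.nil))) C.nil)) C.nil)) C.nil)) C.nil)) C.nil)) C.nil)) C.nil)) C.nil))) (List.cons (C.node (nat_lit 0) (nat_lit 1) (nat_lit 5) (C.cons (nat_lit 1059) (C.qs (C.cons (nat_lit 75008) (C.pat (nat_lit 1) (nat_lit 2554805281) (nat_lit 1386657717983539798360599175952662801)) (C.cons (nat_lit 70912) (C.pat (nat_lit 1) (nat_lit 2050513953) (nat_lit 5498956830088187737572303043360523273)) (C.cons (nat_lit 74496) (C.pat (nat_lit 1) (nat_lit 2554805281) (nat_lit 1386657717983539798360599175952662801)) (C.cons (nat_lit 70400) (C.pat (nat_lit 0) (nat_lit 213542706) (nat_lit 314456810360854438688399338832013)) (C.cons (nat_lit 74816) (C.pat (nat_lit 0) (nat_lit 213538625) (nat_lit 314456771675375784972855422419091)) (C.cons (nat_lit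 74304) (C.pat (nat_lit 1) (nat_lit 2808695841) (nat_lit 763582095481626029475003735869817025)) (C.cons (nat_lit 8800) (C.pat (nat_lit 1) (nat_lit 3398723378) (nat_lit 5675262943540104969382120011750510465)) (C.cons (nat_lit 74768) (C.pat (nat_lit 0) (nat_lit 213477425) (nat_lit 314456965093914616395194377109771)) (C.cons (nat_lit 70672) (C.pat (nat_lit 1) (nat_lit 2050513953) (nat_lit 5498956830088187737572303043360523273)) (C.cons (nat_lit 5264) (C.pat (nat_lit 1) (nat_lit 3366344498) (nat_lit 1521368413112230465067152763935854465)) (C.cons (nat_lit 73808) (C.pat (nat_lit 0) (nat_lit 213477425) (nat_lit 314456965093914616395194377109771)) (C.cons (nat_lit 66640) (C.pat (nat_lit 0) (nat_lit 213538625) (nat_lit 314456771675375784972855422419091)) (C.cons (nat_lit 9296) (C.pat (nat_lit 4) (nat_lit 869850518627) (nat_lit 5800748368973546353978373052233276332896900768531011)) (C.cons (nat_lit 74832) (C.pat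 (nat_lit 0) (nat_lit 213477425) (nat_lit 314456965093914616395194377109771)) (C.cons (nat_lit 9480) (C.pat (nat_lit 1) (nat_lit 3365164850) (nat_lit 1521364609483431321250640747914923905)) (C.cons (nat_lit 5380) (C.pat (nat_lit 1) (nat_lit 3349497905) (nat_lit 763280395219041937176124737533316993)) (C.cons (nat_lit 70146) (C.pat (nat_lit 0) (nat_lit 213542706) (nat_lit 314456810360854438688399338832013)) (C.cons (nat_lit 69890) (C.pat (nat_lit 0) (nat_lit 213408066) (nat_lit 314457235888723417541849523749397)) (C.cons (nat_lit 66306) (C.pat (nat_lit 0) (nat_lit 213408066) (nat_lit 314457235888723417541849523749397)) (C.cons (nat_lit 4866) (C.pat (nat_lit 4) (nat_lit 178914096227) (nat_lit 5800748369234206655502968993208654591265668798152897)) (C.cons (nat_lit 70402) (C.pat (nat_lit 0) (nat_lit 213542706) (nat_lit 314456810360854438688399338832013)) (C.cons (nat_lit 66114) (C.pat (nat_lit 1) (nat_lit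 2808695841) (nat_lit 763582095481626029475003735869817025)) (C.cons (nat_lit 16962) (C.pat (nat_lit 1) (nat_lit 3383060289) (nat_lit 3006383061720491474469660460286807937)) (C.cons (nat_lit 69650) (C.pat (nat_lit 1) (nat_lit 2304404513) (nat_lit 3006654338948942676534287101742875169)) (C.cons (nat_lit 6162) (C.pat (nat_lit 1) (nat_lit 3383060529) (nat_lit 3006383061720493835650650610691805057)) (C.cons (nat_lit 65618) (C.pat (nat_lit 1) (nat_lit 2304404513) (nat_lit 3006654338948942676534287101742875169)) (C.cons (nat_lit 32850)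
  (C.pat (nat_lit 1) (nat_lit 3366345026) (nat_lit 1521368413112237548619130551844540289)) (C.cons (nat_lit 8961) (C.pat (nat_lit 1) (nat_lit 3348514865) (nat_lit 763282929939958000075790539004907393)) C.nil))))))))))))))))))))))))))))) C.nil)) (List.cons (C.node (nat_lit 0) (nat_lit 5) (nat_lit 8) (C.cons (nat_lit 293) (C.node (nat_lit 0) (nat_lit 6) (nat_lit 8) (C.cons (nat_lit 321) (C.node (nat_lit 0) (nat_lit 2) (nat_lit 6) (C.cons (nat_lit 1093) (C.node (nat_lit 0) (nat_lit 1) (nat_lit 6) (C.cons (nat_lit 579) (C.node (nat_lit 0) (nat_lit 5) (nat_lit 9) (C.cons (nat_lit 545) (C.ref (nat_lit 1) (nat_lit 205163983024656)) C.nil)) (C.cons (nat_lit 67) (C.node (nat_lit 0) (nat_lit 6) (nat_lit 9) C.nil) C.nil))) (C.cons (nat_lit 69) (C.node (nat_lit 0) (nat_lit 2) (nat_lit 10) C.nil) C.nil))) C.nil)) (C.cons (nat_lit 289) (C.node (nat_lit 0) (nat_lit 2) (nat_lit 5) (C.cons (nat_lit 1061) (C.node (nat_lit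 0) (nat_lit 1) (nat_lit 5) (C.cons (nat_lit 547) (C.node (nat_lit 0) (nat_lit 6) (nat_lit 9) (C.cons (nat_lit 577) (C.node (nat_lit 0) (nat_lit 1) (nat_lit 6) (C.cons (nat_lit 1091) (C.ref (nat_lit 1) (nat_lit 202836598346016)) C.nil)) C.nil)) (C.cons (nat_lit 35) (C.node (nat_lit 0) (nat_lit 5) (nat_lit 9) C.nil) C.nil))) (C.cons (nat_lit 37) (C.node (nat_lit 0) (nat_lit 2) (nat_lit 8) (C.cons (nat_lit 325) (C.node (nat_lit 0) (nat_lit 2) (nat_lit 10) C.nil) C.nil)) C.nil))) C.nil))) (List.cons (C.node (nat_lit 0) (nat_lit 4) (nat_lit 9) (C.cons (nat_lit 533) (C.node (nat_lit 0) (nat_lit 4) (nat_lit 10) (C.cons (nat_lit 1041) (C.ref (nat_lit 2) (nat_lit 205163983024656)) C.nil)) (C.cons (nat_lit 529) (C.node (nat_lit 0) (nat_lit 2) (nat_lit 4) (C.cons (nat_lit 1045) (C.ref (nat_lit 2) (nat_lit 204133190873616)) (C.cons (nat_lit 21) (C.node (nat_lit 0) (nat_lit 4) (nat_lit 10) (C.cons (nat_lit 1041)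 (C.node (nat_lit 0) (nat_lit 5) (nat_lit 8) (C.cons (nat_lit 293) (C.node (nat_lit 0) (nat_lit 6) (nat_lit 8) C.nil) C.nil)) C.nil)) C.nil))) C.nil))) (List.cons (C.node (nat_lit 0) (nat_lit 5) (nat_lit 8) (C.cons (nat_lit 293) (C.pat (nat_lit 0) (nat_lit 91765537) (nat_lit 314459199184622835741724588574727)) (C.cons (nat_lit 289) (C.node (nat_lit 0) (nat_lit 2) (nat_lit 8) (C.cons (nat_lit 325) (C.ref (nat_lit 2) (nat_lit 198346867765776)) (C.cons (nat_lit 261) (C.node (nat_lit 0) (nat_lit 8) (nat_lit 6) (C.cons (nat_lit 321) (C.node (nat_lit 0) (nat_lit 9) (nat_lit 5) (C.cons (nat_lit 549) (C.node (nat_lit 0) (nat_lit 10) (nat_lit 5) C.nil) C.nil)) C.nil)) C.nil))) C.nil))) (List.cons (C.node (nat_lit 0) (nat_lit 5) (nat_lit 8) (C.cons (nat_lit 293) (C.node (nat_lit 0) (nat_lit 6) (nat_lit 8) (C.cons (nat_lit 321) (C.node (nat_lit 0) (nat_lit 9) (nat_lit 5) (C.cons (nat_lit 547) (C.node (nat_lit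 0) (nat_lit 10) (nat_lit 5) C.nil) C.nil)) C.nil)) (C.cons (nat_lit 289) (C.node (nat_lit 0) (nat_lit 2) (nat_lit 8) (C.cons (nat_lit 325) (C.node (nat_lit 0) (nat_lit 9) (nat_lit 6) (C.cons (nat_lit 579) (C.node (nat_lit 0) (nat_lit 10) (nat_lit 6) C.nil) C.nil)) C.nil)) C.nil))) (List.cons (C.node (nat_lit 0) (nat_lit 4) (nat_lit 7) (C.cons (nat_lit 147) (C.node (nat_lit 0) (nat_lit 5) (nat_lit 7) (C.cons (nat_lit 161) (C.node (nat_lit 0) (nat_lit 6) (nat_lit 7) (C.cons (nat_lit 193) (C.node (nat_lit 0) (nat_lit 4) (nat_lit 8) (C.cons (nat_lit 277) (C.pat (nat_lit 0) (nat_lit 74988321) (nat_lit 314459199184327687836476516272135)) (C.cons (nat_lit 273) (C.ref (nat_lit 3) (nat_lit 205163983024656)) C.nil))) C.nil)) C.nil)) (C.cons (nat_lit 145) (C.node (nat_lit 0) (nat_lit 4) (nat_lit 8) (C.cons (nat_lit 277) (C.node (nat_lit 0) (nat_lit 5) (nat_lit 8) (C.cons (nat_lit 289) (C.node (nat_lit 0) (nat_lit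 6) (nat_lit 8) (C.cons (nat_lit 321) (C.ref (nat_lit 3) (nat_lit 205159956492576)) C.nil)) C.nil)) (C.cons (nat_lit 273) (C.node (nat_lit 0) (nat_lit 5) (nat_lit 7) (C.cons (nat_lit 163) (C.node (nat_lit 0) (nat_lit 6) (nat_lit 7) (C.cons (nat_lit 193) (C.ref (nat_lit 4) (nat_lit 205163983024656)) C.nil)) (C.cons (nat_lit 161)
  (C.node (nat_lit 0) (nat_lit 1) (nat_lit 7) (C.cons (nat_lit 195) (C.ref (nat_lit 4) (nat_lit 205163967296016)) (C.cons (nat_lit 131) (C.node (nat_lit 0) (nat_lit 6) (nat_lit 7) (C.cons (nat_lit 193) (C.ref (nat_lit 5) (nat_lit 205163983024656)) C.nil)) C.nil))) C.nil))) C.nil))) C.nil))) (List.cons (C.node (nat_lit 0) (nat_lit 6) (nat_lit 7) (C.cons (nat_lit 193) (C.node (nat_lit 0) (nat_lit 4) (nat_lit 8) (C.cons (nat_lit 277) (C.node (nat_lit 0) (nat_lit 4) (nat_lit 9) (C.cons (nat_lit 529) (C.node (nat_lit 0) (nat_lit 10) (nat_lit 4) (C.cons (nat_lit 1041) (C.node (nat_lit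 0) (nat_lit 5) (nat_lit 8) (C.cons (nat_lit 291) (C.node (nat_lit 0) (nat_lit 6) (nat_lit 8) C.nil) C.nil)) C.nil)) C.nil)) (C.cons (nat_lit 273) (C.ref (nat_lit 5) (nat_lit 200472876577296)) C.nil))) C.nil)) (List.cons (C.node (nat_lit 0) (nat_lit 4) (nat_lit 7) (C.cons (nat_lit 147) (C.node (nat_lit 0) (nat_lit 5) (nat_lit 7) (C.cons (nat_lit 161) (C.ref (nat_lit 7) (nat_lit 205163983024656)) C.nil)) (C.cons (nat_lit 145) (C.node (nat_lit 0) (nat_lit 5) (nat_lit 7) (C.cons (nat_lit 163) (C.ref (nat_lit 7) (nat_lit 205163982041616)) (C.cons (nat_lit 161) (C.node (nat_lit 0) (nat_lit 1) (nat_lit 7) (C.cons (nat_lit 195) (C.node (nat_lit 0) (nat_lit 6) (nat_lit 8) (C.cons (nat_lit 325) (C.node (nat_lit 0) (nat_lit 6) (nat_lit 9) (C.cons (nat_lit 577) (C.node (nat_lit 0) (nat_lit 10) (nat_lit 6) (C.cons (nat_lit 1089) (C.node (nat_lit 0) (nat_lit 4) (nat_lit 8) (C.cons (nat_lit 275) (C.node (nat_lit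 0) (nat_lit 5) (nat_lit 8) C.nil) C.nil)) C.nil)) C.nil)) (C.cons (nat_lit 321) (C.ref (nat_lit 5) (nat_lit 199313235407376)) C.nil))) (C.cons (nat_lit 131) (C.node (nat_lit 0) (nat_lit 6) (nat_lit 7) (C.cons (nat_lit 193) (C.node (nat_lit 0) (nat_lit 4) (nat_lit 8) (C.cons (nat_lit 277) (C.node (nat_lit 0) (nat_lit 4) (nat_lit 9) (C.cons (nat_lit 531) (C.node (nat_lit 0) (nat_lit 4) (nat_lit 10) C.nil) C.nil)) (C.cons (nat_lit 275) (C.node (nat_lit 0) (nat_lit 4) (nat_lit 9) (C.cons (nat_lit 533) (C.node (nat_lit 0) (nat_lit 4) (nat_lit 10) C.nil) C.nil)) C.nil))) C.nil)) C.nil))) C.nil))) C.nil))) (List.cons (C.node (nat_lit 0) (nat_lit 1) (nat_lit 3) (C.cons (nat_lit 1035) (C.ref (nat_lit 6) (nat_lit 204004341854736)) (C.cons (nat_lit 11) (C.node (nat_lit 0) (nat_lit 3) (nat_lit 10) (C.cons (nat_lit 1033) (C.ref (nat_lit 8) (nat_lit 205163983024656)) C.nil)) C.nil))) (List.cons (C.node (nat_lit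 0) (nat_lit 3) (nat_lit 9) (C.cons (nat_lit 523) (C.node (nat_lit 0) (nat_lit 3) (nat_lit 10) (C.cons (nat_lit 1033) (C.ref (nat_lit 6) (nat_lit 205099558515216)) C.nil)) (C.cons (nat_lit 521) (C.ref (nat_lit 9) (nat_lit 205163983024656)) C.nil))) (List.cons (C.node (nat_lit 0) (nat_lit 3) (nat_lit 8) (C.cons (nat_lit 267) (C.node (nat_lit 0) (nat_lit 3) (nat_lit 9) (C.cons (nat_lit 521) (C.node (nat_lit 0) (nat_lit 3) (nat_lit 10) (C.cons (nat_lit 1033) (C.ref (nat_lit 6) (nat_lit 205163983024656)) C.nil)) C.nil)) (C.cons (nat_lit 265) (C.ref (nat_lit 10) (nat_lit 205163983024656)) C.nil))) (List.cons (C.node (nat_lit 0) (nat_lit 4) (nat_lit 8) (C.cons (nat_lit 275) (C.node (nat_lit 0) (nat_lit 4) (nat_lit 9) (C.cons (nat_lit 529) (C.node (nat_lit 0) (nat_lit 4) (nat_lit 10) (C.cons (nat_lit 1041) (C.node (nat_lit 0) (nat_lit 5) (nat_lit 7) (C.cons (nat_lit 163) (C.node (nat_lit 0) (nat_lit 6) (nat_lit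 7) C.nil) C.nil)) C.nil)) C.nil)) (C.cons (nat_lit 273) (C.node (nat_lit 0) (nat_lit 4) (nat_lit 9) (C.cons (nat_lit 531) (C.node (nat_lit 0) (nat_lit 4) (nat_lit 10) (C.cons (nat_lit 1041) (C.node (nat_lit 0) (nat_lit 5) (nat_lit 7) (C.cons (nat_lit 163) (C.node (nat_lit 0) (nat_lit 6) (nat_lit 7) C.nil) C.nil)) C.nil)) (C.cons (nat_lit 529) (C.node (nat_lit 0) (nat_lit 1) (nat_lit 4) (C.cons (nat_lit 1043) (C.node (nat_lit 0) (nat_lit 5) (nat_lit 7) (C.cons (nat_lit 163) (C.node (nat_lit 0) (nat_lit 6) (nat_lit 7) C.nil) C.nil)) C.nil)) C.nil))) C.nil))) (List.cons (C.node (nat_lit 0) (nat_lit 2) (nat_lit 7) (C.cons (nat_lit 165)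
  (C.node (nat_lit 0) (nat_lit 5) (nat_lit 8) (C.cons (nat_lit 291) (C.node (nat_lit 0) (nat_lit 5) (nat_lit 9) (C.cons (nat_lit 545) (C.node (nat_lit 0) (nat_lit 5) (nat_lit 10) C.nil) C.nil)) (C.cons (nat_lit 289) (C.node (nat_lit 0) (nat_lit 1) (nat_lit 8) (C.cons (nat_lit 275) (C.node (nat_lit 0) (nat_lit 1) (nat_lit 9) (C.cons (nat_lit 547) (C.node (nat_lit 0) (nat_lit 1) (nat_lit 10) C.nil) C.nil)) C.nil)) C.nil))) (C.cons (nat_lit 133) (C.node (nat_lit 0) (nat_lit 5) (nat_lit 7) C.nil) C.nil))) (List.cons (C.node (nat_lit 0) (nat_lit 4) (nat_lit 9) (C.cons (nat_lit 533) (C.node (nat_lit 0) (nat_lit 4) (nat_lit 10) (C.cons (nat_lit 1041) (C.node (nat_lit 0) (nat_lit 5) (nat_lit 8) (C.cons (nat_lit 293) (C.node (nat_lit 0) (nat_lit 6) (nat_lit 8) C.nil) C.nil)) C.nil)) (C.cons (nat_lit 529) (C.node (nat_lit 0) (nat_lit 2) (nat_lit 4) (C.cons (nat_lit 1045) (C.node (nat_lit 0) (nat_lit 5) (nat_lit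 8) (C.cons (nat_lit 293) (C.node (nat_lit 0) (nat_lit 6) (nat_lit 8) C.nil) C.nil)) C.nil)) C.nil))) (List.cons (C.node (nat_lit 0) (nat_lit 4) (nat_lit 7) (C.cons (nat_lit 147) (C.node (nat_lit 0) (nat_lit 5) (nat_lit 7) (C.cons (nat_lit 161) (C.node (nat_lit 0) (nat_lit 6) (nat_lit 7) (C.cons (nat_lit 193) (C.node (nat_lit 0) (nat_lit 4) (nat_lit 8) (C.cons (nat_lit 277) (C.node (nat_lit 0) (nat_lit 4) (nat_lit 9) (C.cons (nat_lit 529) (C.node (nat_lit 0) (nat_lit 4) (nat_lit 10) (C.cons (nat_lit 1041) (C.node (nat_lit 0) (nat_lit 5) (nat_lit 8) C.nil) C.nil)) C.nil)) (C.cons (nat_lit 273) (C.ref (nat_lit 14) (nat_lit 205163983024656)) C.nil))) C.nil)) C.nil)) (C.cons (nat_lit 145) (C.node (nat_lit 0) (nat_lit 4) (nat_lit 8) (C.cons (nat_lit 277) (C.node (nat_lit 0) (nat_lit 5) (nat_lit 8) (C.cons (nat_lit 289) (C.node (nat_lit 0) (nat_lit 6) (nat_lit 8) (C.cons (nat_lit 321) (C.ref (nat_lit 14)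 (nat_lit 205159956492576)) C.nil)) C.nil)) (C.cons (nat_lit 273) (C.node (nat_lit 0) (nat_lit 5) (nat_lit 7) (C.cons (nat_lit 163) (C.node (nat_lit 0) (nat_lit 6) (nat_lit 7) (C.cons (nat_lit 193) (C.node (nat_lit 0) (nat_lit 5) (nat_lit 8) (C.cons (nat_lit 293) (C.node (nat_lit 0) (nat_lit 8) (nat_lit 6) (C.cons (nat_lit 321) (C.node (nat_lit 0) (nat_lit 9) (nat_lit 5) C.nil) C.nil)) (C.cons (nat_lit 289) (C.node (nat_lit 0) (nat_lit 2) (nat_lit 8) (C.cons (nat_lit 325) (C.node (nat_lit 0) (nat_lit 9) (nat_lit 5) (C.cons (nat_lit 549) (C.node (nat_lit 0) (nat_lit 10) (nat_lit 5) C.nil) C.nil)) C.nil)) C.nil))) C.nil)) (C.cons (nat_lit 161) (C.node (nat_lit 0) (nat_lit 1) (nat_lit 7) (C.cons (nat_lit 195) (C.node (nat_lit 0) (nat_lit 6) (nat_lit 8) (C.cons (nat_lit 325) (C.node (nat_lit 0) (nat_lit 8) (nat_lit 5) (C.cons (nat_lit 289) (C.node (nat_lit 0) (nat_lit 9) (nat_lit 6) C.nil) C.nil)) (C.cons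 (nat_lit 321) (C.node (nat_lit 0) (nat_lit 2) (nat_lit 8) (C.cons (nat_lit 293) (C.node (nat_lit 0) (nat_lit 9) (nat_lit 6) (C.cons (nat_lit 581) (C.node (nat_lit 0) (nat_lit 10) (nat_lit 6) C.nil) C.nil)) C.nil)) C.nil))) (C.cons (nat_lit 131) (C.node (nat_lit 0) (nat_lit 6) (nat_lit 7) C.nil) C.nil))) C.nil))) C.nil))) C.nil))) (List.cons (C.node (nat_lit 0) (nat_lit 4) (nat_lit 7) (C.cons (nat_lit 147) (C.node (nat_lit 0) (nat_lit 5) (nat_lit 7) (C.cons (nat_lit 161) (C.node (nat_lit 0) (nat_lit 6) (nat_lit 7) (C.cons (nat_lit 193) (C.node (nat_lit 0) (nat_lit 4) (nat_lit 8) (C.cons (nat_lit 277) (C.node (nat_lit 0) (nat_lit 4) (nat_lit 9) C.nil) C.nil)) C.nil)) C.nil)) (C.cons (nat_lit 145) (C.node (nat_lit 0) (nat_lit 5) (nat_lit 7) (C.cons (nat_lit 163) (C.node (nat_lit 0) (nat_lit 6) (nat_lit 7) (C.cons (nat_lit 193) (C.node (nat_lit 0) (nat_lit 5) (nat_lit 8) (C.cons (nat_lit 293) (C.node (nat_lit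 0) (nat_lit 5) (nat_lit 9) C.nil) C.nil)) C.nil)) (C.cons (nat_lit 161) (C.node (nat_lit 0) (nat_lit 1) (nat_lit 7) (C.cons (nat_lit 195) (C.node (nat_lit 0) (nat_lit 6) (nat_lit 8) (C.cons (nat_lit 325) (C.node (nat_lit 0) (nat_lit 6) (nat_lit 9) C.nil) C.nil)) C.nil)) C.nil))) C.nil))) (List.cons
  (C.node (nat_lit 0) (nat_lit 1) (nat_lit 3) (C.cons (nat_lit 1035) (C.ref (nat_lit 15) (nat_lit 204004341854736)) (C.cons (nat_lit 11) (C.node (nat_lit 0) (nat_lit 3) (nat_lit 10) (C.cons (nat_lit 1033) (C.ref (nat_lit 16) (nat_lit 205163983024656)) C.nil)) C.nil))) (List.cons (C.node (nat_lit 0) (nat_lit 3) (nat_lit 9) (C.cons (nat_lit 523) (C.node (nat_lit 0) (nat_lit 3) (nat_lit 10) (C.cons (nat_lit 1033) (C.ref (nat_lit 15) (nat_lit 205099558515216)) C.nil)) (C.cons (nat_lit 521) (C.ref (nat_lit 17) (nat_lit 205163983024656)) C.nil))) (List.cons (C.node (nat_lit 0) (nat_lit 3) (nat_lit 8) (C.cons (nat_lit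 267) (C.node (nat_lit 0) (nat_lit 3) (nat_lit 9) (C.cons (nat_lit 521) (C.node (nat_lit 0) (nat_lit 3) (nat_lit 10) (C.cons (nat_lit 1033) (C.ref (nat_lit 15) (nat_lit 205163983024656)) C.nil)) C.nil)) (C.cons (nat_lit 265) (C.ref (nat_lit 18) (nat_lit 205163983024656)) C.nil))) (List.cons (C.node (nat_lit 0) (nat_lit 4) (nat_lit 8) (C.cons (nat_lit 275) (C.node (nat_lit 0) (nat_lit 4) (nat_lit 9) (C.cons (nat_lit 529) (C.node (nat_lit 0) (nat_lit 4) (nat_lit 10) (C.cons (nat_lit 1041) (C.node (nat_lit 0) (nat_lit 5) (nat_lit 7) (C.cons (nat_lit 163) (C.node (nat_lit 0) (nat_lit 6) (nat_lit 7) C.nil) C.nil)) C.nil)) C.nil)) (C.cons (nat_lit 273) (C.node (nat_lit 0) (nat_lit 4) (nat_lit 9) (C.cons (nat_lit 531) (C.node (nat_lit 0) (nat_lit 4) (nat_lit 10) (C.cons (nat_lit 1041) (C.node (nat_lit 0) (nat_lit 5) (nat_lit 7) (C.cons (nat_lit 163) (C.node (nat_lit 0) (nat_lit 6) (nat_lit 7) C.nil) C.nil))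 C.nil)) (C.cons (nat_lit 529) (C.node (nat_lit 0) (nat_lit 1) (nat_lit 4) (C.cons (nat_lit 1043) (C.node (nat_lit 0) (nat_lit 5) (nat_lit 7) (C.cons (nat_lit 163) (C.node (nat_lit 0) (nat_lit 6) (nat_lit 7) C.nil) C.nil)) C.nil)) C.nil))) C.nil))) (List.cons (C.node (nat_lit 0) (nat_lit 2) (nat_lit 7) (C.cons (nat_lit 165) (C.node (nat_lit 0) (nat_lit 5) (nat_lit 8) (C.cons (nat_lit 291) (C.node (nat_lit 0) (nat_lit 5) (nat_lit 9) (C.cons (nat_lit 545) (C.node (nat_lit 0) (nat_lit 5) (nat_lit 10) C.nil) C.nil)) (C.cons (nat_lit 289) (C.node (nat_lit 0) (nat_lit 1) (nat_lit 8) (C.cons (nat_lit 275) (C.node (nat_lit 0) (nat_lit 1) (nat_lit 9) (C.cons (nat_lit 547) (C.node (nat_lit 0) (nat_lit 1) (nat_lit 10) C.nil) C.nil)) C.nil)) C.nil))) (C.cons (nat_lit 133) (C.node (nat_lit 0) (nat_lit 5) (nat_lit 7) C.nil) C.nil))) List.nil))))))))))))))))))))))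

theorem ok12_0 : okL par12 (nat_lit 22) c12_0 (nat_lit 0) = true := by decide +kernel

noncomputable def c12_22 : List C :=
  (List.cons (C.big C.nil (C.big (C.cons (nat_lit 1095) (C.ref (nat_lit 0) (nat_lit 205163983024656)) (C.cons (nat_lit 1063) (C.ref (nat_lit 0) (nat_lit 205163967296016)) (C.cons (nat_lit 1047) (C.ref (nat_lit 0) (nat_lit 205163950584336)) (C.cons (nat_lit 1039) (C.ref (nat_lit 0) (nat_lit 205163933811216)) (C.cons (nat_lit 583) (C.ref (nat_lit 0) (nat_lit 204133190873616)) (C.cons (nat_lit 551) (C.ref (nat_lit 0) (nat_lit 204133175144976)) (C.cons (nat_lit 535) (C.ref (nat_lit 0) (nat_lit 204133158433296)) (C.cons (nat_lit 527) (C.ref (nat_lit 0) (nat_lit 204133141660176)) (C.cons (nat_lit 327) (C.ref (nat_lit 0) (nat_lit 203037974213136)) (C.cons (nat_lit 295) (C.ref (nat_lit 0) (nat_lit 203037958484496)) (C.cons (nat_lit 279) (C.ref (nat_lit 0) (nat_lit 203037941772816)) (C.cons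 (nat_lit 271) (C.ref (nat_lit 0) (nat_lit 203037924999696)) (C.cons (nat_lit 199) (C.ref (nat_lit 0) (nat_lit 201938731020816)) (C.cons (nat_lit 167) (C.ref (nat_lit 0) (nat_lit 201938715292176)) (C.cons (nat_lit 151) (C.ref (nat_lit 0) (nat_lit 201938698580496)) (C.cons (nat_lit 143) (C.ref (nat_lit 0) (nat_lit 201938681807376)) C.nil)))))))))))))))) (C.node (nat_lit 0) (nat_lit 1) (nat_lit 11) (C.cons (nat_lit 2055) (C.node (nat_lit 0) (nat_lit 3) (nat_lit 7) (C.cons (nat_lit 141) (C.ref (nat_lit 11) (nat_lit 205163983024656)) (C.cons (nat_lit 139) (C.ref (nat_lit 11) (nat_lit 205163983024416)) (C.cons (nat_lit 137) (C.node (nat_lit 0) (nat_lit 3) (nat_lit 8) (C.cons (nat_lit 269) (C.ref (nat_lit 10) (nat_lit 205159956492816)) (C.cons (nat_lit 267) (C.ref (nat_lit 10) (nat_lit 205159956492576)) (C.cons (nat_lit 265) (C.node (nat_lit 0) (nat_lit 1) (nat_lit 3) (C.cons (nat_lit 1035) (C.ref (nat_lit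 9) (nat_lit 203992262258976)) (C.cons (nat_lit 523) (C.ref (nat_lit 9) (nat_lit 205091505451296)) (C.cons (nat_lit 11) (C.node (nat_lit 0) (nat_lit 3) (nat_lit 9) (C.cons (nat_lit 525) (C.node (nat_lit 0) (nat_lit 3) (nat_lit 10) (C.cons (nat_lit 1033) (C.ref (nat_lit 8) (nat_lit 205091505451536)) C.nil)) (C.cons (nat_lit 521) (C.node (nat_lit 0) (nat_lit 2) (nat_lit 3) (C.cons (nat_lit 1037) (C.ref (nat_lit 8) (nat_lit 203992262259216)) (C.cons (nat_lit 13) (C.node (nat_lit 0) (nat_lit 3) (nat_lit 10) (C.cons (nat_lit 1033) (C.node (nat_lit 0) (nat_lit 4) (nat_lit 7) (C.cons (nat_lit 149) (C.ref (nat_lit 12) (nat_lit 205163983024656)) (C.cons (nat_lit 147) (C.ref (nat_lit 12) (nat_lit 205163983024416)) (C.cons (nat_lit 145) (C.node (nat_lit 0) (nat_lit 1) (nat_lit 7) (C.cons (nat_lit 195) (C.ref (nat_lit 13) (nat_lit 205163983024656)) (C.cons (nat_lit 163) (C.ref (nat_lit 13) (nat_lit 205163967296016))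 (C.cons (nat_lit 131) (C.node (nat_lit 0) (nat_lit 5) (nat_lit 7) (C.cons (nat_lit 165) (C.node (nat_lit 0) (nat_lit 6) (nat_lit 7) C.nil) C.nil)) C.nil)))) C.nil)))) C.nil)) C.nil))) C.nil))) C.nil)))) C.nil)))) C.nil)))) (C.cons (nat_lit 2051) (C.node (nat_lit 0) (nat_lit 2) (nat_lit 11) (C.cons (nat_lit 2053) (C.node (nat_lit 0) (nat_lit 3) (nat_lit 7) (C.cons (nat_lit 141) (C.ref (nat_lit 19) (nat_lit 205163983024656)) (C.cons (nat_lit 139) (C.ref (nat_lit 19) (nat_lit 205163983024416)) (C.cons (nat_lit 137) (C.node (nat_lit 0) (nat_lit 3) (nat_lit 8) (C.cons (nat_lit 269) (C.ref (nat_lit 18) (nat_lit 205159956492816)) (C.cons (nat_lit 267) (C.ref (nat_lit 18) (nat_lit 205159956492576)) (C.cons (nat_lit 265) (C.node (nat_lit 0) (nat_lit 3) (nat_lit 9) (C.cons (nat_lit 525) (C.ref (nat_lit 17) (nat_lit 205091505451536)) (C.cons (nat_lit 523) (C.ref (nat_lit 17) (nat_lit 205091505451296)) (C.cons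 (nat_lit 521) (C.node (nat_lit 0) (nat_lit 1) (nat_lit 3) (C.cons (nat_lit 1035) (C.node (nat_lit 0) (nat_lit 2) (nat_lit 3) (C.cons (nat_lit 13) (C.ref (nat_lit 16) (nat_lit 203992262258976)) C.nil)) (C.cons (nat_lit 15) (C.node (nat_lit 0) (nat_lit 3) (nat_lit 10) (C.cons (nat_lit 1033) (C.node (nat_lit 0) (nat_lit 4) (nat_lit 7) (C.cons (nat_lit 149) (C.ref (nat_lit 20) (nat_lit 205163983024656)) (C.cons (nat_lit 147)
  (C.ref (nat_lit 20) (nat_lit 205163983024416)) (C.cons (nat_lit 145) (C.node (nat_lit 0) (nat_lit 1) (nat_lit 7) (C.cons (nat_lit 195) (C.ref (nat_lit 21) (nat_lit 205163983024656)) (C.cons (nat_lit 163) (C.ref (nat_lit 21) (nat_lit 205163967296016)) (C.cons (nat_lit 131) (C.node (nat_lit 0) (nat_lit 5) (nat_lit 7) (C.cons (nat_lit 165) (C.node (nat_lit 0) (nat_lit 6) (nat_lit 7) C.nil) C.nil)) C.nil)))) C.nil)))) C.nil)) (C.cons (nat_lit 11) (C.node (nat_lit 0) (nat_lit 2) (nat_lit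 3) (C.cons (nat_lit 1037) (C.ref (nat_lit 16) (nat_lit 203992262259216)) (C.cons (nat_lit 13) (C.node (nat_lit 0) (nat_lit 3) (nat_lit 10) (C.cons (nat_lit 1033) (C.node (nat_lit 0) (nat_lit 4) (nat_lit 7) (C.cons (nat_lit 149) (C.node (nat_lit 0) (nat_lit 4) (nat_lit 8) (C.cons (nat_lit 275) (C.node (nat_lit 0) (nat_lit 4) (nat_lit 9) C.nil) C.nil)) (C.cons (nat_lit 147) (C.node (nat_lit 0) (nat_lit 4) (nat_lit 8) (C.cons (nat_lit 277) (C.node (nat_lit 0) (nat_lit 4) (nat_lit 9) C.nil) C.nil)) C.nil))) C.nil)) C.nil))) C.nil)))) C.nil)))) C.nil)))) C.nil)))) C.nil)) C.nil))))) (List.cons (C.node (nat_lit 0) (nat_lit 3) (nat_lit 7) (C.cons (nat_lit 137) (C.node (nat_lit 0) (nat_lit 4) (nat_lit 7) (C.cons (nat_lit 145) (C.node (nat_lit 0) (nat_lit 5) (nat_lit 7) (C.cons (nat_lit 161) (C.node (nat_lit 0) (nat_lit 6) (nat_lit 7) (C.cons (nat_lit 193) (C.node (nat_lit 0) (nat_lit 3) (nat_lit 8) (C.cons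 (nat_lit 267) (C.node (nat_lit 0) (nat_lit 3) (nat_lit 9) C.nil) C.nil)) C.nil)) C.nil)) C.nil)) C.nil)) (List.cons (C.node (nat_lit 0) (nat_lit 2) (nat_lit 9) (C.cons (nat_lit 517) (C.node (nat_lit 0) (nat_lit 2) (nat_lit 10) (C.cons (nat_lit 1029) (C.node (nat_lit 0) (nat_lit 2) (nat_lit 11) (C.cons (nat_lit 2053) (C.ref (nat_lit 23) (nat_lit 205163983024656)) C.nil)) C.nil)) C.nil)) (List.cons (C.big C.nil (C.big C.nil (C.node (nat_lit 0) (nat_lit 2) (nat_lit 7) (C.cons (nat_lit 135) (C.node (nat_lit 0) (nat_lit 2) (nat_lit 8) (C.cons (nat_lit 261) (C.ref (nat_lit 24) (nat_lit 205163983024656)) C.nil)) (C.cons (nat_lit 133) (C.node (nat_lit 0) (nat_lit 2) (nat_lit 8) (C.cons (nat_lit 263) (C.ref (nat_lit 24) (nat_lit 205159956492816)) (C.cons (nat_lit 261) (C.node (nat_lit 0) (nat_lit 2) (nat_lit 9) (C.cons (nat_lit 519) (C.node (nat_lit 0) (nat_lit 2) (nat_lit 10) (C.cons (nat_lit 1029) (C.node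 (nat_lit 0) (nat_lit 2) (nat_lit 11) (C.cons (nat_lit 2053) (C.ref (nat_lit 23) (nat_lit 205091505451536)) C.nil)) C.nil)) (C.cons (nat_lit 517) (C.node (nat_lit 0) (nat_lit 2) (nat_lit 10) (C.cons (nat_lit 1031) (C.node (nat_lit 0) (nat_lit 2) (nat_lit 11) (C.cons (nat_lit 2053) (C.ref (nat_lit 23) (nat_lit 203992262259216)) C.nil)) (C.cons (nat_lit 1029) (C.node (nat_lit 0) (nat_lit 1) (nat_lit 2) (C.cons (nat_lit 2055) (C.ref (nat_lit 23) (nat_lit 186400344650256)) (C.cons (nat_lit 7) (C.node (nat_lit 0) (nat_lit 2) (nat_lit 11) (C.cons (nat_lit 2053) (C.node (nat_lit 0) (nat_lit 3) (nat_lit 7) (C.cons (nat_lit 139) (C.node (nat_lit 0) (nat_lit 3) (nat_lit 8) (C.cons (nat_lit 265) (C.node (nat_lit 0) (nat_lit 3) (nat_lit 9) (C.cons (nat_lit 521) (C.node (nat_lit 0) (nat_lit 3) (nat_lit 10) C.nil) C.nil)) C.nil)) (C.cons (nat_lit 137) (C.node (nat_lit 0) (nat_lit 3) (nat_lit 8) (C.cons (nat_lit 267)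 (C.node (nat_lit 0) (nat_lit 3) (nat_lit 9) (C.cons (nat_lit 521) (C.node (nat_lit 0) (nat_lit 3) (nat_lit 10) C.nil) C.nil)) (C.cons (nat_lit 265) (C.node (nat_lit 0) (nat_lit 3) (nat_lit 9) (C.cons (nat_lit 523) (C.node (nat_lit 0) (nat_lit 3) (nat_lit 10) C.nil) C.nil)) C.nil))) C.nil))) C.nil)) C.nil))) C.nil))) C.nil))) C.nil))) C.nil))))) (List.cons (C.big C.nil (C.node (nat_lit 0) (nat_lit 1) (nat_lit 10) (C.cons (nat_lit 1027) (C.node (nat_lit 0) (nat_lit 1) (nat_lit 11) (C.cons (nat_lit 2051) (C.node (nat_lit 0) (nat_lit 2) (nat_lit 9) (C.cons (nat_lit 517) (C.node (nat_lit 0) (nat_lit 2) (nat_lit 11) (C.cons (nat_lit 2053) (C.node (nat_lit 0) (nat_lit 3) (nat_lit 8) (C.cons (nat_lit 265) (C.node (nat_lit 0) (nat_lit 3) (nat_lit 11)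
  (C.cons (nat_lit 2057) (C.node (nat_lit 0) (nat_lit 4) (nat_lit 9) (C.cons (nat_lit 529) (C.node (nat_lit 0) (nat_lit 4) (nat_lit 10) (C.cons (nat_lit 1041) (C.node (nat_lit 0) (nat_lit 5) (nat_lit 8) (C.cons (nat_lit 289) (C.node (nat_lit 0) (nat_lit 5) (nat_lit 10) C.nil) C.nil)) C.nil)) C.nil)) C.nil)) C.nil)) C.nil)) C.nil)) C.nil)) C.nil))) (List.cons (C.node (nat_lit 0) (nat_lit 3) (nat_lit 7) (C.cons (nat_lit 153) (C.node (nat_lit 0) (nat_lit 3) (nat_lit 8) (C.cons (nat_lit 265) (C.node (nat_lit 0) (nat_lit 2) (nat_lit 4) (C.cons (nat_lit 277) (C.node (nat_lit 0) (nat_lit 5) (nat_lit 8) (C.cons (nat_lit 289) (C.node (nat_lit 0) (nat_lit 2) (nat_lit 5) (C.cons (nat_lit 165) (C.pat (nat_lit 1) (nat_lit 1951640353) (nat_lit 5415577746031716944060759426160461937)) C.nil)) C.nil)) (C.cons (nat_lit 21) (C.node (nat_lit 0) (nat_lit 4) (nat_lit 8) C.nil) C.nil))) C.nil)) (C.cons (nat_lit 137) (C.node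 (nat_lit 0) (nat_lit 3) (nat_lit 4) (C.cons (nat_lit 281) (C.node (nat_lit 0) (nat_lit 2) (nat_lit 4) (C.cons (nat_lit 149) (C.pat (nat_lit 0) (nat_lit 108677921) (nat_lit 314459189528121250288185812125703)) (C.cons (nat_lit 21) (C.node (nat_lit 0) (nat_lit 4) (nat_lit 7) C.nil) C.nil))) (C.cons (nat_lit 25) (C.node (nat_lit 0) (nat_lit 3) (nat_lit 8) C.nil) C.nil))) C.nil))) (List.cons (C.node (nat_lit 0) (nat_lit 2) (nat_lit 9) (C.cons (nat_lit 533) (C.node (nat_lit 0) (nat_lit 2) (nat_lit 7) (C.cons (nat_lit 165) (C.pat (nat_lit 1) (nat_lit 664103489) (nat_lit 1012510960732080381080524707507277697)) (C.cons (nat_lit 133) (C.node (nat_lit 0) (nat_lit 5) (nat_lit 7) (C.cons (nat_lit 161) (C.node (nat_lit 0) (nat_lit 2) (nat_lit 5) (C.cons (nat_lit 293) (C.node (nat_lit 0) (nat_lit 3) (nat_lit 7) (C.cons (nat_lit 153) (C.pat (nat_lit 1) (nat_lit 1200843553) (nat_lit 1012510009994149763457196063542022017))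 (C.cons (nat_lit 137) (C.node (nat_lit 0) (nat_lit 4) (nat_lit 7) (C.cons (nat_lit 145) (C.node (nat_lit 0) (nat_lit 3) (nat_lit 4) (C.cons (nat_lit 281) (C.pat (nat_lit 1) (nat_lit 2220075809) (nat_lit 5415587887236518769932000196805068913)) C.nil)) C.nil)) C.nil))) (C.cons (nat_lit 37) (C.node (nat_lit 0) (nat_lit 2) (nat_lit 8) (C.cons (nat_lit 261) (C.node (nat_lit 0) (nat_lit 5) (nat_lit 8) C.nil) C.nil)) C.nil))) C.nil)) C.nil))) (C.cons (nat_lit 517) (C.node (nat_lit 0) (nat_lit 4) (nat_lit 9) (C.cons (nat_lit 529) (C.ref (nat_lit 27) (nat_lit 205163983024656)) C.nil)) C.nil))) (List.cons (C.node (nat_lit 0) (nat_lit 3) (nat_lit 7) (C.cons (nat_lit 153) (C.node (nat_lit 0) (nat_lit 3) (nat_lit 8) (C.cons (nat_lit 265) (C.node (nat_lit 0) (nat_lit 2) (nat_lit 4) (C.cons (nat_lit 277) (C.node (nat_lit 0) (nat_lit 5) (nat_lit 8) (C.cons (nat_lit 289) (C.node (nat_lit 0) (nat_lit 1) (nat_lit 2)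 (C.cons (nat_lit 135) (C.node (nat_lit 0) (nat_lit 2) (nat_lit 5) C.nil) C.nil)) C.nil)) (C.cons (nat_lit 21) (C.node (nat_lit 0) (nat_lit 4) (nat_lit 8) C.nil) C.nil))) C.nil)) (C.cons (nat_lit 137) (C.node (nat_lit 0) (nat_lit 3) (nat_lit 4) (C.cons (nat_lit 281) (C.node (nat_lit 0) (nat_lit 2) (nat_lit 4) (C.cons (nat_lit 149) (C.node (nat_lit 0) (nat_lit 5) (nat_lit 7) (C.cons (nat_lit 161) (C.node (nat_lit 0) (nat_lit 1) (nat_lit 2) (C.cons (nat_lit 263) (C.node (nat_lit 0) (nat_lit 2) (nat_lit 5) C.nil) C.nil)) C.nil)) (C.cons (nat_lit 21) (C.node (nat_lit 0) (nat_lit 4) (nat_lit 7) C.nil) C.nil))) (C.cons (nat_lit 25) (C.node (nat_lit 0) (nat_lit 3) (nat_lit 8) C.nil) C.nil))) C.nil))) (List.cons (C.node (nat_lit 0) (nat_lit 2) (nat_lit 9) (C.cons (nat_lit 533) (C.node (nat_lit 0) (nat_lit 3) (nat_lit 7) (C.cons (nat_lit 153) (C.node (nat_lit 0) (nat_lit 3) (nat_lit 8) (C.cons (nat_lit 265)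 (C.node (nat_lit 0) (nat_lit 4) (nat_lit 8) (C.cons (nat_lit 273) (C.ref (nat_lit 27) (nat_lit 186609674899776)) C.nil)) C.nil)) (C.cons (nat_lit 137) (C.node (nat_lit 0) (nat_lit 4) (nat_lit 7) (C.cons (nat_lit 145) (C.node (nat_lit 0) (nat_lit 3) (nat_lit 4) (C.cons (nat_lit 281) (C.ref (nat_lit 27) (nat_lit 186605648367936))
  (C.cons (nat_lit 25) (C.node (nat_lit 0) (nat_lit 3) (nat_lit 8) (C.cons (nat_lit 265) (C.node (nat_lit 0) (nat_lit 4) (nat_lit 8) C.nil) C.nil)) C.nil))) C.nil)) C.nil))) (C.cons (nat_lit 517) (C.node (nat_lit 0) (nat_lit 4) (nat_lit 9) (C.cons (nat_lit 529) (C.ref (nat_lit 29) (nat_lit 205163983024656)) C.nil)) C.nil))) (List.cons (C.big (C.cons (nat_lit 279) (C.ref (nat_lit 26) (nat_lit 205163983024656)) (C.cons (nat_lit 151) (C.ref (nat_lit 26) (nat_lit 205159956492816)) C.nil)) (C.node (nat_lit 0) (nat_lit 3) (nat_lit 11) (C.cons (nat_lit 2057) (C.node (nat_lit 0) (nat_lit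 5) (nat_lit 10) (C.cons (nat_lit 1057) (C.node (nat_lit 0) (nat_lit 6) (nat_lit 9) (C.cons (nat_lit 577) (C.node (nat_lit 0) (nat_lit 1) (nat_lit 10) (C.cons (nat_lit 1043) (C.node (nat_lit 0) (nat_lit 1) (nat_lit 11) (C.cons (nat_lit 2055) (C.node (nat_lit 0) (nat_lit 1) (nat_lit 7) (C.cons (nat_lit 195) (C.node (nat_lit 0) (nat_lit 1) (nat_lit 8) (C.cons (nat_lit 259) (C.node (nat_lit 0) (nat_lit 6) (nat_lit 8) (C.cons (nat_lit 321) (C.ref (nat_lit 28) (nat_lit 205163983024656)) C.nil)) C.nil)) (C.cons (nat_lit 131) (C.node (nat_lit 0) (nat_lit 6) (nat_lit 7) (C.cons (nat_lit 193) (C.node (nat_lit 0) (nat_lit 1) (nat_lit 6) (C.cons (nat_lit 323) (C.ref (nat_lit 28) (nat_lit 205159956492816)) (C.cons (nat_lit 67) (C.node (nat_lit 0) (nat_lit 1) (nat_lit 8) (C.cons (nat_lit 259) (C.node (nat_lit 0) (nat_lit 6) (nat_lit 8) (C.cons (nat_lit 321) (C.node (nat_lit 0) (nat_lit 2) (nat_lit 9) (C.cons (nat_lit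 533) (C.node (nat_lit 0) (nat_lit 2) (nat_lit 7) (C.cons (nat_lit 165) (C.node (nat_lit 0) (nat_lit 2) (nat_lit 8) (C.cons (nat_lit 261) (C.node (nat_lit 0) (nat_lit 5) (nat_lit 8) C.nil) C.nil)) (C.cons (nat_lit 133) (C.node (nat_lit 0) (nat_lit 5) (nat_lit 7) C.nil) C.nil))) (C.cons (nat_lit 517) (C.node (nat_lit 0) (nat_lit 4) (nat_lit 9) C.nil) C.nil))) C.nil)) C.nil)) C.nil))) C.nil)) C.nil))) (C.cons (nat_lit 2051) (C.node (nat_lit 0) (nat_lit 2) (nat_lit 11) (C.cons (nat_lit 2053) (C.ref (nat_lit 30) (nat_lit 205163983024656)) C.nil)) C.nil))) (C.cons (nat_lit 1027) (C.node (nat_lit 0) (nat_lit 4) (nat_lit 10) (C.cons (nat_lit 1041) (C.node (nat_lit 0) (nat_lit 1) (nat_lit 11) (C.cons (nat_lit 2055) (C.ref (nat_lit 30) (nat_lit 188671306388496)) (C.cons (nat_lit 2051) (C.node (nat_lit 0) (nat_lit 2) (nat_lit 11) (C.cons (nat_lit 2053) (C.node (nat_lit 0) (nat_lit 2) (nat_lit 9) (C.cons (nat_lit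 533) (C.ref (nat_lit 29) (nat_lit 204133175144736)) (C.cons (nat_lit 517) (C.node (nat_lit 0) (nat_lit 4) (nat_lit 9) (C.cons (nat_lit 529) (C.node (nat_lit 0) (nat_lit 3) (nat_lit 7) (C.cons (nat_lit 153) (C.node (nat_lit 0) (nat_lit 3) (nat_lit 8) C.nil) C.nil)) C.nil)) C.nil))) C.nil)) C.nil))) C.nil)) C.nil))) C.nil)) C.nil)) C.nil))) (List.cons (C.big (C.cons (nat_lit 555) (C.ref (nat_lit 31) (nat_lit 205163983024656)) (C.cons (nat_lit 551) (C.ref (nat_lit 31) (nat_lit 205163983020816)) (C.cons (nat_lit 539) (C.ref (nat_lit 31) (nat_lit 205163982041616)) (C.cons (nat_lit 535) (C.ref (nat_lit 31) (nat_lit 205163982037776)) (C.cons (nat_lit 299) (C.ref (nat_lit 31) (nat_lit 205099558515216)) (C.cons (nat_lit 295) (C.ref (nat_lit 31) (nat_lit 205099558511376)) (C.cons (nat_lit 283) (C.ref (nat_lit 31) (nat_lit 205099557532176)) (C.cons (nat_lit 279) (C.ref (nat_lit 31) (nat_lit 205099557528336))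 (C.cons (nat_lit 171) (C.ref (nat_lit 31) (nat_lit 205031107473936)) (C.cons (nat_lit 167) (C.ref (nat_lit 31) (nat_lit 205031107470096)) (C.cons (nat_lit 155) (C.ref (nat_lit 31) (nat_lit 205031106490896)) (C.cons (nat_lit 151) (C.ref (nat_lit 31) (nat_lit 205031106487056)) C.nil)))))))))))) C.nil) (List.cons (C.big C.nil C.nil) (List.cons (C.big C.nil C.nil) (List.cons (C.node (nat_lit 0) (nat_lit 5) (nat_lit 9) (C.cons (nat_lit 549) (C.node (nat_lit 0) (nat_lit 3) (nat_lit 9) (C.cons (nat_lit 585) (C.node (nat_lit 0) (nat_lit 2) (nat_lit 3) (C.cons (nat_lit 1037) (C.node (nat_lit 0) (nat_lit 6) (nat_lit 10) (C.cons (nat_lit 1089)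
  (C.node (nat_lit 0) (nat_lit 1) (nat_lit 2) (C.cons (nat_lit 135) (C.pat (nat_lit 2) (nat_lit 30972154500) (nat_lit 3010710514548576211456586655563739849949512265)) (C.cons (nat_lit 7) (C.node (nat_lit 0) (nat_lit 1) (nat_lit 7) (C.cons (nat_lit 163) (C.pat (nat_lit 1) (nat_lit 947218753) (nat_lit 1677135416268081760509151224662134657)) (C.cons (nat_lit 131) (C.node (nat_lit 0) (nat_lit 5) (nat_lit 7) (C.cons (nat_lit 161) (C.node (nat_lit 0) (nat_lit 1) (nat_lit 5) (C.cons (nat_lit 1059) (C.pat (nat_lit 2) (nat_lit 43287745413) (nat_lit 23125967030769319640317928782858670480019751443)) C.nil)) C.nil)) C.nil))) C.nil))) C.nil)) (C.cons (nat_lit 13) (C.node (nat_lit 0) (nat_lit 3) (nat_lit 10) (C.cons (nat_lit 1033) (C.node (nat_lit 0) (nat_lit 5) (nat_lit 7) (C.cons (nat_lit 163) (C.pat (nat_lit 1) (nat_lit 947218753) (nat_lit 1677135416268081760509151224662134657)) (C.cons (nat_lit 161) (C.node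 (nat_lit 0) (nat_lit 1) (nat_lit 5) (C.cons (nat_lit 1059) (C.node (nat_lit 0) (nat_lit 1) (nat_lit 2) (C.cons (nat_lit 135) (C.pat (nat_lit 2) (nat_lit 30972154500) (nat_lit 3010710514548576211456586655563739849949512265)) (C.cons (nat_lit 7) (C.node (nat_lit 0) (nat_lit 1) (nat_lit 7) C.nil) C.nil))) (C.cons (nat_lit 35) (C.node (nat_lit 0) (nat_lit 5) (nat_lit 10) C.nil) C.nil))) C.nil))) C.nil)) C.nil))) (C.cons (nat_lit 521) (C.node (nat_lit 0) (nat_lit 6) (nat_lit 9) (C.cons (nat_lit 577) (C.node (nat_lit 0) (nat_lit 5) (nat_lit 7) (C.cons (nat_lit 163) (C.node (nat_lit 0) (nat_lit 5) (nat_lit 10) (C.cons (nat_lit 1057) (C.node (nat_lit 0) (nat_lit 1) (nat_lit 2) (C.cons (nat_lit 1031) (C.node (nat_lit 0) (nat_lit 2) (nat_lit 3) (C.cons (nat_lit 77) (C.pat (nat_lit 2) (nat_lit 14917142100) (nat_lit 1717344196152665496210621201848972964397125505)) (C.cons (nat_lit 13) (C.node (nat_lit 0) (nat_lit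 2) (nat_lit 6) (C.cons (nat_lit 197) (C.pat (nat_lit 1) (nat_lit 663116097) (nat_lit 846359996279685380600969369113137025)) C.nil)) C.nil))) (C.cons (nat_lit 7) (C.node (nat_lit 0) (nat_lit 1) (nat_lit 10) C.nil) C.nil))) C.nil)) (C.cons (nat_lit 161) (C.node (nat_lit 0) (nat_lit 1) (nat_lit 5) (C.cons (nat_lit 1059) (C.node (nat_lit 0) (nat_lit 1) (nat_lit 2) (C.cons (nat_lit 135) (C.node (nat_lit 0) (nat_lit 6) (nat_lit 7) (C.cons (nat_lit 193) (C.node (nat_lit 0) (nat_lit 2) (nat_lit 3) (C.cons (nat_lit 1037) (C.node (nat_lit 0) (nat_lit 2) (nat_lit 6) C.nil) (C.cons (nat_lit 77) (C.pat (nat_lit 1) (nat_lit 1267087137) (nat_lit 10691110444172889274543169239706832769)) C.nil))) C.nil)) (C.cons (nat_lit 7) (C.node (nat_lit 0) (nat_lit 1) (nat_lit 7) C.nil) C.nil))) (C.cons (nat_lit 35) (C.node (nat_lit 0) (nat_lit 5) (nat_lit 10) C.nil) C.nil))) C.nil))) C.nil)) C.nil))) (C.cons (nat_lit 545) (C.node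 (nat_lit 0) (nat_lit 6) (nat_lit 7) (C.cons (nat_lit 197) (C.node (nat_lit 0) (nat_lit 1) (nat_lit 7) (C.cons (nat_lit 163) (C.node (nat_lit 0) (nat_lit 1) (nat_lit 2) (C.cons (nat_lit 1031) (C.node (nat_lit 0) (nat_lit 2) (nat_lit 5) (C.cons (nat_lit 37) (C.node (nat_lit 0) (nat_lit 5) (nat_lit 10) (C.cons (nat_lit 1057) (C.node (nat_lit 0) (nat_lit 2) (nat_lit 3) (C.cons (nat_lit 525) (C.pat (nat_lit 2) (nat_lit 39026262900) (nat_lit 11707958265701519419060811160799350145626472771)) (C.cons (nat_lit 13) (C.node (nat_lit 0) (nat_lit 2) (nat_lit 9) C.nil) C.nil))) C.nil)) C.nil)) (C.cons (nat_lit 7) (C.node (nat_lit 0) (nat_lit 1) (nat_lit 10) (C.cons (nat_lit 1027) (C.node (nat_lit 0) (nat_lit 2) (nat_lit 5) (C.cons (nat_lit 1061) (C.node (nat_lit 0) (nat_lit 2) (nat_lit 3) (C.cons (nat_lit 525) (C.pat (nat_lit 2) (nat_lit 39026262900) (nat_lit 11707958265701519419060811160799350145626472771)) (C.cons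 (nat_lit 13) (C.node (nat_lit 0) (nat_lit 2) (nat_lit 9) C.nil) C.nil))) (C.cons (nat_lit 37) (C.node (nat_lit 0) (nat_lit 5) (nat_lit 10) C.nil) C.nil))) C.nil)) C.nil))) (C.cons (nat_lit 131) (C.node (nat_lit 0) (nat_lit 5) (nat_lit 7) (C.cons (nat_lit 161) (C.node (nat_lit 0) (nat_lit 2) (nat_lit 9) (C.cons (nat_lit 525)
  (C.node (nat_lit 0) (nat_lit 6) (nat_lit 9) (C.cons (nat_lit 577) (C.node (nat_lit 0) (nat_lit 3) (nat_lit 6) (C.cons (nat_lit 1097) (C.node (nat_lit 0) (nat_lit 2) (nat_lit 1) (C.cons (nat_lit 1031) (C.node (nat_lit 0) (nat_lit 2) (nat_lit 5) C.nil) (C.cons (nat_lit 39) (C.pat (nat_lit 1) (nat_lit 1267013923) (nat_lit 10691110444141464176102450418409738113)) C.nil))) C.nil)) C.nil)) (C.cons (nat_lit 517) (C.node (nat_lit 0) (nat_lit 2) (nat_lit 3) (C.cons (nat_lit 1037) (C.node (nat_lit 0) (nat_lit 6) (nat_lit 10) C.nil) C.nil)) C.nil))) C.nil)) C.nil))) (C.cons (nat_lit 193)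 (C.node (nat_lit 0) (nat_lit 1) (nat_lit 7) (C.cons (nat_lit 163) (C.node (nat_lit 0) (nat_lit 2) (nat_lit 7) (C.cons (nat_lit 133) (C.node (nat_lit 0) (nat_lit 1) (nat_lit 2) (C.cons (nat_lit 1031) (C.node (nat_lit 0) (nat_lit 2) (nat_lit 5) (C.cons (nat_lit 37) (C.node (nat_lit 0) (nat_lit 5) (nat_lit 10) C.nil) C.nil)) (C.cons (nat_lit 7) (C.node (nat_lit 0) (nat_lit 1) (nat_lit 10) C.nil) C.nil))) C.nil)) (C.cons (nat_lit 135) (C.node (nat_lit 0) (nat_lit 5) (nat_lit 7) (C.cons (nat_lit 161) (C.node (nat_lit 0) (nat_lit 1) (nat_lit 5) (C.cons (nat_lit 1059) (C.node (nat_lit 0) (nat_lit 2) (nat_lit 5) (C.cons (nat_lit 37) (C.node (nat_lit 0) (nat_lit 2) (nat_lit 9) (C.cons (nat_lit 581) (C.node (nat_lit 0) (nat_lit 3) (nat_lit 9) C.nil) (C.cons (nat_lit 525) (C.node (nat_lit 0) (nat_lit 6) (nat_lit 9) C.nil) C.nil))) C.nil)) (C.cons (nat_lit 35) (C.node (nat_lit 0) (nat_lit 1) (nat_lit 10) C.nil)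 C.nil))) C.nil)) (C.cons (nat_lit 131) (C.node (nat_lit 0) (nat_lit 2) (nat_lit 7) (C.cons (nat_lit 165) (C.node (nat_lit 0) (nat_lit 1) (nat_lit 2) (C.cons (nat_lit 1031) (C.node (nat_lit 0) (nat_lit 1) (nat_lit 5) (C.cons (nat_lit 35) (C.node (nat_lit 0) (nat_lit 5) (nat_lit 10) C.nil) C.nil)) (C.cons (nat_lit 7) (C.node (nat_lit 0) (nat_lit 1) (nat_lit 5) (C.cons (nat_lit 1059) (C.node (nat_lit 0) (nat_lit 2) (nat_lit 9) (C.cons (nat_lit 581) (C.node (nat_lit 0) (nat_lit 3) (nat_lit 9) C.nil) (C.cons (nat_lit 525) (C.node (nat_lit 0) (nat_lit 6) (nat_lit 9) C.nil) C.nil))) C.nil)) C.nil))) (C.cons (nat_lit 133) (C.node (nat_lit 0) (nat_lit 5) (nat_lit 7) C.nil) C.nil))) C.nil)))) C.nil))) C.nil))) (List.cons (C.node (nat_lit 0) (nat_lit 6) (nat_lit 7) (C.cons (nat_lit 197) (C.node (nat_lit 0) (nat_lit 1) (nat_lit 7) (C.cons (nat_lit 163) (C.node (nat_lit 0) (nat_lit 1) (nat_lit 2) (C.cons (nat_lit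 1031) (C.node (nat_lit 0) (nat_lit 5) (nat_lit 10) (C.cons (nat_lit 1065) (C.node (nat_lit 0) (nat_lit 6) (nat_lit 10) (C.cons (nat_lit 1089) (C.node (nat_lit 0) (nat_lit 2) (nat_lit 3) (C.cons (nat_lit 525) (C.node (nat_lit 0) (nat_lit 2) (nat_lit 5) (C.cons (nat_lit 37) (C.node (nat_lit 0) (nat_lit 3) (nat_lit 6) C.nil) C.nil)) (C.cons (nat_lit 13) (C.node (nat_lit 0) (nat_lit 2) (nat_lit 5) (C.cons (nat_lit 549) (C.pat (nat_lit 1) (nat_lit 663116097) (nat_lit 846359996279685380600969369113137025)) C.nil)) C.nil))) C.nil)) (C.cons (nat_lit 1057) (C.node (nat_lit 0) (nat_lit 3) (nat_lit 10) (C.cons (nat_lit 1097) (C.node (nat_lit 0) (nat_lit 6) (nat_lit 9) (C.cons (nat_lit 577) (C.node (nat_lit 0) (nat_lit 2) (nat_lit 3) (C.cons (nat_lit 525) (C.node (nat_lit 0) (nat_lit 2) (nat_lit 5) C.nil) (C.cons (nat_lit 45) (C.pat (nat_lit 1) (nat_lit 1802844705) (nat_lit 10691110443979478557108720003722317697))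 C.nil))) C.nil)) (C.cons (nat_lit 1033) (C.node (nat_lit 0) (nat_lit 6) (nat_lit 10) C.nil) C.nil))) C.nil))) (C.cons (nat_lit 7) (C.node (nat_lit 0) (nat_lit 1) (nat_lit 10) (C.cons (nat_lit 1027) (C.node (nat_lit 0) (nat_lit 6) (nat_lit 9) (C.cons (nat_lit 585) (C.node (nat_lit 0) (nat_lit 6) (nat_lit 10) C.nil) C.nil)) C.nil)) C.nil))) (C.cons (nat_lit 131) (C.node (nat_lit 0) (nat_lit 5) (nat_lit 7) (C.cons (nat_lit 161) (C.node (nat_lit 0) (nat_lit 6) (nat_lit 9) (C.cons (nat_lit 585) (C.node (nat_lit 0) (nat_lit 6) (nat_lit 10) C.nil) C.nil)) C.nil)) C.nil))) (C.cons (nat_lit 193) (C.node (nat_lit 0) (nat_lit 1) (nat_lit 7) (C.cons (nat_lit 163)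
  (C.node (nat_lit 0) (nat_lit 2) (nat_lit 7) (C.cons (nat_lit 133) (C.node (nat_lit 0) (nat_lit 1) (nat_lit 2) (C.cons (nat_lit 1031) (C.node (nat_lit 0) (nat_lit 5) (nat_lit 10) (C.cons (nat_lit 1065) (C.node (nat_lit 0) (nat_lit 6) (nat_lit 10) C.nil) C.nil)) C.nil)) C.nil)) (C.cons (nat_lit 135) (C.node (nat_lit 0) (nat_lit 5) (nat_lit 7) (C.cons (nat_lit 161) (C.node (nat_lit 0) (nat_lit 1) (nat_lit 5) (C.cons (nat_lit 1059) (C.node (nat_lit 0) (nat_lit 2) (nat_lit 5) (C.cons (nat_lit 549) (C.node (nat_lit 0) (nat_lit 3) (nat_lit 5) C.nil) (C.cons (nat_lit 45) (C.node (nat_lit 0) (nat_lit 5) (nat_lit 9) C.nil) C.nil))) C.nil)) C.nil)) (C.cons (nat_lit 131) (C.node (nat_lit 0) (nat_lit 2) (nat_lit 7) (C.cons (nat_lit 165) (C.node (nat_lit 0) (nat_lit 1) (nat_lit 2) (C.cons (nat_lit 1031) (C.node (nat_lit 0) (nat_lit 1) (nat_lit 5) C.nil) C.nil)) C.nil)) C.nil)))) C.nil))) List.nil)))))))))))))))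

theorem ok12_22 : okL par12 (nat_lit 37) c12_22 (nat_lit 22) = true := by decide +kernel

noncomputable def c12_37 : List C :=
  (List.cons (C.node (nat_lit 0) (nat_lit 5) (nat_lit 7) (C.cons (nat_lit 165) (C.node (nat_lit 0) (nat_lit 1) (nat_lit 5) (C.cons (nat_lit 1059) (C.node (nat_lit 0) (nat_lit 1) (nat_lit 2) (C.cons (nat_lit 71) (C.node (nat_lit 0) (nat_lit 1) (nat_lit 7) C.nil) C.nil)) C.nil)) (C.cons (nat_lit 163) (C.node (nat_lit 0) (nat_lit 2) (nat_lit 7) (C.cons (nat_lit 197) (C.node (nat_lit 0) (nat_lit 1) (nat_lit 2) (C.cons (nat_lit 1031) (C.node (nat_lit 0) (nat_lit 1) (nat_lit 6) C.nil) C.nil)) C.nil)) C.nil))) (List.cons (C.node (nat_lit 0) (nat_lit 1) (nat_lit 8) (C.cons (nat_lit 323) (C.node (nat_lit 0) (nat_lit 3) (nat_lit 8) (C.cons (nat_lit 297) (C.ref (nat_lit 35) (nat_lit 205163983024656)) (C.cons (nat_lit 265) (C.node (nat_lit 0) (nat_lit 5) (nat_lit 8) (C.cons (nat_lit 289)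 (C.ref (nat_lit 36) (nat_lit 205163983024656)) C.nil)) C.nil))) (C.cons (nat_lit 291) (C.node (nat_lit 0) (nat_lit 3) (nat_lit 8) (C.cons (nat_lit 329) (C.ref (nat_lit 35) (nat_lit 205163967296016)) (C.cons (nat_lit 265) (C.node (nat_lit 0) (nat_lit 6) (nat_lit 8) (C.cons (nat_lit 321) (C.ref (nat_lit 36) (nat_lit 205163967296016)) C.nil)) C.nil))) (C.cons (nat_lit 259) (C.node (nat_lit 0) (nat_lit 5) (nat_lit 8) (C.cons (nat_lit 297) (C.node (nat_lit 0) (nat_lit 6) (nat_lit 8) (C.cons (nat_lit 321) (C.ref (nat_lit 36) (nat_lit 205027065205296)) C.nil)) (C.cons (nat_lit 289) (C.node (nat_lit 0) (nat_lit 3) (nat_lit 8) (C.cons (nat_lit 329) (C.ref (nat_lit 36) (nat_lit 205027080933936)) (C.cons (nat_lit 265) (C.node (nat_lit 0) (nat_lit 6) (nat_lit 8) (C.cons (nat_lit 321) (C.ref (nat_lit 37) (nat_lit 205163983024656)) C.nil)) C.nil))) C.nil))) C.nil)))) (List.cons (C.node (nat_lit 0) (nat_lit 6) (nat_lit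 7) (C.cons (nat_lit 197) (C.node (nat_lit 0) (nat_lit 1) (nat_lit 7) (C.cons (nat_lit 163) (C.node (nat_lit 0) (nat_lit 1) (nat_lit 9) (C.cons (nat_lit 519) (C.node (nat_lit 0) (nat_lit 1) (nat_lit 10) (C.cons (nat_lit 1027) (C.node (nat_lit 0) (nat_lit 5) (nat_lit 9) (C.cons (nat_lit 545) (C.node (nat_lit 0) (nat_lit 2) (nat_lit 3) (C.cons (nat_lit 1037) (C.node (nat_lit 0) (nat_lit 2) (nat_lit 5) C.nil) C.nil)) C.nil)) C.nil)) (C.cons (nat_lit 515) (C.node (nat_lit 0) (nat_lit 1) (nat_lit 2) (C.cons (nat_lit 1031) (C.node (nat_lit 0) (nat_lit 5) (nat_lit 10) (C.cons (nat_lit 1057) (C.node (nat_lit 0) (nat_lit 2) (nat_lit 3) (C.cons (nat_lit 525) (C.node (nat_lit 0) (nat_lit 2) (nat_lit 5) C.nil) C.nil)) C.nil)) (C.cons (nat_lit 7) (C.node (nat_lit 0) (nat_lit 1) (nat_lit 10) C.nil) C.nil))) C.nil))) (C.cons (nat_lit 131) (C.node (nat_lit 0) (nat_lit 5) (nat_lit 7) (C.cons (nat_lit 161) (C.node (nat_lit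 0) (nat_lit 6) (nat_lit 9) (C.cons (nat_lit 585) (C.node (nat_lit 0) (nat_lit 6) (nat_lit 10) C.nil) C.nil)) C.nil)) C.nil))) (C.cons (nat_lit 193) (C.node (nat_lit 0) (nat_lit 1) (nat_lit 7) (C.cons (nat_lit 163) (C.node (nat_lit 0) (nat_lit 2) (nat_lit 7) (C.cons (nat_lit 133) (C.node (nat_lit 0) (nat_lit 1) (nat_lit 9) (C.cons (nat_lit 519) (C.node (nat_lit 0) (nat_lit 1) (nat_lit 10) C.nil) C.nil)) C.nil)) (C.cons (nat_lit 135) (C.node (nat_lit 0) (nat_lit 5) (nat_lit 7) (C.cons (nat_lit 161) (C.node (nat_lit 0) (nat_lit 1) (nat_lit 9) (C.cons (nat_lit 547) (C.node (nat_lit 0) (nat_lit 1) (nat_lit 10) C.nil) C.nil)) C.nil)) (C.cons (nat_lit 131) (C.node (nat_lit 0) (nat_lit 2) (nat_lit 7) (C.cons (nat_lit 165) (C.node (nat_lit 0) (nat_lit 5) (nat_lit 9) (C.cons (nat_lit 547) (C.node (nat_lit 0) (nat_lit 5) (nat_lit 10) C.nil) C.nil)) C.nil)) C.nil)))) C.nil))) (List.cons (C.node (nat_lit 0) (nat_lit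 6) (nat_lit 7) (C.cons (nat_lit 197) (C.node (nat_lit 0) (nat_lit 1) (nat_lit 7) (C.cons (nat_lit 163) (C.node (nat_lit 0) (nat_lit 1) (nat_lit 9) (C.cons (nat_lit 519) (C.node (nat_lit 0) (nat_lit 1) (nat_lit 10) C.nil) C.nil)) C.nil)) C.nil)) (List.cons (C.node (nat_lit 0) (nat_lit 3) (nat_lit 9) (C.cons (nat_lit 585) (C.node (nat_lit 0) (nat_lit 2) (nat_lit 3) (C.cons (nat_lit 1037) (C.node (nat_lit 0) (nat_lit 5) (nat_lit 10) (C.cons (nat_lit 1059)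
  (C.node (nat_lit 0) (nat_lit 6) (nat_lit 10) C.nil) C.nil)) C.nil)) (C.cons (nat_lit 525) (C.node (nat_lit 0) (nat_lit 3) (nat_lit 6) (C.cons (nat_lit 1097) (C.node (nat_lit 0) (nat_lit 5) (nat_lit 9) (C.cons (nat_lit 547) (C.node (nat_lit 0) (nat_lit 6) (nat_lit 9) C.nil) C.nil)) C.nil)) C.nil))) (List.cons (C.node (nat_lit 0) (nat_lit 1) (nat_lit 8) (C.cons (nat_lit 323) (C.node (nat_lit 0) (nat_lit 3) (nat_lit 8) (C.cons (nat_lit 297) (C.ref (nat_lit 39) (nat_lit 205163983024656)) (C.cons (nat_lit 265) (C.node (nat_lit 0) (nat_lit 5) (nat_lit 8) (C.cons (nat_lit 289) (C.ref (nat_lit 40) (nat_lit 205163983024656)) C.nil)) C.nil))) (C.cons (nat_lit 291) (C.node (nat_lit 0) (nat_lit 3) (nat_lit 8) (C.cons (nat_lit 329) (C.ref (nat_lit 39) (nat_lit 205163967296016)) (C.cons (nat_lit 265) (C.node (nat_lit 0) (nat_lit 6) (nat_lit 8) (C.cons (nat_lit 321) (C.ref (nat_lit 40) (nat_lit 205163967296016))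 C.nil)) C.nil))) (C.cons (nat_lit 259) (C.node (nat_lit 0) (nat_lit 5) (nat_lit 8) (C.cons (nat_lit 297) (C.node (nat_lit 0) (nat_lit 6) (nat_lit 8) (C.cons (nat_lit 321) (C.ref (nat_lit 41) (nat_lit 205163983024656)) C.nil)) (C.cons (nat_lit 289) (C.node (nat_lit 0) (nat_lit 3) (nat_lit 8) (C.cons (nat_lit 329) (C.ref (nat_lit 41) (nat_lit 205163967296016)) C.nil)) C.nil))) C.nil)))) (List.cons (C.node (nat_lit 0) (nat_lit 1) (nat_lit 5) (C.cons (nat_lit 547) (C.node (nat_lit 0) (nat_lit 3) (nat_lit 5) (C.cons (nat_lit 1065) (C.node (nat_lit 0) (nat_lit 6) (nat_lit 10) (C.cons (nat_lit 1089) (C.node (nat_lit 0) (nat_lit 2) (nat_lit 9) (C.cons (nat_lit 581) (C.node (nat_lit 0) (nat_lit 3) (nat_lit 9) C.nil) (C.cons (nat_lit 525) (C.node (nat_lit 0) (nat_lit 6) (nat_lit 9) C.nil) C.nil))) C.nil)) (C.cons (nat_lit 41) (C.node (nat_lit 0) (nat_lit 5) (nat_lit 10) C.nil) C.nil))) (C.cons (nat_lit 35) (C.node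 (nat_lit 0) (nat_lit 1) (nat_lit 9) C.nil) C.nil))) (List.cons (C.node (nat_lit 0) (nat_lit 5) (nat_lit 8) (C.cons (nat_lit 297) (C.node (nat_lit 0) (nat_lit 2) (nat_lit 8) (C.cons (nat_lit 325) (C.node (nat_lit 0) (nat_lit 5) (nat_lit 9) (C.cons (nat_lit 547) (C.node (nat_lit 0) (nat_lit 5) (nat_lit 10) (C.cons (nat_lit 1057) (C.node (nat_lit 0) (nat_lit 1) (nat_lit 2) (C.cons (nat_lit 1031) (C.node (nat_lit 0) (nat_lit 2) (nat_lit 3) (C.cons (nat_lit 525) (C.pat (nat_lit 2) (nat_lit 39026193285) (nat_lit 11708001822426022547165950144267915097998426307)) (C.cons (nat_lit 13) (C.node (nat_lit 0) (nat_lit 2) (nat_lit 9) C.nil) C.nil))) (C.cons (nat_lit 7) (C.node (nat_lit 0) (nat_lit 1) (nat_lit 10) C.nil) C.nil))) C.nil)) (C.cons (nat_lit 545) (C.node (nat_lit 0) (nat_lit 1) (nat_lit 5) (C.cons (nat_lit 1059) (C.node (nat_lit 0) (nat_lit 1) (nat_lit 2) (C.cons (nat_lit 519) (C.node (nat_lit 0) (nat_lit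 2) (nat_lit 3) (C.cons (nat_lit 1037) (C.pat (nat_lit 2) (nat_lit 43321160581) (nat_lit 23125983364073701595632247344596841928350826691)) (C.cons (nat_lit 13) (C.node (nat_lit 0) (nat_lit 2) (nat_lit 10) C.nil) C.nil))) (C.cons (nat_lit 7) (C.node (nat_lit 0) (nat_lit 1) (nat_lit 9) C.nil) C.nil))) (C.cons (nat_lit 35) (C.node (nat_lit 0) (nat_lit 5) (nat_lit 10) C.nil) C.nil))) C.nil))) (C.cons (nat_lit 261) (C.node (nat_lit 0) (nat_lit 6) (nat_lit 8) (C.cons (nat_lit 321) (C.node (nat_lit 0) (nat_lit 5) (nat_lit 9) (C.cons (nat_lit 547) (C.node (nat_lit 0) (nat_lit 5) (nat_lit 10) C.nil) C.nil)) C.nil)) C.nil))) (C.cons (nat_lit 289) (C.node (nat_lit 0) (nat_lit 1) (nat_lit 2) (C.cons (nat_lit 1031) (C.ref (nat_lit 43) (nat_lit 205163983024656)) (C.cons (nat_lit 519) (C.ref (nat_lit 43) (nat_lit 204133190873616)) (C.cons (nat_lit 7) (C.node (nat_lit 0) (nat_lit 1) (nat_lit 9) (C.cons (nat_lit 547)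 (C.node (nat_lit 0) (nat_lit 1) (nat_lit 10) C.nil) C.nil)) C.nil)))) C.nil))) (List.cons (C.node (nat_lit 0) (nat_lit 1) (nat_lit 9) (C.cons (nat_lit 579) (C.node (nat_lit 0) (nat_lit 1) (nat_lit 2) (C.cons (nat_lit 1031) (C.node (nat_lit 0) (nat_lit 5) (nat_lit 10) (C.cons (nat_lit 1065)
  (C.node (nat_lit 0) (nat_lit 6) (nat_lit 10) C.nil) C.nil)) C.nil)) (C.cons (nat_lit 519) (C.node (nat_lit 0) (nat_lit 1) (nat_lit 6) (C.cons (nat_lit 1091) (C.node (nat_lit 0) (nat_lit 5) (nat_lit 9) (C.cons (nat_lit 553) (C.node (nat_lit 0) (nat_lit 6) (nat_lit 9) C.nil) C.nil)) C.nil)) C.nil))) (List.cons (C.node (nat_lit 0) (nat_lit 1) (nat_lit 5) (C.cons (nat_lit 1059) (C.node (nat_lit 0) (nat_lit 1) (nat_lit 6) (C.cons (nat_lit 579) (C.node (nat_lit 0) (nat_lit 2) (nat_lit 9) (C.cons (nat_lit 549) (C.node (nat_lit 0) (nat_lit 3) (nat_lit 9) C.nil) (C.cons (nat_lit 525) (C.node (nat_lit 0) (nat_lit 5) (nat_lit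 9) C.nil) C.nil))) C.nil)) (C.cons (nat_lit 547) (C.node (nat_lit 0) (nat_lit 1) (nat_lit 6) (C.cons (nat_lit 1091) (C.node (nat_lit 0) (nat_lit 2) (nat_lit 10) (C.cons (nat_lit 1061) (C.node (nat_lit 0) (nat_lit 3) (nat_lit 10) C.nil) (C.cons (nat_lit 1037) (C.node (nat_lit 0) (nat_lit 5) (nat_lit 10) C.nil) C.nil))) C.nil)) C.nil))) (List.cons (C.node (nat_lit 0) (nat_lit 5) (nat_lit 7) (C.cons (nat_lit 165) (C.node (nat_lit 0) (nat_lit 1) (nat_lit 7) (C.cons (nat_lit 195) (C.ref (nat_lit 44) (nat_lit 205163983024656)) (C.cons (nat_lit 131) (C.node (nat_lit 0) (nat_lit 6) (nat_lit 7) (C.cons (nat_lit 193) (C.node (nat_lit 0) (nat_lit 5) (nat_lit 8) (C.cons (nat_lit 297) (C.node (nat_lit 0) (nat_lit 2) (nat_lit 8) (C.cons (nat_lit 325) (C.node (nat_lit 0) (nat_lit 5) (nat_lit 9) (C.cons (nat_lit 547) (C.node (nat_lit 0) (nat_lit 5) (nat_lit 10) C.nil) C.nil)) C.nil)) C.nil)) C.nil)) C.nil))) (C.cons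 (nat_lit 163) (C.node (nat_lit 0) (nat_lit 2) (nat_lit 7) (C.cons (nat_lit 197) (C.ref (nat_lit 44) (nat_lit 205163967296016)) (C.cons (nat_lit 133) (C.node (nat_lit 0) (nat_lit 6) (nat_lit 7) (C.cons (nat_lit 193) (C.ref (nat_lit 45) (nat_lit 205163983024656)) C.nil)) C.nil))) (C.cons (nat_lit 161) (C.node (nat_lit 0) (nat_lit 1) (nat_lit 7) (C.cons (nat_lit 195) (C.node (nat_lit 0) (nat_lit 2) (nat_lit 7) (C.cons (nat_lit 133) (C.ref (nat_lit 45) (nat_lit 205163967296016)) C.nil)) (C.cons (nat_lit 135) (C.node (nat_lit 0) (nat_lit 6) (nat_lit 7) (C.cons (nat_lit 193) (C.ref (nat_lit 46) (nat_lit 205163983024656)) C.nil)) (C.cons (nat_lit 131) (C.node (nat_lit 0) (nat_lit 2) (nat_lit 7) (C.cons (nat_lit 197) (C.node (nat_lit 0) (nat_lit 6) (nat_lit 8) (C.cons (nat_lit 329) (C.node (nat_lit 0) (nat_lit 2) (nat_lit 8) (C.cons (nat_lit 293) (C.node (nat_lit 0) (nat_lit 6) (nat_lit 9) (C.cons (nat_lit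 579) (C.node (nat_lit 0) (nat_lit 6) (nat_lit 10) C.nil) C.nil)) C.nil)) C.nil)) C.nil)) C.nil)))) C.nil)))) (List.cons (C.node (nat_lit 0) (nat_lit 1) (nat_lit 8) (C.cons (nat_lit 291) (C.node (nat_lit 0) (nat_lit 1) (nat_lit 9) (C.cons (nat_lit 515) (C.node (nat_lit 0) (nat_lit 1) (nat_lit 10) (C.cons (nat_lit 1027) (C.node (nat_lit 0) (nat_lit 2) (nat_lit 7) (C.cons (nat_lit 165) (C.node (nat_lit 0) (nat_lit 5) (nat_lit 9) (C.cons (nat_lit 553) (C.node (nat_lit 0) (nat_lit 5) (nat_lit 10) C.nil) C.nil)) C.nil)) C.nil)) C.nil)) (C.cons (nat_lit 259) (C.node (nat_lit 0) (nat_lit 1) (nat_lit 9) (C.cons (nat_lit 547) (C.node (nat_lit 0) (nat_lit 1) (nat_lit 10) (C.cons (nat_lit 1027) (C.node (nat_lit 0) (nat_lit 2) (nat_lit 7) (C.cons (nat_lit 165) (C.node (nat_lit 0) (nat_lit 5) (nat_lit 8) (C.cons (nat_lit 297) (C.node (nat_lit 0) (nat_lit 5) (nat_lit 10) C.nil) C.nil)) C.nil)) C.nil)) (C.cons (nat_lit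 515) (C.node (nat_lit 0) (nat_lit 1) (nat_lit 5) (C.cons (nat_lit 1059) (C.node (nat_lit 0) (nat_lit 2) (nat_lit 7) (C.cons (nat_lit 165) (C.node (nat_lit 0) (nat_lit 5) (nat_lit 8) (C.cons (nat_lit 297) (C.node (nat_lit 0) (nat_lit 5) (nat_lit 9) C.nil) C.nil)) C.nil)) C.nil)) C.nil))) C.nil))) (List.cons (C.node (nat_lit 0) (nat_lit 4) (nat_lit 8) (C.cons (nat_lit 277) (C.node (nat_lit 0) (nat_lit 4) (nat_lit 9) (C.cons (nat_lit 531) (C.node (nat_lit 0) (nat_lit 4) (nat_lit 10) (C.cons (nat_lit 1041) (C.ref (nat_lit 38) (nat_lit 205163983024656)) C.nil)) (C.cons (nat_lit 529) (C.node (nat_lit 0) (nat_lit 1) (nat_lit 4)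
  (C.cons (nat_lit 1043) (C.ref (nat_lit 38) (nat_lit 204133190873616)) (C.cons (nat_lit 19) (C.node (nat_lit 0) (nat_lit 4) (nat_lit 10) (C.cons (nat_lit 1041) (C.ref (nat_lit 42) (nat_lit 205163983024656)) C.nil)) C.nil))) C.nil))) (C.cons (nat_lit 275) (C.node (nat_lit 0) (nat_lit 4) (nat_lit 9) (C.cons (nat_lit 533) (C.node (nat_lit 0) (nat_lit 4) (nat_lit 10) (C.cons (nat_lit 1041) (C.ref (nat_lit 38) (nat_lit 205099558515216)) C.nil)) (C.cons (nat_lit 529) (C.node (nat_lit 0) (nat_lit 2) (nat_lit 4) (C.cons (nat_lit 1045) (C.ref (nat_lit 38) (nat_lit 204004341854736)) (C.cons (nat_lit 21) (C.node (nat_lit 0) (nat_lit 4) (nat_lit 10) (C.cons (nat_lit 1041) (C.ref (nat_lit 47) (nat_lit 205163983024656)) C.nil)) C.nil))) C.nil))) (C.cons (nat_lit 273) (C.node (nat_lit 0) (nat_lit 4) (nat_lit 9) (C.cons (nat_lit 533) (C.node (nat_lit 0) (nat_lit 1) (nat_lit 4) (C.cons (nat_lit 1043) (C.ref (nat_lit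 38) (nat_lit 203037974213136)) (C.cons (nat_lit 19) (C.node (nat_lit 0) (nat_lit 4) (nat_lit 10) (C.cons (nat_lit 1041) (C.ref (nat_lit 42) (nat_lit 205099558515216)) C.nil)) C.nil))) (C.cons (nat_lit 531) (C.node (nat_lit 0) (nat_lit 2) (nat_lit 4) (C.cons (nat_lit 1045) (C.ref (nat_lit 38) (nat_lit 202973549703696)) (C.cons (nat_lit 21) (C.node (nat_lit 0) (nat_lit 4) (nat_lit 10) (C.cons (nat_lit 1041) (C.ref (nat_lit 47) (nat_lit 205099558515216)) C.nil)) C.nil))) (C.cons (nat_lit 529) (C.node (nat_lit 0) (nat_lit 1) (nat_lit 4) (C.cons (nat_lit 1043) (C.node (nat_lit 0) (nat_lit 2) (nat_lit 4) (C.cons (nat_lit 21) (C.ref (nat_lit 47) (nat_lit 204004341854736)) C.nil)) (C.cons (nat_lit 23) (C.node (nat_lit 0) (nat_lit 4) (nat_lit 10) (C.cons (nat_lit 1041) (C.node (nat_lit 0) (nat_lit 1) (nat_lit 7) (C.cons (nat_lit 195) (C.ref (nat_lit 48) (nat_lit 205163983024656)) (C.cons (nat_lit 163) (C.ref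 (nat_lit 48) (nat_lit 205163967296016)) (C.cons (nat_lit 131) (C.node (nat_lit 0) (nat_lit 5) (nat_lit 7) (C.cons (nat_lit 165) (C.node (nat_lit 0) (nat_lit 6) (nat_lit 7) (C.cons (nat_lit 193) (C.node (nat_lit 0) (nat_lit 1) (nat_lit 8) (C.cons (nat_lit 323) (C.node (nat_lit 0) (nat_lit 1) (nat_lit 9) (C.cons (nat_lit 547) (C.node (nat_lit 0) (nat_lit 1) (nat_lit 10) C.nil) C.nil)) (C.cons (nat_lit 291) (C.node (nat_lit 0) (nat_lit 1) (nat_lit 9) (C.cons (nat_lit 579) (C.node (nat_lit 0) (nat_lit 1) (nat_lit 10) C.nil) C.nil)) C.nil))) C.nil)) (C.cons (nat_lit 161) (C.node (nat_lit 0) (nat_lit 2) (nat_lit 7) (C.cons (nat_lit 197) (C.node (nat_lit 0) (nat_lit 1) (nat_lit 8) (C.cons (nat_lit 291) (C.node (nat_lit 0) (nat_lit 1) (nat_lit 9) (C.cons (nat_lit 579) (C.node (nat_lit 0) (nat_lit 1) (nat_lit 10) C.nil) C.nil)) (C.cons (nat_lit 323) (C.node (nat_lit 0) (nat_lit 1) (nat_lit 9) (C.cons (nat_lit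 547) (C.node (nat_lit 0) (nat_lit 1) (nat_lit 10) C.nil) C.nil)) C.nil))) C.nil)) C.nil))) C.nil)))) C.nil)) (C.cons (nat_lit 19) (C.node (nat_lit 0) (nat_lit 2) (nat_lit 4) (C.cons (nat_lit 1045) (C.ref (nat_lit 42) (nat_lit 204004341854736)) (C.cons (nat_lit 21) (C.node (nat_lit 0) (nat_lit 4) (nat_lit 10) (C.cons (nat_lit 1041) (C.node (nat_lit 0) (nat_lit 5) (nat_lit 7) (C.cons (nat_lit 165) (C.node (nat_lit 0) (nat_lit 1) (nat_lit 7) (C.cons (nat_lit 195) (C.node (nat_lit 0) (nat_lit 1) (nat_lit 8) (C.cons (nat_lit 291) (C.node (nat_lit 0) (nat_lit 1) (nat_lit 9) (C.cons (nat_lit 519) (C.node (nat_lit 0) (nat_lit 1) (nat_lit 10) C.nil) C.nil)) (C.cons (nat_lit 263) (C.node (nat_lit 0) (nat_lit 1) (nat_lit 9) (C.cons (nat_lit 547) (C.node (nat_lit 0) (nat_lit 1) (nat_lit 10) C.nil) C.nil)) C.nil))) C.nil)) (C.cons (nat_lit 163) (C.node (nat_lit 0) (nat_lit 2) (nat_lit 7) (C.cons (nat_lit 197) (C.node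 (nat_lit 0) (nat_lit 1) (nat_lit 8) (C.cons (nat_lit 323) (C.node (nat_lit 0) (nat_lit 1) (nat_lit 9) (C.cons (nat_lit 519) (C.node (nat_lit 0) (nat_lit 1) (nat_lit 10) C.nil) C.nil)) (C.cons (nat_lit 263) (C.node (nat_lit 0) (nat_lit 1) (nat_lit 9) (C.cons (nat_lit 579)
  (C.node (nat_lit 0) (nat_lit 1) (nat_lit 10) C.nil) C.nil)) C.nil))) C.nil)) C.nil))) C.nil)) C.nil))) C.nil)))) C.nil)))) C.nil)))) (List.cons (C.node (nat_lit 0) (nat_lit 1) (nat_lit 4) (C.cons (nat_lit 1043) (C.ref (nat_lit 35) (nat_lit 204129164341776)) (C.cons (nat_lit 19) (C.node (nat_lit 0) (nat_lit 4) (nat_lit 10) (C.cons (nat_lit 1041) (C.ref (nat_lit 39) (nat_lit 205159956492816)) C.nil)) C.nil))) (List.cons (C.node (nat_lit 0) (nat_lit 3) (nat_lit 4) (C.cons (nat_lit 1049) (C.ref (nat_lit 36) (nat_lit 203992262259216)) (C.cons (nat_lit 25) (C.node (nat_lit 0) (nat_lit 4) (nat_lit 10) (C.cons (nat_lit 1041) (C.ref (nat_lit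 41) (nat_lit 205159940756016)) C.nil)) C.nil))) (List.cons (C.node (nat_lit 0) (nat_lit 4) (nat_lit 8) (C.cons (nat_lit 281) (C.node (nat_lit 0) (nat_lit 4) (nat_lit 9) (C.cons (nat_lit 531) (C.node (nat_lit 0) (nat_lit 4) (nat_lit 10) (C.cons (nat_lit 1041) (C.ref (nat_lit 36) (nat_lit 205159956492816)) C.nil)) (C.cons (nat_lit 529) (C.node (nat_lit 0) (nat_lit 1) (nat_lit 4) (C.cons (nat_lit 1043) (C.ref (nat_lit 36) (nat_lit 204129164341776)) (C.cons (nat_lit 19) (C.node (nat_lit 0) (nat_lit 4) (nat_lit 10) (C.cons (nat_lit 1041) (C.ref (nat_lit 40) (nat_lit 205159956492816)) C.nil)) C.nil))) C.nil))) (C.cons (nat_lit 275) (C.node (nat_lit 0) (nat_lit 4) (nat_lit 9) (C.cons (nat_lit 537) (C.node (nat_lit 0) (nat_lit 4) (nat_lit 10) (C.cons (nat_lit 1041) (C.ref (nat_lit 36) (nat_lit 205091505451536)) C.nil)) (C.cons (nat_lit 529) (C.ref (nat_lit 51) (nat_lit 205163983024656)) C.nil))) (C.cons (nat_lit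 273) (C.node (nat_lit 0) (nat_lit 1) (nat_lit 4) (C.cons (nat_lit 1043) (C.ref (nat_lit 51) (nat_lit 204004341854736)) (C.cons (nat_lit 531) (C.ref (nat_lit 51) (nat_lit 205099558515216)) (C.cons (nat_lit 19) (C.node (nat_lit 0) (nat_lit 4) (nat_lit 9) (C.cons (nat_lit 537) (C.node (nat_lit 0) (nat_lit 4) (nat_lit 10) (C.cons (nat_lit 1041) (C.ref (nat_lit 40) (nat_lit 205091505451536)) C.nil)) (C.cons (nat_lit 529) (C.node (nat_lit 0) (nat_lit 3) (nat_lit 4) (C.cons (nat_lit 1049) (C.ref (nat_lit 40) (nat_lit 203992262259216)) C.nil)) C.nil))) C.nil)))) C.nil)))) (List.cons (C.node (nat_lit 0) (nat_lit 3) (nat_lit 7) (C.cons (nat_lit 169) (C.node (nat_lit 0) (nat_lit 4) (nat_lit 8) (C.cons (nat_lit 281) (C.node (nat_lit 0) (nat_lit 4) (nat_lit 9) (C.cons (nat_lit 531) (C.node (nat_lit 0) (nat_lit 4) (nat_lit 10) (C.cons (nat_lit 1041) (C.ref (nat_lit 35) (nat_lit 205159956492816)) C.nil)) (C.cons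 (nat_lit 529) (C.ref (nat_lit 50) (nat_lit 205163983024656)) C.nil))) (C.cons (nat_lit 275) (C.node (nat_lit 0) (nat_lit 4) (nat_lit 9) (C.cons (nat_lit 537) (C.node (nat_lit 0) (nat_lit 4) (nat_lit 10) (C.cons (nat_lit 1041) (C.ref (nat_lit 35) (nat_lit 205159940756016)) C.nil)) (C.cons (nat_lit 529) (C.ref (nat_lit 50) (nat_lit 205163967287856)) C.nil))) (C.cons (nat_lit 273) (C.node (nat_lit 0) (nat_lit 1) (nat_lit 4) (C.cons (nat_lit 1043) (C.ref (nat_lit 50) (nat_lit 204004326117936)) (C.cons (nat_lit 531) (C.ref (nat_lit 50) (nat_lit 205099542778416)) (C.cons (nat_lit 19) (C.node (nat_lit 0) (nat_lit 4) (nat_lit 9) (C.cons (nat_lit 537) (C.node (nat_lit 0) (nat_lit 4) (nat_lit 10) (C.cons (nat_lit 1041) (C.ref (nat_lit 39) (nat_lit 205091505451536)) C.nil)) (C.cons (nat_lit 529) (C.node (nat_lit 0) (nat_lit 3) (nat_lit 4) (C.cons (nat_lit 1049) (C.ref (nat_lit 39) (nat_lit 203992262259216)) (C.cons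 (nat_lit 25) (C.node (nat_lit 0) (nat_lit 4) (nat_lit 10) (C.cons (nat_lit 1041) (C.node (nat_lit 0) (nat_lit 1) (nat_lit 8) (C.cons (nat_lit 291) (C.node (nat_lit 0) (nat_lit 1) (nat_lit 9) (C.cons (nat_lit 519) (C.node (nat_lit 0) (nat_lit 1) (nat_lit 10) C.nil) C.nil)) (C.cons (nat_lit 263) (C.node (nat_lit 0) (nat_lit 5) (nat_lit 8) C.nil) C.nil))) C.nil)) C.nil))) C.nil))) C.nil)))) C.nil)))) (C.cons (nat_lit 137) (C.node (nat_lit 0) (nat_lit 5) (nat_lit 7) (C.cons (nat_lit 161) (C.ref (nat_lit 52) (nat_lit 205163983024656)) C.nil)) C.nil))) (List.cons (C.node (nat_lit 0) (nat_lit 4) (nat_lit 8)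
  (C.cons (nat_lit 281) (C.node (nat_lit 0) (nat_lit 4) (nat_lit 9) (C.cons (nat_lit 531) (C.node (nat_lit 0) (nat_lit 4) (nat_lit 10) (C.cons (nat_lit 1041) (C.ref (nat_lit 37) (nat_lit 205159956492816)) C.nil)) (C.cons (nat_lit 529) (C.node (nat_lit 0) (nat_lit 1) (nat_lit 4) (C.cons (nat_lit 1043) (C.ref (nat_lit 37) (nat_lit 204129164341776)) C.nil)) C.nil))) (C.cons (nat_lit 275) (C.node (nat_lit 0) (nat_lit 4) (nat_lit 9) (C.cons (nat_lit 537) (C.node (nat_lit 0) (nat_lit 4) (nat_lit 10) (C.cons (nat_lit 1041) (C.ref (nat_lit 37) (nat_lit 205159956484656)) C.nil)) (C.cons (nat_lit 529) (C.node (nat_lit 0) (nat_lit 3) (nat_lit 4) (C.cons (nat_lit 1049) (C.ref (nat_lit 37) (nat_lit 204129164333616)) C.nil)) C.nil))) (C.cons (nat_lit 273) (C.node (nat_lit 0) (nat_lit 1) (nat_lit 4) (C.cons (nat_lit 1043) (C.node (nat_lit 0) (nat_lit 3) (nat_lit 4) (C.cons (nat_lit 537) (C.ref (nat_lit 37) (nat_lit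 202961470100016)) C.nil)) (C.cons (nat_lit 531) (C.node (nat_lit 0) (nat_lit 3) (nat_lit 4) (C.cons (nat_lit 1049) (C.ref (nat_lit 37) (nat_lit 203029921141296)) C.nil)) C.nil))) C.nil)))) List.nil))))))))))))))))))

theorem ok12_37 : okL par12 (nat_lit 55) c12_37 (nat_lit 37) = true := by decide +kernel

noncomputable def c12_55 : List C :=
  (List.cons (C.node (nat_lit 0) (nat_lit 3) (nat_lit 5) (C.cons (nat_lit 1065) (C.node (nat_lit 0) (nat_lit 2) (nat_lit 5) (C.cons (nat_lit 293) (C.node (nat_lit 0) (nat_lit 1) (nat_lit 8) (C.cons (nat_lit 275) (C.node (nat_lit 0) (nat_lit 1) (nat_lit 2) (C.cons (nat_lit 1031) (C.node (nat_lit 0) (nat_lit 2) (nat_lit 4) (C.cons (nat_lit 21) (C.node (nat_lit 0) (nat_lit 4) (nat_lit 10) (C.cons (nat_lit 1041) (C.node (nat_lit 0) (nat_lit 3) (nat_lit 4) (C.cons (nat_lit 537) (C.pat (nat_lit 2) (nat_lit 43823567493) (nat_lit 22992161879044555840738160919646754342391054873))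 C.nil)) C.nil)) C.nil)) (C.cons (nat_lit 7) (C.node (nat_lit 0) (nat_lit 1) (nat_lit 10) (C.cons (nat_lit 1027) (C.node (nat_lit 0) (nat_lit 2) (nat_lit 4) (C.cons (nat_lit 1045) (C.node (nat_lit 0) (nat_lit 3) (nat_lit 4) (C.cons (nat_lit 537) (C.pat (nat_lit 1) (nat_lit 949377602) (nat_lit 1521369046318577235256198302473981825)) C.nil)) C.nil)) C.nil)) C.nil))) (C.cons (nat_lit 259) (C.node (nat_lit 0) (nat_lit 4) (nat_lit 8) (C.cons (nat_lit 273) (C.node (nat_lit 0) (nat_lit 3) (nat_lit 4) (C.cons (nat_lit 537) (C.node (nat_lit 0) (nat_lit 2) (nat_lit 1) (C.cons (nat_lit 1031) (C.node (nat_lit 0) (nat_lit 2) (nat_lit 4) C.nil) (C.cons (nat_lit 23) (C.pat (nat_lit 1) (nat_lit 1804867363) (nat_lit 10691110444431600174789519397581426561)) C.nil))) C.nil)) C.nil)) C.nil))) (C.cons (nat_lit 37) (C.node (nat_lit 0) (nat_lit 5) (nat_lit 8) (C.cons (nat_lit 289) (C.node (nat_lit 0) (nat_lit 3) (nat_lit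 4) (C.cons (nat_lit 537) (C.node (nat_lit 0) (nat_lit 2) (nat_lit 8) (C.cons (nat_lit 277) (C.node (nat_lit 0) (nat_lit 1) (nat_lit 8) C.nil) (C.cons (nat_lit 263) (C.node (nat_lit 0) (nat_lit 4) (nat_lit 8) C.nil) C.nil))) C.nil)) C.nil)) C.nil))) (C.cons (nat_lit 41) (C.node (nat_lit 0) (nat_lit 3) (nat_lit 9) (C.cons (nat_lit 537) (C.node (nat_lit 0) (nat_lit 3) (nat_lit 10) (C.cons (nat_lit 1033) (C.node (nat_lit 0) (nat_lit 5) (nat_lit 8) (C.cons (nat_lit 293) (C.node (nat_lit 0) (nat_lit 5) (nat_lit 10) C.nil) C.nil)) C.nil)) (C.cons (nat_lit 521) (C.node (nat_lit 0) (nat_lit 4) (nat_lit 9) C.nil) C.nil))) C.nil))) (List.cons (C.node (nat_lit 0) (nat_lit 1) (nat_lit 9) (C.cons (nat_lit 547) (C.ref (nat_lit 55) (nat_lit 205163983024656)) (C.cons (nat_lit 531) (C.ref (nat_lit 55) (nat_lit 205163982041616)) (C.cons (nat_lit 515) (C.node (nat_lit 0) (nat_lit 4) (nat_lit 9) (C.cons (nat_lit 537) (C.node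 (nat_lit 0) (nat_lit 5) (nat_lit 9) (C.cons (nat_lit 545) (C.node (nat_lit 0) (nat_lit 3) (nat_lit 5) (C.cons (nat_lit 1065) (C.node (nat_lit 0) (nat_lit 2) (nat_lit 5) (C.cons (nat_lit 293) (C.node (nat_lit 0) (nat_lit 1) (nat_lit 5) C.nil) (C.cons (nat_lit 39) (C.node (nat_lit 0) (nat_lit 5) (nat_lit 8) C.nil) C.nil))) C.nil)) C.nil)) (C.cons (nat_lit 529) (C.node (nat_lit 0) (nat_lit 3) (nat_lit 4) (C.cons (nat_lit 1049) (C.node (nat_lit 0) (nat_lit 3) (nat_lit 5) (C.cons (nat_lit 553) (C.node (nat_lit 0) (nat_lit 2) (nat_lit 4) (C.cons (nat_lit 277) (C.node (nat_lit 0) (nat_lit 1) (nat_lit 4) C.nil) (C.cons (nat_lit 23) (C.node (nat_lit 0) (nat_lit 4) (nat_lit 8) C.nil) C.nil))) C.nil)) C.nil)) C.nil))) C.nil)))) (List.cons (C.node (nat_lit 0) (nat_lit 3) (nat_lit 6) (C.cons (nat_lit 1097) (C.ref (nat_lit 56) (nat_lit 204004341854736)) (C.cons (nat_lit 73) (C.node (nat_lit 0) (nat_lit 6) (nat_lit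 10) (C.cons (nat_lit 1089) (C.node (nat_lit 0) (nat_lit 1) (nat_lit 8) (C.cons (nat_lit 291) (C.node (nat_lit 0) (nat_lit 3) (nat_lit 8) (C.cons (nat_lit 281) (C.node (nat_lit 0) (nat_lit 3) (nat_lit 9) (C.cons (nat_lit 553) (C.node (nat_lit 0) (nat_lit 3) (nat_lit 10) C.nil) C.nil)) C.nil)) (C.cons (nat_lit 275) (C.node (nat_lit 0) (nat_lit 3) (nat_lit 8) (C.cons (nat_lit 297) (C.node (nat_lit 0) (nat_lit 3) (nat_lit 9) (C.cons (nat_lit 537) (C.node (nat_lit 0) (nat_lit 3) (nat_lit 10) C.nil) C.nil)) C.nil)) C.nil))) C.nil)) C.nil))) (List.cons (C.node (nat_lit 0) (nat_lit 6) (nat_lit 8) (C.cons (nat_lit 329) (C.node (nat_lit 0) (nat_lit 6) (nat_lit 9)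
  (C.cons (nat_lit 581) (C.node (nat_lit 0) (nat_lit 6) (nat_lit 10) (C.cons (nat_lit 1089) (C.ref (nat_lit 56) (nat_lit 205163983024656)) C.nil)) (C.cons (nat_lit 577) (C.node (nat_lit 0) (nat_lit 2) (nat_lit 6) (C.cons (nat_lit 1093) (C.ref (nat_lit 56) (nat_lit 204133190873616)) (C.cons (nat_lit 69) (C.node (nat_lit 0) (nat_lit 6) (nat_lit 10) (C.cons (nat_lit 1089) (C.ref (nat_lit 46) (nat_lit 205163965321776)) C.nil)) C.nil))) C.nil))) (C.cons (nat_lit 325) (C.node (nat_lit 0) (nat_lit 6) (nat_lit 9) (C.cons (nat_lit 585) (C.node (nat_lit 0) (nat_lit 6) (nat_lit 10) (C.cons (nat_lit 1089) (C.ref (nat_lit 56) (nat_lit 205099558515216)) C.nil)) (C.cons (nat_lit 577) (C.ref (nat_lit 57) (nat_lit 205163983024656)) C.nil))) (C.cons (nat_lit 321) (C.node (nat_lit 0) (nat_lit 2) (nat_lit 6) (C.cons (nat_lit 1093) (C.ref (nat_lit 57) (nat_lit 204004341854736)) (C.cons (nat_lit 581) (C.ref (nat_lit 57)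 (nat_lit 205099558515216)) (C.cons (nat_lit 69) (C.node (nat_lit 0) (nat_lit 6) (nat_lit 9) (C.cons (nat_lit 585) (C.node (nat_lit 0) (nat_lit 6) (nat_lit 10) (C.cons (nat_lit 1089) (C.ref (nat_lit 46) (nat_lit 205099540812336)) C.nil)) (C.cons (nat_lit 577) (C.node (nat_lit 0) (nat_lit 3) (nat_lit 6) (C.cons (nat_lit 1097) (C.ref (nat_lit 46) (nat_lit 204004324151856)) C.nil)) C.nil))) C.nil)))) C.nil)))) (List.cons (C.node (nat_lit 0) (nat_lit 1) (nat_lit 2) (C.cons (nat_lit 1031) (C.node (nat_lit 0) (nat_lit 6) (nat_lit 10) (C.cons (nat_lit 1089) (C.node (nat_lit 0) (nat_lit 2) (nat_lit 6) (C.cons (nat_lit 581) (C.node (nat_lit 0) (nat_lit 2) (nat_lit 3) (C.cons (nat_lit 29) (C.pat (nat_lit 2) (nat_lit 14917141605) (nat_lit 646919315825093090164024349131974951948062593)) (C.cons (nat_lit 13) (C.node (nat_lit 0) (nat_lit 2) (nat_lit 4) C.nil) C.nil))) (C.cons (nat_lit 69) (C.node (nat_lit 0) (nat_lit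 6) (nat_lit 9) C.nil) C.nil))) C.nil)) (C.cons (nat_lit 7) (C.node (nat_lit 0) (nat_lit 1) (nat_lit 10) (C.cons (nat_lit 1027) (C.node (nat_lit 0) (nat_lit 6) (nat_lit 9) (C.cons (nat_lit 581) (C.node (nat_lit 0) (nat_lit 6) (nat_lit 10) C.nil) C.nil)) C.nil)) C.nil))) (List.cons (C.node (nat_lit 0) (nat_lit 5) (nat_lit 9) (C.cons (nat_lit 547) (C.node (nat_lit 0) (nat_lit 5) (nat_lit 10) (C.cons (nat_lit 1057) (C.node (nat_lit 0) (nat_lit 1) (nat_lit 2) (C.cons (nat_lit 1031) (C.node (nat_lit 0) (nat_lit 6) (nat_lit 10) (C.cons (nat_lit 1097) (C.node (nat_lit 0) (nat_lit 4) (nat_lit 10) C.nil) C.nil)) C.nil)) C.nil)) (C.cons (nat_lit 545) (C.node (nat_lit 0) (nat_lit 1) (nat_lit 5) (C.cons (nat_lit 1059) (C.node (nat_lit 0) (nat_lit 1) (nat_lit 2) (C.cons (nat_lit 519) (C.node (nat_lit 0) (nat_lit 6) (nat_lit 9) (C.cons (nat_lit 585) (C.node (nat_lit 0) (nat_lit 4) (nat_lit 9) C.nil) C.nil)) C.nil))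 C.nil)) C.nil))) (List.cons (C.node (nat_lit 0) (nat_lit 1) (nat_lit 9) (C.cons (nat_lit 531) (C.node (nat_lit 0) (nat_lit 1) (nat_lit 2) (C.cons (nat_lit 1031) (C.node (nat_lit 0) (nat_lit 3) (nat_lit 9) (C.cons (nat_lit 585) (C.node (nat_lit 0) (nat_lit 6) (nat_lit 10) (C.cons (nat_lit 1089) (C.node (nat_lit 0) (nat_lit 2) (nat_lit 6) (C.cons (nat_lit 325) (C.node (nat_lit 0) (nat_lit 2) (nat_lit 3) (C.cons (nat_lit 29) (C.pat (nat_lit 2) (nat_lit 14900368485) (nat_lit 646832203539181612636466386652184940735696769)) (C.cons (nat_lit 13) (C.node (nat_lit 0) (nat_lit 2) (nat_lit 4) C.nil) C.nil))) (C.cons (nat_lit 69) (C.node (nat_lit 0) (nat_lit 6) (nat_lit 8) C.nil) C.nil))) C.nil)) (C.cons (nat_lit 521) (C.node (nat_lit 0) (nat_lit 6) (nat_lit 9) (C.cons (nat_lit 577) (C.node (nat_lit 0) (nat_lit 6) (nat_lit 10) (C.cons (nat_lit 1097) (C.node (nat_lit 0) (nat_lit 4) (nat_lit 10) C.nil) C.nil)) C.nil))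 C.nil))) (C.cons (nat_lit 7) (C.node (nat_lit 0) (nat_lit 1) (nat_lit 10) (C.cons (nat_lit 1027) (C.node (nat_lit 0) (nat_lit 3) (nat_lit 9) (C.cons (nat_lit 585) (C.node (nat_lit 0) (nat_lit 6) (nat_lit 8) (C.cons (nat_lit 325) (C.node (nat_lit 0) (nat_lit 6) (nat_lit 10) C.nil) C.nil)) C.nil)) C.nil)) C.nil))) (C.cons (nat_lit 515)
  (C.node (nat_lit 0) (nat_lit 4) (nat_lit 9) (C.cons (nat_lit 537) (C.node (nat_lit 0) (nat_lit 6) (nat_lit 9) (C.cons (nat_lit 577) (C.node (nat_lit 0) (nat_lit 4) (nat_lit 8) (C.cons (nat_lit 277) (C.node (nat_lit 0) (nat_lit 1) (nat_lit 2) (C.cons (nat_lit 1031) (C.node (nat_lit 0) (nat_lit 1) (nat_lit 4) C.nil) C.nil)) C.nil)) C.nil)) (C.cons (nat_lit 529) (C.node (nat_lit 0) (nat_lit 3) (nat_lit 9) (C.cons (nat_lit 585) (C.node (nat_lit 0) (nat_lit 6) (nat_lit 8) (C.cons (nat_lit 325) (C.node (nat_lit 0) (nat_lit 6) (nat_lit 10) C.nil) C.nil)) C.nil)) C.nil))) C.nil)))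 (List.cons (C.node (nat_lit 0) (nat_lit 1) (nat_lit 5) (C.cons (nat_lit 547) (C.node (nat_lit 0) (nat_lit 2) (nat_lit 4) (C.cons (nat_lit 533) (C.node (nat_lit 0) (nat_lit 2) (nat_lit 5) (C.cons (nat_lit 1061) (C.node (nat_lit 0) (nat_lit 2) (nat_lit 3) (C.cons (nat_lit 77) (C.pat (nat_lit 5) (nat_lit 559577258801) (nat_lit 88512393044622015651674205544084365571961454669)) (C.cons (nat_lit 13) (C.node (nat_lit 0) (nat_lit 2) (nat_lit 6) C.nil) C.nil))) (C.cons (nat_lit 37) (C.node (nat_lit 0) (nat_lit 5) (nat_lit 10) C.nil) C.nil))) (C.cons (nat_lit 21) (C.node (nat_lit 0) (nat_lit 4) (nat_lit 9) C.nil) C.nil))) (C.cons (nat_lit 35) (C.node (nat_lit 0) (nat_lit 1) (nat_lit 9) C.nil) C.nil))) (List.cons (C.node (nat_lit 0) (nat_lit 1) (nat_lit 9) (C.cons (nat_lit 547) (C.node (nat_lit 0) (nat_lit 3) (nat_lit 9) (C.cons (nat_lit 537) (C.node (nat_lit 0) (nat_lit 5) (nat_lit 8) (C.cons (nat_lit 293) (C.node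 (nat_lit 0) (nat_lit 1) (nat_lit 8) (C.cons (nat_lit 275) (C.node (nat_lit 0) (nat_lit 1) (nat_lit 2) (C.cons (nat_lit 1031) (C.node (nat_lit 0) (nat_lit 2) (nat_lit 3) C.nil) C.nil)) C.nil)) C.nil)) C.nil)) (C.cons (nat_lit 531) (C.node (nat_lit 0) (nat_lit 3) (nat_lit 9) (C.cons (nat_lit 553) (C.node (nat_lit 0) (nat_lit 4) (nat_lit 8) (C.cons (nat_lit 277) (C.node (nat_lit 0) (nat_lit 1) (nat_lit 8) (C.cons (nat_lit 291) (C.node (nat_lit 0) (nat_lit 1) (nat_lit 2) (C.cons (nat_lit 1031) (C.node (nat_lit 0) (nat_lit 2) (nat_lit 3) C.nil) C.nil)) C.nil)) C.nil)) C.nil)) C.nil))) (List.cons (C.node (nat_lit 0) (nat_lit 6) (nat_lit 8) (C.cons (nat_lit 329) (C.node (nat_lit 0) (nat_lit 6) (nat_lit 9) (C.cons (nat_lit 581) (C.node (nat_lit 0) (nat_lit 6) (nat_lit 10) (C.cons (nat_lit 1089) (C.ref (nat_lit 63) (nat_lit 205163983024656)) C.nil)) (C.cons (nat_lit 577) (C.node (nat_lit 0) (nat_lit 2) (nat_lit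 6) (C.cons (nat_lit 1093) (C.ref (nat_lit 63) (nat_lit 204133190873616)) C.nil)) C.nil))) (C.cons (nat_lit 325) (C.node (nat_lit 0) (nat_lit 6) (nat_lit 9) (C.cons (nat_lit 585) (C.node (nat_lit 0) (nat_lit 6) (nat_lit 10) (C.cons (nat_lit 1089) (C.ref (nat_lit 63) (nat_lit 205099558515216)) C.nil)) (C.cons (nat_lit 577) (C.node (nat_lit 0) (nat_lit 3) (nat_lit 6) (C.cons (nat_lit 1097) (C.ref (nat_lit 63) (nat_lit 204004341854736)) C.nil)) C.nil))) (C.cons (nat_lit 321) (C.node (nat_lit 0) (nat_lit 6) (nat_lit 9) (C.cons (nat_lit 585) (C.node (nat_lit 0) (nat_lit 2) (nat_lit 6) (C.cons (nat_lit 1093) (C.ref (nat_lit 63) (nat_lit 203037974213136)) C.nil)) (C.cons (nat_lit 581) (C.node (nat_lit 0) (nat_lit 3) (nat_lit 6) (C.cons (nat_lit 1097) (C.ref (nat_lit 63) (nat_lit 202973549703696)) C.nil)) C.nil))) C.nil)))) (List.cons (C.node (nat_lit 0) (nat_lit 2) (nat_lit 7) (C.cons (nat_lit 165) (C.node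 (nat_lit 0) (nat_lit 3) (nat_lit 7) (C.cons (nat_lit 137) (C.ref (nat_lit 52) (nat_lit 205163982041616)) C.nil)) (C.cons (nat_lit 141) (C.node (nat_lit 0) (nat_lit 5) (nat_lit 7) (C.cons (nat_lit 161) (C.ref (nat_lit 58) (nat_lit 205163983024656)) C.nil)) (C.cons (nat_lit 133) (C.node (nat_lit 0) (nat_lit 3) (nat_lit 7) (C.cons (nat_lit 169) (C.node (nat_lit 0) (nat_lit 5) (nat_lit 8) (C.cons (nat_lit 293) (C.node (nat_lit 0) (nat_lit 1) (nat_lit 8) (C.cons (nat_lit 275) (C.node (nat_lit 0) (nat_lit 3) (nat_lit 8) (C.cons (nat_lit 329) (C.node (nat_lit 0) (nat_lit 5) (nat_lit 9) (C.cons (nat_lit 547) (C.node (nat_lit 0) (nat_lit 5) (nat_lit 10)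
  (C.cons (nat_lit 1057) (C.ref (nat_lit 59) (nat_lit 205163983024656)) C.nil)) (C.cons (nat_lit 545) (C.node (nat_lit 0) (nat_lit 1) (nat_lit 5) (C.cons (nat_lit 1059) (C.ref (nat_lit 59) (nat_lit 204133190873616)) (C.cons (nat_lit 35) (C.node (nat_lit 0) (nat_lit 5) (nat_lit 10) (C.cons (nat_lit 1057) (C.node (nat_lit 0) (nat_lit 1) (nat_lit 9) (C.cons (nat_lit 519) (C.node (nat_lit 0) (nat_lit 1) (nat_lit 10) C.nil) C.nil)) C.nil)) C.nil))) C.nil))) (C.cons (nat_lit 265) (C.node (nat_lit 0) (nat_lit 6) (nat_lit 8) (C.cons (nat_lit 321) (C.ref (nat_lit 60) (nat_lit 205163983024656)) C.nil)) C.nil))) (C.cons (nat_lit 259) (C.node (nat_lit 0) (nat_lit 4) (nat_lit 8) (C.cons (nat_lit 281) (C.node (nat_lit 0) (nat_lit 6) (nat_lit 8) (C.cons (nat_lit 321) (C.node (nat_lit 0) (nat_lit 5) (nat_lit 9) (C.cons (nat_lit 547) (C.node (nat_lit 0) (nat_lit 5) (nat_lit 10) (C.cons (nat_lit 1057) (C.node (nat_lit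 0) (nat_lit 4) (nat_lit 9) (C.cons (nat_lit 533) (C.node (nat_lit 0) (nat_lit 1) (nat_lit 2) (C.cons (nat_lit 1031) (C.node (nat_lit 0) (nat_lit 1) (nat_lit 4) C.nil) C.nil)) C.nil)) C.nil)) (C.cons (nat_lit 545) (C.node (nat_lit 0) (nat_lit 1) (nat_lit 5) (C.cons (nat_lit 1059) (C.node (nat_lit 0) (nat_lit 4) (nat_lit 10) (C.cons (nat_lit 1045) (C.node (nat_lit 0) (nat_lit 1) (nat_lit 2) (C.cons (nat_lit 519) (C.node (nat_lit 0) (nat_lit 1) (nat_lit 4) C.nil) C.nil)) C.nil)) C.nil)) C.nil))) C.nil)) (C.cons (nat_lit 273) (C.node (nat_lit 0) (nat_lit 3) (nat_lit 8) (C.cons (nat_lit 329) (C.node (nat_lit 0) (nat_lit 5) (nat_lit 9) (C.cons (nat_lit 547) (C.node (nat_lit 0) (nat_lit 5) (nat_lit 10) (C.cons (nat_lit 1057) (C.node (nat_lit 0) (nat_lit 6) (nat_lit 9) (C.cons (nat_lit 581) (C.node (nat_lit 0) (nat_lit 6) (nat_lit 10) C.nil) C.nil)) C.nil)) (C.cons (nat_lit 545) (C.node (nat_lit 0) (nat_lit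 1) (nat_lit 5) (C.cons (nat_lit 1059) (C.node (nat_lit 0) (nat_lit 6) (nat_lit 10) (C.cons (nat_lit 1093) (C.node (nat_lit 0) (nat_lit 6) (nat_lit 9) C.nil) C.nil)) C.nil)) C.nil))) (C.cons (nat_lit 265) (C.node (nat_lit 0) (nat_lit 6) (nat_lit 8) C.nil) C.nil))) C.nil))) C.nil))) (C.cons (nat_lit 291) (C.node (nat_lit 0) (nat_lit 5) (nat_lit 9) (C.cons (nat_lit 549) (C.node (nat_lit 0) (nat_lit 5) (nat_lit 10) (C.cons (nat_lit 1057) (C.ref (nat_lit 61) (nat_lit 205163983024656)) C.nil)) (C.cons (nat_lit 545) (C.node (nat_lit 0) (nat_lit 2) (nat_lit 5) (C.cons (nat_lit 1061) (C.ref (nat_lit 61) (nat_lit 204133190873616)) (C.cons (nat_lit 37) (C.node (nat_lit 0) (nat_lit 5) (nat_lit 10) (C.cons (nat_lit 1057) (C.ref (nat_lit 45) (nat_lit 205163950584336)) C.nil)) C.nil))) C.nil))) (C.cons (nat_lit 289) (C.node (nat_lit 0) (nat_lit 1) (nat_lit 8) (C.cons (nat_lit 275) (C.node (nat_lit 0) (nat_lit 1)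 (nat_lit 9) (C.cons (nat_lit 547) (C.node (nat_lit 0) (nat_lit 1) (nat_lit 2) (C.cons (nat_lit 1031) (C.node (nat_lit 0) (nat_lit 2) (nat_lit 5) (C.cons (nat_lit 37) (C.node (nat_lit 0) (nat_lit 5) (nat_lit 10) (C.cons (nat_lit 1057) (C.node (nat_lit 0) (nat_lit 6) (nat_lit 10) (C.cons (nat_lit 1097) (C.node (nat_lit 0) (nat_lit 4) (nat_lit 10) C.nil) C.nil)) C.nil)) C.nil)) (C.cons (nat_lit 7) (C.node (nat_lit 0) (nat_lit 1) (nat_lit 10) (C.cons (nat_lit 1027) (C.node (nat_lit 0) (nat_lit 2) (nat_lit 5) (C.cons (nat_lit 1061) (C.node (nat_lit 0) (nat_lit 4) (nat_lit 10) (C.cons (nat_lit 1049) (C.node (nat_lit 0) (nat_lit 6) (nat_lit 10) C.nil) C.nil)) C.nil)) C.nil)) C.nil))) (C.cons (nat_lit 519) (C.node (nat_lit 0) (nat_lit 5) (nat_lit 9) (C.cons (nat_lit 545) (C.node (nat_lit 0) (nat_lit 1) (nat_lit 5) (C.cons (nat_lit 1059) (C.node (nat_lit 0) (nat_lit 2) (nat_lit 5) (C.cons (nat_lit 37) (C.node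 (nat_lit 0) (nat_lit 6) (nat_lit 9) (C.cons (nat_lit 585) (C.node (nat_lit 0) (nat_lit 4) (nat_lit 9) C.nil) C.nil)) C.nil)) (C.cons (nat_lit 35) (C.node (nat_lit 0) (nat_lit 1) (nat_lit 10) C.nil) C.nil))) C.nil)) (C.cons (nat_lit 515) (C.node (nat_lit 0) (nat_lit 5) (nat_lit 9) (C.cons (nat_lit 549) (C.node (nat_lit 0) (nat_lit 1) (nat_lit 2)
  (C.cons (nat_lit 1031) (C.node (nat_lit 0) (nat_lit 1) (nat_lit 5) (C.cons (nat_lit 35) (C.node (nat_lit 0) (nat_lit 5) (nat_lit 10) C.nil) C.nil)) (C.cons (nat_lit 7) (C.node (nat_lit 0) (nat_lit 1) (nat_lit 5) (C.cons (nat_lit 1059) (C.node (nat_lit 0) (nat_lit 4) (nat_lit 9) (C.cons (nat_lit 537) (C.node (nat_lit 0) (nat_lit 6) (nat_lit 9) C.nil) C.nil)) C.nil)) C.nil))) (C.cons (nat_lit 545) (C.node (nat_lit 0) (nat_lit 1) (nat_lit 2) (C.cons (nat_lit 1031) (C.node (nat_lit 0) (nat_lit 1) (nat_lit 5) C.nil) (C.cons (nat_lit 39) (C.node (nat_lit 0) (nat_lit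 1) (nat_lit 10) C.nil) C.nil))) C.nil))) C.nil)))) (C.cons (nat_lit 263) (C.node (nat_lit 0) (nat_lit 4) (nat_lit 8) (C.cons (nat_lit 281) (C.node (nat_lit 0) (nat_lit 6) (nat_lit 8) (C.cons (nat_lit 321) (C.node (nat_lit 0) (nat_lit 1) (nat_lit 4) (C.cons (nat_lit 1043) (C.ref (nat_lit 62) (nat_lit 205163983024656)) (C.cons (nat_lit 531) (C.ref (nat_lit 62) (nat_lit 204133190873616)) (C.cons (nat_lit 19) (C.node (nat_lit 0) (nat_lit 1) (nat_lit 9) (C.cons (nat_lit 547) (C.node (nat_lit 0) (nat_lit 1) (nat_lit 10) C.nil) C.nil)) C.nil)))) C.nil)) (C.cons (nat_lit 273) (C.node (nat_lit 0) (nat_lit 3) (nat_lit 8) (C.cons (nat_lit 329) (C.node (nat_lit 0) (nat_lit 6) (nat_lit 9) (C.cons (nat_lit 581) (C.node (nat_lit 0) (nat_lit 6) (nat_lit 10) (C.cons (nat_lit 1089) (C.node (nat_lit 0) (nat_lit 2) (nat_lit 5) (C.cons (nat_lit 1061) (C.node (nat_lit 0) (nat_lit 1) (nat_lit 5) (C.cons (nat_lit 547) (C.node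 (nat_lit 0) (nat_lit 1) (nat_lit 4) (C.cons (nat_lit 1043) (C.node (nat_lit 0) (nat_lit 3) (nat_lit 10) C.nil) C.nil)) C.nil)) C.nil)) C.nil)) (C.cons (nat_lit 577) (C.node (nat_lit 0) (nat_lit 2) (nat_lit 6) (C.cons (nat_lit 1093) (C.node (nat_lit 0) (nat_lit 2) (nat_lit 5) (C.cons (nat_lit 549) (C.node (nat_lit 0) (nat_lit 1) (nat_lit 5) (C.cons (nat_lit 1059) (C.node (nat_lit 0) (nat_lit 1) (nat_lit 4) (C.cons (nat_lit 531) (C.node (nat_lit 0) (nat_lit 3) (nat_lit 9) C.nil) C.nil)) C.nil)) C.nil)) C.nil)) C.nil))) (C.cons (nat_lit 265) (C.node (nat_lit 0) (nat_lit 6) (nat_lit 8) C.nil) C.nil))) C.nil))) (C.cons (nat_lit 259) (C.node (nat_lit 0) (nat_lit 4) (nat_lit 8) (C.cons (nat_lit 281) (C.node (nat_lit 0) (nat_lit 2) (nat_lit 8) (C.cons (nat_lit 325) (C.ref (nat_lit 60) (nat_lit 205163967287856)) (C.cons (nat_lit 261) (C.node (nat_lit 0) (nat_lit 6) (nat_lit 8) C.nil) C.nil))) (C.cons (nat_lit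 277) (C.node (nat_lit 0) (nat_lit 3) (nat_lit 8) (C.cons (nat_lit 329) (C.node (nat_lit 0) (nat_lit 6) (nat_lit 9) (C.cons (nat_lit 581) (C.node (nat_lit 0) (nat_lit 6) (nat_lit 10) (C.cons (nat_lit 1089) (C.node (nat_lit 0) (nat_lit 2) (nat_lit 3) (C.cons (nat_lit 1037) (C.node (nat_lit 0) (nat_lit 1) (nat_lit 2) (C.cons (nat_lit 39) (C.node (nat_lit 0) (nat_lit 5) (nat_lit 9) C.nil) C.nil)) C.nil)) C.nil)) (C.cons (nat_lit 577) (C.node (nat_lit 0) (nat_lit 2) (nat_lit 6) (C.cons (nat_lit 1093) (C.node (nat_lit 0) (nat_lit 2) (nat_lit 3) (C.cons (nat_lit 525) (C.node (nat_lit 0) (nat_lit 1) (nat_lit 2) (C.cons (nat_lit 39) (C.node (nat_lit 0) (nat_lit 5) (nat_lit 10) C.nil) C.nil)) C.nil)) C.nil)) C.nil))) (C.cons (nat_lit 265) (C.node (nat_lit 0) (nat_lit 6) (nat_lit 8) C.nil) C.nil))) (C.cons (nat_lit 273) (C.node (nat_lit 0) (nat_lit 2) (nat_lit 8) (C.cons (nat_lit 325) (C.node (nat_lit 0) (nat_lit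 3) (nat_lit 8) C.nil) (C.cons (nat_lit 269) (C.node (nat_lit 0) (nat_lit 6) (nat_lit 8) C.nil) C.nil))) C.nil)))) C.nil)))) C.nil)))) (C.cons (nat_lit 137) (C.node (nat_lit 0) (nat_lit 5) (nat_lit 7) (C.cons (nat_lit 161) (C.ref (nat_lit 64) (nat_lit 205163983024656)) C.nil)) C.nil))) C.nil)))) (List.cons (C.node (nat_lit 0) (nat_lit 1) (nat_lit 6) (C.cons (nat_lit 323) (C.node (nat_lit 0) (nat_lit 4) (nat_lit 8) (C.cons (nat_lit 281) (C.node (nat_lit 0) (nat_lit 2) (nat_lit 4) (C.cons (nat_lit 533) (C.node (nat_lit 0) (nat_lit 2) (nat_lit 8) (C.cons (nat_lit 293) (C.node (nat_lit 0) (nat_lit 3) (nat_lit 5) (C.cons (nat_lit 1065) (C.node (nat_lit 0) (nat_lit 2) (nat_lit 3)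
  (C.cons (nat_lit 77) (C.pat (nat_lit 2) (nat_lit 11176871508) (nat_lit 1717519783847838377222499065351631187924291457)) (C.cons (nat_lit 13) (C.node (nat_lit 0) (nat_lit 2) (nat_lit 6) (C.cons (nat_lit 1093) (C.pat (nat_lit 1) (nat_lit 680880705) (nat_lit 1677135099819668589236770588199030657)) C.nil)) C.nil))) (C.cons (nat_lit 41) (C.node (nat_lit 0) (nat_lit 5) (nat_lit 10) C.nil) C.nil))) (C.cons (nat_lit 261) (C.node (nat_lit 0) (nat_lit 5) (nat_lit 8) C.nil) C.nil))) (C.cons (nat_lit 21) (C.node (nat_lit 0) (nat_lit 4) (nat_lit 9) C.nil) C.nil))) (C.cons (nat_lit 277) (C.node (nat_lit 0) (nat_lit 3) (nat_lit 4) (C.cons (nat_lit 537) (C.node (nat_lit 0) (nat_lit 2) (nat_lit 9) (C.cons (nat_lit 581) (C.node (nat_lit 0) (nat_lit 3) (nat_lit 6) (C.cons (nat_lit 1097) (C.node (nat_lit 0) (nat_lit 2) (nat_lit 3) (C.cons (nat_lit 45) (C.pat (nat_lit 2) (nat_lit 10908439908) (nat_lit 1003906825367548228393984289179912364228677505))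 (C.cons (nat_lit 13) (C.node (nat_lit 0) (nat_lit 2) (nat_lit 5) (C.cons (nat_lit 1061) (C.pat (nat_lit 1) (nat_lit 696670785) (nat_lit 2840232413571474112195283818724265857)) C.nil)) C.nil))) (C.cons (nat_lit 73) (C.node (nat_lit 0) (nat_lit 6) (nat_lit 10) C.nil) C.nil))) (C.cons (nat_lit 517) (C.node (nat_lit 0) (nat_lit 6) (nat_lit 9) C.nil) C.nil))) (C.cons (nat_lit 25) (C.node (nat_lit 0) (nat_lit 4) (nat_lit 9) C.nil) C.nil))) (C.cons (nat_lit 273) (C.node (nat_lit 0) (nat_lit 2) (nat_lit 4) (C.cons (nat_lit 533) (C.node (nat_lit 0) (nat_lit 3) (nat_lit 4) C.nil) (C.cons (nat_lit 29) (C.node (nat_lit 0) (nat_lit 4) (nat_lit 9) C.nil) C.nil))) C.nil)))) (C.cons (nat_lit 67) (C.node (nat_lit 0) (nat_lit 1) (nat_lit 8) C.nil) C.nil))) (List.cons (C.node (nat_lit 0) (nat_lit 1) (nat_lit 5) (C.cons (nat_lit 547) (C.ref (nat_lit 66) (nat_lit 205163983024656)) (C.cons (nat_lit 291) (C.ref (nat_lit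 66) (nat_lit 205099558515216)) (C.cons (nat_lit 35) (C.node (nat_lit 0) (nat_lit 1) (nat_lit 8) (C.cons (nat_lit 323) (C.node (nat_lit 0) (nat_lit 1) (nat_lit 9) C.nil) C.nil)) C.nil)))) (List.cons (C.node (nat_lit 0) (nat_lit 6) (nat_lit 7) (C.cons (nat_lit 193) (C.node (nat_lit 0) (nat_lit 1) (nat_lit 4) (C.cons (nat_lit 1043) (C.ref (nat_lit 67) (nat_lit 205163983024656)) (C.cons (nat_lit 531) (C.ref (nat_lit 67) (nat_lit 204133190873616)) (C.cons (nat_lit 275) (C.ref (nat_lit 67) (nat_lit 203037974213136)) (C.cons (nat_lit 19) (C.node (nat_lit 0) (nat_lit 1) (nat_lit 8) (C.cons (nat_lit 323) (C.node (nat_lit 0) (nat_lit 1) (nat_lit 9) (C.cons (nat_lit 547) (C.node (nat_lit 0) (nat_lit 1) (nat_lit 10) C.nil) C.nil)) (C.cons (nat_lit 291) (C.node (nat_lit 0) (nat_lit 1) (nat_lit 9) (C.cons (nat_lit 579) (C.node (nat_lit 0) (nat_lit 1) (nat_lit 10) C.nil) C.nil)) C.nil))) C.nil))))) C.nil)) List.nil))))))))))))))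

theorem ok12_55 : okL par12 (nat_lit 69) c12_55 (nat_lit 55) = true := by decide +kernel

noncomputable def c12_69 : List C :=
  (List.cons (C.node (nat_lit 0) (nat_lit 4) (nat_lit 7) (C.cons (nat_lit 153) (C.ref (nat_lit 49) (nat_lit 205163983024656)) (C.cons (nat_lit 149) (C.node (nat_lit 0) (nat_lit 1) (nat_lit 7) (C.cons (nat_lit 195) (C.ref (nat_lit 53) (nat_lit 205163983024656)) (C.cons (nat_lit 163) (C.ref (nat_lit 53) (nat_lit 205163967296016)) (C.cons (nat_lit 131) (C.node (nat_lit 0) (nat_lit 5) (nat_lit 7) (C.cons (nat_lit 169) (C.node (nat_lit 0) (nat_lit 6) (nat_lit 7) (C.cons (nat_lit 193) (C.ref (nat_lit 52) (nat_lit 205163967287856)) C.nil)) (C.cons (nat_lit 161) (C.node (nat_lit 0) (nat_lit 3) (nat_lit 7) (C.cons (nat_lit 201) (C.ref (nat_lit 52) (nat_lit 205163983016496)) (C.cons (nat_lit 137) (C.node (nat_lit 0) (nat_lit 6) (nat_lit 7) (C.cons (nat_lit 193) (C.ref (nat_lit 54) (nat_lit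 205163983024656)) C.nil)) C.nil))) C.nil))) C.nil)))) (C.cons (nat_lit 147) (C.ref (nat_lit 49) (nat_lit 205163983016496)) (C.cons (nat_lit 145) (C.node (nat_lit 0) (nat_lit 1) (nat_lit 7) (C.cons (nat_lit 195) (C.ref (nat_lit 65) (nat_lit 205163983024656)) (C.cons (nat_lit 163) (C.ref (nat_lit 65) (nat_lit 205163967296016)) (C.cons (nat_lit 135) (C.node (nat_lit 0) (nat_lit 5) (nat_lit 7) (C.cons (nat_lit 169) (C.node (nat_lit 0) (nat_lit 6) (nat_lit 7) (C.cons (nat_lit 193) (C.ref (nat_lit 58) (nat_lit 205163967287856)) C.nil)) (C.cons (nat_lit 161) (C.node (nat_lit 0) (nat_lit 3) (nat_lit 7) (C.cons (nat_lit 201) (C.ref (nat_lit 58) (nat_lit 205163983016496)) (C.cons (nat_lit 137) (C.ref (nat_lit 68) (nat_lit 205163983024656)) C.nil))) C.nil))) (C.cons (nat_lit 131) (C.node (nat_lit 0) (nat_lit 5) (nat_lit 7) (C.cons (nat_lit 169) (C.node (nat_lit 0) (nat_lit 2) (nat_lit 7) (C.cons (nat_lit 197)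 (C.ref (nat_lit 52) (nat_lit 205163965321776)) (C.cons (nat_lit 133) (C.node (nat_lit 0) (nat_lit 6) (nat_lit 7) (C.cons (nat_lit 193) (C.ref (nat_lit 64) (nat_lit 205163967287856)) C.nil)) C.nil))) (C.cons (nat_lit 165) (C.node (nat_lit 0) (nat_lit 3) (nat_lit 7) (C.cons (nat_lit 201) (C.ref (nat_lit 52) (nat_lit 205163982033456)) (C.cons (nat_lit 137) (C.node (nat_lit 0) (nat_lit 6) (nat_lit 7) (C.cons (nat_lit 193) (C.ref (nat_lit 54) (nat_lit 205163982041616)) C.nil)) C.nil))) (C.cons (nat_lit 161) (C.node (nat_lit 0) (nat_lit 2) (nat_lit 7) (C.cons (nat_lit 197) (C.node (nat_lit 0) (nat_lit 3) (nat_lit 7) (C.cons (nat_lit 137) (C.ref (nat_lit 54) (nat_lit 205163965329936)) C.nil)) (C.cons (nat_lit 141) (C.ref (nat_lit 68) (nat_lit 205163983016496)) (C.cons (nat_lit 133) (C.node (nat_lit 0) (nat_lit 3) (nat_lit 7) (C.cons (nat_lit 201) (C.ref (nat_lit 64) (nat_lit 205163983016496)) (C.cons (nat_lit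 137) (C.node (nat_lit 0) (nat_lit 6) (nat_lit 7) C.nil) C.nil))) C.nil)))) C.nil)))) C.nil))))) C.nil))))) (List.cons (C.node (nat_lit 0) (nat_lit 5) (nat_lit 9) (C.cons (nat_lit 553) (C.node (nat_lit 0) (nat_lit 2) (nat_lit 9) (C.cons (nat_lit 581) (C.node (nat_lit 0) (nat_lit 5) (nat_lit 8) (C.cons (nat_lit 291) (C.node (nat_lit 0) (nat_lit 5) (nat_lit 10) C.nil) C.nil)) C.nil)) C.nil)) (List.cons (C.node (nat_lit 0) (nat_lit 1) (nat_lit 7) (C.cons (nat_lit 195) (C.node (nat_lit 0) (nat_lit 5) (nat_lit 9) (C.cons (nat_lit 553) (C.node (nat_lit 0) (nat_lit 2) (nat_lit 9) (C.cons (nat_lit 581) (C.node (nat_lit 0) (nat_lit 5) (nat_lit 8) (C.cons (nat_lit 291) (C.pat (nat_lit 1) (nat_lit 663054657) (nat_lit 1012510960412914372323284483356823425)) (C.cons (nat_lit 289) (C.node (nat_lit 0) (nat_lit 1) (nat_lit 5) (C.cons (nat_lit 1059) (C.node (nat_lit 0) (nat_lit 1) (nat_lit 2) (C.cons (nat_lit 15) (C.pat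 (nat_lit 1) (nat_lit 1417057057) (nat_lit 2757280844176937531904002085362139289)) (C.cons (nat_lit 7) (C.node (nat_lit 0) (nat_lit 1) (nat_lit 3) (C.cons (nat_lit 267) (C.pat (nat_lit 2) (nat_lit 34998686580) (nat_lit 5954365323926269400694218899312270443625906757)) C.nil)) C.nil))) (C.cons (nat_lit 35) (C.node (nat_lit 0) (nat_lit 5) (nat_lit 10) C.nil) C.nil))) C.nil))) (C.cons (nat_lit 517) (C.node (nat_lit 0) (nat_lit 6) (nat_lit 9) (C.cons (nat_lit 577)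
  (C.node (nat_lit 0) (nat_lit 5) (nat_lit 8) (C.cons (nat_lit 291) (C.node (nat_lit 0) (nat_lit 5) (nat_lit 10) C.nil) C.nil)) C.nil)) C.nil))) (C.cons (nat_lit 545) (C.node (nat_lit 0) (nat_lit 6) (nat_lit 8) (C.cons (nat_lit 329) (C.node (nat_lit 0) (nat_lit 1) (nat_lit 8) (C.cons (nat_lit 291) (C.node (nat_lit 0) (nat_lit 3) (nat_lit 5) (C.cons (nat_lit 1065) (C.node (nat_lit 0) (nat_lit 3) (nat_lit 1) (C.cons (nat_lit 15) (C.pat (nat_lit 1) (nat_lit 1418097171) (nat_lit 794592631812761590846600030061789461)) (C.cons (nat_lit 11) (C.node (nat_lit 0) (nat_lit 3) (nat_lit 2) (C.cons (nat_lit 525) (C.pat (nat_lit 2) (nat_lit 39027307140) (nat_lit 11708003183638566980670868054510303085541523651)) C.nil)) C.nil))) (C.cons (nat_lit 41) (C.node (nat_lit 0) (nat_lit 5) (nat_lit 10) C.nil) C.nil))) (C.cons (nat_lit 259) (C.node (nat_lit 0) (nat_lit 5) (nat_lit 8) C.nil) C.nil))) (C.cons (nat_lit 321) (C.node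 (nat_lit 0) (nat_lit 1) (nat_lit 2) (C.cons (nat_lit 1031) (C.node (nat_lit 0) (nat_lit 5) (nat_lit 10) (C.cons (nat_lit 1065) (C.node (nat_lit 0) (nat_lit 6) (nat_lit 10) C.nil) C.nil)) (C.cons (nat_lit 15) (C.node (nat_lit 0) (nat_lit 1) (nat_lit 8) (C.cons (nat_lit 291) (C.node (nat_lit 0) (nat_lit 1) (nat_lit 10) C.nil) C.nil)) C.nil))) C.nil))) C.nil))) (C.cons (nat_lit 131) (C.node (nat_lit 0) (nat_lit 6) (nat_lit 7) (C.cons (nat_lit 193) (C.ref (nat_lit 70) (nat_lit 205163983024656)) C.nil)) C.nil))) (List.cons (C.node (nat_lit 0) (nat_lit 5) (nat_lit 7) (C.cons (nat_lit 165) (C.ref (nat_lit 71) (nat_lit 205163983024656)) (C.cons (nat_lit 163) (C.ref (nat_lit 71) (nat_lit 205099558514976)) (C.cons (nat_lit 161) (C.node (nat_lit 0) (nat_lit 1) (nat_lit 7) (C.cons (nat_lit 195) (C.node (nat_lit 0) (nat_lit 2) (nat_lit 7) (C.cons (nat_lit 133) (C.ref (nat_lit 70) (nat_lit 205099542786336)) C.nil))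 (C.cons (nat_lit 135) (C.node (nat_lit 0) (nat_lit 6) (nat_lit 7) (C.cons (nat_lit 193) (C.node (nat_lit 0) (nat_lit 5) (nat_lit 8) (C.cons (nat_lit 297) (C.node (nat_lit 0) (nat_lit 1) (nat_lit 5) (C.cons (nat_lit 1059) (C.node (nat_lit 0) (nat_lit 1) (nat_lit 3) (C.cons (nat_lit 75) (C.node (nat_lit 0) (nat_lit 1) (nat_lit 8) C.nil) C.nil)) C.nil)) (C.cons (nat_lit 291) (C.node (nat_lit 0) (nat_lit 3) (nat_lit 8) (C.cons (nat_lit 329) (C.node (nat_lit 0) (nat_lit 1) (nat_lit 3) (C.cons (nat_lit 1035) (C.node (nat_lit 0) (nat_lit 1) (nat_lit 6) C.nil) C.nil)) C.nil)) C.nil))) C.nil)) (C.cons (nat_lit 131) (C.node (nat_lit 0) (nat_lit 2) (nat_lit 7) (C.cons (nat_lit 197) (C.ref (nat_lit 70) (nat_lit 205163967296016)) C.nil)) C.nil)))) C.nil)))) (List.cons (C.node (nat_lit 0) (nat_lit 5) (nat_lit 7) (C.cons (nat_lit 165) (C.node (nat_lit 0) (nat_lit 1) (nat_lit 7) (C.cons (nat_lit 195) (C.node (nat_lit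 0) (nat_lit 6) (nat_lit 8) (C.cons (nat_lit 329) (C.node (nat_lit 0) (nat_lit 1) (nat_lit 8) (C.cons (nat_lit 291) (C.node (nat_lit 0) (nat_lit 5) (nat_lit 9) (C.cons (nat_lit 553) (C.node (nat_lit 0) (nat_lit 5) (nat_lit 10) C.nil) C.nil)) C.nil)) C.nil)) C.nil)) (C.cons (nat_lit 163) (C.node (nat_lit 0) (nat_lit 2) (nat_lit 7) (C.cons (nat_lit 197) (C.node (nat_lit 0) (nat_lit 5) (nat_lit 8) (C.cons (nat_lit 297) (C.node (nat_lit 0) (nat_lit 1) (nat_lit 8) (C.cons (nat_lit 323) (C.node (nat_lit 0) (nat_lit 6) (nat_lit 9) (C.cons (nat_lit 585) (C.node (nat_lit 0) (nat_lit 6) (nat_lit 10) C.nil) C.nil)) C.nil)) C.nil)) C.nil)) C.nil))) (List.cons (C.node (nat_lit 0) (nat_lit 1) (nat_lit 4) (C.cons (nat_lit 1043) (C.ref (nat_lit 72) (nat_lit 204133190873616)) (C.cons (nat_lit 19) (C.node (nat_lit 0) (nat_lit 4) (nat_lit 10) (C.cons (nat_lit 1041) (C.ref (nat_lit 73) (nat_lit 205163983024656)) C.nil))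 C.nil))) (List.cons (C.node (nat_lit 0) (nat_lit 1) (nat_lit 7) (C.cons (nat_lit 195) (C.node (nat_lit 0) (nat_lit 2) (nat_lit 7) (C.cons (nat_lit 165) (C.node (nat_lit 0) (nat_lit 1) (nat_lit 8) (C.cons (nat_lit 291) (C.node (nat_lit 0) (nat_lit 1) (nat_lit 9) (C.cons (nat_lit 523)
  (C.node (nat_lit 0) (nat_lit 1) (nat_lit 10) C.nil) C.nil)) (C.cons (nat_lit 267) (C.node (nat_lit 0) (nat_lit 5) (nat_lit 8) C.nil) C.nil))) C.nil)) (C.cons (nat_lit 163) (C.node (nat_lit 0) (nat_lit 2) (nat_lit 7) (C.cons (nat_lit 197) (C.node (nat_lit 0) (nat_lit 1) (nat_lit 8) (C.cons (nat_lit 323) (C.node (nat_lit 0) (nat_lit 1) (nat_lit 9) (C.cons (nat_lit 523) (C.node (nat_lit 0) (nat_lit 1) (nat_lit 10) C.nil) C.nil)) (C.cons (nat_lit 267) (C.node (nat_lit 0) (nat_lit 6) (nat_lit 8) C.nil) C.nil))) C.nil)) C.nil))) (List.cons (C.node (nat_lit 0) (nat_lit 1) (nat_lit 4) (C.cons (nat_lit 1043) (C.node (nat_lit 0)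 (nat_lit 2) (nat_lit 4) (C.cons (nat_lit 21) (C.ref (nat_lit 73) (nat_lit 204004341854496)) C.nil)) (C.cons (nat_lit 23) (C.node (nat_lit 0) (nat_lit 4) (nat_lit 10) (C.cons (nat_lit 1041) (C.ref (nat_lit 75) (nat_lit 205163983024656)) C.nil)) (C.cons (nat_lit 19) (C.node (nat_lit 0) (nat_lit 2) (nat_lit 4) (C.cons (nat_lit 1045) (C.ref (nat_lit 73) (nat_lit 204004341854736)) C.nil)) C.nil)))) (List.cons (C.node (nat_lit 0) (nat_lit 4) (nat_lit 9) (C.cons (nat_lit 533) (C.ref (nat_lit 74) (nat_lit 205099558515216)) (C.cons (nat_lit 531) (C.ref (nat_lit 74) (nat_lit 205099558514976)) (C.cons (nat_lit 529) (C.ref (nat_lit 76) (nat_lit 205163983024656)) C.nil)))) (List.cons (C.node (nat_lit 0) (nat_lit 4) (nat_lit 8) (C.cons (nat_lit 277) (C.node (nat_lit 0) (nat_lit 4) (nat_lit 9) (C.cons (nat_lit 531) (C.node (nat_lit 0) (nat_lit 4) (nat_lit 10) (C.cons (nat_lit 1041) (C.ref (nat_lit 72) (nat_lit 205163983024656))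 C.nil)) (C.cons (nat_lit 529) (C.ref (nat_lit 74) (nat_lit 205163983024656)) C.nil))) (C.cons (nat_lit 275) (C.node (nat_lit 0) (nat_lit 4) (nat_lit 9) (C.cons (nat_lit 533) (C.node (nat_lit 0) (nat_lit 4) (nat_lit 10) (C.cons (nat_lit 1041) (C.ref (nat_lit 72) (nat_lit 205163983024416)) C.nil)) (C.cons (nat_lit 529) (C.ref (nat_lit 74) (nat_lit 205163983024416)) C.nil))) (C.cons (nat_lit 273) (C.ref (nat_lit 77) (nat_lit 205163983024656)) C.nil)))) (List.cons (C.big (C.cons (nat_lit 2063) (C.big C.nil C.nil) (C.cons (nat_lit 1101) (C.ref (nat_lit 32) (nat_lit 205163983024656)) (C.cons (nat_lit 1099) (C.ref (nat_lit 32) (nat_lit 205163983024416)) (C.cons (nat_lit 1095) (C.ref (nat_lit 32) (nat_lit 205163983020336)) (C.cons (nat_lit 1069) (C.ref (nat_lit 32) (nat_lit 205163967296016)) (C.cons (nat_lit 1067) (C.ref (nat_lit 32) (nat_lit 205163967295776)) (C.cons (nat_lit 1063) (C.ref (nat_lit 32) (nat_lit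 205163967291696)) (C.cons (nat_lit 1053) (C.ref (nat_lit 32) (nat_lit 205163950584336)) (C.cons (nat_lit 1051) (C.ref (nat_lit 32) (nat_lit 205163950584096)) (C.cons (nat_lit 1047) (C.ref (nat_lit 32) (nat_lit 205163950580016)) (C.cons (nat_lit 1039) (C.ref (nat_lit 33) (nat_lit 205163983024656)) (C.cons (nat_lit 589) (C.ref (nat_lit 32) (nat_lit 204133190873616)) (C.cons (nat_lit 587) (C.ref (nat_lit 32) (nat_lit 204133190873376)) (C.cons (nat_lit 583) (C.ref (nat_lit 32) (nat_lit 204133190869296)) (C.cons (nat_lit 557) (C.ref (nat_lit 32) (nat_lit 204133175144976)) (C.cons (nat_lit 555) (C.ref (nat_lit 32) (nat_lit 204133175144736)) (C.cons (nat_lit 551) (C.ref (nat_lit 32) (nat_lit 204133175140656)) (C.cons (nat_lit 541) (C.ref (nat_lit 32) (nat_lit 204133158433296)) (C.cons (nat_lit 539) (C.ref (nat_lit 32) (nat_lit 204133158433056)) (C.cons (nat_lit 535) (C.ref (nat_lit 32) (nat_lit 204133158428976))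 (C.cons (nat_lit 527) (C.ref (nat_lit 33) (nat_lit 204133190873616)) (C.cons (nat_lit 333) (C.ref (nat_lit 32) (nat_lit 203037974213136)) (C.cons (nat_lit 331) (C.ref (nat_lit 32) (nat_lit 203037974212896)) (C.cons (nat_lit 327) (C.ref (nat_lit 32) (nat_lit 203037974208816)) (C.cons (nat_lit 301) (C.ref (nat_lit 32) (nat_lit 203037958484496)) (C.cons (nat_lit 299) (C.ref (nat_lit 32) (nat_lit 203037958484256)) (C.cons (nat_lit 295) (C.ref (nat_lit 32) (nat_lit 203037958480176)) (C.cons (nat_lit 285) (C.ref (nat_lit 32) (nat_lit 203037941772816)) (C.cons (nat_lit 283)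
  (C.ref (nat_lit 32) (nat_lit 203037941772576)) (C.cons (nat_lit 279) (C.ref (nat_lit 32) (nat_lit 203037941768496)) (C.cons (nat_lit 271) (C.ref (nat_lit 33) (nat_lit 203037974213136)) (C.cons (nat_lit 205) (C.ref (nat_lit 32) (nat_lit 201938731020816)) (C.cons (nat_lit 203) (C.ref (nat_lit 32) (nat_lit 201938731020576)) (C.cons (nat_lit 199) (C.ref (nat_lit 32) (nat_lit 201938731016496)) (C.cons (nat_lit 173) (C.ref (nat_lit 32) (nat_lit 201938715292176)) (C.cons (nat_lit 171) (C.ref (nat_lit 32) (nat_lit 201938715291936)) (C.cons (nat_lit 167) (C.ref (nat_lit 32) (nat_lit 201938715287856)) (C.cons (nat_lit 157) (C.ref (nat_lit 32) (nat_lit 201938698580496)) (C.cons (nat_lit 155) (C.ref (nat_lit 32) (nat_lit 201938698580256)) (C.cons (nat_lit 151) (C.ref (nat_lit 32) (nat_lit 201938698576176)) (C.cons (nat_lit 143) (C.ref (nat_lit 33) (nat_lit 201938731020816)) (C.cons (nat_lit 79) (C.ref (nat_lit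 34) (nat_lit 205163983024656)) (C.cons (nat_lit 47) (C.ref (nat_lit 34) (nat_lit 205163967296016)) (C.cons (nat_lit 31) (C.ref (nat_lit 34) (nat_lit 205163950584336)) C.nil)))))))))))))))))))))))))))))))))))))))))))) (C.node (nat_lit 0) (nat_lit 1) (nat_lit 11) (C.cons (nat_lit 2059) (C.node (nat_lit 0) (nat_lit 2) (nat_lit 11) (C.cons (nat_lit 2053) (C.ref (nat_lit 69) (nat_lit 205163983024656)) C.nil)) (C.cons (nat_lit 2055) (C.node (nat_lit 0) (nat_lit 3) (nat_lit 11) (C.cons (nat_lit 2057) (C.ref (nat_lit 69) (nat_lit 205163983020816)) C.nil)) (C.cons (nat_lit 2051) (C.node (nat_lit 0) (nat_lit 2) (nat_lit 11) (C.cons (nat_lit 2061) (C.ref (nat_lit 69) (nat_lit 205163983024416)) (C.cons (nat_lit 2053) (C.node (nat_lit 0) (nat_lit 3) (nat_lit 11) (C.cons (nat_lit 2057) (C.node (nat_lit 0) (nat_lit 4) (nat_lit 7) (C.cons (nat_lit 153) (C.ref (nat_lit 78) (nat_lit 205163983024656)) (C.cons (nat_lit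 149) (C.ref (nat_lit 78) (nat_lit 205163983020816)) (C.cons (nat_lit 147) (C.ref (nat_lit 78) (nat_lit 205163983016736)) (C.cons (nat_lit 145) (C.node (nat_lit 0) (nat_lit 4) (nat_lit 8) (C.cons (nat_lit 281) (C.ref (nat_lit 77) (nat_lit 205159956492816)) (C.cons (nat_lit 277) (C.ref (nat_lit 77) (nat_lit 205159956488976)) (C.cons (nat_lit 275) (C.ref (nat_lit 77) (nat_lit 205159956484896)) (C.cons (nat_lit 273) (C.node (nat_lit 0) (nat_lit 4) (nat_lit 9) (C.cons (nat_lit 537) (C.ref (nat_lit 76) (nat_lit 205091505451536)) (C.cons (nat_lit 533) (C.ref (nat_lit 76) (nat_lit 205091505447696)) (C.cons (nat_lit 531) (C.ref (nat_lit 76) (nat_lit 205091505443616)) (C.cons (nat_lit 529) (C.node (nat_lit 0) (nat_lit 1) (nat_lit 4) (C.cons (nat_lit 1043) (C.node (nat_lit 0) (nat_lit 2) (nat_lit 4) (C.cons (nat_lit 29) (C.ref (nat_lit 75) (nat_lit 203992262251296)) C.nil)) (C.cons (nat_lit 27) (C.node (nat_lit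 0) (nat_lit 2) (nat_lit 4) (C.cons (nat_lit 1045) (C.ref (nat_lit 75) (nat_lit 203992262255376)) C.nil)) (C.cons (nat_lit 23) (C.node (nat_lit 0) (nat_lit 3) (nat_lit 4) (C.cons (nat_lit 1049) (C.ref (nat_lit 75) (nat_lit 203992262259216)) C.nil)) C.nil)))) C.nil))))) C.nil))))) C.nil))))) C.nil)) C.nil))) C.nil))))) (List.cons (C.node (nat_lit 0) (nat_lit 4) (nat_lit 7) (C.cons (nat_lit 147) (C.node (nat_lit 0) (nat_lit 5) (nat_lit 7) (C.cons (nat_lit 161) (C.node (nat_lit 0) (nat_lit 6) (nat_lit 7) (C.cons (nat_lit 193) (C.node (nat_lit 0) (nat_lit 4) (nat_lit 8) (C.cons (nat_lit 277) (C.node (nat_lit 0) (nat_lit 4) (nat_lit 9) (C.cons (nat_lit 529) (C.node (nat_lit 0) (nat_lit 4) (nat_lit 10) C.nil) C.nil)) (C.cons (nat_lit 273) (C.node (nat_lit 0) (nat_lit 4) (nat_lit 9) (C.cons (nat_lit 533) (C.node (nat_lit 0) (nat_lit 4) (nat_lit 10) C.nil) C.nil)) C.nil))) C.nil)) C.nil)) (C.cons (nat_lit 145)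 (C.node (nat_lit 0) (nat_lit 4) (nat_lit 8) (C.cons (nat_lit 277) (C.node (nat_lit 0) (nat_lit 5) (nat_lit 8) (C.cons (nat_lit 289) (C.node (nat_lit 0) (nat_lit 6) (nat_lit 8) (C.cons (nat_lit 321) (C.node (nat_lit 0) (nat_lit 4) (nat_lit 9) (C.cons (nat_lit 531) (C.node (nat_lit 0) (nat_lit 4) (nat_lit 10) C.nil) C.nil)) C.nil)) C.nil))
  (C.cons (nat_lit 273) (C.node (nat_lit 0) (nat_lit 5) (nat_lit 7) (C.cons (nat_lit 163) (C.node (nat_lit 0) (nat_lit 6) (nat_lit 7) (C.cons (nat_lit 193) (C.node (nat_lit 0) (nat_lit 5) (nat_lit 8) (C.cons (nat_lit 293) (C.node (nat_lit 0) (nat_lit 5) (nat_lit 9) C.nil) C.nil)) C.nil)) (C.cons (nat_lit 161) (C.node (nat_lit 0) (nat_lit 1) (nat_lit 7) (C.cons (nat_lit 195) (C.node (nat_lit 0) (nat_lit 6) (nat_lit 8) (C.cons (nat_lit 325) (C.node (nat_lit 0) (nat_lit 6) (nat_lit 9) C.nil) C.nil)) C.nil)) C.nil))) C.nil))) C.nil))) (List.cons (C.node (nat_lit 0) (nat_lit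 4) (nat_lit 7) (C.cons (nat_lit 147) (C.node (nat_lit 0) (nat_lit 5) (nat_lit 7) (C.cons (nat_lit 161) (C.node (nat_lit 0) (nat_lit 6) (nat_lit 7) C.nil) C.nil)) (C.cons (nat_lit 145) (C.node (nat_lit 0) (nat_lit 5) (nat_lit 7) (C.cons (nat_lit 163) (C.node (nat_lit 0) (nat_lit 6) (nat_lit 7) C.nil) C.nil)) C.nil))) (List.cons (C.node (nat_lit 0) (nat_lit 1) (nat_lit 3) (C.cons (nat_lit 2059) (C.ref (nat_lit 80) (nat_lit 186416450777616)) (C.cons (nat_lit 11) (C.node (nat_lit 0) (nat_lit 3) (nat_lit 11) (C.cons (nat_lit 2057) (C.ref (nat_lit 81) (nat_lit 205163983024656)) C.nil)) C.nil))) (List.cons (C.node (nat_lit 0) (nat_lit 3) (nat_lit 10) (C.cons (nat_lit 1035) (C.node (nat_lit 0) (nat_lit 3) (nat_lit 11) (C.cons (nat_lit 2057) (C.ref (nat_lit 80) (nat_lit 204004341854736)) C.nil)) (C.cons (nat_lit 1033) (C.ref (nat_lit 82) (nat_lit 205163983024656)) C.nil))) (List.cons (C.node (nat_lit 0) (nat_lit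 3) (nat_lit 9) (C.cons (nat_lit 523) (C.node (nat_lit 0) (nat_lit 3) (nat_lit 10) (C.cons (nat_lit 1033) (C.node (nat_lit 0) (nat_lit 3) (nat_lit 11) (C.cons (nat_lit 2057) (C.ref (nat_lit 80) (nat_lit 205099558515216)) C.nil)) C.nil)) (C.cons (nat_lit 521) (C.ref (nat_lit 83) (nat_lit 205163983024656)) C.nil))) (List.cons (C.node (nat_lit 0) (nat_lit 3) (nat_lit 8) (C.cons (nat_lit 267) (C.node (nat_lit 0) (nat_lit 3) (nat_lit 9) (C.cons (nat_lit 521) (C.node (nat_lit 0) (nat_lit 3) (nat_lit 10) (C.cons (nat_lit 1033) (C.node (nat_lit 0) (nat_lit 3) (nat_lit 11) (C.cons (nat_lit 2057) (C.ref (nat_lit 80) (nat_lit 205163983024656)) C.nil)) C.nil)) C.nil)) (C.cons (nat_lit 265) (C.ref (nat_lit 84) (nat_lit 205163983024656)) C.nil))) (List.cons (C.big (C.cons (nat_lit 2119) (C.ref (nat_lit 34) (nat_lit 205163979691056)) (C.cons (nat_lit 2087) (C.ref (nat_lit 34) (nat_lit 205163962917936)) (C.cons (nat_lit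 2071) (C.ref (nat_lit 34) (nat_lit 205163946140976)) (C.cons (nat_lit 2063) (C.ref (nat_lit 34) (nat_lit 205163929363776)) (C.cons (nat_lit 1095) (C.ref (nat_lit 34) (nat_lit 188671305274416)) (C.cons (nat_lit 1063) (C.ref (nat_lit 34) (nat_lit 188671288501296)) (C.cons (nat_lit 1047) (C.ref (nat_lit 34) (nat_lit 188671271724336)) (C.cons (nat_lit 1039) (C.ref (nat_lit 34) (nat_lit 188671254947136)) (C.cons (nat_lit 583) (C.ref (nat_lit 34) (nat_lit 171147838706736)) (C.cons (nat_lit 551) (C.ref (nat_lit 34) (nat_lit 171147821933616)) (C.cons (nat_lit 535) (C.ref (nat_lit 34) (nat_lit 171147805156656)) (C.cons (nat_lit 527) (C.ref (nat_lit 34) (nat_lit 171147788379456)) (C.cons (nat_lit 327) (C.ref (nat_lit 34) (nat_lit 153559947629616)) (C.cons (nat_lit 295) (C.ref (nat_lit 34) (nat_lit 153559930856496)) (C.cons (nat_lit 279) (C.ref (nat_lit 34) (nat_lit 153559914079536)) (C.cons (nat_lit 271) (C.ref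 (nat_lit 34) (nat_lit 153559897302336)) (C.cons (nat_lit 199) (C.ref (nat_lit 34) (nat_lit 135968030020656)) (C.cons (nat_lit 167) (C.ref (nat_lit 34) (nat_lit 135968013247536)) (C.cons (nat_lit 151) (C.ref (nat_lit 34) (nat_lit 135967996470576)) (C.cons (nat_lit 143) (C.ref (nat_lit 34) (nat_lit 135967979693376)) C.nil)))))))))))))))))))) (C.node (nat_lit 0) (nat_lit 3) (nat_lit 7) (C.cons (nat_lit 141) (C.ref (nat_lit 85) (nat_lit 205163983024656)) (C.cons (nat_lit 139) (C.ref (nat_lit 85) (nat_lit 205163983024416)) (C.cons (nat_lit 137) (C.node (nat_lit 0) (nat_lit 3) (nat_lit 8) (C.cons (nat_lit 269) (C.ref (nat_lit 84) (nat_lit 205159956492816))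
  (C.cons (nat_lit 267) (C.ref (nat_lit 84) (nat_lit 205159956492576)) (C.cons (nat_lit 265) (C.node (nat_lit 0) (nat_lit 3) (nat_lit 9) (C.cons (nat_lit 525) (C.ref (nat_lit 83) (nat_lit 205091505451536)) (C.cons (nat_lit 523) (C.ref (nat_lit 83) (nat_lit 205091505451296)) (C.cons (nat_lit 521) (C.node (nat_lit 0) (nat_lit 3) (nat_lit 10) (C.cons (nat_lit 1037) (C.ref (nat_lit 82) (nat_lit 203992262259216)) (C.cons (nat_lit 1035) (C.ref (nat_lit 82) (nat_lit 203992262258976)) (C.cons (nat_lit 1033) (C.node (nat_lit 0) (nat_lit 1) (nat_lit 3) (C.cons (nat_lit 2059) (C.node (nat_lit 0) (nat_lit 2) (nat_lit 3) (C.cons (nat_lit 13) (C.ref (nat_lit 81) (nat_lit 186400344650016)) C.nil)) (C.cons (nat_lit 15) (C.node (nat_lit 0) (nat_lit 3) (nat_lit 11) (C.cons (nat_lit 2057) (C.node (nat_lit 0) (nat_lit 4) (nat_lit 7) (C.cons (nat_lit 149) (C.node (nat_lit 0) (nat_lit 4) (nat_lit 8) (C.cons (nat_lit 275)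 (C.node (nat_lit 0) (nat_lit 4) (nat_lit 9) (C.cons (nat_lit 529) (C.node (nat_lit 0) (nat_lit 4) (nat_lit 10) C.nil) C.nil)) (C.cons (nat_lit 273) (C.node (nat_lit 0) (nat_lit 4) (nat_lit 9) (C.cons (nat_lit 531) (C.node (nat_lit 0) (nat_lit 4) (nat_lit 10) C.nil) C.nil)) C.nil))) (C.cons (nat_lit 147) (C.node (nat_lit 0) (nat_lit 4) (nat_lit 8) (C.cons (nat_lit 277) (C.node (nat_lit 0) (nat_lit 4) (nat_lit 9) (C.cons (nat_lit 529) (C.node (nat_lit 0) (nat_lit 4) (nat_lit 10) C.nil) C.nil)) (C.cons (nat_lit 273) (C.node (nat_lit 0) (nat_lit 4) (nat_lit 9) (C.cons (nat_lit 533) (C.node (nat_lit 0) (nat_lit 4) (nat_lit 10) C.nil) C.nil)) C.nil))) (C.cons (nat_lit 145) (C.node (nat_lit 0) (nat_lit 1) (nat_lit 7) (C.cons (nat_lit 195) (C.node (nat_lit 0) (nat_lit 2) (nat_lit 7) (C.cons (nat_lit 165) (C.node (nat_lit 0) (nat_lit 5) (nat_lit 8) (C.cons (nat_lit 291) (C.node (nat_lit 0) (nat_lit 5) (nat_lit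 9) C.nil) C.nil)) C.nil)) (C.cons (nat_lit 163) (C.node (nat_lit 0) (nat_lit 2) (nat_lit 7) (C.cons (nat_lit 197) (C.node (nat_lit 0) (nat_lit 6) (nat_lit 8) (C.cons (nat_lit 323) (C.node (nat_lit 0) (nat_lit 6) (nat_lit 9) C.nil) C.nil)) C.nil)) C.nil))) C.nil)))) C.nil)) (C.cons (nat_lit 11) (C.node (nat_lit 0) (nat_lit 2) (nat_lit 3) (C.cons (nat_lit 2061) (C.ref (nat_lit 81) (nat_lit 186400344650256)) (C.cons (nat_lit 13) (C.node (nat_lit 0) (nat_lit 3) (nat_lit 11) C.nil) C.nil))) C.nil)))) C.nil)))) C.nil)))) C.nil)))) C.nil))))) (List.cons (C.node (nat_lit 0) (nat_lit 5) (nat_lit 11) (C.cons (nat_lit 2145) (C.pat (nat_lit 3) (nat_lit 5742148487) (nat_lit 46096370232550823781084712082480431527802507137)) (C.cons (nat_lit 2081) (C.node (nat_lit 0) (nat_lit 6) (nat_lit 11) (C.cons (nat_lit 2113) (C.node (nat_lit 0) (nat_lit 4) (nat_lit 5) (C.cons (nat_lit 1073) (C.node (nat_lit 0) (nat_lit 4) (nat_lit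 6) C.nil) (C.cons (nat_lit 113) (C.pat (nat_lit 2) (nat_lit 47599485812) (nat_lit 45961892001774968593940672043562876083923124515)) C.nil))) C.nil)) C.nil))) (List.cons (C.node (nat_lit 0) (nat_lit 3) (nat_lit 5) (C.cons (nat_lit 1065) (C.node (nat_lit 0) (nat_lit 5) (nat_lit 11) (C.cons (nat_lit 2145) (C.pat (nat_lit 3) (nat_lit 5742148487) (nat_lit 46096370232550823781084712082480431527802507137)) (C.cons (nat_lit 2081) (C.node (nat_lit 0) (nat_lit 6) (nat_lit 11) (C.cons (nat_lit 2113) (C.ref (nat_lit 87) (nat_lit 186609691861296)) C.nil)) C.nil))) (C.cons (nat_lit 41) (C.node (nat_lit 0) (nat_lit 3) (nat_lit 10) (C.cons (nat_lit 1033) (C.node (nat_lit 0) (nat_lit 5) (nat_lit 11) (C.cons (nat_lit 2145) (C.pat (nat_lit 3) (nat_lit 5742148487) (nat_lit 46096370232550823781084712082480431527802507137)) (C.cons (nat_lit 2081) (C.node (nat_lit 0) (nat_lit 6) (nat_lit 11) (C.cons (nat_lit 2113) (C.node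 (nat_lit 0) (nat_lit 4) (nat_lit 9) (C.cons (nat_lit 593) (C.node (nat_lit 0) (nat_lit 5) (nat_lit 9) C.nil) (C.cons (nat_lit 561) (C.node (nat_lit 0) (nat_lit 6) (nat_lit 9) C.nil) C.nil))) C.nil)) C.nil))) C.nil)) C.nil))) (List.cons (C.node (nat_lit 0) (nat_lit 4) (nat_lit 5) (C.cons (nat_lit 1073)
  (C.node (nat_lit 0) (nat_lit 4) (nat_lit 6) C.nil) (C.cons (nat_lit 113) (C.pat (nat_lit 1) (nat_lit 947280705) (nat_lit 1510984452134881102985739925225279361)) C.nil))) List.nil)))))))))))))))))))))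

theorem ok12_69 : okL par12 (nat_lit 90) c12_69 (nat_lit 69) = true := by decide +kernel

noncomputable def c12_90 : List C :=
  (List.cons (C.node (nat_lit 0) (nat_lit 4) (nat_lit 9) (C.cons (nat_lit 561) (C.pat (nat_lit 3) (nat_lit 9754057095) (nat_lit 12956923860192426988222143287340903552245763969)) (C.cons (nat_lit 529) (C.node (nat_lit 0) (nat_lit 5) (nat_lit 9) (C.cons (nat_lit 545) (C.ref (nat_lit 89) (nat_lit 205163983024656)) C.nil)) C.nil))) (List.cons (C.qs (C.cons (nat_lit 4418) (C.pat (nat_lit 5) (nat_lit 502927018850) (nat_lit 88512361057632979788972153384035555163908407393)) (C.cons (nat_lit 4617) (C.pat (nat_lit 5) (nat_lit 490847410997) (nat_lit 88512361057414903320896765920424967720653225997)) C.nil))) (List.cons (C.node (nat_lit 0) (nat_lit 4) (nat_lit 5) (C.cons (nat_lit 1073) (C.node (nat_lit 0) (nat_lit 5) (nat_lit 6) (C.cons (nat_lit 97) (C.node (nat_lit 0) (nat_lit 6) (nat_lit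 10) (C.cons (nat_lit 1089) (C.ref (nat_lit 91) (nat_lit 205163983024656)) C.nil)) C.nil)) (C.cons (nat_lit 49) (C.node (nat_lit 0) (nat_lit 4) (nat_lit 10) (C.cons (nat_lit 1041) (C.node (nat_lit 0) (nat_lit 5) (nat_lit 6) (C.cons (nat_lit 1121) (C.pat (nat_lit 6) (nat_lit 245926364695) (nat_lit 5800706488139353839772116422889301070034336154322017)) C.nil)) C.nil)) C.nil))) (List.cons (C.node (nat_lit 0) (nat_lit 4) (nat_lit 9) (C.cons (nat_lit 593) (C.node (nat_lit 0) (nat_lit 5) (nat_lit 9) (C.cons (nat_lit 545) (C.ref (nat_lit 92) (nat_lit 205163983024656)) C.nil)) (C.cons (nat_lit 561) (C.node (nat_lit 0) (nat_lit 6) (nat_lit 9) (C.cons (nat_lit 577) (C.ref (nat_lit 92) (nat_lit 152384171225616)) C.nil)) (C.cons (nat_lit 529) (C.node (nat_lit 0) (nat_lit 5) (nat_lit 9) (C.cons (nat_lit 609) (C.ref (nat_lit 92) (nat_lit 134808374489616)) (C.cons (nat_lit 545) (C.node (nat_lit 0) (nat_lit 6) (nat_lit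 9) (C.cons (nat_lit 577) (C.node (nat_lit 0) (nat_lit 4) (nat_lit 5) (C.cons (nat_lit 1073) (C.node (nat_lit 0) (nat_lit 4) (nat_lit 6) C.nil) (C.cons (nat_lit 113) (C.pat (nat_lit 1) (nat_lit 947280705) (nat_lit 1510984452134881102985739925225279361)) C.nil))) C.nil)) C.nil))) C.nil)))) (List.cons (C.node (nat_lit 0) (nat_lit 4) (nat_lit 9) (C.cons (nat_lit 593) (C.node (nat_lit 0) (nat_lit 5) (nat_lit 9) C.nil) (C.cons (nat_lit 561) (C.node (nat_lit 0) (nat_lit 6) (nat_lit 9) C.nil) C.nil))) (List.cons (C.node (nat_lit 0) (nat_lit 3) (nat_lit 10) (C.cons (nat_lit 1065) (C.node (nat_lit 0) (nat_lit 3) (nat_lit 11) (C.cons (nat_lit 2057) (C.node (nat_lit 0) (nat_lit 4) (nat_lit 10) C.nil) C.nil)) (C.cons (nat_lit 1033) (C.node (nat_lit 0) (nat_lit 3) (nat_lit 5) (C.cons (nat_lit 2089) (C.node (nat_lit 0) (nat_lit 6) (nat_lit 11) C.nil) C.nil)) C.nil))) (List.cons (C.node (nat_lit 0) (nat_lit 2) (nat_lit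 9) (C.cons (nat_lit 581) (C.node (nat_lit 0) (nat_lit 2) (nat_lit 10) (C.cons (nat_lit 1037) (C.node (nat_lit 0) (nat_lit 2) (nat_lit 11) (C.cons (nat_lit 2053) (C.node (nat_lit 0) (nat_lit 3) (nat_lit 5) (C.cons (nat_lit 2089) (C.node (nat_lit 0) (nat_lit 6) (nat_lit 11) (C.cons (nat_lit 2113) (C.ref (nat_lit 90) (nat_lit 205159955501616)) C.nil)) (C.cons (nat_lit 41) (C.node (nat_lit 0) (nat_lit 3) (nat_lit 11) (C.cons (nat_lit 2057) (C.node (nat_lit 0) (nat_lit 4) (nat_lit 9) (C.cons (nat_lit 561) (C.pat (nat_lit 3) (nat_lit 9754057095) (nat_lit 12956923860192426988222143287340903552245763969)) (C.cons (nat_lit 529) (C.node (nat_lit 0) (nat_lit 5) (nat_lit 9) C.nil) C.nil))) C.nil)) C.nil))) C.nil)) (C.cons (nat_lit 1029) (C.node (nat_lit 0) (nat_lit 2) (nat_lit 3) (C.cons (nat_lit 2061) (C.node (nat_lit 0) (nat_lit 3) (nat_lit 5) (C.cons (nat_lit 1065) (C.node (nat_lit 0) (nat_lit 5) (nat_lit 11)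 (C.cons (nat_lit 2145) (C.pat (nat_lit 3) (nat_lit 5742148487) (nat_lit 46096370232550823781084712082480431527802507137)) (C.cons (nat_lit 2081) (C.node (nat_lit 0) (nat_lit 6) (nat_lit 11) (C.cons (nat_lit 2113) (C.node (nat_lit 0) (nat_lit 5) (nat_lit 6) (C.cons (nat_lit 113) (C.pat (nat_lit 2) (nat_lit 39262191990) (nat_lit 11663341802890698245195164357871442798938620181)) (C.cons (nat_lit 97) (C.node (nat_lit 0) (nat_lit 5) (nat_lit 4)
  (C.cons (nat_lit 561) (C.pat (nat_lit 3) (nat_lit 9754057095) (nat_lit 12956923860192426988222143287340903552245763969)) C.nil)) C.nil))) C.nil)) C.nil))) (C.cons (nat_lit 41) (C.node (nat_lit 0) (nat_lit 3) (nat_lit 10) (C.cons (nat_lit 1033) (C.node (nat_lit 0) (nat_lit 4) (nat_lit 9) (C.cons (nat_lit 561) (C.pat (nat_lit 3) (nat_lit 9754057095) (nat_lit 12956923860192426988222143287340903552245763969)) (C.cons (nat_lit 529) (C.node (nat_lit 0) (nat_lit 5) (nat_lit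 9) C.nil) C.nil))) C.nil)) C.nil))) (C.cons (nat_lit 13) (C.node (nat_lit 0) (nat_lit 2) (nat_lit 11) (C.cons (nat_lit 2053) (C.node (nat_lit 0) (nat_lit 3) (nat_lit 10) (C.cons (nat_lit 1065) (C.node (nat_lit 0) (nat_lit 3) (nat_lit 11) (C.cons (nat_lit 2057) (C.node (nat_lit 0) (nat_lit 4) (nat_lit 9) (C.cons (nat_lit 561) (C.pat (nat_lit 3) (nat_lit 9754057095) (nat_lit 12956923860192426988222143287340903552245763969)) C.nil)) C.nil)) (C.cons (nat_lit 1033) (C.node (nat_lit 0) (nat_lit 3) (nat_lit 5) (C.cons (nat_lit 2089) (C.node (nat_lit 0) (nat_lit 6) (nat_lit 11) C.nil) C.nil)) C.nil))) C.nil)) C.nil))) C.nil))) (C.cons (nat_lit 517) (C.node (nat_lit 0) (nat_lit 2) (nat_lit 3) (C.cons (nat_lit 2061) (C.node (nat_lit 0) (nat_lit 2) (nat_lit 6) (C.cons (nat_lit 1093) (C.node (nat_lit 0) (nat_lit 3) (nat_lit 5) (C.cons (nat_lit 1065) (C.node (nat_lit 0) (nat_lit 4) (nat_lit 10) (C.cons (nat_lit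 1041) (C.ref (nat_lit 90) (nat_lit 186609691861296)) C.nil)) (C.cons (nat_lit 41) (C.node (nat_lit 0) (nat_lit 3) (nat_lit 10) (C.cons (nat_lit 1033) (C.node (nat_lit 0) (nat_lit 6) (nat_lit 11) (C.cons (nat_lit 2145) (C.pat (nat_lit 3) (nat_lit 5993868152) (nat_lit 46096370232052353458373213836124636494528057217)) (C.cons (nat_lit 2113) (C.node (nat_lit 0) (nat_lit 5) (nat_lit 11) C.nil) C.nil))) C.nil)) C.nil))) (C.cons (nat_lit 69) (C.node (nat_lit 0) (nat_lit 2) (nat_lit 10) (C.cons (nat_lit 1029) (C.node (nat_lit 0) (nat_lit 3) (nat_lit 5) (C.cons (nat_lit 1065) (C.node (nat_lit 0) (nat_lit 5) (nat_lit 11) (C.cons (nat_lit 2145) (C.pat (nat_lit 3) (nat_lit 5742148487) (nat_lit 46096370232550823781084712082480431527802507137)) (C.cons (nat_lit 2081) (C.node (nat_lit 0) (nat_lit 6) (nat_lit 11) C.nil) C.nil))) (C.cons (nat_lit 41) (C.node (nat_lit 0) (nat_lit 3) (nat_lit 10) C.nil) C.nil))) C.nil))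 C.nil))) (C.cons (nat_lit 1037) (C.node (nat_lit 0) (nat_lit 2) (nat_lit 6) (C.cons (nat_lit 2117) (C.node (nat_lit 0) (nat_lit 3) (nat_lit 5) (C.cons (nat_lit 2089) (C.ref (nat_lit 93) (nat_lit 204133158428976)) (C.cons (nat_lit 41) (C.node (nat_lit 0) (nat_lit 3) (nat_lit 11) (C.cons (nat_lit 2057) (C.node (nat_lit 0) (nat_lit 5) (nat_lit 11) (C.cons (nat_lit 2081) (C.node (nat_lit 0) (nat_lit 4) (nat_lit 9) (C.cons (nat_lit 593) (C.node (nat_lit 0) (nat_lit 5) (nat_lit 9) C.nil) (C.cons (nat_lit 561) (C.node (nat_lit 0) (nat_lit 6) (nat_lit 9) C.nil) C.nil))) C.nil)) C.nil)) C.nil))) (C.cons (nat_lit 69) (C.node (nat_lit 0) (nat_lit 2) (nat_lit 11) (C.cons (nat_lit 2053) (C.node (nat_lit 0) (nat_lit 3) (nat_lit 5) (C.cons (nat_lit 2089) (C.node (nat_lit 0) (nat_lit 6) (nat_lit 11) (C.cons (nat_lit 2113) (C.ref (nat_lit 94) (nat_lit 204133158428976)) C.nil)) (C.cons (nat_lit 41) (C.node (nat_lit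 0) (nat_lit 3) (nat_lit 11) C.nil) C.nil))) C.nil)) C.nil))) (C.cons (nat_lit 13) (C.node (nat_lit 0) (nat_lit 2) (nat_lit 10) (C.cons (nat_lit 1093) (C.node (nat_lit 0) (nat_lit 2) (nat_lit 11) (C.cons (nat_lit 2053) (C.ref (nat_lit 95) (nat_lit 205163983024656)) C.nil)) (C.cons (nat_lit 1029) (C.node (nat_lit 0) (nat_lit 2) (nat_lit 6) (C.cons (nat_lit 2117) (C.node (nat_lit 0) (nat_lit 3) (nat_lit 10) (C.cons (nat_lit 1065) (C.node (nat_lit 0) (nat_lit 3) (nat_lit 11) (C.cons (nat_lit 2057) (C.node (nat_lit 0) (nat_lit 5) (nat_lit 11) C.nil) C.nil)) (C.cons (nat_lit 1033) (C.node (nat_lit 0) (nat_lit 3) (nat_lit 5) (C.cons (nat_lit 2089) (C.node (nat_lit 0) (nat_lit 4) (nat_lit 9) (C.cons (nat_lit 593) (C.node (nat_lit 0) (nat_lit 5) (nat_lit 9) C.nil)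
  (C.cons (nat_lit 561) (C.node (nat_lit 0) (nat_lit 6) (nat_lit 9) C.nil) C.nil))) C.nil)) C.nil))) (C.cons (nat_lit 69) (C.node (nat_lit 0) (nat_lit 2) (nat_lit 11) C.nil) C.nil))) C.nil))) C.nil)))) C.nil))) (List.cons (C.node (nat_lit 0) (nat_lit 1) (nat_lit 2) (C.cons (nat_lit 1031) (C.node (nat_lit 0) (nat_lit 2) (nat_lit 3) (C.cons (nat_lit 2061) (C.node (nat_lit 0) (nat_lit 2) (nat_lit 6) (C.cons (nat_lit 581) (C.node (nat_lit 0) (nat_lit 3) (nat_lit 5) (C.cons (nat_lit 1065) (C.node (nat_lit 0) (nat_lit 4) (nat_lit 9) (C.cons (nat_lit 561) (C.pat (nat_lit 3) (nat_lit 9754057095) (nat_lit 12956923860192426988222143287340903552245763969)) (C.cons (nat_lit 529) (C.node (nat_lit 0) (nat_lit 5) (nat_lit 9) (C.cons (nat_lit 545) (C.node (nat_lit 0) (nat_lit 4) (nat_lit 5) (C.cons (nat_lit 113) (C.pat (nat_lit 2) (nat_lit 47599485812) (nat_lit 45961892001774968593940672043562876083923124515)) (C.cons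 (nat_lit 49) (C.node (nat_lit 0) (nat_lit 4) (nat_lit 6) (C.cons (nat_lit 1105) (C.pat (nat_lit 3) (nat_lit 14567942791) (nat_lit 23750669650158850005837324559834347726979796865)) (C.cons (nat_lit 81) (C.node (nat_lit 0) (nat_lit 4) (nat_lit 10) (C.cons (nat_lit 1041) (C.node (nat_lit 0) (nat_lit 6) (nat_lit 10) (C.cons (nat_lit 1089) (C.node (nat_lit 0) (nat_lit 5) (nat_lit 6) (C.cons (nat_lit 2145) (C.pat (nat_lit 3) (nat_lit 5742148487) (nat_lit 46096370232550823781084712082480431527802507137)) C.nil)) C.nil)) C.nil)) C.nil))) C.nil))) C.nil)) C.nil))) (C.cons (nat_lit 41) (C.node (nat_lit 0) (nat_lit 3) (nat_lit 10) (C.cons (nat_lit 1033) (C.node (nat_lit 0) (nat_lit 4) (nat_lit 9) (C.cons (nat_lit 561) (C.pat (nat_lit 3) (nat_lit 9754057095) (nat_lit 12956923860192426988222143287340903552245763969)) (C.cons (nat_lit 529) (C.node (nat_lit 0) (nat_lit 5) (nat_lit 9) (C.cons (nat_lit 545) (C.ref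 (nat_lit 87) (nat_lit 205163983024656)) C.nil)) C.nil))) C.nil)) C.nil))) (C.cons (nat_lit 69) (C.node (nat_lit 0) (nat_lit 2) (nat_lit 9) (C.cons (nat_lit 517) (C.ref (nat_lit 88) (nat_lit 205163983024656)) C.nil)) C.nil))) (C.cons (nat_lit 13) (C.node (nat_lit 0) (nat_lit 2) (nat_lit 9) (C.cons (nat_lit 581) (C.node (nat_lit 0) (nat_lit 2) (nat_lit 11) (C.cons (nat_lit 2053) (C.node (nat_lit 0) (nat_lit 3) (nat_lit 10) (C.cons (nat_lit 1065) (C.node (nat_lit 0) (nat_lit 3) (nat_lit 11) (C.cons (nat_lit 2057) (C.node (nat_lit 0) (nat_lit 4) (nat_lit 9) (C.cons (nat_lit 561) (C.pat (nat_lit 3) (nat_lit 9754057095) (nat_lit 12956923860192426988222143287340903552245763969)) (C.cons (nat_lit 529) (C.node (nat_lit 0) (nat_lit 5) (nat_lit 9) (C.cons (nat_lit 545) (C.node (nat_lit 0) (nat_lit 4) (nat_lit 5) (C.cons (nat_lit 113) (C.pat (nat_lit 2) (nat_lit 43856986741) (nat_lit 22992134655541357918191440737317483326057283913))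 (C.cons (nat_lit 49) (C.node (nat_lit 0) (nat_lit 4) (nat_lit 6) (C.cons (nat_lit 1105) (C.pat (nat_lit 3) (nat_lit 14567942791) (nat_lit 23750669650158850005837324559834347726979796865)) C.nil)) C.nil))) C.nil)) C.nil))) C.nil)) (C.cons (nat_lit 1033) (C.node (nat_lit 0) (nat_lit 3) (nat_lit 5) (C.cons (nat_lit 2089) (C.node (nat_lit 0) (nat_lit 6) (nat_lit 11) (C.cons (nat_lit 2113) (C.ref (nat_lit 90) (nat_lit 205163983024656)) C.nil)) (C.cons (nat_lit 41) (C.node (nat_lit 0) (nat_lit 3) (nat_lit 11) (C.cons (nat_lit 2057) (C.node (nat_lit 0) (nat_lit 4) (nat_lit 9) (C.cons (nat_lit 561) (C.pat (nat_lit 3) (nat_lit 9754057095) (nat_lit 12956923860192426988222143287340903552245763969)) (C.cons (nat_lit 529) (C.node (nat_lit 0) (nat_lit 5) (nat_lit 9) C.nil) C.nil))) C.nil)) C.nil))) C.nil))) C.nil)) (C.cons (nat_lit 517) (C.node (nat_lit 0) (nat_lit 2) (nat_lit 6) (C.cons (nat_lit 2117) (C.node (nat_lit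 0) (nat_lit 3) (nat_lit 10) (C.cons (nat_lit 1065) (C.node (nat_lit 0) (nat_lit 3) (nat_lit 11) (C.cons (nat_lit 2057) (C.node (nat_lit 0) (nat_lit 5) (nat_lit 11) (C.cons (nat_lit 2081) (C.ref (nat_lit 90) (nat_lit 204129148609296)) C.nil)) C.nil)) (C.cons (nat_lit 1033) (C.node (nat_lit 0) (nat_lit 3) (nat_lit 5)
  (C.cons (nat_lit 2089) (C.ref (nat_lit 93) (nat_lit 205163983024656)) (C.cons (nat_lit 41) (C.node (nat_lit 0) (nat_lit 3) (nat_lit 11) (C.cons (nat_lit 2057) (C.node (nat_lit 0) (nat_lit 5) (nat_lit 11) (C.cons (nat_lit 2081) (C.ref (nat_lit 94) (nat_lit 205163983024656)) C.nil)) C.nil)) C.nil))) C.nil))) (C.cons (nat_lit 69) (C.node (nat_lit 0) (nat_lit 2) (nat_lit 11) (C.cons (nat_lit 2053) (C.node (nat_lit 0) (nat_lit 3) (nat_lit 10) (C.cons (nat_lit 1065) (C.node (nat_lit 0) (nat_lit 3) (nat_lit 11) (C.cons (nat_lit 2057) (C.node (nat_lit 0) (nat_lit 4) (nat_lit 10) (C.cons (nat_lit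 1105) (C.pat (nat_lit 3) (nat_lit 14064687736) (nat_lit 23750669649244995775986716587322969490412736385)) (C.cons (nat_lit 1041) (C.node (nat_lit 0) (nat_lit 6) (nat_lit 10) C.nil) C.nil))) C.nil)) (C.cons (nat_lit 1033) (C.node (nat_lit 0) (nat_lit 3) (nat_lit 5) (C.cons (nat_lit 2089) (C.node (nat_lit 0) (nat_lit 6) (nat_lit 11) (C.cons (nat_lit 2113) (C.ref (nat_lit 94) (nat_lit 204129148609296)) C.nil)) (C.cons (nat_lit 41) (C.node (nat_lit 0) (nat_lit 3) (nat_lit 11) C.nil) C.nil))) C.nil))) C.nil)) C.nil))) C.nil))) C.nil))) (C.cons (nat_lit 7) (C.node (nat_lit 0) (nat_lit 1) (nat_lit 10) (C.cons (nat_lit 1027) (C.ref (nat_lit 96) (nat_lit 205163983024656)) C.nil)) C.nil))) (List.cons (C.node (nat_lit 0) (nat_lit 2) (nat_lit 11) (C.cons (nat_lit 2053) (C.node (nat_lit 0) (nat_lit 3) (nat_lit 9) (C.cons (nat_lit 553) (C.pat (nat_lit 1) (nat_lit 2556908321) (nat_lit 1511272842646404691096145684095893833))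 (C.cons (nat_lit 521) (C.node (nat_lit 0) (nat_lit 3) (nat_lit 10) (C.cons (nat_lit 1065) (C.node (nat_lit 0) (nat_lit 3) (nat_lit 11) (C.cons (nat_lit 2057) (C.node (nat_lit 0) (nat_lit 4) (nat_lit 9) (C.cons (nat_lit 561) (C.pat (nat_lit 2) (nat_lit 40319944050) (nat_lit 12510770120590630830329566481060410654984569161)) C.nil)) C.nil)) (C.cons (nat_lit 1033) (C.node (nat_lit 0) (nat_lit 3) (nat_lit 5) (C.cons (nat_lit 2089) (C.pat (nat_lit 1) (nat_lit 2069381921) (nat_lit 10732792063520308059234588491437639721)) C.nil)) C.nil))) C.nil))) C.nil)) (List.cons (C.node (nat_lit 0) (nat_lit 1) (nat_lit 9) (C.cons (nat_lit 523) (C.ref (nat_lit 97) (nat_lit 205163983024656)) (C.cons (nat_lit 519) (C.ref (nat_lit 97) (nat_lit 205159940760336)) (C.cons (nat_lit 515) (C.node (nat_lit 0) (nat_lit 1) (nat_lit 2) (C.cons (nat_lit 1031) (C.node (nat_lit 0) (nat_lit 1) (nat_lit 3) (C.cons (nat_lit 11) (C.ref (nat_lit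 96) (nat_lit 204129148609296)) C.nil)) (C.cons (nat_lit 15) (C.node (nat_lit 0) (nat_lit 1) (nat_lit 10) (C.cons (nat_lit 1027) (C.node (nat_lit 0) (nat_lit 2) (nat_lit 9) (C.cons (nat_lit 581) (C.node (nat_lit 0) (nat_lit 2) (nat_lit 10) (C.cons (nat_lit 1029) (C.ref (nat_lit 98) (nat_lit 205163983024656)) C.nil)) (C.cons (nat_lit 517) (C.node (nat_lit 0) (nat_lit 2) (nat_lit 10) (C.cons (nat_lit 1093) (C.ref (nat_lit 98) (nat_lit 204133190873616)) (C.cons (nat_lit 1029) (C.node (nat_lit 0) (nat_lit 2) (nat_lit 6) (C.cons (nat_lit 2117) (C.pat (nat_lit 1) (nat_lit 2269864737) (nat_lit 1012812346490166240919562947809050777)) (C.cons (nat_lit 69) (C.node (nat_lit 0) (nat_lit 2) (nat_lit 11) (C.cons (nat_lit 2053) (C.node (nat_lit 0) (nat_lit 3) (nat_lit 9) (C.cons (nat_lit 553) (C.node (nat_lit 0) (nat_lit 3) (nat_lit 10) C.nil) C.nil)) C.nil)) C.nil))) C.nil))) C.nil))) C.nil)) (C.cons (nat_lit 7)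 (C.node (nat_lit 0) (nat_lit 1) (nat_lit 3) (C.cons (nat_lit 1035) (C.ref (nat_lit 96) (nat_lit 204133190873616)) (C.cons (nat_lit 11) (C.node (nat_lit 0) (nat_lit 1) (nat_lit 10) (C.cons (nat_lit 1027) (C.node (nat_lit 0) (nat_lit 2) (nat_lit 9) (C.cons (nat_lit 581) (C.node (nat_lit 0) (nat_lit 2) (nat_lit 10) (C.cons (nat_lit 1037) (C.node (nat_lit 0) (nat_lit 2) (nat_lit 11) (C.cons (nat_lit 2053) (C.ref (nat_lit 95) (nat_lit 171143782084896)) C.nil)) (C.cons (nat_lit 1029) (C.node (nat_lit 0) (nat_lit 2) (nat_lit 3) (C.cons (nat_lit 2061) (C.node (nat_lit 0) (nat_lit 3) (nat_lit 10) (C.cons (nat_lit 1065)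
  (C.node (nat_lit 0) (nat_lit 3) (nat_lit 9) (C.cons (nat_lit 521) (C.node (nat_lit 0) (nat_lit 6) (nat_lit 11) (C.cons (nat_lit 2145) (C.pat (nat_lit 3) (nat_lit 5993868152) (nat_lit 46096370232052353458373213836124636494528057217)) C.nil)) C.nil)) (C.cons (nat_lit 1033) (C.node (nat_lit 0) (nat_lit 3) (nat_lit 5) (C.cons (nat_lit 553) (C.node (nat_lit 0) (nat_lit 4) (nat_lit 9) C.nil) C.nil)) C.nil))) (C.cons (nat_lit 13) (C.node (nat_lit 0) (nat_lit 2) (nat_lit 11) C.nil) C.nil))) C.nil))) (C.cons (nat_lit 525) (C.node (nat_lit 0) (nat_lit 2) (nat_lit 10) (C.cons (nat_lit 1093) (C.node (nat_lit 0) (nat_lit 2) (nat_lit 11) (C.cons (nat_lit 2053) (C.ref (nat_lit 95) (nat_lit 188667248652576)) C.nil)) (C.cons (nat_lit 1029) (C.node (nat_lit 0) (nat_lit 2) (nat_lit 6) (C.cons (nat_lit 2117) (C.node (nat_lit 0) (nat_lit 3) (nat_lit 10) (C.cons (nat_lit 1065) (C.node (nat_lit 0) (nat_lit 3) (nat_lit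 11) (C.cons (nat_lit 2057) (C.node (nat_lit 0) (nat_lit 5) (nat_lit 11) C.nil) C.nil)) (C.cons (nat_lit 1033) (C.node (nat_lit 0) (nat_lit 3) (nat_lit 5) (C.cons (nat_lit 2089) (C.node (nat_lit 0) (nat_lit 6) (nat_lit 9) (C.cons (nat_lit 593) (C.node (nat_lit 0) (nat_lit 5) (nat_lit 9) C.nil) (C.cons (nat_lit 609) (C.node (nat_lit 0) (nat_lit 4) (nat_lit 9) C.nil) C.nil))) C.nil)) C.nil))) (C.cons (nat_lit 69) (C.node (nat_lit 0) (nat_lit 2) (nat_lit 11) C.nil) C.nil))) C.nil))) (C.cons (nat_lit 517) (C.node (nat_lit 0) (nat_lit 3) (nat_lit 9) (C.cons (nat_lit 553) (C.node (nat_lit 0) (nat_lit 3) (nat_lit 10) (C.cons (nat_lit 1037) (C.node (nat_lit 0) (nat_lit 3) (nat_lit 11) (C.cons (nat_lit 2057) (C.node (nat_lit 0) (nat_lit 2) (nat_lit 6) (C.cons (nat_lit 2117) (C.node (nat_lit 0) (nat_lit 5) (nat_lit 11) C.nil) C.nil)) C.nil)) (C.cons (nat_lit 1033) (C.node (nat_lit 0) (nat_lit 2) (nat_lit 3) (C.cons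 (nat_lit 2061) (C.node (nat_lit 0) (nat_lit 2) (nat_lit 6) (C.cons (nat_lit 1093) (C.node (nat_lit 0) (nat_lit 5) (nat_lit 11) (C.cons (nat_lit 2145) (C.pat (nat_lit 3) (nat_lit 5742148487) (nat_lit 46096370232550823781084712082480431527802507137)) C.nil)) C.nil)) C.nil)) C.nil))) (C.cons (nat_lit 521) (C.node (nat_lit 0) (nat_lit 2) (nat_lit 3) (C.cons (nat_lit 2061) (C.node (nat_lit 0) (nat_lit 2) (nat_lit 6) (C.cons (nat_lit 1093) (C.node (nat_lit 0) (nat_lit 3) (nat_lit 5) (C.cons (nat_lit 1065) (C.node (nat_lit 0) (nat_lit 4) (nat_lit 10) C.nil) C.nil)) C.nil)) (C.cons (nat_lit 1037) (C.node (nat_lit 0) (nat_lit 2) (nat_lit 6) (C.cons (nat_lit 2117) (C.node (nat_lit 0) (nat_lit 3) (nat_lit 5) (C.cons (nat_lit 2089) (C.node (nat_lit 0) (nat_lit 6) (nat_lit 10) (C.cons (nat_lit 1105) (C.node (nat_lit 0) (nat_lit 5) (nat_lit 10) C.nil) (C.cons (nat_lit 1121) (C.node (nat_lit 0) (nat_lit 4) (nat_lit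 10) C.nil) C.nil))) C.nil)) C.nil)) C.nil))) C.nil))) C.nil)))) C.nil)) C.nil))) C.nil)))) C.nil)))) (List.cons (C.node (nat_lit 0) (nat_lit 2) (nat_lit 3) (C.cons (nat_lit 2061) (C.node (nat_lit 0) (nat_lit 2) (nat_lit 6) (C.cons (nat_lit 581) (C.ref (nat_lit 88) (nat_lit 170112989933856)) (C.cons (nat_lit 69) (C.node (nat_lit 0) (nat_lit 2) (nat_lit 9) (C.cons (nat_lit 517) (C.node (nat_lit 0) (nat_lit 3) (nat_lit 5) (C.cons (nat_lit 1065) (C.node (nat_lit 0) (nat_lit 6) (nat_lit 10) (C.cons (nat_lit 1105) (C.pat (nat_lit 3) (nat_lit 14567942791) (nat_lit 23750669650158850005837324559834347726979796865)) (C.cons (nat_lit 1089) (C.node (nat_lit 0) (nat_lit 4) (nat_lit 10) (C.cons (nat_lit 1041) (C.node (nat_lit 0) (nat_lit 5) (nat_lit 11) (C.cons (nat_lit 2097) (C.node (nat_lit 0) (nat_lit 6) (nat_lit 11) C.nil) (C.cons (nat_lit 2145) (C.node (nat_lit 0) (nat_lit 4) (nat_lit 11) C.nil) C.nil))) C.nil))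 C.nil))) (C.cons (nat_lit 41) (C.node (nat_lit 0) (nat_lit 3) (nat_lit 10) (C.cons (nat_lit 1033) (C.node (nat_lit 0) (nat_lit 4) (nat_lit 9) (C.cons (nat_lit 593) (C.node (nat_lit 0) (nat_lit 5) (nat_lit 9) C.nil) (C.cons (nat_lit 561) (C.node (nat_lit 0) (nat_lit 6) (nat_lit 9) C.nil) C.nil))) C.nil)) C.nil))) C.nil)) C.nil)))
  (C.cons (nat_lit 13) (C.node (nat_lit 0) (nat_lit 2) (nat_lit 9) (C.cons (nat_lit 581) (C.node (nat_lit 0) (nat_lit 2) (nat_lit 11) (C.cons (nat_lit 2053) (C.node (nat_lit 0) (nat_lit 3) (nat_lit 10) (C.cons (nat_lit 1065) (C.node (nat_lit 0) (nat_lit 3) (nat_lit 11) (C.cons (nat_lit 2057) (C.node (nat_lit 0) (nat_lit 6) (nat_lit 10) (C.cons (nat_lit 1105) (C.pat (nat_lit 3) (nat_lit 14567942791) (nat_lit 23750669650158850005837324559834347726979796865)) (C.cons (nat_lit 1089) (C.node (nat_lit 0) (nat_lit 4) (nat_lit 10) C.nil) C.nil))) C.nil)) (C.cons (nat_lit 1033) (C.node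 (nat_lit 0) (nat_lit 3) (nat_lit 5) (C.cons (nat_lit 2089) (C.node (nat_lit 0) (nat_lit 5) (nat_lit 9) (C.cons (nat_lit 561) (C.pat (nat_lit 3) (nat_lit 10005592440) (nat_lit 12956923859610879123492463135905094046671507329)) (C.cons (nat_lit 545) (C.node (nat_lit 0) (nat_lit 4) (nat_lit 9) C.nil) C.nil))) (C.cons (nat_lit 41) (C.node (nat_lit 0) (nat_lit 3) (nat_lit 11) C.nil) C.nil))) C.nil))) C.nil)) (C.cons (nat_lit 517) (C.node (nat_lit 0) (nat_lit 2) (nat_lit 6) (C.cons (nat_lit 2117) (C.node (nat_lit 0) (nat_lit 3) (nat_lit 10) (C.cons (nat_lit 1065) (C.node (nat_lit 0) (nat_lit 3) (nat_lit 11) (C.cons (nat_lit 2057) (C.node (nat_lit 0) (nat_lit 6) (nat_lit 10) (C.cons (nat_lit 1105) (C.pat (nat_lit 3) (nat_lit 14567942791) (nat_lit 23750669650158850005837324559834347726979796865)) (C.cons (nat_lit 1089) (C.node (nat_lit 0) (nat_lit 4) (nat_lit 10) C.nil) C.nil))) C.nil)) (C.cons (nat_lit 1033)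 (C.node (nat_lit 0) (nat_lit 3) (nat_lit 5) (C.cons (nat_lit 2089) (C.node (nat_lit 0) (nat_lit 4) (nat_lit 11) (C.cons (nat_lit 2065) (C.node (nat_lit 0) (nat_lit 6) (nat_lit 10) (C.cons (nat_lit 1121) (C.node (nat_lit 0) (nat_lit 4) (nat_lit 10) C.nil) (C.cons (nat_lit 1105) (C.node (nat_lit 0) (nat_lit 5) (nat_lit 10) C.nil) C.nil))) C.nil)) (C.cons (nat_lit 41) (C.node (nat_lit 0) (nat_lit 3) (nat_lit 11) C.nil) C.nil))) C.nil))) (C.cons (nat_lit 69) (C.node (nat_lit 0) (nat_lit 2) (nat_lit 11) (C.cons (nat_lit 2053) (C.node (nat_lit 0) (nat_lit 3) (nat_lit 10) (C.cons (nat_lit 1065) (C.node (nat_lit 0) (nat_lit 3) (nat_lit 11) C.nil) C.nil)) C.nil)) C.nil))) C.nil))) C.nil))) List.nil)))))))))))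

theorem ok12_90 : okL par12 (nat_lit 101) c12_90 (nat_lit 90) = true := by decide +kernel

noncomputable def c12_101 : List C :=
  (List.cons (C.node (nat_lit 0) (nat_lit 2) (nat_lit 9) (C.cons (nat_lit 581) (C.node (nat_lit 0) (nat_lit 2) (nat_lit 10) (C.cons (nat_lit 1037) (C.node (nat_lit 0) (nat_lit 2) (nat_lit 11) (C.cons (nat_lit 2053) (C.node (nat_lit 0) (nat_lit 3) (nat_lit 5) (C.cons (nat_lit 2089) (C.node (nat_lit 0) (nat_lit 5) (nat_lit 9) (C.cons (nat_lit 561) (C.pat (nat_lit 3) (nat_lit 10005592440) (nat_lit 12956923859610879123492463135905094046671507329)) (C.cons (nat_lit 545) (C.node (nat_lit 0) (nat_lit 4) (nat_lit 9) C.nil) C.nil))) (C.cons (nat_lit 41) (C.node (nat_lit 0) (nat_lit 3) (nat_lit 11) C.nil) C.nil))) C.nil)) (C.cons (nat_lit 1029) (C.node (nat_lit 0) (nat_lit 2) (nat_lit 3) (C.cons (nat_lit 2061) (C.node (nat_lit 0) (nat_lit 3) (nat_lit 5) (C.cons (nat_lit 1065) (C.node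 (nat_lit 0) (nat_lit 5) (nat_lit 9) (C.cons (nat_lit 561) (C.pat (nat_lit 3) (nat_lit 10005592440) (nat_lit 12956923859610879123492463135905094046671507329)) (C.cons (nat_lit 545) (C.node (nat_lit 0) (nat_lit 4) (nat_lit 9) C.nil) C.nil))) (C.cons (nat_lit 41) (C.node (nat_lit 0) (nat_lit 3) (nat_lit 10) C.nil) C.nil))) (C.cons (nat_lit 13) (C.node (nat_lit 0) (nat_lit 2) (nat_lit 11) C.nil) C.nil))) C.nil))) (C.cons (nat_lit 517) (C.node (nat_lit 0) (nat_lit 2) (nat_lit 3) (C.cons (nat_lit 2061) (C.node (nat_lit 0) (nat_lit 2) (nat_lit 6) (C.cons (nat_lit 1093) (C.node (nat_lit 0) (nat_lit 3) (nat_lit 5) (C.cons (nat_lit 1065) (C.node (nat_lit 0) (nat_lit 4) (nat_lit 10) (C.cons (nat_lit 1041) (C.ref (nat_lit 94) (nat_lit 188667281084976)) C.nil)) (C.cons (nat_lit 41) (C.node (nat_lit 0) (nat_lit 3) (nat_lit 10) C.nil) C.nil))) (C.cons (nat_lit 69) (C.node (nat_lit 0) (nat_lit 2) (nat_lit 10) C.nil)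 C.nil))) (C.cons (nat_lit 1037) (C.node (nat_lit 0) (nat_lit 2) (nat_lit 6) (C.cons (nat_lit 2117) (C.node (nat_lit 0) (nat_lit 3) (nat_lit 5) (C.cons (nat_lit 2089) (C.node (nat_lit 0) (nat_lit 4) (nat_lit 11) (C.cons (nat_lit 2065) (C.ref (nat_lit 94) (nat_lit 205159955501616)) C.nil)) (C.cons (nat_lit 41) (C.node (nat_lit 0) (nat_lit 3) (nat_lit 11) C.nil) C.nil))) (C.cons (nat_lit 69) (C.node (nat_lit 0) (nat_lit 2) (nat_lit 11) C.nil) C.nil))) (C.cons (nat_lit 13) (C.node (nat_lit 0) (nat_lit 2) (nat_lit 10) (C.cons (nat_lit 1093) (C.node (nat_lit 0) (nat_lit 2) (nat_lit 11) C.nil) C.nil)) C.nil)))) C.nil))) (List.cons (C.node (nat_lit 0) (nat_lit 1) (nat_lit 2) (C.cons (nat_lit 2055) (C.ref (nat_lit 100) (nat_lit 188671308608016)) (C.cons (nat_lit 7) (C.node (nat_lit 0) (nat_lit 1) (nat_lit 11) (C.cons (nat_lit 2051) (C.ref (nat_lit 101) (nat_lit 205163983024656)) C.nil)) C.nil))) (List.cons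 (C.node (nat_lit 0) (nat_lit 2) (nat_lit 4) (C.cons (nat_lit 1045) (C.node (nat_lit 0) (nat_lit 2) (nat_lit 6) (C.cons (nat_lit 69) (C.node (nat_lit 0) (nat_lit 4) (nat_lit 5) (C.cons (nat_lit 49) (C.node (nat_lit 0) (nat_lit 5) (nat_lit 9) (C.cons (nat_lit 609) (C.pat (nat_lit 3) (nat_lit 5471689623) (nat_lit 45828755846896756463037385305655524803379269505)) (C.cons (nat_lit 545) (C.node (nat_lit 0) (nat_lit 6) (nat_lit 9) (C.cons (nat_lit 577) (C.node (nat_lit 0) (nat_lit 5) (nat_lit 6) (C.cons (nat_lit 1121) (C.pat (nat_lit 6) (nat_lit 314160214810) (nat_lit 5800704347593129355132122314215948008031305968845129)) C.nil)) C.nil)) C.nil))) C.nil)) C.nil)) (C.cons (nat_lit 21) (C.node (nat_lit 0) (nat_lit 2) (nat_lit 6) (C.cons (nat_lit 1093) (C.node (nat_lit 0) (nat_lit 4) (nat_lit 5) (C.cons (nat_lit 1073) (C.pat (nat_lit 3) (nat_lit 18578807719) (nat_lit 47478997383107615636853578980088744538343149441))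 (C.cons (nat_lit 49) (C.node (nat_lit 0) (nat_lit 4) (nat_lit 10) (C.cons (nat_lit 1041) (C.node (nat_lit 0) (nat_lit 5) (nat_lit 10) (C.cons (nat_lit 1057) (C.node (nat_lit 0) (nat_lit 5) (nat_lit 6) (C.cons (nat_lit 609) (C.pat (nat_lit 3) (nat_lit 5471689623) (nat_lit 45828755846896756463037385305655524803379269505)) C.nil)) C.nil)) C.nil)) C.nil))) (C.cons (nat_lit 69) (C.node (nat_lit 0) (nat_lit 2) (nat_lit 10) (C.cons (nat_lit 1029)
  (C.node (nat_lit 0) (nat_lit 4) (nat_lit 5) (C.cons (nat_lit 1073) (C.node (nat_lit 0) (nat_lit 6) (nat_lit 10) (C.cons (nat_lit 1089) (C.node (nat_lit 0) (nat_lit 6) (nat_lit 5) (C.cons (nat_lit 609) (C.pat (nat_lit 3) (nat_lit 13509945243) (nat_lit 3412070164691725216622267701347201927678594945)) C.nil)) C.nil)) (C.cons (nat_lit 49) (C.node (nat_lit 0) (nat_lit 4) (nat_lit 10) C.nil) C.nil))) C.nil)) C.nil))) C.nil))) (List.cons (C.node (nat_lit 0) (nat_lit 2)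 (nat_lit 4) (C.cons (nat_lit 1045) (C.node (nat_lit 0) (nat_lit 2) (nat_lit 6) C.nil) (C.cons (nat_lit 85) (C.node (nat_lit 0) (nat_lit 2) (nat_lit 10) C.nil) C.nil))) (List.cons (C.node (nat_lit 0) (nat_lit 5) (nat_lit 9) (C.cons (nat_lit 609) (C.node (nat_lit 0) (nat_lit 4) (nat_lit 5) (C.cons (nat_lit 1073) (C.node (nat_lit 0) (nat_lit 2) (nat_lit 4) (C.cons (nat_lit 85) (C.pat (nat_lit 2) (nat_lit 47583761778) (nat_lit 46586308783945422990980609602825028075079926291)) (C.cons (nat_lit 21) (C.node (nat_lit 0) (nat_lit 4) (nat_lit 6) (C.cons (nat_lit 81) (C.node (nat_lit 0) (nat_lit 6) (nat_lit 2) (C.cons (nat_lit 1093) (C.pat (nat_lit 3) (nat_lit 23123278487) (nat_lit 23929071529812554074861644183024173356926177153)) C.nil)) C.nil)) C.nil))) (C.cons (nat_lit 49) (C.node (nat_lit 0) (nat_lit 5) (nat_lit 10) (C.cons (nat_lit 1057) (C.node (nat_lit 0) (nat_lit 2) (nat_lit 4) (C.cons (nat_lit 1045)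 (C.node (nat_lit 0) (nat_lit 2) (nat_lit 6) C.nil) (C.cons (nat_lit 85) (C.pat (nat_lit 2) (nat_lit 47583761778) (nat_lit 46586308783945422990980609602825028075079926291)) C.nil))) C.nil)) C.nil))) (C.cons (nat_lit 545) (C.node (nat_lit 0) (nat_lit 6) (nat_lit 9) (C.cons (nat_lit 577) (C.ref (nat_lit 104) (nat_lit 205163983024656)) C.nil)) C.nil))) (List.cons (C.node (nat_lit 0) (nat_lit 2) (nat_lit 4) (C.cons (nat_lit 1045) (C.node (nat_lit 0) (nat_lit 2) (nat_lit 6) C.nil) (C.cons (nat_lit 85) (C.node (nat_lit 0) (nat_lit 2) (nat_lit 10) C.nil) C.nil))) (List.cons (C.node (nat_lit 0) (nat_lit 5) (nat_lit 9) (C.cons (nat_lit 609) (C.node (nat_lit 0) (nat_lit 5) (nat_lit 10) (C.cons (nat_lit 1073) (C.node (nat_lit 0) (nat_lit 5) (nat_lit 11) (C.cons (nat_lit 2081) (C.node (nat_lit 0) (nat_lit 2) (nat_lit 4) (C.cons (nat_lit 85) (C.pat (nat_lit 2) (nat_lit 44393730932) (nat_lit 23081337636397787973359815292780943084478857825))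 (C.cons (nat_lit 21) (C.node (nat_lit 0) (nat_lit 2) (nat_lit 6) (C.cons (nat_lit 1093) (C.pat (nat_lit 3) (nat_lit 23123278487) (nat_lit 23929071529812554074861644183024173356926177153)) C.nil)) C.nil))) C.nil)) (C.cons (nat_lit 1057) (C.node (nat_lit 0) (nat_lit 4) (nat_lit 5) (C.cons (nat_lit 2097) (C.node (nat_lit 0) (nat_lit 6) (nat_lit 11) (C.cons (nat_lit 2113) (C.ref (nat_lit 89) (nat_lit 205099557344016)) C.nil)) (C.cons (nat_lit 49) (C.node (nat_lit 0) (nat_lit 5) (nat_lit 11) C.nil) C.nil))) C.nil))) (C.cons (nat_lit 545) (C.node (nat_lit 0) (nat_lit 6) (nat_lit 9) (C.cons (nat_lit 577) (C.ref (nat_lit 106) (nat_lit 205163983024656)) C.nil)) C.nil))) (List.cons (C.node (nat_lit 0) (nat_lit 3) (nat_lit 5) (C.cons (nat_lit 2089) (C.node (nat_lit 0) (nat_lit 4) (nat_lit 5) (C.cons (nat_lit 113) (C.node (nat_lit 0) (nat_lit 4) (nat_lit 11) (C.cons (nat_lit 2065) (C.node (nat_lit 0) (nat_lit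 5) (nat_lit 10) C.nil) C.nil)) (C.cons (nat_lit 49) (C.node (nat_lit 0) (nat_lit 4) (nat_lit 6) (C.cons (nat_lit 2129) (C.node (nat_lit 0) (nat_lit 5) (nat_lit 6) (C.cons (nat_lit 1121) (C.ref (nat_lit 91) (nat_lit 133640644613136)) C.nil)) C.nil)) C.nil))) (C.cons (nat_lit 41) (C.node (nat_lit 0) (nat_lit 3) (nat_lit 11) C.nil) C.nil))) (List.cons (C.node (nat_lit 0) (nat_lit 2) (nat_lit 4) (C.cons (nat_lit 1045) (C.node (nat_lit 0) (nat_lit 2) (nat_lit 6) C.nil) (C.cons (nat_lit 85) (C.node (nat_lit 0) (nat_lit 2) (nat_lit 10) C.nil) C.nil))) (List.cons (C.node (nat_lit 0) (nat_lit 2) (nat_lit 3) (C.cons (nat_lit 525) (C.node (nat_lit 0) (nat_lit 3) (nat_lit 5) (C.cons (nat_lit 2089) (C.node (nat_lit 0) (nat_lit 4) (nat_lit 11) (C.cons (nat_lit 2129)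
  (C.ref (nat_lit 103) (nat_lit 205163983024656)) (C.cons (nat_lit 2065) (C.node (nat_lit 0) (nat_lit 6) (nat_lit 11) (C.cons (nat_lit 2113) (C.ref (nat_lit 105) (nat_lit 205163983024656)) C.nil)) C.nil))) (C.cons (nat_lit 41) (C.node (nat_lit 0) (nat_lit 3) (nat_lit 11) (C.cons (nat_lit 2057) (C.ref (nat_lit 107) (nat_lit 205163983024656)) C.nil)) C.nil))) (C.cons (nat_lit 13) (C.node (nat_lit 0) (nat_lit 2) (nat_lit 9) (C.cons (nat_lit 581) (C.node (nat_lit 0) (nat_lit 2) (nat_lit 4) (C.cons (nat_lit 1045) (C.node (nat_lit 0) (nat_lit 3) (nat_lit 9) (C.cons (nat_lit 553) (C.node (nat_lit 0) (nat_lit 3) (nat_lit 11) (C.cons (nat_lit 2057) (C.ref (nat_lit 90) (nat_lit 153551865459216)) C.nil)) (C.cons (nat_lit 521) (C.node (nat_lit 0) (nat_lit 5) (nat_lit 9) (C.cons (nat_lit 545) (C.ref (nat_lit 108) (nat_lit 205163983024656)) C.nil)) C.nil))) (C.cons (nat_lit 21) (C.node (nat_lit 0) (nat_lit 2) (nat_lit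 10) (C.cons (nat_lit 1029) (C.node (nat_lit 0) (nat_lit 3) (nat_lit 9) (C.cons (nat_lit 553) (C.node (nat_lit 0) (nat_lit 3) (nat_lit 11) (C.cons (nat_lit 2057) (C.ref (nat_lit 94) (nat_lit 152529157825296)) C.nil)) (C.cons (nat_lit 521) (C.node (nat_lit 0) (nat_lit 5) (nat_lit 9) C.nil) C.nil))) C.nil)) C.nil))) (C.cons (nat_lit 517) (C.node (nat_lit 0) (nat_lit 3) (nat_lit 9) (C.cons (nat_lit 553) (C.node (nat_lit 0) (nat_lit 3) (nat_lit 11) (C.cons (nat_lit 2057) (C.node (nat_lit 0) (nat_lit 6) (nat_lit 9) (C.cons (nat_lit 577) (C.ref (nat_lit 109) (nat_lit 205163983024656)) C.nil)) C.nil)) (C.cons (nat_lit 521) (C.node (nat_lit 0) (nat_lit 3) (nat_lit 5) (C.cons (nat_lit 2089) (C.node (nat_lit 0) (nat_lit 4) (nat_lit 11) (C.cons (nat_lit 2129) (C.node (nat_lit 0) (nat_lit 2) (nat_lit 4) (C.cons (nat_lit 1045) (C.node (nat_lit 0) (nat_lit 2) (nat_lit 6) (C.cons (nat_lit 69) (C.node (nat_lit 0) (nat_lit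 4) (nat_lit 5) C.nil) C.nil)) (C.cons (nat_lit 21) (C.node (nat_lit 0) (nat_lit 2) (nat_lit 6) (C.cons (nat_lit 1093) (C.node (nat_lit 0) (nat_lit 4) (nat_lit 5) (C.cons (nat_lit 1073) (C.pat (nat_lit 3) (nat_lit 18578807719) (nat_lit 47478997383107615636853578980088744538343149441)) C.nil)) C.nil)) C.nil))) (C.cons (nat_lit 2065) (C.node (nat_lit 0) (nat_lit 6) (nat_lit 11) C.nil) C.nil))) (C.cons (nat_lit 41) (C.node (nat_lit 0) (nat_lit 3) (nat_lit 11) C.nil) C.nil))) C.nil))) C.nil))) C.nil))) (List.cons (C.node (nat_lit 0) (nat_lit 5) (nat_lit 9) (C.cons (nat_lit 609) (C.node (nat_lit 0) (nat_lit 4) (nat_lit 5) (C.cons (nat_lit 1073) (C.ref (nat_lit 87) (nat_lit 188598827881296)) (C.cons (nat_lit 49) (C.node (nat_lit 0) (nat_lit 5) (nat_lit 10) (C.cons (nat_lit 1057) (C.node (nat_lit 0) (nat_lit 6) (nat_lit 10) (C.cons (nat_lit 1105) (C.node (nat_lit 0) (nat_lit 2) (nat_lit 10) C.nil) (C.cons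 (nat_lit 1093) (C.node (nat_lit 0) (nat_lit 4) (nat_lit 10) C.nil) C.nil))) C.nil)) C.nil))) (C.cons (nat_lit 545) (C.node (nat_lit 0) (nat_lit 6) (nat_lit 9) (C.cons (nat_lit 577) (C.ref (nat_lit 106) (nat_lit 205099521938736)) C.nil)) C.nil))) (List.cons (C.node (nat_lit 0) (nat_lit 2) (nat_lit 3) (C.cons (nat_lit 2061) (C.node (nat_lit 0) (nat_lit 2) (nat_lit 9) (C.cons (nat_lit 581) (C.node (nat_lit 0) (nat_lit 2) (nat_lit 4) (C.cons (nat_lit 1045) (C.node (nat_lit 0) (nat_lit 3) (nat_lit 5) (C.cons (nat_lit 553) (C.ref (nat_lit 90) (nat_lit 153559917531696)) (C.cons (nat_lit 41) (C.node (nat_lit 0) (nat_lit 3) (nat_lit 9) (C.cons (nat_lit 521) (C.node (nat_lit 0) (nat_lit 5) (nat_lit 9) C.nil) C.nil)) C.nil))) (C.cons (nat_lit 21) (C.node (nat_lit 0) (nat_lit 2) (nat_lit 10) (C.cons (nat_lit 1029) (C.node (nat_lit 0) (nat_lit 3) (nat_lit 5) (C.cons (nat_lit 553) (C.ref (nat_lit 94) (nat_lit 152521088049456))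 C.nil)) C.nil)) C.nil))) (C.cons (nat_lit 517) (C.node (nat_lit 0) (nat_lit 3) (nat_lit 5) (C.cons (nat_lit 553) (C.node (nat_lit 0) (nat_lit 6) (nat_lit 9) (C.cons (nat_lit 577) (C.ref (nat_lit 109) (nat_lit 205099525083696)) C.nil)) (C.cons (nat_lit 41)
  (C.node (nat_lit 0) (nat_lit 3) (nat_lit 9) C.nil) C.nil))) C.nil))) (C.cons (nat_lit 525) (C.node (nat_lit 0) (nat_lit 3) (nat_lit 5) (C.cons (nat_lit 2089) (C.ref (nat_lit 111) (nat_lit 205163983024656)) (C.cons (nat_lit 41) (C.node (nat_lit 0) (nat_lit 3) (nat_lit 11) (C.cons (nat_lit 2057) (C.node (nat_lit 0) (nat_lit 5) (nat_lit 9) (C.cons (nat_lit 609) (C.node (nat_lit 0) (nat_lit 5) (nat_lit 10) (C.cons (nat_lit 1073) (C.node (nat_lit 0) (nat_lit 5) (nat_lit 11) C.nil) C.nil)) C.nil)) C.nil)) C.nil))) (C.cons (nat_lit 13) (C.node (nat_lit 0) (nat_lit 2) (nat_lit 9) (C.cons (nat_lit 581) (C.node (nat_lit 0) (nat_lit 2) (nat_lit 10) (C.cons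 (nat_lit 1045) (C.node (nat_lit 0) (nat_lit 2) (nat_lit 11) (C.cons (nat_lit 2053) (C.node (nat_lit 0) (nat_lit 3) (nat_lit 9) (C.cons (nat_lit 553) (C.node (nat_lit 0) (nat_lit 3) (nat_lit 11) C.nil) C.nil)) C.nil)) (C.cons (nat_lit 1029) (C.node (nat_lit 0) (nat_lit 2) (nat_lit 4) (C.cons (nat_lit 2069) (C.node (nat_lit 0) (nat_lit 3) (nat_lit 9) (C.cons (nat_lit 553) (C.node (nat_lit 0) (nat_lit 3) (nat_lit 11) C.nil) C.nil)) C.nil)) C.nil))) (C.cons (nat_lit 517) (C.node (nat_lit 0) (nat_lit 3) (nat_lit 9) (C.cons (nat_lit 553) (C.node (nat_lit 0) (nat_lit 3) (nat_lit 11) C.nil) C.nil)) C.nil))) C.nil)))) (List.cons (C.node (nat_lit 0) (nat_lit 4) (nat_lit 10) (C.cons (nat_lit 1105) (C.node (nat_lit 0) (nat_lit 2) (nat_lit 4) (C.cons (nat_lit 2069) (C.node (nat_lit 0) (nat_lit 2) (nat_lit 6) (C.cons (nat_lit 69) (C.node (nat_lit 0) (nat_lit 4) (nat_lit 5) C.nil) C.nil)) (C.cons (nat_lit 21) (C.node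 (nat_lit 0) (nat_lit 2) (nat_lit 6) (C.cons (nat_lit 2117) (C.node (nat_lit 0) (nat_lit 4) (nat_lit 5) (C.cons (nat_lit 2097) (C.node (nat_lit 0) (nat_lit 5) (nat_lit 6) (C.cons (nat_lit 609) (C.pat (nat_lit 3) (nat_lit 5471689367) (nat_lit 22992444314457671323880283259580212215707668353)) C.nil)) C.nil)) C.nil)) C.nil))) (C.cons (nat_lit 1041) (C.node (nat_lit 0) (nat_lit 6) (nat_lit 10) C.nil) C.nil))) (List.cons (C.node (nat_lit 0) (nat_lit 2) (nat_lit 3) (C.cons (nat_lit 2061) (C.node (nat_lit 0) (nat_lit 2) (nat_lit 4) (C.cons (nat_lit 85) (C.node (nat_lit 0) (nat_lit 2) (nat_lit 9) (C.cons (nat_lit 517) (C.node (nat_lit 0) (nat_lit 3) (nat_lit 5) (C.cons (nat_lit 553) (C.node (nat_lit 0) (nat_lit 6) (nat_lit 9) C.nil) C.nil)) C.nil)) (C.cons (nat_lit 21) (C.node (nat_lit 0) (nat_lit 2) (nat_lit 6) (C.cons (nat_lit 581) (C.node (nat_lit 0) (nat_lit 3) (nat_lit 5) (C.cons (nat_lit 553) (C.node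 (nat_lit 0) (nat_lit 5) (nat_lit 10) (C.cons (nat_lit 1121) (C.node (nat_lit 0) (nat_lit 4) (nat_lit 10) C.nil) (C.cons (nat_lit 1073) (C.node (nat_lit 0) (nat_lit 6) (nat_lit 10) C.nil) C.nil))) C.nil)) C.nil)) C.nil))) (C.cons (nat_lit 525) (C.node (nat_lit 0) (nat_lit 3) (nat_lit 5) (C.cons (nat_lit 2089) (C.node (nat_lit 0) (nat_lit 5) (nat_lit 9) (C.cons (nat_lit 609) (C.node (nat_lit 0) (nat_lit 4) (nat_lit 5) (C.cons (nat_lit 1073) (C.node (nat_lit 0) (nat_lit 6) (nat_lit 10) (C.cons (nat_lit 1089) (C.ref (nat_lit 89) (nat_lit 188598827881296)) C.nil)) (C.cons (nat_lit 49) (C.node (nat_lit 0) (nat_lit 5) (nat_lit 10) C.nil) C.nil))) (C.cons (nat_lit 545) (C.node (nat_lit 0) (nat_lit 6) (nat_lit 9) C.nil) C.nil))) (C.cons (nat_lit 41) (C.node (nat_lit 0) (nat_lit 3) (nat_lit 11) C.nil) C.nil))) (C.cons (nat_lit 13) (C.node (nat_lit 0) (nat_lit 2) (nat_lit 9) (C.cons (nat_lit 581) (C.node (nat_lit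 0) (nat_lit 2) (nat_lit 4) (C.cons (nat_lit 2069) (C.node (nat_lit 0) (nat_lit 3) (nat_lit 9) (C.cons (nat_lit 553) (C.node (nat_lit 0) (nat_lit 3) (nat_lit 11) C.nil) C.nil)) C.nil)) C.nil)) C.nil)))) (List.cons (C.node (nat_lit 0) (nat_lit 3) (nat_lit 10) (C.cons (nat_lit 1065) (C.node (nat_lit 0) (nat_lit 3) (nat_lit 9) (C.cons (nat_lit 525) (C.node (nat_lit 0) (nat_lit 3) (nat_lit 11) (C.cons (nat_lit 2057) (C.ref (nat_lit 113) (nat_lit 205163983024656)) C.nil)) (C.cons (nat_lit 521) (C.node (nat_lit 0) (nat_lit 2) (nat_lit 3) (C.cons (nat_lit 2061)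
  (C.node (nat_lit 0) (nat_lit 2) (nat_lit 4) (C.cons (nat_lit 85) (C.node (nat_lit 0) (nat_lit 2) (nat_lit 9) (C.cons (nat_lit 517) (C.node (nat_lit 0) (nat_lit 4) (nat_lit 10) C.nil) C.nil)) (C.cons (nat_lit 21) (C.node (nat_lit 0) (nat_lit 2) (nat_lit 6) (C.cons (nat_lit 581) (C.node (nat_lit 0) (nat_lit 5) (nat_lit 9) C.nil) C.nil)) C.nil))) (C.cons (nat_lit 13) (C.node (nat_lit 0) (nat_lit 3) (nat_lit 11) C.nil) C.nil))) C.nil))) (C.cons (nat_lit 1033) (C.ref (nat_lit 114) (nat_lit 205163983024656)) C.nil))) (List.cons (C.node (nat_lit 0) (nat_lit 2) (nat_lit 4) (C.cons (nat_lit 533) (C.node (nat_lit 0) (nat_lit 2) (nat_lit 6) (C.cons (nat_lit 69) (C.node (nat_lit 0) (nat_lit 4) (nat_lit 5) (C.cons (nat_lit 2097) (C.node (nat_lit 0) (nat_lit 6) (nat_lit 11) (C.cons (nat_lit 2113) (C.node (nat_lit 0) (nat_lit 6) (nat_lit 5) (C.cons (nat_lit 609) (C.ref (nat_lit 91) (nat_lit 188598746178096)) C.nil))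 C.nil)) (C.cons (nat_lit 49) (C.node (nat_lit 0) (nat_lit 4) (nat_lit 11) C.nil) C.nil))) C.nil)) (C.cons (nat_lit 21) (C.node (nat_lit 0) (nat_lit 2) (nat_lit 6) (C.cons (nat_lit 581) (C.node (nat_lit 0) (nat_lit 4) (nat_lit 9) (C.cons (nat_lit 561) (C.pat (nat_lit 3) (nat_lit 18578807447) (nat_lit 24642685848010033941307428440132004196317859713)) (C.cons (nat_lit 529) (C.node (nat_lit 0) (nat_lit 5) (nat_lit 9) C.nil) C.nil))) (C.cons (nat_lit 69) (C.node (nat_lit 0) (nat_lit 2) (nat_lit 9) C.nil) C.nil))) C.nil))) (List.cons (C.node (nat_lit 0) (nat_lit 4) (nat_lit 10) (C.cons (nat_lit 1105) (C.node (nat_lit 0) (nat_lit 2) (nat_lit 4) (C.cons (nat_lit 2069) (C.node (nat_lit 0) (nat_lit 2) (nat_lit 6) (C.cons (nat_lit 581) (C.node (nat_lit 0) (nat_lit 4) (nat_lit 5) (C.cons (nat_lit 561) (C.pat (nat_lit 3) (nat_lit 18578807447) (nat_lit 24642685848010033941307428440132004196317859713)) C.nil)) C.nil))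 (C.cons (nat_lit 533) (C.node (nat_lit 0) (nat_lit 2) (nat_lit 6) (C.cons (nat_lit 2117) (C.node (nat_lit 0) (nat_lit 4) (nat_lit 5) (C.cons (nat_lit 2097) (C.node (nat_lit 0) (nat_lit 5) (nat_lit 6) (C.cons (nat_lit 609) (C.pat (nat_lit 6) (nat_lit 103954478681) (nat_lit 5800703678370684657069427086452700096227264469993541)) C.nil)) C.nil)) C.nil)) C.nil))) C.nil)) (List.cons (C.node (nat_lit 0) (nat_lit 2) (nat_lit 9) (C.cons (nat_lit 581) (C.node (nat_lit 0) (nat_lit 2) (nat_lit 4) (C.cons (nat_lit 2069) (C.node (nat_lit 0) (nat_lit 6) (nat_lit 11) C.nil) C.nil)) (C.cons (nat_lit 533) (C.node (nat_lit 0) (nat_lit 2) (nat_lit 6) (C.cons (nat_lit 2117) (C.node (nat_lit 0) (nat_lit 4) (nat_lit 11) C.nil) C.nil)) C.nil))) (List.cons (C.node (nat_lit 0) (nat_lit 2) (nat_lit 3) (C.cons (nat_lit 2061) (C.node (nat_lit 0) (nat_lit 3) (nat_lit 5) (C.cons (nat_lit 1065) (C.node (nat_lit 0) (nat_lit 4) (nat_lit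 10) (C.cons (nat_lit 1105) (C.ref (nat_lit 116) (nat_lit 205163983024656)) (C.cons (nat_lit 1041) (C.node (nat_lit 0) (nat_lit 6) (nat_lit 10) (C.cons (nat_lit 1089) (C.node (nat_lit 0) (nat_lit 2) (nat_lit 4) (C.cons (nat_lit 533) (C.node (nat_lit 0) (nat_lit 2) (nat_lit 6) C.nil) (C.cons (nat_lit 85) (C.node (nat_lit 0) (nat_lit 2) (nat_lit 9) C.nil) C.nil))) C.nil)) C.nil))) (C.cons (nat_lit 41) (C.node (nat_lit 0) (nat_lit 3) (nat_lit 10) (C.cons (nat_lit 1033) (C.node (nat_lit 0) (nat_lit 2) (nat_lit 4) (C.cons (nat_lit 533) (C.node (nat_lit 0) (nat_lit 2) (nat_lit 6) C.nil) (C.cons (nat_lit 85) (C.node (nat_lit 0) (nat_lit 2) (nat_lit 9) C.nil) C.nil))) C.nil)) C.nil))) (C.cons (nat_lit 13) (C.node (nat_lit 0) (nat_lit 3) (nat_lit 10) (C.cons (nat_lit 1065) (C.node (nat_lit 0) (nat_lit 3) (nat_lit 11) (C.cons (nat_lit 2057) (C.ref (nat_lit 117) (nat_lit 205163983024656)) C.nil)) (C.cons (nat_lit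 1033) (C.node (nat_lit 0) (nat_lit 3) (nat_lit 5) (C.cons (nat_lit 2089) (C.ref (nat_lit 118) (nat_lit 205163983024656)) C.nil)) C.nil))) C.nil))) (List.cons (C.node (nat_lit 0) (nat_lit 2) (nat_lit 6) (C.cons (nat_lit 1093) (C.node (nat_lit 0) (nat_lit 3) (nat_lit 5) (C.cons (nat_lit 1065)
  (C.node (nat_lit 0) (nat_lit 4) (nat_lit 10) (C.cons (nat_lit 1041) (C.node (nat_lit 0) (nat_lit 4) (nat_lit 9) (C.cons (nat_lit 593) (C.node (nat_lit 0) (nat_lit 5) (nat_lit 9) C.nil) (C.cons (nat_lit 561) (C.node (nat_lit 0) (nat_lit 6) (nat_lit 9) C.nil) C.nil))) C.nil)) (C.cons (nat_lit 41) (C.node (nat_lit 0) (nat_lit 3) (nat_lit 10) C.nil) C.nil))) (C.cons (nat_lit 69) (C.node (nat_lit 0) (nat_lit 2) (nat_lit 10) C.nil) C.nil))) List.nil))))))))))))))))))))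

theorem ok12_101 : okL par12 (nat_lit 121) c12_101 (nat_lit 101) = true := by decide +kernel

noncomputable def c12_121 : List C :=
  (List.cons (C.node (nat_lit 0) (nat_lit 2) (nat_lit 9) (C.cons (nat_lit 581) (C.node (nat_lit 0) (nat_lit 2) (nat_lit 10) (C.cons (nat_lit 1037) (C.node (nat_lit 0) (nat_lit 2) (nat_lit 11) (C.cons (nat_lit 2053) (C.node (nat_lit 0) (nat_lit 3) (nat_lit 5) (C.cons (nat_lit 2089) (C.node (nat_lit 0) (nat_lit 4) (nat_lit 9) (C.cons (nat_lit 561) (C.pat (nat_lit 2) (nat_lit 35772339825) (nat_lit 7336997234375757356087818151084789836992938545)) (C.cons (nat_lit 529) (C.node (nat_lit 0) (nat_lit 5) (nat_lit 9) C.nil) C.nil))) (C.cons (nat_lit 41) (C.node (nat_lit 0) (nat_lit 3) (nat_lit 11) C.nil) C.nil))) C.nil)) (C.cons (nat_lit 1029) (C.node (nat_lit 0) (nat_lit 2) (nat_lit 3) (C.cons (nat_lit 2061) (C.node (nat_lit 0) (nat_lit 3) (nat_lit 5) (C.cons (nat_lit 1065) (C.node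 (nat_lit 0) (nat_lit 4) (nat_lit 9) (C.cons (nat_lit 561) (C.pat (nat_lit 2) (nat_lit 35772339825) (nat_lit 7336997234375757356087818151084789836992938545)) (C.cons (nat_lit 529) (C.node (nat_lit 0) (nat_lit 5) (nat_lit 9) C.nil) C.nil))) (C.cons (nat_lit 41) (C.node (nat_lit 0) (nat_lit 3) (nat_lit 10) C.nil) C.nil))) (C.cons (nat_lit 13) (C.node (nat_lit 0) (nat_lit 2) (nat_lit 11) C.nil) C.nil))) C.nil))) (C.cons (nat_lit 517) (C.node (nat_lit 0) (nat_lit 2) (nat_lit 3) (C.cons (nat_lit 2061) (C.ref (nat_lit 120) (nat_lit 205163983024656)) (C.cons (nat_lit 1037) (C.ref (nat_lit 120) (nat_lit 188671308608016)) (C.cons (nat_lit 13) (C.node (nat_lit 0) (nat_lit 2) (nat_lit 10) (C.cons (nat_lit 1093) (C.node (nat_lit 0) (nat_lit 2) (nat_lit 11) C.nil) C.nil)) C.nil)))) C.nil))) (List.cons (C.node (nat_lit 0) (nat_lit 2) (nat_lit 9) (C.cons (nat_lit 581) (C.node (nat_lit 0) (nat_lit 2) (nat_lit 4) (C.cons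 (nat_lit 1045) (C.node (nat_lit 0) (nat_lit 6) (nat_lit 10) C.nil) C.nil)) (C.cons (nat_lit 533) (C.node (nat_lit 0) (nat_lit 2) (nat_lit 6) (C.cons (nat_lit 1093) (C.node (nat_lit 0) (nat_lit 4) (nat_lit 10) C.nil) C.nil)) C.nil))) (List.cons (C.node (nat_lit 0) (nat_lit 2) (nat_lit 3) (C.cons (nat_lit 2061) (C.node (nat_lit 0) (nat_lit 3) (nat_lit 5) (C.cons (nat_lit 1065) (C.ref (nat_lit 122) (nat_lit 205163983024656)) C.nil)) (C.cons (nat_lit 1037) (C.node (nat_lit 0) (nat_lit 3) (nat_lit 5) (C.cons (nat_lit 2089) (C.ref (nat_lit 122) (nat_lit 188671308608016)) C.nil)) C.nil))) (List.cons (C.node (nat_lit 0) (nat_lit 1) (nat_lit 4) (C.cons (nat_lit 1043) (C.node (nat_lit 0) (nat_lit 2) (nat_lit 3) (C.cons (nat_lit 1037) (C.ref (nat_lit 103) (nat_lit 171147842040336)) (C.cons (nat_lit 13) (C.node (nat_lit 0) (nat_lit 3) (nat_lit 10) (C.cons (nat_lit 1033) (C.ref (nat_lit 116) (nat_lit 184411222053936))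 C.nil)) C.nil))) (C.cons (nat_lit 19) (C.node (nat_lit 0) (nat_lit 1) (nat_lit 10) (C.cons (nat_lit 1027) (C.node (nat_lit 0) (nat_lit 2) (nat_lit 3) (C.cons (nat_lit 1037) (C.ref (nat_lit 116) (nat_lit 186609724305936)) (C.cons (nat_lit 13) (C.node (nat_lit 0) (nat_lit 3) (nat_lit 10) (C.cons (nat_lit 1033) (C.node (nat_lit 0) (nat_lit 2) (nat_lit 4) (C.cons (nat_lit 1045) (C.node (nat_lit 0) (nat_lit 2) (nat_lit 6) (C.cons (nat_lit 2117) (C.node (nat_lit 0) (nat_lit 4) (nat_lit 5) (C.cons (nat_lit 2097) (C.pat (nat_lit 3) (nat_lit 18578807223) (nat_lit 13224530089765981040896022898738631165543124865)) C.nil)) C.nil)) (C.cons (nat_lit 2069) (C.node (nat_lit 0) (nat_lit 2) (nat_lit 6) (C.cons (nat_lit 1093) (C.node (nat_lit 0) (nat_lit 4) (nat_lit 5) (C.cons (nat_lit 1073) (C.node (nat_lit 0) (nat_lit 5) (nat_lit 6) (C.cons (nat_lit 2145) (C.pat (nat_lit 6) (nat_lit 103954413147) (nat_lit 5800703678893366348027963275827680627854446073807941))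 C.nil)) C.nil)) C.nil)) C.nil))) C.nil)) C.nil))) C.nil)) C.nil))) (List.cons (C.node (nat_lit 0) (nat_lit 2) (nat_lit 4) (C.cons (nat_lit 2069) (C.node (nat_lit 0) (nat_lit 3) (nat_lit 11) (C.cons (nat_lit 2057) (C.node (nat_lit 0) (nat_lit 4) (nat_lit 5) (C.cons (nat_lit 49) (C.node (nat_lit 0) (nat_lit 2) (nat_lit 3) (C.cons (nat_lit 1037) (C.node (nat_lit 0) (nat_lit 2) (nat_lit 6) C.nil) C.nil)) C.nil)) C.nil))
  (C.cons (nat_lit 21) (C.node (nat_lit 0) (nat_lit 3) (nat_lit 10) (C.cons (nat_lit 1037) (C.node (nat_lit 0) (nat_lit 3) (nat_lit 11) (C.cons (nat_lit 2057) (C.node (nat_lit 0) (nat_lit 2) (nat_lit 6) (C.cons (nat_lit 2117) (C.node (nat_lit 0) (nat_lit 4) (nat_lit 5) (C.cons (nat_lit 2097) (C.node (nat_lit 0) (nat_lit 5) (nat_lit 6) (C.cons (nat_lit 1121) (C.pat (nat_lit 3) (nat_lit 5471689127) (nat_lit 11574288550896625310690780730423983676225556353)) C.nil)) C.nil)) C.nil)) C.nil))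 (C.cons (nat_lit 1033) (C.node (nat_lit 0) (nat_lit 2) (nat_lit 3) (C.cons (nat_lit 2061) (C.node (nat_lit 0) (nat_lit 2) (nat_lit 6) (C.cons (nat_lit 1093) (C.node (nat_lit 0) (nat_lit 5) (nat_lit 10) C.nil) C.nil)) C.nil)) C.nil))) C.nil))) (List.cons (C.node (nat_lit 0) (nat_lit 1) (nat_lit 4) (C.cons (nat_lit 1043) (C.node (nat_lit 0) (nat_lit 2) (nat_lit 3) (C.cons (nat_lit 1037) (C.ref (nat_lit 105) (nat_lit 171147842040336)) (C.cons (nat_lit 13) (C.node (nat_lit 0) (nat_lit 3) (nat_lit 10) (C.cons (nat_lit 1033) (C.node (nat_lit 0) (nat_lit 2) (nat_lit 10) (C.cons (nat_lit 1093) (C.node (nat_lit 0) (nat_lit 5) (nat_lit 10) C.nil) C.nil)) C.nil)) C.nil))) (C.cons (nat_lit 19) (C.node (nat_lit 0) (nat_lit 1) (nat_lit 10) (C.cons (nat_lit 1027) (C.node (nat_lit 0) (nat_lit 2) (nat_lit 3) (C.cons (nat_lit 1037) (C.node (nat_lit 0) (nat_lit 2) (nat_lit 4) (C.cons (nat_lit 2069) (C.node (nat_lit 0)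 (nat_lit 2) (nat_lit 6) C.nil) (C.cons (nat_lit 85) (C.node (nat_lit 0) (nat_lit 2) (nat_lit 11) C.nil) C.nil))) C.nil)) C.nil)) C.nil))) (List.cons (C.node (nat_lit 0) (nat_lit 1) (nat_lit 3) (C.cons (nat_lit 2059) (C.ref (nat_lit 126) (nat_lit 205163983024656)) (C.cons (nat_lit 1035) (C.ref (nat_lit 126) (nat_lit 188671308608016)) (C.cons (nat_lit 11) (C.node (nat_lit 0) (nat_lit 1) (nat_lit 10) (C.cons (nat_lit 1043) (C.node (nat_lit 0) (nat_lit 1) (nat_lit 11) (C.cons (nat_lit 2051) (C.node (nat_lit 0) (nat_lit 3) (nat_lit 10) (C.cons (nat_lit 1037) (C.node (nat_lit 0) (nat_lit 3) (nat_lit 11) C.nil) C.nil)) C.nil)) (C.cons (nat_lit 1027) (C.node (nat_lit 0) (nat_lit 1) (nat_lit 4) (C.cons (nat_lit 2067) (C.node (nat_lit 0) (nat_lit 3) (nat_lit 11) (C.cons (nat_lit 2061) (C.node (nat_lit 0) (nat_lit 3) (nat_lit 10) C.nil) C.nil)) C.nil)) C.nil))) C.nil)))) (List.cons (C.node (nat_lit 0) (nat_lit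 1) (nat_lit 4) (C.cons (nat_lit 1043) (C.node (nat_lit 0) (nat_lit 2) (nat_lit 3) (C.cons (nat_lit 1037) (C.node (nat_lit 0) (nat_lit 3) (nat_lit 5) (C.cons (nat_lit 41) (C.ref (nat_lit 107) (nat_lit 171147842040336)) C.nil)) (C.cons (nat_lit 13) (C.node (nat_lit 0) (nat_lit 2) (nat_lit 10) (C.cons (nat_lit 1093) (C.node (nat_lit 0) (nat_lit 2) (nat_lit 4) (C.cons (nat_lit 2069) (C.node (nat_lit 0) (nat_lit 3) (nat_lit 5) (C.cons (nat_lit 1065) (C.ref (nat_lit 90) (nat_lit 151421830115856)) (C.cons (nat_lit 41) (C.node (nat_lit 0) (nat_lit 3) (nat_lit 10) (C.cons (nat_lit 1033) (C.node (nat_lit 0) (nat_lit 5) (nat_lit 10) C.nil) C.nil)) C.nil))) (C.cons (nat_lit 21) (C.node (nat_lit 0) (nat_lit 2) (nat_lit 11) (C.cons (nat_lit 2053) (C.node (nat_lit 0) (nat_lit 3) (nat_lit 5) (C.cons (nat_lit 1065) (C.ref (nat_lit 94) (nat_lit 153495525466896)) C.nil)) C.nil)) C.nil))) (C.cons (nat_lit 1029) (C.node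 (nat_lit 0) (nat_lit 3) (nat_lit 5) (C.cons (nat_lit 1065) (C.node (nat_lit 0) (nat_lit 6) (nat_lit 10) (C.cons (nat_lit 1089) (C.ref (nat_lit 109) (nat_lit 171147842040336)) C.nil)) (C.cons (nat_lit 41) (C.node (nat_lit 0) (nat_lit 3) (nat_lit 10) C.nil) C.nil))) C.nil))) C.nil))) (C.cons (nat_lit 19) (C.node (nat_lit 0) (nat_lit 1) (nat_lit 10) (C.cons (nat_lit 1027) (C.node (nat_lit 0) (nat_lit 2) (nat_lit 3) (C.cons (nat_lit 1037) (C.node (nat_lit 0) (nat_lit 3) (nat_lit 5) (C.cons (nat_lit 41) (C.node (nat_lit 0) (nat_lit 2) (nat_lit 4) (C.cons (nat_lit 2069) (C.node (nat_lit 0) (nat_lit 2) (nat_lit 6) C.nil) (C.cons (nat_lit 85) (C.node (nat_lit 0) (nat_lit 2) (nat_lit 11) C.nil) C.nil))) C.nil)) (C.cons (nat_lit 13)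
  (C.node (nat_lit 0) (nat_lit 3) (nat_lit 5) (C.cons (nat_lit 1065) (C.ref (nat_lit 118) (nat_lit 186609724305936)) C.nil)) C.nil))) C.nil)) C.nil))) (List.cons (C.node (nat_lit 0) (nat_lit 1) (nat_lit 3) (C.cons (nat_lit 2059) (C.node (nat_lit 0) (nat_lit 1) (nat_lit 2) (C.cons (nat_lit 23) (C.node (nat_lit 0) (nat_lit 1) (nat_lit 10) (C.cons (nat_lit 1027) (C.node (nat_lit 0) (nat_lit 2) (nat_lit 11) (C.cons (nat_lit 2053) (C.node (nat_lit 0) (nat_lit 4) (nat_lit 11) (C.cons (nat_lit 2129) (C.node (nat_lit 0) (nat_lit 5) (nat_lit 11) C.nil) (C.cons (nat_lit 2097) (C.node (nat_lit 0) (nat_lit 6) (nat_lit 11) C.nil) C.nil))) C.nil)) C.nil)) (C.cons (nat_lit 7) (C.node (nat_lit 0) (nat_lit 1) (nat_lit 4) (C.cons (nat_lit 1043) (C.node (nat_lit 0) (nat_lit 2) (nat_lit 4) (C.cons (nat_lit 2069) (C.node (nat_lit 0) (nat_lit 4) (nat_lit 5) (C.cons (nat_lit 113) (C.node (nat_lit 0) (nat_lit 5) (nat_lit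 10) (C.cons (nat_lit 1057) (C.node (nat_lit 0) (nat_lit 5) (nat_lit 11) C.nil) C.nil)) (C.cons (nat_lit 49) (C.node (nat_lit 0) (nat_lit 4) (nat_lit 6) C.nil) C.nil))) (C.cons (nat_lit 21) (C.node (nat_lit 0) (nat_lit 2) (nat_lit 11) C.nil) C.nil))) (C.cons (nat_lit 19) (C.node (nat_lit 0) (nat_lit 1) (nat_lit 10) C.nil) C.nil))) C.nil))) (C.cons (nat_lit 11) (C.node (nat_lit 0) (nat_lit 3) (nat_lit 11) (C.cons (nat_lit 2057) (C.node (nat_lit 0) (nat_lit 1) (nat_lit 10) (C.cons (nat_lit 1043) (C.node (nat_lit 0) (nat_lit 1) (nat_lit 2) (C.cons (nat_lit 2055) (C.node (nat_lit 0) (nat_lit 2) (nat_lit 4) C.nil) C.nil)) C.nil)) C.nil)) C.nil))) (List.cons (C.node (nat_lit 0) (nat_lit 3) (nat_lit 11) (C.cons (nat_lit 2061) (C.node (nat_lit 0) (nat_lit 1) (nat_lit 2) (C.cons (nat_lit 1031) (C.node (nat_lit 0) (nat_lit 1) (nat_lit 3) (C.cons (nat_lit 11) (C.node (nat_lit 0) (nat_lit 2) (nat_lit 6) (C.cons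 (nat_lit 69) (C.node (nat_lit 0) (nat_lit 3) (nat_lit 10) C.nil) C.nil)) C.nil)) (C.cons (nat_lit 7) (C.node (nat_lit 0) (nat_lit 1) (nat_lit 3) (C.cons (nat_lit 1035) (C.node (nat_lit 0) (nat_lit 2) (nat_lit 6) (C.cons (nat_lit 1093) (C.node (nat_lit 0) (nat_lit 4) (nat_lit 6) (C.cons (nat_lit 113) (C.node (nat_lit 0) (nat_lit 4) (nat_lit 10) (C.cons (nat_lit 1041) (C.node (nat_lit 0) (nat_lit 5) (nat_lit 10) C.nil) C.nil)) (C.cons (nat_lit 81) (C.node (nat_lit 0) (nat_lit 4) (nat_lit 5) (C.cons (nat_lit 1073) (C.node (nat_lit 0) (nat_lit 5) (nat_lit 6) (C.cons (nat_lit 2145) (C.pat (nat_lit 3) (nat_lit 10287664039) (nat_lit 45962565765523922177734882622580729815617834881)) C.nil)) C.nil)) C.nil))) (C.cons (nat_lit 69) (C.node (nat_lit 0) (nat_lit 2) (nat_lit 10) C.nil) C.nil))) (C.cons (nat_lit 11) (C.node (nat_lit 0) (nat_lit 1) (nat_lit 10) C.nil) C.nil))) C.nil))) (C.cons (nat_lit 2057) (C.node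 (nat_lit 0) (nat_lit 2) (nat_lit 11) (C.cons (nat_lit 2117) (C.node (nat_lit 0) (nat_lit 5) (nat_lit 11) (C.cons (nat_lit 2081) (C.node (nat_lit 0) (nat_lit 1) (nat_lit 2) (C.cons (nat_lit 1031) (C.node (nat_lit 0) (nat_lit 1) (nat_lit 3) C.nil) (C.cons (nat_lit 15) (C.pat (nat_lit 4) (nat_lit 380564173106) (nat_lit 5800700333258905033386521414393885537675074056945817)) C.nil))) C.nil)) (C.cons (nat_lit 2053) (C.node (nat_lit 0) (nat_lit 2) (nat_lit 6) (C.cons (nat_lit 1093) (C.node (nat_lit 0) (nat_lit 1) (nat_lit 2) (C.cons (nat_lit 15) (C.node (nat_lit 0) (nat_lit 1) (nat_lit 10) C.nil) C.nil)) C.nil)) C.nil))) C.nil))) (List.cons (C.node (nat_lit 0) (nat_lit 3) (nat_lit 10) (C.cons (nat_lit 1037) (C.node (nat_lit 0) (nat_lit 1) (nat_lit 3) (C.cons (nat_lit 2059) (C.node (nat_lit 0) (nat_lit 1) (nat_lit 2) (C.cons (nat_lit 23) (C.node (nat_lit 0) (nat_lit 1) (nat_lit 10) C.nil) C.nil)) C.nil)) (C.cons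 (nat_lit 1035) (C.node (nat_lit 0) (nat_lit 2) (nat_lit 3) (C.cons (nat_lit 2061) (C.node (nat_lit 0) (nat_lit 1) (nat_lit 2) (C.cons (nat_lit 23) (C.node (nat_lit 0) (nat_lit 1) (nat_lit 11) C.nil) C.nil)) C.nil)) C.nil))) (List.cons (C.node (nat_lit 0) (nat_lit 1) (nat_lit 2) (C.cons (nat_lit 1031)
  (C.node (nat_lit 0) (nat_lit 1) (nat_lit 4) (C.cons (nat_lit 19) (C.node (nat_lit 0) (nat_lit 4) (nat_lit 10) (C.cons (nat_lit 1105) (C.ref (nat_lit 116) (nat_lit 170117049889296)) (C.cons (nat_lit 1041) (C.node (nat_lit 0) (nat_lit 6) (nat_lit 10) (C.cons (nat_lit 1089) (C.node (nat_lit 0) (nat_lit 2) (nat_lit 4) (C.cons (nat_lit 2069) (C.node (nat_lit 0) (nat_lit 2) (nat_lit 6) C.nil) (C.cons (nat_lit 85) (C.node (nat_lit 0) (nat_lit 2) (nat_lit 11) C.nil) C.nil))) C.nil)) C.nil))) C.nil)) (C.cons (nat_lit 23) (C.node (nat_lit 0) (nat_lit 1) (nat_lit 10) (C.cons (nat_lit 1027) (C.node (nat_lit 0) (nat_lit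 2) (nat_lit 10) (C.cons (nat_lit 1093) (C.node (nat_lit 0) (nat_lit 2) (nat_lit 11) (C.cons (nat_lit 2053) (C.node (nat_lit 0) (nat_lit 4) (nat_lit 10) (C.cons (nat_lit 1041) (C.node (nat_lit 0) (nat_lit 4) (nat_lit 11) (C.cons (nat_lit 2129) (C.node (nat_lit 0) (nat_lit 5) (nat_lit 11) C.nil) (C.cons (nat_lit 2097) (C.node (nat_lit 0) (nat_lit 6) (nat_lit 11) C.nil) C.nil))) C.nil)) C.nil)) (C.cons (nat_lit 1029) (C.node (nat_lit 0) (nat_lit 2) (nat_lit 6) (C.cons (nat_lit 2117) (C.node (nat_lit 0) (nat_lit 4) (nat_lit 11) (C.cons (nat_lit 2097) (C.pat (nat_lit 2) (nat_lit 35772348017) (nat_lit 7336997234375757357944728210012866846411393073)) (C.cons (nat_lit 2065) (C.node (nat_lit 0) (nat_lit 5) (nat_lit 11) C.nil) C.nil))) (C.cons (nat_lit 69) (C.node (nat_lit 0) (nat_lit 2) (nat_lit 11) C.nil) C.nil))) C.nil))) C.nil)) (C.cons (nat_lit 7) (C.node (nat_lit 0) (nat_lit 1) (nat_lit 4) (C.cons (nat_lit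 1043) (C.node (nat_lit 0) (nat_lit 2) (nat_lit 10) (C.cons (nat_lit 1093) (C.node (nat_lit 0) (nat_lit 2) (nat_lit 4) (C.cons (nat_lit 2069) (C.ref (nat_lit 90) (nat_lit 151433908720176)) (C.cons (nat_lit 21) (C.node (nat_lit 0) (nat_lit 2) (nat_lit 11) (C.cons (nat_lit 2053) (C.ref (nat_lit 94) (nat_lit 153483429159216)) C.nil)) C.nil))) (C.cons (nat_lit 1029) (C.node (nat_lit 0) (nat_lit 6) (nat_lit 10) (C.cons (nat_lit 1089) (C.ref (nat_lit 109) (nat_lit 171018959589936)) C.nil)) C.nil))) (C.cons (nat_lit 19) (C.node (nat_lit 0) (nat_lit 1) (nat_lit 10) (C.cons (nat_lit 1027) (C.ref (nat_lit 122) (nat_lit 170117049889296)) C.nil)) C.nil))) C.nil)))) (List.cons (C.node (nat_lit 0) (nat_lit 1) (nat_lit 2) (C.cons (nat_lit 1031) (C.node (nat_lit 0) (nat_lit 1) (nat_lit 4) (C.cons (nat_lit 19) (C.node (nat_lit 0) (nat_lit 2) (nat_lit 4) (C.cons (nat_lit 2069) (C.node (nat_lit 0) (nat_lit 2) (nat_lit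 6) C.nil) (C.cons (nat_lit 85) (C.node (nat_lit 0) (nat_lit 2) (nat_lit 11) C.nil) C.nil))) C.nil)) (C.cons (nat_lit 23) (C.node (nat_lit 0) (nat_lit 1) (nat_lit 10) (C.cons (nat_lit 1027) (C.node (nat_lit 0) (nat_lit 2) (nat_lit 10) (C.cons (nat_lit 1093) (C.node (nat_lit 0) (nat_lit 2) (nat_lit 11) C.nil) C.nil)) C.nil)) (C.cons (nat_lit 7) (C.node (nat_lit 0) (nat_lit 1) (nat_lit 4) (C.cons (nat_lit 1043) (C.node (nat_lit 0) (nat_lit 2) (nat_lit 10) (C.cons (nat_lit 1093) (C.node (nat_lit 0) (nat_lit 5) (nat_lit 10) C.nil) C.nil)) C.nil)) C.nil)))) (List.cons (C.node (nat_lit 0) (nat_lit 1) (nat_lit 10) (C.cons (nat_lit 1043) (C.node (nat_lit 0) (nat_lit 1) (nat_lit 2) (C.cons (nat_lit 2055) (C.node (nat_lit 0) (nat_lit 2) (nat_lit 4) (C.cons (nat_lit 85) (C.node (nat_lit 0) (nat_lit 2) (nat_lit 10) (C.cons (nat_lit 1029) (C.node (nat_lit 0) (nat_lit 6) (nat_lit 10) C.nil) C.nil)) (C.cons (nat_lit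 21) (C.node (nat_lit 0) (nat_lit 2) (nat_lit 6) (C.cons (nat_lit 1093) (C.node (nat_lit 0) (nat_lit 5) (nat_lit 11) (C.cons (nat_lit 2145) (C.node (nat_lit 0) (nat_lit 4) (nat_lit 11) C.nil) (C.cons (nat_lit 2097) (C.node (nat_lit 0) (nat_lit 6) (nat_lit 11) C.nil) C.nil))) C.nil)) C.nil))) (C.cons (nat_lit 7) (C.node (nat_lit 0) (nat_lit 1) (nat_lit 11) C.nil) C.nil))) (C.cons (nat_lit 1031) (C.node (nat_lit 0) (nat_lit 1) (nat_lit 4) (C.cons (nat_lit 2067) (C.node (nat_lit 0) (nat_lit 2) (nat_lit 4) (C.cons (nat_lit 85) (C.node (nat_lit 0) (nat_lit 2) (nat_lit 11) (C.cons (nat_lit 2053)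
  (C.node (nat_lit 0) (nat_lit 4) (nat_lit 10) C.nil) C.nil)) (C.cons (nat_lit 21) (C.node (nat_lit 0) (nat_lit 2) (nat_lit 6) (C.cons (nat_lit 2117) (C.node (nat_lit 0) (nat_lit 5) (nat_lit 11) C.nil) C.nil)) C.nil))) (C.cons (nat_lit 19) (C.node (nat_lit 0) (nat_lit 1) (nat_lit 11) C.nil) C.nil))) (C.cons (nat_lit 1027) (C.node (nat_lit 0) (nat_lit 1) (nat_lit 2) (C.cons (nat_lit 2055) (C.node (nat_lit 0) (nat_lit 1) (nat_lit 4) C.nil) (C.cons (nat_lit 23) (C.node (nat_lit 0) (nat_lit 1) (nat_lit 11) C.nil) C.nil))) C.nil)))) (List.cons (C.node (nat_lit 0) (nat_lit 1) (nat_lit 11) (C.cons (nat_lit 2055) (C.node (nat_lit 0) (nat_lit 1) (nat_lit 3) (C.cons (nat_lit 1035) (C.node (nat_lit 0) (nat_lit 1) (nat_lit 4) (C.cons (nat_lit 19) (C.node (nat_lit 0) (nat_lit 2) (nat_lit 3) (C.cons (nat_lit 13) (C.node (nat_lit 0) (nat_lit 4) (nat_lit 2) (C.cons (nat_lit 1045) (C.pat (nat_lit 6) (nat_lit 103954347610)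 (nat_lit 5800703678544911887388939149577693270500886160933445)) C.nil)) C.nil)) C.nil)) (C.cons (nat_lit 11) (C.node (nat_lit 0) (nat_lit 1) (nat_lit 4) (C.cons (nat_lit 1043) (C.node (nat_lit 0) (nat_lit 2) (nat_lit 4) (C.cons (nat_lit 21) (C.node (nat_lit 0) (nat_lit 2) (nat_lit 3) (C.cons (nat_lit 1037) (C.pat (nat_lit 3) (nat_lit 5471689639) (nat_lit 45828755849555253019426433799536952557732958081)) C.nil)) C.nil)) (C.cons (nat_lit 19) (C.node (nat_lit 0) (nat_lit 1) (nat_lit 10) C.nil) C.nil))) C.nil))) (C.cons (nat_lit 2051) (C.node (nat_lit 0) (nat_lit 2) (nat_lit 11) (C.cons (nat_lit 2053) (C.ref (nat_lit 104) (nat_lit 205099490173776)) C.nil)) C.nil))) (List.cons (C.node (nat_lit 0) (nat_lit 5) (nat_lit 6) (C.cons (nat_lit 1121) (C.node (nat_lit 0) (nat_lit 4) (nat_lit 6) (C.cons (nat_lit 2129) (C.ref (nat_lit 135) (nat_lit 205163983024656)) (C.cons (nat_lit 81) (C.node (nat_lit 0) (nat_lit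 6) (nat_lit 11) (C.cons (nat_lit 2113) (C.ref (nat_lit 106) (nat_lit 205099490173776)) C.nil)) C.nil))) (C.cons (nat_lit 97) (C.node (nat_lit 0) (nat_lit 5) (nat_lit 10) (C.cons (nat_lit 1057) (C.node (nat_lit 0) (nat_lit 6) (nat_lit 10) (C.cons (nat_lit 1105) (C.node (nat_lit 0) (nat_lit 6) (nat_lit 11) C.nil) C.nil)) C.nil)) C.nil))) (List.cons (C.node (nat_lit 0) (nat_lit 4) (nat_lit 5) (C.cons (nat_lit 1073) (C.node (nat_lit 0) (nat_lit 4) (nat_lit 6) (C.cons (nat_lit 81) (C.node (nat_lit 0) (nat_lit 3) (nat_lit 5) (C.cons (nat_lit 2089) (C.node (nat_lit 0) (nat_lit 2) (nat_lit 11) (C.cons (nat_lit 2117) (C.node (nat_lit 0) (nat_lit 6) (nat_lit 10) (C.cons (nat_lit 1089) (C.ref (nat_lit 89) (nat_lit 152400240403536)) C.nil)) (C.cons (nat_lit 2053) (C.node (nat_lit 0) (nat_lit 6) (nat_lit 11) C.nil) C.nil))) (C.cons (nat_lit 41) (C.node (nat_lit 0) (nat_lit 5) (nat_lit 11) C.nil) C.nil))) C.nil))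 (C.cons (nat_lit 49) (C.node (nat_lit 0) (nat_lit 4) (nat_lit 6) (C.cons (nat_lit 1105) (C.node (nat_lit 0) (nat_lit 2) (nat_lit 6) (C.cons (nat_lit 2117) (C.node (nat_lit 0) (nat_lit 3) (nat_lit 11) (C.cons (nat_lit 2089) (C.node (nat_lit 0) (nat_lit 5) (nat_lit 10) (C.cons (nat_lit 1057) (C.ref (nat_lit 89) (nat_lit 152384132306016)) C.nil)) (C.cons (nat_lit 2057) (C.node (nat_lit 0) (nat_lit 5) (nat_lit 11) C.nil) C.nil))) (C.cons (nat_lit 69) (C.node (nat_lit 0) (nat_lit 6) (nat_lit 11) C.nil) C.nil))) (C.cons (nat_lit 81) (C.node (nat_lit 0) (nat_lit 4) (nat_lit 10) C.nil) C.nil))) C.nil))) (List.cons (C.node (nat_lit 0) (nat_lit 1) (nat_lit 4) (C.cons (nat_lit 2067) (C.node (nat_lit 0) (nat_lit 1) (nat_lit 2) (C.cons (nat_lit 1031) (C.node (nat_lit 0) (nat_lit 1) (nat_lit 3) C.nil) (C.cons (nat_lit 15) (C.node (nat_lit 0) (nat_lit 1) (nat_lit 10) C.nil) C.nil))) (C.cons (nat_lit 1043) (C.node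 (nat_lit 0) (nat_lit 1) (nat_lit 2) (C.cons (nat_lit 2055) (C.node (nat_lit 0) (nat_lit 1) (nat_lit 3) C.nil) (C.cons (nat_lit 15) (C.node (nat_lit 0) (nat_lit 1) (nat_lit 11) C.nil) C.nil))) C.nil))) (List.cons (C.node (nat_lit 0) (nat_lit 1) (nat_lit 3) (C.cons (nat_lit 1035) (C.node (nat_lit 0) (nat_lit 2) (nat_lit 3)
  (C.cons (nat_lit 13) (C.node (nat_lit 0) (nat_lit 1) (nat_lit 2) (C.cons (nat_lit 2055) (C.node (nat_lit 0) (nat_lit 1) (nat_lit 4) C.nil) (C.cons (nat_lit 23) (C.node (nat_lit 0) (nat_lit 1) (nat_lit 11) C.nil) C.nil))) C.nil)) (C.cons (nat_lit 15) (C.node (nat_lit 0) (nat_lit 3) (nat_lit 10) (C.cons (nat_lit 1033) (C.node (nat_lit 0) (nat_lit 1) (nat_lit 10) (C.cons (nat_lit 1043) (C.node (nat_lit 0) (nat_lit 1) (nat_lit 11) C.nil) C.nil)) C.nil)) (C.cons (nat_lit 11) (C.node (nat_lit 0) (nat_lit 2) (nat_lit 3) (C.cons (nat_lit 1037) (C.node (nat_lit 0) (nat_lit 1) (nat_lit 10)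 (C.cons (nat_lit 1043) (C.node (nat_lit 0) (nat_lit 1) (nat_lit 2) (C.cons (nat_lit 2055) (C.node (nat_lit 0) (nat_lit 2) (nat_lit 4) (C.cons (nat_lit 85) (C.node (nat_lit 0) (nat_lit 4) (nat_lit 11) C.nil) C.nil)) C.nil)) C.nil)) C.nil)) C.nil)))) List.nil)))))))))))))))))))

theorem ok12_121 : okL par12 (nat_lit 140) c12_121 (nat_lit 121) = true := by decide +kernel

noncomputable def c12_140 : List C :=
  (List.cons (C.node (nat_lit 0) (nat_lit 1) (nat_lit 9) (C.cons (nat_lit 531) (C.node (nat_lit 0) (nat_lit 1) (nat_lit 10) (C.cons (nat_lit 1035) (C.node (nat_lit 0) (nat_lit 1) (nat_lit 2) (C.cons (nat_lit 2055) (C.ref (nat_lit 110) (nat_lit 205163983024656)) (C.cons (nat_lit 7) (C.node (nat_lit 0) (nat_lit 1) (nat_lit 11) (C.cons (nat_lit 2051) (C.ref (nat_lit 112) (nat_lit 205163983024656)) C.nil)) C.nil))) (C.cons (nat_lit 1031) (C.node (nat_lit 0) (nat_lit 1) (nat_lit 3) (C.cons (nat_lit 2059)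 (C.ref (nat_lit 110) (nat_lit 188671308608016)) (C.cons (nat_lit 11) (C.node (nat_lit 0) (nat_lit 1) (nat_lit 11) (C.cons (nat_lit 2051) (C.ref (nat_lit 115) (nat_lit 205163983024656)) C.nil)) C.nil))) (C.cons (nat_lit 1027) (C.node (nat_lit 0) (nat_lit 1) (nat_lit 2) (C.cons (nat_lit 2055) (C.node (nat_lit 0) (nat_lit 1) (nat_lit 3) (C.cons (nat_lit 11) (C.ref (nat_lit 115) (nat_lit 188671308608016)) C.nil)) (C.cons (nat_lit 15) (C.node (nat_lit 0) (nat_lit 1) (nat_lit 11) (C.cons (nat_lit 2051) (C.node (nat_lit 0) (nat_lit 2) (nat_lit 9) (C.cons (nat_lit 581) (C.node (nat_lit 0) (nat_lit 2) (nat_lit 10) (C.cons (nat_lit 1045) (C.node (nat_lit 0) (nat_lit 2) (nat_lit 11) (C.cons (nat_lit 2053) (C.node (nat_lit 0) (nat_lit 3) (nat_lit 9) (C.cons (nat_lit 553) (C.pat (nat_lit 1) (nat_lit 2556908321) (nat_lit 1511272842646404691096145684095893833)) (C.cons (nat_lit 521) (C.node (nat_lit 0) (nat_lit 5)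 (nat_lit 9) C.nil) C.nil))) C.nil)) (C.cons (nat_lit 1029) (C.node (nat_lit 0) (nat_lit 2) (nat_lit 4) (C.cons (nat_lit 2069) (C.node (nat_lit 0) (nat_lit 3) (nat_lit 9) (C.cons (nat_lit 553) (C.pat (nat_lit 1) (nat_lit 2556908321) (nat_lit 1511272842646404691096145684095893833)) (C.cons (nat_lit 521) (C.node (nat_lit 0) (nat_lit 5) (nat_lit 9) C.nil) C.nil))) (C.cons (nat_lit 21) (C.node (nat_lit 0) (nat_lit 2) (nat_lit 11) C.nil) C.nil))) C.nil))) (C.cons (nat_lit 517) (C.node (nat_lit 0) (nat_lit 3) (nat_lit 9) (C.cons (nat_lit 553) (C.node (nat_lit 0) (nat_lit 3) (nat_lit 10) (C.cons (nat_lit 1033) (C.node (nat_lit 0) (nat_lit 3) (nat_lit 11) C.nil) C.nil)) (C.cons (nat_lit 521) (C.node (nat_lit 0) (nat_lit 3) (nat_lit 10) (C.cons (nat_lit 1065) (C.node (nat_lit 0) (nat_lit 3) (nat_lit 11) C.nil) C.nil)) C.nil))) C.nil))) C.nil)) (C.cons (nat_lit 7) (C.node (nat_lit 0) (nat_lit 1) (nat_lit 3) (C.cons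 (nat_lit 2059) (C.ref (nat_lit 112) (nat_lit 188671308608016)) (C.cons (nat_lit 11) (C.node (nat_lit 0) (nat_lit 1) (nat_lit 11) (C.cons (nat_lit 2051) (C.node (nat_lit 0) (nat_lit 2) (nat_lit 9) (C.cons (nat_lit 581) (C.node (nat_lit 0) (nat_lit 3) (nat_lit 9) (C.cons (nat_lit 553) (C.node (nat_lit 0) (nat_lit 3) (nat_lit 10) (C.cons (nat_lit 1037) (C.node (nat_lit 0) (nat_lit 3) (nat_lit 11) C.nil) C.nil)) C.nil)) (C.cons (nat_lit 525) (C.node (nat_lit 0) (nat_lit 3) (nat_lit 10) (C.cons (nat_lit 1065) (C.node (nat_lit 0) (nat_lit 3) (nat_lit 11) C.nil) C.nil)) C.nil))) C.nil)) C.nil))) C.nil)))) C.nil)))) (C.cons (nat_lit 523) (C.node (nat_lit 0) (nat_lit 1) (nat_lit 10) (C.cons (nat_lit 1043) (C.node (nat_lit 0) (nat_lit 1) (nat_lit 2) (C.cons (nat_lit 2055) (C.ref (nat_lit 110) (nat_lit 204133190873616)) (C.cons (nat_lit 7) (C.node (nat_lit 0) (nat_lit 1) (nat_lit 11) (C.cons (nat_lit 2051) (C.ref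 (nat_lit 112) (nat_lit 204133190873616)) C.nil)) C.nil))) (C.cons (nat_lit 1031) (C.node (nat_lit 0) (nat_lit 1) (nat_lit 4) (C.cons (nat_lit 2067) (C.ref (nat_lit 110) (nat_lit 186609724305936)) (C.cons (nat_lit 19) (C.node (nat_lit 0) (nat_lit 1) (nat_lit 11) (C.cons (nat_lit 2051) (C.ref (nat_lit 119) (nat_lit 205163983024656)) C.nil)) C.nil))) (C.cons (nat_lit 1027) (C.node (nat_lit 0) (nat_lit 1) (nat_lit 2) (C.cons (nat_lit 2055) (C.node (nat_lit 0) (nat_lit 1) (nat_lit 4) (C.cons (nat_lit 19) (C.ref (nat_lit 119) (nat_lit 188671308608016)) C.nil)) (C.cons (nat_lit 23) (C.node (nat_lit 0) (nat_lit 1) (nat_lit 11) (C.cons (nat_lit 2051) (C.ref (nat_lit 121) (nat_lit 205163983024656)) C.nil)) (C.cons (nat_lit 7)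
  (C.node (nat_lit 0) (nat_lit 1) (nat_lit 4) (C.cons (nat_lit 2067) (C.ref (nat_lit 112) (nat_lit 186609724305936)) (C.cons (nat_lit 19) (C.node (nat_lit 0) (nat_lit 1) (nat_lit 11) (C.cons (nat_lit 2051) (C.ref (nat_lit 123) (nat_lit 205163983024656)) C.nil)) C.nil))) C.nil)))) C.nil)))) (C.cons (nat_lit 519) (C.node (nat_lit 0) (nat_lit 3) (nat_lit 9) (C.cons (nat_lit 553) (C.node (nat_lit 0) (nat_lit 4) (nat_lit 9) (C.cons (nat_lit 593) (C.node (nat_lit 0) (nat_lit 1) (nat_lit 3) (C.cons (nat_lit 2059) (C.ref (nat_lit 124) (nat_lit 205163983024656)) (C.cons (nat_lit 1035) (C.ref (nat_lit 124) (nat_lit 188671308608016)) (C.cons (nat_lit 11) (C.node (nat_lit 0) (nat_lit 1) (nat_lit 10) (C.cons (nat_lit 1043) (C.node (nat_lit 0) (nat_lit 1) (nat_lit 11) (C.cons (nat_lit 2051) (C.ref (nat_lit 125) (nat_lit 205163983024656)) C.nil)) (C.cons (nat_lit 1027) (C.node (nat_lit 0) (nat_lit 1) (nat_lit 4)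 (C.cons (nat_lit 2067) (C.ref (nat_lit 125) (nat_lit 188671308608016)) (C.cons (nat_lit 19) (C.node (nat_lit 0) (nat_lit 1) (nat_lit 11) (C.cons (nat_lit 2051) (C.node (nat_lit 0) (nat_lit 3) (nat_lit 10) (C.cons (nat_lit 1037) (C.node (nat_lit 0) (nat_lit 3) (nat_lit 11) C.nil) C.nil)) C.nil)) C.nil))) C.nil))) C.nil)))) (C.cons (nat_lit 529) (C.node (nat_lit 0) (nat_lit 6) (nat_lit 9) (C.cons (nat_lit 577) (C.ref (nat_lit 127) (nat_lit 205163983024656)) C.nil)) C.nil))) (C.cons (nat_lit 521) (C.node (nat_lit 0) (nat_lit 1) (nat_lit 3) (C.cons (nat_lit 2059) (C.ref (nat_lit 128) (nat_lit 205163983024656)) (C.cons (nat_lit 1035) (C.ref (nat_lit 128) (nat_lit 188671308608016)) (C.cons (nat_lit 11) (C.node (nat_lit 0) (nat_lit 1) (nat_lit 10) (C.cons (nat_lit 1043) (C.node (nat_lit 0) (nat_lit 1) (nat_lit 11) (C.cons (nat_lit 2051) (C.ref (nat_lit 114) (nat_lit 204133190873616)) C.nil)) (C.cons (nat_lit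 1027) (C.node (nat_lit 0) (nat_lit 1) (nat_lit 4) (C.cons (nat_lit 2067) (C.ref (nat_lit 114) (nat_lit 186609724305936)) (C.cons (nat_lit 19) (C.node (nat_lit 0) (nat_lit 1) (nat_lit 11) C.nil) C.nil))) C.nil))) C.nil)))) C.nil))) (C.cons (nat_lit 515) (C.node (nat_lit 0) (nat_lit 3) (nat_lit 9) (C.cons (nat_lit 553) (C.node (nat_lit 0) (nat_lit 2) (nat_lit 9) (C.cons (nat_lit 581) (C.node (nat_lit 0) (nat_lit 4) (nat_lit 9) (C.cons (nat_lit 529) (C.node (nat_lit 0) (nat_lit 3) (nat_lit 10) (C.cons (nat_lit 1037) (C.ref (nat_lit 129) (nat_lit 205163983024656)) (C.cons (nat_lit 1035) (C.ref (nat_lit 129) (nat_lit 205099542786336)) (C.cons (nat_lit 1033) (C.node (nat_lit 0) (nat_lit 1) (nat_lit 3) (C.cons (nat_lit 2059) (C.node (nat_lit 0) (nat_lit 2) (nat_lit 3) (C.cons (nat_lit 13) (C.node (nat_lit 0) (nat_lit 2) (nat_lit 11) (C.cons (nat_lit 2069) (C.node (nat_lit 0) (nat_lit 2) (nat_lit 1) (C.cons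 (nat_lit 1031) (C.node (nat_lit 0) (nat_lit 1) (nat_lit 4) C.nil) C.nil)) C.nil)) C.nil)) (C.cons (nat_lit 15) (C.pat (nat_lit 1) (nat_lit 2556908321) (nat_lit 1511272842646404691096145684095893833)) (C.cons (nat_lit 11) (C.node (nat_lit 0) (nat_lit 2) (nat_lit 3) (C.cons (nat_lit 2061) (C.node (nat_lit 0) (nat_lit 1) (nat_lit 11) (C.cons (nat_lit 2067) (C.node (nat_lit 0) (nat_lit 1) (nat_lit 2) (C.cons (nat_lit 1031) (C.node (nat_lit 0) (nat_lit 2) (nat_lit 4) C.nil) C.nil)) C.nil)) C.nil)) C.nil)))) C.nil)))) C.nil)) (C.cons (nat_lit 533) (C.node (nat_lit 0) (nat_lit 6) (nat_lit 9) (C.cons (nat_lit 577) (C.node (nat_lit 0) (nat_lit 1) (nat_lit 4) (C.cons (nat_lit 2067) (C.ref (nat_lit 130) (nat_lit 205163983024656)) (C.cons (nat_lit 1043) (C.ref (nat_lit 130) (nat_lit 188671308608016)) (C.cons (nat_lit 19) (C.node (nat_lit 0) (nat_lit 1) (nat_lit 10) (C.cons (nat_lit 1035) (C.node (nat_lit 0) (nat_lit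 1) (nat_lit 2) (C.cons (nat_lit 2055) (C.node (nat_lit 0) (nat_lit 2) (nat_lit 3) (C.cons (nat_lit 13) (C.node (nat_lit 0) (nat_lit 3) (nat_lit 11) C.nil) C.nil)) (C.cons (nat_lit 7) (C.node (nat_lit 0) (nat_lit 1) (nat_lit 11) C.nil) C.nil))) (C.cons (nat_lit 1031) (C.node (nat_lit 0) (nat_lit 3) (nat_lit 10) (C.cons (nat_lit 1033)
  (C.node (nat_lit 0) (nat_lit 1) (nat_lit 3) (C.cons (nat_lit 2059) (C.node (nat_lit 0) (nat_lit 2) (nat_lit 3) C.nil) C.nil)) C.nil)) (C.cons (nat_lit 1027) (C.node (nat_lit 0) (nat_lit 3) (nat_lit 10) (C.cons (nat_lit 1037) (C.node (nat_lit 0) (nat_lit 1) (nat_lit 2) (C.cons (nat_lit 2055) (C.node (nat_lit 0) (nat_lit 1) (nat_lit 3) C.nil) C.nil)) C.nil)) C.nil)))) C.nil)))) C.nil)) (C.cons (nat_lit 517) (C.node (nat_lit 0) (nat_lit 4) (nat_lit 9) (C.cons (nat_lit 593) (C.ref (nat_lit 127) (nat_lit 205163896919136)) (C.cons (nat_lit 529) (C.node (nat_lit 0) (nat_lit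 6) (nat_lit 9) (C.cons (nat_lit 577) (C.ref (nat_lit 131) (nat_lit 205163983024656)) C.nil)) C.nil))) C.nil)))) (C.cons (nat_lit 525) (C.node (nat_lit 0) (nat_lit 1) (nat_lit 3) (C.cons (nat_lit 2059) (C.node (nat_lit 0) (nat_lit 3) (nat_lit 5) (C.cons (nat_lit 1065) (C.ref (nat_lit 132) (nat_lit 205163983024656)) (C.cons (nat_lit 41) (C.node (nat_lit 0) (nat_lit 3) (nat_lit 10) (C.cons (nat_lit 1033) (C.ref (nat_lit 133) (nat_lit 205163983024656)) C.nil)) C.nil))) (C.cons (nat_lit 1035) (C.node (nat_lit 0) (nat_lit 3) (nat_lit 5) (C.cons (nat_lit 2089) (C.ref (nat_lit 132) (nat_lit 188671308608016)) (C.cons (nat_lit 41) (C.node (nat_lit 0) (nat_lit 3) (nat_lit 11) (C.cons (nat_lit 2057) (C.ref (nat_lit 133) (nat_lit 188671308608016)) C.nil)) C.nil))) (C.cons (nat_lit 11) (C.node (nat_lit 0) (nat_lit 3) (nat_lit 10) (C.cons (nat_lit 1065) (C.node (nat_lit 0) (nat_lit 3) (nat_lit 11) (C.cons (nat_lit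 2057) (C.ref (nat_lit 134) (nat_lit 205163983024656)) C.nil)) (C.cons (nat_lit 1033) (C.node (nat_lit 0) (nat_lit 3) (nat_lit 5) (C.cons (nat_lit 2089) (C.ref (nat_lit 134) (nat_lit 188671308608016)) (C.cons (nat_lit 41) (C.node (nat_lit 0) (nat_lit 3) (nat_lit 11) C.nil) C.nil))) C.nil))) C.nil)))) (C.cons (nat_lit 521) (C.node (nat_lit 0) (nat_lit 2) (nat_lit 9) (C.cons (nat_lit 581) (C.node (nat_lit 0) (nat_lit 4) (nat_lit 9) (C.cons (nat_lit 561) (C.node (nat_lit 0) (nat_lit 3) (nat_lit 5) (C.cons (nat_lit 2089) (C.ref (nat_lit 136) (nat_lit 205163983024656)) (C.cons (nat_lit 1065) (C.ref (nat_lit 136) (nat_lit 188671308608016)) (C.cons (nat_lit 41) (C.node (nat_lit 0) (nat_lit 5) (nat_lit 10) (C.cons (nat_lit 1121) (C.node (nat_lit 0) (nat_lit 5) (nat_lit 11) (C.cons (nat_lit 2081) (C.node (nat_lit 0) (nat_lit 4) (nat_lit 6) (C.cons (nat_lit 2129) (C.ref (nat_lit 106) (nat_lit 205163896919136))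 C.nil)) C.nil)) (C.cons (nat_lit 1057) (C.node (nat_lit 0) (nat_lit 5) (nat_lit 6) (C.cons (nat_lit 2145) (C.node (nat_lit 0) (nat_lit 4) (nat_lit 6) (C.cons (nat_lit 1105) (C.ref (nat_lit 106) (nat_lit 188671222502496)) C.nil)) C.nil)) C.nil))) C.nil)))) (C.cons (nat_lit 529) (C.node (nat_lit 0) (nat_lit 5) (nat_lit 9) (C.cons (nat_lit 545) (C.node (nat_lit 0) (nat_lit 3) (nat_lit 5) (C.cons (nat_lit 2089) (C.node (nat_lit 0) (nat_lit 6) (nat_lit 11) (C.cons (nat_lit 2129) (C.node (nat_lit 0) (nat_lit 1) (nat_lit 11) (C.cons (nat_lit 2055) (C.node (nat_lit 0) (nat_lit 1) (nat_lit 3) (C.cons (nat_lit 1035) (C.node (nat_lit 0) (nat_lit 1) (nat_lit 4) C.nil) C.nil)) C.nil)) C.nil)) (C.cons (nat_lit 1065) (C.node (nat_lit 0) (nat_lit 6) (nat_lit 10) (C.cons (nat_lit 1105) (C.node (nat_lit 0) (nat_lit 1) (nat_lit 10) (C.cons (nat_lit 1031) (C.node (nat_lit 0) (nat_lit 1) (nat_lit 3) (C.cons (nat_lit 2059)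 (C.node (nat_lit 0) (nat_lit 1) (nat_lit 4) C.nil) C.nil)) C.nil)) C.nil)) C.nil))) C.nil)) C.nil))) (C.cons (nat_lit 533) (C.node (nat_lit 0) (nat_lit 5) (nat_lit 9) (C.cons (nat_lit 609) (C.node (nat_lit 0) (nat_lit 1) (nat_lit 4) (C.cons (nat_lit 2067) (C.ref (nat_lit 137) (nat_lit 205163983024656)) (C.cons (nat_lit 1043) (C.ref (nat_lit 137) (nat_lit 188671308608016)) (C.cons (nat_lit 19) (C.node (nat_lit 0) (nat_lit 1) (nat_lit 10) (C.cons (nat_lit 1035) (C.node (nat_lit 0) (nat_lit 1) (nat_lit 2) (C.cons (nat_lit 2055) (C.node (nat_lit 0) (nat_lit 2) (nat_lit 3) (C.cons (nat_lit 13) (C.node (nat_lit 0) (nat_lit 2) (nat_lit 6) (C.cons (nat_lit 1093)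
  (C.node (nat_lit 0) (nat_lit 3) (nat_lit 5) (C.cons (nat_lit 2089) (C.node (nat_lit 0) (nat_lit 4) (nat_lit 5) (C.cons (nat_lit 1073) (C.node (nat_lit 0) (nat_lit 4) (nat_lit 6) (C.cons (nat_lit 2129) (C.pat (nat_lit 3) (nat_lit 18578807719) (nat_lit 47478997383107615636853578980088744538343149441)) C.nil)) C.nil)) C.nil)) C.nil)) C.nil)) (C.cons (nat_lit 7) (C.node (nat_lit 0) (nat_lit 1) (nat_lit 11) C.nil) C.nil))) (C.cons (nat_lit 1031) (C.node (nat_lit 0) (nat_lit 1) (nat_lit 3) (C.cons (nat_lit 2059) (C.node (nat_lit 0) (nat_lit 2) (nat_lit 3) (C.cons (nat_lit 13) (C.node (nat_lit 0) (nat_lit 2) (nat_lit 6) (C.cons (nat_lit 2117) (C.node (nat_lit 0) (nat_lit 3) (nat_lit 5) (C.cons (nat_lit 1065) (C.node (nat_lit 0) (nat_lit 4) (nat_lit 5) (C.cons (nat_lit 2097) (C.node (nat_lit 0) (nat_lit 4) (nat_lit 6) (C.cons (nat_lit 1105) (C.pat (nat_lit 3) (nat_lit 18578807479) (nat_lit 24642685855985523610474573921776287459378925441))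 C.nil)) C.nil)) C.nil)) C.nil)) C.nil)) (C.cons (nat_lit 11) (C.node (nat_lit 0) (nat_lit 1) (nat_lit 11) C.nil) C.nil))) (C.cons (nat_lit 1027) (C.node (nat_lit 0) (nat_lit 1) (nat_lit 2) (C.cons (nat_lit 2055) (C.node (nat_lit 0) (nat_lit 1) (nat_lit 3) C.nil) (C.cons (nat_lit 15) (C.node (nat_lit 0) (nat_lit 1) (nat_lit 11) C.nil) C.nil))) C.nil)))) C.nil)))) (C.cons (nat_lit 545) (C.node (nat_lit 0) (nat_lit 6) (nat_lit 9) (C.cons (nat_lit 577) (C.ref (nat_lit 138) (nat_lit 205163983024656)) C.nil)) C.nil))) (C.cons (nat_lit 517) (C.node (nat_lit 0) (nat_lit 3) (nat_lit 5) (C.cons (nat_lit 2089) (C.ref (nat_lit 139) (nat_lit 205163983024656)) (C.cons (nat_lit 1065) (C.ref (nat_lit 139) (nat_lit 188671308608016)) (C.cons (nat_lit 41) (C.node (nat_lit 0) (nat_lit 3) (nat_lit 10) (C.cons (nat_lit 1037) (C.node (nat_lit 0) (nat_lit 1) (nat_lit 3) (C.cons (nat_lit 2059) (C.node (nat_lit 0) (nat_lit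 1) (nat_lit 2) (C.cons (nat_lit 23) (C.node (nat_lit 0) (nat_lit 1) (nat_lit 10) C.nil) C.nil)) C.nil)) (C.cons (nat_lit 1035) (C.node (nat_lit 0) (nat_lit 2) (nat_lit 3) (C.cons (nat_lit 2061) (C.node (nat_lit 0) (nat_lit 1) (nat_lit 2) (C.cons (nat_lit 23) (C.node (nat_lit 0) (nat_lit 1) (nat_lit 11) C.nil) C.nil)) C.nil)) C.nil))) C.nil)))) C.nil)))) C.nil)))) C.nil))))) (List.cons (C.node (nat_lit 0) (nat_lit 2) (nat_lit 8) (C.cons (nat_lit 277) (C.node (nat_lit 0) (nat_lit 1) (nat_lit 4) (C.cons (nat_lit 2067) (C.ref (nat_lit 99) (nat_lit 205163983024656)) (C.cons (nat_lit 1043) (C.ref (nat_lit 99) (nat_lit 188671308608016)) (C.cons (nat_lit 531) (C.ref (nat_lit 99) (nat_lit 171147842040336)) (C.cons (nat_lit 19) (C.node (nat_lit 0) (nat_lit 1) (nat_lit 9) (C.cons (nat_lit 523) (C.node (nat_lit 0) (nat_lit 1) (nat_lit 10) (C.cons (nat_lit 1031) (C.node (nat_lit 0) (nat_lit 1) (nat_lit 11) (C.cons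 (nat_lit 2051) (C.ref (nat_lit 100) (nat_lit 205163983024656)) C.nil)) (C.cons (nat_lit 1027) (C.ref (nat_lit 102) (nat_lit 205163983024656)) C.nil))) (C.cons (nat_lit 519) (C.node (nat_lit 0) (nat_lit 1) (nat_lit 10) (C.cons (nat_lit 1035) (C.node (nat_lit 0) (nat_lit 1) (nat_lit 11) (C.cons (nat_lit 2051) (C.ref (nat_lit 100) (nat_lit 205159940760336)) C.nil)) (C.cons (nat_lit 1027) (C.ref (nat_lit 102) (nat_lit 205159940760336)) C.nil))) (C.cons (nat_lit 515) (C.node (nat_lit 0) (nat_lit 1) (nat_lit 10) (C.cons (nat_lit 1035) (C.ref (nat_lit 102) (nat_lit 204133190873616)) (C.cons (nat_lit 1031) (C.ref (nat_lit 102) (nat_lit 204129148609296)) (C.cons (nat_lit 1027) (C.node (nat_lit 0) (nat_lit 1) (nat_lit 2) (C.cons (nat_lit 2055) (C.node (nat_lit 0) (nat_lit 1) (nat_lit 3) (C.cons (nat_lit 11) (C.ref (nat_lit 101) (nat_lit 186605682041616)) C.nil)) (C.cons (nat_lit 15) (C.node (nat_lit 0) (nat_lit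 1) (nat_lit 11) (C.cons (nat_lit 2051) (C.node (nat_lit 0) (nat_lit 2) (nat_lit 9) (C.cons (nat_lit 581) (C.node (nat_lit 0) (nat_lit 2) (nat_lit 10) (C.cons (nat_lit 1029) (C.node (nat_lit 0) (nat_lit 2) (nat_lit 11) (C.cons (nat_lit 2053) (C.node (nat_lit 0) (nat_lit 3) (nat_lit 10) (C.cons (nat_lit 1065)
  (C.node (nat_lit 0) (nat_lit 3) (nat_lit 11) C.nil) C.nil)) C.nil)) C.nil)) (C.cons (nat_lit 517) (C.node (nat_lit 0) (nat_lit 2) (nat_lit 10) (C.cons (nat_lit 1093) (C.node (nat_lit 0) (nat_lit 2) (nat_lit 11) (C.cons (nat_lit 2053) (C.node (nat_lit 0) (nat_lit 3) (nat_lit 9) (C.cons (nat_lit 553) (C.node (nat_lit 0) (nat_lit 3) (nat_lit 11) C.nil) C.nil)) C.nil)) (C.cons (nat_lit 1029) (C.node (nat_lit 0) (nat_lit 2) (nat_lit 6) (C.cons (nat_lit 2117) (C.node (nat_lit 0) (nat_lit 3) (nat_lit 9) (C.cons (nat_lit 553) (C.node (nat_lit 0) (nat_lit 3) (nat_lit 10) C.nil) C.nil)) C.nil)) C.nil)))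 C.nil))) C.nil)) (C.cons (nat_lit 7) (C.node (nat_lit 0) (nat_lit 1) (nat_lit 3) (C.cons (nat_lit 2059) (C.ref (nat_lit 101) (nat_lit 186609724305936)) (C.cons (nat_lit 11) (C.node (nat_lit 0) (nat_lit 1) (nat_lit 11) (C.cons (nat_lit 2051) (C.node (nat_lit 0) (nat_lit 2) (nat_lit 9) (C.cons (nat_lit 581) (C.node (nat_lit 0) (nat_lit 2) (nat_lit 10) (C.cons (nat_lit 1037) (C.node (nat_lit 0) (nat_lit 2) (nat_lit 11) C.nil) C.nil)) (C.cons (nat_lit 525) (C.node (nat_lit 0) (nat_lit 2) (nat_lit 10) (C.cons (nat_lit 1093) (C.node (nat_lit 0) (nat_lit 2) (nat_lit 11) C.nil) C.nil)) C.nil))) C.nil)) C.nil))) C.nil)))) C.nil)))) C.nil)))) C.nil))))) (C.cons (nat_lit 261) (C.node (nat_lit 0) (nat_lit 4) (nat_lit 8) (C.cons (nat_lit 273) (C.ref (nat_lit 140) (nat_lit 205163983024656)) C.nil)) C.nil))) (List.cons (C.node (nat_lit 0) (nat_lit 3) (nat_lit 5) (C.cons (nat_lit 2089) (C.node (nat_lit 0) (nat_lit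 3) (nat_lit 6) (C.cons (nat_lit 73) (C.node (nat_lit 0) (nat_lit 4) (nat_lit 5) (C.cons (nat_lit 49) (C.node (nat_lit 0) (nat_lit 4) (nat_lit 6) (C.cons (nat_lit 2129) (C.pat (nat_lit 3) (nat_lit 5471689623) (nat_lit 45828755846896756463037385305655524803379269505)) C.nil)) C.nil)) C.nil)) (C.cons (nat_lit 41) (C.node (nat_lit 0) (nat_lit 3) (nat_lit 6) (C.cons (nat_lit 2121) (C.node (nat_lit 0) (nat_lit 4) (nat_lit 6) (C.cons (nat_lit 81) (C.node (nat_lit 0) (nat_lit 4) (nat_lit 5) (C.cons (nat_lit 2097) (C.ref (nat_lit 91) (nat_lit 205099557344016)) C.nil)) C.nil)) (C.cons (nat_lit 73) (C.node (nat_lit 0) (nat_lit 3) (nat_lit 11) C.nil) C.nil))) C.nil))) (List.cons (C.node (nat_lit 0) (nat_lit 3) (nat_lit 5) (C.cons (nat_lit 2089) (C.node (nat_lit 0) (nat_lit 3) (nat_lit 6) (C.cons (nat_lit 73) (C.node (nat_lit 0) (nat_lit 4) (nat_lit 5) (C.cons (nat_lit 1073) (C.node (nat_lit 0) (nat_lit 6) (nat_lit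 10) (C.cons (nat_lit 1089) (C.node (nat_lit 0) (nat_lit 4) (nat_lit 6) (C.cons (nat_lit 2129) (C.pat (nat_lit 3) (nat_lit 5471689623) (nat_lit 45828755846896756463037385305655524803379269505)) C.nil)) C.nil)) (C.cons (nat_lit 49) (C.node (nat_lit 0) (nat_lit 5) (nat_lit 10) C.nil) C.nil))) C.nil)) (C.cons (nat_lit 41) (C.node (nat_lit 0) (nat_lit 3) (nat_lit 6) (C.cons (nat_lit 2121) (C.node (nat_lit 0) (nat_lit 4) (nat_lit 6) (C.cons (nat_lit 1105) (C.pat (nat_lit 6) (nat_lit 378549212695) (nat_lit 5800711840314118161004948004298019353306216477688913)) (C.cons (nat_lit 81) (C.node (nat_lit 0) (nat_lit 6) (nat_lit 10) C.nil) C.nil))) (C.cons (nat_lit 73) (C.node (nat_lit 0) (nat_lit 3) (nat_lit 11) C.nil) C.nil))) C.nil))) (List.cons (C.node (nat_lit 0) (nat_lit 3) (nat_lit 5) (C.cons (nat_lit 2089) (C.node (nat_lit 0) (nat_lit 3) (nat_lit 6) (C.cons (nat_lit 1097) (C.node (nat_lit 0) (nat_lit 4) (nat_lit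 5) (C.cons (nat_lit 1073) (C.node (nat_lit 0) (nat_lit 4) (nat_lit 6) (C.cons (nat_lit 2129) (C.pat (nat_lit 3) (nat_lit 5471689623) (nat_lit 45828755846896756463037385305655524803379269505)) C.nil)) C.nil)) C.nil)) (C.cons (nat_lit 1065) (C.node (nat_lit 0) (nat_lit 3) (nat_lit 6) (C.cons (nat_lit 2121) (C.node (nat_lit 0) (nat_lit 4) (nat_lit 5) (C.cons (nat_lit 2097) (C.node (nat_lit 0) (nat_lit 4) (nat_lit 6) (C.cons (nat_lit 1105) (C.ref (nat_lit 91) (nat_lit 169923708326736)) C.nil)) C.nil)) C.nil)) C.nil))) (List.cons (C.node (nat_lit 0) (nat_lit 1) (nat_lit 3) (C.cons (nat_lit 1035) (C.node (nat_lit 0) (nat_lit 2) (nat_lit 4)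
  (C.cons (nat_lit 1045) (C.node (nat_lit 0) (nat_lit 5) (nat_lit 10) (C.cons (nat_lit 1057) (C.node (nat_lit 0) (nat_lit 6) (nat_lit 10) (C.cons (nat_lit 1089) (C.ref (nat_lit 142) (nat_lit 205163983024656)) C.nil)) C.nil)) (C.cons (nat_lit 21) (C.node (nat_lit 0) (nat_lit 2) (nat_lit 10) (C.cons (nat_lit 1029) (C.ref (nat_lit 143) (nat_lit 205163983024656)) C.nil)) C.nil))) (C.cons (nat_lit 11) (C.node (nat_lit 0) (nat_lit 1) (nat_lit 10) (C.cons (nat_lit 1027) (C.node (nat_lit 0) (nat_lit 2) (nat_lit 4) (C.cons (nat_lit 1045) (C.ref (nat_lit 143) (nat_lit 205163967234336)) (C.cons (nat_lit 21) (C.node (nat_lit 0) (nat_lit 2) (nat_lit 10) (C.cons (nat_lit 1029) (C.ref (nat_lit 144) (nat_lit 205163983024656)) C.nil)) C.nil))) C.nil)) C.nil))) (List.cons (C.node (nat_lit 0) (nat_lit 2) (nat_lit 10) (C.cons (nat_lit 1045) (C.node (nat_lit 0) (nat_lit 2) (nat_lit 11) (C.cons (nat_lit 2053) (C.node (nat_lit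 0) (nat_lit 5) (nat_lit 10) (C.cons (nat_lit 1057) (C.node (nat_lit 0) (nat_lit 6) (nat_lit 10) C.nil) C.nil)) C.nil)) (C.cons (nat_lit 1029) (C.node (nat_lit 0) (nat_lit 2) (nat_lit 4) (C.cons (nat_lit 2069) (C.node (nat_lit 0) (nat_lit 3) (nat_lit 5) (C.cons (nat_lit 2089) (C.pat (nat_lit 6) (nat_lit 447016047911) (nat_lit 5800711706509647125587421194706642424259716938270761)) (C.cons (nat_lit 41) (C.node (nat_lit 0) (nat_lit 5) (nat_lit 11) C.nil) C.nil))) (C.cons (nat_lit 21) (C.node (nat_lit 0) (nat_lit 2) (nat_lit 11) C.nil) C.nil))) C.nil))) (List.cons (C.node (nat_lit 0) (nat_lit 5) (nat_lit 10) (C.cons (nat_lit 1121) (C.ref (nat_lit 142) (nat_lit 204133190812176)) (C.cons (nat_lit 1057) (C.node (nat_lit 0) (nat_lit 6) (nat_lit 10) (C.cons (nat_lit 1089) (C.node (nat_lit 0) (nat_lit 3) (nat_lit 5) (C.cons (nat_lit 2089) (C.node (nat_lit 0) (nat_lit 3) (nat_lit 6) C.nil) (C.cons (nat_lit 105)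 (C.node (nat_lit 0) (nat_lit 3) (nat_lit 11) C.nil) C.nil))) C.nil)) C.nil))) (List.cons (C.node (nat_lit 0) (nat_lit 3) (nat_lit 5) (C.cons (nat_lit 2089) (C.node (nat_lit 0) (nat_lit 3) (nat_lit 6) C.nil) (C.cons (nat_lit 105) (C.node (nat_lit 0) (nat_lit 3) (nat_lit 11) C.nil) C.nil))) (List.cons (C.node (nat_lit 0) (nat_lit 1) (nat_lit 3) (C.cons (nat_lit 1035) (C.node (nat_lit 0) (nat_lit 2) (nat_lit 4) (C.cons (nat_lit 1045) (C.ref (nat_lit 147) (nat_lit 205163983024656)) (C.cons (nat_lit 21) (C.node (nat_lit 0) (nat_lit 2) (nat_lit 10) (C.cons (nat_lit 1029) (C.ref (nat_lit 148) (nat_lit 205163983024656)) C.nil)) C.nil))) (C.cons (nat_lit 11) (C.node (nat_lit 0) (nat_lit 1) (nat_lit 10) (C.cons (nat_lit 1027) (C.node (nat_lit 0) (nat_lit 2) (nat_lit 4) (C.cons (nat_lit 1045) (C.ref (nat_lit 148) (nat_lit 205163967234336)) C.nil)) C.nil)) C.nil))) List.nil))))))))))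

theorem ok12_140 : okL par12 (nat_lit 150) c12_140 (nat_lit 140) = true := by decide +kernel

noncomputable def c12_150 : List C :=
  (List.cons (C.node (nat_lit 0) (nat_lit 1) (nat_lit 2) (C.cons (nat_lit 2055) (C.ref (nat_lit 149) (nat_lit 205163983024656)) (C.cons (nat_lit 1031) (C.ref (nat_lit 149) (nat_lit 188671308608016)) (C.cons (nat_lit 7) (C.node (nat_lit 0) (nat_lit 1) (nat_lit 10) (C.cons (nat_lit 1035) (C.node (nat_lit 0) (nat_lit 1) (nat_lit 11) (C.cons (nat_lit 2051) (C.node (nat_lit 0) (nat_lit 2) (nat_lit 10) (C.cons (nat_lit 1045) (C.node (nat_lit 0) (nat_lit 2) (nat_lit 11) C.nil) C.nil)) C.nil)) (C.cons (nat_lit 1027) (C.node (nat_lit 0) (nat_lit 1) (nat_lit 3) (C.cons (nat_lit 2059) (C.node (nat_lit 0) (nat_lit 2) (nat_lit 11) (C.cons (nat_lit 2069) (C.node (nat_lit 0) (nat_lit 2) (nat_lit 10) C.nil) C.nil)) C.nil)) C.nil))) C.nil)))) (List.cons (C.node (nat_lit 0) (nat_lit 5)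 (nat_lit 10) (C.cons (nat_lit 1121) (C.ref (nat_lit 143) (nat_lit 204133190812176)) (C.cons (nat_lit 1057) (C.node (nat_lit 0) (nat_lit 6) (nat_lit 10) (C.cons (nat_lit 1089) (C.ref (nat_lit 148) (nat_lit 204133190812176)) C.nil)) C.nil))) (List.cons (C.node (nat_lit 0) (nat_lit 2) (nat_lit 3) (C.cons (nat_lit 13) (C.node (nat_lit 0) (nat_lit 2) (nat_lit 4) (C.cons (nat_lit 1045) (C.ref (nat_lit 151) (nat_lit 205163983024656)) (C.cons (nat_lit 21) (C.node (nat_lit 0) (nat_lit 2) (nat_lit 10) (C.cons (nat_lit 1029) (C.node (nat_lit 0) (nat_lit 3) (nat_lit 9) (C.cons (nat_lit 585) (C.node (nat_lit 0) (nat_lit 5) (nat_lit 9) C.nil) (C.cons (nat_lit 553) (C.node (nat_lit 0) (nat_lit 6) (nat_lit 9) C.nil) C.nil))) C.nil)) C.nil))) C.nil)) (List.cons (C.node (nat_lit 0) (nat_lit 2) (nat_lit 3) (C.cons (nat_lit 2061) (C.node (nat_lit 0) (nat_lit 2) (nat_lit 4) (C.cons (nat_lit 1045) (C.node (nat_lit 0) (nat_lit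 5) (nat_lit 10) (C.cons (nat_lit 1121) (C.node (nat_lit 0) (nat_lit 3) (nat_lit 6) (C.cons (nat_lit 585) (C.pat (nat_lit 6) (nat_lit 378564879895) (nat_lit 5800723079889698220439011338309620933137555219743305)) (C.cons (nat_lit 73) (C.node (nat_lit 0) (nat_lit 6) (nat_lit 9) C.nil) C.nil))) (C.cons (nat_lit 1057) (C.node (nat_lit 0) (nat_lit 6) (nat_lit 10) C.nil) C.nil))) (C.cons (nat_lit 21) (C.node (nat_lit 0) (nat_lit 2) (nat_lit 10) C.nil) C.nil))) (C.cons (nat_lit 13) (C.node (nat_lit 0) (nat_lit 2) (nat_lit 10) (C.cons (nat_lit 1045) (C.node (nat_lit 0) (nat_lit 2) (nat_lit 11) C.nil) C.nil)) C.nil))) (List.cons (C.node (nat_lit 0) (nat_lit 2) (nat_lit 3) (C.cons (nat_lit 2061) (C.node (nat_lit 0) (nat_lit 2) (nat_lit 4) (C.cons (nat_lit 21) (C.node (nat_lit 0) (nat_lit 3) (nat_lit 9) (C.cons (nat_lit 585) (C.node (nat_lit 0) (nat_lit 5) (nat_lit 9) C.nil) (C.cons (nat_lit 553) (C.node (nat_lit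 0) (nat_lit 6) (nat_lit 9) C.nil) C.nil))) C.nil)) (C.cons (nat_lit 13) (C.node (nat_lit 0) (nat_lit 2) (nat_lit 4) (C.cons (nat_lit 2069) (C.node (nat_lit 0) (nat_lit 3) (nat_lit 9) (C.cons (nat_lit 585) (C.node (nat_lit 0) (nat_lit 5) (nat_lit 9) C.nil) (C.cons (nat_lit 553) (C.node (nat_lit 0) (nat_lit 6) (nat_lit 9) C.nil) C.nil))) C.nil)) C.nil))) (List.cons (C.node (nat_lit 0) (nat_lit 1) (nat_lit 10) (C.cons (nat_lit 1035) (C.node (nat_lit 0) (nat_lit 1) (nat_lit 2) (C.cons (nat_lit 2055) (C.ref (nat_lit 152) (nat_lit 205163983024656)) (C.cons (nat_lit 7) (C.node (nat_lit 0) (nat_lit 1) (nat_lit 11) (C.cons (nat_lit 2051) (C.ref (nat_lit 153) (nat_lit 205163983024656)) C.nil)) C.nil))) (C.cons (nat_lit 1031) (C.node (nat_lit 0) (nat_lit 1) (nat_lit 3) (C.cons (nat_lit 2059) (C.ref (nat_lit 152) (nat_lit 188671308608016)) (C.cons (nat_lit 11) (C.node (nat_lit 0) (nat_lit 1) (nat_lit 11) (C.cons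 (nat_lit 2051) (C.ref (nat_lit 154) (nat_lit 205163983024656)) C.nil)) C.nil))) (C.cons (nat_lit 1027) (C.node (nat_lit 0) (nat_lit 1) (nat_lit 2) (C.cons (nat_lit 2055) (C.node (nat_lit 0) (nat_lit 1) (nat_lit 3) (C.cons (nat_lit 11) (C.ref (nat_lit 154) (nat_lit 188671308608016)) C.nil)) (C.cons (nat_lit 15) (C.node (nat_lit 0) (nat_lit 1) (nat_lit 11) (C.cons (nat_lit 2051) (C.node (nat_lit 0) (nat_lit 2) (nat_lit 10) (C.cons (nat_lit 1045)
  (C.node (nat_lit 0) (nat_lit 2) (nat_lit 11) (C.cons (nat_lit 2053) (C.node (nat_lit 0) (nat_lit 3) (nat_lit 9) (C.cons (nat_lit 585) (C.node (nat_lit 0) (nat_lit 5) (nat_lit 9) C.nil) (C.cons (nat_lit 553) (C.node (nat_lit 0) (nat_lit 6) (nat_lit 9) C.nil) C.nil))) C.nil)) (C.cons (nat_lit 1029) (C.node (nat_lit 0) (nat_lit 2) (nat_lit 4) (C.cons (nat_lit 2069) (C.node (nat_lit 0) (nat_lit 3) (nat_lit 9) (C.cons (nat_lit 585) (C.node (nat_lit 0) (nat_lit 5)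 (nat_lit 9) C.nil) (C.cons (nat_lit 553) (C.node (nat_lit 0) (nat_lit 6) (nat_lit 9) C.nil) C.nil))) C.nil)) C.nil))) C.nil)) (C.cons (nat_lit 7) (C.node (nat_lit 0) (nat_lit 1) (nat_lit 3) (C.cons (nat_lit 2059) (C.ref (nat_lit 153) (nat_lit 188671308608016)) (C.cons (nat_lit 11) (C.node (nat_lit 0) (nat_lit 1) (nat_lit 11) C.nil) C.nil))) C.nil)))) C.nil)))) (List.cons (C.node (nat_lit 0) (nat_lit 2) (nat_lit 9) (C.cons (nat_lit 525) (C.node (nat_lit 0) (nat_lit 5) (nat_lit 9) (C.cons (nat_lit 609) (C.node (nat_lit 0) (nat_lit 1) (nat_lit 2) (C.cons (nat_lit 2055) (C.ref (nat_lit 145) (nat_lit 205163983024656)) (C.cons (nat_lit 1031) (C.ref (nat_lit 145) (nat_lit 188671308608016)) (C.cons (nat_lit 7) (C.node (nat_lit 0) (nat_lit 1) (nat_lit 10) (C.cons (nat_lit 1035) (C.node (nat_lit 0) (nat_lit 1) (nat_lit 11) (C.cons (nat_lit 2051) (C.ref (nat_lit 146) (nat_lit 205163983024656)) C.nil)) (C.cons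 (nat_lit 1027) (C.node (nat_lit 0) (nat_lit 1) (nat_lit 3) (C.cons (nat_lit 2059) (C.ref (nat_lit 146) (nat_lit 188671308608016)) (C.cons (nat_lit 11) (C.node (nat_lit 0) (nat_lit 1) (nat_lit 11) (C.cons (nat_lit 2051) (C.node (nat_lit 0) (nat_lit 2) (nat_lit 10) (C.cons (nat_lit 1045) (C.node (nat_lit 0) (nat_lit 2) (nat_lit 11) C.nil) C.nil)) C.nil)) C.nil))) C.nil))) C.nil)))) (C.cons (nat_lit 545) (C.node (nat_lit 0) (nat_lit 6) (nat_lit 9) (C.cons (nat_lit 577) (C.ref (nat_lit 150) (nat_lit 205163983024656)) C.nil)) C.nil))) (C.cons (nat_lit 517) (C.ref (nat_lit 155) (nat_lit 205163983024656)) C.nil))) (List.cons (C.node (nat_lit 0) (nat_lit 2) (nat_lit 3) (C.cons (nat_lit 1037) (C.node (nat_lit 0) (nat_lit 2) (nat_lit 4) (C.cons (nat_lit 2069) (C.ref (nat_lit 151) (nat_lit 171147826250016)) (C.cons (nat_lit 21) (C.node (nat_lit 0) (nat_lit 2) (nat_lit 11) (C.cons (nat_lit 2053) (C.node (nat_lit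 0) (nat_lit 4) (nat_lit 11) (C.cons (nat_lit 2129) (C.node (nat_lit 0) (nat_lit 5) (nat_lit 11) C.nil) (C.cons (nat_lit 2097) (C.node (nat_lit 0) (nat_lit 6) (nat_lit 11) C.nil) C.nil))) C.nil)) C.nil))) (C.cons (nat_lit 13) (C.node (nat_lit 0) (nat_lit 2) (nat_lit 10) (C.cons (nat_lit 1045) (C.node (nat_lit 0) (nat_lit 2) (nat_lit 11) (C.cons (nat_lit 2053) (C.node (nat_lit 0) (nat_lit 3) (nat_lit 10) (C.cons (nat_lit 1065) (C.node (nat_lit 0) (nat_lit 6) (nat_lit 10) C.nil) (C.cons (nat_lit 1097) (C.node (nat_lit 0) (nat_lit 5) (nat_lit 10) C.nil) C.nil))) C.nil)) (C.cons (nat_lit 1029) (C.node (nat_lit 0) (nat_lit 2) (nat_lit 4) (C.cons (nat_lit 2069) (C.node (nat_lit 0) (nat_lit 5) (nat_lit 11) (C.cons (nat_lit 2145) (C.ref (nat_lit 144) (nat_lit 170117049827856)) C.nil)) C.nil)) C.nil))) C.nil))) (List.cons (C.node (nat_lit 0) (nat_lit 1) (nat_lit 4) (C.cons (nat_lit 1043) (C.node (nat_lit 0)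 (nat_lit 2) (nat_lit 3) (C.cons (nat_lit 1037) (C.node (nat_lit 0) (nat_lit 2) (nat_lit 4) (C.cons (nat_lit 2069) (C.node (nat_lit 0) (nat_lit 5) (nat_lit 10) (C.cons (nat_lit 1121) (C.node (nat_lit 0) (nat_lit 5) (nat_lit 11) (C.cons (nat_lit 2081) (C.node (nat_lit 0) (nat_lit 6) (nat_lit 11) (C.cons (nat_lit 2113) (C.ref (nat_lit 142) (nat_lit 171147842040336)) C.nil)) C.nil)) (C.cons (nat_lit 1057) (C.node (nat_lit 0) (nat_lit 6) (nat_lit 10) (C.cons (nat_lit 1089) (C.ref (nat_lit 147) (nat_lit 171147842040336)) C.nil)) C.nil))) (C.cons (nat_lit 21) (C.node (nat_lit 0) (nat_lit 2) (nat_lit 11) (C.cons (nat_lit 2053) (C.ref (nat_lit 151) (nat_lit 170117049827856)) C.nil)) C.nil))) (C.cons (nat_lit 13) (C.node (nat_lit 0) (nat_lit 2) (nat_lit 10) (C.cons (nat_lit 1029)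
  (C.node (nat_lit 0) (nat_lit 2) (nat_lit 4) (C.cons (nat_lit 2069) (C.ref (nat_lit 151) (nat_lit 171147842040336)) (C.cons (nat_lit 21) (C.node (nat_lit 0) (nat_lit 2) (nat_lit 11) (C.cons (nat_lit 2053) (C.node (nat_lit 0) (nat_lit 3) (nat_lit 10) (C.cons (nat_lit 1097) (C.node (nat_lit 0) (nat_lit 5) (nat_lit 10) C.nil) (C.cons (nat_lit 1065) (C.node (nat_lit 0) (nat_lit 6) (nat_lit 10) C.nil) C.nil))) C.nil)) C.nil))) C.nil)) C.nil))) (C.cons (nat_lit 19) (C.node (nat_lit 0) (nat_lit 1) (nat_lit 10) (C.cons (nat_lit 1027) (C.ref (nat_lit 157) (nat_lit 205163983024656)) C.nil)) C.nil))) (List.cons (C.node (nat_lit 0) (nat_lit 2) (nat_lit 3) (C.cons (nat_lit 2061) (C.node (nat_lit 0) (nat_lit 2) (nat_lit 4) (C.cons (nat_lit 1045) (C.node (nat_lit 0) (nat_lit 3) (nat_lit 10) (C.cons (nat_lit 1065) (C.node (nat_lit 0) (nat_lit 6) (nat_lit 10) C.nil) (C.cons (nat_lit 1097) (C.node (nat_lit 0) (nat_lit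 5) (nat_lit 10) C.nil) C.nil))) C.nil)) (C.cons (nat_lit 1037) (C.node (nat_lit 0) (nat_lit 2) (nat_lit 4) (C.cons (nat_lit 2069) (C.node (nat_lit 0) (nat_lit 3) (nat_lit 11) (C.cons (nat_lit 2089) (C.node (nat_lit 0) (nat_lit 6) (nat_lit 11) C.nil) (C.cons (nat_lit 2121) (C.node (nat_lit 0) (nat_lit 5) (nat_lit 11) C.nil) C.nil))) C.nil)) C.nil))) (List.cons (C.node (nat_lit 0) (nat_lit 5) (nat_lit 9) (C.cons (nat_lit 545) (C.node (nat_lit 0) (nat_lit 3) (nat_lit 5) (C.cons (nat_lit 2089) (C.node (nat_lit 0) (nat_lit 6) (nat_lit 11) (C.cons (nat_lit 2129) (C.node (nat_lit 0) (nat_lit 1) (nat_lit 11) (C.cons (nat_lit 2055) (C.node (nat_lit 0) (nat_lit 1) (nat_lit 3) (C.cons (nat_lit 1035) (C.node (nat_lit 0) (nat_lit 1) (nat_lit 4) C.nil) C.nil)) C.nil)) C.nil)) (C.cons (nat_lit 1065) (C.node (nat_lit 0) (nat_lit 6) (nat_lit 10) (C.cons (nat_lit 1105) (C.node (nat_lit 0) (nat_lit 1) (nat_lit 10) (C.cons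 (nat_lit 1031) (C.node (nat_lit 0) (nat_lit 1) (nat_lit 3) (C.cons (nat_lit 2059) (C.node (nat_lit 0) (nat_lit 1) (nat_lit 4) C.nil) C.nil)) C.nil)) C.nil)) C.nil))) C.nil)) (List.cons (C.node (nat_lit 0) (nat_lit 2) (nat_lit 3) (C.cons (nat_lit 525) (C.node (nat_lit 0) (nat_lit 5) (nat_lit 9) (C.cons (nat_lit 609) (C.node (nat_lit 0) (nat_lit 3) (nat_lit 5) (C.cons (nat_lit 2089) (C.node (nat_lit 0) (nat_lit 3) (nat_lit 6) (C.cons (nat_lit 73) (C.node (nat_lit 0) (nat_lit 4) (nat_lit 5) (C.cons (nat_lit 1073) (C.node (nat_lit 0) (nat_lit 2) (nat_lit 4) (C.cons (nat_lit 85) (C.pat (nat_lit 2) (nat_lit 47583761778) (nat_lit 46586308783945422990980609602825028075079926291)) (C.cons (nat_lit 21) (C.node (nat_lit 0) (nat_lit 2) (nat_lit 6) (C.cons (nat_lit 1093) (C.pat (nat_lit 3) (nat_lit 17504283287) (nat_lit 23929051793030279685331840562424166689532088193)) C.nil)) C.nil))) (C.cons (nat_lit 49) (C.node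 (nat_lit 0) (nat_lit 5) (nat_lit 10) C.nil) C.nil))) C.nil)) (C.cons (nat_lit 41) (C.node (nat_lit 0) (nat_lit 3) (nat_lit 6) (C.cons (nat_lit 2121) (C.node (nat_lit 0) (nat_lit 4) (nat_lit 11) (C.cons (nat_lit 2097) (C.node (nat_lit 0) (nat_lit 5) (nat_lit 10) (C.cons (nat_lit 1057) (C.node (nat_lit 0) (nat_lit 2) (nat_lit 4) (C.cons (nat_lit 1045) (C.node (nat_lit 0) (nat_lit 2) (nat_lit 6) C.nil) (C.cons (nat_lit 85) (C.pat (nat_lit 1) (nat_lit 1500924705) (nat_lit 2757157882068743875424915474399694721)) C.nil))) C.nil)) (C.cons (nat_lit 2065) (C.node (nat_lit 0) (nat_lit 5) (nat_lit 11) C.nil) C.nil))) (C.cons (nat_lit 73) (C.node (nat_lit 0) (nat_lit 3) (nat_lit 11) C.nil) C.nil))) C.nil))) (C.cons (nat_lit 545) (C.node (nat_lit 0) (nat_lit 6) (nat_lit 9) (C.cons (nat_lit 577) (C.node (nat_lit 0) (nat_lit 2) (nat_lit 4) (C.cons (nat_lit 1045) (C.node (nat_lit 0) (nat_lit 2) (nat_lit 6) C.nil)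 (C.cons (nat_lit 85) (C.node (nat_lit 0) (nat_lit 2) (nat_lit 10) C.nil) C.nil))) C.nil)) C.nil))) (C.cons (nat_lit 77) (C.node (nat_lit 0) (nat_lit 2) (nat_lit 9) (C.cons (nat_lit 517) (C.node (nat_lit 0) (nat_lit 2) (nat_lit 4) (C.cons (nat_lit 1045) (C.node (nat_lit 0) (nat_lit 3) (nat_lit 9) (C.cons (nat_lit 553)
  (C.node (nat_lit 0) (nat_lit 3) (nat_lit 11) (C.cons (nat_lit 2057) (C.node (nat_lit 0) (nat_lit 6) (nat_lit 9) C.nil) C.nil)) (C.cons (nat_lit 521) (C.node (nat_lit 0) (nat_lit 3) (nat_lit 5) (C.cons (nat_lit 2089) (C.node (nat_lit 0) (nat_lit 4) (nat_lit 5) (C.cons (nat_lit 113) (C.pat (nat_lit 2) (nat_lit 20054111794) (nat_lit 2520695062672497626171882244587746828300914561)) C.nil)) C.nil)) C.nil))) (C.cons (nat_lit 21) (C.node (nat_lit 0) (nat_lit 2) (nat_lit 10) C.nil) C.nil))) C.nil)) (C.cons (nat_lit 13) (C.node (nat_lit 0) (nat_lit 2) (nat_lit 9) (C.cons (nat_lit 581) (C.node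 (nat_lit 0) (nat_lit 2) (nat_lit 4) (C.cons (nat_lit 1045) (C.node (nat_lit 0) (nat_lit 3) (nat_lit 9) (C.cons (nat_lit 553) (C.node (nat_lit 0) (nat_lit 3) (nat_lit 6) (C.cons (nat_lit 2121) (C.node (nat_lit 0) (nat_lit 4) (nat_lit 6) (C.cons (nat_lit 113) (C.pat (nat_lit 2) (nat_lit 43588621172) (nat_lit 23081337636397787973393664699229199936851083845)) (C.cons (nat_lit 81) (C.node (nat_lit 0) (nat_lit 4) (nat_lit 5) (C.cons (nat_lit 2097) (C.pat (nat_lit 3) (nat_lit 14300617623) (nat_lit 47300594141078271087971673973568697965129961345)) C.nil)) C.nil))) (C.cons (nat_lit 73) (C.node (nat_lit 0) (nat_lit 3) (nat_lit 11) C.nil) C.nil))) (C.cons (nat_lit 521) (C.node (nat_lit 0) (nat_lit 5) (nat_lit 9) C.nil) C.nil))) (C.cons (nat_lit 21) (C.node (nat_lit 0) (nat_lit 2) (nat_lit 10) C.nil) C.nil))) (C.cons (nat_lit 517) (C.node (nat_lit 0) (nat_lit 2) (nat_lit 4) (C.cons (nat_lit 1045) (C.node (nat_lit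 0) (nat_lit 2) (nat_lit 6) C.nil) (C.cons (nat_lit 85) (C.node (nat_lit 0) (nat_lit 2) (nat_lit 10) C.nil) C.nil))) C.nil))) C.nil)))) (List.cons (C.node (nat_lit 0) (nat_lit 2) (nat_lit 9) (C.cons (nat_lit 581) (C.node (nat_lit 0) (nat_lit 2) (nat_lit 3) (C.cons (nat_lit 2061) (C.node (nat_lit 0) (nat_lit 2) (nat_lit 4) (C.cons (nat_lit 1045) (C.node (nat_lit 0) (nat_lit 3) (nat_lit 6) (C.cons (nat_lit 105) (C.node (nat_lit 0) (nat_lit 3) (nat_lit 9) C.nil) C.nil)) C.nil)) C.nil)) (C.cons (nat_lit 525) (C.node (nat_lit 0) (nat_lit 5) (nat_lit 9) (C.cons (nat_lit 609) (C.node (nat_lit 0) (nat_lit 3) (nat_lit 5) (C.cons (nat_lit 2089) (C.node (nat_lit 0) (nat_lit 3) (nat_lit 6) C.nil) C.nil)) C.nil)) C.nil))) (List.cons (C.node (nat_lit 0) (nat_lit 2) (nat_lit 4) (C.cons (nat_lit 2069) (C.node (nat_lit 0) (nat_lit 2) (nat_lit 3) (C.cons (nat_lit 525) (C.node (nat_lit 0) (nat_lit 2) (nat_lit 6) C.nil)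 (C.cons (nat_lit 77) (C.node (nat_lit 0) (nat_lit 2) (nat_lit 9) C.nil) C.nil))) (C.cons (nat_lit 85) (C.node (nat_lit 0) (nat_lit 2) (nat_lit 9) (C.cons (nat_lit 525) (C.node (nat_lit 0) (nat_lit 2) (nat_lit 11) C.nil) C.nil)) C.nil))) (List.cons (C.node (nat_lit 0) (nat_lit 1) (nat_lit 3) (C.cons (nat_lit 2059) (C.ref (nat_lit 161) (nat_lit 188671308608016)) (C.cons (nat_lit 11) (C.node (nat_lit 0) (nat_lit 1) (nat_lit 11) (C.cons (nat_lit 2051) (C.ref (nat_lit 163) (nat_lit 205163983024656)) C.nil)) C.nil))) (List.cons (C.node (nat_lit 0) (nat_lit 1) (nat_lit 2) (C.cons (nat_lit 2055) (C.node (nat_lit 0) (nat_lit 1) (nat_lit 3) (C.cons (nat_lit 11) (C.ref (nat_lit 163) (nat_lit 188671308608016)) C.nil)) (C.cons (nat_lit 15) (C.node (nat_lit 0) (nat_lit 1) (nat_lit 11) (C.cons (nat_lit 2051) (C.node (nat_lit 0) (nat_lit 2) (nat_lit 9) (C.cons (nat_lit 581) (C.node (nat_lit 0) (nat_lit 2) (nat_lit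 10) (C.cons (nat_lit 1045) (C.node (nat_lit 0) (nat_lit 2) (nat_lit 11) C.nil) C.nil)) C.nil)) C.nil)) (C.cons (nat_lit 7) (C.node (nat_lit 0) (nat_lit 1) (nat_lit 3) (C.cons (nat_lit 2059) (C.ref (nat_lit 162) (nat_lit 188671308608016)) C.nil)) C.nil)))) (List.cons (C.node (nat_lit 0) (nat_lit 1) (nat_lit 10) (C.cons (nat_lit 1035) (C.node (nat_lit 0) (nat_lit 1) (nat_lit 2) (C.cons (nat_lit 2055) (C.ref (nat_lit 161) (nat_lit 205163983024656)) (C.cons (nat_lit 7) (C.node (nat_lit 0) (nat_lit 1) (nat_lit 11) (C.cons (nat_lit 2051) (C.ref (nat_lit 162) (nat_lit 205163983024656)) C.nil)) C.nil))) (C.cons (nat_lit 1031)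
  (C.ref (nat_lit 164) (nat_lit 205163983024656)) (C.cons (nat_lit 1027) (C.ref (nat_lit 165) (nat_lit 205163983024656)) C.nil)))) (List.cons (C.node (nat_lit 0) (nat_lit 1) (nat_lit 9) (C.cons (nat_lit 531) (C.ref (nat_lit 166) (nat_lit 205163983024656)) (C.cons (nat_lit 523) (C.ref (nat_lit 166) (nat_lit 205163982963216)) (C.cons (nat_lit 519) (C.node (nat_lit 0) (nat_lit 1) (nat_lit 3) (C.cons (nat_lit 2059) (C.ref (nat_lit 164) (nat_lit 186609724244496)) (C.cons (nat_lit 1035) (C.ref (nat_lit 164) (nat_lit 204133190812176)) (C.cons (nat_lit 11) (C.node (nat_lit 0) (nat_lit 1) (nat_lit 10) (C.cons (nat_lit 1043) (C.node (nat_lit 0) (nat_lit 1) (nat_lit 11) (C.cons (nat_lit 2051) (C.ref (nat_lit 163) (nat_lit 204133190873616)) C.nil)) (C.cons (nat_lit 1027) (C.node (nat_lit 0) (nat_lit 1) (nat_lit 4) (C.cons (nat_lit 2067) (C.ref (nat_lit 163) (nat_lit 186609724305936)) C.nil)) C.nil))) C.nil))))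 (C.cons (nat_lit 515) (C.node (nat_lit 0) (nat_lit 1) (nat_lit 3) (C.cons (nat_lit 2059) (C.ref (nat_lit 165) (nat_lit 186609724244496)) (C.cons (nat_lit 1035) (C.ref (nat_lit 165) (nat_lit 204133190812176)) (C.cons (nat_lit 15) (C.node (nat_lit 0) (nat_lit 1) (nat_lit 10) (C.cons (nat_lit 1043) (C.node (nat_lit 0) (nat_lit 1) (nat_lit 11) (C.cons (nat_lit 2051) (C.node (nat_lit 0) (nat_lit 2) (nat_lit 10) (C.cons (nat_lit 1093) (C.node (nat_lit 0) (nat_lit 2) (nat_lit 9) (C.cons (nat_lit 533) (C.node (nat_lit 0) (nat_lit 2) (nat_lit 11) C.nil) C.nil)) C.nil)) C.nil)) (C.cons (nat_lit 1027) (C.node (nat_lit 0) (nat_lit 1) (nat_lit 4) (C.cons (nat_lit 2067) (C.node (nat_lit 0) (nat_lit 2) (nat_lit 11) (C.cons (nat_lit 2117) (C.node (nat_lit 0) (nat_lit 2) (nat_lit 9) (C.cons (nat_lit 533) (C.node (nat_lit 0) (nat_lit 2) (nat_lit 10) C.nil) C.nil)) C.nil)) C.nil)) C.nil))) (C.cons (nat_lit 11) (C.node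 (nat_lit 0) (nat_lit 1) (nat_lit 10) (C.cons (nat_lit 1043) (C.node (nat_lit 0) (nat_lit 1) (nat_lit 2) (C.cons (nat_lit 2055) (C.ref (nat_lit 163) (nat_lit 171147842040336)) C.nil)) (C.cons (nat_lit 1031) (C.node (nat_lit 0) (nat_lit 1) (nat_lit 4) (C.cons (nat_lit 2067) (C.ref (nat_lit 163) (nat_lit 170117049889296)) C.nil)) C.nil))) C.nil))))) C.nil))))) (List.cons (C.node (nat_lit 0) (nat_lit 4) (nat_lit 8) (C.cons (nat_lit 337) (C.ref (nat_lit 140) (nat_lit 205163982963216)) (C.cons (nat_lit 273) (C.node (nat_lit 0) (nat_lit 6) (nat_lit 8) (C.cons (nat_lit 321) (C.ref (nat_lit 167) (nat_lit 205163983024656)) C.nil)) C.nil))) List.nil)))))))))))))))))))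

theorem ok12_150 : okL par12 (nat_lit 169) c12_150 (nat_lit 150) = true := by decide +kernel


end Pool.Agent.MP_1f1ca1_co
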