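import Pool.Agent.MP_1f1ca1_co.Cert.P12

set_option autoImplicit false
set_option maxRecDepth 1000000
set_option maxHeartbeats 0

namespace Pool.Agent.MP_1f1ca1_co

noncomputable def c12_243 : List C :=
  (List.cons (C.node (nat_lit 3) (nat_lit 4) (nat_lit 7) (C.cons (nat_lit 216) (C.node (nat_lit 3) (nat_lit 4) (nat_lit 9) (C.cons (nat_lit 1560) (C.miq (nat_lit 1464011674) (nat_lit 261147623459002638166134529)) (C.cons (nat_lit 792) (C.miq (nat_lit 2838760295) (nat_lit 957490851353253310165944545)) (C.cons (nat_lit 536) (C.miq (nat_lit 2838760295) (nat_lit 648005841531908241441163489)) C.nil)))) (C.cons (nat_lit 184) (C.miq (nat_lit 2876442949) (nat_lit 2640313636901945617380016689)) (C.cons (nat_lit 152) (C.node (nat_lit 4) (nat_lit 6) (nat_lit 7) (C.cons (nat_lit 212) (C.miq (nat_lit 2873493874) (nat_lit 2575032159151589705815163525)) (C.cons (nat_lit 208) (C.node (nat_lit 3) (nat_lit 4) (nat_lit 9) (C.cons (nat_lit 1560) (C.miq (nat_lit 1464011674)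 (nat_lit 183776371003666370984939265)) (C.cons (nat_lit 792) (C.node (nat_lit 6) (nat_lit 7) (nat_lit 9) (C.cons (nat_lit 1728) (C.miq (nat_lit 611715994) (nat_lit 251476733355750573211651841)) (C.cons (nat_lit 962) (C.miq (nat_lit 611388312) (nat_lit 1415656986847057289475657473)) (C.cons (nat_lit 960) (C.miq (nat_lit 1766553648) (nat_lit 3268977345957456209608769929)) (C.cons (nat_lit 706) (C.miq (nat_lit 605621095) (nat_lit 640742583130313680209709281)) (C.cons (nat_lit 704) (C.node (nat_lit 7) (nat_lit 8) (nat_lit 9) (C.cons (nat_lit 930) (C.miq (nat_lit 611388312) (nat_lit 1415656986847057289473560321)) (C.cons (nat_lit 928) (C.miq (nat_lit 1498118192) (nat_lit 3268977345948449010354028937)) (C.cons (nat_lit 898) (C.miq (nat_lit 611388312) (nat_lit 1415656986847057289471463169)) (C.cons (nat_lit 896) (C.node (nat_lit 1) (nat_lit 3) (nat_lit 4) (C.cons (nat_lit 58) (C.node (nat_lit 1) (nat_lit 4) (nat_lit 8) (C.cons (nat_lit 274) (C.node (nat_lit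 1) (nat_lit 3) (nat_lit 11) (C.cons (nat_lit 2314) (C.miq (nat_lit 2958133571) (nat_lit 42355090533446380043240216)) (C.cons (nat_lit 2058) (C.node (nat_lit 1) (nat_lit 8) (nat_lit 9) (C.cons (nat_lit 866) (C.miq (nat_lit 2168165696) (nat_lit 2488040190954651539008717361)) (C.cons (nat_lit 834) (C.miq (nat_lit 728236945) (nat_lit 2862741192925768102352912907)) (C.cons (nat_lit 802) (C.miq (nat_lit 2168165696) (nat_lit 2488040190936637140499235377)) (C.cons (nat_lit 770) (C.node (nat_lit 1) (nat_lit 7) (nat_lit 9) (C.cons (nat_lit 674) (C.node (nat_lit 3) (nat_lit 5) (nat_lit 7) (C.cons (nat_lit 172) (C.miq (nat_lit 2503110976) (nat_lit 207947139313358144257459347)) (C.cons (nat_lit 168) (C.node (nat_lit 3) (nat_lit 5) (nat_lit 9) (C.cons (nat_lit 556) (C.node (nat_lit 5) (nat_lit 9) (nat_lit 11) (C.cons (nat_lit 2592) (C.node (nat_lit 1) (nat_lit 9) (nat_lit 11) (C.cons (nat_lit 2566) (C.node (nat_lit 2) (nat_lit 7) (nat_lit 11) (C.cons (nat_lit 2436)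 (C.miq (nat_lit 2199613586) (nat_lit 2488014273146092310296396421)) C.nil)) C.nil)) C.nil)) (C.cons (nat_lit 552) (C.miq (nat_lit 693307156) (nat_lit 667365366496270653966648467)) C.nil))) C.nil))) (C.cons (nat_lit 642) (C.node (nat_lit 2) (nat_lit 3) (nat_lit 9) (C.cons (nat_lit 1548) (C.miq (nat_lit 1647577752) (nat_lit 2510945144199996434189651713)) (C.cons (nat_lit 556) (C.miq (nat_lit 1500590596) (nat_lit 776131446260251062697134109)) (C.cons (nat_lit 524) (C.node (nat_lit 3) (nat_lit 5) (nat_lit 9) (C.cons (nat_lit 680) (C.miq (nat_lit 1687488567) (nat_lit 678249314347946977631142281)) (C.cons (nat_lit 552) (C.node (nat_lit 5) (nat_lit 7) (nat_lit 9) (C.cons (nat_lit 1696) (C.miq (nat_lit 1397203129) (nat_lit 183788010559152416976015105)) (C.cons (nat_lit 672) (C.node (nat_lit 2) (nat_lit 4) (nat_lit 9) C.nil) C.nil))) C.nil))) C.nil)))) C.nil))) C.nil))))) C.nil))) C.nil)) (C.cons (nat_lit 26) (C.node (nat_lit 3) (nat_lit 4) (nat_lit 5) (C.cons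 (nat_lit 120) (C.miq (nat_lit 2204865616) (nat_lit 3181963611392619803314291249)) (C.cons (nat_lit 56) (C.node (nat_lit 1) (nat_lit 4) (nat_lit 5) (C.cons (nat_lit 306) (C.node (nat_lit 1) (nat_lit 8) (nat_lit 9) (C.cons (nat_lit 834) (C.miq (nat_lit 728236945) (nat_lit 2862741192925768102352912907)) (C.cons (nat_lit 770)
  (C.node (nat_lit 5) (nat_lit 8) (nat_lit 9) (C.cons (nat_lit 868) (C.miq (nat_lit 2035548801) (nat_lit 678228986122672368925147399)) (C.cons (nat_lit 864) (C.miq (nat_lit 996687961) (nat_lit 2862750951253381552814424625)) (C.cons (nat_lit 804) (C.miq (nat_lit 2035548801) (nat_lit 678228986122672094047240455)) (C.cons (nat_lit 800) (C.node (nat_lit 1) (nat_lit 7) (nat_lit 9) (C.cons (nat_lit 674) (C.node (nat_lit 3) (nat_lit 5) (nat_lit 9) (C.cons (nat_lit 556) (C.miq (nat_lit 355760416) (nat_lit 67721447225446070109405829)) (C.cons (nat_lit 552) (C.node (nat_lit 2) (nat_lit 3) (nat_lit 9) (C.cons (nat_lit 1548) (C.miq (nat_lit 1647577752)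 (nat_lit 2510945144199996434189651713)) (C.cons (nat_lit 524) (C.node (nat_lit 4) (nat_lit 5) (nat_lit 7) (C.cons (nat_lit 180) (C.miq (nat_lit 630408976) (nat_lit 667365366365384789826667667)) (C.cons (nat_lit 176) (C.node (nat_lit 1) (nat_lit 9) (nat_lit 11) C.nil) C.nil))) C.nil))) C.nil))) (C.cons (nat_lit 642) (C.node (nat_lit 5) (nat_lit 7) (nat_lit 9) (C.cons (nat_lit 1696) (C.miq (nat_lit 1397203129) (nat_lit 183788010559152416976015105)) (C.cons (nat_lit 680) (C.miq (nat_lit 1687488567) (nat_lit 678249314347946977631142281)) (C.cons (nat_lit 672) (C.node (nat_lit 2) (nat_lit 8) (nat_lit 9) (C.cons (nat_lit 836) (C.node (nat_lit 2) (nat_lit 4) (nat_lit 9) (C.cons (nat_lit 1556) (C.miq (nat_lit 645177529) (nat_lit 251485273921283472583823105)) C.nil)) (C.cons (nat_lit 772) (C.node (nat_lit 6) (nat_lit 8) (nat_lit 9) (C.cons (nat_lit 832) (C.node (nat_lit 2) (nat_lit 4) (nat_lit 9) C.nil) C.nil)) C.nil))) C.nil)))) C.nil))) C.nil))))) C.nil))) (C.cons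 (nat_lit 50) (C.node (nat_lit 1) (nat_lit 4) (nat_lit 8) (C.cons (nat_lit 274) (C.node (nat_lit 3) (nat_lit 4) (nat_lit 6) (C.cons (nat_lit 88) (C.node (nat_lit 3) (nat_lit 4) (nat_lit 10) C.nil) C.nil)) C.nil)) C.nil))) C.nil))) C.nil))) C.nil))))) C.nil)))))) (C.cons (nat_lit 536) (C.node (nat_lit 4) (nat_lit 8) (nat_lit 9) (C.cons (nat_lit 788) (C.node (nat_lit 2) (nat_lit 4) (nat_lit 6) (C.cons (nat_lit 116) (C.miq (nat_lit 2188088400) (nat_lit 2558157888470345232079192625)) (C.cons (nat_lit 84) (C.node (nat_lit 2) (nat_lit 4) (nat_lit 7) (C.cons (nat_lit 180) (C.miq (nat_lit 2220593776) (nat_lit 2533979372078052923462976133)) (C.cons (nat_lit 148) (C.node (nat_lit 6) (nat_lit 7) (nat_lit 9) (C.cons (nat_lit 1728) (C.miq (nat_lit 611715994) (nat_lit 251476733355750573211651841)) (C.cons (nat_lit 962) (C.miq (nat_lit 611388312) (nat_lit 1415656986847057289475657473)) (C.cons (nat_lit 960) (C.miq (nat_lit 1749776672) (nat_lit 2804749831225438589341729413))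 (C.cons (nat_lit 706) (C.miq (nat_lit 605621095) (nat_lit 640742583130313680209709281)) (C.cons (nat_lit 704) (C.node (nat_lit 6) (nat_lit 8) (nat_lit 9) (C.cons (nat_lit 866) (C.miq (nat_lit 728252505) (nat_lit 2862750877466405257976349233)) (C.cons (nat_lit 864) (C.miq (nat_lit 728252505) (nat_lit 2862750877466405257976218161)) (C.cons (nat_lit 834) (C.miq (nat_lit 728236945) (nat_lit 2862741192925768102352912907)) (C.cons (nat_lit 832) (C.node (nat_lit 4) (nat_lit 6) (nat_lit 9) (C.cons (nat_lit 592) (C.node (nat_lit 3) (nat_lit 4) (nat_lit 6) C.nil) C.nil)) C.nil))))) C.nil)))))) C.nil))) C.nil))) (C.cons (nat_lit 784) (C.node (nat_lit 2) (nat_lit 4) (nat_lit 9) (C.cons (nat_lit 1556) (C.miq (nat_lit 645177529) (nat_lit 251485273921283472583823105)) (C.cons (nat_lit 596) (C.node (nat_lit 4) (nat_lit 9) (nat_lit 10) (C.cons (nat_lit 1552) (C.node (nat_lit 6) (nat_lit 7) (nat_lit 9) (C.cons (nat_lit 1728) (C.miq (nat_lit 611715994) (nat_lit 251476733355750573211651841))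 (C.cons (nat_lit 962) (C.miq (nat_lit 611388312) (nat_lit 1415656986847057289475657473)) (C.cons (nat_lit 960) (C.miq (nat_lit 946079634) (nat_lit 407446315208194915669639813)) (C.cons (nat_lit 706) (C.miq (nat_lit 605621095) (nat_lit 640742583130313680209709281)) (C.cons (nat_lit 704) (C.node (nat_lit 6) (nat_lit 9) (nat_lit 10) (C.cons (nat_lit 1634)
  (C.miq (nat_lit 907327904) (nat_lit 2575050310407450393618616065)) (C.cons (nat_lit 1632) (C.miq (nat_lit 1497605664) (nat_lit 648003885555249460243399749)) (C.cons (nat_lit 1602) (C.miq (nat_lit 907327904) (nat_lit 2575050310407450256179662593)) (C.cons (nat_lit 1600) (C.node (nat_lit 7) (nat_lit 9) (nat_lit 10) (C.cons (nat_lit 1696) (C.miq (nat_lit 1397203129) (nat_lit 183788010559152416976015105)) (C.cons (nat_lit 1672) (C.node (nat_lit 6) (nat_lit 7) (nat_lit 10) (C.cons (nat_lit 1472) (C.node (nat_lit 3) (nat_lit 4) (nat_lit 6) C.nil) (C.cons (nat_lit 1216) (C.node (nat_lit 3) (nat_lit 4) (nat_lit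 6) C.nil) C.nil))) (C.cons (nat_lit 1664) (C.node (nat_lit 3) (nat_lit 7) (nat_lit 9) (C.cons (nat_lit 680) (C.node (nat_lit 1) (nat_lit 7) (nat_lit 9) (C.cons (nat_lit 898) (C.miq (nat_lit 611388312) (nat_lit 1415656986847057289471463169)) (C.cons (nat_lit 642) (C.node (nat_lit 7) (nat_lit 8) (nat_lit 9) C.nil) C.nil))) (C.cons (nat_lit 648) (C.node (nat_lit 6) (nat_lit 8) (nat_lit 9) (C.cons (nat_lit 866) (C.miq (nat_lit 728236945) (nat_lit 2862741192925768102355010059)) (C.cons (nat_lit 864) (C.node (nat_lit 1) (nat_lit 6) (nat_lit 9) C.nil) (C.cons (nat_lit 834) (C.miq (nat_lit 728236945) (nat_lit 2862741192925768102352912907)) C.nil)))) C.nil))) C.nil)))) C.nil))))) C.nil)))))) C.nil)) (C.cons (nat_lit 532) (C.node (nat_lit 2) (nat_lit 4) (nat_lit 6) (C.cons (nat_lit 116) (C.node (nat_lit 2) (nat_lit 4) (nat_lit 10) (C.cons (nat_lit 1300) (C.miq (nat_lit 2220597856) (nat_lit 2533979372222167836660925509)) (C.cons (nat_lit 1044) (C.node (nat_lit 2)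 (nat_lit 4) (nat_lit 7) (C.cons (nat_lit 148) (C.node (nat_lit 2) (nat_lit 4) (nat_lit 8) C.nil) C.nil)) C.nil))) (C.cons (nat_lit 84) (C.node (nat_lit 4) (nat_lit 6) (nat_lit 9) (C.cons (nat_lit 1616) (C.node (nat_lit 3) (nat_lit 4) (nat_lit 6) (C.cons (nat_lit 88) (C.node (nat_lit 4) (nat_lit 5) (nat_lit 6) C.nil) C.nil)) (C.cons (nat_lit 592) (C.node (nat_lit 4) (nat_lit 9) (nat_lit 10) C.nil) C.nil))) C.nil))) C.nil)))) C.nil))) C.nil)))) C.nil))) C.nil)))) List.nil)

theorem ok12_243 : okL par12 (nat_lit 244) c12_243 (nat_lit 243) = true := by decide +kernel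

noncomputable def c12_244 : List C :=
  (List.cons (C.node (nat_lit 1) (nat_lit 4) (nat_lit 9) (C.cons (nat_lit 786) (C.node (nat_lit 1) (nat_lit 3) (nat_lit 4) (C.cons (nat_lit 58) (C.node (nat_lit 3) (nat_lit 4) (nat_lit 8) (C.cons (nat_lit 1304) (C.miq (nat_lit 329794825) (nat_lit 1576453767934648502565536305)) (C.cons (nat_lit 280) (C.node (nat_lit 3) (nat_lit 7) (nat_lit 11) (C.cons (nat_lit 3208) (C.miq (nat_lit 1951643914) (nat_lit 70176875453747698946608897)) (C.cons (nat_lit 2186) (C.miq (nat_lit 826833760) (nat_lit 950222944402832946564761825)) (C.cons (nat_lit 2184) (C.node (nat_lit 3) (nat_lit 10) (nat_lit 11) (C.cons (nat_lit 3082) (C.miq (nat_lit 2974393168) (nat_lit 950286549028591777073923113)) (C.cons (nat_lit 3080) (C.node (nat_lit 1) (nat_lit 3) (nat_lit 11) (C.cons (nat_lit 2314) (C.miq (nat_lit 1501642931) (nat_lit 950216764286178765528762397)) (C.cons (nat_lit 2058) (C.node (nat_lit 4) (nat_lit 9) (nat_lit 10) (C.cons (nat_lit 1624)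 (C.miq (nat_lit 1678944640) (nat_lit 26616530779913144423091969)) (C.cons (nat_lit 1616) (C.miq (nat_lit 1678944640) (nat_lit 26616530777661344609406721)) (C.cons (nat_lit 1560) (C.miq (nat_lit 1949677984) (nat_lit 70159627748043071188176641)) (C.cons (nat_lit 1556) (C.miq (nat_lit 1800013714) (nat_lit 3733183093901051691789451909)) (C.cons (nat_lit 1552) (C.node (nat_lit 2) (nat_lit 4) (nat_lit 9) (C.cons (nat_lit 596) (C.node (nat_lit 3) (nat_lit 4) (nat_lit 9) (C.cons (nat_lit 536) (C.node (nat_lit 4) (nat_lit 5) (nat_lit 6) (C.cons (nat_lit 1136) (C.miq (nat_lit 2220527920) (nat_lit 1373410585247445441726448139)) (C.cons (nat_lit 112) (C.node (nat_lit 5) (nat_lit 6) (nat_lit 10) (C.cons (nat_lit 1634) (C.miq (nat_lit 874122085) (nat_lit 1415671781135801939268864225)) (C.cons (nat_lit 1632) (C.miq (nat_lit 1497605664) (nat_lit 648003885555249460243399749)) (C.cons (nat_lit 1378) (C.miq (nat_lit 874122085) (nat_lit 1415671781135801939252087009)) (C.cons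 (nat_lit 1376) (C.miq (nat_lit 1168642825) (nat_lit 1663496426946901803144380939)) (C.cons (nat_lit 1122) (C.miq (nat_lit 874122085) (nat_lit 1415671781135801939235309793)) (C.cons (nat_lit 1120) (C.node (nat_lit 2) (nat_lit 6) (nat_lit 11) (C.cons (nat_lit 2372) (C.node (nat_lit 3) (nat_lit 6) (nat_lit 11) (C.cons (nat_lit 2632) (C.miq (nat_lit 1746514435) (nat_lit 950264246715160309227259933)) (C.cons (nat_lit 2120) (C.node (nat_lit 6) (nat_lit 9) (nat_lit 11) (C.cons (nat_lit 2624) (C.node (nat_lit 3) (nat_lit 8) (nat_lit 11) (C.cons (nat_lit 2344) (C.miq (nat_lit 2259005955) (nat_lit 1354040157804156790086633501)) (C.cons (nat_lit 2312) (C.node (nat_lit 3) (nat_lit 5) (nat_lit 11) (C.cons (nat_lit 2600) (C.miq (nat_lit 2761099189) (nat_lit 648003885425498549805123809)) (C.cons (nat_lit 2088) (C.node (nat_lit 3) (nat_lit 9) (nat_lit 11) C.nil) C.nil))) C.nil))) C.nil)) C.nil))) (C.cons (nat_lit 2116) (C.node (nat_lit 6) (nat_lit 8) (nat_lit 11) (C.cons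 (nat_lit 2376) (C.miq (nat_lit 1940981860) (nat_lit 2487990938014847026259427665)) (C.cons (nat_lit 2368) (C.node (nat_lit 3) (nat_lit 4) (nat_lit 7) (C.cons (nat_lit 216) (C.node (nat_lit 3) (nat_lit 4) (nat_lit 10) (C.cons (nat_lit 1048) (C.node (nat_lit 4) (nat_lit 6) (nat_lit 10) (C.cons (nat_lit 1104) (C.node (nat_lit 3) (nat_lit 6) (nat_lit 11) (C.cons (nat_lit 2632) (C.miq (nat_lit 2471147120) (nat_lit 1267025113640961559971956961)) C.nil)) C.nil)) C.nil)) (C.cons (nat_lit 152) (C.node (nat_lit 4) (nat_lit 6) (nat_lit 7) (C.cons (nat_lit 208) (C.node (nat_lit 3) (nat_lit 4) (nat_lit 6) (C.cons (nat_lit 1112) (C.node (nat_lit 3) (nat_lit 6) (nat_lit 11) (C.cons (nat_lit 2632) (C.node (nat_lit 3) (nat_lit 5) (nat_lit 11) C.nil) C.nil)) C.nil)) C.nil)) C.nil))) C.nil))) C.nil))) C.nil))))))) C.nil))) C.nil)) (C.cons (nat_lit 532) (C.node (nat_lit 3) (nat_lit 4) (nat_lit 7) (C.cons (nat_lit 216) (C.node (nat_lit 3) (nat_lit 4) (nat_lit 9) (C.cons (nat_lit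 536) (C.node (nat_lit 3) (nat_lit 4) (nat_lit 10) (C.cons (nat_lit 1048) (C.node (nat_lit 4) (nat_lit 6) (nat_lit 9) (C.cons (nat_lit 592)
  (C.node (nat_lit 4) (nat_lit 6) (nat_lit 10) (C.cons (nat_lit 1136) (C.miq (nat_lit 2220527920) (nat_lit 1373410585247445441726448139)) C.nil)) C.nil)) C.nil)) C.nil)) (C.cons (nat_lit 152) (C.node (nat_lit 4) (nat_lit 6) (nat_lit 7) (C.cons (nat_lit 212) (C.miq (nat_lit 2839677814) (nat_lit 643168699407412284634695905)) (C.cons (nat_lit 208) (C.node (nat_lit 2) (nat_lit 4) (nat_lit 6) (C.cons (nat_lit 116) (C.node (nat_lit 2) (nat_lit 4) (nat_lit 10) (C.cons (nat_lit 1300) (C.miq (nat_lit 2220597856) (nat_lit 2533979372222167836660925509)) (C.cons (nat_lit 1044) (C.node (nat_lit 4) (nat_lit 5) (nat_lit 7) (C.cons (nat_lit 432) (C.miq (nat_lit 2823096595) (nat_lit 522275600937107065539265035)) C.nil)) C.nil))) (C.cons (nat_lit 84) (C.node (nat_lit 4) (nat_lit 5) (nat_lit 6) (C.cons (nat_lit 1136) (C.miq (nat_lit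 2220527920) (nat_lit 1373410585247445441726448139)) C.nil)) C.nil))) C.nil))) C.nil))) C.nil))) C.nil)))))) C.nil))) C.nil))) C.nil)))) C.nil))) (C.cons (nat_lit 26) (C.node (nat_lit 1) (nat_lit 4) (nat_lit 5) (C.cons (nat_lit 50) (C.node (nat_lit 1) (nat_lit 7) (nat_lit 9) (C.cons (nat_lit 706) (C.miq (nat_lit 605621095) (nat_lit 950227592951658748934490337)) (C.cons (nat_lit 674) (C.node (nat_lit 1) (nat_lit 7) (nat_lit 8) (C.cons (nat_lit 2434) (C.miq (nat_lit 1900394640) (nat_lit 60488221115124469740932865)) (C.cons (nat_lit 450) (C.miq (nat_lit 873991015) (nat_lit 950222944372152174110705889)) (C.cons (nat_lit 386) (C.miq (nat_lit 1729627540) (nat_lit 466651583563795218478268977)) C.nil)))) (C.cons (nat_lit 642) (C.node (nat_lit 2) (nat_lit 4) (nat_lit 9) (C.cons (nat_lit 1556) (C.miq (nat_lit 1800013714) (nat_lit 3733183093901051691789451909)) (C.cons (nat_lit 596) (C.node (nat_lit 2) (nat_lit 6) (nat_lit 11) (C.cons (nat_lit 2372) (C.node (nat_lit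 3) (nat_lit 6) (nat_lit 11) (C.cons (nat_lit 2632) (C.miq (nat_lit 1746514435) (nat_lit 950264246715160309227259933)) (C.cons (nat_lit 2120) (C.node (nat_lit 6) (nat_lit 9) (nat_lit 11) (C.cons (nat_lit 2624) (C.node (nat_lit 7) (nat_lit 8) (nat_lit 11) (C.cons (nat_lit 2434) (C.miq (nat_lit 1900394640) (nat_lit 60488221115124469740932865)) (C.cons (nat_lit 2432) (C.node (nat_lit 1) (nat_lit 7) (nat_lit 11) (C.cons (nat_lit 2186) (C.miq (nat_lit 826833760) (nat_lit 950222944402832946564761825)) (C.cons (nat_lit 2182) (C.miq (nat_lit 1093142454) (nat_lit 317953707441016882568890593)) (C.cons (nat_lit 2178) (C.node (nat_lit 2) (nat_lit 7) (nat_lit 11) (C.cons (nat_lit 3204) (C.miq (nat_lit 1919200128) (nat_lit 720541390529485315075280641)) (C.cons (nat_lit 2180) (C.node (nat_lit 6) (nat_lit 7) (nat_lit 8) (C.cons (nat_lit 1472) (C.miq (nat_lit 1948688568) (nat_lit 720546942427211607115566849)) (C.cons (nat_lit 960) (C.miq (nat_lit 946079634) (nat_lit 407446315208194915669639813))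 (C.cons (nat_lit 450) (C.miq (nat_lit 873991015) (nat_lit 950222944372152174110705889)) (C.cons (nat_lit 448) (C.node (nat_lit 1) (nat_lit 7) (nat_lit 8) (C.cons (nat_lit 418) (C.node (nat_lit 7) (nat_lit 8) (nat_lit 9) (C.cons (nat_lit 896) (C.node (nat_lit 5) (nat_lit 8) (nat_lit 11) (C.cons (nat_lit 2344) (C.miq (nat_lit 940881264) (nat_lit 950254008764318766840613089)) (C.cons (nat_lit 2336) (C.node (nat_lit 1) (nat_lit 8) (nat_lit 10) (C.cons (nat_lit 1354) (C.miq (nat_lit 826648720) (nat_lit 60465937144290453755072257)) (C.cons (nat_lit 1346) (C.miq (nat_lit 638892192) (nat_lit 2575050310334265662723264257)) (C.cons (nat_lit 1290) (C.miq (nat_lit 826648720) (nat_lit 60465937126276055245590273)) (C.cons (nat_lit 1282) (C.node (nat_lit 1) (nat_lit 6) (nat_lit 8) (C.cons (nat_lit 330) (C.node (nat_lit 1) (nat_lit 8) (nat_lit 11) C.nil) (C.cons (nat_lit 322) (C.node (nat_lit 1) (nat_lit 3) (nat_lit 8) C.nil) C.nil))) C.nil))))) C.nil))) C.nil)) (C.cons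 (nat_lit 386) (C.node (nat_lit 3) (nat_lit 4) (nat_lit 9) (C.cons (nat_lit 1560) (C.node (nat_lit 3) (nat_lit 4) (nat_lit 8) (C.cons (nat_lit 312) (C.miq (nat_lit 1949677984) (nat_lit 377226785930158881563545345)) (C.cons (nat_lit 280)
  (C.node (nat_lit 3) (nat_lit 9) (nat_lit 11) (C.cons (nat_lit 2600) (C.node (nat_lit 2) (nat_lit 3) (nat_lit 9) (C.cons (nat_lit 780) (C.miq (nat_lit 338823832) (nat_lit 2510943779162890079405084417)) (C.cons (nat_lit 524) (C.node (nat_lit 3) (nat_lit 7) (nat_lit 11) (C.cons (nat_lit 3208) (C.node (nat_lit 4) (nat_lit 6) (nat_lit 7) (C.cons (nat_lit 216) (C.miq (nat_lit 1463028649) (nat_lit 261138326299991653215637249)) (C.cons (nat_lit 208) (C.node (nat_lit 1) (nat_lit 3) (nat_lit 11) (C.cons (nat_lit 2058) (C.node (nat_lit 3) (nat_lit 8) (nat_lit 11) (C.cons (nat_lit 2312) (C.node (nat_lit 1) (nat_lit 8) (nat_lit 11) C.nil) C.nil)) C.nil)) C.nil))) (C.cons (nat_lit 2184) (C.miq (nat_lit 2813542489) (nat_lit 2640322767288722064818045489))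 C.nil))) C.nil))) (C.cons (nat_lit 2568) (C.miq (nat_lit 1402669639) (nat_lit 3104563434519424812979324051)) C.nil))) C.nil))) (C.cons (nat_lit 536) (C.node (nat_lit 4) (nat_lit 9) (nat_lit 10) (C.cons (nat_lit 1552) (C.node (nat_lit 3) (nat_lit 9) (nat_lit 11) (C.cons (nat_lit 2600) (C.miq (nat_lit 2761099189) (nat_lit 648003885425498549805123809)) (C.cons (nat_lit 2568) (C.node (nat_lit 3) (nat_lit 7) (nat_lit 11) (C.cons (nat_lit 3208) (C.miq (nat_lit 1404635764) (nat_lit 3104531853693577700333061267)) (C.cons (nat_lit 2184) (C.node (nat_lit 7) (nat_lit 10) (nat_lit 11) C.nil) C.nil))) C.nil))) C.nil)) C.nil))) C.nil))) C.nil))))) C.nil))) C.nil)))) C.nil))) C.nil)) C.nil))) (C.cons (nat_lit 2116) (C.node (nat_lit 3) (nat_lit 4) (nat_lit 9) (C.cons (nat_lit 1560) (C.node (nat_lit 3) (nat_lit 4) (nat_lit 8) (C.cons (nat_lit 312) (C.miq (nat_lit 1949677984) (nat_lit 377226785930158881563545345)) (C.cons (nat_lit 280) (C.node (nat_lit 4) (nat_lit 6) (nat_lit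 7) (C.cons (nat_lit 216) (C.miq (nat_lit 1464011674) (nat_lit 261147623459002638166134529)) (C.cons (nat_lit 208) (C.node (nat_lit 3) (nat_lit 4) (nat_lit 6) (C.cons (nat_lit 120) (C.miq (nat_lit 1949677984) (nat_lit 145113028564150080019959553)) (C.cons (nat_lit 88) (C.node (nat_lit 3) (nat_lit 4) (nat_lit 5) (C.cons (nat_lit 184) (C.node (nat_lit 6) (nat_lit 9) (nat_lit 11) (C.cons (nat_lit 2632) (C.miq (nat_lit 1665644960) (nat_lit 222484280999220148884934401)) (C.cons (nat_lit 2624) (C.node (nat_lit 3) (nat_lit 9) (nat_lit 11) (C.cons (nat_lit 2600) (C.node (nat_lit 2) (nat_lit 3) (nat_lit 9) (C.cons (nat_lit 780) (C.miq (nat_lit 338823832) (nat_lit 2510943779162890079405084417)) (C.cons (nat_lit 524) (C.node (nat_lit 3) (nat_lit 6) (nat_lit 11) (C.cons (nat_lit 2376) (C.miq (nat_lit 1399102336) (nat_lit 106395821481357862744690433)) (C.cons (nat_lit 2120) (C.node (nat_lit 6) (nat_lit 8) (nat_lit 11) (C.cons (nat_lit 2368) (C.node (nat_lit 4) (nat_lit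 5) (nat_lit 6) (C.cons (nat_lit 112) (C.node (nat_lit 4) (nat_lit 6) (nat_lit 10) C.nil) C.nil)) C.nil)) C.nil))) C.nil))) (C.cons (nat_lit 2568) (C.miq (nat_lit 1402669639) (nat_lit 3104563434519424812979324051)) C.nil))) C.nil))) (C.cons (nat_lit 56) (C.miq (nat_lit 1949677984) (nat_lit 67741776108813812838764289)) C.nil))) C.nil))) C.nil))) C.nil))) (C.cons (nat_lit 536) (C.node (nat_lit 4) (nat_lit 9) (nat_lit 10) (C.cons (nat_lit 1552) (C.node (nat_lit 4) (nat_lit 6) (nat_lit 7) (C.cons (nat_lit 216) (C.node (nat_lit 3) (nat_lit 4) (nat_lit 10) (C.cons (nat_lit 1304) (C.miq (nat_lit 2758509424) (nat_lit 2575082850090191558004507017)) (C.cons (nat_lit 1048) (C.node (nat_lit 6) (nat_lit 8) (nat_lit 11) (C.cons (nat_lit 2376) (C.miq (nat_lit 2202711664) (nat_lit 1267025113568903965934029025)) (C.cons (nat_lit 2368) (C.node (nat_lit 3) (nat_lit 6) (nat_lit 11) (C.cons (nat_lit 2632) (C.miq (nat_lit 2471147120) (nat_lit 1267025113640961559971956961))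 (C.cons (nat_lit 2120) (C.node (nat_lit 6) (nat_lit 9) (nat_lit 11) (C.cons (nat_lit 2624) (C.node (nat_lit 3) (nat_lit 9) (nat_lit 11) (C.cons (nat_lit 2600) (C.miq (nat_lit 2761099189) (nat_lit 648003885425498549805123809)) (C.cons (nat_lit 2568) (C.node (nat_lit 3) (nat_lit 7) (nat_lit 11) (C.cons (nat_lit 3208)
  (C.miq (nat_lit 1400113849) (nat_lit 261138325959969881424137985)) (C.cons (nat_lit 2186) (C.miq (nat_lit 826833760) (nat_lit 950222944402832946564761825)) (C.cons (nat_lit 2184) (C.node (nat_lit 6) (nat_lit 7) (nat_lit 9) (C.cons (nat_lit 1728) (C.miq (nat_lit 611715994) (nat_lit 261148139912667606609301249)) (C.cons (nat_lit 960) (C.miq (nat_lit 2252568864) (nat_lit 261135226877399407169176197)) (C.cons (nat_lit 704) (C.node (nat_lit 4) (nat_lit 5) (nat_lit 6) (C.cons (nat_lit 1136) (C.node (nat_lit 6) (nat_lit 7) (nat_lit 10) (C.cons (nat_lit 1472) (C.miq (nat_lit 2252056384) (nat_lit 2562993591941333062331991187)) (C.cons (nat_lit 1216)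 (C.node (nat_lit 2) (nat_lit 4) (nat_lit 10) C.nil) C.nil))) C.nil)) C.nil)))) C.nil)))) C.nil))) C.nil)) C.nil))) C.nil))) C.nil))) (C.cons (nat_lit 208) (C.node (nat_lit 3) (nat_lit 4) (nat_lit 7) (C.cons (nat_lit 184) (C.miq (nat_lit 2839743349) (nat_lit 648003886177036737464240353)) (C.cons (nat_lit 152) (C.node (nat_lit 3) (nat_lit 7) (nat_lit 11) (C.cons (nat_lit 3208) (C.miq (nat_lit 1400113849) (nat_lit 183767073504633614242942721)) (C.cons (nat_lit 2186) (C.miq (nat_lit 826833760) (nat_lit 950222944402832946564761825)) (C.cons (nat_lit 2184) (C.node (nat_lit 6) (nat_lit 8) (nat_lit 11) (C.cons (nat_lit 2376) (C.miq (nat_lit 389759110) (nat_lit 2640333281932836004709269841)) (C.cons (nat_lit 2368) (C.node (nat_lit 3) (nat_lit 6) (nat_lit 11) (C.cons (nat_lit 2632) (C.node (nat_lit 6) (nat_lit 7) (nat_lit 9) (C.cons (nat_lit 1728) (C.miq (nat_lit 611715994) (nat_lit 251476733355750573211651841)) (C.cons (nat_lit 960) (C.miq (nat_lit 946079634)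 (nat_lit 407446315208194915669639813)) (C.cons (nat_lit 704) (C.node (nat_lit 6) (nat_lit 8) (nat_lit 9) (C.cons (nat_lit 864) (C.miq (nat_lit 1494706240) (nat_lit 776172305885069227771232593)) (C.cons (nat_lit 832) (C.node (nat_lit 6) (nat_lit 9) (nat_lit 10) (C.cons (nat_lit 1634) (C.miq (nat_lit 907327904) (nat_lit 2575050310407450393618616065)) (C.cons (nat_lit 1632) (C.miq (nat_lit 1497605664) (nat_lit 648003885555249460243399749)) (C.cons (nat_lit 1602) (C.miq (nat_lit 907327904) (nat_lit 2575050310407450256179662593)) C.nil)))) C.nil))) C.nil)))) (C.cons (nat_lit 2120) (C.node (nat_lit 6) (nat_lit 9) (nat_lit 11) (C.cons (nat_lit 2624) (C.node (nat_lit 3) (nat_lit 9) (nat_lit 11) (C.cons (nat_lit 2600) (C.miq (nat_lit 2761099189) (nat_lit 648003885425498549805123809)) (C.cons (nat_lit 2568) (C.node (nat_lit 3) (nat_lit 10) (nat_lit 11) C.nil) C.nil))) C.nil)) C.nil))) C.nil))) C.nil)))) C.nil))) C.nil))) C.nil)) C.nil))) C.nil))) (C.cons (nat_lit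 532) (C.node (nat_lit 2) (nat_lit 4) (nat_lit 6) (C.cons (nat_lit 212) (C.miq (nat_lit 2839677814) (nat_lit 643168699407412284634695905)) (C.cons (nat_lit 116) (C.node (nat_lit 2) (nat_lit 4) (nat_lit 10) (C.cons (nat_lit 1300) (C.miq (nat_lit 2220597856) (nat_lit 2533979372222167836660925509)) (C.cons (nat_lit 1044) (C.node (nat_lit 4) (nat_lit 5) (nat_lit 10) (C.cons (nat_lit 1328) (C.miq (nat_lit 1410574480) (nat_lit 31451717466221004165156609)) (C.cons (nat_lit 1072) (C.node (nat_lit 2) (nat_lit 6) (nat_lit 11) (C.cons (nat_lit 2628) (C.miq (nat_lit 2761033654) (nat_lit 643168698655874096975579361)) (C.cons (nat_lit 2372) (C.miq (nat_lit 2185868880) (nat_lit 643219390646628982342093025)) (C.cons (nat_lit 2116) (C.node (nat_lit 5) (nat_lit 6) (nat_lit 10) (C.cons (nat_lit 1634) (C.miq (nat_lit 874122085) (nat_lit 1415671781135801939268864225)) (C.cons (nat_lit 1632) (C.miq (nat_lit 2504762912) (nat_lit 2533979372315617528916018245)) (C.cons (nat_lit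 1378) (C.miq (nat_lit 874122085) (nat_lit 1415671781135801939252087009)) (C.cons (nat_lit 1376) (C.miq (nat_lit 2236327456) (nat_lit 2533979372243559934878090309)) (C.cons (nat_lit 1122) (C.miq (nat_lit 874122085) (nat_lit 1415671781135801939235309793)) (C.cons (nat_lit 1120) (C.node (nat_lit 2) (nat_lit 4) (nat_lit 7) (C.cons (nat_lit 404) (C.node (nat_lit 7) (nat_lit 8) (nat_lit 11) (C.cons (nat_lit 2434)
  (C.miq (nat_lit 1900394640) (nat_lit 60488221115124469740932865)) (C.cons (nat_lit 2432) (C.node (nat_lit 2) (nat_lit 8) (nat_lit 11) (C.cons (nat_lit 2340) (C.node (nat_lit 1) (nat_lit 7) (nat_lit 8) (C.cons (nat_lit 450) (C.miq (nat_lit 873991015) (nat_lit 950222944372152174110705889)) (C.cons (nat_lit 418) (C.miq (nat_lit 672445808) (nat_lit 950254008763192866933770465)) (C.cons (nat_lit 386) (C.node (nat_lit 6) (nat_lit 8) (nat_lit 11) (C.cons (nat_lit 2376) (C.miq (nat_lit 1752281860) (nat_lit 466684658604910095444936733)) (C.cons (nat_lit 2368)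 (C.node (nat_lit 5) (nat_lit 8) (nat_lit 10) (C.cons (nat_lit 1440) (C.miq (nat_lit 1948623032) (nat_lit 140261958716379244548853505)) (C.cons (nat_lit 1314) (C.miq (nat_lit 622114976) (nat_lit 60484605526829642640723713)) (C.cons (nat_lit 1312) (C.node (nat_lit 5) (nat_lit 9) (nat_lit 11) (C.cons (nat_lit 2600) (C.miq (nat_lit 1478078979) (nat_lit 950263656410342751266867229)) (C.cons (nat_lit 2594) (C.miq (nat_lit 1363589504) (nat_lit 2575053925958589149388803841)) (C.cons (nat_lit 2592) (C.node (nat_lit 3) (nat_lit 7) (nat_lit 11) (C.cons (nat_lit 3208) (C.miq (nat_lit 999663424) (nat_lit 3133555371126540660426998931)) (C.cons (nat_lit 2186) (C.miq (nat_lit 826833760) (nat_lit 950222944402832946564761825)) (C.cons (nat_lit 2184) (C.node (nat_lit 4) (nat_lit 5) (nat_lit 7) (C.cons (nat_lit 184) (C.miq (nat_lit 2876442949) (nat_lit 2640313636901945617380016689)) (C.cons (nat_lit 176) (C.node (nat_lit 1) (nat_lit 7) (nat_lit 11) C.nil) C.nil))) C.nil))))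 C.nil)))) C.nil)))) C.nil))) C.nil)))) (C.cons (nat_lit 2308) (C.node (nat_lit 4) (nat_lit 5) (nat_lit 7) (C.cons (nat_lit 184) (C.node (nat_lit 4) (nat_lit 5) (nat_lit 8) (C.cons (nat_lit 304) (C.node (nat_lit 4) (nat_lit 6) (nat_lit 7) C.nil) C.nil)) (C.cons (nat_lit 176) (C.node (nat_lit 4) (nat_lit 9) (nat_lit 10) (C.cons (nat_lit 1624) (C.miq (nat_lit 1678944640) (nat_lit 26616530779913144423091969)) (C.cons (nat_lit 1616) (C.miq (nat_lit 1678944640) (nat_lit 26616530777661344609406721)) (C.cons (nat_lit 1560) (C.miq (nat_lit 896835769) (nat_lit 212799721472710334483533569)) C.nil)))) C.nil))) C.nil))) C.nil))) (C.cons (nat_lit 148) (C.node (nat_lit 2) (nat_lit 4) (nat_lit 8) C.nil) C.nil))) C.nil))))))) C.nil)))) C.nil))) C.nil))) (C.cons (nat_lit 84) (C.node (nat_lit 4) (nat_lit 6) (nat_lit 7) (C.cons (nat_lit 216) (C.node (nat_lit 3) (nat_lit 4) (nat_lit 9) (C.cons (nat_lit 1560) (C.miq (nat_lit 1464011674) (nat_lit 261147623459002638166134529))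 (C.cons (nat_lit 536) (C.node (nat_lit 3) (nat_lit 4) (nat_lit 10) (C.cons (nat_lit 1304) (C.miq (nat_lit 2758509424) (nat_lit 2575082850090191558004507017)) (C.cons (nat_lit 1048) (C.node (nat_lit 4) (nat_lit 6) (nat_lit 9) (C.cons (nat_lit 1616) (C.miq (nat_lit 1678944640) (nat_lit 26616530777661344609406721)) C.nil)) C.nil))) C.nil))) (C.cons (nat_lit 208) (C.node (nat_lit 3) (nat_lit 4) (nat_lit 7) (C.cons (nat_lit 184) (C.node (nat_lit 3) (nat_lit 4) (nat_lit 8) (C.cons (nat_lit 1304) (C.miq (nat_lit 2486875984) (nat_lit 1576510123482572689574004961)) (C.cons (nat_lit 280) (C.node (nat_lit 3) (nat_lit 4) (nat_lit 6) (C.cons (nat_lit 1624) (C.miq (nat_lit 1678944640) (nat_lit 26616530779913144423091969)) (C.cons (nat_lit 1112) (C.miq (nat_lit 2486875984) (nat_lit 1344396366116563888030419169)) (C.cons (nat_lit 600) (C.miq (nat_lit 2839743349) (nat_lit 725375138632373004645435617)) C.nil)))) C.nil))) (C.cons (nat_lit 152) (C.node (nat_lit 3) (nat_lit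 7) (nat_lit 11) (C.cons (nat_lit 3208) (C.miq (nat_lit 1400113849) (nat_lit 183767073504633614242942721)) (C.cons (nat_lit 2186) (C.miq (nat_lit 826833760) (nat_lit 950222944402832946564761825)) (C.cons (nat_lit 2184) (C.node (nat_lit 4) (nat_lit 9) (nat_lit 10) (C.cons (nat_lit 1624) (C.miq (nat_lit 1678944640) (nat_lit 26616530779913144423091969)) (C.cons (nat_lit 1616) (C.miq (nat_lit 1678944640) (nat_lit 26616530777661344609406721)) (C.cons (nat_lit 1560) (C.miq (nat_lit 1464011674) (nat_lit 183776371003666370984939265))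
  (C.cons (nat_lit 1552) (C.node (nat_lit 3) (nat_lit 4) (nat_lit 9) (C.cons (nat_lit 536) (C.node (nat_lit 4) (nat_lit 6) (nat_lit 9) C.nil) C.nil)) C.nil))))) C.nil)))) C.nil))) C.nil))) C.nil)))) C.nil)))) C.nil)))) C.nil)) C.nil))) (C.cons (nat_lit 530) (C.node (nat_lit 2) (nat_lit 6) (nat_lit 11) (C.cons (nat_lit 2628) (C.miq (nat_lit 1265269024) (nat_lit 3791212972209907030034809477)) (C.cons (nat_lit 2372) (C.node (nat_lit 7) (nat_lit 8) (nat_lit 11) (C.cons (nat_lit 2434) (C.miq (nat_lit 2709653430) (nat_lit 317967653179537689321670881)) (C.cons (nat_lit 2432) (C.node (nat_lit 1) (nat_lit 7) (nat_lit 11) (C.cons (nat_lit 2186) (C.miq (nat_lit 996700480) (nat_lit 2867579294311634817648755859)) (C.cons (nat_lit 2182) (C.miq (nat_lit 1093142454) (nat_lit 317953707441016882568890593)) (C.cons (nat_lit 2178) (C.node (nat_lit 2) (nat_lit 7) (nat_lit 11) (C.cons (nat_lit 3204) (C.miq (nat_lit 2072289888) (nat_lit 2804729503545106012268725317)) (C.cons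 (nat_lit 2180) (C.node (nat_lit 3) (nat_lit 6) (nat_lit 11) (C.cons (nat_lit 2632) (C.node (nat_lit 3) (nat_lit 7) (nat_lit 11) (C.cons (nat_lit 3208) (C.miq (nat_lit 1404635764) (nat_lit 3181903106148913967514256531)) (C.cons (nat_lit 2184) (C.node (nat_lit 7) (nat_lit 10) (nat_lit 11) (C.cons (nat_lit 3200) (C.node (nat_lit 2) (nat_lit 6) (nat_lit 7) (C.cons (nat_lit 212) (C.miq (nat_lit 2873493874) (nat_lit 2575032159151589705815163525)) (C.cons (nat_lit 206) (C.miq (nat_lit 2820737895) (nat_lit 317969092777113360054225121)) (C.cons (nat_lit 204) (C.miq (nat_lit 325192120) (nat_lit 246625718842298454581186305)) (C.cons (nat_lit 198) (C.miq (nat_lit 908172160) (nat_lit 239376960671699453069430529)) (C.cons (nat_lit 196) (C.node (nat_lit 1) (nat_lit 6) (nat_lit 7) (C.cons (nat_lit 962) (C.miq (nat_lit 611388312) (nat_lit 1415656986847057289475657473)) (C.cons (nat_lit 706) (C.miq (nat_lit 605621095) (nat_lit 640742583130313680209709281)) (C.cons (nat_lit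 450) (C.miq (nat_lit 1115753319) (nat_lit 317969092280591501152618721)) (C.cons (nat_lit 202) (C.miq (nat_lit 557219995) (nat_lit 244246771313128097662373633)) (C.cons (nat_lit 194) (C.node (nat_lit 6) (nat_lit 7) (nat_lit 8) (C.cons (nat_lit 1472) (C.miq (nat_lit 1114049418) (nat_lit 236971062366411346514284289)) (C.cons (nat_lit 960) (C.miq (nat_lit 426247090) (nat_lit 1160573638470958110659053597)) (C.cons (nat_lit 448) (C.node (nat_lit 6) (nat_lit 7) (nat_lit 9) (C.cons (nat_lit 1728) (C.miq (nat_lit 1197652384) (nat_lit 236987775293024171781852929)) (C.cons (nat_lit 704) (C.node (nat_lit 4) (nat_lit 6) (nat_lit 7) (C.cons (nat_lit 216) (C.miq (nat_lit 2842102580) (nat_lit 851105379227165942791800861)) (C.cons (nat_lit 208) (C.node (nat_lit 3) (nat_lit 4) (nat_lit 7) (C.cons (nat_lit 184) (C.miq (nat_lit 2876442949) (nat_lit 2640313636901945617380016689)) (C.cons (nat_lit 152) (C.node (nat_lit 3) (nat_lit 6) (nat_lit 7) (C.cons (nat_lit 1224) (C.node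 (nat_lit 7) (nat_lit 9) (nat_lit 10) (C.cons (nat_lit 1696) (C.miq (nat_lit 1397203129) (nat_lit 183788010559152416976015105)) (C.cons (nat_lit 1664) (C.node (nat_lit 3) (nat_lit 4) (nat_lit 6) C.nil) C.nil))) C.nil)) C.nil))) C.nil))) C.nil))) C.nil)))) C.nil)))))) C.nil)))))) C.nil)) C.nil))) (C.cons (nat_lit 2120) (C.node (nat_lit 6) (nat_lit 9) (nat_lit 11) (C.cons (nat_lit 2624) (C.node (nat_lit 3) (nat_lit 7) (nat_lit 11) (C.cons (nat_lit 3208) (C.node (nat_lit 3) (nat_lit 9) (nat_lit 11) (C.cons (nat_lit 2600) (C.node (nat_lit 3) (nat_lit 4) (nat_lit 7) (C.cons (nat_lit 216) (C.miq (nat_lit 1416859819) (nat_lit 261175938729264038122360577)) (C.cons (nat_lit 184) (C.node (nat_lit 1) (nat_lit 3) (nat_lit 4) (C.cons (nat_lit 282) (C.miq (nat_lit 834110560) (nat_lit 2633047684770468402225545553)) (C.cons (nat_lit 26) (C.node (nat_lit 4) (nat_lit 6) (nat_lit 7) (C.cons (nat_lit 212) (C.miq (nat_lit 2722301557) (nat_lit 2510958573429676356627073249))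 (C.cons (nat_lit 208) (C.node (nat_lit 7) (nat_lit 9) (nat_lit 10) (C.cons (nat_lit 1728)
  (C.miq (nat_lit 611715994) (nat_lit 251476733355750573211651841)) (C.cons (nat_lit 1696) (C.node (nat_lit 6) (nat_lit 7) (nat_lit 10) (C.cons (nat_lit 1472) (C.miq (nat_lit 1466210944) (nat_lit 251466919580656102112562945)) (C.cons (nat_lit 1216) (C.node (nat_lit 3) (nat_lit 4) (nat_lit 8) (C.cons (nat_lit 1304) (C.miq (nat_lit 1731464104) (nat_lit 222448568001651008668700417)) (C.cons (nat_lit 792) (C.miq (nat_lit 1697909656) (nat_lit 222448568001648397295030017)) (C.cons (nat_lit 280) (C.node (nat_lit 4) (nat_lit 8) (nat_lit 9) (C.cons (nat_lit 788) (C.miq (nat_lit 693863430) (nat_lit 3143250886896783384566104401)) (C.cons (nat_lit 784) (C.node (nat_lit 1) (nat_lit 7) (nat_lit 9) (C.cons (nat_lit 962) (C.miq (nat_lit 611388312) (nat_lit 1415656986847057289475657473)) (C.cons (nat_lit 898) (C.miq (nat_lit 611388312) (nat_lit 1415656986847057289471463169)) (C.cons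 (nat_lit 706) (C.miq (nat_lit 605621095) (nat_lit 640742583130313680209709281)) (C.cons (nat_lit 642) (C.node (nat_lit 1) (nat_lit 7) (nat_lit 8) (C.cons (nat_lit 450) (C.miq (nat_lit 2202103990) (nat_lit 31440372455442114474543329)) (C.cons (nat_lit 418) (C.miq (nat_lit 1411478280) (nat_lit 26604078822344968815182217)) (C.cons (nat_lit 386) (C.node (nat_lit 1) (nat_lit 8) (nat_lit 9) (C.cons (nat_lit 866) (C.miq (nat_lit 1196821144) (nat_lit 2747894604866419436275502849)) (C.cons (nat_lit 834) (C.miq (nat_lit 996737665) (nat_lit 3172230998900571218869616903)) (C.cons (nat_lit 802) (C.miq (nat_lit 1479250179) (nat_lit 2867620005886236108271714827)) (C.cons (nat_lit 770) (C.node (nat_lit 2) (nat_lit 3) (nat_lit 5) (C.cons (nat_lit 300) (C.miq (nat_lit 1477915140) (nat_lit 466648760656600046660421661)) (C.cons (nat_lit 110) (C.miq (nat_lit 2754742102) (nat_lit 2510959089960465348414015713)) (C.cons (nat_lit 108) (C.miq (nat_lit 2754742102) (nat_lit 2510959089960465348413884641))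 (C.cons (nat_lit 46) (C.miq (nat_lit 1367945739) (nat_lit 930920842650805088114771997)) (C.cons (nat_lit 44) (C.node (nat_lit 1) (nat_lit 3) (nat_lit 11) (C.cons (nat_lit 2314) (C.node (nat_lit 5) (nat_lit 8) (nat_lit 11) C.nil) (C.cons (nat_lit 2058) (C.node (nat_lit 1) (nat_lit 8) (nat_lit 11) C.nil) C.nil))) C.nil)))))) C.nil))))) C.nil)))) C.nil))))) C.nil))) C.nil)))) C.nil))) (C.cons (nat_lit 1664) (C.miq (nat_lit 1519857844) (nat_lit 2011655958339439856612018205)) C.nil)))) C.nil))) C.nil))) (C.cons (nat_lit 152) (C.miq (nat_lit 1416859819) (nat_lit 183804686273927770941165313)) C.nil)))) (C.cons (nat_lit 2568) (C.miq (nat_lit 1404635764) (nat_lit 3104531853693577700333061267)) C.nil))) (C.cons (nat_lit 2184) (C.node (nat_lit 7) (nat_lit 10) (nat_lit 11) (C.cons (nat_lit 3200) (C.node (nat_lit 3) (nat_lit 9) (nat_lit 11) (C.cons (nat_lit 2600) (C.miq (nat_lit 997873984) (nat_lit 3868582269281098412848251441)) C.nil)) C.nil)) C.nil))) C.nil)) C.nil)))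 C.nil))) C.nil)))) C.nil))) (C.cons (nat_lit 2116) (C.node (nat_lit 6) (nat_lit 8) (nat_lit 11) (C.cons (nat_lit 2376) (C.node (nat_lit 6) (nat_lit 9) (nat_lit 11) (C.cons (nat_lit 2624) (C.node (nat_lit 3) (nat_lit 7) (nat_lit 11) (C.cons (nat_lit 3208) (C.miq (nat_lit 1805943664) (nat_lit 3733169148191526054607913353)) (C.cons (nat_lit 2186) (C.node (nat_lit 3) (nat_lit 10) (nat_lit 11) (C.cons (nat_lit 3080) (C.node (nat_lit 3) (nat_lit 5) (nat_lit 11) (C.cons (nat_lit 2600) (C.miq (nat_lit 1094256565) (nat_lit 632278552611492996126869729)) (C.cons (nat_lit 2088) (C.node (nat_lit 3) (nat_lit 9) (nat_lit 11) (C.cons (nat_lit 2568) (C.node (nat_lit 3) (nat_lit 4) (nat_lit 7) (C.cons (nat_lit 216) (C.miq (nat_lit 2875459639) (nat_lit 2575033597997626046411178377)) (C.cons (nat_lit 184) (C.miq (nat_lit 2876442949) (nat_lit 2642731488541174875729429041)) (C.cons (nat_lit 152) (C.node (nat_lit 4) (nat_lit 6) (nat_lit 7) (C.cons (nat_lit 212) (C.miq (nat_lit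 2873493874) (nat_lit 2575032159151589705815163525)) (C.cons (nat_lit 208) (C.node (nat_lit 2) (nat_lit 6) (nat_lit 7) (C.cons (nat_lit 452)
  (C.miq (nat_lit 377965360) (nat_lit 546456072202674606113884189)) (C.cons (nat_lit 204) (C.miq (nat_lit 2606893111) (nat_lit 2558098933535638466740355465)) (C.cons (nat_lit 198) (C.miq (nat_lit 2266378315) (nat_lit 239411141858240405880047645)) (C.cons (nat_lit 196) (C.node (nat_lit 1) (nat_lit 6) (nat_lit 7) (C.cons (nat_lit 962) (C.miq (nat_lit 611388312) (nat_lit 1415656986847057289475657473)) (C.cons (nat_lit 706) (C.miq (nat_lit 605621095) (nat_lit 640742583130313680209709281)) (C.cons (nat_lit 450) (C.node (nat_lit 1) (nat_lit 7) (nat_lit 9) (C.cons (nat_lit 674) (C.miq (nat_lit 2173986640) (nat_lit 640736901075172937077688545)) (C.cons (nat_lit 642) (C.node (nat_lit 1) (nat_lit 2) (nat_lit 7) (C.cons (nat_lit 166) (C.node (nat_lit 1) (nat_lit 8) (nat_lit 11) (C.cons (nat_lit 2338) (C.miq (nat_lit 2551319383)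 (nat_lit 317959389789730442798565601)) (C.cons (nat_lit 2306) (C.node (nat_lit 5) (nat_lit 8) (nat_lit 11) (C.cons (nat_lit 2340) (C.miq (nat_lit 2820737879) (nat_lit 317969092777113222612650209)) (C.cons (nat_lit 2336) (C.node (nat_lit 2) (nat_lit 8) (nat_lit 11) (C.cons (nat_lit 2436) (C.node (nat_lit 7) (nat_lit 10) (nat_lit 11) C.nil) C.nil)) C.nil))) C.nil))) (C.cons (nat_lit 134) (C.node (nat_lit 1) (nat_lit 5) (nat_lit 7) (C.cons (nat_lit 162) (C.node (nat_lit 1) (nat_lit 8) (nat_lit 9) (C.cons (nat_lit 802) (C.node (nat_lit 1) (nat_lit 8) (nat_lit 11) (C.cons (nat_lit 2306) (C.node (nat_lit 1) (nat_lit 4) (nat_lit 5) (C.cons (nat_lit 58) (C.miq (nat_lit 2217828535) (nat_lit 70125998667347649373014241)) C.nil)) C.nil)) (C.cons (nat_lit 770) (C.node (nat_lit 1) (nat_lit 8) (nat_lit 11) (C.cons (nat_lit 2338) (C.node (nat_lit 1) (nat_lit 9) (nat_lit 11) C.nil) (C.cons (nat_lit 2306) (C.node (nat_lit 1) (nat_lit 8) (nat_lit 10) C.nil) C.nil))) C.nil)))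 C.nil)) C.nil))) C.nil))) (C.cons (nat_lit 194) (C.miq (nat_lit 2266378315) (nat_lit 234575438579781889181222941)) C.nil))))) C.nil))))) C.nil))) C.nil)))) C.nil)) C.nil))) C.nil)) (C.cons (nat_lit 2184) (C.miq (nat_lit 389759110) (nat_lit 2640333281932836004709269841)) C.nil)))) C.nil)) (C.cons (nat_lit 2368) (C.node (nat_lit 3) (nat_lit 6) (nat_lit 11) (C.cons (nat_lit 2632) (C.node (nat_lit 3) (nat_lit 7) (nat_lit 11) (C.cons (nat_lit 3208) (C.miq (nat_lit 1404635764) (nat_lit 3181903106148913967514256531)) (C.cons (nat_lit 2186) (C.miq (nat_lit 996700480) (nat_lit 2862743591033176300949931155)) (C.cons (nat_lit 2184) (C.node (nat_lit 3) (nat_lit 10) (nat_lit 11) (C.cons (nat_lit 3082) (C.node (nat_lit 7) (nat_lit 10) (nat_lit 11) (C.cons (nat_lit 3204) (C.miq (nat_lit 2443641778) (nat_lit 1415664033065882956360583197)) (C.cons (nat_lit 3200) (C.node (nat_lit 1) (nat_lit 3) (nat_lit 4) (C.cons (nat_lit 314) (C.miq (nat_lit 1504919713) (nat_lit 3181898549661267091731907731))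 (C.cons (nat_lit 282) (C.miq (nat_lit 1931151430) (nat_lit 3725951305612187535422914897)) (C.cons (nat_lit 58) (C.miq (nat_lit 1504919713) (nat_lit 3181893827294784222086694035)) (C.cons (nat_lit 26) (C.node (nat_lit 7) (nat_lit 9) (nat_lit 10) (C.cons (nat_lit 1728) (C.miq (nat_lit 647694964) (nat_lit 3181931071420804653990806675)) (C.cons (nat_lit 1696) (C.miq (nat_lit 1504945984) (nat_lit 3181912403485535662728086675)) (C.cons (nat_lit 1672) (C.miq (nat_lit 1671543156) (nat_lit 3725948668358013437753887376)) (C.cons (nat_lit 1664) (C.node (nat_lit 3) (nat_lit 4) (nat_lit 7) (C.cons (nat_lit 216) (C.miq (nat_lit 1739142155) (nat_lit 2011701115729948574878861341)) (C.cons (nat_lit 184) (C.miq (nat_lit 1519857844) (nat_lit 2011655958339439856612018205)) (C.cons (nat_lit 152) (C.node (nat_lit 4) (nat_lit 6) (nat_lit 7) (C.cons (nat_lit 212) (C.miq (nat_lit 1788289204) (nat_lit 2011656474856155219827361821)) (C.cons (nat_lit 208) (C.node (nat_lit 1) (nat_lit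 6) (nat_lit 10) (C.cons (nat_lit 1634) (C.miq (nat_lit 1412534458) (nat_lit 31462213447713182733438721)) (C.cons (nat_lit 1602) (C.miq (nat_lit 907327904) (nat_lit 2575050310407450256179662593)) (C.cons (nat_lit 1378)
  (C.miq (nat_lit 828684928) (nat_lit 2575050310534113033572126465)) (C.cons (nat_lit 1346) (C.miq (nat_lit 828684928) (nat_lit 2575050310534112896133172993)) (C.cons (nat_lit 1122) (C.miq (nat_lit 1101248080) (nat_lit 3725947690539274730599942369)) (C.cons (nat_lit 1090) (C.node (nat_lit 1) (nat_lit 4) (nat_lit 5) (C.cons (nat_lit 306) (C.node (nat_lit 1) (nat_lit 8) (nat_lit 10) (C.cons (nat_lit 1282) (C.node (nat_lit 1) (nat_lit 8) (nat_lit 9) (C.cons (nat_lit 962) (C.miq (nat_lit 611388312) (nat_lit 1415656986847057289475657473)) (C.cons (nat_lit 898) (C.miq (nat_lit 611388312) (nat_lit 1415656986847057289471463169)) (C.cons (nat_lit 834) (C.miq (nat_lit 728236945) (nat_lit 2862741192925768102352912907)) (C.cons (nat_lit 770) (C.node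 (nat_lit 1) (nat_lit 3) (nat_lit 8) (C.cons (nat_lit 330) (C.node (nat_lit 1) (nat_lit 7) (nat_lit 8) (C.cons (nat_lit 2434) (C.node (nat_lit 2) (nat_lit 7) (nat_lit 11) (C.cons (nat_lit 2180) (C.node (nat_lit 1) (nat_lit 6) (nat_lit 7) (C.cons (nat_lit 706) (C.miq (nat_lit 605621095) (nat_lit 640742583130313680209709281)) (C.cons (nat_lit 198) (C.miq (nat_lit 2819754870) (nat_lit 317967653931075876996647137)) C.nil))) C.nil)) (C.cons (nat_lit 386) (C.node (nat_lit 1) (nat_lit 8) (nat_lit 11) (C.cons (nat_lit 2306) (C.node (nat_lit 1) (nat_lit 7) (nat_lit 11) C.nil) C.nil)) C.nil))) (C.cons (nat_lit 266) (C.node (nat_lit 1) (nat_lit 6) (nat_lit 8) (C.cons (nat_lit 450) (C.miq (nat_lit 1099150960) (nat_lit 321612582504476088365287649)) (C.cons (nat_lit 322) (C.node (nat_lit 1) (nat_lit 7) (nat_lit 8) (C.cons (nat_lit 2434) (C.node (nat_lit 1) (nat_lit 7) (nat_lit 9) C.nil) (C.cons (nat_lit 386) (C.node (nat_lit 1) (nat_lit 8) (nat_lit 11) C.nil) C.nil)))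 C.nil))) C.nil))) C.nil))))) C.nil)) (C.cons (nat_lit 50) (C.node (nat_lit 1) (nat_lit 4) (nat_lit 8) (C.cons (nat_lit 274) (C.node (nat_lit 1) (nat_lit 8) (nat_lit 10) (C.cons (nat_lit 1314) (C.node (nat_lit 3) (nat_lit 5) (nat_lit 11) (C.cons (nat_lit 2344) (C.miq (nat_lit 890550432) (nat_lit 60484605527955542547566337)) (C.cons (nat_lit 2088) (C.node (nat_lit 3) (nat_lit 8) (nat_lit 11) (C.cons (nat_lit 2312) (C.node (nat_lit 5) (nat_lit 8) (nat_lit 11) (C.cons (nat_lit 2340) (C.miq (nat_lit 622114976) (nat_lit 60484605526829642640723713)) (C.cons (nat_lit 2336) (C.node (nat_lit 1) (nat_lit 8) (nat_lit 11) (C.cons (nat_lit 2434) (C.node (nat_lit 2) (nat_lit 7) (nat_lit 11) C.nil) C.nil)) C.nil))) C.nil)) C.nil))) (C.cons (nat_lit 1282) (C.node (nat_lit 2) (nat_lit 10) (nat_lit 11) (C.cons (nat_lit 3108) (C.node (nat_lit 1) (nat_lit 5) (nat_lit 10) (C.cons (nat_lit 1570) (C.miq (nat_lit 827636368) (nat_lit 60484605735685174831681281)) (C.cons (nat_lit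 1058) (C.node (nat_lit 2) (nat_lit 9) (nat_lit 11) (C.cons (nat_lit 2566) (C.miq (nat_lit 621394481) (nat_lit 678254720023928907510778890)) (C.cons (nat_lit 2564) (C.node (nat_lit 1) (nat_lit 2) (nat_lit 11) C.nil) C.nil))) C.nil))) (C.cons (nat_lit 3076) (C.node (nat_lit 5) (nat_lit 10) (nat_lit 11) (C.cons (nat_lit 3104) (C.node (nat_lit 3) (nat_lit 5) (nat_lit 11) (C.cons (nat_lit 2344) (C.node (nat_lit 1) (nat_lit 8) (nat_lit 11) (C.cons (nat_lit 2306) (C.node (nat_lit 1) (nat_lit 3) (nat_lit 8) C.nil) C.nil)) (C.cons (nat_lit 2088) (C.node (nat_lit 3) (nat_lit 8) (nat_lit 11) C.nil) C.nil))) C.nil)) C.nil))) C.nil))) C.nil)) C.nil))) C.nil))))))) C.nil))) C.nil)))) C.nil))))) C.nil))))) C.nil))) (C.cons (nat_lit 3080) (C.node (nat_lit 7) (nat_lit 10) (nat_lit 11) (C.cons (nat_lit 3204) (C.node (nat_lit 1) (nat_lit 7) (nat_lit 11) (C.cons (nat_lit 2434) (C.node (nat_lit 1) (nat_lit 6) (nat_lit 7) (C.cons (nat_lit 706) (C.miq (nat_lit 605621095) (nat_lit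 640742583130313680209709281)) (C.cons (nat_lit 206) (C.miq (nat_lit 2819754870) (nat_lit 317967653931075876997171425)) (C.cons (nat_lit 202) (C.miq (nat_lit 2838563687) (nat_lit 632289805876918062169065697)) (C.cons (nat_lit 198) (C.miq (nat_lit 2819754870) (nat_lit 317967653931075876996647137)) (C.cons (nat_lit 194)
  (C.node (nat_lit 1) (nat_lit 3) (nat_lit 11) (C.cons (nat_lit 2090) (C.node (nat_lit 1) (nat_lit 10) (nat_lit 11) (C.cons (nat_lit 3074) (C.node (nat_lit 3) (nat_lit 8) (nat_lit 11) C.nil) C.nil)) (C.cons (nat_lit 2058) (C.node (nat_lit 1) (nat_lit 7) (nat_lit 9) (C.cons (nat_lit 674) (C.node (nat_lit 1) (nat_lit 2) (nat_lit 7) (C.cons (nat_lit 142) (C.miq (nat_lit 2803479088) (nat_lit 814886857266093617440294941)) (C.cons (nat_lit 134) (C.node (nat_lit 1) (nat_lit 3) (nat_lit 7) (C.cons (nat_lit 138) (C.node (nat_lit 1) (nat_lit 8) (nat_lit 9) (C.cons (nat_lit 834) (C.miq (nat_lit 728236945) (nat_lit 2862741192925768102352912907)) (C.cons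 (nat_lit 770) (C.node (nat_lit 1) (nat_lit 9) (nat_lit 11) C.nil) C.nil))) C.nil)) C.nil))) (C.cons (nat_lit 642) (C.node (nat_lit 1) (nat_lit 10) (nat_lit 11) (C.cons (nat_lit 3106) (C.node (nat_lit 2) (nat_lit 8) (nat_lit 11) (C.cons (nat_lit 2340) (C.miq (nat_lit 901253655) (nat_lit 2828893667768437427191022739)) C.nil)) (C.cons (nat_lit 3074) (C.node (nat_lit 5) (nat_lit 10) (nat_lit 11) (C.cons (nat_lit 3104) (C.node (nat_lit 2) (nat_lit 8) (nat_lit 11) C.nil) C.nil)) C.nil))) C.nil))) C.nil))) C.nil)))))) (C.cons (nat_lit 2178) (C.node (nat_lit 7) (nat_lit 8) (nat_lit 11) (C.cons (nat_lit 2432) (C.node (nat_lit 1) (nat_lit 10) (nat_lit 11) (C.cons (nat_lit 3106) (C.node (nat_lit 1) (nat_lit 2) (nat_lit 11) (C.cons (nat_lit 2054) (C.node (nat_lit 1) (nat_lit 9) (nat_lit 11) C.nil) C.nil)) (C.cons (nat_lit 3074) (C.node (nat_lit 5) (nat_lit 10) (nat_lit 11) C.nil) C.nil))) C.nil)) C.nil))) (C.cons (nat_lit 3200) (C.ref (nat_lit 243) (nat_lit 205163983024656))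 C.nil))) C.nil))) C.nil)))) (C.cons (nat_lit 2120) (C.node (nat_lit 6) (nat_lit 9) (nat_lit 11) (C.cons (nat_lit 2624) (C.node (nat_lit 3) (nat_lit 9) (nat_lit 11) (C.cons (nat_lit 2600) (C.node (nat_lit 3) (nat_lit 7) (nat_lit 11) (C.cons (nat_lit 3208) (C.node (nat_lit 3) (nat_lit 4) (nat_lit 7) (C.cons (nat_lit 216) (C.miq (nat_lit 1416859819) (nat_lit 261175938729264038122360577)) (C.cons (nat_lit 184) (C.node (nat_lit 1) (nat_lit 3) (nat_lit 4) (C.cons (nat_lit 282) (C.miq (nat_lit 460539400) (nat_lit 3878239231905110641431085393)) (C.cons (nat_lit 26) (C.node (nat_lit 4) (nat_lit 6) (nat_lit 7) (C.cons (nat_lit 212) (C.miq (nat_lit 2722301557) (nat_lit 2510958573429676356627073249)) (C.cons (nat_lit 208) (C.node (nat_lit 7) (nat_lit 9) (nat_lit 10) (C.cons (nat_lit 1728) (C.miq (nat_lit 611715994) (nat_lit 251476733355750573211651841)) (C.cons (nat_lit 1696) (C.node (nat_lit 6) (nat_lit 7) (nat_lit 10) (C.cons (nat_lit 1472) (C.miq (nat_lit 1466210944)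 (nat_lit 251466919580656102112562945)) (C.cons (nat_lit 1216) (C.node (nat_lit 3) (nat_lit 4) (nat_lit 8) (C.cons (nat_lit 1304) (C.miq (nat_lit 1731464104) (nat_lit 222448568001651008668700417)) (C.cons (nat_lit 792) (C.miq (nat_lit 1697909656) (nat_lit 222448568001648397295030017)) (C.cons (nat_lit 280) (C.node (nat_lit 1) (nat_lit 7) (nat_lit 9) (C.cons (nat_lit 962) (C.miq (nat_lit 611388312) (nat_lit 1415656986847057289475657473)) (C.cons (nat_lit 898) (C.miq (nat_lit 611388312) (nat_lit 1415656986847057289471463169)) (C.cons (nat_lit 706) (C.miq (nat_lit 605621095) (nat_lit 640742583130313680209709281)) (C.cons (nat_lit 642) (C.node (nat_lit 1) (nat_lit 3) (nat_lit 11) (C.cons (nat_lit 2314) (C.node (nat_lit 1) (nat_lit 9) (nat_lit 11) (C.cons (nat_lit 2566) (C.miq (nat_lit 2174171936) (nat_lit 776137626414357015051962397)) (C.cons (nat_lit 2562) (C.node (nat_lit 2) (nat_lit 9) (nat_lit 11) (C.cons (nat_lit 2564) (C.node (nat_lit 1) (nat_lit 7)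 (nat_lit 11) (C.cons (nat_lit 2178) (C.node (nat_lit 2) (nat_lit 7) (nat_lit 11) C.nil) C.nil)) C.nil)) C.nil))) (C.cons (nat_lit 2058) (C.node (nat_lit 3) (nat_lit 8) (nat_lit 11) (C.cons (nat_lit 2312) (C.node (nat_lit 1) (nat_lit 4) (nat_lit 5) (C.cons (nat_lit 306) (C.node (nat_lit 1) (nat_lit 5) (nat_lit 7) (C.cons (nat_lit 166) (C.miq (nat_lit 2769852192) (nat_lit 370002155223445919330927237)) (C.cons (nat_lit 162)
  (C.node (nat_lit 5) (nat_lit 8) (nat_lit 11) (C.cons (nat_lit 2340) (C.miq (nat_lit 2508274464) (nat_lit 369940949181072067244001309)) (C.cons (nat_lit 2336) (C.node (nat_lit 1) (nat_lit 8) (nat_lit 11) (C.cons (nat_lit 2434) (C.node (nat_lit 2) (nat_lit 7) (nat_lit 11) C.nil) C.nil)) C.nil))) C.nil))) (C.cons (nat_lit 50) (C.node (nat_lit 1) (nat_lit 4) (nat_lit 8) (C.cons (nat_lit 274) (C.node (nat_lit 2) (nat_lit 4) (nat_lit 7) C.nil) C.nil)) C.nil))) C.nil)) C.nil))) C.nil))))) C.nil)))) C.nil))) (C.cons (nat_lit 1664) (C.miq (nat_lit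 1519857844) (nat_lit 2011655958339439856612018205)) C.nil)))) C.nil))) C.nil))) (C.cons (nat_lit 152) (C.miq (nat_lit 1416859819) (nat_lit 183804686273927770941165313)) C.nil)))) (C.cons (nat_lit 2186) (C.miq (nat_lit 1094256565) (nat_lit 632278552611492996126869729)) (C.cons (nat_lit 2184) (C.miq (nat_lit 2746680724) (nat_lit 2640315591475442448732258865)) C.nil)))) (C.cons (nat_lit 2568) (C.node (nat_lit 3) (nat_lit 7) (nat_lit 11) (C.cons (nat_lit 3208) (C.miq (nat_lit 1404635764) (nat_lit 3104531853693577700333061267)) (C.cons (nat_lit 2186) (C.miq (nat_lit 996700480) (nat_lit 2862743591033176300949931155)) (C.cons (nat_lit 2184) (C.node (nat_lit 3) (nat_lit 10) (nat_lit 11) (C.cons (nat_lit 3082) (C.node (nat_lit 7) (nat_lit 10) (nat_lit 11) (C.cons (nat_lit 3204) (C.miq (nat_lit 2443641778) (nat_lit 1415664033065882956360583197)) (C.cons (nat_lit 3200) (C.node (nat_lit 2) (nat_lit 10) (nat_lit 11) (C.cons (nat_lit 3108) (C.node (nat_lit 2) (nat_lit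 9) (nat_lit 11) (C.cons (nat_lit 2566) (C.miq (nat_lit 621394481) (nat_lit 678254720023928907510778890)) C.nil)) C.nil)) C.nil))) (C.cons (nat_lit 3080) (C.node (nat_lit 7) (nat_lit 10) (nat_lit 11) (C.cons (nat_lit 3204) (C.node (nat_lit 1) (nat_lit 7) (nat_lit 11) (C.cons (nat_lit 2434) (C.node (nat_lit 1) (nat_lit 3) (nat_lit 11) (C.cons (nat_lit 2090) (C.node (nat_lit 1) (nat_lit 10) (nat_lit 11) C.nil) C.nil)) C.nil)) (C.cons (nat_lit 3200) (C.node (nat_lit 1) (nat_lit 7) (nat_lit 11) C.nil) C.nil))) C.nil))) C.nil)))) C.nil))) C.nil)) C.nil))) C.nil))) C.nil)))) C.nil))) List.nil)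

theorem ok12_244 : okL par12 (nat_lit 245) c12_244 (nat_lit 244) = true := by decide +kernel

noncomputable def c12_245 : List C :=
  (List.cons (C.node (nat_lit 4) (nat_lit 5) (nat_lit 11) (C.cons (nat_lit 3120) (C.node (nat_lit 7) (nat_lit 10) (nat_lit 11) (C.cons (nat_lit 3208) (C.miq (nat_lit 1930017364) (nat_lit 632318084557402668463623216)) (C.cons (nat_lit 3204) (C.miq (nat_lit 2718283668) (nat_lit 44787810069099848936786576)) (C.cons (nat_lit 3200) (C.node (nat_lit 2) (nat_lit 10) (nat_lit 11) (C.cons (nat_lit 3078) (C.node (nat_lit 2) (nat_lit 5) (nat_lit 11) (C.cons (nat_lit 2596) (C.miq (nat_lit 732403008) (nat_lit 3868574521647463341636125233)) (C.cons (nat_lit 2340) (C.miq (nat_lit 1166060321) (nat_lit 349401163884150122952985606)) (C.cons (nat_lit 2084) (C.node (nat_lit 2) (nat_lit 9) (nat_lit 11) (C.cons (nat_lit 2628) (C.miq (nat_lit 2763392914) (nat_lit 2575032158400051518156046981)) (C.cons (nat_lit 2564) (C.node (nat_lit 2) (nat_lit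 6) (nat_lit 11) (C.cons (nat_lit 2372) (C.miq (nat_lit 641841162) (nat_lit 2575068775525079112362430209)) (C.cons (nat_lit 2116) (C.node (nat_lit 1) (nat_lit 2) (nat_lit 4) (C.cons (nat_lit 534) (C.miq (nat_lit 1612822420) (nat_lit 317986782763319866644892304)) (C.cons (nat_lit 54) (C.miq (nat_lit 2337409601) (nat_lit 2519406260651737371546879123)) (C.cons (nat_lit 22) (C.node (nat_lit 1) (nat_lit 5) (nat_lit 10) (C.cons (nat_lit 1634) (C.miq (nat_lit 1411485882) (nat_lit 26626510169254666034351873)) (C.cons (nat_lit 1570) (C.miq (nat_lit 1411485882) (nat_lit 26625329577633948623048449)) (C.cons (nat_lit 1378) (C.miq (nat_lit 1361356811) (nat_lit 26653922260905463264382721)) (C.cons (nat_lit 1314) (C.miq (nat_lit 1361356811) (nat_lit 26653922242891064754900737)) (C.cons (nat_lit 1122) (C.miq (nat_lit 874122085) (nat_lit 1415671781135801939235309793)) (C.cons (nat_lit 1058) (C.node (nat_lit 1) (nat_lit 4) (nat_lit 9) (C.cons (nat_lit 786) (C.node (nat_lit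 1) (nat_lit 3) (nat_lit 4) (C.cons (nat_lit 58) (C.miq (nat_lit 2589002563) (nat_lit 1279053165880587002782025757)) (C.cons (nat_lit 26) (C.node (nat_lit 1) (nat_lit 4) (nat_lit 5) (C.cons (nat_lit 50) (C.node (nat_lit 1) (nat_lit 9) (nat_lit 11) (C.cons (nat_lit 2594) (C.miq (nat_lit 1363589504) (nat_lit 2575053925958589149388803841)) (C.cons (nat_lit 2562) (C.node (nat_lit 3) (nat_lit 7) (nat_lit 11) (C.cons (nat_lit 2186) (C.miq (nat_lit 826833760) (nat_lit 950222944402832946564761825)) (C.cons (nat_lit 2184) (C.node (nat_lit 1) (nat_lit 7) (nat_lit 11) (C.cons (nat_lit 2434) (C.miq (nat_lit 1900394640) (nat_lit 60488221115124469740932865)) (C.cons (nat_lit 2178) (C.node (nat_lit 5) (nat_lit 9) (nat_lit 11) (C.cons (nat_lit 2600) (C.miq (nat_lit 826642603) (nat_lit 60494252662539546000363265)) (C.cons (nat_lit 2592) (C.node (nat_lit 6) (nat_lit 8) (nat_lit 11) (C.cons (nat_lit 2376) (C.miq (nat_lit 991397440) (nat_lit 2633047685359877003385438545))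 (C.cons (nat_lit 2368) (C.node (nat_lit 1) (nat_lit 8) (nat_lit 10) (C.cons (nat_lit 1354) (C.miq (nat_lit 560249472) (nat_lit 2575050310532987030586068737)) (C.cons (nat_lit 1346) (C.miq (nat_lit 560249472) (nat_lit 2575050310532986996226330369)) (C.cons (nat_lit 1290) (C.miq (nat_lit 826648720) (nat_lit 60465937126276055245590273)) (C.cons (nat_lit 1282) (C.node (nat_lit 1) (nat_lit 3) (nat_lit 10) C.nil) C.nil))))) C.nil))) C.nil))) C.nil))) C.nil))) C.nil))) C.nil)) C.nil))) (C.cons (nat_lit 530) (C.node (nat_lit 1) (nat_lit 9) (nat_lit 10) (C.cons (nat_lit 1602) (C.node (nat_lit 6) (nat_lit 9) (nat_lit 11) (C.cons (nat_lit 2632) (C.miq (nat_lit 907327904) (nat_lit 2575050310407450256179662593)) (C.cons (nat_lit 2624) (C.node (nat_lit 3) (nat_lit 9) (nat_lit 11) (C.cons (nat_lit 2600) (C.miq (nat_lit 2443522123) (nat_lit 1279091478834085754104186909)) (C.cons (nat_lit 2568) (C.node (nat_lit 4) (nat_lit 9) (nat_lit 10) (C.cons (nat_lit 1560) (C.miq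 (nat_lit 1402669639) (nat_lit 3104563434519424812979324051)) (C.cons (nat_lit 1556) (C.miq (nat_lit 2040968224) (nat_lit 1936741093233030499756476445)) (C.cons (nat_lit 1552) (C.node (nat_lit 1) (nat_lit 2) (nat_lit 9) (C.cons (nat_lit 550)
  (C.node (nat_lit 1) (nat_lit 9) (nat_lit 11) (C.cons (nat_lit 2562) (C.node (nat_lit 5) (nat_lit 9) (nat_lit 11) (C.cons (nat_lit 2592) (C.node (nat_lit 1) (nat_lit 7) (nat_lit 9) (C.cons (nat_lit 898) (C.miq (nat_lit 611388312) (nat_lit 1415656986847057289471463169)) (C.cons (nat_lit 642) (C.node (nat_lit 1) (nat_lit 8) (nat_lit 9) (C.cons (nat_lit 770) (C.node (nat_lit 1) (nat_lit 3) (nat_lit 10) C.nil) C.nil)) C.nil))) C.nil)) C.nil)) (C.cons (nat_lit 518) (C.node (nat_lit 1) (nat_lit 3) (nat_lit 10) (C.cons (nat_lit 1290) (C.node (nat_lit 1) (nat_lit 3) (nat_lit 4) (C.cons (nat_lit 58) (C.miq (nat_lit 2589002563) (nat_lit 1279053165880587002782025757)) (C.cons (nat_lit 26) (C.node (nat_lit 3) (nat_lit 7) (nat_lit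 11) (C.cons (nat_lit 2186) (C.miq (nat_lit 2199127990) (nat_lit 31438287973362253446645985)) (C.cons (nat_lit 2184) (C.node (nat_lit 1) (nat_lit 7) (nat_lit 11) (C.cons (nat_lit 2434) (C.miq (nat_lit 2980411440) (nat_lit 1279085447286672842541302153)) (C.cons (nat_lit 2178) (C.node (nat_lit 1) (nat_lit 3) (nat_lit 11) (C.cons (nat_lit 2090) (C.node (nat_lit 1) (nat_lit 8) (nat_lit 11) C.nil) C.nil)) C.nil))) C.nil))) C.nil))) (C.cons (nat_lit 1034) (C.node (nat_lit 1) (nat_lit 8) (nat_lit 10) (C.cons (nat_lit 1282) (C.node (nat_lit 1) (nat_lit 9) (nat_lit 11) (C.cons (nat_lit 2594) (C.node (nat_lit 1) (nat_lit 7) (nat_lit 9) (C.cons (nat_lit 898) (C.miq (nat_lit 611388312) (nat_lit 1415656986847057289471463169)) (C.cons (nat_lit 642) (C.node (nat_lit 1) (nat_lit 8) (nat_lit 9) (C.cons (nat_lit 770) (C.node (nat_lit 1) (nat_lit 3) (nat_lit 11) C.nil) C.nil)) C.nil))) (C.cons (nat_lit 2562) (C.node (nat_lit 5) (nat_lit 9) (nat_lit 11) (C.cons (nat_lit 2592)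 (C.node (nat_lit 1) (nat_lit 7) (nat_lit 9) (C.cons (nat_lit 930) (C.miq (nat_lit 611388312) (nat_lit 1415656986847057289473560321)) (C.cons (nat_lit 898) (C.miq (nat_lit 611388312) (nat_lit 1415656986847057289471463169)) (C.cons (nat_lit 674) (C.node (nat_lit 1) (nat_lit 8) (nat_lit 9) C.nil) C.nil)))) C.nil)) C.nil))) C.nil)) C.nil))) C.nil))) C.nil)))) C.nil))) C.nil))) (C.cons (nat_lit 1538) (C.node (nat_lit 1) (nat_lit 9) (nat_lit 11) (C.cons (nat_lit 2594) (C.node (nat_lit 3) (nat_lit 5) (nat_lit 11) (C.cons (nat_lit 2344) (C.miq (nat_lit 1958218323) (nat_lit 2804715151405981251351872553)) (C.cons (nat_lit 2088) (C.node (nat_lit 5) (nat_lit 8) (nat_lit 11) (C.cons (nat_lit 2336) (C.node (nat_lit 1) (nat_lit 7) (nat_lit 9) (C.cons (nat_lit 962) (C.miq (nat_lit 611388312) (nat_lit 1415656986847057289475657473)) (C.cons (nat_lit 898) (C.miq (nat_lit 611388312) (nat_lit 1415656986847057289471463169)) (C.cons (nat_lit 706) (C.miq (nat_lit 605621095)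 (nat_lit 640742583130313680209709281)) (C.cons (nat_lit 642) (C.node (nat_lit 1) (nat_lit 2) (nat_lit 9) (C.cons (nat_lit 582) (C.node (nat_lit 1) (nat_lit 8) (nat_lit 9) (C.cons (nat_lit 770) (C.node (nat_lit 2) (nat_lit 7) (nat_lit 11) (C.cons (nat_lit 2436) (C.node (nat_lit 1) (nat_lit 7) (nat_lit 11) (C.cons (nat_lit 2178) (C.node (nat_lit 3) (nat_lit 7) (nat_lit 11) C.nil) C.nil)) (C.cons (nat_lit 2180) (C.node (nat_lit 2) (nat_lit 8) (nat_lit 11) (C.cons (nat_lit 2308) (C.node (nat_lit 1) (nat_lit 3) (nat_lit 11) C.nil) C.nil)) C.nil))) C.nil)) (C.cons (nat_lit 518) (C.node (nat_lit 1) (nat_lit 6) (nat_lit 9) (C.cons (nat_lit 834) (C.node (nat_lit 3) (nat_lit 7) (nat_lit 11) (C.cons (nat_lit 2186) (C.miq (nat_lit 2019635275) (nat_lit 1008284458251766974175643677)) (C.cons (nat_lit 2184) (C.node (nat_lit 3) (nat_lit 9) (nat_lit 11) (C.cons (nat_lit 2632) (C.miq (nat_lit 2192969785) (nat_lit 2558102418963149647138783755)) (C.cons (nat_lit 2568) (C.node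 (nat_lit 1) (nat_lit 3) (nat_lit 11) C.nil) C.nil))) C.nil))) (C.cons (nat_lit 578) (C.node (nat_lit 1) (nat_lit 8) (nat_lit 9) (C.cons (nat_lit 770) (C.node (nat_lit 2) (nat_lit 7) (nat_lit 11) (C.cons (nat_lit 2436) (C.node (nat_lit 1) (nat_lit 7) (nat_lit 11) (C.cons (nat_lit 2178) (C.node (nat_lit 3) (nat_lit 7) (nat_lit 11) C.nil) C.nil))
  (C.cons (nat_lit 2180) (C.node (nat_lit 2) (nat_lit 8) (nat_lit 11) (C.cons (nat_lit 2308) (C.node (nat_lit 3) (nat_lit 7) (nat_lit 11) C.nil) C.nil)) C.nil))) C.nil)) C.nil))) C.nil))) C.nil))))) C.nil)) C.nil))) (C.cons (nat_lit 2562) (C.node (nat_lit 5) (nat_lit 9) (nat_lit 11) (C.cons (nat_lit 2600) (C.miq (nat_lit 2443522123) (nat_lit 1279091478834085754104186909)) (C.cons (nat_lit 2592) (C.node (nat_lit 2) (nat_lit 7) (nat_lit 11) (C.cons (nat_lit 2436) (C.node (nat_lit 2) (nat_lit 4) (nat_lit 7) (C.cons (nat_lit 212) (C.miq (nat_lit 2873493874) (nat_lit 2575032159151589705815163525)) (C.cons (nat_lit 180)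 (C.miq (nat_lit 2605845063) (nat_lit 2519413307307973528603853971)) (C.cons (nat_lit 148) (C.node (nat_lit 1) (nat_lit 7) (nat_lit 11) (C.cons (nat_lit 2186) (C.node (nat_lit 3) (nat_lit 5) (nat_lit 11) (C.cons (nat_lit 2344) (C.miq (nat_lit 1748713585) (nat_lit 2833761412836426542073119891)) (C.cons (nat_lit 2088) (C.node (nat_lit 3) (nat_lit 8) (nat_lit 11) (C.cons (nat_lit 2376) (C.node (nat_lit 3) (nat_lit 9) (nat_lit 11) (C.cons (nat_lit 2568) (C.node (nat_lit 3) (nat_lit 10) (nat_lit 11) C.nil) C.nil)) (C.cons (nat_lit 2312) (C.miq (nat_lit 1748713585) (nat_lit 2795075786608758408482522259)) C.nil))) C.nil))) (C.cons (nat_lit 2178) (C.node (nat_lit 3) (nat_lit 7) (nat_lit 11) (C.cons (nat_lit 2184) (C.node (nat_lit 6) (nat_lit 8) (nat_lit 11) (C.cons (nat_lit 2376) (C.miq (nat_lit 991397440) (nat_lit 2633047685359877003385438545)) (C.cons (nat_lit 2368) (C.node (nat_lit 3) (nat_lit 9) (nat_lit 11) (C.cons (nat_lit 2568) (C.node (nat_lit 6) (nat_lit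 9) (nat_lit 11) C.nil) C.nil)) C.nil))) C.nil)) C.nil))) C.nil)))) (C.cons (nat_lit 2180) (C.node (nat_lit 2) (nat_lit 8) (nat_lit 11) (C.cons (nat_lit 2308) (C.node (nat_lit 3) (nat_lit 7) (nat_lit 11) (C.cons (nat_lit 2186) (C.node (nat_lit 7) (nat_lit 8) (nat_lit 11) (C.cons (nat_lit 2432) (C.node (nat_lit 6) (nat_lit 8) (nat_lit 11) (C.cons (nat_lit 2368) (C.miq (nat_lit 996700480) (nat_lit 2862743591033176300949931155)) C.nil)) C.nil)) (C.cons (nat_lit 2184) (C.node (nat_lit 6) (nat_lit 8) (nat_lit 11) (C.cons (nat_lit 2376) (C.miq (nat_lit 389759110) (nat_lit 2640333281932836004709269841)) (C.cons (nat_lit 2368) (C.node (nat_lit 1) (nat_lit 7) (nat_lit 11) (C.cons (nat_lit 2434) (C.node (nat_lit 1) (nat_lit 3) (nat_lit 11) C.nil) C.nil)) C.nil))) C.nil))) C.nil)) C.nil))) C.nil))) C.nil))) C.nil))) C.nil))) C.nil))))))) C.nil)))) C.nil))) C.nil))) C.nil)))) (C.cons (nat_lit 3076) (C.node (nat_lit 1) (nat_lit 10) (nat_lit 11) (C.cons (nat_lit 3082)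 (C.miq (nat_lit 2494629283) (nat_lit 2575021643584231554654274601)) (C.cons (nat_lit 3074) (C.node (nat_lit 3) (nat_lit 7) (nat_lit 11) (C.cons (nat_lit 2186) (C.node (nat_lit 3) (nat_lit 10) (nat_lit 11) (C.cons (nat_lit 3144) (C.miq (nat_lit 2209744660) (nat_lit 3800868993531776020180501651)) (C.cons (nat_lit 3080) (C.node (nat_lit 6) (nat_lit 10) (nat_lit 11) (C.cons (nat_lit 3136) (C.node (nat_lit 3) (nat_lit 6) (nat_lit 11) (C.cons (nat_lit 2632) (C.miq (nat_lit 2209744660) (nat_lit 3181898973889085882730939539)) (C.cons (nat_lit 2376) (C.node (nat_lit 2) (nat_lit 6) (nat_lit 11) (C.cons (nat_lit 2628) (C.miq (nat_lit 1265269024) (nat_lit 3791212972209907030034809477)) (C.cons (nat_lit 2116) (C.node (nat_lit 6) (nat_lit 9) (nat_lit 11) (C.cons (nat_lit 2624) (C.node (nat_lit 3) (nat_lit 5) (nat_lit 11) (C.cons (nat_lit 2600) (C.miq (nat_lit 1094256565) (nat_lit 632278552611492996126869729)) (C.cons (nat_lit 2088) (C.node (nat_lit 3) (nat_lit 9) (nat_lit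 11) (C.cons (nat_lit 2568) (C.node (nat_lit 1) (nat_lit 8) (nat_lit 11) (C.cons (nat_lit 2306) (C.node (nat_lit 2) (nat_lit 7) (nat_lit 11) C.nil) C.nil)) C.nil)) C.nil))) C.nil)) C.nil))) (C.cons (nat_lit 2120) (C.miq (nat_lit 2209744660) (nat_lit 2562928954246395745281377427)) C.nil)))) C.nil)) C.nil))) (C.cons (nat_lit 2184) (C.node (nat_lit 1) (nat_lit 3) (nat_lit 4) (C.cons (nat_lit 314) (C.miq (nat_lit 2604730963) (nat_lit 2575021644507469478083822633))
  (C.cons (nat_lit 282) (C.miq (nat_lit 460539400) (nat_lit 2640299192619730366531961169)) (C.cons (nat_lit 58) (C.miq (nat_lit 2604730963) (nat_lit 2575021644507469478067045417)) (C.cons (nat_lit 26) (C.node (nat_lit 3) (nat_lit 10) (nat_lit 11) (C.cons (nat_lit 3144) (C.node (nat_lit 3) (nat_lit 9) (nat_lit 11) (C.cons (nat_lit 2600) (C.miq (nat_lit 1393867018) (nat_lit 31489625883327518135750401)) (C.cons (nat_lit 2568) (C.node (nat_lit 6) (nat_lit 9) (nat_lit 11) (C.cons (nat_lit 2628) (C.miq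 (nat_lit 1265269024) (nat_lit 3800884378766824063432458885)) (C.cons (nat_lit 2624) (C.node (nat_lit 3) (nat_lit 4) (nat_lit 10) (C.cons (nat_lit 1560) (C.miq (nat_lit 1402669639) (nat_lit 3104563434519424812979324051)) (C.cons (nat_lit 1304) (C.miq (nat_lit 2068317603) (nat_lit 2804715151716166675618858025)) (C.cons (nat_lit 1048) (C.node (nat_lit 2) (nat_lit 6) (nat_lit 11) (C.cons (nat_lit 2372) (C.node (nat_lit 2) (nat_lit 7) (nat_lit 11) (C.cons (nat_lit 2182) (C.miq (nat_lit 1093142454) (nat_lit 317953707441016882568890593)) (C.cons (nat_lit 2180) (C.node (nat_lit 1) (nat_lit 7) (nat_lit 11) (C.cons (nat_lit 2434) (C.miq (nat_lit 2709653430) (nat_lit 317967653179537689321670881)) (C.cons (nat_lit 2178) (C.node (nat_lit 7) (nat_lit 8) (nat_lit 11) (C.cons (nat_lit 2432) (C.node (nat_lit 4) (nat_lit 8) (nat_lit 10) (C.cons (nat_lit 1300) (C.miq (nat_lit 1219994208) (nat_lit 2940129194806016124305605701)) (C.cons (nat_lit 1296) (C.node (nat_lit 2)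 (nat_lit 4) (nat_lit 10) (C.cons (nat_lit 1556) (C.miq (nat_lit 699835504) (nat_lit 3172241513398046196471235731)) (C.cons (nat_lit 1044) (C.node (nat_lit 1) (nat_lit 2) (nat_lit 11) (C.cons (nat_lit 2054) (C.node (nat_lit 1) (nat_lit 9) (nat_lit 11) C.nil) C.nil)) C.nil))) C.nil))) C.nil)) C.nil))) C.nil))) (C.cons (nat_lit 2116) (C.node (nat_lit 6) (nat_lit 8) (nat_lit 11) (C.cons (nat_lit 2368) (C.node (nat_lit 4) (nat_lit 6) (nat_lit 10) (C.cons (nat_lit 1616) (C.node (nat_lit 1) (nat_lit 4) (nat_lit 9) (C.cons (nat_lit 786) (C.miq (nat_lit 641796760) (nat_lit 2575016847580510617999642369)) (C.cons (nat_lit 534) (C.miq (nat_lit 1612822420) (nat_lit 317986782763319866644892304)) (C.cons (nat_lit 530) (C.node (nat_lit 1) (nat_lit 9) (nat_lit 10) (C.cons (nat_lit 1574) (C.miq (nat_lit 1362405643) (nat_lit 31489625594534192089992961)) (C.cons (nat_lit 1570) (C.miq (nat_lit 1362405643) (nat_lit 31489625593408292183150337)) (C.cons (nat_lit 1542) (C.miq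 (nat_lit 2224096930) (nat_lit 640735535984308856126047301)) (C.cons (nat_lit 1538) (C.node (nat_lit 1) (nat_lit 2) (nat_lit 4) (C.cons (nat_lit 54) (C.node (nat_lit 1) (nat_lit 4) (nat_lit 8) (C.cons (nat_lit 274) (C.node (nat_lit 2) (nat_lit 4) (nat_lit 6) (C.cons (nat_lit 212) (C.miq (nat_lit 714367159) (nat_lit 1953628035514653019441465569)) (C.cons (nat_lit 84) (C.node (nat_lit 2) (nat_lit 4) (nat_lit 10) (C.cons (nat_lit 1300) (C.miq (nat_lit 280307876) (nat_lit 2747889384182276510471685396)) (C.cons (nat_lit 1044) (C.node (nat_lit 4) (nat_lit 8) (nat_lit 10) (C.cons (nat_lit 1296) (C.node (nat_lit 4) (nat_lit 5) (nat_lit 6) (C.cons (nat_lit 120) (C.miq (nat_lit 2587102053) (nat_lit 1266964608660715615081203937)) (C.cons (nat_lit 112) (C.node (nat_lit 2) (nat_lit 4) (nat_lit 7) (C.cons (nat_lit 404) (C.node (nat_lit 2) (nat_lit 4) (nat_lit 9) C.nil) C.nil)) C.nil))) C.nil)) C.nil))) C.nil))) C.nil)) (C.cons (nat_lit 22) (C.node (nat_lit 1) (nat_lit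 4) (nat_lit 5) (C.cons (nat_lit 306) (C.node (nat_lit 1) (nat_lit 5) (nat_lit 10) (C.cons (nat_lit 1122) (C.miq (nat_lit 874122085) (nat_lit 1415671781135801939235309793)) (C.cons (nat_lit 1062) (C.miq (nat_lit 1683621906) (nat_lit 3771868719583773971104268551)) (C.cons (nat_lit 1058) (C.node (nat_lit 3) (nat_lit 4) (nat_lit 5) (C.cons (nat_lit 184) (C.miq (nat_lit 2486875984) (nat_lit 1267025113661227620849223905)) (C.cons (nat_lit 120) (C.miq (nat_lit 2587102053) (nat_lit 1266964608660715615081203937)) (C.cons (nat_lit 56) (C.node (nat_lit 4) (nat_lit 5) (nat_lit 7) (C.cons (nat_lit 180)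
  (C.miq (nat_lit 698642613) (nat_lit 1953627445092741871196702945)) (C.cons (nat_lit 176) (C.node (nat_lit 5) (nat_lit 8) (nat_lit 11) (C.cons (nat_lit 2344) (C.miq (nat_lit 1951599288) (nat_lit 67707095798460799817092865)) (C.cons (nat_lit 2340) (C.miq (nat_lit 558203051) (nat_lit 369974466257241956296953601)) (C.cons (nat_lit 2336) (C.node (nat_lit 1) (nat_lit 2) (nat_lit 10) (C.cons (nat_lit 1038) (C.node (nat_lit 3) (nat_lit 8) (nat_lit 10) (C.cons (nat_lit 1288) (C.node (nat_lit 1) (nat_lit 6) (nat_lit 10) (C.cons (nat_lit 1346) (C.miq (nat_lit 1629726731) (nat_lit 1254922997702219274540355329)) (C.cons (nat_lit 1090) (C.node (nat_lit 1) (nat_lit 8) (nat_lit 10) C.nil) C.nil))) C.nil)) (C.cons (nat_lit 1030) (C.node (nat_lit 1) (nat_lit 3) (nat_lit 10) (C.cons (nat_lit 1290) (C.node (nat_lit 1) (nat_lit 6) (nat_lit 10) C.nil) (C.cons (nat_lit 1034) (C.node (nat_lit 1) (nat_lit 6) (nat_lit 10) C.nil) C.nil))) C.nil))) C.nil)))) C.nil))) C.nil))))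 C.nil)))) (C.cons (nat_lit 50) (C.node (nat_lit 1) (nat_lit 4) (nat_lit 8) (C.cons (nat_lit 274) (C.node (nat_lit 2) (nat_lit 4) (nat_lit 9) (C.cons (nat_lit 788) (C.node (nat_lit 2) (nat_lit 4) (nat_lit 10) (C.cons (nat_lit 1044) (C.node (nat_lit 3) (nat_lit 4) (nat_lit 9) (C.cons (nat_lit 536) (C.node (nat_lit 4) (nat_lit 8) (nat_lit 10) C.nil) C.nil)) C.nil)) (C.cons (nat_lit 532) (C.node (nat_lit 2) (nat_lit 4) (nat_lit 10) (C.cons (nat_lit 1300) (C.node (nat_lit 6) (nat_lit 7) (nat_lit 10) (C.cons (nat_lit 1472) (C.miq (nat_lit 728252538) (nat_lit 2862760322199370997306492051)) (C.cons (nat_lit 1216) (C.node (nat_lit 7) (nat_lit 8) (nat_lit 10) (C.cons (nat_lit 1440) (C.miq (nat_lit 883428183) (nat_lit 1571610815654075821992184033)) (C.cons (nat_lit 1408) (C.node (nat_lit 2) (nat_lit 4) (nat_lit 5) (C.cons (nat_lit 180) (C.miq (nat_lit 2754196848) (nat_lit 643219390857172539805075681)) (C.cons (nat_lit 116) (C.miq (nat_lit 2220597856) (nat_lit 3771919411507548111560049733))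 (C.cons (nat_lit 52) (C.node (nat_lit 2) (nat_lit 4) (nat_lit 6) (C.cons (nat_lit 212) (C.miq (nat_lit 2485827424) (nat_lit 1571674420204114293136099553)) C.nil)) C.nil)))) C.nil))) C.nil))) (C.cons (nat_lit 1044) (C.node (nat_lit 4) (nat_lit 8) (nat_lit 10) C.nil) C.nil))) C.nil))) C.nil)) C.nil))) C.nil))) C.nil))))) C.nil)))) (C.cons (nat_lit 1104) (C.node (nat_lit 4) (nat_lit 9) (nat_lit 10) (C.cons (nat_lit 1556) (C.miq (nat_lit 699835504) (nat_lit 3172241513398046196471235731)) (C.cons (nat_lit 1552) (C.node (nat_lit 2) (nat_lit 4) (nat_lit 10) (C.cons (nat_lit 1300) (C.node (nat_lit 1) (nat_lit 2) (nat_lit 4) (C.cons (nat_lit 534) (C.miq (nat_lit 1612822420) (nat_lit 317986782763319866644892304)) (C.cons (nat_lit 54) (C.miq (nat_lit 280307876) (nat_lit 2747889384182276510471685396)) (C.cons (nat_lit 22) (C.node (nat_lit 2) (nat_lit 4) (nat_lit 5) (C.cons (nat_lit 180) (C.miq (nat_lit 2588019543) (nat_lit 1571615464730104255634213089)) (C.cons (nat_lit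 116) (C.miq (nat_lit 2220597856) (nat_lit 3771919411507548111560049733)) (C.cons (nat_lit 52) (C.node (nat_lit 2) (nat_lit 4) (nat_lit 7) (C.cons (nat_lit 212) (C.miq (nat_lit 2485827424) (nat_lit 1571674420204114293136099553)) (C.cons (nat_lit 148) (C.node (nat_lit 4) (nat_lit 5) (nat_lit 6) (C.cons (nat_lit 120) (C.miq (nat_lit 2587102053) (nat_lit 1266964608660715615081203937)) (C.cons (nat_lit 112) (C.node (nat_lit 1) (nat_lit 4) (nat_lit 5) (C.cons (nat_lit 306) (C.node (nat_lit 1) (nat_lit 4) (nat_lit 9) C.nil) C.nil)) C.nil))) C.nil))) C.nil)))) C.nil)))) (C.cons (nat_lit 1044) (C.node (nat_lit 4) (nat_lit 8) (nat_lit 10) (C.cons (nat_lit 1296) (C.ref (nat_lit 239) (nat_lit 205163983024656)) C.nil)) C.nil))) C.nil))) C.nil))) C.nil)) C.nil))) C.nil)))) C.nil))) C.nil))) (C.cons (nat_lit 3080) (C.node (nat_lit 6) (nat_lit 10) (nat_lit 11) (C.cons (nat_lit 3136) (C.node (nat_lit 1) (nat_lit 2) (nat_lit 4) (C.cons (nat_lit 534) (C.miq (nat_lit 1612822420)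 (nat_lit 317986782763319866644892304)) (C.cons (nat_lit 54)
  (C.node (nat_lit 2) (nat_lit 5) (nat_lit 11) (C.cons (nat_lit 2596) (C.miq (nat_lit 1951533753) (nat_lit 65293892738738116291202817)) (C.cons (nat_lit 2340) (C.node (nat_lit 2) (nat_lit 6) (nat_lit 11) (C.cons (nat_lit 2628) (C.miq (nat_lit 1265269024) (nat_lit 3791212972209907030034809477)) (C.cons (nat_lit 2116) (C.node (nat_lit 6) (nat_lit 8) (nat_lit 11) (C.cons (nat_lit 2376) (C.miq (nat_lit 389759110) (nat_lit 2640333281932836004709269841)) (C.cons (nat_lit 2368) (C.node (nat_lit 2) (nat_lit 4) (nat_lit 10) (C.cons (nat_lit 1556) (C.miq (nat_lit 1967262633) (nat_lit 65293893048923540558188289)) (C.cons (nat_lit 1300) (C.miq (nat_lit 1965296522) (nat_lit 65303596036302961691070209)) (C.cons (nat_lit 1044) (C.node (nat_lit 4) (nat_lit 8) (nat_lit 10) (C.cons (nat_lit 1304) (C.miq (nat_lit 2068317603) (nat_lit 2804715151716166675618858025)) (C.cons (nat_lit 1296) (C.node (nat_lit 5) (nat_lit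 8) (nat_lit 10) (C.cons (nat_lit 1440) (C.miq (nat_lit 1948623032) (nat_lit 65308557900272235717070593)) (C.cons (nat_lit 1378) (C.miq (nat_lit 874122085) (nat_lit 1415671781135801939252087009)) (C.cons (nat_lit 1376) (C.miq (nat_lit 413474996) (nat_lit 1663482923987954140760246301)) (C.cons (nat_lit 1314) (C.node (nat_lit 1) (nat_lit 4) (nat_lit 8) (C.cons (nat_lit 786) (C.node (nat_lit 7) (nat_lit 8) (nat_lit 11) (C.cons (nat_lit 2434) (C.miq (nat_lit 1900394640) (nat_lit 65323924393582986439757569)) (C.cons (nat_lit 2432) (C.node (nat_lit 1) (nat_lit 7) (nat_lit 8) (C.cons (nat_lit 450) (C.miq (nat_lit 873991015) (nat_lit 950222944372152174110705889)) (C.cons (nat_lit 386) (C.node (nat_lit 1) (nat_lit 7) (nat_lit 9) (C.cons (nat_lit 706) (C.miq (nat_lit 605621095) (nat_lit 950227592951658748934490337)) (C.cons (nat_lit 674) (C.miq (nat_lit 1729627540) (nat_lit 466651583563795218478268977)) (C.cons (nat_lit 642) (C.node (nat_lit 5) (nat_lit 9) (nat_lit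 11) (C.cons (nat_lit 2600) (C.miq (nat_lit 891394944) (nat_lit 65291642638185515218046721)) (C.cons (nat_lit 2594) (C.miq (nat_lit 1363589504) (nat_lit 2575053925958589149388803841)) (C.cons (nat_lit 2592) (C.node (nat_lit 1) (nat_lit 5) (nat_lit 11) (C.cons (nat_lit 2090) (C.node (nat_lit 1) (nat_lit 8) (nat_lit 11) C.nil) C.nil)) C.nil)))) C.nil)))) C.nil))) C.nil))) (C.cons (nat_lit 274) (C.node (nat_lit 1) (nat_lit 4) (nat_lit 9) (C.cons (nat_lit 530) (C.node (nat_lit 2) (nat_lit 7) (nat_lit 11) (C.cons (nat_lit 2182) (C.node (nat_lit 2) (nat_lit 9) (nat_lit 11) (C.cons (nat_lit 2564) (C.node (nat_lit 7) (nat_lit 8) (nat_lit 11) (C.cons (nat_lit 2432) (C.node (nat_lit 1) (nat_lit 8) (nat_lit 11) C.nil) C.nil)) C.nil)) (C.cons (nat_lit 2180) (C.node (nat_lit 1) (nat_lit 2) (nat_lit 11) (C.cons (nat_lit 2566) (C.node (nat_lit 1) (nat_lit 5) (nat_lit 11) (C.cons (nat_lit 2082) (C.node (nat_lit 1) (nat_lit 3) (nat_lit 11) C.nil) C.nil)) (C.cons (nat_lit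 2054) (C.node (nat_lit 2) (nat_lit 9) (nat_lit 11) C.nil) C.nil))) C.nil))) C.nil)) C.nil))) (C.cons (nat_lit 1312) (C.miq (nat_lit 413474996) (nat_lit 1586111671532617873579051037)) C.nil)))))) C.nil))) C.nil)))) C.nil))) C.nil))) (C.cons (nat_lit 2084) (C.miq (nat_lit 2337409601) (nat_lit 2519406260651737371546879123)) C.nil)))) (C.cons (nat_lit 22) (C.node (nat_lit 1) (nat_lit 4) (nat_lit 5) (C.cons (nat_lit 306) (C.node (nat_lit 1) (nat_lit 4) (nat_lit 9) (C.cons (nat_lit 530) (C.node (nat_lit 4) (nat_lit 5) (nat_lit 7) (C.cons (nat_lit 184) (C.miq (nat_lit 2336688723) (nat_lit 3268942666889537042114937897)) (C.cons (nat_lit 180) (C.miq (nat_lit 2686826868) (nat_lit 44787810248399409076505232)) (C.cons (nat_lit 176) (C.node (nat_lit 5) (nat_lit 8) (nat_lit 11) (C.cons (nat_lit 2344) (C.miq (nat_lit 927301803) (nat_lit 212814183530908205395742465)) (C.cons (nat_lit 2340) (C.miq (nat_lit 558203051) (nat_lit 369974466257241956296953601)) (C.cons (nat_lit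 2336) (C.node (nat_lit 1) (nat_lit 5) (nat_lit 10) (C.cons (nat_lit 1634) (C.miq (nat_lit 877726633) (nat_lit 369940949033864004588670721)) (C.cons (nat_lit 1574)
  (C.miq (nat_lit 877726633) (nat_lit 369940949033864004584738561)) (C.cons (nat_lit 1570) (C.miq (nat_lit 877726633) (nat_lit 369940949033864004584476417)) (C.cons (nat_lit 1122) (C.miq (nat_lit 874122085) (nat_lit 1415671781135801939235309793)) (C.cons (nat_lit 1062) (C.miq (nat_lit 1683621906) (nat_lit 3771868719583773971104268551)) (C.cons (nat_lit 1058) (C.node (nat_lit 2) (nat_lit 4) (nat_lit 5) (C.cons (nat_lit 116) (C.node (nat_lit 3) (nat_lit 4) (nat_lit 5) (C.cons (nat_lit 56) (C.node (nat_lit 2) (nat_lit 4) (nat_lit 10) (C.cons (nat_lit 1556) (C.miq (nat_lit 1967262633) (nat_lit 140247293865030549389971201)) (C.cons (nat_lit 1300) (C.miq (nat_lit 2220597856) (nat_lit 3771919411507548111560049733)) (C.cons (nat_lit 1044) (C.node (nat_lit 4) (nat_lit 8) (nat_lit 10) (C.cons (nat_lit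 1304) (C.miq (nat_lit 1967328168) (nat_lit 67707096108646224084078337)) (C.cons (nat_lit 1296) (C.node (nat_lit 5) (nat_lit 6) (nat_lit 10) (C.cons (nat_lit 1632) (C.miq (nat_lit 2504762912) (nat_lit 3771919411600997803815142469)) (C.cons (nat_lit 1376) (C.miq (nat_lit 2236327456) (nat_lit 3771919411528940209777214533)) (C.cons (nat_lit 1120) (C.node (nat_lit 5) (nat_lit 9) (nat_lit 10) (C.cons (nat_lit 1696) (C.miq (nat_lit 609684393) (nat_lit 212782842986739204446228225)) (C.cons (nat_lit 1572) (C.miq (nat_lit 2504565344) (nat_lit 370002155188542807475291205)) (C.cons (nat_lit 1568) (C.node (nat_lit 2) (nat_lit 4) (nat_lit 7) (C.cons (nat_lit 404) (C.node (nat_lit 2) (nat_lit 4) (nat_lit 9) (C.cons (nat_lit 532) (C.node (nat_lit 2) (nat_lit 8) (nat_lit 11) (C.cons (nat_lit 2372) (C.miq (nat_lit 2185868880) (nat_lit 643219390646628982342093025)) (C.cons (nat_lit 2308) (C.node (nat_lit 2) (nat_lit 6) (nat_lit 11) (C.cons (nat_lit 2628) (C.miq (nat_lit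 2761033654) (nat_lit 643168698655874096975579361)) (C.cons (nat_lit 2116) (C.node (nat_lit 3) (nat_lit 4) (nat_lit 7) C.nil) C.nil))) C.nil))) C.nil)) (C.cons (nat_lit 148) (C.node (nat_lit 4) (nat_lit 7) (nat_lit 8) (C.cons (nat_lit 400) (C.node (nat_lit 2) (nat_lit 4) (nat_lit 8) (C.cons (nat_lit 788) (C.node (nat_lit 3) (nat_lit 4) (nat_lit 8) C.nil) C.nil)) C.nil)) C.nil))) C.nil)))) C.nil)))) C.nil))) C.nil)))) C.nil)) (C.cons (nat_lit 52) (C.node (nat_lit 3) (nat_lit 4) (nat_lit 5) (C.cons (nat_lit 120) (C.node (nat_lit 3) (nat_lit 4) (nat_lit 7) (C.cons (nat_lit 152) (C.node (nat_lit 4) (nat_lit 6) (nat_lit 7) (C.cons (nat_lit 212) (C.miq (nat_lit 2873493874) (nat_lit 2575032159151589705815163525)) (C.cons (nat_lit 208) (C.node (nat_lit 3) (nat_lit 4) (nat_lit 10) (C.cons (nat_lit 1560) (C.miq (nat_lit 1949677984) (nat_lit 145113028564150080019959553)) (C.cons (nat_lit 1304) (C.miq (nat_lit 1412938368) (nat_lit 183798654908910704366522113)) (C.cons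 (nat_lit 1048) (C.node (nat_lit 5) (nat_lit 6) (nat_lit 10) (C.cons (nat_lit 1632) (C.miq (nat_lit 2521539888) (nat_lit 2575082850182514938035897385)) (C.cons (nat_lit 1376) (C.miq (nat_lit 2253104432) (nat_lit 2575082850110457343997969449)) (C.cons (nat_lit 1120) (C.node (nat_lit 2) (nat_lit 4) (nat_lit 6) (C.cons (nat_lit 596) (C.node (nat_lit 4) (nat_lit 6) (nat_lit 10) (C.cons (nat_lit 1104) (C.node (nat_lit 4) (nat_lit 9) (nat_lit 10) C.nil) C.nil)) (C.cons (nat_lit 84) (C.node (nat_lit 2) (nat_lit 4) (nat_lit 7) (C.cons (nat_lit 404) (C.node (nat_lit 4) (nat_lit 8) (nat_lit 10) C.nil) C.nil)) C.nil))) C.nil)))) C.nil)))) C.nil))) C.nil)) (C.cons (nat_lit 56) (C.node (nat_lit 4) (nat_lit 5) (nat_lit 6) (C.cons (nat_lit 112) (C.node (nat_lit 3) (nat_lit 4) (nat_lit 7) (C.cons (nat_lit 216) (C.node (nat_lit 3) (nat_lit 4) (nat_lit 8) (C.cons (nat_lit 1304) (C.miq (nat_lit 1412938368) (nat_lit 261169907364246971547717377)) (C.cons (nat_lit 792) (C.miq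 (nat_lit 2490073968) (nat_lit 2575082849946076369928651145)) (C.cons (nat_lit 280) (C.node (nat_lit 3) (nat_lit 4) (nat_lit 9) (C.cons (nat_lit 1560) (C.miq (nat_lit 1949677984) (nat_lit 67741776108813812838764289)) (C.cons (nat_lit 536)
  (C.node (nat_lit 3) (nat_lit 4) (nat_lit 10) C.nil) C.nil))) C.nil)))) (C.cons (nat_lit 152) (C.node (nat_lit 4) (nat_lit 6) (nat_lit 7) (C.cons (nat_lit 212) (C.miq (nat_lit 2873493874) (nat_lit 2575032159151589705815163525)) (C.cons (nat_lit 208) (C.node (nat_lit 2) (nat_lit 4) (nat_lit 6) (C.cons (nat_lit 596) (C.node (nat_lit 4) (nat_lit 9) (nat_lit 10) (C.cons (nat_lit 1560) (C.miq (nat_lit 1949677984) (nat_lit 67741776108813812838764289)) C.nil)) C.nil)) C.nil))) C.nil))) C.nil)) C.nil))) C.nil))) C.nil))))))) C.nil)))) C.nil)))) C.nil)) (C.cons (nat_lit 50) (C.node (nat_lit 1) (nat_lit 4) (nat_lit 8) (C.cons (nat_lit 786) (C.node (nat_lit 4) (nat_lit 9) (nat_lit 10) (C.cons (nat_lit 1624) (C.miq (nat_lit 1678944640)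 (nat_lit 26616530779913144423091969)) (C.cons (nat_lit 1616) (C.miq (nat_lit 1678944640) (nat_lit 26616530777661344609406721)) (C.cons (nat_lit 1560) (C.miq (nat_lit 1882830244) (nat_lit 632318084294223565304630320)) (C.cons (nat_lit 1556) (C.miq (nat_lit 1800013714) (nat_lit 3771868720128719825380049541)) (C.cons (nat_lit 1552) (C.node (nat_lit 5) (nat_lit 9) (nat_lit 11) (C.cons (nat_lit 2600) (C.miq (nat_lit 826642603) (nat_lit 60494252662539546000363265)) (C.cons (nat_lit 2598) (C.miq (nat_lit 1363589504) (nat_lit 2575053925959715049295646465)) (C.cons (nat_lit 2596) (C.miq (nat_lit 732403008) (nat_lit 3868574521647463341636125233)) (C.cons (nat_lit 2594) (C.miq (nat_lit 1363589504) (nat_lit 2575053925958589149388803841)) (C.cons (nat_lit 2592) (C.node (nat_lit 1) (nat_lit 9) (nat_lit 11) (C.cons (nat_lit 2566) (C.node (nat_lit 1) (nat_lit 7) (nat_lit 11) (C.cons (nat_lit 2434) (C.miq (nat_lit 1900394640) (nat_lit 60488221115124469740932865)) (C.cons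 (nat_lit 2178) (C.node (nat_lit 2) (nat_lit 5) (nat_lit 11) (C.cons (nat_lit 2340) (C.miq (nat_lit 558203051) (nat_lit 60489456435896887572172545)) (C.cons (nat_lit 2084) (C.node (nat_lit 2) (nat_lit 7) (nat_lit 11) (C.cons (nat_lit 2436) (C.miq (nat_lit 934873121) (nat_lit 3268945063995737967056781575)) (C.cons (nat_lit 2180) (C.node (nat_lit 7) (nat_lit 8) (nat_lit 11) C.nil) C.nil))) C.nil))) C.nil))) (C.cons (nat_lit 2562) (C.node (nat_lit 2) (nat_lit 9) (nat_lit 11) (C.cons (nat_lit 2628) (C.miq (nat_lit 709451899) (nat_lit 1876301350392987366974294241)) (C.cons (nat_lit 2564) (C.node (nat_lit 2) (nat_lit 4) (nat_lit 9) (C.cons (nat_lit 596) (C.node (nat_lit 3) (nat_lit 4) (nat_lit 9) (C.cons (nat_lit 536) (C.node (nat_lit 2) (nat_lit 4) (nat_lit 10) (C.cons (nat_lit 1300) (C.node (nat_lit 2) (nat_lit 4) (nat_lit 5) (C.cons (nat_lit 180) (C.miq (nat_lit 2754196848) (nat_lit 720590643312508806986270945)) (C.cons (nat_lit 52) (C.node (nat_lit 2) (nat_lit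 4) (nat_lit 7) (C.cons (nat_lit 148) (C.node (nat_lit 3) (nat_lit 4) (nat_lit 8) (C.cons (nat_lit 280) (C.node (nat_lit 3) (nat_lit 4) (nat_lit 10) C.nil) C.nil)) C.nil)) C.nil))) (C.cons (nat_lit 1044) (C.node (nat_lit 4) (nat_lit 8) (nat_lit 10) (C.cons (nat_lit 1304) (C.miq (nat_lit 2068317603) (nat_lit 2804715151716166675618858025)) (C.cons (nat_lit 1296) (C.node (nat_lit 2) (nat_lit 6) (nat_lit 11) (C.cons (nat_lit 2372) (C.node (nat_lit 2) (nat_lit 7) (nat_lit 11) (C.cons (nat_lit 2182) (C.miq (nat_lit 1093142454) (nat_lit 317953707441016882568890593)) (C.cons (nat_lit 2180) (C.node (nat_lit 1) (nat_lit 7) (nat_lit 11) (C.cons (nat_lit 2434) (C.miq (nat_lit 1900394640) (nat_lit 60488221115124469740932865)) C.nil)) C.nil))) (C.cons (nat_lit 2116) (C.node (nat_lit 6) (nat_lit 8) (nat_lit 11) (C.cons (nat_lit 2376) (C.miq (nat_lit 389759110) (nat_lit 2640333281932836004709269841)) C.nil)) C.nil))) C.nil))) C.nil))) C.nil)) (C.cons (nat_lit 532) (C.node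 (nat_lit 2) (nat_lit 4) (nat_lit 10) (C.cons (nat_lit 1300) (C.node (nat_lit 2) (nat_lit 6) (nat_lit 11) (C.cons (nat_lit 2372) (C.miq (nat_lit 1955269158) (nat_lit 2804749831284832008470266949)) (C.cons (nat_lit 2116) (C.node (nat_lit 6) (nat_lit 8) (nat_lit 11) (C.cons (nat_lit 2376)
  (C.miq (nat_lit 389759110) (nat_lit 2640333281932836004709269841)) C.nil)) C.nil))) (C.cons (nat_lit 1044) (C.node (nat_lit 4) (nat_lit 8) (nat_lit 10) (C.cons (nat_lit 1304) (C.miq (nat_lit 2068317603) (nat_lit 2804715151716166675618858025)) (C.cons (nat_lit 1296) (C.node (nat_lit 2) (nat_lit 6) (nat_lit 11) (C.cons (nat_lit 2372) (C.node (nat_lit 2) (nat_lit 7) (nat_lit 11) (C.cons (nat_lit 2182) (C.miq (nat_lit 1093142454) (nat_lit 317953707441016882568890593)) (C.cons (nat_lit 2180) (C.node (nat_lit 1) (nat_lit 7) (nat_lit 11) (C.cons (nat_lit 2434) (C.miq (nat_lit 1900394640) (nat_lit 60488221115124469740932865)) C.nil)) C.nil))) (C.cons (nat_lit 2116) (C.node (nat_lit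 6) (nat_lit 8) (nat_lit 11) (C.cons (nat_lit 2376) (C.miq (nat_lit 389759110) (nat_lit 2640333281932836004709269841)) C.nil)) C.nil))) C.nil))) C.nil))) C.nil))) C.nil))) C.nil))) C.nil)))))) C.nil)))))) (C.cons (nat_lit 274) (C.node (nat_lit 1) (nat_lit 4) (nat_lit 9) (C.cons (nat_lit 530) (C.node (nat_lit 2) (nat_lit 4) (nat_lit 10) (C.cons (nat_lit 1556) (C.miq (nat_lit 1800013714) (nat_lit 3771868720128719825380049541)) (C.cons (nat_lit 1300) (C.node (nat_lit 2) (nat_lit 4) (nat_lit 5) (C.cons (nat_lit 180) (C.miq (nat_lit 2588019543) (nat_lit 1571615464730104255634213089)) (C.cons (nat_lit 116) (C.miq (nat_lit 2220597856) (nat_lit 3771919411507548111560049733)) (C.cons (nat_lit 52) (C.node (nat_lit 2) (nat_lit 4) (nat_lit 7) (C.cons (nat_lit 212) (C.miq (nat_lit 2485827424) (nat_lit 1571674420204114293136099553)) (C.cons (nat_lit 148) (C.node (nat_lit 2) (nat_lit 6) (nat_lit 11) (C.cons (nat_lit 2628) (C.miq (nat_lit 2460268039) (nat_lit 1571653446234714171017201889))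 (C.cons (nat_lit 2372) (C.miq (nat_lit 1648867488) (nat_lit 178962951419908887959244545)) (C.cons (nat_lit 2116) (C.node (nat_lit 6) (nat_lit 8) (nat_lit 11) (C.cons (nat_lit 2376) (C.miq (nat_lit 389759110) (nat_lit 2640333281932836004709269841)) (C.cons (nat_lit 2368) (C.node (nat_lit 7) (nat_lit 8) (nat_lit 10) (C.cons (nat_lit 1472) (C.miq (nat_lit 728252538) (nat_lit 2862760322199370997306492051)) (C.cons (nat_lit 1440) (C.miq (nat_lit 883428183) (nat_lit 1571610815654075821992184033)) (C.cons (nat_lit 1408) (C.node (nat_lit 5) (nat_lit 8) (nat_lit 10) (C.cons (nat_lit 1378) (C.miq (nat_lit 609291176) (nat_lit 60451143059059771363692289)) (C.cons (nat_lit 1376) (C.miq (nat_lit 1481337376) (nat_lit 2804749831342534378676618309)) (C.cons (nat_lit 1314) (C.miq (nat_lit 609291176) (nat_lit 60451143059059771359497985)) (C.cons (nat_lit 1312) (C.node (nat_lit 2) (nat_lit 4) (nat_lit 6) (C.cons (nat_lit 596) (C.node (nat_lit 4) (nat_lit 9) (nat_lit 10)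 (C.cons (nat_lit 1560) (C.miq (nat_lit 874617472) (nat_lit 26606016117778939082379009)) (C.cons (nat_lit 1552) (C.node (nat_lit 5) (nat_lit 6) (nat_lit 10) (C.cons (nat_lit 1634) (C.miq (nat_lit 877726633) (nat_lit 60455939212518935863889665)) (C.cons (nat_lit 1632) (C.miq (nat_lit 898894434) (nat_lit 678245698991025921371407429)) (C.cons (nat_lit 1122) (C.miq (nat_lit 874122085) (nat_lit 1415671781135801939235309793)) (C.cons (nat_lit 1120) (C.node (nat_lit 3) (nat_lit 4) (nat_lit 9) (C.cons (nat_lit 792) (C.node (nat_lit 4) (nat_lit 5) (nat_lit 6) (C.cons (nat_lit 120) (C.miq (nat_lit 918045961) (nat_lit 2862750950702535023586771505)) (C.cons (nat_lit 112) (C.node (nat_lit 3) (nat_lit 6) (nat_lit 11) C.nil) C.nil))) (C.cons (nat_lit 536) (C.node (nat_lit 4) (nat_lit 8) (nat_lit 9) C.nil) C.nil))) C.nil))))) C.nil))) (C.cons (nat_lit 84) (C.node (nat_lit 2) (nat_lit 4) (nat_lit 9) (C.cons (nat_lit 532) (C.node (nat_lit 3) (nat_lit 6) (nat_lit 11) C.nil)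 C.nil)) C.nil))) C.nil))))) C.nil)))) C.nil))) C.nil)))) C.nil))) C.nil)))) (C.cons (nat_lit 1044) (C.node (nat_lit 4) (nat_lit 8) (nat_lit 10) (C.cons (nat_lit 1304) (C.miq (nat_lit 2068317603) (nat_lit 2804715151716166675618858025)) (C.cons (nat_lit 1296)
  (C.ref (nat_lit 240) (nat_lit 205163983024656)) C.nil))) C.nil)))) C.nil)) C.nil))) C.nil))) C.nil)))) C.nil)) C.nil))) C.nil))))) C.nil))) C.nil))) C.nil))) C.nil)))) (C.cons (nat_lit 2096) (C.node (nat_lit 4) (nat_lit 10) (nat_lit 11) (C.cons (nat_lit 3088) (C.node (nat_lit 6) (nat_lit 10) (nat_lit 11) (C.cons (nat_lit 3144) (C.node (nat_lit 3) (nat_lit 7) (nat_lit 11) (C.cons (nat_lit 2186) (C.miq (nat_lit 2209744660) (nat_lit 3800868993531776020180501651)) (C.cons (nat_lit 2184) (C.node (nat_lit 3) (nat_lit 9) (nat_lit 11) (C.cons (nat_lit 2600) (C.miq (nat_lit 2746680724) (nat_lit 2640315591475442448732258865)) (C.cons (nat_lit 2568) (C.node (nat_lit 6) (nat_lit 9) (nat_lit 11) (C.cons (nat_lit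 2628) (C.miq (nat_lit 1265269024) (nat_lit 3800884378766824063432458885)) (C.cons (nat_lit 2624) (C.node (nat_lit 2) (nat_lit 6) (nat_lit 11) (C.cons (nat_lit 2372) (C.node (nat_lit 7) (nat_lit 8) (nat_lit 11) (C.cons (nat_lit 2434) (C.miq (nat_lit 2709653430) (nat_lit 317967653179537689321670881)) (C.cons (nat_lit 2432) (C.node (nat_lit 1) (nat_lit 7) (nat_lit 11) (C.cons (nat_lit 2182) (C.miq (nat_lit 1093142454) (nat_lit 317953707441016882568890593)) (C.cons (nat_lit 2178) (C.node (nat_lit 2) (nat_lit 7) (nat_lit 11) (C.cons (nat_lit 3204) (C.miq (nat_lit 2072289888) (nat_lit 2804729503545106012268725317)) (C.cons (nat_lit 2180) (C.node (nat_lit 7) (nat_lit 10) (nat_lit 11) (C.cons (nat_lit 3200) (C.node (nat_lit 6) (nat_lit 7) (nat_lit 10) (C.cons (nat_lit 1728) (C.miq (nat_lit 647694964) (nat_lit 3172259664863887620593157267)) (C.cons (nat_lit 1472) (C.miq (nat_lit 2025104928) (nat_lit 2804729503057591352719901765)) (C.cons (nat_lit 1216) (C.node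 (nat_lit 3) (nat_lit 8) (nat_lit 11) (C.cons (nat_lit 2344) (C.miq (nat_lit 2181412515) (nat_lit 44773495161513393879845960)) (C.cons (nat_lit 2314) (C.miq (nat_lit 329288546) (nat_lit 1287510850034618056231422276)) (C.cons (nat_lit 2312) (C.node (nat_lit 1) (nat_lit 3) (nat_lit 11) (C.cons (nat_lit 2090) (C.node (nat_lit 1) (nat_lit 8) (nat_lit 11) C.nil) C.nil)) C.nil)))) C.nil)))) C.nil)) C.nil))) C.nil))) C.nil))) (C.cons (nat_lit 2116) (C.node (nat_lit 6) (nat_lit 8) (nat_lit 11) (C.cons (nat_lit 2368) (C.node (nat_lit 7) (nat_lit 10) (nat_lit 11) (C.cons (nat_lit 3204) (C.node (nat_lit 6) (nat_lit 7) (nat_lit 10) (C.cons (nat_lit 1728) (C.miq (nat_lit 647694964) (nat_lit 3172259664863887620593157267)) (C.cons (nat_lit 1472) (C.miq (nat_lit 2276747808) (nat_lit 3268941633205055055453815877)) (C.cons (nat_lit 1216) (C.node (nat_lit 1) (nat_lit 7) (nat_lit 11) (C.cons (nat_lit 2434) (C.node (nat_lit 1) (nat_lit 4) (nat_lit 9) (C.cons (nat_lit 786)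 (C.miq (nat_lit 1460931465) (nat_lit 1415662484031959190704623361)) (C.cons (nat_lit 534) (C.miq (nat_lit 1612822420) (nat_lit 317986782763319866644892304)) (C.cons (nat_lit 530) (C.node (nat_lit 1) (nat_lit 2) (nat_lit 4) (C.cons (nat_lit 54) (C.node (nat_lit 1) (nat_lit 3) (nat_lit 4) (C.cons (nat_lit 282) (C.miq (nat_lit 1636283440) (nat_lit 2942567374990829864645888029)) (C.cons (nat_lit 26) (C.node (nat_lit 1) (nat_lit 4) (nat_lit 8) (C.cons (nat_lit 274) (C.node (nat_lit 2) (nat_lit 8) (nat_lit 11) (C.cons (nat_lit 2340) (C.miq (nat_lit 2874411041) (nat_lit 2533930120130728499841728775)) (C.cons (nat_lit 2308) (C.node (nat_lit 2) (nat_lit 5) (nat_lit 11) (C.cons (nat_lit 2596) (C.miq (nat_lit 1918151568) (nat_lit 65303596298357264471887617)) (C.cons (nat_lit 2084) (C.node (nat_lit 1) (nat_lit 2) (nat_lit 11) (C.cons (nat_lit 2054) (C.node (nat_lit 2) (nat_lit 9) (nat_lit 11) C.nil) C.nil)) C.nil))) C.nil))) C.nil)) C.nil))) (C.cons (nat_lit 22)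 (C.node (nat_lit 1) (nat_lit 3) (nat_lit 11) (C.cons (nat_lit 2090) (C.node (nat_lit 1) (nat_lit 10) (nat_lit 11) (C.cons (nat_lit 3074) (C.node (nat_lit 3) (nat_lit 8) (nat_lit 11) C.nil) C.nil)) (C.cons (nat_lit 2058) (C.node (nat_lit 1) (nat_lit 10) (nat_lit 11) (C.cons (nat_lit 3106) (C.node (nat_lit 2) (nat_lit 8) (nat_lit 11) (C.cons (nat_lit 2340)
  (C.miq (nat_lit 901253655) (nat_lit 2828893667768437427191022739)) C.nil)) (C.cons (nat_lit 3074) (C.node (nat_lit 5) (nat_lit 10) (nat_lit 11) (C.cons (nat_lit 3104) (C.node (nat_lit 2) (nat_lit 8) (nat_lit 11) C.nil) C.nil)) C.nil))) C.nil))) C.nil))) C.nil)))) (C.cons (nat_lit 2178) (C.node (nat_lit 7) (nat_lit 8) (nat_lit 11) (C.cons (nat_lit 2432) (C.node (nat_lit 1) (nat_lit 10) (nat_lit 11) (C.cons (nat_lit 3106) (C.node (nat_lit 1) (nat_lit 2) (nat_lit 11) (C.cons (nat_lit 2054) (C.node (nat_lit 1) (nat_lit 9) (nat_lit 11) C.nil) C.nil)) (C.cons (nat_lit 3074) (C.node (nat_lit 5) (nat_lit 10)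 (nat_lit 11) C.nil) C.nil))) C.nil)) C.nil))) C.nil)))) (C.cons (nat_lit 3200) (C.ref (nat_lit 241) (nat_lit 205163983024656)) C.nil))) C.nil)) C.nil))) C.nil))) C.nil))) C.nil))) (C.cons (nat_lit 3136) (C.node (nat_lit 1) (nat_lit 2) (nat_lit 4) (C.cons (nat_lit 534) (C.miq (nat_lit 1612822420) (nat_lit 317986782763319866644892304)) (C.cons (nat_lit 54) (C.node (nat_lit 1) (nat_lit 3) (nat_lit 4) (C.cons (nat_lit 282) (C.node (nat_lit 1) (nat_lit 4) (nat_lit 9) (C.cons (nat_lit 530) (C.node (nat_lit 3) (nat_lit 7) (nat_lit 11) (C.cons (nat_lit 3208) (C.miq (nat_lit 460539400) (nat_lit 3878239231905110641431085393)) (C.cons (nat_lit 2186) (C.node (nat_lit 3) (nat_lit 10) (nat_lit 11) (C.cons (nat_lit 3080) (C.node (nat_lit 1) (nat_lit 2) (nat_lit 7) (C.cons (nat_lit 198) (C.miq (nat_lit 2271293620) (nat_lit 239372514376154791132923933)) (C.cons (nat_lit 134) (C.node (nat_lit 3) (nat_lit 6) (nat_lit 11) (C.cons (nat_lit 2632) (C.miq (nat_lit 2259894385)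 (nat_lit 3181897959302399603675628691)) (C.cons (nat_lit 2376) (C.node (nat_lit 2) (nat_lit 6) (nat_lit 11) (C.cons (nat_lit 2628) (C.miq (nat_lit 1265269024) (nat_lit 3791212972209907030034809477)) (C.cons (nat_lit 2116) (C.node (nat_lit 6) (nat_lit 9) (nat_lit 11) (C.cons (nat_lit 2624) (C.node (nat_lit 3) (nat_lit 5) (nat_lit 11) (C.cons (nat_lit 2600) (C.miq (nat_lit 2491633771) (nat_lit 340965042823825981595715809)) (C.cons (nat_lit 2088) (C.node (nat_lit 3) (nat_lit 9) (nat_lit 11) (C.cons (nat_lit 2568) (C.node (nat_lit 2) (nat_lit 4) (nat_lit 7) (C.cons (nat_lit 404) (C.miq (nat_lit 605648944) (nat_lit 640742582659398107061223817)) (C.cons (nat_lit 212) (C.miq (nat_lit 2873493874) (nat_lit 2575032159151589705815163525)) (C.cons (nat_lit 148) (C.node (nat_lit 4) (nat_lit 6) (nat_lit 7) (C.cons (nat_lit 216) (C.miq (nat_lit 2821983079) (nat_lit 340938683349791331554167009)) (C.cons (nat_lit 208) (C.node (nat_lit 3) (nat_lit 4) (nat_lit 7) (C.cons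 (nat_lit 184) (C.miq (nat_lit 2876442949) (nat_lit 2642731488541174875729429041)) (C.cons (nat_lit 152) (C.node (nat_lit 3) (nat_lit 4) (nat_lit 5) (C.cons (nat_lit 120) (C.miq (nat_lit 2553547621) (nat_lit 340927430835906368721389793)) (C.cons (nat_lit 56) (C.node (nat_lit 2) (nat_lit 6) (nat_lit 7) (C.cons (nat_lit 452) (C.miq (nat_lit 410403595) (nat_lit 546473762110067019815651357)) (C.cons (nat_lit 204) (C.miq (nat_lit 2606893111) (nat_lit 2558098933535638466740355465)) (C.cons (nat_lit 196) (C.node (nat_lit 1) (nat_lit 5) (nat_lit 7) (C.cons (nat_lit 930) (C.miq (nat_lit 1192409472) (nat_lit 162034374476913735511772929)) (C.cons (nat_lit 674) (C.miq (nat_lit 831829840) (nat_lit 640768998898501751267199201)) (C.cons (nat_lit 418) (C.miq (nat_lit 1636283440) (nat_lit 505372922647737448438237213)) (C.cons (nat_lit 162) (C.node (nat_lit 1) (nat_lit 6) (nat_lit 7) (C.cons (nat_lit 962) (C.miq (nat_lit 1192409472) (nat_lit 162034374476913872950726401))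 (C.cons (nat_lit 706) (C.miq (nat_lit 605621095) (nat_lit 640742583130313680209709281)) (C.cons (nat_lit 450) (C.node (nat_lit 1) (nat_lit 7) (nat_lit 9) (C.cons (nat_lit 642) (C.node (nat_lit 1) (nat_lit 8) (nat_lit 9) (C.cons (nat_lit 802) (C.miq (nat_lit 2504753440) (nat_lit 2533979372081993031958200583)) (C.cons (nat_lit 770) (C.node (nat_lit 1) (nat_lit 8) (nat_lit 10) (C.cons (nat_lit 1314) (C.miq (nat_lit 2773188896) (nat_lit 2533979372226108220034056455))
  (C.cons (nat_lit 1282) (C.node (nat_lit 1) (nat_lit 3) (nat_lit 5) (C.cons (nat_lit 106) (C.node (nat_lit 1) (nat_lit 2) (nat_lit 3) C.nil) C.nil)) C.nil))) C.nil))) C.nil)) (C.cons (nat_lit 194) (C.miq (nat_lit 2271293620) (nat_lit 234536811097696274434099229)) C.nil))))) C.nil))))) C.nil)))) C.nil))) C.nil))) C.nil))) C.nil)))) C.nil)) C.nil))) C.nil)) C.nil))) (C.cons (nat_lit 2120) (C.miq (nat_lit 2259894385) (nat_lit 2562927939659709466226066579)) C.nil)))) C.nil))) C.nil)) (C.cons (nat_lit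 2184) (C.miq (nat_lit 460539400) (nat_lit 2640299192619730366531961169)) C.nil)))) C.nil)) (C.cons (nat_lit 26) (C.ref (nat_lit 242) (nat_lit 205163983024656)) C.nil))) (C.cons (nat_lit 22) (C.ref (nat_lit 244) (nat_lit 205163983024656)) C.nil)))) C.nil))) C.nil)) C.nil))) List.nil)

theorem ok12_245 : okL par12 (nat_lit 246) c12_245 (nat_lit 245) = true := by decide +kernel

noncomputable def c12_246 : List C :=
  (List.cons (C.node (nat_lit 2) (nat_lit 5) (nat_lit 11) (C.cons (nat_lit 2596) (C.miq (nat_lit 1375844724) (nat_lit 317986192558425925458528912)) (C.cons (nat_lit 2340) (C.node (nat_lit 3) (nat_lit 5) (nat_lit 11) (C.cons (nat_lit 2600) (C.node (nat_lit 3) (nat_lit 7) (nat_lit 11) (C.cons (nat_lit 3208) (C.node (nat_lit 2) (nat_lit 7) (nat_lit 11) (C.cons (nat_lit 2182) (C.miq (nat_lit 727281984) (nat_lit 3143219029762150806957655187)) (C.cons (nat_lit 2180) (C.node (nat_lit 2) (nat_lit 10) (nat_lit 11) (C.cons (nat_lit 3078) (C.miq (nat_lit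 2275476402) (nat_lit 1415656986373055593497102365)) (C.cons (nat_lit 3076) (C.node (nat_lit 3) (nat_lit 4) (nat_lit 7) (C.cons (nat_lit 216) (C.miq (nat_lit 1416859819) (nat_lit 261175938729264038122360577)) (C.cons (nat_lit 184) (C.node (nat_lit 4) (nat_lit 6) (nat_lit 7) (C.cons (nat_lit 212) (C.miq (nat_lit 2722301557) (nat_lit 2510958573429676356627073249)) (C.cons (nat_lit 208) (C.node (nat_lit 7) (nat_lit 9) (nat_lit 10) (C.cons (nat_lit 1728) (C.miq (nat_lit 611715994) (nat_lit 251476733355750573211651841)) (C.cons (nat_lit 1696) (C.node (nat_lit 2) (nat_lit 5) (nat_lit 7) (C.cons (nat_lit 166) (C.miq (nat_lit 891394944) (nat_lit 200691334435023982785138433)) (C.cons (nat_lit 164) (C.node (nat_lit 1) (nat_lit 5) (nat_lit 7) (C.cons (nat_lit 418) (C.miq (nat_lit 1115753303) (nat_lit 317969092280591363711568097)) (C.cons (nat_lit 162) (C.node (nat_lit 5) (nat_lit 7) (nat_lit 8) (C.cons (nat_lit 416) (C.node (nat_lit 6) (nat_lit 7) (nat_lit 10) (C.cons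 (nat_lit 1472) (C.miq (nat_lit 1466210944) (nat_lit 251466919580656102112562945)) (C.cons (nat_lit 1216) (C.node (nat_lit 1) (nat_lit 4) (nat_lit 8) (C.cons (nat_lit 786) (C.miq (nat_lit 1478078979) (nat_lit 950263656410342751266867229)) (C.cons (nat_lit 282) (C.miq (nat_lit 2270245044) (nat_lit 195851184870028140841404445)) (C.cons (nat_lit 274) (C.node (nat_lit 3) (nat_lit 4) (nat_lit 8) (C.cons (nat_lit 1304) (C.miq (nat_lit 1731464104) (nat_lit 222448568001651008668700417)) (C.cons (nat_lit 792) (C.miq (nat_lit 1697909656) (nat_lit 222448568001648397295030017)) (C.cons (nat_lit 280) (C.node (nat_lit 2) (nat_lit 3) (nat_lit 5) (C.cons (nat_lit 110) (C.miq (nat_lit 2754742102) (nat_lit 2510959089960465348414015713)) (C.cons (nat_lit 108) (C.miq (nat_lit 324143544) (nat_lit 130568840159293916368342785)) (C.cons (nat_lit 46) (C.node (nat_lit 1) (nat_lit 5) (nat_lit 9) (C.cons (nat_lit 866) (C.miq (nat_lit 1196821144) (nat_lit 2747894604866419436275502849))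 (C.cons (nat_lit 802) (C.node (nat_lit 1) (nat_lit 5) (nat_lit 6) (C.cons (nat_lit 1122) (C.miq (nat_lit 605686614) (nat_lit 1415672297644635865663801569)) (C.cons (nat_lit 98) (C.node (nat_lit 1) (nat_lit 5) (nat_lit 10) (C.cons (nat_lit 1058) (C.node (nat_lit 2) (nat_lit 9) (nat_lit 11) (C.cons (nat_lit 2630) (C.miq (nat_lit 1784225851) (nat_lit 2050386705310981660277737501)) (C.cons (nat_lit 2628) (C.miq (nat_lit 1784225851) (nat_lit 2050386668417493512858634269)) (C.cons (nat_lit 2566) (C.miq (nat_lit 2438640176) (nat_lit 1279114371818529773104728093)) (C.cons (nat_lit 2564) (C.node (nat_lit 3) (nat_lit 8) (nat_lit 11) (C.cons (nat_lit 2376) (C.miq (nat_lit 1683194011) (nat_lit 222486180367870378839117569)) (C.cons (nat_lit 2314) (C.miq (nat_lit 827635856) (nat_lit 2536364684090269643981262593)) (C.cons (nat_lit 2312) (C.node (nat_lit 1) (nat_lit 2) (nat_lit 11) (C.cons (nat_lit 2118) (C.node (nat_lit 1) (nat_lit 3) (nat_lit 11) C.nil) C.nil)) C.nil))))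 C.nil))))) C.nil)) C.nil))) (C.cons (nat_lit 610) (C.miq (nat_lit 2303789874) (nat_lit 737449602539771734646458397)) (C.cons (nat_lit 546) (C.miq (nat_lit 2303789874) (nat_lit 660078350084435467465263133)) C.nil))))) (C.cons (nat_lit 44) (C.miq (nat_lit 324143544) (nat_lit 53197587703957649187147521)) C.nil))))) C.nil)))) C.nil)))) C.nil))) C.nil)) C.nil))) C.nil))) (C.cons (nat_lit 1664) (C.miq (nat_lit 1519857844) (nat_lit 2011655958339439856612018205)) C.nil)))) C.nil))) (C.cons (nat_lit 152)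
  (C.miq (nat_lit 1416859819) (nat_lit 183804686273927770941165313)) C.nil)))) C.nil))) C.nil))) (C.cons (nat_lit 2186) (C.miq (nat_lit 1094256565) (nat_lit 632278552611492996126869729)) (C.cons (nat_lit 2184) (C.miq (nat_lit 2746680724) (nat_lit 2640315591475442448732258865)) C.nil)))) (C.cons (nat_lit 2088) (C.node (nat_lit 5) (nat_lit 9) (nat_lit 11) (C.cons (nat_lit 2592) (C.node (nat_lit 3) (nat_lit 9) (nat_lit 11) (C.cons (nat_lit 2632) (C.node (nat_lit 1) (nat_lit 7) (nat_lit 9) (C.cons (nat_lit 962) (C.miq (nat_lit 611388312) (nat_lit 1415656986847057289475657473)) (C.cons (nat_lit 930) (C.miq (nat_lit 611388312) (nat_lit 1415656986847057289473560321)) (C.cons (nat_lit 898) (C.miq (nat_lit 611388312) (nat_lit 1415656986847057289471463169)) (C.cons (nat_lit 706) (C.miq (nat_lit 1133579111) (nat_lit 632289805380396203284498657)) (C.cons (nat_lit 674) (C.miq (nat_lit 2511499584) (nat_lit 2828898316237882956753732755)) (C.cons (nat_lit 642) (C.node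 (nat_lit 1) (nat_lit 9) (nat_lit 11) (C.cons (nat_lit 2566) (C.node (nat_lit 2) (nat_lit 6) (nat_lit 11) (C.cons (nat_lit 2116) (C.node (nat_lit 3) (nat_lit 8) (nat_lit 11) (C.cons (nat_lit 2314) (C.miq (nat_lit 2174171936) (nat_lit 776137626414357015051962397)) (C.cons (nat_lit 2312) (C.node (nat_lit 1) (nat_lit 2) (nat_lit 4) (C.cons (nat_lit 86) (C.node (nat_lit 1) (nat_lit 8) (nat_lit 9) (C.cons (nat_lit 866) (C.miq (nat_lit 907196800) (nat_lit 104005935115145061924802305)) (C.cons (nat_lit 834) (C.miq (nat_lit 907196800) (nat_lit 104005935115144924485848833)) (C.cons (nat_lit 802) (C.miq (nat_lit 1754349746) (nat_lit 969560093845796501424834589)) (C.cons (nat_lit 786) (C.miq (nat_lit 1754349746) (nat_lit 950217280731962434629535773)) (C.cons (nat_lit 770) (C.miq (nat_lit 1754349746) (nat_lit 930874467618128367834236957)) C.nil)))))) (C.cons (nat_lit 22) (C.node (nat_lit 2) (nat_lit 7) (nat_lit 11) (C.cons (nat_lit 3204) (C.node (nat_lit 3) (nat_lit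 10) (nat_lit 11) (C.cons (nat_lit 3082) (C.miq (nat_lit 2443641778) (nat_lit 1415664033065882956360583197)) (C.cons (nat_lit 3080) (C.node (nat_lit 1) (nat_lit 3) (nat_lit 11) (C.cons (nat_lit 2186) (C.node (nat_lit 7) (nat_lit 8) (nat_lit 11) C.nil) C.nil)) C.nil))) (C.cons (nat_lit 2180) (C.node (nat_lit 2) (nat_lit 10) (nat_lit 11) (C.cons (nat_lit 3076) (C.node (nat_lit 6) (nat_lit 8) (nat_lit 11) (C.cons (nat_lit 2368) (C.node (nat_lit 1) (nat_lit 6) (nat_lit 11) C.nil) C.nil)) C.nil)) C.nil))) C.nil))) C.nil))) C.nil)) (C.cons (nat_lit 2562) (C.node (nat_lit 2) (nat_lit 9) (nat_lit 11) (C.cons (nat_lit 2564) (C.node (nat_lit 2) (nat_lit 6) (nat_lit 11) (C.cons (nat_lit 2118) (C.node (nat_lit 6) (nat_lit 8) (nat_lit 11) (C.cons (nat_lit 2368) (C.node (nat_lit 6) (nat_lit 10) (nat_lit 11) (C.cons (nat_lit 3136) (C.node (nat_lit 1) (nat_lit 10) (nat_lit 11) (C.cons (nat_lit 3074) (C.node (nat_lit 2) (nat_lit 7) (nat_lit 11) C.nil) C.nil)) C.nil)) C.nil))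 (C.cons (nat_lit 2116) (C.node (nat_lit 3) (nat_lit 8) (nat_lit 11) (C.cons (nat_lit 2314) (C.node (nat_lit 6) (nat_lit 8) (nat_lit 11) (C.cons (nat_lit 2368) (C.node (nat_lit 7) (nat_lit 8) (nat_lit 11) (C.cons (nat_lit 2432) (C.node (nat_lit 1) (nat_lit 6) (nat_lit 11) C.nil) C.nil)) C.nil)) (C.cons (nat_lit 2312) (C.node (nat_lit 6) (nat_lit 8) (nat_lit 11) (C.cons (nat_lit 2370) (C.node (nat_lit 6) (nat_lit 10) (nat_lit 11) (C.cons (nat_lit 3136) (C.node (nat_lit 7) (nat_lit 8) (nat_lit 11) C.nil) C.nil)) (C.cons (nat_lit 2368) (C.node (nat_lit 1) (nat_lit 6) (nat_lit 11) (C.cons (nat_lit 3138) (C.node (nat_lit 1) (nat_lit 2) (nat_lit 11) C.nil) C.nil)) C.nil))) C.nil))) C.nil))) C.nil)) C.nil))) C.nil))))))) (C.cons (nat_lit 2568) (C.node (nat_lit 7) (nat_lit 8) (nat_lit 11) (C.cons (nat_lit 2434) (C.node (nat_lit 3) (nat_lit 7) (nat_lit 11) (C.cons (nat_lit 3208) (C.miq (nat_lit 999663424) (nat_lit 3133555371126540660426998931)) (C.cons (nat_lit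 2184) (C.node (nat_lit 1) (nat_lit 4) (nat_lit 8) (C.cons (nat_lit 786)
  (C.miq (nat_lit 1900394640) (nat_lit 2536368299685885019539181313)) (C.cons (nat_lit 282) (C.miq (nat_lit 1367847984) (nat_lit 2942567374981822665391147037)) (C.cons (nat_lit 274) (C.node (nat_lit 1) (nat_lit 5) (nat_lit 7) (C.cons (nat_lit 674) (C.miq (nat_lit 2511499584) (nat_lit 2828898316237882956753732755)) (C.cons (nat_lit 174) (C.miq (nat_lit 2820737879) (nat_lit 317969092777113222613174497)) (C.cons (nat_lit 170) (C.miq (nat_lit 2870282355) (nat_lit 2536346016415086348713197961)) (C.cons (nat_lit 166) (C.miq (nat_lit 2820737879) (nat_lit 317969092777113222612650209)) (C.cons (nat_lit 162) (C.node (nat_lit 1) (nat_lit 3) (nat_lit 4) (C.cons (nat_lit 90) (C.node (nat_lit 1) (nat_lit 2) (nat_lit 4) (C.cons (nat_lit 534) (C.miq (nat_lit 2538676404) (nat_lit 195855833520466409779496989)) (C.cons (nat_lit 22) (C.node (nat_lit 1) (nat_lit 4) (nat_lit 9) (C.cons (nat_lit 530) (C.node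 (nat_lit 3) (nat_lit 4) (nat_lit 7) (C.cons (nat_lit 184) (C.miq (nat_lit 2876442949) (nat_lit 2640313636901945617380016689)) (C.cons (nat_lit 152) (C.node (nat_lit 4) (nat_lit 6) (nat_lit 7) (C.cons (nat_lit 212) (C.miq (nat_lit 2873493874) (nat_lit 2572614307512360447465751173)) (C.cons (nat_lit 208) (C.node (nat_lit 1) (nat_lit 7) (nat_lit 9) (C.cons (nat_lit 706) (C.miq (nat_lit 660867347) (nat_lit 251494884548838355308773899)) (C.cons (nat_lit 642) (C.node (nat_lit 1) (nat_lit 6) (nat_lit 7) (C.cons (nat_lit 198) (C.miq (nat_lit 2819754870) (nat_lit 317967653931075876996647137)) (C.cons (nat_lit 194) (C.node (nat_lit 1) (nat_lit 8) (nat_lit 9) (C.cons (nat_lit 866) (C.miq (nat_lit 995689089) (nat_lit 3133545372672902947842162951)) (C.cons (nat_lit 834) (C.miq (nat_lit 3105032292) (nat_lit 632306518627041120664289617)) (C.cons (nat_lit 802) (C.miq (nat_lit 995689089) (nat_lit 3133545372672902947837968647)) (C.cons (nat_lit 770) (C.node (nat_lit 1)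 (nat_lit 2) (nat_lit 7) (C.cons (nat_lit 142) (C.node (nat_lit 1) (nat_lit 3) (nat_lit 11) (C.cons (nat_lit 3082) (C.miq (nat_lit 2709107488) (nat_lit 776201231004085536698992669)) (C.cons (nat_lit 2058) (C.node (nat_lit 1) (nat_lit 3) (nat_lit 5) C.nil) C.nil))) (C.cons (nat_lit 134) (C.node (nat_lit 1) (nat_lit 3) (nat_lit 7) (C.cons (nat_lit 138) (C.node (nat_lit 1) (nat_lit 3) (nat_lit 11) C.nil) C.nil)) C.nil))) C.nil))))) C.nil))) C.nil))) C.nil))) C.nil))) C.nil)) C.nil))) (C.cons (nat_lit 26) (C.node (nat_lit 1) (nat_lit 7) (nat_lit 9) (C.cons (nat_lit 706) (C.node (nat_lit 1) (nat_lit 4) (nat_lit 9) (C.cons (nat_lit 534) (C.miq (nat_lit 1368896544) (nat_lit 853543558687744533847148573)) (C.cons (nat_lit 530) (C.node (nat_lit 1) (nat_lit 8) (nat_lit 9) (C.cons (nat_lit 802) (C.miq (nat_lit 995689089) (nat_lit 3133545372672902947837968647)) (C.cons (nat_lit 770) (C.node (nat_lit 6) (nat_lit 9) (nat_lit 11) (C.cons (nat_lit 2628) (C.miq (nat_lit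 689223280) (nat_lit 640768999022913828452239585)) (C.cons (nat_lit 2624) (C.node (nat_lit 1) (nat_lit 2) (nat_lit 4) (C.cons (nat_lit 86) (C.node (nat_lit 2) (nat_lit 6) (nat_lit 11) (C.cons (nat_lit 2116) (C.node (nat_lit 1) (nat_lit 2) (nat_lit 7) (C.cons (nat_lit 142) (C.miq (nat_lit 1635271216) (nat_lit 2942531661518967709261957149)) (C.cons (nat_lit 134) (C.node (nat_lit 1) (nat_lit 3) (nat_lit 7) C.nil) C.nil))) C.nil)) (C.cons (nat_lit 22) (C.node (nat_lit 1) (nat_lit 4) (nat_lit 6) (C.cons (nat_lit 82) (C.node (nat_lit 1) (nat_lit 9) (nat_lit 11) (C.cons (nat_lit 2566) (C.node (nat_lit 2) (nat_lit 6) (nat_lit 11) C.nil) C.nil)) C.nil)) C.nil))) C.nil))) C.nil))) C.nil))) (C.cons (nat_lit 642) (C.node (nat_lit 2) (nat_lit 7) (nat_lit 11) (C.cons (nat_lit 3204) (C.node (nat_lit 1) (nat_lit 2) (nat_lit 7) (C.cons (nat_lit 206) (C.miq (nat_lit 2819754870) (nat_lit 317967653931075876997171425)) (C.cons (nat_lit 198) (C.miq (nat_lit 2819754870) (nat_lit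 317967653931075876996647137)) (C.cons (nat_lit 142) (C.miq (nat_lit 2803479088) (nat_lit 776201231038425483849697309)) (C.cons (nat_lit 134) (C.node (nat_lit 2) (nat_lit 4) (nat_lit 10)
  (C.cons (nat_lit 1556) (C.miq (nat_lit 2511487098) (nat_lit 2828915121189928185480086675)) (C.cons (nat_lit 1300) (C.miq (nat_lit 1797785508) (nat_lit 2828892635090791492155081875)) (C.cons (nat_lit 1076) (C.miq (nat_lit 2192028993) (nat_lit 3873443226079003351771711538)) (C.cons (nat_lit 1044) (C.node (nat_lit 5) (nat_lit 7) (nat_lit 10) (C.cons (nat_lit 1696) (C.miq (nat_lit 2485801143) (nat_lit 1262149841513538252584519905)) (C.cons (nat_lit 1440) (C.miq (nat_lit 2319603467) (nat_lit 1262161721464134334750197985)) (C.cons (nat_lit 1184) (C.node (nat_lit 7) (nat_lit 8) (nat_lit 10) (C.cons (nat_lit 1472) (C.miq (nat_lit 2217369783) (nat_lit 1262145709379815346861770977)) (C.cons (nat_lit 1408) (C.node (nat_lit 1) (nat_lit 3) (nat_lit 7) (C.cons (nat_lit 202) (C.node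 (nat_lit 1) (nat_lit 3) (nat_lit 11) (C.cons (nat_lit 3082) (C.miq (nat_lit 2443641778) (nat_lit 1415664033065882956360583197)) (C.cons (nat_lit 2058) (C.node (nat_lit 1) (nat_lit 10) (nat_lit 11) (C.cons (nat_lit 3138) (C.miq (nat_lit 2687940721) (nat_lit 88309471795918303807539586)) (C.cons (nat_lit 3074) (C.node (nat_lit 1) (nat_lit 2) (nat_lit 3) C.nil) C.nil))) C.nil))) (C.cons (nat_lit 138) (C.node (nat_lit 1) (nat_lit 6) (nat_lit 7) (C.cons (nat_lit 194) (C.node (nat_lit 2) (nat_lit 8) (nat_lit 10) (C.cons (nat_lit 1292) (C.node (nat_lit 2) (nat_lit 3) (nat_lit 7) (C.cons (nat_lit 204) (C.miq (nat_lit 3123054647) (nat_lit 1321397851369220164421419401)) (C.cons (nat_lit 172) (C.miq (nat_lit 2723906416) (nat_lit 2828957272205885795993715081)) (C.cons (nat_lit 140) (C.node (nat_lit 2) (nat_lit 5) (nat_lit 7) (C.cons (nat_lit 180) (C.miq (nat_lit 2586053493) (nat_lit 1262128905382257356084349153)) (C.cons (nat_lit 164) (C.node (nat_lit 2) (nat_lit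 6) (nat_lit 7) (C.cons (nat_lit 452) (C.miq (nat_lit 1445595011) (nat_lit 1321375567261022752099533193)) (C.cons (nat_lit 212) (C.miq (nat_lit 2317618038) (nat_lit 1262124773311584845146884321)) (C.cons (nat_lit 196) (C.node (nat_lit 2) (nat_lit 4) (nat_lit 7) (C.cons (nat_lit 148) (C.node (nat_lit 2) (nat_lit 7) (nat_lit 8) C.nil) C.nil)) C.nil)))) C.nil))) C.nil)))) (C.cons (nat_lit 1284) (C.node (nat_lit 3) (nat_lit 8) (nat_lit 11) (C.cons (nat_lit 2376) (C.node (nat_lit 1) (nat_lit 3) (nat_lit 11) (C.cons (nat_lit 2058) (C.node (nat_lit 3) (nat_lit 10) (nat_lit 11) C.nil) C.nil)) (C.cons (nat_lit 2312) (C.node (nat_lit 6) (nat_lit 8) (nat_lit 11) (C.cons (nat_lit 2368) (C.node (nat_lit 1) (nat_lit 2) (nat_lit 11) (C.cons (nat_lit 2054) (C.node (nat_lit 1) (nat_lit 9) (nat_lit 11) C.nil) C.nil)) C.nil)) C.nil))) C.nil))) C.nil)) C.nil))) C.nil))) C.nil)))) C.nil))))) C.nil))))) (C.cons (nat_lit 2180) (C.node (nat_lit 7) (nat_lit 10) (nat_lit 11) (C.cons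 (nat_lit 3200) (C.node (nat_lit 2) (nat_lit 10) (nat_lit 11) (C.cons (nat_lit 3078) (C.node (nat_lit 1) (nat_lit 3) (nat_lit 11) (C.cons (nat_lit 2058) (C.node (nat_lit 1) (nat_lit 6) (nat_lit 11) C.nil) C.nil)) (C.cons (nat_lit 3076) (C.node (nat_lit 3) (nat_lit 8) (nat_lit 11) (C.cons (nat_lit 2376) (C.node (nat_lit 1) (nat_lit 3) (nat_lit 11) C.nil) C.nil)) C.nil))) C.nil)) C.nil))) C.nil))) C.nil))) C.nil)))))) C.nil)))) C.nil))) (C.cons (nat_lit 2432) (C.node (nat_lit 1) (nat_lit 7) (nat_lit 11) (C.cons (nat_lit 2186) (C.node (nat_lit 3) (nat_lit 8) (nat_lit 11) (C.cons (nat_lit 2376) (C.miq (nat_lit 1796506480) (nat_lit 2536332586773038782192222601)) (C.cons (nat_lit 2312) (C.node (nat_lit 1) (nat_lit 5) (nat_lit 7) (C.cons (nat_lit 930) (C.miq (nat_lit 611388312) (nat_lit 1415656986847057289473560321)) (C.cons (nat_lit 674) (C.miq (nat_lit 1125714805) (nat_lit 632278552866509324900501729)) (C.cons (nat_lit 418) (C.miq (nat_lit 1115753303) (nat_lit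 317969092280591363711568097)) (C.cons (nat_lit 166) (C.miq (nat_lit 2820737879) (nat_lit 317969092777113222612650209)) (C.cons (nat_lit 162) (C.node (nat_lit 1) (nat_lit 7) (nat_lit 8) (C.cons (nat_lit 962) (C.miq (nat_lit 611388312) (nat_lit 1415656986847057289475657473)) (C.cons (nat_lit 898)
  (C.miq (nat_lit 611388312) (nat_lit 1415656986847057289471463169)) (C.cons (nat_lit 450) (C.miq (nat_lit 1639221040) (nat_lit 2536332586230917977106874761)) (C.cons (nat_lit 386) (C.node (nat_lit 1) (nat_lit 2) (nat_lit 7) (C.cons (nat_lit 198) (C.node (nat_lit 1) (nat_lit 7) (nat_lit 9) (C.cons (nat_lit 642) (C.node (nat_lit 1) (nat_lit 2) (nat_lit 4) (C.cons (nat_lit 534) (C.miq (nat_lit 1368896544) (nat_lit 776172306232408266665953309)) (C.cons (nat_lit 22) (C.node (nat_lit 1) (nat_lit 8) (nat_lit 11) (C.cons (nat_lit 2370) (C.miq (nat_lit 2551319399) (nat_lit 317959389789730580239616225)) (C.cons (nat_lit 2306) (C.node (nat_lit 6) (nat_lit 8) (nat_lit 11)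 (C.cons (nat_lit 2368) (C.node (nat_lit 2) (nat_lit 6) (nat_lit 11) (C.cons (nat_lit 2628) (C.miq (nat_lit 2763392914) (nat_lit 2572614306760822259806634629)) C.nil)) C.nil)) C.nil))) C.nil))) C.nil)) (C.cons (nat_lit 134) (C.node (nat_lit 1) (nat_lit 6) (nat_lit 7) (C.cons (nat_lit 706) (C.node (nat_lit 6) (nat_lit 9) (nat_lit 11) (C.cons (nat_lit 2628) (C.miq (nat_lit 2811626674) (nat_lit 853521791268819573374453789)) (C.cons (nat_lit 2624) (C.node (nat_lit 1) (nat_lit 8) (nat_lit 11) (C.cons (nat_lit 2370) (C.node (nat_lit 2) (nat_lit 6) (nat_lit 11) (C.cons (nat_lit 2116) (C.node (nat_lit 1) (nat_lit 9) (nat_lit 11) C.nil) C.nil)) (C.cons (nat_lit 2306) (C.node (nat_lit 6) (nat_lit 8) (nat_lit 11) C.nil) C.nil))) C.nil))) (C.cons (nat_lit 194) (C.node (nat_lit 1) (nat_lit 7) (nat_lit 9) (C.cons (nat_lit 642) (C.node (nat_lit 1) (nat_lit 8) (nat_lit 11) (C.cons (nat_lit 2370) (C.node (nat_lit 2) (nat_lit 6) (nat_lit 11) (C.cons (nat_lit 2628) (C.miq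 (nat_lit 2763392914) (nat_lit 2572614306760822259806634629)) (C.cons (nat_lit 2116) (C.node (nat_lit 6) (nat_lit 9) (nat_lit 11) (C.cons (nat_lit 2624) (C.node (nat_lit 1) (nat_lit 9) (nat_lit 11) C.nil) C.nil)) C.nil))) (C.cons (nat_lit 2306) (C.node (nat_lit 6) (nat_lit 8) (nat_lit 11) (C.cons (nat_lit 2368) (C.node (nat_lit 2) (nat_lit 7) (nat_lit 11) (C.cons (nat_lit 3204) (C.node (nat_lit 1) (nat_lit 10) (nat_lit 11) C.nil) C.nil)) C.nil)) C.nil))) C.nil)) C.nil))) C.nil))) C.nil))))) C.nil)))))) C.nil))) (C.cons (nat_lit 2182) (C.miq (nat_lit 727281984) (nat_lit 3133547623205233773560005779)) (C.cons (nat_lit 2178) (C.node (nat_lit 3) (nat_lit 7) (nat_lit 11) (C.cons (nat_lit 3208) (C.miq (nat_lit 999663424) (nat_lit 3133555371126540660426998931)) (C.cons (nat_lit 2184) (C.node (nat_lit 2) (nat_lit 7) (nat_lit 11) (C.cons (nat_lit 3204) (C.node (nat_lit 2) (nat_lit 8) (nat_lit 10) (C.cons (nat_lit 1300) (C.miq (nat_lit 1797785508) (nat_lit 2828892635090791492155081875))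 (C.cons (nat_lit 1292) (C.node (nat_lit 5) (nat_lit 7) (nat_lit 10) (C.cons (nat_lit 1696) (C.miq (nat_lit 1504945984) (nat_lit 3104541151030199395546891411)) (C.cons (nat_lit 1440) (C.miq (nat_lit 1116343127) (nat_lit 1561953760664044784551200993)) (C.cons (nat_lit 1184) (C.node (nat_lit 7) (nat_lit 8) (nat_lit 10) (C.cons (nat_lit 1472) (C.miq (nat_lit 1118309238) (nat_lit 1561938376079491021638994145)) (C.cons (nat_lit 1408) (C.node (nat_lit 2) (nat_lit 5) (nat_lit 7) (C.cons (nat_lit 180) (C.miq (nat_lit 1250062517) (nat_lit 1561935479685657856290588897)) (C.cons (nat_lit 174) (C.miq (nat_lit 2820737879) (nat_lit 317969092777113222613174497)) (C.cons (nat_lit 172) (C.miq (nat_lit 2723906416) (nat_lit 2828957272205885795993715081)) (C.cons (nat_lit 166) (C.miq (nat_lit 2820737879) (nat_lit 317969092777113222612650209)) (C.cons (nat_lit 164) (C.node (nat_lit 2) (nat_lit 3) (nat_lit 7) (C.cons (nat_lit 206) (C.miq (nat_lit 2591099683) (nat_lit 1415661783497040460310775837))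 (C.cons (nat_lit 204) (C.miq (nat_lit 3123054647) (nat_lit 1321397851369220164421419401)) (C.cons (nat_lit 142) (C.miq (nat_lit 2591099683) (nat_lit 1415661783497040460306581533)) (C.cons (nat_lit 140) (C.node (nat_lit 1) (nat_lit 2) (nat_lit 7) (C.cons (nat_lit 198) (C.node (nat_lit 1) (nat_lit 2) (nat_lit 3) (C.cons (nat_lit 46)
  (C.miq (nat_lit 2605910049) (nat_lit 2524246760083651702654107911)) (C.cons (nat_lit 14) (C.node (nat_lit 1) (nat_lit 2) (nat_lit 4) (C.cons (nat_lit 534) (C.miq (nat_lit 1698787474) (nat_lit 2536330022646613634599748229)) (C.cons (nat_lit 22) (C.node (nat_lit 1) (nat_lit 3) (nat_lit 7) (C.cons (nat_lit 170) (C.miq (nat_lit 2719155829) (nat_lit 16944607564696309077772513)) (C.cons (nat_lit 138) (C.node (nat_lit 2) (nat_lit 6) (nat_lit 11) (C.cons (nat_lit 2628) (C.miq (nat_lit 2763392914) (nat_lit 2572614306760822259806634629)) (C.cons (nat_lit 2116) (C.node (nat_lit 1) (nat_lit 10) (nat_lit 11) (C.cons (nat_lit 3138) (C.miq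 (nat_lit 2606893591) (nat_lit 2558098933535641739505042579)) (C.cons (nat_lit 3082) (C.miq (nat_lit 2443641778) (nat_lit 1415664033065882956360583197)) C.nil))) C.nil))) C.nil))) C.nil))) C.nil))) (C.cons (nat_lit 134) (C.node (nat_lit 2) (nat_lit 6) (nat_lit 7) (C.cons (nat_lit 452) (C.miq (nat_lit 1445595011) (nat_lit 1321375567261022752099533193)) (C.cons (nat_lit 212) (C.miq (nat_lit 1218601143) (nat_lit 1561936069746718084476176609)) (C.cons (nat_lit 196) (C.node (nat_lit 2) (nat_lit 4) (nat_lit 7) (C.cons (nat_lit 404) (C.node (nat_lit 4) (nat_lit 5) (nat_lit 7) (C.cons (nat_lit 184) (C.miq (nat_lit 2539303984) (nat_lit 1431439025128817188609263645)) (C.cons (nat_lit 176) (C.node (nat_lit 3) (nat_lit 4) (nat_lit 7) C.nil) C.nil))) (C.cons (nat_lit 148) (C.node (nat_lit 2) (nat_lit 7) (nat_lit 8) (C.cons (nat_lit 388) (C.node (nat_lit 4) (nat_lit 6) (nat_lit 7) C.nil) C.nil)) C.nil))) C.nil)))) C.nil))) C.nil))))) C.nil)))))) C.nil))) C.nil)))) (C.cons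 (nat_lit 1284) (C.node (nat_lit 5) (nat_lit 7) (nat_lit 10) (C.cons (nat_lit 1696) (C.miq (nat_lit 1504945984) (nat_lit 3104541151030199395546891411)) (C.cons (nat_lit 1440) (C.miq (nat_lit 1116343127) (nat_lit 1552282354107127751153551585)) (C.cons (nat_lit 1184) (C.node (nat_lit 7) (nat_lit 8) (nat_lit 10) (C.cons (nat_lit 1472) (C.miq (nat_lit 1118309238) (nat_lit 1552266969522573988241344737)) (C.cons (nat_lit 1408) (C.node (nat_lit 2) (nat_lit 4) (nat_lit 10) (C.cons (nat_lit 1556) (C.miq (nat_lit 2507817138) (nat_lit 1431396873715416859519748125)) (C.cons (nat_lit 1076) (C.node (nat_lit 2) (nat_lit 4) (nat_lit 7) (C.cons (nat_lit 404) (C.miq (nat_lit 891816519) (nat_lit 2828893667768428708274373779)) (C.cons (nat_lit 212) (C.miq (nat_lit 2317618038) (nat_lit 1300810399539252978737481953)) (C.cons (nat_lit 148) (C.node (nat_lit 2) (nat_lit 4) (nat_lit 8) (C.cons (nat_lit 788) (C.node (nat_lit 2) (nat_lit 7) (nat_lit 8) (C.cons (nat_lit 452) (C.miq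 (nat_lit 1418070311) (nat_lit 407449930817320420085334661)) (C.cons (nat_lit 388) (C.node (nat_lit 7) (nat_lit 8) (nat_lit 9) (C.cons (nat_lit 962) (C.miq (nat_lit 611388312) (nat_lit 1415656986847057289475657473)) (C.cons (nat_lit 960) (C.miq (nat_lit 1749776672) (nat_lit 2804749831225438589341729413)) (C.cons (nat_lit 930) (C.miq (nat_lit 611388312) (nat_lit 1415656986847057289473560321)) (C.cons (nat_lit 928) (C.miq (nat_lit 1481341216) (nat_lit 2804749831216431390086988421)) (C.cons (nat_lit 898) (C.miq (nat_lit 611388312) (nat_lit 1415656986847057289471463169)) (C.cons (nat_lit 896) (C.node (nat_lit 1) (nat_lit 2) (nat_lit 4) (C.cons (nat_lit 86) (C.node (nat_lit 1) (nat_lit 4) (nat_lit 9) (C.cons (nat_lit 530) (C.node (nat_lit 1) (nat_lit 2) (nat_lit 11) (C.cons (nat_lit 2566) (C.miq (nat_lit 2959185986) (nat_lit 81045365340620126370005780)) (C.cons (nat_lit 2054) (C.node (nat_lit 2) (nat_lit 6) (nat_lit 11) (C.cons (nat_lit 2628) (C.miq (nat_lit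 2761033654) (nat_lit 952653708477219165700360417)) C.nil)) C.nil))) C.nil)) (C.cons (nat_lit 22) (C.node (nat_lit 2) (nat_lit 4) (nat_lit 6) (C.cons (nat_lit 84) (C.node (nat_lit 1) (nat_lit 4) (nat_lit 8) (C.cons (nat_lit 282) (C.node (nat_lit 1) (nat_lit 7) (nat_lit 8) (C.cons (nat_lit 450) (C.miq (nat_lit 1367847984) (nat_lit 544058548866398382774093853)) (C.cons (nat_lit 418) (C.miq (nat_lit 672445808) (nat_lit 340955395677419762881857761))
  (C.cons (nat_lit 386) (C.miq (nat_lit 1367847984) (nat_lit 466687296411062115592898589)) C.nil)))) (C.cons (nat_lit 274) (C.node (nat_lit 1) (nat_lit 3) (nat_lit 4) (C.cons (nat_lit 90) (C.node (nat_lit 1) (nat_lit 4) (nat_lit 9) (C.cons (nat_lit 530) (C.node (nat_lit 4) (nat_lit 5) (nat_lit 6) (C.cons (nat_lit 112) (C.node (nat_lit 4) (nat_lit 6) (nat_lit 7) C.nil) C.nil)) C.nil)) (C.cons (nat_lit 26) (C.node (nat_lit 1) (nat_lit 4) (nat_lit 6) (C.cons (nat_lit 594) (C.node (nat_lit 1) (nat_lit 7) (nat_lit 9)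 (C.cons (nat_lit 674) (C.miq (nat_lit 605621079) (nat_lit 718113835585649809949853921)) (C.cons (nat_lit 642) (C.node (nat_lit 1) (nat_lit 8) (nat_lit 9) (C.cons (nat_lit 802) (C.miq (nat_lit 995689089) (nat_lit 3133545372672902947837968647)) (C.cons (nat_lit 770) (C.node (nat_lit 6) (nat_lit 8) (nat_lit 9) (C.cons (nat_lit 872) (C.miq (nat_lit 1747671360) (nat_lit 2828928347592961374885315121)) (C.cons (nat_lit 864) (C.miq (nat_lit 1747671360) (nat_lit 2828928347590709575071629873)) (C.cons (nat_lit 840) (C.miq (nat_lit 957843008) (nat_lit 776137625999454429739417937)) C.nil)))) C.nil))) C.nil))) (C.cons (nat_lit 82) (C.node (nat_lit 1) (nat_lit 4) (nat_lit 9) C.nil) C.nil))) C.nil))) C.nil))) C.nil)) C.nil))) C.nil))))))) C.nil))) (C.cons (nat_lit 276) (C.node (nat_lit 2) (nat_lit 7) (nat_lit 8) (C.cons (nat_lit 452) (C.node (nat_lit 1) (nat_lit 2) (nat_lit 7) (C.cons (nat_lit 174) (C.miq (nat_lit 2820737879) (nat_lit 317969092777113222613174497)) (C.cons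 (nat_lit 166) (C.miq (nat_lit 2820737879) (nat_lit 317969092777113222612650209)) (C.cons (nat_lit 142) (C.miq (nat_lit 2591099683) (nat_lit 1415661783497040460306581533)) (C.cons (nat_lit 134) (C.node (nat_lit 1) (nat_lit 7) (nat_lit 8) (C.cons (nat_lit 930) (C.miq (nat_lit 1192409472) (nat_lit 162034374476913735511772929)) (C.cons (nat_lit 898) (C.miq (nat_lit 1192409472) (nat_lit 162034374476913598072819457)) (C.cons (nat_lit 418) (C.miq (nat_lit 1115753303) (nat_lit 317969092280591363711568097)) (C.cons (nat_lit 386) (C.node (nat_lit 2) (nat_lit 3) (nat_lit 7) (C.cons (nat_lit 172) (C.node (nat_lit 1) (nat_lit 5) (nat_lit 7) (C.cons (nat_lit 674) (C.miq (nat_lit 2511499584) (nat_lit 2828898316237882956753732755)) (C.cons (nat_lit 162) (C.node (nat_lit 5) (nat_lit 7) (nat_lit 9) (C.cons (nat_lit 928) (C.miq (nat_lit 2235275040) (nat_lit 2524307965560542352432235141)) C.nil)) C.nil))) (C.cons (nat_lit 140) (C.node (nat_lit 2) (nat_lit 5) (nat_lit 7)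 (C.cons (nat_lit 164) (C.node (nat_lit 4) (nat_lit 6) (nat_lit 7) C.nil) C.nil)) C.nil))) C.nil))))) C.nil))))) (C.cons (nat_lit 388) (C.node (nat_lit 4) (nat_lit 5) (nat_lit 6) (C.cons (nat_lit 120) (C.node (nat_lit 3) (nat_lit 4) (nat_lit 7) (C.cons (nat_lit 152) (C.node (nat_lit 4) (nat_lit 6) (nat_lit 7) (C.cons (nat_lit 208) (C.node (nat_lit 4) (nat_lit 8) (nat_lit 10) (C.cons (nat_lit 1304) (C.miq (nat_lit 2221646672) (nat_lit 2572664998450961887338234921)) (C.cons (nat_lit 1296) (C.node (nat_lit 3) (nat_lit 4) (nat_lit 10) (C.cons (nat_lit 1560) (C.miq (nat_lit 1949677984) (nat_lit 145113028564150080019959553)) (C.cons (nat_lit 1048) (C.node (nat_lit 3) (nat_lit 4) (nat_lit 9) (C.cons (nat_lit 792) (C.miq (nat_lit 2472248416) (nat_lit 2524307965522261532274131281)) C.nil)) C.nil))) C.nil))) C.nil)) C.nil)) (C.cons (nat_lit 112) (C.node (nat_lit 4) (nat_lit 6) (nat_lit 7) (C.cons (nat_lit 216) (C.node (nat_lit 4) (nat_lit 8) (nat_lit 10) (C.cons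 (nat_lit 1304) (C.miq (nat_lit 2758509424) (nat_lit 2572664998450962299655094665)) (C.cons (nat_lit 1296) (C.node (nat_lit 3) (nat_lit 4) (nat_lit 10) (C.cons (nat_lit 1560) (C.miq (nat_lit 1464011674) (nat_lit 261147623459002638166134529)) (C.cons (nat_lit 1048) (C.node (nat_lit 3) (nat_lit 4) (nat_lit 9) (C.cons (nat_lit 792) (C.miq (nat_lit 2490073968) (nat_lit 2572664998306847111579238793)) (C.cons (nat_lit 536) (C.node (nat_lit 1) (nat_lit 3) (nat_lit 4) (C.cons (nat_lit 282) (C.node (nat_lit 3) (nat_lit 4) (nat_lit 5) C.nil) C.nil)) C.nil))) C.nil))) C.nil)))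
  (C.cons (nat_lit 208) (C.node (nat_lit 3) (nat_lit 4) (nat_lit 7) (C.cons (nat_lit 184) (C.miq (nat_lit 2539303984) (nat_lit 1431439025128817188609263645)) (C.cons (nat_lit 152) (C.node (nat_lit 3) (nat_lit 4) (nat_lit 5) (C.cons (nat_lit 312) (C.node (nat_lit 4) (nat_lit 5) (nat_lit 7) (C.cons (nat_lit 176) (C.node (nat_lit 4) (nat_lit 7) (nat_lit 8) C.nil) C.nil)) (C.cons (nat_lit 56) (C.node (nat_lit 4) (nat_lit 5) (nat_lit 7) (C.cons (nat_lit 432) (C.node (nat_lit 4) (nat_lit 8) (nat_lit 10) (C.cons (nat_lit 1304) (C.node (nat_lit 5) (nat_lit 7) (nat_lit 9) C.nil) C.nil)) C.nil)) C.nil))) C.nil))) C.nil))) C.nil))) C.nil))) C.nil))) C.nil)))) (C.cons (nat_lit 1044) (C.node (nat_lit 2) (nat_lit 4) (nat_lit 5) (C.cons (nat_lit 180) (C.miq (nat_lit 2586053493) (nat_lit 1262128905382257356084349153)) (C.cons (nat_lit 116) (C.node (nat_lit 1) (nat_lit 2) (nat_lit 4) (C.cons (nat_lit 534) (C.miq (nat_lit 565679184) (nat_lit 2633052333420906533724684849))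 (C.cons (nat_lit 22) (C.node (nat_lit 2) (nat_lit 4) (nat_lit 9) (C.cons (nat_lit 788) (C.miq (nat_lit 1803702420) (nat_lit 2828888558360353938204787249)) (C.cons (nat_lit 532) (C.node (nat_lit 2) (nat_lit 5) (nat_lit 7) (C.cons (nat_lit 174) (C.miq (nat_lit 2200176470) (nat_lit 2510945144002958049162823905)) (C.cons (nat_lit 172) (C.miq (nat_lit 2200176470) (nat_lit 2510945144002958040572889313)) (C.cons (nat_lit 166) (C.miq (nat_lit 2820737879) (nat_lit 317969092777113222612650209)) (C.cons (nat_lit 164) (C.node (nat_lit 5) (nat_lit 6) (nat_lit 10) (C.cons (nat_lit 1634) (C.miq (nat_lit 605686614) (nat_lit 1415672297644635865697356001)) (C.cons (nat_lit 1632) (C.miq (nat_lit 2504762912) (nat_lit 2536397223954846787265430597)) (C.cons (nat_lit 1378) (C.miq (nat_lit 622114976) (nat_lit 2536364684097590467316879105)) (C.cons (nat_lit 1376) (C.miq (nat_lit 2236327456) (nat_lit 2536397223882789193227502661)) (C.cons (nat_lit 1122) (C.miq (nat_lit 605686614)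 (nat_lit 1415672297644635865663801569)) (C.cons (nat_lit 1120) (C.node (nat_lit 2) (nat_lit 4) (nat_lit 7) (C.cons (nat_lit 404) (C.node (nat_lit 4) (nat_lit 5) (nat_lit 7) (C.cons (nat_lit 184) (C.miq (nat_lit 2539303984) (nat_lit 1431439025128817188609263645)) (C.cons (nat_lit 176) (C.node (nat_lit 3) (nat_lit 4) (nat_lit 5) C.nil) C.nil))) (C.cons (nat_lit 148) (C.node (nat_lit 2) (nat_lit 4) (nat_lit 8) (C.cons (nat_lit 276) (C.node (nat_lit 2) (nat_lit 7) (nat_lit 8) (C.cons (nat_lit 452) (C.node (nat_lit 1) (nat_lit 2) (nat_lit 7) (C.cons (nat_lit 142) (C.miq (nat_lit 2591099683) (nat_lit 1415661783497040460306581533)) (C.cons (nat_lit 134) (C.node (nat_lit 2) (nat_lit 3) (nat_lit 7) C.nil) C.nil))) (C.cons (nat_lit 388) (C.node (nat_lit 2) (nat_lit 3) (nat_lit 5) (C.cons (nat_lit 556) (C.node (nat_lit 1) (nat_lit 2) (nat_lit 5) C.nil) (C.cons (nat_lit 46) (C.miq (nat_lit 2605910049) (nat_lit 2524246760083651702654107911)) C.nil))) C.nil))) C.nil))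 C.nil))) C.nil))))))) C.nil))))) C.nil))) C.nil))) (C.cons (nat_lit 52) (C.node (nat_lit 2) (nat_lit 4) (nat_lit 7) (C.cons (nat_lit 404) (C.node (nat_lit 4) (nat_lit 5) (nat_lit 7) (C.cons (nat_lit 184) (C.miq (nat_lit 2539303984) (nat_lit 1431439025128817188609263645)) (C.cons (nat_lit 176) (C.node (nat_lit 3) (nat_lit 4) (nat_lit 7) (C.cons (nat_lit 216) (C.node (nat_lit 1) (nat_lit 3) (nat_lit 4) (C.cons (nat_lit 282) (C.miq (nat_lit 2537751169) (nat_lit 261137624865463546995671303)) (C.cons (nat_lit 26) (C.node (nat_lit 6) (nat_lit 7) (nat_lit 10) (C.cons (nat_lit 1728) (C.miq (nat_lit 611715994) (nat_lit 261148139912667606609301249)) (C.cons (nat_lit 1216) (C.node (nat_lit 3) (nat_lit 4) (nat_lit 9) (C.cons (nat_lit 1560) (C.miq (nat_lit 1464011674) (nat_lit 261147623459002638166134529)) (C.cons (nat_lit 792) (C.miq (nat_lit 2490073968) (nat_lit 2572664998306847111579238793)) (C.cons (nat_lit 536) (C.node (nat_lit 3) (nat_lit 4) (nat_lit 10) (C.cons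 (nat_lit 1304) (C.miq (nat_lit 2758509424) (nat_lit 2572664998450962299655094665)) (C.cons (nat_lit 1048)
  (C.node (nat_lit 1) (nat_lit 2) (nat_lit 4) (C.cons (nat_lit 598) (C.miq (nat_lit 2199154834) (nat_lit 31439523905208049355588229)) (C.cons (nat_lit 534) (C.miq (nat_lit 2199154834) (nat_lit 31439523905208049351393925)) (C.cons (nat_lit 86) (C.miq (nat_lit 271984756) (nat_lit 88253171325887875586195860)) C.nil)))) C.nil))) C.nil)))) C.nil))) C.nil))) (C.cons (nat_lit 152) (C.node (nat_lit 4) (nat_lit 6) (nat_lit 7) (C.cons (nat_lit 208) (C.node (nat_lit 1) (nat_lit 3) (nat_lit 4) (C.cons (nat_lit 282) (C.miq (nat_lit 2537751169) (nat_lit 183766372410127279814476039)) (C.cons (nat_lit 90) (C.node (nat_lit 1) (nat_lit 2) (nat_lit 4) (C.cons (nat_lit 534) (C.miq (nat_lit 2199154834) (nat_lit 108810776360544316532589189)) (C.cons (nat_lit 22) (C.node (nat_lit 1) (nat_lit 4) (nat_lit 8) (C.cons (nat_lit 786) (C.node (nat_lit 3) (nat_lit 4) (nat_lit 9)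 (C.cons (nat_lit 1560) (C.miq (nat_lit 1464011674) (nat_lit 183776371003666370984939265)) C.nil)) C.nil)) C.nil))) (C.cons (nat_lit 26) (C.node (nat_lit 1) (nat_lit 4) (nat_lit 8) (C.cons (nat_lit 786) (C.node (nat_lit 1) (nat_lit 2) (nat_lit 4) (C.cons (nat_lit 86) (C.node (nat_lit 2) (nat_lit 4) (nat_lit 9) C.nil) C.nil)) (C.cons (nat_lit 274) (C.node (nat_lit 4) (nat_lit 8) (nat_lit 9) C.nil) C.nil))) C.nil)))) C.nil)) C.nil))) C.nil))) (C.cons (nat_lit 212) (C.miq (nat_lit 2317618038) (nat_lit 1262124773311584845146884321)) (C.cons (nat_lit 148) (C.node (nat_lit 2) (nat_lit 4) (nat_lit 8) (C.cons (nat_lit 788) (C.node (nat_lit 2) (nat_lit 7) (nat_lit 8) (C.cons (nat_lit 452) (C.miq (nat_lit 1418070311) (nat_lit 407449930817320420085334661)) (C.cons (nat_lit 388) (C.node (nat_lit 7) (nat_lit 8) (nat_lit 9) (C.cons (nat_lit 962) (C.miq (nat_lit 611388312) (nat_lit 1415656986847057289475657473)) (C.cons (nat_lit 960) (C.miq (nat_lit 1749776672) (nat_lit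 2804749831225438589341729413)) (C.cons (nat_lit 930) (C.miq (nat_lit 611388312) (nat_lit 1415656986847057289473560321)) (C.cons (nat_lit 928) (C.miq (nat_lit 1481341216) (nat_lit 2804749831216431390086988421)) (C.cons (nat_lit 898) (C.miq (nat_lit 611388312) (nat_lit 1415656986847057289471463169)) (C.cons (nat_lit 896) (C.node (nat_lit 1) (nat_lit 2) (nat_lit 4) (C.cons (nat_lit 86) (C.node (nat_lit 1) (nat_lit 4) (nat_lit 9) (C.cons (nat_lit 530) (C.node (nat_lit 1) (nat_lit 2) (nat_lit 11) (C.cons (nat_lit 2566) (C.miq (nat_lit 2959185986) (nat_lit 81045365340620126370005780)) (C.cons (nat_lit 2054) (C.node (nat_lit 2) (nat_lit 6) (nat_lit 11) (C.cons (nat_lit 2628) (C.miq (nat_lit 2761033654) (nat_lit 952653708477219165700360417)) C.nil)) C.nil))) C.nil)) (C.cons (nat_lit 22) (C.node (nat_lit 2) (nat_lit 4) (nat_lit 6) (C.cons (nat_lit 84) (C.node (nat_lit 1) (nat_lit 4) (nat_lit 8) (C.cons (nat_lit 282) (C.node (nat_lit 1) (nat_lit 7) (nat_lit 8)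 (C.cons (nat_lit 450) (C.miq (nat_lit 1367847984) (nat_lit 544058548866398382774093853)) (C.cons (nat_lit 418) (C.miq (nat_lit 672445808) (nat_lit 340955395677419762881857761)) (C.cons (nat_lit 386) (C.miq (nat_lit 1367847984) (nat_lit 466687296411062115592898589)) C.nil)))) (C.cons (nat_lit 274) (C.node (nat_lit 1) (nat_lit 3) (nat_lit 4) (C.cons (nat_lit 90) (C.node (nat_lit 1) (nat_lit 4) (nat_lit 9) C.nil) (C.cons (nat_lit 26) (C.node (nat_lit 1) (nat_lit 4) (nat_lit 6) C.nil) C.nil))) C.nil))) C.nil)) C.nil))) C.nil))))))) C.nil))) (C.cons (nat_lit 276) (C.node (nat_lit 2) (nat_lit 7) (nat_lit 8) (C.cons (nat_lit 452) (C.node (nat_lit 1) (nat_lit 2) (nat_lit 7) (C.cons (nat_lit 174) (C.miq (nat_lit 2820737879) (nat_lit 317969092777113222613174497)) (C.cons (nat_lit 166) (C.miq (nat_lit 2820737879) (nat_lit 317969092777113222612650209)) (C.cons (nat_lit 142) (C.miq (nat_lit 2591099683) (nat_lit 1415661783497040460306581533)) (C.cons (nat_lit 134)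 (C.node (nat_lit 1) (nat_lit 7) (nat_lit 8) (C.cons (nat_lit 930) (C.miq (nat_lit 1192409472) (nat_lit 162034374476913735511772929)) (C.cons (nat_lit 898) (C.miq (nat_lit 1192409472) (nat_lit 162034374476913598072819457))
  (C.cons (nat_lit 418) (C.miq (nat_lit 1115753303) (nat_lit 317969092280591363711568097)) (C.cons (nat_lit 386) (C.node (nat_lit 2) (nat_lit 3) (nat_lit 7) (C.cons (nat_lit 172) (C.node (nat_lit 1) (nat_lit 5) (nat_lit 7) (C.cons (nat_lit 674) (C.miq (nat_lit 2511499584) (nat_lit 2828898316237882956753732755)) (C.cons (nat_lit 162) (C.node (nat_lit 5) (nat_lit 7) (nat_lit 9) (C.cons (nat_lit 928) (C.miq (nat_lit 2235275040) (nat_lit 2524307965560542352432235141)) C.nil)) C.nil))) (C.cons (nat_lit 140) (C.node (nat_lit 2) (nat_lit 5) (nat_lit 7) (C.cons (nat_lit 164) (C.node (nat_lit 2) (nat_lit 3) (nat_lit 8) C.nil) C.nil)) C.nil))) C.nil))))) C.nil))))) (C.cons (nat_lit 388) (C.node (nat_lit 4) (nat_lit 6) (nat_lit 7) (C.cons (nat_lit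 216) (C.node (nat_lit 6) (nat_lit 7) (nat_lit 10) (C.cons (nat_lit 1728) (C.miq (nat_lit 611715994) (nat_lit 261148139912667606609301249)) (C.cons (nat_lit 1216) (C.node (nat_lit 3) (nat_lit 4) (nat_lit 9) (C.cons (nat_lit 1560) (C.miq (nat_lit 1464011674) (nat_lit 261147623459002638166134529)) (C.cons (nat_lit 792) (C.miq (nat_lit 2490073968) (nat_lit 2572664998306847111579238793)) (C.cons (nat_lit 536) (C.node (nat_lit 3) (nat_lit 4) (nat_lit 10) (C.cons (nat_lit 1304) (C.miq (nat_lit 2758509424) (nat_lit 2572664998450962299655094665)) (C.cons (nat_lit 1048) (C.node (nat_lit 1) (nat_lit 3) (nat_lit 4) (C.cons (nat_lit 282) (C.node (nat_lit 3) (nat_lit 4) (nat_lit 5) C.nil) (C.cons (nat_lit 26) (C.node (nat_lit 1) (nat_lit 4) (nat_lit 8) C.nil) C.nil))) C.nil))) C.nil)))) C.nil))) (C.cons (nat_lit 208) (C.node (nat_lit 3) (nat_lit 4) (nat_lit 7) (C.cons (nat_lit 184) (C.miq (nat_lit 2539303984) (nat_lit 1431439025128817188609263645)) (C.cons (nat_lit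 152) (C.node (nat_lit 4) (nat_lit 5) (nat_lit 7) (C.cons (nat_lit 432) (C.node (nat_lit 3) (nat_lit 4) (nat_lit 5) (C.cons (nat_lit 120) (C.node (nat_lit 4) (nat_lit 5) (nat_lit 10) C.nil) (C.cons (nat_lit 56) (C.node (nat_lit 4) (nat_lit 5) (nat_lit 6) C.nil) C.nil))) (C.cons (nat_lit 176) (C.node (nat_lit 4) (nat_lit 7) (nat_lit 8) (C.cons (nat_lit 400) (C.node (nat_lit 1) (nat_lit 3) (nat_lit 4) C.nil) C.nil)) C.nil))) C.nil))) C.nil))) C.nil))) C.nil))) C.nil)))) C.nil)))) C.nil)))) C.nil))) C.nil)))) C.nil)))) (C.cons (nat_lit 2180) (C.node (nat_lit 7) (nat_lit 10) (nat_lit 11) C.nil) C.nil))) C.nil))) C.nil)))) C.nil))) C.nil))) C.nil)) C.nil))) (C.cons (nat_lit 2084) (C.node (nat_lit 5) (nat_lit 8) (nat_lit 11) (C.cons (nat_lit 2344) (C.node (nat_lit 5) (nat_lit 9) (nat_lit 11) (C.cons (nat_lit 2592) (C.node (nat_lit 3) (nat_lit 7) (nat_lit 11) (C.cons (nat_lit 3208) (C.miq (nat_lit 999663424) (nat_lit 3133555371126540660426998931)) (C.cons (nat_lit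 2186) (C.miq (nat_lit 1476703089) (nat_lit 407446703138975707923941514)) (C.cons (nat_lit 2184) (C.node (nat_lit 1) (nat_lit 7) (nat_lit 11) (C.cons (nat_lit 2434) (C.miq (nat_lit 1483846404) (nat_lit 2942564146870853087282792477)) (C.cons (nat_lit 2182) (C.miq (nat_lit 727281984) (nat_lit 3133547623205233773560005779)) (C.cons (nat_lit 2178) (C.node (nat_lit 1) (nat_lit 7) (nat_lit 8) (C.cons (nat_lit 962) (C.miq (nat_lit 611388312) (nat_lit 1415656986847057289475657473)) (C.cons (nat_lit 930) (C.miq (nat_lit 611388312) (nat_lit 1415656986847057289473560321)) (C.cons (nat_lit 898) (C.miq (nat_lit 611388312) (nat_lit 1415656986847057289471463169)) (C.cons (nat_lit 450) (C.miq (nat_lit 1483846404) (nat_lit 544055320755428804665739293)) (C.cons (nat_lit 418) (C.node (nat_lit 1) (nat_lit 3) (nat_lit 4) (C.cons (nat_lit 282) (C.node (nat_lit 4) (nat_lit 7) (nat_lit 8) (C.cons (nat_lit 404) (C.miq (nat_lit 2441544514) (nat_lit 505342890896055161714903069))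 (C.cons (nat_lit 400) (C.node (nat_lit 1) (nat_lit 7) (nat_lit 9) (C.cons (nat_lit 706) (C.node (nat_lit 1) (nat_lit 8) (nat_lit 9) (C.cons (nat_lit 770) (C.node (nat_lit 7) (nat_lit 8) (nat_lit 9) (C.cons (nat_lit 896) (C.node (nat_lit 1) (nat_lit 4) (nat_lit 9) (C.cons (nat_lit 534)
  (C.miq (nat_lit 2174170144) (nat_lit 853508878297727402183559197)) (C.cons (nat_lit 530) (C.node (nat_lit 3) (nat_lit 9) (nat_lit 11) (C.cons (nat_lit 2632) (C.miq (nat_lit 957658736) (nat_lit 640768999024039728359082209)) (C.cons (nat_lit 2568) (C.node (nat_lit 6) (nat_lit 9) (nat_lit 11) (C.cons (nat_lit 2628) (C.miq (nat_lit 689223280) (nat_lit 640768999022913828452239585)) (C.cons (nat_lit 2624) (C.node (nat_lit 1) (nat_lit 2) (nat_lit 4) (C.cons (nat_lit 86) (C.node (nat_lit 1) (nat_lit 2) (nat_lit 7) (C.cons (nat_lit 142) (C.miq (nat_lit 1635271216) (nat_lit 505337209175875293054306333)) (C.cons (nat_lit 134) (C.node (nat_lit 1) (nat_lit 3) (nat_lit 7) (C.cons (nat_lit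 138) (C.node (nat_lit 1) (nat_lit 8) (nat_lit 10) (C.cons (nat_lit 1346) (C.miq (nat_lit 2169218592) (nat_lit 2536397223874344815077164101)) (C.cons (nat_lit 1282) (C.node (nat_lit 1) (nat_lit 9) (nat_lit 11) (C.cons (nat_lit 2566) (C.miq (nat_lit 2299923236) (nat_lit 853507846281837443898804253)) C.nil)) C.nil))) C.nil)) C.nil))) (C.cons (nat_lit 22) (C.node (nat_lit 1) (nat_lit 4) (nat_lit 6) (C.cons (nat_lit 82) (C.node (nat_lit 1) (nat_lit 2) (nat_lit 7) (C.cons (nat_lit 142) (C.node (nat_lit 1) (nat_lit 8) (nat_lit 10) (C.cons (nat_lit 1346) (C.miq (nat_lit 2704435264) (nat_lit 171687629055416437317632337)) (C.cons (nat_lit 1282) (C.node (nat_lit 1) (nat_lit 9) (nat_lit 11) (C.cons (nat_lit 2566) (C.miq (nat_lit 2440606256) (nat_lit 505401847265167513565595677)) C.nil)) C.nil))) (C.cons (nat_lit 134) (C.node (nat_lit 1) (nat_lit 3) (nat_lit 7) C.nil) C.nil))) C.nil)) C.nil))) C.nil))) C.nil))) C.nil))) C.nil)) C.nil)) (C.cons (nat_lit 642) (C.node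 (nat_lit 1) (nat_lit 8) (nat_lit 9) (C.cons (nat_lit 834) (C.node (nat_lit 1) (nat_lit 8) (nat_lit 10) (C.cons (nat_lit 1282) (C.node (nat_lit 1) (nat_lit 8) (nat_lit 11) (C.cons (nat_lit 2306) (C.node (nat_lit 7) (nat_lit 8) (nat_lit 9) (C.cons (nat_lit 896) (C.node (nat_lit 1) (nat_lit 4) (nat_lit 6) (C.cons (nat_lit 86) (C.miq (nat_lit 2521530656) (nat_lit 2572664998318668502242492679)) (C.cons (nat_lit 82) (C.node (nat_lit 1) (nat_lit 2) (nat_lit 4) (C.cons (nat_lit 534) (C.miq (nat_lit 2174170144) (nat_lit 776137625842391135002363933)) (C.cons (nat_lit 22) (C.node (nat_lit 1) (nat_lit 9) (nat_lit 11) (C.cons (nat_lit 2566) (C.miq (nat_lit 560249216) (nat_lit 99170231818109059328970497)) C.nil)) C.nil))) C.nil))) C.nil)) C.nil)) C.nil)) (C.cons (nat_lit 770) (C.node (nat_lit 1) (nat_lit 8) (nat_lit 10) (C.cons (nat_lit 1346) (C.node (nat_lit 1) (nat_lit 8) (nat_lit 11) (C.cons (nat_lit 2306) (C.node (nat_lit 3) (nat_lit 8) (nat_lit 10) (C.cons (nat_lit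 1292) (C.miq (nat_lit 1487319840) (nat_lit 1627256083310353305544493085)) (C.cons (nat_lit 1288) (C.node (nat_lit 6) (nat_lit 8) (nat_lit 11) (C.cons (nat_lit 2372) (C.miq (nat_lit 674917200) (nat_lit 1557116618622583653792286945)) (C.cons (nat_lit 2368) (C.node (nat_lit 1) (nat_lit 3) (nat_lit 10) (C.cons (nat_lit 3082) (C.miq (nat_lit 1680965818) (nat_lit 340941910543714628324167425)) (C.cons (nat_lit 1038) (C.node (nat_lit 1) (nat_lit 10) (nat_lit 11) (C.cons (nat_lit 3074) (C.node (nat_lit 3) (nat_lit 10) (nat_lit 11) (C.cons (nat_lit 3144) (C.miq (nat_lit 1629726731) (nat_lit 1254922997702219274540355329)) C.nil)) C.nil)) (C.cons (nat_lit 1034) (C.miq (nat_lit 705889924) (nat_lit 1250067611676625591974101329)) C.nil)))) C.nil))) C.nil))) C.nil)) (C.cons (nat_lit 1282) (C.node (nat_lit 1) (nat_lit 6) (nat_lit 8) (C.cons (nat_lit 2370) (C.node (nat_lit 2) (nat_lit 6) (nat_lit 11) (C.cons (nat_lit 2628) (C.miq (nat_lit 2763392914) (nat_lit 2572614306760822259806634629))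 (C.cons (nat_lit 2116) (C.node (nat_lit 2) (nat_lit 3) (nat_lit 8) (C.cons (nat_lit 1292) (C.miq (nat_lit 683058000) (nat_lit 2865174355141619446056027177)) (C.cons (nat_lit 844) (C.miq (nat_lit 1904804914) (nat_lit 930884779582800416148817949)) (C.cons (nat_lit 780) (C.miq (nat_lit 1904804914) (nat_lit 930884779582800416144623645)) (C.cons (nat_lit 332)
  (C.miq (nat_lit 2709914674) (nat_lit 2865174355107552117524269085)) (C.cons (nat_lit 268) (C.node (nat_lit 3) (nat_lit 4) (nat_lit 10) (C.cons (nat_lit 1624) (C.miq (nat_lit 1669506064) (nat_lit 324012282405109756737291411)) (C.cons (nat_lit 1560) (C.miq (nat_lit 968205424) (nat_lit 3133555370662669898920035475)) (C.cons (nat_lit 1112) (C.miq (nat_lit 1669506064) (nat_lit 324012282260994568661435539)) (C.cons (nat_lit 1048) (C.node (nat_lit 1) (nat_lit 3) (nat_lit 11) (C.cons (nat_lit 3082) (C.node (nat_lit 6) (nat_lit 10) (nat_lit 11) (C.cons (nat_lit 3136) (C.node (nat_lit 1) (nat_lit 2) (nat_lit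 11) (C.cons (nat_lit 2054) (C.node (nat_lit 1) (nat_lit 9) (nat_lit 11) C.nil) C.nil)) C.nil)) (C.cons (nat_lit 2058) (C.node (nat_lit 1) (nat_lit 9) (nat_lit 11) (C.cons (nat_lit 2566) (C.node (nat_lit 1) (nat_lit 10) (nat_lit 11) (C.cons (nat_lit 3074) (C.node (nat_lit 2) (nat_lit 8) (nat_lit 11) C.nil) C.nil)) (C.cons (nat_lit 2562) (C.node (nat_lit 2) (nat_lit 9) (nat_lit 11) C.nil) C.nil))) C.nil))) C.nil))))) C.nil)))))) C.nil))) (C.cons (nat_lit 322) (C.node (nat_lit 1) (nat_lit 8) (nat_lit 11) (C.cons (nat_lit 2306) (C.node (nat_lit 3) (nat_lit 9) (nat_lit 11) (C.cons (nat_lit 2632) (C.node (nat_lit 3) (nat_lit 4) (nat_lit 9) (C.cons (nat_lit 1560) (C.miq (nat_lit 968205424) (nat_lit 3133555370662669898920035475)) (C.cons (nat_lit 536) (C.node (nat_lit 3) (nat_lit 8) (nat_lit 9) (C.cons (nat_lit 780) (C.miq (nat_lit 1904804914) (nat_lit 930884779582800416144623645)) (C.cons (nat_lit 776) (C.node (nat_lit 6) (nat_lit 8) (nat_lit 11) (C.cons (nat_lit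 2372) (C.miq (nat_lit 2525051680) (nat_lit 389283762303913470732994589)) (C.cons (nat_lit 2368) (C.node (nat_lit 2) (nat_lit 3) (nat_lit 8) (C.cons (nat_lit 1292) (C.miq (nat_lit 683058000) (nat_lit 2862756503502390187706614825)) (C.cons (nat_lit 332) (C.miq (nat_lit 2709914674) (nat_lit 389294276536791567726020637)) C.nil))) C.nil))) C.nil))) C.nil))) (C.cons (nat_lit 2568) (C.node (nat_lit 4) (nat_lit 8) (nat_lit 9) (C.cons (nat_lit 788) (C.node (nat_lit 5) (nat_lit 8) (nat_lit 9) (C.cons (nat_lit 864) (C.miq (nat_lit 727269480) (nat_lit 3133550261060082193110401361)) (C.cons (nat_lit 800) (C.node (nat_lit 6) (nat_lit 8) (nat_lit 11) (C.cons (nat_lit 2372) (C.miq (nat_lit 1754640960) (nat_lit 967182585808644910804437021)) (C.cons (nat_lit 2368) (C.node (nat_lit 2) (nat_lit 8) (nat_lit 11) (C.cons (nat_lit 2436) (C.miq (nat_lit 2023076416) (nat_lit 967182585826659309313919005)) C.nil)) C.nil))) C.nil))) (C.cons (nat_lit 784) (C.node (nat_lit 6) (nat_lit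 8) (nat_lit 11) (C.cons (nat_lit 2372) (C.node (nat_lit 7) (nat_lit 8) (nat_lit 11) (C.cons (nat_lit 2432) (C.node (nat_lit 2) (nat_lit 7) (nat_lit 8) (C.cons (nat_lit 1412) (C.miq (nat_lit 975720555) (nat_lit 1707046496763740714625665249)) C.nil)) C.nil)) (C.cons (nat_lit 2368) (C.node (nat_lit 2) (nat_lit 3) (nat_lit 8) (C.cons (nat_lit 1292) (C.miq (nat_lit 683058000) (nat_lit 2862756503502390187706614825)) (C.cons (nat_lit 844) (C.miq (nat_lit 1904804914) (nat_lit 930884779582800416148817949)) (C.cons (nat_lit 780) (C.miq (nat_lit 1904804914) (nat_lit 930884779582800416144623645)) (C.cons (nat_lit 332) (C.miq (nat_lit 2709914674) (nat_lit 389294276536791567726020637)) C.nil))))) C.nil))) C.nil))) C.nil))) C.nil)) C.nil))) C.nil))) C.nil))) C.nil))) C.nil))) (C.cons (nat_lit 90) (C.miq (nat_lit 2202103989) (nat_lit 108811034614968022947989729)) (C.cons (nat_lit 26) (C.miq (nat_lit 2202103989) (nat_lit 31439782159631755766794465)) C.nil)))) (C.cons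 (nat_lit 386) (C.miq (nat_lit 1483846404) (nat_lit 466684068300092537484544029)) C.nil))))))) C.nil)))) C.nil)))) C.nil)) (C.cons (nat_lit 2336) (C.node (nat_lit 3) (nat_lit 5) (nat_lit 11) (C.cons (nat_lit 2600) (C.node (nat_lit 3) (nat_lit 7) (nat_lit 11) (C.cons (nat_lit 3208) (C.node (nat_lit 2) (nat_lit 10) (nat_lit 11) (C.cons (nat_lit 3078) (C.miq (nat_lit 2275476402) (nat_lit 1415656986373055593497102365)) (C.cons (nat_lit 3076) (C.node (nat_lit 3) (nat_lit 4) (nat_lit 7)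
  (C.cons (nat_lit 216) (C.miq (nat_lit 1416859819) (nat_lit 261175938729264038122360577)) (C.cons (nat_lit 184) (C.node (nat_lit 4) (nat_lit 6) (nat_lit 7) (C.cons (nat_lit 212) (C.miq (nat_lit 2722301557) (nat_lit 2510958573429676356627073249)) (C.cons (nat_lit 208) (C.node (nat_lit 7) (nat_lit 9) (nat_lit 10) (C.cons (nat_lit 1728) (C.miq (nat_lit 611715994) (nat_lit 251476733355750573211651841)) (C.cons (nat_lit 1696) (C.node (nat_lit 6) (nat_lit 7) (nat_lit 10) (C.cons (nat_lit 1472) (C.miq (nat_lit 1466210944) (nat_lit 251466919580656102112562945)) (C.cons (nat_lit 1216) (C.node (nat_lit 3) (nat_lit 4) (nat_lit 8) (C.cons (nat_lit 1304) (C.miq (nat_lit 1731464104) (nat_lit 222448568001651008668700417)) (C.cons (nat_lit 792) (C.miq (nat_lit 1697909656) (nat_lit 222448568001648397295030017)) (C.cons (nat_lit 282) (C.miq (nat_lit 2159097684) (nat_lit 2479512058122062651861369016)) (C.cons (nat_lit 280) (C.node (nat_lit 2) (nat_lit 3) (nat_lit 5) (C.cons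 (nat_lit 364) (C.miq (nat_lit 2754742102) (nat_lit 2510959089960465348430661857)) (C.cons (nat_lit 300) (C.miq (nat_lit 625050480) (nat_lit 2536331221129626677509554569)) (C.cons (nat_lit 110) (C.miq (nat_lit 2754742102) (nat_lit 2510959089960465348414015713)) (C.cons (nat_lit 108) (C.miq (nat_lit 2754742102) (nat_lit 2510959089960465348413884641)) (C.cons (nat_lit 46) (C.miq (nat_lit 2337409329) (nat_lit 2519406260651735138163360267)) (C.cons (nat_lit 44) (C.node (nat_lit 1) (nat_lit 3) (nat_lit 4) (C.cons (nat_lit 90) (C.node (nat_lit 1) (nat_lit 2) (nat_lit 4) (C.cons (nat_lit 534) (C.miq (nat_lit 427115019) (nat_lit 2050376891485788130907326493)) (C.cons (nat_lit 22) (C.node (nat_lit 1) (nat_lit 3) (nat_lit 7) (C.cons (nat_lit 142) (C.miq (nat_lit 2322664242) (nat_lit 1415656987343581313003030557)) (C.cons (nat_lit 138) (C.node (nat_lit 3) (nat_lit 4) (nat_lit 9) (C.cons (nat_lit 1560) (C.node (nat_lit 3) (nat_lit 6) (nat_lit 11) (C.cons (nat_lit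 2376) (C.miq (nat_lit 1399102336) (nat_lit 108813673120587121094102785)) (C.cons (nat_lit 2120) (C.node (nat_lit 6) (nat_lit 9) (nat_lit 10) (C.cons (nat_lit 1602) (C.miq (nat_lit 2520490304) (nat_lit 2562993591977924268138497171)) (C.cons (nat_lit 1600) (C.node (nat_lit 1) (nat_lit 7) (nat_lit 9) (C.cons (nat_lit 962) (C.miq (nat_lit 611388312) (nat_lit 1415656986847057289475657473)) (C.cons (nat_lit 898) (C.miq (nat_lit 611388312) (nat_lit 1415656986847057289471463169)) (C.cons (nat_lit 706) (C.miq (nat_lit 660867347) (nat_lit 251494884548838355308773899)) (C.cons (nat_lit 642) (C.node (nat_lit 2) (nat_lit 3) (nat_lit 9) (C.cons (nat_lit 844) (C.miq (nat_lit 338823832) (nat_lit 2510943779162890079409278721)) (C.cons (nat_lit 780) (C.miq (nat_lit 338823832) (nat_lit 2510943779162890079405084417)) (C.cons (nat_lit 588) (C.miq (nat_lit 1769026052) (nat_lit 776132036565068620657526813)) (C.cons (nat_lit 524) (C.node (nat_lit 3) (nat_lit 8) (nat_lit 9) (C.cons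 (nat_lit 840) (C.miq (nat_lit 2838562916) (nat_lit 632289805876910365580329297)) (C.cons (nat_lit 776) (C.node (nat_lit 1) (nat_lit 2) (nat_lit 3) (C.cons (nat_lit 1038) (C.node (nat_lit 1) (nat_lit 9) (nat_lit 10) (C.cons (nat_lit 1538) (C.node (nat_lit 2) (nat_lit 9) (nat_lit 10) (C.cons (nat_lit 1540) (C.node (nat_lit 1) (nat_lit 3) (nat_lit 11) (C.cons (nat_lit 2314) (C.node (nat_lit 1) (nat_lit 3) (nat_lit 5) (C.cons (nat_lit 42) (C.node (nat_lit 1) (nat_lit 7) (nat_lit 11) (C.cons (nat_lit 2182) (C.miq (nat_lit 2450786229) (nat_lit 26606716836507924636502241)) C.nil)) C.nil)) C.nil)) C.nil)) C.nil)) (C.cons (nat_lit 14) (C.node (nat_lit 1) (nat_lit 3) (nat_lit 5) (C.cons (nat_lit 298) (C.node (nat_lit 1) (nat_lit 3) (nat_lit 11) C.nil) (C.cons (nat_lit 42) (C.node (nat_lit 1) (nat_lit 3) (nat_lit 11) (C.cons (nat_lit 2314) (C.node (nat_lit 1) (nat_lit 7) (nat_lit 11) (C.cons (nat_lit 2182) (C.miq (nat_lit 2450786229) (nat_lit 26606716836507924636502241))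 C.nil)) C.nil)) C.nil))) C.nil))) C.nil))) C.nil))))) C.nil))))) C.nil))) C.nil))) (C.cons (nat_lit 536)
  (C.miq (nat_lit 2739490999) (nat_lit 648015525291170020063185121)) C.nil))) C.nil))) C.nil))) (C.cons (nat_lit 26) (C.node (nat_lit 1) (nat_lit 4) (nat_lit 8) (C.cons (nat_lit 786) (C.node (nat_lit 1) (nat_lit 7) (nat_lit 11) (C.cons (nat_lit 2434) (C.miq (nat_lit 1900394640) (nat_lit 2536368299685885019539181313)) (C.cons (nat_lit 2182) (C.miq (nat_lit 558463824) (nat_lit 950227592981213484040653025)) (C.cons (nat_lit 2178) (C.node (nat_lit 1) (nat_lit 7) (nat_lit 8) (C.cons (nat_lit 450) (C.miq (nat_lit 425165830) (nat_lit 2050346491322485990920094033)) (C.cons (nat_lit 418) (C.miq (nat_lit 873990999) (nat_lit 950222944372152036669655265)) (C.cons (nat_lit 386) (C.node (nat_lit 1) (nat_lit 2) (nat_lit 4) (C.cons (nat_lit 86) (C.node (nat_lit 1) (nat_lit 2) (nat_lit 11) (C.cons (nat_lit 2566) (C.miq (nat_lit 1754349746) (nat_lit 950217280731962434629535773))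 (C.cons (nat_lit 2054) (C.node (nat_lit 2) (nat_lit 4) (nat_lit 9) (C.cons (nat_lit 1556) (C.miq (nat_lit 1948694944) (nat_lit 104009550697252670901915393)) (C.cons (nat_lit 532) (C.node (nat_lit 2) (nat_lit 9) (nat_lit 11) (C.cons (nat_lit 2628) (C.miq (nat_lit 2761033654) (nat_lit 643168698655874096975579361)) (C.cons (nat_lit 2564) (C.node (nat_lit 2) (nat_lit 6) (nat_lit 11) (C.cons (nat_lit 2372) (C.miq (nat_lit 2875459617) (nat_lit 2572615746358396770873377031)) (C.cons (nat_lit 2116) (C.node (nat_lit 6) (nat_lit 8) (nat_lit 11) (C.cons (nat_lit 2376) (C.miq (nat_lit 1683194011) (nat_lit 222486180367870378839117569)) (C.cons (nat_lit 2370) (C.miq (nat_lit 1631959184) (nat_lit 2536368299667870621029699329)) C.nil))) C.nil))) C.nil))) C.nil))) C.nil))) (C.cons (nat_lit 22) (C.node (nat_lit 1) (nat_lit 4) (nat_lit 6) (C.cons (nat_lit 82) (C.node (nat_lit 3) (nat_lit 4) (nat_lit 9) (C.cons (nat_lit 1624) (C.miq (nat_lit 1678944640) (nat_lit 26616530779913144423091969))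 (C.cons (nat_lit 1560) (C.node (nat_lit 3) (nat_lit 4) (nat_lit 6) (C.cons (nat_lit 88) (C.node (nat_lit 2) (nat_lit 9) (nat_lit 10) (C.cons (nat_lit 1542) (C.miq (nat_lit 558279040) (nat_lit 99152079933709946820038401)) (C.cons (nat_lit 1540) (C.node (nat_lit 4) (nat_lit 8) (nat_lit 10) (C.cons (nat_lit 1332) (C.miq (nat_lit 874617472) (nat_lit 26606016117779076521332481)) (C.cons (nat_lit 1328) (C.miq (nat_lit 1410574480) (nat_lit 31451717466221004165156609)) (C.cons (nat_lit 1300) (C.miq (nat_lit 874617472) (nat_lit 26606016117778939082379009)) (C.cons (nat_lit 1296) (C.node (nat_lit 1) (nat_lit 10) (nat_lit 11) (C.cons (nat_lit 3138) (C.node (nat_lit 3) (nat_lit 6) (nat_lit 11) (C.cons (nat_lit 2376) (C.miq (nat_lit 1399102336) (nat_lit 106395821481357862744690433)) C.nil)) C.nil)) C.nil))))) C.nil))) C.nil)) (C.cons (nat_lit 600) (C.miq (nat_lit 2739490999) (nat_lit 725386777746506287244380385)) (C.cons (nat_lit 536) (C.miq (nat_lit 2739490999) (nat_lit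 648015525291170020063185121)) C.nil))))) C.nil)) C.nil))) C.nil)))) C.nil)))) (C.cons (nat_lit 274) (C.node (nat_lit 1) (nat_lit 10) (nat_lit 11) (C.cons (nat_lit 3138) (C.node (nat_lit 1) (nat_lit 9) (nat_lit 10) (C.cons (nat_lit 1542) (C.miq (nat_lit 427532806) (nat_lit 3268993302554897773469172805)) (C.cons (nat_lit 1538) (C.node (nat_lit 3) (nat_lit 6) (nat_lit 11) (C.cons (nat_lit 2376) (C.miq (nat_lit 1683194011) (nat_lit 222486180367870378839117569)) (C.cons (nat_lit 2120) (C.node (nat_lit 6) (nat_lit 9) (nat_lit 11) (C.cons (nat_lit 2628) (C.miq (nat_lit 1784225851) (nat_lit 2050386668417493512858634269)) (C.cons (nat_lit 2624) (C.node (nat_lit 2) (nat_lit 9) (nat_lit 10) (C.cons (nat_lit 1556) (C.miq (nat_lit 645177529) (nat_lit 251485273921283472583823105)) (C.cons (nat_lit 1548) (C.miq (nat_lit 1697778586) (nat_lit 53212898994120037306732289)) (C.cons (nat_lit 1540) (C.node (nat_lit 1) (nat_lit 3) (nat_lit 7) (C.cons (nat_lit 206) (C.miq (nat_lit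 698446006) (nat_lit 1859331710778146712019142881)) (C.cons (nat_lit 202) (C.miq (nat_lit 2338523671) (nat_lit 2562929988234593681397122195)) (C.cons (nat_lit 142)
  (C.miq (nat_lit 2322664242) (nat_lit 1415656987343581313003030557)) (C.cons (nat_lit 138) (C.node (nat_lit 1) (nat_lit 3) (nat_lit 11) (C.cons (nat_lit 2314) (C.node (nat_lit 1) (nat_lit 7) (nat_lit 11) (C.cons (nat_lit 2182) (C.miq (nat_lit 395686404) (nat_lit 2050376891949658892414289949)) C.nil)) (C.cons (nat_lit 2058) (C.node (nat_lit 3) (nat_lit 8) (nat_lit 11) (C.cons (nat_lit 2312) (C.node (nat_lit 1) (nat_lit 8) (nat_lit 11) C.nil) C.nil)) C.nil))) C.nil))))) C.nil)))) C.nil))) C.nil))) C.nil))) (C.cons (nat_lit 3074) (C.node (nat_lit 6) (nat_lit 10) (nat_lit 11) (C.cons (nat_lit 3136) (C.node (nat_lit 2) (nat_lit 4) (nat_lit 7) (C.cons (nat_lit 404) (C.node (nat_lit 2) (nat_lit 7) (nat_lit 10) (C.cons (nat_lit 1156) (C.node (nat_lit 4) (nat_lit 8) (nat_lit 9) (C.cons (nat_lit 784)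 (C.node (nat_lit 7) (nat_lit 8) (nat_lit 10) (C.cons (nat_lit 1408) (C.node (nat_lit 2) (nat_lit 7) (nat_lit 11) (C.cons (nat_lit 2182) (C.miq (nat_lit 395686404) (nat_lit 2050376891949658892414289949)) (C.cons (nat_lit 2180) (C.node (nat_lit 5) (nat_lit 7) (nat_lit 8) (C.cons (nat_lit 418) (C.miq (nat_lit 873990999) (nat_lit 331252924729461899220093153)) (C.cons (nat_lit 416) (C.node (nat_lit 2) (nat_lit 4) (nat_lit 10) (C.cons (nat_lit 1556) (C.miq (nat_lit 1732381594) (nat_lit 488426194055386986878078721)) (C.cons (nat_lit 1076) (C.miq (nat_lit 2203218084) (nat_lit 53200188658273702403900563)) (C.cons (nat_lit 1044) (C.node (nat_lit 2) (nat_lit 4) (nat_lit 5) (C.cons (nat_lit 116) (C.node (nat_lit 1) (nat_lit 5) (nat_lit 7) C.nil) C.nil)) C.nil)))) C.nil))) C.nil))) C.nil)) C.nil)) C.nil)) (C.cons (nat_lit 148) (C.node (nat_lit 4) (nat_lit 7) (nat_lit 8) (C.cons (nat_lit 400) (C.node (nat_lit 2) (nat_lit 7) (nat_lit 10) (C.cons (nat_lit 1412) (C.node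 (nat_lit 2) (nat_lit 5) (nat_lit 7) (C.cons (nat_lit 166) (C.miq (nat_lit 278210727) (nat_lit 678210447037367618751169924)) (C.cons (nat_lit 164) (C.node (nat_lit 1) (nat_lit 5) (nat_lit 7) (C.cons (nat_lit 418) (C.miq (nat_lit 873990999) (nat_lit 331252924729461899220093153)) (C.cons (nat_lit 162) (C.node (nat_lit 5) (nat_lit 7) (nat_lit 8) (C.cons (nat_lit 416) (C.node (nat_lit 4) (nat_lit 8) (nat_lit 10) C.nil) C.nil)) C.nil))) C.nil))) (C.cons (nat_lit 1156) (C.node (nat_lit 7) (nat_lit 8) (nat_lit 10) (C.cons (nat_lit 1408) (C.node (nat_lit 3) (nat_lit 7) (nat_lit 9) (C.cons (nat_lit 712) (C.node (nat_lit 1) (nat_lit 3) (nat_lit 7) (C.cons (nat_lit 142) (C.miq (nat_lit 2322664242) (nat_lit 1415656987343581313003030557)) (C.cons (nat_lit 138) (C.node (nat_lit 2) (nat_lit 3) (nat_lit 7) (C.cons (nat_lit 140) (C.node (nat_lit 1) (nat_lit 7) (nat_lit 9) (C.cons (nat_lit 898) (C.miq (nat_lit 611388312) (nat_lit 1415656986847057289471463169)) (C.cons (nat_lit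 642) (C.node (nat_lit 7) (nat_lit 8) (nat_lit 9) C.nil) C.nil))) C.nil)) C.nil))) (C.cons (nat_lit 648) (C.node (nat_lit 4) (nat_lit 8) (nat_lit 9) (C.cons (nat_lit 788) (C.node (nat_lit 1) (nat_lit 2) (nat_lit 4) (C.cons (nat_lit 86) (C.node (nat_lit 1) (nat_lit 4) (nat_lit 9) C.nil) C.nil)) (C.cons (nat_lit 784) (C.node (nat_lit 4) (nat_lit 5) (nat_lit 6) (C.cons (nat_lit 112) (C.node (nat_lit 1) (nat_lit 7) (nat_lit 11) (C.cons (nat_lit 2434) (C.node (nat_lit 2) (nat_lit 7) (nat_lit 11) C.nil) (C.cons (nat_lit 2182) (C.miq (nat_lit 395686404) (nat_lit 2050376891949658892414289949)) C.nil))) C.nil)) C.nil))) C.nil))) C.nil)) C.nil))) C.nil)) C.nil))) C.nil)) C.nil))) C.nil))) C.nil))) C.nil))))))) C.nil))))) C.nil))) (C.cons (nat_lit 1664) (C.miq (nat_lit 1519857844) (nat_lit 2011655958339439856612018205)) C.nil)))) C.nil))) (C.cons (nat_lit 152) (C.miq (nat_lit 1416859819) (nat_lit 183804686273927770941165313)) C.nil)))) C.nil))) (C.cons (nat_lit 2186)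 (C.miq (nat_lit 1094256565) (nat_lit 632278552611492996126869729)) (C.cons (nat_lit 2184) (C.miq (nat_lit 2746680724) (nat_lit 2640315591475442448732258865)) C.nil)))) (C.cons (nat_lit 2088) (C.node (nat_lit 5) (nat_lit 9) (nat_lit 11) (C.cons (nat_lit 2592)
  (C.node (nat_lit 3) (nat_lit 9) (nat_lit 11) (C.cons (nat_lit 2632) (C.node (nat_lit 1) (nat_lit 7) (nat_lit 9) (C.cons (nat_lit 962) (C.miq (nat_lit 611388312) (nat_lit 1415656986847057289475657473)) (C.cons (nat_lit 930) (C.miq (nat_lit 611388312) (nat_lit 1415656986847057289473560321)) (C.cons (nat_lit 898) (C.miq (nat_lit 611388312) (nat_lit 1415656986847057289471463169)) (C.cons (nat_lit 706) (C.miq (nat_lit 1133579111) (nat_lit 632289805380396203284498657)) (C.cons (nat_lit 674) (C.miq (nat_lit 2511499584) (nat_lit 2519413306416537888028951699)) (C.cons (nat_lit 642) (C.node (nat_lit 1) (nat_lit 9) (nat_lit 11) (C.cons (nat_lit 2566) (C.node (nat_lit 2) (nat_lit 6) (nat_lit 11) (C.cons (nat_lit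 2372) (C.miq (nat_lit 914397985) (nat_lit 407417649598132908353587718)) (C.cons (nat_lit 2116) (C.node (nat_lit 2) (nat_lit 8) (nat_lit 11) (C.cons (nat_lit 2436) (C.miq (nat_lit 2073264656) (nat_lit 3181900007481809019867955463)) (C.cons (nat_lit 2308) (C.node (nat_lit 3) (nat_lit 8) (nat_lit 11) (C.cons (nat_lit 2314) (C.miq (nat_lit 2174171936) (nat_lit 776137626414357015051962397)) (C.cons (nat_lit 2312) (C.node (nat_lit 2) (nat_lit 7) (nat_lit 11) (C.cons (nat_lit 3204) (C.node (nat_lit 3) (nat_lit 7) (nat_lit 11) C.nil) C.nil)) C.nil))) C.nil))) C.nil))) (C.cons (nat_lit 2562) (C.node (nat_lit 2) (nat_lit 9) (nat_lit 11) (C.cons (nat_lit 2564) (C.node (nat_lit 3) (nat_lit 8) (nat_lit 11) (C.cons (nat_lit 2314) (C.node (nat_lit 1) (nat_lit 3) (nat_lit 4) (C.cons (nat_lit 90) (C.miq (nat_lit 2875459889) (nat_lit 2572615746358397887565136395)) (C.cons (nat_lit 26) (C.node (nat_lit 1) (nat_lit 7) (nat_lit 11) (C.cons (nat_lit 2182) (C.miq (nat_lit 1366903584)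 (nat_lit 776140725406561154019690525)) (C.cons (nat_lit 2178) (C.node (nat_lit 3) (nat_lit 7) (nat_lit 11) (C.cons (nat_lit 3208) (C.miq (nat_lit 999663424) (nat_lit 3133555371126540660426998931)) C.nil)) C.nil))) C.nil))) (C.cons (nat_lit 2312) (C.node (nat_lit 6) (nat_lit 10) (nat_lit 11) (C.cons (nat_lit 3138) (C.node (nat_lit 1) (nat_lit 2) (nat_lit 11) (C.cons (nat_lit 2182) (C.miq (nat_lit 1366903584) (nat_lit 776140725406561154019690525)) C.nil)) C.nil)) C.nil))) C.nil)) C.nil))) C.nil))))))) (C.cons (nat_lit 2568) (C.node (nat_lit 3) (nat_lit 7) (nat_lit 11) (C.cons (nat_lit 3208) (C.miq (nat_lit 999663424) (nat_lit 3133555371126540660426998931)) (C.cons (nat_lit 2186) (C.node (nat_lit 3) (nat_lit 8) (nat_lit 11) (C.cons (nat_lit 2376) (C.miq (nat_lit 1796506480) (nat_lit 2536332586773038782192222601)) (C.cons (nat_lit 2312) (C.node (nat_lit 1) (nat_lit 7) (nat_lit 8) (C.cons (nat_lit 962) (C.miq (nat_lit 611388312) (nat_lit 1415656986847057289475657473))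 (C.cons (nat_lit 930) (C.miq (nat_lit 611388312) (nat_lit 1415656986847057289473560321)) (C.cons (nat_lit 898) (C.miq (nat_lit 611388312) (nat_lit 1415656986847057289471463169)) (C.cons (nat_lit 450) (C.miq (nat_lit 1639221040) (nat_lit 2536332586230917977106874761)) (C.cons (nat_lit 418) (C.miq (nat_lit 2243129664) (nat_lit 2524244361043432235882841235)) (C.cons (nat_lit 386) (C.node (nat_lit 1) (nat_lit 8) (nat_lit 11) (C.cons (nat_lit 2370) (C.node (nat_lit 2) (nat_lit 6) (nat_lit 11) (C.cons (nat_lit 2628) (C.miq (nat_lit 2763392914) (nat_lit 2572614306760822259806634629)) (C.cons (nat_lit 2116) (C.node (nat_lit 6) (nat_lit 9) (nat_lit 11) C.nil) C.nil))) (C.cons (nat_lit 2306) (C.node (nat_lit 3) (nat_lit 6) (nat_lit 11) (C.cons (nat_lit 3144) (C.node (nat_lit 1) (nat_lit 10) (nat_lit 11) (C.cons (nat_lit 3078) (C.node (nat_lit 7) (nat_lit 10) (nat_lit 11) C.nil) C.nil)) C.nil)) C.nil))) C.nil))))))) C.nil))) (C.cons (nat_lit 2184) (C.node (nat_lit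 7) (nat_lit 10) (nat_lit 11) (C.cons (nat_lit 3204) (C.node (nat_lit 2) (nat_lit 8) (nat_lit 11) (C.cons (nat_lit 2372) (C.miq (nat_lit 2072289888) (nat_lit 2804729503545106012268725317)) (C.cons (nat_lit 2308) (C.node (nat_lit 1) (nat_lit 7) (nat_lit 11) (C.cons (nat_lit 2434) (C.node (nat_lit 3) (nat_lit 8) (nat_lit 11) (C.cons (nat_lit 2376)
  (C.node (nat_lit 1) (nat_lit 3) (nat_lit 11) C.nil) C.nil)) C.nil)) C.nil))) (C.cons (nat_lit 3200) (C.node (nat_lit 2) (nat_lit 10) (nat_lit 11) (C.cons (nat_lit 3078) (C.node (nat_lit 2) (nat_lit 9) (nat_lit 11) (C.cons (nat_lit 2628) (C.miq (nat_lit 2763392914) (nat_lit 2572614306760822259806634629)) C.nil)) (C.cons (nat_lit 3076) (C.node (nat_lit 1) (nat_lit 7) (nat_lit 11) C.nil) C.nil))) C.nil))) C.nil)))) C.nil))) C.nil)) C.nil))) C.nil))) C.nil)))) List.nil)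

theorem ok12_246 : okL par12 (nat_lit 247) c12_246 (nat_lit 246) = true := by decide +kernel

noncomputable def c12_247 : List C :=
  (List.cons (C.node (nat_lit 2) (nat_lit 7) (nat_lit 8) (C.cons (nat_lit 2436) (C.node (nat_lit 1) (nat_lit 7) (nat_lit 11) (C.cons (nat_lit 2178) (C.node (nat_lit 2) (nat_lit 9) (nat_lit 11) (C.cons (nat_lit 2630) (C.miq (nat_lit 2460268039) (nat_lit 1571653446235277120970623201)) (C.cons (nat_lit 2628) (C.miq (nat_lit 2460268039) (nat_lit 1571653446234714171017201889)) (C.cons (nat_lit 2598) (C.miq (nat_lit 1951533753) (nat_lit 62876041099508857941921537)) (C.cons (nat_lit 2596) (C.miq (nat_lit 1951533753) (nat_lit 62876041099508857941790465)) (C.cons (nat_lit 2566) (C.miq (nat_lit 934873121) (nat_lit 3268945063995737967056781575)) (C.cons (nat_lit 2564) (C.node (nat_lit 2) (nat_lit 5) (nat_lit 11) (C.cons (nat_lit 2086) (C.node (nat_lit 2) (nat_lit 6) (nat_lit 11) (C.cons (nat_lit 2116) (C.node (nat_lit 5) (nat_lit 8)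 (nat_lit 11) (C.cons (nat_lit 2344) (C.miq (nat_lit 927301803) (nat_lit 522299193352253274120523521)) (C.cons (nat_lit 2336) (C.node (nat_lit 3) (nat_lit 5) (nat_lit 11) (C.cons (nat_lit 2600) (C.miq (nat_lit 347671123) (nat_lit 3268945064214728436697531433)) (C.cons (nat_lit 2088) (C.node (nat_lit 5) (nat_lit 9) (nat_lit 11) C.nil) C.nil))) C.nil))) C.nil)) (C.cons (nat_lit 2084) (C.node (nat_lit 1) (nat_lit 2) (nat_lit 11) (C.cons (nat_lit 2118) (C.node (nat_lit 1) (nat_lit 10) (nat_lit 11) (C.cons (nat_lit 3082) (C.miq (nat_lit 2494629283) (nat_lit 2497650391128895287473079337)) (C.cons (nat_lit 3074) (C.node (nat_lit 1) (nat_lit 4) (nat_lit 5) (C.cons (nat_lit 122) (C.miq (nat_lit 1210144694) (nat_lit 317949741183032118131165409)) (C.cons (nat_lit 114) (C.miq (nat_lit 1210144694) (nat_lit 317949593609079528454752481)) (C.cons (nat_lit 58) (C.miq (nat_lit 2604730963) (nat_lit 2497650392052133210885850153)) (C.cons (nat_lit 50) (C.node (nat_lit 1) (nat_lit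 7) (nat_lit 8) (C.cons (nat_lit 962) (C.miq (nat_lit 611388312) (nat_lit 1415656986847057289475657473)) (C.cons (nat_lit 898) (C.miq (nat_lit 611388312) (nat_lit 1415656986847057289471463169)) (C.cons (nat_lit 450) (C.miq (nat_lit 840436583) (nat_lit 317954740713701064199768289)) (C.cons (nat_lit 386) (C.node (nat_lit 1) (nat_lit 2) (nat_lit 4) (C.cons (nat_lit 534) (C.node (nat_lit 2) (nat_lit 4) (nat_lit 6) (C.cons (nat_lit 84) (C.node (nat_lit 1) (nat_lit 4) (nat_lit 8) (C.cons (nat_lit 282) (C.miq (nat_lit 2541822004) (nat_lit 466655217114135270256150557)) C.nil)) C.nil)) (C.cons (nat_lit 22) (C.node (nat_lit 2) (nat_lit 4) (nat_lit 6) (C.cons (nat_lit 596) (C.node (nat_lit 4) (nat_lit 9) (nat_lit 10) (C.cons (nat_lit 1560) (C.miq (nat_lit 874617472) (nat_lit 26606016117778939082379009)) C.nil)) C.nil)) C.nil))) C.nil))))) C.nil))))) C.nil))) (C.cons (nat_lit 2054) (C.node (nat_lit 2) (nat_lit 6) (nat_lit 11) (C.cons (nat_lit 2116) (C.node (nat_lit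 3) (nat_lit 9) (nat_lit 11) (C.cons (nat_lit 2632) (C.node (nat_lit 3) (nat_lit 10) (nat_lit 11) (C.cons (nat_lit 3082) (C.miq (nat_lit 1530481168) (nat_lit 3181903106727344503345841299)) C.nil)) (C.cons (nat_lit 2600) (C.miq (nat_lit 347671123) (nat_lit 3268945064214728436697531433)) C.nil))) C.nil)) C.nil))) C.nil))) C.nil))))))) C.nil)) (C.cons (nat_lit 452) (C.miq (nat_lit 1445490852) (nat_lit 546442440099049546041263251)) (C.cons (nat_lit 388) (C.node (nat_lit 2) (nat_lit 8) (nat_lit 11) (C.cons (nat_lit 2372) (C.miq (nat_lit 1648867488) (nat_lit 178962951419908887959244545)) (C.cons (nat_lit 2340) (C.miq (nat_lit 340921016) (nat_lit 62868994443272700876295937)) (C.cons (nat_lit 2308) (C.node (nat_lit 2) (nat_lit 7) (nat_lit 11) (C.cons (nat_lit 2182) (C.node (nat_lit 7) (nat_lit 8) (nat_lit 11) (C.cons (nat_lit 2432) (C.node (nat_lit 2) (nat_lit 5) (nat_lit 11) (C.cons (nat_lit 2596) (C.miq (nat_lit 1951533753) (nat_lit 62876041099508857941790465))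 (C.cons (nat_lit 2084) (C.node (nat_lit 2) (nat_lit 6) (nat_lit 11) (C.cons (nat_lit 2628) (C.miq (nat_lit 2460268039) (nat_lit 1571653446234714171017201889)) (C.cons (nat_lit 2116) (C.node (nat_lit 2) (nat_lit 9) (nat_lit 11) (C.cons (nat_lit 2564)
  (C.node (nat_lit 3) (nat_lit 9) (nat_lit 11) (C.cons (nat_lit 2632) (C.node (nat_lit 3) (nat_lit 10) (nat_lit 11) (C.cons (nat_lit 3082) (C.miq (nat_lit 1530481168) (nat_lit 3181903106727344503345841299)) C.nil)) (C.cons (nat_lit 2600) (C.miq (nat_lit 347671123) (nat_lit 3268945064214728436697531433)) C.nil))) C.nil)) C.nil))) C.nil))) C.nil)) (C.cons (nat_lit 2180) (C.node (nat_lit 1) (nat_lit 7) (nat_lit 11) (C.cons (nat_lit 2434) (C.node (nat_lit 5) (nat_lit 8) (nat_lit 11) (C.cons (nat_lit 2344) (C.miq (nat_lit 927301803) (nat_lit 522299193352253274120523521)) (C.cons (nat_lit 2336) (C.node (nat_lit 3) (nat_lit 8) (nat_lit 11) (C.cons (nat_lit 2376) (C.node (nat_lit 3) (nat_lit 8) (nat_lit 10) (C.cons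 (nat_lit 1290) (C.miq (nat_lit 951427440) (nat_lit 2824070360765325426842207379)) (C.cons (nat_lit 1288) (C.node (nat_lit 3) (nat_lit 9) (nat_lit 11) (C.cons (nat_lit 2600) (C.miq (nat_lit 347671123) (nat_lit 3268945064214728436697531433)) (C.cons (nat_lit 2568) (C.node (nat_lit 3) (nat_lit 10) (nat_lit 11) (C.cons (nat_lit 3082) (C.miq (nat_lit 1530481168) (nat_lit 3104531854272008236164646035)) (C.cons (nat_lit 3080) (C.node (nat_lit 1) (nat_lit 10) (nat_lit 11) (C.cons (nat_lit 3138) (C.miq (nat_lit 1661646961) (nat_lit 1287563884441269604298459522)) C.nil)) C.nil))) C.nil))) C.nil))) (C.cons (nat_lit 2312) (C.node (nat_lit 6) (nat_lit 8) (nat_lit 11) (C.cons (nat_lit 2368) (C.node (nat_lit 6) (nat_lit 7) (nat_lit 8) (C.cons (nat_lit 960) (C.node (nat_lit 4) (nat_lit 8) (nat_lit 9) (C.cons (nat_lit 792) (C.miq (nat_lit 1766553648) (nat_lit 3268977345957456209608769929)) (C.cons (nat_lit 786) (C.miq (nat_lit 1460931465) (nat_lit 1415662484031959190704623361))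 C.nil))) C.nil)) C.nil)) C.nil))) C.nil))) (C.cons (nat_lit 2178) (C.node (nat_lit 7) (nat_lit 8) (nat_lit 11) (C.cons (nat_lit 2432) (C.node (nat_lit 3) (nat_lit 9) (nat_lit 11) (C.cons (nat_lit 2632) (C.node (nat_lit 3) (nat_lit 10) (nat_lit 11) (C.cons (nat_lit 3082) (C.miq (nat_lit 1530481168) (nat_lit 3181903106727344503345841299)) (C.cons (nat_lit 3080) (C.node (nat_lit 1) (nat_lit 10) (nat_lit 11) (C.cons (nat_lit 3138) (C.node (nat_lit 2) (nat_lit 6) (nat_lit 11) C.nil) C.nil)) C.nil))) (C.cons (nat_lit 2600) (C.miq (nat_lit 347671123) (nat_lit 3268945064214728436697531433)) (C.cons (nat_lit 2568) (C.node (nat_lit 5) (nat_lit 7) (nat_lit 10) (C.cons (nat_lit 1696) (C.miq (nat_lit 609684393) (nat_lit 522267852808084273171009281)) (C.cons (nat_lit 1188) (C.node (nat_lit 1) (nat_lit 5) (nat_lit 7) C.nil) (C.cons (nat_lit 1184) (C.node (nat_lit 2) (nat_lit 7) (nat_lit 10) C.nil) C.nil)))) C.nil)))) C.nil)) C.nil))) C.nil))) C.nil)))) C.nil)))) (List.cons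 (C.node (nat_lit 3) (nat_lit 9) (nat_lit 11) (C.cons (nat_lit 2632) (C.node (nat_lit 3) (nat_lit 10) (nat_lit 11) (C.cons (nat_lit 3082) (C.miq (nat_lit 1530481168) (nat_lit 3181903106727344503345841299)) (C.cons (nat_lit 3080) (C.node (nat_lit 1) (nat_lit 10) (nat_lit 11) (C.cons (nat_lit 3138) (C.node (nat_lit 2) (nat_lit 6) (nat_lit 11) (C.cons (nat_lit 2372) (C.miq (nat_lit 1648867488) (nat_lit 178962951419908887959244545)) (C.cons (nat_lit 2116) (C.node (nat_lit 6) (nat_lit 8) (nat_lit 11) (C.cons (nat_lit 2368) (C.node (nat_lit 1) (nat_lit 9) (nat_lit 10) (C.cons (nat_lit 1574) (C.miq (nat_lit 1497080068) (nat_lit 3181950311510257821374284947)) (C.cons (nat_lit 1570) (C.miq (nat_lit 1497080068) (nat_lit 3181950311509131921467442323)) (C.cons (nat_lit 1542) (C.miq (nat_lit 427532806) (nat_lit 3268993302554897773469172805)) (C.cons (nat_lit 1538) (C.node (nat_lit 1) (nat_lit 5) (nat_lit 10) (C.cons (nat_lit 1062) (C.node (nat_lit 5) (nat_lit 7) (nat_lit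 10) (C.cons (nat_lit 1696) (C.miq (nat_lit 609684393) (nat_lit 212782842986739204446228225)) (C.cons (nat_lit 1184) (C.node (nat_lit 2) (nat_lit 5) (nat_lit 11) (C.cons (nat_lit 2596) (C.miq (nat_lit 1951533753) (nat_lit 62876041099508857941790465)) (C.cons (nat_lit 2340) (C.miq (nat_lit 1159834496) (nat_lit 1283900822446258475000860417))
  (C.cons (nat_lit 2084) (C.node (nat_lit 1) (nat_lit 4) (nat_lit 5) (C.cons (nat_lit 314) (C.miq (nat_lit 2589002563) (nat_lit 1283888869159045519497627677)) (C.cons (nat_lit 306) (C.miq (nat_lit 1683621906) (nat_lit 3771868719583773971104268551)) (C.cons (nat_lit 122) (C.miq (nat_lit 2585004901) (nat_lit 1415662484473314977800390881)) (C.cons (nat_lit 114) (C.miq (nat_lit 2585004901) (nat_lit 1415662484473314977799866593)) (C.cons (nat_lit 58) (C.miq (nat_lit 2589002563) (nat_lit 1283888869159045519480850461)) (C.cons (nat_lit 50) (C.node (nat_lit 4) (nat_lit 5) (nat_lit 6) C.nil) C.nil))))))) C.nil)))) C.nil))) (C.cons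 (nat_lit 1058) (C.node (nat_lit 1) (nat_lit 2) (nat_lit 10) (C.cons (nat_lit 1038) (C.node (nat_lit 1) (nat_lit 8) (nat_lit 10) (C.cons (nat_lit 1282) (C.node (nat_lit 3) (nat_lit 4) (nat_lit 10) (C.cons (nat_lit 1560) (C.miq (nat_lit 323094952) (nat_lit 2510943778980494294530658049)) (C.cons (nat_lit 1112) (C.miq (nat_lit 1779974944) (nat_lit 1549849117611712074387752989)) (C.cons (nat_lit 1048) (C.node (nat_lit 4) (nat_lit 6) (nat_lit 10) C.nil) C.nil)))) C.nil)) (C.cons (nat_lit 1030) (C.node (nat_lit 1) (nat_lit 3) (nat_lit 10) (C.cons (nat_lit 1290) (C.node (nat_lit 3) (nat_lit 6) (nat_lit 7) (C.cons (nat_lit 1224) (C.miq (nat_lit 326543371) (nat_lit 1479783089454313818441191169)) (C.cons (nat_lit 206) (C.miq (nat_lit 2584873831) (nat_lit 1245205493434154455774660833)) (C.cons (nat_lit 204) (C.miq (nat_lit 326543371) (nat_lit 246678753447392060240891649)) (C.cons (nat_lit 202) (C.miq (nat_lit 2468001392) (nat_lit 1559585161987701760121309409)) (C.cons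 (nat_lit 200) (C.miq (nat_lit 326543371) (nat_lit 241843050168933543542066945)) C.nil)))))) (C.cons (nat_lit 1034) (C.node (nat_lit 1) (nat_lit 8) (nat_lit 10) (C.cons (nat_lit 1282) (C.node (nat_lit 3) (nat_lit 4) (nat_lit 10) C.nil) C.nil)) C.nil))) C.nil))) C.nil))) C.nil))))) C.nil)) C.nil))) (C.cons (nat_lit 3074) (C.node (nat_lit 6) (nat_lit 10) (nat_lit 11) (C.cons (nat_lit 3136) (C.node (nat_lit 2) (nat_lit 6) (nat_lit 11) (C.cons (nat_lit 2372) (C.miq (nat_lit 1648867488) (nat_lit 178962951419908887959244545)) (C.cons (nat_lit 2118) (C.node (nat_lit 6) (nat_lit 8) (nat_lit 11) (C.cons (nat_lit 2368) (C.node (nat_lit 2) (nat_lit 9) (nat_lit 11) (C.cons (nat_lit 2596) (C.miq (nat_lit 1951533753) (nat_lit 62876041099508857941790465)) (C.cons (nat_lit 2564) (C.node (nat_lit 2) (nat_lit 5) (nat_lit 11) (C.cons (nat_lit 2340) (C.miq (nat_lit 340921016) (nat_lit 62868994443272700876295937)) C.nil)) C.nil))) C.nil)) (C.cons (nat_lit 2116) (C.node (nat_lit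 1) (nat_lit 6) (nat_lit 11) (C.cons (nat_lit 2370) (C.node (nat_lit 3) (nat_lit 8) (nat_lit 11) (C.cons (nat_lit 2344) (C.miq (nat_lit 927301803) (nat_lit 212814183530908205395742465)) (C.cons (nat_lit 2312) (C.node (nat_lit 5) (nat_lit 8) (nat_lit 11) (C.cons (nat_lit 2340) (C.miq (nat_lit 340921016) (nat_lit 62868994443272700876295937)) C.nil)) C.nil))) (C.cons (nat_lit 2114) (C.node (nat_lit 6) (nat_lit 8) (nat_lit 11) C.nil) C.nil))) C.nil)))) C.nil)) C.nil))) C.nil))) (C.cons (nat_lit 2600) (C.miq (nat_lit 347671123) (nat_lit 3268945064214728436697531433)) (C.cons (nat_lit 2568) (C.node (nat_lit 5) (nat_lit 7) (nat_lit 10) (C.cons (nat_lit 1696) (C.miq (nat_lit 609684393) (nat_lit 212782842986739204446228225)) (C.cons (nat_lit 1188) (C.node (nat_lit 2) (nat_lit 5) (nat_lit 8) (C.cons (nat_lit 2340) (C.miq (nat_lit 340921016) (nat_lit 62868994443272700876295937)) (C.cons (nat_lit 876) (C.miq (nat_lit 337840777) (nat_lit 2510948575316348127203299073))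 (C.cons (nat_lit 868) (C.miq (nat_lit 2222284962) (nat_lit 212786956120892811275142213)) (C.cons (nat_lit 812) (C.miq (nat_lit 337840777) (nat_lit 2510948575316348127199104769)) (C.cons (nat_lit 804) (C.miq (nat_lit 1697122212) (nat_lit 971982576162712421152326803)) (C.cons (nat_lit 364) (C.miq (nat_lit 2222284962) (nat_lit 212777658961879661661127749)) (C.cons (nat_lit 356) (C.miq (nat_lit 2222284962) (nat_lit 212777511387927071984714821))
  (C.cons (nat_lit 300) (C.miq (nat_lit 1697122212) (nat_lit 362683963076939317100414099)) (C.cons (nat_lit 292) (C.miq (nat_lit 1697122212) (nat_lit 353012556520022283702764691)) C.nil)))))))))) (C.cons (nat_lit 1184) (C.node (nat_lit 2) (nat_lit 7) (nat_lit 10) (C.cons (nat_lit 1164) (C.node (nat_lit 6) (nat_lit 7) (nat_lit 10) (C.cons (nat_lit 1728) (C.miq (nat_lit 611715994) (nat_lit 251476733355750573211651841)) (C.cons (nat_lit 1216) (C.node (nat_lit 7) (nat_lit 9) (nat_lit 10) (C.cons (nat_lit 1664) (C.node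 (nat_lit 1) (nat_lit 10) (nat_lit 11) (C.cons (nat_lit 3146) (C.miq (nat_lit 1530481168) (nat_lit 3104531854272008511042552979)) (C.cons (nat_lit 3138) (C.node (nat_lit 3) (nat_lit 10) (nat_lit 11) (C.cons (nat_lit 3080) (C.node (nat_lit 6) (nat_lit 9) (nat_lit 11) (C.cons (nat_lit 2628) (C.miq (nat_lit 2460268039) (nat_lit 1571653446234714171017201889)) (C.cons (nat_lit 2624) (C.node (nat_lit 2) (nat_lit 6) (nat_lit 11) (C.cons (nat_lit 2372) (C.miq (nat_lit 1648867488) (nat_lit 178962951419908887959244545)) (C.cons (nat_lit 2116) (C.node (nat_lit 1) (nat_lit 3) (nat_lit 7) C.nil) C.nil))) C.nil))) C.nil)) (C.cons (nat_lit 3082) (C.miq (nat_lit 1530481168) (nat_lit 3104531854272008236164646035)) (C.cons (nat_lit 3074) (C.node (nat_lit 3) (nat_lit 10) (nat_lit 11) (C.cons (nat_lit 3144) (C.node (nat_lit 3) (nat_lit 4) (nat_lit 10) (C.cons (nat_lit 1560) (C.miq (nat_lit 323094952) (nat_lit 2510943778980494294530658049)) (C.cons (nat_lit 1048) (C.node (nat_lit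 3) (nat_lit 9) (nat_lit 10) C.nil) C.nil))) (C.cons (nat_lit 3080) (C.node (nat_lit 6) (nat_lit 10) (nat_lit 11) (C.cons (nat_lit 3136) (C.node (nat_lit 1) (nat_lit 7) (nat_lit 11) C.nil) C.nil)) C.nil))) C.nil))))) C.nil)) C.nil))) (C.cons (nat_lit 1156) (C.node (nat_lit 1) (nat_lit 10) (nat_lit 11) (C.cons (nat_lit 3146) (C.miq (nat_lit 1530481168) (nat_lit 3104531854272008511042552979)) (C.cons (nat_lit 3138) (C.node (nat_lit 3) (nat_lit 10) (nat_lit 11) (C.cons (nat_lit 3080) (C.node (nat_lit 6) (nat_lit 9) (nat_lit 11) (C.cons (nat_lit 2628) (C.miq (nat_lit 2460268039) (nat_lit 1571653446234714171017201889)) (C.cons (nat_lit 2624) (C.node (nat_lit 2) (nat_lit 6) (nat_lit 11) (C.cons (nat_lit 2372) (C.miq (nat_lit 1648867488) (nat_lit 178962951419908887959244545)) (C.cons (nat_lit 2116) (C.node (nat_lit 1) (nat_lit 9) (nat_lit 10) (C.cons (nat_lit 1574) (C.miq (nat_lit 1497080068) (nat_lit 3104579059054921554193089683)) (C.cons (nat_lit 1570) (C.miq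 (nat_lit 1497080068) (nat_lit 3104579059053795654286247059)) (C.cons (nat_lit 1542) (C.miq (nat_lit 427532806) (nat_lit 3268993302554897773469172805)) (C.cons (nat_lit 1538) (C.node (nat_lit 1) (nat_lit 5) (nat_lit 10) (C.cons (nat_lit 1062) (C.node (nat_lit 2) (nat_lit 5) (nat_lit 11) (C.cons (nat_lit 2596) (C.miq (nat_lit 1951533753) (nat_lit 62876041099508857941790465)) (C.cons (nat_lit 2340) (C.miq (nat_lit 1159834496) (nat_lit 1283900822446258475000860417)) (C.cons (nat_lit 2084) (C.node (nat_lit 2) (nat_lit 8) (nat_lit 11) (C.cons (nat_lit 2436) (C.node (nat_lit 1) (nat_lit 7) (nat_lit 11) C.nil) C.nil)) C.nil)))) (C.cons (nat_lit 1058) (C.node (nat_lit 4) (nat_lit 9) (nat_lit 10) (C.cons (nat_lit 1624) (C.miq (nat_lit 323094952) (nat_lit 2510943778980494569408564993)) (C.cons (nat_lit 1616) (C.node (nat_lit 3) (nat_lit 4) (nat_lit 10) C.nil) (C.cons (nat_lit 1560) (C.miq (nat_lit 323094952) (nat_lit 2510943778980494294530658049)) C.nil)))) C.nil)))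 C.nil))))) C.nil))) C.nil))) C.nil)) (C.cons (nat_lit 3082) (C.miq (nat_lit 1530481168) (nat_lit 3104531854272008236164646035)) (C.cons (nat_lit 3074) (C.node (nat_lit 3) (nat_lit 10) (nat_lit 11) (C.cons (nat_lit 3144) (C.node (nat_lit 3) (nat_lit 4) (nat_lit 10) (C.cons (nat_lit 1560) (C.miq (nat_lit 323094952) (nat_lit 2510943778980494294530658049)) (C.cons (nat_lit 1048) (C.node (nat_lit 6) (nat_lit 7) (nat_lit 10) (C.cons (nat_lit 1728) (C.miq (nat_lit 611715994) (nat_lit 251476733355750573211651841)) (C.cons (nat_lit 1216)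
  (C.node (nat_lit 3) (nat_lit 7) (nat_lit 10) (C.cons (nat_lit 1672) (C.node (nat_lit 4) (nat_lit 6) (nat_lit 10) C.nil) C.nil)) C.nil))) C.nil))) (C.cons (nat_lit 3080) (C.node (nat_lit 6) (nat_lit 10) (nat_lit 11) (C.cons (nat_lit 3136) (C.node (nat_lit 2) (nat_lit 8) (nat_lit 11) (C.cons (nat_lit 2436) (C.node (nat_lit 1) (nat_lit 7) (nat_lit 11) (C.cons (nat_lit 2178) (C.node (nat_lit 2) (nat_lit 5) (nat_lit 7) C.nil) C.nil)) (C.cons (nat_lit 2372) (C.miq (nat_lit 1648867488) (nat_lit 178962951419908887959244545)) (C.cons (nat_lit 2340) (C.miq (nat_lit 340921016) (nat_lit 62868994443272700876295937)) (C.cons (nat_lit 2308) (C.node (nat_lit 2) (nat_lit 7) (nat_lit 11) (C.cons (nat_lit 2182) (C.node (nat_lit 7) (nat_lit 8) (nat_lit 11) C.nil) (C.cons (nat_lit 2180) (C.node (nat_lit 1) (nat_lit 7) (nat_lit 11) C.nil) C.nil))) C.nil))))) C.nil)) C.nil))) C.nil))))) C.nil))) C.nil)))) C.nil)))) List.nil))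

theorem ok12_247 : okL par12 (nat_lit 249) c12_247 (nat_lit 247) = true := by decide +kernel

noncomputable def c12_249 : List C :=
  (List.cons (C.node (nat_lit 3) (nat_lit 9) (nat_lit 11) (C.cons (nat_lit 2632) (C.node (nat_lit 3) (nat_lit 10) (nat_lit 11) (C.cons (nat_lit 3082) (C.miq (nat_lit 1530481168) (nat_lit 3181903106727344503345841299)) (C.cons (nat_lit 3080) (C.node (nat_lit 1) (nat_lit 10) (nat_lit 11) (C.cons (nat_lit 3138) (C.node (nat_lit 1) (nat_lit 9) (nat_lit 10) (C.cons (nat_lit 1574) (C.miq (nat_lit 1497080068) (nat_lit 3181950311510257821374284947)) (C.cons (nat_lit 1570) (C.miq (nat_lit 1497080068) (nat_lit 3181950311509131921467442323)) (C.cons (nat_lit 1542) (C.miq (nat_lit 427532806) (nat_lit 3268993302554897773469172805)) (C.cons (nat_lit 1538) (C.node (nat_lit 2) (nat_lit 6) (nat_lit 11) (C.cons (nat_lit 2372) (C.node (nat_lit 2) (nat_lit 7) (nat_lit 11) (C.cons (nat_lit 2182) (C.miq (nat_lit 1093142454) (nat_lit 317953707441016882568890593))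 (C.cons (nat_lit 2180) (C.node (nat_lit 1) (nat_lit 7) (nat_lit 11) (C.cons (nat_lit 2434) (C.miq (nat_lit 2709653430) (nat_lit 317967653179537689321670881)) (C.cons (nat_lit 2178) (C.node (nat_lit 7) (nat_lit 8) (nat_lit 11) (C.cons (nat_lit 2432) (C.node (nat_lit 1) (nat_lit 2) (nat_lit 11) (C.cons (nat_lit 2054) (C.node (nat_lit 1) (nat_lit 9) (nat_lit 11) C.nil) C.nil)) C.nil)) C.nil))) C.nil))) (C.cons (nat_lit 2116) (C.node (nat_lit 6) (nat_lit 8) (nat_lit 11) (C.cons (nat_lit 2368) (C.node (nat_lit 3) (nat_lit 4) (nat_lit 9) (C.cons (nat_lit 1560) (C.miq (nat_lit 1464011674) (nat_lit 183776371003666370984939265)) (C.cons (nat_lit 792) (C.node (nat_lit 1) (nat_lit 3) (nat_lit 4) (C.cons (nat_lit 122) (C.miq (nat_lit 2585004901) (nat_lit 1415662484473314977800390881)) (C.cons (nat_lit 90) (C.miq (nat_lit 2518332224) (nat_lit 3793680076635535993941985309)) (C.cons (nat_lit 58) (C.miq (nat_lit 1369064203) (nat_lit 1859385464425137439667980317)) (C.cons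 (nat_lit 26) (C.node (nat_lit 3) (nat_lit 4) (nat_lit 5) (C.cons (nat_lit 120) (C.miq (nat_lit 2204865616) (nat_lit 3181963611392619803314291249)) (C.cons (nat_lit 56) (C.node (nat_lit 6) (nat_lit 7) (nat_lit 9) (C.cons (nat_lit 1728) (C.miq (nat_lit 611715994) (nat_lit 251476733355750573211651841)) (C.cons (nat_lit 962) (C.miq (nat_lit 611388312) (nat_lit 1415656986847057289475657473)) (C.cons (nat_lit 960) (C.miq (nat_lit 1766553648) (nat_lit 3268977345957456209608769929)) (C.cons (nat_lit 706) (C.miq (nat_lit 1133579111) (nat_lit 632289805380396203284498657)) (C.cons (nat_lit 704) (C.node (nat_lit 7) (nat_lit 8) (nat_lit 9) (C.cons (nat_lit 930) (C.miq (nat_lit 611388312) (nat_lit 1415656986847057289473560321)) (C.cons (nat_lit 928) (C.miq (nat_lit 1498118192) (nat_lit 3268977345948449010354028937)) (C.cons (nat_lit 898) (C.miq (nat_lit 611388312) (nat_lit 1415656986847057289471463169)) (C.cons (nat_lit 896) (C.node (nat_lit 1) (nat_lit 4) (nat_lit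 8) (C.cons (nat_lit 306) (C.node (nat_lit 4) (nat_lit 5) (nat_lit 7) (C.cons (nat_lit 180) (C.miq (nat_lit 2588019543) (nat_lit 1262130454908759186909432033)) C.nil)) (C.cons (nat_lit 274) (C.node (nat_lit 3) (nat_lit 4) (nat_lit 6) (C.cons (nat_lit 88) (C.node (nat_lit 3) (nat_lit 4) (nat_lit 10) (C.cons (nat_lit 1048) (C.node (nat_lit 4) (nat_lit 6) (nat_lit 10) C.nil) C.nil)) C.nil)) C.nil))) C.nil))))) C.nil)))))) C.nil))) C.nil))))) (C.cons (nat_lit 536) (C.node (nat_lit 3) (nat_lit 4) (nat_lit 10) (C.cons (nat_lit 1112) (C.node (nat_lit 4) (nat_lit 9) (nat_lit 10) (C.cons (nat_lit 1552) (C.node (nat_lit 1) (nat_lit 2) (nat_lit 10) (C.cons (nat_lit 1062) (C.node (nat_lit 2) (nat_lit 5) (nat_lit 11) (C.cons (nat_lit 2596) (C.miq (nat_lit 732403008) (nat_lit 3868574521647463341636125233)) (C.cons (nat_lit 2340) (C.miq (nat_lit 1159834496) (nat_lit 1283900822446258475000860417)) (C.cons (nat_lit 2084) (C.node (nat_lit 5) (nat_lit 7) (nat_lit 10) (C.cons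 (nat_lit 1696) (C.miq (nat_lit 1397203129) (nat_lit 183788010559152416976015105)) (C.cons (nat_lit 1440) (C.miq (nat_lit 1463068683) (nat_lit 183814278828259262877994753)) (C.cons (nat_lit 1184) (C.node (nat_lit 1) (nat_lit 3) (nat_lit 4)
  (C.cons (nat_lit 314) (C.miq (nat_lit 2589002563) (nat_lit 1283888869159045519497627677)) (C.cons (nat_lit 282) (C.miq (nat_lit 975259144) (nat_lit 1283884422725569838150254929)) (C.cons (nat_lit 58) (C.miq (nat_lit 2589002563) (nat_lit 1283888869159045519480850461)) (C.cons (nat_lit 26) (C.node (nat_lit 3) (nat_lit 4) (nat_lit 5) C.nil) C.nil))))) C.nil)))) C.nil)))) (C.cons (nat_lit 1038) (C.miq (nat_lit 2258699314) (nat_lit 3793614073539259579063207965)) (C.cons (nat_lit 1030) (C.node (nat_lit 1) (nat_lit 3) (nat_lit 4) (C.cons (nat_lit 314) (C.miq (nat_lit 1369064203) (nat_lit 1859385464497195033705908253)) (C.cons (nat_lit 282) (C.miq (nat_lit 975259144) (nat_lit 1245198796497901704559657297)) (C.cons (nat_lit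 58) (C.miq (nat_lit 1369064203) (nat_lit 1859385464425137439667980317)) (C.cons (nat_lit 26) (C.node (nat_lit 3) (nat_lit 4) (nat_lit 5) (C.cons (nat_lit 56) (C.node (nat_lit 3) (nat_lit 4) (nat_lit 8) (C.cons (nat_lit 280) (C.node (nat_lit 1) (nat_lit 4) (nat_lit 8) C.nil) C.nil)) C.nil)) C.nil))))) C.nil)))) C.nil)) (C.cons (nat_lit 1048) (C.node (nat_lit 4) (nat_lit 6) (nat_lit 10) (C.cons (nat_lit 1616) (C.node (nat_lit 7) (nat_lit 9) (nat_lit 10) (C.cons (nat_lit 1696) (C.miq (nat_lit 1397203129) (nat_lit 183788010559152416976015105)) (C.cons (nat_lit 1672) (C.miq (nat_lit 2207647652) (nat_lit 3181898973889083675084063891)) (C.cons (nat_lit 1664) (C.node (nat_lit 3) (nat_lit 7) (nat_lit 9) (C.cons (nat_lit 680) (C.node (nat_lit 3) (nat_lit 9) (nat_lit 10) (C.cons (nat_lit 1548) (C.miq (nat_lit 1698301842) (nat_lit 1287526160820648178344526469)) (C.cons (nat_lit 1544) (C.node (nat_lit 1) (nat_lit 7) (nat_lit 9) (C.cons (nat_lit 962) (C.miq (nat_lit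 611388312) (nat_lit 1415656986847057289475657473)) (C.cons (nat_lit 898) (C.miq (nat_lit 611388312) (nat_lit 1415656986847057289471463169)) (C.cons (nat_lit 706) (C.miq (nat_lit 1133579111) (nat_lit 632289805380396203284498657)) (C.cons (nat_lit 642) (C.node (nat_lit 2) (nat_lit 3) (nat_lit 9) (C.cons (nat_lit 780) (C.node (nat_lit 2) (nat_lit 4) (nat_lit 9) (C.cons (nat_lit 534) (C.miq (nat_lit 2266574914) (nat_lit 776144764763594118900615197)) (C.cons (nat_lit 532) (C.node (nat_lit 1) (nat_lit 4) (nat_lit 9) C.nil) C.nil))) (C.cons (nat_lit 524) (C.node (nat_lit 3) (nat_lit 8) (nat_lit 9) (C.cons (nat_lit 776) (C.node (nat_lit 2) (nat_lit 9) (nat_lit 10) (C.cons (nat_lit 1572) (C.node (nat_lit 5) (nat_lit 7) (nat_lit 10) (C.cons (nat_lit 1440) (C.miq (nat_lit 1165212288) (nat_lit 822107872103597045654818561)) C.nil)) (C.cons (nat_lit 1540) (C.node (nat_lit 5) (nat_lit 9) (nat_lit 10) C.nil) C.nil))) C.nil)) C.nil))) C.nil))))) C.nil))) (C.cons (nat_lit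 648) (C.node (nat_lit 3) (nat_lit 9) (nat_lit 10) (C.cons (nat_lit 1548) (C.node (nat_lit 5) (nat_lit 9) (nat_lit 10) (C.cons (nat_lit 1568) (C.node (nat_lit 1) (nat_lit 2) (nat_lit 10) (C.cons (nat_lit 1062) (C.node (nat_lit 5) (nat_lit 7) (nat_lit 10) (C.cons (nat_lit 1440) (C.miq (nat_lit 1463068683) (nat_lit 183814278828259262877994753)) C.nil)) C.nil)) C.nil)) (C.cons (nat_lit 1544) (C.node (nat_lit 2) (nat_lit 9) (nat_lit 10) (C.cons (nat_lit 1572) (C.node (nat_lit 5) (nat_lit 7) (nat_lit 10) (C.cons (nat_lit 1440) (C.miq (nat_lit 1463068683) (nat_lit 183814278828259262877994753)) C.nil)) (C.cons (nat_lit 1540) (C.node (nat_lit 5) (nat_lit 9) (nat_lit 10) (C.cons (nat_lit 1568) (C.node (nat_lit 5) (nat_lit 6) (nat_lit 10) (C.cons (nat_lit 1120) (C.node (nat_lit 1) (nat_lit 2) (nat_lit 10) C.nil) C.nil)) C.nil)) C.nil))) C.nil))) C.nil))) C.nil)))) (C.cons (nat_lit 1104) (C.node (nat_lit 4) (nat_lit 9) (nat_lit 10) (C.cons (nat_lit 1552) (C.node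 (nat_lit 6) (nat_lit 9) (nat_lit 10) (C.cons (nat_lit 1728) (C.miq (nat_lit 611715994) (nat_lit 251476733355750573211651841)) (C.cons (nat_lit 1632) (C.node (nat_lit 2) (nat_lit 9) (nat_lit 10) (C.cons (nat_lit 1548) (C.miq (nat_lit 1497066016) (nat_lit 3181934687134357340374762565)) (C.cons (nat_lit 1540) (C.node (nat_lit 4) (nat_lit 8) (nat_lit 9) C.nil) C.nil)))
  (C.cons (nat_lit 1600) (C.node (nat_lit 5) (nat_lit 6) (nat_lit 10) (C.cons (nat_lit 1376) (C.node (nat_lit 3) (nat_lit 6) (nat_lit 10) C.nil) (C.cons (nat_lit 1120) (C.node (nat_lit 3) (nat_lit 6) (nat_lit 10) (C.cons (nat_lit 1096) (C.node (nat_lit 6) (nat_lit 7) (nat_lit 10) C.nil) C.nil)) C.nil))) C.nil)))) C.nil)) C.nil))) C.nil))) C.nil)))) C.nil)) C.nil))) C.nil))))) (C.cons (nat_lit 3074) (C.node (nat_lit 6) (nat_lit 10) (nat_lit 11) (C.cons (nat_lit 3136) (C.node (nat_lit 3) (nat_lit 4) (nat_lit 9) (C.cons (nat_lit 1560) (C.miq (nat_lit 1464011674) (nat_lit 183776371003666370984939265))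 (C.cons (nat_lit 792) (C.node (nat_lit 1) (nat_lit 3) (nat_lit 4) (C.cons (nat_lit 122) (C.miq (nat_lit 1402683658) (nat_lit 3181950311101556155306017939)) (C.cons (nat_lit 90) (C.miq (nat_lit 2875459889) (nat_lit 2572615746358397887565136395)) (C.cons (nat_lit 58) (C.miq (nat_lit 1402683658) (nat_lit 3181950311083541756796535955)) (C.cons (nat_lit 26) (C.node (nat_lit 3) (nat_lit 4) (nat_lit 5) (C.cons (nat_lit 120) (C.miq (nat_lit 2204865616) (nat_lit 3181963611392619803314291249)) (C.cons (nat_lit 56) (C.node (nat_lit 6) (nat_lit 7) (nat_lit 9) (C.cons (nat_lit 1728) (C.miq (nat_lit 611715994) (nat_lit 251476733355750573211651841)) (C.cons (nat_lit 962) (C.miq (nat_lit 611388312) (nat_lit 1415656986847057289475657473)) (C.cons (nat_lit 960) (C.miq (nat_lit 1766553648) (nat_lit 3268977345957456209608769929)) (C.cons (nat_lit 706) (C.miq (nat_lit 1133579111) (nat_lit 632289805380396203284498657)) (C.cons (nat_lit 704) (C.node (nat_lit 7) (nat_lit 8)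 (nat_lit 9) (C.cons (nat_lit 930) (C.miq (nat_lit 611388312) (nat_lit 1415656986847057289473560321)) (C.cons (nat_lit 928) (C.miq (nat_lit 1498118192) (nat_lit 3268977345948449010354028937)) (C.cons (nat_lit 898) (C.miq (nat_lit 611388312) (nat_lit 1415656986847057289471463169)) (C.cons (nat_lit 896) (C.node (nat_lit 1) (nat_lit 4) (nat_lit 8) (C.cons (nat_lit 306) (C.node (nat_lit 4) (nat_lit 5) (nat_lit 7) (C.cons (nat_lit 180) (C.miq (nat_lit 2588019543) (nat_lit 1262130454908759186909432033)) (C.cons (nat_lit 176) (C.node (nat_lit 1) (nat_lit 3) (nat_lit 11) C.nil) C.nil))) (C.cons (nat_lit 274) (C.node (nat_lit 1) (nat_lit 7) (nat_lit 9) (C.cons (nat_lit 674) (C.node (nat_lit 3) (nat_lit 5) (nat_lit 9) (C.cons (nat_lit 556) (C.miq (nat_lit 355760416) (nat_lit 67721447225446070109405829)) (C.cons (nat_lit 552) (C.node (nat_lit 2) (nat_lit 3) (nat_lit 9) (C.cons (nat_lit 1548) (C.miq (nat_lit 1647577752) (nat_lit 2510945144199996434189651713)) (C.cons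 (nat_lit 524) (C.node (nat_lit 5) (nat_lit 9) (nat_lit 11) (C.cons (nat_lit 2596) (C.miq (nat_lit 2778155808) (nat_lit 814837604435783454751524893)) (C.cons (nat_lit 2592) (C.node (nat_lit 3) (nat_lit 4) (nat_lit 6) C.nil) C.nil))) C.nil))) C.nil))) (C.cons (nat_lit 642) (C.node (nat_lit 5) (nat_lit 7) (nat_lit 9) (C.cons (nat_lit 1696) (C.miq (nat_lit 1397203129) (nat_lit 183788010559152416976015105)) (C.cons (nat_lit 680) (C.miq (nat_lit 1687488567) (nat_lit 678249314347946977631142281)) (C.cons (nat_lit 672) (C.node (nat_lit 3) (nat_lit 4) (nat_lit 6) (C.cons (nat_lit 1112) (C.node (nat_lit 4) (nat_lit 9) (nat_lit 10) C.nil) (C.cons (nat_lit 88) (C.node (nat_lit 3) (nat_lit 4) (nat_lit 10) (C.cons (nat_lit 1048) (C.node (nat_lit 4) (nat_lit 6) (nat_lit 10) C.nil) C.nil)) C.nil))) C.nil)))) C.nil))) C.nil))) C.nil))))) C.nil)))))) C.nil))) C.nil))))) (C.cons (nat_lit 536) (C.node (nat_lit 3) (nat_lit 4) (nat_lit 10) (C.cons (nat_lit 1112) (C.node (nat_lit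 4) (nat_lit 9) (nat_lit 10) (C.cons (nat_lit 1552) (C.node (nat_lit 6) (nat_lit 7) (nat_lit 10) (C.cons (nat_lit 1728) (C.miq (nat_lit 611715994) (nat_lit 251476733355750573211651841)) (C.cons (nat_lit 1472) (C.node (nat_lit 6) (nat_lit 7) (nat_lit 9) (C.cons (nat_lit 706) (C.miq (nat_lit 1133579111) (nat_lit 632289805380396203284498657)) (C.cons (nat_lit 704) (C.node (nat_lit 3) (nat_lit 6) (nat_lit 7) (C.cons (nat_lit 206)
  (C.miq (nat_lit 2838563687) (nat_lit 632289805876918062169327841)) (C.cons (nat_lit 204) (C.miq (nat_lit 3126986867) (nat_lit 1321394235807382490443415945)) (C.cons (nat_lit 202) (C.miq (nat_lit 2838563687) (nat_lit 632289805876918062169065697)) (C.cons (nat_lit 200) (C.node (nat_lit 1) (nat_lit 6) (nat_lit 7) (C.cons (nat_lit 198) (C.node (nat_lit 1) (nat_lit 6) (nat_lit 11) (C.cons (nat_lit 2370) (C.miq (nat_lit 2551319399) (nat_lit 317959389789730580239616225)) (C.cons (nat_lit 2114) (C.node (nat_lit 2) (nat_lit 6) (nat_lit 11)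 (C.cons (nat_lit 2372) (C.miq (nat_lit 908172160) (nat_lit 239376960671699453069430529)) C.nil)) C.nil))) (C.cons (nat_lit 194) (C.node (nat_lit 2) (nat_lit 6) (nat_lit 7) (C.cons (nat_lit 196) (C.node (nat_lit 2) (nat_lit 6) (nat_lit 11) (C.cons (nat_lit 2372) (C.miq (nat_lit 645183648) (nat_lit 251494885034948930103873281)) (C.cons (nat_lit 2118) (C.node (nat_lit 6) (nat_lit 8) (nat_lit 11) C.nil) C.nil))) C.nil)) C.nil))) C.nil))))) C.nil))) (C.cons (nat_lit 1216) (C.node (nat_lit 7) (nat_lit 9) (nat_lit 10) (C.cons (nat_lit 1696) (C.miq (nat_lit 1397203129) (nat_lit 183788010559152416976015105)) (C.cons (nat_lit 1672) (C.node (nat_lit 1) (nat_lit 3) (nat_lit 4) (C.cons (nat_lit 314) (C.miq (nat_lit 1402683658) (nat_lit 3181950311155599350834463891)) (C.cons (nat_lit 282) (C.node (nat_lit 3) (nat_lit 4) (nat_lit 5) (C.cons (nat_lit 56) (C.node (nat_lit 1) (nat_lit 3) (nat_lit 11) C.nil) C.nil)) (C.cons (nat_lit 58) (C.miq (nat_lit 1402683658) (nat_lit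 3181950311083541756796535955)) (C.cons (nat_lit 26) (C.node (nat_lit 3) (nat_lit 4) (nat_lit 5) (C.cons (nat_lit 312) (C.node (nat_lit 3) (nat_lit 5) (nat_lit 11) C.nil) (C.cons (nat_lit 56) (C.node (nat_lit 3) (nat_lit 4) (nat_lit 8) (C.cons (nat_lit 280) (C.node (nat_lit 1) (nat_lit 4) (nat_lit 8) C.nil) C.nil)) C.nil))) C.nil))))) (C.cons (nat_lit 1664) (C.node (nat_lit 3) (nat_lit 7) (nat_lit 9) (C.cons (nat_lit 680) (C.node (nat_lit 3) (nat_lit 9) (nat_lit 10) (C.cons (nat_lit 1548) (C.miq (nat_lit 1403418912) (nat_lit 1344367441052156816928342661)) (C.cons (nat_lit 1544) (C.node (nat_lit 1) (nat_lit 7) (nat_lit 9) (C.cons (nat_lit 962) (C.miq (nat_lit 611388312) (nat_lit 1415656986847057289475657473)) (C.cons (nat_lit 898) (C.miq (nat_lit 611388312) (nat_lit 1415656986847057289471463169)) (C.cons (nat_lit 706) (C.miq (nat_lit 1133579111) (nat_lit 632289805380396203284498657)) (C.cons (nat_lit 642) (C.node (nat_lit 2) (nat_lit 3) (nat_lit 9) (C.cons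 (nat_lit 780) (C.node (nat_lit 3) (nat_lit 8) (nat_lit 10) (C.cons (nat_lit 1290) (C.miq (nat_lit 2033844865) (nat_lit 1866603066803852469768683783)) (C.cons (nat_lit 1288) (C.node (nat_lit 1) (nat_lit 3) (nat_lit 10) (C.cons (nat_lit 1038) (C.miq (nat_lit 1663584784) (nat_lit 942968356165168228685251731)) C.nil)) C.nil))) (C.cons (nat_lit 524) (C.node (nat_lit 3) (nat_lit 8) (nat_lit 9) (C.cons (nat_lit 776) (C.node (nat_lit 3) (nat_lit 7) (nat_lit 10) (C.cons (nat_lit 1164) (C.node (nat_lit 1) (nat_lit 3) (nat_lit 11) (C.cons (nat_lit 2346) (C.miq (nat_lit 1161276288) (nat_lit 822091159353470156041424641)) C.nil)) (C.cons (nat_lit 1160) (C.node (nat_lit 1) (nat_lit 3) (nat_lit 11) (C.cons (nat_lit 2346) (C.miq (nat_lit 1161276288) (nat_lit 822091159353470156041424641)) C.nil)) C.nil))) C.nil)) C.nil))) C.nil))))) C.nil))) (C.cons (nat_lit 648) (C.node (nat_lit 3) (nat_lit 7) (nat_lit 10) (C.cons (nat_lit 1164) (C.node (nat_lit 3) (nat_lit 9) (nat_lit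 10) (C.cons (nat_lit 1544) (C.node (nat_lit 1) (nat_lit 3) (nat_lit 10) (C.cons (nat_lit 1034) (C.node (nat_lit 3) (nat_lit 8) (nat_lit 10) C.nil) C.nil)) C.nil)) (C.cons (nat_lit 1160) (C.node (nat_lit 3) (nat_lit 9) (nat_lit 10) (C.cons (nat_lit 1548) (C.node (nat_lit 1) (nat_lit 2) (nat_lit 10) (C.cons (nat_lit 1030) (C.node (nat_lit 1) (nat_lit 3) (nat_lit 10) C.nil) C.nil)) (C.cons (nat_lit 1544) (C.node (nat_lit 6) (nat_lit 9) (nat_lit 10) (C.cons (nat_lit 1634) (C.miq (nat_lit 339124409) (nat_lit 1344355653720900202228354817))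
  (C.cons (nat_lit 1632) (C.node (nat_lit 1) (nat_lit 6) (nat_lit 10) C.nil) (C.cons (nat_lit 1602) (C.miq (nat_lit 339124409) (nat_lit 1344355063425089843522703105)) C.nil)))) C.nil))) C.nil))) C.nil))) C.nil)))) C.nil)))) C.nil)) (C.cons (nat_lit 1048) (C.node (nat_lit 4) (nat_lit 6) (nat_lit 10) (C.cons (nat_lit 1616) (C.node (nat_lit 7) (nat_lit 9) (nat_lit 10) (C.cons (nat_lit 1696) (C.miq (nat_lit 1397203129) (nat_lit 183788010559152416976015105)) (C.cons (nat_lit 1672) (C.miq (nat_lit 2207647652) (nat_lit 3181898973889083675084063891)) (C.cons (nat_lit 1664) (C.node (nat_lit 3) (nat_lit 7) (nat_lit 9) (C.cons (nat_lit 680) (C.node (nat_lit 3) (nat_lit 9) (nat_lit 10) (C.cons (nat_lit 1548) (C.miq (nat_lit 1698301842) (nat_lit 1287526160820648178344526469)) (C.cons (nat_lit 1544) (C.node (nat_lit 1) (nat_lit 7) (nat_lit 9) (C.cons (nat_lit 962) (C.miq (nat_lit 611388312) (nat_lit 1415656986847057289475657473)) (C.cons (nat_lit 898) (C.miq (nat_lit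 611388312) (nat_lit 1415656986847057289471463169)) (C.cons (nat_lit 706) (C.miq (nat_lit 1133579111) (nat_lit 632289805380396203284498657)) (C.cons (nat_lit 642) (C.node (nat_lit 2) (nat_lit 3) (nat_lit 9) (C.cons (nat_lit 780) (C.node (nat_lit 2) (nat_lit 4) (nat_lit 9) (C.cons (nat_lit 534) (C.miq (nat_lit 2266574914) (nat_lit 776144764763594118900615197)) (C.cons (nat_lit 532) (C.node (nat_lit 1) (nat_lit 4) (nat_lit 9) (C.cons (nat_lit 786) (C.miq (nat_lit 1770169360) (nat_lit 942982302045550259036685459)) (C.cons (nat_lit 530) (C.node (nat_lit 4) (nat_lit 8) (nat_lit 9) (C.cons (nat_lit 784) (C.node (nat_lit 1) (nat_lit 6) (nat_lit 11) C.nil) C.nil)) C.nil))) C.nil))) (C.cons (nat_lit 524) (C.node (nat_lit 3) (nat_lit 8) (nat_lit 9) (C.cons (nat_lit 776) (C.node (nat_lit 6) (nat_lit 7) (nat_lit 9) (C.cons (nat_lit 960) (C.node (nat_lit 4) (nat_lit 8) (nat_lit 9) (C.cons (nat_lit 788) (C.miq (nat_lit 1749776672) (nat_lit 2804749831225438589341729413))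 (C.cons (nat_lit 786) (C.miq (nat_lit 647498305) (nat_lit 1160573638631394483593413779)) (C.cons (nat_lit 784) (C.node (nat_lit 1) (nat_lit 9) (nat_lit 11) (C.cons (nat_lit 2598) (C.miq (nat_lit 2778155808) (nat_lit 822091159353471238389696541)) C.nil)) C.nil)))) (C.cons (nat_lit 704) (C.node (nat_lit 7) (nat_lit 8) (nat_lit 9) (C.cons (nat_lit 896) (C.node (nat_lit 2) (nat_lit 9) (nat_lit 11) (C.cons (nat_lit 2598) (C.miq (nat_lit 2778155808) (nat_lit 822091159353471238389696541)) (C.cons (nat_lit 2596) (C.miq (nat_lit 2778155808) (nat_lit 822091159353471229799761949)) (C.cons (nat_lit 2566) (C.node (nat_lit 5) (nat_lit 9) (nat_lit 11) C.nil) C.nil)))) C.nil)) C.nil))) C.nil)) C.nil))) C.nil))))) C.nil))) (C.cons (nat_lit 648) (C.node (nat_lit 3) (nat_lit 9) (nat_lit 10) (C.cons (nat_lit 1548) (C.node (nat_lit 1) (nat_lit 9) (nat_lit 10) (C.cons (nat_lit 1570) (C.miq (nat_lit 1497080068) (nat_lit 3181950311509131921467442323)) (C.cons (nat_lit 1538)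 (C.node (nat_lit 5) (nat_lit 9) (nat_lit 10) (C.cons (nat_lit 1568) (C.node (nat_lit 1) (nat_lit 2) (nat_lit 10) (C.cons (nat_lit 1030) (C.node (nat_lit 3) (nat_lit 7) (nat_lit 10) C.nil) C.nil)) C.nil)) C.nil))) (C.cons (nat_lit 1544) (C.node (nat_lit 2) (nat_lit 4) (nat_lit 7) (C.cons (nat_lit 436) (C.miq (nat_lit 2588019543) (nat_lit 1262130454908759186926209249)) (C.cons (nat_lit 404) (C.node (nat_lit 4) (nat_lit 5) (nat_lit 7) (C.cons (nat_lit 176) (C.node (nat_lit 2) (nat_lit 7) (nat_lit 11) C.nil) C.nil)) (C.cons (nat_lit 180) (C.miq (nat_lit 2588019543) (nat_lit 1262130454908759186909432033)) (C.cons (nat_lit 148) (C.node (nat_lit 4) (nat_lit 5) (nat_lit 7) (C.cons (nat_lit 432) (C.node (nat_lit 1) (nat_lit 6) (nat_lit 11) C.nil) (C.cons (nat_lit 176) (C.node (nat_lit 4) (nat_lit 7) (nat_lit 8) (C.cons (nat_lit 400) (C.node (nat_lit 1) (nat_lit 4) (nat_lit 9) C.nil) C.nil)) C.nil))) C.nil))))) C.nil))) C.nil))) C.nil)))) (C.cons (nat_lit 1104)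 (C.node (nat_lit 4) (nat_lit 9) (nat_lit 10) (C.cons (nat_lit 1552) (C.node (nat_lit 2) (nat_lit 4) (nat_lit 7)
  (C.cons (nat_lit 436) (C.miq (nat_lit 2588019543) (nat_lit 1262130454908759186926209249)) (C.cons (nat_lit 404) (C.node (nat_lit 4) (nat_lit 5) (nat_lit 7) (C.cons (nat_lit 176) (C.node (nat_lit 4) (nat_lit 8) (nat_lit 9) C.nil) C.nil)) (C.cons (nat_lit 180) (C.miq (nat_lit 2588019543) (nat_lit 1262130454908759186909432033)) (C.cons (nat_lit 148) (C.node (nat_lit 4) (nat_lit 5) (nat_lit 7) (C.cons (nat_lit 432) (C.node (nat_lit 2) (nat_lit 4) (nat_lit 8) C.nil) C.nil)) C.nil))))) C.nil)) C.nil))) C.nil))) C.nil)))) C.nil)) C.nil))) C.nil))) (C.cons (nat_lit 2600) (C.miq (nat_lit 347671123) (nat_lit 3268945064214728436697531433)) (C.cons (nat_lit 2568) (C.node (nat_lit 1) (nat_lit 10) (nat_lit 11) (C.cons (nat_lit 3146) (C.miq (nat_lit 1530481168) (nat_lit 3104531854272008511042552979)) (C.cons (nat_lit 3138) (C.node (nat_lit 3) (nat_lit 10)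 (nat_lit 11) (C.cons (nat_lit 3080) (C.node (nat_lit 6) (nat_lit 9) (nat_lit 11) (C.cons (nat_lit 2628) (C.miq (nat_lit 2460268039) (nat_lit 1262168436413369102292420833)) (C.cons (nat_lit 2624) (C.node (nat_lit 1) (nat_lit 9) (nat_lit 10) (C.cons (nat_lit 1574) (C.miq (nat_lit 1497080068) (nat_lit 3104579059054921554193089683)) (C.cons (nat_lit 1570) (C.miq (nat_lit 1497080068) (nat_lit 3104579059053795654286247059)) (C.cons (nat_lit 1542) (C.miq (nat_lit 427532806) (nat_lit 3268993302554897773469172805)) (C.cons (nat_lit 1538) (C.node (nat_lit 2) (nat_lit 6) (nat_lit 11) (C.cons (nat_lit 2372) (C.node (nat_lit 3) (nat_lit 6) (nat_lit 11) (C.cons (nat_lit 2120) (C.node (nat_lit 2) (nat_lit 7) (nat_lit 11) (C.cons (nat_lit 2182) (C.miq (nat_lit 1093142454) (nat_lit 317953707441016882568890593)) (C.cons (nat_lit 2180) (C.node (nat_lit 1) (nat_lit 7) (nat_lit 11) (C.cons (nat_lit 2434) (C.miq (nat_lit 2709653430) (nat_lit 317967653179537689321670881)) C.nil))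 C.nil))) C.nil)) (C.cons (nat_lit 2116) (C.node (nat_lit 3) (nat_lit 6) (nat_lit 11) (C.cons (nat_lit 2376) (C.node (nat_lit 6) (nat_lit 7) (nat_lit 10) (C.cons (nat_lit 1736) (C.miq (nat_lit 372747136) (nat_lit 2098716824871585242960957185)) (C.cons (nat_lit 1728) (C.miq (nat_lit 611715994) (nat_lit 251476733355750573211651841)) (C.cons (nat_lit 1472) (C.miq (nat_lit 913619104) (nat_lit 251494885036074830010715905)) (C.cons (nat_lit 1224) (C.miq (nat_lit 372747136) (nat_lit 1479746805228895105511395073)) (C.cons (nat_lit 1216) (C.node (nat_lit 3) (nat_lit 6) (nat_lit 7) (C.cons (nat_lit 712) (C.miq (nat_lit 372747136) (nat_lit 860776785586204968061832961)) (C.cons (nat_lit 206) (C.miq (nat_lit 698446006) (nat_lit 1859331710778146712019142881)) (C.cons (nat_lit 204) (C.miq (nat_lit 372747136) (nat_lit 246642469221973347311095553)) (C.cons (nat_lit 202) (C.node (nat_lit 6) (nat_lit 7) (nat_lit 9) (C.cons (nat_lit 960) (C.miq (nat_lit 593955721) (nat_lit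 244214914296716367484686081)) (C.cons (nat_lit 704) (C.node (nat_lit 1) (nat_lit 3) (nat_lit 10) (C.cons (nat_lit 1290) (C.node (nat_lit 1) (nat_lit 3) (nat_lit 4) (C.cons (nat_lit 58) (C.miq (nat_lit 1369064203) (nat_lit 1859385464425137439667980317)) (C.cons (nat_lit 26) (C.node (nat_lit 7) (nat_lit 9) (nat_lit 10) (C.cons (nat_lit 1696) (C.miq (nat_lit 1397203129) (nat_lit 183788010559152416976015105)) (C.cons (nat_lit 1672) (C.miq (nat_lit 657525160) (nat_lit 244207867237405020150959873)) (C.cons (nat_lit 1664) (C.node (nat_lit 7) (nat_lit 8) (nat_lit 10) (C.cons (nat_lit 1444) (C.miq (nat_lit 1463068683) (nat_lit 183814278829385162784837377)) (C.cons (nat_lit 1440) (C.miq (nat_lit 1463068683) (nat_lit 183814278828259262877994753)) (C.cons (nat_lit 1412) (C.miq (nat_lit 706312240) (nat_lit 1859339809114675421016424841)) (C.cons (nat_lit 1408) (C.node (nat_lit 6) (nat_lit 8) (nat_lit 10) (C.cons (nat_lit 1376) (C.node (nat_lit 2) (nat_lit 8) (nat_lit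 10) C.nil) C.nil)) C.nil))))) C.nil)))) C.nil))) (C.cons (nat_lit 1038) (C.miq (nat_lit 2316503911) (nat_lit 1254872251411564914365040865)) (C.cons (nat_lit 1034)
  (C.miq (nat_lit 2316503911) (nat_lit 1250036548133106397666216161)) C.nil)))) C.nil))) (C.cons (nat_lit 200) (C.miq (nat_lit 372747136) (nat_lit 241806765943514830612270849)) C.nil)))))) C.nil)))))) (C.cons (nat_lit 2120) (C.node (nat_lit 6) (nat_lit 8) (nat_lit 11) C.nil) C.nil))) C.nil))) C.nil))))) C.nil))) C.nil)) (C.cons (nat_lit 3082) (C.miq (nat_lit 1530481168) (nat_lit 3104531854272008236164646035)) (C.cons (nat_lit 3074) (C.node (nat_lit 3) (nat_lit 10) (nat_lit 11) (C.cons (nat_lit 3144) (C.node (nat_lit 3) (nat_lit 4) (nat_lit 10) (C.cons (nat_lit 1560) (C.miq (nat_lit 1464011674) (nat_lit 183776371003666370984939265)) (C.cons (nat_lit 1048) (C.node (nat_lit 4) (nat_lit 6) (nat_lit 10) (C.cons (nat_lit 1616) (C.node (nat_lit 3) (nat_lit 4) (nat_lit 9) (C.cons (nat_lit 792) (C.node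 (nat_lit 3) (nat_lit 9) (nat_lit 10) (C.cons (nat_lit 1672) (C.miq (nat_lit 1748582522) (nat_lit 957499059168068176185918611)) (C.cons (nat_lit 1548) (C.miq (nat_lit 1647577752) (nat_lit 2510945144199996434189651713)) (C.cons (nat_lit 1544) (C.node (nat_lit 7) (nat_lit 9) (nat_lit 10) (C.cons (nat_lit 1696) (C.miq (nat_lit 1397203129) (nat_lit 183788010559152416976015105)) (C.cons (nat_lit 1664) (C.node (nat_lit 1) (nat_lit 9) (nat_lit 10) (C.cons (nat_lit 1574) (C.miq (nat_lit 1497080068) (nat_lit 3104579059054921554193089683)) (C.cons (nat_lit 1570) (C.miq (nat_lit 1497080068) (nat_lit 3104579059053795654286247059)) (C.cons (nat_lit 1542) (C.miq (nat_lit 407445610) (nat_lit 957497694088177332880671813)) (C.cons (nat_lit 1538) (C.node (nat_lit 3) (nat_lit 4) (nat_lit 5) (C.cons (nat_lit 122) (C.miq (nat_lit 2739517008) (nat_lit 957540103963731275556128993)) (C.cons (nat_lit 120) (C.miq (nat_lit 2739517008) (nat_lit 957540103963731266966194401)) (C.cons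 (nat_lit 58) (C.miq (nat_lit 1369064203) (nat_lit 1859385464425137439667980317)) (C.cons (nat_lit 56) (C.node (nat_lit 7) (nat_lit 8) (nat_lit 9) (C.cons (nat_lit 962) (C.miq (nat_lit 611388312) (nat_lit 1415656986847057289475657473)) (C.cons (nat_lit 960) (C.miq (nat_lit 1766553648) (nat_lit 3268977345957456209608769929)) (C.cons (nat_lit 930) (C.miq (nat_lit 611388312) (nat_lit 1415656986847057289473560321)) (C.cons (nat_lit 928) (C.miq (nat_lit 1498118192) (nat_lit 3268977345948449010354028937)) (C.cons (nat_lit 898) (C.miq (nat_lit 611388312) (nat_lit 1415656986847057289471463169)) (C.cons (nat_lit 896) (C.node (nat_lit 1) (nat_lit 3) (nat_lit 4) (C.cons (nat_lit 90) (C.node (nat_lit 3) (nat_lit 8) (nat_lit 11) (C.cons (nat_lit 2346) (C.miq (nat_lit 640748216) (nat_lit 108808175566673664411307777)) (C.cons (nat_lit 2344) (C.miq (nat_lit 1951599288) (nat_lit 67707095798460799817092865)) (C.cons (nat_lit 2314) (C.miq (nat_lit 640748216) (nat_lit 108808175566673664409210625))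 (C.cons (nat_lit 2312) (C.node (nat_lit 6) (nat_lit 8) (nat_lit 9) (C.cons (nat_lit 868) (C.miq (nat_lit 558268585) (nat_lit 108819335613205554001874689)) (C.cons (nat_lit 866) (C.miq (nat_lit 1748719936) (nat_lit 2795078424642062925313147441)) (C.cons (nat_lit 864) (C.miq (nat_lit 1748719936) (nat_lit 2795078424641499975359726129)) (C.cons (nat_lit 836) (C.miq (nat_lit 558268585) (nat_lit 108818745317395195296222977)) (C.cons (nat_lit 834) (C.miq (nat_lit 3105032292) (nat_lit 632306518627041120664289617)) (C.cons (nat_lit 832) (C.node (nat_lit 1) (nat_lit 3) (nat_lit 11) (C.cons (nat_lit 2090) (C.node (nat_lit 1) (nat_lit 4) (nat_lit 8) (C.cons (nat_lit 306) (C.node (nat_lit 1) (nat_lit 2) (nat_lit 4) C.nil) C.nil)) (C.cons (nat_lit 2058) (C.node (nat_lit 3) (nat_lit 5) (nat_lit 11) C.nil) C.nil))) C.nil))))))) C.nil))))) (C.cons (nat_lit 26) (C.node (nat_lit 3) (nat_lit 4) (nat_lit 6) C.nil) C.nil))) C.nil))))))) C.nil))))) C.nil))))) C.nil))) C.nil))))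 (C.cons (nat_lit 536) (C.node (nat_lit 6) (nat_lit 7) (nat_lit 10) (C.cons (nat_lit 1472) (C.node (nat_lit 3) (nat_lit 7) (nat_lit 10) (C.cons (nat_lit 1672) (C.miq (nat_lit 2466555782) (nat_lit 2510968737748635759504590272)) (C.cons (nat_lit 1164)
  (C.miq (nat_lit 1780778800) (nat_lit 1262124772644761863708279177)) (C.cons (nat_lit 1160) (C.node (nat_lit 3) (nat_lit 9) (nat_lit 10) (C.cons (nat_lit 1548) (C.miq (nat_lit 1990789938) (nat_lit 1953636023286974414527924253)) (C.cons (nat_lit 1544) (C.node (nat_lit 7) (nat_lit 9) (nat_lit 10) (C.cons (nat_lit 1696) (C.miq (nat_lit 1466210944) (nat_lit 251466919580656102112562945)) (C.cons (nat_lit 1664) (C.node (nat_lit 1) (nat_lit 6) (nat_lit 10) (C.cons (nat_lit 1122) (C.node (nat_lit 1) (nat_lit 8) (nat_lit 10) (C.cons (nat_lit 1290) (C.miq (nat_lit 410428165) (nat_lit 1779559504082689255312262185)) (C.cons (nat_lit 1282) (C.node (nat_lit 1) (nat_lit 3) (nat_lit 10) (C.cons (nat_lit 1038) (C.miq (nat_lit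 542194538) (nat_lit 42331551991493820791524424)) C.nil)) C.nil))) (C.cons (nat_lit 1090) (C.node (nat_lit 5) (nat_lit 6) (nat_lit 10) C.nil) C.nil))) C.nil))) C.nil))) C.nil)))) (C.cons (nat_lit 1216) (C.node (nat_lit 3) (nat_lit 9) (nat_lit 10) (C.cons (nat_lit 1672) (C.node (nat_lit 3) (nat_lit 6) (nat_lit 9) (C.cons (nat_lit 876) (C.miq (nat_lit 1685291177) (nat_lit 183772884024094300790329089)) (C.cons (nat_lit 872) (C.miq (nat_lit 1685291177) (nat_lit 183772810237118005952122625)) (C.cons (nat_lit 844) (C.miq (nat_lit 1685291177) (nat_lit 183772293728283942084677377)) (C.cons (nat_lit 840) (C.miq (nat_lit 1685291177) (nat_lit 183772219941307647246470913)) (C.cons (nat_lit 620) (C.miq (nat_lit 2207647652) (nat_lit 749540224824449775575237779)) (C.cons (nat_lit 616) (C.miq (nat_lit 2207647652) (nat_lit 744704521545991258876413075)) (C.cons (nat_lit 588) (C.miq (nat_lit 2207647652) (nat_lit 710854598596781641984640147)) (C.cons (nat_lit 584) (C.miq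 (nat_lit 2207647652) (nat_lit 706018895318323125285815443)) C.nil))))))))) (C.cons (nat_lit 1548) (C.miq (nat_lit 1990789938) (nat_lit 1953636023286974414527924253)) (C.cons (nat_lit 1544) (C.node (nat_lit 7) (nat_lit 9) (nat_lit 10) (C.cons (nat_lit 1696) (C.miq (nat_lit 1397203129) (nat_lit 183788010559152416976015105)) (C.cons (nat_lit 1664) (C.node (nat_lit 3) (nat_lit 7) (nat_lit 10) (C.cons (nat_lit 1164) (C.node (nat_lit 5) (nat_lit 7) (nat_lit 10) (C.cons (nat_lit 1440) (C.miq (nat_lit 1463068683) (nat_lit 183814278828259262877994753)) (C.cons (nat_lit 1184) (C.node (nat_lit 7) (nat_lit 8) (nat_lit 10) C.nil) C.nil))) (C.cons (nat_lit 1160) (C.node (nat_lit 2) (nat_lit 4) (nat_lit 7) (C.cons (nat_lit 436) (C.miq (nat_lit 2588019543) (nat_lit 1262130454908759186926209249)) (C.cons (nat_lit 404) (C.node (nat_lit 4) (nat_lit 5) (nat_lit 7) C.nil) (C.cons (nat_lit 180) (C.miq (nat_lit 2588019543) (nat_lit 1262130454908759186909432033)) (C.cons (nat_lit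 148) (C.node (nat_lit 4) (nat_lit 5) (nat_lit 7) (C.cons (nat_lit 176) (C.node (nat_lit 1) (nat_lit 3) (nat_lit 10) C.nil) C.nil)) C.nil))))) C.nil))) C.nil))) C.nil)))) C.nil))) C.nil))) (C.cons (nat_lit 1104) (C.node (nat_lit 4) (nat_lit 9) (nat_lit 10) (C.cons (nat_lit 1552) (C.node (nat_lit 3) (nat_lit 9) (nat_lit 10) (C.cons (nat_lit 1672) (C.node (nat_lit 6) (nat_lit 7) (nat_lit 10) (C.cons (nat_lit 1472) (C.node (nat_lit 3) (nat_lit 8) (nat_lit 10) (C.cons (nat_lit 1292) (C.miq (nat_lit 1781233712) (nat_lit 3718697750998215598158971273)) (C.cons (nat_lit 1290) (C.miq (nat_lit 665323825) (nat_lit 1779543658147984072027800075)) (C.cons (nat_lit 1288) (C.node (nat_lit 3) (nat_lit 6) (nat_lit 7) (C.cons (nat_lit 206) (C.miq (nat_lit 698577078) (nat_lit 2021327770606507021430163681)) (C.cons (nat_lit 204) (C.miq (nat_lit 698577078) (nat_lit 2021327733713018874011060449)) (C.cons (nat_lit 202) (C.miq (nat_lit 277232039) (nat_lit 407411727599660831090935432))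 (C.cons (nat_lit 200) (C.node (nat_lit 6) (nat_lit 9) (nat_lit 10) (C.cons (nat_lit 1634) (C.miq (nat_lit 376674944) (nat_lit 241794812030012819199561473)) (C.cons (nat_lit 1632) (C.miq (nat_lit 982824528) (nat_lit 1876291186814309910084389089)) (C.cons (nat_lit 1602) (C.miq (nat_lit 376674944) (nat_lit 241794812021005619944820481)) (C.cons (nat_lit 1600)
  (C.node (nat_lit 1) (nat_lit 9) (nat_lit 10) (C.cons (nat_lit 1574) (C.miq (nat_lit 1497080068) (nat_lit 3104579059054921554193089683)) (C.cons (nat_lit 1570) (C.miq (nat_lit 1497080068) (nat_lit 3104579059053795654286247059)) (C.cons (nat_lit 1542) (C.miq (nat_lit 406462585) (nat_lit 1557124900617033644056773253)) C.nil)))) C.nil))))) C.nil))))) C.nil)))) (C.cons (nat_lit 1216) (C.node (nat_lit 2) (nat_lit 4) (nat_lit 7) (C.cons (nat_lit 436) (C.miq (nat_lit 2588019543) (nat_lit 1262130454908759186926209249)) (C.cons (nat_lit 404) (C.node (nat_lit 4) (nat_lit 5) (nat_lit 7) (C.cons (nat_lit 176) (C.node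 (nat_lit 3) (nat_lit 4) (nat_lit 9) (C.cons (nat_lit 536) (C.node (nat_lit 4) (nat_lit 8) (nat_lit 9) C.nil) C.nil)) C.nil)) (C.cons (nat_lit 180) (C.miq (nat_lit 2588019543) (nat_lit 1262130454908759186909432033)) (C.cons (nat_lit 148) (C.node (nat_lit 4) (nat_lit 5) (nat_lit 7) (C.cons (nat_lit 432) (C.node (nat_lit 2) (nat_lit 4) (nat_lit 8) (C.cons (nat_lit 276) (C.node (nat_lit 1) (nat_lit 4) (nat_lit 8) C.nil) C.nil)) (C.cons (nat_lit 176) (C.node (nat_lit 4) (nat_lit 7) (nat_lit 8) C.nil) C.nil))) C.nil))))) C.nil))) (C.cons (nat_lit 1548) (C.miq (nat_lit 2067334818) (nat_lit 3104533403560101388848202821)) (C.cons (nat_lit 1544) (C.node (nat_lit 7) (nat_lit 9) (nat_lit 10) (C.cons (nat_lit 1728) (C.miq (nat_lit 611715994) (nat_lit 251476733355750573211651841)) (C.cons (nat_lit 1696) (C.miq (nat_lit 1397203129) (nat_lit 183788010559152416976015105)) (C.cons (nat_lit 1664) (C.node (nat_lit 3) (nat_lit 7) (nat_lit 10) (C.cons (nat_lit 1164) (C.node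 (nat_lit 5) (nat_lit 7) (nat_lit 10) (C.cons (nat_lit 1440) (C.miq (nat_lit 1463068683) (nat_lit 183814278828259262877994753)) (C.cons (nat_lit 1184) (C.node (nat_lit 1) (nat_lit 3) (nat_lit 10) (C.cons (nat_lit 1034) (C.node (nat_lit 3) (nat_lit 8) (nat_lit 10) C.nil) C.nil)) C.nil))) (C.cons (nat_lit 1160) (C.node (nat_lit 6) (nat_lit 7) (nat_lit 10) (C.cons (nat_lit 1472) (C.node (nat_lit 2) (nat_lit 7) (nat_lit 10) (C.cons (nat_lit 1156) (C.node (nat_lit 5) (nat_lit 7) (nat_lit 10) C.nil) C.nil)) (C.cons (nat_lit 1216) (C.node (nat_lit 5) (nat_lit 7) (nat_lit 10) (C.cons (nat_lit 1444) (C.miq (nat_lit 1463068683) (nat_lit 183814278829385162784837377)) (C.cons (nat_lit 1440) (C.miq (nat_lit 1463068683) (nat_lit 183814278828259262877994753)) (C.cons (nat_lit 1188) (C.node (nat_lit 7) (nat_lit 8) (nat_lit 10) C.nil) C.nil)))) C.nil))) C.nil))) C.nil)))) C.nil)))) C.nil)) C.nil))) C.nil))) (C.cons (nat_lit 3080) (C.node (nat_lit 6) (nat_lit 10) (nat_lit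 11) (C.cons (nat_lit 3136) (C.node (nat_lit 2) (nat_lit 4) (nat_lit 7) (C.cons (nat_lit 436) (C.miq (nat_lit 2588019543) (nat_lit 1262130454908759186926209249)) (C.cons (nat_lit 404) (C.node (nat_lit 4) (nat_lit 5) (nat_lit 7) (C.cons (nat_lit 176) (C.node (nat_lit 2) (nat_lit 7) (nat_lit 11) (C.cons (nat_lit 2182) (C.node (nat_lit 7) (nat_lit 8) (nat_lit 11) (C.cons (nat_lit 2432) (C.node (nat_lit 2) (nat_lit 6) (nat_lit 11) (C.cons (nat_lit 2628) (C.miq (nat_lit 2460268039) (nat_lit 1262168436413369102292420833)) (C.cons (nat_lit 2372) (C.miq (nat_lit 310672224) (nat_lit 488427632875809087333402849)) C.nil))) C.nil)) (C.cons (nat_lit 2180) (C.node (nat_lit 1) (nat_lit 7) (nat_lit 11) (C.cons (nat_lit 2434) (C.node (nat_lit 2) (nat_lit 8) (nat_lit 11) (C.cons (nat_lit 2372) (C.miq (nat_lit 2709653430) (nat_lit 317967653179537689321670881)) (C.cons (nat_lit 2340) (C.node (nat_lit 3) (nat_lit 5) (nat_lit 11) (C.cons (nat_lit 2090) (C.node (nat_lit 5) (nat_lit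 9) (nat_lit 11) C.nil) C.nil)) C.nil))) (C.cons (nat_lit 2178) (C.node (nat_lit 7) (nat_lit 8) (nat_lit 11) C.nil) C.nil))) C.nil))) C.nil)) (C.cons (nat_lit 180) (C.miq (nat_lit 2588019543) (nat_lit 1262130454908759186909432033)) (C.cons (nat_lit 148) (C.node (nat_lit 4) (nat_lit 5) (nat_lit 7) (C.cons (nat_lit 432) (C.node (nat_lit 2) (nat_lit 4) (nat_lit 8) (C.cons (nat_lit 788) (C.node (nat_lit 7) (nat_lit 8) (nat_lit 9) (C.cons (nat_lit 962)
  (C.miq (nat_lit 611388312) (nat_lit 1415656986847057289475657473)) (C.cons (nat_lit 960) (C.miq (nat_lit 1749776672) (nat_lit 2804749831225438589341729413)) (C.cons (nat_lit 898) (C.miq (nat_lit 611388312) (nat_lit 1415656986847057289471463169)) (C.cons (nat_lit 896) (C.node (nat_lit 1) (nat_lit 4) (nat_lit 8) (C.cons (nat_lit 282) (C.node (nat_lit 3) (nat_lit 8) (nat_lit 11) (C.cons (nat_lit 2376) (C.miq (nat_lit 397623400) (nat_lit 2640299192349795863996399953)) (C.cons (nat_lit 2344) (C.miq (nat_lit 927301803)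 (nat_lit 522299193352253274120523521)) (C.cons (nat_lit 2312) (C.node (nat_lit 1) (nat_lit 4) (nat_lit 9) (C.cons (nat_lit 594) (C.node (nat_lit 1) (nat_lit 2) (nat_lit 4) (C.cons (nat_lit 22) (C.node (nat_lit 1) (nat_lit 4) (nat_lit 5) C.nil) C.nil)) (C.cons (nat_lit 530) (C.node (nat_lit 3) (nat_lit 4) (nat_lit 5) (C.cons (nat_lit 120) (C.node (nat_lit 1) (nat_lit 4) (nat_lit 5) C.nil) C.nil)) C.nil))) C.nil)))) (C.cons (nat_lit 274) (C.node (nat_lit 3) (nat_lit 4) (nat_lit 8) (C.cons (nat_lit 280) (C.node (nat_lit 1) (nat_lit 7) (nat_lit 11) C.nil) C.nil)) C.nil))) C.nil))))) (C.cons (nat_lit 276) (C.node (nat_lit 5) (nat_lit 7) (nat_lit 10) (C.cons (nat_lit 1696) (C.miq (nat_lit 609684393) (nat_lit 522267852808084273171009281)) (C.cons (nat_lit 1188) (C.node (nat_lit 2) (nat_lit 5) (nat_lit 8) (C.cons (nat_lit 2340) (C.miq (nat_lit 1649937012) (nat_lit 2828892634758642360925553811)) (C.cons (nat_lit 876) (C.miq (nat_lit 2726589792) (nat_lit 333685127685344000849545441))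 (C.cons (nat_lit 868) (C.miq (nat_lit 2726589792) (nat_lit 333685127685343966489807073)) (C.cons (nat_lit 812) (C.miq (nat_lit 1649937012) (nat_lit 981653982387488981974516883)) (C.cons (nat_lit 804) (C.miq (nat_lit 1649937012) (nat_lit 971982575830571948576867475)) (C.cons (nat_lit 364) (C.miq (nat_lit 2726589792) (nat_lit 333685127685341801826289889)) (C.cons (nat_lit 356) (C.miq (nat_lit 2726589792) (nat_lit 333685127685341767466551521)) (C.cons (nat_lit 300) (C.miq (nat_lit 1649937012) (nat_lit 362683962744798844524954771)) (C.cons (nat_lit 292) (C.miq (nat_lit 1649937012) (nat_lit 353012556187881811127305363)) C.nil)))))))))) (C.cons (nat_lit 1184) (C.node (nat_lit 3) (nat_lit 4) (nat_lit 5) (C.cons (nat_lit 122) (C.miq (nat_lit 1402683658) (nat_lit 3104579058646219888124822675)) (C.cons (nat_lit 120) (C.node (nat_lit 3) (nat_lit 4) (nat_lit 10) (C.cons (nat_lit 1560) (C.miq (nat_lit 1949677984) (nat_lit 145113028564150080019959553)) (C.cons (nat_lit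 1048) (C.node (nat_lit 1) (nat_lit 7) (nat_lit 11) C.nil) C.nil))) (C.cons (nat_lit 58) (C.miq (nat_lit 1402683658) (nat_lit 3104579058628205489615340691)) (C.cons (nat_lit 56) (C.node (nat_lit 4) (nat_lit 9) (nat_lit 10) (C.cons (nat_lit 1624) (C.miq (nat_lit 1949677984) (nat_lit 67741776108814087716671233)) (C.cons (nat_lit 1616) (C.node (nat_lit 3) (nat_lit 4) (nat_lit 10) C.nil) (C.cons (nat_lit 1560) (C.miq (nat_lit 1949677984) (nat_lit 67741776108813812838764289)) (C.cons (nat_lit 1552) (C.node (nat_lit 1) (nat_lit 7) (nat_lit 11) C.nil) C.nil))))) C.nil))))) C.nil)))) C.nil))) (C.cons (nat_lit 176) (C.node (nat_lit 4) (nat_lit 7) (nat_lit 8) (C.cons (nat_lit 400) (C.node (nat_lit 4) (nat_lit 9) (nat_lit 10) (C.cons (nat_lit 1624) (C.miq (nat_lit 1464011674) (nat_lit 183776371003666370989133569)) (C.cons (nat_lit 1616) (C.node (nat_lit 3) (nat_lit 4) (nat_lit 10) (C.cons (nat_lit 1048) (C.node (nat_lit 1) (nat_lit 7) (nat_lit 11) C.nil) C.nil))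 (C.cons (nat_lit 1560) (C.miq (nat_lit 1464011674) (nat_lit 183776371003666370984939265)) (C.cons (nat_lit 1552) (C.node (nat_lit 3) (nat_lit 4) (nat_lit 10) (C.cons (nat_lit 1112) (C.node (nat_lit 1) (nat_lit 7) (nat_lit 11) C.nil) (C.cons (nat_lit 1048) (C.node (nat_lit 4) (nat_lit 6) (nat_lit 10) C.nil) C.nil))) C.nil))))) C.nil)) C.nil))) C.nil))))) C.nil)) C.nil))) C.nil))))) C.nil)))) List.nil)

theorem ok12_249 : okL par12 (nat_lit 250) c12_249 (nat_lit 249) = true := by decide +kernel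

noncomputable def c12_250 : List C :=
  (List.cons (C.node (nat_lit 3) (nat_lit 4) (nat_lit 7) (C.cons (nat_lit 216) (C.node (nat_lit 3) (nat_lit 4) (nat_lit 10) (C.cons (nat_lit 1560) (C.miq (nat_lit 1464011674) (nat_lit 261147623459002638166134529)) (C.cons (nat_lit 1048) (C.node (nat_lit 3) (nat_lit 4) (nat_lit 9) (C.cons (nat_lit 792) (C.miq (nat_lit 2490073968) (nat_lit 2572664998306847111579238793)) (C.cons (nat_lit 536) (C.node (nat_lit 3) (nat_lit 9) (nat_lit 11) (C.cons (nat_lit 2632) (C.miq (nat_lit 2471147120) (nat_lit 1267025113640961559971956961)) (C.cons (nat_lit 2600) (C.miq (nat_lit 2761099189) (nat_lit 648003885425498549805123809)) (C.cons (nat_lit 2568) (C.node (nat_lit 6) (nat_lit 7) (nat_lit 10) (C.cons (nat_lit 1728) (C.miq (nat_lit 611715994) (nat_lit 261148139912667606609301249)) (C.cons (nat_lit 1472) (C.miq (nat_lit 2789967664) (nat_lit 2572664998498250095729639817)) (C.cons (nat_lit 1216) (C.node (nat_lit 4) (nat_lit 6) (nat_lit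 10) (C.cons (nat_lit 1616) (C.node (nat_lit 7) (nat_lit 9) (nat_lit 10) (C.cons (nat_lit 1696) (C.miq (nat_lit 1397203129) (nat_lit 261159263014488684157210369)) (C.cons (nat_lit 1672) (C.node (nat_lit 1) (nat_lit 3) (nat_lit 4) (C.cons (nat_lit 314) (C.miq (nat_lit 1402683658) (nat_lit 3104579058700263083653268627)) (C.cons (nat_lit 282) (C.node (nat_lit 3) (nat_lit 4) (nat_lit 5) (C.cons (nat_lit 56) (C.node (nat_lit 1) (nat_lit 4) (nat_lit 9) (C.cons (nat_lit 534) (C.miq (nat_lit 882344224) (nat_lit 3268942665887756493246497031)) (C.cons (nat_lit 530) (C.node (nat_lit 3) (nat_lit 8) (nat_lit 11) (C.cons (nat_lit 2376) (C.miq (nat_lit 2202711664) (nat_lit 1267025113568903965934029025)) (C.cons (nat_lit 2344) (C.miq (nat_lit 1951599288) (nat_lit 67707095798460799817092865)) (C.cons (nat_lit 2312) (C.node (nat_lit 1) (nat_lit 3) (nat_lit 7) (C.cons (nat_lit 174) (C.miq (nat_lit 2736297760) (nat_lit 340987935545939454056661637)) (C.cons (nat_lit 170) (C.miq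 (nat_lit 1350661699) (nat_lit 317950627144934073057280216)) (C.cons (nat_lit 142) (C.miq (nat_lit 2736297760) (nat_lit 340987935545939316617708165)) (C.cons (nat_lit 138) (C.node (nat_lit 1) (nat_lit 4) (nat_lit 6) (C.cons (nat_lit 118) (C.miq (nat_lit 2484643360) (nat_lit 340987935530176614842696773)) (C.cons (nat_lit 114) (C.miq (nat_lit 1462853764) (nat_lit 166833866675437539002286417)) (C.cons (nat_lit 86) (C.miq (nat_lit 2484643360) (nat_lit 340987935530176477403743301)) (C.cons (nat_lit 82) (C.node (nat_lit 2) (nat_lit 4) (nat_lit 7) (C.cons (nat_lit 436) (C.miq (nat_lit 2588019543) (nat_lit 1262130454908759186926209249)) (C.cons (nat_lit 404) (C.miq (nat_lit 605648944) (nat_lit 640742582659398107061223817)) (C.cons (nat_lit 180) (C.miq (nat_lit 2588019543) (nat_lit 1262130454908759186909432033)) C.nil)))) C.nil))))) C.nil))))) C.nil)))) C.nil))) C.nil)) (C.cons (nat_lit 58) (C.miq (nat_lit 1402683658) (nat_lit 3104579058628205489615340691)) (C.cons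 (nat_lit 26) (C.node (nat_lit 3) (nat_lit 4) (nat_lit 5) (C.cons (nat_lit 312) (C.node (nat_lit 4) (nat_lit 5) (nat_lit 7) (C.cons (nat_lit 180) (C.miq (nat_lit 2588019543) (nat_lit 1262130454908759186909432033)) (C.cons (nat_lit 176) (C.node (nat_lit 7) (nat_lit 8) (nat_lit 9) (C.cons (nat_lit 962) (C.miq (nat_lit 611388312) (nat_lit 1415656986847057289475657473)) (C.cons (nat_lit 960) (C.miq (nat_lit 914977802) (nat_lit 1160599629846935292713436307)) (C.cons (nat_lit 930) (C.miq (nat_lit 611388312) (nat_lit 1415656986847057289473560321)) (C.cons (nat_lit 928) (C.miq (nat_lit 693372803) (nat_lit 678245698872803407477342601)) (C.cons (nat_lit 898) (C.miq (nat_lit 611388312) (nat_lit 1415656986847057289471463169)) (C.cons (nat_lit 896) (C.node (nat_lit 1) (nat_lit 4) (nat_lit 8) (C.cons (nat_lit 786) (C.node (nat_lit 2) (nat_lit 4) (nat_lit 9) (C.cons (nat_lit 532) (C.node (nat_lit 2) (nat_lit 4) (nat_lit 7) (C.cons (nat_lit 404) (C.node (nat_lit 1) (nat_lit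 2) (nat_lit 4) (C.cons (nat_lit 118) (C.miq (nat_lit 271984756) (nat_lit 88253761621698234291847572)) C.nil)) C.nil)) C.nil)) (C.cons (nat_lit 274)
  (C.node (nat_lit 1) (nat_lit 4) (nat_lit 9) (C.cons (nat_lit 534) (C.node (nat_lit 4) (nat_lit 8) (nat_lit 9) C.nil) C.nil)) C.nil))) C.nil))))))) C.nil))) (C.cons (nat_lit 56) (C.node (nat_lit 3) (nat_lit 4) (nat_lit 8) (C.cons (nat_lit 280) (C.node (nat_lit 2) (nat_lit 4) (nat_lit 7) (C.cons (nat_lit 436) (C.miq (nat_lit 2588019543) (nat_lit 1262130454908759186926209249)) (C.cons (nat_lit 404) (C.node (nat_lit 4) (nat_lit 5) (nat_lit 7) C.nil) (C.cons (nat_lit 180) (C.miq (nat_lit 2588019543) (nat_lit 1262130454908759186909432033)) C.nil)))) C.nil)) C.nil))) C.nil))))) (C.cons (nat_lit 1664) (C.node (nat_lit 3) (nat_lit 6) (nat_lit 9) (C.cons (nat_lit 876) (C.miq (nat_lit 967280192) (nat_lit 2011659813655742934907289937)) (C.cons (nat_lit 872) (C.miq (nat_lit 967280192) (nat_lit 2011659813654617035000447313))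 (C.cons (nat_lit 844) (C.miq (nat_lit 967280192) (nat_lit 2011659813646735735652548945)) (C.cons (nat_lit 840) (C.miq (nat_lit 967280192) (nat_lit 2011659813645609835745706321)) (C.cons (nat_lit 620) (C.miq (nat_lit 2304969287) (nat_lit 749541258812643382398551187)) (C.cons (nat_lit 616) (C.miq (nat_lit 2304969287) (nat_lit 744705555534184865699726483)) (C.cons (nat_lit 588) (C.miq (nat_lit 2304969287) (nat_lit 710855632584975248807953555)) (C.cons (nat_lit 584) (C.miq (nat_lit 2304969287) (nat_lit 706019929306516732109128851)) C.nil))))))))) C.nil)))) (C.cons (nat_lit 1104) (C.node (nat_lit 4) (nat_lit 9) (nat_lit 10) (C.cons (nat_lit 1552) (C.node (nat_lit 7) (nat_lit 9) (nat_lit 10) (C.cons (nat_lit 1696) (C.miq (nat_lit 1397203129) (nat_lit 261159263014488684157210369)) (C.cons (nat_lit 1672) (C.node (nat_lit 3) (nat_lit 6) (nat_lit 9) (C.cons (nat_lit 876) (C.miq (nat_lit 1772389232) (nat_lit 1876259088841236580123476361)) (C.cons (nat_lit 872) (C.miq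 (nat_lit 1772389232) (nat_lit 1876259088840110680216633737)) (C.cons (nat_lit 844) (C.miq (nat_lit 1772389232) (nat_lit 1876259088832229380868735369)) (C.cons (nat_lit 840) (C.miq (nat_lit 1772389232) (nat_lit 1876259088831103480961892745)) (C.cons (nat_lit 620) (C.miq (nat_lit 2302020212) (nat_lit 749540225794975495181829267)) (C.cons (nat_lit 616) (C.miq (nat_lit 2302020212) (nat_lit 744704522516516978483004563)) (C.cons (nat_lit 588) (C.miq (nat_lit 2302020212) (nat_lit 710854599567307361591231635)) (C.cons (nat_lit 584) (C.miq (nat_lit 2302020212) (nat_lit 706018896288848844892406931)) C.nil))))))))) (C.cons (nat_lit 1664) (C.node (nat_lit 3) (nat_lit 7) (nat_lit 9) (C.cons (nat_lit 680) (C.node (nat_lit 7) (nat_lit 8) (nat_lit 9) (C.cons (nat_lit 962) (C.miq (nat_lit 611388312) (nat_lit 1415656986847057289475657473)) (C.cons (nat_lit 960) (C.miq (nat_lit 2521532208) (nat_lit 2572664998354134907653783945)) (C.cons (nat_lit 898) (C.miq (nat_lit 611388312)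 (nat_lit 1415656986847057289471463169)) (C.cons (nat_lit 896) (C.node (nat_lit 1) (nat_lit 3) (nat_lit 7) (C.cons (nat_lit 142) (C.node (nat_lit 3) (nat_lit 7) (nat_lit 10) (C.cons (nat_lit 1160) (C.node (nat_lit 1) (nat_lit 5) (nat_lit 7) (C.cons (nat_lit 418) (C.miq (nat_lit 1729643296) (nat_lit 505337209212467040018171933)) (C.cons (nat_lit 162) (C.node (nat_lit 1) (nat_lit 7) (nat_lit 9) (C.cons (nat_lit 706) (C.miq (nat_lit 2255553586) (nat_lit 853506480236477577828370461)) (C.cons (nat_lit 642) (C.node (nat_lit 6) (nat_lit 7) (nat_lit 9) (C.cons (nat_lit 704) (C.node (nat_lit 2) (nat_lit 4) (nat_lit 7) (C.cons (nat_lit 436) (C.miq (nat_lit 2588019543) (nat_lit 1262130454908759186926209249)) (C.cons (nat_lit 404) (C.miq (nat_lit 274933831) (nat_lit 88254204343555762802917780)) (C.cons (nat_lit 180) (C.miq (nat_lit 2588019543) (nat_lit 1262130454908759186909432033)) C.nil)))) C.nil)) C.nil))) C.nil))) C.nil)) (C.cons (nat_lit 138) (C.node (nat_lit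 1) (nat_lit 7) (nat_lit 9) (C.cons (nat_lit 706) (C.node (nat_lit 6) (nat_lit 9) (nat_lit 11) (C.cons (nat_lit 2628) (C.miq (nat_lit 709451899) (nat_lit 1876301350392987366974294241)) (C.cons (nat_lit 2624) (C.node (nat_lit 2) (nat_lit 3) (nat_lit 7)
  (C.cons (nat_lit 1164) (C.node (nat_lit 5) (nat_lit 7) (nat_lit 10) (C.cons (nat_lit 1440) (C.miq (nat_lit 1165212288) (nat_lit 822107872103597045654818561)) (C.cons (nat_lit 1184) (C.node (nat_lit 7) (nat_lit 8) (nat_lit 10) (C.cons (nat_lit 1408) (C.node (nat_lit 2) (nat_lit 6) (nat_lit 7) (C.cons (nat_lit 452) (C.node (nat_lit 2) (nat_lit 4) (nat_lit 7) (C.cons (nat_lit 180) (C.miq (nat_lit 2588019543) (nat_lit 1262130454908759186909432033)) (C.cons (nat_lit 148) (C.node (nat_lit 2) (nat_lit 5) (nat_lit 7) C.nil) C.nil))) (C.cons (nat_lit 196) (C.node (nat_lit 6) (nat_lit 7) (nat_lit 8) (C.cons (nat_lit 448) (C.node (nat_lit 2) (nat_lit 8) (nat_lit 10) C.nil) C.nil)) C.nil))) C.nil)) C.nil))) (C.cons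 (nat_lit 140) (C.node (nat_lit 3) (nat_lit 7) (nat_lit 10) (C.cons (nat_lit 1160) (C.node (nat_lit 2) (nat_lit 6) (nat_lit 7) (C.cons (nat_lit 452) (C.node (nat_lit 2) (nat_lit 4) (nat_lit 7) (C.cons (nat_lit 180) (C.miq (nat_lit 2588019543) (nat_lit 1262130454908759186909432033)) (C.cons (nat_lit 148) (C.node (nat_lit 4) (nat_lit 5) (nat_lit 7) C.nil) C.nil))) (C.cons (nat_lit 196) (C.node (nat_lit 6) (nat_lit 7) (nat_lit 8) (C.cons (nat_lit 448) (C.node (nat_lit 4) (nat_lit 6) (nat_lit 9) (C.cons (nat_lit 596) (C.node (nat_lit 1) (nat_lit 2) (nat_lit 4) C.nil) C.nil)) C.nil)) C.nil))) C.nil)) C.nil))) C.nil))) (C.cons (nat_lit 642) (C.node (nat_lit 6) (nat_lit 7) (nat_lit 9) (C.cons (nat_lit 704) (C.node (nat_lit 2) (nat_lit 3) (nat_lit 7) (C.cons (nat_lit 1164) (C.node (nat_lit 5) (nat_lit 7) (nat_lit 10) (C.cons (nat_lit 1440) (C.miq (nat_lit 1165212288) (nat_lit 822107872103597045654818561)) (C.cons (nat_lit 1184) (C.node (nat_lit 7) (nat_lit 8)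 (nat_lit 10) (C.cons (nat_lit 1408) (C.node (nat_lit 2) (nat_lit 8) (nat_lit 10) C.nil) C.nil)) C.nil))) (C.cons (nat_lit 140) (C.node (nat_lit 3) (nat_lit 7) (nat_lit 10) (C.cons (nat_lit 1160) (C.node (nat_lit 1) (nat_lit 6) (nat_lit 7) (C.cons (nat_lit 450) (C.miq (nat_lit 389187136) (nat_lit 169254466366404137439789393)) (C.cons (nat_lit 198) (C.node (nat_lit 6) (nat_lit 7) (nat_lit 8) C.nil) (C.cons (nat_lit 194) (C.node (nat_lit 2) (nat_lit 6) (nat_lit 7) (C.cons (nat_lit 196) (C.node (nat_lit 6) (nat_lit 7) (nat_lit 8) C.nil) C.nil)) C.nil)))) C.nil)) C.nil))) C.nil)) C.nil))) C.nil))) C.nil))))) (C.cons (nat_lit 648) (C.node (nat_lit 3) (nat_lit 7) (nat_lit 10) (C.cons (nat_lit 1164) (C.node (nat_lit 5) (nat_lit 7) (nat_lit 10) (C.cons (nat_lit 1440) (C.miq (nat_lit 1463068683) (nat_lit 261185531283595530059190017)) (C.cons (nat_lit 1184) (C.node (nat_lit 7) (nat_lit 8) (nat_lit 10) (C.cons (nat_lit 1408) (C.node (nat_lit 1) (nat_lit 3) (nat_lit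 7) (C.cons (nat_lit 170) (C.node (nat_lit 1) (nat_lit 3) (nat_lit 4) (C.cons (nat_lit 282) (C.miq (nat_lit 1350661699) (nat_lit 317950627144934073057280216)) (C.cons (nat_lit 26) (C.node (nat_lit 3) (nat_lit 5) (nat_lit 11) (C.cons (nat_lit 2344) (C.miq (nat_lit 1161276288) (nat_lit 205538991350009268351340289)) (C.cons (nat_lit 2088) (C.node (nat_lit 5) (nat_lit 9) (nat_lit 11) (C.cons (nat_lit 2598) (C.miq (nat_lit 2299726679) (nat_lit 632275454310028570106923233)) (C.cons (nat_lit 2596) (C.miq (nat_lit 2544181323) (nat_lit 1431416058352892682437658653)) (C.cons (nat_lit 2594) (C.miq (nat_lit 2299726679) (nat_lit 632275454310028552927054049)) (C.cons (nat_lit 2592) (C.node (nat_lit 1) (nat_lit 7) (nat_lit 8) (C.cons (nat_lit 2434) (C.miq (nat_lit 363557640) (nat_lit 3771893456620573754564608393)) (C.cons (nat_lit 962) (C.miq (nat_lit 611388312) (nat_lit 1415656986847057289475657473)) (C.cons (nat_lit 898) (C.miq (nat_lit 611388312) (nat_lit 1415656986847057289471463169))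 (C.cons (nat_lit 450) (C.miq (nat_lit 389187136) (nat_lit 1407194505651784412338913617)) (C.cons (nat_lit 386) (C.node (nat_lit 2) (nat_lit 4) (nat_lit 7) (C.cons (nat_lit 436) (C.miq (nat_lit 2588019543) (nat_lit 1262130454908759186926209249)) (C.cons (nat_lit 148)
  (C.node (nat_lit 2) (nat_lit 8) (nat_lit 10) C.nil) C.nil))) C.nil)))))) C.nil))))) C.nil))) C.nil))) (C.cons (nat_lit 138) (C.node (nat_lit 3) (nat_lit 5) (nat_lit 7) (C.cons (nat_lit 168) (C.node (nat_lit 2) (nat_lit 8) (nat_lit 10) (C.cons (nat_lit 1316) (C.node (nat_lit 1) (nat_lit 2) (nat_lit 10) (C.cons (nat_lit 1030) (C.node (nat_lit 2) (nat_lit 9) (nat_lit 10) C.nil) C.nil)) (C.cons (nat_lit 1284) (C.node (nat_lit 3) (nat_lit 9) (nat_lit 10) (C.cons (nat_lit 1608) (C.node (nat_lit 3) (nat_lit 8) (nat_lit 10) C.nil) C.nil)) C.nil))) C.nil)) C.nil))) C.nil)) C.nil))) (C.cons (nat_lit 1160) (C.node (nat_lit 1) (nat_lit 3) (nat_lit 4) (C.cons (nat_lit 314) (C.miq (nat_lit 1402683658)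 (nat_lit 3104579058700263083653268627)) (C.cons (nat_lit 282) (C.node (nat_lit 3) (nat_lit 4) (nat_lit 5) (C.cons (nat_lit 56) (C.node (nat_lit 2) (nat_lit 4) (nat_lit 7) (C.cons (nat_lit 436) (C.miq (nat_lit 2588019543) (nat_lit 1262130454908759186926209249)) (C.cons (nat_lit 404) (C.miq (nat_lit 1949902864) (nat_lit 647996137577085882109460743)) (C.cons (nat_lit 180) (C.miq (nat_lit 2588019543) (nat_lit 1262130454908759186909432033)) C.nil)))) C.nil)) (C.cons (nat_lit 58) (C.miq (nat_lit 1402683658) (nat_lit 3104579058628205489615340691)) (C.cons (nat_lit 26) (C.node (nat_lit 3) (nat_lit 4) (nat_lit 5) (C.cons (nat_lit 312) (C.node (nat_lit 4) (nat_lit 5) (nat_lit 7) (C.cons (nat_lit 180) (C.miq (nat_lit 2588019543) (nat_lit 1262130454908759186909432033)) C.nil)) (C.cons (nat_lit 56) (C.node (nat_lit 3) (nat_lit 4) (nat_lit 8) (C.cons (nat_lit 280) (C.node (nat_lit 1) (nat_lit 4) (nat_lit 8) C.nil) C.nil)) C.nil))) C.nil))))) C.nil))) C.nil))) C.nil))))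 C.nil)) C.nil))) C.nil)))) C.nil)))) C.nil))) C.nil))) (C.cons (nat_lit 184) (C.miq (nat_lit 950300853) (nat_lit 1566771256532105135997847777)) (C.cons (nat_lit 152) (C.node (nat_lit 4) (nat_lit 6) (nat_lit 7) (C.cons (nat_lit 212) (C.miq (nat_lit 2485827424) (nat_lit 1262189410382769224411318497)) (C.cons (nat_lit 208) (C.ref (nat_lit 249) (nat_lit 205163983024656)) C.nil))) C.nil)))) (List.cons (C.node (nat_lit 6) (nat_lit 7) (nat_lit 9) (C.cons (nat_lit 962) (C.miq (nat_lit 611388312) (nat_lit 1415656986847057289475657473)) (C.cons (nat_lit 960) (C.miq (nat_lit 914977802) (nat_lit 1160599629846935292713436307)) (C.cons (nat_lit 706) (C.node (nat_lit 6) (nat_lit 9) (nat_lit 11) (C.cons (nat_lit 2628) (C.miq (nat_lit 709451899) (nat_lit 1953672602848323634155489505)) (C.cons (nat_lit 2624) (C.node (nat_lit 3) (nat_lit 6) (nat_lit 9) (C.cons (nat_lit 876) (C.miq (nat_lit 423261776) (nat_lit 2021345571731695390012541153)) (C.cons (nat_lit 872) (C.miq (nat_lit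 423261776) (nat_lit 2021345571731695372832671969)) (C.cons (nat_lit 844) (C.miq (nat_lit 2172002371) (nat_lit 853517197773959356499888157)) (C.cons (nat_lit 840) (C.node (nat_lit 1) (nat_lit 4) (nat_lit 9) (C.cons (nat_lit 786) (C.miq (nat_lit 647498305) (nat_lit 1015502540277638982628672659)) (C.cons (nat_lit 534) (C.miq (nat_lit 728318065) (nat_lit 3172231201814755604464534675)) (C.cons (nat_lit 530) (C.node (nat_lit 1) (nat_lit 8) (nat_lit 9) (C.cons (nat_lit 802) (C.node (nat_lit 5) (nat_lit 7) (nat_lit 9) (C.cons (nat_lit 672) (C.node (nat_lit 7) (nat_lit 8) (nat_lit 9) (C.cons (nat_lit 896) (C.node (nat_lit 1) (nat_lit 9) (nat_lit 10) (C.cons (nat_lit 1542) (C.miq (nat_lit 677974090) (nat_lit 1015526133429679533266568339)) (C.cons (nat_lit 1538) (C.node (nat_lit 3) (nat_lit 4) (nat_lit 5) (C.cons (nat_lit 312) (C.miq (nat_lit 1366591843) (nat_lit 1415657890378627724544049992)) (C.cons (nat_lit 58) (C.miq (nat_lit 2236322096) (nat_lit 2533979372081993049138070027))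 (C.cons (nat_lit 56) (C.node (nat_lit 1) (nat_lit 2) (nat_lit 4) (C.cons (nat_lit 118) (C.miq (nat_lit 2271281986) (nat_lit 853506480252240176522594333)) (C.cons (nat_lit 86) (C.miq (nat_lit 2271281986) (nat_lit 853506480252240176520497181)) (C.cons (nat_lit 54)
  (C.miq (nat_lit 2504753440) (nat_lit 2533979372081993031958200583)) C.nil)))) C.nil)))) C.nil))) C.nil)) C.nil)) (C.cons (nat_lit 770) (C.node (nat_lit 2) (nat_lit 3) (nat_lit 9) (C.cons (nat_lit 556) (C.node (nat_lit 2) (nat_lit 6) (nat_lit 9) (C.cons (nat_lit 580) (C.node (nat_lit 5) (nat_lit 6) (nat_lit 9) (C.cons (nat_lit 608) (C.node (nat_lit 2) (nat_lit 3) (nat_lit 7) (C.cons (nat_lit 142) (C.miq (nat_lit 2255553586) (nat_lit 853506480236477577828370461)) (C.cons (nat_lit 140) (C.node (nat_lit 2) (nat_lit 9) (nat_lit 10) (C.cons (nat_lit 1542) (C.miq (nat_lit 2257716385) (nat_lit 701181826965040314861356179)) (C.cons (nat_lit 1540) (C.node (nat_lit 1) (nat_lit 9) (nat_lit 10) (C.cons (nat_lit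 1570) (C.miq (nat_lit 605630629) (nat_lit 640740941370087001242600489)) (C.cons (nat_lit 1538) (C.node (nat_lit 5) (nat_lit 9) (nat_lit 10) C.nil) C.nil))) C.nil))) C.nil))) C.nil)) C.nil)) (C.cons (nat_lit 524) (C.node (nat_lit 3) (nat_lit 5) (nat_lit 9) (C.cons (nat_lit 552) (C.node (nat_lit 2) (nat_lit 4) (nat_lit 9) (C.cons (nat_lit 788) (C.node (nat_lit 2) (nat_lit 4) (nat_lit 7) (C.cons (nat_lit 148) (C.node (nat_lit 2) (nat_lit 4) (nat_lit 10) C.nil) C.nil)) (C.cons (nat_lit 532) (C.node (nat_lit 4) (nat_lit 8) (nat_lit 9) C.nil) C.nil))) C.nil)) C.nil))) C.nil))) C.nil)))) (C.cons (nat_lit 620) (C.miq (nat_lit 423261776) (nat_lit 2021345571731694290500913377)) (C.cons (nat_lit 616) (C.miq (nat_lit 423261776) (nat_lit 2021345571731694273321044193)) (C.cons (nat_lit 588) (C.miq (nat_lit 2302020212) (nat_lit 710854599567307361591231635)) (C.cons (nat_lit 584) (C.miq (nat_lit 2302020212) (nat_lit 706018896288848844892406931)) C.nil))))))))) C.nil)))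 (C.cons (nat_lit 704) (C.node (nat_lit 7) (nat_lit 8) (nat_lit 9) (C.cons (nat_lit 930) (C.miq (nat_lit 611388312) (nat_lit 1415656986847057289473560321)) (C.cons (nat_lit 928) (C.node (nat_lit 1) (nat_lit 7) (nat_lit 9) (C.cons (nat_lit 642) (C.node (nat_lit 4) (nat_lit 5) (nat_lit 7) (C.cons (nat_lit 180) (C.miq (nat_lit 2236323616) (nat_lit 2533979372117459420189622917)) (C.cons (nat_lit 176) (C.node (nat_lit 2) (nat_lit 4) (nat_lit 7) (C.cons (nat_lit 404) (C.node (nat_lit 7) (nat_lit 8) (nat_lit 10) (C.cons (nat_lit 1408) (C.node (nat_lit 2) (nat_lit 4) (nat_lit 9) (C.cons (nat_lit 534) (C.miq (nat_lit 1955824144) (nat_lit 647991488997580389634212103)) (C.cons (nat_lit 532) (C.node (nat_lit 6) (nat_lit 7) (nat_lit 8) (C.cons (nat_lit 450) (C.miq (nat_lit 372279106) (nat_lit 88256436452223982734475668)) (C.cons (nat_lit 448) (C.node (nat_lit 3) (nat_lit 4) (nat_lit 8) (C.cons (nat_lit 314) (C.miq (nat_lit 410596384) (nat_lit 1121892808337911302119032861))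 (C.cons (nat_lit 312) (C.miq (nat_lit 693372803) (nat_lit 678245698872803407477342601)) (C.cons (nat_lit 282) (C.miq (nat_lit 410596384) (nat_lit 1121892808328904102864291869)) C.nil)))) C.nil))) C.nil))) C.nil)) (C.cons (nat_lit 148) (C.node (nat_lit 4) (nat_lit 7) (nat_lit 8) (C.cons (nat_lit 400) (C.node (nat_lit 5) (nat_lit 7) (nat_lit 10) (C.cons (nat_lit 1188) (C.node (nat_lit 7) (nat_lit 8) (nat_lit 10) (C.cons (nat_lit 1408) (C.node (nat_lit 2) (nat_lit 3) (nat_lit 7) (C.cons (nat_lit 142) (C.miq (nat_lit 2322729265) (nat_lit 1436208726277023411903267339)) C.nil)) C.nil)) (C.cons (nat_lit 1184) (C.node (nat_lit 2) (nat_lit 7) (nat_lit 10) (C.cons (nat_lit 1412) (C.node (nat_lit 2) (nat_lit 6) (nat_lit 7) (C.cons (nat_lit 198) (C.miq (nat_lit 924949120) (nat_lit 239376960401479352258596609)) C.nil)) C.nil)) C.nil))) C.nil)) C.nil))) C.nil))) C.nil)) (C.cons (nat_lit 898) (C.miq (nat_lit 611388312) (nat_lit 1415656986847057289471463169)) (C.cons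 (nat_lit 896) (C.node (nat_lit 1) (nat_lit 7) (nat_lit 9) (C.cons (nat_lit 674) (C.node (nat_lit 5) (nat_lit 9) (nat_lit 11) (C.cons (nat_lit 2596) (C.miq (nat_lit 364149024) (nat_lit 2533930119239298348243288709)) (C.cons (nat_lit 2592) (C.node (nat_lit 1) (nat_lit 3) (nat_lit 7) (C.cons (nat_lit 142) (C.node (nat_lit 3) (nat_lit 5) (nat_lit 7) (C.cons (nat_lit 168)
  (C.node (nat_lit 1) (nat_lit 6) (nat_lit 7) (C.cons (nat_lit 450) (C.node (nat_lit 1) (nat_lit 7) (nat_lit 11) (C.cons (nat_lit 2178) (C.node (nat_lit 2) (nat_lit 6) (nat_lit 7) (C.cons (nat_lit 196) (C.node (nat_lit 1) (nat_lit 8) (nat_lit 9) (C.cons (nat_lit 786) (C.node (nat_lit 2) (nat_lit 4) (nat_lit 9) (C.cons (nat_lit 532) (C.node (nat_lit 2) (nat_lit 4) (nat_lit 7) (C.cons (nat_lit 436) (C.miq (nat_lit 2804454160) (nat_lit 527162511766592209522459147)) (C.cons (nat_lit 148) (C.miq (nat_lit 1462014256) (nat_lit 178931370116105213239427595)) C.nil))) C.nil)) (C.cons (nat_lit 770)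 (C.miq (nat_lit 1209599605) (nat_lit 930883229821548815513159905)) C.nil))) C.nil)) C.nil)) (C.cons (nat_lit 194) (C.miq (nat_lit 2255553586) (nat_lit 234536460593787440378808349)) C.nil))) C.nil)) (C.cons (nat_lit 138) (C.node (nat_lit 1) (nat_lit 9) (nat_lit 10) (C.cons (nat_lit 1542) (C.node (nat_lit 2) (nat_lit 7) (nat_lit 10) (C.cons (nat_lit 1444) (C.miq (nat_lit 557285530) (nat_lit 166858400279291427954364161)) (C.cons (nat_lit 1412) (C.miq (nat_lit 557285530) (nat_lit 166857809983481069248712449)) (C.cons (nat_lit 1188) (C.miq (nat_lit 2275541905) (nat_lit 1436208725306497692296675851)) (C.cons (nat_lit 1156) (C.miq (nat_lit 2275541905) (nat_lit 1397523099078829558706078219)) C.nil))))) (C.cons (nat_lit 1538) (C.node (nat_lit 1) (nat_lit 4) (nat_lit 9) (C.cons (nat_lit 786) (C.miq (nat_lit 563742790) (nat_lit 1859348072932603530063118673)) (C.cons (nat_lit 534) (C.miq (nat_lit 727269489) (nat_lit 3133545575587087470871839891)) (C.cons (nat_lit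 530) (C.node (nat_lit 1) (nat_lit 8) (nat_lit 9) (C.cons (nat_lit 834) (C.miq (nat_lit 914977802) (nat_lit 1008274976575492016700458131)) (C.cons (nat_lit 770) (C.node (nat_lit 3) (nat_lit 6) (nat_lit 9) (C.cons (nat_lit 876) (C.miq (nat_lit 561217705) (nat_lit 166847922528660344067854081)) (C.cons (nat_lit 872) (C.miq (nat_lit 1100482390) (nat_lit 930879097985627397235935457)) (C.cons (nat_lit 844) (C.miq (nat_lit 561217705) (nat_lit 166847332232849985362202369)) (C.cons (nat_lit 840) (C.node (nat_lit 5) (nat_lit 6) (nat_lit 9) (C.cons (nat_lit 612) (C.miq (nat_lit 706306165) (nat_lit 1859339200282329959939311841)) (C.cons (nat_lit 608) (C.node (nat_lit 2) (nat_lit 3) (nat_lit 9) (C.cons (nat_lit 556) (C.node (nat_lit 2) (nat_lit 9) (nat_lit 10) C.nil) C.nil)) C.nil))) (C.cons (nat_lit 620) (C.miq (nat_lit 706306165) (nat_lit 1859339347856282549615724769)) (C.cons (nat_lit 616) (C.miq (nat_lit 2302020212) (nat_lit 744704522516516978483004563)) (C.cons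 (nat_lit 588) (C.miq (nat_lit 2302020212) (nat_lit 710854599567307361591231635)) (C.cons (nat_lit 584) (C.miq (nat_lit 2302020212) (nat_lit 706018896288848844892406931)) C.nil))))))))) C.nil))) C.nil)))) C.nil))) C.nil))) C.nil))) (C.cons (nat_lit 642) (C.node (nat_lit 5) (nat_lit 7) (nat_lit 9) (C.cons (nat_lit 672) (C.node (nat_lit 6) (nat_lit 9) (nat_lit 11) (C.cons (nat_lit 2630) (C.miq (nat_lit 709451899) (nat_lit 1953672639741811781574592737)) (C.cons (nat_lit 2628) (C.miq (nat_lit 709451899) (nat_lit 1953672602848323634155489505)) (C.cons (nat_lit 2626) (C.node (nat_lit 2) (nat_lit 6) (nat_lit 11) (C.cons (nat_lit 2372) (C.node (nat_lit 2) (nat_lit 6) (nat_lit 7) (C.cons (nat_lit 198) (C.miq (nat_lit 2820737895) (nat_lit 317969092777113360053700833)) (C.cons (nat_lit 196) (C.node (nat_lit 1) (nat_lit 6) (nat_lit 7) (C.cons (nat_lit 450) (C.miq (nat_lit 1115753319) (nat_lit 317969092280591501152618721)) (C.cons (nat_lit 194) (C.node (nat_lit 6)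 (nat_lit 7) (nat_lit 8) (C.cons (nat_lit 448) (C.node (nat_lit 2) (nat_lit 7) (nat_lit 11) (C.cons (nat_lit 2182) (C.miq (nat_lit 1093142454) (nat_lit 317953707441016882568890593)) (C.cons (nat_lit 2180) (C.node (nat_lit 1) (nat_lit 7) (nat_lit 11) C.nil) C.nil))) C.nil)) C.nil))) C.nil))) (C.cons (nat_lit 2116) (C.node (nat_lit 6) (nat_lit 8) (nat_lit 11) (C.cons (nat_lit 2376) (C.miq (nat_lit 2202711664) (nat_lit 1267025113568903965934029025)) (C.cons (nat_lit 2368)
  (C.node (nat_lit 2) (nat_lit 9) (nat_lit 11) (C.cons (nat_lit 2596) (C.node (nat_lit 2) (nat_lit 4) (nat_lit 9) (C.cons (nat_lit 788) (C.miq (nat_lit 2259828825) (nat_lit 2558101570433752246587228721)) (C.cons (nat_lit 534) (C.miq (nat_lit 1494725184) (nat_lit 776172306372582805102331933)) (C.cons (nat_lit 532) (C.node (nat_lit 3) (nat_lit 6) (nat_lit 9) (C.cons (nat_lit 872) (C.miq (nat_lit 2217304245) (nat_lit 643164621690680983641393377)) (C.cons (nat_lit 844) (C.miq (nat_lit 1502065200)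 (nat_lit 1083239464554699946866575389)) (C.cons (nat_lit 584) (C.miq (nat_lit 2302020212) (nat_lit 706018896288848844892406931)) C.nil)))) C.nil)))) (C.cons (nat_lit 2564) (C.node (nat_lit 5) (nat_lit 9) (nat_lit 11) (C.cons (nat_lit 2592) (C.node (nat_lit 3) (nat_lit 6) (nat_lit 11) C.nil) C.nil)) C.nil))) C.nil))) C.nil))) (C.cons (nat_lit 2624) (C.node (nat_lit 1) (nat_lit 4) (nat_lit 9) (C.cons (nat_lit 786) (C.node (nat_lit 2) (nat_lit 4) (nat_lit 9) (C.cons (nat_lit 532) (C.node (nat_lit 1) (nat_lit 6) (nat_lit 7) (C.cons (nat_lit 450) (C.miq (nat_lit 1461257860) (nat_lit 776140725455811836069937489)) (C.cons (nat_lit 198) (C.miq (nat_lit 1093048330) (nat_lit 239397122443360152569843457)) (C.cons (nat_lit 194) (C.node (nat_lit 1) (nat_lit 2) (nat_lit 4) (C.cons (nat_lit 118) (C.miq (nat_lit 2271281986) (nat_lit 234536460609550039073032221)) (C.cons (nat_lit 86) (C.miq (nat_lit 2271281986) (nat_lit 234536460609550039070935069)) (C.cons (nat_lit 54)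 (C.miq (nat_lit 1678944640) (nat_lit 65302157005329478200004353)) (C.cons (nat_lit 22) (C.miq (nat_lit 1678944640) (nat_lit 26616530777661344609406721)) C.nil))))) C.nil)))) C.nil)) (C.cons (nat_lit 534) (C.node (nat_lit 4) (nat_lit 8) (nat_lit 9) (C.cons (nat_lit 784) (C.node (nat_lit 2) (nat_lit 9) (nat_lit 11) (C.cons (nat_lit 2596) (C.miq (nat_lit 1494725184) (nat_lit 776172306372582805102331933)) (C.cons (nat_lit 2564) (C.node (nat_lit 1) (nat_lit 4) (nat_lit 6) (C.cons (nat_lit 82) (C.node (nat_lit 2) (nat_lit 4) (nat_lit 6) C.nil) C.nil)) C.nil))) C.nil)) (C.cons (nat_lit 530) (C.node (nat_lit 2) (nat_lit 4) (nat_lit 9) (C.cons (nat_lit 788) (C.node (nat_lit 2) (nat_lit 4) (nat_lit 7) (C.cons (nat_lit 180) (C.miq (nat_lit 2220593776) (nat_lit 2533979372078052923462976133)) (C.cons (nat_lit 148) (C.node (nat_lit 2) (nat_lit 4) (nat_lit 10) (C.cons (nat_lit 1076) (C.node (nat_lit 4) (nat_lit 8) (nat_lit 10) C.nil) C.nil)) C.nil))) (C.cons (nat_lit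 532) (C.node (nat_lit 4) (nat_lit 8) (nat_lit 9) (C.cons (nat_lit 784) (C.node (nat_lit 1) (nat_lit 8) (nat_lit 9) C.nil) C.nil)) C.nil))) C.nil)))) C.nil))))) C.nil)) C.nil))) C.nil))))) C.nil))))) (List.cons (C.node (nat_lit 6) (nat_lit 7) (nat_lit 9) (C.cons (nat_lit 962) (C.miq (nat_lit 611388312) (nat_lit 1415656986847057289475657473)) (C.cons (nat_lit 960) (C.miq (nat_lit 2521532208) (nat_lit 2572664998354134907653783945)) (C.cons (nat_lit 706) (C.node (nat_lit 1) (nat_lit 4) (nat_lit 6) (C.cons (nat_lit 86) (C.miq (nat_lit 2271281986) (nat_lit 853506480252240176520497181)) (C.cons (nat_lit 82) (C.node (nat_lit 2) (nat_lit 4) (nat_lit 6) (C.cons (nat_lit 84) (C.node (nat_lit 4) (nat_lit 6) (nat_lit 9) C.nil) C.nil)) C.nil))) (C.cons (nat_lit 704) (C.node (nat_lit 7) (nat_lit 8) (nat_lit 9) (C.cons (nat_lit 930) (C.miq (nat_lit 611388312) (nat_lit 1415656986847057289473560321)) (C.cons (nat_lit 928) (C.node (nat_lit 1) (nat_lit 7) (nat_lit 9) (C.cons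 (nat_lit 642) (C.node (nat_lit 4) (nat_lit 5) (nat_lit 7) (C.cons (nat_lit 180) (C.miq (nat_lit 2236323616) (nat_lit 2533979372117459420189622917)) (C.cons (nat_lit 176) (C.node (nat_lit 2) (nat_lit 4) (nat_lit 7) (C.cons (nat_lit 148) (C.node (nat_lit 4) (nat_lit 7) (nat_lit 8) C.nil) C.nil)) C.nil))) C.nil)) (C.cons (nat_lit 898) (C.miq (nat_lit 611388312) (nat_lit 1415656986847057289471463169)) (C.cons (nat_lit 896) (C.node (nat_lit 1) (nat_lit 7) (nat_lit 9) (C.cons (nat_lit 674) (C.node (nat_lit 5) (nat_lit 9) (nat_lit 11) (C.cons (nat_lit 2596)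
  (C.miq (nat_lit 364149024) (nat_lit 2533930119239298348243288709)) (C.cons (nat_lit 2592) (C.node (nat_lit 1) (nat_lit 3) (nat_lit 7) (C.cons (nat_lit 142) (C.node (nat_lit 2) (nat_lit 4) (nat_lit 7) (C.cons (nat_lit 436) (C.miq (nat_lit 274933831) (nat_lit 88254204343555762802917812)) (C.cons (nat_lit 148) (C.miq (nat_lit 1462014256) (nat_lit 178931370116105213239427595)) C.nil))) (C.cons (nat_lit 138) (C.node (nat_lit 2) (nat_lit 3) (nat_lit 7) (C.cons (nat_lit 172) (C.node (nat_lit 2) (nat_lit 4) (nat_lit 7) C.nil) (C.cons (nat_lit 140) (C.node (nat_lit 4) (nat_lit 8) (nat_lit 9) C.nil) C.nil))) C.nil))) C.nil))) (C.cons (nat_lit 642) (C.node (nat_lit 5) (nat_lit 7) (nat_lit 9) (C.cons (nat_lit 672) (C.node (nat_lit 4) (nat_lit 8) (nat_lit 9) (C.cons (nat_lit 784) (C.node (nat_lit 3) (nat_lit 9) (nat_lit 10) C.nil) C.nil)) C.nil)) C.nil))) C.nil))))) C.nil))))) List.nil)))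

theorem ok12_250 : okL par12 (nat_lit 253) c12_250 (nat_lit 250) = true := by decide +kernel

noncomputable def c12_253 : List C :=
  (List.cons (C.node (nat_lit 6) (nat_lit 7) (nat_lit 9) (C.cons (nat_lit 962) (C.miq (nat_lit 611388312) (nat_lit 1415656986847057289475657473)) (C.cons (nat_lit 960) (C.miq (nat_lit 2521532208) (nat_lit 2572664998354134907653783945)) (C.cons (nat_lit 706) (C.node (nat_lit 6) (nat_lit 9) (nat_lit 11) (C.cons (nat_lit 2628) (C.miq (nat_lit 709451899) (nat_lit 1876301350392987366974294241)) (C.cons (nat_lit 2624) (C.node (nat_lit 2) (nat_lit 6) (nat_lit 7) (C.cons (nat_lit 452) (C.node (nat_lit 2) (nat_lit 4) (nat_lit 7) (C.cons (nat_lit 180) (C.node (nat_lit 2) (nat_lit 7) (nat_lit 10) (C.cons (nat_lit 1156) (C.node (nat_lit 4) (nat_lit 7) (nat_lit 8) (C.cons (nat_lit 400) (C.node (nat_lit 2) (nat_lit 4) (nat_lit 10) (C.cons (nat_lit 1044) (C.node (nat_lit 2) (nat_lit 4) (nat_lit 8) (C.cons (nat_lit 276) (C.node (nat_lit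 4) (nat_lit 5) (nat_lit 6) C.nil) C.nil)) C.nil)) C.nil)) C.nil)) (C.cons (nat_lit 148) (C.node (nat_lit 2) (nat_lit 6) (nat_lit 11) (C.cons (nat_lit 2118) (C.node (nat_lit 2) (nat_lit 7) (nat_lit 11) (C.cons (nat_lit 2180) (C.node (nat_lit 6) (nat_lit 8) (nat_lit 11) (C.cons (nat_lit 2376) (C.miq (nat_lit 2202711664) (nat_lit 1267025113568903965934029025)) (C.cons (nat_lit 2368) (C.node (nat_lit 4) (nat_lit 5) (nat_lit 7) (C.cons (nat_lit 176) (C.node (nat_lit 4) (nat_lit 7) (nat_lit 8) C.nil) C.nil)) C.nil))) C.nil)) (C.cons (nat_lit 2116) (C.node (nat_lit 2) (nat_lit 7) (nat_lit 10) (C.cons (nat_lit 1188) (C.node (nat_lit 7) (nat_lit 8) (nat_lit 10) (C.cons (nat_lit 1408) (C.node (nat_lit 2) (nat_lit 3) (nat_lit 7) (C.cons (nat_lit 142) (C.miq (nat_lit 2255553586) (nat_lit 853506480236477577828370461)) (C.cons (nat_lit 140) (C.node (nat_lit 2) (nat_lit 4) (nat_lit 10) (C.cons (nat_lit 1300) (C.miq (nat_lit 1384544832) (nat_lit 546476400249489784589845651))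 (C.cons (nat_lit 1044) (C.node (nat_lit 4) (nat_lit 5) (nat_lit 7) (C.cons (nat_lit 432) (C.miq (nat_lit 1482847242) (nat_lit 546456385319370591329125523)) C.nil)) C.nil))) C.nil))) C.nil)) (C.cons (nat_lit 1156) (C.node (nat_lit 2) (nat_lit 7) (nat_lit 11) (C.cons (nat_lit 2182) (C.node (nat_lit 7) (nat_lit 8) (nat_lit 11) (C.cons (nat_lit 2432) (C.node (nat_lit 4) (nat_lit 5) (nat_lit 7) C.nil) C.nil)) (C.cons (nat_lit 2180) (C.node (nat_lit 1) (nat_lit 7) (nat_lit 11) (C.cons (nat_lit 2434) (C.node (nat_lit 4) (nat_lit 5) (nat_lit 7) C.nil) C.nil)) C.nil))) C.nil))) C.nil))) C.nil))) (C.cons (nat_lit 196) (C.node (nat_lit 6) (nat_lit 7) (nat_lit 8) (C.cons (nat_lit 448) (C.node (nat_lit 4) (nat_lit 6) (nat_lit 9) (C.cons (nat_lit 596) (C.node (nat_lit 1) (nat_lit 2) (nat_lit 4) (C.cons (nat_lit 54) (C.node (nat_lit 1) (nat_lit 4) (nat_lit 6) C.nil) (C.cons (nat_lit 22) (C.node (nat_lit 1) (nat_lit 4) (nat_lit 6) (C.cons (nat_lit 114) (C.node (nat_lit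 1) (nat_lit 2) (nat_lit 6) C.nil) (C.cons (nat_lit 82) (C.node (nat_lit 4) (nat_lit 5) (nat_lit 6) C.nil) C.nil))) C.nil))) (C.cons (nat_lit 592) (C.node (nat_lit 5) (nat_lit 7) (nat_lit 9) (C.cons (nat_lit 928) (C.node (nat_lit 4) (nat_lit 5) (nat_lit 7) (C.cons (nat_lit 180) (C.miq (nat_lit 2236323616) (nat_lit 2533979372117459420189622917)) (C.cons (nat_lit 176) (C.node (nat_lit 2) (nat_lit 4) (nat_lit 7) (C.cons (nat_lit 404) (C.node (nat_lit 7) (nat_lit 8) (nat_lit 10) C.nil) C.nil)) C.nil))) (C.cons (nat_lit 672) (C.node (nat_lit 7) (nat_lit 8) (nat_lit 9) (C.cons (nat_lit 896) (C.node (nat_lit 1) (nat_lit 4) (nat_lit 9) (C.cons (nat_lit 530) (C.node (nat_lit 2) (nat_lit 4) (nat_lit 9) C.nil) C.nil)) C.nil)) C.nil))) C.nil))) C.nil)) C.nil))) C.nil))) (C.cons (nat_lit 704) (C.node (nat_lit 7) (nat_lit 8) (nat_lit 9) (C.cons (nat_lit 930) (C.miq (nat_lit 611388312) (nat_lit 1415656986847057289473560321)) (C.cons (nat_lit 928) (C.node (nat_lit 1)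 (nat_lit 7) (nat_lit 9) (C.cons (nat_lit 642) (C.node (nat_lit 4) (nat_lit 5) (nat_lit 7) (C.cons (nat_lit 180) (C.miq (nat_lit 2236323616) (nat_lit 2533979372117459420189622917)) (C.cons (nat_lit 176) (C.node (nat_lit 2) (nat_lit 4) (nat_lit 7)
  (C.cons (nat_lit 404) (C.node (nat_lit 7) (nat_lit 8) (nat_lit 10) C.nil) (C.cons (nat_lit 148) (C.node (nat_lit 4) (nat_lit 7) (nat_lit 8) C.nil) C.nil))) C.nil))) C.nil)) (C.cons (nat_lit 898) (C.miq (nat_lit 611388312) (nat_lit 1415656986847057289471463169)) (C.cons (nat_lit 896) (C.node (nat_lit 1) (nat_lit 7) (nat_lit 9) (C.cons (nat_lit 674) (C.node (nat_lit 5) (nat_lit 9) (nat_lit 11) (C.cons (nat_lit 2596) (C.miq (nat_lit 364149024) (nat_lit 2533930119239298348243288709)) (C.cons (nat_lit 2592) (C.node (nat_lit 1) (nat_lit 3) (nat_lit 7) (C.cons (nat_lit 142) (C.node (nat_lit 3) (nat_lit 5) (nat_lit 7) (C.cons (nat_lit 168) (C.node (nat_lit 1) (nat_lit 6) (nat_lit 7) (C.cons (nat_lit 450) (C.node (nat_lit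 1) (nat_lit 7) (nat_lit 11) (C.cons (nat_lit 2178) (C.node (nat_lit 2) (nat_lit 6) (nat_lit 7) C.nil) C.nil)) (C.cons (nat_lit 194) (C.miq (nat_lit 2255553586) (nat_lit 234536460593787440378808349)) C.nil))) C.nil)) (C.cons (nat_lit 138) (C.node (nat_lit 2) (nat_lit 3) (nat_lit 7) (C.cons (nat_lit 172) (C.node (nat_lit 3) (nat_lit 5) (nat_lit 11) (C.cons (nat_lit 2346) (C.miq (nat_lit 588843863) (nat_lit 632280102393012203697604833)) (C.cons (nat_lit 2344) (C.miq (nat_lit 2239345440) (nat_lit 814886857024025266326145053)) (C.cons (nat_lit 2090) (C.miq (nat_lit 588843863) (nat_lit 632280102393011104185977057)) (C.cons (nat_lit 2088) (C.node (nat_lit 2) (nat_lit 4) (nat_lit 7) (C.cons (nat_lit 404) (C.node (nat_lit 4) (nat_lit 5) (nat_lit 7) C.nil) (C.cons (nat_lit 148) (C.node (nat_lit 4) (nat_lit 5) (nat_lit 7) C.nil) C.nil))) C.nil))))) (C.cons (nat_lit 140) (C.node (nat_lit 3) (nat_lit 5) (nat_lit 7) (C.cons (nat_lit 168) (C.node (nat_lit 1) (nat_lit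 2) (nat_lit 7) (C.cons (nat_lit 134) (C.node (nat_lit 1) (nat_lit 6) (nat_lit 7) C.nil) C.nil)) C.nil)) C.nil))) C.nil))) C.nil))) (C.cons (nat_lit 642) (C.node (nat_lit 5) (nat_lit 7) (nat_lit 9) (C.cons (nat_lit 672) (C.node (nat_lit 6) (nat_lit 9) (nat_lit 11) (C.cons (nat_lit 2630) (C.miq (nat_lit 709451899) (nat_lit 1876301387286475514393397473)) (C.cons (nat_lit 2628) (C.miq (nat_lit 709451899) (nat_lit 1876301350392987366974294241)) (C.cons (nat_lit 2626) (C.node (nat_lit 2) (nat_lit 6) (nat_lit 11) (C.cons (nat_lit 2372) (C.node (nat_lit 2) (nat_lit 6) (nat_lit 7) (C.cons (nat_lit 198) (C.miq (nat_lit 2820737895) (nat_lit 317969092777113360053700833)) (C.cons (nat_lit 196) (C.node (nat_lit 1) (nat_lit 6) (nat_lit 7) (C.cons (nat_lit 450) (C.miq (nat_lit 1115753319) (nat_lit 317969092280591501152618721)) (C.cons (nat_lit 194) (C.node (nat_lit 6) (nat_lit 7) (nat_lit 8) C.nil) C.nil))) C.nil))) (C.cons (nat_lit 2116) (C.node (nat_lit 6) (nat_lit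 8) (nat_lit 11) (C.cons (nat_lit 2376) (C.miq (nat_lit 2202711664) (nat_lit 1267025113568903965934029025)) (C.cons (nat_lit 2368) (C.node (nat_lit 2) (nat_lit 9) (nat_lit 11) C.nil) C.nil))) C.nil))) (C.cons (nat_lit 2624) (C.node (nat_lit 1) (nat_lit 6) (nat_lit 7) (C.cons (nat_lit 450) (C.node (nat_lit 2) (nat_lit 6) (nat_lit 7) (C.cons (nat_lit 196) (C.node (nat_lit 1) (nat_lit 8) (nat_lit 9) C.nil) C.nil)) (C.cons (nat_lit 198) (C.node (nat_lit 6) (nat_lit 7) (nat_lit 8) (C.cons (nat_lit 448) (C.node (nat_lit 3) (nat_lit 9) (nat_lit 10) C.nil) C.nil)) (C.cons (nat_lit 194) (C.node (nat_lit 2) (nat_lit 6) (nat_lit 7) (C.cons (nat_lit 452) (C.node (nat_lit 3) (nat_lit 9) (nat_lit 10) C.nil) (C.cons (nat_lit 196) (C.node (nat_lit 6) (nat_lit 7) (nat_lit 8) C.nil) C.nil))) C.nil)))) C.nil))))) C.nil)) C.nil))) C.nil))))) C.nil))))) List.nil)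

theorem ok12_253 : okL par12 (nat_lit 254) c12_253 (nat_lit 253) = true := by decide +kernel

noncomputable def c12_254 : List C :=
  (List.cons (C.node (nat_lit 7) (nat_lit 10) (nat_lit 11) (C.cons (nat_lit 3204) (C.node (nat_lit 1) (nat_lit 7) (nat_lit 11) (C.cons (nat_lit 2434) (C.node (nat_lit 6) (nat_lit 8) (nat_lit 11) (C.cons (nat_lit 2376) (C.miq (nat_lit 2202711664) (nat_lit 1267025113568903965934029025)) (C.cons (nat_lit 2372) (C.miq (nat_lit 642234378) (nat_lit 261187081072432159378312961)) (C.cons (nat_lit 2368) (C.node (nat_lit 2) (nat_lit 8) (nat_lit 11) (C.cons (nat_lit 2340) (C.node (nat_lit 3) (nat_lit 8) (nat_lit 11) (C.cons (nat_lit 2312) (C.node (nat_lit 5) (nat_lit 10) (nat_lit 11) (C.cons (nat_lit 3106) (C.miq (nat_lit 1535353200) (nat_lit 2795056141605732884232602771)) (C.cons (nat_lit 3104) (C.node (nat_lit 1) (nat_lit 3) (nat_lit 7) (C.cons (nat_lit 174) (C.miq (nat_lit 2820737879) (nat_lit 317969092777113222613174497)) (C.cons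 (nat_lit 170) (C.miq (nat_lit 363557640) (nat_lit 3752550643506739687769309577)) (C.cons (nat_lit 142) (C.miq (nat_lit 1729643296) (nat_lit 2942531661555559456225822749)) (C.cons (nat_lit 138) (C.node (nat_lit 1) (nat_lit 2) (nat_lit 7) (C.cons (nat_lit 198) (C.miq (nat_lit 2819754870) (nat_lit 317967653931075876996647137)) (C.cons (nat_lit 166) (C.miq (nat_lit 2820737879) (nat_lit 317969092777113222612650209)) (C.cons (nat_lit 134) (C.node (nat_lit 1) (nat_lit 5) (nat_lit 7) (C.cons (nat_lit 674) (C.node (nat_lit 1) (nat_lit 6) (nat_lit 7) (C.cons (nat_lit 194) (C.node (nat_lit 5) (nat_lit 9) (nat_lit 11) (C.cons (nat_lit 2592) (C.node (nat_lit 1) (nat_lit 5) (nat_lit 11) (C.cons (nat_lit 2090) (C.miq (nat_lit 588843863) (nat_lit 632280102393011104185977057)) C.nil)) C.nil)) C.nil)) (C.cons (nat_lit 162) (C.node (nat_lit 1) (nat_lit 6) (nat_lit 7) (C.cons (nat_lit 706) (C.node (nat_lit 6) (nat_lit 9) (nat_lit 11) (C.cons (nat_lit 2628) (C.miq (nat_lit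 2811626674) (nat_lit 853521791268819573374453789)) (C.cons (nat_lit 2624) (C.node (nat_lit 2) (nat_lit 6) (nat_lit 11) (C.cons (nat_lit 2118) (C.node (nat_lit 2) (nat_lit 9) (nat_lit 11) C.nil) C.nil)) C.nil))) (C.cons (nat_lit 194) (C.node (nat_lit 1) (nat_lit 7) (nat_lit 9) (C.cons (nat_lit 642) (C.node (nat_lit 6) (nat_lit 7) (nat_lit 9) (C.cons (nat_lit 960) (C.miq (nat_lit 2521532208) (nat_lit 2572664998354134907653783945)) (C.cons (nat_lit 704) (C.node (nat_lit 2) (nat_lit 3) (nat_lit 7) (C.cons (nat_lit 172) (C.node (nat_lit 7) (nat_lit 8) (nat_lit 9) (C.cons (nat_lit 928) (C.miq (nat_lit 998580375) (nat_lit 2828889591322852970513564293)) (C.cons (nat_lit 896) (C.node (nat_lit 5) (nat_lit 7) (nat_lit 9) (C.cons (nat_lit 1696) (C.miq (nat_lit 1114966953) (nat_lit 207945590181778856922320641)) C.nil)) C.nil))) (C.cons (nat_lit 140) (C.node (nat_lit 2) (nat_lit 5) (nat_lit 7) (C.cons (nat_lit 180) (C.miq (nat_lit 2602895988) (nat_lit 2828896767602816766503552147))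 C.nil)) C.nil))) C.nil))) C.nil)) C.nil))) C.nil))) C.nil)))) C.nil))))) C.nil))) C.nil)) (C.cons (nat_lit 2308) (C.node (nat_lit 3) (nat_lit 7) (nat_lit 10) (C.cons (nat_lit 1672) (C.node (nat_lit 3) (nat_lit 8) (nat_lit 11) (C.cons (nat_lit 2344) (C.node (nat_lit 1) (nat_lit 3) (nat_lit 8) (C.cons (nat_lit 1354) (C.miq (nat_lit 2473109312) (nat_lit 1636956414172822109735158931)) (C.cons (nat_lit 1290) (C.miq (nat_lit 2189037715) (nat_lit 3873422122419157650318557707)) (C.cons (nat_lit 330) (C.miq (nat_lit 2709718965) (nat_lit 398965166584883780157704417)) (C.cons (nat_lit 282) (C.miq (nat_lit 2709718965) (nat_lit 340936727243381579771807969)) (C.cons (nat_lit 266) (C.miq (nat_lit 2709718965) (nat_lit 321593914129547512976509153)) C.nil)))))) (C.cons (nat_lit 2312) (C.node (nat_lit 5) (nat_lit 8) (nat_lit 11) (C.cons (nat_lit 2336) (C.node (nat_lit 5) (nat_lit 10) (nat_lit 11) (C.cons (nat_lit 3106) (C.miq (nat_lit 1535353200) (nat_lit 2795056141605732884232602771))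 C.nil)) C.nil)) C.nil))) (C.cons (nat_lit 1160) (C.node (nat_lit 7) (nat_lit 9) (nat_lit 10) (C.cons (nat_lit 1696) (C.miq (nat_lit 1397203129) (nat_lit 261159263014488684157210369)) (C.cons (nat_lit 1664)
  (C.node (nat_lit 3) (nat_lit 7) (nat_lit 9) (C.cons (nat_lit 680) (C.node (nat_lit 1) (nat_lit 3) (nat_lit 7) (C.cons (nat_lit 142) (C.miq (nat_lit 1729643296) (nat_lit 2942531661555559456225822749)) (C.cons (nat_lit 138) (C.node (nat_lit 2) (nat_lit 3) (nat_lit 7) (C.cons (nat_lit 140) (C.node (nat_lit 5) (nat_lit 10) (nat_lit 11) (C.cons (nat_lit 3106) (C.miq (nat_lit 1366535040) (nat_lit 166851409763529058421378817)) (C.cons (nat_lit 3104) (C.node (nat_lit 3) (nat_lit 8) (nat_lit 11) (C.cons (nat_lit 2344) (C.miq (nat_lit 458913840) (nat_lit 3752527345906239432959787401)) (C.cons (nat_lit 2312) (C.node (nat_lit 5) (nat_lit 8) (nat_lit 11) C.nil) C.nil))) C.nil))) C.nil)) C.nil))) (C.cons (nat_lit 648) (C.node (nat_lit 3) (nat_lit 8) (nat_lit 11)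 (C.cons (nat_lit 2344) (C.node (nat_lit 3) (nat_lit 4) (nat_lit 8) (C.cons (nat_lit 282) (C.miq (nat_lit 2709718965) (nat_lit 340936727243381579771807969)) (C.cons (nat_lit 280) (C.node (nat_lit 5) (nat_lit 7) (nat_lit 10) (C.cons (nat_lit 1440) (C.miq (nat_lit 1464044043) (nat_lit 261171216610197672931692289)) (C.cons (nat_lit 1184) (C.node (nat_lit 7) (nat_lit 8) (nat_lit 10) (C.cons (nat_lit 1408) (C.node (nat_lit 5) (nat_lit 10) (nat_lit 11) (C.cons (nat_lit 3106) (C.node (nat_lit 1) (nat_lit 3) (nat_lit 4) (C.cons (nat_lit 58) (C.miq (nat_lit 1934721195) (nat_lit 70162597023348141372608257)) (C.cons (nat_lit 26) (C.node (nat_lit 3) (nat_lit 4) (nat_lit 5) (C.cons (nat_lit 56) (C.node (nat_lit 1) (nat_lit 3) (nat_lit 11) C.nil) C.nil)) C.nil))) (C.cons (nat_lit 3104) (C.miq (nat_lit 458913840) (nat_lit 3752527345906239432959787401)) C.nil))) C.nil)) C.nil))) C.nil))) (C.cons (nat_lit 2312) (C.node (nat_lit 5) (nat_lit 8) (nat_lit 11) (C.cons (nat_lit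 2336) (C.node (nat_lit 5) (nat_lit 10) (nat_lit 11) (C.cons (nat_lit 3106) (C.miq (nat_lit 1535353200) (nat_lit 2795056141605732884232602771)) C.nil)) C.nil)) C.nil))) C.nil))) C.nil))) C.nil))) C.nil))) C.nil)))) (C.cons (nat_lit 2178) (C.node (nat_lit 7) (nat_lit 8) (nat_lit 11) (C.cons (nat_lit 2432) (C.node (nat_lit 3) (nat_lit 7) (nat_lit 10) (C.cons (nat_lit 1672) (C.node (nat_lit 5) (nat_lit 7) (nat_lit 10) (C.cons (nat_lit 1440) (C.node (nat_lit 4) (nat_lit 5) (nat_lit 7) (C.cons (nat_lit 180) (C.miq (nat_lit 2591361828) (nat_lit 1740863529949650509267994653)) (C.cons (nat_lit 176) (C.node (nat_lit 4) (nat_lit 8) (nat_lit 10) (C.cons (nat_lit 1300) (C.miq (nat_lit 610773003) (nat_lit 261187080770690984416710401)) (C.cons (nat_lit 1296) (C.node (nat_lit 2) (nat_lit 8) (nat_lit 10) (C.cons (nat_lit 1292) (C.miq (nat_lit 1512798256) (nat_lit 3873440255899880933266620809)) (C.cons (nat_lit 1284) (C.node (nat_lit 2) (nat_lit 8) (nat_lit 11) (C.cons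 (nat_lit 2372) (C.miq (nat_lit 642234378) (nat_lit 261187081072432159378312961)) (C.cons (nat_lit 2340) (C.miq (nat_lit 628406432) (nat_lit 212809258798273459819581185)) (C.cons (nat_lit 2308) (C.node (nat_lit 1) (nat_lit 3) (nat_lit 7) (C.cons (nat_lit 174) (C.miq (nat_lit 2591099683) (nat_lit 1415661783497040460308678685)) (C.cons (nat_lit 170) (C.miq (nat_lit 277166503) (nat_lit 349382697962348271997290120)) (C.cons (nat_lit 142) (C.miq (nat_lit 2591099683) (nat_lit 1415661783497040460306581533)) (C.cons (nat_lit 138) (C.node (nat_lit 2) (nat_lit 3) (nat_lit 7) (C.cons (nat_lit 172) (C.miq (nat_lit 1387950856) (nat_lit 3873424889405160634405945737)) (C.cons (nat_lit 140) (C.node (nat_lit 3) (nat_lit 5) (nat_lit 7) (C.cons (nat_lit 168) (C.node (nat_lit 1) (nat_lit 7) (nat_lit 8) (C.cons (nat_lit 962) (C.miq (nat_lit 611388312) (nat_lit 1415656986847057289475657473)) (C.cons (nat_lit 898) (C.miq (nat_lit 611388312) (nat_lit 1415656986847057289471463169))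 (C.cons (nat_lit 450) (C.miq (nat_lit 389187136) (nat_lit 169254466366404137439789393)) (C.cons (nat_lit 386) (C.node (nat_lit 7) (nat_lit 8) (nat_lit 9) (C.cons (nat_lit 960) (C.miq (nat_lit 914977802) (nat_lit 1160599629846935292713436307)) (C.cons (nat_lit 896)
  (C.node (nat_lit 5) (nat_lit 10) (nat_lit 11) C.nil) C.nil))) C.nil))))) C.nil)) C.nil))) C.nil))))) C.nil)))) C.nil))) C.nil))) C.nil))) (C.cons (nat_lit 1184) (C.node (nat_lit 7) (nat_lit 8) (nat_lit 10) (C.cons (nat_lit 1408) (C.node (nat_lit 5) (nat_lit 10) (nat_lit 11) (C.cons (nat_lit 3106) (C.node (nat_lit 3) (nat_lit 5) (nat_lit 11) (C.cons (nat_lit 2344) (C.miq (nat_lit 461874480) (nat_lit 2940129195314359811862758441)) (C.cons (nat_lit 2088) (C.node (nat_lit 5) (nat_lit 9) (nat_lit 11) (C.cons (nat_lit 2596) (C.miq (nat_lit 1537512048) (nat_lit 3733173280324123043243950725)) (C.cons (nat_lit 2592) (C.node (nat_lit 2) (nat_lit 5) (nat_lit 11) (C.cons (nat_lit 2340) (C.node (nat_lit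 3) (nat_lit 10) (nat_lit 11) (C.cons (nat_lit 3144) (C.node (nat_lit 1) (nat_lit 3) (nat_lit 11) C.nil) C.nil)) C.nil)) C.nil))) C.nil))) (C.cons (nat_lit 3104) (C.node (nat_lit 2) (nat_lit 8) (nat_lit 11) (C.cons (nat_lit 2372) (C.miq (nat_lit 642234378) (nat_lit 261187081072432159378312961)) (C.cons (nat_lit 2340) (C.node (nat_lit 3) (nat_lit 5) (nat_lit 11) (C.cons (nat_lit 2090) (C.node (nat_lit 5) (nat_lit 9) (nat_lit 11) (C.cons (nat_lit 2592) (C.node (nat_lit 3) (nat_lit 8) (nat_lit 11) (C.cons (nat_lit 2376) (C.miq (nat_lit 2202711664) (nat_lit 1267025113568903965934029025)) C.nil)) C.nil)) (C.cons (nat_lit 2088) (C.node (nat_lit 1) (nat_lit 5) (nat_lit 11) (C.cons (nat_lit 2594) (C.node (nat_lit 2) (nat_lit 9) (nat_lit 11) (C.cons (nat_lit 2628) (C.miq (nat_lit 1786323019) (nat_lit 2021372448746742867939035165)) C.nil)) C.nil)) C.nil))) (C.cons (nat_lit 2308) (C.node (nat_lit 4) (nat_lit 9) (nat_lit 10) (C.cons (nat_lit 1616) (C.node (nat_lit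 1) (nat_lit 3) (nat_lit 7) (C.cons (nat_lit 174) (C.miq (nat_lit 2591099683) (nat_lit 1415661783497040460308678685)) (C.cons (nat_lit 170) (C.node (nat_lit 2) (nat_lit 3) (nat_lit 7) (C.cons (nat_lit 140) (C.node (nat_lit 1) (nat_lit 3) (nat_lit 4) (C.cons (nat_lit 282) (C.miq (nat_lit 1350661699) (nat_lit 317950627144934073057280216)) (C.cons (nat_lit 26) (C.node (nat_lit 3) (nat_lit 5) (nat_lit 11) (C.cons (nat_lit 2344) (C.miq (nat_lit 448098435) (nat_lit 3752508880359925183762923913)) (C.cons (nat_lit 2088) (C.node (nat_lit 5) (nat_lit 8) (nat_lit 11) C.nil) C.nil))) C.nil))) C.nil)) (C.cons (nat_lit 142) (C.miq (nat_lit 2591099683) (nat_lit 1415661783497040460306581533)) (C.cons (nat_lit 138) (C.node (nat_lit 2) (nat_lit 3) (nat_lit 7) (C.cons (nat_lit 172) (C.node (nat_lit 2) (nat_lit 3) (nat_lit 9) (C.cons (nat_lit 844) (C.miq (nat_lit 389155480) (nat_lit 207940092797021982630350593)) (C.cons (nat_lit 780) (C.miq (nat_lit 389155480) (nat_lit 207940092797021982626156289))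 (C.cons (nat_lit 588) (C.miq (nat_lit 2302020212) (nat_lit 710854599567307361591231635)) (C.cons (nat_lit 524) (C.node (nat_lit 2) (nat_lit 3) (nat_lit 8) (C.cons (nat_lit 1292) (C.miq (nat_lit 1537372291) (nat_lit 3873401499525061672918843785)) (C.cons (nat_lit 332) (C.miq (nat_lit 2473109312) (nat_lit 401434226526671093185447059)) (C.cons (nat_lit 268) (C.node (nat_lit 3) (nat_lit 6) (nat_lit 9) (C.cons (nat_lit 872) (C.miq (nat_lit 1488075175) (nat_lit 2790203964756007490135787144)) (C.cons (nat_lit 840) (C.node (nat_lit 3) (nat_lit 5) (nat_lit 9) (C.cons (nat_lit 552) (C.node (nat_lit 3) (nat_lit 8) (nat_lit 10) (C.cons (nat_lit 1290) (C.miq (nat_lit 657525160) (nat_lit 166836614782068752969764609)) C.nil)) C.nil)) (C.cons (nat_lit 616) (C.miq (nat_lit 2302020212) (nat_lit 744704522516516978483004563)) (C.cons (nat_lit 584) (C.miq (nat_lit 2302020212) (nat_lit 706018896288848844892406931)) C.nil))))) C.nil)))) C.nil))))) (C.cons (nat_lit 140) (C.node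 (nat_lit 3) (nat_lit 5) (nat_lit 7) (C.cons (nat_lit 168) (C.node (nat_lit 2) (nat_lit 4) (nat_lit 7) (C.cons (nat_lit 436) (C.miq (nat_lit 614102283) (nat_lit 1953683227987978411302783201)) (C.cons (nat_lit 404) (C.node (nat_lit 4) (nat_lit 5) (nat_lit 7) C.nil) (C.cons (nat_lit 180)
  (C.miq (nat_lit 614102283) (nat_lit 1953683227915920817264855265)) C.nil)))) C.nil)) C.nil))) C.nil))))) (C.cons (nat_lit 1556) (C.miq (nat_lit 645177529) (nat_lit 261156680478200505981472513)) (C.cons (nat_lit 1552) (C.node (nat_lit 3) (nat_lit 6) (nat_lit 9) (C.cons (nat_lit 876) (C.miq (nat_lit 1772389232) (nat_lit 1876259088841236580123476361)) (C.cons (nat_lit 872) (C.miq (nat_lit 1772389232) (nat_lit 1876259088840110680216633737)) (C.cons (nat_lit 844) (C.miq (nat_lit 1772389232) (nat_lit 1876259088832229380868735369)) (C.cons (nat_lit 840) (C.miq (nat_lit 1772389232) (nat_lit 1876259088831103480961892745)) (C.cons (nat_lit 620) (C.miq (nat_lit 2302020212) (nat_lit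 749540225794975495181829267)) (C.cons (nat_lit 616) (C.miq (nat_lit 2302020212) (nat_lit 744704522516516978483004563)) (C.cons (nat_lit 588) (C.miq (nat_lit 2302020212) (nat_lit 710854599567307361591231635)) (C.cons (nat_lit 584) (C.miq (nat_lit 2302020212) (nat_lit 706018896288848844892406931)) C.nil))))))))) C.nil)))) C.nil)))) C.nil))) C.nil)) C.nil))) (C.cons (nat_lit 1160) (C.node (nat_lit 7) (nat_lit 9) (nat_lit 10) (C.cons (nat_lit 1696) (C.miq (nat_lit 1397203129) (nat_lit 261159263014488684157210369)) (C.cons (nat_lit 1664) (C.node (nat_lit 3) (nat_lit 7) (nat_lit 9) (C.cons (nat_lit 680) (C.node (nat_lit 1) (nat_lit 3) (nat_lit 7) (C.cons (nat_lit 142) (C.miq (nat_lit 2591099683) (nat_lit 1415661783497040460306581533)) (C.cons (nat_lit 138) (C.node (nat_lit 2) (nat_lit 3) (nat_lit 7) (C.cons (nat_lit 140) (C.node (nat_lit 7) (nat_lit 8) (nat_lit 9) (C.cons (nat_lit 962) (C.miq (nat_lit 611388312) (nat_lit 1415656986847057289475657473)) (C.cons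 (nat_lit 960) (C.miq (nat_lit 2521532208) (nat_lit 2572664998354134907653783945)) (C.cons (nat_lit 898) (C.miq (nat_lit 611388312) (nat_lit 1415656986847057289471463169)) (C.cons (nat_lit 896) (C.node (nat_lit 1) (nat_lit 7) (nat_lit 9) (C.cons (nat_lit 706) (C.node (nat_lit 6) (nat_lit 9) (nat_lit 11) (C.cons (nat_lit 2628) (C.miq (nat_lit 2811626674) (nat_lit 853521791268819573374453789)) (C.cons (nat_lit 2624) (C.node (nat_lit 1) (nat_lit 2) (nat_lit 7) (C.cons (nat_lit 166) (C.node (nat_lit 1) (nat_lit 7) (nat_lit 8) (C.cons (nat_lit 386) (C.node (nat_lit 5) (nat_lit 10) (nat_lit 11) C.nil) C.nil)) (C.cons (nat_lit 134) (C.node (nat_lit 5) (nat_lit 10) (nat_lit 11) C.nil) C.nil))) C.nil))) (C.cons (nat_lit 642) (C.node (nat_lit 6) (nat_lit 7) (nat_lit 9) C.nil) C.nil))) C.nil))))) C.nil)) C.nil))) (C.cons (nat_lit 648) (C.node (nat_lit 5) (nat_lit 7) (nat_lit 10) (C.cons (nat_lit 1440) (C.node (nat_lit 4) (nat_lit 5) (nat_lit 7) (C.cons (nat_lit 180)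 (C.miq (nat_lit 2591361828) (nat_lit 1740863529949650509267994653)) (C.cons (nat_lit 176) (C.node (nat_lit 4) (nat_lit 8) (nat_lit 10) (C.cons (nat_lit 1300) (C.miq (nat_lit 610773003) (nat_lit 261187080770690984416710401)) (C.cons (nat_lit 1296) (C.node (nat_lit 2) (nat_lit 8) (nat_lit 10) (C.cons (nat_lit 1292) (C.miq (nat_lit 1512798256) (nat_lit 3873440255899880933266620809)) (C.cons (nat_lit 1284) (C.node (nat_lit 2) (nat_lit 8) (nat_lit 11) (C.cons (nat_lit 2372) (C.miq (nat_lit 642234378) (nat_lit 261187081072432159378312961)) (C.cons (nat_lit 2340) (C.miq (nat_lit 628406432) (nat_lit 212809258798273459819581185)) (C.cons (nat_lit 2308) (C.node (nat_lit 2) (nat_lit 3) (nat_lit 7) (C.cons (nat_lit 174) (C.miq (nat_lit 2591099683) (nat_lit 1415661783497040460308678685)) (C.cons (nat_lit 172) (C.miq (nat_lit 1387950856) (nat_lit 3873424889405160634405945737)) (C.cons (nat_lit 142) (C.miq (nat_lit 2591099683) (nat_lit 1415661783497040460306581533))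 (C.cons (nat_lit 140) (C.node (nat_lit 1) (nat_lit 7) (nat_lit 8) (C.cons (nat_lit 962) (C.miq (nat_lit 611388312) (nat_lit 1415656986847057289475657473)) (C.cons (nat_lit 898) (C.miq (nat_lit 611388312) (nat_lit 1415656986847057289471463169)) (C.cons (nat_lit 450) (C.miq (nat_lit 389187136) (nat_lit 169254466366404137439789393)) (C.cons (nat_lit 386)
  (C.node (nat_lit 5) (nat_lit 10) (nat_lit 11) C.nil) C.nil))))) C.nil))))) C.nil)))) C.nil))) C.nil))) C.nil))) (C.cons (nat_lit 1184) (C.node (nat_lit 7) (nat_lit 8) (nat_lit 10) (C.cons (nat_lit 1408) (C.node (nat_lit 5) (nat_lit 10) (nat_lit 11) (C.cons (nat_lit 3106) (C.node (nat_lit 3) (nat_lit 5) (nat_lit 11) (C.cons (nat_lit 2344) (C.miq (nat_lit 461874480) (nat_lit 2940129195314359811862758441)) (C.cons (nat_lit 2088) (C.node (nat_lit 5) (nat_lit 9) (nat_lit 11) (C.cons (nat_lit 2596) (C.miq (nat_lit 1537512048) (nat_lit 3733173280324123043243950725)) (C.cons (nat_lit 2592) (C.node (nat_lit 2)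 (nat_lit 5) (nat_lit 11) (C.cons (nat_lit 2340) (C.node (nat_lit 3) (nat_lit 10) (nat_lit 11) (C.cons (nat_lit 3144) (C.node (nat_lit 1) (nat_lit 3) (nat_lit 11) C.nil) C.nil)) C.nil)) C.nil))) C.nil))) (C.cons (nat_lit 3104) (C.node (nat_lit 2) (nat_lit 8) (nat_lit 11) (C.cons (nat_lit 2372) (C.miq (nat_lit 642234378) (nat_lit 261187081072432159378312961)) (C.cons (nat_lit 2340) (C.node (nat_lit 3) (nat_lit 5) (nat_lit 11) (C.cons (nat_lit 2090) (C.node (nat_lit 5) (nat_lit 9) (nat_lit 11) (C.cons (nat_lit 2592) (C.node (nat_lit 3) (nat_lit 8) (nat_lit 11) (C.cons (nat_lit 2376) (C.miq (nat_lit 2202711664) (nat_lit 1267025113568903965934029025)) C.nil)) C.nil)) (C.cons (nat_lit 2088) (C.node (nat_lit 1) (nat_lit 5) (nat_lit 11) (C.cons (nat_lit 2594) (C.node (nat_lit 2) (nat_lit 9) (nat_lit 11) (C.cons (nat_lit 2628) (C.miq (nat_lit 1786323019) (nat_lit 2011701042189825834541385757)) C.nil)) C.nil)) C.nil))) (C.cons (nat_lit 2308) (C.node (nat_lit 4)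 (nat_lit 9) (nat_lit 10) (C.cons (nat_lit 1616) (C.node (nat_lit 3) (nat_lit 6) (nat_lit 9) (C.cons (nat_lit 876) (C.miq (nat_lit 967280192) (nat_lit 2011659813655742934907289937)) (C.cons (nat_lit 872) (C.miq (nat_lit 967280192) (nat_lit 2011659813654617035000447313)) (C.cons (nat_lit 844) (C.miq (nat_lit 967280192) (nat_lit 2011659813646735735652548945)) (C.cons (nat_lit 840) (C.miq (nat_lit 967280192) (nat_lit 2011659813645609835745706321)) (C.cons (nat_lit 620) (C.miq (nat_lit 2304969287) (nat_lit 749541258812643382398551187)) (C.cons (nat_lit 616) (C.miq (nat_lit 2304969287) (nat_lit 744705555534184865699726483)) (C.cons (nat_lit 588) (C.miq (nat_lit 2304969287) (nat_lit 710855632584975248807953555)) (C.cons (nat_lit 584) (C.miq (nat_lit 2304969287) (nat_lit 706019929306516732109128851)) C.nil))))))))) (C.cons (nat_lit 1556) (C.miq (nat_lit 645177529) (nat_lit 261156680478200505981472513)) (C.cons (nat_lit 1552) (C.node (nat_lit 4) (nat_lit 6) (nat_lit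 10) (C.cons (nat_lit 1136) (C.node (nat_lit 2) (nat_lit 4) (nat_lit 10) (C.cons (nat_lit 1300) (C.miq (nat_lit 610773003) (nat_lit 261187080770690984416710401)) (C.cons (nat_lit 1044) (C.node (nat_lit 4) (nat_lit 8) (nat_lit 10) (C.cons (nat_lit 1296) (C.node (nat_lit 2) (nat_lit 8) (nat_lit 10) C.nil) C.nil)) C.nil))) (C.cons (nat_lit 1104) (C.node (nat_lit 1) (nat_lit 3) (nat_lit 7) (C.cons (nat_lit 174) (C.miq (nat_lit 2591099683) (nat_lit 1415661783497040460308678685)) (C.cons (nat_lit 170) (C.node (nat_lit 2) (nat_lit 3) (nat_lit 7) C.nil) (C.cons (nat_lit 142) (C.miq (nat_lit 2591099683) (nat_lit 1415661783497040460306581533)) (C.cons (nat_lit 138) (C.node (nat_lit 2) (nat_lit 3) (nat_lit 7) C.nil) C.nil))))) C.nil))) C.nil)))) C.nil)))) C.nil))) C.nil)) C.nil))) C.nil))) C.nil))) C.nil))) C.nil)) C.nil))) (C.cons (nat_lit 3200) (C.node (nat_lit 4) (nat_lit 9) (nat_lit 10) (C.cons (nat_lit 1616) (C.node (nat_lit 7) (nat_lit 9) (nat_lit 10) (C.cons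 (nat_lit 1696) (C.miq (nat_lit 1397203129) (nat_lit 261159263014488684157210369)) (C.cons (nat_lit 1672) (C.ref (nat_lit 251) (nat_lit 205163983024656)) (C.cons (nat_lit 1664) (C.node (nat_lit 3) (nat_lit 6) (nat_lit 9) (C.cons (nat_lit 876) (C.miq (nat_lit 967280192) (nat_lit 2011659813655742934907289937)) (C.cons (nat_lit 872) (C.miq (nat_lit 967280192) (nat_lit 2011659813654617035000447313)) (C.cons (nat_lit 844)
  (C.miq (nat_lit 967280192) (nat_lit 2011659813646735735652548945)) (C.cons (nat_lit 840) (C.miq (nat_lit 967280192) (nat_lit 2011659813645609835745706321)) (C.cons (nat_lit 620) (C.miq (nat_lit 2304969287) (nat_lit 749541258812643382398551187)) (C.cons (nat_lit 616) (C.miq (nat_lit 2304969287) (nat_lit 744705555534184865699726483)) (C.cons (nat_lit 588) (C.miq (nat_lit 2304969287) (nat_lit 710855632584975248807953555)) (C.cons (nat_lit 584) (C.miq (nat_lit 2304969287) (nat_lit 706019929306516732109128851)) C.nil))))))))) C.nil)))) (C.cons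 (nat_lit 1556) (C.miq (nat_lit 645177529) (nat_lit 261156680478200505981472513)) (C.cons (nat_lit 1552) (C.node (nat_lit 4) (nat_lit 6) (nat_lit 10) (C.cons (nat_lit 1136) (C.node (nat_lit 2) (nat_lit 4) (nat_lit 10) (C.cons (nat_lit 1300) (C.node (nat_lit 4) (nat_lit 7) (nat_lit 8) (C.cons (nat_lit 432) (C.miq (nat_lit 544777812) (nat_lit 475131828183507000110351472)) (C.cons (nat_lit 400) (C.node (nat_lit 2) (nat_lit 4) (nat_lit 7) (C.cons (nat_lit 180) (C.node (nat_lit 2) (nat_lit 8) (nat_lit 11) (C.cons (nat_lit 2436) (C.miq (nat_lit 2552499061) (nat_lit 1571613915203599126274246881)) (C.cons (nat_lit 2372) (C.miq (nat_lit 1648867488) (nat_lit 217648577647577021549842177)) (C.cons (nat_lit 2340) (C.node (nat_lit 7) (nat_lit 8) (nat_lit 10) (C.cons (nat_lit 1440) (C.node (nat_lit 7) (nat_lit 8) (nat_lit 9) (C.cons (nat_lit 962) (C.miq (nat_lit 611388312) (nat_lit 1415656986847057289475657473)) (C.cons (nat_lit 960) (C.miq (nat_lit 2521532208) (nat_lit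 2572664998354134907653783945)) (C.cons (nat_lit 898) (C.miq (nat_lit 611388312) (nat_lit 1415656986847057289471463169)) (C.cons (nat_lit 896) (C.node (nat_lit 3) (nat_lit 8) (nat_lit 9) (C.cons (nat_lit 872) (C.miq (nat_lit 2521465712) (nat_lit 1373410585271652968335344009)) (C.cons (nat_lit 844) (C.miq (nat_lit 337840777) (nat_lit 2510948575316348127201201921)) (C.cons (nat_lit 840) (C.miq (nat_lit 2521465712) (nat_lit 1373410585262645769080603017)) (C.cons (nat_lit 808) (C.miq (nat_lit 394857043) (nat_lit 1083207182351471673166267433)) (C.cons (nat_lit 780) (C.miq (nat_lit 337840777) (nat_lit 2510948575316348127197007617)) (C.cons (nat_lit 776) (C.node (nat_lit 7) (nat_lit 9) (nat_lit 10) (C.cons (nat_lit 1672) (C.miq (nat_lit 1754480807) (nat_lit 938130420612545725065594003)) (C.cons (nat_lit 1664) (C.node (nat_lit 2) (nat_lit 3) (nat_lit 8) (C.cons (nat_lit 332) (C.node (nat_lit 2) (nat_lit 7) (nat_lit 8) (C.cons (nat_lit 388) (C.node (nat_lit 2)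 (nat_lit 8) (nat_lit 9) (C.cons (nat_lit 772) (C.node (nat_lit 2) (nat_lit 6) (nat_lit 7) (C.cons (nat_lit 198) (C.miq (nat_lit 2172002371) (nat_lit 239373436676761996458723357)) (C.cons (nat_lit 196) (C.node (nat_lit 2) (nat_lit 7) (nat_lit 10) (C.cons (nat_lit 1164) (C.miq (nat_lit 1654948720) (nat_lit 1571609782145225458923536777)) (C.cons (nat_lit 1156) (C.node (nat_lit 3) (nat_lit 7) (nat_lit 10) C.nil) C.nil))) C.nil))) C.nil)) C.nil)) (C.cons (nat_lit 268) (C.node (nat_lit 1) (nat_lit 3) (nat_lit 7) (C.cons (nat_lit 170) (C.miq (nat_lit 1402499338) (nat_lit 938152999380271373886751891)) (C.cons (nat_lit 142) (C.miq (nat_lit 1663584016) (nat_lit 323998336270272663812244627)) (C.cons (nat_lit 138) (C.node (nat_lit 1) (nat_lit 5) (nat_lit 7) (C.cons (nat_lit 674) (C.miq (nat_lit 588726421) (nat_lit 166835084105377866768843313)) (C.cons (nat_lit 162) (C.node (nat_lit 1) (nat_lit 4) (nat_lit 5) (C.cons (nat_lit 314) (C.miq (nat_lit 2438398786) (nat_lit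 195857881074710230414395421)) (C.cons (nat_lit 306) (C.miq (nat_lit 1703060496) (nat_lit 2828906580509261721172903059)) (C.cons (nat_lit 58) (C.miq (nat_lit 2438398786) (nat_lit 195857881074709130902767645)) (C.cons (nat_lit 50) (C.node (nat_lit 1) (nat_lit 3) (nat_lit 4) (C.cons (nat_lit 282) (C.node (nat_lit 3) (nat_lit 4) (nat_lit 5) C.nil) C.nil)) C.nil))))) C.nil))) C.nil)))) C.nil))) C.nil))) C.nil))))))) C.nil))))) (C.cons (nat_lit 1408) (C.miq (nat_lit 1487385152) (nat_lit 1702209484125334448834283549)) C.nil))) (C.cons (nat_lit 2308)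
  (C.miq (nat_lit 1535275172) (nat_lit 2790204112724306522059048083)) C.nil))))) (C.cons (nat_lit 148) (C.node (nat_lit 4) (nat_lit 5) (nat_lit 7) C.nil) C.nil))) C.nil))) (C.cons (nat_lit 1044) (C.node (nat_lit 4) (nat_lit 8) (nat_lit 10) (C.cons (nat_lit 1296) (C.node (nat_lit 7) (nat_lit 9) (nat_lit 10) (C.cons (nat_lit 1696) (C.miq (nat_lit 1397203129) (nat_lit 261159263014488684157210369)) (C.cons (nat_lit 1672) (C.node (nat_lit 3) (nat_lit 6) (nat_lit 9) (C.cons (nat_lit 876) (C.miq (nat_lit 1772389232) (nat_lit 1876259088841236580123476361)) (C.cons (nat_lit 872) (C.miq (nat_lit 1772389232) (nat_lit 1876259088840110680216633737)) (C.cons (nat_lit 844) (C.miq (nat_lit 1772389232) (nat_lit 1876259088832229380868735369)) (C.cons (nat_lit 840) (C.miq (nat_lit 1772389232) (nat_lit 1876259088831103480961892745)) (C.cons (nat_lit 620) (C.miq (nat_lit 2302020212) (nat_lit 749540225794975495181829267)) (C.cons (nat_lit 616) (C.miq (nat_lit 2302020212) (nat_lit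 744704522516516978483004563)) (C.cons (nat_lit 588) (C.miq (nat_lit 2302020212) (nat_lit 710854599567307361591231635)) (C.cons (nat_lit 584) (C.miq (nat_lit 2302020212) (nat_lit 706018896288848844892406931)) C.nil))))))))) (C.cons (nat_lit 1664) (C.node (nat_lit 3) (nat_lit 7) (nat_lit 9) (C.cons (nat_lit 680) (C.node (nat_lit 7) (nat_lit 8) (nat_lit 9) (C.cons (nat_lit 962) (C.miq (nat_lit 611388312) (nat_lit 1415656986847057289475657473)) (C.cons (nat_lit 960) (C.miq (nat_lit 2521532208) (nat_lit 2572664998354134907653783945)) (C.cons (nat_lit 898) (C.miq (nat_lit 611388312) (nat_lit 1415656986847057289471463169)) (C.cons (nat_lit 896) (C.node (nat_lit 1) (nat_lit 3) (nat_lit 7) (C.cons (nat_lit 142) (C.node (nat_lit 3) (nat_lit 7) (nat_lit 10) (C.cons (nat_lit 1160) (C.node (nat_lit 1) (nat_lit 5) (nat_lit 7) (C.cons (nat_lit 418) (C.miq (nat_lit 1729643296) (nat_lit 505337209212467040018171933)) (C.cons (nat_lit 162) (C.node (nat_lit 1) (nat_lit 7)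 (nat_lit 9) (C.cons (nat_lit 706) (C.miq (nat_lit 2255553586) (nat_lit 853506480236477577828370461)) (C.cons (nat_lit 642) (C.node (nat_lit 6) (nat_lit 7) (nat_lit 9) (C.cons (nat_lit 704) (C.node (nat_lit 1) (nat_lit 7) (nat_lit 11) (C.cons (nat_lit 2434) (C.miq (nat_lit 1729643296) (nat_lit 2942531661555559456225822749)) C.nil)) C.nil)) C.nil))) C.nil))) C.nil)) (C.cons (nat_lit 138) (C.node (nat_lit 1) (nat_lit 7) (nat_lit 9) (C.cons (nat_lit 706) (C.node (nat_lit 1) (nat_lit 4) (nat_lit 6) (C.cons (nat_lit 86) (C.miq (nat_lit 2271281986) (nat_lit 853506480252240176520497181)) (C.cons (nat_lit 82) (C.node (nat_lit 2) (nat_lit 4) (nat_lit 6) (C.cons (nat_lit 84) (C.node (nat_lit 4) (nat_lit 6) (nat_lit 9) C.nil) C.nil)) C.nil))) (C.cons (nat_lit 642) (C.node (nat_lit 6) (nat_lit 7) (nat_lit 9) (C.cons (nat_lit 704) (C.node (nat_lit 2) (nat_lit 3) (nat_lit 7) (C.cons (nat_lit 1164) (C.node (nat_lit 2) (nat_lit 8) (nat_lit 10) (C.cons (nat_lit 1316) (C.node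 (nat_lit 5) (nat_lit 7) (nat_lit 10) (C.cons (nat_lit 1184) (C.node (nat_lit 7) (nat_lit 8) (nat_lit 10) C.nil) C.nil)) (C.cons (nat_lit 1284) (C.node (nat_lit 3) (nat_lit 9) (nat_lit 10) (C.cons (nat_lit 1608) (C.node (nat_lit 2) (nat_lit 3) (nat_lit 9) (C.cons (nat_lit 780) (C.node (nat_lit 4) (nat_lit 8) (nat_lit 9) (C.cons (nat_lit 784) (C.node (nat_lit 5) (nat_lit 7) (nat_lit 10) C.nil) C.nil)) (C.cons (nat_lit 524) (C.node (nat_lit 4) (nat_lit 8) (nat_lit 9) C.nil) C.nil))) (C.cons (nat_lit 1544) (C.node (nat_lit 5) (nat_lit 7) (nat_lit 10) (C.cons (nat_lit 1440) (C.node (nat_lit 4) (nat_lit 5) (nat_lit 7) C.nil) (C.cons (nat_lit 1184) (C.node (nat_lit 7) (nat_lit 8) (nat_lit 10) C.nil) C.nil))) C.nil))) C.nil))) (C.cons (nat_lit 140) (C.node (nat_lit 3) (nat_lit 7) (nat_lit 10) (C.cons (nat_lit 1160) (C.node (nat_lit 1) (nat_lit 5) (nat_lit 7) (C.cons (nat_lit 162) (C.node (nat_lit 4) (nat_lit 8) (nat_lit 9) C.nil) C.nil)) C.nil)) C.nil))) C.nil))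 C.nil))) C.nil))) C.nil))))) (C.cons (nat_lit 648) (C.node (nat_lit 3) (nat_lit 7) (nat_lit 10)
  (C.cons (nat_lit 1164) (C.node (nat_lit 1) (nat_lit 3) (nat_lit 7) (C.cons (nat_lit 170) (C.node (nat_lit 1) (nat_lit 3) (nat_lit 4) (C.cons (nat_lit 282) (C.miq (nat_lit 358889224) (nat_lit 1373344933111908037083333001)) (C.cons (nat_lit 26) (C.node (nat_lit 3) (nat_lit 4) (nat_lit 5) (C.cons (nat_lit 56) (C.node (nat_lit 3) (nat_lit 4) (nat_lit 8) C.nil) C.nil)) C.nil))) (C.cons (nat_lit 138) (C.node (nat_lit 3) (nat_lit 5) (nat_lit 7) (C.cons (nat_lit 168) (C.node (nat_lit 2) (nat_lit 8) (nat_lit 10) (C.cons (nat_lit 1316) (C.node (nat_lit 5) (nat_lit 7) (nat_lit 10) (C.cons (nat_lit 1184) (C.node (nat_lit 7) (nat_lit 8) (nat_lit 10) (C.cons (nat_lit 1408) (C.node (nat_lit 2) (nat_lit 4) (nat_lit 7) C.nil) C.nil)) C.nil)) (C.cons (nat_lit 1284) (C.node (nat_lit 3) (nat_lit 9) (nat_lit 10) (C.cons (nat_lit 1608) (C.node (nat_lit 3) (nat_lit 8) (nat_lit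 10) (C.cons (nat_lit 1290) (C.node (nat_lit 3) (nat_lit 10) (nat_lit 11) C.nil) (C.cons (nat_lit 1288) (C.node (nat_lit 1) (nat_lit 3) (nat_lit 10) C.nil) C.nil))) (C.cons (nat_lit 1544) (C.node (nat_lit 5) (nat_lit 7) (nat_lit 10) (C.cons (nat_lit 1440) (C.node (nat_lit 4) (nat_lit 5) (nat_lit 7) (C.cons (nat_lit 176) (C.node (nat_lit 6) (nat_lit 9) (nat_lit 10) C.nil) C.nil)) (C.cons (nat_lit 1184) (C.node (nat_lit 7) (nat_lit 8) (nat_lit 10) (C.cons (nat_lit 1408) (C.node (nat_lit 4) (nat_lit 8) (nat_lit 9) C.nil) C.nil)) C.nil))) C.nil))) C.nil))) C.nil)) C.nil))) (C.cons (nat_lit 1160) (C.ref (nat_lit 252) (nat_lit 205163983024656)) C.nil))) C.nil))) C.nil)))) C.nil)) C.nil))) (C.cons (nat_lit 1104) (C.node (nat_lit 7) (nat_lit 9) (nat_lit 10) (C.cons (nat_lit 1696) (C.miq (nat_lit 1397203129) (nat_lit 261159263014488684157210369)) (C.cons (nat_lit 1672) (C.node (nat_lit 3) (nat_lit 6) (nat_lit 9) (C.cons (nat_lit 876) (C.miq (nat_lit 1772389232)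 (nat_lit 1876259088841236580123476361)) (C.cons (nat_lit 872) (C.miq (nat_lit 1772389232) (nat_lit 1876259088840110680216633737)) (C.cons (nat_lit 844) (C.miq (nat_lit 1772389232) (nat_lit 1876259088832229380868735369)) (C.cons (nat_lit 840) (C.miq (nat_lit 1772389232) (nat_lit 1876259088831103480961892745)) (C.cons (nat_lit 620) (C.miq (nat_lit 2302020212) (nat_lit 749540225794975495181829267)) (C.cons (nat_lit 616) (C.miq (nat_lit 2302020212) (nat_lit 744704522516516978483004563)) (C.cons (nat_lit 588) (C.miq (nat_lit 2302020212) (nat_lit 710854599567307361591231635)) (C.cons (nat_lit 584) (C.miq (nat_lit 2302020212) (nat_lit 706018896288848844892406931)) C.nil))))))))) (C.cons (nat_lit 1664) (C.node (nat_lit 3) (nat_lit 7) (nat_lit 9) (C.cons (nat_lit 680) (C.node (nat_lit 7) (nat_lit 8) (nat_lit 9) (C.cons (nat_lit 962) (C.miq (nat_lit 611388312) (nat_lit 1415656986847057289475657473)) (C.cons (nat_lit 960) (C.miq (nat_lit 2521532208) (nat_lit 2572664998354134907653783945))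 (C.cons (nat_lit 898) (C.miq (nat_lit 611388312) (nat_lit 1415656986847057289471463169)) (C.cons (nat_lit 896) (C.node (nat_lit 1) (nat_lit 3) (nat_lit 7) (C.cons (nat_lit 142) (C.node (nat_lit 3) (nat_lit 7) (nat_lit 10) (C.cons (nat_lit 1160) (C.node (nat_lit 1) (nat_lit 5) (nat_lit 7) (C.cons (nat_lit 418) (C.miq (nat_lit 1729643296) (nat_lit 505337209212467040018171933)) (C.cons (nat_lit 162) (C.node (nat_lit 1) (nat_lit 7) (nat_lit 9) (C.cons (nat_lit 706) (C.miq (nat_lit 2255553586) (nat_lit 853506480236477577828370461)) (C.cons (nat_lit 642) (C.node (nat_lit 6) (nat_lit 7) (nat_lit 9) (C.cons (nat_lit 704) (C.node (nat_lit 1) (nat_lit 6) (nat_lit 7) (C.cons (nat_lit 450) (C.node (nat_lit 1) (nat_lit 7) (nat_lit 11) (C.cons (nat_lit 2178) (C.node (nat_lit 2) (nat_lit 6) (nat_lit 7) C.nil) C.nil)) (C.cons (nat_lit 194) (C.miq (nat_lit 2255553586) (nat_lit 234536460593787440378808349)) C.nil))) C.nil)) C.nil))) C.nil))) C.nil)) (C.cons (nat_lit 138)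 (C.node (nat_lit 1) (nat_lit 7) (nat_lit 9) (C.cons (nat_lit 706) (C.node (nat_lit 6) (nat_lit 9) (nat_lit 11) (C.cons (nat_lit 2628) (C.miq (nat_lit 709451899) (nat_lit 1876301350392987366974294241))
  (C.cons (nat_lit 2624) (C.node (nat_lit 2) (nat_lit 3) (nat_lit 7) (C.cons (nat_lit 1164) (C.node (nat_lit 2) (nat_lit 6) (nat_lit 7) (C.cons (nat_lit 452) (C.node (nat_lit 2) (nat_lit 4) (nat_lit 7) (C.cons (nat_lit 180) (C.node (nat_lit 4) (nat_lit 7) (nat_lit 8) (C.cons (nat_lit 400) (C.node (nat_lit 1) (nat_lit 2) (nat_lit 7) (C.cons (nat_lit 2182) (C.node (nat_lit 7) (nat_lit 8) (nat_lit 11) C.nil) C.nil)) C.nil)) (C.cons (nat_lit 148) (C.node (nat_lit 2) (nat_lit 5) (nat_lit 7) (C.cons (nat_lit 166) (C.node (nat_lit 2) (nat_lit 7) (nat_lit 11) (C.cons (nat_lit 2180) (C.node (nat_lit 1) (nat_lit 7) (nat_lit 8) (C.cons (nat_lit 386) (C.node (nat_lit 1) (nat_lit 7) (nat_lit 11) (C.cons (nat_lit 2178) (C.node (nat_lit 7) (nat_lit 8) (nat_lit 11) C.nil)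 C.nil)) C.nil)) C.nil)) (C.cons (nat_lit 164) (C.node (nat_lit 4) (nat_lit 5) (nat_lit 7) (C.cons (nat_lit 176) (C.node (nat_lit 4) (nat_lit 7) (nat_lit 8) C.nil) C.nil)) C.nil))) C.nil))) (C.cons (nat_lit 196) (C.node (nat_lit 6) (nat_lit 7) (nat_lit 8) (C.cons (nat_lit 448) (C.node (nat_lit 3) (nat_lit 9) (nat_lit 10) (C.cons (nat_lit 1608) (C.node (nat_lit 3) (nat_lit 6) (nat_lit 11) (C.cons (nat_lit 2378) (C.miq (nat_lit 588843879) (nat_lit 632280102393012341138655457)) (C.cons (nat_lit 2376) (C.miq (nat_lit 2202711664) (nat_lit 1267025113568903965934029025)) (C.cons (nat_lit 2122) (C.miq (nat_lit 588843879) (nat_lit 632280102393011241627027681)) (C.cons (nat_lit 2120) (C.node (nat_lit 2) (nat_lit 3) (nat_lit 9) (C.cons (nat_lit 780) (C.node (nat_lit 4) (nat_lit 6) (nat_lit 9) (C.cons (nat_lit 596) (C.node (nat_lit 1) (nat_lit 4) (nat_lit 6) C.nil) C.nil)) (C.cons (nat_lit 524) (C.node (nat_lit 3) (nat_lit 8) (nat_lit 9) C.nil) C.nil))) C.nil)))))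 (C.cons (nat_lit 1544) (C.node (nat_lit 3) (nat_lit 6) (nat_lit 9) (C.cons (nat_lit 844) (C.miq (nat_lit 392692786) (nat_lit 541603619010653381376870429)) (C.cons (nat_lit 840) (C.miq (nat_lit 2521465712) (nat_lit 1334724959034977635490005385)) (C.cons (nat_lit 588) (C.miq (nat_lit 372537632) (nat_lit 261149578372794074756088453)) (C.cons (nat_lit 584) (C.node (nat_lit 2) (nat_lit 3) (nat_lit 9) (C.cons (nat_lit 780) (C.node (nat_lit 4) (nat_lit 6) (nat_lit 9) (C.cons (nat_lit 596) (C.node (nat_lit 1) (nat_lit 4) (nat_lit 6) C.nil) C.nil)) (C.cons (nat_lit 524) (C.node (nat_lit 3) (nat_lit 8) (nat_lit 9) C.nil) C.nil))) C.nil))))) C.nil))) C.nil)) C.nil))) (C.cons (nat_lit 140) (C.node (nat_lit 3) (nat_lit 7) (nat_lit 10) (C.cons (nat_lit 1160) (C.node (nat_lit 2) (nat_lit 6) (nat_lit 7) (C.cons (nat_lit 452) (C.node (nat_lit 2) (nat_lit 4) (nat_lit 7) (C.cons (nat_lit 180) (C.node (nat_lit 2) (nat_lit 7) (nat_lit 10) (C.cons (nat_lit 1156) (C.node (nat_lit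 4) (nat_lit 7) (nat_lit 8) C.nil) C.nil)) (C.cons (nat_lit 148) (C.node (nat_lit 2) (nat_lit 6) (nat_lit 11) (C.cons (nat_lit 2118) (C.node (nat_lit 2) (nat_lit 7) (nat_lit 11) (C.cons (nat_lit 2180) (C.node (nat_lit 1) (nat_lit 7) (nat_lit 11) C.nil) C.nil)) (C.cons (nat_lit 2116) (C.node (nat_lit 2) (nat_lit 7) (nat_lit 10) (C.cons (nat_lit 1188) (C.node (nat_lit 7) (nat_lit 8) (nat_lit 10) (C.cons (nat_lit 1408) (C.node (nat_lit 4) (nat_lit 5) (nat_lit 7) C.nil) C.nil)) (C.cons (nat_lit 1156) (C.node (nat_lit 4) (nat_lit 5) (nat_lit 7) C.nil) C.nil))) C.nil))) C.nil))) (C.cons (nat_lit 196) (C.node (nat_lit 6) (nat_lit 7) (nat_lit 8) (C.cons (nat_lit 448) (C.node (nat_lit 4) (nat_lit 6) (nat_lit 9) (C.cons (nat_lit 596) (C.node (nat_lit 1) (nat_lit 2) (nat_lit 4) (C.cons (nat_lit 54) (C.node (nat_lit 1) (nat_lit 4) (nat_lit 6) C.nil) C.nil)) (C.cons (nat_lit 592) (C.node (nat_lit 2) (nat_lit 4) (nat_lit 7) C.nil) C.nil))) C.nil)) C.nil))) C.nil)) C.nil)))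 C.nil))) (C.cons (nat_lit 642) (C.node (nat_lit 6) (nat_lit 7) (nat_lit 9) (C.cons (nat_lit 704) (C.node (nat_lit 2) (nat_lit 3) (nat_lit 7) (C.cons (nat_lit 1164) (C.node (nat_lit 3) (nat_lit 9) (nat_lit 10) (C.cons (nat_lit 1608) (C.node (nat_lit 2) (nat_lit 3) (nat_lit 9) (C.cons (nat_lit 780)
  (C.node (nat_lit 3) (nat_lit 8) (nat_lit 10) (C.cons (nat_lit 1290) (C.miq (nat_lit 321366160) (nat_lit 1407211255531844743316442881)) (C.cons (nat_lit 1288) (C.node (nat_lit 1) (nat_lit 3) (nat_lit 10) (C.cons (nat_lit 3082) (C.node (nat_lit 6) (nat_lit 10) (nat_lit 11) (C.cons (nat_lit 3136) (C.node (nat_lit 3) (nat_lit 5) (nat_lit 11) (C.cons (nat_lit 2344) (C.miq (nat_lit 1395112080) (nat_lit 1407231584140488596695355137)) (C.cons (nat_lit 2088) (C.node (nat_lit 2) (nat_lit 10) (nat_lit 11) C.nil) C.nil))) C.nil)) (C.cons (nat_lit 1034) (C.node (nat_lit 3) (nat_lit 10) (nat_lit 11) (C.cons (nat_lit 3080) (C.node (nat_lit 4) (nat_lit 8) (nat_lit 9) (C.cons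 (nat_lit 786) (C.node (nat_lit 1) (nat_lit 3) (nat_lit 4) C.nil) (C.cons (nat_lit 784) (C.node (nat_lit 1) (nat_lit 2) (nat_lit 3) (C.cons (nat_lit 110) (C.miq (nat_lit 2301692514) (nat_lit 632273056233294735843656773)) C.nil)) C.nil))) C.nil)) C.nil))) C.nil))) (C.cons (nat_lit 524) (C.node (nat_lit 3) (nat_lit 8) (nat_lit 9) (C.cons (nat_lit 776) (C.node (nat_lit 3) (nat_lit 8) (nat_lit 10) (C.cons (nat_lit 1290) (C.node (nat_lit 3) (nat_lit 10) (nat_lit 11) (C.cons (nat_lit 3080) (C.node (nat_lit 1) (nat_lit 3) (nat_lit 4) C.nil) C.nil)) (C.cons (nat_lit 1288) (C.node (nat_lit 1) (nat_lit 3) (nat_lit 10) (C.cons (nat_lit 3082) (C.node (nat_lit 3) (nat_lit 5) (nat_lit 11) C.nil) C.nil)) C.nil))) C.nil)) C.nil))) (C.cons (nat_lit 1544) (C.node (nat_lit 5) (nat_lit 7) (nat_lit 10) (C.cons (nat_lit 1440) (C.node (nat_lit 4) (nat_lit 5) (nat_lit 10) (C.cons (nat_lit 1076) (C.miq (nat_lit 1476699954) (nat_lit 407427850312078997875131532)) (C.cons (nat_lit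 1072) (C.node (nat_lit 4) (nat_lit 7) (nat_lit 8) (C.cons (nat_lit 404) (C.miq (nat_lit 2231663154) (nat_lit 678214837693741286408651916)) (C.cons (nat_lit 400) (C.node (nat_lit 2) (nat_lit 4) (nat_lit 7) (C.cons (nat_lit 180) (C.node (nat_lit 1) (nat_lit 5) (nat_lit 7) C.nil) C.nil)) C.nil))) C.nil))) (C.cons (nat_lit 1184) (C.node (nat_lit 7) (nat_lit 8) (nat_lit 10) (C.cons (nat_lit 1408) (C.node (nat_lit 1) (nat_lit 6) (nat_lit 7) (C.cons (nat_lit 450) (C.miq (nat_lit 389187136) (nat_lit 1407194505651784412338913617)) (C.cons (nat_lit 198) (C.node (nat_lit 6) (nat_lit 7) (nat_lit 8) C.nil) C.nil))) C.nil)) C.nil))) C.nil))) (C.cons (nat_lit 140) (C.node (nat_lit 3) (nat_lit 7) (nat_lit 10) (C.cons (nat_lit 1160) (C.node (nat_lit 1) (nat_lit 6) (nat_lit 7) (C.cons (nat_lit 450) (C.miq (nat_lit 389187136) (nat_lit 169254466366404137439789393)) (C.cons (nat_lit 198) (C.node (nat_lit 6) (nat_lit 7) (nat_lit 8) C.nil) (C.cons (nat_lit 194) (C.node (nat_lit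 2) (nat_lit 6) (nat_lit 7) (C.cons (nat_lit 196) (C.node (nat_lit 6) (nat_lit 7) (nat_lit 8) C.nil) C.nil)) C.nil)))) C.nil)) C.nil))) C.nil)) C.nil))) C.nil))) C.nil))))) (C.cons (nat_lit 648) (C.node (nat_lit 3) (nat_lit 7) (nat_lit 10) (C.cons (nat_lit 1164) (C.node (nat_lit 1) (nat_lit 3) (nat_lit 7) (C.cons (nat_lit 170) (C.node (nat_lit 1) (nat_lit 3) (nat_lit 4) (C.cons (nat_lit 282) (C.miq (nat_lit 1350661699) (nat_lit 317950627144934073057280216)) (C.cons (nat_lit 26) (C.node (nat_lit 1) (nat_lit 2) (nat_lit 3) (C.cons (nat_lit 78) (C.node (nat_lit 3) (nat_lit 9) (nat_lit 10) (C.cons (nat_lit 1608) (C.miq (nat_lit 2301692514) (nat_lit 632273056233294735841559621)) (C.cons (nat_lit 1544) (C.node (nat_lit 2) (nat_lit 6) (nat_lit 11) (C.cons (nat_lit 2628) (C.miq (nat_lit 709451899) (nat_lit 1876301350392987366974294241)) (C.cons (nat_lit 2372) (C.miq (nat_lit 1671110920) (nat_lit 3104565260469267854404944135)) (C.cons (nat_lit 2116) (C.node (nat_lit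 1) (nat_lit 2) (nat_lit 7) (C.cons (nat_lit 2182) (C.node (nat_lit 7) (nat_lit 8) (nat_lit 11) (C.cons (nat_lit 2432) (C.node (nat_lit 2) (nat_lit 9) (nat_lit 11) (C.cons (nat_lit 2596) (C.miq (nat_lit 1528074864) (nat_lit 2497651092677967637237662341)) (C.cons (nat_lit 2564) (C.node (nat_lit 3) (nat_lit 4) (nat_lit 5) (C.cons (nat_lit 56) (C.node (nat_lit 3) (nat_lit 4) (nat_lit 8) C.nil) C.nil)) C.nil))) C.nil))
  (C.cons (nat_lit 134) (C.node (nat_lit 1) (nat_lit 7) (nat_lit 11) (C.cons (nat_lit 2434) (C.node (nat_lit 2) (nat_lit 7) (nat_lit 11) (C.cons (nat_lit 2180) (C.node (nat_lit 1) (nat_lit 3) (nat_lit 8) (C.cons (nat_lit 1290) (C.node (nat_lit 3) (nat_lit 5) (nat_lit 11) (C.cons (nat_lit 2088) (C.miq (nat_lit 2337478410) (nat_lit 2524260908340320657952277651)) C.nil)) (C.cons (nat_lit 266) (C.miq (nat_lit 2819820405) (nat_lit 321593914881085700651485409)) C.nil))) C.nil)) (C.cons (nat_lit 2178) (C.node (nat_lit 1) (nat_lit 7) (nat_lit 8) (C.cons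 (nat_lit 962) (C.miq (nat_lit 1192409472) (nat_lit 162034374476913872950726401)) (C.cons (nat_lit 898) (C.miq (nat_lit 1192409472) (nat_lit 162034374476913598072819457)) (C.cons (nat_lit 450) (C.miq (nat_lit 2184581191) (nat_lit 94304515038811084461442195)) (C.cons (nat_lit 386) (C.node (nat_lit 5) (nat_lit 7) (nat_lit 10) (C.cons (nat_lit 1440) (C.miq (nat_lit 2557545043) (nat_lit 466655015099548981841757225)) (C.cons (nat_lit 1184) (C.node (nat_lit 7) (nat_lit 8) (nat_lit 10) (C.cons (nat_lit 1408) (C.node (nat_lit 3) (nat_lit 4) (nat_lit 5) C.nil) C.nil)) C.nil))) C.nil))))) C.nil))) C.nil))) C.nil)))) C.nil))) (C.cons (nat_lit 14) (C.node (nat_lit 3) (nat_lit 4) (nat_lit 5) (C.cons (nat_lit 312) (C.node (nat_lit 3) (nat_lit 5) (nat_lit 11) (C.cons (nat_lit 2088) (C.node (nat_lit 2) (nat_lit 3) (nat_lit 5) (C.cons (nat_lit 620) (C.miq (nat_lit 321549664) (nat_lit 1407211255216592082235099361)) (C.cons (nat_lit 556) (C.miq (nat_lit 1403294320) (nat_lit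 1266964607736061812620329605)) (C.cons (nat_lit 108) (C.miq (nat_lit 321549664) (nat_lit 1407211255216589883211843809)) C.nil)))) C.nil)) (C.cons (nat_lit 56) (C.node (nat_lit 3) (nat_lit 4) (nat_lit 8) C.nil) C.nil))) C.nil))) C.nil))) (C.cons (nat_lit 138) (C.node (nat_lit 3) (nat_lit 5) (nat_lit 7) (C.cons (nat_lit 168) (C.node (nat_lit 3) (nat_lit 9) (nat_lit 10) (C.cons (nat_lit 1608) (C.node (nat_lit 3) (nat_lit 8) (nat_lit 10) (C.cons (nat_lit 1290) (C.node (nat_lit 3) (nat_lit 10) (nat_lit 11) (C.cons (nat_lit 3080) (C.node (nat_lit 6) (nat_lit 10) (nat_lit 11) (C.cons (nat_lit 3138) (C.miq (nat_lit 1631042176) (nat_lit 166873693439372385371885313)) (C.cons (nat_lit 3136) (C.node (nat_lit 3) (nat_lit 8) (nat_lit 11) (C.cons (nat_lit 2376) (C.miq (nat_lit 1662498976) (nat_lit 166873693224888453169352449)) (C.cons (nat_lit 2344) (C.miq (nat_lit 1394063520) (nat_lit 166873693215881253914611457)) (C.cons (nat_lit 2312) (C.node (nat_lit 3) (nat_lit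 5) (nat_lit 11) C.nil) C.nil)))) C.nil))) C.nil)) (C.cons (nat_lit 1288) (C.node (nat_lit 1) (nat_lit 3) (nat_lit 10) (C.cons (nat_lit 3082) (C.node (nat_lit 6) (nat_lit 10) (nat_lit 11) (C.cons (nat_lit 3136) (C.node (nat_lit 3) (nat_lit 6) (nat_lit 11) (C.cons (nat_lit 2376) (C.miq (nat_lit 325364608) (nat_lit 261149579041586298708102913)) (C.cons (nat_lit 2120) (C.node (nat_lit 2) (nat_lit 10) (nat_lit 11) C.nil) C.nil))) C.nil)) (C.cons (nat_lit 1034) (C.node (nat_lit 3) (nat_lit 10) (nat_lit 11) (C.cons (nat_lit 3080) (C.node (nat_lit 1) (nat_lit 2) (nat_lit 3) C.nil) C.nil)) C.nil))) C.nil))) (C.cons (nat_lit 1544) (C.node (nat_lit 5) (nat_lit 7) (nat_lit 10) (C.cons (nat_lit 1440) (C.node (nat_lit 4) (nat_lit 5) (nat_lit 10) (C.cons (nat_lit 1076) (C.miq (nat_lit 1476699954) (nat_lit 407427850312078997875131532)) (C.cons (nat_lit 1072) (C.node (nat_lit 4) (nat_lit 7) (nat_lit 8) (C.cons (nat_lit 404) (C.miq (nat_lit 2231663154) (nat_lit 678214837693741286408651916))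 (C.cons (nat_lit 400) (C.node (nat_lit 7) (nat_lit 8) (nat_lit 9) (C.cons (nat_lit 962) (C.miq (nat_lit 611388312) (nat_lit 1415656986847057289475657473)) (C.cons (nat_lit 960) (C.miq (nat_lit 2521532208) (nat_lit 2572664998354134907653783945)) (C.cons (nat_lit 898) (C.miq (nat_lit 611388312) (nat_lit 1415656986847057289471463169)) (C.cons (nat_lit 896) (C.node (nat_lit 2) (nat_lit 4) (nat_lit 7) (C.cons (nat_lit 180) (C.node (nat_lit 1) (nat_lit 5) (nat_lit 7) (C.cons (nat_lit 674)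
  (C.miq (nat_lit 388207936) (nat_lit 1407199301868293816986698289)) C.nil)) C.nil)) C.nil))))) C.nil))) C.nil))) (C.cons (nat_lit 1184) (C.node (nat_lit 7) (nat_lit 8) (nat_lit 10) (C.cons (nat_lit 1408) (C.node (nat_lit 6) (nat_lit 7) (nat_lit 9) (C.cons (nat_lit 962) (C.miq (nat_lit 611388312) (nat_lit 1415656986847057289475657473)) (C.cons (nat_lit 960) (C.miq (nat_lit 2521532208) (nat_lit 2572664998354134907653783945)) (C.cons (nat_lit 706) (C.node (nat_lit 6) (nat_lit 9) (nat_lit 11) (C.cons (nat_lit 2628) (C.miq (nat_lit 709451899) (nat_lit 1876301350392987366974294241)) (C.cons (nat_lit 2624) (C.node (nat_lit 3) (nat_lit 6) (nat_lit 9) (C.cons (nat_lit 876) (C.miq (nat_lit 423261776) (nat_lit 1866603066821022855650150625)) (C.cons (nat_lit 872) (C.miq (nat_lit 423261776) (nat_lit 1866603066821022838470281441)) (C.cons (nat_lit 844) (C.miq (nat_lit 2172002371) (nat_lit 853517197773959356499888157)) (C.cons (nat_lit 840) (C.miq (nat_lit 2521465712)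 (nat_lit 1334724959034977635490005385)) (C.cons (nat_lit 620) (C.miq (nat_lit 423261776) (nat_lit 1866603066821021756138522849)) (C.cons (nat_lit 616) (C.miq (nat_lit 423261776) (nat_lit 1866603066821021738958653665)) (C.cons (nat_lit 588) (C.miq (nat_lit 372537632) (nat_lit 261149578372794074756088453)) (C.cons (nat_lit 584) (C.node (nat_lit 2) (nat_lit 6) (nat_lit 7) (C.cons (nat_lit 452) (C.node (nat_lit 2) (nat_lit 4) (nat_lit 7) (C.cons (nat_lit 180) (C.node (nat_lit 4) (nat_lit 7) (nat_lit 8) C.nil) C.nil)) C.nil)) C.nil))))))))) C.nil))) (C.cons (nat_lit 704) (C.node (nat_lit 1) (nat_lit 6) (nat_lit 7) (C.cons (nat_lit 450) (C.miq (nat_lit 389187136) (nat_lit 1407194505651784412338913617)) (C.cons (nat_lit 198) (C.node (nat_lit 6) (nat_lit 7) (nat_lit 8) C.nil) (C.cons (nat_lit 194) (C.node (nat_lit 2) (nat_lit 6) (nat_lit 7) (C.cons (nat_lit 196) (C.node (nat_lit 6) (nat_lit 7) (nat_lit 8) C.nil) C.nil)) C.nil)))) C.nil))))) C.nil)) C.nil))) C.nil)))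 C.nil)) C.nil))) (C.cons (nat_lit 1160) (C.ref (nat_lit 253) (nat_lit 205163983024656)) C.nil))) C.nil))) C.nil)))) C.nil))) C.nil)))) C.nil))) List.nil)

theorem ok12_254 : okL par12 (nat_lit 255) c12_254 (nat_lit 254) = true := by decide +kernel

noncomputable def c12_255 : List C :=
  (List.cons (C.node (nat_lit 1) (nat_lit 4) (nat_lit 8) (C.cons (nat_lit 786) (C.node (nat_lit 2) (nat_lit 4) (nat_lit 8) (C.cons (nat_lit 1300) (C.node (nat_lit 3) (nat_lit 4) (nat_lit 8) (C.cons (nat_lit 280) (C.node (nat_lit 4) (nat_lit 5) (nat_lit 10) (C.cons (nat_lit 1136) (C.miq (nat_lit 728401748) (nat_lit 3791215351764455720097939888)) (C.cons (nat_lit 1072) (C.node (nat_lit 4) (nat_lit 9) (nat_lit 10) (C.cons (nat_lit 1624) (C.miq (nat_lit 323094952) (nat_lit 2510943778980494569408564993)) (C.cons (nat_lit 1616) (C.miq (nat_lit 1762698370) (nat_lit 632288366404590561137198356)) (C.cons (nat_lit 1560) (C.miq (nat_lit 323094952) (nat_lit 2510943778980494294530658049))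 C.nil)))) C.nil))) C.nil)) (C.cons (nat_lit 276) (C.node (nat_lit 3) (nat_lit 4) (nat_lit 8) (C.cons (nat_lit 1304) (C.node (nat_lit 3) (nat_lit 5) (nat_lit 11) (C.cons (nat_lit 2600) (C.miq (nat_lit 1094256565) (nat_lit 632278552611492996126869729)) (C.cons (nat_lit 2344) (C.miq (nat_lit 1397209248) (nat_lit 183798654690486122490040065)) (C.cons (nat_lit 2088) (C.node (nat_lit 3) (nat_lit 8) (nat_lit 11) (C.cons (nat_lit 2376) (C.miq (nat_lit 1665644704) (nat_lit 183798654699493321744781057)) (C.cons (nat_lit 2312) (C.node (nat_lit 3) (nat_lit 4) (nat_lit 5) (C.cons (nat_lit 122) (C.miq (nat_lit 2221646672) (nat_lit 2572664998450961895928169513)) (C.cons (nat_lit 120) (C.miq (nat_lit 2221646672) (nat_lit 2572664998450961887338234921)) (C.cons (nat_lit 58) (C.miq (nat_lit 329794825) (nat_lit 1576453767934648502565536305)) C.nil)))) C.nil))) C.nil)))) (C.cons (nat_lit 280) (C.node (nat_lit 4) (nat_lit 8) (nat_lit 10) (C.cons (nat_lit 1296) (C.node (nat_lit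 2) (nat_lit 4) (nat_lit 9) (C.cons (nat_lit 532) (C.node (nat_lit 2) (nat_lit 4) (nat_lit 10) C.nil) C.nil)) C.nil)) C.nil))) C.nil))) (C.cons (nat_lit 282) (C.miq (nat_lit 1729628980) (nat_lit 466651583563801712435791901)) (C.cons (nat_lit 274) (C.node (nat_lit 1) (nat_lit 5) (nat_lit 7) (C.cons (nat_lit 674) (C.miq (nat_lit 1125714805) (nat_lit 632278552866509324900501729)) (C.cons (nat_lit 166) (C.node (nat_lit 5) (nat_lit 7) (nat_lit 10) (C.cons (nat_lit 1696) (C.miq (nat_lit 880085914) (nat_lit 522275600440593444476292865)) (C.cons (nat_lit 1184) (C.node (nat_lit 1) (nat_lit 6) (nat_lit 7) (C.cons (nat_lit 706) (C.node (nat_lit 1) (nat_lit 4) (nat_lit 9) (C.cons (nat_lit 534) (C.miq (nat_lit 1632336160) (nat_lit 2497682672971827043960160901)) (C.cons (nat_lit 530) (C.node (nat_lit 3) (nat_lit 6) (nat_lit 11) (C.cons (nat_lit 2632) (C.miq (nat_lit 957658736) (nat_lit 640768999024039728359082209)) (C.cons (nat_lit 2376) (C.miq (nat_lit 943830535) (nat_lit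 331285999825739515094567137)) (C.cons (nat_lit 2120) (C.node (nat_lit 3) (nat_lit 9) (nat_lit 11) (C.cons (nat_lit 2600) (C.miq (nat_lit 1094256565) (nat_lit 632278552611492996126869729)) (C.cons (nat_lit 2568) (C.node (nat_lit 2) (nat_lit 6) (nat_lit 7) C.nil) C.nil))) C.nil)))) C.nil))) (C.cons (nat_lit 194) (C.node (nat_lit 1) (nat_lit 7) (nat_lit 9) C.nil) C.nil))) C.nil))) (C.cons (nat_lit 162) (C.node (nat_lit 1) (nat_lit 2) (nat_lit 7) (C.cons (nat_lit 198) (C.node (nat_lit 1) (nat_lit 7) (nat_lit 9) (C.cons (nat_lit 642) (C.node (nat_lit 2) (nat_lit 6) (nat_lit 11) (C.cons (nat_lit 2628) (C.miq (nat_lit 1265269024) (nat_lit 3791212972209907030034809477)) (C.cons (nat_lit 2116) (C.node (nat_lit 1) (nat_lit 6) (nat_lit 11) C.nil) C.nil))) C.nil)) (C.cons (nat_lit 134) (C.node (nat_lit 1) (nat_lit 6) (nat_lit 7) (C.cons (nat_lit 706) (C.node (nat_lit 2) (nat_lit 6) (nat_lit 7) (C.cons (nat_lit 204) (C.node (nat_lit 6) (nat_lit 7) (nat_lit 10) C.nil)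 C.nil)) C.nil)) C.nil))) C.nil)))) C.nil)))) (List.cons (C.node (nat_lit 3) (nat_lit 5) (nat_lit 11) (C.cons (nat_lit 2600) (C.miq (nat_lit 1094256565) (nat_lit 632278552611492996126869729)) (C.cons (nat_lit 2344) (C.node (nat_lit 5) (nat_lit 10) (nat_lit 11) (C.cons (nat_lit 3110) (C.miq (nat_lit 1399961610) (nat_lit 2642769211711427646021897985)) (C.cons (nat_lit 3108)
  (C.miq (nat_lit 1923124051) (nat_lit 1321363171094897047902947624)) (C.cons (nat_lit 3106) (C.miq (nat_lit 1399961610) (nat_lit 2642769137924451351183691521)) (C.cons (nat_lit 3104) (C.node (nat_lit 5) (nat_lit 7) (nat_lit 8) (C.cons (nat_lit 1440) (C.miq (nat_lit 896841888) (nat_lit 212809258799399359726423809)) (C.cons (nat_lit 930) (C.miq (nat_lit 611388312) (nat_lit 1415656986847057289473560321)) (C.cons (nat_lit 928) (C.miq (nat_lit 659863696) (nat_lit 212809258825292858520571649)) (C.cons (nat_lit 418) (C.miq (nat_lit 364148784) (nat_lit 2533930119167239671873601929)) (C.cons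 (nat_lit 416) (C.node (nat_lit 1) (nat_lit 7) (nat_lit 8) (C.cons (nat_lit 962) (C.miq (nat_lit 611388312) (nat_lit 1415656986847057289475657473)) (C.cons (nat_lit 898) (C.miq (nat_lit 611388312) (nat_lit 1415656986847057289471463169)) (C.cons (nat_lit 450) (C.miq (nat_lit 1639221040) (nat_lit 2497646960003249843516277129)) (C.cons (nat_lit 386) (C.node (nat_lit 2) (nat_lit 9) (nat_lit 11) (C.cons (nat_lit 2630) (C.miq (nat_lit 657569801) (nat_lit 2642760357300167963252035329)) (C.cons (nat_lit 2628) (C.miq (nat_lit 1265269024) (nat_lit 3791212972209907030034809477)) (C.cons (nat_lit 2598) (C.miq (nat_lit 657569801) (nat_lit 2642759767004357604546383617)) (C.cons (nat_lit 2596) (C.miq (nat_lit 2542084155) (nat_lit 502961028888854134727903261)) (C.cons (nat_lit 2566) (C.miq (nat_lit 657569801) (nat_lit 2642759176708547245840731905)) (C.cons (nat_lit 2564) (C.node (nat_lit 1) (nat_lit 8) (nat_lit 11) (C.cons (nat_lit 2370) (C.node (nat_lit 2) (nat_lit 6)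 (nat_lit 11) (C.cons (nat_lit 2116) (C.node (nat_lit 1) (nat_lit 9) (nat_lit 11) C.nil) C.nil)) (C.cons (nat_lit 2306) (C.node (nat_lit 6) (nat_lit 8) (nat_lit 11) C.nil) C.nil))) C.nil))))))) C.nil))))) C.nil)))))) C.nil))))) (C.cons (nat_lit 2088) (C.node (nat_lit 3) (nat_lit 8) (nat_lit 11) (C.cons (nat_lit 2376) (C.miq (nat_lit 1796506480) (nat_lit 2497646960545370648601624969)) (C.cons (nat_lit 2312) (C.node (nat_lit 3) (nat_lit 6) (nat_lit 11) (C.cons (nat_lit 2632) (C.node (nat_lit 1) (nat_lit 7) (nat_lit 9) (C.cons (nat_lit 962) (C.miq (nat_lit 611388312) (nat_lit 1415656986847057289475657473)) (C.cons (nat_lit 930) (C.miq (nat_lit 611388312) (nat_lit 1415656986847057289473560321)) (C.cons (nat_lit 898) (C.miq (nat_lit 611388312) (nat_lit 1415656986847057289471463169)) (C.cons (nat_lit 706) (C.miq (nat_lit 1133579111) (nat_lit 632289805380396203284498657)) (C.cons (nat_lit 674) (C.miq (nat_lit 1125714805) (nat_lit 632278552866509324900501729))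 (C.cons (nat_lit 642) (C.node (nat_lit 2) (nat_lit 6) (nat_lit 11) (C.cons (nat_lit 2118) (C.node (nat_lit 6) (nat_lit 8) (nat_lit 11) (C.cons (nat_lit 2368) (C.node (nat_lit 1) (nat_lit 8) (nat_lit 11) C.nil) C.nil)) (C.cons (nat_lit 2116) (C.node (nat_lit 1) (nat_lit 6) (nat_lit 11) (C.cons (nat_lit 2370) (C.node (nat_lit 5) (nat_lit 8) (nat_lit 11) C.nil) C.nil)) C.nil))) C.nil))))))) (C.cons (nat_lit 2120) (C.node (nat_lit 3) (nat_lit 9) (nat_lit 11) C.nil) C.nil))) C.nil))) C.nil)))) (List.cons (C.node (nat_lit 3) (nat_lit 4) (nat_lit 6) (C.cons (nat_lit 122) (C.miq (nat_lit 446054579) (nat_lit 1953626375329641433760532509)) (C.cons (nat_lit 120) (C.node (nat_lit 1) (nat_lit 3) (nat_lit 4) (C.cons (nat_lit 282) (C.node (nat_lit 1) (nat_lit 3) (nat_lit 11) (C.cons (nat_lit 2090) (C.miq (nat_lit 2961266243) (nat_lit 317986044893555595396382840)) (C.cons (nat_lit 2058) (C.node (nat_lit 3) (nat_lit 5) (nat_lit 11) (C.cons (nat_lit 2344) (C.node (nat_lit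 1) (nat_lit 4) (nat_lit 5) C.nil) C.nil)) C.nil))) (C.cons (nat_lit 26) (C.node (nat_lit 3) (nat_lit 4) (nat_lit 8) (C.cons (nat_lit 280) (C.node (nat_lit 3) (nat_lit 7) (nat_lit 10) C.nil) C.nil)) C.nil))) (C.cons (nat_lit 90) (C.miq (nat_lit 446054579) (nat_lit 1953625785033831075054880797)) (C.cons (nat_lit 88) (C.node (nat_lit 6) (nat_lit 7) (nat_lit 9) (C.cons (nat_lit 962) (C.miq (nat_lit 611388312) (nat_lit 1415656986847057289475657473)) (C.cons (nat_lit 960)
  (C.node (nat_lit 4) (nat_lit 8) (nat_lit 9) (C.cons (nat_lit 788) (C.miq (nat_lit 1749776672) (nat_lit 2804749831225438589341729413)) (C.cons (nat_lit 786) (C.miq (nat_lit 647498305) (nat_lit 1160573638631394483593413779)) (C.cons (nat_lit 784) (C.node (nat_lit 1) (nat_lit 4) (nat_lit 9) (C.cons (nat_lit 534) (C.node (nat_lit 1) (nat_lit 4) (nat_lit 6) (C.cons (nat_lit 82) (C.node (nat_lit 2) (nat_lit 4) (nat_lit 6) C.nil) C.nil)) (C.cons (nat_lit 530) (C.node (nat_lit 2) (nat_lit 4) (nat_lit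 9) C.nil) C.nil))) C.nil)))) (C.cons (nat_lit 706) (C.miq (nat_lit 1133579111) (nat_lit 632289805380396203284498657)) (C.cons (nat_lit 704) (C.node (nat_lit 7) (nat_lit 8) (nat_lit 9) (C.cons (nat_lit 930) (C.miq (nat_lit 611388312) (nat_lit 1415656986847057289473560321)) (C.cons (nat_lit 928) (C.node (nat_lit 1) (nat_lit 7) (nat_lit 9) (C.cons (nat_lit 642) (C.node (nat_lit 4) (nat_lit 5) (nat_lit 7) (C.cons (nat_lit 180) (C.miq (nat_lit 2236323616) (nat_lit 2533979372117459420189622917)) (C.cons (nat_lit 176) (C.node (nat_lit 2) (nat_lit 4) (nat_lit 7) (C.cons (nat_lit 404) (C.node (nat_lit 2) (nat_lit 4) (nat_lit 9) (C.cons (nat_lit 532) (C.node (nat_lit 1) (nat_lit 4) (nat_lit 9) C.nil) C.nil)) (C.cons (nat_lit 148) (C.node (nat_lit 4) (nat_lit 7) (nat_lit 8) C.nil) C.nil))) C.nil))) C.nil)) (C.cons (nat_lit 898) (C.miq (nat_lit 611388312) (nat_lit 1415656986847057289471463169)) (C.cons (nat_lit 896) (C.node (nat_lit 1) (nat_lit 7) (nat_lit 9) (C.cons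 (nat_lit 674) (C.node (nat_lit 5) (nat_lit 9) (nat_lit 11) (C.cons (nat_lit 2596) (C.miq (nat_lit 364149024) (nat_lit 2533930119239298348243288709)) (C.cons (nat_lit 2592) (C.node (nat_lit 1) (nat_lit 9) (nat_lit 10) (C.cons (nat_lit 1542) (C.node (nat_lit 1) (nat_lit 4) (nat_lit 9) (C.cons (nat_lit 530) (C.miq (nat_lit 2224096930) (nat_lit 640735535984308856126047301)) C.nil)) (C.cons (nat_lit 1538) (C.node (nat_lit 1) (nat_lit 9) (nat_lit 11) (C.cons (nat_lit 2566) (C.node (nat_lit 1) (nat_lit 4) (nat_lit 9) C.nil) C.nil)) C.nil))) C.nil))) (C.cons (nat_lit 642) (C.node (nat_lit 5) (nat_lit 7) (nat_lit 9) (C.cons (nat_lit 672) (C.node (nat_lit 1) (nat_lit 4) (nat_lit 9) (C.cons (nat_lit 786) (C.node (nat_lit 2) (nat_lit 4) (nat_lit 9) C.nil) (C.cons (nat_lit 534) (C.node (nat_lit 4) (nat_lit 8) (nat_lit 9) C.nil) (C.cons (nat_lit 530) (C.node (nat_lit 2) (nat_lit 4) (nat_lit 9) C.nil) C.nil)))) C.nil)) C.nil))) C.nil))))) C.nil))))) C.nil))))) List.nil)))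

theorem ok12_255 : okL par12 (nat_lit 258) c12_255 (nat_lit 255) = true := by decide +kernel

noncomputable def c12_258 : List C :=
  (List.cons (C.node (nat_lit 7) (nat_lit 9) (nat_lit 10) (C.cons (nat_lit 1728) (C.miq (nat_lit 611715994) (nat_lit 251476733355750573211651841)) (C.cons (nat_lit 1696) (C.miq (nat_lit 1397203129) (nat_lit 183788010559152416976015105)) (C.cons (nat_lit 1672) (C.node (nat_lit 6) (nat_lit 7) (nat_lit 10) (C.cons (nat_lit 1472) (C.node (nat_lit 6) (nat_lit 7) (nat_lit 9) (C.cons (nat_lit 706) (C.miq (nat_lit 1133579111) (nat_lit 632289805380396203284498657)) (C.cons (nat_lit 704) (C.node (nat_lit 3) (nat_lit 6) (nat_lit 7) (C.cons (nat_lit 206) (C.miq (nat_lit 2838563687) (nat_lit 632289805876918062169327841)) (C.cons (nat_lit 204) (C.miq (nat_lit 3126986867) (nat_lit 1321394235807382490443415945)) (C.cons (nat_lit 202) (C.miq (nat_lit 2838563687) (nat_lit 632289805876918062169065697)) (C.cons (nat_lit 200) (C.node (nat_lit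 3) (nat_lit 8) (nat_lit 10) (C.cons (nat_lit 1304) (C.miq (nat_lit 2209784839) (nat_lit 3181919911200032778713367699)) (C.cons (nat_lit 1292) (C.miq (nat_lit 3064072067) (nat_lit 1321394235366029727032410505)) (C.cons (nat_lit 1290) (C.miq (nat_lit 665323825) (nat_lit 1779543658147984072027800075)) (C.cons (nat_lit 1288) (C.node (nat_lit 1) (nat_lit 6) (nat_lit 7) (C.cons (nat_lit 198) (C.node (nat_lit 1) (nat_lit 6) (nat_lit 11) (C.cons (nat_lit 2370) (C.miq (nat_lit 2551319399) (nat_lit 317959389789730580239616225)) (C.cons (nat_lit 2114) (C.node (nat_lit 1) (nat_lit 7) (nat_lit 11) (C.cons (nat_lit 2434) (C.miq (nat_lit 2819754870) (nat_lit 317967653931075876996647137)) (C.cons (nat_lit 2178) (C.node (nat_lit 2) (nat_lit 6) (nat_lit 11) (C.cons (nat_lit 2372) (C.miq (nat_lit 908172160) (nat_lit 239376960671699453069430529)) (C.cons (nat_lit 2116) (C.node (nat_lit 6) (nat_lit 8) (nat_lit 11) C.nil) C.nil))) C.nil))) C.nil))) (C.cons (nat_lit 194) (C.node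 (nat_lit 2) (nat_lit 6) (nat_lit 7) (C.cons (nat_lit 196) (C.node (nat_lit 1) (nat_lit 8) (nat_lit 10) (C.cons (nat_lit 1314) (C.node (nat_lit 2) (nat_lit 8) (nat_lit 10) (C.cons (nat_lit 1300) (C.miq (nat_lit 2018208288) (nat_lit 2804749831369555976440841285)) (C.cons (nat_lit 1284) (C.node (nat_lit 4) (nat_lit 8) (nat_lit 10) (C.cons (nat_lit 1296) (C.node (nat_lit 1) (nat_lit 6) (nat_lit 10) (C.cons (nat_lit 1602) (C.miq (nat_lit 376674944) (nat_lit 241794812021005619944820481)) (C.cons (nat_lit 1098) (C.miq (nat_lit 347514771) (nat_lit 2572614398994542628354655880)) (C.cons (nat_lit 1090) (C.node (nat_lit 1) (nat_lit 9) (nat_lit 10) (C.cons (nat_lit 1542) (C.miq (nat_lit 974682400) (nat_lit 1588535777014676487334724229)) (C.cons (nat_lit 1538) (C.node (nat_lit 3) (nat_lit 6) (nat_lit 10) C.nil) C.nil))) C.nil)))) C.nil)) C.nil))) (C.cons (nat_lit 1282) (C.node (nat_lit 2) (nat_lit 3) (nat_lit 10) (C.cons (nat_lit 1038) (C.node (nat_lit 1) (nat_lit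 3) (nat_lit 7) (C.cons (nat_lit 170) (C.miq (nat_lit 561423184) (nat_lit 234551771588682380551980073)) (C.cons (nat_lit 138) (C.node (nat_lit 3) (nat_lit 4) (nat_lit 10) (C.cons (nat_lit 1112) (C.miq (nat_lit 1779974944) (nat_lit 1549849117611712074387752989)) (C.cons (nat_lit 1048) (C.node (nat_lit 3) (nat_lit 6) (nat_lit 10) (C.cons (nat_lit 1096) (C.node (nat_lit 4) (nat_lit 6) (nat_lit 10) C.nil) C.nil)) C.nil))) C.nil))) (C.cons (nat_lit 1036) (C.node (nat_lit 1) (nat_lit 3) (nat_lit 10) (C.cons (nat_lit 1098) (C.miq (nat_lit 347514771) (nat_lit 2572614398994542628354655880)) (C.cons (nat_lit 1034) (C.node (nat_lit 2) (nat_lit 7) (nat_lit 10) (C.cons (nat_lit 1188) (C.node (nat_lit 2) (nat_lit 3) (nat_lit 7) (C.cons (nat_lit 142) (C.miq (nat_lit 2318469490) (nat_lit 1250034150056370518998516357)) (C.cons (nat_lit 140) (C.node (nat_lit 4) (nat_lit 5) (nat_lit 7) (C.cons (nat_lit 432) (C.miq (nat_lit 624994182) (nat_lit 678227547429473659330299328))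 C.nil)) C.nil))) (C.cons (nat_lit 1156) (C.node (nat_lit 5) (nat_lit 7) (nat_lit 10) (C.cons (nat_lit 1184) (C.node (nat_lit 3) (nat_lit 4) (nat_lit 10) C.nil) C.nil)) C.nil))) C.nil))) C.nil))) C.nil))) C.nil)) C.nil))) C.nil))))) C.nil))))) C.nil)))
  (C.cons (nat_lit 1216) (C.node (nat_lit 3) (nat_lit 6) (nat_lit 7) (C.cons (nat_lit 206) (C.miq (nat_lit 2838563687) (nat_lit 632289805876918062169327841)) (C.cons (nat_lit 204) (C.node (nat_lit 6) (nat_lit 7) (nat_lit 9) (C.cons (nat_lit 962) (C.miq (nat_lit 305561785) (nat_lit 246638613043220099923185409)) (C.cons (nat_lit 960) (C.miq (nat_lit 2252052256) (nat_lit 3181963611439907960166089349)) (C.cons (nat_lit 706) (C.miq (nat_lit 1133579111) (nat_lit 632289805380396203284498657)) (C.cons (nat_lit 704) (C.node (nat_lit 1) (nat_lit 3) (nat_lit 7) (C.cons (nat_lit 170) (C.node (nat_lit 1) (nat_lit 2) (nat_lit 3) (C.cons (nat_lit 1038) (C.miq (nat_lit 1445163169) (nat_lit 246624003787674198794437779))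 (C.cons (nat_lit 14) (C.node (nat_lit 1) (nat_lit 7) (nat_lit 9) (C.cons (nat_lit 898) (C.miq (nat_lit 611388312) (nat_lit 1415656986847057289471463169)) (C.cons (nat_lit 642) (C.node (nat_lit 2) (nat_lit 3) (nat_lit 10) (C.cons (nat_lit 1292) (C.miq (nat_lit 3123054647) (nat_lit 1321397851369220164421419401)) (C.cons (nat_lit 1036) (C.node (nat_lit 1) (nat_lit 3) (nat_lit 10) (C.cons (nat_lit 1354) (C.miq (nat_lit 1930599040) (nat_lit 16936860095164327569854209)) (C.cons (nat_lit 1290) (C.miq (nat_lit 1930599040) (nat_lit 16936860095164052691947265)) (C.cons (nat_lit 1098) (C.miq (nat_lit 347514771) (nat_lit 2572614398994542628354655880)) (C.cons (nat_lit 1034) (C.node (nat_lit 3) (nat_lit 5) (nat_lit 11) (C.cons (nat_lit 2344) (C.miq (nat_lit 2199565680) (nat_lit 1250100152085291760664905953)) (C.cons (nat_lit 2088) (C.node (nat_lit 1) (nat_lit 3) (nat_lit 11) (C.cons (nat_lit 2314) (C.node (nat_lit 1) (nat_lit 3) (nat_lit 4) C.nil) C.nil)) C.nil)))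 C.nil))))) C.nil))) C.nil))) C.nil))) (C.cons (nat_lit 138) (C.node (nat_lit 3) (nat_lit 5) (nat_lit 7) (C.cons (nat_lit 168) (C.node (nat_lit 1) (nat_lit 6) (nat_lit 7) (C.cons (nat_lit 450) (C.node (nat_lit 1) (nat_lit 6) (nat_lit 11) (C.cons (nat_lit 2118) (C.miq (nat_lit 840436583) (nat_lit 317954740713701064199768289)) (C.cons (nat_lit 2114) (C.node (nat_lit 1) (nat_lit 7) (nat_lit 11) (C.cons (nat_lit 2182) (C.miq (nat_lit 1108872054) (nat_lit 317953707696033211342784737)) (C.cons (nat_lit 2178) (C.node (nat_lit 1) (nat_lit 2) (nat_lit 7) (C.cons (nat_lit 166) (C.node (nat_lit 1) (nat_lit 7) (nat_lit 9) C.nil) C.nil)) C.nil))) C.nil))) (C.cons (nat_lit 194) (C.node (nat_lit 6) (nat_lit 7) (nat_lit 8) (C.cons (nat_lit 448) (C.node (nat_lit 2) (nat_lit 3) (nat_lit 10) (C.cons (nat_lit 1292) (C.miq (nat_lit 3123054647) (nat_lit 1321397851369220164421419401)) (C.cons (nat_lit 1038) (C.node (nat_lit 3) (nat_lit 6) (nat_lit 10) (C.cons (nat_lit 1352)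 (C.miq (nat_lit 2590115895) (nat_lit 1321367820069868422969426313)) (C.cons (nat_lit 1112) (C.miq (nat_lit 2251424929) (nat_lit 246625718789937580475286675)) (C.cons (nat_lit 1096) (C.node (nat_lit 3) (nat_lit 4) (nat_lit 6) (C.cons (nat_lit 122) (C.miq (nat_lit 592016976) (nat_lit 647996137520790199575054561)) C.nil)) C.nil)))) (C.cons (nat_lit 1036) (C.node (nat_lit 1) (nat_lit 3) (nat_lit 10) (C.cons (nat_lit 1354) (C.miq (nat_lit 657525160) (nat_lit 166836614782068752973958913)) (C.cons (nat_lit 1290) (C.miq (nat_lit 657525160) (nat_lit 166836614782068752969764609)) (C.cons (nat_lit 1098) (C.miq (nat_lit 347514771) (nat_lit 2572614398994542628354655880)) (C.cons (nat_lit 1034) (C.node (nat_lit 1) (nat_lit 2) (nat_lit 3) (C.cons (nat_lit 46) (C.node (nat_lit 2) (nat_lit 3) (nat_lit 8) (C.cons (nat_lit 780) (C.miq (nat_lit 1931585920) (nat_lit 55632189310212767073373953)) C.nil)) (C.cons (nat_lit 14) (C.node (nat_lit 1) (nat_lit 2) (nat_lit 7) C.nil)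 C.nil))) C.nil))))) C.nil)))) C.nil)) C.nil))) C.nil)) C.nil))) C.nil))))) (C.cons (nat_lit 202) (C.miq (nat_lit 2838563687) (nat_lit 632289805876918062169065697)) (C.cons (nat_lit 200) (C.node (nat_lit 6) (nat_lit 7) (nat_lit 9) (C.cons (nat_lit 962) (C.miq (nat_lit 611388312) (nat_lit 1415656986847057289475657473)) (C.cons (nat_lit 960) (C.node (nat_lit 6) (nat_lit 9) (nat_lit 10)
  (C.cons (nat_lit 1634) (C.miq (nat_lit 1450420608) (nat_lit 241804810165298570753281793)) (C.cons (nat_lit 1632) (C.miq (nat_lit 1450420608) (nat_lit 241804810164735620799860481)) (C.cons (nat_lit 1602) (C.miq (nat_lit 1265238929) (nat_lit 3791212972033422236850455051)) (C.cons (nat_lit 1600) (C.node (nat_lit 1) (nat_lit 6) (nat_lit 7) (C.cons (nat_lit 198) (C.node (nat_lit 1) (nat_lit 6) (nat_lit 11) (C.cons (nat_lit 2370) (C.miq (nat_lit 2551319399) (nat_lit 317959389789730580239616225)) (C.cons (nat_lit 2114) (C.node (nat_lit 2) (nat_lit 6) (nat_lit 11) C.nil) C.nil)))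 (C.cons (nat_lit 194) (C.node (nat_lit 2) (nat_lit 6) (nat_lit 7) (C.cons (nat_lit 196) (C.node (nat_lit 1) (nat_lit 7) (nat_lit 9) (C.cons (nat_lit 674) (C.node (nat_lit 1) (nat_lit 8) (nat_lit 9) (C.cons (nat_lit 786) (C.miq (nat_lit 1501983040) (nat_lit 1160610716469041059698115731)) (C.cons (nat_lit 770) (C.node (nat_lit 4) (nat_lit 8) (nat_lit 9) (C.cons (nat_lit 788) (C.miq (nat_lit 1749776672) (nat_lit 2804749831225438589341729413)) (C.cons (nat_lit 784) (C.node (nat_lit 5) (nat_lit 9) (nat_lit 11) (C.cons (nat_lit 2596) (C.miq (nat_lit 364149024) (nat_lit 2533930119239298348243288709)) (C.cons (nat_lit 2592) (C.node (nat_lit 1) (nat_lit 6) (nat_lit 11) C.nil) C.nil))) C.nil))) C.nil))) (C.cons (nat_lit 642) (C.node (nat_lit 5) (nat_lit 7) (nat_lit 9) (C.cons (nat_lit 672) (C.node (nat_lit 2) (nat_lit 6) (nat_lit 11) (C.cons (nat_lit 2372) (C.miq (nat_lit 426247090) (nat_lit 1160573638470958110659053597)) (C.cons (nat_lit 2118) (C.node (nat_lit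 6) (nat_lit 8) (nat_lit 11) C.nil) (C.cons (nat_lit 2116) (C.node (nat_lit 1) (nat_lit 6) (nat_lit 11) C.nil) C.nil)))) C.nil)) C.nil))) C.nil)) C.nil))) C.nil))))) (C.cons (nat_lit 706) (C.miq (nat_lit 1133579111) (nat_lit 632289805380396203284498657)) (C.cons (nat_lit 704) (C.node (nat_lit 6) (nat_lit 9) (nat_lit 10) (C.cons (nat_lit 1634) (C.miq (nat_lit 1265238929) (nat_lit 3791212972033422236852552203)) (C.cons (nat_lit 1632) (C.node (nat_lit 1) (nat_lit 9) (nat_lit 10) (C.cons (nat_lit 1542) (C.node (nat_lit 1) (nat_lit 9) (nat_lit 11) (C.cons (nat_lit 2594) (C.miq (nat_lit 302750309) (nat_lit 2510986778627751107077670496)) (C.cons (nat_lit 2562) (C.node (nat_lit 2) (nat_lit 3) (nat_lit 10) (C.cons (nat_lit 1292) (C.miq (nat_lit 2458099975) (nat_lit 1561963002332227679780668563)) (C.cons (nat_lit 1036) (C.node (nat_lit 2) (nat_lit 4) (nat_lit 9) (C.cons (nat_lit 788) (C.miq (nat_lit 958954000) (nat_lit 952640795897381541439276179)) (C.cons (nat_lit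 596) (C.miq (nat_lit 1497605664) (nat_lit 648003885555249460243399749)) (C.cons (nat_lit 532) (C.node (nat_lit 2) (nat_lit 6) (nat_lit 9) (C.cons (nat_lit 836) (C.miq (nat_lit 958954000) (nat_lit 1010669235238883741825172627)) (C.cons (nat_lit 580) (C.node (nat_lit 4) (nat_lit 8) (nat_lit 9) (C.cons (nat_lit 786) (C.miq (nat_lit 2250850465) (nat_lit 701191474612188618688955539)) (C.cons (nat_lit 784) (C.node (nat_lit 1) (nat_lit 4) (nat_lit 9) (C.cons (nat_lit 530) (C.node (nat_lit 4) (nat_lit 6) (nat_lit 9) C.nil) C.nil)) C.nil))) C.nil))) C.nil)))) C.nil))) C.nil))) (C.cons (nat_lit 1538) (C.node (nat_lit 2) (nat_lit 9) (nat_lit 10) (C.cons (nat_lit 1540) (C.node (nat_lit 4) (nat_lit 6) (nat_lit 10) (C.cons (nat_lit 1112) (C.node (nat_lit 1) (nat_lit 6) (nat_lit 10) (C.cons (nat_lit 1346) (C.node (nat_lit 1) (nat_lit 3) (nat_lit 10) (C.cons (nat_lit 1038) (C.node (nat_lit 3) (nat_lit 8) (nat_lit 10) (C.cons (nat_lit 1288) (C.node (nat_lit 1) (nat_lit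 6) (nat_lit 7) (C.cons (nat_lit 198) (C.miq (nat_lit 2792980768) (nat_lit 851154631331552226479243527)) (C.cons (nat_lit 194) (C.node (nat_lit 2) (nat_lit 3) (nat_lit 6) (C.cons (nat_lit 76) (C.miq (nat_lit 2184581194) (nat_lit 91903191682271869928998035)) C.nil)) C.nil))) C.nil)) (C.cons (nat_lit 1034) (C.miq (nat_lit 564332644) (nat_lit 1250067611443001361358651729)) C.nil))) (C.cons (nat_lit 1090) (C.node (nat_lit 6) (nat_lit 8) (nat_lit 10) (C.cons (nat_lit 1344)
  (C.node (nat_lit 1) (nat_lit 3) (nat_lit 10) C.nil) C.nil)) C.nil))) (C.cons (nat_lit 1104) (C.node (nat_lit 3) (nat_lit 4) (nat_lit 6) (C.cons (nat_lit 122) (C.miq (nat_lit 446054579) (nat_lit 1972969188443475500555831325)) (C.cons (nat_lit 120) (C.miq (nat_lit 2521539888) (nat_lit 2572664998543285679686485033)) (C.cons (nat_lit 90) (C.miq (nat_lit 446054579) (nat_lit 1972968598147665141850179613)) (C.cons (nat_lit 88) (C.node (nat_lit 4) (nat_lit 5) (nat_lit 6) (C.cons (nat_lit 118) (C.miq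 (nat_lit 2504762912) (nat_lit 2533979372315617537505952837)) (C.cons (nat_lit 116) (C.miq (nat_lit 2504762912) (nat_lit 2533979372315617528916018245)) (C.cons (nat_lit 114) (C.node (nat_lit 1) (nat_lit 2) (nat_lit 4) C.nil) C.nil)))) C.nil))))) C.nil))) C.nil)) C.nil))) (C.cons (nat_lit 1602) (C.miq (nat_lit 1265238929) (nat_lit 3791212972033422236850455051)) (C.cons (nat_lit 1600) (C.node (nat_lit 7) (nat_lit 8) (nat_lit 9) (C.cons (nat_lit 930) (C.miq (nat_lit 611388312) (nat_lit 1415656986847057289473560321)) (C.cons (nat_lit 928) (C.node (nat_lit 1) (nat_lit 7) (nat_lit 9) (C.cons (nat_lit 642) (C.node (nat_lit 4) (nat_lit 5) (nat_lit 7) (C.cons (nat_lit 180) (C.miq (nat_lit 2236323616) (nat_lit 2533979372117459420189622917)) (C.cons (nat_lit 176) (C.node (nat_lit 2) (nat_lit 4) (nat_lit 7) (C.cons (nat_lit 404) (C.node (nat_lit 7) (nat_lit 8) (nat_lit 10) (C.cons (nat_lit 1408) (C.node (nat_lit 2) (nat_lit 4) (nat_lit 10) (C.cons (nat_lit 1044) (C.node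 (nat_lit 4) (nat_lit 8) (nat_lit 9) C.nil) C.nil)) C.nil)) (C.cons (nat_lit 148) (C.node (nat_lit 4) (nat_lit 7) (nat_lit 8) C.nil) C.nil))) C.nil))) C.nil)) (C.cons (nat_lit 898) (C.miq (nat_lit 611388312) (nat_lit 1415656986847057289471463169)) (C.cons (nat_lit 896) (C.node (nat_lit 1) (nat_lit 7) (nat_lit 9) (C.cons (nat_lit 674) (C.node (nat_lit 5) (nat_lit 9) (nat_lit 11) (C.cons (nat_lit 2596) (C.miq (nat_lit 364149024) (nat_lit 2533930119239298348243288709)) (C.cons (nat_lit 2592) (C.node (nat_lit 1) (nat_lit 3) (nat_lit 7) (C.cons (nat_lit 142) (C.node (nat_lit 3) (nat_lit 5) (nat_lit 7) (C.cons (nat_lit 168) (C.node (nat_lit 2) (nat_lit 7) (nat_lit 11) (C.cons (nat_lit 2436) (C.miq (nat_lit 2266608176) (nat_lit 814886857049920835326511133)) C.nil)) C.nil)) (C.cons (nat_lit 138) (C.node (nat_lit 1) (nat_lit 9) (nat_lit 10) (C.cons (nat_lit 1542) (C.node (nat_lit 1) (nat_lit 3) (nat_lit 10) (C.cons (nat_lit 1354) (C.miq (nat_lit 657525160) (nat_lit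 166836614782068752973958913)) (C.cons (nat_lit 1290) (C.miq (nat_lit 657525160) (nat_lit 166836614782068752969764609)) (C.cons (nat_lit 1098) (C.miq (nat_lit 1369864480) (nat_lit 1327442479575863132852388485)) (C.cons (nat_lit 1034) (C.miq (nat_lit 2208368530) (nat_lit 1250034149085844799391924869)) C.nil))))) (C.cons (nat_lit 1538) (C.node (nat_lit 1) (nat_lit 9) (nat_lit 11) (C.cons (nat_lit 2566) (C.node (nat_lit 2) (nat_lit 7) (nat_lit 11) (C.cons (nat_lit 2436) (C.miq (nat_lit 657569801) (nat_lit 166879098137786696042483457)) C.nil)) (C.cons (nat_lit 2562) (C.node (nat_lit 2) (nat_lit 9) (nat_lit 11) C.nil) C.nil))) C.nil))) C.nil))) C.nil))) (C.cons (nat_lit 642) (C.node (nat_lit 5) (nat_lit 7) (nat_lit 9) (C.cons (nat_lit 672) (C.node (nat_lit 1) (nat_lit 6) (nat_lit 7) (C.cons (nat_lit 450) (C.node (nat_lit 2) (nat_lit 6) (nat_lit 7) (C.cons (nat_lit 196) (C.node (nat_lit 1) (nat_lit 6) (nat_lit 11) C.nil) C.nil)) (C.cons (nat_lit 198) (C.node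 (nat_lit 6) (nat_lit 7) (nat_lit 8) (C.cons (nat_lit 448) (C.node (nat_lit 1) (nat_lit 6) (nat_lit 11) C.nil) C.nil)) (C.cons (nat_lit 194) (C.node (nat_lit 2) (nat_lit 6) (nat_lit 7) (C.cons (nat_lit 452) (C.node (nat_lit 2) (nat_lit 6) (nat_lit 11) C.nil) C.nil)) C.nil)))) C.nil)) C.nil))) C.nil))))) C.nil))))) C.nil))))) C.nil))))) C.nil))) (C.cons (nat_lit 1664) (C.node (nat_lit 3) (nat_lit 7) (nat_lit 9) (C.cons (nat_lit 680) (C.node (nat_lit 3) (nat_lit 9) (nat_lit 10) (C.cons (nat_lit 1548) (C.miq (nat_lit 1698301842) (nat_lit 1287526160820648178344526469))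
  (C.cons (nat_lit 1544) (C.node (nat_lit 1) (nat_lit 7) (nat_lit 9) (C.cons (nat_lit 962) (C.miq (nat_lit 611388312) (nat_lit 1415656986847057289475657473)) (C.cons (nat_lit 898) (C.miq (nat_lit 611388312) (nat_lit 1415656986847057289471463169)) (C.cons (nat_lit 706) (C.miq (nat_lit 1133579111) (nat_lit 632289805380396203284498657)) (C.cons (nat_lit 642) (C.node (nat_lit 2) (nat_lit 3) (nat_lit 9) (C.cons (nat_lit 780) (C.node (nat_lit 6) (nat_lit 7) (nat_lit 9) (C.cons (nat_lit 960) (C.miq (nat_lit 2209780231) (nat_lit 3181910466319574151626556037)) (C.cons (nat_lit 704) (C.node (nat_lit 7) (nat_lit 8) (nat_lit 9) (C.cons (nat_lit 896) (C.node (nat_lit 1) (nat_lit 3) (nat_lit 7) (C.cons (nat_lit 206) (C.miq (nat_lit 2838563687) (nat_lit 632289805876918062169327841)) (C.cons (nat_lit 202) (C.miq (nat_lit 2838563687) (nat_lit 632289805876918062169065697)) (C.cons (nat_lit 142) (C.miq (nat_lit 2838956065) (nat_lit 822091159556406888314568967)) (C.cons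 (nat_lit 138) (C.node (nat_lit 6) (nat_lit 8) (nat_lit 9) (C.cons (nat_lit 866) (C.miq (nat_lit 542653289) (nat_lit 349393950913638614085798472)) (C.cons (nat_lit 864) (C.miq (nat_lit 542653289) (nat_lit 349393950913638614085667400)) (C.cons (nat_lit 834) (C.miq (nat_lit 380668210) (nat_lit 2747893239712504934785942284)) (C.cons (nat_lit 832) (C.node (nat_lit 2) (nat_lit 3) (nat_lit 6) (C.cons (nat_lit 204) (C.miq (nat_lit 2204865136) (nat_lit 3181963611389242464371016325)) (C.cons (nat_lit 110) (C.miq (nat_lit 412491955) (nat_lit 1005828311135263997422995485)) (C.cons (nat_lit 108) (C.miq (nat_lit 2152897379) (nat_lit 44744644867273920927763016)) (C.cons (nat_lit 78) (C.miq (nat_lit 412491955) (nat_lit 1005827720839453638717343773)) (C.cons (nat_lit 76) (C.node (nat_lit 2) (nat_lit 3) (nat_lit 5) (C.cons (nat_lit 46) (C.node (nat_lit 3) (nat_lit 5) (nat_lit 11) (C.cons (nat_lit 2344) (C.miq (nat_lit 1966214025) (nat_lit 55622486492003174215061249)) (C.cons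 (nat_lit 2088) (C.node (nat_lit 1) (nat_lit 3) (nat_lit 11) C.nil) C.nil))) (C.cons (nat_lit 44) (C.node (nat_lit 1) (nat_lit 2) (nat_lit 3) (C.cons (nat_lit 1038) (C.node (nat_lit 2) (nat_lit 3) (nat_lit 7) C.nil) (C.cons (nat_lit 14) (C.node (nat_lit 2) (nat_lit 3) (nat_lit 7) (C.cons (nat_lit 140) (C.node (nat_lit 2) (nat_lit 3) (nat_lit 10) C.nil) C.nil)) C.nil))) C.nil))) C.nil)))))) C.nil))))) C.nil))))) C.nil)) C.nil))) (C.cons (nat_lit 524) (C.node (nat_lit 3) (nat_lit 8) (nat_lit 9) (C.cons (nat_lit 776) (C.node (nat_lit 6) (nat_lit 7) (nat_lit 9) (C.cons (nat_lit 960) (C.node (nat_lit 6) (nat_lit 9) (nat_lit 10) (C.cons (nat_lit 1634) (C.miq (nat_lit 895945368) (nat_lit 2747895637854250950197251841)) (C.cons (nat_lit 1632) (C.miq (nat_lit 895945368) (nat_lit 2747895637854250941607317249)) (C.cons (nat_lit 1602) (C.miq (nat_lit 1265238929) (nat_lit 3791212972033422236850455051)) (C.cons (nat_lit 1600) (C.node (nat_lit 6) (nat_lit 7) (nat_lit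 10) (C.cons (nat_lit 1224) (C.node (nat_lit 1) (nat_lit 3) (nat_lit 7) (C.cons (nat_lit 142) (C.node (nat_lit 1) (nat_lit 6) (nat_lit 7) (C.cons (nat_lit 194) (C.node (nat_lit 2) (nat_lit 6) (nat_lit 7) (C.cons (nat_lit 196) (C.node (nat_lit 1) (nat_lit 3) (nat_lit 10) (C.cons (nat_lit 1290) (C.miq (nat_lit 2200543600) (nat_lit 633547983785156135818167443)) (C.cons (nat_lit 1034) (C.node (nat_lit 2) (nat_lit 3) (nat_lit 10) (C.cons (nat_lit 1292) (C.node (nat_lit 3) (nat_lit 4) (nat_lit 10) C.nil) C.nil)) C.nil))) C.nil)) C.nil)) (C.cons (nat_lit 138) (C.node (nat_lit 2) (nat_lit 3) (nat_lit 7) (C.cons (nat_lit 140) (C.node (nat_lit 1) (nat_lit 6) (nat_lit 7) (C.cons (nat_lit 194) (C.node (nat_lit 2) (nat_lit 6) (nat_lit 7) C.nil) C.nil)) C.nil)) C.nil))) (C.cons (nat_lit 1216) (C.node (nat_lit 3) (nat_lit 6) (nat_lit 7) (C.cons (nat_lit 206) (C.miq (nat_lit 2838563687) (nat_lit 632289805876918062169327841)) (C.cons (nat_lit 204) (C.miq (nat_lit 2252052256)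 (nat_lit 3181963611439907960166089349)) (C.cons (nat_lit 202)
  (C.miq (nat_lit 2838563687) (nat_lit 632289805876918062169065697)) (C.cons (nat_lit 200) (C.node (nat_lit 1) (nat_lit 3) (nat_lit 7) (C.cons (nat_lit 142) (C.node (nat_lit 1) (nat_lit 6) (nat_lit 7) (C.cons (nat_lit 194) (C.node (nat_lit 2) (nat_lit 6) (nat_lit 7) C.nil) C.nil)) (C.cons (nat_lit 138) (C.node (nat_lit 2) (nat_lit 3) (nat_lit 7) (C.cons (nat_lit 1164) (C.node (nat_lit 1) (nat_lit 6) (nat_lit 7) C.nil) C.nil)) C.nil))) C.nil))))) C.nil))) C.nil))))) (C.cons (nat_lit 704) (C.node (nat_lit 7) (nat_lit 8) (nat_lit 9) (C.cons (nat_lit 896) (C.node (nat_lit 6) (nat_lit 9) (nat_lit 10) (C.cons (nat_lit 1634) (C.miq (nat_lit 1265238929) (nat_lit 3791212972033422236852552203)) (C.cons (nat_lit 1632) (C.node (nat_lit 1) (nat_lit 9) (nat_lit 10) (C.cons (nat_lit 1542) (C.node (nat_lit 1) (nat_lit 9) (nat_lit 11) (C.cons (nat_lit 2594) (C.miq (nat_lit 302750309) (nat_lit 2510986778627751107077670496))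 C.nil)) C.nil)) (C.cons (nat_lit 1602) (C.miq (nat_lit 1265238929) (nat_lit 3791212972033422236850455051)) (C.cons (nat_lit 1600) (C.node (nat_lit 4) (nat_lit 8) (nat_lit 9) C.nil) C.nil))))) C.nil)) C.nil))) C.nil)) C.nil))) C.nil))))) C.nil))) (C.cons (nat_lit 648) (C.node (nat_lit 3) (nat_lit 9) (nat_lit 10) (C.cons (nat_lit 1548) (C.node (nat_lit 6) (nat_lit 9) (nat_lit 10) (C.cons (nat_lit 1634) (C.miq (nat_lit 1497066016) (nat_lit 3181934687134920290328183877)) (C.cons (nat_lit 1632) (C.miq (nat_lit 1497066016) (nat_lit 3181934687134357340374762565)) (C.cons (nat_lit 1602) (C.miq (nat_lit 1265238929) (nat_lit 3791212972033422236850455051)) (C.cons (nat_lit 1600) (C.node (nat_lit 1) (nat_lit 9) (nat_lit 10) (C.cons (nat_lit 1570) (C.node (nat_lit 1) (nat_lit 9) (nat_lit 11) (C.cons (nat_lit 2566) (C.miq (nat_lit 353081906) (nat_lit 2747935722771265540528604684)) (C.cons (nat_lit 2562) (C.node (nat_lit 5) (nat_lit 10) (nat_lit 11) (C.cons (nat_lit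 3108) (C.miq (nat_lit 1359718706) (nat_lit 2479564188952103486448535052)) (C.cons (nat_lit 3104) (C.node (nat_lit 1) (nat_lit 7) (nat_lit 9) (C.cons (nat_lit 962) (C.miq (nat_lit 611388312) (nat_lit 1415656986847057289475657473)) (C.cons (nat_lit 898) (C.miq (nat_lit 611388312) (nat_lit 1415656986847057289471463169)) (C.cons (nat_lit 706) (C.miq (nat_lit 1133579111) (nat_lit 632289805380396203284498657)) (C.cons (nat_lit 642) (C.node (nat_lit 3) (nat_lit 5) (nat_lit 9) (C.cons (nat_lit 808) (C.miq (nat_lit 2266575013) (nat_lit 776145281272428182835954729)) (C.cons (nat_lit 552) (C.node (nat_lit 3) (nat_lit 8) (nat_lit 9) C.nil) C.nil))) C.nil))))) C.nil))) C.nil))) (C.cons (nat_lit 1538) (C.node (nat_lit 5) (nat_lit 9) (nat_lit 10) (C.cons (nat_lit 1568) (C.node (nat_lit 3) (nat_lit 5) (nat_lit 9) (C.cons (nat_lit 808) (C.node (nat_lit 3) (nat_lit 5) (nat_lit 7) (C.cons (nat_lit 174) (C.miq (nat_lit 3124037927) (nat_lit 1287547928420011647039308421))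 (C.cons (nat_lit 172) (C.miq (nat_lit 3124037927) (nat_lit 1287547928420011647039177349)) (C.cons (nat_lit 170) (C.miq (nat_lit 446001283) (nat_lit 1895598821431854771313574281)) (C.cons (nat_lit 168) (C.node (nat_lit 2) (nat_lit 3) (nat_lit 8) (C.cons (nat_lit 332) (C.node (nat_lit 2) (nat_lit 3) (nat_lit 7) (C.cons (nat_lit 142) (C.miq (nat_lit 1668579856) (nat_lit 183762941227626776904270087)) (C.cons (nat_lit 140) (C.node (nat_lit 1) (nat_lit 3) (nat_lit 7) (C.cons (nat_lit 202) (C.miq (nat_lit 2838563687) (nat_lit 632289805876918062169065697)) (C.cons (nat_lit 138) (C.node (nat_lit 3) (nat_lit 6) (nat_lit 7) (C.cons (nat_lit 1224) (C.miq (nat_lit 308938807) (nat_lit 1321377522050129346723053961)) (C.cons (nat_lit 200) (C.node (nat_lit 3) (nat_lit 7) (nat_lit 10) C.nil) C.nil))) C.nil))) C.nil))) (C.cons (nat_lit 268) (C.node (nat_lit 3) (nat_lit 5) (nat_lit 11) (C.cons (nat_lit 2090) (C.node (nat_lit 3) (nat_lit 8) (nat_lit 11) (C.cons (nat_lit 2312)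 (C.node (nat_lit 1) (nat_lit 9) (nat_lit 11) C.nil) C.nil)) (C.cons (nat_lit 2088) (C.node (nat_lit 1) (nat_lit 3) (nat_lit 11) (C.cons (nat_lit 2314)
  (C.node (nat_lit 5) (nat_lit 7) (nat_lit 9) C.nil) C.nil)) C.nil))) C.nil))) C.nil))))) (C.cons (nat_lit 552) (C.node (nat_lit 3) (nat_lit 8) (nat_lit 9) (C.cons (nat_lit 776) (C.node (nat_lit 3) (nat_lit 7) (nat_lit 10) (C.cons (nat_lit 1224) (C.node (nat_lit 1) (nat_lit 3) (nat_lit 10) (C.cons (nat_lit 1290) (C.node (nat_lit 3) (nat_lit 4) (nat_lit 10) C.nil) (C.cons (nat_lit 1034) (C.node (nat_lit 3) (nat_lit 4) (nat_lit 10) C.nil) C.nil))) (C.cons (nat_lit 1160) (C.node (nat_lit 3) (nat_lit 6) (nat_lit 7) (C.cons (nat_lit 206) (C.miq (nat_lit 2838563687) (nat_lit 632289805876918062169327841)) (C.cons (nat_lit 204) (C.miq (nat_lit 2741736048) (nat_lit 3181963611605415246484800133)) (C.cons (nat_lit 202) (C.miq (nat_lit 2838563687) (nat_lit 632289805876918062169065697)) (C.cons (nat_lit 200) (C.node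 (nat_lit 3) (nat_lit 4) (nat_lit 10) C.nil) C.nil))))) C.nil))) C.nil)) C.nil))) C.nil)) C.nil))) C.nil))))) (C.cons (nat_lit 1544) (C.node (nat_lit 6) (nat_lit 7) (nat_lit 9) (C.cons (nat_lit 962) (C.miq (nat_lit 611388312) (nat_lit 1415656986847057289475657473)) (C.cons (nat_lit 960) (C.node (nat_lit 6) (nat_lit 9) (nat_lit 10) (C.cons (nat_lit 1634) (C.miq (nat_lit 895945368) (nat_lit 2747895637854250950197251841)) (C.cons (nat_lit 1632) (C.miq (nat_lit 895945368) (nat_lit 2747895637854250941607317249)) (C.cons (nat_lit 1602) (C.miq (nat_lit 1265238929) (nat_lit 3791212972033422236850455051)) (C.cons (nat_lit 1600) (C.node (nat_lit 1) (nat_lit 7) (nat_lit 9) (C.cons (nat_lit 674) (C.node (nat_lit 1) (nat_lit 8) (nat_lit 9) (C.cons (nat_lit 786) (C.miq (nat_lit 1501983040) (nat_lit 1160610716469041059698115731)) (C.cons (nat_lit 770) (C.node (nat_lit 4) (nat_lit 8) (nat_lit 9) (C.cons (nat_lit 788) (C.miq (nat_lit 1749776672) (nat_lit 2804749831225438589341729413))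 (C.cons (nat_lit 784) (C.node (nat_lit 5) (nat_lit 9) (nat_lit 11) (C.cons (nat_lit 2596) (C.miq (nat_lit 364149024) (nat_lit 2533930119239298348243288709)) (C.cons (nat_lit 2592) (C.node (nat_lit 1) (nat_lit 9) (nat_lit 11) C.nil) C.nil))) C.nil))) C.nil))) (C.cons (nat_lit 642) (C.node (nat_lit 5) (nat_lit 7) (nat_lit 9) (C.cons (nat_lit 672) (C.node (nat_lit 6) (nat_lit 7) (nat_lit 10) (C.cons (nat_lit 1224) (C.node (nat_lit 1) (nat_lit 6) (nat_lit 7) (C.cons (nat_lit 198) (C.node (nat_lit 1) (nat_lit 3) (nat_lit 7) (C.cons (nat_lit 170) (C.miq (nat_lit 1344354919) (nat_lit 317950626804915548180579528)) (C.cons (nat_lit 138) (C.node (nat_lit 1) (nat_lit 6) (nat_lit 11) (C.cons (nat_lit 2370) (C.miq (nat_lit 2551319399) (nat_lit 317959389789730580239616225)) (C.cons (nat_lit 2114) (C.node (nat_lit 1) (nat_lit 7) (nat_lit 11) (C.cons (nat_lit 2434) (C.miq (nat_lit 2819754870) (nat_lit 317967653931075876996647137)) C.nil)) C.nil))) C.nil))) (C.cons (nat_lit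 194) (C.node (nat_lit 2) (nat_lit 6) (nat_lit 7) (C.cons (nat_lit 196) (C.node (nat_lit 4) (nat_lit 6) (nat_lit 9) (C.cons (nat_lit 598) (C.miq (nat_lit 946079634) (nat_lit 407446315208194915669770885)) (C.cons (nat_lit 596) (C.miq (nat_lit 946079634) (nat_lit 407446315208194915669639813)) (C.cons (nat_lit 594) (C.node (nat_lit 2) (nat_lit 4) (nat_lit 9) (C.cons (nat_lit 788) (C.miq (nat_lit 1749776672) (nat_lit 2804749831225438589341729413)) C.nil)) C.nil)))) C.nil)) C.nil))) (C.cons (nat_lit 1216) (C.node (nat_lit 3) (nat_lit 6) (nat_lit 7) (C.cons (nat_lit 206) (C.miq (nat_lit 2838563687) (nat_lit 632289805876918062169327841)) (C.cons (nat_lit 204) (C.miq (nat_lit 2252052256) (nat_lit 3181963611439907960166089349)) (C.cons (nat_lit 202) (C.miq (nat_lit 2838563687) (nat_lit 632289805876918062169065697)) (C.cons (nat_lit 200) (C.node (nat_lit 1) (nat_lit 6) (nat_lit 7) (C.cons (nat_lit 198) (C.node (nat_lit 1) (nat_lit 6) (nat_lit 11) (C.cons (nat_lit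 2370) (C.miq (nat_lit 2551319399) (nat_lit 317959389789730580239616225)) (C.cons (nat_lit 2114) (C.node (nat_lit 1) (nat_lit 7) (nat_lit 11) C.nil) C.nil))) (C.cons (nat_lit 194) (C.node (nat_lit 2) (nat_lit 6) (nat_lit 7) (C.cons (nat_lit 196)
  (C.node (nat_lit 1) (nat_lit 6) (nat_lit 11) C.nil) C.nil)) C.nil))) C.nil))))) C.nil))) C.nil)) C.nil))) C.nil))))) (C.cons (nat_lit 706) (C.miq (nat_lit 1133579111) (nat_lit 632289805380396203284498657)) (C.cons (nat_lit 704) (C.node (nat_lit 6) (nat_lit 9) (nat_lit 10) (C.cons (nat_lit 1634) (C.miq (nat_lit 1265238929) (nat_lit 3791212972033422236852552203)) (C.cons (nat_lit 1632) (C.node (nat_lit 1) (nat_lit 9) (nat_lit 10) (C.cons (nat_lit 1542) (C.node (nat_lit 1) (nat_lit 9) (nat_lit 11) (C.cons (nat_lit 2594) (C.miq (nat_lit 302750309) (nat_lit 2510986778627751107077670496)) (C.cons (nat_lit 2562) (C.node (nat_lit 2) (nat_lit 6) (nat_lit 9) (C.cons (nat_lit 836) (C.miq (nat_lit 1772388880) (nat_lit 1876259088829977022709301511))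 (C.cons (nat_lit 596) (C.miq (nat_lit 1497605664) (nat_lit 648003885555249460243399749)) (C.cons (nat_lit 580) (C.node (nat_lit 2) (nat_lit 9) (nat_lit 11) (C.cons (nat_lit 2596) (C.node (nat_lit 2) (nat_lit 3) (nat_lit 9) C.nil) C.nil)) C.nil)))) C.nil))) (C.cons (nat_lit 1538) (C.node (nat_lit 2) (nat_lit 9) (nat_lit 10) (C.cons (nat_lit 1540) (C.node (nat_lit 4) (nat_lit 6) (nat_lit 10) (C.cons (nat_lit 1112) (C.node (nat_lit 1) (nat_lit 6) (nat_lit 10) (C.cons (nat_lit 1346) (C.node (nat_lit 6) (nat_lit 7) (nat_lit 10) (C.cons (nat_lit 1216) (C.node (nat_lit 1) (nat_lit 3) (nat_lit 10) (C.cons (nat_lit 1038) (C.node (nat_lit 3) (nat_lit 7) (nat_lit 10) C.nil) (C.cons (nat_lit 1034) (C.miq (nat_lit 564332644) (nat_lit 1250067611443001361358651729)) C.nil))) C.nil)) (C.cons (nat_lit 1090) (C.node (nat_lit 3) (nat_lit 7) (nat_lit 10) (C.cons (nat_lit 1164) (C.node (nat_lit 3) (nat_lit 6) (nat_lit 7) (C.cons (nat_lit 202) (C.miq (nat_lit 2838563687) (nat_lit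 632289805876918062169065697)) (C.cons (nat_lit 200) (C.node (nat_lit 6) (nat_lit 7) (nat_lit 10) (C.cons (nat_lit 1472) (C.miq (nat_lit 1185024115) (nat_lit 1321394234821094172112191881)) (C.cons (nat_lit 1216) (C.node (nat_lit 6) (nat_lit 8) (nat_lit 10) C.nil) C.nil))) C.nil))) (C.cons (nat_lit 1160) (C.node (nat_lit 6) (nat_lit 7) (nat_lit 10) (C.cons (nat_lit 1472) (C.node (nat_lit 2) (nat_lit 7) (nat_lit 10) (C.cons (nat_lit 1156) (C.node (nat_lit 5) (nat_lit 7) (nat_lit 10) C.nil) C.nil)) (C.cons (nat_lit 1216) (C.node (nat_lit 6) (nat_lit 8) (nat_lit 10) C.nil) C.nil))) C.nil))) C.nil))) (C.cons (nat_lit 1104) (C.node (nat_lit 3) (nat_lit 4) (nat_lit 6) (C.cons (nat_lit 122) (C.miq (nat_lit 446054579) (nat_lit 1972969188443475500555831325)) (C.cons (nat_lit 120) (C.miq (nat_lit 2521539888) (nat_lit 2572664998543285679686485033)) (C.cons (nat_lit 90) (C.miq (nat_lit 446054579) (nat_lit 1972968598147665141850179613)) (C.cons (nat_lit 88) (C.node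 (nat_lit 4) (nat_lit 6) (nat_lit 9) (C.cons (nat_lit 598) (C.miq (nat_lit 1497605664) (nat_lit 648003885555249468833334341)) (C.cons (nat_lit 596) (C.miq (nat_lit 1497605664) (nat_lit 648003885555249460243399749)) (C.cons (nat_lit 594) (C.node (nat_lit 2) (nat_lit 4) (nat_lit 6) (C.cons (nat_lit 116) (C.miq (nat_lit 2504762912) (nat_lit 2533979372315617528916018245)) C.nil)) C.nil)))) C.nil))))) C.nil))) C.nil)) C.nil))) (C.cons (nat_lit 1602) (C.miq (nat_lit 1265238929) (nat_lit 3791212972033422236850455051)) (C.cons (nat_lit 1600) (C.node (nat_lit 7) (nat_lit 8) (nat_lit 9) (C.cons (nat_lit 930) (C.miq (nat_lit 611388312) (nat_lit 1415656986847057289473560321)) (C.cons (nat_lit 928) (C.node (nat_lit 1) (nat_lit 7) (nat_lit 9) (C.cons (nat_lit 642) (C.node (nat_lit 4) (nat_lit 5) (nat_lit 7) (C.cons (nat_lit 180) (C.miq (nat_lit 2236323616) (nat_lit 2533979372117459420189622917)) (C.cons (nat_lit 176) (C.node (nat_lit 2) (nat_lit 4) (nat_lit 7) (C.cons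 (nat_lit 404) (C.node (nat_lit 3) (nat_lit 8) (nat_lit 9) (C.cons (nat_lit 780) (C.miq (nat_lit 394855459) (nat_lit 1121892808579135357168912413)) (C.cons (nat_lit 776) (C.node (nat_lit 4) (nat_lit 8) (nat_lit 9) (C.cons (nat_lit 784) (C.node (nat_lit 1) (nat_lit 8) (nat_lit 9) C.nil) C.nil)) C.nil))) (C.cons (nat_lit 148)
  (C.node (nat_lit 4) (nat_lit 7) (nat_lit 8) (C.cons (nat_lit 400) (C.node (nat_lit 5) (nat_lit 7) (nat_lit 10) C.nil) C.nil)) C.nil))) C.nil))) C.nil)) (C.cons (nat_lit 898) (C.miq (nat_lit 611388312) (nat_lit 1415656986847057289471463169)) (C.cons (nat_lit 896) (C.node (nat_lit 1) (nat_lit 7) (nat_lit 9) (C.cons (nat_lit 674) (C.node (nat_lit 5) (nat_lit 9) (nat_lit 11) (C.cons (nat_lit 2596) (C.miq (nat_lit 364149024) (nat_lit 2533930119239298348243288709)) (C.cons (nat_lit 2592) (C.node (nat_lit 1) (nat_lit 9) (nat_lit 11) C.nil) C.nil))) (C.cons (nat_lit 642) (C.node (nat_lit 5) (nat_lit 7) (nat_lit 9) (C.cons (nat_lit 672) (C.node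 (nat_lit 1) (nat_lit 6) (nat_lit 11) (C.cons (nat_lit 2370) (C.node (nat_lit 2) (nat_lit 6) (nat_lit 11) C.nil) (C.cons (nat_lit 2118) (C.node (nat_lit 6) (nat_lit 8) (nat_lit 11) C.nil) (C.cons (nat_lit 2114) (C.node (nat_lit 2) (nat_lit 6) (nat_lit 11) C.nil) C.nil)))) C.nil)) C.nil))) C.nil))))) C.nil))))) C.nil))))) C.nil))) C.nil))) C.nil))))) List.nil)

theorem ok12_258 : okL par12 (nat_lit 259) c12_258 (nat_lit 258) = true := by decide +kernel

noncomputable def c12_259 : List C :=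
  (List.cons (C.node (nat_lit 2) (nat_lit 3) (nat_lit 10) (C.cons (nat_lit 1292) (C.node (nat_lit 7) (nat_lit 8) (nat_lit 10) (C.cons (nat_lit 1440) (C.miq (nat_lit 729296986) (nat_lit 2940131427080754674809177129)) (C.cons (nat_lit 1408) (C.node (nat_lit 2) (nat_lit 3) (nat_lit 7) (C.cons (nat_lit 206) (C.miq (nat_lit 2468914960) (nat_lit 1562003013356715057948853395)) (C.cons (nat_lit 204) (C.miq (nat_lit 3123054647) (nat_lit 1321397851369220164421419401)) (C.cons (nat_lit 174) (C.miq (nat_lit 2468914960) (nat_lit 1562003013356714920509899923)) (C.cons (nat_lit 172) (C.miq (nat_lit 2189140816) (nat_lit 2635529141067545128040727593)) (C.cons (nat_lit 142) (C.miq (nat_lit 2468914960) (nat_lit 1562003013356714783070946451)) (C.cons (nat_lit 140) (C.node (nat_lit 2) (nat_lit 4) (nat_lit 10) (C.cons (nat_lit 1076) (C.node (nat_lit 2) (nat_lit 7) (nat_lit 10) (C.cons (nat_lit 1156) (C.node (nat_lit 4) (nat_lit 8) (nat_lit 10) (C.cons (nat_lit 1296) (C.node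 (nat_lit 5) (nat_lit 7) (nat_lit 10) (C.cons (nat_lit 1184) (C.node (nat_lit 2) (nat_lit 4) (nat_lit 7) (C.cons (nat_lit 404) (C.miq (nat_lit 1384359024) (nat_lit 1561951805027408204526060691)) C.nil)) C.nil)) C.nil)) C.nil)) (C.cons (nat_lit 1044) (C.node (nat_lit 2) (nat_lit 7) (nat_lit 10) (C.cons (nat_lit 1188) (C.node (nat_lit 1) (nat_lit 2) (nat_lit 7) (C.cons (nat_lit 134) (C.node (nat_lit 2) (nat_lit 4) (nat_lit 7) (C.cons (nat_lit 148) (C.node (nat_lit 2) (nat_lit 6) (nat_lit 7) C.nil) C.nil)) C.nil)) (C.cons (nat_lit 1156) (C.node (nat_lit 5) (nat_lit 7) (nat_lit 10) (C.cons (nat_lit 1184) (C.node (nat_lit 3) (nat_lit 5) (nat_lit 7) (C.cons (nat_lit 170) (C.node (nat_lit 3) (nat_lit 6) (nat_lit 7) C.nil) C.nil)) C.nil)) C.nil))) C.nil))) C.nil))))))) C.nil))) (C.cons (nat_lit 1038) (C.node (nat_lit 2) (nat_lit 9) (nat_lit 10) (C.cons (nat_lit 1572) (C.node (nat_lit 2) (nat_lit 10) (nat_lit 11) (C.cons (nat_lit 3076) (C.node (nat_lit 2) (nat_lit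 9) (nat_lit 11) C.nil) C.nil)) (C.cons (nat_lit 1540) (C.node (nat_lit 2) (nat_lit 10) (nat_lit 11) (C.cons (nat_lit 3108) (C.node (nat_lit 1) (nat_lit 10) (nat_lit 11) C.nil) (C.cons (nat_lit 3076) (C.node (nat_lit 3) (nat_lit 10) (nat_lit 11) C.nil) C.nil))) C.nil))) (C.cons (nat_lit 1036) (C.node (nat_lit 2) (nat_lit 6) (nat_lit 11) (C.cons (nat_lit 2372) (C.node (nat_lit 1) (nat_lit 8) (nat_lit 11) (C.cons (nat_lit 2346) (C.miq (nat_lit 2208478470) (nat_lit 1252490905458043533627033825)) C.nil)) (C.cons (nat_lit 2118) (C.node (nat_lit 1) (nat_lit 9) (nat_lit 11) C.nil) (C.cons (nat_lit 2116) (C.node (nat_lit 2) (nat_lit 8) (nat_lit 11) C.nil) C.nil)))) C.nil)))) List.nil)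

theorem ok12_259 : okL par12 (nat_lit 260) c12_259 (nat_lit 259) = true := by decide +kernel


end Pool.Agent.MP_1f1ca1_co
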