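import Pool.Agent.MP_1f1ca1_co.Cert.P12

set_option autoImplicit false
set_option maxRecDepth 1000000
set_option maxHeartbeats 0

namespace Pool.Agent.MP_1f1ca1_co

noncomputable def c12_260 : List C :=
  (List.cons (C.node (nat_lit 4) (nat_lit 9) (nat_lit 10) (C.cons (nat_lit 1624) (C.miq (nat_lit 1464011674) (nat_lit 183776371003666370989133569)) (C.cons (nat_lit 1616) (C.node (nat_lit 3) (nat_lit 4) (nat_lit 9) (C.cons (nat_lit 792) (C.node (nat_lit 3) (nat_lit 4) (nat_lit 10) (C.cons (nat_lit 1048) (C.node (nat_lit 3) (nat_lit 9) (nat_lit 10) (C.cons (nat_lit 1672) (C.miq (nat_lit 1748582522) (nat_lit 957499059168068176185918611)) (C.cons (nat_lit 1548) (C.miq (nat_lit 1647577752) (nat_lit 2510945144199996434189651713)) (C.cons (nat_lit 1544) (C.node (nat_lit 7) (nat_lit 9) (nat_lit 10) (C.cons (nat_lit 1696) (C.miq (nat_lit 1397203129) (nat_lit 183788010559152416976015105)) (C.cons (nat_lit 1664) (C.node (nat_lit 7) (nat_lit 8) (nat_lit 9) (C.cons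 (nat_lit 962) (C.miq (nat_lit 611388312) (nat_lit 1415656986847057289475657473)) (C.cons (nat_lit 960) (C.miq (nat_lit 1766553648) (nat_lit 3268977345957456209608769929)) (C.cons (nat_lit 930) (C.miq (nat_lit 611388312) (nat_lit 1415656986847057289473560321)) (C.cons (nat_lit 928) (C.miq (nat_lit 1498118192) (nat_lit 3268977345948449010354028937)) (C.cons (nat_lit 898) (C.miq (nat_lit 611388312) (nat_lit 1415656986847057289471463169)) (C.cons (nat_lit 896) (C.node (nat_lit 1) (nat_lit 4) (nat_lit 8) (C.cons (nat_lit 306) (C.node (nat_lit 3) (nat_lit 4) (nat_lit 5) (C.cons (nat_lit 120) (C.miq (nat_lit 1536385156) (nat_lit 3104523719019465684876263761)) (C.cons (nat_lit 56) (C.node (nat_lit 2) (nat_lit 8) (nat_lit 9) (C.cons (nat_lit 868) (C.miq (nat_lit 345508450) (nat_lit 957474100958091830431581253)) (C.cons (nat_lit 836) (C.miq (nat_lit 345508450) (nat_lit 957474100958091830429484101)) (C.cons (nat_lit 804) (C.miq (nat_lit 2035548801) (nat_lit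 678228986122672094047240455)) (C.cons (nat_lit 772) (C.node (nat_lit 5) (nat_lit 8) (nat_lit 9) (C.cons (nat_lit 864) (C.miq (nat_lit 1497065536) (nat_lit 3104563434462845044084506961)) (C.cons (nat_lit 800) (C.node (nat_lit 1) (nat_lit 3) (nat_lit 4) (C.cons (nat_lit 90) (C.node (nat_lit 1) (nat_lit 8) (nat_lit 9) (C.cons (nat_lit 834) (C.miq (nat_lit 3105032292) (nat_lit 632306518627041120664289617)) (C.cons (nat_lit 770) (C.node (nat_lit 6) (nat_lit 8) (nat_lit 9) (C.cons (nat_lit 832) (C.node (nat_lit 1) (nat_lit 2) (nat_lit 4) C.nil) C.nil)) C.nil))) (C.cons (nat_lit 26) (C.node (nat_lit 3) (nat_lit 4) (nat_lit 6) C.nil) C.nil))) C.nil))) C.nil))))) C.nil))) (C.cons (nat_lit 274) (C.node (nat_lit 1) (nat_lit 4) (nat_lit 9) (C.cons (nat_lit 534) (C.node (nat_lit 2) (nat_lit 9) (nat_lit 11) (C.cons (nat_lit 2596) (C.miq (nat_lit 620862324) (nat_lit 42322254978566184093551248)) (C.cons (nat_lit 2564) (C.node (nat_lit 1) (nat_lit 7) (nat_lit 9) (C.cons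 (nat_lit 706) (C.miq (nat_lit 1764454720) (nat_lit 3099727731139912372963837075)) (C.cons (nat_lit 674) (C.miq (nat_lit 1496019264) (nat_lit 3099727731130905173709096083)) (C.cons (nat_lit 642) (C.node (nat_lit 5) (nat_lit 7) (nat_lit 9) (C.cons (nat_lit 680) (C.miq (nat_lit 1687488567) (nat_lit 678249314347946977631142281)) (C.cons (nat_lit 672) (C.node (nat_lit 2) (nat_lit 4) (nat_lit 6) (C.cons (nat_lit 116) (C.node (nat_lit 2) (nat_lit 4) (nat_lit 7) (C.cons (nat_lit 404) (C.miq (nat_lit 691552519) (nat_lit 957476701769701968883287187)) C.nil)) C.nil)) C.nil))) C.nil)))) C.nil))) (C.cons (nat_lit 530) (C.node (nat_lit 2) (nat_lit 4) (nat_lit 9) (C.cons (nat_lit 532) (C.node (nat_lit 1) (nat_lit 2) (nat_lit 4) (C.cons (nat_lit 118) (C.miq (nat_lit 2484643360) (nat_lit 331316528973259581445047365)) (C.cons (nat_lit 22) (C.node (nat_lit 2) (nat_lit 4) (nat_lit 6) C.nil) C.nil))) C.nil)) C.nil))) C.nil))) C.nil))))))) C.nil))) C.nil)))) C.nil)) (C.cons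 (nat_lit 536) (C.node (nat_lit 3) (nat_lit 4) (nat_lit 10) (C.cons (nat_lit 1304) (C.node (nat_lit 7) (nat_lit 9) (nat_lit 10) (C.cons (nat_lit 1696) (C.miq (nat_lit 1397203129) (nat_lit 183788010559152416976015105)) (C.cons (nat_lit 1672) (C.miq (nat_lit 2517083267) (nat_lit 2747919231395008366271595800)) (C.cons (nat_lit 1664)
  (C.node (nat_lit 2) (nat_lit 4) (nat_lit 10) (C.cons (nat_lit 1076) (C.node (nat_lit 2) (nat_lit 4) (nat_lit 7) (C.cons (nat_lit 404) (C.miq (nat_lit 1383113859) (nat_lit 779776799736743128491164952)) (C.cons (nat_lit 148) (C.node (nat_lit 5) (nat_lit 7) (nat_lit 10) (C.cons (nat_lit 1440) (C.miq (nat_lit 1514895408) (nat_lit 3733204860824584000540311945)) (C.cons (nat_lit 1184) (C.node (nat_lit 2) (nat_lit 4) (nat_lit 6) (C.cons (nat_lit 86) (C.node (nat_lit 1) (nat_lit 3) (nat_lit 4) (C.cons (nat_lit 58) (C.miq (nat_lit 1613834836) (nat_lit 632269790386098121081488436)) (C.cons (nat_lit 26) (C.node (nat_lit 1) (nat_lit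 4) (nat_lit 5) (C.cons (nat_lit 306) (C.miq (nat_lit 2484643360) (nat_lit 370002155200927577596691525)) C.nil)) C.nil))) (C.cons (nat_lit 84) (C.node (nat_lit 1) (nat_lit 2) (nat_lit 4) (C.cons (nat_lit 534) (C.node (nat_lit 2) (nat_lit 4) (nat_lit 8) C.nil) C.nil)) C.nil))) C.nil))) C.nil))) (C.cons (nat_lit 1044) (C.node (nat_lit 4) (nat_lit 5) (nat_lit 10) (C.cons (nat_lit 1072) (C.node (nat_lit 3) (nat_lit 9) (nat_lit 10) (C.cons (nat_lit 1548) (C.node (nat_lit 1) (nat_lit 9) (nat_lit 10) (C.cons (nat_lit 1570) (C.node (nat_lit 1) (nat_lit 8) (nat_lit 10) (C.cons (nat_lit 1346) (C.miq (nat_lit 1367382628) (nat_lit 317957839623994318489978448)) (C.cons (nat_lit 1282) (C.node (nat_lit 1) (nat_lit 9) (nat_lit 11) (C.cons (nat_lit 2566) (C.miq (nat_lit 353081906) (nat_lit 2747935722771265540528604684)) (C.cons (nat_lit 2562) (C.node (nat_lit 5) (nat_lit 6) (nat_lit 10) (C.cons (nat_lit 1376) (C.miq (nat_lit 1749768752) (nat_lit 2804749831342534395856487465))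 (C.cons (nat_lit 1120) (C.node (nat_lit 5) (nat_lit 10) (nat_lit 11) (C.cons (nat_lit 3108) (C.miq (nat_lit 1359718706) (nat_lit 2479564188952103486448535052)) (C.cons (nat_lit 3104) (C.node (nat_lit 1) (nat_lit 2) (nat_lit 10) (C.cons (nat_lit 1030) (C.node (nat_lit 2) (nat_lit 10) (nat_lit 11) C.nil) C.nil)) C.nil))) C.nil))) C.nil))) C.nil))) (C.cons (nat_lit 1538) (C.node (nat_lit 5) (nat_lit 9) (nat_lit 10) (C.cons (nat_lit 1568) (C.node (nat_lit 3) (nat_lit 7) (nat_lit 10) (C.cons (nat_lit 1224) (C.node (nat_lit 3) (nat_lit 7) (nat_lit 9) (C.cons (nat_lit 680) (C.miq (nat_lit 1403418912) (nat_lit 1479767132848995284495434373)) (C.cons (nat_lit 648) (C.node (nat_lit 3) (nat_lit 6) (nat_lit 9) (C.cons (nat_lit 872) (C.miq (nat_lit 1178052992) (nat_lit 1479746804800483731326963457)) (C.cons (nat_lit 840) (C.miq (nat_lit 1178052992) (nat_lit 1479746804800483593888009985)) (C.cons (nat_lit 616) (C.miq (nat_lit 2744415824) (nat_lit 648005840795279568757917921))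 (C.cons (nat_lit 584) (C.node (nat_lit 1) (nat_lit 4) (nat_lit 9) C.nil) C.nil))))) C.nil))) (C.cons (nat_lit 1160) (C.node (nat_lit 6) (nat_lit 7) (nat_lit 10) (C.cons (nat_lit 1472) (C.miq (nat_lit 1783330864) (nat_lit 3733204860833591199795052937)) (C.cons (nat_lit 1216) (C.node (nat_lit 1) (nat_lit 4) (nat_lit 8) (C.cons (nat_lit 786) (C.miq (nat_lit 430081120) (nat_lit 1871422020478383620490592593)) (C.cons (nat_lit 306) (C.node (nat_lit 3) (nat_lit 4) (nat_lit 5) (C.cons (nat_lit 120) (C.miq (nat_lit 2221646672) (nat_lit 2572664998450961887338234921)) C.nil)) (C.cons (nat_lit 274) (C.node (nat_lit 1) (nat_lit 4) (nat_lit 9) (C.cons (nat_lit 530) (C.node (nat_lit 2) (nat_lit 4) (nat_lit 9) C.nil) C.nil)) C.nil)))) C.nil))) C.nil))) C.nil)) C.nil))) (C.cons (nat_lit 1544) (C.node (nat_lit 6) (nat_lit 7) (nat_lit 10) (C.cons (nat_lit 1472) (C.miq (nat_lit 1783330864) (nat_lit 3733204860833591199795052937)) (C.cons (nat_lit 1224) (C.node (nat_lit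 2) (nat_lit 3) (nat_lit 10) (C.cons (nat_lit 1038) (C.node (nat_lit 3) (nat_lit 10) (nat_lit 11) (C.cons (nat_lit 3080) (C.node (nat_lit 1) (nat_lit 3) (nat_lit 7) (C.cons (nat_lit 170) (C.miq (nat_lit 542221939) (nat_lit 42331551714522443645846728)) (C.cons (nat_lit 138) (C.node (nat_lit 1) (nat_lit 9) (nat_lit 10) (C.cons (nat_lit 1570) (C.miq (nat_lit 1512345904) (nat_lit 1262128904743018381199606283)) (C.cons (nat_lit 1538)
  (C.node (nat_lit 1) (nat_lit 4) (nat_lit 9) (C.cons (nat_lit 786) (C.miq (nat_lit 563742790) (nat_lit 1859348072932603530063118673)) (C.cons (nat_lit 534) (C.miq (nat_lit 1494877219) (nat_lit 1859347556507647926885812253)) (C.cons (nat_lit 530) (C.node (nat_lit 1) (nat_lit 4) (nat_lit 8) (C.cons (nat_lit 274) (C.node (nat_lit 2) (nat_lit 4) (nat_lit 9) C.nil) C.nil)) C.nil)))) C.nil))) C.nil))) C.nil)) (C.cons (nat_lit 1036) (C.node (nat_lit 1) (nat_lit 3) (nat_lit 10) (C.cons (nat_lit 3082) (C.node (nat_lit 6) (nat_lit 10)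 (nat_lit 11) (C.cons (nat_lit 3136) (C.node (nat_lit 2) (nat_lit 10) (nat_lit 11) (C.cons (nat_lit 3076) (C.node (nat_lit 5) (nat_lit 10) (nat_lit 11) C.nil) C.nil)) C.nil)) (C.cons (nat_lit 1034) (C.node (nat_lit 3) (nat_lit 10) (nat_lit 11) (C.cons (nat_lit 3080) (C.node (nat_lit 3) (nat_lit 7) (nat_lit 9) (C.cons (nat_lit 680) (C.node (nat_lit 1) (nat_lit 3) (nat_lit 4) (C.cons (nat_lit 122) (C.miq (nat_lit 2221646672) (nat_lit 2572664998450961895928169513)) C.nil)) (C.cons (nat_lit 648) (C.node (nat_lit 1) (nat_lit 3) (nat_lit 4) (C.cons (nat_lit 122) (C.miq (nat_lit 2221646672) (nat_lit 2572664998450961895928169513)) C.nil)) C.nil))) C.nil)) C.nil))) C.nil))) (C.cons (nat_lit 1216) (C.node (nat_lit 3) (nat_lit 7) (nat_lit 10) (C.cons (nat_lit 1164) (C.node (nat_lit 5) (nat_lit 7) (nat_lit 10) (C.cons (nat_lit 1440) (C.miq (nat_lit 1514895408) (nat_lit 3733204860824584000540311945)) (C.cons (nat_lit 1184) (C.node (nat_lit 7) (nat_lit 8) (nat_lit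 10) (C.cons (nat_lit 1408) (C.node (nat_lit 2) (nat_lit 8) (nat_lit 10) (C.cons (nat_lit 1316) (C.node (nat_lit 1) (nat_lit 8) (nat_lit 10) (C.cons (nat_lit 1346) (C.node (nat_lit 5) (nat_lit 6) (nat_lit 10) C.nil) C.nil)) (C.cons (nat_lit 1284) (C.node (nat_lit 1) (nat_lit 4) (nat_lit 8) (C.cons (nat_lit 274) (C.node (nat_lit 1) (nat_lit 8) (nat_lit 10) (C.cons (nat_lit 1378) (C.miq (nat_lit 1749768752) (nat_lit 2804749831343097345809908777)) C.nil)) C.nil)) C.nil))) C.nil)) C.nil))) (C.cons (nat_lit 1160) (C.node (nat_lit 2) (nat_lit 3) (nat_lit 10) (C.cons (nat_lit 1038) (C.node (nat_lit 1) (nat_lit 9) (nat_lit 10) (C.cons (nat_lit 1570) (C.miq (nat_lit 1512345904) (nat_lit 1262128904743018381199606283)) (C.cons (nat_lit 1538) (C.node (nat_lit 1) (nat_lit 4) (nat_lit 9) (C.cons (nat_lit 786) (C.miq (nat_lit 563742790) (nat_lit 1859348072932603530063118673)) (C.cons (nat_lit 534) (C.miq (nat_lit 1494877219) (nat_lit 1859347556507647926885812253))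 (C.cons (nat_lit 530) (C.node (nat_lit 1) (nat_lit 4) (nat_lit 8) (C.cons (nat_lit 274) (C.node (nat_lit 2) (nat_lit 4) (nat_lit 9) C.nil) C.nil)) C.nil)))) C.nil))) (C.cons (nat_lit 1036) (C.node (nat_lit 3) (nat_lit 4) (nat_lit 5) (C.cons (nat_lit 122) (C.miq (nat_lit 2221646672) (nat_lit 2572664998450961895928169513)) (C.cons (nat_lit 120) (C.miq (nat_lit 2221646672) (nat_lit 2572664998450961887338234921)) (C.cons (nat_lit 58) (C.node (nat_lit 3) (nat_lit 4) (nat_lit 6) C.nil) (C.cons (nat_lit 56) (C.node (nat_lit 1) (nat_lit 3) (nat_lit 4) (C.cons (nat_lit 26) (C.node (nat_lit 3) (nat_lit 4) (nat_lit 6) C.nil) C.nil)) C.nil))))) C.nil))) C.nil))) C.nil)))) C.nil))) C.nil)) C.nil))) C.nil)))) (C.cons (nat_lit 1048) (C.node (nat_lit 7) (nat_lit 9) (nat_lit 10) (C.cons (nat_lit 1696) (C.miq (nat_lit 1397203129) (nat_lit 183788010559152416976015105)) (C.cons (nat_lit 1672) (C.node (nat_lit 3) (nat_lit 6) (nat_lit 9) (C.cons (nat_lit 876) (C.miq (nat_lit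 1685291177) (nat_lit 183772884024094300790329089)) (C.cons (nat_lit 872) (C.miq (nat_lit 1685291177) (nat_lit 183772810237118005952122625)) (C.cons (nat_lit 844) (C.miq (nat_lit 1685291177) (nat_lit 183772293728283942084677377)) (C.cons (nat_lit 840) (C.miq (nat_lit 1685291177) (nat_lit 183772219941307647246470913)) (C.cons (nat_lit 620) (C.miq (nat_lit 2207647652) (nat_lit 749540224824449775575237779)) (C.cons (nat_lit 616) (C.miq (nat_lit 2207647652) (nat_lit 744704521545991258876413075)) (C.cons (nat_lit 588)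
  (C.miq (nat_lit 2207647652) (nat_lit 710854598596781641984640147)) (C.cons (nat_lit 584) (C.miq (nat_lit 2207647652) (nat_lit 706018895318323125285815443)) C.nil))))))))) (C.cons (nat_lit 1664) (C.node (nat_lit 3) (nat_lit 9) (nat_lit 10) (C.cons (nat_lit 1548) (C.node (nat_lit 1) (nat_lit 9) (nat_lit 10) (C.cons (nat_lit 1570) (C.node (nat_lit 1) (nat_lit 9) (nat_lit 11) (C.cons (nat_lit 2566) (C.miq (nat_lit 353081906) (nat_lit 2747935722771265540528604684)) (C.cons (nat_lit 2562) (C.node (nat_lit 5) (nat_lit 10) (nat_lit 11) (C.cons (nat_lit 3108) (C.miq (nat_lit 1359718706) (nat_lit 2479564188952103486448535052)) (C.cons (nat_lit 3104) (C.node (nat_lit 1) (nat_lit 4) (nat_lit 9) (C.cons (nat_lit 786) (C.miq (nat_lit 430081120) (nat_lit 1871422020478383620490592593)) (C.cons (nat_lit 534) (C.miq (nat_lit 1495507264) (nat_lit 1871436814987802470202016915)) (C.cons (nat_lit 530) (C.node (nat_lit 3) (nat_lit 10) (nat_lit 11) (C.cons (nat_lit 3146)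 (C.miq (nat_lit 1788326688) (nat_lit 2011694494173549413905270813)) (C.cons (nat_lit 3144) (C.miq (nat_lit 1788326688) (nat_lit 2011694494172986463951849501)) (C.cons (nat_lit 3082) (C.miq (nat_lit 2444515888) (nat_lit 2497651092389178176662471721)) (C.cons (nat_lit 3080) (C.node (nat_lit 1) (nat_lit 2) (nat_lit 9) (C.cons (nat_lit 582) (C.node (nat_lit 1) (nat_lit 7) (nat_lit 9) (C.cons (nat_lit 898) (C.miq (nat_lit 611388312) (nat_lit 1415656986847057289471463169)) (C.cons (nat_lit 642) (C.node (nat_lit 1) (nat_lit 8) (nat_lit 9) (C.cons (nat_lit 770) (C.node (nat_lit 2) (nat_lit 4) (nat_lit 9) C.nil) C.nil)) C.nil))) (C.cons (nat_lit 518) (C.node (nat_lit 1) (nat_lit 2) (nat_lit 10) (C.cons (nat_lit 3078) (C.node (nat_lit 6) (nat_lit 10) (nat_lit 11) C.nil) (C.cons (nat_lit 1030) (C.node (nat_lit 2) (nat_lit 10) (nat_lit 11) (C.cons (nat_lit 3076) (C.node (nat_lit 1) (nat_lit 10) (nat_lit 11) C.nil) C.nil)) C.nil))) C.nil))) C.nil))))) C.nil))))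 C.nil))) C.nil))) (C.cons (nat_lit 1538) (C.node (nat_lit 5) (nat_lit 9) (nat_lit 10) (C.cons (nat_lit 1568) (C.node (nat_lit 3) (nat_lit 7) (nat_lit 10) (C.cons (nat_lit 1224) (C.node (nat_lit 3) (nat_lit 7) (nat_lit 9) (C.cons (nat_lit 680) (C.miq (nat_lit 1403418912) (nat_lit 1479767132848995284495434373)) (C.cons (nat_lit 648) (C.node (nat_lit 3) (nat_lit 6) (nat_lit 9) (C.cons (nat_lit 872) (C.miq (nat_lit 1178052992) (nat_lit 1479746804800483731326963457)) (C.cons (nat_lit 840) (C.miq (nat_lit 1178052992) (nat_lit 1479746804800483593888009985)) (C.cons (nat_lit 616) (C.miq (nat_lit 2744415824) (nat_lit 648005840795279568757917921)) (C.cons (nat_lit 584) (C.node (nat_lit 3) (nat_lit 5) (nat_lit 9) (C.cons (nat_lit 808) (C.node (nat_lit 2) (nat_lit 3) (nat_lit 8) (C.cons (nat_lit 332) (C.miq (nat_lit 308938807) (nat_lit 1321377522050129346723053961)) (C.cons (nat_lit 268) (C.node (nat_lit 3) (nat_lit 5) (nat_lit 7) (C.cons (nat_lit 174) (C.miq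 (nat_lit 3124037927) (nat_lit 1287547928420011647039308421)) (C.cons (nat_lit 172) (C.miq (nat_lit 3124037927) (nat_lit 1287547928420011647039177349)) (C.cons (nat_lit 170) (C.miq (nat_lit 446001283) (nat_lit 1895598821431854771313574281)) (C.cons (nat_lit 168) (C.node (nat_lit 1) (nat_lit 3) (nat_lit 7) (C.cons (nat_lit 138) (C.node (nat_lit 2) (nat_lit 3) (nat_lit 7) C.nil) C.nil)) C.nil))))) C.nil))) (C.cons (nat_lit 552) (C.node (nat_lit 3) (nat_lit 8) (nat_lit 9) (C.cons (nat_lit 776) (C.node (nat_lit 3) (nat_lit 8) (nat_lit 10) C.nil) C.nil)) C.nil))) C.nil))))) C.nil))) (C.cons (nat_lit 1160) (C.node (nat_lit 6) (nat_lit 7) (nat_lit 10) (C.cons (nat_lit 1472) (C.node (nat_lit 2) (nat_lit 7) (nat_lit 10) (C.cons (nat_lit 1188) (C.node (nat_lit 2) (nat_lit 4) (nat_lit 10) (C.cons (nat_lit 1300) (C.miq (nat_lit 2018208288) (nat_lit 2804749831369555976440841285)) (C.cons (nat_lit 1044) (C.node (nat_lit 2) (nat_lit 8) (nat_lit 10) (C.cons (nat_lit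 1284) (C.node (nat_lit 4) (nat_lit 5) (nat_lit 7) (C.cons (nat_lit 432) (C.miq (nat_lit 624994182) (nat_lit 678227547429473659330299328))
  (C.cons (nat_lit 176) (C.node (nat_lit 4) (nat_lit 5) (nat_lit 10) (C.cons (nat_lit 1328) (C.node (nat_lit 1) (nat_lit 2) (nat_lit 10) (C.cons (nat_lit 3078) (C.node (nat_lit 5) (nat_lit 10) (nat_lit 11) C.nil) C.nil)) C.nil)) C.nil))) C.nil)) C.nil))) (C.cons (nat_lit 1156) (C.node (nat_lit 5) (nat_lit 7) (nat_lit 10) (C.cons (nat_lit 1184) (C.node (nat_lit 3) (nat_lit 8) (nat_lit 10) (C.cons (nat_lit 1290) (C.node (nat_lit 3) (nat_lit 6) (nat_lit 10) (C.cons (nat_lit 3144) (C.miq (nat_lit 1788326688) (nat_lit 2011694494172986463951849501)) (C.cons (nat_lit 1096) (C.node (nat_lit 3) (nat_lit 10) (nat_lit 11) C.nil) C.nil))) (C.cons (nat_lit 1288) (C.node (nat_lit 1) (nat_lit 8) (nat_lit 10) (C.cons (nat_lit 1314) (C.node (nat_lit 5) (nat_lit 6) (nat_lit 10) C.nil) (C.cons (nat_lit 1282) (C.node (nat_lit 5) (nat_lit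 6) (nat_lit 10) (C.cons (nat_lit 1120) (C.node (nat_lit 1) (nat_lit 3) (nat_lit 10) (C.cons (nat_lit 3146) (C.miq (nat_lit 1788326688) (nat_lit 2011694494173549413905270813)) C.nil)) C.nil)) C.nil))) C.nil))) C.nil)) C.nil))) (C.cons (nat_lit 1216) (C.node (nat_lit 1) (nat_lit 4) (nat_lit 9) (C.cons (nat_lit 786) (C.miq (nat_lit 430081120) (nat_lit 1871422020478383620490592593)) (C.cons (nat_lit 534) (C.node (nat_lit 4) (nat_lit 8) (nat_lit 9) (C.cons (nat_lit 784) (C.node (nat_lit 2) (nat_lit 9) (nat_lit 11) (C.cons (nat_lit 2596) (C.miq (nat_lit 620862324) (nat_lit 42322254978566184093551248)) (C.cons (nat_lit 2564) (C.node (nat_lit 1) (nat_lit 7) (nat_lit 9) (C.cons (nat_lit 962) (C.miq (nat_lit 611388312) (nat_lit 1415656986847057289475657473)) (C.cons (nat_lit 930) (C.miq (nat_lit 611388312) (nat_lit 1415656986847057289473560321)) (C.cons (nat_lit 898) (C.miq (nat_lit 611388312) (nat_lit 1415656986847057289471463169)) (C.cons (nat_lit 706) (C.miq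 (nat_lit 1764454720) (nat_lit 3099727731139912372963837075)) (C.cons (nat_lit 674) (C.miq (nat_lit 1496019264) (nat_lit 3099727731130905173709096083)) C.nil)))))) C.nil))) C.nil)) (C.cons (nat_lit 530) (C.node (nat_lit 2) (nat_lit 4) (nat_lit 9) (C.cons (nat_lit 788) (C.node (nat_lit 2) (nat_lit 4) (nat_lit 7) (C.cons (nat_lit 180) (C.miq (nat_lit 2220593776) (nat_lit 2533979372078052923462976133)) (C.cons (nat_lit 148) (C.node (nat_lit 2) (nat_lit 4) (nat_lit 10) (C.cons (nat_lit 1044) (C.node (nat_lit 4) (nat_lit 5) (nat_lit 7) C.nil) C.nil)) C.nil))) (C.cons (nat_lit 532) (C.node (nat_lit 4) (nat_lit 8) (nat_lit 9) C.nil) C.nil))) C.nil)))) C.nil))) C.nil))) C.nil)) C.nil))) (C.cons (nat_lit 1544) (C.node (nat_lit 1) (nat_lit 4) (nat_lit 9) (C.cons (nat_lit 786) (C.node (nat_lit 2) (nat_lit 4) (nat_lit 9) (C.cons (nat_lit 532) (C.node (nat_lit 2) (nat_lit 6) (nat_lit 11) (C.cons (nat_lit 2372) (C.miq (nat_lit 2552643850) (nat_lit 2867601854285563978381067411))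 (C.cons (nat_lit 2118) (C.miq (nat_lit 1093048330) (nat_lit 2560534696103448168005701377)) (C.cons (nat_lit 2116) (C.node (nat_lit 3) (nat_lit 4) (nat_lit 8) (C.cons (nat_lit 312) (C.node (nat_lit 1) (nat_lit 3) (nat_lit 4) (C.cons (nat_lit 90) (C.miq (nat_lit 641796760) (nat_lit 108808175566667101599043329)) C.nil)) (C.cons (nat_lit 280) (C.node (nat_lit 1) (nat_lit 2) (nat_lit 4) (C.cons (nat_lit 118) (C.node (nat_lit 1) (nat_lit 3) (nat_lit 4) (C.cons (nat_lit 26) (C.node (nat_lit 3) (nat_lit 4) (nat_lit 5) C.nil) C.nil)) (C.cons (nat_lit 22) (C.miq (nat_lit 1678944640) (nat_lit 26616530777661344609406721)) C.nil))) C.nil))) C.nil)))) C.nil)) (C.cons (nat_lit 534) (C.node (nat_lit 4) (nat_lit 8) (nat_lit 9) (C.cons (nat_lit 784) (C.node (nat_lit 2) (nat_lit 9) (nat_lit 11) (C.cons (nat_lit 2596) (C.miq (nat_lit 620862324) (nat_lit 42322254978566184093551248)) (C.cons (nat_lit 2564) (C.node (nat_lit 1) (nat_lit 7) (nat_lit 9) (C.cons (nat_lit 962)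 (C.miq (nat_lit 611388312) (nat_lit 1415656986847057289475657473)) (C.cons (nat_lit 930) (C.miq (nat_lit 611388312) (nat_lit 1415656986847057289473560321)) (C.cons (nat_lit 898) (C.miq (nat_lit 611388312) (nat_lit 1415656986847057289471463169))
  (C.cons (nat_lit 706) (C.miq (nat_lit 1764454720) (nat_lit 3099727731139912372963837075)) (C.cons (nat_lit 674) (C.miq (nat_lit 1496019264) (nat_lit 3099727731130905173709096083)) (C.cons (nat_lit 642) (C.node (nat_lit 1) (nat_lit 9) (nat_lit 10) (C.cons (nat_lit 1570) (C.node (nat_lit 1) (nat_lit 9) (nat_lit 11) C.nil) (C.cons (nat_lit 1538) (C.node (nat_lit 2) (nat_lit 4) (nat_lit 6) C.nil) C.nil))) C.nil))))))) C.nil))) C.nil)) (C.cons (nat_lit 530) (C.node (nat_lit 2) (nat_lit 4) (nat_lit 9) (C.cons (nat_lit 788) (C.node (nat_lit 2) (nat_lit 4) (nat_lit 7) (C.cons (nat_lit 180) (C.miq (nat_lit 2220593776) (nat_lit 2533979372078052923462976133)) (C.cons (nat_lit 148) (C.node (nat_lit 2) (nat_lit 4) (nat_lit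 10) (C.cons (nat_lit 1044) (C.node (nat_lit 4) (nat_lit 5) (nat_lit 7) C.nil) C.nil)) C.nil))) (C.cons (nat_lit 532) (C.node (nat_lit 4) (nat_lit 8) (nat_lit 9) (C.cons (nat_lit 784) (C.node (nat_lit 2) (nat_lit 4) (nat_lit 6) (C.cons (nat_lit 118) (C.miq (nat_lit 2302741090) (nat_lit 640735536970597174426862661)) (C.cons (nat_lit 116) (C.node (nat_lit 1) (nat_lit 2) (nat_lit 4) C.nil) (C.cons (nat_lit 86) (C.miq (nat_lit 2302741090) (nat_lit 640735536970597174424765509)) C.nil)))) C.nil)) C.nil))) C.nil)))) C.nil))) C.nil)))) C.nil))) C.nil))) (C.cons (nat_lit 1560) (C.miq (nat_lit 1464011674) (nat_lit 183776371003666370984939265)) (C.cons (nat_lit 1556) (C.miq (nat_lit 645177529) (nat_lit 251485273921283472583823105)) (C.cons (nat_lit 1552) (C.node (nat_lit 7) (nat_lit 9) (nat_lit 10) (C.cons (nat_lit 1736) (C.miq (nat_lit 611715994) (nat_lit 251476733355750573212176129)) (C.cons (nat_lit 1728) (C.miq (nat_lit 611715994) (nat_lit 251476733355750573211651841))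 (C.cons (nat_lit 1696) (C.miq (nat_lit 1397203129) (nat_lit 183788010559152416976015105)) (C.cons (nat_lit 1672) (C.node (nat_lit 6) (nat_lit 7) (nat_lit 10) (C.cons (nat_lit 1472) (C.node (nat_lit 3) (nat_lit 6) (nat_lit 7) (C.cons (nat_lit 206) (C.miq (nat_lit 3126986867) (nat_lit 1321394235807382490443547017)) (C.cons (nat_lit 204) (C.miq (nat_lit 3126986867) (nat_lit 1321394235807382490443415945)) (C.cons (nat_lit 202) (C.miq (nat_lit 277232039) (nat_lit 407411727599660831090935432)) (C.cons (nat_lit 200) (C.node (nat_lit 3) (nat_lit 8) (nat_lit 10) (C.cons (nat_lit 1304) (C.miq (nat_lit 1783330864) (nat_lit 3733204860833591199795052937)) (C.cons (nat_lit 1292) (C.miq (nat_lit 3064072067) (nat_lit 1321394235366029727032410505)) (C.cons (nat_lit 1290) (C.miq (nat_lit 665323825) (nat_lit 1779543658147984072027800075)) (C.cons (nat_lit 1288) (C.node (nat_lit 1) (nat_lit 8) (nat_lit 10) (C.cons (nat_lit 1314) (C.node (nat_lit 2) (nat_lit 8) (nat_lit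 10) (C.cons (nat_lit 1300) (C.miq (nat_lit 2018208288) (nat_lit 2804749831369555976440841285)) (C.cons (nat_lit 1284) (C.node (nat_lit 4) (nat_lit 8) (nat_lit 10) (C.cons (nat_lit 1296) (C.node (nat_lit 1) (nat_lit 9) (nat_lit 10) (C.cons (nat_lit 1602) (C.miq (nat_lit 376674944) (nat_lit 241794812021005619944820481)) (C.cons (nat_lit 1542) (C.miq (nat_lit 974682400) (nat_lit 1588535777014676487334724229)) (C.cons (nat_lit 1538) (C.node (nat_lit 5) (nat_lit 8) (nat_lit 11) (C.cons (nat_lit 2344) (C.miq (nat_lit 414491952) (nat_lit 2804729503013118186140533801)) (C.cons (nat_lit 2340) (C.miq (nat_lit 2763329576) (nat_lit 2533932757263591723063574791)) (C.cons (nat_lit 2336) (C.node (nat_lit 2) (nat_lit 3) (nat_lit 8) (C.cons (nat_lit 876) (C.miq (nat_lit 1194723992) (nat_lit 241791380805293054031040257)) (C.cons (nat_lit 844) (C.miq (nat_lit 1194723992) (nat_lit 241791380805293054028943105)) (C.cons (nat_lit 812) (C.miq (nat_lit 439879570) (nat_lit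 1557101307486948141600342661)) (C.cons (nat_lit 780) (C.miq (nat_lit 439879570) (nat_lit 1557101307486948141598245509)) (C.cons (nat_lit 364) (C.miq (nat_lit 1247938435) (nat_lit 1321394235055844302636450185)) (C.cons (nat_lit 332) (C.miq (nat_lit 1247938435) (nat_lit 1321394235055844302634353033)) (C.cons (nat_lit 300)
  (C.miq (nat_lit 1099041363) (nat_lit 317985804775701409021297705)) (C.cons (nat_lit 268) (C.node (nat_lit 2) (nat_lit 3) (nat_lit 10) (C.cons (nat_lit 1038) (C.node (nat_lit 2) (nat_lit 4) (nat_lit 10) (C.cons (nat_lit 1076) (C.miq (nat_lit 1511604784) (nat_lit 1859338259493596554907551773)) (C.cons (nat_lit 1044) (C.node (nat_lit 3) (nat_lit 4) (nat_lit 10) (C.cons (nat_lit 1112) (C.miq (nat_lit 1779974944) (nat_lit 1588534743839380207978350621)) (C.cons (nat_lit 1048) (C.node (nat_lit 4) (nat_lit 5) (nat_lit 10) (C.cons (nat_lit 1136) (C.node (nat_lit 6) (nat_lit 9) (nat_lit 10) (C.cons (nat_lit 1600) (C.node (nat_lit 1) (nat_lit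 4) (nat_lit 5) C.nil) C.nil)) C.nil)) C.nil))) C.nil))) (C.cons (nat_lit 1036) (C.node (nat_lit 1) (nat_lit 2) (nat_lit 10) (C.cons (nat_lit 3078) (C.node (nat_lit 5) (nat_lit 10) (nat_lit 11) (C.cons (nat_lit 3104) (C.node (nat_lit 1) (nat_lit 3) (nat_lit 10) (C.cons (nat_lit 1098) (C.node (nat_lit 3) (nat_lit 4) (nat_lit 10) C.nil) C.nil)) C.nil)) (C.cons (nat_lit 1030) (C.node (nat_lit 2) (nat_lit 4) (nat_lit 10) (C.cons (nat_lit 1076) (C.node (nat_lit 2) (nat_lit 7) (nat_lit 10) (C.cons (nat_lit 1156) (C.node (nat_lit 2) (nat_lit 9) (nat_lit 10) C.nil) C.nil)) (C.cons (nat_lit 1044) (C.node (nat_lit 2) (nat_lit 6) (nat_lit 7) (C.cons (nat_lit 198) (C.node (nat_lit 6) (nat_lit 7) (nat_lit 9) (C.cons (nat_lit 704) (C.node (nat_lit 1) (nat_lit 2) (nat_lit 3) (C.cons (nat_lit 46) (C.miq (nat_lit 3088190035) (nat_lit 317985805527239596822103081)) (C.cons (nat_lit 14) (C.node (nat_lit 1) (nat_lit 3) (nat_lit 7) (C.cons (nat_lit 170) (C.miq (nat_lit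 2719155829) (nat_lit 16944607564696309077772513)) (C.cons (nat_lit 138) (C.node (nat_lit 3) (nat_lit 4) (nat_lit 10) (C.cons (nat_lit 1048) (C.node (nat_lit 2) (nat_lit 3) (nat_lit 7) C.nil) C.nil)) C.nil))) C.nil))) C.nil)) (C.cons (nat_lit 196) (C.node (nat_lit 1) (nat_lit 6) (nat_lit 7) (C.cons (nat_lit 706) (C.node (nat_lit 1) (nat_lit 7) (nat_lit 8) (C.cons (nat_lit 2434) (C.node (nat_lit 2) (nat_lit 10) (nat_lit 11) C.nil) (C.cons (nat_lit 386) (C.node (nat_lit 1) (nat_lit 7) (nat_lit 11) (C.cons (nat_lit 2182) (C.node (nat_lit 7) (nat_lit 8) (nat_lit 11) C.nil) (C.cons (nat_lit 2178) (C.node (nat_lit 2) (nat_lit 7) (nat_lit 10) (C.cons (nat_lit 1156) (C.node (nat_lit 5) (nat_lit 7) (nat_lit 10) C.nil) C.nil)) C.nil))) C.nil))) (C.cons (nat_lit 194) (C.node (nat_lit 6) (nat_lit 7) (nat_lit 9) (C.cons (nat_lit 704) (C.node (nat_lit 2) (nat_lit 7) (nat_lit 10) (C.cons (nat_lit 1188) (C.node (nat_lit 2) (nat_lit 9) (nat_lit 10) C.nil) (C.cons (nat_lit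 1156) (C.node (nat_lit 5) (nat_lit 7) (nat_lit 10) (C.cons (nat_lit 1184) (C.node (nat_lit 2) (nat_lit 9) (nat_lit 10) C.nil) C.nil)) C.nil))) C.nil)) C.nil))) C.nil))) C.nil))) C.nil))) C.nil))) C.nil))))))))) C.nil)))) C.nil)))) C.nil)) C.nil))) (C.cons (nat_lit 1282) (C.node (nat_lit 2) (nat_lit 3) (nat_lit 10) (C.cons (nat_lit 1038) (C.node (nat_lit 3) (nat_lit 4) (nat_lit 10) (C.cons (nat_lit 1112) (C.miq (nat_lit 1779974944) (nat_lit 1549849117611712074387752989)) (C.cons (nat_lit 1048) (C.node (nat_lit 1) (nat_lit 3) (nat_lit 7) (C.cons (nat_lit 170) (C.node (nat_lit 2) (nat_lit 3) (nat_lit 7) (C.cons (nat_lit 140) (C.node (nat_lit 2) (nat_lit 6) (nat_lit 7) (C.cons (nat_lit 198) (C.node (nat_lit 6) (nat_lit 7) (nat_lit 9) (C.cons (nat_lit 704) (C.node (nat_lit 1) (nat_lit 7) (nat_lit 9) (C.cons (nat_lit 898) (C.miq (nat_lit 1192409472) (nat_lit 239405626932249865254014721)) (C.cons (nat_lit 642) (C.node (nat_lit 1) (nat_lit 7) (nat_lit 8)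 (C.cons (nat_lit 2434) (C.miq (nat_lit 2168108880) (nat_lit 1254935855389083025260742881)) (C.cons (nat_lit 386) (C.node (nat_lit 1) (nat_lit 7) (nat_lit 11) (C.cons (nat_lit 2178) (C.node (nat_lit 2) (nat_lit 7) (nat_lit 10) (C.cons (nat_lit 1188) (C.miq (nat_lit 811705714) (nat_lit 81017177934309277890380964)) C.nil)) C.nil)) C.nil))) C.nil))) C.nil)) (C.cons (nat_lit 196) (C.miq (nat_lit 392312074) (nat_lit 236968608412676337330095145)) C.nil))) C.nil))
  (C.cons (nat_lit 138) (C.node (nat_lit 2) (nat_lit 6) (nat_lit 7) (C.cons (nat_lit 198) (C.miq (nat_lit 1394018854) (nat_lit 166873692855873676306154565)) (C.cons (nat_lit 196) (C.node (nat_lit 1) (nat_lit 6) (nat_lit 7) (C.cons (nat_lit 706) (C.node (nat_lit 2) (nat_lit 3) (nat_lit 6) (C.cons (nat_lit 876) (C.miq (nat_lit 1931585920) (nat_lit 1254886602367925320698760961)) (C.cons (nat_lit 844) (C.miq (nat_lit 1931585920) (nat_lit 1254886602367925183259807489)) (C.cons (nat_lit 620) (C.miq (nat_lit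 423261776) (nat_lit 2021345571731694290500913377)) (C.cons (nat_lit 588) (C.miq (nat_lit 645150992) (nat_lit 251494884532794281707110923)) (C.cons (nat_lit 364) (C.miq (nat_lit 1247938435) (nat_lit 1321394235055844302636450185)) (C.cons (nat_lit 332) (C.miq (nat_lit 1247938435) (nat_lit 1321394235055844302634353033)) (C.cons (nat_lit 108) (C.miq (nat_lit 1460887714) (nat_lit 166833755994976438279078981)) (C.cons (nat_lit 76) (C.node (nat_lit 1) (nat_lit 9) (nat_lit 10) (C.cons (nat_lit 1570) (C.node (nat_lit 1) (nat_lit 2) (nat_lit 9) (C.cons (nat_lit 2566) (C.miq (nat_lit 1394712761) (nat_lit 1254893962447960578353139457)) (C.cons (nat_lit 534) (C.miq (nat_lit 728318065) (nat_lit 3172231201814755604464534675)) (C.cons (nat_lit 518) (C.miq (nat_lit 1225917859) (nat_lit 626261888605733212337865769)) C.nil)))) (C.cons (nat_lit 1538) (C.node (nat_lit 2) (nat_lit 4) (nat_lit 10) (C.cons (nat_lit 1332) (C.miq (nat_lit 1511604784) (nat_lit 1859338259565654148945479709))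 (C.cons (nat_lit 1300) (C.miq (nat_lit 2018208288) (nat_lit 2804749831369555976440841285)) (C.cons (nat_lit 1076) (C.miq (nat_lit 1511604784) (nat_lit 1859338259493596554907551773)) (C.cons (nat_lit 1044) (C.node (nat_lit 2) (nat_lit 3) (nat_lit 9) (C.cons (nat_lit 812) (C.miq (nat_lit 1931585920) (nat_lit 1254886602367925045820854017)) (C.cons (nat_lit 780) (C.miq (nat_lit 1931585920) (nat_lit 1254886602367924908381900545)) (C.cons (nat_lit 556) (C.miq (nat_lit 1386517264) (nat_lit 1262128904457602754755625483)) (C.cons (nat_lit 524) (C.node (nat_lit 2) (nat_lit 3) (nat_lit 7) (C.cons (nat_lit 172) (C.node (nat_lit 2) (nat_lit 3) (nat_lit 8) (C.cons (nat_lit 268) (C.node (nat_lit 3) (nat_lit 6) (nat_lit 10) C.nil) C.nil)) (C.cons (nat_lit 140) (C.node (nat_lit 3) (nat_lit 5) (nat_lit 7) (C.cons (nat_lit 168) (C.node (nat_lit 2) (nat_lit 3) (nat_lit 5) C.nil) C.nil)) C.nil))) C.nil))))) C.nil))))) C.nil))) C.nil))))))))) (C.cons (nat_lit 194) (C.node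 (nat_lit 6) (nat_lit 7) (nat_lit 9) (C.cons (nat_lit 704) (C.node (nat_lit 2) (nat_lit 3) (nat_lit 7) (C.cons (nat_lit 172) (C.node (nat_lit 2) (nat_lit 7) (nat_lit 10) (C.cons (nat_lit 1156) (C.node (nat_lit 5) (nat_lit 7) (nat_lit 10) C.nil) C.nil)) (C.cons (nat_lit 140) (C.node (nat_lit 3) (nat_lit 5) (nat_lit 7) (C.cons (nat_lit 168) (C.node (nat_lit 3) (nat_lit 6) (nat_lit 10) C.nil) C.nil)) C.nil))) C.nil)) C.nil))) C.nil))) C.nil))) C.nil))) (C.cons (nat_lit 1036) (C.node (nat_lit 2) (nat_lit 6) (nat_lit 7) (C.cons (nat_lit 198) (C.node (nat_lit 6) (nat_lit 7) (nat_lit 9) (C.cons (nat_lit 704) (C.node (nat_lit 1) (nat_lit 3) (nat_lit 7) (C.cons (nat_lit 170) (C.miq (nat_lit 329413894) (nat_lit 1252450801623937739739433185)) (C.cons (nat_lit 138) (C.node (nat_lit 1) (nat_lit 7) (nat_lit 11) (C.cons (nat_lit 2434) (C.miq (nat_lit 2819754870) (nat_lit 317967653931075876996647137)) (C.cons (nat_lit 2178) (C.node (nat_lit 2) (nat_lit 6) (nat_lit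 11) (C.cons (nat_lit 2372) (C.miq (nat_lit 645183648) (nat_lit 251494885034948930103873281)) (C.cons (nat_lit 2116) (C.node (nat_lit 6) (nat_lit 8) (nat_lit 11) (C.cons (nat_lit 2378) (C.miq (nat_lit 913619104) (nat_lit 251494885036637779964137217)) (C.cons (nat_lit 2376) (C.miq (nat_lit 913619104) (nat_lit 251494885036074830010715905)) (C.cons (nat_lit 2370) (C.miq (nat_lit 2551319399) (nat_lit 317959389789730580239616225)) (C.cons (nat_lit 2368) (C.node (nat_lit 1) (nat_lit 2) (nat_lit 3) (C.cons (nat_lit 46) (C.node (nat_lit 2) (nat_lit 3) (nat_lit 7) (C.cons (nat_lit 140)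
  (C.node (nat_lit 3) (nat_lit 5) (nat_lit 7) C.nil) C.nil)) (C.cons (nat_lit 14) (C.node (nat_lit 2) (nat_lit 3) (nat_lit 7) (C.cons (nat_lit 172) (C.node (nat_lit 2) (nat_lit 7) (nat_lit 10) (C.cons (nat_lit 1156) (C.node (nat_lit 5) (nat_lit 7) (nat_lit 10) C.nil) C.nil)) (C.cons (nat_lit 140) (C.node (nat_lit 3) (nat_lit 5) (nat_lit 7) C.nil) C.nil))) C.nil))) C.nil))))) C.nil))) C.nil))) C.nil))) C.nil)) (C.cons (nat_lit 196) (C.node (nat_lit 1) (nat_lit 6) (nat_lit 7) (C.cons (nat_lit 706) (C.node (nat_lit 2) (nat_lit 7) (nat_lit 10) (C.cons (nat_lit 1188) (C.node (nat_lit 2) (nat_lit 3) (nat_lit 7) (C.cons (nat_lit 142) (C.miq (nat_lit 413343895) (nat_lit 1557099075175345259731747461)) (C.cons (nat_lit 140) (C.node (nat_lit 2) (nat_lit 4) (nat_lit 10) (C.cons (nat_lit 1300) (C.miq (nat_lit 2018208288) (nat_lit 2804749831369555976440841285)) (C.cons (nat_lit 1044) (C.node (nat_lit 2) (nat_lit 8) (nat_lit 10) (C.cons (nat_lit 1284) (C.node (nat_lit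 2) (nat_lit 9) (nat_lit 10) (C.cons (nat_lit 1542) (C.miq (nat_lit 974682400) (nat_lit 1549850150787008353744126597)) (C.cons (nat_lit 1540) (C.node (nat_lit 4) (nat_lit 5) (nat_lit 7) (C.cons (nat_lit 432) (C.miq (nat_lit 624994182) (nat_lit 678227547429473659330299328)) (C.cons (nat_lit 176) (C.node (nat_lit 2) (nat_lit 3) (nat_lit 9) (C.cons (nat_lit 876) (C.miq (nat_lit 389155480) (nat_lit 169254466569353849041850113)) (C.cons (nat_lit 844) (C.miq (nat_lit 389155480) (nat_lit 169254466569353849039752961)) (C.cons (nat_lit 812) (C.miq (nat_lit 389155480) (nat_lit 169254466569353849037655809)) (C.cons (nat_lit 780) (C.miq (nat_lit 389155480) (nat_lit 169254466569353849035558657)) (C.cons (nat_lit 620) (C.miq (nat_lit 423261776) (nat_lit 2021345571731694290500913377)) (C.cons (nat_lit 588) (C.miq (nat_lit 645150992) (nat_lit 251494884532794281707110923)) (C.cons (nat_lit 556) (C.miq (nat_lit 324667687) (nat_lit 1287527599174104185846366853)) (C.cons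 (nat_lit 524) (C.node (nat_lit 1) (nat_lit 2) (nat_lit 7) (C.cons (nat_lit 2182) (C.node (nat_lit 1) (nat_lit 2) (nat_lit 10) (C.cons (nat_lit 1030) (C.node (nat_lit 2) (nat_lit 10) (nat_lit 11) C.nil) C.nil)) (C.cons (nat_lit 134) (C.node (nat_lit 1) (nat_lit 2) (nat_lit 10) (C.cons (nat_lit 3078) (C.node (nat_lit 5) (nat_lit 10) (nat_lit 11) C.nil) (C.cons (nat_lit 1030) (C.node (nat_lit 2) (nat_lit 10) (nat_lit 11) (C.cons (nat_lit 3076) (C.node (nat_lit 2) (nat_lit 4) (nat_lit 7) C.nil) C.nil)) C.nil))) C.nil))) C.nil))))))))) C.nil))) C.nil))) C.nil)) C.nil))) C.nil))) (C.cons (nat_lit 1156) (C.node (nat_lit 5) (nat_lit 7) (nat_lit 10) (C.cons (nat_lit 1184) (C.node (nat_lit 3) (nat_lit 4) (nat_lit 10) (C.cons (nat_lit 1112) (C.node (nat_lit 3) (nat_lit 6) (nat_lit 11) (C.cons (nat_lit 2378) (C.miq (nat_lit 913619104) (nat_lit 251494885036637779964137217)) (C.cons (nat_lit 2376) (C.miq (nat_lit 913619104) (nat_lit 251494885036074830010715905))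 (C.cons (nat_lit 2122) (C.miq (nat_lit 588843879) (nat_lit 632280102393011241627027681)) (C.cons (nat_lit 2120) (C.node (nat_lit 3) (nat_lit 6) (nat_lit 9) (C.cons (nat_lit 876) (C.miq (nat_lit 1935976832) (nat_lit 1344347113019407879631867649)) (C.cons (nat_lit 872) (C.miq (nat_lit 1935976832) (nat_lit 1344347113019407862451998465)) (C.cons (nat_lit 844) (C.miq (nat_lit 1935976832) (nat_lit 1344347113019407742192914177)) (C.cons (nat_lit 840) (C.miq (nat_lit 1935976832) (nat_lit 1344347113019407725013044993)) (C.cons (nat_lit 620) (C.miq (nat_lit 423261776) (nat_lit 2021345571731694290500913377)) (C.cons (nat_lit 616) (C.miq (nat_lit 423261776) (nat_lit 2021345571731694273321044193)) (C.cons (nat_lit 588) (C.miq (nat_lit 2794930976) (nat_lit 853523230098241210812794909)) (C.cons (nat_lit 584) (C.node (nat_lit 1) (nat_lit 3) (nat_lit 10) (C.cons (nat_lit 3082) (C.node (nat_lit 6) (nat_lit 10) (nat_lit 11) C.nil) (C.cons (nat_lit 1034) (C.node (nat_lit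 3) (nat_lit 10) (nat_lit 11) C.nil) C.nil))) C.nil))))))))) C.nil))))) (C.cons (nat_lit 1048)
  (C.node (nat_lit 4) (nat_lit 6) (nat_lit 10) (C.cons (nat_lit 1136) (C.node (nat_lit 6) (nat_lit 9) (nat_lit 10) (C.cons (nat_lit 1600) (C.node (nat_lit 2) (nat_lit 4) (nat_lit 10) (C.cons (nat_lit 1300) (C.miq (nat_lit 2018208288) (nat_lit 2804749831369555976440841285)) (C.cons (nat_lit 1044) (C.node (nat_lit 4) (nat_lit 8) (nat_lit 10) (C.cons (nat_lit 1296) (C.node (nat_lit 2) (nat_lit 8) (nat_lit 10) C.nil) C.nil)) C.nil))) C.nil)) (C.cons (nat_lit 1104) (C.node (nat_lit 5) (nat_lit 7) (nat_lit 9) (C.cons (nat_lit 928) (C.node (nat_lit 4) (nat_lit 5) (nat_lit 7) (C.cons (nat_lit 180) (C.miq (nat_lit 2236323616) (nat_lit 2533979372117459420189622917)) (C.cons (nat_lit 176) (C.node (nat_lit 2) (nat_lit 4) (nat_lit 7) (C.cons (nat_lit 404) (C.node (nat_lit 2) (nat_lit 4) (nat_lit 10) (C.cons (nat_lit 1044) (C.node (nat_lit 1) (nat_lit 7) (nat_lit 8) C.nil)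 C.nil)) C.nil)) C.nil))) (C.cons (nat_lit 672) (C.node (nat_lit 7) (nat_lit 8) (nat_lit 9) (C.cons (nat_lit 896) (C.node (nat_lit 6) (nat_lit 9) (nat_lit 10) (C.cons (nat_lit 1600) (C.node (nat_lit 5) (nat_lit 6) (nat_lit 10) C.nil) C.nil)) C.nil)) C.nil))) C.nil))) C.nil))) C.nil)) C.nil))) (C.cons (nat_lit 194) (C.node (nat_lit 6) (nat_lit 7) (nat_lit 9) (C.cons (nat_lit 704) (C.node (nat_lit 2) (nat_lit 7) (nat_lit 10) (C.cons (nat_lit 1188) (C.node (nat_lit 2) (nat_lit 3) (nat_lit 7) (C.cons (nat_lit 142) (C.miq (nat_lit 413343895) (nat_lit 1557099075175345259731747461)) (C.cons (nat_lit 140) (C.node (nat_lit 2) (nat_lit 4) (nat_lit 10) (C.cons (nat_lit 1300) (C.miq (nat_lit 2018208288) (nat_lit 2804749831369555976440841285)) (C.cons (nat_lit 1044) (C.node (nat_lit 2) (nat_lit 8) (nat_lit 10) (C.cons (nat_lit 1284) (C.node (nat_lit 2) (nat_lit 9) (nat_lit 10) (C.cons (nat_lit 1542) (C.miq (nat_lit 974682400) (nat_lit 1549850150787008353744126597))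 (C.cons (nat_lit 1540) (C.node (nat_lit 4) (nat_lit 5) (nat_lit 7) (C.cons (nat_lit 432) (C.miq (nat_lit 624994182) (nat_lit 678227547429473659330299328)) (C.cons (nat_lit 176) (C.node (nat_lit 1) (nat_lit 2) (nat_lit 7) (C.cons (nat_lit 2182) (C.node (nat_lit 1) (nat_lit 2) (nat_lit 10) C.nil) C.nil)) C.nil))) C.nil))) C.nil)) C.nil))) C.nil))) (C.cons (nat_lit 1156) (C.node (nat_lit 5) (nat_lit 7) (nat_lit 10) (C.cons (nat_lit 1184) (C.node (nat_lit 3) (nat_lit 4) (nat_lit 10) (C.cons (nat_lit 1112) (C.node (nat_lit 1) (nat_lit 3) (nat_lit 10) (C.cons (nat_lit 3082) (C.node (nat_lit 6) (nat_lit 10) (nat_lit 11) (C.cons (nat_lit 3136) (C.node (nat_lit 2) (nat_lit 10) (nat_lit 11) C.nil) C.nil)) (C.cons (nat_lit 1034) (C.node (nat_lit 3) (nat_lit 10) (nat_lit 11) (C.cons (nat_lit 3080) (C.node (nat_lit 1) (nat_lit 3) (nat_lit 7) (C.cons (nat_lit 174) (C.miq (nat_lit 2318469490) (nat_lit 1250034150056370519000613509)) C.nil)) C.nil)) C.nil))) (C.cons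 (nat_lit 1048) (C.node (nat_lit 4) (nat_lit 6) (nat_lit 10) (C.cons (nat_lit 1136) (C.node (nat_lit 2) (nat_lit 4) (nat_lit 10) (C.cons (nat_lit 1300) (C.miq (nat_lit 2018208288) (nat_lit 2804749831369555976440841285)) (C.cons (nat_lit 1044) (C.node (nat_lit 4) (nat_lit 8) (nat_lit 10) (C.cons (nat_lit 1296) (C.node (nat_lit 1) (nat_lit 7) (nat_lit 11) C.nil) C.nil)) C.nil))) (C.cons (nat_lit 1104) (C.node (nat_lit 2) (nat_lit 6) (nat_lit 11) (C.cons (nat_lit 2372) (C.miq (nat_lit 645183648) (nat_lit 251494885034948930103873281)) (C.cons (nat_lit 2118) (C.node (nat_lit 6) (nat_lit 10) (nat_lit 11) (C.cons (nat_lit 3136) (C.node (nat_lit 1) (nat_lit 7) (nat_lit 11) C.nil) C.nil)) (C.cons (nat_lit 2116) (C.node (nat_lit 1) (nat_lit 7) (nat_lit 11) C.nil) C.nil)))) C.nil))) C.nil))) C.nil)) C.nil))) C.nil)) C.nil))) C.nil))) C.nil))) C.nil))) C.nil))))) C.nil))))) (C.cons (nat_lit 1216) (C.node (nat_lit 1) (nat_lit 7) (nat_lit 11) (C.cons (nat_lit 2434)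 (C.node (nat_lit 2) (nat_lit 7) (nat_lit 11) (C.cons (nat_lit 2180) (C.node (nat_lit 2) (nat_lit 6) (nat_lit 11) (C.cons (nat_lit 2372) (C.miq (nat_lit 2709653430) (nat_lit 317967653179537689321670881)) (C.cons (nat_lit 2118)
  (C.node (nat_lit 1) (nat_lit 9) (nat_lit 11) (C.cons (nat_lit 2594) (C.node (nat_lit 2) (nat_lit 9) (nat_lit 11) (C.cons (nat_lit 2564) (C.node (nat_lit 3) (nat_lit 5) (nat_lit 11) (C.cons (nat_lit 2344) (C.miq (nat_lit 2712995715) (nat_lit 3135973222192404231692485001)) C.nil)) C.nil)) (C.cons (nat_lit 2562) (C.node (nat_lit 2) (nat_lit 8) (nat_lit 11) (C.cons (nat_lit 2340) (C.node (nat_lit 2) (nat_lit 9) (nat_lit 11) C.nil) C.nil)) C.nil))) (C.cons (nat_lit 2116) (C.node (nat_lit 2) (nat_lit 8) (nat_lit 11) (C.cons (nat_lit 2340) (C.node (nat_lit 5) (nat_lit 10) (nat_lit 11) (C.cons (nat_lit 3106) (C.miq (nat_lit 901253655) (nat_lit 2828893667768437427191022739)) C.nil)) (C.cons (nat_lit 2308) (C.node (nat_lit 5) (nat_lit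 8) (nat_lit 11) C.nil) C.nil))) C.nil)))) C.nil)) (C.cons (nat_lit 2182) (C.node (nat_lit 7) (nat_lit 8) (nat_lit 11) (C.cons (nat_lit 2432) (C.node (nat_lit 2) (nat_lit 6) (nat_lit 11) (C.cons (nat_lit 2372) (C.miq (nat_lit 1093142454) (nat_lit 317953707441016882568890593)) (C.cons (nat_lit 2116) (C.node (nat_lit 2) (nat_lit 9) (nat_lit 11) (C.cons (nat_lit 2596) (C.miq (nat_lit 1528074864) (nat_lit 2497651092677967637237662341)) (C.cons (nat_lit 2564) (C.node (nat_lit 1) (nat_lit 9) (nat_lit 11) C.nil) C.nil))) C.nil))) C.nil)) (C.cons (nat_lit 2178) (C.node (nat_lit 2) (nat_lit 7) (nat_lit 11) (C.cons (nat_lit 2436) (C.node (nat_lit 2) (nat_lit 4) (nat_lit 7) (C.cons (nat_lit 180) (C.miq (nat_lit 1350715831) (nat_lit 317950811130504699730725520)) (C.cons (nat_lit 148) (C.node (nat_lit 2) (nat_lit 6) (nat_lit 11) (C.cons (nat_lit 2118) (C.node (nat_lit 1) (nat_lit 9) (nat_lit 11) (C.cons (nat_lit 2594) (C.node (nat_lit 2) (nat_lit 9) (nat_lit 11)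 (C.cons (nat_lit 2564) (C.node (nat_lit 1) (nat_lit 8) (nat_lit 11) (C.cons (nat_lit 2314) (C.miq (nat_lit 723089456) (nat_lit 3135965474915958603704369545)) C.nil)) C.nil)) (C.cons (nat_lit 2562) (C.node (nat_lit 2) (nat_lit 9) (nat_lit 11) (C.cons (nat_lit 2596) (C.node (nat_lit 2) (nat_lit 10) (nat_lit 11) C.nil) C.nil)) C.nil))) (C.cons (nat_lit 2116) (C.node (nat_lit 2) (nat_lit 7) (nat_lit 10) (C.cons (nat_lit 1188) (C.node (nat_lit 7) (nat_lit 8) (nat_lit 10) (C.cons (nat_lit 1408) (C.node (nat_lit 2) (nat_lit 9) (nat_lit 10) (C.cons (nat_lit 1542) (C.miq (nat_lit 2275541905) (nat_lit 1436208725306497692296675851)) (C.cons (nat_lit 1540) (C.node (nat_lit 2) (nat_lit 4) (nat_lit 10) (C.cons (nat_lit 1300) (C.node (nat_lit 4) (nat_lit 5) (nat_lit 10) (C.cons (nat_lit 1136) (C.miq (nat_lit 2221615703) (nat_lit 2572639080774416789198144676)) (C.cons (nat_lit 1072) (C.node (nat_lit 4) (nat_lit 5) (nat_lit 7) (C.cons (nat_lit 176) (C.node (nat_lit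 4) (nat_lit 7) (nat_lit 8) C.nil) C.nil)) C.nil))) (C.cons (nat_lit 1044) (C.node (nat_lit 2) (nat_lit 8) (nat_lit 10) (C.cons (nat_lit 1292) (C.miq (nat_lit 896704696) (nat_lit 1436227707195303305108786945)) (C.cons (nat_lit 1284) (C.node (nat_lit 2) (nat_lit 3) (nat_lit 10) (C.cons (nat_lit 1038) (C.node (nat_lit 2) (nat_lit 10) (nat_lit 11) (C.cons (nat_lit 3076) (C.node (nat_lit 3) (nat_lit 10) (nat_lit 11) C.nil) C.nil)) (C.cons (nat_lit 1036) (C.node (nat_lit 1) (nat_lit 2) (nat_lit 10) (C.cons (nat_lit 3078) (C.node (nat_lit 5) (nat_lit 10) (nat_lit 11) C.nil) (C.cons (nat_lit 1030) (C.node (nat_lit 2) (nat_lit 10) (nat_lit 11) (C.cons (nat_lit 3076) (C.node (nat_lit 5) (nat_lit 10) (nat_lit 11) C.nil) C.nil)) C.nil))) C.nil))) C.nil))) C.nil))) C.nil))) C.nil)) (C.cons (nat_lit 1156) (C.node (nat_lit 4) (nat_lit 5) (nat_lit 7) (C.cons (nat_lit 432) (C.node (nat_lit 5) (nat_lit 7) (nat_lit 10) (C.cons (nat_lit 1184) (C.node (nat_lit 7) (nat_lit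 8) (nat_lit 10) C.nil) C.nil)) (C.cons (nat_lit 176) (C.node (nat_lit 4) (nat_lit 7) (nat_lit 8) (C.cons (nat_lit 400) (C.node (nat_lit 5) (nat_lit 7) (nat_lit 10) C.nil) C.nil)) C.nil))) C.nil))) C.nil))) C.nil))) (C.cons (nat_lit 2180) (C.node (nat_lit 7) (nat_lit 8) (nat_lit 11) (C.cons (nat_lit 2432)
  (C.ref (nat_lit 259) (nat_lit 205163983024656)) C.nil)) C.nil))) C.nil)))) C.nil))) (C.cons (nat_lit 1664) (C.node (nat_lit 1) (nat_lit 7) (nat_lit 11) (C.cons (nat_lit 2434) (C.node (nat_lit 2) (nat_lit 7) (nat_lit 11) (C.cons (nat_lit 2180) (C.node (nat_lit 2) (nat_lit 6) (nat_lit 11) (C.cons (nat_lit 2372) (C.miq (nat_lit 2709653430) (nat_lit 317967653179537689321670881)) (C.cons (nat_lit 2118) (C.node (nat_lit 1) (nat_lit 9) (nat_lit 11) (C.cons (nat_lit 2594) (C.node (nat_lit 2) (nat_lit 9) (nat_lit 11) (C.cons (nat_lit 2564) (C.node (nat_lit 3) (nat_lit 5) (nat_lit 11) (C.cons (nat_lit 2344) (C.miq (nat_lit 2712995715) (nat_lit 3135973222192404231692485001))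 C.nil)) C.nil)) (C.cons (nat_lit 2562) (C.node (nat_lit 2) (nat_lit 8) (nat_lit 11) (C.cons (nat_lit 2340) (C.node (nat_lit 2) (nat_lit 9) (nat_lit 11) C.nil) C.nil)) C.nil))) (C.cons (nat_lit 2116) (C.node (nat_lit 2) (nat_lit 8) (nat_lit 11) (C.cons (nat_lit 2340) (C.node (nat_lit 5) (nat_lit 10) (nat_lit 11) (C.cons (nat_lit 3106) (C.miq (nat_lit 901253655) (nat_lit 2828893667768437427191022739)) C.nil)) (C.cons (nat_lit 2308) (C.node (nat_lit 5) (nat_lit 8) (nat_lit 11) C.nil) C.nil))) C.nil)))) C.nil)) (C.cons (nat_lit 2182) (C.node (nat_lit 7) (nat_lit 8) (nat_lit 11) (C.cons (nat_lit 2432) (C.node (nat_lit 2) (nat_lit 6) (nat_lit 11) (C.cons (nat_lit 2372) (C.miq (nat_lit 1093142454) (nat_lit 317953707441016882568890593)) (C.cons (nat_lit 2116) (C.node (nat_lit 2) (nat_lit 9) (nat_lit 11) (C.cons (nat_lit 2596) (C.miq (nat_lit 1528074864) (nat_lit 2497651092677967637237662341)) (C.cons (nat_lit 2564) (C.node (nat_lit 1) (nat_lit 9) (nat_lit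 11) C.nil) C.nil))) C.nil))) C.nil)) (C.cons (nat_lit 2178) (C.node (nat_lit 2) (nat_lit 7) (nat_lit 11) (C.cons (nat_lit 2436) (C.node (nat_lit 2) (nat_lit 4) (nat_lit 7) (C.cons (nat_lit 180) (C.miq (nat_lit 1350715831) (nat_lit 317950811130504699730725520)) (C.cons (nat_lit 148) (C.node (nat_lit 2) (nat_lit 6) (nat_lit 11) (C.cons (nat_lit 2118) (C.node (nat_lit 1) (nat_lit 9) (nat_lit 11) (C.cons (nat_lit 2594) (C.node (nat_lit 2) (nat_lit 9) (nat_lit 11) (C.cons (nat_lit 2564) (C.node (nat_lit 1) (nat_lit 8) (nat_lit 11) (C.cons (nat_lit 2314) (C.miq (nat_lit 723089456) (nat_lit 3135965474915958603704369545)) C.nil)) C.nil)) (C.cons (nat_lit 2562) (C.node (nat_lit 2) (nat_lit 9) (nat_lit 11) (C.cons (nat_lit 2596) (C.node (nat_lit 2) (nat_lit 10) (nat_lit 11) C.nil) C.nil)) C.nil))) (C.cons (nat_lit 2116) (C.node (nat_lit 4) (nat_lit 5) (nat_lit 7) (C.cons (nat_lit 432) (C.node (nat_lit 5) (nat_lit 7) (nat_lit 10) (C.cons (nat_lit 1188) (C.node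 (nat_lit 4) (nat_lit 5) (nat_lit 10) (C.cons (nat_lit 1136) (C.miq (nat_lit 41445972) (nat_lit 2944949513441646761697346672)) (C.cons (nat_lit 1072) (C.node (nat_lit 7) (nat_lit 8) (nat_lit 10) (C.cons (nat_lit 1472) (C.miq (nat_lit 624994182) (nat_lit 678227547429473659330299328)) (C.cons (nat_lit 1408) (C.node (nat_lit 2) (nat_lit 4) (nat_lit 10) (C.cons (nat_lit 1300) (C.node (nat_lit 3) (nat_lit 4) (nat_lit 10) C.nil) (C.cons (nat_lit 1044) (C.node (nat_lit 2) (nat_lit 4) (nat_lit 8) C.nil) C.nil))) C.nil))) C.nil))) (C.cons (nat_lit 1184) (C.node (nat_lit 2) (nat_lit 7) (nat_lit 10) (C.cons (nat_lit 1164) (C.node (nat_lit 6) (nat_lit 7) (nat_lit 10) (C.cons (nat_lit 1472) (C.miq (nat_lit 1185024115) (nat_lit 1321394234821094172112191881)) (C.cons (nat_lit 1216) (C.node (nat_lit 7) (nat_lit 8) (nat_lit 10) C.nil) C.nil))) (C.cons (nat_lit 1156) (C.node (nat_lit 3) (nat_lit 7) (nat_lit 10) (C.cons (nat_lit 1224) (C.node (nat_lit 7) (nat_lit 8)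 (nat_lit 10) C.nil) (C.cons (nat_lit 1160) (C.node (nat_lit 6) (nat_lit 7) (nat_lit 10) C.nil) C.nil))) C.nil))) C.nil))) (C.cons (nat_lit 176) (C.node (nat_lit 4) (nat_lit 7) (nat_lit 8) (C.cons (nat_lit 400) (C.node (nat_lit 3) (nat_lit 4) (nat_lit 9) (C.cons (nat_lit 792) (C.node (nat_lit 1) (nat_lit 4) (nat_lit 8) C.nil) (C.cons (nat_lit 600)
  (C.node (nat_lit 3) (nat_lit 4) (nat_lit 10) C.nil) C.nil))) C.nil)) C.nil))) C.nil))) C.nil))) (C.cons (nat_lit 2180) (C.node (nat_lit 7) (nat_lit 8) (nat_lit 11) (C.cons (nat_lit 2432) (C.node (nat_lit 2) (nat_lit 6) (nat_lit 11) (C.cons (nat_lit 2372) (C.node (nat_lit 2) (nat_lit 10) (nat_lit 11) (C.cons (nat_lit 3110) (C.miq (nat_lit 461677152) (nat_lit 2804729503518647364457923653)) C.nil)) (C.cons (nat_lit 2118) (C.node (nat_lit 1) (nat_lit 9) (nat_lit 11) C.nil) (C.cons (nat_lit 2116) (C.node (nat_lit 2) (nat_lit 8) (nat_lit 11) C.nil) C.nil)))) C.nil)) C.nil))) C.nil)))) C.nil)))))) C.nil))))))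 List.nil)

theorem ok12_260 : okL par12 (nat_lit 261) c12_260 (nat_lit 260) = true := by decide +kernel

noncomputable def c12_261 : List C :=
  (List.cons (C.node (nat_lit 6) (nat_lit 9) (nat_lit 11) (C.cons (nat_lit 2630) (C.miq (nat_lit 2763392914) (nat_lit 2572614306760822259806765701)) (C.cons (nat_lit 2628) (C.miq (nat_lit 2763392914) (nat_lit 2572614306760822259806634629)) (C.cons (nat_lit 2626) (C.node (nat_lit 2) (nat_lit 6) (nat_lit 11) (C.cons (nat_lit 2372) (C.node (nat_lit 2) (nat_lit 7) (nat_lit 11) (C.cons (nat_lit 2182) (C.miq (nat_lit 1093142454) (nat_lit 317953707441016882568890593)) (C.cons (nat_lit 2180) (C.node (nat_lit 1) (nat_lit 7) (nat_lit 11) (C.cons (nat_lit 2434) (C.miq (nat_lit 2709653430) (nat_lit 317967653179537689321670881)) (C.cons (nat_lit 2178) (C.node (nat_lit 7) (nat_lit 8) (nat_lit 11) (C.cons (nat_lit 2432) (C.node (nat_lit 2) (nat_lit 9) (nat_lit 11) (C.cons (nat_lit 2596) (C.node (nat_lit 1) (nat_lit 2) (nat_lit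 11) (C.cons (nat_lit 3078) (C.miq (nat_lit 461677152) (nat_lit 2804729503509640165203182661)) C.nil)) C.nil)) C.nil)) C.nil))) C.nil))) (C.cons (nat_lit 2116) (C.node (nat_lit 2) (nat_lit 9) (nat_lit 11) (C.cons (nat_lit 2596) (C.node (nat_lit 1) (nat_lit 7) (nat_lit 9) (C.cons (nat_lit 930) (C.miq (nat_lit 611388312) (nat_lit 1415656986847057289473560321)) (C.cons (nat_lit 898) (C.miq (nat_lit 611388312) (nat_lit 1415656986847057289471463169)) (C.cons (nat_lit 674) (C.miq (nat_lit 364149024) (nat_lit 2533930119239298348243288709)) (C.cons (nat_lit 642) (C.node (nat_lit 2) (nat_lit 8) (nat_lit 11) (C.cons (nat_lit 2436) (C.node (nat_lit 1) (nat_lit 7) (nat_lit 11) (C.cons (nat_lit 2178) (C.node (nat_lit 2) (nat_lit 4) (nat_lit 7) (C.cons (nat_lit 180) (C.miq (nat_lit 2874411303) (nat_lit 2533930120130729599361614469)) (C.cons (nat_lit 148) (C.node (nat_lit 1) (nat_lit 2) (nat_lit 11) (C.cons (nat_lit 3078) (C.node (nat_lit 5) (nat_lit 10) (nat_lit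 11) (C.cons (nat_lit 3104) (C.node (nat_lit 3) (nat_lit 10) (nat_lit 11) C.nil) C.nil)) (C.cons (nat_lit 2054) (C.node (nat_lit 2) (nat_lit 10) (nat_lit 11) C.nil) C.nil))) C.nil))) C.nil)) (C.cons (nat_lit 2308) (C.node (nat_lit 2) (nat_lit 7) (nat_lit 11) (C.cons (nat_lit 2182) (C.miq (nat_lit 1528074864) (nat_lit 2497651092677967637237662341)) (C.cons (nat_lit 2180) (C.node (nat_lit 1) (nat_lit 2) (nat_lit 11) (C.cons (nat_lit 3078) (C.node (nat_lit 5) (nat_lit 10) (nat_lit 11) C.nil) C.nil)) C.nil))) C.nil))) C.nil))))) (C.cons (nat_lit 2564) (C.node (nat_lit 5) (nat_lit 9) (nat_lit 11) (C.cons (nat_lit 2592) (C.node (nat_lit 6) (nat_lit 8) (nat_lit 11) (C.cons (nat_lit 2376) (C.node (nat_lit 6) (nat_lit 10) (nat_lit 11) C.nil) (C.cons (nat_lit 2368) (C.node (nat_lit 3) (nat_lit 6) (nat_lit 11) C.nil) C.nil))) C.nil)) C.nil))) C.nil))) (C.cons (nat_lit 2624) (C.ref (nat_lit 260) (nat_lit 205163983024656)) C.nil))))) List.nil)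

theorem ok12_261 : okL par12 (nat_lit 262) c12_261 (nat_lit 261) = true := by decide +kernel

noncomputable def c12_262 : List C :=
  (List.cons (C.node (nat_lit 7) (nat_lit 10) (nat_lit 11) (C.cons (nat_lit 3204) (C.node (nat_lit 1) (nat_lit 7) (nat_lit 11) (C.cons (nat_lit 2434) (C.node (nat_lit 5) (nat_lit 10) (nat_lit 11) (C.cons (nat_lit 3106) (C.node (nat_lit 3) (nat_lit 5) (nat_lit 11) (C.cons (nat_lit 2600) (C.miq (nat_lit 2203807905) (nat_lit 3143252030483735503475704979)) (C.cons (nat_lit 2344) (C.node (nat_lit 2) (nat_lit 5) (nat_lit 11) (C.cons (nat_lit 2596) (C.miq (nat_lit 1537512048) (nat_lit 3733173280324123043243950725)) (C.cons (nat_lit 2084) (C.node (nat_lit 5) (nat_lit 9) (nat_lit 11) (C.cons (nat_lit 2592) (C.node (nat_lit 2) (nat_lit 8) (nat_lit 11) (C.cons (nat_lit 2372) (C.miq (nat_lit 642234378) (nat_lit 251515674515515125980663553)) (C.cons (nat_lit 2308) (C.node (nat_lit 6) (nat_lit 8) (nat_lit 11) (C.cons (nat_lit 2368)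 (C.node (nat_lit 1) (nat_lit 3) (nat_lit 11) (C.cons (nat_lit 2058) (C.node (nat_lit 3) (nat_lit 9) (nat_lit 11) C.nil) C.nil)) C.nil)) C.nil))) C.nil)) C.nil))) (C.cons (nat_lit 2088) (C.miq (nat_lit 2203807905) (nat_lit 2524282010841045366026142867)) C.nil)))) (C.cons (nat_lit 3104) (C.node (nat_lit 2) (nat_lit 8) (nat_lit 11) (C.cons (nat_lit 2372) (C.miq (nat_lit 642234378) (nat_lit 251515674515515125980663553)) (C.cons (nat_lit 2340) (C.node (nat_lit 1) (nat_lit 2) (nat_lit 7) (C.cons (nat_lit 206) (C.miq (nat_lit 2819754870) (nat_lit 317967653931075876997171425)) (C.cons (nat_lit 198) (C.miq (nat_lit 2819754870) (nat_lit 317967653931075876996647137)) (C.cons (nat_lit 174) (C.miq (nat_lit 2820737879) (nat_lit 317969092777113222613174497)) (C.cons (nat_lit 166) (C.miq (nat_lit 2820737879) (nat_lit 317969092777113222612650209)) (C.cons (nat_lit 142) (C.miq (nat_lit 2591099683) (nat_lit 1415661783497040460306581533)) (C.cons (nat_lit 134) (C.node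 (nat_lit 3) (nat_lit 8) (nat_lit 11) (C.cons (nat_lit 2376) (C.node (nat_lit 3) (nat_lit 9) (nat_lit 11) (C.cons (nat_lit 2600) (C.miq (nat_lit 997873984) (nat_lit 3873417972559556929547076145)) (C.cons (nat_lit 2568) (C.node (nat_lit 3) (nat_lit 10) (nat_lit 11) (C.cons (nat_lit 3082) (C.miq (nat_lit 2443641778) (nat_lit 1415664033065882956360583197)) (C.cons (nat_lit 3080) (C.node (nat_lit 1) (nat_lit 10) (nat_lit 11) (C.cons (nat_lit 3138) (C.miq (nat_lit 1661646961) (nat_lit 1287563884441269604298459522)) (C.cons (nat_lit 3074) (C.node (nat_lit 6) (nat_lit 10) (nat_lit 11) (C.cons (nat_lit 3136) (C.node (nat_lit 1) (nat_lit 3) (nat_lit 11) C.nil) C.nil)) C.nil))) C.nil))) C.nil))) (C.cons (nat_lit 2312) (C.node (nat_lit 6) (nat_lit 8) (nat_lit 11) (C.cons (nat_lit 2368) (C.node (nat_lit 1) (nat_lit 3) (nat_lit 7) (C.cons (nat_lit 202) (C.node (nat_lit 1) (nat_lit 10) (nat_lit 11) (C.cons (nat_lit 3138) (C.miq (nat_lit 951480481) (nat_lit 2862740067200380938055976083))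 (C.cons (nat_lit 3082) (C.miq (nat_lit 2443641778) (nat_lit 1415664033065882956360583197)) (C.cons (nat_lit 3074) (C.node (nat_lit 3) (nat_lit 9) (nat_lit 11) (C.cons (nat_lit 2632) (C.miq (nat_lit 2838563687) (nat_lit 632289805876918062169065697)) (C.cons (nat_lit 2600) (C.miq (nat_lit 997873984) (nat_lit 3873417972559556929547076145)) (C.cons (nat_lit 2568) (C.node (nat_lit 6) (nat_lit 9) (nat_lit 11) (C.cons (nat_lit 2628) (C.miq (nat_lit 2763392914) (nat_lit 2572614306760822259806634629)) (C.cons (nat_lit 2626) (C.miq (nat_lit 2299726695) (nat_lit 632275454310028690368104673)) C.nil))) C.nil)))) C.nil)))) (C.cons (nat_lit 170) (C.miq (nat_lit 363557640) (nat_lit 3752550643506739687769309577)) (C.cons (nat_lit 138) (C.node (nat_lit 1) (nat_lit 5) (nat_lit 7) (C.cons (nat_lit 674) (C.node (nat_lit 1) (nat_lit 6) (nat_lit 7) (C.cons (nat_lit 194) (C.node (nat_lit 1) (nat_lit 5) (nat_lit 11) (C.cons (nat_lit 2090) (C.miq (nat_lit 588843863) (nat_lit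 632280102393011104185977057)) (C.cons (nat_lit 2082) (C.node (nat_lit 3) (nat_lit 5) (nat_lit 11) (C.cons (nat_lit 2600) (C.miq (nat_lit 1133579095) (nat_lit 632289805380396065843448033)) (C.cons (nat_lit 2088)
  (C.node (nat_lit 5) (nat_lit 9) (nat_lit 11) C.nil) C.nil))) C.nil))) C.nil)) (C.cons (nat_lit 162) (C.node (nat_lit 1) (nat_lit 6) (nat_lit 7) (C.cons (nat_lit 706) (C.node (nat_lit 1) (nat_lit 4) (nat_lit 9) (C.cons (nat_lit 786) (C.miq (nat_lit 1460931465) (nat_lit 1415662484031959190704623361)) (C.cons (nat_lit 534) (C.miq (nat_lit 1632336160) (nat_lit 2497682672971827043960160901)) (C.cons (nat_lit 530) (C.node (nat_lit 3) (nat_lit 9) (nat_lit 11) (C.cons (nat_lit 2632) (C.miq (nat_lit 957658736) (nat_lit 640768999024039728359082209)) (C.cons (nat_lit 2600) (C.miq (nat_lit 997873984) (nat_lit 3873417972559556929547076145)) (C.cons (nat_lit 2568) (C.node (nat_lit 1) (nat_lit 8) (nat_lit 9) (C.cons (nat_lit 802) (C.miq (nat_lit 1497071874)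 (nat_lit 3104564670377245378722201863)) (C.cons (nat_lit 770) (C.node (nat_lit 6) (nat_lit 9) (nat_lit 11) (C.cons (nat_lit 2628) (C.miq (nat_lit 689223280) (nat_lit 640768999022913828452239585)) (C.cons (nat_lit 2624) (C.node (nat_lit 2) (nat_lit 6) (nat_lit 11) (C.cons (nat_lit 2118) (C.node (nat_lit 2) (nat_lit 9) (nat_lit 11) C.nil) C.nil)) C.nil))) C.nil))) C.nil)))) C.nil)))) (C.cons (nat_lit 194) (C.node (nat_lit 1) (nat_lit 7) (nat_lit 9) (C.cons (nat_lit 642) (C.node (nat_lit 2) (nat_lit 4) (nat_lit 7) (C.cons (nat_lit 404) (C.node (nat_lit 4) (nat_lit 5) (nat_lit 7) (C.cons (nat_lit 176) (C.node (nat_lit 5) (nat_lit 7) (nat_lit 10) (C.cons (nat_lit 1696) (C.miq (nat_lit 659864208) (nat_lit 212809259041468939169238785)) (C.cons (nat_lit 1440) (C.miq (nat_lit 628406432) (nat_lit 212809258798273459819581185)) C.nil))) C.nil)) (C.cons (nat_lit 180) (C.miq (nat_lit 2602895988) (nat_lit 2828896767602816766503552147)) (C.cons (nat_lit 148) (C.node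 (nat_lit 5) (nat_lit 7) (nat_lit 10) (C.cons (nat_lit 1696) (C.miq (nat_lit 1411879098) (nat_lit 178952307138830512047787777)) (C.cons (nat_lit 1440) (C.miq (nat_lit 1463978507) (nat_lit 178964187089426594213465857)) (C.cons (nat_lit 1184) (C.node (nat_lit 2) (nat_lit 5) (nat_lit 7) (C.cons (nat_lit 164) (C.node (nat_lit 2) (nat_lit 3) (nat_lit 7) (C.cons (nat_lit 140) (C.node (nat_lit 2) (nat_lit 6) (nat_lit 7) C.nil) C.nil)) C.nil)) C.nil)))) C.nil)))) C.nil)) C.nil))) C.nil))) C.nil)))) C.nil)) C.nil))) C.nil))))))) (C.cons (nat_lit 2308) (C.node (nat_lit 5) (nat_lit 8) (nat_lit 11) (C.cons (nat_lit 2344) (C.miq (nat_lit 458913840) (nat_lit 3752527345906239432959787401)) (C.cons (nat_lit 2336) (C.node (nat_lit 3) (nat_lit 8) (nat_lit 11) (C.cons (nat_lit 2376) (C.node (nat_lit 3) (nat_lit 9) (nat_lit 11) (C.cons (nat_lit 2600) (C.miq (nat_lit 997873984) (nat_lit 3873417972559556929547076145)) (C.cons (nat_lit 2568) (C.node (nat_lit 3) (nat_lit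 10) (nat_lit 11) (C.cons (nat_lit 3082) (C.miq (nat_lit 2443641778) (nat_lit 1415664033065882956360583197)) (C.cons (nat_lit 3080) (C.node (nat_lit 1) (nat_lit 10) (nat_lit 11) (C.cons (nat_lit 3138) (C.miq (nat_lit 1661646961) (nat_lit 1287563884441269604298459522)) C.nil)) C.nil))) C.nil))) (C.cons (nat_lit 2312) (C.node (nat_lit 6) (nat_lit 8) (nat_lit 11) (C.cons (nat_lit 2368) (C.node (nat_lit 3) (nat_lit 5) (nat_lit 11) (C.cons (nat_lit 2600) (C.miq (nat_lit 997873984) (nat_lit 3873417972559556929547076145)) (C.cons (nat_lit 2090) (C.node (nat_lit 2) (nat_lit 5) (nat_lit 11) (C.cons (nat_lit 2596) (C.miq (nat_lit 1537512048) (nat_lit 3733173280324123043243950725)) C.nil)) C.nil))) C.nil)) C.nil))) C.nil))) C.nil)))) C.nil))) (C.cons (nat_lit 2178) (C.node (nat_lit 7) (nat_lit 8) (nat_lit 11) (C.cons (nat_lit 2432) (C.node (nat_lit 5) (nat_lit 10) (nat_lit 11) (C.cons (nat_lit 3106) (C.node (nat_lit 3) (nat_lit 5) (nat_lit 11) (C.cons (nat_lit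 2600) (C.miq (nat_lit 997873984) (nat_lit 3873417972559556929547076145)) (C.cons (nat_lit 2344) (C.miq (nat_lit 461874480) (nat_lit 2940129195314359811862758441)) (C.cons (nat_lit 2088) (C.node (nat_lit 5) (nat_lit 9) (nat_lit 11) (C.cons (nat_lit 2596) (C.miq (nat_lit 1537512048) (nat_lit 3733173280324123043243950725)) (C.cons (nat_lit 2592)
  (C.node (nat_lit 2) (nat_lit 5) (nat_lit 11) (C.cons (nat_lit 2340) (C.node (nat_lit 3) (nat_lit 9) (nat_lit 11) (C.cons (nat_lit 2632) (C.node (nat_lit 3) (nat_lit 10) (nat_lit 11) (C.cons (nat_lit 3080) (C.node (nat_lit 6) (nat_lit 10) (nat_lit 11) C.nil) C.nil)) (C.cons (nat_lit 2568) (C.node (nat_lit 3) (nat_lit 10) (nat_lit 11) (C.cons (nat_lit 3144) (C.node (nat_lit 1) (nat_lit 3) (nat_lit 11) C.nil) C.nil)) C.nil))) (C.cons (nat_lit 2084) (C.node (nat_lit 5) (nat_lit 8) (nat_lit 11) C.nil) C.nil))) C.nil))) C.nil)))) (C.cons (nat_lit 3104) (C.node (nat_lit 2) (nat_lit 8) (nat_lit 11) (C.cons (nat_lit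 2372) (C.miq (nat_lit 642234378) (nat_lit 251515674515515125980663553)) (C.cons (nat_lit 2340) (C.node (nat_lit 2) (nat_lit 4) (nat_lit 7) (C.cons (nat_lit 404) (C.node (nat_lit 4) (nat_lit 5) (nat_lit 7) (C.cons (nat_lit 176) (C.node (nat_lit 2) (nat_lit 4) (nat_lit 10) (C.cons (nat_lit 1556) (C.miq (nat_lit 1461980073) (nat_lit 488416380387541920880267009)) (C.cons (nat_lit 1076) (C.miq (nat_lit 891816519) (nat_lit 2828893667768428708274373779)) (C.cons (nat_lit 1044) (C.node (nat_lit 5) (nat_lit 7) (nat_lit 10) (C.cons (nat_lit 1696) (C.miq (nat_lit 659864208) (nat_lit 212809259041468939169238785)) (C.cons (nat_lit 1440) (C.miq (nat_lit 628406432) (nat_lit 212809258798273459819581185)) (C.cons (nat_lit 1184) (C.node (nat_lit 7) (nat_lit 8) (nat_lit 10) (C.cons (nat_lit 1472) (C.miq (nat_lit 660912768) (nat_lit 251494885269136110672482049)) (C.cons (nat_lit 1408) (C.node (nat_lit 2) (nat_lit 8) (nat_lit 10) (C.cons (nat_lit 1292) (C.node (nat_lit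 2) (nat_lit 5) (nat_lit 7) (C.cons (nat_lit 174) (C.miq (nat_lit 2820737879) (nat_lit 317969092777113222613174497)) (C.cons (nat_lit 172) (C.miq (nat_lit 2723906416) (nat_lit 2828957272205885795993715081)) (C.cons (nat_lit 166) (C.miq (nat_lit 2820737879) (nat_lit 317969092777113222612650209)) (C.cons (nat_lit 164) (C.node (nat_lit 2) (nat_lit 3) (nat_lit 7) (C.cons (nat_lit 206) (C.miq (nat_lit 2591099683) (nat_lit 1415661783497040460310775837)) (C.cons (nat_lit 204) (C.miq (nat_lit 3123054647) (nat_lit 1321397851369220164421419401)) (C.cons (nat_lit 142) (C.miq (nat_lit 2591099683) (nat_lit 1415661783497040460306581533)) (C.cons (nat_lit 140) (C.node (nat_lit 1) (nat_lit 2) (nat_lit 7) (C.cons (nat_lit 198) (C.node (nat_lit 1) (nat_lit 2) (nat_lit 11) C.nil) (C.cons (nat_lit 134) (C.node (nat_lit 2) (nat_lit 6) (nat_lit 7) (C.cons (nat_lit 196) (C.node (nat_lit 1) (nat_lit 3) (nat_lit 7) C.nil) C.nil)) C.nil))) C.nil))))) C.nil))))) (C.cons (nat_lit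 1284) (C.node (nat_lit 3) (nat_lit 5) (nat_lit 11) (C.cons (nat_lit 2600) (C.miq (nat_lit 2510795524) (nat_lit 1431418051151535767144302621)) (C.cons (nat_lit 2090) (C.node (nat_lit 5) (nat_lit 9) (nat_lit 11) (C.cons (nat_lit 2592) (C.node (nat_lit 1) (nat_lit 5) (nat_lit 7) (C.cons (nat_lit 930) (C.miq (nat_lit 611388312) (nat_lit 1415656986847057289473560321)) (C.cons (nat_lit 674) (C.miq (nat_lit 588843863) (nat_lit 632280102393011104185977057)) (C.cons (nat_lit 418) (C.miq (nat_lit 1115753303) (nat_lit 317969092280591363711568097)) (C.cons (nat_lit 166) (C.miq (nat_lit 2820737879) (nat_lit 317969092777113222612650209)) (C.cons (nat_lit 162) (C.node (nat_lit 1) (nat_lit 8) (nat_lit 11) (C.cons (nat_lit 2370) (C.node (nat_lit 1) (nat_lit 10) (nat_lit 11) (C.cons (nat_lit 3074) (C.node (nat_lit 3) (nat_lit 8) (nat_lit 11) C.nil) C.nil)) (C.cons (nat_lit 2306) (C.node (nat_lit 1) (nat_lit 10) (nat_lit 11) (C.cons (nat_lit 3138) (C.node (nat_lit 3)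 (nat_lit 10) (nat_lit 11) C.nil) C.nil)) C.nil))) C.nil)))))) C.nil)) (C.cons (nat_lit 2088) (C.node (nat_lit 1) (nat_lit 5) (nat_lit 11) (C.cons (nat_lit 2594) (C.node (nat_lit 2) (nat_lit 9) (nat_lit 11) (C.cons (nat_lit 2628) (C.miq (nat_lit 2460268039) (nat_lit 1262168436413369102292420833)) (C.cons (nat_lit 2564) (C.node (nat_lit 1) (nat_lit 2) (nat_lit 11) (C.cons (nat_lit 2118) (C.node (nat_lit 1) (nat_lit 8) (nat_lit 11) C.nil) C.nil)) C.nil))) (C.cons (nat_lit 2082)
  (C.node (nat_lit 5) (nat_lit 9) (nat_lit 11) C.nil) C.nil))) C.nil)))) C.nil))) C.nil))) C.nil)))) C.nil)))) C.nil)) (C.cons (nat_lit 180) (C.miq (nat_lit 2602895988) (nat_lit 2828896767602816766503552147)) (C.cons (nat_lit 148) (C.node (nat_lit 5) (nat_lit 7) (nat_lit 10) (C.cons (nat_lit 1696) (C.miq (nat_lit 1411879098) (nat_lit 178952307138830512047787777)) (C.cons (nat_lit 1440) (C.miq (nat_lit 1463978507) (nat_lit 178964187089426594213465857)) (C.cons (nat_lit 1184) (C.node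 (nat_lit 7) (nat_lit 8) (nat_lit 10) (C.cons (nat_lit 1472) (C.miq (nat_lit 660912768) (nat_lit 251494885269136110672482049)) (C.cons (nat_lit 1408) (C.node (nat_lit 2) (nat_lit 7) (nat_lit 8) (C.cons (nat_lit 452) (C.node (nat_lit 2) (nat_lit 4) (nat_lit 8) (C.cons (nat_lit 1300) (C.miq (nat_lit 1730415528) (nat_lit 178927238495524341199146753)) (C.cons (nat_lit 788) (C.miq (nat_lit 1418070311) (nat_lit 407449930817320420085334661)) (C.cons (nat_lit 276) (C.node (nat_lit 2) (nat_lit 8) (nat_lit 10) (C.cons (nat_lit 1292) (C.miq (nat_lit 1445595011) (nat_lit 1321375567261022752099533193)) (C.cons (nat_lit 1284) (C.node (nat_lit 1) (nat_lit 2) (nat_lit 7) (C.cons (nat_lit 174) (C.miq (nat_lit 2820737879) (nat_lit 317969092777113222613174497)) (C.cons (nat_lit 166) (C.miq (nat_lit 2820737879) (nat_lit 317969092777113222612650209)) (C.cons (nat_lit 142) (C.miq (nat_lit 2591099683) (nat_lit 1415661783497040460306581533)) (C.cons (nat_lit 134) (C.node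 (nat_lit 1) (nat_lit 7) (nat_lit 8) (C.cons (nat_lit 930) (C.miq (nat_lit 1192409472) (nat_lit 162034374476913735511772929)) (C.cons (nat_lit 898) (C.miq (nat_lit 1192409472) (nat_lit 162034374476913598072819457)) (C.cons (nat_lit 418) (C.miq (nat_lit 1115753303) (nat_lit 317969092280591363711568097)) (C.cons (nat_lit 386) (C.node (nat_lit 2) (nat_lit 3) (nat_lit 7) (C.cons (nat_lit 172) (C.node (nat_lit 1) (nat_lit 5) (nat_lit 11) C.nil) (C.cons (nat_lit 140) (C.node (nat_lit 2) (nat_lit 5) (nat_lit 7) (C.cons (nat_lit 164) (C.node (nat_lit 4) (nat_lit 5) (nat_lit 7) C.nil) C.nil)) C.nil))) C.nil))))) C.nil))))) C.nil))) C.nil)))) (C.cons (nat_lit 388) (C.node (nat_lit 4) (nat_lit 5) (nat_lit 7) (C.cons (nat_lit 432) (C.node (nat_lit 2) (nat_lit 4) (nat_lit 8) (C.cons (nat_lit 1300) (C.miq (nat_lit 1730415528) (nat_lit 178927238495524341199146753)) (C.cons (nat_lit 788) (C.node (nat_lit 2) (nat_lit 8) (nat_lit 10) (C.cons (nat_lit 1292) (C.miq (nat_lit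 1394870921) (nat_lit 2510949276262786546269425409)) (C.cons (nat_lit 1284) (C.node (nat_lit 7) (nat_lit 8) (nat_lit 9) (C.cons (nat_lit 962) (C.miq (nat_lit 611388312) (nat_lit 1415656986847057289475657473)) (C.cons (nat_lit 960) (C.miq (nat_lit 1749776672) (nat_lit 2804749831225438589341729413)) (C.cons (nat_lit 898) (C.miq (nat_lit 611388312) (nat_lit 1415656986847057289471463169)) (C.cons (nat_lit 896) (C.node (nat_lit 1) (nat_lit 4) (nat_lit 8) (C.cons (nat_lit 282) (C.node (nat_lit 4) (nat_lit 8) (nat_lit 10) (C.cons (nat_lit 1296) (C.node (nat_lit 3) (nat_lit 8) (nat_lit 11) (C.cons (nat_lit 2376) (C.miq (nat_lit 397623400) (nat_lit 2640299192349795863996399953)) C.nil)) C.nil)) (C.cons (nat_lit 274) (C.node (nat_lit 1) (nat_lit 4) (nat_lit 9) (C.cons (nat_lit 594) (C.node (nat_lit 1) (nat_lit 2) (nat_lit 4) (C.cons (nat_lit 54) (C.miq (nat_lit 2874411041) (nat_lit 2533930120130728499841728775)) C.nil)) (C.cons (nat_lit 530) (C.node (nat_lit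 1) (nat_lit 7) (nat_lit 8) (C.cons (nat_lit 386) (C.node (nat_lit 6) (nat_lit 7) (nat_lit 8) C.nil) C.nil)) C.nil))) C.nil))) C.nil))))) C.nil))) (C.cons (nat_lit 276) (C.node (nat_lit 2) (nat_lit 8) (nat_lit 10) (C.cons (nat_lit 1292) (C.node (nat_lit 4) (nat_lit 8) (nat_lit 10) (C.cons (nat_lit 1296) (C.node (nat_lit 2) (nat_lit 5) (nat_lit 7) (C.cons (nat_lit 174) (C.miq (nat_lit 2820737879) (nat_lit 317969092777113222613174497)) (C.cons (nat_lit 172) (C.miq (nat_lit 2723906416) (nat_lit 2828957272205885795993715081)) (C.cons (nat_lit 166) (C.miq (nat_lit 2820737879) (nat_lit 317969092777113222612650209))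
  (C.cons (nat_lit 164) (C.node (nat_lit 2) (nat_lit 3) (nat_lit 7) (C.cons (nat_lit 206) (C.miq (nat_lit 2591099683) (nat_lit 1415661783497040460310775837)) (C.cons (nat_lit 204) (C.miq (nat_lit 3123054647) (nat_lit 1321397851369220164421419401)) (C.cons (nat_lit 142) (C.miq (nat_lit 2591099683) (nat_lit 1415661783497040460306581533)) (C.cons (nat_lit 140) (C.node (nat_lit 1) (nat_lit 2) (nat_lit 7) (C.cons (nat_lit 134) (C.node (nat_lit 2) (nat_lit 6) (nat_lit 7) C.nil) C.nil)) C.nil))))) C.nil))))) C.nil)) (C.cons (nat_lit 1284) (C.node (nat_lit 4) (nat_lit 8) (nat_lit 10) (C.cons (nat_lit 1304) (C.node (nat_lit 5) (nat_lit 8) (nat_lit 10) (C.cons (nat_lit 1378) (C.miq (nat_lit 1749768752) (nat_lit 2804749831343097345809908777)) (C.cons (nat_lit 1376) (C.miq (nat_lit 1749768752) (nat_lit 2804749831342534395856487465)) (C.cons (nat_lit 1314) (C.miq (nat_lit 1264190081) (nat_lit 3752527345805752849110532359)) (C.cons (nat_lit 1312) (C.node (nat_lit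 1) (nat_lit 4) (nat_lit 8) (C.cons (nat_lit 786) (C.node (nat_lit 1) (nat_lit 7) (nat_lit 8) (C.cons (nat_lit 450) (C.miq (nat_lit 369723220) (nat_lit 697564697185156471530258864)) (C.cons (nat_lit 386) (C.node (nat_lit 6) (nat_lit 7) (nat_lit 8) C.nil) C.nil))) (C.cons (nat_lit 274) (C.node (nat_lit 4) (nat_lit 8) (nat_lit 9) C.nil) C.nil))) C.nil))))) (C.cons (nat_lit 1296) (C.node (nat_lit 2) (nat_lit 4) (nat_lit 10) (C.cons (nat_lit 1556) (C.miq (nat_lit 1461980073) (nat_lit 178931370566196852155485953)) (C.cons (nat_lit 1076) (C.node (nat_lit 3) (nat_lit 5) (nat_lit 11) (C.cons (nat_lit 2600) (C.miq (nat_lit 2510795524) (nat_lit 1431418051151535767144302621)) (C.cons (nat_lit 2090) (C.node (nat_lit 5) (nat_lit 9) (nat_lit 11) (C.cons (nat_lit 2592) (C.node (nat_lit 1) (nat_lit 4) (nat_lit 5) C.nil) C.nil)) (C.cons (nat_lit 2088) (C.node (nat_lit 1) (nat_lit 4) (nat_lit 8) C.nil) C.nil)))) (C.cons (nat_lit 1044) (C.node (nat_lit 4) (nat_lit 5)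 (nat_lit 10) (C.cons (nat_lit 1136) (C.node (nat_lit 2) (nat_lit 4) (nat_lit 5) (C.cons (nat_lit 52) (C.node (nat_lit 1) (nat_lit 4) (nat_lit 5) C.nil) C.nil)) (C.cons (nat_lit 1072) (C.node (nat_lit 3) (nat_lit 5) (nat_lit 11) (C.cons (nat_lit 2600) (C.miq (nat_lit 2510795524) (nat_lit 1431418051151535767144302621)) (C.cons (nat_lit 2090) (C.node (nat_lit 5) (nat_lit 9) (nat_lit 11) C.nil) C.nil))) C.nil))) C.nil)))) C.nil))) C.nil))) C.nil)))) (C.cons (nat_lit 176) (C.node (nat_lit 4) (nat_lit 7) (nat_lit 8) (C.cons (nat_lit 400) (C.node (nat_lit 2) (nat_lit 4) (nat_lit 8) (C.cons (nat_lit 1300) (C.miq (nat_lit 1730415528) (nat_lit 178927238495524341199146753)) (C.cons (nat_lit 788) (C.node (nat_lit 2) (nat_lit 8) (nat_lit 10) (C.cons (nat_lit 1292) (C.miq (nat_lit 1394870921) (nat_lit 2510949276262786546269425409)) (C.cons (nat_lit 1284) (C.node (nat_lit 5) (nat_lit 7) (nat_lit 8) (C.cons (nat_lit 930) (C.miq (nat_lit 611388312) (nat_lit 1415656986847057289473560321))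 (C.cons (nat_lit 928) (C.miq (nat_lit 1481341216) (nat_lit 2804749831216431390086988421)) (C.cons (nat_lit 418) (C.miq (nat_lit 1115753303) (nat_lit 317969092280591363711568097)) (C.cons (nat_lit 416) (C.node (nat_lit 7) (nat_lit 8) (nat_lit 9) (C.cons (nat_lit 962) (C.miq (nat_lit 611388312) (nat_lit 1415656986847057289475657473)) (C.cons (nat_lit 960) (C.miq (nat_lit 1749776672) (nat_lit 2804749831225438589341729413)) (C.cons (nat_lit 898) (C.miq (nat_lit 611388312) (nat_lit 1415656986847057289471463169)) C.nil)))) C.nil))))) C.nil))) (C.cons (nat_lit 276) (C.node (nat_lit 2) (nat_lit 8) (nat_lit 10) (C.cons (nat_lit 1292) (C.node (nat_lit 2) (nat_lit 5) (nat_lit 7) (C.cons (nat_lit 174) (C.miq (nat_lit 2820737879) (nat_lit 317969092777113222613174497)) (C.cons (nat_lit 172) (C.miq (nat_lit 2723906416) (nat_lit 2828957272205885795993715081)) (C.cons (nat_lit 166) (C.miq (nat_lit 2820737879) (nat_lit 317969092777113222612650209)) (C.cons (nat_lit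 164) (C.node (nat_lit 2) (nat_lit 3) (nat_lit 7) (C.cons (nat_lit 206)
  (C.miq (nat_lit 2591099683) (nat_lit 1415661783497040460310775837)) (C.cons (nat_lit 204) (C.miq (nat_lit 3123054647) (nat_lit 1321397851369220164421419401)) (C.cons (nat_lit 142) (C.miq (nat_lit 2591099683) (nat_lit 1415661783497040460306581533)) C.nil)))) C.nil))))) (C.cons (nat_lit 1284) (C.node (nat_lit 2) (nat_lit 4) (nat_lit 10) (C.cons (nat_lit 1556) (C.miq (nat_lit 1461980073) (nat_lit 178931370566196852155485953)) (C.cons (nat_lit 1076) (C.node (nat_lit 4) (nat_lit 8) (nat_lit 10) (C.cons (nat_lit 1304) (C.node (nat_lit 2) (nat_lit 5) (nat_lit 7) C.nil) (C.cons (nat_lit 1296) (C.node (nat_lit 2) (nat_lit 5) (nat_lit 7) C.nil) C.nil))) (C.cons (nat_lit 1044) (C.node (nat_lit 2) (nat_lit 5) (nat_lit 7) C.nil) C.nil)))) C.nil))) C.nil)))) C.nil)) C.nil))) C.nil))) C.nil))) C.nil)))) C.nil)))) (C.cons (nat_lit 2308) (C.node (nat_lit 3) (nat_lit 9) (nat_lit 11) (C.cons (nat_lit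 2632) (C.node (nat_lit 3) (nat_lit 10) (nat_lit 11) (C.cons (nat_lit 3082) (C.miq (nat_lit 2443641778) (nat_lit 1415664033065882956360583197)) (C.cons (nat_lit 3080) (C.node (nat_lit 1) (nat_lit 10) (nat_lit 11) (C.cons (nat_lit 3138) (C.node (nat_lit 2) (nat_lit 6) (nat_lit 11) C.nil) C.nil)) C.nil))) (C.cons (nat_lit 2600) (C.miq (nat_lit 997873984) (nat_lit 3873417972559556929547076145)) (C.cons (nat_lit 2568) (C.node (nat_lit 5) (nat_lit 7) (nat_lit 10) (C.cons (nat_lit 1696) (C.miq (nat_lit 1397203129) (nat_lit 183788010559152416976015105)) (C.cons (nat_lit 1440) (C.node (nat_lit 4) (nat_lit 5) (nat_lit 7) (C.cons (nat_lit 180) (C.miq (nat_lit 2591361828) (nat_lit 1740863529949650509267994653)) (C.cons (nat_lit 176) (C.node (nat_lit 2) (nat_lit 8) (nat_lit 10) (C.cons (nat_lit 1300) (C.miq (nat_lit 610773003) (nat_lit 251515674213773951019060993)) (C.cons (nat_lit 1292) (C.miq (nat_lit 1512798256) (nat_lit 3873440255899880933266620809)) (C.cons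 (nat_lit 1284) (C.node (nat_lit 4) (nat_lit 8) (nat_lit 10) (C.cons (nat_lit 1304) (C.miq (nat_lit 1514895408) (nat_lit 3733204860824584000540311945)) (C.cons (nat_lit 1296) (C.node (nat_lit 2) (nat_lit 4) (nat_lit 7) (C.cons (nat_lit 404) (C.node (nat_lit 2) (nat_lit 4) (nat_lit 10) (C.cons (nat_lit 1556) (C.miq (nat_lit 1461980073) (nat_lit 488416380387541920880267009)) (C.cons (nat_lit 1076) (C.node (nat_lit 1) (nat_lit 10) (nat_lit 11) (C.cons (nat_lit 3146) (C.miq (nat_lit 2443641778) (nat_lit 1415664033065883231238490141)) (C.cons (nat_lit 3138) (C.node (nat_lit 3) (nat_lit 10) (nat_lit 11) C.nil) (C.cons (nat_lit 3082) (C.miq (nat_lit 2443641778) (nat_lit 1415664033065882956360583197)) (C.cons (nat_lit 3074) (C.node (nat_lit 3) (nat_lit 10) (nat_lit 11) C.nil) C.nil))))) (C.cons (nat_lit 1044) (C.node (nat_lit 2) (nat_lit 3) (nat_lit 8) (C.cons (nat_lit 876) (C.miq (nat_lit 1380614919) (nat_lit 1262145119235720000469926281)) (C.cons (nat_lit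 844) (C.miq (nat_lit 1478731584) (nat_lit 1020353037942511225890735251)) (C.cons (nat_lit 812) (C.miq (nat_lit 1380614919) (nat_lit 1262145119217705601960444297)) (C.cons (nat_lit 780) (C.miq (nat_lit 1478731584) (nat_lit 942981785487174958709539987)) (C.cons (nat_lit 364) (C.miq (nat_lit 1380614919) (nat_lit 1262145119091604812394070409)) (C.cons (nat_lit 332) (C.miq (nat_lit 1478731584) (nat_lit 401383018299821088441173139)) (C.cons (nat_lit 300) (C.miq (nat_lit 1380614919) (nat_lit 1262145119073590413884588425)) (C.cons (nat_lit 268) (C.miq (nat_lit 1478731584) (nat_lit 324011765844484821259977875)) C.nil))))))))) C.nil)))) (C.cons (nat_lit 148) (C.node (nat_lit 4) (nat_lit 7) (nat_lit 8) (C.cons (nat_lit 400) (C.node (nat_lit 2) (nat_lit 4) (nat_lit 10) (C.cons (nat_lit 1556) (C.miq (nat_lit 1461980073) (nat_lit 178931370566196852155485953)) (C.cons (nat_lit 1076) (C.node (nat_lit 2) (nat_lit 4) (nat_lit 8) C.nil) C.nil))) C.nil)) C.nil))) C.nil)))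 C.nil)))) C.nil))) (C.cons (nat_lit 1184) (C.node (nat_lit 7) (nat_lit 8) (nat_lit 10) (C.cons (nat_lit 1472) (C.miq (nat_lit 660912768) (nat_lit 251494885269136110672482049)) (C.cons (nat_lit 1408)
  (C.node (nat_lit 1) (nat_lit 10) (nat_lit 11) (C.cons (nat_lit 3146) (C.miq (nat_lit 2443641778) (nat_lit 1415664033065883231238490141)) (C.cons (nat_lit 3138) (C.node (nat_lit 3) (nat_lit 10) (nat_lit 11) C.nil) (C.cons (nat_lit 3082) (C.miq (nat_lit 2443641778) (nat_lit 1415664033065882956360583197)) (C.cons (nat_lit 3074) (C.node (nat_lit 3) (nat_lit 10) (nat_lit 11) C.nil) C.nil))))) C.nil))) C.nil)))) C.nil)))) C.nil)))) C.nil))) C.nil)) C.nil))) (C.cons (nat_lit 3200) (C.node (nat_lit 3) (nat_lit 9) (nat_lit 11) (C.cons (nat_lit 2632) (C.node (nat_lit 3) (nat_lit 10) (nat_lit 11) (C.cons (nat_lit 3082) (C.node (nat_lit 6) (nat_lit 10) (nat_lit 11) (C.cons (nat_lit 3136) (C.node (nat_lit 2) (nat_lit 10) (nat_lit 11) (C.cons (nat_lit 3108) (C.node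 (nat_lit 2) (nat_lit 9) (nat_lit 11) (C.cons (nat_lit 2566) (C.miq (nat_lit 621394481) (nat_lit 678254720023928907510778890)) (C.cons (nat_lit 2564) (C.node (nat_lit 1) (nat_lit 2) (nat_lit 10) (C.cons (nat_lit 1542) (C.node (nat_lit 3) (nat_lit 9) (nat_lit 10) (C.cons (nat_lit 1672) (C.miq (nat_lit 2208368530) (nat_lit 3725914227656605349190173317)) (C.cons (nat_lit 1560) (C.miq (nat_lit 1464011674) (nat_lit 183776371003666370984939265)) (C.cons (nat_lit 1544) (C.node (nat_lit 7) (nat_lit 9) (nat_lit 10) (C.cons (nat_lit 1728) (C.miq (nat_lit 611715994) (nat_lit 251476733355750573211651841)) (C.cons (nat_lit 1696) (C.miq (nat_lit 1397203129) (nat_lit 183788010559152416976015105)) (C.cons (nat_lit 1664) (C.node (nat_lit 1) (nat_lit 9) (nat_lit 11) (C.cons (nat_lit 2594) (C.node (nat_lit 1) (nat_lit 2) (nat_lit 5) (C.cons (nat_lit 174) (C.miq (nat_lit 1695681434) (nat_lit 210373255544021804248338177)) (C.cons (nat_lit 166) (C.miq (nat_lit 1695681434)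 (nat_lit 200701848987104770850688769)) (C.cons (nat_lit 118) (C.miq (nat_lit 2337540646) (nat_lit 2533914735546174324614759493)) (C.cons (nat_lit 110) (C.miq (nat_lit 2769924656) (nat_lit 3136024430899159897672976413)) (C.cons (nat_lit 102) (C.miq (nat_lit 2422319954) (nat_lit 81026475874696962846886948)) (C.cons (nat_lit 54) (C.miq (nat_lit 1695681434) (nat_lit 65302157190266303283597057)) (C.cons (nat_lit 46) (C.miq (nat_lit 1695681434) (nat_lit 55630750633349269885947649)) (C.cons (nat_lit 38) (C.miq (nat_lit 1695681434) (nat_lit 45959344076432236488298241)) C.nil))))))))) (C.cons (nat_lit 2562) (C.node (nat_lit 5) (nat_lit 9) (nat_lit 11) (C.cons (nat_lit 2592) (C.node (nat_lit 1) (nat_lit 5) (nat_lit 11) (C.cons (nat_lit 2338) (C.node (nat_lit 3) (nat_lit 5) (nat_lit 11) C.nil) C.nil)) C.nil)) C.nil))) C.nil)))) C.nil)))) (C.cons (nat_lit 1030) (C.node (nat_lit 1) (nat_lit 9) (nat_lit 10) (C.cons (nat_lit 1634) (C.miq (nat_lit 2444515888) (nat_lit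 2497651092407192575171953705)) (C.cons (nat_lit 1602) (C.miq (nat_lit 1265238929) (nat_lit 3791212972033422236850455051)) (C.cons (nat_lit 1570) (C.miq (nat_lit 2444515888) (nat_lit 2497651092389178176662471721)) (C.cons (nat_lit 1538) (C.node (nat_lit 1) (nat_lit 9) (nat_lit 11) (C.cons (nat_lit 2594) (C.node (nat_lit 1) (nat_lit 7) (nat_lit 9) (C.cons (nat_lit 962) (C.miq (nat_lit 611388312) (nat_lit 1415656986847057289475657473)) (C.cons (nat_lit 898) (C.miq (nat_lit 611388312) (nat_lit 1415656986847057289471463169)) (C.cons (nat_lit 706) (C.miq (nat_lit 1133579111) (nat_lit 632289805380396203284498657)) (C.cons (nat_lit 642) (C.node (nat_lit 1) (nat_lit 3) (nat_lit 7) (C.cons (nat_lit 206) (C.miq (nat_lit 2468001392) (nat_lit 3725980230737117258374645985)) (C.cons (nat_lit 202) (C.miq (nat_lit 2468001392) (nat_lit 3725980230737117241194776801)) (C.cons (nat_lit 174) (C.miq (nat_lit 2299726679) (nat_lit 632275454310028552927316193)) (C.cons (nat_lit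 170) (C.miq (nat_lit 2299726679) (nat_lit 632275454310028552927054049)) (C.cons (nat_lit 142) (C.miq (nat_lit 2709107488) (nat_lit 776201231004085536698992669)) (C.cons (nat_lit 138) (C.node (nat_lit 3) (nat_lit 5) (nat_lit 11) (C.cons (nat_lit 2344) (C.node (nat_lit 2) (nat_lit 8) (nat_lit 11) (C.cons (nat_lit 2436)
  (C.miq (nat_lit 1923124051) (nat_lit 1321363171094897047902947624)) (C.cons (nat_lit 2372) (C.miq (nat_lit 2198255010) (nat_lit 88295341168592688431565860)) C.nil))) (C.cons (nat_lit 2088) (C.node (nat_lit 3) (nat_lit 8) (nat_lit 11) (C.cons (nat_lit 2312) (C.node (nat_lit 5) (nat_lit 8) (nat_lit 11) C.nil) C.nil)) C.nil))) C.nil))))))) C.nil))))) (C.cons (nat_lit 2562) (C.node (nat_lit 5) (nat_lit 9) (nat_lit 11) (C.cons (nat_lit 2592) (C.node (nat_lit 1) (nat_lit 5) (nat_lit 11) (C.cons (nat_lit 2338) (C.node (nat_lit 3) (nat_lit 5) (nat_lit 11) C.nil) C.nil)) C.nil)) C.nil))) C.nil))))) C.nil))) C.nil))) (C.cons (nat_lit 3076) (C.node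 (nat_lit 5) (nat_lit 10) (nat_lit 11) (C.cons (nat_lit 3104) (C.node (nat_lit 3) (nat_lit 5) (nat_lit 11) (C.cons (nat_lit 2344) (C.node (nat_lit 1) (nat_lit 3) (nat_lit 7) (C.cons (nat_lit 206) (C.miq (nat_lit 2468001392) (nat_lit 3725980230737117258374645985)) (C.cons (nat_lit 202) (C.miq (nat_lit 2468001392) (nat_lit 3725980230737117241194776801)) (C.cons (nat_lit 174) (C.miq (nat_lit 2199565680) (nat_lit 3725980230656052327643023585)) (C.cons (nat_lit 170) (C.miq (nat_lit 2199565680) (nat_lit 3725980230656052310463154401)) (C.cons (nat_lit 142) (C.miq (nat_lit 2585201458) (nat_lit 1415664033999816928885868573)) (C.cons (nat_lit 138) (C.node (nat_lit 1) (nat_lit 7) (nat_lit 11) (C.cons (nat_lit 2434) (C.miq (nat_lit 2208412935) (nat_lit 3725954276087144445119760609)) (C.cons (nat_lit 2182) (C.node (nat_lit 7) (nat_lit 8) (nat_lit 11) (C.cons (nat_lit 2432) (C.node (nat_lit 1) (nat_lit 5) (nat_lit 11) C.nil) C.nil)) (C.cons (nat_lit 2178) (C.node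 (nat_lit 1) (nat_lit 8) (nat_lit 11) (C.cons (nat_lit 2370) (C.node (nat_lit 2) (nat_lit 6) (nat_lit 11) C.nil) C.nil)) C.nil)))) C.nil))))))) (C.cons (nat_lit 2088) (C.node (nat_lit 3) (nat_lit 8) (nat_lit 11) C.nil) C.nil))) C.nil)) C.nil))) C.nil)) (C.cons (nat_lit 3080) (C.node (nat_lit 6) (nat_lit 10) (nat_lit 11) (C.cons (nat_lit 3138) (C.node (nat_lit 2) (nat_lit 6) (nat_lit 11) (C.cons (nat_lit 2372) (C.node (nat_lit 2) (nat_lit 7) (nat_lit 11) (C.cons (nat_lit 2182) (C.miq (nat_lit 1093142454) (nat_lit 317953707441016882568890593)) (C.cons (nat_lit 2180) (C.node (nat_lit 1) (nat_lit 7) (nat_lit 11) (C.cons (nat_lit 2434) (C.miq (nat_lit 2709653430) (nat_lit 317967653179537689321670881)) (C.cons (nat_lit 2178) (C.node (nat_lit 7) (nat_lit 8) (nat_lit 11) (C.cons (nat_lit 2432) (C.node (nat_lit 2) (nat_lit 10) (nat_lit 11) (C.cons (nat_lit 3108) (C.node (nat_lit 1) (nat_lit 2) (nat_lit 11) C.nil) C.nil)) C.nil)) C.nil))) C.nil))) (C.cons (nat_lit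 2116) (C.node (nat_lit 6) (nat_lit 8) (nat_lit 11) (C.cons (nat_lit 2368) (C.node (nat_lit 2) (nat_lit 10) (nat_lit 11) (C.cons (nat_lit 3108) (C.node (nat_lit 2) (nat_lit 8) (nat_lit 11) (C.cons (nat_lit 2436) (C.node (nat_lit 1) (nat_lit 7) (nat_lit 11) (C.cons (nat_lit 2178) (C.node (nat_lit 1) (nat_lit 2) (nat_lit 11) C.nil) C.nil)) (C.cons (nat_lit 2308) (C.node (nat_lit 2) (nat_lit 7) (nat_lit 11) (C.cons (nat_lit 2182) (C.node (nat_lit 2) (nat_lit 9) (nat_lit 11) C.nil) C.nil)) C.nil))) (C.cons (nat_lit 3076) (C.node (nat_lit 5) (nat_lit 10) (nat_lit 11) C.nil) C.nil))) C.nil)) C.nil))) (C.cons (nat_lit 3136) (C.node (nat_lit 3) (nat_lit 4) (nat_lit 9) (C.cons (nat_lit 1560) (C.miq (nat_lit 1464011674) (nat_lit 183776371003666370984939265)) (C.cons (nat_lit 792) (C.node (nat_lit 6) (nat_lit 7) (nat_lit 9) (C.cons (nat_lit 1728) (C.miq (nat_lit 611715994) (nat_lit 251476733355750573211651841)) (C.cons (nat_lit 962) (C.miq (nat_lit 611388312)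 (nat_lit 1415656986847057289475657473)) (C.cons (nat_lit 960) (C.miq (nat_lit 1766553648) (nat_lit 3268977345957456209608769929)) (C.cons (nat_lit 706) (C.miq (nat_lit 1133579111) (nat_lit 632289805380396203284498657)) (C.cons (nat_lit 704) (C.node (nat_lit 7) (nat_lit 8) (nat_lit 9) (C.cons (nat_lit 930) (C.miq (nat_lit 611388312) (nat_lit 1415656986847057289473560321)) (C.cons (nat_lit 928)
  (C.miq (nat_lit 1498118192) (nat_lit 3268977345948449010354028937)) (C.cons (nat_lit 898) (C.miq (nat_lit 611388312) (nat_lit 1415656986847057289471463169)) (C.cons (nat_lit 896) (C.node (nat_lit 1) (nat_lit 4) (nat_lit 8) (C.cons (nat_lit 306) (C.node (nat_lit 1) (nat_lit 3) (nat_lit 4) (C.cons (nat_lit 90) (C.miq (nat_lit 2875459889) (nat_lit 2572615746358397887565136395)) (C.cons (nat_lit 26) (C.node (nat_lit 3) (nat_lit 4) (nat_lit 5) (C.cons (nat_lit 120) (C.miq (nat_lit 2204865616) (nat_lit 3181963611392619803314291249)) (C.cons (nat_lit 56) (C.node (nat_lit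 5) (nat_lit 8) (nat_lit 9) (C.cons (nat_lit 868) (C.miq (nat_lit 2035548801) (nat_lit 678228986122672368925147399)) (C.cons (nat_lit 864) (C.miq (nat_lit 2209780741) (nat_lit 3181908695435520775230128689)) (C.cons (nat_lit 804) (C.miq (nat_lit 2035548801) (nat_lit 678228986122672094047240455)) (C.cons (nat_lit 800) (C.node (nat_lit 1) (nat_lit 7) (nat_lit 9) (C.cons (nat_lit 674) (C.node (nat_lit 3) (nat_lit 5) (nat_lit 9) (C.cons (nat_lit 556) (C.miq (nat_lit 355760416) (nat_lit 67721447225446070109405829)) (C.cons (nat_lit 552) (C.node (nat_lit 2) (nat_lit 3) (nat_lit 9) (C.cons (nat_lit 1548) (C.miq (nat_lit 1647577752) (nat_lit 2510945144199996434189651713)) (C.cons (nat_lit 524) (C.node (nat_lit 4) (nat_lit 5) (nat_lit 7) (C.cons (nat_lit 180) (C.miq (nat_lit 630408976) (nat_lit 667365366365384789826667667)) (C.cons (nat_lit 176) (C.node (nat_lit 5) (nat_lit 9) (nat_lit 11) (C.cons (nat_lit 2596) (C.miq (nat_lit 364149024) (nat_lit 2533930119239298348243288709))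 (C.cons (nat_lit 2592) (C.node (nat_lit 1) (nat_lit 3) (nat_lit 7) (C.cons (nat_lit 206) (C.miq (nat_lit 2838563687) (nat_lit 632289805876918062169327841)) (C.cons (nat_lit 202) (C.miq (nat_lit 2838563687) (nat_lit 632289805876918062169065697)) (C.cons (nat_lit 142) (C.miq (nat_lit 1362401056) (nat_lit 31442420123120453925274245)) (C.cons (nat_lit 138) (C.node (nat_lit 1) (nat_lit 3) (nat_lit 11) (C.cons (nat_lit 2314) (C.node (nat_lit 3) (nat_lit 5) (nat_lit 11) C.nil) (C.cons (nat_lit 2090) (C.miq (nat_lit 588843863) (nat_lit 632280102393011104185977057)) C.nil))) C.nil))))) C.nil))) C.nil))) C.nil))) C.nil))) (C.cons (nat_lit 642) (C.node (nat_lit 5) (nat_lit 7) (nat_lit 9) (C.cons (nat_lit 1696) (C.miq (nat_lit 1397203129) (nat_lit 183788010559152416976015105)) (C.cons (nat_lit 680) (C.miq (nat_lit 1687488567) (nat_lit 678249314347946977631142281)) (C.cons (nat_lit 672) (C.node (nat_lit 1) (nat_lit 8) (nat_lit 9) (C.cons (nat_lit 834) (C.node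 (nat_lit 2) (nat_lit 8) (nat_lit 9) (C.cons (nat_lit 772) (C.node (nat_lit 1) (nat_lit 4) (nat_lit 6) (C.cons (nat_lit 86) (C.miq (nat_lit 907196800) (nat_lit 104005935115144924485848833)) (C.cons (nat_lit 82) (C.node (nat_lit 1) (nat_lit 6) (nat_lit 11) (C.cons (nat_lit 2118) (C.miq (nat_lit 907196800) (nat_lit 2560543200572071407488798465)) (C.cons (nat_lit 2114) (C.node (nat_lit 2) (nat_lit 6) (nat_lit 11) (C.cons (nat_lit 2372) (C.node (nat_lit 1) (nat_lit 2) (nat_lit 4) C.nil) (C.cons (nat_lit 2116) (C.miq (nat_lit 2192969785) (nat_lit 2558102418963149647138783755)) C.nil))) C.nil))) C.nil))) C.nil)) (C.cons (nat_lit 770) (C.node (nat_lit 2) (nat_lit 8) (nat_lit 9) (C.cons (nat_lit 836) (C.node (nat_lit 4) (nat_lit 9) (nat_lit 10) (C.cons (nat_lit 1616) (C.miq (nat_lit 1233233440) (nat_lit 930894482695441931383014469)) (C.cons (nat_lit 1556) (C.miq (nat_lit 645177529) (nat_lit 251485273921283472583823105)) (C.cons (nat_lit 1552) (C.node (nat_lit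 2) (nat_lit 4) (nat_lit 9) (C.cons (nat_lit 532) (C.node (nat_lit 1) (nat_lit 4) (nat_lit 9) C.nil) C.nil)) C.nil)))) (C.cons (nat_lit 772) (C.node (nat_lit 6) (nat_lit 8) (nat_lit 9) (C.cons (nat_lit 832) (C.node (nat_lit 3) (nat_lit 4) (nat_lit 6) (C.cons (nat_lit 1112) (C.node (nat_lit 4) (nat_lit 9) (nat_lit 10) (C.cons (nat_lit 1556) (C.miq (nat_lit 645177529) (nat_lit 251485273921283472583823105)) C.nil)) (C.cons (nat_lit 88)
  (C.node (nat_lit 4) (nat_lit 9) (nat_lit 10) C.nil) C.nil))) C.nil)) C.nil))) C.nil))) C.nil)))) C.nil))) C.nil))))) C.nil))) C.nil))) (C.cons (nat_lit 274) (C.node (nat_lit 1) (nat_lit 7) (nat_lit 9) (C.cons (nat_lit 674) (C.node (nat_lit 5) (nat_lit 9) (nat_lit 11) (C.cons (nat_lit 2596) (C.miq (nat_lit 364149024) (nat_lit 2533930119239298348243288709)) (C.cons (nat_lit 2592) (C.node (nat_lit 1) (nat_lit 8) (nat_lit 9) (C.cons (nat_lit 834) (C.node (nat_lit 1) (nat_lit 4) (nat_lit 9) (C.cons (nat_lit 534) (C.miq (nat_lit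 727269489) (nat_lit 3133545575587087470871839891)) (C.cons (nat_lit 530) (C.node (nat_lit 1) (nat_lit 6) (nat_lit 11) (C.cons (nat_lit 2118) (C.miq (nat_lit 907196800) (nat_lit 2560543200572071407488798465)) (C.cons (nat_lit 2114) (C.node (nat_lit 1) (nat_lit 9) (nat_lit 11) (C.cons (nat_lit 2566) (C.miq (nat_lit 1773437216) (nat_lit 3268941633025471280123281671)) (C.cons (nat_lit 2562) (C.node (nat_lit 2) (nat_lit 9) (nat_lit 11) C.nil) C.nil))) C.nil))) C.nil))) (C.cons (nat_lit 770) (C.node (nat_lit 1) (nat_lit 9) (nat_lit 11) (C.cons (nat_lit 2566) (C.node (nat_lit 1) (nat_lit 9) (nat_lit 10) (C.cons (nat_lit 1602) (C.miq (nat_lit 1265238929) (nat_lit 3791212972033422236850455051)) (C.cons (nat_lit 1538) (C.node (nat_lit 2) (nat_lit 6) (nat_lit 11) (C.cons (nat_lit 2372) (C.miq (nat_lit 1746514435) (nat_lit 930921433601326242431961117)) (C.cons (nat_lit 2116) (C.node (nat_lit 2) (nat_lit 7) (nat_lit 11) (C.cons (nat_lit 2436) (C.miq (nat_lit 2073264656)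 (nat_lit 3181900007481809019867955463)) C.nil)) C.nil))) C.nil))) (C.cons (nat_lit 2562) (C.node (nat_lit 2) (nat_lit 9) (nat_lit 11) (C.cons (nat_lit 2564) (C.node (nat_lit 1) (nat_lit 6) (nat_lit 11) C.nil) C.nil)) C.nil))) C.nil))) C.nil))) (C.cons (nat_lit 642) (C.node (nat_lit 5) (nat_lit 7) (nat_lit 9) (C.cons (nat_lit 1696) (C.miq (nat_lit 1397203129) (nat_lit 183788010559152416976015105)) (C.cons (nat_lit 680) (C.miq (nat_lit 1687488567) (nat_lit 678249314347946977631142281)) (C.cons (nat_lit 672) (C.node (nat_lit 3) (nat_lit 4) (nat_lit 10) (C.cons (nat_lit 1112) (C.node (nat_lit 4) (nat_lit 9) (nat_lit 10) (C.cons (nat_lit 1556) (C.miq (nat_lit 645177529) (nat_lit 251485273921283472583823105)) (C.cons (nat_lit 1552) (C.node (nat_lit 1) (nat_lit 3) (nat_lit 4) (C.cons (nat_lit 58) (C.node (nat_lit 1) (nat_lit 3) (nat_lit 11) (C.cons (nat_lit 2314) (C.miq (nat_lit 2958133571) (nat_lit 42355090533446380043240216)) (C.cons (nat_lit 2058) (C.node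 (nat_lit 3) (nat_lit 5) (nat_lit 9) (C.cons (nat_lit 556) (C.miq (nat_lit 362234656) (nat_lit 812419751934669055980800029)) (C.cons (nat_lit 552) (C.node (nat_lit 2) (nat_lit 3) (nat_lit 9) (C.cons (nat_lit 1548) (C.miq (nat_lit 591833472) (nat_lit 1344345674138466872397467393)) (C.cons (nat_lit 524) (C.node (nat_lit 1) (nat_lit 3) (nat_lit 10) (C.cons (nat_lit 1290) (C.miq (nat_lit 2203689280) (nat_lit 667397906734365391927182483)) (C.cons (nat_lit 1038) (C.miq (nat_lit 2217805474) (nat_lit 70122549126201720968184901)) (C.cons (nat_lit 1034) (C.node (nat_lit 1) (nat_lit 3) (nat_lit 7) (C.cons (nat_lit 206) (C.miq (nat_lit 2468001392) (nat_lit 1250100152166356708576397537)) (C.cons (nat_lit 202) (C.miq (nat_lit 2468001392) (nat_lit 1250100152166356691396528353)) (C.cons (nat_lit 142) (C.miq (nat_lit 1366901536) (nat_lit 776140724832343439796668445)) (C.cons (nat_lit 138) (C.node (nat_lit 3) (nat_lit 5) (nat_lit 11) (C.cons (nat_lit 2344) (C.node (nat_lit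 1) (nat_lit 2) (nat_lit 3) C.nil) C.nil)) C.nil))))) C.nil)))) C.nil))) C.nil))) C.nil))) (C.cons (nat_lit 26) (C.node (nat_lit 3) (nat_lit 4) (nat_lit 5) (C.cons (nat_lit 56) (C.node (nat_lit 3) (nat_lit 5) (nat_lit 9) (C.cons (nat_lit 556) (C.node (nat_lit 2) (nat_lit 4) (nat_lit 7) (C.cons (nat_lit 436) (C.miq (nat_lit 391709731) (nat_lit 812407798757790425868404765)) (C.cons (nat_lit 148) (C.node (nat_lit 4) (nat_lit 5) (nat_lit 7) C.nil) C.nil))) (C.cons (nat_lit 552) (C.node (nat_lit 2) (nat_lit 3) (nat_lit 9) (C.cons (nat_lit 1548)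
  (C.miq (nat_lit 591833472) (nat_lit 1344345674138466872397467393)) (C.cons (nat_lit 524) (C.node (nat_lit 3) (nat_lit 7) (nat_lit 9) (C.cons (nat_lit 1672) (C.node (nat_lit 1) (nat_lit 3) (nat_lit 10) (C.cons (nat_lit 1290) (C.miq (nat_lit 691537825) (nat_lit 957474100810036233227601043)) (C.cons (nat_lit 1038) (C.miq (nat_lit 2217805474) (nat_lit 31436922898533587377587269)) (C.cons (nat_lit 1034) (C.node (nat_lit 1) (nat_lit 4) (nat_lit 9) C.nil) C.nil)))) (C.cons (nat_lit 648) (C.node (nat_lit 3) (nat_lit 9) (nat_lit 10) C.nil) C.nil))) C.nil))) C.nil))) C.nil)) C.nil))) C.nil))) (C.cons (nat_lit 1048) (C.node (nat_lit 3) (nat_lit 4) (nat_lit 6) (C.cons (nat_lit 122) (C.miq (nat_lit 2204865616) (nat_lit 3181963611392619811904225841)) (C.cons (nat_lit 120) (C.miq (nat_lit 2204865616) (nat_lit 3181963611392619803314291249)) (C.cons (nat_lit 90) (C.miq (nat_lit 2875459889) (nat_lit 2572615746358397887565136395)) (C.cons (nat_lit 88) (C.node (nat_lit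 1) (nat_lit 3) (nat_lit 4) (C.cons (nat_lit 58) (C.node (nat_lit 1) (nat_lit 3) (nat_lit 11) (C.cons (nat_lit 2314) (C.miq (nat_lit 2958133571) (nat_lit 42355090533446380043240216)) (C.cons (nat_lit 2058) (C.node (nat_lit 3) (nat_lit 5) (nat_lit 9) (C.cons (nat_lit 556) (C.miq (nat_lit 362234656) (nat_lit 812419751934669055980800029)) (C.cons (nat_lit 552) (C.node (nat_lit 2) (nat_lit 3) (nat_lit 9) (C.cons (nat_lit 1548) (C.miq (nat_lit 591833472) (nat_lit 106405634853086597498343169)) (C.cons (nat_lit 524) (C.node (nat_lit 3) (nat_lit 5) (nat_lit 11) C.nil) C.nil))) C.nil))) C.nil))) (C.cons (nat_lit 26) (C.node (nat_lit 3) (nat_lit 4) (nat_lit 5) (C.cons (nat_lit 56) (C.node (nat_lit 4) (nat_lit 9) (nat_lit 10) (C.cons (nat_lit 1616) (C.node (nat_lit 1) (nat_lit 4) (nat_lit 9) C.nil) (C.cons (nat_lit 1556) (C.miq (nat_lit 645177529) (nat_lit 251485273921283472583823105)) C.nil))) C.nil)) C.nil))) C.nil))))) C.nil))) C.nil)))) C.nil))) C.nil)))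 C.nil))))) C.nil)))))) (C.cons (nat_lit 536) (C.node (nat_lit 4) (nat_lit 9) (nat_lit 10) (C.cons (nat_lit 1616) (C.node (nat_lit 7) (nat_lit 9) (nat_lit 10) (C.cons (nat_lit 1696) (C.miq (nat_lit 1397203129) (nat_lit 183788010559152416976015105)) (C.cons (nat_lit 1672) (C.miq (nat_lit 2207647652) (nat_lit 3181898973889083675084063891)) (C.cons (nat_lit 1664) (C.node (nat_lit 3) (nat_lit 4) (nat_lit 10) (C.cons (nat_lit 1304) (C.node (nat_lit 3) (nat_lit 4) (nat_lit 6) (C.cons (nat_lit 122) (C.miq (nat_lit 446054579) (nat_lit 1953626375329641433760532509)) (C.cons (nat_lit 120) (C.miq (nat_lit 2221646672) (nat_lit 2572664998450961887338234921)) (C.cons (nat_lit 90) (C.miq (nat_lit 446054579) (nat_lit 1953625785033831075054880797)) (C.cons (nat_lit 88) (C.node (nat_lit 1) (nat_lit 3) (nat_lit 4) (C.cons (nat_lit 58) (C.node (nat_lit 1) (nat_lit 4) (nat_lit 8) (C.cons (nat_lit 786) (C.miq (nat_lit 329794825) (nat_lit 1576453767934648502565536305)) (C.cons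 (nat_lit 274) (C.node (nat_lit 1) (nat_lit 4) (nat_lit 6) (C.cons (nat_lit 86) (C.miq (nat_lit 2484643360) (nat_lit 331316528973259444006093893)) C.nil)) C.nil))) (C.cons (nat_lit 26) (C.node (nat_lit 3) (nat_lit 4) (nat_lit 5) (C.cons (nat_lit 56) (C.node (nat_lit 2) (nat_lit 4) (nat_lit 10) (C.cons (nat_lit 1044) (C.node (nat_lit 4) (nat_lit 5) (nat_lit 10) C.nil) C.nil)) C.nil)) C.nil))) C.nil))))) (C.cons (nat_lit 1048) (C.node (nat_lit 3) (nat_lit 7) (nat_lit 9) (C.cons (nat_lit 680) (C.node (nat_lit 3) (nat_lit 9) (nat_lit 10) (C.cons (nat_lit 1548) (C.miq (nat_lit 1698301842) (nat_lit 1287526160820648178344526469)) (C.cons (nat_lit 1544) (C.node (nat_lit 1) (nat_lit 7) (nat_lit 9) (C.cons (nat_lit 962) (C.miq (nat_lit 611388312) (nat_lit 1415656986847057289475657473)) (C.cons (nat_lit 898) (C.miq (nat_lit 611388312) (nat_lit 1415656986847057289471463169)) (C.cons (nat_lit 706) (C.miq (nat_lit 1133579111) (nat_lit 632289805380396203284498657))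 (C.cons (nat_lit 642) (C.node (nat_lit 2) (nat_lit 3) (nat_lit 9) (C.cons (nat_lit 780) (C.node (nat_lit 2) (nat_lit 4) (nat_lit 9)
  (C.cons (nat_lit 534) (C.miq (nat_lit 2266574914) (nat_lit 776144764763594118900615197)) (C.cons (nat_lit 532) (C.node (nat_lit 1) (nat_lit 4) (nat_lit 9) (C.cons (nat_lit 786) (C.miq (nat_lit 1770169360) (nat_lit 942982302045550259036685459)) (C.cons (nat_lit 530) (C.node (nat_lit 4) (nat_lit 8) (nat_lit 9) (C.cons (nat_lit 784) (C.node (nat_lit 6) (nat_lit 7) (nat_lit 9) (C.cons (nat_lit 704) (C.node (nat_lit 7) (nat_lit 8) (nat_lit 9) C.nil) C.nil)) C.nil)) C.nil))) C.nil))) (C.cons (nat_lit 524) (C.node (nat_lit 3) (nat_lit 8) (nat_lit 9) (C.cons (nat_lit 776) (C.node (nat_lit 6) (nat_lit 7) (nat_lit 9) (C.cons (nat_lit 960) (C.node (nat_lit 4) (nat_lit 8) (nat_lit 9) (C.cons (nat_lit 788) (C.miq (nat_lit 1749776672) (nat_lit 2804749831225438589341729413)) (C.cons (nat_lit 786) (C.miq (nat_lit 647498305) (nat_lit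 1160573638631394483593413779)) (C.cons (nat_lit 784) (C.node (nat_lit 1) (nat_lit 4) (nat_lit 9) (C.cons (nat_lit 530) (C.node (nat_lit 2) (nat_lit 4) (nat_lit 9) C.nil) C.nil)) C.nil)))) (C.cons (nat_lit 704) (C.node (nat_lit 7) (nat_lit 8) (nat_lit 9) (C.cons (nat_lit 896) (C.node (nat_lit 3) (nat_lit 4) (nat_lit 6) (C.cons (nat_lit 122) (C.miq (nat_lit 446054579) (nat_lit 1953626375329641433760532509)) (C.cons (nat_lit 120) (C.node (nat_lit 1) (nat_lit 3) (nat_lit 4) (C.cons (nat_lit 282) (C.node (nat_lit 1) (nat_lit 3) (nat_lit 11) (C.cons (nat_lit 2090) (C.miq (nat_lit 2961266243) (nat_lit 317986044893555595396382840)) C.nil)) C.nil)) (C.cons (nat_lit 90) (C.miq (nat_lit 446054579) (nat_lit 1953625785033831075054880797)) (C.cons (nat_lit 88) (C.node (nat_lit 1) (nat_lit 4) (nat_lit 9) (C.cons (nat_lit 786) (C.node (nat_lit 2) (nat_lit 4) (nat_lit 9) C.nil) (C.cons (nat_lit 534) (C.node (nat_lit 4) (nat_lit 8) (nat_lit 9) C.nil) C.nil))) C.nil)))))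 C.nil)) C.nil))) C.nil)) C.nil))) C.nil))))) C.nil))) (C.cons (nat_lit 648) (C.node (nat_lit 3) (nat_lit 9) (nat_lit 10) (C.cons (nat_lit 1548) (C.node (nat_lit 1) (nat_lit 9) (nat_lit 10) (C.cons (nat_lit 1570) (C.node (nat_lit 1) (nat_lit 9) (nat_lit 11) (C.cons (nat_lit 2566) (C.miq (nat_lit 353081906) (nat_lit 2747935722771265540528604684)) (C.cons (nat_lit 2562) (C.node (nat_lit 5) (nat_lit 10) (nat_lit 11) (C.cons (nat_lit 3108) (C.miq (nat_lit 1359718706) (nat_lit 2479564188952103486448535052)) (C.cons (nat_lit 3104) (C.node (nat_lit 1) (nat_lit 4) (nat_lit 9) (C.cons (nat_lit 786) (C.miq (nat_lit 430081120) (nat_lit 1871422020478383620490592593)) (C.cons (nat_lit 534) (C.miq (nat_lit 1495507264) (nat_lit 1871436814987802470202016915)) (C.cons (nat_lit 530) (C.node (nat_lit 1) (nat_lit 6) (nat_lit 10) (C.cons (nat_lit 1354) (C.miq (nat_lit 1367382628) (nat_lit 317957839623994352849716816)) (C.cons (nat_lit 1346) (C.miq (nat_lit 1367382628)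 (nat_lit 317957839623994318489978448)) (C.cons (nat_lit 1098) (C.miq (nat_lit 330802836) (nat_lit 2640315591484731260402665040)) (C.cons (nat_lit 1090) (C.node (nat_lit 1) (nat_lit 7) (nat_lit 9) (C.cons (nat_lit 962) (C.miq (nat_lit 611388312) (nat_lit 1415656986847057289475657473)) (C.cons (nat_lit 898) (C.miq (nat_lit 611388312) (nat_lit 1415656986847057289471463169)) (C.cons (nat_lit 706) (C.miq (nat_lit 957658736) (nat_lit 640768999024039728359082209)) (C.cons (nat_lit 642) (C.node (nat_lit 3) (nat_lit 5) (nat_lit 9) (C.cons (nat_lit 808) (C.miq (nat_lit 2266575013) (nat_lit 776145281272428182835954729)) (C.cons (nat_lit 552) (C.node (nat_lit 3) (nat_lit 8) (nat_lit 9) (C.cons (nat_lit 776) (C.node (nat_lit 1) (nat_lit 2) (nat_lit 9) C.nil) C.nil)) C.nil))) C.nil))))) C.nil))))) C.nil)))) C.nil))) C.nil))) (C.cons (nat_lit 1538) (C.node (nat_lit 5) (nat_lit 9) (nat_lit 10) (C.cons (nat_lit 1568) (C.node (nat_lit 3) (nat_lit 5) (nat_lit 9) (C.cons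 (nat_lit 808) (C.node (nat_lit 3) (nat_lit 5) (nat_lit 7) (C.cons (nat_lit 174) (C.miq (nat_lit 3124037927) (nat_lit 1287547928420011647039308421)) (C.cons (nat_lit 172) (C.miq (nat_lit 3124037927) (nat_lit 1287547928420011647039177349)) (C.cons (nat_lit 170)
  (C.miq (nat_lit 446001283) (nat_lit 1895598821431854771313574281)) (C.cons (nat_lit 168) (C.node (nat_lit 2) (nat_lit 3) (nat_lit 8) (C.cons (nat_lit 332) (C.node (nat_lit 2) (nat_lit 3) (nat_lit 7) (C.cons (nat_lit 142) (C.miq (nat_lit 1668579856) (nat_lit 183762941227626776904270087)) (C.cons (nat_lit 140) (C.node (nat_lit 1) (nat_lit 3) (nat_lit 7) (C.cons (nat_lit 202) (C.miq (nat_lit 2838563687) (nat_lit 632289805876918062169065697)) (C.cons (nat_lit 138) (C.node (nat_lit 3) (nat_lit 4) (nat_lit 8) (C.cons (nat_lit 282) (C.miq (nat_lit 1665804304) (nat_lit 1266974421340854843157446919)) C.nil)) C.nil))) C.nil))) (C.cons (nat_lit 268) (C.node (nat_lit 3) (nat_lit 4) (nat_lit 8) (C.cons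 (nat_lit 282) (C.node (nat_lit 3) (nat_lit 8) (nat_lit 11) (C.cons (nat_lit 2312) (C.node (nat_lit 1) (nat_lit 3) (nat_lit 11) C.nil) C.nil)) (C.cons (nat_lit 280) (C.node (nat_lit 1) (nat_lit 3) (nat_lit 4) (C.cons (nat_lit 26) (C.node (nat_lit 3) (nat_lit 4) (nat_lit 5) C.nil) C.nil)) C.nil))) C.nil))) C.nil))))) (C.cons (nat_lit 552) (C.node (nat_lit 3) (nat_lit 8) (nat_lit 9) (C.cons (nat_lit 776) (C.node (nat_lit 3) (nat_lit 7) (nat_lit 10) (C.cons (nat_lit 1224) (C.node (nat_lit 1) (nat_lit 3) (nat_lit 10) (C.cons (nat_lit 1290) (C.node (nat_lit 1) (nat_lit 6) (nat_lit 10) (C.cons (nat_lit 1122) (C.miq (nat_lit 352888435) (nat_lit 349403358484307603167446216)) (C.cons (nat_lit 1090) (C.node (nat_lit 5) (nat_lit 6) (nat_lit 10) (C.cons (nat_lit 1376) (C.node (nat_lit 3) (nat_lit 4) (nat_lit 8) (C.cons (nat_lit 312) (C.miq (nat_lit 646187603) (nat_lit 407446315405229186054882345)) C.nil)) C.nil)) C.nil))) (C.cons (nat_lit 1034) (C.node (nat_lit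 3) (nat_lit 8) (nat_lit 10) (C.cons (nat_lit 1288) (C.node (nat_lit 1) (nat_lit 4) (nat_lit 9) C.nil) C.nil)) C.nil))) (C.cons (nat_lit 1160) (C.node (nat_lit 3) (nat_lit 6) (nat_lit 7) (C.cons (nat_lit 206) (C.miq (nat_lit 2838563687) (nat_lit 632289805876918062169327841)) (C.cons (nat_lit 204) (C.miq (nat_lit 2741736048) (nat_lit 3181963611605415246484800133)) (C.cons (nat_lit 202) (C.miq (nat_lit 2838563687) (nat_lit 632289805876918062169065697)) (C.cons (nat_lit 200) (C.node (nat_lit 6) (nat_lit 7) (nat_lit 10) (C.cons (nat_lit 1472) (C.node (nat_lit 3) (nat_lit 6) (nat_lit 10) (C.cons (nat_lit 1098) (C.miq (nat_lit 330802836) (nat_lit 2640315591484731260402665040)) (C.cons (nat_lit 1096) (C.node (nat_lit 1) (nat_lit 3) (nat_lit 10) C.nil) C.nil))) (C.cons (nat_lit 1216) (C.node (nat_lit 1) (nat_lit 4) (nat_lit 9) (C.cons (nat_lit 786) (C.miq (nat_lit 430081120) (nat_lit 1871422020478383620490592593)) (C.cons (nat_lit 534) (C.node (nat_lit 4)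 (nat_lit 8) (nat_lit 9) C.nil) (C.cons (nat_lit 530) (C.node (nat_lit 2) (nat_lit 4) (nat_lit 9) C.nil) C.nil)))) C.nil))) C.nil))))) C.nil))) C.nil)) C.nil))) C.nil)) C.nil))) (C.cons (nat_lit 1544) (C.ref (nat_lit 257) (nat_lit 205163983024656)) C.nil))) C.nil))) C.nil))) C.nil)))) (C.cons (nat_lit 1556) (C.miq (nat_lit 645177529) (nat_lit 251485273921283472583823105)) (C.cons (nat_lit 1552) (C.ref (nat_lit 258) (nat_lit 205163983024656)) C.nil)))) C.nil)))) C.nil))) C.nil))) (C.cons (nat_lit 2600) (C.miq (nat_lit 997873984) (nat_lit 3868582269281098412848251441)) (C.cons (nat_lit 2568) (C.ref (nat_lit 261) (nat_lit 205163983024656)) C.nil)))) C.nil))) List.nil)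

theorem ok12_262 : okL par12 (nat_lit 263) c12_262 (nat_lit 262) = true := by decide +kernel

noncomputable def c12_263 : List C :=
  (List.cons (C.node (nat_lit 3) (nat_lit 4) (nat_lit 7) (C.cons (nat_lit 184) (C.node (nat_lit 3) (nat_lit 7) (nat_lit 11) (C.cons (nat_lit 3208) (C.node (nat_lit 3) (nat_lit 9) (nat_lit 11) (C.cons (nat_lit 2632) (C.miq (nat_lit 1404635764) (nat_lit 3181903106148913967514256531)) (C.cons (nat_lit 2600) (C.node (nat_lit 7) (nat_lit 9) (nat_lit 10) (C.cons (nat_lit 1728) (C.miq (nat_lit 611715994) (nat_lit 251476733355750573211651841)) (C.cons (nat_lit 1696) (C.node (nat_lit 6) (nat_lit 7) (nat_lit 10) (C.cons (nat_lit 1472) (C.miq (nat_lit 1466210944) (nat_lit 251466919580656102112562945)) (C.cons (nat_lit 1216) (C.node (nat_lit 2) (nat_lit 4) (nat_lit 7) (C.cons (nat_lit 404) (C.node (nat_lit 2) (nat_lit 7) (nat_lit 10) (C.cons (nat_lit 1156) (C.node (nat_lit 7) (nat_lit 8) (nat_lit 10) (C.cons (nat_lit 1408) (C.node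 (nat_lit 5) (nat_lit 7) (nat_lit 8) (C.cons (nat_lit 418) (C.miq (nat_lit 355501890) (nat_lit 1287510849500928787349307796)) (C.cons (nat_lit 416) (C.node (nat_lit 2) (nat_lit 4) (nat_lit 10) (C.cons (nat_lit 1556) (C.miq (nat_lit 1732381594) (nat_lit 488426194055386986878078721)) (C.cons (nat_lit 1076) (C.miq (nat_lit 2191553619) (nat_lit 1321363170522931167853347000)) (C.cons (nat_lit 1044) (C.node (nat_lit 3) (nat_lit 4) (nat_lit 8) (C.cons (nat_lit 1304) (C.miq (nat_lit 1731464104) (nat_lit 222448568001651008668700417)) (C.cons (nat_lit 792) (C.miq (nat_lit 1697909656) (nat_lit 222448568001648397295030017)) (C.cons (nat_lit 282) (C.miq (nat_lit 2537751169) (nat_lit 222451998637795413405073671)) (C.cons (nat_lit 280) (C.node (nat_lit 1) (nat_lit 3) (nat_lit 4) (C.cons (nat_lit 90) (C.node (nat_lit 1) (nat_lit 3) (nat_lit 7) (C.cons (nat_lit 142) (C.miq (nat_lit 2322664242) (nat_lit 1415656987343581313003030557)) (C.cons (nat_lit 138) (C.node (nat_lit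 3) (nat_lit 4) (nat_lit 9) (C.cons (nat_lit 1560) (C.node (nat_lit 3) (nat_lit 6) (nat_lit 11) (C.cons (nat_lit 2376) (C.miq (nat_lit 1399102336) (nat_lit 108813673120587121094102785)) (C.cons (nat_lit 2120) (C.node (nat_lit 6) (nat_lit 9) (nat_lit 10) (C.cons (nat_lit 1602) (C.miq (nat_lit 2520490304) (nat_lit 2562993591977924268138497171)) (C.cons (nat_lit 1600) (C.node (nat_lit 1) (nat_lit 2) (nat_lit 4) (C.cons (nat_lit 534) (C.miq (nat_lit 344167024) (nat_lit 338508877289556091769258629)) (C.cons (nat_lit 54) (C.miq (nat_lit 410329140) (nat_lit 502914137157895323802667037)) (C.cons (nat_lit 22) (C.node (nat_lit 1) (nat_lit 7) (nat_lit 9) (C.cons (nat_lit 962) (C.miq (nat_lit 611388312) (nat_lit 1415656986847057289475657473)) (C.cons (nat_lit 898) (C.miq (nat_lit 611388312) (nat_lit 1415656986847057289471463169)) (C.cons (nat_lit 706) (C.miq (nat_lit 660867347) (nat_lit 251494884548838355308773899)) (C.cons (nat_lit 642) (C.node (nat_lit 2) (nat_lit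 3) (nat_lit 9) (C.cons (nat_lit 844) (C.miq (nat_lit 338823832) (nat_lit 2510943779162890079409278721)) (C.cons (nat_lit 780) (C.miq (nat_lit 338823832) (nat_lit 2510943779162890079405084417)) (C.cons (nat_lit 588) (C.miq (nat_lit 1769026052) (nat_lit 776132036565068620657526813)) (C.cons (nat_lit 524) (C.node (nat_lit 3) (nat_lit 8) (nat_lit 9) (C.cons (nat_lit 840) (C.miq (nat_lit 2838562916) (nat_lit 632289805876910365580329297)) (C.cons (nat_lit 776) (C.node (nat_lit 1) (nat_lit 3) (nat_lit 11) (C.cons (nat_lit 2314) (C.node (nat_lit 7) (nat_lit 8) (nat_lit 11) (C.cons (nat_lit 2432) (C.node (nat_lit 1) (nat_lit 4) (nat_lit 5) (C.cons (nat_lit 306) (C.node (nat_lit 1) (nat_lit 4) (nat_lit 9) C.nil) C.nil)) C.nil)) (C.cons (nat_lit 2058) (C.node (nat_lit 3) (nat_lit 8) (nat_lit 11) (C.cons (nat_lit 2312) (C.node (nat_lit 1) (nat_lit 4) (nat_lit 5) (C.cons (nat_lit 306) (C.node (nat_lit 1) (nat_lit 4) (nat_lit 9) C.nil) C.nil)) C.nil)) C.nil)))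 C.nil))) C.nil))))) C.nil))))) C.nil)))) C.nil))) C.nil))) (C.cons (nat_lit 536) (C.miq (nat_lit 2739490999) (nat_lit 648015525291170020063185121)) C.nil))) C.nil))) (C.cons (nat_lit 26) (C.node (nat_lit 1) (nat_lit 5) (nat_lit 7) (C.cons (nat_lit 166)
  (C.node (nat_lit 2) (nat_lit 7) (nat_lit 11) (C.cons (nat_lit 2180) (C.node (nat_lit 4) (nat_lit 8) (nat_lit 10) (C.cons (nat_lit 1328) (C.miq (nat_lit 413474967) (nat_lit 1605456550681788195750806149)) (C.cons (nat_lit 1296) (C.node (nat_lit 4) (nat_lit 5) (nat_lit 8) (C.cons (nat_lit 306) (C.miq (nat_lit 2769852192) (nat_lit 370002155223445919330927237)) (C.cons (nat_lit 304) (C.node (nat_lit 1) (nat_lit 4) (nat_lit 5) (C.cons (nat_lit 50) (C.node (nat_lit 1) (nat_lit 4) (nat_lit 8) C.nil) C.nil)) C.nil))) C.nil))) C.nil)) (C.cons (nat_lit 162) (C.node (nat_lit 2) (nat_lit 5) (nat_lit 7) (C.cons (nat_lit 164) (C.node (nat_lit 2) (nat_lit 7) (nat_lit 11) (C.cons (nat_lit 2182) (C.node (nat_lit 7)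 (nat_lit 8) (nat_lit 11) (C.cons (nat_lit 2432) (C.node (nat_lit 2) (nat_lit 9) (nat_lit 11) (C.cons (nat_lit 2628) (C.miq (nat_lit 2460268039) (nat_lit 1262168436413369102292420833)) (C.cons (nat_lit 2564) (C.node (nat_lit 2) (nat_lit 6) (nat_lit 11) (C.cons (nat_lit 2372) (C.miq (nat_lit 310672224) (nat_lit 488427632875809087333402849)) (C.cons (nat_lit 2116) (C.node (nat_lit 1) (nat_lit 7) (nat_lit 8) (C.cons (nat_lit 962) (C.miq (nat_lit 1192409472) (nat_lit 2637914453047674422748974849)) (C.cons (nat_lit 898) (C.miq (nat_lit 1192409472) (nat_lit 2637914453047674147871067905)) (C.cons (nat_lit 450) (C.miq (nat_lit 1108872054) (nat_lit 317953707696033211342784737)) (C.cons (nat_lit 386) (C.node (nat_lit 1) (nat_lit 3) (nat_lit 7) (C.cons (nat_lit 202) (C.node (nat_lit 1) (nat_lit 9) (nat_lit 11) (C.cons (nat_lit 2626) (C.miq (nat_lit 2299726695) (nat_lit 632275454310028690368104673)) C.nil)) (C.cons (nat_lit 138) (C.node (nat_lit 1) (nat_lit 6)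 (nat_lit 7) (C.cons (nat_lit 706) (C.node (nat_lit 1) (nat_lit 9) (nat_lit 11) C.nil) C.nil)) C.nil))) C.nil))))) C.nil))) C.nil))) C.nil)) (C.cons (nat_lit 2180) (C.node (nat_lit 1) (nat_lit 7) (nat_lit 11) (C.cons (nat_lit 2434) (C.node (nat_lit 3) (nat_lit 8) (nat_lit 11) (C.cons (nat_lit 2376) (C.miq (nat_lit 1683194011) (nat_lit 222486180367870378839117569)) (C.cons (nat_lit 2312) (C.node (nat_lit 4) (nat_lit 8) (nat_lit 9) (C.cons (nat_lit 786) (C.miq (nat_lit 1460931465) (nat_lit 1415662484031959190704623361)) (C.cons (nat_lit 784) (C.node (nat_lit 1) (nat_lit 4) (nat_lit 8) (C.cons (nat_lit 274) (C.node (nat_lit 1) (nat_lit 7) (nat_lit 9) (C.cons (nat_lit 642) (C.node (nat_lit 3) (nat_lit 7) (nat_lit 9) C.nil) C.nil)) C.nil)) C.nil))) C.nil))) (C.cons (nat_lit 2178) (C.node (nat_lit 7) (nat_lit 8) (nat_lit 11) (C.cons (nat_lit 2432) (C.node (nat_lit 3) (nat_lit 7) (nat_lit 9) (C.cons (nat_lit 712) (C.node (nat_lit 1) (nat_lit 3) (nat_lit 7)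 (C.cons (nat_lit 142) (C.miq (nat_lit 2322664242) (nat_lit 1415656987343581313003030557)) C.nil)) C.nil)) C.nil)) C.nil))) C.nil))) C.nil)) C.nil))) C.nil))) C.nil))))) C.nil)))) C.nil))) C.nil)) C.nil)) (C.cons (nat_lit 148) (C.node (nat_lit 4) (nat_lit 7) (nat_lit 8) (C.cons (nat_lit 400) (C.node (nat_lit 2) (nat_lit 7) (nat_lit 10) (C.cons (nat_lit 1412) (C.node (nat_lit 2) (nat_lit 5) (nat_lit 7) (C.cons (nat_lit 166) (C.miq (nat_lit 278210727) (nat_lit 678210447037367618751169924)) (C.cons (nat_lit 164) (C.node (nat_lit 4) (nat_lit 8) (nat_lit 10) (C.cons (nat_lit 1328) (C.miq (nat_lit 2181343125) (nat_lit 2510963425013160119555393184)) (C.cons (nat_lit 1304) (C.miq (nat_lit 1731464104) (nat_lit 222448568001651008668700417)) (C.cons (nat_lit 1296) (C.node (nat_lit 2) (nat_lit 9) (nat_lit 10) (C.cons (nat_lit 1556) (C.miq (nat_lit 1732381594) (nat_lit 178941184234041918153297665)) (C.cons (nat_lit 1548) (C.miq (nat_lit 1235466064) (nat_lit 1871455483412002678543812833))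 (C.cons (nat_lit 1542) (C.miq (nat_lit 933824545) (nat_lit 2050347837824187360839336199)) (C.cons (nat_lit 1540) (C.node (nat_lit 1) (nat_lit 5) (nat_lit 7) (C.cons (nat_lit 418) (C.node (nat_lit 7) (nat_lit 8) (nat_lit 11) (C.cons (nat_lit 2432) (C.node (nat_lit 2) (nat_lit 4) (nat_lit 10) (C.cons (nat_lit 1076)
  (C.miq (nat_lit 356681520) (nat_lit 1300809033516689708271075721)) (C.cons (nat_lit 1044) (C.node (nat_lit 4) (nat_lit 5) (nat_lit 8) (C.cons (nat_lit 308) (C.miq (nat_lit 897730320) (nat_lit 372387466380540071576536211)) (C.cons (nat_lit 304) (C.node (nat_lit 5) (nat_lit 8) (nat_lit 11) (C.cons (nat_lit 2340) (C.miq (nat_lit 1115753303) (nat_lit 317969092280591363711568097)) (C.cons (nat_lit 2336) (C.node (nat_lit 3) (nat_lit 4) (nat_lit 8) (C.cons (nat_lit 792) (C.miq (nat_lit 1697909656) (nat_lit 222448568001648397295030017)) (C.cons (nat_lit 282) (C.miq (nat_lit 995639409) (nat_lit 2824055917186235827323274387)) (C.cons (nat_lit 280)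 (C.node (nat_lit 1) (nat_lit 3) (nat_lit 4) (C.cons (nat_lit 90) (C.node (nat_lit 1) (nat_lit 4) (nat_lit 5) C.nil) C.nil)) C.nil)))) C.nil))) C.nil))) C.nil))) C.nil)) (C.cons (nat_lit 162) (C.node (nat_lit 5) (nat_lit 7) (nat_lit 8) (C.cons (nat_lit 416) (C.node (nat_lit 1) (nat_lit 9) (nat_lit 10) (C.cons (nat_lit 1602) (C.node (nat_lit 6) (nat_lit 10) (nat_lit 11) (C.cons (nat_lit 3136) (C.node (nat_lit 1) (nat_lit 7) (nat_lit 9) (C.cons (nat_lit 898) (C.miq (nat_lit 611388312) (nat_lit 1415656986847057289471463169)) (C.cons (nat_lit 642) (C.node (nat_lit 3) (nat_lit 9) (nat_lit 10) (C.cons (nat_lit 1560) (C.node (nat_lit 3) (nat_lit 4) (nat_lit 6) (C.cons (nat_lit 90) (C.miq (nat_lit 1673073674) (nat_lit 3143236682707383605740504211)) (C.cons (nat_lit 88) (C.node (nat_lit 1) (nat_lit 3) (nat_lit 4) (C.cons (nat_lit 26) (C.node (nat_lit 3) (nat_lit 4) (nat_lit 8) (C.cons (nat_lit 280) (C.node (nat_lit 2) (nat_lit 4) (nat_lit 10) C.nil) C.nil))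 C.nil)) C.nil))) (C.cons (nat_lit 1544) (C.miq (nat_lit 1235466064) (nat_lit 1866619780133544161844988129)) C.nil))) C.nil))) C.nil)) (C.cons (nat_lit 1538) (C.node (nat_lit 2) (nat_lit 3) (nat_lit 10) (C.cons (nat_lit 1038) (C.node (nat_lit 2) (nat_lit 4) (nat_lit 10) (C.cons (nat_lit 1076) (C.miq (nat_lit 1511604784) (nat_lit 1859338259493596554907551773)) (C.cons (nat_lit 1044) (C.node (nat_lit 2) (nat_lit 7) (nat_lit 11) (C.cons (nat_lit 2182) (C.miq (nat_lit 1461324579) (nat_lit 1415671781190971258003392541)) (C.cons (nat_lit 2180) (C.node (nat_lit 1) (nat_lit 2) (nat_lit 7) (C.cons (nat_lit 198) (C.miq (nat_lit 829792864) (nat_lit 195865628852180303353021509)) (C.cons (nat_lit 134) (C.node (nat_lit 2) (nat_lit 3) (nat_lit 5) (C.cons (nat_lit 364) (C.miq (nat_lit 1126856032) (nat_lit 1254886601949088356384442593)) (C.cons (nat_lit 300) (C.miq (nat_lit 391644210) (nat_lit 502917992782985110311667741)) (C.cons (nat_lit 108) (C.miq (nat_lit 1126856032)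 (nat_lit 1254886601949087256872814817)) (C.cons (nat_lit 44) (C.node (nat_lit 5) (nat_lit 8) (nat_lit 9) (C.cons (nat_lit 868) (C.miq (nat_lit 391252632) (nat_lit 198268686240105052313489153)) (C.cons (nat_lit 866) (C.miq (nat_lit 1196821144) (nat_lit 2747894604866419436275502849)) (C.cons (nat_lit 864) (C.miq (nat_lit 1196821144) (nat_lit 2747894604866419436275371777)) (C.cons (nat_lit 804) (C.miq (nat_lit 391252632) (nat_lit 198268686240105052309294849)) (C.cons (nat_lit 802) (C.miq (nat_lit 305496249) (nat_lit 53207530425827638439841537)) (C.cons (nat_lit 800) (C.node (nat_lit 1) (nat_lit 3) (nat_lit 7) (C.cons (nat_lit 202) (C.node (nat_lit 2) (nat_lit 3) (nat_lit 7) (C.cons (nat_lit 140) (C.node (nat_lit 2) (nat_lit 6) (nat_lit 7) C.nil) C.nil)) (C.cons (nat_lit 138) (C.node (nat_lit 4) (nat_lit 5) (nat_lit 10) C.nil) C.nil))) C.nil))))))) C.nil))))) C.nil))) C.nil))) C.nil))) (C.cons (nat_lit 1036) (C.node (nat_lit 2) (nat_lit 4) (nat_lit 10)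 (C.cons (nat_lit 1076) (C.node (nat_lit 1) (nat_lit 2) (nat_lit 10) (C.cons (nat_lit 3078) (C.miq (nat_lit 2275476402) (nat_lit 1415656986373055593497102365)) (C.cons (nat_lit 1030) (C.node (nat_lit 2) (nat_lit 10) (nat_lit 11) (C.cons (nat_lit 3076) (C.node (nat_lit 2) (nat_lit 4) (nat_lit 8) (C.cons (nat_lit 788) (C.node (nat_lit 7) (nat_lit 8) (nat_lit 9) (C.cons (nat_lit 962) (C.miq (nat_lit 611388312) (nat_lit 1415656986847057289475657473))
  (C.cons (nat_lit 960) (C.miq (nat_lit 1749776672) (nat_lit 2804749831225438589341729413)) (C.cons (nat_lit 898) (C.miq (nat_lit 611388312) (nat_lit 1415656986847057289471463169)) (C.cons (nat_lit 896) (C.node (nat_lit 1) (nat_lit 2) (nat_lit 4) (C.cons (nat_lit 86) (C.node (nat_lit 1) (nat_lit 4) (nat_lit 9) C.nil) C.nil)) C.nil))))) (C.cons (nat_lit 276) (C.node (nat_lit 3) (nat_lit 4) (nat_lit 10) (C.cons (nat_lit 1624) (C.node (nat_lit 3) (nat_lit 7) (nat_lit 9) (C.cons (nat_lit 648) (C.node (nat_lit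 1) (nat_lit 3) (nat_lit 4) (C.cons (nat_lit 26) (C.node (nat_lit 3) (nat_lit 4) (nat_lit 8) (C.cons (nat_lit 280) (C.node (nat_lit 2) (nat_lit 4) (nat_lit 6) C.nil) C.nil)) C.nil)) C.nil)) (C.cons (nat_lit 1048) (C.miq (nat_lit 2587129099) (nat_lit 1267004139429492820497205473)) C.nil))) C.nil))) C.nil)) C.nil))) (C.cons (nat_lit 1044) (C.node (nat_lit 2) (nat_lit 7) (nat_lit 11) (C.cons (nat_lit 2182) (C.node (nat_lit 7) (nat_lit 8) (nat_lit 11) (C.cons (nat_lit 2432) (C.node (nat_lit 2) (nat_lit 9) (nat_lit 11) (C.cons (nat_lit 2628) (C.miq (nat_lit 975786091) (nat_lit 1861793724040896118650046689)) (C.cons (nat_lit 2564) (C.node (nat_lit 2) (nat_lit 6) (nat_lit 11) (C.cons (nat_lit 2372) (C.miq (nat_lit 1093142454) (nat_lit 317953707441016882568890593)) (C.cons (nat_lit 2116) (C.node (nat_lit 1) (nat_lit 7) (nat_lit 8) (C.cons (nat_lit 962) (C.miq (nat_lit 1192409472) (nat_lit 2637914453047674422748974849)) (C.cons (nat_lit 898) (C.miq (nat_lit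 1192409472) (nat_lit 2637914453047674147871067905)) (C.cons (nat_lit 450) (C.miq (nat_lit 1108872054) (nat_lit 317953707696033211342784737)) (C.cons (nat_lit 386) (C.node (nat_lit 1) (nat_lit 2) (nat_lit 10) (C.cons (nat_lit 1062) (C.node (nat_lit 2) (nat_lit 10) (nat_lit 11) (C.cons (nat_lit 3076) (C.node (nat_lit 1) (nat_lit 3) (nat_lit 7) C.nil) C.nil)) (C.cons (nat_lit 1030) (C.node (nat_lit 2) (nat_lit 3) (nat_lit 7) (C.cons (nat_lit 204) (C.node (nat_lit 1) (nat_lit 2) (nat_lit 3) C.nil) C.nil)) C.nil))) C.nil))))) C.nil))) C.nil))) C.nil)) (C.cons (nat_lit 2180) (C.node (nat_lit 1) (nat_lit 7) (nat_lit 11) (C.cons (nat_lit 2434) (C.node (nat_lit 3) (nat_lit 8) (nat_lit 11) (C.cons (nat_lit 2376) (C.miq (nat_lit 1683194011) (nat_lit 222486180367870378839117569)) (C.cons (nat_lit 2312) (C.node (nat_lit 6) (nat_lit 8) (nat_lit 11) (C.cons (nat_lit 2372) (C.miq (nat_lit 405437280) (nat_lit 1707024859118286989617858785)) (C.cons (nat_lit 2368) (C.node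 (nat_lit 1) (nat_lit 2) (nat_lit 7) (C.cons (nat_lit 206) (C.miq (nat_lit 2819754870) (nat_lit 317967653931075876997171425)) (C.cons (nat_lit 198) (C.miq (nat_lit 2819754870) (nat_lit 317967653931075876996647137)) (C.cons (nat_lit 142) (C.miq (nat_lit 2803413792) (nat_lit 2942596299788966864812967965)) (C.cons (nat_lit 134) (C.node (nat_lit 1) (nat_lit 3) (nat_lit 7) (C.cons (nat_lit 202) (C.node (nat_lit 1) (nat_lit 3) (nat_lit 11) C.nil) (C.cons (nat_lit 138) (C.node (nat_lit 3) (nat_lit 4) (nat_lit 10) (C.cons (nat_lit 1048) (C.miq (nat_lit 2587129099) (nat_lit 1267004139429492820497205473)) C.nil)) C.nil))) C.nil))))) C.nil))) C.nil))) (C.cons (nat_lit 2178) (C.node (nat_lit 7) (nat_lit 8) (nat_lit 11) (C.cons (nat_lit 2432) (C.node (nat_lit 3) (nat_lit 4) (nat_lit 10) (C.cons (nat_lit 1048) (C.miq (nat_lit 2587129099) (nat_lit 1267004139429492820497205473)) C.nil)) C.nil)) C.nil))) C.nil))) C.nil))) C.nil))) C.nil))) C.nil)) C.nil))) C.nil)))))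 C.nil)))) C.nil))) (C.cons (nat_lit 1156) (C.node (nat_lit 7) (nat_lit 8) (nat_lit 10) (C.cons (nat_lit 1408) (C.node (nat_lit 3) (nat_lit 7) (nat_lit 9) (C.cons (nat_lit 712) (C.node (nat_lit 1) (nat_lit 3) (nat_lit 7) (C.cons (nat_lit 142) (C.miq (nat_lit 2322664242) (nat_lit 1415656987343581313003030557)) (C.cons (nat_lit 138) (C.node (nat_lit 2) (nat_lit 3) (nat_lit 7) (C.cons (nat_lit 140) (C.node (nat_lit 1) (nat_lit 7) (nat_lit 9) (C.cons (nat_lit 898) (C.miq (nat_lit 611388312) (nat_lit 1415656986847057289471463169)) (C.cons (nat_lit 642)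
  (C.node (nat_lit 7) (nat_lit 8) (nat_lit 9) (C.cons (nat_lit 896) (C.node (nat_lit 3) (nat_lit 4) (nat_lit 9) (C.cons (nat_lit 1560) (C.node (nat_lit 2) (nat_lit 3) (nat_lit 9) (C.cons (nat_lit 780) (C.miq (nat_lit 338823832) (nat_lit 2510943779162890079405084417)) (C.cons (nat_lit 524) (C.node (nat_lit 3) (nat_lit 8) (nat_lit 9) (C.cons (nat_lit 776) (C.node (nat_lit 2) (nat_lit 9) (nat_lit 10) (C.cons (nat_lit 1542) (C.node (nat_lit 2) (nat_lit 6) (nat_lit 7) (C.cons (nat_lit 452) (C.miq (nat_lit 1762816776) (nat_lit 1864171951974491933817373065)) (C.cons (nat_lit 198) (C.miq (nat_lit 3105294886) (nat_lit 776172306723023480370365509)) C.nil))) (C.cons (nat_lit 1540) (C.node (nat_lit 1) (nat_lit 9) (nat_lit 10) (C.cons (nat_lit 1602) (C.node (nat_lit 6) (nat_lit 10) (nat_lit 11) (C.cons (nat_lit 3136) (C.node (nat_lit 3) (nat_lit 4) (nat_lit 6) (C.cons (nat_lit 90) (C.miq (nat_lit 3110275604) (nat_lit 860793498534209333218641043)) (C.cons (nat_lit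 88) (C.node (nat_lit 1) (nat_lit 3) (nat_lit 4) (C.cons (nat_lit 282) (C.node (nat_lit 1) (nat_lit 4) (nat_lit 9) C.nil) C.nil)) C.nil))) C.nil)) (C.cons (nat_lit 1538) (C.node (nat_lit 6) (nat_lit 9) (nat_lit 10) C.nil) C.nil))) C.nil))) C.nil)) C.nil))) (C.cons (nat_lit 792) (C.miq (nat_lit 1697909656) (nat_lit 222448568001648397295030017)) (C.cons (nat_lit 536) (C.miq (nat_lit 2739490999) (nat_lit 648015525291170020063185121)) C.nil)))) C.nil)) C.nil))) C.nil)) C.nil))) (C.cons (nat_lit 648) (C.node (nat_lit 6) (nat_lit 10) (nat_lit 11) (C.cons (nat_lit 3138) (C.node (nat_lit 1) (nat_lit 9) (nat_lit 10) (C.cons (nat_lit 1542) (C.miq (nat_lit 427532806) (nat_lit 3268993302554897773469172805)) (C.cons (nat_lit 1538) (C.node (nat_lit 3) (nat_lit 6) (nat_lit 11) (C.cons (nat_lit 2376) (C.miq (nat_lit 1683194011) (nat_lit 222486180367870378839117569)) (C.cons (nat_lit 2120) (C.node (nat_lit 6) (nat_lit 9) (nat_lit 11) (C.cons (nat_lit 2628) (C.miq (nat_lit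 1784225851) (nat_lit 2050386668417493512858634269)) (C.cons (nat_lit 2624) (C.node (nat_lit 2) (nat_lit 9) (nat_lit 10) (C.cons (nat_lit 1556) (C.miq (nat_lit 1732381594) (nat_lit 178941184234041918153297665)) (C.cons (nat_lit 1548) (C.miq (nat_lit 1235466064) (nat_lit 1871455483412002678543812833)) (C.cons (nat_lit 1540) (C.node (nat_lit 1) (nat_lit 3) (nat_lit 7) (C.cons (nat_lit 206) (C.miq (nat_lit 698446006) (nat_lit 1859331710778146712019142881)) (C.cons (nat_lit 202) (C.miq (nat_lit 2338523671) (nat_lit 2562929988234593681397122195)) (C.cons (nat_lit 142) (C.miq (nat_lit 2322664242) (nat_lit 1415656987343581313003030557)) (C.cons (nat_lit 138) (C.node (nat_lit 1) (nat_lit 3) (nat_lit 11) (C.cons (nat_lit 2314) (C.node (nat_lit 1) (nat_lit 9) (nat_lit 11) (C.cons (nat_lit 2566) (C.miq (nat_lit 557292416) (nat_lit 166843661979021097589870337)) (C.cons (nat_lit 2562) (C.node (nat_lit 2) (nat_lit 9) (nat_lit 11) (C.cons (nat_lit 2564) (C.node (nat_lit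 1) (nat_lit 7) (nat_lit 11) (C.cons (nat_lit 2178) (C.node (nat_lit 2) (nat_lit 7) (nat_lit 11) C.nil) C.nil)) C.nil)) C.nil))) (C.cons (nat_lit 2058) (C.node (nat_lit 3) (nat_lit 8) (nat_lit 11) (C.cons (nat_lit 2312) (C.node (nat_lit 1) (nat_lit 9) (nat_lit 11) (C.cons (nat_lit 2566) (C.node (nat_lit 1) (nat_lit 7) (nat_lit 11) (C.cons (nat_lit 2178) (C.node (nat_lit 2) (nat_lit 7) (nat_lit 11) C.nil) C.nil)) (C.cons (nat_lit 2562) (C.node (nat_lit 2) (nat_lit 9) (nat_lit 11) (C.cons (nat_lit 2564) (C.node (nat_lit 2) (nat_lit 6) (nat_lit 11) (C.cons (nat_lit 2372) (C.node (nat_lit 2) (nat_lit 7) (nat_lit 11) C.nil) C.nil)) C.nil)) C.nil))) C.nil)) C.nil))) C.nil))))) C.nil)))) C.nil))) C.nil))) C.nil))) (C.cons (nat_lit 3136) (C.node (nat_lit 1) (nat_lit 3) (nat_lit 7) (C.cons (nat_lit 206) (C.miq (nat_lit 2322664242) (nat_lit 1415656987343581313007224861)) (C.cons (nat_lit 202) (C.node (nat_lit 2) (nat_lit 3) (nat_lit 7) (C.cons (nat_lit 140)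 (C.node (nat_lit 1) (nat_lit 7) (nat_lit 9) (C.cons (nat_lit 898) (C.miq (nat_lit 611388312) (nat_lit 1415656986847057289471463169))
  (C.cons (nat_lit 642) (C.node (nat_lit 3) (nat_lit 6) (nat_lit 11) (C.cons (nat_lit 2376) (C.miq (nat_lit 1683194011) (nat_lit 222486180367870378839117569)) (C.cons (nat_lit 2120) (C.node (nat_lit 6) (nat_lit 9) (nat_lit 11) (C.cons (nat_lit 2630) (C.miq (nat_lit 2299726695) (nat_lit 632275454310028707547973857)) (C.cons (nat_lit 2628) (C.miq (nat_lit 1784225851) (nat_lit 2050386668417493512858634269)) (C.cons (nat_lit 2626) (C.miq (nat_lit 2299726695) (nat_lit 632275454310028690368104673)) (C.cons (nat_lit 2624) (C.node (nat_lit 1) (nat_lit 3) (nat_lit 4) (C.cons (nat_lit 282) (C.node (nat_lit 1) (nat_lit 3) (nat_lit 11) (C.cons (nat_lit 2058) (C.node (nat_lit 3) (nat_lit 8) (nat_lit 11) (C.cons (nat_lit 2312) (C.node (nat_lit 2) (nat_lit 6) (nat_lit 7) (C.cons (nat_lit 452) (C.node (nat_lit 6) (nat_lit 7) (nat_lit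 9) C.nil) C.nil)) C.nil)) C.nil)) (C.cons (nat_lit 26) (C.node (nat_lit 3) (nat_lit 4) (nat_lit 8) (C.cons (nat_lit 1304) (C.miq (nat_lit 1731464104) (nat_lit 222448568001651008668700417)) (C.cons (nat_lit 792) (C.miq (nat_lit 1697909656) (nat_lit 222448568001648397295030017)) (C.cons (nat_lit 280) (C.node (nat_lit 1) (nat_lit 3) (nat_lit 11) (C.cons (nat_lit 2314) (C.node (nat_lit 7) (nat_lit 8) (nat_lit 11) (C.cons (nat_lit 2436) (C.miq (nat_lit 2274472451) (nat_lit 776173062644054307619145757)) C.nil)) (C.cons (nat_lit 2058) (C.node (nat_lit 3) (nat_lit 8) (nat_lit 11) (C.cons (nat_lit 2312) (C.node (nat_lit 1) (nat_lit 2) (nat_lit 3) C.nil) C.nil)) C.nil))) C.nil)))) C.nil))) C.nil))))) C.nil))) C.nil))) C.nil)) (C.cons (nat_lit 142) (C.miq (nat_lit 2322664242) (nat_lit 1415656987343581313003030557)) (C.cons (nat_lit 138) (C.node (nat_lit 2) (nat_lit 3) (nat_lit 7) (C.cons (nat_lit 204) (C.node (nat_lit 2) (nat_lit 3) (nat_lit 9) (C.cons (nat_lit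 1548) (C.miq (nat_lit 1395046816) (nat_lit 246662797382505481579597569)) (C.cons (nat_lit 780) (C.node (nat_lit 2) (nat_lit 9) (nat_lit 11) (C.cons (nat_lit 2630) (C.miq (nat_lit 2727544501) (nat_lit 942981785389512702422419681)) (C.cons (nat_lit 2628) (C.miq (nat_lit 2727544501) (nat_lit 942981785389512693832485089)) (C.cons (nat_lit 2566) (C.miq (nat_lit 1804759171) (nat_lit 3102107416906738618128400777)) (C.cons (nat_lit 2564) (C.miq (nat_lit 1804759171) (nat_lit 3099689565267509359778988425)) C.nil))))) (C.cons (nat_lit 524) (C.node (nat_lit 2) (nat_lit 3) (nat_lit 8) (C.cons (nat_lit 1292) (C.miq (nat_lit 3123054647) (nat_lit 1321397851369220164421419401)) (C.cons (nat_lit 300) (C.node (nat_lit 2) (nat_lit 5) (nat_lit 7) (C.cons (nat_lit 166) (C.miq (nat_lit 2171936835) (nat_lit 200687220153283504160376861)) (C.cons (nat_lit 164) (C.node (nat_lit 1) (nat_lit 5) (nat_lit 7) (C.cons (nat_lit 418) (C.node (nat_lit 5) (nat_lit 8) (nat_lit 11) (C.cons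 (nat_lit 2336) (C.node (nat_lit 5) (nat_lit 8) (nat_lit 9) (C.cons (nat_lit 864) (C.miq (nat_lit 1196821144) (nat_lit 2747894604866419436275371777)) (C.cons (nat_lit 800) (C.node (nat_lit 3) (nat_lit 4) (nat_lit 8) (C.cons (nat_lit 1304) (C.miq (nat_lit 1731464104) (nat_lit 222448568001651008668700417)) (C.cons (nat_lit 792) (C.miq (nat_lit 1697909656) (nat_lit 222448568001648397295030017)) (C.cons (nat_lit 282) (C.miq (nat_lit 3045263124) (nat_lit 362716060411624264528692371)) (C.cons (nat_lit 280) (C.node (nat_lit 1) (nat_lit 2) (nat_lit 3) (C.cons (nat_lit 1038) (C.node (nat_lit 1) (nat_lit 2) (nat_lit 7) (C.cons (nat_lit 2182) (C.miq (nat_lit 1461324579) (nat_lit 1415671781190971258003392541)) (C.cons (nat_lit 134) (C.node (nat_lit 1) (nat_lit 7) (nat_lit 11) C.nil) C.nil))) (C.cons (nat_lit 14) (C.node (nat_lit 2) (nat_lit 3) (nat_lit 10) (C.cons (nat_lit 1036) (C.node (nat_lit 1) (nat_lit 2) (nat_lit 7) (C.cons (nat_lit 2182) (C.node (nat_lit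 2) (nat_lit 7) (nat_lit 8) (C.cons (nat_lit 388) (C.node (nat_lit 7) (nat_lit 8) (nat_lit 11) C.nil) C.nil)) (C.cons (nat_lit 134) (C.node (nat_lit 1) (nat_lit 7) (nat_lit 11) C.nil) C.nil))) C.nil)) C.nil))) C.nil))))) C.nil))) C.nil)) (C.cons (nat_lit 162)
  (C.miq (nat_lit 2171936835) (nat_lit 195851516874824987461552157)) C.nil))) C.nil))) (C.cons (nat_lit 268) (C.node (nat_lit 2) (nat_lit 3) (nat_lit 5) (C.cons (nat_lit 46) (C.node (nat_lit 2) (nat_lit 3) (nat_lit 10) (C.cons (nat_lit 1036) (C.node (nat_lit 1) (nat_lit 5) (nat_lit 7) (C.cons (nat_lit 418) (C.miq (nat_lit 2501423904) (nat_lit 505401847274737250448377885)) (C.cons (nat_lit 162) (C.node (nat_lit 2) (nat_lit 5) (nat_lit 7) (C.cons (nat_lit 420) (C.miq (nat_lit 3039335184) (nat_lit 507819698913966508797788683)) (C.cons (nat_lit 164) (C.node (nat_lit 5) (nat_lit 7) (nat_lit 8) C.nil) C.nil))) C.nil))) C.nil)) (C.cons (nat_lit 44) (C.node (nat_lit 1) (nat_lit 2) (nat_lit 3) (C.cons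 (nat_lit 1038) (C.node (nat_lit 2) (nat_lit 9) (nat_lit 10) (C.cons (nat_lit 1556) (C.miq (nat_lit 1732381594) (nat_lit 178941184234041918153297665)) (C.cons (nat_lit 1540) (C.node (nat_lit 3) (nat_lit 8) (nat_lit 10) (C.cons (nat_lit 1352) (C.miq (nat_lit 2590115895) (nat_lit 1321367820069868422969426313)) (C.cons (nat_lit 1304) (C.miq (nat_lit 1731464104) (nat_lit 222448568001651008668700417)) (C.cons (nat_lit 1288) (C.node (nat_lit 3) (nat_lit 4) (nat_lit 8) (C.cons (nat_lit 792) (C.miq (nat_lit 1697909656) (nat_lit 222448568001648397295030017)) (C.cons (nat_lit 282) (C.miq (nat_lit 1647839764) (nat_lit 323998336517130066679432339)) (C.cons (nat_lit 280) (C.node (nat_lit 3) (nat_lit 4) (nat_lit 9) (C.cons (nat_lit 1624) (C.miq (nat_lit 1663584784) (nat_lit 323998336666593279311545491)) (C.cons (nat_lit 536) (C.miq (nat_lit 2739490999) (nat_lit 648015525291170020063185121)) C.nil))) C.nil)))) C.nil)))) C.nil))) (C.cons (nat_lit 14) (C.node (nat_lit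 2) (nat_lit 3) (nat_lit 10) (C.cons (nat_lit 1036) (C.node (nat_lit 1) (nat_lit 5) (nat_lit 7) (C.cons (nat_lit 418) (C.miq (nat_lit 2184515655) (nat_lit 53200446876103333813683347)) (C.cons (nat_lit 166) (C.node (nat_lit 5) (nat_lit 7) (nat_lit 8) (C.cons (nat_lit 416) (C.node (nat_lit 1) (nat_lit 2) (nat_lit 10) (C.cons (nat_lit 3078) (C.miq (nat_lit 2275476402) (nat_lit 1415656986373055593497102365)) (C.cons (nat_lit 1542) (C.miq (nat_lit 632887050) (nat_lit 3143235575924132123211007123)) (C.cons (nat_lit 1030) (C.node (nat_lit 2) (nat_lit 7) (nat_lit 8) (C.cons (nat_lit 2436) (C.node (nat_lit 2) (nat_lit 5) (nat_lit 11) C.nil) C.nil)) C.nil)))) C.nil)) (C.cons (nat_lit 162) (C.node (nat_lit 5) (nat_lit 8) (nat_lit 9) (C.cons (nat_lit 868) (C.miq (nat_lit 561348777) (nat_lit 195861994625458854585962241)) (C.cons (nat_lit 866) (C.miq (nat_lit 1196821144) (nat_lit 2747894604866419436275502849)) (C.cons (nat_lit 864) (C.miq (nat_lit 1196821144) (nat_lit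 2747894604866419436275371777)) (C.cons (nat_lit 804) (C.miq (nat_lit 561348777) (nat_lit 195860814033838137174658817)) (C.cons (nat_lit 802) (C.miq (nat_lit 305496249) (nat_lit 53207530425827638439841537)) (C.cons (nat_lit 800) (C.node (nat_lit 1) (nat_lit 2) (nat_lit 7) (C.cons (nat_lit 2182) (C.node (nat_lit 7) (nat_lit 8) (nat_lit 11) (C.cons (nat_lit 2432) (C.node (nat_lit 1) (nat_lit 3) (nat_lit 4) C.nil) C.nil)) (C.cons (nat_lit 134) (C.node (nat_lit 1) (nat_lit 3) (nat_lit 4) C.nil) C.nil))) C.nil))))))) C.nil)))) C.nil)) C.nil))) C.nil))) C.nil)))) C.nil)))) (C.cons (nat_lit 140) (C.node (nat_lit 3) (nat_lit 6) (nat_lit 7) (C.cons (nat_lit 200) (C.node (nat_lit 7) (nat_lit 8) (nat_lit 9) (C.cons (nat_lit 962) (C.miq (nat_lit 611388312) (nat_lit 1415656986847057289475657473)) (C.cons (nat_lit 960) (C.node (nat_lit 1) (nat_lit 7) (nat_lit 9) C.nil) (C.cons (nat_lit 898) (C.miq (nat_lit 611388312) (nat_lit 1415656986847057289471463169)) C.nil))))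 C.nil)) C.nil))) C.nil))))) C.nil))) C.nil))) C.nil)) C.nil))) C.nil)) C.nil))) C.nil))) (C.cons (nat_lit 1664) (C.miq (nat_lit 1519857844) (nat_lit 2011655958339439856612018205)) C.nil)))) (C.cons (nat_lit 2568) (C.miq (nat_lit 1404635764) (nat_lit 3104531853693577700333061267)) C.nil)))) (C.cons (nat_lit 2186) (C.miq (nat_lit 2876442949) (nat_lit 2642731488541174875729429041))
  (C.cons (nat_lit 2184) (C.miq (nat_lit 2876442949) (nat_lit 2640313636901945617380016689)) C.nil)))) (C.cons (nat_lit 152) (C.node (nat_lit 3) (nat_lit 7) (nat_lit 11) (C.cons (nat_lit 3208) (C.miq (nat_lit 1400113849) (nat_lit 183767073504633614242942721)) (C.cons (nat_lit 2186) (C.node (nat_lit 3) (nat_lit 10) (nat_lit 11) (C.cons (nat_lit 3144) (C.node (nat_lit 3) (nat_lit 9) (nat_lit 11) (C.cons (nat_lit 2600) (C.miq (nat_lit 1094256565) (nat_lit 632278552611492996126869729)) (C.cons (nat_lit 2568) (C.node (nat_lit 3) (nat_lit 5) (nat_lit 11) (C.cons (nat_lit 2344) (C.node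 (nat_lit 1) (nat_lit 3) (nat_lit 10) (C.cons (nat_lit 1290) (C.miq (nat_lit 1394063520) (nat_lit 2642753771786641803712859905)) (C.cons (nat_lit 1038) (C.miq (nat_lit 1729760050) (nat_lit 1415672297699805339050706973)) (C.cons (nat_lit 1034) (C.node (nat_lit 3) (nat_lit 4) (nat_lit 10) (C.cons (nat_lit 1560) (C.miq (nat_lit 1464011674) (nat_lit 183776371003666370984939265)) (C.cons (nat_lit 1304) (C.miq (nat_lit 1397209248) (nat_lit 183798654690486122490040065)) (C.cons (nat_lit 1048) (C.node (nat_lit 3) (nat_lit 8) (nat_lit 10) (C.cons (nat_lit 1292) (C.miq (nat_lit 1344845475) (nat_lit 317990730366553564683963464)) (C.cons (nat_lit 1288) (C.node (nat_lit 1) (nat_lit 7) (nat_lit 8) (C.cons (nat_lit 962) (C.miq (nat_lit 611388312) (nat_lit 1415656986847057289475657473)) (C.cons (nat_lit 930) (C.miq (nat_lit 611388312) (nat_lit 1415656986847057289473560321)) (C.cons (nat_lit 898) (C.miq (nat_lit 611388312) (nat_lit 1415656986847057289471463169)) (C.cons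 (nat_lit 450) (C.miq (nat_lit 1639221040) (nat_lit 2497646960003249843516277129)) (C.cons (nat_lit 418) (C.miq (nat_lit 364148784) (nat_lit 2533930119167239671873601929)) (C.cons (nat_lit 386) (C.node (nat_lit 1) (nat_lit 8) (nat_lit 11) (C.cons (nat_lit 2370) (C.node (nat_lit 1) (nat_lit 3) (nat_lit 8) (C.cons (nat_lit 282) (C.miq (nat_lit 1904653120) (nat_lit 2865196122551256196156819485)) (C.cons (nat_lit 266) (C.node (nat_lit 1) (nat_lit 8) (nat_lit 10) (C.cons (nat_lit 1314) (C.miq (nat_lit 414491952) (nat_lit 2804729503013118186140533801)) (C.cons (nat_lit 1282) (C.node (nat_lit 2) (nat_lit 6) (nat_lit 11) (C.cons (nat_lit 2628) (C.miq (nat_lit 1265269024) (nat_lit 3800884378766824063432458885)) (C.cons (nat_lit 2116) (C.node (nat_lit 6) (nat_lit 9) (nat_lit 11) (C.cons (nat_lit 2624) (C.node (nat_lit 3) (nat_lit 4) (nat_lit 5) (C.cons (nat_lit 122) (C.miq (nat_lit 2587102053) (nat_lit 1266964608660715615081335009)) (C.cons (nat_lit 120) (C.miq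 (nat_lit 2587102053) (nat_lit 1266964608660715615081203937)) (C.cons (nat_lit 58) (C.miq (nat_lit 1369977867) (nat_lit 1549886139930393955469953053)) (C.cons (nat_lit 56) (C.node (nat_lit 1) (nat_lit 3) (nat_lit 4) (C.cons (nat_lit 90) (C.node (nat_lit 1) (nat_lit 6) (nat_lit 7) (C.cons (nat_lit 706) (C.miq (nat_lit 660867347) (nat_lit 251494884548838355308773899)) (C.cons (nat_lit 198) (C.miq (nat_lit 2551319399) (nat_lit 317959389789730580239616225)) (C.cons (nat_lit 194) (C.node (nat_lit 1) (nat_lit 7) (nat_lit 9) (C.cons (nat_lit 674) (C.miq (nat_lit 1125714805) (nat_lit 632278552866509324900501729)) (C.cons (nat_lit 642) (C.node (nat_lit 1) (nat_lit 2) (nat_lit 3) (C.cons (nat_lit 46) (C.node (nat_lit 1) (nat_lit 2) (nat_lit 11) C.nil) (C.cons (nat_lit 14) (C.node (nat_lit 1) (nat_lit 3) (nat_lit 5) C.nil) C.nil))) C.nil))) C.nil)))) (C.cons (nat_lit 26) (C.node (nat_lit 1) (nat_lit 3) (nat_lit 6) (C.cons (nat_lit 110) (C.miq (nat_lit 2168108624)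 (nat_lit 1250100152092609852354398433)) (C.cons (nat_lit 106) (C.miq (nat_lit 2168108624) (nat_lit 1250100152092609835174529249)) (C.cons (nat_lit 78) (C.miq (nat_lit 2786636576) (nat_lit 2865225047315615924244383773)) (C.cons (nat_lit 74) (C.node (nat_lit 1) (nat_lit 2) (nat_lit 3) (C.cons (nat_lit 14) (C.node (nat_lit 1) (nat_lit 3) (nat_lit 5) C.nil) C.nil)) C.nil))))) C.nil))) C.nil))))) C.nil)) C.nil))) C.nil))) C.nil))) (C.cons (nat_lit 2306) (C.node (nat_lit 6) (nat_lit 8) (nat_lit 11)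
  (C.cons (nat_lit 2372) (C.miq (nat_lit 674917200) (nat_lit 1557116618622583653792286945)) (C.cons (nat_lit 2368) (C.node (nat_lit 2) (nat_lit 8) (nat_lit 11) (C.cons (nat_lit 2436) (C.node (nat_lit 7) (nat_lit 10) (nat_lit 11) (C.cons (nat_lit 3200) (C.node (nat_lit 2) (nat_lit 4) (nat_lit 7) (C.cons (nat_lit 180) (C.miq (nat_lit 1350715831) (nat_lit 317950811130504699730725520)) (C.cons (nat_lit 148) (C.node (nat_lit 5) (nat_lit 10) (nat_lit 11) (C.cons (nat_lit 3110) (C.miq (nat_lit 1399961610) (nat_lit 2642769211711427646021897985)) (C.cons (nat_lit 3108) (C.miq (nat_lit 708359431) (nat_lit 1557141392807034735271938273)) (C.cons (nat_lit 3106) (C.miq (nat_lit 1399961610) (nat_lit 2642769137924451351183691521)) (C.cons (nat_lit 3104) (C.node (nat_lit 1) (nat_lit 10) (nat_lit 11) (C.cons (nat_lit 3074) (C.node (nat_lit 2) (nat_lit 10) (nat_lit 11) C.nil) C.nil)) C.nil))))) C.nil))) C.nil)) (C.cons (nat_lit 2308) (C.node (nat_lit 7) (nat_lit 8)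 (nat_lit 11) (C.cons (nat_lit 2432) (C.node (nat_lit 2) (nat_lit 7) (nat_lit 11) (C.cons (nat_lit 3204) (C.node (nat_lit 1) (nat_lit 10) (nat_lit 11) (C.cons (nat_lit 3074) (C.node (nat_lit 5) (nat_lit 10) (nat_lit 11) C.nil) C.nil)) (C.cons (nat_lit 2180) (C.node (nat_lit 7) (nat_lit 10) (nat_lit 11) C.nil) C.nil))) C.nil)) C.nil))) C.nil))) C.nil))) C.nil))))))) C.nil))) C.nil)))) C.nil)))) (C.cons (nat_lit 2088) (C.node (nat_lit 3) (nat_lit 8) (nat_lit 11) (C.cons (nat_lit 2312) (C.node (nat_lit 7) (nat_lit 8) (nat_lit 11) (C.cons (nat_lit 2436) (C.node (nat_lit 7) (nat_lit 10) (nat_lit 11) (C.cons (nat_lit 3200) (C.node (nat_lit 2) (nat_lit 4) (nat_lit 7) (C.cons (nat_lit 180) (C.miq (nat_lit 1350715831) (nat_lit 317950811130504699730725520)) (C.cons (nat_lit 148) (C.node (nat_lit 4) (nat_lit 5) (nat_lit 7) (C.cons (nat_lit 432) (C.node (nat_lit 1) (nat_lit 7) (nat_lit 8) (C.cons (nat_lit 962) (C.miq (nat_lit 611388312) (nat_lit 1415656986847057289475657473))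 (C.cons (nat_lit 898) (C.miq (nat_lit 611388312) (nat_lit 1415656986847057289471463169)) (C.cons (nat_lit 450) (C.miq (nat_lit 1639221040) (nat_lit 2497646960003249843516277129)) (C.cons (nat_lit 386) (C.node (nat_lit 5) (nat_lit 8) (nat_lit 11) (C.cons (nat_lit 2338) (C.node (nat_lit 6) (nat_lit 8) (nat_lit 11) (C.cons (nat_lit 2368) (C.node (nat_lit 1) (nat_lit 10) (nat_lit 11) (C.cons (nat_lit 3074) (C.node (nat_lit 2) (nat_lit 10) (nat_lit 11) C.nil) C.nil)) C.nil)) (C.cons (nat_lit 2336) (C.node (nat_lit 1) (nat_lit 8) (nat_lit 11) (C.cons (nat_lit 2370) (C.node (nat_lit 2) (nat_lit 6) (nat_lit 11) (C.cons (nat_lit 2116) (C.node (nat_lit 6) (nat_lit 9) (nat_lit 11) C.nil) C.nil)) (C.cons (nat_lit 2306) (C.node (nat_lit 6) (nat_lit 8) (nat_lit 11) C.nil) C.nil))) C.nil))) C.nil))))) (C.cons (nat_lit 176) (C.node (nat_lit 4) (nat_lit 7) (nat_lit 8) (C.cons (nat_lit 400) (C.node (nat_lit 5) (nat_lit 8) (nat_lit 11) (C.cons (nat_lit 2338) (C.node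 (nat_lit 6) (nat_lit 8) (nat_lit 11) (C.cons (nat_lit 2368) (C.node (nat_lit 1) (nat_lit 10) (nat_lit 11) (C.cons (nat_lit 3074) (C.node (nat_lit 2) (nat_lit 10) (nat_lit 11) C.nil) C.nil)) C.nil)) (C.cons (nat_lit 2336) (C.node (nat_lit 1) (nat_lit 8) (nat_lit 11) (C.cons (nat_lit 2370) (C.node (nat_lit 2) (nat_lit 6) (nat_lit 11) (C.cons (nat_lit 2116) (C.node (nat_lit 6) (nat_lit 9) (nat_lit 11) C.nil) C.nil)) (C.cons (nat_lit 2306) (C.node (nat_lit 6) (nat_lit 8) (nat_lit 11) C.nil) C.nil))) C.nil))) C.nil)) C.nil))) C.nil))) C.nil)) (C.cons (nat_lit 2432) (C.node (nat_lit 2) (nat_lit 7) (nat_lit 11) (C.cons (nat_lit 3204) (C.node (nat_lit 6) (nat_lit 7) (nat_lit 10) (C.cons (nat_lit 1728) (C.miq (nat_lit 611715994) (nat_lit 251476733355750573211651841)) (C.cons (nat_lit 1472) (C.miq (nat_lit 660912768) (nat_lit 251494885269136110672482049)) (C.cons (nat_lit 1216) (C.node (nat_lit 1) (nat_lit 10) (nat_lit 11) (C.cons (nat_lit 3106) (C.node (nat_lit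 5) (nat_lit 9) (nat_lit 11) (C.cons (nat_lit 2596) (C.miq (nat_lit 1537512048) (nat_lit 3733173280324123043243950725))
  (C.cons (nat_lit 2592) (C.node (nat_lit 1) (nat_lit 8) (nat_lit 11) (C.cons (nat_lit 2306) (C.node (nat_lit 2) (nat_lit 5) (nat_lit 11) C.nil) C.nil)) C.nil))) (C.cons (nat_lit 3074) (C.node (nat_lit 5) (nat_lit 10) (nat_lit 11) (C.cons (nat_lit 3104) (C.node (nat_lit 2) (nat_lit 8) (nat_lit 11) (C.cons (nat_lit 2372) (C.miq (nat_lit 642234378) (nat_lit 251515674515515125980663553)) (C.cons (nat_lit 2340) (C.node (nat_lit 1) (nat_lit 5) (nat_lit 11) C.nil) C.nil))) C.nil)) C.nil))) C.nil)))) (C.cons (nat_lit 2180) (C.node (nat_lit 7) (nat_lit 10) (nat_lit 11) (C.cons (nat_lit 3200) (C.node (nat_lit 6) (nat_lit 9) (nat_lit 11) (C.cons (nat_lit 2630) (C.miq (nat_lit 1265269024) (nat_lit 3800884378766824072022393477)) (C.cons (nat_lit 2628) (C.miq (nat_lit 1265269024) (nat_lit 3800884378766824063432458885)) (C.cons (nat_lit 2626) (C.node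 (nat_lit 1) (nat_lit 8) (nat_lit 11) (C.cons (nat_lit 2338) (C.node (nat_lit 1) (nat_lit 2) (nat_lit 11) C.nil) C.nil)) C.nil)))) C.nil)) C.nil))) C.nil))) C.nil)) C.nil))) C.nil))) (C.cons (nat_lit 3080) (C.node (nat_lit 6) (nat_lit 10) (nat_lit 11) (C.cons (nat_lit 3138) (C.node (nat_lit 1) (nat_lit 3) (nat_lit 10) (C.cons (nat_lit 1290) (C.miq (nat_lit 1631042176) (nat_lit 2642753772010132935170133761)) (C.cons (nat_lit 1038) (C.miq (nat_lit 1906750240) (nat_lit 3793651152015294649375983645)) (C.cons (nat_lit 1034) (C.node (nat_lit 1) (nat_lit 8) (nat_lit 10) (C.cons (nat_lit 1314) (C.node (nat_lit 1) (nat_lit 8) (nat_lit 11) (C.cons (nat_lit 2306) (C.node (nat_lit 1) (nat_lit 2) (nat_lit 10) (C.cons (nat_lit 1542) (C.miq (nat_lit 2544967786) (nat_lit 2642740286738502158680982597)) (C.cons (nat_lit 1030) (C.node (nat_lit 1) (nat_lit 9) (nat_lit 10) (C.cons (nat_lit 1538) (C.node (nat_lit 3) (nat_lit 5) (nat_lit 11) (C.cons (nat_lit 2600) (C.miq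 (nat_lit 1094256565) (nat_lit 632278552611492996126869729)) (C.cons (nat_lit 2344) (C.miq (nat_lit 414491952) (nat_lit 2804729503013118186140533801)) (C.cons (nat_lit 2088) (C.node (nat_lit 3) (nat_lit 8) (nat_lit 11) (C.cons (nat_lit 2376) (C.miq (nat_lit 1668397066) (nat_lit 2642769728229268909144084225)) (C.cons (nat_lit 2312) (C.node (nat_lit 5) (nat_lit 8) (nat_lit 11) (C.cons (nat_lit 2340) (C.miq (nat_lit 2763329576) (nat_lit 2533932757263591723063574791)) (C.cons (nat_lit 2336) (C.node (nat_lit 1) (nat_lit 7) (nat_lit 8) (C.cons (nat_lit 962) (C.miq (nat_lit 611388312) (nat_lit 1415656986847057289475657473)) (C.cons (nat_lit 898) (C.miq (nat_lit 611388312) (nat_lit 1415656986847057289471463169)) (C.cons (nat_lit 450) (C.miq (nat_lit 1639221040) (nat_lit 2497646960003249843516277129)) (C.cons (nat_lit 386) (C.node (nat_lit 1) (nat_lit 4) (nat_lit 5) (C.cons (nat_lit 122) (C.miq (nat_lit 2585004901) (nat_lit 1415662484473314977800390881)) (C.cons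 (nat_lit 118) (C.miq (nat_lit 2585004901) (nat_lit 1415662484473314977800128737)) (C.cons (nat_lit 114) (C.miq (nat_lit 2585004901) (nat_lit 1415662484473314977799866593)) (C.cons (nat_lit 58) (C.miq (nat_lit 2235277632) (nat_lit 2524307965669191203816277139)) (C.cons (nat_lit 54) (C.miq (nat_lit 730153121) (nat_lit 2824051711328593756112946323)) (C.cons (nat_lit 50) (C.node (nat_lit 1) (nat_lit 2) (nat_lit 7) C.nil) C.nil))))))) C.nil))))) C.nil))) C.nil))) C.nil)))) C.nil)) C.nil))) C.nil)) (C.cons (nat_lit 1282) (C.node (nat_lit 1) (nat_lit 8) (nat_lit 11) (C.cons (nat_lit 2338) (C.node (nat_lit 3) (nat_lit 5) (nat_lit 11) (C.cons (nat_lit 2600) (C.miq (nat_lit 1094256565) (nat_lit 632278552611492996126869729)) (C.cons (nat_lit 2088) (C.node (nat_lit 3) (nat_lit 8) (nat_lit 11) (C.cons (nat_lit 2376) (C.miq (nat_lit 1668397066) (nat_lit 2642769728229268909144084225)) (C.cons (nat_lit 2312) (C.node (nat_lit 1) (nat_lit 2) (nat_lit 7) (C.cons (nat_lit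 198) (C.miq (nat_lit 2601978466) (nat_lit 2642723740908665781734474821)) (C.cons (nat_lit 166) (C.miq (nat_lit 2551319383) (nat_lit 317959389789730442798565601)) (C.cons (nat_lit 134) (C.node (nat_lit 1) (nat_lit 5) (nat_lit 7) (C.cons (nat_lit 674)
  (C.miq (nat_lit 1125714805) (nat_lit 632278552866509324900501729)) (C.cons (nat_lit 162) (C.node (nat_lit 1) (nat_lit 7) (nat_lit 8) (C.cons (nat_lit 962) (C.miq (nat_lit 1192409472) (nat_lit 162034374476913872950726401)) (C.cons (nat_lit 898) (C.miq (nat_lit 1192409472) (nat_lit 162034374476913598072819457)) (C.cons (nat_lit 450) (C.miq (nat_lit 1639221040) (nat_lit 2497646960003249843516277129)) (C.cons (nat_lit 386) (C.node (nat_lit 1) (nat_lit 2) (nat_lit 11) (C.cons (nat_lit 2566) (C.node (nat_lit 5) (nat_lit 9) (nat_lit 11) (C.cons (nat_lit 2592) (C.node (nat_lit 7) (nat_lit 8) (nat_lit 11) (C.cons (nat_lit 2436) (C.miq (nat_lit 824641976) (nat_lit 162003309546003711129816833)) (C.cons (nat_lit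 2432) (C.node (nat_lit 1) (nat_lit 2) (nat_lit 10) (C.cons (nat_lit 1062) (C.node (nat_lit 1) (nat_lit 9) (nat_lit 10) C.nil) C.nil)) C.nil))) C.nil)) (C.cons (nat_lit 2054) (C.node (nat_lit 1) (nat_lit 9) (nat_lit 11) C.nil) C.nil))) C.nil))))) C.nil))) C.nil)))) C.nil))) C.nil))) (C.cons (nat_lit 2306) (C.node (nat_lit 5) (nat_lit 10) (nat_lit 11) (C.cons (nat_lit 3108) (C.node (nat_lit 7) (nat_lit 10) (nat_lit 11) (C.cons (nat_lit 3200) (C.node (nat_lit 1) (nat_lit 2) (nat_lit 10) (C.cons (nat_lit 1542) (C.miq (nat_lit 2544967786) (nat_lit 2642740286738502158680982597)) (C.cons (nat_lit 1030) (C.node (nat_lit 1) (nat_lit 2) (nat_lit 11) (C.cons (nat_lit 2566) (C.node (nat_lit 1) (nat_lit 5) (nat_lit 11) (C.cons (nat_lit 2082) (C.node (nat_lit 2) (nat_lit 7) (nat_lit 11) (C.cons (nat_lit 2436) (C.miq (nat_lit 657569801) (nat_lit 2642759176708547245840731905)) (C.cons (nat_lit 2180) (C.node (nat_lit 7) (nat_lit 8) (nat_lit 11) (C.cons (nat_lit 2432)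 (C.node (nat_lit 2) (nat_lit 6) (nat_lit 11) C.nil) C.nil)) C.nil))) C.nil)) (C.cons (nat_lit 2054) (C.node (nat_lit 2) (nat_lit 9) (nat_lit 11) (C.cons (nat_lit 2628) (C.miq (nat_lit 1265269024) (nat_lit 3793630823849136288384221829)) (C.cons (nat_lit 2564) (C.node (nat_lit 1) (nat_lit 5) (nat_lit 10) (C.cons (nat_lit 1570) (C.node (nat_lit 1) (nat_lit 2) (nat_lit 3) (C.cons (nat_lit 110) (C.miq (nat_lit 2602633811) (nat_lit 2483143282216757609253176361)) (C.cons (nat_lit 78) (C.miq (nat_lit 1362274571) (nat_lit 94353546852440124753252097)) (C.cons (nat_lit 46) (C.miq (nat_lit 2602633811) (nat_lit 2483143282216757609248982057)) (C.cons (nat_lit 14) (C.miq (nat_lit 1362274571) (nat_lit 16982294397103857572056833)) C.nil))))) (C.cons (nat_lit 1058) (C.node (nat_lit 1) (nat_lit 9) (nat_lit 10) (C.cons (nat_lit 1538) (C.node (nat_lit 1) (nat_lit 5) (nat_lit 11) C.nil) C.nil)) C.nil))) C.nil))) C.nil))) C.nil))) C.nil)) (C.cons (nat_lit 3104) (C.node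 (nat_lit 2) (nat_lit 10) (nat_lit 11) (C.cons (nat_lit 3204) (C.node (nat_lit 7) (nat_lit 8) (nat_lit 11) (C.cons (nat_lit 2432) (C.node (nat_lit 2) (nat_lit 6) (nat_lit 11) (C.cons (nat_lit 2628) (C.miq (nat_lit 1265269024) (nat_lit 3793630823849136288384221829)) (C.cons (nat_lit 2372) (C.miq (nat_lit 642234378) (nat_lit 251515674515515125980663553)) (C.cons (nat_lit 2116) (C.node (nat_lit 6) (nat_lit 8) (nat_lit 11) (C.cons (nat_lit 2376) (C.miq (nat_lit 1668397066) (nat_lit 2642769728229268909144084225)) (C.cons (nat_lit 2368) (C.node (nat_lit 2) (nat_lit 8) (nat_lit 11) (C.cons (nat_lit 2340) (C.node (nat_lit 3) (nat_lit 8) (nat_lit 11) C.nil) C.nil)) C.nil))) C.nil)))) C.nil)) (C.cons (nat_lit 3076) (C.node (nat_lit 7) (nat_lit 10) (nat_lit 11) (C.cons (nat_lit 3200) (C.node (nat_lit 2) (nat_lit 7) (nat_lit 11) (C.cons (nat_lit 2436) (C.node (nat_lit 2) (nat_lit 4) (nat_lit 7) (C.cons (nat_lit 180) (C.miq (nat_lit 1350715831) (nat_lit 317950811130504699730725520))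 (C.cons (nat_lit 148) (C.node (nat_lit 2) (nat_lit 6) (nat_lit 11) (C.cons (nat_lit 2628) (C.miq (nat_lit 1265269024) (nat_lit 3793630823849136288384221829)) (C.cons (nat_lit 2116) (C.node (nat_lit 6) (nat_lit 8) (nat_lit 11) (C.cons (nat_lit 2376) (C.miq (nat_lit 1668397066) (nat_lit 2642769728229268909144084225)) C.nil)) C.nil))) C.nil))) (C.cons (nat_lit 2180)
  (C.node (nat_lit 7) (nat_lit 8) (nat_lit 11) C.nil) C.nil))) C.nil)) C.nil))) C.nil))) C.nil))) C.nil))) C.nil)))) (C.cons (nat_lit 3136) (C.node (nat_lit 7) (nat_lit 8) (nat_lit 11) (C.cons (nat_lit 2436) (C.node (nat_lit 7) (nat_lit 10) (nat_lit 11) (C.cons (nat_lit 3200) (C.node (nat_lit 2) (nat_lit 4) (nat_lit 7) (C.cons (nat_lit 180) (C.miq (nat_lit 1350715831) (nat_lit 317950811130504699730725520)) (C.cons (nat_lit 148) (C.node (nat_lit 4) (nat_lit 5) (nat_lit 7) (C.cons (nat_lit 432) (C.node (nat_lit 1) (nat_lit 7) (nat_lit 8) (C.cons (nat_lit 962) (C.miq (nat_lit 611388312) (nat_lit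 1415656986847057289475657473)) (C.cons (nat_lit 898) (C.miq (nat_lit 611388312) (nat_lit 1415656986847057289471463169)) (C.cons (nat_lit 450) (C.miq (nat_lit 1639221040) (nat_lit 2497646960003249843516277129)) (C.cons (nat_lit 386) (C.node (nat_lit 7) (nat_lit 8) (nat_lit 9) (C.cons (nat_lit 960) (C.node (nat_lit 7) (nat_lit 8) (nat_lit 10) (C.cons (nat_lit 1408) (C.node (nat_lit 1) (nat_lit 7) (nat_lit 9) (C.cons (nat_lit 674) (C.miq (nat_lit 1125714805) (nat_lit 632278552866509324900501729)) (C.cons (nat_lit 642) (C.node (nat_lit 3) (nat_lit 8) (nat_lit 9) (C.cons (nat_lit 812) (C.miq (nat_lit 341378947) (nat_lit 678217032780566570312925577)) (C.cons (nat_lit 808) (C.miq (nat_lit 341378947) (nat_lit 678217032780566570312663433)) (C.cons (nat_lit 792) (C.miq (nat_lit 1766553648) (nat_lit 3268977345957456209608769929)) (C.cons (nat_lit 780) (C.miq (nat_lit 812198776) (nat_lit 697564586962651816407337348)) (C.cons (nat_lit 776) (C.node (nat_lit 1)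 (nat_lit 5) (nat_lit 7) (C.cons (nat_lit 166) (C.node (nat_lit 1) (nat_lit 6) (nat_lit 7) (C.cons (nat_lit 194) (C.node (nat_lit 2) (nat_lit 6) (nat_lit 7) (C.cons (nat_lit 204) (C.miq (nat_lit 815147911) (nat_lit 697553961638072094214326660)) (C.cons (nat_lit 196) (C.node (nat_lit 5) (nat_lit 7) (nat_lit 10) (C.cons (nat_lit 1696) (C.miq (nat_lit 880085914) (nat_lit 522275600440593444476292865)) (C.cons (nat_lit 1184) (C.node (nat_lit 2) (nat_lit 3) (nat_lit 7) (C.cons (nat_lit 1164) (C.node (nat_lit 3) (nat_lit 6) (nat_lit 7) C.nil) C.nil)) C.nil))) C.nil))) C.nil)) (C.cons (nat_lit 162) (C.node (nat_lit 1) (nat_lit 2) (nat_lit 7) (C.cons (nat_lit 198) (C.node (nat_lit 2) (nat_lit 6) (nat_lit 11) (C.cons (nat_lit 2628) (C.miq (nat_lit 845613976) (nat_lit 239374562438752358310612737)) (C.cons (nat_lit 2116) (C.node (nat_lit 6) (nat_lit 8) (nat_lit 11) (C.cons (nat_lit 2376) (C.miq (nat_lit 913488016) (nat_lit 239405626839926339205926657)) (C.cons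 (nat_lit 2370) (C.miq (nat_lit 2551319399) (nat_lit 317959389789730580239616225)) (C.cons (nat_lit 2368) (C.node (nat_lit 3) (nat_lit 6) (nat_lit 7) (C.cons (nat_lit 200) (C.node (nat_lit 6) (nat_lit 7) (nat_lit 10) C.nil) C.nil)) C.nil)))) C.nil))) (C.cons (nat_lit 134) (C.node (nat_lit 1) (nat_lit 6) (nat_lit 7) (C.cons (nat_lit 194) (C.node (nat_lit 2) (nat_lit 6) (nat_lit 7) (C.cons (nat_lit 204) (C.miq (nat_lit 815147911) (nat_lit 697553961638072094214326660)) C.nil)) C.nil)) C.nil))) C.nil))) C.nil)))))) C.nil))) C.nil)) (C.cons (nat_lit 896) (C.node (nat_lit 6) (nat_lit 7) (nat_lit 8) (C.cons (nat_lit 1472) (C.node (nat_lit 2) (nat_lit 4) (nat_lit 8) (C.cons (nat_lit 1300) (C.miq (nat_lit 1747679808) (nat_lit 2944985226444852960706757779)) (C.cons (nat_lit 788) (C.miq (nat_lit 1461980041) (nat_lit 178931370566193553570270977)) (C.cons (nat_lit 276) (C.node (nat_lit 4) (nat_lit 8) (nat_lit 10) (C.cons (nat_lit 1304) (C.miq (nat_lit 1783330864)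 (nat_lit 3733204860833591199795052937)) (C.cons (nat_lit 1296) (C.node (nat_lit 2) (nat_lit 7) (nat_lit 10) (C.cons (nat_lit 1188) (C.miq (nat_lit 624994182) (nat_lit 678227547429473659330299328)) (C.cons (nat_lit 1164) (C.miq (nat_lit 1185024115) (nat_lit 1321394234821094172112191881)) (C.cons (nat_lit 1156) (C.node (nat_lit 5) (nat_lit 7) (nat_lit 10) (C.cons (nat_lit 1696) (C.miq (nat_lit 1466210944) (nat_lit 251466919580656102112562945)) (C.cons (nat_lit 1184)
  (C.node (nat_lit 2) (nat_lit 3) (nat_lit 7) (C.cons (nat_lit 204) (C.miq (nat_lit 3126986867) (nat_lit 1321394235807382490443415945)) (C.cons (nat_lit 172) (C.miq (nat_lit 2270868016) (nat_lit 1431439025053381843311200285)) (C.cons (nat_lit 140) (C.node (nat_lit 2) (nat_lit 5) (nat_lit 7) (C.cons (nat_lit 166) (C.node (nat_lit 2) (nat_lit 6) (nat_lit 7) (C.cons (nat_lit 196) (C.node (nat_lit 1) (nat_lit 6) (nat_lit 7) (C.cons (nat_lit 706) (C.node (nat_lit 3) (nat_lit 6) (nat_lit 7) C.nil)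 C.nil)) C.nil)) (C.cons (nat_lit 164) (C.node (nat_lit 1) (nat_lit 5) (nat_lit 7) (C.cons (nat_lit 674) (C.miq (nat_lit 1125714805) (nat_lit 632278552866509324900501729)) C.nil)) C.nil))) C.nil)))) C.nil))) C.nil)))) C.nil))) C.nil)))) (C.cons (nat_lit 448) (C.node (nat_lit 7) (nat_lit 8) (nat_lit 10) (C.cons (nat_lit 1408) (C.ref (nat_lit 255) (nat_lit 205163983024656)) C.nil)) C.nil))) C.nil))) C.nil))))) (C.cons (nat_lit 176) (C.node (nat_lit 4) (nat_lit 7) (nat_lit 8) (C.cons (nat_lit 400) (C.ref (nat_lit 256) (nat_lit 205163983024656)) C.nil)) C.nil))) C.nil))) C.nil)) (C.cons (nat_lit 2432) (C.node (nat_lit 2) (nat_lit 7) (nat_lit 11) (C.cons (nat_lit 3204) (C.node (nat_lit 1) (nat_lit 10) (nat_lit 11) (C.cons (nat_lit 3106) (C.node (nat_lit 1) (nat_lit 2) (nat_lit 10) (C.cons (nat_lit 1542) (C.miq (nat_lit 352955250) (nat_lit 678235830557439667304991876)) (C.cons (nat_lit 1038) (C.miq (nat_lit 1729760050) (nat_lit 1415672297699805339050706973))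 (C.cons (nat_lit 1030) (C.node (nat_lit 3) (nat_lit 5) (nat_lit 11) (C.cons (nat_lit 2600) (C.miq (nat_lit 1094256565) (nat_lit 632278552611492996126869729)) (C.cons (nat_lit 2344) (C.miq (nat_lit 1399961610) (nat_lit 2642769137924451351183691521)) (C.cons (nat_lit 2088) (C.node (nat_lit 3) (nat_lit 8) (nat_lit 11) (C.cons (nat_lit 2376) (C.miq (nat_lit 1796506480) (nat_lit 2497646960545370648601624969)) (C.cons (nat_lit 2312) (C.node (nat_lit 5) (nat_lit 9) (nat_lit 11) (C.cons (nat_lit 2596) (C.miq (nat_lit 1537512048) (nat_lit 3733173280324123043243950725)) (C.cons (nat_lit 2592) (C.node (nat_lit 1) (nat_lit 8) (nat_lit 11) (C.cons (nat_lit 2370) (C.node (nat_lit 1) (nat_lit 2) (nat_lit 11) C.nil) C.nil)) C.nil))) C.nil))) C.nil)))) C.nil)))) (C.cons (nat_lit 3074) (C.node (nat_lit 5) (nat_lit 10) (nat_lit 11) (C.cons (nat_lit 3104) (C.node (nat_lit 2) (nat_lit 8) (nat_lit 11) (C.cons (nat_lit 2372) (C.miq (nat_lit 642234378) (nat_lit 251515674515515125980663553))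 (C.cons (nat_lit 2340) (C.node (nat_lit 3) (nat_lit 5) (nat_lit 11) (C.cons (nat_lit 2600) (C.miq (nat_lit 1094256565) (nat_lit 632278552611492996126869729)) (C.cons (nat_lit 2088) (C.node (nat_lit 3) (nat_lit 8) (nat_lit 11) (C.cons (nat_lit 2376) (C.miq (nat_lit 1796506480) (nat_lit 2497646960545370648601624969)) C.nil)) C.nil))) (C.cons (nat_lit 2308) (C.node (nat_lit 3) (nat_lit 5) (nat_lit 11) (C.cons (nat_lit 2600) (C.miq (nat_lit 1094256565) (nat_lit 632278552611492996126869729)) (C.cons (nat_lit 2344) (C.node (nat_lit 1) (nat_lit 8) (nat_lit 11) (C.cons (nat_lit 2370) (C.node (nat_lit 2) (nat_lit 6) (nat_lit 11) C.nil) C.nil)) C.nil))) C.nil)))) C.nil)) C.nil))) (C.cons (nat_lit 2180) (C.node (nat_lit 7) (nat_lit 10) (nat_lit 11) (C.cons (nat_lit 3200) (C.node (nat_lit 3) (nat_lit 5) (nat_lit 11) (C.cons (nat_lit 2600) (C.miq (nat_lit 1094256565) (nat_lit 632278552611492996126869729)) (C.cons (nat_lit 2344) (C.node (nat_lit 1) (nat_lit 7)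 (nat_lit 8) (C.cons (nat_lit 962) (C.miq (nat_lit 611388312) (nat_lit 1415656986847057289475657473)) (C.cons (nat_lit 930) (C.miq (nat_lit 611388312) (nat_lit 1415656986847057289473560321)) (C.cons (nat_lit 898) (C.miq (nat_lit 611388312) (nat_lit 1415656986847057289471463169)) (C.cons (nat_lit 450) (C.miq (nat_lit 1639221040) (nat_lit 2497646960003249843516277129)) (C.cons (nat_lit 418) (C.miq (nat_lit 364148784) (nat_lit 2533930119167239671873601929)) (C.cons (nat_lit 386) (C.node (nat_lit 1) (nat_lit 8) (nat_lit 11) (C.cons (nat_lit 2370) (C.node (nat_lit 2) (nat_lit 8) (nat_lit 11)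
  (C.cons (nat_lit 2308) (C.node (nat_lit 2) (nat_lit 6) (nat_lit 11) (C.cons (nat_lit 2628) (C.miq (nat_lit 1265269024) (nat_lit 3791212972209907030034809477)) C.nil)) C.nil)) (C.cons (nat_lit 2306) (C.node (nat_lit 2) (nat_lit 8) (nat_lit 11) (C.cons (nat_lit 2372) (C.node (nat_lit 1) (nat_lit 10) (nat_lit 11) (C.cons (nat_lit 3106) (C.miq (nat_lit 1399961610) (nat_lit 2642769137924451351183691521)) (C.cons (nat_lit 3078) (C.miq (nat_lit 461677152) (nat_lit 2804729503509640165203182661)) C.nil))) C.nil)) C.nil))) C.nil))))))) (C.cons (nat_lit 2088) (C.node (nat_lit 3) (nat_lit 8) (nat_lit 11) (C.cons (nat_lit 2376) (C.miq (nat_lit 1796506480) (nat_lit 2497646960545370648601624969)) (C.cons (nat_lit 2312) (C.node (nat_lit 3) (nat_lit 6) (nat_lit 11) C.nil) C.nil))) C.nil)))) C.nil)) C.nil))) C.nil))) C.nil))) C.nil))) (C.cons (nat_lit 2184) (C.ref (nat_lit 262) (nat_lit 205163983024656)) C.nil)))) C.nil))) List.nil)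

theorem ok12_263 : okL par12 (nat_lit 264) c12_263 (nat_lit 263) = true := by decide +kernel

noncomputable def c12_264 : List C :=
  (List.cons (C.node (nat_lit 4) (nat_lit 6) (nat_lit 11) (C.cons (nat_lit 3152) (C.node (nat_lit 4) (nat_lit 6) (nat_lit 7) (C.cons (nat_lit 216) (C.miq (nat_lit 642190009) (nat_lit 261139875494353131856203521)) (C.cons (nat_lit 212) (C.node (nat_lit 3) (nat_lit 4) (nat_lit 7) (C.cons (nat_lit 184) (C.miq (nat_lit 2722301557) (nat_lit 2510958573429676356627073249)) (C.cons (nat_lit 152) (C.node (nat_lit 4) (nat_lit 9) (nat_lit 10) (C.cons (nat_lit 1560) (C.miq (nat_lit 1464011674) (nat_lit 183776371003666370984939265)) (C.cons (nat_lit 1556) (C.node (nat_lit 3) (nat_lit 4) (nat_lit 10) (C.cons (nat_lit 1304) (C.miq (nat_lit 607623808) (nat_lit 183768623169331841641025281)) (C.cons (nat_lit 1048) (C.node (nat_lit 3) (nat_lit 9) (nat_lit 11) (C.cons (nat_lit 2632) (C.miq (nat_lit 649660999) (nat_lit 3181904655683297217946322067))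 (C.cons (nat_lit 2600) (C.miq (nat_lit 977883259) (nat_lit 1881136537154730520457775329)) (C.cons (nat_lit 2568) (C.node (nat_lit 7) (nat_lit 10) (nat_lit 11) (C.cons (nat_lit 3208) (C.miq (nat_lit 1400113849) (nat_lit 183767073504633614242942721)) (C.cons (nat_lit 3204) (C.miq (nat_lit 1461980073) (nat_lit 256302623021533119336681217)) (C.cons (nat_lit 3200) (C.node (nat_lit 1) (nat_lit 2) (nat_lit 4) (C.cons (nat_lit 54) (C.node (nat_lit 2) (nat_lit 4) (nat_lit 8) (C.cons (nat_lit 276) (C.node (nat_lit 2) (nat_lit 8) (nat_lit 9) (C.cons (nat_lit 876) (C.miq (nat_lit 1948453528) (nat_lit 2510946177239619644473216769)) (C.cons (nat_lit 868) (C.miq (nat_lit 3106293514) (nat_lit 1049405756323929563502806163)) (C.cons (nat_lit 844) (C.miq (nat_lit 1948453528) (nat_lit 2510946177239619644471119617)) (C.cons (nat_lit 836) (C.miq (nat_lit 3106293514) (nat_lit 1010720130096261429912208531)) (C.cons (nat_lit 812) (C.miq (nat_lit 1948453528) (nat_lit 2510946177239619644469022465))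 (C.cons (nat_lit 804) (C.miq (nat_lit 2840856609) (nat_lit 678228987022266119597981959)) (C.cons (nat_lit 780) (C.miq (nat_lit 1948453528) (nat_lit 2510946177239619644466925313)) (C.cons (nat_lit 772) (C.node (nat_lit 3) (nat_lit 7) (nat_lit 11) (C.cons (nat_lit 2186) (C.node (nat_lit 1) (nat_lit 2) (nat_lit 7) (C.cons (nat_lit 134) (C.node (nat_lit 3) (nat_lit 10) (nat_lit 11) (C.cons (nat_lit 3080) (C.node (nat_lit 3) (nat_lit 6) (nat_lit 11) (C.cons (nat_lit 2376) (C.miq (nat_lit 927367339) (nat_lit 256336103332845214392913665)) (C.cons (nat_lit 2120) (C.node (nat_lit 1) (nat_lit 2) (nat_lit 10) (C.cons (nat_lit 3078) (C.miq (nat_lit 2226194082) (nat_lit 2497645594912385865645163589)) (C.cons (nat_lit 1038) (C.miq (nat_lit 1729760050) (nat_lit 1415672297699805339050706973)) (C.cons (nat_lit 1030) (C.node (nat_lit 1) (nat_lit 3) (nat_lit 4) (C.cons (nat_lit 282) (C.miq (nat_lit 2259894385) (nat_lit 2562927939659709466226066579)) (C.cons (nat_lit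 90) (C.miq (nat_lit 2606959169) (nat_lit 2562932386311323323761034387)) (C.cons (nat_lit 26) (C.node (nat_lit 1) (nat_lit 5) (nat_lit 7) (C.cons (nat_lit 930) (C.miq (nat_lit 1192409472) (nat_lit 162034374476913735511772929)) (C.cons (nat_lit 674) (C.miq (nat_lit 1125714805) (nat_lit 632278552866509324900501729)) (C.cons (nat_lit 418) (C.miq (nat_lit 1412895240) (nat_lit 183764435335655014563119367)) (C.cons (nat_lit 162) (C.node (nat_lit 1) (nat_lit 6) (nat_lit 7) (C.cons (nat_lit 962) (C.miq (nat_lit 1192409472) (nat_lit 162034374476913872950726401)) (C.cons (nat_lit 706) (C.miq (nat_lit 2792956084) (nat_lit 853530332089368801587496989)) (C.cons (nat_lit 450) (C.miq (nat_lit 2217828535) (nat_lit 31440372439679515782416609)) (C.cons (nat_lit 194) (C.node (nat_lit 1) (nat_lit 7) (nat_lit 8) (C.cons (nat_lit 898) (C.miq (nat_lit 1192409472) (nat_lit 162034374476913598072819457)) (C.cons (nat_lit 386) (C.node (nat_lit 1) (nat_lit 7) (nat_lit 9) (C.cons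 (nat_lit 642) (C.node (nat_lit 6) (nat_lit 7) (nat_lit 8) (C.cons (nat_lit 1472) (C.miq (nat_lit 879168424) (nat_lit 256299523913359417352916737)) (C.cons (nat_lit 960) (C.miq (nat_lit 2792956084) (nat_lit 1160597490271484611962865693))
  (C.cons (nat_lit 448) (C.node (nat_lit 1) (nat_lit 9) (nat_lit 10) (C.cons (nat_lit 1634) (C.miq (nat_lit 1630841099) (nat_lit 31490215907233049398284033)) (C.cons (nat_lit 1602) (C.miq (nat_lit 1630841099) (nat_lit 31490215898225850143543041)) (C.cons (nat_lit 1570) (C.miq (nat_lit 3121744212) (nat_lit 1245231909171661273333891633)) (C.cons (nat_lit 1538) (C.node (nat_lit 1) (nat_lit 2) (nat_lit 3) (C.cons (nat_lit 78) (C.node (nat_lit 1) (nat_lit 2) (nat_lit 9) C.nil) C.nil)) C.nil))))) C.nil)))) C.nil)) C.nil))) C.nil))))) C.nil))))) C.nil)))) C.nil)))) C.nil))) C.nil)) C.nil)) (C.cons (nat_lit 2184) (C.node (nat_lit 3) (nat_lit 10) (nat_lit 11) (C.cons (nat_lit 3082) (C.node (nat_lit 1) (nat_lit 2) (nat_lit 10)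 (C.cons (nat_lit 1030) (C.node (nat_lit 3) (nat_lit 6) (nat_lit 11) (C.cons (nat_lit 2376) (C.miq (nat_lit 927367339) (nat_lit 256336103332845214392913665)) (C.cons (nat_lit 2120) (C.node (nat_lit 1) (nat_lit 8) (nat_lit 10) (C.cons (nat_lit 1378) (C.miq (nat_lit 306610362) (nat_lit 256317693445671796528385793)) (C.cons (nat_lit 1346) (C.miq (nat_lit 306610362) (nat_lit 256317103149861437822734081)) (C.cons (nat_lit 1314) (C.miq (nat_lit 2773188896) (nat_lit 2533979372226108220034056455)) (C.cons (nat_lit 1282) (C.node (nat_lit 1) (nat_lit 9) (nat_lit 10) (C.cons (nat_lit 1634) (C.miq (nat_lit 827636368) (nat_lit 65320309014143966408412929)) (C.cons (nat_lit 1602) (C.miq (nat_lit 2040968224) (nat_lit 1936741093233030499756476445)) (C.cons (nat_lit 1570) (C.miq (nat_lit 827636368) (nat_lit 65320309014143691530505985)) (C.cons (nat_lit 1538) (C.node (nat_lit 5) (nat_lit 9) (nat_lit 10) (C.cons (nat_lit 1696) (C.miq (nat_lit 1397203129) (nat_lit 183788010559152416976015105))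 (C.cons (nat_lit 1632) (C.miq (nat_lit 2040968224) (nat_lit 1973008867821469374997661725)) (C.cons (nat_lit 1568) (C.node (nat_lit 1) (nat_lit 5) (nat_lit 10) (C.cons (nat_lit 1122) (C.node (nat_lit 6) (nat_lit 9) (nat_lit 11) (C.cons (nat_lit 2630) (C.miq (nat_lit 564377168) (nat_lit 3725947690680012218955270369)) (C.cons (nat_lit 2628) (C.node (nat_lit 1) (nat_lit 2) (nat_lit 9) (C.cons (nat_lit 518) (C.node (nat_lit 6) (nat_lit 7) (nat_lit 8) (C.cons (nat_lit 1472) (C.miq (nat_lit 879168424) (nat_lit 256299523913359417352916737)) (C.cons (nat_lit 962) (C.miq (nat_lit 611388312) (nat_lit 1415656986847057289475657473)) (C.cons (nat_lit 960) (C.miq (nat_lit 845613976) (nat_lit 256299523913357166756499201)) (C.cons (nat_lit 450) (C.miq (nat_lit 2174973520) (nat_lit 3725916625749376642841118945)) (C.cons (nat_lit 448) (C.node (nat_lit 1) (nat_lit 7) (nat_lit 9) (C.cons (nat_lit 930) (C.miq (nat_lit 611388312) (nat_lit 1415656986847057289473560321))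 (C.cons (nat_lit 898) (C.miq (nat_lit 611388312) (nat_lit 1415656986847057289471463169)) (C.cons (nat_lit 706) (C.miq (nat_lit 1116801895) (nat_lit 626245176282323040231098593)) (C.cons (nat_lit 674) (C.miq (nat_lit 2443343200) (nat_lit 1245205492542714545936074977)) (C.cons (nat_lit 642) (C.node (nat_lit 1) (nat_lit 2) (nat_lit 6) (C.cons (nat_lit 78) (C.node (nat_lit 1) (nat_lit 6) (nat_lit 7) (C.cons (nat_lit 194) (C.node (nat_lit 6) (nat_lit 7) (nat_lit 9) (C.cons (nat_lit 1736) (C.miq (nat_lit 2301692514) (nat_lit 632273056233295285597373509)) (C.cons (nat_lit 1728) (C.node (nat_lit 3) (nat_lit 6) (nat_lit 7) (C.cons (nat_lit 200) (C.node (nat_lit 3) (nat_lit 9) (nat_lit 10) (C.cons (nat_lit 1544) (C.node (nat_lit 1) (nat_lit 6) (nat_lit 9) C.nil) C.nil)) C.nil)) (C.cons (nat_lit 712) (C.miq (nat_lit 2792956084) (nat_lit 860783887007056576635734045)) (C.cons (nat_lit 704) (C.miq (nat_lit 2792956084) (nat_lit 851112480450139543238084637)) C.nil)))))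 C.nil)) (C.cons (nat_lit 70) (C.node (nat_lit 1) (nat_lit 2) (nat_lit 3) (C.cons (nat_lit 142) (C.miq (nat_lit 2709107488) (nat_lit 776201231004085536698992669)) (C.cons (nat_lit 14) (C.node (nat_lit 1) (nat_lit 2) (nat_lit 7) (C.cons (nat_lit 2182) (C.node (nat_lit 1) (nat_lit 6) (nat_lit 7) C.nil) (C.cons (nat_lit 134)
  (C.node (nat_lit 1) (nat_lit 2) (nat_lit 11) C.nil) C.nil))) C.nil))) C.nil))) C.nil)))))) C.nil)))))) C.nil)) (C.cons (nat_lit 2626) (C.miq (nat_lit 649660999) (nat_lit 3174651100765609442898085011)) (C.cons (nat_lit 2624) (C.miq (nat_lit 649660999) (nat_lit 3172233249126380184548672659)) C.nil))))) (C.cons (nat_lit 1058) (C.node (nat_lit 1) (nat_lit 6) (nat_lit 10) (C.cons (nat_lit 1090) (C.node (nat_lit 2) (nat_lit 10) (nat_lit 11) (C.cons (nat_lit 3108) (C.node (nat_lit 5) (nat_lit 6) (nat_lit 10) (C.cons (nat_lit 1376) (C.miq (nat_lit 1680179386) (nat_lit 65307377073901387779411713)) (C.cons (nat_lit 1120) (C.node (nat_lit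 2) (nat_lit 9) (nat_lit 11) (C.cons (nat_lit 2630) (C.miq (nat_lit 891357881) (nat_lit 65291642206124724657196801)) (C.cons (nat_lit 2628) (C.node (nat_lit 1) (nat_lit 2) (nat_lit 9) (C.cons (nat_lit 518) (C.node (nat_lit 1) (nat_lit 2) (nat_lit 6) (C.cons (nat_lit 78) (C.node (nat_lit 3) (nat_lit 9) (nat_lit 10) (C.cons (nat_lit 1736) (C.miq (nat_lit 2301692514) (nat_lit 632273056233295285597373509)) (C.cons (nat_lit 1672) (C.miq (nat_lit 1738148674) (nat_lit 2021344133326736780405508125)) (C.cons (nat_lit 1608) (C.miq (nat_lit 2040968224) (nat_lit 1943994648150718274804713501)) C.nil)))) (C.cons (nat_lit 70) (C.node (nat_lit 1) (nat_lit 2) (nat_lit 3) (C.cons (nat_lit 142) (C.miq (nat_lit 2585201458) (nat_lit 1415664033999816928885868573)) (C.cons (nat_lit 14) (C.node (nat_lit 1) (nat_lit 2) (nat_lit 7) (C.cons (nat_lit 2182) (C.node (nat_lit 2) (nat_lit 8) (nat_lit 11) C.nil) C.nil)) C.nil))) C.nil))) C.nil)) (C.cons (nat_lit 2566) (C.miq (nat_lit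 891357881) (nat_lit 65291642206124724653002497)) (C.cons (nat_lit 2564) (C.miq (nat_lit 1804772464) (nat_lit 3099705964670402508712379539)) C.nil))))) C.nil))) (C.cons (nat_lit 3076) (C.node (nat_lit 5) (nat_lit 10) (nat_lit 11) (C.cons (nat_lit 3104) (C.node (nat_lit 2) (nat_lit 5) (nat_lit 11) (C.cons (nat_lit 2596) (C.miq (nat_lit 1380432288) (nat_lit 256334203938296649435254529)) (C.cons (nat_lit 2340) (C.miq (nat_lit 2233119296) (nat_lit 1279114371754916462734805021)) (C.cons (nat_lit 2084) (C.node (nat_lit 4) (nat_lit 5) (nat_lit 10) C.nil) C.nil)))) C.nil)) C.nil))) C.nil)) C.nil))) C.nil)))) C.nil))))) C.nil))))) C.nil))) C.nil)) (C.cons (nat_lit 3080) (C.node (nat_lit 4) (nat_lit 5) (nat_lit 6) (C.cons (nat_lit 120) (C.node (nat_lit 3) (nat_lit 4) (nat_lit 9) (C.cons (nat_lit 792) (C.miq (nat_lit 1536385156) (nat_lit 3104523719019465684876263761)) (C.cons (nat_lit 536) (C.node (nat_lit 6) (nat_lit 8) (nat_lit 10) (C.cons (nat_lit 1472) (C.miq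 (nat_lit 879168424) (nat_lit 256299523913359417352916737)) (C.cons (nat_lit 1378) (C.miq (nat_lit 306610362) (nat_lit 256317693445671796528385793)) (C.cons (nat_lit 1376) (C.miq (nat_lit 2253104432) (nat_lit 3810605037756608360547681321)) (C.cons (nat_lit 1354) (C.miq (nat_lit 306610362) (nat_lit 256317250723814027499147009)) (C.cons (nat_lit 1352) (C.miq (nat_lit 2556693045) (nat_lit 407418350914706575283717161)) (C.cons (nat_lit 1346) (C.miq (nat_lit 306610362) (nat_lit 256317103149861437822734081)) (C.cons (nat_lit 1344) (C.node (nat_lit 1) (nat_lit 3) (nat_lit 4) (C.cons (nat_lit 282) (C.node (nat_lit 4) (nat_lit 8) (nat_lit 9) (C.cons (nat_lit 784) (C.node (nat_lit 1) (nat_lit 4) (nat_lit 6) (C.cons (nat_lit 82) (C.node (nat_lit 1) (nat_lit 4) (nat_lit 9) (C.cons (nat_lit 530) (C.node (nat_lit 4) (nat_lit 6) (nat_lit 9) C.nil) C.nil)) C.nil)) C.nil)) (C.cons (nat_lit 26) (C.node (nat_lit 3) (nat_lit 4) (nat_lit 8) (C.cons (nat_lit 280) (C.node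 (nat_lit 1) (nat_lit 4) (nat_lit 6) (C.cons (nat_lit 594) (C.node (nat_lit 1) (nat_lit 4) (nat_lit 8) (C.cons (nat_lit 274) (C.node (nat_lit 4) (nat_lit 8) (nat_lit 9) C.nil) C.nil)) (C.cons (nat_lit 82) (C.node (nat_lit 4) (nat_lit 6) (nat_lit 9) C.nil) C.nil))) C.nil)) C.nil))) C.nil)))))))) C.nil))) (C.cons (nat_lit 112) (C.node (nat_lit 3) (nat_lit 4) (nat_lit 5) (C.cons (nat_lit 312) (C.node (nat_lit 4) (nat_lit 5) (nat_lit 7) (C.cons (nat_lit 176)
  (C.node (nat_lit 4) (nat_lit 5) (nat_lit 10) (C.cons (nat_lit 1072) (C.node (nat_lit 4) (nat_lit 7) (nat_lit 8) (C.cons (nat_lit 400) (C.node (nat_lit 4) (nat_lit 8) (nat_lit 10) C.nil) C.nil)) C.nil)) C.nil)) (C.cons (nat_lit 56) (C.node (nat_lit 4) (nat_lit 5) (nat_lit 7) (C.cons (nat_lit 432) (C.node (nat_lit 4) (nat_lit 5) (nat_lit 10) (C.cons (nat_lit 1072) (C.node (nat_lit 4) (nat_lit 8) (nat_lit 10) (C.cons (nat_lit 1296) (C.node (nat_lit 1) (nat_lit 3) (nat_lit 4) (C.cons (nat_lit 282) (C.node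 (nat_lit 4) (nat_lit 8) (nat_lit 9) C.nil) (C.cons (nat_lit 90) (C.miq (nat_lit 1671119114) (nat_lit 3104579648933023047575733395)) C.nil))) C.nil)) C.nil)) (C.cons (nat_lit 176) (C.node (nat_lit 4) (nat_lit 7) (nat_lit 8) (C.cons (nat_lit 400) (C.node (nat_lit 4) (nat_lit 5) (nat_lit 8) (C.cons (nat_lit 1328) (C.node (nat_lit 1) (nat_lit 3) (nat_lit 4) (C.cons (nat_lit 282) (C.node (nat_lit 4) (nat_lit 8) (nat_lit 9) C.nil) (C.cons (nat_lit 90) (C.miq (nat_lit 1671119114) (nat_lit 3104579648933023047575733395)) C.nil))) C.nil)) C.nil)) C.nil))) C.nil))) C.nil))) C.nil))) C.nil))) C.nil))))))))) C.nil)) (C.cons (nat_lit 22) (C.node (nat_lit 2) (nat_lit 4) (nat_lit 5) (C.cons (nat_lit 308) (C.node (nat_lit 4) (nat_lit 5) (nat_lit 7) (C.cons (nat_lit 176) (C.node (nat_lit 4) (nat_lit 5) (nat_lit 10) (C.cons (nat_lit 1072) (C.node (nat_lit 4) (nat_lit 7) (nat_lit 8) (C.cons (nat_lit 400) (C.node (nat_lit 4) (nat_lit 8) (nat_lit 10) (C.cons (nat_lit 1296)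 (C.node (nat_lit 2) (nat_lit 8) (nat_lit 9) (C.cons (nat_lit 844) (C.miq (nat_lit 1948453528) (nat_lit 2510946177239619644471119617)) (C.cons (nat_lit 836) (C.miq (nat_lit 3106293514) (nat_lit 1010720130096261429912208531)) (C.cons (nat_lit 780) (C.miq (nat_lit 1948453528) (nat_lit 2510946177239619644466925313)) (C.cons (nat_lit 772) (C.node (nat_lit 3) (nat_lit 7) (nat_lit 11) (C.cons (nat_lit 2186) (C.node (nat_lit 3) (nat_lit 10) (nat_lit 11) (C.cons (nat_lit 3080) (C.node (nat_lit 3) (nat_lit 6) (nat_lit 11) (C.cons (nat_lit 2376) (C.miq (nat_lit 927367339) (nat_lit 256336103332845214392913665)) (C.cons (nat_lit 2120) (C.node (nat_lit 1) (nat_lit 4) (nat_lit 8) (C.cons (nat_lit 786) (C.node (nat_lit 3) (nat_lit 4) (nat_lit 8) C.nil) (C.cons (nat_lit 282) (C.miq (nat_lit 2259894385) (nat_lit 2562927939659709466226066579)) C.nil))) C.nil))) C.nil)) (C.cons (nat_lit 2184) (C.node (nat_lit 3) (nat_lit 10) (nat_lit 11) (C.cons (nat_lit 3082) (C.node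 (nat_lit 3) (nat_lit 6) (nat_lit 11) (C.cons (nat_lit 2376) (C.miq (nat_lit 927367339) (nat_lit 256336103332845214392913665)) (C.cons (nat_lit 2120) (C.node (nat_lit 1) (nat_lit 4) (nat_lit 5) (C.cons (nat_lit 122) (C.miq (nat_lit 2606959169) (nat_lit 2562932386311323323763131539)) (C.cons (nat_lit 114) (C.node (nat_lit 3) (nat_lit 4) (nat_lit 5) C.nil) (C.cons (nat_lit 58) (C.miq (nat_lit 1504919713) (nat_lit 3104522574839447954905498771)) C.nil)))) C.nil))) (C.cons (nat_lit 3080) (C.node (nat_lit 1) (nat_lit 4) (nat_lit 8) (C.cons (nat_lit 786) (C.node (nat_lit 3) (nat_lit 4) (nat_lit 8) C.nil) (C.cons (nat_lit 282) (C.node (nat_lit 4) (nat_lit 8) (nat_lit 9) C.nil) C.nil))) C.nil))) C.nil))) C.nil))))) C.nil)) C.nil)) C.nil)) C.nil)) (C.cons (nat_lit 52) (C.node (nat_lit 2) (nat_lit 4) (nat_lit 8) (C.cons (nat_lit 276) (C.node (nat_lit 3) (nat_lit 7) (nat_lit 11) (C.cons (nat_lit 2186) (C.node (nat_lit 3) (nat_lit 10) (nat_lit 11) (C.cons (nat_lit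 3080) (C.node (nat_lit 3) (nat_lit 6) (nat_lit 11) (C.cons (nat_lit 2376) (C.miq (nat_lit 927367339) (nat_lit 256336103332845214392913665)) (C.cons (nat_lit 2120) (C.node (nat_lit 1) (nat_lit 6) (nat_lit 7) (C.cons (nat_lit 962) (C.miq (nat_lit 611388312) (nat_lit 1415656986847057289475657473)) (C.cons (nat_lit 706) (C.miq (nat_lit 2792956084) (nat_lit 853530332089368801587496989)) (C.cons (nat_lit 450) (C.miq (nat_lit 1639221040) (nat_lit 2497646960003249843516277129)) (C.cons (nat_lit 194) (C.node (nat_lit 6) (nat_lit 7) (nat_lit 8) (C.cons (nat_lit 1472)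
  (C.miq (nat_lit 879168424) (nat_lit 256299523913359417352916737)) (C.cons (nat_lit 960) (C.miq (nat_lit 2792956084) (nat_lit 1160597490271484611962865693)) (C.cons (nat_lit 448) (C.node (nat_lit 1) (nat_lit 7) (nat_lit 9) (C.cons (nat_lit 930) (C.miq (nat_lit 611388312) (nat_lit 1415656986847057289473560321)) (C.cons (nat_lit 898) (C.miq (nat_lit 611388312) (nat_lit 1415656986847057289471463169)) (C.cons (nat_lit 674) (C.miq (nat_lit 1125714805) (nat_lit 632278552866509324900501729)) (C.cons (nat_lit 642) (C.node (nat_lit 1) (nat_lit 2) (nat_lit 7) (C.cons (nat_lit 166) (C.node (nat_lit 1) (nat_lit 7) (nat_lit 8) (C.cons (nat_lit 386) (C.node (nat_lit 1) (nat_lit 2) (nat_lit 10) (C.cons (nat_lit 3078) (C.miq (nat_lit 2226194082) (nat_lit 2497645594912385865645163589)) (C.cons (nat_lit 1038) (C.miq (nat_lit 1729760050) (nat_lit 1415672297699805339050706973)) (C.cons (nat_lit 1030) (C.node (nat_lit 1) (nat_lit 10) (nat_lit 11) (C.cons (nat_lit 3106)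 (C.miq (nat_lit 2584873815) (nat_lit 1245205493434154318333085921)) (C.cons (nat_lit 3074) (C.node (nat_lit 2) (nat_lit 5) (nat_lit 6) (C.cons (nat_lit 876) (C.miq (nat_lit 1948453528) (nat_lit 2510946177239619644473216769)) (C.cons (nat_lit 868) (C.miq (nat_lit 310670688) (nat_lit 333685127397676540291516641)) (C.cons (nat_lit 620) (C.miq (nat_lit 2753759077) (nat_lit 2510958573451631404839078113)) (C.cons (nat_lit 612) (C.miq (nat_lit 3106293514) (nat_lit 739920746502584494778025107)) (C.cons (nat_lit 364) (C.miq (nat_lit 2753759077) (nat_lit 2510958573451631404822300897)) (C.cons (nat_lit 356) (C.miq (nat_lit 310670688) (nat_lit 333685127397674341268261089)) (C.cons (nat_lit 108) (C.miq (nat_lit 2753759077) (nat_lit 2510958573451631404805523681)) (C.cons (nat_lit 100) (C.node (nat_lit 1) (nat_lit 2) (nat_lit 3) (C.cons (nat_lit 78) (C.node (nat_lit 1) (nat_lit 2) (nat_lit 9) (C.cons (nat_lit 2566) (C.miq (nat_lit 1804772464) (nat_lit 3102123816309631767061791891))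 (C.cons (nat_lit 518) (C.node (nat_lit 1) (nat_lit 2) (nat_lit 11) (C.cons (nat_lit 2054) (C.node (nat_lit 1) (nat_lit 3) (nat_lit 10) C.nil) C.nil)) C.nil))) (C.cons (nat_lit 14) (C.node (nat_lit 2) (nat_lit 3) (nat_lit 7) (C.cons (nat_lit 1164) (C.node (nat_lit 3) (nat_lit 6) (nat_lit 7) (C.cons (nat_lit 712) (C.miq (nat_lit 2792956084) (nat_lit 860783887007056576635734045)) (C.cons (nat_lit 200) (C.node (nat_lit 3) (nat_lit 9) (nat_lit 10) (C.cons (nat_lit 1608) (C.miq (nat_lit 2040968224) (nat_lit 1943994648150718274804713501)) (C.cons (nat_lit 1544) (C.node (nat_lit 6) (nat_lit 7) (nat_lit 9) (C.cons (nat_lit 1728) (C.node (nat_lit 2) (nat_lit 3) (nat_lit 6) (C.cons (nat_lit 844) (C.miq (nat_lit 392301208) (nat_lit 256297125581607390136766209)) (C.cons (nat_lit 588) (C.miq (nat_lit 392758307) (nat_lit 2089033464270837872287549469)) (C.cons (nat_lit 332) (C.miq (nat_lit 1654948720) (nat_lit 1881094791966570527648317833)) (C.cons (nat_lit 76) (C.node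 (nat_lit 1) (nat_lit 3) (nat_lit 10) (C.cons (nat_lit 1354) (C.miq (nat_lit 660670888) (nat_lit 234536460680488227275673345)) C.nil)) C.nil))))) (C.cons (nat_lit 704) (C.miq (nat_lit 2792956084) (nat_lit 851112480450139543238084637)) C.nil))) C.nil))) C.nil))) (C.cons (nat_lit 140) (C.node (nat_lit 2) (nat_lit 3) (nat_lit 10) (C.cons (nat_lit 1292) (C.node (nat_lit 2) (nat_lit 7) (nat_lit 10) (C.cons (nat_lit 1156) (C.node (nat_lit 1) (nat_lit 4) (nat_lit 9) (C.cons (nat_lit 530) (C.node (nat_lit 2) (nat_lit 7) (nat_lit 8) C.nil) C.nil)) C.nil)) (C.cons (nat_lit 1036) (C.node (nat_lit 1) (nat_lit 2) (nat_lit 6) (C.cons (nat_lit 2630) (C.node (nat_lit 5) (nat_lit 9) (nat_lit 11) (C.cons (nat_lit 2592) (C.node (nat_lit 1) (nat_lit 5) (nat_lit 11) (C.cons (nat_lit 2338) (C.miq (nat_lit 2166994288) (nat_lit 3179545760188551056421357793)) C.nil)) C.nil)) (C.cons (nat_lit 2118) (C.miq (nat_lit 2456514724) (nat_lit 2560554766121315957239448723)) (C.cons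 (nat_lit 582)
  (C.miq (nat_lit 3106293514) (nat_lit 703652971914145619536839827)) C.nil)))) C.nil))) C.nil))) C.nil))) C.nil))))))))) C.nil))) C.nil)))) C.nil)) (C.cons (nat_lit 134) (C.node (nat_lit 1) (nat_lit 5) (nat_lit 7) (C.cons (nat_lit 418) (C.node (nat_lit 4) (nat_lit 5) (nat_lit 7) (C.cons (nat_lit 176) (C.node (nat_lit 4) (nat_lit 7) (nat_lit 8) (C.cons (nat_lit 400) (C.node (nat_lit 7) (nat_lit 8) (nat_lit 9) (C.cons (nat_lit 896) (C.node (nat_lit 2) (nat_lit 7) (nat_lit 11) C.nil) C.nil)) C.nil)) C.nil)) (C.cons (nat_lit 162) (C.node (nat_lit 1) (nat_lit 7) (nat_lit 8) (C.cons (nat_lit 386) (C.node (nat_lit 2) (nat_lit 7) (nat_lit 11) (C.cons (nat_lit 2436) (C.node (nat_lit 7) (nat_lit 8) (nat_lit 9) (C.cons (nat_lit 928) (C.miq (nat_lit 1411879096) (nat_lit 256309392494718170243010305)) (C.cons (nat_lit 896) (C.node (nat_lit 2) (nat_lit 6) (nat_lit 11) (C.cons (nat_lit 2630) (C.miq (nat_lit 824641976) (nat_lit 162003309546003986007723777))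 (C.cons (nat_lit 2628) (C.node (nat_lit 1) (nat_lit 2) (nat_lit 9) (C.cons (nat_lit 550) (C.node (nat_lit 1) (nat_lit 9) (nat_lit 11) (C.cons (nat_lit 2562) (C.node (nat_lit 5) (nat_lit 9) (nat_lit 11) (C.cons (nat_lit 2592) (C.node (nat_lit 1) (nat_lit 2) (nat_lit 11) C.nil) C.nil)) C.nil)) (C.cons (nat_lit 518) (C.node (nat_lit 1) (nat_lit 6) (nat_lit 11) (C.cons (nat_lit 2370) (C.node (nat_lit 1) (nat_lit 9) (nat_lit 11) (C.cons (nat_lit 2562) (C.node (nat_lit 5) (nat_lit 9) (nat_lit 11) C.nil) C.nil)) (C.cons (nat_lit 2114) (C.node (nat_lit 4) (nat_lit 5) (nat_lit 7) C.nil) C.nil))) C.nil))) (C.cons (nat_lit 2118) (C.miq (nat_lit 2456514724) (nat_lit 2560554766121315957239448723)) (C.cons (nat_lit 2116) (C.miq (nat_lit 2456514724) (nat_lit 2558136914482086698890036371)) C.nil))))) C.nil))) (C.cons (nat_lit 2180) (C.node (nat_lit 7) (nat_lit 8) (nat_lit 11) (C.cons (nat_lit 2432) (C.node (nat_lit 4) (nat_lit 5) (nat_lit 7) (C.cons (nat_lit 176)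 (C.node (nat_lit 4) (nat_lit 7) (nat_lit 8) C.nil) C.nil)) C.nil)) C.nil))) C.nil)) C.nil))) C.nil))) C.nil))))) C.nil)))) C.nil))))) C.nil))) C.nil)) (C.cons (nat_lit 2184) (C.node (nat_lit 3) (nat_lit 10) (nat_lit 11) (C.cons (nat_lit 3082) (C.node (nat_lit 3) (nat_lit 6) (nat_lit 11) (C.cons (nat_lit 2376) (C.miq (nat_lit 927367339) (nat_lit 256336103332845214392913665)) (C.cons (nat_lit 2120) (C.node (nat_lit 1) (nat_lit 9) (nat_lit 10) (C.cons (nat_lit 1634) (C.miq (nat_lit 2040968224) (nat_lit 1975426719460698633347074077)) (C.cons (nat_lit 1602) (C.miq (nat_lit 2040968224) (nat_lit 1936741093233030499756476445)) (C.cons (nat_lit 1570) (C.miq (nat_lit 2444515888) (nat_lit 2497651092389178176662471721)) (C.cons (nat_lit 1538) (C.node (nat_lit 5) (nat_lit 9) (nat_lit 10) (C.cons (nat_lit 1696) (C.miq (nat_lit 1397203129) (nat_lit 183788010559152416976015105)) (C.cons (nat_lit 1632) (C.miq (nat_lit 2040968224) (nat_lit 1973008867821469374997661725))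 (C.cons (nat_lit 1568) (C.node (nat_lit 1) (nat_lit 2) (nat_lit 10) (C.cons (nat_lit 1062) (C.node (nat_lit 2) (nat_lit 10) (nat_lit 11) (C.cons (nat_lit 3076) (C.node (nat_lit 5) (nat_lit 10) (nat_lit 11) (C.cons (nat_lit 3104) (C.node (nat_lit 1) (nat_lit 6) (nat_lit 10) (C.cons (nat_lit 1346) (C.miq (nat_lit 306610362) (nat_lit 256317103149861437822734081)) (C.cons (nat_lit 1090) (C.node (nat_lit 1) (nat_lit 8) (nat_lit 10) (C.cons (nat_lit 1282) (C.node (nat_lit 2) (nat_lit 5) (nat_lit 6) (C.cons (nat_lit 876) (C.miq (nat_lit 1948453528) (nat_lit 2510946177239619644473216769)) (C.cons (nat_lit 868) (C.miq (nat_lit 3106293514) (nat_lit 1049405756323929563502806163)) (C.cons (nat_lit 620) (C.miq (nat_lit 2753759077) (nat_lit 2510958573451631404839078113)) (C.cons (nat_lit 612) (C.miq (nat_lit 3106293514) (nat_lit 739920746502584494778025107)) (C.cons (nat_lit 364) (C.miq (nat_lit 2753759077) (nat_lit 2510958573451631404822300897)) (C.cons (nat_lit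 356) (C.miq (nat_lit 1514545416) (nat_lit 3810540750765132853969748231)) (C.cons (nat_lit 108)
  (C.miq (nat_lit 2753759077) (nat_lit 2510958573451631404805523681)) (C.cons (nat_lit 100) (C.node (nat_lit 3) (nat_lit 5) (nat_lit 11) (C.cons (nat_lit 2344) (C.node (nat_lit 2) (nat_lit 5) (nat_lit 11) (C.cons (nat_lit 2596) (C.miq (nat_lit 1380432288) (nat_lit 256334203938296649435254529)) (C.cons (nat_lit 2084) (C.node (nat_lit 4) (nat_lit 5) (nat_lit 10) (C.cons (nat_lit 1072) (C.node (nat_lit 4) (nat_lit 8) (nat_lit 10) C.nil) C.nil)) C.nil))) (C.cons (nat_lit 2088) (C.node (nat_lit 3) (nat_lit 8) (nat_lit 11) (C.cons (nat_lit 2312) (C.node (nat_lit 4) (nat_lit 5) (nat_lit 10) (C.cons (nat_lit 1072) (C.node (nat_lit 4) (nat_lit 8) (nat_lit 10) C.nil) C.nil)) C.nil)) C.nil))) C.nil))))))))) C.nil)) C.nil))) C.nil)) C.nil)) (C.cons (nat_lit 1030) (C.node (nat_lit 2) (nat_lit 10) (nat_lit 11) (C.cons (nat_lit 3108) (C.node (nat_lit 2) (nat_lit 9) (nat_lit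 11) (C.cons (nat_lit 2630) (C.miq (nat_lit 621394481) (nat_lit 678255900615549624922082314)) (C.cons (nat_lit 2628) (C.node (nat_lit 1) (nat_lit 2) (nat_lit 9) (C.cons (nat_lit 550) (C.node (nat_lit 1) (nat_lit 9) (nat_lit 11) (C.cons (nat_lit 2562) (C.node (nat_lit 5) (nat_lit 9) (nat_lit 11) (C.cons (nat_lit 2592) (C.node (nat_lit 2) (nat_lit 3) (nat_lit 9) (C.cons (nat_lit 780) (C.miq (nat_lit 1948453528) (nat_lit 2510946177239619644466925313)) (C.cons (nat_lit 524) (C.node (nat_lit 2) (nat_lit 8) (nat_lit 9) (C.cons (nat_lit 772) (C.node (nat_lit 1) (nat_lit 7) (nat_lit 9) (C.cons (nat_lit 962) (C.miq (nat_lit 611388312) (nat_lit 1415656986847057289475657473)) (C.cons (nat_lit 898) (C.miq (nat_lit 611388312) (nat_lit 1415656986847057289471463169)) (C.cons (nat_lit 706) (C.miq (nat_lit 1116801895) (nat_lit 664930802509991173821696225)) (C.cons (nat_lit 642) (C.node (nat_lit 1) (nat_lit 2) (nat_lit 11) C.nil) C.nil))))) C.nil)) C.nil))) C.nil))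 C.nil)) (C.cons (nat_lit 518) (C.node (nat_lit 1) (nat_lit 2) (nat_lit 11) (C.cons (nat_lit 2182) (C.node (nat_lit 2) (nat_lit 8) (nat_lit 11) (C.cons (nat_lit 2308) (C.node (nat_lit 7) (nat_lit 8) (nat_lit 11) (C.cons (nat_lit 2432) (C.node (nat_lit 1) (nat_lit 6) (nat_lit 11) (C.cons (nat_lit 2370) (C.node (nat_lit 1) (nat_lit 5) (nat_lit 11) (C.cons (nat_lit 2594) (C.node (nat_lit 1) (nat_lit 4) (nat_lit 9) (C.cons (nat_lit 530) (C.miq (nat_lit 2173987664) (nat_lit 640736901615613138699356385)) C.nil)) C.nil)) C.nil)) C.nil)) C.nil)) (C.cons (nat_lit 2054) (C.node (nat_lit 1) (nat_lit 6) (nat_lit 11) (C.cons (nat_lit 2370) (C.node (nat_lit 1) (nat_lit 7) (nat_lit 11) (C.cons (nat_lit 2178) (C.node (nat_lit 1) (nat_lit 5) (nat_lit 11) C.nil) C.nil)) (C.cons (nat_lit 2114) (C.node (nat_lit 6) (nat_lit 8) (nat_lit 11) (C.cons (nat_lit 2368) (C.node (nat_lit 1) (nat_lit 7) (nat_lit 11) (C.cons (nat_lit 2178) (C.node (nat_lit 1) (nat_lit 8) (nat_lit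 11) C.nil) C.nil)) C.nil)) C.nil))) C.nil))) C.nil))) (C.cons (nat_lit 2566) (C.miq (nat_lit 1804772464) (nat_lit 3102123816309631767061791891)) (C.cons (nat_lit 2564) (C.miq (nat_lit 1804772464) (nat_lit 3099705964670402508712379539)) C.nil))))) (C.cons (nat_lit 3076) (C.node (nat_lit 5) (nat_lit 10) (nat_lit 11) (C.cons (nat_lit 3104) (C.node (nat_lit 3) (nat_lit 5) (nat_lit 11) (C.cons (nat_lit 2344) (C.node (nat_lit 1) (nat_lit 8) (nat_lit 10) (C.cons (nat_lit 1378) (C.miq (nat_lit 306610362) (nat_lit 256317693445671796528385793)) (C.cons (nat_lit 1346) (C.miq (nat_lit 306610362) (nat_lit 256317103149861437822734081)) (C.cons (nat_lit 1314) (C.miq (nat_lit 414491952) (nat_lit 2804729503013118186140533801)) (C.cons (nat_lit 1282) (C.node (nat_lit 1) (nat_lit 5) (nat_lit 10) (C.cons (nat_lit 1122) (C.node (nat_lit 6) (nat_lit 9) (nat_lit 11) (C.cons (nat_lit 2630) (C.miq (nat_lit 564377168) (nat_lit 3725947690680012218955270369)) (C.cons (nat_lit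 2628) (C.node (nat_lit 1) (nat_lit 3) (nat_lit 5) (C.cons (nat_lit 174) (C.miq (nat_lit 2199565680) (nat_lit 3725980230656052327643023585)) (C.cons (nat_lit 170) (C.miq (nat_lit 2199565680) (nat_lit 3725980230656052310463154401))
  (C.cons (nat_lit 58) (C.miq (nat_lit 2585070388) (nat_lit 1356425119312197907717425181)) (C.cons (nat_lit 46) (C.miq (nat_lit 1680190257) (nat_lit 62884840754029466443713546)) (C.cons (nat_lit 42) (C.node (nat_lit 6) (nat_lit 7) (nat_lit 8) (C.cons (nat_lit 1472) (C.miq (nat_lit 879168424) (nat_lit 256299523913359417352916737)) (C.cons (nat_lit 962) (C.miq (nat_lit 611388312) (nat_lit 1415656986847057289475657473)) (C.cons (nat_lit 960) (C.miq (nat_lit 845613976) (nat_lit 256299523913357166756499201)) (C.cons (nat_lit 450) (C.miq (nat_lit 2174973520) (nat_lit 3725916625749376642841118945)) (C.cons (nat_lit 448) (C.node (nat_lit 7) (nat_lit 8) (nat_lit 9) (C.cons (nat_lit 930) (C.miq (nat_lit 611388312) (nat_lit 1415656986847057289473560321))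 (C.cons (nat_lit 928) (C.miq (nat_lit 1529447175) (nat_lit 3177074173185532139690852745)) (C.cons (nat_lit 898) (C.miq (nat_lit 611388312) (nat_lit 1415656986847057289471463169)) (C.cons (nat_lit 896) (C.node (nat_lit 1) (nat_lit 7) (nat_lit 8) (C.cons (nat_lit 2434) (C.miq (nat_lit 974671995) (nat_lit 1549886140213839256925374689)) (C.cons (nat_lit 418) (C.miq (nat_lit 364148784) (nat_lit 2533930119167239671873601929)) (C.cons (nat_lit 386) (C.node (nat_lit 1) (nat_lit 6) (nat_lit 11) (C.cons (nat_lit 2114) (C.node (nat_lit 1) (nat_lit 8) (nat_lit 11) C.nil) C.nil)) C.nil)))) C.nil))))) C.nil)))))) C.nil)))))) (C.cons (nat_lit 2626) (C.miq (nat_lit 649660999) (nat_lit 3174651100765609442898085011)) (C.cons (nat_lit 2624) (C.miq (nat_lit 649660999) (nat_lit 3172233249126380184548672659)) C.nil))))) (C.cons (nat_lit 1058) (C.node (nat_lit 1) (nat_lit 6) (nat_lit 10) (C.cons (nat_lit 1090) (C.node (nat_lit 4) (nat_lit 5) (nat_lit 10) (C.cons (nat_lit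 1072) (C.node (nat_lit 4) (nat_lit 8) (nat_lit 10) C.nil) C.nil)) C.nil)) C.nil))) C.nil))))) (C.cons (nat_lit 2088) (C.node (nat_lit 3) (nat_lit 8) (nat_lit 11) (C.cons (nat_lit 2312) (C.node (nat_lit 6) (nat_lit 8) (nat_lit 11) (C.cons (nat_lit 2372) (C.miq (nat_lit 341969592) (nat_lit 256297125581613506270334721)) (C.cons (nat_lit 2370) (C.node (nat_lit 1) (nat_lit 7) (nat_lit 11) (C.cons (nat_lit 2182) (C.node (nat_lit 7) (nat_lit 8) (nat_lit 11) C.nil) C.nil)) C.nil))) C.nil)) C.nil))) C.nil)) C.nil))) C.nil))) C.nil)))) C.nil))))) C.nil))) (C.cons (nat_lit 3080) (C.node (nat_lit 4) (nat_lit 5) (nat_lit 7) (C.cons (nat_lit 432) (C.node (nat_lit 4) (nat_lit 5) (nat_lit 10) (C.cons (nat_lit 1072) (C.node (nat_lit 4) (nat_lit 8) (nat_lit 10) (C.cons (nat_lit 1296) (C.node (nat_lit 5) (nat_lit 7) (nat_lit 10) (C.cons (nat_lit 1696) (C.miq (nat_lit 880085914) (nat_lit 522275600440593444476292865)) (C.cons (nat_lit 1188) (C.miq (nat_lit 1477080162)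 (nat_lit 4643505987993348864408355028)) (C.cons (nat_lit 1184) (C.node (nat_lit 7) (nat_lit 8) (nat_lit 9) (C.cons (nat_lit 962) (C.miq (nat_lit 611388312) (nat_lit 1415656986847057289475657473)) (C.cons (nat_lit 960) (C.miq (nat_lit 2792956084) (nat_lit 1160597490271484611962865693)) (C.cons (nat_lit 898) (C.miq (nat_lit 611388312) (nat_lit 1415656986847057289471463169)) (C.cons (nat_lit 896) (C.node (nat_lit 1) (nat_lit 4) (nat_lit 8) (C.cons (nat_lit 786) (C.node (nat_lit 3) (nat_lit 4) (nat_lit 8) C.nil) (C.cons (nat_lit 282) (C.node (nat_lit 4) (nat_lit 8) (nat_lit 9) C.nil) C.nil))) C.nil))))) C.nil)))) C.nil)) C.nil)) (C.cons (nat_lit 176) (C.node (nat_lit 4) (nat_lit 7) (nat_lit 8) (C.cons (nat_lit 400) (C.node (nat_lit 4) (nat_lit 5) (nat_lit 10) (C.cons (nat_lit 1328) (C.node (nat_lit 7) (nat_lit 8) (nat_lit 10) (C.cons (nat_lit 1472) (C.miq (nat_lit 879168424) (nat_lit 256299523913359417352916737)) (C.cons (nat_lit 1412) (C.miq (nat_lit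 2231870610) (nat_lit 2747914435160485370584696340)) (C.cons (nat_lit 1408) (C.node (nat_lit 2) (nat_lit 8) (nat_lit 9) (C.cons (nat_lit 876) (C.miq (nat_lit 1948453528) (nat_lit 2510946177239619644473216769)) (C.cons (nat_lit 868) (C.miq (nat_lit 1951533705) (nat_lit 62876041099501161247149825)) (C.cons (nat_lit 844)
  (C.miq (nat_lit 1948453528) (nat_lit 2510946177239619644471119617)) (C.cons (nat_lit 836) (C.miq (nat_lit 3106293514) (nat_lit 1010720130096261429912208531)) (C.cons (nat_lit 812) (C.miq (nat_lit 1948453528) (nat_lit 2510946177239619644469022465)) (C.cons (nat_lit 804) (C.miq (nat_lit 1951533705) (nat_lit 62876041099501161242955521)) (C.cons (nat_lit 780) (C.miq (nat_lit 1948453528) (nat_lit 2510946177239619644466925313)) (C.cons (nat_lit 772) (C.node (nat_lit 2) (nat_lit 8) (nat_lit 10) (C.cons (nat_lit 1292) (C.node (nat_lit 1) (nat_lit 8) (nat_lit 10) (C.cons (nat_lit 1346) (C.miq (nat_lit 306610362) (nat_lit 256317103149861437822734081))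 (C.cons (nat_lit 1282) (C.node (nat_lit 6) (nat_lit 8) (nat_lit 10) (C.cons (nat_lit 1344) (C.node (nat_lit 1) (nat_lit 4) (nat_lit 8) (C.cons (nat_lit 786) (C.miq (nat_lit 413373520) (nat_lit 1561941806810496479296815665)) (C.cons (nat_lit 282) (C.node (nat_lit 4) (nat_lit 8) (nat_lit 9) C.nil) C.nil))) C.nil)) C.nil))) (C.cons (nat_lit 1284) (C.node (nat_lit 1) (nat_lit 4) (nat_lit 8) (C.cons (nat_lit 786) (C.node (nat_lit 3) (nat_lit 4) (nat_lit 8) C.nil) (C.cons (nat_lit 282) (C.node (nat_lit 4) (nat_lit 8) (nat_lit 9) C.nil) C.nil))) C.nil))) C.nil))))))))) C.nil)))) C.nil)) C.nil)) C.nil))) C.nil))) C.nil))) C.nil)) C.nil))) C.nil))) C.nil)))) C.nil)))) C.nil))) (C.cons (nat_lit 1552) (C.miq (nat_lit 714367159) (nat_lit 1876256783059316752260270305)) C.nil)))) C.nil))) (C.cons (nat_lit 208) (C.miq (nat_lit 642190009) (nat_lit 251468468937436098458554113)) C.nil)))) (C.cons (nat_lit 2128) (C.node (nat_lit 4) (nat_lit 10) (nat_lit 11) (C.cons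 (nat_lit 3088) (C.node (nat_lit 4) (nat_lit 6) (nat_lit 7) (C.cons (nat_lit 216) (C.node (nat_lit 3) (nat_lit 4) (nat_lit 9) (C.cons (nat_lit 1560) (C.miq (nat_lit 1464011674) (nat_lit 261147623459002638166134529)) (C.cons (nat_lit 792) (C.miq (nat_lit 2490073968) (nat_lit 2572664998306847111579238793)) (C.cons (nat_lit 536) (C.node (nat_lit 3) (nat_lit 4) (nat_lit 10) (C.cons (nat_lit 1304) (C.miq (nat_lit 2758509424) (nat_lit 2572664998450962299655094665)) (C.cons (nat_lit 1048) (C.node (nat_lit 3) (nat_lit 9) (nat_lit 11) (C.cons (nat_lit 2632) (C.miq (nat_lit 2471147120) (nat_lit 1267025113640961559971956961)) (C.cons (nat_lit 2600) (C.miq (nat_lit 2761099189) (nat_lit 648003885425498549805123809)) (C.cons (nat_lit 2568) (C.node (nat_lit 6) (nat_lit 7) (nat_lit 10) (C.cons (nat_lit 1728) (C.miq (nat_lit 611715994) (nat_lit 261148139912667606609301249)) (C.cons (nat_lit 1472) (C.miq (nat_lit 2789967664) (nat_lit 2572664998498250095729639817)) (C.cons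 (nat_lit 1216) (C.node (nat_lit 3) (nat_lit 7) (nat_lit 11) (C.cons (nat_lit 3208) (C.miq (nat_lit 1400113849) (nat_lit 261138325959969881424137985)) (C.cons (nat_lit 2186) (C.node (nat_lit 3) (nat_lit 5) (nat_lit 11) (C.cons (nat_lit 2344) (C.node (nat_lit 3) (nat_lit 4) (nat_lit 8) (C.cons (nat_lit 282) (C.miq (nat_lit 1798833940) (nat_lit 2833728338369245636510483603)) (C.cons (nat_lit 280) (C.node (nat_lit 1) (nat_lit 7) (nat_lit 8) (C.cons (nat_lit 962) (C.miq (nat_lit 611388312) (nat_lit 1415656986847057289475657473)) (C.cons (nat_lit 930) (C.miq (nat_lit 611388312) (nat_lit 1415656986847057289473560321)) (C.cons (nat_lit 898) (C.miq (nat_lit 611388312) (nat_lit 1415656986847057289471463169)) (C.cons (nat_lit 450) (C.miq (nat_lit 407074315) (nat_lit 338539554201306485057456353)) (C.cons (nat_lit 418) (C.miq (nat_lit 339243189) (nat_lit 338506940560735098039175393)) (C.cons (nat_lit 386) (C.node (nat_lit 1) (nat_lit 3) (nat_lit 4) (C.cons (nat_lit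 58) (C.node (nat_lit 1) (nat_lit 5) (nat_lit 8) (C.cons (nat_lit 1378) (C.miq (nat_lit 414491952) (nat_lit 2804729503031132584650015785)) (C.cons (nat_lit 1314) (C.miq (nat_lit 414491952) (nat_lit 2804729503013118186140533801)) (C.cons (nat_lit 866) (C.miq (nat_lit 2823883572) (nat_lit 1046951362004734632133265437)) (C.cons (nat_lit 802) (C.miq (nat_lit 2823883572) (nat_lit 969580109549398364952070173)) (C.cons (nat_lit 354)
  (C.miq (nat_lit 2823883572) (nat_lit 427981342362044494683703325)) (C.cons (nat_lit 290) (C.miq (nat_lit 2823883572) (nat_lit 350610089906708227502508061)) C.nil))))))) (C.cons (nat_lit 26) (C.node (nat_lit 3) (nat_lit 4) (nat_lit 5) (C.cons (nat_lit 56) (C.node (nat_lit 1) (nat_lit 8) (nat_lit 11) (C.cons (nat_lit 2370) (C.node (nat_lit 1) (nat_lit 3) (nat_lit 8) (C.cons (nat_lit 1290) (C.miq (nat_lit 1394063520) (nat_lit 2642753771786641803712859905)) (C.cons (nat_lit 266) (C.node (nat_lit 1) (nat_lit 8) (nat_lit 10) (C.cons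 (nat_lit 1314) (C.miq (nat_lit 339058872) (nat_lit 67724085249748206663241473)) (C.cons (nat_lit 1282) (C.node (nat_lit 2) (nat_lit 6) (nat_lit 11) (C.cons (nat_lit 2628) (C.miq (nat_lit 2527572484) (nat_lit 1470103677387085320341882909)) (C.cons (nat_lit 2116) (C.node (nat_lit 6) (nat_lit 9) (nat_lit 11) (C.cons (nat_lit 2624) (C.node (nat_lit 2) (nat_lit 8) (nat_lit 11) (C.cons (nat_lit 2436) (C.node (nat_lit 7) (nat_lit 10) (nat_lit 11) (C.cons (nat_lit 3200) (C.node (nat_lit 2) (nat_lit 4) (nat_lit 7) (C.cons (nat_lit 180) (C.miq (nat_lit 1350715831) (nat_lit 317950811130504699730725520)) (C.cons (nat_lit 148) (C.node (nat_lit 2) (nat_lit 6) (nat_lit 7) (C.cons (nat_lit 198) (C.miq (nat_lit 2551319399) (nat_lit 317959389789730580239616225)) (C.cons (nat_lit 196) (C.node (nat_lit 6) (nat_lit 7) (nat_lit 8) (C.cons (nat_lit 960) (C.miq (nat_lit 2521532208) (nat_lit 2572664998354134907653783945)) (C.cons (nat_lit 448) (C.node (nat_lit 7) (nat_lit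 8) (nat_lit 9) (C.cons (nat_lit 928) (C.miq (nat_lit 1411879096) (nat_lit 178938140039381903061815041)) (C.cons (nat_lit 896) (C.node (nat_lit 7) (nat_lit 8) (nat_lit 10) (C.cons (nat_lit 1440) (C.miq (nat_lit 1949671608) (nat_lit 67726409539501494066745089)) (C.cons (nat_lit 1408) (C.node (nat_lit 4) (nat_lit 7) (nat_lit 8) C.nil) C.nil))) C.nil))) C.nil))) C.nil))) C.nil))) C.nil)) (C.cons (nat_lit 2308) (C.node (nat_lit 7) (nat_lit 8) (nat_lit 11) (C.cons (nat_lit 2432) (C.node (nat_lit 2) (nat_lit 7) (nat_lit 11) (C.cons (nat_lit 3204) (C.node (nat_lit 1) (nat_lit 10) (nat_lit 11) (C.cons (nat_lit 3074) (C.node (nat_lit 5) (nat_lit 10) (nat_lit 11) C.nil) C.nil)) (C.cons (nat_lit 2180) (C.node (nat_lit 7) (nat_lit 10) (nat_lit 11) C.nil) C.nil))) C.nil)) C.nil))) C.nil)) C.nil))) C.nil))) C.nil))) (C.cons (nat_lit 2306) (C.node (nat_lit 3) (nat_lit 6) (nat_lit 11) (C.cons (nat_lit 3144) (C.node (nat_lit 6) (nat_lit 8) (nat_lit 11) (C.cons (nat_lit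 2372) (C.miq (nat_lit 2181412515) (nat_lit 44773495161513393879845960)) (C.cons (nat_lit 2368) (C.node (nat_lit 1) (nat_lit 3) (nat_lit 10) (C.cons (nat_lit 1290) (C.miq (nat_lit 1394063520) (nat_lit 2642753771786641803712859905)) (C.cons (nat_lit 1038) (C.miq (nat_lit 1729760050) (nat_lit 1415672297699805339050706973)) (C.cons (nat_lit 1034) (C.node (nat_lit 3) (nat_lit 8) (nat_lit 10) (C.cons (nat_lit 1292) (C.miq (nat_lit 683058000) (nat_lit 2862756503502390187706614825)) (C.cons (nat_lit 1288) (C.node (nat_lit 1) (nat_lit 3) (nat_lit 8) (C.cons (nat_lit 330) (C.node (nat_lit 1) (nat_lit 8) (nat_lit 10) (C.cons (nat_lit 1314) (C.miq (nat_lit 339058872) (nat_lit 67724085249748206663241473)) (C.cons (nat_lit 1282) (C.node (nat_lit 6) (nat_lit 8) (nat_lit 10) (C.cons (nat_lit 1376) (C.miq (nat_lit 596249430) (nat_lit 1557116618539548535683025121)) (C.cons (nat_lit 1344) (C.node (nat_lit 2) (nat_lit 3) (nat_lit 8) (C.cons (nat_lit 780) (C.node (nat_lit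 2) (nat_lit 8) (nat_lit 11) C.nil) C.nil)) C.nil))) C.nil))) (C.cons (nat_lit 266) (C.node (nat_lit 2) (nat_lit 8) (nat_lit 11) (C.cons (nat_lit 2436) (C.node (nat_lit 7) (nat_lit 10) (nat_lit 11) C.nil) C.nil)) C.nil))) C.nil))) C.nil)))) C.nil))) (C.cons (nat_lit 2120) (C.node (nat_lit 3) (nat_lit 10) (nat_lit 11) (C.cons (nat_lit 3080) (C.node (nat_lit 6) (nat_lit 8) (nat_lit 11) (C.cons (nat_lit 2372) (C.node (nat_lit 7) (nat_lit 8) (nat_lit 11) (C.cons (nat_lit 2432) (C.node (nat_lit 2) (nat_lit 6) (nat_lit 7) (C.cons (nat_lit 198)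
  (C.miq (nat_lit 2820737895) (nat_lit 317969092777113360053700833)) (C.cons (nat_lit 196) (C.node (nat_lit 2) (nat_lit 7) (nat_lit 11) (C.cons (nat_lit 3204) (C.miq (nat_lit 1193675448) (nat_lit 236955677526841117320154881)) (C.cons (nat_lit 2180) (C.node (nat_lit 7) (nat_lit 10) (nat_lit 11) C.nil) C.nil))) C.nil))) C.nil)) (C.cons (nat_lit 2368) (C.node (nat_lit 1) (nat_lit 3) (nat_lit 8) (C.cons (nat_lit 1354) (C.miq (nat_lit 1394063520) (nat_lit 2642753771786642078590766849)) (C.cons (nat_lit 1290) (C.miq (nat_lit 1394063520) (nat_lit 2642753771786641803712859905)) (C.cons (nat_lit 330) (C.node (nat_lit 1) (nat_lit 3) (nat_lit 10) (C.cons (nat_lit 1038) (C.miq (nat_lit 1729760050) (nat_lit 1415672297699805339050706973)) C.nil)) C.nil)))) C.nil))) C.nil)) C.nil))) C.nil))) C.nil)) C.nil))) C.nil))))))) C.nil))) (C.cons (nat_lit 2088) (C.node (nat_lit 3) (nat_lit 8) (nat_lit 11) (C.cons (nat_lit 2376) (C.miq (nat_lit 2202711664) (nat_lit 1267025113568903965934029025))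 (C.cons (nat_lit 2312) (C.node (nat_lit 3) (nat_lit 6) (nat_lit 11) (C.cons (nat_lit 3144) (C.node (nat_lit 7) (nat_lit 8) (nat_lit 11) (C.cons (nat_lit 2436) (C.node (nat_lit 7) (nat_lit 10) (nat_lit 11) (C.cons (nat_lit 3200) (C.node (nat_lit 2) (nat_lit 4) (nat_lit 7) (C.cons (nat_lit 180) (C.miq (nat_lit 1350715831) (nat_lit 317950811130504699730725520)) (C.cons (nat_lit 148) (C.node (nat_lit 6) (nat_lit 7) (nat_lit 8) (C.cons (nat_lit 962) (C.miq (nat_lit 611388312) (nat_lit 1415656986847057289475657473)) (C.cons (nat_lit 960) (C.miq (nat_lit 2521532208) (nat_lit 2572664998354134907653783945)) (C.cons (nat_lit 450) (C.miq (nat_lit 1639221040) (nat_lit 2497646960003249843516277129)) (C.cons (nat_lit 448) (C.node (nat_lit 7) (nat_lit 8) (nat_lit 9) (C.cons (nat_lit 930) (C.miq (nat_lit 611388312) (nat_lit 1415656986847057289473560321)) (C.cons (nat_lit 928) (C.miq (nat_lit 1411879096) (nat_lit 178938140039381903061815041)) (C.cons (nat_lit 898)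 (C.miq (nat_lit 611388312) (nat_lit 1415656986847057289471463169)) (C.cons (nat_lit 896) (C.node (nat_lit 1) (nat_lit 7) (nat_lit 8) (C.cons (nat_lit 418) (C.node (nat_lit 4) (nat_lit 5) (nat_lit 7) (C.cons (nat_lit 176) (C.node (nat_lit 4) (nat_lit 7) (nat_lit 8) (C.cons (nat_lit 400) (C.node (nat_lit 5) (nat_lit 8) (nat_lit 11) (C.cons (nat_lit 2336) (C.node (nat_lit 7) (nat_lit 8) (nat_lit 10) (C.cons (nat_lit 1408) (C.node (nat_lit 1) (nat_lit 3) (nat_lit 4) (C.cons (nat_lit 26) (C.node (nat_lit 1) (nat_lit 4) (nat_lit 8) C.nil) C.nil)) C.nil)) C.nil)) C.nil)) C.nil)) (C.cons (nat_lit 386) (C.node (nat_lit 2) (nat_lit 6) (nat_lit 7) (C.cons (nat_lit 198) (C.node (nat_lit 6) (nat_lit 7) (nat_lit 9) (C.cons (nat_lit 704) (C.node (nat_lit 1) (nat_lit 5) (nat_lit 7) (C.cons (nat_lit 674) (C.miq (nat_lit 1125714805) (nat_lit 632278552866509324900501729)) (C.cons (nat_lit 162) (C.node (nat_lit 1) (nat_lit 7) (nat_lit 9) (C.cons (nat_lit 642) (C.node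 (nat_lit 4) (nat_lit 5) (nat_lit 7) (C.cons (nat_lit 432) (C.node (nat_lit 7) (nat_lit 8) (nat_lit 10) C.nil) C.nil)) C.nil)) C.nil))) C.nil)) (C.cons (nat_lit 196) (C.node (nat_lit 1) (nat_lit 2) (nat_lit 7) (C.cons (nat_lit 166) (C.node (nat_lit 5) (nat_lit 8) (nat_lit 11) (C.cons (nat_lit 2338) (C.miq (nat_lit 2551319383) (nat_lit 317959389789730442798565601)) (C.cons (nat_lit 2336) (C.node (nat_lit 7) (nat_lit 8) (nat_lit 10) (C.cons (nat_lit 1440) (C.miq (nat_lit 846531466) (nat_lit 200701332423100932936437505)) (C.cons (nat_lit 1408) (C.node (nat_lit 5) (nat_lit 7) (nat_lit 10) (C.cons (nat_lit 1696) (C.miq (nat_lit 1397203129) (nat_lit 261159263014488684157210369)) (C.cons (nat_lit 1184) (C.node (nat_lit 1) (nat_lit 6) (nat_lit 7) (C.cons (nat_lit 706) (C.node (nat_lit 2) (nat_lit 3) (nat_lit 7) C.nil) C.nil)) C.nil))) C.nil))) C.nil))) (C.cons (nat_lit 134) (C.node (nat_lit 1) (nat_lit 5) (nat_lit 7) (C.cons (nat_lit 674) (C.miq (nat_lit 1125714805)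 (nat_lit 632278552866509324900501729)) (C.cons (nat_lit 162) (C.node (nat_lit 1) (nat_lit 6) (nat_lit 7)
  (C.cons (nat_lit 706) (C.node (nat_lit 4) (nat_lit 5) (nat_lit 7) (C.cons (nat_lit 432) (C.node (nat_lit 7) (nat_lit 8) (nat_lit 10) C.nil) C.nil)) C.nil)) C.nil))) C.nil))) C.nil))) C.nil))) C.nil))))) C.nil))))) C.nil))) C.nil)) (C.cons (nat_lit 2432) (C.node (nat_lit 2) (nat_lit 7) (nat_lit 11) (C.cons (nat_lit 3204) (C.node (nat_lit 1) (nat_lit 10) (nat_lit 11) (C.cons (nat_lit 3106) (C.node (nat_lit 5) (nat_lit 9) (nat_lit 11) (C.cons (nat_lit 2596) (C.miq (nat_lit 1537512048) (nat_lit 3733173280324123043243950725)) (C.cons (nat_lit 2592) (C.node (nat_lit 1) (nat_lit 8) (nat_lit 11) (C.cons (nat_lit 2306) (C.node (nat_lit 2) (nat_lit 5) (nat_lit 11) C.nil) C.nil)) C.nil))) (C.cons (nat_lit 3074) (C.node (nat_lit 5) (nat_lit 10) (nat_lit 11) (C.cons (nat_lit 3104) (C.node (nat_lit 2) (nat_lit 8) (nat_lit 11) (C.cons (nat_lit 2372) (C.miq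 (nat_lit 642234378) (nat_lit 261187081072432159378312961)) (C.cons (nat_lit 2340) (C.node (nat_lit 1) (nat_lit 5) (nat_lit 11) C.nil) C.nil))) C.nil)) C.nil))) (C.cons (nat_lit 2180) (C.node (nat_lit 7) (nat_lit 10) (nat_lit 11) (C.cons (nat_lit 3200) (C.node (nat_lit 6) (nat_lit 9) (nat_lit 11) (C.cons (nat_lit 2630) (C.miq (nat_lit 2527572484) (nat_lit 1470103677387648270295304221)) (C.cons (nat_lit 2628) (C.miq (nat_lit 2527572484) (nat_lit 1470103677387085320341882909)) (C.cons (nat_lit 2626) (C.node (nat_lit 1) (nat_lit 8) (nat_lit 11) (C.cons (nat_lit 2338) (C.node (nat_lit 1) (nat_lit 2) (nat_lit 11) C.nil) C.nil)) C.nil)))) C.nil)) C.nil))) C.nil))) (C.cons (nat_lit 2120) (C.node (nat_lit 3) (nat_lit 10) (nat_lit 11) (C.cons (nat_lit 3080) (C.node (nat_lit 6) (nat_lit 10) (nat_lit 11) (C.cons (nat_lit 3138) (C.node (nat_lit 6) (nat_lit 9) (nat_lit 11) (C.cons (nat_lit 2628) (C.miq (nat_lit 2527572484) (nat_lit 1470103677387085320341882909))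 (C.cons (nat_lit 2624) (C.node (nat_lit 1) (nat_lit 8) (nat_lit 11) (C.cons (nat_lit 2338) (C.node (nat_lit 1) (nat_lit 2) (nat_lit 11) (C.cons (nat_lit 2566) (C.node (nat_lit 5) (nat_lit 9) (nat_lit 11) C.nil) C.nil)) C.nil)) C.nil))) (C.cons (nat_lit 3136) (C.node (nat_lit 7) (nat_lit 8) (nat_lit 11) (C.cons (nat_lit 2436) (C.node (nat_lit 7) (nat_lit 10) (nat_lit 11) C.nil) (C.cons (nat_lit 2432) (C.node (nat_lit 2) (nat_lit 7) (nat_lit 11) C.nil) C.nil))) C.nil))) C.nil)) C.nil))) C.nil))) C.nil))) (C.cons (nat_lit 2184) (C.ref (nat_lit 254) (nat_lit 205163983024656)) C.nil)))) C.nil)))) C.nil)))) C.nil))) C.nil)))) (C.cons (nat_lit 212) (C.miq (nat_lit 2873493874) (nat_lit 2572614307512360447465751173)) (C.cons (nat_lit 208) (C.ref (nat_lit 263) (nat_lit 205163983024656)) C.nil)))) C.nil)) C.nil))) List.nil)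

theorem ok12_264 : okL par12 (nat_lit 265) c12_264 (nat_lit 264) = true := by decide +kernel

noncomputable def c12_265 : List C :=
  (List.cons (C.node (nat_lit 1) (nat_lit 4) (nat_lit 11) (C.cons (nat_lit 2130) (C.ref (nat_lit 245) (nat_lit 205163983024656)) (C.cons (nat_lit 2098) (C.node (nat_lit 4) (nat_lit 6) (nat_lit 11) (C.cons (nat_lit 3152) (C.node (nat_lit 4) (nat_lit 6) (nat_lit 7) (C.cons (nat_lit 216) (C.miq (nat_lit 642190009) (nat_lit 261139875494353131856203521)) (C.cons (nat_lit 212) (C.node (nat_lit 1) (nat_lit 2) (nat_lit 4) (C.cons (nat_lit 534) (C.miq (nat_lit 2839677814) (nat_lit 645586551046641542984108257)) (C.cons (nat_lit 22) (C.node (nat_lit 3) (nat_lit 4) (nat_lit 7) (C.cons (nat_lit 184) (C.miq (nat_lit 2722301557) (nat_lit 2510958573429676356627073249)) (C.cons (nat_lit 152) (C.node (nat_lit 2) (nat_lit 4) (nat_lit 9) (C.cons (nat_lit 1556) (C.node (nat_lit 3) (nat_lit 4) (nat_lit 10) (C.cons (nat_lit 1304) (C.miq (nat_lit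 607623808) (nat_lit 183768623169331841641025281)) (C.cons (nat_lit 1048) (C.node (nat_lit 3) (nat_lit 9) (nat_lit 11) (C.cons (nat_lit 2632) (C.miq (nat_lit 649660999) (nat_lit 3181904655683297217946322067)) (C.cons (nat_lit 2600) (C.miq (nat_lit 977883259) (nat_lit 1881136537154730520457775329)) (C.cons (nat_lit 2568) (C.node (nat_lit 5) (nat_lit 9) (nat_lit 11) (C.cons (nat_lit 2596) (C.miq (nat_lit 1380432288) (nat_lit 256334203938296649435254529)) (C.cons (nat_lit 2592) (C.node (nat_lit 7) (nat_lit 10) (nat_lit 11) (C.cons (nat_lit 3208) (C.miq (nat_lit 1400113849) (nat_lit 183767073504633614242942721)) (C.cons (nat_lit 3204) (C.miq (nat_lit 1461980073) (nat_lit 256302623021533119336681217)) (C.cons (nat_lit 3200) (C.node (nat_lit 1) (nat_lit 7) (nat_lit 9) (C.cons (nat_lit 962) (C.miq (nat_lit 611388312) (nat_lit 1415656986847057289475657473)) (C.cons (nat_lit 930) (C.miq (nat_lit 611388312) (nat_lit 1415656986847057289473560321)) (C.cons (nat_lit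 898) (C.miq (nat_lit 611388312) (nat_lit 1415656986847057289471463169)) (C.cons (nat_lit 706) (C.miq (nat_lit 2792956084) (nat_lit 853530332089368801587496989)) (C.cons (nat_lit 674) (C.miq (nat_lit 2453762229) (nat_lit 26608801318587802844268769)) (C.cons (nat_lit 642) (C.node (nat_lit 2) (nat_lit 4) (nat_lit 5) (C.cons (nat_lit 308) (C.node (nat_lit 4) (nat_lit 5) (nat_lit 7) (C.cons (nat_lit 176) (C.node (nat_lit 4) (nat_lit 5) (nat_lit 10) (C.cons (nat_lit 1072) (C.node (nat_lit 4) (nat_lit 7) (nat_lit 8) (C.cons (nat_lit 400) (C.node (nat_lit 4) (nat_lit 8) (nat_lit 10) (C.cons (nat_lit 1296) (C.node (nat_lit 2) (nat_lit 8) (nat_lit 9) (C.cons (nat_lit 844) (C.miq (nat_lit 1948453528) (nat_lit 2510946177239619644471119617)) (C.cons (nat_lit 836) (C.miq (nat_lit 3106293514) (nat_lit 1010720130096261429912208531)) (C.cons (nat_lit 780) (C.miq (nat_lit 1948453528) (nat_lit 2510946177239619644466925313)) (C.cons (nat_lit 772) (C.node (nat_lit 2)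 (nat_lit 5) (nat_lit 11) (C.cons (nat_lit 3108) (C.node (nat_lit 5) (nat_lit 6) (nat_lit 10) (C.cons (nat_lit 1634) (C.miq (nat_lit 605686614) (nat_lit 1415672297644635865697356001)) (C.cons (nat_lit 1632) (C.miq (nat_lit 2040968224) (nat_lit 1973008867821469374997661725)) (C.cons (nat_lit 1378) (C.miq (nat_lit 306610362) (nat_lit 256317693445671796528385793)) (C.cons (nat_lit 1376) (C.miq (nat_lit 1680179386) (nat_lit 372374535256017198154780417)) (C.cons (nat_lit 1122) (C.miq (nat_lit 605686614) (nat_lit 1415672297644635865663801569)) (C.cons (nat_lit 1120) (C.node (nat_lit 1) (nat_lit 2) (nat_lit 10) (C.cons (nat_lit 1038) (C.node (nat_lit 1) (nat_lit 10) (nat_lit 11) (C.cons (nat_lit 3074) (C.node (nat_lit 3) (nat_lit 10) (nat_lit 11) (C.cons (nat_lit 3080) (C.node (nat_lit 2) (nat_lit 3) (nat_lit 7) (C.cons (nat_lit 172) (C.miq (nat_lit 2317552471) (nat_lit 1254872251411564785514055905)) (C.cons (nat_lit 140) (C.node (nat_lit 2) (nat_lit 3) (nat_lit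 8) (C.cons (nat_lit 332) (C.miq (nat_lit 1671725584) (nat_lit 1266960475602338365731700999)) (C.cons (nat_lit 268) (C.node (nat_lit 2) (nat_lit 6) (nat_lit 8) (C.cons (nat_lit 2372) (C.miq (nat_lit 341969592) (nat_lit 256297125581613506270334721))
  (C.cons (nat_lit 324) (C.node (nat_lit 2) (nat_lit 8) (nat_lit 11) (C.cons (nat_lit 2436) (C.miq (nat_lit 1383312256) (nat_lit 169269261403321275314147073)) (C.cons (nat_lit 2308) (C.node (nat_lit 2) (nat_lit 7) (nat_lit 11) (C.cons (nat_lit 2182) (C.miq (nat_lit 2450786229) (nat_lit 26606716836507924636502241)) (C.cons (nat_lit 2180) (C.node (nat_lit 2) (nat_lit 6) (nat_lit 11) (C.cons (nat_lit 2630) (C.miq (nat_lit 1377020816) (nat_lit 1254884647417259107432468225)) (C.cons (nat_lit 2116) (C.miq (nat_lit 2456514724) (nat_lit 2558136914482086698890036371)) C.nil))) C.nil))) C.nil))) C.nil))) C.nil))) C.nil))) C.nil)) C.nil)) (C.cons (nat_lit 1030) (C.node (nat_lit 1) (nat_lit 10) (nat_lit 11) (C.cons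 (nat_lit 3082) (C.node (nat_lit 3) (nat_lit 7) (nat_lit 11) (C.cons (nat_lit 2184) (C.node (nat_lit 3) (nat_lit 6) (nat_lit 11) (C.cons (nat_lit 2376) (C.miq (nat_lit 927367339) (nat_lit 256336103332845214392913665)) (C.cons (nat_lit 2120) (C.node (nat_lit 1) (nat_lit 6) (nat_lit 10) (C.cons (nat_lit 1602) (C.miq (nat_lit 2040968224) (nat_lit 1936741093233030499756476445)) (C.cons (nat_lit 1346) (C.miq (nat_lit 306610362) (nat_lit 256317103149861437822734081)) (C.cons (nat_lit 1090) (C.node (nat_lit 1) (nat_lit 9) (nat_lit 10) (C.cons (nat_lit 1570) (C.miq (nat_lit 827636368) (nat_lit 2536364684306445724629929729)) (C.cons (nat_lit 1538) (C.node (nat_lit 5) (nat_lit 9) (nat_lit 10) (C.cons (nat_lit 1696) (C.miq (nat_lit 880085914) (nat_lit 212790590619248375751511809)) (C.cons (nat_lit 1568) (C.node (nat_lit 1) (nat_lit 5) (nat_lit 10) (C.cons (nat_lit 1314) (C.node (nat_lit 5) (nat_lit 7) (nat_lit 10) C.nil) C.nil)) C.nil))) C.nil))) C.nil)))) C.nil)))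 C.nil)) (C.cons (nat_lit 3074) (C.node (nat_lit 3) (nat_lit 10) (nat_lit 11) (C.cons (nat_lit 3080) (C.node (nat_lit 3) (nat_lit 4) (nat_lit 5) (C.cons (nat_lit 120) (C.node (nat_lit 1) (nat_lit 3) (nat_lit 4) (C.cons (nat_lit 26) (C.node (nat_lit 1) (nat_lit 4) (nat_lit 6) (C.cons (nat_lit 82) (C.node (nat_lit 4) (nat_lit 6) (nat_lit 9) C.nil) C.nil)) C.nil)) (C.cons (nat_lit 56) (C.node (nat_lit 4) (nat_lit 5) (nat_lit 6) (C.cons (nat_lit 112) (C.node (nat_lit 3) (nat_lit 5) (nat_lit 11) (C.cons (nat_lit 2344) (C.node (nat_lit 1) (nat_lit 5) (nat_lit 10) C.nil) C.nil)) C.nil)) C.nil))) C.nil)) C.nil))) C.nil))) C.nil))))))) (C.cons (nat_lit 2084) (C.node (nat_lit 5) (nat_lit 10) (nat_lit 11) (C.cons (nat_lit 3104) (C.node (nat_lit 2) (nat_lit 10) (nat_lit 11) (C.cons (nat_lit 3078) (C.miq (nat_lit 2226194082) (nat_lit 2536331221140053999235761221)) (C.cons (nat_lit 3076) (C.node (nat_lit 1) (nat_lit 10) (nat_lit 11) (C.cons (nat_lit 3082) (C.node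 (nat_lit 3) (nat_lit 7) (nat_lit 11) (C.cons (nat_lit 2184) (C.node (nat_lit 3) (nat_lit 6) (nat_lit 11) (C.cons (nat_lit 2376) (C.miq (nat_lit 927367339) (nat_lit 256336103332845214392913665)) (C.cons (nat_lit 2120) (C.node (nat_lit 3) (nat_lit 4) (nat_lit 5) (C.cons (nat_lit 56) (C.node (nat_lit 4) (nat_lit 5) (nat_lit 6) C.nil) C.nil)) C.nil))) C.nil)) (C.cons (nat_lit 3074) (C.node (nat_lit 3) (nat_lit 10) (nat_lit 11) (C.cons (nat_lit 3080) (C.node (nat_lit 3) (nat_lit 4) (nat_lit 5) (C.cons (nat_lit 120) (C.node (nat_lit 3) (nat_lit 5) (nat_lit 11) C.nil) (C.cons (nat_lit 56) (C.node (nat_lit 4) (nat_lit 5) (nat_lit 6) (C.cons (nat_lit 112) (C.node (nat_lit 3) (nat_lit 5) (nat_lit 11) C.nil) C.nil)) C.nil))) C.nil)) C.nil))) C.nil))) C.nil)) C.nil))) C.nil))))) C.nil)) C.nil)) C.nil)) C.nil)) (C.cons (nat_lit 52) (C.node (nat_lit 2) (nat_lit 4) (nat_lit 8) (C.cons (nat_lit 276) (C.node (nat_lit 3) (nat_lit 5) (nat_lit 11) (C.cons (nat_lit 2344)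 (C.node (nat_lit 3) (nat_lit 7) (nat_lit 11) (C.cons (nat_lit 2186) (C.miq (nat_lit 1476703089) (nat_lit 407446703138975707923941514)) (C.cons (nat_lit 2184) (C.node (nat_lit 4) (nat_lit 5) (nat_lit 7) (C.cons (nat_lit 432) (C.miq (nat_lit 361188144) (nat_lit 522277555801374685926066205)) (C.cons (nat_lit 176) (C.node (nat_lit 4) (nat_lit 7) (nat_lit 8) (C.cons (nat_lit 400)
  (C.node (nat_lit 1) (nat_lit 7) (nat_lit 11) (C.cons (nat_lit 2434) (C.miq (nat_lit 1483846404) (nat_lit 2942564146870853087282792477)) (C.cons (nat_lit 2182) (C.miq (nat_lit 2450786229) (nat_lit 26606716836507924636502241)) (C.cons (nat_lit 2178) (C.node (nat_lit 1) (nat_lit 7) (nat_lit 8) (C.cons (nat_lit 450) (C.miq (nat_lit 1483846404) (nat_lit 544055320755428804665739293)) (C.cons (nat_lit 418) (C.node (nat_lit 7) (nat_lit 8) (nat_lit 9) (C.cons (nat_lit 960) (C.miq (nat_lit 2792956084) (nat_lit 1160597490271484611962865693)) (C.cons (nat_lit 896) (C.node (nat_lit 6) (nat_lit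 7) (nat_lit 8) (C.cons (nat_lit 1472) (C.miq (nat_lit 879168424) (nat_lit 256299523913359417352916737)) (C.cons (nat_lit 448) (C.node (nat_lit 1) (nat_lit 3) (nat_lit 4) (C.cons (nat_lit 282) (C.node (nat_lit 4) (nat_lit 8) (nat_lit 9) (C.cons (nat_lit 784) (C.node (nat_lit 1) (nat_lit 8) (nat_lit 10) (C.cons (nat_lit 1346) (C.miq (nat_lit 306610362) (nat_lit 256317103149861437822734081)) (C.cons (nat_lit 1282) (C.node (nat_lit 2) (nat_lit 6) (nat_lit 8) (C.cons (nat_lit 2372) (C.miq (nat_lit 341969592) (nat_lit 256297125581613506270334721)) (C.cons (nat_lit 868) (C.miq (nat_lit 2709653334) (nat_lit 317967653179529030569036001)) (C.cons (nat_lit 844) (C.miq (nat_lit 1948453528) (nat_lit 2510946177239619644471119617)) (C.cons (nat_lit 836) (C.miq (nat_lit 3106293514) (nat_lit 1010720130096261429912208531)) (C.cons (nat_lit 356) (C.miq (nat_lit 2709653334) (nat_lit 317967653179529030535481569)) (C.cons (nat_lit 332) (C.miq (nat_lit 1779966019) (nat_lit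 1549849025372644252514387997)) (C.cons (nat_lit 324) (C.node (nat_lit 4) (nat_lit 5) (nat_lit 8) C.nil) C.nil)))))))) C.nil))) C.nil)) (C.cons (nat_lit 90) (C.miq (nat_lit 2202103989) (nat_lit 108811034614968022947989729)) (C.cons (nat_lit 26) (C.miq (nat_lit 2202103989) (nat_lit 31439782159631755766794465)) C.nil)))) C.nil))) C.nil))) (C.cons (nat_lit 386) (C.miq (nat_lit 1483846404) (nat_lit 466684068300092537484544029)) C.nil)))) C.nil)))) C.nil)) C.nil))) C.nil))) (C.cons (nat_lit 2088) (C.node (nat_lit 3) (nat_lit 7) (nat_lit 11) (C.cons (nat_lit 2186) (C.node (nat_lit 3) (nat_lit 10) (nat_lit 11) (C.cons (nat_lit 3080) (C.node (nat_lit 1) (nat_lit 6) (nat_lit 7) (C.cons (nat_lit 450) (C.miq (nat_lit 1639221040) (nat_lit 2536332586230917977106874761)) (C.cons (nat_lit 194) (C.node (nat_lit 1) (nat_lit 7) (nat_lit 8) (C.cons (nat_lit 418) (C.miq (nat_lit 2243129664) (nat_lit 2524244361043432235882841235)) (C.cons (nat_lit 386) (C.node (nat_lit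 1) (nat_lit 10) (nat_lit 11) (C.cons (nat_lit 3078) (C.miq (nat_lit 2226194082) (nat_lit 2536331221140053999235761221)) (C.cons (nat_lit 3074) (C.node (nat_lit 3) (nat_lit 6) (nat_lit 11) (C.cons (nat_lit 2376) (C.miq (nat_lit 927367339) (nat_lit 256336103332845214392913665)) (C.cons (nat_lit 2120) (C.node (nat_lit 3) (nat_lit 8) (nat_lit 11) (C.cons (nat_lit 2312) (C.node (nat_lit 1) (nat_lit 3) (nat_lit 4) (C.cons (nat_lit 282) (C.miq (nat_lit 1367847984) (nat_lit 466687296411062115592898589)) (C.cons (nat_lit 90) (C.miq (nat_lit 2439447362) (nat_lit 234543507302377401934415901)) (C.cons (nat_lit 26) (C.node (nat_lit 6) (nat_lit 7) (nat_lit 8) (C.cons (nat_lit 1472) (C.miq (nat_lit 879168424) (nat_lit 256299523913359417352916737)) (C.cons (nat_lit 960) (C.miq (nat_lit 2792956084) (nat_lit 1160597490271484611962865693)) (C.cons (nat_lit 448) (C.node (nat_lit 1) (nat_lit 2) (nat_lit 7) (C.cons (nat_lit 166) (C.node (nat_lit 1) (nat_lit 2) (nat_lit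 10) (C.cons (nat_lit 1038) (C.miq (nat_lit 1729760050) (nat_lit 1415672297699805339050706973)) (C.cons (nat_lit 1030) (C.node (nat_lit 1) (nat_lit 4) (nat_lit 6) (C.cons (nat_lit 594) (C.node (nat_lit 1) (nat_lit 4) (nat_lit 8) C.nil) C.nil)) C.nil))) (C.cons (nat_lit 134) (C.node (nat_lit 1) (nat_lit 5) (nat_lit 7) (C.cons (nat_lit 162) (C.node (nat_lit 1) (nat_lit 4) (nat_lit 6) (C.cons (nat_lit 594)
  (C.node (nat_lit 1) (nat_lit 4) (nat_lit 8) C.nil) C.nil)) C.nil)) C.nil))) C.nil)))) C.nil)))) C.nil)) C.nil))) C.nil))) C.nil))) C.nil))) C.nil)) (C.cons (nat_lit 2184) (C.node (nat_lit 3) (nat_lit 10) (nat_lit 11) (C.cons (nat_lit 3082) (C.node (nat_lit 3) (nat_lit 6) (nat_lit 11) (C.cons (nat_lit 2376) (C.miq (nat_lit 927367339) (nat_lit 256336103332845214392913665)) (C.cons (nat_lit 2120) (C.node (nat_lit 3) (nat_lit 8) (nat_lit 11) (C.cons (nat_lit 2312) (C.node (nat_lit 1) (nat_lit 9) (nat_lit 10) (C.cons (nat_lit 1634) (C.miq (nat_lit 827636368)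 (nat_lit 2536364684306445999507836673)) (C.cons (nat_lit 1602) (C.miq (nat_lit 2040968224) (nat_lit 1936741093233030499756476445)) (C.cons (nat_lit 1570) (C.miq (nat_lit 827636368) (nat_lit 2536364684306445724629929729)) (C.cons (nat_lit 1538) (C.node (nat_lit 5) (nat_lit 9) (nat_lit 10) (C.cons (nat_lit 1696) (C.miq (nat_lit 1397203129) (nat_lit 183788010559152416976015105)) (C.cons (nat_lit 1632) (C.miq (nat_lit 2040968224) (nat_lit 1973008867821469374997661725)) (C.cons (nat_lit 1568) (C.node (nat_lit 1) (nat_lit 6) (nat_lit 10) (C.cons (nat_lit 1378) (C.miq (nat_lit 306610362) (nat_lit 256317693445671796528385793)) (C.cons (nat_lit 1346) (C.miq (nat_lit 306610362) (nat_lit 256317103149861437822734081)) (C.cons (nat_lit 1122) (C.miq (nat_lit 605686614) (nat_lit 1415672297644635865663801569)) (C.cons (nat_lit 1090) (C.node (nat_lit 1) (nat_lit 2) (nat_lit 10) (C.cons (nat_lit 1062) (C.node (nat_lit 1) (nat_lit 8) (nat_lit 10) (C.cons (nat_lit 1282)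 (C.node (nat_lit 2) (nat_lit 10) (nat_lit 11) (C.cons (nat_lit 3076) (C.node (nat_lit 5) (nat_lit 10) (nat_lit 11) (C.cons (nat_lit 3104) (C.node (nat_lit 1) (nat_lit 2) (nat_lit 7) (C.cons (nat_lit 2182) (C.miq (nat_lit 2450786229) (nat_lit 26606716836507924636502241)) (C.cons (nat_lit 142) (C.miq (nat_lit 2709107488) (nat_lit 776201231004085536698992669)) (C.cons (nat_lit 134) (C.node (nat_lit 2) (nat_lit 9) (nat_lit 11) (C.cons (nat_lit 2628) (C.node (nat_lit 1) (nat_lit 2) (nat_lit 9) (C.cons (nat_lit 518) (C.node (nat_lit 1) (nat_lit 2) (nat_lit 11) C.nil) C.nil)) (C.cons (nat_lit 2566) (C.miq (nat_lit 1804772464) (nat_lit 3102123816309631767061791891)) (C.cons (nat_lit 2564) (C.miq (nat_lit 1804772464) (nat_lit 3099705964670402508712379539)) C.nil)))) C.nil)))) C.nil)) C.nil)) C.nil)) (C.cons (nat_lit 1030) (C.node (nat_lit 1) (nat_lit 5) (nat_lit 10) (C.cons (nat_lit 1314) (C.node (nat_lit 4) (nat_lit 5) (nat_lit 10) (C.cons (nat_lit 1072)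 (C.node (nat_lit 4) (nat_lit 8) (nat_lit 10) (C.cons (nat_lit 1296) (C.node (nat_lit 5) (nat_lit 6) (nat_lit 10) (C.cons (nat_lit 1120) (C.node (nat_lit 2) (nat_lit 10) (nat_lit 11) (C.cons (nat_lit 3108) (C.node (nat_lit 5) (nat_lit 7) (nat_lit 10) C.nil) C.nil)) C.nil)) C.nil)) C.nil)) (C.cons (nat_lit 1058) (C.node (nat_lit 1) (nat_lit 8) (nat_lit 10) (C.cons (nat_lit 1282) (C.node (nat_lit 2) (nat_lit 10) (nat_lit 11) (C.cons (nat_lit 3108) (C.node (nat_lit 5) (nat_lit 8) (nat_lit 11) (C.cons (nat_lit 2336) (C.node (nat_lit 1) (nat_lit 7) (nat_lit 11) (C.cons (nat_lit 2178) (C.node (nat_lit 1) (nat_lit 8) (nat_lit 11) C.nil) C.nil)) C.nil)) (C.cons (nat_lit 3076) (C.node (nat_lit 5) (nat_lit 10) (nat_lit 11) (C.cons (nat_lit 3104) (C.node (nat_lit 4) (nat_lit 5) (nat_lit 10) C.nil) C.nil)) C.nil))) C.nil)) C.nil))) C.nil))) C.nil))))) C.nil)))) C.nil))))) C.nil)) C.nil))) (C.cons (nat_lit 3080) (C.node (nat_lit 1) (nat_lit 10) (nat_lit 11) (C.cons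 (nat_lit 3078) (C.miq (nat_lit 2226194082) (nat_lit 2536331221140053999235761221)) (C.cons (nat_lit 3074) (C.node (nat_lit 2) (nat_lit 10) (nat_lit 11) (C.cons (nat_lit 3108) (C.node (nat_lit 5) (nat_lit 8) (nat_lit 11) (C.cons (nat_lit 2336) (C.node (nat_lit 5) (nat_lit 6) (nat_lit 10) (C.cons (nat_lit 1634) (C.miq (nat_lit 605686614) (nat_lit 1415672297644635865697356001)) (C.cons (nat_lit 1632) (C.miq (nat_lit 2040968224) (nat_lit 1973008867821469374997661725)) (C.cons (nat_lit 1378)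
  (C.miq (nat_lit 306610362) (nat_lit 256317693445671796528385793)) (C.cons (nat_lit 1376) (C.miq (nat_lit 1680179386) (nat_lit 62889525434672129429999361)) (C.cons (nat_lit 1122) (C.miq (nat_lit 605686614) (nat_lit 1415672297644635865663801569)) (C.cons (nat_lit 1120) (C.node (nat_lit 1) (nat_lit 2) (nat_lit 10) (C.cons (nat_lit 1038) (C.node (nat_lit 2) (nat_lit 3) (nat_lit 7) (C.cons (nat_lit 172) (C.miq (nat_lit 2317552471) (nat_lit 1254872251411564785514055905)) (C.cons (nat_lit 140) (C.node (nat_lit 1) (nat_lit 3) (nat_lit 4) (C.cons (nat_lit 282) (C.miq (nat_lit 1681524754) (nat_lit 1266974421342262218032283911)) (C.cons (nat_lit 90) (C.miq (nat_lit 1737572867) (nat_lit 776132036459234029371852829)) (C.cons (nat_lit 26) (C.node (nat_lit 1) (nat_lit 6) (nat_lit 10) (C.cons (nat_lit 1602) (C.miq (nat_lit 1630841099) (nat_lit 31490215898225850143543041)) (C.cons (nat_lit 1346) (C.miq (nat_lit 306610362) (nat_lit 256317103149861437822734081)) (C.cons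 (nat_lit 1090) (C.node (nat_lit 1) (nat_lit 9) (nat_lit 10) (C.cons (nat_lit 1570) (C.miq (nat_lit 1362274571) (nat_lit 1254922333682484132471181057)) (C.cons (nat_lit 1538) (C.node (nat_lit 5) (nat_lit 9) (nat_lit 10) (C.cons (nat_lit 1696) (C.miq (nat_lit 1397203129) (nat_lit 183788010559152416976015105)) (C.cons (nat_lit 1568) (C.node (nat_lit 5) (nat_lit 7) (nat_lit 10) (C.cons (nat_lit 1440) (C.miq (nat_lit 1462937611) (nat_lit 169306947631954828266901249)) (C.cons (nat_lit 1184) (C.node (nat_lit 1) (nat_lit 5) (nat_lit 10) (C.cons (nat_lit 1314) (C.node (nat_lit 4) (nat_lit 5) (nat_lit 10) C.nil) C.nil)) C.nil))) C.nil))) C.nil))) C.nil)))) C.nil)))) C.nil))) (C.cons (nat_lit 1030) (C.node (nat_lit 4) (nat_lit 5) (nat_lit 6) (C.cons (nat_lit 120) (C.node (nat_lit 3) (nat_lit 4) (nat_lit 9) (C.cons (nat_lit 792) (C.miq (nat_lit 2472248416) (nat_lit 2524307965522261532274131281)) (C.cons (nat_lit 536) (C.node (nat_lit 6) (nat_lit 8) (nat_lit 10)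 (C.cons (nat_lit 1472) (C.miq (nat_lit 879168424) (nat_lit 256299523913359417352916737)) (C.cons (nat_lit 1354) (C.miq (nat_lit 306610362) (nat_lit 256317250723814027499147009)) (C.cons (nat_lit 1352) (C.miq (nat_lit 2556693045) (nat_lit 407418350914706575283717161)) (C.cons (nat_lit 1346) (C.miq (nat_lit 306610362) (nat_lit 256317103149861437822734081)) (C.cons (nat_lit 1344) (C.node (nat_lit 1) (nat_lit 3) (nat_lit 4) (C.cons (nat_lit 282) (C.node (nat_lit 4) (nat_lit 8) (nat_lit 9) C.nil) (C.cons (nat_lit 26) (C.node (nat_lit 3) (nat_lit 4) (nat_lit 8) (C.cons (nat_lit 280) (C.node (nat_lit 1) (nat_lit 4) (nat_lit 6) C.nil) C.nil)) C.nil))) C.nil)))))) C.nil))) (C.cons (nat_lit 112) (C.node (nat_lit 3) (nat_lit 4) (nat_lit 5) (C.cons (nat_lit 312) (C.node (nat_lit 4) (nat_lit 5) (nat_lit 7) (C.cons (nat_lit 176) (C.node (nat_lit 4) (nat_lit 5) (nat_lit 10) C.nil) C.nil)) (C.cons (nat_lit 56) (C.node (nat_lit 4) (nat_lit 5) (nat_lit 7) (C.cons (nat_lit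 432) (C.node (nat_lit 4) (nat_lit 5) (nat_lit 10) C.nil) (C.cons (nat_lit 176) (C.node (nat_lit 4) (nat_lit 7) (nat_lit 8) C.nil) C.nil))) C.nil))) C.nil))) C.nil))) C.nil))))))) C.nil)) (C.cons (nat_lit 3076) (C.node (nat_lit 5) (nat_lit 10) (nat_lit 11) (C.cons (nat_lit 3104) (C.node (nat_lit 2) (nat_lit 5) (nat_lit 11) (C.cons (nat_lit 2340) (C.node (nat_lit 2) (nat_lit 7) (nat_lit 11) (C.cons (nat_lit 2182) (C.miq (nat_lit 2450786229) (nat_lit 26606716836507924636502241)) (C.cons (nat_lit 2180) (C.node (nat_lit 1) (nat_lit 2) (nat_lit 11) (C.cons (nat_lit 2566) (C.miq (nat_lit 1804772464) (nat_lit 3102123816309631767061791891)) (C.cons (nat_lit 2118) (C.miq (nat_lit 2456514724) (nat_lit 2560554766121315957239448723)) C.nil))) C.nil))) (C.cons (nat_lit 2084) (C.node (nat_lit 5) (nat_lit 8) (nat_lit 11) C.nil) C.nil))) C.nil)) C.nil))) C.nil))) C.nil))) C.nil))) C.nil))) C.nil)) C.nil))) C.nil))))))) C.nil)))) C.nil))) C.nil)))) C.nil))) (C.cons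 (nat_lit 788) (C.miq (nat_lit 2839677814) (nat_lit 952653709228757353359476961)) (C.cons (nat_lit 532)
  (C.miq (nat_lit 2839677814) (nat_lit 643168699407412284634695905)) C.nil)))) C.nil))) C.nil))) (C.cons (nat_lit 208) (C.miq (nat_lit 642190009) (nat_lit 251468468937436098458554113)) C.nil)))) (C.cons (nat_lit 2128) (C.node (nat_lit 4) (nat_lit 10) (nat_lit 11) (C.cons (nat_lit 3088) (C.node (nat_lit 5) (nat_lit 10) (nat_lit 11) (C.cons (nat_lit 3108) (C.node (nat_lit 5) (nat_lit 8) (nat_lit 11) (C.cons (nat_lit 2344) (C.node (nat_lit 5) (nat_lit 9) (nat_lit 11) (C.cons (nat_lit 2592) (C.node (nat_lit 7) (nat_lit 10) (nat_lit 11) (C.cons (nat_lit 3208) (C.miq (nat_lit 999663424) (nat_lit 3133555371126540660426998931)) (C.cons (nat_lit 3200) (C.node (nat_lit 3) (nat_lit 7) (nat_lit 11) (C.cons (nat_lit 2186) (C.miq (nat_lit 1476703089) (nat_lit 407446703138975707923941514)) (C.cons (nat_lit 2184) (C.node (nat_lit 1) (nat_lit 7) (nat_lit 11) (C.cons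 (nat_lit 2434) (C.miq (nat_lit 1483846404) (nat_lit 2942564146870853087282792477)) (C.cons (nat_lit 2182) (C.miq (nat_lit 727281984) (nat_lit 3133547623205233773560005779)) (C.cons (nat_lit 2178) (C.node (nat_lit 2) (nat_lit 7) (nat_lit 11) (C.cons (nat_lit 2436) (C.miq (nat_lit 1923124051) (nat_lit 1321363171094897047902947624)) (C.cons (nat_lit 2180) (C.node (nat_lit 7) (nat_lit 8) (nat_lit 11) (C.cons (nat_lit 2432) (C.node (nat_lit 2) (nat_lit 8) (nat_lit 11) (C.cons (nat_lit 2372) (C.miq (nat_lit 2198255010) (nat_lit 88295341168592688431565860)) (C.cons (nat_lit 2308) (C.node (nat_lit 5) (nat_lit 7) (nat_lit 10) (C.cons (nat_lit 1696) (C.miq (nat_lit 899353204) (nat_lit 3133574038628338050215707795)) (C.cons (nat_lit 1440) (C.miq (nat_lit 361188144) (nat_lit 1740874781972920894029891613)) (C.cons (nat_lit 1184) (C.node (nat_lit 1) (nat_lit 7) (nat_lit 8) (C.cons (nat_lit 962) (C.miq (nat_lit 611388312) (nat_lit 1415656986847057289475657473))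 (C.cons (nat_lit 930) (C.miq (nat_lit 611388312) (nat_lit 1415656986847057289473560321)) (C.cons (nat_lit 898) (C.miq (nat_lit 611388312) (nat_lit 1415656986847057289471463169)) (C.cons (nat_lit 450) (C.miq (nat_lit 1483846404) (nat_lit 544055320755428804665739293)) (C.cons (nat_lit 418) (C.node (nat_lit 1) (nat_lit 3) (nat_lit 4) (C.cons (nat_lit 282) (C.node (nat_lit 4) (nat_lit 7) (nat_lit 8) (C.cons (nat_lit 404) (C.miq (nat_lit 2441544514) (nat_lit 505342890896055161714903069)) (C.cons (nat_lit 400) (C.node (nat_lit 1) (nat_lit 7) (nat_lit 9) (C.cons (nat_lit 706) (C.node (nat_lit 1) (nat_lit 8) (nat_lit 9) (C.cons (nat_lit 770) (C.node (nat_lit 7) (nat_lit 8) (nat_lit 9) (C.cons (nat_lit 896) (C.node (nat_lit 1) (nat_lit 4) (nat_lit 9) (C.cons (nat_lit 534) (C.miq (nat_lit 2174170144) (nat_lit 853508878297727402183559197)) (C.cons (nat_lit 530) (C.node (nat_lit 3) (nat_lit 9) (nat_lit 11) (C.cons (nat_lit 2632) (C.miq (nat_lit 957658736) (nat_lit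 640768999024039728359082209)) (C.cons (nat_lit 2568) (C.node (nat_lit 6) (nat_lit 9) (nat_lit 11) (C.cons (nat_lit 2628) (C.miq (nat_lit 689223280) (nat_lit 640768999022913828452239585)) C.nil)) C.nil))) C.nil))) C.nil)) C.nil)) (C.cons (nat_lit 642) (C.node (nat_lit 1) (nat_lit 8) (nat_lit 9) (C.cons (nat_lit 834) (C.node (nat_lit 1) (nat_lit 8) (nat_lit 10) (C.cons (nat_lit 1282) (C.node (nat_lit 1) (nat_lit 8) (nat_lit 11) (C.cons (nat_lit 2306) (C.node (nat_lit 6) (nat_lit 8) (nat_lit 11) C.nil) C.nil)) C.nil)) (C.cons (nat_lit 770) (C.node (nat_lit 1) (nat_lit 8) (nat_lit 10) (C.cons (nat_lit 1346) (C.node (nat_lit 1) (nat_lit 8) (nat_lit 11) (C.cons (nat_lit 2306) (C.node (nat_lit 6) (nat_lit 8) (nat_lit 11) C.nil) C.nil)) (C.cons (nat_lit 1282) (C.node (nat_lit 2) (nat_lit 3) (nat_lit 8) (C.cons (nat_lit 1292) (C.miq (nat_lit 2270834866) (nat_lit 1431392003727693604104439837)) (C.cons (nat_lit 844) (C.miq (nat_lit 1904804914) (nat_lit 930884779582800416148817949))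 (C.cons (nat_lit 780) (C.miq (nat_lit 1904804914) (nat_lit 930884779582800416144623645)) (C.cons (nat_lit 332) (C.miq (nat_lit 1779966019) (nat_lit 1549849025372644252514387997)) (C.cons (nat_lit 268)
  (C.node (nat_lit 3) (nat_lit 4) (nat_lit 10) (C.cons (nat_lit 1624) (C.miq (nat_lit 2589410059) (nat_lit 1431418050876816189946923037)) (C.cons (nat_lit 1560) (C.miq (nat_lit 2589410059) (nat_lit 1431418050858801791437441053)) (C.cons (nat_lit 1112) (C.miq (nat_lit 1669506064) (nat_lit 324012282260994568661435539)) (C.cons (nat_lit 1048) (C.node (nat_lit 1) (nat_lit 6) (nat_lit 8) (C.cons (nat_lit 2370) (C.node (nat_lit 1) (nat_lit 2) (nat_lit 11) (C.cons (nat_lit 2054) (C.node (nat_lit 1) (nat_lit 9) (nat_lit 11) C.nil) C.nil)) (C.cons (nat_lit 322) (C.node (nat_lit 1) (nat_lit 8) (nat_lit 11) C.nil) C.nil))) C.nil))))) C.nil)))))) C.nil))) C.nil))) C.nil))) C.nil))) (C.cons (nat_lit 90) (C.miq (nat_lit 2202103989) (nat_lit 108811034614968022947989729))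 (C.cons (nat_lit 26) (C.miq (nat_lit 2202103989) (nat_lit 31439782159631755766794465)) C.nil)))) (C.cons (nat_lit 386) (C.miq (nat_lit 1483846404) (nat_lit 466684068300092537484544029)) C.nil))))))) C.nil)))) C.nil))) C.nil)) C.nil))) C.nil)))) C.nil))) C.nil))) C.nil)) (C.cons (nat_lit 2336) (C.node (nat_lit 3) (nat_lit 5) (nat_lit 11) (C.cons (nat_lit 2600) (C.node (nat_lit 7) (nat_lit 10) (nat_lit 11) (C.cons (nat_lit 3208) (C.node (nat_lit 3) (nat_lit 4) (nat_lit 7) (C.cons (nat_lit 216) (C.miq (nat_lit 1416859819) (nat_lit 261175938729264038122360577)) (C.cons (nat_lit 184) (C.node (nat_lit 4) (nat_lit 6) (nat_lit 7) (C.cons (nat_lit 212) (C.miq (nat_lit 2722301557) (nat_lit 2510958573429676356627073249)) (C.cons (nat_lit 208) (C.node (nat_lit 5) (nat_lit 7) (nat_lit 10) (C.cons (nat_lit 1696) (C.node (nat_lit 6) (nat_lit 7) (nat_lit 10) (C.cons (nat_lit 1472) (C.miq (nat_lit 1466210944) (nat_lit 251466919580656102112562945)) (C.cons (nat_lit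 1216) (C.node (nat_lit 2) (nat_lit 7) (nat_lit 11) (C.cons (nat_lit 2436) (C.miq (nat_lit 657831946) (nat_lit 222499683975347588691463937)) (C.cons (nat_lit 2182) (C.miq (nat_lit 395686404) (nat_lit 2050376891949658892414289949)) (C.cons (nat_lit 2180) (C.node (nat_lit 2) (nat_lit 9) (nat_lit 11) (C.cons (nat_lit 2630) (C.miq (nat_lit 1784225851) (nat_lit 2050386705310981660277737501)) (C.cons (nat_lit 2628) (C.miq (nat_lit 1784225851) (nat_lit 2050386668417493512858634269)) (C.cons (nat_lit 2566) (C.miq (nat_lit 312515411) (nat_lit 1321365569208218377117043240)) (C.cons (nat_lit 2564) (C.node (nat_lit 3) (nat_lit 4) (nat_lit 8) (C.cons (nat_lit 1304) (C.miq (nat_lit 1731464104) (nat_lit 222448568001651008668700417)) (C.cons (nat_lit 792) (C.miq (nat_lit 1697909656) (nat_lit 222448568001648397295030017)) (C.cons (nat_lit 282) (C.miq (nat_lit 2159097684) (nat_lit 2479512058122062651861369016)) (C.cons (nat_lit 280) (C.node (nat_lit 2) (nat_lit 3) (nat_lit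 5) (C.cons (nat_lit 364) (C.miq (nat_lit 2754742102) (nat_lit 2510959089960465348430661857)) (C.cons (nat_lit 300) (C.miq (nat_lit 625050480) (nat_lit 2536331221129626677509554569)) (C.cons (nat_lit 110) (C.miq (nat_lit 2754742102) (nat_lit 2510959089960465348414015713)) (C.cons (nat_lit 108) (C.miq (nat_lit 2754742102) (nat_lit 2510959089960465348413884641)) (C.cons (nat_lit 46) (C.miq (nat_lit 430256306) (nat_lit 2050339038763866380933793821)) (C.cons (nat_lit 44) (C.node (nat_lit 1) (nat_lit 2) (nat_lit 11) (C.cons (nat_lit 2118) (C.node (nat_lit 1) (nat_lit 9) (nat_lit 11) (C.cons (nat_lit 2562) (C.node (nat_lit 1) (nat_lit 10) (nat_lit 11) (C.cons (nat_lit 3074) (C.node (nat_lit 2) (nat_lit 8) (nat_lit 11) (C.cons (nat_lit 2308) (C.node (nat_lit 6) (nat_lit 9) (nat_lit 11) C.nil) C.nil)) C.nil)) C.nil)) (C.cons (nat_lit 2054) (C.node (nat_lit 1) (nat_lit 3) (nat_lit 4) (C.cons (nat_lit 90) (C.node (nat_lit 1) (nat_lit 2) (nat_lit 4) (C.cons (nat_lit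 534) (C.miq (nat_lit 427115019) (nat_lit 2050376891485788130907326493)) (C.cons (nat_lit 22) (C.node (nat_lit 1) (nat_lit 3) (nat_lit 7) (C.cons (nat_lit 142) (C.miq (nat_lit 2322664242) (nat_lit 1415656987343581313003030557)) (C.cons (nat_lit 138) (C.node (nat_lit 3) (nat_lit 4) (nat_lit 9) (C.cons (nat_lit 1560)
  (C.node (nat_lit 2) (nat_lit 4) (nat_lit 10) (C.cons (nat_lit 1300) (C.miq (nat_lit 874617472) (nat_lit 26606016117778939082379009)) (C.cons (nat_lit 1044) (C.node (nat_lit 3) (nat_lit 6) (nat_lit 11) (C.cons (nat_lit 2376) (C.miq (nat_lit 1399102336) (nat_lit 108813673120587121094102785)) (C.cons (nat_lit 2120) (C.node (nat_lit 6) (nat_lit 9) (nat_lit 10) (C.cons (nat_lit 1602) (C.miq (nat_lit 2520490304) (nat_lit 2562993591977924268138497171)) (C.cons (nat_lit 1600) (C.node (nat_lit 1) (nat_lit 7) (nat_lit 9) (C.cons (nat_lit 962) (C.miq (nat_lit 611388312) (nat_lit 1415656986847057289475657473)) (C.cons (nat_lit 898) (C.miq (nat_lit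 611388312) (nat_lit 1415656986847057289471463169)) (C.cons (nat_lit 706) (C.miq (nat_lit 660867347) (nat_lit 251494884548838355308773899)) (C.cons (nat_lit 642) (C.node (nat_lit 2) (nat_lit 3) (nat_lit 9) (C.cons (nat_lit 844) (C.miq (nat_lit 338823832) (nat_lit 2510943779162890079409278721)) (C.cons (nat_lit 780) (C.miq (nat_lit 338823832) (nat_lit 2510943779162890079405084417)) (C.cons (nat_lit 588) (C.miq (nat_lit 1769026052) (nat_lit 776132036565068620657526813)) (C.cons (nat_lit 524) (C.node (nat_lit 3) (nat_lit 8) (nat_lit 9) (C.cons (nat_lit 840) (C.miq (nat_lit 2838562916) (nat_lit 632289805876910365580329297)) (C.cons (nat_lit 776) (C.node (nat_lit 1) (nat_lit 2) (nat_lit 3) (C.cons (nat_lit 1038) (C.node (nat_lit 1) (nat_lit 9) (nat_lit 10) (C.cons (nat_lit 1538) (C.node (nat_lit 2) (nat_lit 9) (nat_lit 10) (C.cons (nat_lit 1540) (C.node (nat_lit 2) (nat_lit 3) (nat_lit 8) (C.cons (nat_lit 332) (C.miq (nat_lit 327459424) (nat_lit 338520830921578934579561541))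 C.nil)) C.nil)) C.nil)) (C.cons (nat_lit 14) (C.node (nat_lit 2) (nat_lit 3) (nat_lit 10) (C.cons (nat_lit 1292) (C.miq (nat_lit 1965231016) (nat_lit 53199986273270622447210241)) (C.cons (nat_lit 1036) (C.node (nat_lit 1) (nat_lit 3) (nat_lit 11) (C.cons (nat_lit 2314) (C.node (nat_lit 1) (nat_lit 7) (nat_lit 11) C.nil) C.nil)) C.nil))) C.nil))) C.nil))) C.nil))))) C.nil))))) C.nil))) C.nil))) C.nil))) (C.cons (nat_lit 536) (C.miq (nat_lit 2739490999) (nat_lit 648015525291170020063185121)) C.nil))) C.nil))) C.nil))) (C.cons (nat_lit 26) (C.node (nat_lit 1) (nat_lit 4) (nat_lit 8) (C.cons (nat_lit 786) (C.node (nat_lit 1) (nat_lit 7) (nat_lit 11) (C.cons (nat_lit 2434) (C.miq (nat_lit 1900394640) (nat_lit 2536368299685885019539181313)) (C.cons (nat_lit 2178) (C.node (nat_lit 7) (nat_lit 8) (nat_lit 11) (C.cons (nat_lit 2432) (C.node (nat_lit 1) (nat_lit 7) (nat_lit 8) (C.cons (nat_lit 450) (C.miq (nat_lit 425165830) (nat_lit 2050346491322485990920094033))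 (C.cons (nat_lit 418) (C.miq (nat_lit 873990999) (nat_lit 950222944372152036669655265)) (C.cons (nat_lit 386) (C.node (nat_lit 1) (nat_lit 2) (nat_lit 4) (C.cons (nat_lit 86) (C.node (nat_lit 2) (nat_lit 4) (nat_lit 9) (C.cons (nat_lit 1556) (C.miq (nat_lit 1948694944) (nat_lit 104009550697252670901915393)) (C.cons (nat_lit 532) (C.node (nat_lit 2) (nat_lit 4) (nat_lit 10) (C.cons (nat_lit 1300) (C.miq (nat_lit 1380366976) (nat_lit 104009550810967461931847425)) (C.cons (nat_lit 1044) (C.node (nat_lit 3) (nat_lit 4) (nat_lit 9) (C.cons (nat_lit 1560) (C.miq (nat_lit 1788092545) (nat_lit 1885925865326480498128716039)) (C.cons (nat_lit 600) (C.miq (nat_lit 2739490999) (nat_lit 725386777746506287244380385)) (C.cons (nat_lit 536) (C.miq (nat_lit 2739490999) (nat_lit 648015525291170020063185121)) C.nil)))) C.nil))) C.nil))) (C.cons (nat_lit 22) (C.node (nat_lit 1) (nat_lit 4) (nat_lit 6) (C.cons (nat_lit 82) (C.node (nat_lit 3) (nat_lit 4) (nat_lit 9) (C.cons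 (nat_lit 1624) (C.miq (nat_lit 1678944640) (nat_lit 26616530779913144423091969)) (C.cons (nat_lit 1560) (C.node (nat_lit 3) (nat_lit 4) (nat_lit 6) (C.cons (nat_lit 88) (C.node (nat_lit 2) (nat_lit 4) (nat_lit 10) (C.cons (nat_lit 1300) (C.miq (nat_lit 874617472) (nat_lit 26606016117778939082379009)) C.nil)) C.nil)) (C.cons (nat_lit 600) (C.miq (nat_lit 2739490999) (nat_lit 725386777746506287244380385)) (C.cons (nat_lit 536)
  (C.miq (nat_lit 2739490999) (nat_lit 648015525291170020063185121)) C.nil))))) C.nil)) C.nil))) C.nil)))) C.nil)) C.nil))) (C.cons (nat_lit 274) (C.node (nat_lit 1) (nat_lit 7) (nat_lit 11) (C.cons (nat_lit 2434) (C.node (nat_lit 2) (nat_lit 6) (nat_lit 11) (C.cons (nat_lit 2372) (C.miq (nat_lit 2709653430) (nat_lit 317967653179537689321670881)) (C.cons (nat_lit 2116) (C.node (nat_lit 2) (nat_lit 8) (nat_lit 11) (C.cons (nat_lit 2308) (C.node (nat_lit 3) (nat_lit 8) (nat_lit 11) (C.cons (nat_lit 2376) (C.miq (nat_lit 1683194011)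 (nat_lit 222486180367870378839117569)) C.nil)) C.nil)) C.nil))) (C.cons (nat_lit 2178) (C.node (nat_lit 7) (nat_lit 8) (nat_lit 11) (C.cons (nat_lit 2432) (C.node (nat_lit 1) (nat_lit 9) (nat_lit 11) (C.cons (nat_lit 2626) (C.node (nat_lit 1) (nat_lit 10) (nat_lit 11) C.nil) (C.cons (nat_lit 2562) (C.node (nat_lit 6) (nat_lit 9) (nat_lit 11) (C.cons (nat_lit 2624) (C.node (nat_lit 1) (nat_lit 10) (nat_lit 11) C.nil) C.nil)) C.nil))) C.nil)) C.nil))) C.nil))) C.nil))) C.nil))) C.nil))))))) C.nil))))) C.nil))))) C.nil)))) C.nil))) (C.cons (nat_lit 1440) (C.miq (nat_lit 628341376) (nat_lit 222480665571363275280027393)) (C.cons (nat_lit 1184) (C.miq (nat_lit 2539303984) (nat_lit 1431439025128817188609263645)) C.nil)))) C.nil))) (C.cons (nat_lit 152) (C.miq (nat_lit 1416859819) (nat_lit 183804686273927770941165313)) C.nil)))) (C.cons (nat_lit 3200) (C.miq (nat_lit 997873984) (nat_lit 3868582269281098412848251441)) C.nil))) (C.cons (nat_lit 2088) (C.node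 (nat_lit 5) (nat_lit 9) (nat_lit 11) (C.cons (nat_lit 2592) (C.node (nat_lit 7) (nat_lit 10) (nat_lit 11) (C.cons (nat_lit 3208) (C.miq (nat_lit 999663424) (nat_lit 3133555371126540660426998931)) (C.cons (nat_lit 3200) (C.node (nat_lit 3) (nat_lit 7) (nat_lit 11) (C.cons (nat_lit 2186) (C.node (nat_lit 3) (nat_lit 8) (nat_lit 11) (C.cons (nat_lit 2376) (C.miq (nat_lit 1796506480) (nat_lit 2536332586773038782192222601)) (C.cons (nat_lit 2312) (C.node (nat_lit 1) (nat_lit 7) (nat_lit 8) (C.cons (nat_lit 962) (C.miq (nat_lit 611388312) (nat_lit 1415656986847057289475657473)) (C.cons (nat_lit 930) (C.miq (nat_lit 611388312) (nat_lit 1415656986847057289473560321)) (C.cons (nat_lit 898) (C.miq (nat_lit 611388312) (nat_lit 1415656986847057289471463169)) (C.cons (nat_lit 450) (C.miq (nat_lit 1639221040) (nat_lit 2536332586230917977106874761)) (C.cons (nat_lit 418) (C.miq (nat_lit 2243129664) (nat_lit 2524244361043432235882841235)) (C.cons (nat_lit 386) (C.node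 (nat_lit 1) (nat_lit 8) (nat_lit 11) (C.cons (nat_lit 2370) (C.node (nat_lit 1) (nat_lit 10) (nat_lit 11) (C.cons (nat_lit 3074) (C.node (nat_lit 2) (nat_lit 6) (nat_lit 11) (C.cons (nat_lit 2628) (C.miq (nat_lit 2763392914) (nat_lit 2572614306760822259806634629)) (C.cons (nat_lit 2116) (C.node (nat_lit 1) (nat_lit 2) (nat_lit 11) (C.cons (nat_lit 2054) (C.node (nat_lit 1) (nat_lit 9) (nat_lit 11) C.nil) C.nil)) C.nil))) C.nil)) (C.cons (nat_lit 2306) (C.node (nat_lit 1) (nat_lit 10) (nat_lit 11) (C.cons (nat_lit 3138) (C.node (nat_lit 3) (nat_lit 10) (nat_lit 11) (C.cons (nat_lit 3080) (C.node (nat_lit 1) (nat_lit 2) (nat_lit 11) (C.cons (nat_lit 2054) (C.node (nat_lit 1) (nat_lit 9) (nat_lit 11) C.nil) C.nil)) C.nil)) (C.cons (nat_lit 3074) (C.node (nat_lit 2) (nat_lit 7) (nat_lit 11) (C.cons (nat_lit 2436) (C.node (nat_lit 6) (nat_lit 8) (nat_lit 11) (C.cons (nat_lit 2368) (C.node (nat_lit 3) (nat_lit 9) (nat_lit 11) C.nil) C.nil)) (C.cons (nat_lit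 2180) (C.node (nat_lit 7) (nat_lit 8) (nat_lit 11) C.nil) C.nil))) C.nil))) C.nil))) C.nil))))))) C.nil))) (C.cons (nat_lit 2184) (C.node (nat_lit 3) (nat_lit 9) (nat_lit 11) (C.cons (nat_lit 2632) (C.node (nat_lit 1) (nat_lit 7) (nat_lit 9) (C.cons (nat_lit 962) (C.miq (nat_lit 611388312) (nat_lit 1415656986847057289475657473)) (C.cons (nat_lit 930) (C.miq (nat_lit 611388312) (nat_lit 1415656986847057289473560321)) (C.cons (nat_lit 898) (C.miq (nat_lit 611388312) (nat_lit 1415656986847057289471463169)) (C.cons (nat_lit 706)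
  (C.miq (nat_lit 1133579111) (nat_lit 632289805380396203284498657)) (C.cons (nat_lit 674) (C.miq (nat_lit 2511499584) (nat_lit 3757353345701918162928075923)) (C.cons (nat_lit 642) (C.node (nat_lit 1) (nat_lit 9) (nat_lit 11) (C.cons (nat_lit 2566) (C.node (nat_lit 1) (nat_lit 2) (nat_lit 10) (C.cons (nat_lit 1038) (C.miq (nat_lit 1377020816) (nat_lit 1254884647417258832554561281)) (C.cons (nat_lit 1030) (C.node (nat_lit 2) (nat_lit 6) (nat_lit 11) (C.cons (nat_lit 2372) (C.miq (nat_lit 914397985) (nat_lit 407417649598132908353587718)) (C.cons (nat_lit 2116) (C.node (nat_lit 2) (nat_lit 7) (nat_lit 11) (C.cons (nat_lit 2436) (C.miq (nat_lit 2073264656) (nat_lit 3181900007481809019867955463)) (C.cons (nat_lit 2180) (C.node (nat_lit 2) (nat_lit 8) (nat_lit 11) (C.cons (nat_lit 2308) (C.node (nat_lit 1) (nat_lit 7) (nat_lit 11) C.nil) C.nil)) C.nil))) C.nil))) C.nil))) (C.cons (nat_lit 2562) (C.node (nat_lit 2) (nat_lit 9) (nat_lit 11) (C.cons (nat_lit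 2564) (C.node (nat_lit 3) (nat_lit 8) (nat_lit 11) (C.cons (nat_lit 2314) (C.node (nat_lit 3) (nat_lit 10) (nat_lit 11) (C.cons (nat_lit 3080) (C.node (nat_lit 1) (nat_lit 7) (nat_lit 11) C.nil) C.nil)) (C.cons (nat_lit 2312) (C.node (nat_lit 1) (nat_lit 3) (nat_lit 11) (C.cons (nat_lit 3082) (C.node (nat_lit 6) (nat_lit 10) (nat_lit 11) C.nil) C.nil)) C.nil))) C.nil)) C.nil))) C.nil))))))) (C.cons (nat_lit 2568) (C.node (nat_lit 1) (nat_lit 7) (nat_lit 11) (C.cons (nat_lit 2434) (C.node (nat_lit 2) (nat_lit 7) (nat_lit 11) (C.cons (nat_lit 2180) (C.node (nat_lit 2) (nat_lit 8) (nat_lit 11) (C.cons (nat_lit 2372) (C.miq (nat_lit 2709653430) (nat_lit 317967653179537689321670881)) (C.cons (nat_lit 2308) (C.node (nat_lit 3) (nat_lit 8) (nat_lit 11) (C.cons (nat_lit 2376) (C.node (nat_lit 1) (nat_lit 3) (nat_lit 11) C.nil) C.nil)) C.nil))) C.nil)) (C.cons (nat_lit 2182) (C.miq (nat_lit 727281984) (nat_lit 3133547623205233773560005779)) (C.cons (nat_lit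 2178) (C.node (nat_lit 2) (nat_lit 7) (nat_lit 11) (C.cons (nat_lit 2436) (C.node (nat_lit 2) (nat_lit 7) (nat_lit 10) (C.cons (nat_lit 1164) (C.miq (nat_lit 1383312256) (nat_lit 1407209300688701550213271297)) (C.cons (nat_lit 1156) (C.node (nat_lit 2) (nat_lit 8) (nat_lit 10) (C.cons (nat_lit 1300) (C.miq (nat_lit 942278581) (nat_lit 1571623211392086556381808865)) (C.cons (nat_lit 1292) (C.node (nat_lit 2) (nat_lit 4) (nat_lit 10) (C.cons (nat_lit 1556) (C.miq (nat_lit 1800013714) (nat_lit 3733183093901051691789451909)) (C.cons (nat_lit 1044) (C.node (nat_lit 4) (nat_lit 7) (nat_lit 8) (C.cons (nat_lit 432) (C.miq (nat_lit 2776117426) (nat_lit 522279787566643649030916125)) (C.cons (nat_lit 400) (C.node (nat_lit 4) (nat_lit 8) (nat_lit 10) (C.cons (nat_lit 1328) (C.miq (nat_lit 2024124976) (nat_lit 1605495418583185678255327261)) (C.cons (nat_lit 1296) (C.node (nat_lit 5) (nat_lit 7) (nat_lit 10) (C.cons (nat_lit 1696) (C.miq (nat_lit 2320966411) (nat_lit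 2050383126698644880968714269)) (C.cons (nat_lit 1440) (C.node (nat_lit 2) (nat_lit 4) (nat_lit 7) (C.cons (nat_lit 212) (C.miq (nat_lit 2485827424) (nat_lit 1262189410382769224411318497)) (C.cons (nat_lit 180) (C.miq (nat_lit 844565416) (nat_lit 217613897685691094781660929)) (C.cons (nat_lit 148) (C.node (nat_lit 4) (nat_lit 5) (nat_lit 7) (C.cons (nat_lit 184) (C.miq (nat_lit 628341376) (nat_lit 222480665571363275280027393)) (C.cons (nat_lit 176) (C.node (nat_lit 5) (nat_lit 7) (nat_lit 9) (C.cons (nat_lit 680) (C.miq (nat_lit 628341376) (nat_lit 822107872100219345934290689)) (C.cons (nat_lit 674) (C.miq (nat_lit 2511499584) (nat_lit 3757353345701918162928075923)) (C.cons (nat_lit 672) (C.node (nat_lit 2) (nat_lit 9) (nat_lit 11) (C.cons (nat_lit 2628) (C.miq (nat_lit 2460268039) (nat_lit 1262168436413369102292420833)) (C.cons (nat_lit 2566) (C.miq (nat_lit 2073264656) (nat_lit 3104528755026472752686760199)) (C.cons (nat_lit 2564) (C.node (nat_lit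 1) (nat_lit 2) (nat_lit 11) (C.cons (nat_lit 2118)
  (C.node (nat_lit 1) (nat_lit 9) (nat_lit 11) C.nil) C.nil)) C.nil)))) C.nil)))) C.nil))) C.nil)))) (C.cons (nat_lit 1184) (C.miq (nat_lit 2320966411) (nat_lit 1431413107055954743519152157)) C.nil)))) C.nil))) C.nil))) C.nil))) (C.cons (nat_lit 1284) (C.miq (nat_lit 942278581) (nat_lit 1552280398278252489586510049)) C.nil)))) C.nil))) (C.cons (nat_lit 2180) (C.node (nat_lit 7) (nat_lit 8) (nat_lit 11) C.nil) C.nil))) C.nil)))) C.nil))) C.nil))) C.nil))) C.nil)) C.nil))) C.nil))) (C.cons (nat_lit 3104) (C.ref (nat_lit 246) (nat_lit 205163983024656)) C.nil))) C.nil)) C.nil))) (C.cons (nat_lit 2066) (C.node (nat_lit 4) (nat_lit 5) (nat_lit 11) (C.cons (nat_lit 3120) (C.node (nat_lit 4) (nat_lit 6) (nat_lit 11) (C.cons (nat_lit 2128) (C.node (nat_lit 7) (nat_lit 10) (nat_lit 11) (C.cons (nat_lit 3208) (C.miq (nat_lit 1930017364) (nat_lit 632318084557402668463623216)) (C.cons (nat_lit 3204) (C.miq (nat_lit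 2718283668) (nat_lit 44787810069099848936786576)) (C.cons (nat_lit 3200) (C.node (nat_lit 2) (nat_lit 10) (nat_lit 11) (C.cons (nat_lit 3078) (C.node (nat_lit 2) (nat_lit 5) (nat_lit 11) (C.cons (nat_lit 2596) (C.miq (nat_lit 732403008) (nat_lit 3868574521647463341636125233)) (C.cons (nat_lit 2340) (C.miq (nat_lit 1166060321) (nat_lit 349401163884150122952985606)) (C.cons (nat_lit 2084) (C.node (nat_lit 2) (nat_lit 9) (nat_lit 11) (C.cons (nat_lit 2628) (C.miq (nat_lit 2763392914) (nat_lit 2572614306760822259806634629)) (C.cons (nat_lit 2564) (C.node (nat_lit 2) (nat_lit 6) (nat_lit 11) (C.cons (nat_lit 2372) (C.miq (nat_lit 461677152) (nat_lit 2804729503509640165203182661)) (C.cons (nat_lit 2116) (C.node (nat_lit 2) (nat_lit 7) (nat_lit 11) (C.cons (nat_lit 2436) (C.node (nat_lit 2) (nat_lit 4) (nat_lit 7) (C.cons (nat_lit 212) (C.miq (nat_lit 2873493874) (nat_lit 2572614307512360447465751173)) (C.cons (nat_lit 180) (C.miq (nat_lit 2605845063) (nat_lit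 2519413307307973528603853971)) (C.cons (nat_lit 148) (C.node (nat_lit 1) (nat_lit 7) (nat_lit 11) (C.cons (nat_lit 2186) (C.node (nat_lit 3) (nat_lit 5) (nat_lit 11) (C.cons (nat_lit 2600) (C.miq (nat_lit 1094256565) (nat_lit 632278552611492996126869729)) (C.cons (nat_lit 2344) (C.miq (nat_lit 1267180848) (nat_lit 2944964898596758978235532329)) (C.cons (nat_lit 2088) (C.node (nat_lit 3) (nat_lit 8) (nat_lit 11) (C.cons (nat_lit 2376) (C.miq (nat_lit 1796506480) (nat_lit 2497646960545370648601624969)) (C.cons (nat_lit 2312) (C.node (nat_lit 3) (nat_lit 9) (nat_lit 11) (C.cons (nat_lit 2632) (C.node (nat_lit 3) (nat_lit 10) (nat_lit 11) C.nil) (C.cons (nat_lit 2568) (C.node (nat_lit 3) (nat_lit 6) (nat_lit 11) (C.cons (nat_lit 2120) (C.node (nat_lit 3) (nat_lit 10) (nat_lit 11) C.nil) C.nil)) C.nil))) C.nil))) C.nil)))) (C.cons (nat_lit 2178) (C.node (nat_lit 3) (nat_lit 7) (nat_lit 11) (C.cons (nat_lit 2184) (C.node (nat_lit 3) (nat_lit 10) (nat_lit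 11) (C.cons (nat_lit 3144) (C.node (nat_lit 3) (nat_lit 9) (nat_lit 11) (C.cons (nat_lit 2600) (C.miq (nat_lit 347671123) (nat_lit 3268945064214728436697531433)) (C.cons (nat_lit 2568) (C.node (nat_lit 5) (nat_lit 9) (nat_lit 11) (C.cons (nat_lit 2592) (C.node (nat_lit 1) (nat_lit 9) (nat_lit 11) C.nil) C.nil)) C.nil))) (C.cons (nat_lit 3080) (C.node (nat_lit 6) (nat_lit 10) (nat_lit 11) (C.cons (nat_lit 3136) (C.node (nat_lit 3) (nat_lit 9) (nat_lit 11) (C.cons (nat_lit 2632) (C.node (nat_lit 1) (nat_lit 6) (nat_lit 11) C.nil) (C.cons (nat_lit 2600) (C.miq (nat_lit 347671123) (nat_lit 3268945064214728436697531433)) C.nil))) C.nil)) C.nil))) C.nil)) C.nil))) C.nil)))) (C.cons (nat_lit 2180) (C.node (nat_lit 2) (nat_lit 8) (nat_lit 11) (C.cons (nat_lit 2308) (C.node (nat_lit 3) (nat_lit 7) (nat_lit 11) (C.cons (nat_lit 2186) (C.node (nat_lit 7) (nat_lit 8) (nat_lit 11) (C.cons (nat_lit 2432) (C.node (nat_lit 3) (nat_lit 5) (nat_lit 11) (C.cons (nat_lit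 2600) (C.miq (nat_lit 1094256565) (nat_lit 632278552611492996126869729)) (C.cons (nat_lit 2344) (C.miq (nat_lit 1267180848) (nat_lit 2940129195318300461536707625))
  (C.cons (nat_lit 2088) (C.node (nat_lit 3) (nat_lit 8) (nat_lit 11) (C.cons (nat_lit 2376) (C.miq (nat_lit 1796506480) (nat_lit 2497646960545370648601624969)) C.nil)) C.nil)))) C.nil)) (C.cons (nat_lit 2184) (C.node (nat_lit 1) (nat_lit 7) (nat_lit 11) (C.cons (nat_lit 2434) (C.node (nat_lit 5) (nat_lit 8) (nat_lit 11) (C.cons (nat_lit 2344) (C.miq (nat_lit 458913840) (nat_lit 3771870159020073499755086217)) (C.cons (nat_lit 2336) (C.node (nat_lit 3) (nat_lit 8) (nat_lit 11) (C.cons (nat_lit 2376) (C.node (nat_lit 3) (nat_lit 10) (nat_lit 11) C.nil) C.nil)) C.nil))) (C.cons (nat_lit 2178) (C.node (nat_lit 7) (nat_lit 8) (nat_lit 11) C.nil) C.nil))) C.nil))) C.nil)) C.nil))) C.nil))) C.nil))) C.nil)))) (C.cons (nat_lit 3076) (C.node (nat_lit 3) (nat_lit 7) (nat_lit 11) (C.cons (nat_lit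 2186) (C.node (nat_lit 3) (nat_lit 5) (nat_lit 11) (C.cons (nat_lit 2600) (C.miq (nat_lit 1094256565) (nat_lit 632278552611492996126869729)) (C.cons (nat_lit 2344) (C.miq (nat_lit 1958218323) (nat_lit 2804715151405981251351872553)) (C.cons (nat_lit 2088) (C.node (nat_lit 3) (nat_lit 8) (nat_lit 11) (C.cons (nat_lit 2376) (C.miq (nat_lit 1796506480) (nat_lit 2497646960545370648601624969)) (C.cons (nat_lit 2312) (C.node (nat_lit 1) (nat_lit 10) (nat_lit 11) (C.cons (nat_lit 3138) (C.node (nat_lit 3) (nat_lit 10) (nat_lit 11) (C.cons (nat_lit 3080) (C.node (nat_lit 1) (nat_lit 3) (nat_lit 10) (C.cons (nat_lit 1290) (C.miq (nat_lit 1631042176) (nat_lit 2642753772010132935170133761)) (C.cons (nat_lit 1038) (C.miq (nat_lit 1906750240) (nat_lit 3793651152015294649375983645)) (C.cons (nat_lit 1034) (C.node (nat_lit 1) (nat_lit 9) (nat_lit 10) (C.cons (nat_lit 1574) (C.miq (nat_lit 2478116938) (nat_lit 2524266146677738069291959443)) (C.cons (nat_lit 1570)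 (C.miq (nat_lit 2478116938) (nat_lit 2524266072890761774453752979)) (C.cons (nat_lit 1542) (C.miq (nat_lit 2544967786) (nat_lit 2642740286738502158680982597)) (C.cons (nat_lit 1538) (C.node (nat_lit 1) (nat_lit 2) (nat_lit 10) (C.cons (nat_lit 1062) (C.node (nat_lit 1) (nat_lit 8) (nat_lit 10) (C.cons (nat_lit 1282) (C.node (nat_lit 1) (nat_lit 2) (nat_lit 7) (C.cons (nat_lit 198) (C.miq (nat_lit 2584873831) (nat_lit 1283891119661822589364734177)) (C.cons (nat_lit 134) (C.node (nat_lit 2) (nat_lit 5) (nat_lit 11) (C.cons (nat_lit 2596) (C.miq (nat_lit 732403008) (nat_lit 3868574521647463341636125233)) (C.cons (nat_lit 2340) (C.miq (nat_lit 1159834496) (nat_lit 1283900822446258475000860417)) (C.cons (nat_lit 2084) (C.node (nat_lit 5) (nat_lit 7) (nat_lit 10) (C.cons (nat_lit 1696) (C.miq (nat_lit 2603971594) (nat_lit 2524268397794411985928520851)) (C.cons (nat_lit 1440) (C.miq (nat_lit 2243131968) (nat_lit 2524244361331104051537708179)) (C.cons (nat_lit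 1184) (C.node (nat_lit 1) (nat_lit 4) (nat_lit 5) (C.cons (nat_lit 314) (C.miq (nat_lit 2589002563) (nat_lit 1283888869159045519497627677)) (C.cons (nat_lit 306) (C.miq (nat_lit 1683621906) (nat_lit 3771868719583773971104268551)) (C.cons (nat_lit 122) (C.miq (nat_lit 2585004901) (nat_lit 1415662484473314977800390881)) (C.cons (nat_lit 114) (C.miq (nat_lit 2585004901) (nat_lit 1415662484473314977799866593)) (C.cons (nat_lit 58) (C.miq (nat_lit 2589002563) (nat_lit 1283888869159045519480850461)) (C.cons (nat_lit 50) (C.node (nat_lit 1) (nat_lit 2) (nat_lit 3) (C.cons (nat_lit 78) (C.node (nat_lit 1) (nat_lit 2) (nat_lit 11) (C.cons (nat_lit 2566) (C.node (nat_lit 1) (nat_lit 2) (nat_lit 4) C.nil) C.nil)) (C.cons (nat_lit 14) (C.node (nat_lit 1) (nat_lit 2) (nat_lit 11) (C.cons (nat_lit 2566) (C.node (nat_lit 5) (nat_lit 9) (nat_lit 11) C.nil) C.nil)) C.nil))) C.nil))))))) C.nil)))) C.nil)))) C.nil))) C.nil)) (C.cons (nat_lit 1030) (C.node (nat_lit 1)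 (nat_lit 5) (nat_lit 10) (C.cons (nat_lit 1314) (C.node (nat_lit 1) (nat_lit 8) (nat_lit 11) (C.cons (nat_lit 2306) (C.node (nat_lit 2) (nat_lit 7) (nat_lit 11) (C.cons (nat_lit 2436) (C.miq (nat_lit 1479254276) (nat_lit 2945000850792605892495606931)) (C.cons (nat_lit 2180)
  (C.node (nat_lit 7) (nat_lit 8) (nat_lit 11) (C.cons (nat_lit 2432) (C.node (nat_lit 6) (nat_lit 8) (nat_lit 11) (C.cons (nat_lit 2372) (C.miq (nat_lit 1479254276) (nat_lit 2867629598337269625314411667)) C.nil)) C.nil)) C.nil))) C.nil)) (C.cons (nat_lit 1058) (C.node (nat_lit 1) (nat_lit 8) (nat_lit 10) (C.cons (nat_lit 1282) (C.node (nat_lit 1) (nat_lit 8) (nat_lit 11) (C.cons (nat_lit 2338) (C.node (nat_lit 2) (nat_lit 5) (nat_lit 11) (C.cons (nat_lit 2596) (C.miq (nat_lit 732403008) (nat_lit 3868574521647463341636125233)) (C.cons (nat_lit 2084) (C.node (nat_lit 5) (nat_lit 9) (nat_lit 11) (C.cons (nat_lit 2592) (C.node (nat_lit 1) (nat_lit 2) (nat_lit 11) (C.cons (nat_lit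 2054) (C.node (nat_lit 1) (nat_lit 9) (nat_lit 11) C.nil) C.nil)) C.nil)) C.nil))) (C.cons (nat_lit 2306) (C.node (nat_lit 5) (nat_lit 8) (nat_lit 11) (C.cons (nat_lit 2340) (C.miq (nat_lit 2175082571) (nat_lit 1279086682607443095675996189)) (C.cons (nat_lit 2336) (C.node (nat_lit 2) (nat_lit 7) (nat_lit 11) (C.cons (nat_lit 2436) (C.node (nat_lit 6) (nat_lit 8) (nat_lit 11) (C.cons (nat_lit 2368) (C.node (nat_lit 2) (nat_lit 6) (nat_lit 11) C.nil) C.nil)) (C.cons (nat_lit 2180) (C.node (nat_lit 7) (nat_lit 8) (nat_lit 11) C.nil) C.nil))) C.nil))) C.nil))) C.nil)) C.nil))) C.nil))) C.nil))))) C.nil)))) C.nil)) (C.cons (nat_lit 3074) (C.node (nat_lit 2) (nat_lit 7) (nat_lit 11) (C.cons (nat_lit 2436) (C.node (nat_lit 2) (nat_lit 4) (nat_lit 7) (C.cons (nat_lit 212) (C.miq (nat_lit 2873493874) (nat_lit 2572614307512360447465751173)) (C.cons (nat_lit 180) (C.miq (nat_lit 2686826868) (nat_lit 44787810248399409076505232)) (C.cons (nat_lit 148) (C.node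 (nat_lit 2) (nat_lit 9) (nat_lit 11) (C.cons (nat_lit 2630) (C.miq (nat_lit 657569801) (nat_lit 2642760357300167963252035329)) (C.cons (nat_lit 2628) (C.miq (nat_lit 2763392914) (nat_lit 2572614306760822259806634629)) (C.cons (nat_lit 2598) (C.miq (nat_lit 657569801) (nat_lit 2642759767004357604546383617)) (C.cons (nat_lit 2596) (C.miq (nat_lit 1383381258) (nat_lit 178978575875186901529071361)) (C.cons (nat_lit 2566) (C.miq (nat_lit 657569801) (nat_lit 2642759176708547245840731905)) (C.cons (nat_lit 2564) (C.node (nat_lit 2) (nat_lit 5) (nat_lit 11) (C.cons (nat_lit 2086) (C.node (nat_lit 2) (nat_lit 6) (nat_lit 11) (C.cons (nat_lit 2116) (C.node (nat_lit 5) (nat_lit 8) (nat_lit 11) (C.cons (nat_lit 2336) (C.node (nat_lit 5) (nat_lit 9) (nat_lit 11) C.nil) C.nil)) C.nil)) (C.cons (nat_lit 2084) (C.node (nat_lit 1) (nat_lit 2) (nat_lit 11) (C.cons (nat_lit 2118) (C.node (nat_lit 6) (nat_lit 8) (nat_lit 11) (C.cons (nat_lit 2368) (C.node (nat_lit 1)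 (nat_lit 8) (nat_lit 11) C.nil) C.nil)) (C.cons (nat_lit 2054) (C.node (nat_lit 2) (nat_lit 6) (nat_lit 11) C.nil) C.nil))) C.nil))) C.nil))))))) C.nil)))) (C.cons (nat_lit 2180) (C.node (nat_lit 7) (nat_lit 8) (nat_lit 11) (C.cons (nat_lit 2432) (C.node (nat_lit 3) (nat_lit 9) (nat_lit 11) (C.cons (nat_lit 2632) (C.node (nat_lit 3) (nat_lit 10) (nat_lit 11) (C.cons (nat_lit 3080) (C.node (nat_lit 6) (nat_lit 10) (nat_lit 11) C.nil) C.nil)) (C.cons (nat_lit 2568) (C.node (nat_lit 3) (nat_lit 6) (nat_lit 11) (C.cons (nat_lit 3144) (C.node (nat_lit 5) (nat_lit 9) (nat_lit 11) (C.cons (nat_lit 2596) (C.miq (nat_lit 732403008) (nat_lit 3868574521647463341636125233)) (C.cons (nat_lit 2594) (C.node (nat_lit 1) (nat_lit 2) (nat_lit 11) C.nil) C.nil))) C.nil)) C.nil))) C.nil)) C.nil))) C.nil))) C.nil))) C.nil)))) (C.cons (nat_lit 2184) (C.node (nat_lit 2) (nat_lit 4) (nat_lit 10) (C.cons (nat_lit 1556) (C.miq (nat_lit 1800013714) (nat_lit 3771868720128719825380049541))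 (C.cons (nat_lit 1300) (C.node (nat_lit 2) (nat_lit 4) (nat_lit 7) (C.cons (nat_lit 212) (C.miq (nat_lit 2485827424) (nat_lit 1571674420204114293136099553)) (C.cons (nat_lit 180) (C.miq (nat_lit 2588019543) (nat_lit 1571615464730104255634213089)) (C.cons (nat_lit 148) (C.node (nat_lit 7) (nat_lit 8) (nat_lit 10) (C.cons (nat_lit 1472) (C.miq (nat_lit 2018208288) (nat_lit 2804749831369555976440841285))
  (C.cons (nat_lit 1440) (C.miq (nat_lit 883428183) (nat_lit 1571610815654075821992184033)) (C.cons (nat_lit 1408) (C.node (nat_lit 2) (nat_lit 4) (nat_lit 5) (C.cons (nat_lit 118) (C.miq (nat_lit 2220597856) (nat_lit 3771919411507548120149984325)) (C.cons (nat_lit 116) (C.miq (nat_lit 2220597856) (nat_lit 3771919411507548111560049733)) (C.cons (nat_lit 54) (C.miq (nat_lit 280307876) (nat_lit 2747889384182276510471685396)) (C.cons (nat_lit 52) (C.node (nat_lit 5) (nat_lit 8) (nat_lit 10) (C.cons (nat_lit 1378) (C.miq (nat_lit 306544826) (nat_lit 62889562307331128573300481))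 (C.cons (nat_lit 1376) (C.miq (nat_lit 1481337376) (nat_lit 2804749831342534378676618309)) (C.cons (nat_lit 1314) (C.miq (nat_lit 306544826) (nat_lit 62888381715710411161997057)) (C.cons (nat_lit 1312) (C.node (nat_lit 4) (nat_lit 6) (nat_lit 7) (C.cons (nat_lit 216) (C.node (nat_lit 3) (nat_lit 4) (nat_lit 10) (C.cons (nat_lit 1560) (C.miq (nat_lit 323094952) (nat_lit 2510943778980494294530658049)) (C.cons (nat_lit 1048) (C.node (nat_lit 3) (nat_lit 4) (nat_lit 9) (C.cons (nat_lit 792) (C.miq (nat_lit 2490073968) (nat_lit 2572664998306847111579238793)) (C.cons (nat_lit 536) (C.node (nat_lit 6) (nat_lit 7) (nat_lit 10) (C.cons (nat_lit 1728) (C.miq (nat_lit 611715994) (nat_lit 261148139912667606609301249)) (C.cons (nat_lit 1216) (C.node (nat_lit 3) (nat_lit 9) (nat_lit 11) (C.cons (nat_lit 2632) (C.miq (nat_lit 2471147120) (nat_lit 1267025113640961559971956961)) (C.cons (nat_lit 2600) (C.miq (nat_lit 2761099189) (nat_lit 648003885425498549805123809))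 (C.cons (nat_lit 2568) (C.node (nat_lit 4) (nat_lit 5) (nat_lit 6) (C.cons (nat_lit 114) (C.node (nat_lit 1) (nat_lit 3) (nat_lit 4) (C.cons (nat_lit 282) (C.miq (nat_lit 2152806244) (nat_lit 42317605778970235523694808)) (C.cons (nat_lit 26) (C.node (nat_lit 1) (nat_lit 10) (nat_lit 11) (C.cons (nat_lit 3146) (C.miq (nat_lit 2585004901) (nat_lit 1415662484473315012159604961)) (C.cons (nat_lit 3138) (C.miq (nat_lit 2585004901) (nat_lit 1415662484473314977799866593)) (C.cons (nat_lit 3082) (C.miq (nat_lit 1530481168) (nat_lit 3104531854272008236164646035)) (C.cons (nat_lit 3074) (C.node (nat_lit 1) (nat_lit 2) (nat_lit 4) (C.cons (nat_lit 534) (C.node (nat_lit 1) (nat_lit 4) (nat_lit 8) (C.cons (nat_lit 274) (C.node (nat_lit 2) (nat_lit 4) (nat_lit 6) (C.cons (nat_lit 84) (C.node (nat_lit 4) (nat_lit 8) (nat_lit 9) C.nil) C.nil)) C.nil)) (C.cons (nat_lit 22) (C.node (nat_lit 1) (nat_lit 4) (nat_lit 8) (C.cons (nat_lit 786) (C.node (nat_lit 4) (nat_lit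 6) (nat_lit 10) (C.cons (nat_lit 1616) (C.miq (nat_lit 1678944640) (nat_lit 26616530777661344609406721)) (C.cons (nat_lit 1104) (C.node (nat_lit 4) (nat_lit 9) (nat_lit 10) C.nil) C.nil))) (C.cons (nat_lit 274) (C.node (nat_lit 1) (nat_lit 4) (nat_lit 9) C.nil) C.nil))) C.nil))) C.nil))))) C.nil))) (C.cons (nat_lit 112) (C.node (nat_lit 4) (nat_lit 5) (nat_lit 7) (C.cons (nat_lit 432) (C.node (nat_lit 1) (nat_lit 4) (nat_lit 5) (C.cons (nat_lit 58) (C.miq (nat_lit 1402683658) (nat_lit 3104579058628205489615340691)) (C.cons (nat_lit 50) (C.node (nat_lit 3) (nat_lit 4) (nat_lit 5) (C.cons (nat_lit 56) (C.node (nat_lit 1) (nat_lit 3) (nat_lit 4) (C.cons (nat_lit 282) (C.node (nat_lit 4) (nat_lit 8) (nat_lit 9) C.nil) C.nil)) C.nil)) C.nil))) (C.cons (nat_lit 176) (C.node (nat_lit 4) (nat_lit 7) (nat_lit 8) (C.cons (nat_lit 400) (C.node (nat_lit 4) (nat_lit 6) (nat_lit 10) (C.cons (nat_lit 1616) (C.node (nat_lit 1) (nat_lit 4) (nat_lit 6) (C.cons (nat_lit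 86) (C.miq (nat_lit 278276260) (nat_lit 697551784411675788777096468)) C.nil)) C.nil)) C.nil)) C.nil))) C.nil))) C.nil)))) C.nil))) C.nil))) C.nil))) (C.cons (nat_lit 208) (C.node (nat_lit 3) (nat_lit 4) (nat_lit 7) (C.cons (nat_lit 184) (C.miq (nat_lit 950300853) (nat_lit 1571606959810563652696672481)) (C.cons (nat_lit 152) (C.node (nat_lit 4) (nat_lit 5) (nat_lit 7) (C.cons (nat_lit 432) (C.ref (nat_lit 247) (nat_lit 205163983024656)) (C.cons (nat_lit 176) (C.node (nat_lit 4) (nat_lit 7) (nat_lit 8)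
  (C.cons (nat_lit 400) (C.ref (nat_lit 248) (nat_lit 205163983024656)) C.nil)) C.nil))) C.nil))) C.nil))) C.nil))))) C.nil))))) C.nil)))) C.nil)))) (C.cons (nat_lit 1044) (C.node (nat_lit 4) (nat_lit 8) (nat_lit 10) (C.cons (nat_lit 1304) (C.miq (nat_lit 2068317603) (nat_lit 2804715151716166675618858025)) (C.cons (nat_lit 1296) (C.ref (nat_lit 250) (nat_lit 205163983024656)) C.nil))) C.nil)))) C.nil))) C.nil))) C.nil)))) C.nil)) (C.cons (nat_lit 2096) (C.ref (nat_lit 264) (nat_lit 205163983024656)) C.nil))) C.nil)))) List.nil)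

theorem ok12_265 : okL par12 (nat_lit 266) c12_265 (nat_lit 265) = true := by decide +kernel

noncomputable def c12_266 : List C :=
  (List.cons (C.node (nat_lit 3) (nat_lit 9) (nat_lit 11) (C.cons (nat_lit 2696) (C.node (nat_lit 3) (nat_lit 10) (nat_lit 11) (C.cons (nat_lit 3082) (C.miq (nat_lit 999661888) (nat_lit 3133555371091074272195576979)) (C.cons (nat_lit 3080) (C.node (nat_lit 4) (nat_lit 5) (nat_lit 11) (C.cons (nat_lit 2352) (C.node (nat_lit 2) (nat_lit 8) (nat_lit 11) (C.cons (nat_lit 2436) (C.miq (nat_lit 730957616) (nat_lit 3116615615145890020537860489)) (C.cons (nat_lit 2372) (C.miq (nat_lit 347605602) (nat_lit 2843398379556919940141548613)) (C.cons (nat_lit 2308) (C.node (nat_lit 4) (nat_lit 8) (nat_lit 10) (C.cons (nat_lit 1304) (C.miq (nat_lit 1940588614) (nat_lit 3723533453972962666597056849)) (C.cons (nat_lit 1300) (C.miq (nat_lit 1344845476) (nat_lit 317990877940506154360900688)) (C.cons (nat_lit 1296) (C.node (nat_lit 3) (nat_lit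 8) (nat_lit 11) (C.cons (nat_lit 2378) (C.miq (nat_lit 462586736) (nat_lit 3099690653654959663450751369)) (C.cons (nat_lit 2376) (C.miq (nat_lit 1941571684) (nat_lit 3723513125660998042876117329)) (C.cons (nat_lit 2314) (C.miq (nat_lit 462586736) (nat_lit 3099690653636945264941269385)) (C.cons (nat_lit 2312) (C.node (nat_lit 1) (nat_lit 4) (nat_lit 8) (C.cons (nat_lit 282) (C.node (nat_lit 2) (nat_lit 4) (nat_lit 8) (C.cons (nat_lit 788) (C.miq (nat_lit 1921714501) (nat_lit 2790242721301398421599420977)) (C.cons (nat_lit 404) (C.miq (nat_lit 605648944) (nat_lit 3116622661230158656859472265)) (C.cons (nat_lit 276) (C.node (nat_lit 2) (nat_lit 4) (nat_lit 7) (C.cons (nat_lit 212) (C.miq (nat_lit 699822244) (nat_lit 3172225261560098438008276115)) (C.cons (nat_lit 180) (C.miq (nat_lit 2554465111) (nat_lit 333675425444720682200205537)) (C.cons (nat_lit 148) (C.node (nat_lit 2) (nat_lit 6) (nat_lit 11) (C.cons (nat_lit 2118) (C.node (nat_lit 3) (nat_lit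 6) (nat_lit 11) (C.cons (nat_lit 2120) (C.node (nat_lit 6) (nat_lit 8) (nat_lit 11) (C.cons (nat_lit 2368) (C.node (nat_lit 2) (nat_lit 5) (nat_lit 11) (C.cons (nat_lit 3108) (C.miq (nat_lit 1376303716) (nat_lit 317990878175537759851187280)) (C.cons (nat_lit 2084) (C.node (nat_lit 1) (nat_lit 3) (nat_lit 11) (C.cons (nat_lit 2058) (C.node (nat_lit 3) (nat_lit 5) (nat_lit 11) C.nil) C.nil)) C.nil))) C.nil)) C.nil)) (C.cons (nat_lit 2116) (C.node (nat_lit 3) (nat_lit 4) (nat_lit 10) (C.cons (nat_lit 1560) (C.node (nat_lit 4) (nat_lit 5) (nat_lit 7) (C.cons (nat_lit 184) (C.miq (nat_lit 1536389284) (nat_lit 3259267404521758936700290195)) (C.cons (nat_lit 176) (C.node (nat_lit 3) (nat_lit 4) (nat_lit 5) (C.cons (nat_lit 120) (C.miq (nat_lit 2490082128) (nat_lit 3810605037808399756275287081)) (C.cons (nat_lit 56) (C.node (nat_lit 3) (nat_lit 4) (nat_lit 6) (C.cons (nat_lit 216) (C.miq (nat_lit 2471016288) (nat_lit 340987935834170010601851105)) (C.cons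 (nat_lit 88) (C.node (nat_lit 3) (nat_lit 4) (nat_lit 7) (C.cons (nat_lit 152) (C.node (nat_lit 7) (nat_lit 9) (nat_lit 10) (C.cons (nat_lit 1728) (C.miq (nat_lit 1730455819) (nat_lit 178979165926676980509249281)) (C.cons (nat_lit 1696) (C.miq (nat_lit 1497070144) (nat_lit 3259305939607708057605047443)) (C.cons (nat_lit 1664) (C.node (nat_lit 6) (nat_lit 9) (nat_lit 10) (C.cons (nat_lit 1634) (C.miq (nat_lit 323391674) (nat_lit 106415614253124142454804225)) (C.cons (nat_lit 1632) (C.miq (nat_lit 1766545968) (nat_lit 3116652692875167416480236585)) (C.cons (nat_lit 1602) (C.miq (nat_lit 323391674) (nat_lit 106415023957313783749152513)) (C.cons (nat_lit 1600) (C.node (nat_lit 2) (nat_lit 4) (nat_lit 9) (C.cons (nat_lit 596) (C.node (nat_lit 4) (nat_lit 6) (nat_lit 7) (C.cons (nat_lit 208) (C.node (nat_lit 1) (nat_lit 2) (nat_lit 4) (C.cons (nat_lit 54) (C.node (nat_lit 2) (nat_lit 5) (nat_lit 11) (C.cons (nat_lit 3108) (C.miq (nat_lit 1649674936) (nat_lit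 65288211119608314010275585)) C.nil)) (C.cons (nat_lit 22) (C.node (nat_lit 1) (nat_lit 4) (nat_lit 5) (C.cons (nat_lit 114) (C.node (nat_lit 2) (nat_lit 4) (nat_lit 5) C.nil) C.nil)) C.nil))) C.nil)) (C.cons (nat_lit 532) (C.node (nat_lit 2) (nat_lit 4) (nat_lit 6)
  (C.cons (nat_lit 118) (C.miq (nat_lit 2822900566) (nat_lit 333683689586065704075266273)) (C.cons (nat_lit 116) (C.miq (nat_lit 2822900566) (nat_lit 333683689586065704075135201)) (C.cons (nat_lit 86) (C.miq (nat_lit 380191243) (nat_lit 1934328867113840245402044445)) (C.cons (nat_lit 84) (C.node (nat_lit 1) (nat_lit 2) (nat_lit 4) (C.cons (nat_lit 54) (C.node (nat_lit 1) (nat_lit 4) (nat_lit 6) C.nil) C.nil)) C.nil))))) C.nil))) C.nil))))) C.nil)))) C.nil)) C.nil))) C.nil))) C.nil))) (C.cons (nat_lit 1048) (C.node (nat_lit 4) (nat_lit 9) (nat_lit 10) (C.cons (nat_lit 1556) (C.miq (nat_lit 1680325264) (nat_lit 178962951639460469270712065)) (C.cons (nat_lit 1552) (C.node (nat_lit 2) (nat_lit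 4) (nat_lit 9) (C.cons (nat_lit 596) (C.node (nat_lit 3) (nat_lit 4) (nat_lit 9) (C.cons (nat_lit 536) (C.node (nat_lit 4) (nat_lit 6) (nat_lit 7) (C.cons (nat_lit 216) (C.miq (nat_lit 2471016288) (nat_lit 340987935834170010601851105)) (C.cons (nat_lit 208) (C.node (nat_lit 1) (nat_lit 2) (nat_lit 4) (C.cons (nat_lit 54) (C.node (nat_lit 1) (nat_lit 4) (nat_lit 6) (C.cons (nat_lit 82) (C.node (nat_lit 2) (nat_lit 4) (nat_lit 10) (C.cons (nat_lit 1044) (C.node (nat_lit 4) (nat_lit 5) (nat_lit 10) C.nil) C.nil)) C.nil)) (C.cons (nat_lit 22) (C.node (nat_lit 1) (nat_lit 4) (nat_lit 5) (C.cons (nat_lit 114) (C.node (nat_lit 3) (nat_lit 4) (nat_lit 6) (C.cons (nat_lit 88) (C.node (nat_lit 3) (nat_lit 4) (nat_lit 5) (C.cons (nat_lit 184) (C.miq (nat_lit 359876104) (nat_lit 222447552823018464070926673)) C.nil)) C.nil)) (C.cons (nat_lit 50) (C.node (nat_lit 1) (nat_lit 4) (nat_lit 6) C.nil) C.nil))) C.nil))) C.nil))) C.nil)) (C.cons (nat_lit 532) (C.node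 (nat_lit 2) (nat_lit 4) (nat_lit 6) (C.cons (nat_lit 118) (C.miq (nat_lit 2822900566) (nat_lit 333683689586065704075266273)) (C.cons (nat_lit 116) (C.miq (nat_lit 2822900566) (nat_lit 333683689586065704075135201)) (C.cons (nat_lit 86) (C.miq (nat_lit 2338458177) (nat_lit 2558091886879405642578527379)) (C.cons (nat_lit 84) (C.node (nat_lit 1) (nat_lit 2) (nat_lit 4) (C.cons (nat_lit 54) (C.node (nat_lit 1) (nat_lit 4) (nat_lit 6) (C.cons (nat_lit 82) (C.node (nat_lit 2) (nat_lit 4) (nat_lit 10) (C.cons (nat_lit 1044) (C.node (nat_lit 4) (nat_lit 5) (nat_lit 10) C.nil) C.nil)) C.nil)) (C.cons (nat_lit 22) (C.node (nat_lit 1) (nat_lit 4) (nat_lit 5) (C.cons (nat_lit 114) (C.node (nat_lit 3) (nat_lit 4) (nat_lit 5) (C.cons (nat_lit 184) (C.miq (nat_lit 359876104) (nat_lit 222447552823018464070926673)) (C.cons (nat_lit 56) (C.node (nat_lit 4) (nat_lit 5) (nat_lit 7) C.nil) C.nil))) (C.cons (nat_lit 50) (C.node (nat_lit 1) (nat_lit 4) (nat_lit 6) C.nil)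 C.nil))) C.nil))) C.nil))))) C.nil))) C.nil))) C.nil))) C.nil))) C.nil)))) C.nil)))) (C.cons (nat_lit 274) (C.node (nat_lit 3) (nat_lit 4) (nat_lit 8) (C.cons (nat_lit 792) (C.miq (nat_lit 1236697968) (nat_lit 3172227567444479555483533705)) (C.cons (nat_lit 280) (C.node (nat_lit 1) (nat_lit 3) (nat_lit 4) (C.cons (nat_lit 122) (C.miq (nat_lit 968233124) (nat_lit 3172223601318791856989930643)) (C.cons (nat_lit 90) (C.miq (nat_lit 968233124) (nat_lit 3172223011022981498284278931)) (C.cons (nat_lit 58) (C.miq (nat_lit 329991433) (nat_lit 3723539080135610004360200753)) (C.cons (nat_lit 26) (C.node (nat_lit 2) (nat_lit 6) (nat_lit 11) (C.cons (nat_lit 2118) (C.node (nat_lit 3) (nat_lit 6) (nat_lit 11) (C.cons (nat_lit 2120) (C.node (nat_lit 6) (nat_lit 8) (nat_lit 11) (C.cons (nat_lit 2368) (C.node (nat_lit 2) (nat_lit 5) (nat_lit 11) (C.cons (nat_lit 3108) (C.miq (nat_lit 1376303716) (nat_lit 317990878175537759851187280)) (C.cons (nat_lit 2084) (C.node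 (nat_lit 1) (nat_lit 3) (nat_lit 11) (C.cons (nat_lit 2058) (C.node (nat_lit 3) (nat_lit 5) (nat_lit 11) C.nil) C.nil)) C.nil))) C.nil)) C.nil)) (C.cons (nat_lit 2116) (C.node (nat_lit 3) (nat_lit 4) (nat_lit 10) (C.cons (nat_lit 1560) (C.node (nat_lit 3) (nat_lit 4) (nat_lit 5) (C.cons (nat_lit 184) (C.miq (nat_lit 1536389284) (nat_lit 3259267404521758936700290195)) (C.cons (nat_lit 120)
  (C.miq (nat_lit 2490082128) (nat_lit 3810605037808399756275287081)) (C.cons (nat_lit 56) (C.node (nat_lit 3) (nat_lit 4) (nat_lit 6) (C.cons (nat_lit 216) (C.miq (nat_lit 2471016288) (nat_lit 338570084194940752252438753)) (C.cons (nat_lit 88) (C.node (nat_lit 3) (nat_lit 4) (nat_lit 7) (C.cons (nat_lit 152) (C.node (nat_lit 7) (nat_lit 9) (nat_lit 10) (C.cons (nat_lit 1728) (C.miq (nat_lit 597298038) (nat_lit 1885944441474729183054661857)) (C.cons (nat_lit 1696) (C.miq (nat_lit 1497070144) (nat_lit 3259305939607708057605047443)) (C.cons (nat_lit 1664) (C.node (nat_lit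 6) (nat_lit 9) (nat_lit 10) (C.cons (nat_lit 1634) (C.miq (nat_lit 323391674) (nat_lit 106415614253124142454804225)) (C.cons (nat_lit 1632) (C.miq (nat_lit 1766545968) (nat_lit 3116652692875167416480236585)) (C.cons (nat_lit 1602) (C.miq (nat_lit 323391674) (nat_lit 106415023957313783749152513)) (C.cons (nat_lit 1600) (C.node (nat_lit 2) (nat_lit 4) (nat_lit 10) (C.cons (nat_lit 1076) (C.node (nat_lit 4) (nat_lit 5) (nat_lit 7) (C.cons (nat_lit 176) (C.node (nat_lit 1) (nat_lit 2) (nat_lit 4) (C.cons (nat_lit 86) (C.miq (nat_lit 380191243) (nat_lit 1934328867113840245402044445)) (C.cons (nat_lit 22) (C.node (nat_lit 1) (nat_lit 4) (nat_lit 5) (C.cons (nat_lit 114) (C.node (nat_lit 5) (nat_lit 10) (nat_lit 11) (C.cons (nat_lit 3106) (C.miq (nat_lit 2705896800) (nat_lit 331316529392657279568906465)) C.nil)) C.nil)) C.nil))) C.nil)) (C.cons (nat_lit 1044) (C.node (nat_lit 4) (nat_lit 5) (nat_lit 10) (C.cons (nat_lit 1072) (C.node (nat_lit 3) (nat_lit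 5) (nat_lit 11) (C.cons (nat_lit 2090) (C.node (nat_lit 3) (nat_lit 6) (nat_lit 11) C.nil) C.nil)) C.nil)) C.nil))) C.nil))))) C.nil)))) C.nil)) C.nil))) C.nil)))) (C.cons (nat_lit 1048) (C.node (nat_lit 4) (nat_lit 9) (nat_lit 10) (C.cons (nat_lit 1556) (C.miq (nat_lit 2068383394) (nat_lit 3116622661756247714955527237)) (C.cons (nat_lit 1552) (C.node (nat_lit 2) (nat_lit 4) (nat_lit 10) (C.cons (nat_lit 1076) (C.node (nat_lit 1) (nat_lit 2) (nat_lit 4) (C.cons (nat_lit 86) (C.miq (nat_lit 2338458177) (nat_lit 2558091886879405642578527379)) (C.cons (nat_lit 22) (C.node (nat_lit 1) (nat_lit 4) (nat_lit 5) (C.cons (nat_lit 114) (C.node (nat_lit 5) (nat_lit 10) (nat_lit 11) (C.cons (nat_lit 3106) (C.miq (nat_lit 2705896800) (nat_lit 331316529392657279568906465)) (C.cons (nat_lit 3104) (C.node (nat_lit 1) (nat_lit 10) (nat_lit 11) (C.cons (nat_lit 3078) (C.miq (nat_lit 1797802512) (nat_lit 2790207009110539321859310739)) (C.cons (nat_lit 3074) (C.node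 (nat_lit 6) (nat_lit 8) (nat_lit 11) (C.cons (nat_lit 2370) (C.miq (nat_lit 2169091664) (nat_lit 3116681617577597315247573217)) (C.cons (nat_lit 2368) (C.node (nat_lit 1) (nat_lit 6) (nat_lit 11) (C.cons (nat_lit 2122) (C.node (nat_lit 3) (nat_lit 5) (nat_lit 11) C.nil) C.nil)) C.nil))) C.nil))) C.nil))) (C.cons (nat_lit 50) (C.node (nat_lit 1) (nat_lit 4) (nat_lit 6) (C.cons (nat_lit 82) (C.node (nat_lit 2) (nat_lit 5) (nat_lit 11) (C.cons (nat_lit 2086) (C.node (nat_lit 1) (nat_lit 10) (nat_lit 11) C.nil) C.nil)) C.nil)) C.nil))) C.nil))) (C.cons (nat_lit 1044) (C.node (nat_lit 4) (nat_lit 5) (nat_lit 10) (C.cons (nat_lit 1072) (C.node (nat_lit 3) (nat_lit 4) (nat_lit 9) (C.cons (nat_lit 600) (C.node (nat_lit 2) (nat_lit 4) (nat_lit 9) (C.cons (nat_lit 788) (C.miq (nat_lit 1921714501) (nat_lit 2790242721301398421599420977)) (C.cons (nat_lit 532) (C.node (nat_lit 4) (nat_lit 6) (nat_lit 7) (C.cons (nat_lit 212) (C.miq (nat_lit 2754197104) (nat_lit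 643219390866179876498770145)) C.nil)) C.nil))) (C.cons (nat_lit 536) (C.node (nat_lit 3) (nat_lit 5) (nat_lit 11) (C.cons (nat_lit 2090) (C.node (nat_lit 3) (nat_lit 6) (nat_lit 11) (C.cons (nat_lit 2120) (C.node (nat_lit 1) (nat_lit 6) (nat_lit 11) (C.cons (nat_lit 2114) (C.node (nat_lit 2) (nat_lit 4) (nat_lit 8) C.nil) C.nil)) C.nil)) (C.cons (nat_lit 2088) (C.node (nat_lit 2) (nat_lit 4) (nat_lit 8) (C.cons (nat_lit 276) (C.node (nat_lit 1) (nat_lit 3) (nat_lit 11) (C.cons (nat_lit 2122)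
  (C.node (nat_lit 6) (nat_lit 8) (nat_lit 11) C.nil) C.nil)) C.nil)) C.nil))) C.nil))) C.nil)) C.nil))) C.nil))) C.nil))) C.nil))) C.nil))))) C.nil))) C.nil))) C.nil))))) C.nil)))) C.nil)))) (C.cons (nat_lit 2096) (C.node (nat_lit 4) (nat_lit 8) (nat_lit 11) (C.cons (nat_lit 2320) (C.node (nat_lit 7) (nat_lit 10) (nat_lit 11) (C.cons (nat_lit 3204) (C.node (nat_lit 7) (nat_lit 9) (nat_lit 10) (C.cons (nat_lit 1728) (C.miq (nat_lit 694880164) (nat_lit 3172259664737786831056143507)) (C.cons (nat_lit 1696) (C.miq (nat_lit 1521784608) (nat_lit 3810544532526131831444931205)) (C.cons (nat_lit 1664) (C.node (nat_lit 1) (nat_lit 7) (nat_lit 11) (C.cons (nat_lit 2434) (C.node (nat_lit 6) (nat_lit 8) (nat_lit 11) (C.cons (nat_lit 2376) (C.miq (nat_lit 1000834624) (nat_lit 3873405576284490926090551633)) (C.cons (nat_lit 2372) (C.miq (nat_lit 2709653430) (nat_lit 317967653179537689321670881)) (C.cons (nat_lit 2368) (C.node (nat_lit 1) (nat_lit 10) (nat_lit 11)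 (C.cons (nat_lit 3106) (C.node (nat_lit 2) (nat_lit 5) (nat_lit 11) (C.cons (nat_lit 2340) (C.miq (nat_lit 901253655) (nat_lit 2828893667768437427191022739)) (C.cons (nat_lit 2084) (C.node (nat_lit 2) (nat_lit 8) (nat_lit 11) C.nil) C.nil))) (C.cons (nat_lit 3074) (C.node (nat_lit 5) (nat_lit 10) (nat_lit 11) (C.cons (nat_lit 3104) (C.node (nat_lit 2) (nat_lit 6) (nat_lit 11) (C.cons (nat_lit 2116) (C.node (nat_lit 1) (nat_lit 2) (nat_lit 11) C.nil) C.nil)) C.nil)) C.nil))) C.nil)))) (C.cons (nat_lit 2178) (C.node (nat_lit 7) (nat_lit 8) (nat_lit 11) (C.cons (nat_lit 2432) (C.node (nat_lit 1) (nat_lit 10) (nat_lit 11) (C.cons (nat_lit 3106) (C.node (nat_lit 3) (nat_lit 5) (nat_lit 11) (C.cons (nat_lit 2344) (C.miq (nat_lit 461874480) (nat_lit 2940129195314359811862758441)) (C.cons (nat_lit 2088) (C.node (nat_lit 1) (nat_lit 2) (nat_lit 11) (C.cons (nat_lit 2054) (C.node (nat_lit 2) (nat_lit 5) (nat_lit 11) C.nil) C.nil)) C.nil))) (C.cons (nat_lit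 3074) (C.node (nat_lit 5) (nat_lit 10) (nat_lit 11) (C.cons (nat_lit 3104) (C.node (nat_lit 8) (nat_lit 2) (nat_lit 11) (C.cons (nat_lit 2340) (C.node (nat_lit 1) (nat_lit 5) (nat_lit 11) C.nil) (C.cons (nat_lit 2372) (C.miq (nat_lit 447874152) (nat_lit 3873403177868583996991209809)) C.nil))) C.nil)) C.nil))) C.nil)) C.nil))) C.nil)))) (C.cons (nat_lit 3200) (C.node (nat_lit 2) (nat_lit 6) (nat_lit 11) (C.cons (nat_lit 2372) (C.miq (nat_lit 347605602) (nat_lit 2804712753329251806550950981)) (C.cons (nat_lit 2118) (C.node (nat_lit 2) (nat_lit 7) (nat_lit 11) (C.cons (nat_lit 2436) (C.miq (nat_lit 730957616) (nat_lit 3116615615145890020537860489)) (C.cons (nat_lit 2180) (C.node (nat_lit 3) (nat_lit 6) (nat_lit 11) (C.cons (nat_lit 2376) (C.miq (nat_lit 1000834624) (nat_lit 3868569873006032409391726929)) (C.cons (nat_lit 2120) (C.node (nat_lit 6) (nat_lit 8) (nat_lit 11) (C.cons (nat_lit 2368) (C.node (nat_lit 1) (nat_lit 7) (nat_lit 11) (C.cons (nat_lit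 2434) (C.node (nat_lit 1) (nat_lit 3) (nat_lit 11) C.nil) C.nil)) C.nil)) C.nil))) C.nil))) (C.cons (nat_lit 2116) (C.node (nat_lit 2) (nat_lit 7) (nat_lit 11) (C.cons (nat_lit 2436) (C.miq (nat_lit 730957616) (nat_lit 3116615615145890020537860489)) (C.cons (nat_lit 2182) (C.node (nat_lit 7) (nat_lit 8) (nat_lit 11) (C.cons (nat_lit 2432) (C.node (nat_lit 1) (nat_lit 10) (nat_lit 11) (C.cons (nat_lit 3106) (C.node (nat_lit 2) (nat_lit 10) (nat_lit 11) (C.cons (nat_lit 3076) (C.node (nat_lit 2) (nat_lit 5) (nat_lit 11) C.nil) C.nil)) (C.cons (nat_lit 3074) (C.node (nat_lit 2) (nat_lit 8) (nat_lit 11) (C.cons (nat_lit 2340) (C.node (nat_lit 2) (nat_lit 10) (nat_lit 11) C.nil) C.nil)) C.nil))) C.nil)) (C.cons (nat_lit 2180) (C.node (nat_lit 1) (nat_lit 7) (nat_lit 11) (C.cons (nat_lit 2434) (C.node (nat_lit 6) (nat_lit 8) (nat_lit 11) (C.cons (nat_lit 2376) (C.miq (nat_lit 1000834624) (nat_lit 3868569873006032409391726929)) (C.cons (nat_lit 2368) (C.node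 (nat_lit 1) (nat_lit 6) (nat_lit 11) (C.cons (nat_lit 2122) (C.node (nat_lit 2) (nat_lit 8) (nat_lit 11) C.nil) C.nil)) C.nil)))
  (C.cons (nat_lit 2178) (C.node (nat_lit 7) (nat_lit 8) (nat_lit 11) C.nil) C.nil))) C.nil)))) C.nil)))) C.nil))) C.nil)) C.nil))) C.nil))) (C.cons (nat_lit 2568) (C.node (nat_lit 7) (nat_lit 9) (nat_lit 11) (C.cons (nat_lit 2688) (C.node (nat_lit 4) (nat_lit 5) (nat_lit 11) (C.cons (nat_lit 2352) (C.node (nat_lit 1) (nat_lit 4) (nat_lit 8) (C.cons (nat_lit 282) (C.node (nat_lit 4) (nat_lit 8) (nat_lit 10) (C.cons (nat_lit 1300) (C.miq (nat_lit 1344845476) (nat_lit 317990877940506154360900688)) (C.cons (nat_lit 1296) (C.node (nat_lit 3) (nat_lit 7) (nat_lit 11) (C.cons (nat_lit 3208) (C.miq (nat_lit 977828704) (nat_lit 1566775112693965641319778529)) (C.cons (nat_lit 2186) (C.miq (nat_lit 1679493175) (nat_lit 3116652692510651832678875529)) (C.cons (nat_lit 2184) (C.node (nat_lit 3) (nat_lit 8) (nat_lit 11) (C.cons (nat_lit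 2376) (C.miq (nat_lit 2805678214) (nat_lit 2640352134505279335871021393)) (C.cons (nat_lit 2312) (C.node (nat_lit 3) (nat_lit 10) (nat_lit 11) (C.cons (nat_lit 3082) (C.miq (nat_lit 1393822393) (nat_lit 340927430054534865780608769)) (C.cons (nat_lit 3080) (C.node (nat_lit 3) (nat_lit 4) (nat_lit 10) (C.cons (nat_lit 1560) (C.node (nat_lit 3) (nat_lit 4) (nat_lit 5) (C.cons (nat_lit 184) (C.miq (nat_lit 1536389284) (nat_lit 3104524899611086402337899667)) (C.cons (nat_lit 120) (C.miq (nat_lit 2490082128) (nat_lit 3810605037808399756275287081)) (C.cons (nat_lit 56) (C.node (nat_lit 3) (nat_lit 4) (nat_lit 6) (C.cons (nat_lit 216) (C.miq (nat_lit 2755180144) (nat_lit 340987935962522599985580257)) (C.cons (nat_lit 88) (C.node (nat_lit 3) (nat_lit 4) (nat_lit 7) (C.cons (nat_lit 152) (C.node (nat_lit 7) (nat_lit 9) (nat_lit 10) (C.cons (nat_lit 1728) (C.miq (nat_lit 615058279) (nat_lit 1885936177333386119680624865)) (C.cons (nat_lit 1696) (C.miq (nat_lit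 1497070144) (nat_lit 3104563434697035523242656915)) (C.cons (nat_lit 1664) (C.node (nat_lit 6) (nat_lit 9) (nat_lit 10) (C.cons (nat_lit 1634) (C.miq (nat_lit 323391674) (nat_lit 106415614253124142454804225)) (C.cons (nat_lit 1632) (C.miq (nat_lit 1766545968) (nat_lit 3116652692875167416480236585)) (C.cons (nat_lit 1602) (C.miq (nat_lit 323391674) (nat_lit 106415023957313783749152513)) (C.cons (nat_lit 1600) (C.node (nat_lit 2) (nat_lit 4) (nat_lit 10) (C.cons (nat_lit 1076) (C.node (nat_lit 4) (nat_lit 5) (nat_lit 7) (C.cons (nat_lit 176) (C.node (nat_lit 1) (nat_lit 2) (nat_lit 4) (C.cons (nat_lit 86) (C.miq (nat_lit 380191243) (nat_lit 1934328867113840245402044445)) (C.cons (nat_lit 22) (C.node (nat_lit 5) (nat_lit 9) (nat_lit 10) (C.cons (nat_lit 1570) (C.miq (nat_lit 1396809913) (nat_lit 340946042819300922276056833)) (C.cons (nat_lit 1568) (C.node (nat_lit 2) (nat_lit 4) (nat_lit 7) (C.cons (nat_lit 404) (C.miq (nat_lit 605648944) (nat_lit 3116622661230158656859472265))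 (C.cons (nat_lit 212) (C.miq (nat_lit 2588019559) (nat_lit 1300816081136427457941080289)) (C.cons (nat_lit 148) (C.node (nat_lit 2) (nat_lit 4) (nat_lit 8) (C.cons (nat_lit 788) (C.miq (nat_lit 1411889296) (nat_lit 178962951414277189367303937)) (C.cons (nat_lit 276) (C.node (nat_lit 2) (nat_lit 4) (nat_lit 9) (C.cons (nat_lit 596) (C.node (nat_lit 1) (nat_lit 9) (nat_lit 10) C.nil) C.nil)) C.nil))) C.nil)))) C.nil))) C.nil))) C.nil)) (C.cons (nat_lit 1044) (C.node (nat_lit 4) (nat_lit 5) (nat_lit 10) (C.cons (nat_lit 1072) (C.node (nat_lit 3) (nat_lit 5) (nat_lit 11) (C.cons (nat_lit 2090) (C.node (nat_lit 1) (nat_lit 5) (nat_lit 8) (C.cons (nat_lit 1378) (C.miq (nat_lit 613026646) (nat_lit 1566788025096465603440543969)) (C.cons (nat_lit 1314) (C.miq (nat_lit 1696074548) (nat_lit 1588534744166177174246262813)) (C.cons (nat_lit 930) (C.miq (nat_lit 873925528) (nat_lit 1415659384923786330549391105)) (C.cons (nat_lit 866) (C.miq (nat_lit 1158920336)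 (nat_lit 2526693277544048934574034689)) (C.cons (nat_lit 802) (C.miq (nat_lit 1158920336) (nat_lit 2526693277544048659696127745)) (C.cons (nat_lit 418) (C.miq (nat_lit 1696074548) (nat_lit 505337209791469433709529117)) (C.cons (nat_lit 354)
  (C.miq (nat_lit 828421508) (nat_lit 81036344389905471209802032)) (C.cons (nat_lit 290) (C.miq (nat_lit 1696074548) (nat_lit 350594704880796899347138589)) C.nil))))))))) (C.cons (nat_lit 2088) (C.node (nat_lit 1) (nat_lit 3) (nat_lit 11) (C.cons (nat_lit 2122) (C.node (nat_lit 1) (nat_lit 3) (nat_lit 10) (C.cons (nat_lit 1038) (C.miq (nat_lit 1681524754) (nat_lit 1885944440984952355481846023)) C.nil)) (C.cons (nat_lit 2058) (C.node (nat_lit 3) (nat_lit 6) (nat_lit 11) C.nil) C.nil))) C.nil))) C.nil)) C.nil))) C.nil))))) C.nil)))) C.nil)) C.nil))) C.nil)))) (C.cons (nat_lit 1048) (C.node (nat_lit 4) (nat_lit 9) (nat_lit 10) (C.cons (nat_lit 1556) (C.miq (nat_lit 2068383394) (nat_lit 3116622661756247714955527237))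 (C.cons (nat_lit 1552) (C.node (nat_lit 2) (nat_lit 4) (nat_lit 10) (C.cons (nat_lit 1076) (C.node (nat_lit 1) (nat_lit 2) (nat_lit 4) (C.cons (nat_lit 86) (C.miq (nat_lit 3021514272) (nat_lit 340987935962522041631310917)) (C.cons (nat_lit 22) (C.node (nat_lit 2) (nat_lit 4) (nat_lit 7) (C.cons (nat_lit 404) (C.miq (nat_lit 605648944) (nat_lit 3116622661230158656859472265)) (C.cons (nat_lit 212) (C.miq (nat_lit 2588019559) (nat_lit 1300816081136427457941080289)) (C.cons (nat_lit 148) (C.node (nat_lit 2) (nat_lit 4) (nat_lit 8) (C.cons (nat_lit 788) (C.miq (nat_lit 1411889296) (nat_lit 178962951414277189367303937)) (C.cons (nat_lit 276) (C.node (nat_lit 2) (nat_lit 8) (nat_lit 11) (C.cons (nat_lit 2436) (C.miq (nat_lit 2458126261) (nat_lit 333673875018624825950210273)) (C.cons (nat_lit 2372) (C.miq (nat_lit 1645525002) (nat_lit 26654512836501948761050881)) (C.cons (nat_lit 2308) (C.node (nat_lit 1) (nat_lit 4) (nat_lit 5) (C.cons (nat_lit 114) (C.node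 (nat_lit 3) (nat_lit 4) (nat_lit 5) (C.cons (nat_lit 184) (C.miq (nat_lit 359876104) (nat_lit 222447552823018464070926673)) (C.cons (nat_lit 56) (C.node (nat_lit 4) (nat_lit 5) (nat_lit 7) (C.cons (nat_lit 176) (C.node (nat_lit 2) (nat_lit 4) (nat_lit 6) C.nil) C.nil)) C.nil))) (C.cons (nat_lit 50) (C.node (nat_lit 1) (nat_lit 4) (nat_lit 6) (C.cons (nat_lit 82) (C.node (nat_lit 2) (nat_lit 4) (nat_lit 6) (C.cons (nat_lit 596) (C.node (nat_lit 3) (nat_lit 4) (nat_lit 9) C.nil) C.nil)) C.nil)) C.nil))) C.nil)))) C.nil))) C.nil)))) C.nil))) (C.cons (nat_lit 1044) (C.node (nat_lit 4) (nat_lit 5) (nat_lit 10) (C.cons (nat_lit 1072) (C.node (nat_lit 3) (nat_lit 5) (nat_lit 11) (C.cons (nat_lit 2090) (C.node (nat_lit 1) (nat_lit 5) (nat_lit 8) (C.cons (nat_lit 1378) (C.miq (nat_lit 613026646) (nat_lit 1566788025096465603440543969)) (C.cons (nat_lit 1314) (C.miq (nat_lit 1696074548) (nat_lit 1588534744166177174246262813)) (C.cons (nat_lit 930) (C.miq (nat_lit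 873925528) (nat_lit 1415659384923786330549391105)) (C.cons (nat_lit 866) (C.miq (nat_lit 1158920336) (nat_lit 2526693277544048934574034689)) (C.cons (nat_lit 802) (C.miq (nat_lit 1158920336) (nat_lit 2526693277544048659696127745)) (C.cons (nat_lit 418) (C.miq (nat_lit 1696074548) (nat_lit 505337209791469433709529117)) (C.cons (nat_lit 354) (C.miq (nat_lit 828421508) (nat_lit 81036344389905471209802032)) (C.cons (nat_lit 290) (C.miq (nat_lit 1696074548) (nat_lit 350594704880796899347138589)) C.nil))))))))) (C.cons (nat_lit 2088) (C.node (nat_lit 1) (nat_lit 3) (nat_lit 11) (C.cons (nat_lit 2122) (C.node (nat_lit 1) (nat_lit 3) (nat_lit 10) (C.cons (nat_lit 1038) (C.miq (nat_lit 1681524754) (nat_lit 1266974421342262218032283911)) (C.cons (nat_lit 1034) (C.node (nat_lit 2) (nat_lit 6) (nat_lit 11) (C.cons (nat_lit 2372) (C.miq (nat_lit 347605602) (nat_lit 2843398379556919940141548613)) (C.cons (nat_lit 2116) (C.node (nat_lit 6) (nat_lit 8) (nat_lit 11)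 C.nil) C.nil))) C.nil))) (C.cons (nat_lit 2058) (C.node (nat_lit 3) (nat_lit 6) (nat_lit 11) C.nil) C.nil))) C.nil))) C.nil)) C.nil))) C.nil))) C.nil))) C.nil))) C.nil))) C.nil)))) C.nil))) (C.cons (nat_lit 274) (C.node (nat_lit 1) (nat_lit 3) (nat_lit 4) (C.cons (nat_lit 122) (C.miq (nat_lit 968233124) (nat_lit 3172223601318791856989930643)) (C.cons (nat_lit 90)
  (C.miq (nat_lit 968233124) (nat_lit 3172223011022981498284278931)) (C.cons (nat_lit 58) (C.miq (nat_lit 2873428243) (nat_lit 2843413174597202777556517387)) (C.cons (nat_lit 26) (C.node (nat_lit 3) (nat_lit 5) (nat_lit 11) (C.cons (nat_lit 2090) (C.node (nat_lit 1) (nat_lit 10) (nat_lit 11) (C.cons (nat_lit 3078) (C.miq (nat_lit 2226194082) (nat_lit 3116615614555076003094725701)) (C.cons (nat_lit 3074) (C.node (nat_lit 2) (nat_lit 5) (nat_lit 11) (C.cons (nat_lit 3108) (C.miq (nat_lit 1376303716) (nat_lit 317990878175537759851187280)) (C.cons (nat_lit 2084) (C.node (nat_lit 5) (nat_lit 10)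 (nat_lit 11) (C.cons (nat_lit 3104) (C.node (nat_lit 2) (nat_lit 10) (nat_lit 11) (C.cons (nat_lit 3204) (C.node (nat_lit 3) (nat_lit 7) (nat_lit 11) (C.cons (nat_lit 2184) (C.node (nat_lit 3) (nat_lit 10) (nat_lit 11) (C.cons (nat_lit 3080) (C.node (nat_lit 1) (nat_lit 2) (nat_lit 11) C.nil) C.nil)) C.nil)) (C.cons (nat_lit 3076) (C.node (nat_lit 3) (nat_lit 6) (nat_lit 11) (C.cons (nat_lit 2376) (C.node (nat_lit 3) (nat_lit 7) (nat_lit 11) (C.cons (nat_lit 2184) (C.miq (nat_lit 2805678214) (nat_lit 2640352134505279335871021393)) C.nil)) (C.cons (nat_lit 2120) (C.node (nat_lit 3) (nat_lit 8) (nat_lit 11) C.nil) C.nil))) C.nil))) C.nil)) C.nil))) C.nil))) (C.cons (nat_lit 2088) (C.node (nat_lit 4) (nat_lit 5) (nat_lit 10) (C.cons (nat_lit 1076) (C.node (nat_lit 1) (nat_lit 2) (nat_lit 4) (C.cons (nat_lit 86) (C.miq (nat_lit 3021514272) (nat_lit 331316529405605008233661509)) (C.cons (nat_lit 22) (C.node (nat_lit 1) (nat_lit 4) (nat_lit 5) (C.cons (nat_lit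 114) (C.node (nat_lit 5) (nat_lit 10) (nat_lit 11) (C.cons (nat_lit 3106) (C.miq (nat_lit 2705896800) (nat_lit 331316529392657279568906465)) (C.cons (nat_lit 3104) (C.node (nat_lit 1) (nat_lit 10) (nat_lit 11) (C.cons (nat_lit 3082) (C.miq (nat_lit 826649488) (nat_lit 137837190086023177273675521)) (C.cons (nat_lit 3078) (C.miq (nat_lit 2226194082) (nat_lit 3116615614555076003094725701)) (C.cons (nat_lit 3074) (C.node (nat_lit 1) (nat_lit 5) (nat_lit 11) (C.cons (nat_lit 2086) (C.node (nat_lit 2) (nat_lit 6) (nat_lit 11) (C.cons (nat_lit 2372) (C.miq (nat_lit 558268587) (nat_lit 137861299187043513461116673)) (C.cons (nat_lit 2116) (C.node (nat_lit 2) (nat_lit 8) (nat_lit 11) (C.cons (nat_lit 2436) (C.node (nat_lit 2) (nat_lit 4) (nat_lit 8) (C.cons (nat_lit 788) (C.miq (nat_lit 1917171856) (nat_lit 1300846112040296961532825345)) (C.cons (nat_lit 276) (C.miq (nat_lit 2458126261) (nat_lit 333673875018624825950210273)) C.nil))) (C.cons (nat_lit 2308)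 (C.node (nat_lit 2) (nat_lit 7) (nat_lit 11) (C.cons (nat_lit 3204) (C.node (nat_lit 3) (nat_lit 10) (nat_lit 11) C.nil) C.nil)) C.nil))) C.nil))) (C.cons (nat_lit 2082) (C.node (nat_lit 2) (nat_lit 5) (nat_lit 11) (C.cons (nat_lit 2084) (C.node (nat_lit 2) (nat_lit 10) (nat_lit 11) (C.cons (nat_lit 3204) (C.node (nat_lit 3) (nat_lit 10) (nat_lit 11) C.nil) C.nil)) C.nil)) C.nil))) C.nil)))) C.nil))) (C.cons (nat_lit 50) (C.node (nat_lit 1) (nat_lit 4) (nat_lit 6) (C.cons (nat_lit 82) (C.node (nat_lit 2) (nat_lit 5) (nat_lit 11) (C.cons (nat_lit 2086) (C.node (nat_lit 5) (nat_lit 10) (nat_lit 11) (C.cons (nat_lit 3104) (C.node (nat_lit 1) (nat_lit 10) (nat_lit 11) (C.cons (nat_lit 3082) (C.miq (nat_lit 826649488) (nat_lit 60465937630686910092480257)) (C.cons (nat_lit 3074) (C.node (nat_lit 2) (nat_lit 6) (nat_lit 11) (C.cons (nat_lit 2372) (C.miq (nat_lit 558268587) (nat_lit 99175672959375379870519041)) (C.cons (nat_lit 2116) (C.node (nat_lit 2) (nat_lit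 8) (nat_lit 11) (C.cons (nat_lit 2436) (C.node (nat_lit 2) (nat_lit 4) (nat_lit 8) (C.cons (nat_lit 788) (C.miq (nat_lit 1917171856) (nat_lit 1300846112040296961532825345)) (C.cons (nat_lit 276) (C.miq (nat_lit 2458126261) (nat_lit 333673875018624825950210273)) C.nil))) (C.cons (nat_lit 2308) (C.node (nat_lit 2) (nat_lit 7) (nat_lit 11) (C.cons (nat_lit 3204) (C.node (nat_lit 3) (nat_lit 10) (nat_lit 11) C.nil) C.nil)) C.nil))) C.nil))) C.nil))) C.nil)) (C.cons (nat_lit 2084)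
  (C.node (nat_lit 1) (nat_lit 5) (nat_lit 11) (C.cons (nat_lit 3106) (C.node (nat_lit 2) (nat_lit 10) (nat_lit 11) (C.cons (nat_lit 3204) (C.node (nat_lit 3) (nat_lit 10) (nat_lit 11) (C.cons (nat_lit 3080) (C.node (nat_lit 2) (nat_lit 8) (nat_lit 11) (C.cons (nat_lit 2372) (C.miq (nat_lit 558268587) (nat_lit 99175672959375379870519041)) (C.cons (nat_lit 2308) (C.node (nat_lit 1) (nat_lit 2) (nat_lit 11) (C.cons (nat_lit 2054) (C.node (nat_lit 2) (nat_lit 6) (nat_lit 11) C.nil) C.nil)) C.nil))) C.nil)) (C.cons (nat_lit 3076) (C.node (nat_lit 3) (nat_lit 10) (nat_lit 11) (C.cons (nat_lit 3208) (C.node (nat_lit 2) (nat_lit 7) (nat_lit 10) (C.cons (nat_lit 1412) (C.miq (nat_lit 1786268464) (nat_lit 1707009474735832139676846109)) (C.cons (nat_lit 1156) (C.node (nat_lit 2) (nat_lit 8) (nat_lit 10) (C.cons (nat_lit 1292) (C.miq (nat_lit 1211785339) (nat_lit 1561990303174279981510953185)) (C.cons (nat_lit 1284) (C.node (nat_lit 4) (nat_lit 5) (nat_lit 7)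 (C.cons (nat_lit 184) (C.miq (nat_lit 2603944564) (nat_lit 2524247461059930231657727123)) (C.cons (nat_lit 176) (C.node (nat_lit 4) (nat_lit 8) (nat_lit 10) (C.cons (nat_lit 1304) (C.node (nat_lit 4) (nat_lit 9) (nat_lit 10) (C.cons (nat_lit 1552) (C.node (nat_lit 3) (nat_lit 6) (nat_lit 11) (C.cons (nat_lit 2378) (C.miq (nat_lit 2231612561) (nat_lit 1287549864909018907110214162)) (C.cons (nat_lit 2120) (C.miq (nat_lit 2259894394) (nat_lit 2562946792232152797454795923)) C.nil))) C.nil)) (C.cons (nat_lit 1296) (C.miq (nat_lit 977828704) (nat_lit 1566775112693965641319778529)) C.nil))) C.nil))) C.nil))) C.nil))) (C.cons (nat_lit 3080) (C.node (nat_lit 7) (nat_lit 10) (nat_lit 11) (C.cons (nat_lit 3200) (C.node (nat_lit 3) (nat_lit 8) (nat_lit 11) (C.cons (nat_lit 2376) (C.miq (nat_lit 1000834624) (nat_lit 3868569873006032409391726929)) (C.cons (nat_lit 2314) (C.miq (nat_lit 2231612561) (nat_lit 1287548684317398189698910738)) C.nil))) C.nil)) C.nil)))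 C.nil))) (C.cons (nat_lit 2082) (C.node (nat_lit 5) (nat_lit 10) (nat_lit 11) (C.cons (nat_lit 3104) (C.node (nat_lit 1) (nat_lit 10) (nat_lit 11) (C.cons (nat_lit 3082) (C.miq (nat_lit 826649488) (nat_lit 60465937630686910092480257)) (C.cons (nat_lit 3078) (C.miq (nat_lit 2226194082) (nat_lit 3116615614555076003094725701)) (C.cons (nat_lit 3074) (C.node (nat_lit 2) (nat_lit 10) (nat_lit 11) (C.cons (nat_lit 3204) (C.node (nat_lit 3) (nat_lit 10) (nat_lit 11) C.nil) C.nil)) C.nil)))) C.nil)) C.nil))) C.nil))) C.nil)) C.nil))) C.nil))) (C.cons (nat_lit 1072) (C.node (nat_lit 2) (nat_lit 4) (nat_lit 10) (C.cons (nat_lit 1556) (C.miq (nat_lit 2068383394) (nat_lit 3116622661756247714955527237)) (C.cons (nat_lit 1300) (C.miq (nat_lit 1344845476) (nat_lit 317990877940506154360900688)) (C.cons (nat_lit 1044) (C.node (nat_lit 4) (nat_lit 8) (nat_lit 10) (C.cons (nat_lit 1304) (C.node (nat_lit 4) (nat_lit 9) (nat_lit 10) (C.cons (nat_lit 1552) (C.node (nat_lit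 3) (nat_lit 7) (nat_lit 11) (C.cons (nat_lit 3208) (C.node (nat_lit 6) (nat_lit 7) (nat_lit 10) (C.cons (nat_lit 1728) (C.miq (nat_lit 615058279) (nat_lit 1876264770776469086282975457)) (C.cons (nat_lit 1472) (C.node (nat_lit 7) (nat_lit 9) (nat_lit 10) (C.cons (nat_lit 1696) (C.miq (nat_lit 1165363624) (nat_lit 2747894604694719700521717505)) (C.cons (nat_lit 1664) (C.node (nat_lit 3) (nat_lit 4) (nat_lit 5) (C.cons (nat_lit 184) (C.miq (nat_lit 1731504139) (nat_lit 222500495360744954428985089)) (C.cons (nat_lit 120) (C.miq (nat_lit 1934000314) (nat_lit 145098252071660588125654785)) (C.cons (nat_lit 56) (C.node (nat_lit 3) (nat_lit 6) (nat_lit 11) (C.cons (nat_lit 2378) (C.miq (nat_lit 2231612561) (nat_lit 1287549864909018907110214162)) (C.cons (nat_lit 2376) (C.node (nat_lit 1) (nat_lit 3) (nat_lit 11) (C.cons (nat_lit 2058) (C.node (nat_lit 2) (nat_lit 10) (nat_lit 11) (C.cons (nat_lit 3110) (C.miq (nat_lit 2275476402) (nat_lit 1415656986373055593499199517))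 (C.cons (nat_lit 3108) (C.miq (nat_lit 1516810756) (nat_lit 1779582194089624432070952989)) (C.cons (nat_lit 3078)
  (C.miq (nat_lit 2275476402) (nat_lit 1415656986373055593497102365)) (C.cons (nat_lit 3076) (C.node (nat_lit 1) (nat_lit 3) (nat_lit 8) (C.cons (nat_lit 298) (C.node (nat_lit 1) (nat_lit 8) (nat_lit 10) (C.cons (nat_lit 1282) (C.node (nat_lit 2) (nat_lit 3) (nat_lit 8) (C.cons (nat_lit 780) (C.miq (nat_lit 1949436553) (nat_lit 2510950825819125136942173953)) (C.cons (nat_lit 268) (C.node (nat_lit 3) (nat_lit 8) (nat_lit 9) (C.cons (nat_lit 776) (C.node (nat_lit 1) (nat_lit 3) (nat_lit 7) (C.cons (nat_lit 206) (C.miq (nat_lit 1181989504) (nat_lit 249077033615270153537785601)) (C.cons (nat_lit 202) (C.miq (nat_lit 1181989504) (nat_lit 244241330336811636838960897)) (C.cons (nat_lit 142) (C.miq (nat_lit 2322664242) (nat_lit 1415656987343581313003030557)) (C.cons (nat_lit 138) (C.node (nat_lit 1) (nat_lit 6) (nat_lit 11) (C.cons (nat_lit 2114)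 (C.node (nat_lit 2) (nat_lit 6) (nat_lit 11) (C.cons (nat_lit 2116) (C.node (nat_lit 1) (nat_lit 8) (nat_lit 11) C.nil) C.nil)) C.nil)) C.nil))))) C.nil)) C.nil))) C.nil)) (C.cons (nat_lit 266) (C.node (nat_lit 1) (nat_lit 6) (nat_lit 11) (C.cons (nat_lit 2118) (C.node (nat_lit 2) (nat_lit 5) (nat_lit 11) C.nil) (C.cons (nat_lit 2114) (C.node (nat_lit 2) (nat_lit 6) (nat_lit 11) (C.cons (nat_lit 2116) (C.node (nat_lit 1) (nat_lit 8) (nat_lit 11) C.nil) C.nil)) C.nil))) C.nil))) C.nil))))) C.nil)) (C.cons (nat_lit 2122) (C.miq (nat_lit 2259909184) (nat_lit 2565347839207008780171412627)) (C.cons (nat_lit 2120) (C.miq (nat_lit 2259909184) (nat_lit 2562929987567779521822000275)) C.nil))))) C.nil)))) C.nil))) (C.cons (nat_lit 1216) (C.miq (nat_lit 2271883444) (nat_lit 1470077851316290622212540445)) C.nil)))) (C.cons (nat_lit 2186) (C.miq (nat_lit 2876458504) (nat_lit 2642735897119070382241415505)) (C.cons (nat_lit 2184) (C.miq (nat_lit 2876458504) (nat_lit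 2640318045479841123892003153)) C.nil)))) C.nil)) (C.cons (nat_lit 1296) (C.node (nat_lit 3) (nat_lit 10) (nat_lit 11) (C.cons (nat_lit 3208) (C.miq (nat_lit 977828704) (nat_lit 1566775112693965641319778529)) (C.cons (nat_lit 3082) (C.miq (nat_lit 1393822393) (nat_lit 31442420233189797055827713)) (C.cons (nat_lit 3080) (C.node (nat_lit 3) (nat_lit 8) (nat_lit 11) (C.cons (nat_lit 2378) (C.miq (nat_lit 1941571684) (nat_lit 3723513125660998051466051921)) (C.cons (nat_lit 2376) (C.miq (nat_lit 1941571684) (nat_lit 3723513125660998042876117329)) (C.cons (nat_lit 2314) (C.miq (nat_lit 2231612561) (nat_lit 1287548684317398189698910738)) (C.cons (nat_lit 2312) (C.node (nat_lit 3) (nat_lit 4) (nat_lit 8) (C.cons (nat_lit 792) (C.node (nat_lit 3) (nat_lit 4) (nat_lit 10) (C.cons (nat_lit 1048) (C.node (nat_lit 4) (nat_lit 9) (nat_lit 10) (C.cons (nat_lit 1552) (C.node (nat_lit 2) (nat_lit 8) (nat_lit 11) (C.cons (nat_lit 2436) (C.miq (nat_lit 675904336) (nat_lit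 957481147970396994095089889)) (C.cons (nat_lit 2372) (C.miq (nat_lit 347605602) (nat_lit 2843398379556919940141548613)) (C.cons (nat_lit 2308) (C.node (nat_lit 3) (nat_lit 4) (nat_lit 5) (C.cons (nat_lit 184) (C.miq (nat_lit 2489025392) (nat_lit 2843464381900523909274468745)) (C.cons (nat_lit 120) (C.miq (nat_lit 1803767956) (nat_lit 2795038709198120616151482929)) (C.cons (nat_lit 56) (C.node (nat_lit 3) (nat_lit 4) (nat_lit 6) (C.cons (nat_lit 216) (C.miq (nat_lit 2755180144) (nat_lit 957540103965983479085730017)) C.nil)) C.nil)))) C.nil)))) C.nil)) C.nil)) (C.cons (nat_lit 280) (C.node (nat_lit 3) (nat_lit 4) (nat_lit 10) (C.cons (nat_lit 1560) (C.node (nat_lit 3) (nat_lit 4) (nat_lit 5) (C.cons (nat_lit 184) (C.miq (nat_lit 2472256624) (nat_lit 2524307965738434589265822867)) (C.cons (nat_lit 120) (C.miq (nat_lit 2490082128) (nat_lit 3810605037808399756275287081)) (C.cons (nat_lit 56) (C.node (nat_lit 3) (nat_lit 4) (nat_lit 6) (C.cons (nat_lit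 216) (C.miq (nat_lit 2755180144) (nat_lit 338570084323293341636167905)) (C.cons (nat_lit 88) (C.node (nat_lit 3) (nat_lit 4) (nat_lit 7) (C.cons (nat_lit 152) (C.node (nat_lit 3) (nat_lit 6) (nat_lit 11) C.nil) C.nil)) C.nil))) C.nil))))
  (C.cons (nat_lit 1048) (C.node (nat_lit 4) (nat_lit 9) (nat_lit 10) (C.cons (nat_lit 1552) (C.node (nat_lit 3) (nat_lit 6) (nat_lit 11) (C.cons (nat_lit 2122) (C.node (nat_lit 3) (nat_lit 7) (nat_lit 11) (C.cons (nat_lit 2184) (C.node (nat_lit 2) (nat_lit 6) (nat_lit 11) (C.cons (nat_lit 2372) (C.miq (nat_lit 347605602) (nat_lit 2843398379556919940141548613)) (C.cons (nat_lit 2116) (C.node (nat_lit 6) (nat_lit 8) (nat_lit 11) C.nil) C.nil))) C.nil)) (C.cons (nat_lit 2120) (C.node (nat_lit 1) (nat_lit 3) (nat_lit 11) (C.cons (nat_lit 2186) (C.node (nat_lit 1) (nat_lit 8) (nat_lit 11) (C.cons (nat_lit 2370) (C.node (nat_lit 2) (nat_lit 6) (nat_lit 11) (C.cons (nat_lit 2116) (C.node (nat_lit 2) (nat_lit 8) (nat_lit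 11) C.nil) C.nil)) (C.cons (nat_lit 2306) (C.node (nat_lit 6) (nat_lit 8) (nat_lit 11) (C.cons (nat_lit 2372) (C.miq (nat_lit 1266787872) (nat_lit 2787804542055864505029035077)) C.nil)) C.nil))) (C.cons (nat_lit 2058) (C.node (nat_lit 3) (nat_lit 7) (nat_lit 11) C.nil) C.nil))) C.nil))) C.nil)) C.nil))) C.nil))) C.nil))))) C.nil)))) C.nil))) C.nil)))) C.nil))) C.nil))) C.nil))))) C.nil))) (C.cons (nat_lit 2096) (C.node (nat_lit 4) (nat_lit 8) (nat_lit 11) (C.cons (nat_lit 2320) (C.node (nat_lit 2) (nat_lit 6) (nat_lit 11) (C.cons (nat_lit 2372) (C.miq (nat_lit 347605602) (nat_lit 2804712753329251806550950981)) (C.cons (nat_lit 2118) (C.node (nat_lit 1) (nat_lit 2) (nat_lit 4) (C.cons (nat_lit 54) (C.node (nat_lit 1) (nat_lit 4) (nat_lit 6) (C.cons (nat_lit 90) (C.miq (nat_lit 968233124) (nat_lit 3172223011022981498284278931)) (C.cons (nat_lit 82) (C.node (nat_lit 1) (nat_lit 2) (nat_lit 7) (C.cons (nat_lit 142) (C.node (nat_lit 3) (nat_lit 7) (nat_lit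 11) (C.cons (nat_lit 3208) (C.miq (nat_lit 2322664242) (nat_lit 1415656987343581313003030557)) (C.cons (nat_lit 2184) (C.node (nat_lit 3) (nat_lit 6) (nat_lit 11) (C.cons (nat_lit 2376) (C.miq (nat_lit 2805678214) (nat_lit 2640352134505279335871021393)) (C.cons (nat_lit 2120) (C.node (nat_lit 6) (nat_lit 8) (nat_lit 11) (C.cons (nat_lit 2368) (C.node (nat_lit 3) (nat_lit 10) (nat_lit 11) (C.cons (nat_lit 3082) (C.miq (nat_lit 826649488) (nat_lit 65301640909145426791304961)) C.nil)) C.nil)) C.nil))) C.nil))) (C.cons (nat_lit 134) (C.node (nat_lit 1) (nat_lit 2) (nat_lit 3) (C.cons (nat_lit 1038) (C.node (nat_lit 1) (nat_lit 2) (nat_lit 9) (C.cons (nat_lit 518) (C.node (nat_lit 1) (nat_lit 3) (nat_lit 4) (C.cons (nat_lit 282) (C.miq (nat_lit 979636744) (nat_lit 3810539385699315665014423815)) (C.cons (nat_lit 26) (C.node (nat_lit 1) (nat_lit 4) (nat_lit 8) (C.cons (nat_lit 274) (C.node (nat_lit 1) (nat_lit 10) (nat_lit 11) (C.cons (nat_lit 3106) (C.miq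 (nat_lit 1638249008) (nat_lit 3754965525768486217367226397)) (C.cons (nat_lit 3074) (C.node (nat_lit 5) (nat_lit 10) (nat_lit 11) (C.cons (nat_lit 3108) (C.miq (nat_lit 1613870498) (nat_lit 632307274502196371473173540)) (C.cons (nat_lit 3104) (C.node (nat_lit 1) (nat_lit 8) (nat_lit 10) (C.cons (nat_lit 1378) (C.miq (nat_lit 1175632512) (nat_lit 2560543200718440731840548609)) (C.cons (nat_lit 1346) (C.miq (nat_lit 1175632512) (nat_lit 2560543200718440594401595137)) (C.cons (nat_lit 1314) (C.miq (nat_lit 1638249008) (nat_lit 1588570457019070736293759005)) C.nil)))) C.nil))) C.nil))) C.nil)) C.nil))) C.nil)) (C.cons (nat_lit 14) (C.node (nat_lit 1) (nat_lit 2) (nat_lit 9) (C.cons (nat_lit 1542) (C.node (nat_lit 1) (nat_lit 10) (nat_lit 11) (C.cons (nat_lit 3106) (C.miq (nat_lit 1361558160) (nat_lit 162037990151907751766593281)) (C.cons (nat_lit 3082) (C.miq (nat_lit 826649488) (nat_lit 65301640909145426791304961)) (C.cons (nat_lit 3074) (C.node (nat_lit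 1) (nat_lit 5) (nat_lit 10) (C.cons (nat_lit 1378) (C.miq (nat_lit 1175632512) (nat_lit 2560543200718440731840548609)) (C.cons (nat_lit 1314) (C.miq (nat_lit 2773188896) (nat_lit 2533979372226108220034056455)) (C.cons (nat_lit 1122) (C.miq (nat_lit 840567653) (nat_lit 1864183260212829311511693537)) (C.cons (nat_lit 1058) (C.node (nat_lit 1) (nat_lit 8) (nat_lit 10)
  (C.cons (nat_lit 1354) (C.miq (nat_lit 1913850280) (nat_lit 16932211226583759206354689)) (C.cons (nat_lit 1346) (C.miq (nat_lit 1175632512) (nat_lit 2560543200718440594401595137)) (C.cons (nat_lit 1290) (C.miq (nat_lit 1913850280) (nat_lit 16932211226583759202160385)) (C.cons (nat_lit 1282) (C.node (nat_lit 1) (nat_lit 5) (nat_lit 11) (C.cons (nat_lit 2346) (C.miq (nat_lit 2719155893) (nat_lit 16944607564704555557587169)) (C.cons (nat_lit 2338) (C.node (nat_lit 1) (nat_lit 5) (nat_lit 9) (C.cons (nat_lit 674) (C.miq (nat_lit 1696204690) (nat_lit 1279063680083345748351386245)) (C.cons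 (nat_lit 610) (C.miq (nat_lit 563394128) (nat_lit 3116649077450121727771216097)) C.nil))) (C.cons (nat_lit 2090) (C.miq (nat_lit 2719155893) (nat_lit 16944607564704555540809953)) C.nil)))) C.nil))))) C.nil))))) C.nil)))) (C.cons (nat_lit 518) (C.node (nat_lit 1) (nat_lit 2) (nat_lit 10) (C.cons (nat_lit 1030) (C.node (nat_lit 1) (nat_lit 9) (nat_lit 10) (C.cons (nat_lit 1634) (C.miq (nat_lit 878775209) (nat_lit 99141565440187206893440769)) (C.cons (nat_lit 1602) (C.miq (nat_lit 878775209) (nat_lit 99141565440187206891343617)) (C.cons (nat_lit 1570) (C.miq (nat_lit 873794458) (nat_lit 65301640626263075263221505)) (C.cons (nat_lit 1538) (C.node (nat_lit 1) (nat_lit 3) (nat_lit 4) (C.cons (nat_lit 282) (C.node (nat_lit 2) (nat_lit 4) (nat_lit 7) (C.cons (nat_lit 404) (C.miq (nat_lit 605648944) (nat_lit 3116622661230158656859472265)) (C.cons (nat_lit 212) (C.miq (nat_lit 2606893639) (nat_lit 2560516785174871057984914579)) (C.cons (nat_lit 148) (C.node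 (nat_lit 3) (nat_lit 7) (nat_lit 11) (C.cons (nat_lit 3208) (C.miq (nat_lit 2760095239) (nat_lit 340976259173524461530450145)) (C.cons (nat_lit 2186) (C.miq (nat_lit 1102480240) (nat_lit 2560511102575922764526453129)) (C.cons (nat_lit 2184) (C.node (nat_lit 1) (nat_lit 3) (nat_lit 11) (C.cons (nat_lit 3082) (C.miq (nat_lit 826649488) (nat_lit 65301640909145426791304961)) (C.cons (nat_lit 2090) (C.miq (nat_lit 2719155893) (nat_lit 16944607564704555540809953)) C.nil))) C.nil)))) C.nil)))) (C.cons (nat_lit 26) (C.node (nat_lit 1) (nat_lit 4) (nat_lit 8) (C.cons (nat_lit 274) (C.node (nat_lit 3) (nat_lit 6) (nat_lit 11) (C.cons (nat_lit 2376) (C.node (nat_lit 3) (nat_lit 5) (nat_lit 11) (C.cons (nat_lit 2090) (C.miq (nat_lit 2719155893) (nat_lit 16944607564704555540809953)) (C.cons (nat_lit 2088) (C.node (nat_lit 1) (nat_lit 3) (nat_lit 11) (C.cons (nat_lit 3082) (C.miq (nat_lit 1678999723) (nat_lit 31475900868761589197180673)) (C.cons (nat_lit 2186)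 (C.miq (nat_lit 2215862395) (nat_lit 31475900868761589138458849)) C.nil))) C.nil))) (C.cons (nat_lit 2120) (C.node (nat_lit 6) (nat_lit 8) (nat_lit 11) C.nil) C.nil))) C.nil)) C.nil))) C.nil))))) C.nil)) C.nil))) C.nil))) C.nil))) C.nil))) (C.cons (nat_lit 22) (C.node (nat_lit 3) (nat_lit 6) (nat_lit 11) (C.cons (nat_lit 2376) (C.node (nat_lit 3) (nat_lit 7) (nat_lit 11) (C.cons (nat_lit 3208) (C.node (nat_lit 3) (nat_lit 4) (nat_lit 10) (C.cons (nat_lit 1560) (C.miq (nat_lit 2225299579) (nat_lit 1885968108157602743204710625)) (C.cons (nat_lit 1304) (C.node (nat_lit 4) (nat_lit 9) (nat_lit 10) (C.cons (nat_lit 1556) (C.miq (nat_lit 1916996008) (nat_lit 2510946177091563806751461121)) (C.cons (nat_lit 1552) (C.node (nat_lit 6) (nat_lit 7) (nat_lit 10) (C.cons (nat_lit 1728) (C.miq (nat_lit 615058279) (nat_lit 1876264770776469086282975457)) (C.cons (nat_lit 1472) (C.node (nat_lit 7) (nat_lit 9) (nat_lit 10) (C.cons (nat_lit 1696) (C.miq (nat_lit 1165363624)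 (nat_lit 2747894604694719700521717505)) (C.cons (nat_lit 1664) (C.node (nat_lit 2) (nat_lit 6) (nat_lit 7) (C.cons (nat_lit 212) (C.miq (nat_lit 879168424) (nat_lit 256299523913359417352916737)) (C.cons (nat_lit 204) (C.miq (nat_lit 1181989504) (nat_lit 246659181976040895188373249)) (C.cons (nat_lit 196) (C.node (nat_lit 1) (nat_lit 3) (nat_lit 4) (C.cons (nat_lit 122) (C.miq (nat_lit 1934000314) (nat_lit 147516103710889846475067137)) (C.cons (nat_lit 90)
  (C.miq (nat_lit 1934000314) (nat_lit 108830477483221712884469505)) (C.cons (nat_lit 58) (C.miq (nat_lit 329991433) (nat_lit 3878281585046282538722591281)) (C.cons (nat_lit 26) (C.node (nat_lit 3) (nat_lit 4) (nat_lit 5) (C.cons (nat_lit 184) (C.miq (nat_lit 1731504139) (nat_lit 222500495360744954428985089)) (C.cons (nat_lit 120) (C.miq (nat_lit 1934000314) (nat_lit 145098252071660588125654785)) (C.cons (nat_lit 56) (C.node (nat_lit 1) (nat_lit 3) (nat_lit 8) (C.cons (nat_lit 298) (C.node (nat_lit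 1) (nat_lit 3) (nat_lit 11) (C.cons (nat_lit 2058) (C.node (nat_lit 1) (nat_lit 4) (nat_lit 8) (C.cons (nat_lit 274) (C.node (nat_lit 1) (nat_lit 8) (nat_lit 10) (C.cons (nat_lit 1282) (C.node (nat_lit 3) (nat_lit 5) (nat_lit 11) (C.cons (nat_lit 2088) (C.node (nat_lit 1) (nat_lit 5) (nat_lit 11) (C.cons (nat_lit 2082) (C.node (nat_lit 1) (nat_lit 10) (nat_lit 11) C.nil) C.nil)) C.nil)) C.nil)) C.nil)) C.nil)) (C.cons (nat_lit 266) (C.node (nat_lit 1) (nat_lit 3) (nat_lit 11) (C.cons (nat_lit 2090) (C.node (nat_lit 1) (nat_lit 10) (nat_lit 11) (C.cons (nat_lit 3074) (C.node (nat_lit 2) (nat_lit 10) (nat_lit 11) (C.cons (nat_lit 3108) (C.miq (nat_lit 319206818) (nat_lit 88290655624103322120948772)) C.nil)) C.nil)) (C.cons (nat_lit 2058) (C.node (nat_lit 3) (nat_lit 5) (nat_lit 11) (C.cons (nat_lit 2088) (C.node (nat_lit 1) (nat_lit 7) (nat_lit 11) (C.cons (nat_lit 2178) (C.node (nat_lit 1) (nat_lit 8) (nat_lit 11) C.nil) C.nil)) C.nil)) C.nil))) C.nil)))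 C.nil)))) C.nil))))) C.nil)))) C.nil))) (C.cons (nat_lit 1216) (C.miq (nat_lit 2271883444) (nat_lit 1470077851316290622212540445)) C.nil)))) C.nil))) (C.cons (nat_lit 1048) (C.miq (nat_lit 2225299579) (nat_lit 1266998088514912605755148513)) C.nil)))) (C.cons (nat_lit 2186) (C.miq (nat_lit 1796506480) (nat_lit 3116616980188060786051187081)) (C.cons (nat_lit 2184) (C.miq (nat_lit 2805678214) (nat_lit 2640352134505279335871021393)) C.nil)))) (C.cons (nat_lit 2120) (C.node (nat_lit 6) (nat_lit 8) (nat_lit 11) (C.cons (nat_lit 2368) (C.node (nat_lit 3) (nat_lit 10) (nat_lit 11) (C.cons (nat_lit 3208) (C.miq (nat_lit 996702784) (nat_lit 2862743591320848116604798099)) (C.cons (nat_lit 3082) (C.miq (nat_lit 999661888) (nat_lit 3133555371091074272195576979)) (C.cons (nat_lit 3080) (C.node (nat_lit 1) (nat_lit 10) (nat_lit 11) (C.cons (nat_lit 3106) (C.node (nat_lit 2) (nat_lit 5) (nat_lit 11) (C.cons (nat_lit 2340) (C.node (nat_lit 3) (nat_lit 5) (nat_lit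 11) C.nil) C.nil)) C.nil)) C.nil)))) C.nil)) C.nil))) C.nil))) (C.cons (nat_lit 2116) (C.node (nat_lit 3) (nat_lit 10) (nat_lit 11) (C.cons (nat_lit 3208) (C.node (nat_lit 3) (nat_lit 4) (nat_lit 10) (C.cons (nat_lit 1560) (C.miq (nat_lit 2208565174) (nat_lit 1885930495262207796969474273)) (C.cons (nat_lit 1304) (C.node (nat_lit 4) (nat_lit 9) (nat_lit 10) (C.cons (nat_lit 1556) (C.miq (nat_lit 1916996008) (nat_lit 2510946177091563806751461121)) (C.cons (nat_lit 1552) (C.node (nat_lit 6) (nat_lit 7) (nat_lit 10) (C.cons (nat_lit 1728) (C.miq (nat_lit 615058279) (nat_lit 1876264770776469086282975457)) (C.cons (nat_lit 1472) (C.node (nat_lit 7) (nat_lit 9) (nat_lit 10) (C.cons (nat_lit 1696) (C.miq (nat_lit 1165363624) (nat_lit 2747894604694719700521717505)) (C.cons (nat_lit 1664) (C.node (nat_lit 1) (nat_lit 3) (nat_lit 4) (C.cons (nat_lit 122) (C.miq (nat_lit 1934000314) (nat_lit 147516103710889846475067137)) (C.cons (nat_lit 90) (C.miq (nat_lit 1934000314)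 (nat_lit 108830477483221712884469505)) (C.cons (nat_lit 58) (C.miq (nat_lit 329991433) (nat_lit 3878281585046282538722591281)) (C.cons (nat_lit 26) (C.node (nat_lit 3) (nat_lit 4) (nat_lit 5) (C.cons (nat_lit 184) (C.miq (nat_lit 1731504139) (nat_lit 222500495360744954428985089)) (C.cons (nat_lit 120) (C.miq (nat_lit 1934000314) (nat_lit 145098252071660588125654785)) (C.cons (nat_lit 56) (C.node (nat_lit 1) (nat_lit 4) (nat_lit 8) (C.cons (nat_lit 306) (C.node (nat_lit 1) (nat_lit 8) (nat_lit 10) (C.cons (nat_lit 1282) (C.node (nat_lit 1) (nat_lit 2) (nat_lit 4) (C.cons (nat_lit 86)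
  (C.miq (nat_lit 413540532) (nat_lit 1779540392966768900239788061)) (C.cons (nat_lit 22) (C.node (nat_lit 1) (nat_lit 4) (nat_lit 6) (C.cons (nat_lit 82) (C.node (nat_lit 5) (nat_lit 6) (nat_lit 8) (C.cons (nat_lit 876) (C.miq (nat_lit 1197804169) (nat_lit 2747898736937090985143045889)) (C.cons (nat_lit 872) (C.miq (nat_lit 1197804169) (nat_lit 2747898736937090985142783745)) (C.cons (nat_lit 868) (C.miq (nat_lit 1197804169) (nat_lit 2747898736937090985142521601)) (C.cons (nat_lit 864) (C.miq (nat_lit 1197804169) (nat_lit 2747898736937090985142259457)) (C.cons (nat_lit 364) (C.miq (nat_lit 3011919994) (nat_lit 440107143061670566746391699)) (C.cons (nat_lit 360) (C.miq (nat_lit 3011919994) (nat_lit 435271439783212050047566995)) (C.cons (nat_lit 356) (C.miq (nat_lit 1420198146) (nat_lit 3810540750552337771626037511)) (C.cons (nat_lit 352) (C.node (nat_lit 2) (nat_lit 4) (nat_lit 10) (C.cons (nat_lit 1076) (C.node (nat_lit 2) (nat_lit 7) (nat_lit 10)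 (C.cons (nat_lit 1156) (C.node (nat_lit 2) (nat_lit 8) (nat_lit 10) (C.cons (nat_lit 1284) (C.node (nat_lit 4) (nat_lit 5) (nat_lit 6) (C.cons (nat_lit 112) (C.node (nat_lit 4) (nat_lit 5) (nat_lit 7) (C.cons (nat_lit 176) (C.node (nat_lit 2) (nat_lit 10) (nat_lit 11) C.nil) C.nil)) C.nil)) C.nil)) C.nil)) (C.cons (nat_lit 1044) (C.node (nat_lit 4) (nat_lit 5) (nat_lit 10) (C.cons (nat_lit 1072) (C.node (nat_lit 1) (nat_lit 7) (nat_lit 11) C.nil) C.nil)) C.nil))) C.nil))))))))) C.nil)) C.nil))) C.nil)) (C.cons (nat_lit 274) (C.node (nat_lit 1) (nat_lit 8) (nat_lit 10) (C.cons (nat_lit 1314) (C.node (nat_lit 2) (nat_lit 8) (nat_lit 10) (C.cons (nat_lit 1284) (C.node (nat_lit 1) (nat_lit 10) (nat_lit 11) (C.cons (nat_lit 3078) (C.miq (nat_lit 2048408352) (nat_lit 1588535777447028648632059933)) (C.cons (nat_lit 3074) (C.node (nat_lit 5) (nat_lit 8) (nat_lit 11) (C.cons (nat_lit 2344) (C.miq (nat_lit 339058872) (nat_lit 67724085249748206663241473)) (C.cons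 (nat_lit 2340) (C.miq (nat_lit 2763329576) (nat_lit 2533932757263591723063574791)) (C.cons (nat_lit 2336) (C.node (nat_lit 2) (nat_lit 8) (nat_lit 11) (C.cons (nat_lit 2436) (C.node (nat_lit 1) (nat_lit 7) (nat_lit 11) C.nil) C.nil)) C.nil)))) C.nil))) C.nil)) (C.cons (nat_lit 1282) (C.node (nat_lit 2) (nat_lit 4) (nat_lit 10) (C.cons (nat_lit 1076) (C.node (nat_lit 2) (nat_lit 7) (nat_lit 10) (C.cons (nat_lit 1156) (C.node (nat_lit 2) (nat_lit 8) (nat_lit 10) (C.cons (nat_lit 1284) (C.node (nat_lit 5) (nat_lit 7) (nat_lit 10) (C.cons (nat_lit 1184) (C.node (nat_lit 5) (nat_lit 8) (nat_lit 10) (C.cons (nat_lit 1312) (C.node (nat_lit 1) (nat_lit 2) (nat_lit 4) (C.cons (nat_lit 86) (C.miq (nat_lit 413540532) (nat_lit 1779540392966768900239788061)) (C.cons (nat_lit 22) (C.node (nat_lit 2) (nat_lit 10) (nat_lit 11) (C.cons (nat_lit 3078) (C.miq (nat_lit 2048408352) (nat_lit 1549850151219360515041462301)) (C.cons (nat_lit 3076) (C.node (nat_lit 1) (nat_lit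 4) (nat_lit 5) (C.cons (nat_lit 50) (C.node (nat_lit 1) (nat_lit 4) (nat_lit 6) C.nil) C.nil)) C.nil))) C.nil))) C.nil)) C.nil)) C.nil)) C.nil)) (C.cons (nat_lit 1044) (C.node (nat_lit 4) (nat_lit 5) (nat_lit 10) (C.cons (nat_lit 1072) (C.node (nat_lit 2) (nat_lit 7) (nat_lit 10) (C.cons (nat_lit 1188) (C.node (nat_lit 2) (nat_lit 8) (nat_lit 10) (C.cons (nat_lit 1284) (C.node (nat_lit 5) (nat_lit 8) (nat_lit 10) (C.cons (nat_lit 1312) (C.node (nat_lit 2) (nat_lit 10) (nat_lit 11) (C.cons (nat_lit 3078) (C.miq (nat_lit 2048408352) (nat_lit 1549850151219360515041462301)) (C.cons (nat_lit 3076) (C.node (nat_lit 4) (nat_lit 5) (nat_lit 7) (C.cons (nat_lit 432) (C.miq (nat_lit 624994182) (nat_lit 678227547429473659330299328)) C.nil)) C.nil))) C.nil)) C.nil)) (C.cons (nat_lit 1156) (C.node (nat_lit 5) (nat_lit 7) (nat_lit 10) (C.cons (nat_lit 1184) (C.node (nat_lit 2) (nat_lit 8) (nat_lit 10) (C.cons (nat_lit 1316) (C.node (nat_lit 2) (nat_lit 10) (nat_lit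 11) (C.cons (nat_lit 3078) (C.miq (nat_lit 2048408352) (nat_lit 1549850151219360515041462301)) (C.cons (nat_lit 3076)
  (C.node (nat_lit 4) (nat_lit 5) (nat_lit 8) (C.cons (nat_lit 432) (C.node (nat_lit 2) (nat_lit 4) (nat_lit 7) C.nil) C.nil)) C.nil))) (C.cons (nat_lit 1284) (C.node (nat_lit 5) (nat_lit 8) (nat_lit 10) (C.cons (nat_lit 1312) (C.node (nat_lit 1) (nat_lit 10) (nat_lit 11) (C.cons (nat_lit 3110) (C.miq (nat_lit 2048408352) (nat_lit 1549850151219360652480415773)) (C.cons (nat_lit 3106) (C.node (nat_lit 2) (nat_lit 10) (nat_lit 11) C.nil) (C.cons (nat_lit 3078) (C.miq (nat_lit 2048408352) (nat_lit 1549850151219360515041462301)) C.nil)))) C.nil)) C.nil))) C.nil)) C.nil))) C.nil)) C.nil))) C.nil))) C.nil))) C.nil)))) C.nil))))) C.nil))) (C.cons (nat_lit 1216) (C.miq (nat_lit 2271883444) (nat_lit 1470077851316290622212540445)) C.nil)))) C.nil))) (C.cons (nat_lit 1048) (C.miq (nat_lit 2208565174) (nat_lit 1266960475619517659519912161)) C.nil))))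 (C.cons (nat_lit 3082) (C.miq (nat_lit 999661888) (nat_lit 3133555371091074272195576979)) (C.cons (nat_lit 3080) (C.node (nat_lit 3) (nat_lit 7) (nat_lit 11) (C.cons (nat_lit 2186) (C.node (nat_lit 3) (nat_lit 6) (nat_lit 11) (C.cons (nat_lit 2376) (C.miq (nat_lit 1796506480) (nat_lit 3116616980188060786051187081)) (C.cons (nat_lit 2120) (C.node (nat_lit 1) (nat_lit 6) (nat_lit 11) (C.cons (nat_lit 2370) (C.node (nat_lit 3) (nat_lit 5) (nat_lit 11) (C.cons (nat_lit 2344) (C.node (nat_lit 2) (nat_lit 8) (nat_lit 11) C.nil) C.nil)) C.nil)) C.nil))) (C.cons (nat_lit 2184) (C.node (nat_lit 7) (nat_lit 10) (nat_lit 11) (C.cons (nat_lit 3204) (C.node (nat_lit 1) (nat_lit 2) (nat_lit 11) (C.cons (nat_lit 2086) (C.node (nat_lit 1) (nat_lit 10) (nat_lit 11) C.nil) C.nil)) (C.cons (nat_lit 3200) (C.node (nat_lit 1) (nat_lit 7) (nat_lit 11) C.nil) C.nil))) C.nil))) C.nil)))) C.nil)))) C.nil)) C.nil))) C.nil)) C.nil))) List.nil)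

theorem ok12_266 : okL par12 (nat_lit 267) c12_266 (nat_lit 266) = true := by decide +kernel

noncomputable def c12_267 : List C :=
  (List.cons (C.node (nat_lit 3) (nat_lit 4) (nat_lit 5) (C.cons (nat_lit 58) (C.miq (nat_lit 277166500) (nat_lit 349380631927012016520168984)) (C.cons (nat_lit 56) (C.node (nat_lit 3) (nat_lit 8) (nat_lit 9) (C.cons (nat_lit 876) (C.miq (nat_lit 338823832) (nat_lit 2510943779162890079411375873)) (C.cons (nat_lit 872) (C.miq (nat_lit 340986505) (nat_lit 67709493875182685380939521)) (C.cons (nat_lit 844) (C.miq (nat_lit 338823832) (nat_lit 2510943779162890079409278721)) (C.cons (nat_lit 840) (C.miq (nat_lit 1399392884) (nat_lit 1015508037399489965095650451)) (C.cons (nat_lit 812) (C.miq (nat_lit 338823832) (nat_lit 2510943779162890079407181569)) (C.cons (nat_lit 808) (C.miq (nat_lit 340986505) (nat_lit 67709493875182685376745217)) (C.cons (nat_lit 780) (C.miq (nat_lit 338823832) (nat_lit 2510943779162890079405084417))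 (C.cons (nat_lit 776) (C.node (nat_lit 1) (nat_lit 3) (nat_lit 4) (C.cons (nat_lit 282) (C.node (nat_lit 4) (nat_lit 8) (nat_lit 11) (C.cons (nat_lit 2320) (C.node (nat_lit 1) (nat_lit 3) (nat_lit 10) (C.cons (nat_lit 1038) (C.miq (nat_lit 1134985504) (nat_lit 1479731419840439351639343367)) (C.cons (nat_lit 1034) (C.node (nat_lit 1) (nat_lit 4) (nat_lit 9) (C.cons (nat_lit 534) (C.miq (nat_lit 882344224) (nat_lit 870433839772332210629443847)) (C.cons (nat_lit 530) (C.node (nat_lit 1) (nat_lit 8) (nat_lit 10) (C.cons (nat_lit 1346) (C.miq (nat_lit 705889924) (nat_lit 1250067611676625591974101329)) (C.cons (nat_lit 1282) (C.node (nat_lit 6) (nat_lit 8) (nat_lit 10) (C.cons (nat_lit 1344) (C.node (nat_lit 4) (nat_lit 7) (nat_lit 8) (C.cons (nat_lit 404) (C.miq (nat_lit 674853904) (nat_lit 938138334284596884038943891)) (C.cons (nat_lit 400) (C.node (nat_lit 3) (nat_lit 6) (nat_lit 8) (C.cons (nat_lit 2376) (C.miq (nat_lit 1178053504) (nat_lit 1479746805232835755185344257))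 (C.cons (nat_lit 364) (C.miq (nat_lit 409617184) (nat_lit 1624817902778749431562176541)) (C.cons (nat_lit 360) (C.miq (nat_lit 2503360679) (nat_lit 435226576874911609926452371)) (C.cons (nat_lit 332) (C.miq (nat_lit 409617184) (nat_lit 1624817902778749294123223069)) (C.cons (nat_lit 328) (C.node (nat_lit 1) (nat_lit 3) (nat_lit 7) (C.cons (nat_lit 174) (C.miq (nat_lit 1401319744) (nat_lit 396569598331855768264967315)) (C.cons (nat_lit 170) (C.miq (nat_lit 1401319744) (nat_lit 396569598330729868358124691)) (C.cons (nat_lit 142) (C.miq (nat_lit 3004733216) (nat_lit 340987935834169692769419909)) (C.cons (nat_lit 138) (C.node (nat_lit 1) (nat_lit 4) (nat_lit 6) (C.cons (nat_lit 114) (C.miq (nat_lit 1462853764) (nat_lit 166833866675437539002286417)) (C.cons (nat_lit 86) (C.miq (nat_lit 413540532) (nat_lit 1624797888056096365877397533)) C.nil))) C.nil))))) C.nil)))))) C.nil))) C.nil)) C.nil))) C.nil))) C.nil))) C.nil)) (C.cons (nat_lit 26) (C.node (nat_lit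 3) (nat_lit 4) (nat_lit 8) (C.cons (nat_lit 280) (C.node (nat_lit 4) (nat_lit 5) (nat_lit 7) (C.cons (nat_lit 180) (C.node (nat_lit 4) (nat_lit 7) (nat_lit 8) (C.cons (nat_lit 400) (C.node (nat_lit 5) (nat_lit 7) (nat_lit 10) (C.cons (nat_lit 1184) (C.node (nat_lit 2) (nat_lit 4) (nat_lit 8) (C.cons (nat_lit 788) (C.miq (nat_lit 1385711370) (nat_lit 952658043183125942266561683)) (C.cons (nat_lit 276) (C.node (nat_lit 4) (nat_lit 8) (nat_lit 9) (C.cons (nat_lit 786) (C.miq (nat_lit 1410574480) (nat_lit 31451717466221004165156609)) C.nil)) C.nil))) C.nil)) C.nil)) (C.cons (nat_lit 176) (C.node (nat_lit 2) (nat_lit 4) (nat_lit 7) (C.cons (nat_lit 404) (C.node (nat_lit 7) (nat_lit 8) (nat_lit 10) (C.cons (nat_lit 1408) (C.node (nat_lit 2) (nat_lit 4) (nat_lit 9) (C.cons (nat_lit 534) (C.miq (nat_lit 691552519) (nat_lit 938133888655867902087988371)) (C.cons (nat_lit 532) (C.node (nat_lit 1) (nat_lit 4) (nat_lit 9) (C.cons (nat_lit 786) (C.miq (nat_lit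 1410574480) (nat_lit 31451717466221004165156609)) C.nil)) C.nil))) C.nil)) (C.cons (nat_lit 148) (C.node (nat_lit 4) (nat_lit 7) (nat_lit 8) C.nil) C.nil))) C.nil))) C.nil)) C.nil))) C.nil))))))))) C.nil))) (List.cons
  (C.node (nat_lit 2) (nat_lit 6) (nat_lit 11) (C.cons (nat_lit 2372) (C.node (nat_lit 2) (nat_lit 6) (nat_lit 7) (C.cons (nat_lit 198) (C.miq (nat_lit 1176611712) (nat_lit 239388914308226204748418817)) (C.cons (nat_lit 196) (C.node (nat_lit 1) (nat_lit 6) (nat_lit 7) (C.cons (nat_lit 450) (C.miq (nat_lit 1115753319) (nat_lit 317969092280591501152618721)) (C.cons (nat_lit 194) (C.node (nat_lit 6) (nat_lit 7) (nat_lit 8) (C.cons (nat_lit 448) (C.node (nat_lit 2) (nat_lit 7) (nat_lit 11) (C.cons (nat_lit 2182) (C.miq (nat_lit 1093142454) (nat_lit 317953707441016882568890593)) (C.cons (nat_lit 2180) (C.node (nat_lit 1) (nat_lit 7) (nat_lit 11) (C.cons (nat_lit 2434) (C.miq (nat_lit 2709653430) (nat_lit 317967653179537689321670881)) (C.cons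 (nat_lit 2178) (C.node (nat_lit 7) (nat_lit 8) (nat_lit 11) (C.cons (nat_lit 2432) (C.node (nat_lit 1) (nat_lit 6) (nat_lit 9) (C.cons (nat_lit 866) (C.miq (nat_lit 638826640) (nat_lit 2565378903777346567698845441)) (C.cons (nat_lit 834) (C.miq (nat_lit 638826640) (nat_lit 2565378903777346430259891969)) (C.cons (nat_lit 614) (C.miq (nat_lit 1176611712) (nat_lit 742302055267911941426188033)) (C.cons (nat_lit 610) (C.miq (nat_lit 1125714789) (nat_lit 632278552866509050018400481)) (C.cons (nat_lit 582) (C.miq (nat_lit 1176611712) (nat_lit 703616429040243807835590401)) C.nil)))))) C.nil)) C.nil))) C.nil))) C.nil)) C.nil))) C.nil))) (C.cons (nat_lit 2116) (C.node (nat_lit 6) (nat_lit 8) (nat_lit 11) (C.cons (nat_lit 2368) (C.node (nat_lit 3) (nat_lit 5) (nat_lit 11) (C.cons (nat_lit 2344) (C.node (nat_lit 2) (nat_lit 8) (nat_lit 11) (C.cons (nat_lit 2436) (C.miq (nat_lit 330828146) (nat_lit 2833726972817605163334500997)) (C.cons (nat_lit 2308) (C.node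 (nat_lit 4) (nat_lit 8) (nat_lit 11) (C.cons (nat_lit 2322) (C.miq (nat_lit 1803723792) (nat_lit 2790220954849055799285056659)) (C.cons (nat_lit 2320) (C.node (nat_lit 2) (nat_lit 3) (nat_lit 7) (C.cons (nat_lit 174) (C.miq (nat_lit 2335246706) (nat_lit 2565345441797091459127444101)) (C.cons (nat_lit 172) (C.miq (nat_lit 2149955955) (nat_lit 44773495574998210463926920)) (C.cons (nat_lit 142) (C.miq (nat_lit 2335246706) (nat_lit 2565345441797091459125346949)) (C.cons (nat_lit 140) (C.node (nat_lit 2) (nat_lit 9) (nat_lit 11) (C.cons (nat_lit 2598) (C.miq (nat_lit 1400027145) (nat_lit 169297540046930615248162561)) (C.cons (nat_lit 2596) (C.miq (nat_lit 1400027145) (nat_lit 169297503153442467829059329)) (C.cons (nat_lit 2566) (C.miq (nat_lit 2209417106) (nat_lit 2565345440826565739585864325)) (C.cons (nat_lit 2564) (C.node (nat_lit 3) (nat_lit 6) (nat_lit 8) (C.cons (nat_lit 844) (C.miq (nat_lit 338823832) (nat_lit 2510943779162890079409278721)) (C.cons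 (nat_lit 840) (C.miq (nat_lit 1399392884) (nat_lit 1015508037399489965095650451)) (C.cons (nat_lit 332) (C.miq (nat_lit 308938807) (nat_lit 1321377522050129346723053961)) (C.cons (nat_lit 328) (C.node (nat_lit 6) (nat_lit 8) (nat_lit 10) (C.cons (nat_lit 1378) (C.miq (nat_lit 728237217) (nat_lit 2862741192925770335771559059)) (C.cons (nat_lit 1376) (C.miq (nat_lit 1756538160) (nat_lit 2790220954349156335255094313)) (C.cons (nat_lit 1346) (C.miq (nat_lit 728237217) (nat_lit 2862741192925770335769461907)) C.nil)))) C.nil))))) C.nil))))) C.nil))))) C.nil))) C.nil))) (C.cons (nat_lit 2088) (C.node (nat_lit 3) (nat_lit 8) (nat_lit 11) (C.cons (nat_lit 2312) (C.node (nat_lit 2) (nat_lit 7) (nat_lit 11) (C.cons (nat_lit 2436) (C.miq (nat_lit 330828146) (nat_lit 2795041346589937029743903365)) (C.cons (nat_lit 2182) (C.node (nat_lit 7) (nat_lit 8) (nat_lit 11) (C.cons (nat_lit 2432) (C.node (nat_lit 1) (nat_lit 6) (nat_lit 7) (C.cons (nat_lit 450) (C.miq (nat_lit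 1108872054) (nat_lit 317953707696033211342784737)) (C.cons (nat_lit 194) (C.node (nat_lit 2) (nat_lit 6) (nat_lit 7) (C.cons (nat_lit 452) (C.node (nat_lit 2) (nat_lit 3) (nat_lit 10) (C.cons (nat_lit 1292) (C.miq (nat_lit 1445595011) (nat_lit 1321375567261022752099533193)) (C.cons (nat_lit 1038)
  (C.miq (nat_lit 1461324579) (nat_lit 1415671781190971258003392541)) (C.cons (nat_lit 1036) (C.node (nat_lit 1) (nat_lit 4) (nat_lit 6) (C.cons (nat_lit 118) (C.miq (nat_lit 3056116752) (nat_lit 546505325297009138770314387)) (C.cons (nat_lit 114) (C.node (nat_lit 2) (nat_lit 4) (nat_lit 6) C.nil) (C.cons (nat_lit 86) (C.miq (nat_lit 3056116752) (nat_lit 546505325297009001331360915)) C.nil)))) C.nil)))) C.nil)) C.nil))) C.nil)) (C.cons (nat_lit 2180) (C.node (nat_lit 1) (nat_lit 7) (nat_lit 11) (C.cons (nat_lit 2434) (C.node (nat_lit 1) (nat_lit 6) (nat_lit 7) (C.cons (nat_lit 198) (C.miq (nat_lit 2819754870) (nat_lit 317967653931075876996647137)) (C.cons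 (nat_lit 194) (C.node (nat_lit 2) (nat_lit 6) (nat_lit 7) (C.cons (nat_lit 452) (C.node (nat_lit 3) (nat_lit 8) (nat_lit 10) (C.cons (nat_lit 1292) (C.miq (nat_lit 1445595011) (nat_lit 1321375567261022752099533193)) (C.cons (nat_lit 1290) (C.miq (nat_lit 1401621015) (nat_lit 2795078424698078584595678355)) (C.cons (nat_lit 1288) (C.node (nat_lit 4) (nat_lit 8) (nat_lit 9) (C.cons (nat_lit 788) (C.miq (nat_lit 1418070311) (nat_lit 407449930817320420085334661)) (C.cons (nat_lit 786) (C.miq (nat_lit 1460931465) (nat_lit 1415662484031959190704623361)) (C.cons (nat_lit 784) (C.node (nat_lit 1) (nat_lit 4) (nat_lit 6) (C.cons (nat_lit 118) (C.miq (nat_lit 3056116752) (nat_lit 546505325297009138770314387)) (C.cons (nat_lit 114) (C.node (nat_lit 2) (nat_lit 4) (nat_lit 6) C.nil) (C.cons (nat_lit 86) (C.miq (nat_lit 3056116752) (nat_lit 546505325297009001331360915)) C.nil)))) C.nil)))) C.nil)))) C.nil)) C.nil))) (C.cons (nat_lit 2178) (C.node (nat_lit 7) (nat_lit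 8) (nat_lit 11) C.nil) C.nil))) C.nil)))) C.nil)) C.nil))) C.nil)) C.nil))) (List.cons (C.node (nat_lit 3) (nat_lit 4) (nat_lit 5) (C.cons (nat_lit 58) (C.miq (nat_lit 277166500) (nat_lit 349380631927012016520168984)) (C.cons (nat_lit 56) (C.node (nat_lit 3) (nat_lit 8) (nat_lit 9) (C.cons (nat_lit 876) (C.miq (nat_lit 338823832) (nat_lit 2510943779162890079411375873)) (C.cons (nat_lit 872) (C.miq (nat_lit 340986505) (nat_lit 67709493875182685380939521)) (C.cons (nat_lit 844) (C.miq (nat_lit 338823832) (nat_lit 2510943779162890079409278721)) (C.cons (nat_lit 840) (C.miq (nat_lit 1399392884) (nat_lit 1015508037399489965095650451)) (C.cons (nat_lit 812) (C.miq (nat_lit 338823832) (nat_lit 2510943779162890079407181569)) (C.cons (nat_lit 808) (C.miq (nat_lit 340986505) (nat_lit 67709493875182685376745217)) (C.cons (nat_lit 780) (C.miq (nat_lit 338823832) (nat_lit 2510943779162890079405084417)) (C.cons (nat_lit 776) (C.node (nat_lit 1) (nat_lit 3) (nat_lit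 4) (C.cons (nat_lit 282) (C.node (nat_lit 4) (nat_lit 8) (nat_lit 11) (C.cons (nat_lit 2320) (C.node (nat_lit 1) (nat_lit 3) (nat_lit 10) (C.cons (nat_lit 1038) (C.miq (nat_lit 1134985504) (nat_lit 1479731419840439351639343367)) (C.cons (nat_lit 1034) (C.node (nat_lit 1) (nat_lit 4) (nat_lit 9) (C.cons (nat_lit 534) (C.miq (nat_lit 882344224) (nat_lit 870433839772332210629443847)) (C.cons (nat_lit 530) (C.node (nat_lit 2) (nat_lit 3) (nat_lit 9) C.nil) C.nil))) C.nil))) C.nil)) (C.cons (nat_lit 26) (C.node (nat_lit 3) (nat_lit 4) (nat_lit 8) (C.cons (nat_lit 280) (C.node (nat_lit 4) (nat_lit 5) (nat_lit 7) (C.cons (nat_lit 180) (C.node (nat_lit 4) (nat_lit 7) (nat_lit 8) (C.cons (nat_lit 400) (C.node (nat_lit 2) (nat_lit 4) (nat_lit 8) (C.cons (nat_lit 788) (C.miq (nat_lit 1385711370) (nat_lit 952658043183125942266561683)) C.nil)) C.nil)) (C.cons (nat_lit 176) (C.node (nat_lit 2) (nat_lit 4) (nat_lit 7) (C.cons (nat_lit 404) (C.node (nat_lit 2) (nat_lit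 4) (nat_lit 9) (C.cons (nat_lit 534) (C.miq (nat_lit 691552519) (nat_lit 938133888655867902087988371)) C.nil)) C.nil)) C.nil))) C.nil)) C.nil))) C.nil))))))))) C.nil))) (List.cons (C.node (nat_lit 3) (nat_lit 9) (nat_lit 11) (C.cons (nat_lit 2696) (C.node (nat_lit 5) (nat_lit 7) (nat_lit 9) (C.cons (nat_lit 674) (C.node (nat_lit 6) (nat_lit 7) (nat_lit 9) (C.cons (nat_lit 704) (C.node (nat_lit 3) (nat_lit 5) (nat_lit 9)
  (C.cons (nat_lit 876) (C.miq (nat_lit 338823832) (nat_lit 2510943779162890079411375873)) (C.cons (nat_lit 872) (C.miq (nat_lit 428111200) (nat_lit 1102561948815570000753527009)) (C.cons (nat_lit 812) (C.miq (nat_lit 338823832) (nat_lit 2510943779162890079407181569)) (C.cons (nat_lit 808) (C.miq (nat_lit 2761230211) (nat_lit 678227030915856582473941385)) (C.cons (nat_lit 620) (C.miq (nat_lit 1231528784) (nat_lit 851105378585112879575401513)) (C.cons (nat_lit 616) (C.miq (nat_lit 1231528784) (nat_lit 851105378585112862395532329)) (C.cons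 (nat_lit 556) (C.miq (nat_lit 628373776) (nat_lit 212809258296118811422818827)) (C.cons (nat_lit 552) (C.node (nat_lit 1) (nat_lit 8) (nat_lit 9) (C.cons (nat_lit 834) (C.node (nat_lit 1) (nat_lit 9) (nat_lit 11) (C.cons (nat_lit 2566) (C.miq (nat_lit 2031631136) (nat_lit 1008251383887889257673984029)) (C.cons (nat_lit 2562) (C.node (nat_lit 3) (nat_lit 8) (nat_lit 9) (C.cons (nat_lit 780) (C.miq (nat_lit 338823832) (nat_lit 2510943779162890079405084417)) (C.cons (nat_lit 776) (C.node (nat_lit 1) (nat_lit 4) (nat_lit 9) (C.cons (nat_lit 530) (C.node (nat_lit 1) (nat_lit 2) (nat_lit 9) C.nil) C.nil)) C.nil))) C.nil))) (C.cons (nat_lit 770) (C.node (nat_lit 1) (nat_lit 9) (nat_lit 10) (C.cons (nat_lit 1542) (C.node (nat_lit 5) (nat_lit 9) (nat_lit 10) (C.cons (nat_lit 1568) (C.node (nat_lit 5) (nat_lit 6) (nat_lit 9) (C.cons (nat_lit 868) (C.miq (nat_lit 428111200) (nat_lit 1102561948815569983573657825)) (C.cons (nat_lit 608) (C.miq (nat_lit 693543280)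 (nat_lit 735047061051004411806024851)) C.nil))) C.nil)) (C.cons (nat_lit 1538) (C.node (nat_lit 5) (nat_lit 6) (nat_lit 9) (C.cons (nat_lit 868) (C.miq (nat_lit 428111200) (nat_lit 1102561948815569983573657825)) (C.cons (nat_lit 864) (C.miq (nat_lit 428111200) (nat_lit 1102561948815569966393788641)) (C.cons (nat_lit 612) (C.miq (nat_lit 706306165) (nat_lit 1859339200282329959939311841)) (C.cons (nat_lit 608) (C.node (nat_lit 2) (nat_lit 9) (nat_lit 10) (C.cons (nat_lit 1572) (C.node (nat_lit 5) (nat_lit 8) (nat_lit 9) C.nil) C.nil)) C.nil))))) C.nil))) C.nil))) C.nil))))))))) C.nil)) (C.cons (nat_lit 672) (C.node (nat_lit 1) (nat_lit 7) (nat_lit 9) (C.cons (nat_lit 706) (C.node (nat_lit 1) (nat_lit 4) (nat_lit 9) (C.cons (nat_lit 534) (C.miq (nat_lit 347509255) (nat_lit 3810547206976943755976835717)) (C.cons (nat_lit 530) (C.node (nat_lit 3) (nat_lit 6) (nat_lit 7) (C.cons (nat_lit 204) (C.miq (nat_lit 714301623) (nat_lit 1885928042042281195980982497))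 (C.cons (nat_lit 200) (C.node (nat_lit 2) (nat_lit 6) (nat_lit 7) (C.cons (nat_lit 196) (C.node (nat_lit 6) (nat_lit 7) (nat_lit 8) C.nil) C.nil)) C.nil))) C.nil))) (C.cons (nat_lit 642) (C.node (nat_lit 6) (nat_lit 7) (nat_lit 9) (C.cons (nat_lit 704) (C.node (nat_lit 2) (nat_lit 7) (nat_lit 11) (C.cons (nat_lit 2436) (C.miq (nat_lit 427295666) (nat_lit 1102545199129456185155258397)) (C.cons (nat_lit 2182) (C.node (nat_lit 7) (nat_lit 8) (nat_lit 11) C.nil) C.nil))) C.nil)) C.nil))) C.nil))) (C.cons (nat_lit 2632) (C.miq (nat_lit 342035129) (nat_lit 106395120102858653107228417)) (C.cons (nat_lit 2600) (C.miq (nat_lit 1397209504) (nat_lit 183798654762544816039595777)) (C.cons (nat_lit 2568) (C.node (nat_lit 3) (nat_lit 7) (nat_lit 11) (C.cons (nat_lit 2186) (C.node (nat_lit 7) (nat_lit 9) (nat_lit 11) (C.cons (nat_lit 2688) (C.node (nat_lit 3) (nat_lit 6) (nat_lit 11) (C.cons (nat_lit 2376) (C.miq (nat_lit 1952647864) (nat_lit 106392722026129070848741121))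 (C.cons (nat_lit 2120) (C.node (nat_lit 2) (nat_lit 7) (nat_lit 11) (C.cons (nat_lit 2436) (C.node (nat_lit 6) (nat_lit 7) (nat_lit 8) (C.cons (nat_lit 450) (C.miq (nat_lit 457601800) (nat_lit 3810542485075457547730747785)) (C.cons (nat_lit 448) (C.node (nat_lit 1) (nat_lit 7) (nat_lit 8) (C.cons (nat_lit 386) (C.node (nat_lit 2) (nat_lit 7) (nat_lit 10) C.nil) C.nil)) C.nil))) (C.cons (nat_lit 2180) (C.node (nat_lit 7) (nat_lit 8) (nat_lit 11) (C.cons (nat_lit 2432) (C.node (nat_lit 1) (nat_lit 7) (nat_lit 8) (C.cons (nat_lit 450)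
  (C.miq (nat_lit 457601800) (nat_lit 3810542485075457547730747785)) (C.cons (nat_lit 418) (C.node (nat_lit 1) (nat_lit 2) (nat_lit 7) C.nil) C.nil))) C.nil)) C.nil))) C.nil))) C.nil)) (C.cons (nat_lit 2184) (C.node (nat_lit 7) (nat_lit 9) (nat_lit 11) (C.cons (nat_lit 2690) (C.node (nat_lit 6) (nat_lit 9) (nat_lit 11) (C.cons (nat_lit 2628) (C.miq (nat_lit 658935979) (nat_lit 251505048704824966632181505)) (C.cons (nat_lit 2624) (C.node (nat_lit 2) (nat_lit 7) (nat_lit 11) (C.cons (nat_lit 2436) (C.node (nat_lit 4) (nat_lit 8) (nat_lit 11) (C.cons (nat_lit 2354) (C.miq (nat_lit 675904336) (nat_lit 1102552246324152503649765601)) (C.cons (nat_lit 2352) (C.miq (nat_lit 675904336) (nat_lit 1102552246324152495059831009)) (C.cons (nat_lit 2322) (C.miq (nat_lit 1803723792) (nat_lit 2944963459759728333647447187)) (C.cons (nat_lit 2320) (C.node (nat_lit 1) (nat_lit 4) (nat_lit 11) (C.cons (nat_lit 2098) (C.node (nat_lit 1) (nat_lit 10) (nat_lit 11) (C.cons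 (nat_lit 3078) (C.miq (nat_lit 1797802512) (nat_lit 2944949514021211856221701267)) (C.cons (nat_lit 3074) (C.node (nat_lit 2) (nat_lit 7) (nat_lit 10) (C.cons (nat_lit 1156) (C.node (nat_lit 2) (nat_lit 9) (nat_lit 11) (C.cons (nat_lit 2596) (C.miq (nat_lit 1500623364) (nat_lit 3252049156763130932470417437)) C.nil)) C.nil)) C.nil))) (C.cons (nat_lit 2066) (C.node (nat_lit 4) (nat_lit 5) (nat_lit 11) C.nil) C.nil))) C.nil))))) (C.cons (nat_lit 2180) (C.node (nat_lit 7) (nat_lit 8) (nat_lit 11) (C.cons (nat_lit 2432) (C.node (nat_lit 5) (nat_lit 7) (nat_lit 9) (C.cons (nat_lit 680) (C.node (nat_lit 6) (nat_lit 7) (nat_lit 9) C.nil) C.nil)) C.nil)) C.nil))) C.nil))) (C.cons (nat_lit 2688) (C.node (nat_lit 4) (nat_lit 8) (nat_lit 10) (C.cons (nat_lit 1332) (C.miq (nat_lit 323094952) (nat_lit 2510943778980494294532755201)) (C.cons (nat_lit 1328) (C.node (nat_lit 2) (nat_lit 4) (nat_lit 8) (C.cons (nat_lit 276) (C.node (nat_lit 2) (nat_lit 4) (nat_lit 10)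 (C.cons (nat_lit 1044) (C.node (nat_lit 3) (nat_lit 4) (nat_lit 5) (C.cons (nat_lit 58) (C.miq (nat_lit 428093605) (nat_lit 1102541417546925992362116137)) (C.cons (nat_lit 56) (C.node (nat_lit 7) (nat_lit 8) (nat_lit 10) (C.cons (nat_lit 1412) (C.miq (nat_lit 1344948600) (nat_lit 1321380418272829806519518096)) C.nil)) C.nil))) C.nil)) C.nil)) (C.cons (nat_lit 1300) (C.miq (nat_lit 323094952) (nat_lit 2510943778980494294530658049)) (C.cons (nat_lit 1296) (C.node (nat_lit 2) (nat_lit 4) (nat_lit 8) (C.cons (nat_lit 308) (C.node (nat_lit 2) (nat_lit 4) (nat_lit 10) (C.cons (nat_lit 1044) (C.node (nat_lit 4) (nat_lit 5) (nat_lit 10) (C.cons (nat_lit 1072) (C.node (nat_lit 3) (nat_lit 4) (nat_lit 5) (C.cons (nat_lit 58) (C.node (nat_lit 3) (nat_lit 4) (nat_lit 8) C.nil) C.nil)) C.nil)) C.nil)) (C.cons (nat_lit 276) (C.node (nat_lit 2) (nat_lit 4) (nat_lit 10) (C.cons (nat_lit 1076) (C.node (nat_lit 5) (nat_lit 9) (nat_lit 10) (C.cons (nat_lit 1570) (C.miq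 (nat_lit 354458179) (nat_lit 44739903414812164516283928)) (C.cons (nat_lit 1568) (C.node (nat_lit 1) (nat_lit 9) (nat_lit 10) (C.cons (nat_lit 1542) (C.node (nat_lit 2) (nat_lit 10) (nat_lit 11) (C.cons (nat_lit 3076) (C.node (nat_lit 2) (nat_lit 7) (nat_lit 10) (C.cons (nat_lit 1412) (C.miq (nat_lit 2056487440) (nat_lit 1885931528566691770384711943)) C.nil)) C.nil)) (C.cons (nat_lit 1538) (C.node (nat_lit 2) (nat_lit 9) (nat_lit 10) (C.cons (nat_lit 1540) (C.node (nat_lit 2) (nat_lit 7) (nat_lit 10) (C.cons (nat_lit 1412) (C.node (nat_lit 5) (nat_lit 7) (nat_lit 10) C.nil) C.nil)) C.nil)) C.nil))) C.nil))) (C.cons (nat_lit 1044) (C.node (nat_lit 4) (nat_lit 5) (nat_lit 10) (C.cons (nat_lit 1072) (C.node (nat_lit 1) (nat_lit 7) (nat_lit 9) (C.cons (nat_lit 706) (C.node (nat_lit 3) (nat_lit 6) (nat_lit 7) C.nil) (C.cons (nat_lit 674) (C.node (nat_lit 3) (nat_lit 5) (nat_lit 7) C.nil) C.nil))) C.nil)) C.nil))) C.nil))) C.nil))))) C.nil))) C.nil))) C.nil)))))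 (List.cons (C.node (nat_lit 3) (nat_lit 6) (nat_lit 11) (C.cons (nat_lit 2376)
  (C.miq (nat_lit 1952647864) (nat_lit 106392722026129070848741121)) (C.cons (nat_lit 2120) (C.node (nat_lit 2) (nat_lit 7) (nat_lit 11) (C.cons (nat_lit 2436) (C.node (nat_lit 2) (nat_lit 4) (nat_lit 7) (C.cons (nat_lit 180) (C.node (nat_lit 2) (nat_lit 7) (nat_lit 10) (C.cons (nat_lit 1156) (C.node (nat_lit 4) (nat_lit 7) (nat_lit 8) (C.cons (nat_lit 400) (C.node (nat_lit 5) (nat_lit 7) (nat_lit 8) (C.cons (nat_lit 930) (C.miq (nat_lit 655603856) (nat_lit 2642750156250697508267429633)) (C.cons (nat_lit 416) (C.miq (nat_lit 2557807396) (nat_lit 502923490664266935833987101)) C.nil))) C.nil)) C.nil)) (C.cons (nat_lit 148) (C.node (nat_lit 2) (nat_lit 7) (nat_lit 10) (C.cons (nat_lit 1188) (C.node (nat_lit 7) (nat_lit 8) (nat_lit 10) (C.cons (nat_lit 1408) (C.node (nat_lit 1) (nat_lit 2) (nat_lit 7) (C.cons (nat_lit 134) (C.node (nat_lit 2) (nat_lit 3) (nat_lit 7) C.nil)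 C.nil)) C.nil)) (C.cons (nat_lit 1156) (C.node (nat_lit 3) (nat_lit 5) (nat_lit 11) (C.cons (nat_lit 2344) (C.node (nat_lit 3) (nat_lit 4) (nat_lit 8) (C.cons (nat_lit 282) (C.miq (nat_lit 1798833940) (nat_lit 2833728338369245636510483603)) (C.cons (nat_lit 280) (C.node (nat_lit 4) (nat_lit 5) (nat_lit 11) (C.cons (nat_lit 2098) (C.miq (nat_lit 1476703089) (nat_lit 407446703138975707923941514)) (C.cons (nat_lit 2096) (C.node (nat_lit 1) (nat_lit 4) (nat_lit 11) (C.cons (nat_lit 2322) (C.miq (nat_lit 1803723792) (nat_lit 2944963459759728333647447187)) (C.cons (nat_lit 2066) (C.node (nat_lit 4) (nat_lit 8) (nat_lit 11) (C.cons (nat_lit 2320) (C.node (nat_lit 1) (nat_lit 3) (nat_lit 4) C.nil) C.nil)) C.nil))) C.nil))) C.nil))) (C.cons (nat_lit 2088) (C.node (nat_lit 3) (nat_lit 8) (nat_lit 11) (C.cons (nat_lit 2312) (C.node (nat_lit 4) (nat_lit 5) (nat_lit 7) (C.cons (nat_lit 432) (C.node (nat_lit 4) (nat_lit 8) (nat_lit 11) (C.cons (nat_lit 2322) (C.miq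 (nat_lit 1803723792) (nat_lit 2944963459759728333647447187)) C.nil)) (C.cons (nat_lit 176) (C.node (nat_lit 4) (nat_lit 7) (nat_lit 8) C.nil) C.nil))) C.nil)) C.nil))) C.nil))) C.nil))) (C.cons (nat_lit 2180) (C.node (nat_lit 7) (nat_lit 8) (nat_lit 11) (C.cons (nat_lit 2432) (C.node (nat_lit 3) (nat_lit 5) (nat_lit 11) (C.cons (nat_lit 2344) (C.node (nat_lit 3) (nat_lit 4) (nat_lit 8) (C.cons (nat_lit 282) (C.miq (nat_lit 1798833940) (nat_lit 2833728338369245636510483603)) (C.cons (nat_lit 280) (C.node (nat_lit 4) (nat_lit 5) (nat_lit 11) (C.cons (nat_lit 2098) (C.miq (nat_lit 1476703089) (nat_lit 407446703138975707923941514)) (C.cons (nat_lit 2096) (C.node (nat_lit 5) (nat_lit 7) (nat_lit 10) (C.cons (nat_lit 1440) (C.miq (nat_lit 1464044043) (nat_lit 183799964154861405750497025)) (C.cons (nat_lit 1188) (C.node (nat_lit 7) (nat_lit 8) (nat_lit 10) C.nil) C.nil))) C.nil))) C.nil))) (C.cons (nat_lit 2088) (C.node (nat_lit 3) (nat_lit 8) (nat_lit 11)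 (C.cons (nat_lit 2312) (C.node (nat_lit 1) (nat_lit 2) (nat_lit 7) (C.cons (nat_lit 198) (C.node (nat_lit 2) (nat_lit 3) (nat_lit 7) C.nil) (C.cons (nat_lit 166) (C.node (nat_lit 2) (nat_lit 3) (nat_lit 7) C.nil) C.nil))) C.nil)) C.nil))) C.nil)) C.nil))) C.nil))) List.nil)))))

theorem ok12_267 : okL par12 (nat_lit 272) c12_267 (nat_lit 267) = true := by decide +kernel


end Pool.Agent.MP_1f1ca1_co
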