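import Pool.Agent.MP_1f1ca1_co.Cert.P12

set_option autoImplicit false
set_option maxRecDepth 1000000
set_option maxHeartbeats 0

namespace Pool.Agent.MP_1f1ca1_co

noncomputable def c12_283 : List C :=
  (List.cons (C.node (nat_lit 4) (nat_lit 9) (nat_lit 11) (C.cons (nat_lit 2578) (C.node (nat_lit 6) (nat_lit 9) (nat_lit 11) (C.cons (nat_lit 2632) (C.miq (nat_lit 916495169) (nat_lit 1321365569226795914565454354)) (C.cons (nat_lit 2628) (C.miq (nat_lit 1958283874) (nat_lit 3116622661446062290690638917)) (C.cons (nat_lit 2624) (C.node (nat_lit 2) (nat_lit 9) (nat_lit 11) (C.cons (nat_lit 2596) (C.node (nat_lit 2) (nat_lit 10) (nat_lit 11) (C.cons (nat_lit 3204) (C.miq (nat_lit 1537512048) (nat_lit 3810544532779459310425145989)) (C.cons (nat_lit 3078) (C.miq (nat_lit 2226194082) (nat_lit 3116615614555076003094725701)) (C.cons (nat_lit 3076) (C.node (nat_lit 1) (nat_lit 2) (nat_lit 4) (C.cons (nat_lit 118) (C.miq (nat_lit 2336295522) (nat_lit 3116615615541364321294877765))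 (C.cons (nat_lit 86) (C.miq (nat_lit 2336295522) (nat_lit 3116615615541364321292780613)) (C.cons (nat_lit 54) (C.miq (nat_lit 447889557) (nat_lit 3718656817588403016579678769)) (C.cons (nat_lit 22) (C.node (nat_lit 3) (nat_lit 9) (nat_lit 11) (C.cons (nat_lit 2696) (C.node (nat_lit 7) (nat_lit 10) (nat_lit 11) (C.cons (nat_lit 3200) (C.node (nat_lit 3) (nat_lit 10) (nat_lit 11) (C.cons (nat_lit 3082) (C.miq (nat_lit 999661888) (nat_lit 3138391074369532788894401683)) (C.cons (nat_lit 3080) (C.node (nat_lit 2) (nat_lit 7) (nat_lit 11) (C.cons (nat_lit 2436) (C.miq (nat_lit 730957616) (nat_lit 3116615615145890020537860489)) (C.cons (nat_lit 2182) (C.miq (nat_lit 2484228219) (nat_lit 26644255937049683323914465)) (C.cons (nat_lit 2180) (C.node (nat_lit 2) (nat_lit 8) (nat_lit 11) (C.cons (nat_lit 2372) (C.miq (nat_lit 1645525002) (nat_lit 26654512836501948761050881)) (C.cons (nat_lit 2308) (C.node (nat_lit 7) (nat_lit 9) (nat_lit 10) (C.cons (nat_lit 1728)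 (C.miq (nat_lit 694880164) (nat_lit 3172259664737786831056143507)) (C.cons (nat_lit 1696) (C.miq (nat_lit 1531613703) (nat_lit 3810565469833978130338087557)) (C.cons (nat_lit 1664) (C.node (nat_lit 5) (nat_lit 7) (nat_lit 9) (C.cons (nat_lit 930) (C.miq (nat_lit 873925528) (nat_lit 1415659384923786330549391105)) (C.cons (nat_lit 928) (C.miq (nat_lit 629193075) (nat_lit 349417876486781951525063304)) (C.cons (nat_lit 674) (C.miq (nat_lit 689223024) (nat_lit 3116649077584667041556793569)) (C.cons (nat_lit 672) (C.node (nat_lit 3) (nat_lit 8) (nat_lit 11) (C.cons (nat_lit 2378) (C.miq (nat_lit 462586736) (nat_lit 3138376279882627797041349001)) (C.cons (nat_lit 2376) (C.miq (nat_lit 1000834624) (nat_lit 3868569873006032409391726929)) (C.cons (nat_lit 2346) (C.miq (nat_lit 2241280800) (nat_lit 812405401011803218396907549)) (C.cons (nat_lit 2344) (C.miq (nat_lit 2241280800) (nat_lit 812405401011240268443486237)) (C.cons (nat_lit 2314) (C.miq (nat_lit 462586736)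 (nat_lit 3138376279864613398531867017)) (C.cons (nat_lit 2312) (C.node (nat_lit 1) (nat_lit 2) (nat_lit 11) (C.cons (nat_lit 2118) (C.node (nat_lit 3) (nat_lit 6) (nat_lit 11) (C.cons (nat_lit 2120) (C.node (nat_lit 6) (nat_lit 8) (nat_lit 11) (C.cons (nat_lit 2368) (C.node (nat_lit 1) (nat_lit 3) (nat_lit 11) (C.cons (nat_lit 2058) (C.node (nat_lit 3) (nat_lit 5) (nat_lit 11) C.nil) C.nil)) C.nil)) C.nil)) (C.cons (nat_lit 2054) (C.node (nat_lit 2) (nat_lit 6) (nat_lit 11) (C.cons (nat_lit 2116) (C.node (nat_lit 1) (nat_lit 7) (nat_lit 11) (C.cons (nat_lit 2434) (C.node (nat_lit 6) (nat_lit 8) (nat_lit 11) (C.cons (nat_lit 2368) (C.node (nat_lit 1) (nat_lit 6) (nat_lit 11) C.nil) C.nil)) (C.cons (nat_lit 2178) (C.node (nat_lit 7) (nat_lit 8) (nat_lit 11) C.nil) C.nil))) C.nil)) C.nil))) C.nil))))))) C.nil))))) C.nil)))) C.nil))) C.nil)))) C.nil))) C.nil)) (C.cons (nat_lit 2568) (C.node (nat_lit 7) (nat_lit 9) (nat_lit 11) (C.cons (nat_lit 2688) (C.node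 (nat_lit 4) (nat_lit 5) (nat_lit 11) (C.cons (nat_lit 2352) (C.node (nat_lit 2) (nat_lit 7) (nat_lit 11) (C.cons (nat_lit 2436) (C.miq (nat_lit 2215097746) (nat_lit 1415697071699325874791057956)) (C.cons (nat_lit 2182) (C.miq (nat_lit 2484228219) (nat_lit 26644255937049683323914465)) (C.cons (nat_lit 2180)
  (C.node (nat_lit 2) (nat_lit 8) (nat_lit 11) (C.cons (nat_lit 2372) (C.miq (nat_lit 1645525002) (nat_lit 26654512836501948761050881)) (C.cons (nat_lit 2308) (C.node (nat_lit 1) (nat_lit 2) (nat_lit 11) (C.cons (nat_lit 2118) (C.node (nat_lit 1) (nat_lit 2) (nat_lit 9) (C.cons (nat_lit 1542) (C.node (nat_lit 3) (nat_lit 5) (nat_lit 11) (C.cons (nat_lit 2090) (C.miq (nat_lit 975261803) (nat_lit 1864202167840647785094711521)) (C.cons (nat_lit 2088) (C.node (nat_lit 1) (nat_lit 2) (nat_lit 5) (C.cons (nat_lit 174) (C.miq (nat_lit 2337474855) (nat_lit 2524244362006923219932414597)) (C.cons (nat_lit 166) (C.node (nat_lit 1) (nat_lit 2) (nat_lit 3) (C.cons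 (nat_lit 14) (C.node (nat_lit 1) (nat_lit 5) (nat_lit 11) (C.cons (nat_lit 3106) (C.node (nat_lit 7) (nat_lit 8) (nat_lit 11) (C.cons (nat_lit 2434) (C.miq (nat_lit 890702520) (nat_lit 200688935926233601379798785)) (C.cons (nat_lit 2432) (C.node (nat_lit 1) (nat_lit 8) (nat_lit 11) (C.cons (nat_lit 2314) (C.miq (nat_lit 2231612561) (nat_lit 1287548684317398189698910738)) C.nil)) C.nil))) (C.cons (nat_lit 2082) (C.miq (nat_lit 2874214695) (nat_lit 2517005158656124790914810501)) C.nil))) C.nil)) (C.cons (nat_lit 46) (C.miq (nat_lit 1965099930) (nat_lit 55632189479387027820908289)) (C.cons (nat_lit 38) (C.miq (nat_lit 1965099930) (nat_lit 45960782922469994423258881)) C.nil))))) C.nil))) (C.cons (nat_lit 518) (C.node (nat_lit 1) (nat_lit 9) (nat_lit 10) (C.cons (nat_lit 1634) (C.miq (nat_lit 1096989088) (nat_lit 2560543200556875194774654721)) (C.cons (nat_lit 1602) (C.miq (nat_lit 1096989088) (nat_lit 2560543200556875057335701249)) (C.cons (nat_lit 1570)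 (C.miq (nat_lit 1363319307) (nat_lit 26644256221057934818086657)) (C.cons (nat_lit 1538) (C.node (nat_lit 1) (nat_lit 4) (nat_lit 8) (C.cons (nat_lit 282) (C.node (nat_lit 4) (nat_lit 8) (nat_lit 10) (C.cons (nat_lit 1300) (C.miq (nat_lit 1344845476) (nat_lit 317990877940506154360900688)) (C.cons (nat_lit 1296) (C.node (nat_lit 7) (nat_lit 10) (nat_lit 11) (C.cons (nat_lit 3208) (C.miq (nat_lit 977828704) (nat_lit 1566775112693965641319778529)) (C.cons (nat_lit 3200) (C.node (nat_lit 3) (nat_lit 6) (nat_lit 11) (C.cons (nat_lit 2376) (C.miq (nat_lit 1000834624) (nat_lit 3868569873006032409391726929)) (C.cons (nat_lit 2120) (C.node (nat_lit 3) (nat_lit 8) (nat_lit 11) (C.cons (nat_lit 2312) (C.node (nat_lit 6) (nat_lit 8) (nat_lit 11) (C.cons (nat_lit 2368) (C.node (nat_lit 1) (nat_lit 8) (nat_lit 11) C.nil) C.nil)) C.nil)) C.nil))) C.nil))) C.nil))) (C.cons (nat_lit 274) (C.node (nat_lit 1) (nat_lit 3) (nat_lit 4) (C.cons (nat_lit 122) (C.miq (nat_lit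 1637499659) (nat_lit 1859386054738962196883114013)) (C.cons (nat_lit 90) (C.miq (nat_lit 1637499659) (nat_lit 1859386054729954997628373021)) (C.cons (nat_lit 58) (C.miq (nat_lit 1519464628) (nat_lit 1859328980778243293187278877)) (C.cons (nat_lit 26) (C.node (nat_lit 1) (nat_lit 5) (nat_lit 9) (C.cons (nat_lit 930) (C.miq (nat_lit 873925528) (nat_lit 1415659384923786330549391105)) (C.cons (nat_lit 866) (C.miq (nat_lit 1362397451) (nat_lit 31475458295801299643207425)) (C.cons (nat_lit 802) (C.miq (nat_lit 1362397451) (nat_lit 31475458277786901133725441)) (C.cons (nat_lit 674) (C.miq (nat_lit 689223024) (nat_lit 3116649077584667041556793569)) (C.cons (nat_lit 610) (C.miq (nat_lit 563394128) (nat_lit 3116649077450121727771216097)) (C.cons (nat_lit 546) (C.node (nat_lit 1) (nat_lit 4) (nat_lit 5) (C.cons (nat_lit 114) (C.node (nat_lit 3) (nat_lit 5) (nat_lit 11) (C.cons (nat_lit 2090) (C.miq (nat_lit 2769683378) (nat_lit 137837706027120117273724957)) (C.cons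 (nat_lit 2088) (C.node (nat_lit 1) (nat_lit 5) (nat_lit 11) (C.cons (nat_lit 3106) (C.miq (nat_lit 2705896800) (nat_lit 331316529392657279568906465)) (C.cons (nat_lit 2082) (C.node (nat_lit 1) (nat_lit 10) (nat_lit 11) C.nil) C.nil))) C.nil))) (C.cons (nat_lit 50) (C.node (nat_lit 1) (nat_lit 4) (nat_lit 6) (C.cons (nat_lit 82) (C.node (nat_lit 3) (nat_lit 5) (nat_lit 11) (C.cons (nat_lit 2090)
  (C.node (nat_lit 1) (nat_lit 10) (nat_lit 11) (C.cons (nat_lit 3074) (C.node (nat_lit 5) (nat_lit 10) (nat_lit 11) C.nil) C.nil)) (C.cons (nat_lit 2088) (C.node (nat_lit 1) (nat_lit 5) (nat_lit 11) (C.cons (nat_lit 3106) (C.node (nat_lit 3) (nat_lit 6) (nat_lit 11) C.nil) (C.cons (nat_lit 2082) (C.node (nat_lit 5) (nat_lit 10) (nat_lit 11) C.nil) C.nil))) C.nil))) C.nil)) C.nil))) C.nil))))))) C.nil))))) C.nil))) C.nil))))) C.nil))) (C.cons (nat_lit 2054) (C.node (nat_lit 2) (nat_lit 6) (nat_lit 11) (C.cons (nat_lit 2116) (C.node (nat_lit 1) (nat_lit 4) (nat_lit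 8) (C.cons (nat_lit 282) (C.node (nat_lit 4) (nat_lit 8) (nat_lit 10) (C.cons (nat_lit 1300) (C.miq (nat_lit 1344845476) (nat_lit 317990877940506154360900688)) (C.cons (nat_lit 1296) (C.node (nat_lit 7) (nat_lit 10) (nat_lit 11) (C.cons (nat_lit 3208) (C.miq (nat_lit 977828704) (nat_lit 1566775112693965641319778529)) (C.cons (nat_lit 3200) (C.node (nat_lit 3) (nat_lit 7) (nat_lit 11) (C.cons (nat_lit 2186) (C.miq (nat_lit 1679493175) (nat_lit 3116652692510651832678875529)) (C.cons (nat_lit 2184) (C.node (nat_lit 3) (nat_lit 8) (nat_lit 11) (C.cons (nat_lit 2376) (C.miq (nat_lit 1000834624) (nat_lit 3868569873006032409391726929)) C.nil)) C.nil))) C.nil))) C.nil))) (C.cons (nat_lit 274) (C.node (nat_lit 1) (nat_lit 3) (nat_lit 4) (C.cons (nat_lit 122) (C.miq (nat_lit 968233124) (nat_lit 3172223601318791856989930643)) (C.cons (nat_lit 90) (C.miq (nat_lit 968233124) (nat_lit 3172223011022981498284278931)) (C.cons (nat_lit 58) (C.miq (nat_lit 2873428243)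 (nat_lit 2843413174597202777556517387)) (C.cons (nat_lit 26) (C.node (nat_lit 1) (nat_lit 4) (nat_lit 5) (C.cons (nat_lit 114) (C.node (nat_lit 5) (nat_lit 10) (nat_lit 11) (C.cons (nat_lit 3106) (C.miq (nat_lit 2705896800) (nat_lit 331316529392657279568906465)) (C.cons (nat_lit 3104) (C.node (nat_lit 1) (nat_lit 10) (nat_lit 11) (C.cons (nat_lit 3082) (C.miq (nat_lit 826649488) (nat_lit 137837190086023177273675521)) (C.cons (nat_lit 3074) (C.node (nat_lit 1) (nat_lit 5) (nat_lit 11) (C.cons (nat_lit 2090) (C.node (nat_lit 1) (nat_lit 6) (nat_lit 11) C.nil) C.nil)) C.nil))) C.nil))) (C.cons (nat_lit 50) (C.node (nat_lit 1) (nat_lit 4) (nat_lit 6) (C.cons (nat_lit 82) (C.node (nat_lit 3) (nat_lit 5) (nat_lit 11) (C.cons (nat_lit 2090) (C.node (nat_lit 1) (nat_lit 10) (nat_lit 11) (C.cons (nat_lit 3074) (C.node (nat_lit 5) (nat_lit 10) (nat_lit 11) (C.cons (nat_lit 3104) (C.node (nat_lit 1) (nat_lit 6) (nat_lit 11) C.nil) C.nil)) C.nil)) (C.cons (nat_lit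 2088) (C.node (nat_lit 1) (nat_lit 5) (nat_lit 11) (C.cons (nat_lit 3106) (C.node (nat_lit 3) (nat_lit 10) (nat_lit 11) (C.cons (nat_lit 3080) (C.node (nat_lit 7) (nat_lit 10) (nat_lit 11) C.nil) C.nil)) (C.cons (nat_lit 2082) (C.node (nat_lit 5) (nat_lit 10) (nat_lit 11) C.nil) C.nil))) C.nil))) C.nil)) C.nil))) C.nil))))) C.nil))) C.nil)) C.nil))) C.nil))) C.nil)))) (C.cons (nat_lit 2096) (C.node (nat_lit 4) (nat_lit 8) (nat_lit 11) (C.cons (nat_lit 2320) (C.node (nat_lit 5) (nat_lit 10) (nat_lit 11) (C.cons (nat_lit 3106) (C.node (nat_lit 1) (nat_lit 4) (nat_lit 6) (C.cons (nat_lit 122) (C.miq (nat_lit 2316569430) (nat_lit 1415658352402642329421875425)) (C.cons (nat_lit 114) (C.miq (nat_lit 2316569430) (nat_lit 1415658352402642329421351137)) (C.cons (nat_lit 90) (C.miq (nat_lit 968233124) (nat_lit 3172223011022981498284278931)) (C.cons (nat_lit 82) (C.node (nat_lit 3) (nat_lit 5) (nat_lit 11) (C.cons (nat_lit 2344) (C.node (nat_lit 3) (nat_lit 10)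 (nat_lit 11) (C.cons (nat_lit 3208) (C.miq (nat_lit 1748713594) (nat_lit 2833780265408869873301849235)) (C.cons (nat_lit 3080) (C.node (nat_lit 7) (nat_lit 10) (nat_lit 11) (C.cons (nat_lit 3200) (C.node (nat_lit 3) (nat_lit 7) (nat_lit 11) (C.cons (nat_lit 2186) (C.miq (nat_lit 1399961610) (nat_lit 2642769137924451351183691521)) (C.cons (nat_lit 2184) (C.node (nat_lit 1) (nat_lit 7) (nat_lit 11) (C.cons (nat_lit 2178) (C.miq (nat_lit 2266706085) (nat_lit 2633083674399395813156586537)) C.nil)) C.nil))) C.nil)) C.nil)))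
  (C.cons (nat_lit 2088) (C.node (nat_lit 5) (nat_lit 8) (nat_lit 11) (C.cons (nat_lit 2336) (C.node (nat_lit 1) (nat_lit 2) (nat_lit 5) (C.cons (nat_lit 174) (C.miq (nat_lit 2337475095) (nat_lit 2524244362006925410365736083)) (C.cons (nat_lit 166) (C.node (nat_lit 1) (nat_lit 2) (nat_lit 9) (C.cons (nat_lit 1542) (C.node (nat_lit 1) (nat_lit 8) (nat_lit 10) (C.cons (nat_lit 1354) (C.miq (nat_lit 924942490) (nat_lit 200706663058126681936367361)) (C.cons (nat_lit 1346) (C.miq (nat_lit 610339752) (nat_lit 99136769286728042391146241)) (C.cons (nat_lit 1290) (C.miq (nat_lit 924942490) (nat_lit 200705482466505964525063937)) (C.cons (nat_lit 1282) (C.node (nat_lit 7) (nat_lit 9) (nat_lit 10) (C.cons (nat_lit 1736) (C.miq (nat_lit 1251128944) (nat_lit 1864201928620415864833116385)) (C.cons (nat_lit 1728) (C.miq (nat_lit 1251128944) (nat_lit 1864201928620415830473378017)) (C.cons (nat_lit 1696) (C.miq (nat_lit 1113000858) (nat_lit 200703287777973433360453377))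 (C.cons (nat_lit 1672) (C.miq (nat_lit 974682400) (nat_lit 1549850150787008353744126597)) (C.cons (nat_lit 1664) (C.node (nat_lit 1) (nat_lit 2) (nat_lit 3) (C.cons (nat_lit 78) (C.node (nat_lit 1) (nat_lit 2) (nat_lit 11) (C.cons (nat_lit 2054) (C.node (nat_lit 1) (nat_lit 3) (nat_lit 10) (C.cons (nat_lit 1034) (C.node (nat_lit 1) (nat_lit 6) (nat_lit 10) (C.cons (nat_lit 1090) (C.node (nat_lit 1) (nat_lit 3) (nat_lit 7) (C.cons (nat_lit 2186) (C.node (nat_lit 1) (nat_lit 6) (nat_lit 11) C.nil) C.nil)) C.nil)) C.nil)) C.nil)) (C.cons (nat_lit 14) (C.node (nat_lit 1) (nat_lit 2) (nat_lit 6) (C.cons (nat_lit 2118) (C.node (nat_lit 1) (nat_lit 7) (nat_lit 8) (C.cons (nat_lit 2434) (C.miq (nat_lit 890702520) (nat_lit 200688935926233601379798785)) (C.cons (nat_lit 962) (C.miq (nat_lit 873925528) (nat_lit 1415659384923786330551488257)) (C.cons (nat_lit 898) (C.miq (nat_lit 873925528) (nat_lit 1415659384923786330547293953)) (C.cons (nat_lit 450) (C.miq (nat_lit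 840436583) (nat_lit 317954740713701064199768289)) (C.cons (nat_lit 386) (C.node (nat_lit 1) (nat_lit 7) (nat_lit 11) (C.cons (nat_lit 2178) (C.node (nat_lit 1) (nat_lit 3) (nat_lit 11) C.nil) C.nil)) C.nil)))))) (C.cons (nat_lit 70) (C.node (nat_lit 1) (nat_lit 2) (nat_lit 11) (C.cons (nat_lit 2054) (C.node (nat_lit 1) (nat_lit 3) (nat_lit 10) (C.cons (nat_lit 1098) (C.node (nat_lit 1) (nat_lit 3) (nat_lit 7) (C.cons (nat_lit 2186) (C.node (nat_lit 1) (nat_lit 6) (nat_lit 11) C.nil) C.nil)) C.nil)) C.nil)) C.nil))) C.nil))) C.nil)))))) C.nil))))) (C.cons (nat_lit 582) (C.miq (nat_lit 2703865200) (nat_lit 703665681833963288736893153)) (C.cons (nat_lit 518) (C.miq (nat_lit 2703865200) (nat_lit 626294429378627021555697889)) C.nil)))) (C.cons (nat_lit 110) (C.miq (nat_lit 1901202105) (nat_lit 132993738637157289945206529)) (C.cons (nat_lit 102) (C.miq (nat_lit 1901202105) (nat_lit 123322332080240256547557121)) (C.cons (nat_lit 46) (C.miq (nat_lit 1901202105)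 (nat_lit 55622486181821022764011265)) (C.cons (nat_lit 38) (C.miq (nat_lit 1901202105) (nat_lit 45951079624903989366361857)) C.nil))))))) C.nil)) C.nil))) C.nil))))) (C.cons (nat_lit 3104) (C.node (nat_lit 1) (nat_lit 10) (nat_lit 11) (C.cons (nat_lit 3082) (C.miq (nat_lit 999661888) (nat_lit 3138391074369532788894401683)) (C.cons (nat_lit 3074) (C.node (nat_lit 3) (nat_lit 10) (nat_lit 11) (C.cons (nat_lit 3208) (C.node (nat_lit 3) (nat_lit 4) (nat_lit 10) (C.cons (nat_lit 1560) (C.miq (nat_lit 2208565174) (nat_lit 1885930495262207796969474273)) (C.cons (nat_lit 1304) (C.node (nat_lit 4) (nat_lit 9) (nat_lit 10) (C.cons (nat_lit 1556) (C.miq (nat_lit 1916996008) (nat_lit 2510946177091563806751461121)) (C.cons (nat_lit 1552) (C.node (nat_lit 6) (nat_lit 7) (nat_lit 10) (C.cons (nat_lit 1728) (C.miq (nat_lit 615058279) (nat_lit 1876264770776469086282975457)) (C.cons (nat_lit 1472) (C.node (nat_lit 7) (nat_lit 9) (nat_lit 10) (C.cons (nat_lit 1696) (C.miq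 (nat_lit 1165363624) (nat_lit 2747894604694719700521717505)) (C.cons (nat_lit 1664)
  (C.node (nat_lit 1) (nat_lit 3) (nat_lit 4) (C.cons (nat_lit 122) (C.miq (nat_lit 1934000314) (nat_lit 147516103710889846475067137)) (C.cons (nat_lit 90) (C.miq (nat_lit 1934000314) (nat_lit 108830477483221712884469505)) (C.cons (nat_lit 58) (C.miq (nat_lit 984699028) (nat_lit 3716239039706313705535963697)) (C.cons (nat_lit 26) (C.node (nat_lit 3) (nat_lit 4) (nat_lit 5) (C.cons (nat_lit 184) (C.miq (nat_lit 1731504139) (nat_lit 222500495360744954428985089)) (C.cons (nat_lit 120) (C.miq (nat_lit 1934000314) (nat_lit 145098252071660588125654785)) (C.cons (nat_lit 56) (C.node (nat_lit 1) (nat_lit 4) (nat_lit 6) (C.cons (nat_lit 114) (C.node (nat_lit 1) (nat_lit 4) (nat_lit 8) (C.cons (nat_lit 274) (C.node (nat_lit 3) (nat_lit 6) (nat_lit 11) (C.cons (nat_lit 2378) (C.miq (nat_lit 2169091664) (nat_lit 3116681617579849115061258465)) (C.cons (nat_lit 2376) (C.node (nat_lit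 1) (nat_lit 5) (nat_lit 9) (C.cons (nat_lit 1570) (C.miq (nat_lit 873794458) (nat_lit 137837189803140825745592065)) (C.cons (nat_lit 930) (C.miq (nat_lit 873925528) (nat_lit 1415659384923786330549391105)) (C.cons (nat_lit 802) (C.miq (nat_lit 1487280564) (nat_lit 1779540909627317976554277394)) (C.cons (nat_lit 674) (C.miq (nat_lit 689223024) (nat_lit 3116649077584667041556793569)) (C.cons (nat_lit 546) (C.node (nat_lit 2) (nat_lit 6) (nat_lit 7) (C.cons (nat_lit 212) (C.miq (nat_lit 879168424) (nat_lit 256299523913359417352916737)) (C.cons (nat_lit 206) (C.miq (nat_lit 1181989504) (nat_lit 249077033615270153537785601)) (C.cons (nat_lit 204) (C.miq (nat_lit 1181989504) (nat_lit 246659181976040895188373249)) (C.cons (nat_lit 198) (C.miq (nat_lit 558462544) (nat_lit 3116622661172174090105063649)) (C.cons (nat_lit 196) (C.node (nat_lit 2) (nat_lit 3) (nat_lit 7) (C.cons (nat_lit 174) (C.miq (nat_lit 826832224) (nat_lit 331252924193806497319291105)) (C.cons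 (nat_lit 172) (C.miq (nat_lit 1401628425) (nat_lit 2872455635200389653265973893)) (C.cons (nat_lit 142) (C.miq (nat_lit 2322664242) (nat_lit 1415656987343581313003030557)) (C.cons (nat_lit 140) (C.node (nat_lit 1) (nat_lit 2) (nat_lit 7) (C.cons (nat_lit 2182) (C.miq (nat_lit 2484228219) (nat_lit 26644255937049683323914465)) (C.cons (nat_lit 166) (C.miq (nat_lit 448098450) (nat_lit 3752508806572948888941232773)) (C.cons (nat_lit 134) (C.node (nat_lit 1) (nat_lit 3) (nat_lit 7) (C.cons (nat_lit 202) (C.miq (nat_lit 1181989504) (nat_lit 244241330336811636838960897)) (C.cons (nat_lit 170) (C.miq (nat_lit 826832224) (nat_lit 331252924192680597412448481)) (C.cons (nat_lit 138) (C.node (nat_lit 1) (nat_lit 2) (nat_lit 11) (C.cons (nat_lit 2054) (C.node (nat_lit 1) (nat_lit 6) (nat_lit 11) C.nil) C.nil)) C.nil)))) C.nil)))) C.nil))))) C.nil)))))) C.nil)))))) (C.cons (nat_lit 2122) (C.miq (nat_lit 2259909184) (nat_lit 2565347839207008780171412627)) (C.cons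 (nat_lit 2120) (C.miq (nat_lit 2259909184) (nat_lit 2562929987567779521822000275)) C.nil))))) C.nil)) (C.cons (nat_lit 82) (C.node (nat_lit 1) (nat_lit 4) (nat_lit 5) (C.cons (nat_lit 306) (C.node (nat_lit 1) (nat_lit 8) (nat_lit 10) (C.cons (nat_lit 1282) (C.node (nat_lit 4) (nat_lit 5) (nat_lit 7) (C.cons (nat_lit 180) (C.miq (nat_lit 615077643) (nat_lit 1876300759840190354606328033)) (C.cons (nat_lit 176) (C.node (nat_lit 2) (nat_lit 4) (nat_lit 10) (C.cons (nat_lit 1076) (C.node (nat_lit 4) (nat_lit 5) (nat_lit 6) C.nil) C.nil)) C.nil))) C.nil)) (C.cons (nat_lit 50) (C.node (nat_lit 1) (nat_lit 4) (nat_lit 8) (C.cons (nat_lit 274) (C.node (nat_lit 2) (nat_lit 4) (nat_lit 10) (C.cons (nat_lit 1044) (C.node (nat_lit 4) (nat_lit 5) (nat_lit 10) (C.cons (nat_lit 1072) (C.node (nat_lit 4) (nat_lit 5) (nat_lit 6) C.nil) C.nil)) C.nil)) C.nil)) C.nil))) C.nil))) C.nil)))) C.nil))))) C.nil))) (C.cons (nat_lit 1216) (C.miq (nat_lit 2271883444) (nat_lit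 1470077851316290622212540445)) C.nil)))) C.nil))) (C.cons (nat_lit 1048) (C.miq (nat_lit 2208565174) (nat_lit 1266960475619517659519912161)) C.nil)))) (C.cons (nat_lit 3080) (C.node (nat_lit 7) (nat_lit 10) (nat_lit 11)
  (C.cons (nat_lit 3200) (C.node (nat_lit 3) (nat_lit 7) (nat_lit 11) (C.cons (nat_lit 2186) (C.node (nat_lit 3) (nat_lit 6) (nat_lit 11) (C.cons (nat_lit 2376) (C.miq (nat_lit 1796506480) (nat_lit 3116616980188060786051187081)) C.nil)) C.nil)) C.nil)) C.nil))) C.nil))) C.nil))) C.nil)) C.nil))) C.nil)) C.nil))) C.nil))))) C.nil)))) (C.cons (nat_lit 2564) (C.node (nat_lit 5) (nat_lit 9) (nat_lit 11) (C.cons (nat_lit 2600) (C.miq (nat_lit 1531590928) (nat_lit 3810553829939595671296475659)) (C.cons (nat_lit 2592) (C.ref (nat_lit 266) (nat_lit 205163983024656)) C.nil))) C.nil))) C.nil)))) (C.cons (nat_lit 2576) (C.node (nat_lit 4) (nat_lit 9) (nat_lit 10) (C.cons (nat_lit 1560) (C.node (nat_lit 3) (nat_lit 4) (nat_lit 7) (C.cons (nat_lit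 216) (C.miq (nat_lit 2319649639) (nat_lit 1885931529250401403692124385)) (C.cons (nat_lit 184) (C.miq (nat_lit 2491130704) (nat_lit 2650036250978356023435265065)) (C.cons (nat_lit 152) (C.node (nat_lit 7) (nat_lit 9) (nat_lit 10) (C.cons (nat_lit 1728) (C.miq (nat_lit 615058279) (nat_lit 1885936177333386119680624865)) (C.cons (nat_lit 1696) (C.miq (nat_lit 2034981424) (nat_lit 3114234841253952556640306217)) (C.cons (nat_lit 1664) (C.node (nat_lit 3) (nat_lit 4) (nat_lit 6) (C.cons (nat_lit 122) (C.miq (nat_lit 2490082128) (nat_lit 3810605037808399764865221673)) (C.cons (nat_lit 120) (C.miq (nat_lit 2490082128) (nat_lit 3810605037808399756275287081)) (C.cons (nat_lit 90) (C.miq (nat_lit 280377764) (nat_lit 2747890048338246657962411544)) (C.cons (nat_lit 88) (C.node (nat_lit 6) (nat_lit 9) (nat_lit 10) (C.cons (nat_lit 1634) (C.miq (nat_lit 323391674) (nat_lit 106415614253124142454804225)) (C.cons (nat_lit 1632) (C.miq (nat_lit 1766545968) (nat_lit 3114234841235938158130824233))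 (C.cons (nat_lit 1602) (C.miq (nat_lit 323391674) (nat_lit 106415023957313783749152513)) (C.cons (nat_lit 1600) (C.ref (nat_lit 273) (nat_lit 205163983024656)) C.nil))))) C.nil))))) C.nil)))) C.nil)))) (C.cons (nat_lit 1556) (C.miq (nat_lit 2068383394) (nat_lit 3114204810117018456606114885)) (C.cons (nat_lit 1552) (C.node (nat_lit 3) (nat_lit 4) (nat_lit 10) (C.cons (nat_lit 1304) (C.node (nat_lit 3) (nat_lit 10) (nat_lit 11) (C.cons (nat_lit 3208) (C.node (nat_lit 6) (nat_lit 7) (nat_lit 10) (C.cons (nat_lit 1728) (C.miq (nat_lit 615058279) (nat_lit 1876264770776469086282975457)) (C.cons (nat_lit 1472) (C.node (nat_lit 7) (nat_lit 9) (nat_lit 10) (C.cons (nat_lit 1696) (C.miq (nat_lit 1165363624) (nat_lit 2747894604694719700521717505)) (C.cons (nat_lit 1664) (C.node (nat_lit 3) (nat_lit 9) (nat_lit 11) (C.cons (nat_lit 2632) (C.miq (nat_lit 2259909184) (nat_lit 3181900007210469659271562387)) (C.cons (nat_lit 2600) (C.miq (nat_lit 2493730939) (nat_lit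 1576487230469980580202678497)) (C.cons (nat_lit 2568) (C.node (nat_lit 1) (nat_lit 8) (nat_lit 10) (C.cons (nat_lit 1314) (C.node (nat_lit 2) (nat_lit 8) (nat_lit 10) (C.cons (nat_lit 1284) (C.node (nat_lit 1) (nat_lit 10) (nat_lit 11) (C.cons (nat_lit 3078) (C.miq (nat_lit 2048408352) (nat_lit 1588535777447028648632059933)) (C.cons (nat_lit 3074) (C.node (nat_lit 2) (nat_lit 3) (nat_lit 8) (C.cons (nat_lit 876) (C.miq (nat_lit 1197804169) (nat_lit 2747898736937090985143045889)) (C.cons (nat_lit 844) (C.miq (nat_lit 1949436553) (nat_lit 2510950825819125136946368257)) (C.cons (nat_lit 812) (C.miq (nat_lit 1949436553) (nat_lit 2510950825819125136944271105)) (C.cons (nat_lit 780) (C.miq (nat_lit 1949436553) (nat_lit 2510950825819125136942173953)) (C.cons (nat_lit 364) (C.miq (nat_lit 3011919994) (nat_lit 440107143061670566746391699)) (C.cons (nat_lit 332) (C.miq (nat_lit 3011919994) (nat_lit 401421516834002433155794067)) (C.cons (nat_lit 300) (C.miq (nat_lit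 1099041363) (nat_lit 317985804775701409021297705)) (C.cons (nat_lit 268) (C.node (nat_lit 2) (nat_lit 4) (nat_lit 10) (C.cons (nat_lit 1076) (C.node (nat_lit 2) (nat_lit 7) (nat_lit 10) (C.cons (nat_lit 1156) (C.node (nat_lit 2) (nat_lit 10) (nat_lit 11) (C.cons (nat_lit 3076) (C.node (nat_lit 5) (nat_lit 7) (nat_lit 10)
  (C.cons (nat_lit 1184) (C.node (nat_lit 5) (nat_lit 10) (nat_lit 11) (C.cons (nat_lit 3104) (C.node (nat_lit 2) (nat_lit 4) (nat_lit 7) (C.cons (nat_lit 404) (C.miq (nat_lit 1384359024) (nat_lit 324011765742027929626936467)) (C.cons (nat_lit 212) (C.miq (nat_lit 879168424) (nat_lit 256299523913359417352916737)) (C.cons (nat_lit 148) (C.node (nat_lit 2) (nat_lit 4) (nat_lit 8) (C.cons (nat_lit 788) (C.node (nat_lit 1) (nat_lit 2) (nat_lit 4) (C.cons (nat_lit 86) (C.miq (nat_lit 413540532) (nat_lit 1779540392966768900239788061)) (C.cons (nat_lit 22) (C.node (nat_lit 2) (nat_lit 4) (nat_lit 6) (C.cons (nat_lit 84) (C.node (nat_lit 1)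 (nat_lit 4) (nat_lit 8) (C.cons (nat_lit 2322) (C.miq (nat_lit 1678945152) (nat_lit 26616531210013505906740993)) (C.cons (nat_lit 274) (C.node (nat_lit 4) (nat_lit 8) (nat_lit 11) (C.cons (nat_lit 2352) (C.miq (nat_lit 1411889296) (nat_lit 178962951414277189367303937)) (C.cons (nat_lit 2320) (C.node (nat_lit 5) (nat_lit 8) (nat_lit 11) (C.cons (nat_lit 2344) (C.miq (nat_lit 1487385408) (nat_lit 1779580736581796633102190621)) (C.cons (nat_lit 2340) (C.miq (nat_lit 338010296) (nat_lit 1300828421256669964863278849)) (C.cons (nat_lit 2336) (C.node (nat_lit 2) (nat_lit 8) (nat_lit 11) (C.cons (nat_lit 2436) (C.miq (nat_lit 1917171856) (nat_lit 1300846112040296961532825345)) (C.cons (nat_lit 2372) (C.miq (nat_lit 341969592) (nat_lit 101554620670940971907944193)) (C.cons (nat_lit 2308) (C.node (nat_lit 1) (nat_lit 3) (nat_lit 4) (C.cons (nat_lit 122) (C.miq (nat_lit 1934000314) (nat_lit 147516103710889846475067137)) (C.cons (nat_lit 90) (C.miq (nat_lit 1934000314)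 (nat_lit 108830477483221712884469505)) (C.cons (nat_lit 58) (C.miq (nat_lit 998588577) (nat_lit 2824051785115570050951152787)) (C.cons (nat_lit 26) (C.node (nat_lit 3) (nat_lit 4) (nat_lit 5) (C.cons (nat_lit 184) (C.miq (nat_lit 1731504139) (nat_lit 222500495360744954428985089)) (C.cons (nat_lit 120) (C.miq (nat_lit 1934000314) (nat_lit 145098252071660588125654785)) C.nil))) C.nil))))) C.nil)))) C.nil)))) C.nil))) C.nil))) C.nil)) C.nil))) (C.cons (nat_lit 276) (C.node (nat_lit 5) (nat_lit 6) (nat_lit 10) (C.cons (nat_lit 1632) (C.node (nat_lit 1) (nat_lit 6) (nat_lit 10) (C.cons (nat_lit 1090) (C.node (nat_lit 3) (nat_lit 6) (nat_lit 10) (C.cons (nat_lit 1096) (C.node (nat_lit 1) (nat_lit 3) (nat_lit 10) C.nil) C.nil)) C.nil)) (C.cons (nat_lit 1120) (C.node (nat_lit 5) (nat_lit 9) (nat_lit 10) (C.cons (nat_lit 1568) (C.node (nat_lit 1) (nat_lit 2) (nat_lit 10) (C.cons (nat_lit 1542) (C.node (nat_lit 2) (nat_lit 3) (nat_lit 10) C.nil) (C.cons (nat_lit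 1038) (C.miq (nat_lit 2510357539) (nat_lit 1588538174778685369046927389)) C.nil))) C.nil)) C.nil))) C.nil))) C.nil)))) C.nil)) C.nil)) C.nil)) C.nil)) (C.cons (nat_lit 1044) (C.node (nat_lit 4) (nat_lit 5) (nat_lit 10) (C.cons (nat_lit 1072) (C.node (nat_lit 2) (nat_lit 7) (nat_lit 10) (C.cons (nat_lit 1188) (C.node (nat_lit 2) (nat_lit 10) (nat_lit 11) (C.cons (nat_lit 3076) (C.node (nat_lit 5) (nat_lit 10) (nat_lit 11) (C.cons (nat_lit 3104) (C.node (nat_lit 4) (nat_lit 5) (nat_lit 7) (C.cons (nat_lit 432) (C.miq (nat_lit 624994182) (nat_lit 678227547429473659330299328)) (C.cons (nat_lit 184) (C.miq (nat_lit 1731504139) (nat_lit 222500495360744954428985089)) (C.cons (nat_lit 176) (C.node (nat_lit 2) (nat_lit 3) (nat_lit 7) (C.cons (nat_lit 206) (C.miq (nat_lit 1181989504) (nat_lit 249077033615270153537785601)) (C.cons (nat_lit 204) (C.miq (nat_lit 1181989504) (nat_lit 246659181976040895188373249)) (C.cons (nat_lit 142) (C.miq (nat_lit 2322664242)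 (nat_lit 1415656987343581313003030557)) (C.cons (nat_lit 140) (C.node (nat_lit 5) (nat_lit 6) (nat_lit 8) (C.cons (nat_lit 872) (C.miq (nat_lit 1197804169) (nat_lit 2747898736937090985142783745)) (C.cons (nat_lit 868) (C.miq (nat_lit 1197804169) (nat_lit 2747898736937090985142521601)) (C.cons (nat_lit 864) (C.miq (nat_lit 1197804169) (nat_lit 2747898736937090985142259457)) (C.cons (nat_lit 360)
  (C.miq (nat_lit 3011919994) (nat_lit 435271439783212050047566995)) (C.cons (nat_lit 356) (C.miq (nat_lit 1244137302) (nat_lit 1552266969267549000614283489)) (C.cons (nat_lit 352) (C.node (nat_lit 5) (nat_lit 6) (nat_lit 10) (C.cons (nat_lit 1632) (C.node (nat_lit 1) (nat_lit 6) (nat_lit 10) (C.cons (nat_lit 1090) (C.node (nat_lit 3) (nat_lit 6) (nat_lit 10) (C.cons (nat_lit 1096) (C.node (nat_lit 1) (nat_lit 3) (nat_lit 10) C.nil) C.nil)) C.nil)) (C.cons (nat_lit 1120) (C.node (nat_lit 5) (nat_lit 9) (nat_lit 10) (C.cons (nat_lit 1568) (C.node (nat_lit 1)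 (nat_lit 6) (nat_lit 10) (C.cons (nat_lit 1602) (C.miq (nat_lit 1765515524) (nat_lit 3104579649358613212246639763)) (C.cons (nat_lit 1098) (C.node (nat_lit 6) (nat_lit 9) (nat_lit 10) C.nil) C.nil))) C.nil)) C.nil))) C.nil))))))) C.nil))))) C.nil)))) C.nil)) C.nil)) (C.cons (nat_lit 1156) (C.node (nat_lit 5) (nat_lit 7) (nat_lit 10) (C.cons (nat_lit 1184) (C.node (nat_lit 2) (nat_lit 10) (nat_lit 11) (C.cons (nat_lit 3108) (C.node (nat_lit 2) (nat_lit 8) (nat_lit 11) (C.cons (nat_lit 2436) (C.miq (nat_lit 942278581) (nat_lit 1552280398278252489586510049)) (C.cons (nat_lit 2372) (C.miq (nat_lit 681883248) (nat_lit 1576477583332582505581840609)) (C.cons (nat_lit 2308) (C.node (nat_lit 4) (nat_lit 8) (nat_lit 11) (C.cons (nat_lit 2352) (C.miq (nat_lit 1750729906) (nat_lit 1588548689359762469222090781)) (C.cons (nat_lit 2322) (C.miq (nat_lit 1803723792) (nat_lit 2790220954849055799285056659)) (C.cons (nat_lit 2320) (C.node (nat_lit 5) (nat_lit 8) (nat_lit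 11) (C.cons (nat_lit 2344) (C.miq (nat_lit 1487385408) (nat_lit 1779580736581796633102190621)) (C.cons (nat_lit 2336) (C.node (nat_lit 1) (nat_lit 3) (nat_lit 4) (C.cons (nat_lit 122) (C.miq (nat_lit 1934000314) (nat_lit 147516103710889846475067137)) (C.cons (nat_lit 90) (C.miq (nat_lit 1934000314) (nat_lit 108830477483221712884469505)) (C.cons (nat_lit 58) (C.miq (nat_lit 998588577) (nat_lit 2824051785115570050951152787)) (C.cons (nat_lit 26) (C.node (nat_lit 3) (nat_lit 4) (nat_lit 5) (C.cons (nat_lit 184) (C.miq (nat_lit 1731504139) (nat_lit 222500495360744954428985089)) (C.cons (nat_lit 120) (C.miq (nat_lit 1934000314) (nat_lit 145098252071660588125654785)) (C.cons (nat_lit 56) (C.node (nat_lit 2) (nat_lit 3) (nat_lit 7) (C.cons (nat_lit 206) (C.miq (nat_lit 1181989504) (nat_lit 249077033615270153537785601)) (C.cons (nat_lit 204) (C.miq (nat_lit 1181989504) (nat_lit 246659181976040895188373249)) (C.cons (nat_lit 174) (C.miq (nat_lit 2721625456)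 (nat_lit 324062974475532712175798497)) (C.cons (nat_lit 172) (C.miq (nat_lit 2721625456) (nat_lit 324062974475532703585863905)) (C.cons (nat_lit 142) (C.miq (nat_lit 2322664242) (nat_lit 1415656987343581313003030557)) (C.cons (nat_lit 140) (C.node (nat_lit 1) (nat_lit 4) (nat_lit 8) (C.cons (nat_lit 786) (C.node (nat_lit 1) (nat_lit 8) (nat_lit 7) (C.cons (nat_lit 2434) (C.miq (nat_lit 1460931465) (nat_lit 1415662484031959190704623361)) (C.cons (nat_lit 386) (C.node (nat_lit 8) (nat_lit 7) (nat_lit 11) (C.cons (nat_lit 2432) (C.node (nat_lit 9) (nat_lit 7) (nat_lit 11) (C.cons (nat_lit 2690) (C.miq (nat_lit 1729366936) (nat_lit 1415658351961287779276689153)) (C.cons (nat_lit 2688) (C.node (nat_lit 1) (nat_lit 9) (nat_lit 10) (C.cons (nat_lit 1542) (C.miq (nat_lit 1788084760) (nat_lit 1876259088902316091698708743)) (C.cons (nat_lit 1602) (C.miq (nat_lit 1630841099) (nat_lit 31490215898225850143543041)) (C.cons (nat_lit 1538) (C.node (nat_lit 1) (nat_lit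 8) (nat_lit 11) (C.cons (nat_lit 2378) (C.node (nat_lit 1) (nat_lit 10) (nat_lit 6) C.nil) (C.cons (nat_lit 2314) (C.miq (nat_lit 1798851184) (nat_lit 2797460564028227655261815955)) (C.cons (nat_lit 2370) (C.miq (nat_lit 946565194) (nat_lit 2865213369752280717753058451)) C.nil)))) C.nil)))) C.nil))) C.nil)) C.nil))) (C.cons (nat_lit 274) (C.node (nat_lit 1) (nat_lit 4) (nat_lit 11) (C.cons (nat_lit 2098) (C.node (nat_lit 3) (nat_lit 5) (nat_lit 11) (C.cons (nat_lit 2088) (C.node (nat_lit 5) (nat_lit 9) (nat_lit 11)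
  (C.cons (nat_lit 2592) (C.node (nat_lit 4) (nat_lit 5) (nat_lit 6) (C.cons (nat_lit 116) (C.miq (nat_lit 2317618006) (nat_lit 1262124773311584432823732449)) C.nil)) C.nil)) C.nil)) (C.cons (nat_lit 2066) (C.node (nat_lit 4) (nat_lit 5) (nat_lit 11) (C.cons (nat_lit 2096) (C.node (nat_lit 2) (nat_lit 7) (nat_lit 11) (C.cons (nat_lit 2182) (C.node (nat_lit 4) (nat_lit 8) (nat_lit 9) C.nil) (C.cons (nat_lit 2180) (C.node (nat_lit 4) (nat_lit 8) (nat_lit 9) C.nil) C.nil))) C.nil)) C.nil))) C.nil))) C.nil))))))) C.nil)))) C.nil))))) C.nil))) C.nil)))) C.nil)))) (C.cons (nat_lit 3076) (C.node (nat_lit 5) (nat_lit 10) (nat_lit 11) (C.cons (nat_lit 3104) (C.node (nat_lit 2) (nat_lit 5) (nat_lit 10) (C.cons (nat_lit 1572) (C.node (nat_lit 5) (nat_lit 6) (nat_lit 10) C.nil) C.nil)) C.nil)) C.nil))) C.nil)) C.nil))) C.nil)) C.nil))) C.nil))))))))) C.nil))) C.nil)) (C.cons (nat_lit 1282) (C.node (nat_lit 2) (nat_lit 4) (nat_lit 10) (C.cons (nat_lit 1076) (C.node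 (nat_lit 2) (nat_lit 7) (nat_lit 10) (C.cons (nat_lit 1156) (C.node (nat_lit 2) (nat_lit 8) (nat_lit 10) (C.cons (nat_lit 1284) (C.node (nat_lit 5) (nat_lit 7) (nat_lit 10) (C.cons (nat_lit 1184) (C.node (nat_lit 5) (nat_lit 8) (nat_lit 10) (C.cons (nat_lit 1312) (C.node (nat_lit 2) (nat_lit 10) (nat_lit 11) (C.cons (nat_lit 3078) (C.miq (nat_lit 2048408352) (nat_lit 1549850151219360515041462301)) (C.cons (nat_lit 3076) (C.node (nat_lit 2) (nat_lit 4) (nat_lit 7) (C.cons (nat_lit 404) (C.miq (nat_lit 1383113859) (nat_lit 779776799736743128491164952)) (C.cons (nat_lit 212) (C.miq (nat_lit 879168424) (nat_lit 256299523913359417352916737)) (C.cons (nat_lit 148) (C.node (nat_lit 2) (nat_lit 3) (nat_lit 8) (C.cons (nat_lit 876) (C.miq (nat_lit 1197804169) (nat_lit 2747898736937090985143045889)) (C.cons (nat_lit 844) (C.miq (nat_lit 1949436553) (nat_lit 2510950825819125136946368257)) (C.cons (nat_lit 812) (C.miq (nat_lit 1949436553) (nat_lit 2510950825819125136944271105))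 (C.cons (nat_lit 780) (C.miq (nat_lit 1949436553) (nat_lit 2510950825819125136942173953)) (C.cons (nat_lit 364) (C.miq (nat_lit 2052588579) (nat_lit 1586117925234426264205133853)) (C.cons (nat_lit 332) (C.miq (nat_lit 3011919994) (nat_lit 401421516834002433155794067)) (C.cons (nat_lit 300) (C.miq (nat_lit 2052588579) (nat_lit 1586117925234426264200939549)) (C.cons (nat_lit 268) (C.node (nat_lit 1) (nat_lit 10) (nat_lit 11) (C.cons (nat_lit 3106) (C.node (nat_lit 1) (nat_lit 4) (nat_lit 11) (C.cons (nat_lit 2322) (C.miq (nat_lit 463635552) (nat_lit 3718660673281889160738963793)) (C.cons (nat_lit 2066) (C.node (nat_lit 3) (nat_lit 5) (nat_lit 11) (C.cons (nat_lit 2344) (C.miq (nat_lit 1487385408) (nat_lit 1779580736581796633102190621)) (C.cons (nat_lit 2088) (C.node (nat_lit 4) (nat_lit 5) (nat_lit 6) (C.cons (nat_lit 122) (C.miq (nat_lit 1934000314) (nat_lit 147516103710889846475067137)) (C.cons (nat_lit 120) (C.miq (nat_lit 1934000314) (nat_lit 145098252071660588125654785))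 (C.cons (nat_lit 114) (C.miq (nat_lit 2316569430) (nat_lit 1415658352402642329421351137)) (C.cons (nat_lit 112) (C.node (nat_lit 1) (nat_lit 3) (nat_lit 7) (C.cons (nat_lit 206) (C.miq (nat_lit 1181989504) (nat_lit 249077033615270153537785601)) (C.cons (nat_lit 202) (C.miq (nat_lit 1181989504) (nat_lit 244241330336811636838960897)) (C.cons (nat_lit 174) (C.miq (nat_lit 950104245) (nat_lit 1549846110590059590455527649)) (C.cons (nat_lit 170) (C.miq (nat_lit 950104245) (nat_lit 1549846036803083295617321185)) (C.cons (nat_lit 142) (C.miq (nat_lit 2322664242) (nat_lit 1415656987343581313003030557)) (C.cons (nat_lit 138) (C.node (nat_lit 2) (nat_lit 4) (nat_lit 8) (C.cons (nat_lit 788) (C.node (nat_lit 1) (nat_lit 2) (nat_lit 4) (C.cons (nat_lit 86) (C.miq (nat_lit 413540532) (nat_lit 1779540392966768900239788061)) (C.cons (nat_lit 22) (C.node (nat_lit 2) (nat_lit 4) (nat_lit 6) (C.cons (nat_lit 84) (C.node (nat_lit 4) (nat_lit 5) (nat_lit 11) (C.cons (nat_lit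 2352) (C.miq (nat_lit 1411889296) (nat_lit 178962951414277189367303937))
  (C.cons (nat_lit 2096) (C.node (nat_lit 4) (nat_lit 8) (nat_lit 11) C.nil) C.nil))) C.nil)) C.nil))) (C.cons (nat_lit 276) (C.node (nat_lit 4) (nat_lit 5) (nat_lit 11) (C.cons (nat_lit 2352) (C.node (nat_lit 4) (nat_lit 5) (nat_lit 7) (C.cons (nat_lit 184) (C.miq (nat_lit 1731504139) (nat_lit 222500495360744954428985089)) (C.cons (nat_lit 176) (C.node (nat_lit 2) (nat_lit 8) (nat_lit 11) (C.cons (nat_lit 2436) (C.miq (nat_lit 2458126261) (nat_lit 333673875018624825950210273)) (C.cons (nat_lit 2372) (C.miq (nat_lit 1732413963) (nat_lit 178964777394244152173858561)) (C.cons (nat_lit 2308) (C.node (nat_lit 7) (nat_lit 8) (nat_lit 11) (C.cons (nat_lit 2434) (C.miq (nat_lit 1366535040) (nat_lit 166851409763529058421378817)) (C.cons (nat_lit 2432) (C.node (nat_lit 1) (nat_lit 4) (nat_lit 5) (C.cons (nat_lit 58) (C.node (nat_lit 5) (nat_lit 6) (nat_lit 10) (C.cons (nat_lit 1120) (C.node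 (nat_lit 5) (nat_lit 9) (nat_lit 10) C.nil) C.nil)) (C.cons (nat_lit 50) (C.node (nat_lit 3) (nat_lit 4) (nat_lit 5) C.nil) C.nil))) C.nil))) C.nil)))) C.nil))) (C.cons (nat_lit 2096) (C.node (nat_lit 4) (nat_lit 8) (nat_lit 11) (C.cons (nat_lit 2320) (C.node (nat_lit 5) (nat_lit 6) (nat_lit 10) (C.cons (nat_lit 1632) (C.node (nat_lit 2) (nat_lit 4) (nat_lit 6) (C.cons (nat_lit 598) (C.miq (nat_lit 413540532) (nat_lit 1779549837699734639530215453)) (C.cons (nat_lit 596) (C.miq (nat_lit 898894434) (nat_lit 678245698991025921371407429)) (C.cons (nat_lit 86) (C.miq (nat_lit 413540532) (nat_lit 1779540392966768900239788061)) C.nil)))) (C.cons (nat_lit 1120) (C.node (nat_lit 5) (nat_lit 9) (nat_lit 10) (C.cons (nat_lit 1568) (C.node (nat_lit 1) (nat_lit 4) (nat_lit 5) C.nil) C.nil)) C.nil))) C.nil)) C.nil))) C.nil))) C.nil))))))) C.nil))))) C.nil))) C.nil))) (C.cons (nat_lit 3074) (C.node (nat_lit 5) (nat_lit 10) (nat_lit 11) (C.cons (nat_lit 3104) (C.node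 (nat_lit 2) (nat_lit 4) (nat_lit 8) (C.cons (nat_lit 788) (C.node (nat_lit 1) (nat_lit 2) (nat_lit 4) (C.cons (nat_lit 86) (C.miq (nat_lit 413540532) (nat_lit 1779540392966768900239788061)) (C.cons (nat_lit 22) (C.node (nat_lit 2) (nat_lit 4) (nat_lit 6) (C.cons (nat_lit 84) (C.node (nat_lit 1) (nat_lit 2) (nat_lit 10) (C.cons (nat_lit 1542) (C.node (nat_lit 2) (nat_lit 3) (nat_lit 10) C.nil) (C.cons (nat_lit 1038) (C.miq (nat_lit 2485192099) (nat_lit 26606015836584475326546985)) C.nil))) C.nil)) C.nil))) (C.cons (nat_lit 276) (C.node (nat_lit 7) (nat_lit 9) (nat_lit 11) (C.cons (nat_lit 2690) (C.node (nat_lit 6) (nat_lit 9) (nat_lit 11) (C.cons (nat_lit 2628) (C.miq (nat_lit 1651816714) (nat_lit 178979166180004459489464065)) (C.cons (nat_lit 2624) (C.node (nat_lit 1) (nat_lit 2) (nat_lit 10) (C.cons (nat_lit 1542) (C.miq (nat_lit 699834736) (nat_lit 3172241513394105486667744403)) (C.cons (nat_lit 1038) (C.node (nat_lit 2) (nat_lit 9) (nat_lit 10)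 C.nil) C.nil))) C.nil))) (C.cons (nat_lit 2688) (C.node (nat_lit 1) (nat_lit 10) (nat_lit 2) (C.cons (nat_lit 1038) (C.node (nat_lit 9) (nat_lit 10) (nat_lit 2) C.nil) (C.cons (nat_lit 1542) (C.node (nat_lit 10) (nat_lit 2) (nat_lit 3) C.nil) C.nil))) C.nil))) C.nil))) C.nil)) C.nil))) C.nil))))))))) C.nil)))) C.nil))) C.nil)) C.nil)) C.nil)) C.nil)) (C.cons (nat_lit 1044) (C.node (nat_lit 4) (nat_lit 5) (nat_lit 10) (C.cons (nat_lit 1072) (C.node (nat_lit 2) (nat_lit 7) (nat_lit 10) (C.cons (nat_lit 1188) (C.node (nat_lit 2) (nat_lit 8) (nat_lit 10) (C.cons (nat_lit 1284) (C.node (nat_lit 5) (nat_lit 8) (nat_lit 10) (C.cons (nat_lit 1312) (C.node (nat_lit 2) (nat_lit 10) (nat_lit 11) (C.cons (nat_lit 3078) (C.miq (nat_lit 2048408352) (nat_lit 1549850151219360515041462301)) (C.cons (nat_lit 3076) (C.node (nat_lit 4) (nat_lit 5) (nat_lit 7) (C.cons (nat_lit 432) (C.miq (nat_lit 624994182) (nat_lit 678227547429473659330299328)) (C.cons (nat_lit 184)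 (C.miq (nat_lit 1731504139) (nat_lit 222500495360744954428985089)) (C.cons (nat_lit 176) (C.node (nat_lit 2) (nat_lit 3) (nat_lit 7) (C.cons (nat_lit 206)
  (C.miq (nat_lit 1181989504) (nat_lit 249077033615270153537785601)) (C.cons (nat_lit 204) (C.miq (nat_lit 1181989504) (nat_lit 246659181976040895188373249)) (C.cons (nat_lit 142) (C.miq (nat_lit 2322664242) (nat_lit 1415656987343581313003030557)) (C.cons (nat_lit 140) (C.node (nat_lit 1) (nat_lit 10) (nat_lit 11) (C.cons (nat_lit 3106) (C.node (nat_lit 1) (nat_lit 4) (nat_lit 11) (C.cons (nat_lit 2322) (C.miq (nat_lit 463635552) (nat_lit 3718660673281889160738963793)) (C.cons (nat_lit 2066) (C.node (nat_lit 3) (nat_lit 5) (nat_lit 11) (C.cons (nat_lit 2344) (C.miq (nat_lit 880118283) (nat_lit 212814183787331909123641089)) (C.cons (nat_lit 2088) (C.node (nat_lit 5) (nat_lit 9) (nat_lit 11) (C.cons (nat_lit 2596) (C.miq (nat_lit 354921360) (nat_lit 1436225475713762200876551937)) (C.cons (nat_lit 2592)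 (C.node (nat_lit 1) (nat_lit 3) (nat_lit 7) (C.cons (nat_lit 202) (C.miq (nat_lit 1181989504) (nat_lit 244241330336811636838960897)) (C.cons (nat_lit 170) (C.miq (nat_lit 950104245) (nat_lit 1549846036803083295617321185)) (C.cons (nat_lit 138) (C.node (nat_lit 1) (nat_lit 9) (nat_lit 10) (C.cons (nat_lit 1602) (C.miq (nat_lit 1731307529) (nat_lit 166861315205157762485653249)) (C.cons (nat_lit 1542) (C.miq (nat_lit 309700875) (nat_lit 1436261169723309585908961025)) (C.cons (nat_lit 1538) (C.node (nat_lit 1) (nat_lit 2) (nat_lit 10) (C.cons (nat_lit 1038) (C.node (nat_lit 1) (nat_lit 6) (nat_lit 10) (C.cons (nat_lit 1090) (C.node (nat_lit 2) (nat_lit 9) (nat_lit 10) C.nil) C.nil)) (C.cons (nat_lit 1030) (C.node (nat_lit 1) (nat_lit 3) (nat_lit 10) (C.cons (nat_lit 1098) (C.node (nat_lit 2) (nat_lit 3) (nat_lit 10) C.nil) C.nil)) C.nil))) C.nil)))) C.nil)))) C.nil))) C.nil))) C.nil))) (C.cons (nat_lit 3074) (C.node (nat_lit 5) (nat_lit 10) (nat_lit 11)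 (C.cons (nat_lit 3104) (C.node (nat_lit 7) (nat_lit 9) (nat_lit 11) (C.cons (nat_lit 2690) (C.node (nat_lit 1) (nat_lit 2) (nat_lit 7) (C.cons (nat_lit 198) (C.miq (nat_lit 1789993111) (nat_lit 3716241622258365324228428421)) (C.cons (nat_lit 134) (C.node (nat_lit 1) (nat_lit 6) (nat_lit 7) (C.cons (nat_lit 202) (C.miq (nat_lit 1181989504) (nat_lit 244241330336811636838960897)) (C.cons (nat_lit 194) (C.node (nat_lit 1) (nat_lit 3) (nat_lit 7) (C.cons (nat_lit 170) (C.miq (nat_lit 2836597621) (nat_lit 632287850522046498062600417)) (C.cons (nat_lit 138) (C.node (nat_lit 2) (nat_lit 6) (nat_lit 7) (C.cons (nat_lit 212) (C.miq (nat_lit 879168424) (nat_lit 256299523913359417352916737)) (C.cons (nat_lit 196) (C.node (nat_lit 1) (nat_lit 5) (nat_lit 7) (C.cons (nat_lit 162) (C.node (nat_lit 1) (nat_lit 7) (nat_lit 8) C.nil) C.nil)) C.nil))) C.nil))) C.nil))) C.nil))) (C.cons (nat_lit 2688) (C.node (nat_lit 1) (nat_lit 10) (nat_lit 2) (C.cons (nat_lit 1038)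 (C.node (nat_lit 9) (nat_lit 10) (nat_lit 2) C.nil) (C.cons (nat_lit 1542) (C.node (nat_lit 10) (nat_lit 2) (nat_lit 3) C.nil) C.nil))) C.nil))) C.nil)) C.nil))) C.nil))))) C.nil)))) C.nil))) C.nil)) C.nil)) (C.cons (nat_lit 1156) (C.node (nat_lit 5) (nat_lit 7) (nat_lit 10) (C.cons (nat_lit 1184) (C.node (nat_lit 2) (nat_lit 8) (nat_lit 10) (C.cons (nat_lit 1316) (C.node (nat_lit 2) (nat_lit 10) (nat_lit 11) (C.cons (nat_lit 3078) (C.miq (nat_lit 2048408352) (nat_lit 1549850151219360515041462301)) (C.cons (nat_lit 3076) (C.node (nat_lit 2) (nat_lit 3) (nat_lit 8) (C.cons (nat_lit 844) (C.miq (nat_lit 1949436553) (nat_lit 2510950825819125136946368257)) (C.cons (nat_lit 780) (C.miq (nat_lit 1949436553) (nat_lit 2510950825819125136942173953)) (C.cons (nat_lit 332) (C.miq (nat_lit 3011919994) (nat_lit 401421516834002433155794067)) (C.cons (nat_lit 268) (C.node (nat_lit 1) (nat_lit 10) (nat_lit 11) (C.cons (nat_lit 3106) (C.node (nat_lit 1) (nat_lit 4)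 (nat_lit 11) (C.cons (nat_lit 2322) (C.miq (nat_lit 463635552) (nat_lit 3718660673281889160738963793)) (C.cons (nat_lit 2066) (C.node (nat_lit 3) (nat_lit 5) (nat_lit 11) (C.cons (nat_lit 2344) (C.miq (nat_lit 1487385408) (nat_lit 1779580736581796633102190621)) (C.cons (nat_lit 2088)
  (C.node (nat_lit 1) (nat_lit 3) (nat_lit 7) (C.cons (nat_lit 206) (C.miq (nat_lit 1181989504) (nat_lit 249077033615270153537785601)) (C.cons (nat_lit 202) (C.miq (nat_lit 1181989504) (nat_lit 244241330336811636838960897)) (C.cons (nat_lit 174) (C.miq (nat_lit 950104245) (nat_lit 1549846110590059590455527649)) (C.cons (nat_lit 170) (C.miq (nat_lit 950104245) (nat_lit 1549846036803083295617321185)) (C.cons (nat_lit 142) (C.miq (nat_lit 2322664242) (nat_lit 1415656987343581313003030557)) (C.cons (nat_lit 138) (C.node (nat_lit 2) (nat_lit 5) (nat_lit 11) (C.cons (nat_lit 2596) (C.node (nat_lit 7) (nat_lit 9) (nat_lit 11) (C.cons (nat_lit 2690) (C.miq (nat_lit 1376434545)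 (nat_lit 1321413217156594439692683906)) (C.cons (nat_lit 2688) (C.node (nat_lit 1) (nat_lit 7) (nat_lit 11) (C.cons (nat_lit 2434) (C.miq (nat_lit 1366535040) (nat_lit 166851409763529058421378817)) (C.cons (nat_lit 2182) (C.miq (nat_lit 1383184650) (nat_lit 2637933434716925610947710721)) (C.cons (nat_lit 2178) (C.node (nat_lit 1) (nat_lit 2) (nat_lit 7) (C.cons (nat_lit 198) (C.miq (nat_lit 1383184650) (nat_lit 239424608601501328330657537)) (C.cons (nat_lit 166) (C.node (nat_lit 2) (nat_lit 3) (nat_lit 7) (C.cons (nat_lit 204) (C.miq (nat_lit 1181989504) (nat_lit 246659181976040895188373249)) (C.cons (nat_lit 140) (C.node (nat_lit 2) (nat_lit 6) (nat_lit 7) (C.cons (nat_lit 212) (C.miq (nat_lit 879168424) (nat_lit 256299523913359417352916737)) (C.cons (nat_lit 196) (C.node (nat_lit 1) (nat_lit 2) (nat_lit 10) (C.cons (nat_lit 1542) (C.node (nat_lit 2) (nat_lit 3) (nat_lit 10) (C.cons (nat_lit 1036) (C.node (nat_lit 1) (nat_lit 2) (nat_lit 3) C.nil)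 C.nil)) (C.cons (nat_lit 1038) (C.miq (nat_lit 2584873815) (nat_lit 1254876899991071351730735329)) (C.cons (nat_lit 1030) (C.miq (nat_lit 2584873815) (nat_lit 1245205493434154318333085921)) C.nil)))) C.nil))) C.nil))) (C.cons (nat_lit 134) (C.miq (nat_lit 1383184650) (nat_lit 162053356146165061149462273)) C.nil)))) C.nil)))) C.nil))) (C.cons (nat_lit 2084) (C.node (nat_lit 5) (nat_lit 9) (nat_lit 11) (C.cons (nat_lit 2592) (C.node (nat_lit 4) (nat_lit 5) (nat_lit 11) (C.cons (nat_lit 2352) (C.node (nat_lit 4) (nat_lit 5) (nat_lit 6) (C.cons (nat_lit 122) (C.miq (nat_lit 1934000314) (nat_lit 147516103710889846475067137)) (C.cons (nat_lit 120) (C.miq (nat_lit 1934000314) (nat_lit 145098252071660588125654785)) (C.cons (nat_lit 118) (C.miq (nat_lit 2316569430) (nat_lit 1415658352402642329421613281)) (C.cons (nat_lit 116) (C.miq (nat_lit 2217391456) (nat_lit 1262189410283689620292307169)) (C.cons (nat_lit 114) (C.miq (nat_lit 2316569430) (nat_lit 1415658352402642329421351137))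 (C.cons (nat_lit 112) (C.node (nat_lit 1) (nat_lit 4) (nat_lit 8) (C.cons (nat_lit 786) (C.node (nat_lit 2) (nat_lit 8) (nat_lit 9) (C.cons (nat_lit 836) (C.miq (nat_lit 1766467600) (nat_lit 1876273034568493500135047431)) (C.cons (nat_lit 772) (C.node (nat_lit 2) (nat_lit 6) (nat_lit 8) (C.cons (nat_lit 2372) (C.miq (nat_lit 681883248) (nat_lit 1576477583332582505581840609)) (C.cons (nat_lit 324) (C.node (nat_lit 2) (nat_lit 8) (nat_lit 11) (C.cons (nat_lit 2436) (C.miq (nat_lit 675904336) (nat_lit 950227593052709219046852833)) (C.cons (nat_lit 2308) (C.node (nat_lit 5) (nat_lit 6) (nat_lit 10) (C.cons (nat_lit 1120) (C.node (nat_lit 5) (nat_lit 9) (nat_lit 10) C.nil) C.nil)) C.nil))) C.nil))) C.nil))) (C.cons (nat_lit 274) (C.node (nat_lit 5) (nat_lit 6) (nat_lit 10) (C.cons (nat_lit 1632) (C.node (nat_lit 1) (nat_lit 4) (nat_lit 5) C.nil) (C.cons (nat_lit 1120) (C.node (nat_lit 5) (nat_lit 9) (nat_lit 10) C.nil) C.nil))) C.nil))) C.nil))))))) (C.cons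 (nat_lit 2096) (C.node (nat_lit 4) (nat_lit 8) (nat_lit 11) (C.cons (nat_lit 2320) (C.node (nat_lit 5) (nat_lit 8) (nat_lit 11) (C.cons (nat_lit 2336) (C.node (nat_lit 5) (nat_lit 6) (nat_lit 10) (C.cons (nat_lit 1120) (C.node (nat_lit 5) (nat_lit 9) (nat_lit 10) C.nil) C.nil)) C.nil)) C.nil)) C.nil))) C.nil)) C.nil))) C.nil))))))) C.nil))) C.nil))) (C.cons (nat_lit 3074)
  (C.node (nat_lit 5) (nat_lit 10) (nat_lit 11) (C.cons (nat_lit 3104) (C.node (nat_lit 7) (nat_lit 9) (nat_lit 11) (C.cons (nat_lit 2690) (C.node (nat_lit 9) (nat_lit 6) (nat_lit 11) (C.cons (nat_lit 2628) (C.miq (nat_lit 2544246859) (nat_lit 1779587284697716243460786205)) (C.cons (nat_lit 2624) (C.node (nat_lit 1) (nat_lit 10) (nat_lit 2) (C.cons (nat_lit 1038) (C.node (nat_lit 9) (nat_lit 10) (nat_lit 2) C.nil) (C.cons (nat_lit 1542) (C.miq (nat_lit 649699441) (nat_lit 3172249795855810526739301523)) C.nil))) C.nil))) (C.cons (nat_lit 2688) (C.node (nat_lit 1) (nat_lit 10) (nat_lit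 2) (C.cons (nat_lit 1038) (C.node (nat_lit 9) (nat_lit 10) (nat_lit 2) C.nil) (C.cons (nat_lit 1542) (C.node (nat_lit 10) (nat_lit 2) (nat_lit 3) C.nil) C.nil))) C.nil))) C.nil)) C.nil))) C.nil))))) C.nil))) (C.cons (nat_lit 1284) (C.node (nat_lit 5) (nat_lit 8) (nat_lit 10) (C.cons (nat_lit 1312) (C.node (nat_lit 7) (nat_lit 9) (nat_lit 11) (C.cons (nat_lit 2690) (C.node (nat_lit 6) (nat_lit 9) (nat_lit 11) (C.cons (nat_lit 2628) (C.miq (nat_lit 2544246859) (nat_lit 1779587284697716243460786205)) (C.cons (nat_lit 2624) (C.node (nat_lit 1) (nat_lit 6) (nat_lit 7) (C.cons (nat_lit 206) (C.miq (nat_lit 1181989504) (nat_lit 249077033615270153537785601)) (C.cons (nat_lit 202) (C.miq (nat_lit 1181989504) (nat_lit 244241330336811636838960897)) (C.cons (nat_lit 198) (C.miq (nat_lit 380334601) (nat_lit 3810583805222606177407402629)) (C.cons (nat_lit 194) (C.node (nat_lit 2) (nat_lit 6) (nat_lit 7) (C.cons (nat_lit 212) (C.miq (nat_lit 879168424) (nat_lit 256299523913359417352916737))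 (C.cons (nat_lit 204) (C.miq (nat_lit 1181989504) (nat_lit 246659181976040895188373249)) (C.cons (nat_lit 196) (C.node (nat_lit 1) (nat_lit 3) (nat_lit 7) (C.cons (nat_lit 174) (C.miq (nat_lit 2836597621) (nat_lit 632287850522046498062862561)) (C.cons (nat_lit 170) (C.miq (nat_lit 2836597621) (nat_lit 632287850522046498062600417)) (C.cons (nat_lit 142) (C.miq (nat_lit 2322664242) (nat_lit 1415656987343581313003030557)) (C.cons (nat_lit 138) (C.node (nat_lit 1) (nat_lit 2) (nat_lit 7) (C.cons (nat_lit 166) (C.node (nat_lit 1) (nat_lit 7) (nat_lit 8) (C.cons (nat_lit 386) (C.node (nat_lit 2) (nat_lit 3) (nat_lit 7) (C.cons (nat_lit 140) (C.node (nat_lit 1) (nat_lit 10) (nat_lit 11) (C.cons (nat_lit 3106) (C.miq (nat_lit 2686826865) (nat_lit 44787551993982377141865090)) (C.cons (nat_lit 3078) (C.miq (nat_lit 2048408352) (nat_lit 1549850151219360515041462301)) (C.cons (nat_lit 3074) (C.node (nat_lit 2) (nat_lit 4) (nat_lit 7) C.nil) C.nil)))) C.nil)) C.nil))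 (C.cons (nat_lit 134) (C.node (nat_lit 1) (nat_lit 5) (nat_lit 7) (C.cons (nat_lit 418) (C.node (nat_lit 5) (nat_lit 6) (nat_lit 8) (C.cons (nat_lit 876) (C.miq (nat_lit 829853864) (nat_lit 234547768500263071783063297)) (C.cons (nat_lit 872) (C.miq (nat_lit 829853864) (nat_lit 234547694713286776944856833)) (C.cons (nat_lit 868) (C.miq (nat_lit 1197804169) (nat_lit 2747898736937090985142521601)) (C.cons (nat_lit 864) (C.miq (nat_lit 1197804169) (nat_lit 2747898736937090985142259457)) (C.cons (nat_lit 364) (C.miq (nat_lit 405435744) (nat_lit 1552282353640152277912455393)) (C.cons (nat_lit 360) (C.miq (nat_lit 3011919994) (nat_lit 435271439783212050047566995)) (C.cons (nat_lit 356) (C.miq (nat_lit 405435744) (nat_lit 1552282353640152243552717025)) (C.cons (nat_lit 352) (C.node (nat_lit 2) (nat_lit 3) (nat_lit 7) (C.cons (nat_lit 172) (C.node (nat_lit 2) (nat_lit 10) (nat_lit 11) (C.cons (nat_lit 3110) (C.miq (nat_lit 840436567) (nat_lit 317954740713705324805228769))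 (C.cons (nat_lit 3108) (C.miq (nat_lit 950169781) (nat_lit 1552263925335800701385967841)) (C.cons (nat_lit 3078) (C.miq (nat_lit 2048408352) (nat_lit 1549850151219360515041462301)) C.nil)))) (C.cons (nat_lit 140) (C.node (nat_lit 2) (nat_lit 5) (nat_lit 7) (C.cons (nat_lit 180) (C.node (nat_lit 2) (nat_lit 7) (nat_lit 8) (C.cons (nat_lit 2436) (C.miq (nat_lit 2557807396) (nat_lit 505341342303496194183399453)) (C.cons (nat_lit 388)
  (C.node (nat_lit 2) (nat_lit 7) (nat_lit 11) C.nil) C.nil))) (C.cons (nat_lit 164) (C.node (nat_lit 1) (nat_lit 3) (nat_lit 10) C.nil) C.nil))) C.nil))) C.nil))))))))) (C.cons (nat_lit 162) (C.node (nat_lit 1) (nat_lit 7) (nat_lit 8) (C.cons (nat_lit 386) (C.node (nat_lit 1) (nat_lit 10) (nat_lit 11) (C.cons (nat_lit 3110) (C.miq (nat_lit 2048408352) (nat_lit 1549850151219360652480415773)) (C.cons (nat_lit 3106) (C.node (nat_lit 2) (nat_lit 10) (nat_lit 11) C.nil) (C.cons (nat_lit 3078) (C.miq (nat_lit 2048408352) (nat_lit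 1549850151219360515041462301)) C.nil)))) C.nil)) C.nil))) C.nil))) C.nil))))) C.nil)))) C.nil))))) C.nil))) (C.cons (nat_lit 2688) (C.node (nat_lit 1) (nat_lit 10) (nat_lit 11) (C.cons (nat_lit 3110) (C.miq (nat_lit 2048408352) (nat_lit 1549850151219360652480415773)) (C.cons (nat_lit 3106) (C.node (nat_lit 2) (nat_lit 10) (nat_lit 11) (C.cons (nat_lit 3076) (C.node (nat_lit 2) (nat_lit 5) (nat_lit 10) (C.cons (nat_lit 1572) (C.node (nat_lit 5) (nat_lit 6) (nat_lit 10) C.nil) C.nil)) C.nil)) (C.cons (nat_lit 3078) (C.miq (nat_lit 2048408352) (nat_lit 1549850151219360515041462301)) (C.cons (nat_lit 3074) (C.node (nat_lit 2) (nat_lit 10) (nat_lit 11) (C.cons (nat_lit 3108) (C.node (nat_lit 2) (nat_lit 8) (nat_lit 11) (C.cons (nat_lit 2436) (C.miq (nat_lit 942278581) (nat_lit 1552280398278252489586510049)) (C.cons (nat_lit 2372) (C.miq (nat_lit 681883248) (nat_lit 1576477583332582505581840609)) (C.cons (nat_lit 2308) (C.node (nat_lit 4) (nat_lit 8) (nat_lit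 11) (C.cons (nat_lit 2354) (C.miq (nat_lit 1750729906) (nat_lit 1586130837720533219462613021)) (C.cons (nat_lit 2352) (C.miq (nat_lit 1750729906) (nat_lit 1586130837720533210872678429)) (C.cons (nat_lit 2322) (C.miq (nat_lit 1803723792) (nat_lit 2790220954849055799285056659)) (C.cons (nat_lit 2320) (C.node (nat_lit 2) (nat_lit 3) (nat_lit 7) (C.cons (nat_lit 206) (C.miq (nat_lit 1181989504) (nat_lit 249077033615270153537785601)) (C.cons (nat_lit 204) (C.miq (nat_lit 1181989504) (nat_lit 246659181976040895188373249)) (C.cons (nat_lit 174) (C.miq (nat_lit 950169781) (nat_lit 1552263962229288848805071073)) (C.cons (nat_lit 172) (C.miq (nat_lit 950169781) (nat_lit 1552263925335800701385967841)) (C.cons (nat_lit 142) (C.miq (nat_lit 2322664242) (nat_lit 1415656987343581313003030557)) (C.cons (nat_lit 140) (C.node (nat_lit 1) (nat_lit 4) (nat_lit 11) (C.cons (nat_lit 2098) (C.node (nat_lit 5) (nat_lit 9) (nat_lit 11) (C.cons (nat_lit 2592) (C.node (nat_lit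 2) (nat_lit 7) (nat_lit 11) (C.cons (nat_lit 2182) (C.miq (nat_lit 727281984) (nat_lit 3133547623205233773560005779)) C.nil)) C.nil)) (C.cons (nat_lit 2066) (C.node (nat_lit 4) (nat_lit 5) (nat_lit 11) (C.cons (nat_lit 2096) (C.node (nat_lit 2) (nat_lit 7) (nat_lit 11) C.nil) C.nil)) C.nil))) C.nil))))))) C.nil))))) C.nil)))) C.nil)) C.nil))))) C.nil))) C.nil)) C.nil))) C.nil)) C.nil))) C.nil)) C.nil))) C.nil))) C.nil)))) C.nil))) (C.cons (nat_lit 1216) (C.miq (nat_lit 2271883444) (nat_lit 1470077851316290622212540445)) C.nil)))) (C.cons (nat_lit 3082) (C.miq (nat_lit 1940588614) (nat_lit 3725951305612191924946469201)) (C.cons (nat_lit 3080) (C.miq (nat_lit 1940588614) (nat_lit 3723533453972962666597056849)) C.nil)))) (C.cons (nat_lit 1048) (C.ref (nat_lit 282) (nat_lit 205163983024656)) C.nil))) C.nil)))) C.nil))) List.nil)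

theorem ok12_283 : okL par12 (nat_lit 284) c12_283 (nat_lit 283) = true := by decide +kernel

noncomputable def c12_284 : List C :=
  (List.cons (C.node (nat_lit 2) (nat_lit 7) (nat_lit 10) (C.cons (nat_lit 1188) (C.node (nat_lit 2) (nat_lit 4) (nat_lit 7) (C.cons (nat_lit 212) (C.node (nat_lit 1) (nat_lit 2) (nat_lit 7) (C.cons (nat_lit 142) (C.miq (nat_lit 2322664242) (nat_lit 1415656987343581313003030557)) (C.cons (nat_lit 134) (C.node (nat_lit 2) (nat_lit 3) (nat_lit 7) (C.cons (nat_lit 140) (C.node (nat_lit 6) (nat_lit 7) (nat_lit 10) (C.cons (nat_lit 1728) (C.miq (nat_lit 1689940489) (nat_lit 3733194807003415877559321221)) (C.cons (nat_lit 1216) (C.node (nat_lit 7) (nat_lit 9) (nat_lit 10) (C.cons (nat_lit 1664) (C.node (nat_lit 6) (nat_lit 10) (nat_lit 11) (C.cons (nat_lit 3138) (C.miq (nat_lit 1634904976) (nat_lit 162016223002912904372883201)) (C.cons (nat_lit 3136) (C.node (nat_lit 2) (nat_lit 4) (nat_lit 10) (C.cons (nat_lit 1556) (C.miq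 (nat_lit 1805938834) (nat_lit 3733166842319527637052293765)) (C.cons (nat_lit 1300) (C.miq (nat_lit 1803710628) (nat_lit 2944947207930789415127090323)) (C.cons (nat_lit 1044) (C.node (nat_lit 2) (nat_lit 8) (nat_lit 10) (C.cons (nat_lit 1292) (C.miq (nat_lit 1461914506) (nat_lit 169269261168289669819666177)) (C.cons (nat_lit 1284) (C.node (nat_lit 4) (nat_lit 5) (nat_lit 7) (C.cons (nat_lit 432) (C.miq (nat_lit 1477080162) (nat_lit 4643505987993348864408355028)) (C.cons (nat_lit 184) (C.miq (nat_lit 2722301557) (nat_lit 2510958573429676356627073249)) (C.cons (nat_lit 176) (C.node (nat_lit 4) (nat_lit 7) (nat_lit 8) (C.cons (nat_lit 912) (C.miq (nat_lit 2823162226) (nat_lit 407428164582551898985595525)) (C.cons (nat_lit 400) (C.node (nat_lit 7) (nat_lit 8) (nat_lit 9) (C.cons (nat_lit 960) (C.miq (nat_lit 3093563762) (nat_lit 407446316178720635342815877)) (C.cons (nat_lit 928) (C.miq (nat_lit 659863696) (nat_lit 212809258825292858520571649)) (C.cons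 (nat_lit 896) (C.node (nat_lit 1) (nat_lit 10) (nat_lit 11) (C.cons (nat_lit 3106) (C.node (nat_lit 2) (nat_lit 5) (nat_lit 11) (C.cons (nat_lit 2596) (C.miq (nat_lit 354921360) (nat_lit 1436225475713762200876551937)) (C.cons (nat_lit 2084) (C.node (nat_lit 2) (nat_lit 9) (nat_lit 11) (C.cons (nat_lit 2628) (C.miq (nat_lit 2454369904) (nat_lit 1262189410361377126186420449)) (C.cons (nat_lit 2564) (C.node (nat_lit 4) (nat_lit 5) (nat_lit 11) (C.cons (nat_lit 2352) (C.miq (nat_lit 1484344096) (nat_lit 1083207883660172699401259037)) (C.cons (nat_lit 2096) (C.node (nat_lit 5) (nat_lit 8) (nat_lit 11) (C.cons (nat_lit 2344) (C.miq (nat_lit 461874480) (nat_lit 2944964898592818328561583145)) (C.cons (nat_lit 2336) (C.node (nat_lit 3) (nat_lit 5) (nat_lit 11) (C.cons (nat_lit 2600) (C.miq (nat_lit 893892874) (nat_lit 212830122139000543990976257)) (C.cons (nat_lit 2088) (C.node (nat_lit 5) (nat_lit 9) (nat_lit 11) (C.cons (nat_lit 2592) (C.node (nat_lit 3)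 (nat_lit 4) (nat_lit 7) (C.cons (nat_lit 664) (C.node (nat_lit 5) (nat_lit 7) (nat_lit 9) C.nil) C.nil)) C.nil)) C.nil))) C.nil))) C.nil))) C.nil))) C.nil))) (C.cons (nat_lit 3074) (C.node (nat_lit 5) (nat_lit 10) (nat_lit 11) (C.cons (nat_lit 3104) (C.node (nat_lit 3) (nat_lit 4) (nat_lit 7) (C.cons (nat_lit 664) (C.node (nat_lit 5) (nat_lit 7) (nat_lit 9) (C.cons (nat_lit 672) (C.node (nat_lit 6) (nat_lit 7) (nat_lit 9) C.nil) C.nil)) (C.cons (nat_lit 152) (C.node (nat_lit 4) (nat_lit 7) (nat_lit 9) C.nil) C.nil))) C.nil)) C.nil))) C.nil)))) C.nil))) C.nil)))) C.nil))) C.nil)))) C.nil))) C.nil)) C.nil))) C.nil)) C.nil))) (C.cons (nat_lit 148) (C.node (nat_lit 4) (nat_lit 9) (nat_lit 11) (C.cons (nat_lit 2640) (C.node (nat_lit 3) (nat_lit 9) (nat_lit 11) (C.cons (nat_lit 2600) (C.miq (nat_lit 2710767541) (nat_lit 632287849770508310404401377)) (C.cons (nat_lit 2568) (C.node (nat_lit 4) (nat_lit 6) (nat_lit 7) (C.cons (nat_lit 216) (C.miq (nat_lit 1755791539)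 (nat_lit 1702171538608991363580561437)) (C.cons (nat_lit 208) (C.node (nat_lit 6) (nat_lit 10) (nat_lit 11) (C.cons (nat_lit 3138) (C.miq (nat_lit 649660951) (nat_lit 3191576062240214191213511827)) (C.cons (nat_lit 3136) (C.node (nat_lit 1) (nat_lit 2) (nat_lit 7)
  (C.cons (nat_lit 206) (C.miq (nat_lit 2322664242) (nat_lit 1415656987343581313007224861)) (C.cons (nat_lit 198) (C.miq (nat_lit 380334601) (nat_lit 3791240992108772110612103813)) (C.cons (nat_lit 142) (C.miq (nat_lit 2322664242) (nat_lit 1415656987343581313003030557)) (C.cons (nat_lit 134) (C.node (nat_lit 1) (nat_lit 10) (nat_lit 11) (C.cons (nat_lit 3106) (C.node (nat_lit 2) (nat_lit 5) (nat_lit 11) (C.cons (nat_lit 2596) (C.miq (nat_lit 354921360) (nat_lit 1436225475713762200876551937)) (C.cons (nat_lit 2084) (C.node (nat_lit 2) (nat_lit 9) (nat_lit 11) (C.cons (nat_lit 2564) (C.node (nat_lit 5) (nat_lit 9) (nat_lit 11) (C.cons (nat_lit 2592) (C.node (nat_lit 3) (nat_lit 5) (nat_lit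 11) (C.cons (nat_lit 2344) (C.miq (nat_lit 461874480) (nat_lit 2944964898592818328561583145)) (C.cons (nat_lit 2088) (C.node (nat_lit 5) (nat_lit 9) (nat_lit 10) (C.cons (nat_lit 1632) (C.miq (nat_lit 980092308) (nat_lit 3791229684498696046373765681)) (C.cons (nat_lit 1568) (C.node (nat_lit 3) (nat_lit 8) (nat_lit 11) (C.cons (nat_lit 2378) (C.miq (nat_lit 910669834) (nat_lit 251515748304180270679133953)) (C.cons (nat_lit 2376) (C.miq (nat_lit 910669834) (nat_lit 251515748303617320725712641)) (C.cons (nat_lit 2314) (C.miq (nat_lit 2274472451) (nat_lit 3252053141214814857417394205)) (C.cons (nat_lit 2312) (C.node (nat_lit 1) (nat_lit 2) (nat_lit 11) (C.cons (nat_lit 2054) (C.node (nat_lit 2) (nat_lit 6) (nat_lit 11) C.nil) C.nil)) C.nil))))) C.nil))) C.nil))) C.nil)) C.nil)) C.nil))) (C.cons (nat_lit 3074) (C.node (nat_lit 5) (nat_lit 10) (nat_lit 11) (C.cons (nat_lit 3104) (C.node (nat_lit 2) (nat_lit 3) (nat_lit 7) (C.cons (nat_lit 204) (C.node (nat_lit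 1) (nat_lit 3) (nat_lit 7) (C.cons (nat_lit 170) (C.miq (nat_lit 2836597621) (nat_lit 632287850522046498062600417)) (C.cons (nat_lit 138) (C.node (nat_lit 6) (nat_lit 7) (nat_lit 10) (C.cons (nat_lit 1728) (C.miq (nat_lit 1000743063) (nat_lit 3791195134031908152337760901)) (C.cons (nat_lit 1216) (C.node (nat_lit 7) (nat_lit 9) (nat_lit 10) (C.cons (nat_lit 1664) (C.node (nat_lit 6) (nat_lit 7) (nat_lit 9) (C.cons (nat_lit 960) (C.miq (nat_lit 1181989248) (nat_lit 246659181831923508089261825)) (C.cons (nat_lit 704) (C.node (nat_lit 2) (nat_lit 3) (nat_lit 9) (C.cons (nat_lit 1548) (C.miq (nat_lit 1805873298) (nat_lit 3878237793099330548340097669)) (C.cons (nat_lit 812) (C.miq (nat_lit 324667687) (nat_lit 1287527599174105285357994629)) (C.cons (nat_lit 780) (C.miq (nat_lit 649672456) (nat_lit 3191578552300429172635926921)) (C.cons (nat_lit 556) (C.miq (nat_lit 324667687) (nat_lit 1287527599174104185846366853)) (C.cons (nat_lit 524) (C.node (nat_lit 1)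 (nat_lit 5) (nat_lit 7) (C.cons (nat_lit 418) (C.node (nat_lit 1) (nat_lit 6) (nat_lit 7) (C.cons (nat_lit 194) (C.node (nat_lit 6) (nat_lit 7) (nat_lit 8) C.nil) C.nil)) (C.cons (nat_lit 162) (C.node (nat_lit 1) (nat_lit 6) (nat_lit 7) (C.cons (nat_lit 450) (C.node (nat_lit 2) (nat_lit 6) (nat_lit 11) (C.cons (nat_lit 2118) (C.miq (nat_lit 840436583) (nat_lit 317954740713701064199768289)) (C.cons (nat_lit 2116) (C.node (nat_lit 6) (nat_lit 8) (nat_lit 11) (C.cons (nat_lit 2376) (C.miq (nat_lit 1194724024) (nat_lit 246627084083758167897935617)) C.nil)) C.nil))) C.nil)) C.nil))) C.nil)))))) C.nil))) C.nil)) C.nil))) C.nil))) (C.cons (nat_lit 140) (C.node (nat_lit 2) (nat_lit 6) (nat_lit 7) (C.cons (nat_lit 196) (C.node (nat_lit 2) (nat_lit 6) (nat_lit 11) (C.cons (nat_lit 2118) (C.node (nat_lit 3) (nat_lit 6) (nat_lit 11) (C.cons (nat_lit 2376) (C.miq (nat_lit 910669834) (nat_lit 251515748303617320725712641)) (C.cons (nat_lit 2120) (C.node (nat_lit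 6) (nat_lit 8) (nat_lit 11) (C.cons (nat_lit 2368) (C.node (nat_lit 6) (nat_lit 7) (nat_lit 8) (C.cons (nat_lit 960) (C.miq (nat_lit 879168408) (nat_lit 251463820634898701597282049)) (C.cons (nat_lit 450) (C.miq (nat_lit 840436583) (nat_lit 317954740713701064199768289)) (C.cons (nat_lit 448) (C.node (nat_lit 1) (nat_lit 6) (nat_lit 7) (C.cons (nat_lit 202) (C.node (nat_lit 2) (nat_lit 5) (nat_lit 11)
  (C.cons (nat_lit 2084) (C.node (nat_lit 1) (nat_lit 6) (nat_lit 9) (C.cons (nat_lit 1634) (C.miq (nat_lit 2796771648) (nat_lit 2562942383825393801844556337)) (C.cons (nat_lit 1602) (C.miq (nat_lit 2792919344) (nat_lit 541669621582264768955744779)) (C.cons (nat_lit 866) (C.miq (nat_lit 1175632256) (nat_lit 2560543200574323344741437185)) (C.cons (nat_lit 834) (C.miq (nat_lit 1175632256) (nat_lit 2560543200574323207302483713)) (C.cons (nat_lit 610) (C.miq (nat_lit 558937748) (nat_lit 42350718170119736493410896)) C.nil)))))) C.nil)) (C.cons (nat_lit 194)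 (C.node (nat_lit 1) (nat_lit 3) (nat_lit 7) (C.cons (nat_lit 170) (C.miq (nat_lit 2836597621) (nat_lit 632287850522046498062600417)) C.nil)) C.nil))) C.nil)))) C.nil)) C.nil))) (C.cons (nat_lit 2116) (C.node (nat_lit 1) (nat_lit 2) (nat_lit 11) (C.cons (nat_lit 2086) (C.node (nat_lit 2) (nat_lit 9) (nat_lit 11) (C.cons (nat_lit 2564) (C.node (nat_lit 5) (nat_lit 9) (nat_lit 11) (C.cons (nat_lit 2592) (C.node (nat_lit 1) (nat_lit 4) (nat_lit 11) (C.cons (nat_lit 2066) (C.node (nat_lit 3) (nat_lit 5) (nat_lit 11) C.nil) C.nil)) C.nil)) C.nil)) (C.cons (nat_lit 2054) (C.node (nat_lit 2) (nat_lit 5) (nat_lit 11) (C.cons (nat_lit 2596) (C.node (nat_lit 1) (nat_lit 4) (nat_lit 9) (C.cons (nat_lit 786) (C.miq (nat_lit 1729366936) (nat_lit 1415658351961287779276689153)) (C.cons (nat_lit 534) (C.miq (nat_lit 1494725184) (nat_lit 3252052384943343354900580381)) (C.cons (nat_lit 530) (C.node (nat_lit 2) (nat_lit 4) (nat_lit 9) (C.cons (nat_lit 1556) (C.miq (nat_lit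 1380432288) (nat_lit 178962951482960382254059265)) (C.cons (nat_lit 788) (C.miq (nat_lit 1461980041) (nat_lit 178931370566193553570270977)) (C.cons (nat_lit 532) (C.node (nat_lit 4) (nat_lit 9) (nat_lit 10) (C.cons (nat_lit 1560) (C.miq (nat_lit 2507817139) (nat_lit 1436232650780851671057041437)) (C.cons (nat_lit 1552) (C.node (nat_lit 4) (nat_lit 5) (nat_lit 11) (C.cons (nat_lit 2354) (C.miq (nat_lit 2224207111) (nat_lit 643193472966140782107232481)) (C.cons (nat_lit 2352) (C.miq (nat_lit 2224207111) (nat_lit 643193472965577832153811169)) (C.cons (nat_lit 2098) (C.miq (nat_lit 1500623364) (nat_lit 3252049156763130932470417437)) (C.cons (nat_lit 2096) (C.node (nat_lit 1) (nat_lit 4) (nat_lit 11) (C.cons (nat_lit 2066) (C.node (nat_lit 4) (nat_lit 8) (nat_lit 11) C.nil) C.nil)) C.nil))))) C.nil))) C.nil)))) C.nil)))) (C.cons (nat_lit 2084) (C.node (nat_lit 2) (nat_lit 9) (nat_lit 11) (C.cons (nat_lit 2564) (C.node (nat_lit 5) (nat_lit 9) (nat_lit 11)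 C.nil) C.nil)) C.nil))) C.nil))) C.nil))) C.nil)) C.nil))) C.nil)) C.nil))) C.nil))))) C.nil))) C.nil))) C.nil))) (C.cons (nat_lit 2576) (C.node (nat_lit 4) (nat_lit 6) (nat_lit 11) (C.cons (nat_lit 2130) (C.node (nat_lit 6) (nat_lit 10) (nat_lit 11) (C.cons (nat_lit 3136) (C.node (nat_lit 2) (nat_lit 6) (nat_lit 11) (C.cons (nat_lit 2628) (C.miq (nat_lit 1769058820) (nat_lit 3252049747067948490430810141)) (C.cons (nat_lit 2116) (C.node (nat_lit 6) (nat_lit 8) (nat_lit 11) (C.cons (nat_lit 2376) (C.miq (nat_lit 1805943664) (nat_lit 3733169148191526054607913353)) (C.cons (nat_lit 2368) (C.node (nat_lit 1) (nat_lit 4) (nat_lit 9) (C.cons (nat_lit 786) (C.miq (nat_lit 1900460416) (nat_lit 2575053925985610747153026817)) (C.cons (nat_lit 534) (C.miq (nat_lit 1637332000) (nat_lit 3252052384812176015718942749)) (C.cons (nat_lit 530) (C.node (nat_lit 1) (nat_lit 2) (nat_lit 7) (C.cons (nat_lit 206) (C.miq (nat_lit 2322664242) (nat_lit 1415656987343581313007224861))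 (C.cons (nat_lit 198) (C.miq (nat_lit 2870348146) (nat_lit 2575032159151589645684703877)) (C.cons (nat_lit 142) (C.miq (nat_lit 2322664242) (nat_lit 1415656987343581313003030557)) (C.cons (nat_lit 134) (C.node (nat_lit 1) (nat_lit 2) (nat_lit 4) (C.cons (nat_lit 54) (C.node (nat_lit 1) (nat_lit 2) (nat_lit 11) (C.cons (nat_lit 2054) (C.node (nat_lit 1) (nat_lit 3) (nat_lit 4) (C.cons (nat_lit 282) (C.miq (nat_lit 834110560) (nat_lit 3252017704413158539675107665)) (C.cons (nat_lit 26) (C.node (nat_lit 1) (nat_lit 4) (nat_lit 8)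
  (C.cons (nat_lit 274) (C.node (nat_lit 2) (nat_lit 5) (nat_lit 11) (C.cons (nat_lit 2596) (C.miq (nat_lit 2871069012) (nat_lit 2483155235706915174015697457)) (C.cons (nat_lit 2084) (C.node (nat_lit 2) (nat_lit 9) (nat_lit 11) (C.cons (nat_lit 2564) (C.node (nat_lit 5) (nat_lit 9) (nat_lit 11) (C.cons (nat_lit 2600) (C.miq (nat_lit 2710767541) (nat_lit 632287849770508310404401377)) (C.cons (nat_lit 2592) (C.node (nat_lit 1) (nat_lit 10) (nat_lit 11) (C.cons (nat_lit 3106) (C.node (nat_lit 1) (nat_lit 3) (nat_lit 11) C.nil) C.nil)) C.nil))) C.nil)) C.nil))) C.nil)) C.nil))) C.nil)) (C.cons (nat_lit 22) (C.node (nat_lit 1) (nat_lit 2) (nat_lit 11) (C.cons (nat_lit 2086) (C.node (nat_lit 1) (nat_lit 10) (nat_lit 11) (C.cons (nat_lit 3074) (C.node (nat_lit 2) (nat_lit 9) (nat_lit 11) (C.cons (nat_lit 2564) (C.node (nat_lit 5) (nat_lit 10) (nat_lit 11) (C.cons (nat_lit 3104) (C.node (nat_lit 1) (nat_lit 3) (nat_lit 11) (C.cons (nat_lit 2058) (C.node (nat_lit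 1) (nat_lit 8) (nat_lit 11) C.nil) C.nil)) C.nil)) C.nil)) C.nil)) (C.cons (nat_lit 2054) (C.node (nat_lit 1) (nat_lit 10) (nat_lit 11) (C.cons (nat_lit 3106) (C.node (nat_lit 1) (nat_lit 3) (nat_lit 11) (C.cons (nat_lit 2314) (C.miq (nat_lit 2274472451) (nat_lit 3252053141214814857417394205)) (C.cons (nat_lit 2058) (C.node (nat_lit 1) (nat_lit 8) (nat_lit 11) (C.cons (nat_lit 2306) (C.node (nat_lit 2) (nat_lit 5) (nat_lit 11) (C.cons (nat_lit 2084) (C.node (nat_lit 2) (nat_lit 9) (nat_lit 11) C.nil) C.nil)) C.nil)) C.nil))) (C.cons (nat_lit 3074) (C.node (nat_lit 5) (nat_lit 10) (nat_lit 11) (C.cons (nat_lit 3104) (C.node (nat_lit 2) (nat_lit 3) (nat_lit 7) (C.cons (nat_lit 204) (C.node (nat_lit 1) (nat_lit 3) (nat_lit 7) (C.cons (nat_lit 170) (C.miq (nat_lit 2836597621) (nat_lit 632287850522046498062600417)) (C.cons (nat_lit 138) (C.node (nat_lit 1) (nat_lit 6) (nat_lit 7) (C.cons (nat_lit 450) (C.miq (nat_lit 946538260) (nat_lit 2862774654845504579165095059))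 (C.cons (nat_lit 194) (C.node (nat_lit 6) (nat_lit 7) (nat_lit 8) (C.cons (nat_lit 960) (C.miq (nat_lit 998645911) (nat_lit 2862740104567872946113086085)) (C.cons (nat_lit 448) (C.node (nat_lit 6) (nat_lit 7) (nat_lit 10) (C.cons (nat_lit 1728) (C.miq (nat_lit 1000743063) (nat_lit 3791195134031908152337760901)) (C.cons (nat_lit 1216) (C.node (nat_lit 7) (nat_lit 9) (nat_lit 10) (C.cons (nat_lit 1664) (C.node (nat_lit 1) (nat_lit 5) (nat_lit 7) C.nil) C.nil)) C.nil))) C.nil))) C.nil))) C.nil))) (C.cons (nat_lit 140) (C.node (nat_lit 2) (nat_lit 6) (nat_lit 7) (C.cons (nat_lit 196) (C.node (nat_lit 2) (nat_lit 5) (nat_lit 11) (C.cons (nat_lit 2596) (C.node (nat_lit 3) (nat_lit 6) (nat_lit 11) (C.cons (nat_lit 2120) (C.node (nat_lit 3) (nat_lit 9) (nat_lit 11) C.nil) C.nil)) (C.cons (nat_lit 2084) (C.node (nat_lit 2) (nat_lit 9) (nat_lit 11) C.nil) C.nil))) C.nil)) C.nil))) C.nil)) C.nil))) C.nil))) C.nil))) C.nil))))) C.nil)))) C.nil))) C.nil))) C.nil))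 (C.cons (nat_lit 2128) (C.node (nat_lit 5) (nat_lit 10) (nat_lit 11) (C.cons (nat_lit 3106) (C.node (nat_lit 6) (nat_lit 10) (nat_lit 11) (C.cons (nat_lit 3136) (C.node (nat_lit 2) (nat_lit 5) (nat_lit 11) (C.cons (nat_lit 2596) (C.miq (nat_lit 354921360) (nat_lit 1436225475713762200876551937)) (C.cons (nat_lit 2084) (C.node (nat_lit 2) (nat_lit 9) (nat_lit 11) (C.cons (nat_lit 2628) (C.miq (nat_lit 459962656) (nat_lit 3791212972205966380360860293)) (C.cons (nat_lit 2564) (C.node (nat_lit 5) (nat_lit 9) (nat_lit 11) (C.cons (nat_lit 2600) (C.miq (nat_lit 2710767541) (nat_lit 632287849770508310404401377)) (C.cons (nat_lit 2592) (C.node (nat_lit 3) (nat_lit 5) (nat_lit 11) (C.cons (nat_lit 2344) (C.miq (nat_lit 461874480) (nat_lit 2944964898592818328561583145)) (C.cons (nat_lit 2088) (C.node (nat_lit 3) (nat_lit 8) (nat_lit 11) (C.cons (nat_lit 2376) (C.miq (nat_lit 1805943664) (nat_lit 3733169148191526054607913353)) (C.cons (nat_lit 2314) (C.miq (nat_lit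 2274472451) (nat_lit 3252053141214814857417394205)) (C.cons (nat_lit 2312)
  (C.node (nat_lit 1) (nat_lit 2) (nat_lit 11) (C.cons (nat_lit 2118) (C.node (nat_lit 1) (nat_lit 3) (nat_lit 11) C.nil) C.nil)) C.nil)))) C.nil))) C.nil))) C.nil))) C.nil))) C.nil)) (C.cons (nat_lit 3104) (C.node (nat_lit 1) (nat_lit 10) (nat_lit 11) (C.cons (nat_lit 3138) (C.node (nat_lit 2) (nat_lit 6) (nat_lit 11) (C.cons (nat_lit 2628) (C.node (nat_lit 3) (nat_lit 6) (nat_lit 11) (C.cons (nat_lit 2376) (C.miq (nat_lit 1805943664) (nat_lit 3733169148191526054607913353)) (C.cons (nat_lit 2120) (C.node (nat_lit 6) (nat_lit 8) (nat_lit 11) (C.cons (nat_lit 2368) (C.node (nat_lit 3) (nat_lit 9) (nat_lit 11) (C.cons (nat_lit 2600) (C.miq (nat_lit 2710767541) (nat_lit 632287849770508310404401377)) (C.cons (nat_lit 2568) (C.node (nat_lit 5) (nat_lit 9) (nat_lit 11) (C.cons (nat_lit 2592) (C.node (nat_lit 1) (nat_lit 2) (nat_lit 11) (C.cons (nat_lit 2054) (C.node (nat_lit 2) (nat_lit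 5) (nat_lit 11) C.nil) C.nil)) C.nil)) C.nil))) C.nil)) C.nil))) (C.cons (nat_lit 2116) (C.miq (nat_lit 2456514721) (nat_lit 2558136656227669666955396243)) C.nil))) (C.cons (nat_lit 3074) (C.node (nat_lit 6) (nat_lit 10) (nat_lit 11) (C.cons (nat_lit 3136) (C.node (nat_lit 1) (nat_lit 2) (nat_lit 7) (C.cons (nat_lit 206) (C.miq (nat_lit 2322664242) (nat_lit 1415656987343581313007224861)) (C.cons (nat_lit 198) (C.miq (nat_lit 1789993111) (nat_lit 3716241622258365324228428421)) (C.cons (nat_lit 142) (C.miq (nat_lit 2322664242) (nat_lit 1415656987343581313003030557)) (C.cons (nat_lit 134) (C.node (nat_lit 2) (nat_lit 3) (nat_lit 7) (C.cons (nat_lit 204) (C.node (nat_lit 1) (nat_lit 3) (nat_lit 7) (C.cons (nat_lit 170) (C.miq (nat_lit 2836597621) (nat_lit 632287850522046498062600417)) (C.cons (nat_lit 138) (C.node (nat_lit 6) (nat_lit 7) (nat_lit 10) (C.cons (nat_lit 1728) (C.miq (nat_lit 1000743063) (nat_lit 3791195134031908152337760901)) (C.cons (nat_lit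 1216) (C.node (nat_lit 7) (nat_lit 9) (nat_lit 10) (C.cons (nat_lit 1664) (C.node (nat_lit 9) (nat_lit 2) (nat_lit 3) (C.cons (nat_lit 812) (C.miq (nat_lit 441648937) (nat_lit 1287515645866342921360114309)) (C.cons (nat_lit 556) (C.miq (nat_lit 441648937) (nat_lit 1287515645866342921343337093)) (C.cons (nat_lit 1548) (C.miq (nat_lit 1672180368) (nat_lit 3878275958830437478378308229)) (C.cons (nat_lit 780) (C.miq (nat_lit 2422442866) (nat_lit 88265974373400571223476612)) (C.cons (nat_lit 524) (C.node (nat_lit 1) (nat_lit 5) (nat_lit 7) (C.cons (nat_lit 418) (C.node (nat_lit 1) (nat_lit 6) (nat_lit 7) (C.cons (nat_lit 194) (C.node (nat_lit 8) (nat_lit 6) (nat_lit 7) (C.cons (nat_lit 960) (C.miq (nat_lit 2419493671) (nat_lit 88269294787332997129177476)) (C.cons (nat_lit 448) (C.node (nat_lit 5) (nat_lit 7) (nat_lit 4) (C.cons (nat_lit 184) (C.miq (nat_lit 2591361844) (nat_lit 1436214223406763974422169629)) (C.cons (nat_lit 176) (C.node (nat_lit 8) (nat_lit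 9) (nat_lit 7) (C.cons (nat_lit 912) (C.node (nat_lit 9) (nat_lit 6) (nat_lit 7) C.nil) C.nil)) C.nil))) C.nil))) C.nil)) (C.cons (nat_lit 162) (C.node (nat_lit 1) (nat_lit 8) (nat_lit 7) (C.cons (nat_lit 450) (C.node (nat_lit 8) (nat_lit 6) (nat_lit 11) (C.cons (nat_lit 2376) (C.miq (nat_lit 2556889906) (nat_lit 544028518057666261679867933)) (C.cons (nat_lit 2368) (C.node (nat_lit 6) (nat_lit 2) (nat_lit 11) (C.cons (nat_lit 2628) (C.miq (nat_lit 2524492336) (nat_lit 544087473510287362000226333)) (C.cons (nat_lit 2118) (C.miq (nat_lit 840436583) (nat_lit 317954740713701064199768289)) (C.cons (nat_lit 2116) (C.node (nat_lit 9) (nat_lit 6) (nat_lit 7) (C.cons (nat_lit 704) (C.node (nat_lit 6) (nat_lit 7) (nat_lit 4) C.nil) C.nil)) C.nil)))) C.nil))) (C.cons (nat_lit 386) (C.node (nat_lit 1) (nat_lit 6) (nat_lit 7) (C.cons (nat_lit 194) (C.node (nat_lit 8) (nat_lit 6) (nat_lit 7) (C.cons (nat_lit 960) (C.miq (nat_lit 2419493671) (nat_lit 88269294787332997129177476))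 C.nil)) C.nil)) C.nil))) C.nil))) C.nil)))))) C.nil)) C.nil))) C.nil))) (C.cons (nat_lit 140) (C.node (nat_lit 2) (nat_lit 6) (nat_lit 7) (C.cons (nat_lit 196)
  (C.node (nat_lit 6) (nat_lit 7) (nat_lit 10) (C.cons (nat_lit 1728) (C.node (nat_lit 4) (nat_lit 6) (nat_lit 7) (C.cons (nat_lit 216) (C.miq (nat_lit 2322991924) (nat_lit 2089030033927991217826039837)) (C.cons (nat_lit 208) (C.node (nat_lit 3) (nat_lit 9) (nat_lit 10) (C.cons (nat_lit 1560) (C.miq (nat_lit 1470696244) (nat_lit 2089034165557310965371373597)) (C.cons (nat_lit 1548) (C.miq (nat_lit 1782282528) (nat_lit 3878275959259405342769742469)) (C.cons (nat_lit 1544) (C.node (nat_lit 4) (nat_lit 9) (nat_lit 10) (C.cons (nat_lit 1556) (C.miq (nat_lit 1783331104) (nat_lit 3733204860905649876164739717)) (C.cons (nat_lit 1552) (C.node (nat_lit 2) (nat_lit 9) (nat_lit 10) (C.cons (nat_lit 1542) (C.miq (nat_lit 1729235866) (nat_lit 162016222759437049576951553)) (C.cons (nat_lit 1540) (C.node (nat_lit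 3) (nat_lit 9) (nat_lit 11) (C.cons (nat_lit 2632) (C.miq (nat_lit 913619360) (nat_lit 251494885108133523560271617)) (C.cons (nat_lit 2600) (C.miq (nat_lit 1245251509) (nat_lit 1866591814438033772958451937)) (C.cons (nat_lit 2568) (C.node (nat_lit 6) (nat_lit 9) (nat_lit 11) (C.cons (nat_lit 2628) (C.miq (nat_lit 645183904) (nat_lit 251494885107007623653428993)) (C.cons (nat_lit 2624) (C.node (nat_lit 1) (nat_lit 2) (nat_lit 10) (C.cons (nat_lit 1038) (C.node (nat_lit 1) (nat_lit 9) (nat_lit 10) (C.cons (nat_lit 1570) (C.miq (nat_lit 1168247059) (nat_lit 1436242187747534759391003147)) C.nil)) (C.cons (nat_lit 1030) (C.node (nat_lit 1) (nat_lit 9) (nat_lit 10) C.nil) C.nil))) C.nil))) C.nil)))) C.nil))) C.nil))) C.nil)))) C.nil))) (C.cons (nat_lit 1216) (C.node (nat_lit 7) (nat_lit 9) (nat_lit 10) (C.cons (nat_lit 1664) (C.ref (nat_lit 255) (nat_lit 198128827013136)) C.nil)) C.nil))) C.nil)) C.nil))) C.nil))))) C.nil)) C.nil))) C.nil))) C.nil))) C.nil)))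 C.nil))) (C.cons (nat_lit 1156) (C.node (nat_lit 5) (nat_lit 7) (nat_lit 10) (C.cons (nat_lit 1696) (C.miq (nat_lit 2545179184) (nat_lit 2649975745696087840906871849)) (C.cons (nat_lit 1184) (C.node (nat_lit 4) (nat_lit 9) (nat_lit 11) (C.cons (nat_lit 2640) (C.node (nat_lit 3) (nat_lit 9) (nat_lit 11) (C.cons (nat_lit 2600) (C.miq (nat_lit 2710767541) (nat_lit 632287849770508310404401377)) (C.cons (nat_lit 2568) (C.node (nat_lit 6) (nat_lit 10) (nat_lit 11) (C.cons (nat_lit 3138) (C.miq (nat_lit 649660951) (nat_lit 3191576062240214191213511827)) (C.cons (nat_lit 3136) (C.node (nat_lit 1) (nat_lit 10) (nat_lit 11) (C.cons (nat_lit 3106) (C.node (nat_lit 2) (nat_lit 5) (nat_lit 11) (C.cons (nat_lit 2596) (C.miq (nat_lit 1376434545) (nat_lit 1321413217156594439692683906)) (C.cons (nat_lit 2084) (C.node (nat_lit 2) (nat_lit 9) (nat_lit 11) (C.cons (nat_lit 2564) (C.node (nat_lit 5) (nat_lit 9) (nat_lit 11) (C.cons (nat_lit 2592) (C.node (nat_lit 3) (nat_lit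 5) (nat_lit 11) (C.cons (nat_lit 2344) (C.miq (nat_lit 461874480) (nat_lit 2944964898592818328561583145)) (C.cons (nat_lit 2088) (C.node (nat_lit 3) (nat_lit 8) (nat_lit 11) (C.cons (nat_lit 2378) (C.miq (nat_lit 2274472451) (nat_lit 3252054321806435574828697629)) (C.cons (nat_lit 2376) (C.miq (nat_lit 1805943664) (nat_lit 3733169148191526054607913353)) (C.cons (nat_lit 2314) (C.miq (nat_lit 2274472451) (nat_lit 3252053141214814857417394205)) (C.cons (nat_lit 2312) (C.node (nat_lit 1) (nat_lit 2) (nat_lit 11) (C.cons (nat_lit 2054) (C.node (nat_lit 2) (nat_lit 6) (nat_lit 11) C.nil) C.nil)) C.nil))))) C.nil))) C.nil)) C.nil)) C.nil))) (C.cons (nat_lit 3074) (C.node (nat_lit 5) (nat_lit 10) (nat_lit 11) (C.cons (nat_lit 3104) (C.node (nat_lit 2) (nat_lit 6) (nat_lit 11) (C.cons (nat_lit 2118) (C.node (nat_lit 3) (nat_lit 6) (nat_lit 11) (C.cons (nat_lit 2376) (C.miq (nat_lit 1805943664) (nat_lit 3733169148191526054607913353)) (C.cons (nat_lit 2120)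 (C.node (nat_lit 6) (nat_lit 8) (nat_lit 11) (C.cons (nat_lit 2368) (C.node (nat_lit 6) (nat_lit 7) (nat_lit 8) (C.cons (nat_lit 960) (C.miq (nat_lit 2041808448) (nat_lit 3104528754611016004991254865)) (C.cons (nat_lit 450) (C.miq (nat_lit 840436583) (nat_lit 317954740713701064199768289))
  (C.cons (nat_lit 448) (C.node (nat_lit 1) (nat_lit 6) (nat_lit 7) (C.cons (nat_lit 202) (C.node (nat_lit 2) (nat_lit 3) (nat_lit 7) (C.cons (nat_lit 172) (C.miq (nat_lit 2270868016) (nat_lit 1431439025053381843311200285)) (C.cons (nat_lit 140) (C.node (nat_lit 1) (nat_lit 6) (nat_lit 9) (C.cons (nat_lit 1634) (C.miq (nat_lit 2796771648) (nat_lit 2562942383825393801844556337)) (C.cons (nat_lit 1602) (C.miq (nat_lit 2792919344) (nat_lit 541669621582264768955744779)) (C.cons (nat_lit 866) (C.miq (nat_lit 1175632256) (nat_lit 2560543200574323344741437185)) (C.cons (nat_lit 834) (C.miq (nat_lit 1175632256) (nat_lit 2560543200574323207302483713)) (C.cons (nat_lit 610)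 (C.miq (nat_lit 558937748) (nat_lit 42350718170119736493410896)) (C.cons (nat_lit 578) (C.node (nat_lit 1) (nat_lit 4) (nat_lit 9) (C.cons (nat_lit 786) (C.miq (nat_lit 1729366936) (nat_lit 1415658351961287779276689153)) (C.cons (nat_lit 534) (C.miq (nat_lit 1444481828) (nat_lit 698769473000482732877678621)) (C.cons (nat_lit 530) (C.node (nat_lit 3) (nat_lit 8) (nat_lit 10) (C.cons (nat_lit 1352) (C.miq (nat_lit 2299964275) (nat_lit 698784064816400257314851976)) (C.cons (nat_lit 1304) (C.miq (nat_lit 1181974714) (nat_lit 244227070211294040368353025)) (C.cons (nat_lit 1292) (C.miq (nat_lit 1461914506) (nat_lit 169269261168289669819666177)) (C.cons (nat_lit 1290) (C.miq (nat_lit 2204868976) (nat_lit 2562993591890104556453954707)) (C.cons (nat_lit 1288) (C.node (nat_lit 1) (nat_lit 2) (nat_lit 4) (C.cons (nat_lit 54) (C.node (nat_lit 1) (nat_lit 2) (nat_lit 7) (C.cons (nat_lit 134) (C.node (nat_lit 1) (nat_lit 4) (nat_lit 6) (C.cons (nat_lit 82) (C.node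 (nat_lit 2) (nat_lit 5) (nat_lit 7) (C.cons (nat_lit 164) (C.node (nat_lit 1) (nat_lit 2) (nat_lit 9) (C.cons (nat_lit 1542) (C.miq (nat_lit 1898363296) (nat_lit 2560546816150238444101373697)) (C.cons (nat_lit 518) (C.node (nat_lit 1) (nat_lit 4) (nat_lit 11) C.nil) C.nil))) C.nil)) C.nil)) C.nil)) (C.cons (nat_lit 22) (C.node (nat_lit 1) (nat_lit 2) (nat_lit 7) (C.cons (nat_lit 166) (C.node (nat_lit 1) (nat_lit 7) (nat_lit 8) (C.cons (nat_lit 386) (C.node (nat_lit 1) (nat_lit 2) (nat_lit 9) (C.cons (nat_lit 1542) (C.miq (nat_lit 1898363296) (nat_lit 2560546816150238444101373697)) (C.cons (nat_lit 518) (C.node (nat_lit 1) (nat_lit 3) (nat_lit 11) (C.cons (nat_lit 2346) (C.miq (nat_lit 2166994288) (nat_lit 626294429164706039255599329)) C.nil)) C.nil))) C.nil)) (C.cons (nat_lit 134) (C.node (nat_lit 1) (nat_lit 3) (nat_lit 10) (C.cons (nat_lit 1038) (C.node (nat_lit 1) (nat_lit 4) (nat_lit 6) (C.cons (nat_lit 114) (C.miq (nat_lit 2774610098) (nat_lit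 137836691456196849227401245)) (C.cons (nat_lit 82) (C.node (nat_lit 1) (nat_lit 3) (nat_lit 11) (C.cons (nat_lit 2346) (C.miq (nat_lit 2274472451) (nat_lit 3252053731510625216123045917)) C.nil)) C.nil))) (C.cons (nat_lit 1034) (C.node (nat_lit 1) (nat_lit 3) (nat_lit 11) (C.cons (nat_lit 2346) (C.miq (nat_lit 557476688) (nat_lit 1250049460368973207922346209)) (C.cons (nat_lit 2314) (C.miq (nat_lit 2274472451) (nat_lit 3252053141214814857417394205)) (C.cons (nat_lit 2090) (C.miq (nat_lit 557476688) (nat_lit 1250049460368972108410718433)) (C.cons (nat_lit 2058) (C.node (nat_lit 1) (nat_lit 2) (nat_lit 3) C.nil) C.nil))))) C.nil))) C.nil))) C.nil))) C.nil)))))) C.nil)))) C.nil))))))) C.nil))) (C.cons (nat_lit 194) (C.node (nat_lit 1) (nat_lit 3) (nat_lit 7) (C.cons (nat_lit 174) (C.miq (nat_lit 2836597621) (nat_lit 632287850522046498062862561)) (C.cons (nat_lit 170) (C.miq (nat_lit 2836597621) (nat_lit 632287850522046498062600417)) (C.cons (nat_lit 142)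 (C.miq (nat_lit 2322664242) (nat_lit 1415656987343581313003030557)) (C.cons (nat_lit 138) (C.node (nat_lit 1) (nat_lit 2) (nat_lit 7) (C.cons (nat_lit 166) (C.node (nat_lit 1) (nat_lit 7) (nat_lit 8) (C.cons (nat_lit 386) (C.node (nat_lit 2) (nat_lit 5) (nat_lit 11) (C.cons (nat_lit 2596) (C.miq (nat_lit 448098450) (nat_lit 3752508806572948888941232773)) (C.cons (nat_lit 2084) (C.node (nat_lit 2) (nat_lit 9) (nat_lit 11)
  (C.cons (nat_lit 2564) (C.node (nat_lit 5) (nat_lit 9) (nat_lit 11) C.nil) C.nil)) C.nil))) C.nil)) (C.cons (nat_lit 134) (C.node (nat_lit 1) (nat_lit 5) (nat_lit 7) (C.cons (nat_lit 418) (C.node (nat_lit 1) (nat_lit 8) (nat_lit 9) (C.cons (nat_lit 834) (C.miq (nat_lit 1175632256) (nat_lit 2560543200574323207302483713)) (C.cons (nat_lit 786) (C.miq (nat_lit 1729366936) (nat_lit 1415658351961287779276689153)) (C.cons (nat_lit 770) (C.node (nat_lit 2) (nat_lit 5) (nat_lit 7) (C.cons (nat_lit 180) (C.miq (nat_lit 2557807396) (nat_lit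 505341342303496194183399453)) (C.cons (nat_lit 172) (C.miq (nat_lit 2270868016) (nat_lit 1431439025053381843311200285)) (C.cons (nat_lit 164) (C.node (nat_lit 4) (nat_lit 5) (nat_lit 7) (C.cons (nat_lit 184) (C.miq (nat_lit 2591361844) (nat_lit 1431378520128305457723344925)) C.nil)) C.nil)))) C.nil)))) (C.cons (nat_lit 162) (C.node (nat_lit 1) (nat_lit 7) (nat_lit 8) (C.cons (nat_lit 386) (C.node (nat_lit 2) (nat_lit 5) (nat_lit 11) (C.cons (nat_lit 2084) (C.node (nat_lit 6) (nat_lit 7) (nat_lit 10) C.nil) C.nil)) C.nil)) C.nil))) C.nil))) C.nil))))) C.nil))) C.nil)))) C.nil)) C.nil))) (C.cons (nat_lit 2116) (C.node (nat_lit 1) (nat_lit 2) (nat_lit 11) (C.cons (nat_lit 2086) (C.node (nat_lit 2) (nat_lit 9) (nat_lit 11) (C.cons (nat_lit 2564) (C.node (nat_lit 5) (nat_lit 9) (nat_lit 11) (C.cons (nat_lit 2592) (C.node (nat_lit 1) (nat_lit 4) (nat_lit 11) (C.cons (nat_lit 2066) (C.node (nat_lit 3) (nat_lit 5) (nat_lit 11) C.nil) C.nil)) C.nil)) C.nil))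 (C.cons (nat_lit 2054) (C.node (nat_lit 2) (nat_lit 5) (nat_lit 11) (C.cons (nat_lit 2596) (C.node (nat_lit 1) (nat_lit 4) (nat_lit 9) (C.cons (nat_lit 786) (C.miq (nat_lit 1729366936) (nat_lit 1415658351961287779276689153)) (C.cons (nat_lit 534) (C.miq (nat_lit 1494725184) (nat_lit 3252052384943343354900580381)) (C.cons (nat_lit 530) (C.node (nat_lit 2) (nat_lit 4) (nat_lit 9) (C.cons (nat_lit 1556) (C.miq (nat_lit 2591368203) (nat_lit 1431416058609316386165557277)) (C.cons (nat_lit 788) (C.miq (nat_lit 1797784980) (nat_lit 2944949513773793281553203761)) (C.cons (nat_lit 532) (C.node (nat_lit 4) (nat_lit 9) (nat_lit 10) (C.cons (nat_lit 1560) (C.miq (nat_lit 2507817139) (nat_lit 1431396947502393154358216733)) (C.cons (nat_lit 1552) (C.node (nat_lit 4) (nat_lit 5) (nat_lit 11) (C.cons (nat_lit 2354) (C.miq (nat_lit 2224207111) (nat_lit 643193472966140782107232481)) (C.cons (nat_lit 2352) (C.miq (nat_lit 2224207111) (nat_lit 643193472965577832153811169))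 (C.cons (nat_lit 2098) (C.miq (nat_lit 1500623364) (nat_lit 3252049156763130932470417437)) (C.cons (nat_lit 2096) (C.node (nat_lit 1) (nat_lit 4) (nat_lit 11) (C.cons (nat_lit 2066) (C.node (nat_lit 4) (nat_lit 8) (nat_lit 11) C.nil) C.nil)) C.nil))))) C.nil))) C.nil)))) C.nil)))) (C.cons (nat_lit 2084) (C.node (nat_lit 2) (nat_lit 9) (nat_lit 11) (C.cons (nat_lit 2564) (C.node (nat_lit 5) (nat_lit 9) (nat_lit 11) C.nil) C.nil)) C.nil))) C.nil))) C.nil))) C.nil)) C.nil))) C.nil))) C.nil))) (C.cons (nat_lit 2576) (C.node (nat_lit 4) (nat_lit 6) (nat_lit 11) (C.cons (nat_lit 2130) (C.node (nat_lit 6) (nat_lit 10) (nat_lit 11) (C.cons (nat_lit 3136) (C.node (nat_lit 2) (nat_lit 6) (nat_lit 11) (C.cons (nat_lit 2628) (C.miq (nat_lit 1769058820) (nat_lit 3252049747067948490430810141)) (C.cons (nat_lit 2116) (C.node (nat_lit 6) (nat_lit 8) (nat_lit 11) (C.cons (nat_lit 2376) (C.miq (nat_lit 1805943664) (nat_lit 3733169148191526054607913353)) (C.cons (nat_lit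 2368) (C.node (nat_lit 1) (nat_lit 4) (nat_lit 9) (C.cons (nat_lit 786) (C.miq (nat_lit 1900460416) (nat_lit 2575053925985610747153026817)) (C.cons (nat_lit 534) (C.miq (nat_lit 1637332000) (nat_lit 3252052384812176015718942749)) (C.cons (nat_lit 530) (C.node (nat_lit 1) (nat_lit 2) (nat_lit 4) (C.cons (nat_lit 54) (C.node (nat_lit 1) (nat_lit 2) (nat_lit 11) (C.cons (nat_lit 2054) (C.node (nat_lit 1) (nat_lit 3) (nat_lit 4) (C.cons (nat_lit 282) (C.miq (nat_lit 834110560) (nat_lit 3252017704413158539675107665)) (C.cons (nat_lit 26)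
  (C.node (nat_lit 1) (nat_lit 4) (nat_lit 8) (C.cons (nat_lit 274) (C.node (nat_lit 2) (nat_lit 5) (nat_lit 7) (C.cons (nat_lit 172) (C.miq (nat_lit 2270868016) (nat_lit 1431439025053381843311200285)) (C.cons (nat_lit 164) (C.node (nat_lit 2) (nat_lit 5) (nat_lit 11) (C.cons (nat_lit 2596) (C.miq (nat_lit 2871069012) (nat_lit 2483155235706915174015697457)) (C.cons (nat_lit 2084) (C.node (nat_lit 2) (nat_lit 9) (nat_lit 11) (C.cons (nat_lit 2564) (C.node (nat_lit 5) (nat_lit 9) (nat_lit 11) (C.cons (nat_lit 2600) (C.miq (nat_lit 2710767541) (nat_lit 632287849770508310404401377)) (C.cons (nat_lit 2592) (C.node (nat_lit 1) (nat_lit 10) (nat_lit 11) (C.cons (nat_lit 3106) (C.node (nat_lit 1) (nat_lit 3) (nat_lit 11) C.nil) C.nil)) C.nil))) C.nil)) C.nil))) C.nil))) C.nil)) C.nil))) C.nil)) (C.cons (nat_lit 22) (C.node (nat_lit 1) (nat_lit 2) (nat_lit 11) (C.cons (nat_lit 2086) (C.node (nat_lit 1) (nat_lit 10) (nat_lit 11) (C.cons (nat_lit 3074) (C.node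 (nat_lit 2) (nat_lit 9) (nat_lit 11) (C.cons (nat_lit 2564) (C.node (nat_lit 5) (nat_lit 10) (nat_lit 11) (C.cons (nat_lit 3104) (C.node (nat_lit 1) (nat_lit 3) (nat_lit 11) (C.cons (nat_lit 2058) (C.node (nat_lit 1) (nat_lit 8) (nat_lit 11) C.nil) C.nil)) C.nil)) C.nil)) C.nil)) (C.cons (nat_lit 2054) (C.node (nat_lit 1) (nat_lit 10) (nat_lit 11) (C.cons (nat_lit 3106) (C.node (nat_lit 1) (nat_lit 3) (nat_lit 11) (C.cons (nat_lit 2314) (C.miq (nat_lit 2274472451) (nat_lit 3252053141214814857417394205)) (C.cons (nat_lit 2058) (C.node (nat_lit 1) (nat_lit 8) (nat_lit 11) (C.cons (nat_lit 2306) (C.node (nat_lit 2) (nat_lit 5) (nat_lit 11) (C.cons (nat_lit 2084) (C.node (nat_lit 2) (nat_lit 9) (nat_lit 11) C.nil) C.nil)) C.nil)) C.nil))) (C.cons (nat_lit 3074) (C.node (nat_lit 5) (nat_lit 10) (nat_lit 11) (C.cons (nat_lit 3104) (C.node (nat_lit 2) (nat_lit 5) (nat_lit 11) (C.cons (nat_lit 2596) (C.node (nat_lit 3) (nat_lit 6) (nat_lit 11) (C.cons (nat_lit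 2120) (C.node (nat_lit 3) (nat_lit 9) (nat_lit 11) C.nil) C.nil)) (C.cons (nat_lit 2084) (C.node (nat_lit 2) (nat_lit 9) (nat_lit 11) C.nil) C.nil))) C.nil)) C.nil))) C.nil))) C.nil))) C.nil)))) C.nil))) C.nil))) C.nil)) (C.cons (nat_lit 2128) (C.node (nat_lit 5) (nat_lit 10) (nat_lit 11) (C.cons (nat_lit 3106) (C.node (nat_lit 6) (nat_lit 10) (nat_lit 11) (C.cons (nat_lit 3136) (C.node (nat_lit 2) (nat_lit 5) (nat_lit 11) (C.cons (nat_lit 2596) (C.miq (nat_lit 1376434545) (nat_lit 1321413217156594439692683906)) (C.cons (nat_lit 2084) (C.node (nat_lit 2) (nat_lit 9) (nat_lit 11) (C.cons (nat_lit 2628) (C.miq (nat_lit 459962656) (nat_lit 3791212972205966380360860293)) (C.cons (nat_lit 2564) (C.node (nat_lit 5) (nat_lit 9) (nat_lit 11) (C.cons (nat_lit 2600) (C.miq (nat_lit 2710767541) (nat_lit 632287849770508310404401377)) (C.cons (nat_lit 2592) (C.node (nat_lit 3) (nat_lit 5) (nat_lit 11) (C.cons (nat_lit 2344) (C.miq (nat_lit 461874480) (nat_lit 2944964898592818328561583145))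 (C.cons (nat_lit 2088) (C.node (nat_lit 3) (nat_lit 8) (nat_lit 11) (C.cons (nat_lit 2376) (C.miq (nat_lit 1805943664) (nat_lit 3733169148191526054607913353)) (C.cons (nat_lit 2314) (C.miq (nat_lit 2274472451) (nat_lit 3252053141214814857417394205)) (C.cons (nat_lit 2312) (C.node (nat_lit 1) (nat_lit 2) (nat_lit 11) (C.cons (nat_lit 2118) (C.node (nat_lit 1) (nat_lit 3) (nat_lit 11) C.nil) C.nil)) C.nil)))) C.nil))) C.nil))) C.nil))) C.nil))) C.nil)) (C.cons (nat_lit 3104) (C.node (nat_lit 1) (nat_lit 10) (nat_lit 11) (C.cons (nat_lit 3138) (C.node (nat_lit 2) (nat_lit 6) (nat_lit 11) (C.cons (nat_lit 2628) (C.node (nat_lit 3) (nat_lit 6) (nat_lit 11) (C.cons (nat_lit 2376) (C.miq (nat_lit 1805943664) (nat_lit 3733169148191526054607913353)) (C.cons (nat_lit 2120) (C.node (nat_lit 6) (nat_lit 8) (nat_lit 11) (C.cons (nat_lit 2368) (C.node (nat_lit 3) (nat_lit 9) (nat_lit 11) (C.cons (nat_lit 2600) (C.miq (nat_lit 2710767541) (nat_lit 632287849770508310404401377))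 (C.cons (nat_lit 2568) (C.node (nat_lit 5) (nat_lit 9) (nat_lit 11) (C.cons (nat_lit 2592)
  (C.node (nat_lit 1) (nat_lit 2) (nat_lit 11) (C.cons (nat_lit 2054) (C.node (nat_lit 2) (nat_lit 5) (nat_lit 11) C.nil) C.nil)) C.nil)) C.nil))) C.nil)) C.nil))) (C.cons (nat_lit 2116) (C.miq (nat_lit 2456514721) (nat_lit 2558136656227669666955396243)) C.nil))) (C.cons (nat_lit 3074) (C.node (nat_lit 6) (nat_lit 10) (nat_lit 11) (C.cons (nat_lit 3136) (C.node (nat_lit 6) (nat_lit 7) (nat_lit 10) (C.cons (nat_lit 1728) (C.node (nat_lit 3) (nat_lit 9) (nat_lit 10) (C.cons (nat_lit 1560) (C.miq (nat_lit 1470696244) (nat_lit 2089034165557310965371373597)) (C.cons (nat_lit 1548) (C.miq (nat_lit 1782282528) (nat_lit 3878275959259405342769742469)) (C.cons (nat_lit 1544) (C.node (nat_lit 4) (nat_lit 9) (nat_lit 10) (C.cons (nat_lit 1556) (C.miq (nat_lit 1783331104) (nat_lit 3733204860905649876164739717)) (C.cons (nat_lit 1552) (C.node (nat_lit 3) (nat_lit 9) (nat_lit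 11) (C.cons (nat_lit 2632) (C.miq (nat_lit 967095920) (nat_lit 1876291186670195134365370593)) (C.cons (nat_lit 2600) (C.miq (nat_lit 1245251509) (nat_lit 1866591814438033772958451937)) (C.cons (nat_lit 2568) (C.node (nat_lit 6) (nat_lit 9) (nat_lit 11) (C.cons (nat_lit 2628) (C.miq (nat_lit 698660464) (nat_lit 1876291186669069234458527969)) (C.cons (nat_lit 2624) (C.node (nat_lit 4) (nat_lit 6) (nat_lit 7) (C.cons (nat_lit 216) (C.miq (nat_lit 2322991924) (nat_lit 2089030033927991217826039837)) (C.cons (nat_lit 212) (C.miq (nat_lit 731267239) (nat_lit 3172225261963170604564612243)) (C.cons (nat_lit 208) (C.node (nat_lit 2) (nat_lit 6) (nat_lit 7) (C.cons (nat_lit 206) (C.miq (nat_lit 2322664242) (nat_lit 1415656987343581313007224861)) (C.cons (nat_lit 204) (C.miq (nat_lit 1000743063) (nat_lit 3791195134031908152337760901)) (C.cons (nat_lit 198) (C.miq (nat_lit 1789993111) (nat_lit 3716241622258365324228428421)) (C.cons (nat_lit 196) (C.node (nat_lit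 2) (nat_lit 3) (nat_lit 7) (C.cons (nat_lit 174) (C.miq (nat_lit 2836597621) (nat_lit 632287850522046498062862561)) (C.cons (nat_lit 172) (C.miq (nat_lit 2270868016) (nat_lit 1431439025053381843311200285)) (C.cons (nat_lit 142) (C.miq (nat_lit 2322664242) (nat_lit 1415656987343581313003030557)) (C.cons (nat_lit 140) (C.node (nat_lit 1) (nat_lit 2) (nat_lit 7) (C.cons (nat_lit 166) (C.node (nat_lit 2) (nat_lit 4) (nat_lit 7) (C.cons (nat_lit 148) (C.node (nat_lit 1) (nat_lit 2) (nat_lit 10) (C.cons (nat_lit 1030) (C.node (nat_lit 1) (nat_lit 9) (nat_lit 10) C.nil) C.nil)) C.nil)) (C.cons (nat_lit 134) (C.node (nat_lit 2) (nat_lit 4) (nat_lit 7) (C.cons (nat_lit 180) (C.node (nat_lit 2) (nat_lit 4) (nat_lit 10) (C.cons (nat_lit 1044) (C.node (nat_lit 2) (nat_lit 3) (nat_lit 10) C.nil) C.nil)) (C.cons (nat_lit 148) (C.node (nat_lit 2) (nat_lit 5) (nat_lit 7) C.nil) C.nil))) C.nil))) C.nil))))) C.nil))))) C.nil)))) C.nil))) C.nil)))) C.nil))) C.nil))))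 (C.cons (nat_lit 1216) (C.node (nat_lit 7) (nat_lit 9) (nat_lit 10) (C.cons (nat_lit 1664) (C.ref (nat_lit 256) (nat_lit 198128827013136)) C.nil)) C.nil))) C.nil)) C.nil))) C.nil))) C.nil))) C.nil))) C.nil))) C.nil))) List.nil)

theorem ok12_284 : okL par12 (nat_lit 285) c12_284 (nat_lit 284) = true := by decide +kernel

noncomputable def c12_285 : List C :=
  (List.cons (C.node (nat_lit 2) (nat_lit 7) (nat_lit 10) (C.cons (nat_lit 1188) (C.node (nat_lit 2) (nat_lit 4) (nat_lit 7) (C.cons (nat_lit 212) (C.node (nat_lit 1) (nat_lit 2) (nat_lit 7) (C.cons (nat_lit 142) (C.miq (nat_lit 2322664242) (nat_lit 1415656987343581313003030557)) (C.cons (nat_lit 134) (C.node (nat_lit 2) (nat_lit 3) (nat_lit 7) (C.cons (nat_lit 140) (C.node (nat_lit 6) (nat_lit 7) (nat_lit 10) (C.cons (nat_lit 1728) (C.miq (nat_lit 1689940489) (nat_lit 3733194807003415877559321221)) (C.cons (nat_lit 1216) (C.node (nat_lit 7) (nat_lit 9) (nat_lit 10) (C.cons (nat_lit 1664) (C.node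 (nat_lit 2) (nat_lit 4) (nat_lit 10) (C.cons (nat_lit 1556) (C.miq (nat_lit 1805938834) (nat_lit 3733166842319527637052293765)) (C.cons (nat_lit 1300) (C.miq (nat_lit 1803710628) (nat_lit 2944947207930789415127090323)) (C.cons (nat_lit 1044) (C.node (nat_lit 2) (nat_lit 8) (nat_lit 10) (C.cons (nat_lit 1292) (C.miq (nat_lit 1461914506) (nat_lit 169269261168289669819666177)) (C.cons (nat_lit 1284) (C.node (nat_lit 4) (nat_lit 5) (nat_lit 7) (C.cons (nat_lit 432) (C.miq (nat_lit 1477080162) (nat_lit 4643505987993348864408355028)) (C.cons (nat_lit 184) (C.miq (nat_lit 2722301557) (nat_lit 2510958573429676356627073249)) (C.cons (nat_lit 176) (C.node (nat_lit 4) (nat_lit 7) (nat_lit 8) (C.cons (nat_lit 912) (C.miq (nat_lit 2823162226) (nat_lit 407428164582551898985595525)) (C.cons (nat_lit 400) (C.node (nat_lit 7) (nat_lit 8) (nat_lit 9) (C.cons (nat_lit 962) (C.miq (nat_lit 846269321) (nat_lit 162005708060144848737537793)) (C.cons (nat_lit 960) (C.miq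 (nat_lit 3093563762) (nat_lit 407446316178720635342815877)) (C.cons (nat_lit 930) (C.miq (nat_lit 846269321) (nat_lit 162005708060144848735440641)) (C.cons (nat_lit 928) (C.miq (nat_lit 659863696) (nat_lit 212809258825292858520571649)) (C.cons (nat_lit 898) (C.miq (nat_lit 846269321) (nat_lit 162005708060144848733343489)) C.nil)))))) C.nil))) C.nil)))) C.nil))) C.nil)))) C.nil)) C.nil))) C.nil)) C.nil))) (C.cons (nat_lit 148) (C.node (nat_lit 5) (nat_lit 10) (nat_lit 11) (C.cons (nat_lit 3106) (C.node (nat_lit 6) (nat_lit 10) (nat_lit 11) (C.cons (nat_lit 3136) (C.node (nat_lit 2) (nat_lit 5) (nat_lit 11) (C.cons (nat_lit 2596) (C.miq (nat_lit 354921360) (nat_lit 1436225475713762200876551937)) (C.cons (nat_lit 2084) (C.node (nat_lit 5) (nat_lit 9) (nat_lit 11) (C.cons (nat_lit 2600) (C.miq (nat_lit 1203309109) (nat_lit 3249602952077169548822316073)) (C.cons (nat_lit 2592) (C.node (nat_lit 3) (nat_lit 5) (nat_lit 11) (C.cons (nat_lit 2344) (C.miq (nat_lit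 461874480) (nat_lit 2944964898592818328561583145)) (C.cons (nat_lit 2088) (C.node (nat_lit 3) (nat_lit 8) (nat_lit 11) (C.cons (nat_lit 2378) (C.miq (nat_lit 1805943664) (nat_lit 3733169148192089004561334665)) (C.cons (nat_lit 2376) (C.miq (nat_lit 1805943664) (nat_lit 3733169148191526054607913353)) (C.cons (nat_lit 2314) (C.miq (nat_lit 2545091201) (nat_lit 3878243677152442765223264519)) (C.cons (nat_lit 2312) (C.node (nat_lit 1) (nat_lit 3) (nat_lit 11) (C.cons (nat_lit 2122) (C.node (nat_lit 3) (nat_lit 9) (nat_lit 11) (C.cons (nat_lit 2568) (C.node (nat_lit 6) (nat_lit 8) (nat_lit 11) C.nil) C.nil)) (C.cons (nat_lit 2058) (C.node (nat_lit 3) (nat_lit 6) (nat_lit 11) (C.cons (nat_lit 2632) (C.node (nat_lit 2) (nat_lit 9) (nat_lit 11) (C.cons (nat_lit 2566) (C.miq (nat_lit 461607536) (nat_lit 2795046143318448454821806725)) C.nil)) C.nil)) C.nil))) C.nil))))) C.nil))) C.nil))) C.nil))) C.nil)) (C.cons (nat_lit 3104) (C.node (nat_lit 1) (nat_lit 10)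 (nat_lit 11) (C.cons (nat_lit 3138) (C.node (nat_lit 2) (nat_lit 6) (nat_lit 11) (C.cons (nat_lit 2628) (C.miq (nat_lit 462923296) (nat_lit 3249614205144713299629507653)) (C.cons (nat_lit 2116) (C.node (nat_lit 6) (nat_lit 8) (nat_lit 11) (C.cons (nat_lit 2376) (C.miq (nat_lit 1805943664) (nat_lit 3733169148191526054607913353)) (C.cons (nat_lit 2368) (C.node (nat_lit 1) (nat_lit 2) (nat_lit 7) (C.cons (nat_lit 206) (C.miq (nat_lit 2322664242) (nat_lit 1415656987343581313007224861))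
  (C.cons (nat_lit 198) (C.miq (nat_lit 2606893591) (nat_lit 2558098933535641739505042579)) (C.cons (nat_lit 142) (C.miq (nat_lit 2322664242) (nat_lit 1415656987343581313003030557)) (C.cons (nat_lit 134) (C.node (nat_lit 2) (nat_lit 3) (nat_lit 7) (C.cons (nat_lit 204) (C.node (nat_lit 6) (nat_lit 7) (nat_lit 10) (C.cons (nat_lit 1728) (C.miq (nat_lit 1000743063) (nat_lit 3793612985671137410687173253)) (C.cons (nat_lit 1216) (C.node (nat_lit 7) (nat_lit 9) (nat_lit 10) (C.cons (nat_lit 1664) (C.node (nat_lit 2) (nat_lit 3) (nat_lit 9) (C.cons (nat_lit 1548) (C.miq (nat_lit 1805873298) (nat_lit 3878237793099330548340097669)) (C.cons (nat_lit 812) (C.miq (nat_lit 324667687) (nat_lit 1287527599174105285357994629)) (C.cons (nat_lit 780) (C.miq (nat_lit 918038281) (nat_lit 2862750729365250037115847301)) (C.cons (nat_lit 556) (C.miq (nat_lit 324667687) (nat_lit 1287527599174104185846366853)) (C.cons (nat_lit 524) (C.node (nat_lit 3) (nat_lit 8) (nat_lit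 10) (C.cons (nat_lit 1352) (C.miq (nat_lit 2590115895) (nat_lit 1321367820069868422969426313)) (C.cons (nat_lit 1304) (C.miq (nat_lit 1181974714) (nat_lit 246644921850523298717765377)) (C.cons (nat_lit 1292) (C.miq (nat_lit 1461914506) (nat_lit 246640513623625937000861441)) (C.cons (nat_lit 1290) (C.miq (nat_lit 326543371) (nat_lit 246678753447392060240891649)) (C.cons (nat_lit 1288) (C.node (nat_lit 1) (nat_lit 3) (nat_lit 7) (C.cons (nat_lit 170) (C.node (nat_lit 1) (nat_lit 2) (nat_lit 3) (C.cons (nat_lit 1038) (C.miq (nat_lit 1445163169) (nat_lit 246624003787674198794437779)) (C.cons (nat_lit 14) (C.node (nat_lit 1) (nat_lit 3) (nat_lit 10) (C.cons (nat_lit 1034) (C.node (nat_lit 2) (nat_lit 3) (nat_lit 10) (C.cons (nat_lit 1036) (C.node (nat_lit 1) (nat_lit 2) (nat_lit 10) (C.cons (nat_lit 1542) (C.miq (nat_lit 1629993616) (nat_lit 162037990160914951021334273)) (C.cons (nat_lit 1030) (C.node (nat_lit 2) (nat_lit 8) (nat_lit 10) C.nil) C.nil)))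 C.nil)) C.nil)) C.nil))) (C.cons (nat_lit 138) (C.node (nat_lit 1) (nat_lit 3) (nat_lit 10) (C.cons (nat_lit 1038) (C.node (nat_lit 1) (nat_lit 9) (nat_lit 10) (C.cons (nat_lit 1570) (C.miq (nat_lit 1168247059) (nat_lit 1436242187747534759391003147)) (C.cons (nat_lit 1538) (C.node (nat_lit 1) (nat_lit 3) (nat_lit 11) (C.cons (nat_lit 2346) (C.miq (nat_lit 1369879328) (nat_lit 3793651152060330645649688605)) (C.cons (nat_lit 2314) (C.miq (nat_lit 2545091201) (nat_lit 3878243677152442765223264519)) (C.cons (nat_lit 2090) (C.miq (nat_lit 1369879328) (nat_lit 3793651151988273051611760669)) (C.cons (nat_lit 2058) (C.node (nat_lit 3) (nat_lit 4) (nat_lit 10) (C.cons (nat_lit 1624) (C.miq (nat_lit 2258699314) (nat_lit 3793614073539261778086463517)) (C.cons (nat_lit 1560) (C.miq (nat_lit 1470696244) (nat_lit 2011662913101974698190178333)) (C.cons (nat_lit 1112) (C.miq (nat_lit 2258699314) (nat_lit 3793614073539259579063207965)) (C.cons (nat_lit 1048) (C.node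 (nat_lit 1) (nat_lit 5) (nat_lit 10) (C.cons (nat_lit 1314) (C.node (nat_lit 6) (nat_lit 8) (nat_lit 10) (C.cons (nat_lit 1344) (C.node (nat_lit 1) (nat_lit 5) (nat_lit 7) C.nil) C.nil)) (C.cons (nat_lit 1058) (C.node (nat_lit 1) (nat_lit 8) (nat_lit 10) C.nil) C.nil))) C.nil))))) C.nil))))) C.nil))) (C.cons (nat_lit 1034) (C.node (nat_lit 2) (nat_lit 3) (nat_lit 10) (C.cons (nat_lit 1036) (C.node (nat_lit 1) (nat_lit 2) (nat_lit 10) (C.cons (nat_lit 1542) (C.miq (nat_lit 1629993616) (nat_lit 162037990160914951021334273)) (C.cons (nat_lit 1030) (C.node (nat_lit 4) (nat_lit 6) (nat_lit 7) (C.cons (nat_lit 720) (C.node (nat_lit 3) (nat_lit 4) (nat_lit 7) (C.cons (nat_lit 184) (C.miq (nat_lit 2591361844) (nat_lit 1436214223406763974422169629)) C.nil)) C.nil)) C.nil))) C.nil)) C.nil))) C.nil))) C.nil)))))) C.nil)))))) C.nil)) C.nil))) (C.cons (nat_lit 140) (C.node (nat_lit 2) (nat_lit 6) (nat_lit 7) (C.cons (nat_lit 196) (C.node (nat_lit 3) (nat_lit 6)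 (nat_lit 11) (C.cons (nat_lit 2632) (C.node (nat_lit 4) (nat_lit 6) (nat_lit 11) (C.cons (nat_lit 2128)
  (C.node (nat_lit 3) (nat_lit 6) (nat_lit 7) (C.cons (nat_lit 216) (C.miq (nat_lit 1755791539) (nat_lit 1702171538608991363580561437)) (C.cons (nat_lit 202) (C.miq (nat_lit 2838563687) (nat_lit 632289805876918062169065697)) (C.cons (nat_lit 200) (C.node (nat_lit 6) (nat_lit 7) (nat_lit 10) (C.cons (nat_lit 1728) (C.miq (nat_lit 1130826650) (nat_lit 241806765644870979921383169)) (C.cons (nat_lit 1216) (C.node (nat_lit 7) (nat_lit 9) (nat_lit 10) (C.cons (nat_lit 1664) (C.node (nat_lit 1) (nat_lit 3) (nat_lit 7) (C.cons (nat_lit 138) (C.node (nat_lit 4) (nat_lit 6) (nat_lit 7) C.nil) C.nil)) C.nil)) C.nil))) C.nil)))) C.nil)) (C.cons (nat_lit 2120) (C.node (nat_lit 3) (nat_lit 9) (nat_lit 11) (C.cons (nat_lit 2600) (C.miq (nat_lit 1203309109) (nat_lit 3249602952077169548822316073)) (C.cons (nat_lit 2568) (C.node (nat_lit 4) (nat_lit 6) (nat_lit 11)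 (C.cons (nat_lit 2640) (C.node (nat_lit 4) (nat_lit 6) (nat_lit 7) (C.cons (nat_lit 216) (C.miq (nat_lit 1755791539) (nat_lit 1702171538608991363580561437)) (C.cons (nat_lit 208) (C.node (nat_lit 6) (nat_lit 7) (nat_lit 10) (C.cons (nat_lit 1728) (C.node (nat_lit 3) (nat_lit 6) (nat_lit 7) (C.cons (nat_lit 202) (C.miq (nat_lit 2338523671) (nat_lit 2562929988234593681397122195)) C.nil)) (C.cons (nat_lit 1216) (C.node (nat_lit 7) (nat_lit 9) (nat_lit 10) C.nil) C.nil))) C.nil))) (C.cons (nat_lit 2128) (C.node (nat_lit 6) (nat_lit 9) (nat_lit 11) C.nil) C.nil))) C.nil))) C.nil))) C.nil)) C.nil))) C.nil))))) C.nil))) C.nil))) (C.cons (nat_lit 3074) (C.node (nat_lit 6) (nat_lit 10) (nat_lit 11) (C.cons (nat_lit 3136) (C.node (nat_lit 6) (nat_lit 7) (nat_lit 10) (C.cons (nat_lit 1728) (C.node (nat_lit 4) (nat_lit 6) (nat_lit 7) (C.cons (nat_lit 216) (C.miq (nat_lit 2322991924) (nat_lit 2089030033927991217826039837)) (C.cons (nat_lit 208) (C.node (nat_lit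 3) (nat_lit 9) (nat_lit 10) (C.cons (nat_lit 1560) (C.miq (nat_lit 1470696244) (nat_lit 2089034165557310965371373597)) (C.cons (nat_lit 1548) (C.miq (nat_lit 1782282528) (nat_lit 3878275959259405342769742469)) (C.cons (nat_lit 1544) (C.node (nat_lit 4) (nat_lit 9) (nat_lit 10) (C.cons (nat_lit 1556) (C.miq (nat_lit 1783331104) (nat_lit 3733204860905649876164739717)) (C.cons (nat_lit 1552) (C.node (nat_lit 3) (nat_lit 9) (nat_lit 11) (C.cons (nat_lit 2632) (C.miq (nat_lit 913619360) (nat_lit 251494885108133523560271617)) (C.cons (nat_lit 2600) (C.miq (nat_lit 1245251509) (nat_lit 1866591814438033772958451937)) (C.cons (nat_lit 2568) (C.node (nat_lit 2) (nat_lit 3) (nat_lit 7) (C.cons (nat_lit 206) (C.miq (nat_lit 2322664242) (nat_lit 1415656987343581313007224861)) (C.cons (nat_lit 204) (C.miq (nat_lit 1000743063) (nat_lit 3791195134031908152337760901)) (C.cons (nat_lit 142) (C.miq (nat_lit 2322664242) (nat_lit 1415656987343581313003030557)) (C.cons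 (nat_lit 140) (C.node (nat_lit 1) (nat_lit 2) (nat_lit 7) (C.cons (nat_lit 198) (C.node (nat_lit 1) (nat_lit 7) (nat_lit 8) (C.cons (nat_lit 930) (C.miq (nat_lit 846269321) (nat_lit 239376960515481115916635905)) (C.cons (nat_lit 898) (C.miq (nat_lit 846269321) (nat_lit 239376960515481115914538753)) (C.cons (nat_lit 418) (C.miq (nat_lit 2534975008) (nat_lit 505401847029291723591713861)) (C.cons (nat_lit 386) (C.miq (nat_lit 2534975008) (nat_lit 466716220801623590001116229)) C.nil))))) (C.cons (nat_lit 134) (C.node (nat_lit 2) (nat_lit 6) (nat_lit 7) (C.cons (nat_lit 196) (C.node (nat_lit 2) (nat_lit 4) (nat_lit 10) (C.cons (nat_lit 1300) (C.node (nat_lit 4) (nat_lit 5) (nat_lit 10) (C.cons (nat_lit 1136) (C.miq (nat_lit 3091624613) (nat_lit 407449931345088200485897380)) (C.cons (nat_lit 1072) (C.node (nat_lit 2) (nat_lit 8) (nat_lit 9) (C.cons (nat_lit 876) (C.miq (nat_lit 392301208) (nat_lit 236954312467773323343564545)) (C.cons (nat_lit 868) (C.miq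 (nat_lit 392301208) (nat_lit 236954312467773323343040257)) (C.cons (nat_lit 844) (C.miq (nat_lit 392301208) (nat_lit 236954312467773323341467393)) (C.cons (nat_lit 836) (C.miq (nat_lit 392301208) (nat_lit 236954312467773323340943105))
  (C.cons (nat_lit 812) (C.miq (nat_lit 337840777) (nat_lit 2510948575316348127199104769)) (C.cons (nat_lit 804) (C.miq (nat_lit 1697122212) (nat_lit 971982576162712421152326803)) (C.cons (nat_lit 780) (C.miq (nat_lit 337840777) (nat_lit 2510948575316348127197007617)) (C.cons (nat_lit 772) (C.node (nat_lit 2) (nat_lit 3) (nat_lit 10) (C.cons (nat_lit 1038) (C.node (nat_lit 2) (nat_lit 9) (nat_lit 10) (C.cons (nat_lit 1540) (C.node (nat_lit 3) (nat_lit 6) (nat_lit 7) C.nil) C.nil)) (C.cons (nat_lit 1036) (C.node (nat_lit 3) (nat_lit 6) (nat_lit 7) C.nil) C.nil))) C.nil))))))))) C.nil))) (C.cons (nat_lit 1044) (C.node (nat_lit 2) (nat_lit 8) (nat_lit 10) (C.cons (nat_lit 1292) (C.miq (nat_lit 1461914506) (nat_lit 169269261168289669819666177))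 (C.cons (nat_lit 1284) (C.node (nat_lit 3) (nat_lit 6) (nat_lit 7) (C.cons (nat_lit 202) (C.node (nat_lit 6) (nat_lit 7) (nat_lit 8) C.nil) C.nil)) C.nil))) C.nil))) C.nil)) C.nil))) C.nil))))) C.nil)))) C.nil))) C.nil)))) C.nil))) (C.cons (nat_lit 1216) (C.node (nat_lit 7) (nat_lit 9) (nat_lit 10) (C.cons (nat_lit 1664) (C.node (nat_lit 2) (nat_lit 8) (nat_lit 10) (C.cons (nat_lit 1300) (C.node (nat_lit 4) (nat_lit 5) (nat_lit 10) (C.cons (nat_lit 1136) (C.miq (nat_lit 3091624613) (nat_lit 407449931345088200485897380)) (C.cons (nat_lit 1072) (C.node (nat_lit 3) (nat_lit 9) (nat_lit 11) (C.cons (nat_lit 2632) (C.node (nat_lit 2) (nat_lit 6) (nat_lit 11) (C.cons (nat_lit 2118) (C.node (nat_lit 4) (nat_lit 6) (nat_lit 11) (C.cons (nat_lit 2128) (C.node (nat_lit 6) (nat_lit 8) (nat_lit 11) (C.cons (nat_lit 2368) (C.node (nat_lit 1) (nat_lit 2) (nat_lit 7) (C.cons (nat_lit 142) (C.miq (nat_lit 2322664242) (nat_lit 1415656987343581313003030557)) (C.cons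 (nat_lit 134) (C.node (nat_lit 1) (nat_lit 6) (nat_lit 7) (C.cons (nat_lit 962) (C.miq (nat_lit 907196800) (nat_lit 2560543200572071957244612353)) (C.cons (nat_lit 706) (C.miq (nat_lit 1133579111) (nat_lit 632289805380396203284498657)) (C.cons (nat_lit 450) (C.miq (nat_lit 840436583) (nat_lit 317954740713701064199768289)) (C.cons (nat_lit 202) (C.miq (nat_lit 2838563687) (nat_lit 632289805876918062169065697)) (C.cons (nat_lit 194) (C.node (nat_lit 1) (nat_lit 3) (nat_lit 7) (C.cons (nat_lit 170) (C.node (nat_lit 1) (nat_lit 7) (nat_lit 8) (C.cons (nat_lit 898) (C.miq (nat_lit 655603856) (nat_lit 205555703907604954620825345)) C.nil)) (C.cons (nat_lit 138) (C.node (nat_lit 2) (nat_lit 3) (nat_lit 7) C.nil) C.nil))) C.nil)))))) C.nil))) C.nil)) C.nil)) (C.cons (nat_lit 2116) (C.node (nat_lit 4) (nat_lit 6) (nat_lit 11) (C.cons (nat_lit 2130) (C.node (nat_lit 4) (nat_lit 9) (nat_lit 11) (C.cons (nat_lit 2576) (C.node (nat_lit 6) (nat_lit 8) (nat_lit 11)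 (C.cons (nat_lit 2368) (C.node (nat_lit 4) (nat_lit 5) (nat_lit 11) (C.cons (nat_lit 2352) (C.miq (nat_lit 2458126261) (nat_lit 1571613914304005100849334497)) C.nil)) C.nil)) C.nil)) (C.cons (nat_lit 2128) (C.node (nat_lit 1) (nat_lit 6) (nat_lit 11) (C.cons (nat_lit 2370) (C.node (nat_lit 4) (nat_lit 8) (nat_lit 11) (C.cons (nat_lit 2352) (C.miq (nat_lit 2458126261) (nat_lit 1571613914304005100849334497)) (C.cons (nat_lit 2320) (C.node (nat_lit 1) (nat_lit 3) (nat_lit 11) (C.cons (nat_lit 2090) (C.node (nat_lit 3) (nat_lit 8) (nat_lit 11) C.nil) C.nil)) C.nil))) (C.cons (nat_lit 2114) (C.node (nat_lit 6) (nat_lit 8) (nat_lit 11) C.nil) C.nil))) C.nil))) C.nil))) (C.cons (nat_lit 2600) (C.miq (nat_lit 1203309109) (nat_lit 3249602952077169548822316073)) (C.cons (nat_lit 2568) (C.node (nat_lit 4) (nat_lit 5) (nat_lit 7) (C.cons (nat_lit 432) (C.node (nat_lit 4) (nat_lit 5) (nat_lit 11) (C.cons (nat_lit 2098) (C.node (nat_lit 4) (nat_lit 8) (nat_lit 11)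 (C.cons (nat_lit 2320) (C.node (nat_lit 2) (nat_lit 4) (nat_lit 5) (C.cons (nat_lit 116) (C.miq (nat_lit 2250588327) (nat_lit 140243364163598588420818067)) (C.cons (nat_lit 52) (C.node (nat_lit 2) (nat_lit 5) (nat_lit 11) (C.cons (nat_lit 2596) (C.miq (nat_lit 722965824) (nat_lit 2633052334001307935629836849)) (C.cons (nat_lit 2084)
  (C.node (nat_lit 5) (nat_lit 9) (nat_lit 11) C.nil) C.nil))) C.nil))) C.nil)) (C.cons (nat_lit 2096) (C.node (nat_lit 4) (nat_lit 8) (nat_lit 11) (C.cons (nat_lit 2322) (C.node (nat_lit 6) (nat_lit 8) (nat_lit 11) (C.cons (nat_lit 2376) (C.miq (nat_lit 944420359) (nat_lit 1571662743322792379504855265)) (C.cons (nat_lit 2368) (C.node (nat_lit 3) (nat_lit 6) (nat_lit 11) (C.cons (nat_lit 2122) (C.node (nat_lit 2) (nat_lit 6) (nat_lit 11) (C.cons (nat_lit 2628) (C.node (nat_lit 4) (nat_lit 6) (nat_lit 11) C.nil) C.nil)) C.nil)) C.nil))) (C.cons (nat_lit 2320) (C.node (nat_lit 1) (nat_lit 2) (nat_lit 7) (C.cons (nat_lit 206)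 (C.miq (nat_lit 2322664242) (nat_lit 1415656987343581313007224861)) (C.cons (nat_lit 198) (C.node (nat_lit 2) (nat_lit 3) (nat_lit 7) (C.cons (nat_lit 140) (C.node (nat_lit 1) (nat_lit 2) (nat_lit 10) (C.cons (nat_lit 1542) (C.miq (nat_lit 1805742226) (nat_lit 3716241622590505796671767173)) (C.cons (nat_lit 1038) (C.miq (nat_lit 811705714) (nat_lit 81017177934309277890380964)) C.nil))) C.nil)) (C.cons (nat_lit 142) (C.miq (nat_lit 2322664242) (nat_lit 1415656987343581313003030557)) (C.cons (nat_lit 134) (C.node (nat_lit 2) (nat_lit 3) (nat_lit 7) (C.cons (nat_lit 204) (C.node (nat_lit 2) (nat_lit 3) (nat_lit 10) (C.cons (nat_lit 1548) (C.miq (nat_lit 1805873298) (nat_lit 3878237793099330548340097669)) (C.cons (nat_lit 1038) (C.node (nat_lit 2) (nat_lit 9) (nat_lit 10) C.nil) C.nil))) (C.cons (nat_lit 140) (C.node (nat_lit 2) (nat_lit 6) (nat_lit 7) C.nil) C.nil))) C.nil))))) C.nil))) C.nil))) (C.cons (nat_lit 184) (C.miq (nat_lit 2591361844) (nat_lit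 1436214223406763974422169629)) (C.cons (nat_lit 176) (C.node (nat_lit 2) (nat_lit 5) (nat_lit 8) (C.cons (nat_lit 876) (C.miq (nat_lit 337840777) (nat_lit 2510948575316348127203299073)) (C.cons (nat_lit 868) (C.miq (nat_lit 2222284962) (nat_lit 212786956120892811275142213)) (C.cons (nat_lit 812) (C.miq (nat_lit 337840777) (nat_lit 2510948575316348127199104769)) (C.cons (nat_lit 804) (C.miq (nat_lit 1697122212) (nat_lit 971982576162712421152326803)) (C.cons (nat_lit 364) (C.miq (nat_lit 2222284962) (nat_lit 212777658961879661661127749)) (C.cons (nat_lit 356) (C.miq (nat_lit 2222284962) (nat_lit 212777511387927071984714821)) (C.cons (nat_lit 300) (C.miq (nat_lit 1697122212) (nat_lit 362683963076939317100414099)) (C.cons (nat_lit 292) (C.miq (nat_lit 1697122212) (nat_lit 353012556520022283702764691)) C.nil))))))))) C.nil)))) C.nil)))) C.nil))) (C.cons (nat_lit 1292) (C.miq (nat_lit 896704696) (nat_lit 1436227707195303305108786945)) (C.cons (nat_lit 1284)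 (C.node (nat_lit 2) (nat_lit 4) (nat_lit 10) (C.cons (nat_lit 1556) (C.node (nat_lit 2) (nat_lit 9) (nat_lit 11) (C.cons (nat_lit 2630) (C.miq (nat_lit 1648867744) (nat_lit 178962951492530531462221569)) (C.cons (nat_lit 2628) (C.miq (nat_lit 1648867744) (nat_lit 178962951491967581508800257)) (C.cons (nat_lit 2598) (C.miq (nat_lit 1380432288) (nat_lit 178962951483523332207480577)) (C.cons (nat_lit 2596) (C.miq (nat_lit 1380432288) (nat_lit 178962951482960382254059265)) (C.cons (nat_lit 2566) (C.miq (nat_lit 934873121) (nat_lit 3249602250881903900261482759)) (C.cons (nat_lit 2564) (C.node (nat_lit 1) (nat_lit 2) (nat_lit 10) (C.cons (nat_lit 1038) (C.node (nat_lit 1) (nat_lit 2) (nat_lit 7) (C.cons (nat_lit 198) (C.miq (nat_lit 811705714) (nat_lit 81017177934309277890380964)) (C.cons (nat_lit 134) (C.node (nat_lit 5) (nat_lit 9) (nat_lit 10) (C.cons (nat_lit 1634) (C.miq (nat_lit 3046377122) (nat_lit 678245699331047701890729029)) (C.cons (nat_lit 1632)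 (C.miq (nat_lit 3046377122) (nat_lit 678245699331047693300794437)) (C.cons (nat_lit 1570) (C.miq (nat_lit 306815749) (nat_lit 1881117537000738666348348457)) (C.cons (nat_lit 1568) (C.node (nat_lit 1) (nat_lit 9) (nat_lit 10) (C.cons (nat_lit 1602) (C.node (nat_lit 3) (nat_lit 9) (nat_lit 10) C.nil) C.nil)) C.nil))))) C.nil))) (C.cons (nat_lit 1030) (C.node (nat_lit 2) (nat_lit 3) (nat_lit 10) (C.cons (nat_lit 1036) (C.node (nat_lit 3) (nat_lit 9) (nat_lit 10)
  (C.cons (nat_lit 1544) (C.node (nat_lit 3) (nat_lit 4) (nat_lit 10) C.nil) C.nil)) C.nil)) C.nil))) C.nil))))))) (C.cons (nat_lit 1044) (C.node (nat_lit 2) (nat_lit 4) (nat_lit 8) (C.cons (nat_lit 788) (C.miq (nat_lit 1461980041) (nat_lit 178931370566193553570270977)) (C.cons (nat_lit 308) (C.node (nat_lit 4) (nat_lit 5) (nat_lit 7) (C.cons (nat_lit 184) (C.miq (nat_lit 2591361844) (nat_lit 1436214223406763974422169629)) (C.cons (nat_lit 176) (C.node (nat_lit 4) (nat_lit 8) (nat_lit 10) (C.cons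 (nat_lit 1304) (C.miq (nat_lit 1739066164) (nat_lit 1702173771209957118509058077)) (C.cons (nat_lit 1296) (C.node (nat_lit 4) (nat_lit 5) (nat_lit 10) (C.cons (nat_lit 1136) (C.node (nat_lit 3) (nat_lit 4) (nat_lit 10) (C.cons (nat_lit 1048) (C.node (nat_lit 4) (nat_lit 9) (nat_lit 10) C.nil) C.nil)) (C.cons (nat_lit 1072) (C.node (nat_lit 4) (nat_lit 9) (nat_lit 10) (C.cons (nat_lit 1624) (C.miq (nat_lit 878160139) (nat_lit 212830121864280966793596673)) (C.cons (nat_lit 1616) (C.node (nat_lit 3) (nat_lit 4) (nat_lit 10) C.nil) (C.cons (nat_lit 1560) (C.miq (nat_lit 878160139) (nat_lit 212830121846266568284114689)) C.nil)))) C.nil))) C.nil))) C.nil))) (C.cons (nat_lit 276) (C.node (nat_lit 3) (nat_lit 9) (nat_lit 11) (C.cons (nat_lit 2632) (C.node (nat_lit 2) (nat_lit 6) (nat_lit 11) (C.cons (nat_lit 2118) (C.node (nat_lit 4) (nat_lit 6) (nat_lit 11) (C.cons (nat_lit 2128) (C.node (nat_lit 6) (nat_lit 8) (nat_lit 11) (C.cons (nat_lit 2368) (C.node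 (nat_lit 1) (nat_lit 2) (nat_lit 7) (C.cons (nat_lit 142) (C.miq (nat_lit 2322664242) (nat_lit 1415656987343581313003030557)) (C.cons (nat_lit 134) (C.node (nat_lit 1) (nat_lit 6) (nat_lit 7) (C.cons (nat_lit 962) (C.miq (nat_lit 907196800) (nat_lit 2560543200572071957244612353)) (C.cons (nat_lit 706) (C.miq (nat_lit 1133579111) (nat_lit 632289805380396203284498657)) (C.cons (nat_lit 450) (C.miq (nat_lit 840436583) (nat_lit 317954740713701064199768289)) (C.cons (nat_lit 202) (C.miq (nat_lit 2838563687) (nat_lit 632289805876918062169065697)) (C.cons (nat_lit 194) (C.node (nat_lit 1) (nat_lit 3) (nat_lit 7) (C.cons (nat_lit 170) (C.node (nat_lit 1) (nat_lit 7) (nat_lit 8) (C.cons (nat_lit 898) (C.miq (nat_lit 655603856) (nat_lit 205555703907604954620825345)) C.nil)) (C.cons (nat_lit 138) (C.node (nat_lit 2) (nat_lit 3) (nat_lit 7) C.nil) C.nil))) C.nil)))))) C.nil))) C.nil)) C.nil)) (C.cons (nat_lit 2116) (C.node (nat_lit 4) (nat_lit 6) (nat_lit 11)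 (C.cons (nat_lit 2130) (C.node (nat_lit 4) (nat_lit 9) (nat_lit 11) (C.cons (nat_lit 2576) (C.node (nat_lit 6) (nat_lit 8) (nat_lit 11) (C.cons (nat_lit 2368) (C.node (nat_lit 4) (nat_lit 5) (nat_lit 11) (C.cons (nat_lit 2352) (C.miq (nat_lit 2458126261) (nat_lit 333673875018624825950210273)) C.nil)) C.nil)) C.nil)) (C.cons (nat_lit 2128) (C.node (nat_lit 1) (nat_lit 6) (nat_lit 11) (C.cons (nat_lit 2370) (C.node (nat_lit 4) (nat_lit 8) (nat_lit 11) (C.cons (nat_lit 2352) (C.miq (nat_lit 2458126261) (nat_lit 333673875018624825950210273)) (C.cons (nat_lit 2320) (C.node (nat_lit 1) (nat_lit 3) (nat_lit 11) (C.cons (nat_lit 2090) (C.node (nat_lit 3) (nat_lit 8) (nat_lit 11) C.nil) C.nil)) C.nil))) (C.cons (nat_lit 2114) (C.node (nat_lit 6) (nat_lit 8) (nat_lit 11) C.nil) C.nil))) C.nil))) C.nil))) (C.cons (nat_lit 2600) (C.miq (nat_lit 1203309109) (nat_lit 3249602952077169548822316073)) (C.cons (nat_lit 2568) (C.node (nat_lit 4) (nat_lit 5) (nat_lit 7)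 (C.cons (nat_lit 432) (C.node (nat_lit 2) (nat_lit 5) (nat_lit 8) (C.cons (nat_lit 876) (C.miq (nat_lit 2726589792) (nat_lit 333685127685344000849545441)) (C.cons (nat_lit 868) (C.miq (nat_lit 2726589792) (nat_lit 333685127685343966489807073)) (C.cons (nat_lit 812) (C.miq (nat_lit 1649937012) (nat_lit 981653982387488981974516883)) (C.cons (nat_lit 804) (C.miq (nat_lit 1649937012) (nat_lit 971982575830571948576867475)) (C.cons (nat_lit 364) (C.miq (nat_lit 2726589792) (nat_lit 333685127685341801826289889)) (C.cons (nat_lit 356) (C.miq (nat_lit 2726589792) (nat_lit 333685127685341767466551521))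
  (C.cons (nat_lit 300) (C.miq (nat_lit 1649937012) (nat_lit 362683962744798844524954771)) (C.cons (nat_lit 292) (C.miq (nat_lit 1649937012) (nat_lit 353012556187881811127305363)) C.nil))))))))) (C.cons (nat_lit 184) (C.miq (nat_lit 2591361844) (nat_lit 1436214223406763974422169629)) (C.cons (nat_lit 176) (C.node (nat_lit 4) (nat_lit 7) (nat_lit 8) (C.cons (nat_lit 912) (C.node (nat_lit 3) (nat_lit 4) (nat_lit 7) (C.cons (nat_lit 216) (C.miq (nat_lit 2322991924) (nat_lit 1470060014285301080376477725)) (C.cons (nat_lit 152) (C.node (nat_lit 4) (nat_lit 6) (nat_lit 7) (C.cons (nat_lit 208) (C.node (nat_lit 5) (nat_lit 7) (nat_lit 8) (C.cons (nat_lit 418) (C.node (nat_lit 6) (nat_lit 7) (nat_lit 8) C.nil) C.nil)) C.nil)) C.nil))) (C.cons (nat_lit 400) (C.node (nat_lit 4) (nat_lit 8) (nat_lit 10) (C.cons (nat_lit 1328) (C.node (nat_lit 4) (nat_lit 5) (nat_lit 11) (C.cons (nat_lit 2098) (C.node (nat_lit 4) (nat_lit 8) (nat_lit 11) (C.cons (nat_lit 2320)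 (C.node (nat_lit 1) (nat_lit 2) (nat_lit 10) C.nil) C.nil)) (C.cons (nat_lit 2096) (C.node (nat_lit 4) (nat_lit 8) (nat_lit 11) (C.cons (nat_lit 2322) (C.node (nat_lit 1) (nat_lit 2) (nat_lit 10) C.nil) (C.cons (nat_lit 2320) (C.node (nat_lit 1) (nat_lit 2) (nat_lit 10) C.nil) C.nil))) C.nil))) (C.cons (nat_lit 1304) (C.miq (nat_lit 1739066164) (nat_lit 1702173771209957118509058077)) (C.cons (nat_lit 1296) (C.node (nat_lit 4) (nat_lit 5) (nat_lit 10) (C.cons (nat_lit 1136) (C.node (nat_lit 3) (nat_lit 4) (nat_lit 10) (C.cons (nat_lit 1048) (C.node (nat_lit 4) (nat_lit 9) (nat_lit 10) C.nil) C.nil)) (C.cons (nat_lit 1072) (C.node (nat_lit 4) (nat_lit 9) (nat_lit 10) (C.cons (nat_lit 1624) (C.miq (nat_lit 878160139) (nat_lit 212830121864280966793596673)) (C.cons (nat_lit 1616) (C.node (nat_lit 3) (nat_lit 4) (nat_lit 10) C.nil) (C.cons (nat_lit 1560) (C.miq (nat_lit 878160139) (nat_lit 212830121846266568284114689)) C.nil)))) C.nil))) C.nil)))) C.nil)))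 C.nil)))) C.nil)))) C.nil)))) C.nil))) C.nil)))) C.nil)) C.nil))) C.nil)) C.nil))) C.nil))) C.nil))) (C.cons (nat_lit 1156) (C.node (nat_lit 5) (nat_lit 7) (nat_lit 10) (C.cons (nat_lit 1696) (C.miq (nat_lit 2545179184) (nat_lit 2649975745696087840906871849)) (C.cons (nat_lit 1184) (C.node (nat_lit 5) (nat_lit 10) (nat_lit 11) (C.cons (nat_lit 3106) (C.node (nat_lit 6) (nat_lit 10) (nat_lit 11) (C.cons (nat_lit 3136) (C.node (nat_lit 3) (nat_lit 5) (nat_lit 11) (C.cons (nat_lit 2600) (C.miq (nat_lit 1203309109) (nat_lit 3249602952077169548822316073)) (C.cons (nat_lit 2344) (C.miq (nat_lit 461874480) (nat_lit 2944964898592818328561583145)) (C.cons (nat_lit 2088) (C.node (nat_lit 3) (nat_lit 8) (nat_lit 11) (C.cons (nat_lit 2378) (C.miq (nat_lit 1805943664) (nat_lit 3733169148192089004561334665)) (C.cons (nat_lit 2376) (C.miq (nat_lit 1805943664) (nat_lit 3733169148191526054607913353)) (C.cons (nat_lit 2314) (C.miq (nat_lit 2545091201) (nat_lit 3878243677152442765223264519))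 (C.cons (nat_lit 2312) (C.node (nat_lit 1) (nat_lit 3) (nat_lit 11) (C.cons (nat_lit 2122) (C.node (nat_lit 3) (nat_lit 9) (nat_lit 11) (C.cons (nat_lit 2568) (C.node (nat_lit 6) (nat_lit 8) (nat_lit 11) (C.cons (nat_lit 2368) (C.node (nat_lit 1) (nat_lit 2) (nat_lit 11) (C.cons (nat_lit 2566) (C.miq (nat_lit 461607536) (nat_lit 2795046143318448454821806725)) (C.cons (nat_lit 2054) (C.node (nat_lit 1) (nat_lit 8) (nat_lit 11) (C.cons (nat_lit 2322) (C.node (nat_lit 1) (nat_lit 9) (nat_lit 11) C.nil) C.nil)) C.nil))) C.nil)) C.nil)) (C.cons (nat_lit 2058) (C.node (nat_lit 2) (nat_lit 5) (nat_lit 11) (C.cons (nat_lit 2596) (C.node (nat_lit 4) (nat_lit 5) (nat_lit 11) (C.cons (nat_lit 2352) (C.miq (nat_lit 2215097746) (nat_lit 1415697071699325874791057956)) (C.cons (nat_lit 2096) (C.node (nat_lit 5) (nat_lit 8) (nat_lit 11) (C.cons (nat_lit 2336) (C.node (nat_lit 1) (nat_lit 2) (nat_lit 11) (C.cons (nat_lit 2118) (C.node (nat_lit 6) (nat_lit 8) (nat_lit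 11) C.nil) C.nil)) C.nil)) C.nil))) (C.cons (nat_lit 2084) (C.node (nat_lit 5) (nat_lit 9) (nat_lit 11)
  (C.cons (nat_lit 2592) (C.node (nat_lit 3) (nat_lit 6) (nat_lit 11) (C.cons (nat_lit 2632) (C.node (nat_lit 2) (nat_lit 9) (nat_lit 11) (C.cons (nat_lit 2566) (C.miq (nat_lit 461607536) (nat_lit 2795046143318448454821806725)) C.nil)) C.nil)) C.nil)) C.nil))) C.nil))) C.nil))))) C.nil)))) C.nil)) (C.cons (nat_lit 3104) (C.node (nat_lit 1) (nat_lit 10) (nat_lit 11) (C.cons (nat_lit 3138) (C.node (nat_lit 2) (nat_lit 6) (nat_lit 11) (C.cons (nat_lit 2628) (C.miq (nat_lit 462923296) (nat_lit 3249614205144713299629507653)) (C.cons (nat_lit 2116) (C.node (nat_lit 6) (nat_lit 8) (nat_lit 11) (C.cons (nat_lit 2376) (C.miq (nat_lit 1805943664) (nat_lit 3733169148191526054607913353)) (C.cons (nat_lit 2368) (C.node (nat_lit 3) (nat_lit 6) (nat_lit 11) (C.cons (nat_lit 2632) (C.node (nat_lit 4) (nat_lit 6) (nat_lit 11) (C.cons (nat_lit 2128) (C.node (nat_lit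 4) (nat_lit 9) (nat_lit 11) (C.cons (nat_lit 2578) (C.node (nat_lit 1) (nat_lit 9) (nat_lit 10) (C.cons (nat_lit 1574) (C.miq (nat_lit 1504944448) (nat_lit 3181912403451195174403507347)) (C.cons (nat_lit 1570) (C.miq (nat_lit 1504944448) (nat_lit 3181912403450069274496664723)) (C.cons (nat_lit 1542) (C.miq (nat_lit 2065237666) (nat_lit 3116622661756247654825067589)) (C.cons (nat_lit 1538) (C.node (nat_lit 3) (nat_lit 4) (nat_lit 7) (C.cons (nat_lit 664) (C.miq (nat_lit 1632221811) (nat_lit 3116659315680189522300636296)) (C.cons (nat_lit 216) (C.miq (nat_lit 1755791539) (nat_lit 1702171538608991363580561437)) (C.cons (nat_lit 184) (C.miq (nat_lit 2591361844) (nat_lit 1431378520128305457723344925)) (C.cons (nat_lit 152) (C.node (nat_lit 6) (nat_lit 7) (nat_lit 10) (C.cons (nat_lit 1728) (C.miq (nat_lit 1732483595) (nat_lit 183805276898219427394031361)) (C.cons (nat_lit 1216) (C.node (nat_lit 7) (nat_lit 9) (nat_lit 10) (C.cons (nat_lit 1664) (C.node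 (nat_lit 1) (nat_lit 4) (nat_lit 6) (C.cons (nat_lit 122) (C.miq (nat_lit 2705962576) (nat_lit 3116681617793770131721095393)) (C.cons (nat_lit 118) (C.miq (nat_lit 2705962576) (nat_lit 3116681617793770114541226209)) (C.cons (nat_lit 114) (C.miq (nat_lit 2705962576) (nat_lit 3116681617793770097361357025)) (C.cons (nat_lit 90) (C.miq (nat_lit 2518332224) (nat_lit 3793680076635535993941985309)) (C.cons (nat_lit 86) (C.miq (nat_lit 2439689248) (nat_lit 3793680076620336328014628893)) (C.cons (nat_lit 82) (C.node (nat_lit 1) (nat_lit 2) (nat_lit 4) (C.cons (nat_lit 54) (C.node (nat_lit 1) (nat_lit 2) (nat_lit 11) (C.cons (nat_lit 2054) (C.node (nat_lit 2) (nat_lit 5) (nat_lit 11) (C.cons (nat_lit 2084) (C.node (nat_lit 2) (nat_lit 9) (nat_lit 11) C.nil) C.nil)) C.nil)) (C.cons (nat_lit 22) (C.node (nat_lit 1) (nat_lit 2) (nat_lit 11) (C.cons (nat_lit 2086) (C.node (nat_lit 2) (nat_lit 9) (nat_lit 11) C.nil) (C.cons (nat_lit 2054) (C.node (nat_lit 2) (nat_lit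 5) (nat_lit 11) (C.cons (nat_lit 2084) (C.node (nat_lit 2) (nat_lit 9) (nat_lit 11) C.nil) C.nil)) C.nil))) C.nil))) C.nil))))))) C.nil)) C.nil))) C.nil))))) C.nil))))) (C.cons (nat_lit 2576) (C.node (nat_lit 6) (nat_lit 7) (nat_lit 10) (C.cons (nat_lit 1728) (C.node (nat_lit 3) (nat_lit 9) (nat_lit 10) (C.cons (nat_lit 1560) (C.miq (nat_lit 1470696244) (nat_lit 2089034165557310965371373597)) (C.cons (nat_lit 1548) (C.miq (nat_lit 1134168935) (nat_lit 1871438770485391107425306849)) (C.cons (nat_lit 1544) (C.miq (nat_lit 1134168935) (nat_lit 1866603067206932590726482145)) C.nil)))) (C.cons (nat_lit 1216) (C.node (nat_lit 7) (nat_lit 9) (nat_lit 10) (C.cons (nat_lit 1664) (C.node (nat_lit 1) (nat_lit 3) (nat_lit 10) (C.cons (nat_lit 1290) (C.miq (nat_lit 369666931) (nat_lit 407431798393263356602027144)) (C.cons (nat_lit 1038) (C.node (nat_lit 3) (nat_lit 9) (nat_lit 10) (C.cons (nat_lit 1560) (C.miq (nat_lit 1470696244) (nat_lit 2011662913101974698190178333))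 (C.cons (nat_lit 1544) (C.node (nat_lit 3) (nat_lit 4) (nat_lit 10) (C.cons (nat_lit 1304) (C.miq (nat_lit 1739066164) (nat_lit 1702173771209957118509058077)) (C.cons (nat_lit 1112)
  (C.miq (nat_lit 2258699314) (nat_lit 3793614073539259579063207965)) (C.cons (nat_lit 1048) (C.node (nat_lit 1) (nat_lit 8) (nat_lit 10) C.nil) C.nil)))) C.nil))) (C.cons (nat_lit 1034) (C.node (nat_lit 1) (nat_lit 8) (nat_lit 10) (C.cons (nat_lit 1314) (C.node (nat_lit 1) (nat_lit 2) (nat_lit 10) (C.cons (nat_lit 1542) (C.miq (nat_lit 2544967786) (nat_lit 2633068880181585125283333189)) (C.cons (nat_lit 1030) (C.node (nat_lit 1) (nat_lit 9) (nat_lit 10) C.nil) C.nil))) (C.cons (nat_lit 1282) (C.node (nat_lit 2) (nat_lit 3) (nat_lit 10) (C.cons (nat_lit 1548) (C.node (nat_lit 1) (nat_lit 2) (nat_lit 10) C.nil) (C.cons (nat_lit 1292) (C.miq (nat_lit 1468664611) (nat_lit 1702187200439639463347095581)) (C.cons (nat_lit 1036) (C.node (nat_lit 3) (nat_lit 9) (nat_lit 10) C.nil)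 C.nil)))) C.nil))) C.nil)))) C.nil)) C.nil))) C.nil))) C.nil)) (C.cons (nat_lit 2120) (C.node (nat_lit 3) (nat_lit 9) (nat_lit 11) (C.cons (nat_lit 2600) (C.miq (nat_lit 1203309109) (nat_lit 3249602952077169548822316073)) (C.cons (nat_lit 2568) (C.node (nat_lit 4) (nat_lit 6) (nat_lit 11) (C.cons (nat_lit 2640) (C.node (nat_lit 6) (nat_lit 7) (nat_lit 10) (C.cons (nat_lit 1728) (C.node (nat_lit 3) (nat_lit 9) (nat_lit 10) (C.cons (nat_lit 1560) (C.miq (nat_lit 1452936003) (nat_lit 2089043462716321675443963933)) (C.cons (nat_lit 1548) (C.miq (nat_lit 1782282528) (nat_lit 3878275959259405342769742469)) (C.cons (nat_lit 1544) (C.node (nat_lit 4) (nat_lit 9) (nat_lit 10) (C.cons (nat_lit 1556) (C.miq (nat_lit 728318074) (nat_lit 3191592867501033002488562835)) (C.cons (nat_lit 1552) (C.node (nat_lit 4) (nat_lit 6) (nat_lit 7) (C.cons (nat_lit 216) (C.miq (nat_lit 2305231683) (nat_lit 2089031066945656906019506205)) (C.cons (nat_lit 212) (C.miq (nat_lit 2519443264)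 (nat_lit 2558157888734932122491225235)) (C.cons (nat_lit 208) (C.node (nat_lit 2) (nat_lit 6) (nat_lit 7) (C.cons (nat_lit 206) (C.miq (nat_lit 2322664242) (nat_lit 1415656987343581313007224861)) (C.cons (nat_lit 204) (C.miq (nat_lit 2788923168) (nat_lit 2562993592013390604830311045)) (C.cons (nat_lit 198) (C.miq (nat_lit 2606893591) (nat_lit 2558098933535641739505042579)) (C.cons (nat_lit 196) (C.node (nat_lit 3) (nat_lit 6) (nat_lit 7) (C.cons (nat_lit 202) (C.miq (nat_lit 2338523671) (nat_lit 2562929988234593681397122195)) (C.cons (nat_lit 200) (C.node (nat_lit 1) (nat_lit 6) (nat_lit 7) (C.cons (nat_lit 450) (C.node (nat_lit 2) (nat_lit 3) (nat_lit 7) (C.cons (nat_lit 174) (C.miq (nat_lit 2803413792) (nat_lit 544087473673542719634868253)) (C.cons (nat_lit 172) (C.miq (nat_lit 2270868016) (nat_lit 1431439025053381843311200285)) (C.cons (nat_lit 142) (C.miq (nat_lit 2803413792) (nat_lit 544087473673542582195914781)) C.nil)))) C.nil)) C.nil))) C.nil)))))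 C.nil)))) C.nil))) C.nil)))) (C.cons (nat_lit 1216) (C.node (nat_lit 7) (nat_lit 9) (nat_lit 10) (C.cons (nat_lit 1664) (C.node (nat_lit 1) (nat_lit 3) (nat_lit 10) (C.cons (nat_lit 1290) (C.miq (nat_lit 369666931) (nat_lit 407431798393263356602027144)) (C.cons (nat_lit 1038) (C.node (nat_lit 1) (nat_lit 3) (nat_lit 11) (C.cons (nat_lit 2314) (C.miq (nat_lit 2067343376) (nat_lit 3104533403605978245162008839)) (C.cons (nat_lit 2090) (C.miq (nat_lit 1369879328) (nat_lit 3793651151988273051611760669)) (C.cons (nat_lit 2058) (C.node (nat_lit 3) (nat_lit 5) (nat_lit 11) (C.cons (nat_lit 2344) (C.node (nat_lit 1) (nat_lit 8) (nat_lit 11) C.nil) C.nil)) C.nil)))) (C.cons (nat_lit 1034) (C.node (nat_lit 1) (nat_lit 8) (nat_lit 10) (C.cons (nat_lit 1314) (C.node (nat_lit 1) (nat_lit 2) (nat_lit 10) (C.cons (nat_lit 1542) (C.miq (nat_lit 2544967786) (nat_lit 2633068880181585125283333189)) (C.cons (nat_lit 1030) (C.node (nat_lit 1) (nat_lit 9) (nat_lit 10) C.nil)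 C.nil))) (C.cons (nat_lit 1282) (C.node (nat_lit 2) (nat_lit 3) (nat_lit 10) (C.cons (nat_lit 1548) (C.node (nat_lit 4) (nat_lit 9) (nat_lit 10) C.nil) (C.cons (nat_lit 1292) (C.miq (nat_lit 1468664611) (nat_lit 1702187200439639463347095581)) (C.cons (nat_lit 1036)
  (C.node (nat_lit 3) (nat_lit 8) (nat_lit 10) C.nil) C.nil)))) C.nil))) C.nil)))) C.nil)) C.nil))) (C.cons (nat_lit 2128) (C.node (nat_lit 6) (nat_lit 9) (nat_lit 11) C.nil) C.nil))) C.nil))) C.nil))) C.nil))) C.nil))) (C.cons (nat_lit 3074) (C.node (nat_lit 6) (nat_lit 10) (nat_lit 11) (C.cons (nat_lit 3136) (C.node (nat_lit 6) (nat_lit 7) (nat_lit 10) (C.cons (nat_lit 1728) (C.node (nat_lit 3) (nat_lit 9) (nat_lit 10) (C.cons (nat_lit 1560) (C.miq (nat_lit 1470696244) (nat_lit 2089034165557310965371373597)) (C.cons (nat_lit 1548) (C.miq (nat_lit 1782282528) (nat_lit 3878275959259405342769742469)) (C.cons (nat_lit 1544) (C.node (nat_lit 4) (nat_lit 9) (nat_lit 10) (C.cons (nat_lit 1556)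 (C.miq (nat_lit 1783331104) (nat_lit 3733204860905649876164739717)) (C.cons (nat_lit 1552) (C.node (nat_lit 3) (nat_lit 9) (nat_lit 11) (C.cons (nat_lit 2632) (C.miq (nat_lit 967095920) (nat_lit 1876291186670195134365370593)) (C.cons (nat_lit 2600) (C.miq (nat_lit 1245251509) (nat_lit 1866591814438033772958451937)) (C.cons (nat_lit 2568) (C.node (nat_lit 4) (nat_lit 6) (nat_lit 7) (C.cons (nat_lit 216) (C.miq (nat_lit 2322991924) (nat_lit 2089030033927991217826039837)) (C.cons (nat_lit 212) (C.miq (nat_lit 1269178519) (nat_lit 3791195281605860742014173829)) (C.cons (nat_lit 208) (C.node (nat_lit 2) (nat_lit 3) (nat_lit 7) (C.cons (nat_lit 206) (C.miq (nat_lit 2322664242) (nat_lit 1415656987343581313007224861)) (C.cons (nat_lit 204) (C.miq (nat_lit 1000743063) (nat_lit 3791195134031908152337760901)) (C.cons (nat_lit 174) (C.miq (nat_lit 2322664242) (nat_lit 1415656987343581313005127709)) (C.cons (nat_lit 172) (C.miq (nat_lit 2270868016) (nat_lit 1431439025053381843311200285))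 (C.cons (nat_lit 142) (C.miq (nat_lit 2322664242) (nat_lit 1415656987343581313003030557)) (C.cons (nat_lit 140) (C.node (nat_lit 2) (nat_lit 4) (nat_lit 7) (C.cons (nat_lit 180) (C.node (nat_lit 2) (nat_lit 4) (nat_lit 10) (C.cons (nat_lit 1300) (C.miq (nat_lit 2552499061) (nat_lit 1571613915203599126274246881)) (C.cons (nat_lit 1044) (C.node (nat_lit 2) (nat_lit 4) (nat_lit 8) (C.cons (nat_lit 788) (C.node (nat_lit 4) (nat_lit 7) (nat_lit 8) (C.cons (nat_lit 400) (C.node (nat_lit 1) (nat_lit 2) (nat_lit 7) (C.cons (nat_lit 198) (C.miq (nat_lit 1653174538) (nat_lit 952665421885820334990492819)) (C.cons (nat_lit 134) (C.node (nat_lit 2) (nat_lit 6) (nat_lit 7) C.nil) C.nil))) C.nil)) (C.cons (nat_lit 276) (C.miq (nat_lit 2552499061) (nat_lit 333673875918218851375122657)) C.nil))) C.nil))) (C.cons (nat_lit 148) (C.node (nat_lit 2) (nat_lit 5) (nat_lit 7) (C.cons (nat_lit 166) (C.node (nat_lit 2) (nat_lit 6) (nat_lit 7) (C.cons (nat_lit 196) (C.node (nat_lit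 1) (nat_lit 7) (nat_lit 9) (C.cons (nat_lit 898) (C.miq (nat_lit 1729276288) (nat_lit 200701848833693624195026689)) C.nil)) C.nil)) (C.cons (nat_lit 164) (C.node (nat_lit 1) (nat_lit 2) (nat_lit 7) (C.cons (nat_lit 198) (C.node (nat_lit 3) (nat_lit 6) (nat_lit 7) C.nil) (C.cons (nat_lit 134) (C.node (nat_lit 2) (nat_lit 6) (nat_lit 7) (C.cons (nat_lit 196) (C.node (nat_lit 3) (nat_lit 6) (nat_lit 7) C.nil) C.nil)) C.nil))) C.nil))) C.nil))) C.nil))))))) C.nil)))) C.nil)))) C.nil))) C.nil)))) (C.cons (nat_lit 1216) (C.node (nat_lit 7) (nat_lit 9) (nat_lit 10) (C.cons (nat_lit 1664) (C.node (nat_lit 3) (nat_lit 9) (nat_lit 11) (C.cons (nat_lit 2632) (C.node (nat_lit 2) (nat_lit 6) (nat_lit 11) (C.cons (nat_lit 2118) (C.node (nat_lit 4) (nat_lit 6) (nat_lit 11) (C.cons (nat_lit 2128) (C.node (nat_lit 6) (nat_lit 8) (nat_lit 11) (C.cons (nat_lit 2368) (C.node (nat_lit 1) (nat_lit 6) (nat_lit 7) (C.cons (nat_lit 962) (C.miq (nat_lit 907196800) (nat_lit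 2560543200572071957244612353)) (C.cons (nat_lit 706) (C.miq (nat_lit 1133579111) (nat_lit 632289805380396203284498657)) (C.cons (nat_lit 450) (C.miq (nat_lit 840436583) (nat_lit 317954740713701064199768289)) (C.cons (nat_lit 202) (C.miq (nat_lit 2838563687) (nat_lit 632289805876918062169065697)) (C.cons (nat_lit 194) (C.node (nat_lit 2) (nat_lit 5) (nat_lit 11)
  (C.cons (nat_lit 2596) (C.node (nat_lit 1) (nat_lit 9) (nat_lit 11) (C.cons (nat_lit 2562) (C.node (nat_lit 4) (nat_lit 9) (nat_lit 11) C.nil) C.nil)) (C.cons (nat_lit 2084) (C.node (nat_lit 2) (nat_lit 9) (nat_lit 11) C.nil) C.nil))) C.nil)))))) C.nil)) C.nil)) (C.cons (nat_lit 2116) (C.node (nat_lit 4) (nat_lit 6) (nat_lit 11) (C.cons (nat_lit 2130) (C.node (nat_lit 4) (nat_lit 9) (nat_lit 11) (C.cons (nat_lit 2576) (C.node (nat_lit 6) (nat_lit 8) (nat_lit 11) (C.cons (nat_lit 2368) (C.node (nat_lit 4) (nat_lit 5) (nat_lit 11) (C.cons (nat_lit 2352) (C.node (nat_lit 1) (nat_lit 8) (nat_lit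 11) C.nil) C.nil)) C.nil)) C.nil)) (C.cons (nat_lit 2128) (C.node (nat_lit 1) (nat_lit 6) (nat_lit 11) (C.cons (nat_lit 2370) (C.node (nat_lit 1) (nat_lit 6) (nat_lit 7) (C.cons (nat_lit 706) (C.miq (nat_lit 1133579111) (nat_lit 632289805380396203284498657)) (C.cons (nat_lit 206) (C.miq (nat_lit 2551319399) (nat_lit 317959389789730580240140513)) (C.cons (nat_lit 202) (C.miq (nat_lit 2838563687) (nat_lit 632289805876918062169065697)) (C.cons (nat_lit 198) (C.miq (nat_lit 2551319399) (nat_lit 317959389789730580239616225)) (C.cons (nat_lit 194) (C.node (nat_lit 1) (nat_lit 3) (nat_lit 11) (C.cons (nat_lit 2090) (C.node (nat_lit 3) (nat_lit 8) (nat_lit 11) (C.cons (nat_lit 2312) (C.node (nat_lit 1) (nat_lit 2) (nat_lit 11) C.nil) C.nil)) (C.cons (nat_lit 2058) (C.node (nat_lit 3) (nat_lit 5) (nat_lit 11) (C.cons (nat_lit 2344) (C.node (nat_lit 4) (nat_lit 8) (nat_lit 11) C.nil) C.nil)) C.nil))) C.nil)))))) (C.cons (nat_lit 2114) (C.node (nat_lit 6) (nat_lit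 8) (nat_lit 11) C.nil) C.nil))) C.nil))) C.nil))) (C.cons (nat_lit 2600) (C.miq (nat_lit 1203309109) (nat_lit 3249602952077169548822316073)) (C.cons (nat_lit 2568) (C.node (nat_lit 3) (nat_lit 6) (nat_lit 11) (C.cons (nat_lit 2378) (C.miq (nat_lit 1805943664) (nat_lit 3733169148192089004561334665)) (C.cons (nat_lit 2376) (C.miq (nat_lit 1805943664) (nat_lit 3733169148191526054607913353)) (C.cons (nat_lit 2122) (C.node (nat_lit 6) (nat_lit 8) (nat_lit 11) (C.cons (nat_lit 2368) (C.node (nat_lit 2) (nat_lit 6) (nat_lit 11) (C.cons (nat_lit 2628) (C.node (nat_lit 4) (nat_lit 6) (nat_lit 11) (C.cons (nat_lit 2128) (C.node (nat_lit 1) (nat_lit 2) (nat_lit 11) (C.cons (nat_lit 2086) (C.node (nat_lit 5) (nat_lit 9) (nat_lit 11) C.nil) C.nil)) C.nil)) (C.cons (nat_lit 2116) (C.node (nat_lit 3) (nat_lit 5) (nat_lit 11) (C.cons (nat_lit 2344) (C.node (nat_lit 2) (nat_lit 9) (nat_lit 11) (C.cons (nat_lit 2596) (C.miq (nat_lit 1393145970) (nat_lit 632316092065845441741523332))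 (C.cons (nat_lit 2566) (C.miq (nat_lit 461607536) (nat_lit 2833731769546116588412404357)) C.nil))) C.nil)) C.nil))) C.nil)) (C.cons (nat_lit 2120) (C.node (nat_lit 6) (nat_lit 8) (nat_lit 11) (C.cons (nat_lit 2370) (C.node (nat_lit 1) (nat_lit 3) (nat_lit 11) (C.cons (nat_lit 2090) (C.node (nat_lit 3) (nat_lit 8) (nat_lit 11) (C.cons (nat_lit 2312) (C.node (nat_lit 1) (nat_lit 2) (nat_lit 11) (C.cons (nat_lit 2566) (C.miq (nat_lit 461607536) (nat_lit 2795046143318448454821806725)) C.nil)) C.nil)) (C.cons (nat_lit 2058) (C.node (nat_lit 2) (nat_lit 6) (nat_lit 11) (C.cons (nat_lit 2628) (C.node (nat_lit 4) (nat_lit 6) (nat_lit 11) C.nil) C.nil)) C.nil))) (C.cons (nat_lit 2368) (C.node (nat_lit 3) (nat_lit 8) (nat_lit 11) (C.cons (nat_lit 2346) (C.miq (nat_lit 2067343376) (nat_lit 3104533403605978382600962311)) (C.cons (nat_lit 2344) (C.node (nat_lit 1) (nat_lit 3) (nat_lit 11) C.nil) (C.cons (nat_lit 2314) (C.miq (nat_lit 2067343376) (nat_lit 3104533403605978245162008839))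 (C.cons (nat_lit 2312) (C.node (nat_lit 1) (nat_lit 3) (nat_lit 11) C.nil) C.nil))))) C.nil))) C.nil))))) C.nil)))) C.nil)) C.nil))) C.nil)) C.nil))) C.nil))) C.nil))) C.nil))) List.nil)

theorem ok12_285 : okL par12 (nat_lit 286) c12_285 (nat_lit 285) = true := by decide +kernel

noncomputable def c12_286 : List C :=
  (List.cons (C.node (nat_lit 2) (nat_lit 5) (nat_lit 11) (C.cons (nat_lit 3108) (C.node (nat_lit 2) (nat_lit 7) (nat_lit 10) (C.cons (nat_lit 1164) (C.miq (nat_lit 1383312256) (nat_lit 1407209300688701550213271297)) (C.cons (nat_lit 1156) (C.node (nat_lit 2) (nat_lit 8) (nat_lit 10) (C.cons (nat_lit 1300) (C.miq (nat_lit 942278581) (nat_lit 1571623211392086556381808865)) (C.cons (nat_lit 1292) (C.node (nat_lit 1) (nat_lit 2) (nat_lit 10) (C.cons (nat_lit 1542) (C.miq (nat_lit 1898363296) (nat_lit 2560546816150238444101373697)) (C.cons (nat_lit 1030) (C.node (nat_lit 4) (nat_lit 8) (nat_lit 10) (C.cons (nat_lit 1328) (C.miq (nat_lit 2024124976)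 (nat_lit 1605495418583185678255327261)) (C.cons (nat_lit 1296) (C.node (nat_lit 5) (nat_lit 7) (nat_lit 10) (C.cons (nat_lit 1696) (C.miq (nat_lit 2320966411) (nat_lit 2050383126698644880968714269)) (C.cons (nat_lit 1440) (C.node (nat_lit 1) (nat_lit 7) (nat_lit 8) (C.cons (nat_lit 450) (C.miq (nat_lit 840436583) (nat_lit 317954740713701064199768289)) (C.cons (nat_lit 386) (C.node (nat_lit 5) (nat_lit 7) (nat_lit 9) (C.cons (nat_lit 680) (C.miq (nat_lit 628341376) (nat_lit 822107872100219345934290689)) (C.cons (nat_lit 672) (C.node (nat_lit 6) (nat_lit 7) (nat_lit 8) (C.cons (nat_lit 960) (C.miq (nat_lit 2041808448) (nat_lit 3104528754611016004991254865)) (C.cons (nat_lit 448) (C.node (nat_lit 4) (nat_lit 5) (nat_lit 7) (C.cons (nat_lit 184) (C.miq (nat_lit 628341376) (nat_lit 222480665571363275280027393)) (C.cons (nat_lit 180) (C.miq (nat_lit 844565416) (nat_lit 217613897685691094781660929)) (C.cons (nat_lit 176) (C.node (nat_lit 2) (nat_lit 5) (nat_lit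 7) (C.cons (nat_lit 174) (C.miq (nat_lit 2836597621) (nat_lit 632287850522046498062862561)) (C.cons (nat_lit 172) (C.node (nat_lit 1) (nat_lit 2) (nat_lit 3) (C.cons (nat_lit 14) (C.node (nat_lit 1) (nat_lit 2) (nat_lit 7) (C.cons (nat_lit 134) (C.node (nat_lit 1) (nat_lit 5) (nat_lit 7) (C.cons (nat_lit 162) (C.node (nat_lit 1) (nat_lit 3) (nat_lit 7) (C.cons (nat_lit 202) (C.node (nat_lit 2) (nat_lit 4) (nat_lit 7) (C.cons (nat_lit 212) (C.node (nat_lit 4) (nat_lit 7) (nat_lit 8) (C.cons (nat_lit 912) (C.miq (nat_lit 2823162226) (nat_lit 407428164582551898985595525)) C.nil)) C.nil)) C.nil)) C.nil)) C.nil)) C.nil)) (C.cons (nat_lit 166) (C.miq (nat_lit 844565416) (nat_lit 200688936211086286335774465)) (C.cons (nat_lit 164) (C.miq (nat_lit 844565416) (nat_lit 198271084571857027986362113)) C.nil))))) C.nil)))) C.nil))) C.nil))) C.nil))) (C.cons (nat_lit 1184) (C.miq (nat_lit 2320966411) (nat_lit 1431413107055954743519152157)) C.nil)))) C.nil))) C.nil)))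 (C.cons (nat_lit 1284) (C.miq (nat_lit 942278581) (nat_lit 1552280398278252489586510049)) C.nil)))) C.nil))) (C.cons (nat_lit 2084) (C.node (nat_lit 2) (nat_lit 10) (nat_lit 11) (C.cons (nat_lit 3076) (C.node (nat_lit 5) (nat_lit 10) (nat_lit 11) (C.cons (nat_lit 3106) (C.node (nat_lit 1) (nat_lit 3) (nat_lit 11) (C.cons (nat_lit 2314) (C.miq (nat_lit 2274472451) (nat_lit 3252053141214814857417394205)) (C.cons (nat_lit 2058) (C.node (nat_lit 1) (nat_lit 4) (nat_lit 11) (C.cons (nat_lit 2066) (C.node (nat_lit 1) (nat_lit 8) (nat_lit 11) C.nil) C.nil)) C.nil))) (C.cons (nat_lit 3104) (C.node (nat_lit 1) (nat_lit 10) (nat_lit 11) (C.cons (nat_lit 3082) (C.node (nat_lit 6) (nat_lit 10) (nat_lit 11) (C.cons (nat_lit 3136) (C.node (nat_lit 3) (nat_lit 5) (nat_lit 11) C.nil) C.nil)) (C.cons (nat_lit 3074) (C.node (nat_lit 3) (nat_lit 10) (nat_lit 11) (C.cons (nat_lit 3144) (C.node (nat_lit 6) (nat_lit 8) (nat_lit 11) C.nil) C.nil)) C.nil))) C.nil))) C.nil))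 C.nil))) (List.cons (C.node (nat_lit 1) (nat_lit 4) (nat_lit 9) (C.cons (nat_lit 786) (C.miq (nat_lit 1729366936) (nat_lit 1415658351961287779276689153)) (C.cons (nat_lit 534) (C.node (nat_lit 4) (nat_lit 5) (nat_lit 11) (C.cons (nat_lit 2354) (C.miq (nat_lit 2224207111) (nat_lit 645611324605370040456644833)) (C.cons (nat_lit 2352) (C.miq (nat_lit 2224207111) (nat_lit 645611324604807090503223521)) (C.cons (nat_lit 2098)
  (C.miq (nat_lit 1368896544) (nat_lit 3252052384803168816464201757)) (C.cons (nat_lit 2096) (C.node (nat_lit 1) (nat_lit 4) (nat_lit 11) (C.cons (nat_lit 2322) (C.node (nat_lit 4) (nat_lit 9) (nat_lit 10) (C.cons (nat_lit 1560) (C.node (nat_lit 2) (nat_lit 9) (nat_lit 10) (C.cons (nat_lit 1572) (C.miq (nat_lit 1772467248) (nat_lit 1900473318626577243183843357)) (C.cons (nat_lit 1540) (C.node (nat_lit 3) (nat_lit 4) (nat_lit 8) (C.cons (nat_lit 312) (C.miq (nat_lit 1681242528) (nat_lit 377226785912144483054063361)) (C.cons (nat_lit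 280) (C.node (nat_lit 4) (nat_lit 6) (nat_lit 10) (C.cons (nat_lit 1136) (C.miq (nat_lit 895787193) (nat_lit 1373368508302754342197268225)) (C.cons (nat_lit 1104) (C.node (nat_lit 3) (nat_lit 4) (nat_lit 7) (C.cons (nat_lit 216) (C.miq (nat_lit 1447234458) (nat_lit 261147623459002363288227585)) (C.cons (nat_lit 184) (C.miq (nat_lit 1681242528) (nat_lit 222484281001471948691672833)) (C.cons (nat_lit 152) (C.node (nat_lit 7) (nat_lit 9) (nat_lit 10) (C.cons (nat_lit 1728) (C.miq (nat_lit 1452936003) (nat_lit 2089043462716321675443963933)) (C.cons (nat_lit 1696) (C.miq (nat_lit 1772467248) (nat_lit 2050380120258791260847409181)) (C.cons (nat_lit 1664) (C.node (nat_lit 5) (nat_lit 9) (nat_lit 10) (C.cons (nat_lit 1634) (C.miq (nat_lit 313955333) (nat_lit 2558117176434688333445136945)) (C.cons (nat_lit 1632) (C.node (nat_lit 1) (nat_lit 9) (nat_lit 10) (C.cons (nat_lit 1538) (C.node (nat_lit 1) (nat_lit 6) (nat_lit 9) (C.cons (nat_lit 834) (C.miq (nat_lit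 1629788171) (nat_lit 645615087313317832798572289)) (C.cons (nat_lit 578) (C.node (nat_lit 1) (nat_lit 5) (nat_lit 9) (C.cons (nat_lit 546) (C.node (nat_lit 1) (nat_lit 8) (nat_lit 9) C.nil) C.nil)) C.nil))) C.nil)) (C.cons (nat_lit 1570) (C.miq (nat_lit 1772467248) (nat_lit 1898055466987347984834431005)) (C.cons (nat_lit 1568) (C.miq (nat_lit 1772467248) (nat_lit 1895637615348118726485018653)) C.nil))))) C.nil)))) C.nil)))) C.nil))) C.nil))) C.nil))) (C.cons (nat_lit 1552) (C.node (nat_lit 3) (nat_lit 4) (nat_lit 9) (C.cons (nat_lit 792) (C.miq (nat_lit 968328288) (nat_lit 3252017704556712968230863185)) (C.cons (nat_lit 664) (C.miq (nat_lit 2274427714) (nat_lit 3252015306367666383312259101)) (C.cons (nat_lit 536) (C.node (nat_lit 4) (nat_lit 7) (nat_lit 9) (C.cons (nat_lit 912) (C.node (nat_lit 2) (nat_lit 4) (nat_lit 7) (C.cons (nat_lit 212) (C.miq (nat_lit 2823162226) (nat_lit 407428164582551898985595525)) (C.cons (nat_lit 180) (C.miq (nat_lit 2185869136)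 (nat_lit 645637242303872914078894305)) (C.cons (nat_lit 148) (C.node (nat_lit 4) (nat_lit 5) (nat_lit 7) (C.cons (nat_lit 184) (C.miq (nat_lit 2839873651) (nat_lit 678227031667394770250498441)) (C.cons (nat_lit 176) (C.node (nat_lit 3) (nat_lit 4) (nat_lit 7) (C.cons (nat_lit 216) (C.miq (nat_lit 2302872423) (nat_lit 647991489965018929769744609)) (C.cons (nat_lit 152) (C.node (nat_lit 4) (nat_lit 6) (nat_lit 7) (C.cons (nat_lit 208) (C.node (nat_lit 2) (nat_lit 4) (nat_lit 6) (C.cons (nat_lit 116) (C.node (nat_lit 2) (nat_lit 4) (nat_lit 8) (C.cons (nat_lit 1300) (C.miq (nat_lit 2220597856) (nat_lit 2533979372222167836660925509)) C.nil)) C.nil)) C.nil)) C.nil))) C.nil))) C.nil)))) (C.cons (nat_lit 656) (C.node (nat_lit 4) (nat_lit 8) (nat_lit 9) (C.cons (nat_lit 784) (C.node (nat_lit 7) (nat_lit 8) (nat_lit 9) (C.cons (nat_lit 960) (C.miq (nat_lit 882379623) (nat_lit 947805092732925106228037857)) (C.cons (nat_lit 928) (C.miq (nat_lit 680834896) (nat_lit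 947836157150987396741925089)) (C.cons (nat_lit 896) (C.node (nat_lit 4) (nat_lit 7) (nat_lit 8) (C.cons (nat_lit 432) (C.node (nat_lit 3) (nat_lit 4) (nat_lit 7) (C.cons (nat_lit 216) (C.miq (nat_lit 2302872423) (nat_lit 647991489965018929769744609)) (C.cons (nat_lit 152) (C.node (nat_lit 1) (nat_lit 7) (nat_lit 8) (C.cons (nat_lit 450) (C.node (nat_lit 7) (nat_lit 8) (nat_lit 10) (C.cons (nat_lit 1408) (C.node (nat_lit 6) (nat_lit 8) (nat_lit 11) (C.cons (nat_lit 2376) (C.miq (nat_lit 940881520) (nat_lit 2807164067701396515882993889))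
  (C.cons (nat_lit 2368) (C.node (nat_lit 1) (nat_lit 8) (nat_lit 9) (C.cons (nat_lit 802) (C.node (nat_lit 1) (nat_lit 6) (nat_lit 9) (C.cons (nat_lit 1602) (C.node (nat_lit 6) (nat_lit 7) (nat_lit 9) C.nil) C.nil)) C.nil)) C.nil))) C.nil)) (C.cons (nat_lit 386) (C.node (nat_lit 2) (nat_lit 4) (nat_lit 7) (C.cons (nat_lit 212) (C.node (nat_lit 2) (nat_lit 6) (nat_lit 9) (C.cons (nat_lit 876) (C.miq (nat_lit 2753759077) (nat_lit 2510958573451631404855855329)) (C.cons (nat_lit 868) (C.miq (nat_lit 2825128231) (nat_lit 407429603428589459352060549)) (C.cons (nat_lit 844) (C.miq (nat_lit 1763123972) (nat_lit 3252014365710663233072990237)) (C.cons (nat_lit 836) (C.miq (nat_lit 2825128231) (nat_lit 407429603428589321913107077)) (C.cons (nat_lit 620) (C.miq (nat_lit 2753759077) (nat_lit 2510958573451631404839078113)) (C.cons (nat_lit 612) (C.miq (nat_lit 392314969) (nat_lit 256302124649253706167222833)) (C.cons (nat_lit 588) (C.miq (nat_lit 1763123972) (nat_lit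 3252014365638605639035062301)) C.nil)))))))) (C.cons (nat_lit 148) (C.node (nat_lit 4) (nat_lit 6) (nat_lit 7) C.nil) C.nil))) C.nil))) C.nil))) (C.cons (nat_lit 400) (C.node (nat_lit 5) (nat_lit 8) (nat_lit 11) (C.cons (nat_lit 2344) (C.node (nat_lit 6) (nat_lit 8) (nat_lit 11) (C.cons (nat_lit 2368) (C.node (nat_lit 1) (nat_lit 8) (nat_lit 9) (C.cons (nat_lit 866) (C.miq (nat_lit 1629788171) (nat_lit 645615087322325032053313281)) (C.cons (nat_lit 834) (C.miq (nat_lit 1629788171) (nat_lit 645615087313317832798572289)) (C.cons (nat_lit 802) (C.miq (nat_lit 2709849267) (nat_lit 969578153442988269582682141)) C.nil)))) C.nil)) (C.cons (nat_lit 2336) (C.node (nat_lit 1) (nat_lit 8) (nat_lit 9) (C.cons (nat_lit 866) (C.miq (nat_lit 1629788171) (nat_lit 645615087322325032053313281)) (C.cons (nat_lit 834) (C.miq (nat_lit 1629788171) (nat_lit 645615087313317832798572289)) (C.cons (nat_lit 802) (C.node (nat_lit 1) (nat_lit 6) (nat_lit 9) (C.cons (nat_lit 1602)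 (C.node (nat_lit 6) (nat_lit 7) (nat_lit 9) C.nil) C.nil)) C.nil)))) C.nil))) C.nil))) C.nil)))) C.nil)) C.nil))) C.nil)))) C.nil))) (C.cons (nat_lit 2066) (C.node (nat_lit 4) (nat_lit 8) (nat_lit 11) (C.cons (nat_lit 2320) (C.node (nat_lit 6) (nat_lit 10) (nat_lit 11) (C.cons (nat_lit 3146) (C.miq (nat_lit 2727436411) (nat_lit 645624421438722789517428961)) (C.cons (nat_lit 3144) (C.node (nat_lit 1) (nat_lit 6) (nat_lit 11) (C.cons (nat_lit 2370) (C.node (nat_lit 1) (nat_lit 3) (nat_lit 11) C.nil) C.nil)) (C.cons (nat_lit 3138) (C.miq (nat_lit 2727436411) (nat_lit 645624273864770199841016033)) C.nil)))) C.nil)) C.nil))) C.nil))))) (C.cons (nat_lit 530) (C.node (nat_lit 6) (nat_lit 10) (nat_lit 11) (C.cons (nat_lit 3146) (C.miq (nat_lit 1804771696) (nat_lit 3099705964668713598722573459)) (C.cons (nat_lit 3144) (C.node (nat_lit 4) (nat_lit 6) (nat_lit 10) (C.cons (nat_lit 1136) (C.miq (nat_lit 910535568) (nat_lit 1373359377749625908667420417)) (C.cons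 (nat_lit 1104) (C.node (nat_lit 1) (nat_lit 6) (nat_lit 11) (C.cons (nat_lit 2370) (C.node (nat_lit 3) (nat_lit 4) (nat_lit 6) (C.cons (nat_lit 216) (C.miq (nat_lit 1399065273) (nat_lit 261138325959969606542036737)) (C.cons (nat_lit 122) (C.miq (nat_lit 2169091664) (nat_lit 640801539006836799809063137)) (C.cons (nat_lit 120) (C.node (nat_lit 1) (nat_lit 4) (nat_lit 6) (C.cons (nat_lit 86) (C.miq (nat_lit 2518201376) (nat_lit 2865225047173752570341951517)) (C.cons (nat_lit 82) (C.node (nat_lit 3) (nat_lit 4) (nat_lit 7) (C.cons (nat_lit 664) (C.miq (nat_lit 2739517008) (nat_lit 802797599053058732603803873)) (C.cons (nat_lit 152) (C.node (nat_lit 3) (nat_lit 4) (nat_lit 9) (C.cons (nat_lit 1560) (C.node (nat_lit 7) (nat_lit 9) (nat_lit 10) (C.cons (nat_lit 1728) (C.miq (nat_lit 598281063) (nat_lit 1885936177333386085320886497)) (C.cons (nat_lit 1696) (C.miq (nat_lit 1772467248) (nat_lit 2050380120258791260847409181)) (C.cons (nat_lit 1664) (C.node (nat_lit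 2) (nat_lit 9) (nat_lit 10) (C.cons (nat_lit 1574) (C.miq (nat_lit 1772467248) (nat_lit 1902891170265806501533255709))
  (C.cons (nat_lit 1572) (C.miq (nat_lit 1772467248) (nat_lit 1900473318626577243183843357)) (C.cons (nat_lit 1542) (C.miq (nat_lit 699834736) (nat_lit 3191584326507939553463043219)) (C.cons (nat_lit 1540) (C.node (nat_lit 1) (nat_lit 2) (nat_lit 4) (C.cons (nat_lit 54) (C.node (nat_lit 1) (nat_lit 4) (nat_lit 11) (C.cons (nat_lit 2066) (C.node (nat_lit 1) (nat_lit 2) (nat_lit 11) (C.cons (nat_lit 3078) (C.miq (nat_lit 1504854177) (nat_lit 3099686797774013143368205459)) (C.cons (nat_lit 2054) (C.node (nat_lit 1) (nat_lit 3) (nat_lit 11) (C.cons (nat_lit 2058) (C.node (nat_lit 1) (nat_lit 5) (nat_lit 11) C.nil) C.nil)) C.nil))) C.nil)) (C.cons (nat_lit 22) (C.node (nat_lit 1) (nat_lit 3) (nat_lit 4) (C.cons (nat_lit 282) (C.node (nat_lit 1) (nat_lit 3) (nat_lit 10) (C.cons (nat_lit 1038) (C.miq (nat_lit 2793480259) (nat_lit 2865173340514673251535423517))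 (C.cons (nat_lit 1034) (C.node (nat_lit 1) (nat_lit 3) (nat_lit 11) (C.cons (nat_lit 2090) (C.miq (nat_lit 1367782208) (nat_lit 2865196122524234598392596509)) (C.cons (nat_lit 2058) (C.node (nat_lit 1) (nat_lit 3) (nat_lit 5) (C.cons (nat_lit 174) (C.miq (nat_lit 2436544336) (nat_lit 1250100152182682119779715297)) (C.cons (nat_lit 170) (C.miq (nat_lit 2436544336) (nat_lit 1250100152182682102599846113)) (C.cons (nat_lit 46) (C.miq (nat_lit 1367749124) (nat_lit 2865156406108908967727007773)) (C.cons (nat_lit 42) (C.node (nat_lit 1) (nat_lit 2) (nat_lit 3) (C.cons (nat_lit 206) (C.miq (nat_lit 592016976) (nat_lit 1885936176806733415837665505)) (C.cons (nat_lit 142) (C.miq (nat_lit 2266608176) (nat_lit 3252081309393013251534161949)) (C.cons (nat_lit 78) (C.miq (nat_lit 2786636576) (nat_lit 2865225047315615924244383773)) (C.cons (nat_lit 14) (C.node (nat_lit 1) (nat_lit 3) (nat_lit 6) C.nil) C.nil))))) C.nil))))) C.nil))) C.nil))) (C.cons (nat_lit 26) (C.node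 (nat_lit 3) (nat_lit 4) (nat_lit 8) (C.cons (nat_lit 280) (C.node (nat_lit 1) (nat_lit 3) (nat_lit 11) (C.cons (nat_lit 2090) (C.node (nat_lit 1) (nat_lit 4) (nat_lit 11) C.nil) (C.cons (nat_lit 2058) (C.node (nat_lit 1) (nat_lit 4) (nat_lit 8) (C.cons (nat_lit 306) (C.node (nat_lit 1) (nat_lit 4) (nat_lit 11) C.nil) (C.cons (nat_lit 274) (C.node (nat_lit 1) (nat_lit 4) (nat_lit 11) C.nil) C.nil))) C.nil))) C.nil)) C.nil))) C.nil))) C.nil))))) C.nil)))) (C.cons (nat_lit 792) (C.miq (nat_lit 1681373568) (nat_lit 183798654773800516522151681)) (C.cons (nat_lit 536) (C.miq (nat_lit 2739517008) (nat_lit 648055094142386198241413345)) C.nil)))) C.nil))) C.nil))) (C.cons (nat_lit 90) (C.miq (nat_lit 1399065273) (nat_lit 108813672688526330529058561)) (C.cons (nat_lit 88) (C.miq (nat_lit 1399065273) (nat_lit 106395821049297072179646209)) C.nil)))))) (C.cons (nat_lit 2114) (C.node (nat_lit 6) (nat_lit 8) (nat_lit 11) (C.cons (nat_lit 2368) (C.node (nat_lit 4)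 (nat_lit 6) (nat_lit 7) (C.cons (nat_lit 216) (C.miq (nat_lit 1399065273) (nat_lit 261138325959969606542036737)) (C.cons (nat_lit 212) (C.node (nat_lit 2) (nat_lit 4) (nat_lit 9) (C.cons (nat_lit 1556) (C.miq (nat_lit 2456527984) (nat_lit 2558157888686518426509837459)) (C.cons (nat_lit 788) (C.miq (nat_lit 1461980041) (nat_lit 256302623021529820751466241)) (C.cons (nat_lit 532) (C.node (nat_lit 4) (nat_lit 8) (nat_lit 9) (C.cons (nat_lit 912) (C.miq (nat_lit 2221578016) (nat_lit 1334724959055243816628191877)) (C.cons (nat_lit 792) (C.miq (nat_lit 929333433) (nat_lit 256306883690237191483559681)) (C.cons (nat_lit 784) (C.node (nat_lit 6) (nat_lit 7) (nat_lit 10) (C.cons (nat_lit 1728) (C.miq (nat_lit 913488528) (nat_lit 256330588530707228300480257)) (C.cons (nat_lit 1472) (C.miq (nat_lit 2251007808) (nat_lit 2558157888662874528453297299)) (C.cons (nat_lit 1216) (C.node (nat_lit 7) (nat_lit 8) (nat_lit 9) (C.cons (nat_lit 960) (C.miq (nat_lit 879168408)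 (nat_lit 256299523913357218296106753)) (C.cons (nat_lit 928) (C.miq (nat_lit 1411879096) (nat_lit 256309392494718170243010305)) (C.cons (nat_lit 896) (C.node (nat_lit 3) (nat_lit 4) (nat_lit 6) (C.cons (nat_lit 122)
  (C.miq (nat_lit 1737572867) (nat_lit 3252012705325804937875752989)) (C.cons (nat_lit 120) (C.node (nat_lit 1) (nat_lit 4) (nat_lit 6) (C.cons (nat_lit 82) (C.node (nat_lit 6) (nat_lit 7) (nat_lit 8) (C.cons (nat_lit 450) (C.node (nat_lit 1) (nat_lit 3) (nat_lit 6) (C.cons (nat_lit 78) (C.miq (nat_lit 2786636576) (nat_lit 544087473655527908808525853)) C.nil)) C.nil)) C.nil)) (C.cons (nat_lit 90) (C.miq (nat_lit 1399065273) (nat_lit 108813672688526330529058561)) (C.cons (nat_lit 88) (C.miq (nat_lit 1399065273) (nat_lit 106395821049297072179646209)) C.nil))))) C.nil)))) C.nil)))) C.nil)))) C.nil)))) (C.cons (nat_lit 208) (C.node (nat_lit 2) (nat_lit 6) (nat_lit 7) (C.cons (nat_lit 206) (C.miq (nat_lit 2266608176) (nat_lit 3252081309393013526412068893))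 (C.cons (nat_lit 204) (C.miq (nat_lit 2604075618) (nat_lit 2640305889269436549155259461)) (C.cons (nat_lit 198) (C.miq (nat_lit 2870348146) (nat_lit 2555689346037755578889405061)) (C.cons (nat_lit 196) (C.node (nat_lit 2) (nat_lit 4) (nat_lit 7) (C.cons (nat_lit 180) (C.node (nat_lit 1) (nat_lit 2) (nat_lit 7) (C.cons (nat_lit 142) (C.miq (nat_lit 1461273136) (nat_lit 3252020803437443936745621533)) (C.cons (nat_lit 134) (C.node (nat_lit 4) (nat_lit 7) (nat_lit 8) (C.cons (nat_lit 912) (C.miq (nat_lit 613971211) (nat_lit 1102585283807773269336066273)) (C.cons (nat_lit 400) (C.node (nat_lit 2) (nat_lit 4) (nat_lit 8) (C.cons (nat_lit 1300) (C.miq (nat_lit 2552499061) (nat_lit 1571613915203599126274246881)) (C.cons (nat_lit 788) (C.node (nat_lit 2) (nat_lit 4) (nat_lit 10) (C.cons (nat_lit 1044) (C.node (nat_lit 1) (nat_lit 2) (nat_lit 4) (C.cons (nat_lit 86) (C.miq (nat_lit 190941506) (nat_lit 2555674035240174185205859092)) (C.cons (nat_lit 22) (C.node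 (nat_lit 2) (nat_lit 4) (nat_lit 6) (C.cons (nat_lit 84) (C.node (nat_lit 4) (nat_lit 5) (nat_lit 10) (C.cons (nat_lit 1328) (C.miq (nat_lit 1385711370) (nat_lit 952658043183125942266561683)) (C.cons (nat_lit 1072) (C.node (nat_lit 3) (nat_lit 4) (nat_lit 7) C.nil) C.nil))) C.nil)) C.nil))) C.nil)) (C.cons (nat_lit 276) (C.miq (nat_lit 2552499061) (nat_lit 333673875918218851375122657)) C.nil)))) C.nil))) C.nil))) (C.cons (nat_lit 148) (C.node (nat_lit 2) (nat_lit 4) (nat_lit 9) (C.cons (nat_lit 1556) (C.node (nat_lit 3) (nat_lit 4) (nat_lit 6) (C.cons (nat_lit 122) (C.miq (nat_lit 882533643) (nat_lit 1881146571918073095560169697)) (C.cons (nat_lit 120) (C.miq (nat_lit 882533643) (nat_lit 1881146571917510145606748385)) (C.cons (nat_lit 90) (C.miq (nat_lit 1399065273) (nat_lit 108813672688526330529058561)) (C.cons (nat_lit 88) (C.miq (nat_lit 1399065273) (nat_lit 106395821049297072179646209)) C.nil))))) (C.cons (nat_lit 788) (C.miq (nat_lit 1461980041)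 (nat_lit 178931370566193553570270977)) (C.cons (nat_lit 532) (C.node (nat_lit 2) (nat_lit 9) (nat_lit 10) (C.cons (nat_lit 1574) (C.miq (nat_lit 308779531) (nat_lit 236999082829071904827051777)) (C.cons (nat_lit 1572) (C.miq (nat_lit 1784263428) (nat_lit 1900480088723513556809615389)) (C.cons (nat_lit 1548) (C.miq (nat_lit 846637323) (nat_lit 237007457643561095423659777)) (C.cons (nat_lit 1542) (C.miq (nat_lit 308779531) (nat_lit 236999082820064705572310785)) (C.cons (nat_lit 1540) (C.node (nat_lit 4) (nat_lit 9) (nat_lit 10) (C.cons (nat_lit 1560) (C.node (nat_lit 3) (nat_lit 4) (nat_lit 7) (C.cons (nat_lit 184) (C.miq (nat_lit 1665514128) (nat_lit 222484281143335336920813313)) (C.cons (nat_lit 152) (C.node (nat_lit 7) (nat_lit 9) (nat_lit 10) (C.cons (nat_lit 1728) (C.miq (nat_lit 913488528) (nat_lit 236987775416873161505181441)) (C.cons (nat_lit 1696) (C.miq (nat_lit 1772467248) (nat_lit 2050380120258791260847409181)) (C.cons (nat_lit 1664) (C.node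 (nat_lit 3) (nat_lit 7) (nat_lit 10) (C.cons (nat_lit 1164) (C.node (nat_lit 5) (nat_lit 7) (nat_lit 10) (C.cons (nat_lit 1440) (C.miq (nat_lit 1395105976) (nat_lit 1407216217642674272115887873)) (C.cons (nat_lit 1184) (C.node (nat_lit 6) (nat_lit 7) (nat_lit 10) (C.cons (nat_lit 1472)
  (C.miq (nat_lit 1185024115) (nat_lit 1321394234821094172112191881)) (C.cons (nat_lit 1216) (C.node (nat_lit 7) (nat_lit 8) (nat_lit 10) C.nil) C.nil))) C.nil))) (C.cons (nat_lit 1160) (C.node (nat_lit 2) (nat_lit 7) (nat_lit 10) (C.cons (nat_lit 1188) (C.node (nat_lit 1) (nat_lit 2) (nat_lit 7) (C.cons (nat_lit 142) (C.miq (nat_lit 2266608176) (nat_lit 3252081309393013251534161949)) (C.cons (nat_lit 134) (C.node (nat_lit 2) (nat_lit 3) (nat_lit 7) C.nil) C.nil))) (C.cons (nat_lit 1156) (C.node (nat_lit 4) (nat_lit 5) (nat_lit 7) (C.cons (nat_lit 432) (C.node (nat_lit 4) (nat_lit 7) (nat_lit 9) C.nil) (C.cons (nat_lit 176) (C.node (nat_lit 4) (nat_lit 7) (nat_lit 8)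 C.nil) C.nil))) C.nil))) C.nil))) C.nil)))) C.nil))) (C.cons (nat_lit 1552) (C.node (nat_lit 3) (nat_lit 4) (nat_lit 6) (C.cons (nat_lit 122) (C.miq (nat_lit 882533643) (nat_lit 1876310868639614578861344993)) (C.cons (nat_lit 120) (C.miq (nat_lit 882533643) (nat_lit 1876310868639051628907923681)) (C.cons (nat_lit 90) (C.miq (nat_lit 1399065273) (nat_lit 108813672688526330529058561)) (C.cons (nat_lit 88) (C.miq (nat_lit 1399065273) (nat_lit 106395821049297072179646209)) C.nil))))) C.nil))) C.nil)))))) C.nil)))) C.nil))) C.nil))))) C.nil)))) C.nil)) C.nil))) C.nil))) (C.cons (nat_lit 3138) (C.miq (nat_lit 1804771696) (nat_lit 3099705964666461798908888211)) (C.cons (nat_lit 3136) (C.node (nat_lit 3) (nat_lit 10) (nat_lit 11) (C.cons (nat_lit 3082) (C.node (nat_lit 1) (nat_lit 2) (nat_lit 11) (C.cons (nat_lit 2086) (C.node (nat_lit 2) (nat_lit 10) (nat_lit 11) (C.cons (nat_lit 3076) (C.node (nat_lit 5) (nat_lit 10) (nat_lit 11) (C.cons (nat_lit 3104) (C.node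 (nat_lit 1) (nat_lit 4) (nat_lit 11) C.nil) C.nil)) C.nil)) (C.cons (nat_lit 2054) (C.node (nat_lit 1) (nat_lit 6) (nat_lit 11) (C.cons (nat_lit 2370) (C.node (nat_lit 3) (nat_lit 6) (nat_lit 11) (C.cons (nat_lit 2120) (C.node (nat_lit 1) (nat_lit 4) (nat_lit 11) C.nil) C.nil)) (C.cons (nat_lit 2114) (C.node (nat_lit 2) (nat_lit 5) (nat_lit 11) (C.cons (nat_lit 3108) (C.node (nat_lit 3) (nat_lit 5) (nat_lit 11) C.nil) C.nil)) C.nil))) C.nil))) (C.cons (nat_lit 3080) (C.node (nat_lit 1) (nat_lit 8) (nat_lit 9) (C.cons (nat_lit 866) (C.miq (nat_lit 431130176) (nat_lit 3099690653229369258239918417)) (C.cons (nat_lit 834) (C.miq (nat_lit 431130176) (nat_lit 3099690653220362058985177425)) (C.cons (nat_lit 802) (C.node (nat_lit 1) (nat_lit 2) (nat_lit 4) (C.cons (nat_lit 118) (C.miq (nat_lit 1636385291) (nat_lit 969607206768502368410601501)) (C.cons (nat_lit 86) (C.miq (nat_lit 1636385291) (nat_lit 969607206759495169155860509)) (C.cons (nat_lit 54) (C.miq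 (nat_lit 3109292050) (nat_lit 678245699772396891861811463)) (C.cons (nat_lit 22) (C.node (nat_lit 1) (nat_lit 7) (nat_lit 8) (C.cons (nat_lit 450) (C.node (nat_lit 6) (nat_lit 8) (nat_lit 11) (C.cons (nat_lit 2376) (C.miq (nat_lit 380926000) (nat_lit 3191585765046605279607456137)) (C.cons (nat_lit 2368) (C.node (nat_lit 1) (nat_lit 6) (nat_lit 11) (C.cons (nat_lit 2122) (C.node (nat_lit 1) (nat_lit 8) (nat_lit 11) (C.cons (nat_lit 2322) (C.node (nat_lit 4) (nat_lit 5) (nat_lit 11) C.nil) C.nil)) C.nil)) C.nil))) (C.cons (nat_lit 386) (C.node (nat_lit 1) (nat_lit 2) (nat_lit 9) (C.cons (nat_lit 1542) (C.miq (nat_lit 699834736) (nat_lit 3191584326507939553463043219)) (C.cons (nat_lit 582) (C.node (nat_lit 1) (nat_lit 9) (nat_lit 10) (C.cons (nat_lit 1538) (C.node (nat_lit 1) (nat_lit 6) (nat_lit 7) (C.cons (nat_lit 202) (C.node (nat_lit 3) (nat_lit 6) (nat_lit 11) (C.cons (nat_lit 2376) (C.miq (nat_lit 448163971) (nat_lit 3791195096883403676061270409))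 (C.cons (nat_lit 2120) (C.node (nat_lit 1) (nat_lit 6) (nat_lit 11) (C.cons (nat_lit 2370) (C.node (nat_lit 4) (nat_lit 8) (nat_lit 11) (C.cons (nat_lit 2352) (C.miq (nat_lit 2035818571) (nat_lit 969603443781049924191258653)) C.nil)) C.nil)) C.nil))) (C.cons (nat_lit 194) (C.node (nat_lit 1) (nat_lit 3) (nat_lit 7) (C.cons (nat_lit 174) (C.miq (nat_lit 2836597621) (nat_lit 632287850522046498062862561))
  (C.cons (nat_lit 170) (C.miq (nat_lit 2836597621) (nat_lit 632287850522046498062600417)) (C.cons (nat_lit 142) (C.miq (nat_lit 2266608176) (nat_lit 3252081309393013251534161949)) (C.cons (nat_lit 138) (C.node (nat_lit 1) (nat_lit 2) (nat_lit 7) (C.cons (nat_lit 166) (C.node (nat_lit 1) (nat_lit 2) (nat_lit 3) (C.cons (nat_lit 1038) (C.node (nat_lit 1) (nat_lit 2) (nat_lit 11) C.nil) C.nil)) (C.cons (nat_lit 134) (C.node (nat_lit 1) (nat_lit 5) (nat_lit 7) C.nil) C.nil))) C.nil))))) C.nil))) C.nil)) (C.cons (nat_lit 518) (C.node (nat_lit 1) (nat_lit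 6) (nat_lit 9) (C.cons (nat_lit 1602) (C.node (nat_lit 1) (nat_lit 2) (nat_lit 6) (C.cons (nat_lit 206) (C.miq (nat_lit 2836532086) (nat_lit 626243737932807416058874081)) (C.cons (nat_lit 198) (C.miq (nat_lit 2836532086) (nat_lit 626243737932807416058349793)) (C.cons (nat_lit 110) (C.miq (nat_lit 3105032802) (nat_lit 632306518627044419200484421)) (C.cons (nat_lit 102) (C.miq (nat_lit 1453920776) (nat_lit 1936713957340098195215155463)) (C.cons (nat_lit 78) (C.miq (nat_lit 3105032802) (nat_lit 632306518627044419198387269)) (C.cons (nat_lit 70) (C.node (nat_lit 1) (nat_lit 6) (nat_lit 7) (C.cons (nat_lit 202) (C.node (nat_lit 1) (nat_lit 8) (nat_lit 10) (C.cons (nat_lit 1290) (C.miq (nat_lit 3122006071) (nat_lit 1936741093553066405756797321)) (C.cons (nat_lit 1282) (C.node (nat_lit 1) (nat_lit 2) (nat_lit 7) (C.cons (nat_lit 166) (C.node (nat_lit 1) (nat_lit 5) (nat_lit 10) (C.cons (nat_lit 3106) (C.miq (nat_lit 2703865200) (nat_lit 626294429378627021555697889))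 C.nil)) C.nil)) C.nil))) (C.cons (nat_lit 194) (C.node (nat_lit 6) (nat_lit 7) (nat_lit 8) (C.cons (nat_lit 1472) (C.miq (nat_lit 828836264) (nat_lit 234538858722877321200537345)) (C.cons (nat_lit 960) (C.miq (nat_lit 2041808448) (nat_lit 3104528754611016004991254865)) (C.cons (nat_lit 448) (C.node (nat_lit 1) (nat_lit 3) (nat_lit 7) (C.cons (nat_lit 174) (C.miq (nat_lit 2836597621) (nat_lit 632287850522046498062862561)) (C.cons (nat_lit 170) (C.miq (nat_lit 2836597621) (nat_lit 632287850522046498062600417)) (C.cons (nat_lit 142) (C.miq (nat_lit 2266608176) (nat_lit 3252081309393013251534161949)) (C.cons (nat_lit 138) (C.node (nat_lit 1) (nat_lit 2) (nat_lit 7) C.nil) C.nil))))) C.nil)))) C.nil))) C.nil))))))) (C.cons (nat_lit 578) (C.node (nat_lit 1) (nat_lit 9) (nat_lit 10) (C.cons (nat_lit 1538) (C.node (nat_lit 2) (nat_lit 4) (nat_lit 7) (C.cons (nat_lit 212) (C.node (nat_lit 2) (nat_lit 4) (nat_lit 9) (C.cons (nat_lit 1556) (C.miq (nat_lit 2456527984)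 (nat_lit 2558157888686518426509837459)) (C.cons (nat_lit 788) (C.miq (nat_lit 1461980041) (nat_lit 256302623021529820751466241)) (C.cons (nat_lit 532) (C.node (nat_lit 4) (nat_lit 8) (nat_lit 9) (C.cons (nat_lit 912) (C.miq (nat_lit 2823162226) (nat_lit 407428164582551898985595525)) (C.cons (nat_lit 792) (C.miq (nat_lit 929333433) (nat_lit 256306883690237191483559681)) C.nil))) C.nil)))) (C.cons (nat_lit 180) (C.miq (nat_lit 1972904971) (nat_lit 969603443650164060118386717)) (C.cons (nat_lit 148) (C.node (nat_lit 2) (nat_lit 4) (nat_lit 6) (C.cons (nat_lit 116) (C.node (nat_lit 2) (nat_lit 4) (nat_lit 9) (C.cons (nat_lit 1556) (C.miq (nat_lit 3108309542) (nat_lit 678249315334238577343333445)) (C.cons (nat_lit 788) (C.miq (nat_lit 1917171856) (nat_lit 140277325210252953814896385)) (C.cons (nat_lit 532) (C.node (nat_lit 4) (nat_lit 9) (nat_lit 10) (C.cons (nat_lit 1560) (C.miq (nat_lit 895787193) (nat_lit 140264172295832583996968705)) C.nil)) C.nil))))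 (C.cons (nat_lit 84) (C.node (nat_lit 4) (nat_lit 6) (nat_lit 7) (C.cons (nat_lit 216) (C.node (nat_lit 3) (nat_lit 4) (nat_lit 9) (C.cons (nat_lit 1560) (C.miq (nat_lit 1447234458) (nat_lit 261147623459002363288227585)) (C.cons (nat_lit 792) (C.miq (nat_lit 968328288) (nat_lit 3252017704556712968230863185)) (C.cons (nat_lit 536) (C.miq (nat_lit 2302872423) (nat_lit 647991489965018929769744609)) C.nil)))) (C.cons (nat_lit 208) (C.node (nat_lit 2) (nat_lit 4) (nat_lit 9) (C.cons (nat_lit 1556)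
  (C.node (nat_lit 2) (nat_lit 4) (nat_lit 5) (C.cons (nat_lit 308) (C.miq (nat_lit 878248577) (nat_lit 678217033035582366636179719)) (C.cons (nat_lit 52) (C.node (nat_lit 2) (nat_lit 4) (nat_lit 8) (C.cons (nat_lit 276) (C.node (nat_lit 5) (nat_lit 9) (nat_lit 10) (C.cons (nat_lit 1696) (C.miq (nat_lit 1496021568) (nat_lit 3099727731418576989363963027)) (C.cons (nat_lit 1632) (C.miq (nat_lit 882510693) (nat_lit 1881108221687436361963931873)) (C.cons (nat_lit 1568) (C.node (nat_lit 5) (nat_lit 7) (nat_lit 9) (C.cons (nat_lit 680) (C.node (nat_lit 2) (nat_lit 5) (nat_lit 9) C.nil) C.nil)) C.nil)))) C.nil)) C.nil))) (C.cons (nat_lit 788) (C.miq (nat_lit 1461980041) (nat_lit 178931370566193553570270977)) (C.cons (nat_lit 532) (C.node (nat_lit 4) (nat_lit 9) (nat_lit 10) (C.cons (nat_lit 1560) (C.node (nat_lit 2) (nat_lit 9) (nat_lit 10) (C.cons (nat_lit 1572) (C.miq (nat_lit 1772467248) (nat_lit 1900473318626577243183843357)) C.nil)) C.nil)) C.nil))))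 C.nil))) C.nil))) C.nil)))) C.nil)) C.nil))) C.nil)))) C.nil))) C.nil))))) (C.cons (nat_lit 770) (C.node (nat_lit 1) (nat_lit 2) (nat_lit 4) (C.cons (nat_lit 118) (C.miq (nat_lit 1636385291) (nat_lit 930921580540834234820003869)) (C.cons (nat_lit 86) (C.miq (nat_lit 1636385291) (nat_lit 930921580531827035565262877)) (C.cons (nat_lit 54) (C.node (nat_lit 1) (nat_lit 2) (nat_lit 11) (C.cons (nat_lit 3078) (C.miq (nat_lit 1504854177) (nat_lit 3099686797774013143368205459)) (C.cons (nat_lit 2054) (C.node (nat_lit 1) (nat_lit 4) (nat_lit 11) (C.cons (nat_lit 2322) (C.node (nat_lit 4) (nat_lit 5) (nat_lit 11) C.nil) C.nil)) C.nil))) (C.cons (nat_lit 22) (C.node (nat_lit 1) (nat_lit 3) (nat_lit 7) (C.cons (nat_lit 206) (C.miq (nat_lit 2266608176) (nat_lit 3252081309393013526412068893)) (C.cons (nat_lit 202) (C.node (nat_lit 3) (nat_lit 6) (nat_lit 11) (C.cons (nat_lit 2376) (C.miq (nat_lit 448163971) (nat_lit 3791195096883403676061270409)) (C.cons (nat_lit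 2120) (C.node (nat_lit 1) (nat_lit 6) (nat_lit 11) (C.cons (nat_lit 2370) (C.node (nat_lit 1) (nat_lit 3) (nat_lit 11) (C.cons (nat_lit 2090) (C.node (nat_lit 1) (nat_lit 4) (nat_lit 11) C.nil) C.nil)) C.nil)) C.nil))) (C.cons (nat_lit 174) (C.miq (nat_lit 2836597621) (nat_lit 632287850522046498062862561)) (C.cons (nat_lit 170) (C.miq (nat_lit 2836597621) (nat_lit 632287850522046498062600417)) (C.cons (nat_lit 142) (C.miq (nat_lit 2266608176) (nat_lit 3252081309393013251534161949)) (C.cons (nat_lit 138) (C.node (nat_lit 1) (nat_lit 2) (nat_lit 7) (C.cons (nat_lit 198) (C.miq (nat_lit 380334601) (nat_lit 3791240992108772110612103813)) (C.cons (nat_lit 166) (C.node (nat_lit 2) (nat_lit 5) (nat_lit 11) (C.cons (nat_lit 3108) (C.miq (nat_lit 891751096) (nat_lit 200688935926233609969864449)) (C.cons (nat_lit 2084) (C.node (nat_lit 5) (nat_lit 10) (nat_lit 11) (C.cons (nat_lit 3106) (C.miq (nat_lit 2605845015) (nat_lit 2519413307307973468473394323)) C.nil))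 C.nil))) (C.cons (nat_lit 134) (C.node (nat_lit 1) (nat_lit 5) (nat_lit 7) (C.cons (nat_lit 418) (C.node (nat_lit 1) (nat_lit 6) (nat_lit 7) (C.cons (nat_lit 194) (C.node (nat_lit 4) (nat_lit 5) (nat_lit 7) (C.cons (nat_lit 184) (C.miq (nat_lit 1411478280) (nat_lit 26604078822344968815182217)) (C.cons (nat_lit 180) (C.miq (nat_lit 2557807396) (nat_lit 505341342303496194183399453)) (C.cons (nat_lit 176) (C.node (nat_lit 2) (nat_lit 4) (nat_lit 7) (C.cons (nat_lit 212) (C.node (nat_lit 4) (nat_lit 7) (nat_lit 8) (C.cons (nat_lit 912) (C.miq (nat_lit 2823162226) (nat_lit 407428164582551898985595525)) (C.cons (nat_lit 400) (C.node (nat_lit 7) (nat_lit 8) (nat_lit 9) (C.cons (nat_lit 960) (C.miq (nat_lit 879168408) (nat_lit 256299523913357218296106753)) (C.cons (nat_lit 896) (C.node (nat_lit 6) (nat_lit 7) (nat_lit 8) (C.cons (nat_lit 1472) (C.miq (nat_lit 2251007808) (nat_lit 2558157888662874528453297299)) C.nil)) C.nil))) C.nil))) (C.cons (nat_lit 148)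 (C.node (nat_lit 2) (nat_lit 4) (nat_lit 6) (C.cons (nat_lit 116) (C.node (nat_lit 2) (nat_lit 4) (nat_lit 9) (C.cons (nat_lit 1556)
  (C.miq (nat_lit 3108309542) (nat_lit 678249315334238577343333445)) (C.cons (nat_lit 788) (C.miq (nat_lit 1917171856) (nat_lit 140277325210252953814896385)) (C.cons (nat_lit 532) (C.node (nat_lit 4) (nat_lit 9) (nat_lit 10) (C.cons (nat_lit 1560) (C.miq (nat_lit 895787193) (nat_lit 140264172295832583996968705)) (C.cons (nat_lit 1552) (C.node (nat_lit 1) (nat_lit 4) (nat_lit 6) (C.cons (nat_lit 90) (C.node (nat_lit 4) (nat_lit 6) (nat_lit 7) (C.cons (nat_lit 208) (C.node (nat_lit 1) (nat_lit 4) (nat_lit 5) (C.cons (nat_lit 2098) (C.miq (nat_lit 2202103989) (nat_lit 108811034614968022947989729)) C.nil)) C.nil)) (C.cons (nat_lit 82) (C.node (nat_lit 2) (nat_lit 4) (nat_lit 8) (C.cons (nat_lit 1300) (C.node (nat_lit 4) (nat_lit 5) (nat_lit 8) (C.cons (nat_lit 2352) (C.miq (nat_lit 2458126261) (nat_lit 1571613914304005100849334497))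 (C.cons (nat_lit 312) (C.miq (nat_lit 3091532326) (nat_lit 377226786250194813329867845)) (C.cons (nat_lit 304) (C.miq (nat_lit 3091532326) (nat_lit 367555379693277779932218437)) C.nil)))) (C.cons (nat_lit 276) (C.node (nat_lit 2) (nat_lit 4) (nat_lit 10) (C.cons (nat_lit 1044) (C.node (nat_lit 4) (nat_lit 5) (nat_lit 10) C.nil) C.nil)) C.nil))) C.nil))) C.nil))) C.nil)))) (C.cons (nat_lit 84) (C.node (nat_lit 2) (nat_lit 6) (nat_lit 7) (C.cons (nat_lit 204) (C.node (nat_lit 4) (nat_lit 6) (nat_lit 7) (C.cons (nat_lit 208) (C.node (nat_lit 7) (nat_lit 8) (nat_lit 10) (C.cons (nat_lit 1472) (C.miq (nat_lit 2787870512) (nat_lit 2558157888662874494093558153)) C.nil)) C.nil)) (C.cons (nat_lit 196) (C.node (nat_lit 4) (nat_lit 6) (nat_lit 7) (C.cons (nat_lit 216) (C.node (nat_lit 4) (nat_lit 7) (nat_lit 8) (C.cons (nat_lit 912) (C.miq (nat_lit 949252278) (nat_lit 1102544332095897891584870625)) C.nil)) (C.cons (nat_lit 208) (C.node (nat_lit 3) (nat_lit 4)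 (nat_lit 7) C.nil) C.nil))) C.nil))) C.nil))) C.nil))) C.nil)))) C.nil)) (C.cons (nat_lit 162) (C.node (nat_lit 1) (nat_lit 6) (nat_lit 7) (C.cons (nat_lit 450) (C.node (nat_lit 6) (nat_lit 8) (nat_lit 11) (C.cons (nat_lit 2376) (C.miq (nat_lit 380926000) (nat_lit 3191585765046605279607456137)) (C.cons (nat_lit 2368) (C.node (nat_lit 1) (nat_lit 6) (nat_lit 11) (C.cons (nat_lit 2122) (C.node (nat_lit 3) (nat_lit 5) (nat_lit 11) (C.cons (nat_lit 2344) (C.node (nat_lit 1) (nat_lit 8) (nat_lit 11) C.nil) C.nil)) C.nil)) C.nil))) (C.cons (nat_lit 194) (C.node (nat_lit 1) (nat_lit 7) (nat_lit 8) (C.cons (nat_lit 386) (C.node (nat_lit 6) (nat_lit 7) (nat_lit 8) (C.cons (nat_lit 1472) (C.node (nat_lit 2) (nat_lit 6) (nat_lit 7) (C.cons (nat_lit 212) (C.miq (nat_lit 2251007808) (nat_lit 2558157888662874528453297299)) (C.cons (nat_lit 204) (C.miq (nat_lit 2787870512) (nat_lit 2558157888662874494093558153)) (C.cons (nat_lit 196) (C.node (nat_lit 4) (nat_lit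 6) (nat_lit 7) (C.cons (nat_lit 216) (C.miq (nat_lit 2524492848) (nat_lit 1779609661159816129810073629)) (C.cons (nat_lit 208) (C.node (nat_lit 2) (nat_lit 4) (nat_lit 7) C.nil) C.nil))) C.nil)))) (C.cons (nat_lit 960) (C.miq (nat_lit 2041808448) (nat_lit 3104528754611016004991254865)) (C.cons (nat_lit 448) (C.node (nat_lit 7) (nat_lit 8) (nat_lit 10) (C.cons (nat_lit 1440) (C.node (nat_lit 2) (nat_lit 7) (nat_lit 10) (C.cons (nat_lit 1164) (C.miq (nat_lit 1395105976) (nat_lit 1407216217642674272115887873)) (C.cons (nat_lit 1156) (C.node (nat_lit 4) (nat_lit 7) (nat_lit 8) C.nil) C.nil))) (C.cons (nat_lit 1408) (C.node (nat_lit 4) (nat_lit 6) (nat_lit 7) (C.cons (nat_lit 216) (C.miq (nat_lit 2524492848) (nat_lit 541669621874435854910949405)) (C.cons (nat_lit 212) (C.node (nat_lit 2) (nat_lit 3) (nat_lit 7) C.nil) (C.cons (nat_lit 208) (C.node (nat_lit 2) (nat_lit 4) (nat_lit 7) C.nil) C.nil)))) C.nil))) C.nil)))) C.nil)) C.nil))) C.nil))) C.nil))))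 C.nil))))))) C.nil))))) C.nil))))) C.nil))) C.nil))))) C.nil)))) List.nil))

theorem ok12_286 : okL par12 (nat_lit 288) c12_286 (nat_lit 286) = true := by decide +kernel

noncomputable def c12_288 : List C :=
  (List.cons (C.node (nat_lit 3) (nat_lit 9) (nat_lit 11) (C.cons (nat_lit 2632) (C.node (nat_lit 6) (nat_lit 10) (nat_lit 11) (C.cons (nat_lit 3138) (C.miq (nat_lit 649660951) (nat_lit 3181904655683297157815862419)) (C.cons (nat_lit 3136) (C.node (nat_lit 1) (nat_lit 3) (nat_lit 7) (C.cons (nat_lit 206) (C.miq (nat_lit 2838563687) (nat_lit 632289805876918062169327841)) (C.cons (nat_lit 202) (C.miq (nat_lit 2838563687) (nat_lit 632289805876918062169065697)) (C.cons (nat_lit 174) (C.miq (nat_lit 2836597621) (nat_lit 632287850522046498062862561)) (C.cons (nat_lit 170) (C.miq (nat_lit 2836597621) (nat_lit 632287850522046498062600417)) (C.cons (nat_lit 142) (C.miq (nat_lit 2266608176) (nat_lit 3252081309393013251534161949)) (C.cons (nat_lit 138) (C.node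 (nat_lit 2) (nat_lit 6) (nat_lit 11) (C.cons (nat_lit 2118) (C.node (nat_lit 6) (nat_lit 8) (nat_lit 11) (C.cons (nat_lit 2368) (C.node (nat_lit 1) (nat_lit 6) (nat_lit 7) (C.cons (nat_lit 450) (C.miq (nat_lit 840436583) (nat_lit 317954740713701064199768289)) (C.cons (nat_lit 194) (C.node (nat_lit 1) (nat_lit 2) (nat_lit 7) (C.cons (nat_lit 166) (C.node (nat_lit 1) (nat_lit 7) (nat_lit 8) (C.cons (nat_lit 386) (C.node (nat_lit 2) (nat_lit 10) (nat_lit 11) (C.cons (nat_lit 3108) (C.miq (nat_lit 891751096) (nat_lit 200688935926233609969864449)) (C.cons (nat_lit 3076) (C.node (nat_lit 5) (nat_lit 10) (nat_lit 11) (C.cons (nat_lit 3106) (C.miq (nat_lit 2686826865) (nat_lit 44787551993982377141865090)) (C.cons (nat_lit 3104) (C.node (nat_lit 2) (nat_lit 5) (nat_lit 11) (C.cons (nat_lit 2596) (C.miq (nat_lit 448098450) (nat_lit 3752508806572948888941232773)) (C.cons (nat_lit 2084) (C.node (nat_lit 2) (nat_lit 9) (nat_lit 11) C.nil) C.nil))) C.nil))) C.nil)))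 C.nil)) (C.cons (nat_lit 134) (C.node (nat_lit 1) (nat_lit 5) (nat_lit 7) (C.cons (nat_lit 418) (C.node (nat_lit 1) (nat_lit 8) (nat_lit 9) (C.cons (nat_lit 834) (C.miq (nat_lit 907196800) (nat_lit 2560543200572071407488798465)) (C.cons (nat_lit 786) (C.miq (nat_lit 1729366936) (nat_lit 1415658351961287779276689153)) (C.cons (nat_lit 770) (C.node (nat_lit 2) (nat_lit 9) (nat_lit 11) (C.cons (nat_lit 2596) (C.node (nat_lit 2) (nat_lit 10) (nat_lit 11) (C.cons (nat_lit 3076) (C.node (nat_lit 5) (nat_lit 10) (nat_lit 11) (C.cons (nat_lit 3106) (C.miq (nat_lit 655724715) (nat_lit 505378880528086734611812097)) (C.cons (nat_lit 3104) (C.node (nat_lit 1) (nat_lit 10) (nat_lit 11) (C.cons (nat_lit 3074) (C.node (nat_lit 3) (nat_lit 10) (nat_lit 11) C.nil) C.nil)) C.nil))) C.nil)) (C.cons (nat_lit 2564) (C.node (nat_lit 5) (nat_lit 9) (nat_lit 11) (C.cons (nat_lit 2592) (C.node (nat_lit 2) (nat_lit 5) (nat_lit 11) (C.cons (nat_lit 3108) (C.node (nat_lit 2)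 (nat_lit 5) (nat_lit 7) (C.cons (nat_lit 180) (C.miq (nat_lit 891751096) (nat_lit 217613897400838418415750913)) (C.cons (nat_lit 172) (C.miq (nat_lit 2776150576) (nat_lit 505401847417727079791790109)) (C.cons (nat_lit 164) (C.miq (nat_lit 891751096) (nat_lit 198271084287004351620452097)) C.nil)))) (C.cons (nat_lit 2084) (C.node (nat_lit 2) (nat_lit 10) (nat_lit 11) C.nil) C.nil))) C.nil)) C.nil))) C.nil)))) (C.cons (nat_lit 162) (C.node (nat_lit 1) (nat_lit 7) (nat_lit 8) (C.cons (nat_lit 386) (C.node (nat_lit 2) (nat_lit 9) (nat_lit 11) (C.cons (nat_lit 2596) (C.node (nat_lit 2) (nat_lit 10) (nat_lit 11) (C.cons (nat_lit 3076) (C.node (nat_lit 5) (nat_lit 10) (nat_lit 11) (C.cons (nat_lit 3106) (C.miq (nat_lit 655724715) (nat_lit 195893870706741665887031041)) (C.cons (nat_lit 3104) (C.node (nat_lit 1) (nat_lit 10) (nat_lit 11) (C.cons (nat_lit 3074) (C.node (nat_lit 3) (nat_lit 10) (nat_lit 11) C.nil) C.nil)) C.nil))) C.nil)) (C.cons (nat_lit 2564)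 (C.node (nat_lit 5) (nat_lit 9) (nat_lit 11) (C.cons (nat_lit 2592) (C.node (nat_lit 2) (nat_lit 5) (nat_lit 11) (C.cons (nat_lit 3108) (C.node (nat_lit 1) (nat_lit 10) (nat_lit 11) (C.cons (nat_lit 3074) (C.node (nat_lit 3) (nat_lit 10) (nat_lit 11) C.nil) C.nil)) (C.cons (nat_lit 2084)
  (C.node (nat_lit 2) (nat_lit 10) (nat_lit 11) C.nil) C.nil))) C.nil)) C.nil))) C.nil)) C.nil))) C.nil))) C.nil))) C.nil)) (C.cons (nat_lit 2116) (C.node (nat_lit 1) (nat_lit 6) (nat_lit 11) (C.cons (nat_lit 2370) (C.node (nat_lit 1) (nat_lit 6) (nat_lit 7) (C.cons (nat_lit 198) (C.miq (nat_lit 2551319399) (nat_lit 317959389789730580239616225)) (C.cons (nat_lit 194) (C.node (nat_lit 1) (nat_lit 2) (nat_lit 7) (C.cons (nat_lit 166) (C.node (nat_lit 1) (nat_lit 7) (nat_lit 8) (C.cons (nat_lit 386) (C.node (nat_lit 5) (nat_lit 10) (nat_lit 11) (C.cons (nat_lit 3108) (C.miq (nat_lit 891751096) (nat_lit 200688935926233609969864449)) (C.cons (nat_lit 3106) (C.miq (nat_lit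 2686826865) (nat_lit 44787551993982377141865090)) (C.cons (nat_lit 3104) (C.node (nat_lit 2) (nat_lit 5) (nat_lit 11) (C.cons (nat_lit 2596) (C.miq (nat_lit 448098450) (nat_lit 3752508806572948888941232773)) (C.cons (nat_lit 2084) (C.node (nat_lit 2) (nat_lit 9) (nat_lit 11) (C.cons (nat_lit 2564) (C.node (nat_lit 5) (nat_lit 9) (nat_lit 11) C.nil) C.nil)) C.nil))) C.nil)))) C.nil)) (C.cons (nat_lit 134) (C.node (nat_lit 1) (nat_lit 4) (nat_lit 11) (C.cons (nat_lit 2098) (C.node (nat_lit 4) (nat_lit 8) (nat_lit 11) (C.cons (nat_lit 2320) (C.node (nat_lit 2) (nat_lit 9) (nat_lit 11) (C.cons (nat_lit 2596) (C.miq (nat_lit 1500623364) (nat_lit 3252049156763130932470417437)) (C.cons (nat_lit 2564) (C.node (nat_lit 5) (nat_lit 9) (nat_lit 11) (C.cons (nat_lit 2592) (C.node (nat_lit 1) (nat_lit 2) (nat_lit 11) C.nil) C.nil)) C.nil))) C.nil)) (C.cons (nat_lit 2066) (C.node (nat_lit 1) (nat_lit 5) (nat_lit 7) (C.cons (nat_lit 418) (C.node (nat_lit 1) (nat_lit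 8) (nat_lit 9) (C.cons (nat_lit 786) (C.miq (nat_lit 1729366936) (nat_lit 1415658351961287779276689153)) (C.cons (nat_lit 770) (C.node (nat_lit 1) (nat_lit 4) (nat_lit 8) (C.cons (nat_lit 282) (C.miq (nat_lit 1363900464) (nat_lit 2497682672890761168335733129)) (C.cons (nat_lit 274) (C.node (nat_lit 3) (nat_lit 8) (nat_lit 11) (C.cons (nat_lit 2344) (C.miq (nat_lit 940881264) (nat_lit 331283989121628629391050977)) (C.cons (nat_lit 2312) (C.node (nat_lit 4) (nat_lit 5) (nat_lit 11) (C.cons (nat_lit 2352) (C.miq (nat_lit 2508653746) (nat_lit 505342890906760101545379869)) (C.cons (nat_lit 2096) (C.node (nat_lit 4) (nat_lit 8) (nat_lit 11) C.nil) C.nil))) C.nil))) C.nil))) C.nil))) (C.cons (nat_lit 162) (C.node (nat_lit 1) (nat_lit 7) (nat_lit 8) (C.cons (nat_lit 386) (C.node (nat_lit 2) (nat_lit 9) (nat_lit 11) (C.cons (nat_lit 2596) (C.node (nat_lit 3) (nat_lit 8) (nat_lit 11) (C.cons (nat_lit 2344) (C.miq (nat_lit 1393145970) (nat_lit 632316092065845441741523332))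 (C.cons (nat_lit 2312) (C.node (nat_lit 1) (nat_lit 2) (nat_lit 11) (C.cons (nat_lit 2054) (C.node (nat_lit 2) (nat_lit 10) (nat_lit 11) C.nil) C.nil)) C.nil))) (C.cons (nat_lit 2564) (C.node (nat_lit 5) (nat_lit 9) (nat_lit 11) (C.cons (nat_lit 2592) (C.node (nat_lit 3) (nat_lit 8) (nat_lit 11) (C.cons (nat_lit 2344) (C.node (nat_lit 4) (nat_lit 5) (nat_lit 11) C.nil) C.nil)) C.nil)) C.nil))) C.nil)) C.nil))) C.nil))) C.nil))) C.nil))) (C.cons (nat_lit 2114) (C.node (nat_lit 6) (nat_lit 8) (nat_lit 11) (C.cons (nat_lit 2368) (C.node (nat_lit 2) (nat_lit 9) (nat_lit 11) (C.cons (nat_lit 2596) (C.node (nat_lit 5) (nat_lit 10) (nat_lit 11) (C.cons (nat_lit 3106) (C.miq (nat_lit 1376434545) (nat_lit 1321413217156594439692683906)) (C.cons (nat_lit 3104) (C.node (nat_lit 3) (nat_lit 8) (nat_lit 11) (C.cons (nat_lit 2344) (C.miq (nat_lit 1393145970) (nat_lit 632316092065845441741523332)) (C.cons (nat_lit 2314) (C.miq (nat_lit 2274472451) (nat_lit 3252053141214814857417394205))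 C.nil))) C.nil))) (C.cons (nat_lit 2564) (C.node (nat_lit 5) (nat_lit 9) (nat_lit 11) C.nil) C.nil))) C.nil)) C.nil))) C.nil))) C.nil))))))) C.nil))) (C.cons (nat_lit 2600) (C.miq (nat_lit 2710767541) (nat_lit 632287849770508310404401377)) (C.cons (nat_lit 2568) (C.node (nat_lit 5) (nat_lit 9) (nat_lit 11) (C.cons (nat_lit 2596) (C.node (nat_lit 6) (nat_lit 9) (nat_lit 11)
  (C.cons (nat_lit 2624) (C.node (nat_lit 5) (nat_lit 10) (nat_lit 11) (C.cons (nat_lit 3106) (C.miq (nat_lit 1376434545) (nat_lit 1321413217156594439692683906)) (C.cons (nat_lit 3104) (C.node (nat_lit 4) (nat_lit 5) (nat_lit 11) (C.cons (nat_lit 2354) (C.miq (nat_lit 1500623364) (nat_lit 3252053879129613802115631133)) (C.cons (nat_lit 2352) (C.miq (nat_lit 2215097746) (nat_lit 1415697071699325874791057956)) (C.cons (nat_lit 2098) (C.miq (nat_lit 1500623364) (nat_lit 3252049156763130932470417437)) (C.cons (nat_lit 2096) (C.node (nat_lit 1) (nat_lit 4) (nat_lit 11) (C.cons (nat_lit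 2322) (C.node (nat_lit 2) (nat_lit 10) (nat_lit 11) (C.cons (nat_lit 3078) (C.miq (nat_lit 1656228372) (nat_lit 2944949513441654879309399187)) (C.cons (nat_lit 3076) (C.node (nat_lit 5) (nat_lit 8) (nat_lit 11) (C.cons (nat_lit 2344) (C.miq (nat_lit 1393145970) (nat_lit 632316092065845441741523332)) C.nil)) C.nil))) (C.cons (nat_lit 2066) (C.node (nat_lit 4) (nat_lit 8) (nat_lit 11) C.nil) C.nil))) C.nil))))) C.nil))) C.nil)) (C.cons (nat_lit 2592) (C.node (nat_lit 2) (nat_lit 9) (nat_lit 11) (C.cons (nat_lit 2628) (C.node (nat_lit 6) (nat_lit 8) (nat_lit 11) (C.cons (nat_lit 2378) (C.miq (nat_lit 2274472451) (nat_lit 3252054321806435574828697629)) (C.cons (nat_lit 2376) (C.miq (nat_lit 1661581426) (nat_lit 632316682370662999701916036)) (C.cons (nat_lit 2370) (C.miq (nat_lit 2713061266) (nat_lit 2865174355107562459955987077)) (C.cons (nat_lit 2368) (C.node (nat_lit 2) (nat_lit 4) (nat_lit 7) (C.cons (nat_lit 212) (C.miq (nat_lit 2875459879) (nat_lit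 2572615746358397870393262725)) (C.cons (nat_lit 180) (C.node (nat_lit 4) (nat_lit 7) (nat_lit 8) (C.cons (nat_lit 912) (C.miq (nat_lit 613971211) (nat_lit 1102585283807773269336066273)) (C.cons (nat_lit 400) (C.node (nat_lit 2) (nat_lit 4) (nat_lit 8) (C.cons (nat_lit 1300) (C.miq (nat_lit 2552499061) (nat_lit 1571613915203599126274246881)) (C.cons (nat_lit 788) (C.node (nat_lit 2) (nat_lit 4) (nat_lit 10) (C.cons (nat_lit 1044) (C.node (nat_lit 7) (nat_lit 8) (nat_lit 9) (C.cons (nat_lit 960) (C.miq (nat_lit 848825191) (nat_lit 952640796011383571387255009)) (C.cons (nat_lit 928) (C.node (nat_lit 5) (nat_lit 7) (nat_lit 10) (C.cons (nat_lit 1184) (C.node (nat_lit 1) (nat_lit 5) (nat_lit 7) (C.cons (nat_lit 170) (C.miq (nat_lit 2836597621) (nat_lit 632287850522046498062600417)) (C.cons (nat_lit 162) (C.node (nat_lit 3) (nat_lit 5) (nat_lit 7) (C.cons (nat_lit 168) (C.node (nat_lit 2) (nat_lit 3) (nat_lit 9) (C.cons (nat_lit 1548) (C.miq (nat_lit 422214496)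 (nat_lit 1871438770657935250927454433)) (C.cons (nat_lit 556) (C.miq (nat_lit 391709731) (nat_lit 1121892808579134395081558045)) (C.cons (nat_lit 524) (C.node (nat_lit 2) (nat_lit 10) (nat_lit 11) (C.cons (nat_lit 3110) (C.miq (nat_lit 891751096) (nat_lit 217613897400838427005685505)) (C.cons (nat_lit 3108) (C.miq (nat_lit 891751096) (nat_lit 217613897400838418415750913)) (C.cons (nat_lit 3078) (C.miq (nat_lit 2460071431) (nat_lit 3721123295255107811711060193)) (C.cons (nat_lit 3076) (C.node (nat_lit 5) (nat_lit 10) (nat_lit 11) (C.cons (nat_lit 3106) (C.miq (nat_lit 1780162681) (nat_lit 3754972074074121104466772613)) (C.cons (nat_lit 3104) (C.node (nat_lit 3) (nat_lit 8) (nat_lit 11) (C.cons (nat_lit 2346) (C.miq (nat_lit 896710800) (nat_lit 217644962078418627320942337)) (C.cons (nat_lit 2344) (C.miq (nat_lit 896710800) (nat_lit 217644962077855677367521025)) (C.cons (nat_lit 2314) (C.miq (nat_lit 410598176) (nat_lit 1121892808900869982913890333))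 C.nil)))) C.nil))) C.nil))))) C.nil)))) C.nil)) C.nil))) C.nil)) (C.cons (nat_lit 896) (C.miq (nat_lit 1468599076) (nat_lit 1083207883637936176250488861)) C.nil)))) C.nil)) (C.cons (nat_lit 276) (C.miq (nat_lit 2552499061) (nat_lit 333673875918218851375122657)) C.nil)))) C.nil))) (C.cons (nat_lit 148) (C.node (nat_lit 2) (nat_lit 4) (nat_lit 9) (C.cons (nat_lit 1556) (C.miq (nat_lit 1648867744) (nat_lit 178962951491967581508800257)) (C.cons (nat_lit 788)
  (C.miq (nat_lit 1461980041) (nat_lit 178931370566193553570270977)) (C.cons (nat_lit 534) (C.miq (nat_lit 2710702006) (nat_lit 645586550295103295195449569)) (C.cons (nat_lit 532) (C.node (nat_lit 1) (nat_lit 4) (nat_lit 9) (C.cons (nat_lit 786) (C.miq (nat_lit 1729366936) (nat_lit 1415658351961287779276689153)) (C.cons (nat_lit 594) (C.node (nat_lit 1) (nat_lit 2) (nat_lit 4) (C.cons (nat_lit 54) (C.node (nat_lit 2) (nat_lit 4) (nat_lit 6) (C.cons (nat_lit 84) (C.node (nat_lit 1) (nat_lit 2) (nat_lit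 9) (C.cons (nat_lit 1542) (C.node (nat_lit 1) (nat_lit 2) (nat_lit 11) (C.cons (nat_lit 2054) (C.node (nat_lit 1) (nat_lit 5) (nat_lit 9) (C.cons (nat_lit 802) (C.miq (nat_lit 3109292050) (nat_lit 678245699772396891861811463)) (C.cons (nat_lit 546) (C.node (nat_lit 1) (nat_lit 8) (nat_lit 9) (C.cons (nat_lit 770) (C.node (nat_lit 4) (nat_lit 5) (nat_lit 11) (C.cons (nat_lit 2352) (C.miq (nat_lit 2224207111) (nat_lit 643193472965577832153811169)) (C.cons (nat_lit 2096) (C.node (nat_lit 1) (nat_lit 4) (nat_lit 11) (C.cons (nat_lit 2322) (C.node (nat_lit 3) (nat_lit 6) (nat_lit 11) (C.cons (nat_lit 3144) (C.miq (nat_lit 443257351) (nat_lit 3800912399043991512606114437)) (C.cons (nat_lit 2122) (C.miq (nat_lit 2796626041) (nat_lit 2565369034409266681036800645)) C.nil))) C.nil)) C.nil))) C.nil)) C.nil))) C.nil)) (C.cons (nat_lit 518) (C.miq (nat_lit 2710702006) (nat_lit 626243737181269228400150753)) C.nil))) C.nil)) (C.cons (nat_lit 22) (C.node (nat_lit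 1) (nat_lit 8) (nat_lit 9) (C.cons (nat_lit 802) (C.node (nat_lit 1) (nat_lit 2) (nat_lit 9) (C.cons (nat_lit 1542) (C.node (nat_lit 1) (nat_lit 7) (nat_lit 8) (C.cons (nat_lit 450) (C.miq (nat_lit 644980921) (nat_lit 544045064013606700928077569)) (C.cons (nat_lit 386) (C.node (nat_lit 2) (nat_lit 8) (nat_lit 9) (C.cons (nat_lit 780) (C.miq (nat_lit 2810318905) (nat_lit 2944971741790207215414280715)) (C.cons (nat_lit 772) (C.node (nat_lit 1) (nat_lit 5) (nat_lit 10) (C.cons (nat_lit 3106) (C.miq (nat_lit 1796867986) (nat_lit 3754943758654114956803703429)) (C.cons (nat_lit 1122) (C.miq (nat_lit 2980477216) (nat_lit 1356456699814067786094019205)) (C.cons (nat_lit 1058) (C.node (nat_lit 6) (nat_lit 8) (nat_lit 9) (C.cons (nat_lit 960) (C.miq (nat_lit 848825191) (nat_lit 933297982897549504591956193)) (C.cons (nat_lit 840) (C.miq (nat_lit 957843008) (nat_lit 3252017704570214979537666385)) (C.cons (nat_lit 832) (C.node (nat_lit 1) (nat_lit 5) (nat_lit 7)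 (C.cons (nat_lit 174) (C.miq (nat_lit 1729235866) (nat_lit 210373255544022216565198593)) (C.cons (nat_lit 170) (C.miq (nat_lit 2836597621) (nat_lit 632287850522046498062600417)) (C.cons (nat_lit 166) (C.miq (nat_lit 1729235866) (nat_lit 200701848987105183167549185)) (C.cons (nat_lit 162) (C.node (nat_lit 1) (nat_lit 2) (nat_lit 7) (C.cons (nat_lit 206) (C.miq (nat_lit 949121206) (nat_lit 933294532882409070029703393)) (C.cons (nat_lit 198) (C.node (nat_lit 1) (nat_lit 3) (nat_lit 7) (C.cons (nat_lit 138) (C.node (nat_lit 1) (nat_lit 2) (nat_lit 3) (C.cons (nat_lit 46) (C.miq (nat_lit 999628929) (nat_lit 3133536573575986235127759111)) (C.cons (nat_lit 14) (C.node (nat_lit 1) (nat_lit 2) (nat_lit 11) (C.cons (nat_lit 2086) (C.node (nat_lit 1) (nat_lit 4) (nat_lit 5) C.nil) C.nil)) C.nil))) C.nil)) (C.cons (nat_lit 142) (C.miq (nat_lit 1729235866) (nat_lit 171687629316354082974600961)) (C.cons (nat_lit 134) (C.miq (nat_lit 1729235866) (nat_lit 162016222759437049576951553))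 C.nil))))) C.nil))))) C.nil)))) C.nil)))) C.nil))) C.nil))) (C.cons (nat_lit 518) (C.miq (nat_lit 2710702006) (nat_lit 626243737181269228400150753)) C.nil))) (C.cons (nat_lit 770) (C.node (nat_lit 2) (nat_lit 4) (nat_lit 6) (C.cons (nat_lit 116) (C.node (nat_lit 1) (nat_lit 2) (nat_lit 9) (C.cons (nat_lit 1574) (C.miq (nat_lit 2303986214) (nat_lit 678213602437711952960816197)) (C.cons (nat_lit 1542) (C.node (nat_lit 1) (nat_lit 5) (nat_lit 9) (C.cons (nat_lit 546) (C.node (nat_lit 1) (nat_lit 2) (nat_lit 6) (C.cons (nat_lit 206)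
  (C.miq (nat_lit 1444495920) (nat_lit 718112285507167062929901597)) (C.cons (nat_lit 198) (C.node (nat_lit 1) (nat_lit 3) (nat_lit 7) (C.cons (nat_lit 170) (C.miq (nat_lit 975261799) (nat_lit 1864166750092026262629779681)) (C.cons (nat_lit 138) (C.node (nat_lit 1) (nat_lit 6) (nat_lit 11) (C.cons (nat_lit 3146) (C.miq (nat_lit 2772840593) (nat_lit 140293428831926134227730955)) (C.cons (nat_lit 3138) (C.node (nat_lit 3) (nat_lit 6) (nat_lit 11) (C.cons (nat_lit 2120) (C.node (nat_lit 3) (nat_lit 10) (nat_lit 11) (C.cons (nat_lit 3080) (C.node (nat_lit 1) (nat_lit 2) (nat_lit 11) (C.cons (nat_lit 2086) (C.node (nat_lit 2) (nat_lit 10) (nat_lit 11) C.nil) C.nil)) C.nil)) C.nil)) (C.cons (nat_lit 2122) (C.miq (nat_lit 2870348146) (nat_lit 2565360752594672612287054469)) (C.cons (nat_lit 2114) (C.miq (nat_lit 2870348146) (nat_lit 2555689346037755578889405061)) C.nil))))) C.nil))) (C.cons (nat_lit 78) (C.miq (nat_lit 1898363296) (nat_lit 94338144136394927700774657))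 (C.cons (nat_lit 70) (C.miq (nat_lit 1898363296) (nat_lit 84666737579477894303125249)) C.nil))))) C.nil)) (C.cons (nat_lit 550) (C.miq (nat_lit 2710702006) (nat_lit 664929363408937361990748385)) (C.cons (nat_lit 518) (C.miq (nat_lit 2710702006) (nat_lit 626243737181269228400150753)) C.nil))))) (C.cons (nat_lit 84) (C.node (nat_lit 4) (nat_lit 6) (nat_lit 7) (C.cons (nat_lit 216) (C.node (nat_lit 4) (nat_lit 9) (nat_lit 10) (C.cons (nat_lit 1560) (C.miq (nat_lit 1804824740) (nat_lit 3104525489906896761043551379)) (C.cons (nat_lit 1552) (C.node (nat_lit 3) (nat_lit 4) (nat_lit 9) (C.cons (nat_lit 792) (C.miq (nat_lit 2490073968) (nat_lit 2572664998306847111579238793)) (C.cons (nat_lit 536) (C.node (nat_lit 3) (nat_lit 4) (nat_lit 10) (C.cons (nat_lit 1304) (C.miq (nat_lit 918046474) (nat_lit 2862760395462522360641422483)) (C.cons (nat_lit 1048) (C.node (nat_lit 6) (nat_lit 7) (nat_lit 9) (C.cons (nat_lit 1728) (C.miq (nat_lit 645183904) (nat_lit 261166291663924657051078401))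 (C.cons (nat_lit 960) (C.miq (nat_lit 645118336) (nat_lit 261166291663921358465208065)) (C.cons (nat_lit 704) (C.node (nat_lit 4) (nat_lit 7) (nat_lit 9) (C.cons (nat_lit 912) (C.node (nat_lit 1) (nat_lit 2) (nat_lit 11) (C.cons (nat_lit 3110) (C.miq (nat_lit 2460071431) (nat_lit 3759808921482775945301657825)) C.nil)) C.nil)) C.nil)))) C.nil))) C.nil))) C.nil))) (C.cons (nat_lit 208) (C.node (nat_lit 4) (nat_lit 9) (nat_lit 10) (C.cons (nat_lit 1560) (C.node (nat_lit 3) (nat_lit 4) (nat_lit 6) (C.cons (nat_lit 120) (C.miq (nat_lit 2490082128) (nat_lit 2572664998523019481376162857)) (C.cons (nat_lit 88) (C.node (nat_lit 3) (nat_lit 4) (nat_lit 7) (C.cons (nat_lit 184) (C.miq (nat_lit 1536389284) (nat_lit 3104524899611086402337899667)) (C.cons (nat_lit 152) (C.node (nat_lit 4) (nat_lit 5) (nat_lit 6) (C.cons (nat_lit 1136) (C.miq (nat_lit 1443931283) (nat_lit 81017676016376780165940760)) (C.cons (nat_lit 112) (C.node (nat_lit 4) (nat_lit 6) (nat_lit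 10) C.nil) C.nil))) C.nil))) C.nil))) (C.cons (nat_lit 1552) (C.node (nat_lit 1) (nat_lit 2) (nat_lit 9) (C.cons (nat_lit 1574) (C.node (nat_lit 1) (nat_lit 2) (nat_lit 11) (C.cons (nat_lit 2054) (C.node (nat_lit 2) (nat_lit 5) (nat_lit 11) (C.cons (nat_lit 2084) (C.node (nat_lit 2) (nat_lit 10) (nat_lit 11) C.nil) C.nil)) C.nil)) (C.cons (nat_lit 1542) (C.node (nat_lit 1) (nat_lit 5) (nat_lit 9) (C.cons (nat_lit 546) (C.node (nat_lit 2) (nat_lit 6) (nat_lit 7) (C.cons (nat_lit 206) (C.miq (nat_lit 2266608176) (nat_lit 3252081309393013526412068893)) (C.cons (nat_lit 204) (C.miq (nat_lit 308779531) (nat_lit 246670489376981738969960193)) (C.cons (nat_lit 198) (C.node (nat_lit 1) (nat_lit 3) (nat_lit 7) (C.cons (nat_lit 170) (C.miq (nat_lit 975261799) (nat_lit 1864166750092026262629779681)) (C.cons (nat_lit 138) (C.node (nat_lit 1) (nat_lit 2) (nat_lit 3) (C.cons (nat_lit 46) (C.node (nat_lit 1) (nat_lit 2) (nat_lit 11) (C.cons (nat_lit 2054) (C.node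 (nat_lit 2) (nat_lit 3) (nat_lit 9) (C.cons (nat_lit 780)
  (C.miq (nat_lit 1898121880) (nat_lit 55617837602307730509139713)) (C.cons (nat_lit 524) (C.node (nat_lit 1) (nat_lit 3) (nat_lit 4) C.nil) C.nil))) C.nil)) (C.cons (nat_lit 14) (C.node (nat_lit 1) (nat_lit 2) (nat_lit 5) (C.cons (nat_lit 2086) (C.node (nat_lit 2) (nat_lit 10) (nat_lit 11) (C.cons (nat_lit 3076) (C.node (nat_lit 5) (nat_lit 10) (nat_lit 11) (C.cons (nat_lit 3104) (C.node (nat_lit 4) (nat_lit 5) (nat_lit 11) (C.cons (nat_lit 2352) (C.miq (nat_lit 2224207111) (nat_lit 643193472965577832153811169)) C.nil)) C.nil)) C.nil)) (C.cons (nat_lit 38) (C.node (nat_lit 1) (nat_lit 2) (nat_lit 11) C.nil) C.nil))) C.nil))) C.nil))) (C.cons (nat_lit 196) (C.miq (nat_lit 308779531) (nat_lit 236999082820064705572310785)) C.nil))))) C.nil)) (C.cons (nat_lit 550) (C.miq (nat_lit 2710702006) (nat_lit 664929363408937361990748385)) (C.cons (nat_lit 518) (C.miq (nat_lit 2710702006) (nat_lit 626243737181269228400150753))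 C.nil))))) C.nil))) C.nil))) C.nil))) C.nil))) C.nil))) (C.cons (nat_lit 530) (C.node (nat_lit 1) (nat_lit 2) (nat_lit 9) (C.cons (nat_lit 1574) (C.node (nat_lit 1) (nat_lit 2) (nat_lit 11) (C.cons (nat_lit 2054) (C.node (nat_lit 2) (nat_lit 5) (nat_lit 11) (C.cons (nat_lit 2084) (C.node (nat_lit 2) (nat_lit 10) (nat_lit 11) C.nil) C.nil)) C.nil)) (C.cons (nat_lit 1542) (C.node (nat_lit 2) (nat_lit 6) (nat_lit 7) (C.cons (nat_lit 206) (C.miq (nat_lit 2266608176) (nat_lit 3252081309393013526412068893)) (C.cons (nat_lit 204) (C.miq (nat_lit 308779531) (nat_lit 246670489376981738969960193)) (C.cons (nat_lit 198) (C.node (nat_lit 1) (nat_lit 3) (nat_lit 7) (C.cons (nat_lit 170) (C.miq (nat_lit 975261799) (nat_lit 1864166750092026262629779681)) (C.cons (nat_lit 138) (C.node (nat_lit 1) (nat_lit 2) (nat_lit 3) (C.cons (nat_lit 46) (C.node (nat_lit 1) (nat_lit 2) (nat_lit 4) (C.cons (nat_lit 22) (C.node (nat_lit 1) (nat_lit 2) (nat_lit 11) (C.cons (nat_lit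 2054) (C.node (nat_lit 2) (nat_lit 3) (nat_lit 9) (C.cons (nat_lit 780) (C.miq (nat_lit 1898121880) (nat_lit 55617837602307730509139713)) (C.cons (nat_lit 524) (C.node (nat_lit 2) (nat_lit 5) (nat_lit 11) (C.cons (nat_lit 3108) (C.miq (nat_lit 1934786731) (nat_lit 55655524081460738695368449)) (C.cons (nat_lit 2084) (C.node (nat_lit 2) (nat_lit 10) (nat_lit 11) C.nil) C.nil))) C.nil))) C.nil)) C.nil)) (C.cons (nat_lit 14) (C.node (nat_lit 1) (nat_lit 2) (nat_lit 4) (C.cons (nat_lit 54) (C.node (nat_lit 1) (nat_lit 2) (nat_lit 11) (C.cons (nat_lit 2054) (C.node (nat_lit 2) (nat_lit 4) (nat_lit 6) (C.cons (nat_lit 84) (C.node (nat_lit 4) (nat_lit 5) (nat_lit 11) (C.cons (nat_lit 2352) (C.miq (nat_lit 2224207111) (nat_lit 643193472965577832153811169)) (C.cons (nat_lit 2096) (C.node (nat_lit 1) (nat_lit 4) (nat_lit 11) (C.cons (nat_lit 2322) (C.node (nat_lit 3) (nat_lit 6) (nat_lit 11) (C.cons (nat_lit 3144) (C.miq (nat_lit 380334601) (nat_lit 3800912398665689144009753221))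 (C.cons (nat_lit 2122) (C.miq (nat_lit 2870348146) (nat_lit 2565360752594672612287054469)) C.nil))) C.nil)) C.nil))) C.nil)) C.nil)) (C.cons (nat_lit 22) (C.node (nat_lit 1) (nat_lit 2) (nat_lit 5) (C.cons (nat_lit 2086) (C.node (nat_lit 2) (nat_lit 10) (nat_lit 11) (C.cons (nat_lit 3076) (C.node (nat_lit 5) (nat_lit 10) (nat_lit 11) (C.cons (nat_lit 3104) (C.node (nat_lit 4) (nat_lit 5) (nat_lit 11) (C.cons (nat_lit 2352) (C.miq (nat_lit 2224207111) (nat_lit 643193472965577832153811169)) C.nil)) C.nil)) C.nil)) (C.cons (nat_lit 38) (C.node (nat_lit 1) (nat_lit 2) (nat_lit 11) (C.cons (nat_lit 2054) (C.node (nat_lit 1) (nat_lit 5) (nat_lit 7) (C.cons (nat_lit 418) (C.node (nat_lit 1) (nat_lit 5) (nat_lit 9) (C.cons (nat_lit 610) (C.miq (nat_lit 2190572389) (nat_lit 1864171325270465328470690017)) C.nil)) (C.cons (nat_lit 162) (C.node (nat_lit 1) (nat_lit 7) (nat_lit 8) C.nil) C.nil))) C.nil)) C.nil))) C.nil))) C.nil))) C.nil))) (C.cons (nat_lit 196)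 (C.miq (nat_lit 308779531) (nat_lit 236999082820064705572310785)) C.nil))))) (C.cons (nat_lit 550)
  (C.miq (nat_lit 2710702006) (nat_lit 664929363408937361990748385)) (C.cons (nat_lit 518) (C.miq (nat_lit 2710702006) (nat_lit 626243737181269228400150753)) C.nil))))) C.nil)))) C.nil))))) C.nil)))) C.nil))))) (C.cons (nat_lit 2564) (C.node (nat_lit 6) (nat_lit 9) (nat_lit 11) (C.cons (nat_lit 2624) (C.node (nat_lit 2) (nat_lit 6) (nat_lit 11) (C.cons (nat_lit 2118) (C.node (nat_lit 2) (nat_lit 5) (nat_lit 11) (C.cons (nat_lit 3108) (C.node (nat_lit 2) (nat_lit 7) (nat_lit 10) (C.cons (nat_lit 1164) (C.miq (nat_lit 1383312256) (nat_lit 1407209300688701550213271297)) (C.cons (nat_lit 1156) (C.node (nat_lit 2) (nat_lit 8) (nat_lit 10) (C.cons (nat_lit 1300) (C.miq (nat_lit 942278581) (nat_lit 1571623211392086556381808865)) (C.cons (nat_lit 1292) (C.node (nat_lit 1) (nat_lit 2) (nat_lit 10) (C.cons (nat_lit 1542) (C.miq (nat_lit 1898363296) (nat_lit 2560546816150238444101373697))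 (C.cons (nat_lit 1030) (C.node (nat_lit 4) (nat_lit 8) (nat_lit 10) (C.cons (nat_lit 1328) (C.miq (nat_lit 2024124976) (nat_lit 1605495418583185678255327261)) (C.cons (nat_lit 1296) (C.node (nat_lit 5) (nat_lit 7) (nat_lit 10) (C.cons (nat_lit 1696) (C.miq (nat_lit 2320966411) (nat_lit 2050383126698644880968714269)) (C.cons (nat_lit 1440) (C.node (nat_lit 1) (nat_lit 7) (nat_lit 8) (C.cons (nat_lit 450) (C.miq (nat_lit 840436583) (nat_lit 317954740713701064199768289)) (C.cons (nat_lit 386) (C.node (nat_lit 5) (nat_lit 7) (nat_lit 9) (C.cons (nat_lit 680) (C.miq (nat_lit 628341376) (nat_lit 822107872100219345934290689)) (C.cons (nat_lit 672) (C.node (nat_lit 4) (nat_lit 5) (nat_lit 7) (C.cons (nat_lit 184) (C.miq (nat_lit 628341376) (nat_lit 222480665571363275280027393)) (C.cons (nat_lit 180) (C.miq (nat_lit 844565416) (nat_lit 217613897685691094781660929)) (C.cons (nat_lit 176) (C.node (nat_lit 3) (nat_lit 5) (nat_lit 11) (C.cons (nat_lit 2344) (C.miq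 (nat_lit 896841888) (nat_lit 212809258799399359726423809)) (C.cons (nat_lit 2090) (C.miq (nat_lit 975261803) (nat_lit 1245232148197957647645149409)) (C.cons (nat_lit 2088) (C.node (nat_lit 1) (nat_lit 10) (nat_lit 11) (C.cons (nat_lit 3082) (C.node (nat_lit 6) (nat_lit 10) (nat_lit 11) C.nil) C.nil)) C.nil)))) C.nil)))) C.nil))) C.nil))) (C.cons (nat_lit 1184) (C.miq (nat_lit 2320966411) (nat_lit 1431413107055954743519152157)) C.nil)))) C.nil))) C.nil))) (C.cons (nat_lit 1284) (C.miq (nat_lit 942278581) (nat_lit 1552280398278252489586510049)) C.nil)))) C.nil))) (C.cons (nat_lit 2084) (C.node (nat_lit 2) (nat_lit 10) (nat_lit 11) C.nil) C.nil))) (C.cons (nat_lit 2116) (C.node (nat_lit 6) (nat_lit 10) (nat_lit 11) (C.cons (nat_lit 3146) (C.miq (nat_lit 1804771696) (nat_lit 3099705964668713598722573459)) (C.cons (nat_lit 3144) (C.node (nat_lit 1) (nat_lit 6) (nat_lit 11) (C.cons (nat_lit 2370) (C.node (nat_lit 1) (nat_lit 3) (nat_lit 11) (C.cons (nat_lit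 2090) (C.node (nat_lit 1) (nat_lit 4) (nat_lit 11) C.nil) C.nil)) C.nil)) (C.cons (nat_lit 3138) (C.miq (nat_lit 1804771696) (nat_lit 3099705964666461798908888211)) (C.cons (nat_lit 3136) (C.node (nat_lit 3) (nat_lit 10) (nat_lit 11) C.nil) C.nil))))) C.nil))) C.nil)) C.nil))) C.nil))) C.nil)))) List.nil)

theorem ok12_288 : okL par12 (nat_lit 289) c12_288 (nat_lit 288) = true := by decide +kernel

noncomputable def c12_289 : List C :=
  (List.cons (C.node (nat_lit 3) (nat_lit 7) (nat_lit 11) (C.cons (nat_lit 2184) (C.node (nat_lit 4) (nat_lit 9) (nat_lit 11) (C.cons (nat_lit 2640) (C.node (nat_lit 3) (nat_lit 9) (nat_lit 11) (C.cons (nat_lit 2600) (C.miq (nat_lit 2710767541) (nat_lit 632287849770508310404401377)) (C.cons (nat_lit 2568) (C.node (nat_lit 2) (nat_lit 6) (nat_lit 11) (C.cons (nat_lit 2118) (C.node (nat_lit 2) (nat_lit 9) (nat_lit 11) (C.cons (nat_lit 2596) (C.node (nat_lit 2) (nat_lit 10) (nat_lit 11) (C.cons (nat_lit 3076) (C.node (nat_lit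 5) (nat_lit 10) (nat_lit 11) (C.cons (nat_lit 3106) (C.miq (nat_lit 1376434545) (nat_lit 1321413217156594439692683906)) (C.cons (nat_lit 3104) (C.node (nat_lit 1) (nat_lit 2) (nat_lit 4) (C.cons (nat_lit 534) (C.miq (nat_lit 1494725184) (nat_lit 3252052384943343354900580381)) (C.cons (nat_lit 54) (C.miq (nat_lit 2871069012) (nat_lit 2560526488162251441196892721)) (C.cons (nat_lit 22) (C.node (nat_lit 1) (nat_lit 2) (nat_lit 9) (C.cons (nat_lit 1542) (C.miq (nat_lit 1898363296) (nat_lit 2560546816150238444101373697)) (C.cons (nat_lit 518) (C.node (nat_lit 1) (nat_lit 4) (nat_lit 9) (C.cons (nat_lit 786) (C.miq (nat_lit 1729366936) (nat_lit 1415658351961287779276689153)) (C.cons (nat_lit 530) (C.node (nat_lit 2) (nat_lit 4) (nat_lit 9) (C.cons (nat_lit 1556) (C.miq (nat_lit 2066351508) (nat_lit 3718677422911713427181535793)) (C.cons (nat_lit 788) (C.miq (nat_lit 1797784980) (nat_lit 2944949513773793281553203761)) (C.cons (nat_lit 532) (C.node (nat_lit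 1) (nat_lit 2) (nat_lit 7) (C.cons (nat_lit 174) (C.miq (nat_lit 2836597621) (nat_lit 632287850522046498062862561)) (C.cons (nat_lit 166) (C.miq (nat_lit 2837515095) (nat_lit 626245176778844761674352865)) (C.cons (nat_lit 142) (C.miq (nat_lit 2266608176) (nat_lit 3252081309393013251534161949)) (C.cons (nat_lit 134) (C.node (nat_lit 4) (nat_lit 5) (nat_lit 11) (C.cons (nat_lit 2354) (C.miq (nat_lit 2224207111) (nat_lit 643193472966140782107232481)) (C.cons (nat_lit 2352) (C.miq (nat_lit 2224207111) (nat_lit 643193472965577832153811169)) (C.cons (nat_lit 2098) (C.miq (nat_lit 1500623364) (nat_lit 3252049156763130932470417437)) (C.cons (nat_lit 2096) (C.node (nat_lit 1) (nat_lit 4) (nat_lit 11) (C.cons (nat_lit 2322) (C.node (nat_lit 5) (nat_lit 8) (nat_lit 11) (C.cons (nat_lit 2344) (C.miq (nat_lit 1393145970) (nat_lit 632316092065845441741523332)) (C.cons (nat_lit 2336) (C.node (nat_lit 1) (nat_lit 5) (nat_lit 11) (C.cons (nat_lit 2090) (C.node (nat_lit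 1) (nat_lit 10) (nat_lit 11) C.nil) C.nil)) C.nil))) (C.cons (nat_lit 2066) (C.node (nat_lit 4) (nat_lit 8) (nat_lit 11) (C.cons (nat_lit 2320) (C.node (nat_lit 1) (nat_lit 10) (nat_lit 11) (C.cons (nat_lit 3074) (C.node (nat_lit 3) (nat_lit 10) (nat_lit 11) C.nil) C.nil)) C.nil)) C.nil))) C.nil))))) C.nil))))) C.nil)))) C.nil))) C.nil))) C.nil)))) C.nil))) C.nil)) (C.cons (nat_lit 2564) (C.node (nat_lit 5) (nat_lit 9) (nat_lit 11) (C.cons (nat_lit 2592) (C.ref (nat_lit 286) (nat_lit 205163983024656)) C.nil)) C.nil))) (C.cons (nat_lit 2116) (C.node (nat_lit 2) (nat_lit 9) (nat_lit 11) (C.cons (nat_lit 2596) (C.node (nat_lit 5) (nat_lit 10) (nat_lit 11) (C.cons (nat_lit 3106) (C.miq (nat_lit 1376434545) (nat_lit 1321413217156594439692683906)) (C.cons (nat_lit 3104) (C.node (nat_lit 1) (nat_lit 4) (nat_lit 9) (C.cons (nat_lit 786) (C.miq (nat_lit 1729366936) (nat_lit 1415658351961287779276689153)) (C.cons (nat_lit 534) (C.miq (nat_lit 1494725184) (nat_lit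 3252052384943343354900580381)) (C.cons (nat_lit 530) (C.node (nat_lit 2) (nat_lit 4) (nat_lit 9) (C.cons (nat_lit 1556) (C.miq (nat_lit 2813476953) (nat_lit 2944972000044632322005533233)) (C.cons (nat_lit 788) (C.miq (nat_lit 1797784980) (nat_lit 2944949513773793281553203761)) (C.cons (nat_lit 532) (C.node (nat_lit 4) (nat_lit 5) (nat_lit 11) (C.cons (nat_lit 2354) (C.miq (nat_lit 2224207111) (nat_lit 643193472966140782107232481)) (C.cons (nat_lit 2352) (C.miq (nat_lit 2224207111) (nat_lit 643193472965577832153811169)) (C.cons (nat_lit 2098)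
  (C.miq (nat_lit 1500623364) (nat_lit 3252049156763130932470417437)) (C.cons (nat_lit 2096) (C.node (nat_lit 1) (nat_lit 2) (nat_lit 11) (C.cons (nat_lit 3078) (C.node (nat_lit 1) (nat_lit 4) (nat_lit 11) (C.cons (nat_lit 2322) (C.miq (nat_lit 1656228372) (nat_lit 2944949513441654879309399187)) (C.cons (nat_lit 2066) (C.node (nat_lit 4) (nat_lit 8) (nat_lit 11) (C.cons (nat_lit 2320) (C.node (nat_lit 3) (nat_lit 10) (nat_lit 11) (C.cons (nat_lit 3080) (C.node (nat_lit 6) (nat_lit 10) (nat_lit 11) C.nil) C.nil)) C.nil)) C.nil))) (C.cons (nat_lit 2054) (C.node (nat_lit 2) (nat_lit 10) (nat_lit 11) (C.cons (nat_lit 3076) (C.node (nat_lit 1) (nat_lit 4) (nat_lit 11) (C.cons (nat_lit 2322) (C.node (nat_lit 1) (nat_lit 5) (nat_lit 11) (C.cons (nat_lit 2082) (C.node (nat_lit 3) (nat_lit 5) (nat_lit 11) C.nil) C.nil)) (C.cons (nat_lit 2066) (C.node (nat_lit 4) (nat_lit 8) (nat_lit 11) C.nil) C.nil))) C.nil)) C.nil))) C.nil))))) C.nil)))) C.nil)))) C.nil)))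 (C.cons (nat_lit 2564) (C.node (nat_lit 5) (nat_lit 9) (nat_lit 11) (C.cons (nat_lit 2592) (C.ref (nat_lit 287) (nat_lit 205163983024656)) C.nil)) C.nil))) C.nil))) C.nil))) (C.cons (nat_lit 2576) (C.node (nat_lit 4) (nat_lit 6) (nat_lit 11) (C.cons (nat_lit 2130) (C.node (nat_lit 2) (nat_lit 6) (nat_lit 11) (C.cons (nat_lit 2628) (C.miq (nat_lit 1769058820) (nat_lit 3252049747067948490430810141)) (C.cons (nat_lit 2116) (C.node (nat_lit 6) (nat_lit 8) (nat_lit 11) (C.cons (nat_lit 2376) (C.miq (nat_lit 991397440) (nat_lit 3252017705002567140835000657)) (C.cons (nat_lit 2368) (C.node (nat_lit 1) (nat_lit 4) (nat_lit 9) (C.cons (nat_lit 786) (C.miq (nat_lit 1900460416) (nat_lit 2575053925985610747153026817)) (C.cons (nat_lit 534) (C.miq (nat_lit 1637332000) (nat_lit 3252052384812176015718942749)) (C.cons (nat_lit 530) (C.node (nat_lit 1) (nat_lit 2) (nat_lit 4) (C.cons (nat_lit 54) (C.node (nat_lit 1) (nat_lit 3) (nat_lit 4) (C.cons (nat_lit 282) (C.miq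 (nat_lit 834110560) (nat_lit 3252017704413158539675107665)) (C.cons (nat_lit 26) (C.node (nat_lit 1) (nat_lit 4) (nat_lit 8) (C.cons (nat_lit 274) (C.node (nat_lit 1) (nat_lit 2) (nat_lit 7) (C.cons (nat_lit 206) (C.miq (nat_lit 2266608176) (nat_lit 3252081309393013526412068893)) (C.cons (nat_lit 198) (C.miq (nat_lit 2870348146) (nat_lit 2575032159151589645684703877)) (C.cons (nat_lit 142) (C.miq (nat_lit 2266608176) (nat_lit 3252081309393013251534161949)) (C.cons (nat_lit 134) (C.node (nat_lit 1) (nat_lit 2) (nat_lit 11) (C.cons (nat_lit 3078) (C.node (nat_lit 5) (nat_lit 10) (nat_lit 11) (C.cons (nat_lit 3104) (C.node (nat_lit 2) (nat_lit 5) (nat_lit 11) (C.cons (nat_lit 2596) (C.node (nat_lit 4) (nat_lit 5) (nat_lit 11) (C.cons (nat_lit 2352) (C.miq (nat_lit 2215097746) (nat_lit 1415697071699325874791057956)) (C.cons (nat_lit 2096) (C.node (nat_lit 4) (nat_lit 8) (nat_lit 11) (C.cons (nat_lit 2320) (C.node (nat_lit 3) (nat_lit 9) (nat_lit 11) (C.cons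 (nat_lit 2568) (C.node (nat_lit 6) (nat_lit 9) (nat_lit 11) C.nil) C.nil)) C.nil)) C.nil))) (C.cons (nat_lit 2084) (C.miq (nat_lit 2602895892) (nat_lit 2519411757781471156604634259)) C.nil))) C.nil)) (C.cons (nat_lit 2054) (C.node (nat_lit 2) (nat_lit 9) (nat_lit 11) (C.cons (nat_lit 2596) (C.miq (nat_lit 2871069012) (nat_lit 2483155235706915174015697457)) (C.cons (nat_lit 2564) (C.node (nat_lit 5) (nat_lit 9) (nat_lit 11) (C.cons (nat_lit 2600) (C.miq (nat_lit 2710767541) (nat_lit 632287849770508310404401377)) (C.cons (nat_lit 2592) (C.node (nat_lit 2) (nat_lit 4) (nat_lit 7) (C.cons (nat_lit 212) (C.node (nat_lit 2) (nat_lit 4) (nat_lit 8) (C.cons (nat_lit 1300) (C.miq (nat_lit 2188092528) (nat_lit 2558157888614460832471909523)) (C.cons (nat_lit 788) (C.miq (nat_lit 1917171856) (nat_lit 65323924394145944983113473)) (C.cons (nat_lit 276) (C.node (nat_lit 2) (nat_lit 4) (nat_lit 9) (C.cons (nat_lit 1556) (C.miq (nat_lit 2456527984) (nat_lit 2558157888686518426509837459))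 (C.cons (nat_lit 532) (C.node (nat_lit 2) (nat_lit 4) (nat_lit 10) (C.cons (nat_lit 1044)
  (C.node (nat_lit 4) (nat_lit 5) (nat_lit 11) (C.cons (nat_lit 2352) (C.miq (nat_lit 2458126261) (nat_lit 333673875018624825950210273)) (C.cons (nat_lit 2096) (C.node (nat_lit 4) (nat_lit 8) (nat_lit 11) C.nil) C.nil))) C.nil)) C.nil))) C.nil)))) (C.cons (nat_lit 148) (C.node (nat_lit 2) (nat_lit 4) (nat_lit 6) (C.cons (nat_lit 596) (C.node (nat_lit 1) (nat_lit 2) (nat_lit 9) (C.cons (nat_lit 1542) (C.miq (nat_lit 1729235866) (nat_lit 162016222759437049576951553)) (C.cons (nat_lit 518) (C.node (nat_lit 4) (nat_lit 5) (nat_lit 11) (C.cons (nat_lit 2352) (C.miq (nat_lit 2224207111) (nat_lit 720564725420914099335006433)) (C.cons (nat_lit 2096) (C.node (nat_lit 4) (nat_lit 8) (nat_lit 11) C.nil) C.nil))) C.nil))) (C.cons (nat_lit 84) (C.node (nat_lit 2) (nat_lit 5) (nat_lit 11) (C.cons (nat_lit 3108) (C.node (nat_lit 2) (nat_lit 5) (nat_lit 7) (C.cons (nat_lit 172)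 (C.node (nat_lit 2) (nat_lit 6) (nat_lit 7) (C.cons (nat_lit 196) (C.node (nat_lit 2) (nat_lit 7) (nat_lit 10) (C.cons (nat_lit 1156) (C.node (nat_lit 1) (nat_lit 2) (nat_lit 10) (C.cons (nat_lit 1542) (C.miq (nat_lit 1729235866) (nat_lit 162016222759437049576951553)) (C.cons (nat_lit 1038) (C.miq (nat_lit 2184886096) (nat_lit 1254935855389645983804098785)) C.nil))) C.nil)) C.nil)) (C.cons (nat_lit 164) (C.miq (nat_lit 891751096) (nat_lit 198271084287004351620452097)) C.nil))) (C.cons (nat_lit 2084) (C.node (nat_lit 2) (nat_lit 10) (nat_lit 11) C.nil) C.nil))) C.nil))) C.nil))) C.nil))) C.nil))) C.nil))) C.nil))))) C.nil)) C.nil))) (C.cons (nat_lit 22) (C.node (nat_lit 2) (nat_lit 9) (nat_lit 11) (C.cons (nat_lit 2596) (C.node (nat_lit 1) (nat_lit 2) (nat_lit 11) (C.cons (nat_lit 3078) (C.miq (nat_lit 1410502827) (nat_lit 26644255937049683382636289)) (C.cons (nat_lit 2054) (C.node (nat_lit 2) (nat_lit 10) (nat_lit 11) (C.cons (nat_lit 3076) (C.node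 (nat_lit 4) (nat_lit 5) (nat_lit 11) (C.cons (nat_lit 2352) (C.miq (nat_lit 2215097746) (nat_lit 1415697071699325874791057956)) (C.cons (nat_lit 2096) (C.node (nat_lit 4) (nat_lit 8) (nat_lit 11) (C.cons (nat_lit 2320) (C.node (nat_lit 5) (nat_lit 10) (nat_lit 11) (C.cons (nat_lit 3106) (C.miq (nat_lit 1376434545) (nat_lit 1321413217156594439692683906)) C.nil)) C.nil)) C.nil))) C.nil)) C.nil))) (C.cons (nat_lit 2564) (C.node (nat_lit 5) (nat_lit 9) (nat_lit 11) (C.cons (nat_lit 2600) (C.miq (nat_lit 2710767541) (nat_lit 632287849770508310404401377)) (C.cons (nat_lit 2592) (C.node (nat_lit 3) (nat_lit 9) (nat_lit 11) (C.cons (nat_lit 2632) (C.node (nat_lit 6) (nat_lit 10) (nat_lit 11) (C.cons (nat_lit 3136) (C.node (nat_lit 1) (nat_lit 6) (nat_lit 7) (C.cons (nat_lit 450) (C.miq (nat_lit 2259906880) (nat_lit 3181900006922797843616695443)) (C.cons (nat_lit 206) (C.miq (nat_lit 2838563687) (nat_lit 632289805876918062169327841)) (C.cons (nat_lit 202) (C.miq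 (nat_lit 2838563687) (nat_lit 632289805876918062169065697)) (C.cons (nat_lit 198) (C.miq (nat_lit 2870348146) (nat_lit 2575032159151589645684703877)) (C.cons (nat_lit 194) (C.node (nat_lit 1) (nat_lit 3) (nat_lit 7) (C.cons (nat_lit 174) (C.miq (nat_lit 2836597621) (nat_lit 632287850522046498062862561)) (C.cons (nat_lit 170) (C.miq (nat_lit 2836597621) (nat_lit 632287850522046498062600417)) (C.cons (nat_lit 142) (C.miq (nat_lit 2266608176) (nat_lit 3252081309393013251534161949)) (C.cons (nat_lit 138) (C.node (nat_lit 1) (nat_lit 2) (nat_lit 7) (C.cons (nat_lit 166) (C.node (nat_lit 1) (nat_lit 7) (nat_lit 8) (C.cons (nat_lit 386) (C.node (nat_lit 2) (nat_lit 5) (nat_lit 11) (C.cons (nat_lit 3108) (C.miq (nat_lit 891751096) (nat_lit 200688935926233609969864449)) (C.cons (nat_lit 2084) (C.node (nat_lit 5) (nat_lit 10) (nat_lit 11) (C.cons (nat_lit 3106) (C.miq (nat_lit 2605845015) (nat_lit 2519413307307973468473394323)) C.nil)) C.nil))) C.nil)) (C.cons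 (nat_lit 134) (C.node (nat_lit 1) (nat_lit 5) (nat_lit 7) (C.cons (nat_lit 418) (C.node (nat_lit 1) (nat_lit 4) (nat_lit 8) (C.cons (nat_lit 282) (C.miq (nat_lit 1636283440) (nat_lit 505372922647737448438237213))
  (C.cons (nat_lit 274) (C.node (nat_lit 1) (nat_lit 8) (nat_lit 9) (C.cons (nat_lit 834) (C.miq (nat_lit 728236945) (nat_lit 2862741192925768102352912907)) (C.cons (nat_lit 770) (C.node (nat_lit 1) (nat_lit 3) (nat_lit 4) C.nil) C.nil))) C.nil))) (C.cons (nat_lit 162) (C.node (nat_lit 1) (nat_lit 7) (nat_lit 8) (C.cons (nat_lit 386) (C.node (nat_lit 3) (nat_lit 10) (nat_lit 11) (C.cons (nat_lit 3082) (C.node (nat_lit 1) (nat_lit 2) (nat_lit 11) C.nil) (C.cons (nat_lit 3080) (C.node (nat_lit 4) (nat_lit 5) (nat_lit 11) (C.cons (nat_lit 2352) (C.node (nat_lit 1) (nat_lit 8) (nat_lit 11) C.nil) C.nil)) C.nil))) C.nil)) C.nil))) C.nil))) C.nil))))) C.nil)))))) C.nil)) (C.cons (nat_lit 2568) (C.node (nat_lit 6) (nat_lit 9) (nat_lit 11) (C.cons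 (nat_lit 2624) (C.node (nat_lit 3) (nat_lit 6) (nat_lit 11) (C.cons (nat_lit 3144) (C.node (nat_lit 4) (nat_lit 5) (nat_lit 11) (C.cons (nat_lit 2352) (C.node (nat_lit 1) (nat_lit 8) (nat_lit 11) C.nil) C.nil)) C.nil)) C.nil)) C.nil))) C.nil))) C.nil))) C.nil))) C.nil)))) C.nil))) C.nil))) (C.cons (nat_lit 2128) (C.ref (nat_lit 288) (nat_lit 205163983024656)) C.nil))) C.nil))) C.nil)) List.nil)

theorem ok12_289 : okL par12 (nat_lit 290) c12_289 (nat_lit 289) = true := by decide +kernel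

noncomputable def c12_290 : List C :=
  (List.cons (C.node (nat_lit 2) (nat_lit 8) (nat_lit 10) (C.cons (nat_lit 1300) (C.node (nat_lit 4) (nat_lit 5) (nat_lit 10) (C.cons (nat_lit 1136) (C.miq (nat_lit 3091624613) (nat_lit 407449931345088200485897380)) (C.cons (nat_lit 1072) (C.node (nat_lit 1) (nat_lit 2) (nat_lit 7) (C.cons (nat_lit 206) (C.miq (nat_lit 2608007201) (nat_lit 2640303638766656515753246983)) (C.cons (nat_lit 198) (C.node (nat_lit 2) (nat_lit 3) (nat_lit 7) (C.cons (nat_lit 140) (C.node (nat_lit 1) (nat_lit 3) (nat_lit 7) (C.cons (nat_lit 170) (C.miq (nat_lit 1613834839) (nat_lit 632271856421434376558609572)) (C.cons (nat_lit 138) (C.node (nat_lit 1) (nat_lit 2) (nat_lit 10) (C.cons (nat_lit 1542) (C.miq (nat_lit 2440798816) (nat_lit 2633111289498684725538128965)) (C.cons (nat_lit 1038) (C.miq (nat_lit 1394018854) (nat_lit 166873692855873676306154565)) (C.cons (nat_lit 1030) (C.node (nat_lit 2) (nat_lit 6) (nat_lit 11) (C.cons (nat_lit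 2628) (C.miq (nat_lit 2451224176) (nat_lit 1245264448886772257610991841)) (C.cons (nat_lit 2116) (C.node (nat_lit 2) (nat_lit 3) (nat_lit 8) (C.cons (nat_lit 876) (C.miq (nat_lit 337840777) (nat_lit 2510948575316348127203299073)) (C.cons (nat_lit 844) (C.miq (nat_lit 337840777) (nat_lit 2510948575316348127201201921)) (C.cons (nat_lit 812) (C.miq (nat_lit 337840777) (nat_lit 2510948575316348127199104769)) (C.cons (nat_lit 780) (C.miq (nat_lit 337840777) (nat_lit 2510948575316348127197007617)) (C.cons (nat_lit 364) (C.miq (nat_lit 974278774) (nat_lit 1245200309117686759840680161)) (C.cons (nat_lit 332) (C.miq (nat_lit 1384544832) (nat_lit 401405301895734283625104531)) (C.cons (nat_lit 300) (C.miq (nat_lit 1697122212) (nat_lit 362683963076939317100414099)) (C.cons (nat_lit 268) (C.node (nat_lit 1) (nat_lit 2) (nat_lit 3) (C.cons (nat_lit 46) (C.node (nat_lit 1) (nat_lit 2) (nat_lit 11) (C.cons (nat_lit 2566) (C.miq (nat_lit 309566336) (nat_lit 169259263115473887359995649))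 (C.cons (nat_lit 2054) (C.node (nat_lit 2) (nat_lit 4) (nat_lit 5) (C.cons (nat_lit 116) (C.miq (nat_lit 2253537402) (nat_lit 140259375937459636373030035)) (C.cons (nat_lit 52) (C.node (nat_lit 5) (nat_lit 8) (nat_lit 10) (C.cons (nat_lit 1378) (C.miq (nat_lit 677749767) (nat_lit 1665921694526837486969226387)) (C.cons (nat_lit 1376) (C.miq (nat_lit 677749767) (nat_lit 1663503842887608228619814035)) (C.cons (nat_lit 1314) (C.miq (nat_lit 2167121200) (nat_lit 2483204487802293760336659497)) (C.cons (nat_lit 1312) (C.node (nat_lit 1) (nat_lit 2) (nat_lit 4) (C.cons (nat_lit 534) (C.node (nat_lit 1) (nat_lit 7) (nat_lit 9) (C.cons (nat_lit 930) (C.miq (nat_lit 655603856) (nat_lit 166870077679936958469181185)) (C.cons (nat_lit 898) (C.miq (nat_lit 655603856) (nat_lit 166870077679936821030227713)) (C.cons (nat_lit 674) (C.miq (nat_lit 1898666304) (nat_lit 2483175563127444294608945713)) C.nil)))) (C.cons (nat_lit 22) (C.node (nat_lit 1) (nat_lit 2) (nat_lit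 9) C.nil) C.nil))) C.nil))))) C.nil))) C.nil))) (C.cons (nat_lit 14) (C.node (nat_lit 2) (nat_lit 3) (nat_lit 5) (C.cons (nat_lit 620) (C.miq (nat_lit 2703427429) (nat_lit 16944607586651357290694881)) (C.cons (nat_lit 556) (C.miq (nat_lit 324667687) (nat_lit 1287527599174104185846366853)) (C.cons (nat_lit 108) (C.miq (nat_lit 2703427429) (nat_lit 16944607586651357257140449)) (C.cons (nat_lit 44) (C.node (nat_lit 2) (nat_lit 3) (nat_lit 6) (C.cons (nat_lit 588) (C.node (nat_lit 2) (nat_lit 3) (nat_lit 10) (C.cons (nat_lit 1036) (C.node (nat_lit 2) (nat_lit 9) (nat_lit 10) C.nil) C.nil)) (C.cons (nat_lit 76) (C.node (nat_lit 2) (nat_lit 3) (nat_lit 9) (C.cons (nat_lit 1548) (C.node (nat_lit 7) (nat_lit 9) (nat_lit 10) (C.cons (nat_lit 1728) (C.miq (nat_lit 997793898) (nat_lit 3249621159268582613198046277)) C.nil)) C.nil)) C.nil))) C.nil))))) C.nil))) C.nil))))))))) C.nil))) C.nil)))) C.nil))) C.nil)) (C.cons (nat_lit 142) (C.miq (nat_lit 2608007201)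 (nat_lit 2640303638766656515749052679)) (C.cons (nat_lit 134) (C.node (nat_lit 2) (nat_lit 3) (nat_lit 7) (C.cons (nat_lit 204)
  (C.node (nat_lit 6) (nat_lit 7) (nat_lit 10) (C.cons (nat_lit 1728) (C.miq (nat_lit 2537268768) (nat_lit 2640364844468726872011506757)) (C.cons (nat_lit 1216) (C.node (nat_lit 2) (nat_lit 3) (nat_lit 8) (C.cons (nat_lit 812) (C.miq (nat_lit 337840777) (nat_lit 2510948575316348127199104769)) (C.cons (nat_lit 780) (C.miq (nat_lit 337840777) (nat_lit 2510948575316348127197007617)) (C.cons (nat_lit 300) (C.miq (nat_lit 1697122212) (nat_lit 362683963076939317100414099)) (C.cons (nat_lit 268) (C.node (nat_lit 2) (nat_lit 3) (nat_lit 9) (C.cons (nat_lit 1548) (C.miq (nat_lit 2474353248) (nat_lit 2640364844418061376216433733)) (C.cons (nat_lit 556) (C.miq (nat_lit 324667687) (nat_lit 1287527599174104185846366853)) (C.cons (nat_lit 524) (C.node (nat_lit 1) (nat_lit 3) (nat_lit 7) (C.cons (nat_lit 170) (C.node (nat_lit 2) (nat_lit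 3) (nat_lit 5) (C.cons (nat_lit 44) (C.node (nat_lit 1) (nat_lit 2) (nat_lit 3) (C.cons (nat_lit 1038) (C.miq (nat_lit 1647643159) (nat_lit 53234665819979833229837459)) (C.cons (nat_lit 14) (C.node (nat_lit 2) (nat_lit 3) (nat_lit 10) (C.cons (nat_lit 1036) (C.node (nat_lit 5) (nat_lit 7) (nat_lit 9) (C.cons (nat_lit 928) (C.miq (nat_lit 1114966921) (nat_lit 1436214222910238799838580481)) C.nil)) C.nil)) C.nil))) C.nil)) (C.cons (nat_lit 138) (C.node (nat_lit 2) (nat_lit 3) (nat_lit 5) (C.cons (nat_lit 46) (C.node (nat_lit 2) (nat_lit 3) (nat_lit 10) (C.cons (nat_lit 1036) (C.node (nat_lit 2) (nat_lit 4) (nat_lit 5) (C.cons (nat_lit 116) (C.miq (nat_lit 2253537402) (nat_lit 140259375937459636373030035)) (C.cons (nat_lit 52) (C.node (nat_lit 1) (nat_lit 2) (nat_lit 10) (C.cons (nat_lit 1030) (C.node (nat_lit 2) (nat_lit 9) (nat_lit 10) C.nil) C.nil)) C.nil))) C.nil)) (C.cons (nat_lit 44) (C.node (nat_lit 1) (nat_lit 2) (nat_lit 3) (C.cons (nat_lit 1038)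 (C.node (nat_lit 2) (nat_lit 9) (nat_lit 10) (C.cons (nat_lit 1540) (C.node (nat_lit 3) (nat_lit 7) (nat_lit 10) (C.cons (nat_lit 1160) (C.node (nat_lit 7) (nat_lit 9) (nat_lit 10) C.nil) C.nil)) C.nil)) (C.cons (nat_lit 14) (C.node (nat_lit 2) (nat_lit 3) (nat_lit 10) (C.cons (nat_lit 1036) (C.node (nat_lit 1) (nat_lit 2) (nat_lit 10) (C.cons (nat_lit 1542) (C.node (nat_lit 2) (nat_lit 4) (nat_lit 9) C.nil) C.nil)) C.nil)) C.nil))) C.nil))) C.nil))) C.nil)))) C.nil))))) C.nil))) (C.cons (nat_lit 140) (C.node (nat_lit 2) (nat_lit 6) (nat_lit 7) (C.cons (nat_lit 196) (C.node (nat_lit 4) (nat_lit 9) (nat_lit 10) (C.cons (nat_lit 1624) (C.miq (nat_lit 323094952) (nat_lit 2510943778980494569408564993)) (C.cons (nat_lit 1616) (C.node (nat_lit 3) (nat_lit 4) (nat_lit 10) (C.cons (nat_lit 1048) (C.node (nat_lit 2) (nat_lit 4) (nat_lit 6) (C.cons (nat_lit 118) (C.miq (nat_lit 2253537402) (nat_lit 142677227576688894722442387)) (C.cons (nat_lit 116) (C.miq (nat_lit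 2253537402) (nat_lit 140259375937459636373030035)) (C.cons (nat_lit 86) (C.miq (nat_lit 278276260) (nat_lit 697551784411675788777096468)) (C.cons (nat_lit 84) (C.node (nat_lit 2) (nat_lit 8) (nat_lit 9) (C.cons (nat_lit 876) (C.miq (nat_lit 341969560) (nat_lit 101554620670934374740135681)) (C.cons (nat_lit 868) (C.miq (nat_lit 341969560) (nat_lit 101554620670934374739611393)) (C.cons (nat_lit 844) (C.miq (nat_lit 341969560) (nat_lit 101554620670934374738038529)) (C.cons (nat_lit 836) (C.miq (nat_lit 341969560) (nat_lit 101554620670934374737514241)) (C.cons (nat_lit 812) (C.miq (nat_lit 337840777) (nat_lit 2510948575316348127199104769)) (C.cons (nat_lit 804) (C.miq (nat_lit 1697122212) (nat_lit 971982576162712421152326803)) (C.cons (nat_lit 780) (C.miq (nat_lit 337840777) (nat_lit 2510948575316348127197007617)) (C.cons (nat_lit 772) (C.node (nat_lit 2) (nat_lit 4) (nat_lit 5) (C.cons (nat_lit 54) (C.node (nat_lit 2) (nat_lit 4) (nat_lit 9) (C.cons (nat_lit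 532) (C.node (nat_lit 2) (nat_lit 5) (nat_lit 11) (C.cons (nat_lit 2596) (C.miq (nat_lit 447889557) (nat_lit 3718656817588403016579678769)) (C.cons (nat_lit 2084) (C.node (nat_lit 2) (nat_lit 5) (nat_lit 9) (C.cons (nat_lit 620)
  (C.miq (nat_lit 2253537402) (nat_lit 749557989023232740424942739)) (C.cons (nat_lit 612) (C.miq (nat_lit 2253537402) (nat_lit 739886582466315707027293331)) (C.cons (nat_lit 556) (C.miq (nat_lit 324667687) (nat_lit 1287527599174104185846366853)) C.nil)))) C.nil))) C.nil)) (C.cons (nat_lit 52) (C.node (nat_lit 1) (nat_lit 2) (nat_lit 4) (C.cons (nat_lit 534) (C.node (nat_lit 4) (nat_lit 9) (nat_lit 11) (C.cons (nat_lit 2576) (C.node (nat_lit 1) (nat_lit 2) (nat_lit 10) (C.cons (nat_lit 1038) (C.miq (nat_lit 1118146864) (nat_lit 1436214222475916906418733579)) (C.cons (nat_lit 1030) (C.node (nat_lit 2) (nat_lit 5) (nat_lit 9) (C.cons (nat_lit 2596) (C.miq (nat_lit 2987874624) (nat_lit 162037990008351184351593009)) (C.cons (nat_lit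 620) (C.miq (nat_lit 2253537402) (nat_lit 749557989023232740424942739)) (C.cons (nat_lit 612) (C.miq (nat_lit 2253537402) (nat_lit 739886582466315707027293331)) (C.cons (nat_lit 556) (C.miq (nat_lit 324667687) (nat_lit 1287527599174104185846366853)) C.nil))))) C.nil))) C.nil)) (C.cons (nat_lit 22) (C.node (nat_lit 2) (nat_lit 4) (nat_lit 9) (C.cons (nat_lit 532) (C.node (nat_lit 1) (nat_lit 2) (nat_lit 10) C.nil) C.nil)) C.nil))) C.nil))) C.nil))))))))) C.nil))))) C.nil)) (C.cons (nat_lit 1560) (C.miq (nat_lit 323094952) (nat_lit 2510943778980494294530658049)) (C.cons (nat_lit 1552) (C.node (nat_lit 3) (nat_lit 4) (nat_lit 10) (C.cons (nat_lit 1112) (C.node (nat_lit 6) (nat_lit 8) (nat_lit 10) (C.cons (nat_lit 1378) (C.miq (nat_lit 677749767) (nat_lit 1665921694526837486969226387)) (C.cons (nat_lit 1376) (C.miq (nat_lit 677749767) (nat_lit 1663503842887608228619814035)) (C.cons (nat_lit 1346) (C.miq (nat_lit 372279874) (nat_lit 88256436704429410157921556))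 (C.cons (nat_lit 1344) (C.node (nat_lit 2) (nat_lit 3) (nat_lit 8) (C.cons (nat_lit 876) (C.miq (nat_lit 337840777) (nat_lit 2510948575316348127203299073)) (C.cons (nat_lit 844) (C.miq (nat_lit 337840777) (nat_lit 2510948575316348127201201921)) (C.cons (nat_lit 812) (C.miq (nat_lit 337840777) (nat_lit 2510948575316348127199104769)) (C.cons (nat_lit 780) (C.miq (nat_lit 337840777) (nat_lit 2510948575316348127197007617)) (C.cons (nat_lit 364) (C.miq (nat_lit 443024434) (nat_lit 1624801153385364970172844061)) (C.cons (nat_lit 332) (C.miq (nat_lit 443024434) (nat_lit 1624801153385364970170746909)) (C.cons (nat_lit 300) (C.miq (nat_lit 1697122212) (nat_lit 362683963076939317100414099)) (C.cons (nat_lit 268) (C.node (nat_lit 3) (nat_lit 7) (nat_lit 10) (C.cons (nat_lit 1672) (C.node (nat_lit 6) (nat_lit 7) (nat_lit 10) (C.cons (nat_lit 1216) (C.node (nat_lit 2) (nat_lit 3) (nat_lit 10) (C.cons (nat_lit 1038) (C.miq (nat_lit 409608259) (nat_lit 1624815449356439487671437341))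 C.nil)) C.nil)) (C.cons (nat_lit 1160) (C.node (nat_lit 3) (nat_lit 8) (nat_lit 10) (C.cons (nat_lit 1290) (C.node (nat_lit 3) (nat_lit 10) (nat_lit 11) (C.cons (nat_lit 3080) (C.node (nat_lit 5) (nat_lit 8) (nat_lit 10) C.nil) C.nil)) (C.cons (nat_lit 1288) (C.node (nat_lit 6) (nat_lit 7) (nat_lit 10) C.nil) C.nil))) C.nil))) C.nil))))))))) C.nil))))) (C.cons (nat_lit 1048) (C.node (nat_lit 4) (nat_lit 6) (nat_lit 10) (C.cons (nat_lit 1104) (C.node (nat_lit 2) (nat_lit 4) (nat_lit 5) (C.cons (nat_lit 118) (C.miq (nat_lit 2253537402) (nat_lit 142677227576688894722442387)) (C.cons (nat_lit 116) (C.miq (nat_lit 2253537402) (nat_lit 140259375937459636373030035)) (C.cons (nat_lit 54) (C.node (nat_lit 2) (nat_lit 5) (nat_lit 11) (C.cons (nat_lit 2596) (C.miq (nat_lit 447889557) (nat_lit 3718656817588403016579678769)) (C.cons (nat_lit 2084) (C.node (nat_lit 4) (nat_lit 5) (nat_lit 11) (C.cons (nat_lit 2352) (C.miq (nat_lit 1698827146) (nat_lit 65302157190265263885651713))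 (C.cons (nat_lit 2096) (C.node (nat_lit 5) (nat_lit 8) (nat_lit 10) (C.cons (nat_lit 1378) (C.miq (nat_lit 2234229056) (nat_lit 2519472262408747068447065235)) (C.cons (nat_lit 1376) (C.miq (nat_lit 677749767) (nat_lit 1663503842887608228619814035)) (C.cons (nat_lit 1314)
  (C.miq (nat_lit 2234229056) (nat_lit 2519472262390732669937583251)) (C.cons (nat_lit 1312) (C.node (nat_lit 2) (nat_lit 5) (nat_lit 9) (C.cons (nat_lit 876) (C.miq (nat_lit 337840777) (nat_lit 2510948575316348127203299073)) (C.cons (nat_lit 868) (C.miq (nat_lit 2504688144) (nat_lit 1296039332815190105462604039)) (C.cons (nat_lit 812) (C.miq (nat_lit 337840777) (nat_lit 2510948575316348127199104769)) (C.cons (nat_lit 804) (C.miq (nat_lit 1697122212) (nat_lit 971982576162712421152326803)) (C.cons (nat_lit 620) (C.miq (nat_lit 2253537402) (nat_lit 749557989023232740424942739)) (C.cons (nat_lit 612) (C.miq (nat_lit 2253537402) (nat_lit 739886582466315707027293331)) (C.cons (nat_lit 556)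 (C.miq (nat_lit 324667687) (nat_lit 1287527599174104185846366853)) (C.cons (nat_lit 548) (C.node (nat_lit 2) (nat_lit 8) (nat_lit 9) (C.cons (nat_lit 844) (C.miq (nat_lit 337840777) (nat_lit 2510948575316348127201201921)) (C.cons (nat_lit 836) (C.miq (nat_lit 1384544832) (nat_lit 1010703914981507387677017235)) (C.cons (nat_lit 780) (C.miq (nat_lit 337840777) (nat_lit 2510948575316348127197007617)) (C.cons (nat_lit 772) (C.node (nat_lit 2) (nat_lit 4) (nat_lit 6) (C.cons (nat_lit 596) (C.node (nat_lit 2) (nat_lit 3) (nat_lit 9) (C.cons (nat_lit 524) (C.node (nat_lit 2) (nat_lit 3) (nat_lit 10) C.nil) C.nil)) (C.cons (nat_lit 84) (C.node (nat_lit 2) (nat_lit 4) (nat_lit 9) C.nil) C.nil))) C.nil))))) C.nil))))))))) C.nil))))) C.nil))) C.nil))) (C.cons (nat_lit 52) (C.node (nat_lit 4) (nat_lit 5) (nat_lit 11) (C.cons (nat_lit 2354) (C.miq (nat_lit 1698827146) (nat_lit 62884305551036014126173953)) (C.cons (nat_lit 2352) (C.miq (nat_lit 1698827146) (nat_lit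 62884305551036005536239361)) (C.cons (nat_lit 2098) (C.node (nat_lit 4) (nat_lit 8) (nat_lit 11) (C.cons (nat_lit 2320) (C.node (nat_lit 2) (nat_lit 5) (nat_lit 11) (C.cons (nat_lit 2596) (C.miq (nat_lit 722965824) (nat_lit 2633052334001307935629836849)) (C.cons (nat_lit 2084) (C.node (nat_lit 4) (nat_lit 5) (nat_lit 6) (C.cons (nat_lit 120) (C.node (nat_lit 4) (nat_lit 6) (nat_lit 11) (C.cons (nat_lit 2640) (C.miq (nat_lit 2486875728) (nat_lit 1267025113643212947461834977)) (C.cons (nat_lit 2128) (C.node (nat_lit 4) (nat_lit 9) (nat_lit 11) C.nil) C.nil))) (C.cons (nat_lit 112) (C.node (nat_lit 4) (nat_lit 6) (nat_lit 11) (C.cons (nat_lit 2640) (C.node (nat_lit 2) (nat_lit 4) (nat_lit 6) C.nil) (C.cons (nat_lit 2128) (C.node (nat_lit 4) (nat_lit 9) (nat_lit 11) C.nil) C.nil))) C.nil))) C.nil))) C.nil)) (C.cons (nat_lit 2096) (C.node (nat_lit 4) (nat_lit 8) (nat_lit 11) (C.cons (nat_lit 2322) (C.node (nat_lit 4) (nat_lit 6) (nat_lit 11) (C.cons (nat_lit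 2640) (C.node (nat_lit 2) (nat_lit 4) (nat_lit 6) (C.cons (nat_lit 86) (C.miq (nat_lit 3026878752) (nat_lit 1334724959452122992624337159)) (C.cons (nat_lit 84) (C.node (nat_lit 4) (nat_lit 6) (nat_lit 7) (C.cons (nat_lit 208) (C.node (nat_lit 1) (nat_lit 3) (nat_lit 7) C.nil) C.nil)) C.nil))) (C.cons (nat_lit 2128) (C.node (nat_lit 4) (nat_lit 9) (nat_lit 11) (C.cons (nat_lit 2576) (C.node (nat_lit 3) (nat_lit 4) (nat_lit 8) C.nil) C.nil)) C.nil))) (C.cons (nat_lit 2320) (C.node (nat_lit 5) (nat_lit 8) (nat_lit 10) (C.cons (nat_lit 1378) (C.miq (nat_lit 677749767) (nat_lit 1665921694526837486969226387)) (C.cons (nat_lit 1376) (C.miq (nat_lit 677749767) (nat_lit 1663503842887608228619814035)) (C.cons (nat_lit 1314) (C.node (nat_lit 5) (nat_lit 8) (nat_lit 11) (C.cons (nat_lit 2344) (C.miq (nat_lit 414491952) (nat_lit 2804729503013118186140533801)) (C.cons (nat_lit 2336) (C.node (nat_lit 2) (nat_lit 5) (nat_lit 8) (C.cons (nat_lit 876) (C.miq (nat_lit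 337840777) (nat_lit 2510948575316348127203299073)) (C.cons (nat_lit 868) (C.miq (nat_lit 354920592) (nat_lit 1436225475209351620907568897)) (C.cons (nat_lit 812) (C.miq (nat_lit 337840777) (nat_lit 2510948575316348127199104769)) (C.cons (nat_lit 804) (C.miq (nat_lit 354920592) (nat_lit 1436225475209351346029661953)) (C.cons (nat_lit 364) (C.miq (nat_lit 405054768) (nat_lit 1571625167006187923904988201))
  (C.cons (nat_lit 356) (C.node (nat_lit 2) (nat_lit 3) (nat_lit 8) (C.cons (nat_lit 780) (C.miq (nat_lit 337840777) (nat_lit 2510948575316348127197007617)) (C.cons (nat_lit 268) (C.node (nat_lit 2) (nat_lit 8) (nat_lit 9) (C.cons (nat_lit 772) (C.node (nat_lit 4) (nat_lit 5) (nat_lit 7) (C.cons (nat_lit 432) (C.node (nat_lit 2) (nat_lit 5) (nat_lit 11) (C.cons (nat_lit 2598) (C.miq (nat_lit 309566336) (nat_lit 169259263124481086614736641)) C.nil)) (C.cons (nat_lit 184) (C.miq (nat_lit 2222284962) (nat_lit 222448917944844105382364229)) (C.cons (nat_lit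 176) (C.miq (nat_lit 2222284962) (nat_lit 212777511387927071984714821)) C.nil)))) C.nil)) C.nil))) (C.cons (nat_lit 300) (C.miq (nat_lit 1697122212) (nat_lit 362683963076939317100414099)) (C.cons (nat_lit 292) (C.miq (nat_lit 1697122212) (nat_lit 353012556520022283702764691)) C.nil))))))))) C.nil))) (C.cons (nat_lit 1312) (C.node (nat_lit 2) (nat_lit 8) (nat_lit 9) (C.cons (nat_lit 876) (C.miq (nat_lit 337840777) (nat_lit 2510948575316348127203299073)) (C.cons (nat_lit 868) (C.node (nat_lit 2) (nat_lit 3) (nat_lit 8) (C.cons (nat_lit 268) (C.node (nat_lit 2) (nat_lit 4) (nat_lit 6) (C.cons (nat_lit 86) (C.miq (nat_lit 2521465360) (nat_lit 1334724959042858376492155143)) (C.cons (nat_lit 84) (C.node (nat_lit 1) (nat_lit 2) (nat_lit 4) (C.cons (nat_lit 534) (C.miq (nat_lit 1645697344) (nat_lit 162037989521962424595579441)) C.nil)) C.nil))) C.nil)) (C.cons (nat_lit 844) (C.miq (nat_lit 337840777) (nat_lit 2510948575316348127201201921)) (C.cons (nat_lit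 836) (C.miq (nat_lit 1384544832) (nat_lit 1010703914981507387677017235)) (C.cons (nat_lit 812) (C.miq (nat_lit 337840777) (nat_lit 2510948575316348127199104769)) (C.cons (nat_lit 804) (C.miq (nat_lit 1697122212) (nat_lit 971982576162712421152326803)) (C.cons (nat_lit 780) (C.miq (nat_lit 337840777) (nat_lit 2510948575316348127197007617)) (C.cons (nat_lit 772) (C.node (nat_lit 2) (nat_lit 3) (nat_lit 8) (C.cons (nat_lit 364) (C.node (nat_lit 1) (nat_lit 2) (nat_lit 3) (C.cons (nat_lit 1038) (C.miq (nat_lit 308781904) (nat_lit 236971062073950221470073897)) (C.cons (nat_lit 14) (C.node (nat_lit 3) (nat_lit 8) (nat_lit 11) (C.cons (nat_lit 2314) (C.miq (nat_lit 2545091201) (nat_lit 2640303637867062490324140295)) (C.cons (nat_lit 2312) (C.node (nat_lit 6) (nat_lit 8) (nat_lit 10) (C.cons (nat_lit 1346) (C.miq (nat_lit 916727824) (nat_lit 1334692418844454376239726855)) (C.cons (nat_lit 1344) (C.node (nat_lit 1) (nat_lit 2) (nat_lit 10) (C.cons (nat_lit 1542)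 (C.node (nat_lit 2) (nat_lit 3) (nat_lit 9) C.nil) C.nil)) C.nil))) C.nil))) C.nil))) (C.cons (nat_lit 332) (C.miq (nat_lit 1384544832) (nat_lit 401405301895734283625104531)) (C.cons (nat_lit 300) (C.miq (nat_lit 1697122212) (nat_lit 362683963076939317100414099)) (C.cons (nat_lit 268) (C.node (nat_lit 2) (nat_lit 5) (nat_lit 8) (C.cons (nat_lit 356) (C.node (nat_lit 4) (nat_lit 5) (nat_lit 7) (C.cons (nat_lit 432) (C.node (nat_lit 1) (nat_lit 3) (nat_lit 7) (C.cons (nat_lit 138) (C.node (nat_lit 1) (nat_lit 2) (nat_lit 10) C.nil) C.nil)) (C.cons (nat_lit 184) (C.miq (nat_lit 2222284962) (nat_lit 222448917944844105382364229)) (C.cons (nat_lit 176) (C.miq (nat_lit 2222284962) (nat_lit 212777511387927071984714821)) C.nil)))) (C.cons (nat_lit 292) (C.miq (nat_lit 1697122212) (nat_lit 353012556520022283702764691)) C.nil))) C.nil))))) C.nil))))))))) C.nil))))) C.nil))) C.nil))))) C.nil))))) C.nil)) C.nil))) C.nil))))) C.nil)) C.nil))) C.nil))))) C.nil)))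 (C.cons (nat_lit 1292) (C.miq (nat_lit 896704696) (nat_lit 1436227707195303305108786945)) (C.cons (nat_lit 1284) (C.node (nat_lit 2) (nat_lit 4) (nat_lit 10) (C.cons (nat_lit 1556) (C.node (nat_lit 2) (nat_lit 9) (nat_lit 11) (C.cons (nat_lit 2630) (C.miq (nat_lit 1648867744) (nat_lit 178962951492530531462221569)) (C.cons (nat_lit 2628) (C.miq (nat_lit 1648867744) (nat_lit 178962951491967581508800257)) (C.cons (nat_lit 2598) (C.miq (nat_lit 1380432288) (nat_lit 178962951483523332207480577)) (C.cons (nat_lit 2596)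
  (C.miq (nat_lit 1380432288) (nat_lit 178962951482960382254059265)) (C.cons (nat_lit 2566) (C.miq (nat_lit 934873121) (nat_lit 3249602250881903900261482759)) (C.cons (nat_lit 2564) (C.node (nat_lit 1) (nat_lit 2) (nat_lit 10) (C.cons (nat_lit 1038) (C.node (nat_lit 1) (nat_lit 2) (nat_lit 7) (C.cons (nat_lit 198) (C.miq (nat_lit 811705714) (nat_lit 81017177934309277890380964)) (C.cons (nat_lit 134) (C.node (nat_lit 5) (nat_lit 9) (nat_lit 10) (C.cons (nat_lit 1634) (C.miq (nat_lit 3046377122) (nat_lit 678245699331047701890729029)) (C.cons (nat_lit 1632) (C.miq (nat_lit 3046377122) (nat_lit 678245699331047693300794437)) (C.cons (nat_lit 1570) (C.miq (nat_lit 306815749) (nat_lit 1881117537000738666348348457)) (C.cons (nat_lit 1568) (C.node (nat_lit 1) (nat_lit 9) (nat_lit 10) (C.cons (nat_lit 1602) (C.node (nat_lit 1) (nat_lit 10) (nat_lit 11) (C.cons (nat_lit 3074) (C.node (nat_lit 2) (nat_lit 6) (nat_lit 11) (C.cons (nat_lit 2118) (C.miq (nat_lit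 1444547363) (nat_lit 1936718809444876157423847453)) (C.cons (nat_lit 2116) (C.node (nat_lit 1) (nat_lit 3) (nat_lit 7) (C.cons (nat_lit 202) (C.miq (nat_lit 1737102089) (nat_lit 1702197105758263594157408779)) (C.cons (nat_lit 170) (C.miq (nat_lit 1645677109) (nat_lit 162037989585296458953393193)) (C.cons (nat_lit 138) (C.node (nat_lit 3) (nat_lit 4) (nat_lit 10) (C.cons (nat_lit 1304) (C.miq (nat_lit 1916996008) (nat_lit 2510946177091563806751461121)) (C.cons (nat_lit 1112) (C.miq (nat_lit 2258699314) (nat_lit 1936704014611189166714521629)) (C.cons (nat_lit 1048) (C.node (nat_lit 3) (nat_lit 10) (nat_lit 11) (C.cons (nat_lit 3144) (C.node (nat_lit 3) (nat_lit 8) (nat_lit 10) C.nil) C.nil)) C.nil)))) C.nil)))) C.nil))) C.nil)) (C.cons (nat_lit 1538) (C.node (nat_lit 1) (nat_lit 10) (nat_lit 11) (C.cons (nat_lit 3138) (C.node (nat_lit 2) (nat_lit 6) (nat_lit 11) (C.cons (nat_lit 2116) (C.node (nat_lit 3) (nat_lit 10) (nat_lit 11) (C.cons (nat_lit 3080)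 (C.node (nat_lit 3) (nat_lit 4) (nat_lit 10) (C.cons (nat_lit 1304) (C.miq (nat_lit 1916996008) (nat_lit 2510946177091563806751461121)) (C.cons (nat_lit 1112) (C.miq (nat_lit 2258699314) (nat_lit 3793614073539259579063207965)) C.nil))) C.nil)) C.nil)) (C.cons (nat_lit 3074) (C.node (nat_lit 2) (nat_lit 3) (nat_lit 7) (C.cons (nat_lit 204) (C.node (nat_lit 1) (nat_lit 3) (nat_lit 7) (C.cons (nat_lit 170) (C.miq (nat_lit 1445163169) (nat_lit 246624003787674198794437779)) (C.cons (nat_lit 138) (C.node (nat_lit 3) (nat_lit 10) (nat_lit 11) (C.cons (nat_lit 3144) (C.miq (nat_lit 2586970983) (nat_lit 1254876899991071514941982945)) (C.cons (nat_lit 3080) (C.node (nat_lit 6) (nat_lit 10) (nat_lit 11) (C.cons (nat_lit 3136) (C.node (nat_lit 2) (nat_lit 5) (nat_lit 11) (C.cons (nat_lit 2084) (C.node (nat_lit 1) (nat_lit 2) (nat_lit 11) C.nil) C.nil)) C.nil)) C.nil))) C.nil))) (C.cons (nat_lit 140) (C.node (nat_lit 2) (nat_lit 6) (nat_lit 7) (C.cons (nat_lit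 196) (C.node (nat_lit 2) (nat_lit 4) (nat_lit 8) (C.cons (nat_lit 308) (C.node (nat_lit 4) (nat_lit 5) (nat_lit 10) (C.cons (nat_lit 1136) (C.miq (nat_lit 1967720098) (nat_lit 678219283593532010919101509)) (C.cons (nat_lit 1072) (C.node (nat_lit 1) (nat_lit 2) (nat_lit 4) (C.cons (nat_lit 22) (C.node (nat_lit 2) (nat_lit 4) (nat_lit 6) C.nil) C.nil)) C.nil))) (C.cons (nat_lit 276) (C.node (nat_lit 2) (nat_lit 5) (nat_lit 11) (C.cons (nat_lit 2086) (C.node (nat_lit 2) (nat_lit 6) (nat_lit 11) C.nil) (C.cons (nat_lit 2084) (C.node (nat_lit 1) (nat_lit 2) (nat_lit 11) C.nil) C.nil))) C.nil))) C.nil)) C.nil))) C.nil))) C.nil))) C.nil))))) C.nil))) (C.cons (nat_lit 1030) (C.node (nat_lit 2) (nat_lit 3) (nat_lit 10) (C.cons (nat_lit 1036) (C.node (nat_lit 2) (nat_lit 4) (nat_lit 8) (C.cons (nat_lit 308) (C.node (nat_lit 4) (nat_lit 5) (nat_lit 10) (C.cons (nat_lit 1136) (C.miq (nat_lit 1967720098) (nat_lit 678219283593532010919101509)) (C.cons (nat_lit 1072)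 (C.node (nat_lit 4) (nat_lit 8) (nat_lit 10) (C.cons (nat_lit 1304) (C.miq (nat_lit 1916996008) (nat_lit 2510946177091563806751461121))
  (C.cons (nat_lit 1296) (C.node (nat_lit 1) (nat_lit 2) (nat_lit 4) (C.cons (nat_lit 86) (C.node (nat_lit 2) (nat_lit 6) (nat_lit 11) (C.cons (nat_lit 2116) (C.node (nat_lit 1) (nat_lit 2) (nat_lit 7) (C.cons (nat_lit 142) (C.miq (nat_lit 431108231) (nat_lit 3099688421076795580651667849)) (C.cons (nat_lit 134) (C.node (nat_lit 4) (nat_lit 8) (nat_lit 11) (C.cons (nat_lit 2322) (C.miq (nat_lit 1790189697) (nat_lit 3733164517697633877180416263)) (C.cons (nat_lit 2320) (C.node (nat_lit 1) (nat_lit 2) (nat_lit 11) C.nil) C.nil))) C.nil))) C.nil)) (C.cons (nat_lit 22) (C.node (nat_lit 2) (nat_lit 4) (nat_lit 6) (C.cons (nat_lit 84) (C.node (nat_lit 2) (nat_lit 5) (nat_lit 11) (C.cons (nat_lit 2086) (C.node (nat_lit 2) (nat_lit 6) (nat_lit 11) (C.cons (nat_lit 2116) (C.node (nat_lit 4) (nat_lit 5) (nat_lit 11) C.nil) C.nil))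 (C.cons (nat_lit 2084) (C.node (nat_lit 1) (nat_lit 2) (nat_lit 11) (C.cons (nat_lit 2118) (C.node (nat_lit 1) (nat_lit 10) (nat_lit 11) C.nil) C.nil)) C.nil))) C.nil)) C.nil))) C.nil))) C.nil))) (C.cons (nat_lit 276) (C.node (nat_lit 2) (nat_lit 5) (nat_lit 11) (C.cons (nat_lit 2086) (C.node (nat_lit 2) (nat_lit 6) (nat_lit 11) (C.cons (nat_lit 2116) (C.node (nat_lit 2) (nat_lit 4) (nat_lit 5) (C.cons (nat_lit 116) (C.miq (nat_lit 3108309542) (nat_lit 678249315334238577343333445)) (C.cons (nat_lit 52) (C.node (nat_lit 4) (nat_lit 5) (nat_lit 11) C.nil) C.nil))) C.nil)) (C.cons (nat_lit 2084) (C.node (nat_lit 1) (nat_lit 2) (nat_lit 11) (C.cons (nat_lit 2118) (C.node (nat_lit 1) (nat_lit 2) (nat_lit 7) (C.cons (nat_lit 142) (C.miq (nat_lit 2602633331) (nat_lit 2560514534672090990218445193)) (C.cons (nat_lit 134) (C.node (nat_lit 1) (nat_lit 10) (nat_lit 11) C.nil) C.nil))) (C.cons (nat_lit 2054) (C.node (nat_lit 2) (nat_lit 6) (nat_lit 11) (C.cons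 (nat_lit 2116) (C.node (nat_lit 1) (nat_lit 2) (nat_lit 4) C.nil) C.nil)) C.nil))) C.nil))) C.nil))) C.nil)) C.nil))) C.nil))))))) (C.cons (nat_lit 1044) (C.node (nat_lit 2) (nat_lit 4) (nat_lit 8) (C.cons (nat_lit 788) (C.miq (nat_lit 1461980041) (nat_lit 178931370566193553570270977)) (C.cons (nat_lit 308) (C.node (nat_lit 4) (nat_lit 5) (nat_lit 7) (C.cons (nat_lit 184) (C.node (nat_lit 4) (nat_lit 7) (nat_lit 8) (C.cons (nat_lit 912) (C.miq (nat_lit 2839873651) (nat_lit 678227031667394770250498441)) (C.cons (nat_lit 400) (C.node (nat_lit 4) (nat_lit 8) (nat_lit 10) (C.cons (nat_lit 1304) (C.miq (nat_lit 1537503363) (nat_lit 3733166325810693573168333193)) (C.cons (nat_lit 1296) (C.node (nat_lit 5) (nat_lit 7) (nat_lit 8) (C.cons (nat_lit 930) (C.miq (nat_lit 659863696) (nat_lit 222480665382209900508155649)) (C.cons (nat_lit 928) (C.miq (nat_lit 659863696) (nat_lit 222480665382209891918221057)) (C.cons (nat_lit 418) (C.miq (nat_lit 897730320) (nat_lit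 372387466380540071576536211)) (C.cons (nat_lit 416) (C.node (nat_lit 1) (nat_lit 5) (nat_lit 7) (C.cons (nat_lit 674) (C.node (nat_lit 4) (nat_lit 5) (nat_lit 11) (C.cons (nat_lit 2098) (C.miq (nat_lit 656083284) (nat_lit 2633078749189657692172583473)) (C.cons (nat_lit 2096) (C.node (nat_lit 5) (nat_lit 9) (nat_lit 11) (C.cons (nat_lit 2600) (C.miq (nat_lit 1133579095) (nat_lit 632289805380396065843448033)) (C.cons (nat_lit 2596) (C.miq (nat_lit 364149024) (nat_lit 2533930119239298348243288709)) (C.cons (nat_lit 2592) (C.node (nat_lit 2) (nat_lit 5) (nat_lit 9) (C.cons (nat_lit 620) (C.miq (nat_lit 2754742102) (nat_lit 2510959089960465348447439073)) (C.cons (nat_lit 612) (C.miq (nat_lit 1612262005) (nat_lit 632279493373481347612542116)) (C.cons (nat_lit 556) (C.miq (nat_lit 355760416) (nat_lit 222463952136118604471796357)) (C.cons (nat_lit 548) (C.node (nat_lit 3) (nat_lit 5) (nat_lit 11) (C.cons (nat_lit 2346) (C.miq (nat_lit 588843863) (nat_lit 632280102393012203697604833))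 (C.cons (nat_lit 2344) (C.miq (nat_lit 883447563) (nat_lit 1566811101440464610981382369)) (C.cons (nat_lit 2090) (C.miq (nat_lit 588843863) (nat_lit 632280102393011104185977057)) (C.cons (nat_lit 2088) (C.node (nat_lit 1) (nat_lit 4) (nat_lit 5)
  (C.cons (nat_lit 114) (C.node (nat_lit 1) (nat_lit 7) (nat_lit 8) (C.cons (nat_lit 450) (C.miq (nat_lit 2157405265) (nat_lit 779765454781128463656026226)) C.nil)) (C.cons (nat_lit 50) (C.node (nat_lit 1) (nat_lit 7) (nat_lit 8) (C.cons (nat_lit 450) (C.node (nat_lit 7) (nat_lit 8) (nat_lit 9) C.nil) C.nil)) C.nil))) C.nil))))) C.nil))))) C.nil)))) C.nil))) (C.cons (nat_lit 162) (C.node (nat_lit 5) (nat_lit 7) (nat_lit 9) (C.cons (nat_lit 672) (C.node (nat_lit 4) (nat_lit 6) (nat_lit 7) (C.cons (nat_lit 208) (C.node (nat_lit 4) (nat_lit 7) (nat_lit 9) C.nil) C.nil)) C.nil)) C.nil))) C.nil))))) C.nil))) C.nil))) (C.cons (nat_lit 176) (C.node (nat_lit 4) (nat_lit 5) (nat_lit 10) (C.cons (nat_lit 1136) (C.node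 (nat_lit 4) (nat_lit 8) (nat_lit 10) (C.cons (nat_lit 1304) (C.miq (nat_lit 1984431523) (nat_lit 407415251420348500961395753)) (C.cons (nat_lit 1296) (C.node (nat_lit 3) (nat_lit 4) (nat_lit 5) (C.cons (nat_lit 58) (C.node (nat_lit 4) (nat_lit 5) (nat_lit 11) (C.cons (nat_lit 2096) (C.node (nat_lit 5) (nat_lit 9) (nat_lit 10) (C.cons (nat_lit 1570) (C.miq (nat_lit 2773193008) (nat_lit 2533979372298165831251853835)) (C.cons (nat_lit 1568) (C.node (nat_lit 1) (nat_lit 5) (nat_lit 7) (C.cons (nat_lit 930) (C.miq (nat_lit 659863696) (nat_lit 212809258825292867110506241)) (C.cons (nat_lit 674) (C.miq (nat_lit 1967296816) (nat_lit 372361050780947712017498635)) (C.cons (nat_lit 418) (C.miq (nat_lit 997278341) (nat_lit 2633041505616452606859804980)) (C.cons (nat_lit 162) (C.node (nat_lit 5) (nat_lit 7) (nat_lit 8) (C.cons (nat_lit 928) (C.miq (nat_lit 659863696) (nat_lit 212809258825292858520571649)) (C.cons (nat_lit 416) (C.node (nat_lit 2) (nat_lit 3) (nat_lit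 5) (C.cons (nat_lit 620) (C.miq (nat_lit 2534744131) (nat_lit 195857419940452015613282333)) (C.cons (nat_lit 556) (C.miq (nat_lit 2534744131) (nat_lit 195856239348831298201978909)) (C.cons (nat_lit 108) (C.miq (nat_lit 359285536) (nat_lit 1373361332235855068928477213)) (C.cons (nat_lit 44) (C.node (nat_lit 3) (nat_lit 5) (nat_lit 7) (C.cons (nat_lit 168) (C.node (nat_lit 5) (nat_lit 7) (nat_lit 9) C.nil) C.nil)) C.nil))))) C.nil))) C.nil))))) C.nil))) C.nil)) (C.cons (nat_lit 56) (C.node (nat_lit 1) (nat_lit 4) (nat_lit 5) (C.cons (nat_lit 2098) (C.node (nat_lit 4) (nat_lit 8) (nat_lit 11) (C.cons (nat_lit 2320) (C.node (nat_lit 2) (nat_lit 5) (nat_lit 11) (C.cons (nat_lit 2596) (C.miq (nat_lit 722965824) (nat_lit 2633052334001307935629836849)) (C.cons (nat_lit 2084) (C.node (nat_lit 3) (nat_lit 4) (nat_lit 10) (C.cons (nat_lit 1560) (C.node (nat_lit 3) (nat_lit 7) (nat_lit 10) (C.cons (nat_lit 1224) (C.miq (nat_lit 923379284) (nat_lit 779785930916725938577278064))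 (C.cons (nat_lit 1160) (C.node (nat_lit 4) (nat_lit 6) (nat_lit 11) (C.cons (nat_lit 2640) (C.miq (nat_lit 1681242528) (nat_lit 67741776090799414329282305)) (C.cons (nat_lit 2128) (C.node (nat_lit 4) (nat_lit 9) (nat_lit 11) C.nil) C.nil))) C.nil))) (C.cons (nat_lit 1048) (C.node (nat_lit 4) (nat_lit 9) (nat_lit 10) (C.cons (nat_lit 1552) (C.node (nat_lit 4) (nat_lit 6) (nat_lit 11) C.nil) C.nil)) C.nil))) C.nil))) C.nil)) (C.cons (nat_lit 50) (C.node (nat_lit 4) (nat_lit 5) (nat_lit 11) (C.cons (nat_lit 2096) (C.node (nat_lit 3) (nat_lit 4) (nat_lit 10) (C.cons (nat_lit 1560) (C.node (nat_lit 3) (nat_lit 7) (nat_lit 10) (C.cons (nat_lit 1224) (C.miq (nat_lit 923379284) (nat_lit 779785930916725938577278064)) (C.cons (nat_lit 1160) (C.node (nat_lit 2) (nat_lit 3) (nat_lit 10) (C.cons (nat_lit 1038) (C.node (nat_lit 2) (nat_lit 9) (nat_lit 10) (C.cons (nat_lit 1540) (C.node (nat_lit 3) (nat_lit 4) (nat_lit 8) (C.cons (nat_lit 282) (C.miq (nat_lit 1681524754)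 (nat_lit 1885944440984952355481846023)) C.nil)) C.nil)) (C.cons (nat_lit 1036) (C.node (nat_lit 1) (nat_lit 2) (nat_lit 10) (C.cons (nat_lit 1542) (C.node (nat_lit 5) (nat_lit 9) (nat_lit 10) C.nil) (C.cons (nat_lit 1030) (C.node (nat_lit 2) (nat_lit 9) (nat_lit 10) (C.cons (nat_lit 1540)
  (C.node (nat_lit 5) (nat_lit 8) (nat_lit 10) C.nil) C.nil)) C.nil))) C.nil))) C.nil))) (C.cons (nat_lit 1048) (C.node (nat_lit 4) (nat_lit 9) (nat_lit 10) (C.cons (nat_lit 1552) (C.node (nat_lit 4) (nat_lit 7) (nat_lit 8) (C.cons (nat_lit 912) (C.node (nat_lit 3) (nat_lit 4) (nat_lit 7) (C.cons (nat_lit 152) (C.node (nat_lit 4) (nat_lit 6) (nat_lit 7) C.nil) C.nil)) (C.cons (nat_lit 400) (C.node (nat_lit 4) (nat_lit 8) (nat_lit 11) (C.cons (nat_lit 2322) (C.node (nat_lit 1) (nat_lit 3) (nat_lit 4) C.nil) C.nil)) C.nil))) C.nil)) C.nil))) C.nil)) C.nil))) C.nil))) C.nil))) (C.cons (nat_lit 1072) (C.node (nat_lit 4) (nat_lit 5) (nat_lit 11) (C.cons (nat_lit 2098)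 (C.node (nat_lit 4) (nat_lit 8) (nat_lit 11) (C.cons (nat_lit 2320) (C.node (nat_lit 2) (nat_lit 5) (nat_lit 11) (C.cons (nat_lit 2596) (C.miq (nat_lit 722965824) (nat_lit 2633052334001307935629836849)) (C.cons (nat_lit 2084) (C.node (nat_lit 3) (nat_lit 4) (nat_lit 5) (C.cons (nat_lit 120) (C.node (nat_lit 4) (nat_lit 8) (nat_lit 10) (C.cons (nat_lit 1304) (C.miq (nat_lit 3091597877) (nat_lit 407449931740560559877653545)) (C.cons (nat_lit 1296) (C.node (nat_lit 2) (nat_lit 3) (nat_lit 5) (C.cons (nat_lit 556) (C.miq (nat_lit 324667687) (nat_lit 1287527599174104185846366853)) (C.cons (nat_lit 46) (C.miq (nat_lit 274933829) (nat_lit 88252433456124686679671092)) (C.cons (nat_lit 44) (C.node (nat_lit 2) (nat_lit 3) (nat_lit 7) (C.cons (nat_lit 206) (C.miq (nat_lit 2452883301) (nat_lit 2510949276144562391672686817)) (C.cons (nat_lit 204) (C.miq (nat_lit 2452883301) (nat_lit 2510949276144562383082752225)) (C.cons (nat_lit 142) (C.miq (nat_lit 2608007201)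 (nat_lit 2640303638766656515749052679)) (C.cons (nat_lit 140) (C.node (nat_lit 1) (nat_lit 2) (nat_lit 7) (C.cons (nat_lit 198) (C.node (nat_lit 1) (nat_lit 2) (nat_lit 3) (C.cons (nat_lit 1038) (C.miq (nat_lit 1697804449) (nat_lit 53196389158167474449810579)) (C.cons (nat_lit 14) (C.node (nat_lit 1) (nat_lit 2) (nat_lit 11) (C.cons (nat_lit 2566) (C.miq (nat_lit 309566336) (nat_lit 169259263115473887359995649)) C.nil)) C.nil))) (C.cons (nat_lit 134) (C.node (nat_lit 2) (nat_lit 6) (nat_lit 7) (C.cons (nat_lit 196) (C.node (nat_lit 3) (nat_lit 4) (nat_lit 7) C.nil) C.nil)) C.nil))) C.nil))))) C.nil)))) C.nil))) (C.cons (nat_lit 56) (C.node (nat_lit 4) (nat_lit 5) (nat_lit 6) (C.cons (nat_lit 112) (C.node (nat_lit 4) (nat_lit 6) (nat_lit 11) (C.cons (nat_lit 2640) (C.node (nat_lit 1) (nat_lit 9) (nat_lit 11) (C.cons (nat_lit 2566) (C.miq (nat_lit 934873121) (nat_lit 3249602250881903900261482759)) (C.cons (nat_lit 2562) (C.node (nat_lit 2) (nat_lit 9)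 (nat_lit 11) C.nil) C.nil))) (C.cons (nat_lit 2128) (C.node (nat_lit 4) (nat_lit 9) (nat_lit 11) (C.cons (nat_lit 2576) (C.node (nat_lit 4) (nat_lit 7) (nat_lit 8) C.nil) C.nil)) C.nil))) C.nil)) C.nil))) C.nil))) C.nil)) (C.cons (nat_lit 2096) (C.node (nat_lit 4) (nat_lit 7) (nat_lit 8) (C.cons (nat_lit 912) (C.node (nat_lit 3) (nat_lit 4) (nat_lit 7) (C.cons (nat_lit 216) (C.node (nat_lit 2) (nat_lit 3) (nat_lit 7) (C.cons (nat_lit 142) (C.miq (nat_lit 428290226) (nat_lit 1102542967073428184037066781)) (C.cons (nat_lit 140) (C.node (nat_lit 3) (nat_lit 7) (nat_lit 10) (C.cons (nat_lit 1672) (C.miq (nat_lit 1621313687) (nat_lit 1287509982481173556555678608)) (C.cons (nat_lit 1160) (C.node (nat_lit 6) (nat_lit 7) (nat_lit 8) (C.cons (nat_lit 450) (C.miq (nat_lit 389187136) (nat_lit 169254466366404137439789393)) C.nil)) C.nil))) C.nil))) (C.cons (nat_lit 152) (C.node (nat_lit 4) (nat_lit 6) (nat_lit 7) (C.cons (nat_lit 208) (C.node (nat_lit 4) (nat_lit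 8) (nat_lit 10) (C.cons (nat_lit 1304) (C.node (nat_lit 2) (nat_lit 8) (nat_lit 9) (C.cons (nat_lit 844) (C.miq (nat_lit 1949436553) (nat_lit 2510950825819125136946368257)) (C.cons (nat_lit 836) (C.miq (nat_lit 2760247186) (nat_lit 407428163831013711209038469)) (C.cons (nat_lit 780) (C.miq (nat_lit 1949436553) (nat_lit 2510950825819125136942173953)) (C.cons (nat_lit 772) (C.node (nat_lit 3) (nat_lit 8) (nat_lit 11)
  (C.cons (nat_lit 2378) (C.miq (nat_lit 1665644704) (nat_lit 183798654700056271698202369)) (C.cons (nat_lit 2376) (C.miq (nat_lit 1665644704) (nat_lit 183798654699493321744781057)) (C.cons (nat_lit 2346) (C.miq (nat_lit 1397209248) (nat_lit 183798654691049072443461377)) (C.cons (nat_lit 2344) (C.miq (nat_lit 1397209248) (nat_lit 183798654690486122490040065)) (C.cons (nat_lit 2314) (C.miq (nat_lit 410598176) (nat_lit 1102549995787035916118591517)) (C.cons (nat_lit 2312) (C.node (nat_lit 1) (nat_lit 4) (nat_lit 8) (C.cons (nat_lit 2322) (C.node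 (nat_lit 4) (nat_lit 6) (nat_lit 11) C.nil) (C.cons (nat_lit 274) (C.node (nat_lit 4) (nat_lit 8) (nat_lit 11) (C.cons (nat_lit 2320) (C.node (nat_lit 5) (nat_lit 7) (nat_lit 8) C.nil) C.nil)) C.nil))) C.nil))))))) C.nil))))) (C.cons (nat_lit 1296) (C.node (nat_lit 3) (nat_lit 4) (nat_lit 8) (C.cons (nat_lit 282) (C.node (nat_lit 4) (nat_lit 8) (nat_lit 11) (C.cons (nat_lit 2320) (C.node (nat_lit 5) (nat_lit 7) (nat_lit 8) C.nil) C.nil)) (C.cons (nat_lit 280) (C.node (nat_lit 1) (nat_lit 4) (nat_lit 8) (C.cons (nat_lit 2322) (C.node (nat_lit 5) (nat_lit 7) (nat_lit 8) C.nil) (C.cons (nat_lit 274) (C.node (nat_lit 4) (nat_lit 8) (nat_lit 11) C.nil) C.nil))) C.nil))) C.nil))) C.nil)) C.nil))) (C.cons (nat_lit 400) (C.node (nat_lit 4) (nat_lit 8) (nat_lit 10) (C.cons (nat_lit 1304) (C.node (nat_lit 3) (nat_lit 8) (nat_lit 11) (C.cons (nat_lit 2378) (C.miq (nat_lit 1755820864) (nat_lit 1702209484136030515129157661)) (C.cons (nat_lit 2376) (C.miq (nat_lit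 1755820864) (nat_lit 1702209484135467565175736349)) (C.cons (nat_lit 2346) (C.miq (nat_lit 880118283) (nat_lit 212814220680820056542744321)) (C.cons (nat_lit 2344) (C.miq (nat_lit 880118283) (nat_lit 212814183787331909123641089)) (C.cons (nat_lit 2314) (C.miq (nat_lit 2545091201) (nat_lit 2640303637867062490324140295)) (C.cons (nat_lit 2312) (C.node (nat_lit 4) (nat_lit 6) (nat_lit 10) (C.cons (nat_lit 1616) (C.node (nat_lit 4) (nat_lit 6) (nat_lit 7) (C.cons (nat_lit 216) (C.miq (nat_lit 1803776164) (nat_lit 2795040480085551692301993107)) (C.cons (nat_lit 208) (C.node (nat_lit 7) (nat_lit 9) (nat_lit 10) (C.cons (nat_lit 1672) (C.miq (nat_lit 2517083267) (nat_lit 2747919231395008366271595800)) (C.cons (nat_lit 1664) (C.node (nat_lit 2) (nat_lit 4) (nat_lit 6) (C.cons (nat_lit 86) (C.node (nat_lit 2) (nat_lit 4) (nat_lit 9) (C.cons (nat_lit 532) (C.node (nat_lit 4) (nat_lit 6) (nat_lit 11) C.nil) C.nil)) (C.cons (nat_lit 84) (C.node (nat_lit 3) (nat_lit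 4) (nat_lit 7) C.nil) C.nil))) C.nil))) C.nil))) (C.cons (nat_lit 1104) (C.node (nat_lit 4) (nat_lit 9) (nat_lit 10) (C.cons (nat_lit 1552) (C.node (nat_lit 4) (nat_lit 8) (nat_lit 9) (C.cons (nat_lit 786) (C.node (nat_lit 4) (nat_lit 8) (nat_lit 11) (C.cons (nat_lit 2320) (C.node (nat_lit 1) (nat_lit 2) (nat_lit 4) (C.cons (nat_lit 22) (C.node (nat_lit 1) (nat_lit 4) (nat_lit 11) C.nil) C.nil)) C.nil)) (C.cons (nat_lit 784) (C.node (nat_lit 1) (nat_lit 4) (nat_lit 8) (C.cons (nat_lit 2322) (C.node (nat_lit 5) (nat_lit 8) (nat_lit 11) C.nil) (C.cons (nat_lit 274) (C.node (nat_lit 4) (nat_lit 8) (nat_lit 11) C.nil) C.nil))) C.nil))) C.nil)) C.nil))) C.nil))))))) (C.cons (nat_lit 1296) (C.node (nat_lit 4) (nat_lit 8) (nat_lit 11) (C.cons (nat_lit 2322) (C.node (nat_lit 3) (nat_lit 4) (nat_lit 8) (C.cons (nat_lit 792) (C.node (nat_lit 3) (nat_lit 4) (nat_lit 7) (C.cons (nat_lit 216) (C.miq (nat_lit 2474345568) (nat_lit 2640364844205266345362784593)) (C.cons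 (nat_lit 152) (C.node (nat_lit 4) (nat_lit 6) (nat_lit 7) (C.cons (nat_lit 208) (C.node (nat_lit 4) (nat_lit 7) (nat_lit 9) C.nil) C.nil)) C.nil))) (C.cons (nat_lit 280) (C.node (nat_lit 4) (nat_lit 8) (nat_lit 9) (C.cons (nat_lit 784) (C.node (nat_lit 4) (nat_lit 6) (nat_lit 11) (C.cons (nat_lit 2640) (C.node (nat_lit 1) (nat_lit 4) (nat_lit 9) (C.cons (nat_lit 530) (C.node (nat_lit 2) (nat_lit 4) (nat_lit 9) C.nil) C.nil)) (C.cons (nat_lit 2128) (C.node (nat_lit 4) (nat_lit 9) (nat_lit 11) C.nil) C.nil))) C.nil)) C.nil)))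
  (C.cons (nat_lit 2320) (C.node (nat_lit 1) (nat_lit 2) (nat_lit 7) (C.cons (nat_lit 206) (C.miq (nat_lit 2608007201) (nat_lit 2640303638766656515753246983)) (C.cons (nat_lit 198) (C.node (nat_lit 2) (nat_lit 3) (nat_lit 7) (C.cons (nat_lit 140) (C.node (nat_lit 1) (nat_lit 3) (nat_lit 7) (C.cons (nat_lit 170) (C.miq (nat_lit 1613834839) (nat_lit 632271856421434376558609572)) (C.cons (nat_lit 138) (C.node (nat_lit 3) (nat_lit 5) (nat_lit 7) (C.cons (nat_lit 168) (C.node (nat_lit 6) (nat_lit 7) (nat_lit 8) C.nil) C.nil)) C.nil))) C.nil)) (C.cons (nat_lit 142) (C.miq (nat_lit 2608007201) (nat_lit 2640303638766656515749052679)) (C.cons (nat_lit 134) (C.node (nat_lit 2) (nat_lit 3) (nat_lit 7) (C.cons (nat_lit 204) (C.node (nat_lit 2) (nat_lit 3) (nat_lit 8) (C.cons (nat_lit 780) (C.miq (nat_lit 2422442866) (nat_lit 88265974373400571223476612)) (C.cons (nat_lit 268) (C.node (nat_lit 6) (nat_lit 7) (nat_lit 10) (C.cons (nat_lit 1728) (C.miq (nat_lit 2537268768)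 (nat_lit 2640364844468726872011506757)) (C.cons (nat_lit 1216) (C.node (nat_lit 1) (nat_lit 3) (nat_lit 7) (C.cons (nat_lit 138) (C.node (nat_lit 3) (nat_lit 4) (nat_lit 7) C.nil) C.nil)) C.nil))) C.nil))) (C.cons (nat_lit 140) (C.node (nat_lit 2) (nat_lit 6) (nat_lit 7) (C.cons (nat_lit 196) (C.node (nat_lit 5) (nat_lit 7) (nat_lit 8) (C.cons (nat_lit 930) (C.miq (nat_lit 846269321) (nat_lit 162005708060144848735440641)) (C.cons (nat_lit 928) (C.miq (nat_lit 659863696) (nat_lit 212809258825292858520571649)) (C.cons (nat_lit 418) (C.node (nat_lit 1) (nat_lit 3) (nat_lit 7) C.nil) C.nil)))) C.nil)) C.nil))) C.nil))))) C.nil))) C.nil))) C.nil))) C.nil))) C.nil))) C.nil))) (C.cons (nat_lit 276) (C.node (nat_lit 1) (nat_lit 2) (nat_lit 7) (C.cons (nat_lit 206) (C.miq (nat_lit 2608007201) (nat_lit 2640303638766656515753246983)) (C.cons (nat_lit 198) (C.node (nat_lit 2) (nat_lit 3) (nat_lit 7) (C.cons (nat_lit 140) (C.node (nat_lit 1) (nat_lit 3) (nat_lit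 7) (C.cons (nat_lit 170) (C.miq (nat_lit 1613834839) (nat_lit 632271856421434376558609572)) (C.cons (nat_lit 138) (C.node (nat_lit 1) (nat_lit 2) (nat_lit 10) (C.cons (nat_lit 1542) (C.miq (nat_lit 2440798816) (nat_lit 2633111289498684725538128965)) (C.cons (nat_lit 1038) (C.miq (nat_lit 1394018854) (nat_lit 166873692855873676306154565)) (C.cons (nat_lit 1030) (C.node (nat_lit 2) (nat_lit 6) (nat_lit 11) (C.cons (nat_lit 2628) (C.miq (nat_lit 2451224176) (nat_lit 1245264448886772257610991841)) (C.cons (nat_lit 2116) (C.node (nat_lit 1) (nat_lit 2) (nat_lit 3) (C.cons (nat_lit 46) (C.node (nat_lit 1) (nat_lit 2) (nat_lit 11) (C.cons (nat_lit 2566) (C.miq (nat_lit 309566336) (nat_lit 169259263115473887359995649)) (C.cons (nat_lit 2054) (C.node (nat_lit 1) (nat_lit 2) (nat_lit 4) (C.cons (nat_lit 534) (C.node (nat_lit 2) (nat_lit 4) (nat_lit 5) (C.cons (nat_lit 116) (C.miq (nat_lit 2506244209) (nat_lit 140245245794549569574798483)) C.nil)) C.nil)) C.nil)))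 (C.cons (nat_lit 14) (C.node (nat_lit 2) (nat_lit 3) (nat_lit 10) (C.cons (nat_lit 1548) (C.node (nat_lit 7) (nat_lit 9) (nat_lit 10) (C.cons (nat_lit 1728) (C.miq (nat_lit 997793898) (nat_lit 3249621159268582613198046277)) C.nil)) (C.cons (nat_lit 1036) (C.node (nat_lit 2) (nat_lit 9) (nat_lit 10) C.nil) C.nil))) C.nil))) C.nil))) C.nil)))) C.nil))) C.nil)) (C.cons (nat_lit 142) (C.miq (nat_lit 2608007201) (nat_lit 2640303638766656515749052679)) (C.cons (nat_lit 134) (C.node (nat_lit 2) (nat_lit 3) (nat_lit 7) (C.cons (nat_lit 204) (C.node (nat_lit 6) (nat_lit 7) (nat_lit 10) (C.cons (nat_lit 1728) (C.miq (nat_lit 2537268768) (nat_lit 2640364844468726872011506757)) (C.cons (nat_lit 1216) (C.node (nat_lit 2) (nat_lit 3) (nat_lit 9) (C.cons (nat_lit 1548) (C.miq (nat_lit 2474353248) (nat_lit 2640364844418061376216433733)) (C.cons (nat_lit 812) (C.miq (nat_lit 324667687) (nat_lit 1287527599174105285357994629)) (C.cons (nat_lit 780) (C.miq (nat_lit 2422442866)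 (nat_lit 88265974373400571223476612)) (C.cons (nat_lit 556)
  (C.miq (nat_lit 324667687) (nat_lit 1287527599174104185846366853)) (C.cons (nat_lit 524) (C.node (nat_lit 1) (nat_lit 3) (nat_lit 7) (C.cons (nat_lit 170) (C.node (nat_lit 1) (nat_lit 2) (nat_lit 3) (C.cons (nat_lit 1038) (C.miq (nat_lit 1445163169) (nat_lit 246624003787674198794437779)) (C.cons (nat_lit 14) (C.node (nat_lit 2) (nat_lit 3) (nat_lit 10) (C.cons (nat_lit 1036) (C.node (nat_lit 5) (nat_lit 7) (nat_lit 9) (C.cons (nat_lit 928) (C.miq (nat_lit 1114966921) (nat_lit 1436214222910238799838580481)) C.nil)) C.nil)) C.nil))) (C.cons (nat_lit 138) (C.node (nat_lit 2) (nat_lit 3) (nat_lit 8) (C.cons (nat_lit 300) (C.node (nat_lit 3) (nat_lit 8) (nat_lit 11) (C.cons (nat_lit 2378) (C.miq (nat_lit 2200548976) (nat_lit 633547984091401176767334625)) (C.cons (nat_lit 2376) (C.miq (nat_lit 2200548976) (nat_lit 633547984090838226813913313)) (C.cons (nat_lit 2314) (C.miq (nat_lit 2545091201)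 (nat_lit 2640303637867062490324140295)) (C.cons (nat_lit 2312) (C.node (nat_lit 1) (nat_lit 2) (nat_lit 3) (C.cons (nat_lit 1038) (C.node (nat_lit 2) (nat_lit 9) (nat_lit 10) (C.cons (nat_lit 1540) (C.node (nat_lit 2) (nat_lit 6) (nat_lit 8) C.nil) C.nil)) (C.cons (nat_lit 14) (C.node (nat_lit 2) (nat_lit 3) (nat_lit 10) C.nil) C.nil))) C.nil))))) (C.cons (nat_lit 268) (C.node (nat_lit 2) (nat_lit 3) (nat_lit 5) (C.cons (nat_lit 46) (C.node (nat_lit 2) (nat_lit 3) (nat_lit 10) C.nil) (C.cons (nat_lit 44) (C.node (nat_lit 3) (nat_lit 7) (nat_lit 10) C.nil) C.nil))) C.nil))) C.nil))) C.nil)))))) C.nil))) (C.cons (nat_lit 140) (C.node (nat_lit 2) (nat_lit 6) (nat_lit 7) (C.cons (nat_lit 196) (C.node (nat_lit 4) (nat_lit 5) (nat_lit 11) (C.cons (nat_lit 2354) (C.miq (nat_lit 2458126261) (nat_lit 333673875018624825950341345)) (C.cons (nat_lit 2352) (C.miq (nat_lit 2458126261) (nat_lit 333673875018624825950210273)) (C.cons (nat_lit 2098) (C.node (nat_lit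 4) (nat_lit 8) (nat_lit 11) (C.cons (nat_lit 2320) (C.node (nat_lit 2) (nat_lit 5) (nat_lit 11) (C.cons (nat_lit 2596) (C.miq (nat_lit 722965824) (nat_lit 2633052334001307935629836849)) (C.cons (nat_lit 2084) (C.node (nat_lit 1) (nat_lit 2) (nat_lit 11) (C.cons (nat_lit 2630) (C.miq (nat_lit 309566336) (nat_lit 169259263133488285869477633)) C.nil)) C.nil))) C.nil)) (C.cons (nat_lit 2096) (C.node (nat_lit 4) (nat_lit 8) (nat_lit 11) (C.cons (nat_lit 2322) (C.node (nat_lit 4) (nat_lit 6) (nat_lit 11) (C.cons (nat_lit 2640) (C.node (nat_lit 1) (nat_lit 4) (nat_lit 9) (C.cons (nat_lit 534) (C.node (nat_lit 2) (nat_lit 9) (nat_lit 11) (C.cons (nat_lit 2596) (C.miq (nat_lit 2987874624) (nat_lit 162037990008351184351593009)) C.nil)) (C.cons (nat_lit 530) (C.node (nat_lit 2) (nat_lit 4) (nat_lit 9) (C.cons (nat_lit 532) (C.node (nat_lit 2) (nat_lit 6) (nat_lit 11) (C.cons (nat_lit 2118) (C.node (nat_lit 2) (nat_lit 5) (nat_lit 11) C.nil) C.nil)) C.nil)) C.nil)))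 (C.cons (nat_lit 2128) (C.node (nat_lit 4) (nat_lit 9) (nat_lit 11) (C.cons (nat_lit 2576) (C.node (nat_lit 5) (nat_lit 8) (nat_lit 11) (C.cons (nat_lit 2344) (C.node (nat_lit 6) (nat_lit 8) (nat_lit 11) C.nil) (C.cons (nat_lit 2336) (C.node (nat_lit 3) (nat_lit 8) (nat_lit 11) C.nil) C.nil))) C.nil)) C.nil))) (C.cons (nat_lit 2320) (C.node (nat_lit 1) (nat_lit 2) (nat_lit 10) (C.cons (nat_lit 1542) (C.node (nat_lit 2) (nat_lit 3) (nat_lit 10) (C.cons (nat_lit 1036) (C.node (nat_lit 2) (nat_lit 9) (nat_lit 11) (C.cons (nat_lit 2628) (C.miq (nat_lit 1645722016) (nat_lit 162037990017362712933371649)) (C.cons (nat_lit 2596) (C.miq (nat_lit 1377286560) (nat_lit 162037990008355513678630657)) (C.cons (nat_lit 2564) (C.node (nat_lit 2) (nat_lit 4) (nat_lit 9) C.nil) C.nil)))) C.nil)) (C.cons (nat_lit 1038) (C.node (nat_lit 2) (nat_lit 9) (nat_lit 10) (C.cons (nat_lit 1540) (C.node (nat_lit 1) (nat_lit 10) (nat_lit 11) (C.cons (nat_lit 3138) (C.node (nat_lit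 3) (nat_lit 10) (nat_lit 11) C.nil) (C.cons (nat_lit 3074) (C.node (nat_lit 3) (nat_lit 10) (nat_lit 11) (C.cons (nat_lit 3080) (C.node (nat_lit 6) (nat_lit 10) (nat_lit 11) (C.cons (nat_lit 3136)
  (C.node (nat_lit 3) (nat_lit 8) (nat_lit 10) C.nil) C.nil)) C.nil)) C.nil))) C.nil)) (C.cons (nat_lit 1030) (C.node (nat_lit 2) (nat_lit 3) (nat_lit 10) (C.cons (nat_lit 1548) (C.node (nat_lit 7) (nat_lit 9) (nat_lit 10) (C.cons (nat_lit 1728) (C.miq (nat_lit 997793898) (nat_lit 3249621159268582613198046277)) (C.cons (nat_lit 1664) (C.node (nat_lit 3) (nat_lit 7) (nat_lit 10) C.nil) C.nil))) (C.cons (nat_lit 1036) (C.node (nat_lit 2) (nat_lit 9) (nat_lit 10) (C.cons (nat_lit 1540) (C.node (nat_lit 2) (nat_lit 5) (nat_lit 11) (C.cons (nat_lit 2598) (C.miq (nat_lit 309566336) (nat_lit 169259263124481086614736641)) C.nil)) C.nil)) C.nil))) C.nil)))) C.nil))) C.nil))))) C.nil)) C.nil))) C.nil))))) C.nil)))) C.nil))) C.nil)))) List.nil)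

theorem ok12_290 : okL par12 (nat_lit 291) c12_290 (nat_lit 290) = true := by decide +kernel

noncomputable def c12_291 : List C :=
  (List.cons (C.node (nat_lit 4) (nat_lit 5) (nat_lit 7) (C.cons (nat_lit 432) (C.node (nat_lit 4) (nat_lit 5) (nat_lit 11) (C.cons (nat_lit 2098) (C.node (nat_lit 4) (nat_lit 8) (nat_lit 11) (C.cons (nat_lit 2320) (C.node (nat_lit 3) (nat_lit 5) (nat_lit 11) (C.cons (nat_lit 2344) (C.miq (nat_lit 361188144) (nat_lit 522277555801374685926066205)) (C.cons (nat_lit 2088) (C.node (nat_lit 5) (nat_lit 8) (nat_lit 11) (C.cons (nat_lit 2336) (C.node (nat_lit 5) (nat_lit 9) (nat_lit 11) (C.cons (nat_lit 2596) (C.miq (nat_lit 722965824) (nat_lit 2633052334001307935629836849)) (C.cons (nat_lit 2592) (C.node (nat_lit 2) (nat_lit 5) (nat_lit 11) (C.cons (nat_lit 3108) (C.node (nat_lit 2) (nat_lit 8) (nat_lit 10) (C.cons (nat_lit 1300) (C.miq (nat_lit 942278581) (nat_lit 1571623211392086556381808865)) (C.cons (nat_lit 1292) (C.miq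 (nat_lit 2776117426) (nat_lit 522279787566643649030916125)) (C.cons (nat_lit 1284) (C.miq (nat_lit 942278581) (nat_lit 1552280398278252489586510049)) C.nil)))) (C.cons (nat_lit 2084) (C.node (nat_lit 5) (nat_lit 10) (nat_lit 11) C.nil) C.nil))) C.nil))) C.nil)) C.nil))) C.nil)) (C.cons (nat_lit 2096) (C.node (nat_lit 4) (nat_lit 8) (nat_lit 11) (C.cons (nat_lit 2322) (C.node (nat_lit 4) (nat_lit 6) (nat_lit 11) (C.cons (nat_lit 2640) (C.node (nat_lit 4) (nat_lit 8) (nat_lit 9) (C.cons (nat_lit 792) (C.miq (nat_lit 968328288) (nat_lit 3249599852917483709881450833)) (C.cons (nat_lit 788) (C.miq (nat_lit 1461980041) (nat_lit 178931370566193553570270977)) (C.cons (nat_lit 784) (C.node (nat_lit 4) (nat_lit 6) (nat_lit 7) (C.cons (nat_lit 216) (C.miq (nat_lit 949252278) (nat_lit 947801827185225357222480097)) (C.cons (nat_lit 208) (C.node (nat_lit 7) (nat_lit 8) (nat_lit 9) (C.cons (nat_lit 962) (C.miq (nat_lit 879168408) (nat_lit 251463820634898701597413121))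 (C.cons (nat_lit 960) (C.miq (nat_lit 879168408) (nat_lit 251463820634898701597282049)) (C.cons (nat_lit 898) (C.miq (nat_lit 605490057) (nat_lit 1415664033503291805842673409)) (C.cons (nat_lit 896) (C.node (nat_lit 1) (nat_lit 4) (nat_lit 9) (C.cons (nat_lit 534) (C.node (nat_lit 2) (nat_lit 9) (nat_lit 11) (C.cons (nat_lit 2596) (C.miq (nat_lit 397557849) (nat_lit 2944953147472188990843781681)) (C.cons (nat_lit 2564) (C.node (nat_lit 3) (nat_lit 4) (nat_lit 7) (C.cons (nat_lit 664) (C.miq (nat_lit 410591284) (nat_lit 1083207385010072708277864477)) (C.cons (nat_lit 152) (C.node (nat_lit 4) (nat_lit 7) (nat_lit 9) (C.cons (nat_lit 656) (C.node (nat_lit 1) (nat_lit 7) (nat_lit 9) (C.cons (nat_lit 706) (C.miq (nat_lit 1764454720) (nat_lit 3099727731139912372963837075)) (C.cons (nat_lit 674) (C.miq (nat_lit 1496019264) (nat_lit 3099727731130905173709096083)) (C.cons (nat_lit 642) (C.node (nat_lit 1) (nat_lit 7) (nat_lit 8) (C.cons (nat_lit 450) (C.node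 (nat_lit 7) (nat_lit 8) (nat_lit 10) C.nil) C.nil)) C.nil)))) C.nil)) C.nil))) C.nil))) (C.cons (nat_lit 530) (C.node (nat_lit 1) (nat_lit 7) (nat_lit 8) (C.cons (nat_lit 450) (C.node (nat_lit 7) (nat_lit 8) (nat_lit 10) (C.cons (nat_lit 1408) (C.node (nat_lit 1) (nat_lit 7) (nat_lit 9) (C.cons (nat_lit 674) (C.miq (nat_lit 2173986640) (nat_lit 640736901075172937077688545)) (C.cons (nat_lit 642) (C.node (nat_lit 2) (nat_lit 6) (nat_lit 7) (C.cons (nat_lit 196) (C.node (nat_lit 3) (nat_lit 4) (nat_lit 7) C.nil) C.nil)) C.nil))) C.nil)) (C.cons (nat_lit 386) (C.node (nat_lit 2) (nat_lit 4) (nat_lit 8) (C.cons (nat_lit 1300) (C.node (nat_lit 2) (nat_lit 5) (nat_lit 8) (C.cons (nat_lit 876) (C.miq (nat_lit 337840777) (nat_lit 2510948575316348127203299073)) (C.cons (nat_lit 868) (C.miq (nat_lit 1386702912) (nat_lit 1397560177168116731090239825)) (C.cons (nat_lit 812) (C.miq (nat_lit 337840777) (nat_lit 2510948575316348127199104769)) (C.cons (nat_lit 804)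 (C.miq (nat_lit 1652886087) (nat_lit 972018288727099131305133203)) (C.cons (nat_lit 364) (C.miq (nat_lit 1386702912) (nat_lit 1397560177026253342828069201)) (C.cons (nat_lit 356) (C.miq (nat_lit 1386702912) (nat_lit 1397560177024001543014383953)) (C.cons (nat_lit 300)
  (C.miq (nat_lit 1652886087) (nat_lit 362719675641326027253220499)) (C.cons (nat_lit 292) (C.miq (nat_lit 1652886087) (nat_lit 353048269084408993855571091)) C.nil))))))))) (C.cons (nat_lit 276) (C.node (nat_lit 2) (nat_lit 4) (nat_lit 9) (C.cons (nat_lit 1556) (C.node (nat_lit 3) (nat_lit 4) (nat_lit 8) (C.cons (nat_lit 1304) (C.miq (nat_lit 1916996008) (nat_lit 2510946177091563806751461121)) (C.cons (nat_lit 280) (C.node (nat_lit 4) (nat_lit 8) (nat_lit 10) (C.cons (nat_lit 1296) (C.node (nat_lit 3) (nat_lit 4) (nat_lit 7) C.nil) C.nil)) C.nil))) (C.cons (nat_lit 532) (C.node (nat_lit 2) (nat_lit 4) (nat_lit 10) (C.cons (nat_lit 1076) (C.node (nat_lit 1) (nat_lit 2) (nat_lit 4) (C.cons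 (nat_lit 86) (C.miq (nat_lit 2873493522) (nat_lit 3191584327155048944229548295)) (C.cons (nat_lit 22) (C.node (nat_lit 2) (nat_lit 4) (nat_lit 6) C.nil) C.nil))) (C.cons (nat_lit 1044) (C.node (nat_lit 3) (nat_lit 4) (nat_lit 7) (C.cons (nat_lit 152) (C.node (nat_lit 4) (nat_lit 7) (nat_lit 9) C.nil) C.nil)) C.nil))) C.nil))) C.nil))) C.nil))) C.nil))) C.nil))))) C.nil))) C.nil)))) (C.cons (nat_lit 2128) (C.node (nat_lit 4) (nat_lit 9) (nat_lit 11) (C.cons (nat_lit 2576) (C.node (nat_lit 5) (nat_lit 7) (nat_lit 10) (C.cons (nat_lit 1696) (C.node (nat_lit 7) (nat_lit 8) (nat_lit 10) (C.cons (nat_lit 1472) (C.miq (nat_lit 1165363624) (nat_lit 2747894604694719700521717505)) (C.cons (nat_lit 1408) (C.node (nat_lit 3) (nat_lit 7) (nat_lit 10) (C.cons (nat_lit 1224) (C.node (nat_lit 4) (nat_lit 6) (nat_lit 7) (C.cons (nat_lit 720) (C.miq (nat_lit 910206869) (nat_lit 407427647337096996455515808)) (C.cons (nat_lit 208) (C.node (nat_lit 3) (nat_lit 9) (nat_lit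 10) (C.cons (nat_lit 1560) (C.miq (nat_lit 1497070144) (nat_lit 3104563434697035523242656915)) (C.cons (nat_lit 1548) (C.miq (nat_lit 3047360402) (nat_lit 1287544312416821072230089349)) (C.cons (nat_lit 1544) (C.node (nat_lit 2) (nat_lit 3) (nat_lit 7) (C.cons (nat_lit 174) (C.miq (nat_lit 2270868016) (nat_lit 2050409044696071989350696989)) (C.cons (nat_lit 172) (C.miq (nat_lit 2270868016) (nat_lit 2050409044696071980760762397)) (C.cons (nat_lit 142) (C.miq (nat_lit 2608007201) (nat_lit 2640303638766656515749052679)) (C.cons (nat_lit 140) (C.node (nat_lit 3) (nat_lit 10) (nat_lit 11) C.nil) C.nil))))) C.nil)))) C.nil))) (C.cons (nat_lit 1160) (C.node (nat_lit 6) (nat_lit 7) (nat_lit 10) (C.cons (nat_lit 1216) (C.node (nat_lit 5) (nat_lit 8) (nat_lit 11) (C.cons (nat_lit 2344) (C.node (nat_lit 1) (nat_lit 5) (nat_lit 7) (C.cons (nat_lit 174) (C.miq (nat_lit 2239345440) (nat_lit 2050409044670176291465791517)) C.nil)) (C.cons (nat_lit 2336) (C.node (nat_lit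 1) (nat_lit 5) (nat_lit 7) (C.cons (nat_lit 174) (C.miq (nat_lit 2270868016) (nat_lit 2050409044696071989350696989)) C.nil)) C.nil))) C.nil)) C.nil))) C.nil))) (C.cons (nat_lit 1184) (C.node (nat_lit 5) (nat_lit 8) (nat_lit 11) (C.cons (nat_lit 2344) (C.node (nat_lit 6) (nat_lit 8) (nat_lit 11) (C.cons (nat_lit 2368) (C.node (nat_lit 2) (nat_lit 10) (nat_lit 11) (C.cons (nat_lit 3110) (C.miq (nat_lit 2241966852) (nat_lit 3759802133001017806541752349)) (C.cons (nat_lit 3108) (C.miq (nat_lit 1923124051) (nat_lit 1321363171094897047902947624)) (C.cons (nat_lit 3078) (C.miq (nat_lit 730243392) (nat_lit 2862756504005104401495688339)) C.nil)))) C.nil)) (C.cons (nat_lit 2336) (C.node (nat_lit 3) (nat_lit 5) (nat_lit 11) (C.cons (nat_lit 2090) (C.node (nat_lit 3) (nat_lit 8) (nat_lit 11) (C.cons (nat_lit 2376) (C.node (nat_lit 3) (nat_lit 10) (nat_lit 11) C.nil) C.nil)) (C.cons (nat_lit 2088) (C.node (nat_lit 3) (nat_lit 8) (nat_lit 11) C.nil) C.nil))) C.nil)))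 C.nil))) C.nil)) C.nil))) (C.cons (nat_lit 2320) (C.node (nat_lit 5) (nat_lit 7) (nat_lit 10) (C.cons (nat_lit 1696) (C.node (nat_lit 7) (nat_lit 8) (nat_lit 10) (C.cons (nat_lit 1472) (C.miq (nat_lit 1165363624) (nat_lit 2747894604694719700521717505)) (C.cons (nat_lit 1408) (C.node (nat_lit 3) (nat_lit 7) (nat_lit 10) (C.cons (nat_lit 1224) (C.node (nat_lit 4) (nat_lit 6) (nat_lit 7)
  (C.cons (nat_lit 720) (C.miq (nat_lit 910206869) (nat_lit 407427647337096996455515808)) (C.cons (nat_lit 208) (C.node (nat_lit 3) (nat_lit 9) (nat_lit 10) (C.cons (nat_lit 1560) (C.miq (nat_lit 1497070144) (nat_lit 3104563434697035523242656915)) (C.cons (nat_lit 1548) (C.miq (nat_lit 3047360402) (nat_lit 1287544312416821072230089349)) (C.cons (nat_lit 1544) (C.node (nat_lit 2) (nat_lit 3) (nat_lit 7) (C.cons (nat_lit 174) (C.miq (nat_lit 2270868016) (nat_lit 2050409044696071989350696989)) (C.cons (nat_lit 172) (C.miq (nat_lit 2270868016) (nat_lit 2050409044696071980760762397))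 (C.cons (nat_lit 142) (C.miq (nat_lit 2608007201) (nat_lit 2640303638766656515749052679)) (C.cons (nat_lit 140) (C.node (nat_lit 1) (nat_lit 3) (nat_lit 7) (C.cons (nat_lit 170) (C.node (nat_lit 2) (nat_lit 5) (nat_lit 7) C.nil) C.nil)) C.nil))))) C.nil)))) C.nil))) (C.cons (nat_lit 1160) (C.node (nat_lit 6) (nat_lit 7) (nat_lit 10) (C.cons (nat_lit 1216) (C.node (nat_lit 2) (nat_lit 4) (nat_lit 8) (C.cons (nat_lit 1300) (C.node (nat_lit 2) (nat_lit 5) (nat_lit 8) (C.cons (nat_lit 876) (C.miq (nat_lit 1196821144) (nat_lit 2747894604866419436276158209)) (C.cons (nat_lit 868) (C.miq (nat_lit 1196821144) (nat_lit 2747894604866419436275633921)) (C.cons (nat_lit 812) (C.miq (nat_lit 337840777) (nat_lit 2510948575316348127199104769)) (C.cons (nat_lit 804) (C.miq (nat_lit 1652886087) (nat_lit 972018288727099131305133203)) (C.cons (nat_lit 364) (C.miq (nat_lit 1386702912) (nat_lit 1397560177026253342828069201)) (C.cons (nat_lit 356) (C.miq (nat_lit 1386702912)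 (nat_lit 1397560177024001543014383953)) (C.cons (nat_lit 300) (C.miq (nat_lit 1652886087) (nat_lit 362719675641326027253220499)) (C.cons (nat_lit 292) (C.miq (nat_lit 1652886087) (nat_lit 353048269084408993855571091)) C.nil))))))))) (C.cons (nat_lit 788) (C.miq (nat_lit 1461980041) (nat_lit 178931370566193553570270977)) (C.cons (nat_lit 276) (C.node (nat_lit 4) (nat_lit 8) (nat_lit 10) (C.cons (nat_lit 1304) (C.node (nat_lit 3) (nat_lit 8) (nat_lit 11) (C.cons (nat_lit 2378) (C.miq (nat_lit 1755820864) (nat_lit 1702209484136030515129157661)) (C.cons (nat_lit 2376) (C.miq (nat_lit 1755820864) (nat_lit 1702209484135467565175736349)) (C.cons (nat_lit 2346) (C.miq (nat_lit 880118283) (nat_lit 522299230502165125267525377)) (C.cons (nat_lit 2344) (C.miq (nat_lit 880118283) (nat_lit 522299193608676977848422145)) (C.cons (nat_lit 2314) (C.miq (nat_lit 2067343376) (nat_lit 3104533403605978245162008839)) (C.cons (nat_lit 2312) (C.node (nat_lit 1) (nat_lit 4)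 (nat_lit 8) (C.cons (nat_lit 786) (C.node (nat_lit 1) (nat_lit 7) (nat_lit 8) (C.cons (nat_lit 450) (C.miq (nat_lit 425165830) (nat_lit 2050346491322485990920094033)) (C.cons (nat_lit 386) (C.node (nat_lit 1) (nat_lit 7) (nat_lit 9) (C.cons (nat_lit 642) (C.node (nat_lit 6) (nat_lit 7) (nat_lit 8) C.nil) C.nil)) C.nil))) (C.cons (nat_lit 274) (C.node (nat_lit 4) (nat_lit 8) (nat_lit 9) (C.cons (nat_lit 784) (C.node (nat_lit 2) (nat_lit 8) (nat_lit 10) (C.cons (nat_lit 1316) (C.node (nat_lit 2) (nat_lit 4) (nat_lit 10) (C.cons (nat_lit 1556) (C.miq (nat_lit 1916996008) (nat_lit 2510946177091563806751461121)) (C.cons (nat_lit 1044) (C.node (nat_lit 4) (nat_lit 5) (nat_lit 10) (C.cons (nat_lit 1136) (C.miq (nat_lit 1686592048) (nat_lit 522297883842560519490307113)) (C.cons (nat_lit 1072) (C.node (nat_lit 3) (nat_lit 4) (nat_lit 7) (C.cons (nat_lit 728) (C.miq (nat_lit 1803776164) (nat_lit 2795049924818517431592420499)) (C.cons (nat_lit 152) (C.node (nat_lit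 3) (nat_lit 4) (nat_lit 9) C.nil) C.nil))) C.nil))) C.nil))) (C.cons (nat_lit 1284) (C.node (nat_lit 3) (nat_lit 5) (nat_lit 11) (C.cons (nat_lit 2090) (C.node (nat_lit 5) (nat_lit 8) (nat_lit 11) (C.cons (nat_lit 2336) (C.node (nat_lit 1) (nat_lit 3) (nat_lit 8) C.nil) C.nil)) (C.cons (nat_lit 2088) (C.node (nat_lit 5) (nat_lit 8) (nat_lit 11) (C.cons (nat_lit 2338) (C.node (nat_lit 6) (nat_lit 8) (nat_lit 11) C.nil) (C.cons (nat_lit 2336) (C.node (nat_lit 1) (nat_lit 7) (nat_lit 8) (C.cons (nat_lit 962)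
  (C.miq (nat_lit 414422816) (nat_lit 2795046142866962592288277125)) C.nil)) C.nil))) C.nil))) C.nil))) C.nil)) C.nil))) C.nil))))))) (C.cons (nat_lit 1296) (C.node (nat_lit 2) (nat_lit 4) (nat_lit 10) (C.cons (nat_lit 1556) (C.miq (nat_lit 1514895648) (nat_lit 3733204860896642676909998725)) (C.cons (nat_lit 1076) (C.node (nat_lit 2) (nat_lit 8) (nat_lit 10) (C.cons (nat_lit 1292) (C.miq (nat_lit 1468664611) (nat_lit 1702187200439639463347095581)) (C.cons (nat_lit 1284) (C.node (nat_lit 2) (nat_lit 3) (nat_lit 10) (C.cons (nat_lit 1548) (C.miq (nat_lit 3047360402) (nat_lit 1287544312416821072230089349)) (C.cons (nat_lit 1038) (C.miq (nat_lit 425340994) (nat_lit 2050357337933973413183096861)) (C.cons (nat_lit 1036) (C.node (nat_lit 2) (nat_lit 9) (nat_lit 10) (C.cons (nat_lit 1542) (C.node (nat_lit 2) (nat_lit 10) (nat_lit 11) (C.cons (nat_lit 3076) (C.node (nat_lit 5) (nat_lit 10) (nat_lit 11) (C.cons (nat_lit 3104) (C.node (nat_lit 1) (nat_lit 5)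 (nat_lit 7) (C.cons (nat_lit 174) (C.miq (nat_lit 2184886096) (nat_lit 1252518003750416734044621025)) C.nil)) C.nil)) C.nil)) (C.cons (nat_lit 1540) (C.node (nat_lit 1) (nat_lit 2) (nat_lit 10) (C.cons (nat_lit 3078) (C.node (nat_lit 5) (nat_lit 10) (nat_lit 11) (C.cons (nat_lit 3104) (C.node (nat_lit 2) (nat_lit 5) (nat_lit 11) C.nil) C.nil)) (C.cons (nat_lit 1030) (C.node (nat_lit 2) (nat_lit 10) (nat_lit 11) (C.cons (nat_lit 3076) (C.node (nat_lit 1) (nat_lit 5) (nat_lit 7) (C.cons (nat_lit 174) (C.miq (nat_lit 2184886096) (nat_lit 1252518003750416734044621025)) C.nil)) C.nil)) C.nil))) C.nil))) C.nil)))) C.nil))) (C.cons (nat_lit 1044) (C.node (nat_lit 4) (nat_lit 5) (nat_lit 10) (C.cons (nat_lit 1136) (C.node (nat_lit 3) (nat_lit 4) (nat_lit 10) (C.cons (nat_lit 1560) (C.miq (nat_lit 1497070144) (nat_lit 3104563434697035523242656915)) (C.cons (nat_lit 1048) (C.node (nat_lit 4) (nat_lit 9) (nat_lit 10) (C.cons (nat_lit 1552) (C.node (nat_lit 2)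 (nat_lit 4) (nat_lit 5) (C.cons (nat_lit 54) (C.node (nat_lit 3) (nat_lit 4) (nat_lit 5) (C.cons (nat_lit 56) (C.node (nat_lit 1) (nat_lit 5) (nat_lit 7) C.nil) C.nil)) (C.cons (nat_lit 52) (C.node (nat_lit 3) (nat_lit 4) (nat_lit 7) (C.cons (nat_lit 728) (C.node (nat_lit 1) (nat_lit 7) (nat_lit 9) C.nil) C.nil)) C.nil))) C.nil)) C.nil))) (C.cons (nat_lit 1072) (C.node (nat_lit 2) (nat_lit 8) (nat_lit 10) (C.cons (nat_lit 1316) (C.node (nat_lit 2) (nat_lit 5) (nat_lit 7) (C.cons (nat_lit 174) (C.miq (nat_lit 981618871) (nat_lit 1590949588646108166701189345)) (C.cons (nat_lit 172) (C.miq (nat_lit 981618871) (nat_lit 1590949551752620019282086113)) (C.cons (nat_lit 166) (C.miq (nat_lit 2502469392) (nat_lit 1591017233034221385784165523)) (C.cons (nat_lit 164) (C.node (nat_lit 1) (nat_lit 5) (nat_lit 7) (C.cons (nat_lit 162) (C.node (nat_lit 3) (nat_lit 5) (nat_lit 7) C.nil) C.nil)) C.nil))))) (C.cons (nat_lit 1292) (C.miq (nat_lit 1468664611) (nat_lit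 1702187200439639463347095581)) (C.cons (nat_lit 1284) (C.node (nat_lit 2) (nat_lit 3) (nat_lit 10) (C.cons (nat_lit 1548) (C.miq (nat_lit 3047360402) (nat_lit 1287544312416821072230089349)) (C.cons (nat_lit 1038) (C.node (nat_lit 2) (nat_lit 9) (nat_lit 10) (C.cons (nat_lit 1540) (C.node (nat_lit 2) (nat_lit 5) (nat_lit 10) (C.cons (nat_lit 3108) (C.miq (nat_lit 2191752016) (nat_lit 1254872251016092443294107873)) (C.cons (nat_lit 1060) (C.node (nat_lit 2) (nat_lit 10) (nat_lit 11) C.nil) C.nil))) C.nil)) (C.cons (nat_lit 1036) (C.node (nat_lit 2) (nat_lit 9) (nat_lit 10) (C.cons (nat_lit 1542) (C.node (nat_lit 2) (nat_lit 5) (nat_lit 10) (C.cons (nat_lit 3108) (C.miq (nat_lit 2191752016) (nat_lit 1252454399376863184944695521)) (C.cons (nat_lit 1060) (C.node (nat_lit 2) (nat_lit 10) (nat_lit 11) C.nil) C.nil))) (C.cons (nat_lit 1540) (C.node (nat_lit 1) (nat_lit 5) (nat_lit 7) (C.cons (nat_lit 174) (C.miq (nat_lit 2184886096) (nat_lit 1252518003750416734044621025))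 C.nil)) C.nil))) C.nil)))) C.nil)))) C.nil))) C.nil)))) C.nil))) C.nil)))) C.nil)) C.nil))) C.nil))) (C.cons (nat_lit 1184)
  (C.node (nat_lit 7) (nat_lit 8) (nat_lit 10) (C.cons (nat_lit 1472) (C.node (nat_lit 1) (nat_lit 7) (nat_lit 8) (C.cons (nat_lit 898) (C.miq (nat_lit 997786241) (nat_lit 3249602251355907760932913415)) (C.cons (nat_lit 386) (C.node (nat_lit 7) (nat_lit 8) (nat_lit 9) (C.cons (nat_lit 896) (C.node (nat_lit 2) (nat_lit 4) (nat_lit 8) (C.cons (nat_lit 1300) (C.miq (nat_lit 1747679808) (nat_lit 2944985226444852960706757779)) (C.cons (nat_lit 788) (C.miq (nat_lit 1461980041) (nat_lit 178931370566193553570270977)) (C.cons (nat_lit 276) (C.node (nat_lit 4) (nat_lit 8) (nat_lit 10) (C.cons (nat_lit 1304) (C.miq (nat_lit 1783330864) (nat_lit 3733204860833591199795052937)) (C.cons (nat_lit 1296) (C.node (nat_lit 2) (nat_lit 3) (nat_lit 7) (C.cons (nat_lit 206) (C.miq (nat_lit 2557545251) (nat_lit 466655015099553259631544349)) (C.cons (nat_lit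 204) (C.miq (nat_lit 3126986867) (nat_lit 1321394235807382490443415945)) (C.cons (nat_lit 174) (C.miq (nat_lit 2557545251) (nat_lit 466655015099553259629447197)) (C.cons (nat_lit 172) (C.miq (nat_lit 2270868016) (nat_lit 1431439025053381843311200285)) (C.cons (nat_lit 142) (C.miq (nat_lit 2557545251) (nat_lit 466655015099553259627350045)) (C.cons (nat_lit 140) (C.node (nat_lit 2) (nat_lit 5) (nat_lit 7) (C.cons (nat_lit 164) (C.node (nat_lit 1) (nat_lit 2) (nat_lit 7) C.nil) C.nil)) C.nil))))))) C.nil))) C.nil)))) C.nil)) C.nil))) (C.cons (nat_lit 1408) (C.node (nat_lit 2) (nat_lit 4) (nat_lit 8) (C.cons (nat_lit 1300) (C.node (nat_lit 2) (nat_lit 5) (nat_lit 8) (C.cons (nat_lit 876) (C.miq (nat_lit 337840777) (nat_lit 2510948575316348127203299073)) (C.cons (nat_lit 868) (C.miq (nat_lit 1386702912) (nat_lit 1397560177168116731090239825)) (C.cons (nat_lit 812) (C.miq (nat_lit 337840777) (nat_lit 2510948575316348127199104769)) (C.cons (nat_lit 804) (C.miq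 (nat_lit 1652886087) (nat_lit 972018288727099131305133203)) (C.cons (nat_lit 364) (C.miq (nat_lit 1386702912) (nat_lit 1397560177026253342828069201)) (C.cons (nat_lit 356) (C.miq (nat_lit 1386702912) (nat_lit 1397560177024001543014383953)) (C.cons (nat_lit 300) (C.miq (nat_lit 1652886087) (nat_lit 362719675641326027253220499)) (C.cons (nat_lit 292) (C.miq (nat_lit 1652886087) (nat_lit 353048269084408993855571091)) C.nil))))))))) (C.cons (nat_lit 788) (C.miq (nat_lit 1461980041) (nat_lit 178931370566193553570270977)) (C.cons (nat_lit 276) (C.node (nat_lit 4) (nat_lit 8) (nat_lit 10) (C.cons (nat_lit 1304) (C.node (nat_lit 3) (nat_lit 8) (nat_lit 11) (C.cons (nat_lit 2378) (C.miq (nat_lit 1755820864) (nat_lit 1702209484136030515129157661)) (C.cons (nat_lit 2376) (C.miq (nat_lit 1755820864) (nat_lit 1702209484135467565175736349)) (C.cons (nat_lit 2346) (C.miq (nat_lit 880118283) (nat_lit 522299230502165125267525377)) (C.cons (nat_lit 2344) (C.miq (nat_lit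 880118283) (nat_lit 522299193608676977848422145)) (C.cons (nat_lit 2314) (C.miq (nat_lit 2067343376) (nat_lit 3104533403605978245162008839)) (C.cons (nat_lit 2312) (C.node (nat_lit 1) (nat_lit 4) (nat_lit 8) (C.cons (nat_lit 786) (C.node (nat_lit 1) (nat_lit 7) (nat_lit 8) (C.cons (nat_lit 450) (C.miq (nat_lit 369723220) (nat_lit 697564697185156471530258864)) (C.cons (nat_lit 386) (C.node (nat_lit 3) (nat_lit 4) (nat_lit 5) (C.cons (nat_lit 122) (C.miq (nat_lit 3091597877) (nat_lit 407449931740560559877784617)) (C.cons (nat_lit 120) (C.miq (nat_lit 3091597877) (nat_lit 407449931740560559877653545)) (C.cons (nat_lit 58) (C.miq (nat_lit 329794825) (nat_lit 1576453767934648502565536305)) (C.cons (nat_lit 56) (C.node (nat_lit 1) (nat_lit 3) (nat_lit 4) (C.cons (nat_lit 90) (C.node (nat_lit 1) (nat_lit 4) (nat_lit 11) (C.cons (nat_lit 2066) (C.node (nat_lit 6) (nat_lit 8) (nat_lit 11) (C.cons (nat_lit 2370) (C.miq (nat_lit 1444154249) (nat_lit 108813673028544777969340161))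 (C.cons (nat_lit 2368) (C.node (nat_lit 1) (nat_lit 7) (nat_lit 9) (C.cons (nat_lit 706) (C.miq (nat_lit 1680282377) (nat_lit 178934044729622825393259019)) (C.cons (nat_lit 674)
  (C.miq (nat_lit 1729627540) (nat_lit 466651583563795218478268977)) (C.cons (nat_lit 642) (C.node (nat_lit 4) (nat_lit 6) (nat_lit 10) (C.cons (nat_lit 1616) (C.miq (nat_lit 641796760) (nat_lit 108808175566667101599043329)) (C.cons (nat_lit 1136) (C.miq (nat_lit 1686592048) (nat_lit 522297883842560519490307113)) (C.cons (nat_lit 1104) (C.node (nat_lit 4) (nat_lit 9) (nat_lit 10) (C.cons (nat_lit 1556) (C.miq (nat_lit 1916996008) (nat_lit 2510946177091563806751461121)) C.nil)) C.nil)))) C.nil)))) C.nil))) C.nil)) (C.cons (nat_lit 26) (C.node (nat_lit 1) (nat_lit 4) (nat_lit 11) (C.cons (nat_lit 2130) (C.node (nat_lit 4) (nat_lit 9) (nat_lit 11) (C.cons (nat_lit 2576) (C.node (nat_lit 3) (nat_lit 4) (nat_lit 7) (C.cons (nat_lit 728) (C.miq (nat_lit 1803776164) (nat_lit 2795049924818517431592420499))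 C.nil)) C.nil)) (C.cons (nat_lit 2066) (C.node (nat_lit 2) (nat_lit 8) (nat_lit 10) (C.cons (nat_lit 1316) (C.node (nat_lit 2) (nat_lit 4) (nat_lit 10) (C.cons (nat_lit 1556) (C.miq (nat_lit 1916996008) (nat_lit 2510946177091563806751461121)) (C.cons (nat_lit 1044) (C.node (nat_lit 4) (nat_lit 6) (nat_lit 11) (C.cons (nat_lit 2128) (C.node (nat_lit 4) (nat_lit 9) (nat_lit 11) (C.cons (nat_lit 2576) (C.node (nat_lit 2) (nat_lit 4) (nat_lit 9) C.nil) C.nil)) C.nil)) C.nil))) (C.cons (nat_lit 1284) (C.node (nat_lit 3) (nat_lit 5) (nat_lit 11) (C.cons (nat_lit 2090) (C.node (nat_lit 5) (nat_lit 8) (nat_lit 11) (C.cons (nat_lit 2336) (C.node (nat_lit 1) (nat_lit 8) (nat_lit 11) C.nil) C.nil)) (C.cons (nat_lit 2088) (C.node (nat_lit 4) (nat_lit 6) (nat_lit 11) (C.cons (nat_lit 2640) (C.node (nat_lit 2) (nat_lit 6) (nat_lit 11) C.nil) (C.cons (nat_lit 2128) (C.node (nat_lit 4) (nat_lit 9) (nat_lit 11) C.nil) C.nil))) C.nil))) C.nil))) C.nil))) C.nil))) C.nil)))))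 C.nil))) (C.cons (nat_lit 274) (C.node (nat_lit 4) (nat_lit 8) (nat_lit 9) (C.cons (nat_lit 784) (C.node (nat_lit 2) (nat_lit 8) (nat_lit 10) (C.cons (nat_lit 1316) (C.node (nat_lit 2) (nat_lit 4) (nat_lit 10) (C.cons (nat_lit 1556) (C.miq (nat_lit 1916996008) (nat_lit 2510946177091563806751461121)) (C.cons (nat_lit 1044) (C.node (nat_lit 4) (nat_lit 5) (nat_lit 10) (C.cons (nat_lit 1136) (C.miq (nat_lit 1686592048) (nat_lit 522297883842560519490307113)) (C.cons (nat_lit 1072) (C.node (nat_lit 1) (nat_lit 8) (nat_lit 10) (C.cons (nat_lit 1346) (C.node (nat_lit 6) (nat_lit 8) (nat_lit 11) (C.cons (nat_lit 2368) (C.node (nat_lit 1) (nat_lit 8) (nat_lit 11) (C.cons (nat_lit 2306) (C.node (nat_lit 5) (nat_lit 8) (nat_lit 11) C.nil) C.nil)) C.nil)) (C.cons (nat_lit 1282) (C.node (nat_lit 6) (nat_lit 8) (nat_lit 10) (C.cons (nat_lit 1344) (C.node (nat_lit 2) (nat_lit 10) (nat_lit 11) (C.cons (nat_lit 3078) (C.node (nat_lit 5) (nat_lit 10) (nat_lit 11) C.nil)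 (C.cons (nat_lit 3076) (C.node (nat_lit 5) (nat_lit 8) (nat_lit 11) (C.cons (nat_lit 2338) (C.node (nat_lit 6) (nat_lit 8) (nat_lit 11) C.nil) C.nil)) C.nil))) C.nil)) C.nil))) C.nil))) C.nil))) (C.cons (nat_lit 1284) (C.node (nat_lit 3) (nat_lit 5) (nat_lit 11) (C.cons (nat_lit 2090) (C.node (nat_lit 5) (nat_lit 8) (nat_lit 11) (C.cons (nat_lit 2336) (C.node (nat_lit 1) (nat_lit 3) (nat_lit 8) (C.cons (nat_lit 330) (C.node (nat_lit 1) (nat_lit 8) (nat_lit 11) C.nil) C.nil)) C.nil)) (C.cons (nat_lit 2088) (C.node (nat_lit 5) (nat_lit 8) (nat_lit 11) (C.cons (nat_lit 2338) (C.node (nat_lit 6) (nat_lit 8) (nat_lit 11) (C.cons (nat_lit 2368) (C.node (nat_lit 5) (nat_lit 9) (nat_lit 11) C.nil) C.nil)) (C.cons (nat_lit 2336) (C.node (nat_lit 1) (nat_lit 8) (nat_lit 11) (C.cons (nat_lit 2370) (C.node (nat_lit 1) (nat_lit 3) (nat_lit 11) C.nil) (C.cons (nat_lit 2306) (C.node (nat_lit 6) (nat_lit 8) (nat_lit 11) C.nil) C.nil))) C.nil))) C.nil))) C.nil))) C.nil))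 C.nil))) C.nil))))))) (C.cons (nat_lit 1296) (C.node (nat_lit 2) (nat_lit 8) (nat_lit 10) (C.cons (nat_lit 1316) (C.node (nat_lit 2) (nat_lit 4) (nat_lit 10) (C.cons (nat_lit 1556) (C.node (nat_lit 4) (nat_lit 5) (nat_lit 10) (C.cons (nat_lit 1136)
  (C.miq (nat_lit 1967720098) (nat_lit 678219283593532010919101509)) (C.cons (nat_lit 1072) (C.node (nat_lit 2) (nat_lit 9) (nat_lit 11) (C.cons (nat_lit 2630) (C.miq (nat_lit 1648867744) (nat_lit 178962951492530531462221569)) (C.cons (nat_lit 2628) (C.miq (nat_lit 1648867744) (nat_lit 178962951491967581508800257)) (C.cons (nat_lit 2598) (C.miq (nat_lit 1380432288) (nat_lit 178962951483523332207480577)) (C.cons (nat_lit 2596) (C.miq (nat_lit 1380432288) (nat_lit 178962951482960382254059265)) (C.cons (nat_lit 2566) (C.miq (nat_lit 2073264656) (nat_lit 3104528755026472752686760199)) (C.cons (nat_lit 2564) (C.node (nat_lit 2) (nat_lit 3) (nat_lit 10) (C.cons (nat_lit 1038) (C.node (nat_lit 2) (nat_lit 10) (nat_lit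 11) (C.cons (nat_lit 3076) (C.node (nat_lit 5) (nat_lit 9) (nat_lit 10) (C.cons (nat_lit 1634) (C.miq (nat_lit 3046377122) (nat_lit 678245699331047701890729029)) (C.cons (nat_lit 1632) (C.miq (nat_lit 3046377122) (nat_lit 678245699331047693300794437)) (C.cons (nat_lit 1570) (C.miq (nat_lit 306815749) (nat_lit 1881117537000738666348348457)) (C.cons (nat_lit 1568) (C.node (nat_lit 1) (nat_lit 8) (nat_lit 10) (C.cons (nat_lit 1346) (C.node (nat_lit 3) (nat_lit 10) (nat_lit 11) (C.cons (nat_lit 3144) (C.miq (nat_lit 1629726731) (nat_lit 1254922997702219274540355329)) C.nil)) (C.cons (nat_lit 1282) (C.node (nat_lit 3) (nat_lit 10) (nat_lit 11) (C.cons (nat_lit 3080) (C.node (nat_lit 1) (nat_lit 9) (nat_lit 10) (C.cons (nat_lit 1538) (C.node (nat_lit 3) (nat_lit 4) (nat_lit 10) C.nil) C.nil)) C.nil)) C.nil))) C.nil))))) C.nil)) (C.cons (nat_lit 1036) (C.node (nat_lit 1) (nat_lit 2) (nat_lit 10) (C.cons (nat_lit 3078) (C.node (nat_lit 2) (nat_lit 5) (nat_lit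 11) (C.cons (nat_lit 2084) (C.node (nat_lit 2) (nat_lit 6) (nat_lit 11) (C.cons (nat_lit 2116) (C.node (nat_lit 5) (nat_lit 10) (nat_lit 11) C.nil) C.nil)) C.nil)) (C.cons (nat_lit 1030) (C.node (nat_lit 2) (nat_lit 10) (nat_lit 11) (C.cons (nat_lit 3076) (C.node (nat_lit 2) (nat_lit 5) (nat_lit 11) (C.cons (nat_lit 2086) (C.node (nat_lit 2) (nat_lit 6) (nat_lit 11) (C.cons (nat_lit 2116) (C.node (nat_lit 5) (nat_lit 9) (nat_lit 11) C.nil) C.nil)) (C.cons (nat_lit 2084) (C.node (nat_lit 1) (nat_lit 2) (nat_lit 11) (C.cons (nat_lit 2118) (C.node (nat_lit 1) (nat_lit 4) (nat_lit 11) C.nil) (C.cons (nat_lit 2054) (C.node (nat_lit 2) (nat_lit 6) (nat_lit 11) C.nil) C.nil))) C.nil))) C.nil)) C.nil))) C.nil))) C.nil))))))) C.nil))) (C.cons (nat_lit 1044) (C.node (nat_lit 2) (nat_lit 10) (nat_lit 11) (C.cons (nat_lit 3078) (C.node (nat_lit 5) (nat_lit 10) (nat_lit 11) (C.cons (nat_lit 3104) (C.node (nat_lit 2) (nat_lit 3) (nat_lit 10) (C.cons (nat_lit 1548)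 (C.node (nat_lit 2) (nat_lit 6) (nat_lit 11) (C.cons (nat_lit 2628) (C.miq (nat_lit 1402669606) (nat_lit 3104563434519424761434735685)) (C.cons (nat_lit 2116) (C.node (nat_lit 3) (nat_lit 10) (nat_lit 11) (C.cons (nat_lit 3144) (C.miq (nat_lit 2067334818) (nat_lit 3104533403560101388848202821)) (C.cons (nat_lit 3080) (C.node (nat_lit 6) (nat_lit 10) (nat_lit 11) C.nil) C.nil))) C.nil))) (C.cons (nat_lit 1036) (C.node (nat_lit 2) (nat_lit 9) (nat_lit 10) (C.cons (nat_lit 1540) (C.node (nat_lit 2) (nat_lit 5) (nat_lit 11) (C.cons (nat_lit 2596) (C.node (nat_lit 2) (nat_lit 6) (nat_lit 11) (C.cons (nat_lit 2116) (C.node (nat_lit 3) (nat_lit 10) (nat_lit 11) (C.cons (nat_lit 3144) (C.node (nat_lit 1) (nat_lit 3) (nat_lit 10) C.nil) C.nil)) C.nil)) (C.cons (nat_lit 2084) (C.node (nat_lit 2) (nat_lit 6) (nat_lit 11) (C.cons (nat_lit 2628) (C.node (nat_lit 4) (nat_lit 9) (nat_lit 11) (C.cons (nat_lit 2578) (C.miq (nat_lit 2516890273) (nat_lit 407455557656072988371651590))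 C.nil)) (C.cons (nat_lit 2116) (C.node (nat_lit 2) (nat_lit 9) (nat_lit 11) C.nil) C.nil))) C.nil))) C.nil)) C.nil))) C.nil)) (C.cons (nat_lit 3076) (C.node (nat_lit 4) (nat_lit 5) (nat_lit 10) (C.cons (nat_lit 1136) (C.node (nat_lit 2) (nat_lit 4) (nat_lit 5) (C.cons (nat_lit 54) (C.node (nat_lit 3) (nat_lit 4) (nat_lit 5) (C.cons (nat_lit 56)
  (C.node (nat_lit 2) (nat_lit 5) (nat_lit 7) (C.cons (nat_lit 172) (C.miq (nat_lit 981618871) (nat_lit 1590949551752620019282086113)) (C.cons (nat_lit 164) (C.node (nat_lit 2) (nat_lit 5) (nat_lit 11) (C.cons (nat_lit 2596) (C.miq (nat_lit 447889557) (nat_lit 3718656817588403016579678769)) (C.cons (nat_lit 2084) (C.node (nat_lit 5) (nat_lit 9) (nat_lit 10) (C.cons (nat_lit 1570) (C.miq (nat_lit 2502664512) (nat_lit 2519472262462790263975511187)) (C.cons (nat_lit 1568) (C.node (nat_lit 1) (nat_lit 5) (nat_lit 10) (C.cons (nat_lit 3106) (C.node (nat_lit 5) (nat_lit 9) (nat_lit 11) C.nil) (C.cons (nat_lit 1058)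 (C.node (nat_lit 5) (nat_lit 10) (nat_lit 11) (C.cons (nat_lit 3104) (C.node (nat_lit 3) (nat_lit 4) (nat_lit 10) C.nil) C.nil)) C.nil))) C.nil))) C.nil))) C.nil))) C.nil)) (C.cons (nat_lit 52) (C.node (nat_lit 1) (nat_lit 4) (nat_lit 5) (C.cons (nat_lit 58) (C.node (nat_lit 1) (nat_lit 4) (nat_lit 8) (C.cons (nat_lit 786) (C.miq (nat_lit 2220527920) (nat_lit 1373410585247445441726448139)) (C.cons (nat_lit 274) (C.node (nat_lit 3) (nat_lit 5) (nat_lit 11) (C.cons (nat_lit 2344) (C.miq (nat_lit 444940467) (nat_lit 1590947448853631963918501917)) (C.cons (nat_lit 2088) (C.node (nat_lit 5) (nat_lit 9) (nat_lit 10) (C.cons (nat_lit 1570) (C.miq (nat_lit 2503713088) (nat_lit 2524307965741248797854205075)) (C.cons (nat_lit 1568) (C.node (nat_lit 1) (nat_lit 4) (nat_lit 11) (C.cons (nat_lit 2642) (C.miq (nat_lit 363414283) (nat_lit 1895644421469911409615767581)) (C.cons (nat_lit 2066) (C.node (nat_lit 1) (nat_lit 5) (nat_lit 10) (C.cons (nat_lit 1058) (C.node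 (nat_lit 5) (nat_lit 10) (nat_lit 11) C.nil) C.nil)) C.nil))) C.nil))) C.nil))) C.nil))) (C.cons (nat_lit 50) (C.node (nat_lit 3) (nat_lit 4) (nat_lit 5) (C.cons (nat_lit 56) (C.node (nat_lit 3) (nat_lit 4) (nat_lit 10) (C.cons (nat_lit 1560) (C.node (nat_lit 3) (nat_lit 4) (nat_lit 7) (C.cons (nat_lit 152) (C.node (nat_lit 3) (nat_lit 4) (nat_lit 6) C.nil) C.nil)) (C.cons (nat_lit 1048) (C.node (nat_lit 4) (nat_lit 9) (nat_lit 10) C.nil) C.nil))) C.nil)) C.nil))) C.nil))) (C.cons (nat_lit 1072) (C.node (nat_lit 5) (nat_lit 10) (nat_lit 11) (C.cons (nat_lit 3106) (C.node (nat_lit 3) (nat_lit 5) (nat_lit 11) (C.cons (nat_lit 2344) (C.miq (nat_lit 461874480) (nat_lit 2944964898592818328561583145)) (C.cons (nat_lit 2088) (C.node (nat_lit 5) (nat_lit 8) (nat_lit 11) (C.cons (nat_lit 2336) (C.node (nat_lit 2) (nat_lit 5) (nat_lit 11) C.nil) C.nil)) C.nil))) (C.cons (nat_lit 3104) (C.node (nat_lit 7) (nat_lit 8) (nat_lit 9) (C.cons (nat_lit 962) (C.miq (nat_lit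 997786241) (nat_lit 3249602251355907760937107719)) (C.cons (nat_lit 960) (C.node (nat_lit 1) (nat_lit 7) (nat_lit 8) (C.cons (nat_lit 386) (C.node (nat_lit 2) (nat_lit 8) (nat_lit 9) (C.cons (nat_lit 780) (C.miq (nat_lit 812198776) (nat_lit 697564586962651816407337348)) (C.cons (nat_lit 772) (C.node (nat_lit 4) (nat_lit 6) (nat_lit 7) (C.cons (nat_lit 216) (C.miq (nat_lit 2537260608) (nat_lit 2640364844252554141437329745)) (C.cons (nat_lit 208) (C.node (nat_lit 1) (nat_lit 7) (nat_lit 9) (C.cons (nat_lit 642) (C.node (nat_lit 3) (nat_lit 4) (nat_lit 7) C.nil) C.nil)) C.nil))) C.nil))) C.nil)) (C.cons (nat_lit 898) (C.miq (nat_lit 997786241) (nat_lit 3249602251355907760932913415)) (C.cons (nat_lit 896) (C.node (nat_lit 1) (nat_lit 7) (nat_lit 8) (C.cons (nat_lit 450) (C.node (nat_lit 1) (nat_lit 7) (nat_lit 9) (C.cons (nat_lit 674) (C.miq (nat_lit 1636861780) (nat_lit 632274420337870532854743472)) (C.cons (nat_lit 642) (C.node (nat_lit 2) (nat_lit 6)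 (nat_lit 7) (C.cons (nat_lit 196) (C.node (nat_lit 5) (nat_lit 7) (nat_lit 9) C.nil) C.nil)) C.nil))) (C.cons (nat_lit 386) (C.node (nat_lit 6) (nat_lit 7) (nat_lit 8) (C.cons (nat_lit 448) (C.node (nat_lit 2) (nat_lit 5) (nat_lit 11) (C.cons (nat_lit 2598) (C.miq (nat_lit 2073264656) (nat_lit 3104528755026472890125713671)) (C.cons (nat_lit 2084) (C.node (nat_lit 5) (nat_lit 9) (nat_lit 11) (C.cons (nat_lit 2592)
  (C.node (nat_lit 1) (nat_lit 2) (nat_lit 11) C.nil) C.nil)) C.nil))) C.nil)) C.nil))) C.nil))))) C.nil))) C.nil))) C.nil))) C.nil))) (C.cons (nat_lit 1292) (C.miq (nat_lit 1468664611) (nat_lit 1702187200439639463347095581)) (C.cons (nat_lit 1284) (C.node (nat_lit 7) (nat_lit 8) (nat_lit 9) (C.cons (nat_lit 962) (C.miq (nat_lit 997786241) (nat_lit 3249602251355907760937107719)) (C.cons (nat_lit 960) (C.node (nat_lit 1) (nat_lit 7) (nat_lit 8) (C.cons (nat_lit 386) (C.node (nat_lit 4) (nat_lit 6) (nat_lit 7) (C.cons (nat_lit 216) (C.miq (nat_lit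 2537260608) (nat_lit 2640364844252554141437329745)) (C.cons (nat_lit 208) (C.node (nat_lit 1) (nat_lit 7) (nat_lit 9) (C.cons (nat_lit 642) (C.node (nat_lit 3) (nat_lit 4) (nat_lit 7) C.nil) C.nil)) C.nil))) C.nil)) (C.cons (nat_lit 898) (C.miq (nat_lit 997786241) (nat_lit 3249602251355907760932913415)) (C.cons (nat_lit 896) (C.node (nat_lit 1) (nat_lit 7) (nat_lit 8) (C.cons (nat_lit 450) (C.node (nat_lit 1) (nat_lit 7) (nat_lit 9) (C.cons (nat_lit 674) (C.miq (nat_lit 1636861780) (nat_lit 632274420337870532854743472)) (C.cons (nat_lit 642) (C.node (nat_lit 2) (nat_lit 6) (nat_lit 7) (C.cons (nat_lit 196) (C.node (nat_lit 5) (nat_lit 7) (nat_lit 9) C.nil) C.nil)) C.nil))) (C.cons (nat_lit 386) (C.node (nat_lit 6) (nat_lit 7) (nat_lit 8) (C.cons (nat_lit 448) (C.node (nat_lit 2) (nat_lit 5) (nat_lit 7) (C.cons (nat_lit 174) (C.miq (nat_lit 981618871) (nat_lit 1552263962418440033110591713)) (C.cons (nat_lit 172) (C.miq (nat_lit 981618871) (nat_lit 1552263925524951885691488481))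 (C.cons (nat_lit 166) (C.node (nat_lit 1) (nat_lit 3) (nat_lit 7) C.nil) C.nil)))) C.nil)) C.nil))) C.nil))))) C.nil)))) C.nil))) C.nil)))) C.nil))) C.nil))) C.nil))) C.nil))) (C.cons (nat_lit 184) (C.node (nat_lit 4) (nat_lit 7) (nat_lit 8) (C.cons (nat_lit 912) (C.miq (nat_lit 2839873651) (nat_lit 678227031667394770250498441)) (C.cons (nat_lit 400) (C.node (nat_lit 5) (nat_lit 7) (nat_lit 10) (C.cons (nat_lit 1696) (C.miq (nat_lit 1404662794) (nat_lit 3104552790500117048658560147)) (C.cons (nat_lit 1440) (C.miq (nat_lit 659798176) (nat_lit 222480665382212090974506753)) (C.cons (nat_lit 1184) (C.node (nat_lit 2) (nat_lit 5) (nat_lit 7) (C.cons (nat_lit 166) (C.node (nat_lit 5) (nat_lit 7) (nat_lit 8) (C.cons (nat_lit 928) (C.miq (nat_lit 659863696) (nat_lit 222480665382209891918221057)) (C.cons (nat_lit 416) (C.node (nat_lit 5) (nat_lit 7) (nat_lit 9) (C.cons (nat_lit 672) (C.node (nat_lit 1) (nat_lit 3) (nat_lit 7) (C.cons (nat_lit 138) (C.node (nat_lit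 2) (nat_lit 3) (nat_lit 7) C.nil) C.nil)) C.nil)) C.nil))) (C.cons (nat_lit 164) (C.node (nat_lit 4) (nat_lit 6) (nat_lit 7) (C.cons (nat_lit 720) (C.node (nat_lit 3) (nat_lit 4) (nat_lit 9) (C.cons (nat_lit 1560) (C.miq (nat_lit 1536389284) (nat_lit 3104524899611086402337899667)) (C.cons (nat_lit 792) (C.miq (nat_lit 3108309047) (nat_lit 678249315334235295992775049)) (C.cons (nat_lit 536) (C.node (nat_lit 7) (nat_lit 8) (nat_lit 9) (C.cons (nat_lit 930) (C.miq (nat_lit 659863696) (nat_lit 222480665382209900508155649)) (C.cons (nat_lit 928) (C.miq (nat_lit 659863696) (nat_lit 222480665382209891918221057)) (C.cons (nat_lit 898) (C.miq (nat_lit 997786241) (nat_lit 3249602251355907760932913415)) (C.cons (nat_lit 896) (C.node (nat_lit 1) (nat_lit 7) (nat_lit 9) (C.cons (nat_lit 642) (C.node (nat_lit 5) (nat_lit 7) (nat_lit 9) C.nil) C.nil)) C.nil))))) C.nil)))) (C.cons (nat_lit 208) (C.node (nat_lit 4) (nat_lit 7) (nat_lit 9) (C.cons (nat_lit 656) (C.node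 (nat_lit 7) (nat_lit 8) (nat_lit 10) (C.cons (nat_lit 1472) (C.node (nat_lit 3) (nat_lit 7) (nat_lit 10) C.nil) C.nil)) C.nil)) C.nil))) C.nil))) C.nil)))) C.nil))) (C.cons (nat_lit 176) (C.node (nat_lit 4) (nat_lit 7) (nat_lit 8) (C.cons (nat_lit 912) (C.node (nat_lit 3) (nat_lit 4) (nat_lit 7) (C.cons (nat_lit 216) (C.node (nat_lit 3) (nat_lit 4) (nat_lit 9) (C.cons (nat_lit 1560) (C.miq (nat_lit 1804824740) (nat_lit 3104525489906896761043551379)) (C.cons (nat_lit 536)
  (C.node (nat_lit 3) (nat_lit 4) (nat_lit 10) (C.cons (nat_lit 1304) (C.miq (nat_lit 1805938819) (nat_lit 3733166916106503931873984905)) (C.cons (nat_lit 1048) (C.node (nat_lit 3) (nat_lit 7) (nat_lit 10) (C.cons (nat_lit 1672) (C.miq (nat_lit 1621313687) (nat_lit 1287509982481173556555678608)) (C.cons (nat_lit 1160) (C.node (nat_lit 6) (nat_lit 7) (nat_lit 10) (C.cons (nat_lit 1728) (C.miq (nat_lit 1673098250) (nat_lit 3104553380804934606618952851)) (C.cons (nat_lit 1472) (C.miq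 (nat_lit 1689940744) (nat_lit 3733190084638058907820949897)) (C.cons (nat_lit 1216) (C.node (nat_lit 2) (nat_lit 6) (nat_lit 7) (C.cons (nat_lit 198) (C.node (nat_lit 6) (nat_lit 7) (nat_lit 8) C.nil) (C.cons (nat_lit 196) (C.node (nat_lit 3) (nat_lit 7) (nat_lit 9) (C.cons (nat_lit 648) (C.node (nat_lit 6) (nat_lit 7) (nat_lit 8) C.nil) C.nil)) C.nil))) C.nil)))) C.nil))) C.nil))) C.nil))) (C.cons (nat_lit 152) (C.node (nat_lit 4) (nat_lit 6) (nat_lit 7) (C.cons (nat_lit 208) (C.node (nat_lit 4) (nat_lit 5) (nat_lit 11) (C.cons (nat_lit 2354) (C.miq (nat_lit 675904336) (nat_lit 1102552246324152503649765601)) (C.cons (nat_lit 2352) (C.miq (nat_lit 675904336) (nat_lit 1102552246324152495059831009)) (C.cons (nat_lit 2098) (C.node (nat_lit 4) (nat_lit 8) (nat_lit 11) (C.cons (nat_lit 2320) (C.node (nat_lit 5) (nat_lit 9) (nat_lit 11) (C.cons (nat_lit 2596) (C.miq (nat_lit 722965824) (nat_lit 2633052334001307935629836849)) (C.cons (nat_lit 2592) (C.node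 (nat_lit 1) (nat_lit 4) (nat_lit 8) (C.cons (nat_lit 282) (C.node (nat_lit 1) (nat_lit 7) (nat_lit 8) (C.cons (nat_lit 450) (C.miq (nat_lit 1367847984) (nat_lit 544058548866398382774093853)) (C.cons (nat_lit 418) (C.node (nat_lit 2) (nat_lit 5) (nat_lit 7) (C.cons (nat_lit 172) (C.miq (nat_lit 2826242851) (nat_lit 505350639462509343796889629)) (C.cons (nat_lit 164) (C.node (nat_lit 1) (nat_lit 7) (nat_lit 9) (C.cons (nat_lit 642) (C.node (nat_lit 3) (nat_lit 5) (nat_lit 7) C.nil) C.nil)) C.nil))) (C.cons (nat_lit 386) (C.miq (nat_lit 1367847984) (nat_lit 466687296411062115592898589)) C.nil)))) (C.cons (nat_lit 274) (C.node (nat_lit 1) (nat_lit 3) (nat_lit 4) (C.cons (nat_lit 90) (C.node (nat_lit 1) (nat_lit 2) (nat_lit 4) (C.cons (nat_lit 534) (C.miq (nat_lit 565679184) (nat_lit 2633052333420906533724684849)) (C.cons (nat_lit 22) (C.node (nat_lit 1) (nat_lit 4) (nat_lit 9) (C.cons (nat_lit 530) (C.node (nat_lit 1) (nat_lit 7) (nat_lit 9) (C.cons (nat_lit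 706) (C.miq (nat_lit 660867347) (nat_lit 251494884548838355308773899)) (C.cons (nat_lit 674) (C.miq (nat_lit 605621079) (nat_lit 640742583130313542768658657)) (C.cons (nat_lit 642) (C.node (nat_lit 2) (nat_lit 5) (nat_lit 11) (C.cons (nat_lit 3108) (C.node (nat_lit 4) (nat_lit 6) (nat_lit 11) C.nil) (C.cons (nat_lit 2084) (C.node (nat_lit 4) (nat_lit 6) (nat_lit 11) C.nil) C.nil))) C.nil)))) C.nil)) C.nil))) (C.cons (nat_lit 26) (C.node (nat_lit 2) (nat_lit 5) (nat_lit 11) (C.cons (nat_lit 3108) (C.node (nat_lit 3) (nat_lit 5) (nat_lit 11) (C.cons (nat_lit 2344) (C.miq (nat_lit 1923124051) (nat_lit 1321363171094897047902947624)) (C.cons (nat_lit 2088) (C.node (nat_lit 5) (nat_lit 8) (nat_lit 11) (C.cons (nat_lit 2336) (C.node (nat_lit 4) (nat_lit 6) (nat_lit 11) (C.cons (nat_lit 2640) (C.node (nat_lit 1) (nat_lit 9) (nat_lit 11) (C.cons (nat_lit 2566) (C.miq (nat_lit 2073264656) (nat_lit 3104528755026472752686760199)) C.nil)) C.nil)) C.nil)) C.nil)))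 (C.cons (nat_lit 2084) (C.node (nat_lit 5) (nat_lit 10) (nat_lit 11) (C.cons (nat_lit 3104) (C.node (nat_lit 2) (nat_lit 10) (nat_lit 11) (C.cons (nat_lit 3078) (C.node (nat_lit 1) (nat_lit 9) (nat_lit 11) (C.cons (nat_lit 2626) (C.node (nat_lit 2) (nat_lit 6) (nat_lit 11) C.nil) C.nil)) (C.cons (nat_lit 3076) (C.node (nat_lit 3) (nat_lit 5) (nat_lit 11) C.nil) C.nil))) C.nil)) C.nil))) C.nil))) C.nil))) C.nil))) C.nil)) (C.cons (nat_lit 2096) (C.node (nat_lit 4) (nat_lit 8) (nat_lit 11) (C.cons (nat_lit 2322) (C.node (nat_lit 4) (nat_lit 6) (nat_lit 11) (C.cons (nat_lit 2640)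
  (C.node (nat_lit 1) (nat_lit 4) (nat_lit 9) (C.cons (nat_lit 534) (C.node (nat_lit 2) (nat_lit 9) (nat_lit 11) (C.cons (nat_lit 2596) (C.miq (nat_lit 397557849) (nat_lit 2944953147472188990843781681)) (C.cons (nat_lit 2564) (C.node (nat_lit 1) (nat_lit 7) (nat_lit 9) (C.cons (nat_lit 706) (C.miq (nat_lit 1764454720) (nat_lit 3099727731139912372963837075)) (C.cons (nat_lit 674) (C.miq (nat_lit 1496019264) (nat_lit 3099727731130905173709096083)) (C.cons (nat_lit 642) (C.node (nat_lit 1) (nat_lit 9) (nat_lit 11) (C.cons (nat_lit 2594) (C.node (nat_lit 1) (nat_lit 8) (nat_lit 9) (C.cons (nat_lit 834) (C.miq (nat_lit 1629788171) (nat_lit 645615087313317832798572289)) (C.cons (nat_lit 770) (C.node (nat_lit 2) (nat_lit 6) (nat_lit 11) (C.cons (nat_lit 2118) (C.miq (nat_lit 1637200448) (nat_lit 3135995506125793915221116957)) (C.cons (nat_lit 2116) (C.node (nat_lit 1) (nat_lit 7) (nat_lit 8) C.nil) C.nil))) C.nil))) (C.cons (nat_lit 2562) (C.node (nat_lit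 1) (nat_lit 7) (nat_lit 8) C.nil) C.nil))) C.nil)))) C.nil))) (C.cons (nat_lit 530) (C.node (nat_lit 2) (nat_lit 4) (nat_lit 9) (C.cons (nat_lit 1556) (C.node (nat_lit 3) (nat_lit 4) (nat_lit 9) (C.cons (nat_lit 536) (C.node (nat_lit 2) (nat_lit 4) (nat_lit 6) (C.cons (nat_lit 118) (C.miq (nat_lit 2489033312) (nat_lit 2533979372294225439288788037)) (C.cons (nat_lit 116) (C.miq (nat_lit 2489033312) (nat_lit 2533979372294225430698853445)) (C.cons (nat_lit 86) (C.miq (nat_lit 2873493522) (nat_lit 3191584327155048944229548295)) (C.cons (nat_lit 84) (C.node (nat_lit 1) (nat_lit 2) (nat_lit 4) (C.cons (nat_lit 54) (C.node (nat_lit 2) (nat_lit 4) (nat_lit 8) C.nil) C.nil)) C.nil))))) C.nil)) (C.cons (nat_lit 532) (C.node (nat_lit 2) (nat_lit 6) (nat_lit 11) (C.cons (nat_lit 2118) (C.node (nat_lit 1) (nat_lit 2) (nat_lit 4) (C.cons (nat_lit 54) (C.node (nat_lit 2) (nat_lit 4) (nat_lit 6) (C.cons (nat_lit 84) (C.node (nat_lit 2) (nat_lit 9) (nat_lit 11) (C.cons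 (nat_lit 2596) (C.miq (nat_lit 2871069012) (nat_lit 2560526488162251441196892721)) C.nil)) C.nil)) (C.cons (nat_lit 22) (C.node (nat_lit 1) (nat_lit 9) (nat_lit 11) (C.cons (nat_lit 2594) (C.node (nat_lit 2) (nat_lit 9) (nat_lit 11) (C.cons (nat_lit 2564) (C.node (nat_lit 1) (nat_lit 3) (nat_lit 11) (C.cons (nat_lit 2058) (C.node (nat_lit 2) (nat_lit 4) (nat_lit 6) C.nil) C.nil)) C.nil)) (C.cons (nat_lit 2562) (C.node (nat_lit 2) (nat_lit 4) (nat_lit 6) (C.cons (nat_lit 84) (C.node (nat_lit 2) (nat_lit 6) (nat_lit 7) (C.cons (nat_lit 196) (C.node (nat_lit 1) (nat_lit 7) (nat_lit 8) C.nil) C.nil)) C.nil)) C.nil))) C.nil))) (C.cons (nat_lit 2116) (C.node (nat_lit 3) (nat_lit 4) (nat_lit 9) (C.cons (nat_lit 1560) (C.node (nat_lit 3) (nat_lit 4) (nat_lit 8) (C.cons (nat_lit 312) (C.miq (nat_lit 1681242528) (nat_lit 377226785912144483054063361)) (C.cons (nat_lit 280) (C.node (nat_lit 5) (nat_lit 8) (nat_lit 11) C.nil) C.nil))) (C.cons (nat_lit 536) (C.node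 (nat_lit 4) (nat_lit 9) (nat_lit 10) (C.cons (nat_lit 1552) (C.node (nat_lit 5) (nat_lit 8) (nat_lit 11) (C.cons (nat_lit 2344) (C.node (nat_lit 6) (nat_lit 8) (nat_lit 11) C.nil) C.nil)) C.nil)) C.nil))) C.nil))) C.nil))) C.nil))) (C.cons (nat_lit 2128) (C.node (nat_lit 4) (nat_lit 9) (nat_lit 11) (C.cons (nat_lit 2576) (C.node (nat_lit 5) (nat_lit 8) (nat_lit 11) (C.cons (nat_lit 2344) (C.node (nat_lit 6) (nat_lit 8) (nat_lit 11) (C.cons (nat_lit 2368) (C.node (nat_lit 2) (nat_lit 10) (nat_lit 11) (C.cons (nat_lit 3110) (C.miq (nat_lit 2241966852) (nat_lit 3759802133001017806541752349)) (C.cons (nat_lit 3108) (C.miq (nat_lit 1923124051) (nat_lit 1321363171094897047902947624)) (C.cons (nat_lit 3078) (C.miq (nat_lit 730243392) (nat_lit 2862756504005104401495688339)) C.nil)))) C.nil)) (C.cons (nat_lit 2336) (C.node (nat_lit 3) (nat_lit 5) (nat_lit 11) (C.cons (nat_lit 2090) (C.node (nat_lit 3) (nat_lit 8) (nat_lit 11) (C.cons (nat_lit 2376) (C.node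 (nat_lit 3) (nat_lit 10) (nat_lit 11) C.nil) C.nil)) (C.cons (nat_lit 2088)
  (C.node (nat_lit 3) (nat_lit 8) (nat_lit 11) C.nil) C.nil))) C.nil))) C.nil)) C.nil))) (C.cons (nat_lit 2320) (C.node (nat_lit 1) (nat_lit 7) (nat_lit 8) (C.cons (nat_lit 450) (C.node (nat_lit 1) (nat_lit 7) (nat_lit 9) (C.cons (nat_lit 674) (C.miq (nat_lit 424178950) (nat_lit 1102548648713091520431982817)) (C.cons (nat_lit 642) (C.node (nat_lit 2) (nat_lit 6) (nat_lit 7) (C.cons (nat_lit 196) (C.node (nat_lit 5) (nat_lit 7) (nat_lit 8) C.nil) C.nil)) C.nil))) (C.cons (nat_lit 418) (C.node (nat_lit 1) (nat_lit 4) (nat_lit 8) (C.cons (nat_lit 282) (C.miq (nat_lit 347439879) (nat_lit 2533916228730670425005162889)) (C.cons (nat_lit 274) (C.node (nat_lit 2) (nat_lit 5) (nat_lit 7) (C.cons (nat_lit 172) (C.miq (nat_lit 2826242851) (nat_lit 505350639462509343796889629)) (C.cons (nat_lit 164) (C.node (nat_lit 1) (nat_lit 7) (nat_lit 9) (C.cons (nat_lit 642) (C.node (nat_lit 3) (nat_lit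 5) (nat_lit 7) C.nil) C.nil)) C.nil))) C.nil))) (C.cons (nat_lit 386) (C.node (nat_lit 5) (nat_lit 7) (nat_lit 8) (C.cons (nat_lit 1440) (C.node (nat_lit 2) (nat_lit 5) (nat_lit 7) (C.cons (nat_lit 174) (C.miq (nat_lit 2557545251) (nat_lit 466655015099553259629447197)) (C.cons (nat_lit 164) (C.miq (nat_lit 846531466) (nat_lit 198283480783871674587025153)) C.nil))) (C.cons (nat_lit 416) (C.node (nat_lit 5) (nat_lit 7) (nat_lit 10) (C.cons (nat_lit 1696) (C.node (nat_lit 1) (nat_lit 7) (nat_lit 9) C.nil) C.nil)) C.nil))) C.nil)))) C.nil))) C.nil))))) C.nil)) C.nil))) (C.cons (nat_lit 400) (C.node (nat_lit 7) (nat_lit 8) (nat_lit 9) (C.cons (nat_lit 962) (C.miq (nat_lit 997786241) (nat_lit 3249602251355907760937107719)) (C.cons (nat_lit 960) (C.node (nat_lit 4) (nat_lit 6) (nat_lit 7) (C.cons (nat_lit 216) (C.miq (nat_lit 2537260608) (nat_lit 2640364844252554141437329745)) (C.cons (nat_lit 208) (C.node (nat_lit 1) (nat_lit 7) (nat_lit 8) (C.cons (nat_lit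 418) (C.node (nat_lit 1) (nat_lit 7) (nat_lit 9) (C.cons (nat_lit 642) (C.node (nat_lit 7) (nat_lit 8) (nat_lit 10) (C.cons (nat_lit 1408) (C.node (nat_lit 2) (nat_lit 5) (nat_lit 7) C.nil) C.nil)) C.nil)) (C.cons (nat_lit 386) (C.node (nat_lit 1) (nat_lit 7) (nat_lit 9) (C.cons (nat_lit 674) (C.node (nat_lit 2) (nat_lit 5) (nat_lit 7) (C.cons (nat_lit 164) (C.node (nat_lit 3) (nat_lit 5) (nat_lit 7) C.nil) C.nil)) (C.cons (nat_lit 642) (C.node (nat_lit 3) (nat_lit 4) (nat_lit 7) (C.cons (nat_lit 664) (C.node (nat_lit 3) (nat_lit 7) (nat_lit 10) C.nil) C.nil)) C.nil))) C.nil))) C.nil))) (C.cons (nat_lit 930) (C.miq (nat_lit 659863696) (nat_lit 212809258825292867110506241)) (C.cons (nat_lit 928) (C.miq (nat_lit 659863696) (nat_lit 212809258825292858520571649)) (C.cons (nat_lit 898) (C.miq (nat_lit 997786241) (nat_lit 3249602251355907760932913415)) (C.cons (nat_lit 896) (C.node (nat_lit 4) (nat_lit 5) (nat_lit 11) (C.cons (nat_lit 2354) (C.miq (nat_lit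 1484344096) (nat_lit 1083207883660735649354680349)) (C.cons (nat_lit 2352) (C.miq (nat_lit 1484344096) (nat_lit 1083207883660172699401259037)) (C.cons (nat_lit 2098) (C.node (nat_lit 4) (nat_lit 8) (nat_lit 11) (C.cons (nat_lit 2320) (C.node (nat_lit 5) (nat_lit 9) (nat_lit 11) (C.cons (nat_lit 2596) (C.miq (nat_lit 722965824) (nat_lit 2633052334001307935629836849)) (C.cons (nat_lit 2592) (C.node (nat_lit 2) (nat_lit 5) (nat_lit 11) (C.cons (nat_lit 3108) (C.node (nat_lit 3) (nat_lit 5) (nat_lit 11) (C.cons (nat_lit 2344) (C.miq (nat_lit 1923124051) (nat_lit 1321363171094897047902947624)) (C.cons (nat_lit 2088) (C.node (nat_lit 5) (nat_lit 8) (nat_lit 11) (C.cons (nat_lit 2336) (C.node (nat_lit 4) (nat_lit 6) (nat_lit 11) (C.cons (nat_lit 2640) (C.node (nat_lit 1) (nat_lit 9) (nat_lit 11) (C.cons (nat_lit 2566) (C.miq (nat_lit 2073264656) (nat_lit 3104528755026472752686760199)) C.nil)) C.nil)) C.nil)) C.nil))) (C.cons (nat_lit 2084) (C.node (nat_lit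 5) (nat_lit 10) (nat_lit 11) (C.cons (nat_lit 3104) (C.node (nat_lit 2) (nat_lit 10) (nat_lit 11) (C.cons (nat_lit 3078) (C.node (nat_lit 1) (nat_lit 9) (nat_lit 11) (C.cons (nat_lit 2626)
  (C.node (nat_lit 2) (nat_lit 6) (nat_lit 11) C.nil) C.nil)) (C.cons (nat_lit 3076) (C.node (nat_lit 3) (nat_lit 5) (nat_lit 11) C.nil) C.nil))) C.nil)) C.nil))) C.nil))) C.nil)) (C.cons (nat_lit 2096) (C.node (nat_lit 4) (nat_lit 8) (nat_lit 11) (C.cons (nat_lit 2322) (C.node (nat_lit 4) (nat_lit 6) (nat_lit 11) (C.cons (nat_lit 2640) (C.node (nat_lit 4) (nat_lit 6) (nat_lit 7) (C.cons (nat_lit 216) (C.miq (nat_lit 1737048843) (nat_lit 1083246233839862616896374813)) (C.cons (nat_lit 208) (C.node (nat_lit 4) (nat_lit 8) (nat_lit 9) (C.cons (nat_lit 792) (C.miq (nat_lit 929333433) (nat_lit 251471180411778674784734977)) (C.cons (nat_lit 788) (C.miq (nat_lit 1461980041) (nat_lit 178931370566193553570270977)) (C.cons (nat_lit 784) (C.node (nat_lit 1) (nat_lit 4) (nat_lit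 9) (C.cons (nat_lit 534) (C.node (nat_lit 2) (nat_lit 9) (nat_lit 11) (C.cons (nat_lit 2596) (C.miq (nat_lit 397557849) (nat_lit 2944953147472188990843781681)) (C.cons (nat_lit 2564) (C.node (nat_lit 3) (nat_lit 4) (nat_lit 7) (C.cons (nat_lit 664) (C.miq (nat_lit 410591284) (nat_lit 1083207385010072708277864477)) (C.cons (nat_lit 152) (C.node (nat_lit 4) (nat_lit 7) (nat_lit 9) C.nil) C.nil))) C.nil))) (C.cons (nat_lit 530) (C.node (nat_lit 2) (nat_lit 4) (nat_lit 9) (C.cons (nat_lit 1556) (C.node (nat_lit 2) (nat_lit 4) (nat_lit 6) (C.cons (nat_lit 118) (C.miq (nat_lit 2489033312) (nat_lit 2533979372294225439288788037)) (C.cons (nat_lit 116) (C.miq (nat_lit 2489033312) (nat_lit 2533979372294225430698853445)) (C.cons (nat_lit 86) (C.miq (nat_lit 2873493522) (nat_lit 3191584327155048944229548295)) (C.cons (nat_lit 84) (C.node (nat_lit 3) (nat_lit 4) (nat_lit 7) (C.cons (nat_lit 664) (C.node (nat_lit 3) (nat_lit 7) (nat_lit 10) C.nil) C.nil)) C.nil)))))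 (C.cons (nat_lit 532) (C.node (nat_lit 2) (nat_lit 6) (nat_lit 11) (C.cons (nat_lit 2118) (C.node (nat_lit 1) (nat_lit 2) (nat_lit 4) (C.cons (nat_lit 54) (C.node (nat_lit 2) (nat_lit 4) (nat_lit 6) (C.cons (nat_lit 84) (C.node (nat_lit 3) (nat_lit 4) (nat_lit 7) C.nil) C.nil)) (C.cons (nat_lit 22) (C.node (nat_lit 3) (nat_lit 4) (nat_lit 7) (C.cons (nat_lit 664) (C.node (nat_lit 2) (nat_lit 6) (nat_lit 7) C.nil) C.nil)) C.nil))) (C.cons (nat_lit 2116) (C.node (nat_lit 3) (nat_lit 4) (nat_lit 7) (C.cons (nat_lit 664) (C.node (nat_lit 4) (nat_lit 9) (nat_lit 10) (C.cons (nat_lit 1552) (C.node (nat_lit 3) (nat_lit 7) (nat_lit 10) C.nil) C.nil)) (C.cons (nat_lit 152) (C.node (nat_lit 4) (nat_lit 7) (nat_lit 9) C.nil) C.nil))) C.nil))) C.nil))) C.nil))) C.nil)))) C.nil))) (C.cons (nat_lit 2128) (C.node (nat_lit 4) (nat_lit 9) (nat_lit 11) (C.cons (nat_lit 2576) (C.node (nat_lit 5) (nat_lit 8) (nat_lit 11) (C.cons (nat_lit 2344) (C.node (nat_lit 6) (nat_lit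 8) (nat_lit 11) (C.cons (nat_lit 2368) (C.node (nat_lit 2) (nat_lit 10) (nat_lit 11) (C.cons (nat_lit 3110) (C.miq (nat_lit 2241966852) (nat_lit 3759802133001017806541752349)) (C.cons (nat_lit 3108) (C.miq (nat_lit 1923124051) (nat_lit 1321363171094897047902947624)) (C.cons (nat_lit 3078) (C.miq (nat_lit 730243392) (nat_lit 2862756504005104401495688339)) C.nil)))) C.nil)) (C.cons (nat_lit 2336) (C.node (nat_lit 3) (nat_lit 5) (nat_lit 11) (C.cons (nat_lit 2090) (C.node (nat_lit 3) (nat_lit 8) (nat_lit 11) (C.cons (nat_lit 2376) (C.node (nat_lit 3) (nat_lit 10) (nat_lit 11) C.nil) C.nil)) (C.cons (nat_lit 2088) (C.node (nat_lit 3) (nat_lit 8) (nat_lit 11) C.nil) C.nil))) C.nil))) C.nil)) C.nil))) (C.cons (nat_lit 2320) (C.node (nat_lit 1) (nat_lit 7) (nat_lit 8) (C.cons (nat_lit 450) (C.node (nat_lit 1) (nat_lit 7) (nat_lit 9) (C.cons (nat_lit 674) (C.node (nat_lit 1) (nat_lit 2) (nat_lit 7) (C.cons (nat_lit 142) (C.miq (nat_lit 2266608176) (nat_lit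 814886857049920835326511133)) (C.cons (nat_lit 134) (C.node (nat_lit 1) (nat_lit 3) (nat_lit 7) (C.cons (nat_lit 138) (C.node (nat_lit 2) (nat_lit 5) (nat_lit 7) C.nil) C.nil)) C.nil))) (C.cons (nat_lit 642) (C.node (nat_lit 2) (nat_lit 6) (nat_lit 7) (C.cons (nat_lit 204) (C.node (nat_lit 1) (nat_lit 2) (nat_lit 7)
  (C.cons (nat_lit 134) (C.node (nat_lit 2) (nat_lit 5) (nat_lit 7) C.nil) C.nil)) (C.cons (nat_lit 196) (C.node (nat_lit 5) (nat_lit 7) (nat_lit 8) (C.cons (nat_lit 1440) (C.node (nat_lit 5) (nat_lit 7) (nat_lit 9) C.nil) C.nil)) C.nil))) C.nil))) (C.cons (nat_lit 418) (C.node (nat_lit 2) (nat_lit 5) (nat_lit 7) (C.cons (nat_lit 172) (C.miq (nat_lit 2826242851) (nat_lit 505350639462509343796889629)) (C.cons (nat_lit 164) (C.node (nat_lit 5) (nat_lit 8) (nat_lit 11) (C.cons (nat_lit 2344) (C.miq (nat_lit 364148784) (nat_lit 2533930119167239671873601929)) (C.cons (nat_lit 2336) (C.node (nat_lit 1) (nat_lit 7) (nat_lit 9) (C.cons (nat_lit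 706) (C.node (nat_lit 1) (nat_lit 2) (nat_lit 7) (C.cons (nat_lit 134) (C.node (nat_lit 1) (nat_lit 3) (nat_lit 7) C.nil) C.nil)) (C.cons (nat_lit 642) (C.node (nat_lit 3) (nat_lit 5) (nat_lit 7) (C.cons (nat_lit 680) (C.node (nat_lit 5) (nat_lit 7) (nat_lit 10) C.nil) C.nil)) C.nil))) C.nil))) C.nil))) (C.cons (nat_lit 386) (C.node (nat_lit 5) (nat_lit 7) (nat_lit 8) (C.cons (nat_lit 1440) (C.node (nat_lit 6) (nat_lit 7) (nat_lit 8) (C.cons (nat_lit 448) (C.node (nat_lit 5) (nat_lit 7) (nat_lit 9) (C.cons (nat_lit 680) (C.miq (nat_lit 659798176) (nat_lit 822107871911068161628770049)) (C.cons (nat_lit 674) (C.node (nat_lit 2) (nat_lit 5) (nat_lit 7) C.nil) C.nil))) C.nil)) (C.cons (nat_lit 416) (C.node (nat_lit 5) (nat_lit 7) (nat_lit 10) (C.cons (nat_lit 1696) (C.node (nat_lit 6) (nat_lit 7) (nat_lit 8) (C.cons (nat_lit 1472) (C.miq (nat_lit 1165363624) (nat_lit 2747894604694719700521717505)) C.nil)) (C.cons (nat_lit 1184) (C.node (nat_lit 6) (nat_lit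 7) (nat_lit 8) (C.cons (nat_lit 448) (C.node (nat_lit 7) (nat_lit 8) (nat_lit 10) C.nil) C.nil)) C.nil))) C.nil))) C.nil)))) C.nil))) C.nil))))) C.nil))))))) C.nil))) C.nil)))) List.nil)

theorem ok12_291 : okL par12 (nat_lit 292) c12_291 (nat_lit 291) = true := by decide +kernel

noncomputable def c12_292 : List C :=
  (List.cons (C.node (nat_lit 2) (nat_lit 7) (nat_lit 10) (C.cons (nat_lit 1188) (C.node (nat_lit 2) (nat_lit 10) (nat_lit 11) (C.cons (nat_lit 3078) (C.node (nat_lit 5) (nat_lit 10) (nat_lit 11) (C.cons (nat_lit 3104) (C.node (nat_lit 2) (nat_lit 5) (nat_lit 11) (C.cons (nat_lit 2596) (C.node (nat_lit 2) (nat_lit 6) (nat_lit 11) (C.cons (nat_lit 2116) (C.node (nat_lit 4) (nat_lit 5) (nat_lit 11) (C.cons (nat_lit 2354) (C.miq (nat_lit 625064202) (nat_lit 2845868159181807404352474881)) (C.cons (nat_lit 2352) (C.miq (nat_lit 2215097746) (nat_lit 1415697071699325874791057956)) (C.cons (nat_lit 2098) (C.miq (nat_lit 625064202) (nat_lit 2536383149360462335627693825))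 (C.cons (nat_lit 2096) (C.node (nat_lit 4) (nat_lit 8) (nat_lit 11) (C.cons (nat_lit 2322) (C.miq (nat_lit 1656228372) (nat_lit 2944949513441654879309399187)) (C.cons (nat_lit 2320) (C.node (nat_lit 2) (nat_lit 4) (nat_lit 5) (C.cons (nat_lit 308) (C.miq (nat_lit 307538832) (nat_lit 372370754445007227781713665)) (C.cons (nat_lit 118) (C.miq (nat_lit 2334525972) (nat_lit 2558093251938466779259864211)) (C.cons (nat_lit 116) (C.miq (nat_lit 307538832) (nat_lit 140256997078998426238127873)) (C.cons (nat_lit 54) (C.node (nat_lit 1) (nat_lit 2) (nat_lit 9) (C.cons (nat_lit 582) (C.node (nat_lit 2) (nat_lit 4) (nat_lit 6) (C.cons (nat_lit 84) (C.node (nat_lit 1) (nat_lit 2) (nat_lit 3) (C.cons (nat_lit 142) (C.miq (nat_lit 2316765987) (nat_lit 1415659385420310336898992157)) (C.cons (nat_lit 14) (C.node (nat_lit 1) (nat_lit 2) (nat_lit 7) (C.cons (nat_lit 134) (C.node (nat_lit 1) (nat_lit 9) (nat_lit 10) (C.cons (nat_lit 1570) (C.node (nat_lit 1) (nat_lit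 7) (nat_lit 9) (C.cons (nat_lit 898) (C.miq (nat_lit 846269321) (nat_lit 162005708060144848733343489)) (C.cons (nat_lit 642) (C.node (nat_lit 1) (nat_lit 9) (nat_lit 11) (C.cons (nat_lit 2578) (C.miq (nat_lit 873794458) (nat_lit 65301640626263075263221505)) (C.cons (nat_lit 2562) (C.node (nat_lit 1) (nat_lit 4) (nat_lit 11) (C.cons (nat_lit 2130) (C.node (nat_lit 4) (nat_lit 9) (nat_lit 11) C.nil) C.nil)) C.nil))) C.nil))) (C.cons (nat_lit 1538) (C.miq (nat_lit 1503740082) (nat_lit 1859328906849403610119669789)) C.nil))) C.nil)) C.nil))) C.nil)) (C.cons (nat_lit 518) (C.node (nat_lit 2) (nat_lit 4) (nat_lit 6) (C.cons (nat_lit 596) (C.node (nat_lit 2) (nat_lit 8) (nat_lit 9) (C.cons (nat_lit 780) (C.miq (nat_lit 928153785) (nat_lit 1436218262273186381479284481)) (C.cons (nat_lit 772) (C.node (nat_lit 4) (nat_lit 9) (nat_lit 11) (C.cons (nat_lit 2578) (C.miq (nat_lit 1955963314) (nat_lit 678229299865384804281486342)) (C.cons (nat_lit 2576) (C.node (nat_lit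 1) (nat_lit 4) (nat_lit 11) (C.cons (nat_lit 2130) (C.node (nat_lit 1) (nat_lit 9) (nat_lit 11) C.nil) C.nil)) C.nil))) C.nil))) (C.cons (nat_lit 84) (C.node (nat_lit 2) (nat_lit 4) (nat_lit 9) (C.cons (nat_lit 1556) (C.miq (nat_lit 1380432288) (nat_lit 178962951482960382254059265)) (C.cons (nat_lit 788) (C.miq (nat_lit 1380366720) (nat_lit 101591699027620816483323649)) (C.cons (nat_lit 532) (C.node (nat_lit 2) (nat_lit 4) (nat_lit 8) (C.cons (nat_lit 1300) (C.node (nat_lit 4) (nat_lit 5) (nat_lit 10) (C.cons (nat_lit 1136) (C.miq (nat_lit 3091624613) (nat_lit 407449931345088200485897380)) (C.cons (nat_lit 1072) (C.node (nat_lit 7) (nat_lit 8) (nat_lit 10) (C.cons (nat_lit 1472) (C.miq (nat_lit 1747679808) (nat_lit 2944985226444852960706757779)) (C.cons (nat_lit 1408) (C.node (nat_lit 2) (nat_lit 8) (nat_lit 9) (C.cons (nat_lit 844) (C.miq (nat_lit 928153785) (nat_lit 1436219442864807098890587905)) (C.cons (nat_lit 836) (C.miq (nat_lit 1384544832)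 (nat_lit 1010703914981507387677017235)) (C.cons (nat_lit 780) (C.miq (nat_lit 928153785) (nat_lit 1436218262273186381479284481)) (C.cons (nat_lit 772) (C.node (nat_lit 2) (nat_lit 3) (nat_lit 10) (C.cons (nat_lit 1548) (C.node (nat_lit 2) (nat_lit 6) (nat_lit 9) C.nil) C.nil)) C.nil))))) C.nil))) C.nil))) (C.cons (nat_lit 276) (C.node (nat_lit 2) (nat_lit 4) (nat_lit 10) (C.cons (nat_lit 1044)
  (C.node (nat_lit 2) (nat_lit 8) (nat_lit 10) (C.cons (nat_lit 1284) (C.node (nat_lit 2) (nat_lit 3) (nat_lit 10) C.nil) C.nil)) C.nil)) C.nil))) C.nil)))) C.nil))) C.nil))) (C.cons (nat_lit 52) (C.miq (nat_lit 307538832) (nat_lit 62885744623662159056932609)) C.nil)))))) C.nil))) C.nil))))) C.nil)) (C.cons (nat_lit 2084) (C.node (nat_lit 2) (nat_lit 6) (nat_lit 11) (C.cons (nat_lit 2628) (C.node (nat_lit 4) (nat_lit 9) (nat_lit 11) (C.cons (nat_lit 2578) (C.miq (nat_lit 2516890273) (nat_lit 407455557656072988371651590)) (C.cons (nat_lit 2576) (C.node (nat_lit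 1) (nat_lit 2) (nat_lit 7) (C.cons (nat_lit 206) (C.miq (nat_lit 2451224176) (nat_lit 3721144527457532841768978657)) (C.cons (nat_lit 198) (C.miq (nat_lit 2451224176) (nat_lit 3721144527457532807409240289)) (C.cons (nat_lit 142) (C.miq (nat_lit 2316765987) (nat_lit 1415659385420310336898992157)) (C.cons (nat_lit 134) (C.node (nat_lit 2) (nat_lit 3) (nat_lit 7) (C.cons (nat_lit 204) (C.miq (nat_lit 2419505266) (nat_lit 88300063956440711936346500)) (C.cons (nat_lit 140) (C.node (nat_lit 2) (nat_lit 6) (nat_lit 7) (C.cons (nat_lit 196) (C.node (nat_lit 1) (nat_lit 9) (nat_lit 11) (C.cons (nat_lit 2594) (C.node (nat_lit 3) (nat_lit 9) (nat_lit 11) (C.cons (nat_lit 2568) (C.node (nat_lit 1) (nat_lit 9) (nat_lit 10) (C.cons (nat_lit 1602) (C.miq (nat_lit 431269408) (nat_lit 3114214512915529267928695877)) (C.cons (nat_lit 1538) (C.node (nat_lit 5) (nat_lit 9) (nat_lit 10) (C.cons (nat_lit 1632) (C.miq (nat_lit 1504945696) (nat_lit 3104541151012184670619894853))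 (C.cons (nat_lit 1568) (C.node (nat_lit 2) (nat_lit 3) (nat_lit 10) (C.cons (nat_lit 1548) (C.miq (nat_lit 1772466736) (nat_lit 1895637615344740975224883229)) (C.cons (nat_lit 1292) (C.miq (nat_lit 1461914506) (nat_lit 169269261168289669819666177)) (C.cons (nat_lit 1036) (C.node (nat_lit 2) (nat_lit 9) (nat_lit 10) (C.cons (nat_lit 1556) (C.miq (nat_lit 1648867744) (nat_lit 178962951491967581508800257)) (C.cons (nat_lit 1540) (C.node (nat_lit 2) (nat_lit 3) (nat_lit 9) (C.cons (nat_lit 812) (C.miq (nat_lit 1647819136) (nat_lit 169291544935047352604495617)) (C.cons (nat_lit 780) (C.miq (nat_lit 1647819136) (nat_lit 169291544935047215165542145)) (C.cons (nat_lit 556) (C.miq (nat_lit 324667687) (nat_lit 1287527599174104185846366853)) (C.cons (nat_lit 524) (C.node (nat_lit 1) (nat_lit 2) (nat_lit 9) (C.cons (nat_lit 534) (C.node (nat_lit 2) (nat_lit 4) (nat_lit 6) C.nil) C.nil)) C.nil))))) C.nil))) C.nil)))) C.nil))) C.nil))) C.nil)) (C.cons (nat_lit 2562)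 (C.node (nat_lit 3) (nat_lit 9) (nat_lit 11) (C.cons (nat_lit 2600) (C.node (nat_lit 3) (nat_lit 10) (nat_lit 11) (C.cons (nat_lit 3144) (C.miq (nat_lit 2449847971) (nat_lit 44778217600053857562987592)) (C.cons (nat_lit 3080) (C.node (nat_lit 6) (nat_lit 10) (nat_lit 11) C.nil) C.nil))) (C.cons (nat_lit 2568) (C.node (nat_lit 5) (nat_lit 9) (nat_lit 11) C.nil) C.nil))) C.nil))) C.nil)) C.nil))) C.nil))))) C.nil))) (C.cons (nat_lit 2116) (C.node (nat_lit 2) (nat_lit 9) (nat_lit 11) (C.cons (nat_lit 2564) (C.node (nat_lit 3) (nat_lit 10) (nat_lit 11) (C.cons (nat_lit 3144) (C.node (nat_lit 2) (nat_lit 3) (nat_lit 10) (C.cons (nat_lit 1548) (C.miq (nat_lit 2545098858) (nat_lit 2640322545779737342589273157)) (C.cons (nat_lit 1292) (C.miq (nat_lit 896704696) (nat_lit 1436227707195303305108786945)) (C.cons (nat_lit 1036) (C.node (nat_lit 2) (nat_lit 3) (nat_lit 7) (C.cons (nat_lit 206) (C.miq (nat_lit 2586970983) (nat_lit 1252459048351842256592701665)) (C.cons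 (nat_lit 204) (C.miq (nat_lit 2586970983) (nat_lit 1252459048351842256592570593)) (C.cons (nat_lit 142) (C.miq (nat_lit 2316765987) (nat_lit 1415659385420310336898992157)) (C.cons (nat_lit 140) (C.node (nat_lit 1) (nat_lit 2) (nat_lit 7) (C.cons (nat_lit 198) (C.node (nat_lit 1) (nat_lit 3) (nat_lit 7) (C.cons (nat_lit 170) (C.miq (nat_lit 975261799) (nat_lit 3721076809020096674978466017)) (C.cons (nat_lit 138) (C.node (nat_lit 6) (nat_lit 8) (nat_lit 11) (C.cons (nat_lit 2370)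
  (C.miq (nat_lit 2551319399) (nat_lit 317959389789730580239616225)) (C.cons (nat_lit 2368) (C.node (nat_lit 3) (nat_lit 9) (nat_lit 11) (C.cons (nat_lit 2600) (C.node (nat_lit 1) (nat_lit 3) (nat_lit 11) (C.cons (nat_lit 2314) (C.miq (nat_lit 824621066) (nat_lit 239425309498398545178595073)) C.nil)) C.nil)) C.nil))) C.nil))) (C.cons (nat_lit 134) (C.node (nat_lit 2) (nat_lit 6) (nat_lit 7) (C.cons (nat_lit 196) (C.node (nat_lit 2) (nat_lit 8) (nat_lit 10) (C.cons (nat_lit 1300) (C.node (nat_lit 2) (nat_lit 9) (nat_lit 10) C.nil) C.nil)) C.nil)) C.nil))) C.nil))))) C.nil)))) (C.cons (nat_lit 3080) (C.node (nat_lit 6) (nat_lit 10) (nat_lit 11) (C.cons (nat_lit 3136) (C.node (nat_lit 3) (nat_lit 9) (nat_lit 11) C.nil) C.nil)) C.nil))) C.nil)) C.nil))) C.nil))) C.nil)) (C.cons (nat_lit 3076) (C.node (nat_lit 5) (nat_lit 10) (nat_lit 11) (C.cons (nat_lit 3106) (C.node (nat_lit 2) (nat_lit 5) (nat_lit 11) (C.cons (nat_lit 2596) (C.miq (nat_lit 354921360)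 (nat_lit 1436225475713762200876551937)) (C.cons (nat_lit 2084) (C.node (nat_lit 3) (nat_lit 10) (nat_lit 11) (C.cons (nat_lit 3144) (C.node (nat_lit 1) (nat_lit 3) (nat_lit 11) (C.cons (nat_lit 2314) (C.miq (nat_lit 2545091201) (nat_lit 2640303637867062490324140295)) (C.cons (nat_lit 2058) (C.node (nat_lit 3) (nat_lit 8) (nat_lit 11) (C.cons (nat_lit 2344) (C.miq (nat_lit 461874480) (nat_lit 2944964898592818328561583145)) (C.cons (nat_lit 2312) (C.node (nat_lit 2) (nat_lit 3) (nat_lit 7) (C.cons (nat_lit 206) (C.miq (nat_lit 2335246946) (nat_lit 2487974189341757116093695045)) (C.cons (nat_lit 204) (C.miq (nat_lit 2604075618) (nat_lit 2640305889269436549155259461)) (C.cons (nat_lit 142) (C.miq (nat_lit 2608007201) (nat_lit 2640303638766656515749052679)) (C.cons (nat_lit 140) (C.node (nat_lit 1) (nat_lit 2) (nat_lit 7) (C.cons (nat_lit 198) (C.node (nat_lit 1) (nat_lit 2) (nat_lit 11) (C.cons (nat_lit 2566) (C.miq (nat_lit 309566336) (nat_lit 169259263115473887359995649))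 (C.cons (nat_lit 2054) (C.node (nat_lit 2) (nat_lit 6) (nat_lit 11) (C.cons (nat_lit 2628) (C.miq (nat_lit 448163986) (nat_lit 3800866429653344414637228677)) C.nil)) C.nil))) (C.cons (nat_lit 134) (C.node (nat_lit 2) (nat_lit 6) (nat_lit 7) (C.cons (nat_lit 196) (C.node (nat_lit 3) (nat_lit 5) (nat_lit 11) (C.cons (nat_lit 2600) (C.node (nat_lit 3) (nat_lit 5) (nat_lit 7) (C.cons (nat_lit 184) (C.miq (nat_lit 2507846464) (nat_lit 1436274728378002307737126941)) (C.cons (nat_lit 170) (C.miq (nat_lit 2838563671) (nat_lit 632289805876917924728015073)) (C.cons (nat_lit 168) (C.node (nat_lit 2) (nat_lit 9) (nat_lit 11) (C.cons (nat_lit 2628) (C.miq (nat_lit 2449847971) (nat_lit 44778217600053857562987592)) (C.cons (nat_lit 2566) (C.miq (nat_lit 309566336) (nat_lit 169259263115473887359995649)) (C.cons (nat_lit 2564) (C.node (nat_lit 4) (nat_lit 9) (nat_lit 11) (C.cons (nat_lit 2640) (C.miq (nat_lit 1678424403) (nat_lit 1415710132075194854473796136)) (C.cons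 (nat_lit 2578) (C.miq (nat_lit 2510402308) (nat_lit 3754971152161099753526069277)) C.nil))) C.nil)))) C.nil)))) (C.cons (nat_lit 2088) (C.node (nat_lit 3) (nat_lit 9) (nat_lit 11) C.nil) C.nil))) C.nil)) C.nil))) C.nil))))) C.nil))) C.nil))) (C.cons (nat_lit 3080) (C.node (nat_lit 6) (nat_lit 10) (nat_lit 11) (C.cons (nat_lit 3136) (C.node (nat_lit 4) (nat_lit 5) (nat_lit 11) (C.cons (nat_lit 2352) (C.node (nat_lit 2) (nat_lit 4) (nat_lit 8) (C.cons (nat_lit 1300) (C.miq (nat_lit 2458126261) (nat_lit 1571613914304005100849334497)) (C.cons (nat_lit 788) (C.miq (nat_lit 1461980041) (nat_lit 178931370566193553570270977)) (C.cons (nat_lit 276) (C.miq (nat_lit 2458126261) (nat_lit 333673875018624825950210273)) C.nil)))) (C.cons (nat_lit 2096) (C.node (nat_lit 5) (nat_lit 8) (nat_lit 11) (C.cons (nat_lit 2344) (C.miq (nat_lit 461874480) (nat_lit 2944964898592818328561583145)) (C.cons (nat_lit 2336) (C.node (nat_lit 3) (nat_lit 5) (nat_lit 11) C.nil) C.nil)))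 C.nil))) C.nil)) C.nil))) C.nil))) (C.cons (nat_lit 3104) (C.node (nat_lit 7) (nat_lit 8) (nat_lit 10)
  (C.cons (nat_lit 1472) (C.node (nat_lit 2) (nat_lit 8) (nat_lit 10) (C.cons (nat_lit 1300) (C.miq (nat_lit 1747679808) (nat_lit 2944985226444852960706757779)) (C.cons (nat_lit 1292) (C.miq (nat_lit 896704696) (nat_lit 1436227707195303305108786945)) (C.cons (nat_lit 1284) (C.node (nat_lit 2) (nat_lit 3) (nat_lit 7) (C.cons (nat_lit 206) (C.miq (nat_lit 3126986867) (nat_lit 1321394235807382490443547017)) (C.cons (nat_lit 204) (C.miq (nat_lit 3126986867) (nat_lit 1321394235807382490443415945)) (C.cons (nat_lit 142) (C.miq (nat_lit 2608007201) (nat_lit 2640303638766656515749052679)) (C.cons (nat_lit 140) (C.node (nat_lit 1) (nat_lit 2) (nat_lit 7) (C.cons (nat_lit 198) (C.node (nat_lit 1) (nat_lit 3) (nat_lit 7) (C.cons (nat_lit 170) (C.miq (nat_lit 1613834839) (nat_lit 632271856421434376558609572)) (C.cons (nat_lit 138) (C.node (nat_lit 1) (nat_lit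 2) (nat_lit 10) (C.cons (nat_lit 1542) (C.miq (nat_lit 2440798816) (nat_lit 2633111289498684725538128965)) (C.cons (nat_lit 1038) (C.miq (nat_lit 1394018854) (nat_lit 166873692855873676306154565)) (C.cons (nat_lit 1030) (C.node (nat_lit 2) (nat_lit 6) (nat_lit 11) (C.cons (nat_lit 2628) (C.miq (nat_lit 2451224176) (nat_lit 1245264448886772257610991841)) (C.cons (nat_lit 2116) (C.node (nat_lit 6) (nat_lit 8) (nat_lit 11) (C.cons (nat_lit 2378) (C.miq (nat_lit 2551319399) (nat_lit 317959389789730614599354593)) (C.cons (nat_lit 2376) (C.miq (nat_lit 1800045319) (nat_lit 3733190085246044857340985737)) (C.cons (nat_lit 2370) (C.miq (nat_lit 2551319399) (nat_lit 317959389789730580239616225)) (C.cons (nat_lit 2368) (C.node (nat_lit 2) (nat_lit 6) (nat_lit 8) (C.cons (nat_lit 876) (C.miq (nat_lit 829853864) (nat_lit 239383471778721588481888001)) (C.cons (nat_lit 868) (C.miq (nat_lit 1197804169) (nat_lit 2747898736937090985142521601)) (C.cons (nat_lit 844)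 (C.miq (nat_lit 829853864) (nat_lit 239382881482911229776236289)) (C.cons (nat_lit 836) (C.miq (nat_lit 445018258) (nat_lit 1779542459257684434411061893)) (C.cons (nat_lit 364) (C.miq (nat_lit 974278774) (nat_lit 1245200309117686759840680161)) (C.cons (nat_lit 356) (C.miq (nat_lit 1244137302) (nat_lit 1552266969267549000614283489)) (C.cons (nat_lit 332) (C.miq (nat_lit 1247938435) (nat_lit 1321394235055844302634353033)) (C.cons (nat_lit 324) (C.node (nat_lit 1) (nat_lit 2) (nat_lit 3) (C.cons (nat_lit 46) (C.node (nat_lit 1) (nat_lit 2) (nat_lit 11) (C.cons (nat_lit 2566) (C.miq (nat_lit 309566336) (nat_lit 169259263115473887359995649)) (C.cons (nat_lit 2054) (C.node (nat_lit 2) (nat_lit 5) (nat_lit 11) (C.cons (nat_lit 2596) (C.node (nat_lit 1) (nat_lit 2) (nat_lit 4) C.nil) C.nil)) C.nil))) (C.cons (nat_lit 14) (C.node (nat_lit 2) (nat_lit 3) (nat_lit 10) (C.cons (nat_lit 1548) (C.node (nat_lit 2) (nat_lit 4) (nat_lit 10) (C.cons (nat_lit 1044) (C.node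 (nat_lit 2) (nat_lit 3) (nat_lit 6) (C.cons (nat_lit 108) (C.miq (nat_lit 305821264) (nat_lit 1871438769956488785645078753)) C.nil)) C.nil)) (C.cons (nat_lit 1036) (C.node (nat_lit 2) (nat_lit 4) (nat_lit 10) (C.cons (nat_lit 1556) (C.node (nat_lit 2) (nat_lit 4) (nat_lit 6) (C.cons (nat_lit 116) (C.miq (nat_lit 3108309542) (nat_lit 678249315334238577343333445)) C.nil)) (C.cons (nat_lit 1044) (C.node (nat_lit 2) (nat_lit 9) (nat_lit 10) C.nil) C.nil))) C.nil))) C.nil))) C.nil))))))))) C.nil))))) C.nil))) C.nil)))) C.nil))) (C.cons (nat_lit 134) (C.node (nat_lit 2) (nat_lit 6) (nat_lit 7) (C.cons (nat_lit 196) (C.node (nat_lit 2) (nat_lit 4) (nat_lit 10) (C.cons (nat_lit 1556) (C.node (nat_lit 2) (nat_lit 9) (nat_lit 11) (C.cons (nat_lit 2630) (C.miq (nat_lit 309566336) (nat_lit 169259263133488285869477633)) (C.cons (nat_lit 2628) (C.miq (nat_lit 1648867744) (nat_lit 178962951491967581508800257)) (C.cons (nat_lit 2598) (C.miq (nat_lit 309566336) (nat_lit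 169259263124481086614736641)) (C.cons (nat_lit 2596) (C.miq (nat_lit 1380432288) (nat_lit 178962951482960382254059265)) (C.cons (nat_lit 2566) (C.miq (nat_lit 309566336) (nat_lit 169259263115473887359995649)) (C.cons (nat_lit 2564)
  (C.node (nat_lit 1) (nat_lit 2) (nat_lit 10) (C.cons (nat_lit 1038) (C.node (nat_lit 3) (nat_lit 8) (nat_lit 10) (C.cons (nat_lit 1304) (C.miq (nat_lit 1916996008) (nat_lit 2510946177091563806751461121)) (C.cons (nat_lit 1288) (C.node (nat_lit 3) (nat_lit 4) (nat_lit 10) (C.cons (nat_lit 1112) (C.miq (nat_lit 409608259) (nat_lit 1779557954267112022033827869)) (C.cons (nat_lit 1048) (C.node (nat_lit 4) (nat_lit 6) (nat_lit 10) (C.cons (nat_lit 1136) (C.miq (nat_lit 1967720098) (nat_lit 678219283593532010919101509)) (C.cons (nat_lit 1104) (C.node (nat_lit 5) (nat_lit 9) (nat_lit 10) (C.cons (nat_lit 1634) (C.miq (nat_lit 3046377122) (nat_lit 678245699331047701890729029)) (C.cons (nat_lit 1632) (C.miq (nat_lit 3046377122)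 (nat_lit 678245699331047693300794437)) (C.cons (nat_lit 1570) (C.miq (nat_lit 306815749) (nat_lit 1881117537000738666348348457)) (C.cons (nat_lit 1568) (C.node (nat_lit 3) (nat_lit 7) (nat_lit 10) (C.cons (nat_lit 1672) (C.node (nat_lit 1) (nat_lit 3) (nat_lit 7) (C.cons (nat_lit 202) (C.miq (nat_lit 277232039) (nat_lit 407411727599660831090935432)) (C.cons (nat_lit 170) (C.miq (nat_lit 1645677109) (nat_lit 162037989585296458953393193)) C.nil))) C.nil)) C.nil))))) C.nil))) C.nil))) C.nil))) (C.cons (nat_lit 1030) (C.node (nat_lit 2) (nat_lit 3) (nat_lit 10) (C.cons (nat_lit 1036) (C.node (nat_lit 2) (nat_lit 4) (nat_lit 8) (C.cons (nat_lit 308) (C.node (nat_lit 2) (nat_lit 3) (nat_lit 8) (C.cons (nat_lit 844) (C.miq (nat_lit 1110944128) (nat_lit 169271216321337087083745025)) (C.cons (nat_lit 780) (C.miq (nat_lit 1110944128) (nat_lit 169271216321336812205838081)) (C.cons (nat_lit 332) (C.miq (nat_lit 1247938435) (nat_lit 1321394235055844302634353033))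 C.nil)))) (C.cons (nat_lit 276) (C.node (nat_lit 2) (nat_lit 5) (nat_lit 11) C.nil) C.nil))) C.nil)) C.nil))) C.nil))))))) (C.cons (nat_lit 1044) (C.node (nat_lit 3) (nat_lit 7) (nat_lit 10) (C.cons (nat_lit 1672) (C.node (nat_lit 2) (nat_lit 9) (nat_lit 10) (C.cons (nat_lit 1542) (C.miq (nat_lit 2049456400) (nat_lit 1552268002426237612093538827)) (C.cons (nat_lit 1540) (C.node (nat_lit 4) (nat_lit 9) (nat_lit 10) (C.cons (nat_lit 1616) (C.miq (nat_lit 2466555782) (nat_lit 2510968737748635759504590272)) (C.cons (nat_lit 1552) (C.node (nat_lit 3) (nat_lit 6) (nat_lit 7) (C.cons (nat_lit 216) (C.miq (nat_lit 1689940744) (nat_lit 3733190084638058907820949897)) (C.cons (nat_lit 202) (C.miq (nat_lit 277232039) (nat_lit 407411727599660831090935432)) (C.cons (nat_lit 200) (C.node (nat_lit 1) (nat_lit 2) (nat_lit 10) (C.cons (nat_lit 1038) (C.node (nat_lit 2) (nat_lit 4) (nat_lit 8) C.nil) C.nil)) C.nil)))) C.nil))) C.nil))) (C.cons (nat_lit 1160) (C.node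 (nat_lit 7) (nat_lit 9) (nat_lit 10) (C.cons (nat_lit 1664) (C.node (nat_lit 1) (nat_lit 3) (nat_lit 7) (C.cons (nat_lit 138) (C.node (nat_lit 1) (nat_lit 6) (nat_lit 7) C.nil) C.nil)) C.nil)) C.nil))) C.nil))) C.nil)) C.nil))) C.nil))))) C.nil)))) (C.cons (nat_lit 1408) (C.ref (nat_lit 290) (nat_lit 205163983024656)) C.nil))) C.nil))) C.nil))) (C.cons (nat_lit 1164) (C.node (nat_lit 5) (nat_lit 7) (nat_lit 10) (C.cons (nat_lit 1696) (C.miq (nat_lit 1168312690) (nat_lit 1287544311934935912076280453)) (C.cons (nat_lit 1440) (C.miq (nat_lit 1395105976) (nat_lit 1407216217642674272115887873)) (C.cons (nat_lit 1184) (C.node (nat_lit 7) (nat_lit 8) (nat_lit 10) (C.cons (nat_lit 1472) (C.miq (nat_lit 1185024115) (nat_lit 1321394234821094172112191881)) (C.cons (nat_lit 1408) (C.node (nat_lit 2) (nat_lit 5) (nat_lit 7) (C.cons (nat_lit 166) (C.node (nat_lit 2) (nat_lit 6) (nat_lit 7) (C.cons (nat_lit 196) (C.node (nat_lit 1) (nat_lit 2) (nat_lit 3) (C.cons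 (nat_lit 78) (C.node (nat_lit 1) (nat_lit 3) (nat_lit 7) (C.cons (nat_lit 138) (C.node (nat_lit 1) (nat_lit 2) (nat_lit 4) (C.cons (nat_lit 534) (C.node (nat_lit 2) (nat_lit 4) (nat_lit 6) (C.cons (nat_lit 116) (C.miq (nat_lit 810948930) (nat_lit 2747889826977303685756092950)) (C.cons (nat_lit 84) (C.node (nat_lit 2) (nat_lit 5) (nat_lit 11) (C.cons (nat_lit 3108)
  (C.miq (nat_lit 1383312256) (nat_lit 1407209300688701550213271297)) (C.cons (nat_lit 2596) (C.miq (nat_lit 2837515095) (nat_lit 645587989892678828469651681)) (C.cons (nat_lit 2084) (C.node (nat_lit 5) (nat_lit 10) (nat_lit 11) (C.cons (nat_lit 3106) (C.miq (nat_lit 2703865200) (nat_lit 645637242492461088350996705)) (C.cons (nat_lit 3104) (C.node (nat_lit 1) (nat_lit 9) (nat_lit 10) (C.cons (nat_lit 1634) (C.miq (nat_lit 3105032802) (nat_lit 632306518627044556637340741)) (C.cons (nat_lit 1602) (C.miq (nat_lit 3105032802) (nat_lit 632306518627044419198387269)) (C.cons (nat_lit 1570) (C.miq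 (nat_lit 2703448384) (nat_lit 94315860154297583383937585)) (C.cons (nat_lit 1538) (C.node (nat_lit 2) (nat_lit 3) (nat_lit 9) (C.cons (nat_lit 812) (C.miq (nat_lit 1511600194) (nat_lit 1859342889623263402492561437)) (C.cons (nat_lit 780) (C.miq (nat_lit 2185705744) (nat_lit 178928271092938861133890059)) (C.cons (nat_lit 556) (C.miq (nat_lit 1511600194) (nat_lit 1859338167256780532847347741)) (C.cons (nat_lit 524) (C.node (nat_lit 2) (nat_lit 5) (nat_lit 6) (C.cons (nat_lit 868) (C.miq (nat_lit 1093142358) (nat_lit 317953707441008223816255713)) (C.cons (nat_lit 612) (C.miq (nat_lit 1645697344) (nat_lit 200723615677572964148249137)) (C.cons (nat_lit 356) (C.miq (nat_lit 1093142358) (nat_lit 317953707441008223782701281)) (C.cons (nat_lit 100) (C.node (nat_lit 4) (nat_lit 5) (nat_lit 11) (C.cons (nat_lit 2354) (C.miq (nat_lit 2224207111) (nat_lit 645611324605370040456644833)) (C.cons (nat_lit 2352) (C.miq (nat_lit 2224207111) (nat_lit 645611324604807090503223521))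 (C.cons (nat_lit 2098) (C.miq (nat_lit 2538676404) (nat_lit 200691536798924926478321693)) (C.cons (nat_lit 2096) (C.node (nat_lit 1) (nat_lit 2) (nat_lit 10) (C.cons (nat_lit 3078) (C.node (nat_lit 2) (nat_lit 3) (nat_lit 5) (C.cons (nat_lit 300) (C.node (nat_lit 2) (nat_lit 4) (nat_lit 5) (C.cons (nat_lit 1076) (C.miq (nat_lit 2275749954) (nat_lit 1431373704557567751042107421)) C.nil)) C.nil)) (C.cons (nat_lit 1030) (C.node (nat_lit 1) (nat_lit 2) (nat_lit 11) (C.cons (nat_lit 2054) (C.node (nat_lit 2) (nat_lit 10) (nat_lit 11) C.nil) C.nil)) C.nil))) C.nil))))) C.nil))))) C.nil))))) C.nil))))) C.nil))) C.nil)))) C.nil))) (C.cons (nat_lit 22) (C.node (nat_lit 2) (nat_lit 6) (nat_lit 11) (C.cons (nat_lit 2628) (C.node (nat_lit 1) (nat_lit 2) (nat_lit 9) (C.cons (nat_lit 1542) (C.miq (nat_lit 1645722016) (nat_lit 200723616245030846523969281)) (C.cons (nat_lit 518) (C.node (nat_lit 2) (nat_lit 5) (nat_lit 11) (C.cons (nat_lit 3108) (C.miq (nat_lit 1383312256)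 (nat_lit 1407209300688701550213271297)) (C.cons (nat_lit 2084) (C.node (nat_lit 2) (nat_lit 6) (nat_lit 8) (C.cons (nat_lit 356) (C.miq (nat_lit 1093142358) (nat_lit 317953707441008223782701281)) (C.cons (nat_lit 324) (C.node (nat_lit 3) (nat_lit 9) (nat_lit 11) (C.cons (nat_lit 2600) (C.miq (nat_lit 2476913926) (nat_lit 1407238132806693581719144673)) (C.cons (nat_lit 2568) (C.node (nat_lit 5) (nat_lit 10) (nat_lit 11) (C.cons (nat_lit 3106) (C.miq (nat_lit 2703865200) (nat_lit 626294429378627021555697889)) (C.cons (nat_lit 3104) (C.node (nat_lit 6) (nat_lit 7) (nat_lit 10) (C.cons (nat_lit 1728) (C.miq (nat_lit 1114049434) (nat_lit 236971062366412446042689281)) (C.cons (nat_lit 1216) (C.node (nat_lit 7) (nat_lit 9) (nat_lit 10) (C.cons (nat_lit 1664) (C.node (nat_lit 3) (nat_lit 5) (nat_lit 7) C.nil) C.nil)) C.nil))) C.nil))) C.nil))) C.nil))) C.nil))) C.nil))) (C.cons (nat_lit 2116) (C.node (nat_lit 6) (nat_lit 7) (nat_lit 10) (C.cons (nat_lit 1728)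 (C.node (nat_lit 1) (nat_lit 7) (nat_lit 9) (C.cons (nat_lit 898) (C.miq (nat_lit 1729276288) (nat_lit 200701848833693624195026689)) C.nil)) (C.cons (nat_lit 1216) (C.node (nat_lit 7) (nat_lit 9) (nat_lit 10) (C.cons (nat_lit 1664) (C.node (nat_lit 3) (nat_lit 5) (nat_lit 7) C.nil) C.nil)) C.nil))) C.nil))) C.nil))) C.nil)) (C.cons (nat_lit 14) (C.node (nat_lit 1) (nat_lit 3) (nat_lit 7) (C.cons (nat_lit 202) (C.node (nat_lit 1) (nat_lit 7) (nat_lit 8) (C.cons (nat_lit 898)
  (C.miq (nat_lit 655603856) (nat_lit 244241330135273088211422977)) (C.cons (nat_lit 386) (C.node (nat_lit 1) (nat_lit 7) (nat_lit 9) C.nil) C.nil))) (C.cons (nat_lit 138) (C.node (nat_lit 6) (nat_lit 7) (nat_lit 10) (C.cons (nat_lit 1728) (C.node (nat_lit 1) (nat_lit 7) (nat_lit 9) (C.cons (nat_lit 898) (C.miq (nat_lit 1729276288) (nat_lit 200701848833693624195026689)) C.nil)) (C.cons (nat_lit 1216) (C.node (nat_lit 7) (nat_lit 9) (nat_lit 10) (C.cons (nat_lit 1664) (C.node (nat_lit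 3) (nat_lit 5) (nat_lit 7) C.nil) C.nil)) C.nil))) C.nil))) C.nil))) C.nil)) (C.cons (nat_lit 164) (C.node (nat_lit 1) (nat_lit 2) (nat_lit 7) (C.cons (nat_lit 198) (C.node (nat_lit 1) (nat_lit 3) (nat_lit 7) (C.cons (nat_lit 170) (C.miq (nat_lit 329413894) (nat_lit 1407193306534610274101823713)) (C.cons (nat_lit 138) (C.node (nat_lit 1) (nat_lit 2) (nat_lit 3) (C.cons (nat_lit 46) (C.node (nat_lit 1) (nat_lit 2) (nat_lit 4) (C.cons (nat_lit 534) (C.node (nat_lit 2) (nat_lit 4) (nat_lit 6) (C.cons (nat_lit 116) (C.miq (nat_lit 2506244209) (nat_lit 140245245794549569574798483)) (C.cons (nat_lit 84) (C.node (nat_lit 2) (nat_lit 6) (nat_lit 11) (C.cons (nat_lit 2628) (C.miq (nat_lit 2837515111) (nat_lit 645587989892678965910702305)) (C.cons (nat_lit 2116) (C.node (nat_lit 2) (nat_lit 9) (nat_lit 10) (C.cons (nat_lit 1572) (C.miq (nat_lit 1653961024) (nat_lit 1900473317939210943386944659)) (C.cons (nat_lit 1540) (C.node (nat_lit 2) (nat_lit 9) (nat_lit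 11) (C.cons (nat_lit 2596) (C.miq (nat_lit 1653961024) (nat_lit 3138413357224591218286068883)) (C.cons (nat_lit 2564) (C.node (nat_lit 2) (nat_lit 5) (nat_lit 11) (C.cons (nat_lit 3108) (C.miq (nat_lit 1383312256) (nat_lit 1407209300688701550213271297)) (C.cons (nat_lit 2084) (C.node (nat_lit 1) (nat_lit 2) (nat_lit 10) (C.cons (nat_lit 1030) (C.node (nat_lit 1) (nat_lit 2) (nat_lit 11) C.nil) C.nil)) C.nil))) C.nil))) C.nil))) C.nil))) C.nil))) (C.cons (nat_lit 22) (C.node (nat_lit 1) (nat_lit 2) (nat_lit 9) (C.cons (nat_lit 2566) (C.miq (nat_lit 309566336) (nat_lit 1407199302400854162259119873)) (C.cons (nat_lit 1542) (C.miq (nat_lit 2440798816) (nat_lit 2633111289498684725538128965)) (C.cons (nat_lit 518) (C.node (nat_lit 2) (nat_lit 6) (nat_lit 11) (C.cons (nat_lit 2628) (C.miq (nat_lit 2837515111) (nat_lit 626245176778844899115403489)) (C.cons (nat_lit 2116) (C.node (nat_lit 1) (nat_lit 2) (nat_lit 10) (C.cons (nat_lit 3078) (C.node (nat_lit 5)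 (nat_lit 10) (nat_lit 11) (C.cons (nat_lit 3104) (C.node (nat_lit 2) (nat_lit 5) (nat_lit 11) (C.cons (nat_lit 2596) (C.miq (nat_lit 1092946617) (nat_lit 55620936655318710902591233)) (C.cons (nat_lit 2084) (C.node (nat_lit 2) (nat_lit 9) (nat_lit 11) (C.cons (nat_lit 2564) (C.node (nat_lit 3) (nat_lit 10) (nat_lit 11) C.nil) C.nil)) C.nil))) C.nil)) (C.cons (nat_lit 1030) (C.node (nat_lit 1) (nat_lit 2) (nat_lit 11) (C.cons (nat_lit 2054) (C.node (nat_lit 2) (nat_lit 10) (nat_lit 11) (C.cons (nat_lit 3108) (C.miq (nat_lit 1383312256) (nat_lit 1407209300688701550213271297)) (C.cons (nat_lit 3076) (C.node (nat_lit 2) (nat_lit 5) (nat_lit 11) (C.cons (nat_lit 2596) (C.node (nat_lit 2) (nat_lit 9) (nat_lit 10) C.nil) C.nil)) C.nil))) C.nil)) C.nil))) C.nil))) C.nil)))) C.nil))) (C.cons (nat_lit 14) (C.node (nat_lit 2) (nat_lit 6) (nat_lit 11) (C.cons (nat_lit 2628) (C.node (nat_lit 6) (nat_lit 10) (nat_lit 11) (C.cons (nat_lit 3146) (C.miq (nat_lit 462923296)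 (nat_lit 3249614205146965099443192901)) (C.cons (nat_lit 3144) (C.miq (nat_lit 448163986) (nat_lit 3800866429653344414637228677)) (C.cons (nat_lit 3138) (C.miq (nat_lit 462923296) (nat_lit 3249614205144713299629507653)) (C.cons (nat_lit 3136) (C.miq (nat_lit 448163986) (nat_lit 3791195023096427381239579269)) C.nil))))) (C.cons (nat_lit 2116) (C.node (nat_lit 6) (nat_lit 7) (nat_lit 8) (C.cons (nat_lit 960) (C.node (nat_lit 6) (nat_lit 7) (nat_lit 10) C.nil) (C.cons (nat_lit 448) (C.node (nat_lit 6) (nat_lit 7) (nat_lit 10) (C.cons (nat_lit 1216)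
  (C.node (nat_lit 7) (nat_lit 9) (nat_lit 10) C.nil) C.nil)) C.nil))) C.nil))) C.nil))) C.nil))) (C.cons (nat_lit 134) (C.node (nat_lit 2) (nat_lit 6) (nat_lit 7) (C.cons (nat_lit 196) (C.node (nat_lit 6) (nat_lit 7) (nat_lit 10) (C.cons (nat_lit 1728) (C.node (nat_lit 4) (nat_lit 6) (nat_lit 7) (C.cons (nat_lit 208) (C.node (nat_lit 3) (nat_lit 6) (nat_lit 7) C.nil) C.nil)) (C.cons (nat_lit 1216) (C.node (nat_lit 7) (nat_lit 9) (nat_lit 10) C.nil) C.nil))) C.nil)) C.nil))) C.nil))) C.nil))) C.nil)))) (C.cons (nat_lit 1156) (C.node (nat_lit 3) (nat_lit 9) (nat_lit 11) (C.cons (nat_lit 2632) (C.node (nat_lit 2) (nat_lit 6) (nat_lit 11) (C.cons (nat_lit 2118) (C.node (nat_lit 4) (nat_lit 6) (nat_lit 11) (C.cons (nat_lit 2128) (C.node (nat_lit 6) (nat_lit 8) (nat_lit 11) (C.cons (nat_lit 2368) (C.node (nat_lit 6) (nat_lit 10) (nat_lit 11) (C.cons (nat_lit 3136) (C.node (nat_lit 1) (nat_lit 6) (nat_lit 7) (C.cons (nat_lit 962) (C.miq (nat_lit 907196800)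 (nat_lit 2560543200572071957244612353)) (C.cons (nat_lit 706) (C.miq (nat_lit 1133579111) (nat_lit 632289805380396203284498657)) (C.cons (nat_lit 450) (C.miq (nat_lit 840436583) (nat_lit 317954740713701064199768289)) (C.cons (nat_lit 202) (C.miq (nat_lit 2838563687) (nat_lit 632289805876918062169065697)) (C.cons (nat_lit 194) (C.node (nat_lit 2) (nat_lit 6) (nat_lit 7) (C.cons (nat_lit 204) (C.node (nat_lit 2) (nat_lit 10) (nat_lit 11) (C.cons (nat_lit 3108) (C.miq (nat_lit 1383312256) (nat_lit 246640513858657542495342337)) (C.cons (nat_lit 3076) (C.node (nat_lit 6) (nat_lit 7) (nat_lit 8) (C.cons (nat_lit 1472) (C.miq (nat_lit 2787870512) (nat_lit 2560575740302103752442970505)) (C.cons (nat_lit 960) (C.miq (nat_lit 2252052256) (nat_lit 3181963611439907960166089349)) (C.cons (nat_lit 448) (C.node (nat_lit 6) (nat_lit 7) (nat_lit 10) (C.cons (nat_lit 1728) (C.miq (nat_lit 1130826650) (nat_lit 246642468923329496620207873)) (C.cons (nat_lit 1216) (C.node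 (nat_lit 7) (nat_lit 8) (nat_lit 10) (C.cons (nat_lit 1440) (C.miq (nat_lit 1395105976) (nat_lit 246647430812630264397958913)) (C.cons (nat_lit 1408) (C.node (nat_lit 1) (nat_lit 2) (nat_lit 7) C.nil) C.nil))) C.nil))) C.nil)))) C.nil))) (C.cons (nat_lit 196) (C.node (nat_lit 2) (nat_lit 9) (nat_lit 11) (C.cons (nat_lit 2596) (C.node (nat_lit 2) (nat_lit 10) (nat_lit 11) (C.cons (nat_lit 3076) (C.node (nat_lit 1) (nat_lit 2) (nat_lit 4) (C.cons (nat_lit 534) (C.miq (nat_lit 2065761684) (nat_lit 2560526487720898677746041393)) (C.cons (nat_lit 54) (C.miq (nat_lit 2871069012) (nat_lit 2560526488162251441196892721)) (C.cons (nat_lit 22) (C.node (nat_lit 3) (nat_lit 8) (nat_lit 11) (C.cons (nat_lit 2344) (C.miq (nat_lit 1393145970) (nat_lit 632316092065845441741523332)) (C.cons (nat_lit 2314) (C.miq (nat_lit 2461075331) (nat_lit 2560514533772496964793532809)) (C.cons (nat_lit 2312) (C.node (nat_lit 4) (nat_lit 5) (nat_lit 11) (C.cons (nat_lit 2352) (C.miq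 (nat_lit 2215097746) (nat_lit 1415697071699325874791057956)) (C.cons (nat_lit 2098) (C.miq (nat_lit 722965824) (nat_lit 2633052334001307935629836849)) C.nil))) C.nil)))) C.nil)))) C.nil)) (C.cons (nat_lit 2564) (C.node (nat_lit 2) (nat_lit 5) (nat_lit 11) (C.cons (nat_lit 3108) (C.node (nat_lit 2) (nat_lit 8) (nat_lit 10) (C.cons (nat_lit 1300) (C.miq (nat_lit 942278581) (nat_lit 1571623211392086556381808865)) (C.cons (nat_lit 1292) (C.node (nat_lit 2) (nat_lit 3) (nat_lit 6) (C.cons (nat_lit 108) (C.miq (nat_lit 1965231016) (nat_lit 130571238728606889628405505)) (C.cons (nat_lit 76) (C.node (nat_lit 2) (nat_lit 3) (nat_lit 9) (C.cons (nat_lit 556) (C.miq (nat_lit 1965231016) (nat_lit 672170005915960759896772353)) (C.cons (nat_lit 524) (C.node (nat_lit 4) (nat_lit 8) (nat_lit 10) (C.cons (nat_lit 1328) (C.miq (nat_lit 2024124976) (nat_lit 1605495418583185678255327261)) (C.cons (nat_lit 1296) (C.node (nat_lit 5) (nat_lit 7) (nat_lit 10) (C.cons (nat_lit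 1696) (C.miq (nat_lit 2320966411) (nat_lit 2050383126698644880968714269)) (C.cons (nat_lit 1440)
  (C.node (nat_lit 1) (nat_lit 7) (nat_lit 8) (C.cons (nat_lit 898) (C.miq (nat_lit 997786241) (nat_lit 3249602251355907760932913415)) (C.cons (nat_lit 386) (C.node (nat_lit 4) (nat_lit 5) (nat_lit 7) (C.cons (nat_lit 184) (C.miq (nat_lit 628341376) (nat_lit 222480665571363275280027393)) (C.cons (nat_lit 176) (C.node (nat_lit 1) (nat_lit 7) (nat_lit 9) C.nil) C.nil))) C.nil))) (C.cons (nat_lit 1184) (C.miq (nat_lit 2320966411) (nat_lit 1431413107055954743519152157)) C.nil)))) C.nil))) C.nil))) C.nil))) (C.cons (nat_lit 1284) (C.miq (nat_lit 942278581) (nat_lit 1552280398278252489586510049)) C.nil)))) (C.cons (nat_lit 2084) (C.node (nat_lit 2) (nat_lit 10) (nat_lit 11) C.nil) C.nil))) C.nil))) C.nil))) C.nil)))))) C.nil)) C.nil)) C.nil)) (C.cons (nat_lit 2116) (C.node (nat_lit 3) (nat_lit 10) (nat_lit 11) (C.cons (nat_lit 3082) (C.node (nat_lit 6) (nat_lit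 10) (nat_lit 11) (C.cons (nat_lit 3136) (C.node (nat_lit 4) (nat_lit 9) (nat_lit 11) (C.cons (nat_lit 2578) (C.miq (nat_lit 1404635668) (nat_lit 3181903106148913426340119699)) (C.cons (nat_lit 2576) (C.node (nat_lit 2) (nat_lit 10) (nat_lit 11) (C.cons (nat_lit 3108) (C.node (nat_lit 1) (nat_lit 2) (nat_lit 11) (C.cons (nat_lit 2566) (C.miq (nat_lit 2199613586) (nat_lit 3725954312431472585195520645)) (C.cons (nat_lit 2054) (C.node (nat_lit 2) (nat_lit 9) (nat_lit 11) (C.cons (nat_lit 2564) (C.node (nat_lit 3) (nat_lit 5) (nat_lit 11) (C.cons (nat_lit 2344) (C.miq (nat_lit 1923124051) (nat_lit 1321363171094897047902947624)) C.nil)) C.nil)) C.nil))) (C.cons (nat_lit 3076) (C.node (nat_lit 5) (nat_lit 10) (nat_lit 11) (C.cons (nat_lit 3104) (C.node (nat_lit 3) (nat_lit 5) (nat_lit 11) (C.cons (nat_lit 2344) (C.node (nat_lit 4) (nat_lit 8) (nat_lit 11) (C.cons (nat_lit 2322) (C.miq (nat_lit 2231677857) (nat_lit 678250218803328040215710730)) C.nil)) C.nil))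 C.nil)) C.nil))) C.nil))) C.nil)) (C.cons (nat_lit 3080) (C.node (nat_lit 4) (nat_lit 6) (nat_lit 11) (C.cons (nat_lit 2130) (C.node (nat_lit 4) (nat_lit 9) (nat_lit 11) (C.cons (nat_lit 2576) (C.node (nat_lit 6) (nat_lit 8) (nat_lit 11) (C.cons (nat_lit 2368) (C.node (nat_lit 6) (nat_lit 10) (nat_lit 11) (C.cons (nat_lit 3136) (C.node (nat_lit 4) (nat_lit 5) (nat_lit 11) (C.cons (nat_lit 2352) (C.node (nat_lit 1) (nat_lit 8) (nat_lit 11) (C.cons (nat_lit 2314) (C.miq (nat_lit 2067343376) (nat_lit 3181904656061314512343204103)) C.nil)) C.nil)) C.nil)) C.nil)) C.nil)) (C.cons (nat_lit 2128) (C.node (nat_lit 4) (nat_lit 9) (nat_lit 11) (C.cons (nat_lit 2578) (C.node (nat_lit 2) (nat_lit 9) (nat_lit 11) (C.cons (nat_lit 2596) (C.node (nat_lit 1) (nat_lit 2) (nat_lit 11) (C.cons (nat_lit 3078) (C.miq (nat_lit 621459777) (nat_lit 1287562777698550398156212754)) (C.cons (nat_lit 2054) (C.node (nat_lit 2) (nat_lit 10) (nat_lit 11) (C.cons (nat_lit 3076) (C.node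 (nat_lit 4) (nat_lit 5) (nat_lit 11) (C.cons (nat_lit 2352) (C.miq (nat_lit 2215097746) (nat_lit 1415697071699325874791057956)) C.nil)) C.nil)) C.nil))) (C.cons (nat_lit 2564) (C.node (nat_lit 5) (nat_lit 9) (nat_lit 11) (C.cons (nat_lit 2592) (C.node (nat_lit 4) (nat_lit 5) (nat_lit 11) (C.cons (nat_lit 2352) (C.node (nat_lit 3) (nat_lit 8) (nat_lit 11) (C.cons (nat_lit 2314) (C.miq (nat_lit 723089456) (nat_lit 3116622661802124536909070729)) C.nil)) C.nil)) C.nil)) C.nil))) (C.cons (nat_lit 2576) (C.node (nat_lit 6) (nat_lit 8) (nat_lit 11) (C.cons (nat_lit 2370) (C.node (nat_lit 6) (nat_lit 10) (nat_lit 11) (C.cons (nat_lit 3136) (C.node (nat_lit 1) (nat_lit 3) (nat_lit 11) (C.cons (nat_lit 2090) (C.node (nat_lit 1) (nat_lit 4) (nat_lit 11) C.nil) C.nil)) C.nil)) (C.cons (nat_lit 2368) (C.node (nat_lit 1) (nat_lit 6) (nat_lit 11) (C.cons (nat_lit 3138) (C.node (nat_lit 2) (nat_lit 10) (nat_lit 11) (C.cons (nat_lit 3108) (C.node (nat_lit 1) (nat_lit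 2) (nat_lit 11) (C.cons (nat_lit 2566) (C.miq (nat_lit 2073264656) (nat_lit 3181900007481809019867955463)) C.nil)) C.nil)) (C.cons (nat_lit 2114)
  (C.node (nat_lit 6) (nat_lit 10) (nat_lit 11) C.nil) C.nil))) C.nil))) C.nil))) C.nil))) C.nil))) C.nil))) (C.cons (nat_lit 2600) (C.node (nat_lit 5) (nat_lit 7) (nat_lit 9) (C.cons (nat_lit 1696) (C.miq (nat_lit 1201343059) (nat_lit 3249630917341178798512014377)) (C.cons (nat_lit 930) (C.miq (nat_lit 1411879096) (nat_lit 178938176932870050480918273)) (C.cons (nat_lit 928) (C.miq (nat_lit 1411879096) (nat_lit 178938140039381903061815041)) (C.cons (nat_lit 674) (C.miq (nat_lit 1133579095) (nat_lit 632289805380396065843448033)) (C.cons (nat_lit 672) (C.node (nat_lit 5) (nat_lit 7) (nat_lit 10) (C.cons (nat_lit 1440) (C.node (nat_lit 4) (nat_lit 5) (nat_lit 7) (C.cons (nat_lit 184) (C.miq (nat_lit 659798176) (nat_lit 222480665382212090974506753)) (C.cons (nat_lit 176) (C.node (nat_lit 2) (nat_lit 8) (nat_lit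 10) (C.cons (nat_lit 1300) (C.miq (nat_lit 847907701) (nat_lit 1571623211866090417053239521)) (C.cons (nat_lit 1292) (C.node (nat_lit 4) (nat_lit 8) (nat_lit 10) (C.cons (nat_lit 1296) (C.node (nat_lit 2) (nat_lit 5) (nat_lit 7) (C.cons (nat_lit 174) (C.miq (nat_lit 2838563671) (nat_lit 632289805876917924728277217)) (C.cons (nat_lit 172) (C.node (nat_lit 1) (nat_lit 5) (nat_lit 7) (C.cons (nat_lit 162) (C.node (nat_lit 2) (nat_lit 9) (nat_lit 11) (C.cons (nat_lit 2630) (C.miq (nat_lit 309566336) (nat_lit 207944889361156419460075265)) (C.cons (nat_lit 2628) (C.miq (nat_lit 2476913926) (nat_lit 1561980637717366116081535201)) (C.cons (nat_lit 2566) (C.miq (nat_lit 309566336) (nat_lit 207944889343142020950593281)) (C.cons (nat_lit 2564) (C.node (nat_lit 5) (nat_lit 9) (nat_lit 10) (C.cons (nat_lit 1634) (C.miq (nat_lit 359897728) (nat_lit 207944889080803064868835073)) (C.cons (nat_lit 1632) (C.miq (nat_lit 1647681721) (nat_lit 207965346367705582399917825))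 (C.cons (nat_lit 1574) (C.miq (nat_lit 359897728) (nat_lit 207944889063914566266195713)) (C.cons (nat_lit 1572) (C.miq (nat_lit 2320697639) (nat_lit 1287513248541153176161354373)) (C.cons (nat_lit 1570) (C.miq (nat_lit 359897728) (nat_lit 207944889062788666359353089)) (C.cons (nat_lit 1568) (C.node (nat_lit 1) (nat_lit 2) (nat_lit 3) (C.cons (nat_lit 78) (C.node (nat_lit 1) (nat_lit 2) (nat_lit 7) (C.cons (nat_lit 134) (C.node (nat_lit 1) (nat_lit 3) (nat_lit 7) (C.cons (nat_lit 138) (C.node (nat_lit 2) (nat_lit 6) (nat_lit 7) C.nil) C.nil)) C.nil)) (C.cons (nat_lit 14) (C.node (nat_lit 1) (nat_lit 2) (nat_lit 7) (C.cons (nat_lit 198) (C.node (nat_lit 1) (nat_lit 3) (nat_lit 7) C.nil) (C.cons (nat_lit 134) (C.node (nat_lit 2) (nat_lit 6) (nat_lit 7) (C.cons (nat_lit 196) (C.node (nat_lit 1) (nat_lit 3) (nat_lit 7) C.nil) C.nil)) C.nil))) C.nil))) C.nil))))))) C.nil))))) C.nil)) (C.cons (nat_lit 166) (C.miq (nat_lit 846531466) (nat_lit 200701332423100932936437505))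 (C.cons (nat_lit 164) (C.miq (nat_lit 846531466) (nat_lit 198283480783871674587025153)) C.nil))))) C.nil)) (C.cons (nat_lit 1284) (C.miq (nat_lit 847907701) (nat_lit 1552280398752256350257940705)) C.nil)))) C.nil))) (C.cons (nat_lit 1184) (C.node (nat_lit 3) (nat_lit 5) (nat_lit 7) (C.cons (nat_lit 184) (C.miq (nat_lit 2507846464) (nat_lit 1431439025099543791038302237)) (C.cons (nat_lit 174) (C.miq (nat_lit 2838563671) (nat_lit 632289805876917924728277217)) (C.cons (nat_lit 172) (C.miq (nat_lit 2270868016) (nat_lit 1431439025053381843311200285)) (C.cons (nat_lit 170) (C.miq (nat_lit 2838563671) (nat_lit 632289805876917924728015073)) (C.cons (nat_lit 168) (C.node (nat_lit 2) (nat_lit 5) (nat_lit 7) (C.cons (nat_lit 166) (C.node (nat_lit 2) (nat_lit 5) (nat_lit 11) (C.cons (nat_lit 3108) (C.miq (nat_lit 891751096) (nat_lit 200688935926233609969864449)) (C.cons (nat_lit 2084) (C.node (nat_lit 5) (nat_lit 10) (nat_lit 11) (C.cons (nat_lit 3106) (C.miq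 (nat_lit 2605845015) (nat_lit 2519413307307973468473394323)) (C.cons (nat_lit 3104) (C.node (nat_lit 5) (nat_lit 8) (nat_lit 11) (C.cons (nat_lit 2354) (C.miq (nat_lit 2551319383) (nat_lit 317959389789730511518042337)) (C.cons (nat_lit 2352)
  (C.miq (nat_lit 2274734596) (nat_lit 812441538208767983825782813)) (C.cons (nat_lit 2338) (C.miq (nat_lit 2551319383) (nat_lit 317959389789730442798565601)) (C.cons (nat_lit 2336) (C.node (nat_lit 1) (nat_lit 3) (nat_lit 7) (C.cons (nat_lit 202) (C.node (nat_lit 2) (nat_lit 3) (nat_lit 7) (C.cons (nat_lit 140) (C.node (nat_lit 2) (nat_lit 6) (nat_lit 7) (C.cons (nat_lit 196) (C.node (nat_lit 1) (nat_lit 7) (nat_lit 8) C.nil) C.nil)) C.nil)) (C.cons (nat_lit 138) (C.node (nat_lit 1) (nat_lit 5) (nat_lit 11) (C.cons (nat_lit 2098) (C.node (nat_lit 4) (nat_lit 8) (nat_lit 11) (C.cons (nat_lit 2320) (C.node (nat_lit 2) (nat_lit 3) (nat_lit 7) C.nil) C.nil)) (C.cons (nat_lit 2082) (C.node (nat_lit 4) (nat_lit 5) (nat_lit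 11) (C.cons (nat_lit 2096) (C.node (nat_lit 2) (nat_lit 3) (nat_lit 7) C.nil) C.nil)) C.nil))) C.nil))) C.nil))))) C.nil))) C.nil))) (C.cons (nat_lit 164) (C.node (nat_lit 1) (nat_lit 5) (nat_lit 7) (C.cons (nat_lit 418) (C.node (nat_lit 4) (nat_lit 5) (nat_lit 7) (C.cons (nat_lit 176) (C.node (nat_lit 1) (nat_lit 7) (nat_lit 9) (C.cons (nat_lit 706) (C.node (nat_lit 1) (nat_lit 2) (nat_lit 7) C.nil) C.nil)) C.nil)) (C.cons (nat_lit 162) (C.node (nat_lit 4) (nat_lit 5) (nat_lit 7) (C.cons (nat_lit 432) (C.node (nat_lit 7) (nat_lit 8) (nat_lit 10) (C.cons (nat_lit 1472) (C.node (nat_lit 1) (nat_lit 7) (nat_lit 8) C.nil) C.nil)) (C.cons (nat_lit 176) (C.node (nat_lit 5) (nat_lit 7) (nat_lit 8) (C.cons (nat_lit 416) (C.node (nat_lit 4) (nat_lit 7) (nat_lit 8) C.nil) C.nil)) C.nil))) C.nil))) C.nil))) C.nil)))))) C.nil))) C.nil)))))) (C.cons (nat_lit 2568) (C.ref (nat_lit 291) (nat_lit 205163983024656)) C.nil)))) C.nil)))) List.nil)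

theorem ok12_292 : okL par12 (nat_lit 293) c12_292 (nat_lit 292) = true := by decide +kernel


end Pool.Agent.MP_1f1ca1_co
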