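import Pool.Agent.MP_1f1ca1_co.Cert.P12

set_option autoImplicit false
set_option maxRecDepth 1000000
set_option maxHeartbeats 0

namespace Pool.Agent.MP_1f1ca1_co

noncomputable def c12_293 : List C :=
  (List.cons (C.node (nat_lit 2) (nat_lit 4) (nat_lit 7) (C.cons (nat_lit 212) (C.node (nat_lit 7) (nat_lit 8) (nat_lit 9) (C.cons (nat_lit 962) (C.miq (nat_lit 3093563762) (nat_lit 407446316178720643932750469)) (C.cons (nat_lit 960) (C.miq (nat_lit 3093563762) (nat_lit 407446316178720635342815877)) (C.cons (nat_lit 930) (C.miq (nat_lit 1411879096) (nat_lit 256309429388206317662113537)) (C.cons (nat_lit 928) (C.miq (nat_lit 1411879096) (nat_lit 256309392494718170243010305)) (C.cons (nat_lit 912) (C.miq (nat_lit 2823162226) (nat_lit 407428164582551898985595525)) (C.cons (nat_lit 898) (C.miq (nat_lit 997786241) (nat_lit 3249602251355907760932913415)) (C.cons (nat_lit 896) (C.node (nat_lit 4) (nat_lit 7) (nat_lit 8) (C.cons (nat_lit 432) (C.node (nat_lit 7) (nat_lit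 8) (nat_lit 10) (C.cons (nat_lit 1472) (C.miq (nat_lit 1656255498) (nat_lit 2944970450248194786005681299)) (C.cons (nat_lit 1408) (C.node (nat_lit 2) (nat_lit 4) (nat_lit 8) (C.cons (nat_lit 1300) (C.miq (nat_lit 1803710628) (nat_lit 2944947207930789415127090323)) (C.cons (nat_lit 788) (C.miq (nat_lit 1461980041) (nat_lit 256302623021529820751466241)) (C.cons (nat_lit 276) (C.node (nat_lit 1) (nat_lit 7) (nat_lit 8) (C.cons (nat_lit 450) (C.node (nat_lit 1) (nat_lit 7) (nat_lit 9) (C.cons (nat_lit 674) (C.miq (nat_lit 1636861780) (nat_lit 632274420337870532854743472)) (C.cons (nat_lit 642) (C.node (nat_lit 2) (nat_lit 6) (nat_lit 11) (C.cons (nat_lit 2630) (C.miq (nat_lit 840436583) (nat_lit 317954740713703263223023841)) (C.cons (nat_lit 2628) (C.miq (nat_lit 1688938249) (nat_lit 3733211409073078324915405445)) (C.cons (nat_lit 2118) (C.miq (nat_lit 840436583) (nat_lit 317954740713701064199768289)) (C.cons (nat_lit 2116) (C.node (nat_lit 2) (nat_lit 6) (nat_lit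 8) (C.cons (nat_lit 876) (C.miq (nat_lit 2753759077) (nat_lit 2510958573451631404855855329)) (C.cons (nat_lit 868) (C.miq (nat_lit 2759984982) (nat_lit 333683688834519269969758433)) (C.cons (nat_lit 844) (C.miq (nat_lit 2440441922) (nat_lit 544032188025797781719615517)) (C.cons (nat_lit 836) (C.miq (nat_lit 2825128231) (nat_lit 407429603428589321913107077)) (C.cons (nat_lit 364) (C.miq (nat_lit 2753759077) (nat_lit 2510958573451631404822300897)) (C.cons (nat_lit 356) (C.miq (nat_lit 2759984982) (nat_lit 333683688834519269936204001)) (C.cons (nat_lit 332) (C.miq (nat_lit 371488816) (nat_lit 256313875022276864507707785)) (C.cons (nat_lit 324) (C.node (nat_lit 3) (nat_lit 4) (nat_lit 7) (C.cons (nat_lit 664) (C.node (nat_lit 4) (nat_lit 8) (nat_lit 9) (C.cons (nat_lit 786) (C.miq (nat_lit 1461257860) (nat_lit 776140725455811836069937489)) (C.cons (nat_lit 784) (C.node (nat_lit 6) (nat_lit 7) (nat_lit 9) (C.cons (nat_lit 1728) (C.miq (nat_lit 2519443264) (nat_lit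 2558157888734932122491225235)) (C.cons (nat_lit 704) (C.node (nat_lit 2) (nat_lit 4) (nat_lit 9) (C.cons (nat_lit 1556) (C.miq (nat_lit 2456527984) (nat_lit 2558157888686518426509837459)) (C.cons (nat_lit 534) (C.miq (nat_lit 2274427714) (nat_lit 776135227796905833514010653)) (C.cons (nat_lit 532) (C.node (nat_lit 1) (nat_lit 2) (nat_lit 4) (C.cons (nat_lit 54) (C.node (nat_lit 2) (nat_lit 4) (nat_lit 10) (C.cons (nat_lit 1044) (C.node (nat_lit 4) (nat_lit 5) (nat_lit 11) (C.cons (nat_lit 2096) (C.node (nat_lit 1) (nat_lit 2) (nat_lit 7) (C.cons (nat_lit 142) (C.miq (nat_lit 2266608176) (nat_lit 776201230822252701735913501)) (C.cons (nat_lit 134) (C.node (nat_lit 2) (nat_lit 5) (nat_lit 7) (C.cons (nat_lit 1188) (C.miq (nat_lit 1482847242) (nat_lit 391713880408698056966734995)) (C.cons (nat_lit 172) (C.miq (nat_lit 2826242851) (nat_lit 522275600937114152242776093)) C.nil))) C.nil))) C.nil)) C.nil)) (C.cons (nat_lit 22) (C.node (nat_lit 1) (nat_lit 8) (nat_lit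 9) (C.cons (nat_lit 802) (C.node (nat_lit 2) (nat_lit 8) (nat_lit 9) (C.cons (nat_lit 780) (C.miq (nat_lit 2038514464) (nat_lit 969580108655145646626899997)) (C.cons (nat_lit 772) (C.node (nat_lit 1) (nat_lit 3) (nat_lit 4) (C.cons (nat_lit 282)
  (C.miq (nat_lit 942227719) (nat_lit 933302981459935739066516627)) (C.cons (nat_lit 122) (C.miq (nat_lit 377041952) (nat_lit 851093424690190346822682653)) (C.cons (nat_lit 90) (C.miq (nat_lit 377041952) (nat_lit 851093424681183147567941661)) (C.cons (nat_lit 58) (C.miq (nat_lit 3092515091) (nat_lit 522294269042109728324977163)) (C.cons (nat_lit 26) (C.node (nat_lit 6) (nat_lit 8) (nat_lit 11) (C.cons (nat_lit 2376) (C.miq (nat_lit 2168678155) (nat_lit 31475900900568261499619553)) (C.cons (nat_lit 2368) (C.node (nat_lit 1) (nat_lit 4) (nat_lit 8) (C.cons (nat_lit 2322) (C.node (nat_lit 4) (nat_lit 5) (nat_lit 11) (C.cons (nat_lit 2096) (C.node (nat_lit 1) (nat_lit 3) (nat_lit 8) (C.cons (nat_lit 266) (C.node (nat_lit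 1) (nat_lit 8) (nat_lit 10) C.nil) C.nil)) C.nil)) (C.cons (nat_lit 274) (C.node (nat_lit 4) (nat_lit 8) (nat_lit 11) C.nil) C.nil))) C.nil))) C.nil)))))) C.nil))) (C.cons (nat_lit 770) (C.node (nat_lit 2) (nat_lit 4) (nat_lit 5) (C.cons (nat_lit 1076) (C.node (nat_lit 2) (nat_lit 8) (nat_lit 10) (C.cons (nat_lit 1292) (C.miq (nat_lit 1468664611) (nat_lit 1702187200439639463347095581)) (C.cons (nat_lit 1284) (C.node (nat_lit 2) (nat_lit 3) (nat_lit 8) (C.cons (nat_lit 812) (C.miq (nat_lit 2038514464) (nat_lit 930894482427477650475255837)) (C.cons (nat_lit 780) (C.miq (nat_lit 2038514464) (nat_lit 930894482427477513036302365)) (C.cons (nat_lit 300) (C.miq (nat_lit 2777104944) (nat_lit 522277555513698480814622749)) (C.cons (nat_lit 268) (C.node (nat_lit 2) (nat_lit 5) (nat_lit 8) (C.cons (nat_lit 804) (C.node (nat_lit 2) (nat_lit 7) (nat_lit 10) (C.cons (nat_lit 1164) (C.node (nat_lit 3) (nat_lit 6) (nat_lit 7) C.nil) C.nil)) (C.cons (nat_lit 292) (C.node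 (nat_lit 2) (nat_lit 8) (nat_lit 9) C.nil) C.nil))) C.nil))))) C.nil))) (C.cons (nat_lit 52) (C.node (nat_lit 2) (nat_lit 4) (nat_lit 10) (C.cons (nat_lit 1044) (C.node (nat_lit 3) (nat_lit 6) (nat_lit 7) (C.cons (nat_lit 1224) (C.node (nat_lit 2) (nat_lit 7) (nat_lit 10) (C.cons (nat_lit 1188) (C.miq (nat_lit 1482847242) (nat_lit 391713880408698056966734995)) (C.cons (nat_lit 1156) (C.node (nat_lit 2) (nat_lit 3) (nat_lit 7) (C.cons (nat_lit 174) (C.miq (nat_lit 2266608176) (nat_lit 776201230822252839174866973)) (C.cons (nat_lit 172) (C.miq (nat_lit 2826242851) (nat_lit 522275600937114152242776093)) (C.cons (nat_lit 142) (C.miq (nat_lit 2266608176) (nat_lit 776201230822252701735913501)) C.nil)))) C.nil))) (C.cons (nat_lit 200) (C.node (nat_lit 6) (nat_lit 7) (nat_lit 10) C.nil) C.nil))) C.nil)) C.nil))) C.nil))) C.nil))) C.nil)))) C.nil))) C.nil))) (C.cons (nat_lit 152) (C.node (nat_lit 4) (nat_lit 7) (nat_lit 9) (C.cons (nat_lit 656) (C.node (nat_lit 2)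 (nat_lit 7) (nat_lit 10) (C.cons (nat_lit 1188) (C.miq (nat_lit 1482847242) (nat_lit 391713880408698056966734995)) (C.cons (nat_lit 1164) (C.node (nat_lit 5) (nat_lit 7) (nat_lit 10) (C.cons (nat_lit 1696) (C.miq (nat_lit 1168312690) (nat_lit 1287544311934935912076280453)) C.nil)) C.nil))) C.nil)) C.nil))) C.nil))))))))) C.nil))))) C.nil))) (C.cons (nat_lit 386) (C.node (nat_lit 6) (nat_lit 7) (nat_lit 8) (C.cons (nat_lit 448) (C.node (nat_lit 3) (nat_lit 4) (nat_lit 7) (C.cons (nat_lit 664) (C.node (nat_lit 2) (nat_lit 4) (nat_lit 9) (C.cons (nat_lit 1556) (C.miq (nat_lit 1805938834) (nat_lit 3733166842319527637052293765)) (C.cons (nat_lit 534) (C.miq (nat_lit 410591284) (nat_lit 1083207385010072708277864477)) (C.cons (nat_lit 532) (C.node (nat_lit 6) (nat_lit 7) (nat_lit 9) (C.cons (nat_lit 1728) (C.miq (nat_lit 1689940489) (nat_lit 3733194807003415877559321221)) (C.cons (nat_lit 706) (C.miq (nat_lit 371234627) (nat_lit 1321365568684662482276254360)) (C.cons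 (nat_lit 704) (C.node (nat_lit 1) (nat_lit 6) (nat_lit 7) (C.cons (nat_lit 202) (C.node (nat_lit 6) (nat_lit 7) (nat_lit 10) C.nil) C.nil)) C.nil)))) C.nil)))) (C.cons (nat_lit 152) (C.node (nat_lit 4) (nat_lit 7) (nat_lit 9) (C.cons (nat_lit 656) (C.node (nat_lit 1) (nat_lit 6) (nat_lit 7) (C.cons (nat_lit 194)
  (C.node (nat_lit 1) (nat_lit 7) (nat_lit 9) C.nil) C.nil)) C.nil)) C.nil))) C.nil)) C.nil))) C.nil)))) C.nil))) (C.cons (nat_lit 400) (C.node (nat_lit 4) (nat_lit 5) (nat_lit 7) (C.cons (nat_lit 184) (C.miq (nat_lit 2722301557) (nat_lit 2510958573429676356627073249)) (C.cons (nat_lit 176) (C.node (nat_lit 3) (nat_lit 4) (nat_lit 7) (C.cons (nat_lit 664) (C.node (nat_lit 6) (nat_lit 7) (nat_lit 9) (C.cons (nat_lit 1728) (C.miq (nat_lit 1689940489) (nat_lit 3733194807003415877559321221)) (C.cons (nat_lit 706) (C.miq (nat_lit 371234627) (nat_lit 1321365568684662482276254360)) (C.cons (nat_lit 704) (C.node (nat_lit 2) (nat_lit 4) (nat_lit 9) (C.cons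 (nat_lit 1556) (C.miq (nat_lit 1805938834) (nat_lit 3733166842319527637052293765)) (C.cons (nat_lit 788) (C.miq (nat_lit 1461980041) (nat_lit 256302623021529820751466241)) (C.cons (nat_lit 534) (C.miq (nat_lit 410591284) (nat_lit 1083207385010072708277864477)) (C.cons (nat_lit 532) (C.node (nat_lit 1) (nat_lit 2) (nat_lit 4) (C.cons (nat_lit 54) (C.node (nat_lit 1) (nat_lit 2) (nat_lit 7) (C.cons (nat_lit 142) (C.miq (nat_lit 428290226) (nat_lit 1083200153959594117241767965)) (C.cons (nat_lit 134) (C.node (nat_lit 2) (nat_lit 4) (nat_lit 8) (C.cons (nat_lit 1300) (C.miq (nat_lit 1803710628) (nat_lit 2944947207930789415127090323)) (C.cons (nat_lit 276) (C.node (nat_lit 2) (nat_lit 4) (nat_lit 10) (C.cons (nat_lit 1044) (C.node (nat_lit 4) (nat_lit 5) (nat_lit 11) (C.cons (nat_lit 2352) (C.miq (nat_lit 2458126261) (nat_lit 333673875018624825950210273)) (C.cons (nat_lit 2096) (C.node (nat_lit 1) (nat_lit 3) (nat_lit 4) (C.cons (nat_lit 282) (C.miq (nat_lit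 345146224) (nat_lit 643153387608052901888721289)) (C.cons (nat_lit 90) (C.miq (nat_lit 377041952) (nat_lit 851093424681183147567941661)) (C.cons (nat_lit 26) (C.node (nat_lit 2) (nat_lit 8) (nat_lit 9) (C.cons (nat_lit 876) (C.miq (nat_lit 2753759077) (nat_lit 2510958573451631404855855329)) (C.cons (nat_lit 868) (C.miq (nat_lit 2825128231) (nat_lit 407429603428589459352060549)) (C.cons (nat_lit 844) (C.miq (nat_lit 395838514) (nat_lit 1083202386198009175790585885)) (C.cons (nat_lit 836) (C.miq (nat_lit 2825128231) (nat_lit 407429603428589321913107077)) (C.cons (nat_lit 812) (C.miq (nat_lit 395838514) (nat_lit 1083202386198009175788488733)) (C.cons (nat_lit 804) (C.miq (nat_lit 2840856609) (nat_lit 678228987022266119597981959)) (C.cons (nat_lit 780) (C.miq (nat_lit 395838514) (nat_lit 1083202386198009175786391581)) (C.cons (nat_lit 772) (C.node (nat_lit 1) (nat_lit 7) (nat_lit 9) (C.cons (nat_lit 674) (C.node (nat_lit 7) (nat_lit 9) (nat_lit 10) C.nil) (C.cons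 (nat_lit 642) (C.node (nat_lit 5) (nat_lit 7) (nat_lit 9) (C.cons (nat_lit 672) (C.node (nat_lit 7) (nat_lit 9) (nat_lit 10) C.nil) C.nil)) C.nil))) C.nil))))))))) C.nil)))) C.nil))) C.nil)) C.nil))) C.nil))) (C.cons (nat_lit 22) (C.node (nat_lit 1) (nat_lit 7) (nat_lit 9) (C.cons (nat_lit 674) (C.node (nat_lit 7) (nat_lit 9) (nat_lit 10) (C.cons (nat_lit 1664) (C.node (nat_lit 1) (nat_lit 2) (nat_lit 7) (C.cons (nat_lit 142) (C.miq (nat_lit 2266608176) (nat_lit 814886857049920835326511133)) C.nil)) C.nil)) (C.cons (nat_lit 642) (C.node (nat_lit 4) (nat_lit 8) (nat_lit 9) (C.cons (nat_lit 786) (C.node (nat_lit 4) (nat_lit 8) (nat_lit 11) (C.cons (nat_lit 2352) (C.miq (nat_lit 675904336) (nat_lit 950227593052709219046852833)) (C.cons (nat_lit 2320) (C.node (nat_lit 4) (nat_lit 9) (nat_lit 10) (C.cons (nat_lit 1616) (C.miq (nat_lit 1678944640) (nat_lit 26616530777661344609406721)) (C.cons (nat_lit 1552) (C.node (nat_lit 6) (nat_lit 7) (nat_lit 8) (C.cons (nat_lit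 1472) (C.miq (nat_lit 1656255498) (nat_lit 2944970450248194786005681299)) (C.cons (nat_lit 450) (C.miq (nat_lit 1461257860) (nat_lit 776140725455811836069937489)) (C.cons (nat_lit 448) (C.node (nat_lit 1) (nat_lit 6) (nat_lit 7) (C.cons (nat_lit 194) (C.node (nat_lit 1) (nat_lit 7) (nat_lit 8) C.nil) C.nil)) C.nil)))) C.nil))) C.nil))) (C.cons (nat_lit 784) (C.node (nat_lit 4) (nat_lit 9) (nat_lit 10)
  (C.cons (nat_lit 1616) (C.node (nat_lit 1) (nat_lit 4) (nat_lit 9) (C.cons (nat_lit 2578) (C.node (nat_lit 4) (nat_lit 6) (nat_lit 11) (C.cons (nat_lit 2128) (C.node (nat_lit 4) (nat_lit 5) (nat_lit 11) (C.cons (nat_lit 2352) (C.miq (nat_lit 675904336) (nat_lit 947809741413479960697440481)) (C.cons (nat_lit 2096) (C.node (nat_lit 4) (nat_lit 8) (nat_lit 11) C.nil) C.nil))) C.nil)) (C.cons (nat_lit 530) (C.node (nat_lit 4) (nat_lit 9) (nat_lit 11) (C.cons (nat_lit 2576) (C.node (nat_lit 3) (nat_lit 4) (nat_lit 10) (C.cons (nat_lit 1304) (C.node (nat_lit 3)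 (nat_lit 4) (nat_lit 6) (C.cons (nat_lit 122) (C.miq (nat_lit 377041952) (nat_lit 851093424690190346822682653)) (C.cons (nat_lit 120) (C.miq (nat_lit 3091597877) (nat_lit 407449931740560559877653545)) (C.cons (nat_lit 90) (C.miq (nat_lit 377041952) (nat_lit 851093424681183147567941661)) C.nil)))) (C.cons (nat_lit 1048) (C.node (nat_lit 5) (nat_lit 7) (nat_lit 9) C.nil) C.nil))) C.nil)) C.nil))) (C.cons (nat_lit 1552) (C.node (nat_lit 5) (nat_lit 7) (nat_lit 9) (C.cons (nat_lit 1696) (C.node (nat_lit 2) (nat_lit 7) (nat_lit 10) (C.cons (nat_lit 1164) (C.miq (nat_lit 1168312690) (nat_lit 1287544311934935912076280453)) C.nil)) (C.cons (nat_lit 672) (C.node (nat_lit 7) (nat_lit 9) (nat_lit 10) (C.cons (nat_lit 1664) (C.node (nat_lit 1) (nat_lit 6) (nat_lit 7) C.nil) C.nil)) C.nil))) C.nil))) C.nil))) C.nil))) C.nil))) C.nil))))) C.nil)))) (C.cons (nat_lit 152) (C.node (nat_lit 4) (nat_lit 7) (nat_lit 9) (C.cons (nat_lit 656) (C.node (nat_lit 6) (nat_lit 7) (nat_lit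 8) (C.cons (nat_lit 1472) (C.miq (nat_lit 1656255498) (nat_lit 2944970450248194786005681299)) (C.cons (nat_lit 450) (C.node (nat_lit 2) (nat_lit 6) (nat_lit 11) (C.cons (nat_lit 2630) (C.miq (nat_lit 840436583) (nat_lit 317954740713703263223023841)) (C.cons (nat_lit 2628) (C.miq (nat_lit 1688938249) (nat_lit 3733211409073078324915405445)) (C.cons (nat_lit 2118) (C.miq (nat_lit 840436583) (nat_lit 317954740713701064199768289)) (C.cons (nat_lit 2116) (C.node (nat_lit 1) (nat_lit 7) (nat_lit 9) (C.cons (nat_lit 674) (C.node (nat_lit 1) (nat_lit 2) (nat_lit 7) (C.cons (nat_lit 142) (C.miq (nat_lit 2266608176) (nat_lit 814886857049920835326511133)) C.nil)) (C.cons (nat_lit 642) (C.node (nat_lit 5) (nat_lit 7) (nat_lit 8) (C.cons (nat_lit 416) (C.node (nat_lit 7) (nat_lit 8) (nat_lit 10) C.nil) C.nil)) C.nil))) C.nil))))) (C.cons (nat_lit 448) (C.node (nat_lit 1) (nat_lit 7) (nat_lit 8) (C.cons (nat_lit 418) (C.node (nat_lit 7) (nat_lit 8) (nat_lit 10) (C.cons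 (nat_lit 1408) (C.node (nat_lit 1) (nat_lit 2) (nat_lit 7) C.nil) C.nil)) (C.cons (nat_lit 386) (C.node (nat_lit 5) (nat_lit 7) (nat_lit 8) (C.cons (nat_lit 1440) (C.node (nat_lit 2) (nat_lit 7) (nat_lit 10) C.nil) C.nil)) C.nil))) C.nil)))) C.nil)) C.nil))) C.nil))) C.nil))) C.nil)))))))) (C.cons (nat_lit 180) (C.node (nat_lit 4) (nat_lit 7) (nat_lit 8) (C.cons (nat_lit 912) (C.miq (nat_lit 613971211) (nat_lit 1102585283807773269336066273)) (C.cons (nat_lit 400) (C.node (nat_lit 2) (nat_lit 4) (nat_lit 8) (C.cons (nat_lit 1300) (C.miq (nat_lit 2552499061) (nat_lit 1571613915203599126274246881)) (C.cons (nat_lit 788) (C.node (nat_lit 2) (nat_lit 4) (nat_lit 10) (C.cons (nat_lit 1044) (C.node (nat_lit 5) (nat_lit 7) (nat_lit 10) (C.cons (nat_lit 1696) (C.miq (nat_lit 2304189451) (nat_lit 2050383126556779328043026461)) (C.cons (nat_lit 1440) (C.miq (nat_lit 846531466) (nat_lit 217626293897705741382323969)) (C.cons (nat_lit 1184) (C.node (nat_lit 5) (nat_lit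 7) (nat_lit 8) (C.cons (nat_lit 930) (C.miq (nat_lit 997786241) (nat_lit 3249602251355907760935010567)) (C.cons (nat_lit 928) (C.node (nat_lit 1) (nat_lit 2) (nat_lit 4) (C.cons (nat_lit 86) (C.node (nat_lit 1) (nat_lit 2) (nat_lit 7) (C.cons (nat_lit 142) (C.miq (nat_lit 425144386) (nat_lit 1121885780187248163191785501)) (C.cons (nat_lit 134) (C.node (nat_lit 1) (nat_lit 7) (nat_lit 8) (C.cons (nat_lit 450) (C.miq (nat_lit 923928676) (nat_lit 162034373826423002737541457)) (C.cons (nat_lit 386)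
  (C.node (nat_lit 4) (nat_lit 6) (nat_lit 11) (C.cons (nat_lit 2640) (C.miq (nat_lit 280373396) (nat_lit 2747889974478086869145879316)) (C.cons (nat_lit 2128) (C.node (nat_lit 1) (nat_lit 8) (nat_lit 9) (C.cons (nat_lit 834) (C.miq (nat_lit 2521530656) (nat_lit 2572664998318668502242492679)) (C.cons (nat_lit 770) (C.node (nat_lit 4) (nat_lit 5) (nat_lit 11) (C.cons (nat_lit 2354) (C.miq (nat_lit 2873493522) (nat_lit 2572614307512358944218939655)) (C.cons (nat_lit 2352) (C.node (nat_lit 1) (nat_lit 4) (nat_lit 5) (C.cons (nat_lit 58) (C.miq (nat_lit 360264736) (nat_lit 1121892808265852746008430621)) (C.cons (nat_lit 50) (C.node (nat_lit 2) (nat_lit 10) (nat_lit 11) (C.cons (nat_lit 3110) (C.miq (nat_lit 891751096) (nat_lit 217613897400838427005685505)) (C.cons (nat_lit 3108) (C.miq (nat_lit 891751096) (nat_lit 217613897400838418415750913)) (C.cons (nat_lit 3078) (C.miq (nat_lit 1756512417) (nat_lit 2944944883096100572928279699)) (C.cons (nat_lit 3076) (C.node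 (nat_lit 1) (nat_lit 3) (nat_lit 4) (C.cons (nat_lit 282) (C.node (nat_lit 4) (nat_lit 8) (nat_lit 10) (C.cons (nat_lit 1296) (C.node (nat_lit 1) (nat_lit 5) (nat_lit 7) (C.cons (nat_lit 170) (C.miq (nat_lit 1679099959) (nat_lit 60488220524869278889542025)) (C.cons (nat_lit 162) (C.node (nat_lit 3) (nat_lit 5) (nat_lit 7) (C.cons (nat_lit 168) (C.node (nat_lit 1) (nat_lit 3) (nat_lit 7) (C.cons (nat_lit 138) (C.node (nat_lit 1) (nat_lit 6) (nat_lit 7) C.nil) C.nil)) C.nil)) C.nil))) C.nil)) (C.cons (nat_lit 26) (C.node (nat_lit 1) (nat_lit 4) (nat_lit 8) (C.cons (nat_lit 274) (C.node (nat_lit 1) (nat_lit 4) (nat_lit 9) (C.cons (nat_lit 2578) (C.node (nat_lit 1) (nat_lit 7) (nat_lit 9) (C.cons (nat_lit 706) (C.miq (nat_lit 2836794178) (nat_lit 853521792020357219859433501)) (C.cons (nat_lit 642) (C.node (nat_lit 1) (nat_lit 2) (nat_lit 11) C.nil) C.nil))) (C.cons (nat_lit 530) (C.node (nat_lit 1) (nat_lit 4) (nat_lit 11) C.nil) C.nil))) C.nil)) C.nil))) C.nil)))))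 C.nil))) (C.cons (nat_lit 2098) (C.miq (nat_lit 2336584201) (nat_lit 2536343488815674374948455045)) (C.cons (nat_lit 2096) (C.miq (nat_lit 2336584201) (nat_lit 2533925637176445116599042693)) C.nil))))) C.nil))) C.nil))) C.nil))) C.nil))) (C.cons (nat_lit 22) (C.node (nat_lit 2) (nat_lit 4) (nat_lit 6) (C.cons (nat_lit 84) (C.node (nat_lit 1) (nat_lit 5) (nat_lit 7) (C.cons (nat_lit 170) (C.node (nat_lit 3) (nat_lit 5) (nat_lit 11) (C.cons (nat_lit 2600) (C.miq (nat_lit 2838563671) (nat_lit 632289805876917924728015073)) (C.cons (nat_lit 2344) (C.miq (nat_lit 896710800) (nat_lit 217644962077855677367521025)) (C.cons (nat_lit 2088) (C.node (nat_lit 5) (nat_lit 9) (nat_lit 11) (C.cons (nat_lit 2598) (C.miq (nat_lit 628341120) (nat_lit 205555703953204029688450817)) (C.cons (nat_lit 2596) (C.miq (nat_lit 628341120) (nat_lit 205555703952641079735029505)) (C.cons (nat_lit 2594) (C.miq (nat_lit 2299726679) (nat_lit 632275454310028552927054049)) (C.cons (nat_lit 2592)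 (C.node (nat_lit 5) (nat_lit 10) (nat_lit 11) (C.cons (nat_lit 3110) (C.miq (nat_lit 891751096) (nat_lit 217613897400838427005685505)) (C.cons (nat_lit 3108) (C.miq (nat_lit 891751096) (nat_lit 217613897400838418415750913)) (C.cons (nat_lit 3106) (C.miq (nat_lit 2337475095) (nat_lit 2524244362006925410365473939)) (C.cons (nat_lit 3104) (C.node (nat_lit 1) (nat_lit 2) (nat_lit 7) (C.cons (nat_lit 198) (C.node (nat_lit 1) (nat_lit 7) (nat_lit 8) (C.cons (nat_lit 386) (C.node (nat_lit 1) (nat_lit 7) (nat_lit 9) (C.cons (nat_lit 642) (C.node (nat_lit 1) (nat_lit 2) (nat_lit 3) (C.cons (nat_lit 1038) (C.node (nat_lit 2) (nat_lit 3) (nat_lit 7) (C.cons (nat_lit 140) (C.node (nat_lit 2) (nat_lit 7) (nat_lit 10) C.nil) C.nil)) (C.cons (nat_lit 14) (C.miq (nat_lit 2719155829) (nat_lit 16944607564696309077772513)) C.nil))) C.nil)) C.nil)) (C.cons (nat_lit 134) (C.node (nat_lit 1) (nat_lit 7) (nat_lit 8) (C.cons (nat_lit 450) (C.node (nat_lit 1) (nat_lit 7) (nat_lit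 9) (C.cons (nat_lit 642) (C.node (nat_lit 1) (nat_lit 8) (nat_lit 9) (C.cons (nat_lit 770)
  (C.node (nat_lit 7) (nat_lit 8) (nat_lit 10) (C.cons (nat_lit 1408) (C.node (nat_lit 2) (nat_lit 6) (nat_lit 7) (C.cons (nat_lit 204) (C.node (nat_lit 2) (nat_lit 7) (nat_lit 10) C.nil) C.nil)) C.nil)) C.nil)) C.nil)) (C.cons (nat_lit 386) (C.node (nat_lit 1) (nat_lit 6) (nat_lit 7) (C.cons (nat_lit 706) (C.node (nat_lit 1) (nat_lit 8) (nat_lit 9) (C.cons (nat_lit 770) (C.node (nat_lit 3) (nat_lit 9) (nat_lit 11) (C.cons (nat_lit 2632) (C.miq (nat_lit 1133579111) (nat_lit 632289805380396203284498657)) (C.cons (nat_lit 2568) (C.node (nat_lit 2) (nat_lit 9) (nat_lit 11) (C.cons (nat_lit 2628) (C.miq (nat_lit 338260150) (nat_lit 952646569587259947159390433)) (C.cons (nat_lit 2566) (C.miq (nat_lit 824641976) (nat_lit 162003309546003711129816833)) (C.cons (nat_lit 2564) (C.node (nat_lit 3) (nat_lit 5) (nat_lit 9) (C.cons (nat_lit 620) (C.miq (nat_lit 2710767461) (nat_lit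 632287849770499789059524833)) (C.cons (nat_lit 616) (C.miq (nat_lit 2710767461) (nat_lit 632287849770499789059262689)) (C.cons (nat_lit 556) (C.miq (nat_lit 391709731) (nat_lit 1121892808579134395081558045)) (C.cons (nat_lit 552) (C.node (nat_lit 1) (nat_lit 4) (nat_lit 9) (C.cons (nat_lit 2578) (C.node (nat_lit 4) (nat_lit 6) (nat_lit 11) (C.cons (nat_lit 2128) (C.node (nat_lit 6) (nat_lit 9) (nat_lit 11) C.nil) C.nil)) (C.cons (nat_lit 530) (C.node (nat_lit 1) (nat_lit 9) (nat_lit 11) (C.cons (nat_lit 2562) (C.node (nat_lit 2) (nat_lit 5) (nat_lit 11) (C.cons (nat_lit 2084) (C.node (nat_lit 2) (nat_lit 6) (nat_lit 11) C.nil) C.nil)) C.nil)) C.nil))) C.nil))))) C.nil)))) C.nil))) C.nil)) (C.cons (nat_lit 194) (C.node (nat_lit 1) (nat_lit 7) (nat_lit 9) C.nil) C.nil))) C.nil))) C.nil))) C.nil))))) C.nil))))) C.nil)))) (C.cons (nat_lit 162) (C.node (nat_lit 3) (nat_lit 5) (nat_lit 7) (C.cons (nat_lit 168) (C.node (nat_lit 1) (nat_lit 7) (nat_lit 8) (C.cons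 (nat_lit 450) (C.node (nat_lit 1) (nat_lit 7) (nat_lit 9) (C.cons (nat_lit 642) (C.node (nat_lit 7) (nat_lit 8) (nat_lit 10) C.nil) C.nil)) (C.cons (nat_lit 386) (C.node (nat_lit 1) (nat_lit 7) (nat_lit 9) (C.cons (nat_lit 706) (C.node (nat_lit 1) (nat_lit 2) (nat_lit 7) (C.cons (nat_lit 142) (C.miq (nat_lit 1461273136) (nat_lit 853511977322019654128568349)) C.nil)) (C.cons (nat_lit 642) (C.node (nat_lit 2) (nat_lit 7) (nat_lit 10) (C.cons (nat_lit 1156) (C.node (nat_lit 6) (nat_lit 7) (nat_lit 8) C.nil) C.nil)) C.nil))) C.nil))) C.nil)) C.nil))) C.nil)) C.nil))) (C.cons (nat_lit 418) (C.miq (nat_lit 2507686066) (nat_lit 505345528791162302708844573)) (C.cons (nat_lit 416) (C.miq (nat_lit 2507686066) (nat_lit 502927677151933044359432221)) C.nil))))) C.nil)))) C.nil)) (C.cons (nat_lit 276) (C.miq (nat_lit 2552499061) (nat_lit 333673875918218851375122657)) C.nil)))) C.nil))) (C.cons (nat_lit 148) (C.ref (nat_lit 292) (nat_lit 205163983024656)) C.nil)))) List.nil)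

theorem ok12_293 : okL par12 (nat_lit 294) c12_293 (nat_lit 293) = true := by decide +kernel

noncomputable def c12_294 : List C :=
  (List.cons (C.node (nat_lit 1) (nat_lit 4) (nat_lit 8) (C.cons (nat_lit 786) (C.miq (nat_lit 1460931465) (nat_lit 1415662484031959190704623361)) (C.cons (nat_lit 282) (C.node (nat_lit 4) (nat_lit 8) (nat_lit 10) (C.cons (nat_lit 1300) (C.miq (nat_lit 1797785508) (nat_lit 2790207008863123358564484243)) (C.cons (nat_lit 1296) (C.node (nat_lit 2) (nat_lit 4) (nat_lit 8) (C.cons (nat_lit 788) (C.miq (nat_lit 683119696) (nat_lit 2942537343313747337455665713)) (C.cons (nat_lit 404) (C.miq (nat_lit 2441544514) (nat_lit 2942537343239147577922553885)) (C.cons (nat_lit 276) (C.node (nat_lit 2) (nat_lit 4) (nat_lit 7) (C.cons (nat_lit 212) (C.miq (nat_lit 2722674528) (nat_lit 333734381059471506542758113)) (C.cons (nat_lit 180) (C.miq (nat_lit 2554465111) (nat_lit 333675425444720682200205537)) (C.cons (nat_lit 148) (C.node (nat_lit 4)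 (nat_lit 5) (nat_lit 7) (C.cons (nat_lit 184) (C.node (nat_lit 4) (nat_lit 7) (nat_lit 8) (C.cons (nat_lit 912) (C.miq (nat_lit 2839873651) (nat_lit 678227031667394770250498441)) (C.cons (nat_lit 400) (C.node (nat_lit 4) (nat_lit 8) (nat_lit 9) (C.cons (nat_lit 784) (C.node (nat_lit 5) (nat_lit 7) (nat_lit 10) (C.cons (nat_lit 1696) (C.miq (nat_lit 659864208) (nat_lit 222480665598385972566888193)) (C.cons (nat_lit 1440) (C.miq (nat_lit 998588583) (nat_lit 2843396922519157405158212755)) (C.cons (nat_lit 1184) (C.node (nat_lit 7) (nat_lit 8) (nat_lit 10) (C.cons (nat_lit 1472) (C.miq (nat_lit 1680310458) (nat_lit 178948175005107606325038849)) (C.cons (nat_lit 1408) (C.node (nat_lit 1) (nat_lit 3) (nat_lit 7) (C.cons (nat_lit 206) (C.miq (nat_lit 2819754870) (nat_lit 317967653931075876997171425)) (C.cons (nat_lit 202) (C.miq (nat_lit 1665495435) (nat_lit 222484280315230466587232642)) (C.cons (nat_lit 142) (C.miq (nat_lit 2591099683) (nat_lit 1415661783497040460306581533))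 (C.cons (nat_lit 138) (C.node (nat_lit 1) (nat_lit 4) (nat_lit 5) (C.cons (nat_lit 118) (C.miq (nat_lit 2822900566) (nat_lit 333683689586065704075266273)) (C.cons (nat_lit 114) (C.miq (nat_lit 1462853764) (nat_lit 166833866675437539002286417)) (C.cons (nat_lit 54) (C.miq (nat_lit 1367818755) (nat_lit 2942528839158117752136861725)) (C.cons (nat_lit 50) (C.node (nat_lit 3) (nat_lit 5) (nat_lit 8) (C.cons (nat_lit 876) (C.miq (nat_lit 2754742102) (nat_lit 2510959089960465348464216289)) (C.cons (nat_lit 872) (C.miq (nat_lit 2840856631) (nat_lit 678228987022266411664277897)) (C.cons (nat_lit 812) (C.miq (nat_lit 1477915140) (nat_lit 2942528839371475784534525981)) (C.cons (nat_lit 808) (C.miq (nat_lit 2840856631) (nat_lit 678228987022266136786370953)) (C.cons (nat_lit 364) (C.miq (nat_lit 2754742102) (nat_lit 2510959089960465348430661857)) (C.cons (nat_lit 360) (C.miq (nat_lit 1394042944) (nat_lit 166873692657430570793632081)) (C.cons (nat_lit 300) (C.miq (nat_lit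 1477915140) (nat_lit 2942528839227360596458670109)) (C.cons (nat_lit 296) (C.node (nat_lit 2) (nat_lit 3) (nat_lit 7) (C.cons (nat_lit 204) (C.node (nat_lit 2) (nat_lit 7) (nat_lit 8) (C.cons (nat_lit 388) (C.node (nat_lit 5) (nat_lit 7) (nat_lit 8) C.nil) C.nil)) (C.cons (nat_lit 140) (C.node (nat_lit 4) (nat_lit 6) (nat_lit 7) (C.cons (nat_lit 720) (C.node (nat_lit 6) (nat_lit 7) (nat_lit 8) C.nil) (C.cons (nat_lit 208) (C.node (nat_lit 4) (nat_lit 7) (nat_lit 9) C.nil) C.nil))) C.nil))) C.nil))))))))) C.nil))))) C.nil))))) C.nil))) C.nil)))) C.nil)) C.nil))) (C.cons (nat_lit 176) (C.node (nat_lit 3) (nat_lit 4) (nat_lit 5) (C.cons (nat_lit 120) (C.node (nat_lit 3) (nat_lit 4) (nat_lit 7) (C.cons (nat_lit 664) (C.miq (nat_lit 1954714384) (nat_lit 333675424550465790613586443)) (C.cons (nat_lit 152) (C.node (nat_lit 3) (nat_lit 5) (nat_lit 11) (C.cons (nat_lit 2600) (C.miq (nat_lit 2471015776) (nat_lit 340987935807148000520767713)) (C.cons (nat_lit 2090)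 (C.miq (nat_lit 2961266243) (nat_lit 317986044893555595396382840)) (C.cons (nat_lit 2088) (C.node (nat_lit 1) (nat_lit 3) (nat_lit 5) (C.cons (nat_lit 174) (C.miq (nat_lit 2819820405) (nat_lit 340936727994919767447046369))
  (C.cons (nat_lit 170) (C.miq (nat_lit 2819820405) (nat_lit 340936727994919767446784225)) (C.cons (nat_lit 46) (C.miq (nat_lit 543496259) (nat_lit 2747889236608308871033258266)) (C.cons (nat_lit 42) (C.node (nat_lit 1) (nat_lit 3) (nat_lit 7) (C.cons (nat_lit 206) (C.miq (nat_lit 2452883301) (nat_lit 2510949276144562391672686817)) (C.cons (nat_lit 202) (C.node (nat_lit 1) (nat_lit 2) (nat_lit 3) (C.cons (nat_lit 1038) (C.miq (nat_lit 2789417089) (nat_lit 145090246381757608446525703)) (C.cons (nat_lit 14) (C.node (nat_lit 1) (nat_lit 3) (nat_lit 10) (C.cons (nat_lit 3082) (C.miq (nat_lit 2443641778) (nat_lit 1415664033065882956360583197)) (C.cons (nat_lit 1034) (C.node (nat_lit 1) (nat_lit 3) (nat_lit 11) (C.cons (nat_lit 2058) (C.node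 (nat_lit 3) (nat_lit 9) (nat_lit 11) (C.cons (nat_lit 2632) (C.miq (nat_lit 2468001392) (nat_lit 1250100152166356691396528353)) C.nil)) C.nil)) C.nil))) C.nil))) (C.cons (nat_lit 142) (C.miq (nat_lit 2591099683) (nat_lit 1415661783497040460306581533)) (C.cons (nat_lit 138) (C.miq (nat_lit 1662473355) (nat_lit 166873692589876576465848624)) C.nil))))) C.nil))))) C.nil)))) C.nil))) (C.cons (nat_lit 56) (C.node (nat_lit 1) (nat_lit 3) (nat_lit 7) (C.cons (nat_lit 206) (C.miq (nat_lit 2819754870) (nat_lit 317967653931075876997171425)) (C.cons (nat_lit 202) (C.miq (nat_lit 1665495435) (nat_lit 67741775404557932224842114)) (C.cons (nat_lit 174) (C.miq (nat_lit 2819820405) (nat_lit 340936727994919767447046369)) (C.cons (nat_lit 170) (C.miq (nat_lit 2819820405) (nat_lit 340936727994919767446784225)) (C.cons (nat_lit 142) (C.miq (nat_lit 2591099683) (nat_lit 1415661783497040460306581533)) (C.cons (nat_lit 138) (C.node (nat_lit 4) (nat_lit 7) (nat_lit 8) (C.cons (nat_lit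 912) (C.node (nat_lit 3) (nat_lit 4) (nat_lit 7) (C.cons (nat_lit 216) (C.node (nat_lit 3) (nat_lit 7) (nat_lit 10) (C.cons (nat_lit 1672) (C.miq (nat_lit 1621313687) (nat_lit 1287509982481173556555678608)) (C.cons (nat_lit 1160) (C.node (nat_lit 4) (nat_lit 6) (nat_lit 11) (C.cons (nat_lit 2642) (C.miq (nat_lit 2486744688) (nat_lit 340987935818970361863145697)) (C.cons (nat_lit 2640) (C.miq (nat_lit 2486744688) (nat_lit 340987935818407411909724385)) (C.cons (nat_lit 2130) (C.miq (nat_lit 1636283440) (nat_lit 2942567374990829864645888029)) (C.cons (nat_lit 2128) (C.node (nat_lit 3) (nat_lit 8) (nat_lit 9) (C.cons (nat_lit 876) (C.miq (nat_lit 1746350596) (nat_lit 2942529429685300541749659677)) (C.cons (nat_lit 872) (C.miq (nat_lit 2761230211) (nat_lit 678227030915856582478135689)) (C.cons (nat_lit 844) (C.miq (nat_lit 1746350596) (nat_lit 2942529429676293342494918685)) (C.cons (nat_lit 840) (C.miq (nat_lit 2474280512) (nat_lit 1402424804933396869273551185))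 (C.cons (nat_lit 812) (C.miq (nat_lit 412566304) (nat_lit 1102561948705231552205096989)) (C.cons (nat_lit 808) (C.miq (nat_lit 2761230211) (nat_lit 678227030915856582473941385)) (C.cons (nat_lit 780) (C.miq (nat_lit 412566304) (nat_lit 1102561948705231414766143517)) (C.cons (nat_lit 776) (C.node (nat_lit 1) (nat_lit 4) (nat_lit 11) (C.cons (nat_lit 2578) (C.node (nat_lit 5) (nat_lit 9) (nat_lit 11) (C.cons (nat_lit 2600) (C.miq (nat_lit 1531590928) (nat_lit 3733182577484259404115280395)) (C.cons (nat_lit 2596) (C.miq (nat_lit 1416794283) (nat_lit 178968909208492959403872001)) (C.cons (nat_lit 2592) (C.node (nat_lit 1) (nat_lit 4) (nat_lit 6) (C.cons (nat_lit 114) (C.miq (nat_lit 1462853764) (nat_lit 166833866675437539002286417)) (C.cons (nat_lit 86) (C.miq (nat_lit 1636254211) (nat_lit 2942529429462935310097254429)) (C.cons (nat_lit 82) (C.node (nat_lit 1) (nat_lit 2) (nat_lit 4) (C.cons (nat_lit 54) (C.node (nat_lit 2) (nat_lit 4) (nat_lit 6) C.nil) C.nil))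 C.nil)))) C.nil)))) (C.cons (nat_lit 2066) (C.node (nat_lit 4) (nat_lit 9) (nat_lit 11) C.nil) C.nil))) C.nil))))))))) C.nil))))) C.nil))) (C.cons (nat_lit 152) (C.node (nat_lit 4) (nat_lit 6) (nat_lit 7) (C.cons (nat_lit 208) (C.node (nat_lit 1) (nat_lit 2) (nat_lit 7) (C.cons (nat_lit 198)
  (C.miq (nat_lit 2819754870) (nat_lit 317967653931075876996647137)) (C.cons (nat_lit 166) (C.node (nat_lit 1) (nat_lit 4) (nat_lit 5) (C.cons (nat_lit 114) (C.miq (nat_lit 827819104) (nat_lit 200688935705825844062650705)) (C.cons (nat_lit 50) (C.node (nat_lit 2) (nat_lit 5) (nat_lit 11) (C.cons (nat_lit 2596) (C.miq (nat_lit 1193609913) (nat_lit 200692035009074753033211649)) (C.cons (nat_lit 2084) (C.node (nat_lit 1) (nat_lit 4) (nat_lit 11) (C.cons (nat_lit 2642) (C.miq (nat_lit 1636283440) (nat_lit 2942567375134945052721743901)) C.nil)) C.nil))) C.nil))) (C.cons (nat_lit 134) (C.node (nat_lit 1) (nat_lit 5) (nat_lit 7) (C.cons (nat_lit 674) (C.node (nat_lit 1) (nat_lit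 6) (nat_lit 7) (C.cons (nat_lit 194) (C.node (nat_lit 3) (nat_lit 5) (nat_lit 7) (C.cons (nat_lit 172) (C.node (nat_lit 5) (nat_lit 7) (nat_lit 8) (C.cons (nat_lit 1440) (C.miq (nat_lit 732246151) (nat_lit 3752508917508429660022636937)) C.nil)) C.nil)) C.nil)) (C.cons (nat_lit 162) (C.node (nat_lit 1) (nat_lit 6) (nat_lit 7) (C.cons (nat_lit 706) (C.node (nat_lit 1) (nat_lit 8) (nat_lit 9) (C.cons (nat_lit 802) (C.miq (nat_lit 323326136) (nat_lit 67714640334386682464833281)) (C.cons (nat_lit 770) (C.node (nat_lit 1) (nat_lit 4) (nat_lit 9) (C.cons (nat_lit 2578) (C.node (nat_lit 4) (nat_lit 6) (nat_lit 11) C.nil) (C.cons (nat_lit 534) (C.miq (nat_lit 2174170144) (nat_lit 853508878297727402183559197)) C.nil))) C.nil))) (C.cons (nat_lit 194) (C.node (nat_lit 1) (nat_lit 7) (nat_lit 9) (C.cons (nat_lit 642) (C.node (nat_lit 2) (nat_lit 3) (nat_lit 7) C.nil) C.nil)) C.nil))) C.nil))) C.nil)))) C.nil)) C.nil))) (C.cons (nat_lit 400) (C.node (nat_lit 4) (nat_lit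 8) (nat_lit 9) (C.cons (nat_lit 784) (C.node (nat_lit 1) (nat_lit 2) (nat_lit 7) (C.cons (nat_lit 198) (C.miq (nat_lit 2819754870) (nat_lit 317967653931075876996647137)) (C.cons (nat_lit 166) (C.node (nat_lit 1) (nat_lit 4) (nat_lit 5) (C.cons (nat_lit 114) (C.miq (nat_lit 827819104) (nat_lit 200688935705825844062650705)) (C.cons (nat_lit 50) (C.node (nat_lit 2) (nat_lit 5) (nat_lit 11) (C.cons (nat_lit 2596) (C.miq (nat_lit 1193609913) (nat_lit 200692035009074753033211649)) (C.cons (nat_lit 2084) (C.node (nat_lit 1) (nat_lit 6) (nat_lit 7) (C.cons (nat_lit 706) (C.node (nat_lit 1) (nat_lit 8) (nat_lit 9) (C.cons (nat_lit 802) (C.miq (nat_lit 877726601) (nat_lit 60455939212515637274480385)) (C.cons (nat_lit 770) (C.node (nat_lit 4) (nat_lit 7) (nat_lit 9) (C.cons (nat_lit 664) (C.miq (nat_lit 1954714384) (nat_lit 333675424550465790613586443)) (C.cons (nat_lit 656) (C.node (nat_lit 7) (nat_lit 8) (nat_lit 9) (C.cons (nat_lit 928) (C.miq (nat_lit 1165146256)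 (nat_lit 200720000605502668735319809)) (C.cons (nat_lit 896) (C.node (nat_lit 2) (nat_lit 7) (nat_lit 8) C.nil) C.nil))) C.nil))) C.nil))) (C.cons (nat_lit 194) (C.node (nat_lit 1) (nat_lit 7) (nat_lit 9) (C.cons (nat_lit 642) (C.node (nat_lit 2) (nat_lit 3) (nat_lit 7) (C.cons (nat_lit 204) (C.node (nat_lit 2) (nat_lit 7) (nat_lit 8) (C.cons (nat_lit 388) (C.node (nat_lit 3) (nat_lit 4) (nat_lit 7) C.nil) C.nil)) (C.cons (nat_lit 140) (C.node (nat_lit 3) (nat_lit 4) (nat_lit 7) (C.cons (nat_lit 728) (C.miq (nat_lit 1954714384) (nat_lit 333675424568480189123068427)) (C.cons (nat_lit 152) (C.node (nat_lit 4) (nat_lit 6) (nat_lit 7) C.nil) C.nil))) C.nil))) C.nil)) C.nil))) C.nil))) C.nil))) (C.cons (nat_lit 134) (C.node (nat_lit 1) (nat_lit 5) (nat_lit 7) (C.cons (nat_lit 674) (C.node (nat_lit 1) (nat_lit 6) (nat_lit 7) (C.cons (nat_lit 194) (C.node (nat_lit 3) (nat_lit 5) (nat_lit 11) (C.cons (nat_lit 2600) (C.miq (nat_lit 1133579095) (nat_lit 632289805380396065843448033))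 (C.cons (nat_lit 2090) (C.miq (nat_lit 588843863) (nat_lit 632280102393011104185977057)) (C.cons (nat_lit 2088) (C.node (nat_lit 5) (nat_lit 9) (nat_lit 11) (C.cons (nat_lit 2596) (C.miq (nat_lit 1416794283) (nat_lit 178968909208492959403872001)) (C.cons (nat_lit 2592) (C.node (nat_lit 1) (nat_lit 5) (nat_lit 11) (C.cons (nat_lit 2086) (C.node (nat_lit 1) (nat_lit 4) (nat_lit 5)
  (C.cons (nat_lit 114) (C.miq (nat_lit 827819104) (nat_lit 814823252070057464813388113)) (C.cons (nat_lit 50) (C.node (nat_lit 3) (nat_lit 5) (nat_lit 7) (C.cons (nat_lit 172) (C.node (nat_lit 5) (nat_lit 7) (nat_lit 8) C.nil) C.nil)) C.nil))) (C.cons (nat_lit 2082) (C.node (nat_lit 2) (nat_lit 5) (nat_lit 11) C.nil) C.nil))) C.nil))) C.nil)))) C.nil)) (C.cons (nat_lit 162) (C.node (nat_lit 1) (nat_lit 6) (nat_lit 7) (C.cons (nat_lit 706) (C.node (nat_lit 1) (nat_lit 8) (nat_lit 9) (C.cons (nat_lit 802) (C.miq (nat_lit 323326136) (nat_lit 67714640334386682464833281)) (C.cons (nat_lit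 770) (C.node (nat_lit 4) (nat_lit 7) (nat_lit 9) (C.cons (nat_lit 664) (C.miq (nat_lit 1954714384) (nat_lit 333675424550465790613586443)) (C.cons (nat_lit 656) (C.node (nat_lit 7) (nat_lit 8) (nat_lit 9) C.nil) C.nil))) C.nil))) (C.cons (nat_lit 194) (C.node (nat_lit 1) (nat_lit 7) (nat_lit 9) (C.cons (nat_lit 642) (C.node (nat_lit 2) (nat_lit 4) (nat_lit 10) (C.cons (nat_lit 1556) (C.miq (nat_lit 1461980073) (nat_lit 178931370566196852155485953)) (C.cons (nat_lit 1076) (C.node (nat_lit 1) (nat_lit 4) (nat_lit 5) (C.cons (nat_lit 114) (C.miq (nat_lit 827819104) (nat_lit 195853232427367327363826001)) (C.cons (nat_lit 50) (C.node (nat_lit 3) (nat_lit 4) (nat_lit 7) (C.cons (nat_lit 728) (C.miq (nat_lit 1954714384) (nat_lit 333675424568480189123068427)) C.nil)) C.nil))) (C.cons (nat_lit 1044) (C.node (nat_lit 4) (nat_lit 5) (nat_lit 10) (C.cons (nat_lit 1136) (C.node (nat_lit 3) (nat_lit 4) (nat_lit 7) (C.cons (nat_lit 728) (C.miq (nat_lit 1954714384) (nat_lit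 333675424568480189123068427)) C.nil)) (C.cons (nat_lit 1072) (C.node (nat_lit 3) (nat_lit 4) (nat_lit 7) C.nil) C.nil))) C.nil)))) C.nil)) C.nil))) C.nil))) C.nil)))) C.nil)) C.nil))) C.nil))))))) C.nil))) C.nil))) C.nil)))) C.nil)))) C.nil))) (C.cons (nat_lit 274) (C.node (nat_lit 4) (nat_lit 8) (nat_lit 10) (C.cons (nat_lit 1304) (C.node (nat_lit 5) (nat_lit 7) (nat_lit 10) (C.cons (nat_lit 1696) (C.miq (nat_lit 1521784608) (nat_lit 3733173280070795564263735941)) (C.cons (nat_lit 1440) (C.miq (nat_lit 1480292928) (nat_lit 2795078424803631760968320147)) (C.cons (nat_lit 1184) (C.node (nat_lit 7) (nat_lit 8) (nat_lit 10) (C.cons (nat_lit 1472) (C.miq (nat_lit 713340768) (nat_lit 1576477583566769686150449377)) (C.cons (nat_lit 1408) (C.node (nat_lit 4) (nat_lit 5) (nat_lit 7) (C.cons (nat_lit 184) (C.miq (nat_lit 1535340708) (nat_lit 2795039889789741333596341395)) (C.cons (nat_lit 180) (C.miq (nat_lit 2591361828) (nat_lit 1431378520128305440543213597)) (C.cons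 (nat_lit 176) (C.node (nat_lit 2) (nat_lit 8) (nat_lit 10) (C.cons (nat_lit 1316) (C.node (nat_lit 2) (nat_lit 4) (nat_lit 10) (C.cons (nat_lit 1556) (C.miq (nat_lit 1916996008) (nat_lit 2510946177091563806751461121)) (C.cons (nat_lit 1044) (C.node (nat_lit 4) (nat_lit 5) (nat_lit 10) (C.cons (nat_lit 1136) (C.miq (nat_lit 1984431523) (nat_lit 407415251420348500961395753)) (C.cons (nat_lit 1072) (C.node (nat_lit 5) (nat_lit 7) (nat_lit 8) (C.cons (nat_lit 928) (C.miq (nat_lit 609684361) (nat_lit 212782842986735905861013249)) (C.cons (nat_lit 416) (C.node (nat_lit 1) (nat_lit 8) (nat_lit 10) (C.cons (nat_lit 1346) (C.node (nat_lit 1) (nat_lit 8) (nat_lit 9) (C.cons (nat_lit 802) (C.miq (nat_lit 414422336) (nat_lit 2795046142821926235237319217)) (C.cons (nat_lit 770) (C.node (nat_lit 1) (nat_lit 10) (nat_lit 11) (C.cons (nat_lit 3082) (C.miq (nat_lit 2443641778) (nat_lit 1415664033065882956360583197)) (C.cons (nat_lit 3074) (C.node (nat_lit 1) (nat_lit 3)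 (nat_lit 10) (C.cons (nat_lit 1038) (C.miq (nat_lit 880877674) (nat_lit 331264822879381878504293445)) (C.cons (nat_lit 1034) (C.node (nat_lit 1) (nat_lit 3) (nat_lit 4) (C.cons (nat_lit 122) (C.miq (nat_lit 1368933131) (nat_lit 930916267879668023067478045)) (C.cons (nat_lit 90) (C.miq (nat_lit 998654113) (nat_lit 2862738001639048543249499283)) (C.cons (nat_lit 58) (C.miq (nat_lit 1368933131) (nat_lit 930916267861653624557996061)) (C.cons (nat_lit 26)
  (C.node (nat_lit 3) (nat_lit 4) (nat_lit 5) (C.cons (nat_lit 120) (C.miq (nat_lit 3091597877) (nat_lit 407449931740560559877653545)) (C.cons (nat_lit 56) (C.node (nat_lit 2) (nat_lit 3) (nat_lit 8) (C.cons (nat_lit 844) (C.miq (nat_lit 1949436553) (nat_lit 2510950825819125136946368257)) (C.cons (nat_lit 780) (C.miq (nat_lit 1949436553) (nat_lit 2510950825819125136942173953)) (C.cons (nat_lit 332) (C.miq (nat_lit 406103584) (nat_lit 1576460870293653502419600453)) (C.cons (nat_lit 268) (C.node (nat_lit 2) (nat_lit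 8) (nat_lit 9) (C.cons (nat_lit 836) (C.miq (nat_lit 1904806498) (nat_lit 930884779582804985993495621)) (C.cons (nat_lit 788) (C.miq (nat_lit 659853496) (nat_lit 212785480468065940468141825)) (C.cons (nat_lit 772) (C.node (nat_lit 3) (nat_lit 10) (nat_lit 11) C.nil) C.nil)))) C.nil))))) C.nil))) C.nil))))) C.nil))) C.nil))) C.nil))) (C.cons (nat_lit 1282) (C.node (nat_lit 6) (nat_lit 8) (nat_lit 10) (C.cons (nat_lit 1344) (C.node (nat_lit 4) (nat_lit 6) (nat_lit 10) (C.cons (nat_lit 1616) (C.node (nat_lit 7) (nat_lit 9) (nat_lit 10) (C.cons (nat_lit 1672) (C.miq (nat_lit 2517083267) (nat_lit 2747919231395008366271595800)) (C.cons (nat_lit 1664) (C.node (nat_lit 3) (nat_lit 7) (nat_lit 10) (C.cons (nat_lit 1224) (C.node (nat_lit 3) (nat_lit 10) (nat_lit 11) (C.cons (nat_lit 3082) (C.miq (nat_lit 444152608) (nat_lit 2011662212353413136146303005)) C.nil)) C.nil)) C.nil))) (C.cons (nat_lit 1104) (C.node (nat_lit 4) (nat_lit 9) (nat_lit 10) (C.cons (nat_lit 1552)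 (C.node (nat_lit 1) (nat_lit 2) (nat_lit 10) (C.cons (nat_lit 1030) (C.node (nat_lit 2) (nat_lit 3) (nat_lit 10) (C.cons (nat_lit 1036) (C.node (nat_lit 2) (nat_lit 9) (nat_lit 10) C.nil) C.nil)) C.nil)) C.nil)) C.nil))) C.nil)) C.nil))) C.nil))) C.nil))) C.nil))) (C.cons (nat_lit 1284) (C.node (nat_lit 2) (nat_lit 4) (nat_lit 7) (C.cons (nat_lit 404) (C.node (nat_lit 4) (nat_lit 8) (nat_lit 9) (C.cons (nat_lit 784) (C.node (nat_lit 5) (nat_lit 7) (nat_lit 8) (C.cons (nat_lit 928) (C.miq (nat_lit 609684361) (nat_lit 212782842986735905861013249)) (C.cons (nat_lit 416) (C.node (nat_lit 2) (nat_lit 4) (nat_lit 10) (C.cons (nat_lit 1556) (C.miq (nat_lit 1916996008) (nat_lit 2510946177091563806751461121)) (C.cons (nat_lit 1076) (C.miq (nat_lit 1383113859) (nat_lit 779776799736743128491164952)) (C.cons (nat_lit 1044) (C.node (nat_lit 4) (nat_lit 5) (nat_lit 10) (C.cons (nat_lit 1136) (C.miq (nat_lit 1686592048) (nat_lit 488447960893350902598534185)) (C.cons (nat_lit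 1072) (C.node (nat_lit 3) (nat_lit 4) (nat_lit 7) (C.cons (nat_lit 728) (C.miq (nat_lit 2541827104) (nat_lit 2942535092794073479559710749)) (C.cons (nat_lit 664) (C.miq (nat_lit 2541827104) (nat_lit 2942535092776059081050228765)) (C.cons (nat_lit 216) (C.miq (nat_lit 1803776164) (nat_lit 2795040480085551692301993107)) (C.cons (nat_lit 152) (C.node (nat_lit 3) (nat_lit 4) (nat_lit 9) (C.cons (nat_lit 600) (C.node (nat_lit 4) (nat_lit 6) (nat_lit 7) (C.cons (nat_lit 208) (C.node (nat_lit 4) (nat_lit 6) (nat_lit 10) C.nil) C.nil)) (C.cons (nat_lit 536) (C.node (nat_lit 4) (nat_lit 6) (nat_lit 7) (C.cons (nat_lit 720) (C.node (nat_lit 4) (nat_lit 6) (nat_lit 10) C.nil) (C.cons (nat_lit 208) (C.node (nat_lit 4) (nat_lit 7) (nat_lit 9) C.nil) C.nil))) C.nil))) C.nil))))) C.nil))) C.nil)))) C.nil))) C.nil)) (C.cons (nat_lit 212) (C.miq (nat_lit 1218601143) (nat_lit 1552264663189801051078527201)) (C.cons (nat_lit 148) (C.node (nat_lit 2) (nat_lit 4) (nat_lit 8)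 (C.cons (nat_lit 788) (C.miq (nat_lit 1411889296) (nat_lit 178962951414277189367303937)) (C.cons (nat_lit 276) (C.node (nat_lit 4) (nat_lit 7) (nat_lit 8) (C.cons (nat_lit 912) (C.node (nat_lit 3) (nat_lit 4) (nat_lit 7) (C.cons (nat_lit 216) (C.miq (nat_lit 1803776164) (nat_lit 2795040480085551692301993107)) (C.cons (nat_lit 152) (C.node (nat_lit 4) (nat_lit 6) (nat_lit 7) (C.cons (nat_lit 208) (C.node (nat_lit 3) (nat_lit 4) (nat_lit 9) (C.cons (nat_lit 600) (C.node (nat_lit 4) (nat_lit 6) (nat_lit 10) (C.cons (nat_lit 1136)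
  (C.miq (nat_lit 1686592048) (nat_lit 1102582277257582523349271593)) (C.cons (nat_lit 1104) (C.node (nat_lit 4) (nat_lit 9) (nat_lit 10) (C.cons (nat_lit 1556) (C.miq (nat_lit 607623808) (nat_lit 183768623169331841641025281)) (C.cons (nat_lit 1552) (C.node (nat_lit 5) (nat_lit 7) (nat_lit 8) C.nil) C.nil))) C.nil))) (C.cons (nat_lit 536) (C.node (nat_lit 5) (nat_lit 7) (nat_lit 8) (C.cons (nat_lit 420) (C.node (nat_lit 6) (nat_lit 7) (nat_lit 8) C.nil) (C.cons (nat_lit 416) (C.node (nat_lit 2) (nat_lit 7) (nat_lit 8) C.nil) C.nil))) C.nil))) C.nil)) C.nil))) (C.cons (nat_lit 400) (C.node (nat_lit 4) (nat_lit 8) (nat_lit 9) (C.cons (nat_lit 784) (C.node (nat_lit 2) (nat_lit 4) (nat_lit 10) (C.cons (nat_lit 1556) (C.miq (nat_lit 1916996008) (nat_lit 2510946177091563806751461121)) (C.cons (nat_lit 1076) (C.node (nat_lit 4) (nat_lit 6) (nat_lit 10) (C.cons (nat_lit 1616) (C.node (nat_lit 2) (nat_lit 4) (nat_lit 6) (C.cons (nat_lit 86) (C.miq (nat_lit 2484643360)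 (nat_lit 331316528973259444006093893)) (C.cons (nat_lit 84) (C.node (nat_lit 4) (nat_lit 6) (nat_lit 7) (C.cons (nat_lit 216) (C.miq (nat_lit 1803776164) (nat_lit 2795040480085551692301993107)) C.nil)) C.nil))) (C.cons (nat_lit 1104) (C.node (nat_lit 4) (nat_lit 9) (nat_lit 10) (C.cons (nat_lit 1552) (C.node (nat_lit 1) (nat_lit 3) (nat_lit 4) (C.cons (nat_lit 122) (C.miq (nat_lit 3091597877) (nat_lit 407449931740560559877784617)) C.nil)) C.nil)) C.nil))) (C.cons (nat_lit 1044) (C.node (nat_lit 4) (nat_lit 5) (nat_lit 10) (C.cons (nat_lit 1136) (C.miq (nat_lit 1686592048) (nat_lit 483612257614892385899709481)) (C.cons (nat_lit 1072) (C.node (nat_lit 4) (nat_lit 6) (nat_lit 10) (C.cons (nat_lit 1616) (C.node (nat_lit 2) (nat_lit 4) (nat_lit 9) C.nil) (C.cons (nat_lit 1104) (C.node (nat_lit 4) (nat_lit 9) (nat_lit 10) C.nil) C.nil))) C.nil))) C.nil)))) C.nil)) C.nil))) C.nil))) C.nil)))) C.nil))) C.nil)))) C.nil))) C.nil)))) (C.cons (nat_lit 1300) (C.miq (nat_lit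 1797785508) (nat_lit 2790207008863123358564484243)) (C.cons (nat_lit 1296) (C.node (nat_lit 3) (nat_lit 4) (nat_lit 8) (C.cons (nat_lit 792) (C.node (nat_lit 3) (nat_lit 4) (nat_lit 7) (C.cons (nat_lit 216) (C.miq (nat_lit 2474345568) (nat_lit 2640364844205266345362784593)) (C.cons (nat_lit 184) (C.miq (nat_lit 2489025392) (nat_lit 2843464381900523909274468745)) (C.cons (nat_lit 152) (C.node (nat_lit 4) (nat_lit 5) (nat_lit 7) (C.cons (nat_lit 180) (C.miq (nat_lit 696545461) (nat_lit 957472569730287431188482273)) (C.cons (nat_lit 176) (C.node (nat_lit 7) (nat_lit 8) (nat_lit 9) (C.cons (nat_lit 960) (C.miq (nat_lit 997802088) (nat_lit 3249607213530062888726692177)) (C.cons (nat_lit 928) (C.miq (nat_lit 609684361) (nat_lit 212782842986735905861013249)) (C.cons (nat_lit 896) (C.node (nat_lit 3) (nat_lit 4) (nat_lit 5) (C.cons (nat_lit 122) (C.miq (nat_lit 1803767956) (nat_lit 2795038746091608763570586161)) (C.cons (nat_lit 120) (C.miq (nat_lit 1803767956)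 (nat_lit 2795038709198120616151482929)) (C.cons (nat_lit 58) (C.miq (nat_lit 280312196) (nat_lit 2747889458042436299204330264)) (C.cons (nat_lit 56) (C.node (nat_lit 1) (nat_lit 3) (nat_lit 4) (C.cons (nat_lit 90) (C.node (nat_lit 3) (nat_lit 4) (nat_lit 10) (C.cons (nat_lit 1048) (C.node (nat_lit 4) (nat_lit 6) (nat_lit 11) (C.cons (nat_lit 2640) (C.miq (nat_lit 1681373568) (nat_lit 183798654773800516522151681)) (C.cons (nat_lit 2128) (C.node (nat_lit 3) (nat_lit 9) (nat_lit 11) (C.cons (nat_lit 2632) (C.miq (nat_lit 2875459889) (nat_lit 2572615746358397887565136395)) (C.cons (nat_lit 2600) (C.miq (nat_lit 1397143936) (nat_lit 108845253946434508618272513)) (C.cons (nat_lit 2568) (C.node (nat_lit 1) (nat_lit 3) (nat_lit 7) (C.cons (nat_lit 174) (C.miq (nat_lit 2591099683) (nat_lit 1415661783497040460308678685)) (C.cons (nat_lit 170) (C.miq (nat_lit 363557640) (nat_lit 3752550643506739687769309577)) (C.cons (nat_lit 142) (C.miq (nat_lit 2591099683) (nat_lit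 1415661783497040460306581533)) (C.cons (nat_lit 138) (C.node (nat_lit 1) (nat_lit 8) (nat_lit 9)
  (C.cons (nat_lit 866) (C.miq (nat_lit 323326136) (nat_lit 67715820926007399876136705)) (C.cons (nat_lit 834) (C.miq (nat_lit 3105032292) (nat_lit 632306518627041120664289617)) (C.cons (nat_lit 802) (C.miq (nat_lit 323326136) (nat_lit 67714640334386682464833281)) (C.cons (nat_lit 770) (C.node (nat_lit 1) (nat_lit 4) (nat_lit 5) (C.cons (nat_lit 54) (C.node (nat_lit 2) (nat_lit 4) (nat_lit 10) (C.cons (nat_lit 1556) (C.miq (nat_lit 1917172368) (nat_lit 65323924610322025631780609)) C.nil)) (C.cons (nat_lit 50) (C.node (nat_lit 1) (nat_lit 2) (nat_lit 4) C.nil) C.nil))) C.nil))))) C.nil))))) C.nil)))) C.nil))) C.nil)) (C.cons (nat_lit 26) (C.node (nat_lit 2) (nat_lit 4) (nat_lit 8) (C.cons (nat_lit 404) (C.node (nat_lit 6) (nat_lit 7) (nat_lit 8) (C.cons (nat_lit 1472) (C.miq (nat_lit 1680310458) (nat_lit 488433184826452675049819905)) (C.cons (nat_lit 448) (C.node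 (nat_lit 3) (nat_lit 4) (nat_lit 6) (C.cons (nat_lit 1112) (C.node (nat_lit 3) (nat_lit 10) (nat_lit 11) (C.cons (nat_lit 3082) (C.miq (nat_lit 2443641778) (nat_lit 1415664033065882956360583197)) (C.cons (nat_lit 3080) (C.node (nat_lit 4) (nat_lit 9) (nat_lit 10) (C.cons (nat_lit 1556) (C.miq (nat_lit 1461980073) (nat_lit 488416380387541920880267009)) (C.cons (nat_lit 1552) (C.node (nat_lit 1) (nat_lit 3) (nat_lit 10) (C.cons (nat_lit 1290) (C.miq (nat_lit 951427440) (nat_lit 2843413173879159493637506195)) (C.cons (nat_lit 1038) (C.miq (nat_lit 2217805474) (nat_lit 31436922898533587377587269)) (C.cons (nat_lit 1034) (C.node (nat_lit 4) (nat_lit 6) (nat_lit 11) (C.cons (nat_lit 2642) (C.miq (nat_lit 1681373568) (nat_lit 183798654774363466475572993)) (C.cons (nat_lit 2640) (C.miq (nat_lit 1681373568) (nat_lit 183798654773800516522151681)) (C.cons (nat_lit 2130) (C.node (nat_lit 4) (nat_lit 9) (nat_lit 11) C.nil) C.nil)))) C.nil)))) C.nil))) C.nil))) (C.cons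 (nat_lit 88) (C.node (nat_lit 3) (nat_lit 4) (nat_lit 10) (C.cons (nat_lit 1048) (C.node (nat_lit 4) (nat_lit 6) (nat_lit 7) (C.cons (nat_lit 720) (C.node (nat_lit 5) (nat_lit 7) (nat_lit 8) C.nil) (C.cons (nat_lit 208) (C.node (nat_lit 4) (nat_lit 7) (nat_lit 9) (C.cons (nat_lit 656) (C.node (nat_lit 2) (nat_lit 4) (nat_lit 10) C.nil) C.nil)) C.nil))) C.nil)) C.nil))) C.nil))) (C.cons (nat_lit 276) (C.node (nat_lit 4) (nat_lit 7) (nat_lit 8) (C.cons (nat_lit 400) (C.node (nat_lit 2) (nat_lit 4) (nat_lit 7) (C.cons (nat_lit 212) (C.miq (nat_lit 2722674528) (nat_lit 333734381059471506542758113)) (C.cons (nat_lit 148) (C.node (nat_lit 3) (nat_lit 4) (nat_lit 6) (C.cons (nat_lit 1112) (C.node (nat_lit 4) (nat_lit 5) (nat_lit 10) (C.cons (nat_lit 1072) (C.node (nat_lit 2) (nat_lit 4) (nat_lit 10) C.nil) C.nil)) (C.cons (nat_lit 88) (C.node (nat_lit 3) (nat_lit 4) (nat_lit 10) C.nil) C.nil))) C.nil))) C.nil)) C.nil))) C.nil))) C.nil))))) C.nil)))) C.nil))) C.nil))))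 (C.cons (nat_lit 280) (C.node (nat_lit 2) (nat_lit 4) (nat_lit 8) (C.cons (nat_lit 788) (C.miq (nat_lit 683119696) (nat_lit 2942537343313747337455665713)) (C.cons (nat_lit 404) (C.node (nat_lit 4) (nat_lit 8) (nat_lit 9) (C.cons (nat_lit 784) (C.node (nat_lit 4) (nat_lit 5) (nat_lit 7) (C.cons (nat_lit 184) (C.node (nat_lit 2) (nat_lit 4) (nat_lit 10) (C.cons (nat_lit 1556) (C.miq (nat_lit 1461980073) (nat_lit 488416380387541920880267009)) (C.cons (nat_lit 1076) (C.miq (nat_lit 2191553619) (nat_lit 1321363170522931167853347000)) (C.cons (nat_lit 1044) (C.node (nat_lit 5) (nat_lit 7) (nat_lit 8) (C.cons (nat_lit 1440) (C.miq (nat_lit 998588583) (nat_lit 2843396922519157405158212755)) (C.cons (nat_lit 928) (C.miq (nat_lit 609684361) (nat_lit 222454249543652939258662657)) (C.cons (nat_lit 416) (C.node (nat_lit 5) (nat_lit 7) (nat_lit 10) (C.cons (nat_lit 1696) (C.miq (nat_lit 659864208) (nat_lit 222480665598385972566888193)) (C.cons (nat_lit 1184) (C.node (nat_lit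 7) (nat_lit 8) (nat_lit 10) (C.cons (nat_lit 1472) (C.miq (nat_lit 1680310458) (nat_lit 488433184826452675049819905)) (C.cons (nat_lit 1408) (C.node (nat_lit 2) (nat_lit 4) (nat_lit 5)
  (C.cons (nat_lit 118) (C.miq (nat_lit 2217391456) (nat_lit 1262189410283689628882241761)) (C.cons (nat_lit 116) (C.miq (nat_lit 2217391456) (nat_lit 1262189410283689620292307169)) (C.cons (nat_lit 54) (C.miq (nat_lit 410329140) (nat_lit 502914137157895323802667037)) (C.cons (nat_lit 52) (C.node (nat_lit 1) (nat_lit 3) (nat_lit 4) (C.cons (nat_lit 90) (C.node (nat_lit 1) (nat_lit 4) (nat_lit 5) (C.cons (nat_lit 50) (C.node (nat_lit 1) (nat_lit 2) (nat_lit 4) (C.cons (nat_lit 534) (C.miq (nat_lit 344167024) (nat_lit 338508877289556091769258629)) C.nil)) C.nil)) (C.cons (nat_lit 26) (C.node (nat_lit 1) (nat_lit 4) (nat_lit 5) (C.cons (nat_lit 114) (C.node (nat_lit 4) (nat_lit 5) (nat_lit 10) C.nil) (C.cons (nat_lit 50) (C.node (nat_lit 4) (nat_lit 5) (nat_lit 6) C.nil) C.nil)))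 C.nil))) C.nil))))) C.nil))) C.nil))) C.nil)))) C.nil)))) (C.cons (nat_lit 176) (C.node (nat_lit 2) (nat_lit 4) (nat_lit 10) (C.cons (nat_lit 1556) (C.miq (nat_lit 1461980073) (nat_lit 488416380387541920880267009)) (C.cons (nat_lit 1076) (C.node (nat_lit 2) (nat_lit 8) (nat_lit 10) (C.cons (nat_lit 1292) (C.miq (nat_lit 1384359024) (nat_lit 1561951805027408204526060691)) (C.cons (nat_lit 1284) (C.node (nat_lit 5) (nat_lit 7) (nat_lit 8) (C.cons (nat_lit 1440) (C.node (nat_lit 6) (nat_lit 7) (nat_lit 8) (C.cons (nat_lit 960) (C.node (nat_lit 1) (nat_lit 8) (nat_lit 9) (C.cons (nat_lit 802) (C.miq (nat_lit 414422336) (nat_lit 2795046142821926235237319217)) (C.cons (nat_lit 770) (C.node (nat_lit 2) (nat_lit 8) (nat_lit 9) (C.cons (nat_lit 812) (C.miq (nat_lit 2022785584) (nat_lit 930894482354294156547524637)) (C.cons (nat_lit 804) (C.miq (nat_lit 897714804) (nat_lit 972014673157379986178704531)) (C.cons (nat_lit 780) (C.miq (nat_lit 2022785584) (nat_lit 930894482354294019108571165))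 C.nil)))) C.nil))) (C.cons (nat_lit 448) (C.node (nat_lit 7) (nat_lit 8) (nat_lit 9) C.nil) C.nil))) (C.cons (nat_lit 928) (C.miq (nat_lit 609684361) (nat_lit 212782842986735905861013249)) (C.cons (nat_lit 416) (C.node (nat_lit 2) (nat_lit 3) (nat_lit 8) (C.cons (nat_lit 876) (C.miq (nat_lit 2440572994) (nat_lit 2942541604437032423054903325)) (C.cons (nat_lit 844) (C.miq (nat_lit 2440572994) (nat_lit 2942541014141222064349251613)) (C.cons (nat_lit 812) (C.miq (nat_lit 2440572994) (nat_lit 2942540423845411705643599901)) (C.cons (nat_lit 780) (C.miq (nat_lit 2440572994) (nat_lit 2942539833549601346937948189)) (C.cons (nat_lit 364) (C.miq (nat_lit 2777104944) (nat_lit 502934742399864688897230877)) (C.cons (nat_lit 332) (C.miq (nat_lit 1384359024) (nat_lit 401383018197364196808131731)) (C.cons (nat_lit 300) (C.miq (nat_lit 2777104944) (nat_lit 502934742399864414019323933)) (C.cons (nat_lit 268) (C.miq (nat_lit 1384359024) (nat_lit 324011765742027929626936467))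 C.nil))))))))) C.nil)))) C.nil))) (C.cons (nat_lit 1044) (C.node (nat_lit 4) (nat_lit 5) (nat_lit 10) (C.cons (nat_lit 1136) (C.node (nat_lit 2) (nat_lit 4) (nat_lit 5) (C.cons (nat_lit 54) (C.node (nat_lit 3) (nat_lit 4) (nat_lit 5) (C.cons (nat_lit 56) (C.node (nat_lit 2) (nat_lit 5) (nat_lit 11) (C.cons (nat_lit 2596) (C.miq (nat_lit 1918151568) (nat_lit 65303596298357264471887617)) (C.cons (nat_lit 2084) (C.node (nat_lit 1) (nat_lit 5) (nat_lit 10) (C.cons (nat_lit 1570) (C.miq (nat_lit 2502664512) (nat_lit 2519472262462790263975511187)) (C.cons (nat_lit 1314) (C.miq (nat_lit 2234229056) (nat_lit 2519472262390732669937583251)) (C.cons (nat_lit 1058) (C.node (nat_lit 1) (nat_lit 2) (nat_lit 7) (C.cons (nat_lit 206) (C.miq (nat_lit 2819754870) (nat_lit 317967653931075876997171425)) (C.cons (nat_lit 198) (C.miq (nat_lit 2819754870) (nat_lit 317967653931075876996647137)) (C.cons (nat_lit 142) (C.miq (nat_lit 2591099683) (nat_lit 1415661783497040460306581533))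 (C.cons (nat_lit 134) (C.node (nat_lit 1) (nat_lit 3) (nat_lit 4) (C.cons (nat_lit 90) (C.node (nat_lit 1) (nat_lit 4) (nat_lit 11) (C.cons (nat_lit 2578) (C.node (nat_lit 4) (nat_lit 6) (nat_lit 11) C.nil) C.nil)) (C.cons (nat_lit 26)
  (C.node (nat_lit 1) (nat_lit 5) (nat_lit 11) C.nil) C.nil))) C.nil))))) C.nil)))) C.nil))) C.nil)) (C.cons (nat_lit 52) (C.node (nat_lit 1) (nat_lit 4) (nat_lit 5) (C.cons (nat_lit 58) (C.node (nat_lit 1) (nat_lit 8) (nat_lit 9) (C.cons (nat_lit 866) (C.miq (nat_lit 414422336) (nat_lit 2795046142839940633746801201)) (C.cons (nat_lit 834) (C.miq (nat_lit 1368933131) (nat_lit 1008287520316989891739191325)) (C.cons (nat_lit 802) (C.miq (nat_lit 414422336) (nat_lit 2795046142821926235237319217)) (C.cons (nat_lit 770) (C.miq (nat_lit 1368933131) (nat_lit 930916267861653624557996061)) C.nil))))) (C.cons (nat_lit 50) (C.node (nat_lit 3) (nat_lit 4) (nat_lit 5) (C.cons (nat_lit 56) (C.node (nat_lit 1) (nat_lit 3) (nat_lit 4) (C.cons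 (nat_lit 26) (C.node (nat_lit 3) (nat_lit 4) (nat_lit 10) C.nil) C.nil)) C.nil)) C.nil))) C.nil))) (C.cons (nat_lit 1072) (C.node (nat_lit 5) (nat_lit 7) (nat_lit 8) (C.cons (nat_lit 1440) (C.node (nat_lit 2) (nat_lit 5) (nat_lit 8) (C.cons (nat_lit 876) (C.miq (nat_lit 2440572994) (nat_lit 2942541604437032423054903325)) (C.cons (nat_lit 868) (C.miq (nat_lit 897714804) (nat_lit 1049385925612716253359899795)) (C.cons (nat_lit 812) (C.miq (nat_lit 2440572994) (nat_lit 2942540423845411705643599901)) (C.cons (nat_lit 804) (C.miq (nat_lit 897714804) (nat_lit 972014673157379986178704531)) (C.cons (nat_lit 364) (C.miq (nat_lit 614805624) (nat_lit 1295975193826353861690917257)) (C.cons (nat_lit 356) (C.miq (nat_lit 897714804) (nat_lit 430415905970026115910337683)) (C.cons (nat_lit 300) (C.miq (nat_lit 614805624) (nat_lit 1295974013234733144279613833)) (C.cons (nat_lit 292) (C.miq (nat_lit 897714804) (nat_lit 353044653514689848729142419)) C.nil))))))))) (C.cons (nat_lit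 928) (C.miq (nat_lit 609684361) (nat_lit 212782842986735905861013249)) (C.cons (nat_lit 416) (C.node (nat_lit 5) (nat_lit 7) (nat_lit 10) (C.cons (nat_lit 1696) (C.miq (nat_lit 659864208) (nat_lit 212809259041468939169238785)) (C.cons (nat_lit 1184) (C.node (nat_lit 7) (nat_lit 8) (nat_lit 10) (C.cons (nat_lit 1472) (C.miq (nat_lit 1680310458) (nat_lit 488433184826452675049819905)) (C.cons (nat_lit 1408) (C.node (nat_lit 6) (nat_lit 7) (nat_lit 8) (C.cons (nat_lit 960) (C.node (nat_lit 1) (nat_lit 8) (nat_lit 9) (C.cons (nat_lit 802) (C.miq (nat_lit 414422336) (nat_lit 2795046142821926235237319217)) C.nil)) (C.cons (nat_lit 448) (C.node (nat_lit 7) (nat_lit 8) (nat_lit 9) C.nil) C.nil))) C.nil))) C.nil))) C.nil)))) C.nil))) C.nil)))) C.nil))) C.nil)) (C.cons (nat_lit 276) (C.node (nat_lit 2) (nat_lit 4) (nat_lit 7) (C.cons (nat_lit 212) (C.miq (nat_lit 2722674528) (nat_lit 333734381059471506542758113)) (C.cons (nat_lit 180) (C.miq (nat_lit 2554465111) (nat_lit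 333675425444720682200205537)) (C.cons (nat_lit 148) (C.node (nat_lit 4) (nat_lit 5) (nat_lit 7) (C.cons (nat_lit 184) (C.node (nat_lit 4) (nat_lit 7) (nat_lit 8) (C.cons (nat_lit 912) (C.miq (nat_lit 2839873651) (nat_lit 678227031667394770250498441)) (C.cons (nat_lit 400) (C.node (nat_lit 4) (nat_lit 8) (nat_lit 9) (C.cons (nat_lit 784) (C.node (nat_lit 5) (nat_lit 7) (nat_lit 10) (C.cons (nat_lit 1696) (C.miq (nat_lit 659864208) (nat_lit 222480665598385972566888193)) (C.cons (nat_lit 1440) (C.miq (nat_lit 998588583) (nat_lit 2843396922519157405158212755)) (C.cons (nat_lit 1184) (C.node (nat_lit 7) (nat_lit 8) (nat_lit 10) (C.cons (nat_lit 1472) (C.miq (nat_lit 1680310458) (nat_lit 178948175005107606325038849)) (C.cons (nat_lit 1408) (C.node (nat_lit 1) (nat_lit 3) (nat_lit 4) (C.cons (nat_lit 90) (C.node (nat_lit 1) (nat_lit 3) (nat_lit 7) (C.cons (nat_lit 142) (C.miq (nat_lit 2591099683) (nat_lit 1415661783497040460306581533)) (C.cons (nat_lit 138) (C.node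 (nat_lit 1) (nat_lit 4) (nat_lit 5) (C.cons (nat_lit 54) (C.miq (nat_lit 1367818755) (nat_lit 2942528839158117752136861725)) (C.cons (nat_lit 50) (C.node (nat_lit 1) (nat_lit 2) (nat_lit 4) C.nil) C.nil))) C.nil))) (C.cons (nat_lit 26) (C.node (nat_lit 4) (nat_lit 6) (nat_lit 7) (C.cons (nat_lit 720)
  (C.node (nat_lit 3) (nat_lit 4) (nat_lit 6) C.nil) (C.cons (nat_lit 208) (C.node (nat_lit 4) (nat_lit 7) (nat_lit 9) C.nil) C.nil))) C.nil))) C.nil))) C.nil)))) C.nil)) C.nil))) (C.cons (nat_lit 176) (C.node (nat_lit 4) (nat_lit 7) (nat_lit 8) (C.cons (nat_lit 912) (C.node (nat_lit 3) (nat_lit 4) (nat_lit 7) (C.cons (nat_lit 216) (C.node (nat_lit 3) (nat_lit 7) (nat_lit 10) (C.cons (nat_lit 1672) (C.miq (nat_lit 1621313687) (nat_lit 1287509982481173556555678608)) (C.cons (nat_lit 1160) (C.node (nat_lit 1) (nat_lit 3) (nat_lit 7) (C.cons (nat_lit 174) (C.miq (nat_lit 1729643296) (nat_lit 2942531661555559593664776221)) (C.cons (nat_lit 170) (C.miq (nat_lit 363557640)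 (nat_lit 3752550643506739687769309577)) (C.cons (nat_lit 142) (C.miq (nat_lit 1729643296) (nat_lit 2942531661555559456225822749)) (C.cons (nat_lit 138) (C.node (nat_lit 1) (nat_lit 3) (nat_lit 4) (C.cons (nat_lit 58) (C.node (nat_lit 1) (nat_lit 8) (nat_lit 9) (C.cons (nat_lit 866) (C.miq (nat_lit 414422336) (nat_lit 2795046142839940633746801201)) (C.cons (nat_lit 834) (C.miq (nat_lit 1368933131) (nat_lit 1008287520316989891739191325)) (C.cons (nat_lit 802) (C.miq (nat_lit 414422336) (nat_lit 2795046142821926235237319217)) (C.cons (nat_lit 770) (C.miq (nat_lit 1368933131) (nat_lit 930916267861653624557996061)) C.nil))))) (C.cons (nat_lit 26) (C.node (nat_lit 3) (nat_lit 4) (nat_lit 5) (C.cons (nat_lit 56) (C.node (nat_lit 2) (nat_lit 3) (nat_lit 7) (C.cons (nat_lit 172) (C.node (nat_lit 3) (nat_lit 7) (nat_lit 9) (C.cons (nat_lit 648) (C.node (nat_lit 3) (nat_lit 4) (nat_lit 9) C.nil) C.nil)) (C.cons (nat_lit 140) (C.node (nat_lit 3) (nat_lit 4) (nat_lit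 9) (C.cons (nat_lit 1560) (C.node (nat_lit 3) (nat_lit 5) (nat_lit 7) C.nil) (C.cons (nat_lit 536) (C.node (nat_lit 3) (nat_lit 4) (nat_lit 10) (C.cons (nat_lit 1048) (C.node (nat_lit 3) (nat_lit 5) (nat_lit 7) C.nil) C.nil)) C.nil))) C.nil))) C.nil)) C.nil))) C.nil))))) C.nil))) (C.cons (nat_lit 152) (C.node (nat_lit 4) (nat_lit 6) (nat_lit 7) (C.cons (nat_lit 208) (C.node (nat_lit 2) (nat_lit 4) (nat_lit 10) (C.cons (nat_lit 1556) (C.miq (nat_lit 1461980073) (nat_lit 178931370566196852155485953)) (C.cons (nat_lit 1076) (C.node (nat_lit 2) (nat_lit 8) (nat_lit 10) (C.cons (nat_lit 1292) (C.node (nat_lit 5) (nat_lit 7) (nat_lit 10) (C.cons (nat_lit 1696) (C.miq (nat_lit 659864208) (nat_lit 212809259041468939169238785)) (C.cons (nat_lit 1440) (C.miq (nat_lit 1379443719) (nat_lit 1561958722556443031088202899)) (C.cons (nat_lit 1184) (C.node (nat_lit 7) (nat_lit 8) (nat_lit 10) (C.cons (nat_lit 1472) (C.miq (nat_lit 660912768) (nat_lit 251494885269136110672482049))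 (C.cons (nat_lit 1408) (C.node (nat_lit 6) (nat_lit 7) (nat_lit 8) (C.cons (nat_lit 452) (C.miq (nat_lit 1655011376) (nat_lit 1300846111481852772435427721)) C.nil)) C.nil))) C.nil)))) (C.cons (nat_lit 1284) (C.node (nat_lit 5) (nat_lit 7) (nat_lit 10) (C.cons (nat_lit 1696) (C.miq (nat_lit 659864208) (nat_lit 212809259041468939169238785)) (C.cons (nat_lit 1440) (C.node (nat_lit 2) (nat_lit 3) (nat_lit 8) (C.cons (nat_lit 876) (C.miq (nat_lit 2760247186) (nat_lit 407428163831013711211659909)) (C.cons (nat_lit 844) (C.miq (nat_lit 1379443719) (nat_lit 1020359955369089160819836051)) (C.cons (nat_lit 812) (C.miq (nat_lit 2761230211) (nat_lit 678227030915856582474203529)) (C.cons (nat_lit 780) (C.miq (nat_lit 1379443719) (nat_lit 942988702913752893638640787)) (C.cons (nat_lit 364) (C.miq (nat_lit 2015667504) (nat_lit 333685127756273496071406633)) (C.cons (nat_lit 332) (C.miq (nat_lit 1379443719) (nat_lit 401389935726399023370273939)) (C.cons (nat_lit 300) (C.miq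 (nat_lit 2015667504) (nat_lit 333685127756273221193499689)) C.nil)))))))) (C.cons (nat_lit 1184) (C.node (nat_lit 7) (nat_lit 8) (nat_lit 10) (C.cons (nat_lit 1472) (C.miq (nat_lit 660912768) (nat_lit 251494885269136110672482049)) (C.cons (nat_lit 1408) (C.node (nat_lit 5) (nat_lit 7) (nat_lit 8) C.nil) C.nil))) C.nil)))) C.nil))) (C.cons (nat_lit 1044) (C.node (nat_lit 4) (nat_lit 5) (nat_lit 10)
  (C.cons (nat_lit 1136) (C.node (nat_lit 2) (nat_lit 4) (nat_lit 5) (C.cons (nat_lit 52) (C.node (nat_lit 1) (nat_lit 4) (nat_lit 5) C.nil) C.nil)) (C.cons (nat_lit 1072) (C.node (nat_lit 2) (nat_lit 4) (nat_lit 5) (C.cons (nat_lit 118) (C.miq (nat_lit 2217391456) (nat_lit 1262189410283689628882241761)) (C.cons (nat_lit 116) (C.miq (nat_lit 2217391456) (nat_lit 1262189410283689620292307169)) (C.cons (nat_lit 54) (C.node (nat_lit 1) (nat_lit 3) (nat_lit 4) C.nil) C.nil)))) C.nil))) C.nil)))) C.nil)) C.nil))) (C.cons (nat_lit 400) (C.node (nat_lit 4) (nat_lit 8)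 (nat_lit 9) (C.cons (nat_lit 784) (C.node (nat_lit 2) (nat_lit 4) (nat_lit 10) (C.cons (nat_lit 1556) (C.miq (nat_lit 1461980073) (nat_lit 178931370566196852155485953)) (C.cons (nat_lit 1076) (C.node (nat_lit 2) (nat_lit 8) (nat_lit 10) (C.cons (nat_lit 1292) (C.node (nat_lit 5) (nat_lit 7) (nat_lit 10) (C.cons (nat_lit 1696) (C.miq (nat_lit 659864208) (nat_lit 212809259041468939169238785)) (C.cons (nat_lit 1440) (C.miq (nat_lit 1379443719) (nat_lit 1561958722556443031088202899)) (C.cons (nat_lit 1184) (C.node (nat_lit 7) (nat_lit 8) (nat_lit 10) (C.cons (nat_lit 1472) (C.miq (nat_lit 1680310458) (nat_lit 178948175005107606325038849)) (C.cons (nat_lit 1408) (C.node (nat_lit 2) (nat_lit 7) (nat_lit 8) C.nil) C.nil))) C.nil)))) (C.cons (nat_lit 1284) (C.node (nat_lit 5) (nat_lit 7) (nat_lit 10) (C.cons (nat_lit 1696) (C.miq (nat_lit 659864208) (nat_lit 212809259041468939169238785)) (C.cons (nat_lit 1440) (C.node (nat_lit 2) (nat_lit 7) (nat_lit 8) C.nil) (C.cons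 (nat_lit 1184) (C.node (nat_lit 7) (nat_lit 8) (nat_lit 10) (C.cons (nat_lit 1472) (C.miq (nat_lit 1680310458) (nat_lit 178948175005107606325038849)) (C.cons (nat_lit 1408) (C.node (nat_lit 2) (nat_lit 7) (nat_lit 8) C.nil) C.nil))) C.nil)))) C.nil))) (C.cons (nat_lit 1044) (C.node (nat_lit 4) (nat_lit 5) (nat_lit 10) (C.cons (nat_lit 1136) (C.node (nat_lit 2) (nat_lit 4) (nat_lit 5) (C.cons (nat_lit 54) (C.node (nat_lit 2) (nat_lit 7) (nat_lit 8) C.nil) (C.cons (nat_lit 52) (C.node (nat_lit 2) (nat_lit 7) (nat_lit 8) C.nil) C.nil))) (C.cons (nat_lit 1072) (C.node (nat_lit 2) (nat_lit 7) (nat_lit 8) C.nil) C.nil))) C.nil)))) C.nil)) C.nil))) C.nil))) C.nil)))) C.nil)))) C.nil))) C.nil)))) C.nil)))) List.nil)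

theorem ok12_294 : okL par12 (nat_lit 295) c12_294 (nat_lit 294) = true := by decide +kernel

noncomputable def c12_295 : List C :=
  (List.cons (C.node (nat_lit 4) (nat_lit 8) (nat_lit 11) (C.cons (nat_lit 2352) (C.node (nat_lit 2) (nat_lit 8) (nat_lit 11) (C.cons (nat_lit 2372) (C.miq (nat_lit 2709653430) (nat_lit 317967653179537689321670881)) (C.cons (nat_lit 2308) (C.node (nat_lit 5) (nat_lit 10) (nat_lit 11) (C.cons (nat_lit 3106) (C.miq (nat_lit 901253655) (nat_lit 2843400777603812977287496851)) (C.cons (nat_lit 3104) (C.node (nat_lit 3) (nat_lit 8) (nat_lit 11) (C.cons (nat_lit 2376) (C.node (nat_lit 3) (nat_lit 9) (nat_lit 11) (C.cons (nat_lit 2600) (C.miq (nat_lit 1670417236) (nat_lit 632274420879999610106480944)) (C.cons (nat_lit 2568) (C.node (nat_lit 3) (nat_lit 10) (nat_lit 11) (C.cons (nat_lit 3082) (C.miq (nat_lit 2443641778) (nat_lit 1415664033065882956360583197)) (C.cons (nat_lit 3080) (C.node (nat_lit 1) (nat_lit 10) (nat_lit 11) (C.cons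 (nat_lit 3138) (C.miq (nat_lit 1661646961) (nat_lit 1287563884441269604298459522)) (C.cons (nat_lit 3074) (C.node (nat_lit 6) (nat_lit 10) (nat_lit 11) (C.cons (nat_lit 3136) (C.node (nat_lit 1) (nat_lit 4) (nat_lit 8) (C.cons (nat_lit 786) (C.miq (nat_lit 1460931465) (nat_lit 1415662484031959190704623361)) (C.cons (nat_lit 282) (C.miq (nat_lit 1746383680) (nat_lit 2942567375060072708967696413)) (C.cons (nat_lit 274) (C.node (nat_lit 3) (nat_lit 4) (nat_lit 8) (C.cons (nat_lit 1304) (C.miq (nat_lit 2067400324) (nat_lit 3723513126190170998971040081)) (C.cons (nat_lit 792) (C.miq (nat_lit 1530463876) (nat_lit 3104531854033595898661437777)) (C.cons (nat_lit 280) (C.node (nat_lit 4) (nat_lit 8) (nat_lit 10) (C.cons (nat_lit 1300) (C.miq (nat_lit 1797785508) (nat_lit 2790207008863123358564484243)) (C.cons (nat_lit 1296) (C.node (nat_lit 1) (nat_lit 3) (nat_lit 7) (C.cons (nat_lit 206) (C.miq (nat_lit 2819754870) (nat_lit 317967653931075876997171425)) (C.cons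 (nat_lit 202) (C.miq (nat_lit 448163971) (nat_lit 3791195096883403676061270409)) (C.cons (nat_lit 174) (C.miq (nat_lit 2591099683) (nat_lit 1415661783497040460308678685)) (C.cons (nat_lit 170) (C.miq (nat_lit 1521561735) (nat_lit 3716241105741649960996307337)) (C.cons (nat_lit 142) (C.miq (nat_lit 2591099683) (nat_lit 1415661783497040460306581533)) (C.cons (nat_lit 138) (C.node (nat_lit 1) (nat_lit 3) (nat_lit 11) (C.cons (nat_lit 2090) (C.node (nat_lit 2) (nat_lit 5) (nat_lit 11) (C.cons (nat_lit 2084) (C.node (nat_lit 5) (nat_lit 9) (nat_lit 11) C.nil) C.nil)) (C.cons (nat_lit 2058) (C.node (nat_lit 3) (nat_lit 5) (nat_lit 11) C.nil) C.nil))) C.nil))))))) C.nil))) C.nil)))) C.nil)))) C.nil)) C.nil))) C.nil))) C.nil))) (C.cons (nat_lit 2312) (C.node (nat_lit 6) (nat_lit 8) (nat_lit 11) (C.cons (nat_lit 2368) (C.ref (nat_lit 294) (nat_lit 205163983024656)) C.nil)) C.nil))) C.nil))) C.nil))) (C.cons (nat_lit 2320) (C.node (nat_lit 4) (nat_lit 5) (nat_lit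 11) (C.cons (nat_lit 2098) (C.node (nat_lit 5) (nat_lit 10) (nat_lit 11) (C.cons (nat_lit 3104) (C.node (nat_lit 1) (nat_lit 4) (nat_lit 8) (C.cons (nat_lit 786) (C.miq (nat_lit 1900394640) (nat_lit 2536368299685885019539181313)) (C.cons (nat_lit 282) (C.miq (nat_lit 1367847984) (nat_lit 2942567374981822665391147037)) (C.cons (nat_lit 274) (C.node (nat_lit 1) (nat_lit 3) (nat_lit 4) (C.cons (nat_lit 90) (C.node (nat_lit 1) (nat_lit 2) (nat_lit 4) (C.cons (nat_lit 534) (C.miq (nat_lit 565679184) (nat_lit 2942537343242251602449465905)) (C.cons (nat_lit 22) (C.node (nat_lit 1) (nat_lit 4) (nat_lit 9) (C.cons (nat_lit 530) (C.node (nat_lit 1) (nat_lit 3) (nat_lit 11) (C.cons (nat_lit 3082) (C.miq (nat_lit 2443641778) (nat_lit 1415664033065882956360583197)) (C.cons (nat_lit 2058) (C.node (nat_lit 3) (nat_lit 8) (nat_lit 11) (C.cons (nat_lit 2376) (C.miq (nat_lit 2872117348) (nat_lit 2487990938985372745824076113)) (C.cons (nat_lit 2344) (C.miq (nat_lit 1483846404)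 (nat_lit 2942564146870853087282792477)) (C.cons (nat_lit 2312) (C.node (nat_lit 6) (nat_lit 8) (nat_lit 11) (C.cons (nat_lit 2372) (C.miq (nat_lit 2709653430) (nat_lit 317967653179537689321670881)) (C.cons (nat_lit 2368)
  (C.node (nat_lit 1) (nat_lit 3) (nat_lit 7) (C.cons (nat_lit 174) (C.miq (nat_lit 2591099683) (nat_lit 1415661783497040460308678685)) (C.cons (nat_lit 170) (C.miq (nat_lit 2870282355) (nat_lit 2536346016415086348713197961)) (C.cons (nat_lit 142) (C.miq (nat_lit 2591099683) (nat_lit 1415661783497040460306581533)) (C.cons (nat_lit 138) (C.node (nat_lit 1) (nat_lit 10) (nat_lit 11) (C.cons (nat_lit 3138) (C.node (nat_lit 3) (nat_lit 10) (nat_lit 11) (C.cons (nat_lit 3080) (C.node (nat_lit 2) (nat_lit 6) (nat_lit 11) (C.cons (nat_lit 2628) (C.miq (nat_lit 462923296) (nat_lit 3249614205144713299629507653)) (C.cons (nat_lit 2116) (C.node (nat_lit 3) (nat_lit 6) (nat_lit 11) (C.cons (nat_lit 2632) (C.miq (nat_lit 2518332224) (nat_lit 3793680076635535993941985309))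 C.nil)) C.nil))) C.nil)) (C.cons (nat_lit 3074) (C.node (nat_lit 1) (nat_lit 6) (nat_lit 10) (C.cons (nat_lit 1634) (C.miq (nat_lit 605686614) (nat_lit 1415672297644635865697356001)) (C.cons (nat_lit 1602) (C.miq (nat_lit 1689916169) (nat_lit 3733192482679322642997117451)) (C.cons (nat_lit 1378) (C.miq (nat_lit 605686614) (nat_lit 1415672297644635865680578785)) (C.cons (nat_lit 1346) (C.miq (nat_lit 998654113) (nat_lit 2862738001639048543249499283)) (C.cons (nat_lit 1122) (C.miq (nat_lit 605686614) (nat_lit 1415672297644635865663801569)) (C.cons (nat_lit 1090) (C.node (nat_lit 1) (nat_lit 2) (nat_lit 3) C.nil) C.nil))))))) C.nil))) C.nil))))) C.nil))) C.nil)))) C.nil))) C.nil)) C.nil))) (C.cons (nat_lit 26) (C.node (nat_lit 4) (nat_lit 6) (nat_lit 11) (C.cons (nat_lit 2640) (C.node (nat_lit 1) (nat_lit 4) (nat_lit 9) (C.cons (nat_lit 534) (C.miq (nat_lit 565679184) (nat_lit 2942537343242251602449465905)) (C.cons (nat_lit 530) (C.node (nat_lit 1) (nat_lit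 2) (nat_lit 4) (C.cons (nat_lit 86) (C.node (nat_lit 2) (nat_lit 6) (nat_lit 11) (C.cons (nat_lit 2372) (C.miq (nat_lit 1919200128) (nat_lit 103989222526024435975130881)) (C.cons (nat_lit 2116) (C.node (nat_lit 4) (nat_lit 6) (nat_lit 7) (C.cons (nat_lit 216) (C.miq (nat_lit 1636254211) (nat_lit 2942529429462935310097254429)) (C.cons (nat_lit 208) (C.node (nat_lit 1) (nat_lit 7) (nat_lit 9) (C.cons (nat_lit 706) (C.miq (nat_lit 2304838466) (nat_lit 853506481222776307219564573)) (C.cons (nat_lit 674) (C.miq (nat_lit 605621079) (nat_lit 640742583130313542768658657)) (C.cons (nat_lit 642) (C.node (nat_lit 2) (nat_lit 4) (nat_lit 9) (C.cons (nat_lit 1556) (C.miq (nat_lit 1253413488) (nat_lit 3752516093145223134332387973)) (C.cons (nat_lit 788) (C.miq (nat_lit 280373396) (nat_lit 2747889974478086869145879316)) (C.cons (nat_lit 532) (C.node (nat_lit 1) (nat_lit 2) (nat_lit 11) (C.cons (nat_lit 2566) (C.node (nat_lit 1) (nat_lit 6) (nat_lit 7) (C.cons (nat_lit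 202) (C.node (nat_lit 1) (nat_lit 3) (nat_lit 11) (C.cons (nat_lit 3082) (C.miq (nat_lit 2443641778) (nat_lit 1415664033065882956360583197)) (C.cons (nat_lit 2058) (C.node (nat_lit 1) (nat_lit 6) (nat_lit 11) (C.cons (nat_lit 3138) (C.miq (nat_lit 2687940721) (nat_lit 88309471795918303807539586)) (C.cons (nat_lit 2114) (C.node (nat_lit 1) (nat_lit 10) (nat_lit 11) C.nil) C.nil))) C.nil))) (C.cons (nat_lit 194) (C.node (nat_lit 1) (nat_lit 3) (nat_lit 7) (C.cons (nat_lit 174) (C.miq (nat_lit 1635271216) (nat_lit 2942531661518967846700910621)) (C.cons (nat_lit 170) (C.miq (nat_lit 2870282355) (nat_lit 2536346016415086348713197961)) (C.cons (nat_lit 142) (C.miq (nat_lit 1635271216) (nat_lit 2942531661518967709261957149)) (C.cons (nat_lit 138) (C.node (nat_lit 1) (nat_lit 2) (nat_lit 7) (C.cons (nat_lit 166) (C.node (nat_lit 2) (nat_lit 5) (nat_lit 11) (C.cons (nat_lit 2340) (C.miq (nat_lit 2820737879) (nat_lit 317969092777113222612650209)) (C.cons (nat_lit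 2084) (C.node (nat_lit 2) (nat_lit 8) (nat_lit 11) (C.cons (nat_lit 2308) (C.node (nat_lit 1) (nat_lit 3) (nat_lit 11) (C.cons (nat_lit 3146) (C.miq (nat_lit 2443641778) (nat_lit 1415664033065883231238490141)) C.nil)) C.nil)) C.nil))) (C.cons (nat_lit 134) (C.node (nat_lit 1) (nat_lit 5) (nat_lit 7) (C.cons (nat_lit 162)
  (C.node (nat_lit 1) (nat_lit 2) (nat_lit 3) C.nil) C.nil)) C.nil))) C.nil))))) C.nil))) (C.cons (nat_lit 2054) (C.node (nat_lit 1) (nat_lit 8) (nat_lit 9) (C.cons (nat_lit 866) (C.miq (nat_lit 2602656776) (nat_lit 2483149609111919016498626897)) (C.cons (nat_lit 834) (C.miq (nat_lit 2602656776) (nat_lit 2483149018816108657792975185)) (C.cons (nat_lit 802) (C.miq (nat_lit 1636385291) (nat_lit 969607206759495169155860509)) (C.cons (nat_lit 770) (C.miq (nat_lit 1636385291) (nat_lit 930921580531827035565262877)) C.nil))))) C.nil))) C.nil)))) C.nil)))) C.nil))) C.nil))) (C.cons (nat_lit 22) (C.node (nat_lit 1) (nat_lit 4) (nat_lit 6) (C.cons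 (nat_lit 82) (C.node (nat_lit 1) (nat_lit 9) (nat_lit 11) (C.cons (nat_lit 2566) (C.node (nat_lit 1) (nat_lit 8) (nat_lit 9) (C.cons (nat_lit 866) (C.miq (nat_lit 610339736) (nat_lit 99136769286725843336433409)) (C.cons (nat_lit 834) (C.miq (nat_lit 610339736) (nat_lit 99136769286725843334336257)) (C.cons (nat_lit 802) (C.miq (nat_lit 1763199776) (nat_lit 969564724626790397652699165)) (C.cons (nat_lit 770) (C.miq (nat_lit 1763199776) (nat_lit 930879098399122264062101533)) C.nil))))) (C.cons (nat_lit 2562) (C.node (nat_lit 2) (nat_lit 9) (nat_lit 11) (C.cons (nat_lit 2596) (C.miq (nat_lit 1537512048) (nat_lit 3733173280324123043243950725)) (C.cons (nat_lit 2564) (C.node (nat_lit 1) (nat_lit 2) (nat_lit 11) (C.cons (nat_lit 2118) (C.node (nat_lit 1) (nat_lit 3) (nat_lit 11) (C.cons (nat_lit 3082) (C.miq (nat_lit 2443641778) (nat_lit 1415664033065882956360583197)) (C.cons (nat_lit 2058) (C.node (nat_lit 1) (nat_lit 10) (nat_lit 11) C.nil) C.nil))) (C.cons (nat_lit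 2054) (C.node (nat_lit 2) (nat_lit 6) (nat_lit 11) (C.cons (nat_lit 2372) (C.miq (nat_lit 2709653430) (nat_lit 317967653179537689321670881)) (C.cons (nat_lit 2116) (C.node (nat_lit 2) (nat_lit 5) (nat_lit 11) (C.cons (nat_lit 2340) (C.node (nat_lit 3) (nat_lit 5) (nat_lit 11) (C.cons (nat_lit 2088) (C.node (nat_lit 3) (nat_lit 9) (nat_lit 11) C.nil) C.nil)) (C.cons (nat_lit 2084) (C.node (nat_lit 2) (nat_lit 8) (nat_lit 11) C.nil) C.nil))) C.nil))) C.nil))) C.nil))) C.nil))) C.nil)) C.nil))) C.nil))) (C.cons (nat_lit 2128) (C.node (nat_lit 4) (nat_lit 9) (nat_lit 11) (C.cons (nat_lit 2576) (C.node (nat_lit 1) (nat_lit 7) (nat_lit 9) (C.cons (nat_lit 706) (C.node (nat_lit 1) (nat_lit 4) (nat_lit 9) (C.cons (nat_lit 534) (C.miq (nat_lit 1368896544) (nat_lit 853543558687744533847148573)) (C.cons (nat_lit 530) (C.node (nat_lit 6) (nat_lit 9) (nat_lit 11) (C.cons (nat_lit 2632) (C.miq (nat_lit 957658736) (nat_lit 640768999024039728359082209)) (C.cons (nat_lit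 2628) (C.miq (nat_lit 689223280) (nat_lit 640768999022913828452239585)) (C.cons (nat_lit 2624) (C.node (nat_lit 1) (nat_lit 3) (nat_lit 7) (C.cons (nat_lit 174) (C.miq (nat_lit 2803479088) (nat_lit 853572483493761888469846045)) (C.cons (nat_lit 170) (C.miq (nat_lit 2870282355) (nat_lit 2536346016415086348713197961)) (C.cons (nat_lit 142) (C.miq (nat_lit 2803479088) (nat_lit 853572483493761751030892573)) (C.cons (nat_lit 138) (C.node (nat_lit 1) (nat_lit 3) (nat_lit 11) (C.cons (nat_lit 3146) (C.miq (nat_lit 588843879) (nat_lit 632280102393015639673538785)) (C.cons (nat_lit 3082) (C.miq (nat_lit 2443641778) (nat_lit 1415664033065882956360583197)) (C.cons (nat_lit 2122) (C.miq (nat_lit 588843879) (nat_lit 632280102393011241627027681)) (C.cons (nat_lit 2058) (C.node (nat_lit 1) (nat_lit 2) (nat_lit 4) (C.cons (nat_lit 86) (C.node (nat_lit 1) (nat_lit 2) (nat_lit 11) (C.cons (nat_lit 2566) (C.miq (nat_lit 2299923236) (nat_lit 853507846281837443898804253)) (C.cons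 (nat_lit 2054) (C.node (nat_lit 1) (nat_lit 9) (nat_lit 11) C.nil) C.nil))) (C.cons (nat_lit 22) (C.node (nat_lit 1) (nat_lit 4) (nat_lit 6) (C.cons (nat_lit 82) (C.node (nat_lit 1) (nat_lit 2) (nat_lit 7) C.nil) C.nil)) C.nil))) C.nil))))) C.nil))))) C.nil)))) C.nil))) (C.cons (nat_lit 674) (C.miq (nat_lit 656083284) (nat_lit 2942563759011002760897364529)) (C.cons (nat_lit 642) (C.node (nat_lit 2) (nat_lit 5) (nat_lit 11)
  (C.cons (nat_lit 2596) (C.miq (nat_lit 1500623364) (nat_lit 776169078192370382672168989)) (C.cons (nat_lit 2340) (C.node (nat_lit 1) (nat_lit 5) (nat_lit 7) (C.cons (nat_lit 174) (C.miq (nat_lit 2820737879) (nat_lit 317969092777113222613174497)) (C.cons (nat_lit 170) (C.miq (nat_lit 2870282355) (nat_lit 2536346016415086348713197961)) (C.cons (nat_lit 166) (C.miq (nat_lit 2820737879) (nat_lit 317969092777113222612650209)) (C.cons (nat_lit 162) (C.node (nat_lit 1) (nat_lit 2) (nat_lit 7) (C.cons (nat_lit 206) (C.miq (nat_lit 2819754870)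 (nat_lit 317967653931075876997171425)) (C.cons (nat_lit 198) (C.miq (nat_lit 2819754870) (nat_lit 317967653931075876996647137)) (C.cons (nat_lit 142) (C.miq (nat_lit 2803479088) (nat_lit 776201231038425483849697309)) (C.cons (nat_lit 134) (C.node (nat_lit 2) (nat_lit 4) (nat_lit 10) (C.cons (nat_lit 1556) (C.miq (nat_lit 2511487098) (nat_lit 2828915121189928185480086675)) (C.cons (nat_lit 1300) (C.miq (nat_lit 1797785508) (nat_lit 2828892635090791492155081875)) (C.cons (nat_lit 1076) (C.miq (nat_lit 2168829858) (nat_lit 2536369535617739611675298948)) (C.cons (nat_lit 1044) (C.node (nat_lit 5) (nat_lit 7) (nat_lit 10) (C.cons (nat_lit 1696) (C.miq (nat_lit 2485801143) (nat_lit 1262149841513538252584519905)) (C.cons (nat_lit 1440) (C.miq (nat_lit 2319603467) (nat_lit 1262161721464134334750197985)) (C.cons (nat_lit 1184) (C.node (nat_lit 7) (nat_lit 8) (nat_lit 10) (C.cons (nat_lit 1472) (C.miq (nat_lit 2217369783) (nat_lit 1262145709379815346861770977)) (C.cons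 (nat_lit 1408) (C.node (nat_lit 1) (nat_lit 3) (nat_lit 7) (C.cons (nat_lit 202) (C.node (nat_lit 1) (nat_lit 3) (nat_lit 11) (C.cons (nat_lit 3082) (C.miq (nat_lit 2443641778) (nat_lit 1415664033065882956360583197)) (C.cons (nat_lit 2058) (C.node (nat_lit 1) (nat_lit 10) (nat_lit 11) (C.cons (nat_lit 3138) (C.miq (nat_lit 2687940721) (nat_lit 88309471795918303807539586)) (C.cons (nat_lit 3074) (C.node (nat_lit 1) (nat_lit 2) (nat_lit 3) C.nil) C.nil))) C.nil))) (C.cons (nat_lit 138) (C.node (nat_lit 1) (nat_lit 6) (nat_lit 7) (C.cons (nat_lit 194) (C.node (nat_lit 2) (nat_lit 8) (nat_lit 10) (C.cons (nat_lit 1292) (C.node (nat_lit 2) (nat_lit 3) (nat_lit 7) (C.cons (nat_lit 204) (C.miq (nat_lit 3123054647) (nat_lit 1321397851369220164421419401)) (C.cons (nat_lit 172) (C.miq (nat_lit 2723906416) (nat_lit 2828957272205885795993715081)) (C.cons (nat_lit 140) (C.node (nat_lit 2) (nat_lit 5) (nat_lit 7) (C.cons (nat_lit 180) (C.miq (nat_lit 2586053493) (nat_lit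 1262128905382257356084349153)) (C.cons (nat_lit 164) (C.node (nat_lit 2) (nat_lit 6) (nat_lit 7) (C.cons (nat_lit 452) (C.miq (nat_lit 1445595011) (nat_lit 1321375567261022752099533193)) (C.cons (nat_lit 212) (C.miq (nat_lit 2317618038) (nat_lit 1262124773311584845146884321)) C.nil))) C.nil))) C.nil)))) (C.cons (nat_lit 1284) (C.node (nat_lit 3) (nat_lit 5) (nat_lit 11) (C.cons (nat_lit 2600) (C.node (nat_lit 5) (nat_lit 7) (nat_lit 9) (C.cons (nat_lit 928) (C.miq (nat_lit 425198514) (nat_lit 1121888012243289839627405341)) (C.cons (nat_lit 672) (C.node (nat_lit 2) (nat_lit 5) (nat_lit 7) (C.cons (nat_lit 180) (C.miq (nat_lit 2586053493) (nat_lit 1262128905382257356084349153)) (C.cons (nat_lit 172) (C.miq (nat_lit 324143544) (nat_lit 207940092614630183549538049)) (C.cons (nat_lit 164) (C.node (nat_lit 3) (nat_lit 5) (nat_lit 7) (C.cons (nat_lit 184) (C.miq (nat_lit 2507846464) (nat_lit 1431439025099543791038302237)) C.nil)) C.nil)))) C.nil))) (C.cons (nat_lit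 2088) (C.node (nat_lit 5) (nat_lit 9) (nat_lit 11) (C.cons (nat_lit 2592) (C.node (nat_lit 3) (nat_lit 8) (nat_lit 11) (C.cons (nat_lit 2376) (C.node (nat_lit 3) (nat_lit 9) (nat_lit 11) (C.cons (nat_lit 2568) (C.node (nat_lit 1) (nat_lit 3) (nat_lit 11) C.nil) C.nil)) (C.cons (nat_lit 2312) (C.node (nat_lit 6) (nat_lit 8) (nat_lit 11) C.nil) C.nil))) C.nil)) C.nil))) C.nil))) C.nil)) C.nil))) C.nil))) C.nil)))) C.nil))))) C.nil))))) C.nil))))) (C.cons (nat_lit 2084) (C.node (nat_lit 2) (nat_lit 8) (nat_lit 11)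
  (C.cons (nat_lit 2372) (C.miq (nat_lit 2709653430) (nat_lit 317967653179537689321670881)) (C.cons (nat_lit 2308) (C.node (nat_lit 5) (nat_lit 8) (nat_lit 11) (C.cons (nat_lit 2344) (C.miq (nat_lit 1483846404) (nat_lit 2942564146870853087282792477)) (C.cons (nat_lit 2336) (C.node (nat_lit 3) (nat_lit 5) (nat_lit 11) (C.cons (nat_lit 2600) (C.node (nat_lit 3) (nat_lit 8) (nat_lit 11) (C.cons (nat_lit 2376) (C.node (nat_lit 1) (nat_lit 3) (nat_lit 11) C.nil) C.nil)) C.nil)) C.nil))) C.nil))) C.nil)))) C.nil)))) C.nil)) C.nil))) C.nil))) C.nil)))) C.nil)) (C.cons (nat_lit 2096) (C.node (nat_lit 5) (nat_lit 10) (nat_lit 11) (C.cons (nat_lit 3106) (C.node (nat_lit 3) (nat_lit 5) (nat_lit 11) (C.cons (nat_lit 2600) (C.miq (nat_lit 2203807905) (nat_lit 3143252030483735503475704979)) (C.cons (nat_lit 2344) (C.node (nat_lit 2) (nat_lit 5) (nat_lit 11) (C.cons (nat_lit 2596) (C.miq (nat_lit 1537512048) (nat_lit 3733173280324123043243950725)) (C.cons (nat_lit 2084)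 (C.node (nat_lit 5) (nat_lit 9) (nat_lit 11) (C.cons (nat_lit 2592) (C.node (nat_lit 2) (nat_lit 8) (nat_lit 11) (C.cons (nat_lit 2372) (C.miq (nat_lit 2709653430) (nat_lit 317967653179537689321670881)) (C.cons (nat_lit 2308) (C.node (nat_lit 6) (nat_lit 8) (nat_lit 11) (C.cons (nat_lit 2368) (C.node (nat_lit 1) (nat_lit 2) (nat_lit 10) (C.cons (nat_lit 1542) (C.miq (nat_lit 352955250) (nat_lit 678235830557439667304991876)) (C.cons (nat_lit 1038) (C.miq (nat_lit 2174974800) (nat_lit 1254872251015529484750751969)) (C.cons (nat_lit 1030) (C.node (nat_lit 5) (nat_lit 7) (nat_lit 10) (C.cons (nat_lit 1696) (C.miq (nat_lit 1521784608) (nat_lit 3733173280070795564263735941)) (C.cons (nat_lit 1440) (C.miq (nat_lit 2780067888) (nat_lit 2533930119454907098071892361)) (C.cons (nat_lit 1184) (C.node (nat_lit 7) (nat_lit 8) (nat_lit 10) (C.cons (nat_lit 1472) (C.miq (nat_lit 2276747808) (nat_lit 2649971613562364918004253765)) (C.cons (nat_lit 1408) (C.node (nat_lit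 5) (nat_lit 7) (nat_lit 9) (C.cons (nat_lit 928) (C.miq (nat_lit 2511501360) (nat_lit 2519413306488033588675412361)) (C.cons (nat_lit 680) (C.miq (nat_lit 389396490) (nat_lit 822126853610152561973202689)) (C.cons (nat_lit 674) (C.miq (nat_lit 890702520) (nat_lit 814823252290465222130536193)) (C.cons (nat_lit 672) (C.node (nat_lit 1) (nat_lit 5) (nat_lit 7) (C.cons (nat_lit 174) (C.miq (nat_lit 2584873815) (nat_lit 1245205493434154318333610209)) (C.cons (nat_lit 170) (C.node (nat_lit 1) (nat_lit 2) (nat_lit 7) (C.cons (nat_lit 198) (C.miq (nat_lit 975261799) (nat_lit 1245196730449336125180217569)) (C.cons (nat_lit 134) (C.node (nat_lit 1) (nat_lit 2) (nat_lit 3) (C.cons (nat_lit 78) (C.node (nat_lit 1) (nat_lit 3) (nat_lit 11) (C.cons (nat_lit 2058) (C.node (nat_lit 3) (nat_lit 9) (nat_lit 11) (C.cons (nat_lit 2632) (C.miq (nat_lit 683020435) (nat_lit 2862737779767524051066028555)) C.nil)) C.nil)) (C.cons (nat_lit 14) (C.node (nat_lit 1) (nat_lit 3) (nat_lit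 11) (C.cons (nat_lit 2122) (C.node (nat_lit 3) (nat_lit 9) (nat_lit 11) (C.cons (nat_lit 2568) (C.node (nat_lit 3) (nat_lit 10) (nat_lit 11) C.nil) C.nil)) (C.cons (nat_lit 2058) (C.node (nat_lit 3) (nat_lit 9) (nat_lit 11) (C.cons (nat_lit 2632) (C.node (nat_lit 3) (nat_lit 10) (nat_lit 11) C.nil) C.nil)) C.nil))) C.nil))) C.nil))) (C.cons (nat_lit 166) (C.miq (nat_lit 890702520) (nat_lit 200688935926233601379798785)) (C.cons (nat_lit 162) (C.miq (nat_lit 890702520) (nat_lit 195853232647775084680974081)) C.nil))))) C.nil))))) C.nil))) C.nil)))) C.nil)))) C.nil)) C.nil))) C.nil)) C.nil))) (C.cons (nat_lit 2088) (C.miq (nat_lit 2203807905) (nat_lit 2524282010841045366026142867)) C.nil)))) (C.cons (nat_lit 3104) (C.node (nat_lit 2) (nat_lit 8) (nat_lit 11) (C.cons (nat_lit 2372) (C.miq (nat_lit 2709653430) (nat_lit 317967653179537689321670881)) (C.cons (nat_lit 2340) (C.node (nat_lit 1) (nat_lit 2) (nat_lit 7) (C.cons (nat_lit 206) (C.miq (nat_lit 2819754870)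 (nat_lit 317967653931075876997171425)) (C.cons (nat_lit 198)
  (C.miq (nat_lit 2819754870) (nat_lit 317967653931075876996647137)) (C.cons (nat_lit 174) (C.miq (nat_lit 2820737879) (nat_lit 317969092777113222613174497)) (C.cons (nat_lit 166) (C.miq (nat_lit 2820737879) (nat_lit 317969092777113222612650209)) (C.cons (nat_lit 142) (C.miq (nat_lit 2591099683) (nat_lit 1415661783497040460306581533)) (C.cons (nat_lit 134) (C.node (nat_lit 3) (nat_lit 8) (nat_lit 11) (C.cons (nat_lit 2376) (C.node (nat_lit 3) (nat_lit 10) (nat_lit 11) (C.cons (nat_lit 3082) (C.miq (nat_lit 2443641778) (nat_lit 1415664033065882956360583197)) (C.cons (nat_lit 3080) (C.node (nat_lit 1) (nat_lit 10) (nat_lit 11) (C.cons (nat_lit 3138) (C.miq (nat_lit 1661646961) (nat_lit 1287563884441269604298459522)) (C.cons (nat_lit 3074) (C.node (nat_lit 6) (nat_lit 10) (nat_lit 11) (C.cons (nat_lit 3136) (C.node (nat_lit 1) (nat_lit 3) (nat_lit 7) (C.cons (nat_lit 202) (C.miq (nat_lit 448163971)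 (nat_lit 3791195096883403676061270409)) (C.cons (nat_lit 170) (C.miq (nat_lit 1521561735) (nat_lit 3716241105741649960996307337)) (C.cons (nat_lit 138) (C.node (nat_lit 1) (nat_lit 3) (nat_lit 11) (C.cons (nat_lit 2090) (C.node (nat_lit 3) (nat_lit 9) (nat_lit 11) (C.cons (nat_lit 2568) (C.node (nat_lit 5) (nat_lit 9) (nat_lit 11) C.nil) C.nil)) (C.cons (nat_lit 2058) (C.node (nat_lit 1) (nat_lit 5) (nat_lit 11) (C.cons (nat_lit 2594) (C.node (nat_lit 3) (nat_lit 5) (nat_lit 11) C.nil) C.nil)) C.nil))) C.nil)))) C.nil)) C.nil))) C.nil))) (C.cons (nat_lit 2312) (C.node (nat_lit 6) (nat_lit 8) (nat_lit 11) (C.cons (nat_lit 2368) (C.node (nat_lit 1) (nat_lit 3) (nat_lit 7) (C.cons (nat_lit 202) (C.node (nat_lit 1) (nat_lit 10) (nat_lit 11) (C.cons (nat_lit 3138) (C.miq (nat_lit 951480481) (nat_lit 2862740067200380938055976083)) (C.cons (nat_lit 3082) (C.miq (nat_lit 2443641778) (nat_lit 1415664033065882956360583197)) (C.cons (nat_lit 3074) (C.node (nat_lit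 1) (nat_lit 3) (nat_lit 11) (C.cons (nat_lit 2090) (C.node (nat_lit 5) (nat_lit 9) (nat_lit 11) (C.cons (nat_lit 2592) (C.node (nat_lit 3) (nat_lit 9) (nat_lit 11) (C.cons (nat_lit 2632) (C.miq (nat_lit 2838563687) (nat_lit 632289805876918062169065697)) C.nil)) C.nil)) (C.cons (nat_lit 2058) (C.node (nat_lit 1) (nat_lit 5) (nat_lit 11) (C.cons (nat_lit 2594) (C.node (nat_lit 3) (nat_lit 5) (nat_lit 11) C.nil) C.nil)) C.nil))) C.nil)))) (C.cons (nat_lit 170) (C.miq (nat_lit 363557640) (nat_lit 3752550643506739687769309577)) (C.cons (nat_lit 138) (C.node (nat_lit 1) (nat_lit 5) (nat_lit 7) (C.cons (nat_lit 674) (C.node (nat_lit 1) (nat_lit 6) (nat_lit 7) (C.cons (nat_lit 194) (C.node (nat_lit 1) (nat_lit 5) (nat_lit 11) (C.cons (nat_lit 2090) (C.miq (nat_lit 588843863) (nat_lit 632280102393011104185977057)) (C.cons (nat_lit 2082) (C.node (nat_lit 3) (nat_lit 5) (nat_lit 11) (C.cons (nat_lit 2600) (C.miq (nat_lit 1133579095) (nat_lit 632289805380396065843448033))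 (C.cons (nat_lit 2088) (C.node (nat_lit 5) (nat_lit 9) (nat_lit 11) C.nil) C.nil))) C.nil))) C.nil)) (C.cons (nat_lit 162) (C.node (nat_lit 1) (nat_lit 6) (nat_lit 7) (C.cons (nat_lit 706) (C.node (nat_lit 1) (nat_lit 8) (nat_lit 9) (C.cons (nat_lit 802) (C.node (nat_lit 1) (nat_lit 5) (nat_lit 11) (C.cons (nat_lit 2090) (C.miq (nat_lit 622049424) (nat_lit 2526693277540670959975599873)) (C.cons (nat_lit 2082) (C.node (nat_lit 3) (nat_lit 5) (nat_lit 11) (C.cons (nat_lit 2600) (C.node (nat_lit 5) (nat_lit 7) (nat_lit 9) (C.cons (nat_lit 1696) (C.miq (nat_lit 1521784608) (nat_lit 3733173280070795564263735941)) (C.cons (nat_lit 672) (C.node (nat_lit 1) (nat_lit 9) (nat_lit 11) (C.cons (nat_lit 2578) (C.miq (nat_lit 2710897843) (nat_lit 969578153442989369111087133)) (C.cons (nat_lit 2566) (C.miq (nat_lit 897620769) (nat_lit 349389210247623371273996806)) (C.cons (nat_lit 2562) (C.node (nat_lit 1) (nat_lit 3) (nat_lit 11) (C.cons (nat_lit 3082) (C.miq (nat_lit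 2443641778) (nat_lit 1415664033065882956360583197)) (C.cons (nat_lit 2122) (C.miq (nat_lit 588843879) (nat_lit 632280102393011241627027681)) C.nil))) C.nil)))) C.nil)))
  (C.cons (nat_lit 2088) (C.miq (nat_lit 2478116904) (nat_lit 2524251905791313165466992903)) C.nil))) C.nil))) (C.cons (nat_lit 786) (C.miq (nat_lit 1460931465) (nat_lit 1415662484031959190704623361)) (C.cons (nat_lit 770) (C.node (nat_lit 3) (nat_lit 9) (nat_lit 11) (C.cons (nat_lit 2632) (C.miq (nat_lit 1133579111) (nat_lit 632289805380396203284498657)) (C.cons (nat_lit 2600) (C.miq (nat_lit 1478078979) (nat_lit 930920843296508684471568413)) (C.cons (nat_lit 2568) (C.node (nat_lit 3) (nat_lit 5) (nat_lit 11) (C.cons (nat_lit 2090) (C.node (nat_lit 5) (nat_lit 9) (nat_lit 11) (C.cons (nat_lit 2592) (C.node (nat_lit 1) (nat_lit 10) (nat_lit 11) (C.cons (nat_lit 3138) (C.node (nat_lit 3) (nat_lit 6) (nat_lit 11) C.nil) C.nil)) C.nil)) (C.cons (nat_lit 2088) (C.node (nat_lit 1) (nat_lit 3)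 (nat_lit 11) (C.cons (nat_lit 3146) (C.miq (nat_lit 588843879) (nat_lit 632280102393015639673538785)) (C.cons (nat_lit 3082) (C.miq (nat_lit 2443641778) (nat_lit 1415664033065882956360583197)) (C.cons (nat_lit 2122) (C.miq (nat_lit 588843879) (nat_lit 632280102393011241627027681)) C.nil)))) C.nil))) C.nil)))) C.nil)))) (C.cons (nat_lit 194) (C.node (nat_lit 1) (nat_lit 7) (nat_lit 9) (C.cons (nat_lit 642) (C.node (nat_lit 2) (nat_lit 5) (nat_lit 7) (C.cons (nat_lit 180) (C.miq (nat_lit 2602895988) (nat_lit 2828896767602816766503552147)) (C.cons (nat_lit 172) (C.node (nat_lit 2) (nat_lit 8) (nat_lit 10) (C.cons (nat_lit 1300) (C.miq (nat_lit 1196597432) (nat_lit 207959222070629000808763137)) (C.cons (nat_lit 1292) (C.miq (nat_lit 2723906416) (nat_lit 2828957272205885795993715081)) (C.cons (nat_lit 1284) (C.node (nat_lit 5) (nat_lit 7) (nat_lit 9) (C.cons (nat_lit 1696) (C.miq (nat_lit 1114966953) (nat_lit 207945590181778856922320641)) (C.cons (nat_lit 928)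 (C.miq (nat_lit 998580375) (nat_lit 2828889591322852970513564293)) (C.cons (nat_lit 672) (C.node (nat_lit 5) (nat_lit 7) (nat_lit 10) (C.cons (nat_lit 1440) (C.miq (nat_lit 1113000842) (nat_lit 207956842695660108880285441)) (C.cons (nat_lit 1184) (C.node (nat_lit 7) (nat_lit 8) (nat_lit 10) (C.cons (nat_lit 1472) (C.miq (nat_lit 1118309238) (nat_lit 1552266969522573988241344737)) (C.cons (nat_lit 1408) (C.node (nat_lit 4) (nat_lit 5) (nat_lit 7) (C.cons (nat_lit 176) (C.node (nat_lit 5) (nat_lit 7) (nat_lit 8) C.nil) C.nil)) C.nil))) C.nil))) C.nil)))) C.nil)))) (C.cons (nat_lit 164) (C.node (nat_lit 5) (nat_lit 7) (nat_lit 10) (C.cons (nat_lit 1696) (C.miq (nat_lit 1114966953) (nat_lit 198274183624861823524671233)) (C.cons (nat_lit 1440) (C.miq (nat_lit 1113000842) (nat_lit 198285436138743075482636033)) (C.cons (nat_lit 1184) (C.node (nat_lit 7) (nat_lit 8) (nat_lit 10) (C.cons (nat_lit 1472) (C.miq (nat_lit 2276747808) (nat_lit 2649971613562364918004253765))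 (C.cons (nat_lit 1408) (C.node (nat_lit 2) (nat_lit 3) (nat_lit 7) (C.cons (nat_lit 204) (C.node (nat_lit 3) (nat_lit 10) (nat_lit 11) (C.cons (nat_lit 3146) (C.miq (nat_lit 2443641778) (nat_lit 1415664033065883231238490141)) (C.cons (nat_lit 3144) (C.miq (nat_lit 2604075618) (nat_lit 2640305889269436549155259461)) (C.cons (nat_lit 3082) (C.miq (nat_lit 2443641778) (nat_lit 1415664033065882956360583197)) C.nil)))) (C.cons (nat_lit 140) (C.node (nat_lit 2) (nat_lit 4) (nat_lit 7) (C.cons (nat_lit 404) (C.node (nat_lit 2) (nat_lit 6) (nat_lit 7) C.nil) (C.cons (nat_lit 212) (C.miq (nat_lit 1755791538) (nat_lit 1702171464822015068742092829)) C.nil))) C.nil))) C.nil))) C.nil)))) C.nil)))) C.nil)) C.nil))) C.nil))) C.nil)))) C.nil)) C.nil))) C.nil))))))) (C.cons (nat_lit 2308) (C.node (nat_lit 5) (nat_lit 8) (nat_lit 11) (C.cons (nat_lit 2344) (C.miq (nat_lit 458913840) (nat_lit 3752527345906239432959787401)) (C.cons (nat_lit 2336) (C.node (nat_lit 3) (nat_lit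 8) (nat_lit 11) (C.cons (nat_lit 2376) (C.node (nat_lit 3) (nat_lit 10) (nat_lit 11) (C.cons (nat_lit 3082) (C.miq (nat_lit 2443641778) (nat_lit 1415664033065882956360583197)) (C.cons (nat_lit 3080) (C.node (nat_lit 1) (nat_lit 10) (nat_lit 11) (C.cons (nat_lit 3138)
  (C.miq (nat_lit 1661646961) (nat_lit 1287563884441269604298459522)) (C.cons (nat_lit 3074) (C.node (nat_lit 6) (nat_lit 10) (nat_lit 11) C.nil) C.nil))) C.nil))) (C.cons (nat_lit 2312) (C.node (nat_lit 6) (nat_lit 8) (nat_lit 11) (C.cons (nat_lit 2368) (C.node (nat_lit 5) (nat_lit 7) (nat_lit 10) (C.cons (nat_lit 1696) (C.miq (nat_lit 1521784608) (nat_lit 3733173280070795564263735941)) (C.cons (nat_lit 1440) (C.node (nat_lit 2) (nat_lit 8) (nat_lit 10) (C.cons (nat_lit 1300) (C.miq (nat_lit 1739066148) (nat_lit 1740859397437625234919524381)) (C.cons (nat_lit 1292) (C.miq (nat_lit 1512798256) (nat_lit 3873440255899880933266620809)) (C.cons (nat_lit 1284) (C.node (nat_lit 4) (nat_lit 8) (nat_lit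 10) (C.cons (nat_lit 1304) (C.miq (nat_lit 1480292928) (nat_lit 2795078424803631760968320147)) (C.cons (nat_lit 1296) (C.node (nat_lit 4) (nat_lit 5) (nat_lit 7) (C.cons (nat_lit 184) (C.miq (nat_lit 998588583) (nat_lit 2824054109405323338362913939)) (C.cons (nat_lit 180) (C.miq (nat_lit 2591361828) (nat_lit 1740863529949650509267994653)) (C.cons (nat_lit 176) (C.node (nat_lit 2) (nat_lit 4) (nat_lit 7) (C.cons (nat_lit 404) (C.node (nat_lit 6) (nat_lit 7) (nat_lit 8) (C.cons (nat_lit 960) (C.node (nat_lit 4) (nat_lit 6) (nat_lit 7) (C.cons (nat_lit 216) (C.miq (nat_lit 2537260608) (nat_lit 2640364844252554141437329745)) (C.cons (nat_lit 208) (C.node (nat_lit 3) (nat_lit 4) (nat_lit 7) (C.cons (nat_lit 664) (C.miq (nat_lit 2541827104) (nat_lit 2942535092776059081050228765)) (C.cons (nat_lit 152) (C.node (nat_lit 4) (nat_lit 7) (nat_lit 9) (C.cons (nat_lit 656) (C.node (nat_lit 4) (nat_lit 8) (nat_lit 9) (C.cons (nat_lit 792) (C.miq (nat_lit 997802088) (nat_lit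 3249607213530062888726692177)) (C.cons (nat_lit 786) (C.miq (nat_lit 1460931465) (nat_lit 1415662484031959190704623361)) (C.cons (nat_lit 784) (C.node (nat_lit 2) (nat_lit 6) (nat_lit 7) (C.cons (nat_lit 206) (C.miq (nat_lit 2819754870) (nat_lit 317967653931075876997171425)) (C.cons (nat_lit 204) (C.miq (nat_lit 998645911) (nat_lit 2862740104567872946113086085)) (C.cons (nat_lit 198) (C.miq (nat_lit 2819754870) (nat_lit 317967653931075876996647137)) C.nil)))) C.nil)))) C.nil)) C.nil))) C.nil))) (C.cons (nat_lit 448) (C.node (nat_lit 7) (nat_lit 8) (nat_lit 9) C.nil) C.nil))) (C.cons (nat_lit 212) (C.miq (nat_lit 1218601143) (nat_lit 1552264663189801051078527201)) (C.cons (nat_lit 148) (C.node (nat_lit 2) (nat_lit 7) (nat_lit 8) (C.cons (nat_lit 452) (C.node (nat_lit 2) (nat_lit 3) (nat_lit 7) (C.cons (nat_lit 174) (C.miq (nat_lit 2591099683) (nat_lit 1415661783497040460308678685)) (C.cons (nat_lit 172) (C.miq (nat_lit 732246151) (nat_lit 3752508917508429660022636937))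 (C.cons (nat_lit 142) (C.miq (nat_lit 2591099683) (nat_lit 1415661783497040460306581533)) (C.cons (nat_lit 140) (C.node (nat_lit 1) (nat_lit 2) (nat_lit 7) (C.cons (nat_lit 166) (C.node (nat_lit 2) (nat_lit 5) (nat_lit 11) (C.cons (nat_lit 2596) (C.miq (nat_lit 1193609913) (nat_lit 200692035009074753033211649)) (C.cons (nat_lit 2084) (C.node (nat_lit 1) (nat_lit 5) (nat_lit 11) C.nil) C.nil))) (C.cons (nat_lit 134) (C.node (nat_lit 2) (nat_lit 5) (nat_lit 7) (C.cons (nat_lit 164) (C.node (nat_lit 4) (nat_lit 7) (nat_lit 8) (C.cons (nat_lit 912) (C.node (nat_lit 2) (nat_lit 4) (nat_lit 8) C.nil) (C.cons (nat_lit 400) (C.node (nat_lit 7) (nat_lit 8) (nat_lit 9) C.nil) C.nil))) C.nil)) C.nil))) C.nil))))) (C.cons (nat_lit 388) (C.node (nat_lit 4) (nat_lit 7) (nat_lit 8) (C.cons (nat_lit 912) (C.node (nat_lit 6) (nat_lit 7) (nat_lit 8) C.nil) (C.cons (nat_lit 400) (C.node (nat_lit 6) (nat_lit 7) (nat_lit 8) C.nil) C.nil))) C.nil))) C.nil)))) C.nil)))) C.nil)))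 C.nil)))) (C.cons (nat_lit 1184) (C.node (nat_lit 7) (nat_lit 8) (nat_lit 10) (C.cons (nat_lit 1472) (C.miq (nat_lit 2276747808) (nat_lit 2649971613562364918004253765)) (C.cons (nat_lit 1408) (C.node (nat_lit 1) (nat_lit 10) (nat_lit 11) (C.cons (nat_lit 3146) (C.miq (nat_lit 2443641778) (nat_lit 1415664033065883231238490141)) (C.cons (nat_lit 3138)
  (C.node (nat_lit 3) (nat_lit 10) (nat_lit 11) C.nil) (C.cons (nat_lit 3082) (C.miq (nat_lit 2443641778) (nat_lit 1415664033065882956360583197)) (C.cons (nat_lit 3074) (C.node (nat_lit 3) (nat_lit 10) (nat_lit 11) C.nil) C.nil))))) C.nil))) C.nil)))) C.nil)) C.nil))) C.nil))) C.nil)))) C.nil))) C.nil))) C.nil))) List.nil)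

theorem ok12_295 : okL par12 (nat_lit 296) c12_295 (nat_lit 295) = true := by decide +kernel

noncomputable def c12_296 : List C :=
  (List.cons (C.node (nat_lit 1) (nat_lit 4) (nat_lit 8) (C.cons (nat_lit 786) (C.miq (nat_lit 1460931465) (nat_lit 1415662484031959190704623361)) (C.cons (nat_lit 282) (C.node (nat_lit 4) (nat_lit 8) (nat_lit 10) (C.cons (nat_lit 1300) (C.node (nat_lit 3) (nat_lit 8) (nat_lit 10) (C.cons (nat_lit 1352) (C.miq (nat_lit 1487320096) (nat_lit 1634509638230292914766153757)) (C.cons (nat_lit 1288) (C.node (nat_lit 4) (nat_lit 5) (nat_lit 10) (C.cons (nat_lit 1136) (C.miq (nat_lit 643080376) (nat_lit 1373363712157176477042872065)) (C.cons (nat_lit 1072) (C.node (nat_lit 2) (nat_lit 4) (nat_lit 7) (C.cons (nat_lit 212) (C.miq (nat_lit 1411823776) (nat_lit 256334203869615655601114881)) (C.cons (nat_lit 180) (C.miq (nat_lit 1698827146) (nat_lit 217626810461708539898629889)) (C.cons (nat_lit 148) (C.node (nat_lit 7) (nat_lit 8) (nat_lit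 10) (C.cons (nat_lit 1472) (C.miq (nat_lit 1487320096) (nat_lit 1779580736584048415730894877)) (C.cons (nat_lit 1440) (C.miq (nat_lit 1703545666) (nat_lit 1740873343176141300028409885)) (C.cons (nat_lit 1408) (C.node (nat_lit 5) (nat_lit 8) (nat_lit 10) (C.cons (nat_lit 1378) (C.miq (nat_lit 811682648) (nat_lit 81003232480642229977876784)) (C.cons (nat_lit 1376) (C.node (nat_lit 1) (nat_lit 8) (nat_lit 10) (C.cons (nat_lit 1282) (C.node (nat_lit 1) (nat_lit 5) (nat_lit 8) (C.cons (nat_lit 802) (C.miq (nat_lit 1362397451) (nat_lit 340960468099131969858506497)) (C.cons (nat_lit 290) (C.node (nat_lit 2) (nat_lit 10) (nat_lit 11) (C.cons (nat_lit 3110) (C.miq (nat_lit 941230005) (nat_lit 1549862546639023222647294177)) (C.cons (nat_lit 3108) (C.node (nat_lit 2) (nat_lit 4) (nat_lit 9) (C.cons (nat_lit 598) (C.miq (nat_lit 1447208971) (nat_lit 722994972997440351254679297)) (C.cons (nat_lit 596) (C.miq (nat_lit 1447208971) (nat_lit 720577121358211092905266945))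 (C.cons (nat_lit 534) (C.miq (nat_lit 2541822004) (nat_lit 2942535295684895820054399005)) (C.cons (nat_lit 532) (C.node (nat_lit 3) (nat_lit 4) (nat_lit 10) (C.cons (nat_lit 1624) (C.miq (nat_lit 323094952) (nat_lit 2510943778980494569408564993)) (C.cons (nat_lit 1560) (C.miq (nat_lit 323094952) (nat_lit 2510943778980494294530658049)) (C.cons (nat_lit 1112) (C.miq (nat_lit 1662035074) (nat_lit 632288366262725008211510548)) (C.cons (nat_lit 1048) (C.node (nat_lit 1) (nat_lit 5) (nat_lit 10) (C.cons (nat_lit 1570) (C.node (nat_lit 5) (nat_lit 7) (nat_lit 10) (C.cons (nat_lit 1184) (C.node (nat_lit 1) (nat_lit 2) (nat_lit 10) (C.cons (nat_lit 1038) (C.miq (nat_lit 1362274571) (nat_lit 1254922333682484132471181057)) (C.cons (nat_lit 1030) (C.node (nat_lit 2) (nat_lit 9) (nat_lit 10) (C.cons (nat_lit 1548) (C.miq (nat_lit 1359718706) (nat_lit 2479564188952103486448535052)) C.nil)) C.nil))) C.nil)) (C.cons (nat_lit 1058) (C.node (nat_lit 1) (nat_lit 6) (nat_lit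 8) (C.cons (nat_lit 834) (C.node (nat_lit 1) (nat_lit 2) (nat_lit 11) C.nil) (C.cons (nat_lit 322) (C.node (nat_lit 1) (nat_lit 8) (nat_lit 9) (C.cons (nat_lit 770) (C.node (nat_lit 1) (nat_lit 5) (nat_lit 11) C.nil) C.nil)) C.nil))) C.nil))) C.nil))))) C.nil))))) (C.cons (nat_lit 3078) (C.miq (nat_lit 1529512966) (nat_lit 3721099056155712090030801233)) (C.cons (nat_lit 3076) (C.miq (nat_lit 1529512966) (nat_lit 3718681204516482831681388881)) C.nil))))) C.nil))) C.nil)) (C.cons (nat_lit 1314) (C.miq (nat_lit 1703545666) (nat_lit 1588548689904698024015431709)) (C.cons (nat_lit 1312) (C.miq (nat_lit 1703545666) (nat_lit 1586130838265468765666019357)) C.nil))))) C.nil)))) C.nil)))) C.nil))) C.nil))) (C.cons (nat_lit 1296) (C.node (nat_lit 2) (nat_lit 4) (nat_lit 8) (C.cons (nat_lit 788) (C.miq (nat_lit 683119696) (nat_lit 2942537343313747337455665713)) (C.cons (nat_lit 404) (C.miq (nat_lit 2441544514) (nat_lit 2942537343239147577922553885)) (C.cons (nat_lit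 276) (C.node (nat_lit 4) (nat_lit 7) (nat_lit 8) (C.cons (nat_lit 912) (C.node (nat_lit 2) (nat_lit 4) (nat_lit 7) (C.cons (nat_lit 212) (C.miq (nat_lit 2823162226) (nat_lit 407428164582551898985595525)) (C.cons (nat_lit 180)
  (C.miq (nat_lit 2554465111) (nat_lit 333675425444720682200205537)) (C.cons (nat_lit 148) (C.node (nat_lit 4) (nat_lit 5) (nat_lit 7) (C.cons (nat_lit 184) (C.miq (nat_lit 2839873651) (nat_lit 678227031667394770250498441)) (C.cons (nat_lit 176) (C.node (nat_lit 3) (nat_lit 4) (nat_lit 5) (C.cons (nat_lit 120) (C.node (nat_lit 3) (nat_lit 4) (nat_lit 7) (C.cons (nat_lit 152) (C.node (nat_lit 4) (nat_lit 6) (nat_lit 7) (C.cons (nat_lit 208) (C.node (nat_lit 3) (nat_lit 5) (nat_lit 11) (C.cons (nat_lit 2600) (C.miq (nat_lit 2471015776) (nat_lit 340987935807148000520767713)) (C.cons (nat_lit 2090) (C.miq (nat_lit 2961266243) (nat_lit 317986044893555595396382840)) (C.cons (nat_lit 2088) (C.node (nat_lit 1) (nat_lit 3) (nat_lit 5) (C.cons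 (nat_lit 174) (C.miq (nat_lit 2819820405) (nat_lit 340936727994919767447046369)) (C.cons (nat_lit 170) (C.miq (nat_lit 2819820405) (nat_lit 340936727994919767446784225)) (C.cons (nat_lit 46) (C.miq (nat_lit 543496259) (nat_lit 2747889236608308871033258266)) (C.cons (nat_lit 42) (C.node (nat_lit 1) (nat_lit 3) (nat_lit 7) (C.cons (nat_lit 206) (C.miq (nat_lit 2452883301) (nat_lit 2510949276144562391672686817)) (C.cons (nat_lit 202) (C.node (nat_lit 1) (nat_lit 2) (nat_lit 3) (C.cons (nat_lit 1038) (C.miq (nat_lit 2789417089) (nat_lit 145090246381757608446525703)) (C.cons (nat_lit 14) (C.node (nat_lit 3) (nat_lit 9) (nat_lit 11) (C.cons (nat_lit 2632) (C.miq (nat_lit 2838563687) (nat_lit 632289805876918062169065697)) (C.cons (nat_lit 2568) (C.node (nat_lit 5) (nat_lit 10) (nat_lit 11) (C.cons (nat_lit 3110) (C.miq (nat_lit 1366535040) (nat_lit 244222662219991225509416705)) (C.cons (nat_lit 3108) (C.miq (nat_lit 625388416) (nat_lit 145091261519862394906545921))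 (C.cons (nat_lit 3106) (C.miq (nat_lit 1366535040) (nat_lit 244222662218865325602574081)) (C.cons (nat_lit 3104) (C.node (nat_lit 1) (nat_lit 3) (nat_lit 11) C.nil) C.nil))))) C.nil))) C.nil))) (C.cons (nat_lit 142) (C.miq (nat_lit 1662473355) (nat_lit 171709395868335093164673328)) (C.cons (nat_lit 138) (C.miq (nat_lit 1662473355) (nat_lit 166873692589876576465848624)) C.nil))))) C.nil))))) C.nil)))) C.nil)) C.nil)) (C.cons (nat_lit 56) (C.node (nat_lit 3) (nat_lit 4) (nat_lit 7) (C.cons (nat_lit 216) (C.node (nat_lit 1) (nat_lit 3) (nat_lit 7) (C.cons (nat_lit 174) (C.miq (nat_lit 2819820405) (nat_lit 340936727994919767447046369)) (C.cons (nat_lit 170) (C.miq (nat_lit 2819820405) (nat_lit 340936727994919767446784225)) (C.cons (nat_lit 142) (C.miq (nat_lit 1729643296) (nat_lit 2942531661555559456225822749)) (C.cons (nat_lit 138) (C.node (nat_lit 4) (nat_lit 6) (nat_lit 11) (C.cons (nat_lit 2642) (C.miq (nat_lit 2486744688) (nat_lit 340987935818970361863145697))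 (C.cons (nat_lit 2640) (C.miq (nat_lit 2486744688) (nat_lit 340987935818407411909724385)) (C.cons (nat_lit 2130) (C.miq (nat_lit 1636283440) (nat_lit 2942567374990829864645888029)) (C.cons (nat_lit 2128) (C.node (nat_lit 1) (nat_lit 4) (nat_lit 11) (C.cons (nat_lit 2578) (C.node (nat_lit 1) (nat_lit 4) (nat_lit 6) (C.cons (nat_lit 114) (C.miq (nat_lit 1462853764) (nat_lit 166833866675437539002286417)) (C.cons (nat_lit 86) (C.miq (nat_lit 1636254211) (nat_lit 2942529429462935310097254429)) (C.cons (nat_lit 82) (C.node (nat_lit 1) (nat_lit 2) (nat_lit 4) (C.cons (nat_lit 54) (C.node (nat_lit 2) (nat_lit 4) (nat_lit 6) C.nil) C.nil)) C.nil)))) (C.cons (nat_lit 2066) (C.node (nat_lit 4) (nat_lit 9) (nat_lit 11) C.nil) C.nil))) C.nil))))) C.nil))))) (C.cons (nat_lit 152) (C.node (nat_lit 4) (nat_lit 6) (nat_lit 7) (C.cons (nat_lit 208) (C.node (nat_lit 1) (nat_lit 4) (nat_lit 11) (C.cons (nat_lit 2642) (C.miq (nat_lit 1636283440) (nat_lit 2942567375134945052721743901))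 (C.cons (nat_lit 2578) (C.node (nat_lit 4) (nat_lit 6) (nat_lit 11) C.nil) (C.cons (nat_lit 2130) (C.miq (nat_lit 1636283440) (nat_lit 2942567374990829864645888029)) (C.cons (nat_lit 2066) (C.node (nat_lit 4) (nat_lit 6) (nat_lit 11) C.nil) C.nil))))) C.nil)) C.nil))) C.nil))) C.nil))) C.nil)))) (C.cons (nat_lit 400)
  (C.node (nat_lit 4) (nat_lit 8) (nat_lit 9) (C.cons (nat_lit 784) (C.node (nat_lit 2) (nat_lit 4) (nat_lit 7) (C.cons (nat_lit 212) (C.node (nat_lit 4) (nat_lit 5) (nat_lit 7) (C.cons (nat_lit 184) (C.miq (nat_lit 2722301557) (nat_lit 2510958573429676356627073249)) (C.cons (nat_lit 176) (C.node (nat_lit 3) (nat_lit 4) (nat_lit 7) (C.cons (nat_lit 664) (C.miq (nat_lit 1954714384) (nat_lit 333675424550465790613586443)) (C.cons (nat_lit 152) (C.node (nat_lit 4) (nat_lit 7) (nat_lit 9) (C.cons (nat_lit 656) (C.node (nat_lit 2) (nat_lit 4) (nat_lit 9) (C.cons (nat_lit 1556) (C.miq (nat_lit 1805938834) (nat_lit 3733166842319527637052293765)) (C.cons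 (nat_lit 534) (C.miq (nat_lit 2541822004) (nat_lit 2942535295684895820054399005)) (C.cons (nat_lit 532) (C.node (nat_lit 6) (nat_lit 7) (nat_lit 8) (C.cons (nat_lit 1472) (C.miq (nat_lit 730218663) (nat_lit 2862740252141825535823053971)) (C.cons (nat_lit 960) (C.miq (nat_lit 3093563762) (nat_lit 407446316178720635342815877)) (C.cons (nat_lit 448) (C.node (nat_lit 7) (nat_lit 8) (nat_lit 9) (C.cons (nat_lit 928) (C.miq (nat_lit 609684361) (nat_lit 212782842986735905861013249)) (C.cons (nat_lit 896) (C.node (nat_lit 1) (nat_lit 2) (nat_lit 4) C.nil) C.nil))) C.nil)))) C.nil)))) C.nil)) C.nil))) C.nil))) (C.cons (nat_lit 180) (C.miq (nat_lit 2554465111) (nat_lit 333675425444720682200205537)) (C.cons (nat_lit 148) (C.node (nat_lit 4) (nat_lit 5) (nat_lit 7) (C.cons (nat_lit 184) (C.node (nat_lit 1) (nat_lit 4) (nat_lit 5) (C.cons (nat_lit 118) (C.miq (nat_lit 2822900566) (nat_lit 333683689586065704075266273)) (C.cons (nat_lit 114) (C.miq (nat_lit 359876104)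 (nat_lit 222447552823018464070926673)) (C.cons (nat_lit 54) (C.miq (nat_lit 1367818755) (nat_lit 2942528839158117752136861725)) (C.cons (nat_lit 50) (C.node (nat_lit 3) (nat_lit 5) (nat_lit 8) (C.cons (nat_lit 876) (C.miq (nat_lit 2754742102) (nat_lit 2510959089960465348464216289)) (C.cons (nat_lit 872) (C.miq (nat_lit 2840856631) (nat_lit 678228987022266411664277897)) (C.cons (nat_lit 812) (C.miq (nat_lit 1477915140) (nat_lit 2942528839371475784534525981)) (C.cons (nat_lit 808) (C.miq (nat_lit 2840856631) (nat_lit 678228987022266136786370953)) (C.cons (nat_lit 364) (C.miq (nat_lit 2754742102) (nat_lit 2510959089960465348430661857)) (C.cons (nat_lit 360) (C.miq (nat_lit 391331944) (nat_lit 222447553120537514451927377)) (C.cons (nat_lit 300) (C.miq (nat_lit 1477915140) (nat_lit 2942528839227360596458670109)) (C.cons (nat_lit 296) (C.node (nat_lit 4) (nat_lit 6) (nat_lit 7) (C.cons (nat_lit 720) (C.node (nat_lit 3) (nat_lit 4) (nat_lit 9) (C.cons (nat_lit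 1560) (C.miq (nat_lit 2491130704) (nat_lit 2650036250978356023435265065)) (C.cons (nat_lit 536) (C.node (nat_lit 4) (nat_lit 6) (nat_lit 11) (C.cons (nat_lit 2130) (C.miq (nat_lit 1636283440) (nat_lit 2942567374990829864645888029)) (C.cons (nat_lit 2128) (C.node (nat_lit 1) (nat_lit 4) (nat_lit 11) C.nil) C.nil))) C.nil))) (C.cons (nat_lit 208) (C.node (nat_lit 4) (nat_lit 7) (nat_lit 9) (C.cons (nat_lit 656) (C.node (nat_lit 2) (nat_lit 4) (nat_lit 5) (C.cons (nat_lit 1076) (C.node (nat_lit 4) (nat_lit 5) (nat_lit 6) C.nil) (C.cons (nat_lit 116) (C.miq (nat_lit 2822900566) (nat_lit 333683689586065704075135201)) (C.cons (nat_lit 52) (C.node (nat_lit 2) (nat_lit 4) (nat_lit 10) (C.cons (nat_lit 1044) (C.node (nat_lit 4) (nat_lit 5) (nat_lit 6) C.nil) C.nil)) C.nil)))) C.nil)) C.nil))) C.nil))))))))) C.nil))))) (C.cons (nat_lit 176) (C.node (nat_lit 3) (nat_lit 4) (nat_lit 5) (C.cons (nat_lit 120) (C.node (nat_lit 3) (nat_lit 4) (nat_lit 7) (C.cons (nat_lit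 664) (C.miq (nat_lit 1954714384) (nat_lit 333675424550465790613586443)) (C.cons (nat_lit 152) (C.node (nat_lit 3) (nat_lit 5) (nat_lit 11) (C.cons (nat_lit 2600) (C.miq (nat_lit 2471015776) (nat_lit 340987935807148000520767713)) (C.cons (nat_lit 2090) (C.miq (nat_lit 2961266243) (nat_lit 317986044893555595396382840)) (C.cons (nat_lit 2088) (C.node (nat_lit 1) (nat_lit 3) (nat_lit 5) (C.cons (nat_lit 174)
  (C.miq (nat_lit 2819820405) (nat_lit 340936727994919767447046369)) (C.cons (nat_lit 170) (C.miq (nat_lit 2819820405) (nat_lit 340936727994919767446784225)) (C.cons (nat_lit 46) (C.miq (nat_lit 543496259) (nat_lit 2747889236608308871033258266)) (C.cons (nat_lit 42) (C.node (nat_lit 1) (nat_lit 3) (nat_lit 7) (C.cons (nat_lit 206) (C.miq (nat_lit 2452883301) (nat_lit 2510949276144562391672686817)) (C.cons (nat_lit 202) (C.node (nat_lit 1) (nat_lit 2) (nat_lit 3) (C.cons (nat_lit 1038) (C.miq (nat_lit 2789417089) (nat_lit 145090246381757608446525703)) (C.cons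 (nat_lit 14) (C.node (nat_lit 3) (nat_lit 9) (nat_lit 11) (C.cons (nat_lit 2632) (C.miq (nat_lit 2838563687) (nat_lit 632289805876918062169065697)) (C.cons (nat_lit 2568) (C.node (nat_lit 5) (nat_lit 10) (nat_lit 11) (C.cons (nat_lit 3110) (C.miq (nat_lit 1366535040) (nat_lit 244222662219991225509416705)) (C.cons (nat_lit 3108) (C.miq (nat_lit 625388416) (nat_lit 145091261519862394906545921)) (C.cons (nat_lit 3106) (C.miq (nat_lit 1366535040) (nat_lit 244222662218865325602574081)) (C.cons (nat_lit 3104) (C.node (nat_lit 1) (nat_lit 3) (nat_lit 11) C.nil) C.nil))))) C.nil))) C.nil))) (C.cons (nat_lit 142) (C.miq (nat_lit 1662473355) (nat_lit 171709395868335093164673328)) (C.cons (nat_lit 138) (C.miq (nat_lit 1662473355) (nat_lit 166873692589876576465848624)) C.nil))))) C.nil))))) C.nil)))) C.nil))) (C.cons (nat_lit 56) (C.node (nat_lit 7) (nat_lit 8) (nat_lit 9) (C.cons (nat_lit 960) (C.node (nat_lit 1) (nat_lit 8) (nat_lit 9) (C.cons (nat_lit 802) (C.miq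 (nat_lit 323326136) (nat_lit 67714640334386682464833281)) (C.cons (nat_lit 770) (C.node (nat_lit 4) (nat_lit 6) (nat_lit 7) (C.cons (nat_lit 216) (C.miq (nat_lit 2537260608) (nat_lit 2640364844252554141437329745)) (C.cons (nat_lit 208) (C.node (nat_lit 3) (nat_lit 4) (nat_lit 7) (C.cons (nat_lit 664) (C.miq (nat_lit 1954714384) (nat_lit 333675424550465790613586443)) (C.cons (nat_lit 152) (C.node (nat_lit 4) (nat_lit 7) (nat_lit 9) (C.cons (nat_lit 656) (C.node (nat_lit 1) (nat_lit 7) (nat_lit 9) C.nil) C.nil)) C.nil))) C.nil))) C.nil))) (C.cons (nat_lit 928) (C.miq (nat_lit 609684361) (nat_lit 212782842986735905861013249)) (C.cons (nat_lit 896) (C.node (nat_lit 1) (nat_lit 4) (nat_lit 11) (C.cons (nat_lit 2642) (C.miq (nat_lit 1636283440) (nat_lit 2942567375134945052721743901)) (C.cons (nat_lit 2578) (C.node (nat_lit 4) (nat_lit 6) (nat_lit 11) (C.cons (nat_lit 2128) (C.node (nat_lit 2) (nat_lit 4) (nat_lit 9) C.nil) C.nil)) (C.cons (nat_lit 2130) (C.miq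 (nat_lit 1636283440) (nat_lit 2942567374990829864645888029)) (C.cons (nat_lit 2066) (C.node (nat_lit 4) (nat_lit 6) (nat_lit 11) (C.cons (nat_lit 2640) (C.node (nat_lit 1) (nat_lit 4) (nat_lit 9) C.nil) (C.cons (nat_lit 2128) (C.node (nat_lit 4) (nat_lit 9) (nat_lit 11) C.nil) C.nil))) C.nil))))) C.nil)))) C.nil))) C.nil))) C.nil)))) C.nil)) C.nil))) C.nil)))) C.nil))) (C.cons (nat_lit 274) (C.node (nat_lit 1) (nat_lit 8) (nat_lit 9) (C.cons (nat_lit 866) (C.miq (nat_lit 414422336) (nat_lit 2795046142839940633746801201)) (C.cons (nat_lit 834) (C.node (nat_lit 1) (nat_lit 3) (nat_lit 4) (C.cons (nat_lit 122) (C.miq (nat_lit 1368933131) (nat_lit 1008287520335004290248673309)) (C.cons (nat_lit 90) (C.miq (nat_lit 3105032292) (nat_lit 632306518627041120664289617)) (C.cons (nat_lit 58) (C.miq (nat_lit 1368933131) (nat_lit 1008287520316989891739191325)) (C.cons (nat_lit 26) (C.node (nat_lit 1) (nat_lit 7) (nat_lit 9) (C.cons (nat_lit 674) (C.node (nat_lit 3) (nat_lit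 5) (nat_lit 11) (C.cons (nat_lit 2600) (C.miq (nat_lit 1133579095) (nat_lit 632289805380396065843448033)) (C.cons (nat_lit 2090) (C.miq (nat_lit 588843863) (nat_lit 632280102393011104185977057)) (C.cons (nat_lit 2088) (C.node (nat_lit 3) (nat_lit 9) (nat_lit 11) (C.cons (nat_lit 2632) (C.miq (nat_lit 728236945) (nat_lit 2862741192925768102352912907)) (C.cons (nat_lit 2568) (C.node (nat_lit 5) (nat_lit 9) (nat_lit 11) (C.cons (nat_lit 2596) (C.miq (nat_lit 364149024) (nat_lit 2843415129060643416968069765))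
  (C.cons (nat_lit 2592) (C.node (nat_lit 1) (nat_lit 4) (nat_lit 11) C.nil) C.nil))) C.nil))) C.nil)))) (C.cons (nat_lit 642) (C.node (nat_lit 1) (nat_lit 3) (nat_lit 8) (C.cons (nat_lit 1290) (C.miq (nat_lit 951427440) (nat_lit 2843413173879159493637506195)) (C.cons (nat_lit 298) (C.node (nat_lit 1) (nat_lit 8) (nat_lit 10) (C.cons (nat_lit 1282) (C.node (nat_lit 1) (nat_lit 5) (nat_lit 7) (C.cons (nat_lit 166) (C.node (nat_lit 5) (nat_lit 6) (nat_lit 8) (C.cons (nat_lit 1376) (C.miq (nat_lit 1630898442) (nat_lit 360285277199757295319846657)) (C.cons (nat_lit 356) (C.miq (nat_lit 1093142358) (nat_lit 317953707441008223782701281)) (C.cons (nat_lit 352) (C.node (nat_lit 5) (nat_lit 8) (nat_lit 9) (C.cons (nat_lit 928) (C.miq (nat_lit 1165146256) (nat_lit 200720000605502668735319809)) (C.cons (nat_lit 804) (C.miq (nat_lit 2823883047) (nat_lit 360281496463618646657598085)) (C.cons (nat_lit 800) (C.node (nat_lit 5) (nat_lit 7) (nat_lit 9) (C.cons (nat_lit 1696)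 (C.miq (nat_lit 680857767) (nat_lit 967143717925263991505945747)) (C.cons (nat_lit 680) (C.miq (nat_lit 2450878595) (nat_lit 200694230023551055070626185)) (C.cons (nat_lit 672) (C.node (nat_lit 5) (nat_lit 10) (nat_lit 11) (C.cons (nat_lit 3108) (C.miq (nat_lit 2793742411) (nat_lit 425599221292584155885864989)) (C.cons (nat_lit 3106) (C.miq (nat_lit 890702520) (nat_lit 200688935926233601379798785)) (C.cons (nat_lit 3104) (C.node (nat_lit 2) (nat_lit 5) (nat_lit 11) (C.cons (nat_lit 2596) (C.miq (nat_lit 448098450) (nat_lit 3752508806572948888941232773)) (C.cons (nat_lit 2084) (C.node (nat_lit 1) (nat_lit 3) (nat_lit 7) (C.cons (nat_lit 202) (C.node (nat_lit 1) (nat_lit 2) (nat_lit 3) (C.cons (nat_lit 1038) (C.node (nat_lit 1) (nat_lit 3) (nat_lit 11) (C.cons (nat_lit 2058) (C.node (nat_lit 2) (nat_lit 10) (nat_lit 11) C.nil) C.nil)) (C.cons (nat_lit 14) (C.node (nat_lit 1) (nat_lit 3) (nat_lit 10) (C.cons (nat_lit 3082) (C.node (nat_lit 2) (nat_lit 10) (nat_lit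 11) C.nil) (C.cons (nat_lit 1034) (C.node (nat_lit 1) (nat_lit 3) (nat_lit 11) C.nil) C.nil))) C.nil))) (C.cons (nat_lit 138) (C.node (nat_lit 1) (nat_lit 6) (nat_lit 7) (C.cons (nat_lit 194) (C.node (nat_lit 1) (nat_lit 4) (nat_lit 5) (C.cons (nat_lit 114) (C.node (nat_lit 2) (nat_lit 5) (nat_lit 8) C.nil) C.nil)) C.nil)) C.nil))) C.nil))) C.nil)))) C.nil)))) C.nil)))) C.nil)))) (C.cons (nat_lit 162) (C.node (nat_lit 3) (nat_lit 5) (nat_lit 11) (C.cons (nat_lit 2600) (C.node (nat_lit 3) (nat_lit 4) (nat_lit 5) (C.cons (nat_lit 184) (C.miq (nat_lit 2872510804) (nat_lit 2640315592256816983915889201)) (C.cons (nat_lit 120) (C.miq (nat_lit 1451832331) (nat_lit 1008292095126970821400135709)) (C.cons (nat_lit 56) (C.node (nat_lit 5) (nat_lit 7) (nat_lit 9) (C.cons (nat_lit 1696) (C.miq (nat_lit 1949671609) (nat_lit 67731131905984363728736001)) (C.cons (nat_lit 928) (C.miq (nat_lit 2024969536) (nat_lit 2790212690081710558169334321)) (C.cons (nat_lit 672) (C.node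 (nat_lit 4) (nat_lit 5) (nat_lit 7) (C.cons (nat_lit 180) (C.miq (nat_lit 2239345696) (nat_lit 812469005387047842150156317)) (C.cons (nat_lit 176) (C.node (nat_lit 1) (nat_lit 5) (nat_lit 9) (C.cons (nat_lit 1574) (C.miq (nat_lit 1129384858) (nat_lit 360281495967104501593542401)) (C.cons (nat_lit 1570) (C.miq (nat_lit 1129384858) (nat_lit 360281495967104501593280257)) (C.cons (nat_lit 550) (C.miq (nat_lit 899121440) (nat_lit 812405400435333678590394631)) (C.cons (nat_lit 546) (C.node (nat_lit 1) (nat_lit 9) (nat_lit 10) (C.cons (nat_lit 1542) (C.node (nat_lit 1) (nat_lit 9) (nat_lit 11) (C.cons (nat_lit 2578) (C.miq (nat_lit 2710897843) (nat_lit 660093143621644300386306077)) C.nil)) (C.cons (nat_lit 1538) (C.node (nat_lit 1) (nat_lit 4) (nat_lit 11) (C.cons (nat_lit 2578) (C.miq (nat_lit 2710897843) (nat_lit 660093143621644300386306077)) (C.cons (nat_lit 2130) (C.node (nat_lit 4) (nat_lit 9) (nat_lit 11) C.nil) C.nil))) C.nil))) C.nil))))) C.nil))) C.nil))))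 C.nil)))) (C.cons (nat_lit 2088) (C.node (nat_lit 3) (nat_lit 9) (nat_lit 11) (C.cons (nat_lit 2632)
  (C.miq (nat_lit 728236945) (nat_lit 2862741192925768102352912907)) (C.cons (nat_lit 2568) (C.node (nat_lit 5) (nat_lit 6) (nat_lit 8) (C.cons (nat_lit 1376) (C.miq (nat_lit 1630898442) (nat_lit 360285277199757295319846657)) (C.cons (nat_lit 356) (C.node (nat_lit 5) (nat_lit 8) (nat_lit 9) (C.cons (nat_lit 928) (C.miq (nat_lit 2024969536) (nat_lit 2790212690081710558169334321)) (C.cons (nat_lit 800) (C.node (nat_lit 5) (nat_lit 10) (nat_lit 11) (C.cons (nat_lit 3110) (C.miq (nat_lit 890702520) (nat_lit 195853232647775101860843265)) (C.cons (nat_lit 3108) (C.miq (nat_lit 1176862891) (nat_lit 430420978619731112815234817)) (C.cons (nat_lit 3106) (C.miq (nat_lit 890702520) (nat_lit 195853232647775084680974081)) (C.cons (nat_lit 3104) (C.node (nat_lit 2) (nat_lit 10) (nat_lit 11) C.nil) C.nil))))) C.nil))) (C.cons (nat_lit 352) (C.node (nat_lit 5) (nat_lit 10)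 (nat_lit 11) (C.cons (nat_lit 3110) (C.miq (nat_lit 890702520) (nat_lit 195853232647775101860843265)) (C.cons (nat_lit 3108) (C.miq (nat_lit 2793742411) (nat_lit 425599221292584155885864989)) (C.cons (nat_lit 3106) (C.miq (nat_lit 890702520) (nat_lit 195853232647775084680974081)) (C.cons (nat_lit 3104) (C.node (nat_lit 2) (nat_lit 10) (nat_lit 11) C.nil) C.nil))))) C.nil)))) C.nil))) C.nil))) C.nil))) C.nil)) (C.cons (nat_lit 266) (C.node (nat_lit 1) (nat_lit 5) (nat_lit 8) (C.cons (nat_lit 1314) (C.node (nat_lit 5) (nat_lit 10) (nat_lit 11) (C.cons (nat_lit 3108) (C.miq (nat_lit 1750729906) (nat_lit 1588548689359762469222090781)) (C.cons (nat_lit 3104) (C.node (nat_lit 1) (nat_lit 9) (nat_lit 10) (C.cons (nat_lit 1542) (C.node (nat_lit 2) (nat_lit 10) (nat_lit 11) (C.cons (nat_lit 3076) (C.node (nat_lit 1) (nat_lit 2) (nat_lit 4) (C.cons (nat_lit 118) (C.miq (nat_lit 1787109556) (nat_lit 1588530703997092079959279645)) (C.cons (nat_lit 86) (C.miq (nat_lit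 646517770) (nat_lit 1008272578462170687486362771)) (C.cons (nat_lit 54) (C.miq (nat_lit 730153121) (nat_lit 2843394524442427822908245139)) (C.cons (nat_lit 22) (C.node (nat_lit 1) (nat_lit 5) (nat_lit 7) (C.cons (nat_lit 174) (C.miq (nat_lit 2819820405) (nat_lit 321593914881085700651747553)) (C.cons (nat_lit 170) (C.miq (nat_lit 2819820405) (nat_lit 321593914881085700651485409)) (C.cons (nat_lit 166) (C.miq (nat_lit 3121940775) (nat_lit 1588570457504054285770818181)) (C.cons (nat_lit 162) (C.node (nat_lit 1) (nat_lit 2) (nat_lit 7) (C.cons (nat_lit 206) (C.miq (nat_lit 2167060320) (nat_lit 1864234468474856283933313249)) (C.cons (nat_lit 198) (C.miq (nat_lit 2167060320) (nat_lit 1864234468474856249573574881)) (C.cons (nat_lit 142) (C.miq (nat_lit 2704839280) (nat_lit 321645122395513502858543749)) C.nil)))) C.nil))))) C.nil))))) C.nil)) (C.cons (nat_lit 1538) (C.node (nat_lit 2) (nat_lit 10) (nat_lit 11) (C.cons (nat_lit 3078) (C.node (nat_lit 1) (nat_lit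 2) (nat_lit 3) (C.cons (nat_lit 206) (C.miq (nat_lit 2167060320) (nat_lit 3721144527402926696281999585)) (C.cons (nat_lit 174) (C.miq (nat_lit 2819820405) (nat_lit 321593914881085700651747553)) (C.cons (nat_lit 142) (C.miq (nat_lit 2709041712) (nat_lit 2942596299752375117849102365)) (C.cons (nat_lit 110) (C.miq (nat_lit 2167121200) (nat_lit 3721144527087674310113690665)) (C.cons (nat_lit 78) (C.miq (nat_lit 730214545) (nat_lit 2862737780278119658701324811)) (C.cons (nat_lit 46) (C.miq (nat_lit 2167121200) (nat_lit 3721144527087674035235783721)) (C.cons (nat_lit 14) (C.node (nat_lit 1) (nat_lit 3) (nat_lit 10) (C.cons (nat_lit 1098) (C.node (nat_lit 1) (nat_lit 3) (nat_lit 7) (C.cons (nat_lit 170) (C.miq (nat_lit 2168108880) (nat_lit 1327471404565960775743113441)) C.nil)) C.nil)) C.nil)))))))) (C.cons (nat_lit 3076) (C.node (nat_lit 1) (nat_lit 2) (nat_lit 10) (C.cons (nat_lit 1038) (C.node (nat_lit 1) (nat_lit 3) (nat_lit 5) (C.cons (nat_lit 2090) (C.miq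 (nat_lit 1696205618) (nat_lit 1588548689904696898716829725)) (C.cons (nat_lit 170) (C.miq (nat_lit 2168108880) (nat_lit 1254935855389083025260742881)) (C.cons (nat_lit 106)
  (C.miq (nat_lit 1705513737) (nat_lit 1588543911588021131253187083)) (C.cons (nat_lit 42) (C.node (nat_lit 1) (nat_lit 3) (nat_lit 7) (C.cons (nat_lit 202) (C.node (nat_lit 1) (nat_lit 3) (nat_lit 11) C.nil) C.nil)) C.nil))))) (C.cons (nat_lit 1030) (C.node (nat_lit 3) (nat_lit 9) (nat_lit 11) (C.cons (nat_lit 2632) (C.miq (nat_lit 728236945) (nat_lit 2862741192925768102352912907)) (C.cons (nat_lit 2600) (C.node (nat_lit 1) (nat_lit 5) (nat_lit 11) (C.cons (nat_lit 2086) (C.node (nat_lit 1) (nat_lit 5) (nat_lit 9) C.nil) C.nil)) (C.cons (nat_lit 2568) (C.node (nat_lit 3) (nat_lit 5) (nat_lit 11) C.nil) C.nil)))) C.nil))) C.nil))) C.nil))) C.nil))) (C.cons (nat_lit 290) (C.node (nat_lit 1) (nat_lit 8) (nat_lit 10) (C.cons (nat_lit 1282) (C.node (nat_lit 3) (nat_lit 9) (nat_lit 11) (C.cons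 (nat_lit 2632) (C.miq (nat_lit 728236945) (nat_lit 2862741192925768102352912907)) (C.cons (nat_lit 2600) (C.node (nat_lit 3) (nat_lit 4) (nat_lit 5) (C.cons (nat_lit 184) (C.miq (nat_lit 2872510804) (nat_lit 2640315592256816983915889201)) (C.cons (nat_lit 120) (C.miq (nat_lit 1451832331) (nat_lit 1008292095126970821400135709)) (C.cons (nat_lit 56) (C.node (nat_lit 5) (nat_lit 7) (nat_lit 9) (C.cons (nat_lit 1696) (C.miq (nat_lit 1949671609) (nat_lit 67731131905984363728736001)) (C.cons (nat_lit 928) (C.miq (nat_lit 2024969536) (nat_lit 2790212690081710558169334321)) (C.cons (nat_lit 672) (C.node (nat_lit 4) (nat_lit 5) (nat_lit 7) (C.cons (nat_lit 180) (C.miq (nat_lit 2239345696) (nat_lit 812469005387047842150156317)) (C.cons (nat_lit 176) (C.node (nat_lit 5) (nat_lit 8) (nat_lit 9) (C.cons (nat_lit 804) (C.node (nat_lit 1) (nat_lit 5) (nat_lit 9) (C.cons (nat_lit 1570) (C.miq (nat_lit 339058873) (nat_lit 67728807616231076325232385)) (C.cons (nat_lit 546)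 (C.node (nat_lit 3) (nat_lit 8) (nat_lit 9) (C.cons (nat_lit 792) (C.miq (nat_lit 1697909656) (nat_lit 67706063090975862932639489)) (C.cons (nat_lit 776) (C.node (nat_lit 1) (nat_lit 5) (nat_lit 7) (C.cons (nat_lit 174) (C.miq (nat_lit 2819820405) (nat_lit 321593914881085700651747553)) (C.cons (nat_lit 170) (C.miq (nat_lit 2819820405) (nat_lit 321593914881085700651485409)) (C.cons (nat_lit 166) (C.miq (nat_lit 2823883047) (nat_lit 350610089906701613259948677)) (C.cons (nat_lit 162) (C.node (nat_lit 1) (nat_lit 4) (nat_lit 11) C.nil) C.nil))))) C.nil))) C.nil))) (C.cons (nat_lit 800) (C.node (nat_lit 7) (nat_lit 8) (nat_lit 9) (C.cons (nat_lit 912) (C.node (nat_lit 2) (nat_lit 4) (nat_lit 7) (C.cons (nat_lit 212) (C.miq (nat_lit 2823162226) (nat_lit 407428164582551898985595525)) (C.cons (nat_lit 148) (C.node (nat_lit 3) (nat_lit 4) (nat_lit 9) (C.cons (nat_lit 1624) (C.miq (nat_lit 1966345114) (nat_lit 67721447675533336753213185)) (C.cons (nat_lit 1560) (C.miq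 (nat_lit 1966345114) (nat_lit 67721447675533336749018881)) (C.cons (nat_lit 600) (C.miq (nat_lit 563284068) (nat_lit 632306517619923654026985809)) (C.cons (nat_lit 536) (C.node (nat_lit 2) (nat_lit 4) (nat_lit 8) (C.cons (nat_lit 1300) (C.node (nat_lit 3) (nat_lit 4) (nat_lit 8) (C.cons (nat_lit 280) (C.node (nat_lit 1) (nat_lit 4) (nat_lit 11) C.nil) C.nil)) (C.cons (nat_lit 276) (C.node (nat_lit 1) (nat_lit 4) (nat_lit 11) C.nil) C.nil))) C.nil))))) C.nil))) (C.cons (nat_lit 896) (C.node (nat_lit 1) (nat_lit 4) (nat_lit 11) (C.cons (nat_lit 2578) (C.miq (nat_lit 1531590928) (nat_lit 3733182577484259404115280395)) (C.cons (nat_lit 2130) (C.node (nat_lit 4) (nat_lit 9) (nat_lit 11) C.nil) C.nil))) C.nil))) C.nil))) C.nil))) C.nil)))) C.nil)))) (C.cons (nat_lit 2568) (C.node (nat_lit 3) (nat_lit 5) (nat_lit 11) (C.cons (nat_lit 2090) (C.node (nat_lit 1) (nat_lit 5) (nat_lit 7) (C.cons (nat_lit 166) (C.node (nat_lit 1) (nat_lit 3) (nat_lit 7) (C.cons (nat_lit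 202) (C.node (nat_lit 1) (nat_lit 2) (nat_lit 3) (C.cons (nat_lit 1038) (C.node (nat_lit 1) (nat_lit 4) (nat_lit 5) C.nil) C.nil)) C.nil)) (C.cons (nat_lit 162) (C.node (nat_lit 1) (nat_lit 3) (nat_lit 10) C.nil) C.nil))) (C.cons (nat_lit 2088)
  (C.node (nat_lit 7) (nat_lit 8) (nat_lit 9) (C.cons (nat_lit 928) (C.miq (nat_lit 2024969536) (nat_lit 2790212690081710558169334321)) (C.cons (nat_lit 912) (C.node (nat_lit 2) (nat_lit 4) (nat_lit 7) (C.cons (nat_lit 212) (C.miq (nat_lit 2823162226) (nat_lit 407428164582551898985595525)) (C.cons (nat_lit 180) (C.miq (nat_lit 696545461) (nat_lit 1102543668084042932153223393)) (C.cons (nat_lit 148) (C.node (nat_lit 4) (nat_lit 5) (nat_lit 7) (C.cons (nat_lit 184) (C.miq (nat_lit 2839873651) (nat_lit 678227031667394770250498441)) (C.cons (nat_lit 176) (C.node (nat_lit 2) (nat_lit 4) (nat_lit 8) (C.cons (nat_lit 1300) (C.node (nat_lit 5) (nat_lit 8) (nat_lit 10) (C.cons (nat_lit 1312) (C.miq (nat_lit 1703545666) (nat_lit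 1586130838265468765666019357)) C.nil)) (C.cons (nat_lit 276) (C.node (nat_lit 3) (nat_lit 4) (nat_lit 8) (C.cons (nat_lit 1304) (C.node (nat_lit 6) (nat_lit 7) (nat_lit 8) C.nil) C.nil)) C.nil))) C.nil))) C.nil)))) (C.cons (nat_lit 896) (C.node (nat_lit 4) (nat_lit 7) (nat_lit 8) (C.cons (nat_lit 404) (C.node (nat_lit 4) (nat_lit 8) (nat_lit 9) (C.cons (nat_lit 792) (C.node (nat_lit 4) (nat_lit 8) (nat_lit 10) C.nil) C.nil)) C.nil)) C.nil)))) C.nil))) C.nil)))) C.nil)) C.nil))) C.nil)))) C.nil))) C.nil))))) (C.cons (nat_lit 802) (C.miq (nat_lit 414422336) (nat_lit 2795046142821926235237319217)) (C.cons (nat_lit 770) (C.node (nat_lit 1) (nat_lit 3) (nat_lit 4) (C.cons (nat_lit 122) (C.miq (nat_lit 1368933131) (nat_lit 930916267879668023067478045)) (C.cons (nat_lit 90) (C.node (nat_lit 1) (nat_lit 4) (nat_lit 5) (C.cons (nat_lit 54) (C.node (nat_lit 3) (nat_lit 4) (nat_lit 5) (C.cons (nat_lit 184) (C.miq (nat_lit 1367818755) (nat_lit 2942528839158117752136861725))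 (C.cons (nat_lit 56) (C.node (nat_lit 4) (nat_lit 5) (nat_lit 7) (C.cons (nat_lit 176) (C.node (nat_lit 5) (nat_lit 10) (nat_lit 11) (C.cons (nat_lit 3108) (C.miq (nat_lit 1649674936) (nat_lit 65288211119608314010275585)) (C.cons (nat_lit 3106) (C.miq (nat_lit 1535353200) (nat_lit 2795056141605732884232602771)) (C.cons (nat_lit 3104) (C.node (nat_lit 1) (nat_lit 8) (nat_lit 10) (C.cons (nat_lit 1378) (C.miq (nat_lit 1648730296) (nat_lit 65307414180184617542225665)) (C.cons (nat_lit 1346) (C.miq (nat_lit 998654113) (nat_lit 2862738001639048543249499283)) (C.cons (nat_lit 1314) (C.miq (nat_lit 730153121) (nat_lit 2843394524442427822908245139)) (C.cons (nat_lit 1290) (C.miq (nat_lit 951427440) (nat_lit 2843413173879159493637506195)) (C.cons (nat_lit 1282) (C.node (nat_lit 1) (nat_lit 3) (nat_lit 8) (C.cons (nat_lit 298) (C.node (nat_lit 1) (nat_lit 6) (nat_lit 8) (C.cons (nat_lit 322) (C.node (nat_lit 1) (nat_lit 3) (nat_lit 11) (C.cons (nat_lit 3082) (C.miq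 (nat_lit 2707993408) (nat_lit 389344968727403977434531869)) (C.cons (nat_lit 2058) (C.node (nat_lit 1) (nat_lit 3) (nat_lit 7) (C.cons (nat_lit 142) (C.node (nat_lit 1) (nat_lit 3) (nat_lit 10) (C.cons (nat_lit 1034) (C.node (nat_lit 1) (nat_lit 5) (nat_lit 7) (C.cons (nat_lit 674) (C.miq (nat_lit 1362401056) (nat_lit 108813672578456721106469509)) C.nil)) C.nil)) (C.cons (nat_lit 138) (C.node (nat_lit 1) (nat_lit 2) (nat_lit 7) (C.cons (nat_lit 198) (C.miq (nat_lit 2819754870) (nat_lit 317967653931075876996647137)) C.nil)) C.nil))) C.nil))) C.nil)) (C.cons (nat_lit 266) (C.node (nat_lit 1) (nat_lit 4) (nat_lit 9) (C.cons (nat_lit 2578) (C.node (nat_lit 4) (nat_lit 6) (nat_lit 11) (C.cons (nat_lit 2128) (C.node (nat_lit 2) (nat_lit 10) (nat_lit 11) (C.cons (nat_lit 3078) (C.miq (nat_lit 2689775937) (nat_lit 44787035485147952489826834)) C.nil)) C.nil)) (C.cons (nat_lit 530) (C.node (nat_lit 1) (nat_lit 4) (nat_lit 11) (C.cons (nat_lit 2066) (C.node (nat_lit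 1) (nat_lit 5) (nat_lit 8) (C.cons (nat_lit 354) (C.node (nat_lit 1) (nat_lit 3) (nat_lit 5) (C.cons (nat_lit 2090) (C.miq (nat_lit 830780768) (nat_lit 331283989050133710373980385)) (C.cons (nat_lit 170) (C.miq (nat_lit 2819820405) (nat_lit 321593914881085700651485409)) C.nil))) (C.cons (nat_lit 290)
  (C.node (nat_lit 1) (nat_lit 6) (nat_lit 8) C.nil) C.nil))) C.nil)) C.nil))) C.nil))) C.nil)))))) C.nil)))) C.nil)) C.nil))) (C.cons (nat_lit 50) (C.node (nat_lit 1) (nat_lit 2) (nat_lit 4) (C.cons (nat_lit 534) (C.node (nat_lit 1) (nat_lit 4) (nat_lit 11) (C.cons (nat_lit 2066) (C.node (nat_lit 1) (nat_lit 6) (nat_lit 7) (C.cons (nat_lit 706) (C.miq (nat_lit 1632336160) (nat_lit 2497682672971827043960160901)) (C.cons (nat_lit 198) (C.miq (nat_lit 2819754870) (nat_lit 317967653931075876996647137)) (C.cons (nat_lit 194) (C.node (nat_lit 1) (nat_lit 7) (nat_lit 9) (C.cons (nat_lit 674) (C.miq (nat_lit 1363900704) (nat_lit 2497682672962819844705419909)) (C.cons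 (nat_lit 642) (C.node (nat_lit 2) (nat_lit 9) (nat_lit 11) (C.cons (nat_lit 2628) (C.miq (nat_lit 1763160640) (nat_lit 776172306381590004357072925)) (C.cons (nat_lit 2596) (C.miq (nat_lit 1494725184) (nat_lit 776172306372582805102331933)) (C.cons (nat_lit 2564) (C.node (nat_lit 2) (nat_lit 4) (nat_lit 7) (C.cons (nat_lit 404) (C.miq (nat_lit 826804519) (nat_lit 331252924292043068081963653)) (C.cons (nat_lit 212) (C.miq (nat_lit 2439447362) (nat_lit 234543507302377401934415901)) (C.cons (nat_lit 180) (C.miq (nat_lit 2217325936) (nat_lit 645637242280229016040704225)) (C.cons (nat_lit 148) (C.node (nat_lit 2) (nat_lit 4) (nat_lit 6) (C.cons (nat_lit 116) (C.node (nat_lit 4) (nat_lit 5) (nat_lit 10) (C.cons (nat_lit 1072) (C.node (nat_lit 1) (nat_lit 2) (nat_lit 6) (C.cons (nat_lit 2118) (C.miq (nat_lit 2962318658) (nat_lit 632307274502194206776623220)) (C.cons (nat_lit 70) (C.node (nat_lit 1) (nat_lit 3) (nat_lit 8) C.nil) C.nil))) C.nil)) (C.cons (nat_lit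 84) (C.node (nat_lit 2) (nat_lit 4) (nat_lit 8) (C.cons (nat_lit 1300) (C.miq (nat_lit 1411823776) (nat_lit 101591698958943121238724353)) (C.cons (nat_lit 276) (C.node (nat_lit 5) (nat_lit 10) (nat_lit 11) (C.cons (nat_lit 3110) (C.miq (nat_lit 1415755786) (nat_lit 101607138883728680079920897)) (C.cons (nat_lit 3108) (C.miq (nat_lit 1415755786) (nat_lit 101607101990240532660817665)) (C.cons (nat_lit 3106) (C.miq (nat_lit 1535353200) (nat_lit 2795056141605732884232602771)) (C.cons (nat_lit 3104) (C.node (nat_lit 2) (nat_lit 5) (nat_lit 11) C.nil) C.nil))))) C.nil))) C.nil))) C.nil))))) C.nil)))) C.nil))) C.nil)))) C.nil)) (C.cons (nat_lit 22) (C.node (nat_lit 1) (nat_lit 4) (nat_lit 9) (C.cons (nat_lit 2578) (C.node (nat_lit 4) (nat_lit 6) (nat_lit 11) (C.cons (nat_lit 2128) (C.node (nat_lit 3) (nat_lit 9) (nat_lit 11) (C.cons (nat_lit 2632) (C.miq (nat_lit 2875459889) (nat_lit 2572615746358397887565136395)) (C.cons (nat_lit 2600) (C.miq (nat_lit 1531590928)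 (nat_lit 3733182577484259404115280395)) (C.cons (nat_lit 2568) (C.node (nat_lit 3) (nat_lit 5) (nat_lit 11) (C.cons (nat_lit 2090) (C.node (nat_lit 3) (nat_lit 6) (nat_lit 11) (C.cons (nat_lit 3144) (C.node (nat_lit 1) (nat_lit 6) (nat_lit 11) C.nil) C.nil)) C.nil)) C.nil)))) C.nil)) (C.cons (nat_lit 530) (C.node (nat_lit 1) (nat_lit 4) (nat_lit 11) (C.cons (nat_lit 2066) (C.node (nat_lit 3) (nat_lit 4) (nat_lit 5) (C.cons (nat_lit 184) (C.node (nat_lit 3) (nat_lit 4) (nat_lit 8) (C.cons (nat_lit 1304) (C.miq (nat_lit 1535340708) (nat_lit 2795039889789741333596341395)) (C.cons (nat_lit 792) (C.miq (nat_lit 2489025392) (nat_lit 2843464381900523909274468745)) (C.cons (nat_lit 280) (C.node (nat_lit 3) (nat_lit 4) (nat_lit 9) (C.cons (nat_lit 1560) (C.miq (nat_lit 2491130704) (nat_lit 2650036250978356023435265065)) (C.cons (nat_lit 536) (C.node (nat_lit 3) (nat_lit 4) (nat_lit 10) (C.cons (nat_lit 1048) (C.node (nat_lit 4) (nat_lit 6) (nat_lit 11) C.nil) C.nil))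 C.nil))) C.nil)))) (C.cons (nat_lit 56) (C.node (nat_lit 3) (nat_lit 4) (nat_lit 7) (C.cons (nat_lit 664) (C.node (nat_lit 4) (nat_lit 6) (nat_lit 7) (C.cons (nat_lit 212) (C.miq (nat_lit 270940532) (nat_lit 1321357581192970504900969112)) (C.cons (nat_lit 208) (C.node (nat_lit 4) (nat_lit 7) (nat_lit 8) (C.cons (nat_lit 404) (C.miq (nat_lit 2541827104) (nat_lit 2942535092776059081050228765)) (C.cons (nat_lit 400)
  (C.node (nat_lit 4) (nat_lit 6) (nat_lit 11) C.nil) C.nil))) C.nil))) (C.cons (nat_lit 152) (C.node (nat_lit 4) (nat_lit 5) (nat_lit 7) (C.cons (nat_lit 180) (C.node (nat_lit 2) (nat_lit 4) (nat_lit 8) (C.cons (nat_lit 1300) (C.miq (nat_lit 1698827146) (nat_lit 217626810461708539898629889)) (C.cons (nat_lit 788) (C.miq (nat_lit 683119696) (nat_lit 2942537343313747337455665713)) (C.cons (nat_lit 276) (C.miq (nat_lit 2554465111) (nat_lit 333675425444720682200205537)) C.nil)))) (C.cons (nat_lit 176) (C.node (nat_lit 4) (nat_lit 6) (nat_lit 11) (C.cons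 (nat_lit 2640) (C.node (nat_lit 4) (nat_lit 6) (nat_lit 7) C.nil) (C.cons (nat_lit 2128) (C.node (nat_lit 4) (nat_lit 9) (nat_lit 11) C.nil) C.nil))) C.nil))) C.nil))) C.nil))) C.nil)) C.nil))) C.nil))) C.nil))) (C.cons (nat_lit 58) (C.miq (nat_lit 1368933131) (nat_lit 930916267861653624557996061)) (C.cons (nat_lit 26) (C.node (nat_lit 5) (nat_lit 10) (nat_lit 11) (C.cons (nat_lit 3110) (C.miq (nat_lit 1535353200) (nat_lit 2795056141606858784139445395)) (C.cons (nat_lit 3108) (C.node (nat_lit 4) (nat_lit 5) (nat_lit 10) (C.cons (nat_lit 1136) (C.miq (nat_lit 625388416) (nat_lit 1373359894248325636408020737)) (C.cons (nat_lit 1072) (C.node (nat_lit 3) (nat_lit 4) (nat_lit 5) (C.cons (nat_lit 184) (C.node (nat_lit 3) (nat_lit 4) (nat_lit 8) (C.cons (nat_lit 1304) (C.miq (nat_lit 1535340708) (nat_lit 2795039889789741333596341395)) (C.cons (nat_lit 792) (C.miq (nat_lit 2489025392) (nat_lit 2843464381900523909274468745)) (C.cons (nat_lit 280) (C.node (nat_lit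 4) (nat_lit 8) (nat_lit 9) (C.cons (nat_lit 912) (C.miq (nat_lit 2488960816) (nat_lit 1296039332827575562776674697)) (C.cons (nat_lit 788) (C.miq (nat_lit 659853496) (nat_lit 222456887024982973865791233)) (C.cons (nat_lit 784) (C.node (nat_lit 5) (nat_lit 7) (nat_lit 10) (C.cons (nat_lit 1696) (C.miq (nat_lit 2538317104) (nat_lit 2650036251016636620255069225)) (C.cons (nat_lit 1440) (C.miq (nat_lit 628341376) (nat_lit 222480665571363275280027393)) (C.cons (nat_lit 1184) (C.node (nat_lit 2) (nat_lit 4) (nat_lit 5) (C.cons (nat_lit 118) (C.miq (nat_lit 1367818755) (nat_lit 2942528839176132150646343709)) (C.cons (nat_lit 116) (C.node (nat_lit 1) (nat_lit 4) (nat_lit 5) (C.cons (nat_lit 50) (C.node (nat_lit 2) (nat_lit 4) (nat_lit 7) (C.cons (nat_lit 404) (C.miq (nat_lit 2722674016) (nat_lit 488476885943122030824065249)) (C.cons (nat_lit 148) (C.node (nat_lit 4) (nat_lit 7) (nat_lit 8) (C.cons (nat_lit 400) (C.node (nat_lit 2) (nat_lit 4) (nat_lit 8) (C.cons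 (nat_lit 1300) (C.node (nat_lit 7) (nat_lit 8) (nat_lit 10) C.nil) (C.cons (nat_lit 276) (C.miq (nat_lit 2722674016) (nat_lit 333734381032449496461674721)) C.nil))) C.nil)) C.nil))) C.nil)) (C.cons (nat_lit 54) (C.miq (nat_lit 1649674936) (nat_lit 65288211119608314010275585)) (C.cons (nat_lit 52) (C.miq (nat_lit 1649674936) (nat_lit 62870359480379055660863233)) C.nil))))) C.nil)))) C.nil)))) C.nil)))) (C.cons (nat_lit 120) (C.miq (nat_lit 625388416) (nat_lit 145091261519862394906545921)) (C.cons (nat_lit 56) (C.node (nat_lit 4) (nat_lit 5) (nat_lit 7) (C.cons (nat_lit 180) (C.miq (nat_lit 1649674936) (nat_lit 217612864391051590023253761)) (C.cons (nat_lit 176) (C.node (nat_lit 2) (nat_lit 4) (nat_lit 7) (C.cons (nat_lit 404) (C.node (nat_lit 2) (nat_lit 4) (nat_lit 5) (C.cons (nat_lit 118) (C.miq (nat_lit 2722674016) (nat_lit 488476885943122039413999841)) (C.cons (nat_lit 116) (C.miq (nat_lit 2722674016) (nat_lit 488476885943122030824065249)) (C.cons (nat_lit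 54) (C.miq (nat_lit 1649674936) (nat_lit 65288211119608314010275585)) (C.cons (nat_lit 52) (C.miq (nat_lit 1649674936) (nat_lit 62870359480379055660863233)) C.nil))))) (C.cons (nat_lit 212) (C.miq (nat_lit 1415755786) (nat_lit 256349606900913067023208193)) (C.cons (nat_lit 148) (C.node (nat_lit 4) (nat_lit 7) (nat_lit 8) (C.cons (nat_lit 912) (C.node (nat_lit 2) (nat_lit 4) (nat_lit 8) (C.cons (nat_lit 1300) (C.node (nat_lit 3) (nat_lit 4) (nat_lit 8) (C.cons (nat_lit 280) (C.node (nat_lit 7) (nat_lit 8) (nat_lit 10)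
  (C.cons (nat_lit 1472) (C.miq (nat_lit 1487320096) (nat_lit 1779580736584048415730894877)) (C.cons (nat_lit 1440) (C.miq (nat_lit 849873751) (nat_lit 1571610815654075770452576481)) (C.cons (nat_lit 1408) (C.node (nat_lit 3) (nat_lit 8) (nat_lit 10) (C.cons (nat_lit 1354) (C.miq (nat_lit 1487320096) (nat_lit 1636927489869522173115566109)) (C.cons (nat_lit 1352) (C.miq (nat_lit 1487320096) (nat_lit 1634509638230292914766153757)) (C.cons (nat_lit 1290) (C.miq (nat_lit 951427440) (nat_lit 2843413173879159493637506195)) (C.cons (nat_lit 1288) (C.node (nat_lit 2) (nat_lit 7) (nat_lit 10) (C.cons (nat_lit 1164) (C.node (nat_lit 5) (nat_lit 7) (nat_lit 10) (C.cons (nat_lit 1696) (C.miq (nat_lit 1168312690) (nat_lit 1287544311934935912076280453)) (C.cons (nat_lit 1184) (C.node (nat_lit 5) (nat_lit 7) (nat_lit 8) (C.cons (nat_lit 420) (C.node (nat_lit 6) (nat_lit 7) (nat_lit 8) C.nil) C.nil)) C.nil))) (C.cons (nat_lit 1156) (C.node (nat_lit 3) (nat_lit 4) (nat_lit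 7) (C.cons (nat_lit 216) (C.node (nat_lit 3) (nat_lit 4) (nat_lit 9) (C.cons (nat_lit 1560) (C.miq (nat_lit 323094952) (nat_lit 2510943778980494294530658049)) C.nil)) (C.cons (nat_lit 152) (C.node (nat_lit 4) (nat_lit 6) (nat_lit 7) (C.cons (nat_lit 208) (C.node (nat_lit 5) (nat_lit 7) (nat_lit 8) C.nil) C.nil)) C.nil))) C.nil))) C.nil))))) C.nil)))) C.nil)) (C.cons (nat_lit 276) (C.node (nat_lit 2) (nat_lit 4) (nat_lit 5) (C.cons (nat_lit 118) (C.miq (nat_lit 2722674016) (nat_lit 333734381032449505051609313)) (C.cons (nat_lit 116) (C.miq (nat_lit 2722674016) (nat_lit 333734381032449496461674721)) (C.cons (nat_lit 54) (C.miq (nat_lit 1649674936) (nat_lit 65288211119608314010275585)) (C.cons (nat_lit 52) (C.miq (nat_lit 1649674936) (nat_lit 62870359480379055660863233)) C.nil))))) C.nil))) (C.cons (nat_lit 400) (C.node (nat_lit 2) (nat_lit 4) (nat_lit 8) (C.cons (nat_lit 1300) (C.node (nat_lit 7) (nat_lit 8) (nat_lit 10) (C.cons (nat_lit 1472) (C.miq (nat_lit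 1487320096) (nat_lit 1779580736584048415730894877)) (C.cons (nat_lit 1440) (C.miq (nat_lit 849873751) (nat_lit 1571610815654075770452576481)) (C.cons (nat_lit 1408) (C.node (nat_lit 3) (nat_lit 8) (nat_lit 10) (C.cons (nat_lit 1354) (C.miq (nat_lit 1487320096) (nat_lit 1636927489869522173115566109)) (C.cons (nat_lit 1352) (C.miq (nat_lit 1487320096) (nat_lit 1634509638230292914766153757)) (C.cons (nat_lit 1290) (C.miq (nat_lit 951427440) (nat_lit 2843413173879159493637506195)) (C.cons (nat_lit 1288) (C.node (nat_lit 2) (nat_lit 7) (nat_lit 10) (C.cons (nat_lit 1164) (C.node (nat_lit 5) (nat_lit 7) (nat_lit 10) (C.cons (nat_lit 1696) (C.miq (nat_lit 1168312690) (nat_lit 1287544311934935912076280453)) (C.cons (nat_lit 1184) (C.node (nat_lit 1) (nat_lit 2) (nat_lit 10) (C.cons (nat_lit 1542) (C.node (nat_lit 2) (nat_lit 4) (nat_lit 9) (C.cons (nat_lit 596) (C.miq (nat_lit 1380366976) (nat_lit 720561718814428341031997185)) (C.cons (nat_lit 532) (C.node (nat_lit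 2) (nat_lit 9) (nat_lit 11) (C.cons (nat_lit 2628) (C.miq (nat_lit 431465056) (nat_lit 3249614204695479236905993285)) (C.cons (nat_lit 2564) (C.node (nat_lit 3) (nat_lit 4) (nat_lit 8) C.nil) C.nil))) C.nil))) (C.cons (nat_lit 1030) (C.node (nat_lit 2) (nat_lit 9) (nat_lit 10) (C.cons (nat_lit 1540) (C.node (nat_lit 3) (nat_lit 4) (nat_lit 8) (C.cons (nat_lit 792) (C.node (nat_lit 3) (nat_lit 4) (nat_lit 7) (C.cons (nat_lit 216) (C.miq (nat_lit 2474345568) (nat_lit 2640364844205266345362784593)) (C.cons (nat_lit 152) (C.node (nat_lit 4) (nat_lit 6) (nat_lit 7) C.nil) C.nil))) (C.cons (nat_lit 280) (C.node (nat_lit 4) (nat_lit 8) (nat_lit 9) (C.cons (nat_lit 784) (C.node (nat_lit 2) (nat_lit 7) (nat_lit 8) C.nil) C.nil)) C.nil))) C.nil)) C.nil))) C.nil))) (C.cons (nat_lit 1156) (C.node (nat_lit 3) (nat_lit 4) (nat_lit 8) (C.cons (nat_lit 792) (C.node (nat_lit 3) (nat_lit 4) (nat_lit 7) (C.cons (nat_lit 216) (C.miq (nat_lit 2474345568) (nat_lit 2640364844205266345362784593))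 (C.cons (nat_lit 152) (C.node (nat_lit 4) (nat_lit 6) (nat_lit 7) C.nil) C.nil)))
  (C.cons (nat_lit 280) (C.node (nat_lit 4) (nat_lit 8) (nat_lit 9) (C.cons (nat_lit 784) (C.node (nat_lit 2) (nat_lit 7) (nat_lit 8) C.nil) C.nil)) C.nil))) C.nil))) C.nil))))) C.nil)))) (C.cons (nat_lit 788) (C.miq (nat_lit 1411889296) (nat_lit 178962951414277189367303937)) (C.cons (nat_lit 276) (C.node (nat_lit 2) (nat_lit 4) (nat_lit 5) (C.cons (nat_lit 118) (C.miq (nat_lit 2722674016) (nat_lit 333734381032449505051609313)) (C.cons (nat_lit 116) (C.miq (nat_lit 2722674016) (nat_lit 333734381032449496461674721)) (C.cons (nat_lit 54) (C.miq (nat_lit 1649674936) (nat_lit 65288211119608314010275585)) (C.cons (nat_lit 52) (C.miq (nat_lit 1649674936) (nat_lit 62870359480379055660863233)) C.nil))))) C.nil)))) C.nil))) C.nil)))) C.nil))) C.nil)))) C.nil))) (C.cons (nat_lit 3106) (C.miq (nat_lit 1535353200) (nat_lit 2795056141605732884232602771)) (C.cons (nat_lit 3104) (C.node (nat_lit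 2) (nat_lit 10) (nat_lit 11) (C.cons (nat_lit 3078) (C.node (nat_lit 2) (nat_lit 5) (nat_lit 11) (C.cons (nat_lit 2596) (C.node (nat_lit 2) (nat_lit 6) (nat_lit 11) (C.cons (nat_lit 2116) (C.node (nat_lit 1) (nat_lit 5) (nat_lit 11) (C.cons (nat_lit 2090) (C.node (nat_lit 3) (nat_lit 9) (nat_lit 11) C.nil) C.nil)) C.nil)) (C.cons (nat_lit 2084) (C.node (nat_lit 2) (nat_lit 6) (nat_lit 11) (C.cons (nat_lit 2628) (C.node (nat_lit 4) (nat_lit 9) (nat_lit 11) (C.cons (nat_lit 2578) (C.miq (nat_lit 2516890273) (nat_lit 407455557656072988371651590)) C.nil)) C.nil)) C.nil))) (C.cons (nat_lit 3076) (C.node (nat_lit 1) (nat_lit 7) (nat_lit 9) (C.cons (nat_lit 706) (C.node (nat_lit 3) (nat_lit 9) (nat_lit 11) (C.cons (nat_lit 2632) (C.miq (nat_lit 1133579111) (nat_lit 632289805380396203284498657)) (C.cons (nat_lit 2600) (C.node (nat_lit 1) (nat_lit 3) (nat_lit 11) (C.cons (nat_lit 3146) (C.miq (nat_lit 1410568363) (nat_lit 31480033002484494924123905)) (C.cons (nat_lit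 3082) (C.miq (nat_lit 1410568363) (nat_lit 31480033002484494919929601)) (C.cons (nat_lit 2122) (C.miq (nat_lit 588843879) (nat_lit 632280102393011241627027681)) C.nil)))) (C.cons (nat_lit 2568) (C.node (nat_lit 3) (nat_lit 5) (nat_lit 11) C.nil) C.nil)))) (C.cons (nat_lit 674) (C.node (nat_lit 3) (nat_lit 5) (nat_lit 11) (C.cons (nat_lit 2600) (C.miq (nat_lit 1133579095) (nat_lit 632289805380396065843448033)) (C.cons (nat_lit 2090) (C.miq (nat_lit 588843863) (nat_lit 632280102393011104185977057)) (C.cons (nat_lit 2088) (C.node (nat_lit 1) (nat_lit 5) (nat_lit 11) C.nil) C.nil)))) (C.cons (nat_lit 642) (C.node (nat_lit 1) (nat_lit 6) (nat_lit 7) (C.cons (nat_lit 206) (C.miq (nat_lit 2819754870) (nat_lit 317967653931075876997171425)) (C.cons (nat_lit 202) (C.node (nat_lit 1) (nat_lit 2) (nat_lit 7) (C.cons (nat_lit 166) (C.node (nat_lit 2) (nat_lit 5) (nat_lit 11) (C.cons (nat_lit 2596) (C.miq (nat_lit 448098450) (nat_lit 3752508806572948888941232773)) (C.cons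 (nat_lit 2084) (C.node (nat_lit 1) (nat_lit 3) (nat_lit 11) C.nil) C.nil))) (C.cons (nat_lit 134) (C.node (nat_lit 1) (nat_lit 5) (nat_lit 7) (C.cons (nat_lit 162) (C.node (nat_lit 1) (nat_lit 3) (nat_lit 8) (C.cons (nat_lit 1290) (C.miq (nat_lit 1460865930) (nat_lit 244222661984396670061383425)) (C.cons (nat_lit 298) (C.node (nat_lit 1) (nat_lit 2) (nat_lit 3) (C.cons (nat_lit 1038) (C.node (nat_lit 1) (nat_lit 3) (nat_lit 11) C.nil) (C.cons (nat_lit 14) (C.node (nat_lit 1) (nat_lit 3) (nat_lit 10) C.nil) C.nil))) (C.cons (nat_lit 266) (C.node (nat_lit 1) (nat_lit 10) (nat_lit 11) (C.cons (nat_lit 3138) (C.miq (nat_lit 2704848496) (nat_lit 321645122844747823386790113)) (C.cons (nat_lit 3082) (C.node (nat_lit 6) (nat_lit 10) (nat_lit 11) C.nil) (C.cons (nat_lit 3074) (C.node (nat_lit 1) (nat_lit 3) (nat_lit 10) C.nil) C.nil)))) C.nil)))) C.nil)) C.nil))) (C.cons (nat_lit 198) (C.miq (nat_lit 2819754870) (nat_lit 317967653931075876996647137)) (C.cons (nat_lit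 194) (C.node (nat_lit 1) (nat_lit 3) (nat_lit 7) (C.cons (nat_lit 174) (C.miq (nat_lit 363557640) (nat_lit 3752550643507865587676152201)) (C.cons (nat_lit 170)
  (C.miq (nat_lit 363557640) (nat_lit 3752550643506739687769309577)) (C.cons (nat_lit 142) (C.node (nat_lit 1) (nat_lit 5) (nat_lit 7) (C.cons (nat_lit 162) (C.node (nat_lit 4) (nat_lit 5) (nat_lit 7) (C.cons (nat_lit 184) (C.node (nat_lit 3) (nat_lit 4) (nat_lit 8) (C.cons (nat_lit 1304) (C.miq (nat_lit 1535340708) (nat_lit 2795039889789741333596341395)) (C.cons (nat_lit 792) (C.miq (nat_lit 2489025392) (nat_lit 2843464381900523909274468745)) (C.cons (nat_lit 280) (C.node (nat_lit 4) (nat_lit 8) (nat_lit 9) (C.cons (nat_lit 912) (C.miq (nat_lit 2839873651) (nat_lit 678227031667394770250498441)) (C.cons (nat_lit 788) (C.miq (nat_lit 659853496) (nat_lit 222456887024982973865791233)) (C.cons (nat_lit 784) (C.node (nat_lit 5) (nat_lit 7) (nat_lit 9) (C.cons (nat_lit 1696) (C.miq (nat_lit 2538317104)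 (nat_lit 2650036251016636620255069225)) (C.cons (nat_lit 928) (C.miq (nat_lit 609684361) (nat_lit 222454249543652939258662657)) (C.cons (nat_lit 672) (C.node (nat_lit 2) (nat_lit 3) (nat_lit 5) (C.cons (nat_lit 876) (C.miq (nat_lit 2754742102) (nat_lit 2510959089960465348464216289)) (C.cons (nat_lit 812) (C.miq (nat_lit 2171936835) (nat_lit 195860961607790726751979549)) (C.cons (nat_lit 620) (C.miq (nat_lit 2754742102) (nat_lit 2510959089960465348447439073)) (C.cons (nat_lit 556) (C.miq (nat_lit 1393857136) (nat_lit 31442420089906406614041221)) (C.cons (nat_lit 364) (C.miq (nat_lit 2754742102) (nat_lit 2510959089960465348430661857)) (C.cons (nat_lit 300) (C.miq (nat_lit 2171936835) (nat_lit 195851516874824987461552157)) (C.cons (nat_lit 108) (C.miq (nat_lit 2754742102) (nat_lit 2510959089960465348413884641)) (C.cons (nat_lit 44) (C.node (nat_lit 4) (nat_lit 7) (nat_lit 8) (C.cons (nat_lit 404) (C.node (nat_lit 2) (nat_lit 6) (nat_lit 7) C.nil) (C.cons (nat_lit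 400) (C.node (nat_lit 2) (nat_lit 4) (nat_lit 7) C.nil) C.nil))) C.nil))))))))) C.nil)))) C.nil)))) C.nil)))) (C.cons (nat_lit 180) (C.miq (nat_lit 1461273136) (nat_lit 776140724866683386947373085)) (C.cons (nat_lit 176) (C.node (nat_lit 3) (nat_lit 4) (nat_lit 5) (C.cons (nat_lit 120) (C.node (nat_lit 3) (nat_lit 4) (nat_lit 8) (C.cons (nat_lit 1304) (C.miq (nat_lit 3091597877) (nat_lit 407449931740560559877653545)) (C.cons (nat_lit 792) (C.miq (nat_lit 1803767956) (nat_lit 2795038709198120616151482929)) (C.cons (nat_lit 280) (C.node (nat_lit 4) (nat_lit 8) (nat_lit 10) (C.cons (nat_lit 1300) (C.miq (nat_lit 643080376) (nat_lit 145095079428713235541397249)) (C.cons (nat_lit 1296) (C.node (nat_lit 1) (nat_lit 4) (nat_lit 5) (C.cons (nat_lit 54) (C.node (nat_lit 4) (nat_lit 5) (nat_lit 10) (C.cons (nat_lit 1072) (C.node (nat_lit 2) (nat_lit 5) (nat_lit 11) (C.cons (nat_lit 2596) (C.miq (nat_lit 447889557) (nat_lit 3718656817588403016579678769)) (C.cons (nat_lit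 2084) (C.node (nat_lit 1) (nat_lit 5) (nat_lit 11) C.nil) C.nil))) C.nil)) (C.cons (nat_lit 50) (C.node (nat_lit 2) (nat_lit 4) (nat_lit 5) (C.cons (nat_lit 1076) (C.node (nat_lit 1) (nat_lit 2) (nat_lit 4) (C.cons (nat_lit 598) (C.miq (nat_lit 1635271216) (nat_lit 2942531661663082897337813021)) (C.cons (nat_lit 534) (C.miq (nat_lit 2735886484) (nat_lit 171687315381673750785557041)) (C.cons (nat_lit 86) (C.miq (nat_lit 1635271216) (nat_lit 2942531661518967709261957149)) (C.cons (nat_lit 22) (C.node (nat_lit 1) (nat_lit 2) (nat_lit 10) C.nil) C.nil))))) (C.cons (nat_lit 52) (C.node (nat_lit 4) (nat_lit 5) (nat_lit 10) (C.cons (nat_lit 1072) (C.node (nat_lit 1) (nat_lit 2) (nat_lit 4) (C.cons (nat_lit 598) (C.miq (nat_lit 1635271216) (nat_lit 2942531661663082897337813021)) (C.cons (nat_lit 22) (C.node (nat_lit 2) (nat_lit 4) (nat_lit 10) C.nil) C.nil))) C.nil)) C.nil))) C.nil))) C.nil))) C.nil)))) (C.cons (nat_lit 56) (C.node (nat_lit 3) (nat_lit 5) (nat_lit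 7) (C.cons (nat_lit 680) (C.node (nat_lit 3) (nat_lit 4) (nat_lit 7) (C.cons (nat_lit 216) (C.miq (nat_lit 1729643296) (nat_lit 2942531661555559456225822749)) (C.cons (nat_lit 152) (C.node (nat_lit 3) (nat_lit 6) (nat_lit 7) C.nil) C.nil))) (C.cons (nat_lit 168)
  (C.node (nat_lit 5) (nat_lit 7) (nat_lit 9) (C.cons (nat_lit 1696) (C.node (nat_lit 2) (nat_lit 5) (nat_lit 7) C.nil) (C.cons (nat_lit 928) (C.miq (nat_lit 609684361) (nat_lit 212782842986735905861013249)) (C.cons (nat_lit 672) (C.node (nat_lit 2) (nat_lit 4) (nat_lit 7) C.nil) C.nil)))) C.nil))) C.nil))) C.nil)))) C.nil)) (C.cons (nat_lit 138) (C.node (nat_lit 1) (nat_lit 2) (nat_lit 7) (C.cons (nat_lit 166) (C.node (nat_lit 2) (nat_lit 5) (nat_lit 11) (C.cons (nat_lit 2596) (C.miq (nat_lit 448098450) (nat_lit 3752508806572948888941232773)) (C.cons (nat_lit 2084) (C.node (nat_lit 1) (nat_lit 5) (nat_lit 11) C.nil) C.nil))) (C.cons (nat_lit 134) (C.node (nat_lit 1) (nat_lit 5) (nat_lit 7) (C.cons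 (nat_lit 162) (C.node (nat_lit 1) (nat_lit 4) (nat_lit 5) (C.cons (nat_lit 118) (C.miq (nat_lit 716529796) (nat_lit 3752507921107278302683332945)) (C.cons (nat_lit 114) (C.node (nat_lit 1) (nat_lit 2) (nat_lit 4) C.nil) (C.cons (nat_lit 54) (C.node (nat_lit 1) (nat_lit 2) (nat_lit 3) C.nil) C.nil)))) C.nil)) C.nil))) C.nil))))) C.nil))))) C.nil)))) C.nil))) C.nil))))) C.nil))))) C.nil))))) C.nil)))) List.nil)

theorem ok12_296 : okL par12 (nat_lit 297) c12_296 (nat_lit 296) = true := by decide +kernel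

noncomputable def c12_297 : List C :=
  (List.cons (C.node (nat_lit 1) (nat_lit 7) (nat_lit 9) (C.cons (nat_lit 706) (C.node (nat_lit 1) (nat_lit 4) (nat_lit 9) (C.cons (nat_lit 534) (C.miq (nat_lit 1368896544) (nat_lit 853543558687744533847148573)) (C.cons (nat_lit 530) (C.node (nat_lit 6) (nat_lit 9) (nat_lit 11) (C.cons (nat_lit 2632) (C.miq (nat_lit 957658736) (nat_lit 640768999024039728359082209)) (C.cons (nat_lit 2628) (C.miq (nat_lit 689223280) (nat_lit 640768999022913828452239585)) (C.cons (nat_lit 2624) (C.node (nat_lit 1) (nat_lit 9) (nat_lit 11) C.nil) C.nil)))) C.nil))) (C.cons (nat_lit 674) (C.miq (nat_lit 656083284) (nat_lit 2942563759011002760897364529)) (C.cons (nat_lit 642) (C.node (nat_lit 2) (nat_lit 5) (nat_lit 11) (C.cons (nat_lit 2596) (C.miq (nat_lit 1500623364) (nat_lit 776169078192370382672168989)) (C.cons (nat_lit 2340) (C.node (nat_lit 3) (nat_lit 5) (nat_lit 11) (C.cons (nat_lit 2600) (C.node (nat_lit 3) (nat_lit 8) (nat_lit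 11) (C.cons (nat_lit 2376) (C.node (nat_lit 1) (nat_lit 3) (nat_lit 11) C.nil) C.nil)) C.nil)) (C.cons (nat_lit 2084) (C.node (nat_lit 2) (nat_lit 8) (nat_lit 11) C.nil) C.nil)))) C.nil)))) (List.cons (C.node (nat_lit 2) (nat_lit 8) (nat_lit 11) (C.cons (nat_lit 2372) (C.miq (nat_lit 2709653430) (nat_lit 317967653179537689321670881)) (C.cons (nat_lit 2340) (C.node (nat_lit 5) (nat_lit 10) (nat_lit 11) (C.cons (nat_lit 3106) (C.miq (nat_lit 901253655) (nat_lit 2828893667768437427191022739)) (C.cons (nat_lit 3104) (C.node (nat_lit 2) (nat_lit 10) (nat_lit 11) (C.cons (nat_lit 3078) (C.node (nat_lit 1) (nat_lit 2) (nat_lit 7) (C.cons (nat_lit 206) (C.miq (nat_lit 2167060320) (nat_lit 3721144527402926696281999585)) (C.cons (nat_lit 198) (C.miq (nat_lit 2167060320) (nat_lit 3721144527402926661922261217)) (C.cons (nat_lit 174) (C.miq (nat_lit 2182788464) (nat_lit 3721144527376467911037356257)) (C.cons (nat_lit 166) (C.miq (nat_lit 2182788464) (nat_lit 3721144527376467876677617889))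 (C.cons (nat_lit 142) (C.miq (nat_lit 2709041712) (nat_lit 2942596299752375117849102365)) (C.cons (nat_lit 134) (C.node (nat_lit 1) (nat_lit 8) (nat_lit 10) (C.cons (nat_lit 1378) (C.miq (nat_lit 1209730722) (nat_lit 2942563758924311491791684677)) (C.cons (nat_lit 1354) (C.miq (nat_lit 951427440) (nat_lit 2828906064061798342050514067)) (C.cons (nat_lit 1346) (C.miq (nat_lit 1209730722) (nat_lit 2942563758924311354352731205)) (C.cons (nat_lit 1314) (C.miq (nat_lit 1264190081) (nat_lit 3752527345805752849110532359)) (C.cons (nat_lit 1290) (C.miq (nat_lit 951427440) (nat_lit 2828906064043783943541032083)) (C.cons (nat_lit 1282) (C.node (nat_lit 1) (nat_lit 3) (nat_lit 10) (C.cons (nat_lit 1098) (C.node (nat_lit 3) (nat_lit 10) (nat_lit 11) (C.cons (nat_lit 3080) (C.node (nat_lit 6) (nat_lit 10) (nat_lit 11) (C.cons (nat_lit 3136) (C.node (nat_lit 1) (nat_lit 3) (nat_lit 11) (C.cons (nat_lit 2090) (C.node (nat_lit 5) (nat_lit 9) (nat_lit 11) C.nil) C.nil)) C.nil))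 C.nil)) (C.cons (nat_lit 1034) (C.node (nat_lit 2) (nat_lit 6) (nat_lit 11) (C.cons (nat_lit 2628) (C.node (nat_lit 4) (nat_lit 9) (nat_lit 11) (C.cons (nat_lit 2578) (C.miq (nat_lit 2516890273) (nat_lit 407455557656072988371651590)) (C.cons (nat_lit 2576) (C.node (nat_lit 1) (nat_lit 4) (nat_lit 11) (C.cons (nat_lit 2130) (C.node (nat_lit 1) (nat_lit 3) (nat_lit 11) (C.cons (nat_lit 2058) (C.node (nat_lit 1) (nat_lit 5) (nat_lit 11) C.nil) C.nil)) (C.cons (nat_lit 2066) (C.node (nat_lit 4) (nat_lit 6) (nat_lit 11) C.nil) C.nil))) C.nil))) (C.cons (nat_lit 2116) (C.node (nat_lit 2) (nat_lit 9) (nat_lit 11) (C.cons (nat_lit 2564) (C.node (nat_lit 3) (nat_lit 8) (nat_lit 11) (C.cons (nat_lit 2376) (C.node (nat_lit 3) (nat_lit 10) (nat_lit 11) C.nil) C.nil)) C.nil)) C.nil))) C.nil))) C.nil))))))) C.nil))))))) (C.cons (nat_lit 3076) (C.node (nat_lit 3) (nat_lit 8) (nat_lit 11) (C.cons (nat_lit 2376) (C.node (nat_lit 6) (nat_lit 10) (nat_lit 11) (C.cons (nat_lit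 3138) (C.miq (nat_lit 1661646961) (nat_lit 1287563884441269604298459522)) (C.cons (nat_lit 3136)
  (C.node (nat_lit 1) (nat_lit 10) (nat_lit 11) (C.cons (nat_lit 3082) (C.node (nat_lit 3) (nat_lit 5) (nat_lit 11) (C.cons (nat_lit 2600) (C.miq (nat_lit 1537512208) (nat_lit 3733173280325248419164783115)) C.nil)) C.nil)) C.nil))) (C.cons (nat_lit 2312) (C.node (nat_lit 6) (nat_lit 8) (nat_lit 11) (C.cons (nat_lit 2368) (C.node (nat_lit 1) (nat_lit 5) (nat_lit 11) C.nil) C.nil)) C.nil))) C.nil))) C.nil))) (C.cons (nat_lit 2308) (C.node (nat_lit 5) (nat_lit 8) (nat_lit 11) (C.cons (nat_lit 2344) (C.node (nat_lit 6) (nat_lit 8) (nat_lit 11) (C.cons (nat_lit 2368) (C.node (nat_lit 3) (nat_lit 9) (nat_lit 11) (C.cons (nat_lit 2632) (C.node (nat_lit 1) (nat_lit 3) (nat_lit 11) (C.cons (nat_lit 3082) (C.miq (nat_lit 2208412935) (nat_lit 3725954276087144445119760609)) (C.cons (nat_lit 2058) (C.node (nat_lit 3) (nat_lit 10) (nat_lit 11) C.nil) C.nil))) (C.cons (nat_lit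 2568) (C.node (nat_lit 1) (nat_lit 4) (nat_lit 8) (C.cons (nat_lit 786) (C.miq (nat_lit 1460931465) (nat_lit 1415662484031959190704623361)) (C.cons (nat_lit 306) (C.node (nat_lit 1) (nat_lit 3) (nat_lit 4) (C.cons (nat_lit 90) (C.node (nat_lit 1) (nat_lit 3) (nat_lit 8) (C.cons (nat_lit 1290) (C.node (nat_lit 1) (nat_lit 3) (nat_lit 11) (C.cons (nat_lit 2058) (C.node (nat_lit 1) (nat_lit 4) (nat_lit 11) C.nil) C.nil)) (C.cons (nat_lit 266) (C.miq (nat_lit 2709718965) (nat_lit 321593914129547512976509153)) C.nil))) (C.cons (nat_lit 26) (C.node (nat_lit 1) (nat_lit 8) (nat_lit 9) (C.cons (nat_lit 834) (C.node (nat_lit 1) (nat_lit 3) (nat_lit 8) (C.cons (nat_lit 1290) (C.node (nat_lit 1) (nat_lit 7) (nat_lit 9) (C.cons (nat_lit 674) (C.miq (nat_lit 896639160) (nat_lit 814839799019895761890578177)) (C.cons (nat_lit 642) (C.node (nat_lit 1) (nat_lit 6) (nat_lit 10) (C.cons (nat_lit 3138) (C.miq (nat_lit 1528432515) (nat_lit 3793628868372947926998712713)) (C.cons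 (nat_lit 1122) (C.miq (nat_lit 2980411440) (nat_lit 1356456699742009109722497417)) (C.cons (nat_lit 1090) (C.node (nat_lit 1) (nat_lit 6) (nat_lit 7) (C.cons (nat_lit 206) (C.miq (nat_lit 1460865930) (nat_lit 249058365262855186760208129)) (C.cons (nat_lit 202) (C.miq (nat_lit 1460865930) (nat_lit 244222661984396670061383425)) (C.cons (nat_lit 198) (C.miq (nat_lit 2819754870) (nat_lit 317967653931075876996647137)) (C.cons (nat_lit 194) (C.node (nat_lit 1) (nat_lit 3) (nat_lit 11) (C.cons (nat_lit 2122) (C.node (nat_lit 3) (nat_lit 10) (nat_lit 11) C.nil) (C.cons (nat_lit 2058) (C.node (nat_lit 3) (nat_lit 6) (nat_lit 11) C.nil) C.nil))) C.nil))))) C.nil)))) C.nil))) (C.cons (nat_lit 266) (C.miq (nat_lit 2709718965) (nat_lit 321593914129547512976509153)) C.nil))) (C.cons (nat_lit 770) (C.node (nat_lit 3) (nat_lit 4) (nat_lit 5) (C.cons (nat_lit 184) (C.miq (nat_lit 2874411063) (nat_lit 2533930120130728517030117769)) (C.cons (nat_lit 120) (C.node (nat_lit 3)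 (nat_lit 4) (nat_lit 8) (C.cons (nat_lit 1304) (C.miq (nat_lit 1966345098) (nat_lit 145092700130868504401809153)) (C.cons (nat_lit 792) (C.miq (nat_lit 1803767956) (nat_lit 2833724335425788749742080561)) (C.cons (nat_lit 280) (C.node (nat_lit 1) (nat_lit 3) (nat_lit 8) (C.cons (nat_lit 1354) (C.miq (nat_lit 2556693045) (nat_lit 407418350914706583873651753)) (C.cons (nat_lit 1290) (C.node (nat_lit 1) (nat_lit 6) (nat_lit 8) (C.cons (nat_lit 322) (C.node (nat_lit 1) (nat_lit 3) (nat_lit 5) (C.cons (nat_lit 174) (C.miq (nat_lit 1696088864) (nat_lit 369937517388607112125810717)) (C.cons (nat_lit 170) (C.node (nat_lit 1) (nat_lit 2) (nat_lit 7) (C.cons (nat_lit 198) (C.miq (nat_lit 557475664) (nat_lit 1559534469649876975513831649)) (C.cons (nat_lit 134) (C.node (nat_lit 2) (nat_lit 10) (nat_lit 11) (C.cons (nat_lit 3110) (C.miq (nat_lit 2789548161) (nat_lit 145128468035478334639046919)) (C.cons (nat_lit 3108) (C.miq (nat_lit 363557640) (nat_lit 3757386346785198204468134281))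 (C.cons (nat_lit 3078) (C.miq (nat_lit 1521561735) (nat_lit 3721076809020108477695132041)) (C.cons (nat_lit 3076) (C.node (nat_lit 1) (nat_lit 3) (nat_lit 11) C.nil) C.nil))))) C.nil)))
  (C.cons (nat_lit 46) (C.miq (nat_lit 1899346080) (nat_lit 55652517836668117738655489)) (C.cons (nat_lit 42) (C.miq (nat_lit 1899346080) (nat_lit 50816814558209601039830785)) C.nil))))) C.nil)) (C.cons (nat_lit 330) (C.miq (nat_lit 2709718965) (nat_lit 398965166584883780157704417)) (C.cons (nat_lit 266) (C.miq (nat_lit 2709718965) (nat_lit 321593914129547512976509153)) C.nil))))) C.nil)))) (C.cons (nat_lit 56) (C.node (nat_lit 4) (nat_lit 5) (nat_lit 7) (C.cons (nat_lit 180) (C.node (nat_lit 2) (nat_lit 4) (nat_lit 8) (C.cons (nat_lit 1300) (C.miq (nat_lit 1535275172) (nat_lit 2790204112724306522059048083)) (C.cons (nat_lit 788) (C.miq (nat_lit 2220593776) (nat_lit 2533979372078052923462976133)) (C.cons (nat_lit 276) (C.node (nat_lit 2) (nat_lit 4) (nat_lit 10) (C.cons (nat_lit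 1556) (C.miq (nat_lit 2757464688) (nat_lit 2533979372294225705576759941)) (C.cons (nat_lit 1044) (C.node (nat_lit 4) (nat_lit 8) (nat_lit 10) (C.cons (nat_lit 1304) (C.miq (nat_lit 1966345098) (nat_lit 67721447675532237220613889)) (C.cons (nat_lit 1296) (C.node (nat_lit 5) (nat_lit 7) (nat_lit 8) (C.cons (nat_lit 1440) (C.miq (nat_lit 896841888) (nat_lit 217644962077857876425248513)) (C.cons (nat_lit 928) (C.miq (nat_lit 896710800) (nat_lit 217644962077855677367521025)) (C.cons (nat_lit 416) (C.node (nat_lit 5) (nat_lit 7) (nat_lit 10) (C.cons (nat_lit 1696) (C.miq (nat_lit 2773194528) (nat_lit 2533979372333632202303406725)) (C.cons (nat_lit 1184) (C.node (nat_lit 5) (nat_lit 9) (nat_lit 11) (C.cons (nat_lit 2598) (C.miq (nat_lit 925204635) (nat_lit 217649886809364462907559681)) (C.cons (nat_lit 2596) (C.miq (nat_lit 925204635) (nat_lit 217649886809364462907428609)) (C.cons (nat_lit 2594) (C.miq (nat_lit 2712995715) (nat_lit 3135973222192404231692485001))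 (C.cons (nat_lit 2592) (C.node (nat_lit 1) (nat_lit 3) (nat_lit 11) (C.cons (nat_lit 3146) (C.miq (nat_lit 2208412935) (nat_lit 3803325528542480712300955873)) C.nil)) C.nil))))) C.nil))) C.nil)))) C.nil))) C.nil))) C.nil)))) (C.cons (nat_lit 176) (C.node (nat_lit 3) (nat_lit 4) (nat_lit 8) (C.cons (nat_lit 1304) (C.miq (nat_lit 1966345098) (nat_lit 67721447675532237220613889)) (C.cons (nat_lit 792) (C.node (nat_lit 3) (nat_lit 4) (nat_lit 7) (C.cons (nat_lit 216) (C.miq (nat_lit 2474345568) (nat_lit 2640364844205266345362784593)) (C.cons (nat_lit 152) (C.node (nat_lit 7) (nat_lit 8) (nat_lit 9) (C.cons (nat_lit 960) (C.miq (nat_lit 2033936448) (nat_lit 3104563434489866641848729937)) (C.cons (nat_lit 928) (C.miq (nat_lit 596183895) (nat_lit 957481147869347443120277729)) (C.cons (nat_lit 896) (C.node (nat_lit 5) (nat_lit 8) (nat_lit 9) (C.cons (nat_lit 868) (C.miq (nat_lit 2504468496) (nat_lit 212782842646423871530664199)) (C.cons (nat_lit 864) (C.miq (nat_lit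 1748719936) (nat_lit 2833764050869168108950323761)) (C.cons (nat_lit 804) (C.miq (nat_lit 2504468496) (nat_lit 212782842628409473021182215)) (C.cons (nat_lit 800) (C.node (nat_lit 5) (nat_lit 9) (nat_lit 11) (C.cons (nat_lit 2598) (C.miq (nat_lit 2019099570) (nat_lit 967152553952260615846627357)) (C.cons (nat_lit 2596) (C.miq (nat_lit 2019099570) (nat_lit 967152553952260615846496285)) (C.cons (nat_lit 2594) (C.miq (nat_lit 2712995715) (nat_lit 3135973222192404231692485001)) (C.cons (nat_lit 2592) (C.node (nat_lit 1) (nat_lit 3) (nat_lit 11) (C.cons (nat_lit 3146) (C.miq (nat_lit 2208412935) (nat_lit 3803325528542480712300955873)) C.nil)) C.nil))))) C.nil))))) C.nil)))) C.nil))) (C.cons (nat_lit 280) (C.node (nat_lit 4) (nat_lit 8) (nat_lit 10) (C.cons (nat_lit 1300) (C.node (nat_lit 2) (nat_lit 4) (nat_lit 5) (C.cons (nat_lit 116) (C.miq (nat_lit 2220597856) (nat_lit 2533979372222167836660925509)) (C.cons (nat_lit 52) (C.node (nat_lit 2) (nat_lit 4) (nat_lit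 7) (C.cons (nat_lit 212) (C.miq (nat_lit 1803710628) (nat_lit 2790204703020116880764699795)) (C.cons (nat_lit 148) (C.node (nat_lit 4) (nat_lit 5) (nat_lit 6) (C.cons (nat_lit 1136) (C.miq (nat_lit 1695589506) (nat_lit 42332566297541473475167508)) (C.cons (nat_lit 112)
  (C.node (nat_lit 4) (nat_lit 5) (nat_lit 10) C.nil) C.nil))) C.nil))) C.nil))) (C.cons (nat_lit 1296) (C.node (nat_lit 1) (nat_lit 3) (nat_lit 8) (C.cons (nat_lit 1354) (C.node (nat_lit 1) (nat_lit 3) (nat_lit 11) (C.cons (nat_lit 2058) (C.node (nat_lit 3) (nat_lit 6) (nat_lit 11) C.nil) C.nil)) (C.cons (nat_lit 1290) (C.node (nat_lit 1) (nat_lit 6) (nat_lit 8) (C.cons (nat_lit 322) (C.node (nat_lit 1) (nat_lit 3) (nat_lit 11) (C.cons (nat_lit 2122) (C.node (nat_lit 3) (nat_lit 10) (nat_lit 11) C.nil) (C.cons (nat_lit 2058) (C.node (nat_lit 3) (nat_lit 6) (nat_lit 11) C.nil) C.nil))) C.nil)) (C.cons (nat_lit 330) (C.miq (nat_lit 2709718965) (nat_lit 398965166584883780157704417)) (C.cons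 (nat_lit 266) (C.miq (nat_lit 2709718965) (nat_lit 321593914129547512976509153)) C.nil))))) C.nil))) C.nil)))) C.nil))) C.nil)))) C.nil))) C.nil))) (C.cons (nat_lit 282) (C.miq (nat_lit 2709718965) (nat_lit 340936727243381579771807969)) (C.cons (nat_lit 274) (C.node (nat_lit 3) (nat_lit 4) (nat_lit 8) (C.cons (nat_lit 1304) (C.miq (nat_lit 406485840) (nat_lit 1576460870599906918488672481)) (C.cons (nat_lit 792) (C.node (nat_lit 3) (nat_lit 4) (nat_lit 7) (C.cons (nat_lit 216) (C.miq (nat_lit 2474345568) (nat_lit 2640364844205266345362784593)) (C.cons (nat_lit 184) (C.miq (nat_lit 2821983063) (nat_lit 957490851353252073213266145)) (C.cons (nat_lit 152) (C.node (nat_lit 7) (nat_lit 8) (nat_lit 9) (C.cons (nat_lit 960) (C.miq (nat_lit 2033936448) (nat_lit 3104563434489866641848729937)) (C.cons (nat_lit 928) (C.miq (nat_lit 596183895) (nat_lit 957481147869347443120277729)) (C.cons (nat_lit 896) (C.node (nat_lit 5) (nat_lit 9) (nat_lit 11) (C.cons (nat_lit 2598)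 (C.miq (nat_lit 1501082115) (nat_lit 1083240774274091275499669533)) (C.cons (nat_lit 2596) (C.miq (nat_lit 1501082115) (nat_lit 1083240774273528325546248221)) (C.cons (nat_lit 2594) (C.miq (nat_lit 2712995715) (nat_lit 3135973222192404231692485001)) (C.cons (nat_lit 2592) (C.node (nat_lit 1) (nat_lit 3) (nat_lit 11) (C.cons (nat_lit 3146) (C.miq (nat_lit 2208412935) (nat_lit 3803325528542480712300955873)) C.nil)) C.nil))))) C.nil)))) C.nil)))) (C.cons (nat_lit 280) (C.node (nat_lit 1) (nat_lit 3) (nat_lit 8) (C.cons (nat_lit 1354) (C.node (nat_lit 1) (nat_lit 3) (nat_lit 11) (C.cons (nat_lit 2058) (C.node (nat_lit 3) (nat_lit 6) (nat_lit 11) C.nil) C.nil)) (C.cons (nat_lit 1290) (C.node (nat_lit 1) (nat_lit 3) (nat_lit 11) (C.cons (nat_lit 2122) (C.node (nat_lit 3) (nat_lit 10) (nat_lit 11) C.nil) (C.cons (nat_lit 2058) (C.node (nat_lit 3) (nat_lit 6) (nat_lit 11) C.nil) C.nil))) (C.cons (nat_lit 330) (C.miq (nat_lit 2709718965) (nat_lit 398965166584883780157704417))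 (C.cons (nat_lit 266) (C.miq (nat_lit 2709718965) (nat_lit 321593914129547512976509153)) C.nil))))) C.nil)))) C.nil))))) C.nil))) C.nil)) (C.cons (nat_lit 2336) (C.node (nat_lit 3) (nat_lit 8) (nat_lit 11) (C.cons (nat_lit 2376) (C.node (nat_lit 6) (nat_lit 10) (nat_lit 11) (C.cons (nat_lit 3138) (C.miq (nat_lit 1661646961) (nat_lit 1287563884441269604298459522)) (C.cons (nat_lit 3136) (C.node (nat_lit 3) (nat_lit 9) (nat_lit 11) (C.cons (nat_lit 2600) (C.node (nat_lit 1) (nat_lit 3) (nat_lit 11) (C.cons (nat_lit 3082) (C.miq (nat_lit 1537512208) (nat_lit 3733173280325248419164783115)) C.nil)) (C.cons (nat_lit 2568) (C.node (nat_lit 3) (nat_lit 5) (nat_lit 11) C.nil) C.nil))) C.nil))) (C.cons (nat_lit 2312) (C.node (nat_lit 6) (nat_lit 8) (nat_lit 11) (C.cons (nat_lit 2368) (C.node (nat_lit 5) (nat_lit 10) (nat_lit 11) (C.cons (nat_lit 3110) (C.miq (nat_lit 1535353200) (nat_lit 2795056141606858784139445395)) (C.cons (nat_lit 3108) (C.node (nat_lit 1) (nat_lit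 5) (nat_lit 11) C.nil) (C.cons (nat_lit 3106) (C.miq (nat_lit 1535353200) (nat_lit 2795056141605732884232602771)) (C.cons (nat_lit 3104) (C.node (nat_lit 2) (nat_lit 10) (nat_lit 11) C.nil) C.nil))))) C.nil)) C.nil))) C.nil))) C.nil)))) List.nil))

theorem ok12_297 : okL par12 (nat_lit 299) c12_297 (nat_lit 297) = true := by decide +kernel

noncomputable def c12_299 : List C :=
  (List.cons (C.node (nat_lit 2) (nat_lit 7) (nat_lit 11) (C.cons (nat_lit 3204) (C.node (nat_lit 3) (nat_lit 7) (nat_lit 11) (C.cons (nat_lit 2696) (C.node (nat_lit 7) (nat_lit 9) (nat_lit 10) (C.cons (nat_lit 1728) (C.miq (nat_lit 962639778) (nat_lit 697588512563946087531220100)) (C.cons (nat_lit 1696) (C.miq (nat_lit 1521784608) (nat_lit 3733173280070795564263735941)) (C.cons (nat_lit 1664) (C.node (nat_lit 3) (nat_lit 10) (nat_lit 11) (C.cons (nat_lit 3146) (C.miq (nat_lit 444152608) (nat_lit 2011662212371427534655784989)) (C.cons (nat_lit 3144) (C.miq (nat_lit 1670425458) (nat_lit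 632288366834692528963652740)) (C.cons (nat_lit 3082) (C.miq (nat_lit 444152608) (nat_lit 2011662212353413136146303005)) (C.cons (nat_lit 3080) (C.ref (nat_lit 284) (nat_lit 205099542782736)) C.nil))))) C.nil)))) (C.cons (nat_lit 2184) (C.node (nat_lit 7) (nat_lit 9) (nat_lit 11) (C.cons (nat_lit 2688) (C.ref (nat_lit 295) (nat_lit 205163983024656)) C.nil)) C.nil))) (C.cons (nat_lit 2180) (C.node (nat_lit 4) (nat_lit 8) (nat_lit 11) (C.cons (nat_lit 2352) (C.node (nat_lit 2) (nat_lit 8) (nat_lit 11) (C.cons (nat_lit 2372) (C.miq (nat_lit 2709653430) (nat_lit 317967653179537689321670881)) (C.cons (nat_lit 2308) (C.node (nat_lit 3) (nat_lit 8) (nat_lit 11) (C.cons (nat_lit 2376) (C.node (nat_lit 6) (nat_lit 10) (nat_lit 11) (C.cons (nat_lit 3138) (C.miq (nat_lit 1661646961) (nat_lit 1287563884441269604298459522)) (C.cons (nat_lit 3136) (C.node (nat_lit 7) (nat_lit 10) (nat_lit 11) (C.cons (nat_lit 3208) (C.miq (nat_lit 1805943664) (nat_lit 3733169148191526054607913353))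 (C.cons (nat_lit 3200) (C.node (nat_lit 1) (nat_lit 4) (nat_lit 8) (C.cons (nat_lit 786) (C.miq (nat_lit 1460931465) (nat_lit 1415662484031959190704623361)) (C.cons (nat_lit 282) (C.miq (nat_lit 1746383680) (nat_lit 2942567375060072708967696413)) (C.cons (nat_lit 274) (C.node (nat_lit 3) (nat_lit 4) (nat_lit 8) (C.cons (nat_lit 1304) (C.miq (nat_lit 981173254) (nat_lit 3868606452597780892140765521)) (C.cons (nat_lit 792) (C.miq (nat_lit 906595156) (nat_lit 697564808407741718932293936)) (C.cons (nat_lit 280) (C.node (nat_lit 3) (nat_lit 7) (nat_lit 11) (C.cons (nat_lit 2696) (C.node (nat_lit 4) (nat_lit 6) (nat_lit 11) (C.cons (nat_lit 2642) (C.miq (nat_lit 2491659783) (nat_lit 338548962657777225768175841)) (C.cons (nat_lit 2640) (C.miq (nat_lit 2491659783) (nat_lit 338548962657214275814754529)) (C.cons (nat_lit 2130) (C.miq (nat_lit 1752281860) (nat_lit 2942564737175670645243185181)) (C.cons (nat_lit 2128) (C.node (nat_lit 1) (nat_lit 4) (nat_lit 11) (C.cons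 (nat_lit 2578) (C.node (nat_lit 3) (nat_lit 10) (nat_lit 11) (C.cons (nat_lit 3082) (C.miq (nat_lit 1404635668) (nat_lit 3259274358604249693521314963)) (C.cons (nat_lit 3080) (C.node (nat_lit 6) (nat_lit 9) (nat_lit 11) (C.cons (nat_lit 2628) (C.miq (nat_lit 1644738931) (nat_lit 317991320762285615917632136)) (C.cons (nat_lit 2624) (C.node (nat_lit 1) (nat_lit 3) (nat_lit 4) (C.cons (nat_lit 122) (C.miq (nat_lit 2553547621) (nat_lit 338509579196677110372108513)) (C.cons (nat_lit 90) (C.miq (nat_lit 447955078) (nat_lit 3723493184949648186807943505)) (C.cons (nat_lit 58) (C.miq (nat_lit 329991433) (nat_lit 3723539080135610004360200753)) (C.cons (nat_lit 26) (C.node (nat_lit 1) (nat_lit 3) (nat_lit 11) (C.cons (nat_lit 2090) (C.node (nat_lit 1) (nat_lit 6) (nat_lit 11) (C.cons (nat_lit 2118) (C.node (nat_lit 1) (nat_lit 10) (nat_lit 11) C.nil) C.nil)) (C.cons (nat_lit 2058) (C.node (nat_lit 3) (nat_lit 5) (nat_lit 11) (C.cons (nat_lit 2088) (C.node (nat_lit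 1) (nat_lit 6) (nat_lit 11) C.nil) C.nil)) C.nil))) C.nil))))) C.nil))) C.nil))) (C.cons (nat_lit 2066) (C.node (nat_lit 4) (nat_lit 9) (nat_lit 11) (C.cons (nat_lit 2576) (C.node (nat_lit 3) (nat_lit 5) (nat_lit 11) (C.cons (nat_lit 2090) (C.node (nat_lit 3) (nat_lit 10) (nat_lit 11) (C.cons (nat_lit 3080) (C.node (nat_lit 1) (nat_lit 10) (nat_lit 11) (C.cons (nat_lit 3074) (C.node (nat_lit 2) (nat_lit 10) (nat_lit 11) C.nil) C.nil)) C.nil)) (C.cons (nat_lit 2088)
  (C.node (nat_lit 1) (nat_lit 3) (nat_lit 11) (C.cons (nat_lit 3082) (C.node (nat_lit 2) (nat_lit 10) (nat_lit 11) (C.cons (nat_lit 3076) (C.node (nat_lit 5) (nat_lit 10) (nat_lit 11) C.nil) C.nil)) (C.cons (nat_lit 2058) (C.node (nat_lit 3) (nat_lit 10) (nat_lit 11) C.nil) C.nil))) C.nil))) C.nil)) C.nil))) C.nil))))) (C.cons (nat_lit 2184) (C.node (nat_lit 7) (nat_lit 9) (nat_lit 11) (C.cons (nat_lit 2688) (C.node (nat_lit 3) (nat_lit 9) (nat_lit 11) (C.cons (nat_lit 2600) (C.miq (nat_lit 2491633771)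 (nat_lit 338547191184596723246303457)) (C.cons (nat_lit 2568) (C.node (nat_lit 3) (nat_lit 5) (nat_lit 11) (C.cons (nat_lit 2090) (C.node (nat_lit 3) (nat_lit 10) (nat_lit 11) (C.cons (nat_lit 3080) (C.node (nat_lit 1) (nat_lit 3) (nat_lit 4) (C.cons (nat_lit 90) (C.miq (nat_lit 2872117348) (nat_lit 2526676565213040879414673745)) (C.cons (nat_lit 26) (C.node (nat_lit 1) (nat_lit 3) (nat_lit 8) (C.cons (nat_lit 1290) (C.miq (nat_lit 1899346080) (nat_lit 2526696893128970150838079233)) (C.cons (nat_lit 266) (C.node (nat_lit 1) (nat_lit 10) (nat_lit 11) (C.cons (nat_lit 3078) (C.node (nat_lit 5) (nat_lit 10) (nat_lit 11) (C.cons (nat_lit 3104) (C.node (nat_lit 2) (nat_lit 5) (nat_lit 11) C.nil) C.nil)) (C.cons (nat_lit 3074) (C.node (nat_lit 2) (nat_lit 10) (nat_lit 11) (C.cons (nat_lit 3108) (C.node (nat_lit 5) (nat_lit 9) (nat_lit 11) C.nil) C.nil)) C.nil))) C.nil))) C.nil))) C.nil)) (C.cons (nat_lit 2088) (C.node (nat_lit 1) (nat_lit 3) (nat_lit 11) (C.cons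 (nat_lit 3082) (C.node (nat_lit 1) (nat_lit 4) (nat_lit 11) (C.cons (nat_lit 2578) (C.miq (nat_lit 1404635668) (nat_lit 3104531853693577159158924435)) (C.cons (nat_lit 2130) (C.miq (nat_lit 910276618) (nat_lit 2575068849313181307107479297)) (C.cons (nat_lit 2066) (C.node (nat_lit 2) (nat_lit 10) (nat_lit 11) (C.cons (nat_lit 3108) (C.node (nat_lit 1) (nat_lit 5) (nat_lit 11) C.nil) C.nil)) C.nil)))) (C.cons (nat_lit 2058) (C.node (nat_lit 3) (nat_lit 10) (nat_lit 11) C.nil) C.nil))) C.nil))) C.nil))) C.nil)) C.nil))) C.nil)))) C.nil)))) C.nil))) C.nil))) (C.cons (nat_lit 2312) (C.node (nat_lit 6) (nat_lit 8) (nat_lit 11) (C.cons (nat_lit 2368) (C.node (nat_lit 7) (nat_lit 9) (nat_lit 11) (C.cons (nat_lit 2696) (C.node (nat_lit 7) (nat_lit 10) (nat_lit 11) (C.cons (nat_lit 3200) (C.node (nat_lit 3) (nat_lit 5) (nat_lit 11) (C.cons (nat_lit 2090) (C.ref (nat_lit 286) (nat_lit 205099542782736)) (C.cons (nat_lit 2088) (C.ref (nat_lit 287) (nat_lit 205099542782736))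 C.nil))) C.nil)) (C.cons (nat_lit 2688) (C.node (nat_lit 3) (nat_lit 7) (nat_lit 11) (C.cons (nat_lit 3208) (C.node (nat_lit 6) (nat_lit 10) (nat_lit 11) (C.cons (nat_lit 3138) (C.node (nat_lit 2) (nat_lit 6) (nat_lit 11) (C.cons (nat_lit 2628) (C.miq (nat_lit 462923296) (nat_lit 3249614205144713299629507653)) (C.cons (nat_lit 2116) (C.node (nat_lit 1) (nat_lit 3) (nat_lit 7) (C.cons (nat_lit 206) (C.miq (nat_lit 2819754870) (nat_lit 317967653931075876997171425)) (C.cons (nat_lit 202) (C.miq (nat_lit 951480481) (nat_lit 2862740067200380938055976083)) (C.cons (nat_lit 174) (C.miq (nat_lit 2803413792) (nat_lit 2942596299788967002251921437)) (C.cons (nat_lit 170) (C.miq (nat_lit 1521561735) (nat_lit 3793612358196986228177502601)) (C.cons (nat_lit 142) (C.miq (nat_lit 2803413792) (nat_lit 2942596299788966864812967965)) (C.cons (nat_lit 138) (C.node (nat_lit 1) (nat_lit 3) (nat_lit 11) (C.cons (nat_lit 2090) (C.node (nat_lit 1) (nat_lit 3) (nat_lit 10) (C.cons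 (nat_lit 1290) (C.miq (nat_lit 1631042176) (nat_lit 166873693439372385371885313)) (C.cons (nat_lit 1038) (C.miq (nat_lit 1369879328) (nat_lit 3793651151988273051611760669)) (C.cons (nat_lit 1034) (C.node (nat_lit 1) (nat_lit 2) (nat_lit 3) (C.cons (nat_lit 78) (C.node (nat_lit 3) (nat_lit 6) (nat_lit 11) (C.cons (nat_lit 2632) (C.miq (nat_lit 2338457905) (nat_lit 2558091886879403409195008523)) (C.cons (nat_lit 2120) (C.node (nat_lit 3) (nat_lit 9) (nat_lit 11) (C.cons (nat_lit 2568) (C.node (nat_lit 1) (nat_lit 2) (nat_lit 11) (C.cons (nat_lit 2054)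
  (C.node (nat_lit 1) (nat_lit 4) (nat_lit 11) C.nil) C.nil)) C.nil)) C.nil))) (C.cons (nat_lit 14) (C.node (nat_lit 1) (nat_lit 2) (nat_lit 11) (C.cons (nat_lit 2566) (C.node (nat_lit 1) (nat_lit 4) (nat_lit 11) (C.cons (nat_lit 2066) (C.node (nat_lit 5) (nat_lit 9) (nat_lit 11) C.nil) C.nil)) (C.cons (nat_lit 2054) (C.node (nat_lit 1) (nat_lit 4) (nat_lit 11) (C.cons (nat_lit 2578) (C.node (nat_lit 4) (nat_lit 6) (nat_lit 11) C.nil) (C.cons (nat_lit 2066) (C.node (nat_lit 1) (nat_lit 9) (nat_lit 11) (C.cons (nat_lit 2562) (C.node (nat_lit 2) (nat_lit 9) (nat_lit 11) C.nil) C.nil)) C.nil))) C.nil))) C.nil))) C.nil)))) (C.cons (nat_lit 2058) (C.node (nat_lit 3) (nat_lit 5) (nat_lit 11) (C.cons (nat_lit 2600) (C.miq (nat_lit 1203309109) (nat_lit 3249602952077169548822316073)) (C.cons (nat_lit 2088) (C.node (nat_lit 1) (nat_lit 4) (nat_lit 11) (C.cons (nat_lit 2578) (C.node (nat_lit 4) (nat_lit 6) (nat_lit 11) (C.cons (nat_lit 2128) (C.node (nat_lit 1) (nat_lit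 2) (nat_lit 11) C.nil) C.nil)) (C.cons (nat_lit 2066) (C.node (nat_lit 2) (nat_lit 10) (nat_lit 11) (C.cons (nat_lit 3108) (C.node (nat_lit 1) (nat_lit 2) (nat_lit 11) C.nil) C.nil)) C.nil))) C.nil))) C.nil))) C.nil))))))) C.nil))) (C.cons (nat_lit 3136) (C.node (nat_lit 1) (nat_lit 10) (nat_lit 11) (C.cons (nat_lit 3110) (C.miq (nat_lit 2275476402) (nat_lit 1415656986373055593499199517)) (C.cons (nat_lit 3106) (C.miq (nat_lit 1535353200) (nat_lit 2795056141605732884232602771)) (C.cons (nat_lit 3078) (C.miq (nat_lit 2275476402) (nat_lit 1415656986373055593497102365)) (C.cons (nat_lit 3074) (C.node (nat_lit 2) (nat_lit 10) (nat_lit 11) (C.cons (nat_lit 3108) (C.node (nat_lit 4) (nat_lit 5) (nat_lit 10) (C.cons (nat_lit 1136) (C.miq (nat_lit 625388416) (nat_lit 1373359894248325636408020737)) (C.cons (nat_lit 1072) (C.node (nat_lit 4) (nat_lit 5) (nat_lit 7) (C.cons (nat_lit 184) (C.miq (nat_lit 2608073269) (nat_lit 2649975746299851665827169321)) (C.cons (nat_lit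 180) (C.miq (nat_lit 1649674936) (nat_lit 217612864391051590023253761)) (C.cons (nat_lit 176) (C.node (nat_lit 5) (nat_lit 7) (nat_lit 10) (C.cons (nat_lit 1696) (C.miq (nat_lit 928299664) (nat_lit 212809259042594839076081409)) (C.cons (nat_lit 1440) (C.miq (nat_lit 1750729906) (nat_lit 1740873342631205745235068957)) (C.cons (nat_lit 1184) (C.node (nat_lit 3) (nat_lit 8) (nat_lit 10) (C.cons (nat_lit 1354) (C.miq (nat_lit 1516810756) (nat_lit 1636928947375098189455624221)) (C.cons (nat_lit 1352) (C.miq (nat_lit 1516810756) (nat_lit 1634511095735868931106211869)) (C.cons (nat_lit 1304) (C.miq (nat_lit 1798834084) (nat_lit 2795042712141581892443440275)) (C.cons (nat_lit 1292) (C.miq (nat_lit 2270834866) (nat_lit 1431392003727693604104439837)) (C.cons (nat_lit 1290) (C.miq (nat_lit 951427440) (nat_lit 2843413173879159493637506195)) (C.cons (nat_lit 1288) (C.node (nat_lit 2) (nat_lit 7) (nat_lit 10) (C.cons (nat_lit 1412) (C.node (nat_lit 2) (nat_lit 4) (nat_lit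 5) (C.cons (nat_lit 118) (C.miq (nat_lit 1218601141) (nat_lit 1707005434106530656736774369)) (C.cons (nat_lit 116) (C.miq (nat_lit 1218601141) (nat_lit 1707005397213042509317671137)) (C.cons (nat_lit 54) (C.miq (nat_lit 1649674936) (nat_lit 65288211119608314010275585)) (C.cons (nat_lit 52) (C.miq (nat_lit 1649674936) (nat_lit 62870359480379055660863233)) C.nil))))) (C.cons (nat_lit 1156) (C.node (nat_lit 7) (nat_lit 8) (nat_lit 10) (C.cons (nat_lit 1472) (C.miq (nat_lit 1135086454) (nat_lit 1557102672801032522120038625)) (C.cons (nat_lit 1408) (C.node (nat_lit 2) (nat_lit 8) (nat_lit 10) (C.cons (nat_lit 1300) (C.node (nat_lit 2) (nat_lit 4) (nat_lit 7) (C.cons (nat_lit 212) (C.miq (nat_lit 1380366976) (nat_lit 256334204082410737944825601)) (C.cons (nat_lit 148) (C.node (nat_lit 4) (nat_lit 7) (nat_lit 8) (C.cons (nat_lit 912) (C.node (nat_lit 3) (nat_lit 4) (nat_lit 7) (C.cons (nat_lit 216) (C.miq (nat_lit 1218666679) (nat_lit 1557100440255235862615820513))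 (C.cons (nat_lit 152) (C.node (nat_lit 4) (nat_lit 6) (nat_lit 7) (C.cons (nat_lit 208)
  (C.node (nat_lit 5) (nat_lit 7) (nat_lit 8) (C.cons (nat_lit 416) (C.node (nat_lit 2) (nat_lit 7) (nat_lit 8) (C.cons (nat_lit 388) (C.node (nat_lit 6) (nat_lit 7) (nat_lit 8) C.nil) C.nil)) C.nil)) C.nil)) C.nil))) (C.cons (nat_lit 400) (C.node (nat_lit 6) (nat_lit 7) (nat_lit 10) (C.cons (nat_lit 1728) (C.node (nat_lit 4) (nat_lit 6) (nat_lit 7) (C.cons (nat_lit 216) (C.miq (nat_lit 1218666679) (nat_lit 1557100440255235862615820513)) (C.cons (nat_lit 208) (C.node (nat_lit 1) (nat_lit 7) (nat_lit 9) (C.cons (nat_lit 642) (C.node (nat_lit 3) (nat_lit 9) (nat_lit 11) (C.cons (nat_lit 2632) (C.miq (nat_lit 913619360) (nat_lit 251494885108133523560271617)) (C.cons (nat_lit 2600) (C.miq (nat_lit 893892874) (nat_lit 212830122139000543990976257)) C.nil))) C.nil)) C.nil))) (C.cons (nat_lit 1216) (C.node (nat_lit 7) (nat_lit 9) (nat_lit 10) (C.cons (nat_lit 1664) (C.node (nat_lit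 1) (nat_lit 7) (nat_lit 9) C.nil) C.nil)) C.nil))) C.nil))) C.nil))) (C.cons (nat_lit 1284) (C.node (nat_lit 2) (nat_lit 4) (nat_lit 5) (C.cons (nat_lit 118) (C.miq (nat_lit 1218601141) (nat_lit 1552262929195858122374383841)) (C.cons (nat_lit 116) (C.miq (nat_lit 1218601141) (nat_lit 1552262892302369974955280609)) (C.cons (nat_lit 54) (C.miq (nat_lit 1649674936) (nat_lit 65288211119608314010275585)) (C.cons (nat_lit 52) (C.miq (nat_lit 1649674936) (nat_lit 62870359480379055660863233)) C.nil))))) C.nil))) C.nil))) C.nil))) C.nil))))))) C.nil)))) C.nil)))) C.nil))) (C.cons (nat_lit 3076) (C.node (nat_lit 5) (nat_lit 10) (nat_lit 11) (C.cons (nat_lit 3104) (C.node (nat_lit 3) (nat_lit 5) (nat_lit 11) (C.cons (nat_lit 2600) (C.miq (nat_lit 1203309109) (nat_lit 3249602952077169548822316073)) (C.cons (nat_lit 2090) (C.node (nat_lit 2) (nat_lit 5) (nat_lit 11) (C.cons (nat_lit 2596) (C.node (nat_lit 1) (nat_lit 2) (nat_lit 11) C.nil) C.nil)) C.nil))) C.nil)) C.nil)))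 C.nil))))) C.nil))) (C.cons (nat_lit 2184) (C.node (nat_lit 7) (nat_lit 10) (nat_lit 11) (C.cons (nat_lit 3200) (C.ref (nat_lit 296) (nat_lit 205163983024656)) C.nil)) C.nil))) C.nil))) C.nil)) C.nil))) C.nil))) (C.cons (nat_lit 2320) (C.node (nat_lit 4) (nat_lit 5) (nat_lit 11) (C.cons (nat_lit 2098) (C.node (nat_lit 1) (nat_lit 4) (nat_lit 8) (C.cons (nat_lit 786) (C.miq (nat_lit 1900394640) (nat_lit 2536368299685885019539181313)) (C.cons (nat_lit 282) (C.miq (nat_lit 1367847984) (nat_lit 2942567374981822665391147037)) (C.cons (nat_lit 274) (C.node (nat_lit 1) (nat_lit 3) (nat_lit 4) (C.cons (nat_lit 90) (C.node (nat_lit 1) (nat_lit 2) (nat_lit 4) (C.cons (nat_lit 534) (C.miq (nat_lit 565679184) (nat_lit 2942537343242251602449465905)) (C.cons (nat_lit 22) (C.node (nat_lit 1) (nat_lit 4) (nat_lit 9) (C.cons (nat_lit 530) (C.node (nat_lit 1) (nat_lit 3) (nat_lit 11) (C.cons (nat_lit 3082) (C.node (nat_lit 6) (nat_lit 10) (nat_lit 11) (C.cons (nat_lit 3136)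 (C.node (nat_lit 7) (nat_lit 10) (nat_lit 11) (C.cons (nat_lit 3200) (C.node (nat_lit 3) (nat_lit 6) (nat_lit 11) (C.cons (nat_lit 2632) (C.miq (nat_lit 2335574548) (nat_lit 3181898974859615450586285203)) (C.cons (nat_lit 2376) (C.node (nat_lit 3) (nat_lit 5) (nat_lit 11) (C.cons (nat_lit 2600) (C.miq (nat_lit 1399102336) (nat_lit 108813673120587121094102785)) (C.cons (nat_lit 2088) (C.node (nat_lit 5) (nat_lit 9) (nat_lit 11) (C.cons (nat_lit 2596) (C.miq (nat_lit 722965824) (nat_lit 2942537343822653004354617905)) (C.cons (nat_lit 2592) (C.node (nat_lit 1) (nat_lit 8) (nat_lit 10) (C.cons (nat_lit 1378) (C.miq (nat_lit 605686614) (nat_lit 1415672297644635865680578785)) (C.cons (nat_lit 1346) (C.node (nat_lit 1) (nat_lit 3) (nat_lit 7) (C.cons (nat_lit 174) (C.miq (nat_lit 2168108880) (nat_lit 3725980230681385075540035809)) (C.cons (nat_lit 170) (C.miq (nat_lit 2168108880) (nat_lit 3725980230681385058360166625)) (C.cons (nat_lit 142) (C.miq (nat_lit 2585201458)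 (nat_lit 1415664033999816928885868573)) (C.cons (nat_lit 138) (C.node (nat_lit 1) (nat_lit 2) (nat_lit 3) (C.cons (nat_lit 46) (C.node (nat_lit 1) (nat_lit 3) (nat_lit 8)
  (C.cons (nat_lit 266) (C.node (nat_lit 1) (nat_lit 2) (nat_lit 7) (C.cons (nat_lit 198) (C.miq (nat_lit 2819754870) (nat_lit 317967653931075876996647137)) (C.cons (nat_lit 134) (C.node (nat_lit 1) (nat_lit 5) (nat_lit 7) (C.cons (nat_lit 674) (C.miq (nat_lit 605621079) (nat_lit 640742583130313542768658657)) (C.cons (nat_lit 162) (C.node (nat_lit 1) (nat_lit 5) (nat_lit 8) (C.cons (nat_lit 802) (C.miq (nat_lit 2503704864) (nat_lit 2524307965525075964200812807)) C.nil)) C.nil))) C.nil))) C.nil)) (C.cons (nat_lit 14) (C.node (nat_lit 1) (nat_lit 3) (nat_lit 5) (C.cons (nat_lit 298) (C.node (nat_lit 1) (nat_lit 8) (nat_lit 9) (C.cons (nat_lit 770) (C.node (nat_lit 3) (nat_lit 4) (nat_lit 8) (C.cons (nat_lit 1304) (C.miq (nat_lit 1983122314) (nat_lit 108824925542429766599577345)) (C.cons (nat_lit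 792) (C.miq (nat_lit 1446251401) (nat_lit 108813673028544803739537153)) (C.cons (nat_lit 280) (C.node (nat_lit 2) (nat_lit 8) (nat_lit 11) (C.cons (nat_lit 2340) (C.node (nat_lit 2) (nat_lit 10) (nat_lit 11) (C.cons (nat_lit 3076) (C.node (nat_lit 1) (nat_lit 2) (nat_lit 7) C.nil) C.nil)) (C.cons (nat_lit 2308) (C.node (nat_lit 1) (nat_lit 2) (nat_lit 7) C.nil) C.nil))) C.nil)))) C.nil)) (C.cons (nat_lit 42) (C.node (nat_lit 1) (nat_lit 3) (nat_lit 8) (C.cons (nat_lit 266) (C.node (nat_lit 1) (nat_lit 5) (nat_lit 8) (C.cons (nat_lit 802) (C.node (nat_lit 1) (nat_lit 5) (nat_lit 6) (C.cons (nat_lit 102) (C.miq (nat_lit 2418379361) (nat_lit 44745050695638474476094786)) C.nil)) C.nil)) C.nil)) C.nil))) C.nil))) C.nil))))) (C.cons (nat_lit 1314) (C.miq (nat_lit 1755398323) (nat_lit 1588530187275462933746419741)) (C.cons (nat_lit 1282) (C.miq (nat_lit 1755398323) (nat_lit 1549844561047794800155822109)) C.nil))))) C.nil))) C.nil))) (C.cons (nat_lit 2120) (C.miq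 (nat_lit 2335574548) (nat_lit 2562928955216925313136723091)) C.nil)))) C.nil)) C.nil)) (C.cons (nat_lit 2058) (C.node (nat_lit 3) (nat_lit 8) (nat_lit 11) (C.cons (nat_lit 2376) (C.miq (nat_lit 2872117348) (nat_lit 2487990938985372745824076113)) (C.cons (nat_lit 2344) (C.miq (nat_lit 1483846404) (nat_lit 2942564146870853087282792477)) (C.cons (nat_lit 2312) (C.node (nat_lit 6) (nat_lit 8) (nat_lit 11) (C.cons (nat_lit 2372) (C.miq (nat_lit 2709653430) (nat_lit 317967653179537689321670881)) (C.cons (nat_lit 2368) (C.node (nat_lit 2) (nat_lit 8) (nat_lit 11) (C.cons (nat_lit 2340) (C.node (nat_lit 5) (nat_lit 10) (nat_lit 11) (C.cons (nat_lit 3104) (C.node (nat_lit 1) (nat_lit 5) (nat_lit 7) (C.cons (nat_lit 674) (C.miq (nat_lit 605621079) (nat_lit 640742583130313542768658657)) (C.cons (nat_lit 174) (C.miq (nat_lit 2820737879) (nat_lit 317969092777113222613174497)) (C.cons (nat_lit 170) (C.miq (nat_lit 2870282355) (nat_lit 2536346016415086348713197961)) (C.cons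 (nat_lit 166) (C.miq (nat_lit 2820737879) (nat_lit 317969092777113222612650209)) (C.cons (nat_lit 162) (C.node (nat_lit 1) (nat_lit 8) (nat_lit 10) (C.cons (nat_lit 1378) (C.miq (nat_lit 622114976) (nat_lit 2536364684097590467316879105)) (C.cons (nat_lit 1346) (C.miq (nat_lit 998654113) (nat_lit 2862738001639048543249499283)) (C.cons (nat_lit 1314) (C.miq (nat_lit 622114976) (nat_lit 2536364684097590192438972161)) (C.cons (nat_lit 1290) (C.miq (nat_lit 896639160) (nat_lit 195869779377205624441016065)) (C.cons (nat_lit 1282) (C.node (nat_lit 1) (nat_lit 3) (nat_lit 7) (C.cons (nat_lit 142) (C.node (nat_lit 1) (nat_lit 3) (nat_lit 10) (C.cons (nat_lit 1034) (C.node (nat_lit 1) (nat_lit 6) (nat_lit 7) (C.cons (nat_lit 706) (C.miq (nat_lit 2420535857) (nat_lit 407421024793006351450767502)) (C.cons (nat_lit 194) (C.node (nat_lit 1) (nat_lit 7) (nat_lit 9) C.nil) C.nil))) C.nil)) (C.cons (nat_lit 138) (C.node (nat_lit 1) (nat_lit 2) (nat_lit 7) (C.cons (nat_lit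 198) (C.miq (nat_lit 2819754870) (nat_lit 317967653931075876996647137)) (C.cons (nat_lit 134) (C.node (nat_lit 1) (nat_lit 3) (nat_lit 8) (C.cons (nat_lit 298) (C.node (nat_lit 1) (nat_lit 2) (nat_lit 3) C.nil) (C.cons (nat_lit 266)
  (C.node (nat_lit 1) (nat_lit 3) (nat_lit 5) C.nil) C.nil))) C.nil))) C.nil))) C.nil)))))) C.nil)))))) C.nil)) (C.cons (nat_lit 2308) (C.node (nat_lit 5) (nat_lit 8) (nat_lit 11) (C.cons (nat_lit 2336) (C.node (nat_lit 3) (nat_lit 5) (nat_lit 11) (C.cons (nat_lit 2600) (C.node (nat_lit 7) (nat_lit 9) (nat_lit 11) (C.cons (nat_lit 2688) (C.node (nat_lit 3) (nat_lit 7) (nat_lit 11) (C.cons (nat_lit 3208) (C.miq (nat_lit 1203309109) (nat_lit 3249602952077169548822316073)) (C.cons (nat_lit 2184) (C.node (nat_lit 7) (nat_lit 10) (nat_lit 11) C.nil) C.nil))) C.nil)) (C.cons (nat_lit 2088) (C.node (nat_lit 5) (nat_lit 9) (nat_lit 11) (C.cons (nat_lit 2596) (C.miq (nat_lit 722965824) (nat_lit 2942537343822653004354617905)) (C.cons (nat_lit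 2592) (C.node (nat_lit 2) (nat_lit 5) (nat_lit 11) (C.cons (nat_lit 3108) (C.node (nat_lit 1) (nat_lit 10) (nat_lit 11) (C.cons (nat_lit 3138) (C.node (nat_lit 2) (nat_lit 6) (nat_lit 11) (C.cons (nat_lit 2628) (C.miq (nat_lit 2535137446) (nat_lit 2942573923166989509527209029)) C.nil)) C.nil)) (C.cons (nat_lit 2084) (C.node (nat_lit 5) (nat_lit 10) (nat_lit 11) C.nil) C.nil))) C.nil))) C.nil))) C.nil)) C.nil))) C.nil))) C.nil)))) C.nil))) C.nil)) C.nil))) (C.cons (nat_lit 26) (C.node (nat_lit 4) (nat_lit 6) (nat_lit 11) (C.cons (nat_lit 2640) (C.node (nat_lit 1) (nat_lit 4) (nat_lit 9) (C.cons (nat_lit 534) (C.miq (nat_lit 565679184) (nat_lit 2942537343242251602449465905)) (C.cons (nat_lit 530) (C.node (nat_lit 1) (nat_lit 2) (nat_lit 4) (C.cons (nat_lit 86) (C.node (nat_lit 2) (nat_lit 6) (nat_lit 11) (C.cons (nat_lit 2372) (C.miq (nat_lit 2709653430) (nat_lit 317967653179537689321670881)) (C.cons (nat_lit 2116) (C.node (nat_lit 4) (nat_lit 6) (nat_lit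 7) (C.cons (nat_lit 216) (C.miq (nat_lit 1636254211) (nat_lit 2942529429462935310097254429)) (C.cons (nat_lit 208) (C.node (nat_lit 1) (nat_lit 7) (nat_lit 9) (C.cons (nat_lit 706) (C.miq (nat_lit 2304838466) (nat_lit 853506481222776307219564573)) (C.cons (nat_lit 674) (C.miq (nat_lit 605621079) (nat_lit 640742583130313542768658657)) (C.cons (nat_lit 642) (C.node (nat_lit 1) (nat_lit 6) (nat_lit 7) (C.cons (nat_lit 202) (C.node (nat_lit 1) (nat_lit 6) (nat_lit 11) (C.cons (nat_lit 3138) (C.miq (nat_lit 2687940721) (nat_lit 88309471795918303807539586)) (C.cons (nat_lit 2114) (C.node (nat_lit 6) (nat_lit 8) (nat_lit 11) (C.cons (nat_lit 2376) (C.miq (nat_lit 2875263031) (nat_lit 2555690784883791979614962057)) (C.cons (nat_lit 2368) (C.node (nat_lit 3) (nat_lit 8) (nat_lit 11) (C.cons (nat_lit 2344) (C.miq (nat_lit 1483846404) (nat_lit 2942564146870853087282792477)) (C.cons (nat_lit 2312) (C.node (nat_lit 1) (nat_lit 6) (nat_lit 10) (C.cons (nat_lit 1634) (C.miq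 (nat_lit 605686614) (nat_lit 1415672297644635865697356001)) (C.cons (nat_lit 1602) (C.miq (nat_lit 2304838466) (nat_lit 1936704015597484047756298269)) (C.cons (nat_lit 1378) (C.miq (nat_lit 605686614) (nat_lit 1415672297644635865680578785)) (C.cons (nat_lit 1346) (C.miq (nat_lit 2518201376) (nat_lit 1627285007888372295442827293)) (C.cons (nat_lit 1122) (C.miq (nat_lit 605686614) (nat_lit 1415672297644635865663801569)) (C.cons (nat_lit 1090) (C.node (nat_lit 1) (nat_lit 2) (nat_lit 7) (C.cons (nat_lit 166) (C.node (nat_lit 2) (nat_lit 8) (nat_lit 11) (C.cons (nat_lit 2340) (C.miq (nat_lit 2820737879) (nat_lit 317969092777113222612650209)) (C.cons (nat_lit 2308) (C.node (nat_lit 5) (nat_lit 8) (nat_lit 11) (C.cons (nat_lit 2336) (C.node (nat_lit 1) (nat_lit 2) (nat_lit 3) (C.cons (nat_lit 1038) (C.node (nat_lit 1) (nat_lit 3) (nat_lit 11) C.nil) C.nil)) C.nil)) C.nil))) (C.cons (nat_lit 134) (C.node (nat_lit 1) (nat_lit 5) (nat_lit 7) (C.cons (nat_lit 162)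 (C.node (nat_lit 1) (nat_lit 3) (nat_lit 11) C.nil) C.nil)) C.nil))) C.nil))))))) C.nil))) C.nil))) C.nil))) (C.cons (nat_lit 194) (C.node (nat_lit 1) (nat_lit 3) (nat_lit 7) (C.cons (nat_lit 174) (C.miq (nat_lit 1635271216) (nat_lit 2942531661518967846700910621)) (C.cons (nat_lit 170)
  (C.miq (nat_lit 2870282355) (nat_lit 2536346016415086348713197961)) (C.cons (nat_lit 142) (C.miq (nat_lit 1635271216) (nat_lit 2942531661518967709261957149)) (C.cons (nat_lit 138) (C.node (nat_lit 1) (nat_lit 2) (nat_lit 7) (C.cons (nat_lit 166) (C.node (nat_lit 2) (nat_lit 8) (nat_lit 11) (C.cons (nat_lit 2340) (C.miq (nat_lit 2820737879) (nat_lit 317969092777113222612650209)) (C.cons (nat_lit 2308) (C.node (nat_lit 5) (nat_lit 8) (nat_lit 11) (C.cons (nat_lit 2344) (C.miq (nat_lit 2266312779) (nat_lit 200724925334761913581701149)) (C.cons (nat_lit 2336) (C.node (nat_lit 1) (nat_lit 2) (nat_lit 3) (C.cons (nat_lit 1038) (C.node (nat_lit 1) (nat_lit 9) (nat_lit 10) (C.cons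 (nat_lit 1634) (C.miq (nat_lit 1101182304) (nat_lit 1254903315237967697270868193)) (C.cons (nat_lit 1602) (C.miq (nat_lit 2304838466) (nat_lit 1936704015597484047756298269)) (C.cons (nat_lit 1570) (C.miq (nat_lit 2435078704) (nat_lit 103977969552203631831090217)) (C.cons (nat_lit 1538) (C.node (nat_lit 1) (nat_lit 2) (nat_lit 9) (C.cons (nat_lit 2566) (C.node (nat_lit 1) (nat_lit 3) (nat_lit 11) (C.cons (nat_lit 2122) (C.node (nat_lit 1) (nat_lit 10) (nat_lit 11) C.nil) C.nil)) C.nil)) C.nil))))) (C.cons (nat_lit 14) (C.node (nat_lit 1) (nat_lit 2) (nat_lit 10) (C.cons (nat_lit 3078) (C.miq (nat_lit 2334525972) (nat_lit 2558093251938466779257767059)) (C.cons (nat_lit 1542) (C.miq (nat_lit 2707133040) (nat_lit 2536397223929514254122680965)) (C.cons (nat_lit 1030) (C.node (nat_lit 1) (nat_lit 2) (nat_lit 9) C.nil) C.nil)))) C.nil))) C.nil))) C.nil))) (C.cons (nat_lit 134) (C.node (nat_lit 1) (nat_lit 5) (nat_lit 7) (C.cons (nat_lit 162) (C.node (nat_lit 1)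 (nat_lit 9) (nat_lit 11) (C.cons (nat_lit 2566) (C.node (nat_lit 1) (nat_lit 2) (nat_lit 3) C.nil) (C.cons (nat_lit 2562) (C.node (nat_lit 1) (nat_lit 2) (nat_lit 11) C.nil) C.nil))) C.nil)) C.nil))) C.nil))))) C.nil))) C.nil)))) C.nil))) C.nil))) (C.cons (nat_lit 22) (C.node (nat_lit 1) (nat_lit 4) (nat_lit 6) (C.cons (nat_lit 82) (C.node (nat_lit 1) (nat_lit 9) (nat_lit 11) (C.cons (nat_lit 2566) (C.node (nat_lit 1) (nat_lit 8) (nat_lit 9) (C.cons (nat_lit 866) (C.miq (nat_lit 610339736) (nat_lit 99136769286725843336433409)) (C.cons (nat_lit 834) (C.miq (nat_lit 610339736) (nat_lit 99136769286725843334336257)) (C.cons (nat_lit 802) (C.miq (nat_lit 1763199776) (nat_lit 969564724626790397652699165)) (C.cons (nat_lit 770) (C.miq (nat_lit 1763199776) (nat_lit 930879098399122264062101533)) C.nil))))) (C.cons (nat_lit 2562) (C.node (nat_lit 2) (nat_lit 9) (nat_lit 11) (C.cons (nat_lit 2596) (C.miq (nat_lit 722965824) (nat_lit 2942537343822653004354617905)) (C.cons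 (nat_lit 2564) (C.node (nat_lit 5) (nat_lit 9) (nat_lit 11) (C.cons (nat_lit 2600) (C.node (nat_lit 7) (nat_lit 9) (nat_lit 11) (C.cons (nat_lit 2688) (C.node (nat_lit 3) (nat_lit 7) (nat_lit 11) (C.cons (nat_lit 3208) (C.miq (nat_lit 2073338704) (nat_lit 3191585765822914227348767785)) (C.cons (nat_lit 2184) (C.node (nat_lit 7) (nat_lit 10) (nat_lit 11) (C.cons (nat_lit 3200) (C.node (nat_lit 3) (nat_lit 8) (nat_lit 11) (C.cons (nat_lit 2376) (C.miq (nat_lit 1400937316) (nat_lit 475118196463819761030072912)) (C.cons (nat_lit 2312) (C.node (nat_lit 6) (nat_lit 8) (nat_lit 11) (C.cons (nat_lit 2372) (C.miq (nat_lit 2709653430) (nat_lit 317967653179537689321670881)) (C.cons (nat_lit 2368) (C.node (nat_lit 3) (nat_lit 10) (nat_lit 11) (C.cons (nat_lit 3144) (C.miq (nat_lit 1678424403) (nat_lit 1415710132075194854473796136)) (C.cons (nat_lit 3082) (C.miq (nat_lit 1410568363) (nat_lit 31480033002484494919929601)) C.nil))) C.nil))) C.nil))) C.nil)) C.nil))) C.nil))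 (C.cons (nat_lit 2592) (C.node (nat_lit 3) (nat_lit 5) (nat_lit 11) (C.cons (nat_lit 2344) (C.miq (nat_lit 1483846404) (nat_lit 2942564146870853087282792477)) (C.cons (nat_lit 2088) (C.node (nat_lit 3) (nat_lit 8) (nat_lit 11) (C.cons (nat_lit 2376) (C.node (nat_lit 1) (nat_lit 3) (nat_lit 11) (C.cons (nat_lit 3082) (C.miq (nat_lit 1678999723) (nat_lit 31475900868761589197180673))
  (C.cons (nat_lit 2058) (C.node (nat_lit 3) (nat_lit 9) (nat_lit 11) (C.cons (nat_lit 2696) (C.miq (nat_lit 2483533443) (nat_lit 1415701867933848870477957448)) (C.cons (nat_lit 2568) (C.node (nat_lit 7) (nat_lit 9) (nat_lit 11) (C.cons (nat_lit 2688) (C.node (nat_lit 3) (nat_lit 7) (nat_lit 11) (C.cons (nat_lit 3208) (C.miq (nat_lit 1805943664) (nat_lit 3733169148191526054607913353)) C.nil)) C.nil)) C.nil))) C.nil))) (C.cons (nat_lit 2312) (C.node (nat_lit 6) (nat_lit 8) (nat_lit 11) (C.cons (nat_lit 2372) (C.miq (nat_lit 2709653430) (nat_lit 317967653179537689321670881)) (C.cons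 (nat_lit 2368) (C.node (nat_lit 2) (nat_lit 6) (nat_lit 11) (C.cons (nat_lit 2118) (C.node (nat_lit 1) (nat_lit 3) (nat_lit 11) (C.cons (nat_lit 3082) (C.node (nat_lit 3) (nat_lit 6) (nat_lit 11) (C.cons (nat_lit 2120) (C.node (nat_lit 6) (nat_lit 10) (nat_lit 11) C.nil) C.nil)) (C.cons (nat_lit 2058) (C.node (nat_lit 1) (nat_lit 10) (nat_lit 11) C.nil) C.nil))) (C.cons (nat_lit 2116) (C.node (nat_lit 1) (nat_lit 2) (nat_lit 11) (C.cons (nat_lit 3078) (C.node (nat_lit 5) (nat_lit 10) (nat_lit 11) C.nil) C.nil)) C.nil))) C.nil))) C.nil))) C.nil))) C.nil))) C.nil))) C.nil))) C.nil)) C.nil))) C.nil))) (C.cons (nat_lit 2128) (C.node (nat_lit 4) (nat_lit 9) (nat_lit 11) (C.cons (nat_lit 2576) (C.node (nat_lit 5) (nat_lit 10) (nat_lit 11) (C.cons (nat_lit 3108) (C.node (nat_lit 2) (nat_lit 8) (nat_lit 11) (C.cons (nat_lit 2372) (C.miq (nat_lit 2709653430) (nat_lit 317967653179537689321670881)) (C.cons (nat_lit 2308) (C.node (nat_lit 5) (nat_lit 8) (nat_lit 11)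 (C.cons (nat_lit 2344) (C.miq (nat_lit 1483846404) (nat_lit 2942564146870853087282792477)) (C.cons (nat_lit 2336) (C.node (nat_lit 3) (nat_lit 5) (nat_lit 11) (C.cons (nat_lit 2600) (C.node (nat_lit 7) (nat_lit 9) (nat_lit 11) (C.cons (nat_lit 2688) (C.node (nat_lit 3) (nat_lit 7) (nat_lit 11) (C.cons (nat_lit 3208) (C.miq (nat_lit 2073338704) (nat_lit 3114214513367577960167572521)) (C.cons (nat_lit 2184) (C.node (nat_lit 7) (nat_lit 10) (nat_lit 11) (C.cons (nat_lit 3200) (C.node (nat_lit 2) (nat_lit 9) (nat_lit 11) (C.cons (nat_lit 2628) (C.miq (nat_lit 2466690466) (nat_lit 88300063607133152114707492)) (C.cons (nat_lit 2566) (C.miq (nat_lit 312515411) (nat_lit 1321365569208218377117043240)) C.nil))) C.nil)) C.nil))) C.nil)) (C.cons (nat_lit 2088) (C.node (nat_lit 5) (nat_lit 9) (nat_lit 11) (C.cons (nat_lit 2592) (C.node (nat_lit 3) (nat_lit 8) (nat_lit 11) (C.cons (nat_lit 2376) (C.node (nat_lit 1) (nat_lit 3) (nat_lit 11) (C.cons (nat_lit 3082) (C.miq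 (nat_lit 1678999723) (nat_lit 31475900868761589197180673)) (C.cons (nat_lit 2058) (C.node (nat_lit 1) (nat_lit 10) (nat_lit 11) (C.cons (nat_lit 3138) (C.miq (nat_lit 1661646961) (nat_lit 1287563884441269604298459522)) C.nil)) C.nil))) (C.cons (nat_lit 2312) (C.node (nat_lit 6) (nat_lit 8) (nat_lit 11) C.nil) C.nil))) C.nil)) C.nil))) C.nil))) C.nil))) (C.cons (nat_lit 3104) (C.node (nat_lit 2) (nat_lit 10) (nat_lit 11) (C.cons (nat_lit 3078) (C.node (nat_lit 7) (nat_lit 10) (nat_lit 11) (C.cons (nat_lit 3208) (C.miq (nat_lit 2275476402) (nat_lit 1415656986373055593497102365)) (C.cons (nat_lit 3200) (C.node (nat_lit 1) (nat_lit 2) (nat_lit 4) (C.cons (nat_lit 598) (C.miq (nat_lit 2974327392) (nat_lit 331316529384778058985178181)) (C.cons (nat_lit 534) (C.miq (nat_lit 565679184) (nat_lit 2942537343242251602449465905)) (C.cons (nat_lit 86) (C.miq (nat_lit 2974327392) (nat_lit 331316529384775859961922629)) (C.cons (nat_lit 22) (C.node (nat_lit 1) (nat_lit 3)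 (nat_lit 11) (C.cons (nat_lit 2122) (C.node (nat_lit 1) (nat_lit 9) (nat_lit 11) (C.cons (nat_lit 2562) (C.node (nat_lit 3) (nat_lit 10) (nat_lit 11) (C.cons (nat_lit 3080) (C.node (nat_lit 6) (nat_lit 10) (nat_lit 11) (C.cons (nat_lit 3136) (C.node (nat_lit 3) (nat_lit 8) (nat_lit 11) (C.cons (nat_lit 2344) (C.miq (nat_lit 1483846404) (nat_lit 2942564146870853087282792477)) C.nil)) C.nil)) C.nil)) C.nil)) (C.cons (nat_lit 2058) (C.node (nat_lit 1) (nat_lit 4) (nat_lit 6) (C.cons (nat_lit 594)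
  (C.node (nat_lit 1) (nat_lit 6) (nat_lit 11) (C.cons (nat_lit 2114) (C.node (nat_lit 1) (nat_lit 9) (nat_lit 11) (C.cons (nat_lit 2562) (C.node (nat_lit 1) (nat_lit 7) (nat_lit 9) (C.cons (nat_lit 674) (C.miq (nat_lit 605621079) (nat_lit 718113835585649809949853921)) C.nil)) C.nil)) C.nil)) (C.cons (nat_lit 82) (C.node (nat_lit 1) (nat_lit 4) (nat_lit 9) (C.cons (nat_lit 530) (C.node (nat_lit 1) (nat_lit 6) (nat_lit 11) (C.cons (nat_lit 2626) (C.node (nat_lit 1) (nat_lit 7) (nat_lit 9) (C.cons (nat_lit 674) (C.miq (nat_lit 605621079) (nat_lit 640742583130313542768658657)) (C.cons (nat_lit 642) (C.node (nat_lit 2) (nat_lit 6) (nat_lit 11) (C.cons (nat_lit 2372) (C.miq (nat_lit 1678934187) (nat_lit 26640123803326777659887361)) C.nil)) C.nil))) (C.cons (nat_lit 2114) (C.node (nat_lit 1) (nat_lit 9) (nat_lit 11) C.nil) C.nil))) C.nil)) C.nil))) C.nil))) C.nil))))) C.nil))) (C.cons (nat_lit 3076) (C.node (nat_lit 7) (nat_lit 9) (nat_lit 11) (C.cons (nat_lit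 2696) (C.node (nat_lit 7) (nat_lit 10) (nat_lit 11) (C.cons (nat_lit 3200) (C.node (nat_lit 3) (nat_lit 5) (nat_lit 11) (C.cons (nat_lit 2344) (C.miq (nat_lit 1483846404) (nat_lit 2942564146870853087282792477)) (C.cons (nat_lit 2088) (C.node (nat_lit 5) (nat_lit 9) (nat_lit 11) (C.cons (nat_lit 2596) (C.miq (nat_lit 722965824) (nat_lit 2942537343822653004354617905)) (C.cons (nat_lit 2592) (C.node (nat_lit 2) (nat_lit 5) (nat_lit 11) (C.cons (nat_lit 2340) (C.node (nat_lit 3) (nat_lit 8) (nat_lit 11) (C.cons (nat_lit 2376) (C.node (nat_lit 1) (nat_lit 3) (nat_lit 11) C.nil) C.nil)) C.nil)) C.nil))) C.nil))) C.nil)) (C.cons (nat_lit 2688) (C.node (nat_lit 3) (nat_lit 7) (nat_lit 11) (C.cons (nat_lit 3208) (C.node (nat_lit 3) (nat_lit 5) (nat_lit 11) (C.cons (nat_lit 2600) (C.miq (nat_lit 2073338704) (nat_lit 3114214513367577960167572521)) (C.cons (nat_lit 2344) (C.miq (nat_lit 1483846404) (nat_lit 2942564146870853087282792477)) (C.cons (nat_lit 2088) (C.node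 (nat_lit 3) (nat_lit 8) (nat_lit 11) (C.cons (nat_lit 2376) (C.miq (nat_lit 1805943664) (nat_lit 3733169148191526054607913353)) (C.cons (nat_lit 2312) (C.node (nat_lit 5) (nat_lit 9) (nat_lit 11) (C.cons (nat_lit 2596) (C.miq (nat_lit 722965824) (nat_lit 2942537343822653004354617905)) C.nil)) C.nil))) C.nil)))) (C.cons (nat_lit 2184) (C.node (nat_lit 7) (nat_lit 10) (nat_lit 11) (C.cons (nat_lit 3200) (C.ref (nat_lit 297) (nat_lit 205163983024656)) C.nil)) C.nil))) C.nil))) C.nil))) C.nil))) C.nil)) C.nil))) C.nil))) C.nil)))) (C.cons (nat_lit 2096) (C.node (nat_lit 7) (nat_lit 9) (nat_lit 11) (C.cons (nat_lit 2696) (C.node (nat_lit 7) (nat_lit 10) (nat_lit 11) (C.cons (nat_lit 3200) (C.ref (nat_lit 288) (nat_lit 205099542782736)) C.nil)) (C.cons (nat_lit 2688) (C.node (nat_lit 3) (nat_lit 7) (nat_lit 11) (C.cons (nat_lit 3208) (C.node (nat_lit 3) (nat_lit 8) (nat_lit 11) (C.cons (nat_lit 2376) (C.miq (nat_lit 1805943664) (nat_lit 3733169148191526054607913353))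 (C.cons (nat_lit 2344) (C.miq (nat_lit 2164635555) (nat_lit 42355643539735919093943432)) (C.cons (nat_lit 2312) (C.node (nat_lit 6) (nat_lit 8) (nat_lit 11) (C.cons (nat_lit 2372) (C.miq (nat_lit 2709653430) (nat_lit 317967653179537689321670881)) (C.cons (nat_lit 2368) (C.node (nat_lit 2) (nat_lit 8) (nat_lit 11) (C.cons (nat_lit 2340) (C.node (nat_lit 2) (nat_lit 10) (nat_lit 11) (C.cons (nat_lit 3078) (C.miq (nat_lit 2275476402) (nat_lit 1415656986373055593497102365)) (C.cons (nat_lit 3076) (C.node (nat_lit 5) (nat_lit 10) (nat_lit 11) (C.cons (nat_lit 3106) (C.miq (nat_lit 1535353200) (nat_lit 2795056141605732884232602771)) (C.cons (nat_lit 3104) (C.node (nat_lit 1) (nat_lit 2) (nat_lit 7) (C.cons (nat_lit 206) (C.miq (nat_lit 2819754870) (nat_lit 317967653931075876997171425)) (C.cons (nat_lit 198) (C.miq (nat_lit 2819754870) (nat_lit 317967653931075876996647137)) (C.cons (nat_lit 174) (C.miq (nat_lit 2820737879) (nat_lit 317969092777113222613174497))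 (C.cons (nat_lit 166) (C.miq (nat_lit 2820737879) (nat_lit 317969092777113222612650209)) (C.cons (nat_lit 142)
  (C.miq (nat_lit 2803413792) (nat_lit 2942596299788966864812967965)) (C.cons (nat_lit 134) (C.node (nat_lit 1) (nat_lit 10) (nat_lit 11) (C.cons (nat_lit 3138) (C.node (nat_lit 2) (nat_lit 6) (nat_lit 11) (C.cons (nat_lit 2628) (C.miq (nat_lit 1651620106) (nat_lit 162053946450982619109854977)) (C.cons (nat_lit 2116) (C.node (nat_lit 1) (nat_lit 2) (nat_lit 11) (C.cons (nat_lit 2566) (C.node (nat_lit 1) (nat_lit 4) (nat_lit 11) C.nil) C.nil)) C.nil))) (C.cons (nat_lit 3074) (C.node (nat_lit 6) (nat_lit 10) (nat_lit 11) C.nil) C.nil))) C.nil))))))) C.nil))) C.nil))) (C.cons (nat_lit 2308) (C.node (nat_lit 5) (nat_lit 8) (nat_lit 11) (C.cons (nat_lit 2336) (C.node (nat_lit 6) (nat_lit 10) (nat_lit 11) (C.cons (nat_lit 3138) (C.node (nat_lit 2) (nat_lit 6) (nat_lit 11) (C.cons (nat_lit 2628) (C.miq (nat_lit 462923296) (nat_lit 3249614205144713299629507653))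 (C.cons (nat_lit 2116) (C.node (nat_lit 1) (nat_lit 3) (nat_lit 11) (C.cons (nat_lit 2090) (C.node (nat_lit 1) (nat_lit 2) (nat_lit 11) (C.cons (nat_lit 2566) (C.node (nat_lit 1) (nat_lit 4) (nat_lit 11) C.nil) C.nil)) C.nil)) C.nil))) (C.cons (nat_lit 3136) (C.node (nat_lit 1) (nat_lit 10) (nat_lit 11) (C.cons (nat_lit 3110) (C.miq (nat_lit 2275476402) (nat_lit 1415656986373055593499199517)) (C.cons (nat_lit 3106) (C.miq (nat_lit 1535353200) (nat_lit 2795056141605732884232602771)) (C.cons (nat_lit 3078) (C.miq (nat_lit 2275476402) (nat_lit 1415656986373055593497102365)) (C.cons (nat_lit 3074) (C.node (nat_lit 2) (nat_lit 10) (nat_lit 11) C.nil) C.nil))))) C.nil))) C.nil)) C.nil))) C.nil))) C.nil)))) (C.cons (nat_lit 2184) (C.node (nat_lit 7) (nat_lit 10) (nat_lit 11) (C.cons (nat_lit 3200) (C.ref (nat_lit 298) (nat_lit 205163983024656)) C.nil)) C.nil))) C.nil))) C.nil))) C.nil))) C.nil))) List.nil)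

theorem ok12_299 : okL par12 (nat_lit 300) c12_299 (nat_lit 299) = true := by decide +kernel

noncomputable def c12_300 : List C :=
  (List.cons (C.node (nat_lit 4) (nat_lit 8) (nat_lit 11) (C.cons (nat_lit 2322) (C.node (nat_lit 1) (nat_lit 8) (nat_lit 10) (C.cons (nat_lit 1354) (C.miq (nat_lit 2065171875) (nat_lit 2807133003355395873842005033)) (C.cons (nat_lit 1346) (C.miq (nat_lit 706414212) (nat_lit 3754961909918137242098991441)) (C.cons (nat_lit 1290) (C.miq (nat_lit 2065171875) (nat_lit 2807133003355395873837810729)) (C.cons (nat_lit 1282) (C.node (nat_lit 4) (nat_lit 6) (nat_lit 11) (C.cons (nat_lit 2640) (C.node (nat_lit 2) (nat_lit 9) (nat_lit 11) (C.cons (nat_lit 2596) (C.miq (nat_lit 1537512048) (nat_lit 3733173280324123043243950725)) (C.cons (nat_lit 2566) (C.miq (nat_lit 2516759681) (nat_lit 1321403255927178212600645906)) (C.cons (nat_lit 2564) (C.node (nat_lit 1) (nat_lit 2) (nat_lit 11) (C.cons (nat_lit 2118) (C.node (nat_lit 1) (nat_lit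 2) (nat_lit 10) (C.cons (nat_lit 1542) (C.miq (nat_lit 352955250) (nat_lit 678235830557439667304991876)) (C.cons (nat_lit 1038) (C.miq (nat_lit 1638249008) (nat_lit 3754965525768486217367226397)) (C.cons (nat_lit 1030) (C.node (nat_lit 1) (nat_lit 2) (nat_lit 7) (C.cons (nat_lit 174) (C.miq (nat_lit 950104245) (nat_lit 1549846110590059590455527649)) (C.cons (nat_lit 166) (C.miq (nat_lit 2584873815) (nat_lit 1245205493434154318333085921)) (C.cons (nat_lit 142) (C.miq (nat_lit 2591099683) (nat_lit 1415661783497040460306581533)) (C.cons (nat_lit 134) (C.node (nat_lit 1) (nat_lit 2) (nat_lit 3) (C.cons (nat_lit 46) (C.node (nat_lit 1) (nat_lit 4) (nat_lit 5) (C.cons (nat_lit 114) (C.miq (nat_lit 2705896800) (nat_lit 2807196607963417829367154913)) (C.cons (nat_lit 50) (C.node (nat_lit 1) (nat_lit 2) (nat_lit 4) (C.cons (nat_lit 534) (C.node (nat_lit 1) (nat_lit 5) (nat_lit 6) (C.cons (nat_lit 866) (C.miq (nat_lit 1175632256) (nat_lit 2560543200574323344741437185))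 (C.cons (nat_lit 610) (C.miq (nat_lit 558937748) (nat_lit 42350718170119736493410896)) (C.cons (nat_lit 354) (C.miq (nat_lit 2506178738) (nat_lit 427969590862831313280698397)) (C.cons (nat_lit 98) (C.miq (nat_lit 2506178738) (nat_lit 118484581041486244555917341)) C.nil))))) (C.cons (nat_lit 22) (C.node (nat_lit 1) (nat_lit 2) (nat_lit 9) (C.cons (nat_lit 518) (C.node (nat_lit 1) (nat_lit 4) (nat_lit 9) (C.cons (nat_lit 530) (C.node (nat_lit 1) (nat_lit 3) (nat_lit 4) (C.cons (nat_lit 90) (C.node (nat_lit 1) (nat_lit 3) (nat_lit 8) C.nil) (C.cons (nat_lit 26) (C.node (nat_lit 1) (nat_lit 4) (nat_lit 6) C.nil) C.nil))) C.nil)) C.nil)) C.nil))) C.nil))) (C.cons (nat_lit 14) (C.node (nat_lit 1) (nat_lit 3) (nat_lit 10) (C.cons (nat_lit 1098) (C.node (nat_lit 1) (nat_lit 9) (nat_lit 10) (C.cons (nat_lit 1538) (C.node (nat_lit 1) (nat_lit 3) (nat_lit 4) (C.cons (nat_lit 58) (C.miq (nat_lit 2170205232) (nat_lit 3754994450320610480125184029)) (C.cons (nat_lit 26)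 (C.node (nat_lit 1) (nat_lit 4) (nat_lit 6) (C.cons (nat_lit 114) (C.miq (nat_lit 2705896800) (nat_lit 2807196607963417829367154913)) (C.cons (nat_lit 82) (C.node (nat_lit 4) (nat_lit 6) (nat_lit 10) (C.cons (nat_lit 1136) (C.miq (nat_lit 2489386403) (nat_lit 99141565013462483510887465)) (C.cons (nat_lit 1104) (C.node (nat_lit 1) (nat_lit 3) (nat_lit 8) (C.cons (nat_lit 298) (C.node (nat_lit 1) (nat_lit 5) (nat_lit 6) (C.cons (nat_lit 610) (C.miq (nat_lit 558937748) (nat_lit 42350718170119736493410896)) C.nil)) (C.cons (nat_lit 266) (C.node (nat_lit 1) (nat_lit 3) (nat_lit 5) C.nil) C.nil))) C.nil))) C.nil))) C.nil))) C.nil)) (C.cons (nat_lit 1034) (C.node (nat_lit 1) (nat_lit 3) (nat_lit 11) (C.cons (nat_lit 2186) (C.node (nat_lit 1) (nat_lit 9) (nat_lit 11) (C.cons (nat_lit 2562) (C.node (nat_lit 7) (nat_lit 9) (nat_lit 11) (C.cons (nat_lit 2688) (C.node (nat_lit 1) (nat_lit 4) (nat_lit 9) C.nil) C.nil)) C.nil)) (C.cons (nat_lit 2058) (C.node (nat_lit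 1) (nat_lit 4) (nat_lit 9) (C.cons (nat_lit 534) (C.node (nat_lit 1) (nat_lit 5) (nat_lit 9) (C.cons (nat_lit 930) (C.miq (nat_lit 1098037392) (nat_lit 162034374369390294433337089)) (C.cons (nat_lit 866)
  (C.miq (nat_lit 1175632256) (nat_lit 2560543200574323344741437185)) (C.cons (nat_lit 802) (C.miq (nat_lit 1637200448) (nat_lit 969600437376378434147649565)) (C.cons (nat_lit 674) (C.miq (nat_lit 1637200448) (nat_lit 814857932465705899785259037)) (C.cons (nat_lit 610) (C.miq (nat_lit 558937748) (nat_lit 42350718170119736493410896)) (C.cons (nat_lit 546) (C.miq (nat_lit 1637200448) (nat_lit 660115427555033365422868509)) C.nil))))))) (C.cons (nat_lit 530) (C.node (nat_lit 1) (nat_lit 2) (nat_lit 4) (C.cons (nat_lit 54) (C.node (nat_lit 1) (nat_lit 2) (nat_lit 9) (C.cons (nat_lit 518) (C.node (nat_lit 1) (nat_lit 3) (nat_lit 4) C.nil) C.nil)) (C.cons (nat_lit 22) (C.node (nat_lit 1) (nat_lit 4) (nat_lit 5) (C.cons (nat_lit 122) (C.miq (nat_lit 2705896800)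 (nat_lit 2807196607963417863726893281)) (C.cons (nat_lit 114) (C.miq (nat_lit 2705896800) (nat_lit 2807196607963417829367154913)) (C.cons (nat_lit 58) (C.miq (nat_lit 2170205232) (nat_lit 3754994450320610480125184029)) (C.cons (nat_lit 50) (C.node (nat_lit 1) (nat_lit 2) (nat_lit 5) C.nil) C.nil))))) C.nil))) C.nil))) C.nil))) C.nil))) C.nil))) C.nil))))) C.nil)))) (C.cons (nat_lit 2054) (C.node (nat_lit 2) (nat_lit 6) (nat_lit 11) (C.cons (nat_lit 2372) (C.miq (nat_lit 1779966027) (nat_lit 1549886656730554620133378077)) (C.cons (nat_lit 2116) (C.node (nat_lit 1) (nat_lit 4) (nat_lit 9) (C.cons (nat_lit 534) (C.node (nat_lit 1) (nat_lit 2) (nat_lit 10) (C.cons (nat_lit 1038) (C.miq (nat_lit 2443526704) (nat_lit 3754933944496775663505180701)) (C.cons (nat_lit 1030) (C.node (nat_lit 1) (nat_lit 4) (nat_lit 5) (C.cons (nat_lit 122) (C.miq (nat_lit 2705896800) (nat_lit 2807196607963417863726893281)) (C.cons (nat_lit 114) (C.miq (nat_lit 2705896800) (nat_lit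 2807196607963417829367154913)) (C.cons (nat_lit 58) (C.miq (nat_lit 2170205232) (nat_lit 3754994450320610480125184029)) (C.cons (nat_lit 50) (C.node (nat_lit 2) (nat_lit 4) (nat_lit 10) (C.cons (nat_lit 1332) (C.miq (nat_lit 2259828858) (nat_lit 2558111605462528344623154323)) (C.cons (nat_lit 1300) (C.miq (nat_lit 2259828858) (nat_lit 2558111015166717985917502611)) (C.cons (nat_lit 1076) (C.miq (nat_lit 824838469) (nat_lit 1245213240132720257022558769)) (C.cons (nat_lit 1044) (C.node (nat_lit 2) (nat_lit 4) (nat_lit 7) (C.cons (nat_lit 436) (C.miq (nat_lit 2722740048) (nat_lit 645637242520046795704305889)) (C.cons (nat_lit 404) (C.miq (nat_lit 826804519) (nat_lit 2807133002862803617880212101)) (C.cons (nat_lit 212) (C.miq (nat_lit 2317618038) (nat_lit 1262124773311584845146884321)) (C.cons (nat_lit 180) (C.miq (nat_lit 2722740048) (nat_lit 645637242520045696192678113)) (C.cons (nat_lit 148) (C.node (nat_lit 1) (nat_lit 2) (nat_lit 7) (C.cons (nat_lit 206)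 (C.miq (nat_lit 2591099683) (nat_lit 1415661783497040460310775837)) (C.cons (nat_lit 198) (C.miq (nat_lit 1698787474) (nat_lit 60449944075853084801499781)) (C.cons (nat_lit 174) (C.miq (nat_lit 950104245) (nat_lit 1549846110590059590455527649)) (C.cons (nat_lit 166) (C.miq (nat_lit 2703865200) (nat_lit 645637242492461088350996705)) (C.cons (nat_lit 142) (C.miq (nat_lit 2591099683) (nat_lit 1415661783497040460306581533)) (C.cons (nat_lit 134) (C.node (nat_lit 1) (nat_lit 3) (nat_lit 4) (C.cons (nat_lit 90) (C.node (nat_lit 1) (nat_lit 3) (nat_lit 10) (C.cons (nat_lit 1034) (C.node (nat_lit 1) (nat_lit 6) (nat_lit 11) C.nil) C.nil)) (C.cons (nat_lit 26) (C.node (nat_lit 1) (nat_lit 4) (nat_lit 6) (C.cons (nat_lit 82) (C.node (nat_lit 1) (nat_lit 6) (nat_lit 11) (C.cons (nat_lit 2122) (C.node (nat_lit 6) (nat_lit 8) (nat_lit 11) C.nil) C.nil)) C.nil)) C.nil))) C.nil))))))) C.nil)))))) C.nil))))) C.nil))))) C.nil))) (C.cons (nat_lit 530) (C.node (nat_lit 1)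 (nat_lit 6) (nat_lit 11) (C.cons (nat_lit 2122) (C.node (nat_lit 6) (nat_lit 8) (nat_lit 11) (C.cons (nat_lit 2368) (C.node (nat_lit 1) (nat_lit 7) (nat_lit 11) (C.cons (nat_lit 2178) (C.node (nat_lit 1) (nat_lit 9) (nat_lit 11) C.nil) C.nil)) C.nil)) (C.cons (nat_lit 2114) (C.node (nat_lit 1) (nat_lit 3) (nat_lit 11)
  (C.cons (nat_lit 2186) (C.node (nat_lit 1) (nat_lit 9) (nat_lit 11) (C.cons (nat_lit 2562) (C.node (nat_lit 7) (nat_lit 9) (nat_lit 11) C.nil) C.nil)) (C.cons (nat_lit 2058) (C.node (nat_lit 1) (nat_lit 7) (nat_lit 11) (C.cons (nat_lit 2690) (C.node (nat_lit 3) (nat_lit 7) (nat_lit 11) C.nil) C.nil)) C.nil))) C.nil))) C.nil))) C.nil))) C.nil))) C.nil)))) (C.cons (nat_lit 2128) (C.node (nat_lit 4) (nat_lit 9) (nat_lit 11) (C.cons (nat_lit 2576) (C.node (nat_lit 1) (nat_lit 2) (nat_lit 10) (C.cons (nat_lit 1542) (C.miq (nat_lit 352955250) (nat_lit 678235830557439667304991876)) (C.cons (nat_lit 1038) (C.node (nat_lit 1) (nat_lit 6) (nat_lit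 10) (C.cons (nat_lit 1602) (C.node (nat_lit 1) (nat_lit 4) (nat_lit 9) (C.cons (nat_lit 534) (C.miq (nat_lit 2443526704) (nat_lit 3754933944496775663505180701)) (C.cons (nat_lit 530) (C.node (nat_lit 6) (nat_lit 9) (nat_lit 11) (C.cons (nat_lit 2632) (C.miq (nat_lit 1265238929) (nat_lit 3791212972033422236850455051)) (C.cons (nat_lit 2628) (C.miq (nat_lit 431269408) (nat_lit 3114214512915529267928695877)) (C.cons (nat_lit 2624) (C.node (nat_lit 2) (nat_lit 6) (nat_lit 11) (C.cons (nat_lit 2372) (C.miq (nat_lit 1779966027) (nat_lit 1549886656730554620133378077)) (C.cons (nat_lit 2118) (C.miq (nat_lit 1638249008) (nat_lit 3754965525768486217367226397)) (C.cons (nat_lit 2116) (C.node (nat_lit 1) (nat_lit 3) (nat_lit 4) (C.cons (nat_lit 122) (C.miq (nat_lit 2705896800) (nat_lit 2807196607963417863726893281)) (C.cons (nat_lit 90) (C.miq (nat_lit 999702689) (nat_lit 3172223011460393611991057555)) (C.cons (nat_lit 58) (C.miq (nat_lit 2170205232) (nat_lit 3754994450320610480125184029))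 (C.cons (nat_lit 26) (C.node (nat_lit 1) (nat_lit 4) (nat_lit 6) (C.cons (nat_lit 118) (C.miq (nat_lit 2705896800) (nat_lit 2807196607963417846547024097)) (C.cons (nat_lit 114) (C.miq (nat_lit 2705896800) (nat_lit 2807196607963417829367154913)) (C.cons (nat_lit 86) (C.miq (nat_lit 2171253792) (nat_lit 1936770017620208321628014621)) (C.cons (nat_lit 82) (C.node (nat_lit 2) (nat_lit 4) (nat_lit 10) (C.cons (nat_lit 1556) (C.miq (nat_lit 1253413488) (nat_lit 3754933944784452392681800325)) (C.cons (nat_lit 1332) (C.miq (nat_lit 1511604784) (nat_lit 1936709512020990416126674973)) (C.cons (nat_lit 1300) (C.miq (nat_lit 2259828858) (nat_lit 2558111015166717985917502611)) (C.cons (nat_lit 1076) (C.miq (nat_lit 1511604784) (nat_lit 1936709511948932822088747037)) (C.cons (nat_lit 1044) (C.node (nat_lit 1) (nat_lit 2) (nat_lit 4) (C.cons (nat_lit 54) (C.node (nat_lit 2) (nat_lit 8) (nat_lit 11) (C.cons (nat_lit 2340) (C.miq (nat_lit 2233119296) (nat_lit 3754994450325677012533053469))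 (C.cons (nat_lit 2308) (C.node (nat_lit 2) (nat_lit 5) (nat_lit 11) (C.cons (nat_lit 2596) (C.miq (nat_lit 1918151568) (nat_lit 65303596298357264471887617)) C.nil)) C.nil))) (C.cons (nat_lit 22) (C.node (nat_lit 1) (nat_lit 4) (nat_lit 5) (C.cons (nat_lit 50) (C.node (nat_lit 1) (nat_lit 2) (nat_lit 11) (C.cons (nat_lit 2566) (C.node (nat_lit 1) (nat_lit 7) (nat_lit 11) (C.cons (nat_lit 2186) (C.miq (nat_lit 1906750240) (nat_lit 1936741093087224237027297309)) C.nil)) C.nil)) C.nil)) C.nil))) C.nil)))))) C.nil))))) C.nil))))) C.nil)))) C.nil)))) C.nil))) (C.cons (nat_lit 1090) (C.node (nat_lit 1) (nat_lit 9) (nat_lit 10) (C.cons (nat_lit 1538) (C.node (nat_lit 1) (nat_lit 2) (nat_lit 7) (C.cons (nat_lit 198) (C.node (nat_lit 1) (nat_lit 3) (nat_lit 7) (C.cons (nat_lit 2186) (C.miq (nat_lit 1906750240) (nat_lit 1317771073444534099577735197)) (C.cons (nat_lit 170) (C.miq (nat_lit 2316503895) (nat_lit 1254872251411564776923990241)) (C.cons (nat_lit 138) (C.miq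 (nat_lit 1394018854) (nat_lit 166873692855873676306154565)) C.nil)))) (C.cons (nat_lit 166) (C.miq (nat_lit 2584873815) (nat_lit 1254876899991071351730735329)) (C.cons (nat_lit 134) (C.node (nat_lit 1) (nat_lit 3) (nat_lit 11) (C.cons (nat_lit 2186) (C.miq (nat_lit 1906750240) (nat_lit 1317771073444534099577735197)) (C.cons (nat_lit 2122) (C.node (nat_lit 1) (nat_lit 3) (nat_lit 4)
  (C.cons (nat_lit 58) (C.miq (nat_lit 2170205232) (nat_lit 3754994450320610480125184029)) (C.cons (nat_lit 26) (C.node (nat_lit 1) (nat_lit 3) (nat_lit 7) (C.cons (nat_lit 170) (C.miq (nat_lit 2316503895) (nat_lit 1254872251411564776923990241)) (C.cons (nat_lit 138) (C.node (nat_lit 3) (nat_lit 8) (nat_lit 11) (C.cons (nat_lit 2344) (C.miq (nat_lit 1399961610) (nat_lit 166889059353690801385443073)) (C.cons (nat_lit 2312) (C.node (nat_lit 1) (nat_lit 2) (nat_lit 11) (C.cons (nat_lit 2566) (C.node (nat_lit 1) (nat_lit 7) (nat_lit 11) C.nil) C.nil)) C.nil))) C.nil))) C.nil))) (C.cons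 (nat_lit 2058) (C.node (nat_lit 1) (nat_lit 7) (nat_lit 11) (C.cons (nat_lit 2690) (C.node (nat_lit 3) (nat_lit 7) (nat_lit 11) (C.cons (nat_lit 2184) (C.node (nat_lit 1) (nat_lit 2) (nat_lit 11) (C.cons (nat_lit 2118) (C.miq (nat_lit 1638249008) (nat_lit 3754965525768486217367226397)) (C.cons (nat_lit 2054) (C.node (nat_lit 1) (nat_lit 6) (nat_lit 11) C.nil) C.nil))) C.nil)) (C.cons (nat_lit 2178) (C.node (nat_lit 3) (nat_lit 7) (nat_lit 11) (C.cons (nat_lit 2696) (C.node (nat_lit 3) (nat_lit 5) (nat_lit 11) (C.cons (nat_lit 2344) (C.miq (nat_lit 1511534667) (nat_lit 1549886140213839256918034461)) (C.cons (nat_lit 2088) (C.node (nat_lit 5) (nat_lit 9) (nat_lit 11) (C.cons (nat_lit 2596) (C.miq (nat_lit 1383184650) (nat_lit 162053356146165061149462273)) C.nil)) C.nil))) (C.cons (nat_lit 2184) (C.node (nat_lit 7) (nat_lit 9) (nat_lit 11) C.nil) C.nil))) C.nil))) C.nil)))) C.nil)))) C.nil)) C.nil))) (C.cons (nat_lit 1030) (C.node (nat_lit 1) (nat_lit 3) (nat_lit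 10) (C.cons (nat_lit 1098) (C.node (nat_lit 1) (nat_lit 9) (nat_lit 10) (C.cons (nat_lit 1538) (C.node (nat_lit 1) (nat_lit 3) (nat_lit 4) (C.cons (nat_lit 58) (C.miq (nat_lit 2170205232) (nat_lit 3754994450320610480125184029)) (C.cons (nat_lit 26) (C.node (nat_lit 1) (nat_lit 3) (nat_lit 8) (C.cons (nat_lit 298) (C.node (nat_lit 1) (nat_lit 2) (nat_lit 3) (C.cons (nat_lit 142) (C.miq (nat_lit 2591099683) (nat_lit 1415661783497040460306581533)) (C.cons (nat_lit 14) (C.node (nat_lit 1) (nat_lit 3) (nat_lit 7) (C.cons (nat_lit 2186) (C.node (nat_lit 7) (nat_lit 9) (nat_lit 11) (C.cons (nat_lit 2688) (C.node (nat_lit 3) (nat_lit 5) (nat_lit 11) (C.cons (nat_lit 2600) (C.miq (nat_lit 1094256565) (nat_lit 632278552611492996126869729)) (C.cons (nat_lit 2088) (C.node (nat_lit 3) (nat_lit 8) (nat_lit 11) (C.cons (nat_lit 2376) (C.miq (nat_lit 1094191030) (nat_lit 360266111127528920863738081)) (C.cons (nat_lit 2312) (C.node (nat_lit 5) (nat_lit 9) (nat_lit 11) (C.cons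 (nat_lit 2596) (C.miq (nat_lit 1537512048) (nat_lit 3733173280324123043243950725)) C.nil)) C.nil))) C.nil))) C.nil)) (C.cons (nat_lit 138) (C.node (nat_lit 1) (nat_lit 3) (nat_lit 11) (C.cons (nat_lit 2058) (C.node (nat_lit 1) (nat_lit 7) (nat_lit 11) C.nil) C.nil)) C.nil))) C.nil))) (C.cons (nat_lit 266) (C.node (nat_lit 1) (nat_lit 3) (nat_lit 11) (C.cons (nat_lit 2186) (C.node (nat_lit 7) (nat_lit 9) (nat_lit 11) (C.cons (nat_lit 2688) (C.node (nat_lit 3) (nat_lit 5) (nat_lit 11) (C.cons (nat_lit 2600) (C.miq (nat_lit 1094256565) (nat_lit 632278552611492996126869729)) (C.cons (nat_lit 2344) (C.miq (nat_lit 1399961610) (nat_lit 2642769137924451351183691521)) (C.cons (nat_lit 2088) (C.node (nat_lit 3) (nat_lit 8) (nat_lit 11) (C.cons (nat_lit 2376) (C.miq (nat_lit 1094191030) (nat_lit 321580484899860787273140449)) (C.cons (nat_lit 2312) (C.node (nat_lit 5) (nat_lit 9) (nat_lit 11) (C.cons (nat_lit 2596) (C.miq (nat_lit 1537512048) (nat_lit 3733173280324123043243950725))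 C.nil)) C.nil))) C.nil)))) C.nil)) (C.cons (nat_lit 2058) (C.node (nat_lit 1) (nat_lit 3) (nat_lit 7) (C.cons (nat_lit 174) (C.miq (nat_lit 2704848240) (nat_lit 321645122835740503872964833)) (C.cons (nat_lit 170) (C.miq (nat_lit 2704848240) (nat_lit 321645122835740486693095649)) (C.cons (nat_lit 142) (C.miq (nat_lit 2591099683) (nat_lit 1415661783497040460306581533)) (C.cons (nat_lit 138) (C.node (nat_lit 1) (nat_lit 7) (nat_lit 11) (C.cons (nat_lit 2690)
  (C.node (nat_lit 3) (nat_lit 7) (nat_lit 11) C.nil) C.nil)) C.nil))))) C.nil))) C.nil))) C.nil))) C.nil)) (C.cons (nat_lit 1034) (C.node (nat_lit 1) (nat_lit 6) (nat_lit 10) (C.cons (nat_lit 1602) (C.node (nat_lit 6) (nat_lit 9) (nat_lit 11) (C.cons (nat_lit 2632) (C.miq (nat_lit 1265238929) (nat_lit 3791212972033422236850455051)) (C.cons (nat_lit 2628) (C.miq (nat_lit 431269408) (nat_lit 3114214512915529267928695877)) (C.cons (nat_lit 2624) (C.node (nat_lit 1) (nat_lit 3) (nat_lit 4) (C.cons (nat_lit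 122) (C.miq (nat_lit 2705896800) (nat_lit 2807196607963417863726893281)) (C.cons (nat_lit 90) (C.miq (nat_lit 999702689) (nat_lit 3172223011460393611991057555)) (C.cons (nat_lit 58) (C.miq (nat_lit 2170205232) (nat_lit 3754994450320610480125184029)) (C.cons (nat_lit 26) (C.node (nat_lit 1) (nat_lit 4) (nat_lit 6) (C.cons (nat_lit 118) (C.miq (nat_lit 2705896800) (nat_lit 2807196607963417846547024097)) (C.cons (nat_lit 114) (C.miq (nat_lit 2705896800) (nat_lit 2807196607963417829367154913)) (C.cons (nat_lit 86) (C.miq (nat_lit 2171253792) (nat_lit 1936770017620208321628014621)) (C.cons (nat_lit 82) (C.node (nat_lit 1) (nat_lit 4) (nat_lit 5) (C.cons (nat_lit 54) (C.node (nat_lit 1) (nat_lit 4) (nat_lit 9) (C.cons (nat_lit 530) (C.node (nat_lit 2) (nat_lit 5) (nat_lit 11) (C.cons (nat_lit 2596) (C.miq (nat_lit 1918151568) (nat_lit 65303596298357264471887617)) (C.cons (nat_lit 2340) (C.miq (nat_lit 2233119296) (nat_lit 3754994450325677012533053469)) (C.cons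 (nat_lit 2084) (C.node (nat_lit 1) (nat_lit 2) (nat_lit 3) (C.cons (nat_lit 206) (C.miq (nat_lit 2591099683) (nat_lit 1415661783497040460310775837)) (C.cons (nat_lit 142) (C.miq (nat_lit 2591099683) (nat_lit 1415661783497040460306581533)) (C.cons (nat_lit 78) (C.miq (nat_lit 3105032802) (nat_lit 632306518627044419198387269)) C.nil)))) C.nil)))) C.nil)) (C.cons (nat_lit 50) (C.node (nat_lit 1) (nat_lit 2) (nat_lit 4) (C.cons (nat_lit 534) (C.node (nat_lit 1) (nat_lit 2) (nat_lit 11) (C.cons (nat_lit 2118) (C.miq (nat_lit 1444481828) (nat_lit 1936709512285863007776802845)) C.nil)) (C.cons (nat_lit 22) (C.node (nat_lit 1) (nat_lit 4) (nat_lit 9) (C.cons (nat_lit 530) (C.node (nat_lit 2) (nat_lit 5) (nat_lit 11) (C.cons (nat_lit 2596) (C.miq (nat_lit 1537512048) (nat_lit 3733173280324123043243950725)) (C.cons (nat_lit 2340) (C.node (nat_lit 2) (nat_lit 6) (nat_lit 11) (C.cons (nat_lit 2118) (C.node (nat_lit 2) (nat_lit 9) (nat_lit 11) C.nil) C.nil)) C.nil)))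 C.nil)) C.nil))) C.nil))) C.nil))))) C.nil))))) C.nil)))) (C.cons (nat_lit 1090) (C.node (nat_lit 1) (nat_lit 9) (nat_lit 10) (C.cons (nat_lit 1538) (C.node (nat_lit 2) (nat_lit 5) (nat_lit 11) (C.cons (nat_lit 2596) (C.miq (nat_lit 1537512048) (nat_lit 3733173280324123043243950725)) (C.cons (nat_lit 2340) (C.node (nat_lit 2) (nat_lit 4) (nat_lit 7) (C.cons (nat_lit 404) (C.miq (nat_lit 1363720818) (nat_lit 2807168919400567731115003012)) (C.cons (nat_lit 212) (C.miq (nat_lit 1756512423) (nat_lit 2828890328702849459568247955)) (C.cons (nat_lit 180) (C.miq (nat_lit 2602895988) (nat_lit 2828896767602816766503552147)) (C.cons (nat_lit 148) (C.node (nat_lit 5) (nat_lit 7) (nat_lit 10) (C.cons (nat_lit 1696) (C.miq (nat_lit 1411879098) (nat_lit 178952307138830512047787777)) (C.cons (nat_lit 1440) (C.miq (nat_lit 1463978507) (nat_lit 178964187089426594213465857)) (C.cons (nat_lit 1184) (C.node (nat_lit 7) (nat_lit 8) (nat_lit 10) (C.cons (nat_lit 1472) (C.miq (nat_lit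 1680310458) (nat_lit 178948175005107606325038849)) (C.cons (nat_lit 1408) (C.node (nat_lit 1) (nat_lit 4) (nat_lit 5) (C.cons (nat_lit 122) (C.miq (nat_lit 2705896800) (nat_lit 2807196607963417863726893281)) (C.cons (nat_lit 118) (C.miq (nat_lit 2705896800) (nat_lit 2807196607963417846547024097)) (C.cons (nat_lit 114) (C.miq (nat_lit 2705896800) (nat_lit 2807196607963417829367154913)) (C.cons (nat_lit 58) (C.miq (nat_lit 2170205232) (nat_lit 3754994450320610480125184029)) (C.cons (nat_lit 54) (C.miq (nat_lit 2233119296) (nat_lit 3754994450325677012533053469))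
  (C.cons (nat_lit 50) (C.node (nat_lit 1) (nat_lit 3) (nat_lit 4) (C.cons (nat_lit 90) (C.node (nat_lit 3) (nat_lit 8) (nat_lit 11) (C.cons (nat_lit 2376) (C.miq (nat_lit 2249896768) (nat_lit 1317799997992717850105808925)) (C.cons (nat_lit 2312) (C.node (nat_lit 6) (nat_lit 8) (nat_lit 11) (C.cons (nat_lit 2368) (C.node (nat_lit 3) (nat_lit 6) (nat_lit 11) (C.cons (nat_lit 2632) (C.miq (nat_lit 2518332224) (nat_lit 1317799998064775444143736861)) (C.cons (nat_lit 2120) (C.node (nat_lit 1) (nat_lit 3) (nat_lit 11) (C.cons (nat_lit 2186) (C.node (nat_lit 7) (nat_lit 9) (nat_lit 11) C.nil) C.nil)) C.nil))) C.nil)) C.nil))) (C.cons (nat_lit 26) (C.node (nat_lit 2) (nat_lit 7) (nat_lit 8) (C.cons (nat_lit 452) (C.node (nat_lit 2) (nat_lit 4) (nat_lit 8) (C.cons (nat_lit 1300) (C.miq (nat_lit 1730415528) (nat_lit 178927238495524341199146753)) (C.cons (nat_lit 788) (C.miq (nat_lit 1418070311) (nat_lit 407449930817320420085334661)) (C.cons (nat_lit 276) (C.node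 (nat_lit 2) (nat_lit 8) (nat_lit 10) (C.cons (nat_lit 1292) (C.miq (nat_lit 1445595011) (nat_lit 1321375567261022752099533193)) (C.cons (nat_lit 1284) (C.node (nat_lit 1) (nat_lit 2) (nat_lit 7) (C.cons (nat_lit 174) (C.miq (nat_lit 2316503895) (nat_lit 1250036548133106260225427681)) (C.cons (nat_lit 166) (C.miq (nat_lit 2584873815) (nat_lit 1245205493434154318333085921)) (C.cons (nat_lit 142) (C.miq (nat_lit 2591099683) (nat_lit 1415661783497040460306581533)) (C.cons (nat_lit 134) (C.node (nat_lit 1) (nat_lit 7) (nat_lit 8) (C.cons (nat_lit 930) (C.miq (nat_lit 1098037392) (nat_lit 162034374369390294433337089)) (C.cons (nat_lit 898) (C.miq (nat_lit 1098037392) (nat_lit 162034374369390156994383617)) (C.cons (nat_lit 418) (C.miq (nat_lit 672445808) (nat_lit 2807164067691263279282456801)) (C.cons (nat_lit 386) (C.node (nat_lit 2) (nat_lit 3) (nat_lit 10) C.nil) C.nil))))) C.nil))))) C.nil))) C.nil)))) (C.cons (nat_lit 388) (C.node (nat_lit 3) (nat_lit 5) (nat_lit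 11) (C.cons (nat_lit 2600) (C.node (nat_lit 3) (nat_lit 7) (nat_lit 11) (C.cons (nat_lit 2186) (C.miq (nat_lit 1094256565) (nat_lit 632278552611492996126869729)) (C.cons (nat_lit 2184) (C.node (nat_lit 1) (nat_lit 3) (nat_lit 11) (C.cons (nat_lit 2058) (C.node (nat_lit 1) (nat_lit 7) (nat_lit 11) C.nil) C.nil)) C.nil))) (C.cons (nat_lit 2088) (C.node (nat_lit 5) (nat_lit 9) (nat_lit 11) (C.cons (nat_lit 2592) (C.node (nat_lit 3) (nat_lit 8) (nat_lit 11) (C.cons (nat_lit 2376) (C.node (nat_lit 1) (nat_lit 3) (nat_lit 11) (C.cons (nat_lit 2058) (C.node (nat_lit 1) (nat_lit 3) (nat_lit 8) C.nil) C.nil)) (C.cons (nat_lit 2312) (C.node (nat_lit 6) (nat_lit 8) (nat_lit 11) C.nil) C.nil))) C.nil)) C.nil))) C.nil))) C.nil))) C.nil))))))) C.nil))) C.nil)))) C.nil))))) (C.cons (nat_lit 2084) (C.node (nat_lit 2) (nat_lit 8) (nat_lit 11) (C.cons (nat_lit 2372) (C.miq (nat_lit 1779966027) (nat_lit 1549886656730554620133378077)) (C.cons (nat_lit 2308) (C.node (nat_lit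 5) (nat_lit 8) (nat_lit 11) (C.cons (nat_lit 2344) (C.miq (nat_lit 1511534667) (nat_lit 1549886140213839256918034461)) (C.cons (nat_lit 2336) (C.node (nat_lit 3) (nat_lit 5) (nat_lit 11) (C.cons (nat_lit 2600) (C.node (nat_lit 3) (nat_lit 7) (nat_lit 11) (C.cons (nat_lit 2186) (C.miq (nat_lit 1094256565) (nat_lit 632278552611492996126869729)) C.nil)) C.nil)) C.nil))) C.nil))) C.nil)))) C.nil)) C.nil))) C.nil))) C.nil)))) C.nil)) C.nil))) C.nil))))) (C.cons (nat_lit 2320) (C.node (nat_lit 1) (nat_lit 2) (nat_lit 10) (C.cons (nat_lit 1542) (C.miq (nat_lit 352955250) (nat_lit 678235830557439667304991876)) (C.cons (nat_lit 1038) (C.node (nat_lit 1) (nat_lit 8) (nat_lit 10) (C.cons (nat_lit 1346) (C.node (nat_lit 1) (nat_lit 9) (nat_lit 10) (C.cons (nat_lit 1538) (C.node (nat_lit 1) (nat_lit 8) (nat_lit 11) (C.cons (nat_lit 2314) (C.miq (nat_lit 1647419576) (nat_lit 1254889830385169366744960769)) (C.cons (nat_lit 2306) (C.node (nat_lit 3) (nat_lit 8) (nat_lit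 10) (C.cons (nat_lit 1304) (C.miq (nat_lit 323527174) (nat_lit 1576464098387179603368150085)) (C.cons (nat_lit 1288)
  (C.node (nat_lit 2) (nat_lit 4) (nat_lit 10) (C.cons (nat_lit 1556) (C.miq (nat_lit 1253413488) (nat_lit 3754933944784452392681800325)) (C.cons (nat_lit 1332) (C.miq (nat_lit 1511604784) (nat_lit 1859338259565654148945479709)) (C.cons (nat_lit 1300) (C.miq (nat_lit 2055647808) (nat_lit 1627256083552421819825850397)) (C.cons (nat_lit 1076) (C.miq (nat_lit 1511604784) (nat_lit 1859338259493596554907551773)) (C.cons (nat_lit 1044) (C.node (nat_lit 2) (nat_lit 8) (nat_lit 10) (C.cons (nat_lit 1316) (C.node (nat_lit 2) (nat_lit 9) (nat_lit 10) (C.cons (nat_lit 1540) (C.node (nat_lit 4) (nat_lit 8) (nat_lit 10) (C.cons (nat_lit 1296) (C.node (nat_lit 7) (nat_lit 8) (nat_lit 10) (C.cons (nat_lit 1408) (C.node (nat_lit 2) (nat_lit 5) (nat_lit 11) (C.cons (nat_lit 2596) (C.miq (nat_lit 1244202933) (nat_lit 1861756111159575239079495905)) (C.cons (nat_lit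 2084) (C.node (nat_lit 2) (nat_lit 8) (nat_lit 11) (C.cons (nat_lit 2372) (C.miq (nat_lit 1244137398) (nat_lit 1590952595495225792991070433)) (C.cons (nat_lit 2308) (C.node (nat_lit 4) (nat_lit 5) (nat_lit 10) (C.cons (nat_lit 1136) (C.miq (nat_lit 879370369) (nat_lit 1373358879387192227101016327)) (C.cons (nat_lit 1072) (C.node (nat_lit 5) (nat_lit 8) (nat_lit 11) C.nil) C.nil))) C.nil))) C.nil))) C.nil)) C.nil)) C.nil)) (C.cons (nat_lit 1284) (C.node (nat_lit 2) (nat_lit 5) (nat_lit 10) (C.cons (nat_lit 1572) (C.node (nat_lit 5) (nat_lit 6) (nat_lit 10) (C.cons (nat_lit 1136) (C.miq (nat_lit 879370369) (nat_lit 1373358879387192227101016327)) (C.cons (nat_lit 1120) (C.node (nat_lit 4) (nat_lit 5) (nat_lit 6) (C.cons (nat_lit 122) (C.miq (nat_lit 2316569430) (nat_lit 1415658352402642329421875425)) (C.cons (nat_lit 120) (C.miq (nat_lit 2739278344) (nat_lit 145095927963458660516036871)) (C.cons (nat_lit 118) (C.miq (nat_lit 2316569430) (nat_lit 1415658352402642329421613281))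 (C.cons (nat_lit 116) (C.miq (nat_lit 2303986214) (nat_lit 678213602437711944370881605)) (C.cons (nat_lit 114) (C.miq (nat_lit 2316569430) (nat_lit 1415658352402642329421351137)) (C.cons (nat_lit 112) (C.node (nat_lit 2) (nat_lit 5) (nat_lit 11) (C.cons (nat_lit 2340) (C.node (nat_lit 3) (nat_lit 5) (nat_lit 11) (C.cons (nat_lit 2600) (C.miq (nat_lit 1377024009) (nat_lit 1254912962953229303292825345)) (C.cons (nat_lit 2088) (C.node (nat_lit 5) (nat_lit 9) (nat_lit 11) (C.cons (nat_lit 2592) (C.node (nat_lit 5) (nat_lit 7) (nat_lit 10) (C.cons (nat_lit 1440) (C.miq (nat_lit 1116343127) (nat_lit 1552282354107127751153551585)) (C.cons (nat_lit 1184) (C.node (nat_lit 7) (nat_lit 8) (nat_lit 10) C.nil) C.nil))) C.nil)) C.nil))) (C.cons (nat_lit 2084) (C.node (nat_lit 2) (nat_lit 8) (nat_lit 11) (C.cons (nat_lit 2372) (C.miq (nat_lit 1244137398) (nat_lit 1552266969267557659400472801)) (C.cons (nat_lit 2308) (C.node (nat_lit 5) (nat_lit 8) (nat_lit 11) (C.cons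 (nat_lit 2344) (C.miq (nat_lit 461874480) (nat_lit 2940129195314359811862758441)) (C.cons (nat_lit 2336) (C.node (nat_lit 3) (nat_lit 4) (nat_lit 10) (C.cons (nat_lit 1560) (C.miq (nat_lit 1781825824) (nat_lit 1885930495530444129625243911)) (C.cons (nat_lit 1112) (C.node (nat_lit 4) (nat_lit 9) (nat_lit 10) (C.cons (nat_lit 1552) (C.node (nat_lit 3) (nat_lit 7) (nat_lit 10) C.nil) C.nil)) (C.cons (nat_lit 1048) (C.miq (nat_lit 1781825824) (nat_lit 1266960475887753992175681799)) C.nil)))) C.nil))) C.nil))) C.nil))) C.nil))))))) C.nil))) (C.cons (nat_lit 1060) (C.node (nat_lit 2) (nat_lit 9) (nat_lit 10) (C.cons (nat_lit 1540) (C.node (nat_lit 4) (nat_lit 8) (nat_lit 10) (C.cons (nat_lit 1328) (C.node (nat_lit 7) (nat_lit 8) (nat_lit 10) (C.cons (nat_lit 1408) (C.node (nat_lit 5) (nat_lit 7) (nat_lit 10) (C.cons (nat_lit 1696) (C.miq (nat_lit 1118374773) (nat_lit 1861756111414591567920367841)) C.nil)) C.nil)) (C.cons (nat_lit 1296) (C.node (nat_lit 4) (nat_lit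 5) (nat_lit 10) (C.cons (nat_lit 1136) (C.miq (nat_lit 879370369) (nat_lit 1373358879387192227101016327)) C.nil)) C.nil))) C.nil)) C.nil))) C.nil))) C.nil)))))) C.nil))) C.nil))) C.nil)) (C.cons (nat_lit 1282)
  (C.node (nat_lit 1) (nat_lit 6) (nat_lit 10) (C.cons (nat_lit 1602) (C.node (nat_lit 1) (nat_lit 2) (nat_lit 7) (C.cons (nat_lit 198) (C.node (nat_lit 1) (nat_lit 3) (nat_lit 7) (C.cons (nat_lit 2186) (C.miq (nat_lit 1906750240) (nat_lit 1936741093087224237027297309)) (C.cons (nat_lit 170) (C.miq (nat_lit 2316503895) (nat_lit 1254872251411564776923990241)) (C.cons (nat_lit 138) (C.miq (nat_lit 1394018854) (nat_lit 166873692855873676306154565)) C.nil)))) (C.cons (nat_lit 166) (C.miq (nat_lit 2584873815) (nat_lit 1254876899991071351730735329)) (C.cons (nat_lit 134) (C.node (nat_lit 1) (nat_lit 2) (nat_lit 11) (C.cons (nat_lit 2566) (C.node (nat_lit 1) (nat_lit 7) (nat_lit 11) (C.cons (nat_lit 2186) (C.miq (nat_lit 1906750240) (nat_lit 1936741093087224237027297309))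 (C.cons (nat_lit 2178) (C.node (nat_lit 2) (nat_lit 6) (nat_lit 11) (C.cons (nat_lit 2372) (C.miq (nat_lit 2072289888) (nat_lit 2804729503545106012268725317)) (C.cons (nat_lit 2116) (C.node (nat_lit 3) (nat_lit 7) (nat_lit 11) (C.cons (nat_lit 2696) (C.miq (nat_lit 2276590481) (nat_lit 3873403177649594506617946635)) (C.cons (nat_lit 2184) (C.node (nat_lit 7) (nat_lit 9) (nat_lit 11) (C.cons (nat_lit 2688) (C.node (nat_lit 4) (nat_lit 9) (nat_lit 11) (C.cons (nat_lit 2640) (C.miq (nat_lit 2257650866) (nat_lit 1936704014611195729524688925)) C.nil)) C.nil)) C.nil))) C.nil))) C.nil))) (C.cons (nat_lit 2118) (C.miq (nat_lit 1638249008) (nat_lit 3754965525768486217367226397)) (C.cons (nat_lit 2054) (C.node (nat_lit 1) (nat_lit 2) (nat_lit 9) (C.cons (nat_lit 550) (C.node (nat_lit 2) (nat_lit 9) (nat_lit 10) (C.cons (nat_lit 1556) (C.miq (nat_lit 2996140608) (nat_lit 664951131139178096286041235)) (C.cons (nat_lit 1540) (C.node (nat_lit 5) (nat_lit 9) (nat_lit 10)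 (C.cons (nat_lit 1696) (C.miq (nat_lit 1118374773) (nat_lit 1861756111414591567920367841)) (C.cons (nat_lit 1568) (C.node (nat_lit 1) (nat_lit 2) (nat_lit 4) (C.cons (nat_lit 86) (C.node (nat_lit 1) (nat_lit 4) (nat_lit 11) (C.cons (nat_lit 2578) (C.node (nat_lit 4) (nat_lit 6) (nat_lit 11) (C.cons (nat_lit 2128) (C.node (nat_lit 1) (nat_lit 7) (nat_lit 9) (C.cons (nat_lit 898) (C.miq (nat_lit 873925528) (nat_lit 1415659384923786330547293953)) (C.cons (nat_lit 642) (C.node (nat_lit 1) (nat_lit 8) (nat_lit 9) (C.cons (nat_lit 770) (C.node (nat_lit 1) (nat_lit 7) (nat_lit 11) (C.cons (nat_lit 2178) (C.node (nat_lit 1) (nat_lit 3) (nat_lit 7) C.nil) C.nil)) C.nil)) C.nil))) C.nil)) (C.cons (nat_lit 2066) (C.miq (nat_lit 2437654048) (nat_lit 2497711597718734275524494405)) C.nil))) (C.cons (nat_lit 22) (C.node (nat_lit 1) (nat_lit 2) (nat_lit 6) (C.cons (nat_lit 70) (C.node (nat_lit 2) (nat_lit 9) (nat_lit 11) (C.cons (nat_lit 2628) (C.miq (nat_lit 1113656218)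 (nat_lit 84646409094969170021453569)) (C.cons (nat_lit 2564) (C.node (nat_lit 2) (nat_lit 6) (nat_lit 11) (C.cons (nat_lit 2372) (C.miq (nat_lit 2072289888) (nat_lit 2804729503545106012268725317)) (C.cons (nat_lit 2116) (C.node (nat_lit 2) (nat_lit 4) (nat_lit 10) (C.cons (nat_lit 1332) (C.miq (nat_lit 1511604784) (nat_lit 1936709512020990416126674973)) (C.cons (nat_lit 1300) (C.miq (nat_lit 2259828858) (nat_lit 2558111015166717985917502611)) (C.cons (nat_lit 1076) (C.miq (nat_lit 1511604784) (nat_lit 1936709511948932822088747037)) (C.cons (nat_lit 1044) (C.node (nat_lit 2) (nat_lit 5) (nat_lit 11) (C.cons (nat_lit 2340) (C.node (nat_lit 2) (nat_lit 5) (nat_lit 10) C.nil) C.nil)) C.nil))))) C.nil))) C.nil))) C.nil)) C.nil))) C.nil))) C.nil))) (C.cons (nat_lit 534) (C.miq (nat_lit 2443526704) (nat_lit 3754933944496775663505180701)) (C.cons (nat_lit 518) (C.node (nat_lit 1) (nat_lit 7) (nat_lit 11) (C.cons (nat_lit 2690) (C.node (nat_lit 3) (nat_lit 7) (nat_lit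 11) (C.cons (nat_lit 2184) (C.node (nat_lit 1) (nat_lit 4) (nat_lit 9) (C.cons (nat_lit 786) (C.miq (nat_lit 1729366936) (nat_lit 1415658351961287779276689153)) (C.cons (nat_lit 530) (C.node (nat_lit 2) (nat_lit 6) (nat_lit 11) (C.cons (nat_lit 2628)
  (C.miq (nat_lit 2710702006) (nat_lit 626243737181269228400150753)) (C.cons (nat_lit 2372) (C.miq (nat_lit 2072289888) (nat_lit 2804729503545106012268725317)) (C.cons (nat_lit 2116) (C.node (nat_lit 2) (nat_lit 9) (nat_lit 11) (C.cons (nat_lit 2596) (C.miq (nat_lit 1383184650) (nat_lit 162053356146165061149462273)) (C.cons (nat_lit 2564) (C.node (nat_lit 5) (nat_lit 9) (nat_lit 11) (C.cons (nat_lit 2600) (C.miq (nat_lit 2710767541) (nat_lit 632287849770508310404401377)) C.nil)) C.nil))) C.nil)))) C.nil))) C.nil)) (C.cons (nat_lit 2186) (C.miq (nat_lit 1906750240) (nat_lit 1936741093087224237027297309)) (C.cons (nat_lit 2178) (C.node (nat_lit 1) (nat_lit 9) (nat_lit 11) (C.cons (nat_lit 2578) (C.node (nat_lit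 4) (nat_lit 6) (nat_lit 11) (C.cons (nat_lit 2128) (C.node (nat_lit 2) (nat_lit 6) (nat_lit 11) (C.cons (nat_lit 2628) (C.node (nat_lit 5) (nat_lit 9) (nat_lit 11) (C.cons (nat_lit 2600) (C.miq (nat_lit 2476913926) (nat_lit 1254913479535250305706166497)) (C.cons (nat_lit 2592) (C.node (nat_lit 3) (nat_lit 5) (nat_lit 11) (C.cons (nat_lit 2344) (C.miq (nat_lit 461874480) (nat_lit 2940129195314359811862758441)) C.nil)) C.nil))) (C.cons (nat_lit 2372) (C.miq (nat_lit 2602963978) (nat_lit 2867601596535557895783515283)) (C.cons (nat_lit 2116) (C.miq (nat_lit 2602963978) (nat_lit 2558116586714212827058734227)) C.nil)))) C.nil)) (C.cons (nat_lit 2562) (C.node (nat_lit 2) (nat_lit 6) (nat_lit 11) (C.cons (nat_lit 2628) (C.miq (nat_lit 1100679778) (nat_lit 3097306264069735118773945413)) (C.cons (nat_lit 2372) (C.miq (nat_lit 2072289888) (nat_lit 2804729503545106012268725317)) (C.cons (nat_lit 2116) (C.node (nat_lit 2) (nat_lit 9) (nat_lit 11) (C.cons (nat_lit 2596)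 (C.miq (nat_lit 1383184650) (nat_lit 162053356146165061149462273)) (C.cons (nat_lit 2564) (C.node (nat_lit 1) (nat_lit 4) (nat_lit 11) C.nil) C.nil))) C.nil)))) C.nil))) C.nil)))) C.nil)))) C.nil)))) C.nil)))) (C.cons (nat_lit 1090) (C.node (nat_lit 1) (nat_lit 9) (nat_lit 10) (C.cons (nat_lit 1538) (C.node (nat_lit 1) (nat_lit 2) (nat_lit 7) (C.cons (nat_lit 198) (C.node (nat_lit 1) (nat_lit 3) (nat_lit 7) (C.cons (nat_lit 2186) (C.miq (nat_lit 1906750240) (nat_lit 1317771073444534099577735197)) (C.cons (nat_lit 170) (C.miq (nat_lit 2316503895) (nat_lit 1254872251411564776923990241)) (C.cons (nat_lit 138) (C.miq (nat_lit 1394018854) (nat_lit 166873692855873676306154565)) C.nil)))) (C.cons (nat_lit 166) (C.miq (nat_lit 2584873815) (nat_lit 1254876899991071351730735329)) (C.cons (nat_lit 134) (C.node (nat_lit 1) (nat_lit 7) (nat_lit 11) (C.cons (nat_lit 2690) (C.node (nat_lit 3) (nat_lit 7) (nat_lit 11) (C.cons (nat_lit 2184) (C.node (nat_lit 1) (nat_lit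 2) (nat_lit 11) (C.cons (nat_lit 2118) (C.miq (nat_lit 1638249008) (nat_lit 3754965525768486217367226397)) (C.cons (nat_lit 2054) (C.node (nat_lit 2) (nat_lit 6) (nat_lit 11) (C.cons (nat_lit 2628) (C.miq (nat_lit 706306171) (nat_lit 1859376388918382558527490273)) (C.cons (nat_lit 2372) (C.miq (nat_lit 2072289888) (nat_lit 2804729503545106012268725317)) (C.cons (nat_lit 2116) (C.node (nat_lit 2) (nat_lit 9) (nat_lit 11) (C.cons (nat_lit 2596) (C.miq (nat_lit 1383184650) (nat_lit 162053356146165061149462273)) (C.cons (nat_lit 2564) (C.node (nat_lit 5) (nat_lit 9) (nat_lit 11) (C.cons (nat_lit 2600) (C.miq (nat_lit 2710767541) (nat_lit 632287849770508310404401377)) C.nil)) C.nil))) C.nil)))) C.nil))) C.nil)) (C.cons (nat_lit 2186) (C.miq (nat_lit 1906750240) (nat_lit 1317771073444534099577735197)) (C.cons (nat_lit 2178) (C.node (nat_lit 3) (nat_lit 7) (nat_lit 11) (C.cons (nat_lit 2696) (C.node (nat_lit 3) (nat_lit 5) (nat_lit 11) (C.cons (nat_lit 2344) (C.miq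 (nat_lit 461874480) (nat_lit 2940129195314359811862758441)) (C.cons (nat_lit 2088) (C.node (nat_lit 5) (nat_lit 9) (nat_lit 11) (C.cons (nat_lit 2596) (C.miq (nat_lit 1383184650) (nat_lit 162053356146165061149462273)) (C.cons (nat_lit 2592) (C.node (nat_lit 7) (nat_lit 9) (nat_lit 10) (C.cons (nat_lit 1728)
  (C.miq (nat_lit 2586015243) (nat_lit 1254914733668401258587556065)) (C.cons (nat_lit 1696) (C.miq (nat_lit 1521784608) (nat_lit 3733173280070795564263735941)) (C.cons (nat_lit 1664) (C.node (nat_lit 1) (nat_lit 2) (nat_lit 11) (C.cons (nat_lit 2630) (C.miq (nat_lit 1638249008) (nat_lit 3754965525912601405443082269)) (C.cons (nat_lit 2566) (C.miq (nat_lit 2276590481) (nat_lit 3873403177649594506617946635)) (C.cons (nat_lit 2118) (C.miq (nat_lit 1638249008) (nat_lit 3754965525768486217367226397)) (C.cons (nat_lit 2054) (C.node (nat_lit 2) (nat_lit 5) (nat_lit 11) (C.cons (nat_lit 2340) (C.node (nat_lit 2) (nat_lit 6) (nat_lit 11) (C.cons (nat_lit 2628)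 (C.node (nat_lit 1) (nat_lit 9) (nat_lit 11) C.nil) C.nil)) C.nil)) C.nil))))) C.nil)))) C.nil))) C.nil))) (C.cons (nat_lit 2184) (C.node (nat_lit 7) (nat_lit 9) (nat_lit 11) (C.cons (nat_lit 2688) (C.node (nat_lit 1) (nat_lit 3) (nat_lit 7) (C.cons (nat_lit 202) (C.node (nat_lit 3) (nat_lit 6) (nat_lit 11) (C.cons (nat_lit 2632) (C.miq (nat_lit 2468001392) (nat_lit 1254935855444815208095353057)) (C.cons (nat_lit 2376) (C.miq (nat_lit 2199565936) (nat_lit 1254935855372757614057425121)) (C.cons (nat_lit 2120) (C.node (nat_lit 1) (nat_lit 3) (nat_lit 11) (C.cons (nat_lit 2314) (C.node (nat_lit 6) (nat_lit 8) (nat_lit 11) (C.cons (nat_lit 2372) (C.miq (nat_lit 2072289888) (nat_lit 2804729503545106012268725317)) C.nil)) (C.cons (nat_lit 2058) (C.node (nat_lit 1) (nat_lit 8) (nat_lit 11) C.nil) C.nil))) C.nil)))) (C.cons (nat_lit 170) (C.miq (nat_lit 2316503895) (nat_lit 1254872251411564776923990241)) (C.cons (nat_lit 138) (C.node (nat_lit 2) (nat_lit 5) (nat_lit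 11) (C.cons (nat_lit 2596) (C.miq (nat_lit 1383184650) (nat_lit 162053356146165061149462273)) (C.cons (nat_lit 2340) (C.node (nat_lit 2) (nat_lit 8) (nat_lit 10) (C.cons (nat_lit 1300) (C.miq (nat_lit 1797785508) (nat_lit 2828892635090791492155081875)) (C.cons (nat_lit 1284) (C.node (nat_lit 3) (nat_lit 5) (nat_lit 11) (C.cons (nat_lit 2600) (C.miq (nat_lit 1377024009) (nat_lit 1254912962953229303292825345)) (C.cons (nat_lit 2088) (C.node (nat_lit 5) (nat_lit 9) (nat_lit 11) C.nil) C.nil))) C.nil))) (C.cons (nat_lit 2084) (C.node (nat_lit 2) (nat_lit 8) (nat_lit 11) (C.cons (nat_lit 2372) (C.miq (nat_lit 2072289888) (nat_lit 2804729503545106012268725317)) (C.cons (nat_lit 2308) (C.node (nat_lit 5) (nat_lit 8) (nat_lit 11) C.nil) C.nil))) C.nil)))) C.nil)))) C.nil)) C.nil))) C.nil)))) C.nil)))) C.nil)) C.nil))) C.nil))) (C.cons (nat_lit 1030) (C.node (nat_lit 1) (nat_lit 9) (nat_lit 10) (C.cons (nat_lit 1602) (C.node (nat_lit 1) (nat_lit 3) (nat_lit 10) (C.cons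 (nat_lit 1290) (C.miq (nat_lit 410755845) (nat_lit 2940164889252975502780597289)) (C.cons (nat_lit 1034) (C.node (nat_lit 1) (nat_lit 8) (nat_lit 10) (C.cons (nat_lit 1282) (C.node (nat_lit 2) (nat_lit 5) (nat_lit 11) (C.cons (nat_lit 2596) (C.miq (nat_lit 1537512048) (nat_lit 3733173280324123043243950725)) (C.cons (nat_lit 2340) (C.node (nat_lit 3) (nat_lit 5) (nat_lit 11) (C.cons (nat_lit 2600) (C.node (nat_lit 3) (nat_lit 7) (nat_lit 11) (C.cons (nat_lit 2186) (C.miq (nat_lit 1094256565) (nat_lit 632278552611492996126869729)) (C.cons (nat_lit 2184) (C.node (nat_lit 1) (nat_lit 7) (nat_lit 11) (C.cons (nat_lit 2690) (C.miq (nat_lit 2710767541) (nat_lit 632287849770508310404401377)) (C.cons (nat_lit 2178) (C.node (nat_lit 7) (nat_lit 9) (nat_lit 11) (C.cons (nat_lit 2688) (C.node (nat_lit 1) (nat_lit 9) (nat_lit 11) (C.cons (nat_lit 2578) (C.miq (nat_lit 1511600203) (nat_lit 1936747124857003462486001693)) (C.cons (nat_lit 2566) (C.miq (nat_lit 897620769)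 (nat_lit 349389210247623371273996806)) (C.cons (nat_lit 2562) (C.node (nat_lit 2) (nat_lit 9) (nat_lit 11) (C.cons (nat_lit 2628) (C.miq (nat_lit 1500134176) (nat_lit 1936718809536920665245157405)) C.nil)) C.nil)))) C.nil)) C.nil))) C.nil))) (C.cons (nat_lit 2088) (C.node (nat_lit 5) (nat_lit 9) (nat_lit 11) (C.cons (nat_lit 2592) (C.node (nat_lit 1) (nat_lit 2) (nat_lit 3) (C.cons (nat_lit 206)
  (C.miq (nat_lit 2591099683) (nat_lit 1415661783497040460310775837)) (C.cons (nat_lit 174) (C.miq (nat_lit 2316503895) (nat_lit 1250036548133106260225427681)) (C.cons (nat_lit 142) (C.miq (nat_lit 2591099683) (nat_lit 1415661783497040460306581533)) (C.cons (nat_lit 110) (C.miq (nat_lit 3105032802) (nat_lit 632306518627044419200484421)) (C.cons (nat_lit 78) (C.miq (nat_lit 3105032802) (nat_lit 632306518627044419198387269)) (C.cons (nat_lit 46) (C.miq (nat_lit 2605910049) (nat_lit 2524246760083651702654107911)) (C.cons (nat_lit 14) (C.node (nat_lit 1) (nat_lit 2)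 (nat_lit 7) (C.cons (nat_lit 198) (C.node (nat_lit 2) (nat_lit 6) (nat_lit 11) (C.cons (nat_lit 2628) (C.miq (nat_lit 1113656218) (nat_lit 239388914005641704383844097)) (C.cons (nat_lit 2116) (C.node (nat_lit 1) (nat_lit 7) (nat_lit 8) (C.cons (nat_lit 930) (C.miq (nat_lit 1362266379) (nat_lit 16968127117511263541595905)) (C.cons (nat_lit 898) (C.miq (nat_lit 2171246368) (nat_lit 1936770017219388435828376197)) (C.cons (nat_lit 418) (C.miq (nat_lit 1115753303) (nat_lit 317969092280591363711568097)) (C.cons (nat_lit 386) (C.node (nat_lit 1) (nat_lit 2) (nat_lit 11) (C.cons (nat_lit 2566) (C.node (nat_lit 1) (nat_lit 2) (nat_lit 4) (C.cons (nat_lit 54) (C.miq (nat_lit 2233119296) (nat_lit 3754994450325677012533053469)) (C.cons (nat_lit 22) (C.node (nat_lit 1) (nat_lit 2) (nat_lit 5) C.nil) C.nil))) (C.cons (nat_lit 2054) (C.node (nat_lit 2) (nat_lit 9) (nat_lit 11) C.nil) C.nil))) C.nil))))) C.nil))) (C.cons (nat_lit 166) (C.miq (nat_lit 2584873815) (nat_lit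 1245205493434154318333085921)) (C.cons (nat_lit 134) (C.node (nat_lit 2) (nat_lit 5) (nat_lit 7) (C.cons (nat_lit 180) (C.miq (nat_lit 2602895988) (nat_lit 2828896767602816766503552147)) (C.cons (nat_lit 172) (C.node (nat_lit 2) (nat_lit 3) (nat_lit 10) (C.cons (nat_lit 1548) (C.miq (nat_lit 2740687472) (nat_lit 2524307965735056838005686917)) (C.cons (nat_lit 1292) (C.miq (nat_lit 2723906416) (nat_lit 2828957272205885795993715081)) (C.cons (nat_lit 1036) (C.node (nat_lit 2) (nat_lit 8) (nat_lit 10) (C.cons (nat_lit 1300) (C.miq (nat_lit 1196597432) (nat_lit 207959222070629000808763137)) (C.cons (nat_lit 1284) (C.node (nat_lit 2) (nat_lit 9) (nat_lit 10) (C.cons (nat_lit 1572) (C.miq (nat_lit 2320697639) (nat_lit 1287513248541153176161354373)) (C.cons (nat_lit 1556) (C.miq (nat_lit 1165136058) (nat_lit 207963944265412134717099777)) (C.cons (nat_lit 1540) (C.node (nat_lit 5) (nat_lit 9) (nat_lit 10) (C.cons (nat_lit 1696) (C.miq (nat_lit 1114966953) (nat_lit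 207945590181778856922320641)) (C.cons (nat_lit 1568) (C.node (nat_lit 5) (nat_lit 7) (nat_lit 10) (C.cons (nat_lit 1440) (C.miq (nat_lit 1113000842) (nat_lit 207956842695660108880285441)) (C.cons (nat_lit 1184) (C.node (nat_lit 2) (nat_lit 4) (nat_lit 10) (C.cons (nat_lit 1044) (C.node (nat_lit 2) (nat_lit 5) (nat_lit 10) C.nil) C.nil)) C.nil))) C.nil))) C.nil)))) C.nil))) C.nil)))) (C.cons (nat_lit 164) (C.node (nat_lit 5) (nat_lit 7) (nat_lit 10) (C.cons (nat_lit 1696) (C.miq (nat_lit 1114966953) (nat_lit 198274183624861823524671233)) (C.cons (nat_lit 1440) (C.miq (nat_lit 1113000842) (nat_lit 198285436138743075482636033)) (C.cons (nat_lit 1184) (C.node (nat_lit 7) (nat_lit 8) (nat_lit 10) (C.cons (nat_lit 1472) (C.miq (nat_lit 2276747808) (nat_lit 2649971613562364918004253765)) (C.cons (nat_lit 1408) (C.node (nat_lit 2) (nat_lit 3) (nat_lit 7) (C.cons (nat_lit 204) (C.node (nat_lit 6) (nat_lit 7) (nat_lit 10) (C.cons (nat_lit 1216) (C.node (nat_lit 2)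 (nat_lit 3) (nat_lit 10) (C.cons (nat_lit 1548) (C.miq (nat_lit 1805873298) (nat_lit 3723495288188658013977707141)) (C.cons (nat_lit 1292) (C.miq (nat_lit 3123054647) (nat_lit 1321397851369220164421419401)) (C.cons (nat_lit 1036) (C.node (nat_lit 2) (nat_lit 8) (nat_lit 10) (C.cons (nat_lit 1300) (C.miq (nat_lit 1181909178) (nat_lit 246644848063547003879296769)) (C.cons (nat_lit 1284) (C.node (nat_lit 3) (nat_lit 9) (nat_lit 11) (C.cons (nat_lit 2696)
  (C.miq (nat_lit 2469050208) (nat_lit 1252518003823600356840245473)) (C.cons (nat_lit 2632) (C.miq (nat_lit 1265238929) (nat_lit 3791212972033422236850455051)) C.nil))) C.nil))) C.nil)))) C.nil)) (C.cons (nat_lit 140) (C.node (nat_lit 5) (nat_lit 9) (nat_lit 10) (C.cons (nat_lit 1572) (C.node (nat_lit 2) (nat_lit 4) (nat_lit 10) (C.cons (nat_lit 1300) (C.miq (nat_lit 1196597432) (nat_lit 198287815513711967411113729)) (C.cons (nat_lit 1044) (C.node (nat_lit 2) (nat_lit 4) (nat_lit 5) (C.cons (nat_lit 118) (C.miq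 (nat_lit 2316569430) (nat_lit 1415658352402642329421613281)) (C.cons (nat_lit 116) (C.miq (nat_lit 2303986214) (nat_lit 678213602437711944370881605)) (C.cons (nat_lit 54) (C.miq (nat_lit 2233119296) (nat_lit 3754994450325677012533053469)) (C.cons (nat_lit 52) (C.node (nat_lit 1) (nat_lit 2) (nat_lit 5) (C.cons (nat_lit 102) (C.node (nat_lit 2) (nat_lit 3) (nat_lit 5) (C.cons (nat_lit 44) (C.node (nat_lit 1) (nat_lit 2) (nat_lit 11) C.nil) C.nil)) (C.cons (nat_lit 38) (C.node (nat_lit 2) (nat_lit 3) (nat_lit 5) (C.cons (nat_lit 108) (C.node (nat_lit 2) (nat_lit 3) (nat_lit 10) C.nil) C.nil)) C.nil))) C.nil))))) C.nil))) (C.cons (nat_lit 1568) (C.node (nat_lit 2) (nat_lit 5) (nat_lit 10) (C.cons (nat_lit 1076) (C.node (nat_lit 5) (nat_lit 6) (nat_lit 10) (C.cons (nat_lit 1376) (C.node (nat_lit 2) (nat_lit 8) (nat_lit 10) (C.cons (nat_lit 1292) (C.miq (nat_lit 995631210) (nat_lit 2828910251676208790732014661)) (C.cons (nat_lit 1284) (C.node (nat_lit 1) (nat_lit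 2) (nat_lit 5) C.nil) C.nil))) C.nil)) (C.cons (nat_lit 1060) (C.node (nat_lit 4) (nat_lit 5) (nat_lit 10) (C.cons (nat_lit 1072) (C.node (nat_lit 5) (nat_lit 6) (nat_lit 10) C.nil) C.nil)) C.nil))) C.nil))) C.nil))) C.nil))) C.nil)))) C.nil)))) C.nil)))) C.nil)))))))) C.nil)) C.nil))) (C.cons (nat_lit 2084) (C.node (nat_lit 2) (nat_lit 8) (nat_lit 11) (C.cons (nat_lit 2372) (C.miq (nat_lit 2072289888) (nat_lit 2804729503545106012268725317)) (C.cons (nat_lit 2308) (C.node (nat_lit 5) (nat_lit 8) (nat_lit 11) (C.cons (nat_lit 2344) (C.miq (nat_lit 461874480) (nat_lit 2940129195314359811862758441)) (C.cons (nat_lit 2336) (C.node (nat_lit 3) (nat_lit 5) (nat_lit 11) (C.cons (nat_lit 2600) (C.node (nat_lit 3) (nat_lit 7) (nat_lit 11) (C.cons (nat_lit 2186) (C.miq (nat_lit 1094256565) (nat_lit 632278552611492996126869729)) (C.cons (nat_lit 2184) (C.node (nat_lit 1) (nat_lit 7) (nat_lit 11) (C.cons (nat_lit 2690) (C.miq (nat_lit 2710767541) (nat_lit 632287849770508310404401377))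 C.nil)) C.nil))) (C.cons (nat_lit 2088) (C.node (nat_lit 5) (nat_lit 9) (nat_lit 11) (C.cons (nat_lit 2592) (C.node (nat_lit 1) (nat_lit 2) (nat_lit 11) C.nil) C.nil)) C.nil))) C.nil))) C.nil))) C.nil)))) C.nil)) C.nil))) (C.cons (nat_lit 1538) (C.node (nat_lit 2) (nat_lit 5) (nat_lit 11) (C.cons (nat_lit 2596) (C.miq (nat_lit 1537512048) (nat_lit 3733173280324123043243950725)) (C.cons (nat_lit 2340) (C.node (nat_lit 3) (nat_lit 5) (nat_lit 11) (C.cons (nat_lit 2600) (C.node (nat_lit 3) (nat_lit 7) (nat_lit 11) (C.cons (nat_lit 2186) (C.miq (nat_lit 1094256565) (nat_lit 632278552611492996126869729)) (C.cons (nat_lit 2184) (C.node (nat_lit 1) (nat_lit 7) (nat_lit 11) (C.cons (nat_lit 2690) (C.miq (nat_lit 2710767541) (nat_lit 632287849770508310404401377)) (C.cons (nat_lit 2178) (C.node (nat_lit 7) (nat_lit 9) (nat_lit 11) (C.cons (nat_lit 2688) (C.node (nat_lit 2) (nat_lit 5) (nat_lit 7) (C.cons (nat_lit 180) (C.miq (nat_lit 2602895988) (nat_lit 2828896767602816766503552147))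 (C.cons (nat_lit 174) (C.miq (nat_lit 2584873815) (nat_lit 1245205493434154318333610209)) (C.cons (nat_lit 172) (C.miq (nat_lit 324143544) (nat_lit 207940092614630183549538049)) (C.cons (nat_lit 166) (C.miq (nat_lit 891394944) (nat_lit 200691334435023982785138433)) (C.cons (nat_lit 164) (C.node (nat_lit 3) (nat_lit 5) (nat_lit 7) (C.cons (nat_lit 184) (C.miq (nat_lit 2872510804) (nat_lit 2640315592256816983915889201)) (C.cons (nat_lit 170) (C.miq (nat_lit 557154459) (nat_lit 205560554789649605364027137))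
  (C.cons (nat_lit 168) (C.node (nat_lit 5) (nat_lit 7) (nat_lit 10) (C.cons (nat_lit 1696) (C.miq (nat_lit 1114966953) (nat_lit 198274183624861823524671233)) (C.cons (nat_lit 1440) (C.miq (nat_lit 1113000842) (nat_lit 198285436138743075482636033)) (C.cons (nat_lit 1184) (C.node (nat_lit 7) (nat_lit 8) (nat_lit 10) (C.cons (nat_lit 1472) (C.miq (nat_lit 2276747808) (nat_lit 2649971613562364918004253765)) (C.cons (nat_lit 1408) (C.node (nat_lit 1) (nat_lit 5) (nat_lit 7) (C.cons (nat_lit 930) (C.miq (nat_lit 1115753303) (nat_lit 317969092280591363745122529)) (C.cons (nat_lit 674) (C.miq (nat_lit 1133579095) (nat_lit 632289805380396065843448033)) (C.cons (nat_lit 418) (C.miq (nat_lit 1115753303) (nat_lit 317969092280591363711568097)) (C.cons (nat_lit 162) (C.node (nat_lit 5) (nat_lit 7) (nat_lit 9) (C.cons (nat_lit 928) (C.miq (nat_lit 425198514) (nat_lit 1121888012243289839627405341)) (C.cons (nat_lit 672) (C.node (nat_lit 4) (nat_lit 5) (nat_lit 7) (C.cons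 (nat_lit 432) (C.node (nat_lit 2) (nat_lit 4) (nat_lit 7) C.nil) C.nil)) C.nil))) C.nil))))) C.nil))) C.nil)))) C.nil)))) C.nil)))))) C.nil)) C.nil))) C.nil))) (C.cons (nat_lit 2088) (C.node (nat_lit 5) (nat_lit 9) (nat_lit 11) (C.cons (nat_lit 2592) (C.ref (nat_lit 243) (nat_lit 198064386771216)) C.nil)) C.nil))) (C.cons (nat_lit 2084) (C.node (nat_lit 2) (nat_lit 8) (nat_lit 11) (C.cons (nat_lit 2372) (C.miq (nat_lit 2072289888) (nat_lit 2804729503545106012268725317)) (C.cons (nat_lit 2308) (C.node (nat_lit 5) (nat_lit 8) (nat_lit 11) (C.cons (nat_lit 2344) (C.miq (nat_lit 461874480) (nat_lit 2940129195314359811862758441)) (C.cons (nat_lit 2336) (C.node (nat_lit 3) (nat_lit 5) (nat_lit 11) (C.cons (nat_lit 2600) (C.node (nat_lit 3) (nat_lit 7) (nat_lit 11) (C.cons (nat_lit 2186) (C.miq (nat_lit 1094256565) (nat_lit 632278552611492996126869729)) (C.cons (nat_lit 2184) (C.node (nat_lit 1) (nat_lit 7) (nat_lit 11) (C.cons (nat_lit 2690) (C.miq (nat_lit 2710767541)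 (nat_lit 632287849770508310404401377)) C.nil)) C.nil))) (C.cons (nat_lit 2088) (C.node (nat_lit 5) (nat_lit 9) (nat_lit 11) (C.cons (nat_lit 2592) (C.node (nat_lit 1) (nat_lit 7) (nat_lit 11) C.nil) C.nil)) C.nil))) C.nil))) C.nil))) C.nil)))) C.nil))) C.nil)))) C.nil))) List.nil)

theorem ok12_300 : okL par12 (nat_lit 301) c12_300 (nat_lit 300) = true := by decide +kernel

noncomputable def c12_301 : List C :=
  (List.cons (C.node (nat_lit 2) (nat_lit 5) (nat_lit 7) (C.cons (nat_lit 180) (C.miq (nat_lit 2602895988) (nat_lit 2828896767602816766503552147)) (C.cons (nat_lit 174) (C.miq (nat_lit 2820737879) (nat_lit 317969092777113222613174497)) (C.cons (nat_lit 172) (C.miq (nat_lit 324143544) (nat_lit 207940092614630183549538049)) (C.cons (nat_lit 166) (C.miq (nat_lit 891394944) (nat_lit 200691334435023982785138433)) (C.cons (nat_lit 164) (C.node (nat_lit 3) (nat_lit 5) (nat_lit 7) (C.cons (nat_lit 184) (C.miq (nat_lit 2872510804) (nat_lit 2640315592256816983915889201))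 (C.cons (nat_lit 170) (C.miq (nat_lit 557154459) (nat_lit 205560554789649605364027137)) (C.cons (nat_lit 168) (C.node (nat_lit 5) (nat_lit 7) (nat_lit 10) (C.cons (nat_lit 1696) (C.miq (nat_lit 1114966953) (nat_lit 198274183624861823524671233)) (C.cons (nat_lit 1440) (C.miq (nat_lit 1113000842) (nat_lit 198285436138743075482636033)) (C.cons (nat_lit 1184) (C.node (nat_lit 7) (nat_lit 8) (nat_lit 10) (C.cons (nat_lit 1472) (C.miq (nat_lit 2276747808) (nat_lit 2649971613562364918004253765)) (C.cons (nat_lit 1408) (C.node (nat_lit 1) (nat_lit 5) (nat_lit 7) (C.cons (nat_lit 930) (C.miq (nat_lit 1115753303) (nat_lit 317969092280591363745122529)) (C.cons (nat_lit 674) (C.miq (nat_lit 1133579095) (nat_lit 632289805380396065843448033)) (C.cons (nat_lit 418) (C.miq (nat_lit 1115753303) (nat_lit 317969092280591363711568097)) (C.cons (nat_lit 162) (C.node (nat_lit 5) (nat_lit 7) (nat_lit 9) (C.cons (nat_lit 928) (C.miq (nat_lit 425198514) (nat_lit 1121888012243289839627405341))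 (C.cons (nat_lit 672) (C.node (nat_lit 1) (nat_lit 4) (nat_lit 8) (C.cons (nat_lit 786) (C.miq (nat_lit 1478078979) (nat_lit 950263656410342751266867229)) (C.cons (nat_lit 282) (C.miq (nat_lit 2270245044) (nat_lit 195851184870028140841404445)) (C.cons (nat_lit 274) (C.node (nat_lit 1) (nat_lit 5) (nat_lit 10) (C.cons (nat_lit 1634) (C.miq (nat_lit 890550688) (nat_lit 2536364684170775060773277441)) (C.cons (nat_lit 1574) (C.miq (nat_lit 891394944) (nat_lit 1902858888452421860771434241)) (C.cons (nat_lit 1570) (C.miq (nat_lit 890550688) (nat_lit 2536364684170774785895370497)) (C.cons (nat_lit 1378) (C.miq (nat_lit 622114976) (nat_lit 2536364684097590467316879105)) (C.cons (nat_lit 1314) (C.miq (nat_lit 622114976) (nat_lit 2536364684097590192438972161)) (C.cons (nat_lit 1122) (C.miq (nat_lit 605686614) (nat_lit 1415672297644635865663801569)) (C.cons (nat_lit 1062) (C.miq (nat_lit 891394944) (nat_lit 1283888868809731723321872129)) (C.cons (nat_lit 1058) (C.node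 (nat_lit 4) (nat_lit 5) (nat_lit 7) (C.cons (nat_lit 432) (C.node (nat_lit 2) (nat_lit 4) (nat_lit 7) C.nil) C.nil)) C.nil))))))))) C.nil)))) C.nil))) C.nil))))) C.nil))) C.nil)))) C.nil)))) C.nil)))))) List.nil)

theorem ok12_301 : okL par12 (nat_lit 302) c12_301 (nat_lit 301) = true := by decide +kernel

noncomputable def c12_302 : List C :=
  (List.cons (C.node (nat_lit 2) (nat_lit 8) (nat_lit 10) (C.cons (nat_lit 1300) (C.miq (nat_lit 1797785508) (nat_lit 2828892635090791492155081875)) (C.cons (nat_lit 1292) (C.node (nat_lit 5) (nat_lit 7) (nat_lit 10) (C.cons (nat_lit 1696) (C.miq (nat_lit 1521784608) (nat_lit 3733173280070795564263735941)) (C.cons (nat_lit 1440) (C.miq (nat_lit 1116343127) (nat_lit 1561953760664044784551200993)) (C.cons (nat_lit 1184) (C.node (nat_lit 7) (nat_lit 8) (nat_lit 10) (C.cons (nat_lit 1472) (C.miq (nat_lit 1118309238) (nat_lit 1561938376079491021638994145)) (C.cons (nat_lit 1408) (C.node (nat_lit 2) (nat_lit 5) (nat_lit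 7) (C.cons (nat_lit 180) (C.miq (nat_lit 1250062517) (nat_lit 1561935479685657856290588897)) (C.cons (nat_lit 174) (C.miq (nat_lit 2820737879) (nat_lit 317969092777113222613174497)) (C.cons (nat_lit 172) (C.miq (nat_lit 2723906416) (nat_lit 2828957272205885795993715081)) (C.cons (nat_lit 166) (C.miq (nat_lit 2820737879) (nat_lit 317969092777113222612650209)) (C.cons (nat_lit 164) (C.node (nat_lit 2) (nat_lit 3) (nat_lit 7) (C.cons (nat_lit 206) (C.miq (nat_lit 2591099683) (nat_lit 1415661783497040460310775837)) (C.cons (nat_lit 204) (C.miq (nat_lit 3123054647) (nat_lit 1321397851369220164421419401)) (C.cons (nat_lit 142) (C.miq (nat_lit 2591099683) (nat_lit 1415661783497040460306581533)) (C.cons (nat_lit 140) (C.node (nat_lit 1) (nat_lit 2) (nat_lit 7) (C.cons (nat_lit 198) (C.node (nat_lit 2) (nat_lit 6) (nat_lit 11) (C.cons (nat_lit 2628) (C.miq (nat_lit 2417408626) (nat_lit 81046509038756278372273284)) (C.cons (nat_lit 2116) (C.node (nat_lit 1) (nat_lit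 10) (nat_lit 11) (C.cons (nat_lit 3146) (C.miq (nat_lit 2443641778) (nat_lit 1415664033065883231238490141)) (C.cons (nat_lit 3138) (C.miq (nat_lit 2606893591) (nat_lit 2558098933535641739505042579)) (C.cons (nat_lit 3082) (C.miq (nat_lit 2443641778) (nat_lit 1415664033065882956360583197)) (C.cons (nat_lit 3074) (C.node (nat_lit 1) (nat_lit 2) (nat_lit 3) (C.cons (nat_lit 46) (C.node (nat_lit 1) (nat_lit 2) (nat_lit 10) (C.cons (nat_lit 1542) (C.miq (nat_lit 2456527216) (nat_lit 2558157888682577716706346131)) (C.cons (nat_lit 1030) (C.node (nat_lit 1) (nat_lit 2) (nat_lit 11) (C.cons (nat_lit 2566) (C.miq (nat_lit 2871331091) (nat_lit 2828906064761827175919649291)) (C.cons (nat_lit 2054) (C.node (nat_lit 2) (nat_lit 9) (nat_lit 11) (C.cons (nat_lit 2564) (C.node (nat_lit 1) (nat_lit 5) (nat_lit 11) (C.cons (nat_lit 2594) (C.miq (nat_lit 2233053744) (nat_lit 3136024430682986840681285661)) (C.cons (nat_lit 2082) (C.node (nat_lit 3) (nat_lit 5) (nat_lit 11)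 (C.cons (nat_lit 2600) (C.node (nat_lit 3) (nat_lit 7) (nat_lit 11) (C.cons (nat_lit 2186) (C.miq (nat_lit 1094256565) (nat_lit 632278552611492996126869729)) C.nil)) (C.cons (nat_lit 2088) (C.miq (nat_lit 2605910049) (nat_lit 2524246760083651702654107911)) C.nil))) C.nil))) C.nil)) C.nil))) C.nil))) (C.cons (nat_lit 14) (C.node (nat_lit 1) (nat_lit 2) (nat_lit 11) (C.cons (nat_lit 2566) (C.node (nat_lit 1) (nat_lit 2) (nat_lit 4) (C.cons (nat_lit 54) (C.miq (nat_lit 2874411041) (nat_lit 2533930120130728499841728775)) (C.cons (nat_lit 22) (C.node (nat_lit 5) (nat_lit 9) (nat_lit 11) (C.cons (nat_lit 2600) (C.miq (nat_lit 1377024009) (nat_lit 16972923667849028393701121)) (C.cons (nat_lit 2592) (C.node (nat_lit 7) (nat_lit 9) (nat_lit 11) (C.cons (nat_lit 2696) (C.miq (nat_lit 2066233616) (nat_lit 2828893668227520794781483531)) (C.cons (nat_lit 2688) (C.node (nat_lit 1) (nat_lit 7) (nat_lit 8) (C.cons (nat_lit 930) (C.miq (nat_lit 840371096) (nat_lit 239374562438752092020674305))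 (C.cons (nat_lit 898) (C.miq (nat_lit 840371096) (nat_lit 239374562438752092018577153)) (C.cons (nat_lit 418) (C.miq (nat_lit 1115753303) (nat_lit 317969092280591363711568097)) (C.cons (nat_lit 386) (C.node (nat_lit 1) (nat_lit 8) (nat_lit 10) (C.cons (nat_lit 1378) (C.miq (nat_lit 1363315211) (nat_lit 26639533800531869644427009)) (C.cons (nat_lit 1346) (C.miq (nat_lit 2551646818) (nat_lit 466657265602325570681963589)) (C.cons (nat_lit 1314)
  (C.miq (nat_lit 1363315211) (nat_lit 26639533782517471134945025)) (C.cons (nat_lit 1282) (C.node (nat_lit 2) (nat_lit 6) (nat_lit 8) (C.cons (nat_lit 836) (C.miq (nat_lit 1638409993) (nat_lit 1549858322279737298205606533)) (C.cons (nat_lit 324) (C.node (nat_lit 2) (nat_lit 8) (nat_lit 9) (C.cons (nat_lit 788) (C.miq (nat_lit 1394870921) (nat_lit 2510949276262786546269425409)) (C.cons (nat_lit 772) (C.node (nat_lit 1) (nat_lit 2) (nat_lit 5) (C.cons (nat_lit 38) (C.node (nat_lit 1) (nat_lit 2) (nat_lit 10) C.nil) C.nil))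 C.nil))) C.nil))) C.nil))))) C.nil))))) C.nil))) C.nil))) C.nil))) (C.cons (nat_lit 2054) (C.node (nat_lit 2) (nat_lit 9) (nat_lit 11) (C.cons (nat_lit 2564) (C.node (nat_lit 1) (nat_lit 3) (nat_lit 10) (C.cons (nat_lit 1098) (C.node (nat_lit 3) (nat_lit 10) (nat_lit 11) (C.cons (nat_lit 3080) (C.node (nat_lit 6) (nat_lit 10) (nat_lit 11) (C.cons (nat_lit 3136) (C.node (nat_lit 1) (nat_lit 5) (nat_lit 11) C.nil) C.nil)) C.nil)) (C.cons (nat_lit 1034) (C.node (nat_lit 2) (nat_lit 4) (nat_lit 7) (C.cons (nat_lit 404) (C.node (nat_lit 1) (nat_lit 2) (nat_lit 4) (C.cons (nat_lit 534) (C.miq (nat_lit 2474774644) (nat_lit 1561942009650649355389240467)) (C.cons (nat_lit 54) (C.miq (nat_lit 2874411041) (nat_lit 2533930120130728499841728775)) (C.cons (nat_lit 22) (C.node (nat_lit 2) (nat_lit 4) (nat_lit 10) (C.cons (nat_lit 1556) (C.miq (nat_lit 1461980073) (nat_lit 488416380387541920880267009)) (C.cons (nat_lit 1076) (C.miq (nat_lit 1384359024) (nat_lit 1561951805027408204526060691))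 (C.cons (nat_lit 1044) (C.node (nat_lit 1) (nat_lit 7) (nat_lit 8) (C.cons (nat_lit 930) (C.miq (nat_lit 1362266379) (nat_lit 16968127117511263541595905)) (C.cons (nat_lit 898) (C.miq (nat_lit 2468876359) (nat_lit 1561948724265499418390955155)) (C.cons (nat_lit 418) (C.miq (nat_lit 1115753303) (nat_lit 317969092280591363711568097)) (C.cons (nat_lit 386) (C.node (nat_lit 1) (nat_lit 8) (nat_lit 10) (C.cons (nat_lit 1378) (C.miq (nat_lit 1363315211) (nat_lit 26639533800531869644427009)) (C.cons (nat_lit 1346) (C.miq (nat_lit 2551646818) (nat_lit 466657265602325570681963589)) (C.cons (nat_lit 1314) (C.miq (nat_lit 1363315211) (nat_lit 26639533782517471134945025)) (C.cons (nat_lit 1282) (C.node (nat_lit 2) (nat_lit 6) (nat_lit 8) (C.cons (nat_lit 836) (C.miq (nat_lit 1638409993) (nat_lit 1549858322279737298205606533)) (C.cons (nat_lit 324) (C.node (nat_lit 2) (nat_lit 8) (nat_lit 9) C.nil) C.nil))) C.nil))))) C.nil))))) C.nil)))) C.nil)))) (C.cons (nat_lit 148)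 (C.node (nat_lit 2) (nat_lit 7) (nat_lit 8) (C.cons (nat_lit 388) (C.node (nat_lit 2) (nat_lit 4) (nat_lit 8) (C.cons (nat_lit 788) (C.miq (nat_lit 1394870921) (nat_lit 2510949276262786546269425409)) (C.cons (nat_lit 276) (C.node (nat_lit 3) (nat_lit 10) (nat_lit 11) C.nil) C.nil))) C.nil)) C.nil))) C.nil))) C.nil)) C.nil))) C.nil))) C.nil))))) C.nil))) (C.cons (nat_lit 134) (C.node (nat_lit 2) (nat_lit 6) (nat_lit 7) (C.cons (nat_lit 452) (C.miq (nat_lit 1445595011) (nat_lit 1321375567261022752099533193)) (C.cons (nat_lit 212) (C.miq (nat_lit 1218601143) (nat_lit 1561936069746718084476176609)) (C.cons (nat_lit 196) (C.node (nat_lit 2) (nat_lit 4) (nat_lit 7) (C.cons (nat_lit 404) (C.node (nat_lit 2) (nat_lit 4) (nat_lit 10) (C.cons (nat_lit 1556) (C.miq (nat_lit 1461980073) (nat_lit 488416380387541920880267009)) (C.cons (nat_lit 1076) (C.miq (nat_lit 1384359024) (nat_lit 1561951805027408204526060691)) (C.cons (nat_lit 1044) (C.node (nat_lit 2) (nat_lit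 6) (nat_lit 8) (C.cons (nat_lit 836) (C.node (nat_lit 2) (nat_lit 4) (nat_lit 9) (C.cons (nat_lit 534) (C.miq (nat_lit 942212929) (nat_lit 1010671632955601941198931091)) (C.cons (nat_lit 532) (C.node (nat_lit 1) (nat_lit 8) (nat_lit 10) (C.cons (nat_lit 1378) (C.miq (nat_lit 371697808) (nat_lit 236971062169653740669570817)) (C.cons (nat_lit 1346) (C.miq (nat_lit 371697808) (nat_lit 236971062160646541414829825)) (C.cons (nat_lit 1314) (C.miq (nat_lit 1264190081) (nat_lit 3752527345805752849110532359)) (C.cons (nat_lit 1282)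
  (C.node (nat_lit 6) (nat_lit 8) (nat_lit 10) (C.cons (nat_lit 1376) (C.miq (nat_lit 995631210) (nat_lit 2828910251676208790732014661)) (C.cons (nat_lit 1344) (C.node (nat_lit 4) (nat_lit 7) (nat_lit 9) (C.cons (nat_lit 728) (C.miq (nat_lit 342362002) (nat_lit 407412853033431742007214725)) (C.cons (nat_lit 720) (C.miq (nat_lit 342362002) (nat_lit 407412853033431707647476357)) (C.cons (nat_lit 664) (C.miq (nat_lit 306776179) (nat_lit 643158183756162925124387209)) (C.cons (nat_lit 656) (C.node (nat_lit 2) (nat_lit 3) (nat_lit 9) (C.cons (nat_lit 556) (C.node (nat_lit 1) (nat_lit 2) (nat_lit 3) (C.cons (nat_lit 78) (C.node (nat_lit 2) (nat_lit 6) (nat_lit 11) (C.cons (nat_lit 2116) (C.node (nat_lit 1) (nat_lit 2) (nat_lit 4) (C.cons (nat_lit 22) (C.node (nat_lit 1) (nat_lit 2) (nat_lit 5) C.nil) C.nil)) C.nil)) (C.cons (nat_lit 14) (C.node (nat_lit 2) (nat_lit 3) (nat_lit 6) (C.cons (nat_lit 76) (C.node (nat_lit 2) (nat_lit 5) (nat_lit 10) (C.cons (nat_lit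 1062) (C.node (nat_lit 2) (nat_lit 9) (nat_lit 10) C.nil) (C.cons (nat_lit 1060) (C.node (nat_lit 1) (nat_lit 2) (nat_lit 10) C.nil) C.nil))) C.nil)) C.nil))) (C.cons (nat_lit 524) (C.node (nat_lit 2) (nat_lit 6) (nat_lit 11) (C.cons (nat_lit 2118) (C.node (nat_lit 2) (nat_lit 9) (nat_lit 11) (C.cons (nat_lit 2564) (C.node (nat_lit 1) (nat_lit 2) (nat_lit 4) (C.cons (nat_lit 54) (C.miq (nat_lit 1369973771) (nat_lit 1549886066142291760724903965)) (C.cons (nat_lit 22) (C.node (nat_lit 1) (nat_lit 2) (nat_lit 3) C.nil) C.nil))) C.nil)) (C.cons (nat_lit 2116) (C.node (nat_lit 1) (nat_lit 2) (nat_lit 11) (C.cons (nat_lit 2566) (C.node (nat_lit 4) (nat_lit 9) (nat_lit 11) (C.cons (nat_lit 2640) (C.miq (nat_lit 409542731) (nat_lit 1010709319617152495215708189)) (C.cons (nat_lit 2576) (C.node (nat_lit 5) (nat_lit 9) (nat_lit 11) (C.cons (nat_lit 2600) (C.miq (nat_lit 897620769) (nat_lit 349389210247623371273996806)) (C.cons (nat_lit 2592) (C.node (nat_lit 1) (nat_lit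 4) (nat_lit 11) C.nil) C.nil))) C.nil))) (C.cons (nat_lit 2054) (C.node (nat_lit 2) (nat_lit 9) (nat_lit 11) C.nil) C.nil))) C.nil))) C.nil))) C.nil))))) C.nil))) C.nil))))) C.nil))) (C.cons (nat_lit 324) (C.node (nat_lit 2) (nat_lit 8) (nat_lit 9) (C.cons (nat_lit 772) (C.node (nat_lit 4) (nat_lit 5) (nat_lit 7) (C.cons (nat_lit 184) (C.node (nat_lit 3) (nat_lit 4) (nat_lit 8) (C.cons (nat_lit 792) (C.miq (nat_lit 2489025392) (nat_lit 2533979372079178840549687689)) (C.cons (nat_lit 282) (C.miq (nat_lit 2458060609) (nat_lit 1561941806770804538979517587)) (C.cons (nat_lit 280) (C.node (nat_lit 5) (nat_lit 7) (nat_lit 8) (C.cons (nat_lit 930) (C.miq (nat_lit 1115753303) (nat_lit 317969092280591363745122529)) (C.cons (nat_lit 928) (C.miq (nat_lit 2504754992) (nat_lit 2533979372117459437369491849)) (C.cons (nat_lit 418) (C.miq (nat_lit 1115753303) (nat_lit 317969092280591363711568097)) (C.cons (nat_lit 416) (C.node (nat_lit 1) (nat_lit 3) (nat_lit 4) (C.cons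 (nat_lit 90) (C.node (nat_lit 1) (nat_lit 3) (nat_lit 10) (C.cons (nat_lit 3082) (C.miq (nat_lit 2443641778) (nat_lit 1415664033065882956360583197)) (C.cons (nat_lit 1034) (C.node (nat_lit 3) (nat_lit 4) (nat_lit 9) (C.cons (nat_lit 1560) (C.miq (nat_lit 2491130704) (nat_lit 2650036250978356023435265065)) (C.cons (nat_lit 536) (C.node (nat_lit 3) (nat_lit 4) (nat_lit 10) (C.cons (nat_lit 1048) (C.node (nat_lit 1) (nat_lit 2) (nat_lit 4) (C.cons (nat_lit 534) (C.miq (nat_lit 942212929) (nat_lit 933300380500265674017735827)) (C.cons (nat_lit 54) (C.miq (nat_lit 410329140) (nat_lit 502914137157895323802667037)) (C.cons (nat_lit 22) (C.node (nat_lit 2) (nat_lit 4) (nat_lit 5) (C.cons (nat_lit 116) (C.node (nat_lit 2) (nat_lit 4) (nat_lit 9) C.nil) C.nil)) C.nil)))) C.nil)) C.nil))) C.nil))) (C.cons (nat_lit 26) (C.node (nat_lit 1) (nat_lit 5) (nat_lit 7) (C.cons (nat_lit 674) (C.node (nat_lit 1) (nat_lit 5) (nat_lit 11) (C.cons (nat_lit 2090) (C.miq (nat_lit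 588843863) (nat_lit 632280102393011104185977057)) (C.cons (nat_lit 2082) (C.node (nat_lit 1) (nat_lit 7) (nat_lit 11)
  (C.cons (nat_lit 2186) (C.miq (nat_lit 1125714805) (nat_lit 632278552866509324900501729)) (C.cons (nat_lit 2178) (C.node (nat_lit 1) (nat_lit 2) (nat_lit 10) C.nil) C.nil))) C.nil))) (C.cons (nat_lit 162) (C.node (nat_lit 5) (nat_lit 7) (nat_lit 9) (C.cons (nat_lit 672) (C.node (nat_lit 4) (nat_lit 6) (nat_lit 7) (C.cons (nat_lit 208) (C.node (nat_lit 4) (nat_lit 7) (nat_lit 9) C.nil) C.nil)) C.nil)) C.nil))) C.nil))) C.nil))))) C.nil)))) (C.cons (nat_lit 176) (C.node (nat_lit 4) (nat_lit 8) (nat_lit 10) (C.cons (nat_lit 1328) (C.node (nat_lit 1) (nat_lit 4) (nat_lit 8) (C.cons (nat_lit 786) (C.miq (nat_lit 413373520) (nat_lit 1561941806810496479296815665)) (C.cons (nat_lit 282) (C.miq (nat_lit 2458060609) (nat_lit 1561941806770804538979517587)) (C.cons (nat_lit 274) (C.node (nat_lit 1) (nat_lit 8) (nat_lit 10) (C.cons (nat_lit 1346) (C.node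 (nat_lit 1) (nat_lit 3) (nat_lit 10) (C.cons (nat_lit 3082) (C.miq (nat_lit 2443641778) (nat_lit 1415664033065882956360583197)) (C.cons (nat_lit 1034) (C.node (nat_lit 1) (nat_lit 10) (nat_lit 11) (C.cons (nat_lit 3074) (C.node (nat_lit 1) (nat_lit 8) (nat_lit 11) (C.cons (nat_lit 2314) (C.miq (nat_lit 1638967346) (nat_lit 2479527018699752259205268748)) (C.cons (nat_lit 2306) (C.node (nat_lit 3) (nat_lit 10) (nat_lit 11) (C.cons (nat_lit 3144) (C.miq (nat_lit 380668466) (nat_lit 2747893239856622321885054220)) (C.cons (nat_lit 3080) (C.node (nat_lit 6) (nat_lit 10) (nat_lit 11) (C.cons (nat_lit 3136) (C.node (nat_lit 1) (nat_lit 2) (nat_lit 11) C.nil) C.nil)) C.nil))) C.nil))) C.nil)) C.nil))) (C.cons (nat_lit 1282) (C.node (nat_lit 6) (nat_lit 8) (nat_lit 10) (C.cons (nat_lit 1344) (C.node (nat_lit 3) (nat_lit 4) (nat_lit 8) (C.cons (nat_lit 792) (C.node (nat_lit 5) (nat_lit 7) (nat_lit 8) (C.cons (nat_lit 930) (C.miq (nat_lit 672445808) (nat_lit 331283989120504928507463905))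 (C.cons (nat_lit 928) (C.miq (nat_lit 3046377347) (nat_lit 678245699331044669593747849)) (C.cons (nat_lit 418) (C.miq (nat_lit 672445808) (nat_lit 331283989120502729484208353)) (C.cons (nat_lit 416) (C.node (nat_lit 1) (nat_lit 2) (nat_lit 3) C.nil) C.nil))))) (C.cons (nat_lit 280) (C.node (nat_lit 4) (nat_lit 8) (nat_lit 9) C.nil) C.nil))) C.nil)) C.nil))) C.nil)))) (C.cons (nat_lit 1296) (C.node (nat_lit 5) (nat_lit 8) (nat_lit 10) (C.cons (nat_lit 1378) (C.miq (nat_lit 995631210) (nat_lit 2828910251676208790732145733)) (C.cons (nat_lit 1376) (C.miq (nat_lit 995631210) (nat_lit 2828910251676208790732014661)) (C.cons (nat_lit 1314) (C.miq (nat_lit 1264190081) (nat_lit 3752527345805752849110532359)) (C.cons (nat_lit 1312) (C.node (nat_lit 1) (nat_lit 8) (nat_lit 10) (C.cons (nat_lit 1346) (C.node (nat_lit 1) (nat_lit 3) (nat_lit 10) (C.cons (nat_lit 3082) (C.miq (nat_lit 2443641778) (nat_lit 1415664033065882956360583197)) (C.cons (nat_lit 1034) (C.node (nat_lit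 1) (nat_lit 10) (nat_lit 11) (C.cons (nat_lit 3074) (C.node (nat_lit 1) (nat_lit 8) (nat_lit 11) (C.cons (nat_lit 2314) (C.miq (nat_lit 1638967346) (nat_lit 2479527018699752259205268748)) (C.cons (nat_lit 2306) (C.node (nat_lit 3) (nat_lit 10) (nat_lit 11) (C.cons (nat_lit 3144) (C.miq (nat_lit 380668466) (nat_lit 2747893239856622321885054220)) (C.cons (nat_lit 3080) (C.node (nat_lit 1) (nat_lit 7) (nat_lit 8) (C.cons (nat_lit 930) (C.miq (nat_lit 1634904208) (nat_lit 162016222498502186964946689)) (C.cons (nat_lit 898) (C.miq (nat_lit 1634904208) (nat_lit 162016222498502049525993217)) (C.cons (nat_lit 418) (C.miq (nat_lit 1115753303) (nat_lit 317969092280591363711568097)) C.nil)))) C.nil))) C.nil))) C.nil)) C.nil))) (C.cons (nat_lit 1282) (C.node (nat_lit 6) (nat_lit 8) (nat_lit 10) (C.cons (nat_lit 1344) (C.node (nat_lit 4) (nat_lit 5) (nat_lit 10) (C.cons (nat_lit 1136) (C.node (nat_lit 2) (nat_lit 4) (nat_lit 5) (C.cons (nat_lit 54) (C.miq (nat_lit 444940466)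 (nat_lit 1586111671788197152381208605)) (C.cons (nat_lit 52) (C.node (nat_lit 1) (nat_lit 5) (nat_lit 10) (C.cons (nat_lit 1574)
  (C.miq (nat_lit 1697139216) (nat_lit 2828892634770747442770412691)) C.nil)) C.nil))) (C.cons (nat_lit 1072) (C.node (nat_lit 1) (nat_lit 2) (nat_lit 10) (C.cons (nat_lit 1030) (C.node (nat_lit 2) (nat_lit 5) (nat_lit 10) C.nil) C.nil)) C.nil))) C.nil)) C.nil))) C.nil))))) C.nil))) C.nil))) C.nil)) C.nil))) C.nil)))) (C.cons (nat_lit 148) (C.node (nat_lit 2) (nat_lit 7) (nat_lit 8) (C.cons (nat_lit 388) (C.node (nat_lit 2) (nat_lit 4) (nat_lit 8) (C.cons (nat_lit 788) (C.miq (nat_lit 1394870921) (nat_lit 2510949276262786546269425409)) (C.cons (nat_lit 276) (C.node (nat_lit 2) (nat_lit 6) (nat_lit 8) (C.cons (nat_lit 836) (C.node (nat_lit 1) (nat_lit 8) (nat_lit 10) (C.cons (nat_lit 1378) (C.miq (nat_lit 371697808) (nat_lit 236971062169653740669570817)) (C.cons (nat_lit 1346) (C.miq (nat_lit 371697808) (nat_lit 236971062160646541414829825))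 (C.cons (nat_lit 1314) (C.miq (nat_lit 1264190081) (nat_lit 3752527345805752849110532359)) (C.cons (nat_lit 1282) (C.node (nat_lit 6) (nat_lit 8) (nat_lit 10) (C.cons (nat_lit 1376) (C.miq (nat_lit 995631210) (nat_lit 2828910251676208790732014661)) (C.cons (nat_lit 1344) (C.node (nat_lit 2) (nat_lit 3) (nat_lit 9) (C.cons (nat_lit 556) (C.node (nat_lit 2) (nat_lit 4) (nat_lit 9) (C.cons (nat_lit 1556) (C.miq (nat_lit 1461980073) (nat_lit 178931370566196852155485953)) (C.cons (nat_lit 534) (C.miq (nat_lit 439500889) (nat_lit 1561942009833048026525729329)) (C.cons (nat_lit 532) (C.node (nat_lit 2) (nat_lit 4) (nat_lit 10) (C.cons (nat_lit 1076) (C.miq (nat_lit 338233939) (nat_lit 643158184011745090188608553)) (C.cons (nat_lit 1044) (C.node (nat_lit 1) (nat_lit 2) (nat_lit 3) (C.cons (nat_lit 78) (C.node (nat_lit 2) (nat_lit 6) (nat_lit 11) C.nil) C.nil)) C.nil))) C.nil)))) (C.cons (nat_lit 524) (C.node (nat_lit 2) (nat_lit 6) (nat_lit 11) (C.cons (nat_lit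 2118) (C.node (nat_lit 2) (nat_lit 9) (nat_lit 11) (C.cons (nat_lit 2564) (C.node (nat_lit 2) (nat_lit 3) (nat_lit 6) (C.cons (nat_lit 108) (C.miq (nat_lit 901260810) (nat_lit 2828910251121984561750279237)) C.nil)) C.nil)) (C.cons (nat_lit 2116) (C.node (nat_lit 1) (nat_lit 2) (nat_lit 11) (C.cons (nat_lit 2566) (C.node (nat_lit 2) (nat_lit 4) (nat_lit 9) (C.cons (nat_lit 1556) (C.miq (nat_lit 1461980073) (nat_lit 178931370566196852155485953)) C.nil)) C.nil)) C.nil))) C.nil))) C.nil))) C.nil))))) (C.cons (nat_lit 324) (C.node (nat_lit 2) (nat_lit 8) (nat_lit 9) (C.cons (nat_lit 772) (C.node (nat_lit 4) (nat_lit 8) (nat_lit 10) (C.cons (nat_lit 1328) (C.node (nat_lit 2) (nat_lit 4) (nat_lit 10) (C.cons (nat_lit 1556) (C.miq (nat_lit 1461980073) (nat_lit 178931370566196852155485953)) (C.cons (nat_lit 1044) (C.node (nat_lit 1) (nat_lit 2) (nat_lit 3) C.nil) C.nil))) (C.cons (nat_lit 1296) (C.node (nat_lit 5) (nat_lit 8) (nat_lit 10) (C.cons (nat_lit 1378) (C.miq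 (nat_lit 995631210) (nat_lit 2828910251676208790732145733)) (C.cons (nat_lit 1376) (C.miq (nat_lit 995631210) (nat_lit 2828910251676208790732014661)) (C.cons (nat_lit 1314) (C.miq (nat_lit 1264190081) (nat_lit 3752527345805752849110532359)) (C.cons (nat_lit 1312) (C.node (nat_lit 1) (nat_lit 8) (nat_lit 10) C.nil) C.nil))))) C.nil))) C.nil)) C.nil))) C.nil))) C.nil)) C.nil))) C.nil)))) C.nil))) C.nil))))) C.nil)))))) C.nil))) C.nil)))) (C.cons (nat_lit 1284) (C.node (nat_lit 5) (nat_lit 7) (nat_lit 10) (C.cons (nat_lit 1696) (C.miq (nat_lit 1521784608) (nat_lit 3733173280070795564263735941)) (C.cons (nat_lit 1440) (C.miq (nat_lit 1116343127) (nat_lit 1552282354107127751153551585)) (C.cons (nat_lit 1184) (C.node (nat_lit 7) (nat_lit 8) (nat_lit 10) (C.cons (nat_lit 1472) (C.miq (nat_lit 1118309238) (nat_lit 1552266969522573988241344737)) (C.cons (nat_lit 1408) (C.node (nat_lit 2) (nat_lit 4) (nat_lit 10) (C.cons (nat_lit 1556) (C.miq (nat_lit 2507817138)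 (nat_lit 1431396873715416859519748125)) (C.cons (nat_lit 1076) (C.node (nat_lit 2) (nat_lit 4) (nat_lit 7) (C.cons (nat_lit 404) (C.miq (nat_lit 891816519) (nat_lit 2828893667768428708274373779)) (C.cons (nat_lit 212)
  (C.miq (nat_lit 2317618038) (nat_lit 1300810399539252978737481953)) (C.cons (nat_lit 148) (C.node (nat_lit 2) (nat_lit 4) (nat_lit 8) (C.cons (nat_lit 788) (C.node (nat_lit 2) (nat_lit 7) (nat_lit 8) (C.cons (nat_lit 452) (C.miq (nat_lit 1418070311) (nat_lit 407449930817320420085334661)) (C.cons (nat_lit 388) (C.node (nat_lit 1) (nat_lit 2) (nat_lit 4) (C.cons (nat_lit 86) (C.node (nat_lit 1) (nat_lit 2) (nat_lit 11) (C.cons (nat_lit 2566) (C.miq (nat_lit 2959185986) (nat_lit 81045365340620126370005780)) (C.cons (nat_lit 2054) (C.node (nat_lit 4) (nat_lit 6) (nat_lit 11) (C.cons (nat_lit 2640) (C.miq (nat_lit 280373396) (nat_lit 2747889974478086869145879316)) (C.cons (nat_lit 2128) (C.node (nat_lit 1) (nat_lit 2) (nat_lit 10) (C.cons (nat_lit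 1542) (C.miq (nat_lit 1754415265) (nat_lit 952635132371191692911838355)) (C.cons (nat_lit 1038) (C.miq (nat_lit 2485192099) (nat_lit 103977268291920742507742249)) (C.cons (nat_lit 1030) (C.node (nat_lit 1) (nat_lit 2) (nat_lit 7) (C.cons (nat_lit 174) (C.miq (nat_lit 2182788464) (nat_lit 1245264448805707361239107809)) (C.cons (nat_lit 166) (C.miq (nat_lit 2182788464) (nat_lit 1245264448805707326879369441)) (C.cons (nat_lit 142) (C.miq (nat_lit 2591099683) (nat_lit 1415661783497040460306581533)) (C.cons (nat_lit 134) (C.node (nat_lit 2) (nat_lit 3) (nat_lit 8) (C.cons (nat_lit 332) (C.miq (nat_lit 840402496) (nat_lit 162003309492231338976280913)) (C.cons (nat_lit 268) (C.node (nat_lit 2) (nat_lit 6) (nat_lit 8) (C.cons (nat_lit 324) (C.node (nat_lit 1) (nat_lit 4) (nat_lit 5) (C.cons (nat_lit 314) (C.miq (nat_lit 1613834836) (nat_lit 632269790386098121098265652)) (C.cons (nat_lit 306) (C.miq (nat_lit 414663978) (nat_lit 2940129194526229860077274164)) (C.cons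 (nat_lit 58) (C.miq (nat_lit 1613834836) (nat_lit 632269790386098121081488436)) (C.cons (nat_lit 50) (C.node (nat_lit 6) (nat_lit 7) (nat_lit 8) (C.cons (nat_lit 962) (C.miq (nat_lit 945948436) (nat_lit 391730279553204744954971283)) (C.cons (nat_lit 960) (C.miq (nat_lit 1749776672) (nat_lit 2804749831225438589341729413)) (C.cons (nat_lit 450) (C.miq (nat_lit 945948436) (nat_lit 391730279553202545931715731)) (C.cons (nat_lit 448) (C.node (nat_lit 1) (nat_lit 5) (nat_lit 10) (C.cons (nat_lit 1634) (C.miq (nat_lit 890505826) (nat_lit 60484605167950421653062725)) (C.cons (nat_lit 1570) (C.miq (nat_lit 832702804) (nat_lit 1245231908237727300674912817)) (C.cons (nat_lit 1378) (C.miq (nat_lit 622114976) (nat_lit 60484605526829917518630657)) (C.cons (nat_lit 1314) (C.miq (nat_lit 622114976) (nat_lit 60484605526829642640723713)) (C.cons (nat_lit 1122) (C.miq (nat_lit 890505826) (nat_lit 60484605167948222629807173)) (C.cons (nat_lit 1058) (C.node (nat_lit 1) (nat_lit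 2) (nat_lit 3) (C.cons (nat_lit 46) (C.node (nat_lit 1) (nat_lit 7) (nat_lit 8) (C.cons (nat_lit 930) (C.miq (nat_lit 1115753303) (nat_lit 317969092280591363745122529)) (C.cons (nat_lit 898) (C.miq (nat_lit 1368924939) (nat_lit 1085658551408019574685239325)) (C.cons (nat_lit 418) (C.miq (nat_lit 1115753303) (nat_lit 317969092280591363711568097)) C.nil)))) (C.cons (nat_lit 14) (C.node (nat_lit 1) (nat_lit 2) (nat_lit 5) (C.cons (nat_lit 550) (C.node (nat_lit 2) (nat_lit 3) (nat_lit 10) C.nil) C.nil)) C.nil))) C.nil))))))) C.nil))))) C.nil))))) C.nil)) C.nil))) C.nil))))) C.nil)))) C.nil))) C.nil))) (C.cons (nat_lit 22) (C.node (nat_lit 2) (nat_lit 4) (nat_lit 6) (C.cons (nat_lit 84) (C.node (nat_lit 2) (nat_lit 3) (nat_lit 8) (C.cons (nat_lit 332) (C.node (nat_lit 6) (nat_lit 7) (nat_lit 8) (C.cons (nat_lit 962) (C.miq (nat_lit 1749776672) (nat_lit 2804749831226001539295150725)) (C.cons (nat_lit 960) (C.miq (nat_lit 1749776672) (nat_lit 2804749831225438589341729413))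 (C.cons (nat_lit 450) (C.miq (nat_lit 371488816) (nat_lit 101571370111604330145317257)) (C.cons (nat_lit 448) (C.node (nat_lit 2) (nat_lit 6) (nat_lit 7) (C.cons (nat_lit 198) (C.node (nat_lit 2) (nat_lit 5) (nat_lit 6) (C.cons (nat_lit 612) (C.miq (nat_lit 311719504) (nat_lit 952655147049372777498872033))
  (C.cons (nat_lit 100) (C.node (nat_lit 2) (nat_lit 6) (nat_lit 9) (C.cons (nat_lit 2628) (C.miq (nat_lit 2417408626) (nat_lit 81046509038756278372273284)) (C.cons (nat_lit 580) (C.node (nat_lit 2) (nat_lit 6) (nat_lit 11) (C.cons (nat_lit 2116) (C.node (nat_lit 6) (nat_lit 8) (nat_lit 11) (C.cons (nat_lit 2370) (C.miq (nat_lit 2551319399) (nat_lit 317959389789730580239616225)) (C.cons (nat_lit 2368) (C.node (nat_lit 1) (nat_lit 2) (nat_lit 10) (C.cons (nat_lit 1542) (C.miq (nat_lit 2456527216) (nat_lit 2558157888682577716706346131)) (C.cons (nat_lit 1038) (C.miq (nat_lit 845521264) (nat_lit 120912228036073294521238675)) (C.cons (nat_lit 1030) (C.node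 (nat_lit 1) (nat_lit 2) (nat_lit 3) C.nil) C.nil)))) C.nil))) C.nil)) C.nil))) C.nil))) (C.cons (nat_lit 196) (C.node (nat_lit 1) (nat_lit 2) (nat_lit 7) (C.cons (nat_lit 174) (C.miq (nat_lit 2820737879) (nat_lit 317969092777113222613174497)) (C.cons (nat_lit 166) (C.miq (nat_lit 2820737879) (nat_lit 317969092777113222612650209)) (C.cons (nat_lit 142) (C.miq (nat_lit 2591099683) (nat_lit 1415661783497040460306581533)) (C.cons (nat_lit 134) (C.node (nat_lit 2) (nat_lit 3) (nat_lit 7) (C.cons (nat_lit 172) (C.node (nat_lit 1) (nat_lit 2) (nat_lit 3) (C.cons (nat_lit 1038) (C.miq (nat_lit 2502100129) (nat_lit 207944888778778851532473491)) (C.cons (nat_lit 14) (C.node (nat_lit 2) (nat_lit 3) (nat_lit 9) (C.cons (nat_lit 1548) (C.miq (nat_lit 3124037927) (nat_lit 1287547928420011647039177349)) (C.cons (nat_lit 524) (C.node (nat_lit 2) (nat_lit 3) (nat_lit 10) C.nil) C.nil))) C.nil))) (C.cons (nat_lit 140) (C.node (nat_lit 2) (nat_lit 5) (nat_lit 7) (C.cons (nat_lit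 164) (C.node (nat_lit 4) (nat_lit 7) (nat_lit 8) (C.cons (nat_lit 432) (C.node (nat_lit 1) (nat_lit 7) (nat_lit 8) C.nil) C.nil)) C.nil)) C.nil))) C.nil))))) C.nil))) C.nil))))) (C.cons (nat_lit 268) (C.node (nat_lit 2) (nat_lit 6) (nat_lit 8) (C.cons (nat_lit 324) (C.node (nat_lit 4) (nat_lit 7) (nat_lit 8) (C.cons (nat_lit 432) (C.node (nat_lit 1) (nat_lit 4) (nat_lit 8) (C.cons (nat_lit 282) (C.node (nat_lit 4) (nat_lit 8) (nat_lit 10) (C.cons (nat_lit 1296) (C.node (nat_lit 1) (nat_lit 4) (nat_lit 5) (C.cons (nat_lit 114) (C.miq (nat_lit 811698004) (nat_lit 81003232006638369114292656)) (C.cons (nat_lit 50) (C.node (nat_lit 3) (nat_lit 4) (nat_lit 5) (C.cons (nat_lit 120) (C.node (nat_lit 3) (nat_lit 4) (nat_lit 7) (C.cons (nat_lit 664) (C.miq (nat_lit 2474800144) (nat_lit 324004017993548757215937683)) C.nil)) C.nil)) C.nil))) C.nil)) (C.cons (nat_lit 274) (C.node (nat_lit 3) (nat_lit 4) (nat_lit 8) (C.cons (nat_lit 1304) (C.node (nat_lit 5) (nat_lit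 8) (nat_lit 10) (C.cons (nat_lit 1378) (C.miq (nat_lit 338010296) (nat_lit 1300829601848290682274582273)) (C.cons (nat_lit 1376) (C.miq (nat_lit 1749768752) (nat_lit 2804749831342534395856487465)) (C.cons (nat_lit 1314) (C.miq (nat_lit 338010296) (nat_lit 1300828421256669964863278849)) (C.cons (nat_lit 1312) (C.node (nat_lit 1) (nat_lit 2) (nat_lit 10) C.nil) C.nil))))) (C.cons (nat_lit 280) (C.node (nat_lit 4) (nat_lit 8) (nat_lit 10) (C.cons (nat_lit 1296) (C.node (nat_lit 1) (nat_lit 2) (nat_lit 10) C.nil) C.nil)) C.nil))) C.nil))) (C.cons (nat_lit 400) (C.node (nat_lit 5) (nat_lit 7) (nat_lit 8) (C.cons (nat_lit 930) (C.miq (nat_lit 1115753303) (nat_lit 317969092280591363745122529)) (C.cons (nat_lit 928) (C.miq (nat_lit 1481341216) (nat_lit 2804749831216431390086988421)) (C.cons (nat_lit 418) (C.miq (nat_lit 1115753303) (nat_lit 317969092280591363711568097)) (C.cons (nat_lit 416) (C.node (nat_lit 4) (nat_lit 5) (nat_lit 7) (C.cons (nat_lit 184) (C.node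 (nat_lit 2) (nat_lit 5) (nat_lit 7) (C.cons (nat_lit 166) (C.miq (nat_lit 2820737879) (nat_lit 317969092777113222612650209)) (C.cons (nat_lit 164) (C.node (nat_lit 4) (nat_lit 5) (nat_lit 8) (C.cons (nat_lit 306) (C.miq (nat_lit 414663978) (nat_lit 2940129194526229860077274164)) (C.cons (nat_lit 304) (C.node (nat_lit 4) (nat_lit 8) (nat_lit 10) (C.cons (nat_lit 1304)
  (C.miq (nat_lit 901269258) (nat_lit 2828910472504305544494908563)) C.nil)) C.nil))) C.nil))) (C.cons (nat_lit 176) (C.node (nat_lit 4) (nat_lit 8) (nat_lit 10) (C.cons (nat_lit 1304) (C.node (nat_lit 1) (nat_lit 4) (nat_lit 8) (C.cons (nat_lit 306) (C.miq (nat_lit 414663978) (nat_lit 2940129194526229860077274164)) (C.cons (nat_lit 274) (C.node (nat_lit 4) (nat_lit 5) (nat_lit 8) C.nil) C.nil))) (C.cons (nat_lit 1296) (C.node (nat_lit 1) (nat_lit 2) (nat_lit 10) (C.cons (nat_lit 1542) (C.node (nat_lit 2) (nat_lit 3) (nat_lit 10) (C.cons (nat_lit 1036) (C.node (nat_lit 1) (nat_lit 2) (nat_lit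 11) C.nil) C.nil)) (C.cons (nat_lit 1038) (C.miq (nat_lit 2485192099) (nat_lit 26606015836584475326546985)) (C.cons (nat_lit 1030) (C.node (nat_lit 2) (nat_lit 3) (nat_lit 10) (C.cons (nat_lit 1548) (C.node (nat_lit 2) (nat_lit 5) (nat_lit 7) (C.cons (nat_lit 174) (C.miq (nat_lit 2182788464) (nat_lit 1245264448805707361239107809)) C.nil)) C.nil)) C.nil)))) C.nil))) C.nil))) C.nil))))) C.nil))) C.nil)) C.nil))) C.nil)) C.nil))) C.nil))) (C.cons (nat_lit 276) (C.node (nat_lit 2) (nat_lit 7) (nat_lit 8) (C.cons (nat_lit 452) (C.node (nat_lit 1) (nat_lit 2) (nat_lit 7) (C.cons (nat_lit 174) (C.miq (nat_lit 2820737879) (nat_lit 317969092777113222613174497)) (C.cons (nat_lit 166) (C.miq (nat_lit 2820737879) (nat_lit 317969092777113222612650209)) (C.cons (nat_lit 142) (C.miq (nat_lit 2591099683) (nat_lit 1415661783497040460306581533)) (C.cons (nat_lit 134) (C.node (nat_lit 2) (nat_lit 3) (nat_lit 7) (C.cons (nat_lit 172) (C.node (nat_lit 2) (nat_lit 3) (nat_lit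 8) (C.cons (nat_lit 780) (C.miq (nat_lit 901261065) (nat_lit 2828900806407033220969333381)) (C.cons (nat_lit 268) (C.node (nat_lit 2) (nat_lit 8) (nat_lit 9) (C.cons (nat_lit 772) (C.node (nat_lit 2) (nat_lit 3) (nat_lit 10) (C.cons (nat_lit 1548) (C.miq (nat_lit 3124037927) (nat_lit 1287547928420011647039177349)) (C.cons (nat_lit 1038) (C.miq (nat_lit 2502100129) (nat_lit 207944888778778851532473491)) (C.cons (nat_lit 1036) (C.node (nat_lit 1) (nat_lit 2) (nat_lit 3) (C.cons (nat_lit 78) (C.node (nat_lit 2) (nat_lit 3) (nat_lit 9) (C.cons (nat_lit 524) (C.node (nat_lit 1) (nat_lit 2) (nat_lit 4) (C.cons (nat_lit 534) (C.miq (nat_lit 1385407504) (nat_lit 633496775563373556705985683)) (C.cons (nat_lit 22) (C.node (nat_lit 1) (nat_lit 2) (nat_lit 5) C.nil) C.nil))) C.nil)) (C.cons (nat_lit 14) (C.node (nat_lit 1) (nat_lit 2) (nat_lit 10) (C.cons (nat_lit 1542) (C.node (nat_lit 1) (nat_lit 2) (nat_lit 4) (C.cons (nat_lit 86) (C.miq (nat_lit 2456330560) (nat_lit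 546505324843834288832054419)) (C.cons (nat_lit 22) (C.node (nat_lit 1) (nat_lit 2) (nat_lit 5) C.nil) C.nil))) (C.cons (nat_lit 1030) (C.node (nat_lit 2) (nat_lit 9) (nat_lit 10) C.nil) C.nil))) C.nil))) C.nil)))) C.nil)) C.nil))) (C.cons (nat_lit 140) (C.node (nat_lit 2) (nat_lit 5) (nat_lit 7) (C.cons (nat_lit 164) (C.node (nat_lit 2) (nat_lit 3) (nat_lit 8) (C.cons (nat_lit 780) (C.node (nat_lit 2) (nat_lit 3) (nat_lit 10) (C.cons (nat_lit 1038) (C.miq (nat_lit 1379486224) (nat_lit 942972488225707640480269459)) (C.cons (nat_lit 1036) (C.node (nat_lit 1) (nat_lit 2) (nat_lit 10) (C.cons (nat_lit 1542) (C.miq (nat_lit 305637760) (nat_lit 169271216317396162531888897)) (C.cons (nat_lit 1030) (C.node (nat_lit 2) (nat_lit 9) (nat_lit 10) (C.cons (nat_lit 1540) (C.node (nat_lit 2) (nat_lit 3) (nat_lit 5) (C.cons (nat_lit 110) (C.miq (nat_lit 2422442834) (nat_lit 88265974373400571217316132)) (C.cons (nat_lit 108) (C.miq (nat_lit 2422442834) (nat_lit 88265974373400571217185060))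 (C.cons (nat_lit 46) (C.miq (nat_lit 2954201394) (nat_lit 42355570148792133282038540)) C.nil)))) C.nil)) C.nil))) C.nil))) (C.cons (nat_lit 268) (C.node (nat_lit 2) (nat_lit 8) (nat_lit 9) (C.cons (nat_lit 772) (C.node (nat_lit 4) (nat_lit 8) (nat_lit 10) (C.cons (nat_lit 1304) (C.node (nat_lit 5) (nat_lit 8) (nat_lit 10) (C.cons (nat_lit 1378) (C.miq (nat_lit 338010296) (nat_lit 1300829601848290682274582273)) (C.cons (nat_lit 1376)
  (C.miq (nat_lit 1749768752) (nat_lit 2804749831342534395856487465)) (C.cons (nat_lit 1314) (C.miq (nat_lit 338010296) (nat_lit 1300828421256669964863278849)) (C.cons (nat_lit 1312) (C.node (nat_lit 1) (nat_lit 8) (nat_lit 10) (C.cons (nat_lit 1346) (C.node (nat_lit 6) (nat_lit 8) (nat_lit 11) (C.cons (nat_lit 2376) (C.miq (nat_lit 1755820864) (nat_lit 1702209484135467565175736349)) C.nil)) (C.cons (nat_lit 1282) (C.node (nat_lit 6) (nat_lit 8) (nat_lit 10) (C.cons (nat_lit 1344) (C.node (nat_lit 1) (nat_lit 4) (nat_lit 8) C.nil)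 C.nil)) C.nil))) C.nil))))) (C.cons (nat_lit 1296) (C.node (nat_lit 1) (nat_lit 7) (nat_lit 8) (C.cons (nat_lit 930) (C.miq (nat_lit 1115753303) (nat_lit 317969092280591363745122529)) (C.cons (nat_lit 898) (C.node (nat_lit 1) (nat_lit 5) (nat_lit 7) (C.cons (nat_lit 170) (C.miq (nat_lit 2270859568) (nat_lit 1431439024620473320540275211)) (C.cons (nat_lit 162) (C.node (nat_lit 4) (nat_lit 7) (nat_lit 8) (C.cons (nat_lit 432) (C.node (nat_lit 1) (nat_lit 4) (nat_lit 8) (C.cons (nat_lit 282) (C.miq (nat_lit 2553442624) (nat_lit 324004018059413901885113491)) C.nil)) C.nil)) C.nil))) (C.cons (nat_lit 418) (C.miq (nat_lit 1115753303) (nat_lit 317969092280591363711568097)) (C.cons (nat_lit 386) (C.node (nat_lit 1) (nat_lit 2) (nat_lit 10) (C.cons (nat_lit 1542) (C.node (nat_lit 2) (nat_lit 3) (nat_lit 10) C.nil) (C.cons (nat_lit 1038) (C.node (nat_lit 2) (nat_lit 9) (nat_lit 10) C.nil) C.nil))) C.nil))))) C.nil))) C.nil)) C.nil))) C.nil)) C.nil))) C.nil))))) (C.cons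 (nat_lit 388) (C.node (nat_lit 4) (nat_lit 8) (nat_lit 10) (C.cons (nat_lit 1304) (C.node (nat_lit 5) (nat_lit 8) (nat_lit 10) (C.cons (nat_lit 1378) (C.miq (nat_lit 338010296) (nat_lit 1300829601848290682274582273)) (C.cons (nat_lit 1376) (C.miq (nat_lit 1749768752) (nat_lit 2804749831342534395856487465)) (C.cons (nat_lit 1314) (C.miq (nat_lit 338010296) (nat_lit 1300828421256669964863278849)) (C.cons (nat_lit 1312) (C.node (nat_lit 1) (nat_lit 8) (nat_lit 10) (C.cons (nat_lit 1346) (C.node (nat_lit 1) (nat_lit 10) (nat_lit 11) (C.cons (nat_lit 3082) (C.miq (nat_lit 2443641778) (nat_lit 1415664033065882956360583197)) (C.cons (nat_lit 3074) (C.node (nat_lit 1) (nat_lit 3) (nat_lit 10) (C.cons (nat_lit 1038) (C.miq (nat_lit 323527174) (nat_lit 1576464098387179603368150085)) (C.cons (nat_lit 1034) (C.node (nat_lit 1) (nat_lit 5) (nat_lit 10) (C.cons (nat_lit 1570) (C.miq (nat_lit 588923029) (nat_lit 1250049146762775651122545201)) (C.cons (nat_lit 1058) (C.node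 (nat_lit 6) (nat_lit 8) (nat_lit 11) (C.cons (nat_lit 2376) (C.miq (nat_lit 1755820864) (nat_lit 1702209484135467565175736349)) (C.cons (nat_lit 2368) (C.node (nat_lit 1) (nat_lit 2) (nat_lit 4) (C.cons (nat_lit 598) (C.miq (nat_lit 730218657) (nat_lit 2862747372585037987701720211)) (C.cons (nat_lit 534) (C.miq (nat_lit 707872009) (nat_lit 1250039148345733576661860913)) (C.cons (nat_lit 86) (C.miq (nat_lit 730218657) (nat_lit 2862737927852072248411292819)) (C.cons (nat_lit 22) (C.node (nat_lit 2) (nat_lit 3) (nat_lit 8) (C.cons (nat_lit 844) (C.miq (nat_lit 1949436553) (nat_lit 2510950825819125136946368257)) (C.cons (nat_lit 780) (C.miq (nat_lit 1949436553) (nat_lit 2510950825819125136942173953)) (C.cons (nat_lit 332) (C.miq (nat_lit 406103584) (nat_lit 1576460870293653502419600453)) (C.cons (nat_lit 268) (C.node (nat_lit 1) (nat_lit 2) (nat_lit 10) (C.cons (nat_lit 1542) (C.node (nat_lit 2) (nat_lit 3) (nat_lit 10) C.nil) C.nil)) C.nil))))) C.nil))))) C.nil)))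 C.nil))) C.nil))) C.nil))) (C.cons (nat_lit 1282) (C.node (nat_lit 6) (nat_lit 8) (nat_lit 10) (C.cons (nat_lit 1344) (C.node (nat_lit 4) (nat_lit 6) (nat_lit 10) (C.cons (nat_lit 1616) (C.node (nat_lit 4) (nat_lit 6) (nat_lit 7) (C.cons (nat_lit 216) (C.miq (nat_lit 3125151799) (nat_lit 1953666055027671274333143433)) (C.cons (nat_lit 208) (C.node (nat_lit 7) (nat_lit 9) (nat_lit 10) (C.cons (nat_lit 1672) (C.miq (nat_lit 2517083267) (nat_lit 2747919231395008366271595800)) (C.cons (nat_lit 1664)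
  (C.node (nat_lit 3) (nat_lit 7) (nat_lit 10) (C.cons (nat_lit 1224) (C.node (nat_lit 3) (nat_lit 10) (nat_lit 11) (C.cons (nat_lit 3082) (C.miq (nat_lit 444152608) (nat_lit 2011662212353413136146303005)) C.nil)) C.nil)) C.nil))) C.nil))) (C.cons (nat_lit 1104) (C.node (nat_lit 4) (nat_lit 9) (nat_lit 10) (C.cons (nat_lit 1552) (C.node (nat_lit 1) (nat_lit 2) (nat_lit 10) (C.cons (nat_lit 1030) (C.node (nat_lit 1) (nat_lit 4) (nat_lit 8) C.nil) C.nil)) C.nil)) C.nil))) C.nil)) C.nil))) C.nil))))) (C.cons (nat_lit 1296) (C.node (nat_lit 1) (nat_lit 10) (nat_lit 11) (C.cons (nat_lit 3146) (C.miq (nat_lit 2443641778) (nat_lit 1415664033065883231238490141)) (C.cons (nat_lit 3138) (C.node (nat_lit 3) (nat_lit 10) (nat_lit 11) (C.cons (nat_lit 3080) (C.node (nat_lit 2) (nat_lit 6) (nat_lit 11) (C.cons (nat_lit 2628) (C.miq (nat_lit 1628027506) (nat_lit 632316682585150273439992964)) (C.cons (nat_lit 2116) (C.node (nat_lit 1) (nat_lit 2) (nat_lit 7) (C.cons (nat_lit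 206) (C.miq (nat_lit 2591099683) (nat_lit 1415661783497040460310775837)) (C.cons (nat_lit 198) (C.miq (nat_lit 2606893591) (nat_lit 2558098933535641739505042579)) (C.cons (nat_lit 174) (C.miq (nat_lit 2820737879) (nat_lit 317969092777113222613174497)) (C.cons (nat_lit 166) (C.miq (nat_lit 2820737879) (nat_lit 317969092777113222612650209)) (C.cons (nat_lit 142) (C.miq (nat_lit 2591099683) (nat_lit 1415661783497040460306581533)) (C.cons (nat_lit 134) (C.node (nat_lit 1) (nat_lit 2) (nat_lit 11) (C.cons (nat_lit 2566) (C.node (nat_lit 1) (nat_lit 4) (nat_lit 11) (C.cons (nat_lit 2066) (C.node (nat_lit 1) (nat_lit 2) (nat_lit 10) (C.cons (nat_lit 1038) (C.miq (nat_lit 1108957744) (nat_lit 3102114002057435346505499689)) (C.cons (nat_lit 1030) (C.node (nat_lit 1) (nat_lit 8) (nat_lit 11) (C.cons (nat_lit 2314) (C.miq (nat_lit 924942491) (nat_lit 162038745704769309582429953)) (C.cons (nat_lit 2306) (C.node (nat_lit 1) (nat_lit 9) (nat_lit 10) (C.cons (nat_lit 1570)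 (C.miq (nat_lit 832702804) (nat_lit 1245231908237727300674912817)) (C.cons (nat_lit 1538) (C.node (nat_lit 2) (nat_lit 3) (nat_lit 10) (C.cons (nat_lit 1548) (C.node (nat_lit 1) (nat_lit 3) (nat_lit 10) C.nil) C.nil)) C.nil))) C.nil))) C.nil))) C.nil)) (C.cons (nat_lit 2054) (C.node (nat_lit 2) (nat_lit 9) (nat_lit 11) (C.cons (nat_lit 2564) (C.node (nat_lit 2) (nat_lit 5) (nat_lit 7) (C.cons (nat_lit 172) (C.node (nat_lit 2) (nat_lit 6) (nat_lit 7) C.nil) C.nil)) C.nil)) C.nil))) C.nil))))))) C.nil))) C.nil)) (C.cons (nat_lit 3082) (C.miq (nat_lit 2443641778) (nat_lit 1415664033065882956360583197)) (C.cons (nat_lit 3074) (C.node (nat_lit 3) (nat_lit 10) (nat_lit 11) (C.cons (nat_lit 3144) (C.node (nat_lit 6) (nat_lit 7) (nat_lit 10) (C.cons (nat_lit 1728) (C.miq (nat_lit 915454578) (nat_lit 697588512690046877068233860)) (C.cons (nat_lit 1216) (C.node (nat_lit 3) (nat_lit 4) (nat_lit 10) (C.cons (nat_lit 1560) (C.node (nat_lit 3) (nat_lit 7) (nat_lit 10)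 (C.cons (nat_lit 1160) (C.node (nat_lit 4) (nat_lit 6) (nat_lit 10) (C.cons (nat_lit 1104) (C.node (nat_lit 7) (nat_lit 9) (nat_lit 10) C.nil) C.nil)) C.nil)) (C.cons (nat_lit 1048) (C.node (nat_lit 3) (nat_lit 7) (nat_lit 10) (C.cons (nat_lit 1672) (C.node (nat_lit 2) (nat_lit 9) (nat_lit 10) (C.cons (nat_lit 1542) (C.miq (nat_lit 2049456400) (nat_lit 1552268002426237612093538827)) (C.cons (nat_lit 1540) (C.node (nat_lit 3) (nat_lit 8) (nat_lit 10) (C.cons (nat_lit 1290) (C.miq (nat_lit 445809520) (nat_lit 1861750614063330215843922313)) C.nil)) C.nil))) (C.cons (nat_lit 1160) (C.node (nat_lit 7) (nat_lit 9) (nat_lit 10) (C.cons (nat_lit 1664) (C.node (nat_lit 3) (nat_lit 8) (nat_lit 10) (C.cons (nat_lit 1288) (C.node (nat_lit 1) (nat_lit 3) (nat_lit 10) C.nil) C.nil)) C.nil)) C.nil))) C.nil))) C.nil))) (C.cons (nat_lit 3080) (C.node (nat_lit 6) (nat_lit 10) (nat_lit 11) (C.cons (nat_lit 3136) (C.ref (nat_lit 257) (nat_lit 198064386771216)) C.nil)) C.nil)))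 C.nil))))) C.nil))) C.nil))) C.nil))) C.nil)))) (C.cons (nat_lit 1044)
  (C.node (nat_lit 1) (nat_lit 10) (nat_lit 11) (C.cons (nat_lit 3146) (C.miq (nat_lit 2443641778) (nat_lit 1415664033065883231238490141)) (C.cons (nat_lit 3138) (C.node (nat_lit 3) (nat_lit 10) (nat_lit 11) (C.cons (nat_lit 3080) (C.node (nat_lit 2) (nat_lit 6) (nat_lit 11) (C.cons (nat_lit 2628) (C.miq (nat_lit 1628027506) (nat_lit 632316682585150273439992964)) (C.cons (nat_lit 2116) (C.node (nat_lit 1) (nat_lit 2) (nat_lit 7) (C.cons (nat_lit 206) (C.miq (nat_lit 2591099683) (nat_lit 1415661783497040460310775837)) (C.cons (nat_lit 198) (C.miq (nat_lit 2606893591) (nat_lit 2558098933535641739505042579)) (C.cons (nat_lit 174) (C.miq (nat_lit 2820737879) (nat_lit 317969092777113222613174497)) (C.cons (nat_lit 166) (C.miq (nat_lit 2820737879) (nat_lit 317969092777113222612650209)) (C.cons (nat_lit 142) (C.miq (nat_lit 2591099683) (nat_lit 1415661783497040460306581533)) (C.cons (nat_lit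 134) (C.node (nat_lit 1) (nat_lit 2) (nat_lit 11) (C.cons (nat_lit 2566) (C.node (nat_lit 1) (nat_lit 4) (nat_lit 11) (C.cons (nat_lit 2066) (C.node (nat_lit 1) (nat_lit 8) (nat_lit 11) (C.cons (nat_lit 2314) (C.miq (nat_lit 924942491) (nat_lit 162038745704769309582429953)) (C.cons (nat_lit 2306) (C.node (nat_lit 5) (nat_lit 9) (nat_lit 11) (C.cons (nat_lit 2600) (C.miq (nat_lit 897620769) (nat_lit 349389210247623371273996806)) (C.cons (nat_lit 2592) (C.node (nat_lit 7) (nat_lit 9) (nat_lit 11) (C.cons (nat_lit 2696) (C.miq (nat_lit 991459616) (nat_lit 2787790190360623402841473669)) C.nil)) C.nil))) C.nil))) C.nil)) (C.cons (nat_lit 2054) (C.node (nat_lit 2) (nat_lit 9) (nat_lit 11) (C.cons (nat_lit 2564) (C.node (nat_lit 1) (nat_lit 4) (nat_lit 11) (C.cons (nat_lit 2578) (C.node (nat_lit 4) (nat_lit 6) (nat_lit 11) (C.cons (nat_lit 2128) (C.node (nat_lit 5) (nat_lit 9) (nat_lit 11) (C.cons (nat_lit 2600) (C.miq (nat_lit 991582528) (nat_lit 3793628868464990862850589233))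 C.nil)) C.nil)) (C.cons (nat_lit 2066) (C.node (nat_lit 1) (nat_lit 8) (nat_lit 11) (C.cons (nat_lit 2314) (C.node (nat_lit 6) (nat_lit 8) (nat_lit 11) C.nil) C.nil)) C.nil))) C.nil)) C.nil))) C.nil))))))) C.nil))) C.nil)) (C.cons (nat_lit 3082) (C.miq (nat_lit 2443641778) (nat_lit 1415664033065882956360583197)) (C.cons (nat_lit 3074) (C.node (nat_lit 3) (nat_lit 10) (nat_lit 11) (C.cons (nat_lit 3144) (C.node (nat_lit 6) (nat_lit 7) (nat_lit 10) (C.cons (nat_lit 1728) (C.miq (nat_lit 915454578) (nat_lit 697588512690046877068233860)) (C.cons (nat_lit 1216) (C.node (nat_lit 3) (nat_lit 7) (nat_lit 10) (C.cons (nat_lit 1672) (C.node (nat_lit 2) (nat_lit 3) (nat_lit 10) (C.cons (nat_lit 1038) (C.node (nat_lit 3) (nat_lit 7) (nat_lit 11) (C.cons (nat_lit 2186) (C.miq (nat_lit 1729760050) (nat_lit 1415672297699805339050706973)) (C.cons (nat_lit 2184) (C.node (nat_lit 3) (nat_lit 8) (nat_lit 11) (C.cons (nat_lit 2314) (C.miq (nat_lit 1662167936) (nat_lit 1254885163936224913234792193))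 (C.cons (nat_lit 2312) (C.node (nat_lit 1) (nat_lit 3) (nat_lit 11) (C.cons (nat_lit 2090) (C.miq (nat_lit 1344386723) (nat_lit 317986044893558842441206856)) (C.cons (nat_lit 2058) (C.node (nat_lit 3) (nat_lit 5) (nat_lit 11) (C.cons (nat_lit 2600) (C.miq (nat_lit 1377024009) (nat_lit 1254912962953229303292825345)) (C.cons (nat_lit 2088) (C.node (nat_lit 3) (nat_lit 9) (nat_lit 11) C.nil) C.nil))) C.nil))) C.nil))) C.nil))) (C.cons (nat_lit 1036) (C.node (nat_lit 1) (nat_lit 3) (nat_lit 10) (C.cons (nat_lit 1290) (C.miq (nat_lit 2055377680) (nat_lit 1552272651005743104568787467)) (C.cons (nat_lit 1034) (C.node (nat_lit 3) (nat_lit 4) (nat_lit 10) (C.cons (nat_lit 1304) (C.node (nat_lit 4) (nat_lit 5) (nat_lit 10) (C.cons (nat_lit 1136) (C.miq (nat_lit 1984431523) (nat_lit 407415251420348500961395753)) C.nil)) (C.cons (nat_lit 1048) (C.node (nat_lit 3) (nat_lit 8) (nat_lit 10) (C.cons (nat_lit 1288) (C.node (nat_lit 4) (nat_lit 8) (nat_lit 10) C.nil) C.nil))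 C.nil))) C.nil))) C.nil))) (C.cons (nat_lit 1160) (C.node (nat_lit 7) (nat_lit 9) (nat_lit 10) (C.cons (nat_lit 1664)
  (C.node (nat_lit 3) (nat_lit 8) (nat_lit 11) (C.cons (nat_lit 2314) (C.node (nat_lit 6) (nat_lit 8) (nat_lit 11) (C.cons (nat_lit 2368) (C.node (nat_lit 1) (nat_lit 3) (nat_lit 10) (C.cons (nat_lit 1038) (C.miq (nat_lit 1662167936) (nat_lit 1254885163936224913234792193)) (C.cons (nat_lit 1034) (C.node (nat_lit 2) (nat_lit 3) (nat_lit 10) (C.cons (nat_lit 1548) (C.miq (nat_lit 1788326688) (nat_lit 2011694494172986463951849501)) (C.cons (nat_lit 1036) (C.node (nat_lit 3) (nat_lit 8) (nat_lit 10) (C.cons (nat_lit 1304) (C.node (nat_lit 3) (nat_lit 9) (nat_lit 10) C.nil) C.nil)) C.nil))) C.nil))) C.nil)) (C.cons (nat_lit 2312) (C.node (nat_lit 1) (nat_lit 8) (nat_lit 11) (C.cons (nat_lit 2370) (C.node (nat_lit 1) (nat_lit 2) (nat_lit 7) (C.cons (nat_lit 206) (C.miq (nat_lit 2551319399) (nat_lit 317959389789730580240140513)) (C.cons (nat_lit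 198) (C.miq (nat_lit 2551319399) (nat_lit 317959389789730580239616225)) (C.cons (nat_lit 174) (C.miq (nat_lit 2820737879) (nat_lit 317969092777113222613174497)) (C.cons (nat_lit 166) (C.miq (nat_lit 2820737879) (nat_lit 317969092777113222612650209)) (C.cons (nat_lit 142) (C.miq (nat_lit 2591099683) (nat_lit 1415661783497040460306581533)) (C.cons (nat_lit 134) (C.node (nat_lit 1) (nat_lit 2) (nat_lit 11) (C.cons (nat_lit 2566) (C.node (nat_lit 1) (nat_lit 4) (nat_lit 11) (C.cons (nat_lit 2066) (C.node (nat_lit 2) (nat_lit 6) (nat_lit 11) (C.cons (nat_lit 2116) (C.node (nat_lit 1) (nat_lit 5) (nat_lit 11) (C.cons (nat_lit 2082) (C.node (nat_lit 1) (nat_lit 3) (nat_lit 11) C.nil) C.nil)) C.nil)) C.nil)) (C.cons (nat_lit 2054) (C.node (nat_lit 1) (nat_lit 4) (nat_lit 11) (C.cons (nat_lit 2578) (C.node (nat_lit 4) (nat_lit 6) (nat_lit 11) (C.cons (nat_lit 2128) (C.node (nat_lit 1) (nat_lit 5) (nat_lit 11) (C.cons (nat_lit 2082) (C.node (nat_lit 1) (nat_lit 3)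 (nat_lit 11) C.nil) C.nil)) C.nil)) (C.cons (nat_lit 2066) (C.node (nat_lit 2) (nat_lit 6) (nat_lit 11) (C.cons (nat_lit 2628) (C.node (nat_lit 4) (nat_lit 6) (nat_lit 11) (C.cons (nat_lit 2128) (C.node (nat_lit 4) (nat_lit 9) (nat_lit 11) C.nil) C.nil)) (C.cons (nat_lit 2116) (C.node (nat_lit 2) (nat_lit 9) (nat_lit 11) C.nil) C.nil))) C.nil))) C.nil))) C.nil))))))) (C.cons (nat_lit 2306) (C.node (nat_lit 6) (nat_lit 8) (nat_lit 11) (C.cons (nat_lit 2368) (C.node (nat_lit 2) (nat_lit 3) (nat_lit 10) (C.cons (nat_lit 1548) (C.miq (nat_lit 1788326688) (nat_lit 2011694494172986463951849501)) (C.cons (nat_lit 1038) (C.node (nat_lit 2) (nat_lit 5) (nat_lit 10) C.nil) (C.cons (nat_lit 1036) (C.node (nat_lit 1) (nat_lit 3) (nat_lit 10) C.nil) C.nil)))) C.nil)) C.nil))) C.nil))) C.nil)) C.nil))) C.nil))) (C.cons (nat_lit 3080) (C.node (nat_lit 6) (nat_lit 10) (nat_lit 11) (C.cons (nat_lit 3136) (C.ref (nat_lit 258) (nat_lit 198064386771216)) C.nil)) C.nil))) C.nil)))))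 C.nil)))) C.nil))) C.nil)))) C.nil)))) List.nil)

theorem ok12_302 : okL par12 (nat_lit 303) c12_302 (nat_lit 302) = true := by decide +kernel

noncomputable def c12_303 : List C :=
  (List.cons (C.node (nat_lit 4) (nat_lit 5) (nat_lit 11) (C.cons (nat_lit 2098) (C.node (nat_lit 4) (nat_lit 8) (nat_lit 11) (C.cons (nat_lit 2320) (C.node (nat_lit 3) (nat_lit 5) (nat_lit 11) (C.cons (nat_lit 2600) (C.node (nat_lit 3) (nat_lit 7) (nat_lit 11) (C.cons (nat_lit 2186) (C.miq (nat_lit 1094256565) (nat_lit 632278552611492996126869729)) (C.cons (nat_lit 2184) (C.node (nat_lit 1) (nat_lit 7) (nat_lit 11) (C.cons (nat_lit 2690) (C.miq (nat_lit 2710767541) (nat_lit 632287849770508310404401377)) (C.cons (nat_lit 2178) (C.node (nat_lit 7) (nat_lit 9) (nat_lit 11) (C.cons (nat_lit 2688) (C.ref (nat_lit 301) (nat_lit 205163983024656)) C.nil)) C.nil))) C.nil))) (C.cons (nat_lit 2088) (C.node (nat_lit 5) (nat_lit 9) (nat_lit 11) (C.cons (nat_lit 2592) (C.node (nat_lit 4)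 (nat_lit 6) (nat_lit 11) (C.cons (nat_lit 2640) (C.node (nat_lit 2) (nat_lit 6) (nat_lit 11) (C.cons (nat_lit 2118) (C.node (nat_lit 2) (nat_lit 9) (nat_lit 11) (C.cons (nat_lit 2564) (C.node (nat_lit 1) (nat_lit 2) (nat_lit 4) (C.cons (nat_lit 534) (C.miq (nat_lit 1914374469) (nat_lit 2560546815574617787466908209)) (C.cons (nat_lit 22) (C.node (nat_lit 1) (nat_lit 10) (nat_lit 11) (C.cons (nat_lit 3082) (C.miq (nat_lit 2443641778) (nat_lit 1415664033065882956360583197)) (C.cons (nat_lit 3074) (C.node (nat_lit 1) (nat_lit 2) (nat_lit 7) (C.cons (nat_lit 174) (C.miq (nat_lit 2820737879) (nat_lit 317969092777113222613174497)) (C.cons (nat_lit 166) (C.miq (nat_lit 2820737879) (nat_lit 317969092777113222612650209)) (C.cons (nat_lit 142) (C.miq (nat_lit 2591099683) (nat_lit 1415661783497040460306581533)) (C.cons (nat_lit 134) (C.node (nat_lit 1) (nat_lit 2) (nat_lit 3) (C.cons (nat_lit 1038) (C.miq (nat_lit 833987168) (nat_lit 2536346015626110631921386565)) (C.cons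 (nat_lit 46) (C.miq (nat_lit 2605910049) (nat_lit 2524246760083651702654107911)) (C.cons (nat_lit 14) (C.node (nat_lit 1) (nat_lit 4) (nat_lit 6) (C.cons (nat_lit 90) (C.node (nat_lit 3) (nat_lit 10) (nat_lit 11) (C.cons (nat_lit 3144) (C.miq (nat_lit 1399065273) (nat_lit 108813672688526330529058561)) (C.cons (nat_lit 3080) (C.node (nat_lit 6) (nat_lit 10) (nat_lit 11) (C.cons (nat_lit 3136) (C.node (nat_lit 1) (nat_lit 8) (nat_lit 11) C.nil) C.nil)) C.nil))) (C.cons (nat_lit 82) (C.node (nat_lit 1) (nat_lit 3) (nat_lit 4) (C.cons (nat_lit 282) (C.node (nat_lit 1) (nat_lit 5) (nat_lit 7) (C.cons (nat_lit 930) (C.miq (nat_lit 1362266379) (nat_lit 16968127117511263541595905)) (C.cons (nat_lit 674) (C.miq (nat_lit 2453762229) (nat_lit 26608801318587802844268769)) (C.cons (nat_lit 418) (C.miq (nat_lit 672445808) (nat_lit 340955395677419762881857761)) (C.cons (nat_lit 170) (C.miq (nat_lit 2270245044) (nat_lit 205522591426945174239053853)) (C.cons (nat_lit 162)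 (C.miq (nat_lit 2270245044) (nat_lit 195851184870028140841404445)) C.nil)))))) (C.cons (nat_lit 26) (C.node (nat_lit 1) (nat_lit 4) (nat_lit 8) (C.cons (nat_lit 786) (C.node (nat_lit 1) (nat_lit 9) (nat_lit 11) (C.cons (nat_lit 2690) (C.miq (nat_lit 1900460416) (nat_lit 99173847414850197354778369)) (C.cons (nat_lit 2562) (C.node (nat_lit 1) (nat_lit 7) (nat_lit 11) C.nil) C.nil))) (C.cons (nat_lit 274) (C.node (nat_lit 1) (nat_lit 4) (nat_lit 9) (C.cons (nat_lit 530) (C.node (nat_lit 1) (nat_lit 8) (nat_lit 11) C.nil) C.nil)) C.nil))) C.nil))) C.nil))) C.nil)))) C.nil))))) C.nil))) C.nil))) C.nil)) (C.cons (nat_lit 2116) (C.node (nat_lit 1) (nat_lit 2) (nat_lit 11) (C.cons (nat_lit 2566) (C.node (nat_lit 1) (nat_lit 4) (nat_lit 9) (C.cons (nat_lit 786) (C.miq (nat_lit 1763199776) (nat_lit 950221911512956330857400349)) (C.cons (nat_lit 530) (C.node (nat_lit 3) (nat_lit 9) (nat_lit 11) (C.cons (nat_lit 2696) (C.miq (nat_lit 2066233616) (nat_lit 2828893668227520794781483531))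 (C.cons (nat_lit 2568) (C.node (nat_lit 7) (nat_lit 9) (nat_lit 11) (C.cons (nat_lit 2688) (C.node (nat_lit 1) (nat_lit 7) (nat_lit 11) (C.cons (nat_lit 2178) (C.node (nat_lit 3) (nat_lit 7) (nat_lit 11) C.nil) C.nil)) C.nil)) C.nil))) C.nil))) (C.cons (nat_lit 2054)
  (C.node (nat_lit 2) (nat_lit 9) (nat_lit 11) (C.cons (nat_lit 2564) (C.node (nat_lit 1) (nat_lit 9) (nat_lit 11) (C.cons (nat_lit 2690) (C.node (nat_lit 3) (nat_lit 7) (nat_lit 11) (C.cons (nat_lit 2184) (C.node (nat_lit 3) (nat_lit 9) (nat_lit 11) C.nil) C.nil)) (C.cons (nat_lit 2562) (C.node (nat_lit 1) (nat_lit 7) (nat_lit 11) (C.cons (nat_lit 2186) (C.node (nat_lit 3) (nat_lit 9) (nat_lit 11) C.nil) C.nil)) C.nil))) C.nil)) C.nil))) C.nil))) (C.cons (nat_lit 2128) (C.node (nat_lit 4) (nat_lit 9) (nat_lit 11) (C.cons (nat_lit 2576) (C.node (nat_lit 2) (nat_lit 8) (nat_lit 10) (C.cons (nat_lit 1300) (C.miq (nat_lit 1797785508) (nat_lit 2828892635090791492155081875)) (C.cons (nat_lit 1292)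 (C.node (nat_lit 5) (nat_lit 7) (nat_lit 10) (C.cons (nat_lit 1696) (C.miq (nat_lit 1521784608) (nat_lit 3733173280070795564263735941)) (C.cons (nat_lit 1440) (C.miq (nat_lit 1116343127) (nat_lit 1561953760664044784551200993)) (C.cons (nat_lit 1184) (C.node (nat_lit 7) (nat_lit 8) (nat_lit 10) (C.cons (nat_lit 1472) (C.miq (nat_lit 1118309238) (nat_lit 1561938376079491021638994145)) (C.cons (nat_lit 1408) (C.node (nat_lit 2) (nat_lit 5) (nat_lit 7) (C.cons (nat_lit 180) (C.miq (nat_lit 1250062517) (nat_lit 1561935479685657856290588897)) (C.cons (nat_lit 174) (C.miq (nat_lit 2820737879) (nat_lit 317969092777113222613174497)) (C.cons (nat_lit 172) (C.miq (nat_lit 2723906416) (nat_lit 2828957272205885795993715081)) (C.cons (nat_lit 166) (C.miq (nat_lit 2820737879) (nat_lit 317969092777113222612650209)) (C.cons (nat_lit 164) (C.node (nat_lit 2) (nat_lit 3) (nat_lit 7) (C.cons (nat_lit 206) (C.miq (nat_lit 2591099683) (nat_lit 1415661783497040460310775837)) (C.cons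 (nat_lit 204) (C.miq (nat_lit 3123054647) (nat_lit 1321397851369220164421419401)) (C.cons (nat_lit 142) (C.miq (nat_lit 2591099683) (nat_lit 1415661783497040460306581533)) (C.cons (nat_lit 140) (C.node (nat_lit 1) (nat_lit 2) (nat_lit 7) (C.cons (nat_lit 198) (C.node (nat_lit 1) (nat_lit 2) (nat_lit 3) (C.cons (nat_lit 46) (C.miq (nat_lit 2605910049) (nat_lit 2524246760083651702654107911)) (C.cons (nat_lit 14) (C.node (nat_lit 1) (nat_lit 2) (nat_lit 4) (C.cons (nat_lit 534) (C.miq (nat_lit 1698787474) (nat_lit 2536330022646613634599748229)) (C.cons (nat_lit 22) (C.node (nat_lit 2) (nat_lit 6) (nat_lit 11) (C.cons (nat_lit 2628) (C.miq (nat_lit 2417408626) (nat_lit 81046509038756278372273284)) (C.cons (nat_lit 2116) (C.node (nat_lit 1) (nat_lit 10) (nat_lit 11) (C.cons (nat_lit 3146) (C.miq (nat_lit 2443641778) (nat_lit 1415664033065883231238490141)) (C.cons (nat_lit 3138) (C.miq (nat_lit 2606893591) (nat_lit 2558098933535641739505042579)) (C.cons (nat_lit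 3082) (C.miq (nat_lit 2443641778) (nat_lit 1415664033065882956360583197)) (C.cons (nat_lit 3074) (C.node (nat_lit 1) (nat_lit 2) (nat_lit 11) (C.cons (nat_lit 2566) (C.node (nat_lit 7) (nat_lit 9) (nat_lit 11) (C.cons (nat_lit 2696) (C.miq (nat_lit 2066233616) (nat_lit 2828893668227520794781483531)) C.nil)) C.nil)) C.nil))))) C.nil))) C.nil))) C.nil))) (C.cons (nat_lit 134) (C.node (nat_lit 2) (nat_lit 6) (nat_lit 7) (C.cons (nat_lit 452) (C.miq (nat_lit 1445595011) (nat_lit 1321375567261022752099533193)) (C.cons (nat_lit 212) (C.miq (nat_lit 1218601143) (nat_lit 1561936069746718084476176609)) (C.cons (nat_lit 196) (C.node (nat_lit 2) (nat_lit 4) (nat_lit 7) (C.cons (nat_lit 404) (C.node (nat_lit 2) (nat_lit 4) (nat_lit 10) (C.cons (nat_lit 1556) (C.miq (nat_lit 1461980073) (nat_lit 488416380387541920880267009)) (C.cons (nat_lit 1076) (C.miq (nat_lit 1384359024) (nat_lit 1561951805027408204526060691)) (C.cons (nat_lit 1044) (C.node (nat_lit 2) (nat_lit 4)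 (nat_lit 5) (C.cons (nat_lit 116) (C.node (nat_lit 1) (nat_lit 2) (nat_lit 4) (C.cons (nat_lit 534) (C.miq (nat_lit 2474774644) (nat_lit 1561942009650649355389240467)) (C.cons (nat_lit 22) (C.node (nat_lit 2) (nat_lit 4) (nat_lit 9) (C.cons (nat_lit 532) (C.node (nat_lit 5) (nat_lit 6) (nat_lit 10) (C.cons (nat_lit 1634)
  (C.miq (nat_lit 605686614) (nat_lit 1415672297644635865697356001)) (C.cons (nat_lit 1632) (C.miq (nat_lit 2504762912) (nat_lit 2536397223954846787265430597)) (C.cons (nat_lit 1378) (C.miq (nat_lit 622114976) (nat_lit 2536364684097590467316879105)) (C.cons (nat_lit 1376) (C.miq (nat_lit 2236327456) (nat_lit 2536397223882789193227502661)) (C.cons (nat_lit 1122) (C.miq (nat_lit 605686614) (nat_lit 1415672297644635865663801569)) (C.cons (nat_lit 1120) (C.node (nat_lit 2) (nat_lit 6) (nat_lit 8) (C.cons (nat_lit 836) (C.node (nat_lit 2) (nat_lit 6) (nat_lit 11) C.nil) (C.cons (nat_lit 324) (C.node (nat_lit 2) (nat_lit 8) (nat_lit 9) (C.cons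 (nat_lit 772) (C.node (nat_lit 1) (nat_lit 7) (nat_lit 11) C.nil) C.nil)) C.nil))) C.nil))))))) C.nil)) C.nil))) (C.cons (nat_lit 52) (C.node (nat_lit 2) (nat_lit 6) (nat_lit 8) (C.cons (nat_lit 836) (C.node (nat_lit 2) (nat_lit 4) (nat_lit 9) (C.cons (nat_lit 534) (C.miq (nat_lit 942212929) (nat_lit 1010671632955601941198931091)) (C.cons (nat_lit 532) (C.node (nat_lit 2) (nat_lit 6) (nat_lit 11) (C.cons (nat_lit 2116) (C.node (nat_lit 1) (nat_lit 2) (nat_lit 4) C.nil) C.nil)) C.nil))) (C.cons (nat_lit 324) (C.node (nat_lit 2) (nat_lit 8) (nat_lit 9) (C.cons (nat_lit 772) (C.node (nat_lit 4) (nat_lit 5) (nat_lit 7) (C.cons (nat_lit 184) (C.node (nat_lit 3) (nat_lit 4) (nat_lit 8) (C.cons (nat_lit 792) (C.miq (nat_lit 2489025392) (nat_lit 2536397223718408098899100041)) (C.cons (nat_lit 282) (C.miq (nat_lit 2458060609) (nat_lit 1561941806770804538979517587)) (C.cons (nat_lit 280) (C.node (nat_lit 1) (nat_lit 5) (nat_lit 7) (C.cons (nat_lit 930) (C.miq (nat_lit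 406083339) (nat_lit 338537931022936227956197601)) (C.cons (nat_lit 674) (C.miq (nat_lit 2511499584) (nat_lit 2828898316237882956753732755)) (C.cons (nat_lit 418) (C.miq (nat_lit 406083339) (nat_lit 338537930878821039880341729)) (C.cons (nat_lit 162) (C.node (nat_lit 5) (nat_lit 7) (nat_lit 8) (C.cons (nat_lit 928) (C.miq (nat_lit 2504754992) (nat_lit 2536397223756688695718904201)) C.nil)) C.nil))))) C.nil)))) (C.cons (nat_lit 176) (C.node (nat_lit 4) (nat_lit 8) (nat_lit 10) (C.cons (nat_lit 1328) (C.node (nat_lit 1) (nat_lit 4) (nat_lit 8) (C.cons (nat_lit 786) (C.miq (nat_lit 893454985) (nat_lit 2536336017498419112593985281)) (C.cons (nat_lit 282) (C.miq (nat_lit 2458060609) (nat_lit 1561941806770804538979517587)) (C.cons (nat_lit 274) (C.node (nat_lit 3) (nat_lit 4) (nat_lit 5) (C.cons (nat_lit 120) (C.node (nat_lit 1) (nat_lit 3) (nat_lit 4) C.nil) C.nil)) C.nil)))) (C.cons (nat_lit 1296) (C.node (nat_lit 5) (nat_lit 8) (nat_lit 10) (C.cons (nat_lit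 1378) (C.miq (nat_lit 622114976) (nat_lit 2536364684097590467316879105)) (C.cons (nat_lit 1376) (C.miq (nat_lit 995631210) (nat_lit 2828910251676208790732014661)) (C.cons (nat_lit 1314) (C.miq (nat_lit 622114976) (nat_lit 2536364684097590192438972161)) (C.cons (nat_lit 1312) (C.node (nat_lit 2) (nat_lit 3) (nat_lit 5) (C.cons (nat_lit 620) (C.miq (nat_lit 2203820640) (nat_lit 2524307965663001168113108037)) (C.cons (nat_lit 556) (C.node (nat_lit 1) (nat_lit 2) (nat_lit 3) C.nil) (C.cons (nat_lit 110) (C.miq (nat_lit 2203820640) (nat_lit 2524307965662998977679787077)) (C.cons (nat_lit 108) (C.miq (nat_lit 2203820640) (nat_lit 2524307965662998969089852485)) (C.cons (nat_lit 46) (C.miq (nat_lit 2605910049) (nat_lit 2524246760083651702654107911)) C.nil)))))) C.nil))))) C.nil))) C.nil))) C.nil)) C.nil))) C.nil))) C.nil)))) (C.cons (nat_lit 148) (C.node (nat_lit 2) (nat_lit 7) (nat_lit 8) (C.cons (nat_lit 388) (C.node (nat_lit 2) (nat_lit 4) (nat_lit 8) (C.cons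 (nat_lit 788) (C.miq (nat_lit 1394870921) (nat_lit 2510949276262786546269425409)) (C.cons (nat_lit 276) (C.node (nat_lit 2) (nat_lit 6) (nat_lit 8) (C.cons (nat_lit 836) (C.node (nat_lit 2) (nat_lit 4) (nat_lit 9) (C.cons (nat_lit 1556) (C.miq (nat_lit 1461980073) (nat_lit 178931370566196852155485953)) (C.cons (nat_lit 534) (C.miq (nat_lit 3072413844) (nat_lit 162034761737222344402141745)) (C.cons (nat_lit 532)
  (C.node (nat_lit 2) (nat_lit 6) (nat_lit 11) (C.cons (nat_lit 2118) (C.node (nat_lit 1) (nat_lit 2) (nat_lit 4) C.nil) C.nil)) C.nil)))) (C.cons (nat_lit 324) (C.node (nat_lit 2) (nat_lit 8) (nat_lit 9) (C.cons (nat_lit 772) (C.node (nat_lit 1) (nat_lit 2) (nat_lit 11) (C.cons (nat_lit 2630) (C.node (nat_lit 1) (nat_lit 2) (nat_lit 4) C.nil) C.nil)) C.nil)) C.nil))) C.nil))) C.nil)) C.nil))) C.nil)))) C.nil))) C.nil))))) C.nil)))))) C.nil))) C.nil)))) (C.cons (nat_lit 1284) (C.node (nat_lit 5) (nat_lit 7) (nat_lit 10) (C.cons (nat_lit 1696) (C.miq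 (nat_lit 1521784608) (nat_lit 3733173280070795564263735941)) (C.cons (nat_lit 1440) (C.miq (nat_lit 1116343127) (nat_lit 1552282354107127751153551585)) (C.cons (nat_lit 1184) (C.node (nat_lit 7) (nat_lit 8) (nat_lit 10) (C.cons (nat_lit 1472) (C.miq (nat_lit 1118309238) (nat_lit 1552266969522573988241344737)) (C.cons (nat_lit 1408) (C.node (nat_lit 2) (nat_lit 4) (nat_lit 10) (C.cons (nat_lit 1556) (C.miq (nat_lit 2507817138) (nat_lit 1431396873715416859519748125)) (C.cons (nat_lit 1076) (C.node (nat_lit 2) (nat_lit 4) (nat_lit 7) (C.cons (nat_lit 404) (C.miq (nat_lit 891816519) (nat_lit 2828893667768428708274373779)) (C.cons (nat_lit 212) (C.miq (nat_lit 2317618038) (nat_lit 1300810399539252978737481953)) (C.cons (nat_lit 148) (C.node (nat_lit 2) (nat_lit 4) (nat_lit 8) (C.cons (nat_lit 788) (C.node (nat_lit 2) (nat_lit 7) (nat_lit 8) (C.cons (nat_lit 452) (C.miq (nat_lit 1418070311) (nat_lit 407449930817320420085334661)) (C.cons (nat_lit 388) (C.node (nat_lit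 1) (nat_lit 2) (nat_lit 4) (C.cons (nat_lit 86) (C.node (nat_lit 1) (nat_lit 4) (nat_lit 9) (C.cons (nat_lit 530) (C.node (nat_lit 1) (nat_lit 2) (nat_lit 11) (C.cons (nat_lit 2566) (C.miq (nat_lit 2959185986) (nat_lit 81045365340620126370005780)) (C.cons (nat_lit 2054) (C.node (nat_lit 1) (nat_lit 2) (nat_lit 10) (C.cons (nat_lit 1542) (C.miq (nat_lit 1754415265) (nat_lit 952635132371191692911838355)) (C.cons (nat_lit 1038) (C.miq (nat_lit 2485192099) (nat_lit 103977268291920742507742249)) (C.cons (nat_lit 1030) (C.node (nat_lit 1) (nat_lit 2) (nat_lit 3) (C.cons (nat_lit 174) (C.miq (nat_lit 2182788464) (nat_lit 1245264448805707361239107809)) (C.cons (nat_lit 142) (C.miq (nat_lit 2591099683) (nat_lit 1415661783497040460306581533)) (C.cons (nat_lit 46) (C.miq (nat_lit 2605910049) (nat_lit 2524246760083651702654107911)) (C.cons (nat_lit 14) (C.node (nat_lit 1) (nat_lit 2) (nat_lit 7) (C.cons (nat_lit 166) (C.miq (nat_lit 2182788464) (nat_lit 1245264448805707326879369441))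 (C.cons (nat_lit 134) (C.node (nat_lit 1) (nat_lit 2) (nat_lit 5) (C.cons (nat_lit 38) (C.node (nat_lit 1) (nat_lit 2) (nat_lit 9) C.nil) C.nil)) C.nil))) C.nil))))) C.nil)))) C.nil))) C.nil)) (C.cons (nat_lit 22) (C.node (nat_lit 2) (nat_lit 4) (nat_lit 6) (C.cons (nat_lit 84) (C.node (nat_lit 1) (nat_lit 4) (nat_lit 8) (C.cons (nat_lit 282) (C.node (nat_lit 5) (nat_lit 7) (nat_lit 8) (C.cons (nat_lit 930) (C.miq (nat_lit 2453762229) (nat_lit 26613523685070672489482465)) (C.cons (nat_lit 928) (C.miq (nat_lit 410338059) (nat_lit 1121921861950820148270139421)) (C.cons (nat_lit 432) (C.miq (nat_lit 410338059) (nat_lit 522294655421964077615876125)) (C.cons (nat_lit 418) (C.miq (nat_lit 672445808) (nat_lit 340955395677419762881857761)) (C.cons (nat_lit 416) (C.miq (nat_lit 410338059) (nat_lit 502951842308130010820577309)) C.nil)))))) (C.cons (nat_lit 274) (C.node (nat_lit 1) (nat_lit 3) (nat_lit 4) (C.cons (nat_lit 90) (C.node (nat_lit 1) (nat_lit 4) (nat_lit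 9) (C.cons (nat_lit 530) (C.node (nat_lit 4) (nat_lit 5) (nat_lit 6) C.nil) C.nil)) (C.cons (nat_lit 26) (C.node (nat_lit 1) (nat_lit 4) (nat_lit 6) (C.cons (nat_lit 594) (C.node (nat_lit 1) (nat_lit 2) (nat_lit 11) C.nil) (C.cons (nat_lit 82) (C.node (nat_lit 1) (nat_lit 4) (nat_lit 9) (C.cons (nat_lit 530) (C.node (nat_lit 4) (nat_lit 5) (nat_lit 6) C.nil) C.nil)) C.nil))) C.nil))) C.nil))) C.nil)) C.nil))) C.nil))) (C.cons (nat_lit 276) (C.node (nat_lit 2) (nat_lit 7) (nat_lit 8) (C.cons (nat_lit 452)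
  (C.node (nat_lit 1) (nat_lit 2) (nat_lit 7) (C.cons (nat_lit 174) (C.miq (nat_lit 2820737879) (nat_lit 317969092777113222613174497)) (C.cons (nat_lit 166) (C.miq (nat_lit 2820737879) (nat_lit 317969092777113222612650209)) (C.cons (nat_lit 142) (C.miq (nat_lit 2591099683) (nat_lit 1415661783497040460306581533)) (C.cons (nat_lit 134) (C.node (nat_lit 2) (nat_lit 3) (nat_lit 7) (C.cons (nat_lit 172) (C.node (nat_lit 2) (nat_lit 3) (nat_lit 8) (C.cons (nat_lit 780) (C.miq (nat_lit 2203816560) (nat_lit 2524307965518884055891903109)) (C.cons (nat_lit 268) (C.node (nat_lit 2) (nat_lit 8) (nat_lit 9) (C.cons (nat_lit 772) (C.node (nat_lit 2) (nat_lit 3) (nat_lit 10) (C.cons (nat_lit 1548) (C.miq (nat_lit 2740687472) (nat_lit 2524307965735056838005686917)) (C.cons (nat_lit 1038) (C.miq (nat_lit 2502100129) (nat_lit 207944888778778851532473491)) (C.cons (nat_lit 1036) (C.node (nat_lit 1) (nat_lit 5) (nat_lit 7) (C.cons (nat_lit 930) (C.miq (nat_lit 321228984) (nat_lit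 207952396592925101552570113)) (C.cons (nat_lit 674) (C.miq (nat_lit 2511499584) (nat_lit 2828898316237882956753732755)) (C.cons (nat_lit 418) (C.miq (nat_lit 1115753303) (nat_lit 317969092280591363711568097)) (C.cons (nat_lit 162) (C.node (nat_lit 5) (nat_lit 7) (nat_lit 9) (C.cons (nat_lit 928) (C.miq (nat_lit 2235275040) (nat_lit 2524307965560542352432235141)) (C.cons (nat_lit 672) (C.node (nat_lit 1) (nat_lit 5) (nat_lit 10) (C.cons (nat_lit 1634) (C.miq (nat_lit 605686614) (nat_lit 1415672297644635865697356001)) (C.cons (nat_lit 1570) (C.miq (nat_lit 2468679754) (nat_lit 207964202509132275582764179)) (C.cons (nat_lit 1378) (C.miq (nat_lit 622114976) (nat_lit 2536364684097590467316879105)) (C.cons (nat_lit 1314) (C.miq (nat_lit 622114976) (nat_lit 2536364684097590192438972161)) (C.cons (nat_lit 1122) (C.miq (nat_lit 605686614) (nat_lit 1415672297644635865663801569)) (C.cons (nat_lit 1058) (C.node (nat_lit 1) (nat_lit 7) (nat_lit 11) C.nil) C.nil)))))))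 C.nil))) C.nil))))) C.nil)))) C.nil)) C.nil))) (C.cons (nat_lit 140) (C.node (nat_lit 2) (nat_lit 5) (nat_lit 7) (C.cons (nat_lit 164) (C.node (nat_lit 2) (nat_lit 3) (nat_lit 8) (C.cons (nat_lit 780) (C.node (nat_lit 2) (nat_lit 3) (nat_lit 10) (C.cons (nat_lit 1038) (C.miq (nat_lit 1379486224) (nat_lit 942972488225707640480269459)) (C.cons (nat_lit 1036) (C.node (nat_lit 1) (nat_lit 2) (nat_lit 10) (C.cons (nat_lit 1542) (C.miq (nat_lit 305637760) (nat_lit 169271216317396162531888897)) (C.cons (nat_lit 1030) (C.node (nat_lit 1) (nat_lit 2) (nat_lit 11) (C.cons (nat_lit 2630) (C.miq (nat_lit 1647819136) (nat_lit 169291544935610165118963457)) C.nil)) C.nil))) C.nil))) (C.cons (nat_lit 268) (C.node (nat_lit 2) (nat_lit 8) (nat_lit 9) (C.cons (nat_lit 772) (C.node (nat_lit 4) (nat_lit 5) (nat_lit 6) (C.cons (nat_lit 120) (C.node (nat_lit 4) (nat_lit 8) (nat_lit 10) (C.cons (nat_lit 1304) (C.miq (nat_lit 2221646672) (nat_lit 2572664998450961887338234921)) (C.cons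 (nat_lit 1296) (C.node (nat_lit 3) (nat_lit 4) (nat_lit 10) (C.cons (nat_lit 1560) (C.miq (nat_lit 2490082128) (nat_lit 2572664998523019481376162857)) (C.cons (nat_lit 1048) (C.node (nat_lit 2) (nat_lit 4) (nat_lit 9) (C.cons (nat_lit 598) (C.miq (nat_lit 3072413844) (nat_lit 162034761737222344406336049)) (C.cons (nat_lit 596) (C.node (nat_lit 1) (nat_lit 2) (nat_lit 4) C.nil) (C.cons (nat_lit 534) (C.miq (nat_lit 3072413844) (nat_lit 162034761737222344402141745)) C.nil)))) C.nil))) C.nil))) (C.cons (nat_lit 112) (C.node (nat_lit 4) (nat_lit 8) (nat_lit 10) (C.cons (nat_lit 1304) (C.node (nat_lit 3) (nat_lit 4) (nat_lit 5) (C.cons (nat_lit 184) (C.miq (nat_lit 2203821168) (nat_lit 2524307965666376995227894931)) (C.cons (nat_lit 56) (C.node (nat_lit 4) (nat_lit 5) (nat_lit 7) (C.cons (nat_lit 432) (C.node (nat_lit 1) (nat_lit 3) (nat_lit 4) C.nil) C.nil)) C.nil))) (C.cons (nat_lit 1296) (C.node (nat_lit 1) (nat_lit 7) (nat_lit 8) (C.cons (nat_lit 930) (C.miq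 (nat_lit 1115753303) (nat_lit 317969092280591363745122529)) (C.cons (nat_lit 898)
  (C.node (nat_lit 5) (nat_lit 7) (nat_lit 8) (C.cons (nat_lit 432) (C.node (nat_lit 3) (nat_lit 4) (nat_lit 5) C.nil) C.nil)) (C.cons (nat_lit 418) (C.miq (nat_lit 1115753303) (nat_lit 317969092280591363711568097)) (C.cons (nat_lit 386) (C.node (nat_lit 1) (nat_lit 8) (nat_lit 11) (C.cons (nat_lit 2378) (C.node (nat_lit 1) (nat_lit 10) (nat_lit 11) C.nil) C.nil)) C.nil))))) C.nil))) C.nil))) C.nil)) C.nil))) C.nil)) C.nil))) C.nil))))) (C.cons (nat_lit 388) (C.node (nat_lit 4) (nat_lit 5) (nat_lit 6) (C.cons (nat_lit 120) (C.node (nat_lit 4) (nat_lit 8) (nat_lit 10) (C.cons (nat_lit 1304) (C.miq (nat_lit 2221646672) (nat_lit 2572664998450961887338234921)) (C.cons (nat_lit 1296) (C.node (nat_lit 3) (nat_lit 4) (nat_lit 10) (C.cons (nat_lit 1560) (C.miq (nat_lit 2490082128) (nat_lit 2572664998523019481376162857)) (C.cons (nat_lit 1048) (C.node (nat_lit 3) (nat_lit 10) (nat_lit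 11) (C.cons (nat_lit 3146) (C.miq (nat_lit 2587102053) (nat_lit 1266964608660715623671138529)) (C.cons (nat_lit 3144) (C.miq (nat_lit 2587102053) (nat_lit 1266964608660715615081203937)) (C.cons (nat_lit 3082) (C.miq (nat_lit 2443641778) (nat_lit 1415664033065882956360583197)) (C.cons (nat_lit 3080) (C.node (nat_lit 5) (nat_lit 8) (nat_lit 10) (C.cons (nat_lit 1378) (C.miq (nat_lit 622114976) (nat_lit 2536364684097590467316879105)) (C.cons (nat_lit 1376) (C.miq (nat_lit 2253104432) (nat_lit 2572664998471228085648557097)) (C.cons (nat_lit 1314) (C.miq (nat_lit 622114976) (nat_lit 2536364684097590192438972161)) (C.cons (nat_lit 1312) (C.node (nat_lit 5) (nat_lit 6) (nat_lit 10) (C.cons (nat_lit 1634) (C.miq (nat_lit 605686614) (nat_lit 1415672297644635865697356001)) (C.cons (nat_lit 1632) (C.miq (nat_lit 2521539888) (nat_lit 2572664998543285679686485033)) (C.cons (nat_lit 1122) (C.miq (nat_lit 605686614) (nat_lit 1415672297644635865663801569)) (C.cons (nat_lit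 1120) (C.node (nat_lit 1) (nat_lit 5) (nat_lit 10) C.nil) C.nil))))) C.nil))))) C.nil))))) C.nil))) C.nil))) (C.cons (nat_lit 112) (C.node (nat_lit 4) (nat_lit 8) (nat_lit 10) (C.cons (nat_lit 1304) (C.node (nat_lit 3) (nat_lit 4) (nat_lit 5) (C.cons (nat_lit 184) (C.miq (nat_lit 2203821168) (nat_lit 2524307965666376995227894931)) (C.cons (nat_lit 56) (C.node (nat_lit 5) (nat_lit 8) (nat_lit 10) (C.cons (nat_lit 1378) (C.miq (nat_lit 622114976) (nat_lit 2536364684097590467316879105)) (C.cons (nat_lit 1376) (C.miq (nat_lit 1749768752) (nat_lit 2804749831342534395856487465)) (C.cons (nat_lit 1314) (C.miq (nat_lit 622114976) (nat_lit 2536364684097590192438972161)) (C.cons (nat_lit 1312) (C.node (nat_lit 1) (nat_lit 3) (nat_lit 4) (C.cons (nat_lit 90) (C.node (nat_lit 1) (nat_lit 2) (nat_lit 4) (C.cons (nat_lit 534) (C.miq (nat_lit 460473609) (nat_lit 3873408177197151500301042225)) C.nil)) (C.cons (nat_lit 26) (C.node (nat_lit 4) (nat_lit 5) (nat_lit 7) C.nil)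 C.nil))) C.nil))))) C.nil))) (C.cons (nat_lit 1296) (C.node (nat_lit 1) (nat_lit 10) (nat_lit 11) (C.cons (nat_lit 3146) (C.miq (nat_lit 2443641778) (nat_lit 1415664033065883231238490141)) (C.cons (nat_lit 3138) (C.node (nat_lit 3) (nat_lit 10) (nat_lit 11) (C.cons (nat_lit 3080) (C.node (nat_lit 2) (nat_lit 6) (nat_lit 11) (C.cons (nat_lit 2628) (C.miq (nat_lit 1628027506) (nat_lit 632316682585150273439992964)) (C.cons (nat_lit 2116) (C.node (nat_lit 1) (nat_lit 2) (nat_lit 11) (C.cons (nat_lit 2566) (C.node (nat_lit 1) (nat_lit 7) (nat_lit 11) C.nil) C.nil)) C.nil))) C.nil)) (C.cons (nat_lit 3082) (C.miq (nat_lit 2443641778) (nat_lit 1415664033065882956360583197)) (C.cons (nat_lit 3074) (C.node (nat_lit 3) (nat_lit 10) (nat_lit 11) (C.cons (nat_lit 3144) (C.node (nat_lit 3) (nat_lit 4) (nat_lit 10) (C.cons (nat_lit 1560) (C.miq (nat_lit 878094603) (nat_lit 135457688799309583691616001)) (C.cons (nat_lit 1048) (C.node (nat_lit 3) (nat_lit 9) (nat_lit 11)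 (C.cons (nat_lit 2696) (C.miq (nat_lit 1670425458) (nat_lit 632288366834692528963652740)) (C.cons (nat_lit 2568) (C.node (nat_lit 3) (nat_lit 7) (nat_lit 11) (C.cons (nat_lit 2186)
  (C.node (nat_lit 3) (nat_lit 8) (nat_lit 11) C.nil) C.nil)) C.nil))) C.nil))) (C.cons (nat_lit 3080) (C.node (nat_lit 6) (nat_lit 10) (nat_lit 11) C.nil) C.nil))) C.nil))))) C.nil))) C.nil))) C.nil))) C.nil))) C.nil)))) (C.cons (nat_lit 1044) (C.node (nat_lit 2) (nat_lit 4) (nat_lit 5) (C.cons (nat_lit 180) (C.miq (nat_lit 2586053493) (nat_lit 1262128905382257356084349153)) (C.cons (nat_lit 116) (C.node (nat_lit 1) (nat_lit 2) (nat_lit 4) (C.cons (nat_lit 534) (C.miq (nat_lit 460473609) (nat_lit 3873408177197151500301042225)) (C.cons (nat_lit 22) (C.node (nat_lit 2) (nat_lit 4) (nat_lit 9) (C.cons (nat_lit 788) (C.miq (nat_lit 1803702420) (nat_lit 2828888558360353938204787249)) (C.cons (nat_lit 532) (C.node (nat_lit 2) (nat_lit 5) (nat_lit 7) (C.cons (nat_lit 174) (C.miq (nat_lit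 2200176470) (nat_lit 2510945144002958049162823905)) (C.cons (nat_lit 172) (C.miq (nat_lit 2200176470) (nat_lit 2510945144002958040572889313)) (C.cons (nat_lit 166) (C.miq (nat_lit 2820737879) (nat_lit 317969092777113222612650209)) (C.cons (nat_lit 164) (C.node (nat_lit 5) (nat_lit 6) (nat_lit 10) (C.cons (nat_lit 1634) (C.miq (nat_lit 605686614) (nat_lit 1415672297644635865697356001)) (C.cons (nat_lit 1632) (C.miq (nat_lit 2504762912) (nat_lit 2536397223954846787265430597)) (C.cons (nat_lit 1378) (C.miq (nat_lit 622114976) (nat_lit 2536364684097590467316879105)) (C.cons (nat_lit 1376) (C.miq (nat_lit 2236327456) (nat_lit 2536397223882789193227502661)) (C.cons (nat_lit 1122) (C.miq (nat_lit 605686614) (nat_lit 1415672297644635865663801569)) (C.cons (nat_lit 1120) (C.node (nat_lit 2) (nat_lit 4) (nat_lit 7) (C.cons (nat_lit 404) (C.node (nat_lit 4) (nat_lit 5) (nat_lit 7) (C.cons (nat_lit 184) (C.node (nat_lit 1) (nat_lit 5) (nat_lit 7) (C.cons (nat_lit 930)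 (C.miq (nat_lit 2453762229) (nat_lit 26613523685070672489482465)) (C.cons (nat_lit 674) (C.miq (nat_lit 2453762229) (nat_lit 26608801318587802844268769)) (C.cons (nat_lit 418) (C.miq (nat_lit 1115753303) (nat_lit 317969092280591363711568097)) (C.cons (nat_lit 162) (C.node (nat_lit 4) (nat_lit 5) (nat_lit 8) (C.cons (nat_lit 304) (C.node (nat_lit 4) (nat_lit 5) (nat_lit 10) C.nil) C.nil)) C.nil))))) (C.cons (nat_lit 176) (C.node (nat_lit 3) (nat_lit 4) (nat_lit 5) (C.cons (nat_lit 312) (C.node (nat_lit 4) (nat_lit 5) (nat_lit 10) C.nil) (C.cons (nat_lit 56) (C.node (nat_lit 4) (nat_lit 5) (nat_lit 8) C.nil) C.nil))) C.nil))) (C.cons (nat_lit 148) (C.node (nat_lit 2) (nat_lit 4) (nat_lit 8) (C.cons (nat_lit 276) (C.node (nat_lit 2) (nat_lit 7) (nat_lit 8) (C.cons (nat_lit 452) (C.node (nat_lit 1) (nat_lit 2) (nat_lit 7) (C.cons (nat_lit 142) (C.miq (nat_lit 2591099683) (nat_lit 1415661783497040460306581533)) (C.cons (nat_lit 134) (C.node (nat_lit 2) (nat_lit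 3) (nat_lit 7) (C.cons (nat_lit 140) (C.node (nat_lit 4) (nat_lit 5) (nat_lit 10) C.nil) C.nil)) C.nil))) (C.cons (nat_lit 388) (C.node (nat_lit 4) (nat_lit 5) (nat_lit 10) (C.cons (nat_lit 1328) (C.node (nat_lit 3) (nat_lit 4) (nat_lit 5) C.nil) (C.cons (nat_lit 1072) (C.node (nat_lit 3) (nat_lit 4) (nat_lit 5) C.nil) C.nil))) C.nil))) C.nil)) C.nil))) C.nil))))))) C.nil))))) C.nil))) C.nil))) (C.cons (nat_lit 52) (C.node (nat_lit 2) (nat_lit 4) (nat_lit 7) (C.cons (nat_lit 404) (C.node (nat_lit 4) (nat_lit 5) (nat_lit 7) (C.cons (nat_lit 184) (C.node (nat_lit 2) (nat_lit 5) (nat_lit 7) (C.cons (nat_lit 166) (C.miq (nat_lit 2820737879) (nat_lit 317969092777113222612650209)) (C.cons (nat_lit 164) (C.node (nat_lit 1) (nat_lit 5) (nat_lit 7) (C.cons (nat_lit 930) (C.miq (nat_lit 1115753303) (nat_lit 317969092280591363745122529)) (C.cons (nat_lit 674) (C.miq (nat_lit 2511499584) (nat_lit 2828898316237882956753732755)) (C.cons (nat_lit 418) (C.miq (nat_lit 1115753303)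 (nat_lit 317969092280591363711568097)) (C.cons (nat_lit 162) (C.node (nat_lit 5) (nat_lit 7) (nat_lit 8) (C.cons (nat_lit 928) (C.miq (nat_lit 2504754992) (nat_lit 2536397223756688695718904201)) (C.cons (nat_lit 416) (C.node (nat_lit 5) (nat_lit 7) (nat_lit 9) (C.cons (nat_lit 672)
  (C.node (nat_lit 4) (nat_lit 5) (nat_lit 6) C.nil) C.nil)) C.nil))) C.nil))))) C.nil))) (C.cons (nat_lit 176) (C.node (nat_lit 1) (nat_lit 10) (nat_lit 11) (C.cons (nat_lit 3146) (C.miq (nat_lit 2443641778) (nat_lit 1415664033065883231238490141)) (C.cons (nat_lit 3138) (C.node (nat_lit 3) (nat_lit 10) (nat_lit 11) (C.cons (nat_lit 3080) (C.node (nat_lit 2) (nat_lit 6) (nat_lit 11) (C.cons (nat_lit 2628) (C.miq (nat_lit 1628027506) (nat_lit 632316682585150273439992964)) (C.cons (nat_lit 2116) (C.node (nat_lit 1) (nat_lit 2) (nat_lit 11) (C.cons (nat_lit 2566) (C.node (nat_lit 1) (nat_lit 7) (nat_lit 11) C.nil) C.nil)) C.nil))) C.nil)) (C.cons (nat_lit 3082) (C.miq (nat_lit 2443641778)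 (nat_lit 1415664033065882956360583197)) (C.cons (nat_lit 3074) (C.node (nat_lit 3) (nat_lit 10) (nat_lit 11) (C.cons (nat_lit 3144) (C.node (nat_lit 3) (nat_lit 9) (nat_lit 11) (C.cons (nat_lit 2696) (C.miq (nat_lit 1670425458) (nat_lit 632288366834692528963652740)) (C.cons (nat_lit 2568) (C.node (nat_lit 3) (nat_lit 7) (nat_lit 11) (C.cons (nat_lit 2186) (C.node (nat_lit 3) (nat_lit 8) (nat_lit 11) C.nil) C.nil)) C.nil))) (C.cons (nat_lit 3080) (C.node (nat_lit 6) (nat_lit 10) (nat_lit 11) C.nil) C.nil))) C.nil))))) C.nil))) (C.cons (nat_lit 212) (C.miq (nat_lit 2317618038) (nat_lit 1262124773311584845146884321)) (C.cons (nat_lit 148) (C.node (nat_lit 2) (nat_lit 4) (nat_lit 8) (C.cons (nat_lit 788) (C.node (nat_lit 2) (nat_lit 7) (nat_lit 8) (C.cons (nat_lit 452) (C.miq (nat_lit 1418070311) (nat_lit 407449930817320420085334661)) (C.cons (nat_lit 388) (C.node (nat_lit 1) (nat_lit 2) (nat_lit 4) (C.cons (nat_lit 86) (C.node (nat_lit 1) (nat_lit 4) (nat_lit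 9) (C.cons (nat_lit 530) (C.node (nat_lit 1) (nat_lit 2) (nat_lit 11) (C.cons (nat_lit 2566) (C.miq (nat_lit 2959185986) (nat_lit 81045365340620126370005780)) (C.cons (nat_lit 2054) (C.node (nat_lit 1) (nat_lit 2) (nat_lit 7) (C.cons (nat_lit 174) (C.miq (nat_lit 2820737879) (nat_lit 317969092777113222613174497)) (C.cons (nat_lit 166) (C.miq (nat_lit 2820737879) (nat_lit 317969092777113222612650209)) (C.cons (nat_lit 142) (C.miq (nat_lit 2591099683) (nat_lit 1415661783497040460306581533)) (C.cons (nat_lit 134) (C.node (nat_lit 2) (nat_lit 3) (nat_lit 8) (C.cons (nat_lit 332) (C.miq (nat_lit 840402496) (nat_lit 162003309492231338976280913)) (C.cons (nat_lit 268) (C.node (nat_lit 2) (nat_lit 6) (nat_lit 8) C.nil) C.nil))) C.nil))))) C.nil))) C.nil)) (C.cons (nat_lit 22) (C.node (nat_lit 2) (nat_lit 4) (nat_lit 6) (C.cons (nat_lit 84) (C.node (nat_lit 1) (nat_lit 4) (nat_lit 8) (C.cons (nat_lit 282) (C.node (nat_lit 5) (nat_lit 7) (nat_lit 8) (C.cons (nat_lit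 930) (C.miq (nat_lit 2453762229) (nat_lit 26613523685070672489482465)) (C.cons (nat_lit 928) (C.miq (nat_lit 410338059) (nat_lit 1121921861950820148270139421)) (C.cons (nat_lit 432) (C.miq (nat_lit 410338059) (nat_lit 522294655421964077615876125)) (C.cons (nat_lit 418) (C.miq (nat_lit 672445808) (nat_lit 340955395677419762881857761)) (C.cons (nat_lit 416) (C.miq (nat_lit 410338059) (nat_lit 502951842308130010820577309)) C.nil)))))) (C.cons (nat_lit 274) (C.node (nat_lit 1) (nat_lit 3) (nat_lit 4) (C.cons (nat_lit 90) (C.node (nat_lit 1) (nat_lit 4) (nat_lit 9) (C.cons (nat_lit 530) (C.node (nat_lit 4) (nat_lit 5) (nat_lit 6) C.nil) C.nil)) (C.cons (nat_lit 26) (C.node (nat_lit 1) (nat_lit 4) (nat_lit 6) (C.cons (nat_lit 594) (C.node (nat_lit 4) (nat_lit 6) (nat_lit 7) C.nil) C.nil)) C.nil))) C.nil))) C.nil)) C.nil))) C.nil))) (C.cons (nat_lit 276) (C.node (nat_lit 2) (nat_lit 7) (nat_lit 8) (C.cons (nat_lit 452) (C.node (nat_lit 1) (nat_lit 2) (nat_lit 7)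 (C.cons (nat_lit 174) (C.miq (nat_lit 2820737879) (nat_lit 317969092777113222613174497)) (C.cons (nat_lit 166) (C.miq (nat_lit 2820737879) (nat_lit 317969092777113222612650209)) (C.cons (nat_lit 142) (C.miq (nat_lit 2591099683) (nat_lit 1415661783497040460306581533)) (C.cons (nat_lit 134) (C.node (nat_lit 2) (nat_lit 3) (nat_lit 7) (C.cons (nat_lit 172)
  (C.node (nat_lit 2) (nat_lit 3) (nat_lit 8) (C.cons (nat_lit 780) (C.miq (nat_lit 2203816560) (nat_lit 2524307965518884055891903109)) (C.cons (nat_lit 268) (C.node (nat_lit 2) (nat_lit 8) (nat_lit 9) (C.cons (nat_lit 772) (C.node (nat_lit 1) (nat_lit 5) (nat_lit 7) (C.cons (nat_lit 930) (C.miq (nat_lit 321228984) (nat_lit 207952396592925101552570113)) (C.cons (nat_lit 674) (C.miq (nat_lit 2511499584) (nat_lit 2828898316237882956753732755)) (C.cons (nat_lit 418) (C.miq (nat_lit 1115753303) (nat_lit 317969092280591363711568097)) (C.cons (nat_lit 162) (C.node (nat_lit 5) (nat_lit 7) (nat_lit 9) (C.cons (nat_lit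 928) (C.miq (nat_lit 2235275040) (nat_lit 2524307965560542352432235141)) (C.cons (nat_lit 672) (C.node (nat_lit 2) (nat_lit 3) (nat_lit 9) (C.cons (nat_lit 1548) (C.miq (nat_lit 2740687472) (nat_lit 2524307965735056838005686917)) (C.cons (nat_lit 588) (C.node (nat_lit 1) (nat_lit 2) (nat_lit 3) C.nil) C.nil))) C.nil))) C.nil))))) C.nil)) C.nil))) (C.cons (nat_lit 140) (C.node (nat_lit 2) (nat_lit 5) (nat_lit 7) (C.cons (nat_lit 164) (C.node (nat_lit 2) (nat_lit 3) (nat_lit 8) (C.cons (nat_lit 780) (C.node (nat_lit 2) (nat_lit 6) (nat_lit 11) (C.cons (nat_lit 2630) (C.miq (nat_lit 1647819136) (nat_lit 169291544935610165118963457)) (C.cons (nat_lit 2628) (C.miq (nat_lit 1647819136) (nat_lit 169291544935047215165542145)) (C.cons (nat_lit 2118) (C.node (nat_lit 2) (nat_lit 9) (nat_lit 11) C.nil) C.nil)))) (C.cons (nat_lit 268) (C.node (nat_lit 2) (nat_lit 8) (nat_lit 9) (C.cons (nat_lit 772) (C.node (nat_lit 2) (nat_lit 3) (nat_lit 10) C.nil) C.nil)) C.nil)))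 C.nil)) C.nil))) C.nil))))) (C.cons (nat_lit 388) (C.node (nat_lit 1) (nat_lit 10) (nat_lit 11) (C.cons (nat_lit 3146) (C.miq (nat_lit 2443641778) (nat_lit 1415664033065883231238490141)) (C.cons (nat_lit 3138) (C.node (nat_lit 3) (nat_lit 10) (nat_lit 11) (C.cons (nat_lit 3080) (C.node (nat_lit 2) (nat_lit 6) (nat_lit 11) (C.cons (nat_lit 2628) (C.miq (nat_lit 1628027506) (nat_lit 632316682585150273439992964)) (C.cons (nat_lit 2116) (C.node (nat_lit 1) (nat_lit 2) (nat_lit 11) (C.cons (nat_lit 2566) (C.node (nat_lit 1) (nat_lit 7) (nat_lit 11) C.nil) C.nil)) C.nil))) C.nil)) (C.cons (nat_lit 3082) (C.miq (nat_lit 2443641778) (nat_lit 1415664033065882956360583197)) (C.cons (nat_lit 3074) (C.node (nat_lit 3) (nat_lit 10) (nat_lit 11) (C.cons (nat_lit 3144) (C.node (nat_lit 3) (nat_lit 9) (nat_lit 11) (C.cons (nat_lit 2696) (C.miq (nat_lit 1670425458) (nat_lit 632288366834692528963652740)) (C.cons (nat_lit 2568) (C.node (nat_lit 3) (nat_lit 7) (nat_lit 11)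 (C.cons (nat_lit 2186) (C.node (nat_lit 3) (nat_lit 8) (nat_lit 11) C.nil) C.nil)) C.nil))) (C.cons (nat_lit 3080) (C.node (nat_lit 6) (nat_lit 10) (nat_lit 11) C.nil) C.nil))) C.nil))))) C.nil))) C.nil))) C.nil)))) C.nil)))) C.nil)))) C.nil))) C.nil)))) C.nil)))) C.nil)) C.nil))) C.nil)) C.nil))) C.nil)) (C.cons (nat_lit 2096) (C.node (nat_lit 4) (nat_lit 8) (nat_lit 11) (C.cons (nat_lit 2322) (C.node (nat_lit 3) (nat_lit 8) (nat_lit 11) (C.cons (nat_lit 2376) (C.node (nat_lit 3) (nat_lit 10) (nat_lit 11) (C.cons (nat_lit 3082) (C.miq (nat_lit 2443641778) (nat_lit 1415664033065882956360583197)) (C.cons (nat_lit 3080) (C.node (nat_lit 1) (nat_lit 7) (nat_lit 8) (C.cons (nat_lit 962) (C.miq (nat_lit 605490057) (nat_lit 1415664033503291805846867713)) (C.cons (nat_lit 930) (C.miq (nat_lit 605490057) (nat_lit 1415664033503291805844770561)) (C.cons (nat_lit 898) (C.miq (nat_lit 605490057) (nat_lit 1415664033503291805842673409)) (C.cons (nat_lit 450) (C.miq (nat_lit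 940881520) (nat_lit 2807164067701396515882993889)) (C.cons (nat_lit 418) (C.miq (nat_lit 672445808) (nat_lit 2807164067691263279282456801)) (C.cons (nat_lit 386) (C.node (nat_lit 1) (nat_lit 10) (nat_lit 11) (C.cons (nat_lit 3138) (C.node (nat_lit 2) (nat_lit 6) (nat_lit 11) (C.cons (nat_lit 2628) (C.miq (nat_lit 1628027506) (nat_lit 632316682585150273439992964)) (C.cons (nat_lit 2116) (C.node (nat_lit 1) (nat_lit 7) (nat_lit 11) (C.cons (nat_lit 2690)
  (C.miq (nat_lit 2456514721) (nat_lit 2558136656227669666955396243)) (C.cons (nat_lit 2186) (C.miq (nat_lit 1668397066) (nat_lit 2642769728229268909144084225)) (C.cons (nat_lit 2178) (C.node (nat_lit 1) (nat_lit 6) (nat_lit 7) (C.cons (nat_lit 706) (C.miq (nat_lit 924221611) (nat_lit 853545458222472026696847105)) (C.cons (nat_lit 206) (C.miq (nat_lit 2591099683) (nat_lit 1415661783497040460310775837)) (C.cons (nat_lit 202) (C.node (nat_lit 1) (nat_lit 2) (nat_lit 7) (C.cons (nat_lit 166) (C.miq (nat_lit 2820737879)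 (nat_lit 317969092777113222612650209)) (C.cons (nat_lit 134) (C.node (nat_lit 1) (nat_lit 3) (nat_lit 8) (C.cons (nat_lit 1290) (C.node (nat_lit 1) (nat_lit 3) (nat_lit 4) (C.cons (nat_lit 58) (C.miq (nat_lit 1518416052) (nat_lit 1559515377513815257843370013)) (C.cons (nat_lit 26) (C.node (nat_lit 2) (nat_lit 3) (nat_lit 8) (C.cons (nat_lit 780) (C.miq (nat_lit 655593640) (nat_lit 244217404204088976210530049)) (C.cons (nat_lit 268) (C.node (nat_lit 2) (nat_lit 8) (nat_lit 10) (C.cons (nat_lit 1300) (C.miq (nat_lit 1797785508) (nat_lit 2828892635090791492155081875)) (C.cons (nat_lit 1284) (C.node (nat_lit 3) (nat_lit 7) (nat_lit 10) (C.cons (nat_lit 1672) (C.miq (nat_lit 657525160) (nat_lit 244207867237405020150959873)) (C.cons (nat_lit 1160) (C.node (nat_lit 4) (nat_lit 8) (nat_lit 10) (C.cons (nat_lit 1328) (C.miq (nat_lit 2491483555) (nat_lit 2807135400950232659499025449)) (C.cons (nat_lit 1296) (C.node (nat_lit 5) (nat_lit 7) (nat_lit 10) (C.cons (nat_lit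 1696) (C.miq (nat_lit 1521784608) (nat_lit 3733173280070795564263735941)) (C.cons (nat_lit 1440) (C.miq (nat_lit 681882992) (nat_lit 1566806176766658135490496737)) (C.cons (nat_lit 1184) (C.node (nat_lit 7) (nat_lit 8) (nat_lit 10) (C.cons (nat_lit 1472) (C.miq (nat_lit 1130826634) (nat_lit 244224617284099138742390529)) (C.cons (nat_lit 1408) (C.node (nat_lit 1) (nat_lit 4) (nat_lit 5) (C.cons (nat_lit 118) (C.miq (nat_lit 2585004901) (nat_lit 1415662484473314977800128737)) (C.cons (nat_lit 114) (C.miq (nat_lit 2585004901) (nat_lit 1415662484473314977799866593)) (C.cons (nat_lit 54) (C.miq (nat_lit 1369973771) (nat_lit 1559557472699208794122553373)) (C.cons (nat_lit 50) (C.node (nat_lit 1) (nat_lit 2) (nat_lit 3) (C.cons (nat_lit 46) (C.node (nat_lit 1) (nat_lit 3) (nat_lit 11) (C.cons (nat_lit 2058) (C.node (nat_lit 1) (nat_lit 2) (nat_lit 11) C.nil) C.nil)) (C.cons (nat_lit 14) (C.node (nat_lit 1) (nat_lit 2) (nat_lit 11) (C.cons (nat_lit 2566) (C.node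 (nat_lit 1) (nat_lit 3) (nat_lit 11) C.nil) (C.cons (nat_lit 2054) (C.node (nat_lit 2) (nat_lit 9) (nat_lit 11) C.nil) C.nil))) C.nil))) C.nil))))) C.nil))) C.nil)))) C.nil))) C.nil))) C.nil))) C.nil))) C.nil))) (C.cons (nat_lit 298) (C.miq (nat_lit 2704848496) (nat_lit 360330749072415956977387745)) (C.cons (nat_lit 266) (C.miq (nat_lit 2704848496) (nat_lit 321645122844747823386790113)) C.nil)))) C.nil))) (C.cons (nat_lit 198) (C.miq (nat_lit 924221611) (nat_lit 239411141858240405946109697)) (C.cons (nat_lit 194) (C.miq (nat_lit 924221611) (nat_lit 234575438579781889247284993)) C.nil)))))) C.nil)))) C.nil))) (C.cons (nat_lit 3074) (C.node (nat_lit 6) (nat_lit 10) (nat_lit 11) (C.cons (nat_lit 3136) (C.node (nat_lit 4) (nat_lit 6) (nat_lit 11) (C.cons (nat_lit 2640) (C.node (nat_lit 2) (nat_lit 9) (nat_lit 11) (C.cons (nat_lit 2566) (C.miq (nat_lit 2516759681) (nat_lit 1321403255927178212600645906)) (C.cons (nat_lit 2564) (C.node (nat_lit 3) (nat_lit 7) (nat_lit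 11) (C.cons (nat_lit 2696) (C.miq (nat_lit 2483533443) (nat_lit 1415701867933848870477957448)) (C.cons (nat_lit 2186) (C.miq (nat_lit 943830535) (nat_lit 2807166078396500064892815585)) (C.cons (nat_lit 2184) (C.node (nat_lit 1) (nat_lit 2) (nat_lit 11) (C.cons (nat_lit 2054) (C.node (nat_lit 1) (nat_lit 6) (nat_lit 11) C.nil) C.nil)) C.nil)))) C.nil))) (C.cons (nat_lit 2128) (C.node (nat_lit 4) (nat_lit 9) (nat_lit 11) (C.cons (nat_lit 2576) (C.node (nat_lit 1) (nat_lit 3) (nat_lit 11) (C.cons (nat_lit 2186)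
  (C.miq (nat_lit 943830535) (nat_lit 2807166078396500064892815585)) (C.cons (nat_lit 2090) (C.node (nat_lit 5) (nat_lit 9) (nat_lit 11) (C.cons (nat_lit 2592) (C.node (nat_lit 1) (nat_lit 7) (nat_lit 11) C.nil) C.nil)) (C.cons (nat_lit 2058) (C.node (nat_lit 1) (nat_lit 5) (nat_lit 11) (C.cons (nat_lit 2594) (C.node (nat_lit 1) (nat_lit 7) (nat_lit 11) C.nil) C.nil)) C.nil)))) C.nil)) C.nil))) C.nil)) C.nil))) C.nil))))))) C.nil))) (C.cons (nat_lit 2312) (C.node (nat_lit 6) (nat_lit 8) (nat_lit 11) (C.cons (nat_lit 2368) (C.node (nat_lit 4) (nat_lit 6) (nat_lit 11) (C.cons (nat_lit 2640) (C.node (nat_lit 2) (nat_lit 9) (nat_lit 11) (C.cons (nat_lit 2566) (C.miq (nat_lit 2516759681) (nat_lit 1321403255927178212600645906)) (C.cons (nat_lit 2564) (C.node (nat_lit 1) (nat_lit 2) (nat_lit 11) (C.cons (nat_lit 2118) (C.node (nat_lit 1) (nat_lit 10) (nat_lit 11) (C.cons (nat_lit 3082) (C.miq (nat_lit 2443641778) (nat_lit 1415664033065882956360583197)) (C.cons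 (nat_lit 3074) (C.node (nat_lit 1) (nat_lit 2) (nat_lit 7) (C.cons (nat_lit 174) (C.miq (nat_lit 2820737879) (nat_lit 317969092777113222613174497)) (C.cons (nat_lit 166) (C.miq (nat_lit 2820737879) (nat_lit 317969092777113222612650209)) (C.cons (nat_lit 142) (C.miq (nat_lit 2591099683) (nat_lit 1415661783497040460306581533)) (C.cons (nat_lit 134) (C.node (nat_lit 1) (nat_lit 7) (nat_lit 8) (C.cons (nat_lit 962) (C.miq (nat_lit 1175632256) (nat_lit 2560543200574323757058297601)) (C.cons (nat_lit 930) (C.miq (nat_lit 1098037392) (nat_lit 162034374369390294433337089)) (C.cons (nat_lit 898) (C.miq (nat_lit 1098037392) (nat_lit 162034374369390156994383617)) (C.cons (nat_lit 450) (C.miq (nat_lit 840436583) (nat_lit 317954740713701064199768289)) (C.cons (nat_lit 418) (C.miq (nat_lit 672445808) (nat_lit 2807164067691263279282456801)) (C.cons (nat_lit 386) (C.node (nat_lit 1) (nat_lit 4) (nat_lit 9) (C.cons (nat_lit 534) (C.node (nat_lit 1) (nat_lit 6) (nat_lit 9)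 (C.cons (nat_lit 1634) (C.miq (nat_lit 558937748) (nat_lit 42350718170124134539922000)) (C.cons (nat_lit 1602) (C.miq (nat_lit 1444481828) (nat_lit 1936709512285863007776802845)) (C.cons (nat_lit 866) (C.miq (nat_lit 1175632256) (nat_lit 2560543200574323344741437185)) (C.cons (nat_lit 834) (C.miq (nat_lit 1175632256) (nat_lit 2560543200574323207302483713)) (C.cons (nat_lit 706) (C.miq (nat_lit 1444481828) (nat_lit 853511977911155267240069149)) (C.cons (nat_lit 610) (C.miq (nat_lit 558937748) (nat_lit 42350718170119736493410896)) (C.cons (nat_lit 578) (C.miq (nat_lit 1444481828) (nat_lit 698769473000482732877678621)) C.nil)))))))) (C.cons (nat_lit 530) (C.node (nat_lit 1) (nat_lit 2) (nat_lit 4) (C.cons (nat_lit 54) (C.miq (nat_lit 2874411041) (nat_lit 2533930120130728499841728775)) (C.cons (nat_lit 22) (C.node (nat_lit 3) (nat_lit 6) (nat_lit 11) (C.cons (nat_lit 3144) (C.node (nat_lit 3) (nat_lit 5) (nat_lit 11) (C.cons (nat_lit 2600) (C.miq (nat_lit 1678424403)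 (nat_lit 1415710132075194854473796136)) (C.cons (nat_lit 2090) (C.miq (nat_lit 302364323) (nat_lit 44768809617024027569228872)) C.nil))) (C.cons (nat_lit 2120) (C.node (nat_lit 3) (nat_lit 10) (nat_lit 11) (C.cons (nat_lit 3080) (C.node (nat_lit 6) (nat_lit 10) (nat_lit 11) C.nil) C.nil)) C.nil))) C.nil))) C.nil))) C.nil))))))) C.nil))))) C.nil))) (C.cons (nat_lit 2054) (C.node (nat_lit 2) (nat_lit 6) (nat_lit 11) (C.cons (nat_lit 2116) (C.node (nat_lit 1) (nat_lit 4) (nat_lit 9) (C.cons (nat_lit 534) (C.node (nat_lit 2) (nat_lit 4) (nat_lit 8) (C.cons (nat_lit 1300) (C.miq (nat_lit 1797785508) (nat_lit 2828892635090791492155081875)) (C.cons (nat_lit 404) (C.miq (nat_lit 826804519) (nat_lit 2807133002862803617880212101)) (C.cons (nat_lit 276) (C.node (nat_lit 2) (nat_lit 4) (nat_lit 7) (C.cons (nat_lit 212) (C.miq (nat_lit 2722674528) (nat_lit 333734381059471506542758113)) (C.cons (nat_lit 180) (C.miq (nat_lit 2722740048) (nat_lit 645637242520045696192678113))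 (C.cons (nat_lit 148) (C.node (nat_lit 5) (nat_lit 7) (nat_lit 10) (C.cons (nat_lit 1696)
  (C.miq (nat_lit 1411879098) (nat_lit 178952307138830512047787777)) (C.cons (nat_lit 1440) (C.miq (nat_lit 1463978507) (nat_lit 178964187089426594213465857)) (C.cons (nat_lit 1184) (C.node (nat_lit 7) (nat_lit 8) (nat_lit 10) (C.cons (nat_lit 1472) (C.miq (nat_lit 1680310458) (nat_lit 178948175005107606325038849)) (C.cons (nat_lit 1408) (C.node (nat_lit 2) (nat_lit 4) (nat_lit 6) (C.cons (nat_lit 116) (C.node (nat_lit 2) (nat_lit 4) (nat_lit 10) (C.cons (nat_lit 1044) (C.node (nat_lit 4) (nat_lit 9) (nat_lit 10) (C.cons (nat_lit 1560) (C.miq (nat_lit 895787193) (nat_lit 140264172295832583996968705)) (C.cons (nat_lit 1552) (C.node (nat_lit 2) (nat_lit 5) (nat_lit 9) (C.cons (nat_lit 1572) (C.miq (nat_lit 2303986214) (nat_lit 678213602437711944370881605)) (C.cons (nat_lit 556) (C.miq (nat_lit 1380595984) (nat_lit 1262138201616613739706122763)) (C.cons (nat_lit 548) (C.node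 (nat_lit 3) (nat_lit 10) (nat_lit 11) (C.cons (nat_lit 3144) (C.miq (nat_lit 910535568) (nat_lit 140255041742704150467120897)) (C.cons (nat_lit 3082) (C.miq (nat_lit 2443641778) (nat_lit 1415664033065882956360583197)) (C.cons (nat_lit 3080) (C.node (nat_lit 1) (nat_lit 10) (nat_lit 11) (C.cons (nat_lit 3138) (C.node (nat_lit 3) (nat_lit 6) (nat_lit 11) C.nil) C.nil)) C.nil)))) C.nil)))) C.nil))) C.nil)) (C.cons (nat_lit 84) (C.node (nat_lit 2) (nat_lit 4) (nat_lit 5) (C.cons (nat_lit 1076) (C.node (nat_lit 1) (nat_lit 2) (nat_lit 10) (C.cons (nat_lit 1038) (C.node (nat_lit 2) (nat_lit 8) (nat_lit 10) (C.cons (nat_lit 1284) (C.node (nat_lit 2) (nat_lit 9) (nat_lit 10) (C.cons (nat_lit 1540) (C.node (nat_lit 2) (nat_lit 7) (nat_lit 8) C.nil) C.nil)) C.nil)) (C.cons (nat_lit 1030) (C.miq (nat_lit 824838469) (nat_lit 1245213240132720257022558769)) C.nil))) (C.cons (nat_lit 52) (C.node (nat_lit 2) (nat_lit 4) (nat_lit 10) (C.cons (nat_lit 1044) (C.node (nat_lit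 2) (nat_lit 7) (nat_lit 8) (C.cons (nat_lit 452) (C.node (nat_lit 2) (nat_lit 8) (nat_lit 9) (C.cons (nat_lit 780) (C.miq (nat_lit 2185705744) (nat_lit 178928271092938861133890059)) C.nil)) C.nil)) C.nil)) C.nil))) C.nil))) C.nil))) C.nil)))) C.nil)))) C.nil)))) (C.cons (nat_lit 530) (C.node (nat_lit 1) (nat_lit 2) (nat_lit 4) (C.cons (nat_lit 118) (C.miq (nat_lit 2874411041) (nat_lit 2533930120130728499845923079)) (C.cons (nat_lit 86) (C.miq (nat_lit 2873493522) (nat_lit 3191584327155048944229548295)) (C.cons (nat_lit 54) (C.miq (nat_lit 2874411041) (nat_lit 2533930120130728499841728775)) (C.cons (nat_lit 22) (C.node (nat_lit 2) (nat_lit 4) (nat_lit 6) (C.cons (nat_lit 212) (C.miq (nat_lit 2334526068) (nat_lit 2558093251938467320431903891)) (C.cons (nat_lit 116) (C.node (nat_lit 2) (nat_lit 4) (nat_lit 9) (C.cons (nat_lit 1556) (C.miq (nat_lit 1917172368) (nat_lit 140277325426429034463563521)) (C.cons (nat_lit 788) (C.miq (nat_lit 2188088400) (nat_lit 2558157888470345232079192625))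 (C.cons (nat_lit 532) (C.node (nat_lit 2) (nat_lit 4) (nat_lit 10) (C.cons (nat_lit 1300) (C.miq (nat_lit 1917237888) (nat_lit 140277325426427934937255681)) (C.cons (nat_lit 1044) (C.node (nat_lit 4) (nat_lit 9) (nat_lit 10) (C.cons (nat_lit 1560) (C.miq (nat_lit 895787193) (nat_lit 140264172295832583996968705)) (C.cons (nat_lit 1552) (C.node (nat_lit 5) (nat_lit 7) (nat_lit 10) (C.cons (nat_lit 1696) (C.miq (nat_lit 1967302923) (nat_lit 140294498920693119783341825)) (C.cons (nat_lit 1440) (C.miq (nat_lit 1948623032) (nat_lit 140261958716379244548853505)) (C.cons (nat_lit 1184) (C.node (nat_lit 7) (nat_lit 8) (nat_lit 10) (C.cons (nat_lit 1472) (C.miq (nat_lit 1984079883) (nat_lit 140294498857641762927480577)) (C.cons (nat_lit 1408) (C.node (nat_lit 3) (nat_lit 10) (nat_lit 11) (C.cons (nat_lit 3144) (C.miq (nat_lit 910535568) (nat_lit 140255041742704150467120897)) (C.cons (nat_lit 3082) (C.miq (nat_lit 2443641778) (nat_lit 1415664033065882956360583197))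 (C.cons (nat_lit 3080) (C.node (nat_lit 1) (nat_lit 10) (nat_lit 11) (C.cons (nat_lit 3138)
  (C.node (nat_lit 3) (nat_lit 6) (nat_lit 11) C.nil) C.nil)) C.nil)))) C.nil))) C.nil)))) C.nil))) C.nil))) C.nil)))) (C.cons (nat_lit 84) (C.node (nat_lit 4) (nat_lit 6) (nat_lit 7) (C.cons (nat_lit 216) (C.node (nat_lit 4) (nat_lit 7) (nat_lit 9) (C.cons (nat_lit 912) (C.miq (nat_lit 949252278) (nat_lit 1102544332095897891584870625)) (C.cons (nat_lit 656) (C.node (nat_lit 3) (nat_lit 4) (nat_lit 9) (C.cons (nat_lit 1560) (C.miq (nat_lit 1447234458) (nat_lit 261147623459002363288227585)) (C.cons (nat_lit 792) (C.node (nat_lit 3) (nat_lit 4) (nat_lit 10) (C.cons (nat_lit 1048) (C.node (nat_lit 2) (nat_lit 4) (nat_lit 9) (C.cons (nat_lit 1556) (C.miq (nat_lit 1529415588) (nat_lit 3099696150755140938245604499)) (C.cons (nat_lit 532) (C.node (nat_lit 4) (nat_lit 9) (nat_lit 10) C.nil) C.nil))) C.nil)) (C.cons (nat_lit 536) (C.miq (nat_lit 2302872423) (nat_lit 647991489965018929769744609))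 C.nil)))) C.nil))) (C.cons (nat_lit 208) (C.node (nat_lit 2) (nat_lit 4) (nat_lit 5) (C.cons (nat_lit 1076) (C.node (nat_lit 2) (nat_lit 4) (nat_lit 7) (C.cons (nat_lit 404) (C.miq (nat_lit 891816519) (nat_lit 2828893667768428708274373779)) (C.cons (nat_lit 148) (C.node (nat_lit 5) (nat_lit 7) (nat_lit 10) (C.cons (nat_lit 1696) (C.miq (nat_lit 1411879098) (nat_lit 178952307138830512047787777)) (C.cons (nat_lit 1440) (C.miq (nat_lit 1948623032) (nat_lit 1300830745546423252266782465)) (C.cons (nat_lit 1184) (C.node (nat_lit 7) (nat_lit 8) (nat_lit 10) (C.cons (nat_lit 1472) (C.miq (nat_lit 660912768) (nat_lit 251494885269136110672482049)) (C.cons (nat_lit 1408) (C.node (nat_lit 2) (nat_lit 4) (nat_lit 8) (C.cons (nat_lit 788) (C.node (nat_lit 2) (nat_lit 7) (nat_lit 8) (C.cons (nat_lit 452) (C.miq (nat_lit 1418070311) (nat_lit 407449930817320420085334661)) (C.cons (nat_lit 388) (C.node (nat_lit 2) (nat_lit 8) (nat_lit 10) (C.cons (nat_lit 1292) (C.miq (nat_lit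 843425936) (nat_lit 1300823828051448547037482753)) (C.cons (nat_lit 1284) (C.node (nat_lit 2) (nat_lit 3) (nat_lit 8) (C.cons (nat_lit 332) (C.node (nat_lit 2) (nat_lit 6) (nat_lit 7) C.nil) C.nil)) C.nil))) C.nil))) (C.cons (nat_lit 276) (C.node (nat_lit 2) (nat_lit 4) (nat_lit 9) (C.cons (nat_lit 532) (C.node (nat_lit 2) (nat_lit 7) (nat_lit 8) C.nil) C.nil)) C.nil))) C.nil))) C.nil)))) C.nil))) (C.cons (nat_lit 180) (C.miq (nat_lit 2602895988) (nat_lit 2828896767602816766503552147)) (C.cons (nat_lit 52) (C.node (nat_lit 2) (nat_lit 4) (nat_lit 10) (C.cons (nat_lit 1556) (C.miq (nat_lit 1917172368) (nat_lit 62906072971092767282368257)) (C.cons (nat_lit 1300) (C.miq (nat_lit 1917237888) (nat_lit 101591699198759801346658049)) (C.cons (nat_lit 1044) (C.node (nat_lit 5) (nat_lit 7) (nat_lit 10) (C.cons (nat_lit 1696) (C.miq (nat_lit 1967302923) (nat_lit 62923246465356852602146561)) (C.cons (nat_lit 1440) (C.miq (nat_lit 1948623032) (nat_lit 62890706261042977367658241))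 (C.cons (nat_lit 1184) (C.node (nat_lit 7) (nat_lit 8) (nat_lit 10) (C.cons (nat_lit 1472) (C.miq (nat_lit 660912768) (nat_lit 251494885269136110672482049)) (C.cons (nat_lit 1408) (C.node (nat_lit 2) (nat_lit 4) (nat_lit 7) (C.cons (nat_lit 404) (C.node (nat_lit 2) (nat_lit 4) (nat_lit 9) (C.cons (nat_lit 532) (C.node (nat_lit 2) (nat_lit 8) (nat_lit 10) C.nil) C.nil)) (C.cons (nat_lit 148) (C.node (nat_lit 2) (nat_lit 4) (nat_lit 8) (C.cons (nat_lit 788) (C.node (nat_lit 2) (nat_lit 7) (nat_lit 8) C.nil) (C.cons (nat_lit 276) (C.node (nat_lit 2) (nat_lit 4) (nat_lit 9) C.nil) C.nil))) C.nil))) C.nil))) C.nil)))) C.nil)))) C.nil)))) C.nil))) C.nil)))) C.nil))))) C.nil))) C.nil)) C.nil))) C.nil))) (C.cons (nat_lit 2128) (C.node (nat_lit 4) (nat_lit 9) (nat_lit 11) (C.cons (nat_lit 2576) (C.node (nat_lit 2) (nat_lit 8) (nat_lit 10) (C.cons (nat_lit 1300) (C.miq (nat_lit 1797785508) (nat_lit 2828892635090791492155081875)) (C.cons (nat_lit 1292) (C.node (nat_lit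 5) (nat_lit 7) (nat_lit 10) (C.cons (nat_lit 1696) (C.miq (nat_lit 1521784608) (nat_lit 3733173280070795564263735941)) (C.cons (nat_lit 1440)
  (C.miq (nat_lit 1116343127) (nat_lit 1561953760664044784551200993)) (C.cons (nat_lit 1184) (C.node (nat_lit 7) (nat_lit 8) (nat_lit 10) (C.cons (nat_lit 1472) (C.miq (nat_lit 1118309238) (nat_lit 1561938376079491021638994145)) (C.cons (nat_lit 1408) (C.node (nat_lit 1) (nat_lit 8) (nat_lit 10) (C.cons (nat_lit 1378) (C.miq (nat_lit 1756537152) (nat_lit 2828906580577387324309832851)) (C.cons (nat_lit 1346) (C.miq (nat_lit 1756537152) (nat_lit 2828906580568380125055091859)) (C.cons (nat_lit 1314) (C.miq (nat_lit 1488167232) (nat_lit 2795056141101329245041132691)) (C.cons (nat_lit 1282) (C.node (nat_lit 6) (nat_lit 8) (nat_lit 10) (C.cons (nat_lit 1376) (C.miq (nat_lit 1480288800) (nat_lit 2795078424785617310919230533)) (C.cons (nat_lit 1344) (C.node (nat_lit 2) (nat_lit 5) (nat_lit 7) (C.cons (nat_lit 180) (C.miq (nat_lit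 1250062517) (nat_lit 1561935479685657856290588897)) (C.cons (nat_lit 174) (C.miq (nat_lit 2820737879) (nat_lit 317969092777113222613174497)) (C.cons (nat_lit 172) (C.miq (nat_lit 2723906416) (nat_lit 2828957272205885795993715081)) (C.cons (nat_lit 166) (C.miq (nat_lit 2820737879) (nat_lit 317969092777113222612650209)) (C.cons (nat_lit 164) (C.node (nat_lit 2) (nat_lit 3) (nat_lit 7) (C.cons (nat_lit 206) (C.miq (nat_lit 2591099683) (nat_lit 1415661783497040460310775837)) (C.cons (nat_lit 204) (C.miq (nat_lit 3123054647) (nat_lit 1321397851369220164421419401)) (C.cons (nat_lit 142) (C.miq (nat_lit 2591099683) (nat_lit 1415661783497040460306581533)) (C.cons (nat_lit 140) (C.node (nat_lit 1) (nat_lit 2) (nat_lit 7) (C.cons (nat_lit 198) (C.node (nat_lit 2) (nat_lit 6) (nat_lit 8) (C.cons (nat_lit 836) (C.miq (nat_lit 445018258) (nat_lit 1624799954347011900048671365)) (C.cons (nat_lit 324) (C.node (nat_lit 2) (nat_lit 6) (nat_lit 11) (C.cons (nat_lit 2628) (C.miq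 (nat_lit 2417408626) (nat_lit 81046509038756278372273284)) (C.cons (nat_lit 2116) (C.node (nat_lit 2) (nat_lit 8) (nat_lit 9) (C.cons (nat_lit 788) (C.miq (nat_lit 1394870921) (nat_lit 2510949276262786546269425409)) (C.cons (nat_lit 772) (C.node (nat_lit 1) (nat_lit 7) (nat_lit 8) (C.cons (nat_lit 930) (C.miq (nat_lit 1098037392) (nat_lit 239405626824726561614532353)) (C.cons (nat_lit 898) (C.miq (nat_lit 1098037392) (nat_lit 239405626824726424175578881)) (C.cons (nat_lit 418) (C.miq (nat_lit 672445808) (nat_lit 2807164067691263279282456801)) C.nil)))) C.nil))) C.nil))) C.nil))) (C.cons (nat_lit 134) (C.node (nat_lit 2) (nat_lit 6) (nat_lit 7) (C.cons (nat_lit 452) (C.miq (nat_lit 1445595011) (nat_lit 1321375567261022752099533193)) (C.cons (nat_lit 212) (C.miq (nat_lit 1218601143) (nat_lit 1561936069746718084476176609)) (C.cons (nat_lit 196) (C.node (nat_lit 2) (nat_lit 4) (nat_lit 7) (C.cons (nat_lit 404) (C.node (nat_lit 2) (nat_lit 4) (nat_lit 10) (C.cons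 (nat_lit 1556) (C.miq (nat_lit 1461980073) (nat_lit 488416380387541920880267009)) (C.cons (nat_lit 1076) (C.miq (nat_lit 1384359024) (nat_lit 1561951805027408204526060691)) (C.cons (nat_lit 1044) (C.node (nat_lit 1) (nat_lit 2) (nat_lit 4) (C.cons (nat_lit 598) (C.miq (nat_lit 1786847412) (nat_lit 1549853932206579326951491613)) (C.cons (nat_lit 534) (C.miq (nat_lit 2474774644) (nat_lit 1561942009650649355389240467)) (C.cons (nat_lit 118) (C.miq (nat_lit 1786847412) (nat_lit 1549845077769423946366715933)) (C.cons (nat_lit 86) (C.miq (nat_lit 1786847412) (nat_lit 1549844487473613587661064221)) (C.cons (nat_lit 54) (C.miq (nat_lit 1369973771) (nat_lit 1549886066142291760724903965)) (C.cons (nat_lit 22) (C.node (nat_lit 1) (nat_lit 4) (nat_lit 9) (C.cons (nat_lit 594) (C.node (nat_lit 2) (nat_lit 4) (nat_lit 9) (C.cons (nat_lit 532) (C.node (nat_lit 1) (nat_lit 3) (nat_lit 4) (C.cons (nat_lit 58) (C.miq (nat_lit 1518416052) (nat_lit 1549843970956898224445720605))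 (C.cons (nat_lit 26) (C.node (nat_lit 1) (nat_lit 4) (nat_lit 5) (C.cons (nat_lit 50) (C.node (nat_lit 2) (nat_lit 4) (nat_lit 5) (C.cons (nat_lit 52) (C.node (nat_lit 2) (nat_lit 4) (nat_lit 6) C.nil) C.nil)) C.nil)) C.nil))) C.nil))
  (C.cons (nat_lit 530) (C.node (nat_lit 2) (nat_lit 4) (nat_lit 5) (C.cons (nat_lit 116) (C.node (nat_lit 2) (nat_lit 4) (nat_lit 9) (C.cons (nat_lit 532) (C.node (nat_lit 1) (nat_lit 4) (nat_lit 5) (C.cons (nat_lit 58) (C.miq (nat_lit 1518416052) (nat_lit 1549843970956898224445720605)) (C.cons (nat_lit 50) (C.node (nat_lit 1) (nat_lit 3) (nat_lit 4) (C.cons (nat_lit 26) (C.node (nat_lit 1) (nat_lit 5) (nat_lit 11) C.nil) C.nil)) C.nil))) C.nil)) (C.cons (nat_lit 52) (C.node (nat_lit 2) (nat_lit 4) (nat_lit 6) (C.cons (nat_lit 596) (C.node (nat_lit 2) (nat_lit 6) (nat_lit 8) (C.cons (nat_lit 324) (C.node (nat_lit 2) (nat_lit 8) (nat_lit 9) C.nil) C.nil)) (C.cons (nat_lit 84) (C.node (nat_lit 2) (nat_lit 4) (nat_lit 9) (C.cons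 (nat_lit 532) (C.node (nat_lit 4) (nat_lit 5) (nat_lit 7) C.nil) C.nil)) C.nil))) C.nil))) C.nil))) C.nil))))))) C.nil)))) (C.cons (nat_lit 148) (C.node (nat_lit 2) (nat_lit 7) (nat_lit 8) (C.cons (nat_lit 388) (C.node (nat_lit 2) (nat_lit 4) (nat_lit 8) (C.cons (nat_lit 788) (C.miq (nat_lit 1394870921) (nat_lit 2510949276262786546269425409)) (C.cons (nat_lit 276) (C.node (nat_lit 2) (nat_lit 6) (nat_lit 8) (C.cons (nat_lit 836) (C.node (nat_lit 2) (nat_lit 6) (nat_lit 11) (C.cons (nat_lit 2118) (C.node (nat_lit 2) (nat_lit 9) (nat_lit 11) C.nil) C.nil)) (C.cons (nat_lit 324) (C.node (nat_lit 2) (nat_lit 8) (nat_lit 9) C.nil) C.nil))) C.nil))) C.nil)) C.nil))) C.nil)))) C.nil))) C.nil))))) C.nil)))))) C.nil))) C.nil))))) C.nil))) C.nil)))) (C.cons (nat_lit 1284) (C.node (nat_lit 5) (nat_lit 7) (nat_lit 10) (C.cons (nat_lit 1696) (C.miq (nat_lit 1521784608) (nat_lit 3733173280070795564263735941)) (C.cons (nat_lit 1440) (C.miq (nat_lit 1116343127) (nat_lit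 1552282354107127751153551585)) (C.cons (nat_lit 1184) (C.node (nat_lit 7) (nat_lit 8) (nat_lit 10) (C.cons (nat_lit 1472) (C.miq (nat_lit 1118309238) (nat_lit 1552266969522573988241344737)) (C.cons (nat_lit 1408) (C.node (nat_lit 2) (nat_lit 4) (nat_lit 10) (C.cons (nat_lit 1556) (C.miq (nat_lit 2507817138) (nat_lit 1431396873715416859519748125)) (C.cons (nat_lit 1076) (C.node (nat_lit 2) (nat_lit 4) (nat_lit 7) (C.cons (nat_lit 404) (C.miq (nat_lit 891816519) (nat_lit 2828893667768428708274373779)) (C.cons (nat_lit 212) (C.miq (nat_lit 2317618038) (nat_lit 1300810399539252978737481953)) (C.cons (nat_lit 148) (C.node (nat_lit 2) (nat_lit 4) (nat_lit 8) (C.cons (nat_lit 788) (C.node (nat_lit 1) (nat_lit 2) (nat_lit 4) (C.cons (nat_lit 86) (C.miq (nat_lit 2873493522) (nat_lit 2572614307512358806779986183)) (C.cons (nat_lit 22) (C.node (nat_lit 2) (nat_lit 4) (nat_lit 6) (C.cons (nat_lit 84) (C.node (nat_lit 2) (nat_lit 7) (nat_lit 8) (C.cons (nat_lit 452)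 (C.miq (nat_lit 1418070311) (nat_lit 407449930817320420085334661)) (C.cons (nat_lit 388) (C.node (nat_lit 7) (nat_lit 8) (nat_lit 9) (C.cons (nat_lit 962) (C.miq (nat_lit 605490057) (nat_lit 1415664033503291805846867713)) (C.cons (nat_lit 960) (C.miq (nat_lit 1749776672) (nat_lit 2807167682864667847691141765)) (C.cons (nat_lit 930) (C.miq (nat_lit 605490057) (nat_lit 1415664033503291805844770561)) (C.cons (nat_lit 928) (C.miq (nat_lit 1481341216) (nat_lit 2807167682855660648436400773)) (C.cons (nat_lit 898) (C.miq (nat_lit 605490057) (nat_lit 1415664033503291805842673409)) (C.cons (nat_lit 896) (C.node (nat_lit 1) (nat_lit 4) (nat_lit 9) (C.cons (nat_lit 594) (C.node (nat_lit 6) (nat_lit 8) (nat_lit 9) (C.cons (nat_lit 872) (C.miq (nat_lit 1747671360) (nat_lit 2828928347592961374885315121)) (C.cons (nat_lit 864) (C.miq (nat_lit 1747671360) (nat_lit 2828928347590709575071629873)) (C.cons (nat_lit 840) (C.miq (nat_lit 1938884708) (nat_lit 632289804906384645915017553))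 (C.cons (nat_lit 832) (C.node (nat_lit 1) (nat_lit 3) (nat_lit 4) (C.cons (nat_lit 58) (C.node (nat_lit 5) (nat_lit 8) (nat_lit 10) (C.cons (nat_lit 1378) (C.miq (nat_lit 605424522) (nat_lit 718122099726995793947791105)) (C.cons (nat_lit 1376) (C.miq (nat_lit 363348747) (nat_lit 1663524761145799021015664669)) (C.cons (nat_lit 1314)
  (C.miq (nat_lit 622114976) (nat_lit 70156012083746676038373121)) (C.cons (nat_lit 1312) (C.miq (nat_lit 363348747) (nat_lit 1586153508690462753834469405)) C.nil))))) (C.cons (nat_lit 26) (C.node (nat_lit 1) (nat_lit 4) (nat_lit 5) (C.cons (nat_lit 50) (C.node (nat_lit 1) (nat_lit 8) (nat_lit 9) C.nil) C.nil)) C.nil))) C.nil))))) (C.cons (nat_lit 530) (C.node (nat_lit 2) (nat_lit 3) (nat_lit 8) (C.cons (nat_lit 332) (C.node (nat_lit 6) (nat_lit 7) (nat_lit 8) (C.cons (nat_lit 450) (C.miq (nat_lit 371488816) (nat_lit 101571370111604330145317257)) (C.cons (nat_lit 448) (C.node (nat_lit 4) (nat_lit 7) (nat_lit 8) (C.cons (nat_lit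 432) (C.node (nat_lit 3) (nat_lit 4) (nat_lit 8) C.nil) C.nil)) C.nil))) (C.cons (nat_lit 268) (C.node (nat_lit 2) (nat_lit 6) (nat_lit 8) (C.cons (nat_lit 324) (C.node (nat_lit 1) (nat_lit 2) (nat_lit 11) (C.cons (nat_lit 2630) (C.node (nat_lit 1) (nat_lit 5) (nat_lit 11) C.nil) C.nil)) C.nil)) C.nil))) C.nil))) C.nil))))))) C.nil))) C.nil)) C.nil))) (C.cons (nat_lit 276) (C.node (nat_lit 2) (nat_lit 7) (nat_lit 8) (C.cons (nat_lit 452) (C.node (nat_lit 1) (nat_lit 2) (nat_lit 7) (C.cons (nat_lit 174) (C.miq (nat_lit 2820737879) (nat_lit 317969092777113222613174497)) (C.cons (nat_lit 166) (C.miq (nat_lit 2820737879) (nat_lit 317969092777113222612650209)) (C.cons (nat_lit 142) (C.miq (nat_lit 2591099683) (nat_lit 1415661783497040460306581533)) (C.cons (nat_lit 134) (C.node (nat_lit 1) (nat_lit 7) (nat_lit 8) (C.cons (nat_lit 930) (C.miq (nat_lit 1098037392) (nat_lit 162034374369390294433337089)) (C.cons (nat_lit 898) (C.miq (nat_lit 1098037392) (nat_lit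 162034374369390156994383617)) (C.cons (nat_lit 418) (C.miq (nat_lit 672445808) (nat_lit 2807164067691263279282456801)) (C.cons (nat_lit 386) (C.node (nat_lit 2) (nat_lit 3) (nat_lit 7) (C.cons (nat_lit 172) (C.node (nat_lit 2) (nat_lit 3) (nat_lit 8) (C.cons (nat_lit 780) (C.miq (nat_lit 1535340690) (nat_lit 2795039668428812449047380613)) (C.cons (nat_lit 268) (C.node (nat_lit 2) (nat_lit 8) (nat_lit 9) (C.cons (nat_lit 772) (C.node (nat_lit 3) (nat_lit 5) (nat_lit 11) (C.cons (nat_lit 2600) (C.miq (nat_lit 324143544) (nat_lit 207940092614630183549538049)) (C.cons (nat_lit 2090) (C.node (nat_lit 5) (nat_lit 9) (nat_lit 11) C.nil) C.nil))) C.nil)) C.nil))) (C.cons (nat_lit 140) (C.node (nat_lit 2) (nat_lit 5) (nat_lit 7) (C.cons (nat_lit 164) (C.node (nat_lit 2) (nat_lit 3) (nat_lit 8) (C.cons (nat_lit 780) (C.node (nat_lit 2) (nat_lit 3) (nat_lit 10) (C.cons (nat_lit 1038) (C.miq (nat_lit 1379486224) (nat_lit 942972488225707640480269459)) (C.cons (nat_lit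 1036) (C.node (nat_lit 1) (nat_lit 2) (nat_lit 10) (C.cons (nat_lit 1542) (C.miq (nat_lit 305637760) (nat_lit 169271216317396162531888897)) (C.cons (nat_lit 1030) (C.node (nat_lit 1) (nat_lit 2) (nat_lit 11) (C.cons (nat_lit 2630) (C.miq (nat_lit 1647819136) (nat_lit 169291544935610165118963457)) C.nil)) C.nil))) C.nil))) (C.cons (nat_lit 268) (C.node (nat_lit 2) (nat_lit 8) (nat_lit 9) (C.cons (nat_lit 772) (C.node (nat_lit 1) (nat_lit 5) (nat_lit 11) C.nil) C.nil)) C.nil))) C.nil)) C.nil))) C.nil))))) C.nil))))) (C.cons (nat_lit 388) (C.node (nat_lit 4) (nat_lit 8) (nat_lit 10) (C.cons (nat_lit 1304) (C.node (nat_lit 1) (nat_lit 8) (nat_lit 10) (C.cons (nat_lit 1378) (C.miq (nat_lit 338010296) (nat_lit 1300829601848290682274582273)) (C.cons (nat_lit 1346) (C.miq (nat_lit 1756537152) (nat_lit 2828906580568380125055091859)) (C.cons (nat_lit 1314) (C.miq (nat_lit 338010296) (nat_lit 1300828421256669964863278849)) (C.cons (nat_lit 1282) (C.node (nat_lit 5)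 (nat_lit 8) (nat_lit 10) (C.cons (nat_lit 1376) (C.miq (nat_lit 1749768752) (nat_lit 2807167682981763654205899817)) (C.cons (nat_lit 1312) (C.node (nat_lit 6) (nat_lit 8) (nat_lit 10) (C.cons (nat_lit 1344) (C.node (nat_lit 4) (nat_lit 5) (nat_lit 8) C.nil) C.nil)) C.nil))) C.nil))))) (C.cons (nat_lit 1296) (C.node (nat_lit 1) (nat_lit 2) (nat_lit 4) (C.cons (nat_lit 598) (C.miq (nat_lit 2873493522) (nat_lit 2572614307512358806813540615))
  (C.cons (nat_lit 534) (C.node (nat_lit 2) (nat_lit 4) (nat_lit 6) (C.cons (nat_lit 84) (C.node (nat_lit 1) (nat_lit 2) (nat_lit 10) (C.cons (nat_lit 1038) (C.node (nat_lit 2) (nat_lit 9) (nat_lit 10) (C.cons (nat_lit 1540) (C.node (nat_lit 2) (nat_lit 5) (nat_lit 7) (C.cons (nat_lit 172) (C.miq (nat_lit 2471628964) (nat_lit 207945091682267565980386451)) (C.cons (nat_lit 166) (C.miq (nat_lit 2182788464) (nat_lit 1254935855362624360277018849)) (C.cons (nat_lit 164) (C.node (nat_lit 1) (nat_lit 2) (nat_lit 11) (C.cons (nat_lit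 2054) (C.node (nat_lit 1) (nat_lit 2) (nat_lit 5) C.nil) C.nil)) C.nil)))) C.nil)) (C.cons (nat_lit 1030) (C.miq (nat_lit 824838469) (nat_lit 1245213240132720257022558769)) C.nil))) C.nil)) (C.cons (nat_lit 86) (C.miq (nat_lit 2873493522) (nat_lit 2572614307512358806779986183)) (C.cons (nat_lit 22) (C.node (nat_lit 1) (nat_lit 4) (nat_lit 9) (C.cons (nat_lit 594) (C.node (nat_lit 2) (nat_lit 4) (nat_lit 6) (C.cons (nat_lit 84) (C.node (nat_lit 2) (nat_lit 4) (nat_lit 9) (C.cons (nat_lit 532) (C.node (nat_lit 1) (nat_lit 3) (nat_lit 4) (C.cons (nat_lit 26) (C.node (nat_lit 1) (nat_lit 4) (nat_lit 5) C.nil) C.nil)) C.nil)) C.nil)) (C.cons (nat_lit 530) (C.node (nat_lit 2) (nat_lit 4) (nat_lit 6) (C.cons (nat_lit 596) (C.node (nat_lit 2) (nat_lit 6) (nat_lit 8) (C.cons (nat_lit 332) (C.node (nat_lit 3) (nat_lit 4) (nat_lit 8) C.nil) (C.cons (nat_lit 324) (C.node (nat_lit 3) (nat_lit 4) (nat_lit 8) C.nil) C.nil))) (C.cons (nat_lit 84) (C.node (nat_lit 2) (nat_lit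 4) (nat_lit 9) (C.cons (nat_lit 532) (C.node (nat_lit 1) (nat_lit 10) (nat_lit 11) (C.cons (nat_lit 3146) (C.miq (nat_lit 2443641778) (nat_lit 1415664033065883231238490141)) (C.cons (nat_lit 3138) (C.node (nat_lit 3) (nat_lit 10) (nat_lit 11) C.nil) (C.cons (nat_lit 3082) (C.miq (nat_lit 2443641778) (nat_lit 1415664033065882956360583197)) C.nil)))) C.nil)) C.nil))) C.nil))) C.nil))))) C.nil))) C.nil))) C.nil))) C.nil)))) (C.cons (nat_lit 1044) (C.node (nat_lit 1) (nat_lit 10) (nat_lit 11) (C.cons (nat_lit 3146) (C.miq (nat_lit 2443641778) (nat_lit 1415664033065883231238490141)) (C.cons (nat_lit 3138) (C.node (nat_lit 3) (nat_lit 10) (nat_lit 11) (C.cons (nat_lit 3080) (C.node (nat_lit 2) (nat_lit 6) (nat_lit 11) (C.cons (nat_lit 2628) (C.miq (nat_lit 1628027506) (nat_lit 632316682585150273439992964)) (C.cons (nat_lit 2116) (C.node (nat_lit 1) (nat_lit 2) (nat_lit 11) (C.cons (nat_lit 2566) (C.node (nat_lit 1) (nat_lit 5) (nat_lit 11) C.nil) C.nil)) C.nil)))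 C.nil)) (C.cons (nat_lit 3082) (C.miq (nat_lit 2443641778) (nat_lit 1415664033065882956360583197)) (C.cons (nat_lit 3074) (C.node (nat_lit 3) (nat_lit 10) (nat_lit 11) (C.cons (nat_lit 3144) (C.node (nat_lit 6) (nat_lit 7) (nat_lit 10) (C.cons (nat_lit 1728) (C.miq (nat_lit 915454578) (nat_lit 697588512690046877068233860)) (C.cons (nat_lit 1216) (C.node (nat_lit 3) (nat_lit 7) (nat_lit 10) (C.cons (nat_lit 1672) (C.node (nat_lit 1) (nat_lit 8) (nat_lit 10) (C.cons (nat_lit 1378) (C.miq (nat_lit 1756537152) (nat_lit 2828906580577387324309832851)) (C.cons (nat_lit 1346) (C.miq (nat_lit 1756537152) (nat_lit 2828906580568380125055091859)) (C.cons (nat_lit 1314) (C.miq (nat_lit 1488167232) (nat_lit 2795056141101329245041132691)) (C.cons (nat_lit 1290) (C.miq (nat_lit 2055377680) (nat_lit 1552272651005743104568787467)) (C.cons (nat_lit 1282) (C.node (nat_lit 1) (nat_lit 3) (nat_lit 10) (C.cons (nat_lit 1038) (C.node (nat_lit 1) (nat_lit 5) (nat_lit 10) (C.cons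 (nat_lit 1634) (C.miq (nat_lit 1135151973) (nat_lit 2021334319603722361279482081)) (C.cons (nat_lit 1570) (C.miq (nat_lit 1512345904) (nat_lit 1262128904743018381199606283)) (C.cons (nat_lit 1122) (C.miq (nat_lit 542194538) (nat_lit 42331551991493820791524424)) C.nil)))) (C.cons (nat_lit 1034) (C.node (nat_lit 2) (nat_lit 3) (nat_lit 10) C.nil) C.nil))) C.nil)))))) (C.cons (nat_lit 1160) (C.node (nat_lit 7) (nat_lit 9) (nat_lit 10) (C.cons (nat_lit 1664) (C.node (nat_lit 2) (nat_lit 3) (nat_lit 10) (C.cons (nat_lit 1548)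
  (C.miq (nat_lit 1788326688) (nat_lit 2011694494172986463951849501)) (C.cons (nat_lit 1038) (C.node (nat_lit 2) (nat_lit 5) (nat_lit 10) C.nil) (C.cons (nat_lit 1036) (C.node (nat_lit 1) (nat_lit 3) (nat_lit 10) C.nil) C.nil)))) C.nil)) C.nil))) C.nil))) (C.cons (nat_lit 3080) (C.node (nat_lit 6) (nat_lit 10) (nat_lit 11) C.nil) C.nil))) C.nil))))) C.nil)))) C.nil))) C.nil)))) C.nil)))) C.nil)) C.nil))) C.nil)) C.nil))) (C.cons (nat_lit 2320) (C.ref (nat_lit 302) (nat_lit 205163983024656)) C.nil))) C.nil))) List.nil)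

theorem ok12_303 : okL par12 (nat_lit 304) c12_303 (nat_lit 303) = true := by decide +kernel


end Pool.Agent.MP_1f1ca1_co
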