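import Pool.Agent.MP_1f1ca1_co.Cert.P12

set_option autoImplicit false
set_option maxRecDepth 1000000
set_option maxHeartbeats 0

namespace Pool.Agent.MP_1f1ca1_co

noncomputable def c12_304 : List C :=
  (List.cons (C.node (nat_lit 2) (nat_lit 7) (nat_lit 8) (C.cons (nat_lit 452) (C.node (nat_lit 2) (nat_lit 3) (nat_lit 7) (C.cons (nat_lit 174) (C.miq (nat_lit 2591099683) (nat_lit 1415661783497040460308678685)) (C.cons (nat_lit 172) (C.miq (nat_lit 732246151) (nat_lit 3752508917508429660022636937)) (C.cons (nat_lit 142) (C.miq (nat_lit 2591099683) (nat_lit 1415661783497040460306581533)) (C.cons (nat_lit 140) (C.node (nat_lit 1) (nat_lit 2) (nat_lit 7) (C.cons (nat_lit 166) (C.node (nat_lit 1) (nat_lit 7) (nat_lit 8) (C.cons (nat_lit 898) (C.miq (nat_lit 896600713) (nat_lit 200691334002956028105330433)) (C.cons (nat_lit 386) (C.node (nat_lit 2) (nat_lit 5) (nat_lit 11) (C.cons (nat_lit 2596) (C.miq (nat_lit 1193609913) (nat_lit 200692035009074753033211649))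 (C.cons (nat_lit 2084) (C.node (nat_lit 3) (nat_lit 5) (nat_lit 7) (C.cons (nat_lit 680) (C.node (nat_lit 3) (nat_lit 4) (nat_lit 7) (C.cons (nat_lit 216) (C.node (nat_lit 3) (nat_lit 7) (nat_lit 10) (C.cons (nat_lit 1160) (C.node (nat_lit 1) (nat_lit 3) (nat_lit 7) (C.cons (nat_lit 2186) (C.node (nat_lit 7) (nat_lit 9) (nat_lit 11) (C.cons (nat_lit 2688) (C.node (nat_lit 1) (nat_lit 6) (nat_lit 7) (C.cons (nat_lit 194) (C.node (nat_lit 1) (nat_lit 7) (nat_lit 9) (C.cons (nat_lit 642) (C.node (nat_lit 4) (nat_lit 7) (nat_lit 8) C.nil) C.nil)) C.nil)) C.nil)) (C.cons (nat_lit 138) (C.node (nat_lit 3) (nat_lit 7) (nat_lit 11) (C.cons (nat_lit 2184) (C.node (nat_lit 1) (nat_lit 6) (nat_lit 7) (C.cons (nat_lit 706) (C.node (nat_lit 1) (nat_lit 7) (nat_lit 11) (C.cons (nat_lit 2178) (C.node (nat_lit 6) (nat_lit 7) (nat_lit 10) C.nil) C.nil)) (C.cons (nat_lit 194) (C.node (nat_lit 1) (nat_lit 7) (nat_lit 9) (C.cons (nat_lit 2690) (C.node (nat_lit 4) (nat_lit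 7) (nat_lit 8) C.nil) C.nil)) C.nil))) C.nil)) C.nil))) C.nil)) (C.cons (nat_lit 152) (C.node (nat_lit 3) (nat_lit 7) (nat_lit 10) (C.cons (nat_lit 1224) (C.node (nat_lit 7) (nat_lit 9) (nat_lit 10) (C.cons (nat_lit 1664) (C.node (nat_lit 3) (nat_lit 4) (nat_lit 10) (C.cons (nat_lit 1560) (C.miq (nat_lit 1670740544) (nat_lit 822111487131759452290614419)) (C.cons (nat_lit 1048) (C.node (nat_lit 3) (nat_lit 9) (nat_lit 10) (C.cons (nat_lit 1548) (C.miq (nat_lit 1403418912) (nat_lit 1479767132848995284495434373)) (C.cons (nat_lit 1544) (C.node (nat_lit 3) (nat_lit 10) (nat_lit 11) (C.cons (nat_lit 3082) (C.miq (nat_lit 444152608) (nat_lit 2011662212353413136146303005)) (C.cons (nat_lit 3080) (C.node (nat_lit 4) (nat_lit 6) (nat_lit 7) (C.cons (nat_lit 720) (C.miq (nat_lit 1767076874) (nat_lit 822092136355358452069500051)) (C.cons (nat_lit 208) (C.node (nat_lit 1) (nat_lit 3) (nat_lit 7) (C.cons (nat_lit 2186) (C.node (nat_lit 7) (nat_lit 9) (nat_lit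 11) (C.cons (nat_lit 2688) (C.node (nat_lit 1) (nat_lit 6) (nat_lit 7) C.nil) C.nil)) (C.cons (nat_lit 138) (C.node (nat_lit 3) (nat_lit 7) (nat_lit 11) C.nil) C.nil))) C.nil))) C.nil))) C.nil))) C.nil))) C.nil)) (C.cons (nat_lit 1160) (C.node (nat_lit 3) (nat_lit 6) (nat_lit 7) (C.cons (nat_lit 202) (C.node (nat_lit 3) (nat_lit 7) (nat_lit 11) (C.cons (nat_lit 2184) (C.node (nat_lit 3) (nat_lit 9) (nat_lit 11) (C.cons (nat_lit 2632) (C.miq (nat_lit 2838563687) (nat_lit 632289805876918062169065697)) (C.cons (nat_lit 2568) (C.node (nat_lit 1) (nat_lit 9) (nat_lit 10) (C.cons (nat_lit 1634) (C.miq (nat_lit 359897728) (nat_lit 822079205445034685619572481)) (C.cons (nat_lit 1602) (C.miq (nat_lit 2792919344) (nat_lit 546505324860723285654569483)) (C.cons (nat_lit 1570) (C.miq (nat_lit 359897728) (nat_lit 822079205427020287110090497)) (C.cons (nat_lit 1542) (C.miq (nat_lit 2455478640) (nat_lit 2519472262454909445676795027)) (C.cons (nat_lit 1538) (C.node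 (nat_lit 1) (nat_lit 2) (nat_lit 3) (C.cons (nat_lit 1038) (C.node (nat_lit 1) (nat_lit 10) (nat_lit 11) (C.cons (nat_lit 3138) (C.miq (nat_lit 2316503911) (nat_lit 1254872251411564914365040865)) (C.cons (nat_lit 3074) (C.node (nat_lit 3) (nat_lit 10) (nat_lit 11) (C.cons (nat_lit 3144)
  (C.miq (nat_lit 1362522795) (nat_lit 244244945058163939617541252)) (C.cons (nat_lit 3080) (C.node (nat_lit 6) (nat_lit 10) (nat_lit 11) (C.cons (nat_lit 3136) (C.node (nat_lit 1) (nat_lit 7) (nat_lit 11) C.nil) C.nil)) C.nil))) C.nil))) (C.cons (nat_lit 14) (C.node (nat_lit 1) (nat_lit 2) (nat_lit 10) (C.cons (nat_lit 1030) (C.node (nat_lit 2) (nat_lit 3) (nat_lit 10) (C.cons (nat_lit 1548) (C.miq (nat_lit 1698301842) (nat_lit 1287526160820648178344526469)) (C.cons (nat_lit 1036) (C.node (nat_lit 1) (nat_lit 5) (nat_lit 10) (C.cons (nat_lit 1122) (C.node (nat_lit 1) (nat_lit 8) (nat_lit 10) (C.cons (nat_lit 1290) (C.miq (nat_lit 3122006071) (nat_lit 1356456700138044401897832841))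 (C.cons (nat_lit 1282) (C.node (nat_lit 6) (nat_lit 7) (nat_lit 10) (C.cons (nat_lit 1728) (C.node (nat_lit 1) (nat_lit 3) (nat_lit 10) C.nil) C.nil)) C.nil))) (C.cons (nat_lit 1058) (C.node (nat_lit 1) (nat_lit 7) (nat_lit 9) (C.cons (nat_lit 2690) (C.node (nat_lit 1) (nat_lit 2) (nat_lit 11) C.nil) (C.cons (nat_lit 642) (C.node (nat_lit 1) (nat_lit 7) (nat_lit 11) C.nil) C.nil))) C.nil))) C.nil))) C.nil)) C.nil))) C.nil)))))) C.nil))) C.nil)) (C.cons (nat_lit 200) (C.node (nat_lit 1) (nat_lit 3) (nat_lit 7) (C.cons (nat_lit 2186) (C.node (nat_lit 7) (nat_lit 9) (nat_lit 11) (C.cons (nat_lit 2688) (C.node (nat_lit 1) (nat_lit 6) (nat_lit 7) (C.cons (nat_lit 706) (C.node (nat_lit 4) (nat_lit 6) (nat_lit 7) C.nil) C.nil)) C.nil)) (C.cons (nat_lit 138) (C.node (nat_lit 3) (nat_lit 7) (nat_lit 11) C.nil) C.nil))) C.nil))) C.nil))) C.nil))) (C.cons (nat_lit 168) (C.node (nat_lit 5) (nat_lit 7) (nat_lit 9) (C.cons (nat_lit 672) (C.node (nat_lit 4) (nat_lit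 7) (nat_lit 8) (C.cons (nat_lit 912) (C.node (nat_lit 2) (nat_lit 4) (nat_lit 8) (C.cons (nat_lit 308) (C.node (nat_lit 2) (nat_lit 4) (nat_lit 10) (C.cons (nat_lit 1556) (C.miq (nat_lit 1917172368) (nat_lit 372391082792437836007149313)) (C.cons (nat_lit 1044) (C.node (nat_lit 5) (nat_lit 8) (nat_lit 11) (C.cons (nat_lit 2346) (C.miq (nat_lit 896841888) (nat_lit 212809258799962309679845121)) (C.cons (nat_lit 2344) (C.miq (nat_lit 896841888) (nat_lit 212809258799399359726423809)) (C.cons (nat_lit 2338) (C.miq (nat_lit 2551319383) (nat_lit 317959389789730442798565601)) (C.cons (nat_lit 2336) (C.node (nat_lit 2) (nat_lit 3) (nat_lit 8) (C.cons (nat_lit 780) (C.node (nat_lit 3) (nat_lit 4) (nat_lit 8) (C.cons (nat_lit 282) (C.miq (nat_lit 412566304) (nat_lit 1102561948705231414766143517)) (C.cons (nat_lit 280) (C.node (nat_lit 1) (nat_lit 4) (nat_lit 8) (C.cons (nat_lit 274) (C.node (nat_lit 4) (nat_lit 8) (nat_lit 11) C.nil) C.nil)) C.nil))) (C.cons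 (nat_lit 268) (C.node (nat_lit 2) (nat_lit 8) (nat_lit 9) (C.cons (nat_lit 772) (C.node (nat_lit 2) (nat_lit 5) (nat_lit 10) (C.cons (nat_lit 1572) (C.node (nat_lit 1) (nat_lit 2) (nat_lit 10) C.nil) C.nil)) C.nil)) C.nil))) C.nil))))) C.nil))) (C.cons (nat_lit 276) (C.node (nat_lit 2) (nat_lit 5) (nat_lit 8) (C.cons (nat_lit 812) (C.miq (nat_lit 391318153) (nat_lit 203109185672021633980436225)) (C.cons (nat_lit 804) (C.miq (nat_lit 444952722) (nat_lit 1740856242734205942112715397)) (C.cons (nat_lit 300) (C.miq (nat_lit 2015667504) (nat_lit 333685127756273221193499689)) (C.cons (nat_lit 292) (C.node (nat_lit 2) (nat_lit 4) (nat_lit 10) (C.cons (nat_lit 1556) (C.miq (nat_lit 1461980073) (nat_lit 178931370566196852155485953)) (C.cons (nat_lit 1076) (C.miq (nat_lit 944900004) (nat_lit 353044653325538664423621779)) (C.cons (nat_lit 1044) (C.node (nat_lit 2) (nat_lit 3) (nat_lit 8) (C.cons (nat_lit 780) (C.node (nat_lit 2) (nat_lit 3) (nat_lit 5) (C.cons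 (nat_lit 108) (C.node (nat_lit 2) (nat_lit 4) (nat_lit 5) C.nil) C.nil)) (C.cons (nat_lit 268) (C.node (nat_lit 2) (nat_lit 8) (nat_lit 9) C.nil) C.nil))) C.nil)))) C.nil))))) C.nil))) (C.cons (nat_lit 400) (C.node (nat_lit 7) (nat_lit 8) (nat_lit 9) (C.cons (nat_lit 896) (C.node (nat_lit 1) (nat_lit 3) (nat_lit 7) (C.cons (nat_lit 2186) (C.node (nat_lit 7) (nat_lit 9) (nat_lit 11) C.nil) (C.cons (nat_lit 202)
  (C.node (nat_lit 1) (nat_lit 7) (nat_lit 9) (C.cons (nat_lit 2690) (C.node (nat_lit 3) (nat_lit 7) (nat_lit 11) C.nil) C.nil)) C.nil))) C.nil)) C.nil))) C.nil)) C.nil))) C.nil))) C.nil))) (C.cons (nat_lit 134) (C.node (nat_lit 2) (nat_lit 5) (nat_lit 7) (C.cons (nat_lit 164) (C.node (nat_lit 1) (nat_lit 7) (nat_lit 8) (C.cons (nat_lit 898) (C.node (nat_lit 4) (nat_lit 7) (nat_lit 8) (C.cons (nat_lit 400) (C.node (nat_lit 1) (nat_lit 5) (nat_lit 7) (C.cons (nat_lit 170) (C.node (nat_lit 1) (nat_lit 6) (nat_lit 7) (C.cons (nat_lit 194) (C.node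 (nat_lit 1) (nat_lit 7) (nat_lit 11) (C.cons (nat_lit 2178) (C.node (nat_lit 5) (nat_lit 7) (nat_lit 9) C.nil) C.nil)) C.nil)) (C.cons (nat_lit 162) (C.miq (nat_lit 896600713) (nat_lit 195855630724497511406505729)) C.nil))) C.nil)) (C.cons (nat_lit 386) (C.node (nat_lit 4) (nat_lit 7) (nat_lit 8) (C.cons (nat_lit 912) (C.node (nat_lit 2) (nat_lit 4) (nat_lit 8) (C.cons (nat_lit 308) (C.node (nat_lit 2) (nat_lit 4) (nat_lit 10) (C.cons (nat_lit 1556) (C.miq (nat_lit 1917172368) (nat_lit 372391082792437836007149313)) (C.cons (nat_lit 1044) (C.node (nat_lit 2) (nat_lit 3) (nat_lit 8) (C.cons (nat_lit 780) (C.node (nat_lit 3) (nat_lit 4) (nat_lit 8) (C.cons (nat_lit 282) (C.miq (nat_lit 412566304) (nat_lit 1102561948705231414766143517)) (C.cons (nat_lit 280) (C.node (nat_lit 1) (nat_lit 4) (nat_lit 8) (C.cons (nat_lit 2322) (C.node (nat_lit 4) (nat_lit 5) (nat_lit 11) (C.cons (nat_lit 2096) (C.node (nat_lit 5) (nat_lit 8) (nat_lit 11) (C.cons (nat_lit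 2344) (C.miq (nat_lit 1395112080) (nat_lit 169291544855108321796230913)) (C.cons (nat_lit 2336) (C.node (nat_lit 2) (nat_lit 3) (nat_lit 10) C.nil) C.nil))) C.nil)) (C.cons (nat_lit 274) (C.node (nat_lit 4) (nat_lit 8) (nat_lit 11) (C.cons (nat_lit 2320) (C.node (nat_lit 2) (nat_lit 3) (nat_lit 10) (C.cons (nat_lit 1038) (C.node (nat_lit 1) (nat_lit 8) (nat_lit 10) C.nil) (C.cons (nat_lit 1036) (C.node (nat_lit 1) (nat_lit 8) (nat_lit 9) (C.cons (nat_lit 866) (C.miq (nat_lit 878248577) (nat_lit 678217033035582366640374023)) C.nil)) C.nil))) C.nil)) C.nil))) C.nil))) (C.cons (nat_lit 268) (C.node (nat_lit 2) (nat_lit 8) (nat_lit 9) (C.cons (nat_lit 772) (C.node (nat_lit 3) (nat_lit 4) (nat_lit 7) (C.cons (nat_lit 216) (C.node (nat_lit 3) (nat_lit 4) (nat_lit 8) C.nil) (C.cons (nat_lit 152) (C.node (nat_lit 4) (nat_lit 6) (nat_lit 7) C.nil) C.nil))) C.nil)) C.nil))) C.nil))) (C.cons (nat_lit 276) (C.node (nat_lit 3) (nat_lit 4) (nat_lit 7) (C.cons (nat_lit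 216) (C.node (nat_lit 3) (nat_lit 7) (nat_lit 10) (C.cons (nat_lit 1672) (C.miq (nat_lit 1621313687) (nat_lit 1287509982481173556555678608)) (C.cons (nat_lit 1160) (C.node (nat_lit 1) (nat_lit 6) (nat_lit 7) (C.cons (nat_lit 706) (C.node (nat_lit 6) (nat_lit 7) (nat_lit 10) (C.cons (nat_lit 1216) (C.node (nat_lit 7) (nat_lit 9) (nat_lit 10) C.nil) C.nil)) (C.cons (nat_lit 194) (C.node (nat_lit 6) (nat_lit 7) (nat_lit 9) (C.cons (nat_lit 1728) (C.node (nat_lit 1) (nat_lit 3) (nat_lit 7) (C.cons (nat_lit 2186) (C.node (nat_lit 7) (nat_lit 9) (nat_lit 11) C.nil) (C.cons (nat_lit 170) (C.miq (nat_lit 2557545043) (nat_lit 466655015099548981841757225)) C.nil))) C.nil)) C.nil))) C.nil))) (C.cons (nat_lit 152) (C.node (nat_lit 4) (nat_lit 6) (nat_lit 7) (C.cons (nat_lit 208) (C.node (nat_lit 1) (nat_lit 5) (nat_lit 7) (C.cons (nat_lit 674) (C.node (nat_lit 3) (nat_lit 5) (nat_lit 7) C.nil) (C.cons (nat_lit 170) (C.miq (nat_lit 2557545043) (nat_lit 466655015099548981841757225))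 C.nil))) C.nil)) C.nil))) C.nil))) (C.cons (nat_lit 400) (C.node (nat_lit 7) (nat_lit 8) (nat_lit 9) (C.cons (nat_lit 896) (C.node (nat_lit 1) (nat_lit 5) (nat_lit 7) (C.cons (nat_lit 674) (C.node (nat_lit 3) (nat_lit 5) (nat_lit 7) C.nil) (C.cons (nat_lit 170) (C.miq (nat_lit 2557545043) (nat_lit 466655015099548981841757225)) (C.cons (nat_lit 162) (C.node (nat_lit 3) (nat_lit 5) (nat_lit 7) (C.cons (nat_lit 168)
  (C.node (nat_lit 5) (nat_lit 7) (nat_lit 9) C.nil) C.nil)) C.nil)))) C.nil)) C.nil))) C.nil))) C.nil)) C.nil))) C.nil))))) (C.cons (nat_lit 388) (C.node (nat_lit 4) (nat_lit 7) (nat_lit 8) (C.cons (nat_lit 912) (C.node (nat_lit 1) (nat_lit 7) (nat_lit 8) (C.cons (nat_lit 450) (C.node (nat_lit 1) (nat_lit 8) (nat_lit 10) (C.cons (nat_lit 1290) (C.miq (nat_lit 828418165) (nat_lit 81017676059723308218779040)) (C.cons (nat_lit 1282) (C.node (nat_lit 1) (nat_lit 8) (nat_lit 9) (C.cons (nat_lit 802) (C.node (nat_lit 2) (nat_lit 4) (nat_lit 8)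 (C.cons (nat_lit 308) (C.miq (nat_lit 878248577) (nat_lit 678217033035582366636179719)) (C.cons (nat_lit 276) (C.node (nat_lit 5) (nat_lit 9) (nat_lit 11) (C.cons (nat_lit 2600) (C.miq (nat_lit 1479250179) (nat_lit 2790248753430899841090519563)) (C.cons (nat_lit 2596) (C.miq (nat_lit 1416794283) (nat_lit 178968909208492959403872001)) (C.cons (nat_lit 2592) (C.node (nat_lit 1) (nat_lit 7) (nat_lit 9) (C.cons (nat_lit 2690) (C.node (nat_lit 3) (nat_lit 7) (nat_lit 11) (C.cons (nat_lit 2184) (C.node (nat_lit 2) (nat_lit 9) (nat_lit 11) (C.cons (nat_lit 2628) (C.miq (nat_lit 2433136546) (nat_lit 81046508714778580236962948)) (C.cons (nat_lit 2564) (C.node (nat_lit 2) (nat_lit 6) (nat_lit 11) (C.cons (nat_lit 2118) (C.miq (nat_lit 840436583) (nat_lit 317954740713701064199768289)) (C.cons (nat_lit 2116) (C.node (nat_lit 1) (nat_lit 2) (nat_lit 7) (C.cons (nat_lit 174) (C.miq (nat_lit 2836597621) (nat_lit 632287850522046498062862561)) (C.cons (nat_lit 166)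 (C.miq (nat_lit 431118503) (nat_lit 3099688863877184868233512352)) (C.cons (nat_lit 142) (C.miq (nat_lit 2803479088) (nat_lit 3252081309609186033647945757)) (C.cons (nat_lit 134) (C.node (nat_lit 1) (nat_lit 3) (nat_lit 7) (C.cons (nat_lit 170) (C.miq (nat_lit 2836597621) (nat_lit 632287850522046498062600417)) (C.cons (nat_lit 138) (C.node (nat_lit 1) (nat_lit 5) (nat_lit 7) (C.cons (nat_lit 162) (C.node (nat_lit 2) (nat_lit 5) (nat_lit 7) (C.cons (nat_lit 172) (C.miq (nat_lit 732246151) (nat_lit 3752508917508429660022636937)) (C.cons (nat_lit 164) (C.node (nat_lit 2) (nat_lit 3) (nat_lit 7) C.nil) C.nil))) C.nil)) C.nil))) C.nil))))) C.nil))) C.nil))) C.nil)) (C.cons (nat_lit 642) (C.node (nat_lit 1) (nat_lit 7) (nat_lit 11) (C.cons (nat_lit 2186) (C.node (nat_lit 7) (nat_lit 9) (nat_lit 11) (C.cons (nat_lit 2688) (C.node (nat_lit 1) (nat_lit 3) (nat_lit 8) (C.cons (nat_lit 282) (C.node (nat_lit 1) (nat_lit 8) (nat_lit 11) (C.cons (nat_lit 2306)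 (C.node (nat_lit 1) (nat_lit 10) (nat_lit 11) (C.cons (nat_lit 3138) (C.miq (nat_lit 1176176755) (nat_lit 3793647535933006444996723081)) (C.cons (nat_lit 3074) (C.node (nat_lit 3) (nat_lit 4) (nat_lit 7) (C.cons (nat_lit 216) (C.miq (nat_lit 561186916) (nat_lit 2642750155639050322270749009)) (C.cons (nat_lit 152) (C.node (nat_lit 3) (nat_lit 8) (nat_lit 10) C.nil) C.nil))) C.nil))) C.nil)) (C.cons (nat_lit 266) (C.miq (nat_lit 1125649270) (nat_lit 321580485154877116046772449)) C.nil))) C.nil)) (C.cons (nat_lit 2178) (C.node (nat_lit 1) (nat_lit 3) (nat_lit 7) (C.cons (nat_lit 174) (C.miq (nat_lit 2803479088) (nat_lit 776201231038425621288650781)) (C.cons (nat_lit 170) (C.miq (nat_lit 965021863) (nat_lit 969561643424653038621557907)) (C.cons (nat_lit 142) (C.miq (nat_lit 2803479088) (nat_lit 776201231038425483849697309)) (C.cons (nat_lit 138) (C.node (nat_lit 3) (nat_lit 4) (nat_lit 7) (C.cons (nat_lit 216) (C.miq (nat_lit 561186916) (nat_lit 166870077068289772472500561))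 (C.cons (nat_lit 152) (C.node (nat_lit 4) (nat_lit 6) (nat_lit 7) (C.cons (nat_lit 208) (C.node (nat_lit 3) (nat_lit 8) (nat_lit 10) C.nil) C.nil)) C.nil))) C.nil))))) C.nil))) C.nil))) C.nil)))) C.nil))) (C.cons (nat_lit 770) (C.node (nat_lit 2) (nat_lit 4) (nat_lit 8) (C.cons (nat_lit 308) (C.node (nat_lit 2) (nat_lit 4) (nat_lit 10) (C.cons (nat_lit 1556) (C.miq (nat_lit 1917172368) (nat_lit 372391082792437836007149313)) (C.cons (nat_lit 1044) (C.node (nat_lit 5) (nat_lit 6) (nat_lit 8) (C.cons (nat_lit 872)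
  (C.miq (nat_lit 412382800) (nat_lit 1102561948752519605985020129)) (C.cons (nat_lit 864) (C.miq (nat_lit 412382800) (nat_lit 1102561948752519571625281761)) (C.cons (nat_lit 360) (C.miq (nat_lit 974671990) (nat_lit 1549849541873597017044945121)) (C.cons (nat_lit 352) (C.node (nat_lit 5) (nat_lit 8) (nat_lit 9) (C.cons (nat_lit 808) (C.miq (nat_lit 2761230211) (nat_lit 678227030915856582473941385)) (C.cons (nat_lit 800) (C.node (nat_lit 3) (nat_lit 4) (nat_lit 8) (C.cons (nat_lit 282) (C.node (nat_lit 4) (nat_lit 8) (nat_lit 11) C.nil) C.nil)) C.nil))) C.nil))))) C.nil))) (C.cons (nat_lit 276) (C.node (nat_lit 2) (nat_lit 6) (nat_lit 7) (C.cons (nat_lit 204) (C.node (nat_lit 3) (nat_lit 4) (nat_lit 7) (C.cons (nat_lit 152) (C.node (nat_lit 4) (nat_lit 6) (nat_lit 7) (C.cons (nat_lit 208) (C.node (nat_lit 3) (nat_lit 8) (nat_lit 10) (C.cons (nat_lit 1352) (C.miq (nat_lit 2590115895) (nat_lit 1321367820069868422969426313)) (C.cons (nat_lit 1288) (C.node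 (nat_lit 6) (nat_lit 8) (nat_lit 10) (C.cons (nat_lit 1344) (C.node (nat_lit 6) (nat_lit 8) (nat_lit 11) C.nil) C.nil)) C.nil))) C.nil)) C.nil)) (C.cons (nat_lit 196) (C.node (nat_lit 2) (nat_lit 3) (nat_lit 7) (C.cons (nat_lit 174) (C.miq (nat_lit 2591099683) (nat_lit 1415661783497040460308678685)) (C.cons (nat_lit 172) (C.miq (nat_lit 732246151) (nat_lit 3752508917508429660022636937)) (C.cons (nat_lit 142) (C.miq (nat_lit 2591099683) (nat_lit 1415661783497040460306581533)) (C.cons (nat_lit 140) (C.node (nat_lit 3) (nat_lit 4) (nat_lit 7) (C.cons (nat_lit 216) (C.miq (nat_lit 389187136) (nat_lit 169254466366404137439789393)) (C.cons (nat_lit 152) (C.node (nat_lit 4) (nat_lit 6) (nat_lit 7) (C.cons (nat_lit 208) (C.node (nat_lit 1) (nat_lit 2) (nat_lit 7) (C.cons (nat_lit 166) (C.node (nat_lit 2) (nat_lit 5) (nat_lit 11) (C.cons (nat_lit 2596) (C.miq (nat_lit 1193609913) (nat_lit 200692035009074753033211649)) (C.cons (nat_lit 2084) (C.node (nat_lit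 2) (nat_lit 5) (nat_lit 8) (C.cons (nat_lit 876) (C.miq (nat_lit 829788328) (nat_lit 200697845551053454889193217)) (C.cons (nat_lit 868) (C.miq (nat_lit 412382800) (nat_lit 1102561948752519588805150945)) (C.cons (nat_lit 812) (C.miq (nat_lit 829788328) (nat_lit 200696664959432737477889793)) (C.cons (nat_lit 804) (C.miq (nat_lit 444952722) (nat_lit 1740856242734205942112715397)) (C.cons (nat_lit 364) (C.miq (nat_lit 974671990) (nat_lit 1549849615660573311883151585)) (C.cons (nat_lit 356) (C.miq (nat_lit 310670688) (nat_lit 333685127397674341268261089)) (C.cons (nat_lit 300) (C.miq (nat_lit 2015667504) (nat_lit 333685127756273221193499689)) C.nil)))))))) C.nil))) (C.cons (nat_lit 134) (C.node (nat_lit 2) (nat_lit 5) (nat_lit 7) C.nil) C.nil))) C.nil)) C.nil))) C.nil))))) C.nil))) C.nil))) C.nil))) C.nil))) (C.cons (nat_lit 386) (C.node (nat_lit 6) (nat_lit 7) (nat_lit 8) (C.cons (nat_lit 448) (C.node (nat_lit 2) (nat_lit 4) (nat_lit 8) (C.cons (nat_lit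 308) (C.node (nat_lit 2) (nat_lit 4) (nat_lit 10) (C.cons (nat_lit 1556) (C.miq (nat_lit 1917172368) (nat_lit 372391082792437836007149313)) (C.cons (nat_lit 1044) (C.node (nat_lit 3) (nat_lit 4) (nat_lit 7) (C.cons (nat_lit 216) (C.node (nat_lit 3) (nat_lit 7) (nat_lit 10) (C.cons (nat_lit 1672) (C.miq (nat_lit 1621313687) (nat_lit 1287509982481173556555678608)) (C.cons (nat_lit 1160) (C.node (nat_lit 2) (nat_lit 3) (nat_lit 7) (C.cons (nat_lit 174) (C.miq (nat_lit 1729643296) (nat_lit 466651582984799043866527773)) (C.cons (nat_lit 172) (C.miq (nat_lit 732246151) (nat_lit 3752508917508429660022636937)) (C.cons (nat_lit 142) (C.miq (nat_lit 1729643296) (nat_lit 466651582984798906427574301)) (C.cons (nat_lit 140) (C.node (nat_lit 2) (nat_lit 6) (nat_lit 8) (C.cons (nat_lit 844) (C.miq (nat_lit 392692786) (nat_lit 541603619010653381376870429)) (C.cons (nat_lit 836) (C.miq (nat_lit 2760247186) (nat_lit 407428163831013711209038469)) (C.cons (nat_lit 332)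 (C.miq (nat_lit 392692786) (nat_lit 541603619010653381343315997)) (C.cons (nat_lit 324) (C.node (nat_lit 2) (nat_lit 3) (nat_lit 8)
  (C.cons (nat_lit 780) (C.node (nat_lit 2) (nat_lit 5) (nat_lit 7) (C.cons (nat_lit 166) (C.node (nat_lit 2) (nat_lit 6) (nat_lit 7) C.nil) C.nil)) (C.cons (nat_lit 268) (C.node (nat_lit 2) (nat_lit 8) (nat_lit 9) (C.cons (nat_lit 772) (C.node (nat_lit 2) (nat_lit 5) (nat_lit 7) C.nil) C.nil)) C.nil))) C.nil))))) C.nil))))) C.nil))) (C.cons (nat_lit 152) (C.node (nat_lit 4) (nat_lit 6) (nat_lit 7) (C.cons (nat_lit 208) (C.node (nat_lit 3) (nat_lit 4) (nat_lit 8) (C.cons (nat_lit 282) (C.node (nat_lit 4) (nat_lit 8) (nat_lit 11) (C.cons (nat_lit 2320) (C.node (nat_lit 4) (nat_lit 5) (nat_lit 11) (C.cons (nat_lit 2098) (C.miq (nat_lit 1367847984) (nat_lit 466687296411062115592898589)) (C.cons (nat_lit 2096) (C.node (nat_lit 3) (nat_lit 8) (nat_lit 11) (C.cons (nat_lit 2376) (C.miq (nat_lit 1746383680) (nat_lit 466687296489312159169447965))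 (C.cons (nat_lit 2344) (C.miq (nat_lit 896841888) (nat_lit 212809258799399359726423809)) C.nil))) C.nil))) C.nil)) (C.cons (nat_lit 280) (C.node (nat_lit 1) (nat_lit 4) (nat_lit 8) (C.cons (nat_lit 2322) (C.node (nat_lit 4) (nat_lit 5) (nat_lit 11) (C.cons (nat_lit 2096) (C.node (nat_lit 5) (nat_lit 8) (nat_lit 11) (C.cons (nat_lit 2344) (C.miq (nat_lit 896841888) (nat_lit 212809258799399359726423809)) C.nil)) C.nil)) (C.cons (nat_lit 274) (C.node (nat_lit 4) (nat_lit 8) (nat_lit 11) (C.cons (nat_lit 2320) (C.node (nat_lit 4) (nat_lit 5) (nat_lit 10) C.nil) C.nil)) C.nil))) C.nil))) C.nil)) C.nil))) C.nil))) (C.cons (nat_lit 276) (C.node (nat_lit 3) (nat_lit 4) (nat_lit 7) (C.cons (nat_lit 216) (C.node (nat_lit 3) (nat_lit 7) (nat_lit 10) (C.cons (nat_lit 1672) (C.miq (nat_lit 1621313687) (nat_lit 1287509982481173556555678608)) (C.cons (nat_lit 1160) (C.node (nat_lit 2) (nat_lit 3) (nat_lit 7) (C.cons (nat_lit 174) (C.miq (nat_lit 1729643296) (nat_lit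 466651582984799043866527773)) (C.cons (nat_lit 172) (C.miq (nat_lit 732246151) (nat_lit 3752508917508429660022636937)) (C.cons (nat_lit 142) (C.miq (nat_lit 1729643296) (nat_lit 466651582984798906427574301)) (C.cons (nat_lit 140) (C.node (nat_lit 2) (nat_lit 5) (nat_lit 7) (C.cons (nat_lit 166) (C.node (nat_lit 2) (nat_lit 6) (nat_lit 7) (C.cons (nat_lit 196) (C.node (nat_lit 2) (nat_lit 5) (nat_lit 8) (C.cons (nat_lit 876) (C.miq (nat_lit 829788328) (nat_lit 200697845551053454889193217)) (C.cons (nat_lit 868) (C.miq (nat_lit 310670688) (nat_lit 333685127397676540291516641)) (C.cons (nat_lit 812) (C.miq (nat_lit 829788328) (nat_lit 200696664959432737477889793)) (C.cons (nat_lit 804) (C.miq (nat_lit 444952722) (nat_lit 1740856242734205942112715397)) (C.cons (nat_lit 364) (C.miq (nat_lit 310670688) (nat_lit 333685127397674375627999457)) (C.cons (nat_lit 356) (C.miq (nat_lit 310670688) (nat_lit 333685127397674341268261089)) (C.cons (nat_lit 300) (C.miq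 (nat_lit 2015667504) (nat_lit 333685127756273221193499689)) C.nil)))))))) C.nil)) (C.cons (nat_lit 164) (C.node (nat_lit 1) (nat_lit 2) (nat_lit 7) (C.cons (nat_lit 198) (C.node (nat_lit 6) (nat_lit 7) (nat_lit 9) (C.cons (nat_lit 1728) (C.miq (nat_lit 2534975008) (nat_lit 466716220801623590001116229)) C.nil)) C.nil)) C.nil))) C.nil))))) C.nil))) (C.cons (nat_lit 152) (C.node (nat_lit 4) (nat_lit 6) (nat_lit 7) (C.cons (nat_lit 208) (C.node (nat_lit 2) (nat_lit 4) (nat_lit 10) (C.cons (nat_lit 1556) (C.miq (nat_lit 1461980073) (nat_lit 178931370566196852155485953)) (C.cons (nat_lit 1076) (C.node (nat_lit 2) (nat_lit 3) (nat_lit 8) (C.cons (nat_lit 876) (C.miq (nat_lit 2760247186) (nat_lit 407428163831013711211659909)) (C.cons (nat_lit 844) (C.miq (nat_lit 1379443719) (nat_lit 1020359955369089160819836051)) (C.cons (nat_lit 812) (C.miq (nat_lit 2761230211) (nat_lit 678227030915856582474203529)) (C.cons (nat_lit 780) (C.miq (nat_lit 1379443719) (nat_lit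 942988702913752893638640787)) (C.cons (nat_lit 364) (C.miq (nat_lit 2015667504) (nat_lit 333685127756273496071406633)) (C.cons (nat_lit 332) (C.miq (nat_lit 1379443719) (nat_lit 401389935726399023370273939)) (C.cons (nat_lit 300)
  (C.miq (nat_lit 2015667504) (nat_lit 333685127756273221193499689)) (C.cons (nat_lit 268) (C.miq (nat_lit 1379443719) (nat_lit 324018683271062756189078675)) C.nil))))))))) (C.cons (nat_lit 1044) (C.node (nat_lit 4) (nat_lit 5) (nat_lit 10) (C.cons (nat_lit 1136) (C.node (nat_lit 2) (nat_lit 4) (nat_lit 5) (C.cons (nat_lit 54) (C.node (nat_lit 1) (nat_lit 5) (nat_lit 10) (C.cons (nat_lit 1570) (C.miq (nat_lit 314201097) (nat_lit 3873427287448676169395798577)) (C.cons (nat_lit 1058) (C.node (nat_lit 2) (nat_lit 5) (nat_lit 7) (C.cons (nat_lit 172) (C.miq (nat_lit 732246151) (nat_lit 3752508917508429660022636937)) (C.cons (nat_lit 164) (C.node (nat_lit 2) (nat_lit 5) (nat_lit 11) (C.cons (nat_lit 2596) (C.miq (nat_lit 1918151568)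 (nat_lit 65303596298357264471887617)) (C.cons (nat_lit 2084) (C.node (nat_lit 2) (nat_lit 5) (nat_lit 8) (C.cons (nat_lit 876) (C.miq (nat_lit 361185840) (nat_lit 1740874781397579736621320221)) (C.cons (nat_lit 868) (C.miq (nat_lit 2760247186) (nat_lit 407428163831013711211135621)) (C.cons (nat_lit 812) (C.miq (nat_lit 361185840) (nat_lit 1740874781397579461743413277)) (C.cons (nat_lit 804) (C.miq (nat_lit 2504688144) (nat_lit 1373410585252511974134317319)) (C.cons (nat_lit 364) (C.miq (nat_lit 361185840) (nat_lit 1740874781397577537598064669)) (C.cons (nat_lit 356) (C.miq (nat_lit 2168791206) (nat_lit 65288561374113164390564933)) (C.cons (nat_lit 300) (C.miq (nat_lit 361185840) (nat_lit 1740874781397577262720157725)) (C.cons (nat_lit 292) (C.node (nat_lit 2) (nat_lit 4) (nat_lit 6) C.nil) C.nil))))))))) C.nil))) C.nil))) C.nil))) (C.cons (nat_lit 52) (C.node (nat_lit 3) (nat_lit 4) (nat_lit 10) (C.cons (nat_lit 1560) (C.node (nat_lit 3) (nat_lit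 7) (nat_lit 10) (C.cons (nat_lit 1224) (C.miq (nat_lit 923379284) (nat_lit 779785930916725938577278064)) (C.cons (nat_lit 1160) (C.node (nat_lit 3) (nat_lit 4) (nat_lit 6) (C.cons (nat_lit 88) (C.node (nat_lit 6) (nat_lit 7) (nat_lit 10) C.nil) C.nil)) C.nil))) (C.cons (nat_lit 1048) (C.node (nat_lit 4) (nat_lit 9) (nat_lit 10) (C.cons (nat_lit 1552) (C.node (nat_lit 3) (nat_lit 4) (nat_lit 9) (C.cons (nat_lit 600) (C.node (nat_lit 2) (nat_lit 4) (nat_lit 6) C.nil) C.nil)) C.nil)) C.nil))) C.nil))) (C.cons (nat_lit 1072) (C.node (nat_lit 1) (nat_lit 10) (nat_lit 11) (C.cons (nat_lit 3146) (C.miq (nat_lit 2443641778) (nat_lit 1415664033065883231238490141)) (C.cons (nat_lit 3138) (C.node (nat_lit 3) (nat_lit 10) (nat_lit 11) (C.cons (nat_lit 3080) (C.node (nat_lit 2) (nat_lit 6) (nat_lit 11) (C.cons (nat_lit 2628) (C.miq (nat_lit 1628027506) (nat_lit 632316682585150273439992964)) (C.cons (nat_lit 2116) (C.node (nat_lit 1) (nat_lit 8) (nat_lit 10) (C.cons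 (nat_lit 1290) (C.node (nat_lit 6) (nat_lit 8) (nat_lit 10) (C.cons (nat_lit 1344) (C.node (nat_lit 1) (nat_lit 7) (nat_lit 11) (C.cons (nat_lit 2690) (C.miq (nat_lit 2456514721) (nat_lit 2558136656227669666955396243)) (C.cons (nat_lit 2186) (C.miq (nat_lit 1631042176) (nat_lit 2642753772010132935170133761)) (C.cons (nat_lit 2178) (C.node (nat_lit 3) (nat_lit 7) (nat_lit 11) C.nil) C.nil)))) C.nil)) (C.cons (nat_lit 1282) (C.node (nat_lit 1) (nat_lit 3) (nat_lit 10) (C.cons (nat_lit 1038) (C.node (nat_lit 1) (nat_lit 5) (nat_lit 10) (C.cons (nat_lit 1570) (C.miq (nat_lit 1512345904) (nat_lit 1262128904743018381199606283)) (C.cons (nat_lit 1058) (C.node (nat_lit 1) (nat_lit 9) (nat_lit 10) C.nil) C.nil))) (C.cons (nat_lit 1034) (C.node (nat_lit 2) (nat_lit 3) (nat_lit 10) (C.cons (nat_lit 1548) (C.node (nat_lit 5) (nat_lit 6) (nat_lit 10) (C.cons (nat_lit 1632) (C.miq (nat_lit 2461442821) (nat_lit 2558117139826615812410639401)) C.nil)) (C.cons (nat_lit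 1036) (C.node (nat_lit 3) (nat_lit 8) (nat_lit 10) C.nil) C.nil))) C.nil))) C.nil))) C.nil))) C.nil)) (C.cons (nat_lit 3082) (C.miq (nat_lit 2443641778) (nat_lit 1415664033065882956360583197)) (C.cons (nat_lit 3074) (C.node (nat_lit 3) (nat_lit 10) (nat_lit 11) (C.cons (nat_lit 3144) (C.node (nat_lit 6) (nat_lit 7) (nat_lit 10) (C.cons (nat_lit 1728)
  (C.miq (nat_lit 915454578) (nat_lit 697588512690046877068233860)) (C.cons (nat_lit 1216) (C.node (nat_lit 2) (nat_lit 3) (nat_lit 7) (C.cons (nat_lit 206) (C.miq (nat_lit 2590444338) (nat_lit 1470065695882475508039813149)) (C.cons (nat_lit 204) (C.miq (nat_lit 2590444338) (nat_lit 1470065695882475508039682077)) (C.cons (nat_lit 174) (C.miq (nat_lit 2591099683) (nat_lit 1415661783497040460308678685)) (C.cons (nat_lit 172) (C.miq (nat_lit 732246151) (nat_lit 3752508917508429660022636937)) (C.cons (nat_lit 142) (C.miq (nat_lit 2591099683) (nat_lit 1415661783497040460306581533)) (C.cons (nat_lit 140) (C.node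 (nat_lit 2) (nat_lit 5) (nat_lit 7) (C.cons (nat_lit 164) (C.node (nat_lit 1) (nat_lit 2) (nat_lit 7) C.nil) C.nil)) C.nil))))))) C.nil))) (C.cons (nat_lit 3080) (C.node (nat_lit 6) (nat_lit 10) (nat_lit 11) (C.cons (nat_lit 3136) (C.node (nat_lit 5) (nat_lit 7) (nat_lit 2) (C.cons (nat_lit 174) (C.miq (nat_lit 2591099683) (nat_lit 1415661783497040460308678685)) (C.cons (nat_lit 172) (C.miq (nat_lit 631977856) (nat_lit 3752544058019669934025539977)) (C.cons (nat_lit 166) (C.node (nat_lit 5) (nat_lit 2) (nat_lit 11) (C.cons (nat_lit 2596) (C.miq (nat_lit 2493665403) (nat_lit 1262166443583200699940604129)) (C.cons (nat_lit 2084) (C.node (nat_lit 8) (nat_lit 5) (nat_lit 2) (C.cons (nat_lit 876) (C.miq (nat_lit 310670688) (nat_lit 333685127397676574651255009)) (C.cons (nat_lit 364) (C.miq (nat_lit 310670688) (nat_lit 333685127397674375627999457)) (C.cons (nat_lit 812) (C.miq (nat_lit 829788328) (nat_lit 200696664959432737477889793)) (C.cons (nat_lit 300)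 (C.miq (nat_lit 631519344) (nat_lit 1296006792598772247866573193)) (C.cons (nat_lit 868) (C.miq (nat_lit 310670688) (nat_lit 333685127397676540291516641)) (C.cons (nat_lit 356) (C.miq (nat_lit 310670688) (nat_lit 333685127397674341268261089)) (C.cons (nat_lit 804) (C.miq (nat_lit 361394832) (nat_lit 1740874781429104625001235077)) (C.cons (nat_lit 292) (C.node (nat_lit 9) (nat_lit 5) (nat_lit 7) (C.cons (nat_lit 680) (C.node (nat_lit 9) (nat_lit 10) (nat_lit 7) (C.cons (nat_lit 1728) (C.node (nat_lit 10) (nat_lit 7) (nat_lit 3) C.nil) C.nil)) C.nil)) C.nil))))))))) C.nil))) (C.cons (nat_lit 164) (C.node (nat_lit 1) (nat_lit 5) (nat_lit 7) (C.cons (nat_lit 170) (C.miq (nat_lit 394868128) (nat_lit 1102549995183549288472970281)) (C.cons (nat_lit 674) (C.node (nat_lit 5) (nat_lit 7) (nat_lit 3) C.nil) (C.cons (nat_lit 162) (C.node (nat_lit 9) (nat_lit 5) (nat_lit 7) (C.cons (nat_lit 672) (C.node (nat_lit 5) (nat_lit 7) (nat_lit 3) C.nil) C.nil)) C.nil))))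 C.nil))))) C.nil)) C.nil))) C.nil))))) C.nil))) C.nil)))) C.nil)) C.nil))) C.nil))) C.nil)) C.nil))) (C.cons (nat_lit 400) (C.node (nat_lit 2) (nat_lit 4) (nat_lit 10) (C.cons (nat_lit 1556) (C.miq (nat_lit 1461980073) (nat_lit 178931370566196852155485953)) (C.cons (nat_lit 1076) (C.node (nat_lit 2) (nat_lit 3) (nat_lit 8) (C.cons (nat_lit 876) (C.miq (nat_lit 1199704659) (nat_lit 469101532227530597063197737)) (C.cons (nat_lit 844) (C.miq (nat_lit 1379443719) (nat_lit 1020359955369089160819836051)) (C.cons (nat_lit 812) (C.miq (nat_lit 1199704659) (nat_lit 469101532227530597059003433)) (C.cons (nat_lit 780) (C.miq (nat_lit 1379443719) (nat_lit 942988702913752893638640787)) (C.cons (nat_lit 364) (C.miq (nat_lit 1199704659) (nat_lit 469101532227530597029643305)) (C.cons (nat_lit 332) (C.miq (nat_lit 1379443719) (nat_lit 401389935726399023370273939)) (C.cons (nat_lit 300) (C.miq (nat_lit 1199704659) (nat_lit 469101532227530597025449001)) (C.cons (nat_lit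 268) (C.miq (nat_lit 1379443719) (nat_lit 324018683271062756189078675)) C.nil))))))))) (C.cons (nat_lit 1044) (C.node (nat_lit 4) (nat_lit 5) (nat_lit 10) (C.cons (nat_lit 1136) (C.node (nat_lit 3) (nat_lit 4) (nat_lit 10) (C.cons (nat_lit 1560) (C.node (nat_lit 3) (nat_lit 7) (nat_lit 10) (C.cons (nat_lit 1224) (C.miq (nat_lit 923379284) (nat_lit 779785930916725938577278064)) (C.cons (nat_lit 1160) (C.node (nat_lit 4) (nat_lit 7) (nat_lit 9) (C.cons (nat_lit 720)
  (C.miq (nat_lit 813278564) (nat_lit 779785930871971417290703984)) (C.cons (nat_lit 656) (C.node (nat_lit 3) (nat_lit 10) (nat_lit 11) (C.cons (nat_lit 3146) (C.miq (nat_lit 878094603) (nat_lit 1373397764978178006009843457)) (C.cons (nat_lit 3144) (C.miq (nat_lit 878094603) (nat_lit 1373397728084689858590740225)) (C.cons (nat_lit 3082) (C.miq (nat_lit 2443641778) (nat_lit 1415664033065882956360583197)) (C.cons (nat_lit 3080) (C.node (nat_lit 1) (nat_lit 10) (nat_lit 11) (C.cons (nat_lit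 3138) (C.node (nat_lit 2) (nat_lit 6) (nat_lit 11) (C.cons (nat_lit 2628) (C.miq (nat_lit 1628027506) (nat_lit 632316682585150273439992964)) (C.cons (nat_lit 2116) (C.node (nat_lit 4) (nat_lit 6) (nat_lit 11) (C.cons (nat_lit 2640) (C.miq (nat_lit 895787193) (nat_lit 1373368508302754342197268225)) (C.cons (nat_lit 2128) (C.node (nat_lit 1) (nat_lit 8) (nat_lit 10) (C.cons (nat_lit 1290) (C.node (nat_lit 2) (nat_lit 3) (nat_lit 10) (C.cons (nat_lit 1036) (C.node (nat_lit 3) (nat_lit 6) (nat_lit 10) (C.cons (nat_lit 1096) (C.node (nat_lit 6) (nat_lit 8) (nat_lit 10) (C.cons (nat_lit 1344) (C.node (nat_lit 1) (nat_lit 9) (nat_lit 10) (C.cons (nat_lit 1574) (C.miq (nat_lit 1940457490) (nat_lit 1885936176859374261660680455)) (C.cons (nat_lit 1570) (C.miq (nat_lit 1460250673) (nat_lit 779786115444957196101289226)) (C.cons (nat_lit 1542) (C.miq (nat_lit 1940457490) (nat_lit 1885936176859374261658583303)) C.nil)))) C.nil)) C.nil)) C.nil)) (C.cons (nat_lit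 1282) (C.node (nat_lit 1) (nat_lit 3) (nat_lit 10) (C.cons (nat_lit 1038) (C.node (nat_lit 1) (nat_lit 5) (nat_lit 10) (C.cons (nat_lit 1570) (C.miq (nat_lit 1512345904) (nat_lit 1262128904743018381199606283)) (C.cons (nat_lit 1058) (C.node (nat_lit 1) (nat_lit 9) (nat_lit 10) (C.cons (nat_lit 1538) (C.node (nat_lit 2) (nat_lit 5) (nat_lit 10) (C.cons (nat_lit 1572) (C.node (nat_lit 3) (nat_lit 6) (nat_lit 10) C.nil) C.nil)) C.nil)) C.nil))) (C.cons (nat_lit 1034) (C.node (nat_lit 2) (nat_lit 3) (nat_lit 10) (C.cons (nat_lit 1036) (C.node (nat_lit 3) (nat_lit 6) (nat_lit 10) (C.cons (nat_lit 1352) (C.node (nat_lit 6) (nat_lit 8) (nat_lit 11) (C.cons (nat_lit 2368) (C.node (nat_lit 2) (nat_lit 3) (nat_lit 8) (C.cons (nat_lit 812) (C.miq (nat_lit 338823832) (nat_lit 2510943779162890079407181569)) (C.cons (nat_lit 780) (C.miq (nat_lit 338823832) (nat_lit 2510943779162890079405084417)) (C.cons (nat_lit 300) (C.miq (nat_lit 614805624) (nat_lit 1373345265690069411460809097))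 C.nil)))) C.nil)) C.nil)) C.nil)) C.nil))) C.nil))) C.nil))) C.nil))) (C.cons (nat_lit 3074) (C.node (nat_lit 6) (nat_lit 10) (nat_lit 11) (C.cons (nat_lit 3136) (C.node (nat_lit 2) (nat_lit 3) (nat_lit 10) (C.cons (nat_lit 1038) (C.node (nat_lit 1) (nat_lit 5) (nat_lit 10) (C.cons (nat_lit 1570) (C.miq (nat_lit 1512345904) (nat_lit 1262128904743018381199606283)) (C.cons (nat_lit 1058) (C.node (nat_lit 1) (nat_lit 8) (nat_lit 10) (C.cons (nat_lit 1346) (C.miq (nat_lit 1781825824) (nat_lit 1885930495530444129625243911)) C.nil)) C.nil))) (C.cons (nat_lit 1036) (C.node (nat_lit 6) (nat_lit 7) (nat_lit 10) (C.cons (nat_lit 1728) (C.node (nat_lit 1) (nat_lit 3) (nat_lit 10) (C.cons (nat_lit 1354) (C.miq (nat_lit 1694606483) (nat_lit 42337380897745806901839384)) (C.cons (nat_lit 1290) (C.node (nat_lit 1) (nat_lit 6) (nat_lit 10) C.nil) (C.cons (nat_lit 1098) (C.miq (nat_lit 1694606483) (nat_lit 42332658531262937256625688)) C.nil)))) C.nil)) C.nil))) C.nil))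 C.nil))) C.nil))))) C.nil))) C.nil))) (C.cons (nat_lit 1048) (C.node (nat_lit 4) (nat_lit 9) (nat_lit 10) (C.cons (nat_lit 1552) (C.node (nat_lit 1) (nat_lit 10) (nat_lit 11) (C.cons (nat_lit 3146) (C.miq (nat_lit 2443641778) (nat_lit 1415664033065883231238490141)) (C.cons (nat_lit 3138) (C.node (nat_lit 3) (nat_lit 10) (nat_lit 11) (C.cons (nat_lit 3080) (C.node (nat_lit 2) (nat_lit 6) (nat_lit 11) (C.cons (nat_lit 2628) (C.miq (nat_lit 1628027506) (nat_lit 632316682585150273439992964)) (C.cons (nat_lit 2116) (C.node (nat_lit 1) (nat_lit 8) (nat_lit 10) (C.cons (nat_lit 1290)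
  (C.node (nat_lit 6) (nat_lit 8) (nat_lit 10) (C.cons (nat_lit 1344) (C.node (nat_lit 1) (nat_lit 7) (nat_lit 11) (C.cons (nat_lit 2690) (C.miq (nat_lit 2456514721) (nat_lit 2558136656227669666955396243)) (C.cons (nat_lit 2186) (C.miq (nat_lit 1631042176) (nat_lit 2642753772010132935170133761)) (C.cons (nat_lit 2178) (C.node (nat_lit 1) (nat_lit 7) (nat_lit 8) (C.cons (nat_lit 962) (C.miq (nat_lit 929136826) (nat_lit 1163010434879757779902533377)) (C.cons (nat_lit 898) (C.miq (nat_lit 1963559473) (nat_lit 678223950385313698825307402)) (C.cons (nat_lit 450) (C.miq (nat_lit 929136826) (nat_lit 544040415237067642452971265)) (C.cons (nat_lit 386) (C.node (nat_lit 1) (nat_lit 9) (nat_lit 10) (C.cons (nat_lit 1574) (C.miq (nat_lit 2544967786) (nat_lit 2633069470477395483988984901)) (C.cons (nat_lit 1570) (C.miq (nat_lit 1460250673) (nat_lit 779786115444957196101289226)) (C.cons (nat_lit 1542) (C.miq (nat_lit 2544967786) (nat_lit 2633068880181585125283333189))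 (C.cons (nat_lit 1538) (C.node (nat_lit 3) (nat_lit 7) (nat_lit 10) (C.cons (nat_lit 1736) (C.miq (nat_lit 326543371) (nat_lit 2098753109097003955890753281)) (C.cons (nat_lit 1672) (C.miq (nat_lit 564725815) (nat_lit 1859339808791260672851181961)) (C.cons (nat_lit 1224) (C.miq (nat_lit 326543371) (nat_lit 1479783089454313818441191169)) C.nil)))) C.nil))))) C.nil))))) C.nil)))) C.nil)) (C.cons (nat_lit 1282) (C.node (nat_lit 1) (nat_lit 3) (nat_lit 10) (C.cons (nat_lit 1038) (C.node (nat_lit 1) (nat_lit 5) (nat_lit 10) (C.cons (nat_lit 1570) (C.miq (nat_lit 1512345904) (nat_lit 1262128904743018381199606283)) (C.cons (nat_lit 1058) (C.node (nat_lit 1) (nat_lit 9) (nat_lit 10) C.nil) C.nil))) (C.cons (nat_lit 1034) (C.node (nat_lit 2) (nat_lit 3) (nat_lit 10) (C.cons (nat_lit 1548) (C.node (nat_lit 6) (nat_lit 9) (nat_lit 10) (C.cons (nat_lit 1728) (C.miq (nat_lit 1782282528) (nat_lit 3723533454348732808407351941)) C.nil)) C.nil)) C.nil))) C.nil))) C.nil)))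 C.nil)) (C.cons (nat_lit 3082) (C.miq (nat_lit 2443641778) (nat_lit 1415664033065882956360583197)) (C.cons (nat_lit 3074) (C.node (nat_lit 3) (nat_lit 10) (nat_lit 11) (C.cons (nat_lit 3144) (C.node (nat_lit 6) (nat_lit 7) (nat_lit 10) (C.cons (nat_lit 1728) (C.miq (nat_lit 915454578) (nat_lit 697588512690046877068233860)) (C.cons (nat_lit 1216) (C.node (nat_lit 2) (nat_lit 3) (nat_lit 7) (C.cons (nat_lit 206) (C.miq (nat_lit 2590444338) (nat_lit 1470065695882475508039813149)) (C.cons (nat_lit 204) (C.miq (nat_lit 2590444338) (nat_lit 1470065695882475508039682077)) (C.cons (nat_lit 174) (C.miq (nat_lit 2591099683) (nat_lit 1415661783497040460308678685)) (C.cons (nat_lit 172) (C.miq (nat_lit 732246151) (nat_lit 3752508917508429660022636937)) (C.cons (nat_lit 142) (C.miq (nat_lit 2591099683) (nat_lit 1415661783497040460306581533)) (C.cons (nat_lit 140) (C.node (nat_lit 2) (nat_lit 5) (nat_lit 7) (C.cons (nat_lit 166) (C.node (nat_lit 2) (nat_lit 6)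 (nat_lit 7) (C.cons (nat_lit 196) (C.node (nat_lit 3) (nat_lit 7) (nat_lit 10) (C.cons (nat_lit 1672) (C.node (nat_lit 3) (nat_lit 5) (nat_lit 7) C.nil) C.nil)) C.nil)) (C.cons (nat_lit 164) (C.node (nat_lit 1) (nat_lit 2) (nat_lit 7) (C.cons (nat_lit 198) (C.node (nat_lit 3) (nat_lit 7) (nat_lit 10) (C.cons (nat_lit 1672) (C.node (nat_lit 1) (nat_lit 7) (nat_lit 8) (C.cons (nat_lit 898) (C.miq (nat_lit 2540339488) (nat_lit 1470124650848141574391791879)) C.nil)) C.nil)) (C.cons (nat_lit 134) (C.node (nat_lit 2) (nat_lit 6) (nat_lit 7) (C.cons (nat_lit 196) (C.node (nat_lit 3) (nat_lit 7) (nat_lit 10) (C.cons (nat_lit 1672) (C.node (nat_lit 2) (nat_lit 3) (nat_lit 10) C.nil) C.nil)) C.nil)) C.nil))) C.nil))) C.nil))))))) C.nil))) (C.cons (nat_lit 3080) (C.node (nat_lit 6) (nat_lit 10) (nat_lit 11) (C.cons (nat_lit 3136) (C.ref (nat_lit 252) (nat_lit 198064386771216)) C.nil)) C.nil))) C.nil))))) C.nil)) C.nil))) (C.cons (nat_lit 1072) (C.node (nat_lit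 1) (nat_lit 10) (nat_lit 11) (C.cons (nat_lit 3146) (C.miq (nat_lit 2443641778) (nat_lit 1415664033065883231238490141))
  (C.cons (nat_lit 3138) (C.node (nat_lit 3) (nat_lit 10) (nat_lit 11) (C.cons (nat_lit 3080) (C.node (nat_lit 2) (nat_lit 6) (nat_lit 11) (C.cons (nat_lit 2628) (C.miq (nat_lit 1628027506) (nat_lit 632316682585150273439992964)) (C.cons (nat_lit 2116) (C.node (nat_lit 1) (nat_lit 8) (nat_lit 10) (C.cons (nat_lit 1290) (C.node (nat_lit 6) (nat_lit 8) (nat_lit 10) (C.cons (nat_lit 1344) (C.node (nat_lit 1) (nat_lit 7) (nat_lit 11) (C.cons (nat_lit 2690) (C.miq (nat_lit 2456514721) (nat_lit 2558136656227669666955396243)) (C.cons (nat_lit 2186) (C.miq (nat_lit 1631042176) (nat_lit 2642753772010132935170133761)) (C.cons (nat_lit 2178) (C.node (nat_lit 1) (nat_lit 7) (nat_lit 8) (C.cons (nat_lit 962) (C.miq (nat_lit 929136826) (nat_lit 1163010434879757779902533377)) (C.cons (nat_lit 898) (C.miq (nat_lit 1963559473) (nat_lit 678223950385313698825307402))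 (C.cons (nat_lit 450) (C.miq (nat_lit 929136826) (nat_lit 544040415237067642452971265)) (C.cons (nat_lit 386) (C.node (nat_lit 1) (nat_lit 9) (nat_lit 10) (C.cons (nat_lit 1574) (C.miq (nat_lit 2544967786) (nat_lit 2633069470477395483988984901)) (C.cons (nat_lit 1570) (C.miq (nat_lit 1460250673) (nat_lit 779786115444957196101289226)) (C.cons (nat_lit 1542) (C.miq (nat_lit 2544967786) (nat_lit 2633068880181585125283333189)) (C.cons (nat_lit 1538) (C.node (nat_lit 2) (nat_lit 6) (nat_lit 7) (C.cons (nat_lit 206) (C.miq (nat_lit 698446006) (nat_lit 1859331710778146712019142881)) (C.cons (nat_lit 204) (C.miq (nat_lit 326543371) (nat_lit 246678753447392060240891649)) (C.cons (nat_lit 198) (C.miq (nat_lit 929136826) (nat_lit 239391108694181090427014913)) (C.cons (nat_lit 196) (C.node (nat_lit 1) (nat_lit 6) (nat_lit 7) (C.cons (nat_lit 706) (C.miq (nat_lit 929136826) (nat_lit 853525425058412711177752321)) (C.cons (nat_lit 202) (C.node (nat_lit 3) (nat_lit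 7) (nat_lit 10) (C.cons (nat_lit 1672) (C.miq (nat_lit 657525160) (nat_lit 244207867237405020150959873)) C.nil)) (C.cons (nat_lit 194) (C.miq (nat_lit 929136826) (nat_lit 234555405415722573728190209)) C.nil)))) C.nil))))) C.nil))))) C.nil))))) C.nil)))) C.nil)) (C.cons (nat_lit 1282) (C.node (nat_lit 1) (nat_lit 3) (nat_lit 10) (C.cons (nat_lit 1038) (C.node (nat_lit 1) (nat_lit 5) (nat_lit 10) (C.cons (nat_lit 1570) (C.miq (nat_lit 1512345904) (nat_lit 1262128904743018381199606283)) (C.cons (nat_lit 1058) (C.node (nat_lit 1) (nat_lit 9) (nat_lit 10) (C.cons (nat_lit 1538) (C.node (nat_lit 2) (nat_lit 5) (nat_lit 10) (C.cons (nat_lit 1572) (C.node (nat_lit 5) (nat_lit 6) (nat_lit 10) C.nil) C.nil)) C.nil)) C.nil))) (C.cons (nat_lit 1034) (C.node (nat_lit 2) (nat_lit 3) (nat_lit 10) (C.cons (nat_lit 1548) (C.node (nat_lit 5) (nat_lit 6) (nat_lit 10) (C.cons (nat_lit 1632) (C.miq (nat_lit 2461442821) (nat_lit 2558117139826615812410639401)) (C.cons (nat_lit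 1120) (C.node (nat_lit 7) (nat_lit 9) (nat_lit 10) (C.cons (nat_lit 1728) (C.miq (nat_lit 1782282528) (nat_lit 3723533454348732808407351941)) C.nil)) C.nil))) (C.cons (nat_lit 1036) (C.node (nat_lit 3) (nat_lit 8) (nat_lit 10) (C.cons (nat_lit 1352) (C.node (nat_lit 6) (nat_lit 8) (nat_lit 11) (C.cons (nat_lit 2368) (C.node (nat_lit 3) (nat_lit 4) (nat_lit 10) (C.cons (nat_lit 1560) (C.node (nat_lit 3) (nat_lit 7) (nat_lit 10) C.nil) C.nil)) C.nil)) (C.cons (nat_lit 1288) (C.node (nat_lit 6) (nat_lit 8) (nat_lit 10) (C.cons (nat_lit 1344) (C.node (nat_lit 5) (nat_lit 6) (nat_lit 10) C.nil) C.nil)) C.nil))) C.nil))) C.nil))) C.nil))) C.nil))) C.nil)) (C.cons (nat_lit 3082) (C.miq (nat_lit 2443641778) (nat_lit 1415664033065882956360583197)) (C.cons (nat_lit 3074) (C.node (nat_lit 3) (nat_lit 10) (nat_lit 11) (C.cons (nat_lit 3144) (C.node (nat_lit 6) (nat_lit 7) (nat_lit 10) (C.cons (nat_lit 1728) (C.miq (nat_lit 915454578) (nat_lit 697588512690046877068233860))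 (C.cons (nat_lit 1216) (C.node (nat_lit 2) (nat_lit 3) (nat_lit 7) (C.cons (nat_lit 206) (C.miq (nat_lit 2590444338) (nat_lit 1470065695882475508039813149)) (C.cons (nat_lit 204)
  (C.miq (nat_lit 2590444338) (nat_lit 1470065695882475508039682077)) (C.cons (nat_lit 174) (C.miq (nat_lit 2591099683) (nat_lit 1415661783497040460308678685)) (C.cons (nat_lit 172) (C.miq (nat_lit 732246151) (nat_lit 3752508917508429660022636937)) (C.cons (nat_lit 142) (C.miq (nat_lit 2591099683) (nat_lit 1415661783497040460306581533)) (C.cons (nat_lit 140) (C.node (nat_lit 2) (nat_lit 5) (nat_lit 7) (C.cons (nat_lit 166) (C.node (nat_lit 2) (nat_lit 6) (nat_lit 7) (C.cons (nat_lit 196) (C.node (nat_lit 2) (nat_lit 5) (nat_lit 11) (C.cons (nat_lit 2596) (C.miq (nat_lit 1193609913) (nat_lit 200692035009074753033211649)) (C.cons (nat_lit 2084) (C.node (nat_lit 2) (nat_lit 5) (nat_lit 10) (C.cons (nat_lit 1572) (C.node (nat_lit 3) (nat_lit 4) (nat_lit 10) (C.cons (nat_lit 1560)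 (C.miq (nat_lit 1788195648) (nat_lit 1900473318768440631412983837)) (C.cons (nat_lit 1048) (C.node (nat_lit 1) (nat_lit 2) (nat_lit 10) (C.cons (nat_lit 1038) (C.node (nat_lit 3) (nat_lit 8) (nat_lit 10) C.nil) C.nil)) C.nil))) (C.cons (nat_lit 1060) (C.node (nat_lit 2) (nat_lit 9) (nat_lit 10) (C.cons (nat_lit 1548) (C.miq (nat_lit 1663548048) (nat_lit 169291545080291601699639041)) (C.cons (nat_lit 1542) (C.miq (nat_lit 2455478640) (nat_lit 2519472262454909445676795027)) (C.cons (nat_lit 1540) (C.node (nat_lit 1) (nat_lit 2) (nat_lit 10) C.nil) C.nil)))) C.nil))) C.nil))) C.nil)) (C.cons (nat_lit 164) (C.node (nat_lit 1) (nat_lit 2) (nat_lit 7) (C.cons (nat_lit 198) (C.node (nat_lit 1) (nat_lit 7) (nat_lit 8) (C.cons (nat_lit 898) (C.miq (nat_lit 2540339488) (nat_lit 1470124650848141574391791879)) (C.cons (nat_lit 386) (C.node (nat_lit 2) (nat_lit 6) (nat_lit 11) (C.cons (nat_lit 2628) (C.miq (nat_lit 448163986) (nat_lit 3800866429653344414637228677))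 (C.cons (nat_lit 2116) (C.node (nat_lit 6) (nat_lit 8) (nat_lit 10) (C.cons (nat_lit 1346) (C.miq (nat_lit 907197056) (nat_lit 239405627056100779152051969)) (C.cons (nat_lit 1344) (C.node (nat_lit 6) (nat_lit 8) (nat_lit 11) (C.cons (nat_lit 2370) (C.miq (nat_lit 2551319399) (nat_lit 317959389789730580239616225)) (C.cons (nat_lit 2368) (C.node (nat_lit 6) (nat_lit 7) (nat_lit 8) (C.cons (nat_lit 448) (C.node (nat_lit 7) (nat_lit 8) (nat_lit 9) C.nil) C.nil)) C.nil))) C.nil))) C.nil))) C.nil))) (C.cons (nat_lit 134) (C.node (nat_lit 2) (nat_lit 6) (nat_lit 7) (C.cons (nat_lit 196) (C.node (nat_lit 3) (nat_lit 4) (nat_lit 10) (C.cons (nat_lit 1560) (C.node (nat_lit 3) (nat_lit 7) (nat_lit 10) (C.cons (nat_lit 1160) (C.node (nat_lit 4) (nat_lit 6) (nat_lit 10) C.nil) C.nil)) (C.cons (nat_lit 1048) (C.node (nat_lit 3) (nat_lit 7) (nat_lit 10) (C.cons (nat_lit 1672) (C.node (nat_lit 2) (nat_lit 3) (nat_lit 10) C.nil) (C.cons (nat_lit 1160) (C.node (nat_lit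 7) (nat_lit 9) (nat_lit 10) C.nil) C.nil))) C.nil))) C.nil)) C.nil))) C.nil))) C.nil))))))) C.nil))) (C.cons (nat_lit 3080) (C.node (nat_lit 6) (nat_lit 10) (nat_lit 11) (C.cons (nat_lit 3136) (C.ref (nat_lit 253) (nat_lit 198064386771216)) C.nil)) C.nil))) C.nil))))) C.nil))) C.nil)))) C.nil))) C.nil))) List.nil)

theorem ok12_304 : okL par12 (nat_lit 305) c12_304 (nat_lit 304) = true := by decide +kernel

noncomputable def c12_305 : List C :=
  (List.cons (C.node (nat_lit 3) (nat_lit 9) (nat_lit 11) (C.cons (nat_lit 2600) (C.node (nat_lit 4) (nat_lit 9) (nat_lit 11) (C.cons (nat_lit 2642) (C.miq (nat_lit 991582528) (nat_lit 3716257616009654870547300913)) (C.cons (nat_lit 2640) (C.miq (nat_lit 1678424403) (nat_lit 1415710132075194854473796136)) (C.cons (nat_lit 2578) (C.miq (nat_lit 991582528) (nat_lit 3716257616009654595669393969)) (C.cons (nat_lit 2576) (C.node (nat_lit 1) (nat_lit 3) (nat_lit 11) (C.cons (nat_lit 2314) (C.node (nat_lit 6) (nat_lit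 8) (nat_lit 11) (C.cons (nat_lit 2368) (C.node (nat_lit 4) (nat_lit 8) (nat_lit 11) (C.cons (nat_lit 2352) (C.miq (nat_lit 2214704531) (nat_lit 1415694821196548882217765416)) C.nil)) C.nil)) (C.cons (nat_lit 2058) (C.node (nat_lit 3) (nat_lit 8) (nat_lit 11) C.nil) C.nil))) C.nil))))) (C.cons (nat_lit 2568) (C.node (nat_lit 6) (nat_lit 8) (nat_lit 11) (C.cons (nat_lit 2370) (C.node (nat_lit 1) (nat_lit 3) (nat_lit 11) (C.cons (nat_lit 2090) (C.node (nat_lit 3) (nat_lit 8) (nat_lit 11) (C.cons (nat_lit 2312) (C.node (nat_lit 2) (nat_lit 5) (nat_lit 11) (C.cons (nat_lit 2596) (C.miq (nat_lit 1537512048) (nat_lit 3733173280324123043243950725)) C.nil)) C.nil)) (C.cons (nat_lit 2058) (C.node (nat_lit 2) (nat_lit 6) (nat_lit 11) (C.cons (nat_lit 2628) (C.node (nat_lit 4) (nat_lit 6) (nat_lit 11) C.nil) C.nil)) C.nil))) (C.cons (nat_lit 2368) (C.node (nat_lit 1) (nat_lit 3) (nat_lit 10) (C.cons (nat_lit 1290) (C.miq (nat_lit 665323825) (nat_lit 1702172405692647804846604811))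 (C.cons (nat_lit 1038) (C.node (nat_lit 3) (nat_lit 8) (nat_lit 10) (C.cons (nat_lit 1288) (C.node (nat_lit 1) (nat_lit 3) (nat_lit 11) (C.cons (nat_lit 2346) (C.miq (nat_lit 1662167936) (nat_lit 1254885163936225050673745665)) (C.cons (nat_lit 2314) (C.miq (nat_lit 1662167936) (nat_lit 1254885163936224913234792193)) (C.cons (nat_lit 2090) (C.miq (nat_lit 1344386723) (nat_lit 317986044893558842441206856)) (C.cons (nat_lit 2058) (C.node (nat_lit 3) (nat_lit 5) (nat_lit 11) C.nil) C.nil))))) C.nil)) (C.cons (nat_lit 1034) (C.node (nat_lit 2) (nat_lit 3) (nat_lit 10) (C.cons (nat_lit 1292) (C.node (nat_lit 3) (nat_lit 8) (nat_lit 11) (C.cons (nat_lit 2346) (C.miq (nat_lit 683058000) (nat_lit 2862756503502390196296549417)) (C.cons (nat_lit 2344) (C.miq (nat_lit 683058000) (nat_lit 2862756503502390187706614825)) (C.cons (nat_lit 2314) (C.miq (nat_lit 1796252546) (nat_lit 2479527019205844267212145932)) (C.cons (nat_lit 2312) (C.node (nat_lit 1) (nat_lit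 3) (nat_lit 11) C.nil) C.nil))))) (C.cons (nat_lit 1036) (C.node (nat_lit 3) (nat_lit 8) (nat_lit 10) (C.cons (nat_lit 1288) (C.node (nat_lit 4) (nat_lit 6) (nat_lit 10) C.nil) C.nil)) C.nil))) C.nil)))) C.nil))) C.nil))) List.nil)

theorem ok12_305 : okL par12 (nat_lit 306) c12_305 (nat_lit 305) = true := by decide +kernel

noncomputable def c12_306 : List C :=
  (List.cons (C.node (nat_lit 2) (nat_lit 8) (nat_lit 11) (C.cons (nat_lit 2372) (C.miq (nat_lit 1203243558) (nat_lit 2940113810185151951963161669)) (C.cons (nat_lit 2340) (C.ref (nat_lit 303) (nat_lit 205163983024656)) (C.cons (nat_lit 2308) (C.node (nat_lit 5) (nat_lit 7) (nat_lit 10) (C.cons (nat_lit 1696) (C.miq (nat_lit 1521784608) (nat_lit 3733173280070795564263735941)) (C.cons (nat_lit 1440) (C.node (nat_lit 2) (nat_lit 8) (nat_lit 10) (C.cons (nat_lit 1300) (C.miq (nat_lit 1739066148) (nat_lit 1740859397437625234919524381)) (C.cons (nat_lit 1292) (C.miq (nat_lit 1512798256) (nat_lit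 3873440255899880933266620809)) (C.cons (nat_lit 1284) (C.node (nat_lit 4) (nat_lit 8) (nat_lit 10) (C.cons (nat_lit 1304) (C.miq (nat_lit 1514895408) (nat_lit 3733204860824584000540311945)) (C.cons (nat_lit 1296) (C.node (nat_lit 4) (nat_lit 5) (nat_lit 7) (C.cons (nat_lit 184) (C.miq (nat_lit 1269117063) (nat_lit 3752509138869358544537256329)) (C.cons (nat_lit 180) (C.miq (nat_lit 2591361828) (nat_lit 1740863529949650509267994653)) (C.cons (nat_lit 176) (C.node (nat_lit 2) (nat_lit 4) (nat_lit 7) (C.cons (nat_lit 404) (C.node (nat_lit 2) (nat_lit 4) (nat_lit 10) (C.cons (nat_lit 1556) (C.miq (nat_lit 1461980073) (nat_lit 488416380387541920880267009)) (C.cons (nat_lit 1076) (C.node (nat_lit 1) (nat_lit 10) (nat_lit 11) (C.cons (nat_lit 3146) (C.miq (nat_lit 2443641778) (nat_lit 1415664033065883231238490141)) (C.cons (nat_lit 3138) (C.node (nat_lit 3) (nat_lit 10) (nat_lit 11) (C.cons (nat_lit 3080) (C.node (nat_lit 2) (nat_lit 6) (nat_lit 11) (C.cons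 (nat_lit 2628) (C.miq (nat_lit 1628027506) (nat_lit 632316682585150273439992964)) (C.cons (nat_lit 2116) (C.node (nat_lit 1) (nat_lit 5) (nat_lit 10) (C.cons (nat_lit 1570) (C.node (nat_lit 5) (nat_lit 6) (nat_lit 10) (C.cons (nat_lit 1120) (C.node (nat_lit 1) (nat_lit 2) (nat_lit 10) (C.cons (nat_lit 1038) (C.node (nat_lit 1) (nat_lit 8) (nat_lit 10) (C.cons (nat_lit 1282) (C.node (nat_lit 2) (nat_lit 9) (nat_lit 10) (C.cons (nat_lit 1540) (C.node (nat_lit 5) (nat_lit 7) (nat_lit 9) (C.cons (nat_lit 680) (C.miq (nat_lit 359897728) (nat_lit 822079205427020287110090497)) (C.cons (nat_lit 672) (C.node (nat_lit 1) (nat_lit 5) (nat_lit 7) (C.cons (nat_lit 170) (C.node (nat_lit 1) (nat_lit 2) (nat_lit 7) (C.cons (nat_lit 198) (C.miq (nat_lit 2584873831) (nat_lit 1254876899991071489171785953)) (C.cons (nat_lit 134) (C.miq (nat_lit 1645677109) (nat_lit 162037989585296458953393193)) C.nil))) (C.cons (nat_lit 166) (C.miq (nat_lit 827787688) (nat_lit 200688935773667566867713793))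 (C.cons (nat_lit 162) (C.miq (nat_lit 827787688) (nat_lit 195853232495209050168889089)) C.nil)))) C.nil))) C.nil)) C.nil)) (C.cons (nat_lit 1030) (C.miq (nat_lit 832702804) (nat_lit 1245231908237727300674912817)) C.nil))) C.nil)) (C.cons (nat_lit 1058) (C.node (nat_lit 1) (nat_lit 9) (nat_lit 10) (C.cons (nat_lit 1542) (C.miq (nat_lit 369732466) (nat_lit 697578643680280933355031684)) (C.cons (nat_lit 1538) (C.node (nat_lit 1) (nat_lit 2) (nat_lit 10) (C.cons (nat_lit 1038) (C.miq (nat_lit 1511604784) (nat_lit 1859338259493596554907551773)) (C.cons (nat_lit 1030) (C.node (nat_lit 1) (nat_lit 3) (nat_lit 10) (C.cons (nat_lit 1290) (C.node (nat_lit 6) (nat_lit 8) (nat_lit 10) (C.cons (nat_lit 1344) (C.node (nat_lit 1) (nat_lit 7) (nat_lit 11) (C.cons (nat_lit 2690) (C.miq (nat_lit 2443344736) (nat_lit 1245205493110176757638826209)) (C.cons (nat_lit 2186) (C.miq (nat_lit 1631042176) (nat_lit 2642753772010132935170133761)) (C.cons (nat_lit 2178) (C.node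 (nat_lit 1) (nat_lit 7) (nat_lit 8) (C.cons (nat_lit 962) (C.miq (nat_lit 929136826) (nat_lit 1163010434879757779902533377)) (C.cons (nat_lit 898) (C.miq (nat_lit 1125654679) (nat_lit 1559521760372103186984600197)) (C.cons (nat_lit 450) (C.miq (nat_lit 929136826) (nat_lit 544040415237067642452971265)) (C.cons (nat_lit 386) (C.node (nat_lit 2) (nat_lit 6) (nat_lit 7) (C.cons (nat_lit 206) (C.miq (nat_lit 2584873831) (nat_lit 1245205493434154455774660833)) (C.cons (nat_lit 204)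
  (C.miq (nat_lit 326543371) (nat_lit 246678753447392060240891649)) (C.cons (nat_lit 198) (C.miq (nat_lit 929136826) (nat_lit 239391108694181090427014913)) (C.cons (nat_lit 196) (C.node (nat_lit 1) (nat_lit 6) (nat_lit 7) (C.cons (nat_lit 706) (C.miq (nat_lit 929136826) (nat_lit 853525425058412711177752321)) (C.cons (nat_lit 202) (C.node (nat_lit 1) (nat_lit 2) (nat_lit 3) (C.cons (nat_lit 46) (C.miq (nat_lit 2184541194) (nat_lit 55637151127463895098786963)) (C.cons (nat_lit 14) (C.node (nat_lit 2) (nat_lit 3) (nat_lit 7) (C.cons (nat_lit 172) (C.miq (nat_lit 2184541194) (nat_lit 207961804398907171111765139)) (C.cons (nat_lit 140) (C.node (nat_lit 3) (nat_lit 4) (nat_lit 7) (C.cons (nat_lit 664) (C.miq (nat_lit 2541827104) (nat_lit 466655014205298531251980317)) (C.cons (nat_lit 152) (C.node (nat_lit 3) (nat_lit 7) (nat_lit 10) (C.cons (nat_lit 1672) (C.miq (nat_lit 1930599040) (nat_lit 16936860095164052691947265)) (C.cons (nat_lit 1160) (C.node (nat_lit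 1) (nat_lit 2) (nat_lit 7) C.nil) C.nil))) C.nil))) C.nil))) C.nil))) (C.cons (nat_lit 194) (C.miq (nat_lit 929136826) (nat_lit 234555405415722573728190209)) C.nil)))) C.nil))))) C.nil))))) C.nil)))) C.nil)) (C.cons (nat_lit 1034) (C.node (nat_lit 1) (nat_lit 8) (nat_lit 10) (C.cons (nat_lit 1282) (C.node (nat_lit 2) (nat_lit 3) (nat_lit 10) (C.cons (nat_lit 1548) (C.node (nat_lit 5) (nat_lit 6) (nat_lit 10) (C.cons (nat_lit 1632) (C.miq (nat_lit 2461442821) (nat_lit 2558117139826615812410639401)) C.nil)) C.nil)) C.nil)) C.nil))) C.nil))) C.nil))) C.nil))) C.nil))) C.nil)) (C.cons (nat_lit 3082) (C.miq (nat_lit 2443641778) (nat_lit 1415664033065882956360583197)) (C.cons (nat_lit 3074) (C.node (nat_lit 3) (nat_lit 10) (nat_lit 11) (C.cons (nat_lit 3144) (C.node (nat_lit 6) (nat_lit 7) (nat_lit 10) (C.cons (nat_lit 1728) (C.miq (nat_lit 915454578) (nat_lit 697588512690046877068233860)) (C.cons (nat_lit 1216) (C.node (nat_lit 2) (nat_lit 3) (nat_lit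 7) (C.cons (nat_lit 206) (C.miq (nat_lit 2590444338) (nat_lit 1470065695882475508039813149)) (C.cons (nat_lit 204) (C.miq (nat_lit 2590444338) (nat_lit 1470065695882475508039682077)) (C.cons (nat_lit 174) (C.miq (nat_lit 2591099683) (nat_lit 1415661783497040460308678685)) (C.cons (nat_lit 172) (C.miq (nat_lit 2184541194) (nat_lit 207961804398907171111765139)) (C.cons (nat_lit 142) (C.miq (nat_lit 2591099683) (nat_lit 1415661783497040460306581533)) (C.cons (nat_lit 140) (C.node (nat_lit 2) (nat_lit 5) (nat_lit 7) (C.cons (nat_lit 166) (C.node (nat_lit 2) (nat_lit 6) (nat_lit 7) (C.cons (nat_lit 196) (C.node (nat_lit 2) (nat_lit 5) (nat_lit 11) (C.cons (nat_lit 2596) (C.miq (nat_lit 1918151568) (nat_lit 1300825783944508281021599489)) (C.cons (nat_lit 2084) (C.node (nat_lit 2) (nat_lit 9) (nat_lit 10) (C.cons (nat_lit 1548) (C.miq (nat_lit 1663548048) (nat_lit 169291545080291601699639041)) (C.cons (nat_lit 1542) (C.miq (nat_lit 2455478640) (nat_lit 2519472262454909445676795027))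 (C.cons (nat_lit 1540) (C.node (nat_lit 2) (nat_lit 3) (nat_lit 5) (C.cons (nat_lit 876) (C.miq (nat_lit 829788328) (nat_lit 200697845551053454889193217)) (C.cons (nat_lit 812) (C.miq (nat_lit 829788328) (nat_lit 200696664959432737477889793)) (C.cons (nat_lit 620) (C.miq (nat_lit 2184541194) (nat_lit 749560571586261041380131987)) (C.cons (nat_lit 556) (C.miq (nat_lit 2184541194) (nat_lit 672189319130924774198936723)) (C.cons (nat_lit 364) (C.miq (nat_lit 310670688) (nat_lit 488427632308346909990389985)) (C.cons (nat_lit 300) (C.node (nat_lit 1) (nat_lit 2) (nat_lit 10) (C.cons (nat_lit 1038) (C.miq (nat_lit 2502100129) (nat_lit 362687393689451385894864019)) (C.cons (nat_lit 1030) (C.node (nat_lit 2) (nat_lit 3) (nat_lit 10) (C.cons (nat_lit 1036) (C.node (nat_lit 1) (nat_lit 3) (nat_lit 10) (C.cons (nat_lit 1290) (C.node (nat_lit 6) (nat_lit 8) (nat_lit 10) C.nil) C.nil)) C.nil)) C.nil))) (C.cons (nat_lit 108) (C.miq (nat_lit 2184541194) (nat_lit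 130590551943570903930569875)) (C.cons (nat_lit 44)
  (C.miq (nat_lit 2184541194) (nat_lit 53219299488234636749374611)) C.nil))))))))) C.nil)))) C.nil))) C.nil)) (C.cons (nat_lit 164) (C.node (nat_lit 1) (nat_lit 2) (nat_lit 7) (C.cons (nat_lit 198) (C.node (nat_lit 1) (nat_lit 7) (nat_lit 8) (C.cons (nat_lit 898) (C.miq (nat_lit 2540339488) (nat_lit 1470124650848141574391791879)) (C.cons (nat_lit 386) (C.node (nat_lit 2) (nat_lit 6) (nat_lit 11) (C.cons (nat_lit 2628) (C.miq (nat_lit 448163986) (nat_lit 3800866429653344414637228677)) (C.cons (nat_lit 2116) (C.node (nat_lit 6) (nat_lit 8) (nat_lit 10) (C.cons (nat_lit 1346) (C.miq (nat_lit 907197056) (nat_lit 239405627056100779152051969)) (C.cons (nat_lit 1344) (C.node (nat_lit 6) (nat_lit 8) (nat_lit 11) (C.cons (nat_lit 2370) (C.miq (nat_lit 2551319399) (nat_lit 317959389789730580239616225)) (C.cons (nat_lit 2368) (C.node (nat_lit 2) (nat_lit 9) (nat_lit 10) (C.cons (nat_lit 1548) (C.miq (nat_lit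 1663548048) (nat_lit 169291545080291601699639041)) (C.cons (nat_lit 1542) (C.miq (nat_lit 2456527216) (nat_lit 2558157888682577716706346131)) (C.cons (nat_lit 1540) (C.node (nat_lit 7) (nat_lit 9) (nat_lit 11) (C.cons (nat_lit 2696) (C.miq (nat_lit 1668459408) (nat_lit 169269777922289555051187969)) (C.cons (nat_lit 2690) (C.miq (nat_lit 313095691) (nat_lit 1861795384003823947781048545)) (C.cons (nat_lit 2688) (C.node (nat_lit 3) (nat_lit 8) (nat_lit 11) (C.cons (nat_lit 2346) (C.miq (nat_lit 824621066) (nat_lit 239425309507405744433336065)) (C.cons (nat_lit 2344) (C.miq (nat_lit 896841888) (nat_lit 212809258799399359726423809)) (C.cons (nat_lit 2314) (C.miq (nat_lit 824621066) (nat_lit 239425309498398545178595073)) (C.cons (nat_lit 2312) (C.node (nat_lit 2) (nat_lit 8) (nat_lit 9) (C.cons (nat_lit 876) (C.miq (nat_lit 2440572994) (nat_lit 466661525866271873256654877)) (C.cons (nat_lit 868) (C.miq (nat_lit 897714804) (nat_lit 1049385925612716253359899795))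 (C.cons (nat_lit 844) (C.miq (nat_lit 2440572994) (nat_lit 466660935570461514551003165)) (C.cons (nat_lit 836) (C.miq (nat_lit 445018258) (nat_lit 1624799954347011900048671365)) (C.cons (nat_lit 812) (C.miq (nat_lit 2440572994) (nat_lit 466660345274651155845351453)) (C.cons (nat_lit 804) (C.miq (nat_lit 897714804) (nat_lit 972014673157379986178704531)) (C.cons (nat_lit 780) (C.miq (nat_lit 2440572994) (nat_lit 466659754978840797139699741)) (C.cons (nat_lit 772) (C.node (nat_lit 1) (nat_lit 2) (nat_lit 11) C.nil) C.nil))))))))) C.nil))))) C.nil)))) C.nil)))) C.nil))) C.nil))) C.nil))) C.nil))) (C.cons (nat_lit 134) (C.node (nat_lit 2) (nat_lit 6) (nat_lit 7) (C.cons (nat_lit 196) (C.node (nat_lit 3) (nat_lit 4) (nat_lit 10) (C.cons (nat_lit 1560) (C.node (nat_lit 3) (nat_lit 7) (nat_lit 10) (C.cons (nat_lit 1160) (C.node (nat_lit 4) (nat_lit 6) (nat_lit 10) (C.cons (nat_lit 1104) (C.node (nat_lit 7) (nat_lit 9) (nat_lit 10) (C.cons (nat_lit 1664) (C.node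 (nat_lit 2) (nat_lit 3) (nat_lit 10) (C.cons (nat_lit 1038) (C.miq (nat_lit 620864659) (nat_lit 42331551709730016080889368)) C.nil)) C.nil)) C.nil)) C.nil)) (C.cons (nat_lit 1048) (C.node (nat_lit 3) (nat_lit 7) (nat_lit 10) (C.cons (nat_lit 1672) (C.node (nat_lit 2) (nat_lit 9) (nat_lit 10) (C.cons (nat_lit 1542) (C.miq (nat_lit 2049456400) (nat_lit 1552268002426237612093538827)) (C.cons (nat_lit 1540) (C.node (nat_lit 3) (nat_lit 5) (nat_lit 7) (C.cons (nat_lit 170) (C.miq (nat_lit 277166503) (nat_lit 349382697962348271997290120)) (C.cons (nat_lit 168) (C.node (nat_lit 1) (nat_lit 5) (nat_lit 7) (C.cons (nat_lit 674) (C.node (nat_lit 7) (nat_lit 9) (nat_lit 11) C.nil) C.nil)) C.nil))) C.nil))) (C.cons (nat_lit 1160) (C.node (nat_lit 7) (nat_lit 9) (nat_lit 10) (C.cons (nat_lit 1664) (C.node (nat_lit 3) (nat_lit 9) (nat_lit 10) (C.cons (nat_lit 1548) (C.miq (nat_lit 1663548048) (nat_lit 169291545080291601699639041)) C.nil)) C.nil)) C.nil))) C.nil)))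 C.nil)) C.nil))) C.nil))) C.nil))))))) C.nil))) (C.cons (nat_lit 3080) (C.node (nat_lit 6) (nat_lit 10) (nat_lit 11) (C.cons (nat_lit 3136)
  (C.ref (nat_lit 251) (nat_lit 198064386771216)) C.nil)) C.nil))) C.nil))))) (C.cons (nat_lit 1044) (C.node (nat_lit 2) (nat_lit 3) (nat_lit 8) (C.cons (nat_lit 876) (C.miq (nat_lit 1380614919) (nat_lit 1262145119235720000469926281)) (C.cons (nat_lit 844) (C.miq (nat_lit 1478731584) (nat_lit 1020353037942511225890735251)) (C.cons (nat_lit 812) (C.miq (nat_lit 1380614919) (nat_lit 1262145119217705601960444297)) (C.cons (nat_lit 780) (C.miq (nat_lit 1478731584) (nat_lit 942981785487174958709539987)) (C.cons (nat_lit 364) (C.miq (nat_lit 1380614919) (nat_lit 1262145119091604812394070409)) (C.cons (nat_lit 332) (C.miq (nat_lit 1478731584) (nat_lit 401383018299821088441173139)) (C.cons (nat_lit 300) (C.miq (nat_lit 1380614919) (nat_lit 1262145119073590413884588425)) (C.cons (nat_lit 268) (C.miq (nat_lit 1478731584)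 (nat_lit 324011765844484821259977875)) C.nil))))))))) C.nil)))) (C.cons (nat_lit 212) (C.miq (nat_lit 1218601143) (nat_lit 1552264663189801051078527201)) (C.cons (nat_lit 148) (C.ref (nat_lit 304) (nat_lit 205163983024656)) C.nil)))) C.nil)))) C.nil))) C.nil)))) (C.cons (nat_lit 1184) (C.node (nat_lit 7) (nat_lit 8) (nat_lit 10) (C.cons (nat_lit 1472) (C.miq (nat_lit 2276747808) (nat_lit 2649971613562364918004253765)) (C.cons (nat_lit 1408) (C.node (nat_lit 1) (nat_lit 10) (nat_lit 11) (C.cons (nat_lit 3146) (C.miq (nat_lit 2443641778) (nat_lit 1415664033065883231238490141)) (C.cons (nat_lit 3138) (C.node (nat_lit 3) (nat_lit 10) (nat_lit 11) (C.cons (nat_lit 3080) (C.node (nat_lit 2) (nat_lit 6) (nat_lit 11) (C.cons (nat_lit 2628) (C.miq (nat_lit 1628027506) (nat_lit 632316682585150273439992964)) (C.cons (nat_lit 2116) (C.node (nat_lit 4) (nat_lit 6) (nat_lit 11) (C.cons (nat_lit 2640) (C.node (nat_lit 3) (nat_lit 6) (nat_lit 11) (C.cons (nat_lit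 2376) (C.node (nat_lit 1) (nat_lit 7) (nat_lit 11) (C.cons (nat_lit 2690) (C.miq (nat_lit 649660951) (nat_lit 3191576062240214191213511827)) (C.cons (nat_lit 2186) (C.miq (nat_lit 1668397066) (nat_lit 2642769728229268909144084225)) (C.cons (nat_lit 2178) (C.node (nat_lit 3) (nat_lit 7) (nat_lit 11) (C.cons (nat_lit 2696) (C.miq (nat_lit 2483533443) (nat_lit 1415701867933848870477957448)) (C.cons (nat_lit 2184) (C.node (nat_lit 7) (nat_lit 9) (nat_lit 11) (C.cons (nat_lit 2688) (C.node (nat_lit 3) (nat_lit 9) (nat_lit 11) (C.cons (nat_lit 2600) (C.miq (nat_lit 1400937316) (nat_lit 475118196463819761030072912)) (C.cons (nat_lit 2568) (C.node (nat_lit 1) (nat_lit 3) (nat_lit 11) (C.cons (nat_lit 2090) (C.node (nat_lit 1) (nat_lit 2) (nat_lit 11) C.nil) C.nil)) C.nil))) C.nil)) C.nil))) C.nil)))) (C.cons (nat_lit 2120) (C.node (nat_lit 6) (nat_lit 8) (nat_lit 11) (C.cons (nat_lit 2368) (C.node (nat_lit 1) (nat_lit 7) (nat_lit 11) (C.cons (nat_lit 2690)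 (C.miq (nat_lit 649660951) (nat_lit 3191576062240214191213511827)) (C.cons (nat_lit 2186) (C.node (nat_lit 7) (nat_lit 9) (nat_lit 11) (C.cons (nat_lit 2688) (C.node (nat_lit 3) (nat_lit 9) (nat_lit 11) (C.cons (nat_lit 2600) (C.miq (nat_lit 1094256565) (nat_lit 632278552611492996126869729)) (C.cons (nat_lit 2568) (C.node (nat_lit 3) (nat_lit 5) (nat_lit 11) (C.cons (nat_lit 2344) (C.node (nat_lit 1) (nat_lit 8) (nat_lit 11) C.nil) C.nil)) C.nil))) C.nil)) (C.cons (nat_lit 2178) (C.node (nat_lit 3) (nat_lit 7) (nat_lit 11) (C.cons (nat_lit 2696) (C.node (nat_lit 4) (nat_lit 7) (nat_lit 9) (C.cons (nat_lit 912) (C.miq (nat_lit 961051488) (nat_lit 1102547597817830651133495521)) (C.cons (nat_lit 656) (C.node (nat_lit 7) (nat_lit 9) (nat_lit 10) (C.cons (nat_lit 1728) (C.miq (nat_lit 2258044083) (nat_lit 2089031065959368587787896861)) (C.cons (nat_lit 1664) (C.node (nat_lit 3) (nat_lit 4) (nat_lit 9) (C.cons (nat_lit 1560) (C.miq (nat_lit 2207516598)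 (nat_lit 1885930495262205597912664289)) (C.cons (nat_lit 792) (C.node (nat_lit 3) (nat_lit 4) (nat_lit 10) (C.cons (nat_lit 1112) (C.miq (nat_lit 1934014848) (nat_lit 1344367441619607122932207361)) (C.cons (nat_lit 1048) (C.node (nat_lit 3) (nat_lit 7) (nat_lit 10) (C.cons (nat_lit 1224)
  (C.miq (nat_lit 1181974713) (nat_lit 1479739813124479317594083073)) (C.cons (nat_lit 1160) (C.node (nat_lit 6) (nat_lit 7) (nat_lit 10) (C.cons (nat_lit 1216) (C.node (nat_lit 4) (nat_lit 9) (nat_lit 10) (C.cons (nat_lit 1556) (C.miq (nat_lit 1470696228) (nat_lit 2011662913101974681010047005)) (C.cons (nat_lit 1552) (C.node (nat_lit 3) (nat_lit 4) (nat_lit 7) (C.cons (nat_lit 216) (C.node (nat_lit 2) (nat_lit 6) (nat_lit 7) (C.cons (nat_lit 452) (C.miq (nat_lit 2557887243) (nat_lit 546483170093096849809410077)) (C.cons (nat_lit 198) (C.miq (nat_lit 2606893591) (nat_lit 2558098933535641739505042579)) (C.cons (nat_lit 196) (C.node (nat_lit 1) (nat_lit 2) (nat_lit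 7) (C.cons (nat_lit 174) (C.miq (nat_lit 2591099683) (nat_lit 1415661783497040460308678685)) C.nil)) C.nil)))) (C.cons (nat_lit 184) (C.miq (nat_lit 1731464088) (nat_lit 222448568001648809611890433)) (C.cons (nat_lit 152) (C.miq (nat_lit 1731464088) (nat_lit 183762941773980676021292801)) C.nil)))) C.nil))) C.nil)) C.nil))) C.nil))) (C.cons (nat_lit 536) (C.miq (nat_lit 2207516598) (nat_lit 647990455976825323013540065)) C.nil)))) C.nil))) C.nil))) (C.cons (nat_lit 2184) (C.node (nat_lit 7) (nat_lit 9) (nat_lit 11) C.nil) C.nil))) C.nil)))) C.nil)) C.nil))) (C.cons (nat_lit 2128) (C.node (nat_lit 4) (nat_lit 9) (nat_lit 11) (C.cons (nat_lit 2578) (C.node (nat_lit 2) (nat_lit 9) (nat_lit 11) (C.cons (nat_lit 2596) (C.miq (nat_lit 1537512048) (nat_lit 3733173280324123043243950725)) (C.cons (nat_lit 2564) (C.node (nat_lit 5) (nat_lit 9) (nat_lit 11) (C.cons (nat_lit 2600) (C.miq (nat_lit 991582528) (nat_lit 3793628868464990862850589233)) (C.cons (nat_lit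 2592) (C.node (nat_lit 1) (nat_lit 9) (nat_lit 10) (C.cons (nat_lit 1574) (C.miq (nat_lit 899353108) (nat_lit 3133574038628337526221440147)) (C.cons (nat_lit 1570) (C.miq (nat_lit 899353108) (nat_lit 3133574038628337509041570963)) (C.cons (nat_lit 1542) (C.miq (nat_lit 2065237666) (nat_lit 3116622661756247654825067589)) (C.cons (nat_lit 1538) (C.node (nat_lit 1) (nat_lit 2) (nat_lit 11) (C.cons (nat_lit 2086) (C.node (nat_lit 1) (nat_lit 2) (nat_lit 4) (C.cons (nat_lit 86) (C.miq (nat_lit 2439689248) (nat_lit 3793680076620336328014628893)) (C.cons (nat_lit 22) (C.node (nat_lit 1) (nat_lit 2) (nat_lit 7) (C.cons (nat_lit 206) (C.miq (nat_lit 698446006) (nat_lit 1859331710778146712019142881)) (C.cons (nat_lit 198) (C.miq (nat_lit 698446006) (nat_lit 1859331563204194122342729953)) (C.cons (nat_lit 142) (C.miq (nat_lit 2591099683) (nat_lit 1415661783497040460306581533)) (C.cons (nat_lit 134) (C.node (nat_lit 1) (nat_lit 2) (nat_lit 9) (C.cons (nat_lit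 582) (C.node (nat_lit 1) (nat_lit 2) (nat_lit 3) (C.cons (nat_lit 1038) (C.node (nat_lit 1) (nat_lit 7) (nat_lit 11) (C.cons (nat_lit 2186) (C.miq (nat_lit 1906750240) (nat_lit 3793651152015294649375983645)) (C.cons (nat_lit 2178) (C.node (nat_lit 1) (nat_lit 3) (nat_lit 11) (C.cons (nat_lit 2314) (C.node (nat_lit 3) (nat_lit 5) (nat_lit 11) C.nil) C.nil)) C.nil))) (C.cons (nat_lit 14) (C.node (nat_lit 1) (nat_lit 2) (nat_lit 10) (C.cons (nat_lit 1030) (C.node (nat_lit 1) (nat_lit 3) (nat_lit 10) (C.cons (nat_lit 1290) (C.node (nat_lit 1) (nat_lit 5) (nat_lit 10) (C.cons (nat_lit 1058) (C.node (nat_lit 1) (nat_lit 8) (nat_lit 11) C.nil) C.nil)) (C.cons (nat_lit 1034) (C.node (nat_lit 1) (nat_lit 5) (nat_lit 10) (C.cons (nat_lit 1314) (C.node (nat_lit 1) (nat_lit 8) (nat_lit 9) (C.cons (nat_lit 898) (C.miq (nat_lit 873925528) (nat_lit 1415659384923786330547293953)) C.nil)) C.nil)) C.nil))) C.nil)) C.nil))) (C.cons (nat_lit 518) (C.node (nat_lit 1)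 (nat_lit 2) (nat_lit 6) (C.cons (nat_lit 78) (C.node (nat_lit 1) (nat_lit 2) (nat_lit 10) (C.cons (nat_lit 1030) (C.node (nat_lit 1) (nat_lit 3) (nat_lit 10) (C.cons (nat_lit 1290) (C.miq (nat_lit 1980959656) (nat_lit 94303464140168143236108033)) (C.cons (nat_lit 1034) (C.node (nat_lit 1) (nat_lit 4) (nat_lit 6) (C.cons (nat_lit 114) (C.miq (nat_lit 2705962576) (nat_lit 3116681617793770097361357025)) C.nil)) C.nil))) C.nil))
  (C.cons (nat_lit 70) (C.node (nat_lit 1) (nat_lit 2) (nat_lit 3) (C.cons (nat_lit 1038) (C.node (nat_lit 1) (nat_lit 7) (nat_lit 11) (C.cons (nat_lit 2186) (C.miq (nat_lit 1906750240) (nat_lit 3793651152015294649375983645)) (C.cons (nat_lit 2178) (C.node (nat_lit 1) (nat_lit 3) (nat_lit 7) (C.cons (nat_lit 202) (C.miq (nat_lit 2316503911) (nat_lit 1254872251411564914365040865)) (C.cons (nat_lit 170) (C.miq (nat_lit 1645677109) (nat_lit 162037989585296458953393193)) C.nil))) C.nil))) (C.cons (nat_lit 14) (C.node (nat_lit 1) (nat_lit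 2) (nat_lit 10) C.nil) C.nil))) C.nil))) C.nil))) C.nil))))) C.nil))) (C.cons (nat_lit 2054) (C.node (nat_lit 2) (nat_lit 5) (nat_lit 11) C.nil) C.nil))) C.nil))))) C.nil))) C.nil))) (C.cons (nat_lit 2576) (C.node (nat_lit 6) (nat_lit 8) (nat_lit 11) (C.cons (nat_lit 2376) (C.node (nat_lit 6) (nat_lit 9) (nat_lit 11) (C.cons (nat_lit 2624) (C.node (nat_lit 1) (nat_lit 7) (nat_lit 11) (C.cons (nat_lit 2690) (C.miq (nat_lit 649660951) (nat_lit 3172233249126380124418213011)) (C.cons (nat_lit 2186) (C.miq (nat_lit 1668397066) (nat_lit 2642769728229268909144084225)) (C.cons (nat_lit 2178) (C.node (nat_lit 1) (nat_lit 3) (nat_lit 11) (C.cons (nat_lit 2090) (C.node (nat_lit 2) (nat_lit 5) (nat_lit 11) (C.cons (nat_lit 2596) (C.miq (nat_lit 1537512048) (nat_lit 3733173280324123043243950725)) C.nil)) C.nil)) C.nil)))) C.nil)) (C.cons (nat_lit 2368) (C.node (nat_lit 3) (nat_lit 6) (nat_lit 11) (C.cons (nat_lit 2632) (C.node (nat_lit 7) (nat_lit 9) (nat_lit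 11) (C.cons (nat_lit 2690) (C.miq (nat_lit 649660951) (nat_lit 3181904655683297157815862419)) (C.cons (nat_lit 2688) (C.node (nat_lit 1) (nat_lit 7) (nat_lit 11) (C.cons (nat_lit 2186) (C.node (nat_lit 3) (nat_lit 5) (nat_lit 11) (C.cons (nat_lit 2344) (C.node (nat_lit 1) (nat_lit 8) (nat_lit 11) C.nil) C.nil)) C.nil)) C.nil))) (C.cons (nat_lit 2120) (C.node (nat_lit 6) (nat_lit 9) (nat_lit 11) (C.cons (nat_lit 2624) (C.node (nat_lit 1) (nat_lit 7) (nat_lit 11) C.nil) C.nil)) C.nil))) C.nil))) C.nil))) C.nil))) C.nil))) C.nil)) (C.cons (nat_lit 3082) (C.miq (nat_lit 2443641778) (nat_lit 1415664033065882956360583197)) (C.cons (nat_lit 3074) (C.node (nat_lit 3) (nat_lit 10) (nat_lit 11) (C.cons (nat_lit 3144) (C.node (nat_lit 6) (nat_lit 7) (nat_lit 10) (C.cons (nat_lit 1728) (C.miq (nat_lit 915454578) (nat_lit 697588512690046877068233860)) (C.cons (nat_lit 1216) (C.node (nat_lit 3) (nat_lit 7) (nat_lit 10) (C.cons (nat_lit 1672) (C.node (nat_lit 3)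 (nat_lit 4) (nat_lit 10) (C.cons (nat_lit 1304) (C.node (nat_lit 3) (nat_lit 4) (nat_lit 7) (C.cons (nat_lit 216) (C.miq (nat_lit 2204869744) (nat_lit 3800933631179425541156570259)) (C.cons (nat_lit 184) (C.miq (nat_lit 1537503363) (nat_lit 3733166325810693573168333193)) (C.cons (nat_lit 152) (C.node (nat_lit 4) (nat_lit 6) (nat_lit 10) (C.cons (nat_lit 1616) (C.miq (nat_lit 2517083267) (nat_lit 2747919231395008366271595800)) (C.cons (nat_lit 1136) (C.miq (nat_lit 1984431523) (nat_lit 407415251420348500961395753)) (C.cons (nat_lit 1104) (C.node (nat_lit 4) (nat_lit 9) (nat_lit 10) (C.cons (nat_lit 1556) (C.miq (nat_lit 607623808) (nat_lit 183768623169331841641025281)) (C.cons (nat_lit 1552) (C.node (nat_lit 1) (nat_lit 3) (nat_lit 10) (C.cons (nat_lit 1038) (C.node (nat_lit 3) (nat_lit 7) (nat_lit 11) (C.cons (nat_lit 2186) (C.miq (nat_lit 1729760050) (nat_lit 1415672297699805339050706973)) (C.cons (nat_lit 2184) (C.node (nat_lit 1) (nat_lit 3) (nat_lit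 11) (C.cons (nat_lit 2346) (C.miq (nat_lit 1662167936) (nat_lit 1254885163936225050673745665)) (C.cons (nat_lit 2314) (C.miq (nat_lit 1662167936) (nat_lit 1254885163936224913234792193)) (C.cons (nat_lit 2090) (C.miq (nat_lit 1344386723) (nat_lit 317986044893558842441206856)) (C.cons (nat_lit 2058) (C.node (nat_lit 3) (nat_lit 8) (nat_lit 11) (C.cons (nat_lit 2344) (C.miq (nat_lit 1397209248) (nat_lit 183798654690486122490040065)) (C.cons (nat_lit 2312) (C.node (nat_lit 6) (nat_lit 8) (nat_lit 10) (C.cons (nat_lit 1378)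
  (C.miq (nat_lit 1629726731) (nat_lit 1254922997711226473795096321)) (C.cons (nat_lit 1376) (C.miq (nat_lit 3062105507) (nat_lit 407446315737369658638468137)) (C.cons (nat_lit 1346) (C.miq (nat_lit 1629726731) (nat_lit 1254922997702219274540355329)) (C.cons (nat_lit 1344) (C.node (nat_lit 5) (nat_lit 6) (nat_lit 10) (C.cons (nat_lit 1634) (C.miq (nat_lit 982824528) (nat_lit 1876291186814309918674323681)) (C.cons (nat_lit 1632) (C.miq (nat_lit 982824528) (nat_lit 1876291186814309910084389089)) (C.cons (nat_lit 1122) (C.miq (nat_lit 1362848288) (nat_lit 2488011266532005765537662021)) (C.cons (nat_lit 1120) (C.node (nat_lit 1) (nat_lit 6) (nat_lit 10) (C.cons (nat_lit 1602) (C.node (nat_lit 2) (nat_lit 4) (nat_lit 10) (C.cons (nat_lit 1076) (C.miq (nat_lit 1511604784) (nat_lit 1936709511948932822088747037)) C.nil)) C.nil)) C.nil))))) C.nil))))) C.nil))) C.nil))))) C.nil))) (C.cons (nat_lit 1034) (C.node (nat_lit 2) (nat_lit 3) (nat_lit 10) (C.cons (nat_lit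 1036) (C.node (nat_lit 2) (nat_lit 4) (nat_lit 10) (C.cons (nat_lit 1076) (C.node (nat_lit 2) (nat_lit 8) (nat_lit 10) C.nil) C.nil)) C.nil)) C.nil))) C.nil))) C.nil)))) C.nil)))) (C.cons (nat_lit 1048) (C.node (nat_lit 3) (nat_lit 7) (nat_lit 11) (C.cons (nat_lit 2186) (C.node (nat_lit 7) (nat_lit 9) (nat_lit 11) (C.cons (nat_lit 2688) (C.node (nat_lit 3) (nat_lit 9) (nat_lit 11) (C.cons (nat_lit 2600) (C.miq (nat_lit 1094256565) (nat_lit 632278552611492996126869729)) (C.cons (nat_lit 2568) (C.node (nat_lit 1) (nat_lit 3) (nat_lit 10) (C.cons (nat_lit 1290) (C.miq (nat_lit 657525160) (nat_lit 2642716693352829302768013057)) (C.cons (nat_lit 1038) (C.miq (nat_lit 1729760050) (nat_lit 1415672297699805339050706973)) (C.cons (nat_lit 1034) (C.node (nat_lit 2) (nat_lit 3) (nat_lit 10) (C.cons (nat_lit 1292) (C.node (nat_lit 3) (nat_lit 5) (nat_lit 11) (C.cons (nat_lit 2344) (C.miq (nat_lit 1653279285) (nat_lit 2790242721427501375828788265)) (C.cons (nat_lit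 2088) (C.node (nat_lit 3) (nat_lit 8) (nat_lit 11) (C.cons (nat_lit 2312) (C.node (nat_lit 2) (nat_lit 3) (nat_lit 7) (C.cons (nat_lit 204) (C.miq (nat_lit 2586970983) (nat_lit 1561944058173187325317351649)) (C.cons (nat_lit 172) (C.miq (nat_lit 1537372291) (nat_lit 3873401499525061672918843785)) (C.cons (nat_lit 140) (C.node (nat_lit 6) (nat_lit 8) (nat_lit 10) (C.cons (nat_lit 1378) (C.miq (nat_lit 1480288800) (nat_lit 2795078424786180260872651845)) (C.cons (nat_lit 1376) (C.miq (nat_lit 1480288800) (nat_lit 2795078424785617310919230533)) (C.cons (nat_lit 1346) (C.miq (nat_lit 380668466) (nat_lit 2747893239856622321885054220)) (C.cons (nat_lit 1344) (C.node (nat_lit 1) (nat_lit 8) (nat_lit 10) (C.cons (nat_lit 1314) (C.node (nat_lit 4) (nat_lit 8) (nat_lit 10) C.nil) C.nil)) C.nil))))) C.nil)))) C.nil)) C.nil))) (C.cons (nat_lit 1036) (C.node (nat_lit 3) (nat_lit 8) (nat_lit 10) (C.cons (nat_lit 1288) (C.node (nat_lit 3) (nat_lit 5) (nat_lit 11)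 (C.cons (nat_lit 2344) (C.node (nat_lit 5) (nat_lit 4) (nat_lit 11) (C.cons (nat_lit 2098) (C.miq (nat_lit 1476703089) (nat_lit 407446703138975707923941514)) (C.cons (nat_lit 2096) (C.node (nat_lit 9) (nat_lit 10) (nat_lit 4) (C.cons (nat_lit 1552) (C.node (nat_lit 8) (nat_lit 6) (nat_lit 11) (C.cons (nat_lit 2370) (C.node (nat_lit 8) (nat_lit 4) (nat_lit 11) C.nil) C.nil)) C.nil)) C.nil))) (C.cons (nat_lit 2088) (C.node (nat_lit 3) (nat_lit 8) (nat_lit 11) (C.cons (nat_lit 2312) (C.node (nat_lit 4) (nat_lit 6) (nat_lit 10) C.nil) C.nil)) C.nil))) C.nil)) C.nil))) C.nil)))) C.nil))) C.nil)) (C.cons (nat_lit 2184) (C.node (nat_lit 1) (nat_lit 7) (nat_lit 11) (C.cons (nat_lit 2690) (C.node (nat_lit 3) (nat_lit 9) (nat_lit 11) (C.cons (nat_lit 2600) (C.miq (nat_lit 423263056) (nat_lit 2021345572290149148330100961)) (C.cons (nat_lit 2568) (C.node (nat_lit 5) (nat_lit 9) (nat_lit 11) (C.cons (nat_lit 2596) (C.miq (nat_lit 1537512048) (nat_lit 3733173280324123043243950725))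 (C.cons (nat_lit 2592) (C.node (nat_lit 2) (nat_lit 9) (nat_lit 11) (C.cons (nat_lit 2628)
  (C.miq (nat_lit 459962656) (nat_lit 3800884378762883413758509701)) (C.cons (nat_lit 2564) (C.node (nat_lit 2) (nat_lit 5) (nat_lit 11) (C.cons (nat_lit 2086) (C.node (nat_lit 2) (nat_lit 6) (nat_lit 11) (C.cons (nat_lit 2116) (C.node (nat_lit 1) (nat_lit 3) (nat_lit 11) (C.cons (nat_lit 2314) (C.node (nat_lit 3) (nat_lit 5) (nat_lit 11) C.nil) C.nil)) C.nil)) (C.cons (nat_lit 2084) (C.node (nat_lit 1) (nat_lit 2) (nat_lit 11) (C.cons (nat_lit 2118) (C.node (nat_lit 6) (nat_lit 8) (nat_lit 11) C.nil) C.nil)) C.nil))) C.nil))) C.nil))) C.nil))) (C.cons (nat_lit 2178) (C.node (nat_lit 7) (nat_lit 9) (nat_lit 11) (C.cons (nat_lit 2688) (C.ref (nat_lit 305) (nat_lit 205163983024656)) C.nil)) C.nil))) C.nil))) C.nil))) (C.cons (nat_lit 1160) (C.node (nat_lit 7) (nat_lit 9) (nat_lit 10) (C.cons (nat_lit 1664) (C.node (nat_lit 6) (nat_lit 8) (nat_lit 11) (C.cons (nat_lit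 2370) (C.node (nat_lit 2) (nat_lit 6) (nat_lit 11) (C.cons (nat_lit 2628) (C.node (nat_lit 4) (nat_lit 6) (nat_lit 11) (C.cons (nat_lit 2128) (C.node (nat_lit 3) (nat_lit 9) (nat_lit 11) (C.cons (nat_lit 2696) (C.miq (nat_lit 1670425458) (nat_lit 632288366834692528963652740)) (C.cons (nat_lit 2600) (C.miq (nat_lit 2449847971) (nat_lit 44778217600053857562987592)) (C.cons (nat_lit 2568) (C.node (nat_lit 7) (nat_lit 9) (nat_lit 11) (C.cons (nat_lit 2690) (C.miq (nat_lit 459962656) (nat_lit 3800884378762883413758509701)) (C.cons (nat_lit 2688) (C.node (nat_lit 1) (nat_lit 2) (nat_lit 11) (C.cons (nat_lit 2086) (C.node (nat_lit 5) (nat_lit 9) (nat_lit 11) (C.cons (nat_lit 2592) (C.node (nat_lit 1) (nat_lit 3) (nat_lit 11) (C.cons (nat_lit 2058) (C.node (nat_lit 1) (nat_lit 7) (nat_lit 11) C.nil) C.nil)) C.nil)) (C.cons (nat_lit 2054) (C.node (nat_lit 2) (nat_lit 5) (nat_lit 11) (C.cons (nat_lit 2084) (C.node (nat_lit 1) (nat_lit 7) (nat_lit 11) (C.cons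 (nat_lit 2186) (C.node (nat_lit 3) (nat_lit 5) (nat_lit 11) C.nil) C.nil)) C.nil)) C.nil))) C.nil))) C.nil)))) C.nil)) (C.cons (nat_lit 2116) (C.node (nat_lit 3) (nat_lit 8) (nat_lit 11) (C.cons (nat_lit 2344) (C.node (nat_lit 4) (nat_lit 8) (nat_lit 11) (C.cons (nat_lit 2320) (C.node (nat_lit 3) (nat_lit 9) (nat_lit 11) (C.cons (nat_lit 2696) (C.miq (nat_lit 1670425458) (nat_lit 632288366834692528963652740)) (C.cons (nat_lit 2568) (C.node (nat_lit 6) (nat_lit 8) (nat_lit 10) (C.cons (nat_lit 1376) (C.miq (nat_lit 1756538160) (nat_lit 2790220954349156335255094313)) (C.cons (nat_lit 1344) (C.node (nat_lit 1) (nat_lit 8) (nat_lit 10) (C.cons (nat_lit 1314) (C.miq (nat_lit 414491952) (nat_lit 2804729503013118186140533801)) (C.cons (nat_lit 1290) (C.miq (nat_lit 414688080) (nat_lit 2940129194803201254279414825)) (C.cons (nat_lit 1282) (C.node (nat_lit 3) (nat_lit 8) (nat_lit 10) (C.cons (nat_lit 1304) (C.miq (nat_lit 1487385408) (nat_lit 1702209484126460365920995357))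 (C.cons (nat_lit 1292) (C.miq (nat_lit 1487319840) (nat_lit 1624838231671124047195080733)) (C.cons (nat_lit 1288) (C.node (nat_lit 1) (nat_lit 3) (nat_lit 8) (C.cons (nat_lit 282) (C.node (nat_lit 1) (nat_lit 3) (nat_lit 10) (C.cons (nat_lit 1038) (C.miq (nat_lit 1746535474) (nat_lit 1549863063132085444913530909)) (C.cons (nat_lit 1034) (C.node (nat_lit 1) (nat_lit 3) (nat_lit 11) (C.cons (nat_lit 2186) (C.miq (nat_lit 1904653120) (nat_lit 2865196122551256196156819485)) C.nil)) C.nil))) (C.cons (nat_lit 266) (C.node (nat_lit 2) (nat_lit 8) (nat_lit 10) (C.cons (nat_lit 1332) (C.miq (nat_lit 2055647808) (nat_lit 1624838231913192698915391517)) (C.cons (nat_lit 1316) (C.node (nat_lit 4) (nat_lit 8) (nat_lit 10) C.nil) (C.cons (nat_lit 1300) (C.miq (nat_lit 2055647808) (nat_lit 1624838231913192561476438045)) C.nil)))) C.nil))) C.nil)))) C.nil)))) C.nil))) C.nil))) C.nil)) (C.cons (nat_lit 2312) (C.node (nat_lit 4) (nat_lit 6) (nat_lit 11) (C.cons (nat_lit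 2640) (C.node (nat_lit 4) (nat_lit 6) (nat_lit 10) (C.cons (nat_lit 1136) (C.miq (nat_lit 910535568) (nat_lit 1373359377749625908667420417)) (C.cons (nat_lit 1104) (C.node (nat_lit 6) (nat_lit 8) (nat_lit 10)
  (C.cons (nat_lit 1376) (C.miq (nat_lit 2527415088) (nat_lit 1663492277156262537417263133)) (C.cons (nat_lit 1344) (C.node (nat_lit 3) (nat_lit 9) (nat_lit 11) (C.cons (nat_lit 2696) (C.miq (nat_lit 1670425458) (nat_lit 632288366834692528963652740)) (C.cons (nat_lit 2600) (C.miq (nat_lit 1678424403) (nat_lit 1415710132075194854473796136)) (C.cons (nat_lit 2568) (C.node (nat_lit 4) (nat_lit 6) (nat_lit 7) (C.cons (nat_lit 216) (C.miq (nat_lit 1399065273) (nat_lit 261138325959969606542036737)) (C.cons (nat_lit 212) (C.miq (nat_lit 2322991908) (nat_lit 1470060014285301063196346397)) (C.cons (nat_lit 208) (C.node (nat_lit 3) (nat_lit 4) (nat_lit 6) (C.cons (nat_lit 122) (C.miq (nat_lit 1350646454) (nat_lit 317949741361211812834577480)) (C.cons (nat_lit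 120) (C.node (nat_lit 1) (nat_lit 4) (nat_lit 6) (C.cons (nat_lit 86) (C.miq (nat_lit 2518201376) (nat_lit 2865225047173752570341951517)) (C.cons (nat_lit 82) (C.node (nat_lit 2) (nat_lit 4) (nat_lit 6) (C.cons (nat_lit 84) (C.node (nat_lit 3) (nat_lit 4) (nat_lit 10) (C.cons (nat_lit 1048) (C.miq (nat_lit 2587102053) (nat_lit 1266964608660715615081203937)) C.nil)) C.nil)) C.nil))) (C.cons (nat_lit 90) (C.miq (nat_lit 1399065273) (nat_lit 108813672688526330529058561)) (C.cons (nat_lit 88) (C.miq (nat_lit 1399065273) (nat_lit 106395821049297072179646209)) C.nil))))) C.nil)))) C.nil)))) C.nil))) C.nil))) (C.cons (nat_lit 2128) (C.node (nat_lit 6) (nat_lit 9) (nat_lit 11) (C.cons (nat_lit 2624) (C.node (nat_lit 4) (nat_lit 8) (nat_lit 11) (C.cons (nat_lit 2352) (C.node (nat_lit 6) (nat_lit 8) (nat_lit 10) (C.cons (nat_lit 1376) (C.miq (nat_lit 710608516) (nat_lit 3752544058278908112600564049)) (C.cons (nat_lit 1344) (C.node (nat_lit 1) (nat_lit 4) (nat_lit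 11) (C.cons (nat_lit 2578) (C.node (nat_lit 1) (nat_lit 2) (nat_lit 11) (C.cons (nat_lit 2054) (C.node (nat_lit 1) (nat_lit 5) (nat_lit 11) C.nil) C.nil)) (C.cons (nat_lit 2066) (C.node (nat_lit 4) (nat_lit 9) (nat_lit 11) C.nil) C.nil))) C.nil))) (C.cons (nat_lit 2320) (C.node (nat_lit 5) (nat_lit 8) (nat_lit 11) C.nil) C.nil))) C.nil)) C.nil))) C.nil))) C.nil))) (C.cons (nat_lit 2368) (C.node (nat_lit 3) (nat_lit 7) (nat_lit 11) (C.cons (nat_lit 2696) (C.miq (nat_lit 1670425458) (nat_lit 632288366834692528963652740)) (C.cons (nat_lit 2186) (C.node (nat_lit 7) (nat_lit 9) (nat_lit 11) (C.cons (nat_lit 2688) (C.node (nat_lit 3) (nat_lit 9) (nat_lit 11) (C.cons (nat_lit 2600) (C.miq (nat_lit 1094256565) (nat_lit 632278552611492996126869729)) (C.cons (nat_lit 2568) (C.node (nat_lit 3) (nat_lit 5) (nat_lit 11) (C.cons (nat_lit 2344) (C.node (nat_lit 4) (nat_lit 5) (nat_lit 11) (C.cons (nat_lit 2098) (C.miq (nat_lit 1476703089) (nat_lit 407446703138975707923941514))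 (C.cons (nat_lit 2096) (C.node (nat_lit 1) (nat_lit 3) (nat_lit 10) (C.cons (nat_lit 1290) (C.miq (nat_lit 1394063520) (nat_lit 2642753771786641803712859905)) (C.cons (nat_lit 1038) (C.miq (nat_lit 1729760050) (nat_lit 1415672297699805339050706973)) (C.cons (nat_lit 1034) (C.node (nat_lit 2) (nat_lit 3) (nat_lit 10) (C.cons (nat_lit 1548) (C.miq (nat_lit 1788326688) (nat_lit 2011694494172986463951849501)) (C.cons (nat_lit 1292) (C.miq (nat_lit 683058000) (nat_lit 2862756503502390187706614825)) (C.cons (nat_lit 1036) (C.node (nat_lit 3) (nat_lit 8) (nat_lit 10) (C.cons (nat_lit 1304) (C.miq (nat_lit 1487385408) (nat_lit 1702209484126460365920995357)) (C.cons (nat_lit 1288) (C.node (nat_lit 3) (nat_lit 4) (nat_lit 10) C.nil) C.nil))) C.nil)))) C.nil)))) C.nil))) (C.cons (nat_lit 2088) (C.node (nat_lit 3) (nat_lit 8) (nat_lit 11) (C.cons (nat_lit 2312) (C.node (nat_lit 4) (nat_lit 6) (nat_lit 11) (C.cons (nat_lit 2642) (C.miq (nat_lit 996700480) (nat_lit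 2862743591033178499973186707)) (C.cons (nat_lit 2640) (C.node (nat_lit 1) (nat_lit 6) (nat_lit 11) (C.cons (nat_lit 2118) (C.node (nat_lit 1) (nat_lit 9) (nat_lit 11) C.nil) C.nil)) (C.cons (nat_lit 2130) (C.miq (nat_lit 996700480) (nat_lit 2862743591033176300949931155)) C.nil)))) C.nil)) C.nil))) C.nil))) C.nil))
  (C.cons (nat_lit 2184) (C.node (nat_lit 1) (nat_lit 7) (nat_lit 11) (C.cons (nat_lit 2690) (C.node (nat_lit 3) (nat_lit 9) (nat_lit 11) (C.cons (nat_lit 2600) (C.miq (nat_lit 2710767541) (nat_lit 632287849770508310404401377)) (C.cons (nat_lit 2568) (C.node (nat_lit 5) (nat_lit 9) (nat_lit 11) (C.cons (nat_lit 2596) (C.miq (nat_lit 1537512048) (nat_lit 3733173280324123043243950725)) (C.cons (nat_lit 2592) (C.node (nat_lit 2) (nat_lit 9) (nat_lit 11) (C.cons (nat_lit 2628) (C.miq (nat_lit 459962656) (nat_lit 3800884378762883413758509701)) (C.cons (nat_lit 2564) (C.node (nat_lit 2) (nat_lit 5) (nat_lit 11) (C.cons (nat_lit 2086) (C.node (nat_lit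 2) (nat_lit 6) (nat_lit 11) C.nil) C.nil)) C.nil))) C.nil))) C.nil))) (C.cons (nat_lit 2178) (C.node (nat_lit 7) (nat_lit 9) (nat_lit 11) (C.cons (nat_lit 2688) (C.node (nat_lit 3) (nat_lit 9) (nat_lit 11) (C.cons (nat_lit 2600) (C.node (nat_lit 3) (nat_lit 9) (nat_lit 10) (C.cons (nat_lit 1560) (C.miq (nat_lit 1504162624) (nat_lit 2011694494019864128195332125)) (C.cons (nat_lit 1548) (C.miq (nat_lit 1788326688) (nat_lit 2011694494172986463951849501)) (C.cons (nat_lit 1544) (C.node (nat_lit 4) (nat_lit 9) (nat_lit 11) (C.cons (nat_lit 2642) (C.miq (nat_lit 991582528) (nat_lit 3716257616009654870547300913)) (C.cons (nat_lit 2640) (C.miq (nat_lit 1678424403) (nat_lit 1415710132075194854473796136)) (C.cons (nat_lit 2578) (C.miq (nat_lit 991582528) (nat_lit 3716257616009654595669393969)) (C.cons (nat_lit 2576) (C.node (nat_lit 1) (nat_lit 3) (nat_lit 11) (C.cons (nat_lit 2314) (C.node (nat_lit 4) (nat_lit 8) (nat_lit 11) (C.cons (nat_lit 2352) (C.miq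 (nat_lit 2214704531) (nat_lit 1415694821196548882217765416)) C.nil)) C.nil)) C.nil))))) C.nil)))) (C.cons (nat_lit 2568) (C.node (nat_lit 3) (nat_lit 9) (nat_lit 10) (C.cons (nat_lit 1560) (C.node (nat_lit 4) (nat_lit 6) (nat_lit 10) (C.cons (nat_lit 1136) (C.miq (nat_lit 878094603) (nat_lit 1373397728084689858590740225)) (C.cons (nat_lit 1104) (C.node (nat_lit 3) (nat_lit 4) (nat_lit 7) (C.cons (nat_lit 216) (C.miq (nat_lit 1446251433) (nat_lit 261138326299991378337730305)) (C.cons (nat_lit 184) (C.miq (nat_lit 1665514128) (nat_lit 222484281143335336920813313)) (C.cons (nat_lit 152) (C.node (nat_lit 6) (nat_lit 7) (nat_lit 4) (C.cons (nat_lit 212) (C.miq (nat_lit 2322991908) (nat_lit 1470060014285301063196346397)) (C.cons (nat_lit 720) (C.node (nat_lit 9) (nat_lit 7) (nat_lit 3) C.nil) C.nil))) C.nil)))) C.nil))) (C.cons (nat_lit 1548) (C.miq (nat_lit 1788326688) (nat_lit 2011694494172986463951849501)) (C.cons (nat_lit 1544) (C.node (nat_lit 3) (nat_lit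 4) (nat_lit 10) (C.cons (nat_lit 1304) (C.node (nat_lit 1) (nat_lit 3) (nat_lit 10) (C.cons (nat_lit 1038) (C.node (nat_lit 6) (nat_lit 8) (nat_lit 10) (C.cons (nat_lit 1378) (C.miq (nat_lit 1629726731) (nat_lit 1254922997711226473795096321)) (C.cons (nat_lit 1376) (C.miq (nat_lit 3062105507) (nat_lit 407446315737369658638468137)) (C.cons (nat_lit 1346) (C.miq (nat_lit 1629726731) (nat_lit 1254922997702219274540355329)) C.nil)))) (C.cons (nat_lit 1034) (C.node (nat_lit 2) (nat_lit 3) (nat_lit 10) C.nil) C.nil))) (C.cons (nat_lit 1048) (C.node (nat_lit 4) (nat_lit 9) (nat_lit 10) (C.cons (nat_lit 1616) (C.node (nat_lit 1) (nat_lit 3) (nat_lit 10) C.nil) (C.cons (nat_lit 1556) (C.miq (nat_lit 1470696228) (nat_lit 2011662913101974681010047005)) (C.cons (nat_lit 1552) (C.node (nat_lit 4) (nat_lit 6) (nat_lit 10) C.nil) C.nil)))) C.nil))) C.nil)))) C.nil))) C.nil)) C.nil))) C.nil)))) C.nil))) C.nil)) C.nil))) C.nil))) (C.cons (nat_lit 3080) (C.node (nat_lit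 6) (nat_lit 10) (nat_lit 11) (C.cons (nat_lit 3136) (C.ref (nat_lit 261) (nat_lit 198064386771216)) C.nil)) C.nil))) C.nil))))) C.nil))) C.nil)))) C.nil)))) List.nil)

theorem ok12_306 : okL par12 (nat_lit 307) c12_306 (nat_lit 306) = true := by decide +kernel

noncomputable def c12_307 : List C :=
  (List.cons (C.node (nat_lit 2) (nat_lit 10) (nat_lit 11) (C.cons (nat_lit 3108) (C.node (nat_lit 2) (nat_lit 8) (nat_lit 11) (C.cons (nat_lit 2372) (C.miq (nat_lit 1093142454) (nat_lit 317953707441016882568890593)) (C.cons (nat_lit 2308) (C.node (nat_lit 2) (nat_lit 6) (nat_lit 11) (C.cons (nat_lit 2628) (C.node (nat_lit 4) (nat_lit 6) (nat_lit 11) (C.cons (nat_lit 2130) (C.miq (nat_lit 1761915505) (nat_lit 678246677108402977481361542)) (C.cons (nat_lit 2128) (C.node (nat_lit 1) (nat_lit 2) (nat_lit 10) (C.cons (nat_lit 1542) (C.miq (nat_lit 1645722016) (nat_lit 2637918068588123262731620097)) (C.cons (nat_lit 1038) (C.miq (nat_lit 1461324579) (nat_lit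 1415671781190971258003392541)) (C.cons (nat_lit 1030) (C.node (nat_lit 2) (nat_lit 9) (nat_lit 10) (C.cons (nat_lit 1556) (C.miq (nat_lit 2608080394) (nat_lit 2649994100468771844351263813)) (C.cons (nat_lit 1548) (C.miq (nat_lit 1614394786) (nat_lit 632316682341673963377921060)) (C.cons (nat_lit 1540) (C.node (nat_lit 2) (nat_lit 4) (nat_lit 10) (C.cons (nat_lit 1300) (C.node (nat_lit 2) (nat_lit 4) (nat_lit 9) (C.cons (nat_lit 534) (C.miq (nat_lit 1529415444) (nat_lit 3177067403210472815903245459)) (C.cons (nat_lit 532) (C.node (nat_lit 4) (nat_lit 5) (nat_lit 10) (C.cons (nat_lit 1136) (C.miq (nat_lit 610641931) (nat_lit 1373397063928718749029437185)) (C.cons (nat_lit 1072) (C.node (nat_lit 2) (nat_lit 4) (nat_lit 7) (C.cons (nat_lit 212) (C.miq (nat_lit 1380366976) (nat_lit 256334204082410737944825601)) (C.cons (nat_lit 180) (C.miq (nat_lit 1696861096) (nat_lit 217612864723192062472883969)) (C.cons (nat_lit 148) (C.node (nat_lit 7) (nat_lit 8)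 (nat_lit 10) (C.cons (nat_lit 1472) (C.miq (nat_lit 1518776896) (nat_lit 1779580736796843498074605597)) (C.cons (nat_lit 1440) (C.miq (nat_lit 849873751) (nat_lit 1571610815654075770452576481)) (C.cons (nat_lit 1408) (C.node (nat_lit 1) (nat_lit 2) (nat_lit 9) (C.cons (nat_lit 550) (C.node (nat_lit 1) (nat_lit 2) (nat_lit 4) (C.cons (nat_lit 86) (C.miq (nat_lit 1380366976) (nat_lit 104009550810967461931847425)) (C.cons (nat_lit 22) (C.node (nat_lit 1) (nat_lit 9) (nat_lit 10) (C.cons (nat_lit 1602) (C.miq (nat_lit 1631754763) (nat_lit 26644846525875492778479361)) (C.cons (nat_lit 1538) (C.node (nat_lit 1) (nat_lit 9) (nat_lit 11) (C.cons (nat_lit 2578) (C.miq (nat_lit 1780031563) (nat_lit 1859376388918382558520150045)) (C.cons (nat_lit 2562) (C.node (nat_lit 4) (nat_lit 9) (nat_lit 11) (C.cons (nat_lit 2576) (C.node (nat_lit 2) (nat_lit 3) (nat_lit 9) (C.cons (nat_lit 780) (C.miq (nat_lit 337840777) (nat_lit 2510948575316348127197007617)) (C.cons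 (nat_lit 524) (C.node (nat_lit 2) (nat_lit 8) (nat_lit 9) (C.cons (nat_lit 772) (C.node (nat_lit 2) (nat_lit 4) (nat_lit 5) (C.cons (nat_lit 116) (C.node (nat_lit 1) (nat_lit 2) (nat_lit 3) (C.cons (nat_lit 78) (C.miq (nat_lit 1637163780) (nat_lit 664911340632315890884479005)) (C.cons (nat_lit 14) (C.node (nat_lit 1) (nat_lit 2) (nat_lit 6) C.nil) C.nil))) (C.cons (nat_lit 52) (C.miq (nat_lit 1696861096) (nat_lit 62870359812519528110493441)) C.nil))) C.nil)) C.nil))) C.nil)) C.nil))) C.nil))) C.nil))) (C.cons (nat_lit 518) (C.node (nat_lit 2) (nat_lit 3) (nat_lit 10) (C.cons (nat_lit 1164) (C.node (nat_lit 7) (nat_lit 10) (nat_lit 11) (C.cons (nat_lit 3200) (C.node (nat_lit 5) (nat_lit 7) (nat_lit 10) (C.cons (nat_lit 1696) (C.miq (nat_lit 1168312690) (nat_lit 1287544311934935912076280453)) (C.cons (nat_lit 1184) (C.node (nat_lit 6) (nat_lit 7) (nat_lit 10) (C.cons (nat_lit 1728) (C.miq (nat_lit 1732418059) (nat_lit 178969499832784615857000193)) (C.cons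 (nat_lit 1216) (C.node (nat_lit 7) (nat_lit 9) (nat_lit 10) (C.cons (nat_lit 1664) (C.node (nat_lit 2) (nat_lit 3) (nat_lit 9) (C.cons (nat_lit 812) (C.miq (nat_lit 1647819136) (nat_lit 1407231584220427627503619841)) (C.cons (nat_lit 780) (C.miq (nat_lit 1647819136) (nat_lit 1407231584220427490064666369)) (C.cons (nat_lit 556) (C.miq (nat_lit 1161431335) (nat_lit 1287527599184800234959798917)) (C.cons (nat_lit 524)
  (C.node (nat_lit 2) (nat_lit 5) (nat_lit 7) (C.cons (nat_lit 420) (C.node (nat_lit 2) (nat_lit 5) (nat_lit 9) (C.cons (nat_lit 548) (C.node (nat_lit 2) (nat_lit 6) (nat_lit 7) (C.cons (nat_lit 196) (C.node (nat_lit 2) (nat_lit 8) (nat_lit 9) C.nil) C.nil)) C.nil)) (C.cons (nat_lit 164) (C.node (nat_lit 2) (nat_lit 5) (nat_lit 9) (C.cons (nat_lit 804) (C.node (nat_lit 2) (nat_lit 3) (nat_lit 8) (C.cons (nat_lit 332) (C.miq (nat_lit 1654948720) (nat_lit 1571609782145225458923536777)) (C.cons (nat_lit 268) (C.node (nat_lit 2) (nat_lit 6)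 (nat_lit 7) C.nil) C.nil))) (C.cons (nat_lit 548) (C.node (nat_lit 2) (nat_lit 8) (nat_lit 9) C.nil) C.nil))) C.nil))) C.nil))))) C.nil)) C.nil))) C.nil))) C.nil)) (C.cons (nat_lit 1036) (C.node (nat_lit 2) (nat_lit 7) (nat_lit 10) (C.cons (nat_lit 1156) (C.node (nat_lit 4) (nat_lit 9) (nat_lit 11) (C.cons (nat_lit 2578) (C.node (nat_lit 5) (nat_lit 9) (nat_lit 11) (C.cons (nat_lit 2600) (C.miq (nat_lit 975786091) (nat_lit 1861793724040896118650046689)) (C.cons (nat_lit 2592) (C.node (nat_lit 1) (nat_lit 9) (nat_lit 10) (C.cons (nat_lit 1634) (C.miq (nat_lit 848956261) (nat_lit 1861765408573602243629156577)) (C.cons (nat_lit 1602) (C.node (nat_lit 1) (nat_lit 5) (nat_lit 10) (C.cons (nat_lit 1314) (C.miq (nat_lit 1705511716) (nat_lit 1588534744166181546589685789)) (C.cons (nat_lit 1058) (C.node (nat_lit 1) (nat_lit 10) (nat_lit 11) (C.cons (nat_lit 3082) (C.miq (nat_lit 2443529008) (nat_lit 1279053866501358745016666141)) (C.cons (nat_lit 3074) (C.node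 (nat_lit 4) (nat_lit 9) (nat_lit 10) (C.cons (nat_lit 1560) (C.miq (nat_lit 323094952) (nat_lit 2510943778980494294530658049)) (C.cons (nat_lit 1552) (C.node (nat_lit 5) (nat_lit 6) (nat_lit 10) (C.cons (nat_lit 1120) (C.miq (nat_lit 2254061746) (nat_lit 1354020898830547327903860765)) C.nil)) C.nil))) C.nil))) C.nil))) (C.cons (nat_lit 1570) (C.miq (nat_lit 1780031563) (nat_lit 1898062015146050692110747677)) (C.cons (nat_lit 1538) (C.miq (nat_lit 1780031563) (nat_lit 1859376388918382558520150045)) C.nil))))) C.nil))) (C.cons (nat_lit 2576) (C.node (nat_lit 1) (nat_lit 9) (nat_lit 11) (C.cons (nat_lit 2594) (C.node (nat_lit 1) (nat_lit 9) (nat_lit 10) (C.cons (nat_lit 1602) (C.miq (nat_lit 431269408) (nat_lit 3114214512915529267928695877)) (C.cons (nat_lit 1538) (C.node (nat_lit 2) (nat_lit 4) (nat_lit 5) (C.cons (nat_lit 118) (C.miq (nat_lit 2435495264) (nat_lit 1245264448877201764800334049)) (C.cons (nat_lit 116) (C.node (nat_lit 1) (nat_lit 2) (nat_lit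 4) (C.cons (nat_lit 22) (C.node (nat_lit 1) (nat_lit 2) (nat_lit 5) (C.cons (nat_lit 46) (C.miq (nat_lit 2769924656) (nat_lit 3136024430899159622795069469)) C.nil)) C.nil)) (C.cons (nat_lit 54) (C.miq (nat_lit 1696861096) (nat_lit 65288211451748786459905793)) (C.cons (nat_lit 52) (C.miq (nat_lit 1696861096) (nat_lit 62870359812519528110493441)) C.nil))))) C.nil))) (C.cons (nat_lit 2562) (C.node (nat_lit 5) (nat_lit 9) (nat_lit 11) (C.cons (nat_lit 2600) (C.miq (nat_lit 975786091) (nat_lit 1861793724040896118650046689)) (C.cons (nat_lit 2592) (C.node (nat_lit 3) (nat_lit 9) (nat_lit 11) (C.cons (nat_lit 2696) (C.node (nat_lit 7) (nat_lit 10) (nat_lit 11) (C.cons (nat_lit 3200) (C.node (nat_lit 2) (nat_lit 3) (nat_lit 7) (C.cons (nat_lit 204) (C.miq (nat_lit 2469050208) (nat_lit 1252518003823600356840245473)) (C.cons (nat_lit 172) (C.miq (nat_lit 2317552471) (nat_lit 1252454399772335527164643553)) C.nil))) C.nil)) (C.cons (nat_lit 2568) (C.node (nat_lit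 7) (nat_lit 9) (nat_lit 11) (C.cons (nat_lit 2688) (C.node (nat_lit 2) (nat_lit 3) (nat_lit 7) (C.cons (nat_lit 204) (C.node (nat_lit 1) (nat_lit 2) (nat_lit 3) C.nil) (C.cons (nat_lit 172) (C.miq (nat_lit 2317552471) (nat_lit 1252454399772335527164643553)) C.nil))) C.nil)) C.nil))) C.nil))) C.nil))) C.nil))) C.nil)) C.nil))) C.nil))) C.nil)))) C.nil)))) C.nil))) C.nil))) (C.cons (nat_lit 1044) (C.node (nat_lit 4) (nat_lit 9) (nat_lit 11) (C.cons (nat_lit 2578) (C.node (nat_lit 5) (nat_lit 9) (nat_lit 11) (C.cons (nat_lit 2600)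
  (C.miq (nat_lit 975786091) (nat_lit 1861793724040896118650046689)) (C.cons (nat_lit 2592) (C.node (nat_lit 1) (nat_lit 9) (nat_lit 10) (C.cons (nat_lit 1634) (C.miq (nat_lit 848956261) (nat_lit 1861765408573602243629156577)) (C.cons (nat_lit 1602) (C.node (nat_lit 1) (nat_lit 10) (nat_lit 11) (C.cons (nat_lit 3082) (C.miq (nat_lit 1494877363) (nat_lit 1936718808962992973114116125)) (C.cons (nat_lit 3074) (C.node (nat_lit 1) (nat_lit 2) (nat_lit 4) (C.cons (nat_lit 118) (C.miq (nat_lit 2317618006) (nat_lit 1262124773311584432823863521)) (C.cons (nat_lit 86) (C.node (nat_lit 1) (nat_lit 2) (nat_lit 3) (C.cons (nat_lit 46) (C.miq (nat_lit 1369056011) (nat_lit 1936756495516167122614028317)) (C.cons (nat_lit 14) (C.node (nat_lit 4) (nat_lit 5) (nat_lit 11) (C.cons (nat_lit 2352) (C.miq (nat_lit 1415755786) (nat_lit 104024953629469791010230017)) (C.cons (nat_lit 2096) (C.node (nat_lit 4) (nat_lit 8) (nat_lit 11) (C.cons (nat_lit 2320) (C.node (nat_lit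 1) (nat_lit 7) (nat_lit 9) (C.cons (nat_lit 930) (C.miq (nat_lit 873925528) (nat_lit 1415659384923786330549391105)) (C.cons (nat_lit 898) (C.miq (nat_lit 873925528) (nat_lit 1415659384923786330547293953)) (C.cons (nat_lit 674) (C.miq (nat_lit 563394384) (nat_lit 3116649077468136401158605025)) (C.cons (nat_lit 642) (C.node (nat_lit 1) (nat_lit 2) (nat_lit 5) (C.cons (nat_lit 550) (C.node (nat_lit 1) (nat_lit 8) (nat_lit 9) (C.cons (nat_lit 770) (C.node (nat_lit 1) (nat_lit 3) (nat_lit 10) (C.cons (nat_lit 1290) (C.node (nat_lit 1) (nat_lit 5) (nat_lit 10) (C.cons (nat_lit 1058) (C.node (nat_lit 1) (nat_lit 3) (nat_lit 4) C.nil) C.nil)) (C.cons (nat_lit 1034) (C.node (nat_lit 1) (nat_lit 5) (nat_lit 10) (C.cons (nat_lit 1314) (C.node (nat_lit 1) (nat_lit 4) (nat_lit 5) C.nil) C.nil)) C.nil))) C.nil)) (C.cons (nat_lit 38) (C.node (nat_lit 1) (nat_lit 2) (nat_lit 9) (C.cons (nat_lit 518) (C.node (nat_lit 1) (nat_lit 3) (nat_lit 10) (C.cons (nat_lit 1290)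 (C.node (nat_lit 1) (nat_lit 5) (nat_lit 10) C.nil) (C.cons (nat_lit 1034) (C.node (nat_lit 2) (nat_lit 4) (nat_lit 9) C.nil) C.nil))) C.nil)) C.nil))) C.nil))))) C.nil)) C.nil))) C.nil))) (C.cons (nat_lit 54) (C.miq (nat_lit 1648468153) (nat_lit 65311546250857128496598785)) (C.cons (nat_lit 22) (C.miq (nat_lit 1648468153) (nat_lit 26625920023188994906001153)) C.nil))))) C.nil))) (C.cons (nat_lit 1570) (C.miq (nat_lit 1780031563) (nat_lit 1898062015146050692110747677)) (C.cons (nat_lit 1538) (C.miq (nat_lit 1780031563) (nat_lit 1859376388918382558520150045)) C.nil))))) C.nil))) (C.cons (nat_lit 2576) (C.node (nat_lit 1) (nat_lit 9) (nat_lit 11) (C.cons (nat_lit 2594) (C.node (nat_lit 1) (nat_lit 2) (nat_lit 9) (C.cons (nat_lit 534) (C.miq (nat_lit 1905635904) (nat_lit 3135995506143808313730598941)) (C.cons (nat_lit 518) (C.node (nat_lit 1) (nat_lit 9) (nat_lit 10) (C.cons (nat_lit 1602) (C.miq (nat_lit 431269408) (nat_lit 3114214512915529267928695877))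 (C.cons (nat_lit 1538) (C.node (nat_lit 2) (nat_lit 4) (nat_lit 6) (C.cons (nat_lit 212) (C.miq (nat_lit 2454369904) (nat_lit 1262189410361377126186420449)) (C.cons (nat_lit 118) (C.miq (nat_lit 2317618006) (nat_lit 1262124773311584432823863521)) (C.cons (nat_lit 116) (C.miq (nat_lit 2317618006) (nat_lit 1262124773311584432823732449)) (C.cons (nat_lit 86) (C.miq (nat_lit 1638474763) (nat_lit 1859376388634937257055291421)) (C.cons (nat_lit 84) (C.node (nat_lit 4) (nat_lit 5) (nat_lit 11) (C.cons (nat_lit 2352) (C.miq (nat_lit 1415755786) (nat_lit 101607101990240532660817665)) (C.cons (nat_lit 2096) (C.node (nat_lit 1) (nat_lit 2) (nat_lit 4) (C.cons (nat_lit 54) (C.node (nat_lit 1) (nat_lit 2) (nat_lit 3) (C.cons (nat_lit 78) (C.node (nat_lit 1) (nat_lit 3) (nat_lit 7) (C.cons (nat_lit 170) (C.miq (nat_lit 2299726679) (nat_lit 632275454310028552927054049)) (C.cons (nat_lit 138) (C.node (nat_lit 1) (nat_lit 6) (nat_lit 11) (C.cons (nat_lit 3138) (C.miq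 (nat_lit 1902250681) (nat_lit 94308112409489293795659521)) (C.cons (nat_lit 2370)
  (C.miq (nat_lit 1683062939) (nat_lit 65325713137504143869611777)) (C.cons (nat_lit 2114) (C.node (nat_lit 6) (nat_lit 8) (nat_lit 11) (C.cons (nat_lit 2376) (C.miq (nat_lit 1919093176) (nat_lit 94303463681924690789011201)) (C.cons (nat_lit 2368) (C.node (nat_lit 1) (nat_lit 6) (nat_lit 7) (C.cons (nat_lit 962) (C.miq (nat_lit 1931903161) (nat_lit 94313959808368570882330369)) (C.cons (nat_lit 706) (C.miq (nat_lit 1116801895) (nat_lit 626245176282323040231098593)) (C.cons (nat_lit 450) (C.miq (nat_lit 1108872054) (nat_lit 317953707696033211342784737)) (C.cons (nat_lit 194) (C.node (nat_lit 1) (nat_lit 4) (nat_lit 11) (C.cons (nat_lit 2322) (C.node (nat_lit 1) (nat_lit 3) (nat_lit 4) C.nil) C.nil)) C.nil))))) C.nil))) C.nil)))) C.nil))) (C.cons (nat_lit 14) (C.node (nat_lit 1) (nat_lit 2) (nat_lit 6) (C.cons (nat_lit 70) (C.node (nat_lit 1) (nat_lit 4) (nat_lit 11) (C.cons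 (nat_lit 2322) (C.node (nat_lit 1) (nat_lit 7) (nat_lit 9) (C.cons (nat_lit 962) (C.miq (nat_lit 1098037392) (nat_lit 2637914452940150981670539009)) (C.cons (nat_lit 898) (C.miq (nat_lit 1098037392) (nat_lit 2637914452940150706792632065)) (C.cons (nat_lit 706) (C.miq (nat_lit 1116801895) (nat_lit 626245176282323040231098593)) (C.cons (nat_lit 642) (C.node (nat_lit 1) (nat_lit 3) (nat_lit 4) (C.cons (nat_lit 90) (C.node (nat_lit 1) (nat_lit 4) (nat_lit 9) C.nil) (C.cons (nat_lit 26) (C.node (nat_lit 1) (nat_lit 4) (nat_lit 6) (C.cons (nat_lit 82) (C.node (nat_lit 1) (nat_lit 4) (nat_lit 9) C.nil) C.nil)) C.nil))) C.nil))))) (C.cons (nat_lit 2066) (C.node (nat_lit 4) (nat_lit 8) (nat_lit 11) (C.cons (nat_lit 2320) (C.node (nat_lit 2) (nat_lit 4) (nat_lit 7) (C.cons (nat_lit 404) (C.node (nat_lit 2) (nat_lit 4) (nat_lit 9) C.nil) C.nil)) C.nil)) C.nil))) C.nil)) C.nil))) (C.cons (nat_lit 22) (C.node (nat_lit 1) (nat_lit 2) (nat_lit 5) (C.cons (nat_lit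 110) (C.miq (nat_lit 982667446) (nat_lit 1861747791648164384436652257)) (C.cons (nat_lit 102) (C.miq (nat_lit 2435495264) (nat_lit 1245264448877201696080857313)) (C.cons (nat_lit 46) (C.miq (nat_lit 2769924656) (nat_lit 3136024430899159622795069469)) (C.cons (nat_lit 38) (C.node (nat_lit 1) (nat_lit 2) (nat_lit 3) (C.cons (nat_lit 78) (C.node (nat_lit 1) (nat_lit 3) (nat_lit 7) (C.cons (nat_lit 170) (C.miq (nat_lit 2299726679) (nat_lit 632275454310028552927054049)) (C.cons (nat_lit 138) (C.node (nat_lit 1) (nat_lit 6) (nat_lit 7) (C.cons (nat_lit 962) (C.miq (nat_lit 1931903161) (nat_lit 94313959808368570882330369)) (C.cons (nat_lit 706) (C.miq (nat_lit 1116801895) (nat_lit 626245176282323040231098593)) (C.cons (nat_lit 450) (C.miq (nat_lit 1108872054) (nat_lit 317953707696033211342784737)) (C.cons (nat_lit 194) (C.node (nat_lit 2) (nat_lit 4) (nat_lit 9) (C.cons (nat_lit 788) (C.node (nat_lit 2) (nat_lit 3) (nat_lit 9) C.nil) C.nil)) C.nil))))) C.nil)))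 (C.cons (nat_lit 14) (C.node (nat_lit 1) (nat_lit 2) (nat_lit 6) (C.cons (nat_lit 70) (C.node (nat_lit 2) (nat_lit 4) (nat_lit 9) C.nil) C.nil)) C.nil))) C.nil))))) C.nil))) C.nil))) C.nil)))))) C.nil))) C.nil))) (C.cons (nat_lit 2562) (C.node (nat_lit 5) (nat_lit 9) (nat_lit 11) (C.cons (nat_lit 2600) (C.miq (nat_lit 975786091) (nat_lit 1861793724040896118650046689)) (C.cons (nat_lit 2592) (C.node (nat_lit 3) (nat_lit 9) (nat_lit 11) (C.cons (nat_lit 2696) (C.node (nat_lit 7) (nat_lit 10) (nat_lit 11) (C.cons (nat_lit 3200) (C.node (nat_lit 6) (nat_lit 10) (nat_lit 11) (C.cons (nat_lit 3146) (C.miq (nat_lit 1651620106) (nat_lit 2637934172595695758584516353)) (C.cons (nat_lit 3144) (C.miq (nat_lit 975812103) (nat_lit 1861795495513513671218497761)) (C.cons (nat_lit 3138) (C.miq (nat_lit 1651620106) (nat_lit 2637934025021743168908103425)) (C.cons (nat_lit 3136) (C.node (nat_lit 1) (nat_lit 10) (nat_lit 11) (C.cons (nat_lit 3082) (C.node (nat_lit 1)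 (nat_lit 6) (nat_lit 11) (C.cons (nat_lit 2114) (C.node (nat_lit 3) (nat_lit 5) (nat_lit 11) C.nil) C.nil)) (C.cons (nat_lit 3074) (C.node (nat_lit 3) (nat_lit 10) (nat_lit 11) C.nil) C.nil))) C.nil))))) C.nil))
  (C.cons (nat_lit 2568) (C.node (nat_lit 7) (nat_lit 9) (nat_lit 11) (C.cons (nat_lit 2688) (C.node (nat_lit 3) (nat_lit 7) (nat_lit 11) (C.cons (nat_lit 3208) (C.node (nat_lit 1) (nat_lit 10) (nat_lit 11) (C.cons (nat_lit 3138) (C.miq (nat_lit 1651620106) (nat_lit 2637934025021743168908103425)) (C.cons (nat_lit 3074) (C.node (nat_lit 6) (nat_lit 10) (nat_lit 11) C.nil) C.nil))) (C.cons (nat_lit 2184) (C.node (nat_lit 7) (nat_lit 10) (nat_lit 11) C.nil) C.nil))) C.nil)) C.nil))) C.nil))) C.nil))) C.nil))) C.nil))) C.nil)))) C.nil)))) C.nil))) (C.cons (nat_lit 2116) (C.node (nat_lit 2) (nat_lit 9) (nat_lit 11) (C.cons (nat_lit 2564) (C.node (nat_lit 7) (nat_lit 9) (nat_lit 11) (C.cons (nat_lit 2696) (C.node (nat_lit 7) (nat_lit 10) (nat_lit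 11) (C.cons (nat_lit 3200) (C.node (nat_lit 9) (nat_lit 5) (nat_lit 11) (C.cons (nat_lit 2594) (C.ref (nat_lit 286) (nat_lit 198064386771216)) (C.cons (nat_lit 2592) (C.ref (nat_lit 287) (nat_lit 198064386771216)) C.nil))) C.nil)) (C.cons (nat_lit 2688) (C.node (nat_lit 3) (nat_lit 7) (nat_lit 11) (C.cons (nat_lit 3208) (C.node (nat_lit 5) (nat_lit 7) (nat_lit 10) (C.cons (nat_lit 1696) (C.miq (nat_lit 2545179184) (nat_lit 2649975745696087840906871849)) (C.cons (nat_lit 1440) (C.miq (nat_lit 629193331) (nat_lit 349417876630899338624175240)) (C.cons (nat_lit 1184) (C.node (nat_lit 1) (nat_lit 10) (nat_lit 11) (C.cons (nat_lit 3138) (C.node (nat_lit 6) (nat_lit 8) (nat_lit 11) (C.cons (nat_lit 2376) (C.miq (nat_lit 1805943664) (nat_lit 3733169148191526054607913353)) (C.cons (nat_lit 2368) (C.node (nat_lit 1) (nat_lit 2) (nat_lit 10) (C.cons (nat_lit 1542) (C.miq (nat_lit 1629993616) (nat_lit 2637918068731675500819582721)) (C.cons (nat_lit 1038) (C.miq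 (nat_lit 1461324579) (nat_lit 1415671781190971258003392541)) (C.cons (nat_lit 1030) (C.node (nat_lit 1) (nat_lit 3) (nat_lit 10) (C.cons (nat_lit 1290) (C.miq (nat_lit 369666931) (nat_lit 407431798393263356602027144)) (C.cons (nat_lit 1034) (C.node (nat_lit 1) (nat_lit 8) (nat_lit 10) (C.cons (nat_lit 1314) (C.node (nat_lit 1) (nat_lit 9) (nat_lit 10) (C.cons (nat_lit 1538) (C.node (nat_lit 4) (nat_lit 5) (nat_lit 11) (C.cons (nat_lit 2352) (C.miq (nat_lit 1750729906) (nat_lit 1588548689359762469222090781)) (C.cons (nat_lit 2098) (C.miq (nat_lit 2461337364) (nat_lit 3757351796167253557779760275)) (C.cons (nat_lit 2096) (C.node (nat_lit 4) (nat_lit 8) (nat_lit 10) (C.cons (nat_lit 1304) (C.miq (nat_lit 946578439) (nat_lit 2862795518369475163129447571)) (C.cons (nat_lit 1300) (C.miq (nat_lit 1705511716) (nat_lit 1588534744166181546589685789)) (C.cons (nat_lit 1296) (C.node (nat_lit 2) (nat_lit 4) (nat_lit 10) (C.cons (nat_lit 1556) (C.node (nat_lit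 2) (nat_lit 3) (nat_lit 10) (C.cons (nat_lit 1292) (C.miq (nat_lit 1973947171) (nat_lit 1588535777183849674324051997)) (C.cons (nat_lit 1036) (C.node (nat_lit 4) (nat_lit 5) (nat_lit 10) (C.cons (nat_lit 1136) (C.miq (nat_lit 1967720098) (nat_lit 678219283593532010919101509)) (C.cons (nat_lit 1072) (C.node (nat_lit 5) (nat_lit 6) (nat_lit 10) (C.cons (nat_lit 1632) (C.miq (nat_lit 3046377122) (nat_lit 678245699331047693300794437)) (C.cons (nat_lit 1120) (C.node (nat_lit 5) (nat_lit 9) (nat_lit 10) C.nil) C.nil))) C.nil))) C.nil))) (C.cons (nat_lit 1044) (C.node (nat_lit 2) (nat_lit 7) (nat_lit 10) (C.cons (nat_lit 1412) (C.node (nat_lit 3) (nat_lit 2) (nat_lit 10) (C.cons (nat_lit 1548) (C.node (nat_lit 6) (nat_lit 7) (nat_lit 10) (C.cons (nat_lit 1728) (C.miq (nat_lit 1782282528) (nat_lit 3878275959259405342769742469)) (C.cons (nat_lit 1216) (C.node (nat_lit 7) (nat_lit 9) (nat_lit 10) (C.cons (nat_lit 1664) (C.node (nat_lit 3) (nat_lit 4) (nat_lit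 10) C.nil) C.nil)) C.nil))) (C.cons (nat_lit 1036) (C.node (nat_lit 2) (nat_lit 9) (nat_lit 10) (C.cons (nat_lit 1540) (C.node (nat_lit 3) (nat_lit 8) (nat_lit 10) (C.cons (nat_lit 1352) (C.node (nat_lit 3) (nat_lit 4) (nat_lit 10) C.nil) C.nil)) C.nil)) C.nil))) (C.cons (nat_lit 1156) (C.node (nat_lit 2) (nat_lit 8) (nat_lit 10) (C.cons (nat_lit 1292)
  (C.miq (nat_lit 1973947171) (nat_lit 1588535777183849674324051997)) (C.cons (nat_lit 1284) (C.node (nat_lit 7) (nat_lit 8) (nat_lit 10) (C.cons (nat_lit 1472) (C.miq (nat_lit 981776224) (nat_lit 1566806177010978552659642593)) C.nil)) C.nil))) C.nil))) C.nil))) C.nil)))) C.nil)))) C.nil)) (C.cons (nat_lit 1282) (C.node (nat_lit 1) (nat_lit 5) (nat_lit 10) (C.cons (nat_lit 1570) (C.node (nat_lit 1) (nat_lit 2) (nat_lit 3) (C.cons (nat_lit 110) (C.miq (nat_lit 2602633811) (nat_lit 2637885787127430143615566889)) (C.cons (nat_lit 78) (C.miq (nat_lit 1362274571) (nat_lit 94353546852440124753252097)) (C.cons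 (nat_lit 46) (C.miq (nat_lit 2602633811) (nat_lit 2637885787127430143611372585)) (C.cons (nat_lit 14) (C.miq (nat_lit 1362274571) (nat_lit 16982294397103857572056833)) C.nil))))) (C.cons (nat_lit 1058) (C.node (nat_lit 1) (nat_lit 9) (nat_lit 10) (C.cons (nat_lit 1538) (C.node (nat_lit 2) (nat_lit 7) (nat_lit 10) (C.cons (nat_lit 1412) (C.node (nat_lit 2) (nat_lit 3) (nat_lit 10) (C.cons (nat_lit 1548) (C.node (nat_lit 2) (nat_lit 4) (nat_lit 10) (C.cons (nat_lit 1044) (C.node (nat_lit 6) (nat_lit 7) (nat_lit 10) (C.cons (nat_lit 1728) (C.miq (nat_lit 1782282528) (nat_lit 3878275959259405342769742469)) (C.cons (nat_lit 1216) (C.node (nat_lit 7) (nat_lit 9) (nat_lit 10) (C.cons (nat_lit 1664) (C.node (nat_lit 5) (nat_lit 9) (nat_lit 10) (C.cons (nat_lit 1632) (C.miq (nat_lit 1764448816) (nat_lit 3099727731400562556494742569)) C.nil)) C.nil)) C.nil))) C.nil)) (C.cons (nat_lit 1036) (C.node (nat_lit 2) (nat_lit 4) (nat_lit 10) (C.cons (nat_lit 1556)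 (C.node (nat_lit 5) (nat_lit 9) (nat_lit 10) (C.cons (nat_lit 1632) (C.miq (nat_lit 3046377122) (nat_lit 678245699331047693300794437)) (C.cons (nat_lit 1568) (C.node (nat_lit 6) (nat_lit 7) (nat_lit 10) (C.cons (nat_lit 1728) (C.miq (nat_lit 1764457024) (nat_lit 3099727731427584188618704019)) (C.cons (nat_lit 1216) (C.node (nat_lit 7) (nat_lit 9) (nat_lit 10) C.nil) C.nil))) C.nil))) (C.cons (nat_lit 1044) (C.node (nat_lit 2) (nat_lit 9) (nat_lit 10) (C.cons (nat_lit 1540) (C.node (nat_lit 3) (nat_lit 6) (nat_lit 11) (C.cons (nat_lit 2632) (C.node (nat_lit 4) (nat_lit 6) (nat_lit 11) C.nil) C.nil)) C.nil)) C.nil))) C.nil))) (C.cons (nat_lit 1156) (C.node (nat_lit 7) (nat_lit 8) (nat_lit 10) (C.cons (nat_lit 1472) (C.miq (nat_lit 1790215984) (nat_lit 3733169147937072675720855945)) (C.cons (nat_lit 1408) (C.node (nat_lit 3) (nat_lit 6) (nat_lit 11) (C.cons (nat_lit 2632) (C.node (nat_lit 4) (nat_lit 6) (nat_lit 11) (C.cons (nat_lit 2128) (C.node (nat_lit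 1) (nat_lit 2) (nat_lit 3) (C.cons (nat_lit 110) (C.miq (nat_lit 2589002531) (nat_lit 1279053165880586951245826077)) (C.cons (nat_lit 78) (C.miq (nat_lit 2338457905) (nat_lit 2558091886879403409195008523)) (C.cons (nat_lit 46) (C.miq (nat_lit 2589002531) (nat_lit 1279053165880586951241631773)) (C.cons (nat_lit 14) (C.node (nat_lit 1) (nat_lit 6) (nat_lit 7) (C.cons (nat_lit 962) (C.miq (nat_lit 1629722635) (nat_lit 16973513575786869293911809)) (C.cons (nat_lit 706) (C.miq (nat_lit 1133579111) (nat_lit 632289805380396203284498657)) (C.cons (nat_lit 450) (C.miq (nat_lit 1108872054) (nat_lit 317953707696033211342784737)) (C.cons (nat_lit 202) (C.miq (nat_lit 2316503911) (nat_lit 1250036548133106397666216161)) (C.cons (nat_lit 194) (C.node (nat_lit 4) (nat_lit 9) (nat_lit 11) (C.cons (nat_lit 2576) (C.node (nat_lit 1) (nat_lit 9) (nat_lit 11) (C.cons (nat_lit 2562) (C.node (nat_lit 5) (nat_lit 9) (nat_lit 11) C.nil) C.nil)) C.nil)) C.nil)))))) C.nil)))))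 C.nil)) (C.cons (nat_lit 2120) (C.node (nat_lit 3) (nat_lit 9) (nat_lit 11) (C.cons (nat_lit 2600) (C.miq (nat_lit 1203309109) (nat_lit 3249602952077169548822316073)) (C.cons (nat_lit 2568) (C.node (nat_lit 4) (nat_lit 6) (nat_lit 11) (C.cons (nat_lit 2640) (C.node (nat_lit 1) (nat_lit 9) (nat_lit 11) (C.cons (nat_lit 2562) (C.node (nat_lit 5) (nat_lit 9) (nat_lit 11) C.nil) C.nil)) (C.cons (nat_lit 2128)
  (C.node (nat_lit 6) (nat_lit 9) (nat_lit 11) C.nil) C.nil))) C.nil))) C.nil))) C.nil))) C.nil))) C.nil)) C.nil))) C.nil))) C.nil))) C.nil)))) C.nil))) (C.cons (nat_lit 3074) (C.node (nat_lit 6) (nat_lit 10) (nat_lit 11) (C.cons (nat_lit 3136) (C.node (nat_lit 2) (nat_lit 7) (nat_lit 10) (C.cons (nat_lit 1412) (C.node (nat_lit 1) (nat_lit 2) (nat_lit 10) (C.cons (nat_lit 1542) (C.miq (nat_lit 824641960) (nat_lit 2637883388116759862814445313)) (C.cons (nat_lit 1038) (C.miq (nat_lit 1461324579) (nat_lit 1415671781190971258003392541)) (C.cons (nat_lit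 1030) (C.node (nat_lit 2) (nat_lit 3) (nat_lit 10) (C.cons (nat_lit 1548) (C.node (nat_lit 2) (nat_lit 4) (nat_lit 10) (C.cons (nat_lit 1044) (C.node (nat_lit 6) (nat_lit 7) (nat_lit 10) (C.cons (nat_lit 1728) (C.miq (nat_lit 1782282528) (nat_lit 3878275959259405342769742469)) (C.cons (nat_lit 1216) (C.node (nat_lit 7) (nat_lit 9) (nat_lit 10) (C.cons (nat_lit 1664) (C.node (nat_lit 7) (nat_lit 2) (nat_lit 3) (C.cons (nat_lit 204) (C.miq (nat_lit 1672180368) (nat_lit 3878275958830437478378308229)) (C.cons (nat_lit 172) (C.miq (nat_lit 2320960291) (nat_lit 1431375421075300645021157405)) (C.cons (nat_lit 140) (C.node (nat_lit 9) (nat_lit 10) (nat_lit 5) (C.cons (nat_lit 1634) (C.miq (nat_lit 1797869626) (nat_lit 3099715944111527188165821481)) (C.cons (nat_lit 1632) (C.miq (nat_lit 1797869626) (nat_lit 3099715907218039040746718249)) (C.cons (nat_lit 1570) (C.miq (nat_lit 280335146) (nat_lit 2747917349519468171773609484)) (C.cons (nat_lit 1568) (C.node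 (nat_lit 1) (nat_lit 9) (nat_lit 10) (C.cons (nat_lit 1602) (C.node (nat_lit 9) (nat_lit 10) (nat_lit 4) (C.cons (nat_lit 1552) (C.node (nat_lit 1) (nat_lit 9) (nat_lit 11) C.nil) C.nil)) (C.cons (nat_lit 1538) (C.node (nat_lit 9) (nat_lit 5) (nat_lit 11) C.nil) C.nil))) C.nil))))) C.nil)))) C.nil)) C.nil))) C.nil)) (C.cons (nat_lit 1036) (C.node (nat_lit 2) (nat_lit 4) (nat_lit 10) (C.cons (nat_lit 1556) (C.node (nat_lit 6) (nat_lit 7) (nat_lit 10) (C.cons (nat_lit 1728) (C.miq (nat_lit 1764457024) (nat_lit 3099727731427584188618704019)) (C.cons (nat_lit 1216) (C.node (nat_lit 7) (nat_lit 9) (nat_lit 10) (C.cons (nat_lit 1664) (C.node (nat_lit 2) (nat_lit 4) (nat_lit 7) (C.cons (nat_lit 212) (C.miq (nat_lit 2456527984) (nat_lit 2558157888686518426509837459)) (C.cons (nat_lit 180) (C.miq (nat_lit 2455479408) (nat_lit 3757412301744230430379410579)) (C.cons (nat_lit 148) (C.node (nat_lit 2) (nat_lit 5) (nat_lit 7) (C.cons (nat_lit 172) (C.miq (nat_lit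 2317552471) (nat_lit 1252454399772335527164643553)) (C.cons (nat_lit 164) (C.node (nat_lit 4) (nat_lit 5) (nat_lit 10) (C.cons (nat_lit 1328) (C.miq (nat_lit 2231870610) (nat_lit 2747914435160485370584696340)) (C.cons (nat_lit 1136) (C.miq (nat_lit 1967720098) (nat_lit 678219283593532010919101509)) (C.cons (nat_lit 1072) (C.node (nat_lit 4) (nat_lit 8) (nat_lit 10) (C.cons (nat_lit 1304) (C.miq (nat_lit 1916996008) (nat_lit 2510946177091563806751461121)) (C.cons (nat_lit 1296) (C.node (nat_lit 2) (nat_lit 3) (nat_lit 7) C.nil) C.nil))) C.nil)))) C.nil))) C.nil)))) C.nil)) C.nil))) (C.cons (nat_lit 1044) (C.node (nat_lit 2) (nat_lit 9) (nat_lit 10) (C.cons (nat_lit 1540) (C.node (nat_lit 6) (nat_lit 7) (nat_lit 10) (C.cons (nat_lit 1728) (C.node (nat_lit 3) (nat_lit 9) (nat_lit 10) (C.cons (nat_lit 1560) (C.miq (nat_lit 1470696244) (nat_lit 2089034165557310965371373597)) (C.cons (nat_lit 1544) (C.node (nat_lit 4) (nat_lit 9) (nat_lit 10) (C.cons (nat_lit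 1552) (C.node (nat_lit 3) (nat_lit 9) (nat_lit 11) C.nil) C.nil)) C.nil))) (C.cons (nat_lit 1216) (C.node (nat_lit 7) (nat_lit 9) (nat_lit 10) (C.cons (nat_lit 1664) (C.node (nat_lit 8) (nat_lit 10) (nat_lit 4) (C.cons (nat_lit 1304) (C.miq (nat_lit 1739066164) (nat_lit 1707009474488415635207882781)) (C.cons (nat_lit 1328) (C.node (nat_lit 8) (nat_lit 4) (nat_lit 11) C.nil) (C.cons (nat_lit 1296) (C.node (nat_lit 10) (nat_lit 5) (nat_lit 4) (C.cons (nat_lit 1072) (C.node (nat_lit 1) (nat_lit 10) (nat_lit 3) (C.cons (nat_lit 1354)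
  (C.miq (nat_lit 438909040) (nat_lit 1861755410234802662145327497)) C.nil)) C.nil)) C.nil)))) C.nil)) C.nil))) C.nil)) C.nil))) C.nil))) C.nil)))) (C.cons (nat_lit 1156) (C.node (nat_lit 7) (nat_lit 8) (nat_lit 10) (C.cons (nat_lit 1472) (C.miq (nat_lit 1790215984) (nat_lit 3733169147937072675720855945)) (C.cons (nat_lit 1408) (C.node (nat_lit 6) (nat_lit 7) (nat_lit 10) (C.cons (nat_lit 1728) (C.node (nat_lit 2) (nat_lit 3) (nat_lit 7) (C.cons (nat_lit 204) (C.miq (nat_lit 1000743063) (nat_lit 3791195134031908152337760901)) (C.cons (nat_lit 172) (C.miq (nat_lit 2320960291) (nat_lit 1431375421075300645021157405)) (C.cons (nat_lit 140) (C.node (nat_lit 3) (nat_lit 9) (nat_lit 10) (C.cons (nat_lit 1560) (C.miq (nat_lit 1470696244) (nat_lit 2089034165557310965371373597)) (C.cons (nat_lit 1548) (C.miq (nat_lit 1782282528) (nat_lit 3878275959259405342769742469)) (C.cons (nat_lit 1544) (C.node (nat_lit 4) (nat_lit 9) (nat_lit 10) (C.cons (nat_lit 1556)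 (C.miq (nat_lit 1764457024) (nat_lit 3099727731427584188618704019)) (C.cons (nat_lit 1552) (C.node (nat_lit 2) (nat_lit 3) (nat_lit 10) (C.cons (nat_lit 1292) (C.miq (nat_lit 1379383936) (nat_lit 169291545070157403009912577)) (C.cons (nat_lit 1038) (C.miq (nat_lit 1461324579) (nat_lit 1415671781190971258003392541)) (C.cons (nat_lit 1036) (C.node (nat_lit 3) (nat_lit 9) (nat_lit 11) (C.cons (nat_lit 2632) (C.miq (nat_lit 967095920) (nat_lit 1876291186670195134365370593)) (C.cons (nat_lit 2600) (C.miq (nat_lit 1245251509) (nat_lit 1866591814438033772958451937)) (C.cons (nat_lit 2568) (C.node (nat_lit 4) (nat_lit 6) (nat_lit 7) (C.cons (nat_lit 216) (C.miq (nat_lit 2322991924) (nat_lit 2089030033927991217826039837)) (C.cons (nat_lit 212) (C.miq (nat_lit 2519443264) (nat_lit 2558157888734932122491225235)) (C.cons (nat_lit 208) (C.node (nat_lit 1) (nat_lit 2) (nat_lit 10) (C.cons (nat_lit 1542) (C.node (nat_lit 5) (nat_lit 9) (nat_lit 10) C.nil) (C.cons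 (nat_lit 1030) (C.node (nat_lit 2) (nat_lit 9) (nat_lit 10) C.nil) C.nil))) C.nil)))) C.nil)))) C.nil)))) C.nil))) C.nil)))) C.nil)))) (C.cons (nat_lit 1216) (C.node (nat_lit 7) (nat_lit 9) (nat_lit 10) (C.cons (nat_lit 1664) (C.node (nat_lit 1) (nat_lit 2) (nat_lit 10) (C.cons (nat_lit 1542) (C.node (nat_lit 2) (nat_lit 3) (nat_lit 10) (C.cons (nat_lit 1292) (C.miq (nat_lit 1518842416) (nat_lit 1702209484341507196537341981)) (C.cons (nat_lit 1036) (C.node (nat_lit 2) (nat_lit 4) (nat_lit 10) (C.cons (nat_lit 1300) (C.node (nat_lit 2) (nat_lit 4) (nat_lit 9) (C.cons (nat_lit 596) (C.miq (nat_lit 1380366976) (nat_lit 720561718814428341031997185)) (C.cons (nat_lit 532) (C.node (nat_lit 4) (nat_lit 5) (nat_lit 10) (C.cons (nat_lit 1136) (C.miq (nat_lit 610641931) (nat_lit 1373397063928718749029437185)) (C.cons (nat_lit 1072) (C.node (nat_lit 3) (nat_lit 9) (nat_lit 11) C.nil) C.nil))) C.nil))) (C.cons (nat_lit 1044) (C.node (nat_lit 2) (nat_lit 8) (nat_lit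 10) (C.cons (nat_lit 1284) (C.node (nat_lit 5) (nat_lit 9) (nat_lit 10) (C.cons (nat_lit 1568) (C.node (nat_lit 4) (nat_lit 5) (nat_lit 10) C.nil) C.nil)) C.nil)) C.nil))) C.nil))) (C.cons (nat_lit 1038) (C.miq (nat_lit 1461324579) (nat_lit 1415671781190971258003392541)) (C.cons (nat_lit 1030) (C.node (nat_lit 2) (nat_lit 3) (nat_lit 7) (C.cons (nat_lit 204) (C.node (nat_lit 1) (nat_lit 2) (nat_lit 3) (C.cons (nat_lit 46) (C.miq (nat_lit 2602633811) (nat_lit 2637885787127430143611372585)) (C.cons (nat_lit 14) (C.node (nat_lit 2) (nat_lit 3) (nat_lit 10) (C.cons (nat_lit 1548) (C.miq (nat_lit 1805873298) (nat_lit 3878237793099330548340097669)) (C.cons (nat_lit 1292) (C.miq (nat_lit 1379383936) (nat_lit 246662797525493670191107841)) (C.cons (nat_lit 1036) (C.node (nat_lit 6) (nat_lit 7) (nat_lit 8) (C.cons (nat_lit 962) (C.miq (nat_lit 1108872054) (nat_lit 317953707696033211376339169)) (C.cons (nat_lit 960) (C.miq (nat_lit 2519435056) (nat_lit 2558157888518759306017702281))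 (C.cons (nat_lit 450) (C.miq (nat_lit 1108872054) (nat_lit 317953707696033211342784737)) (C.cons (nat_lit 448)
  (C.node (nat_lit 1) (nat_lit 3) (nat_lit 7) (C.cons (nat_lit 170) (C.node (nat_lit 1) (nat_lit 7) (nat_lit 8) (C.cons (nat_lit 898) (C.miq (nat_lit 2270859568) (nat_lit 1431439024620473320540275211)) (C.cons (nat_lit 386) (C.node (nat_lit 3) (nat_lit 5) (nat_lit 11) C.nil) C.nil))) (C.cons (nat_lit 138) (C.node (nat_lit 1) (nat_lit 6) (nat_lit 7) (C.cons (nat_lit 706) (C.node (nat_lit 4) (nat_lit 6) (nat_lit 7) C.nil) (C.cons (nat_lit 194) (C.node (nat_lit 4) (nat_lit 6) (nat_lit 7) (C.cons (nat_lit 208) (C.node (nat_lit 6) (nat_lit 7) (nat_lit 9) C.nil) C.nil)) C.nil))) C.nil))) C.nil))))) C.nil)))) C.nil))) (C.cons (nat_lit 172) (C.miq (nat_lit 2320960291) (nat_lit 1431375421075300645021157405)) (C.cons (nat_lit 140) (C.node (nat_lit 2) (nat_lit 3) (nat_lit 10) (C.cons (nat_lit 1548) (C.node (nat_lit 5) (nat_lit 9) (nat_lit 10) (C.cons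 (nat_lit 1634) (C.miq (nat_lit 1764448816) (nat_lit 3099727731401125506448163881)) (C.cons (nat_lit 1632) (C.miq (nat_lit 1764448816) (nat_lit 3099727731400562556494742569)) (C.cons (nat_lit 1570) (C.miq (nat_lit 1359718706) (nat_lit 2479564188952103486448535052)) (C.cons (nat_lit 1568) (C.node (nat_lit 1) (nat_lit 9) (nat_lit 10) (C.cons (nat_lit 1602) (C.node (nat_lit 4) (nat_lit 9) (nat_lit 10) C.nil) (C.cons (nat_lit 1538) (C.node (nat_lit 2) (nat_lit 4) (nat_lit 10) (C.cons (nat_lit 1044) (C.node (nat_lit 2) (nat_lit 8) (nat_lit 10) C.nil) C.nil)) C.nil))) C.nil))))) (C.cons (nat_lit 1292) (C.miq (nat_lit 1379383936) (nat_lit 169291545070157403009912577)) (C.cons (nat_lit 1036) (C.node (nat_lit 2) (nat_lit 8) (nat_lit 10) (C.cons (nat_lit 1300) (C.node (nat_lit 2) (nat_lit 9) (nat_lit 10) (C.cons (nat_lit 1540) (C.node (nat_lit 2) (nat_lit 4) (nat_lit 7) (C.cons (nat_lit 212) (C.miq (nat_lit 1380366976) (nat_lit 256334204082410737944825601))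 (C.cons (nat_lit 180) (C.miq (nat_lit 1696861096) (nat_lit 217612864723192062472883969)) C.nil))) C.nil)) (C.cons (nat_lit 1284) (C.node (nat_lit 2) (nat_lit 4) (nat_lit 10) (C.cons (nat_lit 1556) (C.node (nat_lit 3) (nat_lit 9) (nat_lit 10) (C.cons (nat_lit 1544) (C.node (nat_lit 3) (nat_lit 4) (nat_lit 10) C.nil) C.nil)) (C.cons (nat_lit 1044) (C.node (nat_lit 2) (nat_lit 9) (nat_lit 10) C.nil) C.nil))) C.nil))) C.nil)))) C.nil)))) C.nil)))) C.nil)) C.nil))) C.nil))) C.nil))) C.nil)) C.nil))) C.nil)))) (C.cons (nat_lit 2184) (C.node (nat_lit 7) (nat_lit 10) (nat_lit 11) (C.cons (nat_lit 3200) (C.ref (nat_lit 296) (nat_lit 198128827013136)) C.nil)) C.nil))) C.nil))) C.nil)) C.nil))) C.nil))) (C.cons (nat_lit 3076) (C.node (nat_lit 5) (nat_lit 10) (nat_lit 11) (C.cons (nat_lit 3106) (C.node (nat_lit 1) (nat_lit 2) (nat_lit 10) (C.cons (nat_lit 1542) (C.miq (nat_lit 1361558160) (nat_lit 2637918068722668301564841729)) (C.cons (nat_lit 1038) (C.miq (nat_lit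 1906684464) (nat_lit 3754965525786500615876708381)) (C.cons (nat_lit 1030) (C.node (nat_lit 1) (nat_lit 9) (nat_lit 10) (C.cons (nat_lit 1602) (C.node (nat_lit 1) (nat_lit 3) (nat_lit 10) (C.cons (nat_lit 1290) (C.miq (nat_lit 2276536410) (nat_lit 2637899934809605373041968169)) (C.cons (nat_lit 1034) (C.node (nat_lit 1) (nat_lit 8) (nat_lit 10) (C.cons (nat_lit 1282) (C.node (nat_lit 1) (nat_lit 9) (nat_lit 11) (C.cons (nat_lit 2578) (C.node (nat_lit 4) (nat_lit 6) (nat_lit 11) (C.cons (nat_lit 2128) (C.node (nat_lit 2) (nat_lit 6) (nat_lit 11) (C.cons (nat_lit 2628) (C.node (nat_lit 5) (nat_lit 9) (nat_lit 11) (C.cons (nat_lit 2600) (C.miq (nat_lit 1500134176) (nat_lit 1936718809536920665245157405)) (C.cons (nat_lit 2592) (C.node (nat_lit 3) (nat_lit 5) (nat_lit 11) (C.cons (nat_lit 2344) (C.miq (nat_lit 461874480) (nat_lit 2940129195314359811862758441)) (C.cons (nat_lit 2088) (C.node (nat_lit 1) (nat_lit 2) (nat_lit 4) (C.cons (nat_lit 118) (C.miq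 (nat_lit 2316569430) (nat_lit 1415658352402642329421613281)) (C.cons (nat_lit 86) (C.node (nat_lit 1) (nat_lit 7) (nat_lit 9) (C.cons (nat_lit 930) (C.miq (nat_lit 873925528) (nat_lit 1415659384923786330549391105)) (C.cons (nat_lit 898)
  (C.miq (nat_lit 873925528) (nat_lit 1415659384923786330547293953)) (C.cons (nat_lit 674) (C.miq (nat_lit 563394384) (nat_lit 3116649077468136401158605025)) (C.cons (nat_lit 642) (C.node (nat_lit 1) (nat_lit 2) (nat_lit 3) (C.cons (nat_lit 46) (C.node (nat_lit 1) (nat_lit 2) (nat_lit 9) (C.cons (nat_lit 518) (C.node (nat_lit 1) (nat_lit 5) (nat_lit 6) (C.cons (nat_lit 354) (C.miq (nat_lit 2150982689) (nat_lit 1287512528131848152044929110)) (C.cons (nat_lit 98) (C.node (nat_lit 1) (nat_lit 5) (nat_lit 9) (C.cons (nat_lit 802) (C.miq (nat_lit 2503704864) (nat_lit 2524307965525075964200812807)) (C.cons (nat_lit 546) (C.node (nat_lit 1) (nat_lit 8) (nat_lit 9) C.nil) C.nil))) C.nil))) C.nil)) (C.cons (nat_lit 14) (C.node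 (nat_lit 1) (nat_lit 2) (nat_lit 5) (C.cons (nat_lit 550) (C.node (nat_lit 1) (nat_lit 8) (nat_lit 9) (C.cons (nat_lit 770) (C.node (nat_lit 2) (nat_lit 9) (nat_lit 10) (C.cons (nat_lit 1556) (C.miq (nat_lit 1982073754) (nat_lit 103989222263972332249026305)) (C.cons (nat_lit 1548) (C.miq (nat_lit 1452935971) (nat_lit 1936718809444878347890591773)) (C.cons (nat_lit 1540) (C.node (nat_lit 2) (nat_lit 3) (nat_lit 9) (C.cons (nat_lit 780) (C.node (nat_lit 2) (nat_lit 4) (nat_lit 9) (C.cons (nat_lit 532) (C.node (nat_lit 2) (nat_lit 3) (nat_lit 10) (C.cons (nat_lit 1164) (C.miq (nat_lit 1647819136) (nat_lit 1407231584220427490064666369)) (C.cons (nat_lit 1036) (C.node (nat_lit 3) (nat_lit 9) (nat_lit 11) (C.cons (nat_lit 2696) (C.miq (nat_lit 638098291) (nat_lit 407422390410233526608267912)) (C.cons (nat_lit 2568) (C.node (nat_lit 7) (nat_lit 9) (nat_lit 11) (C.cons (nat_lit 2688) (C.node (nat_lit 1) (nat_lit 3) (nat_lit 7) C.nil) C.nil)) C.nil))) C.nil)))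 C.nil)) (C.cons (nat_lit 524) (C.node (nat_lit 2) (nat_lit 3) (nat_lit 6) (C.cons (nat_lit 364) (C.miq (nat_lit 2837646181) (nat_lit 633496776341660860962048225)) (C.cons (nat_lit 332) (C.miq (nat_lit 840402496) (nat_lit 2637883388062991888774529361)) (C.cons (nat_lit 204) (C.miq (nat_lit 2300775271) (nat_lit 633484380129643328132876513)) (C.cons (nat_lit 108) (C.miq (nat_lit 2837646181) (nat_lit 633496776341660860945271009)) (C.cons (nat_lit 76) (C.node (nat_lit 2) (nat_lit 4) (nat_lit 9) (C.cons (nat_lit 788) (C.node (nat_lit 2) (nat_lit 4) (nat_lit 7) (C.cons (nat_lit 180) (C.miq (nat_lit 2189136976) (nat_lit 2637946992564911032487707185)) (C.cons (nat_lit 148) (C.node (nat_lit 1) (nat_lit 3) (nat_lit 7) C.nil) C.nil))) (C.cons (nat_lit 532) (C.node (nat_lit 2) (nat_lit 8) (nat_lit 9) (C.cons (nat_lit 772) (C.node (nat_lit 1) (nat_lit 3) (nat_lit 7) C.nil) C.nil)) C.nil))) C.nil)))))) C.nil))) C.nil)))) C.nil)) (C.cons (nat_lit 38) (C.node (nat_lit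 1) (nat_lit 2) (nat_lit 9) (C.cons (nat_lit 518) (C.node (nat_lit 1) (nat_lit 5) (nat_lit 9) (C.cons (nat_lit 802) (C.node (nat_lit 1) (nat_lit 4) (nat_lit 5) (C.cons (nat_lit 58) (C.miq (nat_lit 1365914656) (nat_lit 1936718808821400356639803421)) C.nil)) C.nil)) C.nil)) C.nil))) C.nil))) C.nil))))) (C.cons (nat_lit 54) (C.miq (nat_lit 1648468153) (nat_lit 65311546250857128496598785)) (C.cons (nat_lit 22) (C.miq (nat_lit 1648468153) (nat_lit 26625920023188994906001153)) C.nil))))) C.nil))) C.nil))) (C.cons (nat_lit 2372) (C.miq (nat_lit 1093142454) (nat_lit 317953707441016882568890593)) (C.cons (nat_lit 2116) (C.miq (nat_lit 2602963978) (nat_lit 2558116586714212827058734227)) C.nil)))) C.nil)) (C.cons (nat_lit 2562) (C.node (nat_lit 2) (nat_lit 6) (nat_lit 11) (C.cons (nat_lit 2628) (C.miq (nat_lit 1100679778) (nat_lit 3097306264069735118773945413)) (C.cons (nat_lit 2372) (C.miq (nat_lit 1093142454) (nat_lit 317953707441016882568890593)) (C.cons (nat_lit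 2116) (C.node (nat_lit 2) (nat_lit 9) (nat_lit 11) (C.cons (nat_lit 2596) (C.miq (nat_lit 1383184650) (nat_lit 2637933434716925610947710721)) (C.cons (nat_lit 2564) (C.node (nat_lit 2) (nat_lit 5) (nat_lit 11) (C.cons (nat_lit 2340) (C.node (nat_lit 4) (nat_lit 5) (nat_lit 11) (C.cons (nat_lit 2096) (C.node (nat_lit 1) (nat_lit 2) (nat_lit 4) (C.cons (nat_lit 534)
  (C.miq (nat_lit 1529415444) (nat_lit 3099696150755136548722050195)) (C.cons (nat_lit 118) (C.miq (nat_lit 2316569430) (nat_lit 1415658352402642329421613281)) (C.cons (nat_lit 86) (C.miq (nat_lit 2519441728) (nat_lit 2558157888699465734259803283)) (C.cons (nat_lit 54) (C.miq (nat_lit 2233119296) (nat_lit 3754994450325677012533053469)) (C.cons (nat_lit 22) (C.node (nat_lit 1) (nat_lit 5) (nat_lit 7) (C.cons (nat_lit 930) (C.miq (nat_lit 2485211319) (nat_lit 26613523661426774451292385)) (C.cons (nat_lit 674) (C.miq (nat_lit 2485211319) (nat_lit 26608801294943904806078689)) (C.cons (nat_lit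 418) (C.miq (nat_lit 1115753303) (nat_lit 317969092280591363711568097)) (C.cons (nat_lit 170) (C.miq (nat_lit 2316503895) (nat_lit 1250036548133106260225165537)) (C.cons (nat_lit 162) (C.node (nat_lit 1) (nat_lit 2) (nat_lit 9) (C.cons (nat_lit 550) (C.node (nat_lit 1) (nat_lit 2) (nat_lit 3) (C.cons (nat_lit 78) (C.miq (nat_lit 3105032802) (nat_lit 632306518627044419198387269)) (C.cons (nat_lit 14) (C.node (nat_lit 1) (nat_lit 2) (nat_lit 6) (C.cons (nat_lit 70) (C.node (nat_lit 1) (nat_lit 3) (nat_lit 7) C.nil) C.nil)) C.nil))) (C.cons (nat_lit 518) (C.node (nat_lit 1) (nat_lit 3) (nat_lit 7) (C.cons (nat_lit 202) (C.node (nat_lit 1) (nat_lit 7) (nat_lit 8) (C.cons (nat_lit 898) (C.miq (nat_lit 2687932529) (nat_lit 88281137597021085936255874)) (C.cons (nat_lit 386) (C.node (nat_lit 1) (nat_lit 7) (nat_lit 9) C.nil) C.nil))) (C.cons (nat_lit 138) (C.node (nat_lit 1) (nat_lit 6) (nat_lit 7) (C.cons (nat_lit 450) (C.miq (nat_lit 1108872054) (nat_lit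 317953707696033211342784737)) (C.cons (nat_lit 194) (C.node (nat_lit 1) (nat_lit 4) (nat_lit 9) C.nil) C.nil))) C.nil))) C.nil))) C.nil)))))) C.nil)))))) C.nil)) (C.cons (nat_lit 2084) (C.node (nat_lit 2) (nat_lit 8) (nat_lit 11) (C.cons (nat_lit 2308) (C.node (nat_lit 4) (nat_lit 5) (nat_lit 11) (C.cons (nat_lit 2352) (C.node (nat_lit 1) (nat_lit 4) (nat_lit 11) (C.cons (nat_lit 2130) (C.node (nat_lit 4) (nat_lit 9) (nat_lit 11) (C.cons (nat_lit 2576) (C.node (nat_lit 6) (nat_lit 8) (nat_lit 11) (C.cons (nat_lit 2376) (C.miq (nat_lit 991397440) (nat_lit 2637883388638335520084263249)) (C.cons (nat_lit 2368) (C.node (nat_lit 6) (nat_lit 9) (nat_lit 11) (C.cons (nat_lit 2632) (C.miq (nat_lit 907327904) (nat_lit 2575050310407450256179662593)) C.nil)) C.nil))) C.nil)) (C.cons (nat_lit 2066) (C.node (nat_lit 1) (nat_lit 4) (nat_lit 6) (C.cons (nat_lit 122) (C.miq (nat_lit 2316569430) (nat_lit 1415658352402642329421875425)) (C.cons (nat_lit 118) (C.miq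 (nat_lit 2316569430) (nat_lit 1415658352402642329421613281)) (C.cons (nat_lit 114) (C.miq (nat_lit 2316569430) (nat_lit 1415658352402642329421351137)) (C.cons (nat_lit 90) (C.miq (nat_lit 1689916169) (nat_lit 3733192482679322642997117451)) (C.cons (nat_lit 86) (C.miq (nat_lit 2519441728) (nat_lit 2558157888699465734259803283)) (C.cons (nat_lit 82) (C.node (nat_lit 3) (nat_lit 5) (nat_lit 11) (C.cons (nat_lit 2600) (C.node (nat_lit 7) (nat_lit 9) (nat_lit 11) (C.cons (nat_lit 2688) (C.node (nat_lit 3) (nat_lit 7) (nat_lit 11) (C.cons (nat_lit 3208) (C.miq (nat_lit 1203309109) (nat_lit 3249602952077169548822316073)) C.nil)) C.nil)) (C.cons (nat_lit 2088) (C.node (nat_lit 5) (nat_lit 9) (nat_lit 11) C.nil) C.nil))) C.nil))))))) C.nil))) (C.cons (nat_lit 2096) (C.node (nat_lit 5) (nat_lit 8) (nat_lit 11) (C.cons (nat_lit 2344) (C.miq (nat_lit 461874480) (nat_lit 2940129195314359811862758441)) (C.cons (nat_lit 2336) (C.node (nat_lit 3) (nat_lit 5) (nat_lit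 11) (C.cons (nat_lit 2600) (C.node (nat_lit 7) (nat_lit 9) (nat_lit 11) C.nil) (C.cons (nat_lit 2088) (C.node (nat_lit 5) (nat_lit 9) (nat_lit 11) C.nil) C.nil))) C.nil))) C.nil))) C.nil)) C.nil))) C.nil))) C.nil)))) C.nil))) C.nil)) C.nil))) (C.cons (nat_lit 1538) (C.node (nat_lit 4) (nat_lit 5) (nat_lit 11) (C.cons (nat_lit 2352) (C.node (nat_lit 2) (nat_lit 5) (nat_lit 11) (C.cons (nat_lit 2596) (C.miq (nat_lit 1383184650) (nat_lit 2637933434716925610947710721)) (C.cons (nat_lit 2084)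
  (C.node (nat_lit 2) (nat_lit 8) (nat_lit 11) (C.cons (nat_lit 2372) (C.miq (nat_lit 1093142454) (nat_lit 317953707441016882568890593)) (C.cons (nat_lit 2308) (C.node (nat_lit 2) (nat_lit 6) (nat_lit 11) (C.cons (nat_lit 2628) (C.node (nat_lit 1) (nat_lit 9) (nat_lit 11) (C.cons (nat_lit 2578) (C.miq (nat_lit 1780031563) (nat_lit 1859376388918382558520150045)) (C.cons (nat_lit 2562) (C.node (nat_lit 4) (nat_lit 9) (nat_lit 11) (C.cons (nat_lit 2576) (C.node (nat_lit 1) (nat_lit 4) (nat_lit 11) (C.cons (nat_lit 2130) (C.miq (nat_lit 1761915505) (nat_lit 678246677108402977481361542)) (C.cons (nat_lit 2066) (C.node (nat_lit 4) (nat_lit 6) (nat_lit 11) (C.cons (nat_lit 2128) (C.node (nat_lit 2) (nat_lit 4) (nat_lit 9) (C.cons (nat_lit 1556) (C.miq (nat_lit 1956317734) (nat_lit 3114234841106178176723452997)) (C.cons (nat_lit 788) (C.miq (nat_lit 683119696) (nat_lit 2940119491674518079106253361)) (C.cons (nat_lit 534) (C.miq (nat_lit 1529415444) (nat_lit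 3177067403210472815903245459)) (C.cons (nat_lit 532) (C.node (nat_lit 2) (nat_lit 4) (nat_lit 6) (C.cons (nat_lit 212) (C.miq (nat_lit 2837711719) (nat_lit 643170138253449707562207457)) (C.cons (nat_lit 118) (C.miq (nat_lit 2316569430) (nat_lit 1415658352402642329421613281)) (C.cons (nat_lit 116) (C.miq (nat_lit 2874280006) (nat_lit 2519421571449315251943899473)) (C.cons (nat_lit 86) (C.miq (nat_lit 1638474763) (nat_lit 1859376388634937257055291421)) (C.cons (nat_lit 84) (C.node (nat_lit 1) (nat_lit 2) (nat_lit 4) (C.cons (nat_lit 54) (C.node (nat_lit 1) (nat_lit 2) (nat_lit 9) (C.cons (nat_lit 518) (C.node (nat_lit 2) (nat_lit 4) (nat_lit 10) (C.cons (nat_lit 1300) (C.miq (nat_lit 1411823776) (nat_lit 101591698958943121238724353)) (C.cons (nat_lit 1044) (C.node (nat_lit 1) (nat_lit 2) (nat_lit 3) (C.cons (nat_lit 78) (C.node (nat_lit 2) (nat_lit 8) (nat_lit 9) (C.cons (nat_lit 812) (C.miq (nat_lit 1982008216) (nat_lit 94303464140165952771460865))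 (C.cons (nat_lit 804) (C.miq (nat_lit 2840856609) (nat_lit 678228987022266119597981959)) (C.cons (nat_lit 780) (C.miq (nat_lit 1982008216) (nat_lit 94303464140165952769363713)) C.nil)))) C.nil)) C.nil))) C.nil)) (C.cons (nat_lit 22) (C.node (nat_lit 1) (nat_lit 2) (nat_lit 9) (C.cons (nat_lit 550) (C.node (nat_lit 1) (nat_lit 4) (nat_lit 5) (C.cons (nat_lit 122) (C.miq (nat_lit 2316569430) (nat_lit 1415658352402642329421875425)) (C.cons (nat_lit 114) (C.miq (nat_lit 2316569430) (nat_lit 1415658352402642329421351137)) (C.cons (nat_lit 58) (C.miq (nat_lit 2233054256) (nat_lit 664980055394062558841997341)) (C.cons (nat_lit 50) (C.node (nat_lit 1) (nat_lit 2) (nat_lit 3) (C.cons (nat_lit 78) (C.node (nat_lit 1) (nat_lit 3) (nat_lit 7) (C.cons (nat_lit 170) (C.miq (nat_lit 951414945) (nat_lit 2843396663790736512552928403)) C.nil)) (C.cons (nat_lit 14) (C.node (nat_lit 1) (nat_lit 2) (nat_lit 6) C.nil) C.nil))) C.nil))))) (C.cons (nat_lit 518) (C.node (nat_lit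 3) (nat_lit 5) (nat_lit 11) (C.cons (nat_lit 2600) (C.node (nat_lit 7) (nat_lit 9) (nat_lit 11) (C.cons (nat_lit 2688) (C.node (nat_lit 3) (nat_lit 7) (nat_lit 11) C.nil) C.nil)) (C.cons (nat_lit 2088) (C.node (nat_lit 5) (nat_lit 9) (nat_lit 11) C.nil) C.nil))) C.nil))) C.nil))) C.nil)))))) C.nil))))) C.nil)) C.nil))) C.nil)) C.nil))) (C.cons (nat_lit 2116) (C.node (nat_lit 2) (nat_lit 9) (nat_lit 11) (C.cons (nat_lit 2564) (C.node (nat_lit 3) (nat_lit 5) (nat_lit 11) (C.cons (nat_lit 2600) (C.node (nat_lit 7) (nat_lit 9) (nat_lit 11) (C.cons (nat_lit 2688) (C.node (nat_lit 3) (nat_lit 7) (nat_lit 11) (C.cons (nat_lit 3208) (C.miq (nat_lit 1203309109) (nat_lit 3249602952077169548822316073)) (C.cons (nat_lit 2184) (C.node (nat_lit 7) (nat_lit 10) (nat_lit 11) (C.cons (nat_lit 3200) (C.node (nat_lit 3) (nat_lit 8) (nat_lit 11) (C.cons (nat_lit 2376) (C.miq (nat_lit 1670417236) (nat_lit 632274420879999610106480944)) (C.cons (nat_lit 2314) (C.miq (nat_lit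 2214704531) (nat_lit 1415694821196548882217765416)) C.nil))) C.nil)) C.nil))) C.nil)) (C.cons (nat_lit 2088)
  (C.node (nat_lit 5) (nat_lit 9) (nat_lit 11) (C.cons (nat_lit 2592) (C.node (nat_lit 6) (nat_lit 10) (nat_lit 11) (C.cons (nat_lit 3144) (C.node (nat_lit 7) (nat_lit 10) (nat_lit 11) (C.cons (nat_lit 3200) (C.node (nat_lit 1) (nat_lit 3) (nat_lit 11) (C.cons (nat_lit 2314) (C.node (nat_lit 6) (nat_lit 8) (nat_lit 11) C.nil) C.nil)) C.nil)) (C.cons (nat_lit 3136) (C.node (nat_lit 3) (nat_lit 10) (nat_lit 11) (C.cons (nat_lit 3208) (C.node (nat_lit 7) (nat_lit 9) (nat_lit 11) C.nil) C.nil)) C.nil))) C.nil)) C.nil))) C.nil)) C.nil))) C.nil))) C.nil))) (C.cons (nat_lit 2096) (C.node (nat_lit 4) (nat_lit 8) (nat_lit 11) (C.cons (nat_lit 2322) (C.node (nat_lit 1) (nat_lit 8) (nat_lit 10) (C.cons (nat_lit 1354) (C.miq (nat_lit 2065171875) (nat_lit 2807133003355395873842005033)) (C.cons (nat_lit 1346) (C.miq (nat_lit 2712823872) (nat_lit 2637896301069268715451515217))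 (C.cons (nat_lit 1290) (C.miq (nat_lit 2065171875) (nat_lit 2807133003355395873837810729)) (C.cons (nat_lit 1282) (C.node (nat_lit 1) (nat_lit 3) (nat_lit 10) (C.cons (nat_lit 1098) (C.node (nat_lit 1) (nat_lit 3) (nat_lit 11) (C.cons (nat_lit 2058) (C.node (nat_lit 6) (nat_lit 10) (nat_lit 11) (C.cons (nat_lit 3136) (C.node (nat_lit 1) (nat_lit 3) (nat_lit 4) (C.cons (nat_lit 58) (C.miq (nat_lit 2170205232) (nat_lit 3754994450320610480125184029)) (C.cons (nat_lit 26) (C.node (nat_lit 1) (nat_lit 3) (nat_lit 7) (C.cons (nat_lit 170) (C.miq (nat_lit 2316503895) (nat_lit 1327407800588442527406360801)) (C.cons (nat_lit 138) (C.node (nat_lit 1) (nat_lit 2) (nat_lit 3) (C.cons (nat_lit 46) (C.node (nat_lit 1) (nat_lit 3) (nat_lit 8) (C.cons (nat_lit 266) (C.node (nat_lit 1) (nat_lit 4) (nat_lit 5) (C.cons (nat_lit 114) (C.miq (nat_lit 2705896800) (nat_lit 2807196607963417829367154913)) C.nil)) C.nil)) (C.cons (nat_lit 14) (C.node (nat_lit 1) (nat_lit 3)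 (nat_lit 5) (C.cons (nat_lit 298) (C.node (nat_lit 1) (nat_lit 5) (nat_lit 7) (C.cons (nat_lit 674) (C.miq (nat_lit 1370789664) (nat_lit 2807136101958317800783938181)) C.nil)) (C.cons (nat_lit 42) (C.node (nat_lit 1) (nat_lit 3) (nat_lit 8) C.nil) C.nil))) C.nil))) C.nil))) C.nil))) C.nil)) C.nil)) (C.cons (nat_lit 1034) (C.node (nat_lit 1) (nat_lit 6) (nat_lit 10) (C.cons (nat_lit 1090) (C.node (nat_lit 1) (nat_lit 3) (nat_lit 11) (C.cons (nat_lit 2122) (C.node (nat_lit 1) (nat_lit 9) (nat_lit 11) (C.cons (nat_lit 2562) (C.node (nat_lit 6) (nat_lit 10) (nat_lit 11) (C.cons (nat_lit 3136) (C.node (nat_lit 1) (nat_lit 3) (nat_lit 4) (C.cons (nat_lit 58) (C.miq (nat_lit 2170205232) (nat_lit 3754994450320610480125184029)) (C.cons (nat_lit 26) (C.node (nat_lit 1) (nat_lit 3) (nat_lit 7) (C.cons (nat_lit 170) (C.miq (nat_lit 2316503895) (nat_lit 1250036548133106260225165537)) (C.cons (nat_lit 138) (C.node (nat_lit 1) (nat_lit 2) (nat_lit 3) C.nil) C.nil)))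 C.nil))) C.nil)) C.nil)) (C.cons (nat_lit 2058) (C.node (nat_lit 1) (nat_lit 6) (nat_lit 11) (C.cons (nat_lit 2626) (C.node (nat_lit 4) (nat_lit 6) (nat_lit 11) (C.cons (nat_lit 2128) (C.node (nat_lit 4) (nat_lit 9) (nat_lit 11) (C.cons (nat_lit 2576) (C.node (nat_lit 1) (nat_lit 4) (nat_lit 9) (C.cons (nat_lit 534) (C.miq (nat_lit 1102418544) (nat_lit 3754933944496780577026933381)) (C.cons (nat_lit 530) (C.node (nat_lit 2) (nat_lit 6) (nat_lit 11) (C.cons (nat_lit 2372) (C.miq (nat_lit 1093142454) (nat_lit 317953707441016882568890593)) (C.cons (nat_lit 2116) (C.node (nat_lit 2) (nat_lit 9) (nat_lit 11) (C.cons (nat_lit 2596) (C.miq (nat_lit 1383184650) (nat_lit 2637933434716925610947710721)) C.nil)) C.nil))) C.nil))) C.nil)) C.nil)) (C.cons (nat_lit 2114) (C.node (nat_lit 1) (nat_lit 9) (nat_lit 11) (C.cons (nat_lit 2562) (C.node (nat_lit 4) (nat_lit 6) (nat_lit 11) (C.cons (nat_lit 2640) (C.node (nat_lit 1) (nat_lit 4) (nat_lit 9) (C.cons (nat_lit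 534) (C.miq (nat_lit 1102418544) (nat_lit 3754933944496780577026933381)) (C.cons (nat_lit 530) (C.node (nat_lit 1) (nat_lit 3) (nat_lit 7) C.nil) C.nil))) (C.cons (nat_lit 2128)
  (C.node (nat_lit 4) (nat_lit 9) (nat_lit 11) C.nil) C.nil))) C.nil)) C.nil))) C.nil))) C.nil)) C.nil))) C.nil))))) (C.cons (nat_lit 2320) (C.node (nat_lit 6) (nat_lit 10) (nat_lit 11) (C.cons (nat_lit 3144) (C.node (nat_lit 7) (nat_lit 10) (nat_lit 11) (C.cons (nat_lit 3200) (C.node (nat_lit 1) (nat_lit 3) (nat_lit 10) (C.cons (nat_lit 1290) (C.miq (nat_lit 2276536410) (nat_lit 2637899934809605373041968169)) (C.cons (nat_lit 1034) (C.node (nat_lit 1) (nat_lit 3) (nat_lit 11) (C.cons (nat_lit 2314) (C.node (nat_lit 3) (nat_lit 7) (nat_lit 11) (C.cons (nat_lit 2696) (C.miq (nat_lit 824686601) (nat_lit 2637925871472477805887164161)) (C.cons (nat_lit 2184) (C.node (nat_lit 7) (nat_lit 9) (nat_lit 11) (C.cons (nat_lit 2688) (C.node (nat_lit 6) (nat_lit 8) (nat_lit 11) (C.cons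 (nat_lit 2372) (C.miq (nat_lit 1093142454) (nat_lit 317953707441016882568890593)) (C.cons (nat_lit 2368) (C.node (nat_lit 1) (nat_lit 3) (nat_lit 7) (C.cons (nat_lit 202) (C.miq (nat_lit 640748216) (nat_lit 244207867363512131976302337)) (C.cons (nat_lit 170) (C.miq (nat_lit 2704848240) (nat_lit 2797525201406501036491344097)) (C.cons (nat_lit 138) (C.node (nat_lit 1) (nat_lit 6) (nat_lit 10) (C.cons (nat_lit 1346) (C.node (nat_lit 6) (nat_lit 7) (nat_lit 10) (C.cons (nat_lit 1728) (C.miq (nat_lit 1629988873) (nat_lit 2637908014751746677585284865)) (C.cons (nat_lit 1216) (C.node (nat_lit 1) (nat_lit 6) (nat_lit 7) (C.cons (nat_lit 706) (C.node (nat_lit 1) (nat_lit 6) (nat_lit 11) (C.cons (nat_lit 2130) (C.miq (nat_lit 1083617905) (nat_lit 697589490067144332078614662)) (C.cons (nat_lit 2114) (C.node (nat_lit 2) (nat_lit 6) (nat_lit 11) (C.cons (nat_lit 2628) (C.miq (nat_lit 1097533330) (nat_lit 2555707496882377400214880901)) C.nil)) C.nil))) (C.cons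 (nat_lit 194) (C.node (nat_lit 1) (nat_lit 7) (nat_lit 9) (C.cons (nat_lit 930) (C.miq (nat_lit 1634904208) (nat_lit 2637896301069262736763195137)) (C.cons (nat_lit 898) (C.miq (nat_lit 1634904208) (nat_lit 2637896301069262599324241665)) (C.cons (nat_lit 674) (C.miq (nat_lit 1159399794) (nat_lit 3754961909768389668261724805)) (C.cons (nat_lit 642) (C.node (nat_lit 1) (nat_lit 5) (nat_lit 7) (C.cons (nat_lit 418) (C.node (nat_lit 1) (nat_lit 3) (nat_lit 4) (C.cons (nat_lit 122) (C.miq (nat_lit 593562536) (nat_lit 147493802071313175019654913)) (C.cons (nat_lit 90) (C.miq (nat_lit 593562536) (nat_lit 108808175843645041429057281)) (C.cons (nat_lit 58) (C.miq (nat_lit 2551515956) (nat_lit 505341342303495670189393949)) C.nil)))) C.nil)) C.nil))))) C.nil))) C.nil))) (C.cons (nat_lit 1090) (C.node (nat_lit 1) (nat_lit 2) (nat_lit 3) (C.cons (nat_lit 110) (C.miq (nat_lit 2321615666) (nat_lit 1317733995954796074971826205)) (C.cons (nat_lit 78) (C.miq (nat_lit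 2321615666) (nat_lit 1317733995954796074969729053)) (C.cons (nat_lit 46) (C.miq (nat_lit 1662167936) (nat_lit 55630750878512771926265601)) (C.cons (nat_lit 14) (C.miq (nat_lit 1662167936) (nat_lit 16945124650844638335667969)) C.nil))))) C.nil))) C.nil)))) C.nil))) C.nil)) C.nil))) (C.cons (nat_lit 2058) (C.node (nat_lit 3) (nat_lit 8) (nat_lit 11) (C.cons (nat_lit 2344) (C.miq (nat_lit 461874480) (nat_lit 2940129195314359811862758441)) (C.cons (nat_lit 2312) (C.node (nat_lit 1) (nat_lit 6) (nat_lit 10) (C.cons (nat_lit 1346) (C.node (nat_lit 1) (nat_lit 2) (nat_lit 3) (C.cons (nat_lit 110) (C.miq (nat_lit 2335246946) (nat_lit 2487974189341757116087403589)) (C.cons (nat_lit 78) (C.miq (nat_lit 2335246946) (nat_lit 2487974189341757116085306437)) (C.cons (nat_lit 46) (C.miq (nat_lit 1629726731) (nat_lit 55668584644507133231828737)) (C.cons (nat_lit 14) (C.miq (nat_lit 1629726731) (nat_lit 16982958416838999641231105)) C.nil))))) (C.cons (nat_lit 1090)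 (C.node (nat_lit 1) (nat_lit 8) (nat_lit 10) (C.cons (nat_lit 1282) (C.node (nat_lit 1) (nat_lit 8) (nat_lit 11) (C.cons (nat_lit 2370) (C.node (nat_lit 1) (nat_lit 4) (nat_lit 11) (C.cons (nat_lit 2578) (C.node (nat_lit 4) (nat_lit 6) (nat_lit 11) (C.cons (nat_lit 2128) (C.node (nat_lit 2) (nat_lit 6) (nat_lit 11)
  (C.cons (nat_lit 2116) (C.node (nat_lit 6) (nat_lit 9) (nat_lit 11) C.nil) C.nil)) C.nil)) (C.cons (nat_lit 2066) (C.node (nat_lit 1) (nat_lit 9) (nat_lit 11) C.nil) C.nil))) (C.cons (nat_lit 2306) (C.node (nat_lit 6) (nat_lit 8) (nat_lit 11) (C.cons (nat_lit 2372) (C.miq (nat_lit 1093142454) (nat_lit 317953707441016882568890593)) (C.cons (nat_lit 2368) (C.node (nat_lit 2) (nat_lit 6) (nat_lit 11) (C.cons (nat_lit 2628) (C.node (nat_lit 1) (nat_lit 6) (nat_lit 11) (C.cons (nat_lit 2130) (C.miq (nat_lit 1761915505) (nat_lit 678246677108402977481361542)) C.nil)) C.nil)) C.nil))) C.nil))) C.nil)) C.nil))) C.nil))) C.nil))) C.nil))) C.nil))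 (C.cons (nat_lit 3136) (C.node (nat_lit 3) (nat_lit 10) (nat_lit 11) (C.cons (nat_lit 3208) (C.node (nat_lit 7) (nat_lit 9) (nat_lit 11) (C.cons (nat_lit 2688) (C.node (nat_lit 3) (nat_lit 5) (nat_lit 11) (C.cons (nat_lit 2600) (C.miq (nat_lit 1203309109) (nat_lit 3249602952077169548822316073)) (C.cons (nat_lit 2344) (C.miq (nat_lit 461874480) (nat_lit 2940129195314359811862758441)) (C.cons (nat_lit 2088) (C.node (nat_lit 5) (nat_lit 9) (nat_lit 11) (C.cons (nat_lit 2596) (C.miq (nat_lit 1383184650) (nat_lit 2637933434716925610947710721)) (C.cons (nat_lit 2592) (C.node (nat_lit 2) (nat_lit 5) (nat_lit 11) (C.cons (nat_lit 2340) (C.node (nat_lit 1) (nat_lit 5) (nat_lit 7) (C.cons (nat_lit 930) (C.miq (nat_lit 1115753303) (nat_lit 317969092280591363745122529)) (C.cons (nat_lit 674) (C.miq (nat_lit 1159399794) (nat_lit 3754961909768389668261724805)) (C.cons (nat_lit 418) (C.miq (nat_lit 1115753303) (nat_lit 317969092280591363711568097)) (C.cons (nat_lit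 170) (C.miq (nat_lit 2337475095) (nat_lit 2524244362006925410365473939)) (C.cons (nat_lit 162) (C.node (nat_lit 1) (nat_lit 3) (nat_lit 7) (C.cons (nat_lit 202) (C.node (nat_lit 1) (nat_lit 2) (nat_lit 3) (C.cons (nat_lit 46) (C.miq (nat_lit 2605910049) (nat_lit 2524246760083651702654107911)) (C.cons (nat_lit 14) (C.node (nat_lit 1) (nat_lit 3) (nat_lit 10) (C.cons (nat_lit 1290) (C.miq (nat_lit 1362606720) (nat_lit 244244945885701453298339585)) (C.cons (nat_lit 1034) (C.node (nat_lit 3) (nat_lit 9) (nat_lit 11) (C.cons (nat_lit 2632) (C.miq (nat_lit 2468001392) (nat_lit 1250100152166356691396528353)) (C.cons (nat_lit 2568) (C.node (nat_lit 3) (nat_lit 6) (nat_lit 11) (C.cons (nat_lit 2376) (C.miq (nat_lit 1194724024) (nat_lit 244209232444528909548523265)) C.nil)) C.nil))) C.nil))) C.nil))) (C.cons (nat_lit 138) (C.node (nat_lit 2) (nat_lit 6) (nat_lit 11) (C.cons (nat_lit 2628) (C.node (nat_lit 3) (nat_lit 9) (nat_lit 11) (C.cons (nat_lit 2568) (C.node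 (nat_lit 1) (nat_lit 9) (nat_lit 11) C.nil) C.nil)) (C.cons (nat_lit 2116) (C.node (nat_lit 2) (nat_lit 9) (nat_lit 11) C.nil) C.nil))) C.nil))) C.nil)))))) (C.cons (nat_lit 2084) (C.node (nat_lit 5) (nat_lit 8) (nat_lit 11) C.nil) C.nil))) C.nil))) C.nil)))) C.nil)) (C.cons (nat_lit 3080) (C.node (nat_lit 7) (nat_lit 10) (nat_lit 11) (C.cons (nat_lit 3200) (C.node (nat_lit 3) (nat_lit 7) (nat_lit 11) (C.cons (nat_lit 2696) (C.node (nat_lit 9) (nat_lit 5) (nat_lit 11) (C.cons (nat_lit 2596) (C.miq (nat_lit 1383184650) (nat_lit 2637933434716925610947710721)) (C.cons (nat_lit 2592) (C.node (nat_lit 5) (nat_lit 3) (nat_lit 11) (C.cons (nat_lit 2344) (C.miq (nat_lit 2333554080) (nat_lit 2637883388629332512717603881)) (C.cons (nat_lit 2088) (C.node (nat_lit 8) (nat_lit 5) (nat_lit 11) (C.cons (nat_lit 2340) (C.node (nat_lit 9) (nat_lit 2) (nat_lit 11) (C.cons (nat_lit 2628) (C.node (nat_lit 1) (nat_lit 9) (nat_lit 11) C.nil) C.nil)) C.nil)) C.nil))) C.nil)))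 (C.cons (nat_lit 2184) (C.node (nat_lit 7) (nat_lit 9) (nat_lit 11) (C.cons (nat_lit 2688) (C.ref (nat_lit 297) (nat_lit 198128827013136)) C.nil)) C.nil))) C.nil)) C.nil))) C.nil))) C.nil))) C.nil))) C.nil))) C.nil)))) (C.cons (nat_lit 3104) (C.node (nat_lit 7) (nat_lit 9) (nat_lit 11) (C.cons (nat_lit 2696) (C.node (nat_lit 7) (nat_lit 10) (nat_lit 11) (C.cons (nat_lit 3200) (C.ref (nat_lit 288) (nat_lit 198064386771216)) C.nil))
  (C.cons (nat_lit 2688) (C.node (nat_lit 3) (nat_lit 7) (nat_lit 11) (C.cons (nat_lit 3208) (C.node (nat_lit 1) (nat_lit 10) (nat_lit 11) (C.cons (nat_lit 3138) (C.node (nat_lit 1) (nat_lit 3) (nat_lit 10) (C.cons (nat_lit 1290) (C.miq (nat_lit 369666931) (nat_lit 407431798393263356602027144)) (C.cons (nat_lit 1038) (C.miq (nat_lit 1461324579) (nat_lit 1415671781190971258003392541)) (C.cons (nat_lit 1034) (C.node (nat_lit 2) (nat_lit 6) (nat_lit 11) (C.cons (nat_lit 2628) (C.miq (nat_lit 1651620106) (nat_lit 2637934025021743168908103425))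 (C.cons (nat_lit 2372) (C.miq (nat_lit 1093142454) (nat_lit 317953707441016882568890593)) (C.cons (nat_lit 2116) (C.node (nat_lit 6) (nat_lit 8) (nat_lit 11) (C.cons (nat_lit 2376) (C.miq (nat_lit 1805943664) (nat_lit 3733169148191526054607913353)) (C.cons (nat_lit 2368) (C.node (nat_lit 1) (nat_lit 8) (nat_lit 10) (C.cons (nat_lit 1314) (C.node (nat_lit 1) (nat_lit 2) (nat_lit 10) (C.cons (nat_lit 1542) (C.miq (nat_lit 1629993616) (nat_lit 2637918068731675500819582721)) (C.cons (nat_lit 1030) (C.node (nat_lit 1) (nat_lit 9) (nat_lit 10) (C.cons (nat_lit 1538) (C.node (nat_lit 2) (nat_lit 8) (nat_lit 11) (C.cons (nat_lit 2340) (C.miq (nat_lit 1264190081) (nat_lit 3752527345805752849110532359)) (C.cons (nat_lit 2308) (C.node (nat_lit 2) (nat_lit 5) (nat_lit 11) (C.cons (nat_lit 2596) (C.node (nat_lit 1) (nat_lit 9) (nat_lit 11) (C.cons (nat_lit 2578) (C.miq (nat_lit 692172039) (nat_lit 3116651014492794295728408801)) (C.cons (nat_lit 2562) (C.node (nat_lit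 1) (nat_lit 4) (nat_lit 11) (C.cons (nat_lit 2322) (C.miq (nat_lit 1528074864) (nat_lit 2807136102499312705962443397)) (C.cons (nat_lit 2098) (C.node (nat_lit 4) (nat_lit 8) (nat_lit 11) (C.cons (nat_lit 2320) (C.node (nat_lit 1) (nat_lit 3) (nat_lit 11) C.nil) C.nil)) (C.cons (nat_lit 2066) (C.miq (nat_lit 1528074864) (nat_lit 2497651092677967637237662341)) C.nil)))) C.nil))) (C.cons (nat_lit 2084) (C.node (nat_lit 2) (nat_lit 9) (nat_lit 11) (C.cons (nat_lit 2564) (C.node (nat_lit 3) (nat_lit 6) (nat_lit 11) (C.cons (nat_lit 2632) (C.node (nat_lit 4) (nat_lit 6) (nat_lit 11) C.nil) C.nil)) C.nil)) C.nil))) C.nil))) C.nil)) C.nil))) (C.cons (nat_lit 1282) (C.node (nat_lit 2) (nat_lit 8) (nat_lit 11) (C.cons (nat_lit 2340) (C.node (nat_lit 2) (nat_lit 9) (nat_lit 11) (C.cons (nat_lit 2564) (C.node (nat_lit 4) (nat_lit 5) (nat_lit 11) (C.cons (nat_lit 2098) (C.miq (nat_lit 2461337364) (nat_lit 2828896766703218351605417107)) (C.cons (nat_lit 2096) (C.node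 (nat_lit 3) (nat_lit 6) (nat_lit 11) (C.cons (nat_lit 2632) (C.node (nat_lit 4) (nat_lit 6) (nat_lit 11) (C.cons (nat_lit 2128) (C.node (nat_lit 3) (nat_lit 5) (nat_lit 11) C.nil) C.nil)) (C.cons (nat_lit 2120) (C.node (nat_lit 3) (nat_lit 9) (nat_lit 11) (C.cons (nat_lit 2600) (C.miq (nat_lit 1203309109) (nat_lit 3249602952077169548822316073)) C.nil)) C.nil))) C.nil))) C.nil)) (C.cons (nat_lit 2308) (C.node (nat_lit 2) (nat_lit 5) (nat_lit 11) (C.cons (nat_lit 2596) (C.node (nat_lit 1) (nat_lit 9) (nat_lit 11) (C.cons (nat_lit 2578) (C.miq (nat_lit 692172039) (nat_lit 3116651014492794295728408801)) (C.cons (nat_lit 2562) (C.node (nat_lit 1) (nat_lit 4) (nat_lit 11) (C.cons (nat_lit 2322) (C.miq (nat_lit 1528074864) (nat_lit 2807136102499312705962443397)) (C.cons (nat_lit 2098) (C.node (nat_lit 4) (nat_lit 8) (nat_lit 11) (C.cons (nat_lit 2320) (C.node (nat_lit 1) (nat_lit 3) (nat_lit 11) C.nil) C.nil)) (C.cons (nat_lit 2066) (C.miq (nat_lit 1528074864)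 (nat_lit 2497651092677967637237662341)) C.nil)))) C.nil))) (C.cons (nat_lit 2084) (C.node (nat_lit 2) (nat_lit 9) (nat_lit 11) (C.cons (nat_lit 2564) (C.node (nat_lit 3) (nat_lit 6) (nat_lit 11) (C.cons (nat_lit 2632) (C.node (nat_lit 4) (nat_lit 6) (nat_lit 11) C.nil) C.nil)) C.nil)) C.nil))) C.nil))) C.nil))) C.nil))) C.nil)))) C.nil)))) (C.cons (nat_lit 3074) (C.node (nat_lit 6) (nat_lit 10) (nat_lit 11) (C.cons (nat_lit 3136) (C.node (nat_lit 2) (nat_lit 6) (nat_lit 11) (C.cons (nat_lit 2628) (C.node (nat_lit 3) (nat_lit 9) (nat_lit 11)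
  (C.cons (nat_lit 2600) (C.miq (nat_lit 1203309109) (nat_lit 3249602952077169548822316073)) (C.cons (nat_lit 2568) (C.node (nat_lit 4) (nat_lit 6) (nat_lit 11) (C.cons (nat_lit 2130) (C.miq (nat_lit 1761915505) (nat_lit 678246677108402977481361542)) (C.cons (nat_lit 2128) (C.node (nat_lit 6) (nat_lit 7) (nat_lit 10) (C.cons (nat_lit 1728) (C.miq (nat_lit 2796845344) (nat_lit 2572615745763641244725871237)) (C.cons (nat_lit 1472) (C.miq (nat_lit 1790215984) (nat_lit 3733169147937072675720855945)) (C.cons (nat_lit 1216) (C.node (nat_lit 7) (nat_lit 9) (nat_lit 10) (C.cons (nat_lit 1696) (C.miq (nat_lit 2545179184) (nat_lit 2649975745696087840906871849)) (C.cons (nat_lit 1664) (C.node (nat_lit 2) (nat_lit 5) (nat_lit 11) (C.cons (nat_lit 2340) (C.node (nat_lit 4) (nat_lit 5) (nat_lit 11) (C.cons (nat_lit 2098) (C.miq (nat_lit 2461337364) (nat_lit 2828896766703218351605417107)) (C.cons (nat_lit 2096) (C.node (nat_lit 3) (nat_lit 5) (nat_lit 11) (C.cons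 (nat_lit 2090) (C.node (nat_lit 5) (nat_lit 9) (nat_lit 11) C.nil) C.nil)) C.nil))) (C.cons (nat_lit 2084) (C.node (nat_lit 2) (nat_lit 8) (nat_lit 11) C.nil) C.nil))) C.nil))) C.nil)))) C.nil))) C.nil))) (C.cons (nat_lit 2372) (C.miq (nat_lit 1093142454) (nat_lit 317953707441016882568890593)) (C.cons (nat_lit 2116) (C.node (nat_lit 2) (nat_lit 8) (nat_lit 11) (C.cons (nat_lit 2340) (C.node (nat_lit 2) (nat_lit 9) (nat_lit 11) (C.cons (nat_lit 2564) (C.node (nat_lit 4) (nat_lit 5) (nat_lit 11) (C.cons (nat_lit 2098) (C.miq (nat_lit 2461337364) (nat_lit 2828896766703218351605417107)) (C.cons (nat_lit 2096) (C.node (nat_lit 4) (nat_lit 8) (nat_lit 11) (C.cons (nat_lit 2322) (C.node (nat_lit 3) (nat_lit 8) (nat_lit 11) (C.cons (nat_lit 2376) (C.miq (nat_lit 1805943664) (nat_lit 3733169148191526054607913353)) C.nil)) C.nil)) C.nil))) C.nil)) (C.cons (nat_lit 2308) (C.node (nat_lit 2) (nat_lit 5) (nat_lit 11) (C.cons (nat_lit 2596) (C.node (nat_lit 3)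 (nat_lit 9) (nat_lit 11) (C.cons (nat_lit 2632) (C.node (nat_lit 1) (nat_lit 9) (nat_lit 11) (C.cons (nat_lit 2578) (C.miq (nat_lit 692172039) (nat_lit 3116651014492794295728408801)) (C.cons (nat_lit 2562) (C.node (nat_lit 4) (nat_lit 9) (nat_lit 11) C.nil) C.nil))) (C.cons (nat_lit 2568) (C.node (nat_lit 1) (nat_lit 9) (nat_lit 11) (C.cons (nat_lit 2642) (C.miq (nat_lit 692172039) (nat_lit 3194022266948130562909604065)) (C.cons (nat_lit 2626) (C.node (nat_lit 4) (nat_lit 6) (nat_lit 11) C.nil) (C.cons (nat_lit 2578) (C.miq (nat_lit 692172039) (nat_lit 3116651014492794295728408801)) C.nil)))) C.nil))) (C.cons (nat_lit 2084) (C.node (nat_lit 2) (nat_lit 9) (nat_lit 11) (C.cons (nat_lit 2564) (C.node (nat_lit 3) (nat_lit 9) (nat_lit 11) C.nil) C.nil)) C.nil))) C.nil))) C.nil)))) C.nil)) C.nil))) (C.cons (nat_lit 2184) (C.node (nat_lit 7) (nat_lit 10) (nat_lit 11) (C.cons (nat_lit 3200) (C.ref (nat_lit 298) (nat_lit 198128827013136)) C.nil)) C.nil)))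 C.nil))) C.nil))) C.nil))) List.nil)

theorem ok12_307 : okL par12 (nat_lit 308) c12_307 (nat_lit 307) = true := by decide +kernel

noncomputable def c12_308 : List C :=
  (List.cons (C.node (nat_lit 6) (nat_lit 7) (nat_lit 10) (C.cons (nat_lit 1728) (C.node (nat_lit 3) (nat_lit 9) (nat_lit 10) (C.cons (nat_lit 1560) (C.miq (nat_lit 1470696244) (nat_lit 2089034165557310965371373597)) (C.cons (nat_lit 1548) (C.miq (nat_lit 1782282528) (nat_lit 3878275959259405342769742469)) (C.cons (nat_lit 1544) (C.node (nat_lit 4) (nat_lit 9) (nat_lit 10) (C.cons (nat_lit 1556) (C.miq (nat_lit 1783331104) (nat_lit 3733204860905649876164739717)) (C.cons (nat_lit 1552) (C.node (nat_lit 4) (nat_lit 6) (nat_lit 7) (C.cons (nat_lit 216) (C.miq (nat_lit 2322991924) (nat_lit 2089030033927991217826039837)) (C.cons (nat_lit 212) (C.miq (nat_lit 1269178519) (nat_lit 3791195281605860742014173829)) (C.cons (nat_lit 208) (C.node (nat_lit 3) (nat_lit 4) (nat_lit 7) (C.cons (nat_lit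 664) (C.node (nat_lit 3) (nat_lit 4) (nat_lit 10) (C.cons (nat_lit 1304) (C.miq (nat_lit 1731464104) (nat_lit 802732961416673012527664897)) (C.cons (nat_lit 1112) (C.node (nat_lit 1) (nat_lit 10) (nat_lit 11) (C.cons (nat_lit 3110) (C.miq (nat_lit 2275476402) (nat_lit 1415656986373055593499199517)) (C.cons (nat_lit 3106) (C.node (nat_lit 2) (nat_lit 10) (nat_lit 11) (C.cons (nat_lit 3076) (C.node (nat_lit 3) (nat_lit 5) (nat_lit 11) (C.cons (nat_lit 2344) (C.miq (nat_lit 461874480) (nat_lit 2940129195314359811862758441)) (C.cons (nat_lit 2088) (C.node (nat_lit 1) (nat_lit 6) (nat_lit 10) (C.cons (nat_lit 1346) (C.node (nat_lit 5) (nat_lit 6) (nat_lit 10) (C.cons (nat_lit 1120) (C.node (nat_lit 1) (nat_lit 3) (nat_lit 10) (C.cons (nat_lit 1038) (C.node (nat_lit 1) (nat_lit 9) (nat_lit 10) (C.cons (nat_lit 1538) (C.node (nat_lit 3) (nat_lit 8) (nat_lit 10) (C.cons (nat_lit 1288) (C.node (nat_lit 6) (nat_lit 7) (nat_lit 8) (C.cons (nat_lit 452) (C.miq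 (nat_lit 309756058) (nat_lit 546459299857366289265725185)) (C.cons (nat_lit 448) (C.node (nat_lit 1) (nat_lit 2) (nat_lit 7) (C.cons (nat_lit 198) (C.node (nat_lit 1) (nat_lit 3) (nat_lit 7) (C.cons (nat_lit 170) (C.miq (nat_lit 2316503895) (nat_lit 1254872251411564776923990241)) (C.cons (nat_lit 138) (C.miq (nat_lit 1394018854) (nat_lit 166873692855873676306154565)) C.nil))) (C.cons (nat_lit 166) (C.miq (nat_lit 1629988873) (nat_lit 200713562408654261377634049)) (C.cons (nat_lit 134) (C.miq (nat_lit 1629988873) (nat_lit 162027936180986127787036417)) C.nil)))) C.nil))) C.nil)) C.nil)) (C.cons (nat_lit 1034) (C.miq (nat_lit 564332644) (nat_lit 1250067611443001361358651729)) C.nil))) C.nil)) (C.cons (nat_lit 1090) (C.node (nat_lit 1) (nat_lit 8) (nat_lit 10) (C.cons (nat_lit 1290) (C.miq (nat_lit 2276536410) (nat_lit 2633064231531146856343143465)) (C.cons (nat_lit 1282) (C.node (nat_lit 1) (nat_lit 3) (nat_lit 10) (C.cons (nat_lit 1038) (C.miq (nat_lit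 1779974944) (nat_lit 1549849117611712074387752989)) (C.cons (nat_lit 1034) (C.node (nat_lit 1) (nat_lit 2) (nat_lit 10) (C.cons (nat_lit 1542) (C.node (nat_lit 5) (nat_lit 9) (nat_lit 10) (C.cons (nat_lit 1568) (C.node (nat_lit 1) (nat_lit 7) (nat_lit 9) (C.cons (nat_lit 930) (C.miq (nat_lit 659656890) (nat_lit 1124329457302527915247931137)) (C.cons (nat_lit 898) (C.miq (nat_lit 1108947079) (nat_lit 1864175863068447786802479497)) (C.cons (nat_lit 674) (C.miq (nat_lit 659656890) (nat_lit 814844447481182846523150081)) (C.cons (nat_lit 642) (C.node (nat_lit 2) (nat_lit 4) (nat_lit 7) (C.cons (nat_lit 436) (C.miq (nat_lit 309700875) (nat_lit 527148953373108446529916673)) (C.cons (nat_lit 404) (C.miq (nat_lit 2174165044) (nat_lit 776137828751227874006534173)) (C.cons (nat_lit 180) (C.miq (nat_lit 309700875) (nat_lit 217663943551763377805135617)) (C.cons (nat_lit 148) (C.node (nat_lit 2) (nat_lit 7) (nat_lit 10) (C.cons (nat_lit 1444) (C.miq (nat_lit 309700875)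 (nat_lit 1745746179544654654633742081)) (C.cons (nat_lit 1412) (C.miq (nat_lit 833095975) (nat_lit 1549850150463593605578883717)) (C.cons (nat_lit 1188) (C.miq (nat_lit 309700875) (nat_lit 1436261169723309585908961025)) (C.cons (nat_lit 1156)
  (C.node (nat_lit 1) (nat_lit 2) (nat_lit 11) C.nil) C.nil))))) C.nil))))) C.nil))))) C.nil)) (C.cons (nat_lit 1030) (C.node (nat_lit 1) (nat_lit 9) (nat_lit 10) (C.cons (nat_lit 1538) (C.node (nat_lit 4) (nat_lit 5) (nat_lit 11) C.nil) C.nil)) C.nil))) C.nil))) C.nil))) C.nil))) C.nil))) C.nil)) (C.cons (nat_lit 3078) (C.miq (nat_lit 2275476402) (nat_lit 1415656986373055593497102365)) (C.cons (nat_lit 3074) (C.node (nat_lit 2) (nat_lit 10) (nat_lit 11) (C.cons (nat_lit 3108) (C.node (nat_lit 5) (nat_lit 7) (nat_lit 10) (C.cons (nat_lit 1440) (C.miq (nat_lit 629193331) (nat_lit 349417876630899338624175240)) (C.cons (nat_lit 1184) (C.node (nat_lit 2) (nat_lit 3) (nat_lit 7) (C.cons (nat_lit 206) (C.miq (nat_lit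 2322664242) (nat_lit 1415656987343581313007224861)) (C.cons (nat_lit 204) (C.miq (nat_lit 2468770826) (nat_lit 246652743362052026999833747)) (C.cons (nat_lit 174) (C.miq (nat_lit 2322664242) (nat_lit 1415656987343581313005127709)) (C.cons (nat_lit 172) (C.miq (nat_lit 2320960291) (nat_lit 1431375421075300645021157405)) (C.cons (nat_lit 142) (C.miq (nat_lit 2322664242) (nat_lit 1415656987343581313003030557)) (C.cons (nat_lit 140) (C.node (nat_lit 2) (nat_lit 4) (nat_lit 10) (C.cons (nat_lit 1300) (C.node (nat_lit 2) (nat_lit 7) (nat_lit 10) (C.cons (nat_lit 1156) (C.node (nat_lit 4) (nat_lit 5) (nat_lit 10) (C.cons (nat_lit 1072) (C.node (nat_lit 7) (nat_lit 8) (nat_lit 10) (C.cons (nat_lit 1408) (C.node (nat_lit 2) (nat_lit 3) (nat_lit 10) (C.cons (nat_lit 1038) (C.miq (nat_lit 906077314) (nat_lit 81017177947530286743356692)) C.nil)) C.nil)) C.nil)) C.nil)) (C.cons (nat_lit 1044) (C.node (nat_lit 2) (nat_lit 7) (nat_lit 10) (C.cons (nat_lit 1412)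 (C.node (nat_lit 2) (nat_lit 6) (nat_lit 7) (C.cons (nat_lit 198) (C.miq (nat_lit 278276263) (nat_lit 697553850447012044254217604)) (C.cons (nat_lit 196) (C.node (nat_lit 2) (nat_lit 9) (nat_lit 10) (C.cons (nat_lit 1542) (C.miq (nat_lit 309566080) (nat_lit 169259262827239113161772801)) (C.cons (nat_lit 1540) (C.node (nat_lit 1) (nat_lit 2) (nat_lit 7) (C.cons (nat_lit 166) (C.node (nat_lit 2) (nat_lit 4) (nat_lit 7) C.nil) C.nil)) C.nil))) C.nil))) (C.cons (nat_lit 1156) (C.node (nat_lit 7) (nat_lit 8) (nat_lit 10) (C.cons (nat_lit 1408) (C.node (nat_lit 2) (nat_lit 8) (nat_lit 10) (C.cons (nat_lit 1292) (C.miq (nat_lit 1379383936) (nat_lit 169291545070157403009912577)) C.nil)) C.nil)) C.nil))) C.nil))) C.nil))))))) C.nil))) (C.cons (nat_lit 3076) (C.node (nat_lit 5) (nat_lit 10) (nat_lit 11) (C.cons (nat_lit 3104) (C.node (nat_lit 3) (nat_lit 6) (nat_lit 7) (C.cons (nat_lit 206) (C.miq (nat_lit 2322664242) (nat_lit 1415656987343581313007224861))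 (C.cons (nat_lit 204) (C.miq (nat_lit 2468770826) (nat_lit 246652743362052026999833747)) (C.cons (nat_lit 202) (C.node (nat_lit 3) (nat_lit 6) (nat_lit 11) (C.cons (nat_lit 2376) (C.miq (nat_lit 1935977344) (nat_lit 1344347113451759886310379265)) (C.cons (nat_lit 2120) (C.node (nat_lit 2) (nat_lit 3) (nat_lit 6) (C.cons (nat_lit 876) (C.miq (nat_lit 561414313) (nat_lit 244219174983996611252719361)) (C.cons (nat_lit 844) (C.miq (nat_lit 561414313) (nat_lit 244218584688186252547067649)) (C.cons (nat_lit 620) (C.miq (nat_lit 328496720) (nat_lit 802748345418284694101887201)) (C.cons (nat_lit 588) (C.node (nat_lit 1) (nat_lit 3) (nat_lit 10) (C.cons (nat_lit 1290) (C.miq (nat_lit 2204868976) (nat_lit 2562993591890104556453954707)) (C.cons (nat_lit 1038) (C.miq (nat_lit 2251424929) (nat_lit 710853233521955183562458259)) (C.cons (nat_lit 1034) (C.node (nat_lit 1) (nat_lit 2) (nat_lit 3) (C.cons (nat_lit 46) (C.node (nat_lit 1) (nat_lit 2) (nat_lit 7) (C.cons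 (nat_lit 134) (C.node (nat_lit 2) (nat_lit 3) (nat_lit 7) (C.cons (nat_lit 140) (C.node (nat_lit 3) (nat_lit 5) (nat_lit 7) (C.cons (nat_lit 168) (C.node (nat_lit 1) (nat_lit 3) (nat_lit 4) (C.cons (nat_lit 282) (C.miq (nat_lit 2190676084) (nat_lit 710853583989261429993112723)) C.nil)) C.nil)) C.nil)) C.nil)) (C.cons (nat_lit 14) (C.node (nat_lit 1) (nat_lit 2) (nat_lit 7)
  (C.cons (nat_lit 166) (C.node (nat_lit 2) (nat_lit 3) (nat_lit 7) (C.cons (nat_lit 140) (C.node (nat_lit 3) (nat_lit 5) (nat_lit 7) (C.cons (nat_lit 168) (C.node (nat_lit 2) (nat_lit 3) (nat_lit 5) (C.cons (nat_lit 44) (C.node (nat_lit 2) (nat_lit 3) (nat_lit 8) C.nil) C.nil)) C.nil)) C.nil)) (C.cons (nat_lit 134) (C.node (nat_lit 2) (nat_lit 3) (nat_lit 7) (C.cons (nat_lit 172) (C.node (nat_lit 2) (nat_lit 3) (nat_lit 8) (C.cons (nat_lit 1292) (C.miq (nat_lit 1537372291) (nat_lit 3718658994614389138556453257)) (C.cons (nat_lit 268) (C.node (nat_lit 2) (nat_lit 3) (nat_lit 10)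 C.nil) C.nil))) (C.cons (nat_lit 140) (C.node (nat_lit 3) (nat_lit 5) (nat_lit 7) (C.cons (nat_lit 168) (C.node (nat_lit 2) (nat_lit 3) (nat_lit 5) (C.cons (nat_lit 44) (C.node (nat_lit 2) (nat_lit 3) (nat_lit 8) C.nil) C.nil)) C.nil)) C.nil))) C.nil))) C.nil))) C.nil)))) (C.cons (nat_lit 364) (C.miq (nat_lit 2468770826) (nat_lit 440080874500392694952821907)) (C.cons (nat_lit 332) (C.miq (nat_lit 2468770826) (nat_lit 401395248272724561362224275)) (C.cons (nat_lit 108) (C.miq (nat_lit 2468770826) (nat_lit 130595864679047626228040851)) (C.cons (nat_lit 76) (C.miq (nat_lit 2468770826) (nat_lit 91910238451379492637443219)) C.nil))))))))) C.nil))) (C.cons (nat_lit 200) (C.node (nat_lit 1) (nat_lit 3) (nat_lit 7) (C.cons (nat_lit 174) (C.miq (nat_lit 2322664242) (nat_lit 1415656987343581313005127709)) (C.cons (nat_lit 170) (C.node (nat_lit 2) (nat_lit 3) (nat_lit 7) (C.cons (nat_lit 140) (C.node (nat_lit 3) (nat_lit 5) (nat_lit 11) (C.cons (nat_lit 2344)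 (C.miq (nat_lit 448098435) (nat_lit 3752508880359925183762923913)) (C.cons (nat_lit 2088) (C.node (nat_lit 1) (nat_lit 2) (nat_lit 7) (C.cons (nat_lit 198) (C.node (nat_lit 6) (nat_lit 7) (nat_lit 8) (C.cons (nat_lit 448) (C.node (nat_lit 5) (nat_lit 7) (nat_lit 9) (C.cons (nat_lit 928) (C.miq (nat_lit 412557478) (nat_lit 1121886813131746884576085061)) C.nil)) C.nil)) (C.cons (nat_lit 134) (C.node (nat_lit 1) (nat_lit 7) (nat_lit 9) (C.cons (nat_lit 898) (C.miq (nat_lit 1729276288) (nat_lit 162016222606025490604429057)) C.nil)) C.nil))) C.nil))) C.nil)) (C.cons (nat_lit 142) (C.miq (nat_lit 2322664242) (nat_lit 1415656987343581313003030557)) (C.cons (nat_lit 138) (C.node (nat_lit 2) (nat_lit 3) (nat_lit 7) (C.cons (nat_lit 172) (C.node (nat_lit 5) (nat_lit 7) (nat_lit 10) (C.cons (nat_lit 1440) (C.miq (nat_lit 732246151) (nat_lit 3752508917508429660022636937)) (C.cons (nat_lit 1184) (C.node (nat_lit 1) (nat_lit 2) (nat_lit 7) (C.cons (nat_lit 198)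 (C.node (nat_lit 6) (nat_lit 7) (nat_lit 8) (C.cons (nat_lit 448) (C.node (nat_lit 2) (nat_lit 6) (nat_lit 11) C.nil) C.nil)) (C.cons (nat_lit 134) (C.node (nat_lit 2) (nat_lit 8) (nat_lit 11) C.nil) C.nil))) C.nil))) (C.cons (nat_lit 140) (C.node (nat_lit 3) (nat_lit 5) (nat_lit 7) (C.cons (nat_lit 168) (C.node (nat_lit 3) (nat_lit 6) (nat_lit 11) (C.cons (nat_lit 2378) (C.miq (nat_lit 1935977344) (nat_lit 1344347113451759894900313857)) (C.cons (nat_lit 2376) (C.miq (nat_lit 1935977344) (nat_lit 1344347113451759886310379265)) (C.cons (nat_lit 2122) (C.node (nat_lit 1) (nat_lit 2) (nat_lit 7) C.nil) (C.cons (nat_lit 2120) (C.node (nat_lit 1) (nat_lit 2) (nat_lit 7) (C.cons (nat_lit 134) (C.node (nat_lit 1) (nat_lit 6) (nat_lit 7) (C.cons (nat_lit 194) (C.node (nat_lit 2) (nat_lit 6) (nat_lit 7) C.nil) C.nil)) C.nil)) C.nil))))) C.nil)) C.nil))) C.nil))))) C.nil))))) C.nil)) C.nil))) C.nil))))) (C.cons (nat_lit 1048) (C.node (nat_lit 2) (nat_lit 3)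 (nat_lit 9) (C.cons (nat_lit 876) (C.miq (nat_lit 1665831431) (nat_lit 1266986135176471745519616645)) (C.cons (nat_lit 844) (C.miq (nat_lit 1665831431) (nat_lit 1266986135167464546264875653)) (C.cons (nat_lit 812) (C.miq (nat_lit 1764927296) (nat_lit 981667928304743066151748755)) (C.cons (nat_lit 780) (C.miq (nat_lit 1764927296) (nat_lit 942982302077074932561151123)) (C.cons (nat_lit 620) (C.miq (nat_lit 1665831431) (nat_lit 1266986135104414151481688709)) (C.cons (nat_lit 588)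
  (C.miq (nat_lit 1665831431) (nat_lit 1266986135095406952226947717)) (C.cons (nat_lit 556) (C.miq (nat_lit 1764927296) (nat_lit 672182918483397997426967699)) (C.cons (nat_lit 524) (C.miq (nat_lit 1764927296) (nat_lit 633497292255729863836370067)) C.nil))))))))) C.nil)))) (C.cons (nat_lit 184) (C.miq (nat_lit 1235439799) (nat_lit 1866584859843820967418136801)) (C.cons (nat_lit 152) (C.node (nat_lit 3) (nat_lit 7) (nat_lit 9) (C.cons (nat_lit 680) (C.node (nat_lit 2) (nat_lit 3) (nat_lit 7) (C.cons (nat_lit 206) (C.miq (nat_lit 2322664242) (nat_lit 1415656987343581313007224861)) (C.cons (nat_lit 204) (C.miq (nat_lit 1000743063) (nat_lit 3791195134031908152337760901)) (C.cons (nat_lit 142) (C.miq (nat_lit 2322664242) (nat_lit 1415656987343581313003030557)) (C.cons (nat_lit 140) (C.node (nat_lit 1) (nat_lit 3) (nat_lit 7) (C.cons (nat_lit 202) (C.node (nat_lit 1) (nat_lit 7) (nat_lit 9) (C.cons (nat_lit 898) (C.miq (nat_lit 644942488) (nat_lit 244207867363506050209812225))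 (C.cons (nat_lit 642) (C.node (nat_lit 3) (nat_lit 6) (nat_lit 11) (C.cons (nat_lit 2376) (C.miq (nat_lit 1194724024) (nat_lit 244209232444528909548523265)) (C.cons (nat_lit 2120) (C.node (nat_lit 1) (nat_lit 2) (nat_lit 7) (C.cons (nat_lit 166) (C.node (nat_lit 1) (nat_lit 7) (nat_lit 8) (C.cons (nat_lit 386) (C.node (nat_lit 2) (nat_lit 4) (nat_lit 7) (C.cons (nat_lit 404) (C.node (nat_lit 2) (nat_lit 6) (nat_lit 7) C.nil) C.nil)) C.nil)) (C.cons (nat_lit 134) (C.node (nat_lit 1) (nat_lit 5) (nat_lit 7) (C.cons (nat_lit 418) (C.node (nat_lit 2) (nat_lit 6) (nat_lit 7) (C.cons (nat_lit 452) (C.node (nat_lit 7) (nat_lit 8) (nat_lit 10) C.nil) C.nil)) C.nil)) C.nil))) C.nil))) C.nil))) (C.cons (nat_lit 138) (C.node (nat_lit 3) (nat_lit 6) (nat_lit 7) (C.cons (nat_lit 200) (C.node (nat_lit 1) (nat_lit 7) (nat_lit 9) (C.cons (nat_lit 898) (C.node (nat_lit 4) (nat_lit 7) (nat_lit 9) C.nil) (C.cons (nat_lit 642) (C.node (nat_lit 4) (nat_lit 7) (nat_lit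 9) (C.cons (nat_lit 656) (C.node (nat_lit 7) (nat_lit 8) (nat_lit 9) C.nil) C.nil)) C.nil))) C.nil)) C.nil))) C.nil))))) (C.cons (nat_lit 648) (C.node (nat_lit 4) (nat_lit 7) (nat_lit 9) (C.cons (nat_lit 912) (C.node (nat_lit 1) (nat_lit 7) (nat_lit 9) (C.cons (nat_lit 674) (C.node (nat_lit 1) (nat_lit 7) (nat_lit 8) (C.cons (nat_lit 450) (C.miq (nat_lit 424178950) (nat_lit 1102548648713091520431982817)) (C.cons (nat_lit 386) (C.node (nat_lit 1) (nat_lit 9) (nat_lit 10) (C.cons (nat_lit 1542) (C.miq (nat_lit 558934390) (nat_lit 42332566411821894699386560)) (C.cons (nat_lit 1538) (C.node (nat_lit 1) (nat_lit 2) (nat_lit 7) (C.cons (nat_lit 206) (C.miq (nat_lit 2803413792) (nat_lit 466716221218206589892626461)) (C.cons (nat_lit 198) (C.miq (nat_lit 2534975008) (nat_lit 466716220801623590001116229)) (C.cons (nat_lit 142) (C.miq (nat_lit 2803413792) (nat_lit 466716221218206315014719517)) (C.cons (nat_lit 134) (C.node (nat_lit 2) (nat_lit 4) (nat_lit 7)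 (C.cons (nat_lit 180) (C.miq (nat_lit 829557076) (nat_lit 162034373863015711788761649)) C.nil)) C.nil))))) C.nil))) C.nil))) (C.cons (nat_lit 642) (C.node (nat_lit 5) (nat_lit 7) (nat_lit 9) (C.cons (nat_lit 672) (C.node (nat_lit 2) (nat_lit 4) (nat_lit 7) (C.cons (nat_lit 180) (C.node (nat_lit 2) (nat_lit 7) (nat_lit 10) (C.cons (nat_lit 1412) (C.miq (nat_lit 1352812935) (nat_lit 1321359241410646914669740944)) C.nil)) (C.cons (nat_lit 148) (C.node (nat_lit 4) (nat_lit 5) (nat_lit 7) (C.cons (nat_lit 176) (C.node (nat_lit 1) (nat_lit 7) (nat_lit 8) C.nil) C.nil)) C.nil))) C.nil)) C.nil))) (C.cons (nat_lit 656) (C.node (nat_lit 3) (nat_lit 4) (nat_lit 10) (C.cons (nat_lit 1304) (C.miq (nat_lit 1731464104) (nat_lit 183762941773982875078102785)) (C.cons (nat_lit 1112) (C.node (nat_lit 2) (nat_lit 3) (nat_lit 9) (C.cons (nat_lit 876) (C.miq (nat_lit 1200818786) (nat_lit 783422245327335419437384773)) (C.cons (nat_lit 844) (C.miq (nat_lit 1200818786) (nat_lit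 783422245327335419435287621)) (C.cons (nat_lit 812) (C.miq (nat_lit 1663673351) (nat_lit 981679641813847354758202515))
  (C.cons (nat_lit 780) (C.miq (nat_lit 1663673351) (nat_lit 942994015586179221167604883)) (C.cons (nat_lit 620) (C.miq (nat_lit 1200818786) (nat_lit 783422245327335419420607557)) (C.cons (nat_lit 588) (C.miq (nat_lit 1200818786) (nat_lit 783422245327335419418510405)) (C.cons (nat_lit 556) (C.miq (nat_lit 1663673351) (nat_lit 672194631992502286033421459)) (C.cons (nat_lit 524) (C.miq (nat_lit 1663673351) (nat_lit 633509005764834152442823827)) C.nil))))))))) (C.cons (nat_lit 1048) (C.node (nat_lit 4) (nat_lit 6) (nat_lit 10) (C.cons (nat_lit 1136) (C.node (nat_lit 2) (nat_lit 4) (nat_lit 10) (C.cons (nat_lit 1300) (C.node (nat_lit 2) (nat_lit 7) (nat_lit 10) (C.cons (nat_lit 1188) (C.miq (nat_lit 654878052) (nat_lit 475131828210247122891637872)) (C.cons (nat_lit 1156) (C.node (nat_lit 4) (nat_lit 7) (nat_lit 8) (C.cons (nat_lit 432)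 (C.miq (nat_lit 544777812) (nat_lit 475131828183507000110351472)) (C.cons (nat_lit 400) (C.node (nat_lit 2) (nat_lit 10) (nat_lit 11) (C.cons (nat_lit 3110) (C.miq (nat_lit 610641931) (nat_lit 1373397100822206896448540417)) (C.cons (nat_lit 3108) (C.miq (nat_lit 610641931) (nat_lit 1373397063928718749029437185)) (C.cons (nat_lit 3078) (C.miq (nat_lit 2275476402) (nat_lit 1415656986373055593497102365)) (C.cons (nat_lit 3076) (C.node (nat_lit 1) (nat_lit 10) (nat_lit 11) (C.cons (nat_lit 3106) (C.node (nat_lit 3) (nat_lit 5) (nat_lit 11) (C.cons (nat_lit 2344) (C.miq (nat_lit 461874480) (nat_lit 2940129195314359811862758441)) (C.cons (nat_lit 2088) (C.node (nat_lit 4) (nat_lit 5) (nat_lit 11) (C.cons (nat_lit 2352) (C.miq (nat_lit 643080376) (nat_lit 1373363712157176477042872065)) (C.cons (nat_lit 2096) (C.node (nat_lit 2) (nat_lit 4) (nat_lit 7) C.nil) C.nil))) C.nil))) (C.cons (nat_lit 3074) (C.node (nat_lit 5) (nat_lit 10) (nat_lit 11) (C.cons (nat_lit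 3104) (C.node (nat_lit 5) (nat_lit 7) (nat_lit 10) (C.cons (nat_lit 1440) (C.node (nat_lit 2) (nat_lit 8) (nat_lit 11) (C.cons (nat_lit 2308) (C.miq (nat_lit 1479244352) (nat_lit 2790242721525173227089626259)) C.nil)) C.nil)) C.nil)) C.nil))) C.nil))))) C.nil))) C.nil))) (C.cons (nat_lit 1044) (C.node (nat_lit 4) (nat_lit 8) (nat_lit 10) (C.cons (nat_lit 1296) (C.node (nat_lit 1) (nat_lit 10) (nat_lit 11) (C.cons (nat_lit 3110) (C.miq (nat_lit 2275476402) (nat_lit 1415656986373055593499199517)) (C.cons (nat_lit 3106) (C.node (nat_lit 2) (nat_lit 10) (nat_lit 11) (C.cons (nat_lit 3076) (C.node (nat_lit 3) (nat_lit 5) (nat_lit 11) (C.cons (nat_lit 2344) (C.miq (nat_lit 461874480) (nat_lit 2940129195314359811862758441)) (C.cons (nat_lit 2088) (C.node (nat_lit 1) (nat_lit 9) (nat_lit 10) (C.cons (nat_lit 1542) (C.node (nat_lit 5) (nat_lit 9) (nat_lit 10) (C.cons (nat_lit 1568) (C.node (nat_lit 1) (nat_lit 7) (nat_lit 9) (C.cons (nat_lit 930) (C.miq (nat_lit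 659656890) (nat_lit 1124329457302527915247931137)) (C.cons (nat_lit 898) (C.miq (nat_lit 1980275233) (nat_lit 407424566872701677225838086)) (C.cons (nat_lit 674) (C.miq (nat_lit 659656890) (nat_lit 814844447481182846523150081)) (C.cons (nat_lit 642) (C.node (nat_lit 5) (nat_lit 9) (nat_lit 11) (C.cons (nat_lit 2596) (C.node (nat_lit 5) (nat_lit 7) (nat_lit 9) C.nil) C.nil)) C.nil))))) C.nil)) (C.cons (nat_lit 1538) (C.node (nat_lit 1) (nat_lit 2) (nat_lit 10) (C.cons (nat_lit 1038) (C.node (nat_lit 1) (nat_lit 6) (nat_lit 10) (C.cons (nat_lit 1346) (C.miq (nat_lit 1781825824) (nat_lit 1266960475887753992175681799)) (C.cons (nat_lit 1090) (C.node (nat_lit 1) (nat_lit 8) (nat_lit 10) C.nil) C.nil))) (C.cons (nat_lit 1030) (C.node (nat_lit 4) (nat_lit 5) (nat_lit 11) C.nil) C.nil))) C.nil))) C.nil))) C.nil)) (C.cons (nat_lit 3078) (C.miq (nat_lit 2275476402) (nat_lit 1415656986373055593497102365)) (C.cons (nat_lit 3074) (C.node (nat_lit 2) (nat_lit 10)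 (nat_lit 11) (C.cons (nat_lit 3108) (C.node (nat_lit 5) (nat_lit 7) (nat_lit 10) (C.cons (nat_lit 1440) (C.miq (nat_lit 629193331) (nat_lit 349417876630899338624175240)) (C.cons (nat_lit 1184) (C.node (nat_lit 2) (nat_lit 3) (nat_lit 7)
  (C.cons (nat_lit 206) (C.miq (nat_lit 2322664242) (nat_lit 1415656987343581313007224861)) (C.cons (nat_lit 204) (C.miq (nat_lit 1000743063) (nat_lit 3791195134031908152337760901)) (C.cons (nat_lit 174) (C.miq (nat_lit 2322664242) (nat_lit 1415656987343581313005127709)) (C.cons (nat_lit 172) (C.miq (nat_lit 2320960291) (nat_lit 1431375421075300645021157405)) (C.cons (nat_lit 142) (C.miq (nat_lit 2322664242) (nat_lit 1415656987343581313003030557)) (C.cons (nat_lit 140) (C.node (nat_lit 2) (nat_lit 7) (nat_lit 10) (C.cons (nat_lit 1412) (C.node (nat_lit 2) (nat_lit 9) (nat_lit 10) (C.cons (nat_lit 1542) (C.miq (nat_lit 309566080) (nat_lit 169259262827239113161772801)) C.nil)) C.nil)) C.nil))))))) C.nil))) (C.cons (nat_lit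 3076) (C.node (nat_lit 5) (nat_lit 10) (nat_lit 11) (C.cons (nat_lit 3104) (C.node (nat_lit 3) (nat_lit 6) (nat_lit 7) (C.cons (nat_lit 206) (C.miq (nat_lit 2322664242) (nat_lit 1415656987343581313007224861)) (C.cons (nat_lit 204) (C.miq (nat_lit 1000743063) (nat_lit 3791195134031908152337760901)) (C.cons (nat_lit 202) (C.node (nat_lit 1) (nat_lit 6) (nat_lit 10) (C.cons (nat_lit 1346) (C.miq (nat_lit 660670888) (nat_lit 244207867237405260672798465)) (C.cons (nat_lit 1090) (C.node (nat_lit 3) (nat_lit 6) (nat_lit 10) (C.cons (nat_lit 1096) (C.node (nat_lit 6) (nat_lit 8) (nat_lit 10) C.nil) C.nil)) C.nil))) (C.cons (nat_lit 200) (C.node (nat_lit 2) (nat_lit 7) (nat_lit 10) (C.cons (nat_lit 1444) (C.node (nat_lit 2) (nat_lit 4) (nat_lit 7) (C.cons (nat_lit 148) (C.node (nat_lit 1) (nat_lit 5) (nat_lit 10) C.nil) C.nil)) (C.cons (nat_lit 1156) (C.node (nat_lit 5) (nat_lit 7) (nat_lit 10) C.nil) C.nil))) C.nil))))) C.nil)) C.nil))) C.nil))))) C.nil))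 C.nil))) (C.cons (nat_lit 1104) (C.node (nat_lit 1) (nat_lit 10) (nat_lit 11) (C.cons (nat_lit 3110) (C.miq (nat_lit 2275476402) (nat_lit 1415656986373055593499199517)) (C.cons (nat_lit 3106) (C.node (nat_lit 2) (nat_lit 10) (nat_lit 11) (C.cons (nat_lit 3076) (C.node (nat_lit 3) (nat_lit 5) (nat_lit 11) (C.cons (nat_lit 2344) (C.miq (nat_lit 461874480) (nat_lit 2940129195314359811862758441)) (C.cons (nat_lit 2088) (C.node (nat_lit 1) (nat_lit 9) (nat_lit 10) (C.cons (nat_lit 1542) (C.node (nat_lit 5) (nat_lit 9) (nat_lit 10) (C.cons (nat_lit 1568) (C.node (nat_lit 1) (nat_lit 7) (nat_lit 9) (C.cons (nat_lit 930) (C.miq (nat_lit 659656890) (nat_lit 1124329457302527915247931137)) (C.cons (nat_lit 898) (C.miq (nat_lit 1980275233) (nat_lit 407424566872701677225838086)) (C.cons (nat_lit 674) (C.miq (nat_lit 659656890) (nat_lit 814844447481182846523150081)) (C.cons (nat_lit 642) (C.node (nat_lit 1) (nat_lit 8) (nat_lit 10) (C.cons (nat_lit 1354) (C.miq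 (nat_lit 2276536410) (nat_lit 2633065412122767573754446889)) (C.cons (nat_lit 1346) (C.miq (nat_lit 1728620833) (nat_lit 475132676912464008743159302)) (C.cons (nat_lit 1290) (C.miq (nat_lit 2276536410) (nat_lit 2633064231531146856343143465)) (C.cons (nat_lit 1282) (C.node (nat_lit 2) (nat_lit 7) (nat_lit 10) (C.cons (nat_lit 1444) (C.miq (nat_lit 309700875) (nat_lit 1745746179544654654633742081)) (C.cons (nat_lit 1412) (C.miq (nat_lit 833095975) (nat_lit 1549850150463593605578883717)) (C.cons (nat_lit 1188) (C.miq (nat_lit 309700875) (nat_lit 1436261169723309585908961025)) (C.cons (nat_lit 1156) (C.node (nat_lit 1) (nat_lit 2) (nat_lit 11) C.nil) C.nil))))) C.nil))))) C.nil))))) C.nil)) (C.cons (nat_lit 1538) (C.node (nat_lit 1) (nat_lit 2) (nat_lit 10) (C.cons (nat_lit 1038) (C.node (nat_lit 1) (nat_lit 6) (nat_lit 10) (C.cons (nat_lit 1346) (C.miq (nat_lit 1781825824) (nat_lit 1266960475887753992175681799)) (C.cons (nat_lit 1090) (C.node (nat_lit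 1) (nat_lit 8) (nat_lit 10) (C.cons (nat_lit 1282) (C.node (nat_lit 4) (nat_lit 5) (nat_lit 11) C.nil) C.nil)) C.nil))) (C.cons (nat_lit 1030) (C.node (nat_lit 2) (nat_lit 3) (nat_lit 10) (C.cons (nat_lit 1292) (C.node (nat_lit 5) (nat_lit 6) (nat_lit 10) (C.cons (nat_lit 1376) (C.miq (nat_lit 2209718790) (nat_lit 2524262494438865731835724869)) (C.cons (nat_lit 1120)
  (C.node (nat_lit 4) (nat_lit 5) (nat_lit 11) C.nil) C.nil))) (C.cons (nat_lit 1036) (C.node (nat_lit 2) (nat_lit 9) (nat_lit 10) (C.cons (nat_lit 1572) (C.node (nat_lit 5) (nat_lit 9) (nat_lit 11) C.nil) (C.cons (nat_lit 1540) (C.node (nat_lit 4) (nat_lit 5) (nat_lit 11) C.nil) C.nil))) C.nil))) C.nil))) C.nil))) C.nil))) C.nil)) (C.cons (nat_lit 3078) (C.miq (nat_lit 2275476402) (nat_lit 1415656986373055593497102365)) (C.cons (nat_lit 3074) (C.node (nat_lit 2) (nat_lit 10) (nat_lit 11) (C.cons (nat_lit 3108) (C.node (nat_lit 5) (nat_lit 7) (nat_lit 10) (C.cons (nat_lit 1440) (C.miq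 (nat_lit 629193331) (nat_lit 349417876630899338624175240)) (C.cons (nat_lit 1184) (C.node (nat_lit 2) (nat_lit 3) (nat_lit 7) (C.cons (nat_lit 206) (C.miq (nat_lit 2322664242) (nat_lit 1415656987343581313007224861)) (C.cons (nat_lit 204) (C.miq (nat_lit 1000743063) (nat_lit 3791195134031908152337760901)) (C.cons (nat_lit 174) (C.miq (nat_lit 2322664242) (nat_lit 1415656987343581313005127709)) (C.cons (nat_lit 172) (C.miq (nat_lit 2320960291) (nat_lit 1431375421075300645021157405)) (C.cons (nat_lit 142) (C.miq (nat_lit 2322664242) (nat_lit 1415656987343581313003030557)) (C.cons (nat_lit 140) (C.node (nat_lit 2) (nat_lit 4) (nat_lit 10) (C.cons (nat_lit 1300) (C.node (nat_lit 2) (nat_lit 7) (nat_lit 10) (C.cons (nat_lit 1156) (C.node (nat_lit 4) (nat_lit 5) (nat_lit 10) C.nil) C.nil)) (C.cons (nat_lit 1044) (C.node (nat_lit 2) (nat_lit 7) (nat_lit 10) (C.cons (nat_lit 1412) (C.node (nat_lit 2) (nat_lit 9) (nat_lit 10) (C.cons (nat_lit 1542) (C.miq (nat_lit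 309566080) (nat_lit 169259262827239113161772801)) C.nil)) (C.cons (nat_lit 1156) (C.node (nat_lit 7) (nat_lit 8) (nat_lit 10) C.nil) C.nil))) C.nil))) C.nil))))))) C.nil))) (C.cons (nat_lit 3076) (C.node (nat_lit 5) (nat_lit 10) (nat_lit 11) (C.cons (nat_lit 3104) (C.node (nat_lit 3) (nat_lit 6) (nat_lit 7) (C.cons (nat_lit 206) (C.miq (nat_lit 2322664242) (nat_lit 1415656987343581313007224861)) (C.cons (nat_lit 204) (C.miq (nat_lit 1000743063) (nat_lit 3791195134031908152337760901)) (C.cons (nat_lit 202) (C.node (nat_lit 3) (nat_lit 6) (nat_lit 11) (C.cons (nat_lit 2376) (C.miq (nat_lit 1194724024) (nat_lit 244209232444528909548523265)) (C.cons (nat_lit 2120) (C.node (nat_lit 1) (nat_lit 2) (nat_lit 7) (C.cons (nat_lit 166) (C.node (nat_lit 2) (nat_lit 3) (nat_lit 7) C.nil) (C.cons (nat_lit 134) (C.node (nat_lit 2) (nat_lit 3) (nat_lit 7) (C.cons (nat_lit 140) (C.node (nat_lit 3) (nat_lit 5) (nat_lit 7) (C.cons (nat_lit 168) (C.node (nat_lit 2) (nat_lit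 6) (nat_lit 7) C.nil) C.nil)) C.nil)) C.nil))) C.nil))) (C.cons (nat_lit 200) (C.node (nat_lit 1) (nat_lit 3) (nat_lit 7) (C.cons (nat_lit 174) (C.miq (nat_lit 2322664242) (nat_lit 1415656987343581313005127709)) (C.cons (nat_lit 170) (C.node (nat_lit 2) (nat_lit 3) (nat_lit 7) (C.cons (nat_lit 140) (C.node (nat_lit 1) (nat_lit 2) (nat_lit 7) (C.cons (nat_lit 134) (C.node (nat_lit 1) (nat_lit 6) (nat_lit 7) C.nil) C.nil)) C.nil)) (C.cons (nat_lit 142) (C.miq (nat_lit 2322664242) (nat_lit 1415656987343581313003030557)) (C.cons (nat_lit 138) (C.node (nat_lit 2) (nat_lit 3) (nat_lit 7) (C.cons (nat_lit 172) (C.node (nat_lit 1) (nat_lit 2) (nat_lit 7) (C.cons (nat_lit 134) (C.node (nat_lit 1) (nat_lit 6) (nat_lit 7) C.nil) C.nil)) (C.cons (nat_lit 140) (C.node (nat_lit 3) (nat_lit 5) (nat_lit 7) C.nil) C.nil))) C.nil))))) C.nil))))) C.nil)) C.nil))) C.nil))))) C.nil))) C.nil)))) C.nil))) C.nil))) C.nil)))) C.nil)))) C.nil))) C.nil)))) (C.cons (nat_lit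 1472) (C.miq (nat_lit 1790215984) (nat_lit 3733169147937072675720855945)) (C.cons (nat_lit 1216) (C.node (nat_lit 7) (nat_lit 9) (nat_lit 10) (C.cons (nat_lit 1696) (C.miq (nat_lit 2545179184) (nat_lit 2649975745696087840906871849)) (C.cons (nat_lit 1664) (C.node (nat_lit 1) (nat_lit 10) (nat_lit 11) (C.cons (nat_lit 3110) (C.miq (nat_lit 2275476402) (nat_lit 1415656986373055593499199517)) (C.cons (nat_lit 3106) (C.node (nat_lit 2) (nat_lit 10) (nat_lit 11) (C.cons (nat_lit 3076)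
  (C.node (nat_lit 3) (nat_lit 5) (nat_lit 11) (C.cons (nat_lit 2344) (C.miq (nat_lit 461874480) (nat_lit 2940129195314359811862758441)) (C.cons (nat_lit 2088) (C.node (nat_lit 4) (nat_lit 5) (nat_lit 11) (C.cons (nat_lit 2352) (C.node (nat_lit 2) (nat_lit 5) (nat_lit 11) (C.cons (nat_lit 2596) (C.node (nat_lit 2) (nat_lit 8) (nat_lit 11) (C.cons (nat_lit 2372) (C.miq (nat_lit 1653640020) (nat_lit 779763370871858452333922608)) (C.cons (nat_lit 2308) (C.node (nat_lit 1) (nat_lit 2) (nat_lit 11) (C.cons (nat_lit 2118) (C.node (nat_lit 1) (nat_lit 3) (nat_lit 11) C.nil) C.nil)) C.nil))) (C.cons (nat_lit 2084) (C.node (nat_lit 5) (nat_lit 9) (nat_lit 11) C.nil) C.nil))) (C.cons (nat_lit 2096) (C.node (nat_lit 4) (nat_lit 8) (nat_lit 11) (C.cons (nat_lit 2322) (C.node (nat_lit 3) (nat_lit 8) (nat_lit 11) (C.cons (nat_lit 2376) (C.miq (nat_lit 1805943664) (nat_lit 3733169148191526054607913353)) C.nil)) (C.cons (nat_lit 2320) (C.node (nat_lit 5) (nat_lit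 8) (nat_lit 11) C.nil) C.nil))) C.nil))) C.nil))) C.nil)) (C.cons (nat_lit 3078) (C.miq (nat_lit 2275476402) (nat_lit 1415656986373055593497102365)) (C.cons (nat_lit 3074) (C.node (nat_lit 2) (nat_lit 10) (nat_lit 11) (C.cons (nat_lit 3108) (C.node (nat_lit 5) (nat_lit 7) (nat_lit 10) (C.cons (nat_lit 1440) (C.miq (nat_lit 629193331) (nat_lit 349417876630899338624175240)) (C.cons (nat_lit 1184) (C.node (nat_lit 2) (nat_lit 7) (nat_lit 10) (C.cons (nat_lit 1412) (C.node (nat_lit 2) (nat_lit 4) (nat_lit 10) (C.cons (nat_lit 1556) (C.node (nat_lit 2) (nat_lit 4) (nat_lit 7) (C.cons (nat_lit 212) (C.miq (nat_lit 1805938834) (nat_lit 3733166842319527637052293765)) (C.cons (nat_lit 180) (C.miq (nat_lit 2455479408) (nat_lit 3757412301744230430379410579)) (C.cons (nat_lit 148) (C.node (nat_lit 4) (nat_lit 5) (nat_lit 10) (C.cons (nat_lit 1328) (C.miq (nat_lit 2231870610) (nat_lit 2747914435160485370584696340)) (C.cons (nat_lit 1136) (C.miq (nat_lit 1967720098)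 (nat_lit 678219283593532010919101509)) (C.cons (nat_lit 1072) (C.node (nat_lit 4) (nat_lit 8) (nat_lit 10) (C.cons (nat_lit 1304) (C.miq (nat_lit 1916996008) (nat_lit 2510946177091563806751461121)) (C.cons (nat_lit 1296) (C.node (nat_lit 1) (nat_lit 2) (nat_lit 10) (C.cons (nat_lit 1038) (C.node (nat_lit 1) (nat_lit 2) (nat_lit 11) (C.cons (nat_lit 2630) (C.miq (nat_lit 1377020816) (nat_lit 1254884647417259107432468225)) (C.cons (nat_lit 2566) (C.miq (nat_lit 1377020816) (nat_lit 1254884647417258832554561281)) (C.cons (nat_lit 2118) (C.miq (nat_lit 1613870498) (nat_lit 632307274502196371473173540)) (C.cons (nat_lit 2054) (C.node (nat_lit 2) (nat_lit 9) (nat_lit 11) (C.cons (nat_lit 2628) (C.miq (nat_lit 1648867744) (nat_lit 178962951491967581508800257)) (C.cons (nat_lit 2564) (C.node (nat_lit 5) (nat_lit 9) (nat_lit 10) (C.cons (nat_lit 1632) (C.miq (nat_lit 3046377122) (nat_lit 678245699331047693300794437)) (C.cons (nat_lit 1570) (C.miq (nat_lit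 1362274571) (nat_lit 1254922333682484132471181057)) (C.cons (nat_lit 1568) (C.node (nat_lit 5) (nat_lit 6) (nat_lit 10) (C.cons (nat_lit 1376) (C.miq (nat_lit 713340256) (nat_lit 1566806176982830642671716577)) (C.cons (nat_lit 1122) (C.miq (nat_lit 1630231088) (nat_lit 2483175563253547248838837289)) C.nil))) C.nil)))) C.nil))) C.nil))))) (C.cons (nat_lit 1030) (C.node (nat_lit 2) (nat_lit 3) (nat_lit 10) (C.cons (nat_lit 1036) (C.node (nat_lit 3) (nat_lit 4) (nat_lit 10) (C.cons (nat_lit 1112) (C.node (nat_lit 3) (nat_lit 9) (nat_lit 10) C.nil) C.nil)) C.nil)) C.nil))) C.nil))) C.nil)))) C.nil)))) (C.cons (nat_lit 1044) (C.ref (nat_lit 305) (nat_lit 205099542782736)) C.nil))) (C.cons (nat_lit 1156) (C.node (nat_lit 7) (nat_lit 8) (nat_lit 10) (C.cons (nat_lit 1408) (C.node (nat_lit 2) (nat_lit 8) (nat_lit 11) (C.cons (nat_lit 2372) (C.node (nat_lit 2) (nat_lit 8) (nat_lit 10) (C.cons (nat_lit 1300) (C.miq (nat_lit 1755820608) (nat_lit 1702209484134341648089024541))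 (C.cons (nat_lit 1292) (C.miq (nat_lit 1518842416) (nat_lit 1702209484341507196537341981)) (C.cons (nat_lit 1284)
  (C.node (nat_lit 4) (nat_lit 8) (nat_lit 11) (C.cons (nat_lit 2354) (C.miq (nat_lit 1800022032) (nat_lit 3733183093928916211220021511)) (C.cons (nat_lit 2352) (C.miq (nat_lit 1409988706) (nat_lit 1415709467911342445566429508)) (C.cons (nat_lit 2322) (C.miq (nat_lit 1800022032) (nat_lit 3733183093928916073781068039)) (C.cons (nat_lit 2320) (C.node (nat_lit 1) (nat_lit 2) (nat_lit 11) (C.cons (nat_lit 2566) (C.node (nat_lit 5) (nat_lit 9) (nat_lit 11) (C.cons (nat_lit 2592) (C.node (nat_lit 4) (nat_lit 9) (nat_lit 11) (C.cons (nat_lit 2640) (C.miq (nat_lit 2483140226) (nat_lit 1415699469857119288227727684)) C.nil)) C.nil)) (C.cons (nat_lit 2054) (C.node (nat_lit 2) (nat_lit 9) (nat_lit 11) C.nil) C.nil))) C.nil))))) C.nil)))) (C.cons (nat_lit 2308) (C.node (nat_lit 5) (nat_lit 9) (nat_lit 11) (C.cons (nat_lit 2594) (C.node (nat_lit 1)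 (nat_lit 2) (nat_lit 11) (C.cons (nat_lit 2118) (C.node (nat_lit 2) (nat_lit 9) (nat_lit 11) (C.cons (nat_lit 2564) (C.node (nat_lit 3) (nat_lit 6) (nat_lit 11) (C.cons (nat_lit 2376) (C.miq (nat_lit 1805943664) (nat_lit 3733169148191526054607913353)) C.nil)) C.nil)) (C.cons (nat_lit 2054) (C.node (nat_lit 2) (nat_lit 6) (nat_lit 11) (C.cons (nat_lit 2628) (C.node (nat_lit 4) (nat_lit 9) (nat_lit 11) C.nil) C.nil)) C.nil))) (C.cons (nat_lit 2592) (C.node (nat_lit 2) (nat_lit 8) (nat_lit 10) (C.cons (nat_lit 1300) (C.node (nat_lit 4) (nat_lit 5) (nat_lit 10) (C.cons (nat_lit 1136) (C.miq (nat_lit 610641931) (nat_lit 1373397063928718749029437185)) (C.cons (nat_lit 1072) (C.node (nat_lit 2) (nat_lit 4) (nat_lit 7) (C.cons (nat_lit 180) (C.miq (nat_lit 1696861096) (nat_lit 217612864723192062472883969)) (C.cons (nat_lit 212) (C.miq (nat_lit 1380366976) (nat_lit 256334204082410737944825601)) (C.cons (nat_lit 148) (C.node (nat_lit 5) (nat_lit 7) (nat_lit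 4) (C.cons (nat_lit 184) (C.miq (nat_lit 2591361844) (nat_lit 1431378520128305457723344925)) (C.cons (nat_lit 432) (C.node (nat_lit 8) (nat_lit 7) (nat_lit 2) C.nil) C.nil))) C.nil)))) C.nil))) (C.cons (nat_lit 1292) (C.miq (nat_lit 1518842416) (nat_lit 1702209484341507196537341981)) (C.cons (nat_lit 1284) (C.node (nat_lit 2) (nat_lit 4) (nat_lit 10) (C.cons (nat_lit 1556) (C.node (nat_lit 1) (nat_lit 2) (nat_lit 10) (C.cons (nat_lit 1038) (C.node (nat_lit 5) (nat_lit 9) (nat_lit 10) (C.cons (nat_lit 1634) (C.miq (nat_lit 1362274571) (nat_lit 1254922333700498530980663041)) (C.cons (nat_lit 1632) (C.miq (nat_lit 3046377122) (nat_lit 678245699331047693300794437)) (C.cons (nat_lit 1570) (C.miq (nat_lit 1362274571) (nat_lit 1254922333682484132471181057)) C.nil)))) (C.cons (nat_lit 1030) (C.node (nat_lit 3) (nat_lit 2) (nat_lit 10) C.nil) C.nil))) (C.cons (nat_lit 1044) (C.node (nat_lit 4) (nat_lit 8) (nat_lit 10) (C.cons (nat_lit 1328) (C.node (nat_lit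 1) (nat_lit 2) (nat_lit 10) C.nil) (C.cons (nat_lit 1304) (C.miq (nat_lit 1739066164) (nat_lit 1702173771209957118509058077)) (C.cons (nat_lit 1296) (C.node (nat_lit 4) (nat_lit 5) (nat_lit 10) C.nil) C.nil)))) C.nil))) C.nil)))) C.nil))) C.nil))) C.nil)) C.nil))) C.nil))) (C.cons (nat_lit 3076) (C.node (nat_lit 5) (nat_lit 10) (nat_lit 11) (C.cons (nat_lit 3104) (C.node (nat_lit 3) (nat_lit 6) (nat_lit 11) (C.cons (nat_lit 2378) (C.miq (nat_lit 1805943664) (nat_lit 3733169148192089004561334665)) (C.cons (nat_lit 2376) (C.miq (nat_lit 1805943664) (nat_lit 3733169148191526054607913353)) (C.cons (nat_lit 2122) (C.node (nat_lit 3) (nat_lit 5) (nat_lit 11) (C.cons (nat_lit 2344) (C.node (nat_lit 1) (nat_lit 8) (nat_lit 11) (C.cons (nat_lit 2322) (C.node (nat_lit 4) (nat_lit 5) (nat_lit 11) C.nil) C.nil)) (C.cons (nat_lit 2088) (C.node (nat_lit 3) (nat_lit 8) (nat_lit 11) C.nil) C.nil))) (C.cons (nat_lit 2120) (C.node (nat_lit 3) (nat_lit 4) (nat_lit 7)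 (C.cons (nat_lit 728) (C.miq (nat_lit 2322991924) (nat_lit 1470060014285301080410032157)) (C.cons (nat_lit 664) (C.node (nat_lit 4) (nat_lit 6) (nat_lit 7) (C.cons (nat_lit 212) (C.node (nat_lit 3) (nat_lit 4) (nat_lit 10) (C.cons (nat_lit 1304)
  (C.miq (nat_lit 1731464104) (nat_lit 802732961416673012527664897)) (C.cons (nat_lit 1112) (C.miq (nat_lit 2476766306) (nat_lit 1287517896226411774334009556)) (C.cons (nat_lit 1048) (C.node (nat_lit 2) (nat_lit 4) (nat_lit 9) (C.cons (nat_lit 1556) (C.miq (nat_lit 1805938834) (nat_lit 3733166842319527637052293765)) (C.cons (nat_lit 788) (C.miq (nat_lit 3091597607) (nat_lit 407449931740558343680557701)) (C.cons (nat_lit 534) (C.miq (nat_lit 2269250449) (nat_lit 256297125362615288390353419)) (C.cons (nat_lit 532) (C.node (nat_lit 6) (nat_lit 7) (nat_lit 9) (C.cons (nat_lit 962) (C.miq (nat_lit 3093563762) (nat_lit 407446316178720643932750469)) (C.cons (nat_lit 960) (C.miq (nat_lit 3093563762) (nat_lit 407446316178720635342815877))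 (C.cons (nat_lit 706) (C.miq (nat_lit 371234627) (nat_lit 1321365568684662482276254360)) (C.cons (nat_lit 704) (C.node (nat_lit 1) (nat_lit 2) (nat_lit 4) (C.cons (nat_lit 54) (C.node (nat_lit 1) (nat_lit 2) (nat_lit 7) (C.cons (nat_lit 142) (C.miq (nat_lit 2322664242) (nat_lit 1415656987343581313003030557)) (C.cons (nat_lit 134) (C.node (nat_lit 2) (nat_lit 4) (nat_lit 8) (C.cons (nat_lit 1300) (C.miq (nat_lit 2222695008) (nat_lit 2650036250905172649749578821)) (C.cons (nat_lit 276) (C.node (nat_lit 2) (nat_lit 4) (nat_lit 10) (C.cons (nat_lit 1044) (C.node (nat_lit 1) (nat_lit 3) (nat_lit 4) (C.cons (nat_lit 282) (C.miq (nat_lit 345146224) (nat_lit 643153387608052901888721289)) (C.cons (nat_lit 90) (C.miq (nat_lit 377041952) (nat_lit 851093424681183147567941661)) (C.cons (nat_lit 26) (C.node (nat_lit 2) (nat_lit 5) (nat_lit 11) (C.cons (nat_lit 2596) (C.miq (nat_lit 447889557) (nat_lit 3718656817588403016579678769)) (C.cons (nat_lit 2340) (C.miq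 (nat_lit 1253380226) (nat_lit 3752506740537612633454674183)) (C.cons (nat_lit 2084) (C.node (nat_lit 2) (nat_lit 8) (nat_lit 11) C.nil) C.nil)))) C.nil)))) C.nil)) C.nil))) C.nil))) (C.cons (nat_lit 22) (C.node (nat_lit 3) (nat_lit 6) (nat_lit 7) (C.cons (nat_lit 202) (C.node (nat_lit 6) (nat_lit 7) (nat_lit 8) (C.cons (nat_lit 448) (C.node (nat_lit 1) (nat_lit 2) (nat_lit 7) (C.cons (nat_lit 166) (C.node (nat_lit 2) (nat_lit 3) (nat_lit 7) C.nil) C.nil)) C.nil)) (C.cons (nat_lit 200) (C.node (nat_lit 1) (nat_lit 6) (nat_lit 7) (C.cons (nat_lit 450) (C.node (nat_lit 1) (nat_lit 7) (nat_lit 9) (C.cons (nat_lit 674) (C.node (nat_lit 7) (nat_lit 8) (nat_lit 9) C.nil) C.nil)) (C.cons (nat_lit 194) (C.node (nat_lit 6) (nat_lit 7) (nat_lit 8) (C.cons (nat_lit 448) (C.node (nat_lit 4) (nat_lit 5) (nat_lit 7) (C.cons (nat_lit 176) (C.node (nat_lit 4) (nat_lit 7) (nat_lit 8) C.nil) C.nil)) C.nil)) C.nil))) C.nil))) C.nil))) C.nil))))) C.nil))))) C.nil))))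 (C.cons (nat_lit 208) (C.node (nat_lit 3) (nat_lit 4) (nat_lit 10) (C.cons (nat_lit 1304) (C.miq (nat_lit 1731464104) (nat_lit 802732961416673012527664897)) (C.cons (nat_lit 1112) (C.node (nat_lit 3) (nat_lit 6) (nat_lit 9) (C.cons (nat_lit 876) (C.miq (nat_lit 2544246851) (nat_lit 1470069956180754035467880477)) (C.cons (nat_lit 872) (C.miq (nat_lit 641272391) (nat_lit 1054195213161541108596475027)) (C.cons (nat_lit 844) (C.miq (nat_lit 2544246851) (nat_lit 1470069365884943676762228765)) (C.cons (nat_lit 840) (C.miq (nat_lit 641272391) (nat_lit 1015509586933872975005877395)) (C.cons (nat_lit 620) (C.miq (nat_lit 2544246851) (nat_lit 1470065233814271165822666781)) (C.cons (nat_lit 616) (C.miq (nat_lit 641272391) (nat_lit 744710203340196039871693971)) (C.cons (nat_lit 588) (C.miq (nat_lit 2544246851) (nat_lit 1470064643518460807117015069)) (C.cons (nat_lit 584) (C.miq (nat_lit 641272391) (nat_lit 706024577112527906281096339)) C.nil))))))))) (C.cons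 (nat_lit 1048) (C.ref (nat_lit 259) (nat_lit 198128827013136)) C.nil)))) C.nil))) (C.cons (nat_lit 216) (C.miq (nat_lit 2322991924) (nat_lit 1470060014285301080376477725)) (C.cons (nat_lit 184) (C.miq (nat_lit 1504133299) (nat_lit 2011655958197576468382877725)) (C.cons (nat_lit 152) (C.node (nat_lit 3) (nat_lit 4) (nat_lit 10) (C.cons (nat_lit 1624)
  (C.miq (nat_lit 1463028649) (nat_lit 183767073844655386038636289)) (C.cons (nat_lit 1560) (C.miq (nat_lit 1463028649) (nat_lit 183767073844655386034441985)) (C.cons (nat_lit 1304) (C.miq (nat_lit 1731464104) (nat_lit 183762941773982875078102785)) (C.cons (nat_lit 1112) (C.node (nat_lit 3) (nat_lit 4) (nat_lit 9) (C.cons (nat_lit 792) (C.node (nat_lit 3) (nat_lit 9) (nat_lit 10) (C.cons (nat_lit 1548) (C.miq (nat_lit 591833472) (nat_lit 1344345674138466872397467393)) (C.cons (nat_lit 1544) (C.node (nat_lit 1) (nat_lit 3) (nat_lit 4) (C.cons (nat_lit 58) (C.node (nat_lit 1) (nat_lit 3) (nat_lit 11) (C.cons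 (nat_lit 2314) (C.miq (nat_lit 2958133571) (nat_lit 42355090533446380043240216)) (C.cons (nat_lit 2058) (C.node (nat_lit 3) (nat_lit 5) (nat_lit 11) C.nil) C.nil))) (C.cons (nat_lit 26) (C.node (nat_lit 3) (nat_lit 4) (nat_lit 5) (C.cons (nat_lit 56) (C.node (nat_lit 4) (nat_lit 7) (nat_lit 9) (C.cons (nat_lit 720) (C.node (nat_lit 3) (nat_lit 7) (nat_lit 9) (C.cons (nat_lit 680) (C.miq (nat_lit 1687488567) (nat_lit 678249314347946977631142281)) (C.cons (nat_lit 648) (C.node (nat_lit 3) (nat_lit 6) (nat_lit 9) (C.cons (nat_lit 620) (C.miq (nat_lit 1228568144) (nat_lit 1866603066824962405812472033)) (C.cons (nat_lit 616) (C.miq (nat_lit 1228568144) (nat_lit 1866603066824962388632602849)) (C.cons (nat_lit 588) (C.miq (nat_lit 2794930976) (nat_lit 870448191572846019258681373)) (C.cons (nat_lit 584) (C.node (nat_lit 2) (nat_lit 3) (nat_lit 9) (C.cons (nat_lit 556) (C.node (nat_lit 3) (nat_lit 5) (nat_lit 7) (C.cons (nat_lit 170) (C.node (nat_lit 1) (nat_lit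 3) (nat_lit 11) C.nil) C.nil)) (C.cons (nat_lit 524) (C.node (nat_lit 3) (nat_lit 5) (nat_lit 9) (C.cons (nat_lit 552) (C.node (nat_lit 1) (nat_lit 3) (nat_lit 10) C.nil) C.nil)) C.nil))) C.nil))))) C.nil))) (C.cons (nat_lit 656) (C.node (nat_lit 4) (nat_lit 6) (nat_lit 7) (C.cons (nat_lit 212) (C.node (nat_lit 4) (nat_lit 9) (nat_lit 10) (C.cons (nat_lit 1556) (C.miq (nat_lit 3125152039) (nat_lit 1344367441941899252612727429)) (C.cons (nat_lit 1552) (C.node (nat_lit 2) (nat_lit 4) (nat_lit 9) (C.cons (nat_lit 534) (C.node (nat_lit 4) (nat_lit 5) (nat_lit 6) (C.cons (nat_lit 114) (C.miq (nat_lit 376587529) (nat_lit 256302124351734655786222129)) (C.cons (nat_lit 112) (C.node (nat_lit 1) (nat_lit 4) (nat_lit 6) (C.cons (nat_lit 2130) (C.miq (nat_lit 2427529060) (nat_lit 2479516706772500920801558740)) (C.cons (nat_lit 82) (C.node (nat_lit 4) (nat_lit 6) (nat_lit 9) (C.cons (nat_lit 2640) (C.miq (nat_lit 1681373568) (nat_lit 183798654773800516522151681))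 C.nil)) C.nil))) C.nil))) (C.cons (nat_lit 532) (C.node (nat_lit 1) (nat_lit 2) (nat_lit 4) (C.cons (nat_lit 54) (C.node (nat_lit 4) (nat_lit 5) (nat_lit 6) (C.cons (nat_lit 112) (C.node (nat_lit 2) (nat_lit 4) (nat_lit 8) (C.cons (nat_lit 1300) (C.miq (nat_lit 2222695008) (nat_lit 2650036250905172649749578821)) C.nil)) C.nil)) (C.cons (nat_lit 22) (C.node (nat_lit 4) (nat_lit 5) (nat_lit 6) (C.cons (nat_lit 114) (C.node (nat_lit 4) (nat_lit 6) (nat_lit 9) (C.cons (nat_lit 2640) (C.miq (nat_lit 1681373568) (nat_lit 183798654773800516522151681)) C.nil)) (C.cons (nat_lit 112) (C.node (nat_lit 4) (nat_lit 5) (nat_lit 7) (C.cons (nat_lit 176) (C.node (nat_lit 4) (nat_lit 7) (nat_lit 8) (C.cons (nat_lit 400) (C.node (nat_lit 3) (nat_lit 6) (nat_lit 7) C.nil) C.nil)) C.nil)) C.nil))) C.nil))) C.nil))) C.nil))) (C.cons (nat_lit 208) (C.node (nat_lit 4) (nat_lit 9) (nat_lit 10) (C.cons (nat_lit 1556) (C.node (nat_lit 4) (nat_lit 5) (nat_lit 10) (C.cons (nat_lit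 1328) (C.node (nat_lit 4) (nat_lit 5) (nat_lit 7) (C.cons (nat_lit 180) (C.miq (nat_lit 3125086503) (nat_lit 1605495418978659154347164293)) (C.cons (nat_lit 176) (C.node (nat_lit 7) (nat_lit 8) (nat_lit 10) (C.cons (nat_lit 1412) (C.miq (nat_lit 2231870610) (nat_lit 2747914435160485370584696340)) (C.cons (nat_lit 1408) (C.node (nat_lit 1) (nat_lit 3) (nat_lit 10) (C.cons (nat_lit 1290) (C.miq (nat_lit 1480149520) (nat_lit 957479598132015967039587475)) (C.cons (nat_lit 1038)
  (C.miq (nat_lit 2217805474) (nat_lit 31436922898533587377587269)) C.nil))) C.nil))) C.nil))) (C.cons (nat_lit 1072) (C.node (nat_lit 4) (nat_lit 8) (nat_lit 10) (C.cons (nat_lit 1296) (C.node (nat_lit 1) (nat_lit 2) (nat_lit 10) (C.cons (nat_lit 1030) (C.node (nat_lit 1) (nat_lit 3) (nat_lit 10) (C.cons (nat_lit 1034) (C.node (nat_lit 2) (nat_lit 3) (nat_lit 10) C.nil) C.nil)) C.nil)) C.nil)) C.nil))) (C.cons (nat_lit 1552) (C.node (nat_lit 1) (nat_lit 3) (nat_lit 10) (C.cons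 (nat_lit 1290) (C.node (nat_lit 2) (nat_lit 3) (nat_lit 10) (C.cons (nat_lit 1036) (C.node (nat_lit 1) (nat_lit 3) (nat_lit 11) (C.cons (nat_lit 2058) (C.node (nat_lit 3) (nat_lit 5) (nat_lit 11) C.nil) C.nil)) C.nil)) (C.cons (nat_lit 1038) (C.miq (nat_lit 2217805474) (nat_lit 31436922898533587377587269)) (C.cons (nat_lit 1034) (C.node (nat_lit 2) (nat_lit 3) (nat_lit 10) (C.cons (nat_lit 1292) (C.node (nat_lit 2) (nat_lit 4) (nat_lit 10) (C.cons (nat_lit 1044) (C.node (nat_lit 2) (nat_lit 7) (nat_lit 10) (C.cons (nat_lit 1156) (C.node (nat_lit 4) (nat_lit 5) (nat_lit 10) C.nil) C.nil)) C.nil)) (C.cons (nat_lit 1036) (C.node (nat_lit 3) (nat_lit 8) (nat_lit 10) C.nil) C.nil))) C.nil)))) C.nil))) C.nil))) C.nil))) C.nil)) C.nil))) C.nil))) (C.cons (nat_lit 536) (C.node (nat_lit 3) (nat_lit 9) (nat_lit 10) (C.cons (nat_lit 1548) (C.node (nat_lit 4) (nat_lit 9) (nat_lit 10) (C.cons (nat_lit 1552) (C.node (nat_lit 2) (nat_lit 3) (nat_lit 7) (C.cons (nat_lit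 206) (C.miq (nat_lit 2322664242) (nat_lit 1415656987343581313007224861)) (C.cons (nat_lit 204) (C.miq (nat_lit 2741736048) (nat_lit 2562993591962725109035238021)) (C.cons (nat_lit 174) (C.miq (nat_lit 2322664242) (nat_lit 1415656987343581313005127709)) (C.cons (nat_lit 172) (C.miq (nat_lit 3124037927) (nat_lit 1287547928420011647039177349)) (C.cons (nat_lit 142) (C.miq (nat_lit 2322664242) (nat_lit 1415656987343581313003030557)) (C.cons (nat_lit 140) (C.node (nat_lit 1) (nat_lit 2) (nat_lit 10) (C.cons (nat_lit 1062) (C.node (nat_lit 5) (nat_lit 9) (nat_lit 10) (C.cons (nat_lit 1632) (C.miq (nat_lit 1497066016) (nat_lit 3104563434679021073193567301)) (C.cons (nat_lit 1568) (C.node (nat_lit 1) (nat_lit 3) (nat_lit 10) (C.cons (nat_lit 1290) (C.node (nat_lit 2) (nat_lit 7) (nat_lit 10) (C.cons (nat_lit 1412) (C.miq (nat_lit 2207424775) (nat_lit 1871443215929183006598956179)) C.nil)) C.nil)) C.nil))) (C.cons (nat_lit 1030) (C.node (nat_lit 1) (nat_lit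 3) (nat_lit 10) (C.cons (nat_lit 1290) (C.node (nat_lit 6) (nat_lit 8) (nat_lit 10) (C.cons (nat_lit 1376) (C.node (nat_lit 4) (nat_lit 8) (nat_lit 10) (C.cons (nat_lit 1300) (C.miq (nat_lit 1512794176) (nat_lit 3718697750971194034754486609)) C.nil)) C.nil)) (C.cons (nat_lit 1034) (C.node (nat_lit 3) (nat_lit 8) (nat_lit 10) (C.cons (nat_lit 1288) (C.node (nat_lit 2) (nat_lit 8) (nat_lit 11) (C.cons (nat_lit 2308) (C.node (nat_lit 6) (nat_lit 8) (nat_lit 11) C.nil) C.nil)) C.nil)) C.nil))) C.nil))) C.nil))))))) C.nil)) (C.cons (nat_lit 1544) (C.node (nat_lit 4) (nat_lit 9) (nat_lit 10) (C.cons (nat_lit 1556) (C.node (nat_lit 4) (nat_lit 5) (nat_lit 10) (C.cons (nat_lit 1328) (C.node (nat_lit 4) (nat_lit 5) (nat_lit 7) (C.cons (nat_lit 180) (C.miq (nat_lit 3125086503) (nat_lit 1605495418978659154347164293)) (C.cons (nat_lit 176) (C.node (nat_lit 7) (nat_lit 8) (nat_lit 10) (C.cons (nat_lit 1412) (C.miq (nat_lit 2231870610) (nat_lit 2747914435160485370584696340))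 (C.cons (nat_lit 1408) (C.node (nat_lit 2) (nat_lit 7) (nat_lit 10) (C.cons (nat_lit 1188) (C.node (nat_lit 1) (nat_lit 2) (nat_lit 10) (C.cons (nat_lit 1038) (C.node (nat_lit 2) (nat_lit 8) (nat_lit 10) C.nil) C.nil)) C.nil)) C.nil))) C.nil))) (C.cons (nat_lit 1072) (C.node (nat_lit 4) (nat_lit 8) (nat_lit 10) (C.cons (nat_lit 1296) (C.node (nat_lit 1) (nat_lit 2) (nat_lit 10) (C.cons (nat_lit 1030) (C.node (nat_lit 1) (nat_lit 3) (nat_lit 10) (C.cons (nat_lit 1034) (C.node (nat_lit 2) (nat_lit 3) (nat_lit 10) C.nil) C.nil)) C.nil)) C.nil)) C.nil))) (C.cons (nat_lit 1552)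
  (C.node (nat_lit 1) (nat_lit 3) (nat_lit 10) (C.cons (nat_lit 1290) (C.node (nat_lit 2) (nat_lit 3) (nat_lit 10) (C.cons (nat_lit 1036) (C.node (nat_lit 6) (nat_lit 8) (nat_lit 10) (C.cons (nat_lit 1344) (C.node (nat_lit 1) (nat_lit 3) (nat_lit 11) (C.cons (nat_lit 2058) (C.node (nat_lit 3) (nat_lit 5) (nat_lit 11) C.nil) C.nil)) C.nil)) C.nil)) (C.cons (nat_lit 1038) (C.node (nat_lit 3) (nat_lit 8) (nat_lit 10) (C.cons (nat_lit 1288) (C.node (nat_lit 2) (nat_lit 9) (nat_lit 10) (C.cons (nat_lit 1540) (C.node (nat_lit 2) (nat_lit 8) (nat_lit 11) (C.cons (nat_lit 2308) (C.node (nat_lit 6) (nat_lit 8) (nat_lit 11) C.nil) C.nil)) C.nil)) C.nil)) (C.cons (nat_lit 1034) (C.node (nat_lit 2) (nat_lit 3) (nat_lit 10) (C.cons (nat_lit 1292) (C.node (nat_lit 2) (nat_lit 4) (nat_lit 10) (C.cons (nat_lit 1044) (C.node (nat_lit 2) (nat_lit 7) (nat_lit 10) (C.cons (nat_lit 1156) (C.node (nat_lit 4) (nat_lit 5) (nat_lit 10) C.nil) C.nil)) C.nil)) (C.cons (nat_lit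 1036) (C.node (nat_lit 3) (nat_lit 8) (nat_lit 10) (C.cons (nat_lit 1288) (C.node (nat_lit 2) (nat_lit 8) (nat_lit 11) (C.cons (nat_lit 2308) (C.node (nat_lit 6) (nat_lit 8) (nat_lit 11) C.nil) C.nil)) C.nil)) C.nil))) C.nil)))) C.nil))) C.nil))) C.nil))) (C.cons (nat_lit 1048) (C.node (nat_lit 8) (nat_lit 6) (nat_lit 11) (C.cons (nat_lit 2372) (C.node (nat_lit 8) (nat_lit 4) (nat_lit 11) (C.cons (nat_lit 2354) (C.miq (nat_lit 455755872) (nat_lit 3718677422934511938192081233)) C.nil)) (C.cons (nat_lit 2370) (C.node (nat_lit 1) (nat_lit 3) (nat_lit 11) C.nil) (C.cons (nat_lit 2368) (C.node (nat_lit 8) (nat_lit 2) (nat_lit 11) C.nil) C.nil)))) C.nil)))))) C.nil)))))) C.nil))))) C.nil)) C.nil))) C.nil))))) C.nil))) C.nil)))) List.nil)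

theorem ok12_308 : okL par12 (nat_lit 309) c12_308 (nat_lit 308) = true := by decide +kernel

noncomputable def c12_309 : List C :=
  (List.cons (C.node (nat_lit 6) (nat_lit 10) (nat_lit 11) (C.cons (nat_lit 3138) (C.node (nat_lit 2) (nat_lit 10) (nat_lit 11) (C.cons (nat_lit 3108) (C.node (nat_lit 5) (nat_lit 7) (nat_lit 10) (C.cons (nat_lit 1696) (C.miq (nat_lit 2545179184) (nat_lit 2649975745696087840906871849)) (C.cons (nat_lit 1440) (C.miq (nat_lit 629193331) (nat_lit 349417876630899338624175240)) (C.cons (nat_lit 1184) (C.node (nat_lit 1) (nat_lit 2) (nat_lit 11) (C.cons (nat_lit 2566) (C.node (nat_lit 1) (nat_lit 2) (nat_lit 10) (C.cons (nat_lit 1038) (C.miq (nat_lit 1377020816) (nat_lit 1254884647417258832554561281)) (C.cons (nat_lit 1030) (C.node (nat_lit 1) (nat_lit 3) (nat_lit 10) (C.cons (nat_lit 1290) (C.miq (nat_lit 369666931) (nat_lit 407431798393263356602027144)) (C.cons (nat_lit 1034) (C.node (nat_lit 5) (nat_lit 9) (nat_lit 11)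 (C.cons (nat_lit 2600) (C.miq (nat_lit 1203309109) (nat_lit 3249602952077169548822316073)) (C.cons (nat_lit 2592) (C.node (nat_lit 2) (nat_lit 3) (nat_lit 10) (C.cons (nat_lit 1548) (C.miq (nat_lit 1343988626) (nat_lit 2479564188809958623241700876)) (C.cons (nat_lit 1292) (C.miq (nat_lit 2270834866) (nat_lit 1431392003727693604104439837)) (C.cons (nat_lit 1036) (C.node (nat_lit 1) (nat_lit 3) (nat_lit 11) (C.cons (nat_lit 2346) (C.miq (nat_lit 557168906) (nat_lit 2836197306018768169724350209)) (C.cons (nat_lit 2314) (C.miq (nat_lit 999784736) (nat_lit 3249599853345888306500796679)) (C.cons (nat_lit 2090) (C.miq (nat_lit 557168906) (nat_lit 2526712296197423100999569153)) (C.cons (nat_lit 2058) (C.node (nat_lit 1) (nat_lit 2) (nat_lit 7) (C.cons (nat_lit 206) (C.miq (nat_lit 1377020816) (nat_lit 249058365497887359199022849)) (C.cons (nat_lit 198) (C.miq (nat_lit 2703865456) (nat_lit 3102174507958394908047640801)) (C.cons (nat_lit 174) (C.miq (nat_lit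 2317552471) (nat_lit 1252454399772335527164774625)) (C.cons (nat_lit 166) (C.miq (nat_lit 891357881) (nat_lit 200691334002963192220094209)) (C.cons (nat_lit 142) (C.miq (nat_lit 1377020816) (nat_lit 171687113042551092017827585)) (C.cons (nat_lit 134) (C.node (nat_lit 1) (nat_lit 3) (nat_lit 7) (C.cons (nat_lit 202) (C.miq (nat_lit 2316503911) (nat_lit 1250036548133106397666216161)) (C.cons (nat_lit 170) (C.miq (nat_lit 557168906) (nat_lit 205574722537335085563711233)) (C.cons (nat_lit 138) (C.node (nat_lit 1) (nat_lit 8) (nat_lit 10) (C.cons (nat_lit 1314) (C.node (nat_lit 1) (nat_lit 2) (nat_lit 3) (C.cons (nat_lit 110) (C.miq (nat_lit 2589002531) (nat_lit 1588538175701932019970607133)) (C.cons (nat_lit 78) (C.miq (nat_lit 1377020816) (nat_lit 94315860587214824836632321)) (C.cons (nat_lit 46) (C.miq (nat_lit 2589002531) (nat_lit 1588538175701932019966412829)) (C.cons (nat_lit 14) (C.miq (nat_lit 1377020816) (nat_lit 16944608131878557655437057)) C.nil)))))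 (C.cons (nat_lit 1282) (C.node (nat_lit 1) (nat_lit 5) (nat_lit 10) (C.cons (nat_lit 1570) (C.node (nat_lit 1) (nat_lit 5) (nat_lit 7) (C.cons (nat_lit 418) (C.node (nat_lit 1) (nat_lit 5) (nat_lit 11) (C.cons (nat_lit 2098) (C.node (nat_lit 1) (nat_lit 8) (nat_lit 11) C.nil) (C.cons (nat_lit 2082) (C.node (nat_lit 1) (nat_lit 4) (nat_lit 11) C.nil) C.nil))) (C.cons (nat_lit 162) (C.node (nat_lit 2) (nat_lit 6) (nat_lit 11) (C.cons (nat_lit 2372) (C.node (nat_lit 3) (nat_lit 5) (nat_lit 11) (C.cons (nat_lit 2344) (C.miq (nat_lit 2208478470) (nat_lit 1252490905457480583673612513)) (C.cons (nat_lit 2088) (C.node (nat_lit 3) (nat_lit 8) (nat_lit 11) C.nil) C.nil))) (C.cons (nat_lit 2116) (C.node (nat_lit 2) (nat_lit 8) (nat_lit 11) C.nil) C.nil))) C.nil))) (C.cons (nat_lit 1058) (C.node (nat_lit 1) (nat_lit 2) (nat_lit 3) (C.cons (nat_lit 110) (C.miq (nat_lit 2589002531) (nat_lit 1279053165880586951245826077)) (C.cons (nat_lit 78) (C.miq (nat_lit 1377020816)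 (nat_lit 94315860587214824836632321)) (C.cons (nat_lit 46) (C.miq (nat_lit 2589002531) (nat_lit 1279053165880586951241631773)) (C.cons (nat_lit 14)
  (C.miq (nat_lit 1377020816) (nat_lit 16944608131878557655437057)) C.nil))))) C.nil))) C.nil))) C.nil)))) C.nil))))))) C.nil))))) C.nil)))) C.nil))) C.nil))) C.nil))) (C.cons (nat_lit 2054) (C.node (nat_lit 2) (nat_lit 9) (nat_lit 11) (C.cons (nat_lit 2628) (C.miq (nat_lit 462923296) (nat_lit 3249614205144713299629507653)) (C.cons (nat_lit 2564) (C.node (nat_lit 2) (nat_lit 6) (nat_lit 11) (C.cons (nat_lit 2372) (C.node (nat_lit 4) (nat_lit 8) (nat_lit 11) (C.cons (nat_lit 2354) (C.miq (nat_lit 2258743812) (nat_lit 3793652646253919201746159645)) (C.cons (nat_lit 2352) (C.miq (nat_lit 1409988706) (nat_lit 1415709467911342445566429508)) (C.cons (nat_lit 2322) (C.miq (nat_lit 2258743812) (nat_lit 3793652055958108843040507933)) (C.cons (nat_lit 2320) (C.node (nat_lit 2) (nat_lit 7) (nat_lit 10) (C.cons (nat_lit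 1412) (C.ref (nat_lit 235) (nat_lit 198128827013136)) (C.cons (nat_lit 1156) (C.node (nat_lit 7) (nat_lit 8) (nat_lit 10) (C.cons (nat_lit 1472) (C.miq (nat_lit 1790215984) (nat_lit 3733169147937072675720855945)) (C.cons (nat_lit 1408) (C.node (nat_lit 2) (nat_lit 8) (nat_lit 10) (C.cons (nat_lit 1300) (C.miq (nat_lit 1755820608) (nat_lit 1702209484134341648089024541)) (C.cons (nat_lit 1292) (C.miq (nat_lit 1518842416) (nat_lit 1702209484341507196537341981)) (C.cons (nat_lit 1284) (C.node (nat_lit 2) (nat_lit 4) (nat_lit 10) (C.cons (nat_lit 1556) (C.node (nat_lit 6) (nat_lit 7) (nat_lit 10) (C.cons (nat_lit 1728) (C.miq (nat_lit 1764457024) (nat_lit 3099727731427584188618704019)) (C.cons (nat_lit 1216) (C.node (nat_lit 7) (nat_lit 9) (nat_lit 10) (C.cons (nat_lit 1664) (C.node (nat_lit 5) (nat_lit 6) (nat_lit 10) (C.cons (nat_lit 1632) (C.miq (nat_lit 3046377122) (nat_lit 678245699331047693300794437)) (C.cons (nat_lit 1376) (C.miq (nat_lit 847907685)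 (nat_lit 1552280398752256075375839457)) (C.cons (nat_lit 1136) (C.miq (nat_lit 1967720098) (nat_lit 678219283593532010919101509)) (C.cons (nat_lit 1120) (C.node (nat_lit 2) (nat_lit 4) (nat_lit 6) (C.cons (nat_lit 212) (C.miq (nat_lit 2185934448) (nat_lit 1881159429932009669598054625)) (C.cons (nat_lit 118) (C.miq (nat_lit 2585004901) (nat_lit 1415662484473314977800128737)) (C.cons (nat_lit 116) (C.miq (nat_lit 2185868880) (nat_lit 1881159429932009257241217249)) (C.cons (nat_lit 86) (C.miq (nat_lit 2249896512) (nat_lit 3793680076562352482817345565)) (C.cons (nat_lit 84) (C.node (nat_lit 1) (nat_lit 2) (nat_lit 4) (C.cons (nat_lit 54) (C.node (nat_lit 4) (nat_lit 5) (nat_lit 11) (C.cons (nat_lit 2096) (C.node (nat_lit 1) (nat_lit 9) (nat_lit 10) (C.cons (nat_lit 1570) (C.miq (nat_lit 844172201) (nat_lit 65291642490977401018912513)) (C.cons (nat_lit 1538) (C.node (nat_lit 5) (nat_lit 9) (nat_lit 10) C.nil) C.nil))) C.nil)) (C.cons (nat_lit 22) (C.node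 (nat_lit 1) (nat_lit 2) (nat_lit 10) (C.cons (nat_lit 1038) (C.node (nat_lit 1) (nat_lit 9) (nat_lit 10) (C.cons (nat_lit 1570) (C.miq (nat_lit 1362274571) (nat_lit 1254922333682484132471181057)) (C.cons (nat_lit 1538) (C.node (nat_lit 5) (nat_lit 9) (nat_lit 10) C.nil) C.nil))) (C.cons (nat_lit 1030) (C.node (nat_lit 2) (nat_lit 3) (nat_lit 10) C.nil) C.nil))) C.nil))) C.nil)))))) C.nil))))) C.nil)) C.nil))) (C.cons (nat_lit 1044) (C.node (nat_lit 3) (nat_lit 6) (nat_lit 11) (C.cons (nat_lit 2632) (C.node (nat_lit 4) (nat_lit 6) (nat_lit 11) (C.cons (nat_lit 2128) (C.node (nat_lit 4) (nat_lit 5) (nat_lit 11) (C.cons (nat_lit 2096) (C.node (nat_lit 1) (nat_lit 4) (nat_lit 11) C.nil) C.nil)) C.nil)) (C.cons (nat_lit 2120) (C.node (nat_lit 3) (nat_lit 9) (nat_lit 11) (C.cons (nat_lit 2600) (C.miq (nat_lit 1203309109) (nat_lit 3249602952077169548822316073)) (C.cons (nat_lit 2568) (C.node (nat_lit 4) (nat_lit 5) (nat_lit 11) (C.cons (nat_lit 2098) (C.node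 (nat_lit 1) (nat_lit 9) (nat_lit 11) C.nil) C.nil)) C.nil))) C.nil))) C.nil))) C.nil)))) C.nil))) C.nil))) C.nil))))) (C.cons (nat_lit 2116) (C.node (nat_lit 2) (nat_lit 8) (nat_lit 11) (C.cons (nat_lit 2308) (C.node (nat_lit 6) (nat_lit 8) (nat_lit 11) (C.cons (nat_lit 2376)
  (C.miq (nat_lit 1805943664) (nat_lit 3733169148191526054607913353)) (C.cons (nat_lit 2368) (C.node (nat_lit 3) (nat_lit 6) (nat_lit 11) (C.cons (nat_lit 2632) (C.node (nat_lit 4) (nat_lit 6) (nat_lit 11) C.nil) C.nil)) C.nil))) C.nil)) C.nil))) C.nil))) C.nil))) C.nil)))) (C.cons (nat_lit 3076) (C.node (nat_lit 5) (nat_lit 10) (nat_lit 11) (C.cons (nat_lit 3104) (C.node (nat_lit 4) (nat_lit 6) (nat_lit 11) (C.cons (nat_lit 2640) (C.node (nat_lit 3) (nat_lit 6) (nat_lit 11) (C.cons (nat_lit 2376) (C.miq (nat_lit 1805943664) (nat_lit 3733169148191526054607913353)) (C.cons (nat_lit 2120) (C.node (nat_lit 3) (nat_lit 9) (nat_lit 11) (C.cons (nat_lit 2600) (C.miq (nat_lit 2073338704)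 (nat_lit 3191585765822914227348767785)) (C.cons (nat_lit 2568) (C.node (nat_lit 2) (nat_lit 6) (nat_lit 11) (C.cons (nat_lit 2372) (C.node (nat_lit 6) (nat_lit 7) (nat_lit 4) (C.cons (nat_lit 216) (C.miq (nat_lit 2252014714) (nat_lit 2562993591621858963839517843)) (C.cons (nat_lit 212) (C.miq (nat_lit 1924810368) (nat_lit 3718677422331592538257949009)) (C.cons (nat_lit 208) (C.node (nat_lit 9) (nat_lit 2) (nat_lit 11) (C.cons (nat_lit 2596) (C.miq (nat_lit 671462985) (nat_lit 349427450283903273684503120)) (C.cons (nat_lit 2566) (C.miq (nat_lit 423635816) (nat_lit 678212237019774481597532484)) (C.cons (nat_lit 2564) (C.node (nat_lit 1) (nat_lit 9) (nat_lit 11) (C.cons (nat_lit 2594) (C.node (nat_lit 1) (nat_lit 2) (nat_lit 11) C.nil) C.nil)) C.nil)))) C.nil)))) (C.cons (nat_lit 2116) (C.node (nat_lit 6) (nat_lit 8) (nat_lit 11) C.nil) C.nil))) C.nil))) C.nil))) (C.cons (nat_lit 2128) (C.node (nat_lit 4) (nat_lit 9) (nat_lit 11) (C.cons (nat_lit 2578)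 (C.node (nat_lit 1) (nat_lit 9) (nat_lit 10) (C.cons (nat_lit 1574) (C.miq (nat_lit 2065237666) (nat_lit 3116622661756247654827164741)) (C.cons (nat_lit 1570) (C.miq (nat_lit 974849428) (nat_lit 3793647536137925038431142449)) (C.cons (nat_lit 1542) (C.miq (nat_lit 2065237666) (nat_lit 3116622661756247654825067589)) (C.cons (nat_lit 1538) (C.node (nat_lit 1) (nat_lit 2) (nat_lit 11) (C.cons (nat_lit 2086) (C.node (nat_lit 1) (nat_lit 2) (nat_lit 4) (C.cons (nat_lit 86) (C.miq (nat_lit 2439689248) (nat_lit 3793680076620336328014628893)) (C.cons (nat_lit 22) (C.node (nat_lit 2) (nat_lit 9) (nat_lit 11) (C.cons (nat_lit 2628) (C.miq (nat_lit 1780031563) (nat_lit 1859376388918382558520150045)) (C.cons (nat_lit 2564) (C.node (nat_lit 5) (nat_lit 9) (nat_lit 11) (C.cons (nat_lit 2600) (C.miq (nat_lit 1511600203) (nat_lit 1859375872401667195304806429)) (C.cons (nat_lit 2592) (C.node (nat_lit 1) (nat_lit 3) (nat_lit 11) (C.cons (nat_lit 2314) (C.node (nat_lit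 3) (nat_lit 5) (nat_lit 11) C.nil) C.nil)) C.nil))) C.nil))) C.nil))) (C.cons (nat_lit 2054) (C.node (nat_lit 4) (nat_lit 5) (nat_lit 11) (C.cons (nat_lit 2352) (C.node (nat_lit 1) (nat_lit 8) (nat_lit 11) (C.cons (nat_lit 2314) (C.miq (nat_lit 2231612561) (nat_lit 1287548684317398189698910738)) (C.cons (nat_lit 2306) (C.node (nat_lit 3) (nat_lit 8) (nat_lit 11) (C.cons (nat_lit 2376) (C.miq (nat_lit 1805943664) (nat_lit 3733169148191526054607913353)) C.nil)) C.nil))) (C.cons (nat_lit 2096) (C.node (nat_lit 4) (nat_lit 8) (nat_lit 11) C.nil) C.nil))) C.nil))) C.nil))))) (C.cons (nat_lit 2576) (C.node (nat_lit 1) (nat_lit 3) (nat_lit 10) (C.cons (nat_lit 1290) (C.miq (nat_lit 369666931) (nat_lit 407431798393263356602027144)) (C.cons (nat_lit 1038) (C.node (nat_lit 1) (nat_lit 8) (nat_lit 10) (C.cons (nat_lit 1314) (C.node (nat_lit 1) (nat_lit 9) (nat_lit 10) (C.cons (nat_lit 1538) (C.node (nat_lit 1) (nat_lit 2) (nat_lit 7) (C.cons (nat_lit 198) (C.miq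 (nat_lit 2584873831) (nat_lit 1254876899991071489171785953)) (C.cons (nat_lit 166) (C.node (nat_lit 5) (nat_lit 7) (nat_lit 10) (C.cons (nat_lit 1696) (C.miq (nat_lit 2545179184) (nat_lit 2649975745696087840906871849)) (C.cons (nat_lit 1184) (C.miq (nat_lit 2589394962) (nat_lit 1431380069654799514656440583)) C.nil))) (C.cons (nat_lit 134) (C.node (nat_lit 1) (nat_lit 3) (nat_lit 7) (C.cons (nat_lit 202)
  (C.miq (nat_lit 2316503911) (nat_lit 1254872251411564914365040865)) (C.cons (nat_lit 170) (C.miq (nat_lit 1645677109) (nat_lit 162037989585296458953393193)) (C.cons (nat_lit 138) (C.node (nat_lit 1) (nat_lit 5) (nat_lit 7) (C.cons (nat_lit 674) (C.node (nat_lit 3) (nat_lit 4) (nat_lit 10) (C.cons (nat_lit 1624) (C.miq (nat_lit 1779974944) (nat_lit 1588534743983495396054206493)) (C.cons (nat_lit 1560) (C.miq (nat_lit 2841064459) (nat_lit 814875180014351897287788573)) (C.cons (nat_lit 1304) (C.miq (nat_lit 1253475184) (nat_lit 3793615438870516338381619593))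 (C.cons (nat_lit 1112) (C.miq (nat_lit 1779974944) (nat_lit 1588534743839380207978350621)) (C.cons (nat_lit 1048) (C.node (nat_lit 1) (nat_lit 4) (nat_lit 5) (C.cons (nat_lit 2098) (C.miq (nat_lit 656083284) (nat_lit 2633078749189657692172583473)) (C.cons (nat_lit 122) (C.miq (nat_lit 2585004901) (nat_lit 1415662484473314977800390881)) (C.cons (nat_lit 118) (C.miq (nat_lit 2585004901) (nat_lit 1415662484473314977800128737)) (C.cons (nat_lit 114) (C.miq (nat_lit 2585004901) (nat_lit 1415662484473314977799866593)) (C.cons (nat_lit 58) (C.miq (nat_lit 1899140416) (nat_lit 1254876899099627009553007153)) (C.cons (nat_lit 54) (C.miq (nat_lit 1269112961) (nat_lit 3752506740792628962287288583)) (C.cons (nat_lit 50) (C.node (nat_lit 1) (nat_lit 4) (nat_lit 11) (C.cons (nat_lit 2322) (C.miq (nat_lit 873794442) (nat_lit 60465937347803459035991809)) (C.cons (nat_lit 2066) (C.node (nat_lit 1) (nat_lit 6) (nat_lit 7) (C.cons (nat_lit 450) (C.node (nat_lit 1) (nat_lit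 2) (nat_lit 4) (C.cons (nat_lit 598) (C.miq (nat_lit 2173986640) (nat_lit 722943856808967720957708513)) (C.cons (nat_lit 534) (C.miq (nat_lit 2173986640) (nat_lit 645572604353631453776513249)) (C.cons (nat_lit 86) (C.miq (nat_lit 1898153536) (nat_lit 1254872250457070160221897041)) C.nil)))) C.nil)) C.nil))) C.nil)))))))) C.nil)))))) (C.cons (nat_lit 162) (C.node (nat_lit 1) (nat_lit 3) (nat_lit 11) (C.cons (nat_lit 2314) (C.node (nat_lit 3) (nat_lit 5) (nat_lit 11) (C.cons (nat_lit 2600) (C.miq (nat_lit 2073338704) (nat_lit 3114214513367577960167572521)) (C.cons (nat_lit 2088) (C.node (nat_lit 4) (nat_lit 8) (nat_lit 11) (C.cons (nat_lit 2352) (C.miq (nat_lit 2508260531) (nat_lit 1588538174778690849508821021)) C.nil)) C.nil))) (C.cons (nat_lit 2090) (C.miq (nat_lit 1369879328) (nat_lit 3793651151988273051611760669)) (C.cons (nat_lit 2058) (C.node (nat_lit 1) (nat_lit 8) (nat_lit 11) (C.cons (nat_lit 2322) (C.node (nat_lit 4) (nat_lit 5) (nat_lit 11)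 C.nil) (C.cons (nat_lit 2306) (C.node (nat_lit 1) (nat_lit 4) (nat_lit 11) C.nil) C.nil))) C.nil)))) C.nil))) C.nil)))) C.nil)))) C.nil)) (C.cons (nat_lit 1282) (C.node (nat_lit 1) (nat_lit 5) (nat_lit 10) (C.cons (nat_lit 1570) (C.node (nat_lit 1) (nat_lit 9) (nat_lit 11) (C.cons (nat_lit 2566) (C.miq (nat_lit 1394712761) (nat_lit 1254893962447960578353139457)) (C.cons (nat_lit 2562) (C.node (nat_lit 2) (nat_lit 9) (nat_lit 10) (C.cons (nat_lit 1556) (C.miq (nat_lit 306815749) (nat_lit 1881117537000738666348348457)) (C.cons (nat_lit 1540) (C.node (nat_lit 3) (nat_lit 4) (nat_lit 10) (C.cons (nat_lit 1624) (C.miq (nat_lit 1779974944) (nat_lit 1549849117755827262463608861)) (C.cons (nat_lit 1560) (C.miq (nat_lit 2056631104) (nat_lit 1898055467147225771573053469)) (C.cons (nat_lit 1304) (C.miq (nat_lit 1253475184) (nat_lit 3793615438870516338381619593)) (C.cons (nat_lit 1112) (C.miq (nat_lit 1779974944) (nat_lit 1549849117611712074387752989)) (C.cons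 (nat_lit 1048) (C.node (nat_lit 1) (nat_lit 2) (nat_lit 11) (C.cons (nat_lit 2086) (C.node (nat_lit 2) (nat_lit 9) (nat_lit 11) (C.cons (nat_lit 2628) (C.miq (nat_lit 462923296) (nat_lit 3249614205144713299629507653)) C.nil)) (C.cons (nat_lit 2054) (C.node (nat_lit 2) (nat_lit 5) (nat_lit 11) C.nil) C.nil))) C.nil)))))) C.nil))) C.nil))) (C.cons (nat_lit 1058) (C.node (nat_lit 1) (nat_lit 9) (nat_lit 10) (C.cons (nat_lit 1538) (C.node (nat_lit 1) (nat_lit 2) (nat_lit 7) (C.cons (nat_lit 198)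
  (C.miq (nat_lit 2584873831) (nat_lit 1254876899991071489171785953)) (C.cons (nat_lit 166) (C.node (nat_lit 1) (nat_lit 3) (nat_lit 7) (C.cons (nat_lit 202) (C.miq (nat_lit 2316503911) (nat_lit 1254872251411564914365040865)) (C.cons (nat_lit 138) (C.node (nat_lit 2) (nat_lit 5) (nat_lit 11) (C.cons (nat_lit 2340) (C.miq (nat_lit 2182788464) (nat_lit 1254935855362624360277018849)) (C.cons (nat_lit 2596) (C.miq (nat_lit 2451223920) (nat_lit 1254935855434681954314946785)) (C.cons (nat_lit 2084) (C.node (nat_lit 1) (nat_lit 2) (nat_lit 11) (C.cons (nat_lit 2566) (C.node (nat_lit 5) (nat_lit 9) (nat_lit 11) (C.cons (nat_lit 2600) (C.miq (nat_lit 2073338704) (nat_lit 3114214513367577960167572521)) C.nil)) (C.cons (nat_lit 2054) (C.node (nat_lit 1) (nat_lit 9) (nat_lit 11) C.nil) C.nil))) C.nil)))) C.nil))) (C.cons (nat_lit 134) (C.node (nat_lit 1) (nat_lit 3) (nat_lit 7) (C.cons (nat_lit 202) (C.miq (nat_lit 2316503911) (nat_lit 1254872251411564914365040865))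 (C.cons (nat_lit 170) (C.miq (nat_lit 1645677109) (nat_lit 162037989585296458953393193)) (C.cons (nat_lit 138) (C.node (nat_lit 3) (nat_lit 6) (nat_lit 11) (C.cons (nat_lit 2376) (C.miq (nat_lit 1668397066) (nat_lit 166889649658508359345835777)) (C.cons (nat_lit 2632) (C.node (nat_lit 3) (nat_lit 9) (nat_lit 10) (C.cons (nat_lit 1560) (C.miq (nat_lit 1530464164) (nat_lit 3181903106488935739305755795)) (C.cons (nat_lit 1544) (C.node (nat_lit 2) (nat_lit 6) (nat_lit 11) (C.cons (nat_lit 2372) (C.miq (nat_lit 1662171400) (nat_lit 1254908757177772307389026049)) (C.cons (nat_lit 2116) (C.node (nat_lit 6) (nat_lit 8) (nat_lit 11) C.nil) C.nil))) C.nil))) (C.cons (nat_lit 2120) (C.node (nat_lit 3) (nat_lit 9) (nat_lit 11) (C.cons (nat_lit 2600) (C.miq (nat_lit 2073338704) (nat_lit 3114214513367577960167572521)) (C.cons (nat_lit 2568) (C.node (nat_lit 6) (nat_lit 9) (nat_lit 11) C.nil) C.nil))) C.nil)))) C.nil)))) C.nil)))) C.nil)) C.nil))) C.nil))) (C.cons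 (nat_lit 1034) (C.node (nat_lit 1) (nat_lit 8) (nat_lit 10) (C.cons (nat_lit 1314) (C.node (nat_lit 1) (nat_lit 2) (nat_lit 10) (C.cons (nat_lit 1542) (C.miq (nat_lit 2544967786) (nat_lit 2633068880181585125283333189)) (C.cons (nat_lit 1030) (C.node (nat_lit 1) (nat_lit 9) (nat_lit 10) (C.cons (nat_lit 1538) (C.node (nat_lit 2) (nat_lit 6) (nat_lit 11) (C.cons (nat_lit 2628) (C.miq (nat_lit 462923296) (nat_lit 3249614205144713299629507653)) (C.cons (nat_lit 2372) (C.node (nat_lit 4) (nat_lit 8) (nat_lit 10) (C.cons (nat_lit 1304) (C.miq (nat_lit 946578439) (nat_lit 2867631221647933679828272275)) (C.cons (nat_lit 1300) (C.miq (nat_lit 1219994208) (nat_lit 2940129194806016124305605701)) (C.cons (nat_lit 1296) (C.node (nat_lit 3) (nat_lit 6) (nat_lit 11) (C.cons (nat_lit 2632) (C.node (nat_lit 1) (nat_lit 8) (nat_lit 11) (C.cons (nat_lit 2322) (C.miq (nat_lit 1779966027) (nat_lit 1588572282958222753723975709)) (C.cons (nat_lit 2314) (C.miq (nat_lit 647007025)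 (nat_lit 697555050079002368563415306)) (C.cons (nat_lit 2306) (C.node (nat_lit 3) (nat_lit 8) (nat_lit 11) (C.cons (nat_lit 2344) (C.miq (nat_lit 1784160315) (nat_lit 1588572282958222298458884125)) C.nil)) C.nil)))) (C.cons (nat_lit 2120) (C.node (nat_lit 6) (nat_lit 9) (nat_lit 11) C.nil) C.nil))) C.nil)))) (C.cons (nat_lit 2116) (C.node (nat_lit 2) (nat_lit 8) (nat_lit 11) (C.cons (nat_lit 2340) (C.miq (nat_lit 1264190081) (nat_lit 3752527345805752849110532359)) (C.cons (nat_lit 2308) (C.node (nat_lit 6) (nat_lit 8) (nat_lit 11) C.nil) C.nil))) C.nil)))) C.nil)) C.nil))) (C.cons (nat_lit 1282) (C.node (nat_lit 2) (nat_lit 6) (nat_lit 11) (C.cons (nat_lit 2628) (C.miq (nat_lit 462923296) (nat_lit 3249614205144713299629507653)) (C.cons (nat_lit 2372) (C.node (nat_lit 3) (nat_lit 6) (nat_lit 11) (C.cons (nat_lit 2632) (C.node (nat_lit 3) (nat_lit 6) (nat_lit 7) (C.cons (nat_lit 216) (C.miq (nat_lit 2335574644) (nat_lit 3181898974859615991760422035))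 (C.cons (nat_lit 206) (C.miq (nat_lit 2316503911) (nat_lit 1250036548133106397666478305)) (C.cons (nat_lit 204)
  (C.miq (nat_lit 308480185) (nat_lit 246630514922573008445378305)) (C.cons (nat_lit 202) (C.miq (nat_lit 640781200) (nat_lit 244207867723516428048600833)) (C.cons (nat_lit 200) (C.node (nat_lit 2) (nat_lit 6) (nat_lit 7) (C.cons (nat_lit 212) (C.miq (nat_lit 2871461988) (nat_lit 2635479888978357487966355793)) (C.cons (nat_lit 198) (C.miq (nat_lit 824610955) (nat_lit 239415864261311122683203329)) (C.cons (nat_lit 196) (C.node (nat_lit 6) (nat_lit 7) (nat_lit 10) (C.cons (nat_lit 1472) (C.miq (nat_lit 1131809704) (nat_lit 241791381060315980039720705)) (C.cons (nat_lit 1728) (C.miq (nat_lit 1130826650) (nat_lit 241806765644870979921383169)) (C.cons (nat_lit 1216) (C.node (nat_lit 7) (nat_lit 9) (nat_lit 10) (C.cons (nat_lit 1696) (C.miq (nat_lit 2545179184) (nat_lit 2649975745696087840906871849)) (C.cons (nat_lit 1664) (C.node (nat_lit 1)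 (nat_lit 6) (nat_lit 7) (C.cons (nat_lit 962) (C.miq (nat_lit 1133579111) (nat_lit 632289805380396203301275873)) (C.cons (nat_lit 450) (C.miq (nat_lit 1115753319) (nat_lit 317969092280591501152618721)) (C.cons (nat_lit 706) (C.miq (nat_lit 1133579111) (nat_lit 632289805380396203284498657)) (C.cons (nat_lit 194) (C.node (nat_lit 6) (nat_lit 7) (nat_lit 8) (C.cons (nat_lit 960) (C.miq (nat_lit 409535155) (nat_lit 1160578434551232664523245597)) (C.cons (nat_lit 448) (C.node (nat_lit 4) (nat_lit 6) (nat_lit 7) (C.cons (nat_lit 720) (C.node (nat_lit 3) (nat_lit 4) (nat_lit 7) C.nil) C.nil)) C.nil))) C.nil))))) C.nil))) C.nil)))) C.nil)))) C.nil)))))) (C.cons (nat_lit 2120) (C.node (nat_lit 6) (nat_lit 9) (nat_lit 11) C.nil) C.nil))) (C.cons (nat_lit 2116) (C.node (nat_lit 6) (nat_lit 8) (nat_lit 11) (C.cons (nat_lit 2376) (C.miq (nat_lit 1805943664) (nat_lit 3733169148191526054607913353)) (C.cons (nat_lit 2368) (C.node (nat_lit 2) (nat_lit 8) (nat_lit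 11) C.nil) C.nil))) C.nil)))) C.nil))) C.nil)))) C.nil))) C.nil))) C.nil)) C.nil))) (C.cons (nat_lit 3136) (C.node (nat_lit 3) (nat_lit 9) (nat_lit 11) (C.cons (nat_lit 2632) (C.node (nat_lit 4) (nat_lit 6) (nat_lit 11) (C.cons (nat_lit 2130) (C.node (nat_lit 4) (nat_lit 9) (nat_lit 11) (C.cons (nat_lit 2576) (C.node (nat_lit 2) (nat_lit 6) (nat_lit 11) (C.cons (nat_lit 2372) (C.ref (nat_lit 301) (nat_lit 205099542782736)) (C.cons (nat_lit 2116) (C.node (nat_lit 6) (nat_lit 8) (nat_lit 11) (C.cons (nat_lit 2368) (C.node (nat_lit 2) (nat_lit 8) (nat_lit 11) (C.cons (nat_lit 2340) (C.node (nat_lit 4) (nat_lit 5) (nat_lit 11) (C.cons (nat_lit 2096) (C.node (nat_lit 4) (nat_lit 8) (nat_lit 11) C.nil) C.nil)) (C.cons (nat_lit 2308) (C.node (nat_lit 4) (nat_lit 5) (nat_lit 11) (C.cons (nat_lit 2352) (C.node (nat_lit 1) (nat_lit 8) (nat_lit 11) (C.cons (nat_lit 2314) (C.node (nat_lit 3) (nat_lit 5) (nat_lit 11) C.nil) C.nil)) C.nil)) C.nil))) C.nil)) C.nil)))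 C.nil)) (C.cons (nat_lit 2128) (C.node (nat_lit 4) (nat_lit 9) (nat_lit 11) (C.cons (nat_lit 2578) (C.node (nat_lit 2) (nat_lit 9) (nat_lit 11) (C.cons (nat_lit 2596) (C.node (nat_lit 2) (nat_lit 10) (nat_lit 11) (C.cons (nat_lit 3078) (C.miq (nat_lit 2275476402) (nat_lit 1415656986373055593497102365)) (C.cons (nat_lit 3076) (C.node (nat_lit 1) (nat_lit 7) (nat_lit 9) (C.cons (nat_lit 962) (C.miq (nat_lit 873925528) (nat_lit 1415659384923786330551488257)) (C.cons (nat_lit 930) (C.miq (nat_lit 873925528) (nat_lit 1415659384923786330549391105)) (C.cons (nat_lit 898) (C.miq (nat_lit 873925528) (nat_lit 1415659384923786330547293953)) (C.cons (nat_lit 706) (C.miq (nat_lit 957658736) (nat_lit 3116649077594800278157330657)) (C.cons (nat_lit 674) (C.miq (nat_lit 689223024) (nat_lit 3116649077584667041556793569)) (C.cons (nat_lit 642) (C.node (nat_lit 1) (nat_lit 2) (nat_lit 11) (C.cons (nat_lit 2118) (C.node (nat_lit 2) (nat_lit 8) (nat_lit 11) (C.cons (nat_lit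 2308) (C.node (nat_lit 6) (nat_lit 8) (nat_lit 11) (C.cons (nat_lit 2368) (C.node (nat_lit 1) (nat_lit 10) (nat_lit 11) C.nil) C.nil)) C.nil)) (C.cons (nat_lit 2054) (C.node (nat_lit 1) (nat_lit 6) (nat_lit 11) (C.cons (nat_lit 2370)
  (C.node (nat_lit 2) (nat_lit 6) (nat_lit 11) (C.cons (nat_lit 2116) (C.node (nat_lit 2) (nat_lit 8) (nat_lit 11) C.nil) C.nil)) (C.cons (nat_lit 2114) (C.node (nat_lit 1) (nat_lit 10) (nat_lit 11) (C.cons (nat_lit 3106) (C.node (nat_lit 1) (nat_lit 3) (nat_lit 11) C.nil) C.nil)) C.nil))) C.nil))) C.nil))))))) C.nil))) (C.cons (nat_lit 2564) (C.node (nat_lit 5) (nat_lit 9) (nat_lit 11) (C.cons (nat_lit 2592) (C.node (nat_lit 4) (nat_lit 5) (nat_lit 11) (C.cons (nat_lit 2352) (C.node (nat_lit 3) (nat_lit 8) (nat_lit 11) (C.cons (nat_lit 2314) (C.miq (nat_lit 2231612561) (nat_lit 1287548684317398189698910738)) (C.cons (nat_lit 2312) (C.node (nat_lit 1) (nat_lit 3) (nat_lit 11) (C.cons (nat_lit 2090) (C.node (nat_lit 1)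 (nat_lit 8) (nat_lit 11) C.nil) C.nil)) C.nil))) (C.cons (nat_lit 2096) (C.node (nat_lit 4) (nat_lit 8) (nat_lit 11) C.nil) C.nil))) C.nil)) C.nil))) (C.cons (nat_lit 2576) (C.node (nat_lit 3) (nat_lit 9) (nat_lit 10) (C.cons (nat_lit 1560) (C.miq (nat_lit 1530464164) (nat_lit 3181903106488935739305755795)) (C.cons (nat_lit 1548) (C.node (nat_lit 6) (nat_lit 7) (nat_lit 10) (C.cons (nat_lit 1728) (C.miq (nat_lit 1134168935) (nat_lit 1871438770485391107425306849)) (C.cons (nat_lit 1472) (C.miq (nat_lit 1790215984) (nat_lit 3733169147937072675720855945)) (C.cons (nat_lit 1216) (C.node (nat_lit 7) (nat_lit 9) (nat_lit 10) (C.cons (nat_lit 1696) (C.miq (nat_lit 1135151989) (nat_lit 1871427517971508618497886433)) (C.cons (nat_lit 1664) (C.node (nat_lit 3) (nat_lit 6) (nat_lit 7) (C.cons (nat_lit 216) (C.miq (nat_lit 1251176630) (nat_lit 1871421153589789578578364641)) (C.cons (nat_lit 206) (C.miq (nat_lit 2838563687) (nat_lit 632289805876918062169327841))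 (C.cons (nat_lit 204) (C.miq (nat_lit 2741736048) (nat_lit 3181963611605415246484800133)) (C.cons (nat_lit 202) (C.miq (nat_lit 2838563687) (nat_lit 632289805876918062169065697)) (C.cons (nat_lit 200) (C.node (nat_lit 2) (nat_lit 3) (nat_lit 7) (C.cons (nat_lit 174) (C.miq (nat_lit 2322664242) (nat_lit 1415656987343581313005127709)) (C.cons (nat_lit 172) (C.miq (nat_lit 3124037927) (nat_lit 1287547928420011647039177349)) (C.cons (nat_lit 142) (C.miq (nat_lit 2322664242) (nat_lit 1415656987343581313003030557)) (C.cons (nat_lit 140) (C.node (nat_lit 1) (nat_lit 3) (nat_lit 7) (C.cons (nat_lit 170) (C.node (nat_lit 1) (nat_lit 2) (nat_lit 7) (C.cons (nat_lit 198) (C.miq (nat_lit 329413894) (nat_lit 1871420821266627877188995297)) (C.cons (nat_lit 134) (C.node (nat_lit 3) (nat_lit 5) (nat_lit 11) (C.cons (nat_lit 2344) (C.miq (nat_lit 2148907635) (nat_lit 42355643935771211267181704)) (C.cons (nat_lit 2088) (C.node (nat_lit 1) (nat_lit 10) (nat_lit 11)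 (C.cons (nat_lit 3110) (C.miq (nat_lit 2275476402) (nat_lit 1415656986373055593499199517)) (C.cons (nat_lit 3106) (C.miq (nat_lit 2337475095) (nat_lit 2524244362006925410365473939)) (C.cons (nat_lit 3078) (C.miq (nat_lit 2275476402) (nat_lit 1415656986373055593497102365)) (C.cons (nat_lit 3074) (C.node (nat_lit 1) (nat_lit 2) (nat_lit 3) (C.cons (nat_lit 78) (C.node (nat_lit 1) (nat_lit 3) (nat_lit 10) (C.cons (nat_lit 1290) (C.miq (nat_lit 2203820400) (nat_lit 2524307965662436285424403603)) (C.cons (nat_lit 1034) (C.node (nat_lit 1) (nat_lit 3) (nat_lit 11) (C.cons (nat_lit 2314) (C.miq (nat_lit 2872444946) (nat_lit 3181912920598131876471636231)) (C.cons (nat_lit 2058) (C.node (nat_lit 3) (nat_lit 8) (nat_lit 11) C.nil) C.nil))) C.nil))) (C.cons (nat_lit 14) (C.node (nat_lit 1) (nat_lit 2) (nat_lit 10) (C.cons (nat_lit 1062) (C.node (nat_lit 2) (nat_lit 10) (nat_lit 11) (C.cons (nat_lit 3076) (C.node (nat_lit 5) (nat_lit 10) (nat_lit 11) C.nil) C.nil))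 (C.cons (nat_lit 1030) (C.node (nat_lit 1) (nat_lit 3) (nat_lit 11) (C.cons (nat_lit 2314) (C.node (nat_lit 6) (nat_lit 8) (nat_lit 11) (C.cons (nat_lit 2372) (C.miq (nat_lit 1645459465) (nat_lit 16973513972666586354093825)) C.nil)) (C.cons (nat_lit 2058) (C.node (nat_lit 3) (nat_lit 8) (nat_lit 11) C.nil) C.nil))) C.nil))) C.nil))) C.nil))))) C.nil))) C.nil)))
  (C.cons (nat_lit 138) (C.node (nat_lit 3) (nat_lit 5) (nat_lit 7) (C.cons (nat_lit 680) (C.miq (nat_lit 1698301842) (nat_lit 1287526160820648178344526469)) (C.cons (nat_lit 184) (C.miq (nat_lit 1235439799) (nat_lit 1871420563122279484116961505)) (C.cons (nat_lit 168) (C.node (nat_lit 3) (nat_lit 4) (nat_lit 7) (C.cons (nat_lit 664) (C.node (nat_lit 3) (nat_lit 4) (nat_lit 10) (C.cons (nat_lit 1304) (C.miq (nat_lit 1731464104) (nat_lit 802732961416673012527664897)) (C.cons (nat_lit 1112) (C.miq (nat_lit 1670554736) (nat_lit 1871437331367721552987882643)) (C.cons (nat_lit 1048) (C.node (nat_lit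 3) (nat_lit 5) (nat_lit 9) (C.cons (nat_lit 808) (C.node (nat_lit 3) (nat_lit 4) (nat_lit 8) (C.cons (nat_lit 282) (C.miq (nat_lit 691537729) (nat_lit 976816913923865970629805203)) (C.cons (nat_lit 280) (C.node (nat_lit 1) (nat_lit 9) (nat_lit 10) (C.cons (nat_lit 1634) (C.miq (nat_lit 355969408) (nat_lit 203121139292501597540126465)) (C.cons (nat_lit 1602) (C.miq (nat_lit 1265238929) (nat_lit 3791212972033422236850455051)) (C.cons (nat_lit 1570) (C.miq (nat_lit 355969408) (nat_lit 203121139274487199030644481)) (C.cons (nat_lit 1538) (C.node (nat_lit 5) (nat_lit 9) (nat_lit 10) (C.cons (nat_lit 1632) (C.miq (nat_lit 1497066016) (nat_lit 3181934687134357340374762565)) (C.cons (nat_lit 1568) (C.node (nat_lit 4) (nat_lit 7) (nat_lit 8) (C.cons (nat_lit 436) (C.miq (nat_lit 323488114) (nat_lit 338504081133001819236336261)) (C.cons (nat_lit 432) (C.miq (nat_lit 341378947) (nat_lit 678217032780566570312663433)) (C.cons (nat_lit 404) (C.miq (nat_lit 323488114)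 (nat_lit 338504081133001819234239109)) (C.cons (nat_lit 400) (C.node (nat_lit 4) (nat_lit 5) (nat_lit 7) (C.cons (nat_lit 180) (C.node (nat_lit 4) (nat_lit 6) (nat_lit 7) C.nil) C.nil)) C.nil))))) C.nil))) C.nil))))) C.nil))) (C.cons (nat_lit 552) (C.node (nat_lit 3) (nat_lit 8) (nat_lit 9) (C.cons (nat_lit 776) (C.node (nat_lit 4) (nat_lit 6) (nat_lit 7) (C.cons (nat_lit 212) (C.node (nat_lit 1) (nat_lit 2) (nat_lit 7) (C.cons (nat_lit 134) (C.node (nat_lit 4) (nat_lit 5) (nat_lit 7) C.nil) C.nil)) (C.cons (nat_lit 208) (C.node (nat_lit 6) (nat_lit 7) (nat_lit 9) (C.cons (nat_lit 962) (C.miq (nat_lit 1133579111) (nat_lit 632289805380396203301275873)) (C.cons (nat_lit 960) (C.node (nat_lit 1) (nat_lit 6) (nat_lit 7) C.nil) (C.cons (nat_lit 706) (C.miq (nat_lit 1133579111) (nat_lit 632289805380396203284498657)) C.nil)))) C.nil))) C.nil)) C.nil))) C.nil)))) (C.cons (nat_lit 152) (C.node (nat_lit 3) (nat_lit 7) (nat_lit 9) (C.cons (nat_lit 648) (C.node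 (nat_lit 1) (nat_lit 2) (nat_lit 7) (C.cons (nat_lit 134) (C.node (nat_lit 2) (nat_lit 6) (nat_lit 7) C.nil) C.nil)) C.nil)) C.nil))) C.nil)))) C.nil))) C.nil))))) C.nil)))))) C.nil))) C.nil)))) (C.cons (nat_lit 1544) (C.node (nat_lit 6) (nat_lit 7) (nat_lit 10) (C.cons (nat_lit 1728) (C.miq (nat_lit 1134168935) (nat_lit 1866603067206932590726482145)) (C.cons (nat_lit 1472) (C.miq (nat_lit 1790215984) (nat_lit 3733169147937072675720855945)) (C.cons (nat_lit 1216) (C.node (nat_lit 7) (nat_lit 9) (nat_lit 10) (C.cons (nat_lit 1696) (C.miq (nat_lit 1135151989) (nat_lit 1866591814693050101799061729)) (C.cons (nat_lit 1664) (C.node (nat_lit 3) (nat_lit 4) (nat_lit 10) (C.cons (nat_lit 1304) (C.miq (nat_lit 2256158899) (nat_lit 1470077851300528023520413725)) (C.cons (nat_lit 1112) (C.node (nat_lit 3) (nat_lit 4) (nat_lit 7) (C.cons (nat_lit 664) (C.miq (nat_lit 641272391) (nat_lit 3181904655683288456079344787)) (C.cons (nat_lit 184) (C.miq (nat_lit 2587102069)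 (nat_lit 1344335861116052157144500449)) (C.cons (nat_lit 152) (C.node (nat_lit 3) (nat_lit 4) (nat_lit 9) (C.cons (nat_lit 792) (C.node (nat_lit 3) (nat_lit 7) (nat_lit 9) (C.cons (nat_lit 680) (C.miq (nat_lit 1687488567) (nat_lit 678249314347946977631142281)) (C.cons (nat_lit 648) (C.node (nat_lit 1) (nat_lit 3) (nat_lit 4) (C.cons (nat_lit 58) (C.node (nat_lit 1) (nat_lit 3) (nat_lit 11) (C.cons (nat_lit 2314) (C.miq (nat_lit 2958133571) (nat_lit 42355090533446380043240216))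
  (C.cons (nat_lit 2058) (C.node (nat_lit 4) (nat_lit 5) (nat_lit 11) (C.cons (nat_lit 2352) (C.miq (nat_lit 280312196) (nat_lit 2747889458042436299204330264)) (C.cons (nat_lit 2096) (C.node (nat_lit 1) (nat_lit 3) (nat_lit 10) (C.cons (nat_lit 1290) (C.miq (nat_lit 1501773985) (nat_lit 957470319203866540509889683)) (C.cons (nat_lit 1038) (C.miq (nat_lit 2217805474) (nat_lit 70122549126201720968184901)) (C.cons (nat_lit 1034) (C.node (nat_lit 1) (nat_lit 3) (nat_lit 7) (C.cons (nat_lit 206) (C.miq (nat_lit 2468001392) (nat_lit 1250100152166356708576397537)) (C.cons (nat_lit 202) (C.miq (nat_lit 2468001392) (nat_lit 1250100152166356691396528353)) (C.cons (nat_lit 142) (C.miq (nat_lit 2322664242) (nat_lit 1415656987343581313003030557)) (C.cons (nat_lit 138) (C.node (nat_lit 2) (nat_lit 3) (nat_lit 9) (C.cons (nat_lit 556) (C.miq (nat_lit 588748096) (nat_lit 166843661413246705006215729)) (C.cons (nat_lit 524) (C.node (nat_lit 3) (nat_lit 5) (nat_lit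 9) (C.cons (nat_lit 552) (C.node (nat_lit 1) (nat_lit 2) (nat_lit 3) C.nil) C.nil)) C.nil))) C.nil))))) C.nil)))) C.nil))) C.nil))) (C.cons (nat_lit 26) (C.node (nat_lit 3) (nat_lit 4) (nat_lit 5) (C.cons (nat_lit 56) (C.node (nat_lit 2) (nat_lit 3) (nat_lit 9) (C.cons (nat_lit 556) (C.node (nat_lit 5) (nat_lit 7) (nat_lit 9) (C.cons (nat_lit 930) (C.miq (nat_lit 355760416) (nat_lit 67721447297503664147333765)) (C.cons (nat_lit 928) (C.miq (nat_lit 1498118192) (nat_lit 3114234841037776475991638409)) (C.cons (nat_lit 674) (C.miq (nat_lit 355760416) (nat_lit 67721447225446070109405829)) (C.cons (nat_lit 672) (C.node (nat_lit 2) (nat_lit 8) (nat_lit 9) (C.cons (nat_lit 836) (C.node (nat_lit 4) (nat_lit 7) (nat_lit 9) (C.cons (nat_lit 720) (C.miq (nat_lit 342362002) (nat_lit 407412853033431707647476357)) (C.cons (nat_lit 656) (C.node (nat_lit 4) (nat_lit 6) (nat_lit 7) (C.cons (nat_lit 212) (C.miq (nat_lit 2253034096) (nat_lit 1344396365590768751800943237))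 (C.cons (nat_lit 208) (C.node (nat_lit 6) (nat_lit 7) (nat_lit 9) (C.cons (nat_lit 706) (C.miq (nat_lit 1133579111) (nat_lit 632289805380396203284498657)) C.nil)) C.nil))) C.nil))) (C.cons (nat_lit 772) (C.node (nat_lit 2) (nat_lit 9) (nat_lit 11) (C.cons (nat_lit 2566) (C.node (nat_lit 5) (nat_lit 9) (nat_lit 11) (C.cons (nat_lit 2592) (C.node (nat_lit 1) (nat_lit 4) (nat_lit 9) (C.cons (nat_lit 594) (C.miq (nat_lit 1906025571) (nat_lit 3102162830615736671648875608)) C.nil)) C.nil)) (C.cons (nat_lit 2564) (C.node (nat_lit 1) (nat_lit 9) (nat_lit 11) (C.cons (nat_lit 2594) (C.node (nat_lit 5) (nat_lit 8) (nat_lit 9) (C.cons (nat_lit 864) (C.miq (nat_lit 2209780741) (nat_lit 3181908695435520775230128689)) C.nil)) C.nil)) C.nil))) C.nil))) C.nil))))) (C.cons (nat_lit 524) (C.node (nat_lit 3) (nat_lit 5) (nat_lit 9) (C.cons (nat_lit 552) (C.node (nat_lit 4) (nat_lit 7) (nat_lit 9) (C.cons (nat_lit 720) (C.node (nat_lit 1) (nat_lit 4) (nat_lit 9) (C.cons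 (nat_lit 534) (C.node (nat_lit 4) (nat_lit 9) (nat_lit 10) (C.cons (nat_lit 1552) (C.node (nat_lit 1) (nat_lit 4) (nat_lit 6) (C.cons (nat_lit 114) (C.miq (nat_lit 542218084) (nat_lit 42322254429408504461787856)) (C.cons (nat_lit 82) (C.node (nat_lit 2) (nat_lit 4) (nat_lit 6) (C.cons (nat_lit 116) (C.node (nat_lit 2) (nat_lit 4) (nat_lit 7) (C.cons (nat_lit 404) (C.miq (nat_lit 2190701584) (nat_lit 633484379162204839537738899)) C.nil)) C.nil)) C.nil))) C.nil)) (C.cons (nat_lit 530) (C.node (nat_lit 2) (nat_lit 4) (nat_lit 9) (C.cons (nat_lit 1556) (C.node (nat_lit 6) (nat_lit 9) (nat_lit 10) (C.cons (nat_lit 1634) (C.miq (nat_lit 339124409) (nat_lit 1344355653720900202228354817)) (C.cons (nat_lit 1632) (C.miq (nat_lit 1498114592) (nat_lit 3114234841235938140950955077)) (C.cons (nat_lit 1602) (C.miq (nat_lit 339124409) (nat_lit 1344355063425089843522703105)) (C.cons (nat_lit 1600) (C.node (nat_lit 1) (nat_lit 3) (nat_lit 10) C.nil) C.nil))))) (C.cons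 (nat_lit 532) (C.node (nat_lit 4) (nat_lit 9) (nat_lit 10) (C.cons (nat_lit 1552)
  (C.node (nat_lit 1) (nat_lit 3) (nat_lit 10) C.nil) C.nil)) C.nil))) C.nil))) (C.cons (nat_lit 656) (C.node (nat_lit 6) (nat_lit 7) (nat_lit 9) (C.cons (nat_lit 962) (C.miq (nat_lit 1133579111) (nat_lit 632289805380396203301275873)) (C.cons (nat_lit 960) (C.miq (nat_lit 1766553648) (nat_lit 3114234841046783675246379401)) (C.cons (nat_lit 706) (C.miq (nat_lit 1133579111) (nat_lit 632289805380396203284498657)) (C.cons (nat_lit 704) (C.node (nat_lit 3) (nat_lit 6) (nat_lit 7) (C.cons (nat_lit 204) (C.node (nat_lit 4) (nat_lit 6) (nat_lit 7) C.nil) (C.cons (nat_lit 202) (C.miq (nat_lit 2838563687) (nat_lit 632289805876918062169065697)) C.nil))) C.nil))))) C.nil))) C.nil)) C.nil))) C.nil)) C.nil))) C.nil))) (C.cons (nat_lit 536) (C.node (nat_lit 3) (nat_lit 7) (nat_lit 9) (C.cons (nat_lit 680) (C.node (nat_lit 1) (nat_lit 3) (nat_lit 7) (C.cons (nat_lit 206) (C.miq (nat_lit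 2838563687) (nat_lit 632289805876918062169327841)) (C.cons (nat_lit 202) (C.miq (nat_lit 2838563687) (nat_lit 632289805876918062169065697)) (C.cons (nat_lit 142) (C.miq (nat_lit 2322664242) (nat_lit 1415656987343581313003030557)) (C.cons (nat_lit 138) (C.node (nat_lit 2) (nat_lit 3) (nat_lit 7) (C.cons (nat_lit 204) (C.node (nat_lit 2) (nat_lit 3) (nat_lit 9) (C.cons (nat_lit 780) (C.miq (nat_lit 2204865136) (nat_lit 3181963611389242464371016325)) (C.cons (nat_lit 524) (C.node (nat_lit 3) (nat_lit 8) (nat_lit 9) (C.cons (nat_lit 776) (C.node (nat_lit 2) (nat_lit 3) (nat_lit 10) (C.cons (nat_lit 1292) (C.miq (nat_lit 3123054647) (nat_lit 1321397851369220164421419401)) (C.cons (nat_lit 1038) (C.miq (nat_lit 2251424929) (nat_lit 246625718789937580475286675)) (C.cons (nat_lit 1036) (C.node (nat_lit 1) (nat_lit 2) (nat_lit 3) (C.cons (nat_lit 46) (C.node (nat_lit 1) (nat_lit 2) (nat_lit 7) C.nil) (C.cons (nat_lit 14) (C.node (nat_lit 1) (nat_lit 2) (nat_lit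 7) (C.cons (nat_lit 166) (C.node (nat_lit 2) (nat_lit 4) (nat_lit 7) (C.cons (nat_lit 404) (C.node (nat_lit 2) (nat_lit 7) (nat_lit 10) C.nil) C.nil)) (C.cons (nat_lit 134) (C.node (nat_lit 1) (nat_lit 3) (nat_lit 10) C.nil) C.nil))) C.nil))) C.nil)))) C.nil)) C.nil))) (C.cons (nat_lit 140) (C.node (nat_lit 3) (nat_lit 6) (nat_lit 7) (C.cons (nat_lit 200) (C.node (nat_lit 2) (nat_lit 3) (nat_lit 9) (C.cons (nat_lit 780) (C.node (nat_lit 2) (nat_lit 3) (nat_lit 10) (C.cons (nat_lit 1038) (C.miq (nat_lit 1663584784) (nat_lit 942968356165168228685251731)) (C.cons (nat_lit 1036) (C.node (nat_lit 1) (nat_lit 3) (nat_lit 10) (C.cons (nat_lit 1290) (C.miq (nat_lit 321366160) (nat_lit 169271216246464468417318657)) (C.cons (nat_lit 1034) (C.node (nat_lit 3) (nat_lit 8) (nat_lit 10) (C.cons (nat_lit 1288) (C.node (nat_lit 1) (nat_lit 2) (nat_lit 7) C.nil) C.nil)) C.nil))) C.nil))) (C.cons (nat_lit 524) (C.node (nat_lit 3) (nat_lit 8) (nat_lit 9) (C.cons (nat_lit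 776) (C.node (nat_lit 4) (nat_lit 9) (nat_lit 10) (C.cons (nat_lit 1556) (C.node (nat_lit 6) (nat_lit 9) (nat_lit 10) (C.cons (nat_lit 1634) (C.miq (nat_lit 339124409) (nat_lit 1344355653720900202228354817)) (C.cons (nat_lit 1632) (C.miq (nat_lit 1498114592) (nat_lit 3114234841235938140950955077)) (C.cons (nat_lit 1602) (C.miq (nat_lit 339124409) (nat_lit 1344355063425089843522703105)) (C.cons (nat_lit 1600) (C.node (nat_lit 4) (nat_lit 7) (nat_lit 9) C.nil) C.nil))))) (C.cons (nat_lit 1552) (C.node (nat_lit 1) (nat_lit 7) (nat_lit 9) (C.cons (nat_lit 962) (C.miq (nat_lit 1133579111) (nat_lit 632289805380396203301275873)) (C.cons (nat_lit 898) (C.node (nat_lit 4) (nat_lit 7) (nat_lit 9) C.nil) (C.cons (nat_lit 706) (C.miq (nat_lit 1133579111) (nat_lit 632289805380396203284498657)) C.nil)))) C.nil))) C.nil)) C.nil))) C.nil)) C.nil))) C.nil))))) (C.cons (nat_lit 648) (C.node (nat_lit 4) (nat_lit 9) (nat_lit 10) (C.cons (nat_lit 1556) (C.node (nat_lit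 6) (nat_lit 9) (nat_lit 10) (C.cons (nat_lit 1634) (C.miq (nat_lit 339124409) (nat_lit 1344355653720900202228354817)) (C.cons (nat_lit 1632) (C.miq (nat_lit 1498114592) (nat_lit 3114234841235938140950955077))
  (C.cons (nat_lit 1602) (C.miq (nat_lit 339124409) (nat_lit 1344355063425089843522703105)) (C.cons (nat_lit 1600) (C.node (nat_lit 1) (nat_lit 9) (nat_lit 10) (C.cons (nat_lit 1570) (C.node (nat_lit 1) (nat_lit 10) (nat_lit 11) (C.cons (nat_lit 3078) (C.miq (nat_lit 2275476402) (nat_lit 1415656986373055593497102365)) (C.cons (nat_lit 3074) (C.node (nat_lit 1) (nat_lit 2) (nat_lit 10) (C.cons (nat_lit 1038) (C.miq (nat_lit 306815749) (nat_lit 1881117537000738666348348457)) (C.cons (nat_lit 1030) (C.node (nat_lit 1) (nat_lit 6) (nat_lit 10) (C.cons (nat_lit 1346) (C.miq (nat_lit 840581254) (nat_lit 1245214107567102671261401425)) (C.cons (nat_lit 1090) (C.node (nat_lit 2) (nat_lit 10) (nat_lit 11) (C.cons (nat_lit 3108) (C.node (nat_lit 2) (nat_lit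 3) (nat_lit 10) (C.cons (nat_lit 1292) (C.miq (nat_lit 2276601946) (nat_lit 2635482120063864262111790121)) C.nil)) C.nil)) C.nil))) C.nil))) C.nil))) (C.cons (nat_lit 1538) (C.node (nat_lit 5) (nat_lit 9) (nat_lit 10) (C.cons (nat_lit 1568) (C.node (nat_lit 4) (nat_lit 5) (nat_lit 10) (C.cons (nat_lit 1328) (C.node (nat_lit 4) (nat_lit 5) (nat_lit 7) (C.cons (nat_lit 180) (C.miq (nat_lit 3125086503) (nat_lit 1605495418978659154347164293)) (C.cons (nat_lit 176) (C.node (nat_lit 7) (nat_lit 8) (nat_lit 10) (C.cons (nat_lit 1412) (C.miq (nat_lit 2231870610) (nat_lit 2747914435160485370584696340)) (C.cons (nat_lit 1408) (C.node (nat_lit 2) (nat_lit 7) (nat_lit 10) (C.cons (nat_lit 1188) (C.node (nat_lit 3) (nat_lit 5) (nat_lit 7) C.nil) C.nil)) C.nil))) C.nil))) (C.cons (nat_lit 1072) (C.node (nat_lit 4) (nat_lit 8) (nat_lit 10) (C.cons (nat_lit 1296) (C.node (nat_lit 1) (nat_lit 3) (nat_lit 10) (C.cons (nat_lit 1034) (C.node (nat_lit 1) (nat_lit 4) (nat_lit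 9) C.nil) C.nil)) C.nil)) C.nil))) C.nil)) C.nil))) C.nil))))) (C.cons (nat_lit 1552) (C.node (nat_lit 1) (nat_lit 10) (nat_lit 11) (C.cons (nat_lit 3110) (C.miq (nat_lit 2275476402) (nat_lit 1415656986373055593499199517)) (C.cons (nat_lit 3106) (C.node (nat_lit 2) (nat_lit 10) (nat_lit 11) (C.cons (nat_lit 3076) (C.node (nat_lit 3) (nat_lit 5) (nat_lit 11) (C.cons (nat_lit 2344) (C.miq (nat_lit 461874480) (nat_lit 2940129195314359811862758441)) (C.cons (nat_lit 2088) (C.node (nat_lit 1) (nat_lit 3) (nat_lit 11) (C.cons (nat_lit 2314) (C.node (nat_lit 1) (nat_lit 4) (nat_lit 11) C.nil) C.nil)) C.nil))) C.nil)) (C.cons (nat_lit 3078) (C.miq (nat_lit 2275476402) (nat_lit 1415656986373055593497102365)) (C.cons (nat_lit 3074) (C.node (nat_lit 2) (nat_lit 10) (nat_lit 11) (C.cons (nat_lit 3108) (C.node (nat_lit 5) (nat_lit 7) (nat_lit 10) (C.cons (nat_lit 1440) (C.miq (nat_lit 629193331) (nat_lit 349417876630899338624175240)) (C.cons (nat_lit 1184) (C.node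 (nat_lit 2) (nat_lit 4) (nat_lit 10) (C.cons (nat_lit 1300) (C.node (nat_lit 2) (nat_lit 7) (nat_lit 10) (C.cons (nat_lit 1156) (C.node (nat_lit 4) (nat_lit 5) (nat_lit 10) C.nil) C.nil)) (C.cons (nat_lit 1044) (C.node (nat_lit 2) (nat_lit 7) (nat_lit 10) (C.cons (nat_lit 1412) (C.node (nat_lit 2) (nat_lit 9) (nat_lit 10) (C.cons (nat_lit 1542) (C.miq (nat_lit 2056487440) (nat_lit 1866588715452857703589413127)) C.nil)) (C.cons (nat_lit 1156) (C.node (nat_lit 7) (nat_lit 8) (nat_lit 10) C.nil) C.nil))) C.nil))) C.nil))) (C.cons (nat_lit 3076) (C.node (nat_lit 5) (nat_lit 10) (nat_lit 11) (C.cons (nat_lit 3104) (C.node (nat_lit 1) (nat_lit 6) (nat_lit 11) C.nil) C.nil)) C.nil))) C.nil))))) C.nil))) C.nil))) C.nil))) C.nil)))) (C.cons (nat_lit 1048) (C.node (nat_lit 1) (nat_lit 10) (nat_lit 11) (C.cons (nat_lit 3110) (C.miq (nat_lit 2275476402) (nat_lit 1415656986373055593499199517)) (C.cons (nat_lit 3106) (C.node (nat_lit 2) (nat_lit 10) (nat_lit 11)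 (C.cons (nat_lit 3076) (C.node (nat_lit 3) (nat_lit 5) (nat_lit 11) (C.cons (nat_lit 2344) (C.miq (nat_lit 461874480) (nat_lit 2940129195314359811862758441)) (C.cons (nat_lit 2088) (C.node (nat_lit 1) (nat_lit 3) (nat_lit 11) (C.cons (nat_lit 2314) (C.node (nat_lit 1) (nat_lit 4) (nat_lit 11) C.nil) C.nil)) C.nil))) C.nil))
  (C.cons (nat_lit 3078) (C.miq (nat_lit 2275476402) (nat_lit 1415656986373055593497102365)) (C.cons (nat_lit 3074) (C.node (nat_lit 2) (nat_lit 10) (nat_lit 11) (C.cons (nat_lit 3108) (C.node (nat_lit 5) (nat_lit 7) (nat_lit 10) (C.cons (nat_lit 1440) (C.miq (nat_lit 629193331) (nat_lit 349417876630899338624175240)) (C.cons (nat_lit 1184) (C.node (nat_lit 2) (nat_lit 7) (nat_lit 10) (C.cons (nat_lit 1412) (C.node (nat_lit 2) (nat_lit 3) (nat_lit 10) (C.cons (nat_lit 1038) (C.node (nat_lit 2) (nat_lit 8) (nat_lit 11) (C.cons (nat_lit 2372) (C.miq (nat_lit 1645459465) (nat_lit 1254913553258046861253218049)) (C.cons (nat_lit 2308)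 (C.node (nat_lit 2) (nat_lit 6) (nat_lit 11) (C.cons (nat_lit 2118) (C.miq (nat_lit 1613870498) (nat_lit 632307274502196371473173540)) C.nil)) C.nil))) (C.cons (nat_lit 1036) (C.node (nat_lit 1) (nat_lit 2) (nat_lit 10) (C.cons (nat_lit 1542) (C.miq (nat_lit 2056487440) (nat_lit 1866588715452857703589413127)) (C.cons (nat_lit 1030) (C.node (nat_lit 2) (nat_lit 4) (nat_lit 10) C.nil) C.nil))) C.nil))) (C.cons (nat_lit 1156) (C.node (nat_lit 7) (nat_lit 8) (nat_lit 10) (C.cons (nat_lit 1408) (C.node (nat_lit 2) (nat_lit 8) (nat_lit 11) (C.cons (nat_lit 2372) (C.node (nat_lit 1) (nat_lit 6) (nat_lit 11) (C.cons (nat_lit 2114) (C.node (nat_lit 1) (nat_lit 2) (nat_lit 11) (C.cons (nat_lit 2566) (C.miq (nat_lit 914397985) (nat_lit 407417649598132908353587718)) C.nil)) C.nil)) (C.cons (nat_lit 2308) (C.node (nat_lit 2) (nat_lit 6) (nat_lit 11) (C.cons (nat_lit 2118) (C.node (nat_lit 2) (nat_lit 9) (nat_lit 11) C.nil) C.nil)) C.nil))) C.nil)) C.nil))) C.nil)))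 (C.cons (nat_lit 3076) (C.node (nat_lit 5) (nat_lit 10) (nat_lit 11) (C.cons (nat_lit 3104) (C.node (nat_lit 1) (nat_lit 6) (nat_lit 11) C.nil) C.nil)) C.nil))) C.nil))))) C.nil)))) C.nil))) C.nil)))) C.nil)))) C.nil))) C.nil))) (C.cons (nat_lit 2600) (C.miq (nat_lit 1203309109) (nat_lit 3249602952077169548822316073)) (C.cons (nat_lit 2568) (C.ref (nat_lit 308) (nat_lit 205163983024656)) C.nil)))) C.nil))) List.nil)

theorem ok12_309 : okL par12 (nat_lit 310) c12_309 (nat_lit 309) = true := by decide +kernel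

noncomputable def c12_310 : List C :=
  (List.cons (C.node (nat_lit 3) (nat_lit 7) (nat_lit 11) (C.cons (nat_lit 2184) (C.node (nat_lit 4) (nat_lit 9) (nat_lit 11) (C.cons (nat_lit 2640) (C.node (nat_lit 3) (nat_lit 9) (nat_lit 11) (C.cons (nat_lit 2600) (C.miq (nat_lit 2710767541) (nat_lit 632287849770508310404401377)) (C.cons (nat_lit 2568) (C.node (nat_lit 2) (nat_lit 9) (nat_lit 11) (C.cons (nat_lit 2596) (C.node (nat_lit 2) (nat_lit 8) (nat_lit 11) (C.cons (nat_lit 2372) (C.miq (nat_lit 1384160100) (nat_lit 317957839912792051231558224)) (C.cons (nat_lit 2308) (C.node (nat_lit 5) (nat_lit 10) (nat_lit 11) (C.cons (nat_lit 3106) (C.miq (nat_lit 1376434545) (nat_lit 1321413217156594439692683906)) (C.cons (nat_lit 3104) (C.node (nat_lit 1) (nat_lit 4) (nat_lit 9) (C.cons (nat_lit 786) (C.miq (nat_lit 1729366936) (nat_lit 1415658351961287779276689153)) (C.cons (nat_lit 534) (C.miq (nat_lit 1494725184) (nat_lit 3252052384943343354900580381)) (C.cons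 (nat_lit 530) (C.node (nat_lit 2) (nat_lit 4) (nat_lit 9) (C.cons (nat_lit 1556) (C.miq (nat_lit 2813476953) (nat_lit 2635486990223287253280752177)) (C.cons (nat_lit 788) (C.miq (nat_lit 1797784980) (nat_lit 2790207008863120747190813233)) (C.cons (nat_lit 532) (C.node (nat_lit 2) (nat_lit 6) (nat_lit 11) (C.cons (nat_lit 2118) (C.node (nat_lit 2) (nat_lit 10) (nat_lit 11) (C.cons (nat_lit 3076) (C.node (nat_lit 1) (nat_lit 2) (nat_lit 4) (C.cons (nat_lit 54) (C.miq (nat_lit 2871069012) (nat_lit 2560526488162251441196892721)) (C.cons (nat_lit 22) (C.node (nat_lit 1) (nat_lit 2) (nat_lit 9) (C.cons (nat_lit 1542) (C.miq (nat_lit 1898363296) (nat_lit 2560546816150238444101373697)) (C.cons (nat_lit 518) (C.node (nat_lit 1) (nat_lit 10) (nat_lit 11) (C.cons (nat_lit 3082) (C.node (nat_lit 6) (nat_lit 10) (nat_lit 11) (C.cons (nat_lit 3136) (C.node (nat_lit 3) (nat_lit 6) (nat_lit 11) C.nil) C.nil)) (C.cons (nat_lit 3074) (C.node (nat_lit 3) (nat_lit 10)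 (nat_lit 11) (C.cons (nat_lit 3144) (C.node (nat_lit 6) (nat_lit 8) (nat_lit 11) C.nil) C.nil)) C.nil))) C.nil))) C.nil))) C.nil)) (C.cons (nat_lit 2116) (C.node (nat_lit 1) (nat_lit 2) (nat_lit 11) (C.cons (nat_lit 3078) (C.node (nat_lit 1) (nat_lit 4) (nat_lit 11) (C.cons (nat_lit 2322) (C.miq (nat_lit 1656228372) (nat_lit 2790207008530982344947008659)) (C.cons (nat_lit 2098) (C.miq (nat_lit 625064202) (nat_lit 2536383149360462335627693825)) (C.cons (nat_lit 2066) (C.node (nat_lit 3) (nat_lit 10) (nat_lit 11) (C.cons (nat_lit 3144) (C.node (nat_lit 1) (nat_lit 6) (nat_lit 11) C.nil) C.nil)) C.nil)))) (C.cons (nat_lit 2054) (C.node (nat_lit 2) (nat_lit 10) (nat_lit 11) C.nil) C.nil))) C.nil))) C.nil)))) C.nil)))) C.nil))) C.nil))) (C.cons (nat_lit 2564) (C.node (nat_lit 5) (nat_lit 9) (nat_lit 11) (C.cons (nat_lit 2592) (C.ref (nat_lit 296) (nat_lit 205099542782736)) C.nil)) C.nil))) C.nil))) (C.cons (nat_lit 2576) (C.node (nat_lit 4) (nat_lit 6)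 (nat_lit 11) (C.cons (nat_lit 2130) (C.node (nat_lit 1) (nat_lit 4) (nat_lit 9) (C.cons (nat_lit 786) (C.miq (nat_lit 1900460416) (nat_lit 2575053925985610747153026817)) (C.cons (nat_lit 534) (C.miq (nat_lit 1637332000) (nat_lit 3252052384812176015718942749)) (C.cons (nat_lit 530) (C.node (nat_lit 1) (nat_lit 2) (nat_lit 4) (C.cons (nat_lit 54) (C.node (nat_lit 1) (nat_lit 3) (nat_lit 4) (C.cons (nat_lit 282) (C.miq (nat_lit 834110560) (nat_lit 3252017704413158539675107665)) (C.cons (nat_lit 26) (C.node (nat_lit 1) (nat_lit 4) (nat_lit 8) (C.cons (nat_lit 274) (C.node (nat_lit 1) (nat_lit 2) (nat_lit 11) (C.cons (nat_lit 3078) (C.node (nat_lit 5) (nat_lit 10) (nat_lit 11) (C.cons (nat_lit 3104) (C.node (nat_lit 2) (nat_lit 5) (nat_lit 11) (C.cons (nat_lit 2596) (C.node (nat_lit 2) (nat_lit 6) (nat_lit 11) (C.cons (nat_lit 2372) (C.miq (nat_lit 1683128475) (nat_lit 65325750030992291288846081)) (C.cons (nat_lit 2116) (C.node (nat_lit 2) (nat_lit 8)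 (nat_lit 11) (C.cons (nat_lit 2308) (C.node (nat_lit 6) (nat_lit 8) (nat_lit 11) (C.cons (nat_lit 2376) (C.miq (nat_lit 991397440) (nat_lit 3252017705002567140835000657))
  (C.cons (nat_lit 2368) (C.node (nat_lit 3) (nat_lit 9) (nat_lit 11) (C.cons (nat_lit 2632) (C.node (nat_lit 3) (nat_lit 10) (nat_lit 11) C.nil) C.nil)) C.nil))) C.nil)) C.nil))) (C.cons (nat_lit 2340) (C.miq (nat_lit 2602895892) (nat_lit 2828896767602816225329415315)) (C.cons (nat_lit 2084) (C.miq (nat_lit 2602895892) (nat_lit 2519411757781471156604634259)) C.nil)))) C.nil)) (C.cons (nat_lit 2054) (C.node (nat_lit 2) (nat_lit 9) (nat_lit 11) (C.cons (nat_lit 2628) (C.miq (nat_lit 1769058820) (nat_lit 3252049747067948490430810141)) (C.cons (nat_lit 2596) (C.miq (nat_lit 2871069012) (nat_lit 2483155235706915174015697457)) (C.cons (nat_lit 2564) (C.node (nat_lit 5) (nat_lit 9) (nat_lit 11) (C.cons (nat_lit 2600) (C.miq (nat_lit 2710767541) (nat_lit 632287849770508310404401377)) (C.cons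 (nat_lit 2592) (C.node (nat_lit 2) (nat_lit 6) (nat_lit 11) (C.cons (nat_lit 2372) (C.node (nat_lit 2) (nat_lit 5) (nat_lit 11) (C.cons (nat_lit 3108) (C.node (nat_lit 4) (nat_lit 5) (nat_lit 11) (C.cons (nat_lit 2352) (C.miq (nat_lit 1649674936) (nat_lit 65288211119608314010275585)) (C.cons (nat_lit 2096) (C.node (nat_lit 4) (nat_lit 8) (nat_lit 11) C.nil) C.nil))) (C.cons (nat_lit 2084) (C.node (nat_lit 2) (nat_lit 10) (nat_lit 11) C.nil) C.nil))) (C.cons (nat_lit 2116) (C.node (nat_lit 2) (nat_lit 8) (nat_lit 11) (C.cons (nat_lit 2340) (C.miq (nat_lit 1420501256) (nat_lit 3733206096366312050244256007)) (C.cons (nat_lit 2308) (C.node (nat_lit 2) (nat_lit 5) (nat_lit 11) C.nil) C.nil))) C.nil))) C.nil))) C.nil)))) C.nil))) C.nil)) C.nil))) (C.cons (nat_lit 22) (C.node (nat_lit 4) (nat_lit 5) (nat_lit 11) (C.cons (nat_lit 2352) (C.node (nat_lit 1) (nat_lit 4) (nat_lit 8) (C.cons (nat_lit 282) (C.miq (nat_lit 834110560) (nat_lit 3252017704413158539675107665))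 (C.cons (nat_lit 274) (C.node (nat_lit 1) (nat_lit 3) (nat_lit 4) (C.cons (nat_lit 58) (C.node (nat_lit 3) (nat_lit 5) (nat_lit 11) (C.cons (nat_lit 2600) (C.miq (nat_lit 2710767541) (nat_lit 632287849770508310404401377)) (C.cons (nat_lit 2088) (C.node (nat_lit 4) (nat_lit 5) (nat_lit 7) (C.cons (nat_lit 180) (C.miq (nat_lit 1469137411) (nat_lit 3252011524725177021209708573)) (C.cons (nat_lit 176) (C.node (nat_lit 1) (nat_lit 7) (nat_lit 8) (C.cons (nat_lit 450) (C.miq (nat_lit 873991015) (nat_lit 331252924729462036661143777)) (C.cons (nat_lit 418) (C.miq (nat_lit 2555448131) (nat_lit 505340641327221032435189789)) (C.cons (nat_lit 386) (C.node (nat_lit 1) (nat_lit 5) (nat_lit 7) (C.cons (nat_lit 166) (C.node (nat_lit 1) (nat_lit 5) (nat_lit 11) (C.cons (nat_lit 3106) (C.miq (nat_lit 2686826865) (nat_lit 44787551993982377141865090)) (C.cons (nat_lit 2082) (C.node (nat_lit 5) (nat_lit 9) (nat_lit 11) (C.cons (nat_lit 2596) (C.miq (nat_lit 2874214695)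 (nat_lit 2517005158656124790914810501)) (C.cons (nat_lit 2592) (C.node (nat_lit 2) (nat_lit 9) (nat_lit 11) (C.cons (nat_lit 2628) (C.miq (nat_lit 1769058820) (nat_lit 3252049747067948490430810141)) (C.cons (nat_lit 2564) (C.node (nat_lit 1) (nat_lit 2) (nat_lit 11) (C.cons (nat_lit 3078) (C.node (nat_lit 2) (nat_lit 5) (nat_lit 11) C.nil) C.nil)) C.nil))) C.nil))) C.nil))) (C.cons (nat_lit 162) (C.node (nat_lit 1) (nat_lit 2) (nat_lit 7) (C.cons (nat_lit 206) (C.miq (nat_lit 1366901536) (nat_lit 3252020803403104264472823837)) (C.cons (nat_lit 198) (C.miq (nat_lit 2870348146) (nat_lit 2575032159151589645684703877)) (C.cons (nat_lit 142) (C.miq (nat_lit 1366901536) (nat_lit 3252020803403103989594916893)) (C.cons (nat_lit 134) (C.node (nat_lit 1) (nat_lit 3) (nat_lit 7) (C.cons (nat_lit 202) (C.node (nat_lit 3) (nat_lit 9) (nat_lit 11) (C.cons (nat_lit 2632) (C.miq (nat_lit 2838563687) (nat_lit 632289805876918062169065697)) (C.cons (nat_lit 2568) (C.node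 (nat_lit 1) (nat_lit 8) (nat_lit 11) (C.cons (nat_lit 2314) (C.node (nat_lit 1) (nat_lit 8) (nat_lit 10) (C.cons (nat_lit 1378) (C.miq (nat_lit 588647306) (nat_lit 244223178438061123103231745)) (C.cons (nat_lit 1346) (C.miq (nat_lit 588647306) (nat_lit 244223178438061123101134593))
  (C.cons (nat_lit 1314) (C.miq (nat_lit 2555448131) (nat_lit 1588538175701928772971923485)) C.nil)))) C.nil)) C.nil))) (C.cons (nat_lit 138) (C.node (nat_lit 1) (nat_lit 6) (nat_lit 7) (C.cons (nat_lit 194) (C.node (nat_lit 1) (nat_lit 8) (nat_lit 11) (C.cons (nat_lit 2314) (C.node (nat_lit 1) (nat_lit 2) (nat_lit 3) C.nil) (C.cons (nat_lit 2306) (C.node (nat_lit 1) (nat_lit 3) (nat_lit 11) C.nil) C.nil))) C.nil)) C.nil))) C.nil))))) C.nil))) C.nil)))) C.nil))) C.nil))) (C.cons (nat_lit 26) (C.node (nat_lit 1) (nat_lit 4) (nat_lit 5) (C.cons (nat_lit 50) (C.node (nat_lit 1) (nat_lit 8) (nat_lit 11) (C.cons (nat_lit 2314) (C.node (nat_lit 1) (nat_lit 8) (nat_lit 9) (C.cons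 (nat_lit 866) (C.miq (nat_lit 877726601) (nat_lit 60455939212515637278674689)) (C.cons (nat_lit 834) (C.miq (nat_lit 1478052656) (nat_lit 1008254482844065166575470621)) (C.cons (nat_lit 802) (C.miq (nat_lit 877726601) (nat_lit 60455939212515637274480385)) (C.cons (nat_lit 770) (C.miq (nat_lit 1478052656) (nat_lit 930883230388728899394275357)) C.nil))))) (C.cons (nat_lit 2306) (C.node (nat_lit 3) (nat_lit 8) (nat_lit 11) (C.cons (nat_lit 2376) (C.miq (nat_lit 991397440) (nat_lit 3252017705002567140835000657)) (C.cons (nat_lit 2312) (C.node (nat_lit 2) (nat_lit 8) (nat_lit 11) (C.cons (nat_lit 2372) (C.node (nat_lit 2) (nat_lit 9) (nat_lit 11) (C.cons (nat_lit 2596) (C.miq (nat_lit 1653640020) (nat_lit 779763370871858452333922608)) (C.cons (nat_lit 2564) (C.node (nat_lit 5) (nat_lit 9) (nat_lit 11) (C.cons (nat_lit 2600) (C.miq (nat_lit 2710767541) (nat_lit 632287849770508310404401377)) (C.cons (nat_lit 2592) (C.node (nat_lit 2) (nat_lit 10) (nat_lit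 11) (C.cons (nat_lit 3108) (C.miq (nat_lit 1409988706) (nat_lit 1415709467911342445566429508)) (C.cons (nat_lit 3078) (C.miq (nat_lit 1678934187) (nat_lit 26640123803326777659887361)) C.nil))) C.nil))) C.nil))) (C.cons (nat_lit 2308) (C.node (nat_lit 6) (nat_lit 8) (nat_lit 11) (C.cons (nat_lit 2368) (C.node (nat_lit 2) (nat_lit 6) (nat_lit 11) (C.cons (nat_lit 2628) (C.miq (nat_lit 1769058820) (nat_lit 3252049747067948490430810141)) C.nil)) C.nil)) C.nil))) C.nil))) C.nil))) C.nil)) C.nil))) C.nil))) (C.cons (nat_lit 2096) (C.node (nat_lit 4) (nat_lit 8) (nat_lit 11) (C.cons (nat_lit 2320) (C.node (nat_lit 6) (nat_lit 10) (nat_lit 11) (C.cons (nat_lit 3144) (C.node (nat_lit 3) (nat_lit 9) (nat_lit 11) (C.cons (nat_lit 2600) (C.miq (nat_lit 2710767541) (nat_lit 632287849770508310404401377)) (C.cons (nat_lit 2568) (C.node (nat_lit 6) (nat_lit 9) (nat_lit 11) (C.cons (nat_lit 2628) (C.miq (nat_lit 1769058820) (nat_lit 3252049747067948490430810141))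 (C.cons (nat_lit 2624) (C.node (nat_lit 2) (nat_lit 6) (nat_lit 11) (C.cons (nat_lit 2372) (C.node (nat_lit 3) (nat_lit 8) (nat_lit 11) (C.cons (nat_lit 2344) (C.miq (nat_lit 2181412515) (nat_lit 44773495161513393879845960)) (C.cons (nat_lit 2314) (C.miq (nat_lit 329288546) (nat_lit 1287510850034618056231422276)) C.nil))) C.nil)) C.nil))) C.nil))) (C.cons (nat_lit 3136) (C.node (nat_lit 3) (nat_lit 10) (nat_lit 11) (C.cons (nat_lit 3082) (C.node (nat_lit 1) (nat_lit 3) (nat_lit 4) (C.cons (nat_lit 314) (C.miq (nat_lit 2974393168) (nat_lit 640801539207247807860769833)) (C.cons (nat_lit 282) (C.miq (nat_lit 834110560) (nat_lit 3252017704413158539675107665)) (C.cons (nat_lit 58) (C.miq (nat_lit 2974393168) (nat_lit 640801539207246708349142057)) (C.cons (nat_lit 26) (C.node (nat_lit 1) (nat_lit 2) (nat_lit 11) (C.cons (nat_lit 2086) (C.node (nat_lit 1) (nat_lit 8) (nat_lit 11) (C.cons (nat_lit 2306) (C.node (nat_lit 2) (nat_lit 10) (nat_lit 11) C.nil)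 C.nil)) (C.cons (nat_lit 2054) (C.node (nat_lit 1) (nat_lit 5) (nat_lit 11) (C.cons (nat_lit 2338) (C.node (nat_lit 3) (nat_lit 5) (nat_lit 11) (C.cons (nat_lit 2600) (C.miq (nat_lit 1410568363) (nat_lit 31480033002484494919929601)) C.nil)) C.nil)) C.nil))) C.nil))))) (C.cons (nat_lit 3080) (C.ref (nat_lit 297) (nat_lit 205099542782736)) C.nil))) C.nil))) C.nil)) C.nil))) C.nil))) C.nil)))) (C.cons (nat_lit 2128)
  (C.ref (nat_lit 298) (nat_lit 205099542782736)) C.nil))) C.nil))) C.nil)) (List.cons (C.node (nat_lit 6) (nat_lit 8) (nat_lit 10) (C.cons (nat_lit 1378) (C.miq (nat_lit 1395040440) (nat_lit 246646287114497694401564417)) (C.cons (nat_lit 1376) (C.miq (nat_lit 1395040440) (nat_lit 246646250221009546982461185)) (C.cons (nat_lit 1354) (C.miq (nat_lit 2590115895) (nat_lit 1321367820069868431559360905)) (C.cons (nat_lit 1352) (C.miq (nat_lit 2590115895) (nat_lit 1321367820069868422969426313)) (C.cons (nat_lit 1346) (C.miq (nat_lit 414492192)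 (nat_lit 2804729503022125505654359109)) (C.cons (nat_lit 1344) (C.node (nat_lit 1) (nat_lit 2) (nat_lit 7) (C.cons (nat_lit 166) (C.node (nat_lit 1) (nat_lit 3) (nat_lit 7) (C.cons (nat_lit 138) (C.node (nat_lit 2) (nat_lit 5) (nat_lit 11) (C.cons (nat_lit 2596) (C.miq (nat_lit 448098450) (nat_lit 3752508806572948888941232773)) (C.cons (nat_lit 2084) (C.node (nat_lit 1) (nat_lit 2) (nat_lit 11) C.nil) C.nil))) C.nil)) (C.cons (nat_lit 134) (C.node (nat_lit 1) (nat_lit 3) (nat_lit 7) (C.cons (nat_lit 170) (C.node (nat_lit 1) (nat_lit 2) (nat_lit 3) (C.cons (nat_lit 1038) (C.miq (nat_lit 1445163169) (nat_lit 246624003787674198794437779)) (C.cons (nat_lit 14) (C.node (nat_lit 2) (nat_lit 3) (nat_lit 10) (C.cons (nat_lit 1548) (C.miq (nat_lit 2474353248) (nat_lit 2640364844418061376216433733)) (C.cons (nat_lit 1292) (C.miq (nat_lit 1445137290) (nat_lit 246640513623625662122954497)) (C.cons (nat_lit 1036) (C.node (nat_lit 3) (nat_lit 5) (nat_lit 11) (C.cons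 (nat_lit 2600) (C.miq (nat_lit 2838563671) (nat_lit 632289805876917924728015073)) (C.cons (nat_lit 2344) (C.miq (nat_lit 2208478470) (nat_lit 1252490905457480583673612513)) (C.cons (nat_lit 2088) (C.node (nat_lit 3) (nat_lit 8) (nat_lit 11) C.nil) C.nil)))) C.nil)))) C.nil))) (C.cons (nat_lit 138) (C.node (nat_lit 1) (nat_lit 6) (nat_lit 7) (C.cons (nat_lit 706) (C.node (nat_lit 4) (nat_lit 6) (nat_lit 7) (C.cons (nat_lit 208) (C.node (nat_lit 1) (nat_lit 5) (nat_lit 7) (C.cons (nat_lit 418) (C.node (nat_lit 3) (nat_lit 7) (nat_lit 10) C.nil) C.nil)) C.nil)) (C.cons (nat_lit 194) (C.node (nat_lit 3) (nat_lit 9) (nat_lit 11) (C.cons (nat_lit 2568) (C.node (nat_lit 1) (nat_lit 2) (nat_lit 11) C.nil) C.nil)) C.nil))) C.nil))) C.nil))) C.nil))))))) List.nil))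

theorem ok12_310 : okL par12 (nat_lit 312) c12_310 (nat_lit 310) = true := by decide +kernel

noncomputable def c12_312 : List C :=
  (List.cons (C.node (nat_lit 2) (nat_lit 7) (nat_lit 11) (C.cons (nat_lit 3204) (C.node (nat_lit 5) (nat_lit 10) (nat_lit 11) (C.cons (nat_lit 3106) (C.node (nat_lit 3) (nat_lit 10) (nat_lit 11) (C.cons (nat_lit 3144) (C.node (nat_lit 6) (nat_lit 7) (nat_lit 10) (C.cons (nat_lit 1728) (C.miq (nat_lit 915454578) (nat_lit 697588512690046877068233860)) (C.cons (nat_lit 1472) (C.miq (nat_lit 2276747808) (nat_lit 2649971613562364918004253765)) (C.cons (nat_lit 1216) (C.node (nat_lit 3) (nat_lit 7) (nat_lit 10) (C.cons (nat_lit 1672) (C.node (nat_lit 3) (nat_lit 4) (nat_lit 10) (C.cons (nat_lit 1304) (C.node (nat_lit 5) (nat_lit 7) (nat_lit 10) (C.cons (nat_lit 1440) (C.miq (nat_lit 1514895408) (nat_lit 3733204860824584000540311945)) (C.cons (nat_lit 1184) (C.node (nat_lit 7) (nat_lit 8) (nat_lit 10) (C.cons (nat_lit 1408)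 (C.node (nat_lit 3) (nat_lit 4) (nat_lit 7) (C.cons (nat_lit 216) (C.miq (nat_lit 2204869744) (nat_lit 3800933631179425541156570259)) (C.cons (nat_lit 184) (C.miq (nat_lit 1537503363) (nat_lit 3733166325810693573168333193)) (C.cons (nat_lit 152) (C.node (nat_lit 4) (nat_lit 6) (nat_lit 10) (C.cons (nat_lit 1616) (C.miq (nat_lit 2517083267) (nat_lit 2747919231395008366271595800)) (C.cons (nat_lit 1136) (C.miq (nat_lit 1984431523) (nat_lit 407415251420348500961395753)) (C.cons (nat_lit 1104) (C.node (nat_lit 4) (nat_lit 9) (nat_lit 10) (C.cons (nat_lit 1556) (C.miq (nat_lit 607623808) (nat_lit 183768623169331841641025281)) (C.cons (nat_lit 1552) (C.node (nat_lit 5) (nat_lit 6) (nat_lit 10) (C.cons (nat_lit 1632) (C.miq (nat_lit 982824528) (nat_lit 1876291186814309910084389089)) (C.cons (nat_lit 1376) (C.miq (nat_lit 3062105507) (nat_lit 407446315737369658638468137)) (C.cons (nat_lit 1120) (C.node (nat_lit 1) (nat_lit 3) (nat_lit 10) (C.cons (nat_lit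 1038) (C.node (nat_lit 1) (nat_lit 8) (nat_lit 10) (C.cons (nat_lit 1346) (C.miq (nat_lit 1629726731) (nat_lit 1254922997702219274540355329)) (C.cons (nat_lit 1282) (C.node (nat_lit 6) (nat_lit 8) (nat_lit 10) (C.cons (nat_lit 1344) (C.node (nat_lit 2) (nat_lit 4) (nat_lit 10) (C.cons (nat_lit 1076) (C.miq (nat_lit 2510357539) (nat_lit 3754933243528100850120394781)) (C.cons (nat_lit 1044) (C.node (nat_lit 4) (nat_lit 5) (nat_lit 10) C.nil) C.nil))) C.nil)) C.nil))) (C.cons (nat_lit 1034) (C.node (nat_lit 2) (nat_lit 3) (nat_lit 10) (C.cons (nat_lit 1036) (C.node (nat_lit 1) (nat_lit 2) (nat_lit 10) (C.cons (nat_lit 1542) (C.miq (nat_lit 2208368530) (nat_lit 1250034149085844799391924869)) (C.cons (nat_lit 1030) (C.node (nat_lit 1) (nat_lit 8) (nat_lit 10) (C.cons (nat_lit 1346) (C.node (nat_lit 1) (nat_lit 9) (nat_lit 10) C.nil) C.nil)) C.nil))) C.nil)) C.nil))) C.nil)))) C.nil))) C.nil)))) C.nil)))) C.nil)) C.nil))) (C.cons (nat_lit 1048) (C.node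 (nat_lit 3) (nat_lit 7) (nat_lit 11) (C.cons (nat_lit 2186) (C.node (nat_lit 7) (nat_lit 9) (nat_lit 11) (C.cons (nat_lit 2688) (C.node (nat_lit 3) (nat_lit 8) (nat_lit 11) (C.cons (nat_lit 2344) (C.miq (nat_lit 1399961610) (nat_lit 2642769137924451351183691521)) (C.cons (nat_lit 2312) (C.node (nat_lit 3) (nat_lit 5) (nat_lit 11) (C.cons (nat_lit 2600) (C.miq (nat_lit 1094256565) (nat_lit 632278552611492996126869729)) (C.cons (nat_lit 2088) (C.node (nat_lit 3) (nat_lit 9) (nat_lit 11) (C.cons (nat_lit 2568) (C.node (nat_lit 5) (nat_lit 9) (nat_lit 11) (C.cons (nat_lit 2596) (C.miq (nat_lit 1537512048) (nat_lit 3733173280324123043243950725)) (C.cons (nat_lit 2592) (C.node (nat_lit 1) (nat_lit 2) (nat_lit 10) (C.cons (nat_lit 1542) (C.miq (nat_lit 2275541905) (nat_lit 3873403177649590108504326667)) (C.cons (nat_lit 1038) (C.miq (nat_lit 1729760050) (nat_lit 1415672297699805339050706973)) (C.cons (nat_lit 1030) (C.node (nat_lit 1) (nat_lit 3) (nat_lit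 10) (C.cons (nat_lit 1290) (C.miq (nat_lit 657525160) (nat_lit 2642716693352829302768013057)) (C.cons (nat_lit 1034) (C.node (nat_lit 1) (nat_lit 8) (nat_lit 10) (C.cons (nat_lit 1346) (C.node (nat_lit 1) (nat_lit 2) (nat_lit 3) (C.cons (nat_lit 110)
  (C.miq (nat_lit 2335246946) (nat_lit 2642716694252429650449794117)) (C.cons (nat_lit 78) (C.miq (nat_lit 2335246946) (nat_lit 2642716694252429650447696965)) (C.cons (nat_lit 46) (C.miq (nat_lit 1629726731) (nat_lit 55668584644507133231828737)) (C.cons (nat_lit 14) (C.miq (nat_lit 1629726731) (nat_lit 16982958416838999641231105)) C.nil))))) (C.cons (nat_lit 1282) (C.node (nat_lit 1) (nat_lit 6) (nat_lit 10) (C.cons (nat_lit 1602) (C.node (nat_lit 4) (nat_lit 9) (nat_lit 10) (C.cons (nat_lit 1556) (C.miq (nat_lit 1470696228) (nat_lit 2021334319658891714407696413)) (C.cons (nat_lit 1552) (C.node (nat_lit 4) (nat_lit 6) (nat_lit 11) (C.cons (nat_lit 2640) (C.miq (nat_lit 1500120243) (nat_lit 1936718808962993239406151709))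 (C.cons (nat_lit 2130) (C.miq (nat_lit 2209744660) (nat_lit 3800868993531776020180501651)) (C.cons (nat_lit 2128) (C.node (nat_lit 2) (nat_lit 3) (nat_lit 10) (C.cons (nat_lit 1292) (C.node (nat_lit 5) (nat_lit 7) (nat_lit 10) (C.cons (nat_lit 1440) (C.miq (nat_lit 1512798256) (nat_lit 3873440255899880933266620809)) (C.cons (nat_lit 1184) (C.node (nat_lit 7) (nat_lit 8) (nat_lit 10) (C.cons (nat_lit 1408) (C.node (nat_lit 2) (nat_lit 4) (nat_lit 10) C.nil) C.nil)) C.nil))) (C.cons (nat_lit 1036) (C.node (nat_lit 3) (nat_lit 8) (nat_lit 10) (C.cons (nat_lit 1288) (C.node (nat_lit 2) (nat_lit 9) (nat_lit 10) (C.cons (nat_lit 1572) (C.node (nat_lit 2) (nat_lit 4) (nat_lit 10) C.nil) C.nil)) C.nil)) C.nil))) C.nil)))) C.nil))) (C.cons (nat_lit 1090) (C.node (nat_lit 1) (nat_lit 9) (nat_lit 10) (C.cons (nat_lit 1538) (C.node (nat_lit 2) (nat_lit 3) (nat_lit 10) (C.cons (nat_lit 1292) (C.node (nat_lit 5) (nat_lit 7) (nat_lit 10) (C.cons (nat_lit 1440) (C.miq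 (nat_lit 1512798256) (nat_lit 3873440255899880933266620809)) (C.cons (nat_lit 1184) (C.node (nat_lit 7) (nat_lit 8) (nat_lit 10) (C.cons (nat_lit 1408) (C.node (nat_lit 6) (nat_lit 8) (nat_lit 10) (C.cons (nat_lit 1376) (C.miq (nat_lit 1480288800) (nat_lit 2795078424785617310919230533)) C.nil)) C.nil)) C.nil))) (C.cons (nat_lit 1036) (C.node (nat_lit 3) (nat_lit 8) (nat_lit 10) (C.cons (nat_lit 1288) (C.node (nat_lit 2) (nat_lit 5) (nat_lit 11) (C.cons (nat_lit 2340) (C.node (nat_lit 4) (nat_lit 5) (nat_lit 11) C.nil) C.nil)) C.nil)) C.nil))) C.nil)) C.nil))) C.nil))) C.nil))) C.nil)))) C.nil))) C.nil)) C.nil))) C.nil))) C.nil)) (C.cons (nat_lit 2184) (C.node (nat_lit 1) (nat_lit 3) (nat_lit 11) (C.cons (nat_lit 2314) (C.node (nat_lit 1) (nat_lit 3) (nat_lit 10) (C.cons (nat_lit 1038) (C.miq (nat_lit 1662167936) (nat_lit 1254885163936224913234792193)) (C.cons (nat_lit 1034) (C.node (nat_lit 1) (nat_lit 2) (nat_lit 10) (C.cons (nat_lit 1542) (C.miq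 (nat_lit 2208368530) (nat_lit 1250034149085844799391924869)) (C.cons (nat_lit 1030) (C.node (nat_lit 2) (nat_lit 3) (nat_lit 10) (C.cons (nat_lit 1292) (C.miq (nat_lit 1796252546) (nat_lit 2479527019205844267212145932)) (C.cons (nat_lit 1036) (C.node (nat_lit 3) (nat_lit 8) (nat_lit 10) (C.cons (nat_lit 1288) (C.node (nat_lit 6) (nat_lit 8) (nat_lit 11) (C.cons (nat_lit 2372) (C.miq (nat_lit 1203243558) (nat_lit 2940113810185151951963161669)) (C.cons (nat_lit 2368) (C.node (nat_lit 1) (nat_lit 2) (nat_lit 11) (C.cons (nat_lit 2630) (C.miq (nat_lit 824621066) (nat_lit 3179532902801176698064015105)) (C.cons (nat_lit 2566) (C.miq (nat_lit 2537234561) (nat_lit 2640341324565196304319906055)) (C.cons (nat_lit 2118) (C.miq (nat_lit 824621066) (nat_lit 2560562883158486560614452993)) (C.cons (nat_lit 2054) (C.node (nat_lit 1) (nat_lit 2) (nat_lit 7) (C.cons (nat_lit 206) (C.miq (nat_lit 2586970983) (nat_lit 1252459048351842256592701665)) (C.cons (nat_lit 198)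 (C.miq (nat_lit 824621066) (nat_lit 239425309498398545178595073)) (C.cons (nat_lit 174) (C.miq (nat_lit 1662167936) (nat_lit 210373255789185306288656129)) (C.cons (nat_lit 166) (C.miq (nat_lit 2584873815) (nat_lit 1245205493434154318333085921)) (C.cons (nat_lit 142) (C.miq (nat_lit 1662167936) (nat_lit 171687629561517172698058497)) (C.cons (nat_lit 134)
  (C.node (nat_lit 1) (nat_lit 3) (nat_lit 7) (C.cons (nat_lit 202) (C.miq (nat_lit 640748216) (nat_lit 244207867363512131976302337)) (C.cons (nat_lit 170) (C.miq (nat_lit 2704848240) (nat_lit 2797525201406501036491344097)) (C.cons (nat_lit 138) (C.node (nat_lit 1) (nat_lit 7) (nat_lit 11) (C.cons (nat_lit 2690) (C.node (nat_lit 2) (nat_lit 6) (nat_lit 11) (C.cons (nat_lit 2628) (C.miq (nat_lit 2460071431) (nat_lit 1245243216684347261912811745)) (C.cons (nat_lit 2116) (C.node (nat_lit 2) (nat_lit 9) (nat_lit 11) (C.cons (nat_lit 2596) (C.miq (nat_lit 1383184650) (nat_lit 162053356146165061149462273))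 (C.cons (nat_lit 2564) (C.node (nat_lit 3) (nat_lit 5) (nat_lit 11) (C.cons (nat_lit 2600) (C.miq (nat_lit 423263056) (nat_lit 2021345572290149148330100961)) (C.cons (nat_lit 2088) (C.node (nat_lit 3) (nat_lit 9) (nat_lit 11) (C.cons (nat_lit 2568) (C.node (nat_lit 5) (nat_lit 9) (nat_lit 11) (C.cons (nat_lit 2592) (C.node (nat_lit 1) (nat_lit 4) (nat_lit 11) C.nil) C.nil)) C.nil)) C.nil))) C.nil))) C.nil))) (C.cons (nat_lit 2178) (C.node (nat_lit 7) (nat_lit 9) (nat_lit 11) (C.cons (nat_lit 2688) (C.node (nat_lit 1) (nat_lit 8) (nat_lit 10) (C.cons (nat_lit 1346) (C.node (nat_lit 1) (nat_lit 9) (nat_lit 10) (C.cons (nat_lit 1538) (C.node (nat_lit 1) (nat_lit 6) (nat_lit 7) (C.cons (nat_lit 706) (C.node (nat_lit 1) (nat_lit 6) (nat_lit 11) C.nil) (C.cons (nat_lit 194) (C.node (nat_lit 2) (nat_lit 6) (nat_lit 11) (C.cons (nat_lit 2628) (C.node (nat_lit 1) (nat_lit 6) (nat_lit 11) (C.cons (nat_lit 2130) (C.miq (nat_lit 2534809675) (nat_lit 234580087230220158119315485))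 C.nil)) C.nil)) C.nil))) C.nil)) (C.cons (nat_lit 1282) (C.node (nat_lit 1) (nat_lit 2) (nat_lit 3) (C.cons (nat_lit 110) (C.miq (nat_lit 1636446731) (nat_lit 1549900897340285722069895197)) (C.cons (nat_lit 78) (C.miq (nat_lit 1636446731) (nat_lit 1549900897331278522815154205)) (C.cons (nat_lit 46) (C.miq (nat_lit 1662167936) (nat_lit 55630750878512771926265601)) (C.cons (nat_lit 14) (C.miq (nat_lit 1662167936) (nat_lit 16945124650844638335667969)) C.nil))))) C.nil))) C.nil)) C.nil))) C.nil)))) C.nil))))))) C.nil))))) C.nil))) C.nil)) C.nil))) C.nil))) C.nil))) (C.cons (nat_lit 2058) (C.node (nat_lit 3) (nat_lit 8) (nat_lit 11) (C.cons (nat_lit 2344) (C.miq (nat_lit 461874480) (nat_lit 2940129195314359811862758441)) (C.cons (nat_lit 2312) (C.node (nat_lit 1) (nat_lit 7) (nat_lit 11) (C.cons (nat_lit 2690) (C.node (nat_lit 3) (nat_lit 5) (nat_lit 11) (C.cons (nat_lit 2600) (C.miq (nat_lit 423263056) (nat_lit 2021345572290149148330100961)) (C.cons (nat_lit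 2088) (C.node (nat_lit 3) (nat_lit 9) (nat_lit 11) (C.cons (nat_lit 2568) (C.node (nat_lit 5) (nat_lit 9) (nat_lit 11) (C.cons (nat_lit 2596) (C.miq (nat_lit 1537512048) (nat_lit 3733173280324123043243950725)) (C.cons (nat_lit 2592) (C.node (nat_lit 2) (nat_lit 9) (nat_lit 11) (C.cons (nat_lit 2628) (C.miq (nat_lit 459962656) (nat_lit 3800884378762883413758509701)) (C.cons (nat_lit 2564) (C.node (nat_lit 1) (nat_lit 2) (nat_lit 7) (C.cons (nat_lit 206) (C.miq (nat_lit 698577078) (nat_lit 2021327770606507021430163681)) (C.cons (nat_lit 198) (C.miq (nat_lit 1789993111) (nat_lit 3754927248486033457819026053)) (C.cons (nat_lit 174) (C.miq (nat_lit 2836597621) (nat_lit 632287850522046498062862561)) (C.cons (nat_lit 166) (C.miq (nat_lit 699756705) (nat_lit 3133538786782202913775289491)) (C.cons (nat_lit 142) (C.miq (nat_lit 2803479088) (nat_lit 3252081309609186033647945757)) (C.cons (nat_lit 134) (C.node (nat_lit 1) (nat_lit 2) (nat_lit 11) (C.cons (nat_lit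 2118) (C.node (nat_lit 6) (nat_lit 8) (nat_lit 11) (C.cons (nat_lit 2368) (C.node (nat_lit 1) (nat_lit 4) (nat_lit 11) C.nil) C.nil)) (C.cons (nat_lit 2054) (C.node (nat_lit 2) (nat_lit 6) (nat_lit 11) (C.cons (nat_lit 2372) (C.miq (nat_lit 1203243558) (nat_lit 2940113810185151951963161669)) C.nil)) C.nil))) C.nil))))))) C.nil))) C.nil))) C.nil)) C.nil))) (C.cons (nat_lit 2178) (C.node (nat_lit 7) (nat_lit 9) (nat_lit 11) (C.cons (nat_lit 2688)
  (C.node (nat_lit 3) (nat_lit 5) (nat_lit 11) (C.cons (nat_lit 2600) (C.node (nat_lit 4) (nat_lit 9) (nat_lit 11) (C.cons (nat_lit 2642) (C.miq (nat_lit 2510402308) (nat_lit 3754972332752720470937372701)) (C.cons (nat_lit 2640) (C.miq (nat_lit 1678424403) (nat_lit 1415710132075194854473796136)) (C.cons (nat_lit 2578) (C.miq (nat_lit 2510402308) (nat_lit 3754971152161099753526069277)) (C.cons (nat_lit 2576) (C.node (nat_lit 2) (nat_lit 5) (nat_lit 11) (C.cons (nat_lit 2340) (C.node (nat_lit 4) (nat_lit 5) (nat_lit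 11) (C.cons (nat_lit 2096) (C.node (nat_lit 4) (nat_lit 6) (nat_lit 11) (C.cons (nat_lit 2128) (C.node (nat_lit 1) (nat_lit 4) (nat_lit 11) C.nil) C.nil)) C.nil)) (C.cons (nat_lit 2084) (C.node (nat_lit 2) (nat_lit 8) (nat_lit 11) (C.cons (nat_lit 2372) (C.miq (nat_lit 1203243558) (nat_lit 2940113810185151951963161669)) (C.cons (nat_lit 2308) (C.node (nat_lit 4) (nat_lit 5) (nat_lit 11) (C.cons (nat_lit 2352) (C.node (nat_lit 1) (nat_lit 4) (nat_lit 11) C.nil) C.nil)) C.nil))) C.nil))) C.nil))))) (C.cons (nat_lit 2088) (C.node (nat_lit 3) (nat_lit 9) (nat_lit 11) (C.cons (nat_lit 2568) (C.node (nat_lit 5) (nat_lit 9) (nat_lit 11) (C.cons (nat_lit 2596) (C.miq (nat_lit 1537512048) (nat_lit 3733173280324123043243950725)) (C.cons (nat_lit 2592) (C.node (nat_lit 2) (nat_lit 5) (nat_lit 11) (C.cons (nat_lit 2340) (C.node (nat_lit 4) (nat_lit 5) (nat_lit 11) C.nil) C.nil)) C.nil))) C.nil)) C.nil))) C.nil)) C.nil))) C.nil))) C.nil))) C.nil))) C.nil))) (C.cons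 (nat_lit 1160) (C.node (nat_lit 7) (nat_lit 9) (nat_lit 10) (C.cons (nat_lit 1696) (C.miq (nat_lit 1521784608) (nat_lit 3733173280070795564263735941)) (C.cons (nat_lit 1664) (C.node (nat_lit 4) (nat_lit 5) (nat_lit 11) (C.cons (nat_lit 2352) (C.node (nat_lit 2) (nat_lit 5) (nat_lit 11) (C.cons (nat_lit 2596) (C.miq (nat_lit 1537512048) (nat_lit 3733173280324123043243950725)) (C.cons (nat_lit 2084) (C.node (nat_lit 2) (nat_lit 8) (nat_lit 11) (C.cons (nat_lit 2372) (C.miq (nat_lit 2072289888) (nat_lit 2843415129772774145859322949)) (C.cons (nat_lit 2308) (C.node (nat_lit 3) (nat_lit 5) (nat_lit 11) (C.cons (nat_lit 2600) (C.node (nat_lit 3) (nat_lit 7) (nat_lit 11) (C.cons (nat_lit 2186) (C.miq (nat_lit 1094256565) (nat_lit 632278552611492996126869729)) (C.cons (nat_lit 2184) (C.node (nat_lit 1) (nat_lit 3) (nat_lit 11) (C.cons (nat_lit 2314) (C.miq (nat_lit 2214704531) (nat_lit 1415694821196548882217765416)) (C.cons (nat_lit 2058) (C.node (nat_lit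 3) (nat_lit 8) (nat_lit 11) (C.cons (nat_lit 2312) (C.node (nat_lit 1) (nat_lit 7) (nat_lit 11) (C.cons (nat_lit 2690) (C.miq (nat_lit 2710767541) (nat_lit 632287849770508310404401377)) (C.cons (nat_lit 2178) (C.node (nat_lit 7) (nat_lit 9) (nat_lit 11) (C.cons (nat_lit 2688) (C.node (nat_lit 1) (nat_lit 8) (nat_lit 11) (C.cons (nat_lit 2306) (C.node (nat_lit 6) (nat_lit 8) (nat_lit 11) C.nil) C.nil)) C.nil)) C.nil))) C.nil)) C.nil))) C.nil))) (C.cons (nat_lit 2088) (C.node (nat_lit 5) (nat_lit 9) (nat_lit 11) (C.cons (nat_lit 2592) (C.node (nat_lit 3) (nat_lit 9) (nat_lit 11) (C.cons (nat_lit 2696) (C.miq (nat_lit 1670425458) (nat_lit 632288366834692528963652740)) (C.cons (nat_lit 2568) (C.node (nat_lit 3) (nat_lit 7) (nat_lit 11) (C.cons (nat_lit 2186) (C.node (nat_lit 3) (nat_lit 8) (nat_lit 11) (C.cons (nat_lit 2312) (C.node (nat_lit 7) (nat_lit 9) (nat_lit 11) (C.cons (nat_lit 2688) (C.node (nat_lit 1) (nat_lit 8) (nat_lit 11) (C.cons (nat_lit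 2306) (C.node (nat_lit 6) (nat_lit 8) (nat_lit 11) C.nil) C.nil)) C.nil)) C.nil)) (C.cons (nat_lit 2184) (C.node (nat_lit 1) (nat_lit 3) (nat_lit 11) (C.cons (nat_lit 2314) (C.node (nat_lit 6) (nat_lit 8) (nat_lit 11) (C.cons (nat_lit 2368) (C.node (nat_lit 1) (nat_lit 7) (nat_lit 11) (C.cons (nat_lit 2178) (C.node (nat_lit 7) (nat_lit 9) (nat_lit 11) C.nil) C.nil)) C.nil)) (C.cons (nat_lit 2058) (C.node (nat_lit 3) (nat_lit 8) (nat_lit 11) (C.cons (nat_lit 2312) (C.node (nat_lit 1) (nat_lit 7) (nat_lit 11) (C.cons (nat_lit 2690)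
  (C.node (nat_lit 1) (nat_lit 2) (nat_lit 11) C.nil) C.nil)) C.nil)) C.nil))) C.nil))) C.nil))) C.nil)) C.nil))) C.nil))) C.nil))) (C.cons (nat_lit 2096) (C.node (nat_lit 4) (nat_lit 8) (nat_lit 11) (C.cons (nat_lit 2322) (C.node (nat_lit 3) (nat_lit 8) (nat_lit 11) (C.cons (nat_lit 2344) (C.miq (nat_lit 2241966852) (nat_lit 3754966429722559289842927645)) (C.cons (nat_lit 2312) (C.node (nat_lit 6) (nat_lit 8) (nat_lit 11) (C.cons (nat_lit 2372) (C.miq (nat_lit 2072289888) (nat_lit 2807147355184335270618137669)) (C.cons (nat_lit 2368) (C.node (nat_lit 1) (nat_lit 8) (nat_lit 10) (C.cons (nat_lit 1346) (C.miq (nat_lit 646646292) (nat_lit 2862774655042540911165834387)) (C.cons (nat_lit 1290) (C.miq (nat_lit 2065171875) (nat_lit 2807133003355395873837810729)) (C.cons (nat_lit 1282) (C.node (nat_lit 1) (nat_lit 3) (nat_lit 10) (C.cons (nat_lit 1038) (C.node (nat_lit 1) (nat_lit 3) (nat_lit 11) (C.cons (nat_lit 2186) (C.miq (nat_lit 1729760050) (nat_lit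 1415672297699805339050706973)) (C.cons (nat_lit 2058) (C.node (nat_lit 3) (nat_lit 7) (nat_lit 11) (C.cons (nat_lit 2696) (C.miq (nat_lit 2476899168) (nat_lit 1254876899668782666666543329)) (C.cons (nat_lit 2184) (C.node (nat_lit 2) (nat_lit 4) (nat_lit 10) (C.cons (nat_lit 1556) (C.miq (nat_lit 1470696228) (nat_lit 2011662913101974681010047005)) (C.cons (nat_lit 1332) (C.miq (nat_lit 2510357539) (nat_lit 3754933243528101949632022557)) (C.cons (nat_lit 1300) (C.miq (nat_lit 2256158898) (nat_lit 1470077777513551728681945117)) (C.cons (nat_lit 1076) (C.miq (nat_lit 2510357539) (nat_lit 3754933243528100850120394781)) (C.cons (nat_lit 1044) (C.node (nat_lit 1) (nat_lit 6) (nat_lit 10) (C.cons (nat_lit 1602) (C.node (nat_lit 1) (nat_lit 4) (nat_lit 9) (C.cons (nat_lit 534) (C.miq (nat_lit 2443526704) (nat_lit 3754933944496775663505180701)) (C.cons (nat_lit 530) (C.node (nat_lit 1) (nat_lit 6) (nat_lit 11) (C.cons (nat_lit 2118) (C.miq (nat_lit 1638249008)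 (nat_lit 3754965525768486217367226397)) (C.cons (nat_lit 2114) (C.node (nat_lit 2) (nat_lit 6) (nat_lit 11) (C.cons (nat_lit 2628) (C.miq (nat_lit 3021545638) (nat_lit 640779163023807727435646021)) (C.cons (nat_lit 2116) (C.node (nat_lit 3) (nat_lit 9) (nat_lit 10) (C.cons (nat_lit 1560) (C.miq (nat_lit 1453919028) (nat_lit 1936709512285867414480488477)) (C.cons (nat_lit 1544) (C.node (nat_lit 4) (nat_lit 9) (nat_lit 10) (C.cons (nat_lit 1552) (C.node (nat_lit 4) (nat_lit 6) (nat_lit 11) (C.cons (nat_lit 2640) (C.miq (nat_lit 1500120243) (nat_lit 1936718808962993239406151709)) (C.cons (nat_lit 2128) (C.node (nat_lit 4) (nat_lit 9) (nat_lit 11) C.nil) C.nil))) C.nil)) C.nil))) C.nil))) C.nil))) C.nil))) (C.cons (nat_lit 1090) (C.node (nat_lit 1) (nat_lit 9) (nat_lit 10) (C.cons (nat_lit 1538) (C.node (nat_lit 1) (nat_lit 7) (nat_lit 11) (C.cons (nat_lit 2690) (C.node (nat_lit 1) (nat_lit 2) (nat_lit 11) (C.cons (nat_lit 2118) (C.miq (nat_lit 1638249008)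 (nat_lit 3754965525768486217367226397)) (C.cons (nat_lit 2054) (C.node (nat_lit 1) (nat_lit 6) (nat_lit 11) (C.cons (nat_lit 2114) (C.node (nat_lit 1) (nat_lit 2) (nat_lit 7) (C.cons (nat_lit 198) (C.miq (nat_lit 2435495776) (nat_lit 1254935855461140739559590113)) (C.cons (nat_lit 166) (C.miq (nat_lit 2584873815) (nat_lit 1254876899991071351730735329)) C.nil))) C.nil)) C.nil))) (C.cons (nat_lit 2178) (C.node (nat_lit 7) (nat_lit 9) (nat_lit 11) (C.cons (nat_lit 2688) (C.node (nat_lit 2) (nat_lit 8) (nat_lit 10) (C.cons (nat_lit 1316) (C.node (nat_lit 2) (nat_lit 8) (nat_lit 11) (C.cons (nat_lit 2308) (C.node (nat_lit 5) (nat_lit 8) (nat_lit 11) C.nil) C.nil)) (C.cons (nat_lit 1284) (C.node (nat_lit 2) (nat_lit 5) (nat_lit 10) (C.cons (nat_lit 1572) (C.node (nat_lit 3) (nat_lit 9) (nat_lit 10) (C.cons (nat_lit 1560) (C.miq (nat_lit 1788195648) (nat_lit 1900473318768440631412983837)) C.nil)) C.nil)) C.nil))) C.nil)) C.nil))) C.nil)) C.nil))) C.nil))))))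 C.nil))) C.nil))) (C.cons (nat_lit 1034) (C.node (nat_lit 1) (nat_lit 2) (nat_lit 10) (C.cons (nat_lit 1542)
  (C.miq (nat_lit 352955250) (nat_lit 678235830557439667304991876)) (C.cons (nat_lit 1030) (C.node (nat_lit 1) (nat_lit 3) (nat_lit 11) (C.cons (nat_lit 2186) (C.node (nat_lit 7) (nat_lit 9) (nat_lit 11) (C.cons (nat_lit 2688) (C.node (nat_lit 3) (nat_lit 5) (nat_lit 11) (C.cons (nat_lit 2600) (C.miq (nat_lit 1094256565) (nat_lit 632278552611492996126869729)) (C.cons (nat_lit 2088) (C.node (nat_lit 3) (nat_lit 9) (nat_lit 11) (C.cons (nat_lit 2568) (C.node (nat_lit 5) (nat_lit 9) (nat_lit 11) (C.cons (nat_lit 2596) (C.miq (nat_lit 1537512048) (nat_lit 3733173280324123043243950725)) (C.cons (nat_lit 2592) (C.node (nat_lit 2) (nat_lit 5) (nat_lit 11) (C.cons (nat_lit 2084) (C.node (nat_lit 2) (nat_lit 8) (nat_lit 11) C.nil) C.nil)) C.nil))) C.nil)) C.nil))) C.nil)) (C.cons (nat_lit 2058) (C.node (nat_lit 3) (nat_lit 7) (nat_lit 11) (C.cons (nat_lit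 2696) (C.miq (nat_lit 1670425458) (nat_lit 632288366834692528963652740)) (C.cons (nat_lit 2184) (C.node (nat_lit 1) (nat_lit 6) (nat_lit 10) (C.cons (nat_lit 1602) (C.node (nat_lit 4) (nat_lit 6) (nat_lit 11) (C.cons (nat_lit 2640) (C.miq (nat_lit 1500120243) (nat_lit 1936718808962993239406151709)) (C.cons (nat_lit 2128) (C.node (nat_lit 4) (nat_lit 9) (nat_lit 11) (C.cons (nat_lit 2576) (C.node (nat_lit 6) (nat_lit 9) (nat_lit 11) (C.cons (nat_lit 2628) (C.miq (nat_lit 431269408) (nat_lit 3114214512915529267928695877)) (C.cons (nat_lit 2624) (C.node (nat_lit 1) (nat_lit 6) (nat_lit 11) (C.cons (nat_lit 2118) (C.node (nat_lit 1) (nat_lit 7) (nat_lit 11) C.nil) C.nil)) C.nil))) C.nil)) C.nil))) (C.cons (nat_lit 1090) (C.node (nat_lit 1) (nat_lit 9) (nat_lit 10) (C.cons (nat_lit 1538) (C.node (nat_lit 1) (nat_lit 7) (nat_lit 11) (C.cons (nat_lit 2690) (C.node (nat_lit 3) (nat_lit 5) (nat_lit 11) (C.cons (nat_lit 2600) (C.miq (nat_lit 2710767541) (nat_lit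 632287849770508310404401377)) (C.cons (nat_lit 2088) (C.node (nat_lit 3) (nat_lit 9) (nat_lit 11) (C.cons (nat_lit 2568) (C.node (nat_lit 1) (nat_lit 2) (nat_lit 11) (C.cons (nat_lit 2054) (C.node (nat_lit 1) (nat_lit 6) (nat_lit 11) C.nil) C.nil)) C.nil)) C.nil))) (C.cons (nat_lit 2178) (C.node (nat_lit 7) (nat_lit 9) (nat_lit 11) (C.cons (nat_lit 2688) (C.node (nat_lit 2) (nat_lit 8) (nat_lit 11) (C.cons (nat_lit 2340) (C.node (nat_lit 3) (nat_lit 5) (nat_lit 11) (C.cons (nat_lit 2088) (C.node (nat_lit 3) (nat_lit 9) (nat_lit 11) C.nil) C.nil)) (C.cons (nat_lit 2308) (C.node (nat_lit 5) (nat_lit 8) (nat_lit 11) C.nil) C.nil))) C.nil)) C.nil))) C.nil)) C.nil))) C.nil))) C.nil))) C.nil))) C.nil))) C.nil)))) C.nil))) C.nil))) (C.cons (nat_lit 2320) (C.node (nat_lit 5) (nat_lit 7) (nat_lit 10) (C.cons (nat_lit 1440) (C.node (nat_lit 2) (nat_lit 8) (nat_lit 10) (C.cons (nat_lit 1300) (C.miq (nat_lit 1739066148) (nat_lit 1740859397437625234919524381))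 (C.cons (nat_lit 1292) (C.miq (nat_lit 1512798256) (nat_lit 3873440255899880933266620809)) (C.cons (nat_lit 1284) (C.node (nat_lit 4) (nat_lit 8) (nat_lit 10) (C.cons (nat_lit 1304) (C.miq (nat_lit 1514895408) (nat_lit 3733204860824584000540311945)) (C.cons (nat_lit 1296) (C.node (nat_lit 3) (nat_lit 8) (nat_lit 10) (C.cons (nat_lit 1290) (C.miq (nat_lit 410755845) (nat_lit 2940164889252975502780597289)) (C.cons (nat_lit 1288) (C.node (nat_lit 2) (nat_lit 5) (nat_lit 11) (C.cons (nat_lit 2596) (C.miq (nat_lit 1537512048) (nat_lit 3733173280324123043243950725)) (C.cons (nat_lit 2340) (C.miq (nat_lit 681882992) (nat_lit 1566806176766658135490496737)) (C.cons (nat_lit 2084) (C.node (nat_lit 2) (nat_lit 8) (nat_lit 11) (C.cons (nat_lit 2372) (C.miq (nat_lit 1244137398) (nat_lit 1552266969267557659400472801)) (C.cons (nat_lit 2308) (C.node (nat_lit 5) (nat_lit 8) (nat_lit 11) (C.cons (nat_lit 2344) (C.miq (nat_lit 950318448) (nat_lit 1566806176767784035397339361))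 (C.cons (nat_lit 2336) (C.node (nat_lit 4) (nat_lit 5) (nat_lit 7) (C.cons (nat_lit 184) (C.miq (nat_lit 998588583) (nat_lit 2824054109405323338362913939)) (C.cons (nat_lit 180)
  (C.miq (nat_lit 2591361828) (nat_lit 1740863529949650509267994653)) (C.cons (nat_lit 176) (C.node (nat_lit 2) (nat_lit 5) (nat_lit 7) (C.cons (nat_lit 174) (C.miq (nat_lit 327833355) (nat_lit 1557153751299713653010401505)) (C.cons (nat_lit 172) (C.miq (nat_lit 2771093296) (nat_lit 2519472262426199023809266057)) (C.cons (nat_lit 166) (C.miq (nat_lit 2605845015) (nat_lit 2519413307307973468473394323)) (C.cons (nat_lit 164) (C.node (nat_lit 2) (nat_lit 3) (nat_lit 7) (C.cons (nat_lit 206) (C.miq (nat_lit 2590444338) (nat_lit 1470065695882475508039813149)) (C.cons (nat_lit 204) (C.miq (nat_lit 2590444338) (nat_lit 1470065695882475508039682077)) (C.cons (nat_lit 142) (C.miq (nat_lit 2591099683) (nat_lit 1415661783497040460306581533)) (C.cons (nat_lit 140) (C.node (nat_lit 1)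 (nat_lit 2) (nat_lit 7) (C.cons (nat_lit 198) (C.node (nat_lit 1) (nat_lit 7) (nat_lit 8) (C.cons (nat_lit 898) (C.miq (nat_lit 2540339488) (nat_lit 1470124650848141574391791879)) (C.cons (nat_lit 386) (C.node (nat_lit 1) (nat_lit 8) (nat_lit 10) (C.cons (nat_lit 1346) (C.miq (nat_lit 907197056) (nat_lit 239405627056100779152051969)) (C.cons (nat_lit 1282) (C.node (nat_lit 6) (nat_lit 8) (nat_lit 10) (C.cons (nat_lit 1344) (C.node (nat_lit 2) (nat_lit 6) (nat_lit 11) (C.cons (nat_lit 2628) (C.miq (nat_lit 448163986) (nat_lit 3800866429653344414637228677)) (C.cons (nat_lit 2116) (C.node (nat_lit 3) (nat_lit 8) (nat_lit 11) (C.cons (nat_lit 2314) (C.miq (nat_lit 824621066) (nat_lit 239425309498398545178595073)) C.nil)) C.nil))) C.nil)) C.nil))) C.nil))) (C.cons (nat_lit 134) (C.node (nat_lit 1) (nat_lit 3) (nat_lit 10) (C.cons (nat_lit 1038) (C.node (nat_lit 1) (nat_lit 8) (nat_lit 10) (C.cons (nat_lit 1346) (C.miq (nat_lit 1629726731) (nat_lit 1254922997702219274540355329))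 (C.cons (nat_lit 1282) (C.node (nat_lit 6) (nat_lit 8) (nat_lit 10) (C.cons (nat_lit 1344) (C.node (nat_lit 3) (nat_lit 8) (nat_lit 11) (C.cons (nat_lit 2314) (C.miq (nat_lit 1662167936) (nat_lit 1254885163936224913234792193)) (C.cons (nat_lit 2312) (C.node (nat_lit 1) (nat_lit 8) (nat_lit 11) C.nil) C.nil))) C.nil)) C.nil))) (C.cons (nat_lit 1034) (C.node (nat_lit 1) (nat_lit 2) (nat_lit 10) (C.cons (nat_lit 1542) (C.miq (nat_lit 1361558160) (nat_lit 162037990151907751766593281)) (C.cons (nat_lit 1030) (C.node (nat_lit 2) (nat_lit 3) (nat_lit 10) (C.cons (nat_lit 1548) (C.miq (nat_lit 1663548048) (nat_lit 169291545080291601699639041)) (C.cons (nat_lit 1036) (C.node (nat_lit 1) (nat_lit 8) (nat_lit 10) (C.cons (nat_lit 1346) (C.node (nat_lit 1) (nat_lit 9) (nat_lit 10) C.nil) C.nil)) C.nil))) C.nil))) C.nil))) C.nil))) C.nil))))) C.nil))))) C.nil)))) C.nil))) C.nil))) C.nil)))) C.nil))) C.nil))) C.nil)))) (C.cons (nat_lit 1184) (C.node (nat_lit 7)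 (nat_lit 8) (nat_lit 10) (C.cons (nat_lit 1408) (C.node (nat_lit 1) (nat_lit 2) (nat_lit 10) (C.cons (nat_lit 1542) (C.miq (nat_lit 352955250) (nat_lit 678235830557439667304991876)) (C.cons (nat_lit 1038) (C.node (nat_lit 1) (nat_lit 8) (nat_lit 10) (C.cons (nat_lit 1346) (C.miq (nat_lit 1629726731) (nat_lit 1254922997702219274540355329)) (C.cons (nat_lit 1282) (C.node (nat_lit 1) (nat_lit 3) (nat_lit 11) (C.cons (nat_lit 2314) (C.miq (nat_lit 1662167936) (nat_lit 1254885163936224913234792193)) (C.cons (nat_lit 2186) (C.miq (nat_lit 1729760050) (nat_lit 1415672297699805339050706973)) (C.cons (nat_lit 2058) (C.node (nat_lit 3) (nat_lit 7) (nat_lit 11) (C.cons (nat_lit 2696) (C.miq (nat_lit 2476899168) (nat_lit 1254876899668782666666543329)) (C.cons (nat_lit 2184) (C.node (nat_lit 3) (nat_lit 8) (nat_lit 11) (C.cons (nat_lit 2344) (C.miq (nat_lit 461874480) (nat_lit 2940129195314359811862758441)) (C.cons (nat_lit 2312) (C.node (nat_lit 2) (nat_lit 4)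 (nat_lit 10) (C.cons (nat_lit 1556) (C.miq (nat_lit 1470696228) (nat_lit 2011662913101974681010047005)) (C.cons (nat_lit 1332) (C.miq (nat_lit 2510357539) (nat_lit 3754933243528101949632022557)) (C.cons (nat_lit 1300) (C.miq (nat_lit 1739066148) (nat_lit 1702173771209957101328926749))
  (C.cons (nat_lit 1076) (C.miq (nat_lit 2510357539) (nat_lit 3754933243528100850120394781)) (C.cons (nat_lit 1044) (C.node (nat_lit 1) (nat_lit 6) (nat_lit 10) (C.cons (nat_lit 1602) (C.node (nat_lit 3) (nat_lit 9) (nat_lit 10) (C.cons (nat_lit 1560) (C.miq (nat_lit 1453919028) (nat_lit 1936709512285867414480488477)) (C.cons (nat_lit 1544) (C.node (nat_lit 4) (nat_lit 9) (nat_lit 10) (C.cons (nat_lit 1552) (C.node (nat_lit 2) (nat_lit 8) (nat_lit 10) (C.cons (nat_lit 1316) (C.node (nat_lit 2) (nat_lit 9) (nat_lit 10) C.nil) C.nil)) C.nil)) C.nil))) (C.cons (nat_lit 1090) (C.node (nat_lit 1) (nat_lit 9) (nat_lit 10) (C.cons (nat_lit 1538) (C.node (nat_lit 2) (nat_lit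 8) (nat_lit 10) (C.cons (nat_lit 1316) (C.node (nat_lit 2) (nat_lit 9) (nat_lit 10) C.nil) C.nil)) C.nil)) C.nil))) C.nil)))))) C.nil))) C.nil))) C.nil)))) C.nil))) (C.cons (nat_lit 1030) (C.node (nat_lit 1) (nat_lit 3) (nat_lit 10) (C.cons (nat_lit 1290) (C.miq (nat_lit 410755845) (nat_lit 2940164889252975502780597289)) (C.cons (nat_lit 1034) (C.node (nat_lit 1) (nat_lit 8) (nat_lit 10) (C.cons (nat_lit 1346) (C.node (nat_lit 1) (nat_lit 9) (nat_lit 10) (C.cons (nat_lit 1538) (C.node (nat_lit 6) (nat_lit 8) (nat_lit 11) (C.cons (nat_lit 2372) (C.miq (nat_lit 414492192) (nat_lit 2804729503022125505654359109)) (C.cons (nat_lit 2368) (C.node (nat_lit 2) (nat_lit 3) (nat_lit 10) (C.cons (nat_lit 1548) (C.miq (nat_lit 1788326688) (nat_lit 2011694494172986463951849501)) (C.cons (nat_lit 1292) (C.miq (nat_lit 380668466) (nat_lit 2747893239856622321885054220)) (C.cons (nat_lit 1036) (C.node (nat_lit 3) (nat_lit 8) (nat_lit 10) (C.cons (nat_lit 1304) (C.node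 (nat_lit 3) (nat_lit 9) (nat_lit 10) C.nil) C.nil)) C.nil)))) C.nil))) C.nil)) (C.cons (nat_lit 1282) (C.node (nat_lit 1) (nat_lit 6) (nat_lit 10) (C.cons (nat_lit 1602) (C.node (nat_lit 3) (nat_lit 9) (nat_lit 10) (C.cons (nat_lit 1560) (C.miq (nat_lit 1453919028) (nat_lit 1936709512285867414480488477)) (C.cons (nat_lit 1548) (C.miq (nat_lit 1788326688) (nat_lit 2011694494172986463951849501)) (C.cons (nat_lit 1544) (C.node (nat_lit 4) (nat_lit 9) (nat_lit 10) (C.cons (nat_lit 1556) (C.miq (nat_lit 1470696228) (nat_lit 2011662913101974681010047005)) C.nil)) C.nil)))) (C.cons (nat_lit 1090) (C.node (nat_lit 1) (nat_lit 9) (nat_lit 10) (C.cons (nat_lit 1538) (C.node (nat_lit 6) (nat_lit 8) (nat_lit 10) (C.cons (nat_lit 1344) (C.node (nat_lit 2) (nat_lit 3) (nat_lit 10) C.nil) C.nil)) C.nil)) C.nil))) C.nil))) C.nil))) C.nil)))) C.nil)) C.nil))) C.nil))) C.nil))) C.nil))) C.nil))) C.nil)))) (C.cons (nat_lit 3080) (C.node (nat_lit 6) (nat_lit 10) (nat_lit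 11) (C.cons (nat_lit 3136) (C.node (nat_lit 4) (nat_lit 5) (nat_lit 11) (C.cons (nat_lit 2352) (C.node (nat_lit 2) (nat_lit 5) (nat_lit 11) (C.cons (nat_lit 2596) (C.miq (nat_lit 1537512048) (nat_lit 3733173280324123043243950725)) (C.cons (nat_lit 2084) (C.node (nat_lit 2) (nat_lit 8) (nat_lit 11) (C.cons (nat_lit 2372) (C.miq (nat_lit 2072289888) (nat_lit 2843415129772774145859322949)) (C.cons (nat_lit 2308) (C.node (nat_lit 3) (nat_lit 5) (nat_lit 11) (C.cons (nat_lit 2600) (C.node (nat_lit 3) (nat_lit 7) (nat_lit 11) (C.cons (nat_lit 2186) (C.miq (nat_lit 1094256565) (nat_lit 632278552611492996126869729)) (C.cons (nat_lit 2184) (C.node (nat_lit 1) (nat_lit 7) (nat_lit 11) (C.cons (nat_lit 2690) (C.miq (nat_lit 2710767541) (nat_lit 632287849770508310404401377)) (C.cons (nat_lit 2178) (C.node (nat_lit 7) (nat_lit 9) (nat_lit 11) (C.cons (nat_lit 2688) (C.node (nat_lit 5) (nat_lit 7) (nat_lit 4) (C.cons (nat_lit 180) (C.miq (nat_lit 2502624378) (nat_lit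 2519472262178782553714197651)) (C.cons (nat_lit 184) (C.miq (nat_lit 1941587344) (nat_lit 3723513125602170734861419057)) (C.cons (nat_lit 176) (C.node (nat_lit 8) (nat_lit 3) (nat_lit 11) (C.cons (nat_lit 2376) (C.miq (nat_lit 956740936) (nat_lit 697594028113397516646549808)) (C.cons (nat_lit 2314) (C.miq (nat_lit 406862681) (nat_lit 407417649508623779879782952)) (C.cons (nat_lit 2312)
  (C.node (nat_lit 1) (nat_lit 8) (nat_lit 11) (C.cons (nat_lit 2370) (C.node (nat_lit 1) (nat_lit 3) (nat_lit 11) C.nil) C.nil)) C.nil)))) C.nil)))) C.nil)) C.nil))) C.nil))) (C.cons (nat_lit 2088) (C.node (nat_lit 5) (nat_lit 9) (nat_lit 11) (C.cons (nat_lit 2592) (C.ref (nat_lit 241) (nat_lit 198064386771216)) C.nil)) C.nil))) C.nil))) C.nil))) (C.cons (nat_lit 2096) (C.ref (nat_lit 300) (nat_lit 205163983024656)) C.nil))) C.nil)) C.nil))) (C.cons (nat_lit 3104) (C.ref (nat_lit 306) (nat_lit 205163983024656)) C.nil))) (C.cons (nat_lit 2182) (C.ref (nat_lit 307) (nat_lit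 205163983024656)) (C.cons (nat_lit 2180) (C.node (nat_lit 7) (nat_lit 10) (nat_lit 11) (C.cons (nat_lit 3208) (C.node (nat_lit 1) (nat_lit 7) (nat_lit 11) (C.cons (nat_lit 2690) (C.ref (nat_lit 295) (nat_lit 205099542782736)) (C.cons (nat_lit 2178) (C.node (nat_lit 7) (nat_lit 9) (nat_lit 11) (C.cons (nat_lit 2688) (C.ref (nat_lit 309) (nat_lit 205163983024656)) C.nil)) C.nil))) (C.cons (nat_lit 3200) (C.node (nat_lit 1) (nat_lit 7) (nat_lit 11) (C.cons (nat_lit 2690) (C.ref (nat_lit 310) (nat_lit 205163983024656)) (C.cons (nat_lit 2186) (C.ref (nat_lit 310) (nat_lit 198128827013136)) (C.cons (nat_lit 2178) (C.node (nat_lit 3) (nat_lit 7) (nat_lit 11) (C.cons (nat_lit 2696) (C.ref (nat_lit 293) (nat_lit 205099542782736)) (C.cons (nat_lit 2184) (C.node (nat_lit 7) (nat_lit 9) (nat_lit 11) (C.cons (nat_lit 2688) (C.node (nat_lit 2) (nat_lit 8) (nat_lit 11) (C.cons (nat_lit 2372) (C.node (nat_lit 2) (nat_lit 10) (nat_lit 11) (C.cons (nat_lit 3110) (C.miq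 (nat_lit 1805943312) (nat_lit 3733169148190399733794275591)) (C.cons (nat_lit 3108) (C.node (nat_lit 4) (nat_lit 8) (nat_lit 11) (C.cons (nat_lit 2354) (C.miq (nat_lit 1800022032) (nat_lit 3733183093928916211220021511)) (C.cons (nat_lit 2352) (C.miq (nat_lit 1409988706) (nat_lit 1415709467911342445566429508)) (C.cons (nat_lit 2322) (C.miq (nat_lit 1800022032) (nat_lit 3733183093928916073781068039)) (C.cons (nat_lit 2320) (C.node (nat_lit 1) (nat_lit 2) (nat_lit 11) (C.cons (nat_lit 2566) (C.node (nat_lit 1) (nat_lit 2) (nat_lit 10) (C.cons (nat_lit 1038) (C.miq (nat_lit 1377020816) (nat_lit 1254884647417258832554561281)) (C.cons (nat_lit 1030) (C.node (nat_lit 4) (nat_lit 9) (nat_lit 11) (C.cons (nat_lit 2640) (C.miq (nat_lit 2483140226) (nat_lit 1415699469857119288227727684)) (C.cons (nat_lit 2576) (C.node (nat_lit 5) (nat_lit 9) (nat_lit 11) (C.cons (nat_lit 2600) (C.miq (nat_lit 312515411) (nat_lit 1321365569208218377117043240)) (C.cons (nat_lit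 2592) (C.node (nat_lit 3) (nat_lit 9) (nat_lit 11) (C.cons (nat_lit 2632) (C.miq (nat_lit 914397985) (nat_lit 407417649598132908353587718)) C.nil)) C.nil))) C.nil))) C.nil))) (C.cons (nat_lit 2054) (C.node (nat_lit 2) (nat_lit 9) (nat_lit 11) (C.cons (nat_lit 2564) (C.node (nat_lit 4) (nat_lit 5) (nat_lit 11) (C.cons (nat_lit 2098) (C.node (nat_lit 5) (nat_lit 8) (nat_lit 11) (C.cons (nat_lit 2344) (C.miq (nat_lit 2198255010) (nat_lit 88295341168592688431565860)) C.nil)) (C.cons (nat_lit 2096) (C.node (nat_lit 3) (nat_lit 9) (nat_lit 11) C.nil) C.nil))) C.nil)) C.nil))) C.nil))))) (C.cons (nat_lit 3078) (C.miq (nat_lit 1805943312) (nat_lit 3733169148190399596355322119)) (C.cons (nat_lit 3076) (C.node (nat_lit 5) (nat_lit 10) (nat_lit 11) (C.cons (nat_lit 3106) (C.node (nat_lit 1) (nat_lit 8) (nat_lit 10) (C.cons (nat_lit 1354) (C.miq (nat_lit 2276536410) (nat_lit 2633065412122767573754446889)) (C.cons (nat_lit 1346) (C.miq (nat_lit 1783333122) (nat_lit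 3733206687025788078744469767)) (C.cons (nat_lit 1290) (C.miq (nat_lit 2276536410) (nat_lit 2633064231531146856343143465)) (C.cons (nat_lit 1282) (C.node (nat_lit 1) (nat_lit 2) (nat_lit 11) (C.cons (nat_lit 2566) (C.node (nat_lit 2) (nat_lit 5) (nat_lit 11) (C.cons (nat_lit 2084) (C.node (nat_lit 4) (nat_lit 9) (nat_lit 11) (C.cons (nat_lit 2640) (C.miq (nat_lit 2483140226) (nat_lit 1415699469857119288227727684)) (C.cons (nat_lit 2576) (C.node (nat_lit 6) (nat_lit 9) (nat_lit 11) (C.cons (nat_lit 2632)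
  (C.miq (nat_lit 914397985) (nat_lit 407417649598132908353587718)) C.nil)) C.nil))) C.nil)) (C.cons (nat_lit 2054) (C.node (nat_lit 2) (nat_lit 5) (nat_lit 11) (C.cons (nat_lit 2596) (C.node (nat_lit 3) (nat_lit 5) (nat_lit 11) (C.cons (nat_lit 2344) (C.miq (nat_lit 461874480) (nat_lit 2940129195314359811862758441)) (C.cons (nat_lit 2088) (C.node (nat_lit 4) (nat_lit 5) (nat_lit 11) (C.cons (nat_lit 2352) (C.miq (nat_lit 1653640020) (nat_lit 779763370871858452333922608)) C.nil)) C.nil))) (C.cons (nat_lit 2084) (C.node (nat_lit 2) (nat_lit 9) (nat_lit 11) (C.cons (nat_lit 2564) (C.node (nat_lit 3) (nat_lit 10) (nat_lit 11) C.nil) C.nil)) C.nil))) C.nil))) C.nil))))) (C.cons (nat_lit 3104) (C.node (nat_lit 4) (nat_lit 8) (nat_lit 11) (C.cons (nat_lit 2354) (C.miq (nat_lit 1800022032) (nat_lit 3733183093928916211220021511)) (C.cons (nat_lit 2352) (C.node (nat_lit 1) (nat_lit 8) (nat_lit 11) (C.cons (nat_lit 2314) (C.node (nat_lit 1) (nat_lit 4) (nat_lit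 8) (C.cons (nat_lit 786) (C.miq (nat_lit 1478052656) (nat_lit 950226043502562966189574173)) (C.cons (nat_lit 274) (C.node (nat_lit 3) (nat_lit 5) (nat_lit 11) (C.cons (nat_lit 2600) (C.miq (nat_lit 2214704531) (nat_lit 1415694821196548882217765416)) (C.cons (nat_lit 2088) (C.node (nat_lit 3) (nat_lit 9) (nat_lit 11) (C.cons (nat_lit 2632) (C.miq (nat_lit 647007025) (nat_lit 697555050079002368563415306)) C.nil)) C.nil))) C.nil))) (C.cons (nat_lit 2306) (C.node (nat_lit 3) (nat_lit 8) (nat_lit 11) (C.cons (nat_lit 2312) (C.node (nat_lit 9) (nat_lit 3) (nat_lit 11) C.nil) C.nil)) C.nil))) (C.cons (nat_lit 2322) (C.miq (nat_lit 1800022032) (nat_lit 3733183093928916073781068039)) (C.cons (nat_lit 2320) (C.node (nat_lit 4) (nat_lit 5) (nat_lit 11) (C.cons (nat_lit 2098) (C.node (nat_lit 2) (nat_lit 5) (nat_lit 11) (C.cons (nat_lit 2596) (C.miq (nat_lit 722965824) (nat_lit 2633052334001307935629836849)) (C.cons (nat_lit 2084) (C.node (nat_lit 1) (nat_lit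 2) (nat_lit 11) C.nil) C.nil))) (C.cons (nat_lit 2096) (C.node (nat_lit 2) (nat_lit 6) (nat_lit 7) (C.cons (nat_lit 212) (C.miq (nat_lit 2871461988) (nat_lit 2635479888978357487966355793)) (C.cons (nat_lit 206) (C.miq (nat_lit 2820737895) (nat_lit 317969092777113360054225121)) (C.cons (nat_lit 204) (C.node (nat_lit 6) (nat_lit 7) (nat_lit 10) (C.cons (nat_lit 1728) (C.miq (nat_lit 2537268768) (nat_lit 2640364844468726872011506757)) (C.cons (nat_lit 1472) (C.miq (nat_lit 1114049418) (nat_lit 246642468923328379911933697)) (C.cons (nat_lit 1216) (C.node (nat_lit 6) (nat_lit 7) (nat_lit 8) (C.cons (nat_lit 962) (C.miq (nat_lit 321294520) (nat_lit 246638613116403593850916609)) (C.cons (nat_lit 960) (C.miq (nat_lit 998645911) (nat_lit 2867575807846331462811910789)) (C.cons (nat_lit 450) (C.miq (nat_lit 1115753319) (nat_lit 317969092280591501152618721)) (C.cons (nat_lit 448) (C.ref (nat_lit 311) (nat_lit 205163983024656)) C.nil))))) C.nil)))) (C.cons (nat_lit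 198) (C.miq (nat_lit 2820737895) (nat_lit 317969092777113360053700833)) (C.cons (nat_lit 196) (C.node (nat_lit 6) (nat_lit 7) (nat_lit 8) (C.cons (nat_lit 1472) (C.miq (nat_lit 1114049418) (nat_lit 236971062366411346514284289)) (C.cons (nat_lit 962) (C.miq (nat_lit 1115753319) (nat_lit 317969092280591501186173153)) (C.cons (nat_lit 960) (C.node (nat_lit 4) (nat_lit 6) (nat_lit 7) (C.cons (nat_lit 216) (C.miq (nat_lit 2537260608) (nat_lit 2640364844252554141437329745)) (C.cons (nat_lit 208) (C.ref (nat_lit 311) (nat_lit 198128827013136)) C.nil))) (C.cons (nat_lit 450) (C.miq (nat_lit 1115753319) (nat_lit 317969092280591501152618721)) (C.cons (nat_lit 448) (C.node (nat_lit 1) (nat_lit 6) (nat_lit 7) (C.cons (nat_lit 706) (C.node (nat_lit 1) (nat_lit 7) (nat_lit 8) (C.cons (nat_lit 418) (C.node (nat_lit 5) (nat_lit 8) (nat_lit 11) (C.cons (nat_lit 2344) (C.miq (nat_lit 364148784) (nat_lit 2533930119167239671873601929)) (C.cons (nat_lit 2336) (C.node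 (nat_lit 1) (nat_lit 8) (nat_lit 11) C.nil) C.nil))) (C.cons (nat_lit 386) (C.node (nat_lit 4) (nat_lit 6) (nat_lit 7) (C.cons (nat_lit 216)
  (C.node (nat_lit 6) (nat_lit 7) (nat_lit 10) (C.cons (nat_lit 1216) (C.node (nat_lit 4) (nat_lit 6) (nat_lit 11) (C.cons (nat_lit 2640) (C.miq (nat_lit 2524492848) (nat_lit 541669621874435854910949405)) (C.cons (nat_lit 2130) (C.miq (nat_lit 2528276800) (nat_lit 2867583942474558427038024851)) (C.cons (nat_lit 2128) (C.node (nat_lit 1) (nat_lit 4) (nat_lit 11) C.nil) C.nil)))) C.nil)) (C.cons (nat_lit 208) (C.node (nat_lit 3) (nat_lit 6) (nat_lit 7) (C.cons (nat_lit 1224) (C.node (nat_lit 3) (nat_lit 6) (nat_lit 11) (C.cons (nat_lit 2632) (C.miq (nat_lit 1133579111) (nat_lit 632289805380396203284498657)) (C.cons (nat_lit 2122) (C.miq (nat_lit 588843879) (nat_lit 632280102393011241627027681)) (C.cons (nat_lit 2120) (C.node (nat_lit 3) (nat_lit 9) (nat_lit 11) C.nil) C.nil)))) (C.cons (nat_lit 200) (C.node (nat_lit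 6) (nat_lit 7) (nat_lit 10) (C.cons (nat_lit 1216) (C.node (nat_lit 1) (nat_lit 4) (nat_lit 11) (C.cons (nat_lit 2066) (C.node (nat_lit 4) (nat_lit 6) (nat_lit 11) C.nil) C.nil)) C.nil)) C.nil))) C.nil))) C.nil))) (C.cons (nat_lit 202) (C.node (nat_lit 1) (nat_lit 7) (nat_lit 2) (C.cons (nat_lit 166) (C.node (nat_lit 5) (nat_lit 2) (nat_lit 11) (C.cons (nat_lit 2596) (C.miq (nat_lit 364540560) (nat_lit 3752527345267855268293706373)) (C.cons (nat_lit 2084) (C.node (nat_lit 1) (nat_lit 2) (nat_lit 11) C.nil) C.nil))) (C.cons (nat_lit 134) (C.node (nat_lit 10) (nat_lit 6) (nat_lit 7) (C.cons (nat_lit 1728) (C.node (nat_lit 6) (nat_lit 7) (nat_lit 4) (C.cons (nat_lit 208) (C.node (nat_lit 10) (nat_lit 6) (nat_lit 11) (C.cons (nat_lit 3144) (C.miq (nat_lit 913488528) (nat_lit 236987775416873161505181441)) (C.cons (nat_lit 3138) (C.miq (nat_lit 918057376) (nat_lit 2867579293753192793411486867)) (C.cons (nat_lit 3136) (C.node (nat_lit 1) (nat_lit 10) (nat_lit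 11) C.nil) C.nil)))) C.nil)) (C.cons (nat_lit 1216) (C.node (nat_lit 9) (nat_lit 6) (nat_lit 7) (C.cons (nat_lit 720) (C.node (nat_lit 9) (nat_lit 6) (nat_lit 11) (C.cons (nat_lit 2632) (C.miq (nat_lit 2838563687) (nat_lit 632289805876918062169065697)) (C.cons (nat_lit 2626) (C.miq (nat_lit 2299726695) (nat_lit 632275454310028690368104673)) (C.cons (nat_lit 2624) (C.node (nat_lit 9) (nat_lit 3) (nat_lit 11) C.nil) C.nil)))) (C.cons (nat_lit 704) (C.node (nat_lit 6) (nat_lit 7) (nat_lit 4) (C.cons (nat_lit 208) (C.node (nat_lit 1) (nat_lit 10) (nat_lit 11) (C.cons (nat_lit 3074) (C.node (nat_lit 10) (nat_lit 6) (nat_lit 11) C.nil) C.nil)) C.nil)) C.nil))) C.nil))) C.nil))) (C.cons (nat_lit 194) (C.node (nat_lit 3) (nat_lit 9) (nat_lit 11) (C.cons (nat_lit 2632) (C.node (nat_lit 3) (nat_lit 10) (nat_lit 11) C.nil) (C.cons (nat_lit 2600) (C.node (nat_lit 2) (nat_lit 5) (nat_lit 11) C.nil) (C.cons (nat_lit 2568) (C.node (nat_lit 1) (nat_lit 2) (nat_lit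 11) C.nil) C.nil)))) C.nil)))) C.nil)))))) C.nil)))))) C.nil))) C.nil))))) C.nil))) C.nil))))) (C.cons (nat_lit 2340) (C.node (nat_lit 2) (nat_lit 10) (nat_lit 11) (C.cons (nat_lit 3078) (C.node (nat_lit 5) (nat_lit 10) (nat_lit 11) (C.cons (nat_lit 3104) (C.node (nat_lit 4) (nat_lit 8) (nat_lit 11) (C.cons (nat_lit 2322) (C.miq (nat_lit 1656228372) (nat_lit 2828892634758650478537606291)) (C.cons (nat_lit 2320) (C.node (nat_lit 2) (nat_lit 6) (nat_lit 11) (C.cons (nat_lit 2628) (C.node (nat_lit 4) (nat_lit 9) (nat_lit 11) (C.cons (nat_lit 2578) (C.miq (nat_lit 2516890273) (nat_lit 407455557656072988371651590)) (C.cons (nat_lit 2576) (C.node (nat_lit 1) (nat_lit 9) (nat_lit 11) (C.cons (nat_lit 2594) (C.node (nat_lit 3) (nat_lit 5) (nat_lit 11) C.nil) C.nil)) C.nil))) (C.cons (nat_lit 2116) (C.node (nat_lit 2) (nat_lit 9) (nat_lit 11) (C.cons (nat_lit 2564) (C.node (nat_lit 3) (nat_lit 10) (nat_lit 11) C.nil) C.nil)) C.nil))) C.nil))) C.nil)) (C.cons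 (nat_lit 3076) (C.node (nat_lit 4) (nat_lit 5) (nat_lit 11) (C.cons (nat_lit 2098) (C.node (nat_lit 4) (nat_lit 8) (nat_lit 11) (C.cons (nat_lit 2320) (C.node (nat_lit 5) (nat_lit 10) (nat_lit 11) (C.cons (nat_lit 3104) (C.node (nat_lit 3) (nat_lit 5) (nat_lit 11)
  (C.cons (nat_lit 2600) (C.node (nat_lit 4) (nat_lit 6) (nat_lit 11) (C.cons (nat_lit 2640) (C.node (nat_lit 1) (nat_lit 9) (nat_lit 11) (C.cons (nat_lit 2566) (C.miq (nat_lit 897620769) (nat_lit 349389210247623371273996806)) C.nil)) C.nil)) (C.cons (nat_lit 2088) (C.node (nat_lit 5) (nat_lit 9) (nat_lit 11) C.nil) C.nil))) C.nil)) C.nil)) (C.cons (nat_lit 2096) (C.node (nat_lit 4) (nat_lit 8) (nat_lit 11) (C.cons (nat_lit 2322) (C.node (nat_lit 8) (nat_lit 6) (nat_lit 11) (C.cons (nat_lit 2376) (C.node (nat_lit 10) (nat_lit 3) (nat_lit 11) (C.cons (nat_lit 3082) (C.miq (nat_lit 906672193) (nat_lit 1321412774372810852937173266)) (C.cons (nat_lit 3080) (C.node (nat_lit 1) (nat_lit 3) (nat_lit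 11) (C.cons (nat_lit 2090) (C.node (nat_lit 9) (nat_lit 5) (nat_lit 11) C.nil) C.nil)) C.nil))) (C.cons (nat_lit 2368) (C.node (nat_lit 8) (nat_lit 3) (nat_lit 11) (C.cons (nat_lit 2312) (C.node (nat_lit 9) (nat_lit 4) (nat_lit 11) C.nil) C.nil)) C.nil))) (C.cons (nat_lit 2320) (C.node (nat_lit 5) (nat_lit 10) (nat_lit 11) (C.cons (nat_lit 3106) (C.node (nat_lit 9) (nat_lit 5) (nat_lit 11) (C.cons (nat_lit 2600) (C.node (nat_lit 10) (nat_lit 6) (nat_lit 11) (C.cons (nat_lit 3144) (C.node (nat_lit 1) (nat_lit 3) (nat_lit 11) (C.cons (nat_lit 2314) (C.miq (nat_lit 2501917569) (nat_lit 44739903704736819248040202)) C.nil)) C.nil)) (C.cons (nat_lit 2592) (C.node (nat_lit 5) (nat_lit 3) (nat_lit 11) C.nil) C.nil))) (C.cons (nat_lit 3104) (C.node (nat_lit 1) (nat_lit 5) (nat_lit 11) (C.cons (nat_lit 2594) (C.node (nat_lit 3) (nat_lit 5) (nat_lit 11) C.nil) (C.cons (nat_lit 2090) (C.node (nat_lit 9) (nat_lit 5) (nat_lit 11) C.nil) (C.cons (nat_lit 2082) (C.node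 (nat_lit 3) (nat_lit 5) (nat_lit 11) C.nil) C.nil)))) C.nil))) C.nil))) C.nil))) C.nil))) (C.cons (nat_lit 2308) (C.node (nat_lit 3) (nat_lit 9) (nat_lit 11) (C.cons (nat_lit 2632) (C.node (nat_lit 2) (nat_lit 6) (nat_lit 11) (C.cons (nat_lit 2118) (C.node (nat_lit 4) (nat_lit 6) (nat_lit 11) (C.cons (nat_lit 2128) (C.node (nat_lit 6) (nat_lit 8) (nat_lit 11) (C.cons (nat_lit 2368) (C.node (nat_lit 6) (nat_lit 10) (nat_lit 11) (C.cons (nat_lit 3136) (C.node (nat_lit 2) (nat_lit 9) (nat_lit 11) C.nil) C.nil)) C.nil)) C.nil)) (C.cons (nat_lit 2116) (C.node (nat_lit 3) (nat_lit 10) (nat_lit 11) (C.cons (nat_lit 3082) (C.node (nat_lit 6) (nat_lit 10) (nat_lit 11) (C.cons (nat_lit 3136) (C.node (nat_lit 4) (nat_lit 9) (nat_lit 11) (C.cons (nat_lit 2578) (C.miq (nat_lit 1404635668) (nat_lit 3181903106148913426340119699)) (C.cons (nat_lit 2576) (C.node (nat_lit 2) (nat_lit 10) (nat_lit 11) C.nil) C.nil))) C.nil)) (C.cons (nat_lit 3080) (C.node (nat_lit 4)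 (nat_lit 6) (nat_lit 11) (C.cons (nat_lit 2130) (C.node (nat_lit 4) (nat_lit 9) (nat_lit 11) (C.cons (nat_lit 2576) (C.node (nat_lit 6) (nat_lit 8) (nat_lit 11) C.nil) C.nil)) (C.cons (nat_lit 2128) (C.node (nat_lit 4) (nat_lit 9) (nat_lit 11) (C.cons (nat_lit 2578) (C.node (nat_lit 2) (nat_lit 9) (nat_lit 11) C.nil) (C.cons (nat_lit 2576) (C.node (nat_lit 6) (nat_lit 8) (nat_lit 11) C.nil) C.nil))) C.nil))) C.nil))) C.nil))) (C.cons (nat_lit 2600) (C.node (nat_lit 3) (nat_lit 10) (nat_lit 11) (C.cons (nat_lit 3146) (C.miq (nat_lit 1537512208) (nat_lit 3733173280325248694042690059)) (C.cons (nat_lit 3144) (C.node (nat_lit 4) (nat_lit 9) (nat_lit 11) (C.cons (nat_lit 2642) (C.miq (nat_lit 440090713) (nat_lit 3800911513495848637950329393)) (C.cons (nat_lit 2640) (C.miq (nat_lit 1678424403) (nat_lit 1415710132075194854473796136)) (C.cons (nat_lit 2578) (C.miq (nat_lit 440090713) (nat_lit 3800910332904227920539025969)) (C.cons (nat_lit 2576) (C.node (nat_lit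 1) (nat_lit 3) (nat_lit 11) (C.cons (nat_lit 2314) (C.node (nat_lit 6) (nat_lit 8) (nat_lit 11) (C.cons (nat_lit 2368) (C.node (nat_lit 4) (nat_lit 8) (nat_lit 11) (C.cons (nat_lit 2352) (C.miq (nat_lit 2214704531) (nat_lit 1415694821196548882217765416)) C.nil)) C.nil)) (C.cons (nat_lit 2058) (C.node (nat_lit 3) (nat_lit 8) (nat_lit 11) (C.cons (nat_lit 2312)
  (C.node (nat_lit 4) (nat_lit 6) (nat_lit 11) C.nil) C.nil)) C.nil))) C.nil))))) (C.cons (nat_lit 3082) (C.miq (nat_lit 1537512208) (nat_lit 3733173280325248419164783115)) (C.cons (nat_lit 3080) (C.node (nat_lit 6) (nat_lit 10) (nat_lit 11) (C.cons (nat_lit 3138) (C.node (nat_lit 2) (nat_lit 6) (nat_lit 11) (C.cons (nat_lit 2628) (C.miq (nat_lit 462923296) (nat_lit 3249614205144713299629507653)) (C.cons (nat_lit 2116) (C.node (nat_lit 1) (nat_lit 9) (nat_lit 10) (C.cons (nat_lit 1574) (C.miq (nat_lit 2544967786) (nat_lit 2633069470477395483988984901)) (C.cons (nat_lit 1570) (C.miq (nat_lit 1514901763)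 (nat_lit 3733210892946487279305425419)) (C.cons (nat_lit 1542) (C.miq (nat_lit 2544967786) (nat_lit 2633068880181585125283333189)) (C.cons (nat_lit 1538) (C.node (nat_lit 1) (nat_lit 3) (nat_lit 11) (C.cons (nat_lit 2314) (C.node (nat_lit 3) (nat_lit 6) (nat_lit 11) C.nil) (C.cons (nat_lit 2058) (C.node (nat_lit 2) (nat_lit 9) (nat_lit 11) C.nil) C.nil))) C.nil))))) C.nil))) (C.cons (nat_lit 3136) (C.node (nat_lit 4) (nat_lit 9) (nat_lit 11) (C.cons (nat_lit 2642) (C.miq (nat_lit 440090713) (nat_lit 3723540261040512370769134129)) (C.cons (nat_lit 2640) (C.node (nat_lit 1) (nat_lit 9) (nat_lit 11) (C.cons (nat_lit 2566) (C.node (nat_lit 2) (nat_lit 6) (nat_lit 11) C.nil) (C.cons (nat_lit 2562) (C.node (nat_lit 2) (nat_lit 9) (nat_lit 11) C.nil) C.nil))) (C.cons (nat_lit 2578) (C.miq (nat_lit 440090713) (nat_lit 3723539080448891653357830705)) (C.cons (nat_lit 2576) (C.node (nat_lit 4) (nat_lit 6) (nat_lit 11) (C.cons (nat_lit 2130) (C.node (nat_lit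 1) (nat_lit 3) (nat_lit 11) C.nil) (C.cons (nat_lit 2128) (C.node (nat_lit 1) (nat_lit 3) (nat_lit 11) C.nil) C.nil))) C.nil))))) C.nil))) C.nil))))) (C.cons (nat_lit 2568) (C.node (nat_lit 2) (nat_lit 6) (nat_lit 11) (C.cons (nat_lit 2630) (C.node (nat_lit 4) (nat_lit 6) (nat_lit 11) (C.cons (nat_lit 2128) (C.node (nat_lit 4) (nat_lit 9) (nat_lit 11) (C.cons (nat_lit 2576) (C.node (nat_lit 5) (nat_lit 9) (nat_lit 11) (C.cons (nat_lit 2592) (C.node (nat_lit 2) (nat_lit 5) (nat_lit 11) (C.cons (nat_lit 2084) (C.node (nat_lit 2) (nat_lit 10) (nat_lit 11) C.nil) C.nil)) C.nil)) C.nil)) C.nil)) (C.cons (nat_lit 2628) (C.node (nat_lit 4) (nat_lit 6) (nat_lit 11) (C.cons (nat_lit 2130) (C.node (nat_lit 4) (nat_lit 9) (nat_lit 11) (C.cons (nat_lit 2576) (C.node (nat_lit 6) (nat_lit 8) (nat_lit 11) (C.cons (nat_lit 2376) (C.miq (nat_lit 991397440) (nat_lit 2633047685359877003385438545)) (C.cons (nat_lit 2368) (C.node (nat_lit 1) (nat_lit 9) (nat_lit 11) C.nil)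 C.nil))) C.nil)) (C.cons (nat_lit 2128) (C.node (nat_lit 4) (nat_lit 9) (nat_lit 11) (C.cons (nat_lit 2578) (C.node (nat_lit 5) (nat_lit 9) (nat_lit 11) (C.cons (nat_lit 2592) (C.node (nat_lit 4) (nat_lit 5) (nat_lit 11) C.nil) C.nil)) (C.cons (nat_lit 2576) (C.node (nat_lit 1) (nat_lit 9) (nat_lit 11) (C.cons (nat_lit 2594) (C.node (nat_lit 1) (nat_lit 2) (nat_lit 11) C.nil) (C.cons (nat_lit 2562) (C.node (nat_lit 5) (nat_lit 9) (nat_lit 11) C.nil) C.nil))) C.nil))) C.nil))) (C.cons (nat_lit 2118) (C.node (nat_lit 2) (nat_lit 9) (nat_lit 11) (C.cons (nat_lit 2596) (C.node (nat_lit 2) (nat_lit 10) (nat_lit 11) (C.cons (nat_lit 3076) (C.node (nat_lit 1) (nat_lit 2) (nat_lit 4) (C.cons (nat_lit 534) (C.miq (nat_lit 2065761684) (nat_lit 2560526487720898677746041393)) (C.cons (nat_lit 54) (C.miq (nat_lit 2871069012) (nat_lit 2560526488162251441196892721)) (C.cons (nat_lit 22) (C.node (nat_lit 1) (nat_lit 2) (nat_lit 9) (C.cons (nat_lit 1542) (C.node (nat_lit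 1) (nat_lit 9) (nat_lit 11) (C.cons (nat_lit 2578) (C.node (nat_lit 4) (nat_lit 6) (nat_lit 11) C.nil) (C.cons (nat_lit 2562) (C.node (nat_lit 4) (nat_lit 6) (nat_lit 11) C.nil) C.nil))) (C.cons (nat_lit 518) (C.node (nat_lit 1) (nat_lit 9) (nat_lit 11) (C.cons (nat_lit 2578) (C.node (nat_lit 4) (nat_lit 6) (nat_lit 11) C.nil) (C.cons (nat_lit 2562) (C.node (nat_lit 4) (nat_lit 6) (nat_lit 11) C.nil) C.nil))) C.nil))) C.nil)))) C.nil)) (C.cons (nat_lit 2564)
  (C.node (nat_lit 2) (nat_lit 5) (nat_lit 11) (C.cons (nat_lit 3108) (C.node (nat_lit 1) (nat_lit 10) (nat_lit 11) (C.cons (nat_lit 3082) (C.node (nat_lit 6) (nat_lit 10) (nat_lit 11) C.nil) (C.cons (nat_lit 3074) (C.node (nat_lit 3) (nat_lit 10) (nat_lit 11) C.nil) C.nil))) (C.cons (nat_lit 2084) (C.node (nat_lit 2) (nat_lit 10) (nat_lit 11) (C.cons (nat_lit 3076) (C.node (nat_lit 4) (nat_lit 6) (nat_lit 11) C.nil) C.nil)) C.nil))) C.nil))) (C.cons (nat_lit 2116) (C.node (nat_lit 2) (nat_lit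 9) (nat_lit 11) (C.cons (nat_lit 2598) (C.node (nat_lit 2) (nat_lit 10) (nat_lit 11) (C.cons (nat_lit 3076) (C.node (nat_lit 5) (nat_lit 10) (nat_lit 11) (C.cons (nat_lit 3104) (C.node (nat_lit 9) (nat_lit 6) (nat_lit 11) (C.cons (nat_lit 2624) (C.node (nat_lit 9) (nat_lit 4) (nat_lit 11) C.nil) C.nil)) C.nil)) C.nil)) (C.cons (nat_lit 2596) (C.node (nat_lit 1) (nat_lit 2) (nat_lit 11) (C.cons (nat_lit 3078) (C.node (nat_lit 5) (nat_lit 10) (nat_lit 11) (C.cons (nat_lit 3104) (C.node (nat_lit 10) (nat_lit 6) (nat_lit 11) C.nil) C.nil)) (C.cons (nat_lit 2054) (C.node (nat_lit 2) (nat_lit 10) (nat_lit 11) (C.cons (nat_lit 3076) (C.node (nat_lit 5) (nat_lit 10) (nat_lit 11) C.nil) C.nil)) C.nil))) (C.cons (nat_lit 2566) (C.node (nat_lit 5) (nat_lit 9) (nat_lit 11) (C.cons (nat_lit 2592) (C.node (nat_lit 2) (nat_lit 5) (nat_lit 11) (C.cons (nat_lit 3108) (C.node (nat_lit 4) (nat_lit 9) (nat_lit 11) C.nil) (C.cons (nat_lit 2084) (C.node (nat_lit 2) (nat_lit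 10) (nat_lit 11) C.nil) C.nil))) C.nil)) (C.cons (nat_lit 2564) (C.node (nat_lit 5) (nat_lit 9) (nat_lit 11) (C.cons (nat_lit 2594) (C.node (nat_lit 1) (nat_lit 2) (nat_lit 11) (C.cons (nat_lit 3078) (C.node (nat_lit 2) (nat_lit 5) (nat_lit 11) C.nil) (C.cons (nat_lit 2054) (C.node (nat_lit 2) (nat_lit 5) (nat_lit 11) C.nil) C.nil))) (C.cons (nat_lit 2592) (C.node (nat_lit 1) (nat_lit 2) (nat_lit 11) (C.cons (nat_lit 3110) (C.node (nat_lit 3) (nat_lit 5) (nat_lit 11) (C.cons (nat_lit 2088) (C.node (nat_lit 3) (nat_lit 10) (nat_lit 11) C.nil) C.nil)) (C.cons (nat_lit 3078) (C.node (nat_lit 2) (nat_lit 5) (nat_lit 11) C.nil) (C.cons (nat_lit 2086) (C.node (nat_lit 2) (nat_lit 10) (nat_lit 11) C.nil) (C.cons (nat_lit 2054) (C.node (nat_lit 2) (nat_lit 5) (nat_lit 11) C.nil) C.nil))))) C.nil))) C.nil))))) C.nil))))) C.nil)))) C.nil)))) C.nil)) C.nil))) C.nil)))) C.nil))) C.nil)))) List.nil)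

theorem ok12_312 : okL par12 (nat_lit 313) c12_312 (nat_lit 312) = true := by decide +kernel

noncomputable def c12_313 : List C :=
  (List.cons (C.node (nat_lit 4) (nat_lit 7) (nat_lit 11) (C.cons (nat_lit 2704) (C.node (nat_lit 4) (nat_lit 8) (nat_lit 11) (C.cons (nat_lit 2354) (C.miq (nat_lit 658573752) (nat_lit 1415656986443985122917224193)) (C.cons (nat_lit 2352) (C.node (nat_lit 1) (nat_lit 4) (nat_lit 11) (C.cons (nat_lit 2130) (C.node (nat_lit 4) (nat_lit 10) (nat_lit 11) (C.cons (nat_lit 3088) (C.ref (nat_lit 236) (nat_lit 205163983024656)) C.nil)) (C.cons (nat_lit 2066) (C.ref (nat_lit 238) (nat_lit 205163983024656)) C.nil))) (C.cons (nat_lit 2322) (C.miq (nat_lit 658573752) (nat_lit 1415656986443985122915127041)) (C.cons (nat_lit 2320) (C.ref (nat_lit 265) (nat_lit 205163983024656)) C.nil))))) (C.cons (nat_lit 2448) (C.node (nat_lit 4) (nat_lit 9) (nat_lit 11) (C.cons (nat_lit 2642) (C.miq (nat_lit 927008953) (nat_lit 1415661782526511493776805633))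 (C.cons (nat_lit 2640) (C.node (nat_lit 1) (nat_lit 4) (nat_lit 11) (C.cons (nat_lit 2098) (C.node (nat_lit 4) (nat_lit 10) (nat_lit 11) (C.cons (nat_lit 3088) (C.ref (nat_lit 236) (nat_lit 205099542782736)) C.nil)) (C.cons (nat_lit 2066) (C.ref (nat_lit 238) (nat_lit 205099542782736)) C.nil))) (C.cons (nat_lit 2578) (C.miq (nat_lit 927008953) (nat_lit 1415661782526511493772611329)) (C.cons (nat_lit 2576) (C.ref (nat_lit 265) (nat_lit 205099542782736)) C.nil))))) (C.cons (nat_lit 2192) (C.node (nat_lit 4) (nat_lit 10) (nat_lit 11) (C.cons (nat_lit 3152) (C.ref (nat_lit 283) (nat_lit 205163983024656)) (C.cons (nat_lit 3120) (C.ref (nat_lit 283) (nat_lit 205099542782736)) (C.cons (nat_lit 3088) (C.node (nat_lit 7) (nat_lit 8) (nat_lit 11) (C.cons (nat_lit 2436) (C.node (nat_lit 7) (nat_lit 10) (nat_lit 11) (C.cons (nat_lit 3208) (C.node (nat_lit 7) (nat_lit 8) (nat_lit 10) (C.cons (nat_lit 1472) (C.miq (nat_lit 1790215984) (nat_lit 3733169147937072675720855945))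 (C.cons (nat_lit 1440) (C.miq (nat_lit 676378531) (nat_lit 349417876441748154318654600)) (C.cons (nat_lit 1408) (C.node (nat_lit 2) (nat_lit 10) (nat_lit 11) (C.cons (nat_lit 3110) (C.miq (nat_lit 2275476402) (nat_lit 1415656986373055593499199517)) (C.cons (nat_lit 3108) (C.miq (nat_lit 1384164211) (nat_lit 317967137215920663803006088)) (C.cons (nat_lit 3078) (C.miq (nat_lit 2275476402) (nat_lit 1415656986373055593497102365)) (C.cons (nat_lit 3076) (C.node (nat_lit 1) (nat_lit 7) (nat_lit 11) (C.cons (nat_lit 2690) (C.ref (nat_lit 284) (nat_lit 205163983024656)) (C.cons (nat_lit 2178) (C.node (nat_lit 7) (nat_lit 9) (nat_lit 11) (C.cons (nat_lit 2688) (C.ref (nat_lit 285) (nat_lit 205163983024656)) C.nil)) C.nil))) C.nil))))) C.nil)))) (C.cons (nat_lit 3200) (C.node (nat_lit 1) (nat_lit 7) (nat_lit 11) (C.cons (nat_lit 2690) (C.ref (nat_lit 289) (nat_lit 205163983024656)) (C.cons (nat_lit 2186) (C.ref (nat_lit 289) (nat_lit 198128827013136)) (C.cons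 (nat_lit 2178) (C.node (nat_lit 3) (nat_lit 7) (nat_lit 11) (C.cons (nat_lit 2696) (C.node (nat_lit 2) (nat_lit 7) (nat_lit 10) (C.cons (nat_lit 1188) (C.node (nat_lit 2) (nat_lit 10) (nat_lit 11) (C.cons (nat_lit 3078) (C.miq (nat_lit 2435526791) (nat_lit 3721123405343063863252484489)) (C.cons (nat_lit 3076) (C.node (nat_lit 1) (nat_lit 2) (nat_lit 10) (C.cons (nat_lit 1542) (C.miq (nat_lit 3104994056) (nat_lit 1864208550873180527361720713)) (C.cons (nat_lit 1038) (C.miq (nat_lit 1913894921) (nat_lit 1254914733867681977174003457)) (C.cons (nat_lit 1030) (C.node (nat_lit 5) (nat_lit 7) (nat_lit 9) (C.cons (nat_lit 930) (C.miq (nat_lit 1114966921) (nat_lit 1436214222910238799838711553)) (C.cons (nat_lit 928) (C.miq (nat_lit 1114966921) (nat_lit 1436214222910238799838580481)) (C.cons (nat_lit 674) (C.miq (nat_lit 2174165051) (nat_lit 814860938762853785539184669)) (C.cons (nat_lit 672) (C.node (nat_lit 1) (nat_lit 5) (nat_lit 7) (C.cons (nat_lit 418)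 (C.miq (nat_lit 2541828896) (nat_lit 505340641004932544892176413)) (C.cons (nat_lit 170) (C.miq (nat_lit 557285531) (nat_lit 205562325677080681487273729)) (C.cons (nat_lit 162) (C.node (nat_lit 4) (nat_lit 8) (nat_lit 11) (C.cons (nat_lit 2354)
  (C.miq (nat_lit 2274734596) (nat_lit 812441575102256131244886045)) (C.cons (nat_lit 2352) (C.miq (nat_lit 2274734596) (nat_lit 812441538208767983825782813)) (C.cons (nat_lit 2322) (C.miq (nat_lit 998348576) (nat_lit 2807135401551186493532734085)) (C.cons (nat_lit 2320) (C.node (nat_lit 2) (nat_lit 4) (nat_lit 7) (C.cons (nat_lit 212) (C.node (nat_lit 1) (nat_lit 2) (nat_lit 7) (C.cons (nat_lit 142) (C.node (nat_lit 3) (nat_lit 4) (nat_lit 7) (C.cons (nat_lit 184) (C.miq (nat_lit 2722301557) (nat_lit 2510958573429676356627073249)) (C.cons (nat_lit 152) (C.node (nat_lit 3) (nat_lit 5) (nat_lit 7) (C.cons (nat_lit 168) (C.node (nat_lit 4) (nat_lit 5) (nat_lit 7) (C.cons (nat_lit 432) (C.miq (nat_lit 1477080162)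 (nat_lit 4643505987993348864408355028)) (C.cons (nat_lit 176) (C.node (nat_lit 5) (nat_lit 7) (nat_lit 8) (C.cons (nat_lit 416) (C.node (nat_lit 4) (nat_lit 7) (nat_lit 8) (C.cons (nat_lit 912) (C.miq (nat_lit 412557491) (nat_lit 1102542967000244690109335581)) (C.cons (nat_lit 400) (C.node (nat_lit 4) (nat_lit 7) (nat_lit 9) C.nil) C.nil))) C.nil)) C.nil))) C.nil)) C.nil))) (C.cons (nat_lit 134) (C.miq (nat_lit 924949376) (nat_lit 162005708234377859275624193)) C.nil))) (C.cons (nat_lit 148) (C.node (nat_lit 3) (nat_lit 5) (nat_lit 7) (C.cons (nat_lit 184) (C.node (nat_lit 5) (nat_lit 7) (nat_lit 8) (C.cons (nat_lit 416) (C.node (nat_lit 4) (nat_lit 7) (nat_lit 8) (C.cons (nat_lit 912) (C.miq (nat_lit 427295666) (nat_lit 1102545199129456185155258397)) (C.cons (nat_lit 400) (C.node (nat_lit 1) (nat_lit 7) (nat_lit 8) (C.cons (nat_lit 962) (C.miq (nat_lit 1681359033) (nat_lit 222460096671756664709844737)) (C.cons (nat_lit 898) (C.node (nat_lit 4) (nat_lit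 8) (nat_lit 9) (C.cons (nat_lit 792) (C.miq (nat_lit 1731464088) (nat_lit 222448568001648809611890433)) (C.cons (nat_lit 788) (C.miq (nat_lit 1461980041) (nat_lit 178931370566193553570270977)) (C.cons (nat_lit 784) (C.node (nat_lit 3) (nat_lit 4) (nat_lit 8) (C.cons (nat_lit 1304) (C.miq (nat_lit 1537503363) (nat_lit 3733166325810693573168333193)) (C.cons (nat_lit 282) (C.miq (nat_lit 3088282121) (nat_lit 340966814239022321096131205)) (C.cons (nat_lit 280) (C.node (nat_lit 3) (nat_lit 5) (nat_lit 11) (C.cons (nat_lit 2346) (C.miq (nat_lit 2821983063) (nat_lit 338520831710561944353638625)) (C.cons (nat_lit 2344) (C.miq (nat_lit 2821983063) (nat_lit 338520831710561935763704033)) (C.cons (nat_lit 2090) (C.miq (nat_lit 2168135831) (nat_lit 2526699899337168696923128453)) (C.cons (nat_lit 2088) (C.node (nat_lit 5) (nat_lit 8) (nat_lit 11) (C.cons (nat_lit 2338) (C.miq (nat_lit 998348576) (nat_lit 2826478214665020560328032901)) (C.cons (nat_lit 2336) (C.node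 (nat_lit 4) (nat_lit 9) (nat_lit 11) (C.cons (nat_lit 2642) (C.miq (nat_lit 873925528) (nat_lit 1415659384923786605425200897)) (C.cons (nat_lit 2640) (C.miq (nat_lit 961051488) (nat_lit 947805092907158116771104993)) (C.cons (nat_lit 2578) (C.miq (nat_lit 873925528) (nat_lit 1415659384923786330547293953)) (C.cons (nat_lit 2576) (C.node (nat_lit 2) (nat_lit 3) (nat_lit 5) (C.cons (nat_lit 876) (C.miq (nat_lit 2754742102) (nat_lit 2510959089960465348464216289)) (C.cons (nat_lit 812) (C.miq (nat_lit 391644210) (nat_lit 502917992782985110345222173)) (C.cons (nat_lit 620) (C.miq (nat_lit 2754742102) (nat_lit 2510959089960465348447439073)) (C.cons (nat_lit 556) (C.miq (nat_lit 324667687) (nat_lit 1287527599174104185846366853)) (C.cons (nat_lit 364) (C.miq (nat_lit 2754742102) (nat_lit 2510959089960465348430661857)) (C.cons (nat_lit 300) (C.miq (nat_lit 391644210) (nat_lit 502917992782985110311667741)) (C.cons (nat_lit 110) (C.miq (nat_lit 1898158091) (nat_lit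 133031572832397588967526145)) (C.cons (nat_lit 108) (C.miq (nat_lit 2754742102) (nat_lit 2510959089960465348413884641)) (C.cons (nat_lit 46) (C.miq (nat_lit 1898158091) (nat_lit 55660320377061321786330881)) (C.cons (nat_lit 44) (C.node (nat_lit 1) (nat_lit 3) (nat_lit 4) (C.cons (nat_lit 90) (C.node (nat_lit 4) (nat_lit 6) (nat_lit 11) (C.cons (nat_lit 2128)
  (C.node (nat_lit 1) (nat_lit 2) (nat_lit 3) (C.cons (nat_lit 142) (C.node (nat_lit 1) (nat_lit 6) (nat_lit 7) (C.cons (nat_lit 194) (C.node (nat_lit 2) (nat_lit 6) (nat_lit 7) (C.cons (nat_lit 196) (C.node (nat_lit 1) (nat_lit 4) (nat_lit 11) C.nil) C.nil)) C.nil)) (C.cons (nat_lit 14) (C.miq (nat_lit 1898158091) (nat_lit 16974694149393188195733249)) C.nil))) C.nil)) (C.cons (nat_lit 26) (C.node (nat_lit 1) (nat_lit 4) (nat_lit 8) (C.cons (nat_lit 306) (C.node (nat_lit 4) (nat_lit 5) (nat_lit 11) (C.cons (nat_lit 2096) (C.node (nat_lit 1) (nat_lit 4) (nat_lit 11) C.nil) C.nil)) (C.cons (nat_lit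 274) (C.node (nat_lit 3) (nat_lit 7) (nat_lit 10) (C.cons (nat_lit 1224) (C.node (nat_lit 6) (nat_lit 7) (nat_lit 8) (C.cons (nat_lit 448) (C.node (nat_lit 7) (nat_lit 8) (nat_lit 10) C.nil) C.nil)) (C.cons (nat_lit 1160) (C.node (nat_lit 4) (nat_lit 5) (nat_lit 11) (C.cons (nat_lit 2098) (C.node (nat_lit 5) (nat_lit 10) (nat_lit 11) C.nil) (C.cons (nat_lit 2096) (C.node (nat_lit 1) (nat_lit 4) (nat_lit 11) (C.cons (nat_lit 2130) (C.node (nat_lit 1) (nat_lit 4) (nat_lit 5) C.nil) C.nil)) C.nil))) C.nil))) C.nil))) C.nil))) C.nil))))))))))) C.nil))))) C.nil))) C.nil))))) C.nil)))) C.nil)))) (C.cons (nat_lit 450) (C.miq (nat_lit 2541828896) (nat_lit 544026267232600678482774045)) (C.cons (nat_lit 386) (C.miq (nat_lit 2541828896) (nat_lit 466655014777264411301578781)) C.nil))))) C.nil))) C.nil)) (C.cons (nat_lit 168) (C.node (nat_lit 3) (nat_lit 4) (nat_lit 7) (C.cons (nat_lit 216) (C.node (nat_lit 3) (nat_lit 7) (nat_lit 10) (C.cons (nat_lit 1160) (C.node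 (nat_lit 1) (nat_lit 3) (nat_lit 7) (C.cons (nat_lit 142) (C.node (nat_lit 2) (nat_lit 6) (nat_lit 7) (C.cons (nat_lit 196) (C.node (nat_lit 4) (nat_lit 7) (nat_lit 9) (C.cons (nat_lit 912) (C.miq (nat_lit 881423883) (nat_lit 1102590079971364570908395745)) (C.cons (nat_lit 656) (C.node (nat_lit 7) (nat_lit 8) (nat_lit 10) (C.cons (nat_lit 1472) (C.miq (nat_lit 409411651) (nat_lit 1779541425984421978216859677)) C.nil)) C.nil))) C.nil)) (C.cons (nat_lit 138) (C.miq (nat_lit 557285531) (nat_lit 166876699449412547896676097)) C.nil))) C.nil)) (C.cons (nat_lit 152) (C.node (nat_lit 1) (nat_lit 7) (nat_lit 8) (C.cons (nat_lit 962) (C.miq (nat_lit 1681359033) (nat_lit 183774470444088531119247105)) (C.cons (nat_lit 898) (C.node (nat_lit 4) (nat_lit 8) (nat_lit 9) (C.cons (nat_lit 792) (C.miq (nat_lit 1731464088) (nat_lit 183762941773980676021292801)) (C.cons (nat_lit 788) (C.miq (nat_lit 1461980041) (nat_lit 178931370566193553570270977)) (C.cons (nat_lit 784)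 (C.node (nat_lit 4) (nat_lit 9) (nat_lit 11) (C.cons (nat_lit 2642) (C.miq (nat_lit 873925528) (nat_lit 1415659384923786605425200897)) (C.cons (nat_lit 2640) (C.miq (nat_lit 961051488) (nat_lit 947805092907158116771104993)) (C.cons (nat_lit 2578) (C.miq (nat_lit 873925528) (nat_lit 1415659384923786330547293953)) (C.cons (nat_lit 2576) (C.node (nat_lit 3) (nat_lit 7) (nat_lit 10) (C.cons (nat_lit 1224) (C.node (nat_lit 6) (nat_lit 7) (nat_lit 8) (C.cons (nat_lit 448) (C.node (nat_lit 7) (nat_lit 8) (nat_lit 10) (C.cons (nat_lit 1408) (C.node (nat_lit 7) (nat_lit 9) (nat_lit 10) C.nil) C.nil)) C.nil)) (C.cons (nat_lit 1160) (C.node (nat_lit 4) (nat_lit 5) (nat_lit 7) (C.cons (nat_lit 432) (C.node (nat_lit 1) (nat_lit 4) (nat_lit 8) (C.cons (nat_lit 282) (C.miq (nat_lit 3088282121) (nat_lit 340966814239022321096131205)) (C.cons (nat_lit 274) (C.node (nat_lit 4) (nat_lit 5) (nat_lit 10) (C.cons (nat_lit 1136) (C.miq (nat_lit 41445972) (nat_lit 2944949513441646761697346672))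 (C.cons (nat_lit 1072) (C.node (nat_lit 6) (nat_lit 7) (nat_lit 8) (C.cons (nat_lit 1472) (C.miq (nat_lit 624994182) (nat_lit 678227547429473659330299328)) (C.cons (nat_lit 448) (C.node (nat_lit 7) (nat_lit 8) (nat_lit 10) C.nil) C.nil))) C.nil))) C.nil))) (C.cons (nat_lit 176) (C.node (nat_lit 4) (nat_lit 7) (nat_lit 8) C.nil) C.nil))) C.nil))) C.nil))))) C.nil)))) (C.cons (nat_lit 450) (C.miq (nat_lit 2541828896) (nat_lit 544026267232600678482774045))
  (C.cons (nat_lit 386) (C.miq (nat_lit 2541828896) (nat_lit 466655014777264411301578781)) C.nil))))) C.nil))) C.nil))) C.nil))) C.nil))))) C.nil)))) C.nil))))) C.nil)))) C.nil))) (C.cons (nat_lit 1164) (C.miq (nat_lit 326240696) (nat_lit 1407194505672342737181216513)) (C.cons (nat_lit 1156) (C.node (nat_lit 3) (nat_lit 7) (nat_lit 10) (C.cons (nat_lit 1224) (C.node (nat_lit 3) (nat_lit 10) (nat_lit 11) (C.cons (nat_lit 3082) (C.miq (nat_lit 2168135831) (nat_lit 3725954312394880838231655045)) (C.cons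 (nat_lit 3080) (C.node (nat_lit 1) (nat_lit 3) (nat_lit 10) (C.cons (nat_lit 1290) (C.miq (nat_lit 3088282121) (nat_lit 1559564040410568529199956613)) (C.cons (nat_lit 1038) (C.miq (nat_lit 1913894921) (nat_lit 1254914733867681977174003457)) (C.cons (nat_lit 1034) (C.node (nat_lit 6) (nat_lit 7) (nat_lit 8) (C.cons (nat_lit 962) (C.miq (nat_lit 1131809688) (nat_lit 1479731420345694055882166017)) (C.cons (nat_lit 960) (C.miq (nat_lit 1131809688) (nat_lit 1479731420345694055882034945)) (C.cons (nat_lit 450) (C.miq (nat_lit 2541828896) (nat_lit 544026267232600678482774045)) (C.cons (nat_lit 448) (C.node (nat_lit 1) (nat_lit 6) (nat_lit 7) (C.cons (nat_lit 706) (C.miq (nat_lit 2174165051) (nat_lit 853546564990521919129782301)) (C.cons (nat_lit 198) (C.miq (nat_lit 924949376) (nat_lit 239376960689714126456819457)) (C.cons (nat_lit 194) (C.node (nat_lit 4) (nat_lit 9) (nat_lit 11) (C.cons (nat_lit 2642) (C.miq (nat_lit 2542187268) (nat_lit 541647504244054836059899933))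 (C.cons (nat_lit 2640) (C.miq (nat_lit 2542187268) (nat_lit 541647467350566688640796701)) (C.cons (nat_lit 2578) (C.miq (nat_lit 730957616) (nat_lit 3116615615145890020537860489)) (C.cons (nat_lit 2576) (C.node (nat_lit 2) (nat_lit 6) (nat_lit 7) (C.cons (nat_lit 212) (C.node (nat_lit 6) (nat_lit 7) (nat_lit 9) (C.cons (nat_lit 704) (C.node (nat_lit 3) (nat_lit 4) (nat_lit 7) (C.cons (nat_lit 184) (C.miq (nat_lit 2722301557) (nat_lit 2510958573429676356627073249)) (C.cons (nat_lit 152) (C.node (nat_lit 4) (nat_lit 7) (nat_lit 9) (C.cons (nat_lit 912) (C.miq (nat_lit 427295666) (nat_lit 1102545199129456185155258397)) (C.cons (nat_lit 656) (C.node (nat_lit 1) (nat_lit 7) (nat_lit 8) (C.cons (nat_lit 930) (C.miq (nat_lit 1411879096) (nat_lit 256309429388206317662113537)) (C.cons (nat_lit 898) (C.node (nat_lit 4) (nat_lit 8) (nat_lit 9) (C.cons (nat_lit 792) (C.miq (nat_lit 1731464088) (nat_lit 183762941773980676021292801)) (C.cons (nat_lit 788) (C.miq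 (nat_lit 1461980041) (nat_lit 256302623021529820751466241)) (C.cons (nat_lit 784) (C.node (nat_lit 2) (nat_lit 4) (nat_lit 9) (C.cons (nat_lit 1556) (C.miq (nat_lit 1805938834) (nat_lit 3733166842319527637052293765)) (C.cons (nat_lit 534) (C.miq (nat_lit 3104994056) (nat_lit 645611324701634319257895305)) (C.cons (nat_lit 532) (C.node (nat_lit 2) (nat_lit 6) (nat_lit 11) (C.cons (nat_lit 2630) (C.miq (nat_lit 2837711719) (nat_lit 643170138253449716152142049)) (C.cons (nat_lit 2628) (C.miq (nat_lit 2837711719) (nat_lit 643170138253449707562207457)) (C.cons (nat_lit 2118) (C.miq (nat_lit 2435526791) (nat_lit 2560554618513019855534555529)) (C.cons (nat_lit 2116) (C.node (nat_lit 6) (nat_lit 9) (nat_lit 11) (C.cons (nat_lit 2626) (C.miq (nat_lit 730957616) (nat_lit 3174644054487392220923756937)) (C.cons (nat_lit 2624) (C.node (nat_lit 4) (nat_lit 8) (nat_lit 11) (C.cons (nat_lit 2354) (C.miq (nat_lit 605490057) (nat_lit 1415664033503291943281626881)) (C.cons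 (nat_lit 2352) (C.miq (nat_lit 675904336) (nat_lit 947809741413479960697440481)) (C.cons (nat_lit 2322) (C.miq (nat_lit 605490057) (nat_lit 1415664033503291805842673409)) (C.cons (nat_lit 2320) (C.node (nat_lit 2) (nat_lit 3) (nat_lit 6) (C.cons (nat_lit 876) (C.miq (nat_lit 2753759077) (nat_lit 2510958573451631404855855329)) (C.cons (nat_lit 844) (C.miq (nat_lit 392758307) (nat_lit 851093424985457597405202461)) (C.cons (nat_lit 620) (C.miq (nat_lit 2753759077) (nat_lit 2510958573451631404839078113)) (C.cons (nat_lit 588)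
  (C.miq (nat_lit 392758307) (nat_lit 851093424985457597388425245)) (C.cons (nat_lit 364) (C.miq (nat_lit 2753759077) (nat_lit 2510958573451631404822300897)) (C.cons (nat_lit 332) (C.miq (nat_lit 308938807) (nat_lit 1321377522050129346723053961)) (C.cons (nat_lit 110) (C.miq (nat_lit 1898158091) (nat_lit 133031572832397588967526145)) (C.cons (nat_lit 108) (C.miq (nat_lit 2753759077) (nat_lit 2510958573451631404805523681)) (C.cons (nat_lit 78) (C.miq (nat_lit 1898158091) (nat_lit 94345946604729455376928513)) (C.cons (nat_lit 76) (C.node (nat_lit 1) (nat_lit 2) (nat_lit 4) (C.cons (nat_lit 54) (C.node (nat_lit 4) (nat_lit 5) (nat_lit 11) (C.cons (nat_lit 2096) (C.node (nat_lit 1) (nat_lit 2) (nat_lit 3) (C.cons (nat_lit 142) (C.node (nat_lit 1) (nat_lit 5) (nat_lit 7) (C.cons (nat_lit 162) (C.node (nat_lit 2) (nat_lit 5) (nat_lit 7) C.nil) C.nil)) (C.cons (nat_lit 14) (C.miq (nat_lit 1898158091) (nat_lit 16974694149393188195733249)) C.nil))) C.nil))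 (C.cons (nat_lit 22) (C.node (nat_lit 1) (nat_lit 4) (nat_lit 9) (C.cons (nat_lit 594) (C.node (nat_lit 4) (nat_lit 6) (nat_lit 11) (C.cons (nat_lit 2128) (C.node (nat_lit 1) (nat_lit 4) (nat_lit 11) C.nil) C.nil)) (C.cons (nat_lit 530) (C.node (nat_lit 4) (nat_lit 6) (nat_lit 11) (C.cons (nat_lit 2130) (C.node (nat_lit 6) (nat_lit 10) (nat_lit 11) C.nil) (C.cons (nat_lit 2128) (C.node (nat_lit 1) (nat_lit 4) (nat_lit 11) (C.cons (nat_lit 2098) (C.node (nat_lit 1) (nat_lit 4) (nat_lit 6) C.nil) C.nil)) C.nil))) C.nil))) C.nil))) C.nil))))))))))) C.nil))))) C.nil))) C.nil))))) C.nil)))) C.nil)))) (C.cons (nat_lit 418) (C.miq (nat_lit 2541828896) (nat_lit 505340641004932544892176413)) (C.cons (nat_lit 386) (C.miq (nat_lit 2541828896) (nat_lit 466655014777264411301578781)) C.nil))))) C.nil))) C.nil))) C.nil)) (C.cons (nat_lit 196) (C.node (nat_lit 2) (nat_lit 4) (nat_lit 7) (C.cons (nat_lit 180) (C.node (nat_lit 3) (nat_lit 4) (nat_lit 7) (C.cons (nat_lit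 152) (C.node (nat_lit 1) (nat_lit 2) (nat_lit 7) (C.cons (nat_lit 142) (C.node (nat_lit 3) (nat_lit 5) (nat_lit 7) (C.cons (nat_lit 168) (C.node (nat_lit 4) (nat_lit 7) (nat_lit 8) (C.cons (nat_lit 912) (C.miq (nat_lit 613971211) (nat_lit 1102585283807773269336066273)) (C.cons (nat_lit 400) (C.node (nat_lit 7) (nat_lit 9) (nat_lit 10) (C.cons (nat_lit 1696) (C.miq (nat_lit 425144386) (nat_lit 2050340809651283369366128669)) C.nil)) C.nil))) C.nil)) (C.cons (nat_lit 134) (C.miq (nat_lit 824676491) (nat_lit 162045792397595572917505793)) C.nil))) C.nil)) (C.cons (nat_lit 148) (C.node (nat_lit 1) (nat_lit 7) (nat_lit 8) (C.cons (nat_lit 930) (C.miq (nat_lit 1411879096) (nat_lit 178938176932870050480918273)) (C.cons (nat_lit 898) (C.node (nat_lit 4) (nat_lit 8) (nat_lit 9) (C.cons (nat_lit 792) (C.miq (nat_lit 1181974713) (nat_lit 1479739813124479317594083073)) (C.cons (nat_lit 788) (C.miq (nat_lit 1461980041) (nat_lit 178931370566193553570270977)) (C.cons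 (nat_lit 784) (C.node (nat_lit 4) (nat_lit 8) (nat_lit 11) (C.cons (nat_lit 2354) (C.miq (nat_lit 605490057) (nat_lit 1415664033503291943281626881)) (C.cons (nat_lit 2352) (C.miq (nat_lit 675904336) (nat_lit 947809741413479960697440481)) (C.cons (nat_lit 2322) (C.miq (nat_lit 605490057) (nat_lit 1415664033503291805842673409)) (C.cons (nat_lit 2320) (C.node (nat_lit 3) (nat_lit 4) (nat_lit 7) (C.cons (nat_lit 184) (C.node (nat_lit 4) (nat_lit 7) (nat_lit 8) (C.cons (nat_lit 400) (C.node (nat_lit 1) (nat_lit 3) (nat_lit 7) (C.cons (nat_lit 142) (C.node (nat_lit 1) (nat_lit 5) (nat_lit 7) (C.cons (nat_lit 162) (C.node (nat_lit 2) (nat_lit 5) (nat_lit 7) C.nil) C.nil)) (C.cons (nat_lit 138) (C.miq (nat_lit 594611096) (nat_lit 166836615185145317640244993)) C.nil))) C.nil)) (C.cons (nat_lit 152) (C.node (nat_lit 4) (nat_lit 6) (nat_lit 7) (C.cons (nat_lit 720) (C.node (nat_lit 1) (nat_lit 4) (nat_lit 9) (C.cons (nat_lit 534) (C.miq (nat_lit 3104994056)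 (nat_lit 645611324701634319257895305)) (C.cons (nat_lit 530) (C.node (nat_lit 4) (nat_lit 6) (nat_lit 10) (C.cons (nat_lit 1136)
  (C.miq (nat_lit 58284644) (nat_lit 3259274358604241713350313072)) (C.cons (nat_lit 1104) (C.node (nat_lit 5) (nat_lit 7) (nat_lit 9) (C.cons (nat_lit 1696) (C.miq (nat_lit 910206869) (nat_lit 407427647337096996455515808)) (C.cons (nat_lit 672) (C.node (nat_lit 7) (nat_lit 9) (nat_lit 10) C.nil) C.nil))) C.nil))) C.nil))) (C.cons (nat_lit 208) (C.node (nat_lit 4) (nat_lit 7) (nat_lit 9) C.nil) C.nil))) C.nil))) C.nil))))) C.nil)))) (C.cons (nat_lit 418) (C.miq (nat_lit 2541828896) (nat_lit 505340641004932544892176413)) (C.cons (nat_lit 386) (C.miq (nat_lit 2541828896) (nat_lit 466655014777264411301578781)) C.nil))))) C.nil))) C.nil))) C.nil))))) C.nil)))) C.nil))))) C.nil)))) C.nil))) (C.cons (nat_lit 1160) (C.node (nat_lit 4) (nat_lit 7) (nat_lit 8) (C.cons (nat_lit 912) (C.miq (nat_lit 427295666) (nat_lit 1102545199129456185155258397))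 (C.cons (nat_lit 432) (C.node (nat_lit 4) (nat_lit 8) (nat_lit 11) (C.cons (nat_lit 2322) (C.miq (nat_lit 998348576) (nat_lit 2807135401551186493532734085)) (C.cons (nat_lit 2320) (C.node (nat_lit 1) (nat_lit 4) (nat_lit 8) (C.cons (nat_lit 786) (C.miq (nat_lit 2014949891) (nat_lit 950265427324795425148045341)) (C.cons (nat_lit 282) (C.miq (nat_lit 3088282121) (nat_lit 340966814239022321096131205)) (C.cons (nat_lit 274) (C.node (nat_lit 2) (nat_lit 5) (nat_lit 7) (C.cons (nat_lit 174) (C.miq (nat_lit 2826242851) (nat_lit 522275600937114152242907165)) (C.cons (nat_lit 172) (C.miq (nat_lit 326240696) (nat_lit 207940092614630595872689921)) (C.cons (nat_lit 166) (C.miq (nat_lit 924949376) (nat_lit 200691334462045992866221825)) (C.cons (nat_lit 164) (C.node (nat_lit 3) (nat_lit 5) (nat_lit 7) (C.cons (nat_lit 170) (C.miq (nat_lit 557285531) (nat_lit 205562325677080681487273729)) (C.cons (nat_lit 168) (C.node (nat_lit 1) (nat_lit 5) (nat_lit 7) (C.cons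 (nat_lit 674) (C.miq (nat_lit 2174165051) (nat_lit 814860938762853785539184669)) (C.cons (nat_lit 162) (C.node (nat_lit 2) (nat_lit 10) (nat_lit 11) (C.cons (nat_lit 3110) (C.miq (nat_lit 891751096) (nat_lit 198271084287004360210386689)) (C.cons (nat_lit 3108) (C.miq (nat_lit 891751096) (nat_lit 198271084287004351620452097)) (C.cons (nat_lit 3078) (C.miq (nat_lit 2435526791) (nat_lit 3721123405343063863252484489)) (C.cons (nat_lit 3076) (C.node (nat_lit 2) (nat_lit 4) (nat_lit 7) (C.cons (nat_lit 212) (C.node (nat_lit 3) (nat_lit 4) (nat_lit 7) (C.cons (nat_lit 152) (C.node (nat_lit 4) (nat_lit 7) (nat_lit 9) (C.cons (nat_lit 656) (C.node (nat_lit 3) (nat_lit 6) (nat_lit 7) (C.cons (nat_lit 202) (C.miq (nat_lit 557285531) (nat_lit 244247951904748815077871361)) C.nil)) C.nil)) C.nil)) (C.cons (nat_lit 148) (C.node (nat_lit 3) (nat_lit 4) (nat_lit 7) (C.cons (nat_lit 216) (C.node (nat_lit 4) (nat_lit 7) (nat_lit 9) (C.cons (nat_lit 656) (C.node (nat_lit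 2) (nat_lit 6) (nat_lit 7) (C.cons (nat_lit 198) (C.miq (nat_lit 924949376) (nat_lit 239376960689714126456819457)) C.nil)) C.nil)) (C.cons (nat_lit 152) (C.node (nat_lit 4) (nat_lit 8) (nat_lit 9) (C.cons (nat_lit 792) (C.miq (nat_lit 1731464088) (nat_lit 183762941773980676021292801)) (C.cons (nat_lit 788) (C.miq (nat_lit 1461980041) (nat_lit 178931370566193553570270977)) (C.cons (nat_lit 784) (C.node (nat_lit 1) (nat_lit 7) (nat_lit 8) (C.cons (nat_lit 962) (C.miq (nat_lit 1681359033) (nat_lit 183774470444088531119247105)) (C.cons (nat_lit 898) (C.node (nat_lit 4) (nat_lit 6) (nat_lit 7) (C.cons (nat_lit 720) (C.node (nat_lit 1) (nat_lit 6) (nat_lit 7) (C.cons (nat_lit 206) (C.miq (nat_lit 2843085618) (nat_lit 870446753494962535119325213)) (C.cons (nat_lit 202) (C.miq (nat_lit 594611096) (nat_lit 244207867640481584821440257)) (C.cons (nat_lit 198) (C.miq (nat_lit 923974016) (nat_lit 239405626929998065440329473)) C.nil)))) C.nil)) (C.cons (nat_lit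 450) (C.miq (nat_lit 2541828896) (nat_lit 544026267232600678482774045)) (C.cons (nat_lit 386) (C.miq (nat_lit 2541828896) (nat_lit 466655014777264411301578781)) C.nil))))) C.nil)))) C.nil))) C.nil))) C.nil))))) C.nil))) C.nil))) C.nil))))) C.nil)))) C.nil)))
  (C.cons (nat_lit 400) (C.node (nat_lit 4) (nat_lit 7) (nat_lit 9) (C.cons (nat_lit 720) (C.node (nat_lit 4) (nat_lit 9) (nat_lit 11) (C.cons (nat_lit 2578) (C.miq (nat_lit 730957616) (nat_lit 3116615615145890020537860489)) (C.cons (nat_lit 2576) (C.node (nat_lit 1) (nat_lit 4) (nat_lit 9) (C.cons (nat_lit 786) (C.miq (nat_lit 2014949891) (nat_lit 950265427324795425148045341)) (C.cons (nat_lit 534) (C.miq (nat_lit 3104994056) (nat_lit 645611324701634319257895305)) (C.cons (nat_lit 530) (C.node (nat_lit 2) (nat_lit 6) (nat_lit 7) (C.cons (nat_lit 206) (C.miq (nat_lit 2843085618) (nat_lit 870446753494962535119325213)) (C.cons (nat_lit 204) (C.miq (nat_lit 326240696) (nat_lit 246625718842298729463287553))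 (C.cons (nat_lit 198) (C.miq (nat_lit 924949376) (nat_lit 239376960689714126456819457)) (C.cons (nat_lit 196) (C.node (nat_lit 3) (nat_lit 6) (nat_lit 7) (C.cons (nat_lit 202) (C.miq (nat_lit 557285531) (nat_lit 244247951904748815077871361)) (C.cons (nat_lit 200) (C.node (nat_lit 1) (nat_lit 6) (nat_lit 7) (C.cons (nat_lit 450) (C.miq (nat_lit 2541828896) (nat_lit 544026267232600678482774045)) (C.cons (nat_lit 194) (C.node (nat_lit 3) (nat_lit 10) (nat_lit 11) (C.cons (nat_lit 3146) (C.miq (nat_lit 641141433) (nat_lit 241797062380519039290576641)) (C.cons (nat_lit 3144) (C.miq (nat_lit 641141433) (nat_lit 241797062380519030700642049)) (C.cons (nat_lit 3082) (C.miq (nat_lit 2168135831) (nat_lit 3725954312394880838231655045)) (C.cons (nat_lit 3080) (C.node (nat_lit 2) (nat_lit 4) (nat_lit 7) (C.cons (nat_lit 180) (C.node (nat_lit 3) (nat_lit 4) (nat_lit 7) (C.cons (nat_lit 152) (C.node (nat_lit 3) (nat_lit 5) (nat_lit 7) (C.cons (nat_lit 170) (C.miq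 (nat_lit 657558416) (nat_lit 205522241513862967845392129)) C.nil)) C.nil)) (C.cons (nat_lit 148) (C.node (nat_lit 4) (nat_lit 8) (nat_lit 9) (C.cons (nat_lit 792) (C.miq (nat_lit 1181974713) (nat_lit 241799773839099042694958849)) (C.cons (nat_lit 788) (C.miq (nat_lit 1461980041) (nat_lit 178931370566193553570270977)) (C.cons (nat_lit 784) (C.node (nat_lit 1) (nat_lit 7) (nat_lit 8) (C.cons (nat_lit 930) (C.miq (nat_lit 1411879096) (nat_lit 178938176932870050480918273)) (C.cons (nat_lit 898) (C.node (nat_lit 3) (nat_lit 4) (nat_lit 7) (C.cons (nat_lit 184) (C.node (nat_lit 1) (nat_lit 5) (nat_lit 7) (C.cons (nat_lit 166) (C.miq (nat_lit 923974016) (nat_lit 200720000702329931849731841)) C.nil)) C.nil)) (C.cons (nat_lit 418) (C.miq (nat_lit 2541828896) (nat_lit 505340641004932544892176413)) (C.cons (nat_lit 386) (C.miq (nat_lit 2541828896) (nat_lit 466655014777264411301578781)) C.nil))))) C.nil)))) C.nil))) C.nil))))) C.nil))) C.nil))) C.nil))))) C.nil))))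 C.nil))) (C.cons (nat_lit 656) (C.node (nat_lit 2) (nat_lit 6) (nat_lit 11) (C.cons (nat_lit 2630) (C.node (nat_lit 4) (nat_lit 6) (nat_lit 11) (C.cons (nat_lit 2128) (C.node (nat_lit 4) (nat_lit 9) (nat_lit 11) (C.cons (nat_lit 2576) (C.node (nat_lit 5) (nat_lit 9) (nat_lit 11) (C.cons (nat_lit 2592) (C.node (nat_lit 1) (nat_lit 4) (nat_lit 9) (C.cons (nat_lit 786) (C.miq (nat_lit 2014949891) (nat_lit 950265427324795425148045341)) (C.cons (nat_lit 530) (C.node (nat_lit 6) (nat_lit 8) (nat_lit 11) (C.cons (nat_lit 2376) (C.miq (nat_lit 330828146) (nat_lit 2872412599045273296925098629)) (C.cons (nat_lit 2368) (C.node (nat_lit 3) (nat_lit 6) (nat_lit 11) (C.cons (nat_lit 3144) (C.miq (nat_lit 1939905378) (nat_lit 1287517896798377654383610438)) (C.cons (nat_lit 2120) (C.node (nat_lit 6) (nat_lit 10) (nat_lit 11) (C.cons (nat_lit 3136) (C.node (nat_lit 3) (nat_lit 10) (nat_lit 11) (C.cons (nat_lit 3082) (C.miq (nat_lit 2168135831) (nat_lit 3725954312394880838231655045))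 (C.cons (nat_lit 3080) (C.node (nat_lit 1) (nat_lit 6) (nat_lit 7) (C.cons (nat_lit 450) (C.miq (nat_lit 840436583) (nat_lit 317954740713703263223023841)) (C.cons (nat_lit 202) (C.miq (nat_lit 557285531) (nat_lit 244247951904748815077871361)) (C.cons (nat_lit 194) (C.node (nat_lit 2) (nat_lit 6) (nat_lit 7) (C.cons (nat_lit 212)
  (C.miq (nat_lit 2875459879) (nat_lit 2572615746358397878983197317)) (C.cons (nat_lit 204) (C.miq (nat_lit 326240696) (nat_lit 246625718842298729463287553)) (C.cons (nat_lit 196) (C.node (nat_lit 6) (nat_lit 7) (nat_lit 9) (C.cons (nat_lit 1728) (C.miq (nat_lit 929216928) (nat_lit 236987775290772371968167681)) (C.cons (nat_lit 960) (C.miq (nat_lit 845613976) (nat_lit 236956710799523108551134977)) (C.cons (nat_lit 704) (C.node (nat_lit 3) (nat_lit 6) (nat_lit 7) (C.cons (nat_lit 216) (C.miq (nat_lit 2306214708) (nat_lit 851089994642608743903660061)) (C.cons (nat_lit 200) (C.node (nat_lit 4) (nat_lit 6) (nat_lit 7) C.nil) C.nil)))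 C.nil)))) C.nil)))) C.nil)))) C.nil))) C.nil)) C.nil))) C.nil))) C.nil))) C.nil)) C.nil)) C.nil)) (C.cons (nat_lit 2628) (C.miq (nat_lit 314116211) (nat_lit 3177066701668434402815246729)) (C.cons (nat_lit 2118) (C.miq (nat_lit 2435526791) (nat_lit 2560554618513019855534555529)) (C.cons (nat_lit 2116) (C.node (nat_lit 2) (nat_lit 9) (nat_lit 11) (C.cons (nat_lit 2598) (C.node (nat_lit 2) (nat_lit 10) (nat_lit 11) (C.cons (nat_lit 3076) (C.node (nat_lit 5) (nat_lit 10) (nat_lit 11) (C.cons (nat_lit 3104) (C.node (nat_lit 1) (nat_lit 10) (nat_lit 2) (C.cons (nat_lit 1038) (C.miq (nat_lit 1930606856) (nat_lit 1254909937787407423309811457)) (C.cons (nat_lit 1030) (C.node (nat_lit 5) (nat_lit 3) (nat_lit 11) (C.cons (nat_lit 2344) (C.miq (nat_lit 414384761) (nat_lit 2833731768897879717198692997)) (C.cons (nat_lit 2088) (C.node (nat_lit 8) (nat_lit 5) (nat_lit 11) (C.cons (nat_lit 2352) (C.miq (nat_lit 2017471321) (nat_lit 407419900045740719603780134)) (C.cons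 (nat_lit 2336) (C.node (nat_lit 5) (nat_lit 4) (nat_lit 11) (C.cons (nat_lit 2096) (C.node (nat_lit 8) (nat_lit 4) (nat_lit 11) (C.cons (nat_lit 2322) (C.miq (nat_lit 831229991) (nat_lit 2807175485714404207174615685)) (C.cons (nat_lit 2320) (C.node (nat_lit 1) (nat_lit 5) (nat_lit 7) (C.cons (nat_lit 170) (C.miq (nat_lit 2299726679) (nat_lit 632275454310028570106923233)) (C.cons (nat_lit 418) (C.miq (nat_lit 2441556011) (nat_lit 505380725168150258534058013)) (C.cons (nat_lit 162) (C.node (nat_lit 9) (nat_lit 5) (nat_lit 7) (C.cons (nat_lit 1696) (C.miq (nat_lit 1264190103) (nat_lit 3752527345805753957237129861)) (C.cons (nat_lit 928) (C.miq (nat_lit 410583731) (nat_lit 1121892808323564805814749213)) (C.cons (nat_lit 672) (C.node (nat_lit 5) (nat_lit 7) (nat_lit 2) (C.cons (nat_lit 180) (C.miq (nat_lit 2270802496) (nat_lit 812469005410691740188346397)) (C.cons (nat_lit 172) (C.miq (nat_lit 2304183075) (nat_lit 812405401432608317138274333)) (C.cons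 (nat_lit 164) (C.node (nat_lit 8) (nat_lit 5) (nat_lit 7) (C.cons (nat_lit 1440) (C.miq (nat_lit 846531466) (nat_lit 198283480783871674587025153)) (C.cons (nat_lit 416) (C.node (nat_lit 10) (nat_lit 5) (nat_lit 7) C.nil) C.nil))) C.nil)))) C.nil)))) C.nil)))) C.nil))) C.nil)) C.nil))) C.nil))) C.nil))) C.nil)) C.nil)) (C.cons (nat_lit 2596) (C.miq (nat_lit 314116211) (nat_lit 3138381075440766269224649097)) (C.cons (nat_lit 2566) (C.node (nat_lit 5) (nat_lit 9) (nat_lit 11) (C.cons (nat_lit 2592) (C.node (nat_lit 2) (nat_lit 5) (nat_lit 11) (C.cons (nat_lit 3108) (C.node (nat_lit 1) (nat_lit 2) (nat_lit 10) (C.cons (nat_lit 1038) (C.miq (nat_lit 1913894921) (nat_lit 1254914733867681977174003457)) (C.cons (nat_lit 1030) (C.node (nat_lit 2) (nat_lit 3) (nat_lit 10) (C.cons (nat_lit 1548) (C.miq (nat_lit 2191752016) (nat_lit 1871424419019553322394257633)) (C.cons (nat_lit 1292) (C.node (nat_lit 4) (nat_lit 8) (nat_lit 10) (C.cons (nat_lit 1328) (C.miq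 (nat_lit 2024124976) (nat_lit 1605495418583185678255327261)) (C.cons (nat_lit 1296) (C.node (nat_lit 5) (nat_lit 7) (nat_lit 10) (C.cons (nat_lit 1696) (C.miq (nat_lit 2320966411) (nat_lit 2050383126698644880968714269)) (C.cons (nat_lit 1440) (C.node (nat_lit 5) (nat_lit 7) (nat_lit 9) (C.cons (nat_lit 674) (C.miq (nat_lit 2174165051) (nat_lit 814860938762853785539184669)) (C.cons (nat_lit 672) (C.node (nat_lit 6) (nat_lit 7) (nat_lit 10) (C.cons (nat_lit 1728)
  (C.miq (nat_lit 2586015243) (nat_lit 1561981891850517068962924769)) (C.cons (nat_lit 1216) (C.node (nat_lit 7) (nat_lit 9) (nat_lit 10) (C.cons (nat_lit 1664) (C.node (nat_lit 4) (nat_lit 5) (nat_lit 7) (C.cons (nat_lit 184) (C.miq (nat_lit 628341376) (nat_lit 222480665571363275280027393)) (C.cons (nat_lit 180) (C.miq (nat_lit 844565416) (nat_lit 217613897685691094781660929)) (C.cons (nat_lit 176) (C.node (nat_lit 2) (nat_lit 4) (nat_lit 7) (C.cons (nat_lit 148) (C.node (nat_lit 3) (nat_lit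 4) (nat_lit 7) C.nil) C.nil)) C.nil)))) C.nil)) C.nil))) C.nil))) (C.cons (nat_lit 1184) (C.miq (nat_lit 2320966411) (nat_lit 1431413107055954743519152157)) C.nil)))) C.nil))) (C.cons (nat_lit 1036) (C.miq (nat_lit 2191752016) (nat_lit 1252454399376863184944695521)) C.nil)))) C.nil))) (C.cons (nat_lit 2084) (C.node (nat_lit 2) (nat_lit 10) (nat_lit 11) (C.cons (nat_lit 3076) (C.node (nat_lit 4) (nat_lit 9) (nat_lit 11) (C.cons (nat_lit 2640) (C.node (nat_lit 1) (nat_lit 4) (nat_lit 9) (C.cons (nat_lit 786) (C.miq (nat_lit 961051488) (nat_lit 950222944546387375120517345)) (C.cons (nat_lit 530) (C.node (nat_lit 3) (nat_lit 4) (nat_lit 9) (C.cons (nat_lit 1560) (C.miq (nat_lit 2207516598) (nat_lit 1885930495262205597912664289)) (C.cons (nat_lit 792) (C.node (nat_lit 3) (nat_lit 4) (nat_lit 10) (C.cons (nat_lit 1112) (C.miq (nat_lit 1934014848) (nat_lit 1344367441619607122932207361)) (C.cons (nat_lit 1048) (C.node (nat_lit 3) (nat_lit 4) (nat_lit 7) (C.cons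 (nat_lit 216) (C.node (nat_lit 2) (nat_lit 4) (nat_lit 7) (C.cons (nat_lit 180) (C.miq (nat_lit 613971211) (nat_lit 957514185454017768371325153)) (C.cons (nat_lit 148) (C.node (nat_lit 4) (nat_lit 5) (nat_lit 7) (C.cons (nat_lit 176) (C.node (nat_lit 2) (nat_lit 6) (nat_lit 7) (C.cons (nat_lit 198) (C.miq (nat_lit 924949376) (nat_lit 239376960689714126456819457)) (C.cons (nat_lit 196) (C.node (nat_lit 6) (nat_lit 7) (nat_lit 10) (C.cons (nat_lit 1728) (C.miq (nat_lit 929216928) (nat_lit 236987775290772371968167681)) (C.cons (nat_lit 1472) (C.miq (nat_lit 2557887243) (nat_lit 1779587506100018608009709597)) (C.cons (nat_lit 1216) (C.node (nat_lit 1) (nat_lit 2) (nat_lit 7) (C.cons (nat_lit 174) (C.miq (nat_lit 2871330931) (nat_lit 2519421054940481548857508233)) (C.cons (nat_lit 134) (C.miq (nat_lit 924949376) (nat_lit 162005708234377859275624193)) C.nil))) C.nil)))) C.nil))) C.nil)) C.nil))) (C.cons (nat_lit 184) (C.miq (nat_lit 1731464088) (nat_lit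 222448568001648809611890433)) (C.cons (nat_lit 152) (C.miq (nat_lit 1731464088) (nat_lit 183762941773980676021292801)) C.nil)))) C.nil))) (C.cons (nat_lit 536) (C.miq (nat_lit 2207516598) (nat_lit 647990455976825323013540065)) C.nil)))) C.nil))) (C.cons (nat_lit 2576) (C.node (nat_lit 6) (nat_lit 9) (nat_lit 11) (C.cons (nat_lit 2624) (C.node (nat_lit 4) (nat_lit 6) (nat_lit 11) (C.cons (nat_lit 2130) (C.node (nat_lit 1) (nat_lit 4) (nat_lit 9) (C.cons (nat_lit 786) (C.miq (nat_lit 2014949891) (nat_lit 950265427324795425148045341)) (C.cons (nat_lit 530) (C.node (nat_lit 6) (nat_lit 8) (nat_lit 11) (C.cons (nat_lit 2376) (C.miq (nat_lit 330828146) (nat_lit 2872412599045273296925098629)) (C.cons (nat_lit 2368) (C.node (nat_lit 3) (nat_lit 5) (nat_lit 11) (C.cons (nat_lit 2344) (C.miq (nat_lit 330828146) (nat_lit 2833726972817605163334500997)) (C.cons (nat_lit 2090) (C.miq (nat_lit 2168135831) (nat_lit 2526699899337168696923128453)) C.nil))) C.nil)))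 C.nil))) (C.cons (nat_lit 2128) (C.node (nat_lit 5) (nat_lit 10) (nat_lit 11) (C.cons (nat_lit 3106) (C.node (nat_lit 1) (nat_lit 4) (nat_lit 11) (C.cons (nat_lit 2322) (C.miq (nat_lit 998348576) (nat_lit 2807135401551186493532734085)) C.nil)) C.nil)) C.nil))) C.nil)) C.nil))) C.nil)) C.nil))) C.nil)) (C.cons (nat_lit 2564) (C.miq (nat_lit 314116211) (nat_lit 3099695449213098135634051465)) C.nil))))) C.nil))))) C.nil))) C.nil)))) C.nil))) C.nil)))) (C.cons (nat_lit 2184) (C.node (nat_lit 7) (nat_lit 9) (nat_lit 11) (C.cons (nat_lit 2688)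
  (C.ref (nat_lit 293) (nat_lit 205163983024656)) C.nil)) C.nil))) C.nil)))) C.nil))) (C.cons (nat_lit 2434) (C.ref (nat_lit 299) (nat_lit 205163983024656)) (C.cons (nat_lit 2432) (C.ref (nat_lit 312) (nat_lit 205163983024656)) C.nil)))) C.nil)))) C.nil)))) (List.cons (C.qs (C.cons (nat_lit 16642) (C.pat (nat_lit 6) (nat_lit 567410932322) (nat_lit 3035589590342713434458379211797203767658005467038761)) (C.cons (nat_lit 16450) (C.ref (nat_lit 313) (nat_lit 205163983024656)) (C.cons (nat_lit 16641) (C.ref (nat_lit 313) (nat_lit 205163983024656)) (C.cons (nat_lit 16449) (C.pat (nat_lit 6) (nat_lit 385492891208) (nat_lit 5613674107725271220044332672622097464523859373917253)) C.nil))))) List.nil))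

theorem ok12_313 : okL par12 (nat_lit 315) c12_313 (nat_lit 313) = true := by decide +kernel


end Pool.Agent.MP_1f1ca1_co
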