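import Pool.Agent.MP_1f1ca1_co.Cert.P12

set_option autoImplicit false
set_option maxRecDepth 1000000
set_option maxHeartbeats 0

namespace Pool.Agent.MP_1f1ca1_co

noncomputable def c12_422 : List C :=
  (List.cons (C.node (nat_lit 0) (nat_lit 2) (nat_lit 6) (C.cons (nat_lit 71) (C.node (nat_lit 0) (nat_lit 2) (nat_lit 7) (C.cons (nat_lit 389) (C.node (nat_lit 0) (nat_lit 1) (nat_lit 7) (C.cons (nat_lit 643) (C.pat (nat_lit 1) (nat_lit 2339980833) (nat_lit 10732781922741051516167686185184200929)) (C.cons (nat_lit 131) (C.node (nat_lit 0) (nat_lit 7) (nat_lit 9) (C.cons (nat_lit 641) (C.node (nat_lit 0) (nat_lit 3) (nat_lit 6) (C.cons (nat_lit 585) (C.pat (nat_lit 1) (nat_lit 1754561330) (nat_lit 2019830178505214646048680701687566081)) (C.cons (nat_lit 73) (C.node (nat_lit 0) (nat_lit 6) (nat_lit 9) (C.cons (nat_lit 577) (C.node (nat_lit 0) (nat_lit 1) (nat_lit 8) (C.cons (nat_lit 291) (C.node (nat_lit 0) (nat_lit 3) (nat_lit 8) C.nil)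 (C.cons (nat_lit 267) (C.pat (nat_lit 1) (nat_lit 1954788897) (nat_lit 10732570858461593120693763116203049297)) C.nil))) C.nil)) C.nil))) C.nil)) C.nil))) (C.cons (nat_lit 133) (C.node (nat_lit 0) (nat_lit 2) (nat_lit 8) (C.cons (nat_lit 261) (C.node (nat_lit 0) (nat_lit 3) (nat_lit 6) (C.cons (nat_lit 585) (C.node (nat_lit 0) (nat_lit 5) (nat_lit 9) (C.cons (nat_lit 547) (C.pat (nat_lit 2) (nat_lit 44395771026) (nat_lit 26248176166695682886078303724338241656600201441)) (C.cons (nat_lit 545) (C.node (nat_lit 0) (nat_lit 1) (nat_lit 9) (C.cons (nat_lit 643) (C.pat (nat_lit 1) (nat_lit 934581793) (nat_lit 3338740134084033915339298597101701345)) (C.cons (nat_lit 515) (C.node (nat_lit 0) (nat_lit 7) (nat_lit 9) C.nil) C.nil))) C.nil))) (C.cons (nat_lit 73) (C.node (nat_lit 0) (nat_lit 6) (nat_lit 9) (C.cons (nat_lit 577) (C.node (nat_lit 0) (nat_lit 7) (nat_lit 8) (C.cons (nat_lit 387) (C.node (nat_lit 0) (nat_lit 7) (nat_lit 9) C.nil)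 C.nil)) C.nil)) C.nil))) C.nil)) C.nil))) (C.cons (nat_lit 69) (C.node (nat_lit 0) (nat_lit 7) (nat_lit 9) (C.cons (nat_lit 643) (C.node (nat_lit 0) (nat_lit 1) (nat_lit 2) (C.cons (nat_lit 263) (C.node (nat_lit 0) (nat_lit 2) (nat_lit 7) (C.cons (nat_lit 133) (C.node (nat_lit 0) (nat_lit 7) (nat_lit 8) (C.cons (nat_lit 385) (C.node (nat_lit 0) (nat_lit 1) (nat_lit 5) (C.cons (nat_lit 43) (C.node (nat_lit 0) (nat_lit 1) (nat_lit 6) (C.cons (nat_lit 67) (C.node (nat_lit 0) (nat_lit 3) (nat_lit 8) C.nil) C.nil)) (C.cons (nat_lit 35) (C.node (nat_lit 0) (nat_lit 1) (nat_lit 3) (C.cons (nat_lit 75) (C.pat (nat_lit 3) (nat_lit 11143703361) (nat_lit 45963142881510545099237515201538356264999520275)) C.nil)) C.nil))) C.nil)) C.nil)) (C.cons (nat_lit 7) (C.node (nat_lit 0) (nat_lit 1) (nat_lit 6) (C.cons (nat_lit 75) (C.node (nat_lit 0) (nat_lit 6) (nat_lit 9) (C.cons (nat_lit 577) (C.node (nat_lit 0) (nat_lit 1) (nat_lit 5) (C.cons (nat_lit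 291) (C.node (nat_lit 0) (nat_lit 3) (nat_lit 8) (C.cons (nat_lit 265) (C.node (nat_lit 0) (nat_lit 2) (nat_lit 7) (C.cons (nat_lit 389) (C.pat (nat_lit 2) (nat_lit 28069507956) (nat_lit 1672774693471710465122231021587457546923872001)) C.nil)) C.nil)) (C.cons (nat_lit 35) (C.node (nat_lit 0) (nat_lit 1) (nat_lit 8) C.nil) C.nil))) C.nil)) (C.cons (nat_lit 67) (C.node (nat_lit 0) (nat_lit 2) (nat_lit 7) (C.cons (nat_lit 389) (C.node (nat_lit 0) (nat_lit 3) (nat_lit 6) (C.cons (nat_lit 585) (C.pat (nat_lit 1) (nat_lit 1754561330) (nat_lit 2019830178505214646048680701687566081)) (C.cons (nat_lit 73) (C.node (nat_lit 0) (nat_lit 6) (nat_lit 9) C.nil) C.nil))) (C.cons (nat_lit 133) (C.node (nat_lit 0) (nat_lit 2) (nat_lit 8) C.nil) C.nil))) C.nil))) C.nil))) (C.cons (nat_lit 641) (C.node (nat_lit 0) (nat_lit 1) (nat_lit 2) (C.cons (nat_lit 263) (C.node (nat_lit 0) (nat_lit 1) (nat_lit 7) (C.cons (nat_lit 131) (C.node (nat_lit 0) (nat_lit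 2) (nat_lit 7) (C.cons (nat_lit 133) (C.node (nat_lit 0) (nat_lit 7) (nat_lit 8) C.nil) C.nil)) C.nil)) (C.cons (nat_lit 135) (C.node (nat_lit 0) (nat_lit 2) (nat_lit 8) (C.cons (nat_lit 261) (C.node (nat_lit 0) (nat_lit 7) (nat_lit 8) (C.cons (nat_lit 385) (C.node (nat_lit 0) (nat_lit 1) (nat_lit 6) (C.cons (nat_lit 579) (C.node (nat_lit 0) (nat_lit 3) (nat_lit 6) C.nil) (C.cons (nat_lit 75)
  (C.node (nat_lit 0) (nat_lit 6) (nat_lit 9) C.nil) C.nil))) C.nil)) C.nil)) (C.cons (nat_lit 7) (C.node (nat_lit 0) (nat_lit 1) (nat_lit 7) (C.cons (nat_lit 387) (C.node (nat_lit 0) (nat_lit 2) (nat_lit 7) (C.cons (nat_lit 133) (C.node (nat_lit 0) (nat_lit 2) (nat_lit 8) C.nil) C.nil)) (C.cons (nat_lit 131) (C.node (nat_lit 0) (nat_lit 2) (nat_lit 7) (C.cons (nat_lit 389) (C.node (nat_lit 0) (nat_lit 1) (nat_lit 6) (C.cons (nat_lit 579) (C.node (nat_lit 0) (nat_lit 3) (nat_lit 6) C.nil) (C.cons (nat_lit 75) (C.node (nat_lit 0) (nat_lit 6) (nat_lit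 9) C.nil) C.nil))) C.nil)) C.nil))) C.nil)))) C.nil))) C.nil))) (List.cons (C.node (nat_lit 0) (nat_lit 2) (nat_lit 6) (C.cons (nat_lit 581) (C.node (nat_lit 0) (nat_lit 1) (nat_lit 6) (C.cons (nat_lit 75) (C.node (nat_lit 0) (nat_lit 3) (nat_lit 8) (C.cons (nat_lit 297) (C.node (nat_lit 0) (nat_lit 3) (nat_lit 9) (C.cons (nat_lit 521) (C.node (nat_lit 0) (nat_lit 1) (nat_lit 5) (C.cons (nat_lit 547) (C.node (nat_lit 0) (nat_lit 7) (nat_lit 9) (C.cons (nat_lit 641) (C.node (nat_lit 0) (nat_lit 1) (nat_lit 2) (C.cons (nat_lit 263) (C.pat (nat_lit 1) (nat_lit 3040253985) (nat_lit 2840366467322685926640736980588364073)) (C.cons (nat_lit 135) (C.node (nat_lit 0) (nat_lit 1) (nat_lit 8) C.nil) C.nil))) C.nil)) (C.cons (nat_lit 35) (C.node (nat_lit 0) (nat_lit 5) (nat_lit 9) C.nil) C.nil))) C.nil)) (C.cons (nat_lit 265) (C.node (nat_lit 0) (nat_lit 3) (nat_lit 5) (C.cons (nat_lit 553) (C.node (nat_lit 0) (nat_lit 1) (nat_lit 5) (C.cons (nat_lit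 291) (C.node (nat_lit 0) (nat_lit 1) (nat_lit 2) (C.cons (nat_lit 135) (C.node (nat_lit 0) (nat_lit 1) (nat_lit 9) (C.cons (nat_lit 515) (C.node (nat_lit 0) (nat_lit 2) (nat_lit 8) C.nil) C.nil)) (C.cons (nat_lit 7) (C.node (nat_lit 0) (nat_lit 1) (nat_lit 7) (C.cons (nat_lit 643) (C.node (nat_lit 0) (nat_lit 2) (nat_lit 7) (C.cons (nat_lit 389) (C.pat (nat_lit 2) (nat_lit 6613538421) (nat_lit 1672956404255517102567611151326282350499794689)) C.nil)) C.nil)) C.nil))) (C.cons (nat_lit 35) (C.node (nat_lit 0) (nat_lit 5) (nat_lit 8) C.nil) C.nil))) (C.cons (nat_lit 41) (C.node (nat_lit 0) (nat_lit 3) (nat_lit 9) C.nil) C.nil))) C.nil))) (C.cons (nat_lit 67) (C.node (nat_lit 0) (nat_lit 3) (nat_lit 6) (C.cons (nat_lit 73) (C.node (nat_lit 0) (nat_lit 7) (nat_lit 9) (C.cons (nat_lit 643) (C.node (nat_lit 0) (nat_lit 1) (nat_lit 2) (C.cons (nat_lit 263) (C.node (nat_lit 0) (nat_lit 2) (nat_lit 7) C.nil) C.nil)) C.nil)) C.nil)) C.nil))) (C.cons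 (nat_lit 71) (C.node (nat_lit 0) (nat_lit 2) (nat_lit 8) (C.cons (nat_lit 389) (C.node (nat_lit 0) (nat_lit 2) (nat_lit 9) (C.cons (nat_lit 517) (C.node (nat_lit 0) (nat_lit 1) (nat_lit 7) (C.cons (nat_lit 643) (C.node (nat_lit 0) (nat_lit 3) (nat_lit 6) (C.cons (nat_lit 585) (C.node (nat_lit 0) (nat_lit 5) (nat_lit 9) (C.cons (nat_lit 545) (C.node (nat_lit 0) (nat_lit 1) (nat_lit 3) (C.cons (nat_lit 43) (C.node (nat_lit 0) (nat_lit 1) (nat_lit 8) C.nil) (C.cons (nat_lit 267) (C.pat (nat_lit 1) (nat_lit 2608346642) (nat_lit 10701628141282779967078412320869386465)) C.nil))) C.nil)) (C.cons (nat_lit 73) (C.node (nat_lit 0) (nat_lit 6) (nat_lit 9) C.nil) C.nil))) (C.cons (nat_lit 131) (C.node (nat_lit 0) (nat_lit 7) (nat_lit 9) C.nil) C.nil))) C.nil)) (C.cons (nat_lit 261) (C.node (nat_lit 0) (nat_lit 2) (nat_lit 7) (C.cons (nat_lit 645) (C.node (nat_lit 0) (nat_lit 1) (nat_lit 7) (C.cons (nat_lit 387) (C.node (nat_lit 0) (nat_lit 3) (nat_lit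 6) (C.cons (nat_lit 585) (C.pat (nat_lit 3) (nat_lit 34704866166) (nat_lit 85657865673218019055352090499433350781964191969)) (C.cons (nat_lit 73) (C.node (nat_lit 0) (nat_lit 6) (nat_lit 9) C.nil) C.nil))) (C.cons (nat_lit 131) (C.node (nat_lit 0) (nat_lit 7) (nat_lit 8) C.nil) C.nil))) (C.cons (nat_lit 133) (C.node (nat_lit 0) (nat_lit 2) (nat_lit 9) C.nil) C.nil))) C.nil))) (C.cons (nat_lit 69) (C.node (nat_lit 0) (nat_lit 1) (nat_lit 6) (C.cons (nat_lit 579) (C.node (nat_lit 0) (nat_lit 3) (nat_lit 6) (C.cons (nat_lit 73) (C.node (nat_lit 0) (nat_lit 2) (nat_lit 9)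
  (C.cons (nat_lit 645) (C.node (nat_lit 0) (nat_lit 1) (nat_lit 2) (C.cons (nat_lit 263) (C.node (nat_lit 0) (nat_lit 1) (nat_lit 7) C.nil) C.nil)) C.nil)) C.nil)) (C.cons (nat_lit 75) (C.node (nat_lit 0) (nat_lit 6) (nat_lit 9) (C.cons (nat_lit 577) (C.node (nat_lit 0) (nat_lit 3) (nat_lit 8) (C.cons (nat_lit 297) (C.node (nat_lit 0) (nat_lit 3) (nat_lit 9) C.nil) C.nil)) C.nil)) (C.cons (nat_lit 67) (C.node (nat_lit 0) (nat_lit 3) (nat_lit 6) (C.cons (nat_lit 585) (C.node (nat_lit 0) (nat_lit 5) (nat_lit 9) (C.cons (nat_lit 547) (C.node (nat_lit 0) (nat_lit 1) (nat_lit 3) (C.cons (nat_lit 267) (C.node (nat_lit 0) (nat_lit 3) (nat_lit 5) C.nil) C.nil)) C.nil)) C.nil)) C.nil)))) C.nil)))) (List.cons (C.node (nat_lit 0) (nat_lit 7) (nat_lit 8) (C.cons (nat_lit 387) (C.node (nat_lit 0) (nat_lit 2) (nat_lit 7) (C.cons (nat_lit 645) (C.node (nat_lit 0) (nat_lit 1) (nat_lit 2) (C.cons (nat_lit 71) (C.node (nat_lit 0) (nat_lit 5) (nat_lit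 8) (C.cons (nat_lit 297) (C.node (nat_lit 0) (nat_lit 6) (nat_lit 8) (C.cons (nat_lit 321) (C.node (nat_lit 0) (nat_lit 1) (nat_lit 3) (C.cons (nat_lit 523) (C.pat (nat_lit 1) (nat_lit 682916145) (nat_lit 2009440832952856311336303711206575873)) (C.cons (nat_lit 11) (C.node (nat_lit 0) (nat_lit 1) (nat_lit 5) (C.cons (nat_lit 547) (C.pat (nat_lit 2) (nat_lit 39247458695) (nat_lit 12198608688897796924828912627445377121290225677)) C.nil)) C.nil))) C.nil)) (C.cons (nat_lit 289) (C.node (nat_lit 0) (nat_lit 3) (nat_lit 8) (C.cons (nat_lit 329) (C.pat (nat_lit 1) (nat_lit 934577697) (nat_lit 2009512138299113320069008667159365857)) (C.cons (nat_lit 265) (C.node (nat_lit 0) (nat_lit 6) (nat_lit 8) C.nil) C.nil))) C.nil))) (C.cons (nat_lit 7) (C.node (nat_lit 0) (nat_lit 2) (nat_lit 6) (C.cons (nat_lit 69) (C.node (nat_lit 0) (nat_lit 5) (nat_lit 8) (C.cons (nat_lit 297) (C.node (nat_lit 0) (nat_lit 6) (nat_lit 8) C.nil) C.nil)) C.nil)) C.nil)))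 (C.cons (nat_lit 133) (C.node (nat_lit 0) (nat_lit 7) (nat_lit 9) (C.cons (nat_lit 641) (C.node (nat_lit 0) (nat_lit 5) (nat_lit 8) (C.cons (nat_lit 297) (C.node (nat_lit 0) (nat_lit 6) (nat_lit 8) C.nil) C.nil)) C.nil)) C.nil))) (C.cons (nat_lit 385) (C.node (nat_lit 0) (nat_lit 1) (nat_lit 7) (C.cons (nat_lit 643) (C.node (nat_lit 0) (nat_lit 2) (nat_lit 7) (C.cons (nat_lit 133) (C.node (nat_lit 0) (nat_lit 1) (nat_lit 2) (C.cons (nat_lit 71) (C.node (nat_lit 0) (nat_lit 2) (nat_lit 9) C.nil) C.nil)) C.nil)) (C.cons (nat_lit 135) (C.node (nat_lit 0) (nat_lit 7) (nat_lit 9) (C.cons (nat_lit 641) (C.node (nat_lit 0) (nat_lit 2) (nat_lit 6) (C.cons (nat_lit 581) (C.node (nat_lit 0) (nat_lit 1) (nat_lit 6) (C.cons (nat_lit 323) (C.node (nat_lit 0) (nat_lit 3) (nat_lit 6) C.nil) (C.cons (nat_lit 75) (C.node (nat_lit 0) (nat_lit 6) (nat_lit 8) C.nil) C.nil))) C.nil)) C.nil)) (C.cons (nat_lit 131) (C.node (nat_lit 0) (nat_lit 2) (nat_lit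 7) (C.cons (nat_lit 645) (C.node (nat_lit 0) (nat_lit 1) (nat_lit 2) (C.cons (nat_lit 71) (C.node (nat_lit 0) (nat_lit 6) (nat_lit 8) (C.cons (nat_lit 329) (C.node (nat_lit 0) (nat_lit 6) (nat_lit 9) C.nil) C.nil)) C.nil)) C.nil)) C.nil)))) C.nil))) (List.cons (C.node (nat_lit 0) (nat_lit 4) (nat_lit 5) (C.cons (nat_lit 561) (C.ref (nat_lit 421) (nat_lit 205163983024656)) (C.cons (nat_lit 305) (C.ref (nat_lit 421) (nat_lit 205099558515216)) (C.cons (nat_lit 49) (C.node (nat_lit 0) (nat_lit 4) (nat_lit 8) (C.cons (nat_lit 337) (C.node (nat_lit 0) (nat_lit 2) (nat_lit 4) (C.cons (nat_lit 533) (C.ref (nat_lit 422) (nat_lit 205163983024656)) (C.cons (nat_lit 21) (C.node (nat_lit 0) (nat_lit 4) (nat_lit 9) (C.cons (nat_lit 529) (C.ref (nat_lit 423) (nat_lit 205163983024656)) C.nil)) C.nil))) (C.cons (nat_lit 277) (C.node (nat_lit 0) (nat_lit 4) (nat_lit 6) (C.cons (nat_lit 593) (C.ref (nat_lit 422) (nat_lit 205099558515216)) (C.cons (nat_lit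 81) (C.node (nat_lit 0) (nat_lit 4) (nat_lit 9) (C.cons (nat_lit 529) (C.ref (nat_lit 424) (nat_lit 205163983024656)) C.nil)) C.nil))) (C.cons (nat_lit 273) (C.node (nat_lit 0) (nat_lit 2) (nat_lit 4)
  (C.cons (nat_lit 533) (C.node (nat_lit 0) (nat_lit 4) (nat_lit 6) (C.cons (nat_lit 81) (C.ref (nat_lit 424) (nat_lit 205099558515216)) C.nil)) (C.cons (nat_lit 85) (C.node (nat_lit 0) (nat_lit 4) (nat_lit 9) (C.cons (nat_lit 529) (C.node (nat_lit 0) (nat_lit 2) (nat_lit 8) (C.cons (nat_lit 389) (C.node (nat_lit 0) (nat_lit 1) (nat_lit 2) (C.cons (nat_lit 519) (C.node (nat_lit 0) (nat_lit 1) (nat_lit 7) (C.cons (nat_lit 131) (C.node (nat_lit 0) (nat_lit 7) (nat_lit 9) (C.cons (nat_lit 641) (C.node (nat_lit 0) (nat_lit 9) (nat_lit 6) (C.cons (nat_lit 585) (C.node (nat_lit 0) (nat_lit 9) (nat_lit 5) C.nil) C.nil)) C.nil)) C.nil)) (C.cons (nat_lit 7) (C.node (nat_lit 0) (nat_lit 2) (nat_lit 9) (C.cons (nat_lit 517) (C.node (nat_lit 0) (nat_lit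 1) (nat_lit 7) (C.cons (nat_lit 643) (C.node (nat_lit 0) (nat_lit 5) (nat_lit 9) (C.cons (nat_lit 553) (C.node (nat_lit 0) (nat_lit 6) (nat_lit 9) C.nil) C.nil)) C.nil)) C.nil)) C.nil))) (C.cons (nat_lit 263) (C.node (nat_lit 0) (nat_lit 7) (nat_lit 8) (C.cons (nat_lit 385) (C.node (nat_lit 0) (nat_lit 1) (nat_lit 7) (C.cons (nat_lit 643) (C.node (nat_lit 0) (nat_lit 2) (nat_lit 7) (C.cons (nat_lit 133) (C.node (nat_lit 0) (nat_lit 2) (nat_lit 9) C.nil) C.nil)) (C.cons (nat_lit 131) (C.node (nat_lit 0) (nat_lit 2) (nat_lit 7) (C.cons (nat_lit 645) (C.node (nat_lit 0) (nat_lit 8) (nat_lit 6) (C.cons (nat_lit 329) (C.node (nat_lit 0) (nat_lit 8) (nat_lit 5) C.nil) C.nil)) C.nil)) C.nil))) C.nil)) (C.cons (nat_lit 261) (C.node (nat_lit 0) (nat_lit 7) (nat_lit 8) (C.cons (nat_lit 387) (C.node (nat_lit 0) (nat_lit 1) (nat_lit 2) (C.cons (nat_lit 519) (C.node (nat_lit 0) (nat_lit 2) (nat_lit 7) (C.cons (nat_lit 133) (C.node (nat_lit 0) (nat_lit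 7) (nat_lit 9) C.nil) C.nil)) (C.cons (nat_lit 7) (C.node (nat_lit 0) (nat_lit 2) (nat_lit 7) (C.cons (nat_lit 645) (C.node (nat_lit 0) (nat_lit 5) (nat_lit 8) (C.cons (nat_lit 297) (C.node (nat_lit 0) (nat_lit 6) (nat_lit 8) C.nil) C.nil)) C.nil)) C.nil))) (C.cons (nat_lit 385) (C.node (nat_lit 0) (nat_lit 1) (nat_lit 2) (C.cons (nat_lit 519) (C.node (nat_lit 0) (nat_lit 1) (nat_lit 7) C.nil) (C.cons (nat_lit 135) (C.node (nat_lit 0) (nat_lit 2) (nat_lit 9) C.nil) C.nil))) C.nil))) C.nil)))) C.nil)) (C.cons (nat_lit 21) (C.node (nat_lit 0) (nat_lit 4) (nat_lit 6) (C.cons (nat_lit 593) (C.ref (nat_lit 423) (nat_lit 205099558515216)) (C.cons (nat_lit 81) (C.node (nat_lit 0) (nat_lit 4) (nat_lit 9) (C.cons (nat_lit 529) (C.node (nat_lit 0) (nat_lit 5) (nat_lit 8) (C.cons (nat_lit 297) (C.node (nat_lit 0) (nat_lit 1) (nat_lit 5) (C.cons (nat_lit 547) (C.node (nat_lit 0) (nat_lit 1) (nat_lit 3) (C.cons (nat_lit 75) (C.node (nat_lit 0) (nat_lit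 3) (nat_lit 9) C.nil) C.nil)) C.nil)) (C.cons (nat_lit 291) (C.node (nat_lit 0) (nat_lit 3) (nat_lit 5) (C.cons (nat_lit 553) (C.node (nat_lit 0) (nat_lit 1) (nat_lit 3) (C.cons (nat_lit 75) (C.node (nat_lit 0) (nat_lit 3) (nat_lit 8) C.nil) C.nil)) C.nil)) C.nil))) C.nil)) C.nil))) C.nil)))) C.nil)))) C.nil)))) (List.cons (C.node (nat_lit 0) (nat_lit 1) (nat_lit 10) (C.cons (nat_lit 1091) (C.node (nat_lit 0) (nat_lit 3) (nat_lit 6) (C.cons (nat_lit 585) (C.ref (nat_lit 415) (nat_lit 205163983024656)) (C.cons (nat_lit 329) (C.ref (nat_lit 415) (nat_lit 205099558515216)) (C.cons (nat_lit 73) (C.node (nat_lit 0) (nat_lit 3) (nat_lit 8) (C.cons (nat_lit 297) (C.node (nat_lit 0) (nat_lit 1) (nat_lit 3) (C.cons (nat_lit 523) (C.node (nat_lit 0) (nat_lit 1) (nat_lit 5) (C.cons (nat_lit 35) (C.node (nat_lit 0) (nat_lit 4) (nat_lit 5) (C.cons (nat_lit 561) (C.ref (nat_lit 411) (nat_lit 188671273095696)) (C.cons (nat_lit 49) (C.node (nat_lit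 0) (nat_lit 5) (nat_lit 9) (C.cons (nat_lit 545) (C.ref (nat_lit 416) (nat_lit 205163983024656)) C.nil)) C.nil))) C.nil)) (C.cons (nat_lit 11) (C.node (nat_lit 0) (nat_lit 3) (nat_lit 9) (C.cons (nat_lit 521) (C.ref (nat_lit 417) (nat_lit 205163983024656)) C.nil)) C.nil))) (C.cons (nat_lit 267) (C.node (nat_lit 0) (nat_lit 1) (nat_lit 5) (C.cons (nat_lit 547)
  (C.node (nat_lit 0) (nat_lit 3) (nat_lit 5) (C.cons (nat_lit 41) (C.node (nat_lit 0) (nat_lit 3) (nat_lit 9) (C.cons (nat_lit 521) (C.ref (nat_lit 419) (nat_lit 205163983024656)) C.nil)) C.nil)) (C.cons (nat_lit 35) (C.node (nat_lit 0) (nat_lit 3) (nat_lit 5) (C.cons (nat_lit 553) (C.node (nat_lit 0) (nat_lit 4) (nat_lit 5) (C.cons (nat_lit 305) (C.ref (nat_lit 411) (nat_lit 188606848586256)) (C.cons (nat_lit 49) (C.node (nat_lit 0) (nat_lit 5) (nat_lit 8) (C.cons (nat_lit 289) (C.ref (nat_lit 416) (nat_lit 205099558515216)) C.nil)) C.nil))) (C.cons (nat_lit 41) (C.node (nat_lit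 0) (nat_lit 3) (nat_lit 9) (C.cons (nat_lit 521) (C.ref (nat_lit 420) (nat_lit 205163983024656)) C.nil)) C.nil))) C.nil))) (C.cons (nat_lit 265) (C.node (nat_lit 0) (nat_lit 1) (nat_lit 3) (C.cons (nat_lit 523) (C.node (nat_lit 0) (nat_lit 3) (nat_lit 5) (C.cons (nat_lit 41) (C.node (nat_lit 0) (nat_lit 1) (nat_lit 5) (C.cons (nat_lit 291) (C.ref (nat_lit 419) (nat_lit 205099558515216)) (C.cons (nat_lit 35) (C.ref (nat_lit 420) (nat_lit 205099558515216)) C.nil))) C.nil)) (C.cons (nat_lit 43) (C.node (nat_lit 0) (nat_lit 3) (nat_lit 9) (C.cons (nat_lit 521) (C.node (nat_lit 0) (nat_lit 5) (nat_lit 8) (C.cons (nat_lit 305) (C.node (nat_lit 0) (nat_lit 5) (nat_lit 9) (C.cons (nat_lit 545) (C.ref (nat_lit 410) (nat_lit 188606848586256)) C.nil)) (C.cons (nat_lit 289) (C.node (nat_lit 0) (nat_lit 4) (nat_lit 5) (C.cons (nat_lit 561) (C.ref (nat_lit 410) (nat_lit 188671273095696)) (C.cons (nat_lit 49) (C.node (nat_lit 0) (nat_lit 5) (nat_lit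 9) (C.cons (nat_lit 545) (C.node (nat_lit 0) (nat_lit 1) (nat_lit 8) (C.cons (nat_lit 387) (C.node (nat_lit 0) (nat_lit 1) (nat_lit 2) (C.cons (nat_lit 519) (C.node (nat_lit 0) (nat_lit 2) (nat_lit 7) (C.cons (nat_lit 133) (C.node (nat_lit 0) (nat_lit 7) (nat_lit 9) C.nil) C.nil)) (C.cons (nat_lit 7) (C.node (nat_lit 0) (nat_lit 1) (nat_lit 9) C.nil) C.nil))) (C.cons (nat_lit 263) (C.node (nat_lit 0) (nat_lit 7) (nat_lit 8) (C.cons (nat_lit 385) (C.node (nat_lit 0) (nat_lit 1) (nat_lit 7) (C.cons (nat_lit 643) (C.node (nat_lit 0) (nat_lit 2) (nat_lit 7) C.nil) C.nil)) C.nil)) (C.cons (nat_lit 259) (C.node (nat_lit 0) (nat_lit 7) (nat_lit 8) (C.cons (nat_lit 389) (C.node (nat_lit 0) (nat_lit 1) (nat_lit 2) (C.cons (nat_lit 519) (C.node (nat_lit 0) (nat_lit 1) (nat_lit 7) C.nil) C.nil)) C.nil)) C.nil)))) C.nil)) C.nil))) C.nil))) C.nil)) (C.cons (nat_lit 11) (C.node (nat_lit 0) (nat_lit 3) (nat_lit 5) (C.cons (nat_lit 553) (C.ref (nat_lit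 417) (nat_lit 205099558515216)) (C.cons (nat_lit 41) (C.node (nat_lit 0) (nat_lit 3) (nat_lit 9) (C.cons (nat_lit 521) (C.node (nat_lit 0) (nat_lit 1) (nat_lit 5) (C.cons (nat_lit 547) (C.node (nat_lit 0) (nat_lit 4) (nat_lit 5) (C.cons (nat_lit 305) (C.ref (nat_lit 409) (nat_lit 188606848586256)) (C.cons (nat_lit 49) (C.node (nat_lit 0) (nat_lit 5) (nat_lit 8) (C.cons (nat_lit 289) (C.node (nat_lit 0) (nat_lit 7) (nat_lit 9) (C.cons (nat_lit 645) (C.node (nat_lit 0) (nat_lit 1) (nat_lit 2) (C.cons (nat_lit 263) (C.node (nat_lit 0) (nat_lit 1) (nat_lit 7) C.nil) C.nil)) C.nil)) C.nil)) C.nil))) (C.cons (nat_lit 291) (C.node (nat_lit 0) (nat_lit 4) (nat_lit 5) (C.cons (nat_lit 561) (C.ref (nat_lit 409) (nat_lit 188671273095696)) (C.cons (nat_lit 49) (C.node (nat_lit 0) (nat_lit 5) (nat_lit 9) (C.cons (nat_lit 545) (C.node (nat_lit 0) (nat_lit 7) (nat_lit 8) (C.cons (nat_lit 389) (C.node (nat_lit 0) (nat_lit 1) (nat_lit 2) (C.cons (nat_lit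 519) (C.node (nat_lit 0) (nat_lit 1) (nat_lit 7) C.nil) C.nil)) C.nil)) C.nil)) C.nil))) (C.cons (nat_lit 35) (C.node (nat_lit 0) (nat_lit 5) (nat_lit 8) (C.cons (nat_lit 305) (C.node (nat_lit 0) (nat_lit 5) (nat_lit 9) (C.cons (nat_lit 545) (C.node (nat_lit 0) (nat_lit 6) (nat_lit 8) (C.cons (nat_lit 325) (C.node (nat_lit 0) (nat_lit 1) (nat_lit 8) (C.cons (nat_lit 387) (C.node (nat_lit 0) (nat_lit 1) (nat_lit 2) (C.cons (nat_lit 519) (C.node (nat_lit 0) (nat_lit 2) (nat_lit 4) C.nil) C.nil)) C.nil)) C.nil)) C.nil)) (C.cons (nat_lit 289)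
  (C.node (nat_lit 0) (nat_lit 4) (nat_lit 5) (C.cons (nat_lit 561) (C.node (nat_lit 0) (nat_lit 6) (nat_lit 9) (C.cons (nat_lit 581) (C.node (nat_lit 0) (nat_lit 1) (nat_lit 9) (C.cons (nat_lit 643) (C.node (nat_lit 0) (nat_lit 1) (nat_lit 2) (C.cons (nat_lit 263) (C.node (nat_lit 0) (nat_lit 2) (nat_lit 4) C.nil) C.nil)) C.nil)) C.nil)) C.nil)) C.nil))) C.nil)))) C.nil)) C.nil))) C.nil)))) C.nil)))) C.nil)))) (C.cons (nat_lit 1027) (C.node (nat_lit 0) (nat_lit 6) (nat_lit 10) (C.cons (nat_lit 1089) (C.ref (nat_lit 425) (nat_lit 205163983024656)) C.nil)) C.nil))) (List.cons (C.node (nat_lit 0) (nat_lit 3) (nat_lit 5) (C.cons (nat_lit 553) (C.node (nat_lit 0) (nat_lit 2) (nat_lit 5) (C.cons (nat_lit 53) (C.pat (nat_lit 1) (nat_lit 2072332833) (nat_lit 10732657692556702756447016077934006017)) (C.cons (nat_lit 37) (C.node (nat_lit 0) (nat_lit 4) (nat_lit 5) (C.cons (nat_lit 49) (C.node (nat_lit 0) (nat_lit 3) (nat_lit 6) (C.cons (nat_lit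 329) (C.node (nat_lit 0) (nat_lit 4) (nat_lit 8) (C.cons (nat_lit 273) (C.node (nat_lit 0) (nat_lit 2) (nat_lit 4) (C.cons (nat_lit 85) (C.node (nat_lit 0) (nat_lit 2) (nat_lit 9) C.nil) (C.cons (nat_lit 533) (C.pat (nat_lit 2) (nat_lit 22322393465) (nat_lit 6489649228724657069856928182025662386063738893)) C.nil))) C.nil)) (C.cons (nat_lit 73) (C.node (nat_lit 0) (nat_lit 3) (nat_lit 8) C.nil) C.nil))) C.nil)) C.nil))) (C.cons (nat_lit 41) (C.node (nat_lit 0) (nat_lit 3) (nat_lit 8) (C.cons (nat_lit 329) (C.node (nat_lit 0) (nat_lit 3) (nat_lit 9) (C.cons (nat_lit 521) (C.node (nat_lit 0) (nat_lit 4) (nat_lit 8) (C.cons (nat_lit 273) (C.node (nat_lit 0) (nat_lit 2) (nat_lit 6) (C.cons (nat_lit 85) (C.node (nat_lit 0) (nat_lit 9) (nat_lit 6) C.nil) (C.cons (nat_lit 581) (C.node (nat_lit 0) (nat_lit 4) (nat_lit 6) C.nil) C.nil))) C.nil)) C.nil)) (C.cons (nat_lit 265) (C.node (nat_lit 0) (nat_lit 3) (nat_lit 6) (C.cons (nat_lit 585) (C.node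 (nat_lit 0) (nat_lit 2) (nat_lit 6) (C.cons (nat_lit 85) (C.node (nat_lit 0) (nat_lit 4) (nat_lit 8) (C.cons (nat_lit 273) (C.node (nat_lit 0) (nat_lit 6) (nat_lit 8) C.nil) C.nil)) (C.cons (nat_lit 69) (C.node (nat_lit 0) (nat_lit 4) (nat_lit 6) (C.cons (nat_lit 337) (C.node (nat_lit 0) (nat_lit 2) (nat_lit 9) (C.cons (nat_lit 549) (C.node (nat_lit 0) (nat_lit 2) (nat_lit 4) C.nil) (C.cons (nat_lit 533) (C.pat (nat_lit 1) (nat_lit 1665775490) (nat_lit 10701370174559749978437580787808273561)) C.nil))) C.nil)) C.nil))) (C.cons (nat_lit 73) (C.node (nat_lit 0) (nat_lit 3) (nat_lit 9) C.nil) C.nil))) C.nil))) C.nil))) (List.cons (C.node (nat_lit 0) (nat_lit 1) (nat_lit 3) (C.cons (nat_lit 75) (C.node (nat_lit 0) (nat_lit 3) (nat_lit 8) (C.cons (nat_lit 265) (C.node (nat_lit 0) (nat_lit 3) (nat_lit 5) (C.cons (nat_lit 553) (C.ref (nat_lit 406) (nat_lit 201582839083536)) (C.cons (nat_lit 41) (C.node (nat_lit 0) (nat_lit 3) (nat_lit 9) (C.cons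 (nat_lit 521) (C.ref (nat_lit 418) (nat_lit 201582839083536)) C.nil)) C.nil))) C.nil)) (C.cons (nat_lit 11) (C.node (nat_lit 0) (nat_lit 1) (nat_lit 6) (C.cons (nat_lit 67) (C.ref (nat_lit 427) (nat_lit 205163983024656)) C.nil)) C.nil))) (List.cons (C.node (nat_lit 0) (nat_lit 3) (nat_lit 8) (C.cons (nat_lit 265) (C.node (nat_lit 0) (nat_lit 3) (nat_lit 5) (C.cons (nat_lit 553) (C.node (nat_lit 0) (nat_lit 2) (nat_lit 5) (C.cons (nat_lit 53) (C.node (nat_lit 0) (nat_lit 2) (nat_lit 8) (C.cons (nat_lit 325) (C.pat (nat_lit 2) (nat_lit 14584166945) (nat_lit 26247995135323650020236350300561021261582895329)) (C.cons (nat_lit 261) (C.node (nat_lit 0) (nat_lit 2) (nat_lit 6) (C.cons (nat_lit 581) (C.pat (nat_lit 1) (nat_lit 3073808929) (nat_lit 3338826965742029378979667926728377497)) (C.cons (nat_lit 69) (C.node (nat_lit 0) (nat_lit 2) (nat_lit 9) C.nil) C.nil))) C.nil))) (C.cons (nat_lit 37) (C.node (nat_lit 0) (nat_lit 4) (nat_lit 5) (C.cons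 (nat_lit 49) (C.node (nat_lit 0) (nat_lit 2) (nat_lit 8) (C.cons (nat_lit 325) (C.node (nat_lit 0) (nat_lit 4) (nat_lit 8) C.nil) (C.cons (nat_lit 277)
  (C.node (nat_lit 0) (nat_lit 6) (nat_lit 8) C.nil) C.nil))) C.nil)) C.nil))) (C.cons (nat_lit 41) (C.node (nat_lit 0) (nat_lit 3) (nat_lit 9) (C.cons (nat_lit 521) (C.node (nat_lit 0) (nat_lit 2) (nat_lit 8) (C.cons (nat_lit 325) (C.node (nat_lit 0) (nat_lit 4) (nat_lit 8) C.nil) (C.cons (nat_lit 277) (C.node (nat_lit 0) (nat_lit 8) (nat_lit 6) C.nil) C.nil))) C.nil)) C.nil))) C.nil)) (List.cons (C.node (nat_lit 0) (nat_lit 3) (nat_lit 5) (C.cons (nat_lit 553) (C.node (nat_lit 0) (nat_lit 2) (nat_lit 5) (C.cons (nat_lit 53) (C.node (nat_lit 0) (nat_lit 2) (nat_lit 8) (C.cons (nat_lit 325) (C.node (nat_lit 0) (nat_lit 2) (nat_lit 9) (C.cons (nat_lit 517) (C.node (nat_lit 0) (nat_lit 3) (nat_lit 6) C.nil) C.nil)) (C.cons (nat_lit 261) (C.node (nat_lit 0) (nat_lit 2) (nat_lit 6) (C.cons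 (nat_lit 581) (C.node (nat_lit 0) (nat_lit 4) (nat_lit 9) C.nil) C.nil)) C.nil))) (C.cons (nat_lit 37) (C.node (nat_lit 0) (nat_lit 4) (nat_lit 5) C.nil) C.nil))) (C.cons (nat_lit 41) (C.node (nat_lit 0) (nat_lit 3) (nat_lit 8) (C.cons (nat_lit 329) (C.node (nat_lit 0) (nat_lit 3) (nat_lit 9) C.nil) C.nil)) C.nil))) List.nil)))))))))

theorem ok12_422 : okL par12 (nat_lit 431) c12_422 (nat_lit 422) = true := by decide +kernel

noncomputable def c12_431 : List C :=
  (List.cons (C.node (nat_lit 0) (nat_lit 1) (nat_lit 8) (C.cons (nat_lit 259) (C.node (nat_lit 0) (nat_lit 3) (nat_lit 8) (C.cons (nat_lit 329) (C.node (nat_lit 0) (nat_lit 3) (nat_lit 9) (C.cons (nat_lit 521) (C.node (nat_lit 0) (nat_lit 2) (nat_lit 8) (C.cons (nat_lit 293) (C.node (nat_lit 0) (nat_lit 4) (nat_lit 8) C.nil) (C.cons (nat_lit 277) (C.node (nat_lit 0) (nat_lit 8) (nat_lit 5) C.nil) C.nil))) C.nil)) (C.cons (nat_lit 265) (C.node (nat_lit 0) (nat_lit 3) (nat_lit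 6) (C.cons (nat_lit 585) (C.node (nat_lit 0) (nat_lit 2) (nat_lit 6) (C.cons (nat_lit 325) (C.node (nat_lit 0) (nat_lit 4) (nat_lit 6) C.nil) (C.cons (nat_lit 85) (C.node (nat_lit 0) (nat_lit 6) (nat_lit 8) C.nil) C.nil))) C.nil)) C.nil))) C.nil)) (List.cons (C.node (nat_lit 0) (nat_lit 1) (nat_lit 5) (C.cons (nat_lit 291) (C.node (nat_lit 0) (nat_lit 1) (nat_lit 3) (C.cons (nat_lit 75) (C.ref (nat_lit 429) (nat_lit 205163983024656)) (C.cons (nat_lit 11) (C.node (nat_lit 0) (nat_lit 1) (nat_lit 6) (C.cons (nat_lit 67) (C.ref (nat_lit 430) (nat_lit 205163983024656)) C.nil)) C.nil))) (C.cons (nat_lit 43) (C.node (nat_lit 0) (nat_lit 1) (nat_lit 6) (C.cons (nat_lit 323) (C.ref (nat_lit 429) (nat_lit 205163967296016)) (C.cons (nat_lit 67) (C.ref (nat_lit 431) (nat_lit 205163983024656)) C.nil))) (C.cons (nat_lit 35) (C.node (nat_lit 0) (nat_lit 1) (nat_lit 3) (C.cons (nat_lit 267) (C.node (nat_lit 0) (nat_lit 1) (nat_lit 6) (C.cons (nat_lit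 67) (C.node (nat_lit 0) (nat_lit 3) (nat_lit 5) (C.cons (nat_lit 553) (C.node (nat_lit 0) (nat_lit 3) (nat_lit 6) (C.cons (nat_lit 73) (C.node (nat_lit 0) (nat_lit 2) (nat_lit 5) (C.cons (nat_lit 293) (C.node (nat_lit 0) (nat_lit 4) (nat_lit 5) C.nil) (C.cons (nat_lit 53) (C.node (nat_lit 0) (nat_lit 5) (nat_lit 8) C.nil) C.nil))) C.nil)) (C.cons (nat_lit 41) (C.node (nat_lit 0) (nat_lit 3) (nat_lit 6) (C.cons (nat_lit 585) (C.node (nat_lit 0) (nat_lit 2) (nat_lit 6) (C.cons (nat_lit 325) (C.node (nat_lit 0) (nat_lit 4) (nat_lit 6) C.nil) (C.cons (nat_lit 85) (C.node (nat_lit 0) (nat_lit 6) (nat_lit 8) C.nil) C.nil))) C.nil)) C.nil))) C.nil)) (C.cons (nat_lit 75) (C.ref (nat_lit 431) (nat_lit 205163967296016)) (C.cons (nat_lit 11) (C.node (nat_lit 0) (nat_lit 1) (nat_lit 6) (C.cons (nat_lit 323) (C.ref (nat_lit 430) (nat_lit 205163967296016)) (C.cons (nat_lit 67) (C.node (nat_lit 0) (nat_lit 1) (nat_lit 8) C.nil) C.nil))) C.nil))))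 C.nil)))) (List.cons (C.node (nat_lit 0) (nat_lit 2) (nat_lit 7) (C.cons (nat_lit 389) (C.node (nat_lit 0) (nat_lit 1) (nat_lit 5) (C.cons (nat_lit 291) (C.ref (nat_lit 428) (nat_lit 205163983024656)) (C.cons (nat_lit 43) (C.ref (nat_lit 428) (nat_lit 134431240716816)) (C.cons (nat_lit 35) (C.node (nat_lit 0) (nat_lit 1) (nat_lit 3) (C.cons (nat_lit 267) (C.node (nat_lit 0) (nat_lit 1) (nat_lit 6) (C.cons (nat_lit 67) (C.node (nat_lit 0) (nat_lit 3) (nat_lit 5) (C.cons (nat_lit 553) (C.node (nat_lit 0) (nat_lit 3) (nat_lit 6) (C.cons (nat_lit 73) (C.node (nat_lit 0) (nat_lit 2) (nat_lit 5) (C.cons (nat_lit 53) (C.pat (nat_lit 2) (nat_lit 24027182195) (nat_lit 1182071868701682239713829279425187319025045249)) (C.cons (nat_lit 37) (C.node (nat_lit 0) (nat_lit 4) (nat_lit 5) (C.cons (nat_lit 305) (C.pat (nat_lit 1) (nat_lit 1536641073) (nat_lit 10732657692982228559436691887600766721)) (C.cons (nat_lit 49) (C.node (nat_lit 0) (nat_lit 5)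 (nat_lit 8) C.nil) C.nil))) C.nil))) C.nil)) (C.cons (nat_lit 41) (C.node (nat_lit 0) (nat_lit 3) (nat_lit 6) (C.cons (nat_lit 585) (C.node (nat_lit 0) (nat_lit 2) (nat_lit 6) (C.cons (nat_lit 85) (C.pat (nat_lit 2) (nat_lit 28322149491) (nat_lit 1895695715054662180242972854445745245922070273)) (C.cons (nat_lit 69) (C.node (nat_lit 0) (nat_lit 4) (nat_lit 6) (C.cons (nat_lit 337) (C.pat (nat_lit 1) (nat_lit 1805076529) (nat_lit 10732657692982229149741509445561159425)) (C.cons (nat_lit 81) (C.node (nat_lit 0) (nat_lit 6) (nat_lit 8) C.nil) C.nil))) C.nil))) (C.cons (nat_lit 73) (C.node (nat_lit 0) (nat_lit 3) (nat_lit 9) (C.cons (nat_lit 521)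
  (C.node (nat_lit 0) (nat_lit 5) (nat_lit 8) (C.cons (nat_lit 305) (C.node (nat_lit 0) (nat_lit 6) (nat_lit 8) C.nil) C.nil)) C.nil)) C.nil))) C.nil))) C.nil)) (C.cons (nat_lit 75) (C.node (nat_lit 0) (nat_lit 1) (nat_lit 8) (C.cons (nat_lit 259) (C.ref (nat_lit 427) (nat_lit 134431224988176)) C.nil)) (C.cons (nat_lit 11) (C.node (nat_lit 0) (nat_lit 1) (nat_lit 6) (C.cons (nat_lit 323) (C.ref (nat_lit 427) (nat_lit 205163967296016)) (C.cons (nat_lit 67) (C.node (nat_lit 0) (nat_lit 1) (nat_lit 8) (C.cons (nat_lit 259) (C.node (nat_lit 0) (nat_lit 2) (nat_lit 5) (C.cons (nat_lit 549) (C.node (nat_lit 0) (nat_lit 2) (nat_lit 4) (C.cons (nat_lit 85) (C.node (nat_lit 0) (nat_lit 4) (nat_lit 9) (C.cons (nat_lit 529) (C.node (nat_lit 0) (nat_lit 3) (nat_lit 5) (C.cons (nat_lit 297) (C.node (nat_lit 0) (nat_lit 4) (nat_lit 5) C.nil) C.nil)) C.nil)) (C.cons (nat_lit 21) (C.node (nat_lit 0) (nat_lit 2) (nat_lit 6) C.nil) C.nil))) (C.cons (nat_lit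 53) (C.node (nat_lit 0) (nat_lit 2) (nat_lit 9) (C.cons (nat_lit 581) (C.node (nat_lit 0) (nat_lit 9) (nat_lit 4) (C.cons (nat_lit 529) (C.node (nat_lit 0) (nat_lit 8) (nat_lit 5) (C.cons (nat_lit 297) (C.node (nat_lit 0) (nat_lit 9) (nat_lit 5) C.nil) C.nil)) C.nil)) (C.cons (nat_lit 517) (C.node (nat_lit 0) (nat_lit 2) (nat_lit 6) C.nil) C.nil))) (C.cons (nat_lit 37) (C.node (nat_lit 0) (nat_lit 2) (nat_lit 4) (C.cons (nat_lit 533) (C.node (nat_lit 0) (nat_lit 2) (nat_lit 6) C.nil) (C.cons (nat_lit 85) (C.node (nat_lit 0) (nat_lit 2) (nat_lit 9) C.nil) C.nil))) C.nil)))) C.nil)) C.nil))) C.nil)))) C.nil)))) (C.cons (nat_lit 133) (C.node (nat_lit 0) (nat_lit 7) (nat_lit 8) (C.cons (nat_lit 385) (C.ref (nat_lit 432) (nat_lit 205163983024656)) C.nil)) C.nil))) (List.cons (C.node (nat_lit 0) (nat_lit 3) (nat_lit 5) (C.cons (nat_lit 297) (C.node (nat_lit 0) (nat_lit 1) (nat_lit 3) (C.cons (nat_lit 75) (C.node (nat_lit 0) (nat_lit 1) (nat_lit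 8) (C.cons (nat_lit 259) (C.node (nat_lit 0) (nat_lit 3) (nat_lit 9) C.nil) C.nil)) (C.cons (nat_lit 11) (C.node (nat_lit 0) (nat_lit 1) (nat_lit 6) (C.cons (nat_lit 323) (C.node (nat_lit 0) (nat_lit 2) (nat_lit 5) (C.cons (nat_lit 53) (C.node (nat_lit 0) (nat_lit 2) (nat_lit 8) C.nil) C.nil)) C.nil)) C.nil))) (C.cons (nat_lit 41) (C.node (nat_lit 0) (nat_lit 3) (nat_lit 9) (C.cons (nat_lit 585) (C.node (nat_lit 0) (nat_lit 1) (nat_lit 3) (C.cons (nat_lit 267) (C.node (nat_lit 0) (nat_lit 1) (nat_lit 6) C.nil) C.nil)) C.nil)) C.nil))) (List.cons (C.node (nat_lit 0) (nat_lit 1) (nat_lit 5) (C.cons (nat_lit 547) (C.ref (nat_lit 434) (nat_lit 205163983024656)) (C.cons (nat_lit 291) (C.ref (nat_lit 434) (nat_lit 205099558515216)) (C.cons (nat_lit 43) (C.node (nat_lit 0) (nat_lit 1) (nat_lit 8) (C.cons (nat_lit 323) (C.node (nat_lit 0) (nat_lit 1) (nat_lit 9) (C.cons (nat_lit 515) (C.node (nat_lit 0) (nat_lit 3) (nat_lit 8) C.nil) C.nil))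 (C.cons (nat_lit 259) (C.node (nat_lit 0) (nat_lit 1) (nat_lit 6) (C.cons (nat_lit 579) (C.node (nat_lit 0) (nat_lit 3) (nat_lit 9) C.nil) C.nil)) C.nil))) (C.cons (nat_lit 35) (C.node (nat_lit 0) (nat_lit 1) (nat_lit 8) (C.cons (nat_lit 323) (C.node (nat_lit 0) (nat_lit 1) (nat_lit 3) (C.cons (nat_lit 523) (C.node (nat_lit 0) (nat_lit 3) (nat_lit 6) C.nil) C.nil)) (C.cons (nat_lit 267) (C.node (nat_lit 0) (nat_lit 1) (nat_lit 6) (C.cons (nat_lit 579) (C.node (nat_lit 0) (nat_lit 3) (nat_lit 6) C.nil) C.nil)) C.nil))) C.nil))))) (List.cons (C.node (nat_lit 0) (nat_lit 1) (nat_lit 7) (C.cons (nat_lit 643) (C.ref (nat_lit 433) (nat_lit 205163983024656)) (C.cons (nat_lit 387) (C.ref (nat_lit 433) (nat_lit 205099558515216)) (C.cons (nat_lit 131) (C.node (nat_lit 0) (nat_lit 7) (nat_lit 8) (C.cons (nat_lit 389) (C.node (nat_lit 0) (nat_lit 7) (nat_lit 9) (C.cons (nat_lit 641) (C.ref (nat_lit 432) (nat_lit 205099558453536)) C.nil)) (C.cons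 (nat_lit 385) (C.node (nat_lit 0) (nat_lit 2) (nat_lit 7) (C.cons (nat_lit 645) (C.ref (nat_lit 432) (nat_lit 205163982962976)) (C.cons (nat_lit 133) (C.node (nat_lit 0) (nat_lit 7) (nat_lit 9)
  (C.cons (nat_lit 641) (C.ref (nat_lit 435) (nat_lit 205163983024656)) C.nil)) C.nil))) C.nil))) C.nil)))) (List.cons (C.node (nat_lit 0) (nat_lit 3) (nat_lit 8) (C.cons (nat_lit 329) (C.node (nat_lit 0) (nat_lit 3) (nat_lit 9) (C.cons (nat_lit 521) (C.node (nat_lit 0) (nat_lit 4) (nat_lit 6) (C.cons (nat_lit 593) (C.pat (nat_lit 3) (nat_lit 38998784886) (nat_lit 85657865674547226768727402720738791489014401249)) (C.cons (nat_lit 81) (C.node (nat_lit 0) (nat_lit 6) (nat_lit 9) C.nil) C.nil))) C.nil)) (C.cons (nat_lit 265) (C.node (nat_lit 0) (nat_lit 3) (nat_lit 6) (C.cons (nat_lit 585) (C.node (nat_lit 0) (nat_lit 4) (nat_lit 6) (C.cons (nat_lit 337) (C.node (nat_lit 0) (nat_lit 5) (nat_lit 8) (C.cons (nat_lit 289) (C.node (nat_lit 0) (nat_lit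 2) (nat_lit 4) (C.cons (nat_lit 53) (C.node (nat_lit 0) (nat_lit 2) (nat_lit 9) C.nil) (C.cons (nat_lit 533) (C.pat (nat_lit 1) (nat_lit 2339980833) (nat_lit 10732781922741051516167686185184200929)) C.nil))) C.nil)) (C.cons (nat_lit 81) (C.node (nat_lit 0) (nat_lit 6) (nat_lit 8) C.nil) C.nil))) (C.cons (nat_lit 73) (C.node (nat_lit 0) (nat_lit 3) (nat_lit 9) C.nil) C.nil))) C.nil))) (List.cons (C.node (nat_lit 0) (nat_lit 1) (nat_lit 3) (C.cons (nat_lit 267) (C.node (nat_lit 0) (nat_lit 1) (nat_lit 5) (C.cons (nat_lit 35) (C.node (nat_lit 0) (nat_lit 3) (nat_lit 5) (C.cons (nat_lit 553) (C.node (nat_lit 0) (nat_lit 3) (nat_lit 6) (C.cons (nat_lit 73) (C.node (nat_lit 0) (nat_lit 2) (nat_lit 5) (C.cons (nat_lit 53) (C.pat (nat_lit 2) (nat_lit 24027182195) (nat_lit 1182071868701682239713829279425187319025045249)) (C.cons (nat_lit 37) (C.node (nat_lit 0) (nat_lit 2) (nat_lit 4) (C.cons (nat_lit 533) (C.pat (nat_lit 1) (nat_lit 699693105)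 (nat_lit 3338689111147371113544050749581364993)) C.nil)) C.nil))) C.nil)) (C.cons (nat_lit 41) (C.node (nat_lit 0) (nat_lit 3) (nat_lit 6) (C.cons (nat_lit 585) (C.pat (nat_lit 1) (nat_lit 3107485217) (nat_lit 3338951195732936578332311705427968585)) (C.cons (nat_lit 73) (C.node (nat_lit 0) (nat_lit 3) (nat_lit 9) C.nil) C.nil))) C.nil))) C.nil)) (C.cons (nat_lit 43) (C.node (nat_lit 0) (nat_lit 1) (nat_lit 8) (C.cons (nat_lit 259) (C.ref (nat_lit 437) (nat_lit 205163983024656)) C.nil)) (C.cons (nat_lit 11) (C.node (nat_lit 0) (nat_lit 1) (nat_lit 5) (C.cons (nat_lit 291) (C.ref (nat_lit 437) (nat_lit 134431240716816)) (C.cons (nat_lit 35) (C.node (nat_lit 0) (nat_lit 1) (nat_lit 8) (C.cons (nat_lit 259) (C.node (nat_lit 0) (nat_lit 2) (nat_lit 4) (C.cons (nat_lit 533) (C.node (nat_lit 0) (nat_lit 2) (nat_lit 5) C.nil) (C.cons (nat_lit 53) (C.node (nat_lit 0) (nat_lit 2) (nat_lit 9) C.nil) C.nil))) C.nil)) C.nil))) C.nil)))) (List.cons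 (C.node (nat_lit 0) (nat_lit 1) (nat_lit 3) (C.cons (nat_lit 75) (C.node (nat_lit 0) (nat_lit 3) (nat_lit 8) (C.cons (nat_lit 265) (C.node (nat_lit 0) (nat_lit 3) (nat_lit 5) (C.cons (nat_lit 553) (C.node (nat_lit 0) (nat_lit 2) (nat_lit 5) (C.cons (nat_lit 53) (C.pat (nat_lit 3) (nat_lit 6849506165) (nat_lit 46096947353272881492269269235792872390907988193)) (C.cons (nat_lit 37) (C.node (nat_lit 0) (nat_lit 4) (nat_lit 5) C.nil) C.nil))) (C.cons (nat_lit 41) (C.node (nat_lit 0) (nat_lit 3) (nat_lit 9) C.nil) C.nil))) C.nil)) (C.cons (nat_lit 11) (C.node (nat_lit 0) (nat_lit 1) (nat_lit 6) (C.cons (nat_lit 67) (C.node (nat_lit 0) (nat_lit 3) (nat_lit 5) (C.cons (nat_lit 553) (C.node (nat_lit 0) (nat_lit 2) (nat_lit 5) (C.cons (nat_lit 53) (C.pat (nat_lit 3) (nat_lit 6849506165) (nat_lit 46096947353272881492269269235792872390907988193)) C.nil)) C.nil)) C.nil)) C.nil))) (List.cons (C.node (nat_lit 0) (nat_lit 1) (nat_lit 8) (C.cons (nat_lit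 291) (C.node (nat_lit 0) (nat_lit 3) (nat_lit 8) (C.cons (nat_lit 265) (C.node (nat_lit 0) (nat_lit 3) (nat_lit 5) (C.cons (nat_lit 553) (C.node (nat_lit 0) (nat_lit 1) (nat_lit 3) (C.cons (nat_lit 75) (C.node (nat_lit 0) (nat_lit 1) (nat_lit 2) (C.cons (nat_lit 519) (C.node (nat_lit 0) (nat_lit 2) (nat_lit 6) C.nil) C.nil)) C.nil)) C.nil)) C.nil)) (C.cons (nat_lit 267)
  (C.node (nat_lit 0) (nat_lit 5) (nat_lit 8) (C.cons (nat_lit 289) (C.node (nat_lit 0) (nat_lit 3) (nat_lit 5) (C.cons (nat_lit 553) (C.node (nat_lit 0) (nat_lit 3) (nat_lit 6) C.nil) C.nil)) C.nil)) (C.cons (nat_lit 259) (C.node (nat_lit 0) (nat_lit 3) (nat_lit 8) (C.cons (nat_lit 297) (C.node (nat_lit 0) (nat_lit 1) (nat_lit 3) (C.cons (nat_lit 523) (C.node (nat_lit 0) (nat_lit 3) (nat_lit 6) C.nil) (C.cons (nat_lit 75) (C.node (nat_lit 0) (nat_lit 3) (nat_lit 9) C.nil) C.nil))) C.nil)) C.nil)))) (List.cons (C.node (nat_lit 0) (nat_lit 4) (nat_lit 8) (C.cons (nat_lit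 337) (C.ref (nat_lit 440) (nat_lit 205163983024656)) (C.cons (nat_lit 305) (C.ref (nat_lit 440) (nat_lit 205163967296016)) (C.cons (nat_lit 273) (C.node (nat_lit 0) (nat_lit 4) (nat_lit 5) (C.cons (nat_lit 561) (C.node (nat_lit 0) (nat_lit 2) (nat_lit 4) (C.cons (nat_lit 85) (C.node (nat_lit 0) (nat_lit 2) (nat_lit 5) (C.cons (nat_lit 39) (C.node (nat_lit 0) (nat_lit 2) (nat_lit 9) C.nil) C.nil)) C.nil)) (C.cons (nat_lit 53) (C.node (nat_lit 0) (nat_lit 4) (nat_lit 6) (C.cons (nat_lit 593) (C.node (nat_lit 0) (nat_lit 2) (nat_lit 6) (C.cons (nat_lit 71) (C.node (nat_lit 0) (nat_lit 2) (nat_lit 9) C.nil) C.nil)) C.nil)) C.nil))) C.nil)))) (List.cons (C.node (nat_lit 0) (nat_lit 1) (nat_lit 7) (C.cons (nat_lit 643) (C.node (nat_lit 0) (nat_lit 1) (nat_lit 2) (C.cons (nat_lit 71) (C.ref (nat_lit 438) (nat_lit 205163983024656)) (C.cons (nat_lit 39) (C.ref (nat_lit 438) (nat_lit 205163967296016)) (C.cons (nat_lit 7) (C.node (nat_lit 0) (nat_lit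 1) (nat_lit 5) (C.cons (nat_lit 291) (C.ref (nat_lit 439) (nat_lit 205163983024656)) (C.cons (nat_lit 43) (C.ref (nat_lit 439) (nat_lit 134431240716816)) (C.cons (nat_lit 35) (C.node (nat_lit 0) (nat_lit 1) (nat_lit 3) (C.cons (nat_lit 267) (C.node (nat_lit 0) (nat_lit 1) (nat_lit 6) (C.cons (nat_lit 67) (C.node (nat_lit 0) (nat_lit 3) (nat_lit 5) (C.cons (nat_lit 553) (C.node (nat_lit 0) (nat_lit 3) (nat_lit 6) C.nil) C.nil)) C.nil)) (C.cons (nat_lit 75) (C.node (nat_lit 0) (nat_lit 1) (nat_lit 8) (C.cons (nat_lit 259) (C.node (nat_lit 0) (nat_lit 8) (nat_lit 6) (C.cons (nat_lit 337) (C.node (nat_lit 0) (nat_lit 2) (nat_lit 6) (C.cons (nat_lit 581) (C.pat (nat_lit 3) (nat_lit 5429012406) (nat_lit 14339779685733838547012979401309815089383409889)) C.nil)) C.nil)) C.nil)) (C.cons (nat_lit 11) (C.node (nat_lit 0) (nat_lit 1) (nat_lit 6) (C.cons (nat_lit 323) (C.node (nat_lit 0) (nat_lit 3) (nat_lit 6) (C.cons (nat_lit 585) (C.node (nat_lit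 0) (nat_lit 2) (nat_lit 6) (C.cons (nat_lit 85) (C.pat (nat_lit 3) (nat_lit 6849506166) (nat_lit 46096947353272881492269269235801879727603779809)) C.nil)) C.nil)) C.nil)) C.nil)))) C.nil)))) C.nil)))) (C.cons (nat_lit 131) (C.node (nat_lit 0) (nat_lit 7) (nat_lit 9) (C.cons (nat_lit 641) (C.ref (nat_lit 441) (nat_lit 205163983024656)) C.nil)) C.nil))) (List.cons (C.node (nat_lit 0) (nat_lit 7) (nat_lit 8) (C.cons (nat_lit 389) (C.ref (nat_lit 442) (nat_lit 205163983024656)) (C.cons (nat_lit 387) (C.ref (nat_lit 442) (nat_lit 205163982962976)) (C.cons (nat_lit 385) (C.node (nat_lit 0) (nat_lit 1) (nat_lit 7) (C.cons (nat_lit 643) (C.node (nat_lit 0) (nat_lit 2) (nat_lit 7) (C.cons (nat_lit 133) (C.ref (nat_lit 441) (nat_lit 205099558453536)) C.nil)) (C.cons (nat_lit 135) (C.node (nat_lit 0) (nat_lit 7) (nat_lit 9) (C.cons (nat_lit 641) (C.ref (nat_lit 435) (nat_lit 201647263592976)) C.nil)) (C.cons (nat_lit 131) (C.node (nat_lit 0) (nat_lit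 2) (nat_lit 7) (C.cons (nat_lit 645) (C.ref (nat_lit 441) (nat_lit 205099558515216)) (C.cons (nat_lit 133) (C.node (nat_lit 0) (nat_lit 7) (nat_lit 9) C.nil) C.nil))) C.nil)))) C.nil)))) (List.cons (C.node (nat_lit 0) (nat_lit 2) (nat_lit 4) (C.cons (nat_lit 533) (C.node (nat_lit 0) (nat_lit 4) (nat_lit 6) (C.cons (nat_lit 337) (C.node (nat_lit 0) (nat_lit 1) (nat_lit 4) (C.cons (nat_lit 51) (C.pat (nat_lit 2) (nat_lit 44400998722) (nat_lit 85657276982978676235010795414693119123671812321)) (C.cons (nat_lit 19) (C.node (nat_lit 0) (nat_lit 4) (nat_lit 5)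
  (C.cons (nat_lit 49) (C.node (nat_lit 0) (nat_lit 3) (nat_lit 6) (C.cons (nat_lit 585) (C.pat (nat_lit 1) (nat_lit 1754561330) (nat_lit 2019830178505214646048680701687566081)) (C.cons (nat_lit 73) (C.node (nat_lit 0) (nat_lit 6) (nat_lit 9) C.nil) C.nil))) C.nil)) C.nil))) (C.cons (nat_lit 81) (C.node (nat_lit 0) (nat_lit 5) (nat_lit 9) (C.cons (nat_lit 553) (C.node (nat_lit 0) (nat_lit 6) (nat_lit 9) (C.cons (nat_lit 577) (C.node (nat_lit 0) (nat_lit 1) (nat_lit 3) (C.cons (nat_lit 267) (C.node (nat_lit 0) (nat_lit 3) (nat_lit 6) (C.cons (nat_lit 73) (C.node (nat_lit 0) (nat_lit 6) (nat_lit 8) C.nil) C.nil)) (C.cons (nat_lit 11) (C.node (nat_lit 0) (nat_lit 3) (nat_lit 6) (C.cons (nat_lit 329) (C.node (nat_lit 0) (nat_lit 1) (nat_lit 4) (C.cons (nat_lit 275) (C.pat (nat_lit 3) (nat_lit 39002191986) (nat_lit 85657255888545853710765193707864873768101675397)) (C.cons (nat_lit 51) (C.node (nat_lit 0) (nat_lit 1) (nat_lit 8) C.nil) C.nil)))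 C.nil)) C.nil))) C.nil)) (C.cons (nat_lit 545) (C.node (nat_lit 0) (nat_lit 3) (nat_lit 9) (C.cons (nat_lit 585) (C.node (nat_lit 0) (nat_lit 6) (nat_lit 8) (C.cons (nat_lit 321) (C.node (nat_lit 0) (nat_lit 1) (nat_lit 3) (C.cons (nat_lit 43) (C.node (nat_lit 0) (nat_lit 8) (nat_lit 3) C.nil) (C.cons (nat_lit 267) (C.pat (nat_lit 1) (nat_lit 3107485217) (nat_lit 3338951195732936578332311705427968585)) C.nil))) C.nil)) (C.cons (nat_lit 521) (C.node (nat_lit 0) (nat_lit 6) (nat_lit 9) C.nil) C.nil))) C.nil))) C.nil))) (C.cons (nat_lit 21) (C.node (nat_lit 0) (nat_lit 2) (nat_lit 9) (C.cons (nat_lit 517) (C.node (nat_lit 0) (nat_lit 1) (nat_lit 3) (C.cons (nat_lit 267) (C.node (nat_lit 0) (nat_lit 1) (nat_lit 4) (C.cons (nat_lit 51) (C.node (nat_lit 0) (nat_lit 5) (nat_lit 8) (C.cons (nat_lit 289) (C.node (nat_lit 0) (nat_lit 3) (nat_lit 5) (C.cons (nat_lit 553) (C.node (nat_lit 0) (nat_lit 3) (nat_lit 6) C.nil) C.nil)) C.nil)) (C.cons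 (nat_lit 19) (C.node (nat_lit 0) (nat_lit 1) (nat_lit 5) C.nil) C.nil))) (C.cons (nat_lit 43) (C.node (nat_lit 0) (nat_lit 1) (nat_lit 4) (C.cons (nat_lit 275) (C.node (nat_lit 0) (nat_lit 5) (nat_lit 8) (C.cons (nat_lit 289) (C.node (nat_lit 0) (nat_lit 3) (nat_lit 8) (C.cons (nat_lit 329) (C.node (nat_lit 0) (nat_lit 3) (nat_lit 9) C.nil) C.nil)) C.nil)) (C.cons (nat_lit 19) (C.node (nat_lit 0) (nat_lit 1) (nat_lit 8) C.nil) C.nil))) (C.cons (nat_lit 11) (C.node (nat_lit 0) (nat_lit 1) (nat_lit 4) (C.cons (nat_lit 275) (C.node (nat_lit 0) (nat_lit 1) (nat_lit 5) C.nil) (C.cons (nat_lit 51) (C.node (nat_lit 0) (nat_lit 1) (nat_lit 8) C.nil) C.nil))) C.nil)))) C.nil)) C.nil))) (List.cons (C.node (nat_lit 0) (nat_lit 5) (nat_lit 9) (C.cons (nat_lit 553) (C.node (nat_lit 0) (nat_lit 6) (nat_lit 9) (C.cons (nat_lit 577) (C.node (nat_lit 0) (nat_lit 1) (nat_lit 3) (C.cons (nat_lit 267) (C.node (nat_lit 0) (nat_lit 3) (nat_lit 6) C.nil)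 (C.cons (nat_lit 75) (C.node (nat_lit 0) (nat_lit 3) (nat_lit 8) C.nil) C.nil))) C.nil)) (C.cons (nat_lit 545) (C.node (nat_lit 0) (nat_lit 3) (nat_lit 9) (C.cons (nat_lit 585) (C.node (nat_lit 0) (nat_lit 1) (nat_lit 6) (C.cons (nat_lit 83) (C.node (nat_lit 0) (nat_lit 8) (nat_lit 6) C.nil) (C.cons (nat_lit 323) (C.node (nat_lit 0) (nat_lit 6) (nat_lit 4) C.nil) C.nil))) C.nil)) C.nil))) (List.cons (C.node (nat_lit 0) (nat_lit 1) (nat_lit 2) (C.cons (nat_lit 71) (C.ref (nat_lit 444) (nat_lit 205163983024656)) (C.cons (nat_lit 23) (C.ref (nat_lit 444) (nat_lit 188671273095696)) (C.cons (nat_lit 7) (C.node (nat_lit 0) (nat_lit 2) (nat_lit 4) (C.cons (nat_lit 533) (C.node (nat_lit 0) (nat_lit 2) (nat_lit 6) (C.cons (nat_lit 69) (C.ref (nat_lit 445) (nat_lit 205163983024656)) C.nil)) (C.cons (nat_lit 85) (C.node (nat_lit 0) (nat_lit 2) (nat_lit 9) (C.cons (nat_lit 517) (C.node (nat_lit 0) (nat_lit 4) (nat_lit 9) (C.cons (nat_lit 561) (C.node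 (nat_lit 0) (nat_lit 1) (nat_lit 4) (C.cons (nat_lit 275) (C.node (nat_lit 0) (nat_lit 1) (nat_lit 5) (C.cons (nat_lit 43) (C.node (nat_lit 0) (nat_lit 1) (nat_lit 6) (C.cons (nat_lit 67)
  (C.node (nat_lit 0) (nat_lit 5) (nat_lit 8) C.nil) C.nil)) (C.cons (nat_lit 35) (C.node (nat_lit 0) (nat_lit 1) (nat_lit 3) (C.cons (nat_lit 75) (C.node (nat_lit 0) (nat_lit 3) (nat_lit 9) C.nil) C.nil)) C.nil))) (C.cons (nat_lit 19) (C.node (nat_lit 0) (nat_lit 4) (nat_lit 8) C.nil) C.nil))) (C.cons (nat_lit 529) (C.node (nat_lit 0) (nat_lit 5) (nat_lit 9) (C.cons (nat_lit 553) (C.node (nat_lit 0) (nat_lit 6) (nat_lit 9) C.nil) C.nil)) C.nil))) C.nil)) (C.cons (nat_lit 21) (C.node (nat_lit 0) (nat_lit 2) (nat_lit 6) (C.cons (nat_lit 581) (C.ref (nat_lit 445) (nat_lit 188671273095696)) (C.cons (nat_lit 69) (C.node (nat_lit 0) (nat_lit 2) (nat_lit 9) C.nil) C.nil))) C.nil)))) C.nil)))) (List.cons (C.node (nat_lit 0) (nat_lit 2) (nat_lit 4) (C.cons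 (nat_lit 85) (C.node (nat_lit 0) (nat_lit 4) (nat_lit 9) (C.cons (nat_lit 561) (C.node (nat_lit 0) (nat_lit 1) (nat_lit 4) (C.cons (nat_lit 275) (C.node (nat_lit 0) (nat_lit 1) (nat_lit 5) (C.cons (nat_lit 43) (C.pat (nat_lit 5) (nat_lit 623982115410) (nat_lit 85657562822814909088597035256709715405828063275)) (C.cons (nat_lit 35) (C.node (nat_lit 0) (nat_lit 1) (nat_lit 3) (C.cons (nat_lit 75) (C.node (nat_lit 0) (nat_lit 3) (nat_lit 9) C.nil) C.nil)) C.nil))) (C.cons (nat_lit 19) (C.node (nat_lit 0) (nat_lit 4) (nat_lit 8) C.nil) C.nil))) (C.cons (nat_lit 529) (C.node (nat_lit 0) (nat_lit 5) (nat_lit 9) (C.cons (nat_lit 553) (C.node (nat_lit 0) (nat_lit 6) (nat_lit 9) C.nil) C.nil)) C.nil))) (C.cons (nat_lit 21) (C.node (nat_lit 0) (nat_lit 2) (nat_lit 6) C.nil) C.nil))) (List.cons (C.node (nat_lit 0) (nat_lit 1) (nat_lit 2) (C.cons (nat_lit 519) (C.ref (nat_lit 447) (nat_lit 205163983024656)) (C.cons (nat_lit 71) (C.ref (nat_lit 447)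 (nat_lit 201647263592976)) (C.cons (nat_lit 23) (C.ref (nat_lit 447) (nat_lit 183909317235216)) (C.cons (nat_lit 7) (C.node (nat_lit 0) (nat_lit 2) (nat_lit 4) (C.cons (nat_lit 533) (C.node (nat_lit 0) (nat_lit 2) (nat_lit 6) C.nil) (C.cons (nat_lit 85) (C.node (nat_lit 0) (nat_lit 2) (nat_lit 9) C.nil) C.nil))) C.nil))))) List.nil))))))))))))))))))

theorem ok12_431 : okL par12 (nat_lit 449) c12_431 (nat_lit 431) = true := by decide +kernel

noncomputable def c12_449 : List C :=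
  (List.cons (C.node (nat_lit 0) (nat_lit 3) (nat_lit 8) (C.cons (nat_lit 297) (C.node (nat_lit 0) (nat_lit 4) (nat_lit 8) (C.cons (nat_lit 273) (C.node (nat_lit 0) (nat_lit 1) (nat_lit 2) (C.cons (nat_lit 519) (C.node (nat_lit 0) (nat_lit 2) (nat_lit 4) C.nil) (C.cons (nat_lit 23) (C.node (nat_lit 0) (nat_lit 2) (nat_lit 9) C.nil) C.nil))) C.nil)) (C.cons (nat_lit 265) (C.node (nat_lit 0) (nat_lit 4) (nat_lit 8) (C.cons (nat_lit 305) (C.node (nat_lit 0) (nat_lit 1) (nat_lit 2) (C.cons (nat_lit 519) (C.node (nat_lit 0) (nat_lit 2) (nat_lit 4) C.nil) (C.cons (nat_lit 23) (C.node (nat_lit 0) (nat_lit 2) (nat_lit 9) C.nil) C.nil))) C.nil)) C.nil))) (List.cons (C.node (nat_lit 0) (nat_lit 2) (nat_lit 8) (C.cons (nat_lit 325) (C.ref (nat_lit 449) (nat_lit 205163983024656)) (C.cons (nat_lit 277) (C.ref (nat_lit 449) (nat_lit 188671273095696)) (C.cons (nat_lit 261) (C.node (nat_lit 0) (nat_lit 3) (nat_lit 8) (C.cons (nat_lit 329) (C.node (nat_lit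 0) (nat_lit 4) (nat_lit 8) (C.cons (nat_lit 305) (C.node (nat_lit 0) (nat_lit 1) (nat_lit 3) (C.cons (nat_lit 523) (C.node (nat_lit 0) (nat_lit 1) (nat_lit 5) C.nil) (C.cons (nat_lit 43) (C.node (nat_lit 0) (nat_lit 3) (nat_lit 9) C.nil) C.nil))) C.nil)) (C.cons (nat_lit 297) (C.node (nat_lit 0) (nat_lit 4) (nat_lit 8) (C.cons (nat_lit 337) (C.node (nat_lit 0) (nat_lit 1) (nat_lit 3) (C.cons (nat_lit 523) (C.node (nat_lit 0) (nat_lit 3) (nat_lit 6) C.nil) (C.cons (nat_lit 75) (C.node (nat_lit 0) (nat_lit 3) (nat_lit 9) C.nil) C.nil))) C.nil)) C.nil))) C.nil)))) (List.cons (C.node (nat_lit 0) (nat_lit 2) (nat_lit 4) (C.cons (nat_lit 533) (C.node (nat_lit 0) (nat_lit 4) (nat_lit 6) (C.cons (nat_lit 83) (C.node (nat_lit 0) (nat_lit 3) (nat_lit 6) (C.cons (nat_lit 585) (C.node (nat_lit 0) (nat_lit 1) (nat_lit 9) (C.cons (nat_lit 547) (C.node (nat_lit 0) (nat_lit 1) (nat_lit 3) (C.cons (nat_lit 267) (C.pat (nat_lit 2) (nat_lit 39754099506)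 (nat_lit 85657253169059471130926899789817071148439765075)) (C.cons (nat_lit 11) (C.node (nat_lit 0) (nat_lit 1) (nat_lit 8) C.nil) C.nil))) (C.cons (nat_lit 515) (C.node (nat_lit 0) (nat_lit 5) (nat_lit 9) C.nil) C.nil))) (C.cons (nat_lit 73) (C.node (nat_lit 0) (nat_lit 6) (nat_lit 9) C.nil) C.nil))) (C.cons (nat_lit 81) (C.node (nat_lit 0) (nat_lit 1) (nat_lit 4) (C.cons (nat_lit 275) (C.node (nat_lit 0) (nat_lit 4) (nat_lit 5) C.nil) (C.cons (nat_lit 51) (C.node (nat_lit 0) (nat_lit 4) (nat_lit 8) C.nil) C.nil))) C.nil))) (C.cons (nat_lit 21) (C.node (nat_lit 0) (nat_lit 2) (nat_lit 9) C.nil) C.nil))) (List.cons (C.node (nat_lit 0) (nat_lit 2) (nat_lit 8) (C.cons (nat_lit 325) (C.ref (nat_lit 451) (nat_lit 205163983024656)) (C.cons (nat_lit 277) (C.ref (nat_lit 451) (nat_lit 188671273095696)) (C.cons (nat_lit 261) (C.node (nat_lit 0) (nat_lit 2) (nat_lit 4) (C.cons (nat_lit 533) (C.node (nat_lit 0) (nat_lit 2) (nat_lit 6) C.nil)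 (C.cons (nat_lit 85) (C.node (nat_lit 0) (nat_lit 2) (nat_lit 9) C.nil) C.nil))) C.nil)))) (List.cons (C.node (nat_lit 0) (nat_lit 7) (nat_lit 8) (C.cons (nat_lit 389) (C.node (nat_lit 0) (nat_lit 1) (nat_lit 7) (C.cons (nat_lit 643) (C.ref (nat_lit 446) (nat_lit 205163983024656)) (C.cons (nat_lit 131) (C.node (nat_lit 0) (nat_lit 7) (nat_lit 9) (C.cons (nat_lit 641) (C.ref (nat_lit 448) (nat_lit 205163983024656)) C.nil)) C.nil))) (C.cons (nat_lit 387) (C.node (nat_lit 0) (nat_lit 2) (nat_lit 7) (C.cons (nat_lit 645) (C.ref (nat_lit 446) (nat_lit 205099558515216)) (C.cons (nat_lit 133) (C.node (nat_lit 0) (nat_lit 7) (nat_lit 9) (C.cons (nat_lit 641) (C.ref (nat_lit 450) (nat_lit 205163983024656)) C.nil)) C.nil))) (C.cons (nat_lit 385) (C.node (nat_lit 0) (nat_lit 1) (nat_lit 7) (C.cons (nat_lit 643) (C.node (nat_lit 0) (nat_lit 2) (nat_lit 7) (C.cons (nat_lit 133) (C.ref (nat_lit 450) (nat_lit 205099558515216)) C.nil)) (C.cons (nat_lit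 135) (C.node (nat_lit 0) (nat_lit 7) (nat_lit 9) (C.cons (nat_lit 641) (C.ref (nat_lit 452) (nat_lit 205163983024656)) C.nil)) (C.cons (nat_lit 131) (C.node (nat_lit 0) (nat_lit 2) (nat_lit 7)
  (C.cons (nat_lit 645) (C.ref (nat_lit 448) (nat_lit 205099558515216)) (C.cons (nat_lit 133) (C.node (nat_lit 0) (nat_lit 7) (nat_lit 9) C.nil) C.nil))) C.nil)))) C.nil)))) (List.cons (C.node (nat_lit 0) (nat_lit 6) (nat_lit 8) (C.cons (nat_lit 325) (C.node (nat_lit 0) (nat_lit 1) (nat_lit 8) (C.cons (nat_lit 387) (C.node (nat_lit 0) (nat_lit 2) (nat_lit 7) (C.cons (nat_lit 645) (C.node (nat_lit 0) (nat_lit 1) (nat_lit 2) (C.cons (nat_lit 23) (C.pat (nat_lit 5) (nat_lit 421901215512) (nat_lit 50689994348995420361316780201947767398329417751)) (C.cons (nat_lit 7) (C.node (nat_lit 0) (nat_lit 2) (nat_lit 4) C.nil) C.nil))) (C.cons (nat_lit 133) (C.node (nat_lit 0) (nat_lit 7) (nat_lit 9) C.nil) C.nil))) (C.cons (nat_lit 259) (C.node (nat_lit 0)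 (nat_lit 7) (nat_lit 8) C.nil) C.nil))) (C.cons (nat_lit 321) (C.node (nat_lit 0) (nat_lit 1) (nat_lit 4) (C.cons (nat_lit 531) (C.node (nat_lit 0) (nat_lit 2) (nat_lit 4) (C.cons (nat_lit 85) (C.node (nat_lit 0) (nat_lit 6) (nat_lit 9) C.nil) C.nil)) (C.cons (nat_lit 23) (C.node (nat_lit 0) (nat_lit 1) (nat_lit 8) (C.cons (nat_lit 387) (C.node (nat_lit 0) (nat_lit 1) (nat_lit 9) C.nil) C.nil)) C.nil))) C.nil))) (List.cons (C.node (nat_lit 0) (nat_lit 1) (nat_lit 3) (C.cons (nat_lit 267) (C.node (nat_lit 0) (nat_lit 3) (nat_lit 6) (C.cons (nat_lit 73) (C.node (nat_lit 0) (nat_lit 7) (nat_lit 8) (C.cons (nat_lit 389) (C.node (nat_lit 0) (nat_lit 1) (nat_lit 7) (C.cons (nat_lit 643) (C.node (nat_lit 0) (nat_lit 2) (nat_lit 5) (C.cons (nat_lit 53) (C.node (nat_lit 0) (nat_lit 5) (nat_lit 8) (C.cons (nat_lit 289) (C.node (nat_lit 0) (nat_lit 1) (nat_lit 2) (C.cons (nat_lit 71) (C.node (nat_lit 0) (nat_lit 1) (nat_lit 4) (C.cons (nat_lit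 19) (C.node (nat_lit 0) (nat_lit 2) (nat_lit 9) C.nil) C.nil)) (C.cons (nat_lit 7) (C.node (nat_lit 0) (nat_lit 1) (nat_lit 4) (C.cons (nat_lit 83) (C.node (nat_lit 0) (nat_lit 4) (nat_lit 8) C.nil) C.nil)) C.nil))) C.nil)) (C.cons (nat_lit 37) (C.node (nat_lit 0) (nat_lit 4) (nat_lit 5) (C.cons (nat_lit 305) (C.node (nat_lit 0) (nat_lit 6) (nat_lit 8) (C.cons (nat_lit 321) (C.node (nat_lit 0) (nat_lit 1) (nat_lit 2) (C.cons (nat_lit 71) (C.node (nat_lit 0) (nat_lit 1) (nat_lit 4) C.nil) (C.cons (nat_lit 23) (C.pat (nat_lit 2) (nat_lit 11695129715) (nat_lit 513135952930256075260970112498287609137139457)) C.nil))) C.nil)) (C.cons (nat_lit 49) (C.node (nat_lit 0) (nat_lit 5) (nat_lit 8) C.nil) C.nil))) C.nil))) (C.cons (nat_lit 131) (C.node (nat_lit 0) (nat_lit 7) (nat_lit 9) (C.cons (nat_lit 641) (C.node (nat_lit 0) (nat_lit 2) (nat_lit 5) (C.cons (nat_lit 53) (C.node (nat_lit 0) (nat_lit 5) (nat_lit 8) C.nil) C.nil)) C.nil)) C.nil)))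 (C.cons (nat_lit 385) (C.node (nat_lit 0) (nat_lit 1) (nat_lit 7) (C.cons (nat_lit 643) (C.node (nat_lit 0) (nat_lit 2) (nat_lit 7) (C.cons (nat_lit 133) (C.node (nat_lit 0) (nat_lit 2) (nat_lit 1) (C.cons (nat_lit 23) (C.node (nat_lit 0) (nat_lit 1) (nat_lit 6) C.nil) (C.cons (nat_lit 71) (C.node (nat_lit 0) (nat_lit 1) (nat_lit 4) C.nil) C.nil))) C.nil)) (C.cons (nat_lit 135) (C.node (nat_lit 0) (nat_lit 7) (nat_lit 9) (C.cons (nat_lit 641) (C.node (nat_lit 0) (nat_lit 1) (nat_lit 4) (C.cons (nat_lit 531) (C.node (nat_lit 0) (nat_lit 1) (nat_lit 6) C.nil) (C.cons (nat_lit 83) (C.node (nat_lit 0) (nat_lit 1) (nat_lit 9) C.nil) C.nil))) C.nil)) (C.cons (nat_lit 131) (C.node (nat_lit 0) (nat_lit 2) (nat_lit 7) (C.cons (nat_lit 645) (C.node (nat_lit 0) (nat_lit 1) (nat_lit 2) (C.cons (nat_lit 71) (C.node (nat_lit 0) (nat_lit 1) (nat_lit 4) (C.cons (nat_lit 531) (C.node (nat_lit 0) (nat_lit 6) (nat_lit 9) C.nil) C.nil)) (C.cons (nat_lit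 23) (C.node (nat_lit 0) (nat_lit 1) (nat_lit 6) (C.cons (nat_lit 579) (C.node (nat_lit 0) (nat_lit 4) (nat_lit 9) C.nil) C.nil)) C.nil))) C.nil)) C.nil)))) C.nil))) C.nil)) (C.cons (nat_lit 75) (C.node (nat_lit 0) (nat_lit 3) (nat_lit 8) (C.cons (nat_lit 265) (C.node (nat_lit 0) (nat_lit 2) (nat_lit 5) (C.cons (nat_lit 293) (C.node (nat_lit 0) (nat_lit 4) (nat_lit 5) (C.cons (nat_lit 49)
  (C.node (nat_lit 0) (nat_lit 6) (nat_lit 8) (C.cons (nat_lit 337) (C.node (nat_lit 0) (nat_lit 1) (nat_lit 8) (C.cons (nat_lit 387) (C.node (nat_lit 0) (nat_lit 2) (nat_lit 6) (C.cons (nat_lit 581) (C.node (nat_lit 0) (nat_lit 2) (nat_lit 7) (C.cons (nat_lit 133) (C.node (nat_lit 0) (nat_lit 7) (nat_lit 9) C.nil) C.nil)) (C.cons (nat_lit 69) (C.node (nat_lit 0) (nat_lit 6) (nat_lit 9) C.nil) C.nil))) (C.cons (nat_lit 259) (C.node (nat_lit 0) (nat_lit 7) (nat_lit 8) C.nil) C.nil))) (C.cons (nat_lit 321) (C.node (nat_lit 0) (nat_lit 4) (nat_lit 8) (C.cons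 (nat_lit 275) (C.node (nat_lit 0) (nat_lit 7) (nat_lit 8) C.nil) C.nil)) C.nil))) C.nil)) (C.cons (nat_lit 53) (C.node (nat_lit 0) (nat_lit 5) (nat_lit 8) (C.cons (nat_lit 289) (C.node (nat_lit 0) (nat_lit 1) (nat_lit 4) (C.cons (nat_lit 531) (C.node (nat_lit 0) (nat_lit 4) (nat_lit 6) (C.cons (nat_lit 337) (C.node (nat_lit 0) (nat_lit 2) (nat_lit 6) (C.cons (nat_lit 581) (C.pat (nat_lit 3) (nat_lit 43297155411) (nat_lit 85657343002991780964466957197816880378390839849)) (C.cons (nat_lit 69) (C.node (nat_lit 0) (nat_lit 6) (nat_lit 9) C.nil) C.nil))) (C.cons (nat_lit 81) (C.node (nat_lit 0) (nat_lit 4) (nat_lit 8) C.nil) C.nil))) (C.cons (nat_lit 275) (C.node (nat_lit 0) (nat_lit 4) (nat_lit 6) (C.cons (nat_lit 593) (C.node (nat_lit 0) (nat_lit 2) (nat_lit 6) (C.cons (nat_lit 325) (C.node (nat_lit 0) (nat_lit 7) (nat_lit 8) (C.cons (nat_lit 385) (C.node (nat_lit 0) (nat_lit 1) (nat_lit 2) (C.cons (nat_lit 519) (C.pat (nat_lit 2) (nat_lit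 26661787713) (nat_lit 7247760230599279720177020531941178941918872105)) (C.cons (nat_lit 135) (C.node (nat_lit 0) (nat_lit 1) (nat_lit 9) C.nil) C.nil))) C.nil)) (C.cons (nat_lit 69) (C.node (nat_lit 0) (nat_lit 6) (nat_lit 8) C.nil) C.nil))) (C.cons (nat_lit 81) (C.node (nat_lit 0) (nat_lit 4) (nat_lit 9) C.nil) C.nil))) (C.cons (nat_lit 19) (C.node (nat_lit 0) (nat_lit 4) (nat_lit 8) (C.cons (nat_lit 337) (C.node (nat_lit 0) (nat_lit 4) (nat_lit 9) C.nil) C.nil)) C.nil)))) C.nil)) (C.cons (nat_lit 37) (C.node (nat_lit 0) (nat_lit 4) (nat_lit 5) (C.cons (nat_lit 305) (C.ref (nat_lit 454) (nat_lit 205163983024656)) (C.cons (nat_lit 49) (C.node (nat_lit 0) (nat_lit 5) (nat_lit 8) C.nil) C.nil))) C.nil)))) C.nil)) (C.cons (nat_lit 11) (C.node (nat_lit 0) (nat_lit 3) (nat_lit 6) (C.cons (nat_lit 329) (C.node (nat_lit 0) (nat_lit 2) (nat_lit 5) (C.cons (nat_lit 293) (C.node (nat_lit 0) (nat_lit 4) (nat_lit 5) (C.cons (nat_lit 49) (C.node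 (nat_lit 0) (nat_lit 4) (nat_lit 8) (C.cons (nat_lit 275) (C.node (nat_lit 0) (nat_lit 7) (nat_lit 8) (C.cons (nat_lit 385) (C.node (nat_lit 0) (nat_lit 1) (nat_lit 6) (C.cons (nat_lit 579) (C.node (nat_lit 0) (nat_lit 1) (nat_lit 2) (C.cons (nat_lit 135) (C.node (nat_lit 0) (nat_lit 7) (nat_lit 9) C.nil) C.nil)) (C.cons (nat_lit 71) (C.node (nat_lit 0) (nat_lit 1) (nat_lit 7) (C.cons (nat_lit 643) (C.node (nat_lit 0) (nat_lit 2) (nat_lit 7) C.nil) C.nil)) C.nil))) C.nil)) (C.cons (nat_lit 273) (C.node (nat_lit 0) (nat_lit 1) (nat_lit 8) (C.cons (nat_lit 387) (C.node (nat_lit 0) (nat_lit 2) (nat_lit 7) (C.cons (nat_lit 645) (C.node (nat_lit 0) (nat_lit 2) (nat_lit 1) (C.cons (nat_lit 23) (C.node (nat_lit 0) (nat_lit 2) (nat_lit 6) C.nil) (C.cons (nat_lit 71) (C.pat (nat_lit 2) (nat_lit 7132644981) (nat_lit 1583572397333702312550111142969714016010702593)) C.nil))) C.nil)) C.nil)) C.nil))) C.nil)) (C.cons (nat_lit 53) (C.node (nat_lit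 0) (nat_lit 5) (nat_lit 8) (C.cons (nat_lit 289) (C.ref (nat_lit 454) (nat_lit 188671273095456)) C.nil)) (C.cons (nat_lit 37) (C.node (nat_lit 0) (nat_lit 4) (nat_lit 5) (C.cons (nat_lit 305) (C.node (nat_lit 0) (nat_lit 1) (nat_lit 8) (C.cons (nat_lit 387) (C.node (nat_lit 0) (nat_lit 2) (nat_lit 8) (C.cons (nat_lit 261) (C.node (nat_lit 0) (nat_lit 2) (nat_lit 7) (C.cons (nat_lit 645) (C.node (nat_lit 0) (nat_lit 1) (nat_lit 2) (C.cons (nat_lit 71) (C.node (nat_lit 0) (nat_lit 2) (nat_lit 4) C.nil) (C.cons (nat_lit 23)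
  (C.node (nat_lit 0) (nat_lit 2) (nat_lit 6) C.nil) C.nil))) C.nil)) C.nil)) (C.cons (nat_lit 263) (C.node (nat_lit 0) (nat_lit 7) (nat_lit 8) (C.cons (nat_lit 385) (C.node (nat_lit 0) (nat_lit 1) (nat_lit 7) (C.cons (nat_lit 643) (C.node (nat_lit 0) (nat_lit 2) (nat_lit 7) C.nil) C.nil)) C.nil)) (C.cons (nat_lit 259) (C.node (nat_lit 0) (nat_lit 2) (nat_lit 8) (C.cons (nat_lit 389) (C.node (nat_lit 0) (nat_lit 1) (nat_lit 7) (C.cons (nat_lit 643) (C.node (nat_lit 0) (nat_lit 2) (nat_lit 1) (C.cons (nat_lit 23) (C.node (nat_lit 0) (nat_lit 1) (nat_lit 6) C.nil) (C.cons (nat_lit 71) (C.node (nat_lit 0) (nat_lit 1) (nat_lit 4) C.nil) C.nil))) C.nil)) C.nil)) C.nil)))) (C.cons (nat_lit 49) (C.node (nat_lit 0) (nat_lit 5) (nat_lit 8) C.nil) C.nil))) C.nil)))) (C.cons (nat_lit 73) (C.node (nat_lit 0) (nat_lit 3) (nat_lit 8) (C.cons (nat_lit 265) (C.node (nat_lit 0) (nat_lit 2) (nat_lit 5) (C.cons (nat_lit 293) (C.node (nat_lit 0) (nat_lit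 4) (nat_lit 5) C.nil) (C.cons (nat_lit 53) (C.node (nat_lit 0) (nat_lit 5) (nat_lit 8) C.nil) C.nil))) C.nil)) C.nil))) C.nil)))) (List.cons (C.node (nat_lit 0) (nat_lit 7) (nat_lit 9) (C.cons (nat_lit 645) (C.node (nat_lit 0) (nat_lit 1) (nat_lit 7) (C.cons (nat_lit 387) (C.node (nat_lit 0) (nat_lit 5) (nat_lit 9) (C.cons (nat_lit 561) (C.node (nat_lit 0) (nat_lit 6) (nat_lit 9) (C.cons (nat_lit 577) (C.node (nat_lit 0) (nat_lit 2) (nat_lit 5) (C.cons (nat_lit 293) (C.node (nat_lit 0) (nat_lit 4) (nat_lit 8) (C.cons (nat_lit 273) (C.node (nat_lit 0) (nat_lit 1) (nat_lit 2) (C.cons (nat_lit 71) (C.pat (nat_lit 1) (nat_lit 3090773537) (nat_lit 2009723200257505715249849713889182025)) (C.cons (nat_lit 23) (C.pat (nat_lit 1) (nat_lit 2591577121) (nat_lit 5498946689028464388930330715408893081)) C.nil))) C.nil)) (C.cons (nat_lit 37) (C.node (nat_lit 0) (nat_lit 5) (nat_lit 8) C.nil) C.nil))) C.nil)) (C.cons (nat_lit 545) (C.node (nat_lit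 0) (nat_lit 4) (nat_lit 9) (C.cons (nat_lit 593) (C.node (nat_lit 0) (nat_lit 1) (nat_lit 4) (C.cons (nat_lit 23) (C.pat (nat_lit 2) (nat_lit 11678422131) (nat_lit 513048840644344597772097776255172930770112257)) (C.cons (nat_lit 19) (C.node (nat_lit 0) (nat_lit 1) (nat_lit 2) (C.cons (nat_lit 71) (C.pat (nat_lit 1) (nat_lit 3090773537) (nat_lit 2009723200257505715249849713889182025)) C.nil)) C.nil))) (C.cons (nat_lit 529) (C.node (nat_lit 0) (nat_lit 6) (nat_lit 9) C.nil) C.nil))) C.nil))) (C.cons (nat_lit 131) (C.node (nat_lit 0) (nat_lit 7) (nat_lit 8) (C.cons (nat_lit 385) (C.node (nat_lit 0) (nat_lit 5) (nat_lit 9) (C.cons (nat_lit 561) (C.node (nat_lit 0) (nat_lit 6) (nat_lit 9) C.nil) C.nil)) C.nil)) C.nil))) (C.cons (nat_lit 641) (C.node (nat_lit 0) (nat_lit 1) (nat_lit 6) (C.cons (nat_lit 83) (C.node (nat_lit 0) (nat_lit 2) (nat_lit 6) (C.cons (nat_lit 581) (C.node (nat_lit 0) (nat_lit 4) (nat_lit 9) (C.cons (nat_lit 561) (C.node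 (nat_lit 0) (nat_lit 2) (nat_lit 4) (C.cons (nat_lit 277) (C.node (nat_lit 0) (nat_lit 2) (nat_lit 5) (C.cons (nat_lit 37) (C.node (nat_lit 0) (nat_lit 5) (nat_lit 8) C.nil) C.nil)) (C.cons (nat_lit 21) (C.node (nat_lit 0) (nat_lit 4) (nat_lit 8) C.nil) C.nil))) (C.cons (nat_lit 529) (C.node (nat_lit 0) (nat_lit 5) (nat_lit 9) C.nil) C.nil))) (C.cons (nat_lit 69) (C.node (nat_lit 0) (nat_lit 6) (nat_lit 9) C.nil) C.nil))) (C.cons (nat_lit 71) (C.node (nat_lit 0) (nat_lit 1) (nat_lit 4) (C.cons (nat_lit 275) (C.node (nat_lit 0) (nat_lit 1) (nat_lit 7) (C.cons (nat_lit 131) (C.node (nat_lit 0) (nat_lit 2) (nat_lit 7) (C.cons (nat_lit 389) (C.node (nat_lit 0) (nat_lit 5) (nat_lit 8) C.nil) C.nil)) C.nil)) (C.cons (nat_lit 19) (C.node (nat_lit 0) (nat_lit 1) (nat_lit 7) (C.cons (nat_lit 387) (C.node (nat_lit 0) (nat_lit 2) (nat_lit 7) C.nil) C.nil)) C.nil))) (C.cons (nat_lit 67) (C.node (nat_lit 0) (nat_lit 1) (nat_lit 4) (C.cons (nat_lit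 275) (C.node (nat_lit 0) (nat_lit 1) (nat_lit 2) (C.cons (nat_lit 135) (C.node (nat_lit 0) (nat_lit 7) (nat_lit 8) C.nil) C.nil)) (C.cons (nat_lit 23) (C.node (nat_lit 0) (nat_lit 1) (nat_lit 7)
  (C.cons (nat_lit 387) (C.node (nat_lit 0) (nat_lit 2) (nat_lit 7) C.nil) C.nil)) C.nil))) C.nil)))) C.nil))) (List.cons (C.node (nat_lit 0) (nat_lit 5) (nat_lit 8) (C.cons (nat_lit 305) (C.node (nat_lit 0) (nat_lit 2) (nat_lit 5) (C.cons (nat_lit 549) (C.node (nat_lit 0) (nat_lit 7) (nat_lit 9) (C.cons (nat_lit 643) (C.node (nat_lit 0) (nat_lit 1) (nat_lit 8) (C.cons (nat_lit 263) (C.node (nat_lit 0) (nat_lit 2) (nat_lit 7) C.nil) C.nil)) C.nil)) C.nil)) (C.cons (nat_lit 293) (C.node (nat_lit 0) (nat_lit 4) (nat_lit 5) (C.cons (nat_lit 561) (C.node (nat_lit 0) (nat_lit 4) (nat_lit 8) (C.cons (nat_lit 275) (C.node (nat_lit 0) (nat_lit 7) (nat_lit 8) C.nil) C.nil)) C.nil)) C.nil))) (List.cons (C.node (nat_lit 0) (nat_lit 3) (nat_lit 5) (C.cons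 (nat_lit 553) (C.ref (nat_lit 455) (nat_lit 205163983024656)) (C.cons (nat_lit 297) (C.ref (nat_lit 455) (nat_lit 205099558515216)) (C.cons (nat_lit 41) (C.node (nat_lit 0) (nat_lit 3) (nat_lit 8) (C.cons (nat_lit 329) (C.node (nat_lit 0) (nat_lit 1) (nat_lit 3) (C.cons (nat_lit 523) (C.ref (nat_lit 456) (nat_lit 205163983024656)) (C.cons (nat_lit 11) (C.node (nat_lit 0) (nat_lit 3) (nat_lit 9) (C.cons (nat_lit 521) (C.ref (nat_lit 457) (nat_lit 205163983024656)) C.nil)) C.nil))) (C.cons (nat_lit 267) (C.node (nat_lit 0) (nat_lit 3) (nat_lit 6) (C.cons (nat_lit 585) (C.ref (nat_lit 456) (nat_lit 205099558515216)) (C.cons (nat_lit 73) (C.node (nat_lit 0) (nat_lit 3) (nat_lit 9) (C.cons (nat_lit 521) (C.node (nat_lit 0) (nat_lit 7) (nat_lit 8) (C.cons (nat_lit 389) (C.node (nat_lit 0) (nat_lit 1) (nat_lit 7) (C.cons (nat_lit 643) (C.node (nat_lit 0) (nat_lit 5) (nat_lit 8) (C.cons (nat_lit 305) (C.node (nat_lit 0) (nat_lit 6) (nat_lit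 8) C.nil) C.nil)) C.nil)) C.nil)) C.nil)) C.nil))) (C.cons (nat_lit 265) (C.node (nat_lit 0) (nat_lit 1) (nat_lit 3) (C.cons (nat_lit 523) (C.node (nat_lit 0) (nat_lit 3) (nat_lit 6) (C.cons (nat_lit 73) (C.node (nat_lit 0) (nat_lit 7) (nat_lit 9) (C.cons (nat_lit 645) (C.node (nat_lit 0) (nat_lit 1) (nat_lit 7) (C.cons (nat_lit 387) (C.node (nat_lit 0) (nat_lit 5) (nat_lit 9) (C.cons (nat_lit 561) (C.node (nat_lit 0) (nat_lit 6) (nat_lit 9) C.nil) C.nil)) C.nil)) C.nil)) C.nil)) (C.cons (nat_lit 75) (C.node (nat_lit 0) (nat_lit 3) (nat_lit 9) (C.cons (nat_lit 521) (C.node (nat_lit 0) (nat_lit 5) (nat_lit 8) (C.cons (nat_lit 305) (C.node (nat_lit 0) (nat_lit 2) (nat_lit 5) (C.cons (nat_lit 549) (C.node (nat_lit 0) (nat_lit 6) (nat_lit 8) (C.cons (nat_lit 325) (C.node (nat_lit 0) (nat_lit 1) (nat_lit 8) (C.cons (nat_lit 387) (C.node (nat_lit 0) (nat_lit 2) (nat_lit 7) C.nil) C.nil)) C.nil)) C.nil)) (C.cons (nat_lit 293) (C.node (nat_lit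 0) (nat_lit 4) (nat_lit 5) (C.cons (nat_lit 561) (C.node (nat_lit 0) (nat_lit 6) (nat_lit 9) (C.cons (nat_lit 581) (C.node (nat_lit 0) (nat_lit 1) (nat_lit 9) (C.cons (nat_lit 643) (C.node (nat_lit 0) (nat_lit 2) (nat_lit 7) C.nil) C.nil)) C.nil)) C.nil)) C.nil))) C.nil)) (C.cons (nat_lit 11) (C.node (nat_lit 0) (nat_lit 3) (nat_lit 6) (C.cons (nat_lit 585) (C.ref (nat_lit 457) (nat_lit 205099558515216)) C.nil)) C.nil)))) C.nil)))) C.nil)))) (List.cons (C.node (nat_lit 0) (nat_lit 1) (nat_lit 3) (C.cons (nat_lit 267) (C.node (nat_lit 0) (nat_lit 3) (nat_lit 5) (C.cons (nat_lit 41) (C.node (nat_lit 0) (nat_lit 1) (nat_lit 5) (C.cons (nat_lit 51) (C.node (nat_lit 0) (nat_lit 1) (nat_lit 6) C.nil) C.nil)) C.nil)) (C.cons (nat_lit 43) (C.node (nat_lit 0) (nat_lit 3) (nat_lit 8) (C.cons (nat_lit 265) (C.node (nat_lit 0) (nat_lit 1) (nat_lit 4) (C.cons (nat_lit 83) (C.node (nat_lit 0) (nat_lit 1) (nat_lit 8) C.nil) (C.cons (nat_lit 275) (C.node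 (nat_lit 0) (nat_lit 1) (nat_lit 6) C.nil) C.nil))) C.nil)) (C.cons (nat_lit 11) (C.node (nat_lit 0) (nat_lit 3) (nat_lit 5) (C.cons (nat_lit 297) (C.node (nat_lit 0) (nat_lit 1) (nat_lit 5) (C.cons (nat_lit 51) (C.node (nat_lit 0) (nat_lit 1) (nat_lit 6) (C.cons (nat_lit 323) (C.node (nat_lit 0) (nat_lit 2) (nat_lit 5) (C.cons (nat_lit 549)
  (C.node (nat_lit 0) (nat_lit 4) (nat_lit 9) C.nil) C.nil)) C.nil)) C.nil)) C.nil)) C.nil)))) (List.cons (C.node (nat_lit 0) (nat_lit 2) (nat_lit 7) (C.cons (nat_lit 389) (C.ref (nat_lit 432) (nat_lit 134366816145696)) (C.cons (nat_lit 133) (C.node (nat_lit 0) (nat_lit 7) (nat_lit 8) (C.cons (nat_lit 385) (C.node (nat_lit 0) (nat_lit 3) (nat_lit 9) (C.cons (nat_lit 585) (C.ref (nat_lit 459) (nat_lit 205163983024656)) (C.cons (nat_lit 553) (C.ref (nat_lit 459) (nat_lit 205163967296016)) (C.cons (nat_lit 521) (C.node (nat_lit 0) (nat_lit 3) (nat_lit 5) (C.cons (nat_lit 297) (C.node (nat_lit 0) (nat_lit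 1) (nat_lit 3) (C.cons (nat_lit 75) (C.node (nat_lit 0) (nat_lit 1) (nat_lit 5) (C.cons (nat_lit 51) (C.node (nat_lit 0) (nat_lit 1) (nat_lit 8) C.nil) C.nil)) C.nil)) (C.cons (nat_lit 43) (C.node (nat_lit 0) (nat_lit 3) (nat_lit 6) (C.cons (nat_lit 329) (C.node (nat_lit 0) (nat_lit 1) (nat_lit 6) (C.cons (nat_lit 83) (C.node (nat_lit 0) (nat_lit 1) (nat_lit 8) C.nil) C.nil)) C.nil)) C.nil))) C.nil)))) C.nil)) C.nil))) (List.cons (C.node (nat_lit 0) (nat_lit 1) (nat_lit 7) (C.cons (nat_lit 643) (C.ref (nat_lit 460) (nat_lit 205163983024656)) (C.cons (nat_lit 387) (C.ref (nat_lit 460) (nat_lit 205099558515216)) (C.cons (nat_lit 131) (C.node (nat_lit 0) (nat_lit 7) (nat_lit 8) (C.cons (nat_lit 389) (C.node (nat_lit 0) (nat_lit 7) (nat_lit 9) (C.cons (nat_lit 641) (C.ref (nat_lit 452) (nat_lit 201647263592976)) C.nil)) (C.cons (nat_lit 385) (C.node (nat_lit 0) (nat_lit 2) (nat_lit 7) (C.cons (nat_lit 645) (C.ref (nat_lit 452) (nat_lit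 201647247864336)) (C.cons (nat_lit 133) (C.node (nat_lit 0) (nat_lit 7) (nat_lit 9) C.nil) C.nil))) C.nil))) C.nil)))) (List.cons (C.node (nat_lit 0) (nat_lit 7) (nat_lit 8) (C.cons (nat_lit 389) (C.node (nat_lit 0) (nat_lit 1) (nat_lit 7) (C.cons (nat_lit 643) (C.ref (nat_lit 441) (nat_lit 134431240716816)) (C.cons (nat_lit 131) (C.node (nat_lit 0) (nat_lit 7) (nat_lit 9) C.nil) C.nil))) (C.cons (nat_lit 387) (C.node (nat_lit 0) (nat_lit 2) (nat_lit 7) (C.cons (nat_lit 645) (C.ref (nat_lit 441) (nat_lit 134431240655376)) (C.cons (nat_lit 133) (C.node (nat_lit 0) (nat_lit 7) (nat_lit 9) C.nil) C.nil))) (C.cons (nat_lit 385) (C.node (nat_lit 0) (nat_lit 1) (nat_lit 7) (C.cons (nat_lit 643) (C.node (nat_lit 0) (nat_lit 2) (nat_lit 7) C.nil) (C.cons (nat_lit 135) (C.node (nat_lit 0) (nat_lit 7) (nat_lit 9) C.nil) C.nil))) C.nil)))) List.nil))))))))))))))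

theorem ok12_449 : okL par12 (nat_lit 463) c12_449 (nat_lit 449) = true := by decide +kernel

noncomputable def c12_463 : List C :=
  (List.cons (C.node (nat_lit 0) (nat_lit 5) (nat_lit 10) (C.cons (nat_lit 1061) (C.node (nat_lit 0) (nat_lit 1) (nat_lit 10) (C.cons (nat_lit 1091) (C.ref (nat_lit 425) (nat_lit 188671273095696)) (C.cons (nat_lit 1027) (C.node (nat_lit 0) (nat_lit 6) (nat_lit 10) (C.cons (nat_lit 1089) (C.ref (nat_lit 453) (nat_lit 205163983024656)) C.nil)) C.nil))) (C.cons (nat_lit 1059) (C.node (nat_lit 0) (nat_lit 2) (nat_lit 10) (C.cons (nat_lit 1093) (C.ref (nat_lit 425) (nat_lit 188671273034256)) (C.cons (nat_lit 1029) (C.node (nat_lit 0) (nat_lit 6) (nat_lit 10) (C.cons (nat_lit 1089) (C.ref (nat_lit 458) (nat_lit 205163983024656)) C.nil)) C.nil))) (C.cons (nat_lit 1057) (C.node (nat_lit 0) (nat_lit 1) (nat_lit 10) (C.cons (nat_lit 1091) (C.node (nat_lit 0) (nat_lit 2) (nat_lit 10) (C.cons (nat_lit 1029) (C.ref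 (nat_lit 458) (nat_lit 205163967296016)) C.nil)) (C.cons (nat_lit 1031) (C.node (nat_lit 0) (nat_lit 6) (nat_lit 10) (C.cons (nat_lit 1089) (C.ref (nat_lit 461) (nat_lit 205163983024656)) C.nil)) (C.cons (nat_lit 1027) (C.node (nat_lit 0) (nat_lit 2) (nat_lit 10) (C.cons (nat_lit 1093) (C.ref (nat_lit 453) (nat_lit 205163967296016)) (C.cons (nat_lit 1029) (C.node (nat_lit 0) (nat_lit 6) (nat_lit 10) (C.cons (nat_lit 1089) (C.ref (nat_lit 462) (nat_lit 205163983024656)) C.nil)) C.nil))) C.nil)))) C.nil)))) (List.cons (C.node (nat_lit 0) (nat_lit 1) (nat_lit 11) (C.cons (nat_lit 2067) (C.node (nat_lit 0) (nat_lit 5) (nat_lit 10) (C.cons (nat_lit 1061) (C.ref (nat_lit 426) (nat_lit 205163983024656)) (C.cons (nat_lit 1059) (C.ref (nat_lit 426) (nat_lit 205163982962976)) (C.cons (nat_lit 1057) (C.node (nat_lit 0) (nat_lit 1) (nat_lit 10) (C.cons (nat_lit 1091) (C.node (nat_lit 0) (nat_lit 2) (nat_lit 10) (C.cons (nat_lit 1029) (C.ref (nat_lit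 425) (nat_lit 205163967234336)) C.nil)) (C.cons (nat_lit 1031) (C.node (nat_lit 0) (nat_lit 6) (nat_lit 10) (C.cons (nat_lit 1089) (C.ref (nat_lit 436) (nat_lit 205163983024656)) C.nil)) (C.cons (nat_lit 1027) (C.node (nat_lit 0) (nat_lit 2) (nat_lit 10) (C.cons (nat_lit 1093) (C.ref (nat_lit 425) (nat_lit 205163967296016)) (C.cons (nat_lit 1029) (C.node (nat_lit 0) (nat_lit 6) (nat_lit 10) (C.cons (nat_lit 1089) (C.ref (nat_lit 443) (nat_lit 205163983024656)) C.nil)) C.nil))) C.nil)))) C.nil)))) (C.cons (nat_lit 2051) (C.node (nat_lit 0) (nat_lit 4) (nat_lit 11) (C.cons (nat_lit 2065) (C.ref (nat_lit 463) (nat_lit 205163983024656)) C.nil)) C.nil))) (List.cons (C.node (nat_lit 0) (nat_lit 1) (nat_lit 10) (C.cons (nat_lit 1091) (C.node (nat_lit 0) (nat_lit 2) (nat_lit 10) (C.cons (nat_lit 1061) (C.ref (nat_lit 435) (nat_lit 188671273095696)) (C.cons (nat_lit 1029) (C.node (nat_lit 0) (nat_lit 5) (nat_lit 10) C.nil) C.nil))) (C.cons (nat_lit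 1059) (C.node (nat_lit 0) (nat_lit 2) (nat_lit 10) (C.cons (nat_lit 1093) (C.ref (nat_lit 435) (nat_lit 188671273034256)) (C.cons (nat_lit 1029) (C.node (nat_lit 0) (nat_lit 6) (nat_lit 10) C.nil) C.nil))) (C.cons (nat_lit 1027) (C.node (nat_lit 0) (nat_lit 5) (nat_lit 10) (C.cons (nat_lit 1061) (C.node (nat_lit 0) (nat_lit 6) (nat_lit 10) C.nil) C.nil)) C.nil)))) (List.cons (C.big (C.cons (nat_lit 2071) (C.ref (nat_lit 327) (nat_lit 205163983020336)) (C.cons (nat_lit 2063) (C.ref (nat_lit 327) (nat_lit 205163982954816)) (C.cons (nat_lit 1095) (C.ref (nat_lit 327) (nat_lit 188671273083216)) (C.cons (nat_lit 1063) (C.ref (nat_lit 327) (nat_lit 188671273017696)) (C.cons (nat_lit 647) (C.ref (nat_lit 327) (nat_lit 135676477120896)) (C.cons (nat_lit 597) (C.ref (nat_lit 400) (nat_lit 205163983024656)) (C.cons (nat_lit 595) (C.ref (nat_lit 400) (nat_lit 205163983024416)) (C.cons (nat_lit 589) (C.ref (nat_lit 400) (nat_lit 205163982963216))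 (C.cons (nat_lit 587) (C.ref (nat_lit 400) (nat_lit 205163982962976)) (C.cons (nat_lit 583) (C.ref (nat_lit 405) (nat_lit 205163983024656)) (C.cons (nat_lit 565) (C.ref (nat_lit 400) (nat_lit 205163967296016)) (C.cons (nat_lit 563) (C.ref (nat_lit 400) (nat_lit 205163967295776)) (C.cons (nat_lit 557)
  (C.ref (nat_lit 400) (nat_lit 205163967234576)) (C.cons (nat_lit 555) (C.ref (nat_lit 400) (nat_lit 205163967234336)) (C.cons (nat_lit 551) (C.ref (nat_lit 405) (nat_lit 205163967296016)) (C.cons (nat_lit 535) (C.ref (nat_lit 405) (nat_lit 188671273095696)) (C.cons (nat_lit 527) (C.ref (nat_lit 405) (nat_lit 188671257367056)) (C.cons (nat_lit 391) (C.ref (nat_lit 327) (nat_lit 135676477055376)) (C.cons (nat_lit 341) (C.ref (nat_lit 400) (nat_lit 205099558515216)) (C.cons (nat_lit 339) (C.ref (nat_lit 400) (nat_lit 205099558514976)) (C.cons (nat_lit 333) (C.ref (nat_lit 400) (nat_lit 205099558453776)) (C.cons (nat_lit 331) (C.ref (nat_lit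 400) (nat_lit 205099558453536)) (C.cons (nat_lit 327) (C.ref (nat_lit 405) (nat_lit 205099558515216)) (C.cons (nat_lit 309) (C.ref (nat_lit 400) (nat_lit 205099542786576)) (C.cons (nat_lit 307) (C.ref (nat_lit 400) (nat_lit 205099542786336)) (C.cons (nat_lit 301) (C.ref (nat_lit 400) (nat_lit 205099542725136)) (C.cons (nat_lit 299) (C.ref (nat_lit 400) (nat_lit 205099542724896)) (C.cons (nat_lit 295) (C.ref (nat_lit 405) (nat_lit 205099542786576)) (C.cons (nat_lit 279) (C.ref (nat_lit 405) (nat_lit 188606848586256)) (C.cons (nat_lit 271) (C.ref (nat_lit 405) (nat_lit 188606832857616)) (C.cons (nat_lit 87) (C.ref (nat_lit 405) (nat_lit 135676477145616)) (C.cons (nat_lit 79) (C.ref (nat_lit 405) (nat_lit 135676461416976)) (C.cons (nat_lit 55) (C.ref (nat_lit 405) (nat_lit 135612052636176)) (C.cons (nat_lit 47) (C.ref (nat_lit 405) (nat_lit 135612036907536)) C.nil)))))))))))))))))))))))))))))))))) (C.node (nat_lit 0) (nat_lit 3) (nat_lit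 11) (C.cons (nat_lit 2061) (C.ref (nat_lit 464) (nat_lit 205163983024656)) (C.cons (nat_lit 2059) (C.ref (nat_lit 464) (nat_lit 205163983024416)) (C.cons (nat_lit 2057) (C.node (nat_lit 0) (nat_lit 1) (nat_lit 11) (C.cons (nat_lit 2067) (C.node (nat_lit 0) (nat_lit 2) (nat_lit 11) (C.cons (nat_lit 2053) (C.ref (nat_lit 463) (nat_lit 205163982962976)) C.nil)) (C.cons (nat_lit 2055) (C.node (nat_lit 0) (nat_lit 4) (nat_lit 11) (C.cons (nat_lit 2065) (C.node (nat_lit 0) (nat_lit 1) (nat_lit 7) (C.cons (nat_lit 643) (C.node (nat_lit 0) (nat_lit 2) (nat_lit 7) (C.cons (nat_lit 389) (C.ref (nat_lit 436) (nat_lit 135676477145616)) (C.cons (nat_lit 133) (C.node (nat_lit 0) (nat_lit 7) (nat_lit 8) (C.cons (nat_lit 385) (C.ref (nat_lit 461) (nat_lit 135676477083936)) C.nil)) C.nil))) (C.cons (nat_lit 387) (C.node (nat_lit 0) (nat_lit 2) (nat_lit 7) (C.cons (nat_lit 645) (C.ref (nat_lit 436) (nat_lit 135676477084176)) (C.cons (nat_lit 133) (C.node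 (nat_lit 0) (nat_lit 7) (nat_lit 9) (C.cons (nat_lit 641) (C.ref (nat_lit 461) (nat_lit 135676477145376)) C.nil)) C.nil))) (C.cons (nat_lit 131) (C.node (nat_lit 0) (nat_lit 7) (nat_lit 8) (C.cons (nat_lit 389) (C.node (nat_lit 0) (nat_lit 7) (nat_lit 9) (C.cons (nat_lit 641) (C.ref (nat_lit 461) (nat_lit 135676477145616)) C.nil)) (C.cons (nat_lit 385) (C.node (nat_lit 0) (nat_lit 2) (nat_lit 7) (C.cons (nat_lit 645) (C.ref (nat_lit 461) (nat_lit 135676477084176)) (C.cons (nat_lit 133) (C.node (nat_lit 0) (nat_lit 7) (nat_lit 9) (C.cons (nat_lit 641) (C.ref (nat_lit 465) (nat_lit 205163983024656)) C.nil)) C.nil))) C.nil))) C.nil)))) C.nil)) (C.cons (nat_lit 2051) (C.node (nat_lit 0) (nat_lit 2) (nat_lit 11) (C.cons (nat_lit 2069) (C.ref (nat_lit 463) (nat_lit 205163982963216)) (C.cons (nat_lit 2053) (C.node (nat_lit 0) (nat_lit 4) (nat_lit 11) (C.cons (nat_lit 2065) (C.node (nat_lit 0) (nat_lit 5) (nat_lit 10) (C.cons (nat_lit 1061)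 (C.node (nat_lit 0) (nat_lit 1) (nat_lit 10) (C.cons (nat_lit 1091) (C.ref (nat_lit 443) (nat_lit 188671273095696)) (C.cons (nat_lit 1027) (C.node (nat_lit 0) (nat_lit 6) (nat_lit 10) (C.cons (nat_lit 1089) (C.ref (nat_lit 462) (nat_lit 188671273095696)) C.nil)) C.nil))) (C.cons (nat_lit 1059) (C.node (nat_lit 0) (nat_lit 2) (nat_lit 10) (C.cons (nat_lit 1093) (C.ref (nat_lit 443) (nat_lit 188671273095456)) (C.cons (nat_lit 1029) (C.node (nat_lit 0) (nat_lit 6) (nat_lit 10) (C.cons (nat_lit 1089)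
  (C.ref (nat_lit 462) (nat_lit 188671273095456)) C.nil)) C.nil))) (C.cons (nat_lit 1057) (C.node (nat_lit 0) (nat_lit 1) (nat_lit 10) (C.cons (nat_lit 1091) (C.node (nat_lit 0) (nat_lit 2) (nat_lit 10) (C.cons (nat_lit 1029) (C.ref (nat_lit 462) (nat_lit 188671273034016)) C.nil)) (C.cons (nat_lit 1031) (C.node (nat_lit 0) (nat_lit 6) (nat_lit 10) (C.cons (nat_lit 1089) (C.ref (nat_lit 465) (nat_lit 183909317235216)) C.nil)) (C.cons (nat_lit 1027) (C.node (nat_lit 0) (nat_lit 2) (nat_lit 10) (C.cons (nat_lit 1093) (C.ref (nat_lit 462) (nat_lit 188671273034256)) (C.cons (nat_lit 1029) (C.node (nat_lit 0) (nat_lit 6) (nat_lit 10) C.nil) C.nil))) C.nil)))) C.nil)))) C.nil)) C.nil))) C.nil)))) C.nil))))) (List.cons (C.node (nat_lit 0) (nat_lit 1) (nat_lit 8) (C.cons (nat_lit 387) (C.node (nat_lit 0) (nat_lit 4) (nat_lit 8) (C.cons (nat_lit 273) (C.node (nat_lit 0) (nat_lit 3) (nat_lit 7) (C.cons (nat_lit 649) (C.node (nat_lit 0) (nat_lit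 4) (nat_lit 7) C.nil) C.nil)) C.nil)) (C.cons (nat_lit 275) (C.node (nat_lit 0) (nat_lit 7) (nat_lit 8) (C.cons (nat_lit 385) (C.node (nat_lit 0) (nat_lit 6) (nat_lit 4) (C.cons (nat_lit 593) (C.node (nat_lit 0) (nat_lit 7) (nat_lit 4) C.nil) C.nil)) C.nil)) (C.cons (nat_lit 259) (C.node (nat_lit 0) (nat_lit 4) (nat_lit 8) (C.cons (nat_lit 401) (C.node (nat_lit 0) (nat_lit 1) (nat_lit 4) (C.cons (nat_lit 531) (C.node (nat_lit 0) (nat_lit 4) (nat_lit 6) C.nil) (C.cons (nat_lit 83) (C.node (nat_lit 0) (nat_lit 4) (nat_lit 9) C.nil) C.nil))) C.nil)) C.nil)))) (List.cons (C.node (nat_lit 0) (nat_lit 2) (nat_lit 6) (C.cons (nat_lit 325) (C.node (nat_lit 0) (nat_lit 2) (nat_lit 7) (C.cons (nat_lit 133) (C.node (nat_lit 0) (nat_lit 3) (nat_lit 5) (C.cons (nat_lit 297) (C.node (nat_lit 0) (nat_lit 4) (nat_lit 5) (C.cons (nat_lit 49) (C.ref (nat_lit 467) (nat_lit 205163983024656)) C.nil)) (C.cons (nat_lit 41) (C.node (nat_lit 0) (nat_lit 4)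 (nat_lit 5) (C.cons (nat_lit 305) (C.ref (nat_lit 467) (nat_lit 205163982963216)) (C.cons (nat_lit 49) (C.node (nat_lit 0) (nat_lit 5) (nat_lit 8) C.nil) C.nil))) C.nil))) C.nil)) (C.cons (nat_lit 69) (C.node (nat_lit 0) (nat_lit 2) (nat_lit 7) (C.cons (nat_lit 389) (C.node (nat_lit 0) (nat_lit 3) (nat_lit 5) (C.cons (nat_lit 297) (C.node (nat_lit 0) (nat_lit 4) (nat_lit 5) (C.cons (nat_lit 49) (C.ref (nat_lit 467) (nat_lit 205163731366416)) C.nil)) (C.cons (nat_lit 41) (C.node (nat_lit 0) (nat_lit 4) (nat_lit 5) (C.cons (nat_lit 305) (C.ref (nat_lit 467) (nat_lit 205163731304976)) (C.cons (nat_lit 49) (C.node (nat_lit 0) (nat_lit 5) (nat_lit 8) C.nil) C.nil))) C.nil))) (C.cons (nat_lit 133) (C.node (nat_lit 0) (nat_lit 2) (nat_lit 8) (C.cons (nat_lit 261) (C.node (nat_lit 0) (nat_lit 3) (nat_lit 5) (C.cons (nat_lit 297) (C.node (nat_lit 0) (nat_lit 4) (nat_lit 5) C.nil) C.nil)) C.nil)) C.nil))) C.nil))) (List.cons (C.node (nat_lit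 0) (nat_lit 3) (nat_lit 7) (C.cons (nat_lit 139) (C.node (nat_lit 0) (nat_lit 1) (nat_lit 9) (C.cons (nat_lit 531) (C.node (nat_lit 0) (nat_lit 4) (nat_lit 7) (C.cons (nat_lit 145) (C.node (nat_lit 0) (nat_lit 7) (nat_lit 9) (C.cons (nat_lit 641) (C.node (nat_lit 0) (nat_lit 1) (nat_lit 6) (C.cons (nat_lit 323) (C.pat (nat_lit 5) (nat_lit 701580733202) (nat_lit 85657935774874860580878202810601029919020613771)) C.nil)) C.nil)) C.nil)) (C.cons (nat_lit 515) (C.node (nat_lit 0) (nat_lit 3) (nat_lit 6) (C.cons (nat_lit 329) (C.node (nat_lit 0) (nat_lit 1) (nat_lit 6) (C.cons (nat_lit 83) (C.node (nat_lit 0) (nat_lit 1) (nat_lit 8) (C.cons (nat_lit 259) (C.node (nat_lit 0) (nat_lit 4) (nat_lit 5) (C.cons (nat_lit 305) (C.node (nat_lit 0) (nat_lit 4) (nat_lit 7) (C.cons (nat_lit 657) (C.pat (nat_lit 1) (nat_lit 1469482034) (nat_lit 2019983564285834397946415414126379665)) C.nil)) C.nil)) C.nil)) (C.cons (nat_lit 67) (C.node (nat_lit 0) (nat_lit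 4) (nat_lit 6) C.nil) C.nil))) (C.cons (nat_lit 73) (C.node (nat_lit 0) (nat_lit 3) (nat_lit 8) C.nil) C.nil))) C.nil))) (C.cons (nat_lit 137) (C.node (nat_lit 0) (nat_lit 4) (nat_lit 5)
  (C.cons (nat_lit 305) (C.node (nat_lit 0) (nat_lit 4) (nat_lit 6) (C.cons (nat_lit 83) (C.node (nat_lit 0) (nat_lit 1) (nat_lit 3) (C.cons (nat_lit 267) (C.pat (nat_lit 5) (nat_lit 782376647189) (nat_lit 85657520635558841365445582620504929006514798675)) (C.cons (nat_lit 11) (C.node (nat_lit 0) (nat_lit 1) (nat_lit 8) C.nil) C.nil))) (C.cons (nat_lit 81) (C.node (nat_lit 0) (nat_lit 1) (nat_lit 3) (C.cons (nat_lit 267) (C.node (nat_lit 0) (nat_lit 1) (nat_lit 6) C.nil) (C.cons (nat_lit 75) (C.pat (nat_lit 1) (nat_lit 2506337057) (nat_lit 5498686186452993137371114936635033825)) C.nil))) C.nil))) (C.cons (nat_lit 49) (C.node (nat_lit 0) (nat_lit 5) (nat_lit 8) C.nil) C.nil))) C.nil))) (List.cons (C.node (nat_lit 0) (nat_lit 3) (nat_lit 5) (C.cons (nat_lit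 553) (C.node (nat_lit 0) (nat_lit 4) (nat_lit 5) (C.cons (nat_lit 305) (C.node (nat_lit 0) (nat_lit 6) (nat_lit 4) (C.cons (nat_lit 83) (C.node (nat_lit 0) (nat_lit 1) (nat_lit 9) (C.cons (nat_lit 643) (C.node (nat_lit 0) (nat_lit 7) (nat_lit 4) C.nil) C.nil)) C.nil)) C.nil)) (C.cons (nat_lit 297) (C.node (nat_lit 0) (nat_lit 3) (nat_lit 6) (C.cons (nat_lit 75) (C.node (nat_lit 0) (nat_lit 3) (nat_lit 7) (C.cons (nat_lit 649) (C.node (nat_lit 0) (nat_lit 1) (nat_lit 9) (C.cons (nat_lit 531) (C.node (nat_lit 0) (nat_lit 4) (nat_lit 5) C.nil) C.nil)) C.nil)) C.nil)) C.nil))) (List.cons (C.node (nat_lit 0) (nat_lit 2) (nat_lit 7) (C.cons (nat_lit 389) (C.node (nat_lit 0) (nat_lit 3) (nat_lit 5) (C.cons (nat_lit 553) (C.ref (nat_lit 469) (nat_lit 205163983024656)) (C.cons (nat_lit 297) (C.ref (nat_lit 469) (nat_lit 205099306856976)) (C.cons (nat_lit 41) (C.node (nat_lit 0) (nat_lit 5) (nat_lit 8) (C.cons (nat_lit 305) (C.node (nat_lit 0)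 (nat_lit 5) (nat_lit 9) (C.cons (nat_lit 545) (C.node (nat_lit 0) (nat_lit 4) (nat_lit 6) (C.cons (nat_lit 83) (C.node (nat_lit 0) (nat_lit 1) (nat_lit 8) (C.cons (nat_lit 267) (C.node (nat_lit 0) (nat_lit 3) (nat_lit 6) C.nil) C.nil)) C.nil)) C.nil)) (C.cons (nat_lit 289) (C.node (nat_lit 0) (nat_lit 4) (nat_lit 5) (C.cons (nat_lit 561) (C.node (nat_lit 0) (nat_lit 4) (nat_lit 7) (C.cons (nat_lit 147) (C.node (nat_lit 0) (nat_lit 1) (nat_lit 9) (C.cons (nat_lit 523) (C.node (nat_lit 0) (nat_lit 3) (nat_lit 7) C.nil) C.nil)) C.nil)) C.nil)) C.nil))) C.nil)))) (C.cons (nat_lit 133) (C.node (nat_lit 0) (nat_lit 2) (nat_lit 8) (C.cons (nat_lit 261) (C.ref (nat_lit 470) (nat_lit 205163983024656)) C.nil)) C.nil))) (List.cons (C.node (nat_lit 0) (nat_lit 2) (nat_lit 5) (C.cons (nat_lit 549) (C.ref (nat_lit 468) (nat_lit 205163983024656)) (C.cons (nat_lit 293) (C.ref (nat_lit 468) (nat_lit 205099558515216)) (C.cons (nat_lit 37) (C.node (nat_lit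 0) (nat_lit 2) (nat_lit 6) (C.cons (nat_lit 581) (C.ref (nat_lit 471) (nat_lit 205163983024656)) (C.cons (nat_lit 325) (C.ref (nat_lit 471) (nat_lit 205099558515216)) (C.cons (nat_lit 69) (C.node (nat_lit 0) (nat_lit 2) (nat_lit 8) (C.cons (nat_lit 389) (C.node (nat_lit 0) (nat_lit 2) (nat_lit 9) (C.cons (nat_lit 517) (C.ref (nat_lit 470) (nat_lit 205099306856976)) C.nil)) (C.cons (nat_lit 261) (C.node (nat_lit 0) (nat_lit 2) (nat_lit 7) (C.cons (nat_lit 645) (C.ref (nat_lit 470) (nat_lit 205163731366416)) C.nil)) C.nil))) C.nil)))) C.nil)))) (List.cons (C.node (nat_lit 0) (nat_lit 3) (nat_lit 5) (C.cons (nat_lit 297) (C.node (nat_lit 0) (nat_lit 1) (nat_lit 5) (C.cons (nat_lit 51) (C.node (nat_lit 0) (nat_lit 1) (nat_lit 8) (C.cons (nat_lit 387) (C.node (nat_lit 0) (nat_lit 4) (nat_lit 8) C.nil) C.nil)) C.nil)) (C.cons (nat_lit 43) (C.node (nat_lit 0) (nat_lit 3) (nat_lit 6) (C.cons (nat_lit 585) (C.node (nat_lit 0) (nat_lit 1) (nat_lit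 6) (C.cons (nat_lit 83) (C.node (nat_lit 0) (nat_lit 1) (nat_lit 8) (C.cons (nat_lit 387) (C.node (nat_lit 0) (nat_lit 1) (nat_lit 9) C.nil) C.nil)) C.nil)) C.nil)) C.nil))) (List.cons (C.node (nat_lit 0) (nat_lit 2) (nat_lit 5) (C.cons (nat_lit 549) (C.node (nat_lit 0) (nat_lit 2) (nat_lit 6) (C.cons (nat_lit 325) (C.node (nat_lit 0) (nat_lit 2) (nat_lit 7)
  (C.cons (nat_lit 133) (C.ref (nat_lit 473) (nat_lit 205163983024656)) C.nil)) (C.cons (nat_lit 69) (C.node (nat_lit 0) (nat_lit 2) (nat_lit 7) (C.cons (nat_lit 389) (C.ref (nat_lit 473) (nat_lit 205163731366416)) C.nil)) C.nil))) (C.cons (nat_lit 293) (C.node (nat_lit 0) (nat_lit 2) (nat_lit 6) (C.cons (nat_lit 581) (C.node (nat_lit 0) (nat_lit 2) (nat_lit 7) (C.cons (nat_lit 133) (C.ref (nat_lit 473) (nat_lit 205099558515216)) C.nil)) (C.cons (nat_lit 69) (C.node (nat_lit 0) (nat_lit 2) (nat_lit 7) (C.cons (nat_lit 645) (C.ref (nat_lit 473) (nat_lit 205099306856976)) C.nil))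 C.nil))) (C.cons (nat_lit 37) (C.node (nat_lit 0) (nat_lit 2) (nat_lit 6) (C.cons (nat_lit 581) (C.node (nat_lit 0) (nat_lit 2) (nat_lit 7) (C.cons (nat_lit 389) (C.ref (nat_lit 473) (nat_lit 205163463979536)) C.nil)) (C.cons (nat_lit 325) (C.node (nat_lit 0) (nat_lit 2) (nat_lit 7) (C.cons (nat_lit 645) (C.ref (nat_lit 473) (nat_lit 205099039470096)) C.nil)) C.nil))) C.nil)))) (List.cons (C.node (nat_lit 0) (nat_lit 5) (nat_lit 10) (C.cons (nat_lit 1059) (C.node (nat_lit 0) (nat_lit 6) (nat_lit 10) (C.cons (nat_lit 1089) (C.node (nat_lit 0) (nat_lit 7) (nat_lit 10) (C.cons (nat_lit 1153) (C.ref (nat_lit 472) (nat_lit 205163983024656)) C.nil)) C.nil)) (C.cons (nat_lit 1057) (C.node (nat_lit 0) (nat_lit 6) (nat_lit 10) (C.cons (nat_lit 1091) (C.node (nat_lit 0) (nat_lit 7) (nat_lit 10) (C.cons (nat_lit 1153) (C.ref (nat_lit 472) (nat_lit 205163967296016)) C.nil)) (C.cons (nat_lit 1089) (C.node (nat_lit 0) (nat_lit 1) (nat_lit 10) (C.cons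 (nat_lit 1155) (C.ref (nat_lit 472) (nat_lit 205163699909136)) (C.cons (nat_lit 1027) (C.node (nat_lit 0) (nat_lit 7) (nat_lit 10) (C.cons (nat_lit 1153) (C.ref (nat_lit 474) (nat_lit 205163983024656)) C.nil)) C.nil))) C.nil))) C.nil))) (List.cons (C.big (C.cons (nat_lit 659) (C.ref (nat_lit 405) (nat_lit 171147804431136)) (C.cons (nat_lit 651) (C.ref (nat_lit 405) (nat_lit 171147787654176)) (C.cons (nat_lit 647) (C.ref (nat_lit 405) (nat_lit 171147770876976)) (C.cons (nat_lit 595) (C.ref (nat_lit 405) (nat_lit 171147536061216)) (C.cons (nat_lit 587) (C.ref (nat_lit 405) (nat_lit 171147519284256)) (C.cons (nat_lit 583) (C.ref (nat_lit 405) (nat_lit 171147502507056)) (C.cons (nat_lit 563) (C.ref (nat_lit 405) (nat_lit 171147267629856)) (C.cons (nat_lit 555) (C.ref (nat_lit 405) (nat_lit 171147250852896)) (C.cons (nat_lit 551) (C.ref (nat_lit 405) (nat_lit 171147234075696)) (C.cons (nat_lit 403) (C.ref (nat_lit 405) (nat_lit 153559913354016))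 (C.cons (nat_lit 395) (C.ref (nat_lit 405) (nat_lit 153559896577056)) (C.cons (nat_lit 391) (C.ref (nat_lit 405) (nat_lit 153559879799856)) (C.cons (nat_lit 339) (C.ref (nat_lit 405) (nat_lit 153559644984096)) (C.cons (nat_lit 331) (C.ref (nat_lit 405) (nat_lit 153559628207136)) (C.cons (nat_lit 327) (C.ref (nat_lit 405) (nat_lit 153559611429936)) (C.cons (nat_lit 307) (C.ref (nat_lit 405) (nat_lit 153559376552736)) (C.cons (nat_lit 299) (C.ref (nat_lit 405) (nat_lit 153559359775776)) (C.cons (nat_lit 295) (C.ref (nat_lit 405) (nat_lit 153559342998576)) C.nil)))))))))))))))))) (C.node (nat_lit 0) (nat_lit 2) (nat_lit 11) (C.cons (nat_lit 2055) (C.node (nat_lit 0) (nat_lit 3) (nat_lit 11) (C.cons (nat_lit 2057) (C.node (nat_lit 0) (nat_lit 4) (nat_lit 11) (C.cons (nat_lit 2065) (C.ref (nat_lit 475) (nat_lit 205163983024656)) C.nil)) C.nil)) (C.cons (nat_lit 2053) (C.node (nat_lit 0) (nat_lit 3) (nat_lit 11) (C.cons (nat_lit 2059) (C.node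 (nat_lit 0) (nat_lit 4) (nat_lit 11) (C.cons (nat_lit 2065) (C.ref (nat_lit 475) (nat_lit 205163983020816)) C.nil)) (C.cons (nat_lit 2057) (C.node (nat_lit 0) (nat_lit 1) (nat_lit 11) (C.cons (nat_lit 2067) (C.ref (nat_lit 475) (nat_lit 205163982955536)) (C.cons (nat_lit 2051) (C.node (nat_lit 0) (nat_lit 4) (nat_lit 11) (C.cons (nat_lit 2065) (C.node (nat_lit 0) (nat_lit 5) (nat_lit 10) (C.cons (nat_lit 1059) (C.node (nat_lit 0) (nat_lit 6) (nat_lit 10) (C.cons (nat_lit 1089) (C.node (nat_lit 0) (nat_lit 7) (nat_lit 10) (C.cons (nat_lit 1153)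
  (C.ref (nat_lit 474) (nat_lit 188670450033936)) C.nil)) C.nil)) (C.cons (nat_lit 1057) (C.node (nat_lit 0) (nat_lit 6) (nat_lit 10) (C.cons (nat_lit 1091) (C.node (nat_lit 0) (nat_lit 7) (nat_lit 10) (C.cons (nat_lit 1153) (C.ref (nat_lit 474) (nat_lit 188670450030096)) C.nil)) (C.cons (nat_lit 1089) (C.node (nat_lit 0) (nat_lit 1) (nat_lit 10) (C.cons (nat_lit 1155) (C.ref (nat_lit 474) (nat_lit 188670449964816)) (C.cons (nat_lit 1027) (C.node (nat_lit 0) (nat_lit 7) (nat_lit 10) C.nil) C.nil))) C.nil))) C.nil))) C.nil)) C.nil))) C.nil))) C.nil)))) (List.cons (C.node (nat_lit 0) (nat_lit 3) (nat_lit 5) (C.cons (nat_lit 297) (C.node (nat_lit 0) (nat_lit 4) (nat_lit 5) (C.cons (nat_lit 49) (C.node (nat_lit 0) (nat_lit 3) (nat_lit 6) (C.cons (nat_lit 1097) (C.node (nat_lit 0) (nat_lit 4) (nat_lit 10) C.nil) C.nil)) C.nil)) (C.cons (nat_lit 41) (C.node (nat_lit 0) (nat_lit 3) (nat_lit 7) (C.cons (nat_lit 649) (C.node (nat_lit 0) (nat_lit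 4) (nat_lit 7) C.nil) C.nil)) C.nil))) (List.cons (C.node (nat_lit 0) (nat_lit 2) (nat_lit 8) (C.cons (nat_lit 325) (C.node (nat_lit 0) (nat_lit 2) (nat_lit 10) (C.cons (nat_lit 1029) (C.ref (nat_lit 477) (nat_lit 204003822809616)) C.nil)) (C.cons (nat_lit 261) (C.node (nat_lit 0) (nat_lit 2) (nat_lit 6) (C.cons (nat_lit 1093) (C.node (nat_lit 0) (nat_lit 3) (nat_lit 5) (C.cons (nat_lit 297) (C.node (nat_lit 0) (nat_lit 3) (nat_lit 6) (C.cons (nat_lit 73) (C.node (nat_lit 0) (nat_lit 4) (nat_lit 5) C.nil) C.nil)) (C.cons (nat_lit 41) (C.node (nat_lit 0) (nat_lit 3) (nat_lit 6) (C.cons (nat_lit 329) (C.node (nat_lit 0) (nat_lit 4) (nat_lit 6) C.nil) C.nil)) C.nil))) (C.cons (nat_lit 69) (C.node (nat_lit 0) (nat_lit 2) (nat_lit 10) C.nil) C.nil))) C.nil))) (List.cons (C.node (nat_lit 0) (nat_lit 2) (nat_lit 5) (C.cons (nat_lit 549) (C.node (nat_lit 0) (nat_lit 3) (nat_lit 5) (C.cons (nat_lit 297) (C.node (nat_lit 0) (nat_lit 4) (nat_lit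 5) (C.cons (nat_lit 49) (C.node (nat_lit 0) (nat_lit 3) (nat_lit 6) (C.cons (nat_lit 1097) (C.node (nat_lit 0) (nat_lit 2) (nat_lit 6) (C.cons (nat_lit 325) (C.pat (nat_lit 1) (nat_lit 2322158369) (nat_lit 5498946689260573276265832099459957833)) C.nil)) C.nil)) C.nil)) (C.cons (nat_lit 41) (C.node (nat_lit 0) (nat_lit 3) (nat_lit 9) (C.cons (nat_lit 649) (C.node (nat_lit 0) (nat_lit 4) (nat_lit 9) C.nil) C.nil)) C.nil))) (C.cons (nat_lit 293) (C.node (nat_lit 0) (nat_lit 2) (nat_lit 6) (C.cons (nat_lit 1093) (C.node (nat_lit 0) (nat_lit 2) (nat_lit 7) (C.cons (nat_lit 645) (C.ref (nat_lit 477) (nat_lit 205163463979296)) (C.cons (nat_lit 133) (C.node (nat_lit 0) (nat_lit 2) (nat_lit 9) C.nil) C.nil))) (C.cons (nat_lit 69) (C.node (nat_lit 0) (nat_lit 2) (nat_lit 9) (C.cons (nat_lit 645) (C.node (nat_lit 0) (nat_lit 2) (nat_lit 10) C.nil) C.nil)) C.nil))) (C.cons (nat_lit 37) (C.node (nat_lit 0) (nat_lit 2) (nat_lit 9) (C.cons (nat_lit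 645) (C.node (nat_lit 0) (nat_lit 2) (nat_lit 8) (C.cons (nat_lit 325) (C.node (nat_lit 0) (nat_lit 2) (nat_lit 10) C.nil) C.nil)) C.nil)) C.nil)))) List.nil)))))))))))))))))

theorem ok12_463 : okL par12 (nat_lit 480) c12_463 (nat_lit 463) = true := by decide +kernel

noncomputable def c12_480 : List C :=
  (List.cons (C.node (nat_lit 0) (nat_lit 1) (nat_lit 7) (C.cons (nat_lit 387) (C.node (nat_lit 0) (nat_lit 2) (nat_lit 5) (C.cons (nat_lit 549) (C.node (nat_lit 0) (nat_lit 2) (nat_lit 7) (C.cons (nat_lit 1157) (C.node (nat_lit 0) (nat_lit 2) (nat_lit 6) (C.cons (nat_lit 325) (C.pat (nat_lit 1) (nat_lit 680950353) (nat_lit 2009444634105784820745317866031615745)) (C.cons (nat_lit 69) (C.node (nat_lit 0) (nat_lit 2) (nat_lit 8) (C.cons (nat_lit 261) (C.ref (nat_lit 477) (nat_lit 205163983024656)) C.nil)) C.nil))) (C.cons (nat_lit 133) (C.ref (nat_lit 478) (nat_lit 205163983024656)) C.nil))) (C.cons (nat_lit 293) (C.node (nat_lit 0)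 (nat_lit 2) (nat_lit 6) (C.cons (nat_lit 1093) (C.node (nat_lit 0) (nat_lit 2) (nat_lit 7) (C.cons (nat_lit 645) (C.pat (nat_lit 1) (nat_lit 696740433) (nat_lit 3006390983724361351981515982313164545)) (C.cons (nat_lit 133) (C.node (nat_lit 0) (nat_lit 2) (nat_lit 9) (C.cons (nat_lit 517) (C.ref (nat_lit 477) (nat_lit 205099306856976)) C.nil)) C.nil))) (C.cons (nat_lit 69) (C.ref (nat_lit 478) (nat_lit 205099306856976)) C.nil))) (C.cons (nat_lit 37) (C.node (nat_lit 0) (nat_lit 2) (nat_lit 8) (C.cons (nat_lit 325) (C.ref (nat_lit 478) (nat_lit 204003822809616)) (C.cons (nat_lit 261) (C.node (nat_lit 0) (nat_lit 2) (nat_lit 6) (C.cons (nat_lit 1093) (C.node (nat_lit 0) (nat_lit 2) (nat_lit 7) (C.cons (nat_lit 645) (C.ref (nat_lit 477) (nat_lit 204133175144976)) (C.cons (nat_lit 133) (C.node (nat_lit 0) (nat_lit 2) (nat_lit 9) C.nil) C.nil))) (C.cons (nat_lit 69) (C.node (nat_lit 0) (nat_lit 2) (nat_lit 9) (C.cons (nat_lit 645) (C.node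 (nat_lit 0) (nat_lit 2) (nat_lit 10) C.nil) C.nil)) C.nil))) C.nil))) C.nil)))) (C.cons (nat_lit 131) (C.node (nat_lit 0) (nat_lit 1) (nat_lit 8) (C.cons (nat_lit 259) (C.ref (nat_lit 479) (nat_lit 205163983024656)) C.nil)) C.nil))) (List.cons (C.node (nat_lit 0) (nat_lit 1) (nat_lit 8) (C.cons (nat_lit 387) (C.node (nat_lit 0) (nat_lit 1) (nat_lit 9) (C.cons (nat_lit 515) (C.ref (nat_lit 479) (nat_lit 205099306856976)) C.nil)) (C.cons (nat_lit 259) (C.node (nat_lit 0) (nat_lit 1) (nat_lit 7) (C.cons (nat_lit 643) (C.ref (nat_lit 479) (nat_lit 205163731366416)) (C.cons (nat_lit 131) (C.node (nat_lit 0) (nat_lit 1) (nat_lit 9) C.nil) C.nil))) C.nil))) (List.cons (C.node (nat_lit 0) (nat_lit 1) (nat_lit 6) (C.cons (nat_lit 579) (C.ref (nat_lit 480) (nat_lit 205163983024656)) (C.cons (nat_lit 323) (C.ref (nat_lit 480) (nat_lit 205099558515216)) (C.cons (nat_lit 67) (C.ref (nat_lit 481) (nat_lit 205163983024656)) C.nil)))) (List.cons (C.big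 C.nil (C.node (nat_lit 0) (nat_lit 1) (nat_lit 11) (C.cons (nat_lit 2051) (C.node (nat_lit 0) (nat_lit 2) (nat_lit 11) (C.cons (nat_lit 2053) (C.node (nat_lit 0) (nat_lit 3) (nat_lit 11) (C.cons (nat_lit 2057) (C.node (nat_lit 0) (nat_lit 4) (nat_lit 11) (C.cons (nat_lit 2065) (C.node (nat_lit 0) (nat_lit 1) (nat_lit 5) (C.cons (nat_lit 1059) (C.ref (nat_lit 482) (nat_lit 205163983024656)) (C.cons (nat_lit 547) (C.ref (nat_lit 482) (nat_lit 204133190873616)) (C.cons (nat_lit 291) (C.ref (nat_lit 482) (nat_lit 203037974213136)) (C.cons (nat_lit 35) (C.node (nat_lit 0) (nat_lit 1) (nat_lit 8) (C.cons (nat_lit 387) (C.ref (nat_lit 481) (nat_lit 203037691097616)) (C.cons (nat_lit 323) (C.ref (nat_lit 481) (nat_lit 203037958484496)) (C.cons (nat_lit 259) (C.node (nat_lit 0) (nat_lit 1) (nat_lit 6) (C.cons (nat_lit 1091) (C.node (nat_lit 0) (nat_lit 1) (nat_lit 7) (C.cons (nat_lit 643) (C.ref (nat_lit 479) (nat_lit 205163463979536)) (C.cons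 (nat_lit 131) (C.node (nat_lit 0) (nat_lit 1) (nat_lit 9) C.nil) C.nil))) (C.cons (nat_lit 579) (C.node (nat_lit 0) (nat_lit 1) (nat_lit 7) (C.cons (nat_lit 1155) (C.ref (nat_lit 479) (nat_lit 204132671828496)) (C.cons (nat_lit 131) (C.node (nat_lit 0) (nat_lit 1) (nat_lit 10) C.nil) C.nil))) (C.cons (nat_lit 67) (C.node (nat_lit 0) (nat_lit 1) (nat_lit 9) (C.cons (nat_lit 643)
  (C.node (nat_lit 0) (nat_lit 1) (nat_lit 10) C.nil) C.nil)) C.nil)))) C.nil)))) C.nil))))) C.nil)) C.nil)) C.nil)) C.nil))) (List.cons (C.big (C.cons (nat_lit 2077) (C.ref (nat_lit 383) (nat_lit 205163983024656)) (C.cons (nat_lit 2075) (C.ref (nat_lit 383) (nat_lit 205163983024416)) (C.cons (nat_lit 2071) (C.ref (nat_lit 383) (nat_lit 205163983020336)) (C.cons (nat_lit 2063) (C.ref (nat_lit 383) (nat_lit 205163982954816)) (C.cons (nat_lit 1177) (C.ref (nat_lit 466) (nat_lit 205163983024656)) (C.cons (nat_lit 1173) (C.ref (nat_lit 466) (nat_lit 205163983020816))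 (C.cons (nat_lit 1171) (C.ref (nat_lit 466) (nat_lit 205163983016736)) (C.cons (nat_lit 1165) (C.ref (nat_lit 466) (nat_lit 205163982955536)) (C.cons (nat_lit 1163) (C.ref (nat_lit 466) (nat_lit 205163982951456)) (C.cons (nat_lit 1159) (C.ref (nat_lit 466) (nat_lit 205163982885936)) (C.cons (nat_lit 1113) (C.ref (nat_lit 466) (nat_lit 205163731366416)) (C.cons (nat_lit 1109) (C.ref (nat_lit 466) (nat_lit 205163731362576)) (C.cons (nat_lit 1107) (C.ref (nat_lit 466) (nat_lit 205163731358496)) (C.cons (nat_lit 1101) (C.ref (nat_lit 466) (nat_lit 205163731297296)) (C.cons (nat_lit 1099) (C.ref (nat_lit 466) (nat_lit 205163731293216)) (C.cons (nat_lit 1095) (C.ref (nat_lit 466) (nat_lit 205163731227696)) (C.cons (nat_lit 1081) (C.ref (nat_lit 466) (nat_lit 205163463979536)) (C.cons (nat_lit 1077) (C.ref (nat_lit 466) (nat_lit 205163463975696)) (C.cons (nat_lit 1075) (C.ref (nat_lit 466) (nat_lit 205163463971616)) (C.cons (nat_lit 1069)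 (C.ref (nat_lit 466) (nat_lit 205163463910416)) (C.cons (nat_lit 1067) (C.ref (nat_lit 466) (nat_lit 205163463906336)) (C.cons (nat_lit 1063) (C.ref (nat_lit 466) (nat_lit 205163463840816)) (C.cons (nat_lit 1053) (C.ref (nat_lit 476) (nat_lit 205163983024656)) (C.cons (nat_lit 1051) (C.ref (nat_lit 476) (nat_lit 205163983024416)) (C.cons (nat_lit 1047) (C.ref (nat_lit 476) (nat_lit 205163983020336)) (C.cons (nat_lit 1039) (C.ref (nat_lit 476) (nat_lit 205163982954816)) (C.cons (nat_lit 665) (C.ref (nat_lit 466) (nat_lit 204133190873616)) (C.cons (nat_lit 661) (C.ref (nat_lit 466) (nat_lit 204133190869776)) (C.cons (nat_lit 659) (C.ref (nat_lit 466) (nat_lit 204133190865696)) (C.cons (nat_lit 653) (C.ref (nat_lit 466) (nat_lit 204133190804496)) (C.cons (nat_lit 651) (C.ref (nat_lit 466) (nat_lit 204133190800416)) (C.cons (nat_lit 647) (C.ref (nat_lit 466) (nat_lit 204133190734896)) (C.cons (nat_lit 601) (C.ref (nat_lit 466) (nat_lit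 204132939215376)) (C.cons (nat_lit 597) (C.ref (nat_lit 466) (nat_lit 204132939211536)) (C.cons (nat_lit 595) (C.ref (nat_lit 466) (nat_lit 204132939207456)) (C.cons (nat_lit 589) (C.ref (nat_lit 466) (nat_lit 204132939146256)) (C.cons (nat_lit 587) (C.ref (nat_lit 466) (nat_lit 204132939142176)) (C.cons (nat_lit 583) (C.ref (nat_lit 466) (nat_lit 204132939076656)) (C.cons (nat_lit 569) (C.ref (nat_lit 466) (nat_lit 204132671828496)) (C.cons (nat_lit 565) (C.ref (nat_lit 466) (nat_lit 204132671824656)) (C.cons (nat_lit 563) (C.ref (nat_lit 466) (nat_lit 204132671820576)) (C.cons (nat_lit 557) (C.ref (nat_lit 466) (nat_lit 204132671759376)) (C.cons (nat_lit 555) (C.ref (nat_lit 466) (nat_lit 204132671755296)) (C.cons (nat_lit 551) (C.ref (nat_lit 466) (nat_lit 204132671689776)) (C.cons (nat_lit 541) (C.ref (nat_lit 476) (nat_lit 204133190873616)) (C.cons (nat_lit 539) (C.ref (nat_lit 476) (nat_lit 204133190873376)) (C.cons (nat_lit 535)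 (C.ref (nat_lit 476) (nat_lit 204133190869296)) (C.cons (nat_lit 527) (C.ref (nat_lit 476) (nat_lit 204133190803776)) (C.cons (nat_lit 409) (C.ref (nat_lit 466) (nat_lit 203037974213136)) (C.cons (nat_lit 405) (C.ref (nat_lit 466) (nat_lit 203037974209296)) (C.cons (nat_lit 403) (C.ref (nat_lit 466) (nat_lit 203037974205216)) (C.cons (nat_lit 397) (C.ref (nat_lit 466) (nat_lit 203037974144016)) (C.cons (nat_lit 395) (C.ref (nat_lit 466) (nat_lit 203037974139936)) (C.cons (nat_lit 391) (C.ref (nat_lit 466) (nat_lit 203037974074416)) (C.cons (nat_lit 345)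
  (C.ref (nat_lit 466) (nat_lit 203037722554896)) (C.cons (nat_lit 341) (C.ref (nat_lit 466) (nat_lit 203037722551056)) (C.cons (nat_lit 339) (C.ref (nat_lit 466) (nat_lit 203037722546976)) (C.cons (nat_lit 333) (C.ref (nat_lit 466) (nat_lit 203037722485776)) (C.cons (nat_lit 331) (C.ref (nat_lit 466) (nat_lit 203037722481696)) (C.cons (nat_lit 327) (C.ref (nat_lit 466) (nat_lit 203037722416176)) (C.cons (nat_lit 313) (C.ref (nat_lit 466) (nat_lit 203037455168016)) (C.cons (nat_lit 309) (C.ref (nat_lit 466) (nat_lit 203037455164176)) (C.cons (nat_lit 307) (C.ref (nat_lit 466) (nat_lit 203037455160096)) (C.cons (nat_lit 301) (C.ref (nat_lit 466) (nat_lit 203037455098896)) (C.cons (nat_lit 299) (C.ref (nat_lit 466) (nat_lit 203037455094816)) (C.cons (nat_lit 295) (C.ref (nat_lit 466) (nat_lit 203037455029296)) (C.cons (nat_lit 285) (C.ref (nat_lit 476) (nat_lit 203037974213136)) (C.cons (nat_lit 283) (C.ref (nat_lit 476) (nat_lit 203037974212896))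 (C.cons (nat_lit 279) (C.ref (nat_lit 476) (nat_lit 203037974208816)) (C.cons (nat_lit 271) (C.ref (nat_lit 476) (nat_lit 203037974143296)) (C.cons (nat_lit 157) (C.ref (nat_lit 476) (nat_lit 201647263592976)) (C.cons (nat_lit 155) (C.ref (nat_lit 476) (nat_lit 201647263592736)) (C.cons (nat_lit 151) (C.ref (nat_lit 476) (nat_lit 201647263588656)) (C.cons (nat_lit 143) (C.ref (nat_lit 476) (nat_lit 201647263523136)) (C.cons (nat_lit 93) (C.ref (nat_lit 476) (nat_lit 200616471441936)) (C.cons (nat_lit 91) (C.ref (nat_lit 476) (nat_lit 200616471441696)) (C.cons (nat_lit 87) (C.ref (nat_lit 476) (nat_lit 200616471437616)) (C.cons (nat_lit 79) (C.ref (nat_lit 476) (nat_lit 200616471372096)) (C.cons (nat_lit 61) (C.ref (nat_lit 476) (nat_lit 199521254781456)) (C.cons (nat_lit 59) (C.ref (nat_lit 476) (nat_lit 199521254781216)) (C.cons (nat_lit 55) (C.ref (nat_lit 476) (nat_lit 199521254777136)) (C.cons (nat_lit 47) (C.ref (nat_lit 476) (nat_lit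 199521254711616)) (C.cons (nat_lit 31) (C.ref (nat_lit 483) (nat_lit 205163983024656)) C.nil))))))))))))))))))))))))))))))))))))))))))))))))))))))))))))))))))))))))))))))))))) C.nil) (List.cons (C.big (C.cons (nat_lit 2189) (C.ref (nat_lit 476) (nat_lit 201428220400656)) (C.cons (nat_lit 2187) (C.ref (nat_lit 476) (nat_lit 201423925433376)) (C.cons (nat_lit 2183) (C.ref (nat_lit 476) (nat_lit 201355205956656)) (C.cons (nat_lit 2125) (C.ref (nat_lit 476) (nat_lit 200328708838416)) (C.cons (nat_lit 2123) (C.ref (nat_lit 476) (nat_lit 200324413871136)) (C.cons (nat_lit 2119) (C.ref (nat_lit 476) (nat_lit 200255694394416)) (C.cons (nat_lit 2093) (C.ref (nat_lit 476) (nat_lit 199229197214736)) (C.cons (nat_lit 2091) (C.ref (nat_lit 476) (nat_lit 199224902247456)) (C.cons (nat_lit 2087) (C.ref (nat_lit 476) (nat_lit 199156182770736)) (C.cons (nat_lit 2077) (C.ref (nat_lit 476) (nat_lit 198129685587216)) (C.cons (nat_lit 2075) (C.ref (nat_lit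 476) (nat_lit 198125390619936)) (C.cons (nat_lit 2071) (C.ref (nat_lit 476) (nat_lit 198056671143216)) (C.cons (nat_lit 2063) (C.ref (nat_lit 483) (nat_lit 205162838189376)) (C.cons (nat_lit 1165) (C.ref (nat_lit 476) (nat_lit 183836302791696)) (C.cons (nat_lit 1163) (C.ref (nat_lit 476) (nat_lit 183832007824416)) (C.cons (nat_lit 1159) (C.ref (nat_lit 476) (nat_lit 183763288347696)) (C.cons (nat_lit 1101) (C.ref (nat_lit 476) (nat_lit 182736791229456)) (C.cons (nat_lit 1099) (C.ref (nat_lit 476) (nat_lit 182732496262176)) (C.cons (nat_lit 1095) (C.ref (nat_lit 476) (nat_lit 182663776785456)) (C.cons (nat_lit 1069) (C.ref (nat_lit 476) (nat_lit 181637279605776)) (C.cons (nat_lit 1067) (C.ref (nat_lit 476) (nat_lit 181632984638496)) (C.cons (nat_lit 1063) (C.ref (nat_lit 476) (nat_lit 181564265161776)) (C.cons (nat_lit 1053) (C.ref (nat_lit 476) (nat_lit 180537767978256)) (C.cons (nat_lit 1051) (C.ref (nat_lit 476) (nat_lit 180533473010976))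 (C.cons (nat_lit 1047) (C.ref (nat_lit 476) (nat_lit 180464753534256)) (C.cons (nat_lit 1039) (C.ref (nat_lit 483) (nat_lit 188670163772736)) (C.cons (nat_lit 653)
  (C.ref (nat_lit 476) (nat_lit 166244133524496)) (C.cons (nat_lit 651) (C.ref (nat_lit 476) (nat_lit 166239838557216)) (C.cons (nat_lit 647) (C.ref (nat_lit 476) (nat_lit 166171119080496)) (C.cons (nat_lit 589) (C.ref (nat_lit 476) (nat_lit 165144621962256)) (C.cons (nat_lit 587) (C.ref (nat_lit 476) (nat_lit 165140326994976)) (C.cons (nat_lit 583) (C.ref (nat_lit 476) (nat_lit 165071607518256)) (C.cons (nat_lit 557) (C.ref (nat_lit 476) (nat_lit 164045110338576)) (C.cons (nat_lit 555) (C.ref (nat_lit 476) (nat_lit 164040815371296)) (C.cons (nat_lit 551) (C.ref (nat_lit 476) (nat_lit 163972095894576)) (C.cons (nat_lit 541) (C.ref (nat_lit 476) (nat_lit 162945598711056)) (C.cons (nat_lit 539) (C.ref (nat_lit 476) (nat_lit 162941303743776)) (C.cons (nat_lit 535) (C.ref (nat_lit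 476) (nat_lit 162872584267056)) (C.cons (nat_lit 527) (C.ref (nat_lit 483) (nat_lit 171146697205056)) (C.cons (nat_lit 397) (C.ref (nat_lit 476) (nat_lit 148651948528656)) (C.cons (nat_lit 395) (C.ref (nat_lit 476) (nat_lit 148647653561376)) (C.cons (nat_lit 391) (C.ref (nat_lit 476) (nat_lit 148578934084656)) (C.cons (nat_lit 333) (C.ref (nat_lit 476) (nat_lit 147552436966416)) (C.cons (nat_lit 331) (C.ref (nat_lit 476) (nat_lit 147548141999136)) (C.cons (nat_lit 327) (C.ref (nat_lit 476) (nat_lit 147479422522416)) (C.cons (nat_lit 301) (C.ref (nat_lit 476) (nat_lit 146452925342736)) (C.cons (nat_lit 299) (C.ref (nat_lit 476) (nat_lit 146448630375456)) (C.cons (nat_lit 295) (C.ref (nat_lit 476) (nat_lit 146379910898736)) (C.cons (nat_lit 285) (C.ref (nat_lit 476) (nat_lit 145353413715216)) (C.cons (nat_lit 283) (C.ref (nat_lit 476) (nat_lit 145349118747936)) (C.cons (nat_lit 279) (C.ref (nat_lit 476) (nat_lit 145280399271216)) (C.cons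 (nat_lit 271) (C.ref (nat_lit 483) (nat_lit 153558806127936)) (C.cons (nat_lit 143) (C.ref (nat_lit 483) (nat_lit 130103990004096)) (C.cons (nat_lit 79) (C.ref (nat_lit 483) (nat_lit 113611315587456)) (C.cons (nat_lit 47) (C.ref (nat_lit 483) (nat_lit 96087849019776)) (C.cons (nat_lit 31) (C.ref (nat_lit 483) (nat_lit 78499957942656)) C.nil)))))))))))))))))))))))))))))))))))))))))))))))))))))))) C.nil) (List.cons (C.big (C.cons (nat_lit 2273) (C.ref (nat_lit 484) (nat_lit 205163983024656)) (C.cons (nat_lit 2257) (C.ref (nat_lit 484) (nat_lit 205163982041616)) (C.cons (nat_lit 2249) (C.ref (nat_lit 484) (nat_lit 205163980997136)) (C.cons (nat_lit 2245) (C.ref (nat_lit 484) (nat_lit 205163979948816)) (C.cons (nat_lit 2243) (C.ref (nat_lit 484) (nat_lit 205163978900256)) (C.cons (nat_lit 2225) (C.ref (nat_lit 484) (nat_lit 205163965329936)) (C.cons (nat_lit 2217) (C.ref (nat_lit 484) (nat_lit 205163964285456)) (C.cons (nat_lit 2213) (C.ref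 (nat_lit 484) (nat_lit 205163963237136)) (C.cons (nat_lit 2211) (C.ref (nat_lit 484) (nat_lit 205163962188576)) (C.cons (nat_lit 2201) (C.ref (nat_lit 484) (nat_lit 205163947512336)) (C.cons (nat_lit 2197) (C.ref (nat_lit 484) (nat_lit 205163946464016)) (C.cons (nat_lit 2195) (C.ref (nat_lit 484) (nat_lit 205163945415456)) (C.cons (nat_lit 2189) (C.ref (nat_lit 484) (nat_lit 205163929687056)) (C.cons (nat_lit 2187) (C.ref (nat_lit 484) (nat_lit 205163928638496)) (C.cons (nat_lit 2183) (C.ref (nat_lit 484) (nat_lit 205163911861296)) (C.cons (nat_lit 2161) (C.ref (nat_lit 484) (nat_lit 205163696960016)) (C.cons (nat_lit 2153) (C.ref (nat_lit 484) (nat_lit 205163695915536)) (C.cons (nat_lit 2149) (C.ref (nat_lit 484) (nat_lit 205163694867216)) (C.cons (nat_lit 2147) (C.ref (nat_lit 484) (nat_lit 205163693818656)) (C.cons (nat_lit 2137) (C.ref (nat_lit 484) (nat_lit 205163679142416)) (C.cons (nat_lit 2133) (C.ref (nat_lit 484) (nat_lit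 205163678094096)) (C.cons (nat_lit 2131) (C.ref (nat_lit 484) (nat_lit 205163677045536)) (C.cons (nat_lit 2125) (C.ref (nat_lit 484) (nat_lit 205163661317136)) (C.cons (nat_lit 2123) (C.ref (nat_lit 484) (nat_lit 205163660268576)) (C.cons (nat_lit 2119) (C.ref (nat_lit 484) (nat_lit 205163643491376)) (C.cons (nat_lit 2105)
  (C.ref (nat_lit 484) (nat_lit 205163410711056)) (C.cons (nat_lit 2101) (C.ref (nat_lit 484) (nat_lit 205163409662736)) (C.cons (nat_lit 2099) (C.ref (nat_lit 484) (nat_lit 205163408614176)) (C.cons (nat_lit 2093) (C.ref (nat_lit 484) (nat_lit 205163392885776)) (C.cons (nat_lit 2091) (C.ref (nat_lit 484) (nat_lit 205163391837216)) (C.cons (nat_lit 2087) (C.ref (nat_lit 484) (nat_lit 205163375060016)) (C.cons (nat_lit 2077) (C.ref (nat_lit 484) (nat_lit 205163124450576)) (C.cons (nat_lit 2075) (C.ref (nat_lit 484) (nat_lit 205163123402016)) (C.cons (nat_lit 2071) (C.ref (nat_lit 484) (nat_lit 205163106624816)) (C.cons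 (nat_lit 2063) (C.ref (nat_lit 484) (nat_lit 205162838189376)) (C.cons (nat_lit 1249) (C.ref (nat_lit 484) (nat_lit 188671308608016)) (C.cons (nat_lit 1233) (C.ref (nat_lit 484) (nat_lit 188671307624976)) (C.cons (nat_lit 1225) (C.ref (nat_lit 484) (nat_lit 188671306580496)) (C.cons (nat_lit 1221) (C.ref (nat_lit 484) (nat_lit 188671305532176)) (C.cons (nat_lit 1219) (C.ref (nat_lit 484) (nat_lit 188671304483616)) (C.cons (nat_lit 1201) (C.ref (nat_lit 484) (nat_lit 188671290913296)) (C.cons (nat_lit 1193) (C.ref (nat_lit 484) (nat_lit 188671289868816)) (C.cons (nat_lit 1189) (C.ref (nat_lit 484) (nat_lit 188671288820496)) (C.cons (nat_lit 1187) (C.ref (nat_lit 484) (nat_lit 188671287771936)) (C.cons (nat_lit 1177) (C.ref (nat_lit 484) (nat_lit 188671273095696)) (C.cons (nat_lit 1173) (C.ref (nat_lit 484) (nat_lit 188671272047376)) (C.cons (nat_lit 1171) (C.ref (nat_lit 484) (nat_lit 188671270998816)) (C.cons (nat_lit 1165) (C.ref (nat_lit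 484) (nat_lit 188671255270416)) (C.cons (nat_lit 1163) (C.ref (nat_lit 484) (nat_lit 188671254221856)) (C.cons (nat_lit 1159) (C.ref (nat_lit 484) (nat_lit 188671237444656)) (C.cons (nat_lit 1137) (C.ref (nat_lit 484) (nat_lit 188671022543376)) (C.cons (nat_lit 1129) (C.ref (nat_lit 484) (nat_lit 188671021498896)) (C.cons (nat_lit 1125) (C.ref (nat_lit 484) (nat_lit 188671020450576)) (C.cons (nat_lit 1123) (C.ref (nat_lit 484) (nat_lit 188671019402016)) (C.cons (nat_lit 1113) (C.ref (nat_lit 484) (nat_lit 188671004725776)) (C.cons (nat_lit 1109) (C.ref (nat_lit 484) (nat_lit 188671003677456)) (C.cons (nat_lit 1107) (C.ref (nat_lit 484) (nat_lit 188671002628896)) (C.cons (nat_lit 1101) (C.ref (nat_lit 484) (nat_lit 188670986900496)) (C.cons (nat_lit 1099) (C.ref (nat_lit 484) (nat_lit 188670985851936)) (C.cons (nat_lit 1095) (C.ref (nat_lit 484) (nat_lit 188670969074736)) (C.cons (nat_lit 1081) (C.ref (nat_lit 484) (nat_lit 188670736294416))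 (C.cons (nat_lit 1077) (C.ref (nat_lit 484) (nat_lit 188670735246096)) (C.cons (nat_lit 1075) (C.ref (nat_lit 484) (nat_lit 188670734197536)) (C.cons (nat_lit 1069) (C.ref (nat_lit 484) (nat_lit 188670718469136)) (C.cons (nat_lit 1067) (C.ref (nat_lit 484) (nat_lit 188670717420576)) (C.cons (nat_lit 1063) (C.ref (nat_lit 484) (nat_lit 188670700643376)) (C.cons (nat_lit 1053) (C.ref (nat_lit 484) (nat_lit 188670450033936)) (C.cons (nat_lit 1051) (C.ref (nat_lit 484) (nat_lit 188670448985376)) (C.cons (nat_lit 1047) (C.ref (nat_lit 484) (nat_lit 188670432208176)) (C.cons (nat_lit 1039) (C.ref (nat_lit 484) (nat_lit 188670163772736)) (C.cons (nat_lit 737) (C.ref (nat_lit 484) (nat_lit 171147842040336)) (C.cons (nat_lit 721) (C.ref (nat_lit 484) (nat_lit 171147841057296)) (C.cons (nat_lit 713) (C.ref (nat_lit 484) (nat_lit 171147840012816)) (C.cons (nat_lit 709) (C.ref (nat_lit 484) (nat_lit 171147838964496)) (C.cons (nat_lit 707) (C.ref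 (nat_lit 484) (nat_lit 171147837915936)) (C.cons (nat_lit 689) (C.ref (nat_lit 484) (nat_lit 171147824345616)) (C.cons (nat_lit 681) (C.ref (nat_lit 484) (nat_lit 171147823301136)) (C.cons (nat_lit 677) (C.ref (nat_lit 484) (nat_lit 171147822252816)) (C.cons (nat_lit 675) (C.ref (nat_lit 484) (nat_lit 171147821204256)) (C.cons (nat_lit 665) (C.ref (nat_lit 484) (nat_lit 171147806528016)) (C.cons (nat_lit 661) (C.ref (nat_lit 484) (nat_lit 171147805479696)) (C.cons (nat_lit 659)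
  (C.ref (nat_lit 484) (nat_lit 171147804431136)) (C.cons (nat_lit 653) (C.ref (nat_lit 484) (nat_lit 171147788702736)) (C.cons (nat_lit 651) (C.ref (nat_lit 484) (nat_lit 171147787654176)) (C.cons (nat_lit 647) (C.ref (nat_lit 484) (nat_lit 171147770876976)) (C.cons (nat_lit 625) (C.ref (nat_lit 484) (nat_lit 171147555975696)) (C.cons (nat_lit 617) (C.ref (nat_lit 484) (nat_lit 171147554931216)) (C.cons (nat_lit 613) (C.ref (nat_lit 484) (nat_lit 171147553882896)) (C.cons (nat_lit 611) (C.ref (nat_lit 484) (nat_lit 171147552834336)) (C.cons (nat_lit 601) (C.ref (nat_lit 484) (nat_lit 171147538158096)) (C.cons (nat_lit 597) (C.ref (nat_lit 484) (nat_lit 171147537109776)) (C.cons (nat_lit 595) (C.ref (nat_lit 484) (nat_lit 171147536061216)) (C.cons (nat_lit 589) (C.ref (nat_lit 484) (nat_lit 171147520332816)) (C.cons (nat_lit 587) (C.ref (nat_lit 484) (nat_lit 171147519284256)) (C.cons (nat_lit 583) (C.ref (nat_lit 484) (nat_lit 171147502507056))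 (C.cons (nat_lit 569) (C.ref (nat_lit 484) (nat_lit 171147269726736)) (C.cons (nat_lit 565) (C.ref (nat_lit 484) (nat_lit 171147268678416)) (C.cons (nat_lit 563) (C.ref (nat_lit 484) (nat_lit 171147267629856)) (C.cons (nat_lit 557) (C.ref (nat_lit 484) (nat_lit 171147251901456)) (C.cons (nat_lit 555) (C.ref (nat_lit 484) (nat_lit 171147250852896)) (C.cons (nat_lit 551) (C.ref (nat_lit 484) (nat_lit 171147234075696)) (C.cons (nat_lit 541) (C.ref (nat_lit 484) (nat_lit 171146983466256)) (C.cons (nat_lit 539) (C.ref (nat_lit 484) (nat_lit 171146982417696)) (C.cons (nat_lit 535) (C.ref (nat_lit 484) (nat_lit 171146965640496)) (C.cons (nat_lit 527) (C.ref (nat_lit 484) (nat_lit 171146697205056)) (C.cons (nat_lit 481) (C.ref (nat_lit 484) (nat_lit 153559950963216)) (C.cons (nat_lit 465) (C.ref (nat_lit 484) (nat_lit 153559949980176)) (C.cons (nat_lit 457) (C.ref (nat_lit 484) (nat_lit 153559948935696)) (C.cons (nat_lit 453) (C.ref (nat_lit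 484) (nat_lit 153559947887376)) (C.cons (nat_lit 451) (C.ref (nat_lit 484) (nat_lit 153559946838816)) (C.cons (nat_lit 433) (C.ref (nat_lit 484) (nat_lit 153559933268496)) (C.cons (nat_lit 425) (C.ref (nat_lit 484) (nat_lit 153559932224016)) (C.cons (nat_lit 421) (C.ref (nat_lit 484) (nat_lit 153559931175696)) (C.cons (nat_lit 419) (C.ref (nat_lit 484) (nat_lit 153559930127136)) (C.cons (nat_lit 409) (C.ref (nat_lit 484) (nat_lit 153559915450896)) (C.cons (nat_lit 405) (C.ref (nat_lit 484) (nat_lit 153559914402576)) (C.cons (nat_lit 403) (C.ref (nat_lit 484) (nat_lit 153559913354016)) (C.cons (nat_lit 397) (C.ref (nat_lit 484) (nat_lit 153559897625616)) (C.cons (nat_lit 395) (C.ref (nat_lit 484) (nat_lit 153559896577056)) (C.cons (nat_lit 391) (C.ref (nat_lit 484) (nat_lit 153559879799856)) (C.cons (nat_lit 369) (C.ref (nat_lit 484) (nat_lit 153559664898576)) (C.cons (nat_lit 361) (C.ref (nat_lit 484) (nat_lit 153559663854096)) (C.cons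 (nat_lit 357) (C.ref (nat_lit 484) (nat_lit 153559662805776)) (C.cons (nat_lit 355) (C.ref (nat_lit 484) (nat_lit 153559661757216)) (C.cons (nat_lit 345) (C.ref (nat_lit 484) (nat_lit 153559647080976)) (C.cons (nat_lit 341) (C.ref (nat_lit 484) (nat_lit 153559646032656)) (C.cons (nat_lit 339) (C.ref (nat_lit 484) (nat_lit 153559644984096)) (C.cons (nat_lit 333) (C.ref (nat_lit 484) (nat_lit 153559629255696)) (C.cons (nat_lit 331) (C.ref (nat_lit 484) (nat_lit 153559628207136)) (C.cons (nat_lit 327) (C.ref (nat_lit 484) (nat_lit 153559611429936)) (C.cons (nat_lit 313) (C.ref (nat_lit 484) (nat_lit 153559378649616)) (C.cons (nat_lit 309) (C.ref (nat_lit 484) (nat_lit 153559377601296)) (C.cons (nat_lit 307) (C.ref (nat_lit 484) (nat_lit 153559376552736)) (C.cons (nat_lit 301) (C.ref (nat_lit 484) (nat_lit 153559360824336)) (C.cons (nat_lit 299) (C.ref (nat_lit 484) (nat_lit 153559359775776)) (C.cons (nat_lit 295) (C.ref (nat_lit 484) (nat_lit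 153559342998576)) (C.cons (nat_lit 285) (C.ref (nat_lit 484) (nat_lit 153559092389136)) (C.cons (nat_lit 283) (C.ref (nat_lit 484) (nat_lit 153559091340576)) (C.cons (nat_lit 279)
  (C.ref (nat_lit 484) (nat_lit 153559074563376)) (C.cons (nat_lit 271) (C.ref (nat_lit 484) (nat_lit 153558806127936)) (C.cons (nat_lit 241) (C.ref (nat_lit 485) (nat_lit 205163983024656)) (C.cons (nat_lit 233) (C.ref (nat_lit 485) (nat_lit 205163982963216)) (C.cons (nat_lit 229) (C.ref (nat_lit 485) (nat_lit 205163982897936)) (C.cons (nat_lit 227) (C.ref (nat_lit 485) (nat_lit 205163982832416)) (C.cons (nat_lit 217) (C.ref (nat_lit 485) (nat_lit 205163981918736)) (C.cons (nat_lit 213) (C.ref (nat_lit 485) (nat_lit 205163981853456)) (C.cons (nat_lit 211) (C.ref (nat_lit 485) (nat_lit 205163981787936)) (C.cons (nat_lit 205) (C.ref (nat_lit 485) (nat_lit 205163980805136)) (C.cons (nat_lit 203) (C.ref (nat_lit 485) (nat_lit 205163980739616)) (C.cons (nat_lit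 199) (C.ref (nat_lit 485) (nat_lit 205163979691056)) (C.cons (nat_lit 185) (C.ref (nat_lit 485) (nat_lit 205163965145616)) (C.cons (nat_lit 181) (C.ref (nat_lit 485) (nat_lit 205163965080336)) (C.cons (nat_lit 179) (C.ref (nat_lit 485) (nat_lit 205163965014816)) (C.cons (nat_lit 173) (C.ref (nat_lit 485) (nat_lit 205163964032016)) (C.cons (nat_lit 171) (C.ref (nat_lit 485) (nat_lit 205163963966496)) (C.cons (nat_lit 167) (C.ref (nat_lit 485) (nat_lit 205163962917936)) (C.cons (nat_lit 157) (C.ref (nat_lit 485) (nat_lit 205163947255056)) (C.cons (nat_lit 155) (C.ref (nat_lit 485) (nat_lit 205163947189536)) (C.cons (nat_lit 151) (C.ref (nat_lit 485) (nat_lit 205163946140976)) (C.cons (nat_lit 143) (C.ref (nat_lit 485) (nat_lit 205163929363776)) (C.cons (nat_lit 121) (C.ref (nat_lit 485) (nat_lit 205163696714256)) (C.cons (nat_lit 117) (C.ref (nat_lit 485) (nat_lit 205163696648976)) (C.cons (nat_lit 115) (C.ref (nat_lit 485) (nat_lit 205163696583456))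 (C.cons (nat_lit 109) (C.ref (nat_lit 485) (nat_lit 205163695600656)) (C.cons (nat_lit 107) (C.ref (nat_lit 485) (nat_lit 205163695535136)) (C.cons (nat_lit 103) (C.ref (nat_lit 485) (nat_lit 205163694486576)) (C.cons (nat_lit 93) (C.ref (nat_lit 485) (nat_lit 205163678823696)) (C.cons (nat_lit 91) (C.ref (nat_lit 485) (nat_lit 205163678758176)) (C.cons (nat_lit 87) (C.ref (nat_lit 485) (nat_lit 205163677709616)) (C.cons (nat_lit 79) (C.ref (nat_lit 485) (nat_lit 205163660932416)) (C.cons (nat_lit 61) (C.ref (nat_lit 485) (nat_lit 205163410388496)) (C.cons (nat_lit 59) (C.ref (nat_lit 485) (nat_lit 205163410322976)) (C.cons (nat_lit 55) (C.ref (nat_lit 485) (nat_lit 205163409274416)) (C.cons (nat_lit 47) (C.ref (nat_lit 485) (nat_lit 205163392497216)) (C.cons (nat_lit 31) (C.ref (nat_lit 485) (nat_lit 205163124061776)) C.nil)))))))))))))))))))))))))))))))))))))))))))))))))))))))))))))))))))))))))))))))))))))))))))))))))))))))))))))))))))))))))))))))))))))))))))))))))))))))))))))))))))))))))))))))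 C.nil) List.nil)))))))

theorem ok12_480 : okL par12 (nat_lit 487) c12_480 (nat_lit 480) = true := by decide +kernel

noncomputable def c12_487 : List C :=
  (List.cons (C.big (C.cons (nat_lit 3969) (C.ref (nat_lit 231) (nat_lit 205163983024656)) (C.cons (nat_lit 3905) (C.ref (nat_lit 231) (nat_lit 205163731366416)) (C.cons (nat_lit 3873) (C.ref (nat_lit 231) (nat_lit 205163463979536)) (C.cons (nat_lit 3857) (C.ref (nat_lit 231) (nat_lit 205163195609616)) (C.cons (nat_lit 3849) (C.ref (nat_lit 231) (nat_lit 205162927178256)) (C.cons (nat_lit 3845) (C.ref (nat_lit 231) (nat_lit 205162658743056)) (C.cons (nat_lit 3843) (C.ref (nat_lit 231) (nat_lit 205162390307616)) (C.cons (nat_lit 3777) (C.ref (nat_lit 231) (nat_lit 205159453176336)) (C.cons (nat_lit 3745) (C.ref (nat_lit 231) (nat_lit 205159185789456)) (C.cons (nat_lit 3729) (C.ref (nat_lit 231) (nat_lit 205158917419536)) (C.cons (nat_lit 3721) (C.ref (nat_lit 231) (nat_lit 205158648988176))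 (C.cons (nat_lit 3717) (C.ref (nat_lit 231) (nat_lit 205158380552976)) (C.cons (nat_lit 3715) (C.ref (nat_lit 231) (nat_lit 205158112117536)) (C.cons (nat_lit 3681) (C.ref (nat_lit 231) (nat_lit 205154891870736)) (C.cons (nat_lit 3665) (C.ref (nat_lit 231) (nat_lit 205154623500816)) (C.cons (nat_lit 3657) (C.ref (nat_lit 231) (nat_lit 205154355069456)) (C.cons (nat_lit 3653) (C.ref (nat_lit 231) (nat_lit 205154086634256)) (C.cons (nat_lit 3651) (C.ref (nat_lit 231) (nat_lit 205153818198816)) (C.cons (nat_lit 3633) (C.ref (nat_lit 231) (nat_lit 205150328599056)) (C.cons (nat_lit 3625) (C.ref (nat_lit 231) (nat_lit 205150060167696)) (C.cons (nat_lit 3621) (C.ref (nat_lit 231) (nat_lit 205149791732496)) (C.cons (nat_lit 3619) (C.ref (nat_lit 231) (nat_lit 205149523297056)) (C.cons (nat_lit 3609) (C.ref (nat_lit 231) (nat_lit 205145765204496)) (C.cons (nat_lit 3605) (C.ref (nat_lit 231) (nat_lit 205145496769296)) (C.cons (nat_lit 3603)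 (C.ref (nat_lit 231) (nat_lit 205145228333856)) (C.cons (nat_lit 3597) (C.ref (nat_lit 231) (nat_lit 205141201802256)) (C.cons (nat_lit 3595) (C.ref (nat_lit 231) (nat_lit 205140933366816)) (C.cons (nat_lit 3591) (C.ref (nat_lit 231) (nat_lit 205136638399536)) (C.cons (nat_lit 3521) (C.ref (nat_lit 231) (nat_lit 205090750476816)) (C.cons (nat_lit 3489) (C.ref (nat_lit 231) (nat_lit 205090483089936)) (C.cons (nat_lit 3473) (C.ref (nat_lit 231) (nat_lit 205090214720016)) (C.cons (nat_lit 3465) (C.ref (nat_lit 231) (nat_lit 205089946288656)) (C.cons (nat_lit 3461) (C.ref (nat_lit 231) (nat_lit 205089677853456)) (C.cons (nat_lit 3459) (C.ref (nat_lit 231) (nat_lit 205089409418016)) (C.cons (nat_lit 3425) (C.ref (nat_lit 231) (nat_lit 205086189171216)) (C.cons (nat_lit 3409) (C.ref (nat_lit 231) (nat_lit 205085920801296)) (C.cons (nat_lit 3401) (C.ref (nat_lit 231) (nat_lit 205085652369936)) (C.cons (nat_lit 3397) (C.ref (nat_lit 231) (nat_lit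 205085383934736)) (C.cons (nat_lit 3395) (C.ref (nat_lit 231) (nat_lit 205085115499296)) (C.cons (nat_lit 3377) (C.ref (nat_lit 231) (nat_lit 205081625899536)) (C.cons (nat_lit 3369) (C.ref (nat_lit 231) (nat_lit 205081357468176)) (C.cons (nat_lit 3365) (C.ref (nat_lit 231) (nat_lit 205081089032976)) (C.cons (nat_lit 3363) (C.ref (nat_lit 231) (nat_lit 205080820597536)) (C.cons (nat_lit 3353) (C.ref (nat_lit 231) (nat_lit 205077062504976)) (C.cons (nat_lit 3349) (C.ref (nat_lit 231) (nat_lit 205076794069776)) (C.cons (nat_lit 3347) (C.ref (nat_lit 231) (nat_lit 205076525634336)) (C.cons (nat_lit 3341) (C.ref (nat_lit 231) (nat_lit 205072499102736)) (C.cons (nat_lit 3339) (C.ref (nat_lit 231) (nat_lit 205072230667296)) (C.cons (nat_lit 3335) (C.ref (nat_lit 231) (nat_lit 205067935700016)) (C.cons (nat_lit 3297) (C.ref (nat_lit 231) (nat_lit 205017470743056)) (C.cons (nat_lit 3281) (C.ref (nat_lit 231) (nat_lit 205017202373136)) (C.cons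 (nat_lit 3273) (C.ref (nat_lit 231) (nat_lit 205016933941776)) (C.cons (nat_lit 3269) (C.ref (nat_lit 231) (nat_lit 205016665506576)) (C.cons (nat_lit 3267) (C.ref (nat_lit 231) (nat_lit 205016397071136)) (C.cons (nat_lit 3249) (C.ref (nat_lit 231) (nat_lit 205012907471376)) (C.cons (nat_lit 3241) (C.ref (nat_lit 231) (nat_lit 205012639040016))
  (C.cons (nat_lit 3237) (C.ref (nat_lit 231) (nat_lit 205012370604816)) (C.cons (nat_lit 3235) (C.ref (nat_lit 231) (nat_lit 205012102169376)) (C.cons (nat_lit 3225) (C.ref (nat_lit 231) (nat_lit 205008344076816)) (C.cons (nat_lit 3221) (C.ref (nat_lit 231) (nat_lit 205008075641616)) (C.cons (nat_lit 3219) (C.ref (nat_lit 231) (nat_lit 205007807206176)) (C.cons (nat_lit 3213) (C.ref (nat_lit 231) (nat_lit 205003780674576)) (C.cons (nat_lit 3211) (C.ref (nat_lit 231) (nat_lit 205003512239136)) (C.cons (nat_lit 3207) (C.ref (nat_lit 231) (nat_lit 204999217271856)) (C.cons (nat_lit 3185) (C.ref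 (nat_lit 231) (nat_lit 204944188060176)) (C.cons (nat_lit 3177) (C.ref (nat_lit 231) (nat_lit 204943919628816)) (C.cons (nat_lit 3173) (C.ref (nat_lit 231) (nat_lit 204943651193616)) (C.cons (nat_lit 3171) (C.ref (nat_lit 231) (nat_lit 204943382758176)) (C.cons (nat_lit 3161) (C.ref (nat_lit 231) (nat_lit 204939624665616)) (C.cons (nat_lit 3157) (C.ref (nat_lit 231) (nat_lit 204939356230416)) (C.cons (nat_lit 3155) (C.ref (nat_lit 231) (nat_lit 204939087794976)) (C.cons (nat_lit 3149) (C.ref (nat_lit 231) (nat_lit 204935061263376)) (C.cons (nat_lit 3147) (C.ref (nat_lit 231) (nat_lit 204934792827936)) (C.cons (nat_lit 3143) (C.ref (nat_lit 231) (nat_lit 204930497860656)) (C.cons (nat_lit 3129) (C.ref (nat_lit 231) (nat_lit 204870905192976)) (C.cons (nat_lit 3125) (C.ref (nat_lit 231) (nat_lit 204870636757776)) (C.cons (nat_lit 3123) (C.ref (nat_lit 231) (nat_lit 204870368322336)) (C.cons (nat_lit 3117) (C.ref (nat_lit 231) (nat_lit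 204866341790736)) (C.cons (nat_lit 3115) (C.ref (nat_lit 231) (nat_lit 204866073355296)) (C.cons (nat_lit 3111) (C.ref (nat_lit 231) (nat_lit 204861778388016)) (C.cons (nat_lit 3101) (C.ref (nat_lit 231) (nat_lit 204797622314256)) (C.cons (nat_lit 3099) (C.ref (nat_lit 231) (nat_lit 204797353878816)) (C.cons (nat_lit 3095) (C.ref (nat_lit 231) (nat_lit 204793058911536)) (C.cons (nat_lit 3087) (C.ref (nat_lit 231) (nat_lit 204724339434816)) (C.cons (nat_lit 3009) (C.ref (nat_lit 231) (nat_lit 203991255626256)) (C.cons (nat_lit 2977) (C.ref (nat_lit 231) (nat_lit 203990988239376)) (C.cons (nat_lit 2961) (C.ref (nat_lit 231) (nat_lit 203990719869456)) (C.cons (nat_lit 2953) (C.ref (nat_lit 231) (nat_lit 203990451438096)) (C.cons (nat_lit 2949) (C.ref (nat_lit 231) (nat_lit 203990183002896)) (C.cons (nat_lit 2947) (C.ref (nat_lit 231) (nat_lit 203989914567456)) (C.cons (nat_lit 2913) (C.ref (nat_lit 231) (nat_lit 203986694320656)) (C.cons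 (nat_lit 2897) (C.ref (nat_lit 231) (nat_lit 203986425950736)) (C.cons (nat_lit 2889) (C.ref (nat_lit 231) (nat_lit 203986157519376)) (C.cons (nat_lit 2885) (C.ref (nat_lit 231) (nat_lit 203985889084176)) (C.cons (nat_lit 2883) (C.ref (nat_lit 231) (nat_lit 203985620648736)) (C.cons (nat_lit 2865) (C.ref (nat_lit 231) (nat_lit 203982131048976)) (C.cons (nat_lit 2857) (C.ref (nat_lit 231) (nat_lit 203981862617616)) (C.cons (nat_lit 2853) (C.ref (nat_lit 231) (nat_lit 203981594182416)) (C.cons (nat_lit 2851) (C.ref (nat_lit 231) (nat_lit 203981325746976)) (C.cons (nat_lit 2841) (C.ref (nat_lit 231) (nat_lit 203977567654416)) (C.cons (nat_lit 2837) (C.ref (nat_lit 231) (nat_lit 203977299219216)) (C.cons (nat_lit 2835) (C.ref (nat_lit 231) (nat_lit 203977030783776)) (C.cons (nat_lit 2829) (C.ref (nat_lit 231) (nat_lit 203973004252176)) (C.cons (nat_lit 2827) (C.ref (nat_lit 231) (nat_lit 203972735816736)) (C.cons (nat_lit 2823) (C.ref (nat_lit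 231) (nat_lit 203968440849456)) (C.cons (nat_lit 2785) (C.ref (nat_lit 231) (nat_lit 203917975892496)) (C.cons (nat_lit 2769) (C.ref (nat_lit 231) (nat_lit 203917707522576)) (C.cons (nat_lit 2761) (C.ref (nat_lit 231) (nat_lit 203917439091216)) (C.cons (nat_lit 2757) (C.ref (nat_lit 231) (nat_lit 203917170656016)) (C.cons (nat_lit 2755) (C.ref (nat_lit 231) (nat_lit 203916902220576)) (C.cons (nat_lit 2737) (C.ref (nat_lit 231) (nat_lit 203913412620816)) (C.cons (nat_lit 2729) (C.ref (nat_lit 231) (nat_lit 203913144189456))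
  (C.cons (nat_lit 2725) (C.ref (nat_lit 231) (nat_lit 203912875754256)) (C.cons (nat_lit 2723) (C.ref (nat_lit 231) (nat_lit 203912607318816)) (C.cons (nat_lit 2713) (C.ref (nat_lit 231) (nat_lit 203908849226256)) (C.cons (nat_lit 2709) (C.ref (nat_lit 231) (nat_lit 203908580791056)) (C.cons (nat_lit 2707) (C.ref (nat_lit 231) (nat_lit 203908312355616)) (C.cons (nat_lit 2701) (C.ref (nat_lit 231) (nat_lit 203904285824016)) (C.cons (nat_lit 2699) (C.ref (nat_lit 231) (nat_lit 203904017388576)) (C.cons (nat_lit 2695) (C.ref (nat_lit 231) (nat_lit 203899722421296)) (C.cons (nat_lit 2673) (C.ref (nat_lit 231) (nat_lit 203844693209616)) (C.cons (nat_lit 2665) (C.ref (nat_lit 231) (nat_lit 203844424778256)) (C.cons (nat_lit 2661) (C.ref (nat_lit 231) (nat_lit 203844156343056)) (C.cons (nat_lit 2659) (C.ref (nat_lit 231) (nat_lit 203843887907616)) (C.cons (nat_lit 2649) (C.ref (nat_lit 231) (nat_lit 203840129815056)) (C.cons (nat_lit 2645)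 (C.ref (nat_lit 231) (nat_lit 203839861379856)) (C.cons (nat_lit 2643) (C.ref (nat_lit 231) (nat_lit 203839592944416)) (C.cons (nat_lit 2637) (C.ref (nat_lit 231) (nat_lit 203835566412816)) (C.cons (nat_lit 2635) (C.ref (nat_lit 231) (nat_lit 203835297977376)) (C.cons (nat_lit 2631) (C.ref (nat_lit 231) (nat_lit 203831003010096)) (C.cons (nat_lit 2617) (C.ref (nat_lit 231) (nat_lit 203771410342416)) (C.cons (nat_lit 2613) (C.ref (nat_lit 231) (nat_lit 203771141907216)) (C.cons (nat_lit 2611) (C.ref (nat_lit 231) (nat_lit 203770873471776)) (C.cons (nat_lit 2605) (C.ref (nat_lit 231) (nat_lit 203766846940176)) (C.cons (nat_lit 2603) (C.ref (nat_lit 231) (nat_lit 203766578504736)) (C.cons (nat_lit 2599) (C.ref (nat_lit 231) (nat_lit 203762283537456)) (C.cons (nat_lit 2589) (C.ref (nat_lit 231) (nat_lit 203698127463696)) (C.cons (nat_lit 2587) (C.ref (nat_lit 231) (nat_lit 203697859028256)) (C.cons (nat_lit 2583) (C.ref (nat_lit 231) (nat_lit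 203693564060976)) (C.cons (nat_lit 2575) (C.ref (nat_lit 231) (nat_lit 203624844584256)) (C.cons (nat_lit 2529) (C.ref (nat_lit 231) (nat_lit 202818465313296)) (C.cons (nat_lit 2513) (C.ref (nat_lit 231) (nat_lit 202818196943376)) (C.cons (nat_lit 2505) (C.ref (nat_lit 231) (nat_lit 202817928512016)) (C.cons (nat_lit 2501) (C.ref (nat_lit 231) (nat_lit 202817660076816)) (C.cons (nat_lit 2499) (C.ref (nat_lit 231) (nat_lit 202817391641376)) (C.cons (nat_lit 2481) (C.ref (nat_lit 231) (nat_lit 202813902041616)) (C.cons (nat_lit 2473) (C.ref (nat_lit 231) (nat_lit 202813633610256)) (C.cons (nat_lit 2469) (C.ref (nat_lit 231) (nat_lit 202813365175056)) (C.cons (nat_lit 2467) (C.ref (nat_lit 231) (nat_lit 202813096739616)) (C.cons (nat_lit 2457) (C.ref (nat_lit 231) (nat_lit 202809338647056)) (C.cons (nat_lit 2453) (C.ref (nat_lit 231) (nat_lit 202809070211856)) (C.cons (nat_lit 2451) (C.ref (nat_lit 231) (nat_lit 202808801776416)) (C.cons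 (nat_lit 2445) (C.ref (nat_lit 231) (nat_lit 202804775244816)) (C.cons (nat_lit 2443) (C.ref (nat_lit 231) (nat_lit 202804506809376)) (C.cons (nat_lit 2439) (C.ref (nat_lit 231) (nat_lit 202800211842096)) (C.cons (nat_lit 2417) (C.ref (nat_lit 231) (nat_lit 202745182630416)) (C.cons (nat_lit 2409) (C.ref (nat_lit 231) (nat_lit 202744914199056)) (C.cons (nat_lit 2405) (C.ref (nat_lit 231) (nat_lit 202744645763856)) (C.cons (nat_lit 2403) (C.ref (nat_lit 231) (nat_lit 202744377328416)) (C.cons (nat_lit 2393) (C.ref (nat_lit 231) (nat_lit 202740619235856)) (C.cons (nat_lit 2389) (C.ref (nat_lit 231) (nat_lit 202740350800656)) (C.cons (nat_lit 2387) (C.ref (nat_lit 231) (nat_lit 202740082365216)) (C.cons (nat_lit 2381) (C.ref (nat_lit 231) (nat_lit 202736055833616)) (C.cons (nat_lit 2379) (C.ref (nat_lit 231) (nat_lit 202735787398176)) (C.cons (nat_lit 2375) (C.ref (nat_lit 231) (nat_lit 202731492430896)) (C.cons (nat_lit 2361) (C.ref (nat_lit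 231) (nat_lit 202671899763216)) (C.cons (nat_lit 2357) (C.ref (nat_lit 231) (nat_lit 202671631328016)) (C.cons (nat_lit 2355) (C.ref (nat_lit 231) (nat_lit 202671362892576))
  (C.cons (nat_lit 2349) (C.ref (nat_lit 231) (nat_lit 202667336360976)) (C.cons (nat_lit 2347) (C.ref (nat_lit 231) (nat_lit 202667067925536)) (C.cons (nat_lit 2343) (C.ref (nat_lit 231) (nat_lit 202662772958256)) (C.cons (nat_lit 2333) (C.ref (nat_lit 231) (nat_lit 202598616884496)) (C.cons (nat_lit 2331) (C.ref (nat_lit 231) (nat_lit 202598348449056)) (C.cons (nat_lit 2327) (C.ref (nat_lit 231) (nat_lit 202594053481776)) (C.cons (nat_lit 2319) (C.ref (nat_lit 231) (nat_lit 202525334005056)) (C.cons (nat_lit 2289) (C.ref (nat_lit 231) (nat_lit 201645671068176)) (C.cons (nat_lit 2281) (C.ref (nat_lit 231) (nat_lit 201645402636816)) (C.cons (nat_lit 2277) (C.ref (nat_lit 231) (nat_lit 201645134201616)) (C.cons (nat_lit 2275) (C.ref (nat_lit 231) (nat_lit 201644865766176))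 (C.cons (nat_lit 2265) (C.ref (nat_lit 231) (nat_lit 201641107673616)) (C.cons (nat_lit 2261) (C.ref (nat_lit 231) (nat_lit 201640839238416)) (C.cons (nat_lit 2259) (C.ref (nat_lit 231) (nat_lit 201640570802976)) (C.cons (nat_lit 2253) (C.ref (nat_lit 231) (nat_lit 201636544271376)) (C.cons (nat_lit 2251) (C.ref (nat_lit 231) (nat_lit 201636275835936)) (C.cons (nat_lit 2247) (C.ref (nat_lit 231) (nat_lit 201631980868656)) (C.cons (nat_lit 2233) (C.ref (nat_lit 231) (nat_lit 201572388200976)) (C.cons (nat_lit 2229) (C.ref (nat_lit 231) (nat_lit 201572119765776)) (C.cons (nat_lit 2227) (C.ref (nat_lit 231) (nat_lit 201571851330336)) (C.cons (nat_lit 2221) (C.ref (nat_lit 231) (nat_lit 201567824798736)) (C.cons (nat_lit 2219) (C.ref (nat_lit 231) (nat_lit 201567556363296)) (C.cons (nat_lit 2215) (C.ref (nat_lit 231) (nat_lit 201563261396016)) (C.cons (nat_lit 2205) (C.ref (nat_lit 231) (nat_lit 201499105322256)) (C.cons (nat_lit 2203)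 (C.ref (nat_lit 231) (nat_lit 201498836886816)) (C.cons (nat_lit 2199) (C.ref (nat_lit 231) (nat_lit 201494541919536)) (C.cons (nat_lit 2191) (C.ref (nat_lit 231) (nat_lit 201425822442816)) (C.cons (nat_lit 2169) (C.ref (nat_lit 231) (nat_lit 200472876577296)) (C.cons (nat_lit 2165) (C.ref (nat_lit 231) (nat_lit 200472608142096)) (C.cons (nat_lit 2163) (C.ref (nat_lit 231) (nat_lit 200472339706656)) (C.cons (nat_lit 2157) (C.ref (nat_lit 231) (nat_lit 200468313175056)) (C.cons (nat_lit 2155) (C.ref (nat_lit 231) (nat_lit 200468044739616)) (C.cons (nat_lit 2151) (C.ref (nat_lit 231) (nat_lit 200463749772336)) (C.cons (nat_lit 2141) (C.ref (nat_lit 231) (nat_lit 200399593698576)) (C.cons (nat_lit 2139) (C.ref (nat_lit 231) (nat_lit 200399325263136)) (C.cons (nat_lit 2135) (C.ref (nat_lit 231) (nat_lit 200395030295856)) (C.cons (nat_lit 2127) (C.ref (nat_lit 231) (nat_lit 200326310819136)) (C.cons (nat_lit 2109) (C.ref (nat_lit 231) (nat_lit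 199300082071056)) (C.cons (nat_lit 2107) (C.ref (nat_lit 231) (nat_lit 199299813635616)) (C.cons (nat_lit 2103) (C.ref (nat_lit 231) (nat_lit 199295518668336)) (C.cons (nat_lit 2095) (C.ref (nat_lit 231) (nat_lit 199226799191616)) (C.cons (nat_lit 2079) (C.ref (nat_lit 231) (nat_lit 198127287563856)) (C.cons (nat_lit 1985) (C.ref (nat_lit 231) (nat_lit 186399086359056)) (C.cons (nat_lit 1953) (C.ref (nat_lit 231) (nat_lit 186398818972176)) (C.cons (nat_lit 1937) (C.ref (nat_lit 231) (nat_lit 186398550602256)) (C.cons (nat_lit 1929) (C.ref (nat_lit 231) (nat_lit 186398282170896)) (C.cons (nat_lit 1925) (C.ref (nat_lit 231) (nat_lit 186398013735696)) (C.cons (nat_lit 1923) (C.ref (nat_lit 231) (nat_lit 186397745300256)) (C.cons (nat_lit 1889) (C.ref (nat_lit 231) (nat_lit 186394525053456)) (C.cons (nat_lit 1873) (C.ref (nat_lit 231) (nat_lit 186394256683536)) (C.cons (nat_lit 1865) (C.ref (nat_lit 231) (nat_lit 186393988252176)) (C.cons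 (nat_lit 1861) (C.ref (nat_lit 231) (nat_lit 186393719816976)) (C.cons (nat_lit 1859) (C.ref (nat_lit 231) (nat_lit 186393451381536)) (C.cons (nat_lit 1841) (C.ref (nat_lit 231) (nat_lit 186389961781776)) (C.cons (nat_lit 1833) (C.ref (nat_lit 231) (nat_lit 186389693350416)) (C.cons (nat_lit 1829) (C.ref (nat_lit 231) (nat_lit 186389424915216))
  (C.cons (nat_lit 1827) (C.ref (nat_lit 231) (nat_lit 186389156479776)) (C.cons (nat_lit 1817) (C.ref (nat_lit 231) (nat_lit 186385398387216)) (C.cons (nat_lit 1813) (C.ref (nat_lit 231) (nat_lit 186385129952016)) (C.cons (nat_lit 1811) (C.ref (nat_lit 231) (nat_lit 186384861516576)) (C.cons (nat_lit 1805) (C.ref (nat_lit 231) (nat_lit 186380834984976)) (C.cons (nat_lit 1803) (C.ref (nat_lit 231) (nat_lit 186380566549536)) (C.cons (nat_lit 1799) (C.ref (nat_lit 231) (nat_lit 186376271582256)) (C.cons (nat_lit 1761) (C.ref (nat_lit 231) (nat_lit 186325806625296)) (C.cons (nat_lit 1745) (C.ref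 (nat_lit 231) (nat_lit 186325538255376)) (C.cons (nat_lit 1737) (C.ref (nat_lit 231) (nat_lit 186325269824016)) (C.cons (nat_lit 1733) (C.ref (nat_lit 231) (nat_lit 186325001388816)) (C.cons (nat_lit 1731) (C.ref (nat_lit 231) (nat_lit 186324732953376)) (C.cons (nat_lit 1713) (C.ref (nat_lit 231) (nat_lit 186321243353616)) (C.cons (nat_lit 1705) (C.ref (nat_lit 231) (nat_lit 186320974922256)) (C.cons (nat_lit 1701) (C.ref (nat_lit 231) (nat_lit 186320706487056)) (C.cons (nat_lit 1699) (C.ref (nat_lit 231) (nat_lit 186320438051616)) (C.cons (nat_lit 1689) (C.ref (nat_lit 231) (nat_lit 186316679959056)) (C.cons (nat_lit 1685) (C.ref (nat_lit 231) (nat_lit 186316411523856)) (C.cons (nat_lit 1683) (C.ref (nat_lit 231) (nat_lit 186316143088416)) (C.cons (nat_lit 1677) (C.ref (nat_lit 231) (nat_lit 186312116556816)) (C.cons (nat_lit 1675) (C.ref (nat_lit 231) (nat_lit 186311848121376)) (C.cons (nat_lit 1671) (C.ref (nat_lit 231) (nat_lit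 186307553154096)) (C.cons (nat_lit 1649) (C.ref (nat_lit 231) (nat_lit 186252523942416)) (C.cons (nat_lit 1641) (C.ref (nat_lit 231) (nat_lit 186252255511056)) (C.cons (nat_lit 1637) (C.ref (nat_lit 231) (nat_lit 186251987075856)) (C.cons (nat_lit 1635) (C.ref (nat_lit 231) (nat_lit 186251718640416)) (C.cons (nat_lit 1625) (C.ref (nat_lit 231) (nat_lit 186247960547856)) (C.cons (nat_lit 1621) (C.ref (nat_lit 231) (nat_lit 186247692112656)) (C.cons (nat_lit 1619) (C.ref (nat_lit 231) (nat_lit 186247423677216)) (C.cons (nat_lit 1613) (C.ref (nat_lit 231) (nat_lit 186243397145616)) (C.cons (nat_lit 1611) (C.ref (nat_lit 231) (nat_lit 186243128710176)) (C.cons (nat_lit 1607) (C.ref (nat_lit 231) (nat_lit 186238833742896)) (C.cons (nat_lit 1593) (C.ref (nat_lit 231) (nat_lit 186179241075216)) (C.cons (nat_lit 1589) (C.ref (nat_lit 231) (nat_lit 186178972640016)) (C.cons (nat_lit 1587) (C.ref (nat_lit 231) (nat_lit 186178704204576)) (C.cons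 (nat_lit 1581) (C.ref (nat_lit 231) (nat_lit 186174677672976)) (C.cons (nat_lit 1579) (C.ref (nat_lit 231) (nat_lit 186174409237536)) (C.cons (nat_lit 1575) (C.ref (nat_lit 231) (nat_lit 186170114270256)) (C.cons (nat_lit 1565) (C.ref (nat_lit 231) (nat_lit 186105958196496)) (C.cons (nat_lit 1563) (C.ref (nat_lit 231) (nat_lit 186105689761056)) (C.cons (nat_lit 1559) (C.ref (nat_lit 231) (nat_lit 186101394793776)) (C.cons (nat_lit 1551) (C.ref (nat_lit 231) (nat_lit 186032675317056)) (C.cons (nat_lit 1505) (C.ref (nat_lit 231) (nat_lit 185226296046096)) (C.cons (nat_lit 1489) (C.ref (nat_lit 231) (nat_lit 185226027676176)) (C.cons (nat_lit 1481) (C.ref (nat_lit 231) (nat_lit 185225759244816)) (C.cons (nat_lit 1477) (C.ref (nat_lit 231) (nat_lit 185225490809616)) (C.cons (nat_lit 1475) (C.ref (nat_lit 231) (nat_lit 185225222374176)) (C.cons (nat_lit 1457) (C.ref (nat_lit 231) (nat_lit 185221732774416)) (C.cons (nat_lit 1449) (C.ref (nat_lit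 231) (nat_lit 185221464343056)) (C.cons (nat_lit 1445) (C.ref (nat_lit 231) (nat_lit 185221195907856)) (C.cons (nat_lit 1443) (C.ref (nat_lit 231) (nat_lit 185220927472416)) (C.cons (nat_lit 1433) (C.ref (nat_lit 231) (nat_lit 185217169379856)) (C.cons (nat_lit 1429) (C.ref (nat_lit 231) (nat_lit 185216900944656)) (C.cons (nat_lit 1427) (C.ref (nat_lit 231) (nat_lit 185216632509216)) (C.cons (nat_lit 1421) (C.ref (nat_lit 231) (nat_lit 185212605977616)) (C.cons (nat_lit 1419) (C.ref (nat_lit 231) (nat_lit 185212337542176))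
  (C.cons (nat_lit 1415) (C.ref (nat_lit 231) (nat_lit 185208042574896)) (C.cons (nat_lit 1393) (C.ref (nat_lit 231) (nat_lit 185153013363216)) (C.cons (nat_lit 1385) (C.ref (nat_lit 231) (nat_lit 185152744931856)) (C.cons (nat_lit 1381) (C.ref (nat_lit 231) (nat_lit 185152476496656)) (C.cons (nat_lit 1379) (C.ref (nat_lit 231) (nat_lit 185152208061216)) (C.cons (nat_lit 1369) (C.ref (nat_lit 231) (nat_lit 185148449968656)) (C.cons (nat_lit 1365) (C.ref (nat_lit 231) (nat_lit 185148181533456)) (C.cons (nat_lit 1363) (C.ref (nat_lit 231) (nat_lit 185147913098016)) (C.cons (nat_lit 1357) (C.ref (nat_lit 231) (nat_lit 185143886566416)) (C.cons (nat_lit 1355) (C.ref (nat_lit 231) (nat_lit 185143618130976)) (C.cons (nat_lit 1351) (C.ref (nat_lit 231) (nat_lit 185139323163696)) (C.cons (nat_lit 1337) (C.ref (nat_lit 231) (nat_lit 185079730496016)) (C.cons (nat_lit 1333) (C.ref (nat_lit 231) (nat_lit 185079462060816)) (C.cons (nat_lit 1331)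 (C.ref (nat_lit 231) (nat_lit 185079193625376)) (C.cons (nat_lit 1325) (C.ref (nat_lit 231) (nat_lit 185075167093776)) (C.cons (nat_lit 1323) (C.ref (nat_lit 231) (nat_lit 185074898658336)) (C.cons (nat_lit 1319) (C.ref (nat_lit 231) (nat_lit 185070603691056)) (C.cons (nat_lit 1309) (C.ref (nat_lit 231) (nat_lit 185006447617296)) (C.cons (nat_lit 1307) (C.ref (nat_lit 231) (nat_lit 185006179181856)) (C.cons (nat_lit 1303) (C.ref (nat_lit 231) (nat_lit 185001884214576)) (C.cons (nat_lit 1295) (C.ref (nat_lit 231) (nat_lit 184933164737856)) (C.cons (nat_lit 1265) (C.ref (nat_lit 231) (nat_lit 184053501800976)) (C.cons (nat_lit 1257) (C.ref (nat_lit 231) (nat_lit 184053233369616)) (C.cons (nat_lit 1253) (C.ref (nat_lit 231) (nat_lit 184052964934416)) (C.cons (nat_lit 1251) (C.ref (nat_lit 231) (nat_lit 184052696498976)) (C.cons (nat_lit 1241) (C.ref (nat_lit 231) (nat_lit 184048938406416)) (C.cons (nat_lit 1237) (C.ref (nat_lit 231) (nat_lit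 184048669971216)) (C.cons (nat_lit 1235) (C.ref (nat_lit 231) (nat_lit 184048401535776)) (C.cons (nat_lit 1229) (C.ref (nat_lit 231) (nat_lit 184044375004176)) (C.cons (nat_lit 1227) (C.ref (nat_lit 231) (nat_lit 184044106568736)) (C.cons (nat_lit 1223) (C.ref (nat_lit 231) (nat_lit 184039811601456)) (C.cons (nat_lit 1209) (C.ref (nat_lit 231) (nat_lit 183980218933776)) (C.cons (nat_lit 1205) (C.ref (nat_lit 231) (nat_lit 183979950498576)) (C.cons (nat_lit 1203) (C.ref (nat_lit 231) (nat_lit 183979682063136)) (C.cons (nat_lit 1197) (C.ref (nat_lit 231) (nat_lit 183975655531536)) (C.cons (nat_lit 1195) (C.ref (nat_lit 231) (nat_lit 183975387096096)) (C.cons (nat_lit 1191) (C.ref (nat_lit 231) (nat_lit 183971092128816)) (C.cons (nat_lit 1181) (C.ref (nat_lit 231) (nat_lit 183906936055056)) (C.cons (nat_lit 1179) (C.ref (nat_lit 231) (nat_lit 183906667619616)) (C.cons (nat_lit 1175) (C.ref (nat_lit 231) (nat_lit 183902372652336)) (C.cons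 (nat_lit 1167) (C.ref (nat_lit 231) (nat_lit 183833653175616)) (C.cons (nat_lit 1145) (C.ref (nat_lit 231) (nat_lit 182880707310096)) (C.cons (nat_lit 1141) (C.ref (nat_lit 231) (nat_lit 182880438874896)) (C.cons (nat_lit 1139) (C.ref (nat_lit 231) (nat_lit 182880170439456)) (C.cons (nat_lit 1133) (C.ref (nat_lit 231) (nat_lit 182876143907856)) (C.cons (nat_lit 1131) (C.ref (nat_lit 231) (nat_lit 182875875472416)) (C.cons (nat_lit 1127) (C.ref (nat_lit 231) (nat_lit 182871580505136)) (C.cons (nat_lit 1117) (C.ref (nat_lit 231) (nat_lit 182807424431376)) (C.cons (nat_lit 1115) (C.ref (nat_lit 231) (nat_lit 182807155995936)) (C.cons (nat_lit 1111) (C.ref (nat_lit 231) (nat_lit 182802861028656)) (C.cons (nat_lit 1103) (C.ref (nat_lit 231) (nat_lit 182734141551936)) (C.cons (nat_lit 1085) (C.ref (nat_lit 231) (nat_lit 181707912803856)) (C.cons (nat_lit 1083) (C.ref (nat_lit 231) (nat_lit 181707644368416)) (C.cons (nat_lit 1079) (C.ref (nat_lit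 231) (nat_lit 181703349401136)) (C.cons (nat_lit 1071) (C.ref (nat_lit 231) (nat_lit 181634629924416)) (C.cons (nat_lit 1055) (C.ref (nat_lit 231) (nat_lit 180535118296656))
  (C.cons (nat_lit 993) (C.ref (nat_lit 231) (nat_lit 167634111050256)) (C.cons (nat_lit 977) (C.ref (nat_lit 231) (nat_lit 167633842680336)) (C.cons (nat_lit 969) (C.ref (nat_lit 231) (nat_lit 167633574248976)) (C.cons (nat_lit 965) (C.ref (nat_lit 231) (nat_lit 167633305813776)) (C.cons (nat_lit 963) (C.ref (nat_lit 231) (nat_lit 167633037378336)) (C.cons (nat_lit 945) (C.ref (nat_lit 231) (nat_lit 167629547778576)) (C.cons (nat_lit 937) (C.ref (nat_lit 231) (nat_lit 167629279347216)) (C.cons (nat_lit 933) (C.ref (nat_lit 231) (nat_lit 167629010912016)) (C.cons (nat_lit 931) (C.ref (nat_lit 231) (nat_lit 167628742476576)) (C.cons (nat_lit 921) (C.ref (nat_lit 231) (nat_lit 167624984384016)) (C.cons (nat_lit 917) (C.ref (nat_lit 231) (nat_lit 167624715948816))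 (C.cons (nat_lit 915) (C.ref (nat_lit 231) (nat_lit 167624447513376)) (C.cons (nat_lit 909) (C.ref (nat_lit 231) (nat_lit 167620420981776)) (C.cons (nat_lit 907) (C.ref (nat_lit 231) (nat_lit 167620152546336)) (C.cons (nat_lit 903) (C.ref (nat_lit 231) (nat_lit 167615857579056)) (C.cons (nat_lit 881) (C.ref (nat_lit 231) (nat_lit 167560828367376)) (C.cons (nat_lit 873) (C.ref (nat_lit 231) (nat_lit 167560559936016)) (C.cons (nat_lit 869) (C.ref (nat_lit 231) (nat_lit 167560291500816)) (C.cons (nat_lit 867) (C.ref (nat_lit 231) (nat_lit 167560023065376)) (C.cons (nat_lit 857) (C.ref (nat_lit 231) (nat_lit 167556264972816)) (C.cons (nat_lit 853) (C.ref (nat_lit 231) (nat_lit 167555996537616)) (C.cons (nat_lit 851) (C.ref (nat_lit 231) (nat_lit 167555728102176)) (C.cons (nat_lit 845) (C.ref (nat_lit 231) (nat_lit 167551701570576)) (C.cons (nat_lit 843) (C.ref (nat_lit 231) (nat_lit 167551433135136)) (C.cons (nat_lit 839) (C.ref (nat_lit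 231) (nat_lit 167547138167856)) (C.cons (nat_lit 825) (C.ref (nat_lit 231) (nat_lit 167487545500176)) (C.cons (nat_lit 821) (C.ref (nat_lit 231) (nat_lit 167487277064976)) (C.cons (nat_lit 819) (C.ref (nat_lit 231) (nat_lit 167487008629536)) (C.cons (nat_lit 813) (C.ref (nat_lit 231) (nat_lit 167482982097936)) (C.cons (nat_lit 811) (C.ref (nat_lit 231) (nat_lit 167482713662496)) (C.cons (nat_lit 807) (C.ref (nat_lit 231) (nat_lit 167478418695216)) (C.cons (nat_lit 797) (C.ref (nat_lit 231) (nat_lit 167414262621456)) (C.cons (nat_lit 795) (C.ref (nat_lit 231) (nat_lit 167413994186016)) (C.cons (nat_lit 791) (C.ref (nat_lit 231) (nat_lit 167409699218736)) (C.cons (nat_lit 783) (C.ref (nat_lit 231) (nat_lit 167340979742016)) (C.cons (nat_lit 753) (C.ref (nat_lit 231) (nat_lit 166461316805136)) (C.cons (nat_lit 745) (C.ref (nat_lit 231) (nat_lit 166461048373776)) (C.cons (nat_lit 741) (C.ref (nat_lit 231) (nat_lit 166460779938576)) (C.cons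 (nat_lit 739) (C.ref (nat_lit 231) (nat_lit 166460511503136)) (C.cons (nat_lit 729) (C.ref (nat_lit 231) (nat_lit 166456753410576)) (C.cons (nat_lit 725) (C.ref (nat_lit 231) (nat_lit 166456484975376)) (C.cons (nat_lit 723) (C.ref (nat_lit 231) (nat_lit 166456216539936)) (C.cons (nat_lit 717) (C.ref (nat_lit 231) (nat_lit 166452190008336)) (C.cons (nat_lit 715) (C.ref (nat_lit 231) (nat_lit 166451921572896)) (C.cons (nat_lit 711) (C.ref (nat_lit 231) (nat_lit 166447626605616)) (C.cons (nat_lit 697) (C.ref (nat_lit 231) (nat_lit 166388033937936)) (C.cons (nat_lit 693) (C.ref (nat_lit 231) (nat_lit 166387765502736)) (C.cons (nat_lit 691) (C.ref (nat_lit 231) (nat_lit 166387497067296)) (C.cons (nat_lit 685) (C.ref (nat_lit 231) (nat_lit 166383470535696)) (C.cons (nat_lit 683) (C.ref (nat_lit 231) (nat_lit 166383202100256)) (C.cons (nat_lit 679) (C.ref (nat_lit 231) (nat_lit 166378907132976)) (C.cons (nat_lit 669) (C.ref (nat_lit 231) (nat_lit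 166314751059216)) (C.cons (nat_lit 667) (C.ref (nat_lit 231) (nat_lit 166314482623776)) (C.cons (nat_lit 663) (C.ref (nat_lit 231) (nat_lit 166310187656496)) (C.cons (nat_lit 655) (C.ref (nat_lit 231) (nat_lit 166241468179776)) (C.cons (nat_lit 633) (C.ref (nat_lit 231) (nat_lit 165288522314256)) (C.cons (nat_lit 629) (C.ref (nat_lit 231) (nat_lit 165288253879056))
  (C.cons (nat_lit 627) (C.ref (nat_lit 231) (nat_lit 165287985443616)) (C.cons (nat_lit 621) (C.ref (nat_lit 231) (nat_lit 165283958912016)) (C.cons (nat_lit 619) (C.ref (nat_lit 231) (nat_lit 165283690476576)) (C.cons (nat_lit 615) (C.ref (nat_lit 231) (nat_lit 165279395509296)) (C.cons (nat_lit 605) (C.ref (nat_lit 231) (nat_lit 165215239435536)) (C.cons (nat_lit 603) (C.ref (nat_lit 231) (nat_lit 165214971000096)) (C.cons (nat_lit 599) (C.ref (nat_lit 231) (nat_lit 165210676032816)) (C.cons (nat_lit 591) (C.ref (nat_lit 231) (nat_lit 165141956556096)) (C.cons (nat_lit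 573) (C.ref (nat_lit 231) (nat_lit 164115727808016)) (C.cons (nat_lit 571) (C.ref (nat_lit 231) (nat_lit 164115459372576)) (C.cons (nat_lit 567) (C.ref (nat_lit 231) (nat_lit 164111164405296)) (C.cons (nat_lit 559) (C.ref (nat_lit 231) (nat_lit 164042444928576)) (C.cons (nat_lit 543) (C.ref (nat_lit 231) (nat_lit 162942933300816)) (C.cons (nat_lit 497) (C.ref (nat_lit 231) (nat_lit 148869130826256)) (C.cons (nat_lit 489) (C.ref (nat_lit 231) (nat_lit 148868862394896)) (C.cons (nat_lit 485) (C.ref (nat_lit 231) (nat_lit 148868593959696)) (C.cons (nat_lit 483) (C.ref (nat_lit 231) (nat_lit 148868325524256)) (C.cons (nat_lit 473) (C.ref (nat_lit 231) (nat_lit 148864567431696)) (C.cons (nat_lit 469) (C.ref (nat_lit 231) (nat_lit 148864298996496)) (C.cons (nat_lit 467) (C.ref (nat_lit 231) (nat_lit 148864030561056)) (C.cons (nat_lit 461) (C.ref (nat_lit 231) (nat_lit 148860004029456)) (C.cons (nat_lit 459) (C.ref (nat_lit 231) (nat_lit 148859735594016))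 (C.cons (nat_lit 455) (C.ref (nat_lit 231) (nat_lit 148855440626736)) (C.cons (nat_lit 441) (C.ref (nat_lit 231) (nat_lit 148795847959056)) (C.cons (nat_lit 437) (C.ref (nat_lit 231) (nat_lit 148795579523856)) (C.cons (nat_lit 435) (C.ref (nat_lit 231) (nat_lit 148795311088416)) (C.cons (nat_lit 429) (C.ref (nat_lit 231) (nat_lit 148791284556816)) (C.cons (nat_lit 427) (C.ref (nat_lit 231) (nat_lit 148791016121376)) (C.cons (nat_lit 423) (C.ref (nat_lit 231) (nat_lit 148786721154096)) (C.cons (nat_lit 413) (C.ref (nat_lit 231) (nat_lit 148722565080336)) (C.cons (nat_lit 411) (C.ref (nat_lit 231) (nat_lit 148722296644896)) (C.cons (nat_lit 407) (C.ref (nat_lit 231) (nat_lit 148718001677616)) (C.cons (nat_lit 399) (C.ref (nat_lit 231) (nat_lit 148649282200896)) (C.cons (nat_lit 377) (C.ref (nat_lit 231) (nat_lit 147696336335376)) (C.cons (nat_lit 373) (C.ref (nat_lit 231) (nat_lit 147696067900176)) (C.cons (nat_lit 371) (C.ref (nat_lit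 231) (nat_lit 147695799464736)) (C.cons (nat_lit 365) (C.ref (nat_lit 231) (nat_lit 147691772933136)) (C.cons (nat_lit 363) (C.ref (nat_lit 231) (nat_lit 147691504497696)) (C.cons (nat_lit 359) (C.ref (nat_lit 231) (nat_lit 147687209530416)) (C.cons (nat_lit 349) (C.ref (nat_lit 231) (nat_lit 147623053456656)) (C.cons (nat_lit 347) (C.ref (nat_lit 231) (nat_lit 147622785021216)) (C.cons (nat_lit 343) (C.ref (nat_lit 231) (nat_lit 147618490053936)) (C.cons (nat_lit 335) (C.ref (nat_lit 231) (nat_lit 147549770577216)) (C.cons (nat_lit 317) (C.ref (nat_lit 231) (nat_lit 146523541829136)) (C.cons (nat_lit 315) (C.ref (nat_lit 231) (nat_lit 146523273393696)) (C.cons (nat_lit 311) (C.ref (nat_lit 231) (nat_lit 146518978426416)) (C.cons (nat_lit 303) (C.ref (nat_lit 231) (nat_lit 146450258949696)) (C.cons (nat_lit 287) (C.ref (nat_lit 231) (nat_lit 145350747321936)) (C.cons (nat_lit 249) (C.ref (nat_lit 231) (nat_lit 130104150295056)) (C.cons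 (nat_lit 245) (C.ref (nat_lit 231) (nat_lit 130103881859856)) (C.cons (nat_lit 243) (C.ref (nat_lit 231) (nat_lit 130103613424416)) (C.cons (nat_lit 237) (C.ref (nat_lit 231) (nat_lit 130099586892816)) (C.cons (nat_lit 235) (C.ref (nat_lit 231) (nat_lit 130099318457376)) (C.cons (nat_lit 231) (C.ref (nat_lit 231) (nat_lit 130095023490096)) (C.cons (nat_lit 221) (C.ref (nat_lit 231) (nat_lit 130030867416336)) (C.cons (nat_lit 219) (C.ref (nat_lit 231) (nat_lit 130030598980896)) (C.cons (nat_lit 215) (C.ref (nat_lit 231) (nat_lit 130026304013616))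
  (C.cons (nat_lit 207) (C.ref (nat_lit 231) (nat_lit 129957584536896)) (C.cons (nat_lit 189) (C.ref (nat_lit 231) (nat_lit 128931355788816)) (C.cons (nat_lit 187) (C.ref (nat_lit 231) (nat_lit 128931087353376)) (C.cons (nat_lit 183) (C.ref (nat_lit 231) (nat_lit 128926792386096)) (C.cons (nat_lit 175) (C.ref (nat_lit 231) (nat_lit 128858072909376)) (C.cons (nat_lit 159) (C.ref (nat_lit 231) (nat_lit 127758561281616)) (C.cons (nat_lit 125) (C.ref (nat_lit 231) (nat_lit 111339169744656)) (C.cons (nat_lit 123) (C.ref (nat_lit 231) (nat_lit 111338901309216)) (C.cons (nat_lit 119) (C.ref (nat_lit 231) (nat_lit 111334606341936)) (C.cons (nat_lit 111) (C.ref (nat_lit 231) (nat_lit 111265886865216)) (C.cons (nat_lit 95) (C.ref (nat_lit 231) (nat_lit 110166375237456)) (C.cons (nat_lit 63) (C.ref (nat_lit 231) (nat_lit 92574189193056)) C.nil))))))))))))))))))))))))))))))))))))))))))))))))))))))))))))))))))))))))))))))))))))))))))))))))))))))))))))))))))))))))))))))))))))))))))))))))))))))))))))))))))))))))))))))))))))))))))))))))))))))))))))))))))))))))))))))))))))))))))))))))))))))))))))))))))))))))))))))))))))))))))))))))))))))))))))))))))))))))))))))))))))))))))))))))))))))))))))))))))))))))))))))))))))))))))))))))))))))))))))))))))))))))))))))))))))))))))))))))))))))))))))))))))))))))))))))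 (C.big (C.cons (nat_lit 3841) (C.ref (nat_lit 486) (nat_lit 205163983024656)) (C.cons (nat_lit 3713) (C.ref (nat_lit 486) (nat_lit 205159956492816)) (C.cons (nat_lit 3649) (C.ref (nat_lit 486) (nat_lit 205155678302736)) (C.cons (nat_lit 3617) (C.ref (nat_lit 486) (nat_lit 205151384384016)) (C.cons (nat_lit 3601) (C.ref (nat_lit 486) (nat_lit 205147089482256)) (C.cons (nat_lit 3593) (C.ref (nat_lit 486) (nat_lit 205142794519056)) (C.cons (nat_lit 3589) (C.ref (nat_lit 486) (nat_lit 205138499552016)) (C.cons (nat_lit 3587) (C.ref (nat_lit 486) (nat_lit 205134204584736)) (C.cons (nat_lit 3457) (C.ref (nat_lit 486) (nat_lit 205091505451536)) (C.cons (nat_lit 3393) (C.ref (nat_lit 486) (nat_lit 205087227261456)) (C.cons (nat_lit 3361) (C.ref (nat_lit 486) (nat_lit 205082933342736)) (C.cons (nat_lit 3345) (C.ref (nat_lit 486) (nat_lit 205078638440976)) (C.cons (nat_lit 3337) (C.ref (nat_lit 486) (nat_lit 205074343477776)) (C.cons (nat_lit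 3333) (C.ref (nat_lit 486) (nat_lit 205070048510736)) (C.cons (nat_lit 3331) (C.ref (nat_lit 486) (nat_lit 205065753543456)) (C.cons (nat_lit 3265) (C.ref (nat_lit 486) (nat_lit 205018524561936)) (C.cons (nat_lit 3233) (C.ref (nat_lit 486) (nat_lit 205014230643216)) (C.cons (nat_lit 3217) (C.ref (nat_lit 486) (nat_lit 205009935741456)) (C.cons (nat_lit 3209) (C.ref (nat_lit 486) (nat_lit 205005640778256)) (C.cons (nat_lit 3205) (C.ref (nat_lit 486) (nat_lit 205001345811216)) (C.cons (nat_lit 3203) (C.ref (nat_lit 486) (nat_lit 204997050843936)) (C.cons (nat_lit 3169) (C.ref (nat_lit 486) (nat_lit 204945512215056)) (C.cons (nat_lit 3153) (C.ref (nat_lit 486) (nat_lit 204941217313296)) (C.cons (nat_lit 3145) (C.ref (nat_lit 486) (nat_lit 204936922350096)) (C.cons (nat_lit 3141) (C.ref (nat_lit 486) (nat_lit 204932627383056)) (C.cons (nat_lit 3139) (C.ref (nat_lit 486) (nat_lit 204928332415776)) (C.cons (nat_lit 3121) (C.ref (nat_lit 486)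 (nat_lit 204872497902096)) (C.cons (nat_lit 3113) (C.ref (nat_lit 486) (nat_lit 204868202938896)) (C.cons (nat_lit 3109) (C.ref (nat_lit 486) (nat_lit 204863907971856)) (C.cons (nat_lit 3107) (C.ref (nat_lit 486) (nat_lit 204859613004576)) (C.cons (nat_lit 3097) (C.ref (nat_lit 486) (nat_lit 204799483466256)) (C.cons (nat_lit 3093) (C.ref (nat_lit 486) (nat_lit 204795188499216)) (C.cons (nat_lit 3091) (C.ref (nat_lit 486) (nat_lit 204790893531936)) (C.cons (nat_lit 3085) (C.ref (nat_lit 486) (nat_lit 204726469022736)) (C.cons (nat_lit 3083) (C.ref (nat_lit 486) (nat_lit 204722174055456)) (C.cons (nat_lit 3079) (C.ref (nat_lit 486) (nat_lit 204653454578736)) (C.cons (nat_lit 2945) (C.ref (nat_lit 486) (nat_lit 203992262259216)) (C.cons (nat_lit 2881)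
  (C.ref (nat_lit 486) (nat_lit 203987984069136)) (C.cons (nat_lit 2849) (C.ref (nat_lit 486) (nat_lit 203983690150416)) (C.cons (nat_lit 2833) (C.ref (nat_lit 486) (nat_lit 203979395248656)) (C.cons (nat_lit 2825) (C.ref (nat_lit 486) (nat_lit 203975100285456)) (C.cons (nat_lit 2821) (C.ref (nat_lit 486) (nat_lit 203970805318416)) (C.cons (nat_lit 2819) (C.ref (nat_lit 486) (nat_lit 203966510351136)) (C.cons (nat_lit 2753) (C.ref (nat_lit 486) (nat_lit 203919281369616)) (C.cons (nat_lit 2721) (C.ref (nat_lit 486) (nat_lit 203914987450896)) (C.cons (nat_lit 2705) (C.ref (nat_lit 486) (nat_lit 203910692549136)) (C.cons (nat_lit 2697) (C.ref (nat_lit 486) (nat_lit 203906397585936)) (C.cons (nat_lit 2693) (C.ref (nat_lit 486) (nat_lit 203902102618896)) (C.cons (nat_lit 2691) (C.ref (nat_lit 486) (nat_lit 203897807651616)) (C.cons (nat_lit 2657) (C.ref (nat_lit 486) (nat_lit 203846269022736)) (C.cons (nat_lit 2641) (C.ref (nat_lit 486)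 (nat_lit 203841974120976)) (C.cons (nat_lit 2633) (C.ref (nat_lit 486) (nat_lit 203837679157776)) (C.cons (nat_lit 2629) (C.ref (nat_lit 486) (nat_lit 203833384190736)) (C.cons (nat_lit 2627) (C.ref (nat_lit 486) (nat_lit 203829089223456)) (C.cons (nat_lit 2609) (C.ref (nat_lit 486) (nat_lit 203773254709776)) (C.cons (nat_lit 2601) (C.ref (nat_lit 486) (nat_lit 203768959746576)) (C.cons (nat_lit 2597) (C.ref (nat_lit 486) (nat_lit 203764664779536)) (C.cons (nat_lit 2595) (C.ref (nat_lit 486) (nat_lit 203760369812256)) (C.cons (nat_lit 2585) (C.ref (nat_lit 486) (nat_lit 203700240273936)) (C.cons (nat_lit 2581) (C.ref (nat_lit 486) (nat_lit 203695945306896)) (C.cons (nat_lit 2579) (C.ref (nat_lit 486) (nat_lit 203691650339616)) (C.cons (nat_lit 2573) (C.ref (nat_lit 486) (nat_lit 203627225830416)) (C.cons (nat_lit 2571) (C.ref (nat_lit 486) (nat_lit 203622930863136)) (C.cons (nat_lit 2567) (C.ref (nat_lit 486) (nat_lit 203554211386416))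 (C.cons (nat_lit 2497) (C.ref (nat_lit 486) (nat_lit 202819786519056)) (C.cons (nat_lit 2465) (C.ref (nat_lit 486) (nat_lit 202815492600336)) (C.cons (nat_lit 2449) (C.ref (nat_lit 486) (nat_lit 202811197698576)) (C.cons (nat_lit 2441) (C.ref (nat_lit 486) (nat_lit 202806902735376)) (C.cons (nat_lit 2437) (C.ref (nat_lit 486) (nat_lit 202802607768336)) (C.cons (nat_lit 2435) (C.ref (nat_lit 486) (nat_lit 202798312801056)) (C.cons (nat_lit 2401) (C.ref (nat_lit 486) (nat_lit 202746774172176)) (C.cons (nat_lit 2385) (C.ref (nat_lit 486) (nat_lit 202742479270416)) (C.cons (nat_lit 2377) (C.ref (nat_lit 486) (nat_lit 202738184307216)) (C.cons (nat_lit 2373) (C.ref (nat_lit 486) (nat_lit 202733889340176)) (C.cons (nat_lit 2371) (C.ref (nat_lit 486) (nat_lit 202729594372896)) (C.cons (nat_lit 2353) (C.ref (nat_lit 486) (nat_lit 202673759859216)) (C.cons (nat_lit 2345) (C.ref (nat_lit 486) (nat_lit 202669464896016)) (C.cons (nat_lit 2341)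 (C.ref (nat_lit 486) (nat_lit 202665169928976)) (C.cons (nat_lit 2339) (C.ref (nat_lit 486) (nat_lit 202660874961696)) (C.cons (nat_lit 2329) (C.ref (nat_lit 486) (nat_lit 202600745423376)) (C.cons (nat_lit 2325) (C.ref (nat_lit 486) (nat_lit 202596450456336)) (C.cons (nat_lit 2323) (C.ref (nat_lit 486) (nat_lit 202592155489056)) (C.cons (nat_lit 2317) (C.ref (nat_lit 486) (nat_lit 202527730979856)) (C.cons (nat_lit 2315) (C.ref (nat_lit 486) (nat_lit 202523436012576)) (C.cons (nat_lit 2311) (C.ref (nat_lit 486) (nat_lit 202454716535856)) (C.cons (nat_lit 2273) (C.ref (nat_lit 486) (nat_lit 201647263592976)) (C.cons (nat_lit 2257) (C.ref (nat_lit 486) (nat_lit 201642968691216)) (C.cons (nat_lit 2249) (C.ref (nat_lit 486) (nat_lit 201638673728016)) (C.cons (nat_lit 2245) (C.ref (nat_lit 486) (nat_lit 201634378760976)) (C.cons (nat_lit 2243) (C.ref (nat_lit 486) (nat_lit 201630083793696)) (C.cons (nat_lit 2225) (C.ref (nat_lit 486) (nat_lit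 201574249280016)) (C.cons (nat_lit 2217) (C.ref (nat_lit 486) (nat_lit 201569954316816)) (C.cons (nat_lit 2213) (C.ref (nat_lit 486) (nat_lit 201565659349776)) (C.cons (nat_lit 2211)
  (C.ref (nat_lit 486) (nat_lit 201561364382496)) (C.cons (nat_lit 2201) (C.ref (nat_lit 486) (nat_lit 201501234844176)) (C.cons (nat_lit 2197) (C.ref (nat_lit 486) (nat_lit 201496939877136)) (C.cons (nat_lit 2195) (C.ref (nat_lit 486) (nat_lit 201492644909856)) (C.cons (nat_lit 2189) (C.ref (nat_lit 486) (nat_lit 201428220400656)) (C.cons (nat_lit 2187) (C.ref (nat_lit 486) (nat_lit 201423925433376)) (C.cons (nat_lit 2183) (C.ref (nat_lit 486) (nat_lit 201355205956656)) (C.cons (nat_lit 2161) (C.ref (nat_lit 486) (nat_lit 200474737717776)) (C.cons (nat_lit 2153) (C.ref (nat_lit 486) (nat_lit 200470442754576)) (C.cons (nat_lit 2149) (C.ref (nat_lit 486) (nat_lit 200466147787536)) (C.cons (nat_lit 2147) (C.ref (nat_lit 486) (nat_lit 200461852820256)) (C.cons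 (nat_lit 2137) (C.ref (nat_lit 486) (nat_lit 200401723281936)) (C.cons (nat_lit 2133) (C.ref (nat_lit 486) (nat_lit 200397428314896)) (C.cons (nat_lit 2131) (C.ref (nat_lit 486) (nat_lit 200393133347616)) (C.cons (nat_lit 2125) (C.ref (nat_lit 486) (nat_lit 200328708838416)) (C.cons (nat_lit 2123) (C.ref (nat_lit 486) (nat_lit 200324413871136)) (C.cons (nat_lit 2119) (C.ref (nat_lit 486) (nat_lit 200255694394416)) (C.cons (nat_lit 2105) (C.ref (nat_lit 486) (nat_lit 199302211658256)) (C.cons (nat_lit 2101) (C.ref (nat_lit 486) (nat_lit 199297916691216)) (C.cons (nat_lit 2099) (C.ref (nat_lit 486) (nat_lit 199293621723936)) (C.cons (nat_lit 2093) (C.ref (nat_lit 486) (nat_lit 199229197214736)) (C.cons (nat_lit 2091) (C.ref (nat_lit 486) (nat_lit 199224902247456)) (C.cons (nat_lit 2087) (C.ref (nat_lit 486) (nat_lit 199156182770736)) (C.cons (nat_lit 2077) (C.ref (nat_lit 486) (nat_lit 198129685587216)) (C.cons (nat_lit 2075) (C.ref (nat_lit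 486) (nat_lit 198125390619936)) (C.cons (nat_lit 2071) (C.ref (nat_lit 486) (nat_lit 198056671143216)) (C.cons (nat_lit 2063) (C.ref (nat_lit 486) (nat_lit 196957159515456)) (C.cons (nat_lit 1921) (C.ref (nat_lit 486) (nat_lit 186400344650256)) (C.cons (nat_lit 1857) (C.ref (nat_lit 486) (nat_lit 186396066460176)) (C.cons (nat_lit 1825) (C.ref (nat_lit 486) (nat_lit 186391772541456)) (C.cons (nat_lit 1809) (C.ref (nat_lit 486) (nat_lit 186387477639696)) (C.cons (nat_lit 1801) (C.ref (nat_lit 486) (nat_lit 186383182676496)) (C.cons (nat_lit 1797) (C.ref (nat_lit 486) (nat_lit 186378887709456)) (C.cons (nat_lit 1795) (C.ref (nat_lit 486) (nat_lit 186374592742176)) (C.cons (nat_lit 1729) (C.ref (nat_lit 486) (nat_lit 186327363760656)) (C.cons (nat_lit 1697) (C.ref (nat_lit 486) (nat_lit 186323069841936)) (C.cons (nat_lit 1681) (C.ref (nat_lit 486) (nat_lit 186318774940176)) (C.cons (nat_lit 1673) (C.ref (nat_lit 486) (nat_lit 186314479976976))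 (C.cons (nat_lit 1669) (C.ref (nat_lit 486) (nat_lit 186310185009936)) (C.cons (nat_lit 1667) (C.ref (nat_lit 486) (nat_lit 186305890042656)) (C.cons (nat_lit 1633) (C.ref (nat_lit 486) (nat_lit 186254351413776)) (C.cons (nat_lit 1617) (C.ref (nat_lit 486) (nat_lit 186250056512016)) (C.cons (nat_lit 1609) (C.ref (nat_lit 486) (nat_lit 186245761548816)) (C.cons (nat_lit 1605) (C.ref (nat_lit 486) (nat_lit 186241466581776)) (C.cons (nat_lit 1603) (C.ref (nat_lit 486) (nat_lit 186237171614496)) (C.cons (nat_lit 1585) (C.ref (nat_lit 486) (nat_lit 186181337100816)) (C.cons (nat_lit 1577) (C.ref (nat_lit 486) (nat_lit 186177042137616)) (C.cons (nat_lit 1573) (C.ref (nat_lit 486) (nat_lit 186172747170576)) (C.cons (nat_lit 1571) (C.ref (nat_lit 486) (nat_lit 186168452203296)) (C.cons (nat_lit 1561) (C.ref (nat_lit 486) (nat_lit 186108322664976)) (C.cons (nat_lit 1557) (C.ref (nat_lit 486) (nat_lit 186104027697936)) (C.cons (nat_lit 1555)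 (C.ref (nat_lit 486) (nat_lit 186099732730656)) (C.cons (nat_lit 1549) (C.ref (nat_lit 486) (nat_lit 186035308221456)) (C.cons (nat_lit 1547) (C.ref (nat_lit 486) (nat_lit 186031013254176)) (C.cons (nat_lit 1543) (C.ref (nat_lit 486) (nat_lit 185962293777456)) (C.cons (nat_lit 1473) (C.ref (nat_lit 486) (nat_lit 185227868910096)) (C.cons (nat_lit 1441)
  (C.ref (nat_lit 486) (nat_lit 185223574991376)) (C.cons (nat_lit 1425) (C.ref (nat_lit 486) (nat_lit 185219280089616)) (C.cons (nat_lit 1417) (C.ref (nat_lit 486) (nat_lit 185214985126416)) (C.cons (nat_lit 1413) (C.ref (nat_lit 486) (nat_lit 185210690159376)) (C.cons (nat_lit 1411) (C.ref (nat_lit 486) (nat_lit 185206395192096)) (C.cons (nat_lit 1377) (C.ref (nat_lit 486) (nat_lit 185154856563216)) (C.cons (nat_lit 1361) (C.ref (nat_lit 486) (nat_lit 185150561661456)) (C.cons (nat_lit 1353) (C.ref (nat_lit 486) (nat_lit 185146266698256)) (C.cons (nat_lit 1349) (C.ref (nat_lit 486)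 (nat_lit 185141971731216)) (C.cons (nat_lit 1347) (C.ref (nat_lit 486) (nat_lit 185137676763936)) (C.cons (nat_lit 1329) (C.ref (nat_lit 486) (nat_lit 185081842250256)) (C.cons (nat_lit 1321) (C.ref (nat_lit 486) (nat_lit 185077547287056)) (C.cons (nat_lit 1317) (C.ref (nat_lit 486) (nat_lit 185073252320016)) (C.cons (nat_lit 1315) (C.ref (nat_lit 486) (nat_lit 185068957352736)) (C.cons (nat_lit 1305) (C.ref (nat_lit 486) (nat_lit 185008827814416)) (C.cons (nat_lit 1301) (C.ref (nat_lit 486) (nat_lit 185004532847376)) (C.cons (nat_lit 1299) (C.ref (nat_lit 486) (nat_lit 185000237880096)) (C.cons (nat_lit 1293) (C.ref (nat_lit 486) (nat_lit 184935813370896)) (C.cons (nat_lit 1291) (C.ref (nat_lit 486) (nat_lit 184931518403616)) (C.cons (nat_lit 1287) (C.ref (nat_lit 486) (nat_lit 184862798926896)) (C.cons (nat_lit 1249) (C.ref (nat_lit 486) (nat_lit 184055345984016)) (C.cons (nat_lit 1233) (C.ref (nat_lit 486) (nat_lit 184051051082256))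 (C.cons (nat_lit 1225) (C.ref (nat_lit 486) (nat_lit 184046756119056)) (C.cons (nat_lit 1221) (C.ref (nat_lit 486) (nat_lit 184042461152016)) (C.cons (nat_lit 1219) (C.ref (nat_lit 486) (nat_lit 184038166184736)) (C.cons (nat_lit 1201) (C.ref (nat_lit 486) (nat_lit 183982331671056)) (C.cons (nat_lit 1193) (C.ref (nat_lit 486) (nat_lit 183978036707856)) (C.cons (nat_lit 1189) (C.ref (nat_lit 486) (nat_lit 183973741740816)) (C.cons (nat_lit 1187) (C.ref (nat_lit 486) (nat_lit 183969446773536)) (C.cons (nat_lit 1177) (C.ref (nat_lit 486) (nat_lit 183909317235216)) (C.cons (nat_lit 1173) (C.ref (nat_lit 486) (nat_lit 183905022268176)) (C.cons (nat_lit 1171) (C.ref (nat_lit 486) (nat_lit 183900727300896)) (C.cons (nat_lit 1165) (C.ref (nat_lit 486) (nat_lit 183836302791696)) (C.cons (nat_lit 1163) (C.ref (nat_lit 486) (nat_lit 183832007824416)) (C.cons (nat_lit 1159) (C.ref (nat_lit 486) (nat_lit 183763288347696)) (C.cons (nat_lit 1137)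 (C.ref (nat_lit 486) (nat_lit 182882820108816)) (C.cons (nat_lit 1129) (C.ref (nat_lit 486) (nat_lit 182878525145616)) (C.cons (nat_lit 1125) (C.ref (nat_lit 486) (nat_lit 182874230178576)) (C.cons (nat_lit 1123) (C.ref (nat_lit 486) (nat_lit 182869935211296)) (C.cons (nat_lit 1113) (C.ref (nat_lit 486) (nat_lit 182809805672976)) (C.cons (nat_lit 1109) (C.ref (nat_lit 486) (nat_lit 182805510705936)) (C.cons (nat_lit 1107) (C.ref (nat_lit 486) (nat_lit 182801215738656)) (C.cons (nat_lit 1101) (C.ref (nat_lit 486) (nat_lit 182736791229456)) (C.cons (nat_lit 1099) (C.ref (nat_lit 486) (nat_lit 182732496262176)) (C.cons (nat_lit 1095) (C.ref (nat_lit 486) (nat_lit 182663776785456)) (C.cons (nat_lit 1081) (C.ref (nat_lit 486) (nat_lit 181710294049296)) (C.cons (nat_lit 1077) (C.ref (nat_lit 486) (nat_lit 181705999082256)) (C.cons (nat_lit 1075) (C.ref (nat_lit 486) (nat_lit 181701704114976)) (C.cons (nat_lit 1069) (C.ref (nat_lit 486) (nat_lit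 181637279605776)) (C.cons (nat_lit 1067) (C.ref (nat_lit 486) (nat_lit 181632984638496)) (C.cons (nat_lit 1063) (C.ref (nat_lit 486) (nat_lit 181564265161776)) (C.cons (nat_lit 1053) (C.ref (nat_lit 486) (nat_lit 180537767978256)) (C.cons (nat_lit 1051) (C.ref (nat_lit 486) (nat_lit 180533473010976)) (C.cons (nat_lit 1047) (C.ref (nat_lit 486) (nat_lit 180464753534256)) (C.cons (nat_lit 1039) (C.ref (nat_lit 486) (nat_lit 179365241906496)) (C.cons (nat_lit 961) (C.ref (nat_lit 486) (nat_lit 167635699642896)) (C.cons (nat_lit 929)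
  (C.ref (nat_lit 486) (nat_lit 167631405724176)) (C.cons (nat_lit 913) (C.ref (nat_lit 486) (nat_lit 167627110822416)) (C.cons (nat_lit 905) (C.ref (nat_lit 486) (nat_lit 167622815859216)) (C.cons (nat_lit 901) (C.ref (nat_lit 486) (nat_lit 167618520892176)) (C.cons (nat_lit 899) (C.ref (nat_lit 486) (nat_lit 167614225924896)) (C.cons (nat_lit 865) (C.ref (nat_lit 486) (nat_lit 167562687296016)) (C.cons (nat_lit 849) (C.ref (nat_lit 486) (nat_lit 167558392394256)) (C.cons (nat_lit 841) (C.ref (nat_lit 486) (nat_lit 167554097431056)) (C.cons (nat_lit 837) (C.ref (nat_lit 486) (nat_lit 167549802464016)) (C.cons (nat_lit 835) (C.ref (nat_lit 486) (nat_lit 167545507496736)) (C.cons (nat_lit 817) (C.ref (nat_lit 486) (nat_lit 167489672983056)) (C.cons (nat_lit 809) (C.ref (nat_lit 486) (nat_lit 167485378019856)) (C.cons (nat_lit 805) (C.ref (nat_lit 486) (nat_lit 167481083052816)) (C.cons (nat_lit 803) (C.ref (nat_lit 486) (nat_lit 167476788085536))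 (C.cons (nat_lit 793) (C.ref (nat_lit 486) (nat_lit 167416658547216)) (C.cons (nat_lit 789) (C.ref (nat_lit 486) (nat_lit 167412363580176)) (C.cons (nat_lit 787) (C.ref (nat_lit 486) (nat_lit 167408068612896)) (C.cons (nat_lit 781) (C.ref (nat_lit 486) (nat_lit 167343644103696)) (C.cons (nat_lit 779) (C.ref (nat_lit 486) (nat_lit 167339349136416)) (C.cons (nat_lit 775) (C.ref (nat_lit 486) (nat_lit 167270629659696)) (C.cons (nat_lit 737) (C.ref (nat_lit 486) (nat_lit 166463176716816)) (C.cons (nat_lit 721) (C.ref (nat_lit 486) (nat_lit 166458881815056)) (C.cons (nat_lit 713) (C.ref (nat_lit 486) (nat_lit 166454586851856)) (C.cons (nat_lit 709) (C.ref (nat_lit 486) (nat_lit 166450291884816)) (C.cons (nat_lit 707) (C.ref (nat_lit 486) (nat_lit 166445996917536)) (C.cons (nat_lit 689) (C.ref (nat_lit 486) (nat_lit 166390162403856)) (C.cons (nat_lit 681) (C.ref (nat_lit 486) (nat_lit 166385867440656)) (C.cons (nat_lit 677) (C.ref (nat_lit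 486) (nat_lit 166381572473616)) (C.cons (nat_lit 675) (C.ref (nat_lit 486) (nat_lit 166377277506336)) (C.cons (nat_lit 665) (C.ref (nat_lit 486) (nat_lit 166317147968016)) (C.cons (nat_lit 661) (C.ref (nat_lit 486) (nat_lit 166312853000976)) (C.cons (nat_lit 659) (C.ref (nat_lit 486) (nat_lit 166308558033696)) (C.cons (nat_lit 653) (C.ref (nat_lit 486) (nat_lit 166244133524496)) (C.cons (nat_lit 651) (C.ref (nat_lit 486) (nat_lit 166239838557216)) (C.cons (nat_lit 647) (C.ref (nat_lit 486) (nat_lit 166171119080496)) (C.cons (nat_lit 625) (C.ref (nat_lit 486) (nat_lit 165290650841616)) (C.cons (nat_lit 617) (C.ref (nat_lit 486) (nat_lit 165286355878416)) (C.cons (nat_lit 613) (C.ref (nat_lit 486) (nat_lit 165282060911376)) (C.cons (nat_lit 611) (C.ref (nat_lit 486) (nat_lit 165277765944096)) (C.cons (nat_lit 601) (C.ref (nat_lit 486) (nat_lit 165217636405776)) (C.cons (nat_lit 597) (C.ref (nat_lit 486) (nat_lit 165213341438736)) (C.cons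 (nat_lit 595) (C.ref (nat_lit 486) (nat_lit 165209046471456)) (C.cons (nat_lit 589) (C.ref (nat_lit 486) (nat_lit 165144621962256)) (C.cons (nat_lit 587) (C.ref (nat_lit 486) (nat_lit 165140326994976)) (C.cons (nat_lit 583) (C.ref (nat_lit 486) (nat_lit 165071607518256)) (C.cons (nat_lit 569) (C.ref (nat_lit 486) (nat_lit 164118124782096)) (C.cons (nat_lit 565) (C.ref (nat_lit 486) (nat_lit 164113829815056)) (C.cons (nat_lit 563) (C.ref (nat_lit 486) (nat_lit 164109534847776)) (C.cons (nat_lit 557) (C.ref (nat_lit 486) (nat_lit 164045110338576)) (C.cons (nat_lit 555) (C.ref (nat_lit 486) (nat_lit 164040815371296)) (C.cons (nat_lit 551) (C.ref (nat_lit 486) (nat_lit 163972095894576)) (C.cons (nat_lit 541) (C.ref (nat_lit 486) (nat_lit 162945598711056)) (C.cons (nat_lit 539) (C.ref (nat_lit 486) (nat_lit 162941303743776)) (C.cons (nat_lit 535) (C.ref (nat_lit 486) (nat_lit 162872584267056)) (C.cons (nat_lit 527) (C.ref (nat_lit 486) (nat_lit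 161773072639296)) (C.cons (nat_lit 481) (C.ref (nat_lit 486) (nat_lit 148870991720976)) (C.cons (nat_lit 465) (C.ref (nat_lit 486) (nat_lit 148866696819216)) (C.cons (nat_lit 457)
  (C.ref (nat_lit 486) (nat_lit 148862401856016)) (C.cons (nat_lit 453) (C.ref (nat_lit 486) (nat_lit 148858106888976)) (C.cons (nat_lit 451) (C.ref (nat_lit 486) (nat_lit 148853811921696)) (C.cons (nat_lit 433) (C.ref (nat_lit 486) (nat_lit 148797977408016)) (C.cons (nat_lit 425) (C.ref (nat_lit 486) (nat_lit 148793682444816)) (C.cons (nat_lit 421) (C.ref (nat_lit 486) (nat_lit 148789387477776)) (C.cons (nat_lit 419) (C.ref (nat_lit 486) (nat_lit 148785092510496)) (C.cons (nat_lit 409) (C.ref (nat_lit 486) (nat_lit 148724962972176)) (C.cons (nat_lit 405) (C.ref (nat_lit 486) (nat_lit 148720668005136)) (C.cons (nat_lit 403) (C.ref (nat_lit 486) (nat_lit 148716373037856)) (C.cons (nat_lit 397) (C.ref (nat_lit 486) (nat_lit 148651948528656)) (C.cons (nat_lit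 395) (C.ref (nat_lit 486) (nat_lit 148647653561376)) (C.cons (nat_lit 391) (C.ref (nat_lit 486) (nat_lit 148578934084656)) (C.cons (nat_lit 369) (C.ref (nat_lit 486) (nat_lit 147698465845776)) (C.cons (nat_lit 361) (C.ref (nat_lit 486) (nat_lit 147694170882576)) (C.cons (nat_lit 357) (C.ref (nat_lit 486) (nat_lit 147689875915536)) (C.cons (nat_lit 355) (C.ref (nat_lit 486) (nat_lit 147685580948256)) (C.cons (nat_lit 345) (C.ref (nat_lit 486) (nat_lit 147625451409936)) (C.cons (nat_lit 341) (C.ref (nat_lit 486) (nat_lit 147621156442896)) (C.cons (nat_lit 339) (C.ref (nat_lit 486) (nat_lit 147616861475616)) (C.cons (nat_lit 333) (C.ref (nat_lit 486) (nat_lit 147552436966416)) (C.cons (nat_lit 331) (C.ref (nat_lit 486) (nat_lit 147548141999136)) (C.cons (nat_lit 327) (C.ref (nat_lit 486) (nat_lit 147479422522416)) (C.cons (nat_lit 313) (C.ref (nat_lit 486) (nat_lit 146525939786256)) (C.cons (nat_lit 309) (C.ref (nat_lit 486) (nat_lit 146521644819216))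 (C.cons (nat_lit 307) (C.ref (nat_lit 486) (nat_lit 146517349851936)) (C.cons (nat_lit 301) (C.ref (nat_lit 486) (nat_lit 146452925342736)) (C.cons (nat_lit 299) (C.ref (nat_lit 486) (nat_lit 146448630375456)) (C.cons (nat_lit 295) (C.ref (nat_lit 486) (nat_lit 146379910898736)) (C.cons (nat_lit 285) (C.ref (nat_lit 486) (nat_lit 145353413715216)) (C.cons (nat_lit 283) (C.ref (nat_lit 486) (nat_lit 145349118747936)) (C.cons (nat_lit 279) (C.ref (nat_lit 486) (nat_lit 145280399271216)) (C.cons (nat_lit 271) (C.ref (nat_lit 486) (nat_lit 144180887643456)) (C.cons (nat_lit 241) (C.ref (nat_lit 486) (nat_lit 130106279866896)) (C.cons (nat_lit 233) (C.ref (nat_lit 486) (nat_lit 130101984903696)) (C.cons (nat_lit 229) (C.ref (nat_lit 486) (nat_lit 130097689936656)) (C.cons (nat_lit 227) (C.ref (nat_lit 486) (nat_lit 130093394969376)) (C.cons (nat_lit 217) (C.ref (nat_lit 486) (nat_lit 130033265431056)) (C.cons (nat_lit 213) (C.ref (nat_lit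 486) (nat_lit 130028970464016)) (C.cons (nat_lit 211) (C.ref (nat_lit 486) (nat_lit 130024675496736)) (C.cons (nat_lit 205) (C.ref (nat_lit 486) (nat_lit 129960250987536)) (C.cons (nat_lit 203) (C.ref (nat_lit 486) (nat_lit 129955956020256)) (C.cons (nat_lit 199) (C.ref (nat_lit 486) (nat_lit 129887236543536)) (C.cons (nat_lit 185) (C.ref (nat_lit 486) (nat_lit 128933753807376)) (C.cons (nat_lit 181) (C.ref (nat_lit 486) (nat_lit 128929458840336)) (C.cons (nat_lit 179) (C.ref (nat_lit 486) (nat_lit 128925163873056)) (C.cons (nat_lit 173) (C.ref (nat_lit 486) (nat_lit 128860739363856)) (C.cons (nat_lit 171) (C.ref (nat_lit 486) (nat_lit 128856444396576)) (C.cons (nat_lit 167) (C.ref (nat_lit 486) (nat_lit 128787724919856)) (C.cons (nat_lit 157) (C.ref (nat_lit 486) (nat_lit 127761227736336)) (C.cons (nat_lit 155) (C.ref (nat_lit 486) (nat_lit 127756932769056)) (C.cons (nat_lit 151) (C.ref (nat_lit 486) (nat_lit 127688213292336)) (C.cons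 (nat_lit 143) (C.ref (nat_lit 486) (nat_lit 126588701664576)) (C.cons (nat_lit 121) (C.ref (nat_lit 486) (nat_lit 111341567767056)) (C.cons (nat_lit 117) (C.ref (nat_lit 486) (nat_lit 111337272800016)) (C.cons (nat_lit 115) (C.ref (nat_lit 486) (nat_lit 111332977832736)) (C.cons (nat_lit 109) (C.ref (nat_lit 486) (nat_lit 111268553323536)) (C.cons (nat_lit 107)
  (C.ref (nat_lit 486) (nat_lit 111264258356256)) (C.cons (nat_lit 103) (C.ref (nat_lit 486) (nat_lit 111195538879536)) (C.cons (nat_lit 93) (C.ref (nat_lit 486) (nat_lit 110169041696016)) (C.cons (nat_lit 91) (C.ref (nat_lit 486) (nat_lit 110164746728736)) (C.cons (nat_lit 87) (C.ref (nat_lit 486) (nat_lit 110096027252016)) (C.cons (nat_lit 79) (C.ref (nat_lit 486) (nat_lit 108996515624256)) (C.cons (nat_lit 61) (C.ref (nat_lit 486) (nat_lit 92576855651856)) (C.cons (nat_lit 59) (C.ref (nat_lit 486) (nat_lit 92572560684576)) (C.cons (nat_lit 55) (C.ref (nat_lit 486) (nat_lit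 92503841207856)) (C.cons (nat_lit 47) (C.ref (nat_lit 486) (nat_lit 91404329580096)) (C.cons (nat_lit 31) (C.ref (nat_lit 486) (nat_lit 73812143535696)) C.nil)))))))))))))))))))))))))))))))))))))))))))))))))))))))))))))))))))))))))))))))))))))))))))))))))))))))))))))))))))))))))))))))))))))))))))))))))))))))))))))))))))))))))))))))))))))))))))))))))))))))))))))))))))))))))))))))))))))))))))))))))))))))))))))))))))))))))))))))))))))))))))))))))))))))))))))))))))))))))))))))))))))))))) C.nil)) List.nil)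

theorem ok12_487 : okL par12 (nat_lit 488) c12_487 (nat_lit 487) = true := by decide +kernel


end Pool.Agent.MP_1f1ca1_co
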