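import Pool.Agent.MP_1f1ca1_co.Cert.P13

set_option autoImplicit false
set_option maxRecDepth 1000000
set_option maxHeartbeats 0

namespace Pool.Agent.MP_1f1ca1_co

noncomputable def c13_134 : List C :=
  (List.cons (C.node (nat_lit 0) (nat_lit 3) (nat_lit 10) (C.cons (nat_lit 1097) (C.node (nat_lit 0) (nat_lit 4) (nat_lit 10) (C.cons (nat_lit 1073) (C.node (nat_lit 0) (nat_lit 1) (nat_lit 4) (C.cons (nat_lit 531) (C.ref (nat_lit 131) (nat_lit 3582863703552528)) (C.cons (nat_lit 275) (C.ref (nat_lit 131) (nat_lit 3582799279043088)) (C.cons (nat_lit 19) (C.node (nat_lit 0) (nat_lit 1) (nat_lit 8) (C.cons (nat_lit 291) (C.node (nat_lit 0) (nat_lit 3) (nat_lit 8) (C.cons (nat_lit 265) (C.node (nat_lit 0) (nat_lit 1) (nat_lit 3) (C.cons (nat_lit 523) (C.node (nat_lit 0) (nat_lit 3) (nat_lit 5) C.nil) C.nil)) C.nil)) (C.cons (nat_lit 267) (C.node (nat_lit 0) (nat_lit 1) (nat_lit 5) (C.cons (nat_lit 547) (C.node (nat_lit 0) (nat_lit 3) (nat_lit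 5) (C.cons (nat_lit 41) (C.node (nat_lit 0) (nat_lit 3) (nat_lit 9) C.nil) C.nil)) (C.cons (nat_lit 35) (C.node (nat_lit 0) (nat_lit 1) (nat_lit 9) C.nil) C.nil))) (C.cons (nat_lit 259) (C.node (nat_lit 0) (nat_lit 3) (nat_lit 8) (C.cons (nat_lit 297) (C.node (nat_lit 0) (nat_lit 1) (nat_lit 3) (C.cons (nat_lit 523) (C.node (nat_lit 0) (nat_lit 1) (nat_lit 5) C.nil) C.nil)) C.nil)) C.nil)))) C.nil)))) (C.cons (nat_lit 1041) (C.node (nat_lit 0) (nat_lit 5) (nat_lit 10) (C.cons (nat_lit 1057) (C.node (nat_lit 0) (nat_lit 3) (nat_lit 8) (C.cons (nat_lit 297) (C.node (nat_lit 0) (nat_lit 1) (nat_lit 3) (C.cons (nat_lit 523) (C.node (nat_lit 0) (nat_lit 1) (nat_lit 5) (C.cons (nat_lit 51) (C.node (nat_lit 0) (nat_lit 1) (nat_lit 8) C.nil) C.nil)) C.nil)) (C.cons (nat_lit 267) (C.node (nat_lit 0) (nat_lit 3) (nat_lit 5) (C.cons (nat_lit 553) (C.node (nat_lit 0) (nat_lit 1) (nat_lit 5) (C.cons (nat_lit 51) (C.node (nat_lit 0) (nat_lit 1) (nat_lit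 9) C.nil) C.nil)) C.nil)) C.nil))) C.nil)) C.nil))) (C.cons (nat_lit 1065) (C.node (nat_lit 0) (nat_lit 4) (nat_lit 10) (C.cons (nat_lit 1105) (C.node (nat_lit 0) (nat_lit 1) (nat_lit 3) (C.cons (nat_lit 523) (C.ref (nat_lit 132) (nat_lit 3582863703552528)) (C.cons (nat_lit 267) (C.ref (nat_lit 132) (nat_lit 3582799279043088)) (C.cons (nat_lit 11) (C.node (nat_lit 0) (nat_lit 3) (nat_lit 8) (C.cons (nat_lit 329) (C.node (nat_lit 0) (nat_lit 3) (nat_lit 9) (C.cons (nat_lit 521) (C.node (nat_lit 0) (nat_lit 2) (nat_lit 6) (C.cons (nat_lit 581) (C.node (nat_lit 0) (nat_lit 5) (nat_lit 2) (C.cons (nat_lit 293) (C.node (nat_lit 0) (nat_lit 2) (nat_lit 4) C.nil) (C.cons (nat_lit 53) (C.node (nat_lit 0) (nat_lit 2) (nat_lit 8) C.nil) C.nil))) C.nil)) C.nil)) (C.cons (nat_lit 265) (C.node (nat_lit 0) (nat_lit 3) (nat_lit 6) (C.cons (nat_lit 585) (C.node (nat_lit 0) (nat_lit 2) (nat_lit 6) (C.cons (nat_lit 325) (C.node (nat_lit 0) (nat_lit 5)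 (nat_lit 2) (C.cons (nat_lit 549) (C.node (nat_lit 0) (nat_lit 2) (nat_lit 4) C.nil) (C.cons (nat_lit 53) (C.node (nat_lit 0) (nat_lit 2) (nat_lit 9) C.nil) C.nil))) C.nil)) C.nil)) C.nil))) C.nil)))) (C.cons (nat_lit 1041) (C.node (nat_lit 0) (nat_lit 6) (nat_lit 10) (C.cons (nat_lit 1089) (C.ref (nat_lit 133) (nat_lit 3582863703552528)) C.nil)) C.nil))) (C.cons (nat_lit 1033) (C.node (nat_lit 0) (nat_lit 5) (nat_lit 10) (C.cons (nat_lit 1073) (C.node (nat_lit 0) (nat_lit 6) (nat_lit 10) (C.cons (nat_lit 1089) (C.node (nat_lit 0) (nat_lit 1) (nat_lit 4) (C.cons (nat_lit 531) (C.node (nat_lit 0) (nat_lit 1) (nat_lit 3) (C.cons (nat_lit 267) (C.node (nat_lit 0) (nat_lit 1) (nat_lit 5) C.nil) (C.cons (nat_lit 43) (C.node (nat_lit 0) (nat_lit 1) (nat_lit 8) C.nil) C.nil))) (C.cons (nat_lit 275) (C.node (nat_lit 0) (nat_lit 1) (nat_lit 3) (C.cons (nat_lit 523) (C.node (nat_lit 0) (nat_lit 1) (nat_lit 5) C.nil) (C.cons (nat_lit 43) (C.node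 (nat_lit 0) (nat_lit 1) (nat_lit 9) C.nil) C.nil))) C.nil))) C.nil)) (C.cons (nat_lit 1057) (C.node (nat_lit 0) (nat_lit 4) (nat_lit 10) (C.cons (nat_lit 1105) (C.ref (nat_lit 133) (nat_lit 3318980861583648)) C.nil)) C.nil))) C.nil)))) (List.cons (C.node (nat_lit 0) (nat_lit 3) (nat_lit 10) (C.cons (nat_lit 1097) (C.node (nat_lit 0) (nat_lit 4) (nat_lit 10) (C.cons (nat_lit 1073)
  (C.ref (nat_lit 125) (nat_lit 3566371028997168)) C.nil)) (C.cons (nat_lit 1065) (C.node (nat_lit 0) (nat_lit 4) (nat_lit 10) (C.cons (nat_lit 1105) (C.ref (nat_lit 125) (nat_lit 3566371028996928)) C.nil)) C.nil))) (List.cons (C.node (nat_lit 0) (nat_lit 1) (nat_lit 12) (C.cons (nat_lit 4115) (C.ref (nat_lit 130) (nat_lit 3582863703552528)) (C.cons (nat_lit 4107) (C.ref (nat_lit 130) (nat_lit 3582863703491088)) (C.cons (nat_lit 4099) (C.node (nat_lit 0) (nat_lit 3) (nat_lit 12) (C.cons (nat_lit 4109) (C.node (nat_lit 0) (nat_lit 4) (nat_lit 12) (C.cons (nat_lit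 4113) (C.ref (nat_lit 134) (nat_lit 3582863703552528)) C.nil)) (C.cons (nat_lit 4105) (C.node (nat_lit 0) (nat_lit 2) (nat_lit 12) (C.cons (nat_lit 4117) (C.ref (nat_lit 134) (nat_lit 3582863703491088)) (C.cons (nat_lit 4101) (C.node (nat_lit 0) (nat_lit 4) (nat_lit 12) (C.cons (nat_lit 4113) (C.ref (nat_lit 135) (nat_lit 3582863703552528)) C.nil)) C.nil))) C.nil))) C.nil)))) (List.cons (C.node (nat_lit 0) (nat_lit 2) (nat_lit 11) (C.cons (nat_lit 2085) (C.node (nat_lit 0) (nat_lit 1) (nat_lit 12) (C.cons (nat_lit 4115) (C.ref (nat_lit 123) (nat_lit 3582863703552528)) (C.cons (nat_lit 4107) (C.ref (nat_lit 123) (nat_lit 3582863703491088)) (C.cons (nat_lit 4099) (C.node (nat_lit 0) (nat_lit 3) (nat_lit 12) (C.cons (nat_lit 4109) (C.node (nat_lit 0) (nat_lit 4) (nat_lit 12) (C.cons (nat_lit 4113) (C.ref (nat_lit 122) (nat_lit 3582863687762208)) C.nil)) (C.cons (nat_lit 4105) (C.node (nat_lit 0) (nat_lit 2) (nat_lit 12) (C.cons (nat_lit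 4117) (C.ref (nat_lit 122) (nat_lit 3582863687823648)) (C.cons (nat_lit 4101) (C.node (nat_lit 0) (nat_lit 4) (nat_lit 12) (C.cons (nat_lit 4113) (C.ref (nat_lit 127) (nat_lit 3582863703552528)) C.nil)) C.nil))) C.nil))) C.nil)))) (C.cons (nat_lit 2053) (C.node (nat_lit 0) (nat_lit 5) (nat_lit 11) (C.cons (nat_lit 2081) (C.ref (nat_lit 136) (nat_lit 3582863703552528)) C.nil)) C.nil))) (List.cons (C.big (C.cons (nat_lit 597) (C.ref (nat_lit 114) (nat_lit 3582863703552528)) (C.cons (nat_lit 595) (C.ref (nat_lit 114) (nat_lit 3582863703552288)) (C.cons (nat_lit 589) (C.ref (nat_lit 114) (nat_lit 3582863703491088)) (C.cons (nat_lit 587) (C.ref (nat_lit 114) (nat_lit 3582863703490848)) (C.cons (nat_lit 565) (C.ref (nat_lit 114) (nat_lit 3582863687823888)) (C.cons (nat_lit 563) (C.ref (nat_lit 114) (nat_lit 3582863687823648)) (C.cons (nat_lit 557) (C.ref (nat_lit 114) (nat_lit 3582863687762448)) (C.cons (nat_lit 555) (C.ref (nat_lit 114) (nat_lit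 3582863687762208)) (C.cons (nat_lit 341) (C.ref (nat_lit 114) (nat_lit 3582799279043088)) (C.cons (nat_lit 339) (C.ref (nat_lit 114) (nat_lit 3582799279042848)) (C.cons (nat_lit 333) (C.ref (nat_lit 114) (nat_lit 3582799278981648)) (C.cons (nat_lit 331) (C.ref (nat_lit 114) (nat_lit 3582799278981408)) (C.cons (nat_lit 309) (C.ref (nat_lit 114) (nat_lit 3582799263314448)) (C.cons (nat_lit 307) (C.ref (nat_lit 114) (nat_lit 3582799263314208)) (C.cons (nat_lit 301) (C.ref (nat_lit 114) (nat_lit 3582799263253008)) (C.cons (nat_lit 299) (C.ref (nat_lit 114) (nat_lit 3582799263252768)) C.nil)))))))))))))))) (C.node (nat_lit 0) (nat_lit 7) (nat_lit 8) (C.cons (nat_lit 385) (C.node (nat_lit 0) (nat_lit 7) (nat_lit 9) (C.cons (nat_lit 641) (C.node (nat_lit 0) (nat_lit 1) (nat_lit 11) (C.cons (nat_lit 2115) (C.ref (nat_lit 137) (nat_lit 3582863703552528)) (C.cons (nat_lit 2083) (C.ref (nat_lit 137) (nat_lit 3582863687823888)) (C.cons (nat_lit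 2051) (C.node (nat_lit 0) (nat_lit 5) (nat_lit 11) (C.cons (nat_lit 2085) (C.node (nat_lit 0) (nat_lit 6) (nat_lit 11) (C.cons (nat_lit 2113) (C.ref (nat_lit 136) (nat_lit 3582863687823648)) C.nil)) (C.cons (nat_lit 2081) (C.node (nat_lit 0) (nat_lit 2) (nat_lit 11) (C.cons (nat_lit 2117) (C.ref (nat_lit 136) (nat_lit 3582863703552288)) (C.cons (nat_lit 2053) (C.node (nat_lit 0) (nat_lit 6) (nat_lit 11) (C.cons (nat_lit 2113) (C.node (nat_lit 0) (nat_lit 1) (nat_lit 12) (C.cons (nat_lit 4115) (C.node (nat_lit 0) (nat_lit 2) (nat_lit 12) (C.cons (nat_lit 4109)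
  (C.ref (nat_lit 127) (nat_lit 3318980877373968)) (C.cons (nat_lit 4101) (C.node (nat_lit 0) (nat_lit 3) (nat_lit 12) (C.cons (nat_lit 4105) (C.ref (nat_lit 135) (nat_lit 3318980877373968)) C.nil)) C.nil))) (C.cons (nat_lit 4107) (C.node (nat_lit 0) (nat_lit 2) (nat_lit 12) (C.cons (nat_lit 4117) (C.ref (nat_lit 127) (nat_lit 3318980861645328)) (C.cons (nat_lit 4101) (C.node (nat_lit 0) (nat_lit 4) (nat_lit 12) (C.cons (nat_lit 4113) (C.ref (nat_lit 135) (nat_lit 3318980861645328)) C.nil)) C.nil))) (C.cons (nat_lit 4099) (C.node (nat_lit 0) (nat_lit 3) (nat_lit 12) (C.cons (nat_lit 4109) (C.node (nat_lit 0) (nat_lit 4) (nat_lit 12) (C.cons (nat_lit 4113) (C.ref (nat_lit 135) (nat_lit 3318980861645088)) C.nil)) (C.cons (nat_lit 4105) (C.node (nat_lit 0) (nat_lit 2) (nat_lit 12) (C.cons (nat_lit 4117) (C.ref (nat_lit 135) (nat_lit 3318980877373728)) C.nil)) C.nil))) C.nil)))) C.nil)) C.nil))) C.nil))) C.nil)))) C.nil)) C.nil))) (List.cons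 (C.big (C.cons (nat_lit 391) (C.ref (nat_lit 113) (nat_lit 2475728437662768)) (C.cons (nat_lit 331) (C.ref (nat_lit 113) (nat_lit 2474697393919008)) (C.cons (nat_lit 307) (C.ref (nat_lit 113) (nat_lit 2473601925604128)) C.nil))) C.nil) (List.cons (C.big (C.cons (nat_lit 391) (C.big C.nil C.nil) C.nil) C.nil) (List.cons (C.big C.nil C.nil) (List.cons (C.node (nat_lit 0) (nat_lit 1) (nat_lit 3) (C.cons (nat_lit 1035) (C.node (nat_lit 0) (nat_lit 1) (nat_lit 5) (C.cons (nat_lit 35) (C.node (nat_lit 0) (nat_lit 3) (nat_lit 5) (C.cons (nat_lit 41) (C.node (nat_lit 0) (nat_lit 5) (nat_lit 10) (C.cons (nat_lit 1057) (C.node (nat_lit 0) (nat_lit 1) (nat_lit 8) (C.cons (nat_lit 387) (C.node (nat_lit 0) (nat_lit 2) (nat_lit 8) C.nil) (C.cons (nat_lit 263) (C.pat (nat_lit 1) (nat_lit 1555449889) (nat_lit 21366643920317923562934493740157705985)) C.nil))) C.nil)) C.nil)) C.nil)) (C.cons (nat_lit 43) (C.pat (nat_lit 1) (nat_lit 650425649) (nat_lit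 10981795724808156963824564579004387553)) (C.cons (nat_lit 11) (C.node (nat_lit 0) (nat_lit 1) (nat_lit 5) (C.cons (nat_lit 1059) (C.node (nat_lit 0) (nat_lit 5) (nat_lit 3) (C.cons (nat_lit 41) (C.node (nat_lit 0) (nat_lit 3) (nat_lit 10) (C.cons (nat_lit 1033) (C.node (nat_lit 0) (nat_lit 1) (nat_lit 9) (C.cons (nat_lit 643) (C.node (nat_lit 0) (nat_lit 2) (nat_lit 9) C.nil) (C.cons (nat_lit 519) (C.pat (nat_lit 1) (nat_lit 1002727713) (nat_lit 10981882241961594870365108209003601665)) C.nil))) C.nil)) C.nil)) (C.cons (nat_lit 35) (C.node (nat_lit 0) (nat_lit 1) (nat_lit 10) (C.cons (nat_lit 1027) (C.node (nat_lit 0) (nat_lit 3) (nat_lit 5) (C.cons (nat_lit 1065) (C.node (nat_lit 0) (nat_lit 1) (nat_lit 8) (C.cons (nat_lit 387) (C.node (nat_lit 0) (nat_lit 2) (nat_lit 8) C.nil) (C.cons (nat_lit 263) (C.pat (nat_lit 1) (nat_lit 1555449889) (nat_lit 21366643920317923562934493740157705985)) C.nil))) C.nil)) C.nil)) C.nil))) C.nil)))) (List.cons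 (C.node (nat_lit 0) (nat_lit 1) (nat_lit 8) (C.cons (nat_lit 387) (C.node (nat_lit 0) (nat_lit 2) (nat_lit 8) (C.cons (nat_lit 261) (C.node (nat_lit 0) (nat_lit 1) (nat_lit 2) (C.cons (nat_lit 519) (C.node (nat_lit 0) (nat_lit 2) (nat_lit 7) (C.cons (nat_lit 133) (C.node (nat_lit 0) (nat_lit 7) (nat_lit 9) C.nil) C.nil)) (C.cons (nat_lit 7) (C.node (nat_lit 0) (nat_lit 2) (nat_lit 7) (C.cons (nat_lit 645) (C.node (nat_lit 0) (nat_lit 1) (nat_lit 9) (C.cons (nat_lit 547) (C.pat (nat_lit 2) (nat_lit 19480557173) (nat_lit 24731745909306718337267601363933030823739072257)) (C.cons (nat_lit 523) (C.node (nat_lit 0) (nat_lit 5) (nat_lit 9) C.nil) C.nil))) C.nil)) C.nil))) C.nil)) (C.cons (nat_lit 263) (C.pat (nat_lit 1) (nat_lit 1555449889) (nat_lit 21366643920317923562934493740157705985)) (C.cons (nat_lit 259) (C.node (nat_lit 0) (nat_lit 2) (nat_lit 8) (C.cons (nat_lit 389) (C.node (nat_lit 0) (nat_lit 1) (nat_lit 2) (C.cons (nat_lit 519)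 (C.node (nat_lit 0) (nat_lit 1) (nat_lit 7) (C.cons (nat_lit 131) (C.node (nat_lit 0) (nat_lit 7) (nat_lit 9) C.nil) C.nil)) (C.cons (nat_lit 7)
  (C.node (nat_lit 0) (nat_lit 2) (nat_lit 9) C.nil) C.nil))) (C.cons (nat_lit 261) (C.node (nat_lit 0) (nat_lit 7) (nat_lit 8) C.nil) C.nil))) C.nil)))) (List.cons (C.node (nat_lit 0) (nat_lit 3) (nat_lit 8) (C.cons (nat_lit 267) (C.pat (nat_lit 2) (nat_lit 35803808692) (nat_lit 5955018676040281952578734956991022700009427169)) (C.cons (nat_lit 265) (C.node (nat_lit 0) (nat_lit 7) (nat_lit 10) (C.cons (nat_lit 1155) (C.pat (nat_lit 0) (nat_lit 128674881) (nat_lit 628839149684784198159566960267283)) (C.cons (nat_lit 1153) (C.ref (nat_lit 143) (nat_lit 3582863703552528)) C.nil))) C.nil))) (List.cons (C.node (nat_lit 0) (nat_lit 1) (nat_lit 8) (C.cons (nat_lit 387) (C.node (nat_lit 0) (nat_lit 2) (nat_lit 8) (C.cons (nat_lit 261) (C.node (nat_lit 0) (nat_lit 2) (nat_lit 7) (C.cons (nat_lit 645)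 (C.node (nat_lit 0) (nat_lit 1) (nat_lit 2) (C.cons (nat_lit 39) (C.pat (nat_lit 2) (nat_lit 23808164452) (nat_lit 870448761657340103685782295590277142107463425)) (C.cons (nat_lit 7) (C.node (nat_lit 0) (nat_lit 2) (nat_lit 5) (C.cons (nat_lit 37) (C.node (nat_lit 0) (nat_lit 1) (nat_lit 9) (C.cons (nat_lit 547) (C.node (nat_lit 0) (nat_lit 3) (nat_lit 9) C.nil) (C.cons (nat_lit 523) (C.pat (nat_lit 2) (nat_lit 28070495347) (nat_lit 24731745909306886303389983686273098548789190401)) C.nil))) C.nil)) C.nil))) (C.cons (nat_lit 133) (C.node (nat_lit 0) (nat_lit 7) (nat_lit 9) (C.cons (nat_lit 641) (C.node (nat_lit 0) (nat_lit 1) (nat_lit 2) (C.cons (nat_lit 519) (C.node (nat_lit 0) (nat_lit 2) (nat_lit 5) C.nil) (C.cons (nat_lit 39) (C.pat (nat_lit 2) (nat_lit 23808164452) (nat_lit 870448761657340103685782295590277142107463425)) C.nil))) C.nil)) C.nil))) C.nil)) (C.cons (nat_lit 263) (C.pat (nat_lit 1) (nat_lit 1002727457) (nat_lit 10981882241961590147998624239846760193))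 (C.cons (nat_lit 259) (C.node (nat_lit 0) (nat_lit 2) (nat_lit 8) (C.cons (nat_lit 389) (C.node (nat_lit 0) (nat_lit 1) (nat_lit 7) (C.cons (nat_lit 643) (C.node (nat_lit 0) (nat_lit 1) (nat_lit 2) (C.cons (nat_lit 39) (C.pat (nat_lit 2) (nat_lit 23808164452) (nat_lit 870448761657340103685782295590277142107463425)) (C.cons (nat_lit 7) (C.node (nat_lit 0) (nat_lit 2) (nat_lit 5) (C.cons (nat_lit 549) (C.node (nat_lit 0) (nat_lit 3) (nat_lit 9) (C.cons (nat_lit 521) (C.node (nat_lit 0) (nat_lit 1) (nat_lit 3) (C.cons (nat_lit 1035) (C.node (nat_lit 0) (nat_lit 1) (nat_lit 5) C.nil) (C.cons (nat_lit 43) (C.pat (nat_lit 1) (nat_lit 2355840305) (nat_lit 21366930409353575142284960991156965601)) C.nil))) C.nil)) (C.cons (nat_lit 37) (C.node (nat_lit 0) (nat_lit 2) (nat_lit 9) C.nil) C.nil))) C.nil))) (C.cons (nat_lit 131) (C.node (nat_lit 0) (nat_lit 7) (nat_lit 9) (C.cons (nat_lit 641) (C.node (nat_lit 0) (nat_lit 1) (nat_lit 2) (C.cons (nat_lit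 519) (C.node (nat_lit 0) (nat_lit 2) (nat_lit 5) C.nil) (C.cons (nat_lit 39) (C.pat (nat_lit 2) (nat_lit 23808164452) (nat_lit 870448761657340103685782295590277142107463425)) C.nil))) C.nil)) C.nil))) (C.cons (nat_lit 261) (C.node (nat_lit 0) (nat_lit 7) (nat_lit 8) (C.cons (nat_lit 385) (C.node (nat_lit 0) (nat_lit 1) (nat_lit 7) (C.cons (nat_lit 643) (C.node (nat_lit 0) (nat_lit 2) (nat_lit 7) C.nil) (C.cons (nat_lit 135) (C.node (nat_lit 0) (nat_lit 7) (nat_lit 9) C.nil) C.nil))) C.nil)) C.nil))) C.nil)))) (List.cons (C.node (nat_lit 0) (nat_lit 1) (nat_lit 3) (C.cons (nat_lit 1035) (C.node (nat_lit 0) (nat_lit 3) (nat_lit 5) (C.cons (nat_lit 41) (C.node (nat_lit 0) (nat_lit 5) (nat_lit 10) (C.cons (nat_lit 1057) (C.node (nat_lit 0) (nat_lit 1) (nat_lit 5) (C.cons (nat_lit 547) (C.node (nat_lit 0) (nat_lit 2) (nat_lit 5) C.nil) (C.cons (nat_lit 39) (C.node (nat_lit 0) (nat_lit 5) (nat_lit 9) C.nil) C.nil))) C.nil)) C.nil)) (C.cons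 (nat_lit 43) (C.node (nat_lit 0) (nat_lit 1) (nat_lit 10) (C.cons (nat_lit 1027) (C.node (nat_lit 0) (nat_lit 3) (nat_lit 10) (C.cons (nat_lit 1033) (C.node (nat_lit 0) (nat_lit 5) (nat_lit 10) C.nil) C.nil)) C.nil)) (C.cons (nat_lit 11) (C.node (nat_lit 0) (nat_lit 1) (nat_lit 10) (C.cons (nat_lit 1059)
  (C.node (nat_lit 0) (nat_lit 3) (nat_lit 5) (C.cons (nat_lit 41) (C.node (nat_lit 0) (nat_lit 3) (nat_lit 10) C.nil) C.nil)) (C.cons (nat_lit 1027) (C.node (nat_lit 0) (nat_lit 3) (nat_lit 5) (C.cons (nat_lit 1065) (C.node (nat_lit 0) (nat_lit 1) (nat_lit 5) (C.cons (nat_lit 547) (C.node (nat_lit 0) (nat_lit 2) (nat_lit 5) C.nil) (C.cons (nat_lit 39) (C.node (nat_lit 0) (nat_lit 5) (nat_lit 9) C.nil) C.nil))) C.nil)) C.nil))) C.nil)))) (List.cons (C.node (nat_lit 0) (nat_lit 3) (nat_lit 8) (C.cons (nat_lit 267) (C.node (nat_lit 0) (nat_lit 2) (nat_lit 8) (C.cons (nat_lit 389) (C.node (nat_lit 0) (nat_lit 3) (nat_lit 5) (C.cons (nat_lit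 1065) (C.pat (nat_lit 1) (nat_lit 1487174706) (nat_lit 2019827643900393240754883855054872321)) (C.cons (nat_lit 41) (C.node (nat_lit 0) (nat_lit 3) (nat_lit 10) (C.cons (nat_lit 1033) (C.node (nat_lit 0) (nat_lit 5) (nat_lit 10) (C.cons (nat_lit 1059) (C.pat (nat_lit 2) (nat_lit 43538433412) (nat_lit 23616580022656330114575782959914176652694851597)) (C.cons (nat_lit 1057) (C.node (nat_lit 0) (nat_lit 1) (nat_lit 10) (C.cons (nat_lit 1155) (C.pat (nat_lit 0) (nat_lit 128674881) (nat_lit 628839149684784198159566960267283)) (C.cons (nat_lit 1027) (C.node (nat_lit 0) (nat_lit 7) (nat_lit 10) C.nil) C.nil))) C.nil))) C.nil)) C.nil))) (C.cons (nat_lit 261) (C.node (nat_lit 0) (nat_lit 7) (nat_lit 8) (C.cons (nat_lit 385) (C.node (nat_lit 0) (nat_lit 3) (nat_lit 5) (C.cons (nat_lit 1065) (C.node (nat_lit 0) (nat_lit 1) (nat_lit 10) (C.cons (nat_lit 1155) (C.pat (nat_lit 0) (nat_lit 128674881) (nat_lit 628839149684784198159566960267283)) (C.cons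 (nat_lit 1027) (C.node (nat_lit 0) (nat_lit 7) (nat_lit 10) (C.cons (nat_lit 1153) (C.node (nat_lit 0) (nat_lit 1) (nat_lit 5) (C.cons (nat_lit 547) (C.node (nat_lit 0) (nat_lit 2) (nat_lit 5) C.nil) (C.cons (nat_lit 39) (C.pat (nat_lit 1) (nat_lit 2823566625) (nat_lit 1386972100129424086673915949769097521)) C.nil))) C.nil)) C.nil))) (C.cons (nat_lit 41) (C.node (nat_lit 0) (nat_lit 3) (nat_lit 10) (C.cons (nat_lit 1033) (C.node (nat_lit 0) (nat_lit 5) (nat_lit 10) (C.cons (nat_lit 1059) (C.node (nat_lit 0) (nat_lit 7) (nat_lit 10) C.nil) C.nil)) C.nil)) C.nil))) C.nil)) C.nil))) (C.cons (nat_lit 265) (C.node (nat_lit 0) (nat_lit 7) (nat_lit 10) (C.cons (nat_lit 1155) (C.pat (nat_lit 0) (nat_lit 128674881) (nat_lit 628839149684784198159566960267283)) (C.cons (nat_lit 1153) (C.ref (nat_lit 146) (nat_lit 3582863703552528)) C.nil))) C.nil))) (List.cons (C.node (nat_lit 0) (nat_lit 3) (nat_lit 8) (C.cons (nat_lit 267) (C.node (nat_lit 0)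 (nat_lit 2) (nat_lit 8) (C.cons (nat_lit 389) (C.node (nat_lit 0) (nat_lit 3) (nat_lit 9) (C.cons (nat_lit 553) (C.node (nat_lit 0) (nat_lit 3) (nat_lit 10) (C.cons (nat_lit 1033) (C.node (nat_lit 0) (nat_lit 2) (nat_lit 5) (C.cons (nat_lit 39) (C.pat (nat_lit 1) (nat_lit 1954792737) (nat_lit 21366475954379372489537778207307923761)) (C.cons (nat_lit 37) (C.node (nat_lit 0) (nat_lit 1) (nat_lit 2) (C.cons (nat_lit 519) (C.pat (nat_lit 2) (nat_lit 40116732291) (nat_lit 11574219129462405036273063128359287805260271841)) C.nil)) C.nil))) C.nil)) (C.cons (nat_lit 521) (C.node (nat_lit 0) (nat_lit 3) (nat_lit 5) (C.cons (nat_lit 1065) (C.pat (nat_lit 1) (nat_lit 1487174706) (nat_lit 2019827643900393240754883855054872321)) (C.cons (nat_lit 41) (C.node (nat_lit 0) (nat_lit 3) (nat_lit 10) C.nil) C.nil))) C.nil))) (C.cons (nat_lit 261) (C.node (nat_lit 0) (nat_lit 7) (nat_lit 8) (C.cons (nat_lit 385) (C.node (nat_lit 0) (nat_lit 3) (nat_lit 9)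 (C.cons (nat_lit 553) (C.node (nat_lit 0) (nat_lit 3) (nat_lit 10) C.nil) C.nil)) C.nil)) C.nil))) (C.cons (nat_lit 265) (C.node (nat_lit 0) (nat_lit 7) (nat_lit 10) (C.cons (nat_lit 1155) (C.pat (nat_lit 0) (nat_lit 128674881) (nat_lit 628839149684784198159566960267283)) (C.cons (nat_lit 1153) (C.node (nat_lit 0) (nat_lit 1) (nat_lit 8) (C.cons (nat_lit 387) (C.node (nat_lit 0) (nat_lit 2) (nat_lit 8) C.nil) (C.cons (nat_lit 263)
  (C.node (nat_lit 0) (nat_lit 7) (nat_lit 8) C.nil) C.nil))) C.nil))) C.nil))) (List.cons (C.node (nat_lit 0) (nat_lit 2) (nat_lit 8) (C.cons (nat_lit 263) (C.node (nat_lit 0) (nat_lit 1) (nat_lit 11) (C.cons (nat_lit 2083) (C.node (nat_lit 0) (nat_lit 2) (nat_lit 5) (C.cons (nat_lit 37) (C.node (nat_lit 0) (nat_lit 2) (nat_lit 11) (C.cons (nat_lit 2053) (C.node (nat_lit 0) (nat_lit 3) (nat_lit 5) (C.cons (nat_lit 553) (C.node (nat_lit 0) (nat_lit 1) (nat_lit 3) (C.cons (nat_lit 75) (C.pat (nat_lit 3) (nat_lit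 23813307457) (nat_lit 96364220825580812494013215000891479651949154323)) (C.cons (nat_lit 11) (C.node (nat_lit 0) (nat_lit 1) (nat_lit 6) (C.cons (nat_lit 579) (C.pat (nat_lit 5) (nat_lit 778603932273) (nat_lit 177001392025310881613391376862099649132717478113)) C.nil)) C.nil))) (C.cons (nat_lit 41) (C.node (nat_lit 0) (nat_lit 5) (nat_lit 9) C.nil) C.nil))) C.nil)) C.nil)) (C.cons (nat_lit 2051) (C.node (nat_lit 0) (nat_lit 2) (nat_lit 5) (C.cons (nat_lit 2085) (C.node (nat_lit 0) (nat_lit 3) (nat_lit 8) (C.cons (nat_lit 329) (C.pat (nat_lit 1) (nat_lit 2237971506) (nat_lit 10825963115975527601962010580291752161)) (C.cons (nat_lit 265) (C.node (nat_lit 0) (nat_lit 6) (nat_lit 8) (C.cons (nat_lit 321) (C.node (nat_lit 0) (nat_lit 1) (nat_lit 5) (C.cons (nat_lit 547) (C.node (nat_lit 0) (nat_lit 3) (nat_lit 5) C.nil) (C.cons (nat_lit 43) (C.pat (nat_lit 1) (nat_lit 3091998001) (nat_lit 1366202912695303592146119839942770993)) C.nil))) C.nil))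 C.nil))) (C.cons (nat_lit 37) (C.node (nat_lit 0) (nat_lit 2) (nat_lit 11) (C.cons (nat_lit 2053) (C.node (nat_lit 0) (nat_lit 5) (nat_lit 11) C.nil) C.nil)) C.nil))) C.nil))) (C.cons (nat_lit 261) (C.ref (nat_lit 146) (nat_lit 3566370777473808)) C.nil))) (List.cons (C.node (nat_lit 0) (nat_lit 2) (nat_lit 8) (C.cons (nat_lit 263) (C.node (nat_lit 0) (nat_lit 1) (nat_lit 11) (C.cons (nat_lit 2083) (C.node (nat_lit 0) (nat_lit 2) (nat_lit 11) (C.cons (nat_lit 2053) (C.node (nat_lit 0) (nat_lit 2) (nat_lit 5) (C.cons (nat_lit 549) (C.node (nat_lit 0) (nat_lit 3) (nat_lit 5) C.nil) C.nil)) C.nil)) (C.cons (nat_lit 2051) (C.node (nat_lit 0) (nat_lit 2) (nat_lit 9) (C.cons (nat_lit 549) (C.node (nat_lit 0) (nat_lit 2) (nat_lit 11) C.nil) C.nil)) C.nil))) (C.cons (nat_lit 261) (C.node (nat_lit 0) (nat_lit 1) (nat_lit 8) (C.cons (nat_lit 323) (C.node (nat_lit 0) (nat_lit 3) (nat_lit 8) C.nil) (C.cons (nat_lit 267) (C.node (nat_lit 0) (nat_lit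 6) (nat_lit 8) C.nil) C.nil))) C.nil))) List.nil)))))))))))))))))

theorem ok13_134 : okL par13 (nat_lit 151) c13_134 (nat_lit 134) = true := by decide +kernel

noncomputable def c13_151 : List C :=
  (List.cons (C.node (nat_lit 0) (nat_lit 3) (nat_lit 5) (C.cons (nat_lit 553) (C.node (nat_lit 0) (nat_lit 6) (nat_lit 9) (C.cons (nat_lit 579) (C.node (nat_lit 0) (nat_lit 1) (nat_lit 3) (C.cons (nat_lit 267) (C.node (nat_lit 0) (nat_lit 3) (nat_lit 6) (C.cons (nat_lit 73) (C.node (nat_lit 0) (nat_lit 6) (nat_lit 8) (C.cons (nat_lit 321) (C.node (nat_lit 0) (nat_lit 1) (nat_lit 2) (C.cons (nat_lit 135) (C.pat (nat_lit 1) (nat_lit 3160033057) (nat_lit 21366930408076984452292946790146445537)) (C.cons (nat_lit 7) (C.node (nat_lit 0) (nat_lit 1) (nat_lit 7) C.nil) C.nil))) C.nil)) C.nil)) (C.cons (nat_lit 11) (C.node (nat_lit 0) (nat_lit 2) (nat_lit 9) (C.cons (nat_lit 645) (C.pat (nat_lit 0) (nat_lit 127622194) (nat_lit 628839149684784041657289473855501))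 (C.cons (nat_lit 517) (C.node (nat_lit 0) (nat_lit 7) (nat_lit 9) (C.cons (nat_lit 641) (C.node (nat_lit 0) (nat_lit 3) (nat_lit 6) (C.cons (nat_lit 329) (C.pat (nat_lit 1) (nat_lit 2237971506) (nat_lit 10825963115975527601962010580291752161)) C.nil)) C.nil)) C.nil))) C.nil))) (C.cons (nat_lit 577) (C.node (nat_lit 0) (nat_lit 1) (nat_lit 3) (C.cons (nat_lit 267) (C.node (nat_lit 0) (nat_lit 1) (nat_lit 6) (C.cons (nat_lit 67) (C.node (nat_lit 0) (nat_lit 3) (nat_lit 6) (C.cons (nat_lit 73) (C.node (nat_lit 0) (nat_lit 6) (nat_lit 8) C.nil) C.nil)) C.nil)) (C.cons (nat_lit 75) (C.node (nat_lit 0) (nat_lit 3) (nat_lit 8) (C.cons (nat_lit 265) (C.node (nat_lit 0) (nat_lit 6) (nat_lit 8) (C.cons (nat_lit 321) (C.node (nat_lit 0) (nat_lit 1) (nat_lit 8) (C.cons (nat_lit 387) (C.node (nat_lit 0) (nat_lit 2) (nat_lit 8) C.nil) (C.cons (nat_lit 263) (C.pat (nat_lit 2) (nat_lit 6630524482) (nat_lit 1673304852963366292138903701045980272602193665))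 C.nil))) C.nil)) C.nil)) (C.cons (nat_lit 11) (C.node (nat_lit 0) (nat_lit 1) (nat_lit 6) (C.cons (nat_lit 323) (C.pat (nat_lit 0) (nat_lit 109730881) (nat_lit 628839149664640127321621372538899)) (C.cons (nat_lit 67) (C.node (nat_lit 0) (nat_lit 3) (nat_lit 6) (C.cons (nat_lit 329) (C.pat (nat_lit 1) (nat_lit 2237971506) (nat_lit 10825963115975527601962010580291752161)) C.nil)) C.nil))) C.nil)))) C.nil))) (C.cons (nat_lit 41) (C.node (nat_lit 0) (nat_lit 5) (nat_lit 9) (C.cons (nat_lit 545) (C.node (nat_lit 0) (nat_lit 2) (nat_lit 8) (C.cons (nat_lit 389) (C.node (nat_lit 0) (nat_lit 1) (nat_lit 2) (C.cons (nat_lit 519) (C.node (nat_lit 0) (nat_lit 1) (nat_lit 7) (C.cons (nat_lit 131) (C.node (nat_lit 0) (nat_lit 7) (nat_lit 9) C.nil) C.nil)) (C.cons (nat_lit 7) (C.node (nat_lit 0) (nat_lit 2) (nat_lit 9) C.nil) C.nil))) (C.cons (nat_lit 263) (C.node (nat_lit 0) (nat_lit 7) (nat_lit 8) (C.cons (nat_lit 385) (C.node (nat_lit 0) (nat_lit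 1) (nat_lit 7) (C.cons (nat_lit 643) (C.node (nat_lit 0) (nat_lit 2) (nat_lit 7) C.nil) C.nil)) C.nil)) (C.cons (nat_lit 261) (C.node (nat_lit 0) (nat_lit 7) (nat_lit 8) (C.cons (nat_lit 387) (C.node (nat_lit 0) (nat_lit 1) (nat_lit 2) (C.cons (nat_lit 519) (C.node (nat_lit 0) (nat_lit 2) (nat_lit 7) C.nil) C.nil)) C.nil)) C.nil)))) C.nil)) C.nil))) (List.cons (C.node (nat_lit 0) (nat_lit 2) (nat_lit 5) (C.cons (nat_lit 549) (C.node (nat_lit 0) (nat_lit 3) (nat_lit 5) (C.cons (nat_lit 41) (C.node (nat_lit 0) (nat_lit 7) (nat_lit 9) (C.cons (nat_lit 643) (C.node (nat_lit 0) (nat_lit 1) (nat_lit 2) (C.cons (nat_lit 263) (C.node (nat_lit 0) (nat_lit 2) (nat_lit 7) C.nil) C.nil)) C.nil)) C.nil)) (C.cons (nat_lit 37) (C.node (nat_lit 0) (nat_lit 3) (nat_lit 5) (C.cons (nat_lit 553) (C.node (nat_lit 0) (nat_lit 6) (nat_lit 9) (C.cons (nat_lit 579) (C.node (nat_lit 0) (nat_lit 1) (nat_lit 3) (C.cons (nat_lit 267) (C.node (nat_lit 0) (nat_lit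 3) (nat_lit 6) C.nil) C.nil)) C.nil)) C.nil)) C.nil))) (List.cons (C.node (nat_lit 0) (nat_lit 1) (nat_lit 5) (C.cons (nat_lit 547) (C.node (nat_lit 0) (nat_lit 2) (nat_lit 5) (C.cons (nat_lit 37) (C.node (nat_lit 0) (nat_lit 2) (nat_lit 9) (C.cons (nat_lit 645) (C.node (nat_lit 0) (nat_lit 1) (nat_lit 2) (C.cons (nat_lit 263)
  (C.node (nat_lit 0) (nat_lit 1) (nat_lit 7) C.nil) C.nil)) C.nil)) C.nil)) (C.cons (nat_lit 39) (C.node (nat_lit 0) (nat_lit 5) (nat_lit 9) (C.cons (nat_lit 545) (C.node (nat_lit 0) (nat_lit 2) (nat_lit 8) (C.cons (nat_lit 389) (C.pat (nat_lit 1) (nat_lit 1487174706) (nat_lit 2019827643900393240754883855054872321)) C.nil)) C.nil)) (C.cons (nat_lit 35) (C.node (nat_lit 0) (nat_lit 2) (nat_lit 5) (C.cons (nat_lit 549) (C.node (nat_lit 0) (nat_lit 7) (nat_lit 9) (C.cons (nat_lit 643) (C.node (nat_lit 0) (nat_lit 1) (nat_lit 2) (C.cons (nat_lit 263) (C.node (nat_lit 0) (nat_lit 2) (nat_lit 7) C.nil) C.nil)) C.nil))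 C.nil)) C.nil)))) (List.cons (C.node (nat_lit 0) (nat_lit 1) (nat_lit 10) (C.cons (nat_lit 1059) (C.node (nat_lit 0) (nat_lit 3) (nat_lit 10) (C.cons (nat_lit 1033) (C.node (nat_lit 0) (nat_lit 1) (nat_lit 11) (C.cons (nat_lit 2055) (C.node (nat_lit 0) (nat_lit 5) (nat_lit 11) (C.cons (nat_lit 2081) (C.node (nat_lit 0) (nat_lit 2) (nat_lit 5) (C.cons (nat_lit 549) (C.node (nat_lit 0) (nat_lit 3) (nat_lit 5) (C.cons (nat_lit 41) (C.node (nat_lit 0) (nat_lit 2) (nat_lit 7) (C.cons (nat_lit 389) (C.node (nat_lit 0) (nat_lit 1) (nat_lit 7) (C.cons (nat_lit 643) (C.node (nat_lit 0) (nat_lit 3) (nat_lit 9) (C.cons (nat_lit 585) (C.node (nat_lit 0) (nat_lit 1) (nat_lit 3) (C.cons (nat_lit 267) (C.pat (nat_lit 2) (nat_lit 28322153587) (nat_lit 24731658798350182538928257657571828352014688001)) (C.cons (nat_lit 11) (C.node (nat_lit 0) (nat_lit 3) (nat_lit 8) (C.cons (nat_lit 265) (C.node (nat_lit 0) (nat_lit 1) (nat_lit 6) (C.cons (nat_lit 323)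 (C.pat (nat_lit 0) (nat_lit 109730881) (nat_lit 628839149664640127321621372538899)) C.nil)) C.nil)) C.nil))) (C.cons (nat_lit 521) (C.node (nat_lit 0) (nat_lit 6) (nat_lit 9) (C.cons (nat_lit 577) (C.node (nat_lit 0) (nat_lit 1) (nat_lit 3) (C.cons (nat_lit 267) (C.pat (nat_lit 2) (nat_lit 43538433412) (nat_lit 23616580022656330114575782959914176652694851597)) (C.cons (nat_lit 75) (C.node (nat_lit 0) (nat_lit 1) (nat_lit 8) C.nil) C.nil))) C.nil)) C.nil))) (C.cons (nat_lit 131) (C.node (nat_lit 0) (nat_lit 7) (nat_lit 9) (C.cons (nat_lit 641) (C.node (nat_lit 0) (nat_lit 1) (nat_lit 8) (C.cons (nat_lit 323) (C.pat (nat_lit 0) (nat_lit 109730881) (nat_lit 628839149664640127321621372538899)) (C.cons (nat_lit 267) (C.pat (nat_lit 2) (nat_lit 43538433412) (nat_lit 23616580022656330114575782959914176652694851597)) C.nil))) C.nil)) C.nil))) (C.cons (nat_lit 133) (C.node (nat_lit 0) (nat_lit 2) (nat_lit 8) (C.cons (nat_lit 261) (C.node (nat_lit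 0) (nat_lit 7) (nat_lit 8) (C.cons (nat_lit 387) (C.node (nat_lit 0) (nat_lit 7) (nat_lit 9) C.nil) C.nil)) C.nil)) C.nil))) C.nil)) (C.cons (nat_lit 37) (C.node (nat_lit 0) (nat_lit 2) (nat_lit 8) (C.cons (nat_lit 389) (C.node (nat_lit 0) (nat_lit 2) (nat_lit 9) (C.cons (nat_lit 517) (C.node (nat_lit 0) (nat_lit 1) (nat_lit 7) (C.cons (nat_lit 643) (C.node (nat_lit 0) (nat_lit 3) (nat_lit 5) (C.cons (nat_lit 553) (C.node (nat_lit 0) (nat_lit 6) (nat_lit 9) (C.cons (nat_lit 577) (C.node (nat_lit 0) (nat_lit 1) (nat_lit 3) (C.cons (nat_lit 267) (C.pat (nat_lit 1) (nat_lit 1553418289) (nat_lit 21366643918538384756030539947920924417)) (C.cons (nat_lit 75) (C.node (nat_lit 0) (nat_lit 1) (nat_lit 8) C.nil) C.nil))) C.nil)) (C.cons (nat_lit 41) (C.node (nat_lit 0) (nat_lit 5) (nat_lit 9) C.nil) C.nil))) (C.cons (nat_lit 131) (C.node (nat_lit 0) (nat_lit 7) (nat_lit 9) C.nil) C.nil))) C.nil)) (C.cons (nat_lit 261) (C.node (nat_lit 0) (nat_lit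 2) (nat_lit 7) (C.cons (nat_lit 645) (C.node (nat_lit 0) (nat_lit 1) (nat_lit 7) (C.cons (nat_lit 387) (C.node (nat_lit 0) (nat_lit 3) (nat_lit 5) (C.cons (nat_lit 553) (C.node (nat_lit 0) (nat_lit 1) (nat_lit 3) (C.cons (nat_lit 75) (C.pat (nat_lit 5) (nat_lit 419392101411) (nat_lit 96364220829755337242667922514879305085735995399)) (C.cons (nat_lit 11) (C.node (nat_lit 0) (nat_lit 1) (nat_lit 6) (C.cons (nat_lit 579)
  (C.pat (nat_lit 1) (nat_lit 2090224417) (nat_lit 21366643918461048478627870811236933377)) C.nil)) C.nil))) (C.cons (nat_lit 41) (C.node (nat_lit 0) (nat_lit 5) (nat_lit 9) C.nil) C.nil))) (C.cons (nat_lit 131) (C.node (nat_lit 0) (nat_lit 7) (nat_lit 8) C.nil) C.nil))) (C.cons (nat_lit 133) (C.node (nat_lit 0) (nat_lit 2) (nat_lit 9) C.nil) C.nil))) C.nil))) C.nil))) C.nil)) (C.cons (nat_lit 2051) (C.node (nat_lit 0) (nat_lit 2) (nat_lit 11) (C.cons (nat_lit 2085) (C.ref (nat_lit 151) (nat_lit 3582863703552528)) (C.cons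 (nat_lit 2053) (C.node (nat_lit 0) (nat_lit 5) (nat_lit 11) (C.cons (nat_lit 2081) (C.ref (nat_lit 152) (nat_lit 3582863703552528)) C.nil)) C.nil))) C.nil))) C.nil)) (C.cons (nat_lit 1035) (C.node (nat_lit 0) (nat_lit 5) (nat_lit 10) (C.cons (nat_lit 1057) (C.node (nat_lit 0) (nat_lit 3) (nat_lit 5) (C.cons (nat_lit 553) (C.node (nat_lit 0) (nat_lit 3) (nat_lit 6) (C.cons (nat_lit 329) (C.node (nat_lit 0) (nat_lit 1) (nat_lit 6) (C.cons (nat_lit 579) (C.node (nat_lit 0) (nat_lit 2) (nat_lit 9) (C.cons (nat_lit 645) (C.node (nat_lit 0) (nat_lit 1) (nat_lit 7) (C.cons (nat_lit 387) (C.pat (nat_lit 1) (nat_lit 1820805681) (nat_lit 21366643918228914577328383045427339009)) (C.cons (nat_lit 131) (C.node (nat_lit 0) (nat_lit 7) (nat_lit 8) (C.cons (nat_lit 385) (C.node (nat_lit 0) (nat_lit 1) (nat_lit 8) (C.cons (nat_lit 263) (C.pat (nat_lit 2) (nat_lit 32618169442) (nat_lit 49084052137871300754231226347404959967977217793)) (C.cons (nat_lit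 259) (C.node (nat_lit 0) (nat_lit 2) (nat_lit 8) (C.cons (nat_lit 261) (C.node (nat_lit 0) (nat_lit 1) (nat_lit 2) (C.cons (nat_lit 2055) (C.pat (nat_lit 0) (nat_lit 80362273) (nat_lit 628836586741903615054868917192711)) (C.cons (nat_lit 39) (C.pat (nat_lit 1) (nat_lit 3376047393) (nat_lit 3006968716268858845805501874626167337)) C.nil))) C.nil)) C.nil))) C.nil)) C.nil))) (C.cons (nat_lit 517) (C.node (nat_lit 0) (nat_lit 7) (nat_lit 9) (C.cons (nat_lit 641) (C.node (nat_lit 0) (nat_lit 1) (nat_lit 5) (C.cons (nat_lit 2083) (C.node (nat_lit 0) (nat_lit 2) (nat_lit 5) (C.cons (nat_lit 37) (C.node (nat_lit 0) (nat_lit 2) (nat_lit 11) (C.cons (nat_lit 2053) (C.node (nat_lit 0) (nat_lit 1) (nat_lit 2) (C.cons (nat_lit 263) (C.pat (nat_lit 2) (nat_lit 48084993412) (nat_lit 46452541744510682716242435103432997144255074317)) (C.cons (nat_lit 135) (C.node (nat_lit 0) (nat_lit 1) (nat_lit 8) C.nil) C.nil))) C.nil)) C.nil)) (C.cons (nat_lit 39)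 (C.pat (nat_lit 1) (nat_lit 3376047393) (nat_lit 3006968716268858845805501874626167337)) (C.cons (nat_lit 35) (C.node (nat_lit 0) (nat_lit 1) (nat_lit 11) (C.cons (nat_lit 2055) (C.pat (nat_lit 0) (nat_lit 80362273) (nat_lit 628836586741903615054868917192711)) (C.cons (nat_lit 2051) (C.node (nat_lit 0) (nat_lit 2) (nat_lit 5) (C.cons (nat_lit 2085) (C.pat (nat_lit 1) (nat_lit 2237971506) (nat_lit 10825963115975527601962010580291752161)) C.nil)) C.nil))) C.nil)))) C.nil)) C.nil))) (C.cons (nat_lit 67) (C.node (nat_lit 0) (nat_lit 6) (nat_lit 9) (C.cons (nat_lit 577) (C.node (nat_lit 0) (nat_lit 1) (nat_lit 5) (C.cons (nat_lit 2083) (C.node (nat_lit 0) (nat_lit 2) (nat_lit 5) (C.cons (nat_lit 37) (C.node (nat_lit 0) (nat_lit 2) (nat_lit 11) (C.cons (nat_lit 2053) (C.node (nat_lit 0) (nat_lit 1) (nat_lit 8) (C.cons (nat_lit 387) (C.pat (nat_lit 0) (nat_lit 126573633) (nat_lit 628839149684783971850387147919379)) (C.cons (nat_lit 263) (C.pat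 (nat_lit 2) (nat_lit 48084993412) (nat_lit 46452541744510682716242435103432997144255074317)) C.nil))) C.nil)) C.nil)) (C.cons (nat_lit 39) (C.node (nat_lit 0) (nat_lit 1) (nat_lit 11) (C.cons (nat_lit 2051) (C.node (nat_lit 0) (nat_lit 2) (nat_lit 11) (C.cons (nat_lit 2053) (C.node (nat_lit 0) (nat_lit 5) (nat_lit 11) C.nil) C.nil)) C.nil)) (C.cons (nat_lit 35) (C.node (nat_lit 0) (nat_lit 1) (nat_lit 11) (C.cons (nat_lit 2055) (C.pat (nat_lit 0) (nat_lit 80362273) (nat_lit 628836586741903615054868917192711)) (C.cons (nat_lit 2051) (C.node (nat_lit 0) (nat_lit 2) (nat_lit 5) (C.cons (nat_lit 2085)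
  (C.pat (nat_lit 1) (nat_lit 2237971506) (nat_lit 10825963115975527601962010580291752161)) C.nil)) C.nil))) C.nil)))) C.nil)) C.nil))) (C.cons (nat_lit 73) (C.node (nat_lit 0) (nat_lit 3) (nat_lit 8) (C.cons (nat_lit 265) (C.node (nat_lit 0) (nat_lit 6) (nat_lit 8) (C.cons (nat_lit 323) (C.node (nat_lit 0) (nat_lit 6) (nat_lit 9) (C.cons (nat_lit 577) (C.node (nat_lit 0) (nat_lit 2) (nat_lit 8) (C.cons (nat_lit 389) (C.node (nat_lit 0) (nat_lit 1) (nat_lit 7) (C.cons (nat_lit 643) (C.pat (nat_lit 4) (nat_lit 174639400771) (nat_lit 11599987579787756435748386603545696526720435082170387)) (C.cons (nat_lit 131) (C.node (nat_lit 0) (nat_lit 7) (nat_lit 9) C.nil) C.nil))) (C.cons (nat_lit 261) (C.node (nat_lit 0) (nat_lit 7) (nat_lit 8) C.nil) C.nil))) C.nil)) (C.cons (nat_lit 321) (C.node (nat_lit 0) (nat_lit 1) (nat_lit 6) (C.cons (nat_lit 579) (C.node (nat_lit 0) (nat_lit 2) (nat_lit 9) (C.cons (nat_lit 645) (C.node (nat_lit 0) (nat_lit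 1) (nat_lit 7) (C.cons (nat_lit 387) (C.node (nat_lit 0) (nat_lit 2) (nat_lit 8) (C.cons (nat_lit 261) (C.node (nat_lit 0) (nat_lit 1) (nat_lit 2) (C.cons (nat_lit 2055) (C.pat (nat_lit 0) (nat_lit 80362273) (nat_lit 628836586741903615054868917192711)) (C.cons (nat_lit 39) (C.pat (nat_lit 1) (nat_lit 3376047393) (nat_lit 3006968716268858845805501874626167337)) C.nil))) C.nil)) (C.cons (nat_lit 131) (C.node (nat_lit 0) (nat_lit 7) (nat_lit 8) C.nil) C.nil))) (C.cons (nat_lit 517) (C.node (nat_lit 0) (nat_lit 7) (nat_lit 9) C.nil) C.nil))) (C.cons (nat_lit 67) (C.node (nat_lit 0) (nat_lit 6) (nat_lit 9) C.nil) C.nil))) C.nil))) C.nil)) C.nil))) (C.cons (nat_lit 41) (C.node (nat_lit 0) (nat_lit 3) (nat_lit 8) (C.cons (nat_lit 329) (C.node (nat_lit 0) (nat_lit 3) (nat_lit 9) (C.cons (nat_lit 521) (C.node (nat_lit 0) (nat_lit 1) (nat_lit 6) (C.cons (nat_lit 579) (C.node (nat_lit 0) (nat_lit 5) (nat_lit 9) (C.cons (nat_lit 549) (C.node (nat_lit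 0) (nat_lit 7) (nat_lit 9) (C.cons (nat_lit 641) (C.node (nat_lit 0) (nat_lit 1) (nat_lit 5) (C.cons (nat_lit 2083) (C.node (nat_lit 0) (nat_lit 2) (nat_lit 11) (C.cons (nat_lit 2053) (C.node (nat_lit 0) (nat_lit 1) (nat_lit 2) (C.cons (nat_lit 263) (C.pat (nat_lit 1) (nat_lit 1553352737) (nat_lit 21366643918461013503574077763581452033)) (C.cons (nat_lit 135) (C.node (nat_lit 0) (nat_lit 1) (nat_lit 8) C.nil) C.nil))) C.nil)) (C.cons (nat_lit 35) (C.node (nat_lit 0) (nat_lit 5) (nat_lit 11) C.nil) C.nil))) C.nil)) (C.cons (nat_lit 545) (C.node (nat_lit 0) (nat_lit 2) (nat_lit 9) (C.cons (nat_lit 645) (C.node (nat_lit 0) (nat_lit 1) (nat_lit 7) (C.cons (nat_lit 387) (C.pat (nat_lit 1) (nat_lit 1820805681) (nat_lit 21366643918228914577328383045427339009)) (C.cons (nat_lit 131) (C.node (nat_lit 0) (nat_lit 7) (nat_lit 8) C.nil) C.nil))) (C.cons (nat_lit 517) (C.node (nat_lit 0) (nat_lit 7) (nat_lit 9) C.nil) C.nil))) C.nil))) (C.cons (nat_lit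 67) (C.node (nat_lit 0) (nat_lit 6) (nat_lit 9) (C.cons (nat_lit 577) (C.node (nat_lit 0) (nat_lit 1) (nat_lit 8) (C.cons (nat_lit 387) (C.pat (nat_lit 1) (nat_lit 1820805681) (nat_lit 21366643918228914577328383045427339009)) (C.cons (nat_lit 263) (C.node (nat_lit 0) (nat_lit 7) (nat_lit 8) C.nil) C.nil))) C.nil)) C.nil))) C.nil)) (C.cons (nat_lit 265) (C.node (nat_lit 0) (nat_lit 3) (nat_lit 6) (C.cons (nat_lit 585) (C.node (nat_lit 0) (nat_lit 1) (nat_lit 6) (C.cons (nat_lit 323) (C.node (nat_lit 0) (nat_lit 2) (nat_lit 8) (C.cons (nat_lit 389) (C.node (nat_lit 0) (nat_lit 1) (nat_lit 7) (C.cons (nat_lit 643) (C.pat (nat_lit 1) (nat_lit 1821854257) (nat_lit 21366643918538399587221785708190048001)) (C.cons (nat_lit 131) (C.node (nat_lit 0) (nat_lit 7) (nat_lit 9) (C.cons (nat_lit 641) (C.node (nat_lit 0) (nat_lit 1) (nat_lit 9) (C.cons (nat_lit 547) (C.node (nat_lit 0) (nat_lit 2) (nat_lit 9) C.nil) (C.cons (nat_lit 519) (C.pat (nat_lit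 2) (nat_lit 32366511202) (nat_lit 49084139248828004518692952376106230164751720193)) C.nil))) C.nil)) C.nil))) (C.cons (nat_lit 261) (C.node (nat_lit 0) (nat_lit 7) (nat_lit 8)
  (C.cons (nat_lit 385) (C.node (nat_lit 0) (nat_lit 1) (nat_lit 7) (C.cons (nat_lit 643) (C.pat (nat_lit 1) (nat_lit 1821854257) (nat_lit 21366643918538399587221785708190048001)) (C.cons (nat_lit 135) (C.node (nat_lit 0) (nat_lit 7) (nat_lit 9) C.nil) C.nil))) C.nil)) C.nil))) (C.cons (nat_lit 67) (C.node (nat_lit 0) (nat_lit 6) (nat_lit 8) (C.cons (nat_lit 321) (C.node (nat_lit 0) (nat_lit 1) (nat_lit 8) (C.cons (nat_lit 387) (C.node (nat_lit 0) (nat_lit 2) (nat_lit 8) C.nil) (C.cons (nat_lit 263) (C.node (nat_lit 0) (nat_lit 7) (nat_lit 8) C.nil) C.nil))) C.nil)) C.nil))) (C.cons (nat_lit 73) (C.node (nat_lit 0) (nat_lit 3) (nat_lit 9) (C.cons (nat_lit 521) (C.node (nat_lit 0) (nat_lit 6) (nat_lit 8) (C.cons (nat_lit 323) (C.node (nat_lit 0) (nat_lit 6) (nat_lit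 9) C.nil) C.nil)) C.nil)) C.nil))) C.nil))) C.nil))) C.nil)) (C.cons (nat_lit 1027) (C.node (nat_lit 0) (nat_lit 3) (nat_lit 10) (C.cons (nat_lit 1065) (C.node (nat_lit 0) (nat_lit 1) (nat_lit 11) (C.cons (nat_lit 2083) (C.node (nat_lit 0) (nat_lit 2) (nat_lit 11) (C.cons (nat_lit 2053) (C.ref (nat_lit 151) (nat_lit 3566370777473808)) C.nil)) (C.cons (nat_lit 2055) (C.node (nat_lit 0) (nat_lit 5) (nat_lit 11) (C.cons (nat_lit 2081) (C.node (nat_lit 0) (nat_lit 1) (nat_lit 5) (C.cons (nat_lit 547) (C.node (nat_lit 0) (nat_lit 2) (nat_lit 5) (C.cons (nat_lit 37) (C.node (nat_lit 0) (nat_lit 1) (nat_lit 7) (C.cons (nat_lit 387) (C.node (nat_lit 0) (nat_lit 2) (nat_lit 8) (C.cons (nat_lit 261) (C.node (nat_lit 0) (nat_lit 1) (nat_lit 3) (C.cons (nat_lit 75) (C.node (nat_lit 0) (nat_lit 3) (nat_lit 8) (C.cons (nat_lit 265) (C.node (nat_lit 0) (nat_lit 3) (nat_lit 9) C.nil) C.nil)) (C.cons (nat_lit 11) (C.node (nat_lit 0) (nat_lit 1) (nat_lit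 6) C.nil) C.nil))) C.nil)) (C.cons (nat_lit 131) (C.node (nat_lit 0) (nat_lit 2) (nat_lit 8) (C.cons (nat_lit 389) (C.pat (nat_lit 1) (nat_lit 1487174706) (nat_lit 2019827643900393240754883855054872321)) (C.cons (nat_lit 261) (C.node (nat_lit 0) (nat_lit 7) (nat_lit 8) C.nil) C.nil))) C.nil))) C.nil)) (C.cons (nat_lit 35) (C.node (nat_lit 0) (nat_lit 2) (nat_lit 5) (C.cons (nat_lit 549) (C.node (nat_lit 0) (nat_lit 2) (nat_lit 7) (C.cons (nat_lit 389) (C.pat (nat_lit 1) (nat_lit 1487174706) (nat_lit 2019827643900393240754883855054872321)) (C.cons (nat_lit 133) (C.node (nat_lit 0) (nat_lit 2) (nat_lit 8) (C.cons (nat_lit 261) (C.node (nat_lit 0) (nat_lit 7) (nat_lit 8) (C.cons (nat_lit 387) (C.node (nat_lit 0) (nat_lit 7) (nat_lit 9) C.nil) C.nil)) C.nil)) C.nil))) (C.cons (nat_lit 37) (C.node (nat_lit 0) (nat_lit 5) (nat_lit 9) (C.cons (nat_lit 545) (C.node (nat_lit 0) (nat_lit 2) (nat_lit 8) (C.cons (nat_lit 389) (C.pat (nat_lit 1)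 (nat_lit 1487174706) (nat_lit 2019827643900393240754883855054872321)) C.nil)) C.nil)) C.nil))) C.nil))) C.nil)) (C.cons (nat_lit 2051) (C.node (nat_lit 0) (nat_lit 2) (nat_lit 11) (C.cons (nat_lit 2085) (C.node (nat_lit 0) (nat_lit 1) (nat_lit 5) (C.cons (nat_lit 547) (C.node (nat_lit 0) (nat_lit 2) (nat_lit 9) (C.cons (nat_lit 645) (C.node (nat_lit 0) (nat_lit 1) (nat_lit 2) (C.cons (nat_lit 263) (C.node (nat_lit 0) (nat_lit 1) (nat_lit 7) (C.cons (nat_lit 131) (C.node (nat_lit 0) (nat_lit 7) (nat_lit 8) (C.cons (nat_lit 385) (C.node (nat_lit 0) (nat_lit 1) (nat_lit 3) (C.cons (nat_lit 75) (C.pat (nat_lit 2) (nat_lit 6630524482) (nat_lit 1673304852963366292138903701045980272602193665)) (C.cons (nat_lit 11) (C.node (nat_lit 0) (nat_lit 1) (nat_lit 6) C.nil) C.nil))) C.nil)) C.nil)) (C.cons (nat_lit 7) (C.node (nat_lit 0) (nat_lit 2) (nat_lit 8) (C.cons (nat_lit 261) (C.node (nat_lit 0) (nat_lit 1) (nat_lit 7) (C.cons (nat_lit 387) (C.node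 (nat_lit 0) (nat_lit 1) (nat_lit 3) (C.cons (nat_lit 75) (C.pat (nat_lit 6) (nat_lit 232624845852) (nat_lit 6315157207996065822396422363515214259236785150427441)) (C.cons (nat_lit 11) (C.node (nat_lit 0) (nat_lit 1) (nat_lit 6) C.nil) C.nil))) (C.cons (nat_lit 131) (C.node (nat_lit 0) (nat_lit 7) (nat_lit 8) C.nil) C.nil))) C.nil)) C.nil))) (C.cons (nat_lit 517)
  (C.node (nat_lit 0) (nat_lit 7) (nat_lit 9) (C.cons (nat_lit 641) (C.node (nat_lit 0) (nat_lit 3) (nat_lit 9) (C.cons (nat_lit 585) (C.node (nat_lit 0) (nat_lit 1) (nat_lit 3) (C.cons (nat_lit 267) (C.node (nat_lit 0) (nat_lit 1) (nat_lit 6) (C.cons (nat_lit 67) (C.node (nat_lit 0) (nat_lit 6) (nat_lit 8) C.nil) C.nil)) (C.cons (nat_lit 11) (C.node (nat_lit 0) (nat_lit 3) (nat_lit 8) C.nil) C.nil))) (C.cons (nat_lit 521) (C.node (nat_lit 0) (nat_lit 6) (nat_lit 9) C.nil) C.nil))) C.nil)) C.nil))) (C.cons (nat_lit 35) (C.node (nat_lit 0) (nat_lit 5) (nat_lit 9) (C.cons (nat_lit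 545) (C.node (nat_lit 0) (nat_lit 2) (nat_lit 8) (C.cons (nat_lit 389) (C.pat (nat_lit 1) (nat_lit 1487174706) (nat_lit 2019827643900393240754883855054872321)) (C.cons (nat_lit 263) (C.node (nat_lit 0) (nat_lit 7) (nat_lit 8) (C.cons (nat_lit 385) (C.node (nat_lit 0) (nat_lit 1) (nat_lit 7) (C.cons (nat_lit 643) (C.node (nat_lit 0) (nat_lit 2) (nat_lit 7) C.nil) C.nil)) C.nil)) (C.cons (nat_lit 261) (C.node (nat_lit 0) (nat_lit 7) (nat_lit 8) (C.cons (nat_lit 387) (C.node (nat_lit 0) (nat_lit 1) (nat_lit 2) (C.cons (nat_lit 519) (C.node (nat_lit 0) (nat_lit 2) (nat_lit 7) C.nil) C.nil)) C.nil)) C.nil)))) C.nil)) C.nil))) (C.cons (nat_lit 2053) (C.node (nat_lit 0) (nat_lit 5) (nat_lit 11) (C.cons (nat_lit 2081) (C.ref (nat_lit 153) (nat_lit 3582863703552528)) C.nil)) C.nil))) C.nil)))) (C.cons (nat_lit 1033) (C.node (nat_lit 0) (nat_lit 5) (nat_lit 10) (C.cons (nat_lit 1057) (C.node (nat_lit 0) (nat_lit 1) (nat_lit 11) (C.cons (nat_lit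 2083) (C.node (nat_lit 0) (nat_lit 2) (nat_lit 11) (C.cons (nat_lit 2053) (C.ref (nat_lit 152) (nat_lit 3566370777473808)) C.nil)) (C.cons (nat_lit 2055) (C.node (nat_lit 0) (nat_lit 5) (nat_lit 11) (C.cons (nat_lit 2081) (C.node (nat_lit 0) (nat_lit 2) (nat_lit 5) (C.cons (nat_lit 549) (C.node (nat_lit 0) (nat_lit 1) (nat_lit 5) (C.cons (nat_lit 43) (C.node (nat_lit 0) (nat_lit 2) (nat_lit 7) (C.cons (nat_lit 389) (C.node (nat_lit 0) (nat_lit 1) (nat_lit 7) (C.cons (nat_lit 643) (C.pat (nat_lit 1) (nat_lit 3342179105) (nat_lit 3338989224980248524555582435819325593)) (C.cons (nat_lit 131) (C.node (nat_lit 0) (nat_lit 7) (nat_lit 9) C.nil) C.nil))) (C.cons (nat_lit 133) (C.node (nat_lit 0) (nat_lit 2) (nat_lit 8) C.nil) C.nil))) (C.cons (nat_lit 35) (C.node (nat_lit 0) (nat_lit 3) (nat_lit 5) C.nil) C.nil))) (C.cons (nat_lit 37) (C.node (nat_lit 0) (nat_lit 2) (nat_lit 8) (C.cons (nat_lit 389) (C.node (nat_lit 0) (nat_lit 2) (nat_lit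 9) C.nil) C.nil)) C.nil))) C.nil)) (C.cons (nat_lit 2051) (C.node (nat_lit 0) (nat_lit 2) (nat_lit 11) (C.cons (nat_lit 2085) (C.ref (nat_lit 153) (nat_lit 3566370777473808)) (C.cons (nat_lit 2053) (C.node (nat_lit 0) (nat_lit 5) (nat_lit 11) C.nil) C.nil))) C.nil)))) C.nil)) C.nil))) C.nil)))) (List.cons (C.node (nat_lit 0) (nat_lit 7) (nat_lit 10) (C.cons (nat_lit 1155) (C.node (nat_lit 0) (nat_lit 3) (nat_lit 10) (C.cons (nat_lit 1065) (C.node (nat_lit 0) (nat_lit 7) (nat_lit 8) (C.cons (nat_lit 389) (C.pat (nat_lit 1) (nat_lit 1487174706) (nat_lit 2019827643900393240754883855054872321)) (C.cons (nat_lit 385) (C.node (nat_lit 0) (nat_lit 2) (nat_lit 7) (C.cons (nat_lit 645) (C.node (nat_lit 0) (nat_lit 2) (nat_lit 8) (C.cons (nat_lit 263) (C.pat (nat_lit 2) (nat_lit 35820651172) (nat_lit 5865489018877772563382143063483559175194480865)) (C.cons (nat_lit 261) (C.node (nat_lit 0) (nat_lit 5) (nat_lit 9) (C.cons (nat_lit 547) (C.pat (nat_lit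 2) (nat_lit 39247462823) (nat_lit 12198870030075907712899367591667040543301636109)) (C.cons (nat_lit 545) (C.ref (nat_lit 142) (nat_lit 3566370777473808)) C.nil))) C.nil))) (C.cons (nat_lit 133) (C.node (nat_lit 0) (nat_lit 7) (nat_lit 9) (C.cons (nat_lit 641) (C.node (nat_lit 0) (nat_lit 2) (nat_lit 8) (C.cons (nat_lit 263) (C.pat (nat_lit 2) (nat_lit 35820651172) (nat_lit 5865489018877772563382143063483559175194480865)) (C.cons (nat_lit 261) (C.ref (nat_lit 143) (nat_lit 3566370777473808)) C.nil))) C.nil)) C.nil))) C.nil))) (C.cons (nat_lit 1033)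
  (C.node (nat_lit 0) (nat_lit 5) (nat_lit 10) (C.cons (nat_lit 1057) (C.node (nat_lit 0) (nat_lit 7) (nat_lit 8) (C.cons (nat_lit 389) (C.node (nat_lit 0) (nat_lit 7) (nat_lit 9) (C.cons (nat_lit 641) (C.ref (nat_lit 145) (nat_lit 3566370777473808)) C.nil)) (C.cons (nat_lit 385) (C.node (nat_lit 0) (nat_lit 2) (nat_lit 7) (C.cons (nat_lit 645) (C.ref (nat_lit 149) (nat_lit 3582863703552528)) (C.cons (nat_lit 133) (C.node (nat_lit 0) (nat_lit 7) (nat_lit 9) (C.cons (nat_lit 641) (C.ref (nat_lit 150) (nat_lit 3582863703552528)) C.nil)) C.nil))) C.nil))) C.nil)) C.nil))) (C.cons (nat_lit 1153) (C.ref (nat_lit 154) (nat_lit 3582863703552528)) C.nil))) (List.cons (C.node (nat_lit 0) (nat_lit 6) (nat_lit 11) (C.cons (nat_lit 2115) (C.node (nat_lit 0) (nat_lit 2) (nat_lit 11) (C.cons (nat_lit 2085) (C.node (nat_lit 0) (nat_lit 6) (nat_lit 8) (C.cons (nat_lit 329) (C.pat (nat_lit 1) (nat_lit 2237971506) (nat_lit 10825963115975527601962010580291752161))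 (C.cons (nat_lit 321) (C.node (nat_lit 0) (nat_lit 3) (nat_lit 6) (C.cons (nat_lit 585) (C.node (nat_lit 0) (nat_lit 3) (nat_lit 8) (C.cons (nat_lit 267) (C.pat (nat_lit 2) (nat_lit 35803808692) (nat_lit 5955018676040281952578734956991022700009427169)) (C.cons (nat_lit 265) (C.node (nat_lit 0) (nat_lit 5) (nat_lit 9) (C.cons (nat_lit 547) (C.pat (nat_lit 2) (nat_lit 39499121078) (nat_lit 12199217123760155239652130897009907841307447309)) (C.cons (nat_lit 545) (C.node (nat_lit 0) (nat_lit 7) (nat_lit 10) (C.cons (nat_lit 1155) (C.pat (nat_lit 0) (nat_lit 128674881) (nat_lit 628839149684784198159566960267283)) (C.cons (nat_lit 1153) (C.ref (nat_lit 142) (nat_lit 3582863703552528)) C.nil))) C.nil))) C.nil))) (C.cons (nat_lit 73) (C.node (nat_lit 0) (nat_lit 6) (nat_lit 9) (C.cons (nat_lit 577) (C.ref (nat_lit 144) (nat_lit 3582863703552528)) C.nil)) C.nil))) C.nil))) (C.cons (nat_lit 2053) (C.node (nat_lit 0) (nat_lit 5) (nat_lit 11) (C.cons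 (nat_lit 2081) (C.node (nat_lit 0) (nat_lit 6) (nat_lit 8) (C.cons (nat_lit 329) (C.node (nat_lit 0) (nat_lit 6) (nat_lit 9) (C.cons (nat_lit 577) (C.node (nat_lit 0) (nat_lit 7) (nat_lit 10) (C.cons (nat_lit 1155) (C.pat (nat_lit 0) (nat_lit 128674881) (nat_lit 628839149684784198159566960267283)) (C.cons (nat_lit 1153) (C.ref (nat_lit 145) (nat_lit 3582863703552528)) C.nil))) C.nil)) (C.cons (nat_lit 321) (C.node (nat_lit 0) (nat_lit 3) (nat_lit 6) (C.cons (nat_lit 585) (C.ref (nat_lit 147) (nat_lit 3582863703552528)) (C.cons (nat_lit 73) (C.node (nat_lit 0) (nat_lit 6) (nat_lit 9) (C.cons (nat_lit 577) (C.ref (nat_lit 148) (nat_lit 3582863703552528)) C.nil)) C.nil))) C.nil))) C.nil)) C.nil))) (C.cons (nat_lit 2113) (C.ref (nat_lit 155) (nat_lit 3582863703552528)) C.nil))) (List.cons (C.node (nat_lit 0) (nat_lit 1) (nat_lit 10) (C.cons (nat_lit 1059) (C.node (nat_lit 0) (nat_lit 3) (nat_lit 10) (C.cons (nat_lit 1033) (C.node (nat_lit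 0) (nat_lit 5) (nat_lit 8) (C.cons (nat_lit 297) (C.node (nat_lit 0) (nat_lit 5) (nat_lit 9) C.nil) C.nil)) C.nil)) (C.cons (nat_lit 1035) (C.node (nat_lit 0) (nat_lit 5) (nat_lit 10) (C.cons (nat_lit 1057) (C.node (nat_lit 0) (nat_lit 3) (nat_lit 8) (C.cons (nat_lit 297) (C.node (nat_lit 0) (nat_lit 3) (nat_lit 9) C.nil) C.nil)) C.nil)) (C.cons (nat_lit 1027) (C.node (nat_lit 0) (nat_lit 3) (nat_lit 10) (C.cons (nat_lit 1065) (C.node (nat_lit 0) (nat_lit 3) (nat_lit 8) (C.cons (nat_lit 267) (C.node (nat_lit 0) (nat_lit 3) (nat_lit 9) C.nil) C.nil)) C.nil)) C.nil)))) List.nil)))))))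

theorem ok13_151 : okL par13 (nat_lit 158) c13_151 (nat_lit 151) = true := by decide +kernel

noncomputable def c13_158 : List C :=
  (List.cons (C.node (nat_lit 0) (nat_lit 1) (nat_lit 10) (C.cons (nat_lit 1059) (C.node (nat_lit 0) (nat_lit 3) (nat_lit 10) (C.cons (nat_lit 1033) (C.node (nat_lit 0) (nat_lit 1) (nat_lit 3) (C.cons (nat_lit 523) (C.node (nat_lit 0) (nat_lit 3) (nat_lit 5) C.nil) C.nil)) C.nil)) (C.cons (nat_lit 1035) (C.node (nat_lit 0) (nat_lit 5) (nat_lit 10) (C.cons (nat_lit 1057) (C.node (nat_lit 0) (nat_lit 3) (nat_lit 5) (C.cons (nat_lit 553) (C.node (nat_lit 0) (nat_lit 1) (nat_lit 5) (C.cons (nat_lit 291) (C.node (nat_lit 0) (nat_lit 2) (nat_lit 5) C.nil) (C.cons (nat_lit 39) (C.node (nat_lit 0) (nat_lit 5) (nat_lit 8) C.nil) C.nil))) C.nil)) C.nil)) (C.cons (nat_lit 1027) (C.node (nat_lit 0) (nat_lit 3) (nat_lit 10) (C.cons (nat_lit 1065) (C.node (nat_lit 0) (nat_lit 1) (nat_lit 3) (C.cons (nat_lit 523) (C.node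 (nat_lit 0) (nat_lit 5) (nat_lit 9) (C.cons (nat_lit 549) (C.node (nat_lit 0) (nat_lit 7) (nat_lit 9) C.nil) C.nil)) C.nil)) C.nil)) C.nil)))) (List.cons (C.node (nat_lit 0) (nat_lit 2) (nat_lit 7) (C.cons (nat_lit 389) (C.node (nat_lit 0) (nat_lit 2) (nat_lit 5) (C.cons (nat_lit 549) (C.node (nat_lit 0) (nat_lit 3) (nat_lit 5) (C.cons (nat_lit 297) (C.node (nat_lit 0) (nat_lit 1) (nat_lit 3) (C.cons (nat_lit 75) (C.pat (nat_lit 5) (nat_lit 419392097315) (nat_lit 96364220829755337242667917792512822216074004487)) (C.cons (nat_lit 11) (C.node (nat_lit 0) (nat_lit 1) (nat_lit 6) (C.cons (nat_lit 323) (C.pat (nat_lit 1) (nat_lit 2089175841) (nat_lit 21366643918151563468734468148474224385)) C.nil)) C.nil))) (C.cons (nat_lit 41) (C.node (nat_lit 0) (nat_lit 5) (nat_lit 8) C.nil) C.nil))) (C.cons (nat_lit 37) (C.node (nat_lit 0) (nat_lit 2) (nat_lit 9) C.nil) C.nil))) (C.cons (nat_lit 133) (C.node (nat_lit 0) (nat_lit 7) (nat_lit 8) C.nil)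 C.nil))) (List.cons (C.node (nat_lit 0) (nat_lit 5) (nat_lit 8) (C.cons (nat_lit 297) (C.node (nat_lit 0) (nat_lit 5) (nat_lit 9) (C.cons (nat_lit 545) (C.node (nat_lit 0) (nat_lit 6) (nat_lit 8) (C.cons (nat_lit 323) (C.node (nat_lit 0) (nat_lit 1) (nat_lit 3) (C.cons (nat_lit 523) (C.node (nat_lit 0) (nat_lit 3) (nat_lit 6) C.nil) C.nil)) C.nil)) C.nil)) (C.cons (nat_lit 289) (C.node (nat_lit 0) (nat_lit 3) (nat_lit 5) (C.cons (nat_lit 553) (C.node (nat_lit 0) (nat_lit 6) (nat_lit 9) (C.cons (nat_lit 579) (C.node (nat_lit 0) (nat_lit 1) (nat_lit 3) (C.cons (nat_lit 267) (C.node (nat_lit 0) (nat_lit 3) (nat_lit 6) C.nil) C.nil)) C.nil)) C.nil)) C.nil))) (List.cons (C.node (nat_lit 0) (nat_lit 3) (nat_lit 6) (C.cons (nat_lit 329) (C.node (nat_lit 0) (nat_lit 3) (nat_lit 5) (C.cons (nat_lit 553) (C.node (nat_lit 0) (nat_lit 2) (nat_lit 9) (C.cons (nat_lit 645) (C.node (nat_lit 0) (nat_lit 1) (nat_lit 7) (C.cons (nat_lit 387) (C.pat (nat_lit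 1) (nat_lit 1820805681) (nat_lit 21366643918228914577328383045427339009)) (C.cons (nat_lit 131) (C.node (nat_lit 0) (nat_lit 7) (nat_lit 8) (C.cons (nat_lit 385) (C.node (nat_lit 0) (nat_lit 1) (nat_lit 8) (C.cons (nat_lit 291) (C.node (nat_lit 0) (nat_lit 2) (nat_lit 8) C.nil) (C.cons (nat_lit 263) (C.pat (nat_lit 2) (nat_lit 32618169442) (nat_lit 49084052137871300754231226347404959967977217793)) C.nil))) C.nil)) C.nil))) (C.cons (nat_lit 517) (C.node (nat_lit 0) (nat_lit 7) (nat_lit 9) (C.cons (nat_lit 641) (C.node (nat_lit 0) (nat_lit 1) (nat_lit 7) (C.cons (nat_lit 387) (C.pat (nat_lit 1) (nat_lit 1820805681) (nat_lit 21366643918228914577328383045427339009)) (C.cons (nat_lit 135) (C.node (nat_lit 0) (nat_lit 7) (nat_lit 8) C.nil) C.nil))) C.nil)) C.nil))) (C.cons (nat_lit 41) (C.node (nat_lit 0) (nat_lit 3) (nat_lit 9) (C.cons (nat_lit 521) (C.node (nat_lit 0) (nat_lit 5) (nat_lit 9) (C.cons (nat_lit 549) (C.node (nat_lit 0) (nat_lit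 7) (nat_lit 9) C.nil) C.nil)) C.nil)) C.nil))) (C.cons (nat_lit 73) (C.node (nat_lit 0) (nat_lit 6) (nat_lit 8) (C.cons (nat_lit 321) (C.node (nat_lit 0) (nat_lit 3) (nat_lit 8) (C.cons (nat_lit 297) (C.node (nat_lit 0) (nat_lit 3) (nat_lit 9) C.nil) C.nil)) C.nil)) C.nil))) (List.cons
  (C.node (nat_lit 0) (nat_lit 1) (nat_lit 10) (C.cons (nat_lit 1059) (C.node (nat_lit 0) (nat_lit 3) (nat_lit 10) (C.cons (nat_lit 1033) (C.node (nat_lit 0) (nat_lit 1) (nat_lit 11) (C.cons (nat_lit 2055) (C.node (nat_lit 0) (nat_lit 5) (nat_lit 11) (C.cons (nat_lit 2081) (C.node (nat_lit 0) (nat_lit 1) (nat_lit 7) (C.cons (nat_lit 643) (C.ref (nat_lit 159) (nat_lit 3582863703552528)) (C.cons (nat_lit 387) (C.ref (nat_lit 159) (nat_lit 3582799279043088)) (C.cons (nat_lit 131) (C.node (nat_lit 0) (nat_lit 7) (nat_lit 8) (C.cons (nat_lit 389) (C.node (nat_lit 0) (nat_lit 7) (nat_lit 9) C.nil) C.nil)) C.nil)))) C.nil)) (C.cons (nat_lit 2051) (C.node (nat_lit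 0) (nat_lit 2) (nat_lit 11) (C.cons (nat_lit 2085) (C.ref (nat_lit 160) (nat_lit 3582863703552528)) (C.cons (nat_lit 2053) (C.node (nat_lit 0) (nat_lit 5) (nat_lit 11) C.nil) C.nil))) C.nil))) C.nil)) (C.cons (nat_lit 1035) (C.node (nat_lit 0) (nat_lit 5) (nat_lit 10) (C.cons (nat_lit 1057) (C.node (nat_lit 0) (nat_lit 1) (nat_lit 6) (C.cons (nat_lit 579) (C.ref (nat_lit 161) (nat_lit 3582863703552528)) (C.cons (nat_lit 323) (C.ref (nat_lit 161) (nat_lit 3582799279043088)) (C.cons (nat_lit 67) (C.node (nat_lit 0) (nat_lit 6) (nat_lit 8) (C.cons (nat_lit 329) (C.node (nat_lit 0) (nat_lit 6) (nat_lit 9) (C.cons (nat_lit 577) (C.node (nat_lit 0) (nat_lit 3) (nat_lit 5) (C.cons (nat_lit 553) (C.node (nat_lit 0) (nat_lit 1) (nat_lit 9) (C.cons (nat_lit 643) (C.node (nat_lit 0) (nat_lit 2) (nat_lit 9) C.nil) (C.cons (nat_lit 519) (C.node (nat_lit 0) (nat_lit 7) (nat_lit 9) C.nil) C.nil))) C.nil)) C.nil)) (C.cons (nat_lit 321) (C.node (nat_lit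 0) (nat_lit 3) (nat_lit 6) (C.cons (nat_lit 585) (C.node (nat_lit 0) (nat_lit 3) (nat_lit 5) (C.cons (nat_lit 297) (C.node (nat_lit 0) (nat_lit 1) (nat_lit 8) (C.cons (nat_lit 387) (C.node (nat_lit 0) (nat_lit 2) (nat_lit 8) C.nil) (C.cons (nat_lit 263) (C.node (nat_lit 0) (nat_lit 7) (nat_lit 8) C.nil) C.nil))) C.nil)) C.nil)) C.nil))) C.nil)))) C.nil)) (C.cons (nat_lit 1027) (C.node (nat_lit 0) (nat_lit 3) (nat_lit 10) (C.cons (nat_lit 1065) (C.node (nat_lit 0) (nat_lit 1) (nat_lit 11) (C.cons (nat_lit 2083) (C.node (nat_lit 0) (nat_lit 2) (nat_lit 11) (C.cons (nat_lit 2053) (C.ref (nat_lit 160) (nat_lit 3566370777473808)) C.nil)) (C.cons (nat_lit 2055) (C.node (nat_lit 0) (nat_lit 5) (nat_lit 11) (C.cons (nat_lit 2081) (C.node (nat_lit 0) (nat_lit 1) (nat_lit 5) (C.cons (nat_lit 547) (C.node (nat_lit 0) (nat_lit 1) (nat_lit 7) (C.cons (nat_lit 387) (C.node (nat_lit 0) (nat_lit 1) (nat_lit 3) (C.cons (nat_lit 75) (C.node (nat_lit 0)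 (nat_lit 3) (nat_lit 8) (C.cons (nat_lit 265) (C.node (nat_lit 0) (nat_lit 3) (nat_lit 9) C.nil) C.nil)) (C.cons (nat_lit 11) (C.node (nat_lit 0) (nat_lit 1) (nat_lit 6) C.nil) C.nil))) (C.cons (nat_lit 131) (C.node (nat_lit 0) (nat_lit 2) (nat_lit 5) (C.cons (nat_lit 293) (C.node (nat_lit 0) (nat_lit 7) (nat_lit 8) C.nil) C.nil)) C.nil))) (C.cons (nat_lit 291) (C.node (nat_lit 0) (nat_lit 1) (nat_lit 7) (C.cons (nat_lit 643) (C.node (nat_lit 0) (nat_lit 1) (nat_lit 3) (C.cons (nat_lit 75) (C.node (nat_lit 0) (nat_lit 3) (nat_lit 9) (C.cons (nat_lit 521) (C.node (nat_lit 0) (nat_lit 3) (nat_lit 8) C.nil) C.nil)) (C.cons (nat_lit 11) (C.node (nat_lit 0) (nat_lit 1) (nat_lit 6) C.nil) C.nil))) (C.cons (nat_lit 131) (C.node (nat_lit 0) (nat_lit 2) (nat_lit 5) (C.cons (nat_lit 549) (C.node (nat_lit 0) (nat_lit 7) (nat_lit 9) C.nil) C.nil)) C.nil))) (C.cons (nat_lit 35) (C.node (nat_lit 0) (nat_lit 5) (nat_lit 8) (C.cons (nat_lit 293) (C.node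 (nat_lit 0) (nat_lit 5) (nat_lit 9) C.nil) C.nil)) C.nil)))) C.nil)) (C.cons (nat_lit 2051) (C.node (nat_lit 0) (nat_lit 2) (nat_lit 11) (C.cons (nat_lit 2085) (C.node (nat_lit 0) (nat_lit 5) (nat_lit 8) (C.cons (nat_lit 291) (C.node (nat_lit 0) (nat_lit 5) (nat_lit 9) (C.cons (nat_lit 545) (C.node (nat_lit 0) (nat_lit 2) (nat_lit 8) (C.cons (nat_lit 389) (C.node (nat_lit 0) (nat_lit 1) (nat_lit 2) (C.cons (nat_lit 519)
  (C.node (nat_lit 0) (nat_lit 1) (nat_lit 7) C.nil) C.nil)) C.nil)) C.nil)) (C.cons (nat_lit 289) (C.node (nat_lit 0) (nat_lit 1) (nat_lit 5) (C.cons (nat_lit 547) (C.node (nat_lit 0) (nat_lit 2) (nat_lit 9) (C.cons (nat_lit 645) (C.node (nat_lit 0) (nat_lit 1) (nat_lit 2) (C.cons (nat_lit 263) (C.node (nat_lit 0) (nat_lit 1) (nat_lit 7) C.nil) C.nil)) C.nil)) C.nil)) C.nil))) (C.cons (nat_lit 2053) (C.node (nat_lit 0) (nat_lit 5) (nat_lit 11) C.nil) C.nil))) C.nil)))) (C.cons (nat_lit 1033) (C.node (nat_lit 0) (nat_lit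 5) (nat_lit 10) (C.cons (nat_lit 1057) (C.node (nat_lit 0) (nat_lit 1) (nat_lit 11) (C.cons (nat_lit 2083) (C.node (nat_lit 0) (nat_lit 2) (nat_lit 11) C.nil) (C.cons (nat_lit 2055) (C.node (nat_lit 0) (nat_lit 5) (nat_lit 11) C.nil) C.nil))) C.nil)) C.nil))) C.nil)))) (List.cons (C.node (nat_lit 0) (nat_lit 7) (nat_lit 10) (C.cons (nat_lit 1155) (C.node (nat_lit 0) (nat_lit 3) (nat_lit 10) (C.cons (nat_lit 1065) (C.node (nat_lit 0) (nat_lit 7) (nat_lit 8) (C.cons (nat_lit 389) (C.node (nat_lit 0) (nat_lit 7) (nat_lit 9) (C.cons (nat_lit 641) (C.node (nat_lit 0) (nat_lit 5) (nat_lit 8) (C.cons (nat_lit 291) (C.pat (nat_lit 2) (nat_lit 34965005767) (nat_lit 6490917136048067622897041419822100428317852757)) (C.cons (nat_lit 289) (C.ref (nat_lit 143) (nat_lit 3038605142872848)) C.nil))) C.nil)) (C.cons (nat_lit 385) (C.node (nat_lit 0) (nat_lit 2) (nat_lit 7) (C.cons (nat_lit 645) (C.node (nat_lit 0) (nat_lit 5) (nat_lit 9) (C.cons (nat_lit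 547) (C.pat (nat_lit 2) (nat_lit 39259973063) (nat_lit 12199907906871907147130190019986563843494052949)) (C.cons (nat_lit 545) (C.ref (nat_lit 143) (nat_lit 3038540718363408)) C.nil))) (C.cons (nat_lit 133) (C.node (nat_lit 0) (nat_lit 7) (nat_lit 9) (C.cons (nat_lit 641) (C.ref (nat_lit 157) (nat_lit 3566370777473808)) C.nil)) C.nil))) C.nil))) (C.cons (nat_lit 1033) (C.node (nat_lit 0) (nat_lit 5) (nat_lit 10) (C.cons (nat_lit 1057) (C.node (nat_lit 0) (nat_lit 7) (nat_lit 8) (C.cons (nat_lit 389) (C.node (nat_lit 0) (nat_lit 7) (nat_lit 9) (C.cons (nat_lit 641) (C.ref (nat_lit 158) (nat_lit 3566370777473808)) C.nil)) (C.cons (nat_lit 385) (C.node (nat_lit 0) (nat_lit 2) (nat_lit 7) (C.cons (nat_lit 645) (C.ref (nat_lit 158) (nat_lit 3566306352964368)) (C.cons (nat_lit 133) (C.node (nat_lit 0) (nat_lit 7) (nat_lit 9) C.nil) C.nil))) C.nil))) C.nil)) C.nil))) (C.cons (nat_lit 1153) (C.ref (nat_lit 162) (nat_lit 3582863703552528)) C.nil)))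 (List.cons (C.node (nat_lit 0) (nat_lit 1) (nat_lit 8) (C.cons (nat_lit 387) (C.node (nat_lit 0) (nat_lit 2) (nat_lit 8) (C.cons (nat_lit 261) (C.node (nat_lit 0) (nat_lit 2) (nat_lit 7) (C.cons (nat_lit 645) (C.node (nat_lit 0) (nat_lit 1) (nat_lit 2) (C.cons (nat_lit 39) (C.node (nat_lit 0) (nat_lit 2) (nat_lit 3) C.nil) (C.cons (nat_lit 15) (C.node (nat_lit 0) (nat_lit 2) (nat_lit 5) C.nil) C.nil))) C.nil)) C.nil)) (C.cons (nat_lit 263) (C.node (nat_lit 0) (nat_lit 7) (nat_lit 8) (C.cons (nat_lit 385) (C.node (nat_lit 0) (nat_lit 1) (nat_lit 7) (C.cons (nat_lit 643) (C.node (nat_lit 0) (nat_lit 2) (nat_lit 7) C.nil) C.nil)) C.nil)) (C.cons (nat_lit 259) (C.node (nat_lit 0) (nat_lit 2) (nat_lit 8) (C.cons (nat_lit 389) (C.node (nat_lit 0) (nat_lit 1) (nat_lit 7) (C.cons (nat_lit 643) (C.node (nat_lit 0) (nat_lit 1) (nat_lit 2) (C.cons (nat_lit 39) (C.node (nat_lit 0) (nat_lit 1) (nat_lit 3) (C.cons (nat_lit 1035) (C.node (nat_lit 0)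 (nat_lit 5) (nat_lit 10) C.nil) C.nil)) (C.cons (nat_lit 15) (C.node (nat_lit 0) (nat_lit 1) (nat_lit 5) (C.cons (nat_lit 1059) (C.node (nat_lit 0) (nat_lit 3) (nat_lit 10) C.nil) C.nil)) C.nil))) C.nil)) C.nil)) C.nil)))) (List.cons (C.node (nat_lit 0) (nat_lit 1) (nat_lit 10) (C.cons (nat_lit 1059) (C.node (nat_lit 0) (nat_lit 3) (nat_lit 10) (C.cons (nat_lit 1033) (C.node (nat_lit 0) (nat_lit 3) (nat_lit 5) (C.cons (nat_lit 45) (C.node (nat_lit 0) (nat_lit 5) (nat_lit 9) C.nil) C.nil)) C.nil)) (C.cons (nat_lit 1035) (C.node (nat_lit 0) (nat_lit 5) (nat_lit 10) (C.cons (nat_lit 1057)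
  (C.node (nat_lit 0) (nat_lit 5) (nat_lit 3) (C.cons (nat_lit 45) (C.node (nat_lit 0) (nat_lit 3) (nat_lit 8) C.nil) C.nil)) C.nil)) (C.cons (nat_lit 1027) (C.node (nat_lit 0) (nat_lit 3) (nat_lit 10) (C.cons (nat_lit 1065) (C.node (nat_lit 0) (nat_lit 1) (nat_lit 3) (C.cons (nat_lit 267) (C.node (nat_lit 0) (nat_lit 2) (nat_lit 3) C.nil) (C.cons (nat_lit 15) (C.node (nat_lit 0) (nat_lit 3) (nat_lit 8) C.nil) C.nil))) C.nil)) C.nil)))) (List.cons (C.node (nat_lit 0) (nat_lit 3) (nat_lit 5) (C.cons (nat_lit 553) (C.node (nat_lit 0) (nat_lit 6) (nat_lit 9) (C.cons (nat_lit 579) (C.node (nat_lit 0) (nat_lit 2) (nat_lit 9) (C.cons (nat_lit 645) (C.node (nat_lit 0) (nat_lit 1) (nat_lit 7) (C.cons (nat_lit 387) (C.node (nat_lit 0) (nat_lit 1) (nat_lit 2) (C.cons (nat_lit 15) (C.pat (nat_lit 2) (nat_lit 13262035794) (nat_lit 49085410547572053105578238513864872572402074179)) (C.cons (nat_lit 7) (C.node (nat_lit 0) (nat_lit 1) (nat_lit 3) C.nil)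 C.nil))) (C.cons (nat_lit 131) (C.node (nat_lit 0) (nat_lit 7) (nat_lit 8) C.nil) C.nil))) (C.cons (nat_lit 517) (C.node (nat_lit 0) (nat_lit 7) (nat_lit 9) C.nil) C.nil))) (C.cons (nat_lit 577) (C.node (nat_lit 0) (nat_lit 1) (nat_lit 6) (C.cons (nat_lit 323) (C.pat (nat_lit 0) (nat_lit 109730881) (nat_lit 628839149664640127321621372538899)) (C.cons (nat_lit 75) (C.node (nat_lit 0) (nat_lit 6) (nat_lit 8) C.nil) C.nil))) C.nil))) (C.cons (nat_lit 41) (C.node (nat_lit 0) (nat_lit 5) (nat_lit 9) C.nil) C.nil))) (List.cons (C.node (nat_lit 0) (nat_lit 1) (nat_lit 10) (C.cons (nat_lit 1059) (C.node (nat_lit 0) (nat_lit 3) (nat_lit 10) (C.cons (nat_lit 1033) (C.node (nat_lit 0) (nat_lit 1) (nat_lit 11) (C.cons (nat_lit 2055) (C.node (nat_lit 0) (nat_lit 5) (nat_lit 11) (C.cons (nat_lit 2081) (C.node (nat_lit 0) (nat_lit 1) (nat_lit 7) (C.cons (nat_lit 643) (C.node (nat_lit 0) (nat_lit 2) (nat_lit 7) (C.cons (nat_lit 389) (C.node (nat_lit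 0) (nat_lit 6) (nat_lit 9) (C.cons (nat_lit 585) (C.node (nat_lit 0) (nat_lit 1) (nat_lit 3) (C.cons (nat_lit 267) (C.pat (nat_lit 5) (nat_lit 496446581780) (nat_lit 96364220827335895345091177583324511894411346187)) (C.cons (nat_lit 11) (C.node (nat_lit 0) (nat_lit 3) (nat_lit 8) C.nil) C.nil))) (C.cons (nat_lit 577) (C.node (nat_lit 0) (nat_lit 1) (nat_lit 3) (C.cons (nat_lit 267) (C.node (nat_lit 0) (nat_lit 1) (nat_lit 6) C.nil) (C.cons (nat_lit 75) (C.node (nat_lit 0) (nat_lit 1) (nat_lit 8) C.nil) C.nil))) C.nil))) (C.cons (nat_lit 133) (C.node (nat_lit 0) (nat_lit 7) (nat_lit 8) C.nil) C.nil))) (C.cons (nat_lit 387) (C.node (nat_lit 0) (nat_lit 2) (nat_lit 7) (C.cons (nat_lit 645) (C.node (nat_lit 0) (nat_lit 2) (nat_lit 5) (C.cons (nat_lit 45) (C.node (nat_lit 0) (nat_lit 2) (nat_lit 8) (C.cons (nat_lit 261) (C.node (nat_lit 0) (nat_lit 5) (nat_lit 9) C.nil) C.nil)) (C.cons (nat_lit 37) (C.node (nat_lit 0) (nat_lit 2) (nat_lit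 3) (C.cons (nat_lit 269) (C.node (nat_lit 0) (nat_lit 6) (nat_lit 8) C.nil) C.nil)) C.nil))) (C.cons (nat_lit 133) (C.node (nat_lit 0) (nat_lit 7) (nat_lit 9) C.nil) C.nil))) (C.cons (nat_lit 131) (C.node (nat_lit 0) (nat_lit 7) (nat_lit 8) (C.cons (nat_lit 389) (C.node (nat_lit 0) (nat_lit 7) (nat_lit 9) C.nil) C.nil)) C.nil)))) C.nil)) (C.cons (nat_lit 2051) (C.node (nat_lit 0) (nat_lit 2) (nat_lit 11) (C.cons (nat_lit 2085) (C.ref (nat_lit 166) (nat_lit 3582863703552528)) (C.cons (nat_lit 2053) (C.node (nat_lit 0) (nat_lit 5) (nat_lit 11) C.nil) C.nil))) C.nil))) C.nil)) (C.cons (nat_lit 1035) (C.node (nat_lit 0) (nat_lit 5) (nat_lit 10) (C.cons (nat_lit 1057) (C.node (nat_lit 0) (nat_lit 1) (nat_lit 6) (C.cons (nat_lit 579) (C.node (nat_lit 0) (nat_lit 3) (nat_lit 6) (C.cons (nat_lit 329) (C.node (nat_lit 0) (nat_lit 7) (nat_lit 9) (C.cons (nat_lit 645) (C.node (nat_lit 0) (nat_lit 1) (nat_lit 7) (C.cons (nat_lit 387) (C.pat (nat_lit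 1) (nat_lit 1820805681) (nat_lit 21366643918228914577328383045427339009)) (C.cons (nat_lit 131) (C.node (nat_lit 0) (nat_lit 7) (nat_lit 8) (C.cons (nat_lit 385)
  (C.node (nat_lit 0) (nat_lit 1) (nat_lit 8) (C.cons (nat_lit 263) (C.node (nat_lit 0) (nat_lit 1) (nat_lit 5) (C.cons (nat_lit 2083) (C.pat (nat_lit 5) (nat_lit 423448919060) (nat_lit 96364220827003501829064038731463314220727337223)) C.nil)) C.nil)) C.nil)) C.nil))) (C.cons (nat_lit 641) (C.node (nat_lit 0) (nat_lit 1) (nat_lit 5) (C.cons (nat_lit 2083) (C.node (nat_lit 0) (nat_lit 2) (nat_lit 11) (C.cons (nat_lit 2053) (C.node (nat_lit 0) (nat_lit 1) (nat_lit 2) (C.cons (nat_lit 263) (C.node (nat_lit 0) (nat_lit 1) (nat_lit 7) C.nil) (C.cons (nat_lit 135) (C.node (nat_lit 0) (nat_lit 1) (nat_lit 8) C.nil) C.nil))) C.nil)) (C.cons (nat_lit 39) (C.node (nat_lit 0) (nat_lit 1) (nat_lit 11) (C.cons (nat_lit 2051) (C.node (nat_lit 0) (nat_lit 2) (nat_lit 11) C.nil) C.nil)) (C.cons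 (nat_lit 35) (C.node (nat_lit 0) (nat_lit 1) (nat_lit 11) (C.cons (nat_lit 2055) (C.node (nat_lit 0) (nat_lit 5) (nat_lit 11) C.nil) C.nil)) C.nil)))) C.nil))) (C.cons (nat_lit 73) (C.node (nat_lit 0) (nat_lit 6) (nat_lit 8) (C.cons (nat_lit 321) (C.node (nat_lit 0) (nat_lit 3) (nat_lit 8) (C.cons (nat_lit 269) (C.node (nat_lit 0) (nat_lit 1) (nat_lit 8) (C.cons (nat_lit 387) (C.node (nat_lit 0) (nat_lit 2) (nat_lit 7) (C.cons (nat_lit 645) (C.node (nat_lit 0) (nat_lit 3) (nat_lit 5) (C.cons (nat_lit 553) (C.pat (nat_lit 4) (nat_lit 385643283316) (nat_lit 11599987580835842803566432944489618254346674728796547)) C.nil)) C.nil)) C.nil)) C.nil)) C.nil)) C.nil))) (C.cons (nat_lit 323) (C.node (nat_lit 0) (nat_lit 3) (nat_lit 6) (C.cons (nat_lit 585) (C.node (nat_lit 0) (nat_lit 3) (nat_lit 5) (C.cons (nat_lit 45) (C.node (nat_lit 0) (nat_lit 3) (nat_lit 8) (C.cons (nat_lit 265) (C.node (nat_lit 0) (nat_lit 2) (nat_lit 8) (C.cons (nat_lit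 389) (C.node (nat_lit 0) (nat_lit 1) (nat_lit 7) (C.cons (nat_lit 643) (C.pat (nat_lit 1) (nat_lit 1821854257) (nat_lit 21366643918538399587221785708190048001)) (C.cons (nat_lit 131) (C.node (nat_lit 0) (nat_lit 7) (nat_lit 9) C.nil) C.nil))) (C.cons (nat_lit 261) (C.node (nat_lit 0) (nat_lit 7) (nat_lit 8) C.nil) C.nil))) C.nil)) (C.cons (nat_lit 41) (C.node (nat_lit 0) (nat_lit 2) (nat_lit 3) (C.cons (nat_lit 269) (C.node (nat_lit 0) (nat_lit 7) (nat_lit 8) (C.cons (nat_lit 385) (C.node (nat_lit 0) (nat_lit 1) (nat_lit 7) (C.cons (nat_lit 643) (C.pat (nat_lit 1) (nat_lit 1821854257) (nat_lit 21366643918538399587221785708190048001)) (C.cons (nat_lit 135) (C.node (nat_lit 0) (nat_lit 7) (nat_lit 9) C.nil) C.nil))) C.nil)) (C.cons (nat_lit 13) (C.node (nat_lit 0) (nat_lit 3) (nat_lit 8) C.nil) C.nil))) C.nil))) (C.cons (nat_lit 73) (C.node (nat_lit 0) (nat_lit 6) (nat_lit 9) (C.cons (nat_lit 577) (C.node (nat_lit 0) (nat_lit 3) (nat_lit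 8) (C.cons (nat_lit 269) (C.node (nat_lit 0) (nat_lit 7) (nat_lit 8) C.nil) C.nil)) C.nil)) C.nil))) (C.cons (nat_lit 67) (C.node (nat_lit 0) (nat_lit 6) (nat_lit 8) (C.cons (nat_lit 329) (C.node (nat_lit 0) (nat_lit 6) (nat_lit 9) (C.cons (nat_lit 577) (C.node (nat_lit 0) (nat_lit 1) (nat_lit 8) (C.cons (nat_lit 387) (C.pat (nat_lit 1) (nat_lit 1820805681) (nat_lit 21366643918228914577328383045427339009)) (C.cons (nat_lit 263) (C.node (nat_lit 0) (nat_lit 7) (nat_lit 8) C.nil) C.nil))) C.nil)) (C.cons (nat_lit 321) (C.node (nat_lit 0) (nat_lit 3) (nat_lit 6) (C.cons (nat_lit 585) (C.node (nat_lit 0) (nat_lit 3) (nat_lit 5) (C.cons (nat_lit 45) (C.node (nat_lit 0) (nat_lit 3) (nat_lit 8) C.nil) C.nil)) C.nil)) C.nil))) C.nil)))) C.nil)) (C.cons (nat_lit 1027) (C.node (nat_lit 0) (nat_lit 3) (nat_lit 10) (C.cons (nat_lit 1065) (C.node (nat_lit 0) (nat_lit 1) (nat_lit 11) (C.cons (nat_lit 2083) (C.node (nat_lit 0) (nat_lit 2) (nat_lit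 11) (C.cons (nat_lit 2053) (C.ref (nat_lit 166) (nat_lit 3566370777473808)) C.nil)) (C.cons (nat_lit 2055) (C.node (nat_lit 0) (nat_lit 5) (nat_lit 11) (C.cons (nat_lit 2081) (C.node (nat_lit 0) (nat_lit 1) (nat_lit 5) (C.cons (nat_lit 547) (C.node (nat_lit 0) (nat_lit 2) (nat_lit 5) (C.cons (nat_lit 37) (C.node (nat_lit 0) (nat_lit 1) (nat_lit 7)
  (C.cons (nat_lit 387) (C.node (nat_lit 0) (nat_lit 1) (nat_lit 3) (C.cons (nat_lit 75) (C.node (nat_lit 0) (nat_lit 6) (nat_lit 8) C.nil) C.nil)) C.nil)) C.nil)) (C.cons (nat_lit 35) (C.node (nat_lit 0) (nat_lit 2) (nat_lit 5) (C.cons (nat_lit 549) (C.node (nat_lit 0) (nat_lit 2) (nat_lit 3) (C.cons (nat_lit 269) (C.node (nat_lit 0) (nat_lit 2) (nat_lit 7) C.nil) C.nil)) C.nil)) C.nil))) C.nil)) (C.cons (nat_lit 2051) (C.node (nat_lit 0) (nat_lit 2) (nat_lit 11) (C.cons (nat_lit 2085) (C.node (nat_lit 0) (nat_lit 1) (nat_lit 5) (C.cons (nat_lit 547) (C.node (nat_lit 0) (nat_lit 6) (nat_lit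 9) (C.cons (nat_lit 585) (C.node (nat_lit 0) (nat_lit 1) (nat_lit 6) (C.cons (nat_lit 323) (C.node (nat_lit 0) (nat_lit 1) (nat_lit 3) (C.cons (nat_lit 15) (C.pat (nat_lit 5) (nat_lit 624517925429) (nat_lit 177001392016920008195563234944312038730617126927)) (C.cons (nat_lit 11) (C.node (nat_lit 0) (nat_lit 1) (nat_lit 2) (C.cons (nat_lit 135) (C.node (nat_lit 0) (nat_lit 2) (nat_lit 9) C.nil) C.nil)) C.nil))) (C.cons (nat_lit 67) (C.node (nat_lit 0) (nat_lit 6) (nat_lit 8) C.nil) C.nil))) (C.cons (nat_lit 577) (C.node (nat_lit 0) (nat_lit 3) (nat_lit 9) (C.cons (nat_lit 525) (C.node (nat_lit 0) (nat_lit 7) (nat_lit 9) C.nil) C.nil)) C.nil))) (C.cons (nat_lit 35) (C.node (nat_lit 0) (nat_lit 5) (nat_lit 9) C.nil) C.nil))) (C.cons (nat_lit 2053) (C.node (nat_lit 0) (nat_lit 5) (nat_lit 11) C.nil) C.nil))) C.nil)))) (C.cons (nat_lit 1033) (C.node (nat_lit 0) (nat_lit 5) (nat_lit 10) (C.cons (nat_lit 1057) (C.node (nat_lit 0) (nat_lit 1)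 (nat_lit 11) (C.cons (nat_lit 2083) (C.node (nat_lit 0) (nat_lit 2) (nat_lit 11) C.nil) (C.cons (nat_lit 2055) (C.node (nat_lit 0) (nat_lit 5) (nat_lit 11) C.nil) C.nil))) C.nil)) C.nil))) C.nil)))) (List.cons (C.node (nat_lit 0) (nat_lit 7) (nat_lit 10) (C.cons (nat_lit 1155) (C.node (nat_lit 0) (nat_lit 3) (nat_lit 10) (C.cons (nat_lit 1065) (C.node (nat_lit 0) (nat_lit 7) (nat_lit 8) (C.cons (nat_lit 389) (C.node (nat_lit 0) (nat_lit 7) (nat_lit 9) (C.cons (nat_lit 641) (C.ref (nat_lit 145) (nat_lit 3038605142872848)) C.nil)) (C.cons (nat_lit 385) (C.node (nat_lit 0) (nat_lit 2) (nat_lit 7) (C.cons (nat_lit 645) (C.ref (nat_lit 149) (nat_lit 3022047540622608)) (C.cons (nat_lit 133) (C.node (nat_lit 0) (nat_lit 7) (nat_lit 9) (C.cons (nat_lit 641) (C.ref (nat_lit 158) (nat_lit 3038605142872848)) C.nil)) C.nil))) C.nil))) (C.cons (nat_lit 1033) (C.node (nat_lit 0) (nat_lit 5) (nat_lit 10) (C.cons (nat_lit 1057) (C.node (nat_lit 0) (nat_lit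 7) (nat_lit 8) (C.cons (nat_lit 389) (C.node (nat_lit 0) (nat_lit 7) (nat_lit 9) (C.cons (nat_lit 641) (C.ref (nat_lit 164) (nat_lit 3566370777473808)) C.nil)) (C.cons (nat_lit 385) (C.node (nat_lit 0) (nat_lit 2) (nat_lit 7) (C.cons (nat_lit 645) (C.ref (nat_lit 165) (nat_lit 3566370777473808)) (C.cons (nat_lit 133) (C.node (nat_lit 0) (nat_lit 7) (nat_lit 9) C.nil) C.nil))) C.nil))) C.nil)) C.nil))) (C.cons (nat_lit 1153) (C.ref (nat_lit 167) (nat_lit 3582863703552528)) C.nil))) List.nil)))))))))))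

theorem ok13_158 : okL par13 (nat_lit 169) c13_158 (nat_lit 158) = true := by decide +kernel

noncomputable def c13_169 : List C :=
  (List.cons (C.node (nat_lit 0) (nat_lit 6) (nat_lit 11) (C.cons (nat_lit 2115) (C.node (nat_lit 0) (nat_lit 2) (nat_lit 11) (C.cons (nat_lit 2085) (C.node (nat_lit 0) (nat_lit 6) (nat_lit 8) (C.cons (nat_lit 329) (C.node (nat_lit 0) (nat_lit 6) (nat_lit 9) (C.cons (nat_lit 577) (C.node (nat_lit 0) (nat_lit 7) (nat_lit 10) (C.cons (nat_lit 1155) (C.pat (nat_lit 0) (nat_lit 128732001) (nat_lit 628836586801153712581980963670083)) (C.cons (nat_lit 1153) (C.ref (nat_lit 145) (nat_lit 3318980877373968)) C.nil))) C.nil)) (C.cons (nat_lit 321) (C.node (nat_lit 0) (nat_lit 3) (nat_lit 6) (C.cons (nat_lit 585) (C.ref (nat_lit 147) (nat_lit 3318916452864528)) (C.cons (nat_lit 73) (C.node (nat_lit 0) (nat_lit 6) (nat_lit 9) (C.cons (nat_lit 577) (C.node (nat_lit 0) (nat_lit 7) (nat_lit 10) (C.cons (nat_lit 1155)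 (C.pat (nat_lit 0) (nat_lit 128732001) (nat_lit 628836586801153712581980963670083)) (C.cons (nat_lit 1153) (C.ref (nat_lit 158) (nat_lit 3318980877373968)) C.nil))) C.nil)) C.nil))) C.nil))) (C.cons (nat_lit 2053) (C.node (nat_lit 0) (nat_lit 5) (nat_lit 11) (C.cons (nat_lit 2081) (C.node (nat_lit 0) (nat_lit 6) (nat_lit 8) (C.cons (nat_lit 329) (C.node (nat_lit 0) (nat_lit 6) (nat_lit 9) (C.cons (nat_lit 577) (C.node (nat_lit 0) (nat_lit 7) (nat_lit 10) (C.cons (nat_lit 1155) (C.pat (nat_lit 0) (nat_lit 128674881) (nat_lit 628839149684784198159566960267283)) (C.cons (nat_lit 1153) (C.ref (nat_lit 164) (nat_lit 3582863703552528)) C.nil))) C.nil)) (C.cons (nat_lit 321) (C.node (nat_lit 0) (nat_lit 3) (nat_lit 6) (C.cons (nat_lit 585) (C.node (nat_lit 0) (nat_lit 7) (nat_lit 10) (C.cons (nat_lit 1155) (C.pat (nat_lit 0) (nat_lit 128674881) (nat_lit 628839149684784198159566960267283)) (C.cons (nat_lit 1153) (C.ref (nat_lit 165) (nat_lit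 3582863703552528)) C.nil))) (C.cons (nat_lit 73) (C.node (nat_lit 0) (nat_lit 6) (nat_lit 9) (C.cons (nat_lit 577) (C.node (nat_lit 0) (nat_lit 7) (nat_lit 10) (C.cons (nat_lit 1155) (C.pat (nat_lit 0) (nat_lit 128674881) (nat_lit 628839149684784198159566960267283)) C.nil)) C.nil)) C.nil))) C.nil))) C.nil)) C.nil))) (C.cons (nat_lit 2113) (C.ref (nat_lit 168) (nat_lit 3582863703552528)) C.nil))) (List.cons (C.node (nat_lit 0) (nat_lit 1) (nat_lit 10) (C.cons (nat_lit 1059) (C.node (nat_lit 0) (nat_lit 3) (nat_lit 10) (C.cons (nat_lit 1033) (C.node (nat_lit 0) (nat_lit 1) (nat_lit 11) (C.cons (nat_lit 2055) (C.node (nat_lit 0) (nat_lit 5) (nat_lit 11) C.nil) C.nil)) C.nil)) (C.cons (nat_lit 1035) (C.node (nat_lit 0) (nat_lit 5) (nat_lit 10) (C.cons (nat_lit 1057) (C.node (nat_lit 0) (nat_lit 1) (nat_lit 6) (C.cons (nat_lit 579) (C.node (nat_lit 0) (nat_lit 3) (nat_lit 6) (C.cons (nat_lit 329) (C.node (nat_lit 0) (nat_lit 7) (nat_lit 9)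 (C.cons (nat_lit 645) (C.node (nat_lit 0) (nat_lit 1) (nat_lit 7) (C.cons (nat_lit 387) (C.pat (nat_lit 1) (nat_lit 1820805681) (nat_lit 21366643918228914577328383045427339009)) C.nil)) C.nil)) C.nil)) (C.cons (nat_lit 323) (C.node (nat_lit 0) (nat_lit 3) (nat_lit 6) (C.cons (nat_lit 585) (C.node (nat_lit 0) (nat_lit 7) (nat_lit 8) (C.cons (nat_lit 389) (C.node (nat_lit 0) (nat_lit 1) (nat_lit 7) (C.cons (nat_lit 643) (C.pat (nat_lit 1) (nat_lit 1821854257) (nat_lit 21366643918538399587221785708190048001)) C.nil)) C.nil)) C.nil)) C.nil))) C.nil)) (C.cons (nat_lit 1027) (C.node (nat_lit 0) (nat_lit 3) (nat_lit 10) (C.cons (nat_lit 1065) (C.node (nat_lit 0) (nat_lit 1) (nat_lit 11) (C.cons (nat_lit 2083) (C.node (nat_lit 0) (nat_lit 2) (nat_lit 11) C.nil) (C.cons (nat_lit 2055) (C.node (nat_lit 0) (nat_lit 5) (nat_lit 11) C.nil) C.nil))) C.nil)) C.nil)))) (List.cons (C.node (nat_lit 0) (nat_lit 7) (nat_lit 10) (C.cons (nat_lit 1155) (C.node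 (nat_lit 0) (nat_lit 3) (nat_lit 10) (C.cons (nat_lit 1065) (C.node (nat_lit 0) (nat_lit 7) (nat_lit 8) (C.cons (nat_lit 389) (C.node (nat_lit 0) (nat_lit 7) (nat_lit 9) (C.cons (nat_lit 641) (C.ref (nat_lit 150) (nat_lit 3022111965132048)) C.nil)) (C.cons (nat_lit 385) (C.node (nat_lit 0) (nat_lit 2) (nat_lit 7)
  (C.cons (nat_lit 645) (C.ref (nat_lit 150) (nat_lit 3022047540622608)) (C.cons (nat_lit 133) (C.node (nat_lit 0) (nat_lit 7) (nat_lit 9) C.nil) C.nil))) C.nil))) (C.cons (nat_lit 1033) (C.node (nat_lit 0) (nat_lit 5) (nat_lit 10) (C.cons (nat_lit 1057) (C.node (nat_lit 0) (nat_lit 7) (nat_lit 8) (C.cons (nat_lit 389) (C.node (nat_lit 0) (nat_lit 7) (nat_lit 9) C.nil) C.nil)) C.nil)) C.nil))) (C.cons (nat_lit 1153) (C.ref (nat_lit 170) (nat_lit 3582863703552528)) C.nil))) (List.cons (C.node (nat_lit 0) (nat_lit 1) (nat_lit 6) (C.cons (nat_lit 323) (C.node (nat_lit 0) (nat_lit 1) (nat_lit 7) (C.cons (nat_lit 131) (C.node (nat_lit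 0) (nat_lit 3) (nat_lit 6) (C.cons (nat_lit 585) (C.node (nat_lit 0) (nat_lit 4) (nat_lit 5) (C.cons (nat_lit 305) (C.node (nat_lit 0) (nat_lit 3) (nat_lit 5) (C.cons (nat_lit 45) (C.pat (nat_lit 5) (nat_lit 153356765717) (nat_lit 24734227256986886164764855643596579738151489547)) (C.cons (nat_lit 41) (C.node (nat_lit 0) (nat_lit 2) (nat_lit 3) (C.cons (nat_lit 269) (C.pat (nat_lit 1) (nat_lit 965102369) (nat_lit 2757155980747587956482142827145666305)) C.nil)) C.nil))) (C.cons (nat_lit 49) (C.node (nat_lit 0) (nat_lit 4) (nat_lit 8) C.nil) C.nil))) (C.cons (nat_lit 73) (C.node (nat_lit 0) (nat_lit 6) (nat_lit 9) C.nil) C.nil))) C.nil)) (C.cons (nat_lit 67) (C.node (nat_lit 0) (nat_lit 1) (nat_lit 7) (C.cons (nat_lit 387) (C.node (nat_lit 0) (nat_lit 5) (nat_lit 4) (C.cons (nat_lit 305) (C.node (nat_lit 0) (nat_lit 7) (nat_lit 2) (C.cons (nat_lit 645) (C.node (nat_lit 0) (nat_lit 5) (nat_lit 2) (C.cons (nat_lit 45) (C.pat (nat_lit 5) (nat_lit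 230982720274) (nat_lit 49086641024436919791598255299645074534472811555)) (C.cons (nat_lit 37) (C.node (nat_lit 0) (nat_lit 3) (nat_lit 5) (C.cons (nat_lit 553) (C.pat (nat_lit 1) (nat_lit 1486126129) (nat_lit 2009443049484564461616452002750471937)) C.nil)) C.nil))) (C.cons (nat_lit 133) (C.node (nat_lit 0) (nat_lit 7) (nat_lit 9) C.nil) C.nil))) (C.cons (nat_lit 49) (C.node (nat_lit 0) (nat_lit 4) (nat_lit 8) C.nil) C.nil))) (C.cons (nat_lit 131) (C.node (nat_lit 0) (nat_lit 1) (nat_lit 8) C.nil) C.nil))) C.nil))) (List.cons (C.node (nat_lit 0) (nat_lit 1) (nat_lit 6) (C.cons (nat_lit 579) (C.node (nat_lit 0) (nat_lit 1) (nat_lit 7) (C.cons (nat_lit 387) (C.node (nat_lit 0) (nat_lit 2) (nat_lit 7) (C.cons (nat_lit 645) (C.node (nat_lit 0) (nat_lit 2) (nat_lit 5) (C.cons (nat_lit 45) (C.node (nat_lit 0) (nat_lit 2) (nat_lit 8) C.nil) C.nil)) C.nil)) C.nil)) (C.cons (nat_lit 323) (C.node (nat_lit 0) (nat_lit 1) (nat_lit 7) (C.cons (nat_lit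 643) (C.node (nat_lit 0) (nat_lit 2) (nat_lit 7) (C.cons (nat_lit 389) (C.node (nat_lit 0) (nat_lit 3) (nat_lit 8) C.nil) C.nil)) C.nil)) C.nil))) (List.cons (C.node (nat_lit 0) (nat_lit 1) (nat_lit 7) (C.cons (nat_lit 387) (C.node (nat_lit 0) (nat_lit 1) (nat_lit 3) (C.cons (nat_lit 75) (C.node (nat_lit 0) (nat_lit 6) (nat_lit 8) (C.cons (nat_lit 321) (C.node (nat_lit 0) (nat_lit 6) (nat_lit 9) (C.cons (nat_lit 577) (C.node (nat_lit 0) (nat_lit 2) (nat_lit 7) (C.cons (nat_lit 645) (C.node (nat_lit 0) (nat_lit 2) (nat_lit 5) (C.cons (nat_lit 293) (C.node (nat_lit 0) (nat_lit 3) (nat_lit 8) C.nil) C.nil)) C.nil)) C.nil)) C.nil)) (C.cons (nat_lit 11) (C.node (nat_lit 0) (nat_lit 1) (nat_lit 6) (C.cons (nat_lit 67) (C.node (nat_lit 0) (nat_lit 2) (nat_lit 7) (C.cons (nat_lit 645) (C.node (nat_lit 0) (nat_lit 2) (nat_lit 5) (C.cons (nat_lit 293) (C.node (nat_lit 0) (nat_lit 4) (nat_lit 5) C.nil) C.nil)) C.nil)) C.nil)) C.nil))) (C.cons (nat_lit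 131) (C.node (nat_lit 0) (nat_lit 4) (nat_lit 5) (C.cons (nat_lit 305) (C.node (nat_lit 0) (nat_lit 2) (nat_lit 5) (C.cons (nat_lit 549) (C.node (nat_lit 0) (nat_lit 3) (nat_lit 5) (C.cons (nat_lit 41) (C.node (nat_lit 0) (nat_lit 7) (nat_lit 9) C.nil) C.nil)) (C.cons (nat_lit 37) (C.node (nat_lit 0) (nat_lit 2) (nat_lit 8) (C.cons (nat_lit 389) (C.node (nat_lit 0) (nat_lit 2) (nat_lit 9) C.nil) C.nil)) C.nil))) (C.cons (nat_lit 49)
  (C.node (nat_lit 0) (nat_lit 4) (nat_lit 8) C.nil) C.nil))) C.nil))) (List.cons (C.node (nat_lit 0) (nat_lit 1) (nat_lit 4) (C.cons (nat_lit 531) (C.ref (nat_lit 174) (nat_lit 3582863703552528)) (C.cons (nat_lit 275) (C.ref (nat_lit 174) (nat_lit 3582799279043088)) (C.cons (nat_lit 19) (C.node (nat_lit 0) (nat_lit 4) (nat_lit 8) (C.cons (nat_lit 305) (C.node (nat_lit 0) (nat_lit 4) (nat_lit 9) (C.cons (nat_lit 529) (C.node (nat_lit 0) (nat_lit 2) (nat_lit 5) (C.cons (nat_lit 549) (C.node (nat_lit 0) (nat_lit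 3) (nat_lit 5) C.nil) C.nil)) C.nil)) (C.cons (nat_lit 273) (C.node (nat_lit 0) (nat_lit 4) (nat_lit 5) (C.cons (nat_lit 561) (C.node (nat_lit 0) (nat_lit 2) (nat_lit 5) (C.cons (nat_lit 293) (C.node (nat_lit 0) (nat_lit 3) (nat_lit 5) C.nil) C.nil)) C.nil)) C.nil))) C.nil)))) (List.cons (C.node (nat_lit 0) (nat_lit 1) (nat_lit 4) (C.cons (nat_lit 531) (C.node (nat_lit 0) (nat_lit 1) (nat_lit 7) (C.cons (nat_lit 387) (C.node (nat_lit 0) (nat_lit 1) (nat_lit 3) (C.cons (nat_lit 75) (C.node (nat_lit 0) (nat_lit 6) (nat_lit 8) C.nil) C.nil)) C.nil)) (C.cons (nat_lit 275) (C.node (nat_lit 0) (nat_lit 1) (nat_lit 7) (C.cons (nat_lit 643) (C.node (nat_lit 0) (nat_lit 1) (nat_lit 3) (C.cons (nat_lit 75) (C.node (nat_lit 0) (nat_lit 6) (nat_lit 9) C.nil) C.nil)) C.nil)) C.nil))) (List.cons (C.node (nat_lit 0) (nat_lit 4) (nat_lit 5) (C.cons (nat_lit 305) (C.node (nat_lit 0) (nat_lit 3) (nat_lit 5) (C.cons (nat_lit 553) (C.node (nat_lit 0) (nat_lit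 6) (nat_lit 9) (C.cons (nat_lit 577) (C.node (nat_lit 0) (nat_lit 2) (nat_lit 9) (C.cons (nat_lit 645) (C.node (nat_lit 0) (nat_lit 1) (nat_lit 7) (C.cons (nat_lit 387) (C.node (nat_lit 0) (nat_lit 1) (nat_lit 6) (C.cons (nat_lit 75) (C.pat (nat_lit 2) (nat_lit 36350155073) (nat_lit 177001392025310740746018242390626237186298810593)) (C.cons (nat_lit 67) (C.node (nat_lit 0) (nat_lit 2) (nat_lit 8) (C.cons (nat_lit 269) (C.pat (nat_lit 2) (nat_lit 43605267844) (nat_lit 23616620855917284999611986761135470781918151301)) (C.cons (nat_lit 261) (C.node (nat_lit 0) (nat_lit 3) (nat_lit 6) (C.cons (nat_lit 329) (C.pat (nat_lit 3) (nat_lit 7138064468) (nat_lit 8633089218476587362835185166442792898918940977)) C.nil)) C.nil))) C.nil))) (C.cons (nat_lit 131) (C.node (nat_lit 0) (nat_lit 7) (nat_lit 8) (C.cons (nat_lit 385) (C.node (nat_lit 0) (nat_lit 1) (nat_lit 6) (C.cons (nat_lit 323) (C.node (nat_lit 0) (nat_lit 3) (nat_lit 6) C.nil) (C.cons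 (nat_lit 75) (C.node (nat_lit 0) (nat_lit 6) (nat_lit 8) C.nil) C.nil))) C.nil)) C.nil))) (C.cons (nat_lit 517) (C.node (nat_lit 0) (nat_lit 7) (nat_lit 9) (C.cons (nat_lit 641) (C.node (nat_lit 0) (nat_lit 1) (nat_lit 6) (C.cons (nat_lit 323) (C.node (nat_lit 0) (nat_lit 3) (nat_lit 6) C.nil) (C.cons (nat_lit 75) (C.node (nat_lit 0) (nat_lit 6) (nat_lit 8) C.nil) C.nil))) C.nil)) C.nil))) C.nil)) (C.cons (nat_lit 41) (C.node (nat_lit 0) (nat_lit 5) (nat_lit 9) (C.cons (nat_lit 545) (C.node (nat_lit 0) (nat_lit 6) (nat_lit 9) (C.cons (nat_lit 585) (C.node (nat_lit 0) (nat_lit 1) (nat_lit 6) (C.cons (nat_lit 323) (C.node (nat_lit 0) (nat_lit 1) (nat_lit 7) (C.cons (nat_lit 135) (C.node (nat_lit 0) (nat_lit 2) (nat_lit 9) (C.cons (nat_lit 517) (C.node (nat_lit 0) (nat_lit 7) (nat_lit 8) C.nil) C.nil)) (C.cons (nat_lit 131) (C.node (nat_lit 0) (nat_lit 2) (nat_lit 9) (C.cons (nat_lit 645) (C.node (nat_lit 0) (nat_lit 7) (nat_lit 8) C.nil)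 C.nil)) C.nil))) (C.cons (nat_lit 67) (C.node (nat_lit 0) (nat_lit 6) (nat_lit 8) C.nil) C.nil))) (C.cons (nat_lit 577) (C.node (nat_lit 0) (nat_lit 3) (nat_lit 9) (C.cons (nat_lit 525) (C.node (nat_lit 0) (nat_lit 7) (nat_lit 9) C.nil) C.nil)) C.nil))) C.nil)) C.nil))) (C.cons (nat_lit 49) (C.node (nat_lit 0) (nat_lit 4) (nat_lit 8) (C.cons (nat_lit 273) (C.node (nat_lit 0) (nat_lit 5) (nat_lit 8) (C.cons (nat_lit 297) (C.node (nat_lit 0) (nat_lit 5) (nat_lit 9) (C.cons (nat_lit 545) (C.node (nat_lit 0) (nat_lit 6) (nat_lit 8) (C.cons (nat_lit 323) (C.node (nat_lit 0) (nat_lit 1) (nat_lit 7) (C.cons (nat_lit 135)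
  (C.node (nat_lit 0) (nat_lit 2) (nat_lit 8) C.nil) C.nil)) C.nil)) C.nil)) (C.cons (nat_lit 289) (C.node (nat_lit 0) (nat_lit 3) (nat_lit 5) (C.cons (nat_lit 553) (C.node (nat_lit 0) (nat_lit 6) (nat_lit 9) C.nil) C.nil)) C.nil))) C.nil)) C.nil))) (List.cons (C.node (nat_lit 0) (nat_lit 3) (nat_lit 5) (C.cons (nat_lit 553) (C.node (nat_lit 0) (nat_lit 6) (nat_lit 9) (C.cons (nat_lit 579) (C.node (nat_lit 0) (nat_lit 2) (nat_lit 9) (C.cons (nat_lit 645) (C.node (nat_lit 0) (nat_lit 1) (nat_lit 7) (C.cons (nat_lit 387) (C.node (nat_lit 0) (nat_lit 2) (nat_lit 8) (C.cons (nat_lit 269) (C.node (nat_lit 0) (nat_lit 3) (nat_lit 6) (C.cons (nat_lit 73) (C.node (nat_lit 0) (nat_lit 6) (nat_lit 8) C.nil) C.nil)) (C.cons (nat_lit 261) (C.node (nat_lit 0) (nat_lit 3) (nat_lit 6) (C.cons (nat_lit 329) (C.pat (nat_lit 2) (nat_lit 15472887653) (nat_lit 49084317558117182802901093683963328718765629185)) C.nil)) C.nil))) (C.cons (nat_lit 131) (C.node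 (nat_lit 0) (nat_lit 7) (nat_lit 8) C.nil) C.nil))) (C.cons (nat_lit 517) (C.node (nat_lit 0) (nat_lit 7) (nat_lit 9) C.nil) C.nil))) (C.cons (nat_lit 577) (C.node (nat_lit 0) (nat_lit 1) (nat_lit 6) (C.cons (nat_lit 323) (C.node (nat_lit 0) (nat_lit 3) (nat_lit 6) C.nil) (C.cons (nat_lit 75) (C.node (nat_lit 0) (nat_lit 6) (nat_lit 8) C.nil) C.nil))) C.nil))) (C.cons (nat_lit 41) (C.node (nat_lit 0) (nat_lit 5) (nat_lit 9) C.nil) C.nil))) (List.cons (C.node (nat_lit 0) (nat_lit 1) (nat_lit 4) (C.cons (nat_lit 531) (C.ref (nat_lit 177) (nat_lit 3582863703552528)) (C.cons (nat_lit 275) (C.ref (nat_lit 177) (nat_lit 3582799279043088)) (C.cons (nat_lit 19) (C.node (nat_lit 0) (nat_lit 4) (nat_lit 8) (C.cons (nat_lit 305) (C.node (nat_lit 0) (nat_lit 4) (nat_lit 9) (C.cons (nat_lit 529) (C.ref (nat_lit 178) (nat_lit 3582863703552528)) C.nil)) (C.cons (nat_lit 273) (C.node (nat_lit 0) (nat_lit 4) (nat_lit 5) (C.cons (nat_lit 561) (C.ref (nat_lit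 178) (nat_lit 3582799279043088)) (C.cons (nat_lit 49) (C.node (nat_lit 0) (nat_lit 4) (nat_lit 9) C.nil) C.nil))) C.nil))) C.nil)))) (List.cons (C.node (nat_lit 0) (nat_lit 4) (nat_lit 5) (C.cons (nat_lit 305) (C.node (nat_lit 0) (nat_lit 6) (nat_lit 9) (C.cons (nat_lit 585) (C.node (nat_lit 0) (nat_lit 1) (nat_lit 6) (C.cons (nat_lit 323) (C.node (nat_lit 0) (nat_lit 1) (nat_lit 7) (C.cons (nat_lit 135) (C.node (nat_lit 0) (nat_lit 7) (nat_lit 8) (C.cons (nat_lit 385) (C.node (nat_lit 0) (nat_lit 7) (nat_lit 9) C.nil) C.nil)) (C.cons (nat_lit 131) (C.node (nat_lit 0) (nat_lit 3) (nat_lit 5) (C.cons (nat_lit 45) (C.node (nat_lit 0) (nat_lit 3) (nat_lit 8) C.nil) C.nil)) C.nil))) (C.cons (nat_lit 67) (C.node (nat_lit 0) (nat_lit 6) (nat_lit 8) C.nil) C.nil))) (C.cons (nat_lit 577) (C.node (nat_lit 0) (nat_lit 7) (nat_lit 9) (C.cons (nat_lit 645) (C.node (nat_lit 0) (nat_lit 1) (nat_lit 7) (C.cons (nat_lit 387) (C.node (nat_lit 0) (nat_lit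 1) (nat_lit 6) (C.cons (nat_lit 75) (C.node (nat_lit 0) (nat_lit 6) (nat_lit 8) C.nil) C.nil)) C.nil)) C.nil)) C.nil))) (C.cons (nat_lit 49) (C.node (nat_lit 0) (nat_lit 4) (nat_lit 8) C.nil) C.nil))) (List.cons (C.node (nat_lit 0) (nat_lit 3) (nat_lit 10) (C.cons (nat_lit 1033) (C.node (nat_lit 0) (nat_lit 1) (nat_lit 11) (C.cons (nat_lit 2055) (C.node (nat_lit 0) (nat_lit 5) (nat_lit 11) (C.cons (nat_lit 2081) (C.node (nat_lit 0) (nat_lit 1) (nat_lit 12) (C.cons (nat_lit 4107) (C.node (nat_lit 0) (nat_lit 2) (nat_lit 12) (C.cons (nat_lit 4101) (C.node (nat_lit 0) (nat_lit 1) (nat_lit 4) (C.cons (nat_lit 531) (C.ref (nat_lit 172) (nat_lit 3582863703552528)) (C.cons (nat_lit 275) (C.ref (nat_lit 172) (nat_lit 3582799279043088)) (C.cons (nat_lit 19) (C.node (nat_lit 0) (nat_lit 4) (nat_lit 8) (C.cons (nat_lit 305) (C.node (nat_lit 0) (nat_lit 4) (nat_lit 9) (C.cons (nat_lit 529) (C.ref (nat_lit 173) (nat_lit 3582863703552528)) C.nil))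 (C.cons (nat_lit 273) (C.node (nat_lit 0) (nat_lit 4) (nat_lit 5) (C.cons (nat_lit 561) (C.ref (nat_lit 173) (nat_lit 3582799279043088)) C.nil)) C.nil))) C.nil)))) C.nil))
  (C.cons (nat_lit 4099) (C.node (nat_lit 0) (nat_lit 2) (nat_lit 12) (C.cons (nat_lit 4109) (C.ref (nat_lit 175) (nat_lit 3582863703552528)) (C.cons (nat_lit 4101) (C.node (nat_lit 0) (nat_lit 3) (nat_lit 12) (C.cons (nat_lit 4105) (C.ref (nat_lit 176) (nat_lit 3582863703552528)) C.nil)) C.nil))) C.nil))) C.nil)) (C.cons (nat_lit 2051) (C.node (nat_lit 0) (nat_lit 2) (nat_lit 11) (C.cons (nat_lit 2085) (C.ref (nat_lit 179) (nat_lit 3582863703552528)) (C.cons (nat_lit 2053) (C.node (nat_lit 0) (nat_lit 5) (nat_lit 11) (C.cons (nat_lit 2081) (C.node (nat_lit 0) (nat_lit 1) (nat_lit 4) (C.cons (nat_lit 531) (C.ref (nat_lit 180) (nat_lit 3582863703552528)) (C.cons (nat_lit 275) (C.ref (nat_lit 180) (nat_lit 3582799279043088)) (C.cons (nat_lit 19) (C.node (nat_lit 0) (nat_lit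 4) (nat_lit 8) (C.cons (nat_lit 305) (C.node (nat_lit 0) (nat_lit 4) (nat_lit 9) C.nil) C.nil)) C.nil)))) C.nil)) C.nil))) C.nil))) C.nil)) (List.cons (C.node (nat_lit 0) (nat_lit 2) (nat_lit 7) (C.cons (nat_lit 389) (C.node (nat_lit 0) (nat_lit 2) (nat_lit 5) (C.cons (nat_lit 549) (C.node (nat_lit 0) (nat_lit 4) (nat_lit 9) (C.cons (nat_lit 529) (C.node (nat_lit 0) (nat_lit 3) (nat_lit 9) (C.cons (nat_lit 585) (C.pat (nat_lit 0) (nat_lit 111762482) (nat_lit 628839149654974247351355678461965)) (C.cons (nat_lit 521) (C.node (nat_lit 0) (nat_lit 6) (nat_lit 9) C.nil) C.nil))) C.nil)) (C.cons (nat_lit 37) (C.node (nat_lit 0) (nat_lit 2) (nat_lit 9) (C.cons (nat_lit 517) (C.node (nat_lit 0) (nat_lit 3) (nat_lit 9) (C.cons (nat_lit 585) (C.node (nat_lit 0) (nat_lit 1) (nat_lit 3) (C.cons (nat_lit 267) (C.node (nat_lit 0) (nat_lit 1) (nat_lit 6) C.nil) C.nil)) C.nil)) C.nil)) C.nil))) (C.cons (nat_lit 133) (C.node (nat_lit 0) (nat_lit 7) (nat_lit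 8) (C.cons (nat_lit 385) (C.node (nat_lit 0) (nat_lit 2) (nat_lit 8) (C.cons (nat_lit 293) (C.node (nat_lit 0) (nat_lit 2) (nat_lit 9) C.nil) C.nil)) C.nil)) C.nil))) (List.cons (C.node (nat_lit 0) (nat_lit 1) (nat_lit 7) (C.cons (nat_lit 643) (C.ref (nat_lit 182) (nat_lit 3582863703552528)) (C.cons (nat_lit 387) (C.ref (nat_lit 182) (nat_lit 3582799279043088)) (C.cons (nat_lit 131) (C.node (nat_lit 0) (nat_lit 7) (nat_lit 8) (C.cons (nat_lit 389) (C.node (nat_lit 0) (nat_lit 7) (nat_lit 9) (C.cons (nat_lit 641) (C.node (nat_lit 0) (nat_lit 2) (nat_lit 5) (C.cons (nat_lit 549) (C.node (nat_lit 0) (nat_lit 4) (nat_lit 9) (C.cons (nat_lit 531) (C.node (nat_lit 0) (nat_lit 1) (nat_lit 5) (C.cons (nat_lit 291) (C.node (nat_lit 0) (nat_lit 4) (nat_lit 5) C.nil) C.nil)) C.nil)) C.nil)) C.nil)) (C.cons (nat_lit 385) (C.node (nat_lit 0) (nat_lit 2) (nat_lit 7) (C.cons (nat_lit 645) (C.node (nat_lit 0) (nat_lit 2) (nat_lit 5) (C.cons (nat_lit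 293) (C.node (nat_lit 0) (nat_lit 4) (nat_lit 8) (C.cons (nat_lit 275) (C.node (nat_lit 0) (nat_lit 1) (nat_lit 5) (C.cons (nat_lit 547) (C.node (nat_lit 0) (nat_lit 4) (nat_lit 5) C.nil) C.nil)) C.nil)) C.nil)) C.nil)) C.nil))) C.nil)))) (List.cons (C.node (nat_lit 0) (nat_lit 1) (nat_lit 7) (C.cons (nat_lit 643) (C.node (nat_lit 0) (nat_lit 2) (nat_lit 7) (C.cons (nat_lit 389) (C.node (nat_lit 0) (nat_lit 2) (nat_lit 3) (C.cons (nat_lit 525) (C.node (nat_lit 0) (nat_lit 2) (nat_lit 5) C.nil) C.nil)) C.nil)) (C.cons (nat_lit 387) (C.node (nat_lit 0) (nat_lit 2) (nat_lit 7) (C.cons (nat_lit 645) (C.node (nat_lit 0) (nat_lit 2) (nat_lit 3) (C.cons (nat_lit 269) (C.node (nat_lit 0) (nat_lit 2) (nat_lit 5) C.nil) C.nil)) C.nil)) C.nil))) (List.cons (C.node (nat_lit 0) (nat_lit 1) (nat_lit 6) (C.cons (nat_lit 579) (C.node (nat_lit 0) (nat_lit 3) (nat_lit 6) (C.cons (nat_lit 329) (C.node (nat_lit 0) (nat_lit 2) (nat_lit 3) (C.cons (nat_lit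 525) (C.node (nat_lit 0) (nat_lit 7) (nat_lit 9) C.nil) C.nil)) C.nil)) (C.cons (nat_lit 323) (C.node (nat_lit 0) (nat_lit 3) (nat_lit 6) (C.cons (nat_lit 585) (C.node (nat_lit 0) (nat_lit 2) (nat_lit 3) (C.cons (nat_lit 269) (C.node (nat_lit 0) (nat_lit 7) (nat_lit 8) C.nil) C.nil)) C.nil)) C.nil))) (List.cons (C.node (nat_lit 0) (nat_lit 1) (nat_lit 12)
  (C.cons (nat_lit 4107) (C.node (nat_lit 0) (nat_lit 2) (nat_lit 12) (C.cons (nat_lit 4101) (C.ref (nat_lit 185) (nat_lit 3582863703552528)) C.nil)) (C.cons (nat_lit 4103) (C.node (nat_lit 0) (nat_lit 3) (nat_lit 12) (C.cons (nat_lit 4105) (C.ref (nat_lit 184) (nat_lit 3318980877373968)) C.nil)) (C.cons (nat_lit 4099) (C.node (nat_lit 0) (nat_lit 2) (nat_lit 12) (C.cons (nat_lit 4109) (C.node (nat_lit 0) (nat_lit 6) (nat_lit 8) (C.cons (nat_lit 329) (C.node (nat_lit 0) (nat_lit 1) (nat_lit 6) (C.cons (nat_lit 579) (C.node (nat_lit 0) (nat_lit 1) (nat_lit 3) C.nil) C.nil)) (C.cons (nat_lit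 323) (C.node (nat_lit 0) (nat_lit 3) (nat_lit 8) C.nil) C.nil))) C.nil)) C.nil)))) List.nil))))))))))))))))))

theorem ok13_169 : okL par13 (nat_lit 187) c13_169 (nat_lit 169) = true := by decide +kernel

noncomputable def c13_187 : List C :=
  (List.cons (C.big (C.cons (nat_lit 4111) (C.ref (nat_lit 89) (nat_lit 3582863703482688)) (C.cons (nat_lit 2087) (C.ref (nat_lit 89) (nat_lit 3318980877295968)) (C.cons (nat_lit 1067) (C.ref (nat_lit 89) (nat_lit 3038605142733168)) (C.cons (nat_lit 647) (C.ref (nat_lit 114) (nat_lit 3581832911401488)) (C.cons (nat_lit 587) (C.ref (nat_lit 114) (nat_lit 3564309193171728)) (C.cons (nat_lit 563) (C.ref (nat_lit 114) (nat_lit 3282902397101328)) (C.cons (nat_lit 557) (C.ref (nat_lit 139) (nat_lit 3582863703552528)) (C.cons (nat_lit 555) (C.ref (nat_lit 140) (nat_lit 3582863703552528)) (C.cons (nat_lit 551) (C.ref (nat_lit 140) (nat_lit 3566370777473808)) (C.cons (nat_lit 527) (C.ref (nat_lit 140) (nat_lit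 3285994773554448)) (C.cons (nat_lit 391) (C.ref (nat_lit 114) (nat_lit 3580737694741008)) (C.cons (nat_lit 331) (C.ref (nat_lit 114) (nat_lit 3563213976511248)) (C.cons (nat_lit 307) (C.ref (nat_lit 114) (nat_lit 3281807180440848)) (C.cons (nat_lit 301) (C.ref (nat_lit 139) (nat_lit 3582799279043088)) (C.cons (nat_lit 299) (C.ref (nat_lit 140) (nat_lit 3582799279043088)) (C.cons (nat_lit 295) (C.ref (nat_lit 140) (nat_lit 3566306352964368)) (C.cons (nat_lit 271) (C.ref (nat_lit 140) (nat_lit 3285930349045008)) (C.cons (nat_lit 47) (C.ref (nat_lit 141) (nat_lit 3582863703552528)) C.nil)))))))))))))))))) (C.node (nat_lit 0) (nat_lit 4) (nat_lit 12) (C.cons (nat_lit 4115) (C.node (nat_lit 0) (nat_lit 2) (nat_lit 12) (C.cons (nat_lit 4109) (C.node (nat_lit 0) (nat_lit 4) (nat_lit 8) (C.cons (nat_lit 305) (C.node (nat_lit 0) (nat_lit 4) (nat_lit 9) (C.cons (nat_lit 529) (C.ref (nat_lit 156) (nat_lit 3582863703552528)) C.nil)) (C.cons (nat_lit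 273) (C.node (nat_lit 0) (nat_lit 4) (nat_lit 5) (C.cons (nat_lit 561) (C.ref (nat_lit 156) (nat_lit 3582799279043088)) (C.cons (nat_lit 49) (C.node (nat_lit 0) (nat_lit 4) (nat_lit 9) (C.cons (nat_lit 529) (C.node (nat_lit 0) (nat_lit 6) (nat_lit 11) (C.cons (nat_lit 2115) (C.node (nat_lit 0) (nat_lit 2) (nat_lit 11) (C.cons (nat_lit 2085) (C.node (nat_lit 0) (nat_lit 6) (nat_lit 8) (C.cons (nat_lit 329) (C.node (nat_lit 0) (nat_lit 6) (nat_lit 9) (C.cons (nat_lit 577) (C.ref (nat_lit 144) (nat_lit 3318980877373968)) C.nil)) (C.cons (nat_lit 321) (C.node (nat_lit 0) (nat_lit 3) (nat_lit 6) (C.cons (nat_lit 585) (C.ref (nat_lit 144) (nat_lit 3318916452864528)) (C.cons (nat_lit 73) (C.node (nat_lit 0) (nat_lit 6) (nat_lit 9) (C.cons (nat_lit 577) (C.node (nat_lit 0) (nat_lit 7) (nat_lit 10) (C.cons (nat_lit 1155) (C.pat (nat_lit 0) (nat_lit 128674881) (nat_lit 628839149684784198159566960267283)) (C.cons (nat_lit 1153) (C.ref (nat_lit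 157) (nat_lit 3582863703552528)) C.nil))) C.nil)) C.nil))) C.nil))) (C.cons (nat_lit 2053) (C.node (nat_lit 0) (nat_lit 5) (nat_lit 11) (C.cons (nat_lit 2081) (C.node (nat_lit 0) (nat_lit 6) (nat_lit 8) (C.cons (nat_lit 329) (C.node (nat_lit 0) (nat_lit 6) (nat_lit 9) (C.cons (nat_lit 577) (C.node (nat_lit 0) (nat_lit 7) (nat_lit 10) (C.cons (nat_lit 1155) (C.pat (nat_lit 0) (nat_lit 128674881) (nat_lit 628839149684784198159566960267283)) (C.cons (nat_lit 1153) (C.ref (nat_lit 158) (nat_lit 3582863703552528)) C.nil))) C.nil)) (C.cons (nat_lit 321) (C.node (nat_lit 0) (nat_lit 3) (nat_lit 6) (C.cons (nat_lit 585) (C.node (nat_lit 0) (nat_lit 7) (nat_lit 10) (C.cons (nat_lit 1155) (C.pat (nat_lit 0) (nat_lit 128674881) (nat_lit 628839149684784198159566960267283)) (C.cons (nat_lit 1153) (C.ref (nat_lit 158) (nat_lit 3582799279043088)) C.nil))) (C.cons (nat_lit 73) (C.node (nat_lit 0) (nat_lit 6) (nat_lit 9) (C.cons (nat_lit 577) (C.node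 (nat_lit 0) (nat_lit 7) (nat_lit 10) (C.cons (nat_lit 1155) (C.pat (nat_lit 0) (nat_lit 128674881) (nat_lit 628839149684784198159566960267283)) C.nil)) C.nil)) C.nil))) C.nil))) C.nil)) C.nil))) (C.cons (nat_lit 2113) (C.ref (nat_lit 163) (nat_lit 3582863703552528)) C.nil))) C.nil)) C.nil))) C.nil))) (C.cons (nat_lit 4101) (C.node (nat_lit 0) (nat_lit 3) (nat_lit 12) (C.cons (nat_lit 4105) (C.node (nat_lit 0) (nat_lit 4) (nat_lit 8)
  (C.cons (nat_lit 305) (C.node (nat_lit 0) (nat_lit 4) (nat_lit 9) (C.cons (nat_lit 529) (C.ref (nat_lit 169) (nat_lit 3582863703552528)) C.nil)) (C.cons (nat_lit 273) (C.node (nat_lit 0) (nat_lit 4) (nat_lit 5) (C.cons (nat_lit 561) (C.ref (nat_lit 169) (nat_lit 3582799279043088)) (C.cons (nat_lit 49) (C.node (nat_lit 0) (nat_lit 4) (nat_lit 9) (C.cons (nat_lit 529) (C.node (nat_lit 0) (nat_lit 6) (nat_lit 11) (C.cons (nat_lit 2115) (C.node (nat_lit 0) (nat_lit 2) (nat_lit 11) (C.cons (nat_lit 2085) (C.node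 (nat_lit 0) (nat_lit 6) (nat_lit 8) (C.cons (nat_lit 329) (C.node (nat_lit 0) (nat_lit 6) (nat_lit 9) (C.cons (nat_lit 577) (C.ref (nat_lit 148) (nat_lit 3318980877373968)) C.nil)) (C.cons (nat_lit 321) (C.node (nat_lit 0) (nat_lit 3) (nat_lit 6) (C.cons (nat_lit 585) (C.ref (nat_lit 148) (nat_lit 3318916452864528)) (C.cons (nat_lit 73) (C.node (nat_lit 0) (nat_lit 6) (nat_lit 9) (C.cons (nat_lit 577) (C.node (nat_lit 0) (nat_lit 7) (nat_lit 10) (C.cons (nat_lit 1155) (C.pat (nat_lit 0) (nat_lit 128732001) (nat_lit 628836586801153712581980963670083)) C.nil)) C.nil)) C.nil))) C.nil))) (C.cons (nat_lit 2053) (C.node (nat_lit 0) (nat_lit 5) (nat_lit 11) (C.cons (nat_lit 2081) (C.node (nat_lit 0) (nat_lit 6) (nat_lit 8) (C.cons (nat_lit 329) (C.node (nat_lit 0) (nat_lit 6) (nat_lit 9) (C.cons (nat_lit 577) (C.node (nat_lit 0) (nat_lit 7) (nat_lit 10) (C.cons (nat_lit 1155) (C.pat (nat_lit 0) (nat_lit 128732001) (nat_lit 628836586801153712581980963670083))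 C.nil)) C.nil)) (C.cons (nat_lit 321) (C.node (nat_lit 0) (nat_lit 3) (nat_lit 6) (C.cons (nat_lit 585) (C.node (nat_lit 0) (nat_lit 7) (nat_lit 10) (C.cons (nat_lit 1155) (C.pat (nat_lit 0) (nat_lit 128732001) (nat_lit 628836586801153712581980963670083)) C.nil)) C.nil)) C.nil))) C.nil)) C.nil))) (C.cons (nat_lit 2113) (C.ref (nat_lit 171) (nat_lit 3582863703552528)) C.nil))) C.nil)) C.nil))) C.nil))) C.nil)) C.nil))) (C.cons (nat_lit 4113) (C.node (nat_lit 0) (nat_lit 6) (nat_lit 11) (C.cons (nat_lit 2115) (C.node (nat_lit 0) (nat_lit 2) (nat_lit 11) (C.cons (nat_lit 2085) (C.node (nat_lit 0) (nat_lit 6) (nat_lit 8) (C.cons (nat_lit 329) (C.node (nat_lit 0) (nat_lit 6) (nat_lit 9) (C.cons (nat_lit 577) (C.ref (nat_lit 155) (nat_lit 3318980877373968)) C.nil)) (C.cons (nat_lit 321) (C.node (nat_lit 0) (nat_lit 3) (nat_lit 6) (C.cons (nat_lit 585) (C.ref (nat_lit 155) (nat_lit 3318916452864528)) (C.cons (nat_lit 73) (C.node (nat_lit 0)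 (nat_lit 6) (nat_lit 9) (C.cons (nat_lit 577) (C.ref (nat_lit 163) (nat_lit 3318980877373968)) C.nil)) C.nil))) C.nil))) (C.cons (nat_lit 2053) (C.node (nat_lit 0) (nat_lit 5) (nat_lit 11) (C.cons (nat_lit 2081) (C.node (nat_lit 0) (nat_lit 6) (nat_lit 8) (C.cons (nat_lit 329) (C.node (nat_lit 0) (nat_lit 6) (nat_lit 9) (C.cons (nat_lit 577) (C.ref (nat_lit 168) (nat_lit 3318980877373968)) C.nil)) (C.cons (nat_lit 321) (C.node (nat_lit 0) (nat_lit 3) (nat_lit 6) (C.cons (nat_lit 585) (C.ref (nat_lit 168) (nat_lit 3318916452864528)) (C.cons (nat_lit 73) (C.node (nat_lit 0) (nat_lit 6) (nat_lit 9) (C.cons (nat_lit 577) (C.ref (nat_lit 171) (nat_lit 3318980877373968)) C.nil)) C.nil))) C.nil))) C.nil)) C.nil))) (C.cons (nat_lit 2113) (C.node (nat_lit 0) (nat_lit 7) (nat_lit 10) (C.cons (nat_lit 1155) (C.node (nat_lit 0) (nat_lit 3) (nat_lit 10) (C.cons (nat_lit 1065) (C.node (nat_lit 0) (nat_lit 7) (nat_lit 8) (C.cons (nat_lit 389) (C.node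 (nat_lit 0) (nat_lit 7) (nat_lit 9) (C.cons (nat_lit 641) (C.ref (nat_lit 154) (nat_lit 3038605142872848)) C.nil)) (C.cons (nat_lit 385) (C.node (nat_lit 0) (nat_lit 2) (nat_lit 7) (C.cons (nat_lit 645) (C.ref (nat_lit 154) (nat_lit 3038540718363408)) (C.cons (nat_lit 133) (C.node (nat_lit 0) (nat_lit 7) (nat_lit 9) (C.cons (nat_lit 641) (C.ref (nat_lit 162) (nat_lit 3038605142872848)) C.nil)) C.nil))) C.nil))) (C.cons (nat_lit 1033) (C.node (nat_lit 0) (nat_lit 5) (nat_lit 10) (C.cons (nat_lit 1057) (C.node (nat_lit 0) (nat_lit 7) (nat_lit 8) (C.cons (nat_lit 389) (C.node (nat_lit 0) (nat_lit 7) (nat_lit 9)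
  (C.cons (nat_lit 641) (C.ref (nat_lit 167) (nat_lit 3038605142872848)) C.nil)) (C.cons (nat_lit 385) (C.node (nat_lit 0) (nat_lit 2) (nat_lit 7) (C.cons (nat_lit 645) (C.ref (nat_lit 167) (nat_lit 3038540718363408)) (C.cons (nat_lit 133) (C.node (nat_lit 0) (nat_lit 7) (nat_lit 9) (C.cons (nat_lit 641) (C.ref (nat_lit 170) (nat_lit 3038605142872848)) C.nil)) C.nil))) C.nil))) C.nil)) C.nil))) (C.cons (nat_lit 1153) (C.node (nat_lit 0) (nat_lit 1) (nat_lit 10) (C.cons (nat_lit 1059) (C.ref (nat_lit 181) (nat_lit 3582863703552528)) (C.cons (nat_lit 1035) (C.ref (nat_lit 181) (nat_lit 3318980877373968)) (C.cons (nat_lit 1027) (C.node (nat_lit 0) (nat_lit 3) (nat_lit 10) (C.cons (nat_lit 1065) (C.node (nat_lit 0) (nat_lit 1) (nat_lit 11) (C.cons (nat_lit 2083) (C.node (nat_lit 0) (nat_lit 2) (nat_lit 11) (C.cons (nat_lit 2053) (C.ref (nat_lit 179) (nat_lit 3566370777473808)) C.nil)) (C.cons (nat_lit 2055) (C.node (nat_lit 0) (nat_lit 5)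 (nat_lit 11) (C.cons (nat_lit 2081) (C.node (nat_lit 0) (nat_lit 1) (nat_lit 12) (C.cons (nat_lit 4107) (C.node (nat_lit 0) (nat_lit 2) (nat_lit 12) (C.cons (nat_lit 4101) (C.ref (nat_lit 175) (nat_lit 3038605142872848)) C.nil)) (C.cons (nat_lit 4099) (C.node (nat_lit 0) (nat_lit 2) (nat_lit 12) (C.cons (nat_lit 4109) (C.ref (nat_lit 183) (nat_lit 3582863703552528)) (C.cons (nat_lit 4101) (C.node (nat_lit 0) (nat_lit 3) (nat_lit 12) (C.cons (nat_lit 4105) (C.ref (nat_lit 184) (nat_lit 3582863703552528)) C.nil)) C.nil))) C.nil))) C.nil)) (C.cons (nat_lit 2051) (C.node (nat_lit 0) (nat_lit 2) (nat_lit 11) (C.cons (nat_lit 2085) (C.node (nat_lit 0) (nat_lit 1) (nat_lit 12) (C.cons (nat_lit 4107) (C.node (nat_lit 0) (nat_lit 2) (nat_lit 12) (C.cons (nat_lit 4101) (C.ref (nat_lit 183) (nat_lit 3038605142872848)) C.nil)) (C.cons (nat_lit 4103) (C.node (nat_lit 0) (nat_lit 3) (nat_lit 12) (C.cons (nat_lit 4105) (C.ref (nat_lit 183) (nat_lit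 3318980877373968)) C.nil)) (C.cons (nat_lit 4099) (C.node (nat_lit 0) (nat_lit 2) (nat_lit 12) (C.cons (nat_lit 4109) (C.node (nat_lit 0) (nat_lit 2) (nat_lit 8) (C.cons (nat_lit 389) (C.node (nat_lit 0) (nat_lit 1) (nat_lit 2) (C.cons (nat_lit 519) (C.node (nat_lit 0) (nat_lit 1) (nat_lit 7) (C.cons (nat_lit 131) (C.node (nat_lit 0) (nat_lit 7) (nat_lit 9) (C.cons (nat_lit 641) (C.node (nat_lit 0) (nat_lit 3) (nat_lit 9) (C.cons (nat_lit 585) (C.node (nat_lit 0) (nat_lit 1) (nat_lit 3) (C.cons (nat_lit 267) (C.node (nat_lit 0) (nat_lit 1) (nat_lit 6) C.nil) C.nil)) C.nil)) C.nil)) C.nil)) (C.cons (nat_lit 7) (C.node (nat_lit 0) (nat_lit 2) (nat_lit 9) (C.cons (nat_lit 517) (C.node (nat_lit 0) (nat_lit 1) (nat_lit 7) (C.cons (nat_lit 643) (C.node (nat_lit 0) (nat_lit 3) (nat_lit 9) (C.cons (nat_lit 585) (C.node (nat_lit 0) (nat_lit 1) (nat_lit 3) (C.cons (nat_lit 267) (C.node (nat_lit 0) (nat_lit 1) (nat_lit 6) C.nil) C.nil)) C.nil))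 C.nil)) C.nil)) C.nil))) (C.cons (nat_lit 263) (C.node (nat_lit 0) (nat_lit 7) (nat_lit 8) (C.cons (nat_lit 385) (C.node (nat_lit 0) (nat_lit 1) (nat_lit 7) (C.cons (nat_lit 643) (C.node (nat_lit 0) (nat_lit 2) (nat_lit 7) (C.cons (nat_lit 133) (C.node (nat_lit 0) (nat_lit 2) (nat_lit 9) C.nil) C.nil)) (C.cons (nat_lit 131) (C.node (nat_lit 0) (nat_lit 2) (nat_lit 7) (C.cons (nat_lit 645) (C.node (nat_lit 0) (nat_lit 3) (nat_lit 8) (C.cons (nat_lit 329) (C.node (nat_lit 0) (nat_lit 1) (nat_lit 3) (C.cons (nat_lit 523) (C.node (nat_lit 0) (nat_lit 1) (nat_lit 6) C.nil) C.nil)) C.nil)) C.nil)) C.nil))) C.nil)) (C.cons (nat_lit 261) (C.node (nat_lit 0) (nat_lit 7) (nat_lit 8) (C.cons (nat_lit 387) (C.node (nat_lit 0) (nat_lit 1) (nat_lit 2) (C.cons (nat_lit 519) (C.node (nat_lit 0) (nat_lit 2) (nat_lit 7) (C.cons (nat_lit 133) (C.node (nat_lit 0) (nat_lit 7) (nat_lit 9) C.nil) C.nil)) (C.cons (nat_lit 7) (C.node (nat_lit 0) (nat_lit 2)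 (nat_lit 7) (C.cons (nat_lit 645) (C.node (nat_lit 0) (nat_lit 3) (nat_lit 8) (C.cons (nat_lit 329) (C.node (nat_lit 0) (nat_lit 1) (nat_lit 3) (C.cons (nat_lit 523)
  (C.node (nat_lit 0) (nat_lit 1) (nat_lit 6) C.nil) C.nil)) C.nil)) C.nil)) C.nil))) (C.cons (nat_lit 385) (C.node (nat_lit 0) (nat_lit 1) (nat_lit 2) (C.cons (nat_lit 519) (C.node (nat_lit 0) (nat_lit 1) (nat_lit 7) C.nil) (C.cons (nat_lit 135) (C.node (nat_lit 0) (nat_lit 2) (nat_lit 9) C.nil) C.nil))) C.nil))) C.nil)))) (C.cons (nat_lit 4101) (C.node (nat_lit 0) (nat_lit 3) (nat_lit 12) (C.cons (nat_lit 4105) (C.node (nat_lit 0) (nat_lit 4) (nat_lit 8) (C.cons (nat_lit 305) (C.node (nat_lit 0) (nat_lit 1) (nat_lit 4) (C.cons (nat_lit 531) (C.node (nat_lit 0) (nat_lit 1) (nat_lit 5) C.nil) C.nil)) (C.cons (nat_lit 275) (C.node (nat_lit 0) (nat_lit 5) (nat_lit 8) C.nil) C.nil))) C.nil)) C.nil))) C.nil)))) (C.cons (nat_lit 2053) (C.node (nat_lit 0) (nat_lit 5) (nat_lit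 11) (C.cons (nat_lit 2081) (C.ref (nat_lit 186) (nat_lit 3582863703552528)) C.nil)) C.nil))) C.nil)))) (C.cons (nat_lit 1033) (C.node (nat_lit 0) (nat_lit 5) (nat_lit 10) (C.cons (nat_lit 1057) (C.node (nat_lit 0) (nat_lit 1) (nat_lit 11) (C.cons (nat_lit 2083) (C.node (nat_lit 0) (nat_lit 2) (nat_lit 11) (C.cons (nat_lit 2053) (C.node (nat_lit 0) (nat_lit 1) (nat_lit 4) (C.cons (nat_lit 531) (C.ref (nat_lit 180) (nat_lit 3566370777473808)) (C.cons (nat_lit 275) (C.ref (nat_lit 180) (nat_lit 3566306352964368)) (C.cons (nat_lit 19) (C.node (nat_lit 0) (nat_lit 4) (nat_lit 8) (C.cons (nat_lit 305) (C.node (nat_lit 0) (nat_lit 4) (nat_lit 9) C.nil) C.nil)) C.nil)))) C.nil)) (C.cons (nat_lit 2055) (C.node (nat_lit 0) (nat_lit 5) (nat_lit 11) (C.cons (nat_lit 2081) (C.node (nat_lit 0) (nat_lit 1) (nat_lit 12) (C.cons (nat_lit 4107) (C.node (nat_lit 0) (nat_lit 2) (nat_lit 12) (C.cons (nat_lit 4101) (C.ref (nat_lit 176) (nat_lit 3038605142872848))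 C.nil)) (C.cons (nat_lit 4099) (C.node (nat_lit 0) (nat_lit 2) (nat_lit 12) (C.cons (nat_lit 4109) (C.ref (nat_lit 185) (nat_lit 3285994773554448)) C.nil)) C.nil))) C.nil)) (C.cons (nat_lit 2051) (C.node (nat_lit 0) (nat_lit 2) (nat_lit 11) (C.cons (nat_lit 2085) (C.ref (nat_lit 186) (nat_lit 3566370777473808)) (C.cons (nat_lit 2053) (C.node (nat_lit 0) (nat_lit 5) (nat_lit 11) C.nil) C.nil))) C.nil)))) C.nil)) C.nil))) C.nil)))) C.nil))) C.nil))) C.nil)))) List.nil)

theorem ok13_187 : okL par13 (nat_lit 188) c13_187 (nat_lit 187) = true := by decide +kernel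

noncomputable def c13_188 : List C :=
  (List.cons (C.node (nat_lit 0) (nat_lit 2) (nat_lit 7) (C.cons (nat_lit 389) (C.node (nat_lit 0) (nat_lit 5) (nat_lit 8) (C.cons (nat_lit 305) (C.node (nat_lit 0) (nat_lit 1) (nat_lit 4) (C.cons (nat_lit 4115) (C.node (nat_lit 0) (nat_lit 1) (nat_lit 3) (C.cons (nat_lit 267) (C.node (nat_lit 0) (nat_lit 6) (nat_lit 8) (C.cons (nat_lit 321) (C.node (nat_lit 0) (nat_lit 2) (nat_lit 4) (C.cons (nat_lit 533) (C.node (nat_lit 0) (nat_lit 2) (nat_lit 5) (C.cons (nat_lit 37) (C.node (nat_lit 0) (nat_lit 4) (nat_lit 6) (C.cons (nat_lit 81) (C.node (nat_lit 0) (nat_lit 5) (nat_lit 9) (C.cons (nat_lit 545) (C.node (nat_lit 0) (nat_lit 2) (nat_lit 3) (C.cons (nat_lit 4109) (C.pat (nat_lit 1) (nat_lit 700741681) (nat_lit 3338689113623251192691272051750149889)) C.nil)) C.nil)) C.nil)) C.nil)) (C.cons (nat_lit 21) (C.node (nat_lit 0) (nat_lit 2) (nat_lit 5) (C.cons (nat_lit 549) (C.node (nat_lit 0) (nat_lit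 2) (nat_lit 3) (C.cons (nat_lit 4109) (C.pat (nat_lit 2) (nat_lit 44411699587) (nat_lit 24419448363816043965797646298137709771995418849)) (C.cons (nat_lit 13) (C.node (nat_lit 0) (nat_lit 2) (nat_lit 12) (C.cons (nat_lit 4101) (C.node (nat_lit 0) (nat_lit 3) (nat_lit 12) C.nil) C.nil)) C.nil))) (C.cons (nat_lit 37) (C.node (nat_lit 0) (nat_lit 5) (nat_lit 9) (C.cons (nat_lit 545) (C.node (nat_lit 0) (nat_lit 2) (nat_lit 9) (C.cons (nat_lit 525) (C.node (nat_lit 0) (nat_lit 2) (nat_lit 12) C.nil) C.nil)) C.nil)) C.nil))) C.nil))) C.nil)) (C.cons (nat_lit 11) (C.node (nat_lit 0) (nat_lit 1) (nat_lit 8) (C.cons (nat_lit 259) (C.node (nat_lit 0) (nat_lit 2) (nat_lit 4) (C.cons (nat_lit 533) (C.node (nat_lit 0) (nat_lit 2) (nat_lit 5) (C.cons (nat_lit 37) (C.node (nat_lit 0) (nat_lit 4) (nat_lit 6) (C.cons (nat_lit 81) (C.node (nat_lit 0) (nat_lit 5) (nat_lit 9) C.nil) C.nil)) C.nil)) (C.cons (nat_lit 21) (C.node (nat_lit 0) (nat_lit 2) (nat_lit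 5) (C.cons (nat_lit 549) (C.node (nat_lit 0) (nat_lit 2) (nat_lit 3) (C.cons (nat_lit 4109) (C.node (nat_lit 0) (nat_lit 3) (nat_lit 8) (C.cons (nat_lit 329) (C.node (nat_lit 0) (nat_lit 3) (nat_lit 9) (C.cons (nat_lit 521) (C.node (nat_lit 0) (nat_lit 4) (nat_lit 6) (C.cons (nat_lit 593) (C.pat (nat_lit 2) (nat_lit 15724611429) (nat_lit 49084141975095076777660344935216272791763492609)) C.nil)) C.nil)) (C.cons (nat_lit 265) (C.node (nat_lit 0) (nat_lit 6) (nat_lit 8) C.nil) C.nil))) (C.cons (nat_lit 13) (C.node (nat_lit 0) (nat_lit 2) (nat_lit 12) C.nil) C.nil))) (C.cons (nat_lit 37) (C.node (nat_lit 0) (nat_lit 5) (nat_lit 9) C.nil) C.nil))) C.nil))) C.nil)) C.nil))) (C.cons (nat_lit 19) (C.node (nat_lit 0) (nat_lit 1) (nat_lit 8) (C.cons (nat_lit 267) (C.node (nat_lit 0) (nat_lit 1) (nat_lit 12) (C.cons (nat_lit 4099) (C.node (nat_lit 0) (nat_lit 6) (nat_lit 8) (C.cons (nat_lit 321) (C.node (nat_lit 0) (nat_lit 2) (nat_lit 5) (C.cons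 (nat_lit 549) (C.node (nat_lit 0) (nat_lit 2) (nat_lit 3) (C.cons (nat_lit 4109) (C.node (nat_lit 0) (nat_lit 2) (nat_lit 4) (C.cons (nat_lit 21) (C.node (nat_lit 0) (nat_lit 4) (nat_lit 12) C.nil) C.nil)) (C.cons (nat_lit 13) (C.node (nat_lit 0) (nat_lit 3) (nat_lit 12) C.nil) C.nil))) (C.cons (nat_lit 37) (C.node (nat_lit 0) (nat_lit 5) (nat_lit 9) C.nil) C.nil))) C.nil)) C.nil)) (C.cons (nat_lit 259) (C.node (nat_lit 0) (nat_lit 1) (nat_lit 3) (C.cons (nat_lit 4107) (C.node (nat_lit 0) (nat_lit 2) (nat_lit 3) (C.cons (nat_lit 525) (C.node (nat_lit 0) (nat_lit 2) (nat_lit 5) (C.cons (nat_lit 37) (C.node (nat_lit 0) (nat_lit 5) (nat_lit 9) (C.cons (nat_lit 545) (C.node (nat_lit 0) (nat_lit 2) (nat_lit 4) (C.cons (nat_lit 4117) (C.node (nat_lit 0) (nat_lit 3) (nat_lit 6) (C.cons (nat_lit 329) (C.pat (nat_lit 1) (nat_lit 2356753953) (nat_lit 21325392032705758157522733661183348961)) C.nil)) C.nil)) C.nil)) C.nil)) (C.cons (nat_lit 13)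 (C.node (nat_lit 0) (nat_lit 2) (nat_lit 5) (C.cons (nat_lit 549) (C.node (nat_lit 0) (nat_lit 2) (nat_lit 4) (C.cons (nat_lit 4117) (C.node (nat_lit 0) (nat_lit 3) (nat_lit 8) (C.cons (nat_lit 329)
  (C.node (nat_lit 0) (nat_lit 3) (nat_lit 9) (C.cons (nat_lit 521) (C.node (nat_lit 0) (nat_lit 4) (nat_lit 6) (C.cons (nat_lit 593) (C.pat (nat_lit 2) (nat_lit 15724611429) (nat_lit 49084141975095076777660344935216272791763492609)) C.nil)) C.nil)) (C.cons (nat_lit 265) (C.node (nat_lit 0) (nat_lit 6) (nat_lit 8) C.nil) C.nil))) (C.cons (nat_lit 21) (C.node (nat_lit 0) (nat_lit 2) (nat_lit 12) C.nil) C.nil))) (C.cons (nat_lit 37) (C.node (nat_lit 0) (nat_lit 5) (nat_lit 9) C.nil) C.nil))) C.nil))) (C.cons (nat_lit 11) (C.node (nat_lit 0) (nat_lit 1) (nat_lit 12) (C.cons (nat_lit 4099) (C.node (nat_lit 0) (nat_lit 2) (nat_lit 5) (C.cons (nat_lit 549) (C.node (nat_lit 0) (nat_lit 2) (nat_lit 3) (C.cons (nat_lit 4109) (C.node (nat_lit 0) (nat_lit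 2) (nat_lit 4) C.nil) C.nil)) C.nil)) C.nil)) C.nil))) C.nil))) C.nil))) (C.cons (nat_lit 289) (C.node (nat_lit 0) (nat_lit 1) (nat_lit 3) (C.cons (nat_lit 4107) (C.node (nat_lit 0) (nat_lit 1) (nat_lit 4) (C.cons (nat_lit 275) (C.node (nat_lit 0) (nat_lit 2) (nat_lit 3) (C.cons (nat_lit 525) (C.node (nat_lit 0) (nat_lit 2) (nat_lit 5) (C.cons (nat_lit 53) (C.pat (nat_lit 5) (nat_lit 285743500053) (nat_lit 49086641004540038858764667428725021612138234951)) (C.cons (nat_lit 37) (C.node (nat_lit 0) (nat_lit 2) (nat_lit 4) (C.cons (nat_lit 4117) (C.pat (nat_lit 1) (nat_lit 681004081) (nat_lit 1427912456629710894078560403040313089)) (C.cons (nat_lit 21) (C.node (nat_lit 0) (nat_lit 2) (nat_lit 12) (C.cons (nat_lit 4101) (C.node (nat_lit 0) (nat_lit 4) (nat_lit 12) C.nil) C.nil)) C.nil))) C.nil))) (C.cons (nat_lit 13) (C.node (nat_lit 0) (nat_lit 2) (nat_lit 12) (C.cons (nat_lit 4117) (C.node (nat_lit 0) (nat_lit 2) (nat_lit 5) (C.cons (nat_lit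 549) (C.node (nat_lit 0) (nat_lit 4) (nat_lit 5) (C.cons (nat_lit 49) (C.node (nat_lit 0) (nat_lit 3) (nat_lit 8) (C.cons (nat_lit 329) (C.pat (nat_lit 1) (nat_lit 1938081313) (nat_lit 21324937579520765275066455805557801289)) (C.cons (nat_lit 265) (C.node (nat_lit 0) (nat_lit 6) (nat_lit 8) C.nil) C.nil))) C.nil)) (C.cons (nat_lit 37) (C.node (nat_lit 0) (nat_lit 2) (nat_lit 9) (C.cons (nat_lit 517) (C.node (nat_lit 0) (nat_lit 3) (nat_lit 8) (C.cons (nat_lit 329) (C.pat (nat_lit 1) (nat_lit 1938081313) (nat_lit 21324937579520765275066455805557801289)) C.nil)) C.nil)) C.nil))) (C.cons (nat_lit 4101) (C.node (nat_lit 0) (nat_lit 4) (nat_lit 12) (C.cons (nat_lit 4113) (C.node (nat_lit 0) (nat_lit 3) (nat_lit 8) (C.cons (nat_lit 329) (C.node (nat_lit 0) (nat_lit 3) (nat_lit 9) C.nil) C.nil)) C.nil)) C.nil))) C.nil))) (C.cons (nat_lit 19) (C.node (nat_lit 0) (nat_lit 1) (nat_lit 8) (C.cons (nat_lit 259) (C.node (nat_lit 0) (nat_lit 2) (nat_lit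 3) (C.cons (nat_lit 525) (C.node (nat_lit 0) (nat_lit 2) (nat_lit 5) (C.cons (nat_lit 53) (C.node (nat_lit 0) (nat_lit 2) (nat_lit 12) (C.cons (nat_lit 4101) (C.node (nat_lit 0) (nat_lit 4) (nat_lit 12) C.nil) C.nil)) (C.cons (nat_lit 37) (C.node (nat_lit 0) (nat_lit 2) (nat_lit 4) (C.cons (nat_lit 4117) (C.node (nat_lit 0) (nat_lit 3) (nat_lit 6) (C.cons (nat_lit 329) (C.pat (nat_lit 1) (nat_lit 2356753953) (nat_lit 21325392032705758157522733661183348961)) C.nil)) C.nil)) C.nil))) (C.cons (nat_lit 13) (C.node (nat_lit 0) (nat_lit 2) (nat_lit 12) (C.cons (nat_lit 4117) (C.node (nat_lit 0) (nat_lit 2) (nat_lit 5) (C.cons (nat_lit 549) (C.node (nat_lit 0) (nat_lit 4) (nat_lit 5) C.nil) C.nil)) C.nil)) C.nil))) C.nil)) C.nil))) (C.cons (nat_lit 267) (C.node (nat_lit 0) (nat_lit 1) (nat_lit 4) (C.cons (nat_lit 4115) (C.node (nat_lit 0) (nat_lit 2) (nat_lit 12) (C.cons (nat_lit 4109) (C.node (nat_lit 0) (nat_lit 3) (nat_lit 6) (C.cons (nat_lit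 585) (C.pat (nat_lit 1) (nat_lit 3375920673) (nat_lit 3339275714286632784567422968960189001)) (C.cons (nat_lit 73) (C.node (nat_lit 0) (nat_lit 3) (nat_lit 9) (C.cons (nat_lit 521) (C.node (nat_lit 0) (nat_lit 4) (nat_lit 8) (C.cons (nat_lit 337) (C.pat (nat_lit 1) (nat_lit 1954792993) (nat_lit 21366475954379372489537782742793388369)) (C.cons (nat_lit 273)
  (C.node (nat_lit 0) (nat_lit 6) (nat_lit 8) C.nil) C.nil))) C.nil)) C.nil))) (C.cons (nat_lit 4101) (C.node (nat_lit 0) (nat_lit 3) (nat_lit 12) (C.cons (nat_lit 4105) (C.node (nat_lit 0) (nat_lit 2) (nat_lit 3) (C.cons (nat_lit 525) (C.node (nat_lit 0) (nat_lit 3) (nat_lit 6) (C.cons (nat_lit 73) (C.node (nat_lit 0) (nat_lit 2) (nat_lit 4) (C.cons (nat_lit 53) (C.pat (nat_lit 5) (nat_lit 696746015569) (nat_lit 177001763607757031769739321279068044303871836213)) C.nil)) C.nil)) (C.cons (nat_lit 13) (C.node (nat_lit 0) (nat_lit 3) (nat_lit 6) (C.cons (nat_lit 585) (C.pat (nat_lit 1)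 (nat_lit 967211857) (nat_lit 3338693229836779383844106340822753025)) C.nil)) C.nil))) C.nil)) C.nil))) (C.cons (nat_lit 19) (C.node (nat_lit 0) (nat_lit 1) (nat_lit 12) (C.cons (nat_lit 4099) (C.node (nat_lit 0) (nat_lit 3) (nat_lit 6) (C.cons (nat_lit 585) (C.pat (nat_lit 1) (nat_lit 967211857) (nat_lit 3338693229836779383844106340822753025)) (C.cons (nat_lit 73) (C.node (nat_lit 0) (nat_lit 3) (nat_lit 9) (C.cons (nat_lit 525) (C.node (nat_lit 0) (nat_lit 3) (nat_lit 12) C.nil) C.nil)) C.nil))) C.nil)) C.nil))) (C.cons (nat_lit 11) (C.node (nat_lit 0) (nat_lit 1) (nat_lit 8) (C.cons (nat_lit 275) (C.node (nat_lit 0) (nat_lit 1) (nat_lit 12) (C.cons (nat_lit 4099) (C.node (nat_lit 0) (nat_lit 3) (nat_lit 8) (C.cons (nat_lit 329) (C.node (nat_lit 0) (nat_lit 3) (nat_lit 9) (C.cons (nat_lit 525) (C.node (nat_lit 0) (nat_lit 3) (nat_lit 12) (C.cons (nat_lit 4105) (C.node (nat_lit 0) (nat_lit 2) (nat_lit 5) (C.cons (nat_lit 53) (C.node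 (nat_lit 0) (nat_lit 2) (nat_lit 12) C.nil) C.nil)) C.nil)) (C.cons (nat_lit 521) (C.node (nat_lit 0) (nat_lit 2) (nat_lit 3) (C.cons (nat_lit 4109) (C.node (nat_lit 0) (nat_lit 4) (nat_lit 12) C.nil) C.nil)) C.nil))) (C.cons (nat_lit 265) (C.node (nat_lit 0) (nat_lit 6) (nat_lit 8) C.nil) C.nil))) C.nil)) (C.cons (nat_lit 259) (C.node (nat_lit 0) (nat_lit 1) (nat_lit 4) (C.cons (nat_lit 4115) (C.node (nat_lit 0) (nat_lit 2) (nat_lit 12) (C.cons (nat_lit 4109) (C.node (nat_lit 0) (nat_lit 3) (nat_lit 8) (C.cons (nat_lit 329) (C.node (nat_lit 0) (nat_lit 3) (nat_lit 9) (C.cons (nat_lit 521) (C.node (nat_lit 0) (nat_lit 4) (nat_lit 8) C.nil) C.nil)) (C.cons (nat_lit 265) (C.node (nat_lit 0) (nat_lit 3) (nat_lit 6) (C.cons (nat_lit 585) (C.pat (nat_lit 1) (nat_lit 967211857) (nat_lit 3338693229836779383844106340822753025)) C.nil)) C.nil))) (C.cons (nat_lit 4101) (C.node (nat_lit 0) (nat_lit 3) (nat_lit 12) C.nil) C.nil))) (C.cons (nat_lit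 19) (C.node (nat_lit 0) (nat_lit 1) (nat_lit 12) C.nil) C.nil))) C.nil))) C.nil)))) C.nil))) (C.cons (nat_lit 133) (C.node (nat_lit 0) (nat_lit 7) (nat_lit 8) (C.cons (nat_lit 385) (C.node (nat_lit 0) (nat_lit 1) (nat_lit 3) (C.cons (nat_lit 4107) (C.node (nat_lit 0) (nat_lit 1) (nat_lit 4) (C.cons (nat_lit 275) (C.node (nat_lit 0) (nat_lit 2) (nat_lit 12) (C.cons (nat_lit 4117) (C.node (nat_lit 0) (nat_lit 4) (nat_lit 5) (C.cons (nat_lit 561) (C.node (nat_lit 0) (nat_lit 4) (nat_lit 6) (C.cons (nat_lit 81) (C.node (nat_lit 0) (nat_lit 2) (nat_lit 5) (C.cons (nat_lit 293) (C.node (nat_lit 0) (nat_lit 2) (nat_lit 3) (C.cons (nat_lit 525) (C.pat (nat_lit 2) (nat_lit 44410651283) (nat_lit 24419534796866469879954699719831033751177859297)) (C.cons (nat_lit 13) (C.node (nat_lit 0) (nat_lit 2) (nat_lit 9) C.nil) C.nil))) (C.cons (nat_lit 37) (C.node (nat_lit 0) (nat_lit 5) (nat_lit 8) C.nil) C.nil))) C.nil)) (C.cons (nat_lit 49) (C.node (nat_lit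 0) (nat_lit 4) (nat_lit 6) (C.cons (nat_lit 593) (C.node (nat_lit 0) (nat_lit 3) (nat_lit 6) (C.cons (nat_lit 329) (C.pat (nat_lit 1) (nat_lit 1770290225) (nat_lit 3338693862670799432765090540180545281)) (C.cons (nat_lit 73) (C.node (nat_lit 0) (nat_lit 6) (nat_lit 8) C.nil) C.nil))) (C.cons (nat_lit 81) (C.node (nat_lit 0) (nat_lit 4) (nat_lit 9) C.nil) C.nil))) C.nil))) (C.cons (nat_lit 4101) (C.node (nat_lit 0) (nat_lit 4) (nat_lit 12) (C.cons (nat_lit 4113) (C.node (nat_lit 0) (nat_lit 4) (nat_lit 6) (C.cons (nat_lit 593)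
  (C.node (nat_lit 0) (nat_lit 2) (nat_lit 4) (C.cons (nat_lit 53) (C.node (nat_lit 0) (nat_lit 5) (nat_lit 8) C.nil) C.nil)) C.nil)) C.nil)) C.nil))) (C.cons (nat_lit 19) (C.node (nat_lit 0) (nat_lit 1) (nat_lit 8) (C.cons (nat_lit 259) (C.node (nat_lit 0) (nat_lit 2) (nat_lit 12) (C.cons (nat_lit 4117) (C.node (nat_lit 0) (nat_lit 2) (nat_lit 3) (C.cons (nat_lit 525) (C.node (nat_lit 0) (nat_lit 2) (nat_lit 5) (C.cons (nat_lit 293) (C.node (nat_lit 0) (nat_lit 3) (nat_lit 6) (C.cons (nat_lit 329) (C.pat (nat_lit 5) (nat_lit 423148108849) (nat_lit 96364220825705426504810512559504952169359540749)) C.nil)) C.nil)) (C.cons (nat_lit 269) (C.node (nat_lit 0) (nat_lit 2) (nat_lit 5) (C.cons (nat_lit 549) (C.node (nat_lit 0) (nat_lit 3) (nat_lit 6) (C.cons (nat_lit 585) (C.pat (nat_lit 1) (nat_lit 967211857) (nat_lit 3338693229836779383844106340822753025)) C.nil)) C.nil)) C.nil))) C.nil)) C.nil)) C.nil))) (C.cons (nat_lit 267) (C.node (nat_lit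 0) (nat_lit 1) (nat_lit 4) (C.cons (nat_lit 4115) (C.node (nat_lit 0) (nat_lit 2) (nat_lit 12) (C.cons (nat_lit 4109) (C.node (nat_lit 0) (nat_lit 3) (nat_lit 6) (C.cons (nat_lit 585) (C.pat (nat_lit 1) (nat_lit 967211857) (nat_lit 3338693229836779383844106340822753025)) (C.cons (nat_lit 73) (C.node (nat_lit 0) (nat_lit 3) (nat_lit 9) (C.cons (nat_lit 521) (C.node (nat_lit 0) (nat_lit 6) (nat_lit 8) (C.cons (nat_lit 337) (C.node (nat_lit 0) (nat_lit 6) (nat_lit 9) C.nil) C.nil)) C.nil)) C.nil))) (C.cons (nat_lit 4101) (C.node (nat_lit 0) (nat_lit 3) (nat_lit 12) (C.cons (nat_lit 4105) (C.node (nat_lit 0) (nat_lit 2) (nat_lit 3) (C.cons (nat_lit 525) (C.node (nat_lit 0) (nat_lit 3) (nat_lit 6) C.nil) C.nil)) C.nil)) C.nil))) (C.cons (nat_lit 19) (C.node (nat_lit 0) (nat_lit 1) (nat_lit 12) (C.cons (nat_lit 4099) (C.node (nat_lit 0) (nat_lit 3) (nat_lit 6) (C.cons (nat_lit 585) (C.pat (nat_lit 1) (nat_lit 967211857) (nat_lit 3338693229836779383844106340822753025))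 C.nil)) C.nil)) C.nil))) (C.cons (nat_lit 11) (C.node (nat_lit 0) (nat_lit 1) (nat_lit 8) (C.cons (nat_lit 275) (C.node (nat_lit 0) (nat_lit 1) (nat_lit 12) (C.cons (nat_lit 4099) (C.node (nat_lit 0) (nat_lit 3) (nat_lit 12) (C.cons (nat_lit 4109) (C.node (nat_lit 0) (nat_lit 4) (nat_lit 12) C.nil) C.nil)) C.nil)) (C.cons (nat_lit 259) (C.node (nat_lit 0) (nat_lit 1) (nat_lit 4) (C.cons (nat_lit 4115) (C.node (nat_lit 0) (nat_lit 2) (nat_lit 12) (C.cons (nat_lit 4109) (C.node (nat_lit 0) (nat_lit 3) (nat_lit 8) (C.cons (nat_lit 329) (C.node (nat_lit 0) (nat_lit 3) (nat_lit 9) C.nil) C.nil)) C.nil)) C.nil)) C.nil))) C.nil)))) C.nil)) C.nil))) (List.cons (C.node (nat_lit 0) (nat_lit 5) (nat_lit 8) (C.cons (nat_lit 305) (C.node (nat_lit 0) (nat_lit 1) (nat_lit 8) (C.cons (nat_lit 267) (C.node (nat_lit 0) (nat_lit 6) (nat_lit 8) (C.cons (nat_lit 321) (C.node (nat_lit 0) (nat_lit 1) (nat_lit 9) (C.cons (nat_lit 531) (C.node (nat_lit 0) (nat_lit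 1) (nat_lit 12) (C.cons (nat_lit 4099) (C.node (nat_lit 0) (nat_lit 4) (nat_lit 6) C.nil) C.nil)) (C.cons (nat_lit 515) (C.node (nat_lit 0) (nat_lit 1) (nat_lit 4) (C.cons (nat_lit 4115) (C.node (nat_lit 0) (nat_lit 2) (nat_lit 4) (C.cons (nat_lit 533) (C.node (nat_lit 0) (nat_lit 2) (nat_lit 5) C.nil) C.nil)) C.nil)) C.nil))) C.nil)) (C.cons (nat_lit 259) (C.node (nat_lit 0) (nat_lit 2) (nat_lit 5) (C.cons (nat_lit 549) (C.node (nat_lit 0) (nat_lit 2) (nat_lit 3) (C.cons (nat_lit 4109) (C.node (nat_lit 0) (nat_lit 2) (nat_lit 4) (C.cons (nat_lit 21) (C.node (nat_lit 0) (nat_lit 1) (nat_lit 3) (C.cons (nat_lit 523) (C.node (nat_lit 0) (nat_lit 1) (nat_lit 4) (C.cons (nat_lit 4115) (C.node (nat_lit 0) (nat_lit 3) (nat_lit 6) (C.cons (nat_lit 329) (C.pat (nat_lit 5) (nat_lit 624303832099) (nat_lit 177002485003695633663652469583634163572656112711)) C.nil)) C.nil)) C.nil)) C.nil)) (C.cons (nat_lit 13) (C.node (nat_lit 0) (nat_lit 2) (nat_lit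 4) (C.cons (nat_lit 4117) (C.node (nat_lit 0) (nat_lit 1) (nat_lit 4) (C.cons (nat_lit 531)
  (C.node (nat_lit 0) (nat_lit 4) (nat_lit 6) C.nil) C.nil)) C.nil)) C.nil))) (C.cons (nat_lit 37) (C.node (nat_lit 0) (nat_lit 5) (nat_lit 9) C.nil) C.nil))) C.nil))) (C.cons (nat_lit 289) (C.node (nat_lit 0) (nat_lit 1) (nat_lit 8) (C.cons (nat_lit 275) (C.node (nat_lit 0) (nat_lit 1) (nat_lit 9) (C.cons (nat_lit 523) (C.node (nat_lit 0) (nat_lit 1) (nat_lit 12) (C.cons (nat_lit 4099) (C.node (nat_lit 0) (nat_lit 2) (nat_lit 3) (C.cons (nat_lit 4109) (C.node (nat_lit 0) (nat_lit 4) (nat_lit 12) C.nil) C.nil)) C.nil)) (C.cons (nat_lit 515) (C.node (nat_lit 0) (nat_lit 1) (nat_lit 3) (C.cons (nat_lit 4107) (C.node (nat_lit 0) (nat_lit 2) (nat_lit 3) (C.cons (nat_lit 525) (C.node (nat_lit 0) (nat_lit 2) (nat_lit 5) (C.cons (nat_lit 53) (C.pat (nat_lit 5) (nat_lit 285743500053) (nat_lit 49086641004540038858764667428725021612138234951)) C.nil)) C.nil))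 C.nil)) C.nil))) (C.cons (nat_lit 267) (C.node (nat_lit 0) (nat_lit 1) (nat_lit 9) (C.cons (nat_lit 531) (C.node (nat_lit 0) (nat_lit 1) (nat_lit 12) (C.cons (nat_lit 4099) (C.node (nat_lit 0) (nat_lit 3) (nat_lit 6) (C.cons (nat_lit 585) (C.node (nat_lit 0) (nat_lit 2) (nat_lit 3) (C.cons (nat_lit 4109) (C.node (nat_lit 0) (nat_lit 4) (nat_lit 12) C.nil) C.nil)) C.nil)) C.nil)) (C.cons (nat_lit 515) (C.node (nat_lit 0) (nat_lit 1) (nat_lit 4) (C.cons (nat_lit 4115) (C.node (nat_lit 0) (nat_lit 2) (nat_lit 12) (C.cons (nat_lit 4109) (C.node (nat_lit 0) (nat_lit 3) (nat_lit 6) (C.cons (nat_lit 585) (C.node (nat_lit 0) (nat_lit 4) (nat_lit 6) (C.cons (nat_lit 337) (C.pat (nat_lit 1) (nat_lit 1954792993) (nat_lit 21366475954379372489537782742793388369)) C.nil)) C.nil)) C.nil)) C.nil)) C.nil))) (C.cons (nat_lit 259) (C.node (nat_lit 0) (nat_lit 3) (nat_lit 8) (C.cons (nat_lit 329) (C.node (nat_lit 0) (nat_lit 4) (nat_lit 8) C.nil) C.nil))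 C.nil)))) C.nil))) (List.cons (C.node (nat_lit 0) (nat_lit 1) (nat_lit 7) (C.cons (nat_lit 643) (C.ref (nat_lit 188) (nat_lit 3582863703552528)) (C.cons (nat_lit 387) (C.ref (nat_lit 188) (nat_lit 3582799279043088)) (C.cons (nat_lit 131) (C.node (nat_lit 0) (nat_lit 7) (nat_lit 8) (C.cons (nat_lit 389) (C.node (nat_lit 0) (nat_lit 7) (nat_lit 9) (C.cons (nat_lit 641) (C.ref (nat_lit 189) (nat_lit 3582863703552528)) C.nil)) (C.cons (nat_lit 385) (C.node (nat_lit 0) (nat_lit 2) (nat_lit 7) (C.cons (nat_lit 645) (C.ref (nat_lit 189) (nat_lit 3582799279043088)) (C.cons (nat_lit 133) (C.node (nat_lit 0) (nat_lit 7) (nat_lit 9) (C.cons (nat_lit 641) (C.node (nat_lit 0) (nat_lit 1) (nat_lit 8) (C.cons (nat_lit 275) (C.node (nat_lit 0) (nat_lit 1) (nat_lit 9) (C.cons (nat_lit 523) (C.node (nat_lit 0) (nat_lit 1) (nat_lit 12) C.nil) C.nil)) (C.cons (nat_lit 267) (C.node (nat_lit 0) (nat_lit 1) (nat_lit 9) (C.cons (nat_lit 531) (C.node (nat_lit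 0) (nat_lit 1) (nat_lit 12) C.nil) C.nil)) C.nil))) C.nil)) C.nil))) C.nil))) C.nil)))) (List.cons (C.node (nat_lit 0) (nat_lit 2) (nat_lit 12) (C.cons (nat_lit 4117) (C.node (nat_lit 0) (nat_lit 4) (nat_lit 5) (C.cons (nat_lit 561) (C.node (nat_lit 0) (nat_lit 4) (nat_lit 6) (C.cons (nat_lit 81) (C.node (nat_lit 0) (nat_lit 2) (nat_lit 5) (C.cons (nat_lit 45) (C.pat (nat_lit 2) (nat_lit 24027186036) (nat_lit 1003665907113599516324581566197448741398060801)) (C.cons (nat_lit 37) (C.node (nat_lit 0) (nat_lit 2) (nat_lit 3) (C.cons (nat_lit 525) (C.pat (nat_lit 1) (nat_lit 681004081) (nat_lit 1427912456629710894078560403040313089)) C.nil)) C.nil))) C.nil)) (C.cons (nat_lit 49) (C.node (nat_lit 0) (nat_lit 4) (nat_lit 6) (C.cons (nat_lit 593) (C.pat (nat_lit 1) (nat_lit 3376969249) (nat_lit 3339275714296304191126591802171523665)) (C.cons (nat_lit 81) (C.node (nat_lit 0) (nat_lit 4) (nat_lit 9) C.nil) C.nil))) C.nil))) (C.cons (nat_lit 4101)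 (C.node (nat_lit 0) (nat_lit 4) (nat_lit 12) (C.cons (nat_lit 4113) (C.node (nat_lit 0) (nat_lit 4) (nat_lit 6) (C.cons (nat_lit 593) (C.node (nat_lit 0) (nat_lit 2) (nat_lit 4) (C.cons (nat_lit 53)
  (C.pat (nat_lit 2) (nat_lit 48697079873) (nat_lit 177001216428456506106036180039977626154336194785)) C.nil)) C.nil)) C.nil)) C.nil))) (List.cons (C.node (nat_lit 0) (nat_lit 2) (nat_lit 7) (C.cons (nat_lit 389) (C.node (nat_lit 0) (nat_lit 1) (nat_lit 3) (C.cons (nat_lit 4107) (C.node (nat_lit 0) (nat_lit 1) (nat_lit 4) (C.cons (nat_lit 275) (C.ref (nat_lit 191) (nat_lit 3582863703552528)) (C.cons (nat_lit 19) (C.node (nat_lit 0) (nat_lit 1) (nat_lit 8) (C.cons (nat_lit 259) (C.node (nat_lit 0) (nat_lit 2) (nat_lit 12) (C.cons (nat_lit 4117) (C.node (nat_lit 0) (nat_lit 2) (nat_lit 3) (C.cons (nat_lit 525) (C.node (nat_lit 0) (nat_lit 2) (nat_lit 5) C.nil) (C.cons (nat_lit 45) (C.node (nat_lit 0) (nat_lit 2) (nat_lit 9) C.nil) C.nil)))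 C.nil)) C.nil)) C.nil))) (C.cons (nat_lit 267) (C.node (nat_lit 0) (nat_lit 1) (nat_lit 4) (C.cons (nat_lit 4115) (C.ref (nat_lit 191) (nat_lit 3582863703491088)) (C.cons (nat_lit 19) (C.node (nat_lit 0) (nat_lit 1) (nat_lit 12) (C.cons (nat_lit 4099) (C.node (nat_lit 0) (nat_lit 3) (nat_lit 6) (C.cons (nat_lit 585) (C.node (nat_lit 0) (nat_lit 3) (nat_lit 5) (C.cons (nat_lit 45) (C.pat (nat_lit 2) (nat_lit 48697079857) (nat_lit 177001213706156032363660193711952522729556218081)) C.nil)) C.nil)) C.nil)) C.nil))) (C.cons (nat_lit 11) (C.node (nat_lit 0) (nat_lit 1) (nat_lit 8) (C.cons (nat_lit 275) (C.node (nat_lit 0) (nat_lit 1) (nat_lit 12) (C.cons (nat_lit 4099) (C.node (nat_lit 0) (nat_lit 4) (nat_lit 6) (C.cons (nat_lit 593) (C.node (nat_lit 0) (nat_lit 4) (nat_lit 5) (C.cons (nat_lit 53) (C.pat (nat_lit 2) (nat_lit 48697079873) (nat_lit 177001216428456506106036180039977626154336194785)) C.nil)) C.nil)) C.nil)) (C.cons (nat_lit 259)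 (C.node (nat_lit 0) (nat_lit 1) (nat_lit 4) (C.cons (nat_lit 4115) (C.node (nat_lit 0) (nat_lit 2) (nat_lit 12) (C.cons (nat_lit 4109) (C.node (nat_lit 0) (nat_lit 2) (nat_lit 4) (C.cons (nat_lit 533) (C.node (nat_lit 0) (nat_lit 2) (nat_lit 5) C.nil) (C.cons (nat_lit 53) (C.node (nat_lit 0) (nat_lit 2) (nat_lit 9) C.nil) C.nil))) C.nil)) C.nil)) C.nil))) C.nil)))) (C.cons (nat_lit 133) (C.node (nat_lit 0) (nat_lit 7) (nat_lit 8) (C.cons (nat_lit 385) (C.node (nat_lit 0) (nat_lit 1) (nat_lit 3) (C.cons (nat_lit 4107) (C.node (nat_lit 0) (nat_lit 1) (nat_lit 4) (C.cons (nat_lit 275) (C.node (nat_lit 0) (nat_lit 2) (nat_lit 12) (C.cons (nat_lit 4117) (C.node (nat_lit 0) (nat_lit 4) (nat_lit 5) (C.cons (nat_lit 561) (C.node (nat_lit 0) (nat_lit 4) (nat_lit 6) C.nil) C.nil)) C.nil)) C.nil)) (C.cons (nat_lit 267) (C.node (nat_lit 0) (nat_lit 1) (nat_lit 4) (C.cons (nat_lit 4115) (C.node (nat_lit 0) (nat_lit 2) (nat_lit 12) (C.cons (nat_lit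 4109) (C.node (nat_lit 0) (nat_lit 3) (nat_lit 5) (C.cons (nat_lit 553) (C.node (nat_lit 0) (nat_lit 3) (nat_lit 6) C.nil) C.nil)) C.nil)) C.nil)) C.nil))) C.nil)) C.nil))) (List.cons (C.node (nat_lit 0) (nat_lit 1) (nat_lit 7) (C.cons (nat_lit 643) (C.ref (nat_lit 192) (nat_lit 3582863703552528)) (C.cons (nat_lit 387) (C.ref (nat_lit 192) (nat_lit 3582799279043088)) (C.cons (nat_lit 131) (C.node (nat_lit 0) (nat_lit 7) (nat_lit 8) (C.cons (nat_lit 389) (C.node (nat_lit 0) (nat_lit 7) (nat_lit 9) (C.cons (nat_lit 641) (C.node (nat_lit 0) (nat_lit 1) (nat_lit 8) (C.cons (nat_lit 275) (C.node (nat_lit 0) (nat_lit 1) (nat_lit 9) (C.cons (nat_lit 523) (C.node (nat_lit 0) (nat_lit 1) (nat_lit 12) C.nil) C.nil)) (C.cons (nat_lit 267) (C.node (nat_lit 0) (nat_lit 1) (nat_lit 9) (C.cons (nat_lit 531) (C.node (nat_lit 0) (nat_lit 1) (nat_lit 12) C.nil) C.nil)) C.nil))) C.nil)) (C.cons (nat_lit 385) (C.node (nat_lit 0) (nat_lit 2) (nat_lit 7)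 (C.cons (nat_lit 645) (C.node (nat_lit 0) (nat_lit 1) (nat_lit 9) (C.cons (nat_lit 531) (C.node (nat_lit 0) (nat_lit 1) (nat_lit 8) (C.cons (nat_lit 267) (C.node (nat_lit 0) (nat_lit 1) (nat_lit 12) C.nil) C.nil)) (C.cons (nat_lit 523) (C.node (nat_lit 0) (nat_lit 1) (nat_lit 8) (C.cons (nat_lit 275)
  (C.node (nat_lit 0) (nat_lit 1) (nat_lit 12) C.nil) C.nil)) C.nil))) C.nil)) C.nil))) C.nil)))) (List.cons (C.node (nat_lit 0) (nat_lit 3) (nat_lit 10) (C.cons (nat_lit 1065) (C.node (nat_lit 0) (nat_lit 4) (nat_lit 10) (C.cons (nat_lit 1041) (C.ref (nat_lit 190) (nat_lit 3582863703552528)) C.nil)) (C.cons (nat_lit 1033) (C.node (nat_lit 0) (nat_lit 4) (nat_lit 10) (C.cons (nat_lit 1073) (C.ref (nat_lit 190) (nat_lit 3582863703491088)) (C.cons (nat_lit 1041) (C.node (nat_lit 0) (nat_lit 5) (nat_lit 10) (C.cons (nat_lit 1057) (C.ref (nat_lit 193) (nat_lit 3582863703552528)) C.nil)) C.nil))) C.nil))) (List.cons (C.node (nat_lit 0) (nat_lit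 2) (nat_lit 7) (C.cons (nat_lit 389) (C.node (nat_lit 0) (nat_lit 1) (nat_lit 12) (C.cons (nat_lit 4115) (C.node (nat_lit 0) (nat_lit 2) (nat_lit 12) (C.cons (nat_lit 4109) (C.node (nat_lit 0) (nat_lit 1) (nat_lit 3) (C.cons (nat_lit 267) (C.node (nat_lit 0) (nat_lit 1) (nat_lit 5) C.nil) (C.cons (nat_lit 43) (C.node (nat_lit 0) (nat_lit 1) (nat_lit 8) C.nil) C.nil))) C.nil)) (C.cons (nat_lit 4107) (C.node (nat_lit 0) (nat_lit 2) (nat_lit 12) (C.cons (nat_lit 4117) (C.node (nat_lit 0) (nat_lit 1) (nat_lit 4) (C.cons (nat_lit 275) (C.node (nat_lit 0) (nat_lit 1) (nat_lit 5) C.nil) (C.cons (nat_lit 51) (C.node (nat_lit 0) (nat_lit 1) (nat_lit 8) C.nil) C.nil))) C.nil)) C.nil))) C.nil)) List.nil))))))))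

theorem ok13_188 : okL par13 (nat_lit 196) c13_188 (nat_lit 188) = true := by decide +kernel

noncomputable def c13_196 : List C :=
  (List.cons (C.big (C.cons (nat_lit 565) (C.ref (nat_lit 140) (nat_lit 3548847043519248)) (C.cons (nat_lit 563) (C.ref (nat_lit 140) (nat_lit 3548847043515168)) (C.cons (nat_lit 557) (C.ref (nat_lit 140) (nat_lit 3548847043453968)) (C.cons (nat_lit 555) (C.ref (nat_lit 140) (nat_lit 3548847043449888)) (C.cons (nat_lit 309) (C.ref (nat_lit 140) (nat_lit 3531259152442128)) (C.cons (nat_lit 307) (C.ref (nat_lit 140) (nat_lit 3531259152438048)) (C.cons (nat_lit 301) (C.ref (nat_lit 140) (nat_lit 3531259152376848)) (C.cons (nat_lit 299) (C.ref (nat_lit 140) (nat_lit 3531259152372768)) C.nil)))))))) (C.node (nat_lit 0) (nat_lit 6) (nat_lit 11) (C.cons (nat_lit 2113) (C.node (nat_lit 0) (nat_lit 7) (nat_lit 10) (C.cons (nat_lit 1153) (C.node (nat_lit 0) (nat_lit 1) (nat_lit 11) (C.cons (nat_lit 2083) (C.node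 (nat_lit 0) (nat_lit 2) (nat_lit 11) (C.cons (nat_lit 2053) (C.ref (nat_lit 194) (nat_lit 3582863703552528)) C.nil)) (C.cons (nat_lit 2051) (C.node (nat_lit 0) (nat_lit 2) (nat_lit 11) (C.cons (nat_lit 2085) (C.ref (nat_lit 194) (nat_lit 3582863703552288)) (C.cons (nat_lit 2053) (C.node (nat_lit 0) (nat_lit 5) (nat_lit 11) (C.cons (nat_lit 2081) (C.node (nat_lit 0) (nat_lit 3) (nat_lit 10) (C.cons (nat_lit 1065) (C.node (nat_lit 0) (nat_lit 4) (nat_lit 10) (C.cons (nat_lit 1041) (C.ref (nat_lit 193) (nat_lit 3566370777338928)) C.nil)) (C.cons (nat_lit 1033) (C.node (nat_lit 0) (nat_lit 4) (nat_lit 10) (C.cons (nat_lit 1073) (C.ref (nat_lit 193) (nat_lit 3566370777338688)) (C.cons (nat_lit 1041) (C.node (nat_lit 0) (nat_lit 5) (nat_lit 10) (C.cons (nat_lit 1057) (C.node (nat_lit 0) (nat_lit 1) (nat_lit 7) (C.cons (nat_lit 643) (C.ref (nat_lit 195) (nat_lit 3582863703552528)) (C.cons (nat_lit 387) (C.ref (nat_lit 195) (nat_lit 3582799279043088))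 C.nil))) C.nil)) C.nil))) C.nil))) C.nil)) C.nil))) C.nil))) C.nil)) C.nil))) (List.cons (C.node (nat_lit 0) (nat_lit 4) (nat_lit 8) (C.cons (nat_lit 305) (C.node (nat_lit 0) (nat_lit 4) (nat_lit 9) (C.cons (nat_lit 529) (C.node (nat_lit 0) (nat_lit 4) (nat_lit 10) (C.cons (nat_lit 1041) (C.node (nat_lit 0) (nat_lit 2) (nat_lit 8) (C.cons (nat_lit 269) (C.node (nat_lit 0) (nat_lit 6) (nat_lit 8) C.nil) C.nil)) C.nil)) C.nil)) (C.cons (nat_lit 273) (C.node (nat_lit 0) (nat_lit 4) (nat_lit 9) (C.cons (nat_lit 561) (C.node (nat_lit 0) (nat_lit 4) (nat_lit 10) (C.cons (nat_lit 1041) (C.node (nat_lit 0) (nat_lit 6) (nat_lit 8) (C.cons (nat_lit 329) (C.node (nat_lit 0) (nat_lit 6) (nat_lit 9) C.nil) C.nil)) C.nil)) (C.cons (nat_lit 529) (C.node (nat_lit 0) (nat_lit 4) (nat_lit 5) (C.cons (nat_lit 1073) (C.node (nat_lit 0) (nat_lit 6) (nat_lit 8) (C.cons (nat_lit 329) (C.node (nat_lit 0) (nat_lit 6) (nat_lit 10) C.nil) C.nil)) C.nil)) C.nil)))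 C.nil))) (List.cons (C.node (nat_lit 0) (nat_lit 1) (nat_lit 8) (C.cons (nat_lit 387) (C.node (nat_lit 0) (nat_lit 1) (nat_lit 9) (C.cons (nat_lit 515) (C.node (nat_lit 0) (nat_lit 1) (nat_lit 10) (C.cons (nat_lit 1027) (C.ref (nat_lit 197) (nat_lit 3582863703552528)) C.nil)) C.nil)) (C.cons (nat_lit 259) (C.node (nat_lit 0) (nat_lit 1) (nat_lit 9) (C.cons (nat_lit 643) (C.node (nat_lit 0) (nat_lit 1) (nat_lit 10) (C.cons (nat_lit 1027) (C.ref (nat_lit 197) (nat_lit 3582799279043088)) C.nil)) (C.cons (nat_lit 515) (C.node (nat_lit 0) (nat_lit 1) (nat_lit 7) (C.cons (nat_lit 1155) (C.ref (nat_lit 197) (nat_lit 3581704062382608)) (C.cons (nat_lit 131) (C.node (nat_lit 0) (nat_lit 1) (nat_lit 10) (C.cons (nat_lit 1027) (C.node (nat_lit 0) (nat_lit 4) (nat_lit 8) (C.cons (nat_lit 305) (C.node (nat_lit 0) (nat_lit 4) (nat_lit 9) C.nil) C.nil)) C.nil)) C.nil))) C.nil))) C.nil))) (List.cons (C.node (nat_lit 0) (nat_lit 2) (nat_lit 8) (C.cons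 (nat_lit 389) (C.node (nat_lit 0) (nat_lit 1) (nat_lit 8) (C.cons (nat_lit 267) (C.node (nat_lit 0) (nat_lit 6) (nat_lit 8) (C.cons (nat_lit 321) (C.node (nat_lit 0) (nat_lit 1) (nat_lit 9) (C.cons (nat_lit 643) (C.node (nat_lit 0) (nat_lit 1) (nat_lit 10) (C.cons (nat_lit 1027)
  (C.node (nat_lit 0) (nat_lit 7) (nat_lit 10) C.nil) C.nil)) (C.cons (nat_lit 515) (C.node (nat_lit 0) (nat_lit 7) (nat_lit 9) C.nil) C.nil))) C.nil)) (C.cons (nat_lit 259) (C.node (nat_lit 0) (nat_lit 2) (nat_lit 9) (C.cons (nat_lit 549) (C.node (nat_lit 0) (nat_lit 2) (nat_lit 10) (C.cons (nat_lit 1029) (C.node (nat_lit 0) (nat_lit 3) (nat_lit 5) (C.cons (nat_lit 1065) (C.node (nat_lit 0) (nat_lit 6) (nat_lit 10) C.nil) C.nil)) C.nil)) (C.cons (nat_lit 517) (C.node (nat_lit 0) (nat_lit 2) (nat_lit 5) (C.cons (nat_lit 1061) (C.node (nat_lit 0) (nat_lit 3) (nat_lit 5) (C.cons (nat_lit 553) (C.node (nat_lit 0) (nat_lit 6) (nat_lit 9) C.nil) C.nil)) C.nil)) C.nil)))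 C.nil))) (C.cons (nat_lit 261) (C.node (nat_lit 0) (nat_lit 6) (nat_lit 8) (C.cons (nat_lit 329) (C.node (nat_lit 0) (nat_lit 6) (nat_lit 9) (C.cons (nat_lit 577) (C.node (nat_lit 0) (nat_lit 6) (nat_lit 10) C.nil) C.nil)) (C.cons (nat_lit 321) (C.node (nat_lit 0) (nat_lit 3) (nat_lit 8) (C.cons (nat_lit 267) (C.node (nat_lit 0) (nat_lit 7) (nat_lit 8) C.nil) C.nil)) C.nil))) C.nil))) (List.cons (C.node (nat_lit 0) (nat_lit 4) (nat_lit 8) (C.cons (nat_lit 305) (C.node (nat_lit 0) (nat_lit 4) (nat_lit 9) (C.cons (nat_lit 529) (C.node (nat_lit 0) (nat_lit 4) (nat_lit 10) (C.cons (nat_lit 1041) (C.node (nat_lit 0) (nat_lit 6) (nat_lit 8) (C.cons (nat_lit 329) (C.node (nat_lit 0) (nat_lit 6) (nat_lit 9) C.nil) C.nil)) C.nil)) C.nil)) (C.cons (nat_lit 273) (C.node (nat_lit 0) (nat_lit 4) (nat_lit 9) (C.cons (nat_lit 561) (C.node (nat_lit 0) (nat_lit 4) (nat_lit 10) (C.cons (nat_lit 1041) (C.node (nat_lit 0) (nat_lit 6) (nat_lit 9) (C.cons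 (nat_lit 585) (C.node (nat_lit 0) (nat_lit 6) (nat_lit 8) C.nil) C.nil)) C.nil)) (C.cons (nat_lit 529) (C.node (nat_lit 0) (nat_lit 4) (nat_lit 5) (C.cons (nat_lit 1073) (C.node (nat_lit 0) (nat_lit 6) (nat_lit 10) (C.cons (nat_lit 1097) (C.node (nat_lit 0) (nat_lit 6) (nat_lit 8) C.nil) C.nil)) C.nil)) C.nil))) C.nil))) (List.cons (C.node (nat_lit 0) (nat_lit 2) (nat_lit 12) (C.cons (nat_lit 4109) (C.node (nat_lit 0) (nat_lit 4) (nat_lit 8) (C.cons (nat_lit 305) (C.node (nat_lit 0) (nat_lit 4) (nat_lit 9) (C.cons (nat_lit 529) (C.node (nat_lit 0) (nat_lit 4) (nat_lit 10) (C.cons (nat_lit 1041) (C.ref (nat_lit 199) (nat_lit 3582863703552528)) C.nil)) C.nil)) (C.cons (nat_lit 273) (C.node (nat_lit 0) (nat_lit 4) (nat_lit 9) (C.cons (nat_lit 561) (C.node (nat_lit 0) (nat_lit 4) (nat_lit 10) (C.cons (nat_lit 1041) (C.ref (nat_lit 199) (nat_lit 3582799279043088)) C.nil)) (C.cons (nat_lit 529) (C.node (nat_lit 0) (nat_lit 4) (nat_lit 5) (C.cons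 (nat_lit 1073) (C.ref (nat_lit 199) (nat_lit 3581704062382608)) (C.cons (nat_lit 49) (C.node (nat_lit 0) (nat_lit 4) (nat_lit 10) (C.cons (nat_lit 1041) (C.node (nat_lit 0) (nat_lit 6) (nat_lit 8) (C.cons (nat_lit 329) (C.node (nat_lit 0) (nat_lit 6) (nat_lit 9) C.nil) C.nil)) C.nil)) C.nil))) C.nil))) C.nil))) (C.cons (nat_lit 4101) (C.node (nat_lit 0) (nat_lit 3) (nat_lit 12) (C.cons (nat_lit 4105) (C.ref (nat_lit 200) (nat_lit 3582863703552528)) C.nil)) C.nil))) (List.cons (C.big (C.cons (nat_lit 1069) (C.ref (nat_lit 141) (nat_lit 3582863687762448)) (C.cons (nat_lit 1067) (C.ref (nat_lit 141) (nat_lit 3582863687762208)) (C.cons (nat_lit 557) (C.ref (nat_lit 141) (nat_lit 3581832895611408)) (C.cons (nat_lit 555) (C.ref (nat_lit 141) (nat_lit 3581832895611168)) (C.cons (nat_lit 301) (C.ref (nat_lit 141) (nat_lit 3580737678950928)) (C.cons (nat_lit 299) (C.ref (nat_lit 141) (nat_lit 3580737678950688)) C.nil)))))) (C.node (nat_lit 0)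 (nat_lit 4) (nat_lit 12) (C.cons (nat_lit 4113) (C.node (nat_lit 0) (nat_lit 6) (nat_lit 11) (C.cons (nat_lit 2113) (C.node (nat_lit 0) (nat_lit 1) (nat_lit 11) (C.cons (nat_lit 2083) (C.node (nat_lit 0) (nat_lit 2) (nat_lit 11) (C.cons (nat_lit 2053) (C.node (nat_lit 0) (nat_lit 1) (nat_lit 12) (C.cons (nat_lit 4107) (C.node (nat_lit 0) (nat_lit 2) (nat_lit 12) (C.cons (nat_lit 4101) (C.ref (nat_lit 198) (nat_lit 3582863703552528)) C.nil)) (C.cons (nat_lit 4099)
  (C.ref (nat_lit 201) (nat_lit 3582863703552528)) C.nil))) C.nil)) (C.cons (nat_lit 2051) (C.node (nat_lit 0) (nat_lit 1) (nat_lit 12) (C.cons (nat_lit 4107) (C.node (nat_lit 0) (nat_lit 2) (nat_lit 12) (C.cons (nat_lit 4101) (C.ref (nat_lit 201) (nat_lit 3318980877373968)) C.nil)) (C.cons (nat_lit 4099) (C.node (nat_lit 0) (nat_lit 2) (nat_lit 11) (C.cons (nat_lit 2085) (C.node (nat_lit 0) (nat_lit 2) (nat_lit 12) (C.cons (nat_lit 4109) (C.ref (nat_lit 198) (nat_lit 3582863703552288))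 (C.cons (nat_lit 4101) (C.node (nat_lit 0) (nat_lit 3) (nat_lit 12) (C.cons (nat_lit 4105) (C.ref (nat_lit 200) (nat_lit 3582863703552288)) C.nil)) C.nil))) (C.cons (nat_lit 2053) (C.node (nat_lit 0) (nat_lit 5) (nat_lit 11) (C.cons (nat_lit 2081) (C.node (nat_lit 0) (nat_lit 2) (nat_lit 12) (C.cons (nat_lit 4109) (C.ref (nat_lit 200) (nat_lit 3318980877373728)) (C.cons (nat_lit 4101) (C.node (nat_lit 0) (nat_lit 3) (nat_lit 12) (C.cons (nat_lit 4105) (C.node (nat_lit 0) (nat_lit 4) (nat_lit 8) (C.cons (nat_lit 305) (C.node (nat_lit 0) (nat_lit 4) (nat_lit 9) C.nil) C.nil)) C.nil)) C.nil))) C.nil)) C.nil))) C.nil))) C.nil))) C.nil)) C.nil))) (List.cons (C.big (C.cons (nat_lit 4119) (C.ref (nat_lit 111) (nat_lit 3582863703548208)) (C.cons (nat_lit 4111) (C.ref (nat_lit 111) (nat_lit 3582863703482688)) (C.cons (nat_lit 2119) (C.ref (nat_lit 111) (nat_lit 3318980877361488)) (C.cons (nat_lit 2087) (C.ref (nat_lit 111) (nat_lit 3318980877295968))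 (C.cons (nat_lit 1159) (C.ref (nat_lit 138) (nat_lit 3582863703552528)) (C.cons (nat_lit 1109) (C.ref (nat_lit 187) (nat_lit 3582863703552528)) (C.cons (nat_lit 1107) (C.ref (nat_lit 187) (nat_lit 3582863703552288)) (C.cons (nat_lit 1101) (C.ref (nat_lit 187) (nat_lit 3582863703491088)) (C.cons (nat_lit 1099) (C.ref (nat_lit 187) (nat_lit 3582863703490848)) (C.cons (nat_lit 1095) (C.ref (nat_lit 196) (nat_lit 3582863703552528)) (C.cons (nat_lit 1077) (C.ref (nat_lit 187) (nat_lit 3582863687823888)) (C.cons (nat_lit 1075) (C.ref (nat_lit 187) (nat_lit 3582863687823648)) (C.cons (nat_lit 1069) (C.ref (nat_lit 187) (nat_lit 3582863687762448)) (C.cons (nat_lit 1067) (C.ref (nat_lit 187) (nat_lit 3582863687762208)) (C.cons (nat_lit 1063) (C.ref (nat_lit 196) (nat_lit 3582863687823888)) (C.cons (nat_lit 1047) (C.ref (nat_lit 196) (nat_lit 3318980877373968)) (C.cons (nat_lit 1039) (C.ref (nat_lit 196) (nat_lit 3318980861645328)) (C.cons (nat_lit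 647) (C.ref (nat_lit 138) (nat_lit 3581832911401488)) (C.cons (nat_lit 597) (C.ref (nat_lit 187) (nat_lit 3581832911401488)) (C.cons (nat_lit 595) (C.ref (nat_lit 187) (nat_lit 3581832911401248)) (C.cons (nat_lit 589) (C.ref (nat_lit 187) (nat_lit 3581832911340048)) (C.cons (nat_lit 587) (C.ref (nat_lit 187) (nat_lit 3581832911339808)) (C.cons (nat_lit 583) (C.ref (nat_lit 196) (nat_lit 3581832911401488)) (C.cons (nat_lit 565) (C.ref (nat_lit 187) (nat_lit 3581832895672848)) (C.cons (nat_lit 563) (C.ref (nat_lit 187) (nat_lit 3581832895672608)) (C.cons (nat_lit 557) (C.ref (nat_lit 187) (nat_lit 3581832895611408)) (C.cons (nat_lit 555) (C.ref (nat_lit 187) (nat_lit 3581832895611168)) (C.cons (nat_lit 551) (C.ref (nat_lit 196) (nat_lit 3581832895672848)) (C.cons (nat_lit 535) (C.ref (nat_lit 196) (nat_lit 3317950085222928)) (C.cons (nat_lit 527) (C.ref (nat_lit 196) (nat_lit 3317950069494288)) (C.cons (nat_lit 391) (C.ref (nat_lit 138)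 (nat_lit 3580737694741008)) (C.cons (nat_lit 341) (C.ref (nat_lit 187) (nat_lit 3580737694741008)) (C.cons (nat_lit 339) (C.ref (nat_lit 187) (nat_lit 3580737694740768)) (C.cons (nat_lit 333) (C.ref (nat_lit 187) (nat_lit 3580737694679568)) (C.cons (nat_lit 331) (C.ref (nat_lit 187) (nat_lit 3580737694679328)) (C.cons (nat_lit 327) (C.ref (nat_lit 196) (nat_lit 3580737694741008)) (C.cons (nat_lit 309) (C.ref (nat_lit 187) (nat_lit 3580737679012368)) (C.cons (nat_lit 307) (C.ref (nat_lit 187) (nat_lit 3580737679012128)) (C.cons (nat_lit 301) (C.ref (nat_lit 187) (nat_lit 3580737678950928)) (C.cons (nat_lit 299)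
  (C.ref (nat_lit 187) (nat_lit 3580737678950688)) (C.cons (nat_lit 295) (C.ref (nat_lit 196) (nat_lit 3580737679012368)) (C.cons (nat_lit 279) (C.ref (nat_lit 196) (nat_lit 3316854868562448)) (C.cons (nat_lit 271) (C.ref (nat_lit 196) (nat_lit 3316854852833808)) (C.cons (nat_lit 87) (C.ref (nat_lit 202) (nat_lit 3582863703552528)) (C.cons (nat_lit 79) (C.ref (nat_lit 202) (nat_lit 3582863703491088)) (C.cons (nat_lit 55) (C.ref (nat_lit 202) (nat_lit 3582863687823888)) (C.cons (nat_lit 47) (C.ref (nat_lit 202) (nat_lit 3582863687762448)) C.nil))))))))))))))))))))))))))))))))))))))))))))))) C.nil) (List.cons (C.big (C.cons (nat_lit 1171) (C.ref (nat_lit 196) (nat_lit 3038605410194208)) (C.cons (nat_lit 1163) (C.ref (nat_lit 196) (nat_lit 3038605393417248)) (C.cons (nat_lit 1159) (C.ref (nat_lit 196) (nat_lit 3038605376640048)) (C.cons (nat_lit 1107) (C.ref (nat_lit 196) (nat_lit 3038605141824288)) (C.cons (nat_lit 1099) (C.ref (nat_lit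 196) (nat_lit 3038605125047328)) (C.cons (nat_lit 1095) (C.ref (nat_lit 196) (nat_lit 3038605108270128)) (C.cons (nat_lit 1075) (C.ref (nat_lit 196) (nat_lit 3038604873392928)) (C.cons (nat_lit 1067) (C.ref (nat_lit 196) (nat_lit 3038604856615968)) (C.cons (nat_lit 1063) (C.ref (nat_lit 196) (nat_lit 3038604839838768)) (C.cons (nat_lit 659) (C.ref (nat_lit 196) (nat_lit 2757199152960288)) (C.cons (nat_lit 651) (C.ref (nat_lit 196) (nat_lit 2757199136183328)) (C.cons (nat_lit 647) (C.ref (nat_lit 196) (nat_lit 2757199119406128)) (C.cons (nat_lit 595) (C.ref (nat_lit 196) (nat_lit 2757198884590368)) (C.cons (nat_lit 587) (C.ref (nat_lit 196) (nat_lit 2757198867813408)) (C.cons (nat_lit 583) (C.ref (nat_lit 196) (nat_lit 2757198851036208)) (C.cons (nat_lit 563) (C.ref (nat_lit 196) (nat_lit 2757198616159008)) (C.cons (nat_lit 555) (C.ref (nat_lit 196) (nat_lit 2757198599382048)) (C.cons (nat_lit 551) (C.ref (nat_lit 196) (nat_lit 2757198582604848))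 (C.cons (nat_lit 403) (C.ref (nat_lit 196) (nat_lit 2475728471216928)) (C.cons (nat_lit 395) (C.ref (nat_lit 196) (nat_lit 2475728454439968)) (C.cons (nat_lit 391) (C.ref (nat_lit 196) (nat_lit 2475728437662768)) (C.cons (nat_lit 339) (C.ref (nat_lit 196) (nat_lit 2475728202847008)) (C.cons (nat_lit 331) (C.ref (nat_lit 196) (nat_lit 2475728186070048)) (C.cons (nat_lit 327) (C.ref (nat_lit 196) (nat_lit 2475728169292848)) (C.cons (nat_lit 307) (C.ref (nat_lit 196) (nat_lit 2475727934415648)) (C.cons (nat_lit 299) (C.ref (nat_lit 196) (nat_lit 2475727917638688)) (C.cons (nat_lit 295) (C.ref (nat_lit 196) (nat_lit 2475727900861488)) C.nil))))))))))))))))))))))))))) C.nil) (List.cons (C.big (C.cons (nat_lit 2131) (C.ref (nat_lit 202) (nat_lit 3582863451886368)) (C.cons (nat_lit 2123) (C.ref (nat_lit 202) (nat_lit 3582863451821088)) (C.cons (nat_lit 2119) (C.ref (nat_lit 202) (nat_lit 3582863451755568)) (C.cons (nat_lit 2099) (C.ref (nat_lit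 202) (nat_lit 3582863184499488)) (C.cons (nat_lit 2091) (C.ref (nat_lit 202) (nat_lit 3582863184434208)) (C.cons (nat_lit 2087) (C.ref (nat_lit 202) (nat_lit 3582863184368688)) (C.cons (nat_lit 1107) (C.ref (nat_lit 202) (nat_lit 3566370777469728)) (C.cons (nat_lit 1099) (C.ref (nat_lit 202) (nat_lit 3566370777404448)) (C.cons (nat_lit 1095) (C.ref (nat_lit 202) (nat_lit 3566370777338928)) (C.cons (nat_lit 1075) (C.ref (nat_lit 202) (nat_lit 3566370510082848)) (C.cons (nat_lit 1067) (C.ref (nat_lit 202) (nat_lit 3566370510017568)) (C.cons (nat_lit 1063) (C.ref (nat_lit 202) (nat_lit 3566370509952048)) (C.cons (nat_lit 595) (C.ref (nat_lit 202) (nat_lit 3548847310902048)) (C.cons (nat_lit 587) (C.ref (nat_lit 202) (nat_lit 3548847310836768)) (C.cons (nat_lit 583) (C.ref (nat_lit 202) (nat_lit 3548847310771248)) (C.cons (nat_lit 563) (C.ref (nat_lit 202) (nat_lit 3548847043515168)) (C.cons (nat_lit 555) (C.ref (nat_lit 202) (nat_lit 3548847043449888))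 (C.cons (nat_lit 551) (C.ref (nat_lit 202) (nat_lit 3548847043384368)) (C.cons (nat_lit 339) (C.ref (nat_lit 202) (nat_lit 3531259419824928)) (C.cons (nat_lit 331)
  (C.ref (nat_lit 202) (nat_lit 3531259419759648)) (C.cons (nat_lit 327) (C.ref (nat_lit 202) (nat_lit 3531259419694128)) (C.cons (nat_lit 307) (C.ref (nat_lit 202) (nat_lit 3531259152438048)) (C.cons (nat_lit 299) (C.ref (nat_lit 202) (nat_lit 3531259152372768)) (C.cons (nat_lit 295) (C.ref (nat_lit 202) (nat_lit 3531259152307248)) C.nil)))))))))))))))))))))))) C.nil) (List.cons (C.big C.nil C.nil) (List.cons (C.big (C.cons (nat_lit 4125) (C.ref (nat_lit 112) (nat_lit 3582863703552528)) (C.cons (nat_lit 4123) (C.ref (nat_lit 112) (nat_lit 3582863703552288)) (C.cons (nat_lit 4119) (C.ref (nat_lit 112) (nat_lit 3582863703548208)) (C.cons (nat_lit 4111) (C.ref (nat_lit 112) (nat_lit 3582863703482688)) (C.cons (nat_lit 2201) (C.ref (nat_lit 203) (nat_lit 3582863703552528)) (C.cons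 (nat_lit 2197) (C.ref (nat_lit 203) (nat_lit 3582863703548688)) (C.cons (nat_lit 2195) (C.ref (nat_lit 203) (nat_lit 3582863703544608)) (C.cons (nat_lit 2189) (C.ref (nat_lit 203) (nat_lit 3582863703483408)) (C.cons (nat_lit 2187) (C.ref (nat_lit 203) (nat_lit 3582863703479328)) (C.cons (nat_lit 2183) (C.ref (nat_lit 203) (nat_lit 3582863703413808)) (C.cons (nat_lit 2137) (C.ref (nat_lit 203) (nat_lit 3582863451894288)) (C.cons (nat_lit 2133) (C.ref (nat_lit 203) (nat_lit 3582863451890448)) (C.cons (nat_lit 2131) (C.ref (nat_lit 203) (nat_lit 3582863451886368)) (C.cons (nat_lit 2125) (C.ref (nat_lit 203) (nat_lit 3582863451825168)) (C.cons (nat_lit 2123) (C.ref (nat_lit 203) (nat_lit 3582863451821088)) (C.cons (nat_lit 2119) (C.ref (nat_lit 203) (nat_lit 3582863451755568)) (C.cons (nat_lit 2105) (C.ref (nat_lit 203) (nat_lit 3582863184507408)) (C.cons (nat_lit 2101) (C.ref (nat_lit 203) (nat_lit 3582863184503568)) (C.cons (nat_lit 2099)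 (C.ref (nat_lit 203) (nat_lit 3582863184499488)) (C.cons (nat_lit 2093) (C.ref (nat_lit 203) (nat_lit 3582863184438288)) (C.cons (nat_lit 2091) (C.ref (nat_lit 203) (nat_lit 3582863184434208)) (C.cons (nat_lit 2087) (C.ref (nat_lit 203) (nat_lit 3582863184368688)) (C.cons (nat_lit 2077) (C.ref (nat_lit 204) (nat_lit 3582863703552528)) (C.cons (nat_lit 2075) (C.ref (nat_lit 204) (nat_lit 3582863703552288)) (C.cons (nat_lit 2071) (C.ref (nat_lit 204) (nat_lit 3582863703548208)) (C.cons (nat_lit 2063) (C.ref (nat_lit 204) (nat_lit 3582863703482688)) (C.cons (nat_lit 1177) (C.ref (nat_lit 203) (nat_lit 3566371029135888)) (C.cons (nat_lit 1173) (C.ref (nat_lit 203) (nat_lit 3566371029132048)) (C.cons (nat_lit 1171) (C.ref (nat_lit 203) (nat_lit 3566371029127968)) (C.cons (nat_lit 1165) (C.ref (nat_lit 203) (nat_lit 3566371029066768)) (C.cons (nat_lit 1163) (C.ref (nat_lit 203) (nat_lit 3566371029062688)) (C.cons (nat_lit 1159) (C.ref (nat_lit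 203) (nat_lit 3566371028997168)) (C.cons (nat_lit 1113) (C.ref (nat_lit 203) (nat_lit 3566370777477648)) (C.cons (nat_lit 1109) (C.ref (nat_lit 203) (nat_lit 3566370777473808)) (C.cons (nat_lit 1107) (C.ref (nat_lit 203) (nat_lit 3566370777469728)) (C.cons (nat_lit 1101) (C.ref (nat_lit 203) (nat_lit 3566370777408528)) (C.cons (nat_lit 1099) (C.ref (nat_lit 203) (nat_lit 3566370777404448)) (C.cons (nat_lit 1095) (C.ref (nat_lit 203) (nat_lit 3566370777338928)) (C.cons (nat_lit 1081) (C.ref (nat_lit 203) (nat_lit 3566370510090768)) (C.cons (nat_lit 1077) (C.ref (nat_lit 203) (nat_lit 3566370510086928)) (C.cons (nat_lit 1075) (C.ref (nat_lit 203) (nat_lit 3566370510082848)) (C.cons (nat_lit 1069) (C.ref (nat_lit 203) (nat_lit 3566370510021648)) (C.cons (nat_lit 1067) (C.ref (nat_lit 203) (nat_lit 3566370510017568)) (C.cons (nat_lit 1063) (C.ref (nat_lit 203) (nat_lit 3566370509952048)) (C.cons (nat_lit 1053) (C.ref (nat_lit 204) (nat_lit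 3566371029135888)) (C.cons (nat_lit 1051) (C.ref (nat_lit 204) (nat_lit 3566371029135648)) (C.cons (nat_lit 1047) (C.ref (nat_lit 204) (nat_lit 3566371029131568)) (C.cons (nat_lit 1039) (C.ref (nat_lit 204) (nat_lit 3566371029066048)) (C.cons (nat_lit 665) (C.ref (nat_lit 203) (nat_lit 3548847562568208)) (C.cons (nat_lit 661)
  (C.ref (nat_lit 203) (nat_lit 3548847562564368)) (C.cons (nat_lit 659) (C.ref (nat_lit 203) (nat_lit 3548847562560288)) (C.cons (nat_lit 653) (C.ref (nat_lit 203) (nat_lit 3548847562499088)) (C.cons (nat_lit 651) (C.ref (nat_lit 203) (nat_lit 3548847562495008)) (C.cons (nat_lit 647) (C.ref (nat_lit 203) (nat_lit 3548847562429488)) (C.cons (nat_lit 601) (C.ref (nat_lit 203) (nat_lit 3548847310909968)) (C.cons (nat_lit 597) (C.ref (nat_lit 203) (nat_lit 3548847310906128)) (C.cons (nat_lit 595) (C.ref (nat_lit 203) (nat_lit 3548847310902048)) (C.cons (nat_lit 589) (C.ref (nat_lit 203) (nat_lit 3548847310840848))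 (C.cons (nat_lit 587) (C.ref (nat_lit 203) (nat_lit 3548847310836768)) (C.cons (nat_lit 583) (C.ref (nat_lit 203) (nat_lit 3548847310771248)) (C.cons (nat_lit 569) (C.ref (nat_lit 203) (nat_lit 3548847043523088)) (C.cons (nat_lit 565) (C.ref (nat_lit 203) (nat_lit 3548847043519248)) (C.cons (nat_lit 563) (C.ref (nat_lit 203) (nat_lit 3548847043515168)) (C.cons (nat_lit 557) (C.ref (nat_lit 203) (nat_lit 3548847043453968)) (C.cons (nat_lit 555) (C.ref (nat_lit 203) (nat_lit 3548847043449888)) (C.cons (nat_lit 551) (C.ref (nat_lit 203) (nat_lit 3548847043384368)) (C.cons (nat_lit 541) (C.ref (nat_lit 204) (nat_lit 3548847562568208)) (C.cons (nat_lit 539) (C.ref (nat_lit 204) (nat_lit 3548847562567968)) (C.cons (nat_lit 535) (C.ref (nat_lit 204) (nat_lit 3548847562563888)) (C.cons (nat_lit 527) (C.ref (nat_lit 204) (nat_lit 3548847562498368)) (C.cons (nat_lit 409) (C.ref (nat_lit 203) (nat_lit 3531259671491088)) (C.cons (nat_lit 405) (C.ref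 (nat_lit 203) (nat_lit 3531259671487248)) (C.cons (nat_lit 403) (C.ref (nat_lit 203) (nat_lit 3531259671483168)) (C.cons (nat_lit 397) (C.ref (nat_lit 203) (nat_lit 3531259671421968)) (C.cons (nat_lit 395) (C.ref (nat_lit 203) (nat_lit 3531259671417888)) (C.cons (nat_lit 391) (C.ref (nat_lit 203) (nat_lit 3531259671352368)) (C.cons (nat_lit 345) (C.ref (nat_lit 203) (nat_lit 3531259419832848)) (C.cons (nat_lit 341) (C.ref (nat_lit 203) (nat_lit 3531259419829008)) (C.cons (nat_lit 339) (C.ref (nat_lit 203) (nat_lit 3531259419824928)) (C.cons (nat_lit 333) (C.ref (nat_lit 203) (nat_lit 3531259419763728)) (C.cons (nat_lit 331) (C.ref (nat_lit 203) (nat_lit 3531259419759648)) (C.cons (nat_lit 327) (C.ref (nat_lit 203) (nat_lit 3531259419694128)) (C.cons (nat_lit 313) (C.ref (nat_lit 203) (nat_lit 3531259152445968)) (C.cons (nat_lit 309) (C.ref (nat_lit 203) (nat_lit 3531259152442128)) (C.cons (nat_lit 307) (C.ref (nat_lit 203) (nat_lit 3531259152438048))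 (C.cons (nat_lit 301) (C.ref (nat_lit 203) (nat_lit 3531259152376848)) (C.cons (nat_lit 299) (C.ref (nat_lit 203) (nat_lit 3531259152372768)) (C.cons (nat_lit 295) (C.ref (nat_lit 203) (nat_lit 3531259152307248)) (C.cons (nat_lit 285) (C.ref (nat_lit 204) (nat_lit 3531259671491088)) (C.cons (nat_lit 283) (C.ref (nat_lit 204) (nat_lit 3531259671490848)) (C.cons (nat_lit 279) (C.ref (nat_lit 204) (nat_lit 3531259671486768)) (C.cons (nat_lit 271) (C.ref (nat_lit 204) (nat_lit 3531259671421248)) (C.cons (nat_lit 157) (C.ref (nat_lit 205) (nat_lit 3582863703552528)) (C.cons (nat_lit 155) (C.ref (nat_lit 205) (nat_lit 3582863703552288)) (C.cons (nat_lit 151) (C.ref (nat_lit 205) (nat_lit 3582863703548208)) (C.cons (nat_lit 143) (C.ref (nat_lit 205) (nat_lit 3582863703482688)) (C.cons (nat_lit 93) (C.ref (nat_lit 205) (nat_lit 3582863451894288)) (C.cons (nat_lit 91) (C.ref (nat_lit 205) (nat_lit 3582863451894048)) (C.cons (nat_lit 87) (C.ref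 (nat_lit 205) (nat_lit 3582863451889968)) (C.cons (nat_lit 79) (C.ref (nat_lit 205) (nat_lit 3582863451824448)) (C.cons (nat_lit 61) (C.ref (nat_lit 205) (nat_lit 3582863184507408)) (C.cons (nat_lit 59) (C.ref (nat_lit 205) (nat_lit 3582863184507168)) (C.cons (nat_lit 55) (C.ref (nat_lit 205) (nat_lit 3582863184503088)) (C.cons (nat_lit 47) (C.ref (nat_lit 205) (nat_lit 3582863184437568)) (C.cons (nat_lit 31)
  (C.ref (nat_lit 206) (nat_lit 3582863703552528)) C.nil))))))))))))))))))))))))))))))))))))))))))))))))))))))))))))))))))))))))))))))))))))))))))))))))))))))))) C.nil) (List.cons (C.big C.nil C.nil) List.nil)))))))))))))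

theorem ok13_196 : okL par13 (nat_lit 209) c13_196 (nat_lit 196) = true := by decide +kernel

noncomputable def c13_209 : List C :=
  (List.cons (C.big (C.cons (nat_lit 4237) (C.ref (nat_lit 205) (nat_lit 3582863650214928)) (C.cons (nat_lit 4235) (C.ref (nat_lit 205) (nat_lit 3582863649166368)) (C.cons (nat_lit 4231) (C.ref (nat_lit 205) (nat_lit 3582863632389168)) (C.cons (nat_lit 4173) (C.ref (nat_lit 205) (nat_lit 3582863381845008)) (C.cons (nat_lit 4171) (C.ref (nat_lit 205) (nat_lit 3582863380796448)) (C.cons (nat_lit 4167) (C.ref (nat_lit 205) (nat_lit 3582863364019248)) (C.cons (nat_lit 4141) (C.ref (nat_lit 205) (nat_lit 3582863113413648)) (C.cons (nat_lit 4139) (C.ref (nat_lit 205) (nat_lit 3582863112365088)) (C.cons (nat_lit 4135) (C.ref (nat_lit 205) (nat_lit 3582863095587888)) (C.cons (nat_lit 4125) (C.ref (nat_lit 205) (nat_lit 3582862844978448)) (C.cons (nat_lit 4123) (C.ref (nat_lit 205) (nat_lit 3582862843929888)) (C.cons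 (nat_lit 4119) (C.ref (nat_lit 205) (nat_lit 3582862827152688)) (C.cons (nat_lit 4111) (C.ref (nat_lit 206) (nat_lit 3582862558717248)) (C.cons (nat_lit 2189) (C.ref (nat_lit 205) (nat_lit 3318980859548688)) (C.cons (nat_lit 2187) (C.ref (nat_lit 205) (nat_lit 3318980858500128)) (C.cons (nat_lit 2183) (C.ref (nat_lit 205) (nat_lit 3318980841722928)) (C.cons (nat_lit 2125) (C.ref (nat_lit 205) (nat_lit 3318980591178768)) (C.cons (nat_lit 2123) (C.ref (nat_lit 205) (nat_lit 3318980590130208)) (C.cons (nat_lit 2119) (C.ref (nat_lit 205) (nat_lit 3318980573353008)) (C.cons (nat_lit 2093) (C.ref (nat_lit 205) (nat_lit 3318980322747408)) (C.cons (nat_lit 2091) (C.ref (nat_lit 205) (nat_lit 3318980321698848)) (C.cons (nat_lit 2087) (C.ref (nat_lit 205) (nat_lit 3318980304921648)) (C.cons (nat_lit 2077) (C.ref (nat_lit 205) (nat_lit 3318980054312208)) (C.cons (nat_lit 2075) (C.ref (nat_lit 205) (nat_lit 3318980053263648)) (C.cons (nat_lit 2071)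 (C.ref (nat_lit 205) (nat_lit 3318980036486448)) (C.cons (nat_lit 2063) (C.ref (nat_lit 206) (nat_lit 3318979768051008)) (C.cons (nat_lit 1165) (C.ref (nat_lit 205) (nat_lit 3038605394465808)) (C.cons (nat_lit 1163) (C.ref (nat_lit 205) (nat_lit 3038605393417248)) (C.cons (nat_lit 1159) (C.ref (nat_lit 205) (nat_lit 3038605376640048)) (C.cons (nat_lit 1101) (C.ref (nat_lit 205) (nat_lit 3038605126095888)) (C.cons (nat_lit 1099) (C.ref (nat_lit 205) (nat_lit 3038605125047328)) (C.cons (nat_lit 1095) (C.ref (nat_lit 205) (nat_lit 3038605108270128)) (C.cons (nat_lit 1069) (C.ref (nat_lit 205) (nat_lit 3038604857664528)) (C.cons (nat_lit 1067) (C.ref (nat_lit 205) (nat_lit 3038604856615968)) (C.cons (nat_lit 1063) (C.ref (nat_lit 205) (nat_lit 3038604839838768)) (C.cons (nat_lit 1053) (C.ref (nat_lit 205) (nat_lit 3038604589229328)) (C.cons (nat_lit 1051) (C.ref (nat_lit 205) (nat_lit 3038604588180768)) (C.cons (nat_lit 1047) (C.ref (nat_lit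 205) (nat_lit 3038604571403568)) (C.cons (nat_lit 1039) (C.ref (nat_lit 206) (nat_lit 3038604302968128)) (C.cons (nat_lit 653) (C.ref (nat_lit 205) (nat_lit 2757199137231888)) (C.cons (nat_lit 651) (C.ref (nat_lit 205) (nat_lit 2757199136183328)) (C.cons (nat_lit 647) (C.ref (nat_lit 205) (nat_lit 2757199119406128)) (C.cons (nat_lit 589) (C.ref (nat_lit 205) (nat_lit 2757198868861968)) (C.cons (nat_lit 587) (C.ref (nat_lit 205) (nat_lit 2757198867813408)) (C.cons (nat_lit 583) (C.ref (nat_lit 205) (nat_lit 2757198851036208)) (C.cons (nat_lit 557) (C.ref (nat_lit 205) (nat_lit 2757198600430608)) (C.cons (nat_lit 555) (C.ref (nat_lit 205) (nat_lit 2757198599382048)) (C.cons (nat_lit 551) (C.ref (nat_lit 205) (nat_lit 2757198582604848)) (C.cons (nat_lit 541) (C.ref (nat_lit 205) (nat_lit 2757198331995408)) (C.cons (nat_lit 539) (C.ref (nat_lit 205) (nat_lit 2757198330946848)) (C.cons (nat_lit 535) (C.ref (nat_lit 205) (nat_lit 2757198314169648))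 (C.cons (nat_lit 527) (C.ref (nat_lit 206) (nat_lit 2757198045734208)) (C.cons (nat_lit 397) (C.ref (nat_lit 205) (nat_lit 2475728455488528)) (C.cons (nat_lit 395) (C.ref (nat_lit 205) (nat_lit 2475728454439968)) (C.cons (nat_lit 391) (C.ref (nat_lit 205) (nat_lit 2475728437662768)) (C.cons (nat_lit 333)
  (C.ref (nat_lit 205) (nat_lit 2475728187118608)) (C.cons (nat_lit 331) (C.ref (nat_lit 205) (nat_lit 2475728186070048)) (C.cons (nat_lit 327) (C.ref (nat_lit 205) (nat_lit 2475728169292848)) (C.cons (nat_lit 301) (C.ref (nat_lit 205) (nat_lit 2475727918687248)) (C.cons (nat_lit 299) (C.ref (nat_lit 205) (nat_lit 2475727917638688)) (C.cons (nat_lit 295) (C.ref (nat_lit 205) (nat_lit 2475727900861488)) (C.cons (nat_lit 285) (C.ref (nat_lit 205) (nat_lit 2475727650252048)) (C.cons (nat_lit 283) (C.ref (nat_lit 205) (nat_lit 2475727649203488)) (C.cons (nat_lit 279) (C.ref (nat_lit 205) (nat_lit 2475727632426288)) (C.cons (nat_lit 271)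 (C.ref (nat_lit 206) (nat_lit 2475727363990848)) (C.cons (nat_lit 143) (C.ref (nat_lit 208) (nat_lit 3582863703552528)) (C.cons (nat_lit 79) (C.ref (nat_lit 208) (nat_lit 3582863451894288)) (C.cons (nat_lit 47) (C.ref (nat_lit 208) (nat_lit 3582863184507408)) (C.cons (nat_lit 31) (C.ref (nat_lit 208) (nat_lit 3582862916137488)) C.nil))))))))))))))))))))))))))))))))))))))))))))))))))))))))))))))))))))) C.nil) (List.cons (C.big (C.cons (nat_lit 4337) (C.ref (nat_lit 78) (nat_lit 3582863703552528)) (C.cons (nat_lit 4329) (C.ref (nat_lit 78) (nat_lit 3582863703491088)) (C.cons (nat_lit 4325) (C.ref (nat_lit 78) (nat_lit 3582863703425808)) (C.cons (nat_lit 4323) (C.ref (nat_lit 78) (nat_lit 3582863703360288)) (C.cons (nat_lit 4313) (C.ref (nat_lit 78) (nat_lit 3582863702446608)) (C.cons (nat_lit 4309) (C.ref (nat_lit 78) (nat_lit 3582863702381328)) (C.cons (nat_lit 4307) (C.ref (nat_lit 78) (nat_lit 3582863702315808)) (C.cons (nat_lit 4301)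 (C.ref (nat_lit 78) (nat_lit 3582863701333008)) (C.cons (nat_lit 4299) (C.ref (nat_lit 78) (nat_lit 3582863701267488)) (C.cons (nat_lit 4295) (C.ref (nat_lit 78) (nat_lit 3582863700218928)) (C.cons (nat_lit 4281) (C.ref (nat_lit 78) (nat_lit 3582863685673488)) (C.cons (nat_lit 4277) (C.ref (nat_lit 78) (nat_lit 3582863685608208)) (C.cons (nat_lit 4275) (C.ref (nat_lit 78) (nat_lit 3582863685542688)) (C.cons (nat_lit 4269) (C.ref (nat_lit 78) (nat_lit 3582863684559888)) (C.cons (nat_lit 4267) (C.ref (nat_lit 78) (nat_lit 3582863684494368)) (C.cons (nat_lit 4263) (C.ref (nat_lit 78) (nat_lit 3582863683445808)) (C.cons (nat_lit 4253) (C.ref (nat_lit 78) (nat_lit 3582863667782928)) (C.cons (nat_lit 4251) (C.ref (nat_lit 78) (nat_lit 3582863667717408)) (C.cons (nat_lit 4247) (C.ref (nat_lit 78) (nat_lit 3582863666668848)) (C.cons (nat_lit 4239) (C.ref (nat_lit 78) (nat_lit 3582863649891648)) (C.cons (nat_lit 4217) (C.ref (nat_lit 78) (nat_lit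 3582863417242128)) (C.cons (nat_lit 4213) (C.ref (nat_lit 78) (nat_lit 3582863417176848)) (C.cons (nat_lit 4211) (C.ref (nat_lit 78) (nat_lit 3582863417111328)) (C.cons (nat_lit 4205) (C.ref (nat_lit 78) (nat_lit 3582863416128528)) (C.cons (nat_lit 4203) (C.ref (nat_lit 78) (nat_lit 3582863416063008)) (C.cons (nat_lit 4199) (C.ref (nat_lit 78) (nat_lit 3582863415014448)) (C.cons (nat_lit 4189) (C.ref (nat_lit 78) (nat_lit 3582863399351568)) (C.cons (nat_lit 4187) (C.ref (nat_lit 78) (nat_lit 3582863399286048)) (C.cons (nat_lit 4183) (C.ref (nat_lit 78) (nat_lit 3582863398237488)) (C.cons (nat_lit 4175) (C.ref (nat_lit 78) (nat_lit 3582863381460288)) (C.cons (nat_lit 4157) (C.ref (nat_lit 78) (nat_lit 3582863130916368)) (C.cons (nat_lit 4155) (C.ref (nat_lit 78) (nat_lit 3582863130850848)) (C.cons (nat_lit 4151) (C.ref (nat_lit 78) (nat_lit 3582863129802288)) (C.cons (nat_lit 4143) (C.ref (nat_lit 78) (nat_lit 3582863113025088)) (C.cons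 (nat_lit 4127) (C.ref (nat_lit 78) (nat_lit 3582862844589648)) (C.cons (nat_lit 2289) (C.ref (nat_lit 78) (nat_lit 3318980912886288)) (C.cons (nat_lit 2281) (C.ref (nat_lit 78) (nat_lit 3318980912824848)) (C.cons (nat_lit 2277) (C.ref (nat_lit 78) (nat_lit 3318980912759568)) (C.cons (nat_lit 2275) (C.ref (nat_lit 78) (nat_lit 3318980912694048)) (C.cons (nat_lit 2265) (C.ref (nat_lit 78) (nat_lit 3318980911780368)) (C.cons (nat_lit 2261) (C.ref (nat_lit 78) (nat_lit 3318980911715088))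
  (C.cons (nat_lit 2259) (C.ref (nat_lit 78) (nat_lit 3318980911649568)) (C.cons (nat_lit 2253) (C.ref (nat_lit 78) (nat_lit 3318980910666768)) (C.cons (nat_lit 2251) (C.ref (nat_lit 78) (nat_lit 3318980910601248)) (C.cons (nat_lit 2247) (C.ref (nat_lit 78) (nat_lit 3318980909552688)) (C.cons (nat_lit 2233) (C.ref (nat_lit 78) (nat_lit 3318980895007248)) (C.cons (nat_lit 2229) (C.ref (nat_lit 78) (nat_lit 3318980894941968)) (C.cons (nat_lit 2227) (C.ref (nat_lit 78) (nat_lit 3318980894876448)) (C.cons (nat_lit 2221) (C.ref (nat_lit 78) (nat_lit 3318980893893648)) (C.cons (nat_lit 2219) (C.ref (nat_lit 78) (nat_lit 3318980893828128)) (C.cons (nat_lit 2215) (C.ref (nat_lit 78) (nat_lit 3318980892779568)) (C.cons (nat_lit 2205) (C.ref (nat_lit 78) (nat_lit 3318980877116688)) (C.cons (nat_lit 2203) (C.ref (nat_lit 78) (nat_lit 3318980877051168)) (C.cons (nat_lit 2199) (C.ref (nat_lit 78) (nat_lit 3318980876002608)) (C.cons (nat_lit 2191)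 (C.ref (nat_lit 78) (nat_lit 3318980859225408)) (C.cons (nat_lit 2169) (C.ref (nat_lit 78) (nat_lit 3318980626575888)) (C.cons (nat_lit 2165) (C.ref (nat_lit 78) (nat_lit 3318980626510608)) (C.cons (nat_lit 2163) (C.ref (nat_lit 78) (nat_lit 3318980626445088)) (C.cons (nat_lit 2157) (C.ref (nat_lit 78) (nat_lit 3318980625462288)) (C.cons (nat_lit 2155) (C.ref (nat_lit 78) (nat_lit 3318980625396768)) (C.cons (nat_lit 2151) (C.ref (nat_lit 78) (nat_lit 3318980624348208)) (C.cons (nat_lit 2141) (C.ref (nat_lit 78) (nat_lit 3318980608685328)) (C.cons (nat_lit 2139) (C.ref (nat_lit 78) (nat_lit 3318980608619808)) (C.cons (nat_lit 2135) (C.ref (nat_lit 78) (nat_lit 3318980607571248)) (C.cons (nat_lit 2127) (C.ref (nat_lit 78) (nat_lit 3318980590794048)) (C.cons (nat_lit 2109) (C.ref (nat_lit 78) (nat_lit 3318980340250128)) (C.cons (nat_lit 2107) (C.ref (nat_lit 78) (nat_lit 3318980340184608)) (C.cons (nat_lit 2103) (C.ref (nat_lit 78) (nat_lit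 3318980339136048)) (C.cons (nat_lit 2095) (C.ref (nat_lit 78) (nat_lit 3318980322358848)) (C.cons (nat_lit 2079) (C.ref (nat_lit 78) (nat_lit 3318980053923408)) (C.cons (nat_lit 1265) (C.ref (nat_lit 78) (nat_lit 3038605447803408)) (C.cons (nat_lit 1257) (C.ref (nat_lit 78) (nat_lit 3038605447741968)) (C.cons (nat_lit 1253) (C.ref (nat_lit 78) (nat_lit 3038605447676688)) (C.cons (nat_lit 1251) (C.ref (nat_lit 78) (nat_lit 3038605447611168)) (C.cons (nat_lit 1241) (C.ref (nat_lit 78) (nat_lit 3038605446697488)) (C.cons (nat_lit 1237) (C.ref (nat_lit 78) (nat_lit 3038605446632208)) (C.cons (nat_lit 1235) (C.ref (nat_lit 78) (nat_lit 3038605446566688)) (C.cons (nat_lit 1229) (C.ref (nat_lit 78) (nat_lit 3038605445583888)) (C.cons (nat_lit 1227) (C.ref (nat_lit 78) (nat_lit 3038605445518368)) (C.cons (nat_lit 1223) (C.ref (nat_lit 78) (nat_lit 3038605444469808)) (C.cons (nat_lit 1209) (C.ref (nat_lit 78) (nat_lit 3038605429924368)) (C.cons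 (nat_lit 1205) (C.ref (nat_lit 78) (nat_lit 3038605429859088)) (C.cons (nat_lit 1203) (C.ref (nat_lit 78) (nat_lit 3038605429793568)) (C.cons (nat_lit 1197) (C.ref (nat_lit 78) (nat_lit 3038605428810768)) (C.cons (nat_lit 1195) (C.ref (nat_lit 78) (nat_lit 3038605428745248)) (C.cons (nat_lit 1191) (C.ref (nat_lit 78) (nat_lit 3038605427696688)) (C.cons (nat_lit 1181) (C.ref (nat_lit 78) (nat_lit 3038605412033808)) (C.cons (nat_lit 1179) (C.ref (nat_lit 78) (nat_lit 3038605411968288)) (C.cons (nat_lit 1175) (C.ref (nat_lit 78) (nat_lit 3038605410919728)) (C.cons (nat_lit 1167) (C.ref (nat_lit 78) (nat_lit 3038605394142528)) (C.cons (nat_lit 1145) (C.ref (nat_lit 78) (nat_lit 3038605161493008)) (C.cons (nat_lit 1141) (C.ref (nat_lit 78) (nat_lit 3038605161427728)) (C.cons (nat_lit 1139) (C.ref (nat_lit 78) (nat_lit 3038605161362208)) (C.cons (nat_lit 1133) (C.ref (nat_lit 78) (nat_lit 3038605160379408)) (C.cons (nat_lit 1131) (C.ref (nat_lit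 78) (nat_lit 3038605160313888)) (C.cons (nat_lit 1127) (C.ref (nat_lit 78) (nat_lit 3038605159265328)) (C.cons (nat_lit 1117) (C.ref (nat_lit 78) (nat_lit 3038605143602448))
  (C.cons (nat_lit 1115) (C.ref (nat_lit 78) (nat_lit 3038605143536928)) (C.cons (nat_lit 1111) (C.ref (nat_lit 78) (nat_lit 3038605142488368)) (C.cons (nat_lit 1103) (C.ref (nat_lit 78) (nat_lit 3038605125711168)) (C.cons (nat_lit 1085) (C.ref (nat_lit 78) (nat_lit 3038604875167248)) (C.cons (nat_lit 1083) (C.ref (nat_lit 78) (nat_lit 3038604875101728)) (C.cons (nat_lit 1079) (C.ref (nat_lit 78) (nat_lit 3038604874053168)) (C.cons (nat_lit 1071) (C.ref (nat_lit 78) (nat_lit 3038604857275968)) (C.cons (nat_lit 1055) (C.ref (nat_lit 78) (nat_lit 3038604588840528)) (C.cons (nat_lit 753) (C.ref (nat_lit 78) (nat_lit 2757199190569488)) (C.cons (nat_lit 745) (C.ref (nat_lit 78) (nat_lit 2757199190508048)) (C.cons (nat_lit 741) (C.ref (nat_lit 78) (nat_lit 2757199190442768))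 (C.cons (nat_lit 739) (C.ref (nat_lit 78) (nat_lit 2757199190377248)) (C.cons (nat_lit 729) (C.ref (nat_lit 78) (nat_lit 2757199189463568)) (C.cons (nat_lit 725) (C.ref (nat_lit 78) (nat_lit 2757199189398288)) (C.cons (nat_lit 723) (C.ref (nat_lit 78) (nat_lit 2757199189332768)) (C.cons (nat_lit 717) (C.ref (nat_lit 78) (nat_lit 2757199188349968)) (C.cons (nat_lit 715) (C.ref (nat_lit 78) (nat_lit 2757199188284448)) (C.cons (nat_lit 711) (C.ref (nat_lit 78) (nat_lit 2757199187235888)) (C.cons (nat_lit 697) (C.ref (nat_lit 78) (nat_lit 2757199172690448)) (C.cons (nat_lit 693) (C.ref (nat_lit 78) (nat_lit 2757199172625168)) (C.cons (nat_lit 691) (C.ref (nat_lit 78) (nat_lit 2757199172559648)) (C.cons (nat_lit 685) (C.ref (nat_lit 78) (nat_lit 2757199171576848)) (C.cons (nat_lit 683) (C.ref (nat_lit 78) (nat_lit 2757199171511328)) (C.cons (nat_lit 679) (C.ref (nat_lit 78) (nat_lit 2757199170462768)) (C.cons (nat_lit 669) (C.ref (nat_lit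 78) (nat_lit 2757199154799888)) (C.cons (nat_lit 667) (C.ref (nat_lit 78) (nat_lit 2757199154734368)) (C.cons (nat_lit 663) (C.ref (nat_lit 78) (nat_lit 2757199153685808)) (C.cons (nat_lit 655) (C.ref (nat_lit 78) (nat_lit 2757199136908608)) (C.cons (nat_lit 633) (C.ref (nat_lit 78) (nat_lit 2757198904259088)) (C.cons (nat_lit 629) (C.ref (nat_lit 78) (nat_lit 2757198904193808)) (C.cons (nat_lit 627) (C.ref (nat_lit 78) (nat_lit 2757198904128288)) (C.cons (nat_lit 621) (C.ref (nat_lit 78) (nat_lit 2757198903145488)) (C.cons (nat_lit 619) (C.ref (nat_lit 78) (nat_lit 2757198903079968)) (C.cons (nat_lit 615) (C.ref (nat_lit 78) (nat_lit 2757198902031408)) (C.cons (nat_lit 605) (C.ref (nat_lit 78) (nat_lit 2757198886368528)) (C.cons (nat_lit 603) (C.ref (nat_lit 78) (nat_lit 2757198886303008)) (C.cons (nat_lit 599) (C.ref (nat_lit 78) (nat_lit 2757198885254448)) (C.cons (nat_lit 591) (C.ref (nat_lit 78) (nat_lit 2757198868477248)) (C.cons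 (nat_lit 573) (C.ref (nat_lit 78) (nat_lit 2757198617933328)) (C.cons (nat_lit 571) (C.ref (nat_lit 78) (nat_lit 2757198617867808)) (C.cons (nat_lit 567) (C.ref (nat_lit 78) (nat_lit 2757198616819248)) (C.cons (nat_lit 559) (C.ref (nat_lit 78) (nat_lit 2757198600042048)) (C.cons (nat_lit 543) (C.ref (nat_lit 78) (nat_lit 2757198331606608)) (C.cons (nat_lit 497) (C.ref (nat_lit 78) (nat_lit 2475728508826128)) (C.cons (nat_lit 489) (C.ref (nat_lit 78) (nat_lit 2475728508764688)) (C.cons (nat_lit 485) (C.ref (nat_lit 78) (nat_lit 2475728508699408)) (C.cons (nat_lit 483) (C.ref (nat_lit 78) (nat_lit 2475728508633888)) (C.cons (nat_lit 473) (C.ref (nat_lit 78) (nat_lit 2475728507720208)) (C.cons (nat_lit 469) (C.ref (nat_lit 78) (nat_lit 2475728507654928)) (C.cons (nat_lit 467) (C.ref (nat_lit 78) (nat_lit 2475728507589408)) (C.cons (nat_lit 461) (C.ref (nat_lit 78) (nat_lit 2475728506606608)) (C.cons (nat_lit 459) (C.ref (nat_lit 78) (nat_lit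 2475728506541088)) (C.cons (nat_lit 455) (C.ref (nat_lit 78) (nat_lit 2475728505492528)) (C.cons (nat_lit 441) (C.ref (nat_lit 78) (nat_lit 2475728490947088)) (C.cons (nat_lit 437) (C.ref (nat_lit 78) (nat_lit 2475728490881808)) (C.cons (nat_lit 435) (C.ref (nat_lit 78) (nat_lit 2475728490816288)) (C.cons (nat_lit 429)
  (C.ref (nat_lit 78) (nat_lit 2475728489833488)) (C.cons (nat_lit 427) (C.ref (nat_lit 78) (nat_lit 2475728489767968)) (C.cons (nat_lit 423) (C.ref (nat_lit 78) (nat_lit 2475728488719408)) (C.cons (nat_lit 413) (C.ref (nat_lit 78) (nat_lit 2475728473056528)) (C.cons (nat_lit 411) (C.ref (nat_lit 78) (nat_lit 2475728472991008)) (C.cons (nat_lit 407) (C.ref (nat_lit 78) (nat_lit 2475728471942448)) (C.cons (nat_lit 399) (C.ref (nat_lit 78) (nat_lit 2475728455165248)) (C.cons (nat_lit 377) (C.ref (nat_lit 78) (nat_lit 2475728222515728)) (C.cons (nat_lit 373) (C.ref (nat_lit 78) (nat_lit 2475728222450448)) (C.cons (nat_lit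 371) (C.ref (nat_lit 78) (nat_lit 2475728222384928)) (C.cons (nat_lit 365) (C.ref (nat_lit 78) (nat_lit 2475728221402128)) (C.cons (nat_lit 363) (C.ref (nat_lit 78) (nat_lit 2475728221336608)) (C.cons (nat_lit 359) (C.ref (nat_lit 78) (nat_lit 2475728220288048)) (C.cons (nat_lit 349) (C.ref (nat_lit 78) (nat_lit 2475728204625168)) (C.cons (nat_lit 347) (C.ref (nat_lit 78) (nat_lit 2475728204559648)) (C.cons (nat_lit 343) (C.ref (nat_lit 78) (nat_lit 2475728203511088)) (C.cons (nat_lit 335) (C.ref (nat_lit 78) (nat_lit 2475728186733888)) (C.cons (nat_lit 317) (C.ref (nat_lit 78) (nat_lit 2475727936189968)) (C.cons (nat_lit 315) (C.ref (nat_lit 78) (nat_lit 2475727936124448)) (C.cons (nat_lit 311) (C.ref (nat_lit 78) (nat_lit 2475727935075888)) (C.cons (nat_lit 303) (C.ref (nat_lit 78) (nat_lit 2475727918298688)) (C.cons (nat_lit 287) (C.ref (nat_lit 78) (nat_lit 2475727649863248)) (C.cons (nat_lit 249) (C.ref (nat_lit 87) (nat_lit 3582863703552528))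 (C.cons (nat_lit 245) (C.ref (nat_lit 87) (nat_lit 3582863703548688)) (C.cons (nat_lit 243) (C.ref (nat_lit 87) (nat_lit 3582863703544608)) (C.cons (nat_lit 237) (C.ref (nat_lit 87) (nat_lit 3582863703483408)) (C.cons (nat_lit 235) (C.ref (nat_lit 87) (nat_lit 3582863703479328)) (C.cons (nat_lit 231) (C.ref (nat_lit 87) (nat_lit 3582863703413808)) (C.cons (nat_lit 221) (C.ref (nat_lit 87) (nat_lit 3582863702435088)) (C.cons (nat_lit 219) (C.ref (nat_lit 87) (nat_lit 3582863702431008)) (C.cons (nat_lit 215) (C.ref (nat_lit 87) (nat_lit 3582863702365488)) (C.cons (nat_lit 207) (C.ref (nat_lit 87) (nat_lit 3582863701316928)) (C.cons (nat_lit 189) (C.ref (nat_lit 87) (nat_lit 3582863685658128)) (C.cons (nat_lit 187) (C.ref (nat_lit 87) (nat_lit 3582863685654048)) (C.cons (nat_lit 183) (C.ref (nat_lit 87) (nat_lit 3582863685588528)) (C.cons (nat_lit 175) (C.ref (nat_lit 87) (nat_lit 3582863684539968)) (C.cons (nat_lit 159) (C.ref (nat_lit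 87) (nat_lit 3582863667762768)) (C.cons (nat_lit 125) (C.ref (nat_lit 87) (nat_lit 3582863417222928)) (C.cons (nat_lit 123) (C.ref (nat_lit 87) (nat_lit 3582863417218848)) (C.cons (nat_lit 119) (C.ref (nat_lit 87) (nat_lit 3582863417153328)) (C.cons (nat_lit 111) (C.ref (nat_lit 87) (nat_lit 3582863416104768)) (C.cons (nat_lit 95) (C.ref (nat_lit 87) (nat_lit 3582863399327568)) (C.cons (nat_lit 63) (C.ref (nat_lit 87) (nat_lit 3582863130892128)) C.nil)))))))))))))))))))))))))))))))))))))))))))))))))))))))))))))))))))))))))))))))))))))))))))))))))))))))))))))))))))))))))))))))))))))))))))))))))))))))))))))))))))))))))))))))))))))))))))))))))))) (C.big (C.cons (nat_lit 4321) (C.ref (nat_lit 207) (nat_lit 3582863703552528)) (C.cons (nat_lit 4305) (C.ref (nat_lit 207) (nat_lit 3582863702569488)) (C.cons (nat_lit 4297) (C.ref (nat_lit 207) (nat_lit 3582863701525008)) (C.cons (nat_lit 4293) (C.ref (nat_lit 207) (nat_lit 3582863700476688))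 (C.cons (nat_lit 4291) (C.ref (nat_lit 207) (nat_lit 3582863699428128)) (C.cons (nat_lit 4273) (C.ref (nat_lit 207) (nat_lit 3582863685857808)) (C.cons (nat_lit 4265) (C.ref (nat_lit 207) (nat_lit 3582863684813328)) (C.cons (nat_lit 4261) (C.ref (nat_lit 207) (nat_lit 3582863683765008)) (C.cons (nat_lit 4259) (C.ref (nat_lit 207) (nat_lit 3582863682716448)) (C.cons (nat_lit 4249) (C.ref (nat_lit 207) (nat_lit 3582863668040208)) (C.cons (nat_lit 4245) (C.ref (nat_lit 207) (nat_lit 3582863666991888))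
  (C.cons (nat_lit 4243) (C.ref (nat_lit 207) (nat_lit 3582863665943328)) (C.cons (nat_lit 4237) (C.ref (nat_lit 207) (nat_lit 3582863650214928)) (C.cons (nat_lit 4235) (C.ref (nat_lit 207) (nat_lit 3582863649166368)) (C.cons (nat_lit 4231) (C.ref (nat_lit 207) (nat_lit 3582863632389168)) (C.cons (nat_lit 4209) (C.ref (nat_lit 207) (nat_lit 3582863417487888)) (C.cons (nat_lit 4201) (C.ref (nat_lit 207) (nat_lit 3582863416443408)) (C.cons (nat_lit 4197) (C.ref (nat_lit 207) (nat_lit 3582863415395088)) (C.cons (nat_lit 4195) (C.ref (nat_lit 207) (nat_lit 3582863414346528)) (C.cons (nat_lit 4185) (C.ref (nat_lit 207) (nat_lit 3582863399670288)) (C.cons (nat_lit 4181) (C.ref (nat_lit 207) (nat_lit 3582863398621968)) (C.cons (nat_lit 4179) (C.ref (nat_lit 207) (nat_lit 3582863397573408)) (C.cons (nat_lit 4173) (C.ref (nat_lit 207) (nat_lit 3582863381845008)) (C.cons (nat_lit 4171) (C.ref (nat_lit 207) (nat_lit 3582863380796448)) (C.cons (nat_lit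 4167) (C.ref (nat_lit 207) (nat_lit 3582863364019248)) (C.cons (nat_lit 4153) (C.ref (nat_lit 207) (nat_lit 3582863131238928)) (C.cons (nat_lit 4149) (C.ref (nat_lit 207) (nat_lit 3582863130190608)) (C.cons (nat_lit 4147) (C.ref (nat_lit 207) (nat_lit 3582863129142048)) (C.cons (nat_lit 4141) (C.ref (nat_lit 207) (nat_lit 3582863113413648)) (C.cons (nat_lit 4139) (C.ref (nat_lit 207) (nat_lit 3582863112365088)) (C.cons (nat_lit 4135) (C.ref (nat_lit 207) (nat_lit 3582863095587888)) (C.cons (nat_lit 4125) (C.ref (nat_lit 207) (nat_lit 3582862844978448)) (C.cons (nat_lit 4123) (C.ref (nat_lit 207) (nat_lit 3582862843929888)) (C.cons (nat_lit 4119) (C.ref (nat_lit 207) (nat_lit 3582862827152688)) (C.cons (nat_lit 4111) (C.ref (nat_lit 207) (nat_lit 3582862558717248)) (C.cons (nat_lit 2273) (C.ref (nat_lit 207) (nat_lit 3318980912886288)) (C.cons (nat_lit 2257) (C.ref (nat_lit 207) (nat_lit 3318980911903248)) (C.cons (nat_lit 2249) (C.ref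 (nat_lit 207) (nat_lit 3318980910858768)) (C.cons (nat_lit 2245) (C.ref (nat_lit 207) (nat_lit 3318980909810448)) (C.cons (nat_lit 2243) (C.ref (nat_lit 207) (nat_lit 3318980908761888)) (C.cons (nat_lit 2225) (C.ref (nat_lit 207) (nat_lit 3318980895191568)) (C.cons (nat_lit 2217) (C.ref (nat_lit 207) (nat_lit 3318980894147088)) (C.cons (nat_lit 2213) (C.ref (nat_lit 207) (nat_lit 3318980893098768)) (C.cons (nat_lit 2211) (C.ref (nat_lit 207) (nat_lit 3318980892050208)) (C.cons (nat_lit 2201) (C.ref (nat_lit 207) (nat_lit 3318980877373968)) (C.cons (nat_lit 2197) (C.ref (nat_lit 207) (nat_lit 3318980876325648)) (C.cons (nat_lit 2195) (C.ref (nat_lit 207) (nat_lit 3318980875277088)) (C.cons (nat_lit 2189) (C.ref (nat_lit 207) (nat_lit 3318980859548688)) (C.cons (nat_lit 2187) (C.ref (nat_lit 207) (nat_lit 3318980858500128)) (C.cons (nat_lit 2183) (C.ref (nat_lit 207) (nat_lit 3318980841722928)) (C.cons (nat_lit 2161) (C.ref (nat_lit 207)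 (nat_lit 3318980626821648)) (C.cons (nat_lit 2153) (C.ref (nat_lit 207) (nat_lit 3318980625777168)) (C.cons (nat_lit 2149) (C.ref (nat_lit 207) (nat_lit 3318980624728848)) (C.cons (nat_lit 2147) (C.ref (nat_lit 207) (nat_lit 3318980623680288)) (C.cons (nat_lit 2137) (C.ref (nat_lit 207) (nat_lit 3318980609004048)) (C.cons (nat_lit 2133) (C.ref (nat_lit 207) (nat_lit 3318980607955728)) (C.cons (nat_lit 2131) (C.ref (nat_lit 207) (nat_lit 3318980606907168)) (C.cons (nat_lit 2125) (C.ref (nat_lit 207) (nat_lit 3318980591178768)) (C.cons (nat_lit 2123) (C.ref (nat_lit 207) (nat_lit 3318980590130208)) (C.cons (nat_lit 2119) (C.ref (nat_lit 207) (nat_lit 3318980573353008)) (C.cons (nat_lit 2105) (C.ref (nat_lit 207) (nat_lit 3318980340572688)) (C.cons (nat_lit 2101) (C.ref (nat_lit 207) (nat_lit 3318980339524368)) (C.cons (nat_lit 2099) (C.ref (nat_lit 207) (nat_lit 3318980338475808)) (C.cons (nat_lit 2093) (C.ref (nat_lit 207) (nat_lit 3318980322747408))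 (C.cons (nat_lit 2091) (C.ref (nat_lit 207) (nat_lit 3318980321698848)) (C.cons (nat_lit 2087) (C.ref (nat_lit 207) (nat_lit 3318980304921648)) (C.cons (nat_lit 2077)
  (C.ref (nat_lit 207) (nat_lit 3318980054312208)) (C.cons (nat_lit 2075) (C.ref (nat_lit 207) (nat_lit 3318980053263648)) (C.cons (nat_lit 2071) (C.ref (nat_lit 207) (nat_lit 3318980036486448)) (C.cons (nat_lit 2063) (C.ref (nat_lit 207) (nat_lit 3318979768051008)) (C.cons (nat_lit 1249) (C.ref (nat_lit 207) (nat_lit 3038605447803408)) (C.cons (nat_lit 1233) (C.ref (nat_lit 207) (nat_lit 3038605446820368)) (C.cons (nat_lit 1225) (C.ref (nat_lit 207) (nat_lit 3038605445775888)) (C.cons (nat_lit 1221) (C.ref (nat_lit 207) (nat_lit 3038605444727568)) (C.cons (nat_lit 1219) (C.ref (nat_lit 207) (nat_lit 3038605443679008)) (C.cons (nat_lit 1201) (C.ref (nat_lit 207) (nat_lit 3038605430108688)) (C.cons (nat_lit 1193) (C.ref (nat_lit 207) (nat_lit 3038605429064208)) (C.cons (nat_lit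 1189) (C.ref (nat_lit 207) (nat_lit 3038605428015888)) (C.cons (nat_lit 1187) (C.ref (nat_lit 207) (nat_lit 3038605426967328)) (C.cons (nat_lit 1177) (C.ref (nat_lit 207) (nat_lit 3038605412291088)) (C.cons (nat_lit 1173) (C.ref (nat_lit 207) (nat_lit 3038605411242768)) (C.cons (nat_lit 1171) (C.ref (nat_lit 207) (nat_lit 3038605410194208)) (C.cons (nat_lit 1165) (C.ref (nat_lit 207) (nat_lit 3038605394465808)) (C.cons (nat_lit 1163) (C.ref (nat_lit 207) (nat_lit 3038605393417248)) (C.cons (nat_lit 1159) (C.ref (nat_lit 207) (nat_lit 3038605376640048)) (C.cons (nat_lit 1137) (C.ref (nat_lit 207) (nat_lit 3038605161738768)) (C.cons (nat_lit 1129) (C.ref (nat_lit 207) (nat_lit 3038605160694288)) (C.cons (nat_lit 1125) (C.ref (nat_lit 207) (nat_lit 3038605159645968)) (C.cons (nat_lit 1123) (C.ref (nat_lit 207) (nat_lit 3038605158597408)) (C.cons (nat_lit 1113) (C.ref (nat_lit 207) (nat_lit 3038605143921168)) (C.cons (nat_lit 1109) (C.ref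 (nat_lit 207) (nat_lit 3038605142872848)) (C.cons (nat_lit 1107) (C.ref (nat_lit 207) (nat_lit 3038605141824288)) (C.cons (nat_lit 1101) (C.ref (nat_lit 207) (nat_lit 3038605126095888)) (C.cons (nat_lit 1099) (C.ref (nat_lit 207) (nat_lit 3038605125047328)) (C.cons (nat_lit 1095) (C.ref (nat_lit 207) (nat_lit 3038605108270128)) (C.cons (nat_lit 1081) (C.ref (nat_lit 207) (nat_lit 3038604875489808)) (C.cons (nat_lit 1077) (C.ref (nat_lit 207) (nat_lit 3038604874441488)) (C.cons (nat_lit 1075) (C.ref (nat_lit 207) (nat_lit 3038604873392928)) (C.cons (nat_lit 1069) (C.ref (nat_lit 207) (nat_lit 3038604857664528)) (C.cons (nat_lit 1067) (C.ref (nat_lit 207) (nat_lit 3038604856615968)) (C.cons (nat_lit 1063) (C.ref (nat_lit 207) (nat_lit 3038604839838768)) (C.cons (nat_lit 1053) (C.ref (nat_lit 207) (nat_lit 3038604589229328)) (C.cons (nat_lit 1051) (C.ref (nat_lit 207) (nat_lit 3038604588180768)) (C.cons (nat_lit 1047) (C.ref (nat_lit 207)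 (nat_lit 3038604571403568)) (C.cons (nat_lit 1039) (C.ref (nat_lit 207) (nat_lit 3038604302968128)) (C.cons (nat_lit 737) (C.ref (nat_lit 207) (nat_lit 2757199190569488)) (C.cons (nat_lit 721) (C.ref (nat_lit 207) (nat_lit 2757199189586448)) (C.cons (nat_lit 713) (C.ref (nat_lit 207) (nat_lit 2757199188541968)) (C.cons (nat_lit 709) (C.ref (nat_lit 207) (nat_lit 2757199187493648)) (C.cons (nat_lit 707) (C.ref (nat_lit 207) (nat_lit 2757199186445088)) (C.cons (nat_lit 689) (C.ref (nat_lit 207) (nat_lit 2757199172874768)) (C.cons (nat_lit 681) (C.ref (nat_lit 207) (nat_lit 2757199171830288)) (C.cons (nat_lit 677) (C.ref (nat_lit 207) (nat_lit 2757199170781968)) (C.cons (nat_lit 675) (C.ref (nat_lit 207) (nat_lit 2757199169733408)) (C.cons (nat_lit 665) (C.ref (nat_lit 207) (nat_lit 2757199155057168)) (C.cons (nat_lit 661) (C.ref (nat_lit 207) (nat_lit 2757199154008848)) (C.cons (nat_lit 659) (C.ref (nat_lit 207) (nat_lit 2757199152960288))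 (C.cons (nat_lit 653) (C.ref (nat_lit 207) (nat_lit 2757199137231888)) (C.cons (nat_lit 651) (C.ref (nat_lit 207) (nat_lit 2757199136183328)) (C.cons (nat_lit 647) (C.ref (nat_lit 207) (nat_lit 2757199119406128)) (C.cons (nat_lit 625) (C.ref (nat_lit 207) (nat_lit 2757198904504848)) (C.cons (nat_lit 617) (C.ref (nat_lit 207) (nat_lit 2757198903460368))
  (C.cons (nat_lit 613) (C.ref (nat_lit 207) (nat_lit 2757198902412048)) (C.cons (nat_lit 611) (C.ref (nat_lit 207) (nat_lit 2757198901363488)) (C.cons (nat_lit 601) (C.ref (nat_lit 207) (nat_lit 2757198886687248)) (C.cons (nat_lit 597) (C.ref (nat_lit 207) (nat_lit 2757198885638928)) (C.cons (nat_lit 595) (C.ref (nat_lit 207) (nat_lit 2757198884590368)) (C.cons (nat_lit 589) (C.ref (nat_lit 207) (nat_lit 2757198868861968)) (C.cons (nat_lit 587) (C.ref (nat_lit 207) (nat_lit 2757198867813408)) (C.cons (nat_lit 583) (C.ref (nat_lit 207) (nat_lit 2757198851036208)) (C.cons (nat_lit 569)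 (C.ref (nat_lit 207) (nat_lit 2757198618255888)) (C.cons (nat_lit 565) (C.ref (nat_lit 207) (nat_lit 2757198617207568)) (C.cons (nat_lit 563) (C.ref (nat_lit 207) (nat_lit 2757198616159008)) (C.cons (nat_lit 557) (C.ref (nat_lit 207) (nat_lit 2757198600430608)) (C.cons (nat_lit 555) (C.ref (nat_lit 207) (nat_lit 2757198599382048)) (C.cons (nat_lit 551) (C.ref (nat_lit 207) (nat_lit 2757198582604848)) (C.cons (nat_lit 541) (C.ref (nat_lit 207) (nat_lit 2757198331995408)) (C.cons (nat_lit 539) (C.ref (nat_lit 207) (nat_lit 2757198330946848)) (C.cons (nat_lit 535) (C.ref (nat_lit 207) (nat_lit 2757198314169648)) (C.cons (nat_lit 527) (C.ref (nat_lit 207) (nat_lit 2757198045734208)) (C.cons (nat_lit 481) (C.ref (nat_lit 207) (nat_lit 2475728508826128)) (C.cons (nat_lit 465) (C.ref (nat_lit 207) (nat_lit 2475728507843088)) (C.cons (nat_lit 457) (C.ref (nat_lit 207) (nat_lit 2475728506798608)) (C.cons (nat_lit 453) (C.ref (nat_lit 207) (nat_lit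 2475728505750288)) (C.cons (nat_lit 451) (C.ref (nat_lit 207) (nat_lit 2475728504701728)) (C.cons (nat_lit 433) (C.ref (nat_lit 207) (nat_lit 2475728491131408)) (C.cons (nat_lit 425) (C.ref (nat_lit 207) (nat_lit 2475728490086928)) (C.cons (nat_lit 421) (C.ref (nat_lit 207) (nat_lit 2475728489038608)) (C.cons (nat_lit 419) (C.ref (nat_lit 207) (nat_lit 2475728487990048)) (C.cons (nat_lit 409) (C.ref (nat_lit 207) (nat_lit 2475728473313808)) (C.cons (nat_lit 405) (C.ref (nat_lit 207) (nat_lit 2475728472265488)) (C.cons (nat_lit 403) (C.ref (nat_lit 207) (nat_lit 2475728471216928)) (C.cons (nat_lit 397) (C.ref (nat_lit 207) (nat_lit 2475728455488528)) (C.cons (nat_lit 395) (C.ref (nat_lit 207) (nat_lit 2475728454439968)) (C.cons (nat_lit 391) (C.ref (nat_lit 207) (nat_lit 2475728437662768)) (C.cons (nat_lit 369) (C.ref (nat_lit 207) (nat_lit 2475728222761488)) (C.cons (nat_lit 361) (C.ref (nat_lit 207) (nat_lit 2475728221717008)) (C.cons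 (nat_lit 357) (C.ref (nat_lit 207) (nat_lit 2475728220668688)) (C.cons (nat_lit 355) (C.ref (nat_lit 207) (nat_lit 2475728219620128)) (C.cons (nat_lit 345) (C.ref (nat_lit 207) (nat_lit 2475728204943888)) (C.cons (nat_lit 341) (C.ref (nat_lit 207) (nat_lit 2475728203895568)) (C.cons (nat_lit 339) (C.ref (nat_lit 207) (nat_lit 2475728202847008)) (C.cons (nat_lit 333) (C.ref (nat_lit 207) (nat_lit 2475728187118608)) (C.cons (nat_lit 331) (C.ref (nat_lit 207) (nat_lit 2475728186070048)) (C.cons (nat_lit 327) (C.ref (nat_lit 207) (nat_lit 2475728169292848)) (C.cons (nat_lit 313) (C.ref (nat_lit 207) (nat_lit 2475727936512528)) (C.cons (nat_lit 309) (C.ref (nat_lit 207) (nat_lit 2475727935464208)) (C.cons (nat_lit 307) (C.ref (nat_lit 207) (nat_lit 2475727934415648)) (C.cons (nat_lit 301) (C.ref (nat_lit 207) (nat_lit 2475727918687248)) (C.cons (nat_lit 299) (C.ref (nat_lit 207) (nat_lit 2475727917638688)) (C.cons (nat_lit 295) (C.ref (nat_lit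 207) (nat_lit 2475727900861488)) (C.cons (nat_lit 285) (C.ref (nat_lit 207) (nat_lit 2475727650252048)) (C.cons (nat_lit 283) (C.ref (nat_lit 207) (nat_lit 2475727649203488)) (C.cons (nat_lit 279) (C.ref (nat_lit 207) (nat_lit 2475727632426288)) (C.cons (nat_lit 271) (C.ref (nat_lit 207) (nat_lit 2475727363990848)) (C.cons (nat_lit 241) (C.ref (nat_lit 209) (nat_lit 3582863703552528)) (C.cons (nat_lit 233) (C.ref (nat_lit 209) (nat_lit 3582863703491088)) (C.cons (nat_lit 229) (C.ref (nat_lit 209) (nat_lit 3582863703425808))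
  (C.cons (nat_lit 227) (C.ref (nat_lit 209) (nat_lit 3582863703360288)) (C.cons (nat_lit 217) (C.ref (nat_lit 209) (nat_lit 3582863702446608)) (C.cons (nat_lit 213) (C.ref (nat_lit 209) (nat_lit 3582863702381328)) (C.cons (nat_lit 211) (C.ref (nat_lit 209) (nat_lit 3582863702315808)) (C.cons (nat_lit 205) (C.ref (nat_lit 209) (nat_lit 3582863701333008)) (C.cons (nat_lit 203) (C.ref (nat_lit 209) (nat_lit 3582863701267488)) (C.cons (nat_lit 199) (C.ref (nat_lit 209) (nat_lit 3582863700218928)) (C.cons (nat_lit 185) (C.ref (nat_lit 209) (nat_lit 3582863685673488)) (C.cons (nat_lit 181) (C.ref (nat_lit 209) (nat_lit 3582863685608208)) (C.cons (nat_lit 179) (C.ref (nat_lit 209) (nat_lit 3582863685542688)) (C.cons (nat_lit 173) (C.ref (nat_lit 209) (nat_lit 3582863684559888)) (C.cons (nat_lit 171) (C.ref (nat_lit 209) (nat_lit 3582863684494368)) (C.cons (nat_lit 167) (C.ref (nat_lit 209) (nat_lit 3582863683445808)) (C.cons (nat_lit 157)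 (C.ref (nat_lit 209) (nat_lit 3582863667782928)) (C.cons (nat_lit 155) (C.ref (nat_lit 209) (nat_lit 3582863667717408)) (C.cons (nat_lit 151) (C.ref (nat_lit 209) (nat_lit 3582863666668848)) (C.cons (nat_lit 143) (C.ref (nat_lit 209) (nat_lit 3582863649891648)) (C.cons (nat_lit 121) (C.ref (nat_lit 209) (nat_lit 3582863417242128)) (C.cons (nat_lit 117) (C.ref (nat_lit 209) (nat_lit 3582863417176848)) (C.cons (nat_lit 115) (C.ref (nat_lit 209) (nat_lit 3582863417111328)) (C.cons (nat_lit 109) (C.ref (nat_lit 209) (nat_lit 3582863416128528)) (C.cons (nat_lit 107) (C.ref (nat_lit 209) (nat_lit 3582863416063008)) (C.cons (nat_lit 103) (C.ref (nat_lit 209) (nat_lit 3582863415014448)) (C.cons (nat_lit 93) (C.ref (nat_lit 209) (nat_lit 3582863399351568)) (C.cons (nat_lit 91) (C.ref (nat_lit 209) (nat_lit 3582863399286048)) (C.cons (nat_lit 87) (C.ref (nat_lit 209) (nat_lit 3582863398237488)) (C.cons (nat_lit 79) (C.ref (nat_lit 209) (nat_lit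 3582863381460288)) (C.cons (nat_lit 61) (C.ref (nat_lit 209) (nat_lit 3582863130916368)) (C.cons (nat_lit 59) (C.ref (nat_lit 209) (nat_lit 3582863130850848)) (C.cons (nat_lit 55) (C.ref (nat_lit 209) (nat_lit 3582863129802288)) (C.cons (nat_lit 47) (C.ref (nat_lit 209) (nat_lit 3582863113025088)) (C.cons (nat_lit 31) (C.ref (nat_lit 209) (nat_lit 3582862844589648)) C.nil)))))))))))))))))))))))))))))))))))))))))))))))))))))))))))))))))))))))))))))))))))))))))))))))))))))))))))))))))))))))))))))))))))))))))))))))))))))))))))))))))))))))))))))))))))))))))))))))))))))))))))))))))) C.nil)) (List.cons (C.big (C.cons (nat_lit 653) (C.pat (nat_lit 1) (nat_lit 3410659122) (nat_lit 12155775498687086118340355065425627283)) (C.cons (nat_lit 611) (C.pat (nat_lit 1) (nat_lit 3361123137) (nat_lit 6703615337105885166241977012894107941)) C.nil)) C.nil) (List.cons (C.big C.nil C.nil) (List.cons (C.big (C.cons (nat_lit 1109) (C.ref (nat_lit 211) (nat_lit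 3582863703552528)) (C.cons (nat_lit 653) (C.ref (nat_lit 211) (nat_lit 3526596192584208)) (C.cons (nat_lit 611) (C.ref (nat_lit 211) (nat_lit 3242651611645488)) (C.cons (nat_lit 597) (C.ref (nat_lit 212) (nat_lit 3582863703552528)) (C.cons (nat_lit 589) (C.ref (nat_lit 212) (nat_lit 3526596192584208)) (C.cons (nat_lit 583) (C.ref (nat_lit 212) (nat_lit 3242651611645488)) C.nil)))))) C.nil) (List.cons (C.big (C.cons (nat_lit 779) (C.ref (nat_lit 212) (nat_lit 3526595940925968)) (C.cons (nat_lit 611) (C.ref (nat_lit 212) (nat_lit 3470314692833808)) C.nil)) C.nil) (List.cons (C.big C.nil C.nil) (List.cons (C.big (C.cons (nat_lit 1291) (C.ref (nat_lit 213) (nat_lit 3582863703552528)) (C.cons (nat_lit 1165) (C.ref (nat_lit 213) (nat_lit 3582859676037408)) (C.cons (nat_lit 1123) (C.ref (nat_lit 213) (nat_lit 3582849966367248)) (C.cons (nat_lit 1109) (C.ref (nat_lit 213) (nat_lit 3582845938852128)) (C.cons (nat_lit 1101) (C.ref (nat_lit 214)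 (nat_lit 3582863703552528)) (C.cons (nat_lit 1099) (C.ref (nat_lit 214) (nat_lit 3582859676037408)) (C.cons (nat_lit 1095) (C.ref (nat_lit 214) (nat_lit 3318980310996528)) (C.cons (nat_lit 1039)
  (C.ref (nat_lit 214) (nat_lit 3318968228451168)) (C.cons (nat_lit 779) (C.ref (nat_lit 213) (nat_lit 3581832911401488)) (C.cons (nat_lit 653) (C.ref (nat_lit 213) (nat_lit 3581828883886368)) (C.cons (nat_lit 611) (C.ref (nat_lit 213) (nat_lit 3581819174216208)) (C.cons (nat_lit 597) (C.ref (nat_lit 213) (nat_lit 3581815146701088)) (C.cons (nat_lit 589) (C.ref (nat_lit 214) (nat_lit 3581832911401488)) (C.cons (nat_lit 587) (C.ref (nat_lit 214) (nat_lit 3581828883886368)) (C.cons (nat_lit 583) (C.ref (nat_lit 214) (nat_lit 3317949518845488)) (C.cons (nat_lit 527) (C.ref (nat_lit 214) (nat_lit 3317937436300128)) (C.cons (nat_lit 79) (C.ref (nat_lit 215) (nat_lit 3582863703552528)) C.nil))))))))))))))))) C.nil) (List.cons (C.big C.nil C.nil) List.nil)))))))))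

theorem ok13_209 : okL par13 (nat_lit 218) c13_209 (nat_lit 209) = true := by decide +kernel

noncomputable def c13_218 : List C :=
  (List.cons (C.big (C.cons (nat_lit 2187) (C.ref (nat_lit 212) (nat_lit 3222791683987008)) (C.cons (nat_lit 1291) (C.ref (nat_lit 212) (nat_lit 2958909160703568)) C.nil)) C.nil) (List.cons (C.big (C.cons (nat_lit 2187) (C.ref (nat_lit 213) (nat_lit 3582859674992928)) (C.cons (nat_lit 2131) (C.ref (nat_lit 213) (nat_lit 3582845937807648)) (C.cons (nat_lit 2123) (C.ref (nat_lit 214) (nat_lit 3582863451832848)) (C.cons (nat_lit 1291) (C.ref (nat_lit 213) (nat_lit 3566371027046688)) (C.cons (nat_lit 1123) (C.ref (nat_lit 213) (nat_lit 3566357289861408)) (C.cons (nat_lit 1099) (C.ref (nat_lit 214) (nat_lit 3566366498181648)) (C.cons (nat_lit 787) (C.ref (nat_lit 213) (nat_lit 3526564689715488)) (C.cons (nat_lit 779) (C.ref (nat_lit 214) (nat_lit 3526595940925968)) (C.cons (nat_lit 675) (C.ref (nat_lit 213)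 (nat_lit 3510076041769248)) (C.cons (nat_lit 651) (C.ref (nat_lit 214) (nat_lit 3510098987274768)) (C.cons (nat_lit 611) (C.ref (nat_lit 214) (nat_lit 3470314692833808)) (C.cons (nat_lit 595) (C.ref (nat_lit 214) (nat_lit 3453817739182608)) (C.cons (nat_lit 589) (C.big (C.cons (nat_lit 2187) (C.ref (nat_lit 211) (nat_lit 3222791683987008)) (C.cons (nat_lit 2131) (C.ref (nat_lit 211) (nat_lit 3206298757912368)) (C.cons (nat_lit 1291) (C.ref (nat_lit 211) (nat_lit 2958909160703568)) (C.cons (nat_lit 1123) (C.ref (nat_lit 211) (nat_lit 2925923308554288)) (C.cons (nat_lit 787) (C.ref (nat_lit 211) (nat_lit 2678533711345488)) (C.cons (nat_lit 675) (C.ref (nat_lit 211) (nat_lit 2662040785270848)) C.nil)))))) C.nil) (C.cons (nat_lit 587) (C.ref (nat_lit 217) (nat_lit 3582863703552528)) (C.cons (nat_lit 583) (C.ref (nat_lit 218) (nat_lit 3582863703552528)) (C.cons (nat_lit 527) (C.ref (nat_lit 218) (nat_lit 3582849966367248)) (C.cons (nat_lit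 79) (C.ref (nat_lit 218) (nat_lit 3526568718275088)) C.nil))))))))))))))))) C.nil) (List.cons (C.big C.nil C.nil) (List.cons (C.big (C.cons (nat_lit 2123) (C.ref (nat_lit 214) (nat_lit 3582855396802848)) (C.cons (nat_lit 1101) (C.ref (nat_lit 214) (nat_lit 3566362470666768)) (C.cons (nat_lit 779) (C.ref (nat_lit 214) (nat_lit 3526587885895968)) (C.cons (nat_lit 653) (C.ref (nat_lit 214) (nat_lit 3510094959759888)) (C.cons (nat_lit 611) (C.ref (nat_lit 214) (nat_lit 3470306637803808)) (C.cons (nat_lit 597) (C.ref (nat_lit 214) (nat_lit 3453813711667728)) (C.cons (nat_lit 589) (C.ref (nat_lit 217) (nat_lit 3581832659681808)) (C.cons (nat_lit 587) (C.ref (nat_lit 217) (nat_lit 3564304913879328)) (C.cons (nat_lit 583) (C.ref (nat_lit 220) (nat_lit 3582863703552528)) (C.cons (nat_lit 527) (C.ref (nat_lit 220) (nat_lit 3582849966367248)) (C.cons (nat_lit 79) (C.ref (nat_lit 220) (nat_lit 3526568718275088)) C.nil))))))))))) C.nil) (List.cons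 (C.big (C.cons (nat_lit 2131) (C.ref (nat_lit 214) (nat_lit 3318980309948208)) (C.cons (nat_lit 2123) (C.ref (nat_lit 214) (nat_lit 3318980309882688)) (C.cons (nat_lit 787) (C.ref (nat_lit 214) (nat_lit 2471063574551088)) (C.cons (nat_lit 779) (C.ref (nat_lit 214) (nat_lit 2471063574485568)) (C.cons (nat_lit 611) (C.ref (nat_lit 215) (nat_lit 3470314692833808)) (C.cons (nat_lit 597) (C.ref (nat_lit 218) (nat_lit 3581832659743248)) (C.cons (nat_lit 595) (C.ref (nat_lit 220) (nat_lit 3581832659743248)) (C.cons (nat_lit 589) (C.ref (nat_lit 218) (nat_lit 3581832659681808)) (C.cons (nat_lit 587) (C.ref (nat_lit 220) (nat_lit 3581832659681808)) C.nil))))))))) C.nil) (List.cons (C.big (C.cons (nat_lit 2195) (C.ref (nat_lit 216) (nat_lit 3582863703552528)) (C.cons (nat_lit 2187) (C.ref (nat_lit 216) (nat_lit 3582863703491088)) (C.cons (nat_lit 2131) (C.ref (nat_lit 216) (nat_lit 3582863451894288)) (C.cons (nat_lit 2123) (C.ref (nat_lit 216)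 (nat_lit 3582863451832848)) (C.cons (nat_lit 1299) (C.ref (nat_lit 216) (nat_lit 3526596192645648)) (C.cons (nat_lit 1291) (C.ref (nat_lit 216) (nat_lit 3526596192584208)) (C.cons (nat_lit 1187) (C.ref (nat_lit 216) (nat_lit 3470314944553488)) (C.cons (nat_lit 1173) (C.ref (nat_lit 219) (nat_lit 3582863703552528)) (C.cons (nat_lit 1171)
  (C.ref (nat_lit 221) (nat_lit 3582863703552528)) (C.cons (nat_lit 1165) (C.ref (nat_lit 219) (nat_lit 3582863703491088)) (C.cons (nat_lit 1163) (C.ref (nat_lit 221) (nat_lit 3582863703491088)) (C.cons (nat_lit 1159) (C.ref (nat_lit 222) (nat_lit 3582863703552528)) (C.cons (nat_lit 1123) (C.ref (nat_lit 216) (nat_lit 3470314944492048)) (C.cons (nat_lit 1109) (C.ref (nat_lit 219) (nat_lit 3582863451894288)) (C.cons (nat_lit 1107) (C.ref (nat_lit 221) (nat_lit 3582863451894288)) (C.cons (nat_lit 1101) (C.ref (nat_lit 219) (nat_lit 3582863451832848)) (C.cons (nat_lit 1099) (C.ref (nat_lit 221) (nat_lit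 3582863451832848)) (C.cons (nat_lit 1095) (C.ref (nat_lit 222) (nat_lit 3582863451894288)) (C.cons (nat_lit 1047) (C.ref (nat_lit 222) (nat_lit 3582849966367248)) (C.cons (nat_lit 1039) (C.ref (nat_lit 222) (nat_lit 3582849714709008)) (C.cons (nat_lit 787) (C.ref (nat_lit 216) (nat_lit 3526595940987408)) (C.cons (nat_lit 779) (C.ref (nat_lit 216) (nat_lit 3526595940925968)) (C.cons (nat_lit 675) (C.ref (nat_lit 216) (nat_lit 3470314692895248)) (C.cons (nat_lit 661) (C.ref (nat_lit 219) (nat_lit 3581832911401488)) (C.cons (nat_lit 659) (C.ref (nat_lit 221) (nat_lit 3581832911401488)) (C.cons (nat_lit 653) (C.ref (nat_lit 219) (nat_lit 3581832911340048)) (C.cons (nat_lit 651) (C.ref (nat_lit 221) (nat_lit 3581832911340048)) (C.cons (nat_lit 647) (C.ref (nat_lit 222) (nat_lit 3581832911401488)) (C.cons (nat_lit 611) (C.ref (nat_lit 216) (nat_lit 3470314692833808)) (C.cons (nat_lit 597) (C.ref (nat_lit 219) (nat_lit 3581832659743248)) (C.cons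 (nat_lit 595) (C.ref (nat_lit 221) (nat_lit 3581832659743248)) (C.cons (nat_lit 589) (C.ref (nat_lit 219) (nat_lit 3581832659681808)) (C.cons (nat_lit 587) (C.ref (nat_lit 221) (nat_lit 3581832659681808)) (C.cons (nat_lit 583) (C.ref (nat_lit 222) (nat_lit 3581832659743248)) (C.cons (nat_lit 535) (C.ref (nat_lit 222) (nat_lit 3581819174216208)) (C.cons (nat_lit 527) (C.ref (nat_lit 222) (nat_lit 3581818922557968)) (C.cons (nat_lit 151) (C.ref (nat_lit 222) (nat_lit 3526568718275088)) (C.cons (nat_lit 143) (C.ref (nat_lit 222) (nat_lit 3526568466616848)) (C.cons (nat_lit 87) (C.ref (nat_lit 222) (nat_lit 3525537926124048)) (C.cons (nat_lit 79) (C.ref (nat_lit 222) (nat_lit 3525537674465808)) C.nil)))))))))))))))))))))))))))))))))))))))) C.nil) (List.cons (C.big (C.cons (nat_lit 1189) (C.ref (nat_lit 222) (nat_lit 3566367002604048)) (C.cons (nat_lit 1187) (C.ref (nat_lit 222) (nat_lit 3566367002603808)) (C.cons (nat_lit 1173) (C.ref (nat_lit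 222) (nat_lit 3566367001621008)) (C.cons (nat_lit 1171) (C.ref (nat_lit 222) (nat_lit 3566367001620768)) (C.cons (nat_lit 1165) (C.ref (nat_lit 222) (nat_lit 3566367000576528)) (C.cons (nat_lit 1163) (C.ref (nat_lit 222) (nat_lit 3566367000576288)) (C.cons (nat_lit 1125) (C.ref (nat_lit 222) (nat_lit 3566362724413968)) (C.cons (nat_lit 1123) (C.ref (nat_lit 222) (nat_lit 3566362724413728)) (C.cons (nat_lit 1109) (C.ref (nat_lit 222) (nat_lit 3566362723430928)) (C.cons (nat_lit 1107) (C.ref (nat_lit 222) (nat_lit 3566362723430688)) (C.cons (nat_lit 1101) (C.ref (nat_lit 222) (nat_lit 3566362722386448)) (C.cons (nat_lit 1099) (C.ref (nat_lit 222) (nat_lit 3566362722386208)) (C.cons (nat_lit 677) (C.ref (nat_lit 222) (nat_lit 3548843536036368)) (C.cons (nat_lit 675) (C.ref (nat_lit 222) (nat_lit 3548843536036128)) (C.cons (nat_lit 661) (C.ref (nat_lit 222) (nat_lit 3548843535053328)) (C.cons (nat_lit 659) (C.ref (nat_lit 222) (nat_lit 3548843535053088))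 (C.cons (nat_lit 653) (C.ref (nat_lit 222) (nat_lit 3548843534008848)) (C.cons (nat_lit 651) (C.ref (nat_lit 222) (nat_lit 3548843534008608)) (C.cons (nat_lit 613) (C.ref (nat_lit 222) (nat_lit 3548839257846288)) (C.cons (nat_lit 611) (C.ref (nat_lit 222) (nat_lit 3548839257846048)) (C.cons (nat_lit 597) (C.ref (nat_lit 222) (nat_lit 3548839256863248)) (C.cons (nat_lit 595) (C.ref (nat_lit 222) (nat_lit 3548839256863008)) (C.cons (nat_lit 589) (C.ref (nat_lit 222) (nat_lit 3548839255818768)) (C.cons (nat_lit 587)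
  (C.ref (nat_lit 222) (nat_lit 3548839255818528)) C.nil)))))))))))))))))))))))) C.nil) (List.cons (C.big (C.cons (nat_lit 2341) (C.ref (nat_lit 223) (nat_lit 3582863703552528)) (C.cons (nat_lit 2339) (C.ref (nat_lit 223) (nat_lit 3582863703552288)) (C.cons (nat_lit 2325) (C.ref (nat_lit 223) (nat_lit 3582863702569488)) (C.cons (nat_lit 2323) (C.ref (nat_lit 223) (nat_lit 3582863702569248)) (C.cons (nat_lit 2317) (C.ref (nat_lit 223) (nat_lit 3582863701525008)) (C.cons (nat_lit 2315) (C.ref (nat_lit 223) (nat_lit 3582863701524768)) (C.cons (nat_lit 2311) (C.ref (nat_lit 224) (nat_lit 3582863703552528)) (C.cons (nat_lit 2213) (C.ref (nat_lit 223) (nat_lit 3582859677020688)) (C.cons (nat_lit 2211) (C.ref (nat_lit 223) (nat_lit 3582859677020448)) (C.cons (nat_lit 2197) (C.ref (nat_lit 223) (nat_lit 3582859676037648)) (C.cons (nat_lit 2195) (C.ref (nat_lit 223) (nat_lit 3582859676037408)) (C.cons (nat_lit 2189) (C.ref (nat_lit 223) (nat_lit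 3582859674993168)) (C.cons (nat_lit 2187) (C.ref (nat_lit 223) (nat_lit 3582859674992928)) (C.cons (nat_lit 2183) (C.ref (nat_lit 224) (nat_lit 3582859677020688)) (C.cons (nat_lit 2149) (C.ref (nat_lit 223) (nat_lit 3582855398830608)) (C.cons (nat_lit 2147) (C.ref (nat_lit 223) (nat_lit 3582855398830368)) (C.cons (nat_lit 2133) (C.ref (nat_lit 223) (nat_lit 3582855397847568)) (C.cons (nat_lit 2131) (C.ref (nat_lit 223) (nat_lit 3582855397847328)) (C.cons (nat_lit 2125) (C.ref (nat_lit 223) (nat_lit 3582855396803088)) (C.cons (nat_lit 2123) (C.ref (nat_lit 223) (nat_lit 3582855396802848)) (C.cons (nat_lit 2119) (C.ref (nat_lit 224) (nat_lit 3582855398830608)) (C.cons (nat_lit 2087) (C.ref (nat_lit 224) (nat_lit 3582849966367248)) (C.cons (nat_lit 2071) (C.ref (nat_lit 224) (nat_lit 3582845939835408)) (C.cons (nat_lit 2063) (C.ref (nat_lit 224) (nat_lit 3582841661645328)) (C.cons (nat_lit 1317) (C.ref (nat_lit 223) (nat_lit 3566371029135888))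 (C.cons (nat_lit 1315) (C.ref (nat_lit 223) (nat_lit 3566371029135648)) (C.cons (nat_lit 1301) (C.ref (nat_lit 223) (nat_lit 3566371028152848)) (C.cons (nat_lit 1299) (C.ref (nat_lit 223) (nat_lit 3566371028152608)) (C.cons (nat_lit 1293) (C.ref (nat_lit 223) (nat_lit 3566371027108368)) (C.cons (nat_lit 1291) (C.ref (nat_lit 223) (nat_lit 3566371027108128)) (C.cons (nat_lit 1287) (C.ref (nat_lit 224) (nat_lit 3566371029135888)) (C.cons (nat_lit 1189) (C.ref (nat_lit 223) (nat_lit 3566367002604048)) (C.cons (nat_lit 1187) (C.ref (nat_lit 223) (nat_lit 3566367002603808)) (C.cons (nat_lit 1173) (C.ref (nat_lit 223) (nat_lit 3566367001621008)) (C.cons (nat_lit 1171) (C.ref (nat_lit 223) (nat_lit 3566367001620768)) (C.cons (nat_lit 1165) (C.ref (nat_lit 223) (nat_lit 3566367000576528)) (C.cons (nat_lit 1163) (C.ref (nat_lit 223) (nat_lit 3566367000576288)) (C.cons (nat_lit 1159) (C.ref (nat_lit 224) (nat_lit 3566367002604048)) (C.cons (nat_lit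 1125) (C.ref (nat_lit 223) (nat_lit 3566362724413968)) (C.cons (nat_lit 1123) (C.ref (nat_lit 223) (nat_lit 3566362724413728)) (C.cons (nat_lit 1109) (C.ref (nat_lit 223) (nat_lit 3566362723430928)) (C.cons (nat_lit 1107) (C.ref (nat_lit 223) (nat_lit 3566362723430688)) (C.cons (nat_lit 1101) (C.ref (nat_lit 223) (nat_lit 3566362722386448)) (C.cons (nat_lit 1099) (C.ref (nat_lit 223) (nat_lit 3566362722386208)) (C.cons (nat_lit 1095) (C.ref (nat_lit 224) (nat_lit 3566362724413968)) (C.cons (nat_lit 1063) (C.ref (nat_lit 224) (nat_lit 3566357291950608)) (C.cons (nat_lit 1047) (C.ref (nat_lit 224) (nat_lit 3566353265418768)) (C.cons (nat_lit 1039) (C.ref (nat_lit 224) (nat_lit 3566348987228688)) (C.cons (nat_lit 805) (C.ref (nat_lit 223) (nat_lit 3548847562568208)) (C.cons (nat_lit 803) (C.ref (nat_lit 223) (nat_lit 3548847562567968)) (C.cons (nat_lit 789) (C.ref (nat_lit 223) (nat_lit 3548847561585168)) (C.cons (nat_lit 787) (C.ref (nat_lit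 223) (nat_lit 3548847561584928)) (C.cons (nat_lit 781) (C.ref (nat_lit 223) (nat_lit 3548847560540688)) (C.cons (nat_lit 779) (C.ref (nat_lit 223) (nat_lit 3548847560540448))
  (C.cons (nat_lit 775) (C.ref (nat_lit 224) (nat_lit 3548847562568208)) (C.cons (nat_lit 677) (C.ref (nat_lit 223) (nat_lit 3548843536036368)) (C.cons (nat_lit 675) (C.ref (nat_lit 223) (nat_lit 3548843536036128)) (C.cons (nat_lit 661) (C.ref (nat_lit 223) (nat_lit 3548843535053328)) (C.cons (nat_lit 659) (C.ref (nat_lit 223) (nat_lit 3548843535053088)) (C.cons (nat_lit 653) (C.ref (nat_lit 223) (nat_lit 3548843534008848)) (C.cons (nat_lit 651) (C.ref (nat_lit 223) (nat_lit 3548843534008608)) (C.cons (nat_lit 647) (C.ref (nat_lit 224) (nat_lit 3548843536036368)) (C.cons (nat_lit 613) (C.ref (nat_lit 223) (nat_lit 3548839257846288)) (C.cons (nat_lit 611) (C.ref (nat_lit 223) (nat_lit 3548839257846048)) (C.cons (nat_lit 597) (C.ref (nat_lit 223) (nat_lit 3548839256863248))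 (C.cons (nat_lit 595) (C.ref (nat_lit 223) (nat_lit 3548839256863008)) (C.cons (nat_lit 589) (C.ref (nat_lit 223) (nat_lit 3548839255818768)) (C.cons (nat_lit 587) (C.ref (nat_lit 223) (nat_lit 3548839255818528)) (C.cons (nat_lit 583) (C.ref (nat_lit 224) (nat_lit 3548839257846288)) (C.cons (nat_lit 551) (C.ref (nat_lit 224) (nat_lit 3548833825382928)) (C.cons (nat_lit 535) (C.ref (nat_lit 224) (nat_lit 3548829798851088)) (C.cons (nat_lit 527) (C.ref (nat_lit 224) (nat_lit 3548825520661008)) (C.cons (nat_lit 295) (C.ref (nat_lit 224) (nat_lit 3526568718275088)) (C.cons (nat_lit 279) (C.ref (nat_lit 224) (nat_lit 3526564691743248)) (C.cons (nat_lit 271) (C.ref (nat_lit 224) (nat_lit 3526560413553168)) (C.cons (nat_lit 167) (C.ref (nat_lit 224) (nat_lit 3510076043858448)) (C.cons (nat_lit 151) (C.ref (nat_lit 224) (nat_lit 3510072017326608)) (C.cons (nat_lit 143) (C.ref (nat_lit 224) (nat_lit 3510067739136528)) (C.cons (nat_lit 103) (C.ref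 (nat_lit 224) (nat_lit 3492552577290768)) (C.cons (nat_lit 87) (C.ref (nat_lit 224) (nat_lit 3492548550758928)) (C.cons (nat_lit 79) (C.ref (nat_lit 224) (nat_lit 3492544272568848)) C.nil))))))))))))))))))))))))))))))))))))))))))))))))))))))))))))))))))))))))))))))))) C.nil) (List.cons (C.big (C.cons (nat_lit 4135) (C.ref (nat_lit 214) (nat_lit 3467978482345008)) (C.cons (nat_lit 4123) (C.ref (nat_lit 214) (nat_lit 3451485556208928)) (C.cons (nat_lit 4111) (C.ref (nat_lit 220) (nat_lit 3564304912749888)) (C.cons (nat_lit 2183) (C.ref (nat_lit 214) (nat_lit 3221692172551728)) (C.cons (nat_lit 2123) (C.ref (nat_lit 214) (nat_lit 3205199246415648)) (C.cons (nat_lit 2063) (C.ref (nat_lit 220) (nat_lit 3282889528711008)) (C.cons (nat_lit 1287) (C.ref (nat_lit 214) (nat_lit 2430042948061488)) (C.cons (nat_lit 779) (C.ref (nat_lit 214) (nat_lit 2413550021925408)) (C.cons (nat_lit 271) (C.ref (nat_lit 220) (nat_lit 2382389555894928)) C.nil)))))))))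 C.nil) (List.cons (C.big (C.cons (nat_lit 4125) (C.ref (nat_lit 217) (nat_lit 3582863702435088)) (C.cons (nat_lit 4123) (C.ref (nat_lit 217) (nat_lit 3582863702431008)) C.nil)) C.nil) (List.cons (C.big (C.cons (nat_lit 4135) (C.ref (nat_lit 216) (nat_lit 3467978482345008)) (C.cons (nat_lit 4125) (C.ref (nat_lit 219) (nat_lit 3582863702435088)) (C.cons (nat_lit 4123) (C.ref (nat_lit 219) (nat_lit 3582863702431008)) (C.cons (nat_lit 4119) (C.ref (nat_lit 222) (nat_lit 3582863702365488)) (C.cons (nat_lit 4111) (C.ref (nat_lit 222) (nat_lit 3566367000368448)) (C.cons (nat_lit 2183) (C.ref (nat_lit 216) (nat_lit 3221692172551728)) (C.cons (nat_lit 2125) (C.ref (nat_lit 219) (nat_lit 3318980343441168)) (C.cons (nat_lit 2123) (C.ref (nat_lit 219) (nat_lit 3318980343437088)) (C.cons (nat_lit 2119) (C.ref (nat_lit 222) (nat_lit 3318980343371568)) (C.cons (nat_lit 2063) (C.ref (nat_lit 222) (nat_lit 3285982911797088)) (C.cons (nat_lit 1287) (C.ref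 (nat_lit 216) (nat_lit 2957809649268288)) (C.cons (nat_lit 1109) (C.ref (nat_lit 219) (nat_lit 3038600566679568)) (C.cons (nat_lit 1107) (C.ref (nat_lit 219) (nat_lit 3038600566675488)) (C.cons (nat_lit 1095) (C.ref (nat_lit 222) (nat_lit 3038600566544448)) (C.cons (nat_lit 1047) (C.ref (nat_lit 222) (nat_lit 3022099836967008)) (C.cons (nat_lit 781)
  (C.ref (nat_lit 219) (nat_lit 2471063608044048)) (C.cons (nat_lit 779) (C.ref (nat_lit 219) (nat_lit 2471063608039968)) (C.cons (nat_lit 775) (C.ref (nat_lit 222) (nat_lit 2471063607974448)) (C.cons (nat_lit 661) (C.ref (nat_lit 219) (nat_lit 2190683831282448)) (C.cons (nat_lit 659) (C.ref (nat_lit 219) (nat_lit 2190683831278368)) (C.cons (nat_lit 647) (C.ref (nat_lit 222) (nat_lit 2190683831147328)) (C.cons (nat_lit 613) (C.ref (nat_lit 219) (nat_lit 1610004789865488)) (C.cons (nat_lit 611) (C.ref (nat_lit 219) (nat_lit 1610004789861408)) (C.cons (nat_lit 601) (C.big (C.cons (nat_lit 4135)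 (C.ref (nat_lit 215) (nat_lit 3467978482345008)) (C.cons (nat_lit 4119) (C.ref (nat_lit 215) (nat_lit 3450386044581168)) (C.cons (nat_lit 4111) (C.ref (nat_lit 215) (nat_lit 3432789579302208)) (C.cons (nat_lit 2183) (C.ref (nat_lit 215) (nat_lit 3221692172551728)) (C.cons (nat_lit 2119) (C.ref (nat_lit 215) (nat_lit 3204099734787888)) (C.cons (nat_lit 2063) (C.ref (nat_lit 215) (nat_lit 3151314617141088)) (C.cons (nat_lit 1287) (C.ref (nat_lit 215) (nat_lit 2957809649268288)) (C.cons (nat_lit 1095) (C.ref (nat_lit 215) (nat_lit 2922624773740608)) (C.cons (nat_lit 1047) (C.ref (nat_lit 215) (nat_lit 2887436121372768)) (C.cons (nat_lit 775) (C.ref (nat_lit 215) (nat_lit 2676334688221008)) (C.cons (nat_lit 647) (C.ref (nat_lit 215) (nat_lit 2658742250457168)) (C.cons (nat_lit 551) (C.ref (nat_lit 215) (nat_lit 2623553598089328)) (C.cons (nat_lit 271) (C.ref (nat_lit 215) (nat_lit 2306875996813968)) (C.cons (nat_lit 151) (C.ref (nat_lit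 215) (nat_lit 2042997501045648)) (C.cons (nat_lit 103) (C.ref (nat_lit 215) (nat_lit 1779114977762208)) C.nil))))))))))))))) C.nil) (C.cons (nat_lit 597) (C.ref (nat_lit 226) (nat_lit 3582863703552528)) (C.cons (nat_lit 595) (C.ref (nat_lit 226) (nat_lit 3582863703552288)) (C.cons (nat_lit 589) (C.ref (nat_lit 226) (nat_lit 3566367002542608)) (C.cons (nat_lit 587) (C.ref (nat_lit 226) (nat_lit 3566367002542368)) (C.cons (nat_lit 583) (C.ref (nat_lit 227) (nat_lit 3582863703552528)) (C.cons (nat_lit 551) (C.ref (nat_lit 222) (nat_lit 1610004789599328)) (C.cons (nat_lit 541) (C.ref (nat_lit 226) (nat_lit 3285982916076048)) (C.cons (nat_lit 539) (C.ref (nat_lit 226) (nat_lit 3285982916075808)) (C.cons (nat_lit 535) (C.ref (nat_lit 227) (nat_lit 3318980344689168)) (C.cons (nat_lit 527) (C.ref (nat_lit 227) (nat_lit 3038600568914448)) (C.cons (nat_lit 271) (C.ref (nat_lit 222) (nat_lit 2388576070408848)) (C.cons (nat_lit 151) (C.ref (nat_lit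 222) (nat_lit 2124692995578768)) (C.cons (nat_lit 103) (C.ref (nat_lit 222) (nat_lit 1560514683608208)) (C.cons (nat_lit 93) (C.ref (nat_lit 226) (nat_lit 2388576077845008)) (C.cons (nat_lit 91) (C.ref (nat_lit 226) (nat_lit 2388576077844768)) (C.cons (nat_lit 87) (C.ref (nat_lit 227) (nat_lit 2471063609487888)) (C.cons (nat_lit 79) (C.ref (nat_lit 227) (nat_lit 2190683833713168)) (C.cons (nat_lit 31) (C.ref (nat_lit 227) (nat_lit 1610004793221648)) C.nil)))))))))))))))))))))))))))))))))))))))))) C.nil) (List.cons (C.big (C.cons (nat_lit 4119) (C.ref (nat_lit 220) (nat_lit 3582845100975408)) (C.cons (nat_lit 2119) (C.ref (nat_lit 220) (nat_lit 3317939856295728)) (C.cons (nat_lit 1107) (C.ref (nat_lit 220) (nat_lit 3036533631428688)) (C.cons (nat_lit 597) (C.ref (nat_lit 220) (nat_lit 2738626409732208)) (C.cons (nat_lit 87) (C.big C.nil C.nil) C.nil))))) C.nil) (List.cons (C.big (C.cons (nat_lit 4139) (C.ref (nat_lit 221) (nat_lit 3582863703479328))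 (C.cons (nat_lit 4135) (C.ref (nat_lit 221) (nat_lit 3582863703413808)) (C.cons (nat_lit 4123) (C.ref (nat_lit 221) (nat_lit 3582863702431008)) (C.cons (nat_lit 4119) (C.ref (nat_lit 221) (nat_lit 3582863702365488)) (C.cons (nat_lit 2123) (C.ref (nat_lit 222) (nat_lit 3318971168540448)) (C.cons (nat_lit 2119) (C.ref (nat_lit 222) (nat_lit 3318970900105008)) (C.cons (nat_lit 1123) (C.ref (nat_lit 222) (nat_lit 3038596239140928)) (C.cons (nat_lit 1107) (C.ref (nat_lit 222) (nat_lit 3038595970705488)) (C.cons (nat_lit 779)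
  (C.ref (nat_lit 222) (nat_lit 2471054433143328)) (C.cons (nat_lit 775) (C.ref (nat_lit 222) (nat_lit 2471054164707888)) (C.cons (nat_lit 675) (C.ref (nat_lit 222) (nat_lit 2190679503743808)) (C.cons (nat_lit 659) (C.ref (nat_lit 222) (nat_lit 2190679235308368)) (C.cons (nat_lit 617) (C.ref (nat_lit 226) (nat_lit 3548839257784848)) (C.cons (nat_lit 613) (C.ref (nat_lit 226) (nat_lit 3548839257719568)) (C.cons (nat_lit 611) (C.ref (nat_lit 227) (nat_lit 3581832659735328)) (C.cons (nat_lit 601) (C.ref (nat_lit 226) (nat_lit 3548839256740368)) (C.cons (nat_lit 597) (C.ref (nat_lit 226) (nat_lit 3548839256675088)) (C.cons (nat_lit 595) (C.ref (nat_lit 227) (nat_lit 3581832658752288)) (C.cons (nat_lit 587) (C.ref (nat_lit 227) (nat_lit 3564304912749888)) (C.cons (nat_lit 583) (C.ref (nat_lit 227) (nat_lit 3564304911766848)) (C.cons (nat_lit 555) (C.ref (nat_lit 229) (nat_lit 3582863703552528)) (C.cons (nat_lit 551) (C.ref (nat_lit 229) (nat_lit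 3582863703548688)) (C.cons (nat_lit 539) (C.ref (nat_lit 229) (nat_lit 3582863702569488)) (C.cons (nat_lit 535) (C.ref (nat_lit 229) (nat_lit 3582863702565648)) (C.cons (nat_lit 107) (C.ref (nat_lit 229) (nat_lit 3526596192645648)) (C.cons (nat_lit 103) (C.ref (nat_lit 229) (nat_lit 3526596192641808)) (C.cons (nat_lit 91) (C.ref (nat_lit 229) (nat_lit 3526596191662608)) (C.cons (nat_lit 87) (C.ref (nat_lit 229) (nat_lit 3526596191658768)) C.nil)))))))))))))))))))))))))))) C.nil) (List.cons (C.big (C.cons (nat_lit 681) (C.ref (nat_lit 227) (nat_lit 2757194311680528)) (C.cons (nat_lit 677) (C.ref (nat_lit 227) (nat_lit 2757194294903568)) (C.cons (nat_lit 675) (C.ref (nat_lit 227) (nat_lit 2757194278126368)) (C.cons (nat_lit 665) (C.ref (nat_lit 227) (nat_lit 2757194043249168)) (C.cons (nat_lit 661) (C.ref (nat_lit 227) (nat_lit 2757194026472208)) (C.cons (nat_lit 659) (C.ref (nat_lit 227) (nat_lit 2757194009695008)) (C.cons (nat_lit 617)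 (C.ref (nat_lit 227) (nat_lit 2757190016778768)) (C.cons (nat_lit 613) (C.ref (nat_lit 227) (nat_lit 2757190000001808)) (C.cons (nat_lit 611) (C.ref (nat_lit 227) (nat_lit 2757189983224608)) (C.cons (nat_lit 601) (C.ref (nat_lit 227) (nat_lit 2757189748347408)) (C.cons (nat_lit 597) (C.ref (nat_lit 227) (nat_lit 2757189731570448)) (C.cons (nat_lit 595) (C.ref (nat_lit 227) (nat_lit 2757189714793248)) C.nil)))))))))))) C.nil) List.nil))))))))))))))

theorem ok13_218 : okL par13 (nat_lit 232) c13_218 (nat_lit 218) = true := by decide +kernel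

noncomputable def c13_232 : List C :=
  (List.cons (C.big (C.cons (nat_lit 4141) (C.ref (nat_lit 223) (nat_lit 3582863703483408)) (C.cons (nat_lit 4139) (C.ref (nat_lit 223) (nat_lit 3582863703479328)) (C.cons (nat_lit 4135) (C.ref (nat_lit 223) (nat_lit 3582863703413808)) (C.cons (nat_lit 4125) (C.ref (nat_lit 223) (nat_lit 3582863702435088)) (C.cons (nat_lit 4123) (C.ref (nat_lit 223) (nat_lit 3582863702431008)) (C.cons (nat_lit 4119) (C.ref (nat_lit 223) (nat_lit 3582863702365488)) (C.cons (nat_lit 4111) (C.ref (nat_lit 224) (nat_lit 3582863701316928)) (C.cons (nat_lit 2189) (C.ref (nat_lit 223) (nat_lit 3318980344489488)) (C.cons (nat_lit 2187) (C.ref (nat_lit 223) (nat_lit 3318980344485408)) (C.cons (nat_lit 2183) (C.ref (nat_lit 223) (nat_lit 3318980344419888)) (C.cons (nat_lit 2125) (C.ref (nat_lit 223) (nat_lit 3318980343441168)) (C.cons (nat_lit 2123) (C.ref (nat_lit 223) (nat_lit 3318980343437088)) (C.cons (nat_lit 2119) (C.ref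 (nat_lit 223) (nat_lit 3318980343371568)) (C.cons (nat_lit 2063) (C.ref (nat_lit 224) (nat_lit 3318980340225888)) (C.cons (nat_lit 1293) (C.ref (nat_lit 223) (nat_lit 2471063609092368)) (C.cons (nat_lit 1291) (C.ref (nat_lit 223) (nat_lit 2471063609088288)) (C.cons (nat_lit 1287) (C.ref (nat_lit 223) (nat_lit 2471063609022768)) (C.cons (nat_lit 1193) (C.ref (nat_lit 228) (nat_lit 3582863703552528)) (C.cons (nat_lit 1189) (C.ref (nat_lit 228) (nat_lit 3582863703548688)) (C.cons (nat_lit 1187) (C.ref (nat_lit 228) (nat_lit 3582863703544608)) (C.cons (nat_lit 1177) (C.ref (nat_lit 228) (nat_lit 3582863702569488)) (C.cons (nat_lit 1173) (C.ref (nat_lit 228) (nat_lit 3582863702565648)) (C.cons (nat_lit 1171) (C.ref (nat_lit 228) (nat_lit 3582863702561568)) (C.cons (nat_lit 1165) (C.ref (nat_lit 230) (nat_lit 3582863703552528)) (C.cons (nat_lit 1163) (C.ref (nat_lit 230) (nat_lit 3582863703552288)) (C.cons (nat_lit 1159) (C.ref (nat_lit 230)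 (nat_lit 3582863703548208)) (C.cons (nat_lit 1129) (C.ref (nat_lit 228) (nat_lit 3582863451894288)) (C.cons (nat_lit 1125) (C.ref (nat_lit 228) (nat_lit 3582863451890448)) (C.cons (nat_lit 1123) (C.ref (nat_lit 228) (nat_lit 3582863451886368)) (C.cons (nat_lit 1113) (C.ref (nat_lit 228) (nat_lit 3582863450911248)) (C.cons (nat_lit 1109) (C.ref (nat_lit 228) (nat_lit 3582863450907408)) (C.cons (nat_lit 1107) (C.ref (nat_lit 228) (nat_lit 3582863450903328)) (C.cons (nat_lit 1101) (C.ref (nat_lit 230) (nat_lit 3582863451894288)) (C.cons (nat_lit 1099) (C.ref (nat_lit 230) (nat_lit 3582863451894048)) (C.cons (nat_lit 1095) (C.ref (nat_lit 230) (nat_lit 3582863451889968)) (C.cons (nat_lit 1069) (C.ref (nat_lit 230) (nat_lit 3318980344689168)) (C.cons (nat_lit 1067) (C.ref (nat_lit 230) (nat_lit 3318980344688928)) (C.cons (nat_lit 1063) (C.ref (nat_lit 230) (nat_lit 3318980344684848)) (C.cons (nat_lit 1053) (C.ref (nat_lit 230) (nat_lit 3318980093030928))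 (C.cons (nat_lit 1051) (C.ref (nat_lit 230) (nat_lit 3318980093030688)) (C.cons (nat_lit 1047) (C.ref (nat_lit 230) (nat_lit 3318980093026608)) (C.cons (nat_lit 1039) (C.ref (nat_lit 231) (nat_lit 3582863703552528)) (C.cons (nat_lit 781) (C.ref (nat_lit 223) (nat_lit 2471063608044048)) (C.cons (nat_lit 779) (C.ref (nat_lit 223) (nat_lit 2471063608039968)) (C.cons (nat_lit 775) (C.ref (nat_lit 223) (nat_lit 2471063607974448)) (C.cons (nat_lit 681) (C.ref (nat_lit 228) (nat_lit 3581832911401488)) (C.cons (nat_lit 677) (C.ref (nat_lit 228) (nat_lit 3581832911397648)) (C.cons (nat_lit 675) (C.ref (nat_lit 228) (nat_lit 3581832911393568)) (C.cons (nat_lit 665) (C.ref (nat_lit 228) (nat_lit 3581832910418448)) (C.cons (nat_lit 661) (C.ref (nat_lit 228) (nat_lit 3581832910414608)) (C.cons (nat_lit 659) (C.ref (nat_lit 228) (nat_lit 3581832910410528)) (C.cons (nat_lit 653) (C.ref (nat_lit 230) (nat_lit 3581832911401488)) (C.cons (nat_lit 651)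 (C.ref (nat_lit 230) (nat_lit 3581832911401248)) (C.cons (nat_lit 647) (C.ref (nat_lit 230) (nat_lit 3581832911397168)) (C.cons (nat_lit 617) (C.ref (nat_lit 228) (nat_lit 3581832659743248)) (C.cons (nat_lit 613)
  (C.ref (nat_lit 228) (nat_lit 3581832659739408)) (C.cons (nat_lit 611) (C.ref (nat_lit 228) (nat_lit 3581832659735328)) (C.cons (nat_lit 601) (C.ref (nat_lit 228) (nat_lit 3581832658760208)) (C.cons (nat_lit 597) (C.ref (nat_lit 228) (nat_lit 3581832658756368)) (C.cons (nat_lit 595) (C.ref (nat_lit 228) (nat_lit 3581832658752288)) (C.cons (nat_lit 589) (C.ref (nat_lit 230) (nat_lit 3581832659743248)) (C.cons (nat_lit 587) (C.ref (nat_lit 230) (nat_lit 3581832659743008)) (C.cons (nat_lit 583) (C.ref (nat_lit 230) (nat_lit 3581832659738928)) (C.cons (nat_lit 557) (C.ref (nat_lit 230) (nat_lit 3317949552538128)) (C.cons (nat_lit 555) (C.ref (nat_lit 230) (nat_lit 3317949552537888)) (C.cons (nat_lit 551) (C.ref (nat_lit 230) (nat_lit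 3317949552533808)) (C.cons (nat_lit 541) (C.ref (nat_lit 230) (nat_lit 3317949300879888)) (C.cons (nat_lit 539) (C.ref (nat_lit 230) (nat_lit 3317949300879648)) (C.cons (nat_lit 535) (C.ref (nat_lit 230) (nat_lit 3317949300875568)) (C.cons (nat_lit 527) (C.ref (nat_lit 231) (nat_lit 3581832911401488)) (C.cons (nat_lit 271) (C.ref (nat_lit 224) (nat_lit 2471063601683088)) (C.cons (nat_lit 173) (C.ref (nat_lit 230) (nat_lit 2471063609487888)) (C.cons (nat_lit 171) (C.ref (nat_lit 230) (nat_lit 2471063609487648)) (C.cons (nat_lit 167) (C.ref (nat_lit 230) (nat_lit 2471063609483568)) (C.cons (nat_lit 157) (C.ref (nat_lit 230) (nat_lit 2471063357829648)) (C.cons (nat_lit 155) (C.ref (nat_lit 230) (nat_lit 2471063357829408)) (C.cons (nat_lit 151) (C.ref (nat_lit 230) (nat_lit 2471063357825328)) (C.cons (nat_lit 143) (C.ref (nat_lit 231) (nat_lit 3526596192645648)) (C.cons (nat_lit 109) (C.ref (nat_lit 230) (nat_lit 2470032817336848)) (C.cons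 (nat_lit 107) (C.ref (nat_lit 230) (nat_lit 2470032817336608)) (C.cons (nat_lit 103) (C.ref (nat_lit 230) (nat_lit 2470032817332528)) (C.cons (nat_lit 93) (C.ref (nat_lit 230) (nat_lit 2470032565678608)) (C.cons (nat_lit 91) (C.ref (nat_lit 230) (nat_lit 2470032565678368)) (C.cons (nat_lit 87) (C.ref (nat_lit 230) (nat_lit 2470032565674288)) (C.cons (nat_lit 79) (C.ref (nat_lit 231) (nat_lit 3525565400494608)) (C.cons (nat_lit 47) (C.ref (nat_lit 231) (nat_lit 3242789050921488)) (C.cons (nat_lit 31) (C.ref (nat_lit 231) (nat_lit 3241758258770448)) C.nil))))))))))))))))))))))))))))))))))))))))))))))))))))))))))))))))))))))))))))))))))))))) C.nil) (List.cons (C.big (C.cons (nat_lit 1173) (C.ref (nat_lit 229) (nat_lit 2942485207077648)) (C.cons (nat_lit 1171) (C.ref (nat_lit 229) (nat_lit 2942416487600928)) (C.cons (nat_lit 1165) (C.ref (nat_lit 229) (nat_lit 2941385695450128)) (C.cons (nat_lit 1163) (C.ref (nat_lit 229) (nat_lit 2941316975973408))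 (C.cons (nat_lit 1109) (C.ref (nat_lit 229) (nat_lit 2924893021098768)) (C.cons (nat_lit 1107) (C.ref (nat_lit 229) (nat_lit 2924824301622048)) (C.cons (nat_lit 1101) (C.ref (nat_lit 229) (nat_lit 2923793509471248)) (C.cons (nat_lit 1099) (C.ref (nat_lit 229) (nat_lit 2923724789994528)) (C.cons (nat_lit 661) (C.ref (nat_lit 229) (nat_lit 2661010247144208)) (C.cons (nat_lit 659) (C.ref (nat_lit 229) (nat_lit 2660941527667488)) (C.cons (nat_lit 653) (C.ref (nat_lit 229) (nat_lit 2659910735516688)) (C.cons (nat_lit 651) (C.ref (nat_lit 229) (nat_lit 2659842016039968)) (C.cons (nat_lit 597) (C.ref (nat_lit 229) (nat_lit 2643418061165328)) (C.cons (nat_lit 595) (C.ref (nat_lit 229) (nat_lit 2643349341688608)) (C.cons (nat_lit 589) (C.ref (nat_lit 229) (nat_lit 2642318549537808)) (C.cons (nat_lit 587) (C.ref (nat_lit 229) (nat_lit 2642249830061088)) C.nil)))))))))))))))) C.nil) (List.cons (C.big (C.cons (nat_lit 4135) (C.ref (nat_lit 224)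 (nat_lit 3582849395942448)) (C.cons (nat_lit 4119) (C.ref (nat_lit 224) (nat_lit 3582845100975408)) (C.cons (nat_lit 4111) (C.ref (nat_lit 224) (nat_lit 3582840806008128)) (C.cons (nat_lit 2311) (C.ref (nat_lit 224) (nat_lit 3318979486824288)) (C.cons (nat_lit 2183) (C.ref (nat_lit 224) (nat_lit 3318975191857248)) (C.cons (nat_lit 2119) (C.ref (nat_lit 224) (nat_lit 3318970896889968))
  (C.cons (nat_lit 1317) (C.ref (nat_lit 230) (nat_lit 3038604846056208)) (C.cons (nat_lit 1315) (C.ref (nat_lit 230) (nat_lit 3038604829279008)) (C.cons (nat_lit 1301) (C.ref (nat_lit 230) (nat_lit 3038604577624848)) (C.cons (nat_lit 1299) (C.ref (nat_lit 230) (nat_lit 3038604560847648)) (C.cons (nat_lit 1293) (C.ref (nat_lit 230) (nat_lit 3038604309189648)) (C.cons (nat_lit 1291) (C.ref (nat_lit 230) (nat_lit 3038604292412448)) (C.cons (nat_lit 1287) (C.ref (nat_lit 231) (nat_lit 3566371025802288)) (C.cons (nat_lit 1189) (C.ref (nat_lit 230) (nat_lit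 3038600552137488)) (C.cons (nat_lit 1187) (C.ref (nat_lit 230) (nat_lit 3038600535360288)) (C.cons (nat_lit 1173) (C.ref (nat_lit 230) (nat_lit 3038600283706128)) (C.cons (nat_lit 1171) (C.ref (nat_lit 230) (nat_lit 3038600266928928)) (C.cons (nat_lit 1165) (C.ref (nat_lit 230) (nat_lit 3038600015270928)) (C.cons (nat_lit 1163) (C.ref (nat_lit 230) (nat_lit 3038599998493728)) (C.cons (nat_lit 1159) (C.ref (nat_lit 231) (nat_lit 3566366999270448)) (C.cons (nat_lit 1125) (C.ref (nat_lit 230) (nat_lit 3038596257235728)) (C.cons (nat_lit 1123) (C.ref (nat_lit 230) (nat_lit 3038596240458528)) (C.cons (nat_lit 1109) (C.ref (nat_lit 230) (nat_lit 3038595988804368)) (C.cons (nat_lit 1107) (C.ref (nat_lit 230) (nat_lit 3038595972027168)) (C.cons (nat_lit 1101) (C.ref (nat_lit 230) (nat_lit 3038595720369168)) (C.cons (nat_lit 1099) (C.ref (nat_lit 230) (nat_lit 3038595703591968)) (C.cons (nat_lit 1095) (C.ref (nat_lit 231) (nat_lit 3566362721080368))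 (C.cons (nat_lit 1063) (C.ref (nat_lit 231) (nat_lit 3285981820192608)) (C.cons (nat_lit 1047) (C.ref (nat_lit 231) (nat_lit 3285977793660768)) (C.cons (nat_lit 1039) (C.ref (nat_lit 231) (nat_lit 3285973515470688)) (C.cons (nat_lit 805) (C.ref (nat_lit 230) (nat_lit 2757198588822288)) (C.cons (nat_lit 803) (C.ref (nat_lit 230) (nat_lit 2757198572045088)) (C.cons (nat_lit 789) (C.ref (nat_lit 230) (nat_lit 2757198320390928)) (C.cons (nat_lit 787) (C.ref (nat_lit 230) (nat_lit 2757198303613728)) (C.cons (nat_lit 781) (C.ref (nat_lit 230) (nat_lit 2757198051955728)) (C.cons (nat_lit 779) (C.ref (nat_lit 230) (nat_lit 2757198035178528)) (C.cons (nat_lit 775) (C.ref (nat_lit 231) (nat_lit 3548847559234608)) (C.cons (nat_lit 677) (C.ref (nat_lit 230) (nat_lit 2757194294903568)) (C.cons (nat_lit 675) (C.ref (nat_lit 230) (nat_lit 2757194278126368)) (C.cons (nat_lit 661) (C.ref (nat_lit 230) (nat_lit 2757194026472208)) (C.cons (nat_lit 659)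 (C.ref (nat_lit 230) (nat_lit 2757194009695008)) (C.cons (nat_lit 653) (C.ref (nat_lit 230) (nat_lit 2757193758037008)) (C.cons (nat_lit 651) (C.ref (nat_lit 230) (nat_lit 2757193741259808)) (C.cons (nat_lit 647) (C.ref (nat_lit 231) (nat_lit 3548843532702768)) (C.cons (nat_lit 613) (C.ref (nat_lit 230) (nat_lit 2757190000001808)) (C.cons (nat_lit 611) (C.ref (nat_lit 230) (nat_lit 2757189983224608)) (C.cons (nat_lit 597) (C.ref (nat_lit 230) (nat_lit 2757189731570448)) (C.cons (nat_lit 595) (C.ref (nat_lit 230) (nat_lit 2757189714793248)) (C.cons (nat_lit 589) (C.ref (nat_lit 230) (nat_lit 2757189463135248)) (C.cons (nat_lit 587) (C.ref (nat_lit 230) (nat_lit 2757189446358048)) (C.cons (nat_lit 583) (C.ref (nat_lit 231) (nat_lit 3548839254512688)) (C.cons (nat_lit 551) (C.ref (nat_lit 231) (nat_lit 3268458353624928)) (C.cons (nat_lit 535) (C.ref (nat_lit 231) (nat_lit 3268454327093088)) (C.cons (nat_lit 527) (C.ref (nat_lit 231) (nat_lit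 3268450048903008)) (C.cons (nat_lit 295) (C.ref (nat_lit 233) (nat_lit 3582863703552528)) (C.cons (nat_lit 279) (C.ref (nat_lit 233) (nat_lit 3582863702569488)) (C.cons (nat_lit 271) (C.ref (nat_lit 233) (nat_lit 3582863701525008)) (C.cons (nat_lit 167) (C.ref (nat_lit 233) (nat_lit 3582859677020688)) (C.cons (nat_lit 151) (C.ref (nat_lit 233) (nat_lit 3582859676037648)) (C.cons (nat_lit 143) (C.ref (nat_lit 233) (nat_lit 3582859674993168)) (C.cons (nat_lit 103) (C.ref (nat_lit 233) (nat_lit 3582855398830608)) (C.cons (nat_lit 87)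
  (C.ref (nat_lit 233) (nat_lit 3582855397847568)) (C.cons (nat_lit 79) (C.ref (nat_lit 233) (nat_lit 3582855396803088)) C.nil))))))))))))))))))))))))))))))))))))))))))))))))))))))))))))))) C.nil) (List.cons (C.big (C.cons (nat_lit 2339) (C.ref (nat_lit 231) (nat_lit 3242582892495648)) (C.cons (nat_lit 2323) (C.ref (nat_lit 231) (nat_lit 3241483380871968)) (C.cons (nat_lit 2315) (C.ref (nat_lit 231) (nat_lit 3240383869244448)) (C.cons (nat_lit 2311) (C.ref (nat_lit 231) (nat_lit 3239284357616688)) (C.cons (nat_lit 2211) (C.ref (nat_lit 231) (nat_lit 3224990707499808)) (C.cons (nat_lit 2195) (C.ref (nat_lit 231) (nat_lit 3223891195876128)) (C.cons (nat_lit 2187) (C.ref (nat_lit 231) (nat_lit 3222791684248608)) (C.cons (nat_lit 2183) (C.ref (nat_lit 231) (nat_lit 3221692172620848)) (C.cons (nat_lit 2147) (C.ref (nat_lit 231) (nat_lit 3207398521520928)) (C.cons (nat_lit 2131) (C.ref (nat_lit 231) (nat_lit 3206299009897248)) (C.cons (nat_lit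 2123) (C.ref (nat_lit 231) (nat_lit 3205199498269728)) (C.cons (nat_lit 2119) (C.ref (nat_lit 231) (nat_lit 3204099986641968)) (C.cons (nat_lit 1315) (C.ref (nat_lit 231) (nat_lit 2961108184220448)) (C.cons (nat_lit 1299) (C.ref (nat_lit 231) (nat_lit 2960008672596768)) (C.cons (nat_lit 1291) (C.ref (nat_lit 231) (nat_lit 2958909160969248)) (C.cons (nat_lit 1287) (C.ref (nat_lit 231) (nat_lit 2957809649341488)) (C.cons (nat_lit 1187) (C.ref (nat_lit 231) (nat_lit 2943515999224608)) (C.cons (nat_lit 1171) (C.ref (nat_lit 231) (nat_lit 2942416487600928)) (C.cons (nat_lit 1163) (C.ref (nat_lit 231) (nat_lit 2941316975973408)) (C.cons (nat_lit 1159) (C.ref (nat_lit 231) (nat_lit 2940217464345648)) (C.cons (nat_lit 1123) (C.ref (nat_lit 231) (nat_lit 2925923813245728)) (C.cons (nat_lit 1107) (C.ref (nat_lit 231) (nat_lit 2924824301622048)) (C.cons (nat_lit 1099) (C.ref (nat_lit 231) (nat_lit 2923724789994528)) (C.cons (nat_lit 1095) (C.ref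 (nat_lit 231) (nat_lit 2922625278366768)) (C.cons (nat_lit 803) (C.ref (nat_lit 231) (nat_lit 2679633224287008)) (C.cons (nat_lit 787) (C.ref (nat_lit 231) (nat_lit 2678533712663328)) (C.cons (nat_lit 779) (C.ref (nat_lit 231) (nat_lit 2677434201035808)) (C.cons (nat_lit 775) (C.ref (nat_lit 231) (nat_lit 2676334689408048)) (C.cons (nat_lit 675) (C.ref (nat_lit 231) (nat_lit 2662041039291168)) (C.cons (nat_lit 659) (C.ref (nat_lit 231) (nat_lit 2660941527667488)) (C.cons (nat_lit 651) (C.ref (nat_lit 231) (nat_lit 2659842016039968)) (C.cons (nat_lit 647) (C.ref (nat_lit 231) (nat_lit 2658742504412208)) (C.cons (nat_lit 611) (C.ref (nat_lit 231) (nat_lit 2644448853312288)) (C.cons (nat_lit 595) (C.ref (nat_lit 231) (nat_lit 2643349341688608)) (C.cons (nat_lit 587) (C.ref (nat_lit 231) (nat_lit 2642249830061088)) (C.cons (nat_lit 583) (C.ref (nat_lit 231) (nat_lit 2641150318433328)) C.nil)))))))))))))))))))))))))))))))))))) C.nil) (List.cons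 (C.big (C.cons (nat_lit 4153) (C.ref (nat_lit 225) (nat_lit 3582863703552528)) (C.cons (nat_lit 4149) (C.ref (nat_lit 225) (nat_lit 3582863703548688)) (C.cons (nat_lit 4147) (C.ref (nat_lit 225) (nat_lit 3582863703544608)) (C.cons (nat_lit 4141) (C.ref (nat_lit 225) (nat_lit 3582863703483408)) (C.cons (nat_lit 4139) (C.ref (nat_lit 225) (nat_lit 3582863703479328)) (C.cons (nat_lit 4135) (C.ref (nat_lit 225) (nat_lit 3582863703413808)) (C.cons (nat_lit 4125) (C.ref (nat_lit 225) (nat_lit 3582863702435088)) (C.cons (nat_lit 4123) (C.ref (nat_lit 225) (nat_lit 3582863702431008)) (C.cons (nat_lit 4119) (C.ref (nat_lit 225) (nat_lit 3582863702365488)) (C.cons (nat_lit 4111) (C.ref (nat_lit 225) (nat_lit 3582863701316928)) (C.cons (nat_lit 2353) (C.ref (nat_lit 232) (nat_lit 3582863703552528)) (C.cons (nat_lit 2345) (C.ref (nat_lit 232) (nat_lit 3582863703491088)) (C.cons (nat_lit 2341) (C.ref (nat_lit 232) (nat_lit 3582863703425808)) (C.cons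 (nat_lit 2339) (C.ref (nat_lit 232) (nat_lit 3582863703360288)) (C.cons (nat_lit 2329) (C.ref (nat_lit 232) (nat_lit 3582863702446608)) (C.cons (nat_lit 2325)
  (C.ref (nat_lit 232) (nat_lit 3582863702381328)) (C.cons (nat_lit 2323) (C.ref (nat_lit 232) (nat_lit 3582863702315808)) (C.cons (nat_lit 2317) (C.ref (nat_lit 232) (nat_lit 3582863701333008)) (C.cons (nat_lit 2315) (C.ref (nat_lit 232) (nat_lit 3582863701267488)) (C.cons (nat_lit 2311) (C.ref (nat_lit 232) (nat_lit 3582863700218928)) (C.cons (nat_lit 2225) (C.ref (nat_lit 232) (nat_lit 3582859677020688)) (C.cons (nat_lit 2217) (C.ref (nat_lit 232) (nat_lit 3582859676959248)) (C.cons (nat_lit 2213) (C.ref (nat_lit 232) (nat_lit 3582859676893968)) (C.cons (nat_lit 2211) (C.ref (nat_lit 232) (nat_lit 3582859676828448)) (C.cons (nat_lit 2201) (C.ref (nat_lit 232) (nat_lit 3582859675914768)) (C.cons (nat_lit 2197) (C.ref (nat_lit 232) (nat_lit 3582859675849488)) (C.cons (nat_lit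 2195) (C.ref (nat_lit 232) (nat_lit 3582859675783968)) (C.cons (nat_lit 2189) (C.ref (nat_lit 232) (nat_lit 3582859674801168)) (C.cons (nat_lit 2187) (C.ref (nat_lit 232) (nat_lit 3582859674735648)) (C.cons (nat_lit 2183) (C.ref (nat_lit 232) (nat_lit 3582859673687088)) (C.cons (nat_lit 2161) (C.ref (nat_lit 232) (nat_lit 3582855398830608)) (C.cons (nat_lit 2153) (C.ref (nat_lit 232) (nat_lit 3582855398769168)) (C.cons (nat_lit 2149) (C.ref (nat_lit 232) (nat_lit 3582855398703888)) (C.cons (nat_lit 2147) (C.ref (nat_lit 232) (nat_lit 3582855398638368)) (C.cons (nat_lit 2137) (C.ref (nat_lit 232) (nat_lit 3582855397724688)) (C.cons (nat_lit 2133) (C.ref (nat_lit 232) (nat_lit 3582855397659408)) (C.cons (nat_lit 2131) (C.ref (nat_lit 232) (nat_lit 3582855397593888)) (C.cons (nat_lit 2125) (C.ref (nat_lit 232) (nat_lit 3582855396611088)) (C.cons (nat_lit 2123) (C.ref (nat_lit 232) (nat_lit 3582855396545568)) (C.cons (nat_lit 2119) (C.ref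 (nat_lit 232) (nat_lit 3582855395497008)) (C.cons (nat_lit 2105) (C.ref (nat_lit 234) (nat_lit 3582863703552528)) (C.cons (nat_lit 2101) (C.ref (nat_lit 234) (nat_lit 3582863703548688)) (C.cons (nat_lit 2099) (C.ref (nat_lit 234) (nat_lit 3582863703544608)) (C.cons (nat_lit 2093) (C.ref (nat_lit 234) (nat_lit 3582863703483408)) (C.cons (nat_lit 2091) (C.ref (nat_lit 234) (nat_lit 3582863703479328)) (C.cons (nat_lit 2087) (C.ref (nat_lit 234) (nat_lit 3582863703413808)) (C.cons (nat_lit 2077) (C.ref (nat_lit 234) (nat_lit 3582863702435088)) (C.cons (nat_lit 2075) (C.ref (nat_lit 234) (nat_lit 3582863702431008)) (C.cons (nat_lit 2071) (C.ref (nat_lit 234) (nat_lit 3582863702365488)) (C.cons (nat_lit 2063) (C.ref (nat_lit 234) (nat_lit 3582863701316928)) (C.cons (nat_lit 1329) (C.ref (nat_lit 232) (nat_lit 3566371029135888)) (C.cons (nat_lit 1321) (C.ref (nat_lit 232) (nat_lit 3566371029074448)) (C.cons (nat_lit 1317) (C.ref (nat_lit 232)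 (nat_lit 3566371029009168)) (C.cons (nat_lit 1315) (C.ref (nat_lit 232) (nat_lit 3566371028943648)) (C.cons (nat_lit 1305) (C.ref (nat_lit 232) (nat_lit 3566371028029968)) (C.cons (nat_lit 1301) (C.ref (nat_lit 232) (nat_lit 3566371027964688)) (C.cons (nat_lit 1299) (C.ref (nat_lit 232) (nat_lit 3566371027899168)) (C.cons (nat_lit 1293) (C.ref (nat_lit 232) (nat_lit 3566371026916368)) (C.cons (nat_lit 1291) (C.ref (nat_lit 232) (nat_lit 3566371026850848)) (C.cons (nat_lit 1287) (C.ref (nat_lit 232) (nat_lit 3566371025802288)) (C.cons (nat_lit 1201) (C.ref (nat_lit 232) (nat_lit 3566367002604048)) (C.cons (nat_lit 1193) (C.ref (nat_lit 232) (nat_lit 3566367002542608)) (C.cons (nat_lit 1189) (C.ref (nat_lit 232) (nat_lit 3566367002477328)) (C.cons (nat_lit 1187) (C.ref (nat_lit 232) (nat_lit 3566367002411808)) (C.cons (nat_lit 1177) (C.ref (nat_lit 232) (nat_lit 3566367001498128)) (C.cons (nat_lit 1173) (C.ref (nat_lit 232) (nat_lit 3566367001432848))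 (C.cons (nat_lit 1171) (C.ref (nat_lit 232) (nat_lit 3566367001367328)) (C.cons (nat_lit 1165) (C.ref (nat_lit 232) (nat_lit 3566367000384528)) (C.cons (nat_lit 1163) (C.ref (nat_lit 232) (nat_lit 3566367000319008)) (C.cons (nat_lit 1159) (C.ref (nat_lit 232) (nat_lit 3566366999270448)) (C.cons (nat_lit 1137)
  (C.ref (nat_lit 232) (nat_lit 3566362724413968)) (C.cons (nat_lit 1129) (C.ref (nat_lit 232) (nat_lit 3566362724352528)) (C.cons (nat_lit 1125) (C.ref (nat_lit 232) (nat_lit 3566362724287248)) (C.cons (nat_lit 1123) (C.ref (nat_lit 232) (nat_lit 3566362724221728)) (C.cons (nat_lit 1113) (C.ref (nat_lit 232) (nat_lit 3566362723308048)) (C.cons (nat_lit 1109) (C.ref (nat_lit 232) (nat_lit 3566362723242768)) (C.cons (nat_lit 1107) (C.ref (nat_lit 232) (nat_lit 3566362723177248)) (C.cons (nat_lit 1101) (C.ref (nat_lit 232) (nat_lit 3566362722194448)) (C.cons (nat_lit 1099) (C.ref (nat_lit 232) (nat_lit 3566362722128928)) (C.cons (nat_lit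 1095) (C.ref (nat_lit 232) (nat_lit 3566362721080368)) (C.cons (nat_lit 1081) (C.ref (nat_lit 234) (nat_lit 3566371029135888)) (C.cons (nat_lit 1077) (C.ref (nat_lit 234) (nat_lit 3566371029132048)) (C.cons (nat_lit 1075) (C.ref (nat_lit 234) (nat_lit 3566371029127968)) (C.cons (nat_lit 1069) (C.ref (nat_lit 234) (nat_lit 3566371029066768)) (C.cons (nat_lit 1067) (C.ref (nat_lit 234) (nat_lit 3566371029062688)) (C.cons (nat_lit 1063) (C.ref (nat_lit 234) (nat_lit 3566371028997168)) (C.cons (nat_lit 1053) (C.ref (nat_lit 234) (nat_lit 3566371028018448)) (C.cons (nat_lit 1051) (C.ref (nat_lit 234) (nat_lit 3566371028014368)) (C.cons (nat_lit 1047) (C.ref (nat_lit 234) (nat_lit 3566371027948848)) (C.cons (nat_lit 1039) (C.ref (nat_lit 234) (nat_lit 3566371026900288)) (C.cons (nat_lit 817) (C.ref (nat_lit 232) (nat_lit 3548847562568208)) (C.cons (nat_lit 809) (C.ref (nat_lit 232) (nat_lit 3548847562506768)) (C.cons (nat_lit 805) (C.ref (nat_lit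 232) (nat_lit 3548847562441488)) (C.cons (nat_lit 803) (C.ref (nat_lit 232) (nat_lit 3548847562375968)) (C.cons (nat_lit 793) (C.ref (nat_lit 232) (nat_lit 3548847561462288)) (C.cons (nat_lit 789) (C.ref (nat_lit 232) (nat_lit 3548847561397008)) (C.cons (nat_lit 787) (C.ref (nat_lit 232) (nat_lit 3548847561331488)) (C.cons (nat_lit 781) (C.ref (nat_lit 232) (nat_lit 3548847560348688)) (C.cons (nat_lit 779) (C.ref (nat_lit 232) (nat_lit 3548847560283168)) (C.cons (nat_lit 775) (C.ref (nat_lit 232) (nat_lit 3548847559234608)) (C.cons (nat_lit 689) (C.ref (nat_lit 232) (nat_lit 3548843536036368)) (C.cons (nat_lit 681) (C.ref (nat_lit 232) (nat_lit 3548843535974928)) (C.cons (nat_lit 677) (C.ref (nat_lit 232) (nat_lit 3548843535909648)) (C.cons (nat_lit 675) (C.ref (nat_lit 232) (nat_lit 3548843535844128)) (C.cons (nat_lit 665) (C.ref (nat_lit 232) (nat_lit 3548843534930448)) (C.cons (nat_lit 661) (C.ref (nat_lit 232) (nat_lit 3548843534865168))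 (C.cons (nat_lit 659) (C.ref (nat_lit 232) (nat_lit 3548843534799648)) (C.cons (nat_lit 653) (C.ref (nat_lit 232) (nat_lit 3548843533816848)) (C.cons (nat_lit 651) (C.ref (nat_lit 232) (nat_lit 3548843533751328)) (C.cons (nat_lit 647) (C.ref (nat_lit 232) (nat_lit 3548843532702768)) (C.cons (nat_lit 625) (C.ref (nat_lit 232) (nat_lit 3548839257846288)) (C.cons (nat_lit 617) (C.ref (nat_lit 232) (nat_lit 3548839257784848)) (C.cons (nat_lit 613) (C.ref (nat_lit 232) (nat_lit 3548839257719568)) (C.cons (nat_lit 611) (C.ref (nat_lit 232) (nat_lit 3548839257654048)) (C.cons (nat_lit 601) (C.ref (nat_lit 232) (nat_lit 3548839256740368)) (C.cons (nat_lit 597) (C.ref (nat_lit 232) (nat_lit 3548839256675088)) (C.cons (nat_lit 595) (C.ref (nat_lit 232) (nat_lit 3548839256609568)) (C.cons (nat_lit 589) (C.ref (nat_lit 232) (nat_lit 3548839255626768)) (C.cons (nat_lit 587) (C.ref (nat_lit 232) (nat_lit 3548839255561248)) (C.cons (nat_lit 583) (C.ref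 (nat_lit 232) (nat_lit 3548839254512688)) (C.cons (nat_lit 569) (C.ref (nat_lit 234) (nat_lit 3548847562568208)) (C.cons (nat_lit 565) (C.ref (nat_lit 234) (nat_lit 3548847562564368)) (C.cons (nat_lit 563) (C.ref (nat_lit 234) (nat_lit 3548847562560288)) (C.cons (nat_lit 557) (C.ref (nat_lit 234) (nat_lit 3548847562499088)) (C.cons (nat_lit 555) (C.ref (nat_lit 234) (nat_lit 3548847562495008)) (C.cons (nat_lit 551) (C.ref (nat_lit 234) (nat_lit 3548847562429488)) (C.cons (nat_lit 541)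
  (C.ref (nat_lit 234) (nat_lit 3548847561450768)) (C.cons (nat_lit 539) (C.ref (nat_lit 234) (nat_lit 3548847561446688)) (C.cons (nat_lit 535) (C.ref (nat_lit 234) (nat_lit 3548847561381168)) (C.cons (nat_lit 527) (C.ref (nat_lit 234) (nat_lit 3548847560332608)) (C.cons (nat_lit 313) (C.ref (nat_lit 234) (nat_lit 3526596192645648)) (C.cons (nat_lit 309) (C.ref (nat_lit 234) (nat_lit 3526596192641808)) (C.cons (nat_lit 307) (C.ref (nat_lit 234) (nat_lit 3526596192637728)) (C.cons (nat_lit 301) (C.ref (nat_lit 234) (nat_lit 3526596192576528)) (C.cons (nat_lit 299) (C.ref (nat_lit 234) (nat_lit 3526596192572448)) (C.cons (nat_lit 295) (C.ref (nat_lit 234) (nat_lit 3526596192506928)) (C.cons (nat_lit 285) (C.ref (nat_lit 234) (nat_lit 3526596191528208)) (C.cons (nat_lit 283) (C.ref (nat_lit 234) (nat_lit 3526596191524128)) (C.cons (nat_lit 279) (C.ref (nat_lit 234) (nat_lit 3526596191458608)) (C.cons (nat_lit 271) (C.ref (nat_lit 234) (nat_lit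 3526596190410048)) (C.cons (nat_lit 185) (C.ref (nat_lit 234) (nat_lit 3510103518229008)) (C.cons (nat_lit 181) (C.ref (nat_lit 234) (nat_lit 3510103518225168)) (C.cons (nat_lit 179) (C.ref (nat_lit 234) (nat_lit 3510103518221088)) (C.cons (nat_lit 173) (C.ref (nat_lit 234) (nat_lit 3510103518159888)) (C.cons (nat_lit 171) (C.ref (nat_lit 234) (nat_lit 3510103518155808)) (C.cons (nat_lit 167) (C.ref (nat_lit 234) (nat_lit 3510103518090288)) (C.cons (nat_lit 157) (C.ref (nat_lit 234) (nat_lit 3510103517111568)) (C.cons (nat_lit 155) (C.ref (nat_lit 234) (nat_lit 3510103517107488)) (C.cons (nat_lit 151) (C.ref (nat_lit 234) (nat_lit 3510103517041968)) (C.cons (nat_lit 143) (C.ref (nat_lit 234) (nat_lit 3510103515993408)) (C.cons (nat_lit 121) (C.ref (nat_lit 234) (nat_lit 3492580051661328)) (C.cons (nat_lit 117) (C.ref (nat_lit 234) (nat_lit 3492580051657488)) (C.cons (nat_lit 115) (C.ref (nat_lit 234) (nat_lit 3492580051653408)) (C.cons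 (nat_lit 109) (C.ref (nat_lit 234) (nat_lit 3492580051592208)) (C.cons (nat_lit 107) (C.ref (nat_lit 234) (nat_lit 3492580051588128)) (C.cons (nat_lit 103) (C.ref (nat_lit 234) (nat_lit 3492580051522608)) (C.cons (nat_lit 93) (C.ref (nat_lit 234) (nat_lit 3492580050543888)) (C.cons (nat_lit 91) (C.ref (nat_lit 234) (nat_lit 3492580050539808)) (C.cons (nat_lit 87) (C.ref (nat_lit 234) (nat_lit 3492580050474288)) (C.cons (nat_lit 79) (C.ref (nat_lit 234) (nat_lit 3492580049425728)) (C.cons (nat_lit 61) (C.ref (nat_lit 235) (nat_lit 3582863703552528)) (C.cons (nat_lit 59) (C.ref (nat_lit 235) (nat_lit 3582863703552288)) (C.cons (nat_lit 55) (C.ref (nat_lit 235) (nat_lit 3582863703548208)) (C.cons (nat_lit 47) (C.ref (nat_lit 235) (nat_lit 3582863703482688)) (C.cons (nat_lit 31) (C.ref (nat_lit 235) (nat_lit 3582863702434128)) C.nil)))))))))))))))))))))))))))))))))))))))))))))))))))))))))))))))))))))))))))))))))))))))))))))))))))))))))))))))))))))))))))))))))))))))))))))))))))))))))))))))))))))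 C.nil) (List.cons (C.big (C.cons (nat_lit 4377) (C.ref (nat_lit 234) (nat_lit 3523091501568528)) (C.cons (nat_lit 4373) (C.ref (nat_lit 234) (nat_lit 3523022782092048)) (C.cons (nat_lit 4371) (C.ref (nat_lit 234) (nat_lit 3522954062615328)) (C.cons (nat_lit 4365) (C.ref (nat_lit 234) (nat_lit 3521923270464528)) (C.cons (nat_lit 4363) (C.ref (nat_lit 234) (nat_lit 3521854550987808)) (C.cons (nat_lit 4359) (C.ref (nat_lit 234) (nat_lit 3520755039360048)) (C.cons (nat_lit 4249) (C.ref (nat_lit 234) (nat_lit 3505499316572688)) (C.cons (nat_lit 4245) (C.ref (nat_lit 234) (nat_lit 3505430597096208)) (C.cons (nat_lit 4243) (C.ref (nat_lit 234) (nat_lit 3505361877619488)) (C.cons (nat_lit 4237) (C.ref (nat_lit 234) (nat_lit 3504331085468688)) (C.cons (nat_lit 4235) (C.ref (nat_lit 234) (nat_lit 3504262365991968)) (C.cons (nat_lit 4231) (C.ref (nat_lit 234) (nat_lit 3503162854364208)) (C.cons (nat_lit 4185) (C.ref (nat_lit 234) (nat_lit 3487907130593808))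 (C.cons (nat_lit 4181) (C.ref (nat_lit 234) (nat_lit 3487838411117328)) (C.cons (nat_lit 4179)
  (C.ref (nat_lit 234) (nat_lit 3487769691640608)) (C.cons (nat_lit 4173) (C.ref (nat_lit 234) (nat_lit 3486738899489808)) (C.cons (nat_lit 4171) (C.ref (nat_lit 234) (nat_lit 3486670180013088)) (C.cons (nat_lit 4167) (C.ref (nat_lit 234) (nat_lit 3485570668385328)) (C.cons (nat_lit 4153) (C.ref (nat_lit 234) (nat_lit 3470314944553488)) (C.cons (nat_lit 4149) (C.ref (nat_lit 234) (nat_lit 3470246225077008)) (C.cons (nat_lit 4147) (C.ref (nat_lit 234) (nat_lit 3470177505600288)) (C.cons (nat_lit 4141) (C.ref (nat_lit 234) (nat_lit 3469146713449488)) (C.cons (nat_lit 4139) (C.ref (nat_lit 234) (nat_lit 3469077993972768)) (C.cons (nat_lit 4135) (C.ref (nat_lit 234) (nat_lit 3467978482345008)) (C.cons (nat_lit 4125) (C.ref (nat_lit 235) (nat_lit 3582845386188048)) (C.cons (nat_lit 4123) (C.ref (nat_lit 235) (nat_lit 3582845369410848)) (C.cons (nat_lit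 4119) (C.ref (nat_lit 235) (nat_lit 3582845100975408)) (C.cons (nat_lit 4111) (C.ref (nat_lit 235) (nat_lit 3582840806008128)) (C.cons (nat_lit 2329) (C.ref (nat_lit 234) (nat_lit 3241620819825168)) (C.cons (nat_lit 2325) (C.ref (nat_lit 234) (nat_lit 3241552100348688)) (C.cons (nat_lit 2323) (C.ref (nat_lit 234) (nat_lit 3241483380871968)) (C.cons (nat_lit 2317) (C.ref (nat_lit 234) (nat_lit 3240452588721168)) (C.cons (nat_lit 2315) (C.ref (nat_lit 234) (nat_lit 3240383869244448)) (C.cons (nat_lit 2311) (C.ref (nat_lit 234) (nat_lit 3239284357616688)) (C.cons (nat_lit 2201) (C.ref (nat_lit 234) (nat_lit 3224028634829328)) (C.cons (nat_lit 2197) (C.ref (nat_lit 234) (nat_lit 3223959915352848)) (C.cons (nat_lit 2195) (C.ref (nat_lit 234) (nat_lit 3223891195876128)) (C.cons (nat_lit 2189) (C.ref (nat_lit 234) (nat_lit 3222860403725328)) (C.cons (nat_lit 2187) (C.ref (nat_lit 234) (nat_lit 3222791684248608)) (C.cons (nat_lit 2183) (C.ref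 (nat_lit 234) (nat_lit 3221692172620848)) (C.cons (nat_lit 2137) (C.ref (nat_lit 234) (nat_lit 3206436448850448)) (C.cons (nat_lit 2133) (C.ref (nat_lit 234) (nat_lit 3206367729373968)) (C.cons (nat_lit 2131) (C.ref (nat_lit 234) (nat_lit 3206299009897248)) (C.cons (nat_lit 2125) (C.ref (nat_lit 234) (nat_lit 3205268217746448)) (C.cons (nat_lit 2123) (C.ref (nat_lit 234) (nat_lit 3205199498269728)) (C.cons (nat_lit 2119) (C.ref (nat_lit 234) (nat_lit 3204099986641968)) (C.cons (nat_lit 2105) (C.ref (nat_lit 234) (nat_lit 3188844262810128)) (C.cons (nat_lit 2101) (C.ref (nat_lit 234) (nat_lit 3188775543333648)) (C.cons (nat_lit 2099) (C.ref (nat_lit 234) (nat_lit 3188706823856928)) (C.cons (nat_lit 2093) (C.ref (nat_lit 234) (nat_lit 3187676031706128)) (C.cons (nat_lit 2091) (C.ref (nat_lit 234) (nat_lit 3187607312229408)) (C.cons (nat_lit 2087) (C.ref (nat_lit 234) (nat_lit 3186507800601648)) (C.cons (nat_lit 2077) (C.ref (nat_lit 235)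 (nat_lit 3318962595521808)) (C.cons (nat_lit 2075) (C.ref (nat_lit 235) (nat_lit 3318962578744608)) (C.cons (nat_lit 2071) (C.ref (nat_lit 235) (nat_lit 3318962310309168)) (C.cons (nat_lit 2063) (C.ref (nat_lit 235) (nat_lit 3318958015341888)) (C.cons (nat_lit 1305) (C.ref (nat_lit 234) (nat_lit 2960146111549968)) (C.cons (nat_lit 1301) (C.ref (nat_lit 234) (nat_lit 2960077392073488)) (C.cons (nat_lit 1299) (C.ref (nat_lit 234) (nat_lit 2960008672596768)) (C.cons (nat_lit 1293) (C.ref (nat_lit 234) (nat_lit 2958977880445968)) (C.cons (nat_lit 1291) (C.ref (nat_lit 234) (nat_lit 2958909160969248)) (C.cons (nat_lit 1287) (C.ref (nat_lit 234) (nat_lit 2957809649341488)) (C.cons (nat_lit 1177) (C.ref (nat_lit 234) (nat_lit 2942553926554128)) (C.cons (nat_lit 1173) (C.ref (nat_lit 234) (nat_lit 2942485207077648)) (C.cons (nat_lit 1171) (C.ref (nat_lit 234) (nat_lit 2942416487600928)) (C.cons (nat_lit 1165) (C.ref (nat_lit 234) (nat_lit 2941385695450128))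 (C.cons (nat_lit 1163) (C.ref (nat_lit 234) (nat_lit 2941316975973408)) (C.cons (nat_lit 1159) (C.ref (nat_lit 234) (nat_lit 2940217464345648)) (C.cons (nat_lit 1113) (C.ref (nat_lit 234) (nat_lit 2924961740575248)) (C.cons (nat_lit 1109)
  (C.ref (nat_lit 234) (nat_lit 2924893021098768)) (C.cons (nat_lit 1107) (C.ref (nat_lit 234) (nat_lit 2924824301622048)) (C.cons (nat_lit 1101) (C.ref (nat_lit 234) (nat_lit 2923793509471248)) (C.cons (nat_lit 1099) (C.ref (nat_lit 234) (nat_lit 2923724789994528)) (C.cons (nat_lit 1095) (C.ref (nat_lit 234) (nat_lit 2922625278366768)) (C.cons (nat_lit 1081) (C.ref (nat_lit 234) (nat_lit 2907369554534928)) (C.cons (nat_lit 1077) (C.ref (nat_lit 234) (nat_lit 2907300835058448)) (C.cons (nat_lit 1075) (C.ref (nat_lit 234) (nat_lit 2907232115581728)) (C.cons (nat_lit 1069) (C.ref (nat_lit 234) (nat_lit 2906201323430928)) (C.cons (nat_lit 1067) (C.ref (nat_lit 234) (nat_lit 2906132603954208)) (C.cons (nat_lit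 1063) (C.ref (nat_lit 234) (nat_lit 2905033092326448)) (C.cons (nat_lit 1053) (C.ref (nat_lit 235) (nat_lit 3038587130438928)) (C.cons (nat_lit 1051) (C.ref (nat_lit 235) (nat_lit 3038587113661728)) (C.cons (nat_lit 1047) (C.ref (nat_lit 235) (nat_lit 3038586845226288)) (C.cons (nat_lit 1039) (C.ref (nat_lit 235) (nat_lit 3038582550259008)) (C.cons (nat_lit 793) (C.ref (nat_lit 234) (nat_lit 2678671151616528)) (C.cons (nat_lit 789) (C.ref (nat_lit 234) (nat_lit 2678602432140048)) (C.cons (nat_lit 787) (C.ref (nat_lit 234) (nat_lit 2678533712663328)) (C.cons (nat_lit 781) (C.ref (nat_lit 234) (nat_lit 2677502920512528)) (C.cons (nat_lit 779) (C.ref (nat_lit 234) (nat_lit 2677434201035808)) (C.cons (nat_lit 775) (C.ref (nat_lit 234) (nat_lit 2676334689408048)) (C.cons (nat_lit 665) (C.ref (nat_lit 234) (nat_lit 2661078966620688)) (C.cons (nat_lit 661) (C.ref (nat_lit 234) (nat_lit 2661010247144208)) (C.cons (nat_lit 659) (C.ref (nat_lit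 234) (nat_lit 2660941527667488)) (C.cons (nat_lit 653) (C.ref (nat_lit 234) (nat_lit 2659910735516688)) (C.cons (nat_lit 651) (C.ref (nat_lit 234) (nat_lit 2659842016039968)) (C.cons (nat_lit 647) (C.ref (nat_lit 234) (nat_lit 2658742504412208)) (C.cons (nat_lit 601) (C.ref (nat_lit 234) (nat_lit 2643486780641808)) (C.cons (nat_lit 597) (C.ref (nat_lit 234) (nat_lit 2643418061165328)) (C.cons (nat_lit 595) (C.ref (nat_lit 234) (nat_lit 2643349341688608)) (C.cons (nat_lit 589) (C.ref (nat_lit 234) (nat_lit 2642318549537808)) (C.cons (nat_lit 587) (C.ref (nat_lit 234) (nat_lit 2642249830061088)) (C.cons (nat_lit 583) (C.ref (nat_lit 234) (nat_lit 2641150318433328)) (C.cons (nat_lit 569) (C.ref (nat_lit 234) (nat_lit 2625894594601488)) (C.cons (nat_lit 565) (C.ref (nat_lit 234) (nat_lit 2625825875125008)) (C.cons (nat_lit 563) (C.ref (nat_lit 234) (nat_lit 2625757155648288)) (C.cons (nat_lit 557) (C.ref (nat_lit 234) (nat_lit 2624726363497488))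 (C.cons (nat_lit 555) (C.ref (nat_lit 234) (nat_lit 2624657644020768)) (C.cons (nat_lit 551) (C.ref (nat_lit 234) (nat_lit 2623558132393008)) (C.cons (nat_lit 541) (C.ref (nat_lit 235) (nat_lit 2757180873205008)) (C.cons (nat_lit 539) (C.ref (nat_lit 235) (nat_lit 2757180856427808)) (C.cons (nat_lit 535) (C.ref (nat_lit 235) (nat_lit 2757180587992368)) (C.cons (nat_lit 527) (C.ref (nat_lit 235) (nat_lit 2757176293025088)) (C.cons (nat_lit 285) (C.ref (nat_lit 235) (nat_lit 2381903815223568)) (C.cons (nat_lit 283) (C.ref (nat_lit 235) (nat_lit 2381903798446368)) (C.cons (nat_lit 279) (C.ref (nat_lit 235) (nat_lit 2381903530010928)) (C.cons (nat_lit 271) (C.ref (nat_lit 235) (nat_lit 2381899235043648)) (C.cons (nat_lit 157) (C.ref (nat_lit 235) (nat_lit 2118021024557328)) (C.cons (nat_lit 155) (C.ref (nat_lit 235) (nat_lit 2118021007780128)) (C.cons (nat_lit 151) (C.ref (nat_lit 235) (nat_lit 2118020739344688)) (C.cons (nat_lit 143) (C.ref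 (nat_lit 235) (nat_lit 2118016444377408)) (C.cons (nat_lit 93) (C.ref (nat_lit 235) (nat_lit 1837645559474448)) (C.cons (nat_lit 91) (C.ref (nat_lit 235) (nat_lit 1837645542697248)) (C.cons (nat_lit 87) (C.ref (nat_lit 235) (nat_lit 1837645274261808)) (C.cons (nat_lit 79) (C.ref (nat_lit 235) (nat_lit 1837640979294528)) (C.cons (nat_lit 61) (C.ref (nat_lit 235) (nat_lit 1556239302240528)) (C.cons (nat_lit 59)
  (C.ref (nat_lit 235) (nat_lit 1556239285463328)) (C.cons (nat_lit 55) (C.ref (nat_lit 235) (nat_lit 1556239017027888)) (C.cons (nat_lit 47) (C.ref (nat_lit 235) (nat_lit 1556234722060608)) (C.cons (nat_lit 31) (C.big C.nil C.nil) C.nil))))))))))))))))))))))))))))))))))))))))))))))))))))))))))))))))))))))))))))))))))))))))))))))))))))))))))))))))))))))))))))))))) C.nil) List.nil))))))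

theorem ok13_232 : okL par13 (nat_lit 238) c13_232 (nat_lit 232) = true := by decide +kernel

noncomputable def c13_238 : List C :=
  (List.cons (C.big (C.cons (nat_lit 4545) (C.ref (nat_lit 236) (nat_lit 3582863703552528)) (C.cons (nat_lit 4513) (C.ref (nat_lit 236) (nat_lit 3582863687823888)) (C.cons (nat_lit 4497) (C.ref (nat_lit 236) (nat_lit 3582863671112208)) (C.cons (nat_lit 4489) (C.ref (nat_lit 236) (nat_lit 3582863654339088)) (C.cons (nat_lit 4485) (C.ref (nat_lit 236) (nat_lit 3582863637562128)) (C.cons (nat_lit 4483) (C.ref (nat_lit 236) (nat_lit 3582863620784928)) (C.cons (nat_lit 4449) (C.ref (nat_lit 236) (nat_lit 3582863420437008)) (C.cons (nat_lit 4433) (C.ref (nat_lit 236) (nat_lit 3582863403725328)) (C.cons (nat_lit 4425) (C.ref (nat_lit 236) (nat_lit 3582863386952208)) (C.cons (nat_lit 4421) (C.ref (nat_lit 236) (nat_lit 3582863370175248)) (C.cons (nat_lit 4419) (C.ref (nat_lit 236) (nat_lit 3582863353398048)) (C.cons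 (nat_lit 4401) (C.ref (nat_lit 236) (nat_lit 3582863135355408)) (C.cons (nat_lit 4393) (C.ref (nat_lit 236) (nat_lit 3582863118582288)) (C.cons (nat_lit 4389) (C.ref (nat_lit 236) (nat_lit 3582863101805328)) (C.cons (nat_lit 4387) (C.ref (nat_lit 236) (nat_lit 3582863085028128)) (C.cons (nat_lit 4377) (C.ref (nat_lit 236) (nat_lit 3582862850150928)) (C.cons (nat_lit 4373) (C.ref (nat_lit 236) (nat_lit 3582862833373968)) (C.cons (nat_lit 4371) (C.ref (nat_lit 236) (nat_lit 3582862816596768)) (C.cons (nat_lit 4365) (C.ref (nat_lit 236) (nat_lit 3582862564938768)) (C.cons (nat_lit 4363) (C.ref (nat_lit 236) (nat_lit 3582862548161568)) (C.cons (nat_lit 4359) (C.ref (nat_lit 236) (nat_lit 3582862279726128)) (C.cons (nat_lit 4321) (C.ref (nat_lit 236) (nat_lit 3582859126518288)) (C.cons (nat_lit 4305) (C.ref (nat_lit 236) (nat_lit 3582859109806608)) (C.cons (nat_lit 4297) (C.ref (nat_lit 236) (nat_lit 3582859093033488)) (C.cons (nat_lit 4293)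 (C.ref (nat_lit 236) (nat_lit 3582859076256528)) (C.cons (nat_lit 4291) (C.ref (nat_lit 236) (nat_lit 3582859059479328)) (C.cons (nat_lit 4273) (C.ref (nat_lit 236) (nat_lit 3582858841436688)) (C.cons (nat_lit 4265) (C.ref (nat_lit 236) (nat_lit 3582858824663568)) (C.cons (nat_lit 4261) (C.ref (nat_lit 236) (nat_lit 3582858807886608)) (C.cons (nat_lit 4259) (C.ref (nat_lit 236) (nat_lit 3582858791109408)) (C.cons (nat_lit 4249) (C.ref (nat_lit 236) (nat_lit 3582858556232208)) (C.cons (nat_lit 4245) (C.ref (nat_lit 236) (nat_lit 3582858539455248)) (C.cons (nat_lit 4243) (C.ref (nat_lit 236) (nat_lit 3582858522678048)) (C.cons (nat_lit 4237) (C.ref (nat_lit 236) (nat_lit 3582858271020048)) (C.cons (nat_lit 4235) (C.ref (nat_lit 236) (nat_lit 3582858254242848)) (C.cons (nat_lit 4231) (C.ref (nat_lit 236) (nat_lit 3582857985807408)) (C.cons (nat_lit 4209) (C.ref (nat_lit 236) (nat_lit 3582854546534928)) (C.cons (nat_lit 4201) (C.ref (nat_lit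 236) (nat_lit 3582854529761808)) (C.cons (nat_lit 4197) (C.ref (nat_lit 236) (nat_lit 3582854512984848)) (C.cons (nat_lit 4195) (C.ref (nat_lit 236) (nat_lit 3582854496207648)) (C.cons (nat_lit 4185) (C.ref (nat_lit 236) (nat_lit 3582854261330448)) (C.cons (nat_lit 4181) (C.ref (nat_lit 236) (nat_lit 3582854244553488)) (C.cons (nat_lit 4179) (C.ref (nat_lit 236) (nat_lit 3582854227776288)) (C.cons (nat_lit 4173) (C.ref (nat_lit 236) (nat_lit 3582853976118288)) (C.cons (nat_lit 4171) (C.ref (nat_lit 236) (nat_lit 3582853959341088)) (C.cons (nat_lit 4167) (C.ref (nat_lit 236) (nat_lit 3582853690905648)) (C.cons (nat_lit 4153) (C.ref (nat_lit 236) (nat_lit 3582849966367248)) (C.cons (nat_lit 4149) (C.ref (nat_lit 236) (nat_lit 3582849949590288)) (C.cons (nat_lit 4147) (C.ref (nat_lit 236) (nat_lit 3582849932813088)) (C.cons (nat_lit 4141) (C.ref (nat_lit 236) (nat_lit 3582849681155088)) (C.cons (nat_lit 4139) (C.ref (nat_lit 236) (nat_lit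 3582849664377888)) (C.cons (nat_lit 4135) (C.ref (nat_lit 236) (nat_lit 3582849395942448)) (C.cons (nat_lit 4125) (C.ref (nat_lit 236) (nat_lit 3582845386188048)) (C.cons (nat_lit 4123) (C.ref (nat_lit 236) (nat_lit 3582845369410848)) (C.cons (nat_lit 4119) (C.ref (nat_lit 236) (nat_lit 3582845100975408))
  (C.cons (nat_lit 4111) (C.ref (nat_lit 236) (nat_lit 3582840806008128)) (C.cons (nat_lit 2497) (C.ref (nat_lit 236) (nat_lit 3318980912886288)) (C.cons (nat_lit 2465) (C.ref (nat_lit 236) (nat_lit 3318980897157648)) (C.cons (nat_lit 2449) (C.ref (nat_lit 236) (nat_lit 3318980880445968)) (C.cons (nat_lit 2441) (C.ref (nat_lit 236) (nat_lit 3318980863672848)) (C.cons (nat_lit 2437) (C.ref (nat_lit 236) (nat_lit 3318980846895888)) (C.cons (nat_lit 2435) (C.ref (nat_lit 236) (nat_lit 3318980830118688)) (C.cons (nat_lit 2401) (C.ref (nat_lit 236) (nat_lit 3318980629770768)) (C.cons (nat_lit 2385) (C.ref (nat_lit 236) (nat_lit 3318980613059088))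 (C.cons (nat_lit 2377) (C.ref (nat_lit 236) (nat_lit 3318980596285968)) (C.cons (nat_lit 2373) (C.ref (nat_lit 236) (nat_lit 3318980579509008)) (C.cons (nat_lit 2371) (C.ref (nat_lit 236) (nat_lit 3318980562731808)) (C.cons (nat_lit 2353) (C.ref (nat_lit 236) (nat_lit 3318980344689168)) (C.cons (nat_lit 2345) (C.ref (nat_lit 236) (nat_lit 3318980327916048)) (C.cons (nat_lit 2341) (C.ref (nat_lit 236) (nat_lit 3318980311139088)) (C.cons (nat_lit 2339) (C.ref (nat_lit 236) (nat_lit 3318980294361888)) (C.cons (nat_lit 2329) (C.ref (nat_lit 236) (nat_lit 3318980059484688)) (C.cons (nat_lit 2325) (C.ref (nat_lit 236) (nat_lit 3318980042707728)) (C.cons (nat_lit 2323) (C.ref (nat_lit 236) (nat_lit 3318980025930528)) (C.cons (nat_lit 2317) (C.ref (nat_lit 236) (nat_lit 3318979774272528)) (C.cons (nat_lit 2315) (C.ref (nat_lit 236) (nat_lit 3318979757495328)) (C.cons (nat_lit 2311) (C.ref (nat_lit 236) (nat_lit 3318979489059888)) (C.cons (nat_lit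 2273) (C.ref (nat_lit 236) (nat_lit 3318976335852048)) (C.cons (nat_lit 2257) (C.ref (nat_lit 236) (nat_lit 3318976319140368)) (C.cons (nat_lit 2249) (C.ref (nat_lit 236) (nat_lit 3318976302367248)) (C.cons (nat_lit 2245) (C.ref (nat_lit 236) (nat_lit 3318976285590288)) (C.cons (nat_lit 2243) (C.ref (nat_lit 236) (nat_lit 3318976268813088)) (C.cons (nat_lit 2225) (C.ref (nat_lit 236) (nat_lit 3318976050770448)) (C.cons (nat_lit 2217) (C.ref (nat_lit 236) (nat_lit 3318976033997328)) (C.cons (nat_lit 2213) (C.ref (nat_lit 236) (nat_lit 3318976017220368)) (C.cons (nat_lit 2211) (C.ref (nat_lit 236) (nat_lit 3318976000443168)) (C.cons (nat_lit 2201) (C.ref (nat_lit 236) (nat_lit 3318975765565968)) (C.cons (nat_lit 2197) (C.ref (nat_lit 236) (nat_lit 3318975748789008)) (C.cons (nat_lit 2195) (C.ref (nat_lit 236) (nat_lit 3318975732011808)) (C.cons (nat_lit 2189) (C.ref (nat_lit 236) (nat_lit 3318975480353808)) (C.cons (nat_lit 2187) (C.ref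 (nat_lit 236) (nat_lit 3318975463576608)) (C.cons (nat_lit 2183) (C.ref (nat_lit 236) (nat_lit 3318975195141168)) (C.cons (nat_lit 2161) (C.ref (nat_lit 236) (nat_lit 3318971755868688)) (C.cons (nat_lit 2153) (C.ref (nat_lit 236) (nat_lit 3318971739095568)) (C.cons (nat_lit 2149) (C.ref (nat_lit 236) (nat_lit 3318971722318608)) (C.cons (nat_lit 2147) (C.ref (nat_lit 236) (nat_lit 3318971705541408)) (C.cons (nat_lit 2137) (C.ref (nat_lit 236) (nat_lit 3318971470664208)) (C.cons (nat_lit 2133) (C.ref (nat_lit 236) (nat_lit 3318971453887248)) (C.cons (nat_lit 2131) (C.ref (nat_lit 236) (nat_lit 3318971437110048)) (C.cons (nat_lit 2125) (C.ref (nat_lit 236) (nat_lit 3318971185452048)) (C.cons (nat_lit 2123) (C.ref (nat_lit 236) (nat_lit 3318971168674848)) (C.cons (nat_lit 2119) (C.ref (nat_lit 236) (nat_lit 3318970900239408)) (C.cons (nat_lit 2105) (C.ref (nat_lit 236) (nat_lit 3318967175701008)) (C.cons (nat_lit 2101) (C.ref (nat_lit 236)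 (nat_lit 3318967158924048)) (C.cons (nat_lit 2099) (C.ref (nat_lit 236) (nat_lit 3318967142146848)) (C.cons (nat_lit 2093) (C.ref (nat_lit 236) (nat_lit 3318966890488848)) (C.cons (nat_lit 2091) (C.ref (nat_lit 236) (nat_lit 3318966873711648)) (C.cons (nat_lit 2087) (C.ref (nat_lit 236) (nat_lit 3318966605276208)) (C.cons (nat_lit 2077) (C.ref (nat_lit 236) (nat_lit 3318962595521808)) (C.cons (nat_lit 2075) (C.ref (nat_lit 236) (nat_lit 3318962578744608)) (C.cons (nat_lit 2071)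
  (C.ref (nat_lit 236) (nat_lit 3318962310309168)) (C.cons (nat_lit 2063) (C.ref (nat_lit 236) (nat_lit 3318958015341888)) (C.cons (nat_lit 1473) (C.ref (nat_lit 236) (nat_lit 3038605447803408)) (C.cons (nat_lit 1441) (C.ref (nat_lit 236) (nat_lit 3038605432074768)) (C.cons (nat_lit 1425) (C.ref (nat_lit 236) (nat_lit 3038605415363088)) (C.cons (nat_lit 1417) (C.ref (nat_lit 236) (nat_lit 3038605398589968)) (C.cons (nat_lit 1413) (C.ref (nat_lit 236) (nat_lit 3038605381813008)) (C.cons (nat_lit 1411) (C.ref (nat_lit 236) (nat_lit 3038605365035808)) (C.cons (nat_lit 1377) (C.ref (nat_lit 236) (nat_lit 3038605164687888)) (C.cons (nat_lit 1361) (C.ref (nat_lit 236) (nat_lit 3038605147976208)) (C.cons (nat_lit 1353) (C.ref (nat_lit 236) (nat_lit 3038605131203088)) (C.cons (nat_lit 1349) (C.ref (nat_lit 236) (nat_lit 3038605114426128)) (C.cons (nat_lit 1347) (C.ref (nat_lit 236) (nat_lit 3038605097648928)) (C.cons (nat_lit 1329) (C.ref (nat_lit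 236) (nat_lit 3038604879606288)) (C.cons (nat_lit 1321) (C.ref (nat_lit 236) (nat_lit 3038604862833168)) (C.cons (nat_lit 1317) (C.ref (nat_lit 236) (nat_lit 3038604846056208)) (C.cons (nat_lit 1315) (C.ref (nat_lit 236) (nat_lit 3038604829279008)) (C.cons (nat_lit 1305) (C.ref (nat_lit 236) (nat_lit 3038604594401808)) (C.cons (nat_lit 1301) (C.ref (nat_lit 236) (nat_lit 3038604577624848)) (C.cons (nat_lit 1299) (C.ref (nat_lit 236) (nat_lit 3038604560847648)) (C.cons (nat_lit 1293) (C.ref (nat_lit 236) (nat_lit 3038604309189648)) (C.cons (nat_lit 1291) (C.ref (nat_lit 236) (nat_lit 3038604292412448)) (C.cons (nat_lit 1287) (C.ref (nat_lit 236) (nat_lit 3038604023977008)) (C.cons (nat_lit 1249) (C.ref (nat_lit 236) (nat_lit 3038600870769168)) (C.cons (nat_lit 1233) (C.ref (nat_lit 236) (nat_lit 3038600854057488)) (C.cons (nat_lit 1225) (C.ref (nat_lit 236) (nat_lit 3038600837284368)) (C.cons (nat_lit 1221) (C.ref (nat_lit 236) (nat_lit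 3038600820507408)) (C.cons (nat_lit 1219) (C.ref (nat_lit 236) (nat_lit 3038600803730208)) (C.cons (nat_lit 1201) (C.ref (nat_lit 236) (nat_lit 3038600585687568)) (C.cons (nat_lit 1193) (C.ref (nat_lit 236) (nat_lit 3038600568914448)) (C.cons (nat_lit 1189) (C.ref (nat_lit 236) (nat_lit 3038600552137488)) (C.cons (nat_lit 1187) (C.ref (nat_lit 236) (nat_lit 3038600535360288)) (C.cons (nat_lit 1177) (C.ref (nat_lit 236) (nat_lit 3038600300483088)) (C.cons (nat_lit 1173) (C.ref (nat_lit 236) (nat_lit 3038600283706128)) (C.cons (nat_lit 1171) (C.ref (nat_lit 236) (nat_lit 3038600266928928)) (C.cons (nat_lit 1165) (C.ref (nat_lit 236) (nat_lit 3038600015270928)) (C.cons (nat_lit 1163) (C.ref (nat_lit 236) (nat_lit 3038599998493728)) (C.cons (nat_lit 1159) (C.ref (nat_lit 236) (nat_lit 3038599730058288)) (C.cons (nat_lit 1137) (C.ref (nat_lit 236) (nat_lit 3038596290785808)) (C.cons (nat_lit 1129) (C.ref (nat_lit 236) (nat_lit 3038596274012688))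 (C.cons (nat_lit 1125) (C.ref (nat_lit 236) (nat_lit 3038596257235728)) (C.cons (nat_lit 1123) (C.ref (nat_lit 236) (nat_lit 3038596240458528)) (C.cons (nat_lit 1113) (C.ref (nat_lit 236) (nat_lit 3038596005581328)) (C.cons (nat_lit 1109) (C.ref (nat_lit 236) (nat_lit 3038595988804368)) (C.cons (nat_lit 1107) (C.ref (nat_lit 236) (nat_lit 3038595972027168)) (C.cons (nat_lit 1101) (C.ref (nat_lit 236) (nat_lit 3038595720369168)) (C.cons (nat_lit 1099) (C.ref (nat_lit 236) (nat_lit 3038595703591968)) (C.cons (nat_lit 1095) (C.ref (nat_lit 236) (nat_lit 3038595435156528)) (C.cons (nat_lit 1081) (C.ref (nat_lit 236) (nat_lit 3038591710618128)) (C.cons (nat_lit 1077) (C.ref (nat_lit 236) (nat_lit 3038591693841168)) (C.cons (nat_lit 1075) (C.ref (nat_lit 236) (nat_lit 3038591677063968)) (C.cons (nat_lit 1069) (C.ref (nat_lit 236) (nat_lit 3038591425405968)) (C.cons (nat_lit 1067) (C.ref (nat_lit 236) (nat_lit 3038591408628768)) (C.cons (nat_lit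 1063) (C.ref (nat_lit 236) (nat_lit 3038591140193328)) (C.cons (nat_lit 1053) (C.ref (nat_lit 236) (nat_lit 3038587130438928)) (C.cons (nat_lit 1051)
  (C.ref (nat_lit 236) (nat_lit 3038587113661728)) (C.cons (nat_lit 1047) (C.ref (nat_lit 236) (nat_lit 3038586845226288)) (C.cons (nat_lit 1039) (C.ref (nat_lit 236) (nat_lit 3038582550259008)) (C.cons (nat_lit 961) (C.ref (nat_lit 236) (nat_lit 2757199190569488)) (C.cons (nat_lit 929) (C.ref (nat_lit 236) (nat_lit 2757199174840848)) (C.cons (nat_lit 913) (C.ref (nat_lit 236) (nat_lit 2757199158129168)) (C.cons (nat_lit 905) (C.ref (nat_lit 236) (nat_lit 2757199141356048)) (C.cons (nat_lit 901) (C.ref (nat_lit 236) (nat_lit 2757199124579088)) (C.cons (nat_lit 899) (C.ref (nat_lit 236) (nat_lit 2757199107801888)) (C.cons (nat_lit 865) (C.ref (nat_lit 236) (nat_lit 2757198907453968)) (C.cons (nat_lit 849) (C.ref (nat_lit 236) (nat_lit 2757198890742288)) (C.cons (nat_lit 841) (C.ref (nat_lit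 236) (nat_lit 2757198873969168)) (C.cons (nat_lit 837) (C.ref (nat_lit 236) (nat_lit 2757198857192208)) (C.cons (nat_lit 835) (C.ref (nat_lit 236) (nat_lit 2757198840415008)) (C.cons (nat_lit 817) (C.ref (nat_lit 236) (nat_lit 2757198622372368)) (C.cons (nat_lit 809) (C.ref (nat_lit 236) (nat_lit 2757198605599248)) (C.cons (nat_lit 805) (C.ref (nat_lit 236) (nat_lit 2757198588822288)) (C.cons (nat_lit 803) (C.ref (nat_lit 236) (nat_lit 2757198572045088)) (C.cons (nat_lit 793) (C.ref (nat_lit 236) (nat_lit 2757198337167888)) (C.cons (nat_lit 789) (C.ref (nat_lit 236) (nat_lit 2757198320390928)) (C.cons (nat_lit 787) (C.ref (nat_lit 236) (nat_lit 2757198303613728)) (C.cons (nat_lit 781) (C.ref (nat_lit 236) (nat_lit 2757198051955728)) (C.cons (nat_lit 779) (C.ref (nat_lit 236) (nat_lit 2757198035178528)) (C.cons (nat_lit 775) (C.ref (nat_lit 236) (nat_lit 2757197766743088)) (C.cons (nat_lit 737) (C.ref (nat_lit 236) (nat_lit 2757194613535248))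 (C.cons (nat_lit 721) (C.ref (nat_lit 236) (nat_lit 2757194596823568)) (C.cons (nat_lit 713) (C.ref (nat_lit 236) (nat_lit 2757194580050448)) (C.cons (nat_lit 709) (C.ref (nat_lit 236) (nat_lit 2757194563273488)) (C.cons (nat_lit 707) (C.ref (nat_lit 236) (nat_lit 2757194546496288)) (C.cons (nat_lit 689) (C.ref (nat_lit 236) (nat_lit 2757194328453648)) (C.cons (nat_lit 681) (C.ref (nat_lit 236) (nat_lit 2757194311680528)) (C.cons (nat_lit 677) (C.ref (nat_lit 236) (nat_lit 2757194294903568)) (C.cons (nat_lit 675) (C.ref (nat_lit 236) (nat_lit 2757194278126368)) (C.cons (nat_lit 665) (C.ref (nat_lit 236) (nat_lit 2757194043249168)) (C.cons (nat_lit 661) (C.ref (nat_lit 236) (nat_lit 2757194026472208)) (C.cons (nat_lit 659) (C.ref (nat_lit 236) (nat_lit 2757194009695008)) (C.cons (nat_lit 653) (C.ref (nat_lit 236) (nat_lit 2757193758037008)) (C.cons (nat_lit 651) (C.ref (nat_lit 236) (nat_lit 2757193741259808)) (C.cons (nat_lit 647) (C.ref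 (nat_lit 236) (nat_lit 2757193472824368)) (C.cons (nat_lit 625) (C.ref (nat_lit 236) (nat_lit 2757190033551888)) (C.cons (nat_lit 617) (C.ref (nat_lit 236) (nat_lit 2757190016778768)) (C.cons (nat_lit 613) (C.ref (nat_lit 236) (nat_lit 2757190000001808)) (C.cons (nat_lit 611) (C.ref (nat_lit 236) (nat_lit 2757189983224608)) (C.cons (nat_lit 601) (C.ref (nat_lit 236) (nat_lit 2757189748347408)) (C.cons (nat_lit 597) (C.ref (nat_lit 236) (nat_lit 2757189731570448)) (C.cons (nat_lit 595) (C.ref (nat_lit 236) (nat_lit 2757189714793248)) (C.cons (nat_lit 589) (C.ref (nat_lit 236) (nat_lit 2757189463135248)) (C.cons (nat_lit 587) (C.ref (nat_lit 236) (nat_lit 2757189446358048)) (C.cons (nat_lit 583) (C.ref (nat_lit 236) (nat_lit 2757189177922608)) (C.cons (nat_lit 569) (C.ref (nat_lit 236) (nat_lit 2757185453384208)) (C.cons (nat_lit 565) (C.ref (nat_lit 236) (nat_lit 2757185436607248)) (C.cons (nat_lit 563) (C.ref (nat_lit 236) (nat_lit 2757185419830048))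 (C.cons (nat_lit 557) (C.ref (nat_lit 236) (nat_lit 2757185168172048)) (C.cons (nat_lit 555) (C.ref (nat_lit 236) (nat_lit 2757185151394848)) (C.cons (nat_lit 551) (C.ref (nat_lit 236) (nat_lit 2757184882959408)) (C.cons (nat_lit 541) (C.ref (nat_lit 236) (nat_lit 2757180873205008)) (C.cons (nat_lit 539)
  (C.ref (nat_lit 236) (nat_lit 2757180856427808)) (C.cons (nat_lit 535) (C.ref (nat_lit 236) (nat_lit 2757180587992368)) (C.cons (nat_lit 527) (C.ref (nat_lit 236) (nat_lit 2757176293025088)) (C.cons (nat_lit 481) (C.ref (nat_lit 237) (nat_lit 3582863703552528)) (C.cons (nat_lit 465) (C.ref (nat_lit 237) (nat_lit 3582863702569488)) (C.cons (nat_lit 457) (C.ref (nat_lit 237) (nat_lit 3582863701525008)) (C.cons (nat_lit 453) (C.ref (nat_lit 237) (nat_lit 3582863700476688)) (C.cons (nat_lit 451) (C.ref (nat_lit 237) (nat_lit 3582863699428128)) (C.cons (nat_lit 433) (C.ref (nat_lit 237) (nat_lit 3582863685857808)) (C.cons (nat_lit 425)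 (C.ref (nat_lit 237) (nat_lit 3582863684813328)) (C.cons (nat_lit 421) (C.ref (nat_lit 237) (nat_lit 3582863683765008)) (C.cons (nat_lit 419) (C.ref (nat_lit 237) (nat_lit 3582863682716448)) (C.cons (nat_lit 409) (C.ref (nat_lit 237) (nat_lit 3582863668040208)) (C.cons (nat_lit 405) (C.ref (nat_lit 237) (nat_lit 3582863666991888)) (C.cons (nat_lit 403) (C.ref (nat_lit 237) (nat_lit 3582863665943328)) (C.cons (nat_lit 397) (C.ref (nat_lit 237) (nat_lit 3582863650214928)) (C.cons (nat_lit 395) (C.ref (nat_lit 237) (nat_lit 3582863649166368)) (C.cons (nat_lit 391) (C.ref (nat_lit 237) (nat_lit 3582863632389168)) (C.cons (nat_lit 369) (C.ref (nat_lit 237) (nat_lit 3582863417487888)) (C.cons (nat_lit 361) (C.ref (nat_lit 237) (nat_lit 3582863416443408)) (C.cons (nat_lit 357) (C.ref (nat_lit 237) (nat_lit 3582863415395088)) (C.cons (nat_lit 355) (C.ref (nat_lit 237) (nat_lit 3582863414346528)) (C.cons (nat_lit 345) (C.ref (nat_lit 237) (nat_lit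 3582863399670288)) (C.cons (nat_lit 341) (C.ref (nat_lit 237) (nat_lit 3582863398621968)) (C.cons (nat_lit 339) (C.ref (nat_lit 237) (nat_lit 3582863397573408)) (C.cons (nat_lit 333) (C.ref (nat_lit 237) (nat_lit 3582863381845008)) (C.cons (nat_lit 331) (C.ref (nat_lit 237) (nat_lit 3582863380796448)) (C.cons (nat_lit 327) (C.ref (nat_lit 237) (nat_lit 3582863364019248)) (C.cons (nat_lit 313) (C.ref (nat_lit 237) (nat_lit 3582863131238928)) (C.cons (nat_lit 309) (C.ref (nat_lit 237) (nat_lit 3582863130190608)) (C.cons (nat_lit 307) (C.ref (nat_lit 237) (nat_lit 3582863129142048)) (C.cons (nat_lit 301) (C.ref (nat_lit 237) (nat_lit 3582863113413648)) (C.cons (nat_lit 299) (C.ref (nat_lit 237) (nat_lit 3582863112365088)) (C.cons (nat_lit 295) (C.ref (nat_lit 237) (nat_lit 3582863095587888)) (C.cons (nat_lit 285) (C.ref (nat_lit 237) (nat_lit 3582862844978448)) (C.cons (nat_lit 283) (C.ref (nat_lit 237) (nat_lit 3582862843929888)) (C.cons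 (nat_lit 279) (C.ref (nat_lit 237) (nat_lit 3582862827152688)) (C.cons (nat_lit 271) (C.ref (nat_lit 237) (nat_lit 3582862558717248)) (C.cons (nat_lit 241) (C.ref (nat_lit 237) (nat_lit 3582859122586128)) (C.cons (nat_lit 233) (C.ref (nat_lit 237) (nat_lit 3582859121541648)) (C.cons (nat_lit 229) (C.ref (nat_lit 237) (nat_lit 3582859120493328)) (C.cons (nat_lit 227) (C.ref (nat_lit 237) (nat_lit 3582859119444768)) (C.cons (nat_lit 217) (C.ref (nat_lit 237) (nat_lit 3582859104768528)) (C.cons (nat_lit 213) (C.ref (nat_lit 237) (nat_lit 3582859103720208)) (C.cons (nat_lit 211) (C.ref (nat_lit 237) (nat_lit 3582859102671648)) (C.cons (nat_lit 205) (C.ref (nat_lit 237) (nat_lit 3582859086943248)) (C.cons (nat_lit 203) (C.ref (nat_lit 237) (nat_lit 3582859085894688)) (C.cons (nat_lit 199) (C.ref (nat_lit 237) (nat_lit 3582859069117488)) (C.cons (nat_lit 185) (C.ref (nat_lit 237) (nat_lit 3582858836337168)) (C.cons (nat_lit 181) (C.ref (nat_lit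 237) (nat_lit 3582858835288848)) (C.cons (nat_lit 179) (C.ref (nat_lit 237) (nat_lit 3582858834240288)) (C.cons (nat_lit 173) (C.ref (nat_lit 237) (nat_lit 3582858818511888)) (C.cons (nat_lit 171) (C.ref (nat_lit 237) (nat_lit 3582858817463328)) (C.cons (nat_lit 167) (C.ref (nat_lit 237) (nat_lit 3582858800686128)) (C.cons (nat_lit 157) (C.ref (nat_lit 237) (nat_lit 3582858550076688)) (C.cons (nat_lit 155) (C.ref (nat_lit 237) (nat_lit 3582858549028128)) (C.cons (nat_lit 151)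
  (C.ref (nat_lit 237) (nat_lit 3582858532250928)) (C.cons (nat_lit 143) (C.ref (nat_lit 237) (nat_lit 3582858263815488)) (C.cons (nat_lit 121) (C.ref (nat_lit 237) (nat_lit 3582854541373968)) (C.cons (nat_lit 117) (C.ref (nat_lit 237) (nat_lit 3582854540325648)) (C.cons (nat_lit 115) (C.ref (nat_lit 237) (nat_lit 3582854539277088)) (C.cons (nat_lit 109) (C.ref (nat_lit 237) (nat_lit 3582854523548688)) (C.cons (nat_lit 107) (C.ref (nat_lit 237) (nat_lit 3582854522500128)) (C.cons (nat_lit 103) (C.ref (nat_lit 237) (nat_lit 3582854505722928)) (C.cons (nat_lit 93) (C.ref (nat_lit 237) (nat_lit 3582854255113488)) (C.cons (nat_lit 91) (C.ref (nat_lit 237) (nat_lit 3582854254064928)) (C.cons (nat_lit 87) (C.ref (nat_lit 237) (nat_lit 3582854237287728)) (C.cons (nat_lit 79) (C.ref (nat_lit 237) (nat_lit 3582853968852288)) (C.cons (nat_lit 61) (C.ref (nat_lit 237) (nat_lit 3582849960146448)) (C.cons (nat_lit 59) (C.ref (nat_lit 237) (nat_lit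 3582849959097888)) (C.cons (nat_lit 55) (C.ref (nat_lit 237) (nat_lit 3582849942320688)) (C.cons (nat_lit 47) (C.ref (nat_lit 237) (nat_lit 3582849673885248)) (C.cons (nat_lit 31) (C.ref (nat_lit 237) (nat_lit 3582845378917968)) C.nil)))))))))))))))))))))))))))))))))))))))))))))))))))))))))))))))))))))))))))))))))))))))))))))))))))))))))))))))))))))))))))))))))))))))))))))))))))))))))))))))))))))))))))))))))))))))))))))))))))))))))))))))))))))))))))))))))))))))))))))))))))))))))))))))))))))))))))))))))))))))))))))))))))))) C.nil) List.nil)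

theorem ok13_238 : okL par13 (nat_lit 239) c13_238 (nat_lit 238) = true := by decide +kernel


end Pool.Agent.MP_1f1ca1_co
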