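import Pool.Agent.MP_1f1ca1_co.Cert.P6

set_option autoImplicit false
set_option maxRecDepth 1000000
set_option maxHeartbeats 0

namespace Pool.Agent.MP_1f1ca1_co

noncomputable def c6_0 : List C :=
  (List.cons (C.node (nat_lit 1) (nat_lit 2) (nat_lit 3) (C.cons (nat_lit 14) (C.node (nat_lit 1) (nat_lit 2) (nat_lit 4) (C.cons (nat_lit 22) (C.node (nat_lit 1) (nat_lit 3) (nat_lit 5) (C.cons (nat_lit 42) (C.node (nat_lit 1) (nat_lit 4) (nat_lit 5) (C.cons (nat_lit 50) (C.node (nat_lit 2) (nat_lit 3) (nat_lit 4) (C.cons (nat_lit 60) (C.gl (C.cons (nat_lit 300) (C.q7 (nat_lit 54862086) (nat_lit 3089930980160255227602018566157)) (C.cons (nat_lit 210) (C.q7 (nat_lit 70590726) (nat_lit 3089930980160257479367471988757)) C.nil))) C.nil)) C.nil)) C.nil)) C.nil)) C.nil)) (List.cons (C.node (nat_lit 0) (nat_lit 3) (nat_lit 5) (C.cons (nat_lit 41) (C.node (nat_lit 0) (nat_lit 4) (nat_lit 5) (C.cons (nat_lit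 49) (C.qs (C.cons (nat_lit 6) (C.ref (nat_lit 0) (nat_lit 5517840)) (C.cons (nat_lit 9) (C.ref (nat_lit 0) (nat_lit 5517840)) C.nil))) C.nil)) C.nil)) (List.cons (C.node (nat_lit 0) (nat_lit 2) (nat_lit 3) (C.cons (nat_lit 29) (C.ref (nat_lit 1) (nat_lit 5517600)) (C.cons (nat_lit 13) (C.node (nat_lit 0) (nat_lit 2) (nat_lit 4) (C.cons (nat_lit 21) (C.node (nat_lit 0) (nat_lit 3) (nat_lit 4) (C.cons (nat_lit 57) (C.qs (C.cons (nat_lit 12) (C.ref (nat_lit 0) (nat_lit 2371920)) (C.cons (nat_lit 18) (C.ref (nat_lit 0) (nat_lit 2371920)) C.nil))) C.nil)) C.nil)) C.nil))) (List.cons (C.node (nat_lit 0) (nat_lit 1) (nat_lit 3) (C.cons (nat_lit 27) (C.node (nat_lit 0) (nat_lit 2) (nat_lit 3) (C.cons (nat_lit 13) (C.node (nat_lit 0) (nat_lit 2) (nat_lit 4) (C.cons (nat_lit 21) (C.ref (nat_lit 1) (nat_lit 5517840)) C.nil)) C.nil)) (C.cons (nat_lit 11) (C.node (nat_lit 0) (nat_lit 1) (nat_lit 4) (C.cons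 (nat_lit 19) (C.ref (nat_lit 2) (nat_lit 5517840)) C.nil)) C.nil))) (List.cons (C.big C.nil (C.big C.nil (C.node (nat_lit 0) (nat_lit 1) (nat_lit 2) (C.cons (nat_lit 39) (C.ref (nat_lit 3) (nat_lit 5517840)) (C.cons (nat_lit 23) (C.ref (nat_lit 3) (nat_lit 4534800)) (C.cons (nat_lit 15) (C.ref (nat_lit 3) (nat_lit 3490320)) (C.cons (nat_lit 7) (C.node (nat_lit 0) (nat_lit 1) (nat_lit 3) (C.cons (nat_lit 43) (C.node (nat_lit 0) (nat_lit 1) (nat_lit 4) (C.cons (nat_lit 19) (C.ref (nat_lit 2) (nat_lit 5514000)) C.nil)) (C.cons (nat_lit 27) (C.node (nat_lit 0) (nat_lit 1) (nat_lit 5) (C.cons (nat_lit 35) (C.ref (nat_lit 2) (nat_lit 4530960)) C.nil)) (C.cons (nat_lit 11) (C.node (nat_lit 0) (nat_lit 1) (nat_lit 4) (C.cons (nat_lit 51) (C.ref (nat_lit 2) (nat_lit 5448720)) (C.cons (nat_lit 19) (C.node (nat_lit 0) (nat_lit 1) (nat_lit 5) (C.cons (nat_lit 35) (C.node (nat_lit 0) (nat_lit 2) (nat_lit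 3) (C.cons (nat_lit 45) (C.node (nat_lit 0) (nat_lit 2) (nat_lit 4) C.nil) (C.cons (nat_lit 29) (C.node (nat_lit 0) (nat_lit 2) (nat_lit 5) C.nil) C.nil))) C.nil)) C.nil))) C.nil)))) C.nil))))))) List.nil)))))

theorem ok6_0 : okL par6 (nat_lit 5) c6_0 (nat_lit 0) = true := by decide +kernel


end Pool.Agent.MP_1f1ca1_co
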