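import Pool.Agent.MP_1f1ca1_co.Cert.P7

set_option autoImplicit false
set_option maxRecDepth 1000000
set_option maxHeartbeats 0

namespace Pool.Agent.MP_1f1ca1_co

noncomputable def c7_0 : List C :=
  (List.cons (C.big C.nil (C.big C.nil (C.node (nat_lit 0) (nat_lit 1) (nat_lit 2) (C.cons (nat_lit 7) (C.node (nat_lit 0) (nat_lit 1) (nat_lit 3) (C.cons (nat_lit 11) (C.node (nat_lit 0) (nat_lit 1) (nat_lit 4) (C.cons (nat_lit 19) (C.node (nat_lit 0) (nat_lit 1) (nat_lit 5) (C.cons (nat_lit 35) (C.node (nat_lit 0) (nat_lit 1) (nat_lit 6) (C.cons (nat_lit 67) (C.qs C.nil) C.nil)) C.nil)) C.nil)) C.nil)) C.nil)))) (List.cons (C.node (nat_lit 1) (nat_lit 2) (nat_lit 3) (C.cons (nat_lit 14) (C.node (nat_lit 1) (nat_lit 5) (nat_lit 6) (C.cons (nat_lit 98) (C.node (nat_lit 2) (nat_lit 4) (nat_lit 6) (C.cons (nat_lit 84) (C.node (nat_lit 3) (nat_lit 4) (nat_lit 5) (C.cons (nat_lit 56) (C.node (nat_lit 1)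 (nat_lit 2) (nat_lit 4) (C.cons (nat_lit 54) (C.node (nat_lit 1) (nat_lit 3) (nat_lit 4) (C.cons (nat_lit 90) (C.node (nat_lit 2) (nat_lit 3) (nat_lit 5) (C.cons (nat_lit 108) (C.q7 (nat_lit 104145936) (nat_lit 4278429581086319713434653622343)) C.nil)) C.nil)) C.nil)) C.nil)) C.nil)) C.nil)) C.nil)) (List.cons (C.node (nat_lit 0) (nat_lit 3) (nat_lit 6) (C.cons (nat_lit 73) (C.node (nat_lit 0) (nat_lit 4) (nat_lit 5) (C.cons (nat_lit 113) (C.qs (C.cons (nat_lit 20) (C.ref (nat_lit 1) (nat_lit 106181136)) (C.cons (nat_lit 18) (C.ref (nat_lit 1) (nat_lit 106181136)) (C.cons (nat_lit 6) (C.ref (nat_lit 1) (nat_lit 106181136)) (C.cons (nat_lit 22) (C.pat (nat_lit 0) (nat_lit 121976353) (nat_lit 8952870616379239709583405154375)) C.nil))))) C.nil)) C.nil)) (List.cons (C.node (nat_lit 0) (nat_lit 2) (nat_lit 3) (C.cons (nat_lit 29) (C.node (nat_lit 0) (nat_lit 2) (nat_lit 5) (C.cons (nat_lit 37) (C.ref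 (nat_lit 2) (nat_lit 106181136)) C.nil)) (C.cons (nat_lit 13) (C.node (nat_lit 0) (nat_lit 2) (nat_lit 4) (C.cons (nat_lit 53) (C.ref (nat_lit 2) (nat_lit 104092176)) (C.cons (nat_lit 21) (C.node (nat_lit 0) (nat_lit 2) (nat_lit 5) C.nil) C.nil))) C.nil))) (List.cons (C.node (nat_lit 0) (nat_lit 1) (nat_lit 5) (C.cons (nat_lit 35) (C.node (nat_lit 0) (nat_lit 2) (nat_lit 3) (C.cons (nat_lit 45) (C.node (nat_lit 0) (nat_lit 2) (nat_lit 4) C.nil) (C.cons (nat_lit 29) (C.node (nat_lit 0) (nat_lit 2) (nat_lit 5) C.nil) C.nil))) C.nil)) (List.cons (C.node (nat_lit 0) (nat_lit 1) (nat_lit 4) (C.cons (nat_lit 51) (C.ref (nat_lit 3) (nat_lit 106119696)) (C.cons (nat_lit 19) (C.ref (nat_lit 4) (nat_lit 106181136)) C.nil))) (List.cons (C.node (nat_lit 0) (nat_lit 1) (nat_lit 3) (C.cons (nat_lit 43) (C.node (nat_lit 0) (nat_lit 1) (nat_lit 4) (C.cons (nat_lit 19) (C.ref (nat_lit 3) (nat_lit 106181136))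 C.nil)) (C.cons (nat_lit 27) (C.node (nat_lit 0) (nat_lit 1) (nat_lit 5) (C.cons (nat_lit 35) (C.ref (nat_lit 3) (nat_lit 105198096)) C.nil)) (C.cons (nat_lit 11) (C.ref (nat_lit 5) (nat_lit 106181136)) C.nil)))) (List.cons (C.big (C.cons (nat_lit 125) (C.ref (nat_lit 0) (nat_lit 106181136)) (C.cons (nat_lit 123) (C.ref (nat_lit 0) (nat_lit 106180896)) (C.cons (nat_lit 119) (C.ref (nat_lit 0) (nat_lit 106176816)) (C.cons (nat_lit 111) (C.ref (nat_lit 0) (nat_lit 106111296)) (C.cons (nat_lit 95) (C.ref (nat_lit 0) (nat_lit 105062736)) (C.cons (nat_lit 63) (C.ref (nat_lit 0) (nat_lit 88285536)) C.nil)))))) (C.big C.nil (C.node (nat_lit 0) (nat_lit 1) (nat_lit 2) (C.cons (nat_lit 71) (C.ref (nat_lit 6) (nat_lit 106181136)) (C.cons (nat_lit 39) (C.ref (nat_lit 6) (nat_lit 90452496)) (C.cons (nat_lit 23) (C.ref (nat_lit 6) (nat_lit 73740816)) (C.cons (nat_lit 15) (C.ref (nat_lit 6) (nat_lit 56967696))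 (C.cons (nat_lit 7) (C.node (nat_lit 0) (nat_lit 1) (nat_lit 3) (C.cons (nat_lit 75) (C.ref (nat_lit 5) (nat_lit 106177296)) (C.cons (nat_lit 43) (C.ref (nat_lit 5) (nat_lit 90448656)) (C.cons (nat_lit 27) (C.ref (nat_lit 5) (nat_lit 73736976)) (C.cons (nat_lit 11) (C.node (nat_lit 0) (nat_lit 1) (nat_lit 4) (C.cons (nat_lit 83) (C.ref (nat_lit 4) (nat_lit 106112016)) (C.cons (nat_lit 51) (C.ref (nat_lit 4) (nat_lit 90383376)) (C.cons (nat_lit 19) (C.node (nat_lit 0) (nat_lit 1) (nat_lit 5) (C.cons (nat_lit 99) (C.node (nat_lit 0) (nat_lit 5) (nat_lit 2)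
  (C.cons (nat_lit 53) (C.node (nat_lit 0) (nat_lit 5) (nat_lit 3) C.nil) (C.cons (nat_lit 45) (C.node (nat_lit 0) (nat_lit 5) (nat_lit 4) C.nil) C.nil))) C.nil)) C.nil)))) C.nil))))) C.nil)))))))) List.nil))))))))

theorem ok7_0 : okL par7 (nat_lit 8) c7_0 (nat_lit 0) = true := by decide +kernel


end Pool.Agent.MP_1f1ca1_co
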