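import Pool.Agent.MP_1f1ca1_co.Cert.P8

set_option autoImplicit false
set_option maxRecDepth 1000000
set_option maxHeartbeats 0

namespace Pool.Agent.MP_1f1ca1_co

noncomputable def c8_0 : List C :=
  (List.cons (C.big C.nil (C.big C.nil (C.node (nat_lit 0) (nat_lit 1) (nat_lit 3) (C.cons (nat_lit 15) (C.node (nat_lit 0) (nat_lit 1) (nat_lit 4) (C.cons (nat_lit 19) (C.node (nat_lit 0) (nat_lit 1) (nat_lit 5) (C.cons (nat_lit 35) (C.node (nat_lit 0) (nat_lit 1) (nat_lit 6) (C.cons (nat_lit 67) (C.node (nat_lit 0) (nat_lit 1) (nat_lit 7) (C.cons (nat_lit 131) (C.node (nat_lit 0) (nat_lit 2) (nat_lit 4) (C.cons (nat_lit 21) (C.node (nat_lit 0) (nat_lit 2) (nat_lit 5) C.nil) C.nil)) C.nil)) C.nil)) C.nil)) C.nil)) (C.cons (nat_lit 11) (C.node (nat_lit 0) (nat_lit 2) (nat_lit 3) (C.cons (nat_lit 13) (C.node (nat_lit 0) (nat_lit 1) (nat_lit 4) (C.cons (nat_lit 23) (C.node (nat_lit 0) (nat_lit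 1) (nat_lit 5) (C.cons (nat_lit 35) (C.node (nat_lit 0) (nat_lit 1) (nat_lit 6) (C.cons (nat_lit 67) (C.node (nat_lit 0) (nat_lit 1) (nat_lit 7) (C.cons (nat_lit 131) (C.node (nat_lit 0) (nat_lit 2) (nat_lit 5) C.nil) C.nil)) C.nil)) C.nil)) (C.cons (nat_lit 19) (C.node (nat_lit 0) (nat_lit 2) (nat_lit 4) (C.cons (nat_lit 21) (C.node (nat_lit 0) (nat_lit 1) (nat_lit 5) (C.cons (nat_lit 39) (C.node (nat_lit 0) (nat_lit 1) (nat_lit 6) (C.cons (nat_lit 67) (C.node (nat_lit 0) (nat_lit 1) (nat_lit 7) C.nil) C.nil)) (C.cons (nat_lit 35) (C.node (nat_lit 0) (nat_lit 2) (nat_lit 5) C.nil) C.nil))) C.nil)) C.nil))) C.nil)) C.nil))))) (List.cons (C.big C.nil (C.node (nat_lit 0) (nat_lit 1) (nat_lit 4) (C.cons (nat_lit 19) (C.node (nat_lit 0) (nat_lit 1) (nat_lit 5) (C.cons (nat_lit 35) (C.node (nat_lit 0) (nat_lit 1) (nat_lit 6) (C.cons (nat_lit 67) (C.node (nat_lit 0) (nat_lit 2) (nat_lit 4)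 (C.cons (nat_lit 21) (C.node (nat_lit 0) (nat_lit 2) (nat_lit 5) (C.cons (nat_lit 37) (C.node (nat_lit 0) (nat_lit 2) (nat_lit 6) (C.cons (nat_lit 69) (C.node (nat_lit 0) (nat_lit 3) (nat_lit 4) C.nil) C.nil)) C.nil)) C.nil)) C.nil)) C.nil)) C.nil))) (List.cons (C.node (nat_lit 1) (nat_lit 4) (nat_lit 5) (C.cons (nat_lit 50) (C.node (nat_lit 2) (nat_lit 5) (nat_lit 6) (C.cons (nat_lit 100) (C.node (nat_lit 3) (nat_lit 4) (nat_lit 6) (C.cons (nat_lit 88) (C.node (nat_lit 1) (nat_lit 2) (nat_lit 3) (C.cons (nat_lit 142) (C.node (nat_lit 1) (nat_lit 4) (nat_lit 7) (C.cons (nat_lit 146) (C.node (nat_lit 1) (nat_lit 5) (nat_lit 7) (C.cons (nat_lit 162) (C.node (nat_lit 1) (nat_lit 6) (nat_lit 7) (C.cons (nat_lit 194) (C.node (nat_lit 2) (nat_lit 4) (nat_lit 7) C.nil) C.nil)) C.nil)) C.nil)) (C.cons (nat_lit 14) (C.node (nat_lit 1) (nat_lit 4) (nat_lit 6) (C.cons (nat_lit 86) (C.node (nat_lit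 1) (nat_lit 2) (nat_lit 7) (C.cons (nat_lit 134) (C.node (nat_lit 1) (nat_lit 4) (nat_lit 7) (C.cons (nat_lit 146) (C.node (nat_lit 2) (nat_lit 6) (nat_lit 7) (C.cons (nat_lit 196) (C.node (nat_lit 1) (nat_lit 5) (nat_lit 6) (C.cons (nat_lit 106) (C.node (nat_lit 1) (nat_lit 3) (nat_lit 7) C.nil) C.nil)) C.nil)) C.nil)) C.nil)) (C.cons (nat_lit 82) (C.node (nat_lit 2) (nat_lit 4) (nat_lit 6) (C.cons (nat_lit 84) (C.node (nat_lit 1) (nat_lit 2) (nat_lit 4) (C.cons (nat_lit 150) (C.node (nat_lit 1) (nat_lit 2) (nat_lit 6) (C.cons (nat_lit 70) (C.node (nat_lit 2) (nat_lit 6) (nat_lit 7) C.nil) C.nil)) (C.cons (nat_lit 22) (C.node (nat_lit 1) (nat_lit 4) (nat_lit 7) C.nil) C.nil))) C.nil)) C.nil))) C.nil))) C.nil)) C.nil)) C.nil)) (List.cons (C.qs (C.cons (nat_lit 168) (C.pat (nat_lit 0) (nat_lit 140784929) (nat_lit 19094036732283712859249126866983)) (C.cons (nat_lit 152) (C.ref (nat_lit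 2) (nat_lit 1985229328)) (C.cons (nat_lit 42) (C.ref (nat_lit 2) (nat_lit 1985229328)) (C.cons (nat_lit 161) (C.ref (nat_lit 2) (nat_lit 1985229328)) C.nil))))) (List.cons (C.node (nat_lit 0) (nat_lit 3) (nat_lit 5) (C.cons (nat_lit 41) (C.node (nat_lit 0) (nat_lit 2) (nat_lit 6) (C.cons (nat_lit 77) (C.node (nat_lit 0) (nat_lit 2) (nat_lit 7) (C.cons (nat_lit 133) (C.node (nat_lit 0) (nat_lit 3) (nat_lit 7) (C.cons (nat_lit 137) (C.ref (nat_lit 3) (nat_lit 1985229328)) C.nil)) C.nil)) (C.cons (nat_lit 69) (C.node (nat_lit 0) (nat_lit 3) (nat_lit 6) (C.cons (nat_lit 73)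
  (C.node (nat_lit 0) (nat_lit 2) (nat_lit 3) (C.cons (nat_lit 141) (C.ref (nat_lit 3) (nat_lit 1733571088)) C.nil)) C.nil)) C.nil))) C.nil)) (List.cons (C.node (nat_lit 0) (nat_lit 1) (nat_lit 5) (C.cons (nat_lit 39) (C.node (nat_lit 0) (nat_lit 1) (nat_lit 6) (C.cons (nat_lit 67) (C.node (nat_lit 0) (nat_lit 1) (nat_lit 7) (C.cons (nat_lit 131) (C.ref (nat_lit 4) (nat_lit 1985229328)) C.nil)) C.nil)) (C.cons (nat_lit 35) (C.node (nat_lit 0) (nat_lit 1) (nat_lit 6) (C.cons (nat_lit 71) (C.node (nat_lit 0) (nat_lit 1) (nat_lit 7) (C.cons (nat_lit 131) (C.ref (nat_lit 4) (nat_lit 1969500688)) C.nil)) (C.cons (nat_lit 67) (C.node (nat_lit 0) (nat_lit 1) (nat_lit 2) (C.cons (nat_lit 135) (C.ref (nat_lit 4) (nat_lit 1702113808)) (C.cons (nat_lit 7) (C.node (nat_lit 0) (nat_lit 1) (nat_lit 7) (C.cons (nat_lit 131) (C.node (nat_lit 0) (nat_lit 2) (nat_lit 5) (C.cons (nat_lit 45) (C.node (nat_lit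 0) (nat_lit 2) (nat_lit 6) (C.cons (nat_lit 69) (C.node (nat_lit 0) (nat_lit 2) (nat_lit 7) C.nil) C.nil)) (C.cons (nat_lit 37) (C.node (nat_lit 0) (nat_lit 3) (nat_lit 5) C.nil) C.nil))) C.nil)) C.nil))) C.nil))) C.nil))) (List.cons (C.node (nat_lit 0) (nat_lit 1) (nat_lit 6) (C.cons (nat_lit 71) (C.node (nat_lit 0) (nat_lit 1) (nat_lit 7) (C.cons (nat_lit 131) (C.node (nat_lit 0) (nat_lit 3) (nat_lit 6) (C.cons (nat_lit 73) (C.node (nat_lit 0) (nat_lit 2) (nat_lit 3) (C.cons (nat_lit 141) (C.ref (nat_lit 3) (nat_lit 1197814288)) C.nil)) C.nil)) C.nil)) (C.cons (nat_lit 67) (C.node (nat_lit 0) (nat_lit 1) (nat_lit 2) (C.cons (nat_lit 135) (C.node (nat_lit 0) (nat_lit 3) (nat_lit 7) (C.cons (nat_lit 137) (C.node (nat_lit 0) (nat_lit 2) (nat_lit 3) (C.cons (nat_lit 77) (C.ref (nat_lit 3) (nat_lit 1182085648)) C.nil)) C.nil)) (C.cons (nat_lit 7) (C.node (nat_lit 0) (nat_lit 1) (nat_lit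 7) C.nil) C.nil))) C.nil))) (List.cons (C.big (C.cons (nat_lit 143) (C.ref (nat_lit 1) (nat_lit 1985229328)) (C.cons (nat_lit 79) (C.ref (nat_lit 1) (nat_lit 1733571088)) (C.cons (nat_lit 47) (C.ref (nat_lit 1) (nat_lit 1466184208)) (C.cons (nat_lit 31) (C.ref (nat_lit 1) (nat_lit 1197814288)) C.nil)))) (C.node (nat_lit 0) (nat_lit 1) (nat_lit 4) (C.cons (nat_lit 27) (C.node (nat_lit 0) (nat_lit 2) (nat_lit 4) (C.cons (nat_lit 21) (C.ref (nat_lit 5) (nat_lit 1985229328)) C.nil)) (C.cons (nat_lit 23) (C.node (nat_lit 0) (nat_lit 3) (nat_lit 4) (C.cons (nat_lit 25) (C.ref (nat_lit 5) (nat_lit 1985225488)) C.nil)) (C.cons (nat_lit 19) (C.node (nat_lit 0) (nat_lit 2) (nat_lit 4) (C.cons (nat_lit 29) (C.ref (nat_lit 5) (nat_lit 1985229088)) (C.cons (nat_lit 21) (C.node (nat_lit 0) (nat_lit 3) (nat_lit 4) (C.cons (nat_lit 25) (C.node (nat_lit 0) (nat_lit 1) (nat_lit 5) (C.cons (nat_lit 43)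 (C.node (nat_lit 0) (nat_lit 2) (nat_lit 5) (C.cons (nat_lit 37) (C.ref (nat_lit 6) (nat_lit 1985229328)) C.nil)) (C.cons (nat_lit 39) (C.node (nat_lit 0) (nat_lit 3) (nat_lit 5) (C.cons (nat_lit 41) (C.ref (nat_lit 6) (nat_lit 1985225488)) C.nil)) (C.cons (nat_lit 35) (C.node (nat_lit 0) (nat_lit 2) (nat_lit 5) (C.cons (nat_lit 45) (C.ref (nat_lit 6) (nat_lit 1985229088)) (C.cons (nat_lit 37) (C.node (nat_lit 0) (nat_lit 3) (nat_lit 5) (C.cons (nat_lit 41) (C.node (nat_lit 0) (nat_lit 1) (nat_lit 6) (C.cons (nat_lit 75) (C.node (nat_lit 0) (nat_lit 2) (nat_lit 6) C.nil) (C.cons (nat_lit 71) (C.node (nat_lit 0) (nat_lit 3) (nat_lit 6) C.nil) C.nil))) C.nil)) C.nil))) C.nil)))) C.nil)) C.nil))) C.nil))))) (List.cons (C.node (nat_lit 1) (nat_lit 2) (nat_lit 3) (C.cons (nat_lit 30) (C.node (nat_lit 1) (nat_lit 2) (nat_lit 5) (C.cons (nat_lit 102) (C.node (nat_lit 1) (nat_lit 3) (nat_lit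 5) (C.cons (nat_lit 170) (C.miq (nat_lit 1885680673) (nat_lit 117268940492177597085909022)) (C.cons (nat_lit 42) (C.node (nat_lit 1) (nat_lit 3) (nat_lit 7) (C.cons (nat_lit 138) (C.node (nat_lit 1) (nat_lit 5) (nat_lit 7) (C.cons (nat_lit 162) (C.node (nat_lit 1) (nat_lit 4) (nat_lit 6) (C.cons (nat_lit 210) (C.miq (nat_lit 1901282848) (nat_lit 50777706834767886097907797)) (C.cons (nat_lit 82)
  (C.node (nat_lit 1) (nat_lit 4) (nat_lit 7) (C.cons (nat_lit 146) (C.node (nat_lit 1) (nat_lit 6) (nat_lit 7) (C.cons (nat_lit 194) (C.node (nat_lit 2) (nat_lit 3) (nat_lit 7) C.nil) C.nil)) C.nil)) C.nil))) C.nil)) C.nil)) C.nil))) (C.cons (nat_lit 38) (C.node (nat_lit 1) (nat_lit 2) (nat_lit 6) (C.cons (nat_lit 70) (C.node (nat_lit 1) (nat_lit 3) (nat_lit 5) (C.cons (nat_lit 170) (C.node (nat_lit 1) (nat_lit 5) (nat_lit 6) (C.cons (nat_lit 98) (C.node (nat_lit 1) (nat_lit 4) (nat_lit 7) (C.cons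 (nat_lit 210) (C.miq (nat_lit 1632782128) (nat_lit 45940749177712649207349401)) (C.cons (nat_lit 146) (C.node (nat_lit 1) (nat_lit 4) (nat_lit 6) (C.cons (nat_lit 82) (C.node (nat_lit 1) (nat_lit 7) (nat_lit 6) (C.cons (nat_lit 194) (C.node (nat_lit 3) (nat_lit 2) (nat_lit 6) C.nil) C.nil)) C.nil)) C.nil))) C.nil)) (C.cons (nat_lit 42) (C.node (nat_lit 1) (nat_lit 3) (nat_lit 7) (C.cons (nat_lit 138) (C.node (nat_lit 1) (nat_lit 4) (nat_lit 6) (C.cons (nat_lit 210) (C.node (nat_lit 1) (nat_lit 5) (nat_lit 6) (C.cons (nat_lit 98) (C.node (nat_lit 1) (nat_lit 7) (nat_lit 5) (C.cons (nat_lit 162) (C.node (nat_lit 4) (nat_lit 2) (nat_lit 5) C.nil) C.nil)) C.nil)) (C.cons (nat_lit 82) (C.node (nat_lit 1) (nat_lit 4) (nat_lit 7) (C.cons (nat_lit 146) (C.node (nat_lit 1) (nat_lit 5) (nat_lit 6) (C.cons (nat_lit 226) (C.node (nat_lit 2) (nat_lit 5) (nat_lit 6) (C.cons (nat_lit 100) (C.node (nat_lit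 2) (nat_lit 3) (nat_lit 6) C.nil) C.nil)) C.nil)) C.nil)) C.nil))) C.nil)) C.nil))) C.nil)) C.nil))) (C.cons (nat_lit 14) (C.node (nat_lit 1) (nat_lit 2) (nat_lit 4) (C.cons (nat_lit 22) (C.node (nat_lit 1) (nat_lit 3) (nat_lit 4) (C.cons (nat_lit 26) (C.node (nat_lit 2) (nat_lit 3) (nat_lit 4) (C.cons (nat_lit 28) (C.node (nat_lit 1) (nat_lit 2) (nat_lit 5) (C.cons (nat_lit 102) (C.node (nat_lit 1) (nat_lit 3) (nat_lit 5) (C.cons (nat_lit 170) (C.node (nat_lit 1) (nat_lit 4) (nat_lit 6) (C.cons (nat_lit 210) (C.node (nat_lit 5) (nat_lit 6) (nat_lit 7) (C.cons (nat_lit 224) (C.node (nat_lit 2) (nat_lit 3) (nat_lit 6) (C.cons (nat_lit 204) (C.node (nat_lit 2) (nat_lit 4) (nat_lit 5) (C.cons (nat_lit 180) (C.node (nat_lit 3) (nat_lit 4) (nat_lit 5) (C.cons (nat_lit 120) (C.gl C.nil) C.nil)) C.nil)) C.nil)) C.nil)) (C.cons (nat_lit 82) (C.miq (nat_lit 1902392608) (nat_lit 99134739608094054020349997))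 C.nil))) (C.cons (nat_lit 42) (C.node (nat_lit 2) (nat_lit 4) (nat_lit 5) (C.cons (nat_lit 180) (C.miq (nat_lit 1930772578) (nat_lit 50778204880813686622912597)) C.nil)) C.nil))) (C.cons (nat_lit 38) (C.node (nat_lit 1) (nat_lit 2) (nat_lit 6) (C.cons (nat_lit 70) (C.node (nat_lit 1) (nat_lit 3) (nat_lit 5) (C.cons (nat_lit 170) (C.node (nat_lit 3) (nat_lit 4) (nat_lit 5) (C.cons (nat_lit 120) (C.miq (nat_lit 1645559923) (nat_lit 45941394778570706637160601)) C.nil)) (C.cons (nat_lit 42) (C.node (nat_lit 1) (nat_lit 3) (nat_lit 7) C.nil) C.nil))) C.nil)) C.nil))) C.nil)) C.nil)) C.nil)) C.nil))) (List.cons (C.qs (C.cons (nat_lit 260) (C.ref (nat_lit 8) (nat_lit 1985229328)) (C.cons (nat_lit 12) (C.ref (nat_lit 8) (nat_lit 1985229328)) (C.cons (nat_lit 130) (C.ref (nat_lit 8) (nat_lit 1985229328)) (C.cons (nat_lit 18) (C.ref (nat_lit 8) (nat_lit 1985229328)) (C.cons (nat_lit 65) (C.ref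 (nat_lit 8) (nat_lit 1985229328)) (C.cons (nat_lit 33) (C.ref (nat_lit 8) (nat_lit 1985229328)) C.nil))))))) (List.cons (C.node (nat_lit 0) (nat_lit 3) (nat_lit 4) (C.cons (nat_lit 153) (C.node (nat_lit 0) (nat_lit 4) (nat_lit 6) (C.cons (nat_lit 81) (C.node (nat_lit 0) (nat_lit 5) (nat_lit 7) (C.cons (nat_lit 225) (C.ref (nat_lit 9) (nat_lit 1680298768)) C.nil)) C.nil)) (C.cons (nat_lit 25) (C.node (nat_lit 0) (nat_lit 3) (nat_lit 7) C.nil) C.nil))) (List.cons (C.node (nat_lit 0) (nat_lit 2) (nat_lit 4) (C.cons (nat_lit 85) (C.node (nat_lit 0) (nat_lit 3) (nat_lit 4) (C.cons (nat_lit 153) (C.node (nat_lit 0) (nat_lit 5) (nat_lit 6) (C.cons (nat_lit 97) (C.node (nat_lit 0) (nat_lit 5) (nat_lit 7) (C.cons (nat_lit 161) (C.node (nat_lit 0) (nat_lit 6) (nat_lit 7)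
  (C.cons (nat_lit 193) (C.ref (nat_lit 9) (nat_lit 1985229328)) C.nil)) C.nil)) C.nil)) (C.cons (nat_lit 25) (C.node (nat_lit 0) (nat_lit 3) (nat_lit 7) (C.cons (nat_lit 137) (C.node (nat_lit 0) (nat_lit 4) (nat_lit 7) (C.cons (nat_lit 145) (C.node (nat_lit 0) (nat_lit 5) (nat_lit 6) (C.cons (nat_lit 225) (C.ref (nat_lit 9) (nat_lit 1949717008)) C.nil)) C.nil)) C.nil)) C.nil))) (C.cons (nat_lit 21) (C.node (nat_lit 0) (nat_lit 2) (nat_lit 6) (C.cons (nat_lit 69) (C.ref (nat_lit 10) (nat_lit 1985229328)) C.nil)) C.nil))) (List.cons (C.node (nat_lit 0) (nat_lit 2) (nat_lit 3) (C.cons (nat_lit 45) (C.node (nat_lit 0) (nat_lit 2) (nat_lit 4) (C.cons (nat_lit 85) (C.ref (nat_lit 10) (nat_lit 1969500448)) (C.cons (nat_lit 21) (C.node (nat_lit 0) (nat_lit 2) (nat_lit 6) C.nil) C.nil))) (C.cons (nat_lit 29) (C.node (nat_lit 0) (nat_lit 2) (nat_lit 5) (C.cons (nat_lit 101) (C.ref (nat_lit 10)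 (nat_lit 1952788768)) (C.cons (nat_lit 37) (C.node (nat_lit 0) (nat_lit 2) (nat_lit 6) C.nil) C.nil))) (C.cons (nat_lit 13) (C.node (nat_lit 0) (nat_lit 2) (nat_lit 4) (C.cons (nat_lit 85) (C.node (nat_lit 0) (nat_lit 2) (nat_lit 5) C.nil) (C.cons (nat_lit 53) (C.node (nat_lit 0) (nat_lit 2) (nat_lit 6) C.nil) C.nil))) C.nil)))) (List.cons (C.node (nat_lit 0) (nat_lit 1) (nat_lit 4) (C.cons (nat_lit 51) (C.node (nat_lit 0) (nat_lit 2) (nat_lit 3) (C.cons (nat_lit 45) (C.ref (nat_lit 11) (nat_lit 1985229328)) (C.cons (nat_lit 29) (C.ref (nat_lit 11) (nat_lit 1984246288)) (C.cons (nat_lit 13) (C.node (nat_lit 0) (nat_lit 2) (nat_lit 4) (C.cons (nat_lit 85) (C.node (nat_lit 0) (nat_lit 2) (nat_lit 5) (C.cons (nat_lit 37) (C.ref (nat_lit 10) (nat_lit 1969439248)) C.nil)) (C.cons (nat_lit 21) (C.node (nat_lit 0) (nat_lit 2) (nat_lit 5) (C.cons (nat_lit 101) (C.ref (nat_lit 10) (nat_lit 1952666128))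 (C.cons (nat_lit 37) (C.node (nat_lit 0) (nat_lit 2) (nat_lit 6) C.nil) C.nil))) C.nil))) C.nil)))) (C.cons (nat_lit 19) (C.node (nat_lit 0) (nat_lit 1) (nat_lit 5) (C.cons (nat_lit 35) (C.ref (nat_lit 12) (nat_lit 1985229328)) C.nil)) C.nil))) (List.cons (C.node (nat_lit 0) (nat_lit 1) (nat_lit 5) (C.cons (nat_lit 99) (C.ref (nat_lit 12) (nat_lit 1984123408)) (C.cons (nat_lit 35) (C.node (nat_lit 0) (nat_lit 1) (nat_lit 6) C.nil) C.nil))) (List.cons (C.node (nat_lit 0) (nat_lit 1) (nat_lit 4) (C.cons (nat_lit 83) (C.node (nat_lit 0) (nat_lit 1) (nat_lit 5) (C.cons (nat_lit 35) (C.ref (nat_lit 12) (nat_lit 1985167888)) C.nil)) (C.cons (nat_lit 51) (C.node (nat_lit 0) (nat_lit 1) (nat_lit 6) (C.cons (nat_lit 67) (C.ref (nat_lit 12) (nat_lit 1969439248)) C.nil)) (C.cons (nat_lit 19) (C.ref (nat_lit 14) (nat_lit 1985229328)) C.nil)))) (List.cons (C.node (nat_lit 0) (nat_lit 1) (nat_lit 3)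 (C.cons (nat_lit 75) (C.ref (nat_lit 13) (nat_lit 1985229328)) (C.cons (nat_lit 43) (C.ref (nat_lit 13) (nat_lit 1969500688)) (C.cons (nat_lit 27) (C.ref (nat_lit 13) (nat_lit 1952789008)) (C.cons (nat_lit 11) (C.ref (nat_lit 15) (nat_lit 1985229328)) C.nil))))) (List.cons (C.big (C.cons (nat_lit 249) (C.ref (nat_lit 0) (nat_lit 1985229328)) (C.cons (nat_lit 245) (C.ref (nat_lit 0) (nat_lit 1985225488)) (C.cons (nat_lit 243) (C.ref (nat_lit 0) (nat_lit 1985221408)) (C.cons (nat_lit 237) (C.ref (nat_lit 0) (nat_lit 1985160208)) (C.cons (nat_lit 235) (C.ref (nat_lit 0) (nat_lit 1985156128)) (C.cons (nat_lit 231) (C.ref (nat_lit 0) (nat_lit 1985090608)) (C.cons (nat_lit 221) (C.ref (nat_lit 0) (nat_lit 1984111888)) (C.cons (nat_lit 219) (C.ref (nat_lit 0) (nat_lit 1984107808)) (C.cons (nat_lit 215) (C.ref (nat_lit 0) (nat_lit 1984042288)) (C.cons (nat_lit 207) (C.ref (nat_lit 0) (nat_lit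 1982993728)) (C.cons (nat_lit 189) (C.ref (nat_lit 0) (nat_lit 1967334928)) (C.cons (nat_lit 187) (C.ref (nat_lit 0) (nat_lit 1967330848)) (C.cons (nat_lit 183) (C.ref (nat_lit 0) (nat_lit 1967265328)) (C.cons (nat_lit 175) (C.ref (nat_lit 0) (nat_lit 1966216768)) (C.cons (nat_lit 159) (C.ref (nat_lit 0) (nat_lit 1949439568)) (C.cons (nat_lit 125) (C.ref (nat_lit 0) (nat_lit 1698899728))
  (C.cons (nat_lit 123) (C.ref (nat_lit 0) (nat_lit 1698895648)) (C.cons (nat_lit 119) (C.ref (nat_lit 0) (nat_lit 1698830128)) (C.cons (nat_lit 111) (C.ref (nat_lit 0) (nat_lit 1697781568)) (C.cons (nat_lit 95) (C.ref (nat_lit 0) (nat_lit 1681004368)) (C.cons (nat_lit 63) (C.ref (nat_lit 0) (nat_lit 1412568928)) C.nil))))))))))))))))))))) (C.big (C.cons (nat_lit 241) (C.ref (nat_lit 7) (nat_lit 1985229328)) (C.cons (nat_lit 233) (C.ref (nat_lit 7) (nat_lit 1985167888)) (C.cons (nat_lit 229) (C.ref (nat_lit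 7) (nat_lit 1985102608)) (C.cons (nat_lit 227) (C.ref (nat_lit 7) (nat_lit 1985037088)) (C.cons (nat_lit 217) (C.ref (nat_lit 7) (nat_lit 1984123408)) (C.cons (nat_lit 213) (C.ref (nat_lit 7) (nat_lit 1984058128)) (C.cons (nat_lit 211) (C.ref (nat_lit 7) (nat_lit 1983992608)) (C.cons (nat_lit 205) (C.ref (nat_lit 7) (nat_lit 1983009808)) (C.cons (nat_lit 203) (C.ref (nat_lit 7) (nat_lit 1982944288)) (C.cons (nat_lit 199) (C.ref (nat_lit 7) (nat_lit 1981895728)) (C.cons (nat_lit 185) (C.ref (nat_lit 7) (nat_lit 1967350288)) (C.cons (nat_lit 181) (C.ref (nat_lit 7) (nat_lit 1967285008)) (C.cons (nat_lit 179) (C.ref (nat_lit 7) (nat_lit 1967219488)) (C.cons (nat_lit 173) (C.ref (nat_lit 7) (nat_lit 1966236688)) (C.cons (nat_lit 171) (C.ref (nat_lit 7) (nat_lit 1966171168)) (C.cons (nat_lit 167) (C.ref (nat_lit 7) (nat_lit 1965122608)) (C.cons (nat_lit 157) (C.ref (nat_lit 7) (nat_lit 1949459728))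 (C.cons (nat_lit 155) (C.ref (nat_lit 7) (nat_lit 1949394208)) (C.cons (nat_lit 151) (C.ref (nat_lit 7) (nat_lit 1948345648)) (C.cons (nat_lit 143) (C.ref (nat_lit 7) (nat_lit 1931568448)) (C.cons (nat_lit 121) (C.ref (nat_lit 7) (nat_lit 1698918928)) (C.cons (nat_lit 117) (C.ref (nat_lit 7) (nat_lit 1698853648)) (C.cons (nat_lit 115) (C.ref (nat_lit 7) (nat_lit 1698788128)) (C.cons (nat_lit 109) (C.ref (nat_lit 7) (nat_lit 1697805328)) (C.cons (nat_lit 107) (C.ref (nat_lit 7) (nat_lit 1697739808)) (C.cons (nat_lit 103) (C.ref (nat_lit 7) (nat_lit 1696691248)) (C.cons (nat_lit 93) (C.ref (nat_lit 7) (nat_lit 1681028368)) (C.cons (nat_lit 91) (C.ref (nat_lit 7) (nat_lit 1680962848)) (C.cons (nat_lit 87) (C.ref (nat_lit 7) (nat_lit 1679914288)) (C.cons (nat_lit 79) (C.ref (nat_lit 7) (nat_lit 1663137088)) (C.cons (nat_lit 61) (C.ref (nat_lit 7) (nat_lit 1412593168)) (C.cons (nat_lit 59)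 (C.ref (nat_lit 7) (nat_lit 1412527648)) (C.cons (nat_lit 55) (C.ref (nat_lit 7) (nat_lit 1411479088)) (C.cons (nat_lit 47) (C.ref (nat_lit 7) (nat_lit 1394701888)) (C.cons (nat_lit 31) (C.ref (nat_lit 7) (nat_lit 1126266448)) C.nil))))))))))))))))))))))))))))))))))) (C.node (nat_lit 0) (nat_lit 1) (nat_lit 2) (C.cons (nat_lit 135) (C.ref (nat_lit 16) (nat_lit 1985229328)) (C.cons (nat_lit 71) (C.ref (nat_lit 16) (nat_lit 1733571088)) (C.cons (nat_lit 39) (C.ref (nat_lit 16) (nat_lit 1466184208)) (C.cons (nat_lit 23) (C.ref (nat_lit 16) (nat_lit 1197814288)) (C.cons (nat_lit 15) (C.ref (nat_lit 16) (nat_lit 929382928)) (C.cons (nat_lit 7) (C.node (nat_lit 0) (nat_lit 1) (nat_lit 3) (C.cons (nat_lit 139) (C.ref (nat_lit 15) (nat_lit 1985225488)) (C.cons (nat_lit 75) (C.ref (nat_lit 15) (nat_lit 1733567248)) (C.cons (nat_lit 43) (C.ref (nat_lit 15) (nat_lit 1466180368)) (C.cons (nat_lit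 27) (C.ref (nat_lit 15) (nat_lit 1197810448)) (C.cons (nat_lit 11) (C.node (nat_lit 0) (nat_lit 1) (nat_lit 4) (C.cons (nat_lit 147) (C.ref (nat_lit 14) (nat_lit 1985160208)) (C.cons (nat_lit 83) (C.ref (nat_lit 14) (nat_lit 1733501968)) (C.cons (nat_lit 51) (C.ref (nat_lit 14) (nat_lit 1466115088)) (C.cons (nat_lit 19) (C.node (nat_lit 0) (nat_lit 1) (nat_lit 5) (C.cons (nat_lit 163) (C.node (nat_lit 0) (nat_lit 1) (nat_lit 6) C.nil) (C.cons (nat_lit 99) (C.node (nat_lit 0) (nat_lit 1) (nat_lit 7) C.nil) C.nil))) C.nil))))) C.nil)))))) C.nil))))))))) List.nil))))))))))))))))))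

theorem ok8_0 : okL par8 (nat_lit 18) c8_0 (nat_lit 0) = true := by decide +kernel


end Pool.Agent.MP_1f1ca1_co
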