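import Pool.Agent.MP_1f1ca1_co.Cert.P9

set_option autoImplicit false
set_option maxRecDepth 1000000
set_option maxHeartbeats 0

namespace Pool.Agent.MP_1f1ca1_co

noncomputable def c9_0 : List C :=
  (List.cons (C.big C.nil (C.node (nat_lit 0) (nat_lit 1) (nat_lit 4) (C.cons (nat_lit 19) (C.node (nat_lit 0) (nat_lit 1) (nat_lit 5) (C.cons (nat_lit 35) (C.node (nat_lit 0) (nat_lit 1) (nat_lit 6) (C.cons (nat_lit 67) (C.node (nat_lit 0) (nat_lit 1) (nat_lit 7) (C.cons (nat_lit 131) (C.node (nat_lit 0) (nat_lit 2) (nat_lit 4) (C.cons (nat_lit 21) (C.node (nat_lit 0) (nat_lit 2) (nat_lit 5) (C.cons (nat_lit 37) (C.node (nat_lit 0) (nat_lit 2) (nat_lit 6) (C.cons (nat_lit 69) (C.node (nat_lit 0) (nat_lit 2) (nat_lit 7) (C.cons (nat_lit 133) (C.node (nat_lit 0) (nat_lit 3) (nat_lit 4) (C.cons (nat_lit 25) (C.node (nat_lit 0) (nat_lit 3) (nat_lit 5) C.nil) C.nil)) C.nil)) C.nil)) C.nil)) C.nil)) C.nil)) C.nil))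 C.nil)) C.nil))) (List.cons (C.qs C.nil) (List.cons (C.node (nat_lit 0) (nat_lit 2) (nat_lit 7) (C.cons (nat_lit 141) (C.node (nat_lit 0) (nat_lit 2) (nat_lit 8) (C.cons (nat_lit 261) (C.node (nat_lit 0) (nat_lit 3) (nat_lit 8) (C.cons (nat_lit 265) (C.ref (nat_lit 1) (nat_lit 36093309456)) C.nil)) C.nil)) (C.cons (nat_lit 133) (C.node (nat_lit 0) (nat_lit 3) (nat_lit 7) (C.cons (nat_lit 137) (C.node (nat_lit 0) (nat_lit 2) (nat_lit 3) (C.cons (nat_lit 269) (C.ref (nat_lit 1) (nat_lit 31815119376)) C.nil)) C.nil)) C.nil))) (List.cons (C.node (nat_lit 0) (nat_lit 3) (nat_lit 5) (C.cons (nat_lit 41) (C.node (nat_lit 0) (nat_lit 2) (nat_lit 6) (C.cons (nat_lit 77) (C.node (nat_lit 0) (nat_lit 2) (nat_lit 7) (C.cons (nat_lit 133) (C.node (nat_lit 0) (nat_lit 2) (nat_lit 8) (C.cons (nat_lit 261) (C.node (nat_lit 0) (nat_lit 3) (nat_lit 7) (C.cons (nat_lit 137) (C.node (nat_lit 0) (nat_lit 3) (nat_lit 8)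 (C.cons (nat_lit 265) (C.ref (nat_lit 1) (nat_lit 36344967696)) C.nil)) C.nil)) C.nil)) C.nil)) (C.cons (nat_lit 69) (C.node (nat_lit 0) (nat_lit 3) (nat_lit 6) (C.cons (nat_lit 73) (C.ref (nat_lit 2) (nat_lit 36344967696)) C.nil)) C.nil))) C.nil)) (List.cons (C.node (nat_lit 0) (nat_lit 1) (nat_lit 5) (C.cons (nat_lit 39) (C.node (nat_lit 0) (nat_lit 1) (nat_lit 6) (C.cons (nat_lit 67) (C.node (nat_lit 0) (nat_lit 1) (nat_lit 7) (C.cons (nat_lit 131) (C.node (nat_lit 0) (nat_lit 1) (nat_lit 8) (C.cons (nat_lit 259) (C.ref (nat_lit 3) (nat_lit 36344967696)) C.nil)) C.nil)) C.nil)) (C.cons (nat_lit 35) (C.node (nat_lit 0) (nat_lit 1) (nat_lit 6) (C.cons (nat_lit 71) (C.node (nat_lit 0) (nat_lit 1) (nat_lit 7) (C.cons (nat_lit 131) (C.node (nat_lit 0) (nat_lit 1) (nat_lit 8) (C.cons (nat_lit 259) (C.ref (nat_lit 3) (nat_lit 36329239056)) C.nil)) C.nil)) (C.cons (nat_lit 67) (C.node (nat_lit 0) (nat_lit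 1) (nat_lit 7) (C.cons (nat_lit 135) (C.node (nat_lit 0) (nat_lit 1) (nat_lit 8) (C.cons (nat_lit 259) (C.ref (nat_lit 3) (nat_lit 36061852176)) C.nil)) (C.cons (nat_lit 131) (C.node (nat_lit 0) (nat_lit 1) (nat_lit 2) (C.cons (nat_lit 263) (C.ref (nat_lit 3) (nat_lit 31767933456)) (C.cons (nat_lit 7) (C.node (nat_lit 0) (nat_lit 1) (nat_lit 8) (C.cons (nat_lit 259) (C.node (nat_lit 0) (nat_lit 2) (nat_lit 5) (C.cons (nat_lit 45) (C.node (nat_lit 0) (nat_lit 2) (nat_lit 6) (C.cons (nat_lit 69) (C.node (nat_lit 0) (nat_lit 2) (nat_lit 7) (C.cons (nat_lit 133) (C.node (nat_lit 0) (nat_lit 2) (nat_lit 8) (C.cons (nat_lit 261) (C.node (nat_lit 0) (nat_lit 3) (nat_lit 6) C.nil) C.nil)) C.nil)) C.nil)) (C.cons (nat_lit 37) (C.node (nat_lit 0) (nat_lit 3) (nat_lit 5) (C.cons (nat_lit 41) (C.node (nat_lit 0) (nat_lit 2) (nat_lit 6) (C.cons (nat_lit 77) (C.node (nat_lit 0) (nat_lit 2) (nat_lit 7) (C.cons (nat_lit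 133) (C.node (nat_lit 0) (nat_lit 2) (nat_lit 8) C.nil) C.nil)) (C.cons (nat_lit 69) (C.node (nat_lit 0) (nat_lit 3) (nat_lit 6) C.nil) C.nil))) C.nil)) C.nil))) C.nil)) C.nil))) C.nil))) C.nil))) C.nil))) (List.cons (C.node (nat_lit 0) (nat_lit 1) (nat_lit 6) (C.cons (nat_lit 71) (C.node (nat_lit 0) (nat_lit 1) (nat_lit 7) (C.cons (nat_lit 131) (C.node (nat_lit 0) (nat_lit 1) (nat_lit 8) (C.cons (nat_lit 259) (C.node (nat_lit 0) (nat_lit 3) (nat_lit 6) (C.cons (nat_lit 73)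
  (C.ref (nat_lit 2) (nat_lit 36312527376)) C.nil)) C.nil)) C.nil)) (C.cons (nat_lit 67) (C.node (nat_lit 0) (nat_lit 1) (nat_lit 7) (C.cons (nat_lit 135) (C.node (nat_lit 0) (nat_lit 1) (nat_lit 8) (C.cons (nat_lit 259) (C.node (nat_lit 0) (nat_lit 3) (nat_lit 7) (C.cons (nat_lit 137) (C.ref (nat_lit 2) (nat_lit 36045140496)) C.nil)) C.nil)) (C.cons (nat_lit 131) (C.node (nat_lit 0) (nat_lit 1) (nat_lit 2) (C.cons (nat_lit 263) (C.node (nat_lit 0) (nat_lit 3) (nat_lit 8) (C.cons (nat_lit 265) (C.ref (nat_lit 2) (nat_lit 31751221776)) C.nil)) (C.cons (nat_lit 7) (C.node (nat_lit 0) (nat_lit 1) (nat_lit 8) (C.cons (nat_lit 259) (C.node (nat_lit 0) (nat_lit 2) (nat_lit 6) (C.cons (nat_lit 77) (C.node (nat_lit 0) (nat_lit 2) (nat_lit 7) (C.cons (nat_lit 133) (C.node (nat_lit 0) (nat_lit 2) (nat_lit 8) C.nil) C.nil)) (C.cons (nat_lit 69) (C.node (nat_lit 0) (nat_lit 3) (nat_lit 6) C.nil) C.nil))) C.nil))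 C.nil))) C.nil))) C.nil))) (List.cons (C.node (nat_lit 0) (nat_lit 1) (nat_lit 7) (C.cons (nat_lit 135) (C.node (nat_lit 0) (nat_lit 1) (nat_lit 8) (C.cons (nat_lit 259) (C.node (nat_lit 0) (nat_lit 3) (nat_lit 7) (C.cons (nat_lit 137) (C.node (nat_lit 0) (nat_lit 2) (nat_lit 3) (C.cons (nat_lit 269) (C.ref (nat_lit 1) (nat_lit 22690542096)) C.nil)) C.nil)) C.nil)) (C.cons (nat_lit 131) (C.node (nat_lit 0) (nat_lit 1) (nat_lit 2) (C.cons (nat_lit 263) (C.node (nat_lit 0) (nat_lit 3) (nat_lit 8) (C.cons (nat_lit 265) (C.node (nat_lit 0) (nat_lit 2) (nat_lit 3) (C.cons (nat_lit 141) (C.ref (nat_lit 1) (nat_lit 22674813456)) C.nil)) C.nil)) (C.cons (nat_lit 7) (C.node (nat_lit 0) (nat_lit 1) (nat_lit 8) C.nil) C.nil))) C.nil))) (List.cons (C.big C.nil (C.big (C.cons (nat_lit 271) (C.ref (nat_lit 0) (nat_lit 36344967696)) (C.cons (nat_lit 143) (C.ref (nat_lit 0) (nat_lit 32318435856)) (C.cons (nat_lit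 79) (C.ref (nat_lit 0) (nat_lit 28040245776)) (C.cons (nat_lit 47) (C.ref (nat_lit 0) (nat_lit 23746327056)) (C.cons (nat_lit 31) (C.ref (nat_lit 0) (nat_lit 19451425296)) C.nil))))) (C.node (nat_lit 0) (nat_lit 1) (nat_lit 4) (C.cons (nat_lit 27) (C.node (nat_lit 0) (nat_lit 2) (nat_lit 4) (C.cons (nat_lit 21) (C.ref (nat_lit 4) (nat_lit 36344967696)) C.nil)) (C.cons (nat_lit 23) (C.node (nat_lit 0) (nat_lit 3) (nat_lit 4) (C.cons (nat_lit 25) (C.ref (nat_lit 4) (nat_lit 36344963856)) C.nil)) (C.cons (nat_lit 19) (C.node (nat_lit 0) (nat_lit 2) (nat_lit 4) (C.cons (nat_lit 29) (C.ref (nat_lit 4) (nat_lit 36344967456)) (C.cons (nat_lit 21) (C.node (nat_lit 0) (nat_lit 3) (nat_lit 4) (C.cons (nat_lit 25) (C.node (nat_lit 0) (nat_lit 1) (nat_lit 5) (C.cons (nat_lit 43) (C.node (nat_lit 0) (nat_lit 2) (nat_lit 5) (C.cons (nat_lit 37) (C.ref (nat_lit 5) (nat_lit 36344967696)) C.nil)) (C.cons (nat_lit 39)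 (C.node (nat_lit 0) (nat_lit 3) (nat_lit 5) (C.cons (nat_lit 41) (C.ref (nat_lit 5) (nat_lit 36344963856)) C.nil)) (C.cons (nat_lit 35) (C.node (nat_lit 0) (nat_lit 2) (nat_lit 5) (C.cons (nat_lit 45) (C.ref (nat_lit 5) (nat_lit 36344967456)) (C.cons (nat_lit 37) (C.node (nat_lit 0) (nat_lit 3) (nat_lit 5) (C.cons (nat_lit 41) (C.node (nat_lit 0) (nat_lit 1) (nat_lit 6) (C.cons (nat_lit 75) (C.node (nat_lit 0) (nat_lit 2) (nat_lit 6) (C.cons (nat_lit 69) (C.ref (nat_lit 6) (nat_lit 36344967696)) C.nil)) (C.cons (nat_lit 71) (C.node (nat_lit 0) (nat_lit 3) (nat_lit 6) (C.cons (nat_lit 73) (C.ref (nat_lit 6) (nat_lit 36344963856)) C.nil)) (C.cons (nat_lit 67) (C.node (nat_lit 0) (nat_lit 2) (nat_lit 6) (C.cons (nat_lit 77) (C.ref (nat_lit 6) (nat_lit 36344967456)) (C.cons (nat_lit 69) (C.node (nat_lit 0) (nat_lit 3) (nat_lit 6) (C.cons (nat_lit 73) (C.node (nat_lit 0) (nat_lit 1) (nat_lit 7) (C.cons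 (nat_lit 139) (C.node (nat_lit 0) (nat_lit 2) (nat_lit 7) C.nil) (C.cons (nat_lit 135) (C.node (nat_lit 0) (nat_lit 3) (nat_lit 7) C.nil) C.nil))) C.nil)) C.nil))) C.nil)))) C.nil)) C.nil))) C.nil)))) C.nil)) C.nil))) C.nil)))))) (List.cons (C.node (nat_lit 1) (nat_lit 3) (nat_lit 5) (C.cons (nat_lit 170)
  (C.node (nat_lit 1) (nat_lit 3) (nat_lit 8) (C.cons (nat_lit 266) (C.node (nat_lit 3) (nat_lit 7) (nat_lit 8) (C.cons (nat_lit 392) (C.node (nat_lit 1) (nat_lit 7) (nat_lit 6) (C.cons (nat_lit 198) (C.node (nat_lit 1) (nat_lit 2) (nat_lit 8) C.nil) C.nil)) C.nil)) C.nil)) (C.cons (nat_lit 42) (C.node (nat_lit 1) (nat_lit 5) (nat_lit 7) (C.cons (nat_lit 162) (C.node (nat_lit 1) (nat_lit 3) (nat_lit 7) (C.cons (nat_lit 394) (C.node (nat_lit 2) (nat_lit 7) (nat_lit 8) (C.cons (nat_lit 388) (C.node (nat_lit 1) (nat_lit 2) (nat_lit 7) (C.cons (nat_lit 198) (C.node (nat_lit 1) (nat_lit 2) (nat_lit 8)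 (C.cons (nat_lit 262) (C.node (nat_lit 2) (nat_lit 6) (nat_lit 8) C.nil) C.nil)) (C.cons (nat_lit 134) (C.node (nat_lit 1) (nat_lit 6) (nat_lit 7) (C.cons (nat_lit 194) (C.node (nat_lit 1) (nat_lit 2) (nat_lit 6) (C.cons (nat_lit 326) (C.node (nat_lit 2) (nat_lit 3) (nat_lit 5) (C.cons (nat_lit 172) (C.node (nat_lit 2) (nat_lit 3) (nat_lit 6) C.nil) (C.cons (nat_lit 108) (C.node (nat_lit 2) (nat_lit 3) (nat_lit 7) C.nil) C.nil))) C.nil)) C.nil)) C.nil))) C.nil)) (C.cons (nat_lit 138) (C.node (nat_lit 1) (nat_lit 3) (nat_lit 8) (C.cons (nat_lit 266) (C.node (nat_lit 3) (nat_lit 7) (nat_lit 8) (C.cons (nat_lit 392) (C.node (nat_lit 1) (nat_lit 6) (nat_lit 7) C.nil) C.nil)) C.nil)) C.nil))) C.nil)) C.nil))) (List.cons (C.node (nat_lit 2) (nat_lit 5) (nat_lit 8) (C.cons (nat_lit 292) (C.node (nat_lit 3) (nat_lit 6) (nat_lit 8) (C.cons (nat_lit 328) (C.node (nat_lit 4) (nat_lit 7) (nat_lit 8) (C.cons (nat_lit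 400) (C.node (nat_lit 1) (nat_lit 2) (nat_lit 3) (C.cons (nat_lit 142) (C.node (nat_lit 1) (nat_lit 5) (nat_lit 7) (C.cons (nat_lit 162) (C.node (nat_lit 1) (nat_lit 6) (nat_lit 7) (C.cons (nat_lit 194) (C.node (nat_lit 1) (nat_lit 7) (nat_lit 8) (C.cons (nat_lit 386) (C.node (nat_lit 2) (nat_lit 7) (nat_lit 8) (C.cons (nat_lit 388) (C.node (nat_lit 3) (nat_lit 7) (nat_lit 8) (C.cons (nat_lit 392) (C.node (nat_lit 1) (nat_lit 2) (nat_lit 4) (C.cons (nat_lit 86) (C.node (nat_lit 1) (nat_lit 2) (nat_lit 8) (C.cons (nat_lit 262) (C.node (nat_lit 1) (nat_lit 5) (nat_lit 6) (C.cons (nat_lit 98) (C.node (nat_lit 1) (nat_lit 6) (nat_lit 8) (C.cons (nat_lit 322) (C.node (nat_lit 2) (nat_lit 6) (nat_lit 7) (C.cons (nat_lit 196) (C.node (nat_lit 2) (nat_lit 6) (nat_lit 8) (C.cons (nat_lit 324) (C.node (nat_lit 4) (nat_lit 6) (nat_lit 8) C.nil) C.nil)) C.nil)) C.nil)) C.nil)) C.nil)) (C.cons (nat_lit 22) (C.node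 (nat_lit 1) (nat_lit 2) (nat_lit 6) (C.cons (nat_lit 326) (C.node (nat_lit 4) (nat_lit 6) (nat_lit 8) (C.cons (nat_lit 336) (C.node (nat_lit 2) (nat_lit 5) (nat_lit 7) (C.cons (nat_lit 164) (C.node (nat_lit 2) (nat_lit 4) (nat_lit 7) (C.cons (nat_lit 148) (C.node (nat_lit 2) (nat_lit 6) (nat_lit 7) C.nil) C.nil)) C.nil)) C.nil)) (C.cons (nat_lit 70) (C.node (nat_lit 1) (nat_lit 2) (nat_lit 8) (C.cons (nat_lit 262) (C.node (nat_lit 2) (nat_lit 6) (nat_lit 8) (C.cons (nat_lit 324) (C.node (nat_lit 1) (nat_lit 3) (nat_lit 4) (C.cons (nat_lit 58) (C.node (nat_lit 1) (nat_lit 3) (nat_lit 8) C.nil) C.nil)) C.nil)) C.nil)) C.nil))) C.nil))) C.nil)) C.nil)) C.nil)) C.nil)) C.nil)) (C.cons (nat_lit 14) (C.node (nat_lit 1) (nat_lit 2) (nat_lit 4) (C.cons (nat_lit 86) (C.node (nat_lit 1) (nat_lit 5) (nat_lit 6) (C.cons (nat_lit 98) (C.node (nat_lit 1) (nat_lit 6) (nat_lit 7) (C.cons (nat_lit 194) (C.node (nat_lit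 1) (nat_lit 6) (nat_lit 8) (C.cons (nat_lit 322) (C.node (nat_lit 2) (nat_lit 6) (nat_lit 8) (C.cons (nat_lit 324) (C.node (nat_lit 4) (nat_lit 6) (nat_lit 8) (C.cons (nat_lit 336) (C.node (nat_lit 1) (nat_lit 2) (nat_lit 7) (C.cons (nat_lit 390) (C.node (nat_lit 3) (nat_lit 7) (nat_lit 8) (C.cons (nat_lit 392) (C.node (nat_lit 2) (nat_lit 5) (nat_lit 6) (C.cons (nat_lit 100) (C.node (nat_lit 2) (nat_lit 3) (nat_lit 6) (C.cons (nat_lit 76) (C.node (nat_lit 2) (nat_lit 7) (nat_lit 6) C.nil) C.nil)) C.nil)) C.nil)) (C.cons (nat_lit 134) (C.node (nat_lit 1) (nat_lit 2) (nat_lit 8) (C.cons (nat_lit 262)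
  (C.node (nat_lit 2) (nat_lit 7) (nat_lit 8) (C.cons (nat_lit 388) (C.node (nat_lit 1) (nat_lit 4) (nat_lit 3) (C.cons (nat_lit 58) (C.node (nat_lit 1) (nat_lit 4) (nat_lit 8) C.nil) C.nil)) C.nil)) C.nil)) C.nil))) C.nil)) C.nil)) C.nil)) C.nil)) C.nil)) (C.cons (nat_lit 22) (C.node (nat_lit 1) (nat_lit 3) (nat_lit 4) (C.cons (nat_lit 58) (C.node (nat_lit 1) (nat_lit 5) (nat_lit 6) (C.cons (nat_lit 98) (C.node (nat_lit 1) (nat_lit 5) (nat_lit 7) (C.cons (nat_lit 162) (C.node (nat_lit 1) (nat_lit 5) (nat_lit 8) (C.cons (nat_lit 290) (C.node (nat_lit 3) (nat_lit 5) (nat_lit 8) (C.cons (nat_lit 296) (C.node (nat_lit 4) (nat_lit 5) (nat_lit 8) (C.cons (nat_lit 304) (C.node (nat_lit 1) (nat_lit 3) (nat_lit 7) (C.cons (nat_lit 394) (C.node (nat_lit 2) (nat_lit 7) (nat_lit 8) (C.cons (nat_lit 388) (C.node (nat_lit 3) (nat_lit 5) (nat_lit 6) (C.cons (nat_lit 104) (C.node (nat_lit 2) (nat_lit 3) (nat_lit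 5) (C.cons (nat_lit 44) (C.node (nat_lit 3) (nat_lit 5) (nat_lit 7) C.nil) C.nil)) C.nil)) C.nil)) (C.cons (nat_lit 138) (C.node (nat_lit 1) (nat_lit 3) (nat_lit 8) (C.cons (nat_lit 266) (C.node (nat_lit 3) (nat_lit 7) (nat_lit 8) C.nil) C.nil)) C.nil))) C.nil)) C.nil)) C.nil)) C.nil)) C.nil)) (C.cons (nat_lit 26) (C.node (nat_lit 1) (nat_lit 5) (nat_lit 6) (C.cons (nat_lit 114) (C.node (nat_lit 1) (nat_lit 4) (nat_lit 8) (C.cons (nat_lit 274) (C.node (nat_lit 4) (nat_lit 5) (nat_lit 8) (C.cons (nat_lit 304) (C.node (nat_lit 4) (nat_lit 6) (nat_lit 8) (C.cons (nat_lit 336) (C.node (nat_lit 1) (nat_lit 5) (nat_lit 7) (C.cons (nat_lit 170) (C.node (nat_lit 1) (nat_lit 3) (nat_lit 8) (C.cons (nat_lit 266) (C.node (nat_lit 1) (nat_lit 5) (nat_lit 8) (C.cons (nat_lit 290) (C.node (nat_lit 5) (nat_lit 3) (nat_lit 4) (C.cons (nat_lit 56) (C.node (nat_lit 5) (nat_lit 3) (nat_lit 8) (C.cons (nat_lit 296) (C.node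 (nat_lit 7) (nat_lit 3) (nat_lit 8) C.nil) C.nil)) C.nil)) C.nil)) C.nil)) (C.cons (nat_lit 162) (C.node (nat_lit 1) (nat_lit 3) (nat_lit 5) (C.cons (nat_lit 298) (C.node (nat_lit 1) (nat_lit 3) (nat_lit 7) (C.cons (nat_lit 138) (C.node (nat_lit 3) (nat_lit 7) (nat_lit 8) (C.cons (nat_lit 392) (C.node (nat_lit 1) (nat_lit 6) (nat_lit 7) (C.cons (nat_lit 198) (C.node (nat_lit 1) (nat_lit 2) (nat_lit 8) C.nil) C.nil)) C.nil)) C.nil)) (C.cons (nat_lit 42) (C.node (nat_lit 1) (nat_lit 5) (nat_lit 8) (C.cons (nat_lit 290) (C.node (nat_lit 3) (nat_lit 5) (nat_lit 8) C.nil) C.nil)) C.nil))) C.nil))) C.nil)) C.nil)) C.nil)) (C.cons (nat_lit 98) (C.node (nat_lit 1) (nat_lit 4) (nat_lit 5) (C.cons (nat_lit 306) (C.node (nat_lit 1) (nat_lit 4) (nat_lit 6) (C.cons (nat_lit 82) (C.node (nat_lit 3) (nat_lit 5) (nat_lit 8) (C.cons (nat_lit 296) (C.node (nat_lit 4) (nat_lit 6) (nat_lit 8) (C.cons (nat_lit 336) (C.ref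 (nat_lit 8) (nat_lit 36344967696)) C.nil)) C.nil)) C.nil)) (C.cons (nat_lit 50) (C.node (nat_lit 4) (nat_lit 5) (nat_lit 8) (C.cons (nat_lit 304) (C.node (nat_lit 1) (nat_lit 4) (nat_lit 6) (C.cons (nat_lit 338) (C.node (nat_lit 2) (nat_lit 6) (nat_lit 8) (C.cons (nat_lit 324) (C.ref (nat_lit 8) (nat_lit 36329235216)) C.nil)) (C.cons (nat_lit 82) (C.node (nat_lit 1) (nat_lit 4) (nat_lit 8) (C.cons (nat_lit 274) (C.node (nat_lit 4) (nat_lit 6) (nat_lit 8) (C.cons (nat_lit 336) (C.node (nat_lit 1) (nat_lit 5) (nat_lit 7) (C.cons (nat_lit 170) (C.node (nat_lit 1) (nat_lit 3) (nat_lit 8) (C.cons (nat_lit 266) (C.node (nat_lit 1) (nat_lit 5) (nat_lit 8) (C.cons (nat_lit 290) (C.node (nat_lit 3) (nat_lit 5) (nat_lit 8) C.nil) C.nil)) C.nil)) (C.cons (nat_lit 162) (C.node (nat_lit 1) (nat_lit 3) (nat_lit 5) (C.cons (nat_lit 298) (C.node (nat_lit 1) (nat_lit 3) (nat_lit 7) (C.cons (nat_lit 138) (C.node (nat_lit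 3) (nat_lit 7) (nat_lit 8) (C.cons (nat_lit 392) (C.node (nat_lit 1) (nat_lit 7) (nat_lit 6) C.nil) C.nil)) C.nil)) (C.cons (nat_lit 42) (C.node (nat_lit 1) (nat_lit 5) (nat_lit 8) C.nil) C.nil))) C.nil))) C.nil)) C.nil)) C.nil))) C.nil)) C.nil))) C.nil))) C.nil))) C.nil))) C.nil))) C.nil)) C.nil)) C.nil)) (List.cons
  (C.node (nat_lit 0) (nat_lit 4) (nat_lit 6) (C.cons (nat_lit 81) (C.node (nat_lit 0) (nat_lit 1) (nat_lit 4) (C.cons (nat_lit 147) (C.qs (C.cons (nat_lit 672) (C.pat (nat_lit 0) (nat_lit 159790369) (nat_lit 38108795736592656144857526108199)) (C.cons (nat_lit 608) (C.ref (nat_lit 9) (nat_lit 36344967696)) (C.cons (nat_lit 656) (C.ref (nat_lit 9) (nat_lit 36344967696)) (C.cons (nat_lit 592) (C.pat (nat_lit 0) (nat_lit 159860001) (nat_lit 38108805409179804682608339779623)) (C.cons (nat_lit 88) (C.ref (nat_lit 9) (nat_lit 36344967696)) (C.cons (nat_lit 644) (C.ref (nat_lit 9) (nat_lit 36344967696))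 (C.cons (nat_lit 532) (C.ref (nat_lit 9) (nat_lit 36344967696)) (C.cons (nat_lit 148) (C.pat (nat_lit 1) (nat_lit 2539865377) (nat_lit 763278492553554455989212016702980577)) (C.cons (nat_lit 660) (C.pat (nat_lit 1) (nat_lit 2539865377) (nat_lit 763278492553554455989212016702980577)) (C.cons (nat_lit 578) (C.ref (nat_lit 9) (nat_lit 36344967696)) (C.cons (nat_lit 546) (C.ref (nat_lit 9) (nat_lit 36344967696)) (C.cons (nat_lit 98) (C.pat (nat_lit 1) (nat_lit 2524198177) (nat_lit 389428682048988579388426151949828577)) (C.cons (nat_lit 610) (C.pat (nat_lit 1) (nat_lit 2524198177) (nat_lit 389428682048988579388426151949828577)) (C.cons (nat_lit 518) (C.pat (nat_lit 0) (nat_lit 159860273) (nat_lit 38108844094879819327036768583755)) (C.cons (nat_lit 262) (C.ref (nat_lit 9) (nat_lit 36344967696)) (C.cons (nat_lit 161) (C.ref (nat_lit 9) (nat_lit 36344967696)) C.nil))))))))))))))))) C.nil)) C.nil)) (List.cons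 (C.node (nat_lit 0) (nat_lit 3) (nat_lit 5) (C.cons (nat_lit 41) (C.node (nat_lit 0) (nat_lit 4) (nat_lit 5) (C.cons (nat_lit 49) (C.node (nat_lit 0) (nat_lit 3) (nat_lit 6) (C.cons (nat_lit 75) (C.node (nat_lit 0) (nat_lit 3) (nat_lit 7) (C.cons (nat_lit 137) (C.ref (nat_lit 10) (nat_lit 36344967696)) C.nil)) (C.cons (nat_lit 73) (C.node (nat_lit 0) (nat_lit 1) (nat_lit 3) (C.cons (nat_lit 139) (C.ref (nat_lit 10) (nat_lit 36093309456)) (C.cons (nat_lit 11) (C.node (nat_lit 0) (nat_lit 3) (nat_lit 7) C.nil) C.nil))) C.nil))) C.nil)) C.nil)) (List.cons (C.big C.nil (C.node (nat_lit 0) (nat_lit 1) (nat_lit 8) (C.cons (nat_lit 259) (C.node (nat_lit 0) (nat_lit 2) (nat_lit 5) (C.cons (nat_lit 39) (C.node (nat_lit 0) (nat_lit 2) (nat_lit 6) (C.cons (nat_lit 69) (C.node (nat_lit 0) (nat_lit 2) (nat_lit 7) (C.cons (nat_lit 133) (C.ref (nat_lit 11) (nat_lit 36344967696)) C.nil)) C.nil)) (C.cons (nat_lit 37)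 (C.node (nat_lit 0) (nat_lit 2) (nat_lit 6) (C.cons (nat_lit 71) (C.node (nat_lit 0) (nat_lit 2) (nat_lit 7) (C.cons (nat_lit 133) (C.ref (nat_lit 11) (nat_lit 36329239056)) C.nil)) (C.cons (nat_lit 69) (C.node (nat_lit 0) (nat_lit 1) (nat_lit 2) (C.cons (nat_lit 135) (C.ref (nat_lit 11) (nat_lit 36061852176)) (C.cons (nat_lit 7) (C.node (nat_lit 0) (nat_lit 2) (nat_lit 7) (C.cons (nat_lit 133) (C.node (nat_lit 0) (nat_lit 3) (nat_lit 5) (C.cons (nat_lit 43) (C.node (nat_lit 0) (nat_lit 3) (nat_lit 6) (C.cons (nat_lit 73) (C.node (nat_lit 0) (nat_lit 3) (nat_lit 7) (C.cons (nat_lit 137) (C.node (nat_lit 0) (nat_lit 4) (nat_lit 5) C.nil) C.nil)) C.nil)) (C.cons (nat_lit 41) (C.node (nat_lit 0) (nat_lit 1) (nat_lit 5) (C.cons (nat_lit 51) (C.node (nat_lit 0) (nat_lit 4) (nat_lit 6) (C.cons (nat_lit 81) (C.node (nat_lit 0) (nat_lit 4) (nat_lit 7) C.nil) C.nil)) (C.cons (nat_lit 35) (C.node (nat_lit 0)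 (nat_lit 4) (nat_lit 5) C.nil) C.nil))) C.nil))) C.nil)) C.nil))) C.nil))) C.nil))) C.nil))) (List.cons (C.node (nat_lit 3) (nat_lit 5) (nat_lit 8) (C.cons (nat_lit 296) (C.node (nat_lit 4) (nat_lit 5) (nat_lit 8) (C.cons (nat_lit 304) (C.node (nat_lit 1) (nat_lit 2) (nat_lit 3) (C.cons (nat_lit 30) (C.node (nat_lit 1) (nat_lit 3) (nat_lit 8) (C.cons (nat_lit 394) (C.miq (nat_lit 1748240146) (nat_lit 339709723420348219421229191)) (C.cons (nat_lit 266) (C.node (nat_lit 1) (nat_lit 6) (nat_lit 8) (C.cons (nat_lit 338) (C.miq (nat_lit 629420129) (nat_lit 367514002577837920250626123)) (C.cons (nat_lit 322) (C.node (nat_lit 4) (nat_lit 6) (nat_lit 8)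
  (C.cons (nat_lit 336) (C.node (nat_lit 1) (nat_lit 4) (nat_lit 8) (C.cons (nat_lit 402) (C.miq (nat_lit 1480787730) (nat_lit 339708985550585305398902919)) (C.cons (nat_lit 274) (C.node (nat_lit 1) (nat_lit 7) (nat_lit 8) (C.cons (nat_lit 386) (C.node (nat_lit 2) (nat_lit 4) (nat_lit 8) (C.cons (nat_lit 404) (C.miq (nat_lit 1749223201) (nat_lit 339709538952907525275385991)) (C.cons (nat_lit 276) (C.node (nat_lit 4) (nat_lit 7) (nat_lit 8) (C.cons (nat_lit 400) (C.node (nat_lit 1) (nat_lit 3) (nat_lit 5) (C.cons (nat_lit 170) (C.node (nat_lit 1) (nat_lit 4) (nat_lit 6) (C.cons (nat_lit 210) (C.node (nat_lit 2) (nat_lit 6) (nat_lit 7) C.nil) C.nil)) C.nil)) C.nil)) C.nil))) C.nil)) C.nil))) C.nil)) C.nil))) C.nil))) (C.cons (nat_lit 14) (C.node (nat_lit 1) (nat_lit 2) (nat_lit 4) (C.cons (nat_lit 22) (C.node (nat_lit 1) (nat_lit 3) (nat_lit 4) (C.cons (nat_lit 154) (C.node (nat_lit 1) (nat_lit 3) (nat_lit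 5) (C.cons (nat_lit 42) (C.node (nat_lit 1) (nat_lit 3) (nat_lit 8) (C.cons (nat_lit 266) (C.node (nat_lit 1) (nat_lit 5) (nat_lit 7) (C.cons (nat_lit 162) (C.node (nat_lit 1) (nat_lit 6) (nat_lit 7) (C.cons (nat_lit 194) (C.node (nat_lit 1) (nat_lit 7) (nat_lit 8) (C.cons (nat_lit 386) (C.node (nat_lit 2) (nat_lit 3) (nat_lit 4) (C.cons (nat_lit 28) (C.node (nat_lit 3) (nat_lit 5) (nat_lit 7) (C.cons (nat_lit 168) (C.node (nat_lit 4) (nat_lit 6) (nat_lit 7) (C.cons (nat_lit 208) (C.node (nat_lit 2) (nat_lit 4) (nat_lit 5) C.nil) C.nil)) C.nil)) C.nil)) C.nil)) C.nil)) C.nil)) C.nil)) C.nil)) (C.cons (nat_lit 26) (C.node (nat_lit 1) (nat_lit 3) (nat_lit 5) (C.cons (nat_lit 170) (C.node (nat_lit 1) (nat_lit 3) (nat_lit 8) (C.cons (nat_lit 266) (C.node (nat_lit 1) (nat_lit 6) (nat_lit 7) (C.cons (nat_lit 210) (C.miq (nat_lit 1093822288) (nat_lit 16926529506961549014401505)) (C.cons (nat_lit 194) (C.node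 (nat_lit 2) (nat_lit 4) (nat_lit 5) (C.cons (nat_lit 180) (C.miq (nat_lit 1175920693) (nat_lit 234534929443097022766383149)) (C.cons (nat_lit 52) (C.node (nat_lit 2) (nat_lit 5) (nat_lit 7) (C.cons (nat_lit 164) (C.node (nat_lit 4) (nat_lit 5) (nat_lit 7) (C.cons (nat_lit 176) (C.node (nat_lit 2) (nat_lit 6) (nat_lit 7) (C.cons (nat_lit 204) (C.miq (nat_lit 588539728) (nat_lit 31433639340648249251004897)) (C.cons (nat_lit 196) (C.node (nat_lit 3) (nat_lit 4) (nat_lit 5) C.nil) C.nil))) C.nil)) C.nil)) C.nil))) C.nil))) C.nil)) (C.cons (nat_lit 42) (C.node (nat_lit 1) (nat_lit 5) (nat_lit 7) (C.cons (nat_lit 162) (C.node (nat_lit 1) (nat_lit 3) (nat_lit 7) (C.cons (nat_lit 394) (C.node (nat_lit 2) (nat_lit 4) (nat_lit 8) (C.cons (nat_lit 404) (C.miq (nat_lit 1686307441) (nat_lit 339709538841443434521821319)) (C.cons (nat_lit 276) (C.node (nat_lit 2) (nat_lit 7) (nat_lit 8) (C.cons (nat_lit 388) (C.node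 (nat_lit 4) (nat_lit 7) (nat_lit 8) (C.cons (nat_lit 400) (C.node (nat_lit 2) (nat_lit 3) (nat_lit 8) (C.cons (nat_lit 332) (C.node (nat_lit 2) (nat_lit 6) (nat_lit 7) C.nil) C.nil)) C.nil)) C.nil)) C.nil))) (C.cons (nat_lit 138) (C.node (nat_lit 1) (nat_lit 3) (nat_lit 8) (C.cons (nat_lit 266) (C.node (nat_lit 1) (nat_lit 6) (nat_lit 7) (C.cons (nat_lit 210) (C.node (nat_lit 1) (nat_lit 4) (nat_lit 8) (C.cons (nat_lit 274) (C.node (nat_lit 1) (nat_lit 6) (nat_lit 8) (C.cons (nat_lit 322) (C.node (nat_lit 4) (nat_lit 6) (nat_lit 8) C.nil) C.nil)) C.nil)) (C.cons (nat_lit 194) (C.node (nat_lit 2) (nat_lit 3) (nat_lit 4) (C.cons (nat_lit 28) (C.node (nat_lit 2) (nat_lit 4) (nat_lit 5) (C.cons (nat_lit 52) (C.node (nat_lit 2) (nat_lit 5) (nat_lit 7) C.nil) C.nil)) C.nil)) C.nil))) C.nil)) C.nil))) C.nil)) C.nil))) C.nil))) C.nil)) C.nil))) C.nil)) C.nil)) List.nil))))))))))))))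

theorem ok9_0 : okL par9 (nat_lit 14) c9_0 (nat_lit 0) = true := by decide +kernel

noncomputable def c9_14 : List C :=
  (List.cons (C.node (nat_lit 1) (nat_lit 5) (nat_lit 6) (C.cons (nat_lit 102) (C.node (nat_lit 1) (nat_lit 5) (nat_lit 7) (C.cons (nat_lit 170) (C.node (nat_lit 1) (nat_lit 5) (nat_lit 8) (C.cons (nat_lit 290) (C.node (nat_lit 3) (nat_lit 5) (nat_lit 8) (C.cons (nat_lit 296) (C.node (nat_lit 1) (nat_lit 3) (nat_lit 4) (C.cons (nat_lit 30) (C.miq (nat_lit 2232616484) (nat_lit 205522573004961573970509909)) (C.cons (nat_lit 26) (C.node (nat_lit 1) (nat_lit 6) (nat_lit 7) (C.cons (nat_lit 210) (C.miq (nat_lit 605226613) (nat_lit 31432901437389950446862817)) (C.cons (nat_lit 194) (C.node (nat_lit 1) (nat_lit 4) (nat_lit 6) (C.cons (nat_lit 338) (C.miq (nat_lit 591483014) (nat_lit 31433952890543457776566753)) (C.cons (nat_lit 82) (C.node (nat_lit 1) (nat_lit 6) (nat_lit 8) (C.cons (nat_lit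 322) (C.node (nat_lit 4) (nat_lit 6) (nat_lit 8) (C.cons (nat_lit 336) (C.node (nat_lit 2) (nat_lit 5) (nat_lit 7) (C.cons (nat_lit 180) (C.miq (nat_lit 1175920693) (nat_lit 234534929443097022766383149)) (C.cons (nat_lit 164) (C.node (nat_lit 4) (nat_lit 5) (nat_lit 7) (C.cons (nat_lit 176) (C.node (nat_lit 2) (nat_lit 4) (nat_lit 5) (C.cons (nat_lit 308) (C.miq (nat_lit 557078024) (nat_lit 31437752935865830849708513)) (C.cons (nat_lit 52) (C.node (nat_lit 2) (nat_lit 5) (nat_lit 8) (C.cons (nat_lit 292) (C.node (nat_lit 4) (nat_lit 5) (nat_lit 8) (C.cons (nat_lit 304) (C.node (nat_lit 2) (nat_lit 6) (nat_lit 7) (C.cons (nat_lit 204) (C.miq (nat_lit 588539728) (nat_lit 31433639340648249251004897)) (C.cons (nat_lit 196) (C.node (nat_lit 2) (nat_lit 3) (nat_lit 6) (C.cons (nat_lit 332) (C.miq (nat_lit 558064904) (nat_lit 31438195657723496799732193)) (C.cons (nat_lit 76) (C.node (nat_lit 2) (nat_lit 6)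 (nat_lit 8) (C.cons (nat_lit 324) (C.node (nat_lit 3) (nat_lit 5) (nat_lit 6) (C.cons (nat_lit 120) (C.miq (nat_lit 557057878) (nat_lit 31433639321226475862491617)) C.nil)) C.nil)) C.nil))) C.nil))) C.nil)) C.nil)) C.nil))) C.nil)) C.nil))) C.nil)) C.nil)) C.nil))) C.nil))) C.nil))) C.nil)) C.nil)) (C.cons (nat_lit 162) (C.node (nat_lit 1) (nat_lit 3) (nat_lit 5) (C.cons (nat_lit 298) (C.node (nat_lit 1) (nat_lit 2) (nat_lit 3) (C.cons (nat_lit 30) (C.node (nat_lit 1) (nat_lit 2) (nat_lit 8) (C.cons (nat_lit 262) (C.node (nat_lit 1) (nat_lit 3) (nat_lit 7) (C.cons (nat_lit 138) (C.node (nat_lit 1) (nat_lit 6) (nat_lit 7) (C.cons (nat_lit 210) (C.miq (nat_lit 2168869664) (nat_lit 253883295086851252896989229)) (C.cons (nat_lit 194) (C.node (nat_lit 1) (nat_lit 4) (nat_lit 6) (C.cons (nat_lit 338) (C.node (nat_lit 1) (nat_lit 4) (nat_lit 7) (C.cons (nat_lit 146) (C.node (nat_lit 1) (nat_lit 7) (nat_lit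 8) (C.cons (nat_lit 386) (C.node (nat_lit 2) (nat_lit 5) (nat_lit 7) (C.cons (nat_lit 180) (C.miq (nat_lit 1947619888) (nat_lit 408625799964309740006866989)) (C.cons (nat_lit 164) (C.node (nat_lit 2) (nat_lit 4) (nat_lit 5) (C.cons (nat_lit 308) (C.node (nat_lit 2) (nat_lit 4) (nat_lit 7) (C.cons (nat_lit 148) (C.node (nat_lit 4) (nat_lit 7) (nat_lit 8) (C.cons (nat_lit 400) (C.node (nat_lit 2) (nat_lit 6) (nat_lit 7) (C.cons (nat_lit 204) (C.miq (nat_lit 2251440389) (nat_lit 246626548893697918435655731)) (C.cons (nat_lit 196) (C.node (nat_lit 4) (nat_lit 5) (nat_lit 7) C.nil) C.nil))) C.nil)) C.nil)) (C.cons (nat_lit 52) (C.miq (nat_lit 2233733894) (nat_lit 62870377703337367252041803)) C.nil))) C.nil))) C.nil)) C.nil)) (C.cons (nat_lit 82) (C.miq (nat_lit 2168869664) (nat_lit 99140790176178718534598701)) C.nil))) C.nil))) C.nil)) C.nil)) (C.cons (nat_lit 14) (C.miq (nat_lit 1125255254) (nat_lit 16926529526946822120407521))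 C.nil))) (C.cons (nat_lit 42) (C.node (nat_lit 1) (nat_lit 5) (nat_lit 8) (C.cons (nat_lit 290) (C.node (nat_lit 3) (nat_lit 5) (nat_lit 8) (C.cons (nat_lit 296) (C.node (nat_lit 1) (nat_lit 6) (nat_lit 8) (C.cons (nat_lit 338) (C.miq (nat_lit 2169718304) (nat_lit 50780068054038117939478613)) (C.cons (nat_lit 322) (C.node (nat_lit 4) (nat_lit 6) (nat_lit 8) (C.cons (nat_lit 336) (C.node (nat_lit 2) (nat_lit 5) (nat_lit 8)
  (C.cons (nat_lit 308) (C.miq (nat_lit 360931904) (nat_lit 357843426140447534422229077)) (C.cons (nat_lit 292) (C.node (nat_lit 4) (nat_lit 5) (nat_lit 8) (C.cons (nat_lit 304) (C.node (nat_lit 2) (nat_lit 6) (nat_lit 8) (C.cons (nat_lit 332) (C.miq (nat_lit 377770544) (nat_lit 406200016203175035460452397)) (C.cons (nat_lit 324) (C.node (nat_lit 3) (nat_lit 6) (nat_lit 8) (C.cons (nat_lit 328) (C.node (nat_lit 1) (nat_lit 4) (nat_lit 6) (C.cons (nat_lit 210) (C.node (nat_lit 1) (nat_lit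 3) (nat_lit 4) (C.cons (nat_lit 30) (C.miq (nat_lit 945963089) (nat_lit 391692519036558598232997939)) (C.cons (nat_lit 26) (C.node (nat_lit 2) (nat_lit 3) (nat_lit 6) (C.cons (nat_lit 204) (C.miq (nat_lit 890708038) (nat_lit 195849745926027556060004437)) (C.cons (nat_lit 76) (C.node (nat_lit 2) (nat_lit 6) (nat_lit 7) (C.cons (nat_lit 196) (C.node (nat_lit 3) (nat_lit 6) (nat_lit 7) (C.cons (nat_lit 200) (C.node (nat_lit 2) (nat_lit 4) (nat_lit 5) (C.cons (nat_lit 180) (C.miq (nat_lit 588533863) (nat_lit 31435391736580322349941217)) (C.cons (nat_lit 52) (C.node (nat_lit 3) (nat_lit 5) (nat_lit 6) (C.cons (nat_lit 120) (C.miq (nat_lit 558040933) (nat_lit 31432901451463699279118817)) C.nil)) C.nil))) C.nil)) C.nil)) C.nil))) C.nil))) (C.cons (nat_lit 82) (C.node (nat_lit 1) (nat_lit 6) (nat_lit 7) (C.cons (nat_lit 194) (C.node (nat_lit 2) (nat_lit 3) (nat_lit 6) (C.cons (nat_lit 204) (C.node (nat_lit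 4) (nat_lit 6) (nat_lit 7) (C.cons (nat_lit 208) (C.node (nat_lit 2) (nat_lit 3) (nat_lit 4) (C.cons (nat_lit 30) (C.miq (nat_lit 2250442004) (nat_lit 246626050871858965910519859)) (C.cons (nat_lit 28) (C.node (nat_lit 2) (nat_lit 4) (nat_lit 5) (C.cons (nat_lit 180) (C.miq (nat_lit 321128053) (nat_lit 33850863754268875517329889)) (C.cons (nat_lit 52) (C.node (nat_lit 3) (nat_lit 5) (nat_lit 6) C.nil) C.nil))) C.nil))) C.nil)) (C.cons (nat_lit 76) (C.node (nat_lit 2) (nat_lit 6) (nat_lit 7) (C.cons (nat_lit 196) (C.node (nat_lit 2) (nat_lit 4) (nat_lit 5) (C.cons (nat_lit 180) (C.node (nat_lit 3) (nat_lit 5) (nat_lit 7) (C.cons (nat_lit 168) (C.node (nat_lit 3) (nat_lit 4) (nat_lit 5) (C.cons (nat_lit 120) (C.miq (nat_lit 1902387253) (nat_lit 99135237660332304031547437)) C.nil)) C.nil)) (C.cons (nat_lit 52) (C.node (nat_lit 2) (nat_lit 5) (nat_lit 7) C.nil) C.nil))) C.nil)) C.nil))) C.nil)) C.nil)))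 C.nil)) C.nil))) C.nil)) C.nil))) C.nil)) C.nil))) C.nil)) C.nil)) C.nil))) C.nil))) (C.cons (nat_lit 98) (C.node (nat_lit 2) (nat_lit 5) (nat_lit 6) (C.cons (nat_lit 100) (C.node (nat_lit 1) (nat_lit 2) (nat_lit 5) (C.cons (nat_lit 294) (C.node (nat_lit 1) (nat_lit 2) (nat_lit 6) (C.cons (nat_lit 70) (C.ref (nat_lit 13) (nat_lit 36344967696)) C.nil)) (C.cons (nat_lit 38) (C.node (nat_lit 1) (nat_lit 2) (nat_lit 6) (C.cons (nat_lit 326) (C.ref (nat_lit 13) (nat_lit 36329177616)) (C.cons (nat_lit 70) (C.node (nat_lit 1) (nat_lit 5) (nat_lit 7) (C.cons (nat_lit 170) (C.node (nat_lit 1) (nat_lit 5) (nat_lit 8) (C.cons (nat_lit 290) (C.node (nat_lit 3) (nat_lit 5) (nat_lit 8) (C.cons (nat_lit 296) (C.node (nat_lit 1) (nat_lit 3) (nat_lit 4) (C.cons (nat_lit 30) (C.node (nat_lit 1) (nat_lit 2) (nat_lit 8) (C.cons (nat_lit 262) (C.node (nat_lit 1) (nat_lit 3) (nat_lit 8) (C.cons (nat_lit 266) (C.node (nat_lit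 1) (nat_lit 6) (nat_lit 7) (C.cons (nat_lit 210) (C.node (nat_lit 1) (nat_lit 4) (nat_lit 8) (C.cons (nat_lit 274) (C.node (nat_lit 1) (nat_lit 6) (nat_lit 8) (C.cons (nat_lit 322) (C.node (nat_lit 1) (nat_lit 7) (nat_lit 8) (C.cons (nat_lit 386) (C.node (nat_lit 3) (nat_lit 4) (nat_lit 7) (C.cons (nat_lit 152) (C.node (nat_lit 4) (nat_lit 6) (nat_lit 8) (C.cons (nat_lit 336) (C.node (nat_lit 3) (nat_lit 6) (nat_lit 8) (C.cons (nat_lit 332) (C.miq (nat_lit 1982010373) (nat_lit 401366508117659526810632243)) C.nil)) C.nil)) C.nil)) C.nil)) C.nil)) C.nil)) (C.cons (nat_lit 194) (C.miq (nat_lit 1181818963) (nat_lit 234532162431487710090362925)) C.nil))) C.nil)) C.nil)) (C.cons (nat_lit 26) (C.node (nat_lit 1) (nat_lit 6) (nat_lit 7) (C.cons (nat_lit 210)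
  (C.miq (nat_lit 605226613) (nat_lit 31432901437389950446862817)) (C.cons (nat_lit 194) (C.node (nat_lit 2) (nat_lit 5) (nat_lit 7) (C.cons (nat_lit 180) (C.miq (nat_lit 1175920693) (nat_lit 234534929443097022766383149)) (C.cons (nat_lit 164) (C.node (nat_lit 4) (nat_lit 5) (nat_lit 7) (C.cons (nat_lit 176) (C.node (nat_lit 2) (nat_lit 6) (nat_lit 7) (C.cons (nat_lit 204) (C.miq (nat_lit 588539728) (nat_lit 31433639340648249251004897)) (C.cons (nat_lit 196) (C.node (nat_lit 3) (nat_lit 4) (nat_lit 5) (C.cons (nat_lit 120) (C.miq (nat_lit 557057878) (nat_lit 31433639321226475862491617)) (C.cons (nat_lit 56) (C.node (nat_lit 3) (nat_lit 5) (nat_lit 6) (C.cons (nat_lit 104) (C.node (nat_lit 4) (nat_lit 5) (nat_lit 6) (C.cons (nat_lit 112) (C.node (nat_lit 1) (nat_lit 2) (nat_lit 3) (C.cons (nat_lit 270) (C.node (nat_lit 1) (nat_lit 2) (nat_lit 4) C.nil) (C.cons (nat_lit 14) (C.node (nat_lit 1) (nat_lit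 3) (nat_lit 8) (C.cons (nat_lit 266) (C.node (nat_lit 1) (nat_lit 2) (nat_lit 4) (C.cons (nat_lit 22) (C.node (nat_lit 1) (nat_lit 2) (nat_lit 8) C.nil) C.nil)) C.nil)) C.nil))) C.nil)) C.nil)) C.nil))) C.nil))) C.nil)) C.nil))) C.nil))) C.nil))) C.nil)) C.nil)) (C.cons (nat_lit 162) (C.node (nat_lit 1) (nat_lit 3) (nat_lit 5) (C.cons (nat_lit 298) (C.node (nat_lit 1) (nat_lit 2) (nat_lit 3) (C.cons (nat_lit 30) (C.miq (nat_lit 1361478464) (nat_lit 84633680340803168438124825)) (C.cons (nat_lit 14) (C.node (nat_lit 1) (nat_lit 6) (nat_lit 8) (C.cons (nat_lit 338) (C.miq (nat_lit 1093822544) (nat_lit 16926529542990895789179361)) (C.cons (nat_lit 322) (C.node (nat_lit 4) (nat_lit 6) (nat_lit 8) (C.cons (nat_lit 336) (C.node (nat_lit 2) (nat_lit 5) (nat_lit 8) (C.cons (nat_lit 308) (C.miq (nat_lit 407254304) (nat_lit 406200458980201796832919597)) (C.cons (nat_lit 292) (C.node (nat_lit 4) (nat_lit 5) (nat_lit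 8) (C.cons (nat_lit 304) (C.node (nat_lit 2) (nat_lit 6) (nat_lit 8) (C.cons (nat_lit 332) (C.miq (nat_lit 1110509189) (nat_lit 16925902282479366602097121)) (C.cons (nat_lit 324) (C.node (nat_lit 3) (nat_lit 6) (nat_lit 8) (C.cons (nat_lit 328) (C.node (nat_lit 1) (nat_lit 2) (nat_lit 4) (C.cons (nat_lit 278) (C.node (nat_lit 1) (nat_lit 7) (nat_lit 8) (C.cons (nat_lit 386) (C.node (nat_lit 2) (nat_lit 4) (nat_lit 5) C.nil) C.nil)) (C.cons (nat_lit 22) (C.node (nat_lit 1) (nat_lit 2) (nat_lit 8) (C.cons (nat_lit 262) (C.node (nat_lit 2) (nat_lit 3) (nat_lit 6) (C.cons (nat_lit 204) (C.node (nat_lit 1) (nat_lit 4) (nat_lit 6) C.nil) C.nil)) C.nil)) C.nil))) C.nil)) C.nil))) C.nil)) C.nil))) C.nil)) C.nil))) C.nil))) (C.cons (nat_lit 42) (C.node (nat_lit 1) (nat_lit 5) (nat_lit 8) (C.cons (nat_lit 290) (C.node (nat_lit 3) (nat_lit 5) (nat_lit 8) (C.cons (nat_lit 296) (C.node (nat_lit 1) (nat_lit 6) (nat_lit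 7) (C.cons (nat_lit 210) (C.node (nat_lit 1) (nat_lit 6) (nat_lit 8) (C.cons (nat_lit 322) (C.node (nat_lit 4) (nat_lit 6) (nat_lit 8) (C.cons (nat_lit 336) (C.node (nat_lit 1) (nat_lit 3) (nat_lit 4) (C.cons (nat_lit 30) (C.miq (nat_lit 1899324448) (nat_lit 50783757366823753593192533)) (C.cons (nat_lit 26) (C.node (nat_lit 2) (nat_lit 5) (nat_lit 7) (C.cons (nat_lit 180) (C.miq (nat_lit 588533863) (nat_lit 31435391736580322349941217)) (C.cons (nat_lit 164) (C.node (nat_lit 2) (nat_lit 6) (nat_lit 7) (C.cons (nat_lit 204) (C.miq (nat_lit 1160187958) (nat_lit 198267708247410080756793419)) (C.cons (nat_lit 196) (C.node (nat_lit 3) (nat_lit 6) (nat_lit 7) (C.cons (nat_lit 200) (C.node (nat_lit 3) (nat_lit 4) (nat_lit 6) (C.cons (nat_lit 120) (C.miq (nat_lit 558040933) (nat_lit 31432901451463699279118817)) (C.cons (nat_lit 88) (C.node (nat_lit 3) (nat_lit 5) (nat_lit 6) (C.cons (nat_lit 104) (C.node (nat_lit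 4) (nat_lit 5) (nat_lit 6) (C.cons (nat_lit 112) (C.node (nat_lit 2) (nat_lit 4) (nat_lit 5) C.nil) C.nil)) C.nil)) C.nil))) C.nil)) C.nil))) C.nil))) C.nil))) C.nil)) C.nil)) (C.cons (nat_lit 194) (C.node (nat_lit 1) (nat_lit 4) (nat_lit 6) (C.cons (nat_lit 338) (C.node (nat_lit 1) (nat_lit 2) (nat_lit 4) (C.cons (nat_lit 30)
  (C.miq (nat_lit 2167759904) (nat_lit 50783757402852550612156501)) (C.cons (nat_lit 22) (C.node (nat_lit 2) (nat_lit 5) (nat_lit 8) (C.cons (nat_lit 308) (C.miq (nat_lit 826410629) (nat_lit 26597198156117233745789409)) (C.cons (nat_lit 292) (C.node (nat_lit 4) (nat_lit 5) (nat_lit 8) (C.cons (nat_lit 304) (C.node (nat_lit 2) (nat_lit 6) (nat_lit 8) (C.cons (nat_lit 332) (C.miq (nat_lit 675624464) (nat_lit 367514279359781730010726475)) (C.cons (nat_lit 324) (C.node (nat_lit 3) (nat_lit 6) (nat_lit 8) (C.cons (nat_lit 328) (C.node (nat_lit 1) (nat_lit 2) (nat_lit 3) (C.cons (nat_lit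 14) (C.node (nat_lit 1) (nat_lit 2) (nat_lit 8) C.nil) C.nil)) C.nil)) C.nil))) C.nil)) C.nil))) C.nil))) (C.cons (nat_lit 82) (C.node (nat_lit 1) (nat_lit 6) (nat_lit 8) (C.cons (nat_lit 322) (C.node (nat_lit 4) (nat_lit 6) (nat_lit 8) (C.cons (nat_lit 336) (C.node (nat_lit 2) (nat_lit 5) (nat_lit 7) (C.cons (nat_lit 180) (C.node (nat_lit 2) (nat_lit 5) (nat_lit 8) (C.cons (nat_lit 292) (C.node (nat_lit 3) (nat_lit 5) (nat_lit 7) (C.cons (nat_lit 168) (C.node (nat_lit 4) (nat_lit 5) (nat_lit 8) (C.cons (nat_lit 304) (C.node (nat_lit 3) (nat_lit 4) (nat_lit 5) (C.cons (nat_lit 120) (C.miq (nat_lit 1902387253) (nat_lit 99135237660332304031547437)) C.nil)) C.nil)) C.nil)) C.nil)) (C.cons (nat_lit 164) (C.node (nat_lit 2) (nat_lit 4) (nat_lit 5) (C.cons (nat_lit 308) (C.node (nat_lit 1) (nat_lit 2) (nat_lit 4) (C.cons (nat_lit 30) (C.miq (nat_lit 2216055344) (nat_lit 99140790178993468301049901)) (C.cons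 (nat_lit 22) (C.node (nat_lit 1) (nat_lit 2) (nat_lit 3) C.nil) C.nil))) (C.cons (nat_lit 52) (C.node (nat_lit 2) (nat_lit 5) (nat_lit 8) (C.cons (nat_lit 292) (C.node (nat_lit 4) (nat_lit 5) (nat_lit 8) C.nil) C.nil)) C.nil))) C.nil))) C.nil)) C.nil)) C.nil))) C.nil))) C.nil)) C.nil)) C.nil))) C.nil))) C.nil))) C.nil))) C.nil)) C.nil))) (List.cons (C.qs (C.cons (nat_lit 288) (C.ref (nat_lit 14) (nat_lit 36344967696)) (C.cons (nat_lit 48) (C.ref (nat_lit 14) (nat_lit 36344967696)) (C.cons (nat_lit 520) (C.ref (nat_lit 14) (nat_lit 36344967696)) (C.cons (nat_lit 136) (C.ref (nat_lit 14) (nat_lit 36344967696)) (C.cons (nat_lit 516) (C.ref (nat_lit 14) (nat_lit 36344967696)) (C.cons (nat_lit 36) (C.ref (nat_lit 14) (nat_lit 36344967696)) (C.cons (nat_lit 20) (C.ref (nat_lit 14) (nat_lit 36344967696)) (C.cons (nat_lit 52) (C.pat (nat_lit 1) (nat_lit 945067809) (nat_lit 1344827149535844608085213475014771169))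 (C.cons (nat_lit 12) (C.ref (nat_lit 14) (nat_lit 36344967696)) (C.cons (nat_lit 524) (C.pat (nat_lit 1) (nat_lit 2207541025) (nat_lit 389444527565442670176362101493530761)) (C.cons (nat_lit 258) (C.ref (nat_lit 14) (nat_lit 36344967696)) (C.cons (nat_lit 130) (C.ref (nat_lit 14) (nat_lit 36344967696)) (C.cons (nat_lit 34) (C.ref (nat_lit 14) (nat_lit 36344967696)) (C.cons (nat_lit 290) (C.pat (nat_lit 1) (nat_lit 1214486305) (nat_lit 1344827149564858975341176163949937121)) (C.cons (nat_lit 10) (C.ref (nat_lit 14) (nat_lit 36344967696)) (C.cons (nat_lit 138) (C.pat (nat_lit 1) (nat_lit 2224248609) (nat_lit 264829402989621026762381289782575249)) (C.cons (nat_lit 65) (C.ref (nat_lit 14) (nat_lit 36344967696)) C.nil)))))))))))))))))) (List.cons (C.node (nat_lit 0) (nat_lit 2) (nat_lit 4) (C.cons (nat_lit 277) (C.node (nat_lit 0) (nat_lit 3) (nat_lit 8) (C.cons (nat_lit 265) (C.node (nat_lit 0) (nat_lit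 3) (nat_lit 4) (C.cons (nat_lit 153) (C.ref (nat_lit 15) (nat_lit 36093305616)) C.nil)) C.nil)) (C.cons (nat_lit 21) (C.node (nat_lit 0) (nat_lit 2) (nat_lit 8) C.nil) C.nil))) (List.cons (C.node (nat_lit 0) (nat_lit 2) (nat_lit 6) (C.cons (nat_lit 85) (C.node (nat_lit 0) (nat_lit 2) (nat_lit 8) (C.cons (nat_lit 261) (C.node (nat_lit 0) (nat_lit 3) (nat_lit 7) (C.cons (nat_lit 153) (C.pat (nat_lit 0) (nat_lit 72759073) (nat_lit 38108931136579533333616682270855)) (C.cons (nat_lit 137) (C.node (nat_lit 0) (nat_lit 4) (nat_lit 7) (C.cons (nat_lit 145) (C.node (nat_lit 0) (nat_lit 3) (nat_lit 4) (C.cons (nat_lit 281)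
  (C.ref (nat_lit 15) (nat_lit 36344967696)) C.nil)) C.nil)) C.nil))) C.nil)) (C.cons (nat_lit 69) (C.node (nat_lit 0) (nat_lit 4) (nat_lit 6) (C.cons (nat_lit 81) (C.ref (nat_lit 16) (nat_lit 36344967696)) C.nil)) C.nil))) (List.cons (C.node (nat_lit 0) (nat_lit 1) (nat_lit 7) (C.cons (nat_lit 135) (C.node (nat_lit 0) (nat_lit 1) (nat_lit 8) (C.cons (nat_lit 259) (C.ref (nat_lit 17) (nat_lit 36344967696)) C.nil)) (C.cons (nat_lit 131) (C.node (nat_lit 0) (nat_lit 1) (nat_lit 2) (C.cons (nat_lit 263) (C.ref (nat_lit 17) (nat_lit 32318435856)) (C.cons (nat_lit 7) (C.node (nat_lit 0) (nat_lit 1) (nat_lit 8) (C.cons (nat_lit 259) (C.node (nat_lit 0) (nat_lit 2) (nat_lit 6) (C.cons (nat_lit 85) (C.node (nat_lit 0) (nat_lit 2) (nat_lit 7) (C.cons (nat_lit 133) (C.node (nat_lit 0) (nat_lit 2) (nat_lit 8) C.nil) C.nil)) (C.cons (nat_lit 69) (C.node (nat_lit 0) (nat_lit 4) (nat_lit 6) C.nil) C.nil))) C.nil))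 C.nil))) C.nil))) (List.cons (C.node (nat_lit 0) (nat_lit 2) (nat_lit 7) (C.cons (nat_lit 135) (C.node (nat_lit 0) (nat_lit 2) (nat_lit 8) (C.cons (nat_lit 261) (C.ref (nat_lit 16) (nat_lit 36344906016)) C.nil)) (C.cons (nat_lit 133) (C.node (nat_lit 0) (nat_lit 1) (nat_lit 2) (C.cons (nat_lit 263) (C.ref (nat_lit 16) (nat_lit 32318374176)) (C.cons (nat_lit 7) (C.node (nat_lit 0) (nat_lit 2) (nat_lit 8) C.nil) C.nil))) C.nil))) (List.cons (C.node (nat_lit 0) (nat_lit 1) (nat_lit 2) (C.cons (nat_lit 263) (C.node (nat_lit 0) (nat_lit 1) (nat_lit 3) (C.cons (nat_lit 139) (C.node (nat_lit 0) (nat_lit 2) (nat_lit 4) (C.cons (nat_lit 149) (C.node (nat_lit 0) (nat_lit 3) (nat_lit 4) (C.cons (nat_lit 281) (C.pat (nat_lit 0) (nat_lit 72824865) (nat_lit 38109085880265035626868460159239)) C.nil)) C.nil)) C.nil)) (C.cons (nat_lit 135) (C.node (nat_lit 0) (nat_lit 1) (nat_lit 3) (C.cons (nat_lit 267) (C.node (nat_lit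 0) (nat_lit 2) (nat_lit 4) (C.cons (nat_lit 277) (C.node (nat_lit 0) (nat_lit 3) (nat_lit 4) (C.cons (nat_lit 153) (C.pat (nat_lit 0) (nat_lit 72890145) (nat_lit 38108931140121308195768928764039)) C.nil)) C.nil)) C.nil)) C.nil))) (List.cons (C.node (nat_lit 0) (nat_lit 1) (nat_lit 2) (C.cons (nat_lit 263) (C.node (nat_lit 0) (nat_lit 2) (nat_lit 6) (C.cons (nat_lit 85) (C.ref (nat_lit 16) (nat_lit 32302645776)) (C.cons (nat_lit 69) (C.node (nat_lit 0) (nat_lit 4) (nat_lit 6) C.nil) C.nil))) (C.cons (nat_lit 7) (C.node (nat_lit 0) (nat_lit 1) (nat_lit 8) C.nil) C.nil))) (List.cons (C.node (nat_lit 0) (nat_lit 1) (nat_lit 7) (C.cons (nat_lit 135) (C.node (nat_lit 0) (nat_lit 1) (nat_lit 8) (C.cons (nat_lit 259) (C.node (nat_lit 0) (nat_lit 2) (nat_lit 6) (C.cons (nat_lit 85) (C.ref (nat_lit 16) (nat_lit 36329177616)) (C.cons (nat_lit 69) (C.node (nat_lit 0) (nat_lit 4) (nat_lit 6) C.nil) C.nil))) C.nil))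 (C.cons (nat_lit 131) (C.ref (nat_lit 21) (nat_lit 36344967696)) C.nil))) (List.cons (C.node (nat_lit 0) (nat_lit 1) (nat_lit 6) (C.cons (nat_lit 75) (C.ref (nat_lit 22) (nat_lit 36344967696)) (C.cons (nat_lit 71) (C.ref (nat_lit 22) (nat_lit 36344963856)) (C.cons (nat_lit 67) (C.node (nat_lit 0) (nat_lit 1) (nat_lit 7) (C.cons (nat_lit 139) (C.ref (nat_lit 21) (nat_lit 36093309456)) (C.cons (nat_lit 135) (C.ref (nat_lit 21) (nat_lit 36093305616)) (C.cons (nat_lit 131) (C.node (nat_lit 0) (nat_lit 1) (nat_lit 2) (C.cons (nat_lit 263) (C.node (nat_lit 0) (nat_lit 1) (nat_lit 3) C.nil) (C.cons (nat_lit 15) (C.node (nat_lit 0) (nat_lit 1) (nat_lit 8) C.nil) C.nil))) C.nil)))) C.nil)))) (List.cons (C.node (nat_lit 0) (nat_lit 2) (nat_lit 5) (C.cons (nat_lit 45) (C.node (nat_lit 0) (nat_lit 1) (nat_lit 6) (C.cons (nat_lit 75) (C.ref (nat_lit 18) (nat_lit 36344967696)) (C.cons (nat_lit 71) (C.ref (nat_lit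 18) (nat_lit 36344963856)) (C.cons (nat_lit 67) (C.node (nat_lit 0) (nat_lit 2) (nat_lit 6) (C.cons (nat_lit 85) (C.node (nat_lit 0) (nat_lit 3) (nat_lit 6) (C.cons (nat_lit 73) (C.ref (nat_lit 19) (nat_lit 36344967696)) C.nil)) (C.cons (nat_lit 69) (C.node (nat_lit 0) (nat_lit 3) (nat_lit 6) (C.cons (nat_lit 89)
  (C.ref (nat_lit 19) (nat_lit 36344963856)) (C.cons (nat_lit 73) (C.node (nat_lit 0) (nat_lit 4) (nat_lit 6) (C.cons (nat_lit 81) (C.ref (nat_lit 20) (nat_lit 36344967696)) C.nil)) C.nil))) C.nil))) C.nil)))) (C.cons (nat_lit 37) (C.node (nat_lit 0) (nat_lit 3) (nat_lit 5) (C.cons (nat_lit 41) (C.ref (nat_lit 23) (nat_lit 36344967696)) C.nil)) C.nil))) (List.cons (C.big (C.cons (nat_lit 285) (C.ref (nat_lit 12) (nat_lit 36344967696)) (C.cons (nat_lit 283) (C.ref (nat_lit 12) (nat_lit 36344967456)) (C.cons (nat_lit 279) (C.ref (nat_lit 12) (nat_lit 36344963376)) (C.cons (nat_lit 271) (C.ref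 (nat_lit 12) (nat_lit 36344897856)) (C.cons (nat_lit 157) (C.ref (nat_lit 12) (nat_lit 32318435856)) (C.cons (nat_lit 155) (C.ref (nat_lit 12) (nat_lit 32318435616)) (C.cons (nat_lit 151) (C.ref (nat_lit 12) (nat_lit 32318431536)) (C.cons (nat_lit 143) (C.ref (nat_lit 12) (nat_lit 32318366016)) (C.cons (nat_lit 93) (C.ref (nat_lit 12) (nat_lit 28040245776)) (C.cons (nat_lit 91) (C.ref (nat_lit 12) (nat_lit 28040245536)) (C.cons (nat_lit 87) (C.ref (nat_lit 12) (nat_lit 28040241456)) (C.cons (nat_lit 79) (C.ref (nat_lit 12) (nat_lit 28040175936)) (C.cons (nat_lit 61) (C.ref (nat_lit 12) (nat_lit 23746327056)) (C.cons (nat_lit 59) (C.ref (nat_lit 12) (nat_lit 23746326816)) (C.cons (nat_lit 55) (C.ref (nat_lit 12) (nat_lit 23746322736)) (C.cons (nat_lit 47) (C.ref (nat_lit 12) (nat_lit 23746257216)) (C.cons (nat_lit 31) (C.big C.nil (C.node (nat_lit 0) (nat_lit 1) (nat_lit 5) (C.cons (nat_lit 35) (C.node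 (nat_lit 0) (nat_lit 1) (nat_lit 6) (C.cons (nat_lit 67) (C.node (nat_lit 0) (nat_lit 1) (nat_lit 7) (C.cons (nat_lit 131) (C.node (nat_lit 0) (nat_lit 1) (nat_lit 8) (C.cons (nat_lit 259) (C.node (nat_lit 0) (nat_lit 2) (nat_lit 5) (C.cons (nat_lit 37) (C.node (nat_lit 0) (nat_lit 2) (nat_lit 6) (C.cons (nat_lit 69) (C.node (nat_lit 0) (nat_lit 2) (nat_lit 7) (C.cons (nat_lit 133) (C.node (nat_lit 0) (nat_lit 2) (nat_lit 8) C.nil) C.nil)) C.nil)) C.nil)) C.nil)) C.nil)) C.nil)) C.nil))) C.nil))))))))))))))))) (C.node (nat_lit 0) (nat_lit 1) (nat_lit 5) (C.cons (nat_lit 51) (C.ref (nat_lit 24) (nat_lit 36344967696)) (C.cons (nat_lit 43) (C.ref (nat_lit 24) (nat_lit 36344906256)) (C.cons (nat_lit 39) (C.ref (nat_lit 24) (nat_lit 36344840976)) (C.cons (nat_lit 35) (C.node (nat_lit 0) (nat_lit 2) (nat_lit 5) (C.cons (nat_lit 53) (C.node (nat_lit 0) (nat_lit 3) (nat_lit 5) (C.cons (nat_lit 41) (C.ref (nat_lit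 23) (nat_lit 36344967456)) C.nil)) (C.cons (nat_lit 45) (C.node (nat_lit 0) (nat_lit 4) (nat_lit 5) (C.cons (nat_lit 49) (C.ref (nat_lit 23) (nat_lit 36344906016)) C.nil)) (C.cons (nat_lit 37) (C.node (nat_lit 0) (nat_lit 3) (nat_lit 5) (C.cons (nat_lit 57) (C.ref (nat_lit 23) (nat_lit 36344963376)) (C.cons (nat_lit 41) (C.node (nat_lit 0) (nat_lit 4) (nat_lit 5) (C.cons (nat_lit 49) (C.node (nat_lit 0) (nat_lit 1) (nat_lit 6) (C.cons (nat_lit 83) (C.node (nat_lit 0) (nat_lit 2) (nat_lit 6) (C.cons (nat_lit 77) (C.ref (nat_lit 20) (nat_lit 36329239056)) C.nil)) (C.cons (nat_lit 75) (C.node (nat_lit 0) (nat_lit 2) (nat_lit 6) (C.cons (nat_lit 85) (C.ref (nat_lit 20) (nat_lit 36329177616)) C.nil)) (C.cons (nat_lit 71) (C.node (nat_lit 0) (nat_lit 3) (nat_lit 6) (C.cons (nat_lit 89) (C.ref (nat_lit 20) (nat_lit 36329112336)) C.nil)) C.nil)))) C.nil)) C.nil))) C.nil)))) C.nil)))))) (List.cons (C.node (nat_lit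 0) (nat_lit 3) (nat_lit 4) (C.cons (nat_lit 281) (C.node (nat_lit 0) (nat_lit 3) (nat_lit 5) (C.cons (nat_lit 41) (C.node (nat_lit 0) (nat_lit 4) (nat_lit 7) (C.cons (nat_lit 145) (C.node (nat_lit 0) (nat_lit 5) (nat_lit 6) (C.cons (nat_lit 225) (C.node (nat_lit 0) (nat_lit 5) (nat_lit 8) C.nil) (C.cons (nat_lit 353) (C.node (nat_lit 0) (nat_lit 5) (nat_lit 7) C.nil) C.nil))) C.nil)) C.nil)) (C.cons (nat_lit 25) (C.node (nat_lit 0) (nat_lit 3) (nat_lit 5) (C.cons (nat_lit 297) (C.node (nat_lit 0) (nat_lit 4) (nat_lit 7) (C.cons (nat_lit 401) (C.node (nat_lit 0) (nat_lit 6) (nat_lit 8) (C.cons (nat_lit 321)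
  (C.node (nat_lit 0) (nat_lit 5) (nat_lit 6) (C.cons (nat_lit 225) (C.pat (nat_lit 1) (nat_lit 1464219681) (nat_lit 721747089773253071567620953734971793)) C.nil)) C.nil)) (C.cons (nat_lit 145) (C.node (nat_lit 0) (nat_lit 4) (nat_lit 8) C.nil) C.nil))) (C.cons (nat_lit 41) (C.node (nat_lit 0) (nat_lit 3) (nat_lit 8) C.nil) C.nil))) C.nil))) (List.cons (C.node (nat_lit 0) (nat_lit 3) (nat_lit 4) (C.cons (nat_lit 281) (C.node (nat_lit 0) (nat_lit 3) (nat_lit 5) C.nil) (C.cons (nat_lit 57) (C.node (nat_lit 0) (nat_lit 3) (nat_lit 8) C.nil) C.nil))) (List.cons (C.node (nat_lit 0) (nat_lit 2) (nat_lit 4) (C.cons (nat_lit 149) (C.node (nat_lit 0) (nat_lit 2) (nat_lit 5) (C.cons (nat_lit 37) (C.node (nat_lit 0) (nat_lit 3) (nat_lit 4) (C.cons (nat_lit 281) (C.node (nat_lit 0) (nat_lit 3) (nat_lit 5) (C.cons (nat_lit 41) (C.node (nat_lit 0) (nat_lit 4) (nat_lit 5) (C.cons (nat_lit 49) (C.node (nat_lit 0)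 (nat_lit 5) (nat_lit 6) (C.cons (nat_lit 353) (C.node (nat_lit 0) (nat_lit 5) (nat_lit 7) C.nil) (C.cons (nat_lit 225) (C.node (nat_lit 0) (nat_lit 5) (nat_lit 8) C.nil) C.nil))) C.nil)) C.nil)) (C.cons (nat_lit 57) (C.node (nat_lit 0) (nat_lit 3) (nat_lit 8) (C.cons (nat_lit 265) (C.node (nat_lit 0) (nat_lit 4) (nat_lit 8) (C.cons (nat_lit 273) (C.node (nat_lit 0) (nat_lit 5) (nat_lit 6) (C.cons (nat_lit 353) (C.node (nat_lit 0) (nat_lit 5) (nat_lit 7) C.nil) (C.cons (nat_lit 225) (C.node (nat_lit 0) (nat_lit 5) (nat_lit 8) C.nil) C.nil))) C.nil)) C.nil)) (C.cons (nat_lit 25) (C.node (nat_lit 0) (nat_lit 3) (nat_lit 5) (C.cons (nat_lit 297) (C.node (nat_lit 0) (nat_lit 4) (nat_lit 5) (C.cons (nat_lit 49) (C.node (nat_lit 0) (nat_lit 4) (nat_lit 8) C.nil) C.nil)) (C.cons (nat_lit 41) (C.node (nat_lit 0) (nat_lit 3) (nat_lit 8) C.nil) C.nil))) C.nil)))) C.nil)) (C.cons (nat_lit 53) (C.node (nat_lit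 0) (nat_lit 2) (nat_lit 7) (C.cons (nat_lit 133) (C.ref (nat_lit 26) (nat_lit 36344967696)) C.nil)) (C.cons (nat_lit 21) (C.node (nat_lit 0) (nat_lit 2) (nat_lit 5) (C.cons (nat_lit 165) (C.ref (nat_lit 26) (nat_lit 35489538576)) (C.cons (nat_lit 37) (C.node (nat_lit 0) (nat_lit 2) (nat_lit 7) (C.cons (nat_lit 133) (C.ref (nat_lit 27) (nat_lit 36344967696)) C.nil)) C.nil))) C.nil)))) (List.cons (C.node (nat_lit 0) (nat_lit 3) (nat_lit 4) (C.cons (nat_lit 281) (C.node (nat_lit 0) (nat_lit 3) (nat_lit 6) C.nil) C.nil)) (List.cons (C.node (nat_lit 0) (nat_lit 2) (nat_lit 3) (C.cons (nat_lit 77) (C.ref (nat_lit 28) (nat_lit 36344967696)) (C.cons (nat_lit 45) (C.node (nat_lit 0) (nat_lit 2) (nat_lit 4) (C.cons (nat_lit 149) (C.node (nat_lit 0) (nat_lit 2) (nat_lit 6) (C.cons (nat_lit 69) (C.ref (nat_lit 26) (nat_lit 36093248016)) C.nil)) (C.cons (nat_lit 21) (C.node (nat_lit 0) (nat_lit 2) (nat_lit 6) (C.cons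 (nat_lit 197) (C.ref (nat_lit 26) (nat_lit 35556385296)) (C.cons (nat_lit 69) (C.node (nat_lit 0) (nat_lit 2) (nat_lit 7) (C.cons (nat_lit 133) (C.ref (nat_lit 29) (nat_lit 36344967696)) C.nil)) C.nil))) C.nil))) (C.cons (nat_lit 29) (C.ref (nat_lit 28) (nat_lit 36311544336)) (C.cons (nat_lit 13) (C.node (nat_lit 0) (nat_lit 2) (nat_lit 4) (C.cons (nat_lit 149) (C.node (nat_lit 0) (nat_lit 2) (nat_lit 5) (C.cons (nat_lit 101) (C.ref (nat_lit 26) (nat_lit 35237818896)) (C.cons (nat_lit 37) (C.node (nat_lit 0) (nat_lit 2) (nat_lit 6) (C.cons (nat_lit 69) (C.ref (nat_lit 27) (nat_lit 36093248016)) C.nil)) C.nil))) (C.cons (nat_lit 53) (C.node (nat_lit 0) (nat_lit 2) (nat_lit 7) (C.cons (nat_lit 197) (C.ref (nat_lit 26) (nat_lit 35271242256)) (C.cons (nat_lit 133) (C.node (nat_lit 0) (nat_lit 2) (nat_lit 6) (C.cons (nat_lit 69) (C.ref (nat_lit 29) (nat_lit 36093248016)) C.nil)) C.nil))) (C.cons (nat_lit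 21) (C.node (nat_lit 0) (nat_lit 2) (nat_lit 5) (C.cons (nat_lit 165) (C.node (nat_lit 0) (nat_lit 2) (nat_lit 6) (C.cons (nat_lit 69) (C.ref (nat_lit 29) (nat_lit 35271242256)) C.nil)) (C.cons (nat_lit 101) (C.node (nat_lit 0) (nat_lit 2) (nat_lit 7) (C.cons (nat_lit 133) (C.ref (nat_lit 29) (nat_lit 35556385296)) C.nil)) (C.cons (nat_lit 37)
  (C.node (nat_lit 0) (nat_lit 2) (nat_lit 6) (C.cons (nat_lit 197) (C.ref (nat_lit 27) (nat_lit 35556385296)) C.nil)) C.nil)))) C.nil)))) C.nil))))) (List.cons (C.node (nat_lit 0) (nat_lit 2) (nat_lit 4) (C.cons (nat_lit 149) (C.node (nat_lit 0) (nat_lit 2) (nat_lit 5) (C.cons (nat_lit 37) (C.ref (nat_lit 27) (nat_lit 36093309216)) C.nil)) (C.cons (nat_lit 53) (C.node (nat_lit 0) (nat_lit 2) (nat_lit 7) (C.cons (nat_lit 133) (C.ref (nat_lit 29) (nat_lit 36061851936)) C.nil)) (C.cons (nat_lit 21) (C.node (nat_lit 0) (nat_lit 2) (nat_lit 5) (C.cons (nat_lit 165)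 (C.ref (nat_lit 27) (nat_lit 36092326176)) C.nil)) C.nil)))) (List.cons (C.node (nat_lit 0) (nat_lit 2) (nat_lit 3) (C.cons (nat_lit 77) (C.ref (nat_lit 31) (nat_lit 36344967696)) (C.cons (nat_lit 45) (C.ref (nat_lit 31) (nat_lit 36329239056)) (C.cons (nat_lit 29) (C.ref (nat_lit 31) (nat_lit 36312527376)) (C.cons (nat_lit 13) (C.node (nat_lit 0) (nat_lit 2) (nat_lit 4) (C.cons (nat_lit 149) (C.node (nat_lit 0) (nat_lit 2) (nat_lit 5) (C.cons (nat_lit 101) (C.ref (nat_lit 29) (nat_lit 35537645856)) C.nil)) (C.cons (nat_lit 85) (C.node (nat_lit 0) (nat_lit 2) (nat_lit 5) (C.cons (nat_lit 165) (C.ref (nat_lit 29) (nat_lit 35806015776)) C.nil)) (C.cons (nat_lit 53) (C.node (nat_lit 0) (nat_lit 2) (nat_lit 6) (C.cons (nat_lit 197) (C.ref (nat_lit 29) (nat_lit 36057674016)) C.nil)) C.nil)))) C.nil))))) (List.cons (C.node (nat_lit 0) (nat_lit 1) (nat_lit 5) (C.cons (nat_lit 99) (C.ref (nat_lit 30) (nat_lit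 36343984656)) (C.cons (nat_lit 35) (C.node (nat_lit 0) (nat_lit 1) (nat_lit 6) (C.cons (nat_lit 67) (C.ref (nat_lit 32) (nat_lit 36344967696)) C.nil)) C.nil))) (List.cons (C.node (nat_lit 0) (nat_lit 1) (nat_lit 4) (C.cons (nat_lit 83) (C.node (nat_lit 0) (nat_lit 1) (nat_lit 5) (C.cons (nat_lit 35) (C.ref (nat_lit 30) (nat_lit 36344967696)) C.nil)) (C.cons (nat_lit 51) (C.node (nat_lit 0) (nat_lit 1) (nat_lit 6) (C.cons (nat_lit 67) (C.ref (nat_lit 30) (nat_lit 36329239056)) C.nil)) (C.cons (nat_lit 19) (C.ref (nat_lit 33) (nat_lit 36344967696)) C.nil)))) (List.cons (C.node (nat_lit 0) (nat_lit 1) (nat_lit 6) (C.cons (nat_lit 195) (C.ref (nat_lit 32) (nat_lit 36327088656)) (C.cons (nat_lit 67) (C.node (nat_lit 0) (nat_lit 1) (nat_lit 7) C.nil) C.nil))) (List.cons (C.node (nat_lit 0) (nat_lit 1) (nat_lit 5) (C.cons (nat_lit 163) (C.node (nat_lit 0) (nat_lit 1) (nat_lit 6) (C.cons (nat_lit 67) (C.ref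 (nat_lit 32) (nat_lit 36343861776)) C.nil)) (C.cons (nat_lit 99) (C.node (nat_lit 0) (nat_lit 1) (nat_lit 7) (C.cons (nat_lit 131) (C.ref (nat_lit 32) (nat_lit 36092203536)) C.nil)) (C.cons (nat_lit 35) (C.ref (nat_lit 35) (nat_lit 36344967696)) C.nil)))) (List.cons (C.node (nat_lit 0) (nat_lit 1) (nat_lit 4) (C.cons (nat_lit 147) (C.ref (nat_lit 33) (nat_lit 36344906256)) (C.cons (nat_lit 83) (C.ref (nat_lit 33) (nat_lit 36093248016)) (C.cons (nat_lit 51) (C.ref (nat_lit 33) (nat_lit 35825861136)) (C.cons (nat_lit 19) (C.ref (nat_lit 36) (nat_lit 36344967696)) C.nil))))) (List.cons (C.node (nat_lit 0) (nat_lit 1) (nat_lit 3) (C.cons (nat_lit 139) (C.ref (nat_lit 34) (nat_lit 36344967696)) (C.cons (nat_lit 75) (C.ref (nat_lit 34) (nat_lit 36093309456)) (C.cons (nat_lit 43) (C.ref (nat_lit 34) (nat_lit 35825922576)) (C.cons (nat_lit 27) (C.ref (nat_lit 34) (nat_lit 35557552656)) (C.cons (nat_lit 11)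 (C.ref (nat_lit 37) (nat_lit 36344967696)) C.nil)))))) List.nil)))))))))))))))))))))))))

theorem ok9_14 : okL par9 (nat_lit 39) c9_14 (nat_lit 14) = true := by decide +kernel

noncomputable def c9_39 : List C :=
  (List.cons (C.big (C.cons (nat_lit 497) (C.ref (nat_lit 7) (nat_lit 36344967696)) (C.cons (nat_lit 489) (C.ref (nat_lit 7) (nat_lit 36344906256)) (C.cons (nat_lit 485) (C.ref (nat_lit 7) (nat_lit 36344840976)) (C.cons (nat_lit 483) (C.ref (nat_lit 7) (nat_lit 36344775456)) (C.cons (nat_lit 473) (C.ref (nat_lit 7) (nat_lit 36343861776)) (C.cons (nat_lit 469) (C.ref (nat_lit 7) (nat_lit 36343796496)) (C.cons (nat_lit 467) (C.ref (nat_lit 7) (nat_lit 36343730976)) (C.cons (nat_lit 461) (C.ref (nat_lit 7) (nat_lit 36342748176)) (C.cons (nat_lit 459) (C.ref (nat_lit 7) (nat_lit 36342682656)) (C.cons (nat_lit 455) (C.ref (nat_lit 7) (nat_lit 36341634096)) (C.cons (nat_lit 441) (C.ref (nat_lit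 7) (nat_lit 36327088656)) (C.cons (nat_lit 437) (C.ref (nat_lit 7) (nat_lit 36327023376)) (C.cons (nat_lit 435) (C.ref (nat_lit 7) (nat_lit 36326957856)) (C.cons (nat_lit 429) (C.ref (nat_lit 7) (nat_lit 36325975056)) (C.cons (nat_lit 427) (C.ref (nat_lit 7) (nat_lit 36325909536)) (C.cons (nat_lit 423) (C.ref (nat_lit 7) (nat_lit 36324860976)) (C.cons (nat_lit 413) (C.ref (nat_lit 7) (nat_lit 36309198096)) (C.cons (nat_lit 411) (C.ref (nat_lit 7) (nat_lit 36309132576)) (C.cons (nat_lit 407) (C.ref (nat_lit 7) (nat_lit 36308084016)) (C.cons (nat_lit 399) (C.ref (nat_lit 7) (nat_lit 36291306816)) (C.cons (nat_lit 377) (C.ref (nat_lit 7) (nat_lit 36058657296)) (C.cons (nat_lit 373) (C.ref (nat_lit 7) (nat_lit 36058592016)) (C.cons (nat_lit 371) (C.ref (nat_lit 7) (nat_lit 36058526496)) (C.cons (nat_lit 365) (C.ref (nat_lit 7) (nat_lit 36057543696)) (C.cons (nat_lit 363) (C.ref (nat_lit 7) (nat_lit 36057478176))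 (C.cons (nat_lit 359) (C.ref (nat_lit 7) (nat_lit 36056429616)) (C.cons (nat_lit 349) (C.ref (nat_lit 7) (nat_lit 36040766736)) (C.cons (nat_lit 347) (C.ref (nat_lit 7) (nat_lit 36040701216)) (C.cons (nat_lit 343) (C.ref (nat_lit 7) (nat_lit 36039652656)) (C.cons (nat_lit 335) (C.ref (nat_lit 7) (nat_lit 36022875456)) (C.cons (nat_lit 317) (C.ref (nat_lit 7) (nat_lit 35772331536)) (C.cons (nat_lit 315) (C.ref (nat_lit 7) (nat_lit 35772266016)) (C.cons (nat_lit 311) (C.ref (nat_lit 7) (nat_lit 35771217456)) (C.cons (nat_lit 303) (C.ref (nat_lit 7) (nat_lit 35754440256)) (C.cons (nat_lit 287) (C.ref (nat_lit 7) (nat_lit 35486004816)) (C.cons (nat_lit 249) (C.ref (nat_lit 7) (nat_lit 31763694096)) (C.cons (nat_lit 245) (C.ref (nat_lit 7) (nat_lit 31763628816)) (C.cons (nat_lit 243) (C.ref (nat_lit 7) (nat_lit 31763563296)) (C.cons (nat_lit 237) (C.ref (nat_lit 7) (nat_lit 31762580496)) (C.cons (nat_lit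 235) (C.ref (nat_lit 7) (nat_lit 31762514976)) (C.cons (nat_lit 231) (C.ref (nat_lit 7) (nat_lit 31761466416)) (C.cons (nat_lit 221) (C.ref (nat_lit 7) (nat_lit 31745803536)) (C.cons (nat_lit 219) (C.ref (nat_lit 7) (nat_lit 31745738016)) (C.cons (nat_lit 215) (C.ref (nat_lit 7) (nat_lit 31744689456)) (C.cons (nat_lit 207) (C.ref (nat_lit 7) (nat_lit 31727912256)) (C.cons (nat_lit 189) (C.ref (nat_lit 7) (nat_lit 31477368336)) (C.cons (nat_lit 187) (C.ref (nat_lit 7) (nat_lit 31477302816)) (C.cons (nat_lit 183) (C.ref (nat_lit 7) (nat_lit 31476254256)) (C.cons (nat_lit 175) (C.ref (nat_lit 7) (nat_lit 31459477056)) (C.cons (nat_lit 159) (C.ref (nat_lit 7) (nat_lit 31191041616)) (C.cons (nat_lit 125) (C.ref (nat_lit 7) (nat_lit 27182401296)) (C.cons (nat_lit 123) (C.ref (nat_lit 7) (nat_lit 27182335776)) (C.cons (nat_lit 119) (C.ref (nat_lit 7) (nat_lit 27181287216)) (C.cons (nat_lit 111) (C.ref (nat_lit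 7) (nat_lit 27164510016)) (C.cons (nat_lit 95) (C.ref (nat_lit 7) (nat_lit 26896074576)) (C.cons (nat_lit 63) (C.ref (nat_lit 7) (nat_lit 22601107296)) C.nil)))))))))))))))))))))))))))))))))))))))))))))))))))))))) (C.big (C.cons (nat_lit 481) (C.ref (nat_lit 25) (nat_lit 36344967696)) (C.cons (nat_lit 465) (C.ref (nat_lit 25) (nat_lit 36343984656)) (C.cons (nat_lit 457) (C.ref (nat_lit 25) (nat_lit 36342940176)) (C.cons (nat_lit 453) (C.ref (nat_lit 25) (nat_lit 36341891856)) (C.cons (nat_lit 451) (C.ref (nat_lit 25) (nat_lit 36340843296))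
  (C.cons (nat_lit 433) (C.ref (nat_lit 25) (nat_lit 36327272976)) (C.cons (nat_lit 425) (C.ref (nat_lit 25) (nat_lit 36326228496)) (C.cons (nat_lit 421) (C.ref (nat_lit 25) (nat_lit 36325180176)) (C.cons (nat_lit 419) (C.ref (nat_lit 25) (nat_lit 36324131616)) (C.cons (nat_lit 409) (C.ref (nat_lit 25) (nat_lit 36309455376)) (C.cons (nat_lit 405) (C.ref (nat_lit 25) (nat_lit 36308407056)) (C.cons (nat_lit 403) (C.ref (nat_lit 25) (nat_lit 36307358496)) (C.cons (nat_lit 397) (C.ref (nat_lit 25) (nat_lit 36291630096)) (C.cons (nat_lit 395) (C.ref (nat_lit 25) (nat_lit 36290581536)) (C.cons (nat_lit 391) (C.ref (nat_lit 25) (nat_lit 36273804336)) (C.cons (nat_lit 369) (C.ref (nat_lit 25) (nat_lit 36058903056)) (C.cons (nat_lit 361) (C.ref (nat_lit 25) (nat_lit 36057858576)) (C.cons (nat_lit 357) (C.ref (nat_lit 25) (nat_lit 36056810256)) (C.cons (nat_lit 355) (C.ref (nat_lit 25) (nat_lit 36055761696))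 (C.cons (nat_lit 345) (C.ref (nat_lit 25) (nat_lit 36041085456)) (C.cons (nat_lit 341) (C.ref (nat_lit 25) (nat_lit 36040037136)) (C.cons (nat_lit 339) (C.ref (nat_lit 25) (nat_lit 36038988576)) (C.cons (nat_lit 333) (C.ref (nat_lit 25) (nat_lit 36023260176)) (C.cons (nat_lit 331) (C.ref (nat_lit 25) (nat_lit 36022211616)) (C.cons (nat_lit 327) (C.ref (nat_lit 25) (nat_lit 36005434416)) (C.cons (nat_lit 313) (C.ref (nat_lit 25) (nat_lit 35772654096)) (C.cons (nat_lit 309) (C.ref (nat_lit 25) (nat_lit 35771605776)) (C.cons (nat_lit 307) (C.ref (nat_lit 25) (nat_lit 35770557216)) (C.cons (nat_lit 301) (C.ref (nat_lit 25) (nat_lit 35754828816)) (C.cons (nat_lit 299) (C.ref (nat_lit 25) (nat_lit 35753780256)) (C.cons (nat_lit 295) (C.ref (nat_lit 25) (nat_lit 35737003056)) (C.cons (nat_lit 285) (C.ref (nat_lit 25) (nat_lit 35486393616)) (C.cons (nat_lit 283) (C.ref (nat_lit 25) (nat_lit 35485345056)) (C.cons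 (nat_lit 279) (C.ref (nat_lit 25) (nat_lit 35468567856)) (C.cons (nat_lit 271) (C.ref (nat_lit 25) (nat_lit 35200132416)) (C.cons (nat_lit 241) (C.ref (nat_lit 25) (nat_lit 31764001296)) (C.cons (nat_lit 233) (C.ref (nat_lit 25) (nat_lit 31762956816)) (C.cons (nat_lit 229) (C.ref (nat_lit 25) (nat_lit 31761908496)) (C.cons (nat_lit 227) (C.ref (nat_lit 25) (nat_lit 31760859936)) (C.cons (nat_lit 217) (C.ref (nat_lit 25) (nat_lit 31746183696)) (C.cons (nat_lit 213) (C.ref (nat_lit 25) (nat_lit 31745135376)) (C.cons (nat_lit 211) (C.ref (nat_lit 25) (nat_lit 31744086816)) (C.cons (nat_lit 205) (C.ref (nat_lit 25) (nat_lit 31728358416)) (C.cons (nat_lit 203) (C.ref (nat_lit 25) (nat_lit 31727309856)) (C.cons (nat_lit 199) (C.ref (nat_lit 25) (nat_lit 31710532656)) (C.cons (nat_lit 185) (C.ref (nat_lit 25) (nat_lit 31477752336)) (C.cons (nat_lit 181) (C.ref (nat_lit 25) (nat_lit 31476704016)) (C.cons (nat_lit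 179) (C.ref (nat_lit 25) (nat_lit 31475655456)) (C.cons (nat_lit 173) (C.ref (nat_lit 25) (nat_lit 31459927056)) (C.cons (nat_lit 171) (C.ref (nat_lit 25) (nat_lit 31458878496)) (C.cons (nat_lit 167) (C.ref (nat_lit 25) (nat_lit 31442101296)) (C.cons (nat_lit 157) (C.ref (nat_lit 25) (nat_lit 31191491856)) (C.cons (nat_lit 155) (C.ref (nat_lit 25) (nat_lit 31190443296)) (C.cons (nat_lit 151) (C.ref (nat_lit 25) (nat_lit 31173666096)) (C.cons (nat_lit 143) (C.ref (nat_lit 25) (nat_lit 30905230656)) (C.cons (nat_lit 121) (C.ref (nat_lit 25) (nat_lit 27182789136)) (C.cons (nat_lit 117) (C.ref (nat_lit 25) (nat_lit 27181740816)) (C.cons (nat_lit 115) (C.ref (nat_lit 25) (nat_lit 27180692256)) (C.cons (nat_lit 109) (C.ref (nat_lit 25) (nat_lit 27164963856)) (C.cons (nat_lit 107) (C.ref (nat_lit 25) (nat_lit 27163915296)) (C.cons (nat_lit 103) (C.ref (nat_lit 25) (nat_lit 27147138096)) (C.cons (nat_lit 93)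 (C.ref (nat_lit 25) (nat_lit 26896528656)) (C.cons (nat_lit 91) (C.ref (nat_lit 25) (nat_lit 26895480096)) (C.cons (nat_lit 87) (C.ref (nat_lit 25) (nat_lit 26878702896)) (C.cons (nat_lit 79) (C.ref (nat_lit 25) (nat_lit 26610267456)) (C.cons (nat_lit 61) (C.ref (nat_lit 25) (nat_lit 22601561616)) (C.cons (nat_lit 59)
  (C.ref (nat_lit 25) (nat_lit 22600513056)) (C.cons (nat_lit 55) (C.ref (nat_lit 25) (nat_lit 22583735856)) (C.cons (nat_lit 47) (C.ref (nat_lit 25) (nat_lit 22315300416)) (C.cons (nat_lit 31) (C.ref (nat_lit 25) (nat_lit 18020333136)) C.nil)))))))))))))))))))))))))))))))))))))))))))))))))))))))))))))))))))))) (C.node (nat_lit 0) (nat_lit 1) (nat_lit 2) (C.cons (nat_lit 263) (C.ref (nat_lit 38) (nat_lit 36344967696)) (C.cons (nat_lit 135) (C.ref (nat_lit 38) (nat_lit 32318435856)) (C.cons (nat_lit 71) (C.ref (nat_lit 38) (nat_lit 28040245776)) (C.cons (nat_lit 39) (C.ref (nat_lit 38)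 (nat_lit 23746327056)) (C.cons (nat_lit 23) (C.ref (nat_lit 38) (nat_lit 19451425296)) (C.cons (nat_lit 15) (C.ref (nat_lit 38) (nat_lit 15156462096)) (C.cons (nat_lit 7) (C.node (nat_lit 0) (nat_lit 1) (nat_lit 3) (C.cons (nat_lit 267) (C.ref (nat_lit 37) (nat_lit 36344963856)) (C.cons (nat_lit 139) (C.ref (nat_lit 37) (nat_lit 32318432016)) (C.cons (nat_lit 75) (C.ref (nat_lit 37) (nat_lit 28040241936)) (C.cons (nat_lit 43) (C.ref (nat_lit 37) (nat_lit 23746323216)) (C.cons (nat_lit 27) (C.ref (nat_lit 37) (nat_lit 19451421456)) (C.cons (nat_lit 11) (C.node (nat_lit 0) (nat_lit 1) (nat_lit 4) (C.cons (nat_lit 275) (C.ref (nat_lit 36) (nat_lit 36344898576)) (C.cons (nat_lit 147) (C.ref (nat_lit 36) (nat_lit 32318366736)) (C.cons (nat_lit 83) (C.ref (nat_lit 36) (nat_lit 28040176656)) (C.cons (nat_lit 51) (C.ref (nat_lit 36) (nat_lit 23746257936)) (C.cons (nat_lit 19) (C.node (nat_lit 0) (nat_lit 1)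 (nat_lit 5) (C.cons (nat_lit 291) (C.ref (nat_lit 35) (nat_lit 36343850256)) (C.cons (nat_lit 163) (C.ref (nat_lit 35) (nat_lit 32317318416)) (C.cons (nat_lit 99) (C.ref (nat_lit 35) (nat_lit 28039128336)) (C.cons (nat_lit 35) (C.node (nat_lit 0) (nat_lit 1) (nat_lit 6) (C.cons (nat_lit 323) (C.node (nat_lit 0) (nat_lit 1) (nat_lit 7) C.nil) (C.cons (nat_lit 195) (C.node (nat_lit 0) (nat_lit 1) (nat_lit 8) C.nil) C.nil))) C.nil))))) C.nil)))))) C.nil))))))) C.nil)))))))))) List.nil)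

theorem ok9_39 : okL par9 (nat_lit 40) c9_39 (nat_lit 39) = true := by decide +kernel


end Pool.Agent.MP_1f1ca1_co
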