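import Pool.Agent.MP_1f1ca1_co.Cert.PatsOK
import Pool.Agent.MP_1f1ca1_co.Cert.T10
import Pool.Agent.MP_1f1ca1_co.Cert.C10_0
import Pool.Agent.MP_1f1ca1_co.Cert.C10_1

set_option autoImplicit false
set_option maxRecDepth 1000000
set_option maxHeartbeats 0

namespace Pool.Agent.MP_1f1ca1_co

theorem parOK10 : ParOK par10 (nat_lit 37) :=
  ⟨by decide, by decide, by decide, by decide, tb10_3_ok, tb10_4_ok, tb10_5_ok, patLib_bad⟩

theorem allRef10 (α : Type) [DecidableEq α] : AllRef α par10 (nat_lit 157) := by
  have h := AllRef.zero (α := α) par10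
  replace h := AllRef.step ok10_0 h
  replace h := AllRef.step ok10_5 h
  replace h := AllRef.step ok10_6 h
  replace h := AllRef.step ok10_7 h
  replace h := AllRef.step ok10_30 h
  replace h := AllRef.step ok10_37 h
  replace h := AllRef.step ok10_46 h
  replace h := AllRef.step ok10_47 h
  replace h := AllRef.step ok10_52 h
  replace h := AllRef.step ok10_55 h
  replace h := AllRef.step ok10_56 h
  replace h := AllRef.step ok10_57 h
  replace h := AllRef.step ok10_77 h
  replace h := AllRef.step ok10_78 h
  replace h := AllRef.step ok10_79 h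
  replace h := AllRef.step ok10_100 h
  replace h := AllRef.step ok10_123 h
  replace h := AllRef.step ok10_152 h
  exact h

theorem eng10 {α : Type} [DecidableEq α] {P : Finset α} {B L : Finset (Finset α)} (G : Geo P B L)
    (hn : P.card = 10) (h6 : ∀ β ∈ B, β.card ≤ 6) : 1920 < 60 * (B \ L).card :=
  engine (j := 156) parOK10 (allRef10 α) rfl G hn h6

end Pool.Agent.MP_1f1ca1_co
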