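import Pool.Agent.MP_1f1ca1_co.Cert.PatsOK
import Pool.Agent.MP_1f1ca1_co.Cert.T11
import Pool.Agent.MP_1f1ca1_co.Cert.C11_0
import Pool.Agent.MP_1f1ca1_co.Cert.C11_1
import Pool.Agent.MP_1f1ca1_co.Cert.C11_2
import Pool.Agent.MP_1f1ca1_co.Cert.C11_3
import Pool.Agent.MP_1f1ca1_co.Cert.C11_4
import Pool.Agent.MP_1f1ca1_co.Cert.C11_5
import Pool.Agent.MP_1f1ca1_co.Cert.C11_6
import Pool.Agent.MP_1f1ca1_co.Cert.C11_7
import Pool.Agent.MP_1f1ca1_co.Cert.C11_8

set_option autoImplicit false
set_option maxRecDepth 1000000
set_option maxHeartbeats 0

namespace Pool.Agent.MP_1f1ca1_co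

theorem parOK11 : ParOK par11 (nat_lit 46) :=
  ⟨by decide, by decide, by decide, by decide, tb11_3_ok, tb11_4_ok, tb11_5_ok, patLib_bad⟩

theorem allRef11 (α : Type) [DecidableEq α] : AllRef α par11 (nat_lit 296) := by
  have h := AllRef.zero (α := α) par11
  replace h := AllRef.step ok11_0 h
  replace h := AllRef.step ok11_21 h
  replace h := AllRef.step ok11_41 h
  replace h := AllRef.step ok11_53 h
  replace h := AllRef.step ok11_54 h
  replace h := AllRef.step ok11_60 h
  replace h := AllRef.step ok11_61 h
  replace h := AllRef.step ok11_63 h
  replace h := AllRef.step ok11_66 h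
  replace h := AllRef.step ok11_70 h
  replace h := AllRef.step ok11_74 h
  replace h := AllRef.step ok11_75 h
  replace h := AllRef.step ok11_97 h
  replace h := AllRef.step ok11_101 h
  replace h := AllRef.step ok11_102 h
  replace h := AllRef.step ok11_105 h
  replace h := AllRef.step ok11_106 h
  replace h := AllRef.step ok11_107 h
  replace h := AllRef.step ok11_108 h
  replace h := AllRef.step ok11_109 h
  replace h := AllRef.step ok11_112 h
  replace h := AllRef.step ok11_113 h
  replace h := AllRef.step ok11_114 h
  replace h := AllRef.step ok11_115 h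
  replace h := AllRef.step ok11_117 h
  replace h := AllRef.step ok11_118 h
  replace h := AllRef.step ok11_119 h
  replace h := AllRef.step ok11_120 h
  replace h := AllRef.step ok11_124 h
  replace h := AllRef.step ok11_127 h
  replace h := AllRef.step ok11_129 h
  replace h := AllRef.step ok11_130 h
  replace h := AllRef.step ok11_131 h
  replace h := AllRef.step ok11_132 h
  replace h := AllRef.step ok11_134 h
  replace h := AllRef.step ok11_135 h
  replace h := AllRef.step ok11_136 h
  replace h := AllRef.step ok11_137 h
  replace h := AllRef.step ok11_139 h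
  replace h := AllRef.step ok11_140 h
  replace h := AllRef.step ok11_142 h
  replace h := AllRef.step ok11_143 h
  replace h := AllRef.step ok11_144 h
  replace h := AllRef.step ok11_145 h
  replace h := AllRef.step ok11_146 h
  replace h := AllRef.step ok11_148 h
  replace h := AllRef.step ok11_149 h
  replace h := AllRef.step ok11_150 h
  replace h := AllRef.step ok11_151 h
  replace h := AllRef.step ok11_152 h
  replace h := AllRef.step ok11_153 h
  replace h := AllRef.step ok11_154 h
  replace h := AllRef.step ok11_155 h
  replace h := AllRef.step ok11_156 h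
  replace h := AllRef.step ok11_157 h
  replace h := AllRef.step ok11_158 h
  replace h := AllRef.step ok11_159 h
  replace h := AllRef.step ok11_160 h
  replace h := AllRef.step ok11_161 h
  replace h := AllRef.step ok11_162 h
  replace h := AllRef.step ok11_163 h
  replace h := AllRef.step ok11_164 h
  replace h := AllRef.step ok11_165 h
  replace h := AllRef.step ok11_166 h
  replace h := AllRef.step ok11_167 h
  replace h := AllRef.step ok11_168 h
  replace h := AllRef.step ok11_169 h
  replace h := AllRef.step ok11_170 h
  replace h := AllRef.step ok11_171 h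
  replace h := AllRef.step ok11_172 h
  replace h := AllRef.step ok11_173 h
  replace h := AllRef.step ok11_174 h
  replace h := AllRef.step ok11_175 h
  replace h := AllRef.step ok11_176 h
  replace h := AllRef.step ok11_192 h
  replace h := AllRef.step ok11_209 h
  replace h := AllRef.step ok11_231 h
  replace h := AllRef.step ok11_243 h
  replace h := AllRef.step ok11_261 h
  replace h := AllRef.step ok11_280 h
  replace h := AllRef.step ok11_295 h
  exact h

theorem eng11 {α : Type} [DecidableEq α] {P : Finset α} {B L : Finset (Finset α)} (G : Geo P B L)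
    (hn : P.card = 11) (h6 : ∀ β ∈ B, β.card ≤ 6) : 2400 < 60 * (B \ L).card :=
  engine (j := 295) parOK11 (allRef11 α) rfl G hn h6

end Pool.Agent.MP_1f1ca1_co
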