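import Pool.Agent.MP_1f1ca1_co.Cert.P12

set_option autoImplicit false
set_option maxRecDepth 1000000
set_option maxHeartbeats 0

namespace Pool.Agent.MP_1f1ca1_co

theorem tb12_3_ok : tabOK (nat_lit 12) (nat_lit 100) (nat_lit 7059) (nat_lit 3) tb12_3 (nat_lit 56) = true := by decide +kernel

theorem tb12_4_ok : tabOK (nat_lit 12) (nat_lit 100) (nat_lit 7059) (nat_lit 4) tb12_4 (nat_lit 56) = true := by decide +kernel

theorem tb12_5_ok : tabOK (nat_lit 12) (nat_lit 100) (nat_lit 7059) (nat_lit 5) tb12_5 (nat_lit 56) = true := by decide +kernel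


end Pool.Agent.MP_1f1ca1_co
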