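import Pool.Agent.MP_1f1ca1_co.Cert.PatsOK
import Pool.Agent.MP_1f1ca1_co.Cert.T12
import Pool.Agent.MP_1f1ca1_co.Cert.C12_0
import Pool.Agent.MP_1f1ca1_co.Cert.C12_1
import Pool.Agent.MP_1f1ca1_co.Cert.C12_2
import Pool.Agent.MP_1f1ca1_co.Cert.C12_3
import Pool.Agent.MP_1f1ca1_co.Cert.C12_4
import Pool.Agent.MP_1f1ca1_co.Cert.C12_5
import Pool.Agent.MP_1f1ca1_co.Cert.C12_6
import Pool.Agent.MP_1f1ca1_co.Cert.C12_7
import Pool.Agent.MP_1f1ca1_co.Cert.C12_8
import Pool.Agent.MP_1f1ca1_co.Cert.C12_9

set_option autoImplicit false
set_option maxRecDepth 1000000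
set_option maxHeartbeats 0

namespace Pool.Agent.MP_1f1ca1_co

theorem parOK12 : ParOK par12 (nat_lit 56) :=
  ⟨by decide, by decide, by decide, by decide, tb12_3_ok, tb12_4_ok, tb12_5_ok, patLib_bad⟩

theorem allRef12 (α : Type) [DecidableEq α] : AllRef α par12 (nat_lit 488) := by
  have h := AllRef.zero (α := α) par12
  replace h := AllRef.step ok12_0 h
  replace h := AllRef.step ok12_22 h
  replace h := AllRef.step ok12_37 h
  replace h := AllRef.step ok12_55 h
  replace h := AllRef.step ok12_69 h
  replace h := AllRef.step ok12_90 h
  replace h := AllRef.step ok12_101 h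
  replace h := AllRef.step ok12_121 h
  replace h := AllRef.step ok12_140 h
  replace h := AllRef.step ok12_150 h
  replace h := AllRef.step ok12_169 h
  replace h := AllRef.step ok12_181 h
  replace h := AllRef.step ok12_197 h
  replace h := AllRef.step ok12_210 h
  replace h := AllRef.step ok12_231 h
  replace h := AllRef.step ok12_236 h
  replace h := AllRef.step ok12_237 h
  replace h := AllRef.step ok12_238 h
  replace h := AllRef.step ok12_239 h
  replace h := AllRef.step ok12_242 h
  replace h := AllRef.step ok12_243 h
  replace h := AllRef.step ok12_244 h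
  replace h := AllRef.step ok12_245 h
  replace h := AllRef.step ok12_246 h
  replace h := AllRef.step ok12_247 h
  replace h := AllRef.step ok12_249 h
  replace h := AllRef.step ok12_250 h
  replace h := AllRef.step ok12_253 h
  replace h := AllRef.step ok12_254 h
  replace h := AllRef.step ok12_255 h
  replace h := AllRef.step ok12_258 h
  replace h := AllRef.step ok12_259 h
  replace h := AllRef.step ok12_260 h
  replace h := AllRef.step ok12_261 h
  replace h := AllRef.step ok12_262 h
  replace h := AllRef.step ok12_263 h
  replace h := AllRef.step ok12_264 h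
  replace h := AllRef.step ok12_265 h
  replace h := AllRef.step ok12_266 h
  replace h := AllRef.step ok12_267 h
  replace h := AllRef.step ok12_272 h
  replace h := AllRef.step ok12_273 h
  replace h := AllRef.step ok12_274 h
  replace h := AllRef.step ok12_276 h
  replace h := AllRef.step ok12_277 h
  replace h := AllRef.step ok12_278 h
  replace h := AllRef.step ok12_281 h
  replace h := AllRef.step ok12_282 h
  replace h := AllRef.step ok12_283 h
  replace h := AllRef.step ok12_284 h
  replace h := AllRef.step ok12_285 h
  replace h := AllRef.step ok12_286 h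
  replace h := AllRef.step ok12_288 h
  replace h := AllRef.step ok12_289 h
  replace h := AllRef.step ok12_290 h
  replace h := AllRef.step ok12_291 h
  replace h := AllRef.step ok12_292 h
  replace h := AllRef.step ok12_293 h
  replace h := AllRef.step ok12_294 h
  replace h := AllRef.step ok12_295 h
  replace h := AllRef.step ok12_296 h
  replace h := AllRef.step ok12_297 h
  replace h := AllRef.step ok12_299 h
  replace h := AllRef.step ok12_300 h
  replace h := AllRef.step ok12_301 h
  replace h := AllRef.step ok12_302 h
  replace h := AllRef.step ok12_303 h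
  replace h := AllRef.step ok12_304 h
  replace h := AllRef.step ok12_305 h
  replace h := AllRef.step ok12_306 h
  replace h := AllRef.step ok12_307 h
  replace h := AllRef.step ok12_308 h
  replace h := AllRef.step ok12_309 h
  replace h := AllRef.step ok12_310 h
  replace h := AllRef.step ok12_312 h
  replace h := AllRef.step ok12_313 h
  replace h := AllRef.step ok12_315 h
  replace h := AllRef.step ok12_324 h
  replace h := AllRef.step ok12_345 h
  replace h := AllRef.step ok12_362 h
  replace h := AllRef.step ok12_368 h
  replace h := AllRef.step ok12_377 h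
  replace h := AllRef.step ok12_394 h
  replace h := AllRef.step ok12_401 h
  replace h := AllRef.step ok12_415 h
  replace h := AllRef.step ok12_421 h
  replace h := AllRef.step ok12_422 h
  replace h := AllRef.step ok12_431 h
  replace h := AllRef.step ok12_449 h
  replace h := AllRef.step ok12_463 h
  replace h := AllRef.step ok12_480 h
  replace h := AllRef.step ok12_487 h
  exact h

theorem eng12 {α : Type} [DecidableEq α] {P : Finset α} {B L : Finset (Finset α)} (G : Geo P B L)
    (hn : P.card = 12) (h6 : ∀ β ∈ B, β.card ≤ 6) : 3000 < 60 * (B \ L).card :=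
  engine (j := 487) parOK12 (allRef12 α) rfl G hn h6

end Pool.Agent.MP_1f1ca1_co
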