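import Pool.Agent.MP_1f1ca1_co.Cert.PatsOK
import Pool.Agent.MP_1f1ca1_co.Cert.T13
import Pool.Agent.MP_1f1ca1_co.Cert.C13_0
import Pool.Agent.MP_1f1ca1_co.Cert.C13_1
import Pool.Agent.MP_1f1ca1_co.Cert.C13_2

set_option autoImplicit false
set_option maxRecDepth 1000000
set_option maxHeartbeats 0

namespace Pool.Agent.MP_1f1ca1_co

theorem parOK13 : ParOK par13 (nat_lit 67) :=
  ⟨by decide, by decide, by decide, by decide, tb13_3_ok, tb13_4_ok, tb13_5_ok, patLib_bad⟩

theorem allRef13 (α : Type) [DecidableEq α] : AllRef α par13 (nat_lit 240) := by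
  have h := AllRef.zero (α := α) par13
  replace h := AllRef.step ok13_0 h
  replace h := AllRef.step ok13_20 h
  replace h := AllRef.step ok13_34 h
  replace h := AllRef.step ok13_47 h
  replace h := AllRef.step ok13_68 h
  replace h := AllRef.step ok13_87 h
  replace h := AllRef.step ok13_92 h
  replace h := AllRef.step ok13_95 h
  replace h := AllRef.step ok13_100 h
  replace h := AllRef.step ok13_111 h
  replace h := AllRef.step ok13_121 h
  replace h := AllRef.step ok13_134 h
  replace h := AllRef.step ok13_151 h
  replace h := AllRef.step ok13_158 h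
  replace h := AllRef.step ok13_169 h
  replace h := AllRef.step ok13_187 h
  replace h := AllRef.step ok13_188 h
  replace h := AllRef.step ok13_196 h
  replace h := AllRef.step ok13_209 h
  replace h := AllRef.step ok13_218 h
  replace h := AllRef.step ok13_232 h
  replace h := AllRef.step ok13_238 h
  replace h := AllRef.step ok13_239 h
  exact h

theorem eng13 {α : Type} [DecidableEq α] {P : Finset α} {B L : Finset (Finset α)} (G : Geo P B L)
    (hn : P.card = 13) (h6 : ∀ β ∈ B, β.card ≤ 6) : 3600 < 60 * (B \ L).card :=
  engine (j := 239) parOK13 (allRef13 α) rfl G hn h6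

end Pool.Agent.MP_1f1ca1_co
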