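import Pool.Agent.MP_1f1ca1_co.Cert.P14

set_option autoImplicit false
set_option maxRecDepth 1000000
set_option maxHeartbeats 0

namespace Pool.Agent.MP_1f1ca1_co

theorem tb14_3_ok : tabOK (nat_lit 14) (nat_lit 120) (nat_lit 10003) (nat_lit 3) tb14_3 (nat_lit 79) = true := by decide +kernel

theorem tb14_4_ok : tabOK (nat_lit 14) (nat_lit 120) (nat_lit 10003) (nat_lit 4) tb14_4 (nat_lit 79) = true := by decide +kernel

theorem tb14_5_ok : tabOK (nat_lit 14) (nat_lit 120) (nat_lit 10003) (nat_lit 5) tb14_5 (nat_lit 79) = true := by decide +kernel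


end Pool.Agent.MP_1f1ca1_co
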