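import Pool.Agent.MP_1f1ca1_co.Cert.PatsOK
import Pool.Agent.MP_1f1ca1_co.Cert.T6
import Pool.Agent.MP_1f1ca1_co.Cert.C6_0

set_option autoImplicit false
set_option maxRecDepth 1000000
set_option maxHeartbeats 0

namespace Pool.Agent.MP_1f1ca1_co

theorem parOK6 : ParOK par6 (nat_lit 11) :=
  ⟨by decide, by decide, by decide, by decide, tb6_3_ok, tb6_4_ok, tb6_5_ok, patLib_bad⟩

theorem allRef6 (α : Type) [DecidableEq α] : AllRef α par6 (nat_lit 5) := by
  have h := AllRef.zero (α := α) par6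
  replace h := AllRef.step ok6_0 h
  exact h

theorem eng6 {α : Type} [DecidableEq α] {P : Finset α} {B L : Finset (Finset α)} (G : Geo P B L)
    (hn : P.card = 6) (h6 : ∀ β ∈ B, β.card ≤ 6) : 420 < 60 * (B \ L).card :=
  engine (j := 4) parOK6 (allRef6 α) rfl G hn h6

end Pool.Agent.MP_1f1ca1_co
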