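import Pool.Agent.MP_1f1ca1_co.Cert.Pats

set_option autoImplicit false
set_option maxRecDepth 1000000
set_option maxHeartbeats 0

namespace Pool.Agent.MP_1f1ca1_co

def tb11_3 : Nat := nat_lit 5276625576208771966742155451378775568092449081450886031426961063116866823939999562110983344449910191095273620479908665492646683120972687911450287954740282971974150693604080008126633455303222208060574586850145108493137337082454747223153562571272409516762072732608408638675371593365910626291179566052852489028102432885003337760106834210918705435285086335506815873305170022516065006815935591429601739473564365011714999303870663945229132971400935173557313633800941602094943369087834773037721547516487819343645246254393026648829260464864207389424872709743313242383400698332863180648244133532814092739567127284958423811485714985562975417976886526286593875854347406344458463415480262825955179864630435722363039626395561712149842227662899538719003967736665830688751577436977730814876461572143653497825364814771286479277221191733862953936271839770302098454595855576943100705760526947193736404953742743741145515174905665697279065260294673102463898086704358366856749383683146928371942914697051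398825172901532459265712398827103964612144216670785081647510982569184893978978583751134120437241239115404166611552952481995254833945171666295927804598844687980086448698747141193731453443965093699553730396153486431243574564004293981708319501353208609136932540561179427208646745699464001983667647742640655619032305529377253981585234165568222595425767978144254430021314530188646745632598831575471154699056507464550421463914514498159519658278718868887464694219152318204196101561545235979109869186042912280755656449060178582913201502448753313125348349880527042494678975172531388980940101411768696531491247025419788861366564855430071585182066311283129454584759072851716256284055977900196413434163700849806243843177206186544992358292080040493108286276471908241279482704860992896781997065060779450737081249350594670244440762428897469040277030445859412521350600017827501334723026982241918992793502907932166037299355084033199523968217180057075537605811191106806179128606839521916100457970293551105423429960401318561354282126801080012857962825021379153358786588495697594811904467025957719722018886667285490741051823168758492783427639779991962802064420714177249652740296947260646784401310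017355868089424693677926598540188961638179574083791169361918800824361067792200901829916254157652744046586695540104861576223654098481927607013524187953068072540787616902354659144435542650802439701737566181950774708960411486094187903687744725081059392825326612428292139005650802393355376997396541730149660258434954640084581250827871861187968687508879339023660343331437140413351195987238722472848690651903635420306437212783776762598340267824631326512371306915276581145288570990085474021832154773548460677662707607005480664396995072790564279908420233371002461990632062371662332948902501016432714780704104546558386211197882733164593994257684285243374576800282189546256385705804529776529652598121312805306777111533073280346267156956624772442115032067763831524783679073020903533287355538211958397339006247546153090965001488731552990254335187637013654784109232519420801814304001427668620315093015743464671532713210500850127431015788396305245102426620439978642776417088282154873248959196452401010114611829259839187936542980683236329379494833299810647719762105400270342729086400225777060781158911960685929438897220181128416281821879380650149900679661471735716705776056726034074191345011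177717821795711276366741496099798527834550244282831386947686967495160317772212776126225442595570115317295993475136443504715744494099913157289690925142054415950983356909123303121706610591315884867851702536271180329410495412411175527865406276461146915233274309512082732286658765730806452449677617958979616477210480862760280909975993043533089179577669656851871724552984249461972977288056929887953541455267075740523546952978780316402391438596227858654045006589931985358625883112128861988292312204874643938830591045377148351070179308923662658873366499440948146160372325016299563695463499665529062825181944715890807768450629628422334419888561574218595113419169306313154570067568184124980682954029748442094178574693551367907075063189390519250891396294887106792341892925891425310725476221822584351808129134964879291266856987588839896716151590852350168330282451375206381372783408697571617476660719244630159738500403457084888867399334756713806248320514217828607113875959006628181212205259757423538329437113201576562760829263921027945121924118897852062850459929353765830462737182016981617195107436956715102244013121697538928114071536490901455200795654911542957349177555131875786987048530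948654621271107807036514405443258079689218897709469119463711512308227673387751052484542281622825427760362492351840889114421021229368549044373072148855942969099446473265700841535160415889512750484591140958851211619474799326606334062111888878493173431866069439071995263517023264881395303315269143215578489608832657736827243383783902829183514168325473035401032277723142438116693178822461401806972871882116281851824800421441476543711934792629048372332829595959490989119840374732852365070524529757451777001811316387954242987221588714641795118918140175204176007836554828864199377316633715809723232838205541473218302268849013492612138691678524303640542426017710199912317889578277588652870829856978129427739585923638228119914379536278049231922444043654270179276844677842053501860361471509946230556264664145602261051616919877136198635070072112666942865954764290154617110959659585830195567344788467875398674767505449744590319034461470073502964397318403269602008689680490581924562111699969340497692044416334588259222435006094164777495842255632767607179566550983649648809093834421310783782331931319766455761276147648579699383203384071483928290688864259142525404397842258937238206804773788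144621696332371021343635207917147936941784532490307301043803360804940447617043969072064548555969874707553726701277574453514701168248957768253404493447233172805293192218290333505749115066470421774499409931937100867950371840262643177754341055089346121273913423614582067011931449790453671638066421980240565779222399617516605812661342264098071553195201009299980306751324552084126737322583217847628987321440426807920353286579234007759733046919292494385374755763309854864357908602174816155195122419986912077267084197807275338120410582513835336459923411135160409692939459433366389143222858082176988517731073341852074617412913314108955229835568675129646313303526879073275515173249775159093886649596766651083647790323319676050268057605383132466306854876205635823663000977886172471621165271519103895959756078847630292471685468176941734616508996124591259584662807405090829158574361921487686244785714956824035961468106189408731880537471975918252063431343964530939444273516287059927593101513544170802657458998608282567142259746078090108857591794451099782124128916808180098882829539394006246594045046712697104888549055436099863985872080298331942310260566932359871284419088196366682925513827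019518395177720003726078019982067913059676014711266394651548724516431969976250803858211901988516828579353510293181916413768842727347430953788477801858697617336248908208900607472254807257827280053086267738821377804398912761435181399930111212706379287243358491492422911052282883449506070675070791710869651686362558954969254256216975532604318982092486532688873591412803815621254375189568766844584478875246680751631591799558497910645303578243646497299462976635401270682143306232960983102200023536306950128192848332698978752971330411833628145016922540469823540757960691527456006130457560886970829101687923650047131489984041220706479547666868237977734999750519595701898783174281713818653268497213138501637342212661630233166256231374960021965175042612190744446701275317005362446328964342715860872024666911060319473423973419903762214273568436552713280559405562843293339048525601460510054323251768441159746009912517962428619028326892598526103916728084397640239766119839128177950394314958023765210826719391578894821701426877629691455415873575440943132931259804036689804029813011541628292715783380657659376619888481418907857895848772050438568245755367143009372532162094365524710768293554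279039131459102713954332506158007728044378740516721495505463783296549682377982541936748964435261225986096045884611270528380595249416085681490580781897937689432621018190532576162884348403809281338193931050834825732809528623515966374477392039457228812248507867806098380983357243330038476400726150144297292605403748129932359864488818411307980517459186162018772747607942578406063814757032125440391649469144594371837920313067338961819823591650023170738672930046671422208760252952994389131390322897797152669664787569766141822430383608609819888100819149096894473265944827173099056781795191202925338481284712083824611254880339018831780488792705266191197155266959840295474205083056671440965785015537932747254966043908786015523525752268749643754834957400280207110175262490480021451366341945859705844782108203839182311827563942236708384876500789362231392422914737568910248242096390979597624179494342313457457666162554872192282908255662940020459422107575603255444090557611588781143285781523891531588133111965532033733617231054917043628527601665641043642172927015072178722781114905993248283667741017714770054137527358189773949967508027618720529300187288326502610340101926844754547648357847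256416912088564047162927804140834442634127391134574767691720570855008746091457107165403224268327970078786395243151080236258418879550792345251107914956626211201723392525437643306778155233500597535393670249755454618664574047034246548638673545024045054730302511089889469528401917957114652774765868692821298529670135221680715885656561685434106400431445956707129245779771346448017104573739699988518718552760534582772909062942018446643300671310992285095600677586007055713381422973686041318025172903140002605454133632489636666270277850003553204914418703646303204379572347361974063520735686220964541933955559647766740700499024814333967017428692069879421889266057512314425231992701904276466353614397575259318154805324923298685226346996484423576836460231874657680689722327765766562457505185628002485738684543378242011743458569753096824289675510718959257862393435020559906646853360882137072618272334799516480625008186672042735659655719867543036039652167505818545627716788390567501600260288625333276178427833632364300222651071590663846854717419430309053215636636278274828478415083452738511614902813613154848729063249878228925082891622525876341910592602194169526912253561396762335909026718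361057612410379796714210965414525586893440790196591245878832569082738679664852704197826541428176035341464180674262657451524479679937198683039177766247002618470771188844215908552897534329045648856679122982616142562366461674169108756537361725032371069962990381632068407361479230779046412130064321779910973376504783629254858731242589250257553499017009682628205239514290402458515155594293788372867534674622184492661751703080848401880249257008743498553776329530158173074957721415130658044125397137574301185171577783971196155910644430995698847626814320125864558774061497181871832936555156338789472821934102522550291330745082809189107632273059873096313752320738319945585550780984478175702238973584524712911956995176038472895457889368941344337801755933940808401114852845135709144263498820974427596857324691392287533079606633564994313266325728942369690502339143182135122916687786460016077776991113465547662460487772247786503155813419044144789119972107944122558595353478643759379912424425277122782204242725526325011021623121181058742849825319440499131551918935098696882074129432963387985980063209925938969715854566346788362275620280315660207159752837991674170100846628744983952810121586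931209180868804606099736415873686384840809622286923873846727466475431591065074453818126273830210066193751836680053916468487514949800324106589164819383415588417442823787189304381512669871671518461802941765180340384368157924460252463460734929193908703034045846346469809644959554876983089359227314095904903349655205394690480643746611696128523320559995621867666645965895082907279633063860606153957181798489097507594949923702074283264416430390797417301720671878633669998094634914318699705347998781098013788351078104214406623337000985152725044464279626774562336735303242386005684323817953617320692428206898657780457914168146354634169481141644414419357275779733384422288500303961609699598917670275710347381967926053005737247415066007670135998537755994314403752492246834207834636009174566349598536002099641826054853779069959075823753694966565406416087601290161313347965788473260949965643122144289135669546028707698108921766841710579319976632230338001465887233599984789469637375894352011004011582482858705799552977558958216227851843471979618644519367012459726732090484629380360628081154875669348056393799677934296671577333911301238306570347578452704341201968804181048131636710697379671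050439730776608739072547133092493303901156116121060481064702412734691311215037978927910882239258353539711153037200446538747190628364754518755709384978418355612490176196081033624101904853083952541548058344247423746723397562890538314100795687683220017844913361197941085063444525921120223757875332083400046152959281262488058154761088280178797407688547510409491431193957907742292328789987043576208434608978887283248476098335862076832389913379542616806290022663204698248376685434559349615356063882660239967929419985636304406229477518703562241122512817164187331816743792557785517281244986440930089925004974960262839389744713740885904234452789474340303117331257376588007043515123442010405399743038725523097284518099778241658955003410377990235903700802006687111557847185272882357341422608792663013771467084984717174090027366467356963769846487852773202325596658649950565301236715465852014961683548840403371005237652794075018098285029027927635311653668547142378370634218129167837562497605741966944656098608305468870083302437395574065273107800383045460449372864780755632511128268110117859199872401574747016233720362611702069185978352456609469514193524944852811253005671116549902660640383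455118492080562866366360408422596155427120562932403240720234835834267043023555541855486329297749733761223711717875140379682106945026101311182528556560369358363479673863180948367051290218658228995587481355309261664618983174030443841750148577022705516078215137476325493837494011412322323763195975539117644711350863004573175621441393886870527074608094218870123316494632671690667552534552976699580420058810928556240852760754121669745557122610547044315316020379438474744412944211574917956809476428557707023702085156449797593587763820918570558687645206852935354452091569765286543936523810374060157790220936141847381135844645285105792024446206209119208139068553272828954889271476141118625041138494319167725137407086725278998357869773810723779938797954373100999100518020769570866740407661765926878829939312359825640034756106026320873609116069098433290758212292013380138909061795782427595097668881700093528177143738137827846843205270608125339709235748586779103918908954839061774968563795887313781276545289195774577226383850608693376095507616501769443068854269042290922375549704293061086119461299622348188448592196007210247372043051103343964609393848381062036573887733963055345667542688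171817932550436154115832363849377195697408455230508372039488544173282753308190231502865886529460482363657521767619139929754804825063928683803904131800388138526159065918524103046074696708928061590277332010150256584991513082004483025546926246887842255941610362559842450262201633574867728880380130494837340960085436594186569319692252922191521980903510084871311751985959379460944736868400757745669087034253999448419707292284965588180719627679552295023436481324048732952754902282653686108632964411856277272143555689738858189841689928635246894888633547458823579651067845542188931882704117556168362943602890803072603010768036415551410489865846544653221738645798421180986847895014149472249807378664593573084512760916189960187759044329233481652725344399697261057137350002673314826634020903549711782078073600112627495459588258977717886542016289865282787214306436410175500028043831255119373487379313618309879728814407871146614938856485954611020208132268346944804997251231063430235517314488886066022529446037179039655815812570263943294436583489751928351335472601996015931264566406422292017139095206613849212748312291506595306596813649421969954100268660372202766429075007158394576579641187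837814947928023773114363000620649673993071985375415136764774259517885490966578770981699388483488915689506671102550965540187917783763157655384528380634401929175516041172203862846450574679047631293201947577888496347705839362840964759486179208844198777839202420780876596164821151177652656928151313384234110202592872866965403306386667637727675884968276538944521353305050124568179263077321294911794883881003023392881251697814470113343870897659554215469438207534426239004892124465729415326037850476940083720790791160780846809589551051850426184041424858301968786007053202060995453127314068297145093250288661853969738454642594378428369509107939130929253076001815509781511465869085214753231599896206809304087204704090845497302985436143420664571621240038003139980588502150180920258383430674998801648945402038397493056337193269888582979896148761823004732699673819639782656714277819332370661235667357502316677186104590167499822568192135993143566476478152836644046893643986653826021950884047690241201624276244943414725691101748736805311449776536181908378141554258281058319922118132831599200225238168624602207635642262806252378896995376268827723369057050961868773664621010615001621766624008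5912901564524713398987380027575974773506293694983653804633706181868389453622190925272818474071871489620894650361121418270750525411005038086422959754104720688355482434803595212113192372994840916539776312633924273488575790151001381497867329143696460724596538133680745522414668639123711277442125375863943084513771669189986961774603078586553329786635381662051558507171286128933772678215011086738857366420729996996824326595768650850349129473716186246107365304473445000870650815369283813224627127492542533604874001171386952493839765146195270557487653164164531659647613974004841411582678755393661892500719459086902465458778528449533441791399360647337872863919110972841216146839980765599009502540054566914907708662319925144458324179493866191627225710381980937384576825112484637846651003564726627130195179841280855052213364884687026048262720751989776224998769080698413455330230207354189848807972072412735586366519505109648137750633127221822405632725672035237938341164670141616945789319071469564797277235846025973031361883415150111071468227306479391637419912472065766107837359030429473248127034495231194434251788838116638055854275248647539865709800545570696953225534538108330981664491390389392902556412805652170873536812095018189879726205655040024153977705160671794099678804571863203593003202313418970349147212550608153933940859303098392019474048060743007447780863261542005715299187788297266429180642344207991391061311447574064807884875002538468731444434532530146666872177409367491818088522000526583931807229912187728478105291545772480100787340371671609977037919919803617483019582751325095771624984374522686368563164096776648592921623635440149950839200017204610426604014799081759416890756955741100037917983525354032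

def tb11_4 : Nat := nat_lit 527662557620877196674215545137877556809244908145088603142696106311686682393999956211098334444991019109527362047990866549264668312097268791145028795474028297197415069360408000812663345530322220806057458685014510849313733708245474722315356257127240951676207273260840863867537159336591062629117956605285248902810243288500333776010683421091870543528508633550681587330517002251606500681593559142960173947356436501171499930387066394522913297140093517355731363380094160209494336908783477303772154751648781934364524625439302664882926046486420738942487270974331324238340069833286318064824413353281409273956712728495842381148571498556297541797688652628659387585434740634445846341548026282595517986463043572236303962639556171214984222766289953871900396773666583068875157743697773081487646157214365349782536481477128647927722119173386295393627183977030209845459585557694310070576052694719373640495374274374114551517490566569727906526029467310246389808670435836685674938368314692837194291469705139882517290153245926571239882710396461214421667078508164751098256918489397897858375113412043724123911540416661155295248199525483394517166629592780459884468798008644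869874714119373145344396509369955373039615348643124357456400429398170831950135320860913693254056117942720864674569946400198366764774264065561903230552937725398158523416556822259542576797814425443002131453018864674563259883157547115469905650746455042146391451449815951965827871886888746469421915231820419610156154523597910986918604291228075565644906017858291320150244875331312534834988052704249467897517253138898094010141176869653149124702541978886136656485543007158518206631128312945458475907285171625628405597790019641343416370084980624384317720618654499235829208004049310828627647190824127948270486099289678199706506077945073708124935059467024444076242889746904027703044585941252135060001782750133472302698224191899279350290793216603729935508403319952396821718005707553760581119110680617912860683952191610045797029355110542342996040131856135428212680108001285796282502137915335878658849569759481190446702595771972201888666728549074105182316875849278342763977999196280206442071417724965274029694726064678440131001735586808942469367792659854018895955885596057859283677759490780663615401280083709130307254405012355351082322787948831649559358410509519161154194004093055637697323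755564680042343190694004247167562010129072284307132890132105868819587877947649279033106709950820324661579357232633458521746116681889193089090085530171048287053069756088164131892267424285973291875592993809638374210717587927867445723192909653338062159793033549306199976708701400536847105666620508162395098392929387784499446077077688013599899464244134096368744355196657984189413805049276366684534467411406662439683912487013752279983692506447781829915364127333679006448681069225451818102355115174450510064584534395088843942555590855969474359613697226687244993002820026816937993500008068227574920969001269793963383325276291519571279704267562611937864683675545716828686451601789800066971353036593737776691547609343591583373809841765204477346628017891411808752920099836682377014088357625327333133588533812187994377376470476542277671272282405089317580677179645370461141454746782374942144383495968678730612155100288998060587294716979735201135089492901271969021275641814633499421565722374147079216506237611378279846715629215967769172218561903679871717785571499858580224029080157816352894164387225329287288782552225694437397355090843334430968397654200102512680033311016389044516685001246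925067807203028955859884249563960777658111625657237867549814425648761906866538359766257890262451569711949579325897566928754814470941271434913931395895249942813006168684831287210749995968797199193572822343478167312555976913436220967245968518622212922003183749588194132388967567543210633003416634311121258561039325300479865716480376233429570986570138043602498413491507594984379404956678518473054555766291928083878544288744971517046878856894245137722088359094340336613139664446147063617597170167923362774278627387447910164554690037388071754137687798574610926125133857500072706026560521136238274849161871710087857687275312706575437314925015040813467560161376452849894614390753661124972576678589490160567687929573499773707536483680639062285708102796914358925548396157886234235925989917592610931340153444426748760454123551115271225419964984906554712279905627321729641181792188475771096331167174451978539498720538118586404078427000002842883690015035459491706709571506828070229174204318950212932354238396247018088964213018340764597623437393508179043841812021355986935284017624765481528384155662459025274480027472399788651727143028711576689613325768766311406294114791324529130247585793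670367111303902081997447958263181731242674627870861789801832071699998624803186435073041762702877759954957026643547765128440752159036416900549840430503520816339388487226648294740684989977038189559057428788262859057642089934258342349130529749395274439369205648704558084057767685552061100147598220724529728184588069796556974427580324752475061135887693531707393177637015215362283682702214815064740574920703773751082484715229882607695345632002364938347523784448738686148923594850562760202966493320650830166280259698512125664244078884548719520645263495404854278715496434637018802884624127920698292432374151320094606613859409149697259066356533256257832136876939437275796777180149754368564779193913372250599270573486815770476195846481261399818922343602956504788243615187745280662523359323131040374939237533863314692858938556650636429293385305410763309459108575343556663113331958657871540766084793710931474937469074641892420085184755228813499021851701525534313384485049501675994097336814934012394296445515139548624354814640123163249701453643466938214487384217391006482748941106364301824958191371239203773070359863826106387602720556118943093036641080540270114850052705752783488304582288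897186385601702313874071631963064823335858470048942460225839072046693973998433101004752906148166655174746288265421464906789874932140803178825408340642316318666451459412076046658008205290089392803134498886133456787839060348639724130083109085671750136986196578336219187298623414233930801814112686447780963678927166817905313002935981939967686268621839398080478873761848351860530707870183969366180017828805170328057408631215764345223937992454381574712613217537464796158744820650054751109723182384812636782156448254064641789618375630159131412814378497837402083231821880715542082435059835427604458395313169514679706121984098382554321019970920821668106810621187519511552851212819752937474685049673308003521146060088766767826823481113839282573517336442699702232651651403083686680286994358685051791055674261203740887373483529215474458470408203371486017492155514730490065774565632509986827685045155573373102023581330723006203957198985394684707188511306663304622601505161006017627123489462345850134127399745894190401947754212756300573428932580820031897368400678073505273492700593313983271628918623858146450712845829800663797903553866164046982539312458354806076287062045826867095339338862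641209932281875324985661187763854095945308959371481591254103898416432669551922072596328193791280087654670285188664899098921386249301196808781413012748187505454958039264130727839200547883871282216794973886351073938682840211964609125838951118141248377311679286799727729218576853152331417703390935078808604403827028122081207977395843239734758219032654739795637636966424986332848072624807112551276248701326918982614582757935589043699033966708474782163469558229018893058602187144124175438594576636323913572646726115688750607161851238362116570453886725542537343333250725206513936676309933129755586512186708033330273202925084078353013937353222472489314182457267638207728432999866200802005407941562591097162659812240676683640227541322010154343765745587157589722315610338679940062331317060605550554902773538194145823564534937037777056002400295617913746236093629976864628890073648239884132049630499398320133934321652340115836190902033245132687409747270979394707445978190975650742667876408507450404074152195147474360830886191274267472486398543359249082950325712082439184565083008600054896636302594566183158260040047045356003065202223878435847695497980940787576153810880617370651816034042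252957154726764352466630623056858790048195294464393160746592951017540253083287338817249113966994353331537780846063241581461881097262332287667177149371446356708115215822060617246627514855098454524586863000097406905271690509123468389889505246034078182788106336636294913079187351664759398565344188675978411214258402403450652484010976503899181247308060070080204121436388150142887565047573533752902898488891479082142085978655285198168321617699045604829665239461421292055567819954264272702987337813748406578809953245670882678247709803038772256708251850472003360637945503481779935804454768710877722226886004403255689861625678167126065247226724908771980326877149898425037737806138594670481434405963609479503014876767452028637938387395444460956921845084368460651203812148979681516564216311989530421797040290313264587479427103984874442944665966821363912008460873929098704404355549932745090772719480627562144815674136711072465673259481141289065030306953563415563475777386416550640733389238608013356590479870904001766377408318903580359076215701584286000608647181220810790125680910515426256288592589902429694030695327646009658154377110516541718551091074838317722331616899338079054298031224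021201594198952406484828910850104742777976680517021874409993333251179301561487112905822742292065786231252607693957735320987118002683069676759683790247354372006656320905077175582959477257847772691669417822426492904322670537179581280419514356141655399323940105107608500450933906750164894327131782208219592085338961281538703021594439055734529627526328776299924136594785300561397639967619608098501959599999084069849396763645715283409101512305177758499547711466149810123367480160359264302352927077553436839970968435691686538377615305784486502329884039212483873386047436668682124757285850028732855086960598388179955510221306728274141755684727509727055052206023945508999527424978031108625803810198536431002248906586511831672424530349512958957400324482912784807530871004960303685894319398730611633756982302799415364711885911940271835926537394870974583923546173007378495979761034501306775516364897996154104707981248134634408083083695570545016481022933797514869248699552750642788694713839202953455975668427277131333108159655590563566607216052102199764795255958899782170608598559499616728672411387170250319980484241196132886452155514826713243771295157515257421036168122175869152935157595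924629458760605007560925388647520805880318453775958975776738577899813131517469220043532936770320898018437039394307665560115138359001556930483959830667246439331067218714665900949969926276522721928449380450804798596043924163932207707441466505065218646554457450580753600067252296006610604864233941008893577898494612000265930241453668842951606851378053675585098541558664280853590241420347904251510326098022000218623435647144330684083592634255368093839205295673417142769041155232867211568116971397311999866000820573233237798986256314450271262929582838279111204329117689250860661318618319868592116840031004882446554588692195046824547208506157723096381420391180258583766473909788172556757424552225484539761975257014921305042141643769942402205957625509498344008056077313304723044036873126478851242420285889824746401343201655332410399768347802958665623666636493009388228163730513323968624154825073346902383320758340470857796781071741721984124368486125216967014865659009823436826093844880809319117343947629270603098453575188767745477741398654815409981173747370710239734337955059975674796606035288437441470261576491875325029575130935478888569792040224465626348302911992889190154091643034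386427833505939656462724809384014046624717065176141622376708051805018310731399172614491231092619257843201516670025207719858491891253960647322315038355838891141355432434863888594601944071617494642169939534498422470779285520610568319428679675463194119415392171574073008505768218854867328861068834382003070776680465555273148202945003573464175014580004825325169055136835700367050861531119311569049994325199418514901511206670512675352957480949199732942415411335824462888190981833460294515405021054678917286635000627021687529060947847549034406678328386159945787414127222282272857191914793811715688070651251532976531298704959185961658874963599421543635321585760684033642048796778899464833771969992676364467470341389044247301822108018089522398099654902278476828853070013178217294938491015027662356410928463398998879760589787761129368587280605391530517439543199999906317571954021008308298518130992791782444056862667118005473078677537186072552527992060616025832761182564176994801031099779889007221618504080785337834821373003920107977025613740664264115286187165460920563041219568553812320013413601361386964223895312586796476885763771960236327394646896569990551601903497878050033334881698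280750883024806286996976689639821139632137244854507577525838649434657249318821785048098069409507573728375564381225807006868364898566619355982066173912553780800117764055594500912693585549127805822441775132470721221166549779826632925812851047780053140809745435098800529509654072778436215026650350239884807827879175714881530370198556525987919457764253654901123933317160342835569002400191345765279601732426963799569310848226897230188382680690780658656414221561412023506322042793496498448356194099341512085366851040756526694136990185254400098455164946300439608662954570580625221866680001010717569903029660034434973026269766975131096122065880203872355010728865672998851478331891224451164175421866338861606633758885628284014107674199207110409259416612562741771349479270837923050972159573595847840614206095270651451104817285406151643741231528471407570936728263438678115413802334517077904333971093418889398367088349736045338574950415084310334366277176256171840234571758045950542292545552137822689679329706260687480932244134719253881303244456499475162581659698083444724303861572590017327996253282118558428750796888014897506394254460770888736111600922423340083334919609009293619985576244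720137742721298392969339636776708228608274151897158342897829476914334673957502993190429987032240859865769956869634650321972735725419814228740808319635503684684688328909504390815410457467380335535624627874359817163427648273522324357108984687222235322436178972490002402539172563144039174287061175379420429608524665675482146425396149103801232377898801801062479287292510950404817742317514994195458720324067452388481792157181274846455311304515557537292667264602353546382858477891970435955025477370399967342727552080654539519239584664143917279221844100195112212147107734012299482415975721126520180726633017471635660355916472744775230593291868388585810057996001224240054639282998935549530937325849161198752425523855285062341690618596031087945112324627957061644827088457575141145003281876928759354444108468011981471015969346837494175251757198858619777999935405266640569851737321849233234236893862681097037749791720369820643579780191730654379839788283937257904802607010239216476630646254245068872360043149371474323930131717521224586694715726257110878333215591501949054078219972956201404810443616382024181032804007236023619846440631444020678827939519075477137547208930112429236255466594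947673400228876396448571922386113674460791188966689700915479649663029029710170633440380434511022643514272921601795208489686930086896521141761725089803143561329253854258365610860985574501847317669341731797187385138440689577826475189475097135782156846383053939009428743473460228236049983703235232161576366551519147695651172657153238739114434235963505970782523249864450899382307302901588799460584274545330314223695635167589691728806585644070989777701357953493577079709702817081095016804189857164500780526560388165741772844961126581642476192024253269882435003578407748253531996988906482983805518302297736995744882099996543357957179344764577695625565101932587670966404792958532862816267549764464968320915972155196145695130857446883617087213503627762504704111969478474882914599788300070559677707319399595537028040899245221507424314893089489310278232960843208400634922850320323639119334399265319223192595002478637268364626692968893721242304170459305729105701917739421355396470925283558543018206597664727561129469562533136354490299824206621394710765236561092237151199338803925802259729937964484030253261208842689236388814746441131104410230518203811231175008721393032855802210446984125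949314626588936630303423375044863262670631379895051084795786129295588813730605289993206719966723373781067507780496287664852799264426066516012435445492728425603965381221311311965437884639591876815714657161012268118300338747779147744732398130063806584712236422078258032699921273892135957271879039161493477572051507820608309549288573888315384902556201322444344542492360034500615458893746264524860473599341814396684946106452751649299412373746672725773665648942338020596360326858937682472104458902400554720490260135923839735946463636952917397591435420673407887490587490174899661925153359337148455212270348892766088235613477408353854986796782772708979323279782591047392844444102554955477067598682683819981994021756192815347920448126280770021743762304502780581284169779680485066866644085206133319923598811548155242407308975149003634771109537120257097141647320323889411743750145541234930551269455274236970337638513249868394139564563277593031114302380520622050194164540240653230252942979857444794602113061948145308591867701354885425299664917138685224106839125569764482850429644633785034755382155528565130952996060567230908194663308959577496461138790834358230199840516860545952084886166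42441027859188003935842548748600712576734933408370584651025614304643440113532059673388590657022964246315319348087741609878231476173306157618256797436107958942061271920922485247090136124911252828960091826540659287176712840650137251993164195600920431371685673182987572490155769422284861685801837958982961992813999040608521660818340527559641154325031400948013746153094168433178841714627217351667705966677302311740701696660311774386525469161366824682536338856894573174298384578926040833029334969337106951522029586534837458947320081142375552168706136371658961690420957544976569065756368855489060197729881062937770996502216477892948605011373814302725415506486836796818510093731264538599553400059526581003478281729445946208636259891037790974580987989122744625350739744111260863914252068879150425654278934338593027979396069875712227045369828250864471899887010476077239995952680765380872048462442567533582591067281185908850122105844459456758522687866601609247812588624878426664075437875099438160712543306308713708107635291877001996015763173285328123265550637915825804194635818419642632232035701739157715571307085882767965179941936228359423111861234094957089605760092198146769362895328741772751162170045307147374837704965533049500173939898727801592184369324370796137582455037219984359481680626861729970140234225767263714131289239066729538679823793306791165601409648274595058518205431502671483555807058545642701552629178381606767261426594885146334310138194648807189339270898360614010924818243825167888920280002630540163562850600618884817549956145723511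

def tb11_5 : Nat := nat_lit 527662557620877196674215545137877556809244908145088603142696106311686682393999956211098334444991019109527362047990866549264668312097268791145028795474028297197415069360408000812663345530322220806057458685014510849313733708245474722315356257127240951676207273260840863867537159336591062629117956605285248902810243288500333776010683421091870543528508633550681587330517002251606500681593559142960173947356436501171499930387066394522913297140093517355731363380094160209494336908783477303772154751648781934364524625439302664882926046486420738942487270974331324238340069833286318064824413353281409273956712728495842381148571498556297541797688652628659387585434740634445846341548026282595517986463043572236303962639556171214984222766289953871900396773666583068875157743697773081487646157214365349782536481477128647927722119173386295393627183977030209845459585557694310070576052694719373640495374274374114551517490566569727906526029467310246389808670435836685674938368314692837194291469705139882517290153245926571239882710396461214421667078508164751098256918489397897858375113412043724123911540416661155295248199525483394517166629592780459884468798008644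869874714119373145344396509369955373039615348643124357456400429398170831950135320860913693254056117942720864674569946400198366764774264065561903230552937725398158523416556822259542576797814425443002131453018864674563259883157547115469905650746455042146391451449815951965827871886888746469421915231820419610156154523597910986918604291228075565644906017858291320150244875331312534834988052704249467897517253138898094010141176869653149124702541978886136656485543007158518206631128312945458475907285171625628405597790019641343416370084980624384317720618654499235829208004049310828627647190824127948270486099289678199706506077945073708124935059467024444076242889746904027703044585941252135060001782750133472302698224191899279350290793216603729935508403319952396821718005707553760581119110680617912860683952191610045797029355110542342996040131856135428212680108001285796282502137915335878658849569759481190446702595771972201888666728549074105182316875849278342763977999196280206442071417724965274029694726064678440131001735586808942469367792659854018895955885596057859283677759490780663615401280083709130307254405012355351082322787948831649559358410509519161154194004093055637697323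755564680042343190694004247167562010129072284307132890132105868819587877947649279033106709950820324661579357232633458521746116681889193089090085530171048287053069756088164131892267424285973291875592993809638374210717587927867445723192909653338062159793033549306199976708701400536847105666620508162395098392929387784499446077077688013599899464244134096368744355196657984189413805049276366684534467411406662439683912487013752279983692506447781829915364127333679006448681069225451818102355115174450510064584534395088843942555590855969474359613697226687244993002820026816937993500008068227574920969001269793963383325276291519571279704267562611937864683675545716828686451601789800066971353036593737776691547609343591583373809841765204477346628017891411808752920099836682377014088357625327333133588533812187994377376470476542277671272282405089317580677179645370461141454746782374942144383495968678730612155100288998060587294716979735201135089492901271969021275641814633499421565722374147079216506237611378279846715629215967769172218561903679871717785571499858580224029080157816352894164387225329287288782552225694437397355090843334430968397654200102512680033311016389044516685001246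925067807203028955859884249563960777658111625657237867549814425648761906866538359766257890262451569711949579325897566928754814470941271434913931395895249942813006168684831287210749995968797199193572822343478167312555976913436220967245968518622212922003183749588194132388967567543210633003416634311121258561039325300479865716480376233429570986570138043602498413491507594984379404956678518303639031075152903208943222061441627989445525099009025062660254536997389699068066743351900187746234833410361126681454607083177755674871595258688939335475105357068098969117537167703152410703484407514992916398507525569483545312552867729732744690723303179375681920584477376515320513454240349234593586727423758731630837029711465559028752008959609676852530783999108611684426758288174112265930758609273912771073800685937162255500443519218956789346476576678616983446272133180079532528013232441556045166310550444775674956544245858785512174189773729570856106555275115363225286983475543524256256115829837794661579296765996724862248487764135594516135568925261648629730620843253257971469209282284036691880056922770295111200376893574724778007231533049332034053243485262507087188737383002867224558803566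521864038069793403476359138919324198126596155435143528314616945928467749617041755256142073078189410193761528405295241979973424140135172712102916713225442216480091981201486570619524460594455221842133004447517588390221071044143748500671135432072127029439621221582713613598518576964570362467250459981483758393738349366598188805556117080318822802667039555635463428824084541821144619280216993435683499870666985265162284884549427900061506429306350339143037483852558330007304504466354779501630708575105219743840901289763136006330769916333231427591738171158381883127654129242599714268829380687454485050989635214258305439154965444548634355053497419122152763890943951460143251192596061170324889211923478185731825429550570674630688871309619503960701802190803669668972464457059081752905475228625432720675272510843929557117853443991809638901717716452854241420055679353761712335713491753883337298052924987908193193092436831173231259962776671683577322455544961189555718364916537055722060439840772324210728205072969627981640677401055049822915800670053264969296762935151298176654204789462830892209112225716226468644777390706247376184363935897694768254285028061810552929779178574521313304594786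327815547948372346523418735092979065110457864523440171693973785559403074295282347315269005246213984173670836149175561557328428414142694898802413220359764997142307776611751716255154284159754614383292716421858810611622246950727752408631832399282737519420788910963489769206756318567647995036659528998357975465652440390370203360152473310844031815415523882871314364362627111369624434273934707250678743993705481225647638053934990065458449703914737113226737078851205394985783534208759637842979590840428485301939865752861769233975355571118868601967803616786077393285750798066949961570759107042086928273042401329218792862410117849356506889205735536411968242429151969855234268535711723062380278433862637832571292250207701614159253360946358586726462004596980706080546959106687163739629906781481575960123110235422131779678192882909212935866709491753001520019785968205796020507060104936435252659448305164864415868820919939643026655333695806280921769154042092977956058290628375279682522067306211221641125504469604323657012671536582377874779932758307467073122393050899381519888238938178962173788798694383002226884663327988157654007630917001507002339987907754950305127705903478750255235485771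753855746418024875520966293193668616236745291191351419194051195360163802304479397288792937536906873601012325453861325219371857118317285911644000596082849961317317127092182524178333762457345573017139341780210635914137469481301661588509503277081979088053619639529446957942326219523062746573895634376944126761045978531124394511775698101785480890716150821834534983409442520688086267067687420896189847575759421447513110216912958060102216106665551243077391386666678689583384947114059099557719723364253644103911461389634367874897705675323527882483229604447558236668265873166847711545697172185189261288842442320599405123502406215900118384551016016889498086366884364917671778909493857902879182758524950102574470365567552680853293449153275421494553769863743685787849282323942726439749027031173358079968538657190491594840926453622749293938158581279223543797383412418873137965215197561005849935806757964596458951456252598456257148638792779967810619335490499516561019960330156458104419923855980384596833721061599232438947135296953415352522087668687039304501448440059979204680152783003720183029740139964290826544490323970487790384292395140431810724850989418744605828650547458817888023493991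463170942555481623770536734161463438839535055426033287264761769120495072734746207806904953711091099553449236865929539706925253074810349042481384272121019267297433823297430915868968587822121122500175489112439633115250021400226286017739063265483246049198626856207474697294335069860520872463729970045933070737229573640137749628538131564026953209588117587013860341113455963743728456982723293189408991817901268142950129019959731621791894641903017589355595731926396936905483934261179061161109043703571519068843309099265292508940718898738928875547871792704956699746064568769580982844898266761792618769701570478621366901353544409541272440729717508440542627891624542365550900876304191594995077774494258047506099126027915909554398903508332506454590195467854558657227556902490081891609935047635915830161057381356444015091656271857481032141592525102709128640518727550094716738266305323146050756842681913424463083391419397517257422953163299355972950067725190155008968032126627166385146105767874327129849536899569395969669433945020819889102204130844889104214948898148804721917977295679507965336908229131702306061907625440924248894176978848763603417661054237454214324872341417568427476107667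181098393163118380807437102052572970179752237646723043749069478731557551697642869318609727736103963141111522643900212410898827602927073638464720361739449742824421700036418389372885603968343697933220397455302142506269938722141993345344236157293508397560495421197110646272207034492901539647894922401037689408695092489812353387621339503562361332517021728081033404272217263378205993268761111880152049946063307906342418799336834058099749540630102979446088963232753251887798964220009876303431675607592063035276819776436979339551165338578804894308883629960351603851960242502708264442186853900601447744275679263794328223960048614412525913480423385306370141835934880311546871678858579096528616754505567761632717460910131488109144140873125094479451829897895229757681069081729515601600645066033986915416320770002165300560515772860824364489563230518847889640909626341416824832456291354055108815459426807699105903167032624190294254671986798063254745102064654836517367307437794632617597639553187740162433750922998442918746748307481785778464810526580441812593415571962632064264769662964026069387726369358165278729644294057792523183214841714929144858613169845188014060579988632506147939856660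240750136427793373919455378886102171898688481719119533691885532306623868534754626130425889900369425137277656466941996191064252262402028975057207993756822201303573820038539881167495913112602763451848447260483630887358319226214356527732661237121013271765273076664016766623940563778161429277851720499018840308266653043179844651093324452388111539329008781710518953546349255514266713573358694398163615582196804803682730917438370955387081673361143008759212389773342542280859582853175697481439749352455255865411282112445308952786915441049809260100779690195573676227739420955817691823253009725026594461048317209581974028609802504792944344918145345386114601533555750331936001439953637503016207232780796501636143589255950998847065448115941116657008397939988412581117250141485301674269487088091188727902263007341827760825934156166535364602407610152368686061277390134180859358194524701373764043758587230075397911196808023331757860661286103424808320300599401700757016442223402794300296121387981798221896213087762708181825569068669565756251613888276949872684999524276754088584255190864723840115435608184197806556202872076833636302148546655241906346300690539753137623444520904088404085599870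542389932065060601215006198767459668793986327256795165276234863781958725011214228631754139100212628833483556760312080812806466836131452019707753054375835198378293641989366761570926663415371037802781734235699749786488662681160872670996267200589736842533842749580988038594791726978856384005118725058559302696713028515093387513347205777767244673834495312414399786795483971682231096657295643414399438584976698261130129617128112069848183676259076848488801837375323970656697834203621814553587887119705793037411529779668175398927503995272663439855943218504312919864804483551255757912981610988996974928347029192423911348609066098987230193108826251316743009358144467521840854328921703715044678289541866706057387730866158788908038138565896234552137938238702903499956447619036857611030568447555398041101318596429099082685638087690353276516644932689247946187516147855276917054024915708599426729505088939381156234250474690339724695213880773272606691327262495349012460496331120558689236082861745868270624005462812450971824661254589574441065702562233953656141932890310354561295920536957562250327692845272153447121738763823370313055024635161039556323023344875873239158076113628767017671804037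680231811005253149964803520657236801034857544647364700670325769062986616682072939929825564339488109861751264458738863195712832845674169592870991043334758186428515456084311999300761598615706122957739679826211624053605273418417194694511422247832318421216852862788884096179356888976638653316670170892281521868064963970746538072973665222687378638755722754840947495226683342303062960330231126951071652163849049823694248424728680389348721951294382719980368249476228148765426598671285163749053658292886510376420022533276880929671536775141016946789229409023306185505265772598003293621964522669084082322052512084046351878183163061320355643488909672034999393536212957183511361575237314266887097564778366564295789010083856060904622957104479097907713206421896624434804354801063302501425547755050539760925026986944099918257383810580263244518326024616931795560510067190911539655745045274144274146728236040176578971208342632484365863772951522026862186517652278212845080822773432550204047450255174273529636013231567692415734840688371939491252489589722946006546882940760876025905136867289885609809377288967914204625054797190532779389259469119971639344942226318611123230485849572882642514438756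423244086158980589388481403437303649043043408931505983598905581744952012256837007240007936779579140914897309158421639811410122853941029205859678200639703925335691758029117523360166869812366007287895142392478200103357786119287140115371841128880361055199122680530259435523285872895600718051498849602403843700037343700361904404188951663093477170793802139699966112920602752795613515468460179145263013539026412382232933393216675489310862705845415940032517941744198638838253870549537660809289052563599736889133846225691062437143074841591133591641542126933519536767581633968266198154694667732263744028868466700344773975169818136879622582408112742739050504294749073720366688609111033255460575972366942907717066494029396736658370390221093974844091322192886623711208474354387186733721356101305541521623832633057361805449523410440676626809132820041795682653109110238185687670206101605896123920850219033120572180142634973550980764730377071078712294694922196531345876622159158020232364284023208083967884781165299059832880113599405474477363632494611092204151225376289203714505027366752846049728238249507704398462183431762368896449078082616690928029114149627016004991057895068347246224543404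245132052303982716610925069313283575259014184203294169100150644257306990218097800523874745727536216341818240539632396259149242758465945637156659902858001943275780656828771466737013783994048993241928765619435586573007156551846903756000070163220932360919163986429510511158518372221077034335842539746868181461774664718733420511405220113529617324718137666713052225312734897546830807807053318484079179394397972015993626445326944071874332593246529418089865692366488245708072979965840734081870297418681300620004252243399531342316664787403786759333120182530528603033638897186945010760597832188340087516405638605435178596448559608473779181879927133253550774664504597011970339256828358104265564122146605436699527901352052788939805268356399824494131152290170345599805014110626702636773541048102619150644018779725533551138623176112694583183555898695548204078271787670088674372028453784840140088575005291020021049373960971544738802355389626466045201032072247890496964235647418949952867060660597308616656845272897277896324585119273925468588044850405769372492430164374513421155099706327549432312947123499796524780909525757016314376469858190858048166933479665988525384699579072443028170953250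012009577061293650495892835859516469607162759111108293962679639429681466304394513057706730502238927706809427915464114934942565814223547429085046258778607422473617706716742541820559197800366815486088239726534741823699735713128445291617283565083978874736266493020440060957927943455218133347984972564645863475403894925592127362891174485194415854124221074695587951163153767139733273518091075649762575540012925457149256268890394862144892014780960537470621051999571281532300866261529450981582745255897053826502448920660492887547395931134541184746701658682125228472320190757824924605660549579459416524367605335439612398801971561449345580351003675651487131926187042631625234750513346720891291649372448878132651106500848560881579007971259133953395487845417681938949921378876534008058991281673236596804129544980251694672524535852274814181802400748347275352107780381421042788558799886255077632575373871586419236587569740239465229827231997494068195830382050722316617107439367780598307215115312558490995520426232813238790080422766762983300471699412152528048995379042840269862646984944542044417529979328480853214294854415878087700105382257195882369343262130413153700555798981484208186605747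21040003870886560048208661213307269673926435551969946289632557937086505922151632803581444205570872335473888195271440867684962140144717548017969381467098718930488125506299287341136975751273445694122600384118052896600579181790060447655905865223970661369355239301291217220256061941241919252840989731511996995790900976990550444839031841835533788585578690591076958874426273266901120932125693945423254671714681969553578700436285159240596552324681391296725786371321436761284623347750974117095122666247783395305347255631640160546638411602040603106360269487885791461870236800707639302976850210011209681956371652979226612923444536694232915850708455349837125442538383825752932321697357691950392544040838882258057481123410594271285042714909876711746481588364558977388644336798270861461306425007811815969828158723739885477290542810924873564228626216946472885759752210864837196800941975779204123794912384023176601462196763113809354273397937579275426141282747380496028020869020534072713881457056999213558683205948249745706803550230590367513369042005473502884528599512782389091959894920780802708290170920169822777440254882645446758226881029050957212934929113145998382222786623192004088856459698743234698185508303371671621419387831604165837484968834434739398788883110227983185832244271805525542024002058960743510958158807089747016465408459200202535407399285564223006870520173995924167891424907617042788804265621989965210620923247984461759128430208141919533908655118493058921560150440311102526743300433220482594334591762562934105144428140172780308292173930548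

noncomputable def hd11 : BT Hd :=
  (BT.node (BT.node (BT.node (BT.node (BT.node (BT.node (BT.node (BT.node (BT.node (BT.leaf (Hd.mk (List.cons (nat_lit 1985) (List.cons (nat_lit 1085) (List.cons (nat_lit 1027) (List.cons (nat_lit 71) (List.cons (nat_lit 133) (List.cons (nat_lit 261) (List.cons (nat_lit 517) List.nil))))))) (nat_lit 3) (nat_lit 0))) (BT.leaf (Hd.mk (List.cons (nat_lit 1921) (List.cons (nat_lit 195) (List.cons (nat_lit 165) (List.cons (nat_lit 137) (List.cons (nat_lit 145) (List.cons (nat_lit 275) List.nil)))))) (nat_lit 3) (nat_lit 0)))) (BT.leaf (Hd.mk (List.cons (nat_lit 1921) (List.cons (nat_lit 1137) (List.cons (nat_lit 589) (List.cons (nat_lit 1031) (List.cons (nat_lit 1033) (List.cons (nat_lit 531) (List.cons (nat_lit 545) (List.cons (nat_lit 195) (List.cons (nat_lit 321) (List.cons (nat_lit 11) (List.cons (nat_lit 35) (List.cons (nat_lit 259) (List.cons (nat_lit 277) (List.cons (nat_lit 165) (List.cons (nat_lit 153) (List.cons (nat_lit 297) (List.cons (nat_lit 1600) (List.cons (nat_lit 212) (List.cons (nat_lit 1092) (List.cons (nat_lit 644) (List.cons (nat_lit 1156) (List.cons (nat_lit 592) (List.cons (nat_lit 656) (List.cons (nat_lit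 1168) (List.cons (nat_lit 704) (List.cons (nat_lit 1216) (List.cons (nat_lit 532) (List.cons (nat_lit 1044) (List.cons (nat_lit 1540) (List.cons (nat_lit 1552) List.nil)))))))))))))))))))))))))))))) (nat_lit 3) (nat_lit 206)))) (BT.node (BT.leaf (Hd.mk (List.cons (nat_lit 1921) (List.cons (nat_lit 1137) (List.cons (nat_lit 1039) (List.cons (nat_lit 531) (List.cons (nat_lit 291) (List.cons (nat_lit 195) (List.cons (nat_lit 277) (List.cons (nat_lit 581) (List.cons (nat_lit 37) (List.cons (nat_lit 133) (List.cons (nat_lit 153) (List.cons (nat_lit 161) (List.cons (nat_lit 553) (List.cons (nat_lit 73) (List.cons (nat_lit 265) (List.cons (nat_lit 321) (List.cons (nat_lit 1042) (List.cons (nat_lit 1186) (List.cons (nat_lit 1282) (List.cons (nat_lit 1090) (List.cons (nat_lit 1538) (List.cons (nat_lit 1320) (List.cons (nat_lit 1296) (List.cons (nat_lit 1048) (List.cons (nat_lit 1160) List.nil))))))))))))))))))))))))) (nat_lit 3) (nat_lit 206))) (BT.leaf (Hd.mk (List.cons (nat_lit 1921) (List.cons (nat_lit 195) (List.cons (nat_lit 165) (List.cons (nat_lit 153) (List.cons (nat_lit 291) (List.cons (nat_lit 329) (List.cons (nat_lit 277) (List.cons (nat_lit 19) (List.cons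 (nat_lit 523) (List.cons (nat_lit 1031) (List.cons (nat_lit 13) (List.cons (nat_lit 69) (List.cons (nat_lit 517) List.nil))))))))))))) (nat_lit 3) (nat_lit 0))))) (BT.node (BT.node (BT.node (BT.leaf (Hd.mk (List.cons (nat_lit 1985) (List.cons (nat_lit 99) (List.cons (nat_lit 85) (List.cons (nat_lit 73) (List.cons (nat_lit 147) (List.cons (nat_lit 267) (List.cons (nat_lit 519) (List.cons (nat_lit 1027) (List.cons (nat_lit 293) (List.cons (nat_lit 273) List.nil)))))))))) (nat_lit 3) (nat_lit 0))) (BT.leaf (Hd.mk (List.cons (nat_lit 1031) (List.cons (nat_lit 523) (List.cons (nat_lit 19) (List.cons (nat_lit 35) List.nil)))) (nat_lit 3) (nat_lit 0)))) (BT.leaf (Hd.mk (List.cons (nat_lit 1921) (List.cons (nat_lit 1137) (List.cons (nat_lit 589) (List.cons (nat_lit 1031) (List.cons (nat_lit 1033) (List.cons (nat_lit 531) (List.cons (nat_lit 545) (List.cons (nat_lit 195) (List.cons (nat_lit 321) (List.cons (nat_lit 11) (List.cons (nat_lit 35) (List.cons (nat_lit 259) (List.cons (nat_lit 277) (List.cons (nat_lit 165) (List.cons (nat_lit 153) (List.cons (nat_lit 297) (List.cons (nat_lit 1600) (List.cons (nat_lit 84) (List.cons (nat_lit 196) (List.cons (nat_lit 1092) (List.cons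 (nat_lit 1216) (List.cons (nat_lit 660) (List.cons (nat_lit 1044) (List.cons (nat_lit 1156) (List.cons (nat_lit 1572) (List.cons (nat_lit 1552) (List.cons (nat_lit 704) (List.cons (nat_lit 518) (List.cons (nat_lit 772) (List.cons (nat_lit 1538) (List.cons (nat_lit 1544) (List.cons (nat_lit 1036) (List.cons (nat_lit 1284) (List.cons (nat_lit 208) (List.cons (nat_lit 592) (List.cons (nat_lit 1168) (List.cons (nat_lit 1312) List.nil))))))))))))))))))))))))))))))))))))) (nat_lit 3)
  (nat_lit 206)))) (BT.node (BT.leaf (Hd.mk (List.cons (nat_lit 1921) (List.cons (nat_lit 1137) (List.cons (nat_lit 589) (List.cons (nat_lit 299) (List.cons (nat_lit 1033) (List.cons (nat_lit 545) (List.cons (nat_lit 321) (List.cons (nat_lit 195) (List.cons (nat_lit 515) (List.cons (nat_lit 529) List.nil)))))))))) (nat_lit 3) (nat_lit 0))) (BT.leaf (Hd.mk (List.cons (nat_lit 1921) (List.cons (nat_lit 195) (List.cons (nat_lit 165) (List.cons (nat_lit 153) (List.cons (nat_lit 259) (List.cons (nat_lit 261) (List.cons (nat_lit 265) (List.cons (nat_lit 273) (List.cons (nat_lit 289) (List.cons (nat_lit 321) (List.cons (nat_lit 1031) (List.cons (nat_lit 43) List.nil)))))))))))) (nat_lit 3) (nat_lit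 0)))))) (BT.node (BT.node (BT.node (BT.node (BT.leaf (Hd.mk (List.cons (nat_lit 1985) (List.cons (nat_lit 1081) (List.cons (nat_lit 1031) (List.cons (nat_lit 73) (List.cons (nat_lit 99) (List.cons (nat_lit 69) (List.cons (nat_lit 81) List.nil))))))) (nat_lit 3) (nat_lit 0))) (BT.leaf (Hd.mk (List.cons (nat_lit 1031) (List.cons (nat_lit 523) (List.cons (nat_lit 275) (List.cons (nat_lit 163) (List.cons (nat_lit 67) (List.cons (nat_lit 269) (List.cons (nat_lit 549) (List.cons (nat_lit 85) (List.cons (nat_lit 133) List.nil))))))))) (nat_lit 3) (nat_lit 0)))) (BT.leaf (Hd.mk (List.cons (nat_lit 1921) (List.cons (nat_lit 1137) (List.cons (nat_lit 589) (List.cons (nat_lit 1031) (List.cons (nat_lit 1033) (List.cons (nat_lit 531) (List.cons (nat_lit 545) (List.cons (nat_lit 195) (List.cons (nat_lit 321) (List.cons (nat_lit 11) (List.cons (nat_lit 35) (List.cons (nat_lit 259) (List.cons (nat_lit 277) (List.cons (nat_lit 165) (List.cons (nat_lit 153) (List.cons (nat_lit 297) (List.cons (nat_lit 1600) (List.cons (nat_lit 84) (List.cons (nat_lit 1220) (List.cons (nat_lit 1168) (List.cons (nat_lit 1044) (List.cons (nat_lit 1540) (List.cons (nat_lit 1552) (List.cons (nat_lit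 660) List.nil)))))))))))))))))))))))) (nat_lit 3) (nat_lit 206)))) (BT.node (BT.leaf (Hd.mk (List.cons (nat_lit 1921) (List.cons (nat_lit 1137) (List.cons (nat_lit 1039) (List.cons (nat_lit 531) (List.cons (nat_lit 291) (List.cons (nat_lit 195) (List.cons (nat_lit 277) (List.cons (nat_lit 69) (List.cons (nat_lit 133) (List.cons (nat_lit 37) (List.cons (nat_lit 517) List.nil))))))))))) (nat_lit 3) (nat_lit 0))) (BT.leaf (Hd.mk (List.cons (nat_lit 1921) (List.cons (nat_lit 195) (List.cons (nat_lit 165) (List.cons (nat_lit 153) (List.cons (nat_lit 291) (List.cons (nat_lit 329) List.nil)))))) (nat_lit 3) (nat_lit 0))))) (BT.node (BT.node (BT.leaf (Hd.mk (List.cons (nat_lit 1985) (List.cons (nat_lit 99) (List.cons (nat_lit 69) (List.cons (nat_lit 73) (List.cons (nat_lit 81) List.nil))))) (nat_lit 3) (nat_lit 0))) (BT.leaf (Hd.mk (List.cons (nat_lit 1921) (List.cons (nat_lit 1137) (List.cons (nat_lit 589) (List.cons (nat_lit 1031) (List.cons (nat_lit 1033) (List.cons (nat_lit 531) (List.cons (nat_lit 545) (List.cons (nat_lit 195) (List.cons (nat_lit 321) (List.cons (nat_lit 11) (List.cons (nat_lit 35) (List.cons (nat_lit 259) (List.cons (nat_lit 277) (List.cons (nat_lit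 165) (List.cons (nat_lit 153) (List.cons (nat_lit 297) List.nil)))))))))))))))) (nat_lit 3) (nat_lit 206)))) (BT.node (BT.leaf (Hd.mk (List.cons (nat_lit 1921) (List.cons (nat_lit 1137) (List.cons (nat_lit 589) (List.cons (nat_lit 1031) (List.cons (nat_lit 1033) (List.cons (nat_lit 531) (List.cons (nat_lit 545) (List.cons (nat_lit 195) (List.cons (nat_lit 321) (List.cons (nat_lit 11) (List.cons (nat_lit 35) (List.cons (nat_lit 259) (List.cons (nat_lit 277) (List.cons (nat_lit 165) (List.cons (nat_lit 153) (List.cons (nat_lit 297) (List.cons (nat_lit 1600) (List.cons (nat_lit 212) (List.cons (nat_lit 1348) (List.cons (nat_lit 592) (List.cons (nat_lit 1216) (List.cons (nat_lit 70) (List.cons (nat_lit 100) (List.cons (nat_lit 1090) (List.cons (nat_lit 1096) (List.cons (nat_lit 644) (List.cons (nat_lit 1156) (List.cons (nat_lit 656) (List.cons (nat_lit 1168) List.nil))))))))))))))))))))))))))))) (nat_lit 3) (nat_lit 206)))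
  (BT.leaf (Hd.mk (List.cons (nat_lit 1921) (List.cons (nat_lit 195) (List.cons (nat_lit 165) (List.cons (nat_lit 137) (List.cons (nat_lit 145) (List.cons (nat_lit 291) (List.cons (nat_lit 519) (List.cons (nat_lit 11) (List.cons (nat_lit 19) (List.cons (nat_lit 1027) List.nil)))))))))) (nat_lit 3) (nat_lit 0))))))) (BT.node (BT.node (BT.node (BT.node (BT.node (BT.leaf (Hd.mk (List.cons (nat_lit 1985) (List.cons (nat_lit 1081) (List.cons (nat_lit 1031) (List.cons (nat_lit 77) (List.cons (nat_lit 139) (List.cons (nat_lit 265) (List.cons (nat_lit 521) (List.cons (nat_lit 81) (List.cons (nat_lit 67) (List.cons (nat_lit 97) (List.cons (nat_lit 149) (List.cons (nat_lit 161) List.nil)))))))))))) (nat_lit 3) (nat_lit 0))) (BT.leaf (Hd.mk (List.cons (nat_lit 1921) (List.cons (nat_lit 195) (List.cons (nat_lit 133) (List.cons (nat_lit 137) (List.cons (nat_lit 145) (List.cons (nat_lit 161) (List.cons (nat_lit 291) (List.cons (nat_lit 515) List.nil)))))))) (nat_lit 3) (nat_lit 0)))) (BT.leaf (Hd.mk (List.cons (nat_lit 1921) (List.cons (nat_lit 1137) (List.cons (nat_lit 589) (List.cons (nat_lit 1031) (List.cons (nat_lit 1033) (List.cons (nat_lit 531) (List.cons (nat_lit 545)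 (List.cons (nat_lit 195) (List.cons (nat_lit 321) (List.cons (nat_lit 11) (List.cons (nat_lit 35) (List.cons (nat_lit 259) (List.cons (nat_lit 277) (List.cons (nat_lit 165) (List.cons (nat_lit 153) (List.cons (nat_lit 297) (List.cons (nat_lit 1600) (List.cons (nat_lit 84) (List.cons (nat_lit 1220) (List.cons (nat_lit 1168) (List.cons (nat_lit 1052) (List.cons (nat_lit 1552) (List.cons (nat_lit 140) (List.cons (nat_lit 1042) (List.cons (nat_lit 1296) (List.cons (nat_lit 44) List.nil)))))))))))))))))))))))))) (nat_lit 3) (nat_lit 206)))) (BT.node (BT.leaf (Hd.mk (List.cons (nat_lit 1921) (List.cons (nat_lit 1137) (List.cons (nat_lit 1039) (List.cons (nat_lit 531) (List.cons (nat_lit 291) (List.cons (nat_lit 195) (List.cons (nat_lit 277) (List.cons (nat_lit 581) (List.cons (nat_lit 37) (List.cons (nat_lit 133) (List.cons (nat_lit 153) (List.cons (nat_lit 161) (List.cons (nat_lit 553) (List.cons (nat_lit 73) (List.cons (nat_lit 265) (List.cons (nat_lit 321) (List.cons (nat_lit 1042) (List.cons (nat_lit 1154) (List.cons (nat_lit 1058) (List.cons (nat_lit 1282) (List.cons (nat_lit 1090) (List.cons (nat_lit 1538) (List.cons (nat_lit 1172) (List.cons (nat_lit 1092)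 (List.cons (nat_lit 1284) (List.cons (nat_lit 1060) (List.cons (nat_lit 1540) (List.cons (nat_lit 1568) List.nil)))))))))))))))))))))))))))) (nat_lit 3) (nat_lit 206))) (BT.leaf (Hd.mk (List.cons (nat_lit 1921) (List.cons (nat_lit 195) (List.cons (nat_lit 165) (List.cons (nat_lit 153) (List.cons (nat_lit 291) (List.cons (nat_lit 329) (List.cons (nat_lit 261) (List.cons (nat_lit 273) (List.cons (nat_lit 1065) (List.cons (nat_lit 11) (List.cons (nat_lit 525) (List.cons (nat_lit 515) List.nil)))))))))))) (nat_lit 3) (nat_lit 0))))) (BT.node (BT.node (BT.leaf (Hd.mk (List.cons (nat_lit 1985) (List.cons (nat_lit 99) (List.cons (nat_lit 85) (List.cons (nat_lit 73) (List.cons (nat_lit 139) (List.cons (nat_lit 133) (List.cons (nat_lit 145) (List.cons (nat_lit 161) List.nil)))))))) (nat_lit 3) (nat_lit 0))) (BT.leaf (Hd.mk (List.cons (nat_lit 1921) (List.cons (nat_lit 1137) (List.cons (nat_lit 589) (List.cons (nat_lit 1031) (List.cons (nat_lit 1033) (List.cons (nat_lit 531) (List.cons (nat_lit 545) (List.cons (nat_lit 195) (List.cons (nat_lit 321) (List.cons (nat_lit 11) (List.cons (nat_lit 35) (List.cons (nat_lit 259) (List.cons (nat_lit 277) (List.cons (nat_lit 165)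 (List.cons (nat_lit 153) (List.cons (nat_lit 297) (List.cons (nat_lit 1600) (List.cons (nat_lit 84) (List.cons (nat_lit 196) (List.cons (nat_lit 1092) (List.cons (nat_lit 1216) (List.cons (nat_lit 644) (List.cons (nat_lit 150) (List.cons (nat_lit 1168) (List.cons (nat_lit 388) (List.cons (nat_lit 140) (List.cons (nat_lit 1156) List.nil))))))))))))))))))))))))))) (nat_lit 3) (nat_lit 206)))) (BT.node (BT.leaf (Hd.mk (List.cons (nat_lit 1921) (List.cons
  (nat_lit 1137) (List.cons (nat_lit 589) (List.cons (nat_lit 1031) (List.cons (nat_lit 1033) (List.cons (nat_lit 531) (List.cons (nat_lit 545) (List.cons (nat_lit 195) (List.cons (nat_lit 321) (List.cons (nat_lit 11) (List.cons (nat_lit 35) (List.cons (nat_lit 259) (List.cons (nat_lit 277) (List.cons (nat_lit 165) (List.cons (nat_lit 153) (List.cons (nat_lit 297) (List.cons (nat_lit 1602) (List.cons (nat_lit 84) (List.cons (nat_lit 1220) (List.cons (nat_lit 1096) (List.cons (nat_lit 1344) (List.cons (nat_lit 1168) (List.cons (nat_lit 1540) (List.cons (nat_lit 1552) (List.cons (nat_lit 592) (List.cons (nat_lit 704) (List.cons (nat_lit 1044) (List.cons (nat_lit 1544) (List.cons (nat_lit 1568) (List.cons (nat_lit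 208) (List.cons (nat_lit 608) (List.cons (nat_lit 832) List.nil)))))))))))))))))))))))))))))))) (nat_lit 3) (nat_lit 206))) (BT.leaf (Hd.mk (List.cons (nat_lit 1921) (List.cons (nat_lit 195) (List.cons (nat_lit 165) (List.cons (nat_lit 137) (List.cons (nat_lit 145) (List.cons (nat_lit 291) (List.cons (nat_lit 531) (List.cons (nat_lit 15) (List.cons (nat_lit 1027) List.nil))))))))) (nat_lit 3) (nat_lit 0)))))) (BT.node (BT.node (BT.node (BT.node (BT.leaf (Hd.mk (List.cons (nat_lit 1985) (List.cons (nat_lit 1081) (List.cons (nat_lit 1027) (List.cons (nat_lit 1029) (List.cons (nat_lit 77) (List.cons (nat_lit 137) List.nil)))))) (nat_lit 3) (nat_lit 0))) (BT.leaf (Hd.mk (List.cons (nat_lit 1031) (List.cons (nat_lit 523) (List.cons (nat_lit 275) (List.cons (nat_lit 163) (List.cons (nat_lit 67) List.nil))))) (nat_lit 3) (nat_lit 0)))) (BT.leaf (Hd.mk (List.cons (nat_lit 1921) (List.cons (nat_lit 1137) (List.cons (nat_lit 589) (List.cons (nat_lit 1031) (List.cons (nat_lit 1033) (List.cons (nat_lit 531) (List.cons (nat_lit 545) (List.cons (nat_lit 195) (List.cons (nat_lit 321) (List.cons (nat_lit 11) (List.cons (nat_lit 35) (List.cons (nat_lit 259) (List.cons (nat_lit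 277) (List.cons (nat_lit 165) (List.cons (nat_lit 153) (List.cons (nat_lit 297) (List.cons (nat_lit 1600) (List.cons (nat_lit 84) (List.cons (nat_lit 452) (List.cons (nat_lit 1092) (List.cons (nat_lit 70) (List.cons (nat_lit 100) (List.cons (nat_lit 392) (List.cons (nat_lit 208) (List.cons (nat_lit 592) (List.cons (nat_lit 704) (List.cons (nat_lit 224) (List.cons (nat_lit 104) List.nil)))))))))))))))))))))))))))) (nat_lit 3) (nat_lit 206)))) (BT.node (BT.leaf (Hd.mk (List.cons (nat_lit 1921) (List.cons (nat_lit 1137) (List.cons (nat_lit 1039) (List.cons (nat_lit 531) (List.cons (nat_lit 291) List.nil))))) (nat_lit 3) (nat_lit 0))) (BT.leaf (Hd.mk (List.cons (nat_lit 1921) (List.cons (nat_lit 195) (List.cons (nat_lit 165) (List.cons (nat_lit 153) (List.cons (nat_lit 291) (List.cons (nat_lit 265) (List.cons (nat_lit 261) (List.cons (nat_lit 273) (List.cons (nat_lit 321) (List.cons (nat_lit 1035) (List.cons (nat_lit 519) (List.cons (nat_lit 19) List.nil)))))))))))) (nat_lit 3) (nat_lit 0))))) (BT.node (BT.node (BT.leaf (Hd.mk (List.cons (nat_lit 1921) (List.cons (nat_lit 1137) (List.cons (nat_lit 1039) (List.cons (nat_lit 531) (List.cons (nat_lit 291) (List.cons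 (nat_lit 195) (List.cons (nat_lit 277) (List.cons (nat_lit 581) (List.cons (nat_lit 37) (List.cons (nat_lit 133) (List.cons (nat_lit 153) (List.cons (nat_lit 161) (List.cons (nat_lit 553) (List.cons (nat_lit 73) (List.cons (nat_lit 265) (List.cons (nat_lit 321) (List.cons (nat_lit 1298) (List.cons (nat_lit 1090) (List.cons (nat_lit 1154) (List.cons (nat_lit 1570) (List.cons (nat_lit 1540) (List.cons (nat_lit 1048) (List.cons (nat_lit 1552) (List.cons (nat_lit 1284) (List.cons (nat_lit 1312) (List.cons (nat_lit 1064) (List.cons (nat_lit 1044) (List.cons (nat_lit 1168) (List.cons (nat_lit 1188) (List.cons (nat_lit 1092) (List.cons (nat_lit 1160) (List.cons (nat_lit 1216) (List.cons (nat_lit 1288) (List.cons (nat_lit 1344) (List.cons (nat_lit 1608) List.nil))))))))))))))))))))))))))))))))))) (nat_lit 3) (nat_lit 206))) (BT.leaf (Hd.mk (List.cons (nat_lit 1921) (List.cons (nat_lit 1137) List.nil)) (nat_lit 4)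
  (nat_lit 0)))) (BT.node (BT.leaf (Hd.mk (List.cons (nat_lit 1921) (List.cons (nat_lit 1137) (List.cons (nat_lit 589) (List.cons (nat_lit 1031) (List.cons (nat_lit 1033) (List.cons (nat_lit 531) (List.cons (nat_lit 545) (List.cons (nat_lit 195) (List.cons (nat_lit 321) (List.cons (nat_lit 11) (List.cons (nat_lit 35) (List.cons (nat_lit 259) (List.cons (nat_lit 277) (List.cons (nat_lit 165) (List.cons (nat_lit 153) (List.cons (nat_lit 297) (List.cons (nat_lit 1600) (List.cons (nat_lit 212) (List.cons (nat_lit 1092) (List.cons (nat_lit 644) (List.cons (nat_lit 1156) (List.cons (nat_lit 592) (List.cons (nat_lit 656) (List.cons (nat_lit 1168) (List.cons (nat_lit 736) (List.cons (nat_lit 100) (List.cons (nat_lit 70) (List.cons (nat_lit 324) (List.cons (nat_lit 578) (List.cons (nat_lit 832) (List.cons (nat_lit 650) (List.cons (nat_lit 1154) (List.cons (nat_lit 140) (List.cons (nat_lit 104) (List.cons (nat_lit 1216) List.nil))))))))))))))))))))))))))))))))))) (nat_lit 3) (nat_lit 206))) (BT.leaf (Hd.mk (List.cons (nat_lit 1921) (List.cons (nat_lit 195) (List.cons (nat_lit 165) (List.cons (nat_lit 137) (List.cons (nat_lit 145) (List.cons (nat_lit 275) (List.cons (nat_lit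 269) (List.cons (nat_lit 289) (List.cons (nat_lit 321) (List.cons (nat_lit 1031) List.nil)))))))))) (nat_lit 3) (nat_lit 0)))))))) (BT.node (BT.node (BT.node (BT.node (BT.node (BT.node (BT.leaf (Hd.mk (List.cons (nat_lit 1985) (List.cons (nat_lit 1081) (List.cons (nat_lit 1031) (List.cons (nat_lit 77) (List.cons (nat_lit 139) (List.cons (nat_lit 265) (List.cons (nat_lit 521) (List.cons (nat_lit 83) (List.cons (nat_lit 97) (List.cons (nat_lit 291) (List.cons (nat_lit 515) (List.cons (nat_lit 277) (List.cons (nat_lit 145) (List.cons (nat_lit 529) (List.cons (nat_lit 133) (List.cons (nat_lit 161) (List.cons (nat_lit 549) List.nil))))))))))))))))) (nat_lit 3) (nat_lit 0))) (BT.leaf (Hd.mk (List.cons (nat_lit 1921) (List.cons (nat_lit 195) (List.cons (nat_lit 165) List.nil))) (nat_lit 3) (nat_lit 0)))) (BT.leaf (Hd.mk (List.cons (nat_lit 1921) (List.cons (nat_lit 1137) (List.cons (nat_lit 589) (List.cons (nat_lit 1031) (List.cons (nat_lit 1033) (List.cons (nat_lit 531) (List.cons (nat_lit 545) (List.cons (nat_lit 195) (List.cons (nat_lit 321) (List.cons (nat_lit 11) (List.cons (nat_lit 35) (List.cons (nat_lit 259) (List.cons (nat_lit 277) (List.cons (nat_lit 165)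 (List.cons (nat_lit 153) (List.cons (nat_lit 297) (List.cons (nat_lit 1600) (List.cons (nat_lit 86) (List.cons (nat_lit 100) (List.cons (nat_lit 324) (List.cons (nat_lit 196) (List.cons (nat_lit 1092) (List.cons (nat_lit 208) (List.cons (nat_lit 592) (List.cons (nat_lit 88) (List.cons (nat_lit 336) (List.cons (nat_lit 704) (List.cons (nat_lit 1216) (List.cons (nat_lit 660) (List.cons (nat_lit 1168) List.nil)))))))))))))))))))))))))))))) (nat_lit 3) (nat_lit 206)))) (BT.node (BT.leaf (Hd.mk (List.cons (nat_lit 1921) (List.cons (nat_lit 1137) (List.cons (nat_lit 1039) (List.cons (nat_lit 531) (List.cons (nat_lit 291) (List.cons (nat_lit 195) (List.cons (nat_lit 277) (List.cons (nat_lit 581) (List.cons (nat_lit 37) (List.cons (nat_lit 133) (List.cons (nat_lit 153) (List.cons (nat_lit 161) (List.cons (nat_lit 553) (List.cons (nat_lit 73) (List.cons (nat_lit 265) (List.cons (nat_lit 321) (List.cons (nat_lit 1042) (List.cons (nat_lit 1154) (List.cons (nat_lit 1058) (List.cons (nat_lit 1282) (List.cons (nat_lit 1090) (List.cons (nat_lit 1538) (List.cons (nat_lit 1172) (List.cons (nat_lit 1348) (List.cons (nat_lit 1216) (List.cons (nat_lit 262) (List.cons (nat_lit 22)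 (List.cons (nat_lit 84) (List.cons (nat_lit 70) (List.cons (nat_lit 1060) (List.cons (nat_lit 1540) (List.cons (nat_lit 1568) List.nil)))))))))))))))))))))))))))))))) (nat_lit 3) (nat_lit 206))) (BT.leaf (Hd.mk (List.cons (nat_lit 1921) (List.cons (nat_lit 195) (List.cons (nat_lit 165) (List.cons (nat_lit 153) (List.cons (nat_lit 291) (List.cons (nat_lit 329) (List.cons (nat_lit 261) (List.cons (nat_lit 273) (List.cons (nat_lit 1065) (List.cons
  (nat_lit 523) (List.cons (nat_lit 13) (List.cons (nat_lit 23) (List.cons (nat_lit 1027) List.nil))))))))))))) (nat_lit 3) (nat_lit 0))))) (BT.node (BT.node (BT.node (BT.leaf (Hd.mk (List.cons (nat_lit 1985) (List.cons (nat_lit 99) (List.cons (nat_lit 85) (List.cons (nat_lit 73) (List.cons (nat_lit 147) (List.cons (nat_lit 263) (List.cons (nat_lit 515) (List.cons (nat_lit 11) (List.cons (nat_lit 1027) List.nil))))))))) (nat_lit 3) (nat_lit 0))) (BT.leaf (Hd.mk (List.cons (nat_lit 1031) (List.cons (nat_lit 11) (List.cons (nat_lit 19) List.nil))) (nat_lit 3) (nat_lit 0)))) (BT.leaf (Hd.mk (List.cons (nat_lit 1921) (List.cons (nat_lit 1137) (List.cons (nat_lit 589) (List.cons (nat_lit 1031) (List.cons (nat_lit 1033) (List.cons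 (nat_lit 531) (List.cons (nat_lit 545) (List.cons (nat_lit 195) (List.cons (nat_lit 321) (List.cons (nat_lit 11) (List.cons (nat_lit 35) (List.cons (nat_lit 259) (List.cons (nat_lit 277) (List.cons (nat_lit 165) (List.cons (nat_lit 153) (List.cons (nat_lit 297) (List.cons (nat_lit 1600) (List.cons (nat_lit 84) (List.cons (nat_lit 196) (List.cons (nat_lit 1092) (List.cons (nat_lit 1216) (List.cons (nat_lit 644) (List.cons (nat_lit 1172) (List.cons (nat_lit 564) (List.cons (nat_lit 1540) List.nil))))))))))))))))))))))))) (nat_lit 3) (nat_lit 206)))) (BT.node (BT.leaf (Hd.mk (List.cons (nat_lit 1921) (List.cons (nat_lit 1137) (List.cons (nat_lit 589) (List.cons (nat_lit 1031) (List.cons (nat_lit 1033) (List.cons (nat_lit 531) (List.cons (nat_lit 545) (List.cons (nat_lit 195) (List.cons (nat_lit 321) (List.cons (nat_lit 11) (List.cons (nat_lit 35) (List.cons (nat_lit 259) (List.cons (nat_lit 277) (List.cons (nat_lit 165) (List.cons (nat_lit 153) (List.cons (nat_lit 297) (List.cons (nat_lit 1602) (List.cons (nat_lit 212) (List.cons (nat_lit 1092) (List.cons (nat_lit 592) (List.cons (nat_lit 644) (List.cons (nat_lit 704) (List.cons (nat_lit 1156) (List.cons (nat_lit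 656) (List.cons (nat_lit 1168) (List.cons (nat_lit 1216) (List.cons (nat_lit 1096) (List.cons (nat_lit 1344) (List.cons (nat_lit 608) (List.cons (nat_lit 832) (List.cons (nat_lit 1540) (List.cons (nat_lit 1552) (List.cons (nat_lit 532) (List.cons (nat_lit 1044) (List.cons (nat_lit 1544) (List.cons (nat_lit 1568) List.nil)))))))))))))))))))))))))))))))))))) (nat_lit 3) (nat_lit 206))) (BT.leaf (Hd.mk (List.cons (nat_lit 1921) (List.cons (nat_lit 195) (List.cons (nat_lit 165) (List.cons (nat_lit 137) (List.cons (nat_lit 145) (List.cons (nat_lit 291) (List.cons (nat_lit 531) (List.cons (nat_lit 1031) (List.cons (nat_lit 11) (List.cons (nat_lit 525) (List.cons (nat_lit 545) (List.cons (nat_lit 577) List.nil)))))))))))) (nat_lit 3) (nat_lit 0)))))) (BT.node (BT.node (BT.node (BT.node (BT.leaf (Hd.mk (List.cons (nat_lit 1985) (List.cons (nat_lit 1081) (List.cons (nat_lit 1027) (List.cons (nat_lit 1029) (List.cons (nat_lit 77) (List.cons (nat_lit 139) (List.cons (nat_lit 265) (List.cons (nat_lit 521) (List.cons (nat_lit 83) (List.cons (nat_lit 97) List.nil)))))))))) (nat_lit 3) (nat_lit 0))) (BT.leaf (Hd.mk (List.cons (nat_lit 1031) (List.cons (nat_lit 523) (List.cons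 (nat_lit 275) (List.cons (nat_lit 163) (List.cons (nat_lit 67) (List.cons (nat_lit 269) (List.cons (nat_lit 37) (List.cons (nat_lit 21) List.nil)))))))) (nat_lit 3) (nat_lit 0)))) (BT.leaf (Hd.mk (List.cons (nat_lit 1921) (List.cons (nat_lit 1137) (List.cons (nat_lit 589) (List.cons (nat_lit 1031) (List.cons (nat_lit 1033) (List.cons (nat_lit 531) (List.cons (nat_lit 545) (List.cons (nat_lit 195) (List.cons (nat_lit 321) (List.cons (nat_lit 11) (List.cons (nat_lit 35) (List.cons (nat_lit 259) (List.cons (nat_lit 277) (List.cons (nat_lit 165) (List.cons (nat_lit 153) (List.cons (nat_lit 297) (List.cons (nat_lit 1600) (List.cons (nat_lit 84) (List.cons (nat_lit 1220) (List.cons (nat_lit 1168) (List.cons (nat_lit 1044) (List.cons (nat_lit 1540) (List.cons (nat_lit 1552) (List.cons (nat_lit 644) (List.cons (nat_lit 148) (List.cons (nat_lit 532) List.nil)))))))))))))))))))))))))) (nat_lit 3)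
  (nat_lit 206)))) (BT.node (BT.leaf (Hd.mk (List.cons (nat_lit 1921) (List.cons (nat_lit 1137) (List.cons (nat_lit 1039) (List.cons (nat_lit 531) (List.cons (nat_lit 291) (List.cons (nat_lit 67) (List.cons (nat_lit 131) (List.cons (nat_lit 277) (List.cons (nat_lit 153) (List.cons (nat_lit 41) (List.cons (nat_lit 265) (List.cons (nat_lit 321) (List.cons (nat_lit 585) List.nil))))))))))))) (nat_lit 3) (nat_lit 0))) (BT.leaf (Hd.mk (List.cons (nat_lit 1921) (List.cons (nat_lit 195) (List.cons (nat_lit 165) (List.cons (nat_lit 153) (List.cons (nat_lit 291) (List.cons (nat_lit 265) (List.cons (nat_lit 325) (List.cons (nat_lit 273) (List.cons (nat_lit 1035) (List.cons (nat_lit 13) (List.cons (nat_lit 1029) (List.cons (nat_lit 23) (List.cons (nat_lit 515) (List.cons (nat_lit 517) List.nil)))))))))))))) (nat_lit 3) (nat_lit 0))))) (BT.node (BT.node (BT.leaf (Hd.mk (List.cons (nat_lit 1985) List.nil) (nat_lit 5) (nat_lit 0))) (BT.leaf (Hd.mk (List.cons (nat_lit 1921) (List.cons (nat_lit 1137) (List.cons (nat_lit 589) (List.cons (nat_lit 1031) (List.cons (nat_lit 1033) (List.cons (nat_lit 529) (List.cons (nat_lit 515) (List.cons (nat_lit 545) List.nil)))))))) (nat_lit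 3) (nat_lit 0)))) (BT.node (BT.leaf (Hd.mk (List.cons (nat_lit 1921) (List.cons (nat_lit 1137) (List.cons (nat_lit 589) (List.cons (nat_lit 1031) (List.cons (nat_lit 1033) (List.cons (nat_lit 531) (List.cons (nat_lit 545) (List.cons (nat_lit 195) (List.cons (nat_lit 321) (List.cons (nat_lit 11) (List.cons (nat_lit 35) (List.cons (nat_lit 259) (List.cons (nat_lit 277) (List.cons (nat_lit 165) (List.cons (nat_lit 153) (List.cons (nat_lit 297) (List.cons (nat_lit 1600) (List.cons (nat_lit 212) (List.cons (nat_lit 1092) (List.cons (nat_lit 644) (List.cons (nat_lit 1164) (List.cons (nat_lit 1216) (List.cons (nat_lit 1168) (List.cons (nat_lit 134) (List.cons (nat_lit 388) (List.cons (nat_lit 1154) (List.cons (nat_lit 1184) (List.cons (nat_lit 268) (List.cons (nat_lit 1044) (List.cons (nat_lit 532) (List.cons (nat_lit 1284) (List.cons (nat_lit 1060) (List.cons (nat_lit 1540) (List.cons (nat_lit 592) (List.cons (nat_lit 656) (List.cons (nat_lit 1552) List.nil)))))))))))))))))))))))))))))))))))) (nat_lit 3) (nat_lit 206))) (BT.leaf (Hd.mk (List.cons (nat_lit 1921) (List.cons (nat_lit 195) (List.cons (nat_lit 165) (List.cons (nat_lit 137) (List.cons (nat_lit 145) (List.cons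 (nat_lit 275) (List.cons (nat_lit 325) (List.cons (nat_lit 265) (List.cons (nat_lit 289) (List.cons (nat_lit 1031) List.nil)))))))))) (nat_lit 3) (nat_lit 0))))))) (BT.node (BT.node (BT.node (BT.node (BT.node (BT.leaf (Hd.mk (List.cons (nat_lit 1985) (List.cons (nat_lit 1081) (List.cons (nat_lit 1031) (List.cons (nat_lit 77) (List.cons (nat_lit 137) (List.cons (nat_lit 265) (List.cons (nat_lit 11) (List.cons (nat_lit 521) (List.cons (nat_lit 83) (List.cons (nat_lit 97) List.nil)))))))))) (nat_lit 3) (nat_lit 0))) (BT.leaf (Hd.mk (List.cons (nat_lit 1921) (List.cons (nat_lit 195) (List.cons (nat_lit 133) List.nil))) (nat_lit 3) (nat_lit 0)))) (BT.leaf (Hd.mk (List.cons (nat_lit 1921) (List.cons (nat_lit 1137) (List.cons (nat_lit 589) (List.cons (nat_lit 1031) (List.cons (nat_lit 1033) (List.cons (nat_lit 531) (List.cons (nat_lit 545) (List.cons (nat_lit 195) (List.cons (nat_lit 321) (List.cons (nat_lit 11) (List.cons (nat_lit 35) (List.cons (nat_lit 259) (List.cons (nat_lit 277) (List.cons (nat_lit 165) (List.cons (nat_lit 153) (List.cons (nat_lit 297) (List.cons (nat_lit 1600) (List.cons (nat_lit 84) (List.cons (nat_lit 1220) (List.cons (nat_lit 1168) (List.cons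 (nat_lit 1044) (List.cons (nat_lit 1540) (List.cons (nat_lit 1560) (List.cons (nat_lit 1042) (List.cons (nat_lit 1296) (List.cons (nat_lit 1538) (List.cons (nat_lit 1568) (List.cons (nat_lit 776) (List.cons (nat_lit 644) (List.cons (nat_lit 150) (List.cons (nat_lit 28) (List.cons (nat_lit 140) (List.cons (nat_lit 388) (List.cons (nat_lit 52) (List.cons (nat_lit 532) List.nil))))))))))))))))))))))))))))))))))) (nat_lit 3) (nat_lit 206)))) (BT.node
  (BT.leaf (Hd.mk (List.cons (nat_lit 1921) (List.cons (nat_lit 1137) (List.cons (nat_lit 1039) (List.cons (nat_lit 531) (List.cons (nat_lit 291) (List.cons (nat_lit 195) (List.cons (nat_lit 277) (List.cons (nat_lit 581) (List.cons (nat_lit 37) (List.cons (nat_lit 133) (List.cons (nat_lit 153) (List.cons (nat_lit 161) (List.cons (nat_lit 553) (List.cons (nat_lit 73) (List.cons (nat_lit 265) (List.cons (nat_lit 321) List.nil)))))))))))))))) (nat_lit 3) (nat_lit 0))) (BT.leaf (Hd.mk (List.cons (nat_lit 1921) (List.cons (nat_lit 195) (List.cons (nat_lit 165) (List.cons (nat_lit 153) (List.cons (nat_lit 291) (List.cons (nat_lit 329) (List.cons (nat_lit 261) (List.cons (nat_lit 273) (List.cons (nat_lit 41) (List.cons (nat_lit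 525) (List.cons (nat_lit 1035) List.nil))))))))))) (nat_lit 3) (nat_lit 0))))) (BT.node (BT.node (BT.leaf (Hd.mk (List.cons (nat_lit 1985) (List.cons (nat_lit 99) (List.cons (nat_lit 69) (List.cons (nat_lit 73) (List.cons (nat_lit 81) (List.cons (nat_lit 147) (List.cons (nat_lit 267) List.nil))))))) (nat_lit 3) (nat_lit 0))) (BT.leaf (Hd.mk (List.cons (nat_lit 1921) (List.cons (nat_lit 1137) (List.cons (nat_lit 589) (List.cons (nat_lit 1031) (List.cons (nat_lit 1033) (List.cons (nat_lit 531) (List.cons (nat_lit 545) (List.cons (nat_lit 195) (List.cons (nat_lit 321) (List.cons (nat_lit 11) (List.cons (nat_lit 35) (List.cons (nat_lit 259) (List.cons (nat_lit 277) (List.cons (nat_lit 165) (List.cons (nat_lit 153) (List.cons (nat_lit 297) (List.cons (nat_lit 1600) (List.cons (nat_lit 84) (List.cons (nat_lit 196) (List.cons (nat_lit 1092) (List.cons (nat_lit 1216) (List.cons (nat_lit 644) (List.cons (nat_lit 148) List.nil))))))))))))))))))))))) (nat_lit 3) (nat_lit 206)))) (BT.node (BT.leaf (Hd.mk (List.cons (nat_lit 1921) (List.cons (nat_lit 1137) (List.cons (nat_lit 589) (List.cons (nat_lit 1031) (List.cons (nat_lit 1033) (List.cons (nat_lit 531) (List.cons (nat_lit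 545) (List.cons (nat_lit 195) (List.cons (nat_lit 321) (List.cons (nat_lit 11) (List.cons (nat_lit 35) (List.cons (nat_lit 259) (List.cons (nat_lit 277) (List.cons (nat_lit 165) (List.cons (nat_lit 153) (List.cons (nat_lit 297) (List.cons (nat_lit 1602) List.nil))))))))))))))))) (nat_lit 3) (nat_lit 206))) (BT.leaf (Hd.mk (List.cons (nat_lit 1921) (List.cons (nat_lit 195) (List.cons (nat_lit 165) (List.cons (nat_lit 137) (List.cons (nat_lit 145) (List.cons (nat_lit 291) (List.cons (nat_lit 519) (List.cons (nat_lit 27) (List.cons (nat_lit 1027) (List.cons (nat_lit 269) (List.cons (nat_lit 273) (List.cons (nat_lit 321) (List.cons (nat_lit 1045) (List.cons (nat_lit 69) List.nil)))))))))))))) (nat_lit 3) (nat_lit 0)))))) (BT.node (BT.node (BT.node (BT.node (BT.leaf (Hd.mk (List.cons (nat_lit 1985) (List.cons (nat_lit 61) (List.cons (nat_lit 71) (List.cons (nat_lit 133) (List.cons (nat_lit 261) (List.cons (nat_lit 517) (List.cons (nat_lit 1029) List.nil))))))) (nat_lit 3) (nat_lit 0))) (BT.leaf (Hd.mk (List.cons (nat_lit 1031) (List.cons (nat_lit 523) (List.cons (nat_lit 275) (List.cons (nat_lit 35) (List.cons (nat_lit 67) (List.cons (nat_lit 131) List.nil))))))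 (nat_lit 3) (nat_lit 0)))) (BT.leaf (Hd.mk (List.cons (nat_lit 1921) (List.cons (nat_lit 1137) (List.cons (nat_lit 589) (List.cons (nat_lit 1031) (List.cons (nat_lit 1033) (List.cons (nat_lit 531) (List.cons (nat_lit 545) (List.cons (nat_lit 195) (List.cons (nat_lit 321) (List.cons (nat_lit 11) (List.cons (nat_lit 35) (List.cons (nat_lit 259) (List.cons (nat_lit 277) (List.cons (nat_lit 165) (List.cons (nat_lit 153) (List.cons (nat_lit 297) (List.cons (nat_lit 1600) (List.cons (nat_lit 84) (List.cons (nat_lit 196) (List.cons (nat_lit 1348) (List.cons (nat_lit 1216) (List.cons (nat_lit 70) (List.cons (nat_lit 100) (List.cons (nat_lit 1090) (List.cons (nat_lit 1096) (List.cons (nat_lit 1312) (List.cons (nat_lit 592) (List.cons (nat_lit 208) (List.cons (nat_lit 704) (List.cons (nat_lit 772) List.nil)))))))))))))))))))))))))))))) (nat_lit 3) (nat_lit 206)))) (BT.node (BT.leaf (Hd.mk (List.cons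
  (nat_lit 1921) (List.cons (nat_lit 1137) (List.cons (nat_lit 1039) (List.cons (nat_lit 531) (List.cons (nat_lit 35) List.nil))))) (nat_lit 3) (nat_lit 0))) (BT.leaf (Hd.mk (List.cons (nat_lit 1921) (List.cons (nat_lit 195) (List.cons (nat_lit 165) (List.cons (nat_lit 153) (List.cons (nat_lit 291) (List.cons (nat_lit 265) (List.cons (nat_lit 261) (List.cons (nat_lit 273) (List.cons (nat_lit 321) List.nil))))))))) (nat_lit 3) (nat_lit 0))))) (BT.node (BT.node (BT.leaf (Hd.mk (List.cons (nat_lit 1921) (List.cons (nat_lit 1137) (List.cons (nat_lit 1039) (List.cons (nat_lit 531) (List.cons (nat_lit 291) (List.cons (nat_lit 195) (List.cons (nat_lit 277) (List.cons (nat_lit 581) (List.cons (nat_lit 37) (List.cons (nat_lit 133) (List.cons (nat_lit 153) (List.cons (nat_lit 161) (List.cons (nat_lit 553) (List.cons (nat_lit 73) (List.cons (nat_lit 265) (List.cons (nat_lit 321) (List.cons (nat_lit 1298) (List.cons (nat_lit 1090) (List.cons (nat_lit 1154) (List.cons (nat_lit 1058) (List.cons (nat_lit 1538) List.nil))))))))))))))))))))) (nat_lit 3) (nat_lit 206))) (BT.leaf (Hd.mk (List.cons (nat_lit 1921) (List.cons (nat_lit 195) (List.cons (nat_lit 165) (List.cons (nat_lit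 153) (List.cons (nat_lit 291) (List.cons (nat_lit 329) (List.cons (nat_lit 277) (List.cons (nat_lit 1043) (List.cons (nat_lit 519) (List.cons (nat_lit 11) (List.cons (nat_lit 13) (List.cons (nat_lit 1093) (List.cons (nat_lit 521) (List.cons (nat_lit 1065) List.nil)))))))))))))) (nat_lit 3) (nat_lit 0)))) (BT.node (BT.leaf (Hd.mk (List.cons (nat_lit 1921) (List.cons (nat_lit 1137) (List.cons (nat_lit 589) (List.cons (nat_lit 1031) (List.cons (nat_lit 1033) (List.cons (nat_lit 531) (List.cons (nat_lit 545) (List.cons (nat_lit 195) (List.cons (nat_lit 321) (List.cons (nat_lit 11) (List.cons (nat_lit 35) (List.cons (nat_lit 259) (List.cons (nat_lit 277) (List.cons (nat_lit 165) (List.cons (nat_lit 153) (List.cons (nat_lit 297) (List.cons (nat_lit 1600) (List.cons (nat_lit 212) (List.cons (nat_lit 1092) (List.cons (nat_lit 644) (List.cons (nat_lit 1156) (List.cons (nat_lit 592) (List.cons (nat_lit 656) (List.cons (nat_lit 1168) (List.cons (nat_lit 704) (List.cons (nat_lit 1216) (List.cons (nat_lit 1556) List.nil))))))))))))))))))))))))))) (nat_lit 3) (nat_lit 206))) (BT.leaf (Hd.mk (List.cons (nat_lit 1921) (List.cons (nat_lit 195) (List.cons (nat_lit 165) (List.cons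 (nat_lit 137) (List.cons (nat_lit 145) (List.cons (nat_lit 275) (List.cons (nat_lit 261) (List.cons (nat_lit 329) (List.cons (nat_lit 289) (List.cons (nat_lit 1031) List.nil)))))))))) (nat_lit 3) (nat_lit 0))))))))) (BT.node (BT.node (BT.node (BT.node (BT.node (BT.node (BT.node (BT.leaf (Hd.mk (List.cons (nat_lit 1985) (List.cons (nat_lit 1081) (List.cons (nat_lit 551) (List.cons (nat_lit 1027) (List.cons (nat_lit 1029) (List.cons (nat_lit 521) (List.cons (nat_lit 529) (List.cons (nat_lit 97) (List.cons (nat_lit 161) (List.cons (nat_lit 289) (List.cons (nat_lit 83) List.nil))))))))))) (nat_lit 3) (nat_lit 0))) (BT.leaf (Hd.mk (List.cons (nat_lit 1921) (List.cons (nat_lit 195) (List.cons (nat_lit 165) (List.cons (nat_lit 137) (List.cons (nat_lit 145) (List.cons (nat_lit 259) (List.cons (nat_lit 261) (List.cons (nat_lit 281) (List.cons (nat_lit 289) (List.cons (nat_lit 321) (List.cons (nat_lit 1031) (List.cons (nat_lit 523) (List.cons (nat_lit 51) List.nil))))))))))))) (nat_lit 3) (nat_lit 0)))) (BT.leaf (Hd.mk (List.cons (nat_lit 1921) (List.cons (nat_lit 1137) (List.cons (nat_lit 589) (List.cons (nat_lit 1031) (List.cons (nat_lit 1033) (List.cons (nat_lit 531)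 (List.cons (nat_lit 545) (List.cons (nat_lit 195) (List.cons (nat_lit 321) (List.cons (nat_lit 11) (List.cons (nat_lit 35) (List.cons (nat_lit 259) (List.cons (nat_lit 277) (List.cons (nat_lit 165) (List.cons (nat_lit 153) (List.cons (nat_lit 297) (List.cons (nat_lit 1600) (List.cons (nat_lit 212) (List.cons (nat_lit 1092) (List.cons (nat_lit 644) (List.cons (nat_lit 1156) (List.cons (nat_lit 592) (List.cons (nat_lit 656) List.nil)))))))))))))))))))))))
  (nat_lit 3) (nat_lit 206)))) (BT.node (BT.leaf (Hd.mk (List.cons (nat_lit 1921) (List.cons (nat_lit 1137) (List.cons (nat_lit 1039) (List.cons (nat_lit 531) (List.cons (nat_lit 291) (List.cons (nat_lit 195) (List.cons (nat_lit 277) (List.cons (nat_lit 581) (List.cons (nat_lit 37) (List.cons (nat_lit 133) (List.cons (nat_lit 153) (List.cons (nat_lit 161) (List.cons (nat_lit 553) (List.cons (nat_lit 73) (List.cons (nat_lit 265) (List.cons (nat_lit 321) (List.cons (nat_lit 1042) (List.cons (nat_lit 1186) (List.cons (nat_lit 1282) (List.cons (nat_lit 1090) List.nil)))))))))))))))))))) (nat_lit 3) (nat_lit 206))) (BT.leaf (Hd.mk (List.cons (nat_lit 1921) (List.cons (nat_lit 195) (List.cons (nat_lit 165) (List.cons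 (nat_lit 153) (List.cons (nat_lit 291) (List.cons (nat_lit 329) (List.cons (nat_lit 277) (List.cons (nat_lit 19) (List.cons (nat_lit 523) List.nil))))))))) (nat_lit 3) (nat_lit 0))))) (BT.node (BT.node (BT.node (BT.leaf (Hd.mk (List.cons (nat_lit 1985) (List.cons (nat_lit 99) (List.cons (nat_lit 85) (List.cons (nat_lit 73) (List.cons (nat_lit 147) (List.cons (nat_lit 267) (List.cons (nat_lit 519) (List.cons (nat_lit 1027) List.nil)))))))) (nat_lit 3) (nat_lit 0))) (BT.leaf (Hd.mk (List.cons (nat_lit 1031) (List.cons (nat_lit 523) List.nil)) (nat_lit 3) (nat_lit 0)))) (BT.leaf (Hd.mk (List.cons (nat_lit 1921) (List.cons (nat_lit 1137) (List.cons (nat_lit 589) (List.cons (nat_lit 1031) (List.cons (nat_lit 1033) (List.cons (nat_lit 531) (List.cons (nat_lit 545) (List.cons (nat_lit 195) (List.cons (nat_lit 321) (List.cons (nat_lit 11) (List.cons (nat_lit 35) (List.cons (nat_lit 259) (List.cons (nat_lit 277) (List.cons (nat_lit 165) (List.cons (nat_lit 153) (List.cons (nat_lit 297) (List.cons (nat_lit 1600) (List.cons (nat_lit 84) (List.cons (nat_lit 196) (List.cons (nat_lit 1092) (List.cons (nat_lit 1216) (List.cons (nat_lit 660) (List.cons (nat_lit 1044) (List.cons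 (nat_lit 1156) List.nil)))))))))))))))))))))))) (nat_lit 3) (nat_lit 206)))) (BT.node (BT.leaf (Hd.mk (List.cons (nat_lit 1921) (List.cons (nat_lit 1137) (List.cons (nat_lit 589) (List.cons (nat_lit 1031) (List.cons (nat_lit 1033) (List.cons (nat_lit 531) (List.cons (nat_lit 545) (List.cons (nat_lit 195) (List.cons (nat_lit 321) (List.cons (nat_lit 267) (List.cons (nat_lit 35) List.nil))))))))))) (nat_lit 3) (nat_lit 0))) (BT.leaf (Hd.mk (List.cons (nat_lit 1921) (List.cons (nat_lit 195) (List.cons (nat_lit 165) (List.cons (nat_lit 153) (List.cons (nat_lit 259) (List.cons (nat_lit 261) (List.cons (nat_lit 265) (List.cons (nat_lit 273) (List.cons (nat_lit 289) (List.cons (nat_lit 321) List.nil)))))))))) (nat_lit 3) (nat_lit 0)))))) (BT.node (BT.node (BT.node (BT.node (BT.leaf (Hd.mk (List.cons (nat_lit 1985) (List.cons (nat_lit 1081) (List.cons (nat_lit 1031) (List.cons (nat_lit 73) (List.cons (nat_lit 67) (List.cons (nat_lit 81) (List.cons (nat_lit 69) (List.cons (nat_lit 97) (List.cons (nat_lit 141) (List.cons (nat_lit 267) (List.cons (nat_lit 521) List.nil))))))))))) (nat_lit 3) (nat_lit 0))) (BT.leaf (Hd.mk (List.cons (nat_lit 1031) (List.cons (nat_lit 523)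 (List.cons (nat_lit 275) (List.cons (nat_lit 163) (List.cons (nat_lit 67) (List.cons (nat_lit 269) (List.cons (nat_lit 101) (List.cons (nat_lit 533) (List.cons (nat_lit 133) List.nil))))))))) (nat_lit 3) (nat_lit 0)))) (BT.leaf (Hd.mk (List.cons (nat_lit 1921) (List.cons (nat_lit 1137) (List.cons (nat_lit 589) (List.cons (nat_lit 1031) (List.cons (nat_lit 1033) (List.cons (nat_lit 531) (List.cons (nat_lit 545) (List.cons (nat_lit 195) (List.cons (nat_lit 321) (List.cons (nat_lit 11) (List.cons (nat_lit 35) (List.cons (nat_lit 259) (List.cons (nat_lit 277) (List.cons (nat_lit 165) (List.cons (nat_lit 153) (List.cons (nat_lit 297) (List.cons (nat_lit 1600) (List.cons (nat_lit 84) (List.cons (nat_lit 1220) (List.cons (nat_lit 1168) (List.cons (nat_lit 1044) (List.cons (nat_lit 1540) (List.cons (nat_lit 1552) (List.cons (nat_lit 644) (List.cons (nat_lit 148) (List.cons (nat_lit 532) (List.cons (nat_lit 208)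
  (List.cons (nat_lit 592) (List.cons (nat_lit 656) (List.cons (nat_lit 704) (List.cons (nat_lit 142) (List.cons (nat_lit 388) List.nil)))))))))))))))))))))))))))))))) (nat_lit 3) (nat_lit 206)))) (BT.node (BT.leaf (Hd.mk (List.cons (nat_lit 1921) (List.cons (nat_lit 1137) (List.cons (nat_lit 1039) (List.cons (nat_lit 531) (List.cons (nat_lit 291) (List.cons (nat_lit 195) (List.cons (nat_lit 277) List.nil))))))) (nat_lit 3) (nat_lit 0))) (BT.leaf (Hd.mk (List.cons (nat_lit 1921) (List.cons (nat_lit 195) (List.cons (nat_lit 165) (List.cons (nat_lit 153) (List.cons (nat_lit 291) (List.cons (nat_lit 265) (List.cons (nat_lit 325) (List.cons (nat_lit 273) (List.cons (nat_lit 1035) (List.cons (nat_lit 525) (List.cons (nat_lit 7) (List.cons (nat_lit 531) (List.cons (nat_lit 21) (List.cons (nat_lit 1029) List.nil)))))))))))))) (nat_lit 3) (nat_lit 0))))) (BT.node (BT.node (BT.leaf (Hd.mk (List.cons (nat_lit 1985) (List.cons (nat_lit 99) List.nil)) (nat_lit 3) (nat_lit 0))) (BT.leaf (Hd.mk (List.cons (nat_lit 1921) (List.cons (nat_lit 1137) (List.cons (nat_lit 589) (List.cons (nat_lit 1031) (List.cons (nat_lit 1033) (List.cons (nat_lit 531) (List.cons (nat_lit 545) (List.cons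 (nat_lit 193) (List.cons (nat_lit 67) (List.cons (nat_lit 321) List.nil)))))))))) (nat_lit 3) (nat_lit 0)))) (BT.node (BT.leaf (Hd.mk (List.cons (nat_lit 1921) (List.cons (nat_lit 1137) (List.cons (nat_lit 589) (List.cons (nat_lit 1031) (List.cons (nat_lit 1033) (List.cons (nat_lit 531) (List.cons (nat_lit 545) (List.cons (nat_lit 195) (List.cons (nat_lit 321) (List.cons (nat_lit 11) (List.cons (nat_lit 35) (List.cons (nat_lit 259) (List.cons (nat_lit 277) (List.cons (nat_lit 165) (List.cons (nat_lit 153) (List.cons (nat_lit 297) (List.cons (nat_lit 1600) (List.cons (nat_lit 212) (List.cons (nat_lit 1348) (List.cons (nat_lit 592) (List.cons (nat_lit 1216) (List.cons (nat_lit 70) (List.cons (nat_lit 100) List.nil))))))))))))))))))))))) (nat_lit 3) (nat_lit 206))) (BT.leaf (Hd.mk (List.cons (nat_lit 1921) (List.cons (nat_lit 195) (List.cons (nat_lit 165) (List.cons (nat_lit 137) (List.cons (nat_lit 145) (List.cons (nat_lit 291) (List.cons (nat_lit 515) (List.cons (nat_lit 7) (List.cons (nat_lit 27) (List.cons (nat_lit 1027) (List.cons (nat_lit 329) (List.cons (nat_lit 277) (List.cons (nat_lit 1037) List.nil))))))))))))) (nat_lit 3) (nat_lit 0))))))) (BT.node (BT.node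 (BT.node (BT.node (BT.node (BT.leaf (Hd.mk (List.cons (nat_lit 1985) (List.cons (nat_lit 1081) (List.cons (nat_lit 1031) (List.cons (nat_lit 77) (List.cons (nat_lit 139) (List.cons (nat_lit 265) (List.cons (nat_lit 521) List.nil))))))) (nat_lit 3) (nat_lit 0))) (BT.leaf (Hd.mk (List.cons (nat_lit 1921) (List.cons (nat_lit 195) (List.cons (nat_lit 133) (List.cons (nat_lit 137) (List.cons (nat_lit 145) (List.cons (nat_lit 161) List.nil)))))) (nat_lit 3) (nat_lit 0)))) (BT.leaf (Hd.mk (List.cons (nat_lit 1921) (List.cons (nat_lit 1137) (List.cons (nat_lit 589) (List.cons (nat_lit 1031) (List.cons (nat_lit 1033) (List.cons (nat_lit 531) (List.cons (nat_lit 545) (List.cons (nat_lit 195) (List.cons (nat_lit 321) (List.cons (nat_lit 11) (List.cons (nat_lit 35) (List.cons (nat_lit 259) (List.cons (nat_lit 277) (List.cons (nat_lit 165) (List.cons (nat_lit 153) (List.cons (nat_lit 297) (List.cons (nat_lit 1600) (List.cons (nat_lit 84) (List.cons (nat_lit 1220) (List.cons (nat_lit 1168) (List.cons (nat_lit 1044) (List.cons (nat_lit 1572) (List.cons (nat_lit 1552) (List.cons (nat_lit 704) (List.cons (nat_lit 1538) (List.cons (nat_lit 1544) (List.cons (nat_lit 1036) (List.cons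 (nat_lit 1284) (List.cons (nat_lit 532) (List.cons (nat_lit 644) (List.cons (nat_lit 518) (List.cons (nat_lit 772) (List.cons (nat_lit 148) (List.cons (nat_lit 208) (List.cons (nat_lit 592) (List.cons (nat_lit 656) (List.cons (nat_lit 1312) List.nil))))))))))))))))))))))))))))))))))))) (nat_lit 3) (nat_lit 206)))) (BT.node (BT.leaf (Hd.mk (List.cons (nat_lit 1921) (List.cons (nat_lit 1137) (List.cons (nat_lit 1039) (List.cons (nat_lit 531)
  (List.cons (nat_lit 291) (List.cons (nat_lit 195) (List.cons (nat_lit 277) (List.cons (nat_lit 581) (List.cons (nat_lit 37) (List.cons (nat_lit 133) (List.cons (nat_lit 153) (List.cons (nat_lit 161) (List.cons (nat_lit 553) (List.cons (nat_lit 73) (List.cons (nat_lit 265) (List.cons (nat_lit 321) (List.cons (nat_lit 1042) List.nil))))))))))))))))) (nat_lit 3) (nat_lit 206))) (BT.leaf (Hd.mk (List.cons (nat_lit 1921) (List.cons (nat_lit 195) (List.cons (nat_lit 165) (List.cons (nat_lit 153) (List.cons (nat_lit 291) (List.cons (nat_lit 329) (List.cons (nat_lit 261) (List.cons (nat_lit 273) (List.cons (nat_lit 1065) List.nil))))))))) (nat_lit 3) (nat_lit 0))))) (BT.node (BT.node (BT.leaf (Hd.mk (List.cons (nat_lit 1985) (List.cons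 (nat_lit 99) (List.cons (nat_lit 85) (List.cons (nat_lit 73) List.nil)))) (nat_lit 3) (nat_lit 0))) (BT.leaf (Hd.mk (List.cons (nat_lit 1921) (List.cons (nat_lit 1137) (List.cons (nat_lit 589) (List.cons (nat_lit 1031) (List.cons (nat_lit 1033) (List.cons (nat_lit 531) (List.cons (nat_lit 545) (List.cons (nat_lit 195) (List.cons (nat_lit 321) (List.cons (nat_lit 11) (List.cons (nat_lit 35) (List.cons (nat_lit 259) (List.cons (nat_lit 277) (List.cons (nat_lit 165) (List.cons (nat_lit 153) (List.cons (nat_lit 297) (List.cons (nat_lit 1600) (List.cons (nat_lit 84) (List.cons (nat_lit 196) (List.cons (nat_lit 1092) (List.cons (nat_lit 1216) (List.cons (nat_lit 644) (List.cons (nat_lit 148) (List.cons (nat_lit 1156) (List.cons (nat_lit 1168) (List.cons (nat_lit 532) (List.cons (nat_lit 1044) (List.cons (nat_lit 1540) List.nil)))))))))))))))))))))))))))) (nat_lit 3) (nat_lit 206)))) (BT.node (BT.leaf (Hd.mk (List.cons (nat_lit 1921) (List.cons (nat_lit 1137) (List.cons (nat_lit 589) (List.cons (nat_lit 1031) (List.cons (nat_lit 1033) (List.cons (nat_lit 531) (List.cons (nat_lit 545) (List.cons (nat_lit 195) (List.cons (nat_lit 321) (List.cons (nat_lit 11) (List.cons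 (nat_lit 35) (List.cons (nat_lit 259) (List.cons (nat_lit 277) (List.cons (nat_lit 165) (List.cons (nat_lit 153) (List.cons (nat_lit 297) (List.cons (nat_lit 1602) (List.cons (nat_lit 84) (List.cons (nat_lit 1092) (List.cons (nat_lit 196) (List.cons (nat_lit 1216) (List.cons (nat_lit 1096) (List.cons (nat_lit 1344) (List.cons (nat_lit 1544) List.nil)))))))))))))))))))))))) (nat_lit 3) (nat_lit 206))) (BT.leaf (Hd.mk (List.cons (nat_lit 1921) (List.cons (nat_lit 195) (List.cons (nat_lit 165) (List.cons (nat_lit 137) (List.cons (nat_lit 145) (List.cons (nat_lit 291) (List.cons (nat_lit 531) (List.cons (nat_lit 7) (List.cons (nat_lit 11) (List.cons (nat_lit 1027) List.nil)))))))))) (nat_lit 3) (nat_lit 0)))))) (BT.node (BT.node (BT.node (BT.node (BT.leaf (Hd.mk (List.cons (nat_lit 1985) (List.cons (nat_lit 1081) (List.cons (nat_lit 1027) (List.cons (nat_lit 1029) (List.cons (nat_lit 73) (List.cons (nat_lit 137) (List.cons (nat_lit 265) (List.cons (nat_lit 15) (List.cons (nat_lit 521) (List.cons (nat_lit 99) List.nil)))))))))) (nat_lit 3) (nat_lit 0))) (BT.leaf (Hd.mk (List.cons (nat_lit 1031) (List.cons (nat_lit 523) (List.cons (nat_lit 275) (List.cons (nat_lit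 35) (List.cons (nat_lit 67) (List.cons (nat_lit 131) (List.cons (nat_lit 269) List.nil))))))) (nat_lit 3) (nat_lit 0)))) (BT.leaf (Hd.mk (List.cons (nat_lit 1921) (List.cons (nat_lit 1137) (List.cons (nat_lit 589) (List.cons (nat_lit 1031) (List.cons (nat_lit 1033) (List.cons (nat_lit 531) (List.cons (nat_lit 545) (List.cons (nat_lit 195) (List.cons (nat_lit 321) (List.cons (nat_lit 11) (List.cons (nat_lit 35) (List.cons (nat_lit 259) (List.cons (nat_lit 277) (List.cons (nat_lit 165) (List.cons (nat_lit 153) (List.cons (nat_lit 297) (List.cons (nat_lit 1600) (List.cons (nat_lit 84) (List.cons (nat_lit 452) (List.cons (nat_lit 1092) (List.cons (nat_lit 70) (List.cons (nat_lit 100) List.nil)))))))))))))))))))))) (nat_lit 3) (nat_lit 206)))) (BT.node (BT.leaf (Hd.mk (List.cons (nat_lit 1921) (List.cons (nat_lit 1137) (List.cons (nat_lit 1039) (List.cons (nat_lit 531) (List.cons (nat_lit 35)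
  (List.cons (nat_lit 131) (List.cons (nat_lit 67) (List.cons (nat_lit 259) List.nil)))))))) (nat_lit 3) (nat_lit 0))) (BT.leaf (Hd.mk (List.cons (nat_lit 1921) (List.cons (nat_lit 195) (List.cons (nat_lit 165) (List.cons (nat_lit 153) (List.cons (nat_lit 291) (List.cons (nat_lit 265) (List.cons (nat_lit 261) (List.cons (nat_lit 273) (List.cons (nat_lit 321) (List.cons (nat_lit 1035) (List.cons (nat_lit 7) (List.cons (nat_lit 531) List.nil)))))))))))) (nat_lit 3) (nat_lit 0))))) (BT.node (BT.node (BT.leaf (Hd.mk (List.cons (nat_lit 1921) (List.cons (nat_lit 1137) (List.cons (nat_lit 1039) (List.cons (nat_lit 531) (List.cons (nat_lit 291) (List.cons (nat_lit 195) (List.cons (nat_lit 277) (List.cons (nat_lit 581) (List.cons (nat_lit 37) (List.cons (nat_lit 133) (List.cons (nat_lit 153) (List.cons (nat_lit 161) (List.cons (nat_lit 553) (List.cons (nat_lit 73) (List.cons (nat_lit 265) (List.cons (nat_lit 321) (List.cons (nat_lit 1298) (List.cons (nat_lit 1090) (List.cons (nat_lit 1154) (List.cons (nat_lit 1058) (List.cons (nat_lit 1538) (List.cons (nat_lit 1048) (List.cons (nat_lit 1544) (List.cons (nat_lit 1600) (List.cons (nat_lit 1168) (List.cons (nat_lit 1044)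 (List.cons (nat_lit 1552) (List.cons (nat_lit 1572) (List.cons (nat_lit 1284) (List.cons (nat_lit 1312) (List.cons (nat_lit 1220) (List.cons (nat_lit 1064) (List.cons (nat_lit 1160) (List.cons (nat_lit 1184) List.nil)))))))))))))))))))))))))))))))))) (nat_lit 3) (nat_lit 206))) (BT.leaf (Hd.mk (List.cons (nat_lit 1921) (List.cons (nat_lit 195) (List.cons (nat_lit 165) (List.cons (nat_lit 153) (List.cons (nat_lit 291) (List.cons (nat_lit 329) (List.cons (nat_lit 277) (List.cons (nat_lit 1043) (List.cons (nat_lit 519) (List.cons (nat_lit 11) (List.cons (nat_lit 1037) (List.cons (nat_lit 69) List.nil)))))))))))) (nat_lit 3) (nat_lit 0)))) (BT.node (BT.leaf (Hd.mk (List.cons (nat_lit 1921) (List.cons (nat_lit 1137) (List.cons (nat_lit 589) (List.cons (nat_lit 1031) (List.cons (nat_lit 1033) (List.cons (nat_lit 531) (List.cons (nat_lit 545) (List.cons (nat_lit 195) (List.cons (nat_lit 321) (List.cons (nat_lit 11) (List.cons (nat_lit 35) (List.cons (nat_lit 259) (List.cons (nat_lit 277) (List.cons (nat_lit 165) (List.cons (nat_lit 153) (List.cons (nat_lit 297) (List.cons (nat_lit 1600) (List.cons (nat_lit 212) (List.cons (nat_lit 1092) (List.cons (nat_lit 644) (List.cons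 (nat_lit 1156) (List.cons (nat_lit 592) (List.cons (nat_lit 656) (List.cons (nat_lit 1168) (List.cons (nat_lit 704) (List.cons (nat_lit 1216) (List.cons (nat_lit 1556) (List.cons (nat_lit 30) (List.cons (nat_lit 52) List.nil))))))))))))))))))))))))))))) (nat_lit 3) (nat_lit 206))) (BT.leaf (Hd.mk (List.cons (nat_lit 1921) (List.cons (nat_lit 195) (List.cons (nat_lit 165) (List.cons (nat_lit 137) (List.cons (nat_lit 145) (List.cons (nat_lit 275) (List.cons (nat_lit 261) (List.cons (nat_lit 329) (List.cons (nat_lit 289) (List.cons (nat_lit 1031) (List.cons (nat_lit 523) (List.cons (nat_lit 35) List.nil)))))))))))) (nat_lit 3) (nat_lit 0)))))))) (BT.node (BT.node (BT.node (BT.node (BT.node (BT.node (BT.leaf (Hd.mk (List.cons (nat_lit 1985) (List.cons (nat_lit 1081) (List.cons (nat_lit 1031) (List.cons (nat_lit 77) (List.cons (nat_lit 139) (List.cons (nat_lit 265) (List.cons (nat_lit 521) (List.cons (nat_lit 83) (List.cons (nat_lit 97) (List.cons (nat_lit 291) (List.cons (nat_lit 515) List.nil))))))))))) (nat_lit 3) (nat_lit 0))) (BT.leaf (Hd.mk (List.cons (nat_lit 1921) (List.cons (nat_lit 195) (List.cons (nat_lit 133) (List.cons (nat_lit 137) (List.cons (nat_lit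 145) (List.cons (nat_lit 161) (List.cons (nat_lit 291) (List.cons (nat_lit 531) (List.cons (nat_lit 15) (List.cons (nat_lit 1027) List.nil)))))))))) (nat_lit 3) (nat_lit 0)))) (BT.leaf (Hd.mk (List.cons (nat_lit 1921) (List.cons (nat_lit 1137) (List.cons (nat_lit 589) (List.cons (nat_lit 1031) (List.cons (nat_lit 1033) (List.cons (nat_lit 531) (List.cons (nat_lit 545) (List.cons (nat_lit 195) (List.cons (nat_lit 321) (List.cons (nat_lit 11) (List.cons
  (nat_lit 35) (List.cons (nat_lit 259) (List.cons (nat_lit 277) (List.cons (nat_lit 165) (List.cons (nat_lit 153) (List.cons (nat_lit 297) (List.cons (nat_lit 1600) (List.cons (nat_lit 86) List.nil)))))))))))))))))) (nat_lit 3) (nat_lit 206)))) (BT.node (BT.leaf (Hd.mk (List.cons (nat_lit 1921) (List.cons (nat_lit 1137) (List.cons (nat_lit 1039) (List.cons (nat_lit 531) (List.cons (nat_lit 291) (List.cons (nat_lit 195) (List.cons (nat_lit 277) (List.cons (nat_lit 581) (List.cons (nat_lit 37) (List.cons (nat_lit 133) (List.cons (nat_lit 153) (List.cons (nat_lit 161) (List.cons (nat_lit 553) (List.cons (nat_lit 73) (List.cons (nat_lit 265) (List.cons (nat_lit 321) (List.cons (nat_lit 1042) (List.cons (nat_lit 1154)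 (List.cons (nat_lit 1058) (List.cons (nat_lit 1282) (List.cons (nat_lit 1090) (List.cons (nat_lit 1538) (List.cons (nat_lit 1172) (List.cons (nat_lit 1092) (List.cons (nat_lit 1316) (List.cons (nat_lit 1540) (List.cons (nat_lit 1568) List.nil))))))))))))))))))))))))))) (nat_lit 3) (nat_lit 206))) (BT.leaf (Hd.mk (List.cons (nat_lit 1921) (List.cons (nat_lit 195) (List.cons (nat_lit 165) (List.cons (nat_lit 153) (List.cons (nat_lit 291) (List.cons (nat_lit 329) (List.cons (nat_lit 261) (List.cons (nat_lit 273) (List.cons (nat_lit 1065) (List.cons (nat_lit 15) (List.cons (nat_lit 521) (List.cons (nat_lit 531) (List.cons (nat_lit 1027) List.nil))))))))))))) (nat_lit 3) (nat_lit 0))))) (BT.node (BT.node (BT.node (BT.leaf (Hd.mk (List.cons (nat_lit 1985) (List.cons (nat_lit 99) (List.cons (nat_lit 85) (List.cons (nat_lit 73) (List.cons (nat_lit 139) (List.cons (nat_lit 165) (List.cons (nat_lit 145) (List.cons (nat_lit 259) (List.cons (nat_lit 261) (List.cons (nat_lit 1031) List.nil)))))))))) (nat_lit 3) (nat_lit 0))) (BT.leaf (Hd.mk (List.cons (nat_lit 1031) List.nil) (nat_lit 3) (nat_lit 0)))) (BT.leaf (Hd.mk (List.cons (nat_lit 1921) (List.cons (nat_lit 1137) (List.cons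 (nat_lit 589) (List.cons (nat_lit 1031) (List.cons (nat_lit 1033) (List.cons (nat_lit 531) (List.cons (nat_lit 545) (List.cons (nat_lit 195) (List.cons (nat_lit 321) (List.cons (nat_lit 11) (List.cons (nat_lit 35) (List.cons (nat_lit 259) (List.cons (nat_lit 277) (List.cons (nat_lit 165) (List.cons (nat_lit 153) (List.cons (nat_lit 297) (List.cons (nat_lit 1600) (List.cons (nat_lit 84) (List.cons (nat_lit 196) (List.cons (nat_lit 1092) (List.cons (nat_lit 1216) (List.cons (nat_lit 644) (List.cons (nat_lit 150) (List.cons (nat_lit 1168) (List.cons (nat_lit 388) (List.cons (nat_lit 1164) List.nil)))))))))))))))))))))))))) (nat_lit 3) (nat_lit 206)))) (BT.node (BT.leaf (Hd.mk (List.cons (nat_lit 1921) (List.cons (nat_lit 1137) (List.cons (nat_lit 589) (List.cons (nat_lit 1031) (List.cons (nat_lit 1033) (List.cons (nat_lit 531) (List.cons (nat_lit 545) (List.cons (nat_lit 195) (List.cons (nat_lit 321) (List.cons (nat_lit 11) (List.cons (nat_lit 35) (List.cons (nat_lit 259) (List.cons (nat_lit 277) (List.cons (nat_lit 165) (List.cons (nat_lit 153) (List.cons (nat_lit 297) (List.cons (nat_lit 1602) (List.cons (nat_lit 84) (List.cons (nat_lit 1220) (List.cons (nat_lit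 1096) (List.cons (nat_lit 1344) (List.cons (nat_lit 1168) (List.cons (nat_lit 1540) (List.cons (nat_lit 1552) (List.cons (nat_lit 592) (List.cons (nat_lit 704) (List.cons (nat_lit 1052) (List.cons (nat_lit 1042) (List.cons (nat_lit 1296) (List.cons (nat_lit 140) (List.cons (nat_lit 44) List.nil))))))))))))))))))))))))))))))) (nat_lit 3) (nat_lit 206))) (BT.leaf (Hd.mk (List.cons (nat_lit 1921) (List.cons (nat_lit 195) (List.cons (nat_lit 165) (List.cons (nat_lit 137) (List.cons (nat_lit 145) (List.cons (nat_lit 291) (List.cons (nat_lit 531) (List.cons (nat_lit 1031) (List.cons (nat_lit 11) List.nil))))))))) (nat_lit 3) (nat_lit 0)))))) (BT.node (BT.node (BT.node (BT.node (BT.leaf (Hd.mk (List.cons (nat_lit 1985) (List.cons (nat_lit 1081) (List.cons (nat_lit 1027) (List.cons (nat_lit 1029) (List.cons (nat_lit 77) (List.cons (nat_lit 137) (List.cons (nat_lit 265) (List.cons (nat_lit 11) (List.cons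
  (nat_lit 521) List.nil))))))))) (nat_lit 3) (nat_lit 0))) (BT.leaf (Hd.mk (List.cons (nat_lit 1031) (List.cons (nat_lit 523) (List.cons (nat_lit 275) (List.cons (nat_lit 163) (List.cons (nat_lit 67) (List.cons (nat_lit 269) List.nil)))))) (nat_lit 3) (nat_lit 0)))) (BT.leaf (Hd.mk (List.cons (nat_lit 1921) (List.cons (nat_lit 1137) (List.cons (nat_lit 589) (List.cons (nat_lit 1031) (List.cons (nat_lit 1033) (List.cons (nat_lit 531) (List.cons (nat_lit 545) (List.cons (nat_lit 195) (List.cons (nat_lit 321) (List.cons (nat_lit 11) (List.cons (nat_lit 35) (List.cons (nat_lit 259) (List.cons (nat_lit 277) (List.cons (nat_lit 165) (List.cons (nat_lit 153) (List.cons (nat_lit 297) (List.cons (nat_lit 1600) (List.cons (nat_lit 84) (List.cons (nat_lit 452) (List.cons (nat_lit 1092) (List.cons (nat_lit 70) (List.cons (nat_lit 100) (List.cons (nat_lit 394) (List.cons (nat_lit 140) (List.cons (nat_lit 268) (List.cons (nat_lit 1156) (List.cons (nat_lit 1284) List.nil))))))))))))))))))))))))))) (nat_lit 3) (nat_lit 206)))) (BT.node (BT.leaf (Hd.mk (List.cons (nat_lit 1921) (List.cons (nat_lit 1137) (List.cons (nat_lit 1039) (List.cons (nat_lit 531) (List.cons (nat_lit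 291) (List.cons (nat_lit 67) (List.cons (nat_lit 131) (List.cons (nat_lit 149) (List.cons (nat_lit 549) (List.cons (nat_lit 69) (List.cons (nat_lit 261) List.nil))))))))))) (nat_lit 3) (nat_lit 0))) (BT.leaf (Hd.mk (List.cons (nat_lit 1921) (List.cons (nat_lit 195) (List.cons (nat_lit 165) (List.cons (nat_lit 153) (List.cons (nat_lit 291) (List.cons (nat_lit 265) (List.cons (nat_lit 325) (List.cons (nat_lit 273) (List.cons (nat_lit 11) (List.cons (nat_lit 531) (List.cons (nat_lit 1031) List.nil))))))))))) (nat_lit 3) (nat_lit 0))))) (BT.node (BT.node (BT.leaf (Hd.mk (List.cons (nat_lit 1921) (List.cons (nat_lit 1137) (List.cons (nat_lit 1039) (List.cons (nat_lit 531) (List.cons (nat_lit 291) (List.cons (nat_lit 195) (List.cons (nat_lit 277) (List.cons (nat_lit 581) (List.cons (nat_lit 37) (List.cons (nat_lit 133) (List.cons (nat_lit 153) (List.cons (nat_lit 161) (List.cons (nat_lit 553) (List.cons (nat_lit 73) (List.cons (nat_lit 265) (List.cons (nat_lit 321) (List.cons (nat_lit 1298) (List.cons (nat_lit 1090) (List.cons (nat_lit 1154) (List.cons (nat_lit 1570) (List.cons (nat_lit 1540) (List.cons (nat_lit 1048) (List.cons (nat_lit 1552) (List.cons (nat_lit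 1284) (List.cons (nat_lit 1312) (List.cons (nat_lit 1064) (List.cons (nat_lit 1044) (List.cons (nat_lit 1168) (List.cons (nat_lit 1188) (List.cons (nat_lit 1092) (List.cons (nat_lit 1224) (List.cons (nat_lit 1288) (List.cons (nat_lit 1544) (List.cons (nat_lit 1344) (List.cons (nat_lit 1600) (List.cons (nat_lit 26) (List.cons (nat_lit 82) List.nil))))))))))))))))))))))))))))))))))))) (nat_lit 3) (nat_lit 206))) (BT.leaf (Hd.mk (List.cons (nat_lit 1921) (List.cons (nat_lit 1137) (List.cons (nat_lit 589) List.nil))) (nat_lit 4) (nat_lit 0)))) (BT.node (BT.leaf (Hd.mk (List.cons (nat_lit 1921) (List.cons (nat_lit 1137) (List.cons (nat_lit 589) (List.cons (nat_lit 1031) (List.cons (nat_lit 1033) (List.cons (nat_lit 531) (List.cons (nat_lit 545) (List.cons (nat_lit 195) (List.cons (nat_lit 321) (List.cons (nat_lit 11) (List.cons (nat_lit 35) (List.cons (nat_lit 259) (List.cons (nat_lit 277) (List.cons (nat_lit 165) (List.cons (nat_lit 153) (List.cons (nat_lit 297) (List.cons (nat_lit 1600) (List.cons (nat_lit 212) (List.cons (nat_lit 1092) (List.cons (nat_lit 644) (List.cons (nat_lit 1156) (List.cons (nat_lit 848) (List.cons (nat_lit 704) (List.cons (nat_lit 82) (List.cons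 (nat_lit 88) List.nil))))))))))))))))))))))))) (nat_lit 3) (nat_lit 206))) (BT.leaf (Hd.mk (List.cons (nat_lit 1921) (List.cons (nat_lit 195) (List.cons (nat_lit 165) (List.cons (nat_lit 137) (List.cons (nat_lit 145) (List.cons (nat_lit 275) (List.cons (nat_lit 325) (List.cons (nat_lit 265) (List.cons (nat_lit 289) (List.cons (nat_lit 7) (List.cons (nat_lit 547) (List.cons (nat_lit 1035) List.nil)))))))))))) (nat_lit 3) (nat_lit 0))))))) (BT.node (BT.node
  (BT.node (BT.node (BT.node (BT.leaf (Hd.mk (List.cons (nat_lit 1985) (List.cons (nat_lit 1081) (List.cons (nat_lit 1031) (List.cons (nat_lit 77) List.nil)))) (nat_lit 3) (nat_lit 0))) (BT.leaf (Hd.mk (List.cons (nat_lit 1921) (List.cons (nat_lit 131) (List.cons (nat_lit 133) (List.cons (nat_lit 137) (List.cons (nat_lit 145) (List.cons (nat_lit 161) (List.cons (nat_lit 193) (List.cons (nat_lit 323) List.nil)))))))) (nat_lit 3) (nat_lit 0)))) (BT.leaf (Hd.mk (List.cons (nat_lit 1921) (List.cons (nat_lit 1137) (List.cons (nat_lit 589) (List.cons (nat_lit 1031) (List.cons (nat_lit 1033) (List.cons (nat_lit 531) (List.cons (nat_lit 545) (List.cons (nat_lit 195) (List.cons (nat_lit 321) (List.cons (nat_lit 11)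 (List.cons (nat_lit 35) (List.cons (nat_lit 259) (List.cons (nat_lit 277) (List.cons (nat_lit 165) (List.cons (nat_lit 153) (List.cons (nat_lit 297) (List.cons (nat_lit 1600) (List.cons (nat_lit 84) (List.cons (nat_lit 1220) (List.cons (nat_lit 1168) (List.cons (nat_lit 1044) (List.cons (nat_lit 1540) (List.cons (nat_lit 1560) (List.cons (nat_lit 1042) (List.cons (nat_lit 1296) (List.cons (nat_lit 1538) (List.cons (nat_lit 1568) (List.cons (nat_lit 776) List.nil)))))))))))))))))))))))))))) (nat_lit 3) (nat_lit 206)))) (BT.node (BT.leaf (Hd.mk (List.cons (nat_lit 1921) (List.cons (nat_lit 1137) (List.cons (nat_lit 1039) (List.cons (nat_lit 531) (List.cons (nat_lit 291) (List.cons (nat_lit 195) (List.cons (nat_lit 277) (List.cons (nat_lit 581) (List.cons (nat_lit 37) (List.cons (nat_lit 133) List.nil)))))))))) (nat_lit 3) (nat_lit 0))) (BT.leaf (Hd.mk (List.cons (nat_lit 1921) (List.cons (nat_lit 195) (List.cons (nat_lit 165) (List.cons (nat_lit 153) (List.cons (nat_lit 291) (List.cons (nat_lit 329) (List.cons (nat_lit 261) (List.cons (nat_lit 273) (List.cons (nat_lit 41) (List.cons (nat_lit 523) (List.cons (nat_lit 13) (List.cons (nat_lit 1033) List.nil))))))))))))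 (nat_lit 3) (nat_lit 0))))) (BT.node (BT.node (BT.leaf (Hd.mk (List.cons (nat_lit 1985) (List.cons (nat_lit 99) (List.cons (nat_lit 69) (List.cons (nat_lit 73) (List.cons (nat_lit 81) (List.cons (nat_lit 147) (List.cons (nat_lit 259) List.nil))))))) (nat_lit 3) (nat_lit 0))) (BT.leaf (Hd.mk (List.cons (nat_lit 1921) (List.cons (nat_lit 1137) (List.cons (nat_lit 589) (List.cons (nat_lit 1031) (List.cons (nat_lit 1033) (List.cons (nat_lit 531) (List.cons (nat_lit 545) (List.cons (nat_lit 195) (List.cons (nat_lit 321) (List.cons (nat_lit 11) (List.cons (nat_lit 35) (List.cons (nat_lit 259) (List.cons (nat_lit 277) (List.cons (nat_lit 165) (List.cons (nat_lit 153) (List.cons (nat_lit 297) (List.cons (nat_lit 1600) (List.cons (nat_lit 84) (List.cons (nat_lit 196) List.nil))))))))))))))))))) (nat_lit 3) (nat_lit 206)))) (BT.node (BT.leaf (Hd.mk (List.cons (nat_lit 1921) (List.cons (nat_lit 1137) (List.cons (nat_lit 589) (List.cons (nat_lit 1031) (List.cons (nat_lit 1033) (List.cons (nat_lit 531) (List.cons (nat_lit 545) (List.cons (nat_lit 195) (List.cons (nat_lit 321) (List.cons (nat_lit 11) (List.cons (nat_lit 35) (List.cons (nat_lit 259) (List.cons (nat_lit 277)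 (List.cons (nat_lit 165) (List.cons (nat_lit 153) (List.cons (nat_lit 297) (List.cons (nat_lit 1600) (List.cons (nat_lit 212) (List.cons (nat_lit 1348) (List.cons (nat_lit 592) (List.cons (nat_lit 1216) (List.cons (nat_lit 70) (List.cons (nat_lit 100) (List.cons (nat_lit 1090) (List.cons (nat_lit 1096) (List.cons (nat_lit 644) (List.cons (nat_lit 1156) (List.cons (nat_lit 656) (List.cons (nat_lit 1168) (List.cons (nat_lit 1312) (List.cons (nat_lit 704) List.nil))))))))))))))))))))))))))))))) (nat_lit 3) (nat_lit 206))) (BT.leaf (Hd.mk (List.cons (nat_lit 1921) (List.cons (nat_lit 195) (List.cons (nat_lit 165) (List.cons (nat_lit 137) (List.cons (nat_lit 145) (List.cons (nat_lit 291) (List.cons (nat_lit 519) (List.cons (nat_lit 27) (List.cons (nat_lit 1027) List.nil))))))))) (nat_lit 3) (nat_lit 0)))))) (BT.node (BT.node (BT.node (BT.node (BT.leaf (Hd.mk (List.cons (nat_lit 1985) (List.cons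
  (nat_lit 61) List.nil)) (nat_lit 4) (nat_lit 0))) (BT.leaf (Hd.mk (List.cons (nat_lit 1031) (List.cons (nat_lit 523) (List.cons (nat_lit 275) List.nil))) (nat_lit 3) (nat_lit 0)))) (BT.leaf (Hd.mk (List.cons (nat_lit 1921) (List.cons (nat_lit 1137) (List.cons (nat_lit 589) (List.cons (nat_lit 1031) (List.cons (nat_lit 1033) (List.cons (nat_lit 531) (List.cons (nat_lit 545) (List.cons (nat_lit 195) (List.cons (nat_lit 321) (List.cons (nat_lit 11) (List.cons (nat_lit 35) (List.cons (nat_lit 259) (List.cons (nat_lit 277) (List.cons (nat_lit 165) (List.cons (nat_lit 153) (List.cons (nat_lit 297) (List.cons (nat_lit 1600) (List.cons (nat_lit 84) (List.cons (nat_lit 196) (List.cons (nat_lit 1092) (List.cons (nat_lit 1224) (List.cons (nat_lit 1090) (List.cons (nat_lit 1344) (List.cons (nat_lit 1156) (List.cons (nat_lit 1168) (List.cons (nat_lit 1154) (List.cons (nat_lit 1184) List.nil))))))))))))))))))))))))))) (nat_lit 3) (nat_lit 206)))) (BT.node (BT.leaf (Hd.mk (List.cons (nat_lit 1921) (List.cons (nat_lit 1137) (List.cons (nat_lit 589) (List.cons (nat_lit 299) (List.cons (nat_lit 1033) (List.cons (nat_lit 545) (List.cons (nat_lit 321) (List.cons (nat_lit 195)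 (List.cons (nat_lit 531) (List.cons (nat_lit 1031) (List.cons (nat_lit 165) (List.cons (nat_lit 21) (List.cons (nat_lit 261) (List.cons (nat_lit 273) (List.cons (nat_lit 25) (List.cons (nat_lit 137) (List.cons (nat_lit 145) List.nil))))))))))))))))) (nat_lit 3) (nat_lit 0))) (BT.leaf (Hd.mk (List.cons (nat_lit 1921) (List.cons (nat_lit 195) (List.cons (nat_lit 165) (List.cons (nat_lit 153) (List.cons (nat_lit 291) (List.cons (nat_lit 265) List.nil)))))) (nat_lit 3) (nat_lit 0))))) (BT.node (BT.node (BT.leaf (Hd.mk (List.cons (nat_lit 1921) (List.cons (nat_lit 1137) (List.cons (nat_lit 1039) (List.cons (nat_lit 531) (List.cons (nat_lit 291) (List.cons (nat_lit 195) (List.cons (nat_lit 277) (List.cons (nat_lit 581) (List.cons (nat_lit 37) (List.cons (nat_lit 133) (List.cons (nat_lit 153) (List.cons (nat_lit 161) (List.cons (nat_lit 553) (List.cons (nat_lit 73) (List.cons (nat_lit 265) (List.cons (nat_lit 321) (List.cons (nat_lit 1042) (List.cons (nat_lit 1186) (List.cons (nat_lit 1346) (List.cons (nat_lit 1538) (List.cons (nat_lit 1220) (List.cons (nat_lit 1160) (List.cons (nat_lit 1168) (List.cons (nat_lit 1044) (List.cons (nat_lit 1284) (List.cons (nat_lit 1060)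 (List.cons (nat_lit 1540) (List.cons (nat_lit 1568) List.nil)))))))))))))))))))))))))))) (nat_lit 3) (nat_lit 206))) (BT.leaf (Hd.mk (List.cons (nat_lit 1921) (List.cons (nat_lit 195) (List.cons (nat_lit 165) (List.cons (nat_lit 153) (List.cons (nat_lit 291) (List.cons (nat_lit 329) (List.cons (nat_lit 277) (List.cons (nat_lit 1043) (List.cons (nat_lit 15) (List.cons (nat_lit 515) (List.cons (nat_lit 517) (List.cons (nat_lit 69) (List.cons (nat_lit 1029) List.nil))))))))))))) (nat_lit 3) (nat_lit 0)))) (BT.node (BT.leaf (Hd.mk (List.cons (nat_lit 1921) (List.cons (nat_lit 1137) (List.cons (nat_lit 589) (List.cons (nat_lit 1031) (List.cons (nat_lit 1033) (List.cons (nat_lit 531) (List.cons (nat_lit 545) (List.cons (nat_lit 195) (List.cons (nat_lit 321) (List.cons (nat_lit 11) (List.cons (nat_lit 35) (List.cons (nat_lit 259) (List.cons (nat_lit 277) (List.cons (nat_lit 165) (List.cons (nat_lit 153) (List.cons (nat_lit 297) (List.cons (nat_lit 1600) (List.cons (nat_lit 212) (List.cons (nat_lit 1092) (List.cons (nat_lit 644) (List.cons (nat_lit 1156) (List.cons (nat_lit 592) (List.cons (nat_lit 656) (List.cons (nat_lit 1168) (List.cons (nat_lit 704) (List.cons (nat_lit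 1216) (List.cons (nat_lit 564) (List.cons (nat_lit 1540) (List.cons (nat_lit 22) (List.cons (nat_lit 518) (List.cons (nat_lit 772) (List.cons (nat_lit 28) (List.cons (nat_lit 1044) List.nil))))))))))))))))))))))))))))))))) (nat_lit 3) (nat_lit 206))) (BT.leaf (Hd.mk (List.cons (nat_lit 1921) (List.cons (nat_lit 195) (List.cons (nat_lit 165) (List.cons (nat_lit 137) (List.cons (nat_lit 145) (List.cons (nat_lit 275) (List.cons (nat_lit 261) (List.cons
  (nat_lit 265) (List.cons (nat_lit 289) (List.cons (nat_lit 321) List.nil)))))))))) (nat_lit 3) (nat_lit 0)))))))))) (BT.node (BT.node (BT.node (BT.node (BT.node (BT.node (BT.node (BT.node (BT.leaf (Hd.mk (List.cons (nat_lit 1985) (List.cons (nat_lit 1085) List.nil)) (nat_lit 5) (nat_lit 0))) (BT.leaf (Hd.mk (List.cons (nat_lit 1921) (List.cons (nat_lit 195) (List.cons (nat_lit 165) (List.cons (nat_lit 137) (List.cons (nat_lit 145) (List.cons (nat_lit 259) (List.cons (nat_lit 325) (List.cons (nat_lit 265) (List.cons (nat_lit 273) (List.cons (nat_lit 289) List.nil)))))))))) (nat_lit 3) (nat_lit 0)))) (BT.leaf (Hd.mk (List.cons (nat_lit 1921) (List.cons (nat_lit 1137) (List.cons (nat_lit 589) (List.cons (nat_lit 1031)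 (List.cons (nat_lit 1033) (List.cons (nat_lit 531) (List.cons (nat_lit 545) (List.cons (nat_lit 195) (List.cons (nat_lit 321) (List.cons (nat_lit 11) (List.cons (nat_lit 35) (List.cons (nat_lit 259) (List.cons (nat_lit 277) (List.cons (nat_lit 165) (List.cons (nat_lit 153) (List.cons (nat_lit 297) (List.cons (nat_lit 1600) (List.cons (nat_lit 212) (List.cons (nat_lit 1092) (List.cons (nat_lit 644) (List.cons (nat_lit 1156) (List.cons (nat_lit 592) (List.cons (nat_lit 656) (List.cons (nat_lit 1168) (List.cons (nat_lit 704) (List.cons (nat_lit 1216) List.nil)))))))))))))))))))))))))) (nat_lit 3) (nat_lit 206)))) (BT.node (BT.leaf (Hd.mk (List.cons (nat_lit 1921) (List.cons (nat_lit 1137) (List.cons (nat_lit 1039) (List.cons (nat_lit 531) (List.cons (nat_lit 291) (List.cons (nat_lit 195) (List.cons (nat_lit 277) (List.cons (nat_lit 581) (List.cons (nat_lit 37) (List.cons (nat_lit 133) (List.cons (nat_lit 153) (List.cons (nat_lit 161) (List.cons (nat_lit 553) (List.cons (nat_lit 73) (List.cons (nat_lit 265) (List.cons (nat_lit 321) (List.cons (nat_lit 1042) (List.cons (nat_lit 1186) (List.cons (nat_lit 1282) (List.cons (nat_lit 1090) (List.cons (nat_lit 1538) (List.cons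 (nat_lit 1064) (List.cons (nat_lit 1160) (List.cons (nat_lit 1168) (List.cons (nat_lit 1044) (List.cons (nat_lit 1220) (List.cons (nat_lit 1284) (List.cons (nat_lit 1312) (List.cons (nat_lit 1060) (List.cons (nat_lit 1540) (List.cons (nat_lit 1568) List.nil))))))))))))))))))))))))))))))) (nat_lit 3) (nat_lit 206))) (BT.leaf (Hd.mk (List.cons (nat_lit 1921) (List.cons (nat_lit 195) (List.cons (nat_lit 165) (List.cons (nat_lit 153) (List.cons (nat_lit 291) (List.cons (nat_lit 329) (List.cons (nat_lit 277) (List.cons (nat_lit 19) (List.cons (nat_lit 523) (List.cons (nat_lit 7) (List.cons (nat_lit 1027) List.nil))))))))))) (nat_lit 3) (nat_lit 0))))) (BT.node (BT.node (BT.node (BT.leaf (Hd.mk (List.cons (nat_lit 1985) (List.cons (nat_lit 99) (List.cons (nat_lit 85) (List.cons (nat_lit 73) (List.cons (nat_lit 147) (List.cons (nat_lit 267) (List.cons (nat_lit 519) (List.cons (nat_lit 1027) (List.cons (nat_lit 261) (List.cons (nat_lit 273) (List.cons (nat_lit 289) List.nil))))))))))) (nat_lit 3) (nat_lit 0))) (BT.leaf (Hd.mk (List.cons (nat_lit 1031) (List.cons (nat_lit 523) (List.cons (nat_lit 19) List.nil))) (nat_lit 3) (nat_lit 0)))) (BT.leaf (Hd.mk (List.cons (nat_lit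 1921) (List.cons (nat_lit 1137) (List.cons (nat_lit 589) (List.cons (nat_lit 1031) (List.cons (nat_lit 1033) (List.cons (nat_lit 531) (List.cons (nat_lit 545) (List.cons (nat_lit 195) (List.cons (nat_lit 321) (List.cons (nat_lit 11) (List.cons (nat_lit 35) (List.cons (nat_lit 259) (List.cons (nat_lit 277) (List.cons (nat_lit 165) (List.cons (nat_lit 153) (List.cons (nat_lit 297) (List.cons (nat_lit 1600) (List.cons (nat_lit 84) (List.cons (nat_lit 196) (List.cons (nat_lit 1092) (List.cons (nat_lit 1216) (List.cons (nat_lit 660) (List.cons (nat_lit 1044) (List.cons (nat_lit 1156) (List.cons (nat_lit 1540) (List.cons (nat_lit 208) List.nil)))))))))))))))))))))))))) (nat_lit 3) (nat_lit 206)))) (BT.node (BT.leaf (Hd.mk (List.cons (nat_lit 1921) (List.cons (nat_lit 1137) (List.cons (nat_lit 589) (List.cons (nat_lit 299) List.nil)))) (nat_lit 4) (nat_lit 0))) (BT.leaf (Hd.mk (List.cons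
  (nat_lit 1921) (List.cons (nat_lit 195) (List.cons (nat_lit 165) (List.cons (nat_lit 153) (List.cons (nat_lit 259) (List.cons (nat_lit 261) (List.cons (nat_lit 265) (List.cons (nat_lit 273) (List.cons (nat_lit 289) (List.cons (nat_lit 321) (List.cons (nat_lit 1031) List.nil))))))))))) (nat_lit 3) (nat_lit 0)))))) (BT.node (BT.node (BT.node (BT.node (BT.leaf (Hd.mk (List.cons (nat_lit 1985) (List.cons (nat_lit 1081) (List.cons (nat_lit 1031) (List.cons (nat_lit 73) (List.cons (nat_lit 99) List.nil))))) (nat_lit 3) (nat_lit 0))) (BT.leaf (Hd.mk (List.cons (nat_lit 1031) (List.cons (nat_lit 523) (List.cons (nat_lit 275) (List.cons (nat_lit 163) (List.cons (nat_lit 67) (List.cons (nat_lit 269) (List.cons (nat_lit 549) List.nil))))))) (nat_lit 3) (nat_lit 0)))) (BT.leaf (Hd.mk (List.cons (nat_lit 1921) (List.cons (nat_lit 1137) (List.cons (nat_lit 589) (List.cons (nat_lit 1031) (List.cons (nat_lit 1033) (List.cons (nat_lit 531) (List.cons (nat_lit 545) (List.cons (nat_lit 195) (List.cons (nat_lit 321) (List.cons (nat_lit 11) (List.cons (nat_lit 35) (List.cons (nat_lit 259) (List.cons (nat_lit 277) (List.cons (nat_lit 165) (List.cons (nat_lit 153) (List.cons (nat_lit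 297) (List.cons (nat_lit 1600) (List.cons (nat_lit 84) (List.cons (nat_lit 1220) (List.cons (nat_lit 1168) (List.cons (nat_lit 1044) (List.cons (nat_lit 1540) (List.cons (nat_lit 1552) (List.cons (nat_lit 644) (List.cons (nat_lit 150) (List.cons (nat_lit 140) (List.cons (nat_lit 388) (List.cons (nat_lit 28) List.nil)))))))))))))))))))))))))))) (nat_lit 3) (nat_lit 206)))) (BT.node (BT.leaf (Hd.mk (List.cons (nat_lit 1921) (List.cons (nat_lit 1137) (List.cons (nat_lit 1039) (List.cons (nat_lit 531) (List.cons (nat_lit 291) (List.cons (nat_lit 195) (List.cons (nat_lit 277) (List.cons (nat_lit 69) List.nil)))))))) (nat_lit 3) (nat_lit 0))) (BT.leaf (Hd.mk (List.cons (nat_lit 1921) (List.cons (nat_lit 195) (List.cons (nat_lit 165) (List.cons (nat_lit 153) (List.cons (nat_lit 291) (List.cons (nat_lit 265) (List.cons (nat_lit 325) (List.cons (nat_lit 273) (List.cons (nat_lit 1035) (List.cons (nat_lit 525) (List.cons (nat_lit 23) (List.cons (nat_lit 515) (List.cons (nat_lit 1029) List.nil))))))))))))) (nat_lit 3) (nat_lit 0))))) (BT.node (BT.node (BT.leaf (Hd.mk (List.cons (nat_lit 1985) (List.cons (nat_lit 99) (List.cons (nat_lit 69) List.nil))) (nat_lit 3) (nat_lit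 0))) (BT.leaf (Hd.mk (List.cons (nat_lit 1921) (List.cons (nat_lit 1137) (List.cons (nat_lit 589) (List.cons (nat_lit 1031) (List.cons (nat_lit 1033) (List.cons (nat_lit 531) (List.cons (nat_lit 545) (List.cons (nat_lit 195) (List.cons (nat_lit 321) List.nil))))))))) (nat_lit 3) (nat_lit 0)))) (BT.node (BT.leaf (Hd.mk (List.cons (nat_lit 1921) (List.cons (nat_lit 1137) (List.cons (nat_lit 589) (List.cons (nat_lit 1031) (List.cons (nat_lit 1033) (List.cons (nat_lit 531) (List.cons (nat_lit 545) (List.cons (nat_lit 195) (List.cons (nat_lit 321) (List.cons (nat_lit 11) (List.cons (nat_lit 35) (List.cons (nat_lit 259) (List.cons (nat_lit 277) (List.cons (nat_lit 165) (List.cons (nat_lit 153) (List.cons (nat_lit 297) (List.cons (nat_lit 1600) (List.cons (nat_lit 212) (List.cons (nat_lit 1348) (List.cons (nat_lit 592) (List.cons (nat_lit 1216) (List.cons (nat_lit 70) (List.cons (nat_lit 100) (List.cons (nat_lit 1090) (List.cons (nat_lit 1096) (List.cons (nat_lit 644) List.nil)))))))))))))))))))))))))) (nat_lit 3) (nat_lit 206))) (BT.leaf (Hd.mk (List.cons (nat_lit 1921) (List.cons (nat_lit 195) (List.cons (nat_lit 165) (List.cons (nat_lit 137) (List.cons (nat_lit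 145) (List.cons (nat_lit 291) (List.cons (nat_lit 515) (List.cons (nat_lit 23) List.nil)))))))) (nat_lit 3) (nat_lit 0))))))) (BT.node (BT.node (BT.node (BT.node (BT.node (BT.leaf (Hd.mk (List.cons (nat_lit 1985) (List.cons (nat_lit 1081) (List.cons (nat_lit 1031) (List.cons (nat_lit 77) (List.cons (nat_lit 139) (List.cons (nat_lit 265) (List.cons (nat_lit 521) (List.cons (nat_lit 81) (List.cons (nat_lit 67) (List.cons (nat_lit 97) List.nil))))))))))
  (nat_lit 3) (nat_lit 0))) (BT.leaf (Hd.mk (List.cons (nat_lit 1921) (List.cons (nat_lit 195) (List.cons (nat_lit 133) (List.cons (nat_lit 137) (List.cons (nat_lit 145) (List.cons (nat_lit 161) (List.cons (nat_lit 291) List.nil))))))) (nat_lit 3) (nat_lit 0)))) (BT.leaf (Hd.mk (List.cons (nat_lit 1921) (List.cons (nat_lit 1137) (List.cons (nat_lit 589) (List.cons (nat_lit 1031) (List.cons (nat_lit 1033) (List.cons (nat_lit 531) (List.cons (nat_lit 545) (List.cons (nat_lit 195) (List.cons (nat_lit 321) (List.cons (nat_lit 11) (List.cons (nat_lit 35) (List.cons (nat_lit 259) (List.cons (nat_lit 277) (List.cons (nat_lit 165) (List.cons (nat_lit 153) (List.cons (nat_lit 297) (List.cons (nat_lit 1600) (List.cons (nat_lit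 84) (List.cons (nat_lit 1220) (List.cons (nat_lit 1168) (List.cons (nat_lit 1044) (List.cons (nat_lit 1572) (List.cons (nat_lit 1552) (List.cons (nat_lit 704) (List.cons (nat_lit 1538) (List.cons (nat_lit 1544) (List.cons (nat_lit 1036) (List.cons (nat_lit 1284) (List.cons (nat_lit 660) (List.cons (nat_lit 518) (List.cons (nat_lit 772) (List.cons (nat_lit 208) (List.cons (nat_lit 592) (List.cons (nat_lit 1312) List.nil)))))))))))))))))))))))))))))))))) (nat_lit 3) (nat_lit 206)))) (BT.node (BT.leaf (Hd.mk (List.cons (nat_lit 1921) (List.cons (nat_lit 1137) (List.cons (nat_lit 1039) (List.cons (nat_lit 531) (List.cons (nat_lit 291) (List.cons (nat_lit 195) (List.cons (nat_lit 277) (List.cons (nat_lit 581) (List.cons (nat_lit 37) (List.cons (nat_lit 133) (List.cons (nat_lit 153) (List.cons (nat_lit 161) (List.cons (nat_lit 553) (List.cons (nat_lit 73) (List.cons (nat_lit 265) (List.cons (nat_lit 321) (List.cons (nat_lit 1042) (List.cons (nat_lit 1154) (List.cons (nat_lit 1058) (List.cons (nat_lit 1282) (List.cons (nat_lit 1090) (List.cons (nat_lit 1538) (List.cons (nat_lit 1168) (List.cons (nat_lit 1556) (List.cons (nat_lit 1568) (List.cons (nat_lit 1304) (List.cons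 (nat_lit 1544) (List.cons (nat_lit 1600) List.nil)))))))))))))))))))))))))))) (nat_lit 3) (nat_lit 206))) (BT.leaf (Hd.mk (List.cons (nat_lit 1921) (List.cons (nat_lit 195) (List.cons (nat_lit 165) (List.cons (nat_lit 153) (List.cons (nat_lit 291) (List.cons (nat_lit 329) (List.cons (nat_lit 261) (List.cons (nat_lit 273) (List.cons (nat_lit 1065) (List.cons (nat_lit 11) (List.cons (nat_lit 13) (List.cons (nat_lit 521) List.nil)))))))))))) (nat_lit 3) (nat_lit 0))))) (BT.node (BT.node (BT.leaf (Hd.mk (List.cons (nat_lit 1985) (List.cons (nat_lit 99) (List.cons (nat_lit 85) (List.cons (nat_lit 73) (List.cons (nat_lit 131) (List.cons (nat_lit 165) (List.cons (nat_lit 137) (List.cons (nat_lit 145) List.nil)))))))) (nat_lit 3) (nat_lit 0))) (BT.leaf (Hd.mk (List.cons (nat_lit 1921) (List.cons (nat_lit 1137) (List.cons (nat_lit 589) (List.cons (nat_lit 1031) (List.cons (nat_lit 1033) (List.cons (nat_lit 531) (List.cons (nat_lit 545) (List.cons (nat_lit 195) (List.cons (nat_lit 321) (List.cons (nat_lit 11) (List.cons (nat_lit 35) (List.cons (nat_lit 259) (List.cons (nat_lit 277) (List.cons (nat_lit 165) (List.cons (nat_lit 153) (List.cons (nat_lit 297) (List.cons (nat_lit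 1600) (List.cons (nat_lit 84) (List.cons (nat_lit 196) (List.cons (nat_lit 1092) (List.cons (nat_lit 1216) (List.cons (nat_lit 644) (List.cons (nat_lit 148) (List.cons (nat_lit 1156) (List.cons (nat_lit 1168) (List.cons (nat_lit 532) (List.cons (nat_lit 1044) (List.cons (nat_lit 1540) (List.cons (nat_lit 1552) (List.cons (nat_lit 1292) List.nil)))))))))))))))))))))))))))))) (nat_lit 3) (nat_lit 206)))) (BT.node (BT.leaf (Hd.mk (List.cons (nat_lit 1921) (List.cons (nat_lit 1137) (List.cons (nat_lit 589) (List.cons (nat_lit 1031) (List.cons (nat_lit 1033) (List.cons (nat_lit 531) (List.cons (nat_lit 545) (List.cons (nat_lit 195) (List.cons (nat_lit 321) (List.cons (nat_lit 11) (List.cons (nat_lit 35) (List.cons (nat_lit 259) (List.cons (nat_lit 277) (List.cons (nat_lit 165) (List.cons (nat_lit 153) (List.cons (nat_lit 297) (List.cons (nat_lit 1602) (List.cons (nat_lit 84) (List.cons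
  (nat_lit 1092) (List.cons (nat_lit 196) (List.cons (nat_lit 1216) (List.cons (nat_lit 1352) (List.cons (nat_lit 88) (List.cons (nat_lit 74) (List.cons (nat_lit 1296) (List.cons (nat_lit 1282) List.nil)))))))))))))))))))))))))) (nat_lit 3) (nat_lit 206))) (BT.leaf (Hd.mk (List.cons (nat_lit 1921) (List.cons (nat_lit 195) (List.cons (nat_lit 165) (List.cons (nat_lit 137) (List.cons (nat_lit 145) (List.cons (nat_lit 291) (List.cons (nat_lit 531) (List.cons (nat_lit 7) (List.cons (nat_lit 1035) (List.cons (nat_lit 525) (List.cons (nat_lit 545) (List.cons (nat_lit 577) List.nil)))))))))))) (nat_lit 3) (nat_lit 0)))))) (BT.node (BT.node (BT.node (BT.node (BT.leaf (Hd.mk (List.cons (nat_lit 1985) (List.cons (nat_lit 1081) (List.cons (nat_lit 1027) (List.cons (nat_lit 1029) (List.cons (nat_lit 77) List.nil))))) (nat_lit 3) (nat_lit 0))) (BT.leaf (Hd.mk (List.cons (nat_lit 1031) (List.cons (nat_lit 523) (List.cons (nat_lit 275) (List.cons (nat_lit 35) (List.cons (nat_lit 67) (List.cons (nat_lit 131) (List.cons (nat_lit 269) (List.cons (nat_lit 149) List.nil)))))))) (nat_lit 3) (nat_lit 0)))) (BT.leaf (Hd.mk (List.cons (nat_lit 1921) (List.cons (nat_lit 1137) (List.cons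 (nat_lit 589) (List.cons (nat_lit 1031) (List.cons (nat_lit 1033) (List.cons (nat_lit 531) (List.cons (nat_lit 545) (List.cons (nat_lit 195) (List.cons (nat_lit 321) (List.cons (nat_lit 11) (List.cons (nat_lit 35) (List.cons (nat_lit 259) (List.cons (nat_lit 277) (List.cons (nat_lit 165) (List.cons (nat_lit 153) (List.cons (nat_lit 297) (List.cons (nat_lit 1600) (List.cons (nat_lit 84) (List.cons (nat_lit 452) (List.cons (nat_lit 1092) (List.cons (nat_lit 70) (List.cons (nat_lit 100) (List.cons (nat_lit 392) (List.cons (nat_lit 208) (List.cons (nat_lit 592) List.nil))))))))))))))))))))))))) (nat_lit 3) (nat_lit 206)))) (BT.node (BT.leaf (Hd.mk (List.cons (nat_lit 1921) (List.cons (nat_lit 1137) (List.cons (nat_lit 1039) (List.cons (nat_lit 531) (List.cons (nat_lit 35) (List.cons (nat_lit 131) (List.cons (nat_lit 67) (List.cons (nat_lit 259) (List.cons (nat_lit 277) List.nil))))))))) (nat_lit 3) (nat_lit 0))) (BT.leaf (Hd.mk (List.cons (nat_lit 1921) (List.cons (nat_lit 195) (List.cons (nat_lit 165) (List.cons (nat_lit 153) (List.cons (nat_lit 291) (List.cons (nat_lit 265) (List.cons (nat_lit 261) (List.cons (nat_lit 273) (List.cons (nat_lit 321) (List.cons (nat_lit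 1035) (List.cons (nat_lit 23) (List.cons (nat_lit 515) List.nil)))))))))))) (nat_lit 3) (nat_lit 0))))) (BT.node (BT.node (BT.leaf (Hd.mk (List.cons (nat_lit 1921) (List.cons (nat_lit 1137) (List.cons (nat_lit 1039) (List.cons (nat_lit 531) (List.cons (nat_lit 291) (List.cons (nat_lit 195) (List.cons (nat_lit 277) (List.cons (nat_lit 581) (List.cons (nat_lit 37) (List.cons (nat_lit 133) (List.cons (nat_lit 153) (List.cons (nat_lit 161) (List.cons (nat_lit 553) (List.cons (nat_lit 73) (List.cons (nat_lit 265) (List.cons (nat_lit 321) (List.cons (nat_lit 1298) (List.cons (nat_lit 1090) (List.cons (nat_lit 1154) (List.cons (nat_lit 1058) (List.cons (nat_lit 1538) (List.cons (nat_lit 1048) (List.cons (nat_lit 1608) (List.cons (nat_lit 1288) (List.cons (nat_lit 1344) (List.cons (nat_lit 1092) (List.cons (nat_lit 1216) (List.cons (nat_lit 1316) (List.cons (nat_lit 1568) (List.cons (nat_lit 1540) (List.cons (nat_lit 1552) (List.cons (nat_lit 772) (List.cons (nat_lit 800) (List.cons (nat_lit 1172) (List.cons (nat_lit 1064) (List.cons (nat_lit 1160) (List.cons (nat_lit 1184) List.nil))))))))))))))))))))))))))))))))))))) (nat_lit 3) (nat_lit 206))) (BT.leaf (Hd.mk (List.cons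 (nat_lit 1921) (List.cons (nat_lit 121) List.nil)) (nat_lit 4) (nat_lit 0)))) (BT.node (BT.leaf (Hd.mk (List.cons (nat_lit 1921) (List.cons (nat_lit 1137) (List.cons (nat_lit 589) (List.cons (nat_lit 1031) (List.cons (nat_lit 1033) (List.cons (nat_lit 531) (List.cons (nat_lit 545) (List.cons (nat_lit 195) (List.cons (nat_lit 321) (List.cons (nat_lit 11) (List.cons (nat_lit 35) (List.cons (nat_lit 259) (List.cons (nat_lit 277) (List.cons
  (nat_lit 165) (List.cons (nat_lit 153) (List.cons (nat_lit 297) (List.cons (nat_lit 1600) (List.cons (nat_lit 212) (List.cons (nat_lit 1092) (List.cons (nat_lit 644) (List.cons (nat_lit 1156) (List.cons (nat_lit 592) (List.cons (nat_lit 656) (List.cons (nat_lit 1168) (List.cons (nat_lit 704) (List.cons (nat_lit 1224) List.nil)))))))))))))))))))))))))) (nat_lit 3) (nat_lit 206))) (BT.leaf (Hd.mk (List.cons (nat_lit 1921) (List.cons (nat_lit 195) (List.cons (nat_lit 165) (List.cons (nat_lit 137) (List.cons (nat_lit 145) (List.cons (nat_lit 275) (List.cons (nat_lit 269) (List.cons (nat_lit 289) (List.cons (nat_lit 321) List.nil))))))))) (nat_lit 3) (nat_lit 0)))))))) (BT.node (BT.node (BT.node (BT.node (BT.node (BT.node (BT.leaf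 (Hd.mk (List.cons (nat_lit 1985) (List.cons (nat_lit 1081) (List.cons (nat_lit 1031) (List.cons (nat_lit 77) (List.cons (nat_lit 139) (List.cons (nat_lit 265) (List.cons (nat_lit 521) (List.cons (nat_lit 83) (List.cons (nat_lit 97) (List.cons (nat_lit 291) (List.cons (nat_lit 515) (List.cons (nat_lit 261) (List.cons (nat_lit 273) List.nil))))))))))))) (nat_lit 3) (nat_lit 0))) (BT.leaf (Hd.mk (List.cons (nat_lit 1921) (List.cons (nat_lit 195) (List.cons (nat_lit 133) (List.cons (nat_lit 137) (List.cons (nat_lit 145) (List.cons (nat_lit 161) (List.cons (nat_lit 291) (List.cons (nat_lit 531) (List.cons (nat_lit 1031) (List.cons (nat_lit 11) List.nil)))))))))) (nat_lit 3) (nat_lit 0)))) (BT.leaf (Hd.mk (List.cons (nat_lit 1921) (List.cons (nat_lit 1137) (List.cons (nat_lit 589) (List.cons (nat_lit 1031) (List.cons (nat_lit 1033) (List.cons (nat_lit 531) (List.cons (nat_lit 545) (List.cons (nat_lit 195) (List.cons (nat_lit 321) (List.cons (nat_lit 11) (List.cons (nat_lit 35) (List.cons (nat_lit 259) (List.cons (nat_lit 277) (List.cons (nat_lit 165) (List.cons (nat_lit 153) (List.cons (nat_lit 297) (List.cons (nat_lit 1600) (List.cons (nat_lit 86) (List.cons (nat_lit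 100) (List.cons (nat_lit 324) (List.cons (nat_lit 196) (List.cons (nat_lit 1092) (List.cons (nat_lit 208) (List.cons (nat_lit 592) (List.cons (nat_lit 88) (List.cons (nat_lit 336) (List.cons (nat_lit 704) (List.cons (nat_lit 1216) (List.cons (nat_lit 644) (List.cons (nat_lit 148) (List.cons (nat_lit 1168) (List.cons (nat_lit 1156) (List.cons (nat_lit 656) List.nil))))))))))))))))))))))))))))))))) (nat_lit 3) (nat_lit 206)))) (BT.node (BT.leaf (Hd.mk (List.cons (nat_lit 1921) (List.cons (nat_lit 1137) (List.cons (nat_lit 1039) (List.cons (nat_lit 531) (List.cons (nat_lit 291) (List.cons (nat_lit 195) (List.cons (nat_lit 277) (List.cons (nat_lit 581) (List.cons (nat_lit 37) (List.cons (nat_lit 133) (List.cons (nat_lit 153) (List.cons (nat_lit 161) (List.cons (nat_lit 553) (List.cons (nat_lit 73) (List.cons (nat_lit 265) (List.cons (nat_lit 321) (List.cons (nat_lit 1042) (List.cons (nat_lit 1154) (List.cons (nat_lit 1058) (List.cons (nat_lit 1282) (List.cons (nat_lit 1090) (List.cons (nat_lit 1538) (List.cons (nat_lit 1172) (List.cons (nat_lit 1092) (List.cons (nat_lit 1316) (List.cons (nat_lit 1540) (List.cons (nat_lit 1568) (List.cons (nat_lit 1064) (List.cons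 (nat_lit 1184) (List.cons (nat_lit 1160) (List.cons (nat_lit 1216) (List.cons (nat_lit 1296) (List.cons (nat_lit 1560) (List.cons (nat_lit 1600) (List.cons (nat_lit 1352) (List.cons (nat_lit 656) List.nil)))))))))))))))))))))))))))))))))))) (nat_lit 3) (nat_lit 206))) (BT.leaf (Hd.mk (List.cons (nat_lit 1921) (List.cons (nat_lit 195) (List.cons (nat_lit 165) (List.cons (nat_lit 153) (List.cons (nat_lit 291) (List.cons (nat_lit 329) (List.cons (nat_lit 261) (List.cons (nat_lit 273) (List.cons (nat_lit 1065) (List.cons (nat_lit 523) (List.cons (nat_lit 13) List.nil))))))))))) (nat_lit 3) (nat_lit 0))))) (BT.node (BT.node (BT.node (BT.leaf (Hd.mk (List.cons (nat_lit 1985) (List.cons (nat_lit 99) (List.cons (nat_lit 85) (List.cons (nat_lit 73) (List.cons (nat_lit 147) List.nil))))) (nat_lit 3) (nat_lit 0))) (BT.leaf (Hd.mk (List.cons (nat_lit 1031) (List.cons (nat_lit 11) List.nil)) (nat_lit 3)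
  (nat_lit 0)))) (BT.leaf (Hd.mk (List.cons (nat_lit 1921) (List.cons (nat_lit 1137) (List.cons (nat_lit 589) (List.cons (nat_lit 1031) (List.cons (nat_lit 1033) (List.cons (nat_lit 531) (List.cons (nat_lit 545) (List.cons (nat_lit 195) (List.cons (nat_lit 321) (List.cons (nat_lit 11) (List.cons (nat_lit 35) (List.cons (nat_lit 259) (List.cons (nat_lit 277) (List.cons (nat_lit 165) (List.cons (nat_lit 153) (List.cons (nat_lit 297) (List.cons (nat_lit 1600) (List.cons (nat_lit 84) (List.cons (nat_lit 196) (List.cons (nat_lit 1092) (List.cons (nat_lit 1216) (List.cons (nat_lit 644) (List.cons (nat_lit 150) (List.cons (nat_lit 1168) (List.cons (nat_lit 396) (List.cons (nat_lit 1156) (List.cons (nat_lit 1284) (List.cons (nat_lit 200) (List.cons (nat_lit 46) (List.cons (nat_lit 104) (List.cons (nat_lit 518) (List.cons (nat_lit 386) List.nil)))))))))))))))))))))))))))))))) (nat_lit 3) (nat_lit 206)))) (BT.node (BT.leaf (Hd.mk (List.cons (nat_lit 1921) (List.cons (nat_lit 1137) (List.cons (nat_lit 589) (List.cons (nat_lit 1031) (List.cons (nat_lit 1033) (List.cons (nat_lit 531) (List.cons (nat_lit 545) (List.cons (nat_lit 195) (List.cons (nat_lit 321) (List.cons (nat_lit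 11) (List.cons (nat_lit 35) (List.cons (nat_lit 259) (List.cons (nat_lit 277) (List.cons (nat_lit 165) (List.cons (nat_lit 153) (List.cons (nat_lit 297) (List.cons (nat_lit 1602) (List.cons (nat_lit 212) (List.cons (nat_lit 1092) (List.cons (nat_lit 592) (List.cons (nat_lit 644) (List.cons (nat_lit 704) List.nil)))))))))))))))))))))) (nat_lit 3) (nat_lit 206))) (BT.leaf (Hd.mk (List.cons (nat_lit 1921) (List.cons (nat_lit 195) (List.cons (nat_lit 165) (List.cons (nat_lit 137) (List.cons (nat_lit 145) (List.cons (nat_lit 291) (List.cons (nat_lit 531) (List.cons (nat_lit 1031) (List.cons (nat_lit 11) (List.cons (nat_lit 517) (List.cons (nat_lit 585) (List.cons (nat_lit 545) List.nil)))))))))))) (nat_lit 3) (nat_lit 0)))))) (BT.node (BT.node (BT.node (BT.node (BT.leaf (Hd.mk (List.cons (nat_lit 1985) (List.cons (nat_lit 1081) (List.cons (nat_lit 1027) (List.cons (nat_lit 1029) (List.cons (nat_lit 77) (List.cons (nat_lit 139) (List.cons (nat_lit 265) (List.cons (nat_lit 521) List.nil)))))))) (nat_lit 3) (nat_lit 0))) (BT.leaf (Hd.mk (List.cons (nat_lit 1031) (List.cons (nat_lit 523) (List.cons (nat_lit 275) (List.cons (nat_lit 163) (List.cons (nat_lit 67) (List.cons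 (nat_lit 269) (List.cons (nat_lit 37) List.nil))))))) (nat_lit 3) (nat_lit 0)))) (BT.leaf (Hd.mk (List.cons (nat_lit 1921) (List.cons (nat_lit 1137) (List.cons (nat_lit 589) (List.cons (nat_lit 1031) (List.cons (nat_lit 1033) (List.cons (nat_lit 531) (List.cons (nat_lit 545) (List.cons (nat_lit 195) (List.cons (nat_lit 321) (List.cons (nat_lit 11) (List.cons (nat_lit 35) (List.cons (nat_lit 259) (List.cons (nat_lit 277) (List.cons (nat_lit 165) (List.cons (nat_lit 153) (List.cons (nat_lit 297) (List.cons (nat_lit 1600) (List.cons (nat_lit 84) (List.cons (nat_lit 1220) (List.cons (nat_lit 1168) List.nil)))))))))))))))))))) (nat_lit 3) (nat_lit 206)))) (BT.node (BT.leaf (Hd.mk (List.cons (nat_lit 1921) (List.cons (nat_lit 1137) (List.cons (nat_lit 1039) (List.cons (nat_lit 531) (List.cons (nat_lit 291) (List.cons (nat_lit 67) (List.cons (nat_lit 131) (List.cons (nat_lit 277) (List.cons (nat_lit 25) (List.cons (nat_lit 145) (List.cons (nat_lit 265) List.nil))))))))))) (nat_lit 3) (nat_lit 0))) (BT.leaf (Hd.mk (List.cons (nat_lit 1921) (List.cons (nat_lit 195) (List.cons (nat_lit 165) (List.cons (nat_lit 153) (List.cons (nat_lit 291) (List.cons (nat_lit 265) (List.cons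 (nat_lit 325) (List.cons (nat_lit 273) (List.cons (nat_lit 1035) List.nil))))))))) (nat_lit 3) (nat_lit 0))))) (BT.node (BT.node (BT.leaf (Hd.mk (List.cons (nat_lit 1921) (List.cons (nat_lit 1137) (List.cons (nat_lit 1039) (List.cons (nat_lit 531) (List.cons (nat_lit 291) (List.cons (nat_lit 195) (List.cons (nat_lit 277) (List.cons (nat_lit 581) (List.cons (nat_lit 37) (List.cons (nat_lit 133) (List.cons (nat_lit 153) (List.cons (nat_lit 161)
  (List.cons (nat_lit 553) (List.cons (nat_lit 73) (List.cons (nat_lit 265) (List.cons (nat_lit 321) (List.cons (nat_lit 1298) (List.cons (nat_lit 1090) (List.cons (nat_lit 1186) (List.cons (nat_lit 1538) (List.cons (nat_lit 1168) List.nil))))))))))))))))))))) (nat_lit 3) (nat_lit 206))) (BT.leaf (Hd.mk (List.cons (nat_lit 1921) (List.cons (nat_lit 1137) (List.cons (nat_lit 589) (List.cons (nat_lit 1031) (List.cons (nat_lit 1033) List.nil))))) (nat_lit 3) (nat_lit 0)))) (BT.node (BT.leaf (Hd.mk (List.cons (nat_lit 1921) (List.cons (nat_lit 1137) (List.cons (nat_lit 589) (List.cons (nat_lit 1031) (List.cons (nat_lit 1033) (List.cons (nat_lit 531) (List.cons (nat_lit 545) (List.cons (nat_lit 195) (List.cons (nat_lit 321)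 (List.cons (nat_lit 11) (List.cons (nat_lit 35) (List.cons (nat_lit 259) (List.cons (nat_lit 277) (List.cons (nat_lit 165) (List.cons (nat_lit 153) (List.cons (nat_lit 297) (List.cons (nat_lit 1600) (List.cons (nat_lit 212) (List.cons (nat_lit 1092) (List.cons (nat_lit 644) (List.cons (nat_lit 1164) (List.cons (nat_lit 1216) (List.cons (nat_lit 1168) (List.cons (nat_lit 134) (List.cons (nat_lit 388) List.nil))))))))))))))))))))))))) (nat_lit 3) (nat_lit 206))) (BT.leaf (Hd.mk (List.cons (nat_lit 1921) (List.cons (nat_lit 195) (List.cons (nat_lit 165) (List.cons (nat_lit 137) (List.cons (nat_lit 145) (List.cons (nat_lit 275) (List.cons (nat_lit 325) (List.cons (nat_lit 265) (List.cons (nat_lit 289) (List.cons (nat_lit 15) (List.cons (nat_lit 547) (List.cons (nat_lit 1027) List.nil)))))))))))) (nat_lit 3) (nat_lit 0))))))) (BT.node (BT.node (BT.node (BT.node (BT.node (BT.leaf (Hd.mk (List.cons (nat_lit 1985) (List.cons (nat_lit 1081) (List.cons (nat_lit 1031) (List.cons (nat_lit 77) (List.cons (nat_lit 137) (List.cons (nat_lit 265) (List.cons (nat_lit 11) (List.cons (nat_lit 521) (List.cons (nat_lit 81) (List.cons (nat_lit 67) (List.cons (nat_lit 97) (List.cons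 (nat_lit 163) List.nil)))))))))))) (nat_lit 3) (nat_lit 0))) (BT.leaf (Hd.mk (List.cons (nat_lit 1921) (List.cons (nat_lit 195) List.nil)) (nat_lit 3) (nat_lit 0)))) (BT.leaf (Hd.mk (List.cons (nat_lit 1921) (List.cons (nat_lit 1137) (List.cons (nat_lit 589) (List.cons (nat_lit 1031) (List.cons (nat_lit 1033) (List.cons (nat_lit 531) (List.cons (nat_lit 545) (List.cons (nat_lit 195) (List.cons (nat_lit 321) (List.cons (nat_lit 11) (List.cons (nat_lit 35) (List.cons (nat_lit 259) (List.cons (nat_lit 277) (List.cons (nat_lit 165) (List.cons (nat_lit 153) (List.cons (nat_lit 297) (List.cons (nat_lit 1600) (List.cons (nat_lit 84) (List.cons (nat_lit 1220) (List.cons (nat_lit 1168) (List.cons (nat_lit 1044) (List.cons (nat_lit 1540) (List.cons (nat_lit 1560) (List.cons (nat_lit 1042) (List.cons (nat_lit 1296) (List.cons (nat_lit 1538) (List.cons (nat_lit 1568) (List.cons (nat_lit 776) (List.cons (nat_lit 644) (List.cons (nat_lit 148) (List.cons (nat_lit 532) List.nil))))))))))))))))))))))))))))))) (nat_lit 3) (nat_lit 206)))) (BT.node (BT.leaf (Hd.mk (List.cons (nat_lit 1921) (List.cons (nat_lit 1137) (List.cons (nat_lit 1039) (List.cons (nat_lit 531) (List.cons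 (nat_lit 291) (List.cons (nat_lit 195) (List.cons (nat_lit 277) (List.cons (nat_lit 581) (List.cons (nat_lit 37) (List.cons (nat_lit 133) (List.cons (nat_lit 25) (List.cons (nat_lit 145) List.nil)))))))))))) (nat_lit 3) (nat_lit 0))) (BT.leaf (Hd.mk (List.cons (nat_lit 1921) (List.cons (nat_lit 195) (List.cons (nat_lit 165) (List.cons (nat_lit 153) (List.cons (nat_lit 291) (List.cons (nat_lit 329) (List.cons (nat_lit 261) (List.cons (nat_lit 273) (List.cons (nat_lit 41) (List.cons (nat_lit 525) (List.cons (nat_lit 11) (List.cons (nat_lit 1033) List.nil)))))))))))) (nat_lit 3) (nat_lit 0))))) (BT.node (BT.node (BT.leaf (Hd.mk (List.cons (nat_lit 1985) (List.cons (nat_lit 99) (List.cons (nat_lit 69) (List.cons (nat_lit 73) (List.cons (nat_lit 81) (List.cons (nat_lit 147) (List.cons (nat_lit 259) (List.cons (nat_lit 515) List.nil)))))))) (nat_lit 3) (nat_lit 0))) (BT.leaf (Hd.mk (List.cons (nat_lit 1921)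
  (List.cons (nat_lit 1137) (List.cons (nat_lit 589) (List.cons (nat_lit 1031) (List.cons (nat_lit 1033) (List.cons (nat_lit 531) (List.cons (nat_lit 545) (List.cons (nat_lit 195) (List.cons (nat_lit 321) (List.cons (nat_lit 11) (List.cons (nat_lit 35) (List.cons (nat_lit 259) (List.cons (nat_lit 277) (List.cons (nat_lit 165) (List.cons (nat_lit 153) (List.cons (nat_lit 297) (List.cons (nat_lit 1600) (List.cons (nat_lit 84) (List.cons (nat_lit 196) (List.cons (nat_lit 1092) (List.cons (nat_lit 1216) List.nil))))))))))))))))))))) (nat_lit 3) (nat_lit 206)))) (BT.node (BT.leaf (Hd.mk (List.cons (nat_lit 1921) (List.cons (nat_lit 1137) (List.cons (nat_lit 589) (List.cons (nat_lit 1031) (List.cons (nat_lit 1033) (List.cons (nat_lit 531) (List.cons (nat_lit 545) (List.cons (nat_lit 195) (List.cons (nat_lit 321) (List.cons (nat_lit 11) (List.cons (nat_lit 35) (List.cons (nat_lit 259) (List.cons (nat_lit 277) (List.cons (nat_lit 165) (List.cons (nat_lit 153) (List.cons (nat_lit 297) (List.cons (nat_lit 1600) (List.cons (nat_lit 212) (List.cons (nat_lit 1348) (List.cons (nat_lit 592) (List.cons (nat_lit 1216) (List.cons (nat_lit 70) (List.cons (nat_lit 100) (List.cons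 (nat_lit 1090) (List.cons (nat_lit 1096) (List.cons (nat_lit 646) (List.cons (nat_lit 388) (List.cons (nat_lit 656) (List.cons (nat_lit 1168) (List.cons (nat_lit 704) (List.cons (nat_lit 532) (List.cons (nat_lit 1540) (List.cons (nat_lit 176) (List.cons (nat_lit 146) (List.cons (nat_lit 400) (List.cons (nat_lit 140) (List.cons (nat_lit 1156) List.nil))))))))))))))))))))))))))))))))))))) (nat_lit 3) (nat_lit 206))) (BT.leaf (Hd.mk (List.cons (nat_lit 1921) (List.cons (nat_lit 195) (List.cons (nat_lit 165) (List.cons (nat_lit 137) (List.cons (nat_lit 145) (List.cons (nat_lit 291) (List.cons (nat_lit 519) (List.cons (nat_lit 27) (List.cons (nat_lit 1027) (List.cons (nat_lit 269) (List.cons (nat_lit 273) (List.cons (nat_lit 321) List.nil)))))))))))) (nat_lit 3) (nat_lit 0)))))) (BT.node (BT.node (BT.node (BT.node (BT.leaf (Hd.mk (List.cons (nat_lit 1985) (List.cons (nat_lit 61) (List.cons (nat_lit 71) (List.cons (nat_lit 133) List.nil)))) (nat_lit 3) (nat_lit 0))) (BT.leaf (Hd.mk (List.cons (nat_lit 1031) (List.cons (nat_lit 523) (List.cons (nat_lit 275) (List.cons (nat_lit 35) List.nil)))) (nat_lit 3) (nat_lit 0)))) (BT.leaf (Hd.mk (List.cons (nat_lit 1921) (List.cons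 (nat_lit 1137) (List.cons (nat_lit 589) (List.cons (nat_lit 1031) (List.cons (nat_lit 1033) (List.cons (nat_lit 531) (List.cons (nat_lit 545) (List.cons (nat_lit 195) (List.cons (nat_lit 321) (List.cons (nat_lit 11) (List.cons (nat_lit 35) (List.cons (nat_lit 259) (List.cons (nat_lit 277) (List.cons (nat_lit 165) (List.cons (nat_lit 153) (List.cons (nat_lit 297) (List.cons (nat_lit 1600) (List.cons (nat_lit 84) (List.cons (nat_lit 196) (List.cons (nat_lit 1348) (List.cons (nat_lit 1216) (List.cons (nat_lit 70) (List.cons (nat_lit 100) (List.cons (nat_lit 1090) (List.cons (nat_lit 1096) List.nil))))))))))))))))))))))))) (nat_lit 3) (nat_lit 206)))) (BT.node (BT.leaf (Hd.mk (List.cons (nat_lit 1921) (List.cons (nat_lit 1137) (List.cons (nat_lit 1039) (List.cons (nat_lit 531) List.nil)))) (nat_lit 3) (nat_lit 0))) (BT.leaf (Hd.mk (List.cons (nat_lit 1921) (List.cons (nat_lit 195) (List.cons (nat_lit 165) (List.cons (nat_lit 153) (List.cons (nat_lit 291) (List.cons (nat_lit 265) (List.cons (nat_lit 261) List.nil))))))) (nat_lit 3) (nat_lit 0))))) (BT.node (BT.node (BT.leaf (Hd.mk (List.cons (nat_lit 1921) (List.cons (nat_lit 1137) (List.cons (nat_lit 1039) (List.cons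 (nat_lit 531) (List.cons (nat_lit 291) (List.cons (nat_lit 195) (List.cons (nat_lit 277) (List.cons (nat_lit 581) (List.cons (nat_lit 37) (List.cons (nat_lit 133) (List.cons (nat_lit 153) (List.cons (nat_lit 161) (List.cons (nat_lit 553) (List.cons (nat_lit 73) (List.cons (nat_lit 265) (List.cons (nat_lit 321) (List.cons (nat_lit 1298) List.nil))))))))))))))))) (nat_lit 3) (nat_lit 206))) (BT.leaf (Hd.mk (List.cons (nat_lit 1921) (List.cons
  (nat_lit 195) (List.cons (nat_lit 165) (List.cons (nat_lit 153) (List.cons (nat_lit 291) (List.cons (nat_lit 329) (List.cons (nat_lit 277) (List.cons (nat_lit 1043) (List.cons (nat_lit 519) (List.cons (nat_lit 11) List.nil)))))))))) (nat_lit 3) (nat_lit 0)))) (BT.node (BT.leaf (Hd.mk (List.cons (nat_lit 1921) (List.cons (nat_lit 1137) (List.cons (nat_lit 589) (List.cons (nat_lit 1031) (List.cons (nat_lit 1033) (List.cons (nat_lit 531) (List.cons (nat_lit 545) (List.cons (nat_lit 195) (List.cons (nat_lit 321) (List.cons (nat_lit 11) (List.cons (nat_lit 35) (List.cons (nat_lit 259) (List.cons (nat_lit 277) (List.cons (nat_lit 165) (List.cons (nat_lit 153) (List.cons (nat_lit 297) (List.cons (nat_lit 1600) (List.cons (nat_lit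 212) (List.cons (nat_lit 1092) (List.cons (nat_lit 644) (List.cons (nat_lit 1156) (List.cons (nat_lit 592) (List.cons (nat_lit 656) (List.cons (nat_lit 1168) (List.cons (nat_lit 704) (List.cons (nat_lit 1216) (List.cons (nat_lit 564) (List.cons (nat_lit 1540) (List.cons (nat_lit 30) (List.cons (nat_lit 1044) List.nil)))))))))))))))))))))))))))))) (nat_lit 3) (nat_lit 206))) (BT.leaf (Hd.mk (List.cons (nat_lit 1921) (List.cons (nat_lit 195) (List.cons (nat_lit 165) (List.cons (nat_lit 137) (List.cons (nat_lit 145) (List.cons (nat_lit 275) (List.cons (nat_lit 261) (List.cons (nat_lit 329) (List.cons (nat_lit 289) List.nil))))))))) (nat_lit 3) (nat_lit 0))))))))) (BT.node (BT.node (BT.node (BT.node (BT.node (BT.node (BT.node (BT.leaf (Hd.mk (List.cons (nat_lit 1985) (List.cons (nat_lit 1081) (List.cons (nat_lit 551) List.nil))) (nat_lit 4) (nat_lit 0))) (BT.leaf (Hd.mk (List.cons (nat_lit 1921) (List.cons (nat_lit 195) (List.cons (nat_lit 165) (List.cons (nat_lit 137) (List.cons (nat_lit 145) List.nil))))) (nat_lit 3) (nat_lit 0)))) (BT.leaf (Hd.mk (List.cons (nat_lit 1921) (List.cons (nat_lit 1137) (List.cons (nat_lit 589) (List.cons (nat_lit 1031) (List.cons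 (nat_lit 1033) (List.cons (nat_lit 531) (List.cons (nat_lit 545) (List.cons (nat_lit 195) (List.cons (nat_lit 321) (List.cons (nat_lit 11) (List.cons (nat_lit 35) (List.cons (nat_lit 259) (List.cons (nat_lit 277) (List.cons (nat_lit 165) (List.cons (nat_lit 153) (List.cons (nat_lit 297) (List.cons (nat_lit 1600) (List.cons (nat_lit 212) (List.cons (nat_lit 1092) List.nil))))))))))))))))))) (nat_lit 3) (nat_lit 206)))) (BT.node (BT.leaf (Hd.mk (List.cons (nat_lit 1921) (List.cons (nat_lit 1137) (List.cons (nat_lit 1039) (List.cons (nat_lit 531) (List.cons (nat_lit 291) (List.cons (nat_lit 195) (List.cons (nat_lit 277) (List.cons (nat_lit 581) (List.cons (nat_lit 37) (List.cons (nat_lit 133) (List.cons (nat_lit 153) (List.cons (nat_lit 161) (List.cons (nat_lit 553) (List.cons (nat_lit 73) (List.cons (nat_lit 265) (List.cons (nat_lit 321) (List.cons (nat_lit 1042) (List.cons (nat_lit 1154) (List.cons (nat_lit 1058) (List.cons (nat_lit 1282) (List.cons (nat_lit 1090) (List.cons (nat_lit 1538) (List.cons (nat_lit 1172) (List.cons (nat_lit 1348) (List.cons (nat_lit 1216) (List.cons (nat_lit 262) (List.cons (nat_lit 22) (List.cons (nat_lit 84) (List.cons (nat_lit 102)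 (List.cons (nat_lit 134) (List.cons (nat_lit 518) (List.cons (nat_lit 1060) (List.cons (nat_lit 1540) (List.cons (nat_lit 1568) List.nil)))))))))))))))))))))))))))))))))) (nat_lit 3) (nat_lit 206))) (BT.leaf (Hd.mk (List.cons (nat_lit 1921) (List.cons (nat_lit 195) (List.cons (nat_lit 165) (List.cons (nat_lit 153) (List.cons (nat_lit 291) (List.cons (nat_lit 329) (List.cons (nat_lit 277) (List.cons (nat_lit 19) (List.cons (nat_lit 515) (List.cons (nat_lit 7) (List.cons (nat_lit 11) (List.cons (nat_lit 1027) (List.cons (nat_lit 1037) List.nil))))))))))))) (nat_lit 3) (nat_lit 0))))) (BT.node (BT.node (BT.node (BT.leaf (Hd.mk (List.cons (nat_lit 1985) (List.cons (nat_lit 99) (List.cons (nat_lit 85) (List.cons (nat_lit 73) (List.cons (nat_lit 147) (List.cons (nat_lit 267) (List.cons (nat_lit 515) (List.cons (nat_lit 7) (List.cons (nat_lit 1027) List.nil))))))))) (nat_lit 3) (nat_lit 0))) (BT.leaf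
  (Hd.mk (List.cons (nat_lit 1031) (List.cons (nat_lit 11) (List.cons (nat_lit 19) (List.cons (nat_lit 35) List.nil)))) (nat_lit 3) (nat_lit 0)))) (BT.leaf (Hd.mk (List.cons (nat_lit 1921) (List.cons (nat_lit 1137) (List.cons (nat_lit 589) (List.cons (nat_lit 1031) (List.cons (nat_lit 1033) (List.cons (nat_lit 531) (List.cons (nat_lit 545) (List.cons (nat_lit 195) (List.cons (nat_lit 321) (List.cons (nat_lit 11) (List.cons (nat_lit 35) (List.cons (nat_lit 259) (List.cons (nat_lit 277) (List.cons (nat_lit 165) (List.cons (nat_lit 153) (List.cons (nat_lit 297) (List.cons (nat_lit 1600) (List.cons (nat_lit 84) (List.cons (nat_lit 196) (List.cons (nat_lit 1092) (List.cons (nat_lit 1216) (List.cons (nat_lit 660) List.nil)))))))))))))))))))))) (nat_lit 3) (nat_lit 206)))) (BT.node (BT.leaf (Hd.mk (List.cons (nat_lit 1921) (List.cons (nat_lit 1137) (List.cons (nat_lit 589) (List.cons (nat_lit 1031) (List.cons (nat_lit 1033) (List.cons (nat_lit 531) (List.cons (nat_lit 545) (List.cons (nat_lit 195) (List.cons (nat_lit 321) (List.cons (nat_lit 11) (List.cons (nat_lit 35) (List.cons (nat_lit 259) (List.cons (nat_lit 277) (List.cons (nat_lit 165) (List.cons (nat_lit 153)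 (List.cons (nat_lit 297) (List.cons (nat_lit 1602) (List.cons (nat_lit 212) (List.cons (nat_lit 1092) (List.cons (nat_lit 592) (List.cons (nat_lit 644) (List.cons (nat_lit 704) (List.cons (nat_lit 1156) (List.cons (nat_lit 656) (List.cons (nat_lit 1168) (List.cons (nat_lit 1216) (List.cons (nat_lit 1096) (List.cons (nat_lit 1344) (List.cons (nat_lit 608) (List.cons (nat_lit 832) (List.cons (nat_lit 1556) (List.cons (nat_lit 1544) (List.cons (nat_lit 1568) List.nil))))))))))))))))))))))))))))))))) (nat_lit 3) (nat_lit 206))) (BT.leaf (Hd.mk (List.cons (nat_lit 1921) (List.cons (nat_lit 195) (List.cons (nat_lit 165) (List.cons (nat_lit 137) (List.cons (nat_lit 145) (List.cons (nat_lit 291) (List.cons (nat_lit 531) (List.cons (nat_lit 1031) (List.cons (nat_lit 11) (List.cons (nat_lit 581) (List.cons (nat_lit 521) (List.cons (nat_lit 545) List.nil)))))))))))) (nat_lit 3) (nat_lit 0)))))) (BT.node (BT.node (BT.node (BT.node (BT.leaf (Hd.mk (List.cons (nat_lit 1985) (List.cons (nat_lit 1081) (List.cons (nat_lit 1031) (List.cons (nat_lit 73) (List.cons (nat_lit 67) (List.cons (nat_lit 81) (List.cons (nat_lit 69) (List.cons (nat_lit 97) (List.cons (nat_lit 141) (List.cons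 (nat_lit 265) List.nil)))))))))) (nat_lit 3) (nat_lit 0))) (BT.leaf (Hd.mk (List.cons (nat_lit 1031) (List.cons (nat_lit 523) (List.cons (nat_lit 275) (List.cons (nat_lit 163) (List.cons (nat_lit 67) (List.cons (nat_lit 269) (List.cons (nat_lit 101) List.nil))))))) (nat_lit 3) (nat_lit 0)))) (BT.leaf (Hd.mk (List.cons (nat_lit 1921) (List.cons (nat_lit 1137) (List.cons (nat_lit 589) (List.cons (nat_lit 1031) (List.cons (nat_lit 1033) (List.cons (nat_lit 531) (List.cons (nat_lit 545) (List.cons (nat_lit 195) (List.cons (nat_lit 321) (List.cons (nat_lit 11) (List.cons (nat_lit 35) (List.cons (nat_lit 259) (List.cons (nat_lit 277) (List.cons (nat_lit 165) (List.cons (nat_lit 153) (List.cons (nat_lit 297) (List.cons (nat_lit 1600) (List.cons (nat_lit 84) (List.cons (nat_lit 1220) (List.cons (nat_lit 1168) (List.cons (nat_lit 1044) (List.cons (nat_lit 1540) (List.cons (nat_lit 1552) (List.cons (nat_lit 644) (List.cons (nat_lit 148) (List.cons (nat_lit 532) (List.cons (nat_lit 208) (List.cons (nat_lit 592) (List.cons (nat_lit 656) (List.cons (nat_lit 704) (List.cons (nat_lit 140) (List.cons (nat_lit 134) (List.cons (nat_lit 388) (List.cons (nat_lit 1098) (List.cons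 (nat_lit 1344) List.nil))))))))))))))))))))))))))))))))))) (nat_lit 3) (nat_lit 206)))) (BT.node (BT.leaf (Hd.mk (List.cons (nat_lit 1921) (List.cons (nat_lit 1137) (List.cons (nat_lit 1039) (List.cons (nat_lit 531) (List.cons (nat_lit 291) (List.cons (nat_lit 67) (List.cons (nat_lit 131) (List.cons (nat_lit 277) (List.cons (nat_lit 153) (List.cons (nat_lit 41) (List.cons (nat_lit 329) (List.cons (nat_lit 521) List.nil)))))))))))) (nat_lit 3) (nat_lit 0)))
  (BT.leaf (Hd.mk (List.cons (nat_lit 1921) (List.cons (nat_lit 195) (List.cons (nat_lit 165) (List.cons (nat_lit 153) (List.cons (nat_lit 291) (List.cons (nat_lit 265) (List.cons (nat_lit 325) (List.cons (nat_lit 273) (List.cons (nat_lit 1035) (List.cons (nat_lit 13) (List.cons (nat_lit 1045) (List.cons (nat_lit 519) (List.cons (nat_lit 19) List.nil))))))))))))) (nat_lit 3) (nat_lit 0))))) (BT.node (BT.node (BT.leaf (Hd.mk (List.cons (nat_lit 1985) (List.cons (nat_lit 67) (List.cons (nat_lit 69) (List.cons (nat_lit 73) (List.cons (nat_lit 81) (List.cons (nat_lit 97) (List.cons (nat_lit 163) List.nil))))))) (nat_lit 3) (nat_lit 0))) (BT.leaf (Hd.mk (List.cons (nat_lit 1921) (List.cons (nat_lit 1137) (List.cons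 (nat_lit 589) (List.cons (nat_lit 1031) (List.cons (nat_lit 1033) (List.cons (nat_lit 531) (List.cons (nat_lit 545) List.nil))))))) (nat_lit 3) (nat_lit 0)))) (BT.node (BT.leaf (Hd.mk (List.cons (nat_lit 1921) (List.cons (nat_lit 1137) (List.cons (nat_lit 589) (List.cons (nat_lit 1031) (List.cons (nat_lit 1033) (List.cons (nat_lit 531) (List.cons (nat_lit 545) (List.cons (nat_lit 195) (List.cons (nat_lit 321) (List.cons (nat_lit 11) (List.cons (nat_lit 35) (List.cons (nat_lit 259) (List.cons (nat_lit 277) (List.cons (nat_lit 165) (List.cons (nat_lit 153) (List.cons (nat_lit 297) (List.cons (nat_lit 1600) (List.cons (nat_lit 212) (List.cons (nat_lit 1092) (List.cons (nat_lit 644) (List.cons (nat_lit 1164) (List.cons (nat_lit 1216) (List.cons (nat_lit 1168) (List.cons (nat_lit 134) (List.cons (nat_lit 388) (List.cons (nat_lit 1154) (List.cons (nat_lit 1184) (List.cons (nat_lit 268) (List.cons (nat_lit 1044) (List.cons (nat_lit 532) (List.cons (nat_lit 1284) (List.cons (nat_lit 1060) (List.cons (nat_lit 1540) (List.cons (nat_lit 592) (List.cons (nat_lit 656) (List.cons (nat_lit 1552) (List.cons (nat_lit 1312) (List.cons (nat_lit 704) List.nil))))))))))))))))))))))))))))))))))))))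 (nat_lit 3) (nat_lit 206))) (BT.leaf (Hd.mk (List.cons (nat_lit 1921) (List.cons (nat_lit 195) (List.cons (nat_lit 165) (List.cons (nat_lit 137) (List.cons (nat_lit 145) (List.cons (nat_lit 291) List.nil)))))) (nat_lit 3) (nat_lit 0))))))) (BT.node (BT.node (BT.node (BT.node (BT.node (BT.leaf (Hd.mk (List.cons (nat_lit 1985) (List.cons (nat_lit 1081) (List.cons (nat_lit 1031) (List.cons (nat_lit 77) (List.cons (nat_lit 137) (List.cons (nat_lit 265) (List.cons (nat_lit 11) (List.cons (nat_lit 521) (List.cons (nat_lit 83) (List.cons (nat_lit 97) (List.cons (nat_lit 163) (List.cons (nat_lit 259) (List.cons (nat_lit 515) List.nil))))))))))))) (nat_lit 3) (nat_lit 0))) (BT.leaf (Hd.mk (List.cons (nat_lit 1921) (List.cons (nat_lit 195) (List.cons (nat_lit 133) (List.cons (nat_lit 137) List.nil)))) (nat_lit 3) (nat_lit 0)))) (BT.leaf (Hd.mk (List.cons (nat_lit 1921) (List.cons (nat_lit 1137) (List.cons (nat_lit 589) (List.cons (nat_lit 1031) (List.cons (nat_lit 1033) (List.cons (nat_lit 531) (List.cons (nat_lit 545) (List.cons (nat_lit 195) (List.cons (nat_lit 321) (List.cons (nat_lit 11) (List.cons (nat_lit 35) (List.cons (nat_lit 259) (List.cons (nat_lit 277) (List.cons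 (nat_lit 165) (List.cons (nat_lit 153) (List.cons (nat_lit 297) (List.cons (nat_lit 1600) (List.cons (nat_lit 84) (List.cons (nat_lit 1220) (List.cons (nat_lit 1168) (List.cons (nat_lit 1044) (List.cons (nat_lit 1572) (List.cons (nat_lit 1552) (List.cons (nat_lit 704) (List.cons (nat_lit 1538) (List.cons (nat_lit 1544) List.nil)))))))))))))))))))))))))) (nat_lit 3) (nat_lit 206)))) (BT.node (BT.leaf (Hd.mk (List.cons (nat_lit 1921) (List.cons (nat_lit 1137) (List.cons (nat_lit 1039) (List.cons (nat_lit 531) (List.cons (nat_lit 291) (List.cons (nat_lit 195) (List.cons (nat_lit 277) (List.cons (nat_lit 581) (List.cons (nat_lit 37) (List.cons (nat_lit 133) (List.cons (nat_lit 153) (List.cons (nat_lit 161) (List.cons (nat_lit 553) (List.cons (nat_lit 73) (List.cons (nat_lit 265) (List.cons (nat_lit 321) List.nil)))))))))))))))) (nat_lit 3) (nat_lit 206))) (BT.leaf (Hd.mk (List.cons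
  (nat_lit 1921) (List.cons (nat_lit 195) (List.cons (nat_lit 165) (List.cons (nat_lit 153) (List.cons (nat_lit 291) (List.cons (nat_lit 329) (List.cons (nat_lit 261) (List.cons (nat_lit 273) (List.cons (nat_lit 41) (List.cons (nat_lit 525) (List.cons (nat_lit 1035) (List.cons (nat_lit 23) (List.cons (nat_lit 515) List.nil))))))))))))) (nat_lit 3) (nat_lit 0))))) (BT.node (BT.node (BT.leaf (Hd.mk (List.cons (nat_lit 1985) (List.cons (nat_lit 99) (List.cons (nat_lit 69) (List.cons (nat_lit 73) (List.cons (nat_lit 81) (List.cons (nat_lit 147) (List.cons (nat_lit 267) (List.cons (nat_lit 519) (List.cons (nat_lit 1027) List.nil))))))))) (nat_lit 3) (nat_lit 0))) (BT.leaf (Hd.mk (List.cons (nat_lit 1921) (List.cons (nat_lit 1137) (List.cons (nat_lit 589) (List.cons (nat_lit 1031) (List.cons (nat_lit 1033) (List.cons (nat_lit 531) (List.cons (nat_lit 545) (List.cons (nat_lit 195) (List.cons (nat_lit 321) (List.cons (nat_lit 11) (List.cons (nat_lit 35) (List.cons (nat_lit 259) (List.cons (nat_lit 277) (List.cons (nat_lit 165) (List.cons (nat_lit 153) (List.cons (nat_lit 297) (List.cons (nat_lit 1600) (List.cons (nat_lit 84) (List.cons (nat_lit 196) (List.cons (nat_lit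 1092) (List.cons (nat_lit 1216) (List.cons (nat_lit 644) (List.cons (nat_lit 148) (List.cons (nat_lit 1156) (List.cons (nat_lit 1168) List.nil))))))))))))))))))))))))) (nat_lit 3) (nat_lit 206)))) (BT.node (BT.leaf (Hd.mk (List.cons (nat_lit 1921) (List.cons (nat_lit 1137) (List.cons (nat_lit 589) (List.cons (nat_lit 1031) (List.cons (nat_lit 1033) (List.cons (nat_lit 531) (List.cons (nat_lit 545) (List.cons (nat_lit 195) (List.cons (nat_lit 321) (List.cons (nat_lit 11) (List.cons (nat_lit 35) (List.cons (nat_lit 259) (List.cons (nat_lit 277) (List.cons (nat_lit 165) (List.cons (nat_lit 153) (List.cons (nat_lit 297) (List.cons (nat_lit 1602) (List.cons (nat_lit 84) (List.cons (nat_lit 1092) List.nil))))))))))))))))))) (nat_lit 3) (nat_lit 206))) (BT.leaf (Hd.mk (List.cons (nat_lit 1921) (List.cons (nat_lit 195) (List.cons (nat_lit 165) (List.cons (nat_lit 137) (List.cons (nat_lit 145) (List.cons (nat_lit 291) (List.cons (nat_lit 531) List.nil))))))) (nat_lit 3) (nat_lit 0)))))) (BT.node (BT.node (BT.node (BT.node (BT.leaf (Hd.mk (List.cons (nat_lit 1985) (List.cons (nat_lit 1081) List.nil)) (nat_lit 4) (nat_lit 0))) (BT.leaf (Hd.mk (List.cons (nat_lit 1031)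 (List.cons (nat_lit 523) (List.cons (nat_lit 275) (List.cons (nat_lit 35) (List.cons (nat_lit 67) (List.cons (nat_lit 131) (List.cons (nat_lit 141) List.nil))))))) (nat_lit 3) (nat_lit 0)))) (BT.leaf (Hd.mk (List.cons (nat_lit 1921) (List.cons (nat_lit 1137) (List.cons (nat_lit 589) (List.cons (nat_lit 1031) (List.cons (nat_lit 1033) (List.cons (nat_lit 531) (List.cons (nat_lit 545) (List.cons (nat_lit 195) (List.cons (nat_lit 321) (List.cons (nat_lit 11) (List.cons (nat_lit 35) (List.cons (nat_lit 259) (List.cons (nat_lit 277) (List.cons (nat_lit 165) (List.cons (nat_lit 153) (List.cons (nat_lit 297) (List.cons (nat_lit 1600) (List.cons (nat_lit 84) (List.cons (nat_lit 196) (List.cons (nat_lit 1348) (List.cons (nat_lit 1216) (List.cons (nat_lit 70) (List.cons (nat_lit 100) (List.cons (nat_lit 1098) (List.cons (nat_lit 88) (List.cons (nat_lit 268) (List.cons (nat_lit 82) List.nil))))))))))))))))))))))))))) (nat_lit 3) (nat_lit 206)))) (BT.node (BT.leaf (Hd.mk (List.cons (nat_lit 1921) (List.cons (nat_lit 1137) (List.cons (nat_lit 1039) (List.cons (nat_lit 531) (List.cons (nat_lit 35) (List.cons (nat_lit 131) List.nil)))))) (nat_lit 3) (nat_lit 0))) (BT.leaf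 (Hd.mk (List.cons (nat_lit 1921) (List.cons (nat_lit 195) (List.cons (nat_lit 165) (List.cons (nat_lit 153) (List.cons (nat_lit 291) (List.cons (nat_lit 265) (List.cons (nat_lit 261) (List.cons (nat_lit 273) (List.cons (nat_lit 321) (List.cons (nat_lit 1035) List.nil)))))))))) (nat_lit 3) (nat_lit 0))))) (BT.node (BT.node (BT.leaf (Hd.mk (List.cons (nat_lit 1921) (List.cons (nat_lit 1137) (List.cons (nat_lit 1039) (List.cons (nat_lit 531) (List.cons (nat_lit 291)
  (List.cons (nat_lit 195) (List.cons (nat_lit 277) (List.cons (nat_lit 581) (List.cons (nat_lit 37) (List.cons (nat_lit 133) (List.cons (nat_lit 153) (List.cons (nat_lit 161) (List.cons (nat_lit 553) (List.cons (nat_lit 73) (List.cons (nat_lit 265) (List.cons (nat_lit 321) (List.cons (nat_lit 1298) (List.cons (nat_lit 1090) (List.cons (nat_lit 1154) (List.cons (nat_lit 1058) (List.cons (nat_lit 1538) (List.cons (nat_lit 1048) (List.cons (nat_lit 1544) (List.cons (nat_lit 1600) (List.cons (nat_lit 1168) (List.cons (nat_lit 1044) (List.cons (nat_lit 1552) (List.cons (nat_lit 1540) (List.cons (nat_lit 1568) List.nil))))))))))))))))))))))))))))) (nat_lit 3) (nat_lit 206))) (BT.leaf (Hd.mk (List.cons (nat_lit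 1921) (List.cons (nat_lit 195) (List.cons (nat_lit 165) (List.cons (nat_lit 153) (List.cons (nat_lit 291) (List.cons (nat_lit 329) (List.cons (nat_lit 277) (List.cons (nat_lit 1043) (List.cons (nat_lit 519) (List.cons (nat_lit 11) (List.cons (nat_lit 13) (List.cons (nat_lit 1093) (List.cons (nat_lit 521) (List.cons (nat_lit 1065) (List.cons (nat_lit 561) (List.cons (nat_lit 81) (List.cons (nat_lit 97) (List.cons (nat_lit 577) List.nil)))))))))))))))))) (nat_lit 3) (nat_lit 0)))) (BT.node (BT.leaf (Hd.mk (List.cons (nat_lit 1921) (List.cons (nat_lit 1137) (List.cons (nat_lit 589) (List.cons (nat_lit 1031) (List.cons (nat_lit 1033) (List.cons (nat_lit 531) (List.cons (nat_lit 545) (List.cons (nat_lit 195) (List.cons (nat_lit 321) (List.cons (nat_lit 11) (List.cons (nat_lit 35) (List.cons (nat_lit 259) (List.cons (nat_lit 277) (List.cons (nat_lit 165) (List.cons (nat_lit 153) (List.cons (nat_lit 297) (List.cons (nat_lit 1600) (List.cons (nat_lit 212) (List.cons (nat_lit 1092) (List.cons (nat_lit 644) (List.cons (nat_lit 1156) (List.cons (nat_lit 592) (List.cons (nat_lit 656) (List.cons (nat_lit 1168) (List.cons (nat_lit 704) (List.cons (nat_lit 1216) (List.cons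 (nat_lit 1556) (List.cons (nat_lit 28) (List.cons (nat_lit 22) (List.cons (nat_lit 52) (List.cons (nat_lit 1546) (List.cons (nat_lit 1568) List.nil)))))))))))))))))))))))))))))))) (nat_lit 3) (nat_lit 206))) (BT.leaf (Hd.mk (List.cons (nat_lit 1921) (List.cons (nat_lit 195) (List.cons (nat_lit 165) (List.cons (nat_lit 137) (List.cons (nat_lit 145) (List.cons (nat_lit 275) (List.cons (nat_lit 261) (List.cons (nat_lit 329) (List.cons (nat_lit 289) (List.cons (nat_lit 1031) (List.cons (nat_lit 43) (List.cons (nat_lit 515) List.nil)))))))))))) (nat_lit 3) (nat_lit 0)))))))) (BT.node (BT.node (BT.node (BT.node (BT.node (BT.node (BT.leaf (Hd.mk (List.cons (nat_lit 1985) (List.cons (nat_lit 1081) (List.cons (nat_lit 1031) (List.cons (nat_lit 77) (List.cons (nat_lit 139) (List.cons (nat_lit 265) (List.cons (nat_lit 521) (List.cons (nat_lit 83) (List.cons (nat_lit 97) List.nil))))))))) (nat_lit 3) (nat_lit 0))) (BT.leaf (Hd.mk (List.cons (nat_lit 1921) (List.cons (nat_lit 195) (List.cons (nat_lit 133) (List.cons (nat_lit 137) (List.cons (nat_lit 145) (List.cons (nat_lit 161) (List.cons (nat_lit 291) (List.cons (nat_lit 531) List.nil)))))))) (nat_lit 3) (nat_lit 0))))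 (BT.leaf (Hd.mk (List.cons (nat_lit 1921) (List.cons (nat_lit 1137) (List.cons (nat_lit 589) (List.cons (nat_lit 1031) (List.cons (nat_lit 1033) (List.cons (nat_lit 531) (List.cons (nat_lit 545) (List.cons (nat_lit 195) (List.cons (nat_lit 321) (List.cons (nat_lit 11) (List.cons (nat_lit 35) (List.cons (nat_lit 259) (List.cons (nat_lit 277) (List.cons (nat_lit 165) (List.cons (nat_lit 153) (List.cons (nat_lit 297) (List.cons (nat_lit 1600) (List.cons (nat_lit 84) (List.cons (nat_lit 1220) (List.cons (nat_lit 1168) (List.cons (nat_lit 1052) (List.cons (nat_lit 1552) (List.cons (nat_lit 140) (List.cons (nat_lit 1042) (List.cons (nat_lit 1296) (List.cons (nat_lit 44) (List.cons (nat_lit 14) (List.cons (nat_lit 268) (List.cons (nat_lit 388) (List.cons (nat_lit 1284) (List.cons (nat_lit 1060) (List.cons (nat_lit 1540) (List.cons (nat_lit 1312) (List.cons (nat_lit 150) (List.cons (nat_lit 644) (List.cons (nat_lit 52)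
  (List.cons (nat_lit 532) List.nil))))))))))))))))))))))))))))))))))))) (nat_lit 3) (nat_lit 206)))) (BT.node (BT.leaf (Hd.mk (List.cons (nat_lit 1921) (List.cons (nat_lit 1137) (List.cons (nat_lit 1039) (List.cons (nat_lit 531) (List.cons (nat_lit 291) (List.cons (nat_lit 195) (List.cons (nat_lit 277) (List.cons (nat_lit 581) (List.cons (nat_lit 37) (List.cons (nat_lit 133) (List.cons (nat_lit 153) (List.cons (nat_lit 161) (List.cons (nat_lit 553) (List.cons (nat_lit 73) (List.cons (nat_lit 265) (List.cons (nat_lit 321) (List.cons (nat_lit 1042) (List.cons (nat_lit 1154) (List.cons (nat_lit 1058) (List.cons (nat_lit 1282) (List.cons (nat_lit 1090) (List.cons (nat_lit 1538) (List.cons (nat_lit 1172) (List.cons (nat_lit 1092) (List.cons (nat_lit 1284) (List.cons (nat_lit 1060) (List.cons (nat_lit 1540) (List.cons (nat_lit 1568) (List.cons (nat_lit 1296) (List.cons (nat_lit 1560) (List.cons (nat_lit 1600) (List.cons (nat_lit 1312) (List.cons (nat_lit 1216) (List.cons (nat_lit 1192) (List.cons (nat_lit 1352) (List.cons (nat_lit 656) List.nil)))))))))))))))))))))))))))))))))))) (nat_lit 3) (nat_lit 206))) (BT.leaf (Hd.mk (List.cons (nat_lit 1921) (List.cons (nat_lit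 195) (List.cons (nat_lit 165) (List.cons (nat_lit 153) (List.cons (nat_lit 291) (List.cons (nat_lit 329) (List.cons (nat_lit 261) (List.cons (nat_lit 273) (List.cons (nat_lit 1065) (List.cons (nat_lit 11) (List.cons (nat_lit 525) (List.cons (nat_lit 531) (List.cons (nat_lit 1031) List.nil))))))))))))) (nat_lit 3) (nat_lit 0))))) (BT.node (BT.node (BT.node (BT.leaf (Hd.mk (List.cons (nat_lit 1985) (List.cons (nat_lit 99) (List.cons (nat_lit 85) (List.cons (nat_lit 73) (List.cons (nat_lit 139) (List.cons (nat_lit 165) (List.cons (nat_lit 145) List.nil))))))) (nat_lit 3) (nat_lit 0))) (BT.leaf (Hd.mk List.nil (nat_lit 5) (nat_lit 0)))) (BT.leaf (Hd.mk (List.cons (nat_lit 1921) (List.cons (nat_lit 1137) (List.cons (nat_lit 589) (List.cons (nat_lit 1031) (List.cons (nat_lit 1033) (List.cons (nat_lit 531) (List.cons (nat_lit 545) (List.cons (nat_lit 195) (List.cons (nat_lit 321) (List.cons (nat_lit 11) (List.cons (nat_lit 35) (List.cons (nat_lit 259) (List.cons (nat_lit 277) (List.cons (nat_lit 165) (List.cons (nat_lit 153) (List.cons (nat_lit 297) (List.cons (nat_lit 1600) (List.cons (nat_lit 84) (List.cons (nat_lit 196) (List.cons (nat_lit 1092) (List.cons (nat_lit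 1216) (List.cons (nat_lit 644) (List.cons (nat_lit 150) (List.cons (nat_lit 1168) (List.cons (nat_lit 388) (List.cons (nat_lit 140) (List.cons (nat_lit 1156) (List.cons (nat_lit 14) (List.cons (nat_lit 268) (List.cons (nat_lit 1284) (List.cons (nat_lit 1312) List.nil))))))))))))))))))))))))))))))) (nat_lit 3) (nat_lit 206)))) (BT.node (BT.leaf (Hd.mk (List.cons (nat_lit 1921) (List.cons (nat_lit 1137) (List.cons (nat_lit 589) (List.cons (nat_lit 1031) (List.cons (nat_lit 1033) (List.cons (nat_lit 531) (List.cons (nat_lit 545) (List.cons (nat_lit 195) (List.cons (nat_lit 321) (List.cons (nat_lit 11) (List.cons (nat_lit 35) (List.cons (nat_lit 259) (List.cons (nat_lit 277) (List.cons (nat_lit 165) (List.cons (nat_lit 153) (List.cons (nat_lit 297) (List.cons (nat_lit 1602) (List.cons (nat_lit 84) (List.cons (nat_lit 1220) (List.cons (nat_lit 1096) (List.cons (nat_lit 1344) (List.cons (nat_lit 1168) (List.cons (nat_lit 1540) (List.cons (nat_lit 1552) (List.cons (nat_lit 592) (List.cons (nat_lit 704) (List.cons (nat_lit 1044) (List.cons (nat_lit 1544) (List.cons (nat_lit 1568) (List.cons (nat_lit 208) (List.cons (nat_lit 608) (List.cons (nat_lit 832) (List.cons (nat_lit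 644) (List.cons (nat_lit 148) (List.cons (nat_lit 532) (List.cons (nat_lit 656) List.nil)))))))))))))))))))))))))))))))))))) (nat_lit 3) (nat_lit 206))) (BT.leaf (Hd.mk (List.cons (nat_lit 1921) (List.cons (nat_lit 195) (List.cons (nat_lit 165) (List.cons (nat_lit 137) (List.cons (nat_lit 145) (List.cons (nat_lit 291) (List.cons (nat_lit 531) (List.cons (nat_lit 15) (List.cons (nat_lit 1027) (List.cons (nat_lit 581) (List.cons (nat_lit 261)
  (List.cons (nat_lit 21) (List.cons (nat_lit 1029) List.nil))))))))))))) (nat_lit 3) (nat_lit 0)))))) (BT.node (BT.node (BT.node (BT.node (BT.leaf (Hd.mk (List.cons (nat_lit 1985) (List.cons (nat_lit 1081) (List.cons (nat_lit 1027) (List.cons (nat_lit 1029) (List.cons (nat_lit 77) (List.cons (nat_lit 137) (List.cons (nat_lit 265) List.nil))))))) (nat_lit 3) (nat_lit 0))) (BT.leaf (Hd.mk (List.cons (nat_lit 1031) (List.cons (nat_lit 523) (List.cons (nat_lit 275) (List.cons (nat_lit 163) (List.cons (nat_lit 67) (List.cons (nat_lit 77) (List.cons (nat_lit 21) List.nil))))))) (nat_lit 3) (nat_lit 0)))) (BT.leaf (Hd.mk (List.cons (nat_lit 1921) (List.cons (nat_lit 1137) (List.cons (nat_lit 589) (List.cons (nat_lit 1031) (List.cons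 (nat_lit 1033) (List.cons (nat_lit 531) (List.cons (nat_lit 545) (List.cons (nat_lit 195) (List.cons (nat_lit 321) (List.cons (nat_lit 11) (List.cons (nat_lit 35) (List.cons (nat_lit 259) (List.cons (nat_lit 277) (List.cons (nat_lit 165) (List.cons (nat_lit 153) (List.cons (nat_lit 297) (List.cons (nat_lit 1600) (List.cons (nat_lit 84) (List.cons (nat_lit 452) (List.cons (nat_lit 1092) (List.cons (nat_lit 70) (List.cons (nat_lit 100) (List.cons (nat_lit 394) (List.cons (nat_lit 140) List.nil)))))))))))))))))))))))) (nat_lit 3) (nat_lit 206)))) (BT.node (BT.leaf (Hd.mk (List.cons (nat_lit 1921) (List.cons (nat_lit 1137) (List.cons (nat_lit 1039) (List.cons (nat_lit 531) (List.cons (nat_lit 291) (List.cons (nat_lit 67) (List.cons (nat_lit 131) List.nil))))))) (nat_lit 3) (nat_lit 0))) (BT.leaf (Hd.mk (List.cons (nat_lit 1921) (List.cons (nat_lit 195) (List.cons (nat_lit 165) (List.cons (nat_lit 153) (List.cons (nat_lit 291) (List.cons (nat_lit 265) (List.cons (nat_lit 325) (List.cons (nat_lit 273) (List.cons (nat_lit 11) (List.cons (nat_lit 519) (List.cons (nat_lit 19) (List.cons (nat_lit 1027) List.nil)))))))))))) (nat_lit 3) (nat_lit 0))))) (BT.node (BT.node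 (BT.leaf (Hd.mk (List.cons (nat_lit 1921) (List.cons (nat_lit 1137) (List.cons (nat_lit 1039) (List.cons (nat_lit 531) (List.cons (nat_lit 291) (List.cons (nat_lit 195) (List.cons (nat_lit 277) (List.cons (nat_lit 581) (List.cons (nat_lit 37) (List.cons (nat_lit 133) (List.cons (nat_lit 153) (List.cons (nat_lit 161) (List.cons (nat_lit 553) (List.cons (nat_lit 73) (List.cons (nat_lit 265) (List.cons (nat_lit 321) (List.cons (nat_lit 1298) (List.cons (nat_lit 1090) (List.cons (nat_lit 1154) (List.cons (nat_lit 1570) (List.cons (nat_lit 1540) (List.cons (nat_lit 1048) (List.cons (nat_lit 1552) (List.cons (nat_lit 1284) (List.cons (nat_lit 1312) (List.cons (nat_lit 1064) (List.cons (nat_lit 1044) (List.cons (nat_lit 1168) (List.cons (nat_lit 1188) (List.cons (nat_lit 1092) (List.cons (nat_lit 1160) (List.cons (nat_lit 1216) (List.cons (nat_lit 1352) (List.cons (nat_lit 1544) (List.cons (nat_lit 1600) List.nil))))))))))))))))))))))))))))))))))) (nat_lit 3) (nat_lit 206))) (BT.leaf (Hd.mk (List.cons (nat_lit 1921) (List.cons (nat_lit 1137) (List.cons (nat_lit 527) List.nil))) (nat_lit 4) (nat_lit 0)))) (BT.node (BT.leaf (Hd.mk (List.cons (nat_lit 1921) (List.cons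 (nat_lit 1137) (List.cons (nat_lit 589) (List.cons (nat_lit 1031) (List.cons (nat_lit 1033) (List.cons (nat_lit 531) (List.cons (nat_lit 545) (List.cons (nat_lit 195) (List.cons (nat_lit 321) (List.cons (nat_lit 11) (List.cons (nat_lit 35) (List.cons (nat_lit 259) (List.cons (nat_lit 277) (List.cons (nat_lit 165) (List.cons (nat_lit 153) (List.cons (nat_lit 297) (List.cons (nat_lit 1600) (List.cons (nat_lit 212) (List.cons (nat_lit 1092) (List.cons (nat_lit 644) (List.cons (nat_lit 1156) (List.cons (nat_lit 592) (List.cons (nat_lit 688) (List.cons (nat_lit 704) (List.cons (nat_lit 642) (List.cons (nat_lit 648) List.nil)))))))))))))))))))))))))) (nat_lit 3) (nat_lit 206))) (BT.leaf (Hd.mk (List.cons (nat_lit 1921) (List.cons (nat_lit 195) (List.cons (nat_lit 165) (List.cons (nat_lit 137) (List.cons (nat_lit 145) (List.cons (nat_lit 275) (List.cons (nat_lit 325) (List.cons (nat_lit 265) (List.cons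
  (nat_lit 289) List.nil))))))))) (nat_lit 3) (nat_lit 0))))))) (BT.node (BT.node (BT.node (BT.node (BT.node (BT.leaf (Hd.mk (List.cons (nat_lit 1985) (List.cons (nat_lit 1081) (List.cons (nat_lit 1031) (List.cons (nat_lit 73) (List.cons (nat_lit 99) (List.cons (nat_lit 85) (List.cons (nat_lit 145) (List.cons (nat_lit 131) (List.cons (nat_lit 137) (List.cons (nat_lit 133) (List.cons (nat_lit 161) (List.cons (nat_lit 275) (List.cons (nat_lit 529) List.nil))))))))))))) (nat_lit 3) (nat_lit 0))) (BT.leaf (Hd.mk (List.cons (nat_lit 1921) List.nil) (nat_lit 4) (nat_lit 0)))) (BT.leaf (Hd.mk (List.cons (nat_lit 1921) (List.cons (nat_lit 1137) (List.cons (nat_lit 589) (List.cons (nat_lit 1031) (List.cons (nat_lit 1033) (List.cons (nat_lit 531) (List.cons (nat_lit 545) (List.cons (nat_lit 195) (List.cons (nat_lit 321) (List.cons (nat_lit 11) (List.cons (nat_lit 35) (List.cons (nat_lit 259) (List.cons (nat_lit 277) (List.cons (nat_lit 165) (List.cons (nat_lit 153) (List.cons (nat_lit 297) (List.cons (nat_lit 1600) (List.cons (nat_lit 84) (List.cons (nat_lit 1220) (List.cons (nat_lit 1168) (List.cons (nat_lit 1044) (List.cons (nat_lit 1540) (List.cons (nat_lit 1560) List.nil)))))))))))))))))))))))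 (nat_lit 3) (nat_lit 206)))) (BT.node (BT.leaf (Hd.mk (List.cons (nat_lit 1921) (List.cons (nat_lit 1137) (List.cons (nat_lit 1039) (List.cons (nat_lit 531) (List.cons (nat_lit 291) (List.cons (nat_lit 195) (List.cons (nat_lit 277) (List.cons (nat_lit 69) (List.cons (nat_lit 133) (List.cons (nat_lit 37) (List.cons (nat_lit 517) (List.cons (nat_lit 153) (List.cons (nat_lit 161) List.nil))))))))))))) (nat_lit 3) (nat_lit 0))) (BT.leaf (Hd.mk (List.cons (nat_lit 1921) (List.cons (nat_lit 195) (List.cons (nat_lit 165) (List.cons (nat_lit 153) (List.cons (nat_lit 291) (List.cons (nat_lit 329) (List.cons (nat_lit 261) (List.cons (nat_lit 273) List.nil)))))))) (nat_lit 3) (nat_lit 0))))) (BT.node (BT.node (BT.leaf (Hd.mk (List.cons (nat_lit 1985) (List.cons (nat_lit 99) (List.cons (nat_lit 69) (List.cons (nat_lit 73) (List.cons (nat_lit 81) (List.cons (nat_lit 147) List.nil)))))) (nat_lit 3) (nat_lit 0))) (BT.leaf (Hd.mk (List.cons (nat_lit 1921) (List.cons (nat_lit 1137) (List.cons (nat_lit 589) (List.cons (nat_lit 1031) (List.cons (nat_lit 1033) (List.cons (nat_lit 531) (List.cons (nat_lit 545) (List.cons (nat_lit 195) (List.cons (nat_lit 321) (List.cons (nat_lit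 11) (List.cons (nat_lit 35) (List.cons (nat_lit 259) (List.cons (nat_lit 277) (List.cons (nat_lit 165) (List.cons (nat_lit 153) (List.cons (nat_lit 297) (List.cons (nat_lit 1600) List.nil))))))))))))))))) (nat_lit 3) (nat_lit 206)))) (BT.node (BT.leaf (Hd.mk (List.cons (nat_lit 1921) (List.cons (nat_lit 1137) (List.cons (nat_lit 589) (List.cons (nat_lit 1031) (List.cons (nat_lit 1033) (List.cons (nat_lit 531) (List.cons (nat_lit 545) (List.cons (nat_lit 195) (List.cons (nat_lit 321) (List.cons (nat_lit 11) (List.cons (nat_lit 35) (List.cons (nat_lit 259) (List.cons (nat_lit 277) (List.cons (nat_lit 165) (List.cons (nat_lit 153) (List.cons (nat_lit 297) (List.cons (nat_lit 1600) (List.cons (nat_lit 212) (List.cons (nat_lit 1348) (List.cons (nat_lit 592) (List.cons (nat_lit 1216) (List.cons (nat_lit 70) (List.cons (nat_lit 100) (List.cons (nat_lit 1090) (List.cons (nat_lit 1096) (List.cons (nat_lit 644) (List.cons (nat_lit 1156) (List.cons (nat_lit 656) (List.cons (nat_lit 1168) (List.cons (nat_lit 1312) List.nil)))))))))))))))))))))))))))))) (nat_lit 3) (nat_lit 206))) (BT.leaf (Hd.mk (List.cons (nat_lit 1921) (List.cons (nat_lit 195) (List.cons (nat_lit 165)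 (List.cons (nat_lit 137) (List.cons (nat_lit 145) (List.cons (nat_lit 291) (List.cons (nat_lit 519) (List.cons (nat_lit 11) (List.cons (nat_lit 19) (List.cons (nat_lit 1027) (List.cons (nat_lit 277) List.nil))))))))))) (nat_lit 3) (nat_lit 0)))))) (BT.node (BT.node (BT.node (BT.node (BT.leaf (Hd.mk (List.cons (nat_lit 1985) (List.cons (nat_lit 99) (List.cons (nat_lit 85) (List.cons (nat_lit 73) (List.cons (nat_lit 147) (List.cons
  (nat_lit 267) (List.cons (nat_lit 519) (List.cons (nat_lit 1027) (List.cons (nat_lit 293) (List.cons (nat_lit 273) (List.cons (nat_lit 133) List.nil))))))))))) (nat_lit 3) (nat_lit 0))) (BT.leaf (Hd.mk (List.cons (nat_lit 1031) (List.cons (nat_lit 523) (List.cons (nat_lit 19) (List.cons (nat_lit 35) (List.cons (nat_lit 67) List.nil))))) (nat_lit 3) (nat_lit 0)))) (BT.leaf (Hd.mk (List.cons (nat_lit 1921) (List.cons (nat_lit 1137) (List.cons (nat_lit 589) (List.cons (nat_lit 1031) (List.cons (nat_lit 1033) (List.cons (nat_lit 531) (List.cons (nat_lit 545) (List.cons (nat_lit 195) (List.cons (nat_lit 321) (List.cons (nat_lit 11) (List.cons (nat_lit 35) (List.cons (nat_lit 259) (List.cons (nat_lit 277) (List.cons (nat_lit 165) (List.cons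 (nat_lit 153) (List.cons (nat_lit 297) (List.cons (nat_lit 1600) (List.cons (nat_lit 84) (List.cons (nat_lit 196) (List.cons (nat_lit 1092) (List.cons (nat_lit 1224) (List.cons (nat_lit 1090) List.nil)))))))))))))))))))))) (nat_lit 3) (nat_lit 206)))) (BT.node (BT.leaf (Hd.mk (List.cons (nat_lit 1921) (List.cons (nat_lit 1137) (List.cons (nat_lit 589) (List.cons (nat_lit 299) (List.cons (nat_lit 1033) (List.cons (nat_lit 545) (List.cons (nat_lit 321) (List.cons (nat_lit 195) (List.cons (nat_lit 531) (List.cons (nat_lit 7) (List.cons (nat_lit 1027) (List.cons (nat_lit 1029) List.nil)))))))))))) (nat_lit 3) (nat_lit 0))) (BT.leaf (Hd.mk (List.cons (nat_lit 1921) (List.cons (nat_lit 195) (List.cons (nat_lit 165) (List.cons (nat_lit 153) (List.cons (nat_lit 291) List.nil))))) (nat_lit 3) (nat_lit 0))))) (BT.node (BT.node (BT.leaf (Hd.mk (List.cons (nat_lit 1921) (List.cons (nat_lit 1137) (List.cons (nat_lit 1039) (List.cons (nat_lit 531) (List.cons (nat_lit 291) (List.cons (nat_lit 195) (List.cons (nat_lit 277) (List.cons (nat_lit 581) (List.cons (nat_lit 37) (List.cons (nat_lit 133) (List.cons (nat_lit 153) (List.cons (nat_lit 161) (List.cons (nat_lit 553) (List.cons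 (nat_lit 73) (List.cons (nat_lit 265) (List.cons (nat_lit 321) (List.cons (nat_lit 1042) (List.cons (nat_lit 1186) (List.cons (nat_lit 1346) (List.cons (nat_lit 1538) (List.cons (nat_lit 1092) (List.cons (nat_lit 1172) (List.cons (nat_lit 146) (List.cons (nat_lit 1284) (List.cons (nat_lit 390) (List.cons (nat_lit 518) (List.cons (nat_lit 1296) (List.cons (nat_lit 54) (List.cons (nat_lit 70) (List.cons (nat_lit 82) (List.cons (nat_lit 1060) (List.cons (nat_lit 1540) (List.cons (nat_lit 1568) List.nil))))))))))))))))))))))))))))))))) (nat_lit 3) (nat_lit 206))) (BT.leaf (Hd.mk (List.cons (nat_lit 1921) (List.cons (nat_lit 195) (List.cons (nat_lit 165) (List.cons (nat_lit 153) (List.cons (nat_lit 291) (List.cons (nat_lit 329) (List.cons (nat_lit 277) (List.cons (nat_lit 1043) List.nil)))))))) (nat_lit 3) (nat_lit 0)))) (BT.node (BT.leaf (Hd.mk (List.cons (nat_lit 1921) (List.cons (nat_lit 1137) (List.cons (nat_lit 589) (List.cons (nat_lit 1031) (List.cons (nat_lit 1033) (List.cons (nat_lit 531) (List.cons (nat_lit 545) (List.cons (nat_lit 195) (List.cons (nat_lit 321) (List.cons (nat_lit 11) (List.cons (nat_lit 35) (List.cons (nat_lit 259) (List.cons (nat_lit 277)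 (List.cons (nat_lit 165) (List.cons (nat_lit 153) (List.cons (nat_lit 297) (List.cons (nat_lit 1600) (List.cons (nat_lit 212) (List.cons (nat_lit 1092) (List.cons (nat_lit 644) (List.cons (nat_lit 1156) (List.cons (nat_lit 592) (List.cons (nat_lit 656) (List.cons (nat_lit 1168) (List.cons (nat_lit 704) (List.cons (nat_lit 1216) (List.cons (nat_lit 532) (List.cons (nat_lit 1044) (List.cons (nat_lit 1572) (List.cons (nat_lit 1552) List.nil)))))))))))))))))))))))))))))) (nat_lit 3) (nat_lit 206))) (BT.leaf (Hd.mk (List.cons (nat_lit 1921) (List.cons (nat_lit 195) (List.cons (nat_lit 165) (List.cons (nat_lit 137) (List.cons (nat_lit 145) (List.cons (nat_lit 275) (List.cons (nat_lit 261) List.nil))))))) (nat_lit 3) (nat_lit 0)))))))))))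

noncomputable def par11 : Par := Par.mk (nat_lit 11) (nat_lit 2047) (nat_lit 2400) (nat_lit 100) tb11_3 tb11_4 tb11_5 (nat_lit 5779) hd11 patLib


end Pool.Agent.MP_1f1ca1_co
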