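import Pool.Agent.MP_1f1ca1_co.Cert.Pats

set_option autoImplicit false
set_option maxRecDepth 1000000
set_option maxHeartbeats 0

namespace Pool.Agent.MP_1f1ca1_co

def tb12_3 : Nat := nat_lit 8191534689513372182135239339557071320768952823379964296044665173164265422957265483630091009498973088688705568945958540362273026947714678971318781383575871473161832031152865008195584011070337586048397170576225735210172595909855085429773129292079918551830602653260652596507702054682795740450738250102567360869952100970825397809655246742450814339270637028513988230939638618846008507994013189864940031242772400477701068313296089851991637800199535017748760988625783078712867699690497285799136676717092186261828732368804626396081898324616328640930990051215211994916843613862805381981084741277610225656822427215190019662786402694177352242001802691486913690616787962201991773581483648215332826261495244364994387432880646980817701251267436836787688825851792485490056920047903258002616863858363857650948848561063480303579704964405660755526107332875461966914577081344405875389194733129527720091228483752099890355617288546310927704670116390053744647398585150005778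529451627317613107313794447642219250324060296665237593567818260636374654889819168928008766681047441592982487082769990646409655797580334502728743822440560503241761172761594938447591339596916713244232961120013741454699036904527660601890902676004282993385664112192593317107948820968489256500288306770849479094992023644325944272181775106599026977615421494502348811168685531194555578453781387736677538929669612081115759382841443491445770697190136328136762958579077918600967416615257660394404950401423493682652446468112132512221151825903472914174590459951682414676060019374662210663052328241159592370988139167929043588141468727944140831903522166338744102847782165988068493946611894110819086831655044819239800723527742078569965276151162937855976637181766633381773445160349809951203794640762808661555591868593062275667601562585685770285739893413594874913513979236091174331076970878590528382975761593125185278186155319691006374515411454360599178962900898547942434596381001320338735229623981750174772210547132487442457405163046113303710040305465592890797013886935107940206768978752177744948452908008018185954578539065681655474323407546000425059504030221122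812656589528259760188953435758506687503434467114902910090119436300591927979441592321622230458530156105671329906721552992532808942545165390282308641713725711080725396651641880845660755579319078760169771314606561044595057729826920710022865677873062488429549445077938471285701380478058924220750621966518779745646231354163120785259594606134840349204518135954139162258931801792476428123697841813717680064689803455806792481573388165761847011866879878076476090763664238000080951287078381732318790331069369431790389244630413167760952360447593373839881745248476981648213028983080827689063745486218960575326499157110982170687188426579488697570012350126418660606787944678147878357219283405124056313550098387005645199386975878593209864223906913090238791081086644066441250952806061966063061697825685787542613261605956258985686769039929871505180158704740283629765205468570919831898804198153911748951476287880743924753108446800375502641143508493318721633346348040783798356532450554680305853034468497591362299378403632620141510470550887069150787483385867594819240277665648526976940741756740599379289559972223223371302145456298789784051837527914244890234122333347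974513917781205248744117305563933950593087701431564090746499531165459562003942042741633453845466156039411653969507644548455250165489876137881228123233941286625360466733758041325245977155080823251184929014380548369715433314625078134361217166212521584680827943946881257470459419379460661638741116501052994531152620378254246569724302847015004104199718279442088222032585239439646128400869137242053816586471080185540584870970630868532559529910361391072027358893439379579319405953000105798161955028432402473490088569039425021111243240582011865882808446286431498051108351278776086928757477897224151023954781975542238978795671886057244835309891216388283402170089933155994470173487479850341888382553432470330051079341799765489971425130545320963136018880000370089430667437574377763986156732644518182079677772718553711642037216475575290116047131922868991309917726728823708029273404151279880112227785361611336303353022474236394377176826216732120061503135061763777816982541675724654870771060269585850583559463130190549494259862573982519547480217623030777120451520085521879047283345823762060873630397958574159884334697778200278557672721135875662691010482429569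854074520851886873228026858339466197147550234365140481551174473399294376887741454790564946689645379339061473553294122627615599262434090193684871740479779852027762325577803901987482307263050246165669076212811887349476755177222734953119178531689901397559402826878806089284908089676242330122147684617345046814848860684768668104739441565694239436994968311212365554922289151144305285905225845890959956803589701601657765218059598044483193946044145882742454108088873117201090438514067345541946521849928092330746688616714789045614965260089488419014368416322732487891882155449726715287831026227679410764550482903228512948097998000326004229488604866103135821201748935128329675726872519268656989740640829719359706471790012573133056812464913044206974799336104119873479867470010650405887261892308017776963432016769457548472278675149957000283208310057863541427469389639469060466133420651889605460287203361382117858377972073618989794703800324018300180144443778710088784802178953559670595187306238072094087683763864638358542923876777392426493881245912387187664831364698986736980778449520038156851600652533054395878730434292898177372000212129795245009433408342047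818699376512713379123643231420536476911754925743453138858377523224744760885559652999502161630734785179923324606400177800210553338376502570362217550335063332751552003530529462322255835401295148679795713984392485728571852821241751906887799352120137891570310408472776183268901190660223340222121898679937349236604227593208007105997125114526708474072136605763749930008981697756163795447153314462568768895864685875509923444186210741905335251406965991351941647082554378251503254306594637686908374580729605153873107611915355519355844371281055016317474814020090269493023351237009943552464615156412984188262050960392078790536698647048154787438280187820049747512384198754618097291873435991545542297339832950472826469696336301312794668539455424594991215243286080557374719724673104949616011396833118308580974031569586724215388769110813401855424200394327866325025551060240880852359658244536865989460564302980833293300578780612946698013860402267242502182647029959723845320994437407475315752856392056367516915855369285200828727524803951016332137992148227404951130918202187773516040629826431546985471063504426648991553950281888331754524316186901152188559810594520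797419854628917765464464218399282342208511290575633390061890996284715268376206062200317924069813491692852483021265757681459041729180022841140674734957644555960517528982963953813816033000330558248236423179497595358809981200076559209386259906019966355225713685347726725461599193047244062487937850935471243428500128824853132270923678533996194278159810609147936409233758587595168736841360138833669398672103660181577927537483756152380334388134150602970840421800621149225865208553478322300614466529692639147943206828988057849833806697559866217990030659887846724257589429640918936737712326035109978983481217191166646589984233971069538506212201486833619211424190355477653790658472291365863602873538760454083076565119243693442013656592284285385004745318133723352019765513564807589057342245436742678462680140666164403674215316575837026140297506761411641162625224245501401873023599657449347799110278173176085656887649130109967502552343484013932895009236626998038214045294156186651763129101066515851593273394184225430155137190996587711791101913686978327383843071439831953808468856252433981691152888429643571131061862560215406087626618612231363080251323952238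163462145772120810039185938339062109949404099982598291280953720544953889887927332084940101375277446219631516636580186423505215217597020373265793071663971159194398510675703143365567490767181039001017891337792449046171193432729128664823384039198457691535520226842446110192249838491817983708378538319388305729133794110452986480495317871584960304283800202270074695631553359419013946208233002025250779434693699528368350419768522712858120578269384536750190431174468133376198935714284024703073827787989714402055001687815171163832083445876954542309795569974877853597484541080748147651725297144974405653596163686221822809222876343533913885794436439752760544298428193778595361214473208042149361679154523243973530487193693573765120660450529874227614940752185474220195520259541317899965010935269212942967911118299693780256583560331586780744300581336156601032631487153970165718003748575682773837373412164172607357088277657982522003289208883734290086713167673551770955321850913227901240232888937830737913958804337469716429552893943733600859587098735479382934528624993155744396792065052736717845531495154692979408097573960337544848003096669120178887669654364231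026760969073688286439381536238627588122735235617431059280856066681447075464285262422532538607723506018684985440500092168052164489634156600286011417543493130688245590317144575942282163941984246038772708220098882868659335380210012159005366996012201908978224925384355322356121714951731775202412541327423336032660816339259982632375522305874117819110413585658905795633721599542210692214054831798434151773026099161590542725570411947506530946288636784387610356113413670794398442626486705552179706497395976207669939649896230055805358000007585111807728399020261735605871546687891014021908542275216753925120396989731742165460539648695528032681022571371175495628158858066354051752933209241368247098482288097779208628405703840726095035010436182991974695757949408917632238458445784795330812789298660174752889234313335802710701635710128824181122855720424015806435503365099214983170140752740769858076096448378218725827283616961953862915396590041610464712719736697297600436087008393657650702157099949780716120447357482737674160834661676040191180157991247895221134977659066614433959599754099259392529911225150968098037250306126214079606938090431191198427961094941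873715832407841221281269182055829324252879502300745560140465865007348793165562336144046939333250378172453721867293747558690088333052028097345599190405076716282990851721699434778280158780576137403070584709497574841700684811642337130640864145105431926255037662983795431267111694965255334881504202856788306878383123947956810226085172790964084403031646056959414044068442971289724467830360857554069530352788360537672785640056193988214983915645164040758147123361156732154317382602644152326009435872690154905131471197983016351389267930431158531699371062975684378252187412226779801039720598486680736670604936538020219279117021435228630034705048918404010118160434355394747652075447477687947617764437630074237258378625166884133913597988619734982339413083664206735738544223569288380938631978120404429780353012565110994101050625969303327493875540348152257585802666074655183990910404043517056412715600438949140267045023815804671210093737333100002308236899120050428296207247387554885576396663529817503391215659592093932434169129889635472297382666467960409376724016357072689698379958082930971495368049083441778256155192311112437146312641223992867019448551329348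508650489972554982952109259320222507935847013423183704696605820810357688034321437473818296941619418596412204111339470562606050674996523751163891187612325156022623793758740479072563350186562923670330802794473815005866423770202815318636750238773951296254643819532637196256286603565550524949174477185882472257365468326720465412423545476867127524515335003460457525599282325977036968273577018631148637941633620656541748198102103063639833048901155160139026641034112271018527356270999295496052689199323757553900615749318233203424603970902907895638677414767313952578203879401997246710653918629442946359539265234289228712047922791967701801158234111208252354912579848888058163414955076648985794571627492230508120766599405695226675199195504335999706895477817178476980829460551387897968567449398405282203933020918405324922444036495172297415687665536536381552601933187303948884698550344138181708269400714416955379013440349183304053821077783350958044563077544942082700903632685221378468282549456901046629036791641907311862117901704678711486870383005395972870535535584498702977622038261421984833267394492400567388771668440433433025458410877684062533446340924717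882900530382499556340681632520949494788110798035068007176833373140832876016154659925968519827129990869053529043792150062231015716938257052207257796281207540330908303185869632420843742548561854529438038617687048032123708102675942963333395346539676261559935439695063086643563944311662942680622362398047049209041790739569971364830495074968449226384476118153764055810453546918638109594399794664232416495514107000374201129739514239840833498251974075737421775030220579512164167518053605062732727554587455658516911249621312909617992657218529092202665990689582663246406639800368684058212375087379294614235211427349473655719072962580735205551495788447819220401380250150308568302578388838174159020704180761750643231615384993610913002490731426590009711413283361309759492574768739615239143754010823796836032078453080250525769307222865058576823317873127323903990956737376448628789664328364177744278376988287858893852763051308533886069679214165516865849961121674388699779215797787607955614841961266401939821302703026677065604481556179508538841043897911656158598724933339296039763835356977071378065221432230184327422410490797885035530154018225277127518194282697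059696481922116546511052734708015156617325611296718300144810864200612862807887852810146340551627927499700979849199841456590643399198161383429745367287230429533399156021386495088587362402830775143499035024951421426405283149556784493327455079544656219352041650321484864839926947692443480458477599453541804197928778260768438620786804036425079322832049015112714948672029586956679357968289110074428716385878476125351516963129228536765705471479621599141924658754254430455592067651669374885061796024590826618087152804778254906898944113057463247069565993602079127746624290672531474480035983688575540291710186793192961411212425066771166241469404940740579366806455041481212648620928562850428634229860023460708766840175821869569750057802902384767306531469720445579821671684717025429127434676027070866066585846164533124022698019487530750065708916452423368857043110785246723481865992252250101673653865723987264750577613751290319449725302880872989746043960917410233785974239037810575322070281768801396879293044876614900468886191722744598233870273661348543419618777778975884973291215242295469216694004591209412575949595372801414219164261337663663664410807014971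871084650811905758978597879900223407920190323882268569462971511616987653935191384881877241145606720731210494390106155896565051983005705567767110071866163921809498644109246512121076201464824221774351400499190892243320179755352088451133465405586291505695377839418668669042101500730588165438664755820076435999655835195358846182660857917509574985252332089492268402592557530391021554867890918912365832207312218571282744956648870315573239669735967023832804034912647231635299704050485190010902774053076335942753665662035019389302531938131987804379818110380103030666843978509705386458651536645627872138842638051811043843493409688602988902743522658864452381100523076714182309583273993596464095433897517954584982210789115672526828554563862659132188982124478791250029674069997972589592834557079859903046940886136442776796221933402341177284942427076188823616465819399556585912206926897471724678682207104594549769795403808194912740480375748872478334379232476629379233634636772594821134240099349805432210752431107269277392926682468438767191487933839389629588372544433604643760568947268111518361636828735557073391780217112753004694558861995798420140653374739791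347656492688093240849634438424307436903535900439263644448964532930643656904458868532191213601751462073859496315483782693383045581619244291053804915559603619881142123650641214987110213391838262077299326414464827166883916334586211498009269320150473650197888229074572659099182998499027375534191211872874656790207747579738885656463341245315858055795962833520508646254002187058507201699692772151468906394493143297701881974564778865817905267574677110802121583297376461238213126365918226113135442849358640652295366747300762808461304286905371309158721826512414556992434106370841915700074387511353058953295219493860945646629921193699963095379220195972289375366589093547456834124002503122301746788193104362279667030743454265217432210236490453714861649954081795759085979227510156191230395855696009129978046224930660081780469207681741176369109196144763927918239107207967965032990679999131648187723703421887547949757583623609085687232780254612787586829835276861735312901180761283939974353214093442110297960107329143847063988751712667044576262607693793560883771734709312642821613751348156810582052341318446779825202086422690969969526260048231978537923291521581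870389164515520967198541450597562723298819936124347439719200905902800301363617223454758399618768680729079249975034447053392981175424847970256103749143258384784162929819432297595231347794080517011781168436439558793878789709528225490201878541259075680946257779604461385243814446784871167944558119699702812159367184402212221286555995400249471521357283781750963654580300393121814232469677367964786650115330107867097007316894947363562167199805155395241944970532091656319483777858535723889536278307503654061108613606613472774445012539952676252059534498168634244312002830208964463818195660544531970342602935025214573168399059861258153405958974874470340268924169424945289885338474089881638876834630746645989182794030226181037077264245343363387407611450473439318757154099955932157405539970526481946454702008279595496401462164157107162272435164932862293389351195870604986224556438775830196858727837563414758666540097672785591435776895158739198290154140263517461407163324936091268030693229282964473023781559080859454548279267520104975543365279431718439460694137659932382878637491227025747583279805204783941762673221824440544176772542551674265997125108927910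437118153977732479342446647871436955536486512657952804476134618589013496864441089371235659931750393762733705187953164837476691986501795432462321300799360145021309529168400348136903190212804552305341598781921987904979764353378412679672877765865405948299860206945815668558992724219487086593515359950521631822493702611134249764362774142201891834196575192274501300756534677320034384041809588740048952176815674701152540640777716291165541025285242515681376989201935470765428777219879406054741744596346512091794571552317246656738191439230036233464886068248702627112373562936173685943864356683221494618313807735285262631413267159280684223795732622685932609770627503302415879319783169376518774879214511125643773820406350866484942495936594557019475118313310702386990602461938774528460951837554330702924967700259047651486883772112138227964211153886239183480144060775953350488913433298325954078580358427985673448273603597561756632549217396111034360455824656817103443371562867087592679085285289986292253095999684921893498234947068493503310311004539240295055770752636067072393644612198625282801448491814217388592693657552636193409960538709252794924577775969446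405741388420102862870802900322342773868465461052859695314479472784952170244828945130218383525055496072185409446115862773696724427721934656758983747434274496936485953561337057295693102063213985920300048626018204681064491405106504261047461910557588814959457827651940911037179943094148631924750339446930594428555716342455970123490217309971041841821006373130602522887684149781320540855313762797367644257821486349221989557769270342920190348371592827428779380823705544025398227014996002546563101729539751439670609382174844692430237441175087923968987333227665395284304043744607535063318181259468780831732235512147247979880940616966459922227261847859253817292672204210699785261852103310493367374296511880971300017931509033390928426893164599402291634285232947285905080330492332715613678720189141000829648225996611692142979770541440899535521347987583998974222403010072304602349308061623900704473187504090015887782702147252260100082059672198055159451002345718875493287039743618031231914868973400196378887832954369030694443249512465489798873737143393880583648554255714439714955217662940649840102810327391468605238126001822365547793370012294498866022799764532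977716503341616178145366768514415976528426251835044046830027769871793152514340299475927908750415584974585824421300983747936271902383440337623814808991210742079736561636438733993358880160615469293045908608321895845724213366854454827521773272110833381607660566614590945197939440280037770558717859475158034160091486347285829169439255880751033685539005850617501271652995551300380216308095136726552040342662447161015313329415590428181268715595840643210541808504446087747250661431571027450017480470606908765835728180705185521784411618750842299343481242146675076052603136779156123838548757908108685823716576027992598969391172516575022047406756388210729872380621962277683531542119390048896475604581551539375036426790167715152933267726763298251553424362512299094187070670853636565829428315919885529162116231708927219307676212453516504391370333761528005475173309022261467272570628371785483757294049786511254528507541573066124563051838755257258808517064267939457940161043394199076676312725393630803683119825816465556485177438010191059560647365505434993681492295397414072856920434357939150854812598982608541522102919768708079426250033115442809467931877726982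939607081269732671611950739170563362579005609682557996819553988803881542746303435555673615502280167858193364529048220454388004465145502845131129875613122435940898219071867715428152787332450877094366282306277084874530610677614017267697685052574305982986315343664875325325874632399400427616337702642200556868603769357522394261668009494082352963118001087334384314405243550221903783705279210071132013281763494760407006903593655660812727171844338842878790015547907770085071901129047973159836253033370068174099981342040746924982583172748508235589419170314334227566739871589058800650986210477204508684984471302715254150593963469456320033749058244969988891561842121465715905818154651015249131083066826500666574084340637057275849100537322113416111997103433370069926892138375267406885373838745987291484935795880963022596166125910382144500865666708142062812418459188127798885175608052936111536856159716798336602964868915914622217496574985646082422256520401462778259803713098554941413934630925982648260193207315806315701129252277625515921313289587905819617512107181177482075884528857532589303232527089311796951898288251638760631901088821870812625472719221949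591002598272702026960369732858049902405887955975417132029561418770096096001987648130048147386411816348475601619680180440597599764756017663849124486471959162365830774492523662994205188117205680589646376442777096588875993635253018852279479967952358187594332183324706546557553855319105134222297922352605134194660278173048529521804503692115960158323295776703160195385090882183321701654287794258489795534384482918965614145500077275561213539671522278332653076735931973422031937744906986156283661795589164999500273082748424823580198239092336968117155255774714055972236839153706804928307045647326895555051450350346502128331489028035797686157961218147074610937958900312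

def tb12_4 : Nat := nat_lit 819153468951337218213523933955707132076895282337996429604466517316426542295726548363009100949897308868870556894595854036227302694771467897131878138357587147316183203115286500819558401107033758604839717057622573521017259590985508542977312929207991855183060265326065259650770205468279574045073825010256736086995210097082539780965524674245081433927063702851398823093963861884600850799401318986494003124277240047770106831329608985199163780019953501774876098862578307871286769969049728579913667671709218626182873236880462639608189832461632864093099005121521199491684361386280538198108474127761022565682242721519001966278640269417735224200180269148691369061678796220199177358148364821533282626149524436499438743288064698081770125126743683678768882585179248549005692004790325800261686385836385765094884856106348030357970496440566075552610733287546196691457708134440587538919473312952772009122848375209989035561728854631092770467011639005374464739858515000577852945162731761310731379444764221925032406029666523759356781826063637465488981916892800876668104744159298248708276999064640965579758033450272874382244056050324176117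276159493844759133959691671324423296112001374145469903690452766060189090267600428299338566411219259331710794882096848925650028830677084947909499202364432594427218177510659902697761542149450234881116868553119455557845378138773667753892966961208111575938284144349144577069719013632813676295857907791860096741661525766039440495040142349368265244646811213251222115182590347291417459045995168241467606001937466221066305232824115959237098813916792904358814146872794414083190352216633874410284778216598806849394661189411081908683165504481923980072352774207856996527615116293785597663718176663338177344516034980995120379464076280866155559186859306227566760156258568577028573989341359487491351397923609117433107697087859052838297576159312518527818615531969100637451541145436059917896290089854794243459638100132033873522962398175017477221054713248744245740516304611330371004030546559289079701388693510794020676897875217774494845290800801818595457853906568165547432340754600042505950403022112281265658952825976018895343575850668750343446711490291009011943630059192797944159232162223045191924930737526285319030636531840078545000077577245017869172535405122492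636507493771288271105964983360270636841717949996337563884437435835138841435069261130610190023670679962340778687832267449302793799465401194066859063349659960094788837086387129425449844894567782187809750108730163842831170405194097954715102809209974744155252330866728701989720352514937003611518782258239883864461384359589183612777049936803469735449058385372793290985917887284895826018491658731520316278918173485143703553476409197207144611311988539426097995881233363730763749727971032977872380739548576272082785013247909757626213168402868214163328466600489347655198467560910619162401573253819511046153535103903735677754911502573730713093002831204131942460766186502468248918054210591607790949666035682284087306456883443201303326494218122881045117716640465104271367661474670038644493875754320101784935035790875160005137252110896085444045877737800529833625303595836325239317937273465783380092948835619114645438572954334482638808755883888038943190994464084083885388916789833112567985040076290628072615557329582468422843814057476131636212562039413321374806511237967393981266419213780779855182082476314125063376173229915346238381349176123650989998094664723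825425835190889682715183331773281717735223759622512892562146267003562517156993649751880922856493185016414152093938404158502234089180148408237423723799896642985656121480571276452328044308737756610431919873412623607932786252813771861053270581559513736156821720393398764538107219821566958413601518803997013666503386453164660519568194754859362049073145894234861690134297634687851469600466870096855595891665478012238959809210908875856727939413547484870126453045998643661564650350786812133268780908654301756070473415816522081241560798663096491438374857437822310620721135716300505440143300027156586059270506051370910379057918209975260327010764367405283737044665096790717883463989178510698932262058408326022115992860383455135683177834257988446365972966304795010913141472530489111230628782327038266291142259468179073880249228397032047497793392414721457604228471988085036288792886097708651432657913549458858726335605606004595655154241590406495309111924733198571120959860317852913621004917840854001231495220767673910528269905352810511334923480990384304605118704602573403897137938061718333706681438418160871428686693737498934229757054199643187546650153352288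936354421195989890317890612624607863882002696033283572226970052683998140805957100425336148213380014452118608412450764789376198928764637047179491796818950423715228673351607155319921649668785153211134894568958653523021159554923825491626452390808060667779837500430261819747107645419894435799391635503887338574930532666804217299930113913697423615940944441251978487031913711745232960047234253600625596889914690265764243969976714843034657124183730096967203090901461197355810733973857786395441586532565575261192951579847087754430033904231957209866728841864307954603665226368202350879370548261479812299607915874236363174294568141341325819790207421628800675966050136101360103812470156287472107948003605947747446659127229434250713164629710693087707914720169673002113659392430507605746761581925823390127944292278240896708627232717452223753370390635220328516772225871764985886950764695738147572780925545795572352359774100285541921530515601271626563015414888870217801154426998683674702918055145300290824330208984382795908503813768927951586131605457851195160595686767764632068417529884672718653228489937023819616623753506075143452545298673085117306673703479117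324992469059459532426530415743238875083850466954598970304324290958156677133524351237524377480896221085506627089769714516924905417479764682765327797296183900746806246636203325549751710258302639722830638568917343044554154789390884046346464901670135684305482374614552522228030160856281597774143055008232760302529341994005652781734838888979434681891313760538685490789937484964488084880056112233908014461245356220956422060157406010882863617971543872209598447285127423228833110590606994643398190135065329150172787685892334567282886630320418225772518701037135680951772178487734298503963433661741091090348597474279561442025174491317417595740771221327538602685536641472879151033202288717447591097434879776588870883379457490219061941057015982759560029534504847668332120402430058293565838095199843274525474974802739321422548288373836779230219540990370537922189499498954685794663976489495083824139006276314874453465118944625059010100012471727737424474964457776033756191220532152616673944980971935518989418333268984668691940885493041740192425806181163356082016339125549579632457513930817561225503581341001758506933798535133412553181513771284956915963193552659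899970584465272159293908692101060491572013583509870705710722145651073786492214847620132747224509617806473977734152537501553150783456694567856540476599770761750929271476323482834000415902783167010983771095490132303129900566550155130808279691368165776353250398825785526332429880930994047852814502935264188267480620810299817545296925273641227891147754554486664490425908046569503898600611485861390906298420201353153571406104358578325782092202516656841337728919537336125685955729670350833464001030926406637660650232794820675716361085541097697932764850263146837321406713288576775428542407753637461935971920173790562306751972211808539811970430751122140754649947490126083571690212809060067213776113642520359312791936720780733017719814096353271474118927742493973960059324436170168061316418594999465387653803611459677080085836957956892110153985058383755554563173176768218314593918680697787246246830982568711754535330054398528846257138579233360333587301046384816309137085160769587690639952030507892131432702935394227864095541841924498661964556924869662430792386011840798074139528473594294987758652395886873718727176019026450149213159072214826019967717243414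061944955547798586622613879521130856699185576300445724775047883432362533552673131359201852018284097062989212382099445658600885326334341642537388650196927566205497387089976389281878544153099656456436519938601196938532743021708119024987532204657015112911043854282211829381793149298523173481452873677456006215842302197721254348497431661111146816801566399092005299546678892399421978554846314265566402767404844355788072965399183595834273645263637527185462223687475126403660760441936825184407750979848046753126596257789740720300458494041873252394554700250004589131921615168612909282044488244908076451056014621650156540983935389762055316327674201451565188271419908987895289754001813079233231244741111240812572612541775095452033166232283860090742622734604071173303562770469407302493362194182115639868226822777920016155269319469901517596916052903732414381705283838051047055740317379553312124141559666410547230318966827894299434878707503181916283892879800779088368595570571784903598834215637512049101397847604114325514857439792374030773925149493202693772054406514276548841254757591265254682676121269448285735803184739787844924481014123948446836209937680592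031965970881482634352133987856341194301764958969243196266173653871428901560627482072855116307886494749028275968670971994541631696965933180239315390400001903673657189577741225267386844472235121109564321552665996838723327802384115717528479229958828501030646193842938142995953935420096896122489067567192916947433929114749105582803559695404103954141511892013264104120837722215074799697017257728983147838982116355032893740802855272539390367646083783195243386492979251723888679401932550181655007897972009800095458021006879266621185644708200731944454739240534777807907947235437194584590155280966681083034131899283309901143762746723831303220585108530900910662933581011971354389170924938278236241621349578965331491594339893520949686767332368987892198662002596061275375994046525079252672862558174772849412787788396947249923835963525918262470612897183733048154779934821582152290916972524095317120344429848935574917503434404348980543755998922406024414898289473825431513163479687926283818813276511106158310116870077315727996453454839844988206130383556636263513249061879022207789654624765624643635590979719319839915425119657976688580246420993709596502274328643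670540458447763448699842975078449643790904310855275320021146388963891823005035922503980279053283387221819159991060963914880052768087798276956946168169668286953705080313980000920137366197705667178930716671008080817314894326575972735605293334871034333176625311750412139433867911592176039307267853814372119159351834529076443646994041314656805695984643994373301657946191712484212113574967144673582129673069302056555255187753331265864188853758694870129503939735376384311357737193150589616386213416097206900305805459396652303213857673232048264167380685606388763413547820991092084863904268075111959169560419700930422771565144687325331581283922944709688143457764604119019609608081315141882389788812955949842978297666379573788141819927317249651218504016131416792297853948979157402454548002199040989414706569400924623579162925043176350933411156793718248620754437501677406259445621033840877162515357315156548908071612180307810492798067940310214841886927183420229604106249014790637187296358844613830285151582094840096319604158666653047184026443181322697581125693006196696398790540832960343047720450532261002981456465750696721164360382030532778728073346927539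978283260743889409138266527860276965148322710962328608916296981645430085325503745425724304456554429311827793168530840873498036673864125879282619658032328451671047503431141919780073786584896999574308432061797712325707044808394944739009800879426299918645594515006470738586080039716669232525053347211788617766234904201934855841251776891728214550640177646851618532100428700294237749402482518935854569571599095462839561655446517158818803233930619056552428111706713523748280226376326186301406381913085482199274929207585020241778284307140963818653471636679278101283279323920495915306954029106261829723458168697996002310626119237918133463170795262222548431817041739486897857223192687039843980266747717158309692269064037891780927699132262293480872354503129999374647951743794933790133128622628717183248515937069239178841285254804659106505030933607480222469976263888424581722140760387690108285660396727604527011310680501429330184053147159719551449291100004021102516294908402697358219807936930244621766078498636730774651081528238179140437102793636204406502383205025012879811096078433486899805465199543534499849948485888830760866474048513966763322176502181697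619866619576560543908604144381399603018781588989271383287976331717772474691069923770298476213090388381615830176523542638034053906888185966982101426630705986206938225399952998169863437941830298083200856976726766165391512955221602120920194492419438900542105977362698842194330911239477188509467525053968863114528889500664939943034378309430725874510722198141971087405377444289894694804344750517688999881661139797827882418112342642714474619148543601667710954406753509156558185673074338198020880906298845010676170638103316826868975081178347905619601019121514246527776975373150261016843585665792252884629781633275392339541636489522914462142175609235755433608807342804610381527216085043050688609560110713757734101852388330256002787295493493153160266447366694269677261849716149576086547087901553022069327766131098856452633344546780795441528829070250131082453091379733295441788299123983399217794781824011489590208202851133868992081962734351863752262205977885455193415763424398313785270435408830186496095836408677452484088958105542445766616606945919365896072914339774531292447055936243325431715376912473009894117626701466010107454318365480533286678378828242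965808966546583745439987333814992820926532806226690613196499443024892098967149625189586988500860255288802668007434967011353450615605461936804329220160263823122630260748880429375425910280706684704314976606253513960793648633184824395302884628349213140846488491201367308943506197344827580219712781763690029279025960582328975891344630497499600733092729397408997949558498682656130434292014526956571105688206913073698710659967546220511444316428708131033142986914361263864837828988205954768573669317471783578351245815201801405828189912991554011701424796287625649627893062937229442909054257497013363804851286360443852115005067678931255215483464827170631808518495861002359952186502807529985567728247521717998963262744773061614879407846545447415730492652661543887954185882871718528684074900562411629833424196462002872551495498424469456391157328310108657131460072199438720790819600444728395273244137804132411115334334449592752417803877328672471941729095440075682758646292130704029791802149412231552077219271904677995159488651497969527070589170208572508073224530651381847953753665684011255104651351013276538457942464250238250377251757608972781413571029457360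022977254457070870604986672502512513362732490781443867581697346196520899626172822280740080496495087406239576257687087929281210647075550808458683015641464373242832775446519452732823992229693623922038269919266796105803341390001578096831312800165395873904660233390557667947385654218278018117907259952428307286822211947704972154899087771106833168509937412850875530640669269845493789398824129044308554640506854733198658464040008365073225597181198505778091145829197714729260265107912166780107684568612133680211663366359676933138654493406110922367922596419374015671687366389003192735827740260467606860191802848602053217179699491433476824198791242651380254164014401058367173137157810021179503331933359917206270322698324967812761492028764035077131373322072554333847914271119794687183473150528877826269440196651641615213181627481324170932818393522717116761670759985937585559198850133563523751226144264055236000538323057972301894059618072022512095859625664975411928638707441930745817775090589065456828646645988251150268096368522211577207609664153018176012746533068104511127611413651547736824192972012467281759207742451370158519724786508915070666602044128710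996801543139475999754454247594617743144331532165414437161842205996818212043128900824419613107266671428263610389504362912308103044297224963424807865998757877504858370257519778037150597763474814032319274414507043601625094433211039652737880661414112690013250699638773805952006024946795232894602287765619444087820545181422026665775528819285425195499384211318721870675760063964907226669121181149651276997675895067807068615142237068483285022778226584087642845241104376961987562526668330585927467630522175034713699749310947743972645702606040895002392131931021370083452686923397789083713505588974163852931509712436602760300276156538839670726977098196083845956525860056775024846540432267828746212858013067476470664565546471091221337684666853922086702862663020231266374208760789119655766808358935053748100547765915695676378765214697409138653111957955748451124661004153706331670451994112570015979462920264467576621245503242557512628136352072557031222512033802657378013126375360824952945507806596528624027543193679414818205792288917052634817992798042091532527880588992842883964215630060255383087762984555403375932120392978290295742311016191861538187747227274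400413444458104053834319692390396263698244875746835052405832580376318451450421965983028297226095006083739218832470470435178178671702238700035645073636568369766127029856037914217501540767130050237653116522123013113044790708249920743742331783147161002963868474148472032977480911966491674190370419267138661444074929975110099449737716619315897008246020704045144649539326033070385470605498952767026661798765765290783665579829138353340531426966302207028277435339493325414499636568819742589109208826454361999046921974722818890988305976861267451108529771557312312226670400954011487693501509093959690285115382086637043019125912356334343844189037372858829685107891199214780501125769601059865978572878801281632528160353079766068772535370923488674457843743731849730030003458206843265992773240773339567601292995379113760420512874966227768082629224335655236695904428925346458882112608573538860103263709284241335577720375989778339886136735256288875703952839864755649980867258968557848571613647165252918003719930799155328286121575449382594829914287537436939075713159736244599621302826063438384421364483607676054935249483208985751113799404626735417536020901988050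069924620950899538876149517753978413129323765646682392287617685012760872648318938627161839811342273571224023346587837735651114840733678765214231507517805168360095269309225700578673282449641437601988682687591412385994446966278119869549137916056749919593024498057707153695874678156235981245898858109426781858584188976382142501401448086310527575861344926468118074642286031948894206213772035446709929469052414782366653241664752780793319957464865624733405997841582017099270395604428926596829643258295290366264169020256534575187081927490927354223659620646409390789763966856114296505453072616631314812456706580900964283988262628234437836989879944355631556893567740794262312701709248719959030604345878526006586054520676270596671684114900639046530075367611594564164249701223418216618997585070499791679387526807353981254971858356379527075789503684478714177076997045260437039141616219196862229929957284077266630470856463697420942804685890092217880146776943142240523261057976960097763660253470875629823832263283743721078577789151003538185947632132089703161243516915917703964273094563079384773233546476511563498096318584033922838158881027937236961526204279838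618908432675781792491951150111162887479450349222176605328168049664847093273900446064625814677047643814136929443749151224241213366524327970538483056106068654317790691415061911632017488055883176993402343241165164366088106932389579358001290162544991537215215637259295199739296533644840882156429391752603289065908271531071095370709458682060100746271584768289207184015261436200634045793557144929153546028679307624140937378287275376041761112660885650212448042260772621688759789151591968812280598973512363896904894019504636907198308449607963157076701444370042634103427520996271270017997519743390972328731781271115631542217954452749283827333221396474866540237831139979916242355644496654504709202020969706310881339835495787963839400747968164739141887904304141582469947492129874037866042185405476491932858623074554192650964795605665924877266573232161068934550207591872690773696341945140348673911852177899651418126742168803138358334765728352883768040811488417049371955301528822208901807466791113524584330732639465208625733485711361248050213463380562661405789657951259876849843211306792706424863119912570219966871501660447695369237911898428129409431797775615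038698216573399316420627534034467366356098665245222648519408787532303536729549044834564328415736091090447429519744632963407689639433840144171830162377032814579593623488632291906555647085386759431971806851590785475750777381102534790201706422135118890576612096408722021751061897387564441860327759456006248855040845342121411598868871368384568060837330238684867875843668027009676643906525051160516263328383270071804038255936440489482840258653658714610929755658921640440840951632563425050321755697173358476924765247487532032347782626598482606083396587314570590033126074488972890847671194508139853732114171522571627985726138378448351680716232669693303856011507961263168022002659144618287363081402637077270833076906027350061765164895706038022035605701956662730048960618524460124516591498645286421222824151990136465840397820535559505079753059808996344191901605581198951035737182862312964352971506384504236206442766391790812949709962648285161356444638185891661135277162672196401133541610265213270279907929081705744737884015351500528251202580008519149860371632130770420223937295974629326618061177677413553567138787038327807246679564789256329261571256392092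6801483435209381139386561724036129356994270237190767559589721136489143856125812069122268284111335220977977211938551885369277167028703039630303626332308729502688807825147190564503565152248526755247106737789524441593514252157703136423768822022009311329222710558122745570212132524192110173959985680478846564313213908030059122349511357476580536765461058238486911975237670163778919371815795467147745229798066810543847562041898738232126596166046593677656028114812862795175280562196097334856872111585674479800252844035688489252022777489878226837296204149807132043495859159420626464930918522682661657812075184364340494742718414463702185019103428076147244228051926096729841267343212392887037608291836043852647017857132756840424712744268576110576629951218939137140787885582593370807712514020140037746080278005675134399336749697750946530268252860048351625366182186439703928054129229069090162860693381489893748090291866901849438282344133955041015879373554994908521768862129935340813835756608199550871885669258784411383952559388429108707737067061995680504106729510761279069342460878107649707791228260137984784418707004847060183975364167997437040072472116446329278263358832382289216857195487811250441552473880382559388719837303910687356102154808770942111694703940208430854294137636815564838768582402687513155609015561139139153142383372469696415414943366756384747720225198084101030591156475982702402174246194497000300745085867123986964189896671284889377095017779777746090549480056085988303432147043071323935103117975944720403257119512955318601689267612730998766522917776085060449709188110896177521148801600431540612525506459424978572615473917269997814849684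

def tb12_5 : Nat := nat_lit 819153468951337218213523933955707132076895282337996429604466517316426542295726548363009100949897308868870556894595854036227302694771467897131878138357587147316183203115286500819558401107033758604839717057622573521017259590985508542977312929207991855183060265326065259650770205468279574045073825010256736086995210097082539780965524674245081433927063702851398823093963861884600850799401318986494003124277240047770106831329608985199163780019953501774876098862578307871286769969049728579913667671709218626182873236880462639608189832461632864093099005121521199491684361386280538198108474127761022565682242721519001966278640269417735224200180269148691369061678796220199177358148364821533282626149524436499438743288064698081770125126743683678768882585179248549005692004790325800261686385836385765094884856106348030357970496440566075552610733287546196691457708134440587538919473312952772009122848375209989035561728854631092770467011639005374464739858515000577852945162731761310731379444764221925032406029666523759356781826063637465488981916892800876668104744159298248708276999064640965579758033450272874382244056050324176117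276159493844759133959691671324423296112001374145469903690452766060189090267600428299338566411219259331710794882096848925650028830677084947909499202364432594427218177510659902697761542149450234881116868553119455557845378138773667753892966961208111575938284144349144577069719013632813676295857907791860096741661525766039440495040142349368265244646811213251222115182590347291417459045995168241467606001937466221066305232824115959237098813916792904358814146872794414083190352216633874410284778216598806849394661189411081908683165504481923980072352774207856996527615116293785597663718176663338177344516034980995120379464076280866155559186859306227566760156258568577028573989341359487491351397923609117433107697087859052838297576159312518527818615531969100637451541145436059917896290089854794243459638100132033873522962398175017477221054713248744245740516304611330371004030546559289079701388693510794020676897875217774494845290800801818595457853906568165547432340754600042505950403022112281265658952825976018895343575850668750343446711490291009011943630059192797944159232162223045191924930737526285319030636531840078545000077577245017869172535405122492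636507493771288271105964983360270636841717949996337563884437435835138841435069261130610190023670679962340778687832267449302793799465401194066859063349659960094788837086387129425449844894567782187809750108730163842831170405194097954715102809209974744155252330866728701989720352514937003611518782258239883864461384359589183612777049936803469735449058385372793290985917887284895826018491658731520316278918173485143703553476409197207144611311988539426097995881233363730763749727971032977872380739548576272082785013247909757626213168402868214163328466600489347655198467560910619162401573253819511046153535103903735677754911502573730713093002831204131942460766186502468248918054210591607790949666035682284087306456883443201303326494218122881045117716640465104271367661474670038644493875754320101784935035790875160005137252110896085444045877737800529833625303595836325239317937273465783380092948835619114645438572954334482638808755883888038943190994464084083885388916789833112567985040076290628072615557329582468422843814057476131636212562039413321374806511237967393981266419213780779855182082476314125063376173229915346238381349176123650989998094664723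825425835190889682715183331773281717735223759622512892562146267003562517156993649751880922856493185016414152093938404158502234089180148408237423723799896642985656121480571276452328044308737756610431919873412623607932786252813771861053270581559513736156821720393398764538107219821566958413601518803997013666503386453164660519568194754859362049073145894234861690134297634687851469600466870096855595891665478012238959809210908875856727939413547484870126453045998643661564650350248180129744551130636789212543969256302738108133039794037314554885940727650653371580900050101898956136948374301140085287075498672879488499454796884900994857376317988806250801496522942309036594204536986693671892448652342974531920465280739554900540605879442215415138015884658997032136312886920934547193779161329760805544696853951419848715708105692648130729332839122309950812655772509178944921632503265148106595789632272992774644664893350087654093135534338324044779376043282211485387209519754590702656710348508482337971263020280553766971511642573878037148035620949964346338949098889866312172683391186710200168314048566372248159689766656334797658432145808699361448613058317586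761396339884482873144069982665937682722045502582059725227593437780056063797611784992849858572366396803316599019269148407169811127472720065706077952050229844988082627573533655686755341996217714582172820772587230641342077681621026144412741692000454823705032119272699678783419192331435713381347434376302214247821735479618864143291181117817924268446028406174399671278335988508976638104317539771824495411482301801311287594835838965352043882077595957913517799806846198509842421219472893646586616692064960751233267424412875412045887799769676050259102783709046496657661398199720307553211235165595822413085034239165659527073033571001268461212423746106977974628827668049094267032364137489127693989986040515509064320465113211837433940173009815019456089808801110487289897245918435163307759556007571819913119202921041591711489310693804143219999174108525626199543780686542656320152710351554166264646207631728344373016475767413088986951049603755171212678035979227159497727254308897522347382019607069709069784543204344942315645112891635025381245119935694398526930262157273082022642551427232779686362047999487476802619654214380426061271887298701816636956450838467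681268567364667022031349629968980380919674281576590193761579910046732939598375795973938464302587446468893844949384299596243360289988737734743302800374330978947161155309514304979166874156271007404460956227167424577295024188966419165111695666100980134126710169568217036901883254822313687075803720685566306228386154310082789563375837930477591578072069599487218376626604195623351851326711180857702557918807550930251987642754959892628382597848680758565580590928558373982958585956049173925064613967387299879409620763810597419644764330742503476119191508639832278520313024659367980303361130223205791825557034807330964927444026428080865887108556163700811350919693441144282798137792229021113903062101692256256825071383186634780172480056166434478346063343664091316124124398934258927425299956596580405762270940835948497667441297095153479492517220440709830240281039586002660983155664506916172723621296128915607863029174963767322200615479319258575923960591829101022791245391135076207500042072863154536591499714205880418773748700847853483275252233167348081929716158292133855386845741486320072418228520935287056970665200137088531232685679835676193546962110629463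338546307678280928940077363538504044614692112909502337695664266458066243557842251456120415334628635284837678691081541829973790044350657479835891327479974302724985896741292051334215707783830516250698075384760256162897439738827630877780716260036018700390443382443763908732585444002647779489452013577288530496208870743560901615851157048280457853257600174112329601181590704520328573106173484747505282155467292503410950850106998167070189804611782230414283613311624537946612354045904481004154876280759313422119966919206429189944044471618283482009468104001508857584278646403070154317782397208933575836628869383235402597529755480530329235430493885422512680778134238540835396030740467719522836817844677149140735128946472105949261074710752885146023243972419599493168655165509307913664300656388872552934075594318157220253245753925192690324135537528757890240586707843401132623664615860794671374513430392242014002772511989368692017970626434403431893230604315536261248200853492066079288235085552236415530066667466263395860027382706467437380809460214290198994827260832975578157601324634836403139626280066192809887569185111317763196892632559573775409819506322047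016630289631678789326728099711292893578923626543450307938352416169068335289033331675896839478571512356060995968271546165675319633165105678114484561798361956876130090085267502964944516078433164029790350732388421043952454207566126159591742769181978888206298365345925944245163953950088644333891204699086415099798355264741659842537756113081837204197448686725877737155214617757399720355527358195828250742467753536075356361299458686126760467134098465683954597360466945534543102989837062993511321541586353934746786182151893921293882483232376979381443852218286246851310115524877454369988340691342768782344684062302524080735018731173459416162365420261714247421345711073435626056340060786629173090563485257542723971156878889022926029994457429144654811306820623739245944344913777843700914814417767011131781598627545562444083703238943355024731211508900465669129122632895663250830079790082659811654652962235676245993701745200839674283306379787733202813602310304969220277921095182481504539286995312452029434056331679595639974036076740906312473904310962683485409420441468344086675083628745076448346331283219109214326215589840546599791189241633855853378850686599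982412095558216445552230302255270057498621108395955712840396588914094305836944729054704649801944906941361364465935900431533503434477224890121946633805936693359641639933471845250710841604028150293115543351812700460962927390449717667020188062997187639880258103945832078204289299763713191665408741271979121093668251982622522688175999296364066637182841872110753221610779483512652713424073346034867509169101361337968405239610957718516364256691246625659160046333019217772276157133957710509202248853995351835070018178677709281236990861571636235060915096205150346880402646388157920984106204412258892141379572312590271054119897729079280925468092429432876827108871195358121271286506153770462576225201536047233943538011478790397181809402504026078990105321682508460187589523422312143054754607547335620022208537993487434224850363507256244684473786251789673376329952747894417582660810805301360937516691332434014303824071061621271280036113184541213733613480796581298083317741335765835174180993282084783769654507481854999699899106005577812718559587890994123325127152629896527833128225873347827129107314032768557997294706111851523745868005377852420495516653736029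604031559366077261334116298079869917452205761532249939756878076309233631534297434321181861148871267770858420272690848829748576698544838168249154717974381279681289212268996741224516766953057715010647265062387618321105153035017133733824715033489905563569823655224129172738348257575661746535268155631037028908476940386228078688741286783710501147147402184056973459370575952665415151214886242407010642451411447647994243695028081259824930284608698073710108149716281544428965816110036208504149239880953309454372198977195230896365007510623597782570435619944736917068906103810534051262626795048317509368005554352388747486803433440323655841055192259951930999690288028732601132285243322301581504919067861843500656835575787066444975919539281213319484110757665365256720725621520383605431997256886007114937297221516898689979607261274859850209780143868800675168339115372834338104485406254584133978925452276894569819968884671833168322620810231795891101504356190353246961708810402370443900951993171222386151646517339293037289597631447900867911724148120392399646783279878028478986356386231683327054744920081838408249326951722257096780430005818823167341707905584216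770187496765162943687445230696562157700976119742557243238178393313081518188877397595808825207837061851761178732686862722357761434203454152748266749507538437020473708532881072355314819570678201750824711537832902652510552458640459901606638098696337840224262914591480745522200181943081212703568140225339616423468034549113378404820253122310914688005269060820347387425846154550819946659413422350291298577306965692347957377880008651834970616203225086407506274817875338053917709914602506191906822237398539816622246501662496433893021074942086546461770834062566602212299203724966370439921433154999660789005312353680410556603673653414653529593580832080988042140429353271664694861703210882586402209780520340384195685160527612187444876935262104979458373715932146998674548830195009086634406372618103504669384247814415555926582692426953318615421157535667314764743155297095302172824720134760630991662748945748070125803124245327746206173718156787765775768076955104118544286153853025585535495052142437686643211908759907173934225303315086202436128074630101581583340479248152571001970090248618880606034287440336127779943953461924420583820683666144768984747308405254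355130168063806934183036033927029131559870342483088951861590104562303230514739744026757475168113401513945506183345953983194755228137509764717177003521562398236813163087691186327841606690563332936578571273064978696640792094112749036259866277061379932686688135877825258276745610346144771920458875360792975698839377907899571393898135392207764793509717301428642679764762053021926878260510260567005977427281430997395156229765127433075259972935858883914850768681362770350063669526413225526044110428749848085736102860797974203749447470553424317344180151401631621575883017185837298760037306396692354327638508713398847070390124126365295503642264190164717646507338747181227918859042161179528040714485642202068134953522124471889845356693684614440247099447286836354087557420013390271499655186257535737494736098196153883188607423441333301812984306104241622673823984143474471148422464403461334641517422136179478761272957011817091010380142189878812335999600163980973550407585413651682748648716160453345208791909491540724400529014235740360061961982915678879111039936357911536850614099839616589789945924466074680461643200689317131898286466460615636923558374663637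195233974262157427729931717557020926721813077435184133252613591586720678585379430231911363156111452265818550732922994809603063688714982259605212084299275196611453828790492158662332172462109340681856562709212193054368436648534300655381026984598968987710346340809415528066906607574151669027632320531047311871787320990686733021493981809120345799900025070998438265591553866304049006124708599861382606295445365481297888657967575915091150207645746739163719572201065931702188594159453636380590113408257292136132339716378367394113324843720630485040151747908172120254335852639289853818814791691401240547250552719071744120800312899669518127712025416903639624083602148947540114525355055619240161122451687497855050378005478991882899044727128104428011398863089186680124336189006500866274493664477159578543386371657626293259960160840701128729715867233249651998545743842716895648207121562212384192123751008241695938329457608043715702290311408723917371772447947585540811864439833257772894651005902155867385272541141225661867983830843632338604397062795460758487213136346605641889746182329301461491256526886069351620251670814120663763928682435134447153778759261499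855150826657677924536191571795143353421720319862338938740153423137474878310280191310714661595697375892828268660930599947904632452329345288762158422713592161697666048790118053811489992533887592334278596256723391840836984255164369064112903735063351742590300943134459525445214903407727715350004921472907192870012294960376619634751324695646801165647068280904772220129387535764100567271765292007326061194841062757499630362592465799713136257258958495022124473606884337670218486961231109195179554709856219725918397284446040597871688607777575735813757301724429824977114016196103814763789445098753248463611358843743901551687879652479288026342639640795266679019680521264557189682264510699254314132977885926712203473296537161122522093933531192165631949842244519343027449230761325949367753593701718237182521969093747937109115828378267259417918139166072936549332659525961267696307215890567767851460830999583483815776896237974434771948722633262361647710651020798930284765597989864795339100225124196307796640282087958541774214073910233972433233829440714895389678465074472647015379064579579149178703743275652030120743217407625892772914058297893188003844359106935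484337571497985067107516929864594774172608686267382317473338838272639268024144123913889574671714153835946871193960017607574304806377338815677365759986949495717148525375989643181055938202069596344645817902234814850367040232691524935995503891142110826534788560252084621859571170033869243376258146821706353220196171088367745244111789585669442083926615556779564110811958983513933854961419035350381826481263085506829472126775907262539884452405921475947937782494473695960777243337856294801874670700046866600216824879912170883288343902299598563726208956433513731185314610442174244210670597584591490805874274916515722294158949447328227159835725563594147928997381753574257756450363160128642651469017342206548415859188961433383449819976992192101035641338376712395801575168320960275269998176126660275847354953925065482068459594580125923280933946008549136964864966626525361120081430535288425717343789142897727748333713202222722213695508082529507007171209551954029473471143315080885757614086325815975231031439181934475790580326534623745005849922532280967650392498777590066018107001550855631056965372691677445511223363392920238128739423433137542628898680399711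365532997804443178127156567424679350568263326688351103212442916154945008295710692746792997639988604227376789711822731351994995172529460259478718035417276138512600165342840296904593459530679935314841362749353287921985590552437270980064970100677771306627003996553320520173089676880252784692343439513159420597310842791208909687545127543473205592321517782787446655058283025221306992604176067434308853516294675988871740055690697701804283304902165766168241215895162821601064088905168413191776101740303268194821606396668143259670463180336470251669756906137941120832365528859516805472964706981950658938129467481126007457054799507230135012156726293105494632491754704139077678075742469517307119364598189266564906662348682150997800845273633807694522202699989721524086587568461553407080255069813579818945277102273298435739511358493678903407846751938337512336623486793112200945102741491299418135681185166068921777167093849256658360740405487401177941615055016608593211625378686236533263446704789122447418485463356903870512247089127120890193514488153040091265929110833583900020810985405710269977297917121773677990077992409312477212772481130530489641673573674412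910949238169468078732897739996724343239869504850812879765009880912498335493536542260064592974838885333921345402199081060174391466822341017110721768749888801684345231933531235112299346758635349835418149480229522210541331297611531741741523566184062536620450107120569705917569745743553732098514761738653615390538836577766343447510497344249823807282571833920740795239272536302727089627456603086246751079442424402954629886518561352821006756815101581110113995865777802830980388014540423370149490915690238722099558023477043501443435801452902684954077563842522176589600050471917897040283466055862172525272811823892559841472954254334133003622090403294543623999858881198179469312405093814565502608202310687971785344979960343815397548322096876750390401816386081522431326612823758499027351571150896274506571357151100132732482851604476267499528107166000198466157908808954473807217124373948255440619727719741416436147953302164462439201469703153880983239023012189469381035923336345321319810101584827699881124132106404576015527856277830273286028901623215804631347024145927147601073035527123854580320409375540923719113080504253890096966626618011547713736197064135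553902290772924558644472165951386161827674480724813064704159182459946504904946189202067870478890815442906468747994961716334289253519618224352198013741845611432447696256245560809130860274256942320404246633271837473147062274243500087057978175006092274520334390830935766489712843724905699835609054490583743943978826574153875667022526840366695641853536647528432839101374803311947178935923801465142027409598206560316856374155402362661550729151279567082405330759602382112514008290319287458616346449151831616355043086922511461756772942477648115097127232385289326533250588587680748461482909178574568595440210407435133793181770364380053361744811787666521779545702981670963458834384536531880946466311874942610816430421386130006693372223059106269318340144325452795551797459393839508902522783382115505969399612134962296605944505413502187540152075973748556502143257008547792777725117663527884897565963222663732074674076476730910106796491660631693335472760800332075696997671520394351473751123680121880553316658618509076418067186678250805354911708225517066229618537705264498852710696395763903124205406676574713776456493252911815925209359279498257328519339220294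644613766457694586276192214022371053773698597084927262180386376879394960450569003290066326021490384054729899311898124594343596566976209761832839436655779420755372223258623159155508989368841091137948077536460031809482850067237783603622109754071913653431753532122227085287987600084631121117951795771606873667980707269707036727701135579166227456701686347064705261370782409749339031263587550902075698284806876590300151260669928856607376032507303404938881130398509097998385026979497961281875103965521557355006597522916489617254266534558315677100995266561201158439663937773758585065267457738070183196428409959326685468303536518012769577606172024892270067481303256086443127950868619465625146908005814614636132475204108984211401301783105247529363132256375953371408641867326972070518910573000625430866215265148024599085762092394605521084503909788051032841608845067895321335966570807181921417223998713355938747537353475613667454026186916184378120958770711639195795274130619156789966566551988446081757513123988239227233082757366266314215943507420907018435373634490486705610089870311441987080292900514262851764705633497504898898754216619223201710400832201002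9991479307435577262980173455946304156213139676919657899902283226210841101058580920332212215510751416404688114369604415459821687211712602559099426089657442473012946298241646733197774727583234692984353743528235053911411671575744507977871323887887471820304529850063399588851355687211085422473429497371868475709021025511083376147620982060646136259414375495462184167716830626980119157273872468998976392810791452506130488383432371517870389382027415103266998560322043405471468424872570395660191763858492613359091428797214909967054659118762235391969351682389478726342311460029477815023136557807233995788798648097862003114173679939351300998488294223512007057916450809951913463132940175498349810685569159241517903869224888824157111817562068434898926865613440749990123386630648497929139969587956854943798411168906662472641322952792613521450790398198777930434254813204643762880188314451492520833544074918655696974205685610913080444643613203831044557864074943182305554190576800445700040990129279707649056234576668945054835545857240986165221023543189544401315683782626023768827008803211544526912806300166256227303490769976538599579348683689335004570419373562116016091017856237390378496072511814887243750010958133448339439351555975242079121234854305767037023690778239038010802905245500926678564617665752261209628887256105825250369301198405339478269853443890508623452266134575322844843271848932945400690202956169197887467995364272295728991178081523171431490647639845005790799376547363161460812849961200234548266546226730161184268020959264299077759487880599724198255557816941998211181632554454344948126365608434339112459530099004282639176590512736373166960702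

noncomputable def hd12 : BT Hd :=
  (BT.node (BT.node (BT.node (BT.node (BT.node (BT.node (BT.node (BT.node (BT.node (BT.leaf (Hd.mk (List.cons (nat_lit 3969) (List.cons (nat_lit 2169) (List.cons (nat_lit 1095) List.nil))) (nat_lit 4) (nat_lit 0))) (BT.leaf (Hd.mk (List.cons (nat_lit 3841) (List.cons (nat_lit 2273) (List.cons (nat_lit 2077) (List.cons (nat_lit 1171) (List.cons (nat_lit 2051) (List.cons (nat_lit 645) (List.cons (nat_lit 393) (List.cons (nat_lit 1093) (List.cons (nat_lit 1065) (List.cons (nat_lit 263) (List.cons (nat_lit 37) (List.cons (nat_lit 35) (List.cons (nat_lit 289) (List.cons (nat_lit 561) (List.cons (nat_lit 337) (List.cons (nat_lit 523) (List.cons (nat_lit 67) (List.cons (nat_lit 73) (List.cons (nat_lit 577) (List.cons (nat_lit 2704) (List.cons (nat_lit 2320) (List.cons (nat_lit 2066) (List.cons (nat_lit 2096) (List.cons (nat_lit 2128) (List.cons (nat_lit 3088) (List.cons (nat_lit 208) (List.cons (nat_lit 152) (List.cons (nat_lit 2186) (List.cons (nat_lit 3080) (List.cons (nat_lit 3136) (List.cons (nat_lit 2436) (List.cons (nat_lit 3200) (List.cons (nat_lit 148) (List.cons (nat_lit 176) (List.cons (nat_lit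 400) List.nil))))))))))))))))))))))))))))))))))) (nat_lit 3) (nat_lit 248)))) (BT.node (BT.leaf (Hd.mk (List.cons (nat_lit 3969) (List.cons (nat_lit 195) (List.cons (nat_lit 165) (List.cons (nat_lit 153) (List.cons (nat_lit 291) (List.cons (nat_lit 329) (List.cons (nat_lit 261) (List.cons (nat_lit 273) (List.cons (nat_lit 519) (List.cons (nat_lit 521) (List.cons (nat_lit 2059) List.nil))))))))))) (nat_lit 3) (nat_lit 0))) (BT.leaf (Hd.mk (List.cons (nat_lit 3841) (List.cons (nat_lit 2273) (List.cons (nat_lit 1177) (List.cons (nat_lit 597) (List.cons (nat_lit 299) List.nil))))) (nat_lit 4) (nat_lit 0))))) (BT.node (BT.node (BT.leaf (Hd.mk (List.cons (nat_lit 3969) (List.cons (nat_lit 2161) (List.cons (nat_lit 2059) (List.cons (nat_lit 2053) (List.cons (nat_lit 145) (List.cons (nat_lit 195) (List.cons (nat_lit 133) (List.cons (nat_lit 137) (List.cons (nat_lit 161) List.nil))))))))) (nat_lit 3) (nat_lit 0))) (BT.leaf (Hd.mk (List.cons (nat_lit 3841) (List.cons (nat_lit 2273) (List.cons (nat_lit 2077) (List.cons (nat_lit 1171) (List.cons (nat_lit 2051) (List.cons (nat_lit 645) (List.cons (nat_lit 393) (List.cons (nat_lit 1029) (List.cons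 (nat_lit 1057) (List.cons (nat_lit 1033) (List.cons (nat_lit 1089) List.nil))))))))))) (nat_lit 3) (nat_lit 0)))) (BT.node (BT.leaf (Hd.mk (List.cons (nat_lit 3969) (List.cons (nat_lit 195) (List.cons (nat_lit 165) (List.cons (nat_lit 137) (List.cons (nat_lit 145) (List.cons (nat_lit 291) (List.cons (nat_lit 519) (List.cons (nat_lit 1027) (List.cons (nat_lit 27) (List.cons (nat_lit 2051) (List.cons (nat_lit 269) (List.cons (nat_lit 273) (List.cons (nat_lit 321) List.nil))))))))))))) (nat_lit 3) (nat_lit 0))) (BT.leaf (Hd.mk (List.cons (nat_lit 3841) (List.cons (nat_lit 2273) (List.cons (nat_lit 1177) (List.cons (nat_lit 2061) (List.cons (nat_lit 2051) (List.cons (nat_lit 2065) (List.cons (nat_lit 1061) (List.cons (nat_lit 1027) (List.cons (nat_lit 1089) (List.cons (nat_lit 389) (List.cons (nat_lit 131) (List.cons (nat_lit 641) List.nil)))))))))))) (nat_lit 3) (nat_lit 0)))))) (BT.node (BT.node (BT.node (BT.leaf (Hd.mk (List.cons (nat_lit 3969) (List.cons (nat_lit 2161) (List.cons (nat_lit 1101) List.nil))) (nat_lit 4) (nat_lit 0))) (BT.leaf (Hd.mk (List.cons (nat_lit 3841) (List.cons (nat_lit 2273) (List.cons (nat_lit 2077) (List.cons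 (nat_lit 1171) (List.cons (nat_lit 2051) (List.cons (nat_lit 645) (List.cons (nat_lit 393) (List.cons (nat_lit 1093) (List.cons (nat_lit 1065) (List.cons (nat_lit 263) (List.cons (nat_lit 37) (List.cons (nat_lit 35) (List.cons (nat_lit 289) (List.cons (nat_lit 561) (List.cons (nat_lit 337) (List.cons (nat_lit 523) (List.cons (nat_lit 67) (List.cons (nat_lit 73) (List.cons (nat_lit 577) (List.cons (nat_lit 2192) (List.cons (nat_lit 3088) (List.cons (nat_lit 2436) (List.cons (nat_lit 3200) (List.cons (nat_lit 2690) (List.cons (nat_lit 2184) (List.cons (nat_lit 2576)
  (List.cons (nat_lit 2128) List.nil))))))))))))))))))))))))))) (nat_lit 3) (nat_lit 248)))) (BT.node (BT.leaf (Hd.mk (List.cons (nat_lit 3969) (List.cons (nat_lit 195) (List.cons (nat_lit 165) (List.cons (nat_lit 153) (List.cons (nat_lit 291) (List.cons (nat_lit 265) (List.cons (nat_lit 325) (List.cons (nat_lit 273) (List.cons (nat_lit 515) (List.cons (nat_lit 517) (List.cons (nat_lit 585) (List.cons (nat_lit 529) List.nil)))))))))))) (nat_lit 3) (nat_lit 0))) (BT.leaf (Hd.mk (List.cons (nat_lit 3841) (List.cons (nat_lit 2273) (List.cons (nat_lit 1177) (List.cons (nat_lit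 2061) (List.cons (nat_lit 2067) (List.cons (nat_lit 1061) (List.cons (nat_lit 1091) (List.cons (nat_lit 73) (List.cons (nat_lit 297) (List.cons (nat_lit 523) (List.cons (nat_lit 35) (List.cons (nat_lit 49) (List.cons (nat_lit 545) List.nil))))))))))))) (nat_lit 3) (nat_lit 0))))) (BT.node (BT.node (BT.leaf (Hd.mk (List.cons (nat_lit 3969) (List.cons (nat_lit 195) (List.cons (nat_lit 165) (List.cons (nat_lit 153) (List.cons (nat_lit 291) (List.cons (nat_lit 329) (List.cons (nat_lit 277) (List.cons (nat_lit 2067) (List.cons (nat_lit 523) (List.cons (nat_lit 7) (List.cons (nat_lit 1027) List.nil))))))))))) (nat_lit 3) (nat_lit 0))) (BT.leaf (Hd.mk (List.cons (nat_lit 3841) (List.cons (nat_lit 2273) (List.cons (nat_lit 2077) (List.cons (nat_lit 2051) (List.cons (nat_lit 1061) (List.cons (nat_lit 581) (List.cons (nat_lit 263) (List.cons (nat_lit 133) (List.cons (nat_lit 289) (List.cons (nat_lit 41) (List.cons (nat_lit 35) (List.cons (nat_lit 49) (List.cons (nat_lit 545) List.nil))))))))))))) (nat_lit 3) (nat_lit 0)))) (BT.node (BT.leaf (Hd.mk (List.cons (nat_lit 3969) (List.cons (nat_lit 195) (List.cons (nat_lit 133) (List.cons (nat_lit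 137) (List.cons (nat_lit 145) (List.cons (nat_lit 161) (List.cons (nat_lit 291) (List.cons (nat_lit 515) List.nil)))))))) (nat_lit 3) (nat_lit 0))) (BT.leaf (Hd.mk (List.cons (nat_lit 3841) (List.cons (nat_lit 2273) (List.cons (nat_lit 31) (List.cons (nat_lit 2051) (List.cons (nat_lit 2053) (List.cons (nat_lit 2057) (List.cons (nat_lit 2065) (List.cons (nat_lit 1059) (List.cons (nat_lit 579) List.nil))))))))) (nat_lit 3) (nat_lit 0))))))) (BT.node (BT.node (BT.node (BT.node (BT.leaf (Hd.mk (List.cons (nat_lit 3969) (List.cons (nat_lit 2169) (List.cons (nat_lit 2051) (List.cons (nat_lit 2053) (List.cons (nat_lit 141) (List.cons (nat_lit 265) (List.cons (nat_lit 521) (List.cons (nat_lit 11) (List.cons (nat_lit 1033) List.nil))))))))) (nat_lit 3) (nat_lit 0))) (BT.leaf (Hd.mk (List.cons (nat_lit 3841) (List.cons (nat_lit 2273) (List.cons (nat_lit 2077) (List.cons (nat_lit 1171) (List.cons (nat_lit 2051) (List.cons (nat_lit 645) (List.cons (nat_lit 393) (List.cons (nat_lit 1093) (List.cons (nat_lit 1065) (List.cons (nat_lit 263) (List.cons (nat_lit 37) (List.cons (nat_lit 35) (List.cons (nat_lit 289) (List.cons (nat_lit 561) (List.cons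 (nat_lit 337) (List.cons (nat_lit 523) (List.cons (nat_lit 67) (List.cons (nat_lit 73) (List.cons (nat_lit 577) (List.cons (nat_lit 2192) (List.cons (nat_lit 3152) (List.cons (nat_lit 2576) (List.cons (nat_lit 1560) (List.cons (nat_lit 152) (List.cons (nat_lit 1664) (List.cons (nat_lit 88) (List.cons (nat_lit 1600) (List.cons (nat_lit 3080) (List.cons (nat_lit 3200) List.nil))))))))))))))))))))))))))))) (nat_lit 3) (nat_lit 248)))) (BT.node (BT.leaf (Hd.mk (List.cons (nat_lit 3969) (List.cons (nat_lit 195) (List.cons (nat_lit 165) (List.cons (nat_lit 153) (List.cons (nat_lit 291) (List.cons (nat_lit 265) (List.cons (nat_lit 325) (List.cons (nat_lit 273) (List.cons (nat_lit 531) (List.cons (nat_lit 525) (List.cons (nat_lit 609) (List.cons (nat_lit 2055) (List.cons (nat_lit 11) (List.cons (nat_lit 1027) (List.cons (nat_lit 21) (List.cons (nat_lit 1029) List.nil)))))))))))))))) (nat_lit 3) (nat_lit 0))) (BT.leaf (Hd.mk (List.cons (nat_lit 3841) (List.cons (nat_lit 2273) (List.cons (nat_lit 1177) (List.cons (nat_lit 597) List.nil)))) (nat_lit 4) (nat_lit 0))))) (BT.node (BT.node (BT.leaf (Hd.mk (List.cons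
  (nat_lit 3969) (List.cons (nat_lit 121) (List.cons (nat_lit 141) (List.cons (nat_lit 267) (List.cons (nat_lit 521) (List.cons (nat_lit 1033) (List.cons (nat_lit 2057) List.nil))))))) (nat_lit 3) (nat_lit 0))) (BT.leaf (Hd.mk (List.cons (nat_lit 3841) (List.cons (nat_lit 2273) (List.cons (nat_lit 2077) (List.cons (nat_lit 2051) (List.cons (nat_lit 1061) (List.cons (nat_lit 581) (List.cons (nat_lit 263) (List.cons (nat_lit 133) (List.cons (nat_lit 305) (List.cons (nat_lit 321) (List.cons (nat_lit 393) (List.cons (nat_lit 35) (List.cons (nat_lit 553) List.nil))))))))))))) (nat_lit 3) (nat_lit 0)))) (BT.node (BT.leaf (Hd.mk (List.cons (nat_lit 3969) (List.cons (nat_lit 195) (List.cons (nat_lit 165) (List.cons (nat_lit 137) (List.cons (nat_lit 145) (List.cons (nat_lit 275) (List.cons (nat_lit 261) (List.cons (nat_lit 329) (List.cons (nat_lit 289) List.nil))))))))) (nat_lit 3) (nat_lit 0))) (BT.leaf (Hd.mk (List.cons (nat_lit 3841) (List.cons (nat_lit 2273) (List.cons (nat_lit 1177) (List.cons (nat_lit 2061) List.nil)))) (nat_lit 3) (nat_lit 0)))))) (BT.node (BT.node (BT.node (BT.leaf (Hd.mk (List.cons (nat_lit 3969) (List.cons (nat_lit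 2161) (List.cons (nat_lit 2059) (List.cons (nat_lit 2053) (List.cons (nat_lit 153) (List.cons (nat_lit 273) (List.cons (nat_lit 529) (List.cons (nat_lit 23) (List.cons (nat_lit 1041) (List.cons (nat_lit 195) List.nil)))))))))) (nat_lit 3) (nat_lit 0))) (BT.leaf (Hd.mk (List.cons (nat_lit 3841) (List.cons (nat_lit 2273) (List.cons (nat_lit 2077) (List.cons (nat_lit 1171) (List.cons (nat_lit 2051) (List.cons (nat_lit 645) (List.cons (nat_lit 393) (List.cons (nat_lit 1093) (List.cons (nat_lit 1065) (List.cons (nat_lit 263) (List.cons (nat_lit 37) (List.cons (nat_lit 35) (List.cons (nat_lit 289) (List.cons (nat_lit 561) (List.cons (nat_lit 337) (List.cons (nat_lit 523) (List.cons (nat_lit 67) (List.cons (nat_lit 73) (List.cons (nat_lit 577) (List.cons (nat_lit 2192) (List.cons (nat_lit 3088) (List.cons (nat_lit 2432) (List.cons (nat_lit 3204) (List.cons (nat_lit 3104) (List.cons (nat_lit 2308) (List.cons (nat_lit 1440) (List.cons (nat_lit 1284) (List.cons (nat_lit 1296) (List.cons (nat_lit 176) (List.cons (nat_lit 148) List.nil)))))))))))))))))))))))))))))) (nat_lit 3) (nat_lit 248)))) (BT.node (BT.leaf (Hd.mk (List.cons (nat_lit 3969)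 (List.cons (nat_lit 195) (List.cons (nat_lit 165) (List.cons (nat_lit 137) (List.cons (nat_lit 145) (List.cons (nat_lit 291) (List.cons (nat_lit 531) (List.cons (nat_lit 1035) (List.cons (nat_lit 2055) (List.cons (nat_lit 525) (List.cons (nat_lit 545) (List.cons (nat_lit 577) (List.cons (nat_lit 261) List.nil))))))))))))) (nat_lit 3) (nat_lit 0))) (BT.leaf (Hd.mk (List.cons (nat_lit 3841) (List.cons (nat_lit 2273) (List.cons (nat_lit 1177) (List.cons (nat_lit 2061) (List.cons (nat_lit 2067) (List.cons (nat_lit 1057) (List.cons (nat_lit 1031) (List.cons (nat_lit 1089) (List.cons (nat_lit 643) (List.cons (nat_lit 133) (List.cons (nat_lit 385) List.nil))))))))))) (nat_lit 3) (nat_lit 0))))) (BT.node (BT.node (BT.leaf (Hd.mk (List.cons (nat_lit 3969) (List.cons (nat_lit 195) (List.cons (nat_lit 165) (List.cons (nat_lit 153) (List.cons (nat_lit 291) (List.cons (nat_lit 329) (List.cons (nat_lit 261) (List.cons (nat_lit 273) (List.cons (nat_lit 531) (List.cons (nat_lit 1035) (List.cons (nat_lit 7) (List.cons (nat_lit 2051) List.nil)))))))))))) (nat_lit 3) (nat_lit 0))) (BT.leaf (Hd.mk (List.cons (nat_lit 3841) (List.cons (nat_lit 2273)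 (List.cons (nat_lit 2077) (List.cons (nat_lit 2051) (List.cons (nat_lit 1061) (List.cons (nat_lit 581) List.nil)))))) (nat_lit 3) (nat_lit 0)))) (BT.leaf (Hd.mk (List.cons (nat_lit 3841) (List.cons (nat_lit 2273) (List.cons (nat_lit 2077) (List.cons (nat_lit 1171) (List.cons (nat_lit 2051) (List.cons (nat_lit 645) (List.cons (nat_lit 393) (List.cons (nat_lit 1093) (List.cons (nat_lit 1065) (List.cons (nat_lit 263) (List.cons (nat_lit 37) (List.cons (nat_lit 35) (List.cons (nat_lit 289) (List.cons (nat_lit 561) (List.cons (nat_lit 337) (List.cons
  (nat_lit 523) (List.cons (nat_lit 67) (List.cons (nat_lit 73) (List.cons (nat_lit 577) (List.cons (nat_lit 2704) (List.cons (nat_lit 2320) (List.cons (nat_lit 2130) (List.cons (nat_lit 3120) (List.cons (nat_lit 3200) (List.cons (nat_lit 3076) (List.cons (nat_lit 3074) (List.cons (nat_lit 2184) (List.cons (nat_lit 26) (List.cons (nat_lit 3080) (List.cons (nat_lit 3136) (List.cons (nat_lit 22) (List.cons (nat_lit 50) (List.cons (nat_lit 274) (List.cons (nat_lit 530) (List.cons (nat_lit 1044) (List.cons (nat_lit 1296) List.nil)))))))))))))))))))))))))))))))))))) (nat_lit 3) (nat_lit 248)))))))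 (BT.node (BT.node (BT.node (BT.node (BT.node (BT.leaf (Hd.mk (List.cons (nat_lit 3969) (List.cons (nat_lit 2169) (List.cons (nat_lit 2055) (List.cons (nat_lit 141) (List.cons (nat_lit 265) (List.cons (nat_lit 521) (List.cons (nat_lit 11) (List.cons (nat_lit 1033) List.nil)))))))) (nat_lit 3) (nat_lit 0))) (BT.leaf (Hd.mk (List.cons (nat_lit 3841) (List.cons (nat_lit 2273) (List.cons (nat_lit 2077) (List.cons (nat_lit 1171) (List.cons (nat_lit 2051) (List.cons (nat_lit 645) (List.cons (nat_lit 393) (List.cons (nat_lit 1093) (List.cons (nat_lit 1065) (List.cons (nat_lit 263) (List.cons (nat_lit 37) (List.cons (nat_lit 35) (List.cons (nat_lit 289) (List.cons (nat_lit 561) (List.cons (nat_lit 337) (List.cons (nat_lit 523) (List.cons (nat_lit 67) (List.cons (nat_lit 73) (List.cons (nat_lit 577) (List.cons (nat_lit 2704) (List.cons (nat_lit 2320) (List.cons (nat_lit 2066) (List.cons (nat_lit 2096) List.nil))))))))))))))))))))))) (nat_lit 3) (nat_lit 248)))) (BT.node (BT.leaf (Hd.mk (List.cons (nat_lit 3969) (List.cons (nat_lit 195) (List.cons (nat_lit 165) (List.cons (nat_lit 153) (List.cons (nat_lit 291) (List.cons (nat_lit 329) (List.cons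 (nat_lit 261) (List.cons (nat_lit 273) (List.cons (nat_lit 515) (List.cons (nat_lit 521) (List.cons (nat_lit 581) (List.cons (nat_lit 561) (List.cons (nat_lit 2089) List.nil))))))))))))) (nat_lit 3) (nat_lit 0))) (BT.leaf (Hd.mk (List.cons (nat_lit 3841) (List.cons (nat_lit 2273) (List.cons (nat_lit 1177) (List.cons (nat_lit 597) (List.cons (nat_lit 2067) (List.cons (nat_lit 2061) (List.cons (nat_lit 49) (List.cons (nat_lit 273) (List.cons (nat_lit 1091) (List.cons (nat_lit 1061) (List.cons (nat_lit 73) (List.cons (nat_lit 321) (List.cons (nat_lit 641) List.nil))))))))))))) (nat_lit 3) (nat_lit 0))))) (BT.node (BT.node (BT.leaf (Hd.mk (List.cons (nat_lit 3969) (List.cons (nat_lit 2161) (List.cons (nat_lit 2051) (List.cons (nat_lit 2053) (List.cons (nat_lit 2057) (List.cons (nat_lit 153) (List.cons (nat_lit 277) (List.cons (nat_lit 531) (List.cons (nat_lit 1041) List.nil))))))))) (nat_lit 3) (nat_lit 0))) (BT.leaf (Hd.mk (List.cons (nat_lit 3841) (List.cons (nat_lit 2273) (List.cons (nat_lit 2077) (List.cons (nat_lit 2051) (List.cons (nat_lit 1061) (List.cons (nat_lit 581) (List.cons (nat_lit 263) (List.cons (nat_lit 133) (List.cons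 (nat_lit 305) (List.cons (nat_lit 329) (List.cons (nat_lit 385) (List.cons (nat_lit 547) (List.cons (nat_lit 41) (List.cons (nat_lit 649) (List.cons (nat_lit 529) List.nil))))))))))))))) (nat_lit 3) (nat_lit 0)))) (BT.node (BT.leaf (Hd.mk (List.cons (nat_lit 3969) (List.cons (nat_lit 195) (List.cons (nat_lit 165) (List.cons (nat_lit 137) (List.cons (nat_lit 145) (List.cons (nat_lit 275) (List.cons (nat_lit 325) (List.cons (nat_lit 265) (List.cons (nat_lit 289) List.nil))))))))) (nat_lit 3) (nat_lit 0))) (BT.leaf (Hd.mk (List.cons (nat_lit 3841) (List.cons (nat_lit 2273) (List.cons (nat_lit 1177) (List.cons (nat_lit 2061) (List.cons (nat_lit 2051) (List.cons (nat_lit 2065) (List.cons (nat_lit 1059) (List.cons (nat_lit 1029) (List.cons (nat_lit 1089) (List.cons (nat_lit 41) (List.cons (nat_lit 329) (List.cons (nat_lit 523) List.nil)))))))))))) (nat_lit 3) (nat_lit 0)))))) (BT.node (BT.node (BT.node (BT.leaf (Hd.mk (List.cons (nat_lit 3969) (List.cons (nat_lit 2161) (List.cons (nat_lit 2059) (List.cons (nat_lit 2053) (List.cons (nat_lit 153) (List.cons (nat_lit 277) (List.cons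
  (nat_lit 529) (List.cons (nat_lit 19) (List.cons (nat_lit 1041) (List.cons (nat_lit 323) (List.cons (nat_lit 265) (List.cons (nat_lit 289) List.nil)))))))))))) (nat_lit 3) (nat_lit 0))) (BT.leaf (Hd.mk (List.cons (nat_lit 3841) (List.cons (nat_lit 2273) (List.cons (nat_lit 2077) (List.cons (nat_lit 1171) (List.cons (nat_lit 2051) (List.cons (nat_lit 645) (List.cons (nat_lit 393) (List.cons (nat_lit 1093) (List.cons (nat_lit 1065) (List.cons (nat_lit 263) (List.cons (nat_lit 37) (List.cons (nat_lit 35) (List.cons (nat_lit 289) (List.cons (nat_lit 561) (List.cons (nat_lit 337) (List.cons (nat_lit 523) (List.cons (nat_lit 67) (List.cons (nat_lit 73) (List.cons (nat_lit 577) (List.cons (nat_lit 2192) (List.cons (nat_lit 3088) (List.cons (nat_lit 2434) (List.cons (nat_lit 2180) (List.cons (nat_lit 2352) (List.cons (nat_lit 2308) (List.cons (nat_lit 2312) (List.cons (nat_lit 2368) (List.cons (nat_lit 2688) (List.cons (nat_lit 2184) (List.cons (nat_lit 3200) List.nil)))))))))))))))))))))))))))))) (nat_lit 3) (nat_lit 248)))) (BT.node (BT.leaf (Hd.mk (List.cons (nat_lit 3969) (List.cons (nat_lit 195) (List.cons (nat_lit 165) (List.cons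 (nat_lit 153) (List.cons (nat_lit 291) (List.cons (nat_lit 265) (List.cons (nat_lit 261) List.nil))))))) (nat_lit 3) (nat_lit 0))) (BT.leaf (Hd.mk (List.cons (nat_lit 3841) (List.cons (nat_lit 2273) (List.cons (nat_lit 1177) (List.cons (nat_lit 2061) (List.cons (nat_lit 2067) (List.cons (nat_lit 1061) (List.cons (nat_lit 1027) (List.cons (nat_lit 1089) (List.cons (nat_lit 49) (List.cons (nat_lit 277) (List.cons (nat_lit 81) (List.cons (nat_lit 529) List.nil)))))))))))) (nat_lit 3) (nat_lit 0))))) (BT.node (BT.node (BT.leaf (Hd.mk (List.cons (nat_lit 3969) (List.cons (nat_lit 195) (List.cons (nat_lit 165) (List.cons (nat_lit 153) (List.cons (nat_lit 291) (List.cons (nat_lit 329) (List.cons (nat_lit 261) (List.cons (nat_lit 273) (List.cons (nat_lit 531) (List.cons (nat_lit 1035) (List.cons (nat_lit 2055) (List.cons (nat_lit 525) (List.cons (nat_lit 2089) (List.cons (nat_lit 2065) (List.cons (nat_lit 2113) (List.cons (nat_lit 545) (List.cons (nat_lit 577) List.nil))))))))))))))))) (nat_lit 3) (nat_lit 0))) (BT.leaf (Hd.mk (List.cons (nat_lit 3841) (List.cons (nat_lit 2273) (List.cons (nat_lit 2077) (List.cons (nat_lit 2051) (List.cons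 (nat_lit 1061) (List.cons (nat_lit 581) (List.cons (nat_lit 7) (List.cons (nat_lit 389) (List.cons (nat_lit 43) (List.cons (nat_lit 329) (List.cons (nat_lit 259) (List.cons (nat_lit 521) (List.cons (nat_lit 1161) List.nil))))))))))))) (nat_lit 3) (nat_lit 0)))) (BT.leaf (Hd.mk (List.cons (nat_lit 3841) (List.cons (nat_lit 2273) (List.cons (nat_lit 2077) (List.cons (nat_lit 1171) (List.cons (nat_lit 587) (List.cons (nat_lit 295) (List.cons (nat_lit 2051) (List.cons (nat_lit 1093) (List.cons (nat_lit 645) (List.cons (nat_lit 41) (List.cons (nat_lit 1033) (List.cons (nat_lit 1057) List.nil)))))))))))) (nat_lit 3) (nat_lit 0)))))) (BT.node (BT.node (BT.node (BT.node (BT.leaf (Hd.mk (List.cons (nat_lit 3969) (List.cons (nat_lit 125) (List.cons (nat_lit 135) (List.cons (nat_lit 261) List.nil)))) (nat_lit 3) (nat_lit 0))) (BT.leaf (Hd.mk (List.cons (nat_lit 3841) (List.cons (nat_lit 2273) (List.cons (nat_lit 2077) (List.cons (nat_lit 1171) (List.cons (nat_lit 2051) (List.cons (nat_lit 645) (List.cons (nat_lit 393) (List.cons (nat_lit 1093) (List.cons (nat_lit 1065) (List.cons (nat_lit 263) (List.cons (nat_lit 37) (List.cons (nat_lit 35)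 (List.cons (nat_lit 289) (List.cons (nat_lit 561) (List.cons (nat_lit 337) (List.cons (nat_lit 523) (List.cons (nat_lit 67) (List.cons (nat_lit 73) (List.cons (nat_lit 577) (List.cons (nat_lit 2192) (List.cons (nat_lit 3152) (List.cons (nat_lit 2576) (List.cons (nat_lit 1552) (List.cons (nat_lit 1048) (List.cons (nat_lit 3080) (List.cons (nat_lit 3200) (List.cons (nat_lit 208) (List.cons (nat_lit 1216) (List.cons (nat_lit 2180) (List.cons (nat_lit 2432) (List.cons (nat_lit 2178) (List.cons (nat_lit 2696) (List.cons (nat_lit 152) (List.cons
  (nat_lit 1160) (List.cons (nat_lit 656) (List.cons (nat_lit 1664) (List.cons (nat_lit 600) (List.cons (nat_lit 1544) List.nil)))))))))))))))))))))))))))))))))))))) (nat_lit 3) (nat_lit 248)))) (BT.node (BT.leaf (Hd.mk (List.cons (nat_lit 3969) (List.cons (nat_lit 195) (List.cons (nat_lit 165) (List.cons (nat_lit 153) (List.cons (nat_lit 291) (List.cons (nat_lit 265) (List.cons (nat_lit 325) (List.cons (nat_lit 273) (List.cons (nat_lit 531) (List.cons (nat_lit 517) (List.cons (nat_lit 1035) (List.cons (nat_lit 2055) List.nil)))))))))))) (nat_lit 3) (nat_lit 0))) (BT.leaf (Hd.mk (List.cons (nat_lit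 3841) (List.cons (nat_lit 2273) (List.cons (nat_lit 1177) (List.cons (nat_lit 2061) (List.cons (nat_lit 2067) (List.cons (nat_lit 1061) (List.cons (nat_lit 1091) (List.cons (nat_lit 585) (List.cons (nat_lit 267) (List.cons (nat_lit 41) (List.cons (nat_lit 35) (List.cons (nat_lit 289) (List.cons (nat_lit 561) List.nil))))))))))))) (nat_lit 3) (nat_lit 0))))) (BT.node (BT.node (BT.leaf (Hd.mk (List.cons (nat_lit 3969) (List.cons (nat_lit 195) (List.cons (nat_lit 165) (List.cons (nat_lit 153) (List.cons (nat_lit 291) (List.cons (nat_lit 329) (List.cons (nat_lit 277) (List.cons (nat_lit 2067) (List.cons (nat_lit 523) (List.cons (nat_lit 1031) (List.cons (nat_lit 2061) (List.cons (nat_lit 69) (List.cons (nat_lit 517) List.nil))))))))))))) (nat_lit 3) (nat_lit 0))) (BT.leaf (Hd.mk (List.cons (nat_lit 3841) (List.cons (nat_lit 2273) (List.cons (nat_lit 2077) (List.cons (nat_lit 2051) (List.cons (nat_lit 1061) (List.cons (nat_lit 581) (List.cons (nat_lit 263) (List.cons (nat_lit 133) (List.cons (nat_lit 289) (List.cons (nat_lit 553) (List.cons (nat_lit 51) (List.cons (nat_lit 643) (List.cons (nat_lit 529) List.nil))))))))))))) (nat_lit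 3) (nat_lit 0)))) (BT.node (BT.leaf (Hd.mk (List.cons (nat_lit 3969) (List.cons (nat_lit 195) (List.cons (nat_lit 165) (List.cons (nat_lit 137) (List.cons (nat_lit 145) List.nil))))) (nat_lit 3) (nat_lit 0))) (BT.leaf (Hd.mk (List.cons (nat_lit 3841) (List.cons (nat_lit 2273) (List.cons (nat_lit 1053) (List.cons (nat_lit 2055) (List.cons (nat_lit 2057) (List.cons (nat_lit 2065) (List.cons (nat_lit 1059) (List.cons (nat_lit 1089) (List.cons (nat_lit 1153) List.nil))))))))) (nat_lit 3) (nat_lit 0)))))) (BT.node (BT.node (BT.node (BT.leaf (Hd.mk (List.cons (nat_lit 3969) (List.cons (nat_lit 2161) (List.cons (nat_lit 2059) (List.cons (nat_lit 2053) (List.cons (nat_lit 145) (List.cons (nat_lit 195) (List.cons (nat_lit 141) (List.cons (nat_lit 161) (List.cons (nat_lit 329) (List.cons (nat_lit 581) (List.cons (nat_lit 1089) List.nil))))))))))) (nat_lit 3) (nat_lit 0))) (BT.leaf (Hd.mk (List.cons (nat_lit 3841) (List.cons (nat_lit 2273) (List.cons (nat_lit 2077) (List.cons (nat_lit 1171) (List.cons (nat_lit 2051) (List.cons (nat_lit 645) (List.cons (nat_lit 393) (List.cons (nat_lit 1093) (List.cons (nat_lit 1065) (List.cons (nat_lit 263)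 (List.cons (nat_lit 37) (List.cons (nat_lit 35) (List.cons (nat_lit 289) (List.cons (nat_lit 561) (List.cons (nat_lit 337) (List.cons (nat_lit 523) (List.cons (nat_lit 67) (List.cons (nat_lit 73) (List.cons (nat_lit 577) (List.cons (nat_lit 2192) (List.cons (nat_lit 3088) (List.cons (nat_lit 2432) List.nil)))))))))))))))))))))) (nat_lit 3) (nat_lit 248)))) (BT.node (BT.leaf (Hd.mk (List.cons (nat_lit 3969) (List.cons (nat_lit 195) (List.cons (nat_lit 165) (List.cons (nat_lit 137) (List.cons (nat_lit 145) (List.cons (nat_lit 291) (List.cons (nat_lit 531) (List.cons (nat_lit 1031) (List.cons (nat_lit 11) (List.cons (nat_lit 2051) (List.cons (nat_lit 525) (List.cons (nat_lit 545) (List.cons (nat_lit 577) List.nil))))))))))))) (nat_lit 3) (nat_lit 0))) (BT.leaf (Hd.mk (List.cons (nat_lit 3841) (List.cons (nat_lit 2273) (List.cons (nat_lit 1177) (List.cons (nat_lit 2061) (List.cons (nat_lit 2067) (List.cons (nat_lit 1057) (List.cons (nat_lit 1027) (List.cons (nat_lit 1029) (List.cons (nat_lit 1089) (List.cons (nat_lit 389) (List.cons (nat_lit 131) (List.cons (nat_lit 641) (List.cons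
  (nat_lit 337) List.nil))))))))))))) (nat_lit 3) (nat_lit 0))))) (BT.node (BT.node (BT.leaf (Hd.mk (List.cons (nat_lit 3969) (List.cons (nat_lit 195) (List.cons (nat_lit 165) (List.cons (nat_lit 153) (List.cons (nat_lit 291) (List.cons (nat_lit 329) (List.cons (nat_lit 261) (List.cons (nat_lit 273) (List.cons (nat_lit 523) (List.cons (nat_lit 1027) (List.cons (nat_lit 23) (List.cons (nat_lit 2051) (List.cons (nat_lit 517) (List.cons (nat_lit 2061) List.nil)))))))))))))) (nat_lit 3) (nat_lit 0))) (BT.leaf (Hd.mk (List.cons (nat_lit 3841) (List.cons (nat_lit 2273) (List.cons (nat_lit 2077) (List.cons (nat_lit 2051) (List.cons (nat_lit 1061) (List.cons (nat_lit 69) (List.cons (nat_lit 261) (List.cons (nat_lit 7) (List.cons (nat_lit 133) (List.cons (nat_lit 517) List.nil)))))))))) (nat_lit 3) (nat_lit 0)))) (BT.leaf (Hd.mk (List.cons (nat_lit 3841) (List.cons (nat_lit 2273) (List.cons (nat_lit 2077) (List.cons (nat_lit 1171) (List.cons (nat_lit 2051) (List.cons (nat_lit 645) (List.cons (nat_lit 393) (List.cons (nat_lit 1093) (List.cons (nat_lit 1065) (List.cons (nat_lit 263) (List.cons (nat_lit 37) (List.cons (nat_lit 35) (List.cons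 (nat_lit 289) (List.cons (nat_lit 561) (List.cons (nat_lit 337) (List.cons (nat_lit 523) (List.cons (nat_lit 67) (List.cons (nat_lit 73) (List.cons (nat_lit 577) (List.cons (nat_lit 2704) (List.cons (nat_lit 2320) (List.cons (nat_lit 2066) (List.cons (nat_lit 3120) (List.cons (nat_lit 2128) (List.cons (nat_lit 3200) (List.cons (nat_lit 3076) (List.cons (nat_lit 2184) (List.cons (nat_lit 1300) (List.cons (nat_lit 148) (List.cons (nat_lit 1408) (List.cons (nat_lit 52) (List.cons (nat_lit 1312) (List.cons (nat_lit 208) (List.cons (nat_lit 152) (List.cons (nat_lit 176) (List.cons (nat_lit 400) List.nil)))))))))))))))))))))))))))))))))))) (nat_lit 3) (nat_lit 248)))))))) (BT.node (BT.node (BT.node (BT.node (BT.node (BT.node (BT.leaf (Hd.mk (List.cons (nat_lit 3969) (List.cons (nat_lit 2169) (List.cons (nat_lit 2055) (List.cons (nat_lit 141) (List.cons (nat_lit 267) (List.cons (nat_lit 521) (List.cons (nat_lit 1033) (List.cons (nat_lit 145) (List.cons (nat_lit 273) (List.cons (nat_lit 163) (List.cons (nat_lit 193) List.nil))))))))))) (nat_lit 3) (nat_lit 0))) (BT.leaf (Hd.mk (List.cons (nat_lit 3841) (List.cons (nat_lit 2273) (List.cons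 (nat_lit 2077) (List.cons (nat_lit 1171) (List.cons (nat_lit 2051) (List.cons (nat_lit 645) (List.cons (nat_lit 393) (List.cons (nat_lit 1093) (List.cons (nat_lit 1065) (List.cons (nat_lit 263) (List.cons (nat_lit 37) (List.cons (nat_lit 35) (List.cons (nat_lit 289) (List.cons (nat_lit 561) (List.cons (nat_lit 337) (List.cons (nat_lit 523) (List.cons (nat_lit 67) (List.cons (nat_lit 73) (List.cons (nat_lit 577) (List.cons (nat_lit 2704) (List.cons (nat_lit 2320) (List.cons (nat_lit 2066) (List.cons (nat_lit 2096) (List.cons (nat_lit 2128) (List.cons (nat_lit 3088) (List.cons (nat_lit 208) (List.cons (nat_lit 152) (List.cons (nat_lit 2184) (List.cons (nat_lit 3200) (List.cons (nat_lit 2568) (List.cons (nat_lit 2624) List.nil))))))))))))))))))))))))))))))) (nat_lit 3) (nat_lit 248)))) (BT.node (BT.leaf (Hd.mk (List.cons (nat_lit 3969) (List.cons (nat_lit 195) (List.cons (nat_lit 165) (List.cons (nat_lit 153) (List.cons (nat_lit 291) (List.cons (nat_lit 329) (List.cons (nat_lit 261) (List.cons (nat_lit 273) (List.cons (nat_lit 515) (List.cons (nat_lit 525) (List.cons (nat_lit 2059) (List.cons (nat_lit 1065) List.nil)))))))))))) (nat_lit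 3) (nat_lit 0))) (BT.leaf (Hd.mk (List.cons (nat_lit 3841) (List.cons (nat_lit 2273) (List.cons (nat_lit 1177) (List.cons (nat_lit 597) (List.cons (nat_lit 2067) (List.cons (nat_lit 2061) (List.cons (nat_lit 305) (List.cons (nat_lit 1089) (List.cons (nat_lit 641) (List.cons (nat_lit 323) (List.cons (nat_lit 73) (List.cons (nat_lit 265) (List.cons (nat_lit 131) (List.cons (nat_lit 389) List.nil)))))))))))))) (nat_lit 3) (nat_lit 0))))) (BT.node (BT.node (BT.leaf (Hd.mk (List.cons (nat_lit 3969) (List.cons (nat_lit 2161) (List.cons (nat_lit 2059)
  (List.cons (nat_lit 2053) (List.cons (nat_lit 145) (List.cons (nat_lit 135) (List.cons (nat_lit 161) (List.cons (nat_lit 137) List.nil)))))))) (nat_lit 3) (nat_lit 0))) (BT.leaf (Hd.mk (List.cons (nat_lit 3841) (List.cons (nat_lit 2273) (List.cons (nat_lit 2077) (List.cons (nat_lit 1171) (List.cons (nat_lit 2051) (List.cons (nat_lit 645) (List.cons (nat_lit 137) (List.cons (nat_lit 385) (List.cons (nat_lit 1029) (List.cons (nat_lit 1057) (List.cons (nat_lit 1033) (List.cons (nat_lit 1089) List.nil)))))))))))) (nat_lit 3) (nat_lit 0)))) (BT.node (BT.leaf (Hd.mk (List.cons (nat_lit 3969)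 (List.cons (nat_lit 195) (List.cons (nat_lit 165) (List.cons (nat_lit 137) (List.cons (nat_lit 145) (List.cons (nat_lit 291) (List.cons (nat_lit 515) (List.cons (nat_lit 1027) (List.cons (nat_lit 23) List.nil))))))))) (nat_lit 3) (nat_lit 0))) (BT.leaf (Hd.mk (List.cons (nat_lit 3841) (List.cons (nat_lit 2273) (List.cons (nat_lit 1177) (List.cons (nat_lit 2061) (List.cons (nat_lit 2051) (List.cons (nat_lit 2065) (List.cons (nat_lit 1061) (List.cons (nat_lit 1027) (List.cons (nat_lit 1089) (List.cons (nat_lit 385) (List.cons (nat_lit 135) (List.cons (nat_lit 641) List.nil)))))))))))) (nat_lit 3) (nat_lit 0)))))) (BT.node (BT.node (BT.node (BT.leaf (Hd.mk (List.cons (nat_lit 3969) (List.cons (nat_lit 2161) (List.cons (nat_lit 2059) (List.cons (nat_lit 2053) (List.cons (nat_lit 153) (List.cons (nat_lit 277) (List.cons (nat_lit 531) (List.cons (nat_lit 1041) (List.cons (nat_lit 323) (List.cons (nat_lit 265) (List.cons (nat_lit 289) List.nil))))))))))) (nat_lit 3) (nat_lit 0))) (BT.leaf (Hd.mk (List.cons (nat_lit 3841) (List.cons (nat_lit 2273) (List.cons (nat_lit 2077) (List.cons (nat_lit 1171) (List.cons (nat_lit 2051) (List.cons (nat_lit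 645) (List.cons (nat_lit 393) (List.cons (nat_lit 1093) (List.cons (nat_lit 1065) (List.cons (nat_lit 263) (List.cons (nat_lit 37) (List.cons (nat_lit 35) (List.cons (nat_lit 289) (List.cons (nat_lit 561) (List.cons (nat_lit 337) (List.cons (nat_lit 523) (List.cons (nat_lit 67) (List.cons (nat_lit 73) (List.cons (nat_lit 577) (List.cons (nat_lit 2192) (List.cons (nat_lit 3088) (List.cons (nat_lit 2436) (List.cons (nat_lit 3200) (List.cons (nat_lit 2178) (List.cons (nat_lit 2184) (List.cons (nat_lit 2688) (List.cons (nat_lit 148) List.nil))))))))))))))))))))))))))) (nat_lit 3) (nat_lit 248)))) (BT.node (BT.leaf (Hd.mk (List.cons (nat_lit 3969) (List.cons (nat_lit 195) (List.cons (nat_lit 165) (List.cons (nat_lit 153) (List.cons (nat_lit 291) (List.cons (nat_lit 265) (List.cons (nat_lit 261) (List.cons (nat_lit 273) (List.cons (nat_lit 321) (List.cons (nat_lit 531) (List.cons (nat_lit 1031) List.nil))))))))))) (nat_lit 3) (nat_lit 0))) (BT.leaf (Hd.mk (List.cons (nat_lit 3841) (List.cons (nat_lit 2273) (List.cons (nat_lit 1177) (List.cons (nat_lit 2061) (List.cons (nat_lit 2067) (List.cons (nat_lit 1061) (List.cons (nat_lit 1091)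 (List.cons (nat_lit 73) (List.cons (nat_lit 267) (List.cons (nat_lit 35) (List.cons (nat_lit 41) (List.cons (nat_lit 521) List.nil)))))))))))) (nat_lit 3) (nat_lit 0))))) (BT.node (BT.node (BT.leaf (Hd.mk (List.cons (nat_lit 3969) (List.cons (nat_lit 195) (List.cons (nat_lit 165) (List.cons (nat_lit 153) (List.cons (nat_lit 291) (List.cons (nat_lit 329) (List.cons (nat_lit 277) (List.cons (nat_lit 19) (List.cons (nat_lit 523) (List.cons (nat_lit 1031) (List.cons (nat_lit 2051) List.nil))))))))))) (nat_lit 3) (nat_lit 0))) (BT.leaf (Hd.mk (List.cons (nat_lit 3841) (List.cons (nat_lit 2273) (List.cons (nat_lit 2077) (List.cons (nat_lit 2051) (List.cons (nat_lit 1061) (List.cons (nat_lit 581) (List.cons (nat_lit 7) (List.cons (nat_lit 389) (List.cons (nat_lit 553) (List.cons (nat_lit 35) (List.cons (nat_lit 305) (List.cons (nat_lit 259) (List.cons (nat_lit 265) (List.cons (nat_lit 321) List.nil)))))))))))))) (nat_lit 3) (nat_lit 0)))) (BT.node (BT.leaf (Hd.mk (List.cons (nat_lit 3969) (List.cons (nat_lit 195) (List.cons (nat_lit 133) List.nil))) (nat_lit 3) (nat_lit 0))) (BT.leaf (Hd.mk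
  (List.cons (nat_lit 3841) (List.cons (nat_lit 2273) List.nil)) (nat_lit 4) (nat_lit 0))))))) (BT.node (BT.node (BT.node (BT.node (BT.leaf (Hd.mk (List.cons (nat_lit 3969) (List.cons (nat_lit 2169) (List.cons (nat_lit 2051) (List.cons (nat_lit 2053) (List.cons (nat_lit 137) (List.cons (nat_lit 265) (List.cons (nat_lit 521) (List.cons (nat_lit 15) (List.cons (nat_lit 1033) (List.cons (nat_lit 149) List.nil)))))))))) (nat_lit 3) (nat_lit 0))) (BT.leaf (Hd.mk (List.cons (nat_lit 3841) (List.cons (nat_lit 2273) (List.cons (nat_lit 2077) (List.cons (nat_lit 1171) (List.cons (nat_lit 2051) (List.cons (nat_lit 645) (List.cons (nat_lit 393) (List.cons (nat_lit 1093) (List.cons (nat_lit 1065) (List.cons (nat_lit 263) (List.cons (nat_lit 37) (List.cons (nat_lit 35) (List.cons (nat_lit 289) (List.cons (nat_lit 561) (List.cons (nat_lit 337) (List.cons (nat_lit 523) (List.cons (nat_lit 67) (List.cons (nat_lit 73) (List.cons (nat_lit 577) (List.cons (nat_lit 2192) (List.cons (nat_lit 3152) (List.cons (nat_lit 2576) (List.cons (nat_lit 1552) (List.cons (nat_lit 1048) (List.cons (nat_lit 3080) (List.cons (nat_lit 3200) (List.cons (nat_lit 720)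 (List.cons (nat_lit 152) (List.cons (nat_lit 536) (List.cons (nat_lit 1216) List.nil)))))))))))))))))))))))))))))) (nat_lit 3) (nat_lit 248)))) (BT.node (BT.leaf (Hd.mk (List.cons (nat_lit 3969) (List.cons (nat_lit 195) (List.cons (nat_lit 165) (List.cons (nat_lit 153) (List.cons (nat_lit 291) (List.cons (nat_lit 265) (List.cons (nat_lit 325) (List.cons (nat_lit 273) (List.cons (nat_lit 531) (List.cons (nat_lit 525) (List.cons (nat_lit 545) (List.cons (nat_lit 577) (List.cons (nat_lit 2055) (List.cons (nat_lit 1035) (List.cons (nat_lit 21) (List.cons (nat_lit 1029) List.nil)))))))))))))))) (nat_lit 3) (nat_lit 0))) (BT.leaf (Hd.mk (List.cons (nat_lit 3841) (List.cons (nat_lit 2273) (List.cons (nat_lit 1177) (List.cons (nat_lit 583) (List.cons (nat_lit 1089) (List.cons (nat_lit 641) (List.cons (nat_lit 387) (List.cons (nat_lit 133) (List.cons (nat_lit 1027) List.nil))))))))) (nat_lit 3) (nat_lit 0))))) (BT.node (BT.node (BT.leaf (Hd.mk (List.cons (nat_lit 3969) (List.cons (nat_lit 121) (List.cons (nat_lit 141) (List.cons (nat_lit 265) List.nil)))) (nat_lit 3) (nat_lit 0))) (BT.leaf (Hd.mk (List.cons (nat_lit 3841) (List.cons (nat_lit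 2273) (List.cons (nat_lit 2077) (List.cons (nat_lit 2051) (List.cons (nat_lit 1061) (List.cons (nat_lit 581) (List.cons (nat_lit 263) (List.cons (nat_lit 133) (List.cons (nat_lit 305) (List.cons (nat_lit 321) (List.cons (nat_lit 265) (List.cons (nat_lit 385) (List.cons (nat_lit 35) (List.cons (nat_lit 553) List.nil)))))))))))))) (nat_lit 3) (nat_lit 0)))) (BT.node (BT.leaf (Hd.mk (List.cons (nat_lit 3969) (List.cons (nat_lit 195) (List.cons (nat_lit 165) (List.cons (nat_lit 137) (List.cons (nat_lit 145) (List.cons (nat_lit 275) List.nil)))))) (nat_lit 3) (nat_lit 0))) (BT.leaf (Hd.mk (List.cons (nat_lit 3841) (List.cons (nat_lit 2273) (List.cons (nat_lit 1053) (List.cons (nat_lit 2055) (List.cons (nat_lit 2057) (List.cons (nat_lit 2065) (List.cons (nat_lit 1059) (List.cons (nat_lit 1089) (List.cons (nat_lit 1153) (List.cons (nat_lit 549) List.nil)))))))))) (nat_lit 3) (nat_lit 0)))))) (BT.node (BT.node (BT.node (BT.leaf (Hd.mk (List.cons (nat_lit 3969) (List.cons (nat_lit 2161) (List.cons (nat_lit 2059) (List.cons (nat_lit 2053) (List.cons (nat_lit 149) (List.cons (nat_lit 195) (List.cons (nat_lit 137) (List.cons (nat_lit 161) List.nil))))))))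 (nat_lit 3) (nat_lit 0))) (BT.leaf (Hd.mk (List.cons (nat_lit 3841) (List.cons (nat_lit 2273) (List.cons (nat_lit 2077) (List.cons (nat_lit 1171) (List.cons (nat_lit 2051) (List.cons (nat_lit 645) (List.cons (nat_lit 393) (List.cons (nat_lit 1093) (List.cons (nat_lit 1065) (List.cons (nat_lit 263) (List.cons (nat_lit 37) (List.cons (nat_lit 35) (List.cons (nat_lit 289) (List.cons (nat_lit 561) (List.cons (nat_lit 337) (List.cons (nat_lit 523) (List.cons (nat_lit 67) (List.cons (nat_lit 73) (List.cons (nat_lit 577) (List.cons
  (nat_lit 2192) (List.cons (nat_lit 3088) (List.cons (nat_lit 2432) (List.cons (nat_lit 2180) (List.cons (nat_lit 3208) (List.cons (nat_lit 2178) (List.cons (nat_lit 2688) (List.cons (nat_lit 3136) (List.cons (nat_lit 2568) List.nil)))))))))))))))))))))))))))) (nat_lit 3) (nat_lit 248)))) (BT.node (BT.leaf (Hd.mk (List.cons (nat_lit 3969) (List.cons (nat_lit 195) (List.cons (nat_lit 165) (List.cons (nat_lit 137) (List.cons (nat_lit 145) (List.cons (nat_lit 291) (List.cons (nat_lit 531) (List.cons (nat_lit 1035) (List.cons (nat_lit 7) (List.cons (nat_lit 2051) (List.cons (nat_lit 517) (List.cons (nat_lit 1045)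 (List.cons (nat_lit 1121) (List.cons (nat_lit 545) (List.cons (nat_lit 585) List.nil))))))))))))))) (nat_lit 3) (nat_lit 0))) (BT.leaf (Hd.mk (List.cons (nat_lit 3841) (List.cons (nat_lit 2273) (List.cons (nat_lit 1177) (List.cons (nat_lit 2061) (List.cons (nat_lit 2067) (List.cons (nat_lit 1057) (List.cons (nat_lit 1031) (List.cons (nat_lit 1089) List.nil)))))))) (nat_lit 3) (nat_lit 0))))) (BT.node (BT.node (BT.leaf (Hd.mk (List.cons (nat_lit 3969) (List.cons (nat_lit 195) (List.cons (nat_lit 165) (List.cons (nat_lit 153) (List.cons (nat_lit 291) (List.cons (nat_lit 329) (List.cons (nat_lit 261) (List.cons (nat_lit 273) (List.cons (nat_lit 523) (List.cons (nat_lit 1031) (List.cons (nat_lit 19) (List.cons (nat_lit 2051) (List.cons (nat_lit 2061) (List.cons (nat_lit 1065) (List.cons (nat_lit 1105) List.nil))))))))))))))) (nat_lit 3) (nat_lit 0))) (BT.leaf (Hd.mk (List.cons (nat_lit 3841) (List.cons (nat_lit 2273) (List.cons (nat_lit 2077) (List.cons (nat_lit 2051) (List.cons (nat_lit 1061) (List.cons (nat_lit 71) (List.cons (nat_lit 261) List.nil))))))) (nat_lit 3) (nat_lit 0)))) (BT.leaf (Hd.mk (List.cons (nat_lit 3841) (List.cons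 (nat_lit 2273) (List.cons (nat_lit 2077) (List.cons (nat_lit 1171) (List.cons (nat_lit 2051) (List.cons (nat_lit 645) (List.cons (nat_lit 393) (List.cons (nat_lit 1093) (List.cons (nat_lit 1065) (List.cons (nat_lit 263) (List.cons (nat_lit 37) (List.cons (nat_lit 35) (List.cons (nat_lit 289) (List.cons (nat_lit 561) (List.cons (nat_lit 337) (List.cons (nat_lit 523) (List.cons (nat_lit 67) (List.cons (nat_lit 73) (List.cons (nat_lit 577) (List.cons (nat_lit 2704) (List.cons (nat_lit 2320) (List.cons (nat_lit 2130) (List.cons (nat_lit 2096) (List.cons (nat_lit 3088) (List.cons (nat_lit 3136) (List.cons (nat_lit 22) List.nil)))))))))))))))))))))))))) (nat_lit 3) (nat_lit 248))))))) (BT.node (BT.node (BT.node (BT.node (BT.node (BT.leaf (Hd.mk (List.cons (nat_lit 3969) (List.cons (nat_lit 2169) (List.cons (nat_lit 2055) (List.cons (nat_lit 137) (List.cons (nat_lit 265) (List.cons (nat_lit 11) (List.cons (nat_lit 521) (List.cons (nat_lit 13) (List.cons (nat_lit 1033) (List.cons (nat_lit 149) List.nil)))))))))) (nat_lit 3) (nat_lit 0))) (BT.leaf (Hd.mk (List.cons (nat_lit 3841) (List.cons (nat_lit 2273) (List.cons (nat_lit 2077) (List.cons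 (nat_lit 1171) (List.cons (nat_lit 2051) (List.cons (nat_lit 645) (List.cons (nat_lit 393) (List.cons (nat_lit 1093) (List.cons (nat_lit 1065) (List.cons (nat_lit 263) (List.cons (nat_lit 37) (List.cons (nat_lit 35) (List.cons (nat_lit 289) (List.cons (nat_lit 561) (List.cons (nat_lit 337) (List.cons (nat_lit 523) (List.cons (nat_lit 67) (List.cons (nat_lit 73) (List.cons (nat_lit 577) (List.cons (nat_lit 2192) (List.cons (nat_lit 3152) (List.cons (nat_lit 2576) (List.cons (nat_lit 1560) (List.cons (nat_lit 152) (List.cons (nat_lit 1664) (List.cons (nat_lit 88) (List.cons (nat_lit 1600) (List.cons (nat_lit 3080) (List.cons (nat_lit 3200) (List.cons (nat_lit 720) (List.cons (nat_lit 2696) (List.cons (nat_lit 1224) (List.cons (nat_lit 1296) (List.cons (nat_lit 1044) (List.cons (nat_lit 1072) (List.cons (nat_lit 2122) (List.cons (nat_lit 2624) List.nil))))))))))))))))))))))))))))))))))))) (nat_lit 3) (nat_lit 248)))) (BT.node (BT.leaf (Hd.mk (List.cons (nat_lit 3969) (List.cons (nat_lit 195) (List.cons (nat_lit 165) (List.cons (nat_lit 153) (List.cons (nat_lit 291)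
  (List.cons (nat_lit 329) (List.cons (nat_lit 261) (List.cons (nat_lit 273) List.nil)))))))) (nat_lit 3) (nat_lit 0))) (BT.leaf (Hd.mk (List.cons (nat_lit 3841) (List.cons (nat_lit 2273) (List.cons (nat_lit 1177) (List.cons (nat_lit 597) (List.cons (nat_lit 2067) (List.cons (nat_lit 2061) (List.cons (nat_lit 49) (List.cons (nat_lit 273) List.nil)))))))) (nat_lit 3) (nat_lit 0))))) (BT.node (BT.node (BT.leaf (Hd.mk (List.cons (nat_lit 3969) (List.cons (nat_lit 2161) (List.cons (nat_lit 2051) (List.cons (nat_lit 2053) (List.cons (nat_lit 2057) (List.cons (nat_lit 153) (List.cons (nat_lit 273) (List.cons (nat_lit 529) List.nil)))))))) (nat_lit 3) (nat_lit 0))) (BT.leaf (Hd.mk (List.cons (nat_lit 3841) (List.cons (nat_lit 2273) (List.cons (nat_lit 2077) (List.cons (nat_lit 2051) (List.cons (nat_lit 1061) (List.cons (nat_lit 581) (List.cons (nat_lit 263) (List.cons (nat_lit 133) (List.cons (nat_lit 305) (List.cons (nat_lit 329) (List.cons (nat_lit 385) (List.cons (nat_lit 35) (List.cons (nat_lit 553) List.nil))))))))))))) (nat_lit 3) (nat_lit 0)))) (BT.node (BT.leaf (Hd.mk (List.cons (nat_lit 3969) (List.cons (nat_lit 195) (List.cons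 (nat_lit 165) (List.cons (nat_lit 137) (List.cons (nat_lit 145) (List.cons (nat_lit 275) (List.cons (nat_lit 261) (List.cons (nat_lit 329) (List.cons (nat_lit 289) (List.cons (nat_lit 547) (List.cons (nat_lit 1035) (List.cons (nat_lit 7) (List.cons (nat_lit 2051) List.nil))))))))))))) (nat_lit 3) (nat_lit 0))) (BT.leaf (Hd.mk (List.cons (nat_lit 3841) (List.cons (nat_lit 2273) (List.cons (nat_lit 1177) (List.cons (nat_lit 2061) (List.cons (nat_lit 2051) (List.cons (nat_lit 2065) (List.cons (nat_lit 1057) (List.cons (nat_lit 1031) (List.cons (nat_lit 1089) (List.cons (nat_lit 643) List.nil)))))))))) (nat_lit 3) (nat_lit 0)))))) (BT.node (BT.node (BT.node (BT.leaf (Hd.mk (List.cons (nat_lit 3969) (List.cons (nat_lit 2161) (List.cons (nat_lit 2059) (List.cons (nat_lit 2053) (List.cons (nat_lit 153) (List.cons (nat_lit 275) (List.cons (nat_lit 529) (List.cons (nat_lit 21) (List.cons (nat_lit 1041) (List.cons (nat_lit 165) (List.cons (nat_lit 195) List.nil))))))))))) (nat_lit 3) (nat_lit 0))) (BT.leaf (Hd.mk (List.cons (nat_lit 3841) (List.cons (nat_lit 2273) (List.cons (nat_lit 2077) (List.cons (nat_lit 1171) (List.cons (nat_lit 2051)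 (List.cons (nat_lit 645) (List.cons (nat_lit 393) (List.cons (nat_lit 1093) (List.cons (nat_lit 1065) (List.cons (nat_lit 263) (List.cons (nat_lit 37) (List.cons (nat_lit 35) (List.cons (nat_lit 289) (List.cons (nat_lit 561) (List.cons (nat_lit 337) (List.cons (nat_lit 523) (List.cons (nat_lit 67) (List.cons (nat_lit 73) (List.cons (nat_lit 577) (List.cons (nat_lit 2192) (List.cons (nat_lit 3088) (List.cons (nat_lit 2432) (List.cons (nat_lit 3204) (List.cons (nat_lit 3106) (List.cons (nat_lit 3080) (List.cons (nat_lit 3136) (List.cons (nat_lit 2096) List.nil))))))))))))))))))))))))))) (nat_lit 3) (nat_lit 248)))) (BT.node (BT.leaf (Hd.mk (List.cons (nat_lit 3969) (List.cons (nat_lit 195) (List.cons (nat_lit 165) (List.cons (nat_lit 153) (List.cons (nat_lit 259) (List.cons (nat_lit 261) (List.cons (nat_lit 265) (List.cons (nat_lit 273) (List.cons (nat_lit 289) (List.cons (nat_lit 321) (List.cons (nat_lit 547) List.nil))))))))))) (nat_lit 3) (nat_lit 0))) (BT.leaf (Hd.mk (List.cons (nat_lit 3841) (List.cons (nat_lit 2273) (List.cons (nat_lit 1177) (List.cons (nat_lit 2061) (List.cons (nat_lit 2067) (List.cons (nat_lit 1057) (List.cons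 (nat_lit 1031) (List.cons (nat_lit 1089) (List.cons (nat_lit 643) (List.cons (nat_lit 389) (List.cons (nat_lit 291) List.nil))))))))))) (nat_lit 3) (nat_lit 0))))) (BT.node (BT.node (BT.leaf (Hd.mk (List.cons (nat_lit 3969) (List.cons (nat_lit 195) (List.cons (nat_lit 165) (List.cons (nat_lit 153) (List.cons (nat_lit 291) (List.cons (nat_lit 329) (List.cons (nat_lit 261) (List.cons (nat_lit 273) (List.cons (nat_lit 531) (List.cons (nat_lit 1035) (List.cons (nat_lit 2055) (List.cons (nat_lit 13) (List.cons (nat_lit 581) (List.cons (nat_lit 1045)
  (List.cons (nat_lit 521) (List.cons (nat_lit 545) List.nil)))))))))))))))) (nat_lit 3) (nat_lit 0))) (BT.leaf (Hd.mk (List.cons (nat_lit 3841) (List.cons (nat_lit 2273) (List.cons (nat_lit 2077) (List.cons (nat_lit 2051) (List.cons (nat_lit 1061) (List.cons (nat_lit 581) (List.cons (nat_lit 7) (List.cons (nat_lit 389) (List.cons (nat_lit 43) (List.cons (nat_lit 265) List.nil)))))))))) (nat_lit 3) (nat_lit 0)))) (BT.leaf (Hd.mk (List.cons (nat_lit 3841) (List.cons (nat_lit 2273) (List.cons (nat_lit 2077) (List.cons (nat_lit 1171) (List.cons (nat_lit 2051) (List.cons (nat_lit 645) (List.cons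 (nat_lit 393) (List.cons (nat_lit 1093) (List.cons (nat_lit 1065) (List.cons (nat_lit 263) (List.cons (nat_lit 37) (List.cons (nat_lit 35) (List.cons (nat_lit 289) (List.cons (nat_lit 561) (List.cons (nat_lit 337) (List.cons (nat_lit 523) (List.cons (nat_lit 67) (List.cons (nat_lit 73) (List.cons (nat_lit 577) (List.cons (nat_lit 2704) (List.cons (nat_lit 2352) (List.cons (nat_lit 2130) (List.cons (nat_lit 3088) List.nil))))))))))))))))))))))) (nat_lit 3) (nat_lit 248)))))) (BT.node (BT.node (BT.node (BT.node (BT.leaf (Hd.mk (List.cons (nat_lit 3969) (List.cons (nat_lit 2161) (List.cons (nat_lit 1101) (List.cons (nat_lit 555) (List.cons (nat_lit 2057) (List.cons (nat_lit 1057) (List.cons (nat_lit 577) (List.cons (nat_lit 1043) (List.cons (nat_lit 2055) (List.cons (nat_lit 195) (List.cons (nat_lit 259) (List.cons (nat_lit 321) List.nil)))))))))))) (nat_lit 3) (nat_lit 0))) (BT.leaf (Hd.mk (List.cons (nat_lit 3841) (List.cons (nat_lit 2273) (List.cons (nat_lit 2077) (List.cons (nat_lit 1171) (List.cons (nat_lit 2051) (List.cons (nat_lit 645) (List.cons (nat_lit 393) (List.cons (nat_lit 1093) (List.cons (nat_lit 1065) (List.cons (nat_lit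 263) (List.cons (nat_lit 37) (List.cons (nat_lit 35) (List.cons (nat_lit 289) (List.cons (nat_lit 561) (List.cons (nat_lit 337) (List.cons (nat_lit 523) (List.cons (nat_lit 67) (List.cons (nat_lit 73) (List.cons (nat_lit 577) (List.cons (nat_lit 2192) (List.cons (nat_lit 3088) (List.cons (nat_lit 2436) (List.cons (nat_lit 3208) (List.cons (nat_lit 1408) (List.cons (nat_lit 3076) (List.cons (nat_lit 2690) List.nil)))))))))))))))))))))))))) (nat_lit 3) (nat_lit 248)))) (BT.node (BT.leaf (Hd.mk (List.cons (nat_lit 3969) (List.cons (nat_lit 195) (List.cons (nat_lit 165) (List.cons (nat_lit 153) (List.cons (nat_lit 291) (List.cons (nat_lit 265) (List.cons (nat_lit 325) (List.cons (nat_lit 273) (List.cons (nat_lit 531) List.nil))))))))) (nat_lit 3) (nat_lit 0))) (BT.leaf (Hd.mk (List.cons (nat_lit 3841) (List.cons (nat_lit 2273) (List.cons (nat_lit 1177) (List.cons (nat_lit 2061) (List.cons (nat_lit 2067) (List.cons (nat_lit 1061) (List.cons (nat_lit 1091) (List.cons (nat_lit 585) (List.cons (nat_lit 11) (List.cons (nat_lit 297) (List.cons (nat_lit 35) (List.cons (nat_lit 49) (List.cons (nat_lit 545) List.nil))))))))))))) (nat_lit 3)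 (nat_lit 0))))) (BT.node (BT.node (BT.leaf (Hd.mk (List.cons (nat_lit 3969) (List.cons (nat_lit 195) (List.cons (nat_lit 165) (List.cons (nat_lit 153) (List.cons (nat_lit 291) (List.cons (nat_lit 329) (List.cons (nat_lit 277) (List.cons (nat_lit 2067) (List.cons (nat_lit 523) (List.cons (nat_lit 1031) (List.cons (nat_lit 13) (List.cons (nat_lit 517) (List.cons (nat_lit 2117) (List.cons (nat_lit 1033) (List.cons (nat_lit 2089) (List.cons (nat_lit 593) (List.cons (nat_lit 545) List.nil))))))))))))))))) (nat_lit 3) (nat_lit 0))) (BT.leaf (Hd.mk (List.cons (nat_lit 3841) (List.cons (nat_lit 2273) (List.cons (nat_lit 2077) (List.cons (nat_lit 2051) (List.cons (nat_lit 1061) (List.cons (nat_lit 581) (List.cons (nat_lit 263) (List.cons (nat_lit 133) (List.cons (nat_lit 289) (List.cons (nat_lit 553) (List.cons (nat_lit 35) (List.cons (nat_lit 49) (List.cons (nat_lit 515) (List.cons (nat_lit 657) List.nil)))))))))))))) (nat_lit 3) (nat_lit 0)))) (BT.node (BT.leaf (Hd.mk (List.cons (nat_lit 3969) (List.cons (nat_lit 195) (List.cons (nat_lit 133) (List.cons (nat_lit 137) (List.cons (nat_lit 145)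
  (List.cons (nat_lit 161) (List.cons (nat_lit 291) (List.cons (nat_lit 531) (List.cons (nat_lit 1027) (List.cons (nat_lit 15) (List.cons (nat_lit 2051) List.nil))))))))))) (nat_lit 3) (nat_lit 0))) (BT.leaf (Hd.mk (List.cons (nat_lit 3841) (List.cons (nat_lit 2273) (List.cons (nat_lit 1053) List.nil))) (nat_lit 4) (nat_lit 0)))))) (BT.node (BT.node (BT.node (BT.leaf (Hd.mk (List.cons (nat_lit 3969) (List.cons (nat_lit 2161) (List.cons (nat_lit 2059) (List.cons (nat_lit 2053) (List.cons (nat_lit 145) (List.cons (nat_lit 195) (List.cons (nat_lit 133) (List.cons (nat_lit 169) (List.cons (nat_lit 293) (List.cons (nat_lit 275) (List.cons (nat_lit 265) (List.cons (nat_lit 321) List.nil)))))))))))) (nat_lit 3) (nat_lit 0))) (BT.leaf (Hd.mk (List.cons (nat_lit 3841) (List.cons (nat_lit 2273) (List.cons (nat_lit 2077) (List.cons (nat_lit 1171) (List.cons (nat_lit 2051) (List.cons (nat_lit 645) (List.cons (nat_lit 393) (List.cons (nat_lit 1093) (List.cons (nat_lit 1065) (List.cons (nat_lit 7) (List.cons (nat_lit 37) (List.cons (nat_lit 261) (List.cons (nat_lit 523) List.nil))))))))))))) (nat_lit 3) (nat_lit 0)))) (BT.node (BT.leaf (Hd.mk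 (List.cons (nat_lit 3969) (List.cons (nat_lit 195) (List.cons (nat_lit 165) (List.cons (nat_lit 137) (List.cons (nat_lit 145) (List.cons (nat_lit 291) (List.cons (nat_lit 531) (List.cons (nat_lit 1027) (List.cons (nat_lit 15) (List.cons (nat_lit 2051) List.nil)))))))))) (nat_lit 3) (nat_lit 0))) (BT.leaf (Hd.mk (List.cons (nat_lit 3841) (List.cons (nat_lit 2273) (List.cons (nat_lit 1177) (List.cons (nat_lit 2061) (List.cons (nat_lit 2051) (List.cons (nat_lit 2065) (List.cons (nat_lit 1061) (List.cons (nat_lit 1027) (List.cons (nat_lit 1089) (List.cons (nat_lit 389) (List.cons (nat_lit 643) (List.cons (nat_lit 71) List.nil)))))))))))) (nat_lit 3) (nat_lit 0))))) (BT.node (BT.node (BT.leaf (Hd.mk (List.cons (nat_lit 3969) (List.cons (nat_lit 195) (List.cons (nat_lit 165) (List.cons (nat_lit 153) (List.cons (nat_lit 291) (List.cons (nat_lit 329) (List.cons (nat_lit 261) (List.cons (nat_lit 273) (List.cons (nat_lit 519) (List.cons (nat_lit 553) (List.cons (nat_lit 593) (List.cons (nat_lit 2059) List.nil)))))))))))) (nat_lit 3) (nat_lit 0))) (BT.leaf (Hd.mk (List.cons (nat_lit 3841) (List.cons (nat_lit 2273) (List.cons (nat_lit 2077)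 (List.cons (nat_lit 2051) (List.cons (nat_lit 39) (List.cons (nat_lit 261) (List.cons (nat_lit 69) (List.cons (nat_lit 517) (List.cons (nat_lit 133) (List.cons (nat_lit 1029) (List.cons (nat_lit 305) (List.cons (nat_lit 553) (List.cons (nat_lit 1057) List.nil))))))))))))) (nat_lit 3) (nat_lit 0)))) (BT.leaf (Hd.mk (List.cons (nat_lit 3841) (List.cons (nat_lit 2273) (List.cons (nat_lit 2077) (List.cons (nat_lit 1171) (List.cons (nat_lit 2051) (List.cons (nat_lit 645) (List.cons (nat_lit 393) (List.cons (nat_lit 1093) (List.cons (nat_lit 1065) (List.cons (nat_lit 263) (List.cons (nat_lit 37) (List.cons (nat_lit 35) (List.cons (nat_lit 289) (List.cons (nat_lit 561) (List.cons (nat_lit 337) (List.cons (nat_lit 523) (List.cons (nat_lit 67) (List.cons (nat_lit 73) (List.cons (nat_lit 577) (List.cons (nat_lit 2704) (List.cons (nat_lit 2320) (List.cons (nat_lit 2066) (List.cons (nat_lit 2096) (List.cons (nat_lit 2128) (List.cons (nat_lit 3088) (List.cons (nat_lit 216) (List.cons (nat_lit 536) (List.cons (nat_lit 1048) (List.cons (nat_lit 2568) (List.cons (nat_lit 1216) (List.cons (nat_lit 2184) (List.cons (nat_lit 3200) (List.cons (nat_lit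 1552) (List.cons (nat_lit 1136) (List.cons (nat_lit 1044) (List.cons (nat_lit 1296) (List.cons (nat_lit 1664) (List.cons (nat_lit 648) (List.cons (nat_lit 1160) List.nil))))))))))))))))))))))))))))))))))))))) (nat_lit 3) (nat_lit 248))))))))) (BT.node (BT.node (BT.node (BT.node (BT.node (BT.node (BT.node (BT.leaf (Hd.mk (List.cons (nat_lit 3969) (List.cons (nat_lit 2169) (List.cons (nat_lit 2055) (List.cons (nat_lit 141) (List.cons (nat_lit 267) (List.cons (nat_lit 521) (List.cons (nat_lit 1033) (List.cons (nat_lit 147) (List.cons (nat_lit 161)
  (List.cons (nat_lit 193) (List.cons (nat_lit 273) (List.cons (nat_lit 533) (List.cons (nat_lit 1041) List.nil))))))))))))) (nat_lit 3) (nat_lit 0))) (BT.leaf (Hd.mk (List.cons (nat_lit 3841) (List.cons (nat_lit 2273) (List.cons (nat_lit 2077) (List.cons (nat_lit 1171) (List.cons (nat_lit 2051) (List.cons (nat_lit 645) (List.cons (nat_lit 393) (List.cons (nat_lit 1093) (List.cons (nat_lit 1065) (List.cons (nat_lit 263) (List.cons (nat_lit 37) (List.cons (nat_lit 35) (List.cons (nat_lit 289) (List.cons (nat_lit 561) (List.cons (nat_lit 337) (List.cons (nat_lit 523) (List.cons (nat_lit 67)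 (List.cons (nat_lit 73) (List.cons (nat_lit 577) (List.cons (nat_lit 2704) (List.cons (nat_lit 2320) (List.cons (nat_lit 2066) (List.cons (nat_lit 2096) (List.cons (nat_lit 2128) (List.cons (nat_lit 3088) (List.cons (nat_lit 208) (List.cons (nat_lit 152) (List.cons (nat_lit 2184) (List.cons (nat_lit 3200) (List.cons (nat_lit 2632) (List.cons (nat_lit 3080) (List.cons (nat_lit 3136) (List.cons (nat_lit 536) (List.cons (nat_lit 1552) List.nil)))))))))))))))))))))))))))))))))) (nat_lit 3) (nat_lit 248)))) (BT.node (BT.leaf (Hd.mk (List.cons (nat_lit 3969) (List.cons (nat_lit 195) (List.cons (nat_lit 165) (List.cons (nat_lit 153) (List.cons (nat_lit 291) (List.cons (nat_lit 329) (List.cons (nat_lit 261) (List.cons (nat_lit 273) (List.cons (nat_lit 515) (List.cons (nat_lit 553) (List.cons (nat_lit 533) (List.cons (nat_lit 577) (List.cons (nat_lit 2067) List.nil))))))))))))) (nat_lit 3) (nat_lit 0))) (BT.leaf (Hd.mk (List.cons (nat_lit 3841) (List.cons (nat_lit 2273) (List.cons (nat_lit 1177) (List.cons (nat_lit 597) (List.cons (nat_lit 2067) (List.cons (nat_lit 2061) (List.cons (nat_lit 305) (List.cons (nat_lit 1091) (List.cons (nat_lit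 1029) (List.cons (nat_lit 1057) (List.cons (nat_lit 37) (List.cons (nat_lit 73) (List.cons (nat_lit 321) List.nil))))))))))))) (nat_lit 3) (nat_lit 0))))) (BT.node (BT.node (BT.leaf (Hd.mk (List.cons (nat_lit 3969) (List.cons (nat_lit 2161) (List.cons (nat_lit 2059) (List.cons (nat_lit 2053) (List.cons (nat_lit 145) (List.cons (nat_lit 135) (List.cons (nat_lit 161) (List.cons (nat_lit 137) (List.cons (nat_lit 193) (List.cons (nat_lit 1043) (List.cons (nat_lit 547) List.nil))))))))))) (nat_lit 3) (nat_lit 0))) (BT.leaf (Hd.mk (List.cons (nat_lit 3841) (List.cons (nat_lit 2273) (List.cons (nat_lit 2077) (List.cons (nat_lit 1171) (List.cons (nat_lit 2051) (List.cons (nat_lit 645) (List.cons (nat_lit 137) (List.cons (nat_lit 385) (List.cons (nat_lit 1093) List.nil))))))))) (nat_lit 3) (nat_lit 0)))) (BT.node (BT.leaf (Hd.mk (List.cons (nat_lit 3969) (List.cons (nat_lit 195) (List.cons (nat_lit 165) (List.cons (nat_lit 137) (List.cons (nat_lit 145) (List.cons (nat_lit 291) (List.cons (nat_lit 519) (List.cons (nat_lit 1027) (List.cons (nat_lit 11) (List.cons (nat_lit 19) (List.cons (nat_lit 2051) List.nil))))))))))) (nat_lit 3) (nat_lit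 0))) (BT.leaf (Hd.mk (List.cons (nat_lit 3841) (List.cons (nat_lit 2273) (List.cons (nat_lit 1177) (List.cons (nat_lit 2061) (List.cons (nat_lit 2051) (List.cons (nat_lit 2065) (List.cons (nat_lit 1061) (List.cons (nat_lit 1027) (List.cons (nat_lit 1089) (List.cons (nat_lit 387) (List.cons (nat_lit 133) (List.cons (nat_lit 641) List.nil)))))))))))) (nat_lit 3) (nat_lit 0)))))) (BT.node (BT.node (BT.node (BT.leaf (Hd.mk (List.cons (nat_lit 3969) (List.cons (nat_lit 2161) (List.cons (nat_lit 79) List.nil))) (nat_lit 4) (nat_lit 0))) (BT.leaf (Hd.mk (List.cons (nat_lit 3841) (List.cons (nat_lit 2273) (List.cons (nat_lit 2077) (List.cons (nat_lit 1171) (List.cons (nat_lit 2051) (List.cons (nat_lit 645) (List.cons (nat_lit 393) (List.cons (nat_lit 1093) (List.cons (nat_lit 1065) (List.cons (nat_lit 263) (List.cons (nat_lit 37) (List.cons (nat_lit 35) (List.cons (nat_lit 289) (List.cons (nat_lit 561) (List.cons (nat_lit 337) (List.cons (nat_lit 523) (List.cons (nat_lit 67) (List.cons (nat_lit 73) (List.cons (nat_lit 577) (List.cons (nat_lit 2192) (List.cons (nat_lit 3088) (List.cons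
  (nat_lit 2436) (List.cons (nat_lit 3200) (List.cons (nat_lit 2178) (List.cons (nat_lit 2184) (List.cons (nat_lit 2688) (List.cons (nat_lit 148) (List.cons (nat_lit 1188) (List.cons (nat_lit 3076) (List.cons (nat_lit 3104) (List.cons (nat_lit 1408) List.nil))))))))))))))))))))))))))))))) (nat_lit 3) (nat_lit 248)))) (BT.node (BT.leaf (Hd.mk (List.cons (nat_lit 3969) (List.cons (nat_lit 195) (List.cons (nat_lit 165) (List.cons (nat_lit 153) (List.cons (nat_lit 291) (List.cons (nat_lit 265) (List.cons (nat_lit 261) (List.cons (nat_lit 273) (List.cons (nat_lit 321) (List.cons (nat_lit 531) (List.cons (nat_lit 1035) (List.cons (nat_lit 7) (List.cons (nat_lit 2051) List.nil))))))))))))) (nat_lit 3) (nat_lit 0))) (BT.leaf (Hd.mk (List.cons (nat_lit 3841) (List.cons (nat_lit 2273) (List.cons (nat_lit 1177) (List.cons (nat_lit 2061) (List.cons (nat_lit 2067) (List.cons (nat_lit 1061) (List.cons (nat_lit 1091) (List.cons (nat_lit 73) (List.cons (nat_lit 267) (List.cons (nat_lit 547) (List.cons (nat_lit 41) (List.cons (nat_lit 521) (List.cons (nat_lit 135) (List.cons (nat_lit 385) (List.cons (nat_lit 641) List.nil))))))))))))))) (nat_lit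 3) (nat_lit 0))))) (BT.node (BT.node (BT.leaf (Hd.mk (List.cons (nat_lit 3969) (List.cons (nat_lit 195) (List.cons (nat_lit 165) (List.cons (nat_lit 153) (List.cons (nat_lit 291) (List.cons (nat_lit 329) (List.cons (nat_lit 277) (List.cons (nat_lit 2067) (List.cons (nat_lit 515) (List.cons (nat_lit 15) (List.cons (nat_lit 1027) (List.cons (nat_lit 581) (List.cons (nat_lit 1029) List.nil))))))))))))) (nat_lit 3) (nat_lit 0))) (BT.leaf (Hd.mk (List.cons (nat_lit 3841) (List.cons (nat_lit 2273) (List.cons (nat_lit 2077) (List.cons (nat_lit 2051) (List.cons (nat_lit 1061) (List.cons (nat_lit 581) (List.cons (nat_lit 7) (List.cons (nat_lit 389) (List.cons (nat_lit 553) (List.cons (nat_lit 35) (List.cons (nat_lit 305) (List.cons (nat_lit 323) List.nil)))))))))))) (nat_lit 3) (nat_lit 0)))) (BT.node (BT.leaf (Hd.mk (List.cons (nat_lit 3969) (List.cons (nat_lit 195) (List.cons (nat_lit 133) (List.cons (nat_lit 137) (List.cons (nat_lit 145) (List.cons (nat_lit 161) List.nil)))))) (nat_lit 3) (nat_lit 0))) (BT.leaf (Hd.mk (List.cons (nat_lit 3841) (List.cons (nat_lit 2273) (List.cons (nat_lit 31) (List.cons (nat_lit 2051) (List.cons (nat_lit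 2053) (List.cons (nat_lit 2057) (List.cons (nat_lit 2065) (List.cons (nat_lit 1059) List.nil)))))))) (nat_lit 3) (nat_lit 0))))))) (BT.node (BT.node (BT.node (BT.node (BT.leaf (Hd.mk (List.cons (nat_lit 3969) (List.cons (nat_lit 2169) (List.cons (nat_lit 2051) (List.cons (nat_lit 2053) (List.cons (nat_lit 141) (List.cons (nat_lit 265) List.nil)))))) (nat_lit 3) (nat_lit 0))) (BT.leaf (Hd.mk (List.cons (nat_lit 3841) (List.cons (nat_lit 2273) (List.cons (nat_lit 2077) (List.cons (nat_lit 1171) (List.cons (nat_lit 2051) (List.cons (nat_lit 645) (List.cons (nat_lit 393) (List.cons (nat_lit 1093) (List.cons (nat_lit 1065) (List.cons (nat_lit 263) (List.cons (nat_lit 37) (List.cons (nat_lit 35) (List.cons (nat_lit 289) (List.cons (nat_lit 561) (List.cons (nat_lit 337) (List.cons (nat_lit 523) (List.cons (nat_lit 67) (List.cons (nat_lit 73) (List.cons (nat_lit 577) (List.cons (nat_lit 2192) (List.cons (nat_lit 3152) (List.cons (nat_lit 2576) (List.cons (nat_lit 1552) (List.cons (nat_lit 1048) (List.cons (nat_lit 3080) (List.cons (nat_lit 3200) (List.cons (nat_lit 720) (List.cons (nat_lit 184) (List.cons (nat_lit 536) (List.cons (nat_lit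 1216) List.nil)))))))))))))))))))))))))))))) (nat_lit 3) (nat_lit 248)))) (BT.node (BT.leaf (Hd.mk (List.cons (nat_lit 3969) (List.cons (nat_lit 195) (List.cons (nat_lit 165) (List.cons (nat_lit 153) (List.cons (nat_lit 291) (List.cons (nat_lit 265) (List.cons (nat_lit 325) (List.cons (nat_lit 273) (List.cons (nat_lit 531) (List.cons (nat_lit 525) (List.cons (nat_lit 609) (List.cons (nat_lit 7) (List.cons (nat_lit 1035) (List.cons (nat_lit 2051) List.nil)))))))))))))) (nat_lit 3) (nat_lit 0))) (BT.leaf (Hd.mk (List.cons (nat_lit 3841) (List.cons
  (nat_lit 2273) (List.cons (nat_lit 1177) (List.cons (nat_lit 583) (List.cons (nat_lit 1089) (List.cons (nat_lit 641) (List.cons (nat_lit 387) (List.cons (nat_lit 133) (List.cons (nat_lit 1059) (List.cons (nat_lit 1029) List.nil)))))))))) (nat_lit 3) (nat_lit 0))))) (BT.node (BT.node (BT.leaf (Hd.mk (List.cons (nat_lit 3969) (List.cons (nat_lit 121) (List.cons (nat_lit 141) (List.cons (nat_lit 265) (List.cons (nat_lit 521) (List.cons (nat_lit 1033) List.nil)))))) (nat_lit 3) (nat_lit 0))) (BT.leaf (Hd.mk (List.cons (nat_lit 3841) (List.cons (nat_lit 2273) (List.cons (nat_lit 2077) (List.cons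 (nat_lit 2051) (List.cons (nat_lit 1061) (List.cons (nat_lit 581) (List.cons (nat_lit 263) (List.cons (nat_lit 133) (List.cons (nat_lit 305) (List.cons (nat_lit 321) (List.cons (nat_lit 265) (List.cons (nat_lit 385) (List.cons (nat_lit 43) (List.cons (nat_lit 545) List.nil)))))))))))))) (nat_lit 3) (nat_lit 0)))) (BT.node (BT.leaf (Hd.mk (List.cons (nat_lit 3969) (List.cons (nat_lit 195) (List.cons (nat_lit 165) (List.cons (nat_lit 137) (List.cons (nat_lit 145) (List.cons (nat_lit 275) (List.cons (nat_lit 261) (List.cons (nat_lit 265) (List.cons (nat_lit 289) (List.cons (nat_lit 321) List.nil)))))))))) (nat_lit 3) (nat_lit 0))) (BT.leaf (Hd.mk (List.cons (nat_lit 3841) (List.cons (nat_lit 2273) (List.cons (nat_lit 1177) List.nil))) (nat_lit 4) (nat_lit 0)))))) (BT.node (BT.node (BT.node (BT.leaf (Hd.mk (List.cons (nat_lit 3969) (List.cons (nat_lit 2161) (List.cons (nat_lit 2059) (List.cons (nat_lit 2053) (List.cons (nat_lit 149) (List.cons (nat_lit 195) (List.cons (nat_lit 169) (List.cons (nat_lit 281) (List.cons (nat_lit 529) List.nil))))))))) (nat_lit 3) (nat_lit 0))) (BT.leaf (Hd.mk (List.cons (nat_lit 3841) (List.cons (nat_lit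 2273) (List.cons (nat_lit 2077) (List.cons (nat_lit 1171) (List.cons (nat_lit 2051) (List.cons (nat_lit 645) (List.cons (nat_lit 393) (List.cons (nat_lit 1093) (List.cons (nat_lit 1065) (List.cons (nat_lit 263) (List.cons (nat_lit 37) (List.cons (nat_lit 35) (List.cons (nat_lit 289) (List.cons (nat_lit 561) (List.cons (nat_lit 337) (List.cons (nat_lit 523) (List.cons (nat_lit 67) (List.cons (nat_lit 73) (List.cons (nat_lit 577) (List.cons (nat_lit 2192) (List.cons (nat_lit 3088) (List.cons (nat_lit 2432) (List.cons (nat_lit 3204) (List.cons (nat_lit 3104) List.nil)))))))))))))))))))))))) (nat_lit 3) (nat_lit 248)))) (BT.node (BT.leaf (Hd.mk (List.cons (nat_lit 3969) (List.cons (nat_lit 195) (List.cons (nat_lit 165) (List.cons (nat_lit 137) (List.cons (nat_lit 145) (List.cons (nat_lit 291) (List.cons (nat_lit 531) (List.cons (nat_lit 1035) (List.cons (nat_lit 2055) List.nil))))))))) (nat_lit 3) (nat_lit 0))) (BT.leaf (Hd.mk (List.cons (nat_lit 3841) (List.cons (nat_lit 2273) (List.cons (nat_lit 1177) (List.cons (nat_lit 2061) (List.cons (nat_lit 2067) (List.cons (nat_lit 1057) (List.cons (nat_lit 1031) (List.cons (nat_lit 1089) (List.cons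 (nat_lit 131) (List.cons (nat_lit 385) (List.cons (nat_lit 133) (List.cons (nat_lit 641) (List.cons (nat_lit 547) List.nil))))))))))))) (nat_lit 3) (nat_lit 0))))) (BT.node (BT.node (BT.leaf (Hd.mk (List.cons (nat_lit 3969) (List.cons (nat_lit 195) (List.cons (nat_lit 165) (List.cons (nat_lit 153) (List.cons (nat_lit 291) (List.cons (nat_lit 329) (List.cons (nat_lit 261) (List.cons (nat_lit 273) (List.cons (nat_lit 531) (List.cons (nat_lit 1031) (List.cons (nat_lit 11) (List.cons (nat_lit 2051) (List.cons (nat_lit 1033) List.nil))))))))))))) (nat_lit 3) (nat_lit 0))) (BT.leaf (Hd.mk (List.cons (nat_lit 3841) (List.cons (nat_lit 2273) (List.cons (nat_lit 2077) (List.cons (nat_lit 2051) (List.cons (nat_lit 1061) (List.cons (nat_lit 71) (List.cons (nat_lit 261) (List.cons (nat_lit 133) (List.cons (nat_lit 517) (List.cons (nat_lit 337) List.nil)))))))))) (nat_lit 3) (nat_lit 0)))) (BT.leaf (Hd.mk (List.cons (nat_lit 3841) (List.cons (nat_lit 2273) (List.cons (nat_lit 2077) (List.cons (nat_lit 1171) (List.cons (nat_lit 2051) (List.cons (nat_lit 645) (List.cons (nat_lit 393)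
  (List.cons (nat_lit 1093) (List.cons (nat_lit 1065) (List.cons (nat_lit 263) (List.cons (nat_lit 37) (List.cons (nat_lit 35) (List.cons (nat_lit 289) (List.cons (nat_lit 561) (List.cons (nat_lit 337) (List.cons (nat_lit 523) (List.cons (nat_lit 67) (List.cons (nat_lit 73) (List.cons (nat_lit 577) (List.cons (nat_lit 2704) (List.cons (nat_lit 2320) (List.cons (nat_lit 2130) (List.cons (nat_lit 2096) (List.cons (nat_lit 3088) (List.cons (nat_lit 3136) (List.cons (nat_lit 54) (List.cons (nat_lit 26) List.nil))))))))))))))))))))))))))) (nat_lit 3) (nat_lit 248))))))) (BT.node (BT.node (BT.node (BT.node (BT.node (BT.leaf (Hd.mk (List.cons (nat_lit 3969) (List.cons (nat_lit 2169) (List.cons (nat_lit 2055) (List.cons (nat_lit 141) (List.cons (nat_lit 265) List.nil))))) (nat_lit 3) (nat_lit 0))) (BT.leaf (Hd.mk (List.cons (nat_lit 3841) (List.cons (nat_lit 2273) (List.cons (nat_lit 2077) (List.cons (nat_lit 1171) (List.cons (nat_lit 2051) (List.cons (nat_lit 645) (List.cons (nat_lit 393) (List.cons (nat_lit 1093) (List.cons (nat_lit 1065) (List.cons (nat_lit 263) (List.cons (nat_lit 37) (List.cons (nat_lit 35) (List.cons (nat_lit 289)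 (List.cons (nat_lit 561) (List.cons (nat_lit 337) (List.cons (nat_lit 523) (List.cons (nat_lit 67) (List.cons (nat_lit 73) (List.cons (nat_lit 577) (List.cons (nat_lit 2192) (List.cons (nat_lit 3152) (List.cons (nat_lit 2578) (List.cons (nat_lit 2624) (List.cons (nat_lit 2564) (List.cons (nat_lit 2592) List.nil))))))))))))))))))))))))) (nat_lit 3) (nat_lit 248)))) (BT.node (BT.leaf (Hd.mk (List.cons (nat_lit 3969) (List.cons (nat_lit 195) (List.cons (nat_lit 165) (List.cons (nat_lit 153) (List.cons (nat_lit 291) (List.cons (nat_lit 329) (List.cons (nat_lit 261) (List.cons (nat_lit 273) (List.cons (nat_lit 515) (List.cons (nat_lit 521) (List.cons (nat_lit 533) (List.cons (nat_lit 545) (List.cons (nat_lit 577) List.nil))))))))))))) (nat_lit 3) (nat_lit 0))) (BT.leaf (Hd.mk (List.cons (nat_lit 3841) (List.cons (nat_lit 2273) (List.cons (nat_lit 1177) (List.cons (nat_lit 597) (List.cons (nat_lit 2067) (List.cons (nat_lit 2061) (List.cons (nat_lit 49) (List.cons (nat_lit 273) (List.cons (nat_lit 1089) (List.cons (nat_lit 641) List.nil)))))))))) (nat_lit 3) (nat_lit 0))))) (BT.node (BT.node (BT.leaf (Hd.mk (List.cons (nat_lit 3969) (List.cons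 (nat_lit 2161) (List.cons (nat_lit 2051) (List.cons (nat_lit 2053) (List.cons (nat_lit 2057) (List.cons (nat_lit 153) (List.cons (nat_lit 277) (List.cons (nat_lit 529) List.nil)))))))) (nat_lit 3) (nat_lit 0))) (BT.leaf (Hd.mk (List.cons (nat_lit 3841) (List.cons (nat_lit 2273) (List.cons (nat_lit 2077) (List.cons (nat_lit 2051) (List.cons (nat_lit 1061) (List.cons (nat_lit 581) (List.cons (nat_lit 263) (List.cons (nat_lit 133) (List.cons (nat_lit 305) (List.cons (nat_lit 329) (List.cons (nat_lit 385) (List.cons (nat_lit 35) (List.cons (nat_lit 553) (List.cons (nat_lit 139) (List.cons (nat_lit 1033) List.nil))))))))))))))) (nat_lit 3) (nat_lit 0)))) (BT.node (BT.leaf (Hd.mk (List.cons (nat_lit 3969) (List.cons (nat_lit 195) (List.cons (nat_lit 165) (List.cons (nat_lit 137) (List.cons (nat_lit 145) (List.cons (nat_lit 275) (List.cons (nat_lit 269) (List.cons (nat_lit 289) (List.cons (nat_lit 321) List.nil))))))))) (nat_lit 3) (nat_lit 0))) (BT.leaf (Hd.mk (List.cons (nat_lit 3841) (List.cons (nat_lit 2273) (List.cons (nat_lit 1177) (List.cons (nat_lit 2061) (List.cons (nat_lit 2051) (List.cons (nat_lit 2065) (List.cons (nat_lit 1059)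 (List.cons (nat_lit 1029) (List.cons (nat_lit 1089) List.nil))))))))) (nat_lit 3) (nat_lit 0)))))) (BT.node (BT.node (BT.node (BT.leaf (Hd.mk (List.cons (nat_lit 3969) (List.cons (nat_lit 2161) (List.cons (nat_lit 2059) (List.cons (nat_lit 2053) (List.cons (nat_lit 153) (List.cons (nat_lit 277) (List.cons (nat_lit 529) (List.cons (nat_lit 19) (List.cons (nat_lit 1041) List.nil))))))))) (nat_lit 3) (nat_lit 0))) (BT.leaf (Hd.mk (List.cons (nat_lit 3841) (List.cons (nat_lit 2273) (List.cons (nat_lit 2077) (List.cons (nat_lit 1171) (List.cons
  (nat_lit 2051) (List.cons (nat_lit 645) (List.cons (nat_lit 393) (List.cons (nat_lit 1093) (List.cons (nat_lit 1065) (List.cons (nat_lit 263) (List.cons (nat_lit 37) (List.cons (nat_lit 35) (List.cons (nat_lit 289) (List.cons (nat_lit 561) (List.cons (nat_lit 337) (List.cons (nat_lit 523) (List.cons (nat_lit 67) (List.cons (nat_lit 73) (List.cons (nat_lit 577) (List.cons (nat_lit 2192) (List.cons (nat_lit 3088) (List.cons (nat_lit 2434) (List.cons (nat_lit 2180) (List.cons (nat_lit 2320) (List.cons (nat_lit 2096) (List.cons (nat_lit 2688) (List.cons (nat_lit 2184) (List.cons (nat_lit 3200) List.nil))))))))))))))))))))))))))))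 (nat_lit 3) (nat_lit 248)))) (BT.node (BT.leaf (Hd.mk (List.cons (nat_lit 3969) (List.cons (nat_lit 195) (List.cons (nat_lit 165) (List.cons (nat_lit 153) (List.cons (nat_lit 291) List.nil))))) (nat_lit 3) (nat_lit 0))) (BT.leaf (Hd.mk (List.cons (nat_lit 3841) (List.cons (nat_lit 2273) (List.cons (nat_lit 1177) (List.cons (nat_lit 2061) (List.cons (nat_lit 2067) (List.cons (nat_lit 1061) List.nil)))))) (nat_lit 3) (nat_lit 0))))) (BT.node (BT.node (BT.leaf (Hd.mk (List.cons (nat_lit 3969) (List.cons (nat_lit 195) (List.cons (nat_lit 165) (List.cons (nat_lit 153) (List.cons (nat_lit 291) (List.cons (nat_lit 329) (List.cons (nat_lit 261) (List.cons (nat_lit 273) (List.cons (nat_lit 531) (List.cons (nat_lit 1035) (List.cons (nat_lit 2055) (List.cons (nat_lit 525) (List.cons (nat_lit 41) (List.cons (nat_lit 2057) (List.cons (nat_lit 545) (List.cons (nat_lit 577) List.nil)))))))))))))))) (nat_lit 3) (nat_lit 0))) (BT.leaf (Hd.mk (List.cons (nat_lit 3841) (List.cons (nat_lit 2273) (List.cons (nat_lit 2077) (List.cons (nat_lit 2051) (List.cons (nat_lit 1061) (List.cons (nat_lit 581) (List.cons (nat_lit 7) (List.cons (nat_lit 389) (List.cons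 (nat_lit 43) (List.cons (nat_lit 265) (List.cons (nat_lit 73) (List.cons (nat_lit 649) (List.cons (nat_lit 1033) List.nil))))))))))))) (nat_lit 3) (nat_lit 0)))) (BT.leaf (Hd.mk (List.cons (nat_lit 3841) (List.cons (nat_lit 2273) (List.cons (nat_lit 2077) (List.cons (nat_lit 1171) (List.cons (nat_lit 587) List.nil))))) (nat_lit 4) (nat_lit 0)))))) (BT.node (BT.node (BT.node (BT.node (BT.leaf (Hd.mk (List.cons (nat_lit 3969) (List.cons (nat_lit 2161) (List.cons (nat_lit 1101) (List.cons (nat_lit 555) (List.cons (nat_lit 279) List.nil))))) (nat_lit 4) (nat_lit 0))) (BT.leaf (Hd.mk (List.cons (nat_lit 3841) (List.cons (nat_lit 2273) (List.cons (nat_lit 2077) (List.cons (nat_lit 1171) (List.cons (nat_lit 2051) (List.cons (nat_lit 645) (List.cons (nat_lit 393) (List.cons (nat_lit 1093) (List.cons (nat_lit 1065) (List.cons (nat_lit 263) (List.cons (nat_lit 37) (List.cons (nat_lit 35) (List.cons (nat_lit 289) (List.cons (nat_lit 561) (List.cons (nat_lit 337) (List.cons (nat_lit 523) (List.cons (nat_lit 67) (List.cons (nat_lit 73) (List.cons (nat_lit 577) (List.cons (nat_lit 2192) (List.cons (nat_lit 3152) (List.cons (nat_lit 2576) (List.cons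 (nat_lit 1552) (List.cons (nat_lit 1048) List.nil)))))))))))))))))))))))) (nat_lit 3) (nat_lit 248)))) (BT.node (BT.leaf (Hd.mk (List.cons (nat_lit 3969) (List.cons (nat_lit 195) (List.cons (nat_lit 165) (List.cons (nat_lit 153) (List.cons (nat_lit 291) (List.cons (nat_lit 265) (List.cons (nat_lit 325) (List.cons (nat_lit 273) (List.cons (nat_lit 531) (List.cons (nat_lit 517) (List.cons (nat_lit 1031) (List.cons (nat_lit 11) (List.cons (nat_lit 2051) List.nil))))))))))))) (nat_lit 3) (nat_lit 0))) (BT.leaf (Hd.mk (List.cons (nat_lit 3841) (List.cons (nat_lit 2273) (List.cons (nat_lit 1177) (List.cons (nat_lit 2061) (List.cons (nat_lit 2067) (List.cons (nat_lit 1061) (List.cons (nat_lit 1091) (List.cons (nat_lit 585) (List.cons (nat_lit 43) (List.cons (nat_lit 265) (List.cons (nat_lit 289) (List.cons (nat_lit 49) (List.cons (nat_lit 545) List.nil))))))))))))) (nat_lit 3) (nat_lit 0))))) (BT.node (BT.node (BT.leaf (Hd.mk (List.cons (nat_lit 3969) (List.cons (nat_lit 195) (List.cons (nat_lit 165) (List.cons (nat_lit 153) (List.cons (nat_lit 291)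
  (List.cons (nat_lit 329) (List.cons (nat_lit 277) (List.cons (nat_lit 2067) (List.cons (nat_lit 523) (List.cons (nat_lit 1031) (List.cons (nat_lit 13) (List.cons (nat_lit 581) (List.cons (nat_lit 2053) (List.cons (nat_lit 1033) (List.cons (nat_lit 2089) (List.cons (nat_lit 2113) List.nil)))))))))))))))) (nat_lit 3) (nat_lit 0))) (BT.leaf (Hd.mk (List.cons (nat_lit 3841) (List.cons (nat_lit 2273) (List.cons (nat_lit 2077) (List.cons (nat_lit 2051) (List.cons (nat_lit 1061) (List.cons (nat_lit 581) (List.cons (nat_lit 263) (List.cons (nat_lit 133) (List.cons (nat_lit 289) (List.cons (nat_lit 553) (List.cons (nat_lit 51) (List.cons (nat_lit 515) (List.cons (nat_lit 529) (List.cons (nat_lit 641) List.nil)))))))))))))) (nat_lit 3) (nat_lit 0)))) (BT.node (BT.leaf (Hd.mk (List.cons (nat_lit 3969) (List.cons (nat_lit 195) (List.cons (nat_lit 133) (List.cons (nat_lit 137) (List.cons (nat_lit 145) (List.cons (nat_lit 161) (List.cons (nat_lit 291) (List.cons (nat_lit 531) (List.cons (nat_lit 1035) (List.cons (nat_lit 7) (List.cons (nat_lit 2051) List.nil))))))))))) (nat_lit 3) (nat_lit 0))) (BT.leaf (Hd.mk (List.cons (nat_lit 3841) (List.cons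 (nat_lit 2273) (List.cons (nat_lit 1053) (List.cons (nat_lit 2055) (List.cons (nat_lit 2057) (List.cons (nat_lit 2065) (List.cons (nat_lit 1057) (List.cons (nat_lit 1089) (List.cons (nat_lit 1027) (List.cons (nat_lit 1153) List.nil)))))))))) (nat_lit 3) (nat_lit 0)))))) (BT.node (BT.node (BT.node (BT.leaf (Hd.mk (List.cons (nat_lit 3969) (List.cons (nat_lit 2161) (List.cons (nat_lit 2059) (List.cons (nat_lit 2053) (List.cons (nat_lit 145) (List.cons (nat_lit 195) (List.cons (nat_lit 141) (List.cons (nat_lit 161) List.nil)))))))) (nat_lit 3) (nat_lit 0))) (BT.leaf (Hd.mk (List.cons (nat_lit 3841) (List.cons (nat_lit 2273) (List.cons (nat_lit 2077) (List.cons (nat_lit 1171) (List.cons (nat_lit 2051) (List.cons (nat_lit 645) (List.cons (nat_lit 393) (List.cons (nat_lit 1093) (List.cons (nat_lit 1065) (List.cons (nat_lit 263) (List.cons (nat_lit 37) (List.cons (nat_lit 35) (List.cons (nat_lit 289) (List.cons (nat_lit 561) (List.cons (nat_lit 337) (List.cons (nat_lit 523) (List.cons (nat_lit 67) (List.cons (nat_lit 73) (List.cons (nat_lit 577) List.nil))))))))))))))))))) (nat_lit 3) (nat_lit 0)))) (BT.node (BT.leaf (Hd.mk (List.cons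 (nat_lit 3969) (List.cons (nat_lit 195) (List.cons (nat_lit 165) (List.cons (nat_lit 137) (List.cons (nat_lit 145) (List.cons (nat_lit 291) (List.cons (nat_lit 531) (List.cons (nat_lit 1031) (List.cons (nat_lit 11) (List.cons (nat_lit 2051) List.nil)))))))))) (nat_lit 3) (nat_lit 0))) (BT.leaf (Hd.mk (List.cons (nat_lit 3841) (List.cons (nat_lit 2273) (List.cons (nat_lit 1177) (List.cons (nat_lit 2061) (List.cons (nat_lit 2067) (List.cons (nat_lit 1057) (List.cons (nat_lit 1027) (List.cons (nat_lit 1029) (List.cons (nat_lit 1089) (List.cons (nat_lit 389) List.nil)))))))))) (nat_lit 3) (nat_lit 0))))) (BT.node (BT.node (BT.leaf (Hd.mk (List.cons (nat_lit 3969) (List.cons (nat_lit 195) (List.cons (nat_lit 165) (List.cons (nat_lit 153) (List.cons (nat_lit 291) (List.cons (nat_lit 329) (List.cons (nat_lit 261) (List.cons (nat_lit 273) (List.cons (nat_lit 523) (List.cons (nat_lit 1027) (List.cons (nat_lit 7) (List.cons (nat_lit 19) (List.cons (nat_lit 2051) (List.cons (nat_lit 2061) (List.cons (nat_lit 1065) List.nil))))))))))))))) (nat_lit 3) (nat_lit 0))) (BT.leaf (Hd.mk (List.cons (nat_lit 3841) (List.cons (nat_lit 2273) (List.cons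 (nat_lit 2077) (List.cons (nat_lit 2051) (List.cons (nat_lit 1061) (List.cons (nat_lit 69) List.nil)))))) (nat_lit 3) (nat_lit 0)))) (BT.leaf (Hd.mk (List.cons (nat_lit 3841) (List.cons (nat_lit 2273) (List.cons (nat_lit 2077) (List.cons (nat_lit 1171) (List.cons (nat_lit 2051) (List.cons (nat_lit 645) (List.cons (nat_lit 393) (List.cons (nat_lit 1093) (List.cons (nat_lit 1065) (List.cons (nat_lit 263) (List.cons (nat_lit 37) (List.cons (nat_lit 35) (List.cons (nat_lit 289) (List.cons (nat_lit 561) (List.cons (nat_lit 337) (List.cons (nat_lit 523)
  (List.cons (nat_lit 67) (List.cons (nat_lit 73) (List.cons (nat_lit 577) (List.cons (nat_lit 2704) (List.cons (nat_lit 2320) (List.cons (nat_lit 2066) (List.cons (nat_lit 3120) (List.cons (nat_lit 2128) (List.cons (nat_lit 3200) (List.cons (nat_lit 3076) (List.cons (nat_lit 2184) (List.cons (nat_lit 1044) (List.cons (nat_lit 1296) List.nil))))))))))))))))))))))))))))) (nat_lit 3) (nat_lit 248)))))))) (BT.node (BT.node (BT.node (BT.node (BT.node (BT.node (BT.leaf (Hd.mk (List.cons (nat_lit 3969) (List.cons (nat_lit 2169) (List.cons (nat_lit 2055) (List.cons (nat_lit 141) (List.cons (nat_lit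 267) (List.cons (nat_lit 521) (List.cons (nat_lit 1033) List.nil))))))) (nat_lit 3) (nat_lit 0))) (BT.leaf (Hd.mk (List.cons (nat_lit 3841) (List.cons (nat_lit 2273) (List.cons (nat_lit 2077) (List.cons (nat_lit 1171) (List.cons (nat_lit 2051) (List.cons (nat_lit 645) (List.cons (nat_lit 393) (List.cons (nat_lit 1093) (List.cons (nat_lit 1065) (List.cons (nat_lit 263) (List.cons (nat_lit 37) (List.cons (nat_lit 35) (List.cons (nat_lit 289) (List.cons (nat_lit 561) (List.cons (nat_lit 337) (List.cons (nat_lit 523) (List.cons (nat_lit 67) (List.cons (nat_lit 73) (List.cons (nat_lit 577) (List.cons (nat_lit 2704) (List.cons (nat_lit 2320) (List.cons (nat_lit 2066) (List.cons (nat_lit 2096) (List.cons (nat_lit 2128) (List.cons (nat_lit 3088) (List.cons (nat_lit 208) (List.cons (nat_lit 152) (List.cons (nat_lit 2184) List.nil)))))))))))))))))))))))))))) (nat_lit 3) (nat_lit 248)))) (BT.node (BT.leaf (Hd.mk (List.cons (nat_lit 3969) (List.cons (nat_lit 195) (List.cons (nat_lit 165) (List.cons (nat_lit 153) (List.cons (nat_lit 291) (List.cons (nat_lit 329) (List.cons (nat_lit 261) (List.cons (nat_lit 273) (List.cons (nat_lit 515) (List.cons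 (nat_lit 525) (List.cons (nat_lit 11) (List.cons (nat_lit 1065) (List.cons (nat_lit 2057) List.nil))))))))))))) (nat_lit 3) (nat_lit 0))) (BT.leaf (Hd.mk (List.cons (nat_lit 3841) (List.cons (nat_lit 2273) (List.cons (nat_lit 1177) (List.cons (nat_lit 597) (List.cons (nat_lit 2067) (List.cons (nat_lit 2061) (List.cons (nat_lit 305) (List.cons (nat_lit 1089) (List.cons (nat_lit 641) List.nil))))))))) (nat_lit 3) (nat_lit 0))))) (BT.node (BT.node (BT.leaf (Hd.mk (List.cons (nat_lit 3969) (List.cons (nat_lit 2161) (List.cons (nat_lit 2051) (List.cons (nat_lit 2053) (List.cons (nat_lit 2057) (List.cons (nat_lit 153) (List.cons (nat_lit 277) (List.cons (nat_lit 531) (List.cons (nat_lit 1041) (List.cons (nat_lit 165) (List.cons (nat_lit 131) (List.cons (nat_lit 193) List.nil)))))))))))) (nat_lit 3) (nat_lit 0))) (BT.leaf (Hd.mk (List.cons (nat_lit 3841) (List.cons (nat_lit 2273) (List.cons (nat_lit 2077) (List.cons (nat_lit 1171) (List.cons (nat_lit 2051) (List.cons (nat_lit 645) List.nil)))))) (nat_lit 3) (nat_lit 0)))) (BT.node (BT.leaf (Hd.mk (List.cons (nat_lit 3969) (List.cons (nat_lit 195) (List.cons (nat_lit 165) (List.cons (nat_lit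 137) (List.cons (nat_lit 145) (List.cons (nat_lit 275) (List.cons (nat_lit 325) (List.cons (nat_lit 265) (List.cons (nat_lit 289) (List.cons (nat_lit 547) (List.cons (nat_lit 1035) (List.cons (nat_lit 2055) List.nil)))))))))))) (nat_lit 3) (nat_lit 0))) (BT.leaf (Hd.mk (List.cons (nat_lit 3841) (List.cons (nat_lit 2273) (List.cons (nat_lit 1177) (List.cons (nat_lit 2061) (List.cons (nat_lit 2051) (List.cons (nat_lit 2065) (List.cons (nat_lit 1059) (List.cons (nat_lit 1029) (List.cons (nat_lit 1089) (List.cons (nat_lit 553) (List.cons (nat_lit 75) (List.cons (nat_lit 265) (List.cons (nat_lit 37) (List.cons (nat_lit 305) List.nil)))))))))))))) (nat_lit 3) (nat_lit 0)))))) (BT.node (BT.node (BT.node (BT.leaf (Hd.mk (List.cons (nat_lit 3969) (List.cons (nat_lit 2161) (List.cons (nat_lit 2059) (List.cons (nat_lit 2053) (List.cons (nat_lit 153) (List.cons (nat_lit 277) (List.cons (nat_lit 531) (List.cons (nat_lit 1041) List.nil)))))))) (nat_lit 3) (nat_lit 0))) (BT.leaf (Hd.mk (List.cons (nat_lit 3841) (List.cons (nat_lit 2273) (List.cons (nat_lit 2077) (List.cons (nat_lit 1171)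
  (List.cons (nat_lit 2051) (List.cons (nat_lit 645) (List.cons (nat_lit 393) (List.cons (nat_lit 1093) (List.cons (nat_lit 1065) (List.cons (nat_lit 263) (List.cons (nat_lit 37) (List.cons (nat_lit 35) (List.cons (nat_lit 289) (List.cons (nat_lit 561) (List.cons (nat_lit 337) (List.cons (nat_lit 523) (List.cons (nat_lit 67) (List.cons (nat_lit 73) (List.cons (nat_lit 577) (List.cons (nat_lit 2192) (List.cons (nat_lit 3088) (List.cons (nat_lit 2434) (List.cons (nat_lit 3204) (List.cons (nat_lit 2184) (List.cons (nat_lit 2688) (List.cons (nat_lit 2352) (List.cons (nat_lit 2308) (List.cons (nat_lit 3104) (List.cons (nat_lit 2312) (List.cons (nat_lit 2368) List.nil)))))))))))))))))))))))))))))) (nat_lit 3) (nat_lit 248)))) (BT.node (BT.leaf (Hd.mk (List.cons (nat_lit 3969) (List.cons (nat_lit 195) (List.cons (nat_lit 165) (List.cons (nat_lit 153) (List.cons (nat_lit 291) (List.cons (nat_lit 265) (List.cons (nat_lit 261) (List.cons (nat_lit 273) (List.cons (nat_lit 321) (List.cons (nat_lit 531) List.nil)))))))))) (nat_lit 3) (nat_lit 0))) (BT.leaf (Hd.mk (List.cons (nat_lit 3841) (List.cons (nat_lit 2273) (List.cons (nat_lit 1177) (List.cons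 (nat_lit 2061) (List.cons (nat_lit 2067) (List.cons (nat_lit 1061) (List.cons (nat_lit 1027) (List.cons (nat_lit 1089) (List.cons (nat_lit 49) (List.cons (nat_lit 337) (List.cons (nat_lit 533) List.nil))))))))))) (nat_lit 3) (nat_lit 0))))) (BT.node (BT.node (BT.leaf (Hd.mk (List.cons (nat_lit 3969) (List.cons (nat_lit 195) (List.cons (nat_lit 165) (List.cons (nat_lit 153) (List.cons (nat_lit 291) (List.cons (nat_lit 329) (List.cons (nat_lit 277) (List.cons (nat_lit 19) (List.cons (nat_lit 523) (List.cons (nat_lit 1027) List.nil)))))))))) (nat_lit 3) (nat_lit 0))) (BT.leaf (Hd.mk (List.cons (nat_lit 3841) (List.cons (nat_lit 2273) (List.cons (nat_lit 2077) (List.cons (nat_lit 2051) (List.cons (nat_lit 1061) (List.cons (nat_lit 581) (List.cons (nat_lit 7) (List.cons (nat_lit 389) (List.cons (nat_lit 553) (List.cons (nat_lit 35) (List.cons (nat_lit 49) (List.cons (nat_lit 289) List.nil)))))))))))) (nat_lit 3) (nat_lit 0)))) (BT.node (BT.leaf (Hd.mk (List.cons (nat_lit 3969) (List.cons (nat_lit 131) (List.cons (nat_lit 133) (List.cons (nat_lit 137) (List.cons (nat_lit 145) (List.cons (nat_lit 161) (List.cons (nat_lit 193) (List.cons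 (nat_lit 323) List.nil)))))))) (nat_lit 3) (nat_lit 0))) (BT.leaf (Hd.mk (List.cons (nat_lit 3841) List.nil) (nat_lit 4) (nat_lit 0))))))) (BT.node (BT.node (BT.node (BT.node (BT.leaf (Hd.mk (List.cons (nat_lit 3969) (List.cons (nat_lit 2169) List.nil)) (nat_lit 5) (nat_lit 0))) (BT.leaf (Hd.mk (List.cons (nat_lit 3841) (List.cons (nat_lit 2273) (List.cons (nat_lit 2077) (List.cons (nat_lit 1171) (List.cons (nat_lit 2051) (List.cons (nat_lit 645) (List.cons (nat_lit 393) (List.cons (nat_lit 1093) (List.cons (nat_lit 1065) (List.cons (nat_lit 263) (List.cons (nat_lit 37) (List.cons (nat_lit 35) (List.cons (nat_lit 289) (List.cons (nat_lit 561) (List.cons (nat_lit 337) (List.cons (nat_lit 523) (List.cons (nat_lit 67) (List.cons (nat_lit 73) (List.cons (nat_lit 577) (List.cons (nat_lit 2192) (List.cons (nat_lit 3152) (List.cons (nat_lit 2576) (List.cons (nat_lit 1552) (List.cons (nat_lit 1048) (List.cons (nat_lit 3080) (List.cons (nat_lit 3200) (List.cons (nat_lit 208) (List.cons (nat_lit 1216) (List.cons (nat_lit 2182) (List.cons (nat_lit 2432) List.nil)))))))))))))))))))))))))))))) (nat_lit 3) (nat_lit 248)))) (BT.node (BT.leaf (Hd.mk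 (List.cons (nat_lit 3969) (List.cons (nat_lit 195) (List.cons (nat_lit 165) (List.cons (nat_lit 153) (List.cons (nat_lit 291) (List.cons (nat_lit 265) (List.cons (nat_lit 325) (List.cons (nat_lit 273) (List.cons (nat_lit 531) (List.cons (nat_lit 525) (List.cons (nat_lit 545) (List.cons (nat_lit 577) List.nil)))))))))))) (nat_lit 3) (nat_lit 0))) (BT.leaf (Hd.mk (List.cons (nat_lit 3841) (List.cons (nat_lit 2273) (List.cons (nat_lit 1177) (List.cons (nat_lit 2061) (List.cons (nat_lit 2067) (List.cons (nat_lit 1061) (List.cons
  (nat_lit 1091) (List.cons (nat_lit 585) (List.cons (nat_lit 267) (List.cons (nat_lit 41) (List.cons (nat_lit 547) (List.cons (nat_lit 135) (List.cons (nat_lit 385) (List.cons (nat_lit 641) List.nil)))))))))))))) (nat_lit 3) (nat_lit 0))))) (BT.node (BT.node (BT.leaf (Hd.mk (List.cons (nat_lit 3969) (List.cons (nat_lit 121) List.nil)) (nat_lit 4) (nat_lit 0))) (BT.leaf (Hd.mk (List.cons (nat_lit 3841) (List.cons (nat_lit 2273) (List.cons (nat_lit 2077) (List.cons (nat_lit 2051) (List.cons (nat_lit 1061) (List.cons (nat_lit 581) (List.cons (nat_lit 263) (List.cons (nat_lit 133) (List.cons (nat_lit 305) List.nil)))))))))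 (nat_lit 3) (nat_lit 0)))) (BT.node (BT.leaf (Hd.mk (List.cons (nat_lit 3969) (List.cons (nat_lit 195) (List.cons (nat_lit 165) (List.cons (nat_lit 137) (List.cons (nat_lit 145) (List.cons (nat_lit 259) (List.cons (nat_lit 325) (List.cons (nat_lit 265) (List.cons (nat_lit 273) (List.cons (nat_lit 289) (List.cons (nat_lit 519) (List.cons (nat_lit 1045) (List.cons (nat_lit 2061) List.nil))))))))))))) (nat_lit 3) (nat_lit 0))) (BT.leaf (Hd.mk (List.cons (nat_lit 3841) (List.cons (nat_lit 2273) (List.cons (nat_lit 1053) (List.cons (nat_lit 2055) (List.cons (nat_lit 2057) (List.cons (nat_lit 2065) (List.cons (nat_lit 1059) (List.cons (nat_lit 1089) (List.cons (nat_lit 1153) (List.cons (nat_lit 37) (List.cons (nat_lit 581) (List.cons (nat_lit 133) (List.cons (nat_lit 261) List.nil))))))))))))) (nat_lit 3) (nat_lit 0)))))) (BT.node (BT.node (BT.node (BT.leaf (Hd.mk (List.cons (nat_lit 3969) (List.cons (nat_lit 2161) (List.cons (nat_lit 2059) (List.cons (nat_lit 2053) (List.cons (nat_lit 149) (List.cons (nat_lit 131) (List.cons (nat_lit 161) (List.cons (nat_lit 137) (List.cons (nat_lit 193) List.nil))))))))) (nat_lit 3) (nat_lit 0))) (BT.leaf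 (Hd.mk (List.cons (nat_lit 3841) (List.cons (nat_lit 2273) (List.cons (nat_lit 2077) (List.cons (nat_lit 1171) (List.cons (nat_lit 2051) (List.cons (nat_lit 645) (List.cons (nat_lit 393) (List.cons (nat_lit 1093) (List.cons (nat_lit 1065) (List.cons (nat_lit 263) (List.cons (nat_lit 37) (List.cons (nat_lit 35) (List.cons (nat_lit 289) (List.cons (nat_lit 561) (List.cons (nat_lit 337) (List.cons (nat_lit 523) (List.cons (nat_lit 67) (List.cons (nat_lit 73) (List.cons (nat_lit 577) (List.cons (nat_lit 2192) (List.cons (nat_lit 3088) (List.cons (nat_lit 2432) (List.cons (nat_lit 2180) (List.cons (nat_lit 3200) (List.cons (nat_lit 2690) List.nil))))))))))))))))))))))))) (nat_lit 3) (nat_lit 248)))) (BT.node (BT.leaf (Hd.mk (List.cons (nat_lit 3969) (List.cons (nat_lit 195) (List.cons (nat_lit 165) (List.cons (nat_lit 137) (List.cons (nat_lit 145) (List.cons (nat_lit 291) (List.cons (nat_lit 531) (List.cons (nat_lit 1031) (List.cons (nat_lit 11) (List.cons (nat_lit 2051) (List.cons (nat_lit 581) (List.cons (nat_lit 553) List.nil)))))))))))) (nat_lit 3) (nat_lit 0))) (BT.leaf (Hd.mk (List.cons (nat_lit 3841) (List.cons (nat_lit 2273)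 (List.cons (nat_lit 1177) (List.cons (nat_lit 2061) (List.cons (nat_lit 2067) (List.cons (nat_lit 1057) (List.cons (nat_lit 1027) (List.cons (nat_lit 1029) (List.cons (nat_lit 1089) (List.cons (nat_lit 389) (List.cons (nat_lit 643) (List.cons (nat_lit 71) List.nil)))))))))))) (nat_lit 3) (nat_lit 0))))) (BT.node (BT.node (BT.leaf (Hd.mk (List.cons (nat_lit 3969) (List.cons (nat_lit 195) (List.cons (nat_lit 165) (List.cons (nat_lit 153) (List.cons (nat_lit 291) (List.cons (nat_lit 329) (List.cons (nat_lit 261) (List.cons (nat_lit 273) (List.cons (nat_lit 523) (List.cons (nat_lit 1031) (List.cons (nat_lit 19) (List.cons (nat_lit 2051) (List.cons (nat_lit 13) (List.cons (nat_lit 1033) (List.cons (nat_lit 2089) List.nil))))))))))))))) (nat_lit 3) (nat_lit 0))) (BT.leaf (Hd.mk (List.cons (nat_lit 3841) (List.cons (nat_lit 2273) (List.cons (nat_lit 2077) (List.cons (nat_lit 2051) (List.cons (nat_lit 1061) (List.cons (nat_lit 69) (List.cons (nat_lit 261) (List.cons (nat_lit 7) (List.cons (nat_lit 133) (List.cons (nat_lit 517) (List.cons (nat_lit 553) (List.cons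
  (nat_lit 51) (List.cons (nat_lit 289) List.nil))))))))))))) (nat_lit 3) (nat_lit 0)))) (BT.leaf (Hd.mk (List.cons (nat_lit 3841) (List.cons (nat_lit 2273) (List.cons (nat_lit 2077) (List.cons (nat_lit 1171) (List.cons (nat_lit 2051) (List.cons (nat_lit 645) (List.cons (nat_lit 393) (List.cons (nat_lit 1093) (List.cons (nat_lit 1065) (List.cons (nat_lit 263) (List.cons (nat_lit 37) (List.cons (nat_lit 35) (List.cons (nat_lit 289) (List.cons (nat_lit 561) (List.cons (nat_lit 337) (List.cons (nat_lit 523) (List.cons (nat_lit 67) (List.cons (nat_lit 73) (List.cons (nat_lit 577) (List.cons (nat_lit 2704) (List.cons (nat_lit 2320) (List.cons (nat_lit 2098) (List.cons (nat_lit 2128) (List.cons (nat_lit 3088) (List.cons (nat_lit 3104) List.nil))))))))))))))))))))))))) (nat_lit 3) (nat_lit 248))))))) (BT.node (BT.node (BT.node (BT.node (BT.node (BT.leaf (Hd.mk (List.cons (nat_lit 3969) (List.cons (nat_lit 2169) (List.cons (nat_lit 2051) (List.cons (nat_lit 2053) (List.cons (nat_lit 141) (List.cons (nat_lit 267) (List.cons (nat_lit 521) (List.cons (nat_lit 1033) (List.cons (nat_lit 147) (List.cons (nat_lit 161) (List.cons (nat_lit 193)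 (List.cons (nat_lit 273) List.nil)))))))))))) (nat_lit 3) (nat_lit 0))) (BT.leaf (Hd.mk (List.cons (nat_lit 3841) (List.cons (nat_lit 2273) (List.cons (nat_lit 2077) (List.cons (nat_lit 1171) (List.cons (nat_lit 2051) (List.cons (nat_lit 645) (List.cons (nat_lit 393) (List.cons (nat_lit 1093) (List.cons (nat_lit 1065) (List.cons (nat_lit 263) (List.cons (nat_lit 37) (List.cons (nat_lit 35) (List.cons (nat_lit 289) (List.cons (nat_lit 561) (List.cons (nat_lit 337) (List.cons (nat_lit 523) (List.cons (nat_lit 67) (List.cons (nat_lit 73) (List.cons (nat_lit 577) (List.cons (nat_lit 2192) (List.cons (nat_lit 3152) (List.cons (nat_lit 2576) (List.cons (nat_lit 1560) (List.cons (nat_lit 152) (List.cons (nat_lit 1664) (List.cons (nat_lit 88) (List.cons (nat_lit 1600) (List.cons (nat_lit 3080) (List.cons (nat_lit 3200) (List.cons (nat_lit 208) (List.cons (nat_lit 912) (List.cons (nat_lit 148) (List.cons (nat_lit 176) (List.cons (nat_lit 1216) (List.cons (nat_lit 1160) List.nil))))))))))))))))))))))))))))))))))) (nat_lit 3) (nat_lit 248)))) (BT.node (BT.leaf (Hd.mk (List.cons (nat_lit 3969) (List.cons (nat_lit 195) (List.cons (nat_lit 165)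 (List.cons (nat_lit 153) (List.cons (nat_lit 291) (List.cons (nat_lit 265) (List.cons (nat_lit 325) (List.cons (nat_lit 273) (List.cons (nat_lit 531) (List.cons (nat_lit 525) (List.cons (nat_lit 609) (List.cons (nat_lit 2055) (List.cons (nat_lit 1035) (List.cons (nat_lit 1045) (List.cons (nat_lit 1057) (List.cons (nat_lit 1089) List.nil)))))))))))))))) (nat_lit 3) (nat_lit 0))) (BT.leaf (Hd.mk (List.cons (nat_lit 3841) (List.cons (nat_lit 2273) (List.cons (nat_lit 1177) (List.cons (nat_lit 597) (List.cons (nat_lit 2067) (List.cons (nat_lit 2053) (List.cons (nat_lit 2057) (List.cons (nat_lit 49) (List.cons (nat_lit 273) (List.cons (nat_lit 1089) List.nil)))))))))) (nat_lit 3) (nat_lit 0))))) (BT.node (BT.node (BT.leaf (Hd.mk (List.cons (nat_lit 3969) (List.cons (nat_lit 2161) (List.cons (nat_lit 2051) (List.cons (nat_lit 2053) (List.cons (nat_lit 2057) (List.cons (nat_lit 153) List.nil)))))) (nat_lit 3) (nat_lit 0))) (BT.leaf (Hd.mk (List.cons (nat_lit 3841) (List.cons (nat_lit 2273) (List.cons (nat_lit 2077) (List.cons (nat_lit 2051) (List.cons (nat_lit 1061) (List.cons (nat_lit 581) (List.cons (nat_lit 263) (List.cons (nat_lit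 133) (List.cons (nat_lit 305) (List.cons (nat_lit 321) (List.cons (nat_lit 393) (List.cons (nat_lit 547) List.nil)))))))))))) (nat_lit 3) (nat_lit 0)))) (BT.node (BT.leaf (Hd.mk (List.cons (nat_lit 3969) (List.cons (nat_lit 195) (List.cons (nat_lit 165) (List.cons (nat_lit 137) (List.cons (nat_lit 145) (List.cons (nat_lit 275) (List.cons (nat_lit 261) (List.cons (nat_lit 329) (List.cons (nat_lit 289) (List.cons (nat_lit 547) (List.cons (nat_lit 1027) List.nil))))))))))) (nat_lit 3) (nat_lit 0))) (BT.leaf (Hd.mk (List.cons (nat_lit 3841) (List.cons
  (nat_lit 2273) (List.cons (nat_lit 1177) (List.cons (nat_lit 2061) (List.cons (nat_lit 2051) (List.cons (nat_lit 2065) (List.cons (nat_lit 1057) (List.cons (nat_lit 1027) (List.cons (nat_lit 1029) (List.cons (nat_lit 1089) List.nil)))))))))) (nat_lit 3) (nat_lit 0)))))) (BT.node (BT.node (BT.node (BT.leaf (Hd.mk (List.cons (nat_lit 3969) (List.cons (nat_lit 2161) (List.cons (nat_lit 2059) (List.cons (nat_lit 2053) (List.cons (nat_lit 153) (List.cons (nat_lit 275) (List.cons (nat_lit 529) (List.cons (nat_lit 21) (List.cons (nat_lit 1041) (List.cons (nat_lit 161) (List.cons (nat_lit 135)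 (List.cons (nat_lit 193) List.nil)))))))))))) (nat_lit 3) (nat_lit 0))) (BT.leaf (Hd.mk (List.cons (nat_lit 3841) (List.cons (nat_lit 2273) (List.cons (nat_lit 2077) (List.cons (nat_lit 1171) (List.cons (nat_lit 2051) (List.cons (nat_lit 645) (List.cons (nat_lit 393) (List.cons (nat_lit 1093) (List.cons (nat_lit 1065) (List.cons (nat_lit 263) (List.cons (nat_lit 37) (List.cons (nat_lit 35) (List.cons (nat_lit 289) (List.cons (nat_lit 561) (List.cons (nat_lit 337) (List.cons (nat_lit 523) (List.cons (nat_lit 67) (List.cons (nat_lit 73) (List.cons (nat_lit 577) (List.cons (nat_lit 2192) (List.cons (nat_lit 3088) (List.cons (nat_lit 2432) (List.cons (nat_lit 3204) (List.cons (nat_lit 3104) (List.cons (nat_lit 2340) (List.cons (nat_lit 2096) (List.cons (nat_lit 2320) List.nil))))))))))))))))))))))))))) (nat_lit 3) (nat_lit 248)))) (BT.node (BT.leaf (Hd.mk (List.cons (nat_lit 3969) (List.cons (nat_lit 195) (List.cons (nat_lit 165) (List.cons (nat_lit 137) (List.cons (nat_lit 145) (List.cons (nat_lit 291) (List.cons (nat_lit 531) (List.cons (nat_lit 1035) (List.cons (nat_lit 2055) (List.cons (nat_lit 581) (List.cons (nat_lit 1045) (List.cons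 (nat_lit 13) (List.cons (nat_lit 261) (List.cons (nat_lit 521) (List.cons (nat_lit 545) List.nil))))))))))))))) (nat_lit 3) (nat_lit 0))) (BT.leaf (Hd.mk (List.cons (nat_lit 3841) (List.cons (nat_lit 2273) (List.cons (nat_lit 1177) (List.cons (nat_lit 2061) (List.cons (nat_lit 2067) (List.cons (nat_lit 1057) (List.cons (nat_lit 1031) (List.cons (nat_lit 1089) (List.cons (nat_lit 643) (List.cons (nat_lit 133) (List.cons (nat_lit 385) (List.cons (nat_lit 291) (List.cons (nat_lit 11) (List.cons (nat_lit 67) List.nil)))))))))))))) (nat_lit 3) (nat_lit 0))))) (BT.node (BT.node (BT.leaf (Hd.mk (List.cons (nat_lit 3969) (List.cons (nat_lit 195) (List.cons (nat_lit 165) (List.cons (nat_lit 153) (List.cons (nat_lit 291) (List.cons (nat_lit 329) (List.cons (nat_lit 261) (List.cons (nat_lit 273) (List.cons (nat_lit 531) (List.cons (nat_lit 1035) (List.cons (nat_lit 2055) List.nil))))))))))) (nat_lit 3) (nat_lit 0))) (BT.leaf (Hd.mk (List.cons (nat_lit 3841) (List.cons (nat_lit 2273) (List.cons (nat_lit 2077) (List.cons (nat_lit 2051) (List.cons (nat_lit 1061) (List.cons (nat_lit 581) (List.cons (nat_lit 7) (List.cons (nat_lit 133) (List.cons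 (nat_lit 261) (List.cons (nat_lit 43) (List.cons (nat_lit 521) List.nil))))))))))) (nat_lit 3) (nat_lit 0)))) (BT.leaf (Hd.mk (List.cons (nat_lit 3841) (List.cons (nat_lit 2273) (List.cons (nat_lit 2077) (List.cons (nat_lit 1171) (List.cons (nat_lit 2051) (List.cons (nat_lit 645) (List.cons (nat_lit 393) (List.cons (nat_lit 1093) (List.cons (nat_lit 1065) (List.cons (nat_lit 263) (List.cons (nat_lit 37) (List.cons (nat_lit 35) (List.cons (nat_lit 289) (List.cons (nat_lit 561) (List.cons (nat_lit 337) (List.cons (nat_lit 523) (List.cons (nat_lit 67) (List.cons (nat_lit 73) (List.cons (nat_lit 577) (List.cons (nat_lit 2704) (List.cons (nat_lit 2352) (List.cons (nat_lit 2066) List.nil)))))))))))))))))))))) (nat_lit 3) (nat_lit 248)))))) (BT.node (BT.node (BT.node (BT.node (BT.leaf (Hd.mk (List.cons (nat_lit 3969) (List.cons (nat_lit 2161) (List.cons (nat_lit 1101) (List.cons (nat_lit 555) (List.cons (nat_lit 2057) (List.cons (nat_lit 1057) (List.cons (nat_lit 577) (List.cons (nat_lit 1043) (List.cons (nat_lit 2051) (List.cons (nat_lit 2053) List.nil)))))))))) (nat_lit 3) (nat_lit 0)))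
  (BT.leaf (Hd.mk (List.cons (nat_lit 3841) (List.cons (nat_lit 2273) (List.cons (nat_lit 2077) (List.cons (nat_lit 1171) (List.cons (nat_lit 2051) (List.cons (nat_lit 645) (List.cons (nat_lit 393) (List.cons (nat_lit 1093) (List.cons (nat_lit 1065) (List.cons (nat_lit 263) (List.cons (nat_lit 37) (List.cons (nat_lit 35) (List.cons (nat_lit 289) (List.cons (nat_lit 561) (List.cons (nat_lit 337) (List.cons (nat_lit 523) (List.cons (nat_lit 67) (List.cons (nat_lit 73) (List.cons (nat_lit 577) (List.cons (nat_lit 2192) (List.cons (nat_lit 3088) (List.cons (nat_lit 2436) (List.cons (nat_lit 3200) (List.cons (nat_lit 2690) (List.cons (nat_lit 2184) (List.cons (nat_lit 2640) (List.cons (nat_lit 2568) (List.cons (nat_lit 2118) (List.cons (nat_lit 2564) (List.cons (nat_lit 2592) List.nil)))))))))))))))))))))))))))))) (nat_lit 3) (nat_lit 248)))) (BT.node (BT.leaf (Hd.mk (List.cons (nat_lit 3969) (List.cons (nat_lit 195) (List.cons (nat_lit 165) (List.cons (nat_lit 153) (List.cons (nat_lit 291) (List.cons (nat_lit 265) (List.cons (nat_lit 325) (List.cons (nat_lit 273) (List.cons (nat_lit 519) (List.cons (nat_lit 2059) List.nil))))))))))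 (nat_lit 3) (nat_lit 0))) (BT.leaf (Hd.mk (List.cons (nat_lit 3841) (List.cons (nat_lit 2273) (List.cons (nat_lit 1177) (List.cons (nat_lit 2061) (List.cons (nat_lit 2067) (List.cons (nat_lit 1061) (List.cons (nat_lit 1091) (List.cons (nat_lit 585) (List.cons (nat_lit 11) (List.cons (nat_lit 41) (List.cons (nat_lit 265) (List.cons (nat_lit 291) (List.cons (nat_lit 49) (List.cons (nat_lit 545) List.nil)))))))))))))) (nat_lit 3) (nat_lit 0))))) (BT.node (BT.node (BT.leaf (Hd.mk (List.cons (nat_lit 3969) (List.cons (nat_lit 195) (List.cons (nat_lit 165) (List.cons (nat_lit 153) (List.cons (nat_lit 291) (List.cons (nat_lit 329) (List.cons (nat_lit 277) (List.cons (nat_lit 2067) (List.cons (nat_lit 523) (List.cons (nat_lit 1031) (List.cons (nat_lit 13) (List.cons (nat_lit 517) (List.cons (nat_lit 2117) (List.cons (nat_lit 1033) (List.cons (nat_lit 41) (List.cons (nat_lit 2057) (List.cons (nat_lit 2081) List.nil))))))))))))))))) (nat_lit 3) (nat_lit 0))) (BT.leaf (Hd.mk (List.cons (nat_lit 3841) (List.cons (nat_lit 2273) (List.cons (nat_lit 2077) (List.cons (nat_lit 2051) (List.cons (nat_lit 1061) (List.cons (nat_lit 581) (List.cons (nat_lit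 263) (List.cons (nat_lit 133) (List.cons (nat_lit 289) (List.cons (nat_lit 43) (List.cons (nat_lit 649) (List.cons (nat_lit 531) (List.cons (nat_lit 49) (List.cons (nat_lit 545) List.nil)))))))))))))) (nat_lit 3) (nat_lit 0)))) (BT.node (BT.leaf (Hd.mk (List.cons (nat_lit 3969) (List.cons (nat_lit 195) (List.cons (nat_lit 133) (List.cons (nat_lit 137) (List.cons (nat_lit 145) (List.cons (nat_lit 161) (List.cons (nat_lit 291) (List.cons (nat_lit 531) List.nil)))))))) (nat_lit 3) (nat_lit 0))) (BT.leaf (Hd.mk (List.cons (nat_lit 3841) (List.cons (nat_lit 2273) (List.cons (nat_lit 31) (List.cons (nat_lit 2051) (List.cons (nat_lit 2053) (List.cons (nat_lit 2057) (List.cons (nat_lit 2065) (List.cons (nat_lit 1059) (List.cons (nat_lit 579) (List.cons (nat_lit 387) (List.cons (nat_lit 549) (List.cons (nat_lit 133) List.nil)))))))))))) (nat_lit 3) (nat_lit 0)))))) (BT.node (BT.node (BT.node (BT.leaf (Hd.mk (List.cons (nat_lit 3969) (List.cons (nat_lit 2161) (List.cons (nat_lit 2059) (List.cons (nat_lit 2053) (List.cons (nat_lit 145) (List.cons (nat_lit 195) (List.cons (nat_lit 133) (List.cons (nat_lit 169) (List.cons (nat_lit 289) (List.cons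 (nat_lit 263) (List.cons (nat_lit 281) (List.cons (nat_lit 321) (List.cons (nat_lit 1043) List.nil))))))))))))) (nat_lit 3) (nat_lit 0))) (BT.leaf (Hd.mk (List.cons (nat_lit 3841) (List.cons (nat_lit 2273) (List.cons (nat_lit 2077) (List.cons (nat_lit 1171) (List.cons (nat_lit 2051) (List.cons (nat_lit 645) (List.cons (nat_lit 393) (List.cons (nat_lit 1093) List.nil)))))))) (nat_lit 3) (nat_lit 0)))) (BT.node (BT.leaf (Hd.mk (List.cons (nat_lit 3969) (List.cons (nat_lit 195) (List.cons (nat_lit 165) (List.cons (nat_lit 137) (List.cons
  (nat_lit 145) (List.cons (nat_lit 291) (List.cons (nat_lit 531) (List.cons (nat_lit 1027) List.nil)))))))) (nat_lit 3) (nat_lit 0))) (BT.leaf (Hd.mk (List.cons (nat_lit 3841) (List.cons (nat_lit 2273) (List.cons (nat_lit 1177) (List.cons (nat_lit 2061) (List.cons (nat_lit 2051) (List.cons (nat_lit 2065) (List.cons (nat_lit 1061) (List.cons (nat_lit 1027) (List.cons (nat_lit 1089) (List.cons (nat_lit 389) (List.cons (nat_lit 643) List.nil))))))))))) (nat_lit 3) (nat_lit 0))))) (BT.node (BT.node (BT.leaf (Hd.mk (List.cons (nat_lit 3969) (List.cons (nat_lit 195) (List.cons (nat_lit 165) (List.cons (nat_lit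 153) (List.cons (nat_lit 291) (List.cons (nat_lit 329) (List.cons (nat_lit 261) (List.cons (nat_lit 273) (List.cons (nat_lit 519) (List.cons (nat_lit 553) (List.cons (nat_lit 529) (List.cons (nat_lit 577) (List.cons (nat_lit 2059) List.nil))))))))))))) (nat_lit 3) (nat_lit 0))) (BT.leaf (Hd.mk (List.cons (nat_lit 3841) (List.cons (nat_lit 2273) (List.cons (nat_lit 2077) (List.cons (nat_lit 2051) (List.cons (nat_lit 39) (List.cons (nat_lit 261) (List.cons (nat_lit 69) List.nil))))))) (nat_lit 3) (nat_lit 0)))) (BT.leaf (Hd.mk (List.cons (nat_lit 3841) (List.cons (nat_lit 2273) (List.cons (nat_lit 2077) (List.cons (nat_lit 1171) (List.cons (nat_lit 2051) (List.cons (nat_lit 645) (List.cons (nat_lit 393) (List.cons (nat_lit 1093) (List.cons (nat_lit 1065) (List.cons (nat_lit 263) (List.cons (nat_lit 37) (List.cons (nat_lit 35) (List.cons (nat_lit 289) (List.cons (nat_lit 561) (List.cons (nat_lit 337) (List.cons (nat_lit 523) (List.cons (nat_lit 67) (List.cons (nat_lit 73) (List.cons (nat_lit 577) (List.cons (nat_lit 2704) (List.cons (nat_lit 2320) (List.cons (nat_lit 2066) (List.cons (nat_lit 2096) (List.cons (nat_lit 2128) (List.cons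 (nat_lit 3088) (List.cons (nat_lit 216) (List.cons (nat_lit 536) (List.cons (nat_lit 1048) (List.cons (nat_lit 2568) (List.cons (nat_lit 1216) (List.cons (nat_lit 2184) List.nil))))))))))))))))))))))))))))))) (nat_lit 3) (nat_lit 248)))))))))) (BT.node (BT.node (BT.node (BT.node (BT.node (BT.node (BT.node (BT.node (BT.leaf (Hd.mk (List.cons (nat_lit 3969) (List.cons (nat_lit 2169) (List.cons (nat_lit 2055) (List.cons (nat_lit 141) (List.cons (nat_lit 267) (List.cons (nat_lit 521) (List.cons (nat_lit 1033) (List.cons (nat_lit 147) (List.cons (nat_lit 161) (List.cons (nat_lit 193) (List.cons (nat_lit 273) (List.cons (nat_lit 533) (List.cons (nat_lit 1041) (List.cons (nat_lit 293) (List.cons (nat_lit 321) (List.cons (nat_lit 1093) (List.cons (nat_lit 579) (List.cons (nat_lit 545) List.nil)))))))))))))))))) (nat_lit 3) (nat_lit 0))) (BT.leaf (Hd.mk (List.cons (nat_lit 3841) (List.cons (nat_lit 2273) (List.cons (nat_lit 2077) (List.cons (nat_lit 1171) (List.cons (nat_lit 2051) (List.cons (nat_lit 645) (List.cons (nat_lit 393) (List.cons (nat_lit 1093) (List.cons (nat_lit 1065) (List.cons (nat_lit 263) (List.cons (nat_lit 37) (List.cons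 (nat_lit 35) (List.cons (nat_lit 289) (List.cons (nat_lit 561) (List.cons (nat_lit 337) (List.cons (nat_lit 523) (List.cons (nat_lit 67) (List.cons (nat_lit 73) (List.cons (nat_lit 577) (List.cons (nat_lit 2704) (List.cons (nat_lit 2320) (List.cons (nat_lit 2066) (List.cons (nat_lit 2096) (List.cons (nat_lit 2128) (List.cons (nat_lit 3088) (List.cons (nat_lit 208) (List.cons (nat_lit 152) (List.cons (nat_lit 2184) (List.cons (nat_lit 3200) (List.cons (nat_lit 2632) (List.cons (nat_lit 3080) (List.cons (nat_lit 3136) (List.cons (nat_lit 536) (List.cons (nat_lit 1616) (List.cons (nat_lit 1664) (List.cons (nat_lit 1048) (List.cons (nat_lit 648) (List.cons (nat_lit 1544) List.nil)))))))))))))))))))))))))))))))))))))) (nat_lit 3) (nat_lit 248)))) (BT.node (BT.leaf (Hd.mk (List.cons (nat_lit 3969) (List.cons (nat_lit 195) (List.cons (nat_lit 165) (List.cons (nat_lit 153) (List.cons (nat_lit 291) (List.cons (nat_lit 329) (List.cons (nat_lit 261) (List.cons (nat_lit 273) (List.cons (nat_lit 515) (List.cons (nat_lit 553) (List.cons (nat_lit 581) (List.cons (nat_lit 529) (List.cons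
  (nat_lit 1037) List.nil))))))))))))) (nat_lit 3) (nat_lit 0))) (BT.leaf (Hd.mk (List.cons (nat_lit 3841) (List.cons (nat_lit 2273) (List.cons (nat_lit 1177) (List.cons (nat_lit 597) (List.cons (nat_lit 2067) (List.cons (nat_lit 2061) (List.cons (nat_lit 305) (List.cons (nat_lit 1091) (List.cons (nat_lit 1061) (List.cons (nat_lit 73) (List.cons (nat_lit 321) (List.cons (nat_lit 265) (List.cons (nat_lit 641) List.nil))))))))))))) (nat_lit 3) (nat_lit 0))))) (BT.node (BT.node (BT.leaf (Hd.mk (List.cons (nat_lit 3969) (List.cons (nat_lit 2161) (List.cons (nat_lit 2059) (List.cons (nat_lit 2053) (List.cons (nat_lit 145) (List.cons (nat_lit 195) List.nil)))))) (nat_lit 3) (nat_lit 0))) (BT.leaf (Hd.mk (List.cons (nat_lit 3841) (List.cons (nat_lit 2273) (List.cons (nat_lit 2077) (List.cons (nat_lit 1171) (List.cons (nat_lit 2051) (List.cons (nat_lit 645) (List.cons (nat_lit 137) (List.cons (nat_lit 385) (List.cons (nat_lit 1093) (List.cons (nat_lit 1033) (List.cons (nat_lit 1057) (List.cons (nat_lit 263) List.nil)))))))))))) (nat_lit 3) (nat_lit 0)))) (BT.node (BT.leaf (Hd.mk (List.cons (nat_lit 3969) (List.cons (nat_lit 195) (List.cons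 (nat_lit 165) (List.cons (nat_lit 137) (List.cons (nat_lit 145) (List.cons (nat_lit 291) (List.cons (nat_lit 519) (List.cons (nat_lit 1027) (List.cons (nat_lit 27) (List.cons (nat_lit 2051) List.nil)))))))))) (nat_lit 3) (nat_lit 0))) (BT.leaf (Hd.mk (List.cons (nat_lit 3841) (List.cons (nat_lit 2273) (List.cons (nat_lit 1177) (List.cons (nat_lit 2061) (List.cons (nat_lit 2051) (List.cons (nat_lit 2065) (List.cons (nat_lit 1061) (List.cons (nat_lit 1027) (List.cons (nat_lit 1089) (List.cons (nat_lit 387) (List.cons (nat_lit 133) (List.cons (nat_lit 641) (List.cons (nat_lit 325) List.nil))))))))))))) (nat_lit 3) (nat_lit 0)))))) (BT.node (BT.node (BT.node (BT.leaf (Hd.mk (List.cons (nat_lit 3969) (List.cons (nat_lit 2161) (List.cons (nat_lit 1039) List.nil))) (nat_lit 4) (nat_lit 0))) (BT.leaf (Hd.mk (List.cons (nat_lit 3841) (List.cons (nat_lit 2273) (List.cons (nat_lit 2077) (List.cons (nat_lit 1171) (List.cons (nat_lit 2051) (List.cons (nat_lit 645) (List.cons (nat_lit 393) (List.cons (nat_lit 1093) (List.cons (nat_lit 1065) (List.cons (nat_lit 263) (List.cons (nat_lit 37) (List.cons (nat_lit 35) (List.cons (nat_lit 289) (List.cons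 (nat_lit 561) (List.cons (nat_lit 337) (List.cons (nat_lit 523) (List.cons (nat_lit 67) (List.cons (nat_lit 73) (List.cons (nat_lit 577) (List.cons (nat_lit 2192) (List.cons (nat_lit 3088) (List.cons (nat_lit 2436) (List.cons (nat_lit 3200) (List.cons (nat_lit 2690) List.nil)))))))))))))))))))))))) (nat_lit 3) (nat_lit 248)))) (BT.node (BT.leaf (Hd.mk (List.cons (nat_lit 3969) (List.cons (nat_lit 195) (List.cons (nat_lit 165) (List.cons (nat_lit 153) (List.cons (nat_lit 291) (List.cons (nat_lit 265) (List.cons (nat_lit 261) (List.cons (nat_lit 273) (List.cons (nat_lit 321) (List.cons (nat_lit 531) (List.cons (nat_lit 1035) (List.cons (nat_lit 2055) List.nil)))))))))))) (nat_lit 3) (nat_lit 0))) (BT.leaf (Hd.mk (List.cons (nat_lit 3841) (List.cons (nat_lit 2273) (List.cons (nat_lit 1177) (List.cons (nat_lit 2061) (List.cons (nat_lit 2067) (List.cons (nat_lit 1061) (List.cons (nat_lit 1091) (List.cons (nat_lit 73) (List.cons (nat_lit 297) (List.cons (nat_lit 11) (List.cons (nat_lit 521) List.nil))))))))))) (nat_lit 3) (nat_lit 0))))) (BT.node (BT.node (BT.leaf (Hd.mk (List.cons (nat_lit 3969) (List.cons (nat_lit 195) (List.cons (nat_lit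 165) (List.cons (nat_lit 153) (List.cons (nat_lit 291) (List.cons (nat_lit 329) (List.cons (nat_lit 277) (List.cons (nat_lit 2067) (List.cons (nat_lit 523) List.nil))))))))) (nat_lit 3) (nat_lit 0))) (BT.leaf (Hd.mk (List.cons (nat_lit 3841) (List.cons (nat_lit 2273) (List.cons (nat_lit 2077) (List.cons (nat_lit 2051) (List.cons (nat_lit 1061) (List.cons (nat_lit 581) (List.cons (nat_lit 263) (List.cons (nat_lit 133) List.nil)))))))) (nat_lit 3) (nat_lit 0)))) (BT.node (BT.leaf (Hd.mk (List.cons (nat_lit 3969) (List.cons (nat_lit 195)
  (List.cons (nat_lit 133) (List.cons (nat_lit 137) (List.cons (nat_lit 145) (List.cons (nat_lit 161) (List.cons (nat_lit 291) List.nil))))))) (nat_lit 3) (nat_lit 0))) (BT.leaf (Hd.mk (List.cons (nat_lit 3841) (List.cons (nat_lit 2273) (List.cons (nat_lit 31) (List.cons (nat_lit 2051) (List.cons (nat_lit 2053) (List.cons (nat_lit 2057) (List.cons (nat_lit 2065) (List.cons (nat_lit 1059) (List.cons (nat_lit 67) List.nil))))))))) (nat_lit 3) (nat_lit 0))))))) (BT.node (BT.node (BT.node (BT.node (BT.leaf (Hd.mk (List.cons (nat_lit 3969) (List.cons (nat_lit 2169) (List.cons (nat_lit 2051) (List.cons (nat_lit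 2053) (List.cons (nat_lit 141) (List.cons (nat_lit 265) (List.cons (nat_lit 521) List.nil))))))) (nat_lit 3) (nat_lit 0))) (BT.leaf (Hd.mk (List.cons (nat_lit 3841) (List.cons (nat_lit 2273) (List.cons (nat_lit 2077) (List.cons (nat_lit 1171) (List.cons (nat_lit 2051) (List.cons (nat_lit 645) (List.cons (nat_lit 393) (List.cons (nat_lit 1093) (List.cons (nat_lit 1065) (List.cons (nat_lit 263) (List.cons (nat_lit 37) (List.cons (nat_lit 35) (List.cons (nat_lit 289) (List.cons (nat_lit 561) (List.cons (nat_lit 337) (List.cons (nat_lit 523) (List.cons (nat_lit 67) (List.cons (nat_lit 73) (List.cons (nat_lit 577) (List.cons (nat_lit 2192) (List.cons (nat_lit 3152) (List.cons (nat_lit 2576) (List.cons (nat_lit 1560) (List.cons (nat_lit 152) (List.cons (nat_lit 1664) (List.cons (nat_lit 88) (List.cons (nat_lit 1600) List.nil))))))))))))))))))))))))))) (nat_lit 3) (nat_lit 248)))) (BT.node (BT.leaf (Hd.mk (List.cons (nat_lit 3969) (List.cons (nat_lit 195) (List.cons (nat_lit 165) (List.cons (nat_lit 153) (List.cons (nat_lit 291) (List.cons (nat_lit 265) (List.cons (nat_lit 325) (List.cons (nat_lit 273) (List.cons (nat_lit 531) (List.cons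 (nat_lit 525) (List.cons (nat_lit 609) (List.cons (nat_lit 2055) List.nil)))))))))))) (nat_lit 3) (nat_lit 0))) (BT.leaf (Hd.mk (List.cons (nat_lit 3841) (List.cons (nat_lit 2273) (List.cons (nat_lit 1177) (List.cons (nat_lit 583) (List.cons (nat_lit 1089) (List.cons (nat_lit 641) (List.cons (nat_lit 387) (List.cons (nat_lit 133) (List.cons (nat_lit 1059) (List.cons (nat_lit 1029) (List.cons (nat_lit 2059) (List.cons (nat_lit 19) List.nil)))))))))))) (nat_lit 3) (nat_lit 0))))) (BT.node (BT.node (BT.leaf (Hd.mk (List.cons (nat_lit 3969) (List.cons (nat_lit 121) (List.cons (nat_lit 141) (List.cons (nat_lit 265) (List.cons (nat_lit 521) (List.cons (nat_lit 1033) (List.cons (nat_lit 11) (List.cons (nat_lit 2057) List.nil)))))))) (nat_lit 3) (nat_lit 0))) (BT.leaf (Hd.mk (List.cons (nat_lit 3841) (List.cons (nat_lit 2273) (List.cons (nat_lit 2077) (List.cons (nat_lit 2051) (List.cons (nat_lit 1061) (List.cons (nat_lit 581) (List.cons (nat_lit 263) (List.cons (nat_lit 133) (List.cons (nat_lit 305) (List.cons (nat_lit 321) (List.cons (nat_lit 393) (List.cons (nat_lit 35) (List.cons (nat_lit 41) (List.cons (nat_lit 545) List.nil))))))))))))))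 (nat_lit 3) (nat_lit 0)))) (BT.node (BT.leaf (Hd.mk (List.cons (nat_lit 3969) (List.cons (nat_lit 195) (List.cons (nat_lit 165) (List.cons (nat_lit 137) (List.cons (nat_lit 145) (List.cons (nat_lit 275) (List.cons (nat_lit 261) (List.cons (nat_lit 265) (List.cons (nat_lit 289) (List.cons (nat_lit 321) (List.cons (nat_lit 547) (List.cons (nat_lit 1035) (List.cons (nat_lit 2055) List.nil))))))))))))) (nat_lit 3) (nat_lit 0))) (BT.leaf (Hd.mk (List.cons (nat_lit 3841) (List.cons (nat_lit 2273) (List.cons (nat_lit 1177) (List.cons (nat_lit 2057) (List.cons (nat_lit 2055) (List.cons (nat_lit 2065) (List.cons (nat_lit 131) (List.cons (nat_lit 385) (List.cons (nat_lit 133) (List.cons (nat_lit 641) List.nil)))))))))) (nat_lit 3) (nat_lit 0)))))) (BT.node (BT.node (BT.node (BT.leaf (Hd.mk (List.cons (nat_lit 3969) (List.cons (nat_lit 2161) (List.cons (nat_lit 2059) (List.cons (nat_lit 2053) (List.cons (nat_lit 153) List.nil))))) (nat_lit 3) (nat_lit 0))) (BT.leaf (Hd.mk (List.cons (nat_lit 3841) (List.cons (nat_lit 2273) (List.cons (nat_lit 2077) (List.cons (nat_lit 1171)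
  (List.cons (nat_lit 2051) (List.cons (nat_lit 645) (List.cons (nat_lit 393) (List.cons (nat_lit 1093) (List.cons (nat_lit 1065) (List.cons (nat_lit 263) (List.cons (nat_lit 37) (List.cons (nat_lit 35) (List.cons (nat_lit 289) (List.cons (nat_lit 561) (List.cons (nat_lit 337) (List.cons (nat_lit 523) (List.cons (nat_lit 67) (List.cons (nat_lit 73) (List.cons (nat_lit 577) (List.cons (nat_lit 2192) (List.cons (nat_lit 3088) (List.cons (nat_lit 2432) (List.cons (nat_lit 3204) (List.cons (nat_lit 3104) (List.cons (nat_lit 2308) (List.cons (nat_lit 1184) (List.cons (nat_lit 1408) (List.cons (nat_lit 3074) (List.cons (nat_lit 3144) (List.cons (nat_lit 1216) (List.cons (nat_lit 1672) (List.cons (nat_lit 1048) (List.cons (nat_lit 2184) (List.cons (nat_lit 2178) (List.cons (nat_lit 2688) List.nil))))))))))))))))))))))))))))))))))) (nat_lit 3) (nat_lit 248)))) (BT.node (BT.leaf (Hd.mk (List.cons (nat_lit 3969) (List.cons (nat_lit 195) (List.cons (nat_lit 165) (List.cons (nat_lit 137) (List.cons (nat_lit 145) (List.cons (nat_lit 291) (List.cons (nat_lit 531) (List.cons (nat_lit 1035) (List.cons (nat_lit 2055) (List.cons (nat_lit 525) (List.cons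 (nat_lit 545) (List.cons (nat_lit 577) List.nil)))))))))))) (nat_lit 3) (nat_lit 0))) (BT.leaf (Hd.mk (List.cons (nat_lit 3841) (List.cons (nat_lit 2273) (List.cons (nat_lit 1177) (List.cons (nat_lit 2061) (List.cons (nat_lit 2067) (List.cons (nat_lit 1057) (List.cons (nat_lit 1031) (List.cons (nat_lit 1089) (List.cons (nat_lit 643) List.nil))))))))) (nat_lit 3) (nat_lit 0))))) (BT.node (BT.node (BT.leaf (Hd.mk (List.cons (nat_lit 3969) (List.cons (nat_lit 195) (List.cons (nat_lit 165) (List.cons (nat_lit 153) (List.cons (nat_lit 291) (List.cons (nat_lit 329) (List.cons (nat_lit 261) (List.cons (nat_lit 273) (List.cons (nat_lit 531) (List.cons (nat_lit 1031) (List.cons (nat_lit 11) (List.cons (nat_lit 2051) (List.cons (nat_lit 1065) (List.cons (nat_lit 525) (List.cons (nat_lit 2057) List.nil))))))))))))))) (nat_lit 3) (nat_lit 0))) (BT.leaf (Hd.mk (List.cons (nat_lit 3841) (List.cons (nat_lit 2273) (List.cons (nat_lit 2077) (List.cons (nat_lit 2051) (List.cons (nat_lit 1061) (List.cons (nat_lit 71) (List.cons (nat_lit 261) (List.cons (nat_lit 133) (List.cons (nat_lit 517) (List.cons (nat_lit 337) (List.cons (nat_lit 577) (List.cons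 (nat_lit 73) List.nil)))))))))))) (nat_lit 3) (nat_lit 0)))) (BT.leaf (Hd.mk (List.cons (nat_lit 3841) (List.cons (nat_lit 2273) (List.cons (nat_lit 2077) (List.cons (nat_lit 1171) (List.cons (nat_lit 2051) (List.cons (nat_lit 645) (List.cons (nat_lit 393) (List.cons (nat_lit 1093) (List.cons (nat_lit 1065) (List.cons (nat_lit 263) (List.cons (nat_lit 37) (List.cons (nat_lit 35) (List.cons (nat_lit 289) (List.cons (nat_lit 561) (List.cons (nat_lit 337) (List.cons (nat_lit 523) (List.cons (nat_lit 67) (List.cons (nat_lit 73) (List.cons (nat_lit 577) (List.cons (nat_lit 2704) (List.cons (nat_lit 2320) (List.cons (nat_lit 2130) (List.cons (nat_lit 2096) (List.cons (nat_lit 3088) (List.cons (nat_lit 3144) (List.cons (nat_lit 2184) (List.cons (nat_lit 2568) (List.cons (nat_lit 2624) (List.cons (nat_lit 2116) (List.cons (nat_lit 2368) (List.cons (nat_lit 3200) List.nil))))))))))))))))))))))))))))))) (nat_lit 3) (nat_lit 248))))))) (BT.node (BT.node (BT.node (BT.node (BT.node (BT.leaf (Hd.mk (List.cons (nat_lit 3969) (List.cons (nat_lit 2169) (List.cons (nat_lit 2055) (List.cons (nat_lit 141) (List.cons (nat_lit 265) (List.cons (nat_lit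 521) List.nil)))))) (nat_lit 3) (nat_lit 0))) (BT.leaf (Hd.mk (List.cons (nat_lit 3841) (List.cons (nat_lit 2273) (List.cons (nat_lit 2077) (List.cons (nat_lit 1171) (List.cons (nat_lit 2051) (List.cons (nat_lit 645) (List.cons (nat_lit 393) (List.cons (nat_lit 1093) (List.cons (nat_lit 1065) (List.cons (nat_lit 263) (List.cons (nat_lit 37) (List.cons (nat_lit 35) (List.cons (nat_lit 289) (List.cons (nat_lit 561) (List.cons (nat_lit 337) (List.cons (nat_lit 523) (List.cons (nat_lit 67) (List.cons (nat_lit 73) (List.cons (nat_lit 577)
  (List.cons (nat_lit 2704) (List.cons (nat_lit 2320) List.nil))))))))))))))))))))) (nat_lit 3) (nat_lit 248)))) (BT.node (BT.leaf (Hd.mk (List.cons (nat_lit 3969) (List.cons (nat_lit 195) (List.cons (nat_lit 165) (List.cons (nat_lit 153) (List.cons (nat_lit 291) (List.cons (nat_lit 329) (List.cons (nat_lit 261) (List.cons (nat_lit 273) (List.cons (nat_lit 515) (List.cons (nat_lit 521) (List.cons (nat_lit 533) (List.cons (nat_lit 609) (List.cons (nat_lit 2067) List.nil))))))))))))) (nat_lit 3) (nat_lit 0))) (BT.leaf (Hd.mk (List.cons (nat_lit 3841) (List.cons (nat_lit 2273) (List.cons (nat_lit 1177)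 (List.cons (nat_lit 597) (List.cons (nat_lit 2067) (List.cons (nat_lit 2061) (List.cons (nat_lit 49) (List.cons (nat_lit 273) (List.cons (nat_lit 1091) (List.cons (nat_lit 1029) (List.cons (nat_lit 1057) (List.cons (nat_lit 73) (List.cons (nat_lit 321) List.nil))))))))))))) (nat_lit 3) (nat_lit 0))))) (BT.node (BT.node (BT.leaf (Hd.mk (List.cons (nat_lit 3969) (List.cons (nat_lit 2161) (List.cons (nat_lit 2051) (List.cons (nat_lit 2053) (List.cons (nat_lit 2057) (List.cons (nat_lit 153) (List.cons (nat_lit 277) (List.cons (nat_lit 529) (List.cons (nat_lit 19) (List.cons (nat_lit 1041) List.nil)))))))))) (nat_lit 3) (nat_lit 0))) (BT.leaf (Hd.mk (List.cons (nat_lit 3841) (List.cons (nat_lit 2273) (List.cons (nat_lit 2077) (List.cons (nat_lit 2051) (List.cons (nat_lit 1061) (List.cons (nat_lit 581) (List.cons (nat_lit 263) (List.cons (nat_lit 133) (List.cons (nat_lit 305) (List.cons (nat_lit 329) (List.cons (nat_lit 385) (List.cons (nat_lit 547) List.nil)))))))))))) (nat_lit 3) (nat_lit 0)))) (BT.node (BT.leaf (Hd.mk (List.cons (nat_lit 3969) (List.cons (nat_lit 195) (List.cons (nat_lit 165) (List.cons (nat_lit 137) (List.cons (nat_lit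 145) (List.cons (nat_lit 275) (List.cons (nat_lit 269) (List.cons (nat_lit 289) (List.cons (nat_lit 321) (List.cons (nat_lit 2055) List.nil)))))))))) (nat_lit 3) (nat_lit 0))) (BT.leaf (Hd.mk (List.cons (nat_lit 3841) (List.cons (nat_lit 2273) (List.cons (nat_lit 1177) (List.cons (nat_lit 2061) (List.cons (nat_lit 2051) (List.cons (nat_lit 2065) (List.cons (nat_lit 1059) (List.cons (nat_lit 1029) (List.cons (nat_lit 1089) (List.cons (nat_lit 41) (List.cons (nat_lit 329) (List.cons (nat_lit 11) (List.cons (nat_lit 521) List.nil))))))))))))) (nat_lit 3) (nat_lit 0)))))) (BT.node (BT.node (BT.node (BT.leaf (Hd.mk (List.cons (nat_lit 3969) (List.cons (nat_lit 2161) (List.cons (nat_lit 2059) (List.cons (nat_lit 2053) (List.cons (nat_lit 153) (List.cons (nat_lit 277) (List.cons (nat_lit 529) (List.cons (nat_lit 19) (List.cons (nat_lit 1041) (List.cons (nat_lit 259) (List.cons (nat_lit 297) (List.cons (nat_lit 321) List.nil)))))))))))) (nat_lit 3) (nat_lit 0))) (BT.leaf (Hd.mk (List.cons (nat_lit 3841) (List.cons (nat_lit 2273) (List.cons (nat_lit 2077) (List.cons (nat_lit 1171) (List.cons (nat_lit 2051) (List.cons (nat_lit 645) (List.cons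 (nat_lit 393) (List.cons (nat_lit 1093) (List.cons (nat_lit 1065) (List.cons (nat_lit 263) (List.cons (nat_lit 37) (List.cons (nat_lit 35) (List.cons (nat_lit 289) (List.cons (nat_lit 561) (List.cons (nat_lit 337) (List.cons (nat_lit 523) (List.cons (nat_lit 67) (List.cons (nat_lit 73) (List.cons (nat_lit 577) (List.cons (nat_lit 2192) (List.cons (nat_lit 3088) (List.cons (nat_lit 2434) (List.cons (nat_lit 2180) (List.cons (nat_lit 2320) (List.cons (nat_lit 2098) (List.cons (nat_lit 274) (List.cons (nat_lit 26) (List.cons (nat_lit 2128) (List.cons (nat_lit 2576) (List.cons (nat_lit 3104) (List.cons (nat_lit 3076) (List.cons (nat_lit 2688) (List.cons (nat_lit 2184) (List.cons (nat_lit 3200) List.nil)))))))))))))))))))))))))))))))))) (nat_lit 3) (nat_lit 248)))) (BT.node (BT.leaf (Hd.mk (List.cons (nat_lit 3969) (List.cons (nat_lit 195) (List.cons (nat_lit 165) (List.cons (nat_lit 153) (List.cons (nat_lit 291) (List.cons (nat_lit 265) List.nil)))))) (nat_lit 3) (nat_lit 0))) (BT.leaf (Hd.mk (List.cons (nat_lit 3841) (List.cons (nat_lit 2273) (List.cons (nat_lit 1177)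
  (List.cons (nat_lit 2061) (List.cons (nat_lit 2067) (List.cons (nat_lit 1061) (List.cons (nat_lit 1027) (List.cons (nat_lit 1089) List.nil)))))))) (nat_lit 3) (nat_lit 0))))) (BT.node (BT.node (BT.leaf (Hd.mk (List.cons (nat_lit 3969) (List.cons (nat_lit 195) (List.cons (nat_lit 165) (List.cons (nat_lit 153) (List.cons (nat_lit 291) (List.cons (nat_lit 329) (List.cons (nat_lit 261) (List.cons (nat_lit 273) (List.cons (nat_lit 531) (List.cons (nat_lit 1035) (List.cons (nat_lit 2055) (List.cons (nat_lit 525) (List.cons (nat_lit 2089) (List.cons (nat_lit 2065) (List.cons (nat_lit 2113) List.nil))))))))))))))) (nat_lit 3) (nat_lit 0))) (BT.leaf (Hd.mk (List.cons (nat_lit 3841) (List.cons (nat_lit 2273) (List.cons (nat_lit 2077) (List.cons (nat_lit 2051) (List.cons (nat_lit 1061) (List.cons (nat_lit 581) (List.cons (nat_lit 7) (List.cons (nat_lit 389) (List.cons (nat_lit 43) (List.cons (nat_lit 265) (List.cons (nat_lit 1097) (List.cons (nat_lit 137) (List.cons (nat_lit 521) List.nil))))))))))))) (nat_lit 3) (nat_lit 0)))) (BT.leaf (Hd.mk (List.cons (nat_lit 3841) (List.cons (nat_lit 2273) (List.cons (nat_lit 2077) (List.cons (nat_lit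 1171) (List.cons (nat_lit 587) (List.cons (nat_lit 295) (List.cons (nat_lit 2051) (List.cons (nat_lit 1093) (List.cons (nat_lit 133) (List.cons (nat_lit 517) (List.cons (nat_lit 641) List.nil))))))))))) (nat_lit 3) (nat_lit 0)))))) (BT.node (BT.node (BT.node (BT.node (BT.leaf (Hd.mk (List.cons (nat_lit 3969) (List.cons (nat_lit 125) List.nil)) (nat_lit 5) (nat_lit 0))) (BT.leaf (Hd.mk (List.cons (nat_lit 3841) (List.cons (nat_lit 2273) (List.cons (nat_lit 2077) (List.cons (nat_lit 1171) (List.cons (nat_lit 2051) (List.cons (nat_lit 645) (List.cons (nat_lit 393) (List.cons (nat_lit 1093) (List.cons (nat_lit 1065) (List.cons (nat_lit 263) (List.cons (nat_lit 37) (List.cons (nat_lit 35) (List.cons (nat_lit 289) (List.cons (nat_lit 561) (List.cons (nat_lit 337) (List.cons (nat_lit 523) (List.cons (nat_lit 67) (List.cons (nat_lit 73) (List.cons (nat_lit 577) (List.cons (nat_lit 2192) (List.cons (nat_lit 3152) (List.cons (nat_lit 2576) (List.cons (nat_lit 1552) (List.cons (nat_lit 1048) (List.cons (nat_lit 3080) (List.cons (nat_lit 3200) (List.cons (nat_lit 208) List.nil))))))))))))))))))))))))))) (nat_lit 3) (nat_lit 248)))) (BT.node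 (BT.leaf (Hd.mk (List.cons (nat_lit 3969) (List.cons (nat_lit 195) (List.cons (nat_lit 165) (List.cons (nat_lit 153) (List.cons (nat_lit 291) (List.cons (nat_lit 265) (List.cons (nat_lit 325) (List.cons (nat_lit 273) (List.cons (nat_lit 531) (List.cons (nat_lit 517) (List.cons (nat_lit 1035) (List.cons (nat_lit 7) (List.cons (nat_lit 2051) List.nil))))))))))))) (nat_lit 3) (nat_lit 0))) (BT.leaf (Hd.mk (List.cons (nat_lit 3841) (List.cons (nat_lit 2273) (List.cons (nat_lit 1177) (List.cons (nat_lit 2061) (List.cons (nat_lit 2067) (List.cons (nat_lit 1061) (List.cons (nat_lit 1091) (List.cons (nat_lit 585) (List.cons (nat_lit 267) (List.cons (nat_lit 41) (List.cons (nat_lit 35) (List.cons (nat_lit 289) (List.cons (nat_lit 49) (List.cons (nat_lit 545) List.nil)))))))))))))) (nat_lit 3) (nat_lit 0))))) (BT.node (BT.node (BT.leaf (Hd.mk (List.cons (nat_lit 3969) (List.cons (nat_lit 195) (List.cons (nat_lit 165) (List.cons (nat_lit 153) (List.cons (nat_lit 291) (List.cons (nat_lit 329) (List.cons (nat_lit 277) (List.cons (nat_lit 2067) (List.cons (nat_lit 523) (List.cons (nat_lit 1031) (List.cons (nat_lit 13) (List.cons (nat_lit 581)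 (List.cons (nat_lit 2053) (List.cons (nat_lit 1033) (List.cons (nat_lit 2089) (List.cons (nat_lit 2113) (List.cons (nat_lit 529) (List.cons (nat_lit 545) List.nil)))))))))))))))))) (nat_lit 3) (nat_lit 0))) (BT.leaf (Hd.mk (List.cons (nat_lit 3841) (List.cons (nat_lit 2273) (List.cons (nat_lit 2077) (List.cons (nat_lit 2051) (List.cons (nat_lit 1061) (List.cons (nat_lit 581) (List.cons (nat_lit 263) (List.cons (nat_lit 133) (List.cons (nat_lit 289) (List.cons (nat_lit 553) (List.cons (nat_lit 51) (List.cons (nat_lit 515) (List.cons
  (nat_lit 657) List.nil))))))))))))) (nat_lit 3) (nat_lit 0)))) (BT.node (BT.leaf (Hd.mk (List.cons (nat_lit 3969) (List.cons (nat_lit 195) (List.cons (nat_lit 165) List.nil))) (nat_lit 3) (nat_lit 0))) (BT.leaf (Hd.mk (List.cons (nat_lit 3841) (List.cons (nat_lit 2273) (List.cons (nat_lit 1053) (List.cons (nat_lit 2055) (List.cons (nat_lit 2057) (List.cons (nat_lit 2065) (List.cons (nat_lit 1057) (List.cons (nat_lit 1089) (List.cons (nat_lit 1027) (List.cons (nat_lit 1153) (List.cons (nat_lit 549) (List.cons (nat_lit 325) (List.cons (nat_lit 133) List.nil))))))))))))) (nat_lit 3) (nat_lit 0)))))) (BT.node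 (BT.node (BT.node (BT.leaf (Hd.mk (List.cons (nat_lit 3969) (List.cons (nat_lit 2161) (List.cons (nat_lit 2059) (List.cons (nat_lit 2053) (List.cons (nat_lit 145) (List.cons (nat_lit 195) (List.cons (nat_lit 141) (List.cons (nat_lit 161) (List.cons (nat_lit 325) (List.cons (nat_lit 577) List.nil)))))))))) (nat_lit 3) (nat_lit 0))) (BT.leaf (Hd.mk (List.cons (nat_lit 3841) (List.cons (nat_lit 2273) (List.cons (nat_lit 2077) (List.cons (nat_lit 1171) (List.cons (nat_lit 2051) (List.cons (nat_lit 645) (List.cons (nat_lit 393) (List.cons (nat_lit 1093) (List.cons (nat_lit 1065) (List.cons (nat_lit 263) (List.cons (nat_lit 37) (List.cons (nat_lit 35) (List.cons (nat_lit 289) (List.cons (nat_lit 561) (List.cons (nat_lit 337) (List.cons (nat_lit 523) (List.cons (nat_lit 67) (List.cons (nat_lit 73) (List.cons (nat_lit 577) List.nil))))))))))))))))))) (nat_lit 3) (nat_lit 248)))) (BT.node (BT.leaf (Hd.mk (List.cons (nat_lit 3969) (List.cons (nat_lit 195) (List.cons (nat_lit 165) (List.cons (nat_lit 137) (List.cons (nat_lit 145) (List.cons (nat_lit 291) (List.cons (nat_lit 531) (List.cons (nat_lit 1031) (List.cons (nat_lit 11) (List.cons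 (nat_lit 2051) (List.cons (nat_lit 517) (List.cons (nat_lit 585) (List.cons (nat_lit 545) List.nil))))))))))))) (nat_lit 3) (nat_lit 0))) (BT.leaf (Hd.mk (List.cons (nat_lit 3841) (List.cons (nat_lit 2273) (List.cons (nat_lit 1177) (List.cons (nat_lit 2061) (List.cons (nat_lit 2067) (List.cons (nat_lit 1057) (List.cons (nat_lit 1027) (List.cons (nat_lit 1029) (List.cons (nat_lit 1089) (List.cons (nat_lit 389) (List.cons (nat_lit 131) (List.cons (nat_lit 641) List.nil)))))))))))) (nat_lit 3) (nat_lit 0))))) (BT.node (BT.node (BT.leaf (Hd.mk (List.cons (nat_lit 3969) (List.cons (nat_lit 195) (List.cons (nat_lit 165) (List.cons (nat_lit 153) (List.cons (nat_lit 291) (List.cons (nat_lit 329) (List.cons (nat_lit 261) (List.cons (nat_lit 273) (List.cons (nat_lit 523) (List.cons (nat_lit 1027) (List.cons (nat_lit 23) (List.cons (nat_lit 2051) List.nil)))))))))))) (nat_lit 3) (nat_lit 0))) (BT.leaf (Hd.mk (List.cons (nat_lit 3841) (List.cons (nat_lit 2273) (List.cons (nat_lit 2077) (List.cons (nat_lit 2051) (List.cons (nat_lit 1061) (List.cons (nat_lit 69) (List.cons (nat_lit 261) List.nil))))))) (nat_lit 3) (nat_lit 0)))) (BT.leaf (Hd.mk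 (List.cons (nat_lit 3841) (List.cons (nat_lit 2273) (List.cons (nat_lit 2077) (List.cons (nat_lit 1171) (List.cons (nat_lit 2051) (List.cons (nat_lit 645) (List.cons (nat_lit 393) (List.cons (nat_lit 1093) (List.cons (nat_lit 1065) (List.cons (nat_lit 263) (List.cons (nat_lit 37) (List.cons (nat_lit 35) (List.cons (nat_lit 289) (List.cons (nat_lit 561) (List.cons (nat_lit 337) (List.cons (nat_lit 523) (List.cons (nat_lit 67) (List.cons (nat_lit 73) (List.cons (nat_lit 577) (List.cons (nat_lit 2704) (List.cons (nat_lit 2320) (List.cons (nat_lit 2066) (List.cons (nat_lit 3120) (List.cons (nat_lit 2128) (List.cons (nat_lit 3200) (List.cons (nat_lit 3076) (List.cons (nat_lit 2184) (List.cons (nat_lit 1044) (List.cons (nat_lit 1296) (List.cons (nat_lit 152) (List.cons (nat_lit 208) List.nil))))))))))))))))))))))))))))))) (nat_lit 3) (nat_lit 248)))))))) (BT.node (BT.node (BT.node (BT.node (BT.node (BT.node (BT.leaf (Hd.mk (List.cons (nat_lit 3969) (List.cons (nat_lit 2169) (List.cons (nat_lit 2055) (List.cons (nat_lit 141) (List.cons (nat_lit 267) (List.cons (nat_lit 521)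
  (List.cons (nat_lit 1033) (List.cons (nat_lit 145) (List.cons (nat_lit 273) (List.cons (nat_lit 161) (List.cons (nat_lit 131) (List.cons (nat_lit 193) List.nil)))))))))))) (nat_lit 3) (nat_lit 0))) (BT.leaf (Hd.mk (List.cons (nat_lit 3841) (List.cons (nat_lit 2273) (List.cons (nat_lit 2077) (List.cons (nat_lit 1171) (List.cons (nat_lit 2051) (List.cons (nat_lit 645) (List.cons (nat_lit 393) (List.cons (nat_lit 1093) (List.cons (nat_lit 1065) (List.cons (nat_lit 263) (List.cons (nat_lit 37) (List.cons (nat_lit 35) (List.cons (nat_lit 289) (List.cons (nat_lit 561) (List.cons (nat_lit 337) (List.cons (nat_lit 523) (List.cons (nat_lit 67) (List.cons (nat_lit 73) (List.cons (nat_lit 577) (List.cons (nat_lit 2704) (List.cons (nat_lit 2320) (List.cons (nat_lit 2066) (List.cons (nat_lit 2096) (List.cons (nat_lit 2128) (List.cons (nat_lit 3088) (List.cons (nat_lit 208) (List.cons (nat_lit 152) (List.cons (nat_lit 2184) (List.cons (nat_lit 3200) (List.cons (nat_lit 2568) List.nil)))))))))))))))))))))))))))))) (nat_lit 3) (nat_lit 248)))) (BT.node (BT.leaf (Hd.mk (List.cons (nat_lit 3969) (List.cons (nat_lit 195) (List.cons (nat_lit 165)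 (List.cons (nat_lit 153) (List.cons (nat_lit 291) (List.cons (nat_lit 329) (List.cons (nat_lit 261) (List.cons (nat_lit 273) (List.cons (nat_lit 515) (List.cons (nat_lit 525) (List.cons (nat_lit 2059) (List.cons (nat_lit 41) (List.cons (nat_lit 1033) List.nil))))))))))))) (nat_lit 3) (nat_lit 0))) (BT.leaf (Hd.mk (List.cons (nat_lit 3841) (List.cons (nat_lit 2273) (List.cons (nat_lit 1177) (List.cons (nat_lit 597) (List.cons (nat_lit 2067) (List.cons (nat_lit 2061) (List.cons (nat_lit 305) (List.cons (nat_lit 1089) (List.cons (nat_lit 641) (List.cons (nat_lit 323) List.nil)))))))))) (nat_lit 3) (nat_lit 0))))) (BT.node (BT.node (BT.leaf (Hd.mk (List.cons (nat_lit 3969) (List.cons (nat_lit 2161) (List.cons (nat_lit 2059) (List.cons (nat_lit 2053) List.nil)))) (nat_lit 3) (nat_lit 0))) (BT.leaf (Hd.mk (List.cons (nat_lit 3841) (List.cons (nat_lit 2273) (List.cons (nat_lit 2077) (List.cons (nat_lit 1171) (List.cons (nat_lit 2051) (List.cons (nat_lit 645) (List.cons (nat_lit 137) (List.cons (nat_lit 385) List.nil)))))))) (nat_lit 3) (nat_lit 0)))) (BT.node (BT.leaf (Hd.mk (List.cons (nat_lit 3969) (List.cons (nat_lit 195) (List.cons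 (nat_lit 165) (List.cons (nat_lit 137) (List.cons (nat_lit 145) (List.cons (nat_lit 291) List.nil)))))) (nat_lit 3) (nat_lit 0))) (BT.leaf (Hd.mk (List.cons (nat_lit 3841) (List.cons (nat_lit 2273) (List.cons (nat_lit 1177) (List.cons (nat_lit 2061) (List.cons (nat_lit 2051) (List.cons (nat_lit 2065) (List.cons (nat_lit 1061) (List.cons (nat_lit 1027) (List.cons (nat_lit 1089) List.nil))))))))) (nat_lit 3) (nat_lit 0)))))) (BT.node (BT.node (BT.node (BT.leaf (Hd.mk (List.cons (nat_lit 3969) (List.cons (nat_lit 2161) (List.cons (nat_lit 2059) (List.cons (nat_lit 2053) (List.cons (nat_lit 153) (List.cons (nat_lit 277) (List.cons (nat_lit 531) (List.cons (nat_lit 1041) (List.cons (nat_lit 259) (List.cons (nat_lit 289) (List.cons (nat_lit 265) (List.cons (nat_lit 321) List.nil)))))))))))) (nat_lit 3) (nat_lit 0))) (BT.leaf (Hd.mk (List.cons (nat_lit 3841) (List.cons (nat_lit 2273) (List.cons (nat_lit 2077) (List.cons (nat_lit 1171) (List.cons (nat_lit 2051) (List.cons (nat_lit 645) (List.cons (nat_lit 393) (List.cons (nat_lit 1093) (List.cons (nat_lit 1065) (List.cons (nat_lit 263) (List.cons (nat_lit 37) (List.cons (nat_lit 35) (List.cons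 (nat_lit 289) (List.cons (nat_lit 561) (List.cons (nat_lit 337) (List.cons (nat_lit 523) (List.cons (nat_lit 67) (List.cons (nat_lit 73) (List.cons (nat_lit 577) (List.cons (nat_lit 2192) (List.cons (nat_lit 3088) (List.cons (nat_lit 2436) (List.cons (nat_lit 3200) (List.cons (nat_lit 2178) (List.cons (nat_lit 2184) (List.cons (nat_lit 2688) List.nil)))))))))))))))))))))))))) (nat_lit 3) (nat_lit 248)))) (BT.node (BT.leaf (Hd.mk (List.cons (nat_lit 3969) (List.cons (nat_lit 195) (List.cons (nat_lit 165) (List.cons (nat_lit 153) (List.cons
  (nat_lit 291) (List.cons (nat_lit 265) (List.cons (nat_lit 261) (List.cons (nat_lit 273) (List.cons (nat_lit 321) (List.cons (nat_lit 531) (List.cons (nat_lit 1027) List.nil))))))))))) (nat_lit 3) (nat_lit 0))) (BT.leaf (Hd.mk (List.cons (nat_lit 3841) (List.cons (nat_lit 2273) (List.cons (nat_lit 1177) (List.cons (nat_lit 2061) (List.cons (nat_lit 2067) (List.cons (nat_lit 1061) (List.cons (nat_lit 1027) (List.cons (nat_lit 1089) (List.cons (nat_lit 561) List.nil))))))))) (nat_lit 3) (nat_lit 0))))) (BT.node (BT.node (BT.leaf (Hd.mk (List.cons (nat_lit 3969) (List.cons (nat_lit 195) (List.cons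 (nat_lit 165) (List.cons (nat_lit 153) (List.cons (nat_lit 291) (List.cons (nat_lit 329) (List.cons (nat_lit 277) (List.cons (nat_lit 19) (List.cons (nat_lit 523) (List.cons (nat_lit 1027) (List.cons (nat_lit 7) (List.cons (nat_lit 2051) List.nil)))))))))))) (nat_lit 3) (nat_lit 0))) (BT.leaf (Hd.mk (List.cons (nat_lit 3841) (List.cons (nat_lit 2273) (List.cons (nat_lit 2077) (List.cons (nat_lit 2051) (List.cons (nat_lit 1061) (List.cons (nat_lit 581) (List.cons (nat_lit 7) (List.cons (nat_lit 389) (List.cons (nat_lit 553) (List.cons (nat_lit 35) (List.cons (nat_lit 49) (List.cons (nat_lit 289) (List.cons (nat_lit 643) (List.cons (nat_lit 529) List.nil)))))))))))))) (nat_lit 3) (nat_lit 0)))) (BT.node (BT.leaf (Hd.mk (List.cons (nat_lit 3969) (List.cons (nat_lit 195) List.nil)) (nat_lit 3) (nat_lit 0))) (BT.leaf (Hd.mk (List.cons (nat_lit 3841) (List.cons (nat_lit 241) List.nil)) (nat_lit 4) (nat_lit 0))))))) (BT.node (BT.node (BT.node (BT.node (BT.leaf (Hd.mk (List.cons (nat_lit 3969) (List.cons (nat_lit 2169) (List.cons (nat_lit 2051) (List.cons (nat_lit 2053) (List.cons (nat_lit 137) (List.cons (nat_lit 265) (List.cons (nat_lit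 521) (List.cons (nat_lit 15) (List.cons (nat_lit 1033) (List.cons (nat_lit 145) (List.cons (nat_lit 195) List.nil))))))))))) (nat_lit 3) (nat_lit 0))) (BT.leaf (Hd.mk (List.cons (nat_lit 3841) (List.cons (nat_lit 2273) (List.cons (nat_lit 2077) (List.cons (nat_lit 1171) (List.cons (nat_lit 2051) (List.cons (nat_lit 645) (List.cons (nat_lit 393) (List.cons (nat_lit 1093) (List.cons (nat_lit 1065) (List.cons (nat_lit 263) (List.cons (nat_lit 37) (List.cons (nat_lit 35) (List.cons (nat_lit 289) (List.cons (nat_lit 561) (List.cons (nat_lit 337) (List.cons (nat_lit 523) (List.cons (nat_lit 67) (List.cons (nat_lit 73) (List.cons (nat_lit 577) (List.cons (nat_lit 2192) (List.cons (nat_lit 3152) (List.cons (nat_lit 2576) (List.cons (nat_lit 1552) (List.cons (nat_lit 1048) (List.cons (nat_lit 3080) (List.cons (nat_lit 3200) (List.cons (nat_lit 720) (List.cons (nat_lit 152) List.nil)))))))))))))))))))))))))))) (nat_lit 3) (nat_lit 248)))) (BT.node (BT.leaf (Hd.mk (List.cons (nat_lit 3969) (List.cons (nat_lit 195) (List.cons (nat_lit 165) (List.cons (nat_lit 153) (List.cons (nat_lit 291) (List.cons (nat_lit 265) (List.cons (nat_lit 325) (List.cons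 (nat_lit 273) (List.cons (nat_lit 531) (List.cons (nat_lit 525) (List.cons (nat_lit 545) (List.cons (nat_lit 577) (List.cons (nat_lit 2055) List.nil))))))))))))) (nat_lit 3) (nat_lit 0))) (BT.leaf (Hd.mk (List.cons (nat_lit 3841) (List.cons (nat_lit 2273) (List.cons (nat_lit 1177) (List.cons (nat_lit 583) List.nil)))) (nat_lit 4) (nat_lit 0))))) (BT.node (BT.node (BT.leaf (Hd.mk (List.cons (nat_lit 3969) (List.cons (nat_lit 121) (List.cons (nat_lit 141) List.nil))) (nat_lit 3) (nat_lit 0))) (BT.leaf (Hd.mk (List.cons (nat_lit 3841) (List.cons (nat_lit 2273) (List.cons (nat_lit 2077) (List.cons (nat_lit 2051) (List.cons (nat_lit 1061) (List.cons (nat_lit 581) (List.cons (nat_lit 263) (List.cons (nat_lit 133) (List.cons (nat_lit 305) (List.cons (nat_lit 321) (List.cons (nat_lit 265) (List.cons (nat_lit 385) List.nil)))))))))))) (nat_lit 3) (nat_lit 0)))) (BT.node (BT.leaf (Hd.mk (List.cons (nat_lit 3969) (List.cons (nat_lit 195) (List.cons (nat_lit 165) (List.cons (nat_lit 137) (List.cons (nat_lit 145) (List.cons (nat_lit 259) (List.cons (nat_lit 325) (List.cons (nat_lit 265)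
  (List.cons (nat_lit 273) (List.cons (nat_lit 289) (List.cons (nat_lit 533) List.nil))))))))))) (nat_lit 3) (nat_lit 0))) (BT.leaf (Hd.mk (List.cons (nat_lit 3841) (List.cons (nat_lit 2273) (List.cons (nat_lit 1053) (List.cons (nat_lit 2055) (List.cons (nat_lit 2057) (List.cons (nat_lit 2065) (List.cons (nat_lit 1059) (List.cons (nat_lit 1089) (List.cons (nat_lit 1153) (List.cons (nat_lit 37) (List.cons (nat_lit 581) (List.cons (nat_lit 389) (List.cons (nat_lit 553) List.nil))))))))))))) (nat_lit 3) (nat_lit 0)))))) (BT.node (BT.node (BT.node (BT.leaf (Hd.mk (List.cons (nat_lit 3969) (List.cons (nat_lit 2161) (List.cons (nat_lit 2059) (List.cons (nat_lit 2053) (List.cons (nat_lit 149) (List.cons (nat_lit 195) List.nil)))))) (nat_lit 3) (nat_lit 0))) (BT.leaf (Hd.mk (List.cons (nat_lit 3841) (List.cons (nat_lit 2273) (List.cons (nat_lit 2077) (List.cons (nat_lit 1171) (List.cons (nat_lit 2051) (List.cons (nat_lit 645) (List.cons (nat_lit 393) (List.cons (nat_lit 1093) (List.cons (nat_lit 1065) (List.cons (nat_lit 263) (List.cons (nat_lit 37) (List.cons (nat_lit 35) (List.cons (nat_lit 289) (List.cons (nat_lit 561) (List.cons (nat_lit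 337) (List.cons (nat_lit 523) (List.cons (nat_lit 67) (List.cons (nat_lit 73) (List.cons (nat_lit 577) (List.cons (nat_lit 2192) (List.cons (nat_lit 3088) (List.cons (nat_lit 2432) (List.cons (nat_lit 2180) (List.cons (nat_lit 3208) (List.cons (nat_lit 2178) (List.cons (nat_lit 2688) List.nil)))))))))))))))))))))))))) (nat_lit 3) (nat_lit 248)))) (BT.node (BT.leaf (Hd.mk (List.cons (nat_lit 3969) (List.cons (nat_lit 195) (List.cons (nat_lit 165) (List.cons (nat_lit 137) (List.cons (nat_lit 145) (List.cons (nat_lit 291) (List.cons (nat_lit 531) (List.cons (nat_lit 1035) (List.cons (nat_lit 7) (List.cons (nat_lit 2051) List.nil)))))))))) (nat_lit 3) (nat_lit 0))) (BT.leaf (Hd.mk (List.cons (nat_lit 3841) (List.cons (nat_lit 2273) (List.cons (nat_lit 1177) (List.cons (nat_lit 2061) (List.cons (nat_lit 2067) (List.cons (nat_lit 1057) (List.cons (nat_lit 1027) (List.cons (nat_lit 1029) (List.cons (nat_lit 1089) (List.cons (nat_lit 389) (List.cons (nat_lit 643) (List.cons (nat_lit 71) (List.cons (nat_lit 43) (List.cons (nat_lit 259) List.nil)))))))))))))) (nat_lit 3) (nat_lit 0))))) (BT.node (BT.node (BT.leaf (Hd.mk (List.cons (nat_lit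 3969) (List.cons (nat_lit 195) (List.cons (nat_lit 165) (List.cons (nat_lit 153) (List.cons (nat_lit 291) (List.cons (nat_lit 329) (List.cons (nat_lit 261) (List.cons (nat_lit 273) (List.cons (nat_lit 523) (List.cons (nat_lit 1031) (List.cons (nat_lit 19) (List.cons (nat_lit 2051) (List.cons (nat_lit 13) (List.cons (nat_lit 1065) (List.cons (nat_lit 2057) List.nil))))))))))))))) (nat_lit 3) (nat_lit 0))) (BT.leaf (Hd.mk (List.cons (nat_lit 3841) (List.cons (nat_lit 2273) (List.cons (nat_lit 2077) (List.cons (nat_lit 2051) (List.cons (nat_lit 1061) (List.cons (nat_lit 71) List.nil)))))) (nat_lit 3) (nat_lit 0)))) (BT.leaf (Hd.mk (List.cons (nat_lit 3841) (List.cons (nat_lit 2273) (List.cons (nat_lit 2077) (List.cons (nat_lit 1171) (List.cons (nat_lit 2051) (List.cons (nat_lit 645) (List.cons (nat_lit 393) (List.cons (nat_lit 1093) (List.cons (nat_lit 1065) (List.cons (nat_lit 263) (List.cons (nat_lit 37) (List.cons (nat_lit 35) (List.cons (nat_lit 289) (List.cons (nat_lit 561) (List.cons (nat_lit 337) (List.cons (nat_lit 523) (List.cons (nat_lit 67) (List.cons (nat_lit 73) (List.cons (nat_lit 577) (List.cons (nat_lit 2704) (List.cons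 (nat_lit 2320) (List.cons (nat_lit 2130) List.nil)))))))))))))))))))))) (nat_lit 3) (nat_lit 248))))))) (BT.node (BT.node (BT.node (BT.node (BT.node (BT.leaf (Hd.mk (List.cons (nat_lit 3969) (List.cons (nat_lit 2169) (List.cons (nat_lit 2055) (List.cons (nat_lit 137) (List.cons (nat_lit 265) (List.cons (nat_lit 11) (List.cons (nat_lit 521) (List.cons (nat_lit 13) (List.cons (nat_lit 1033) (List.cons (nat_lit 145) (List.cons (nat_lit 195) List.nil))))))))))) (nat_lit 3) (nat_lit 0))) (BT.leaf (Hd.mk (List.cons (nat_lit 3841) (List.cons
  (nat_lit 2273) (List.cons (nat_lit 2077) (List.cons (nat_lit 1171) (List.cons (nat_lit 2051) (List.cons (nat_lit 645) (List.cons (nat_lit 393) (List.cons (nat_lit 1093) (List.cons (nat_lit 1065) (List.cons (nat_lit 263) (List.cons (nat_lit 37) (List.cons (nat_lit 35) (List.cons (nat_lit 289) (List.cons (nat_lit 561) (List.cons (nat_lit 337) (List.cons (nat_lit 523) (List.cons (nat_lit 67) (List.cons (nat_lit 73) (List.cons (nat_lit 577) (List.cons (nat_lit 2192) (List.cons (nat_lit 3152) (List.cons (nat_lit 2576) (List.cons (nat_lit 1560) (List.cons (nat_lit 152) (List.cons (nat_lit 1664) (List.cons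 (nat_lit 88) (List.cons (nat_lit 1600) (List.cons (nat_lit 3080) (List.cons (nat_lit 3200) (List.cons (nat_lit 720) (List.cons (nat_lit 648) (List.cons (nat_lit 2568) (List.cons (nat_lit 2184) (List.cons (nat_lit 2688) (List.cons (nat_lit 1224) (List.cons (nat_lit 1328) (List.cons (nat_lit 1044) List.nil))))))))))))))))))))))))))))))))))))) (nat_lit 3) (nat_lit 248)))) (BT.node (BT.leaf (Hd.mk (List.cons (nat_lit 3969) (List.cons (nat_lit 195) (List.cons (nat_lit 165) (List.cons (nat_lit 153) (List.cons (nat_lit 291) (List.cons (nat_lit 329) List.nil)))))) (nat_lit 3) (nat_lit 0))) (BT.leaf (Hd.mk (List.cons (nat_lit 3841) (List.cons (nat_lit 2273) (List.cons (nat_lit 1177) (List.cons (nat_lit 597) (List.cons (nat_lit 2067) (List.cons (nat_lit 2053) (List.cons (nat_lit 2057) (List.cons (nat_lit 49) (List.cons (nat_lit 273) (List.cons (nat_lit 1089) (List.cons (nat_lit 641) List.nil))))))))))) (nat_lit 3) (nat_lit 0))))) (BT.node (BT.node (BT.leaf (Hd.mk (List.cons (nat_lit 3969) (List.cons (nat_lit 2161) (List.cons (nat_lit 2051) (List.cons (nat_lit 2053) (List.cons (nat_lit 2057) (List.cons (nat_lit 153) (List.cons (nat_lit 273)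 List.nil))))))) (nat_lit 3) (nat_lit 0))) (BT.leaf (Hd.mk (List.cons (nat_lit 3841) (List.cons (nat_lit 2273) (List.cons (nat_lit 2077) (List.cons (nat_lit 2051) (List.cons (nat_lit 1061) (List.cons (nat_lit 581) (List.cons (nat_lit 263) (List.cons (nat_lit 133) (List.cons (nat_lit 305) (List.cons (nat_lit 329) (List.cons (nat_lit 385) (List.cons (nat_lit 35) (List.cons (nat_lit 41) (List.cons (nat_lit 545) List.nil)))))))))))))) (nat_lit 3) (nat_lit 0)))) (BT.node (BT.leaf (Hd.mk (List.cons (nat_lit 3969) (List.cons (nat_lit 195) (List.cons (nat_lit 165) (List.cons (nat_lit 137) (List.cons (nat_lit 145) (List.cons (nat_lit 275) (List.cons (nat_lit 261) (List.cons (nat_lit 329) (List.cons (nat_lit 289) (List.cons (nat_lit 547) (List.cons (nat_lit 1035) List.nil))))))))))) (nat_lit 3) (nat_lit 0))) (BT.leaf (Hd.mk (List.cons (nat_lit 3841) (List.cons (nat_lit 2273) (List.cons (nat_lit 1177) (List.cons (nat_lit 2061) (List.cons (nat_lit 2051) (List.cons (nat_lit 2065) (List.cons (nat_lit 1057) (List.cons (nat_lit 1031) (List.cons (nat_lit 1089) List.nil))))))))) (nat_lit 3) (nat_lit 0)))))) (BT.node (BT.node (BT.node (BT.leaf (Hd.mk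 (List.cons (nat_lit 3969) (List.cons (nat_lit 2161) (List.cons (nat_lit 2059) (List.cons (nat_lit 2053) (List.cons (nat_lit 153) (List.cons (nat_lit 275) (List.cons (nat_lit 529) (List.cons (nat_lit 21) (List.cons (nat_lit 1041) (List.cons (nat_lit 163) (List.cons (nat_lit 133) (List.cons (nat_lit 193) List.nil)))))))))))) (nat_lit 3) (nat_lit 0))) (BT.leaf (Hd.mk (List.cons (nat_lit 3841) (List.cons (nat_lit 2273) (List.cons (nat_lit 2077) (List.cons (nat_lit 1171) (List.cons (nat_lit 2051) (List.cons (nat_lit 645) (List.cons (nat_lit 393) (List.cons (nat_lit 1093) (List.cons (nat_lit 1065) (List.cons (nat_lit 263) (List.cons (nat_lit 37) (List.cons (nat_lit 35) (List.cons (nat_lit 289) (List.cons (nat_lit 561) (List.cons (nat_lit 337) (List.cons (nat_lit 523) (List.cons (nat_lit 67) (List.cons (nat_lit 73) (List.cons (nat_lit 577) (List.cons (nat_lit 2192) (List.cons (nat_lit 3088) (List.cons (nat_lit 2432) (List.cons (nat_lit 3204) (List.cons (nat_lit 3104) (List.cons (nat_lit 2340) (List.cons (nat_lit 2098) (List.cons (nat_lit 2320) (List.cons (nat_lit 2600) (List.cons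
  (nat_lit 2184) (List.cons (nat_lit 2178) (List.cons (nat_lit 2688) List.nil))))))))))))))))))))))))))))))) (nat_lit 3) (nat_lit 248)))) (BT.node (BT.leaf (Hd.mk (List.cons (nat_lit 3969) (List.cons (nat_lit 195) (List.cons (nat_lit 165) (List.cons (nat_lit 153) (List.cons (nat_lit 259) (List.cons (nat_lit 261) (List.cons (nat_lit 265) (List.cons (nat_lit 273) (List.cons (nat_lit 289) (List.cons (nat_lit 321) List.nil)))))))))) (nat_lit 3) (nat_lit 0))) (BT.leaf (Hd.mk (List.cons (nat_lit 3841) (List.cons (nat_lit 2273) (List.cons (nat_lit 1177) (List.cons (nat_lit 2061) (List.cons (nat_lit 2067) (List.cons (nat_lit 1057) (List.cons (nat_lit 1031) (List.cons (nat_lit 1089) (List.cons (nat_lit 643) (List.cons (nat_lit 133) (List.cons (nat_lit 385) (List.cons (nat_lit 291) (List.cons (nat_lit 75) List.nil))))))))))))) (nat_lit 3) (nat_lit 0))))) (BT.node (BT.node (BT.leaf (Hd.mk (List.cons (nat_lit 3969) (List.cons (nat_lit 195) (List.cons (nat_lit 165) (List.cons (nat_lit 153) (List.cons (nat_lit 291) (List.cons (nat_lit 329) (List.cons (nat_lit 261) (List.cons (nat_lit 273) (List.cons (nat_lit 531) (List.cons (nat_lit 1035) (List.cons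 (nat_lit 2055) (List.cons (nat_lit 13) (List.cons (nat_lit 517) (List.cons (nat_lit 553) (List.cons (nat_lit 2057) (List.cons (nat_lit 577) List.nil)))))))))))))))) (nat_lit 3) (nat_lit 0))) (BT.leaf (Hd.mk (List.cons (nat_lit 3841) (List.cons (nat_lit 2273) (List.cons (nat_lit 2077) (List.cons (nat_lit 2051) (List.cons (nat_lit 1061) (List.cons (nat_lit 581) (List.cons (nat_lit 7) (List.cons (nat_lit 133) (List.cons (nat_lit 261) (List.cons (nat_lit 297) (List.cons (nat_lit 51) (List.cons (nat_lit 545) (List.cons (nat_lit 529) List.nil))))))))))))) (nat_lit 3) (nat_lit 0)))) (BT.leaf (Hd.mk (List.cons (nat_lit 3841) (List.cons (nat_lit 2273) (List.cons (nat_lit 2077) (List.cons (nat_lit 1171) (List.cons (nat_lit 2051) (List.cons (nat_lit 645) (List.cons (nat_lit 393) (List.cons (nat_lit 1093) (List.cons (nat_lit 1065) (List.cons (nat_lit 263) (List.cons (nat_lit 37) (List.cons (nat_lit 35) (List.cons (nat_lit 289) (List.cons (nat_lit 561) (List.cons (nat_lit 337) (List.cons (nat_lit 523) (List.cons (nat_lit 67) (List.cons (nat_lit 73) (List.cons (nat_lit 577) (List.cons (nat_lit 2704) (List.cons (nat_lit 2352) (List.cons (nat_lit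 2066) (List.cons (nat_lit 2128) (List.cons (nat_lit 3088) (List.cons (nat_lit 400) (List.cons (nat_lit 148) List.nil)))))))))))))))))))))))))) (nat_lit 3) (nat_lit 248)))))) (BT.node (BT.node (BT.node (BT.node (BT.leaf (Hd.mk (List.cons (nat_lit 3969) (List.cons (nat_lit 2161) (List.cons (nat_lit 1101) (List.cons (nat_lit 555) (List.cons (nat_lit 2057) (List.cons (nat_lit 1057) (List.cons (nat_lit 577) (List.cons (nat_lit 1043) (List.cons (nat_lit 2051) (List.cons (nat_lit 2053) (List.cons (nat_lit 517) (List.cons (nat_lit 529) List.nil)))))))))))) (nat_lit 3) (nat_lit 0))) (BT.leaf (Hd.mk (List.cons (nat_lit 3841) (List.cons (nat_lit 2273) (List.cons (nat_lit 2077) (List.cons (nat_lit 1171) (List.cons (nat_lit 2051) (List.cons (nat_lit 645) (List.cons (nat_lit 393) (List.cons (nat_lit 1093) (List.cons (nat_lit 1065) (List.cons (nat_lit 263) (List.cons (nat_lit 37) (List.cons (nat_lit 35) (List.cons (nat_lit 289) (List.cons (nat_lit 561) (List.cons (nat_lit 337) (List.cons (nat_lit 523) (List.cons (nat_lit 67) (List.cons (nat_lit 73) (List.cons (nat_lit 577) (List.cons (nat_lit 2192) (List.cons (nat_lit 3088) (List.cons (nat_lit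 2436) (List.cons (nat_lit 3208) (List.cons (nat_lit 1408) (List.cons (nat_lit 3076) (List.cons (nat_lit 2178) (List.cons (nat_lit 2688) List.nil))))))))))))))))))))))))))) (nat_lit 3) (nat_lit 248)))) (BT.node (BT.leaf (Hd.mk (List.cons (nat_lit 3969) (List.cons (nat_lit 195) (List.cons (nat_lit 165) (List.cons (nat_lit 153) (List.cons (nat_lit 291) (List.cons (nat_lit 265) (List.cons (nat_lit 325) (List.cons (nat_lit 273) (List.cons (nat_lit 519) (List.cons (nat_lit 2059) (List.cons (nat_lit 19) (List.cons (nat_lit 1027) List.nil))))))))))))
  (nat_lit 3) (nat_lit 0))) (BT.leaf (Hd.mk (List.cons (nat_lit 3841) (List.cons (nat_lit 2273) (List.cons (nat_lit 1177) (List.cons (nat_lit 2061) (List.cons (nat_lit 2067) (List.cons (nat_lit 1061) (List.cons (nat_lit 1091) (List.cons (nat_lit 585) (List.cons (nat_lit 11) (List.cons (nat_lit 41) (List.cons (nat_lit 265) (List.cons (nat_lit 547) (List.cons (nat_lit 49) (List.cons (nat_lit 289) List.nil)))))))))))))) (nat_lit 3) (nat_lit 0))))) (BT.node (BT.node (BT.leaf (Hd.mk (List.cons (nat_lit 3969) (List.cons (nat_lit 195) (List.cons (nat_lit 165) (List.cons (nat_lit 153) (List.cons (nat_lit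 291) (List.cons (nat_lit 329) (List.cons (nat_lit 277) (List.cons (nat_lit 2067) (List.cons (nat_lit 523) (List.cons (nat_lit 1031) (List.cons (nat_lit 13) (List.cons (nat_lit 517) (List.cons (nat_lit 2117) (List.cons (nat_lit 1033) (List.cons (nat_lit 2089) List.nil))))))))))))))) (nat_lit 3) (nat_lit 0))) (BT.leaf (Hd.mk (List.cons (nat_lit 3841) (List.cons (nat_lit 2273) (List.cons (nat_lit 2077) (List.cons (nat_lit 2051) (List.cons (nat_lit 1061) (List.cons (nat_lit 581) (List.cons (nat_lit 263) (List.cons (nat_lit 133) (List.cons (nat_lit 289) (List.cons (nat_lit 553) (List.cons (nat_lit 35) (List.cons (nat_lit 49) List.nil)))))))))))) (nat_lit 3) (nat_lit 0)))) (BT.node (BT.leaf (Hd.mk (List.cons (nat_lit 3969) (List.cons (nat_lit 195) (List.cons (nat_lit 133) (List.cons (nat_lit 137) (List.cons (nat_lit 145) (List.cons (nat_lit 161) (List.cons (nat_lit 291) (List.cons (nat_lit 531) (List.cons (nat_lit 1027) List.nil))))))))) (nat_lit 3) (nat_lit 0))) (BT.leaf (Hd.mk (List.cons (nat_lit 3841) (List.cons (nat_lit 2273) (List.cons (nat_lit 31) (List.cons (nat_lit 2051) (List.cons (nat_lit 2053) (List.cons (nat_lit 2057) (List.cons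 (nat_lit 2065) (List.cons (nat_lit 1059) (List.cons (nat_lit 579) (List.cons (nat_lit 387) (List.cons (nat_lit 549) (List.cons (nat_lit 1157) (List.cons (nat_lit 69) (List.cons (nat_lit 261) List.nil)))))))))))))) (nat_lit 3) (nat_lit 0)))))) (BT.node (BT.node (BT.node (BT.leaf (Hd.mk (List.cons (nat_lit 3969) (List.cons (nat_lit 2161) (List.cons (nat_lit 2059) (List.cons (nat_lit 2053) (List.cons (nat_lit 145) (List.cons (nat_lit 195) (List.cons (nat_lit 133) (List.cons (nat_lit 169) (List.cons (nat_lit 291) (List.cons (nat_lit 549) (List.cons (nat_lit 1057) List.nil))))))))))) (nat_lit 3) (nat_lit 0))) (BT.leaf (Hd.mk (List.cons (nat_lit 3841) (List.cons (nat_lit 2273) (List.cons (nat_lit 2077) (List.cons (nat_lit 1171) (List.cons (nat_lit 2051) (List.cons (nat_lit 645) (List.cons (nat_lit 393) (List.cons (nat_lit 1093) (List.cons (nat_lit 1033) (List.cons (nat_lit 1057) List.nil)))))))))) (nat_lit 3) (nat_lit 0)))) (BT.node (BT.leaf (Hd.mk (List.cons (nat_lit 3969) (List.cons (nat_lit 195) (List.cons (nat_lit 165) (List.cons (nat_lit 137) (List.cons (nat_lit 145) (List.cons (nat_lit 291) (List.cons (nat_lit 531) (List.cons (nat_lit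 1027) (List.cons (nat_lit 7) (List.cons (nat_lit 11) (List.cons (nat_lit 2051) List.nil))))))))))) (nat_lit 3) (nat_lit 0))) (BT.leaf (Hd.mk (List.cons (nat_lit 3841) (List.cons (nat_lit 2273) (List.cons (nat_lit 1177) (List.cons (nat_lit 2061) (List.cons (nat_lit 2051) (List.cons (nat_lit 2065) (List.cons (nat_lit 1061) (List.cons (nat_lit 1027) (List.cons (nat_lit 1089) (List.cons (nat_lit 389) (List.cons (nat_lit 643) (List.cons (nat_lit 7) (List.cons (nat_lit 533) (List.cons (nat_lit 69) List.nil)))))))))))))) (nat_lit 3) (nat_lit 0))))) (BT.node (BT.node (BT.leaf (Hd.mk (List.cons (nat_lit 3969) (List.cons (nat_lit 195) (List.cons (nat_lit 165) (List.cons (nat_lit 153) (List.cons (nat_lit 291) (List.cons (nat_lit 329) (List.cons (nat_lit 261) (List.cons (nat_lit 273) (List.cons (nat_lit 519) (List.cons (nat_lit 553) (List.cons (nat_lit 593) (List.cons (nat_lit 11) (List.cons (nat_lit 1043) (List.cons (nat_lit 2051) List.nil)))))))))))))) (nat_lit 3) (nat_lit 0))) (BT.leaf (Hd.mk (List.cons (nat_lit 3841) (List.cons (nat_lit 2273) (List.cons (nat_lit 2077) (List.cons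
  (nat_lit 2051) (List.cons (nat_lit 39) (List.cons (nat_lit 261) (List.cons (nat_lit 69) (List.cons (nat_lit 517) (List.cons (nat_lit 133) List.nil))))))))) (nat_lit 3) (nat_lit 0)))) (BT.leaf (Hd.mk (List.cons (nat_lit 3841) (List.cons (nat_lit 2273) (List.cons (nat_lit 2077) (List.cons (nat_lit 1171) (List.cons (nat_lit 2051) (List.cons (nat_lit 645) (List.cons (nat_lit 393) (List.cons (nat_lit 1093) (List.cons (nat_lit 1065) (List.cons (nat_lit 263) (List.cons (nat_lit 37) (List.cons (nat_lit 35) (List.cons (nat_lit 289) (List.cons (nat_lit 561) (List.cons (nat_lit 337) (List.cons (nat_lit 523) (List.cons (nat_lit 67) (List.cons (nat_lit 73) (List.cons (nat_lit 577) (List.cons (nat_lit 2704) (List.cons (nat_lit 2320) (List.cons (nat_lit 2066) (List.cons (nat_lit 2096) (List.cons (nat_lit 2128) (List.cons (nat_lit 3088) (List.cons (nat_lit 216) (List.cons (nat_lit 536) (List.cons (nat_lit 1048) (List.cons (nat_lit 2568) (List.cons (nat_lit 1216) (List.cons (nat_lit 2184) (List.cons (nat_lit 3200) (List.cons (nat_lit 1552) (List.cons (nat_lit 1104) (List.cons (nat_lit 1664) (List.cons (nat_lit 648) (List.cons (nat_lit 1160) List.nil)))))))))))))))))))))))))))))))))))))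 (nat_lit 3) (nat_lit 248))))))))) (BT.node (BT.node (BT.node (BT.node (BT.node (BT.node (BT.node (BT.leaf (Hd.mk (List.cons (nat_lit 3969) (List.cons (nat_lit 2169) (List.cons (nat_lit 2055) (List.cons (nat_lit 141) (List.cons (nat_lit 267) (List.cons (nat_lit 521) (List.cons (nat_lit 1033) (List.cons (nat_lit 147) (List.cons (nat_lit 161) (List.cons (nat_lit 193) (List.cons (nat_lit 273) List.nil))))))))))) (nat_lit 3) (nat_lit 0))) (BT.leaf (Hd.mk (List.cons (nat_lit 3841) (List.cons (nat_lit 2273) (List.cons (nat_lit 2077) (List.cons (nat_lit 1171) (List.cons (nat_lit 2051) (List.cons (nat_lit 645) (List.cons (nat_lit 393) (List.cons (nat_lit 1093) (List.cons (nat_lit 1065) (List.cons (nat_lit 263) (List.cons (nat_lit 37) (List.cons (nat_lit 35) (List.cons (nat_lit 289) (List.cons (nat_lit 561) (List.cons (nat_lit 337) (List.cons (nat_lit 523) (List.cons (nat_lit 67) (List.cons (nat_lit 73) (List.cons (nat_lit 577) (List.cons (nat_lit 2704) (List.cons (nat_lit 2320) (List.cons (nat_lit 2066) (List.cons (nat_lit 2096) (List.cons (nat_lit 2128) (List.cons (nat_lit 3088) (List.cons (nat_lit 208) (List.cons (nat_lit 152) (List.cons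 (nat_lit 2184) (List.cons (nat_lit 3200) (List.cons (nat_lit 2568) (List.cons (nat_lit 2624) (List.cons (nat_lit 1552) (List.cons (nat_lit 1672) (List.cons (nat_lit 1216) (List.cons (nat_lit 2178) (List.cons (nat_lit 2180) (List.cons (nat_lit 2432) List.nil))))))))))))))))))))))))))))))))))))) (nat_lit 3) (nat_lit 248)))) (BT.node (BT.leaf (Hd.mk (List.cons (nat_lit 3969) (List.cons (nat_lit 195) (List.cons (nat_lit 165) (List.cons (nat_lit 153) (List.cons (nat_lit 291) (List.cons (nat_lit 329) (List.cons (nat_lit 261) (List.cons (nat_lit 273) (List.cons (nat_lit 515) (List.cons (nat_lit 553) (List.cons (nat_lit 517) (List.cons (nat_lit 529) (List.cons (nat_lit 577) List.nil))))))))))))) (nat_lit 3) (nat_lit 0))) (BT.leaf (Hd.mk (List.cons (nat_lit 3841) (List.cons (nat_lit 2273) (List.cons (nat_lit 1177) (List.cons (nat_lit 597) (List.cons (nat_lit 2067) (List.cons (nat_lit 2061) (List.cons (nat_lit 305) (List.cons (nat_lit 1089) (List.cons (nat_lit 643) (List.cons (nat_lit 133) (List.cons (nat_lit 385) (List.cons (nat_lit 261) (List.cons (nat_lit 521) (List.cons (nat_lit 545) List.nil)))))))))))))) (nat_lit 3) (nat_lit 0)))))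 (BT.node (BT.node (BT.leaf (Hd.mk (List.cons (nat_lit 3969) (List.cons (nat_lit 2161) (List.cons (nat_lit 2059) (List.cons (nat_lit 2053) (List.cons (nat_lit 145) (List.cons (nat_lit 135) (List.cons (nat_lit 161) (List.cons (nat_lit 137) (List.cons (nat_lit 193) (List.cons (nat_lit 1043) List.nil)))))))))) (nat_lit 3) (nat_lit 0))) (BT.leaf (Hd.mk (List.cons (nat_lit 3841) (List.cons (nat_lit 2273) (List.cons (nat_lit 2077) (List.cons (nat_lit 1171) (List.cons (nat_lit 2051) (List.cons (nat_lit 645) (List.cons
  (nat_lit 137) (List.cons (nat_lit 385) (List.cons (nat_lit 1029) (List.cons (nat_lit 1065) (List.cons (nat_lit 1089) List.nil))))))))))) (nat_lit 3) (nat_lit 0)))) (BT.node (BT.leaf (Hd.mk (List.cons (nat_lit 3969) (List.cons (nat_lit 195) (List.cons (nat_lit 165) (List.cons (nat_lit 137) (List.cons (nat_lit 145) (List.cons (nat_lit 291) (List.cons (nat_lit 519) (List.cons (nat_lit 1027) List.nil)))))))) (nat_lit 3) (nat_lit 0))) (BT.leaf (Hd.mk (List.cons (nat_lit 3841) (List.cons (nat_lit 2273) (List.cons (nat_lit 1177) (List.cons (nat_lit 2061) (List.cons (nat_lit 2051) (List.cons (nat_lit 2065) (List.cons (nat_lit 1061)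 (List.cons (nat_lit 1027) (List.cons (nat_lit 1089) (List.cons (nat_lit 385) (List.cons (nat_lit 135) (List.cons (nat_lit 641) (List.cons (nat_lit 325) List.nil))))))))))))) (nat_lit 3) (nat_lit 0)))))) (BT.node (BT.node (BT.node (BT.leaf (Hd.mk (List.cons (nat_lit 3969) (List.cons (nat_lit 2161) (List.cons (nat_lit 2059) (List.cons (nat_lit 2053) (List.cons (nat_lit 153) (List.cons (nat_lit 277) (List.cons (nat_lit 531) (List.cons (nat_lit 1041) (List.cons (nat_lit 323) (List.cons (nat_lit 297) List.nil)))))))))) (nat_lit 3) (nat_lit 0))) (BT.leaf (Hd.mk (List.cons (nat_lit 3841) (List.cons (nat_lit 2273) (List.cons (nat_lit 2077) (List.cons (nat_lit 1171) (List.cons (nat_lit 2051) (List.cons (nat_lit 645) (List.cons (nat_lit 393) (List.cons (nat_lit 1093) (List.cons (nat_lit 1065) (List.cons (nat_lit 263) (List.cons (nat_lit 37) (List.cons (nat_lit 35) (List.cons (nat_lit 289) (List.cons (nat_lit 561) (List.cons (nat_lit 337) (List.cons (nat_lit 523) (List.cons (nat_lit 67) (List.cons (nat_lit 73) (List.cons (nat_lit 577) (List.cons (nat_lit 2192) (List.cons (nat_lit 3088) (List.cons (nat_lit 2436) (List.cons (nat_lit 3200) (List.cons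 (nat_lit 2178) (List.cons (nat_lit 2184) (List.cons (nat_lit 2688) (List.cons (nat_lit 148) (List.cons (nat_lit 1156) (List.cons (nat_lit 2568) List.nil))))))))))))))))))))))))))))) (nat_lit 3) (nat_lit 248)))) (BT.node (BT.leaf (Hd.mk (List.cons (nat_lit 3969) (List.cons (nat_lit 195) (List.cons (nat_lit 165) (List.cons (nat_lit 153) (List.cons (nat_lit 291) (List.cons (nat_lit 265) (List.cons (nat_lit 261) (List.cons (nat_lit 273) (List.cons (nat_lit 321) (List.cons (nat_lit 531) (List.cons (nat_lit 1031) (List.cons (nat_lit 11) (List.cons (nat_lit 2051) List.nil))))))))))))) (nat_lit 3) (nat_lit 0))) (BT.leaf (Hd.mk (List.cons (nat_lit 3841) (List.cons (nat_lit 2273) (List.cons (nat_lit 1177) (List.cons (nat_lit 2061) (List.cons (nat_lit 2067) (List.cons (nat_lit 1061) (List.cons (nat_lit 1091) (List.cons (nat_lit 73) (List.cons (nat_lit 267) (List.cons (nat_lit 547) (List.cons (nat_lit 41) (List.cons (nat_lit 521) List.nil)))))))))))) (nat_lit 3) (nat_lit 0))))) (BT.node (BT.node (BT.leaf (Hd.mk (List.cons (nat_lit 3969) (List.cons (nat_lit 195) (List.cons (nat_lit 165) (List.cons (nat_lit 153) (List.cons (nat_lit 291) (List.cons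 (nat_lit 329) (List.cons (nat_lit 277) (List.cons (nat_lit 2067) List.nil)))))))) (nat_lit 3) (nat_lit 0))) (BT.leaf (Hd.mk (List.cons (nat_lit 3841) (List.cons (nat_lit 2273) (List.cons (nat_lit 2077) (List.cons (nat_lit 2051) (List.cons (nat_lit 1061) (List.cons (nat_lit 581) (List.cons (nat_lit 7) (List.cons (nat_lit 389) (List.cons (nat_lit 553) (List.cons (nat_lit 35) (List.cons (nat_lit 305) (List.cons (nat_lit 259) (List.cons (nat_lit 329) (List.cons (nat_lit 1035) (List.cons (nat_lit 137) List.nil))))))))))))))) (nat_lit 3) (nat_lit 0)))) (BT.node (BT.leaf (Hd.mk (List.cons (nat_lit 3969) (List.cons (nat_lit 195) (List.cons (nat_lit 133) (List.cons (nat_lit 137) List.nil)))) (nat_lit 3) (nat_lit 0))) (BT.leaf (Hd.mk (List.cons (nat_lit 3841) (List.cons (nat_lit 2273) (List.cons (nat_lit 31) List.nil))) (nat_lit 4) (nat_lit 0))))))) (BT.node (BT.node (BT.node (BT.node (BT.leaf (Hd.mk (List.cons (nat_lit 3969) (List.cons (nat_lit 2169) (List.cons (nat_lit 2051) (List.cons (nat_lit 2053) (List.cons (nat_lit 141) List.nil))))) (nat_lit 3)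
  (nat_lit 0))) (BT.leaf (Hd.mk (List.cons (nat_lit 3841) (List.cons (nat_lit 2273) (List.cons (nat_lit 2077) (List.cons (nat_lit 1171) (List.cons (nat_lit 2051) (List.cons (nat_lit 645) (List.cons (nat_lit 393) (List.cons (nat_lit 1093) (List.cons (nat_lit 1065) (List.cons (nat_lit 263) (List.cons (nat_lit 37) (List.cons (nat_lit 35) (List.cons (nat_lit 289) (List.cons (nat_lit 561) (List.cons (nat_lit 337) (List.cons (nat_lit 523) (List.cons (nat_lit 67) (List.cons (nat_lit 73) (List.cons (nat_lit 577) (List.cons (nat_lit 2192) (List.cons (nat_lit 3152) (List.cons (nat_lit 2576) (List.cons (nat_lit 1552) (List.cons (nat_lit 1048) (List.cons (nat_lit 3080) (List.cons (nat_lit 3200) (List.cons (nat_lit 720) (List.cons (nat_lit 152) (List.cons (nat_lit 792) (List.cons (nat_lit 530) (List.cons (nat_lit 532) (List.cons (nat_lit 2184) (List.cons (nat_lit 2688) (List.cons (nat_lit 1672) (List.cons (nat_lit 1216) List.nil))))))))))))))))))))))))))))))))))) (nat_lit 3) (nat_lit 248)))) (BT.node (BT.leaf (Hd.mk (List.cons (nat_lit 3969) (List.cons (nat_lit 195) (List.cons (nat_lit 165) (List.cons (nat_lit 153) (List.cons (nat_lit 291) (List.cons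 (nat_lit 265) (List.cons (nat_lit 325) (List.cons (nat_lit 273) (List.cons (nat_lit 531) (List.cons (nat_lit 525) (List.cons (nat_lit 545) (List.cons (nat_lit 577) (List.cons (nat_lit 2055) (List.cons (nat_lit 1035) (List.cons (nat_lit 1045) List.nil))))))))))))))) (nat_lit 3) (nat_lit 0))) (BT.leaf (Hd.mk (List.cons (nat_lit 3841) (List.cons (nat_lit 2273) (List.cons (nat_lit 1177) (List.cons (nat_lit 583) (List.cons (nat_lit 1089) (List.cons (nat_lit 641) (List.cons (nat_lit 387) (List.cons (nat_lit 133) (List.cons (nat_lit 1027) (List.cons (nat_lit 1029) List.nil)))))))))) (nat_lit 3) (nat_lit 0))))) (BT.node (BT.node (BT.leaf (Hd.mk (List.cons (nat_lit 3969) (List.cons (nat_lit 121) (List.cons (nat_lit 141) (List.cons (nat_lit 265) (List.cons (nat_lit 521) List.nil))))) (nat_lit 3) (nat_lit 0))) (BT.leaf (Hd.mk (List.cons (nat_lit 3841) (List.cons (nat_lit 2273) (List.cons (nat_lit 2077) (List.cons (nat_lit 2051) (List.cons (nat_lit 1061) (List.cons (nat_lit 581) (List.cons (nat_lit 263) (List.cons (nat_lit 133) (List.cons (nat_lit 305) (List.cons (nat_lit 321) (List.cons (nat_lit 265) (List.cons (nat_lit 385) (List.cons (nat_lit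 35) (List.cons (nat_lit 553) (List.cons (nat_lit 515) (List.cons (nat_lit 657) List.nil)))))))))))))))) (nat_lit 3) (nat_lit 0)))) (BT.node (BT.leaf (Hd.mk (List.cons (nat_lit 3969) (List.cons (nat_lit 195) (List.cons (nat_lit 165) (List.cons (nat_lit 137) (List.cons (nat_lit 145) (List.cons (nat_lit 275) (List.cons (nat_lit 261) List.nil))))))) (nat_lit 3) (nat_lit 0))) (BT.leaf (Hd.mk (List.cons (nat_lit 3841) (List.cons (nat_lit 2273) (List.cons (nat_lit 1053) (List.cons (nat_lit 2055) (List.cons (nat_lit 2057) (List.cons (nat_lit 2065) (List.cons (nat_lit 1059) (List.cons (nat_lit 1089) (List.cons (nat_lit 1153) (List.cons (nat_lit 549) (List.cons (nat_lit 325) (List.cons (nat_lit 133) (List.cons (nat_lit 297) (List.cons (nat_lit 49) List.nil)))))))))))))) (nat_lit 3) (nat_lit 0)))))) (BT.node (BT.node (BT.node (BT.leaf (Hd.mk (List.cons (nat_lit 3969) (List.cons (nat_lit 2161) (List.cons (nat_lit 2059) (List.cons (nat_lit 2053) (List.cons (nat_lit 149) (List.cons (nat_lit 195) (List.cons (nat_lit 137) (List.cons (nat_lit 161) (List.cons (nat_lit 275) (List.cons (nat_lit 529) List.nil)))))))))) (nat_lit 3) (nat_lit 0))) (BT.leaf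 (Hd.mk (List.cons (nat_lit 3841) (List.cons (nat_lit 2273) (List.cons (nat_lit 2077) (List.cons (nat_lit 1171) (List.cons (nat_lit 2051) (List.cons (nat_lit 645) (List.cons (nat_lit 393) (List.cons (nat_lit 1093) (List.cons (nat_lit 1065) (List.cons (nat_lit 263) (List.cons (nat_lit 37) (List.cons (nat_lit 35) (List.cons (nat_lit 289) (List.cons (nat_lit 561) (List.cons (nat_lit 337) (List.cons (nat_lit 523) (List.cons (nat_lit 67) (List.cons (nat_lit 73) (List.cons (nat_lit 577) (List.cons (nat_lit 2192) (List.cons (nat_lit 3088)
  (List.cons (nat_lit 2432) (List.cons (nat_lit 2182) List.nil))))))))))))))))))))))) (nat_lit 3) (nat_lit 248)))) (BT.node (BT.leaf (Hd.mk (List.cons (nat_lit 3969) (List.cons (nat_lit 195) (List.cons (nat_lit 165) (List.cons (nat_lit 137) (List.cons (nat_lit 145) (List.cons (nat_lit 291) (List.cons (nat_lit 531) (List.cons (nat_lit 1035) (List.cons (nat_lit 7) (List.cons (nat_lit 2051) (List.cons (nat_lit 525) (List.cons (nat_lit 545) (List.cons (nat_lit 577) List.nil))))))))))))) (nat_lit 3) (nat_lit 0))) (BT.leaf (Hd.mk (List.cons (nat_lit 3841) (List.cons (nat_lit 2273) (List.cons (nat_lit 1177) (List.cons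 (nat_lit 2061) (List.cons (nat_lit 2067) (List.cons (nat_lit 1057) (List.cons (nat_lit 1031) (List.cons (nat_lit 1089) (List.cons (nat_lit 131) (List.cons (nat_lit 385) (List.cons (nat_lit 133) (List.cons (nat_lit 641) List.nil)))))))))))) (nat_lit 3) (nat_lit 0))))) (BT.node (BT.node (BT.leaf (Hd.mk (List.cons (nat_lit 3969) (List.cons (nat_lit 195) (List.cons (nat_lit 165) (List.cons (nat_lit 153) (List.cons (nat_lit 291) (List.cons (nat_lit 329) (List.cons (nat_lit 261) (List.cons (nat_lit 273) (List.cons (nat_lit 531) (List.cons (nat_lit 1031) (List.cons (nat_lit 11) (List.cons (nat_lit 2051) List.nil)))))))))))) (nat_lit 3) (nat_lit 0))) (BT.leaf (Hd.mk (List.cons (nat_lit 3841) (List.cons (nat_lit 2273) (List.cons (nat_lit 2077) (List.cons (nat_lit 2051) (List.cons (nat_lit 1061) (List.cons (nat_lit 71) (List.cons (nat_lit 261) (List.cons (nat_lit 133) (List.cons (nat_lit 517) List.nil))))))))) (nat_lit 3) (nat_lit 0)))) (BT.leaf (Hd.mk (List.cons (nat_lit 3841) (List.cons (nat_lit 2273) (List.cons (nat_lit 2077) (List.cons (nat_lit 1171) (List.cons (nat_lit 2051) (List.cons (nat_lit 645) (List.cons (nat_lit 393) (List.cons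 (nat_lit 1093) (List.cons (nat_lit 1065) (List.cons (nat_lit 263) (List.cons (nat_lit 37) (List.cons (nat_lit 35) (List.cons (nat_lit 289) (List.cons (nat_lit 561) (List.cons (nat_lit 337) (List.cons (nat_lit 523) (List.cons (nat_lit 67) (List.cons (nat_lit 73) (List.cons (nat_lit 577) (List.cons (nat_lit 2704) (List.cons (nat_lit 2320) (List.cons (nat_lit 2130) (List.cons (nat_lit 2096) (List.cons (nat_lit 3088) (List.cons (nat_lit 3136) (List.cons (nat_lit 22) (List.cons (nat_lit 530) (List.cons (nat_lit 2116) (List.cons (nat_lit 2368) (List.cons (nat_lit 2632) (List.cons (nat_lit 2184) (List.cons (nat_lit 3080) (List.cons (nat_lit 3200) List.nil))))))))))))))))))))))))))))))))) (nat_lit 3) (nat_lit 248))))))) (BT.node (BT.node (BT.node (BT.node (BT.node (BT.leaf (Hd.mk (List.cons (nat_lit 3969) (List.cons (nat_lit 2169) (List.cons (nat_lit 2055) (List.cons (nat_lit 141) List.nil)))) (nat_lit 3) (nat_lit 0))) (BT.leaf (Hd.mk (List.cons (nat_lit 3841) (List.cons (nat_lit 2273) (List.cons (nat_lit 2077) (List.cons (nat_lit 1171) (List.cons (nat_lit 2051) (List.cons (nat_lit 645) (List.cons (nat_lit 393) (List.cons (nat_lit 1093)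 (List.cons (nat_lit 1065) (List.cons (nat_lit 263) (List.cons (nat_lit 37) (List.cons (nat_lit 35) (List.cons (nat_lit 289) (List.cons (nat_lit 561) (List.cons (nat_lit 337) (List.cons (nat_lit 523) (List.cons (nat_lit 67) (List.cons (nat_lit 73) (List.cons (nat_lit 577) (List.cons (nat_lit 2192) (List.cons (nat_lit 3152) (List.cons (nat_lit 2576) (List.cons (nat_lit 1560) (List.cons (nat_lit 152) (List.cons (nat_lit 1664) (List.cons (nat_lit 88) (List.cons (nat_lit 1600) (List.cons (nat_lit 3080) (List.cons (nat_lit 3200) (List.cons (nat_lit 720) (List.cons (nat_lit 2696) (List.cons (nat_lit 1224) (List.cons (nat_lit 1328) (List.cons (nat_lit 1044) List.nil)))))))))))))))))))))))))))))))))) (nat_lit 3) (nat_lit 248)))) (BT.node (BT.leaf (Hd.mk (List.cons (nat_lit 3969) (List.cons (nat_lit 195) (List.cons (nat_lit 165) (List.cons (nat_lit 153) (List.cons (nat_lit 291) (List.cons (nat_lit 329) (List.cons (nat_lit 261) (List.cons (nat_lit 273) (List.cons (nat_lit 515) (List.cons (nat_lit 521) (List.cons (nat_lit 517) (List.cons (nat_lit 2089) List.nil))))))))))))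
  (nat_lit 3) (nat_lit 0))) (BT.leaf (Hd.mk (List.cons (nat_lit 3841) (List.cons (nat_lit 2273) (List.cons (nat_lit 1177) (List.cons (nat_lit 597) (List.cons (nat_lit 2067) (List.cons (nat_lit 2061) (List.cons (nat_lit 49) (List.cons (nat_lit 273) (List.cons (nat_lit 1089) List.nil))))))))) (nat_lit 3) (nat_lit 0))))) (BT.node (BT.node (BT.leaf (Hd.mk (List.cons (nat_lit 3969) (List.cons (nat_lit 2161) (List.cons (nat_lit 2051) (List.cons (nat_lit 2053) (List.cons (nat_lit 2057) (List.cons (nat_lit 153) (List.cons (nat_lit 273) (List.cons (nat_lit 529) (List.cons (nat_lit 23) (List.cons (nat_lit 1041) List.nil)))))))))) (nat_lit 3) (nat_lit 0))) (BT.leaf (Hd.mk (List.cons (nat_lit 3841) (List.cons (nat_lit 2273) (List.cons (nat_lit 2077) (List.cons (nat_lit 2051) (List.cons (nat_lit 1061) (List.cons (nat_lit 581) (List.cons (nat_lit 263) (List.cons (nat_lit 133) (List.cons (nat_lit 305) (List.cons (nat_lit 329) (List.cons (nat_lit 385) (List.cons (nat_lit 35) (List.cons (nat_lit 553) (List.cons (nat_lit 11) (List.cons (nat_lit 1161) List.nil))))))))))))))) (nat_lit 3) (nat_lit 0)))) (BT.node (BT.leaf (Hd.mk (List.cons (nat_lit 3969)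 (List.cons (nat_lit 195) (List.cons (nat_lit 165) (List.cons (nat_lit 137) (List.cons (nat_lit 145) (List.cons (nat_lit 275) (List.cons (nat_lit 261) (List.cons (nat_lit 329) (List.cons (nat_lit 289) (List.cons (nat_lit 547) (List.cons (nat_lit 1035) (List.cons (nat_lit 2055) List.nil)))))))))))) (nat_lit 3) (nat_lit 0))) (BT.leaf (Hd.mk (List.cons (nat_lit 3841) (List.cons (nat_lit 2273) (List.cons (nat_lit 1177) (List.cons (nat_lit 2061) (List.cons (nat_lit 2051) (List.cons (nat_lit 2065) (List.cons (nat_lit 1057) (List.cons (nat_lit 1031) (List.cons (nat_lit 1089) (List.cons (nat_lit 643) (List.cons (nat_lit 133) (List.cons (nat_lit 385) (List.cons (nat_lit 585) List.nil))))))))))))) (nat_lit 3) (nat_lit 0)))))) (BT.node (BT.node (BT.node (BT.leaf (Hd.mk (List.cons (nat_lit 3969) (List.cons (nat_lit 2161) (List.cons (nat_lit 2059) (List.cons (nat_lit 2053) (List.cons (nat_lit 153) (List.cons (nat_lit 275) (List.cons (nat_lit 529) (List.cons (nat_lit 21) (List.cons (nat_lit 1041) (List.cons (nat_lit 165) (List.cons (nat_lit 195) (List.cons (nat_lit 289) (List.cons (nat_lit 1031) List.nil))))))))))))) (nat_lit 3) (nat_lit 0)))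 (BT.leaf (Hd.mk (List.cons (nat_lit 3841) (List.cons (nat_lit 2273) (List.cons (nat_lit 2077) (List.cons (nat_lit 1171) (List.cons (nat_lit 2051) (List.cons (nat_lit 645) (List.cons (nat_lit 393) (List.cons (nat_lit 1093) (List.cons (nat_lit 1065) (List.cons (nat_lit 263) (List.cons (nat_lit 37) (List.cons (nat_lit 35) (List.cons (nat_lit 289) (List.cons (nat_lit 561) (List.cons (nat_lit 337) (List.cons (nat_lit 523) (List.cons (nat_lit 67) (List.cons (nat_lit 73) (List.cons (nat_lit 577) (List.cons (nat_lit 2192) (List.cons (nat_lit 3088) (List.cons (nat_lit 2434) List.nil)))))))))))))))))))))) (nat_lit 3) (nat_lit 248)))) (BT.node (BT.leaf (Hd.mk (List.cons (nat_lit 3969) (List.cons (nat_lit 195) (List.cons (nat_lit 165) (List.cons (nat_lit 153) (List.cons (nat_lit 259) (List.cons (nat_lit 261) (List.cons (nat_lit 265) (List.cons (nat_lit 273) (List.cons (nat_lit 289) (List.cons (nat_lit 321) (List.cons (nat_lit 547) (List.cons (nat_lit 585) List.nil)))))))))))) (nat_lit 3) (nat_lit 0))) (BT.leaf (Hd.mk (List.cons (nat_lit 3841) (List.cons (nat_lit 2273) (List.cons (nat_lit 1177) (List.cons (nat_lit 2061) (List.cons (nat_lit 2067)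 (List.cons (nat_lit 1057) (List.cons (nat_lit 1031) (List.cons (nat_lit 1089) (List.cons (nat_lit 643) (List.cons (nat_lit 389) (List.cons (nat_lit 291) (List.cons (nat_lit 11) (List.cons (nat_lit 67) List.nil))))))))))))) (nat_lit 3) (nat_lit 0))))) (BT.node (BT.node (BT.leaf (Hd.mk (List.cons (nat_lit 3969) (List.cons (nat_lit 195) (List.cons (nat_lit 165) (List.cons (nat_lit 153) (List.cons (nat_lit 291) (List.cons (nat_lit 329) (List.cons (nat_lit 261) (List.cons (nat_lit 273) (List.cons (nat_lit 531) (List.cons (nat_lit 1035) (List.cons
  (nat_lit 2055) (List.cons (nat_lit 525) (List.cons (nat_lit 41) (List.cons (nat_lit 2057) List.nil)))))))))))))) (nat_lit 3) (nat_lit 0))) (BT.leaf (Hd.mk (List.cons (nat_lit 3841) (List.cons (nat_lit 2273) (List.cons (nat_lit 2077) (List.cons (nat_lit 2051) (List.cons (nat_lit 1061) (List.cons (nat_lit 581) (List.cons (nat_lit 7) (List.cons (nat_lit 389) (List.cons (nat_lit 43) (List.cons (nat_lit 265) (List.cons (nat_lit 73) List.nil))))))))))) (nat_lit 3) (nat_lit 0)))) (BT.leaf (Hd.mk (List.cons (nat_lit 3841) (List.cons (nat_lit 2273) (List.cons (nat_lit 2077) (List.cons (nat_lit 1171)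 (List.cons (nat_lit 2051) (List.cons (nat_lit 645) (List.cons (nat_lit 393) (List.cons (nat_lit 1093) (List.cons (nat_lit 1065) (List.cons (nat_lit 263) (List.cons (nat_lit 37) (List.cons (nat_lit 35) (List.cons (nat_lit 289) (List.cons (nat_lit 561) (List.cons (nat_lit 337) (List.cons (nat_lit 523) (List.cons (nat_lit 67) (List.cons (nat_lit 73) (List.cons (nat_lit 577) (List.cons (nat_lit 2704) (List.cons (nat_lit 2352) (List.cons (nat_lit 2130) (List.cons (nat_lit 3088) (List.cons (nat_lit 404) (List.cons (nat_lit 2372) (List.cons (nat_lit 2432) (List.cons (nat_lit 2178) (List.cons (nat_lit 2180) (List.cons (nat_lit 3076) (List.cons (nat_lit 2306) (List.cons (nat_lit 2312) (List.cons (nat_lit 2184) (List.cons (nat_lit 3200) (List.cons (nat_lit 176) List.nil)))))))))))))))))))))))))))))))))) (nat_lit 3) (nat_lit 248)))))) (BT.node (BT.node (BT.node (BT.node (BT.leaf (Hd.mk (List.cons (nat_lit 3969) (List.cons (nat_lit 2161) (List.cons (nat_lit 1101) (List.cons (nat_lit 555) (List.cons (nat_lit 2057) (List.cons (nat_lit 1057) (List.cons (nat_lit 577) (List.cons (nat_lit 1043) (List.cons (nat_lit 2055) (List.cons (nat_lit 195) (List.cons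 (nat_lit 259) (List.cons (nat_lit 321) (List.cons (nat_lit 517) (List.cons (nat_lit 529) List.nil)))))))))))))) (nat_lit 3) (nat_lit 0))) (BT.leaf (Hd.mk (List.cons (nat_lit 3841) (List.cons (nat_lit 2273) (List.cons (nat_lit 2077) (List.cons (nat_lit 1171) (List.cons (nat_lit 2051) (List.cons (nat_lit 645) (List.cons (nat_lit 393) (List.cons (nat_lit 1093) (List.cons (nat_lit 1065) (List.cons (nat_lit 263) (List.cons (nat_lit 37) (List.cons (nat_lit 35) (List.cons (nat_lit 289) (List.cons (nat_lit 561) (List.cons (nat_lit 337) (List.cons (nat_lit 523) (List.cons (nat_lit 67) (List.cons (nat_lit 73) (List.cons (nat_lit 577) (List.cons (nat_lit 2192) (List.cons (nat_lit 3152) List.nil))))))))))))))))))))) (nat_lit 3) (nat_lit 248)))) (BT.node (BT.leaf (Hd.mk (List.cons (nat_lit 3969) (List.cons (nat_lit 195) (List.cons (nat_lit 165) (List.cons (nat_lit 153) (List.cons (nat_lit 291) (List.cons (nat_lit 265) (List.cons (nat_lit 325) (List.cons (nat_lit 273) (List.cons (nat_lit 531) (List.cons (nat_lit 517) List.nil)))))))))) (nat_lit 3) (nat_lit 0))) (BT.leaf (Hd.mk (List.cons (nat_lit 3841) (List.cons (nat_lit 2273) (List.cons (nat_lit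 1177) (List.cons (nat_lit 2061) (List.cons (nat_lit 2067) (List.cons (nat_lit 1061) (List.cons (nat_lit 1091) (List.cons (nat_lit 585) (List.cons (nat_lit 11) (List.cons (nat_lit 297) (List.cons (nat_lit 547) (List.cons (nat_lit 49) List.nil)))))))))))) (nat_lit 3) (nat_lit 0))))) (BT.node (BT.node (BT.leaf (Hd.mk (List.cons (nat_lit 3969) (List.cons (nat_lit 195) (List.cons (nat_lit 165) (List.cons (nat_lit 153) (List.cons (nat_lit 291) (List.cons (nat_lit 329) (List.cons (nat_lit 277) (List.cons (nat_lit 2067) (List.cons (nat_lit 523) (List.cons (nat_lit 1031) (List.cons (nat_lit 13) (List.cons (nat_lit 517) (List.cons (nat_lit 2117) (List.cons (nat_lit 1033) (List.cons (nat_lit 2089) (List.cons (nat_lit 593) (List.cons (nat_lit 545) (List.cons (nat_lit 1073) (List.cons (nat_lit 97) (List.cons (nat_lit 1089) List.nil)))))))))))))))))))) (nat_lit 3) (nat_lit 0))) (BT.leaf (Hd.mk (List.cons (nat_lit 3841) (List.cons (nat_lit 2273) (List.cons (nat_lit 2077) (List.cons (nat_lit 2051) (List.cons (nat_lit 1061) (List.cons (nat_lit 581) (List.cons (nat_lit 263) (List.cons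
  (nat_lit 133) (List.cons (nat_lit 289) (List.cons (nat_lit 553) (List.cons (nat_lit 35) (List.cons (nat_lit 49) (List.cons (nat_lit 531) (List.cons (nat_lit 641) List.nil)))))))))))))) (nat_lit 3) (nat_lit 0)))) (BT.node (BT.leaf (Hd.mk (List.cons (nat_lit 3969) (List.cons (nat_lit 195) (List.cons (nat_lit 133) (List.cons (nat_lit 137) (List.cons (nat_lit 145) (List.cons (nat_lit 161) (List.cons (nat_lit 291) (List.cons (nat_lit 531) (List.cons (nat_lit 1035) List.nil))))))))) (nat_lit 3) (nat_lit 0))) (BT.leaf (Hd.mk (List.cons (nat_lit 3841) (List.cons (nat_lit 2273) (List.cons (nat_lit 1053) (List.cons (nat_lit 2055) (List.cons (nat_lit 2057) (List.cons (nat_lit 2065) List.nil)))))) (nat_lit 3) (nat_lit 0)))))) (BT.node (BT.node (BT.node (BT.leaf (Hd.mk (List.cons (nat_lit 3969) (List.cons (nat_lit 2161) (List.cons (nat_lit 2059) (List.cons (nat_lit 2053) (List.cons (nat_lit 145) (List.cons (nat_lit 195) (List.cons (nat_lit 133) (List.cons (nat_lit 169) (List.cons (nat_lit 293) (List.cons (nat_lit 275) (List.cons (nat_lit 329) (List.cons (nat_lit 547) (List.cons (nat_lit 1057) List.nil))))))))))))) (nat_lit 3) (nat_lit 0)))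 (BT.leaf (Hd.mk (List.cons (nat_lit 3841) (List.cons (nat_lit 2273) (List.cons (nat_lit 2077) (List.cons (nat_lit 1171) (List.cons (nat_lit 2051) (List.cons (nat_lit 645) (List.cons (nat_lit 393) (List.cons (nat_lit 1093) (List.cons (nat_lit 1065) (List.cons (nat_lit 263) List.nil)))))))))) (nat_lit 3) (nat_lit 0)))) (BT.node (BT.leaf (Hd.mk (List.cons (nat_lit 3969) (List.cons (nat_lit 195) (List.cons (nat_lit 165) (List.cons (nat_lit 137) (List.cons (nat_lit 145) (List.cons (nat_lit 291) (List.cons (nat_lit 531) (List.cons (nat_lit 1031) List.nil)))))))) (nat_lit 3) (nat_lit 0))) (BT.leaf (Hd.mk (List.cons (nat_lit 3841) (List.cons (nat_lit 2273) (List.cons (nat_lit 1177) (List.cons (nat_lit 2061) (List.cons (nat_lit 2067) (List.cons (nat_lit 1057) (List.cons (nat_lit 1027) (List.cons (nat_lit 1029) (List.cons (nat_lit 1089) List.nil))))))))) (nat_lit 3) (nat_lit 0))))) (BT.node (BT.node (BT.leaf (Hd.mk (List.cons (nat_lit 3969) (List.cons (nat_lit 195) (List.cons (nat_lit 165) (List.cons (nat_lit 153) (List.cons (nat_lit 291) (List.cons (nat_lit 329) (List.cons (nat_lit 261) (List.cons (nat_lit 273) (List.cons (nat_lit 523) (List.cons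 (nat_lit 1027) (List.cons (nat_lit 7) (List.cons (nat_lit 19) (List.cons (nat_lit 2051) List.nil))))))))))))) (nat_lit 3) (nat_lit 0))) (BT.leaf (Hd.mk (List.cons (nat_lit 3841) (List.cons (nat_lit 2273) (List.cons (nat_lit 2077) (List.cons (nat_lit 2051) (List.cons (nat_lit 1061) List.nil))))) (nat_lit 3) (nat_lit 0)))) (BT.leaf (Hd.mk (List.cons (nat_lit 3841) (List.cons (nat_lit 2273) (List.cons (nat_lit 2077) (List.cons (nat_lit 1171) (List.cons (nat_lit 2051) (List.cons (nat_lit 645) (List.cons (nat_lit 393) (List.cons (nat_lit 1093) (List.cons (nat_lit 1065) (List.cons (nat_lit 263) (List.cons (nat_lit 37) (List.cons (nat_lit 35) (List.cons (nat_lit 289) (List.cons (nat_lit 561) (List.cons (nat_lit 337) (List.cons (nat_lit 523) (List.cons (nat_lit 67) (List.cons (nat_lit 73) (List.cons (nat_lit 577) (List.cons (nat_lit 2704) (List.cons (nat_lit 2320) (List.cons (nat_lit 2066) (List.cons (nat_lit 2096) (List.cons (nat_lit 2128) (List.cons (nat_lit 3088) (List.cons (nat_lit 216) (List.cons (nat_lit 536) (List.cons (nat_lit 1048) (List.cons (nat_lit 2568) (List.cons (nat_lit 1216) (List.cons (nat_lit 2184) (List.cons (nat_lit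 3200) (List.cons (nat_lit 1616) (List.cons (nat_lit 1672) List.nil)))))))))))))))))))))))))))))))))) (nat_lit 3) (nat_lit 248)))))))) (BT.node (BT.node (BT.node (BT.node (BT.node (BT.node (BT.leaf (Hd.mk (List.cons (nat_lit 3969) (List.cons (nat_lit 2169) (List.cons (nat_lit 2055) (List.cons (nat_lit 141) (List.cons (nat_lit 265) (List.cons (nat_lit 521) (List.cons (nat_lit 11) (List.cons (nat_lit 1033) (List.cons (nat_lit 147) (List.cons (nat_lit 161) List.nil)))))))))) (nat_lit 3) (nat_lit 0))) (BT.leaf (Hd.mk (List.cons (nat_lit 3841)
  (List.cons (nat_lit 2273) (List.cons (nat_lit 2077) (List.cons (nat_lit 1171) (List.cons (nat_lit 2051) (List.cons (nat_lit 645) (List.cons (nat_lit 393) (List.cons (nat_lit 1093) (List.cons (nat_lit 1065) (List.cons (nat_lit 263) (List.cons (nat_lit 37) (List.cons (nat_lit 35) (List.cons (nat_lit 289) (List.cons (nat_lit 561) (List.cons (nat_lit 337) (List.cons (nat_lit 523) (List.cons (nat_lit 67) (List.cons (nat_lit 73) (List.cons (nat_lit 577) (List.cons (nat_lit 2704) (List.cons (nat_lit 2320) (List.cons (nat_lit 2066) (List.cons (nat_lit 2096) (List.cons (nat_lit 2128) (List.cons (nat_lit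 3088) (List.cons (nat_lit 208) List.nil)))))))))))))))))))))))))) (nat_lit 3) (nat_lit 248)))) (BT.node (BT.leaf (Hd.mk (List.cons (nat_lit 3969) (List.cons (nat_lit 195) (List.cons (nat_lit 165) (List.cons (nat_lit 153) (List.cons (nat_lit 291) (List.cons (nat_lit 329) (List.cons (nat_lit 261) (List.cons (nat_lit 273) (List.cons (nat_lit 515) (List.cons (nat_lit 521) (List.cons (nat_lit 581) (List.cons (nat_lit 561) (List.cons (nat_lit 2089) (List.cons (nat_lit 1121) (List.cons (nat_lit 2129) List.nil))))))))))))))) (nat_lit 3) (nat_lit 0))) (BT.leaf (Hd.mk (List.cons (nat_lit 3841) (List.cons (nat_lit 2273) (List.cons (nat_lit 1177) (List.cons (nat_lit 597) (List.cons (nat_lit 2067) (List.cons (nat_lit 2061) (List.cons (nat_lit 305) (List.cons (nat_lit 1089) List.nil)))))))) (nat_lit 3) (nat_lit 0))))) (BT.node (BT.node (BT.leaf (Hd.mk (List.cons (nat_lit 3969) (List.cons (nat_lit 2161) (List.cons (nat_lit 2051) (List.cons (nat_lit 2053) (List.cons (nat_lit 2057) (List.cons (nat_lit 153) (List.cons (nat_lit 277) (List.cons (nat_lit 531) (List.cons (nat_lit 1041) (List.cons (nat_lit 165) List.nil)))))))))) (nat_lit 3) (nat_lit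 0))) (BT.leaf (Hd.mk (List.cons (nat_lit 3841) (List.cons (nat_lit 2273) (List.cons (nat_lit 2077) (List.cons (nat_lit 1171) List.nil)))) (nat_lit 4) (nat_lit 0)))) (BT.node (BT.leaf (Hd.mk (List.cons (nat_lit 3969) (List.cons (nat_lit 195) (List.cons (nat_lit 165) (List.cons (nat_lit 137) (List.cons (nat_lit 145) (List.cons (nat_lit 275) (List.cons (nat_lit 325) (List.cons (nat_lit 265) (List.cons (nat_lit 289) (List.cons (nat_lit 523) (List.cons (nat_lit 517) List.nil))))))))))) (nat_lit 3) (nat_lit 0))) (BT.leaf (Hd.mk (List.cons (nat_lit 3841) (List.cons (nat_lit 2273) (List.cons (nat_lit 1177) (List.cons (nat_lit 2061) (List.cons (nat_lit 2051) (List.cons (nat_lit 2065) (List.cons (nat_lit 1059) (List.cons (nat_lit 1029) (List.cons (nat_lit 1089) (List.cons (nat_lit 553) List.nil)))))))))) (nat_lit 3) (nat_lit 0)))))) (BT.node (BT.node (BT.node (BT.leaf (Hd.mk (List.cons (nat_lit 3969) (List.cons (nat_lit 2161) (List.cons (nat_lit 2059) (List.cons (nat_lit 2053) (List.cons (nat_lit 153) (List.cons (nat_lit 277) (List.cons (nat_lit 529) (List.cons (nat_lit 19) (List.cons (nat_lit 1041) (List.cons (nat_lit 323) (List.cons (nat_lit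 297) List.nil))))))))))) (nat_lit 3) (nat_lit 0))) (BT.leaf (Hd.mk (List.cons (nat_lit 3841) (List.cons (nat_lit 2273) (List.cons (nat_lit 2077) (List.cons (nat_lit 1171) (List.cons (nat_lit 2051) (List.cons (nat_lit 645) (List.cons (nat_lit 393) (List.cons (nat_lit 1093) (List.cons (nat_lit 1065) (List.cons (nat_lit 263) (List.cons (nat_lit 37) (List.cons (nat_lit 35) (List.cons (nat_lit 289) (List.cons (nat_lit 561) (List.cons (nat_lit 337) (List.cons (nat_lit 523) (List.cons (nat_lit 67) (List.cons (nat_lit 73) (List.cons (nat_lit 577) (List.cons (nat_lit 2192) (List.cons (nat_lit 3088) (List.cons (nat_lit 2434) (List.cons (nat_lit 3204) (List.cons (nat_lit 2184) (List.cons (nat_lit 2688) List.nil))))))))))))))))))))))))) (nat_lit 3) (nat_lit 248)))) (BT.node (BT.leaf (Hd.mk (List.cons (nat_lit 3969) (List.cons (nat_lit 195) (List.cons (nat_lit 165) (List.cons (nat_lit 153) (List.cons (nat_lit 291) (List.cons (nat_lit 265) (List.cons (nat_lit 261) (List.cons (nat_lit 273) (List.cons (nat_lit 321) List.nil))))))))) (nat_lit 3) (nat_lit 0))) (BT.leaf (Hd.mk (List.cons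
  (nat_lit 3841) (List.cons (nat_lit 2273) (List.cons (nat_lit 1177) (List.cons (nat_lit 2061) (List.cons (nat_lit 2067) (List.cons (nat_lit 1061) (List.cons (nat_lit 1027) (List.cons (nat_lit 1089) (List.cons (nat_lit 49) (List.cons (nat_lit 337) (List.cons (nat_lit 21) (List.cons (nat_lit 529) List.nil)))))))))))) (nat_lit 3) (nat_lit 0))))) (BT.node (BT.node (BT.leaf (Hd.mk (List.cons (nat_lit 3969) (List.cons (nat_lit 195) (List.cons (nat_lit 165) (List.cons (nat_lit 153) (List.cons (nat_lit 291) (List.cons (nat_lit 329) (List.cons (nat_lit 261) (List.cons (nat_lit 273) (List.cons (nat_lit 531) (List.cons (nat_lit 1035) (List.cons (nat_lit 2055) (List.cons (nat_lit 525) (List.cons (nat_lit 2089) (List.cons (nat_lit 2129) List.nil)))))))))))))) (nat_lit 3) (nat_lit 0))) (BT.leaf (Hd.mk (List.cons (nat_lit 3841) (List.cons (nat_lit 2273) (List.cons (nat_lit 2077) (List.cons (nat_lit 2051) (List.cons (nat_lit 1061) (List.cons (nat_lit 581) (List.cons (nat_lit 7) (List.cons (nat_lit 389) (List.cons (nat_lit 553) List.nil))))))))) (nat_lit 3) (nat_lit 0)))) (BT.node (BT.leaf (Hd.mk (List.cons (nat_lit 3969) List.nil) (nat_lit 5)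 (nat_lit 0))) (BT.leaf (Hd.mk List.nil (nat_lit 5) (nat_lit 0))))))) (BT.node (BT.node (BT.node (BT.node (BT.leaf (Hd.mk (List.cons (nat_lit 3969) (List.cons (nat_lit 125) (List.cons (nat_lit 135) (List.cons (nat_lit 261) (List.cons (nat_lit 517) (List.cons (nat_lit 1029) (List.cons (nat_lit 2053) List.nil))))))) (nat_lit 3) (nat_lit 0))) (BT.leaf (Hd.mk (List.cons (nat_lit 3841) (List.cons (nat_lit 2273) (List.cons (nat_lit 2077) (List.cons (nat_lit 1171) (List.cons (nat_lit 2051) (List.cons (nat_lit 645) (List.cons (nat_lit 393) (List.cons (nat_lit 1093) (List.cons (nat_lit 1065) (List.cons (nat_lit 263) (List.cons (nat_lit 37) (List.cons (nat_lit 35) (List.cons (nat_lit 289) (List.cons (nat_lit 561) (List.cons (nat_lit 337) (List.cons (nat_lit 523) (List.cons (nat_lit 67) (List.cons (nat_lit 73) (List.cons (nat_lit 577) (List.cons (nat_lit 2192) (List.cons (nat_lit 3152) (List.cons (nat_lit 2576) (List.cons (nat_lit 1552) (List.cons (nat_lit 1048) (List.cons (nat_lit 3080) (List.cons (nat_lit 3200) (List.cons (nat_lit 208) (List.cons (nat_lit 1216) (List.cons (nat_lit 2180) (List.cons (nat_lit 2432) (List.cons (nat_lit 2690)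 List.nil))))))))))))))))))))))))))))))) (nat_lit 3) (nat_lit 248)))) (BT.node (BT.leaf (Hd.mk (List.cons (nat_lit 3969) (List.cons (nat_lit 195) (List.cons (nat_lit 165) (List.cons (nat_lit 153) (List.cons (nat_lit 291) (List.cons (nat_lit 265) (List.cons (nat_lit 325) (List.cons (nat_lit 273) (List.cons (nat_lit 531) (List.cons (nat_lit 517) (List.cons (nat_lit 1035) (List.cons (nat_lit 2055) (List.cons (nat_lit 13) (List.cons (nat_lit 1045) List.nil)))))))))))))) (nat_lit 3) (nat_lit 0))) (BT.leaf (Hd.mk (List.cons (nat_lit 3841) (List.cons (nat_lit 2273) (List.cons (nat_lit 1177) (List.cons (nat_lit 2061) (List.cons (nat_lit 2067) (List.cons (nat_lit 1061) (List.cons (nat_lit 1091) (List.cons (nat_lit 585) (List.cons (nat_lit 267) (List.cons (nat_lit 41) (List.cons (nat_lit 35) (List.cons (nat_lit 305) (List.cons (nat_lit 545) List.nil))))))))))))) (nat_lit 3) (nat_lit 0))))) (BT.node (BT.node (BT.leaf (Hd.mk (List.cons (nat_lit 3969) (List.cons (nat_lit 195) (List.cons (nat_lit 165) (List.cons (nat_lit 153) (List.cons (nat_lit 291) (List.cons (nat_lit 329) (List.cons (nat_lit 277) (List.cons (nat_lit 2067) (List.cons (nat_lit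 523) (List.cons (nat_lit 1031) (List.cons (nat_lit 2061) (List.cons (nat_lit 581) (List.cons (nat_lit 41) (List.cons (nat_lit 1033) (List.cons (nat_lit 529) (List.cons (nat_lit 545) List.nil)))))))))))))))) (nat_lit 3) (nat_lit 0))) (BT.leaf (Hd.mk (List.cons (nat_lit 3841) (List.cons (nat_lit 2273) (List.cons (nat_lit 2077) (List.cons (nat_lit 2051) (List.cons (nat_lit 1061) (List.cons (nat_lit 581) (List.cons (nat_lit 263) (List.cons (nat_lit 133) (List.cons (nat_lit 289) (List.cons (nat_lit 553) (List.cons (nat_lit 51) (List.cons (nat_lit 643)
  (List.cons (nat_lit 529) (List.cons (nat_lit 1035) (List.cons (nat_lit 67) List.nil))))))))))))))) (nat_lit 3) (nat_lit 0)))) (BT.node (BT.leaf (Hd.mk (List.cons (nat_lit 3969) (List.cons (nat_lit 195) (List.cons (nat_lit 165) (List.cons (nat_lit 137) (List.cons (nat_lit 145) (List.cons (nat_lit 259) (List.cons (nat_lit 325) (List.cons (nat_lit 265) (List.cons (nat_lit 273) (List.cons (nat_lit 289) List.nil)))))))))) (nat_lit 3) (nat_lit 0))) (BT.leaf (Hd.mk (List.cons (nat_lit 3841) (List.cons (nat_lit 2273) (List.cons (nat_lit 1053) (List.cons (nat_lit 2055) (List.cons (nat_lit 2057)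 (List.cons (nat_lit 2065) (List.cons (nat_lit 1059) (List.cons (nat_lit 1089) (List.cons (nat_lit 1153) (List.cons (nat_lit 37) (List.cons (nat_lit 581) List.nil))))))))))) (nat_lit 3) (nat_lit 0)))))) (BT.node (BT.node (BT.node (BT.leaf (Hd.mk (List.cons (nat_lit 3969) (List.cons (nat_lit 2161) (List.cons (nat_lit 2059) (List.cons (nat_lit 2053) (List.cons (nat_lit 145) (List.cons (nat_lit 195) (List.cons (nat_lit 141) (List.cons (nat_lit 161) (List.cons (nat_lit 329) (List.cons (nat_lit 581) (List.cons (nat_lit 1089) (List.cons (nat_lit 547) List.nil)))))))))))) (nat_lit 3) (nat_lit 0))) (BT.leaf (Hd.mk (List.cons (nat_lit 3841) (List.cons (nat_lit 2273) (List.cons (nat_lit 2077) (List.cons (nat_lit 1171) (List.cons (nat_lit 2051) (List.cons (nat_lit 645) (List.cons (nat_lit 393) (List.cons (nat_lit 1093) (List.cons (nat_lit 1065) (List.cons (nat_lit 263) (List.cons (nat_lit 37) (List.cons (nat_lit 35) (List.cons (nat_lit 289) (List.cons (nat_lit 561) (List.cons (nat_lit 337) (List.cons (nat_lit 523) (List.cons (nat_lit 67) (List.cons (nat_lit 73) (List.cons (nat_lit 577) (List.cons (nat_lit 2192) (List.cons (nat_lit 3088) (List.cons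 (nat_lit 2432) (List.cons (nat_lit 2180) (List.cons (nat_lit 3200) (List.cons (nat_lit 2178) (List.cons (nat_lit 2184) (List.cons (nat_lit 2688) (List.cons (nat_lit 2372) (List.cons (nat_lit 3076) (List.cons (nat_lit 3104) (List.cons (nat_lit 2320) (List.cons (nat_lit 2096) (List.cons (nat_lit 204) (List.cons (nat_lit 1216) (List.cons (nat_lit 448) List.nil))))))))))))))))))))))))))))))))))) (nat_lit 3) (nat_lit 248)))) (BT.node (BT.leaf (Hd.mk (List.cons (nat_lit 3969) (List.cons (nat_lit 195) (List.cons (nat_lit 165) (List.cons (nat_lit 137) (List.cons (nat_lit 145) (List.cons (nat_lit 291) (List.cons (nat_lit 531) (List.cons (nat_lit 1031) (List.cons (nat_lit 11) (List.cons (nat_lit 2051) (List.cons (nat_lit 581) (List.cons (nat_lit 521) (List.cons (nat_lit 545) List.nil))))))))))))) (nat_lit 3) (nat_lit 0))) (BT.leaf (Hd.mk (List.cons (nat_lit 3841) (List.cons (nat_lit 2273) (List.cons (nat_lit 1177) (List.cons (nat_lit 2061) (List.cons (nat_lit 2067) (List.cons (nat_lit 1057) (List.cons (nat_lit 1027) (List.cons (nat_lit 1029) (List.cons (nat_lit 1089) (List.cons (nat_lit 389) (List.cons (nat_lit 643) (List.cons (nat_lit 7)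 (List.cons (nat_lit 291) List.nil))))))))))))) (nat_lit 3) (nat_lit 0))))) (BT.node (BT.node (BT.leaf (Hd.mk (List.cons (nat_lit 3969) (List.cons (nat_lit 195) (List.cons (nat_lit 165) (List.cons (nat_lit 153) (List.cons (nat_lit 291) (List.cons (nat_lit 329) (List.cons (nat_lit 261) (List.cons (nat_lit 273) (List.cons (nat_lit 523) (List.cons (nat_lit 1031) (List.cons (nat_lit 19) (List.cons (nat_lit 2051) List.nil)))))))))))) (nat_lit 3) (nat_lit 0))) (BT.leaf (Hd.mk (List.cons (nat_lit 3841) (List.cons (nat_lit 2273) (List.cons (nat_lit 2077) (List.cons (nat_lit 2051) (List.cons (nat_lit 1061) (List.cons (nat_lit 69) (List.cons (nat_lit 261) (List.cons (nat_lit 7) (List.cons (nat_lit 133) (List.cons (nat_lit 517) (List.cons (nat_lit 553) List.nil))))))))))) (nat_lit 3) (nat_lit 0)))) (BT.leaf (Hd.mk (List.cons (nat_lit 3841) (List.cons (nat_lit 2273) (List.cons (nat_lit 2077) (List.cons (nat_lit 1171) (List.cons (nat_lit 2051) (List.cons (nat_lit 645) (List.cons (nat_lit 393) (List.cons (nat_lit 1093) (List.cons (nat_lit 1065) (List.cons (nat_lit 263) (List.cons (nat_lit 37)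
  (List.cons (nat_lit 35) (List.cons (nat_lit 289) (List.cons (nat_lit 561) (List.cons (nat_lit 337) (List.cons (nat_lit 523) (List.cons (nat_lit 67) (List.cons (nat_lit 73) (List.cons (nat_lit 577) (List.cons (nat_lit 2704) (List.cons (nat_lit 2320) (List.cons (nat_lit 2066) (List.cons (nat_lit 3120) (List.cons (nat_lit 2128) (List.cons (nat_lit 3200) (List.cons (nat_lit 3076) (List.cons (nat_lit 2184) (List.cons (nat_lit 1300) (List.cons (nat_lit 148) (List.cons (nat_lit 1408) (List.cons (nat_lit 52) (List.cons (nat_lit 1312) (List.cons (nat_lit 208) (List.cons (nat_lit 152) (List.cons (nat_lit 432) List.nil))))))))))))))))))))))))))))))))))) (nat_lit 3) (nat_lit 248))))))) (BT.node (BT.node (BT.node (BT.node (BT.node (BT.leaf (Hd.mk (List.cons (nat_lit 3969) (List.cons (nat_lit 2169) (List.cons (nat_lit 2051) (List.cons (nat_lit 2053) (List.cons (nat_lit 141) (List.cons (nat_lit 267) (List.cons (nat_lit 521) (List.cons (nat_lit 1033) List.nil)))))))) (nat_lit 3) (nat_lit 0))) (BT.leaf (Hd.mk (List.cons (nat_lit 3841) (List.cons (nat_lit 2273) (List.cons (nat_lit 2077) (List.cons (nat_lit 1171) (List.cons (nat_lit 2051) (List.cons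 (nat_lit 645) (List.cons (nat_lit 393) (List.cons (nat_lit 1093) (List.cons (nat_lit 1065) (List.cons (nat_lit 263) (List.cons (nat_lit 37) (List.cons (nat_lit 35) (List.cons (nat_lit 289) (List.cons (nat_lit 561) (List.cons (nat_lit 337) (List.cons (nat_lit 523) (List.cons (nat_lit 67) (List.cons (nat_lit 73) (List.cons (nat_lit 577) (List.cons (nat_lit 2192) (List.cons (nat_lit 3152) (List.cons (nat_lit 2576) (List.cons (nat_lit 1560) (List.cons (nat_lit 152) (List.cons (nat_lit 1664) (List.cons (nat_lit 88) (List.cons (nat_lit 1600) (List.cons (nat_lit 3080) (List.cons (nat_lit 3200) (List.cons (nat_lit 208) (List.cons (nat_lit 656) (List.cons (nat_lit 1216) (List.cons (nat_lit 1160) (List.cons (nat_lit 2568) (List.cons (nat_lit 2186) (List.cons (nat_lit 2688) List.nil)))))))))))))))))))))))))))))))))))) (nat_lit 3) (nat_lit 248)))) (BT.node (BT.leaf (Hd.mk (List.cons (nat_lit 3969) (List.cons (nat_lit 195) (List.cons (nat_lit 165) (List.cons (nat_lit 153) (List.cons (nat_lit 291) (List.cons (nat_lit 265) (List.cons (nat_lit 325) (List.cons (nat_lit 273) (List.cons (nat_lit 531) (List.cons (nat_lit 525) (List.cons (nat_lit 609)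 (List.cons (nat_lit 2055) (List.cons (nat_lit 1035) (List.cons (nat_lit 21) (List.cons (nat_lit 1029) List.nil))))))))))))))) (nat_lit 3) (nat_lit 0))) (BT.leaf (Hd.mk (List.cons (nat_lit 3841) (List.cons (nat_lit 2273) (List.cons (nat_lit 1177) (List.cons (nat_lit 597) (List.cons (nat_lit 2065) (List.cons (nat_lit 1089) (List.cons (nat_lit 641) (List.cons (nat_lit 275) List.nil)))))))) (nat_lit 3) (nat_lit 0))))) (BT.node (BT.node (BT.leaf (Hd.mk (List.cons (nat_lit 3969) (List.cons (nat_lit 2161) List.nil)) (nat_lit 4) (nat_lit 0))) (BT.leaf (Hd.mk (List.cons (nat_lit 3841) (List.cons (nat_lit 2273) (List.cons (nat_lit 2077) (List.cons (nat_lit 2051) (List.cons (nat_lit 1061) (List.cons (nat_lit 581) (List.cons (nat_lit 263) (List.cons (nat_lit 133) (List.cons (nat_lit 305) (List.cons (nat_lit 321) (List.cons (nat_lit 393) (List.cons (nat_lit 35) (List.cons (nat_lit 553) (List.cons (nat_lit 75) (List.cons (nat_lit 1033) List.nil))))))))))))))) (nat_lit 3) (nat_lit 0)))) (BT.node (BT.leaf (Hd.mk (List.cons (nat_lit 3969) (List.cons (nat_lit 195) (List.cons (nat_lit 165) (List.cons (nat_lit 137) (List.cons (nat_lit 145) (List.cons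 (nat_lit 275) (List.cons (nat_lit 261) (List.cons (nat_lit 329) (List.cons (nat_lit 289) (List.cons (nat_lit 547) List.nil)))))))))) (nat_lit 3) (nat_lit 0))) (BT.leaf (Hd.mk (List.cons (nat_lit 3841) (List.cons (nat_lit 2273) (List.cons (nat_lit 1177) (List.cons (nat_lit 2061) (List.cons (nat_lit 2051) (List.cons (nat_lit 2065) List.nil)))))) (nat_lit 3) (nat_lit 0)))))) (BT.node (BT.node (BT.node (BT.leaf (Hd.mk (List.cons (nat_lit 3969) (List.cons (nat_lit 2161) (List.cons (nat_lit 2059) (List.cons (nat_lit 2053) (List.cons (nat_lit 153)
  (List.cons (nat_lit 275) (List.cons (nat_lit 529) (List.cons (nat_lit 21) (List.cons (nat_lit 1041) List.nil))))))))) (nat_lit 3) (nat_lit 0))) (BT.leaf (Hd.mk (List.cons (nat_lit 3841) (List.cons (nat_lit 2273) (List.cons (nat_lit 2077) (List.cons (nat_lit 1171) (List.cons (nat_lit 2051) (List.cons (nat_lit 645) (List.cons (nat_lit 393) (List.cons (nat_lit 1093) (List.cons (nat_lit 1065) (List.cons (nat_lit 263) (List.cons (nat_lit 37) (List.cons (nat_lit 35) (List.cons (nat_lit 289) (List.cons (nat_lit 561) (List.cons (nat_lit 337) (List.cons (nat_lit 523) (List.cons (nat_lit 67) (List.cons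 (nat_lit 73) (List.cons (nat_lit 577) (List.cons (nat_lit 2192) (List.cons (nat_lit 3088) (List.cons (nat_lit 2432) (List.cons (nat_lit 3204) (List.cons (nat_lit 3104) (List.cons (nat_lit 2340) List.nil))))))))))))))))))))))))) (nat_lit 3) (nat_lit 248)))) (BT.node (BT.leaf (Hd.mk (List.cons (nat_lit 3969) (List.cons (nat_lit 195) (List.cons (nat_lit 165) (List.cons (nat_lit 137) (List.cons (nat_lit 145) (List.cons (nat_lit 291) (List.cons (nat_lit 531) (List.cons (nat_lit 1035) (List.cons (nat_lit 2055) (List.cons (nat_lit 581) (List.cons (nat_lit 1029) (List.cons (nat_lit 521) (List.cons (nat_lit 545) List.nil))))))))))))) (nat_lit 3) (nat_lit 0))) (BT.leaf (Hd.mk (List.cons (nat_lit 3841) (List.cons (nat_lit 2273) (List.cons (nat_lit 1177) (List.cons (nat_lit 2061) (List.cons (nat_lit 2067) (List.cons (nat_lit 1057) (List.cons (nat_lit 1031) (List.cons (nat_lit 1089) (List.cons (nat_lit 643) (List.cons (nat_lit 133) (List.cons (nat_lit 385) (List.cons (nat_lit 43) (List.cons (nat_lit 67) List.nil))))))))))))) (nat_lit 3) (nat_lit 0))))) (BT.node (BT.node (BT.leaf (Hd.mk (List.cons (nat_lit 3969) (List.cons (nat_lit 195) (List.cons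 (nat_lit 165) (List.cons (nat_lit 153) (List.cons (nat_lit 291) (List.cons (nat_lit 329) (List.cons (nat_lit 261) (List.cons (nat_lit 273) (List.cons (nat_lit 531) (List.cons (nat_lit 1035) (List.cons (nat_lit 7) (List.cons (nat_lit 2051) (List.cons (nat_lit 525) (List.cons (nat_lit 2089) List.nil)))))))))))))) (nat_lit 3) (nat_lit 0))) (BT.leaf (Hd.mk (List.cons (nat_lit 3841) (List.cons (nat_lit 2273) (List.cons (nat_lit 2077) (List.cons (nat_lit 2051) (List.cons (nat_lit 1061) (List.cons (nat_lit 581) (List.cons (nat_lit 7) (List.cons (nat_lit 133) (List.cons (nat_lit 261) List.nil))))))))) (nat_lit 3) (nat_lit 0)))) (BT.leaf (Hd.mk (List.cons (nat_lit 3841) (List.cons (nat_lit 2273) (List.cons (nat_lit 2077) (List.cons (nat_lit 1171) (List.cons (nat_lit 2051) (List.cons (nat_lit 645) (List.cons (nat_lit 393) (List.cons (nat_lit 1093) (List.cons (nat_lit 1065) (List.cons (nat_lit 263) (List.cons (nat_lit 37) (List.cons (nat_lit 35) (List.cons (nat_lit 289) (List.cons (nat_lit 561) (List.cons (nat_lit 337) (List.cons (nat_lit 523) (List.cons (nat_lit 67) (List.cons (nat_lit 73) (List.cons (nat_lit 577) (List.cons (nat_lit 2704)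 (List.cons (nat_lit 2320) (List.cons (nat_lit 2130) (List.cons (nat_lit 3120) (List.cons (nat_lit 3200) (List.cons (nat_lit 3076) (List.cons (nat_lit 3074) (List.cons (nat_lit 2184) (List.cons (nat_lit 26) (List.cons (nat_lit 3144) (List.cons (nat_lit 2568) (List.cons (nat_lit 2624) (List.cons (nat_lit 1048) (List.cons (nat_lit 2116) (List.cons (nat_lit 2368) (List.cons (nat_lit 1104) (List.cons (nat_lit 1552) (List.cons (nat_lit 1044) (List.cons (nat_lit 1296) List.nil)))))))))))))))))))))))))))))))))))))) (nat_lit 3) (nat_lit 248)))))) (BT.node (BT.node (BT.node (BT.node (BT.leaf (Hd.mk (List.cons (nat_lit 3969) (List.cons (nat_lit 2161) (List.cons (nat_lit 1101) (List.cons (nat_lit 555) List.nil)))) (nat_lit 4) (nat_lit 0))) (BT.leaf (Hd.mk (List.cons (nat_lit 3841) (List.cons (nat_lit 2273) (List.cons (nat_lit 2077) (List.cons (nat_lit 1171) (List.cons (nat_lit 2051) (List.cons (nat_lit 645) (List.cons (nat_lit 393) (List.cons (nat_lit 1093) (List.cons (nat_lit 1065) (List.cons (nat_lit 263) (List.cons (nat_lit 37) (List.cons (nat_lit 35) (List.cons (nat_lit 289) (List.cons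
  (nat_lit 561) (List.cons (nat_lit 337) (List.cons (nat_lit 523) (List.cons (nat_lit 67) (List.cons (nat_lit 73) (List.cons (nat_lit 577) (List.cons (nat_lit 2192) (List.cons (nat_lit 3088) (List.cons (nat_lit 2436) (List.cons (nat_lit 3200) (List.cons (nat_lit 2690) (List.cons (nat_lit 2184) (List.cons (nat_lit 2640) (List.cons (nat_lit 2568) (List.cons (nat_lit 2116) (List.cons (nat_lit 2564) (List.cons (nat_lit 2592) List.nil)))))))))))))))))))))))))))))) (nat_lit 3) (nat_lit 248)))) (BT.node (BT.leaf (Hd.mk (List.cons (nat_lit 3969) (List.cons (nat_lit 195) (List.cons (nat_lit 165) (List.cons (nat_lit 153) (List.cons (nat_lit 291) (List.cons (nat_lit 265) (List.cons (nat_lit 325) (List.cons (nat_lit 273) (List.cons (nat_lit 519) (List.cons (nat_lit 11) (List.cons (nat_lit 1027) (List.cons (nat_lit 19) (List.cons (nat_lit 2051) List.nil))))))))))))) (nat_lit 3) (nat_lit 0))) (BT.leaf (Hd.mk (List.cons (nat_lit 3841) (List.cons (nat_lit 2273) (List.cons (nat_lit 1177) (List.cons (nat_lit 2061) (List.cons (nat_lit 2067) (List.cons (nat_lit 1061) (List.cons (nat_lit 1091) (List.cons (nat_lit 585) List.nil)))))))) (nat_lit 3) (nat_lit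 0))))) (BT.node (BT.node (BT.leaf (Hd.mk (List.cons (nat_lit 3969) (List.cons (nat_lit 195) (List.cons (nat_lit 165) (List.cons (nat_lit 153) (List.cons (nat_lit 291) (List.cons (nat_lit 329) (List.cons (nat_lit 277) (List.cons (nat_lit 2067) (List.cons (nat_lit 523) (List.cons (nat_lit 7) (List.cons (nat_lit 1027) (List.cons (nat_lit 517) (List.cons (nat_lit 13) (List.cons (nat_lit 1093) (List.cons (nat_lit 2053) List.nil))))))))))))))) (nat_lit 3) (nat_lit 0))) (BT.leaf (Hd.mk (List.cons (nat_lit 3841) (List.cons (nat_lit 2273) (List.cons (nat_lit 2077) (List.cons (nat_lit 2051) (List.cons (nat_lit 1061) (List.cons (nat_lit 581) (List.cons (nat_lit 263) (List.cons (nat_lit 133) (List.cons (nat_lit 289) (List.cons (nat_lit 43) (List.cons (nat_lit 521) (List.cons (nat_lit 49) (List.cons (nat_lit 545) List.nil))))))))))))) (nat_lit 3) (nat_lit 0)))) (BT.node (BT.leaf (Hd.mk (List.cons (nat_lit 3969) (List.cons (nat_lit 195) (List.cons (nat_lit 133) (List.cons (nat_lit 137) (List.cons (nat_lit 145) (List.cons (nat_lit 161) (List.cons (nat_lit 291) (List.cons (nat_lit 515) (List.cons (nat_lit 1027) List.nil))))))))) (nat_lit 3) (nat_lit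 0))) (BT.leaf (Hd.mk (List.cons (nat_lit 3841) (List.cons (nat_lit 2273) (List.cons (nat_lit 31) (List.cons (nat_lit 2051) (List.cons (nat_lit 2053) (List.cons (nat_lit 2057) (List.cons (nat_lit 2065) (List.cons (nat_lit 1059) (List.cons (nat_lit 579) (List.cons (nat_lit 131) (List.cons (nat_lit 259) List.nil))))))))))) (nat_lit 3) (nat_lit 0)))))) (BT.node (BT.node (BT.node (BT.leaf (Hd.mk (List.cons (nat_lit 3969) (List.cons (nat_lit 2161) (List.cons (nat_lit 2059) (List.cons (nat_lit 2053) (List.cons (nat_lit 145) (List.cons (nat_lit 195) (List.cons (nat_lit 133) (List.cons (nat_lit 137) (List.cons (nat_lit 161) (List.cons (nat_lit 329) (List.cons (nat_lit 581) (List.cons (nat_lit 1089) List.nil)))))))))))) (nat_lit 3) (nat_lit 0))) (BT.leaf (Hd.mk (List.cons (nat_lit 3841) (List.cons (nat_lit 2273) (List.cons (nat_lit 2077) (List.cons (nat_lit 1171) (List.cons (nat_lit 2051) (List.cons (nat_lit 645) (List.cons (nat_lit 393) (List.cons (nat_lit 1029) (List.cons (nat_lit 1057) (List.cons (nat_lit 1033) (List.cons (nat_lit 1089) (List.cons (nat_lit 293) (List.cons (nat_lit 71) (List.cons (nat_lit 259) List.nil)))))))))))))) (nat_lit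 3) (nat_lit 0)))) (BT.node (BT.leaf (Hd.mk (List.cons (nat_lit 3969) (List.cons (nat_lit 195) (List.cons (nat_lit 165) (List.cons (nat_lit 137) (List.cons (nat_lit 145) (List.cons (nat_lit 291) (List.cons (nat_lit 531) List.nil))))))) (nat_lit 3) (nat_lit 0))) (BT.leaf (Hd.mk (List.cons (nat_lit 3841) (List.cons (nat_lit 2273) (List.cons (nat_lit 1177) (List.cons (nat_lit 2061) (List.cons (nat_lit 2051) (List.cons (nat_lit 2065) (List.cons (nat_lit 1061) (List.cons (nat_lit 1027) (List.cons (nat_lit 1089) (List.cons (nat_lit 389)
  (List.cons (nat_lit 131) (List.cons (nat_lit 641) (List.cons (nat_lit 519) List.nil))))))))))))) (nat_lit 3) (nat_lit 0))))) (BT.node (BT.node (BT.leaf (Hd.mk (List.cons (nat_lit 3969) (List.cons (nat_lit 195) (List.cons (nat_lit 165) (List.cons (nat_lit 153) (List.cons (nat_lit 291) (List.cons (nat_lit 329) (List.cons (nat_lit 261) (List.cons (nat_lit 273) (List.cons (nat_lit 519) (List.cons (nat_lit 553) (List.cons (nat_lit 529) (List.cons (nat_lit 577) List.nil)))))))))))) (nat_lit 3) (nat_lit 0))) (BT.leaf (Hd.mk (List.cons (nat_lit 3841) (List.cons (nat_lit 2273) (List.cons (nat_lit 2077) List.nil)))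 (nat_lit 4) (nat_lit 0)))) (BT.leaf (Hd.mk (List.cons (nat_lit 3841) (List.cons (nat_lit 2273) (List.cons (nat_lit 2077) (List.cons (nat_lit 1171) (List.cons (nat_lit 2051) (List.cons (nat_lit 645) (List.cons (nat_lit 393) (List.cons (nat_lit 1093) (List.cons (nat_lit 1065) (List.cons (nat_lit 263) (List.cons (nat_lit 37) (List.cons (nat_lit 35) (List.cons (nat_lit 289) (List.cons (nat_lit 561) (List.cons (nat_lit 337) (List.cons (nat_lit 523) (List.cons (nat_lit 67) (List.cons (nat_lit 73) (List.cons (nat_lit 577) (List.cons (nat_lit 2704) (List.cons (nat_lit 2320) (List.cons (nat_lit 2066) (List.cons (nat_lit 2096) (List.cons (nat_lit 2128) (List.cons (nat_lit 3088) (List.cons (nat_lit 208) (List.cons (nat_lit 152) (List.cons (nat_lit 2186) (List.cons (nat_lit 3080) (List.cons (nat_lit 3136) (List.cons (nat_lit 2436) (List.cons (nat_lit 3200) (List.cons (nat_lit 148) (List.cons (nat_lit 432) (List.cons (nat_lit 386) (List.cons (nat_lit 896) (List.cons (nat_lit 448) (List.cons (nat_lit 1408) List.nil)))))))))))))))))))))))))))))))))))))) (nat_lit 3) (nat_lit 248)))))))))))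

noncomputable def par12 : Par := Par.mk (nat_lit 12) (nat_lit 4095) (nat_lit 3000) (nat_lit 100) tb12_3 tb12_4 tb12_5 (nat_lit 7059) hd12 patLib


end Pool.Agent.MP_1f1ca1_co
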