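import Pool.Agent.MP_1f1ca1_co.Chk

set_option autoImplicit false
set_option maxRecDepth 1000000
set_option maxHeartbeats 0

namespace Pool.Agent.MP_1f1ca1_co

def pat0 : Pat := Pat.mk (nat_lit 7) (List.cons (nat_lit 7) (List.cons (nat_lit 25) (List.cons (nat_lit 97) (List.cons (nat_lit 42) (List.cons (nat_lit 82) (List.cons (nat_lit 76) (List.cons (nat_lit 52) List.nil)))))))

noncomputable def tree0 : ST :=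
  (ST.flip (nat_lit 1) (nat_lit 3) (nat_lit 0) (ST.flip (nat_lit 0) (nat_lit 3) (nat_lit 2) (ST.flip (nat_lit 0) (nat_lit 1) (nat_lit 4) (ST.br (nat_lit 0) (nat_lit 2) (nat_lit 4) (ST.leaf (nat_lit 0) (nat_lit 1) (nat_lit 3) (nat_lit 2) (nat_lit 4)) (ST.flip (nat_lit 0) (nat_lit 1) (nat_lit 5) (ST.br (nat_lit 0) (nat_lit 2) (nat_lit 5) (ST.leaf (nat_lit 0) (nat_lit 1) (nat_lit 3) (nat_lit 2) (nat_lit 5)) (ST.flip (nat_lit 1) (nat_lit 3) (nat_lit 6) (ST.br (nat_lit 1) (nat_lit 5) (nat_lit 6) (ST.br (nat_lit 2) (nat_lit 5) (nat_lit 6) (ST.leaf (nat_lit 5) (nat_lit 0) (nat_lit 1) (nat_lit 6) (nat_lit 2)) (ST.br (nat_lit 2) (nat_lit 4) (nat_lit 6) (ST.leaf (nat_lit 2) (nat_lit 0) (nat_lit 4) (nat_lit 6) (nat_lit 5)) (ST.br (nat_lit 0) (nat_lit 1) (nat_lit 6) (ST.br (nat_lit 0) (nat_lit 2) (nat_lit 6) (ST.leaf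 (nat_lit 0) (nat_lit 1) (nat_lit 3) (nat_lit 2) (nat_lit 6)) (ST.br (nat_lit 1) (nat_lit 3) (nat_lit 4) (ST.br (nat_lit 2) (nat_lit 3) (nat_lit 4) (ST.leaf (nat_lit 3) (nat_lit 0) (nat_lit 1) (nat_lit 4) (nat_lit 2)) (ST.leaf (nat_lit 2) (nat_lit 0) (nat_lit 3) (nat_lit 6) (nat_lit 4))) (ST.leaf (nat_lit 1) (nat_lit 0) (nat_lit 4) (nat_lit 6) (nat_lit 3)))) (ST.br (nat_lit 0) (nat_lit 2) (nat_lit 6) (ST.br (nat_lit 1) (nat_lit 3) (nat_lit 4) (ST.leaf (nat_lit 1) (nat_lit 0) (nat_lit 4) (nat_lit 6) (nat_lit 3)) (ST.br (nat_lit 2) (nat_lit 3) (nat_lit 4) (ST.leaf (nat_lit 2) (nat_lit 0) (nat_lit 3) (nat_lit 6) (nat_lit 4)) (ST.leaf (nat_lit 3) (nat_lit 0) (nat_lit 1) (nat_lit 2) (nat_lit 4)))) (ST.leaf (nat_lit 0) (nat_lit 1) (nat_lit 3) (nat_lit 6) (nat_lit 2)))))) (ST.leaf (nat_lit 1) (nat_lit 0) (nat_lit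 3) (nat_lit 5) (nat_lit 6))))))))))

theorem pat0_ok : patV pat0 tree0 = true := by decide +kernel

def pat1 : Pat := Pat.mk (nat_lit 8) (List.cons (nat_lit 100) (List.cons (nat_lit 26) (List.cons (nat_lit 7) (List.cons (nat_lit 162) (List.cons (nat_lit 140) (List.cons (nat_lit 49) (List.cons (nat_lit 208) (List.cons (nat_lit 73) List.nil))))))))

noncomputable def tree1 : ST :=
  (ST.flip (nat_lit 1) (nat_lit 3) (nat_lit 0) (ST.flip (nat_lit 0) (nat_lit 3) (nat_lit 2) (ST.flip (nat_lit 0) (nat_lit 1) (nat_lit 4) (ST.br (nat_lit 0) (nat_lit 2) (nat_lit 4) (ST.leaf (nat_lit 0) (nat_lit 1) (nat_lit 3) (nat_lit 2) (nat_lit 4)) (ST.flip (nat_lit 1) (nat_lit 3) (nat_lit 5) (ST.br (nat_lit 1) (nat_lit 4) (nat_lit 5) (ST.br (nat_lit 2) (nat_lit 4) (nat_lit 5) (ST.leaf (nat_lit 4) (nat_lit 0) (nat_lit 1) (nat_lit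 5) (nat_lit 2)) (ST.flip (nat_lit 1) (nat_lit 3) (nat_lit 6) (ST.br (nat_lit 1) (nat_lit 4) (nat_lit 6) (ST.br (nat_lit 2) (nat_lit 3) (nat_lit 6) (ST.leaf (nat_lit 3) (nat_lit 0) (nat_lit 1) (nat_lit 6) (nat_lit 2)) (ST.flip (nat_lit 0) (nat_lit 1) (nat_lit 7) (ST.br (nat_lit 0) (nat_lit 2) (nat_lit 7) (ST.leaf (nat_lit 0) (nat_lit 1) (nat_lit 3) (nat_lit 2) (nat_lit 7)) (ST.br (nat_lit 2) (nat_lit 6) (nat_lit 7) (ST.br (nat_lit 0) (nat_lit 1) (nat_lit 5) (ST.br (nat_lit 0) (nat_lit 2) (nat_lit 5) (ST.leaf (nat_lit 0) (nat_lit 1) (nat_lit 3) (nat_lit 2) (nat_lit 5)) (ST.br (nat_lit 1) (nat_lit 3) (nat_lit 7) (ST.br (nat_lit 1) (nat_lit 4) (nat_lit 7) (ST.br (nat_lit 0) (nat_lit 1) (nat_lit 6) (ST.br (nat_lit 0) (nat_lit 2) (nat_lit 6) (ST.leaf (nat_lit 0) (nat_lit 1) (nat_lit 3) (nat_lit 2) (nat_lit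 6)) (ST.br (nat_lit 2) (nat_lit 3) (nat_lit 5) (ST.leaf (nat_lit 2) (nat_lit 0) (nat_lit 5) (nat_lit 6) (nat_lit 3)) (ST.br (nat_lit 2) (nat_lit 4) (nat_lit 6) (ST.leaf (nat_lit 2) (nat_lit 0) (nat_lit 5) (nat_lit 4) (nat_lit 6)) (ST.br (nat_lit 1) (nat_lit 6) (nat_lit 7) (ST.leaf (nat_lit 6) (nat_lit 1) (nat_lit 4) (nat_lit 7) (nat_lit 2)) (ST.br (nat_lit 2) (nat_lit 5) (nat_lit 7) (ST.br (nat_lit 0) (nat_lit 3) (nat_lit 4) (ST.br (nat_lit 0) (nat_lit 4) (nat_lit 6) (ST.leaf (nat_lit 0) (nat_lit 1) (nat_lit 3) (nat_lit 4) (nat_lit 6)) (ST.br (nat_lit 0) (nat_lit 4) (nat_lit 7) (ST.leaf (nat_lit 4) (nat_lit 0) (nat_lit 6) (nat_lit 7) (nat_lit 1)) (ST.br (nat_lit 0) (nat_lit 5) (nat_lit 7) (ST.leaf (nat_lit 0) (nat_lit 1) (nat_lit 4) (nat_lit 5) (nat_lit 7)) (ST.br (nat_lit 0) (nat_lit 6) (nat_lit 7)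 (ST.br (nat_lit 0) (nat_lit 3) (nat_lit 7) (ST.br (nat_lit 1) (nat_lit 2) (nat_lit 7) (ST.leaf (nat_lit 7) (nat_lit 0) (nat_lit 2) (nat_lit 3) (nat_lit 1)) (ST.leaf (nat_lit 7) (nat_lit 0) (nat_lit 1) (nat_lit 2) (nat_lit 5))) (ST.leaf (nat_lit 0) (nat_lit 1) (nat_lit 3) (nat_lit 6) (nat_lit 7))) (ST.leaf (nat_lit 6) (nat_lit 0) (nat_lit 4) (nat_lit 7) (nat_lit 1)))))) (ST.br (nat_lit 0) (nat_lit 4) (nat_lit 6) (ST.br (nat_lit 0) (nat_lit 4) (nat_lit 7) (ST.br (nat_lit 0) (nat_lit 5) (nat_lit 7) (ST.br (nat_lit 0) (nat_lit 6) (nat_lit 7) (ST.leaf (nat_lit 6) (nat_lit 0) (nat_lit 4) (nat_lit 1) (nat_lit 7)) (ST.br (nat_lit 0) (nat_lit 3) (nat_lit 7) (ST.leaf (nat_lit 0) (nat_lit 1) (nat_lit 3) (nat_lit 7) (nat_lit 6)) (ST.br (nat_lit 1) (nat_lit 2) (nat_lit 7) (ST.leaf (nat_lit 7) (nat_lit 0) (nat_lit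 1) (nat_lit 2) (nat_lit 5)) (ST.leaf (nat_lit 7) (nat_lit 0) (nat_lit 2) (nat_lit 3) (nat_lit 1))))) (ST.leaf (nat_lit 0) (nat_lit 1) (nat_lit 4) (nat_lit 7) (nat_lit 5))) (ST.leaf (nat_lit 4) (nat_lit 0) (nat_lit 6) (nat_lit 1) (nat_lit 7))) (ST.leaf (nat_lit 0) (nat_lit 1) (nat_lit 3) (nat_lit 6) (nat_lit 4)))) (ST.leaf (nat_lit 2) (nat_lit 0) (nat_lit 3) (nat_lit 7) (nat_lit 5))))))) (ST.br (nat_lit 0) (nat_lit 2) (nat_lit 6) (ST.br (nat_lit 1) (nat_lit 6) (nat_lit 7) (ST.leaf (nat_lit 1) (nat_lit 0) (nat_lit 3) (nat_lit 7) (nat_lit 6)) (ST.br (nat_lit 2) (nat_lit 4) (nat_lit 6) (ST.leaf (nat_lit 6) (nat_lit 1) (nat_lit 4) (nat_lit 7) (nat_lit 2)) (ST.leaf (nat_lit 2) (nat_lit 0) (nat_lit 5) (nat_lit 6) (nat_lit 4)))) (ST.leaf (nat_lit 0) (nat_lit 1) (nat_lit 3) (nat_lit 6) (nat_lit 2)))) (ST.leaf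 (nat_lit 1) (nat_lit 0) (nat_lit 3) (nat_lit 4) (nat_lit 7))) (ST.leaf (nat_lit 1) (nat_lit 0) (nat_lit 5) (nat_lit 3) (nat_lit 7)))) (ST.br (nat_lit 0) (nat_lit 2) (nat_lit 5) (ST.br (nat_lit 1) (nat_lit 3) (nat_lit 7) (ST.leaf (nat_lit 1) (nat_lit 0) (nat_lit 5) (nat_lit 3) (nat_lit 7)) (ST.br (nat_lit 1)
  (nat_lit 4) (nat_lit 7) (ST.leaf (nat_lit 1) (nat_lit 0) (nat_lit 3) (nat_lit 7) (nat_lit 4)) (ST.br (nat_lit 0) (nat_lit 1) (nat_lit 6) (ST.br (nat_lit 0) (nat_lit 2) (nat_lit 6) (ST.leaf (nat_lit 0) (nat_lit 1) (nat_lit 3) (nat_lit 2) (nat_lit 6)) (ST.br (nat_lit 1) (nat_lit 6) (nat_lit 7) (ST.leaf (nat_lit 1) (nat_lit 0) (nat_lit 3) (nat_lit 7) (nat_lit 6)) (ST.br (nat_lit 2) (nat_lit 4) (nat_lit 6) (ST.leaf (nat_lit 6) (nat_lit 1) (nat_lit 4) (nat_lit 7) (nat_lit 2)) (ST.leaf (nat_lit 2) (nat_lit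 0) (nat_lit 5) (nat_lit 4) (nat_lit 6))))) (ST.br (nat_lit 0) (nat_lit 2) (nat_lit 6) (ST.br (nat_lit 2) (nat_lit 3) (nat_lit 5) (ST.leaf (nat_lit 2) (nat_lit 0) (nat_lit 5) (nat_lit 3) (nat_lit 6)) (ST.br (nat_lit 2) (nat_lit 4) (nat_lit 6) (ST.leaf (nat_lit 2) (nat_lit 0) (nat_lit 5) (nat_lit 6) (nat_lit 4)) (ST.br (nat_lit 1) (nat_lit 6) (nat_lit 7) (ST.leaf (nat_lit 6) (nat_lit 1) (nat_lit 4) (nat_lit 7) (nat_lit 2)) (ST.br (nat_lit 2) (nat_lit 5) (nat_lit 7) (ST.br (nat_lit 0) (nat_lit 3) (nat_lit 4) (ST.br (nat_lit 0) (nat_lit 4) (nat_lit 6) (ST.br (nat_lit 0) (nat_lit 4) (nat_lit 7) (ST.leaf (nat_lit 4) (nat_lit 0) (nat_lit 6) (nat_lit 7) (nat_lit 1)) (ST.br (nat_lit 0) (nat_lit 5) (nat_lit 7) (ST.br (nat_lit 0) (nat_lit 6) (nat_lit 7) (ST.leaf (nat_lit 6) (nat_lit 0) (nat_lit 4) (nat_lit 1) (nat_lit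 7)) (ST.br (nat_lit 0) (nat_lit 3) (nat_lit 7) (ST.br (nat_lit 1) (nat_lit 2) (nat_lit 7) (ST.leaf (nat_lit 7) (nat_lit 0) (nat_lit 1) (nat_lit 2) (nat_lit 5)) (ST.leaf (nat_lit 7) (nat_lit 0) (nat_lit 2) (nat_lit 1) (nat_lit 3))) (ST.leaf (nat_lit 0) (nat_lit 1) (nat_lit 3) (nat_lit 7) (nat_lit 6)))) (ST.leaf (nat_lit 0) (nat_lit 1) (nat_lit 4) (nat_lit 7) (nat_lit 5)))) (ST.leaf (nat_lit 0) (nat_lit 1) (nat_lit 3) (nat_lit 6) (nat_lit 4))) (ST.br (nat_lit 0) (nat_lit 4) (nat_lit 6) (ST.leaf (nat_lit 0) (nat_lit 1) (nat_lit 3) (nat_lit 4) (nat_lit 6)) (ST.br (nat_lit 0) (nat_lit 4) (nat_lit 7) (ST.br (nat_lit 0) (nat_lit 5) (nat_lit 7) (ST.leaf (nat_lit 0) (nat_lit 1) (nat_lit 4) (nat_lit 5) (nat_lit 7)) (ST.br (nat_lit 0) (nat_lit 6) (nat_lit 7) (ST.br (nat_lit 0) (nat_lit 3) (nat_lit 7) (ST.leaf (nat_lit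 0) (nat_lit 1) (nat_lit 3) (nat_lit 6) (nat_lit 7)) (ST.br (nat_lit 1) (nat_lit 2) (nat_lit 7) (ST.leaf (nat_lit 7) (nat_lit 0) (nat_lit 2) (nat_lit 1) (nat_lit 3)) (ST.leaf (nat_lit 7) (nat_lit 0) (nat_lit 1) (nat_lit 2) (nat_lit 5)))) (ST.leaf (nat_lit 6) (nat_lit 0) (nat_lit 4) (nat_lit 7) (nat_lit 1)))) (ST.leaf (nat_lit 4) (nat_lit 0) (nat_lit 6) (nat_lit 1) (nat_lit 7))))) (ST.leaf (nat_lit 2) (nat_lit 0) (nat_lit 3) (nat_lit 7) (nat_lit 5)))))) (ST.leaf (nat_lit 0) (nat_lit 1) (nat_lit 3) (nat_lit 6) (nat_lit 2)))))) (ST.leaf (nat_lit 0) (nat_lit 1) (nat_lit 3) (nat_lit 5) (nat_lit 2)))) (ST.leaf (nat_lit 2) (nat_lit 0) (nat_lit 3) (nat_lit 7) (nat_lit 6)))))) (ST.leaf (nat_lit 1) (nat_lit 0) (nat_lit 3) (nat_lit 4) (nat_lit 6))))) (ST.leaf (nat_lit 1) (nat_lit 0) (nat_lit 3) (nat_lit 4) (nat_lit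 5))))))))

theorem pat1_ok : patV pat1 tree1 = true := by decide +kernel

def pat2 : Pat := Pat.mk (nat_lit 9) (List.cons (nat_lit 200) (List.cons (nat_lit 7) (List.cons (nat_lit 41) (List.cons (nat_lit 81) (List.cons (nat_lit 385) (List.cons (nat_lit 28) (List.cons (nat_lit 266) (List.cons (nat_lit 146) (List.cons (nat_lit 98) (List.cons (nat_lit 292) List.nil))))))))))

noncomputable def tree2 : ST :=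
  (ST.flip (nat_lit 1) (nat_lit 3) (nat_lit 0) (ST.flip (nat_lit 0) (nat_lit 3) (nat_lit 2) (ST.flip (nat_lit 0) (nat_lit 1) (nat_lit 4) (ST.br (nat_lit 0) (nat_lit 2) (nat_lit 4) (ST.leaf (nat_lit 0) (nat_lit 1) (nat_lit 3) (nat_lit 2) (nat_lit 4)) (ST.flip (nat_lit 1) (nat_lit 3) (nat_lit 5) (ST.br (nat_lit 2) (nat_lit 3) (nat_lit 5) (ST.leaf (nat_lit 3) (nat_lit 0) (nat_lit 1) (nat_lit 5) (nat_lit 2)) (ST.br (nat_lit 2) (nat_lit 4) (nat_lit 5) (ST.leaf (nat_lit 2) (nat_lit 0) (nat_lit 3) (nat_lit 4) (nat_lit 5)) (ST.flip (nat_lit 1) (nat_lit 4) (nat_lit 6) (ST.br (nat_lit 2) (nat_lit 4) (nat_lit 6) (ST.leaf (nat_lit 4) (nat_lit 0) (nat_lit 1) (nat_lit 6) (nat_lit 2)) (ST.br (nat_lit 2) (nat_lit 3) (nat_lit 6) (ST.leaf (nat_lit 2) (nat_lit 0) (nat_lit 3) (nat_lit 6) (nat_lit 4)) (ST.flip (nat_lit 0)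 (nat_lit 1) (nat_lit 7) (ST.br (nat_lit 1) (nat_lit 6) (nat_lit 7) (ST.leaf (nat_lit 1) (nat_lit 0) (nat_lit 4) (nat_lit 7) (nat_lit 6)) (ST.flip (nat_lit 0) (nat_lit 1) (nat_lit 8) (ST.br (nat_lit 1) (nat_lit 5) (nat_lit 8) (ST.leaf (nat_lit 1) (nat_lit 0) (nat_lit 3) (nat_lit 8) (nat_lit 5)) (ST.br (nat_lit 0) (nat_lit 3) (nat_lit 7) (ST.br (nat_lit 0) (nat_lit 3) (nat_lit 8) (ST.br (nat_lit 3) (nat_lit 5) (nat_lit 8) (ST.leaf (nat_lit 3) (nat_lit 0) (nat_lit 1) (nat_lit 5) (nat_lit 8)) (ST.br (nat_lit 1) (nat_lit 2) (nat_lit 5) (ST.br (nat_lit 4) (nat_lit 5) (nat_lit 8) (ST.leaf (nat_lit 5) (nat_lit 1) (nat_lit 2) (nat_lit 8) (nat_lit 4)) (ST.br (nat_lit 1) (nat_lit 2) (nat_lit 6) (ST.br (nat_lit 1) (nat_lit 3) (nat_lit 6) (ST.br (nat_lit 1) (nat_lit 4) (nat_lit 5) (ST.br (nat_lit 0) (nat_lit 3) (nat_lit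 6) (ST.br (nat_lit 0) (nat_lit 6) (nat_lit 7) (ST.leaf (nat_lit 6) (nat_lit 0) (nat_lit 3) (nat_lit 1) (nat_lit 7)) (ST.br (nat_lit 0) (nat_lit 6) (nat_lit 8) (ST.leaf (nat_lit 0) (nat_lit 1) (nat_lit 7) (nat_lit 6) (nat_lit 8)) (ST.br (nat_lit 1) (nat_lit 3) (nat_lit 7) (ST.br (nat_lit 1) (nat_lit 3) (nat_lit 4) (ST.br (nat_lit 1) (nat_lit 4) (nat_lit 8) (ST.leaf (nat_lit 1) (nat_lit 0) (nat_lit 3) (nat_lit 8) (nat_lit 4)) (ST.br (nat_lit 3) (nat_lit 5) (nat_lit 6) (ST.leaf (nat_lit 3) (nat_lit 0) (nat_lit 1) (nat_lit 5) (nat_lit 6)) (ST.br (nat_lit 2) (nat_lit 5) (nat_lit 6) (ST.leaf (nat_lit 5) (nat_lit 1) (nat_lit 2) (nat_lit 3) (nat_lit 6)) (ST.br (nat_lit 4) (nat_lit 5) (nat_lit 6) (ST.leaf (nat_lit 5) (nat_lit 1) (nat_lit 2) (nat_lit 6) (nat_lit 4)) (ST.br (nat_lit 0) (nat_lit 4) (nat_lit 5) (ST.leaf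 (nat_lit 4) (nat_lit 0) (nat_lit 1) (nat_lit 6) (nat_lit 5)) (ST.br (nat_lit 0) (nat_lit 4) (nat_lit 8) (ST.br (nat_lit 0) (nat_lit 1) (nat_lit 6) (ST.leaf (nat_lit 0) (nat_lit 1) (nat_lit 4) (nat_lit 8) (nat_lit 6)) (ST.br (nat_lit 0) (nat_lit 1) (nat_lit 5) (ST.leaf (nat_lit 1) (nat_lit 0) (nat_lit 5) (nat_lit 6) (nat_lit 2)) (ST.br (nat_lit 0) (nat_lit 3) (nat_lit 4) (ST.leaf (nat_lit 0) (nat_lit 1) (nat_lit 3) (nat_lit 5) (nat_lit 4)) (ST.br (nat_lit 1) (nat_lit 2) (nat_lit 3) (ST.leaf (nat_lit 1) (nat_lit 0) (nat_lit 3) (nat_lit 5) (nat_lit 2)) (ST.leaf (nat_lit 3) (nat_lit 0) (nat_lit 2) (nat_lit 1) (nat_lit 4)))))) (ST.leaf (nat_lit 4) (nat_lit 0) (nat_lit 1) (nat_lit 8) (nat_lit 5)))))))) (ST.leaf (nat_lit 1) (nat_lit 0) (nat_lit 4) (nat_lit 7) (nat_lit 3))) (ST.leaf (nat_lit 3) (nat_lit 0) (nat_lit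 6) (nat_lit 7) (nat_lit 1))))) (ST.br (nat_lit 0) (nat_lit 6) (nat_lit 7) (ST.br (nat_lit 0) (nat_lit 6) (nat_lit 8) (ST.br (nat_lit 1) (nat_lit 3) (nat_lit 7) (ST.leaf (nat_lit 3) (nat_lit 0) (nat_lit 6) (nat_lit 7) (nat_lit 1)) (ST.br (nat_lit 1) (nat_lit 3) (nat_lit 4) (ST.leaf (nat_lit 1) (nat_lit 0) (nat_lit 4) (nat_lit 3) (nat_lit 7)) (ST.br (nat_lit 1) (nat_lit 4) (nat_lit 8) (ST.br (nat_lit 3) (nat_lit 5) (nat_lit 6) (ST.br (nat_lit 2) (nat_lit 5) (nat_lit 6) (ST.br (nat_lit 4) (nat_lit 5) (nat_lit 6) (ST.br (nat_lit 0) (nat_lit 4) (nat_lit 5) (ST.br (nat_lit 0) (nat_lit 4) (nat_lit 8) (ST.br (nat_lit 0) (nat_lit 1) (nat_lit 6) (ST.br (nat_lit 0) (nat_lit 1) (nat_lit 5) (ST.br (nat_lit 0) (nat_lit 3) (nat_lit 4)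
  (ST.leaf (nat_lit 0) (nat_lit 1) (nat_lit 3) (nat_lit 4) (nat_lit 5)) (ST.br (nat_lit 1) (nat_lit 2) (nat_lit 3) (ST.leaf (nat_lit 3) (nat_lit 0) (nat_lit 2) (nat_lit 4) (nat_lit 1)) (ST.leaf (nat_lit 1) (nat_lit 0) (nat_lit 3) (nat_lit 5) (nat_lit 2)))) (ST.leaf (nat_lit 1) (nat_lit 0) (nat_lit 5) (nat_lit 2) (nat_lit 6))) (ST.leaf (nat_lit 0) (nat_lit 1) (nat_lit 4) (nat_lit 6) (nat_lit 8))) (ST.leaf (nat_lit 4) (nat_lit 0) (nat_lit 1) (nat_lit 8) (nat_lit 5))) (ST.leaf (nat_lit 4) (nat_lit 0) (nat_lit 1) (nat_lit 5) (nat_lit 6))) (ST.leaf (nat_lit 5) (nat_lit 1) (nat_lit 2) (nat_lit 4) (nat_lit 6))) (ST.leaf (nat_lit 5) (nat_lit 1) (nat_lit 2) (nat_lit 6) (nat_lit 3))) (ST.leaf (nat_lit 3) (nat_lit 0) (nat_lit 1) (nat_lit 6) (nat_lit 5))) (ST.leaf (nat_lit 1) (nat_lit 0) (nat_lit 3) (nat_lit 4)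 (nat_lit 8))))) (ST.leaf (nat_lit 0) (nat_lit 1) (nat_lit 7) (nat_lit 8) (nat_lit 6))) (ST.leaf (nat_lit 6) (nat_lit 0) (nat_lit 3) (nat_lit 7) (nat_lit 1)))) (ST.leaf (nat_lit 1) (nat_lit 2) (nat_lit 5) (nat_lit 4) (nat_lit 6))) (ST.leaf (nat_lit 1) (nat_lit 2) (nat_lit 5) (nat_lit 6) (nat_lit 3))) (ST.br (nat_lit 1) (nat_lit 3) (nat_lit 6) (ST.leaf (nat_lit 1) (nat_lit 2) (nat_lit 5) (nat_lit 3) (nat_lit 6)) (ST.br (nat_lit 1) (nat_lit 4) (nat_lit 5) (ST.leaf (nat_lit 1) (nat_lit 2) (nat_lit 5) (nat_lit 4) (nat_lit 6)) (ST.br (nat_lit 2) (nat_lit 6) (nat_lit 7) (ST.leaf (nat_lit 6) (nat_lit 1) (nat_lit 3) (nat_lit 2) (nat_lit 7)) (ST.br (nat_lit 3) (nat_lit 4) (nat_lit 5) (ST.leaf (nat_lit 5) (nat_lit 1) (nat_lit 2) (nat_lit 3) (nat_lit 4)) (ST.br (nat_lit 0) (nat_lit 3) (nat_lit 4) (ST.leaf (nat_lit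 3) (nat_lit 0) (nat_lit 1) (nat_lit 5) (nat_lit 4)) (ST.br (nat_lit 0) (nat_lit 4) (nat_lit 7) (ST.br (nat_lit 4) (nat_lit 6) (nat_lit 7) (ST.leaf (nat_lit 4) (nat_lit 0) (nat_lit 1) (nat_lit 6) (nat_lit 7)) (ST.leaf (nat_lit 6) (nat_lit 1) (nat_lit 2) (nat_lit 7) (nat_lit 4))) (ST.leaf (nat_lit 0) (nat_lit 1) (nat_lit 3) (nat_lit 7) (nat_lit 4)))))))))) (ST.leaf (nat_lit 5) (nat_lit 1) (nat_lit 2) (nat_lit 8) (nat_lit 3)))) (ST.leaf (nat_lit 0) (nat_lit 1) (nat_lit 7) (nat_lit 8) (nat_lit 3))) (ST.br (nat_lit 0) (nat_lit 3) (nat_lit 8) (ST.leaf (nat_lit 0) (nat_lit 1) (nat_lit 7) (nat_lit 3) (nat_lit 8)) (ST.br (nat_lit 3) (nat_lit 5) (nat_lit 8) (ST.br (nat_lit 1) (nat_lit 2) (nat_lit 5) (ST.leaf (nat_lit 5) (nat_lit 1) (nat_lit 2) (nat_lit 8) (nat_lit 3)) (ST.br (nat_lit 4) (nat_lit 5) (nat_lit 8)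 (ST.br (nat_lit 1) (nat_lit 2) (nat_lit 6) (ST.br (nat_lit 1) (nat_lit 3) (nat_lit 6) (ST.leaf (nat_lit 1) (nat_lit 2) (nat_lit 5) (nat_lit 6) (nat_lit 3)) (ST.br (nat_lit 1) (nat_lit 4) (nat_lit 5) (ST.leaf (nat_lit 1) (nat_lit 2) (nat_lit 5) (nat_lit 6) (nat_lit 4)) (ST.br (nat_lit 2) (nat_lit 6) (nat_lit 7) (ST.leaf (nat_lit 6) (nat_lit 1) (nat_lit 3) (nat_lit 2) (nat_lit 7)) (ST.br (nat_lit 3) (nat_lit 4) (nat_lit 5) (ST.br (nat_lit 0) (nat_lit 3) (nat_lit 4) (ST.br (nat_lit 0) (nat_lit 4) (nat_lit 7) (ST.leaf (nat_lit 0) (nat_lit 1) (nat_lit 3) (nat_lit 4) (nat_lit 7)) (ST.br (nat_lit 4) (nat_lit 6) (nat_lit 7) (ST.leaf (nat_lit 6) (nat_lit 1) (nat_lit 2) (nat_lit 7) (nat_lit 4)) (ST.leaf (nat_lit 4) (nat_lit 0) (nat_lit 1) (nat_lit 7) (nat_lit 6)))) (ST.leaf (nat_lit 3) (nat_lit 0) (nat_lit 1)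 (nat_lit 4) (nat_lit 5))) (ST.leaf (nat_lit 5) (nat_lit 1) (nat_lit 2) (nat_lit 3) (nat_lit 4)))))) (ST.br (nat_lit 1) (nat_lit 3) (nat_lit 6) (ST.br (nat_lit 1) (nat_lit 4) (nat_lit 5) (ST.br (nat_lit 0) (nat_lit 3) (nat_lit 6) (ST.br (nat_lit 0) (nat_lit 6) (nat_lit 7) (ST.leaf (nat_lit 6) (nat_lit 0) (nat_lit 3) (nat_lit 1) (nat_lit 7)) (ST.br (nat_lit 0) (nat_lit 6) (nat_lit 8) (ST.leaf (nat_lit 0) (nat_lit 1) (nat_lit 7) (nat_lit 6) (nat_lit 8)) (ST.br (nat_lit 1) (nat_lit 3) (nat_lit 7) (ST.leaf (nat_lit 3) (nat_lit 0) (nat_lit 6) (nat_lit 1) (nat_lit 7)) (ST.br (nat_lit 1) (nat_lit 3) (nat_lit 4) (ST.leaf (nat_lit 1) (nat_lit 0) (nat_lit 4) (nat_lit 3) (nat_lit 7)) (ST.br (nat_lit 1) (nat_lit 4) (nat_lit 8) (ST.br (nat_lit 3)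
  (nat_lit 5) (nat_lit 6) (ST.leaf (nat_lit 3) (nat_lit 0) (nat_lit 1) (nat_lit 5) (nat_lit 6)) (ST.br (nat_lit 2) (nat_lit 5) (nat_lit 6) (ST.br (nat_lit 4) (nat_lit 5) (nat_lit 6) (ST.leaf (nat_lit 5) (nat_lit 1) (nat_lit 2) (nat_lit 4) (nat_lit 6)) (ST.br (nat_lit 0) (nat_lit 4) (nat_lit 5) (ST.leaf (nat_lit 4) (nat_lit 0) (nat_lit 1) (nat_lit 6) (nat_lit 5)) (ST.br (nat_lit 0) (nat_lit 4) (nat_lit 8) (ST.leaf (nat_lit 4) (nat_lit 0) (nat_lit 1) (nat_lit 5) (nat_lit 8)) (ST.br (nat_lit 0) (nat_lit 1) (nat_lit 6) (ST.br (nat_lit 0) (nat_lit 1) (nat_lit 5) (ST.br (nat_lit 0) (nat_lit 3) (nat_lit 4) (ST.br (nat_lit 1) (nat_lit 2) (nat_lit 3) (ST.leaf (nat_lit 1) (nat_lit 0) (nat_lit 3) (nat_lit 2) (nat_lit 5)) (ST.leaf (nat_lit 3) (nat_lit 0) (nat_lit 2) (nat_lit 4) (nat_lit 1))) (ST.leaf (nat_lit 0)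 (nat_lit 1) (nat_lit 3) (nat_lit 5) (nat_lit 4))) (ST.leaf (nat_lit 1) (nat_lit 0) (nat_lit 5) (nat_lit 6) (nat_lit 2))) (ST.leaf (nat_lit 0) (nat_lit 1) (nat_lit 4) (nat_lit 8) (nat_lit 6)))))) (ST.leaf (nat_lit 5) (nat_lit 1) (nat_lit 2) (nat_lit 6) (nat_lit 3)))) (ST.leaf (nat_lit 1) (nat_lit 0) (nat_lit 3) (nat_lit 4) (nat_lit 8))))))) (ST.br (nat_lit 0) (nat_lit 6) (nat_lit 7) (ST.br (nat_lit 0) (nat_lit 6) (nat_lit 8) (ST.br (nat_lit 1) (nat_lit 3) (nat_lit 7) (ST.br (nat_lit 1) (nat_lit 3) (nat_lit 4) (ST.br (nat_lit 1) (nat_lit 4) (nat_lit 8) (ST.leaf (nat_lit 1) (nat_lit 0) (nat_lit 3) (nat_lit 8) (nat_lit 4)) (ST.br (nat_lit 3) (nat_lit 5) (nat_lit 6) (ST.br (nat_lit 2) (nat_lit 5) (nat_lit 6) (ST.leaf (nat_lit 5) (nat_lit 1) (nat_lit 2) (nat_lit 3) (nat_lit 6)) (ST.br (nat_lit 4) (nat_lit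 5) (nat_lit 6) (ST.br (nat_lit 0) (nat_lit 4) (nat_lit 5) (ST.br (nat_lit 0) (nat_lit 4) (nat_lit 8) (ST.leaf (nat_lit 4) (nat_lit 0) (nat_lit 1) (nat_lit 5) (nat_lit 8)) (ST.br (nat_lit 0) (nat_lit 1) (nat_lit 6) (ST.leaf (nat_lit 0) (nat_lit 1) (nat_lit 4) (nat_lit 6) (nat_lit 8)) (ST.br (nat_lit 0) (nat_lit 1) (nat_lit 5) (ST.leaf (nat_lit 1) (nat_lit 0) (nat_lit 5) (nat_lit 2) (nat_lit 6)) (ST.br (nat_lit 0) (nat_lit 3) (nat_lit 4) (ST.br (nat_lit 1) (nat_lit 2) (nat_lit 3) (ST.leaf (nat_lit 3) (nat_lit 0) (nat_lit 2) (nat_lit 1) (nat_lit 4)) (ST.leaf (nat_lit 1) (nat_lit 0) (nat_lit 3) (nat_lit 2) (nat_lit 5))) (ST.leaf (nat_lit 0) (nat_lit 1) (nat_lit 3) (nat_lit 4) (nat_lit 5)))))) (ST.leaf (nat_lit 4) (nat_lit 0) (nat_lit 1) (nat_lit 5) (nat_lit 6))) (ST.leaf (nat_lit 5) (nat_lit 1) (nat_lit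 2) (nat_lit 6) (nat_lit 4)))) (ST.leaf (nat_lit 3) (nat_lit 0) (nat_lit 1) (nat_lit 6) (nat_lit 5)))) (ST.leaf (nat_lit 1) (nat_lit 0) (nat_lit 4) (nat_lit 7) (nat_lit 3))) (ST.leaf (nat_lit 3) (nat_lit 0) (nat_lit 6) (nat_lit 1) (nat_lit 7))) (ST.leaf (nat_lit 0) (nat_lit 1) (nat_lit 7) (nat_lit 8) (nat_lit 6))) (ST.leaf (nat_lit 6) (nat_lit 0) (nat_lit 3) (nat_lit 7) (nat_lit 1)))) (ST.leaf (nat_lit 1) (nat_lit 2) (nat_lit 5) (nat_lit 6) (nat_lit 4))) (ST.leaf (nat_lit 1) (nat_lit 2) (nat_lit 5) (nat_lit 3) (nat_lit 6)))) (ST.leaf (nat_lit 5) (nat_lit 1) (nat_lit 2) (nat_lit 8) (nat_lit 4)))) (ST.leaf (nat_lit 3) (nat_lit 0) (nat_lit 1) (nat_lit 8) (nat_lit 5)))))))))))))))))))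

theorem pat2_ok : patV pat2 tree2 = true := by decide +kernel

def pat3 : Pat := Pat.mk (nat_lit 9) (List.cons (nat_lit 7) (List.cons (nat_lit 41) (List.cons (nat_lit 145) (List.cons (nat_lit 321) (List.cons (nat_lit 74) (List.cons (nat_lit 28) (List.cons (nat_lit 50) (List.cons (nat_lit 386) (List.cons (nat_lit 196) (List.cons (nat_lit 292) List.nil))))))))))

noncomputable def tree3 : ST :=
  (ST.flip (nat_lit 1) (nat_lit 3) (nat_lit 0) (ST.flip (nat_lit 0) (nat_lit 3) (nat_lit 2) (ST.flip (nat_lit 0) (nat_lit 1) (nat_lit 4) (ST.br (nat_lit 0) (nat_lit 2) (nat_lit 4) (ST.leaf (nat_lit 0) (nat_lit 1) (nat_lit 3) (nat_lit 2) (nat_lit 4)) (ST.flip (nat_lit 1) (nat_lit 3) (nat_lit 5) (ST.br (nat_lit 2) (nat_lit 3) (nat_lit 5) (ST.leaf (nat_lit 3) (nat_lit 0) (nat_lit 1) (nat_lit 5) (nat_lit 2)) (ST.flip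 (nat_lit 0) (nat_lit 1) (nat_lit 6) (ST.br (nat_lit 0) (nat_lit 2) (nat_lit 6) (ST.leaf (nat_lit 0) (nat_lit 1) (nat_lit 3) (nat_lit 2) (nat_lit 6)) (ST.flip (nat_lit 1) (nat_lit 4) (nat_lit 7) (ST.br (nat_lit 2) (nat_lit 4) (nat_lit 7) (ST.leaf (nat_lit 4) (nat_lit 0) (nat_lit 1) (nat_lit 7) (nat_lit 2)) (ST.br (nat_lit 2) (nat_lit 3) (nat_lit 7) (ST.leaf (nat_lit 2) (nat_lit 0) (nat_lit 3) (nat_lit 7) (nat_lit 4)) (ST.flip (nat_lit 0) (nat_lit 3) (nat_lit 8) (ST.br (nat_lit 0) (nat_lit 1) (nat_lit 5) (ST.br (nat_lit 0) (nat_lit 2) (nat_lit 5) (ST.leaf (nat_lit 0) (nat_lit 1) (nat_lit 3) (nat_lit 2) (nat_lit 5)) (ST.br (nat_lit 0) (nat_lit 5) (nat_lit 8) (ST.br (nat_lit 1) (nat_lit 3) (nat_lit 4) (ST.br (nat_lit 1) (nat_lit 5) (nat_lit 7) (ST.br (nat_lit 2) (nat_lit 5) (nat_lit 6) (ST.br (nat_lit 5)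 (nat_lit 6) (nat_lit 8) (ST.br (nat_lit 3) (nat_lit 6) (nat_lit 8) (ST.br (nat_lit 0) (nat_lit 1) (nat_lit 7) (ST.br (nat_lit 0) (nat_lit 2) (nat_lit 7) (ST.leaf (nat_lit 0) (nat_lit 1) (nat_lit 3) (nat_lit 2) (nat_lit 7)) (ST.br (nat_lit 2) (nat_lit 3) (nat_lit 6) (ST.leaf (nat_lit 2) (nat_lit 0) (nat_lit 6) (nat_lit 7) (nat_lit 3)) (ST.br (nat_lit 2) (nat_lit 5) (nat_lit 7) (ST.br (nat_lit 5) (nat_lit 7) (nat_lit 8) (ST.br (nat_lit 0) (nat_lit 7) (nat_lit 8) (ST.leaf (nat_lit 7) (nat_lit 0) (nat_lit 1) (nat_lit 8) (nat_lit 5)) (ST.br (nat_lit 0) (nat_lit 4) (nat_lit 8) (ST.leaf (nat_lit 0) (nat_lit 1) (nat_lit 4) (nat_lit 8) (nat_lit 7)) (ST.br (nat_lit 0) (nat_lit 1) (nat_lit 8) (ST.br (nat_lit 0) (nat_lit 3) (nat_lit 4) (ST.br (nat_lit 0) (nat_lit 3) (nat_lit 6) (ST.br (nat_lit 1) (nat_lit 2) (nat_lit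 3) (ST.leaf (nat_lit 3) (nat_lit 0) (nat_lit 2) (nat_lit 1) (nat_lit 4)) (ST.leaf (nat_lit 3) (nat_lit 0) (nat_lit 1) (nat_lit 2) (nat_lit 6))) (ST.leaf (nat_lit 0) (nat_lit 1) (nat_lit 6) (nat_lit 3) (nat_lit 8))) (ST.leaf (nat_lit 0) (nat_lit 1) (nat_lit 3) (nat_lit 8) (nat_lit 4))) (ST.br (nat_lit 0) (nat_lit 3) (nat_lit 4) (ST.leaf (nat_lit 0) (nat_lit 1) (nat_lit 3) (nat_lit 8) (nat_lit 4)) (ST.br (nat_lit 0) (nat_lit 3) (nat_lit 6) (ST.leaf (nat_lit 0) (nat_lit 1) (nat_lit 6) (nat_lit 3) (nat_lit 8)) (ST.br (nat_lit 1) (nat_lit 2) (nat_lit 3) (ST.leaf (nat_lit 3) (nat_lit 0) (nat_lit 1) (nat_lit 2) (nat_lit 6)) (ST.leaf (nat_lit 3) (nat_lit 0) (nat_lit 2) (nat_lit 1) (nat_lit 4)))))))) (ST.leaf (nat_lit 5) (nat_lit 0) (nat_lit 2) (nat_lit 7) (nat_lit 8))) (ST.leaf (nat_lit 2) (nat_lit 0) (nat_lit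 6) (nat_lit 7) (nat_lit 5))))) (ST.br (nat_lit 0) (nat_lit 2) (nat_lit 7) (ST.br (nat_lit 2) (nat_lit 3) (nat_lit 6) (ST.br (nat_lit 2) (nat_lit 5) (nat_lit 7) (ST.leaf (nat_lit 2) (nat_lit 0) (nat_lit 3) (nat_lit 5) (nat_lit 7)) (ST.br (nat_lit 5) (nat_lit 7) (nat_lit 8) (ST.leaf (nat_lit 5) (nat_lit 0) (nat_lit 2) (nat_lit 8) (nat_lit 7)) (ST.br (nat_lit 0) (nat_lit 7) (nat_lit 8) (ST.leaf (nat_lit 7) (nat_lit 0) (nat_lit 1) (nat_lit 8) (nat_lit 5)) (ST.br (nat_lit 0) (nat_lit 4) (nat_lit 8) (ST.br (nat_lit 6) (nat_lit 7) (nat_lit 8) (ST.br (nat_lit 1) (nat_lit 6) (nat_lit 7) (ST.leaf (nat_lit 7) (nat_lit 0) (nat_lit 1) (nat_lit 6) (nat_lit 8)) (ST.br (nat_lit 0) (nat_lit 1) (nat_lit 8) (ST.br (nat_lit 0) (nat_lit 3) (nat_lit 6) (ST.br (nat_lit 0) (nat_lit 4) (nat_lit 6) (ST.br (nat_lit 0) (nat_lit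 6) (nat_lit 7) (ST.br (nat_lit 1) (nat_lit 2) (nat_lit 6) (ST.leaf (nat_lit 6) (nat_lit 0) (nat_lit 1) (nat_lit 2) (nat_lit 3)) (ST.leaf (nat_lit 6) (nat_lit 0) (nat_lit 2) (nat_lit 7) (nat_lit 1))) (ST.leaf (nat_lit 0) (nat_lit 1) (nat_lit 4) (nat_lit 7) (nat_lit 6))) (ST.leaf (nat_lit 0) (nat_lit 1) (nat_lit 6) (nat_lit 4)
  (nat_lit 8))) (ST.leaf (nat_lit 0) (nat_lit 1) (nat_lit 6) (nat_lit 3) (nat_lit 8))) (ST.br (nat_lit 0) (nat_lit 3) (nat_lit 6) (ST.leaf (nat_lit 0) (nat_lit 1) (nat_lit 6) (nat_lit 3) (nat_lit 8)) (ST.br (nat_lit 0) (nat_lit 4) (nat_lit 6) (ST.leaf (nat_lit 0) (nat_lit 1) (nat_lit 6) (nat_lit 4) (nat_lit 8)) (ST.br (nat_lit 0) (nat_lit 6) (nat_lit 7) (ST.leaf (nat_lit 0) (nat_lit 1) (nat_lit 4) (nat_lit 6) (nat_lit 7)) (ST.br (nat_lit 1) (nat_lit 2) (nat_lit 6) (ST.leaf (nat_lit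 6) (nat_lit 0) (nat_lit 2) (nat_lit 7) (nat_lit 1)) (ST.leaf (nat_lit 6) (nat_lit 0) (nat_lit 1) (nat_lit 2) (nat_lit 3)))))))) (ST.leaf (nat_lit 8) (nat_lit 0) (nat_lit 3) (nat_lit 7) (nat_lit 6))) (ST.leaf (nat_lit 0) (nat_lit 1) (nat_lit 4) (nat_lit 8) (nat_lit 7)))))) (ST.leaf (nat_lit 2) (nat_lit 0) (nat_lit 6) (nat_lit 7) (nat_lit 3))) (ST.leaf (nat_lit 0) (nat_lit 1) (nat_lit 3) (nat_lit 7) (nat_lit 2)))) (ST.leaf (nat_lit 8) (nat_lit 0) (nat_lit 3) (nat_lit 5) (nat_lit 6))) (ST.leaf (nat_lit 5) (nat_lit 0) (nat_lit 2) (nat_lit 6) (nat_lit 8))) (ST.br (nat_lit 2) (nat_lit 3) (nat_lit 6) (ST.leaf (nat_lit 2) (nat_lit 0) (nat_lit 3) (nat_lit 6) (nat_lit 5)) (ST.br (nat_lit 0) (nat_lit 2) (nat_lit 7) (ST.leaf (nat_lit 2) (nat_lit 0) (nat_lit 6) (nat_lit 7) (nat_lit 3)) (ST.br (nat_lit 0) (nat_lit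 1) (nat_lit 7) (ST.br (nat_lit 1) (nat_lit 3) (nat_lit 7) (ST.br (nat_lit 1) (nat_lit 6) (nat_lit 7) (ST.br (nat_lit 2) (nat_lit 5) (nat_lit 7) (ST.leaf (nat_lit 2) (nat_lit 0) (nat_lit 6) (nat_lit 5) (nat_lit 7)) (ST.br (nat_lit 5) (nat_lit 6) (nat_lit 8) (ST.leaf (nat_lit 5) (nat_lit 0) (nat_lit 2) (nat_lit 8) (nat_lit 6)) (ST.br (nat_lit 3) (nat_lit 6) (nat_lit 8) (ST.leaf (nat_lit 8) (nat_lit 0) (nat_lit 3) (nat_lit 6) (nat_lit 5)) (ST.br (nat_lit 5) (nat_lit 7) (nat_lit 8) (ST.leaf (nat_lit 5) (nat_lit 0) (nat_lit 2) (nat_lit 8) (nat_lit 7)) (ST.br (nat_lit 0) (nat_lit 7) (nat_lit 8) (ST.br (nat_lit 6) (nat_lit 7) (nat_lit 8) (ST.leaf (nat_lit 7) (nat_lit 0) (nat_lit 1) (nat_lit 8) (nat_lit 6)) (ST.leaf (nat_lit 8) (nat_lit 0) (nat_lit 3) (nat_lit 7) (nat_lit 6))) (ST.leaf (nat_lit 7) (nat_lit 0)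 (nat_lit 1) (nat_lit 5) (nat_lit 8))))))) (ST.leaf (nat_lit 1) (nat_lit 0) (nat_lit 3) (nat_lit 6) (nat_lit 7))) (ST.leaf (nat_lit 1) (nat_lit 0) (nat_lit 3) (nat_lit 7) (nat_lit 4))) (ST.leaf (nat_lit 0) (nat_lit 1) (nat_lit 3) (nat_lit 7) (nat_lit 2)))))) (ST.leaf (nat_lit 1) (nat_lit 0) (nat_lit 4) (nat_lit 5) (nat_lit 7))) (ST.leaf (nat_lit 1) (nat_lit 0) (nat_lit 4) (nat_lit 5) (nat_lit 3))) (ST.leaf (nat_lit 0) (nat_lit 1) (nat_lit 3) (nat_lit 8) (nat_lit 5)))) (ST.br (nat_lit 0) (nat_lit 2) (nat_lit 5) (ST.br (nat_lit 0) (nat_lit 5) (nat_lit 8) (ST.leaf (nat_lit 0) (nat_lit 1) (nat_lit 3) (nat_lit 5) (nat_lit 8)) (ST.br (nat_lit 1) (nat_lit 3) (nat_lit 4) (ST.leaf (nat_lit 1) (nat_lit 0) (nat_lit 4) (nat_lit 5) (nat_lit 3)) (ST.br (nat_lit 1) (nat_lit 5) (nat_lit 7) (ST.leaf (nat_lit 1) (nat_lit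 0) (nat_lit 4) (nat_lit 7) (nat_lit 5)) (ST.br (nat_lit 2) (nat_lit 5) (nat_lit 6) (ST.br (nat_lit 5) (nat_lit 6) (nat_lit 8) (ST.br (nat_lit 3) (nat_lit 6) (nat_lit 8) (ST.leaf (nat_lit 8) (nat_lit 0) (nat_lit 3) (nat_lit 5) (nat_lit 6)) (ST.br (nat_lit 0) (nat_lit 1) (nat_lit 7) (ST.br (nat_lit 0) (nat_lit 2) (nat_lit 7) (ST.leaf (nat_lit 0) (nat_lit 1) (nat_lit 3) (nat_lit 2) (nat_lit 7)) (ST.br (nat_lit 2) (nat_lit 3) (nat_lit 6) (ST.leaf (nat_lit 2) (nat_lit 0) (nat_lit 6) (nat_lit 7) (nat_lit 3)) (ST.br (nat_lit 2) (nat_lit 5) (nat_lit 7) (ST.br (nat_lit 5) (nat_lit 7) (nat_lit 8) (ST.br (nat_lit 0) (nat_lit 7) (nat_lit 8) (ST.br (nat_lit 0) (nat_lit 4) (nat_lit 8) (ST.br (nat_lit 6) (nat_lit 7) (nat_lit 8) (ST.br (nat_lit 1) (nat_lit 6) (nat_lit 7) (ST.leaf (nat_lit 7) (nat_lit 0) (nat_lit 1)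 (nat_lit 8) (nat_lit 6)) (ST.br (nat_lit 0) (nat_lit 1) (nat_lit 8) (ST.br (nat_lit 0) (nat_lit 3) (nat_lit 6) (ST.br (nat_lit 0) (nat_lit 4) (nat_lit 6) (ST.br (nat_lit 0) (nat_lit 6) (nat_lit 7) (ST.leaf (nat_lit 0) (nat_lit 1) (nat_lit 4) (nat_lit 6)
  (nat_lit 7)) (ST.br (nat_lit 1) (nat_lit 2) (nat_lit 6) (ST.leaf (nat_lit 6) (nat_lit 0) (nat_lit 2) (nat_lit 7) (nat_lit 1)) (ST.leaf (nat_lit 6) (nat_lit 0) (nat_lit 1) (nat_lit 3) (nat_lit 2)))) (ST.leaf (nat_lit 0) (nat_lit 1) (nat_lit 6) (nat_lit 4) (nat_lit 8))) (ST.leaf (nat_lit 0) (nat_lit 1) (nat_lit 6) (nat_lit 3) (nat_lit 8))) (ST.br (nat_lit 0) (nat_lit 3) (nat_lit 6) (ST.leaf (nat_lit 0) (nat_lit 1) (nat_lit 6) (nat_lit 3) (nat_lit 8)) (ST.br (nat_lit 0) (nat_lit 4) (nat_lit 6) (ST.leaf (nat_lit 0) (nat_lit 1) (nat_lit 6) (nat_lit 4) (nat_lit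 8)) (ST.br (nat_lit 0) (nat_lit 6) (nat_lit 7) (ST.br (nat_lit 1) (nat_lit 2) (nat_lit 6) (ST.leaf (nat_lit 6) (nat_lit 0) (nat_lit 1) (nat_lit 3) (nat_lit 2)) (ST.leaf (nat_lit 6) (nat_lit 0) (nat_lit 2) (nat_lit 7) (nat_lit 1))) (ST.leaf (nat_lit 0) (nat_lit 1) (nat_lit 4) (nat_lit 7) (nat_lit 6))))))) (ST.leaf (nat_lit 8) (nat_lit 0) (nat_lit 3) (nat_lit 7) (nat_lit 6))) (ST.leaf (nat_lit 0) (nat_lit 1) (nat_lit 4) (nat_lit 7) (nat_lit 8))) (ST.leaf (nat_lit 7) (nat_lit 0) (nat_lit 1) (nat_lit 8) (nat_lit 5))) (ST.leaf (nat_lit 5) (nat_lit 0) (nat_lit 2) (nat_lit 8) (nat_lit 7))) (ST.leaf (nat_lit 2) (nat_lit 0) (nat_lit 3) (nat_lit 7) (nat_lit 5))))) (ST.br (nat_lit 0) (nat_lit 2) (nat_lit 7) (ST.br (nat_lit 2) (nat_lit 3) (nat_lit 6) (ST.br (nat_lit 2) (nat_lit 5) (nat_lit 7) (ST.leaf (nat_lit 2)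 (nat_lit 0) (nat_lit 6) (nat_lit 5) (nat_lit 7)) (ST.br (nat_lit 5) (nat_lit 7) (nat_lit 8) (ST.leaf (nat_lit 5) (nat_lit 0) (nat_lit 2) (nat_lit 7) (nat_lit 8)) (ST.br (nat_lit 0) (nat_lit 7) (nat_lit 8) (ST.br (nat_lit 0) (nat_lit 4) (nat_lit 8) (ST.leaf (nat_lit 0) (nat_lit 1) (nat_lit 4) (nat_lit 7) (nat_lit 8)) (ST.br (nat_lit 0) (nat_lit 1) (nat_lit 8) (ST.br (nat_lit 0) (nat_lit 3) (nat_lit 4) (ST.br (nat_lit 0) (nat_lit 3) (nat_lit 6) (ST.br (nat_lit 1) (nat_lit 2) (nat_lit 3) (ST.leaf (nat_lit 3) (nat_lit 0) (nat_lit 1) (nat_lit 6) (nat_lit 2)) (ST.leaf (nat_lit 3) (nat_lit 0) (nat_lit 2) (nat_lit 4) (nat_lit 1))) (ST.leaf (nat_lit 0) (nat_lit 1) (nat_lit 6) (nat_lit 3) (nat_lit 8))) (ST.leaf (nat_lit 0) (nat_lit 1) (nat_lit 3) (nat_lit 8) (nat_lit 4))) (ST.br (nat_lit 0) (nat_lit 3) (nat_lit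 4) (ST.leaf (nat_lit 0) (nat_lit 1) (nat_lit 3) (nat_lit 8) (nat_lit 4)) (ST.br (nat_lit 0) (nat_lit 3) (nat_lit 6) (ST.leaf (nat_lit 0) (nat_lit 1) (nat_lit 6) (nat_lit 3) (nat_lit 8)) (ST.br (nat_lit 1) (nat_lit 2) (nat_lit 3) (ST.leaf (nat_lit 3) (nat_lit 0) (nat_lit 2) (nat_lit 4) (nat_lit 1)) (ST.leaf (nat_lit 3) (nat_lit 0) (nat_lit 1) (nat_lit 6) (nat_lit 2))))))) (ST.leaf (nat_lit 7) (nat_lit 0) (nat_lit 1) (nat_lit 8) (nat_lit 5))))) (ST.leaf (nat_lit 2) (nat_lit 0) (nat_lit 6) (nat_lit 7) (nat_lit 3))) (ST.leaf (nat_lit 0) (nat_lit 1) (nat_lit 3) (nat_lit 7) (nat_lit 2))))) (ST.leaf (nat_lit 5) (nat_lit 0) (nat_lit 2) (nat_lit 8) (nat_lit 6))) (ST.br (nat_lit 2) (nat_lit 3) (nat_lit 6) (ST.br (nat_lit 0) (nat_lit 2) (nat_lit 7) (ST.br (nat_lit 0) (nat_lit 1) (nat_lit 7) (ST.leaf (nat_lit 0)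 (nat_lit 1) (nat_lit 3) (nat_lit 2) (nat_lit 7)) (ST.br (nat_lit 1) (nat_lit 3) (nat_lit 7) (ST.br (nat_lit 1) (nat_lit 6) (nat_lit 7) (ST.br (nat_lit 2) (nat_lit 5) (nat_lit 7) (ST.br (nat_lit 5) (nat_lit 6) (nat_lit 8) (ST.leaf (nat_lit 5) (nat_lit 0) (nat_lit 2) (nat_lit 6) (nat_lit 8)) (ST.br (nat_lit 3) (nat_lit 6) (nat_lit 8) (ST.br (nat_lit 5) (nat_lit 7) (nat_lit 8) (ST.br (nat_lit 0) (nat_lit 7) (nat_lit 8) (ST.leaf (nat_lit 7) (nat_lit 0) (nat_lit 1) (nat_lit 5) (nat_lit 8)) (ST.br (nat_lit 6) (nat_lit 7) (nat_lit 8) (ST.leaf (nat_lit 7) (nat_lit 0) (nat_lit 1) (nat_lit 6) (nat_lit 8)) (ST.leaf (nat_lit 8) (nat_lit 0) (nat_lit 3) (nat_lit 7) (nat_lit 6)))) (ST.leaf (nat_lit 5) (nat_lit 0) (nat_lit 2) (nat_lit 8) (nat_lit 7))) (ST.leaf (nat_lit 8) (nat_lit 0) (nat_lit 3) (nat_lit 6) (nat_lit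 5)))) (ST.leaf (nat_lit 2) (nat_lit 0) (nat_lit 6) (nat_lit 7) (nat_lit 5))) (ST.leaf (nat_lit 1) (nat_lit 0) (nat_lit 3) (nat_lit 6) (nat_lit 7))) (ST.leaf (nat_lit 1) (nat_lit 0)
  (nat_lit 3) (nat_lit 7) (nat_lit 4)))) (ST.leaf (nat_lit 2) (nat_lit 0) (nat_lit 6) (nat_lit 7) (nat_lit 3))) (ST.leaf (nat_lit 2) (nat_lit 0) (nat_lit 3) (nat_lit 6) (nat_lit 5))))))) (ST.leaf (nat_lit 0) (nat_lit 1) (nat_lit 3) (nat_lit 5) (nat_lit 2))))))))))))))))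

theorem pat3_ok : patV pat3 tree3 = true := by decide +kernel

def pat4 : Pat := Pat.mk (nat_lit 10) (List.cons (nat_lit 26) (List.cons (nat_lit 84) (List.cons (nat_lit 44) (List.cons (nat_lit 772) (List.cons (nat_lit 290) (List.cons (nat_lit 521) (List.cons (nat_lit 97) (List.cons (nat_lit 642) (List.cons (nat_lit 145) (List.cons (nat_lit 7) (List.cons (nat_lit 456) List.nil)))))))))))

noncomputable def tree4 : ST :=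
  (ST.flip (nat_lit 1) (nat_lit 3) (nat_lit 0) (ST.flip (nat_lit 0) (nat_lit 3) (nat_lit 2) (ST.flip (nat_lit 0) (nat_lit 1) (nat_lit 4) (ST.br (nat_lit 0) (nat_lit 2) (nat_lit 4) (ST.leaf (nat_lit 0) (nat_lit 1) (nat_lit 3) (nat_lit 2) (nat_lit 4)) (ST.flip (nat_lit 1) (nat_lit 3) (nat_lit 7) (ST.br (nat_lit 1) (nat_lit 4) (nat_lit 7) (ST.br (nat_lit 2) (nat_lit 4) (nat_lit 7) (ST.leaf (nat_lit 4) (nat_lit 0) (nat_lit 1) (nat_lit 7) (nat_lit 2)) (ST.flip (nat_lit 0) (nat_lit 1) (nat_lit 6) (ST.br (nat_lit 0) (nat_lit 2) (nat_lit 6) (ST.leaf (nat_lit 0) (nat_lit 1) (nat_lit 3) (nat_lit 2) (nat_lit 6)) (ST.br (nat_lit 2) (nat_lit 6) (nat_lit 7) (ST.leaf (nat_lit 2) (nat_lit 0) (nat_lit 4) (nat_lit 6) (nat_lit 7)) (ST.flip (nat_lit 1) (nat_lit 6) (nat_lit 5) (ST.br (nat_lit 2) (nat_lit 5) (nat_lit 6) (ST.br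 (nat_lit 2) (nat_lit 4) (nat_lit 5) (ST.leaf (nat_lit 2) (nat_lit 0) (nat_lit 4) (nat_lit 5) (nat_lit 6)) (ST.flip (nat_lit 0) (nat_lit 4) (nat_lit 9) (ST.br (nat_lit 4) (nat_lit 7) (nat_lit 9) (ST.leaf (nat_lit 4) (nat_lit 0) (nat_lit 1) (nat_lit 7) (nat_lit 9)) (ST.br (nat_lit 3) (nat_lit 7) (nat_lit 9) (ST.leaf (nat_lit 7) (nat_lit 1) (nat_lit 3) (nat_lit 4) (nat_lit 9)) (ST.flip (nat_lit 1) (nat_lit 3) (nat_lit 8) (ST.br (nat_lit 3) (nat_lit 8) (nat_lit 9) (ST.leaf (nat_lit 3) (nat_lit 1) (nat_lit 7) (nat_lit 9) (nat_lit 8)) (ST.br (nat_lit 0) (nat_lit 1) (nat_lit 7) (ST.br (nat_lit 0) (nat_lit 2) (nat_lit 7) (ST.leaf (nat_lit 0) (nat_lit 1) (nat_lit 3) (nat_lit 2) (nat_lit 7)) (ST.br (nat_lit 0) (nat_lit 7) (nat_lit 9) (ST.br (nat_lit 0) (nat_lit 8) (nat_lit 9) (ST.br (nat_lit 3) (nat_lit 4) (nat_lit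 9) (ST.leaf (nat_lit 9) (nat_lit 0) (nat_lit 4) (nat_lit 7) (nat_lit 3)) (ST.br (nat_lit 0) (nat_lit 1) (nat_lit 8) (ST.br (nat_lit 0) (nat_lit 2) (nat_lit 8) (ST.leaf (nat_lit 0) (nat_lit 1) (nat_lit 3) (nat_lit 2) (nat_lit 8)) (ST.br (nat_lit 2) (nat_lit 3) (nat_lit 8) (ST.leaf (nat_lit 8) (nat_lit 0) (nat_lit 2) (nat_lit 9) (nat_lit 3)) (ST.br (nat_lit 2) (nat_lit 3) (nat_lit 7) (ST.leaf (nat_lit 3) (nat_lit 1) (nat_lit 7) (nat_lit 8) (nat_lit 2)) (ST.br (nat_lit 1) (nat_lit 6) (nat_lit 7) (ST.br (nat_lit 1) (nat_lit 7) (nat_lit 8) (ST.br (nat_lit 1) (nat_lit 6) (nat_lit 8) (ST.br (nat_lit 0) (nat_lit 1) (nat_lit 5) (ST.br (nat_lit 0) (nat_lit 2) (nat_lit 5) (ST.leaf (nat_lit 0) (nat_lit 1) (nat_lit 3) (nat_lit 2) (nat_lit 5)) (ST.br (nat_lit 1) (nat_lit 5) (nat_lit 7) (ST.leaf (nat_lit 1) (nat_lit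 0) (nat_lit 5) (nat_lit 8) (nat_lit 7)) (ST.br (nat_lit 2) (nat_lit 3) (nat_lit 4) (ST.br (nat_lit 2) (nat_lit 3) (nat_lit 6) (ST.br (nat_lit 1) (nat_lit 3) (nat_lit 6) (ST.leaf (nat_lit 3) (nat_lit 1) (nat_lit 6) (nat_lit 7) (nat_lit 2)) (ST.br (nat_lit 2) (nat_lit 5) (nat_lit 8) (ST.leaf (nat_lit 2) (nat_lit 0) (nat_lit 3) (nat_lit 5) (nat_lit 8)) (ST.br (nat_lit 3) (nat_lit 6) (nat_lit 9) (ST.br (nat_lit 0) (nat_lit 6) (nat_lit 9) (ST.leaf (nat_lit 9) (nat_lit 0) (nat_lit 4) (nat_lit 3) (nat_lit 6)) (ST.br (nat_lit 0) (nat_lit 5) (nat_lit 9) (ST.leaf (nat_lit 0) (nat_lit 1) (nat_lit 5) (nat_lit 9) (nat_lit 6)) (ST.br (nat_lit 5) (nat_lit 7) (nat_lit 9) (ST.br (nat_lit 5) (nat_lit 8) (nat_lit 9) (ST.leaf (nat_lit 8) (nat_lit 0) (nat_lit 2) (nat_lit 5) (nat_lit 9)) (ST.br (nat_lit 7) (nat_lit 8) (nat_lit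 9) (ST.leaf (nat_lit 7) (nat_lit 0) (nat_lit 1) (nat_lit 8) (nat_lit 9)) (ST.leaf (nat_lit 9) (nat_lit 0) (nat_lit 5) (nat_lit 7) (nat_lit 8)))) (ST.leaf (nat_lit 7) (nat_lit 0) (nat_lit 1) (nat_lit 5) (nat_lit 9))))) (ST.leaf (nat_lit 3) (nat_lit 1) (nat_lit 6) (nat_lit 9) (nat_lit 7))))) (ST.leaf (nat_lit 2) (nat_lit 0) (nat_lit 4) (nat_lit 6) (nat_lit 3))) (ST.leaf (nat_lit 2) (nat_lit 0) (nat_lit 3) (nat_lit 5) (nat_lit 4))))) (ST.leaf (nat_lit 1) (nat_lit 0) (nat_lit 5) (nat_lit 6) (nat_lit 8))) (ST.leaf (nat_lit 1) (nat_lit 0) (nat_lit 6) (nat_lit 8) (nat_lit 7))) (ST.br (nat_lit 0) (nat_lit 1) (nat_lit 9) (ST.br (nat_lit 0) (nat_lit 3) (nat_lit 4) (ST.leaf (nat_lit 0) (nat_lit 1) (nat_lit 3) (nat_lit 4) (nat_lit 9))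
  (ST.br (nat_lit 0) (nat_lit 3) (nat_lit 7) (ST.leaf (nat_lit 0) (nat_lit 1) (nat_lit 4) (nat_lit 3) (nat_lit 7)) (ST.br (nat_lit 0) (nat_lit 6) (nat_lit 7) (ST.leaf (nat_lit 7) (nat_lit 0) (nat_lit 3) (nat_lit 6) (nat_lit 1)) (ST.br (nat_lit 0) (nat_lit 4) (nat_lit 6) (ST.br (nat_lit 1) (nat_lit 8) (nat_lit 9) (ST.br (nat_lit 1) (nat_lit 2) (nat_lit 8) (ST.leaf (nat_lit 8) (nat_lit 0) (nat_lit 2) (nat_lit 1) (nat_lit 9)) (ST.br (nat_lit 1) (nat_lit 2) (nat_lit 3) (ST.leaf (nat_lit 1) (nat_lit 0) (nat_lit 3) (nat_lit 2) (nat_lit 8)) (ST.br (nat_lit 1) (nat_lit 2) (nat_lit 4) (ST.leaf (nat_lit 1) (nat_lit 0) (nat_lit 3) (nat_lit 4) (nat_lit 2)) (ST.br (nat_lit 1) (nat_lit 4) (nat_lit 6) (ST.br (nat_lit 1) (nat_lit 3) (nat_lit 6) (ST.br (nat_lit 0) (nat_lit 3) (nat_lit 6) (ST.leaf (nat_lit 3) (nat_lit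 0) (nat_lit 6) (nat_lit 1) (nat_lit 7)) (ST.br (nat_lit 2) (nat_lit 3) (nat_lit 4) (ST.leaf (nat_lit 3) (nat_lit 0) (nat_lit 1) (nat_lit 4) (nat_lit 2)) (ST.br (nat_lit 0) (nat_lit 2) (nat_lit 5) (ST.br (nat_lit 0) (nat_lit 1) (nat_lit 5) (ST.leaf (nat_lit 0) (nat_lit 1) (nat_lit 3) (nat_lit 2) (nat_lit 5)) (ST.br (nat_lit 0) (nat_lit 3) (nat_lit 5) (ST.br (nat_lit 1) (nat_lit 3) (nat_lit 5) (ST.leaf (nat_lit 1) (nat_lit 0) (nat_lit 5) (nat_lit 3) (nat_lit 8)) (ST.leaf (nat_lit 3) (nat_lit 0) (nat_lit 2) (nat_lit 5) (nat_lit 1))) (ST.leaf (nat_lit 0) (nat_lit 1) (nat_lit 5) (nat_lit 3) (nat_lit 6)))) (ST.leaf (nat_lit 2) (nat_lit 0) (nat_lit 3) (nat_lit 5) (nat_lit 4))))) (ST.leaf (nat_lit 1) (nat_lit 0) (nat_lit 3) (nat_lit 6) (nat_lit 4))) (ST.leaf (nat_lit 4) (nat_lit 0) (nat_lit 2) (nat_lit 6) (nat_lit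 1)))))) (ST.leaf (nat_lit 1) (nat_lit 0) (nat_lit 7) (nat_lit 8) (nat_lit 9))) (ST.leaf (nat_lit 0) (nat_lit 1) (nat_lit 4) (nat_lit 7) (nat_lit 6)))))) (ST.br (nat_lit 0) (nat_lit 3) (nat_lit 4) (ST.br (nat_lit 0) (nat_lit 3) (nat_lit 7) (ST.br (nat_lit 0) (nat_lit 6) (nat_lit 7) (ST.br (nat_lit 0) (nat_lit 4) (nat_lit 6) (ST.leaf (nat_lit 0) (nat_lit 1) (nat_lit 4) (nat_lit 6) (nat_lit 7)) (ST.br (nat_lit 1) (nat_lit 8) (nat_lit 9) (ST.leaf (nat_lit 1) (nat_lit 0) (nat_lit 7) (nat_lit 9) (nat_lit 8)) (ST.br (nat_lit 1) (nat_lit 2) (nat_lit 8) (ST.br (nat_lit 1) (nat_lit 2) (nat_lit 3) (ST.br (nat_lit 1) (nat_lit 2) (nat_lit 4) (ST.br (nat_lit 1) (nat_lit 4) (nat_lit 6) (ST.br (nat_lit 1) (nat_lit 3) (nat_lit 6) (ST.br (nat_lit 0) (nat_lit 3) (nat_lit 6) (ST.br (nat_lit 2) (nat_lit 3) (nat_lit 4) (ST.leaf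 (nat_lit 3) (nat_lit 0) (nat_lit 1) (nat_lit 4) (nat_lit 2)) (ST.br (nat_lit 0) (nat_lit 2) (nat_lit 5) (ST.br (nat_lit 0) (nat_lit 1) (nat_lit 5) (ST.leaf (nat_lit 0) (nat_lit 1) (nat_lit 3) (nat_lit 2) (nat_lit 5)) (ST.br (nat_lit 0) (nat_lit 3) (nat_lit 5) (ST.leaf (nat_lit 0) (nat_lit 1) (nat_lit 5) (nat_lit 6) (nat_lit 3)) (ST.br (nat_lit 1) (nat_lit 3) (nat_lit 5) (ST.leaf (nat_lit 1) (nat_lit 0) (nat_lit 5) (nat_lit 3) (nat_lit 8)) (ST.leaf (nat_lit 3) (nat_lit 0) (nat_lit 2) (nat_lit 5) (nat_lit 1))))) (ST.leaf (nat_lit 2) (nat_lit 0) (nat_lit 3) (nat_lit 5) (nat_lit 4)))) (ST.leaf (nat_lit 3) (nat_lit 0) (nat_lit 6) (nat_lit 7) (nat_lit 1))) (ST.leaf (nat_lit 1) (nat_lit 0) (nat_lit 3) (nat_lit 6) (nat_lit 4))) (ST.leaf (nat_lit 4) (nat_lit 0) (nat_lit 2) (nat_lit 6) (nat_lit 1))) (ST.leaf (nat_lit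 1) (nat_lit 0) (nat_lit 3) (nat_lit 2) (nat_lit 4))) (ST.leaf (nat_lit 1) (nat_lit 0) (nat_lit 3) (nat_lit 8) (nat_lit 2))) (ST.leaf (nat_lit 8) (nat_lit 0) (nat_lit 2) (nat_lit 9) (nat_lit 1))))) (ST.leaf (nat_lit 7) (nat_lit 0) (nat_lit 3) (nat_lit 1) (nat_lit 6))) (ST.leaf (nat_lit 0) (nat_lit 1) (nat_lit 4) (nat_lit 7) (nat_lit 3))) (ST.leaf (nat_lit 0) (nat_lit 1) (nat_lit 3) (nat_lit 4) (nat_lit 9))))) (ST.leaf (nat_lit 7) (nat_lit 1) (nat_lit 3) (nat_lit 6) (nat_lit 2)))))) (ST.br (nat_lit 0) (nat_lit 2) (nat_lit 8) (ST.br (nat_lit 2) (nat_lit 3) (nat_lit 8) (ST.br (nat_lit 2) (nat_lit 3) (nat_lit 7) (ST.br (nat_lit 1) (nat_lit 6) (nat_lit 7) (ST.leaf (nat_lit 7) (nat_lit 1) (nat_lit 3) (nat_lit 6) (nat_lit 2))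
  (ST.br (nat_lit 1) (nat_lit 3) (nat_lit 6) (ST.br (nat_lit 1) (nat_lit 6) (nat_lit 8) (ST.br (nat_lit 0) (nat_lit 1) (nat_lit 5) (ST.leaf (nat_lit 1) (nat_lit 0) (nat_lit 5) (nat_lit 8) (nat_lit 6)) (ST.br (nat_lit 0) (nat_lit 2) (nat_lit 5) (ST.br (nat_lit 2) (nat_lit 3) (nat_lit 4) (ST.leaf (nat_lit 2) (nat_lit 0) (nat_lit 3) (nat_lit 5) (nat_lit 4)) (ST.leaf (nat_lit 2) (nat_lit 0) (nat_lit 3) (nat_lit 7) (nat_lit 4))) (ST.leaf (nat_lit 0) (nat_lit 1) (nat_lit 3) (nat_lit 5) (nat_lit 2)))) (ST.leaf (nat_lit 1) (nat_lit 0) (nat_lit 3) (nat_lit 6) (nat_lit 8))) (ST.leaf (nat_lit 1) (nat_lit 0) (nat_lit 3) (nat_lit 6) (nat_lit 7)))) (ST.leaf (nat_lit 3) (nat_lit 1) (nat_lit 7) (nat_lit 2) (nat_lit 8))) (ST.leaf (nat_lit 8) (nat_lit 0) (nat_lit 2) (nat_lit 3) (nat_lit 9))) (ST.leaf (nat_lit 0) (nat_lit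 1) (nat_lit 3) (nat_lit 8) (nat_lit 2))))) (ST.leaf (nat_lit 9) (nat_lit 0) (nat_lit 7) (nat_lit 8) (nat_lit 3))) (ST.leaf (nat_lit 0) (nat_lit 1) (nat_lit 4) (nat_lit 9) (nat_lit 7)))) (ST.br (nat_lit 0) (nat_lit 2) (nat_lit 7) (ST.br (nat_lit 0) (nat_lit 7) (nat_lit 9) (ST.leaf (nat_lit 0) (nat_lit 1) (nat_lit 4) (nat_lit 7) (nat_lit 9)) (ST.br (nat_lit 0) (nat_lit 8) (nat_lit 9) (ST.leaf (nat_lit 9) (nat_lit 0) (nat_lit 7) (nat_lit 3) (nat_lit 8)) (ST.br (nat_lit 3) (nat_lit 4) (nat_lit 9) (ST.br (nat_lit 0) (nat_lit 1) (nat_lit 8) (ST.br (nat_lit 0) (nat_lit 2) (nat_lit 8) (ST.leaf (nat_lit 0) (nat_lit 1) (nat_lit 3) (nat_lit 2) (nat_lit 8)) (ST.br (nat_lit 2) (nat_lit 3) (nat_lit 8) (ST.br (nat_lit 2) (nat_lit 3) (nat_lit 7) (ST.br (nat_lit 1) (nat_lit 6) (nat_lit 7) (ST.leaf (nat_lit 7) (nat_lit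 1) (nat_lit 3) (nat_lit 6) (nat_lit 2)) (ST.br (nat_lit 1) (nat_lit 3) (nat_lit 6) (ST.leaf (nat_lit 1) (nat_lit 0) (nat_lit 3) (nat_lit 6) (nat_lit 7)) (ST.br (nat_lit 1) (nat_lit 6) (nat_lit 8) (ST.br (nat_lit 0) (nat_lit 1) (nat_lit 5) (ST.br (nat_lit 0) (nat_lit 2) (nat_lit 5) (ST.leaf (nat_lit 0) (nat_lit 1) (nat_lit 3) (nat_lit 2) (nat_lit 5)) (ST.br (nat_lit 2) (nat_lit 3) (nat_lit 4) (ST.leaf (nat_lit 2) (nat_lit 0) (nat_lit 3) (nat_lit 7) (nat_lit 4)) (ST.leaf (nat_lit 2) (nat_lit 0) (nat_lit 3) (nat_lit 5) (nat_lit 4)))) (ST.leaf (nat_lit 1) (nat_lit 0) (nat_lit 5) (nat_lit 6) (nat_lit 8))) (ST.leaf (nat_lit 1) (nat_lit 0) (nat_lit 3) (nat_lit 6) (nat_lit 8))))) (ST.leaf (nat_lit 3) (nat_lit 1) (nat_lit 7) (nat_lit 2) (nat_lit 8))) (ST.leaf (nat_lit 8) (nat_lit 0) (nat_lit 2) (nat_lit 9) (nat_lit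 3)))) (ST.br (nat_lit 0) (nat_lit 2) (nat_lit 8) (ST.br (nat_lit 2) (nat_lit 3) (nat_lit 8) (ST.leaf (nat_lit 8) (nat_lit 0) (nat_lit 2) (nat_lit 3) (nat_lit 9)) (ST.br (nat_lit 2) (nat_lit 3) (nat_lit 7) (ST.leaf (nat_lit 3) (nat_lit 1) (nat_lit 7) (nat_lit 8) (nat_lit 2)) (ST.br (nat_lit 1) (nat_lit 6) (nat_lit 7) (ST.br (nat_lit 1) (nat_lit 7) (nat_lit 8) (ST.br (nat_lit 0) (nat_lit 1) (nat_lit 9) (ST.br (nat_lit 0) (nat_lit 3) (nat_lit 4) (ST.leaf (nat_lit 0) (nat_lit 1) (nat_lit 3) (nat_lit 4) (nat_lit 9)) (ST.br (nat_lit 0) (nat_lit 3) (nat_lit 7) (ST.br (nat_lit 0) (nat_lit 6) (nat_lit 7) (ST.br (nat_lit 0) (nat_lit 4) (nat_lit 6) (ST.br (nat_lit 1) (nat_lit 8) (nat_lit 9) (ST.br (nat_lit 1) (nat_lit 2) (nat_lit 8) (ST.leaf (nat_lit 8) (nat_lit 0) (nat_lit 2) (nat_lit 9) (nat_lit 1)) (ST.br (nat_lit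 1) (nat_lit 2) (nat_lit 3) (ST.br (nat_lit 1) (nat_lit 2) (nat_lit 4) (ST.br (nat_lit 1) (nat_lit 4) (nat_lit 6) (ST.leaf (nat_lit 4) (nat_lit 0) (nat_lit 2) (nat_lit 1) (nat_lit 6)) (ST.br (nat_lit 1) (nat_lit 3) (nat_lit 6) (ST.leaf (nat_lit 1) (nat_lit 0) (nat_lit 3) (nat_lit 4) (nat_lit 6)) (ST.br (nat_lit 0) (nat_lit 3) (nat_lit 6) (ST.leaf (nat_lit 3) (nat_lit 0) (nat_lit 6) (nat_lit 1) (nat_lit 7)) (ST.br (nat_lit 2) (nat_lit 3) (nat_lit 4) (ST.br (nat_lit 0) (nat_lit 2) (nat_lit 5) (ST.leaf (nat_lit 2) (nat_lit 0) (nat_lit 3) (nat_lit 5) (nat_lit 4)) (ST.br (nat_lit 0) (nat_lit 1) (nat_lit 5) (ST.br (nat_lit 0) (nat_lit 3) (nat_lit 5) (ST.leaf (nat_lit 0) (nat_lit 1) (nat_lit 5) (nat_lit 6) (nat_lit 3)) (ST.br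
  (nat_lit 1) (nat_lit 3) (nat_lit 5) (ST.leaf (nat_lit 1) (nat_lit 0) (nat_lit 5) (nat_lit 8) (nat_lit 3)) (ST.leaf (nat_lit 3) (nat_lit 0) (nat_lit 2) (nat_lit 5) (nat_lit 1)))) (ST.leaf (nat_lit 0) (nat_lit 1) (nat_lit 3) (nat_lit 5) (nat_lit 2)))) (ST.leaf (nat_lit 3) (nat_lit 0) (nat_lit 1) (nat_lit 2) (nat_lit 4)))))) (ST.leaf (nat_lit 1) (nat_lit 0) (nat_lit 3) (nat_lit 2) (nat_lit 4))) (ST.leaf (nat_lit 1) (nat_lit 0) (nat_lit 3) (nat_lit 2) (nat_lit 8)))) (ST.leaf (nat_lit 1) (nat_lit 0) (nat_lit 7) (nat_lit 9) (nat_lit 8))) (ST.leaf (nat_lit 0) (nat_lit 1) (nat_lit 4) (nat_lit 6) (nat_lit 7))) (ST.leaf (nat_lit 7) (nat_lit 0) (nat_lit 3) (nat_lit 1) (nat_lit 6))) (ST.leaf (nat_lit 0) (nat_lit 1) (nat_lit 4) (nat_lit 7) (nat_lit 3)))) (ST.br (nat_lit 0) (nat_lit 3) (nat_lit 4) (ST.br (nat_lit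 0) (nat_lit 3) (nat_lit 7) (ST.leaf (nat_lit 0) (nat_lit 1) (nat_lit 4) (nat_lit 3) (nat_lit 7)) (ST.br (nat_lit 0) (nat_lit 6) (nat_lit 7) (ST.leaf (nat_lit 7) (nat_lit 0) (nat_lit 3) (nat_lit 6) (nat_lit 1)) (ST.br (nat_lit 0) (nat_lit 4) (nat_lit 6) (ST.leaf (nat_lit 0) (nat_lit 1) (nat_lit 4) (nat_lit 7) (nat_lit 6)) (ST.br (nat_lit 1) (nat_lit 8) (nat_lit 9) (ST.leaf (nat_lit 1) (nat_lit 0) (nat_lit 7) (nat_lit 8) (nat_lit 9)) (ST.br (nat_lit 1) (nat_lit 2) (nat_lit 8) (ST.br (nat_lit 1) (nat_lit 2) (nat_lit 3) (ST.leaf (nat_lit 1) (nat_lit 0) (nat_lit 3) (nat_lit 8) (nat_lit 2)) (ST.br (nat_lit 1) (nat_lit 2) (nat_lit 4) (ST.leaf (nat_lit 1) (nat_lit 0) (nat_lit 3) (nat_lit 4) (nat_lit 2)) (ST.br (nat_lit 1) (nat_lit 4) (nat_lit 6) (ST.leaf (nat_lit 4) (nat_lit 0) (nat_lit 2) (nat_lit 1) (nat_lit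 6)) (ST.br (nat_lit 1) (nat_lit 3) (nat_lit 6) (ST.leaf (nat_lit 1) (nat_lit 0) (nat_lit 3) (nat_lit 4) (nat_lit 6)) (ST.br (nat_lit 0) (nat_lit 3) (nat_lit 6) (ST.br (nat_lit 2) (nat_lit 3) (nat_lit 4) (ST.br (nat_lit 0) (nat_lit 2) (nat_lit 5) (ST.leaf (nat_lit 2) (nat_lit 0) (nat_lit 3) (nat_lit 5) (nat_lit 4)) (ST.br (nat_lit 0) (nat_lit 1) (nat_lit 5) (ST.br (nat_lit 0) (nat_lit 3) (nat_lit 5) (ST.br (nat_lit 1) (nat_lit 3) (nat_lit 5) (ST.leaf (nat_lit 1) (nat_lit 0) (nat_lit 5) (nat_lit 8) (nat_lit 3)) (ST.leaf (nat_lit 3) (nat_lit 0) (nat_lit 2) (nat_lit 5) (nat_lit 1))) (ST.leaf (nat_lit 0) (nat_lit 1) (nat_lit 5) (nat_lit 3) (nat_lit 6))) (ST.leaf (nat_lit 0) (nat_lit 1) (nat_lit 3) (nat_lit 5) (nat_lit 2)))) (ST.leaf (nat_lit 3) (nat_lit 0) (nat_lit 1) (nat_lit 2) (nat_lit 4))) (ST.leaf (nat_lit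 3) (nat_lit 0) (nat_lit 6) (nat_lit 7) (nat_lit 1))))))) (ST.leaf (nat_lit 8) (nat_lit 0) (nat_lit 2) (nat_lit 1) (nat_lit 9))))))) (ST.leaf (nat_lit 0) (nat_lit 1) (nat_lit 3) (nat_lit 4) (nat_lit 9)))) (ST.br (nat_lit 1) (nat_lit 6) (nat_lit 8) (ST.br (nat_lit 0) (nat_lit 1) (nat_lit 5) (ST.leaf (nat_lit 1) (nat_lit 0) (nat_lit 5) (nat_lit 8) (nat_lit 6)) (ST.br (nat_lit 0) (nat_lit 2) (nat_lit 5) (ST.br (nat_lit 1) (nat_lit 5) (nat_lit 7) (ST.br (nat_lit 2) (nat_lit 3) (nat_lit 4) (ST.leaf (nat_lit 2) (nat_lit 0) (nat_lit 3) (nat_lit 5) (nat_lit 4)) (ST.br (nat_lit 2) (nat_lit 3) (nat_lit 6) (ST.leaf (nat_lit 2) (nat_lit 0) (nat_lit 4) (nat_lit 3) (nat_lit 6)) (ST.br (nat_lit 1) (nat_lit 3) (nat_lit 6) (ST.br (nat_lit 2) (nat_lit 5) (nat_lit 8) (ST.br (nat_lit 3) (nat_lit 6) (nat_lit 9) (ST.leaf (nat_lit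 3) (nat_lit 1) (nat_lit 6) (nat_lit 7) (nat_lit 9)) (ST.br (nat_lit 0) (nat_lit 6) (nat_lit 9) (ST.leaf (nat_lit 9) (nat_lit 0) (nat_lit 4) (nat_lit 6) (nat_lit 3)) (ST.br (nat_lit 0) (nat_lit 5) (nat_lit 9) (ST.br (nat_lit 5) (nat_lit 7) (nat_lit 9) (ST.leaf (nat_lit 7) (nat_lit 0) (nat_lit 1) (nat_lit 5) (nat_lit 9)) (ST.br (nat_lit 5) (nat_lit 8) (nat_lit 9) (ST.br (nat_lit 7) (nat_lit 8) (nat_lit 9) (ST.leaf (nat_lit 9) (nat_lit 0) (nat_lit 5) (nat_lit 7) (nat_lit 8)) (ST.leaf (nat_lit 7) (nat_lit 0) (nat_lit 1) (nat_lit 8) (nat_lit 9))) (ST.leaf (nat_lit 8) (nat_lit 0) (nat_lit 2) (nat_lit 5) (nat_lit 9)))) (ST.leaf (nat_lit 0) (nat_lit 1) (nat_lit 5) (nat_lit 6) (nat_lit 9))))) (ST.leaf (nat_lit 2) (nat_lit 0)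
  (nat_lit 3) (nat_lit 8) (nat_lit 5))) (ST.leaf (nat_lit 3) (nat_lit 1) (nat_lit 6) (nat_lit 2) (nat_lit 7))))) (ST.leaf (nat_lit 1) (nat_lit 0) (nat_lit 5) (nat_lit 8) (nat_lit 7))) (ST.leaf (nat_lit 0) (nat_lit 1) (nat_lit 3) (nat_lit 5) (nat_lit 2)))) (ST.leaf (nat_lit 1) (nat_lit 0) (nat_lit 6) (nat_lit 7) (nat_lit 8)))) (ST.leaf (nat_lit 7) (nat_lit 1) (nat_lit 3) (nat_lit 6) (nat_lit 2))))) (ST.leaf (nat_lit 0) (nat_lit 1) (nat_lit 3) (nat_lit 8) (nat_lit 2)))) (ST.leaf (nat_lit 9) (nat_lit 0) (nat_lit 4) (nat_lit 7) (nat_lit 3))))) (ST.leaf (nat_lit 0) (nat_lit 1) (nat_lit 3) (nat_lit 7) (nat_lit 2)))))))))) (ST.leaf (nat_lit 6) (nat_lit 0) (nat_lit 1) (nat_lit 5) (nat_lit 2)))))))) (ST.leaf (nat_lit 1) (nat_lit 0) (nat_lit 3) (nat_lit 4) (nat_lit 7))))))))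

theorem pat4_ok : patV pat4 tree4 = true := by decide +kernel

def pat5 : Pat := Pat.mk (nat_lit 10) (List.cons (nat_lit 290) (List.cons (nat_lit 26) (List.cons (nat_lit 7) (List.cons (nat_lit 49) (List.cons (nat_lit 73) (List.cons (nat_lit 448) (List.cons (nat_lit 769) (List.cons (nat_lit 642) (List.cons (nat_lit 172) (List.cons (nat_lit 596) List.nil))))))))))

noncomputable def tree5 : ST :=
  (ST.flip (nat_lit 1) (nat_lit 3) (nat_lit 0) (ST.flip (nat_lit 0) (nat_lit 3) (nat_lit 2) (ST.flip (nat_lit 0) (nat_lit 1) (nat_lit 4) (ST.br (nat_lit 0) (nat_lit 2) (nat_lit 4) (ST.leaf (nat_lit 0) (nat_lit 1) (nat_lit 3) (nat_lit 2) (nat_lit 4)) (ST.flip (nat_lit 1) (nat_lit 3) (nat_lit 5) (ST.br (nat_lit 1) (nat_lit 4) (nat_lit 5) (ST.br (nat_lit 2) (nat_lit 4) (nat_lit 5) (ST.leaf (nat_lit 4) (nat_lit 0)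 (nat_lit 1) (nat_lit 5) (nat_lit 2)) (ST.flip (nat_lit 0) (nat_lit 1) (nat_lit 6) (ST.br (nat_lit 0) (nat_lit 2) (nat_lit 6) (ST.leaf (nat_lit 0) (nat_lit 1) (nat_lit 3) (nat_lit 2) (nat_lit 6)) (ST.br (nat_lit 2) (nat_lit 5) (nat_lit 6) (ST.flip (nat_lit 0) (nat_lit 4) (nat_lit 7) (ST.br (nat_lit 4) (nat_lit 5) (nat_lit 7) (ST.leaf (nat_lit 4) (nat_lit 0) (nat_lit 1) (nat_lit 5) (nat_lit 7)) (ST.flip (nat_lit 0) (nat_lit 1) (nat_lit 9) (ST.br (nat_lit 0) (nat_lit 2) (nat_lit 9) (ST.leaf (nat_lit 0) (nat_lit 1) (nat_lit 3) (nat_lit 2) (nat_lit 9)) (ST.br (nat_lit 2) (nat_lit 5) (nat_lit 9) (ST.br (nat_lit 5) (nat_lit 7) (nat_lit 9) (ST.leaf (nat_lit 5) (nat_lit 2) (nat_lit 4) (nat_lit 9) (nat_lit 7)) (ST.flip (nat_lit 1) (nat_lit 9) (nat_lit 8) (ST.br (nat_lit 2) (nat_lit 8) (nat_lit 9) (ST.br (nat_lit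 2) (nat_lit 4) (nat_lit 8) (ST.leaf (nat_lit 2) (nat_lit 0) (nat_lit 4) (nat_lit 8) (nat_lit 9)) (ST.br (nat_lit 2) (nat_lit 6) (nat_lit 8) (ST.leaf (nat_lit 2) (nat_lit 0) (nat_lit 4) (nat_lit 6) (nat_lit 8)) (ST.br (nat_lit 0) (nat_lit 3) (nat_lit 4) (ST.br (nat_lit 0) (nat_lit 4) (nat_lit 6) (ST.leaf (nat_lit 0) (nat_lit 1) (nat_lit 3) (nat_lit 4) (nat_lit 6)) (ST.br (nat_lit 3) (nat_lit 4) (nat_lit 5) (ST.br (nat_lit 1) (nat_lit 2) (nat_lit 5) (ST.leaf (nat_lit 5) (nat_lit 1) (nat_lit 2) (nat_lit 3) (nat_lit 4)) (ST.br (nat_lit 1) (nat_lit 5) (nat_lit 7) (ST.br (nat_lit 4) (nat_lit 5) (nat_lit 6) (ST.br (nat_lit 1) (nat_lit 5) (nat_lit 6) (ST.leaf (nat_lit 5) (nat_lit 1) (nat_lit 2) (nat_lit 4) (nat_lit 6)) (ST.br (nat_lit 0) (nat_lit 1) (nat_lit 7) (ST.br (nat_lit 0) (nat_lit 7) (nat_lit 9) (ST.br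 (nat_lit 1) (nat_lit 5) (nat_lit 9) (ST.br (nat_lit 1) (nat_lit 2) (nat_lit 8) (ST.br (nat_lit 1) (nat_lit 6) (nat_lit 8) (ST.leaf (nat_lit 1) (nat_lit 2) (nat_lit 5) (nat_lit 8) (nat_lit 6)) (ST.br (nat_lit 1) (nat_lit 7) (nat_lit 8) (ST.br (nat_lit 2) (nat_lit 7) (nat_lit 8) (ST.br (nat_lit 7) (nat_lit 8) (nat_lit 9) (ST.leaf (nat_lit 7) (nat_lit 0) (nat_lit 1) (nat_lit 8) (nat_lit 9)) (ST.leaf (nat_lit 8) (nat_lit 1) (nat_lit 2) (nat_lit 7) (nat_lit 9))) (ST.leaf (nat_lit 8) (nat_lit 1) (nat_lit 6) (nat_lit 2) (nat_lit 7))) (ST.leaf (nat_lit 1) (nat_lit 0) (nat_lit 7) (nat_lit 8) (nat_lit 9)))) (ST.leaf (nat_lit 1) (nat_lit 2) (nat_lit 5) (nat_lit 8) (nat_lit 9))) (ST.leaf (nat_lit 1) (nat_lit 0) (nat_lit 7) (nat_lit 5) (nat_lit 9))) (ST.leaf (nat_lit 7) (nat_lit 0) (nat_lit 1) (nat_lit 5) (nat_lit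 9))) (ST.br (nat_lit 0) (nat_lit 2) (nat_lit 7) (ST.br (nat_lit 0) (nat_lit 7) (nat_lit 9) (ST.leaf (nat_lit 7) (nat_lit 0) (nat_lit 1) (nat_lit 9) (nat_lit 5)) (ST.br (nat_lit 1) (nat_lit 5) (nat_lit 9) (ST.leaf (nat_lit 1) (nat_lit 0) (nat_lit 7) (nat_lit 5) (nat_lit 9)) (ST.br (nat_lit 1) (nat_lit 2) (nat_lit 8) (ST.leaf (nat_lit 1) (nat_lit 2) (nat_lit 5) (nat_lit 8) (nat_lit 9)) (ST.br (nat_lit 1) (nat_lit 6) (nat_lit 8) (ST.br (nat_lit 1) (nat_lit 7) (nat_lit 8) (ST.leaf (nat_lit 1) (nat_lit 0) (nat_lit 7) (nat_lit 9) (nat_lit 8)) (ST.br (nat_lit 2) (nat_lit 7) (nat_lit 8) (ST.br (nat_lit 2) (nat_lit 3) (nat_lit 8) (ST.leaf (nat_lit 2) (nat_lit 0) (nat_lit 3) (nat_lit 7) (nat_lit 8)) (ST.br (nat_lit 7) (nat_lit 8) (nat_lit 9) (ST.br (nat_lit 6) (nat_lit 8) (nat_lit 9) (ST.leaf (nat_lit 8) (nat_lit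 1) (nat_lit 6) (nat_lit 9) (nat_lit 7)) (ST.br (nat_lit 0) (nat_lit 6) (nat_lit 9) (ST.br (nat_lit 0) (nat_lit 3) (nat_lit 9) (ST.br (nat_lit 0) (nat_lit 1) (nat_lit 5) (ST.br (nat_lit 0) (nat_lit 1) (nat_lit 8) (ST.br (nat_lit 0) (nat_lit 2) (nat_lit 5) (ST.leaf (nat_lit 0) (nat_lit 1) (nat_lit 3) (nat_lit 2) (nat_lit 5))
  (ST.br (nat_lit 0) (nat_lit 3) (nat_lit 8) (ST.br (nat_lit 0) (nat_lit 6) (nat_lit 8) (ST.br (nat_lit 1) (nat_lit 2) (nat_lit 3) (ST.leaf (nat_lit 1) (nat_lit 0) (nat_lit 3) (nat_lit 2) (nat_lit 5)) (ST.br (nat_lit 1) (nat_lit 2) (nat_lit 4) (ST.leaf (nat_lit 1) (nat_lit 0) (nat_lit 3) (nat_lit 4) (nat_lit 2)) (ST.br (nat_lit 1) (nat_lit 2) (nat_lit 6) (ST.leaf (nat_lit 1) (nat_lit 0) (nat_lit 3) (nat_lit 6) (nat_lit 2)) (ST.br (nat_lit 1) (nat_lit 6) (nat_lit 9) (ST.br (nat_lit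 1) (nat_lit 6) (nat_lit 7) (ST.leaf (nat_lit 1) (nat_lit 0) (nat_lit 7) (nat_lit 6) (nat_lit 9)) (ST.br (nat_lit 0) (nat_lit 6) (nat_lit 7) (ST.leaf (nat_lit 6) (nat_lit 0) (nat_lit 7) (nat_lit 1) (nat_lit 8)) (ST.br (nat_lit 0) (nat_lit 3) (nat_lit 7) (ST.leaf (nat_lit 0) (nat_lit 1) (nat_lit 3) (nat_lit 7) (nat_lit 6)) (ST.br (nat_lit 1) (nat_lit 3) (nat_lit 7) (ST.leaf (nat_lit 3) (nat_lit 0) (nat_lit 2) (nat_lit 1) (nat_lit 7)) (ST.br (nat_lit 1) (nat_lit 3) (nat_lit 9) (ST.br (nat_lit 1) (nat_lit 4) (nat_lit 9) (ST.br (nat_lit 0) (nat_lit 4) (nat_lit 9) (ST.br (nat_lit 0) (nat_lit 4) (nat_lit 8) (ST.br (nat_lit 0) (nat_lit 5) (nat_lit 8) (ST.br (nat_lit 2) (nat_lit 5) (nat_lit 8) (ST.leaf (nat_lit 2) (nat_lit 0) (nat_lit 3) (nat_lit 5) (nat_lit 8)) (ST.leaf (nat_lit 5) (nat_lit 0) (nat_lit 1) (nat_lit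 2) (nat_lit 8))) (ST.leaf (nat_lit 0) (nat_lit 1) (nat_lit 4) (nat_lit 8) (nat_lit 5))) (ST.leaf (nat_lit 0) (nat_lit 1) (nat_lit 8) (nat_lit 4) (nat_lit 9))) (ST.leaf (nat_lit 4) (nat_lit 0) (nat_lit 2) (nat_lit 1) (nat_lit 9))) (ST.leaf (nat_lit 1) (nat_lit 0) (nat_lit 3) (nat_lit 4) (nat_lit 9))) (ST.leaf (nat_lit 1) (nat_lit 0) (nat_lit 7) (nat_lit 9) (nat_lit 3))))))) (ST.leaf (nat_lit 6) (nat_lit 0) (nat_lit 2) (nat_lit 9) (nat_lit 1)))))) (ST.leaf (nat_lit 0) (nat_lit 1) (nat_lit 3) (nat_lit 8) (nat_lit 6))) (ST.leaf (nat_lit 0) (nat_lit 1) (nat_lit 8) (nat_lit 3) (nat_lit 9)))) (ST.leaf (nat_lit 1) (nat_lit 0) (nat_lit 5) (nat_lit 2) (nat_lit 8))) (ST.br (nat_lit 0) (nat_lit 1) (nat_lit 8) (ST.leaf (nat_lit 1) (nat_lit 0) (nat_lit 5) (nat_lit 8) (nat_lit 2)) (ST.br (nat_lit 0) (nat_lit 2) (nat_lit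 5) (ST.br (nat_lit 0) (nat_lit 3) (nat_lit 8) (ST.leaf (nat_lit 0) (nat_lit 1) (nat_lit 8) (nat_lit 9) (nat_lit 3)) (ST.br (nat_lit 0) (nat_lit 6) (nat_lit 8) (ST.leaf (nat_lit 0) (nat_lit 1) (nat_lit 3) (nat_lit 6) (nat_lit 8)) (ST.br (nat_lit 1) (nat_lit 2) (nat_lit 3) (ST.br (nat_lit 1) (nat_lit 2) (nat_lit 4) (ST.br (nat_lit 1) (nat_lit 2) (nat_lit 6) (ST.br (nat_lit 1) (nat_lit 6) (nat_lit 9) (ST.leaf (nat_lit 6) (nat_lit 0) (nat_lit 2) (nat_lit 1) (nat_lit 9)) (ST.br (nat_lit 1) (nat_lit 6) (nat_lit 7) (ST.br (nat_lit 0) (nat_lit 6) (nat_lit 7) (ST.leaf (nat_lit 6) (nat_lit 0) (nat_lit 7) (nat_lit 1) (nat_lit 8)) (ST.br (nat_lit 0) (nat_lit 3) (nat_lit 7) (ST.leaf (nat_lit 0) (nat_lit 1) (nat_lit 3) (nat_lit 7) (nat_lit 6)) (ST.br (nat_lit 1) (nat_lit 3) (nat_lit 7) (ST.br (nat_lit 1) (nat_lit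 3) (nat_lit 9) (ST.leaf (nat_lit 1) (nat_lit 0) (nat_lit 7) (nat_lit 3) (nat_lit 9)) (ST.br (nat_lit 1) (nat_lit 4) (nat_lit 9) (ST.leaf (nat_lit 1) (nat_lit 0) (nat_lit 3) (nat_lit 9) (nat_lit 4)) (ST.br (nat_lit 0) (nat_lit 4) (nat_lit 9) (ST.br (nat_lit 0) (nat_lit 4) (nat_lit 8) (ST.leaf (nat_lit 0) (nat_lit 1) (nat_lit 8) (nat_lit 9) (nat_lit 4)) (ST.br (nat_lit 0) (nat_lit 5) (nat_lit 8) (ST.br (nat_lit 2) (nat_lit 5) (nat_lit 8) (ST.leaf (nat_lit 5) (nat_lit 0) (nat_lit 1) (nat_lit 2) (nat_lit 8)) (ST.leaf (nat_lit 2) (nat_lit 0) (nat_lit 3) (nat_lit 8) (nat_lit 5))) (ST.leaf (nat_lit 0) (nat_lit 1) (nat_lit 4) (nat_lit 8) (nat_lit 5)))) (ST.leaf (nat_lit 4) (nat_lit 0) (nat_lit 2) (nat_lit 9) (nat_lit 1))))) (ST.leaf (nat_lit 3) (nat_lit 0) (nat_lit 2) (nat_lit 7) (nat_lit 1))))) (ST.leaf (nat_lit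 1) (nat_lit 0) (nat_lit 7) (nat_lit 9) (nat_lit 6)))) (ST.leaf (nat_lit 1) (nat_lit 0) (nat_lit 3) (nat_lit 2) (nat_lit 6))) (ST.leaf (nat_lit 1) (nat_lit 0) (nat_lit 3) (nat_lit 2) (nat_lit 4))) (ST.leaf (nat_lit 1) (nat_lit 0) (nat_lit 3)
  (nat_lit 2) (nat_lit 5))))) (ST.leaf (nat_lit 0) (nat_lit 1) (nat_lit 3) (nat_lit 5) (nat_lit 2))))) (ST.leaf (nat_lit 0) (nat_lit 1) (nat_lit 3) (nat_lit 6) (nat_lit 9))) (ST.leaf (nat_lit 6) (nat_lit 0) (nat_lit 2) (nat_lit 8) (nat_lit 9)))) (ST.leaf (nat_lit 7) (nat_lit 0) (nat_lit 1) (nat_lit 8) (nat_lit 9)))) (ST.leaf (nat_lit 8) (nat_lit 1) (nat_lit 6) (nat_lit 7) (nat_lit 2)))) (ST.leaf (nat_lit 1) (nat_lit 2) (nat_lit 5) (nat_lit 6) (nat_lit 8)))))) (ST.leaf (nat_lit 0) (nat_lit 1) (nat_lit 3) (nat_lit 7) (nat_lit 2))))) (ST.leaf (nat_lit 4) (nat_lit 0)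 (nat_lit 1) (nat_lit 6) (nat_lit 5))) (ST.leaf (nat_lit 5) (nat_lit 1) (nat_lit 2) (nat_lit 7) (nat_lit 4)))) (ST.leaf (nat_lit 3) (nat_lit 0) (nat_lit 1) (nat_lit 5) (nat_lit 4)))) (ST.br (nat_lit 0) (nat_lit 4) (nat_lit 6) (ST.br (nat_lit 3) (nat_lit 4) (nat_lit 5) (ST.leaf (nat_lit 3) (nat_lit 0) (nat_lit 1) (nat_lit 4) (nat_lit 5)) (ST.br (nat_lit 1) (nat_lit 2) (nat_lit 5) (ST.br (nat_lit 1) (nat_lit 5) (nat_lit 7) (ST.leaf (nat_lit 5) (nat_lit 1) (nat_lit 2) (nat_lit 4) (nat_lit 7)) (ST.br (nat_lit 4) (nat_lit 5) (nat_lit 6) (ST.leaf (nat_lit 4) (nat_lit 0) (nat_lit 1) (nat_lit 5) (nat_lit 6)) (ST.br (nat_lit 1) (nat_lit 5) (nat_lit 6) (ST.leaf (nat_lit 5) (nat_lit 1) (nat_lit 2) (nat_lit 4) (nat_lit 6)) (ST.br (nat_lit 0) (nat_lit 1) (nat_lit 7) (ST.br (nat_lit 0) (nat_lit 2) (nat_lit 7) (ST.leaf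 (nat_lit 0) (nat_lit 1) (nat_lit 3) (nat_lit 2) (nat_lit 7)) (ST.br (nat_lit 0) (nat_lit 7) (nat_lit 9) (ST.leaf (nat_lit 7) (nat_lit 0) (nat_lit 1) (nat_lit 5) (nat_lit 9)) (ST.br (nat_lit 1) (nat_lit 5) (nat_lit 9) (ST.leaf (nat_lit 1) (nat_lit 0) (nat_lit 7) (nat_lit 9) (nat_lit 5)) (ST.br (nat_lit 1) (nat_lit 2) (nat_lit 8) (ST.br (nat_lit 1) (nat_lit 6) (nat_lit 8) (ST.br (nat_lit 1) (nat_lit 7) (nat_lit 8) (ST.br (nat_lit 2) (nat_lit 7) (nat_lit 8) (ST.leaf (nat_lit 8) (nat_lit 1) (nat_lit 6) (nat_lit 2) (nat_lit 7)) (ST.br (nat_lit 2) (nat_lit 3) (nat_lit 8) (ST.leaf (nat_lit 2) (nat_lit 0) (nat_lit 3) (nat_lit 8) (nat_lit 7)) (ST.br (nat_lit 7) (nat_lit 8) (nat_lit 9) (ST.br (nat_lit 6) (nat_lit 8) (nat_lit 9) (ST.br (nat_lit 0) (nat_lit 6) (nat_lit 9) (ST.leaf (nat_lit 6) (nat_lit 0) (nat_lit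 2) (nat_lit 9) (nat_lit 8)) (ST.br (nat_lit 0) (nat_lit 3) (nat_lit 9) (ST.leaf (nat_lit 0) (nat_lit 1) (nat_lit 3) (nat_lit 9) (nat_lit 6)) (ST.br (nat_lit 0) (nat_lit 1) (nat_lit 5) (ST.br (nat_lit 0) (nat_lit 1) (nat_lit 8) (ST.br (nat_lit 0) (nat_lit 2) (nat_lit 5) (ST.leaf (nat_lit 0) (nat_lit 1) (nat_lit 3) (nat_lit 2) (nat_lit 5)) (ST.br (nat_lit 0) (nat_lit 3) (nat_lit 8) (ST.leaf (nat_lit 0) (nat_lit 1) (nat_lit 8) (nat_lit 9) (nat_lit 3)) (ST.br (nat_lit 0) (nat_lit 6) (nat_lit 8) (ST.leaf (nat_lit 0) (nat_lit 1) (nat_lit 3) (nat_lit 6) (nat_lit 8)) (ST.br (nat_lit 1) (nat_lit 2) (nat_lit 3) (ST.br (nat_lit 1) (nat_lit 2) (nat_lit 4) (ST.br (nat_lit 1) (nat_lit 2) (nat_lit 6) (ST.br (nat_lit 1) (nat_lit 6) (nat_lit 9) (ST.br (nat_lit 1) (nat_lit 6) (nat_lit 7) (ST.br (nat_lit 0) (nat_lit 6)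 (nat_lit 7) (ST.leaf (nat_lit 6) (nat_lit 0) (nat_lit 7) (nat_lit 1) (nat_lit 8)) (ST.br (nat_lit 0) (nat_lit 3) (nat_lit 7) (ST.leaf (nat_lit 0) (nat_lit 1) (nat_lit 3) (nat_lit 7) (nat_lit 6)) (ST.br (nat_lit 1) (nat_lit 3) (nat_lit 7) (ST.br (nat_lit 1) (nat_lit 3) (nat_lit 9) (ST.br (nat_lit 1) (nat_lit 4) (nat_lit 9) (ST.br (nat_lit 0) (nat_lit 4) (nat_lit 9) (ST.leaf (nat_lit 4) (nat_lit 0) (nat_lit 2) (nat_lit 1) (nat_lit 9)) (ST.br (nat_lit 0) (nat_lit 4) (nat_lit 8) (ST.leaf (nat_lit 0) (nat_lit 1) (nat_lit 8) (nat_lit 9) (nat_lit 4)) (ST.br (nat_lit 0) (nat_lit 5) (nat_lit 8) (ST.leaf (nat_lit 0) (nat_lit 1) (nat_lit 4) (nat_lit 5) (nat_lit 8)) (ST.br (nat_lit 2) (nat_lit 5) (nat_lit 8) (ST.leaf (nat_lit 2) (nat_lit 0) (nat_lit 3) (nat_lit 5) (nat_lit 8)) (ST.leaf (nat_lit 5) (nat_lit 0) (nat_lit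 1) (nat_lit 2) (nat_lit 8)))))) (ST.leaf (nat_lit 1) (nat_lit 0) (nat_lit 3) (nat_lit 4) (nat_lit 9))) (ST.leaf (nat_lit 1) (nat_lit 0) (nat_lit 7) (nat_lit 3)
  (nat_lit 9))) (ST.leaf (nat_lit 3) (nat_lit 0) (nat_lit 2) (nat_lit 7) (nat_lit 1))))) (ST.leaf (nat_lit 1) (nat_lit 0) (nat_lit 7) (nat_lit 9) (nat_lit 6))) (ST.leaf (nat_lit 6) (nat_lit 0) (nat_lit 2) (nat_lit 9) (nat_lit 1))) (ST.leaf (nat_lit 1) (nat_lit 0) (nat_lit 3) (nat_lit 2) (nat_lit 6))) (ST.leaf (nat_lit 1) (nat_lit 0) (nat_lit 3) (nat_lit 2) (nat_lit 4))) (ST.leaf (nat_lit 1) (nat_lit 0) (nat_lit 3) (nat_lit 5) (nat_lit 2)))))) (ST.leaf (nat_lit 1) (nat_lit 0) (nat_lit 5) (nat_lit 8) (nat_lit 2))) (ST.br (nat_lit 0) (nat_lit 1) (nat_lit 8) (ST.leaf (nat_lit 1) (nat_lit 0) (nat_lit 5) (nat_lit 2) (nat_lit 8)) (ST.br (nat_lit 0) (nat_lit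 2) (nat_lit 5) (ST.br (nat_lit 0) (nat_lit 3) (nat_lit 8) (ST.br (nat_lit 0) (nat_lit 6) (nat_lit 8) (ST.br (nat_lit 1) (nat_lit 2) (nat_lit 3) (ST.leaf (nat_lit 1) (nat_lit 0) (nat_lit 3) (nat_lit 5) (nat_lit 2)) (ST.br (nat_lit 1) (nat_lit 2) (nat_lit 4) (ST.leaf (nat_lit 1) (nat_lit 0) (nat_lit 3) (nat_lit 4) (nat_lit 2)) (ST.br (nat_lit 1) (nat_lit 2) (nat_lit 6) (ST.leaf (nat_lit 1) (nat_lit 0) (nat_lit 3) (nat_lit 6) (nat_lit 2)) (ST.br (nat_lit 1) (nat_lit 6) (nat_lit 9) (ST.leaf (nat_lit 6) (nat_lit 0) (nat_lit 2) (nat_lit 1) (nat_lit 9)) (ST.br (nat_lit 1) (nat_lit 6) (nat_lit 7) (ST.leaf (nat_lit 1) (nat_lit 0) (nat_lit 7) (nat_lit 6) (nat_lit 9)) (ST.br (nat_lit 0) (nat_lit 6) (nat_lit 7) (ST.leaf (nat_lit 6) (nat_lit 0) (nat_lit 7) (nat_lit 1) (nat_lit 8)) (ST.br (nat_lit 0) (nat_lit 3) (nat_lit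 7) (ST.leaf (nat_lit 0) (nat_lit 1) (nat_lit 3) (nat_lit 7) (nat_lit 6)) (ST.br (nat_lit 1) (nat_lit 3) (nat_lit 7) (ST.leaf (nat_lit 3) (nat_lit 0) (nat_lit 2) (nat_lit 1) (nat_lit 7)) (ST.br (nat_lit 1) (nat_lit 3) (nat_lit 9) (ST.leaf (nat_lit 1) (nat_lit 0) (nat_lit 7) (nat_lit 9) (nat_lit 3)) (ST.br (nat_lit 1) (nat_lit 4) (nat_lit 9) (ST.leaf (nat_lit 1) (nat_lit 0) (nat_lit 3) (nat_lit 9) (nat_lit 4)) (ST.br (nat_lit 0) (nat_lit 4) (nat_lit 9) (ST.leaf (nat_lit 4) (nat_lit 0) (nat_lit 2) (nat_lit 9) (nat_lit 1)) (ST.br (nat_lit 0) (nat_lit 4) (nat_lit 8) (ST.br (nat_lit 0) (nat_lit 5) (nat_lit 8) (ST.leaf (nat_lit 0) (nat_lit 1) (nat_lit 4) (nat_lit 5) (nat_lit 8)) (ST.br (nat_lit 2) (nat_lit 5) (nat_lit 8) (ST.leaf (nat_lit 5) (nat_lit 0) (nat_lit 1) (nat_lit 2) (nat_lit 8)) (ST.leaf (nat_lit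 2) (nat_lit 0) (nat_lit 3) (nat_lit 8) (nat_lit 5)))) (ST.leaf (nat_lit 0) (nat_lit 1) (nat_lit 8) (nat_lit 4) (nat_lit 9)))))))))))))) (ST.leaf (nat_lit 0) (nat_lit 1) (nat_lit 3) (nat_lit 8) (nat_lit 6))) (ST.leaf (nat_lit 0) (nat_lit 1) (nat_lit 8) (nat_lit 3) (nat_lit 9))) (ST.leaf (nat_lit 0) (nat_lit 1) (nat_lit 3) (nat_lit 5) (nat_lit 2))))))) (ST.leaf (nat_lit 8) (nat_lit 1) (nat_lit 6) (nat_lit 9) (nat_lit 7))) (ST.leaf (nat_lit 7) (nat_lit 0) (nat_lit 1) (nat_lit 9) (nat_lit 8))))) (ST.leaf (nat_lit 1) (nat_lit 0) (nat_lit 7) (nat_lit 8) (nat_lit 9))) (ST.leaf (nat_lit 1) (nat_lit 2) (nat_lit 5) (nat_lit 8) (nat_lit 6))) (ST.leaf (nat_lit 1) (nat_lit 2) (nat_lit 5) (nat_lit 9) (nat_lit 8)))))) (ST.br (nat_lit 0) (nat_lit 7) (nat_lit 9) (ST.br (nat_lit 1) (nat_lit 5) (nat_lit 9) (ST.br (nat_lit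 1) (nat_lit 2) (nat_lit 8) (ST.leaf (nat_lit 1) (nat_lit 2) (nat_lit 5) (nat_lit 9) (nat_lit 8)) (ST.br (nat_lit 1) (nat_lit 6) (nat_lit 8) (ST.leaf (nat_lit 1) (nat_lit 2) (nat_lit 5) (nat_lit 6) (nat_lit 8)) (ST.br (nat_lit 1) (nat_lit 7) (nat_lit 8) (ST.leaf (nat_lit 1) (nat_lit 0) (nat_lit 7) (nat_lit 9) (nat_lit 8)) (ST.br (nat_lit 2) (nat_lit 7) (nat_lit 8) (ST.leaf (nat_lit 8) (nat_lit 1) (nat_lit 6) (nat_lit 7) (nat_lit 2)) (ST.br (nat_lit 7) (nat_lit 8) (nat_lit 9) (ST.leaf (nat_lit 7) (nat_lit 0) (nat_lit 1) (nat_lit 9) (nat_lit 8)) (ST.leaf (nat_lit 8) (nat_lit 1) (nat_lit 2) (nat_lit 9) (nat_lit 7))))))) (ST.leaf (nat_lit 1) (nat_lit 0) (nat_lit 7) (nat_lit 9) (nat_lit 5))) (ST.leaf (nat_lit 7) (nat_lit 0) (nat_lit 1) (nat_lit 9) (nat_lit 5))))))) (ST.leaf (nat_lit 5) (nat_lit 1) (nat_lit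 2) (nat_lit 3) (nat_lit 4)))) (ST.leaf (nat_lit 0) (nat_lit 1) (nat_lit 3)
  (nat_lit 6) (nat_lit 4)))))) (ST.leaf (nat_lit 9) (nat_lit 0) (nat_lit 1) (nat_lit 8) (nat_lit 2))))) (ST.leaf (nat_lit 2) (nat_lit 0) (nat_lit 4) (nat_lit 9) (nat_lit 5))))))) (ST.leaf (nat_lit 2) (nat_lit 0) (nat_lit 4) (nat_lit 6) (nat_lit 5)))))) (ST.leaf (nat_lit 1) (nat_lit 0) (nat_lit 3) (nat_lit 4) (nat_lit 5))))))))

theorem pat5_ok : patV pat5 tree5 = true := by decide +kernel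

def pat6 : Pat := Pat.mk (nat_lit 10) (List.cons (nat_lit 52) (List.cons (nat_lit 7) (List.cons (nat_lit 524) (List.cons (nat_lit 82) (List.cons (nat_lit 200) (List.cons (nat_lit 770) (List.cons (nat_lit 388) (List.cons (nat_lit 641) (List.cons (nat_lit 97) (List.cons (nat_lit 42) (List.cons (nat_lit 281) List.nil)))))))))))

noncomputable def tree6 : ST :=
  (ST.flip (nat_lit 1) (nat_lit 3) (nat_lit 0) (ST.flip (nat_lit 0) (nat_lit 3) (nat_lit 2) (ST.flip (nat_lit 0) (nat_lit 1) (nat_lit 4) (ST.br (nat_lit 0) (nat_lit 2) (nat_lit 4) (ST.leaf (nat_lit 0) (nat_lit 1) (nat_lit 3) (nat_lit 2) (nat_lit 4)) (ST.flip (nat_lit 0) (nat_lit 1) (nat_lit 5) (ST.br (nat_lit 0) (nat_lit 2) (nat_lit 5) (ST.leaf (nat_lit 0) (nat_lit 1) (nat_lit 3) (nat_lit 2) (nat_lit 5)) (ST.flip (nat_lit 1) (nat_lit 3) (nat_lit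 6) (ST.br (nat_lit 1) (nat_lit 5) (nat_lit 6) (ST.br (nat_lit 2) (nat_lit 5) (nat_lit 6) (ST.leaf (nat_lit 5) (nat_lit 0) (nat_lit 1) (nat_lit 6) (nat_lit 2)) (ST.br (nat_lit 2) (nat_lit 4) (nat_lit 6) (ST.leaf (nat_lit 2) (nat_lit 0) (nat_lit 4) (nat_lit 6) (nat_lit 5)) (ST.flip (nat_lit 1) (nat_lit 3) (nat_lit 8) (ST.br (nat_lit 2) (nat_lit 3) (nat_lit 8) (ST.leaf (nat_lit 3) (nat_lit 0) (nat_lit 1) (nat_lit 8) (nat_lit 2)) (ST.flip (nat_lit 0) (nat_lit 3) (nat_lit 9) (ST.flip (nat_lit 0) (nat_lit 3) (nat_lit 7) (ST.br (nat_lit 0) (nat_lit 3) (nat_lit 6) (ST.br (nat_lit 0) (nat_lit 4) (nat_lit 6) (ST.br (nat_lit 1) (nat_lit 2) (nat_lit 4) (ST.br (nat_lit 1) (nat_lit 2) (nat_lit 3) (ST.br (nat_lit 1) (nat_lit 3) (nat_lit 7) (ST.br (nat_lit 1) (nat_lit 3) (nat_lit 9) (ST.leaf (nat_lit 3) (nat_lit 0)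 (nat_lit 2) (nat_lit 1) (nat_lit 9)) (ST.br (nat_lit 2) (nat_lit 3) (nat_lit 7) (ST.leaf (nat_lit 3) (nat_lit 0) (nat_lit 1) (nat_lit 7) (nat_lit 2)) (ST.br (nat_lit 0) (nat_lit 1) (nat_lit 7) (ST.br (nat_lit 0) (nat_lit 1) (nat_lit 9) (ST.br (nat_lit 0) (nat_lit 1) (nat_lit 8) (ST.leaf (nat_lit 1) (nat_lit 0) (nat_lit 8) (nat_lit 3) (nat_lit 9)) (ST.br (nat_lit 0) (nat_lit 2) (nat_lit 7) (ST.leaf (nat_lit 0) (nat_lit 1) (nat_lit 3) (nat_lit 2) (nat_lit 7)) (ST.br (nat_lit 0) (nat_lit 2) (nat_lit 8) (ST.leaf (nat_lit 2) (nat_lit 0) (nat_lit 7) (nat_lit 8) (nat_lit 3)) (ST.leaf (nat_lit 0) (nat_lit 1) (nat_lit 3) (nat_lit 8) (nat_lit 2))))) (ST.leaf (nat_lit 0) (nat_lit 1) (nat_lit 7) (nat_lit 3) (nat_lit 9))) (ST.br (nat_lit 0) (nat_lit 1) (nat_lit 9) (ST.leaf (nat_lit 0) (nat_lit 1) (nat_lit 7) (nat_lit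 9) (nat_lit 3)) (ST.br (nat_lit 0) (nat_lit 1) (nat_lit 8) (ST.br (nat_lit 0) (nat_lit 2) (nat_lit 7) (ST.br (nat_lit 0) (nat_lit 2) (nat_lit 8) (ST.leaf (nat_lit 0) (nat_lit 1) (nat_lit 3) (nat_lit 2) (nat_lit 8)) (ST.leaf (nat_lit 2) (nat_lit 0) (nat_lit 7) (nat_lit 3) (nat_lit 8))) (ST.leaf (nat_lit 0) (nat_lit 1) (nat_lit 3) (nat_lit 7) (nat_lit 2))) (ST.leaf (nat_lit 1) (nat_lit 0) (nat_lit 8) (nat_lit 9) (nat_lit 3))))))) (ST.leaf (nat_lit 3) (nat_lit 0) (nat_lit 6) (nat_lit 7) (nat_lit 1))) (ST.leaf (nat_lit 1) (nat_lit 0) (nat_lit 3) (nat_lit 4) (nat_lit 2))) (ST.leaf (nat_lit 4) (nat_lit 0) (nat_lit 1) (nat_lit 2) (nat_lit 6))) (ST.leaf (nat_lit 0) (nat_lit 1) (nat_lit 3) (nat_lit 6) (nat_lit 4))) (ST.br (nat_lit 0) (nat_lit 4) (nat_lit 6) (ST.leaf (nat_lit 0) (nat_lit 1) (nat_lit 3) (nat_lit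 4) (nat_lit 6)) (ST.br (nat_lit 1) (nat_lit 2) (nat_lit 4) (ST.leaf (nat_lit 4) (nat_lit 0) (nat_lit 1) (nat_lit 2) (nat_lit 6)) (ST.br (nat_lit 1) (nat_lit 2) (nat_lit 3) (ST.leaf (nat_lit 1) (nat_lit 0) (nat_lit 3) (nat_lit 2) (nat_lit 4)) (ST.br (nat_lit 1) (nat_lit 3) (nat_lit 7) (ST.leaf (nat_lit 3) (nat_lit 0) (nat_lit 6) (nat_lit 7) (nat_lit 1)) (ST.br (nat_lit 1) (nat_lit 3) (nat_lit 9) (ST.br (nat_lit 2) (nat_lit 3) (nat_lit 7) (ST.br (nat_lit 0) (nat_lit 1) (nat_lit 7) (ST.br (nat_lit 0) (nat_lit 1) (nat_lit 9) (ST.br (nat_lit 0) (nat_lit 1) (nat_lit 8) (ST.br (nat_lit 0) (nat_lit 2) (nat_lit 7) (ST.leaf (nat_lit 0) (nat_lit 1) (nat_lit 3) (nat_lit 2) (nat_lit 7)) (ST.br (nat_lit 0) (nat_lit 2) (nat_lit 8) (ST.leaf (nat_lit 0) (nat_lit 1) (nat_lit 3) (nat_lit 2) (nat_lit 8)) (ST.leaf (nat_lit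 2) (nat_lit 0) (nat_lit 7) (nat_lit 8) (nat_lit 3)))) (ST.leaf (nat_lit 1) (nat_lit 0) (nat_lit 8) (nat_lit 3) (nat_lit 9))) (ST.leaf (nat_lit 0) (nat_lit 1) (nat_lit 7) (nat_lit 3) (nat_lit 9))) (ST.br (nat_lit 0) (nat_lit 1) (nat_lit 9) (ST.leaf (nat_lit 0) (nat_lit 1) (nat_lit 7) (nat_lit 9)
  (nat_lit 3)) (ST.br (nat_lit 0) (nat_lit 1) (nat_lit 8) (ST.leaf (nat_lit 1) (nat_lit 0) (nat_lit 8) (nat_lit 9) (nat_lit 3)) (ST.br (nat_lit 0) (nat_lit 2) (nat_lit 7) (ST.br (nat_lit 0) (nat_lit 2) (nat_lit 8) (ST.leaf (nat_lit 2) (nat_lit 0) (nat_lit 7) (nat_lit 3) (nat_lit 8)) (ST.leaf (nat_lit 0) (nat_lit 1) (nat_lit 3) (nat_lit 8) (nat_lit 2))) (ST.leaf (nat_lit 0) (nat_lit 1) (nat_lit 3) (nat_lit 7) (nat_lit 2)))))) (ST.leaf (nat_lit 3) (nat_lit 0) (nat_lit 1) (nat_lit 2) (nat_lit 7))) (ST.leaf (nat_lit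 3) (nat_lit 0) (nat_lit 2) (nat_lit 9) (nat_lit 1)))))))))))))) (ST.leaf (nat_lit 1) (nat_lit 0) (nat_lit 3) (nat_lit 5) (nat_lit 6))))))))))

theorem pat6_ok : patV pat6 tree6 = true := by decide +kernel

def patLib : BT Pat := (BT.node (BT.node (BT.node (BT.leaf pat0) (BT.leaf pat4)) (BT.node (BT.leaf pat2) (BT.leaf pat6))) (BT.node (BT.node (BT.leaf pat1) (BT.leaf pat5)) (BT.leaf pat3)))

end Pool.Agent.MP_1f1ca1_co
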