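import Pool.Agent.MP_1f1ca1_co.Sound3
import Pool.Agent.MP_1f1ca1_co.Cert.Pats

set_option autoImplicit false
set_option maxRecDepth 1000000
set_option maxHeartbeats 0

namespace Pool.Agent.MP_1f1ca1_co

theorem patLib_bad : ∀ i, PatBad (patLib.get i) :=
  BT.All.get (q := PatBad) (t := patLib) ⟨⟨⟨patV_sound pat0_ok, patV_sound pat4_ok⟩, ⟨patV_sound pat2_ok, patV_sound pat6_ok⟩⟩, ⟨⟨patV_sound pat1_ok, patV_sound pat5_ok⟩, patV_sound pat3_ok⟩⟩

end Pool.Agent.MP_1f1ca1_co
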